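import Pool.Agent.H94.Five.Mid.Fam

set_option autoImplicit false
set_option linter.all false
set_option maxRecDepth 100000

/-! Second has the cell (10, 10): some of the other stones. -/

namespace Pool.Agent.H94.Five.Mid.K10_10_0

open Pool.Agent.H79.Five Pool.Agent.H10.Five Pool.Agent.H94.Five.M

abbrev nl : List Ent := [n0, n3, n4, n6, n8, n9, n10, n11, n16, n17, n21, n22]

theorem nl_ok : AC XB M0 nl := .cons n0k <| .cons n3k <| .cons n4k <| .cons n6k <| .cons n8k <| .cons n9k <| .cons n10k <| .cons n11k <| .cons n16k <| .cons n17k <| .cons n21k <| .cons n22k <| .nil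

abbrev fl : List Ent := (x73 :: x103 :: x130 :: x167 :: x174 :: x183 :: x201 :: x204 :: x245 :: x255 :: x258 :: x266 :: x276 :: x310 :: x316 :: x328 :: x357 :: x364 :: x371 :: x375 :: x383 :: x390 :: x424 :: x427 :: x437 :: x451 :: x501 :: [])

theorem fl_ok : AC XB M0 fl := .cons x73k <| .cons x103k <| .cons x130k <| .cons x167k <| .cons x174k <| .cons x183k <| .cons x201k <| .cons x204k <| .cons x245k <| .cons x255k <| .cons x258k <| .cons x266k <| .cons x276k <| .cons x310k <| .cons x316k <| .cons x328k <| .cons x357k <| .cons x364k <| .cons x371k <| .cons x375k <| .cons x383k <| .cons x390k <| .cons x424k <| .cons x427k <| .cons x437k <| .cons x451k <| .cons x501k <| .nil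

theorem v4_2551 : VW (PX [] [561,693]) := VW.of base nl_ok fl_ok .nil
  [(594, (.cons 627 660 (.cons 495 528 .nil (.cons 528 495 .nil .nil)) (.cons 660 627 .nil .nil))), (627, (.cons 594 660 (.cons 495 528 .nil (.cons 528 495 .nil .nil)) (.cons 660 594 (.cons 726 759 .nil (.cons 759 726 .nil .nil)) .nil))), (660, (.cons 594 627 .nil (.cons 627 594 (.cons 726 759 .nil (.cons 759 726 .nil .nil)) .nil)))]
  []
  (by decide +kernel) trivial

theorem v4_1735 : VW (PX [] [565,693]) := VW.of base nl_ok fl_ok .nil
  [(597, (.cons 629 661 (.cons 501 533 .nil (.cons 533 501 .nil .nil)) (.cons 661 629 .nil .nil))), (629, (.cons 597 661 (.cons 501 533 .nil (.cons 533 501 .nil .nil)) (.cons 661 597 (.cons 725 757 .nil (.cons 757 725 .nil .nil)) .nil))), (661, (.cons 597 629 .nil (.cons 629 597 (.cons 725 757 .nil (.cons 757 725 .nil .nil)) .nil)))]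
  []
  (by decide +kernel) trivial

theorem v4_2552 : VW (PX [] [569,693]) := VW.of base nl_ok fl_ok .nil
  [(600, (.cons 631 662 (.cons 507 538 .nil (.cons 538 507 .nil .nil)) (.cons 662 631 .nil .nil))), (631, (.cons 600 662 (.cons 507 538 .nil (.cons 538 507 .nil .nil)) (.cons 662 600 (.cons 724 755 .nil (.cons 755 724 .nil .nil)) .nil))), (662, (.cons 600 631 .nil (.cons 631 600 (.cons 724 755 .nil (.cons 755 724 .nil .nil)) .nil)))]
  []
  (by decide +kernel) trivial

theorem v4_2556 : VW (PX [660] [594,627,693]) := VW.of base nl_ok fl_ok .nil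
  [(495, (.cons 528 561 .nil (.cons 561 528 .nil .nil))), (528, (.cons 495 561 .nil (.cons 561 495 .nil .nil))), (561, (.cons 495 528 .nil (.cons 528 495 .nil .nil)))]
  []
  (by decide +kernel) trivial

theorem v4_2571 : VW (PX [627] [594,660,693]) := VW.of base nl_ok fl_ok .nil
  [(726, (.cons 759 792 .nil (.cons 792 759 .nil .nil))), (759, (.cons 726 792 .nil (.cons 792 726 .nil .nil))), (792, (.cons 726 759 .nil (.cons 759 726 .nil .nil)))]
  []
  (by decide +kernel) trivial

theorem w4_2572_627 : S (PX [] [594,627,693]) := VW.play 660 (PX [660] [594,627,693]) (by decide +kernel) v4_2556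

theorem w4_2572_660 : S (PX [] [594,660,693]) := VW.play 627 (PX [627] [594,660,693]) (by decide +kernel) v4_2571

theorem v4_2572 : VW (PX [] [594,693]) := VW.of base nl_ok fl_ok .nil
  [(561, (.cons 627 660 (.cons 495 528 .nil (.cons 528 495 .nil .nil)) (.cons 660 627 .nil .nil))), (726, (.cons 627 660 .nil (.cons 660 627 (.cons 759 792 .nil (.cons 792 759 .nil .nil)) .nil)))]
  [([627], (PX [] [594,627,693])), ([660], (PX [] [594,660,693]))]
  (by decide +kernel) ⟨w4_2572_627, w4_2572_660, trivial⟩

theorem v4_1947 : VW (PX [661] [597,629,693]) := VW.of base nl_ok fl_ok .nil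
  [(501, (.cons 533 565 .nil (.cons 565 533 .nil .nil))), (533, (.cons 501 565 .nil (.cons 565 501 .nil .nil))), (565, (.cons 501 533 .nil (.cons 533 501 .nil .nil)))]
  []
  (by decide +kernel) trivial

theorem v4_2009 : VW (PX [629] [597,661,693]) := VW.of base nl_ok fl_ok .nil
  [(725, (.cons 757 789 .nil (.cons 789 757 .nil .nil))), (757, (.cons 725 789 .nil (.cons 789 725 .nil .nil))), (789, (.cons 725 757 .nil (.cons 757 725 .nil .nil)))]
  []
  (by decide +kernel) trivial

theorem w4_2018_629 : S (PX [] [597,629,693]) := VW.play 661 (PX [661] [597,629,693]) (by decide +kernel) v4_1947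

theorem w4_2018_661 : S (PX [] [597,661,693]) := VW.play 629 (PX [629] [597,661,693]) (by decide +kernel) v4_2009

theorem v4_2018 : VW (PX [] [597,693]) := VW.of base nl_ok fl_ok .nil
  [(565, (.cons 629 661 (.cons 501 533 .nil (.cons 533 501 .nil .nil)) (.cons 661 629 .nil .nil))), (725, (.cons 629 661 .nil (.cons 661 629 (.cons 757 789 .nil (.cons 789 757 .nil .nil)) .nil)))]
  [([629], (PX [] [597,629,693])), ([661], (PX [] [597,661,693]))]
  (by decide +kernel) ⟨w4_2018_629, w4_2018_661, trivial⟩

theorem v4_2576 : VW (PX [662] [600,631,693]) := VW.of base nl_ok fl_ok .nil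
  [(507, (.cons 538 569 .nil (.cons 569 538 .nil .nil))), (538, (.cons 507 569 .nil (.cons 569 507 .nil .nil))), (569, (.cons 507 538 .nil (.cons 538 507 .nil .nil)))]
  []
  (by decide +kernel) trivial

theorem v4_2591 : VW (PX [631] [600,662,693]) := VW.of base nl_ok fl_ok .nil
  [(724, (.cons 755 786 .nil (.cons 786 755 .nil .nil))), (755, (.cons 724 786 .nil (.cons 786 724 .nil .nil))), (786, (.cons 724 755 .nil (.cons 755 724 .nil .nil)))]
  []
  (by decide +kernel) trivial

theorem w4_2592_631 : S (PX [] [600,631,693]) := VW.play 662 (PX [662] [600,631,693]) (by decide +kernel) v4_2576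

theorem w4_2592_662 : S (PX [] [600,662,693]) := VW.play 631 (PX [631] [600,662,693]) (by decide +kernel) v4_2591

theorem v4_2592 : VW (PX [] [600,693]) := VW.of base nl_ok fl_ok .nil
  [(569, (.cons 631 662 (.cons 507 538 .nil (.cons 538 507 .nil .nil)) (.cons 662 631 .nil .nil))), (724, (.cons 631 662 .nil (.cons 662 631 (.cons 755 786 .nil (.cons 786 755 .nil .nil)) .nil)))]
  [([631], (PX [] [600,631,693])), ([662], (PX [] [600,662,693]))]
  (by decide +kernel) ⟨w4_2592_631, w4_2592_662, trivial⟩

theorem v4_2593 : VW (PX [594,759] [627,660,693,726]) := VW.of base nl_ok fl_ok .nil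
  []
  []
  (by decide +kernel) trivial

theorem v4_2594 : VW (PX [594,726] [627,660,693,759]) := VW.of base nl_ok fl_ok .nil
  []
  []
  (by decide +kernel) trivial

theorem w4_2595_726 : S (PX [594] [627,660,693,726]) := VW.play 759 (PX [594,759] [627,660,693,726]) (by decide +kernel) v4_2593

theorem w4_2595_759 : S (PX [594] [627,660,693,759]) := VW.play 726 (PX [594,726] [627,660,693,759]) (by decide +kernel) v4_2594

theorem v4_2595 : VW (PX [594] [627,660,693]) := VW.of base nl_ok fl_ok (.cons 726 759 .nil (.cons 759 726 .nil .nil))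
  [(792, (.cons 726 759 .nil (.cons 759 726 .nil .nil))), (825, (.cons 726 759 .nil (.cons 759 726 .nil .nil))), (858, (.cons 726 759 .nil (.cons 759 726 .nil .nil)))]
  [([726], (PX [594] [627,660,693,726])), ([759], (PX [594] [627,660,693,759]))]
  (by decide +kernel) ⟨w4_2595_726, w4_2595_759, trivial⟩

theorem v4_2596 : VW (PX [660] [627,693,726]) := VW.of base nl_ok fl_ok .nil
  [(759, (.cons 792 825 .nil (.cons 825 792 .nil .nil))), (792, (.cons 759 825 .nil (.cons 825 759 .nil .nil))), (825, (.cons 759 792 .nil (.cons 792 759 .nil .nil)))]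
  []
  (by decide +kernel) trivial

theorem w4_2599_594 : S (PX [] [594,627,693]) := VW.play 660 (PX [660] [594,627,693]) (by decide +kernel) v4_2556

theorem w4_2599_660 : S (PX [] [627,660,693]) := VW.play 594 (PX [594] [627,660,693]) (by decide +kernel) v4_2595

theorem w4_2599_726 : S (PX [] [627,693,726]) := VW.play 660 (PX [660] [627,693,726]) (by decide +kernel) v4_2596

theorem v4_2599 : VW (PX [] [627,693]) := VW.of base nl_ok fl_ok .nil
  [(561, (.cons 594 660 (.cons 495 528 .nil (.cons 528 495 .nil .nil)) (.cons 660 594 (.cons 726 759 .nil (.cons 759 726 .nil .nil)) .nil))), (759, (.cons 660 726 (.cons 561 594 .nil (.cons 594 561 .nil .nil)) (.cons 726 660 (.cons 792 825 .nil (.cons 825 792 .nil .nil)) .nil)))]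
  [([594], (PX [] [594,627,693])), ([660], (PX [] [627,660,693])), ([726], (PX [] [627,693,726]))]
  (by decide +kernel) ⟨w4_2599_594, w4_2599_660, w4_2599_726, trivial⟩

theorem v4_2240 : VW (PX [597,757] [629,661,693,725]) := VW.of base nl_ok fl_ok .nil
  []
  []
  (by decide +kernel) trivial

theorem v4_2241 : VW (PX [597,725] [629,661,693,757]) := VW.of base nl_ok fl_ok .nil
  []
  []
  (by decide +kernel) trivial

theorem w4_2242_725 : S (PX [597] [629,661,693,725]) := VW.play 757 (PX [597,757] [629,661,693,725]) (by decide +kernel) v4_2240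

theorem w4_2242_757 : S (PX [597] [629,661,693,757]) := VW.play 725 (PX [597,725] [629,661,693,757]) (by decide +kernel) v4_2241

theorem v4_2242 : VW (PX [597] [629,661,693]) := VW.of base nl_ok fl_ok (.cons 725 757 .nil (.cons 757 725 .nil .nil))
  [(789, (.cons 725 757 .nil (.cons 757 725 .nil .nil))), (821, (.cons 725 757 .nil (.cons 757 725 .nil .nil))), (853, (.cons 725 757 .nil (.cons 757 725 .nil .nil)))]
  [([725], (PX [597] [629,661,693,725])), ([757], (PX [597] [629,661,693,757]))]
  (by decide +kernel) ⟨w4_2242_725, w4_2242_757, trivial⟩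

theorem v4_2281 : VW (PX [661] [629,693,725]) := VW.of base nl_ok fl_ok .nil
  [(757, (.cons 789 821 .nil (.cons 821 789 .nil .nil))), (789, (.cons 757 821 .nil (.cons 821 757 .nil .nil))), (821, (.cons 757 789 .nil (.cons 789 757 .nil .nil)))]
  []
  (by decide +kernel) trivial

theorem w4_2284_597 : S (PX [] [597,629,693]) := VW.play 661 (PX [661] [597,629,693]) (by decide +kernel) v4_1947

theorem w4_2284_661 : S (PX [] [629,661,693]) := VW.play 597 (PX [597] [629,661,693]) (by decide +kernel) v4_2242

theorem w4_2284_725 : S (PX [] [629,693,725]) := VW.play 661 (PX [661] [629,693,725]) (by decide +kernel) v4_2281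

theorem v4_2284 : VW (PX [] [629,693]) := VW.of base nl_ok fl_ok .nil
  [(565, (.cons 597 661 (.cons 501 533 .nil (.cons 533 501 .nil .nil)) (.cons 661 597 (.cons 725 757 .nil (.cons 757 725 .nil .nil)) .nil))), (757, (.cons 661 725 (.cons 565 597 .nil (.cons 597 565 .nil .nil)) (.cons 725 661 (.cons 789 821 .nil (.cons 821 789 .nil .nil)) .nil)))]
  [([597], (PX [] [597,629,693])), ([661], (PX [] [629,661,693])), ([725], (PX [] [629,693,725]))]
  (by decide +kernel) ⟨w4_2284_597, w4_2284_661, w4_2284_725, trivial⟩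

theorem v4_2600 : VW (PX [600,755] [631,662,693,724]) := VW.of base nl_ok fl_ok .nil
  []
  []
  (by decide +kernel) trivial

theorem v4_2601 : VW (PX [600,724] [631,662,693,755]) := VW.of base nl_ok fl_ok .nil
  []
  []
  (by decide +kernel) trivial

theorem w4_2602_724 : S (PX [600] [631,662,693,724]) := VW.play 755 (PX [600,755] [631,662,693,724]) (by decide +kernel) v4_2600

theorem w4_2602_755 : S (PX [600] [631,662,693,755]) := VW.play 724 (PX [600,724] [631,662,693,755]) (by decide +kernel) v4_2601

theorem v4_2602 : VW (PX [600] [631,662,693]) := VW.of base nl_ok fl_ok (.cons 724 755 .nil (.cons 755 724 .nil .nil))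
  [(786, (.cons 724 755 .nil (.cons 755 724 .nil .nil))), (817, (.cons 724 755 .nil (.cons 755 724 .nil .nil))), (848, (.cons 724 755 .nil (.cons 755 724 .nil .nil)))]
  [([724], (PX [600] [631,662,693,724])), ([755], (PX [600] [631,662,693,755]))]
  (by decide +kernel) ⟨w4_2602_724, w4_2602_755, trivial⟩

theorem v4_2603 : VW (PX [662] [631,693,724]) := VW.of base nl_ok fl_ok .nil
  [(755, (.cons 786 817 .nil (.cons 817 786 .nil .nil))), (786, (.cons 755 817 .nil (.cons 817 755 .nil .nil))), (817, (.cons 755 786 .nil (.cons 786 755 .nil .nil)))]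
  []
  (by decide +kernel) trivial

theorem w4_2606_600 : S (PX [] [600,631,693]) := VW.play 662 (PX [662] [600,631,693]) (by decide +kernel) v4_2576

theorem w4_2606_662 : S (PX [] [631,662,693]) := VW.play 600 (PX [600] [631,662,693]) (by decide +kernel) v4_2602

theorem w4_2606_724 : S (PX [] [631,693,724]) := VW.play 662 (PX [662] [631,693,724]) (by decide +kernel) v4_2603

theorem v4_2606 : VW (PX [] [631,693]) := VW.of base nl_ok fl_ok .nil
  [(569, (.cons 600 662 (.cons 507 538 .nil (.cons 538 507 .nil .nil)) (.cons 662 600 (.cons 724 755 .nil (.cons 755 724 .nil .nil)) .nil))), (755, (.cons 662 724 (.cons 569 600 .nil (.cons 600 569 .nil .nil)) (.cons 724 662 (.cons 786 817 .nil (.cons 817 786 .nil .nil)) .nil)))]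
  [([600], (PX [] [600,631,693])), ([662], (PX [] [631,662,693])), ([724], (PX [] [631,693,724]))]
  (by decide +kernel) ⟨w4_2606_600, w4_2606_662, w4_2606_724, trivial⟩

theorem v4_2607 : VW (PX [627,792] [660,693,726,759]) := VW.of base nl_ok fl_ok .nil
  []
  []
  (by decide +kernel) trivial

theorem v4_2608 : VW (PX [627,759] [660,693,726,792]) := VW.of base nl_ok fl_ok .nil
  []
  []
  (by decide +kernel) trivial

theorem w4_2609_759 : S (PX [627] [660,693,726,759]) := VW.play 792 (PX [627,792] [660,693,726,759]) (by decide +kernel) v4_2607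

theorem w4_2609_792 : S (PX [627] [660,693,726,792]) := VW.play 759 (PX [627,759] [660,693,726,792]) (by decide +kernel) v4_2608

theorem v4_2609 : VW (PX [627] [660,693,726]) := VW.of base nl_ok fl_ok (.cons 759 792 .nil (.cons 792 759 .nil .nil))
  [(825, (.cons 759 792 .nil (.cons 792 759 .nil .nil))), (858, (.cons 759 792 .nil (.cons 792 759 .nil .nil))), (891, (.cons 759 792 .nil (.cons 792 759 .nil .nil)))]
  [([759], (PX [627] [660,693,726,759])), ([792], (PX [627] [660,693,726,792]))]
  (by decide +kernel) ⟨w4_2609_759, w4_2609_792, trivial⟩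

theorem v4_2614 : VW (PX [726] [660,693,759]) := VW.of base nl_ok fl_ok .nil
  [(561, (.cons 594 627 .nil (.cons 627 594 .nil .nil))), (594, (.cons 561 627 .nil (.cons 627 561 .nil .nil))), (627, (.cons 561 594 .nil (.cons 594 561 .nil .nil)))]
  []
  (by decide +kernel) trivial

theorem w4_2615_594 : S (PX [] [594,660,693]) := VW.play 627 (PX [627] [594,660,693]) (by decide +kernel) v4_2571

theorem w4_2615_627 : S (PX [] [627,660,693]) := VW.play 594 (PX [594] [627,660,693]) (by decide +kernel) v4_2595

theorem w4_2615_726 : S (PX [] [660,693,726]) := VW.play 627 (PX [627] [660,693,726]) (by decide +kernel) v4_2609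

theorem w4_2615_759 : S (PX [] [660,693,759]) := VW.play 726 (PX [726] [660,693,759]) (by decide +kernel) v4_2614

theorem v4_2615 : VW (PX [] [660,693]) := VW.of base nl_ok fl_ok .nil
  [(561, (.cons 594 627 .nil (.cons 627 594 (.cons 726 759 .nil (.cons 759 726 .nil .nil)) .nil))), (792, (.cons 726 759 (.cons 594 627 .nil (.cons 627 594 .nil .nil)) (.cons 759 726 .nil .nil)))]
  [([594], (PX [] [594,660,693])), ([627], (PX [] [627,660,693])), ([726], (PX [] [660,693,726])), ([759], (PX [] [660,693,759]))]
  (by decide +kernel) ⟨w4_2615_594, w4_2615_627, w4_2615_726, w4_2615_759, trivial⟩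

theorem v4_2494 : VW (PX [629,789] [661,693,725,757]) := VW.of base nl_ok fl_ok .nil
  []
  []
  (by decide +kernel) trivial

theorem v4_2495 : VW (PX [629,757] [661,693,725,789]) := VW.of base nl_ok fl_ok .nil
  []
  []
  (by decide +kernel) trivial

theorem w4_2496_757 : S (PX [629] [661,693,725,757]) := VW.play 789 (PX [629,789] [661,693,725,757]) (by decide +kernel) v4_2494

theorem w4_2496_789 : S (PX [629] [661,693,725,789]) := VW.play 757 (PX [629,757] [661,693,725,789]) (by decide +kernel) v4_2495

theorem v4_2496 : VW (PX [629] [661,693,725]) := VW.of base nl_ok fl_ok (.cons 757 789 .nil (.cons 789 757 .nil .nil))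
  [(821, (.cons 757 789 .nil (.cons 789 757 .nil .nil))), (853, (.cons 757 789 .nil (.cons 789 757 .nil .nil))), (885, (.cons 757 789 .nil (.cons 789 757 .nil .nil)))]
  [([757], (PX [629] [661,693,725,757])), ([789], (PX [629] [661,693,725,789]))]
  (by decide +kernel) ⟨w4_2496_757, w4_2496_789, trivial⟩

theorem v4_2501 : VW (PX [725] [661,693,757]) := VW.of base nl_ok fl_ok .nil
  [(565, (.cons 597 629 .nil (.cons 629 597 .nil .nil))), (597, (.cons 565 629 .nil (.cons 629 565 .nil .nil))), (629, (.cons 565 597 .nil (.cons 597 565 .nil .nil)))]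
  []
  (by decide +kernel) trivial

theorem w4_2513_597 : S (PX [] [597,661,693]) := VW.play 629 (PX [629] [597,661,693]) (by decide +kernel) v4_2009

theorem w4_2513_629 : S (PX [] [629,661,693]) := VW.play 597 (PX [597] [629,661,693]) (by decide +kernel) v4_2242

theorem w4_2513_725 : S (PX [] [661,693,725]) := VW.play 629 (PX [629] [661,693,725]) (by decide +kernel) v4_2496

theorem w4_2513_757 : S (PX [] [661,693,757]) := VW.play 725 (PX [725] [661,693,757]) (by decide +kernel) v4_2501

theorem v4_2513 : VW (PX [] [661,693]) := VW.of base nl_ok fl_ok .nil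
  [(565, (.cons 597 629 .nil (.cons 629 597 (.cons 725 757 .nil (.cons 757 725 .nil .nil)) .nil))), (789, (.cons 725 757 (.cons 597 629 .nil (.cons 629 597 .nil .nil)) (.cons 757 725 .nil .nil)))]
  [([597], (PX [] [597,661,693])), ([629], (PX [] [629,661,693])), ([725], (PX [] [661,693,725])), ([757], (PX [] [661,693,757]))]
  (by decide +kernel) ⟨w4_2513_597, w4_2513_629, w4_2513_725, w4_2513_757, trivial⟩

theorem v4_2616 : VW (PX [631,786] [662,693,724,755]) := VW.of base nl_ok fl_ok .nil
  []
  []
  (by decide +kernel) trivial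

theorem v4_2617 : VW (PX [631,755] [662,693,724,786]) := VW.of base nl_ok fl_ok .nil
  []
  []
  (by decide +kernel) trivial

theorem w4_2618_755 : S (PX [631] [662,693,724,755]) := VW.play 786 (PX [631,786] [662,693,724,755]) (by decide +kernel) v4_2616

theorem w4_2618_786 : S (PX [631] [662,693,724,786]) := VW.play 755 (PX [631,755] [662,693,724,786]) (by decide +kernel) v4_2617

theorem v4_2618 : VW (PX [631] [662,693,724]) := VW.of base nl_ok fl_ok (.cons 755 786 .nil (.cons 786 755 .nil .nil))
  [(817, (.cons 755 786 .nil (.cons 786 755 .nil .nil))), (848, (.cons 755 786 .nil (.cons 786 755 .nil .nil))), (879, (.cons 755 786 .nil (.cons 786 755 .nil .nil)))]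
  [([755], (PX [631] [662,693,724,755])), ([786], (PX [631] [662,693,724,786]))]
  (by decide +kernel) ⟨w4_2618_755, w4_2618_786, trivial⟩

theorem v4_2623 : VW (PX [724] [662,693,755]) := VW.of base nl_ok fl_ok .nil
  [(569, (.cons 600 631 .nil (.cons 631 600 .nil .nil))), (600, (.cons 569 631 .nil (.cons 631 569 .nil .nil))), (631, (.cons 569 600 .nil (.cons 600 569 .nil .nil)))]
  []
  (by decide +kernel) trivial

theorem w4_2624_600 : S (PX [] [600,662,693]) := VW.play 631 (PX [631] [600,662,693]) (by decide +kernel) v4_2591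

theorem w4_2624_631 : S (PX [] [631,662,693]) := VW.play 600 (PX [600] [631,662,693]) (by decide +kernel) v4_2602

theorem w4_2624_724 : S (PX [] [662,693,724]) := VW.play 631 (PX [631] [662,693,724]) (by decide +kernel) v4_2618

theorem w4_2624_755 : S (PX [] [662,693,755]) := VW.play 724 (PX [724] [662,693,755]) (by decide +kernel) v4_2623

theorem v4_2624 : VW (PX [] [662,693]) := VW.of base nl_ok fl_ok .nil
  [(569, (.cons 600 631 .nil (.cons 631 600 (.cons 724 755 .nil (.cons 755 724 .nil .nil)) .nil))), (786, (.cons 724 755 (.cons 600 631 .nil (.cons 631 600 .nil .nil)) (.cons 755 724 .nil .nil)))]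
  [([600], (PX [] [600,662,693])), ([631], (PX [] [631,662,693])), ([724], (PX [] [662,693,724])), ([755], (PX [] [662,693,755]))]
  (by decide +kernel) ⟨w4_2624_600, w4_2624_631, w4_2624_724, w4_2624_755, trivial⟩

theorem v4_2625 : VW (PX [] [689,693]) := VW.of base nl_ok fl_ok .nil
  [(690, (.cons 691 692 (.cons 687 688 .nil (.cons 688 687 .nil .nil)) (.cons 692 691 .nil .nil))), (691, (.cons 690 692 (.cons 687 688 .nil (.cons 688 687 .nil .nil)) (.cons 692 690 (.cons 694 695 .nil (.cons 695 694 .nil .nil)) .nil))), (692, (.cons 690 691 .nil (.cons 691 690 (.cons 694 695 .nil (.cons 695 694 .nil .nil)) .nil)))]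
  []
  (by decide +kernel) trivial

theorem v4_2629 : VW (PX [692] [690,691,693]) := VW.of base nl_ok fl_ok .nil
  [(687, (.cons 688 689 .nil (.cons 689 688 .nil .nil))), (688, (.cons 687 689 .nil (.cons 689 687 .nil .nil))), (689, (.cons 687 688 .nil (.cons 688 687 .nil .nil)))]
  []
  (by decide +kernel) trivial

theorem v4_2658 : VW (PX [691] [690,692,693]) := VW.of base nl_ok fl_ok .nil
  [(694, (.cons 695 696 .nil (.cons 696 695 .nil .nil))), (695, (.cons 694 696 .nil (.cons 696 694 .nil .nil))), (696, (.cons 694 695 .nil (.cons 695 694 .nil .nil)))]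
  []
  (by decide +kernel) trivial

theorem w4_2661_691 : S (PX [] [690,691,693]) := VW.play 692 (PX [692] [690,691,693]) (by decide +kernel) v4_2629

theorem w4_2661_692 : S (PX [] [690,692,693]) := VW.play 691 (PX [691] [690,692,693]) (by decide +kernel) v4_2658

theorem v4_2661 : VW (PX [] [690,693]) := VW.of base nl_ok fl_ok .nil
  [(689, (.cons 691 692 (.cons 687 688 .nil (.cons 688 687 .nil .nil)) (.cons 692 691 .nil .nil))), (694, (.cons 691 692 .nil (.cons 692 691 (.cons 695 696 .nil (.cons 696 695 .nil .nil)) .nil)))]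
  [([691], (PX [] [690,691,693])), ([692], (PX [] [690,692,693]))]
  (by decide +kernel) ⟨w4_2661_691, w4_2661_692, trivial⟩

theorem v4_2662 : VW (PX [690,695] [691,692,693,694]) := VW.of base nl_ok fl_ok .nil
  []
  []
  (by decide +kernel) trivial

theorem v4_2663 : VW (PX [690,694] [691,692,693,695]) := VW.of base nl_ok fl_ok .nil
  []
  []
  (by decide +kernel) trivial

theorem w4_2664_694 : S (PX [690] [691,692,693,694]) := VW.play 695 (PX [690,695] [691,692,693,694]) (by decide +kernel) v4_2662

theorem w4_2664_695 : S (PX [690] [691,692,693,695]) := VW.play 694 (PX [690,694] [691,692,693,695]) (by decide +kernel) v4_2663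

theorem v4_2664 : VW (PX [690] [691,692,693]) := VW.of base nl_ok fl_ok (.cons 694 695 .nil (.cons 695 694 .nil .nil))
  [(696, (.cons 694 695 .nil (.cons 695 694 .nil .nil))), (697, (.cons 694 695 .nil (.cons 695 694 .nil .nil))), (698, (.cons 694 695 .nil (.cons 695 694 .nil .nil)))]
  [([694], (PX [690] [691,692,693,694])), ([695], (PX [690] [691,692,693,695]))]
  (by decide +kernel) ⟨w4_2664_694, w4_2664_695, trivial⟩

theorem v4_2667 : VW (PX [692] [691,693,694]) := VW.of base nl_ok fl_ok .nil
  [(695, (.cons 696 697 .nil (.cons 697 696 .nil .nil))), (696, (.cons 695 697 .nil (.cons 697 695 .nil .nil))), (697, (.cons 695 696 .nil (.cons 696 695 .nil .nil)))]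
  []
  (by decide +kernel) trivial

theorem w4_2670_690 : S (PX [] [690,691,693]) := VW.play 692 (PX [692] [690,691,693]) (by decide +kernel) v4_2629

theorem w4_2670_692 : S (PX [] [691,692,693]) := VW.play 690 (PX [690] [691,692,693]) (by decide +kernel) v4_2664

theorem w4_2670_694 : S (PX [] [691,693,694]) := VW.play 692 (PX [692] [691,693,694]) (by decide +kernel) v4_2667

theorem v4_2670 : VW (PX [] [691,693]) := VW.of base nl_ok fl_ok .nil
  [(689, (.cons 690 692 (.cons 687 688 .nil (.cons 688 687 .nil .nil)) (.cons 692 690 (.cons 694 695 .nil (.cons 695 694 .nil .nil)) .nil))), (695, (.cons 692 694 (.cons 689 690 .nil (.cons 690 689 .nil .nil)) (.cons 694 692 (.cons 696 697 .nil (.cons 697 696 .nil .nil)) .nil)))]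
  [([690], (PX [] [690,691,693])), ([692], (PX [] [691,692,693])), ([694], (PX [] [691,693,694]))]
  (by decide +kernel) ⟨w4_2670_690, w4_2670_692, w4_2670_694, trivial⟩

theorem v4_2671 : VW (PX [691,696] [692,693,694,695]) := VW.of base nl_ok fl_ok .nil
  []
  []
  (by decide +kernel) trivial

theorem v4_2672 : VW (PX [691,695] [692,693,694,696]) := VW.of base nl_ok fl_ok .nil
  []
  []
  (by decide +kernel) trivial

theorem w4_2673_695 : S (PX [691] [692,693,694,695]) := VW.play 696 (PX [691,696] [692,693,694,695]) (by decide +kernel) v4_2671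

theorem w4_2673_696 : S (PX [691] [692,693,694,696]) := VW.play 695 (PX [691,695] [692,693,694,696]) (by decide +kernel) v4_2672

theorem v4_2673 : VW (PX [691] [692,693,694]) := VW.of base nl_ok fl_ok (.cons 695 696 .nil (.cons 696 695 .nil .nil))
  [(697, (.cons 695 696 .nil (.cons 696 695 .nil .nil))), (698, (.cons 695 696 .nil (.cons 696 695 .nil .nil))), (699, (.cons 695 696 .nil (.cons 696 695 .nil .nil)))]
  [([695], (PX [691] [692,693,694,695])), ([696], (PX [691] [692,693,694,696]))]
  (by decide +kernel) ⟨w4_2673_695, w4_2673_696, trivial⟩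

theorem v4_2678 : VW (PX [694] [692,693,695]) := VW.of base nl_ok fl_ok .nil
  [(689, (.cons 690 691 .nil (.cons 691 690 .nil .nil))), (690, (.cons 689 691 .nil (.cons 691 689 .nil .nil))), (691, (.cons 689 690 .nil (.cons 690 689 .nil .nil)))]
  []
  (by decide +kernel) trivial

theorem w4_2690_690 : S (PX [] [690,692,693]) := VW.play 691 (PX [691] [690,692,693]) (by decide +kernel) v4_2658

theorem w4_2690_691 : S (PX [] [691,692,693]) := VW.play 690 (PX [690] [691,692,693]) (by decide +kernel) v4_2664

theorem w4_2690_694 : S (PX [] [692,693,694]) := VW.play 691 (PX [691] [692,693,694]) (by decide +kernel) v4_2673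

theorem w4_2690_695 : S (PX [] [692,693,695]) := VW.play 694 (PX [694] [692,693,695]) (by decide +kernel) v4_2678

theorem v4_2690 : VW (PX [] [692,693]) := VW.of base nl_ok fl_ok .nil
  [(689, (.cons 690 691 .nil (.cons 691 690 (.cons 694 695 .nil (.cons 695 694 .nil .nil)) .nil))), (696, (.cons 694 695 (.cons 690 691 .nil (.cons 691 690 .nil .nil)) (.cons 695 694 .nil .nil)))]
  [([690], (PX [] [690,692,693])), ([691], (PX [] [691,692,693])), ([694], (PX [] [692,693,694])), ([695], (PX [] [692,693,695]))]
  (by decide +kernel) ⟨w4_2690_690, w4_2690_691, w4_2690_694, w4_2690_695, trivial⟩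

theorem v4_2691 : VW (PX [692,696] [691,693,694,695]) := VW.of base nl_ok fl_ok .nil
  []
  []
  (by decide +kernel) trivial

theorem w4_2692_691 : S (PX [696] [691,693,694,695]) := VW.play 692 (PX [692,696] [691,693,694,695]) (by decide +kernel) v4_2691

theorem w4_2692_692 : S (PX [696] [692,693,694,695]) := VW.play 691 (PX [691,696] [692,693,694,695]) (by decide +kernel) v4_2671

theorem v4_2692 : VW (PX [696] [693,694,695]) := VW.of base nl_ok fl_ok (.cons 691 692 .nil (.cons 692 691 .nil .nil))
  [(688, (.cons 691 692 .nil (.cons 692 691 .nil .nil))), (689, (.cons 691 692 .nil (.cons 692 691 .nil .nil))), (690, (.cons 691 692 .nil (.cons 692 691 .nil .nil)))]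
  [([691], (PX [696] [691,693,694,695])), ([692], (PX [696] [692,693,694,695]))]
  (by decide +kernel) ⟨w4_2692_691, w4_2692_692, trivial⟩

theorem v4_2693 : VW (PX [695] [693,694,696]) := VW.of base nl_ok fl_ok .nil
  [(690, (.cons 691 692 .nil (.cons 692 691 .nil .nil))), (691, (.cons 690 692 .nil (.cons 692 690 .nil .nil))), (692, (.cons 690 691 .nil (.cons 691 690 .nil .nil)))]
  []
  (by decide +kernel) trivial

theorem w4_2709_691 : S (PX [] [691,693,694]) := VW.play 692 (PX [692] [691,693,694]) (by decide +kernel) v4_2667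

theorem w4_2709_692 : S (PX [] [692,693,694]) := VW.play 691 (PX [691] [692,693,694]) (by decide +kernel) v4_2673

theorem w4_2709_695 : S (PX [] [693,694,695]) := VW.play 696 (PX [696] [693,694,695]) (by decide +kernel) v4_2692

theorem w4_2709_696 : S (PX [] [693,694,696]) := VW.play 695 (PX [695] [693,694,696]) (by decide +kernel) v4_2693

theorem v4_2709 : VW (PX [] [693,694]) := VW.of base nl_ok fl_ok .nil
  [(690, (.cons 691 692 .nil (.cons 692 691 (.cons 695 696 .nil (.cons 696 695 .nil .nil)) .nil))), (697, (.cons 695 696 (.cons 691 692 .nil (.cons 692 691 .nil .nil)) (.cons 696 695 .nil .nil)))]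
  [([691], (PX [] [691,693,694])), ([692], (PX [] [692,693,694])), ([695], (PX [] [693,694,695])), ([696], (PX [] [693,694,696]))]
  (by decide +kernel) ⟨w4_2709_691, w4_2709_692, w4_2709_695, w4_2709_696, trivial⟩

theorem v4_2710 : VW (PX [694] [693,695,696]) := VW.of base nl_ok fl_ok .nil
  [(697, (.cons 698 699 .nil (.cons 699 698 .nil .nil))), (698, (.cons 697 699 .nil (.cons 699 697 .nil .nil))), (699, (.cons 697 698 .nil (.cons 698 697 .nil .nil)))]
  []
  (by decide +kernel) trivial

theorem w4_2713_692 : S (PX [] [692,693,695]) := VW.play 694 (PX [694] [692,693,695]) (by decide +kernel) v4_2678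

theorem w4_2713_694 : S (PX [] [693,694,695]) := VW.play 696 (PX [696] [693,694,695]) (by decide +kernel) v4_2692

theorem w4_2713_696 : S (PX [] [693,695,696]) := VW.play 694 (PX [694] [693,695,696]) (by decide +kernel) v4_2710

theorem v4_2713 : VW (PX [] [693,695]) := VW.of base nl_ok fl_ok .nil
  [(691, (.cons 692 694 (.cons 689 690 .nil (.cons 690 689 .nil .nil)) (.cons 694 692 (.cons 696 697 .nil (.cons 697 696 .nil .nil)) .nil))), (697, (.cons 694 696 (.cons 691 692 .nil (.cons 692 691 .nil .nil)) (.cons 696 694 (.cons 698 699 .nil (.cons 699 698 .nil .nil)) .nil)))]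
  [([692], (PX [] [692,693,695])), ([694], (PX [] [693,694,695])), ([696], (PX [] [693,695,696]))]
  (by decide +kernel) ⟨w4_2713_692, w4_2713_694, w4_2713_696, trivial⟩

theorem w4_2714_694 : S (PX [] [693,694,696]) := VW.play 695 (PX [695] [693,694,696]) (by decide +kernel) v4_2693

theorem w4_2714_695 : S (PX [] [693,695,696]) := VW.play 694 (PX [694] [693,695,696]) (by decide +kernel) v4_2710

theorem v4_2714 : VW (PX [] [693,696]) := VW.of base nl_ok fl_ok .nil
  [(692, (.cons 694 695 (.cons 690 691 .nil (.cons 691 690 .nil .nil)) (.cons 695 694 .nil .nil))), (697, (.cons 694 695 .nil (.cons 695 694 (.cons 698 699 .nil (.cons 699 698 .nil .nil)) .nil)))]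
  [([694], (PX [] [693,694,696])), ([695], (PX [] [693,695,696]))]
  (by decide +kernel) ⟨w4_2714_694, w4_2714_695, trivial⟩

theorem v4_2715 : VW (PX [] [693,697]) := VW.of base nl_ok fl_ok .nil
  [(694, (.cons 695 696 (.cons 691 692 .nil (.cons 692 691 .nil .nil)) (.cons 696 695 .nil .nil))), (695, (.cons 694 696 (.cons 691 692 .nil (.cons 692 691 .nil .nil)) (.cons 696 694 (.cons 698 699 .nil (.cons 699 698 .nil .nil)) .nil))), (696, (.cons 694 695 .nil (.cons 695 694 (.cons 698 699 .nil (.cons 699 698 .nil .nil)) .nil)))]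
  []
  (by decide +kernel) trivial

theorem v4_2716 : VW (PX [662,786] [631,693,724,755]) := VW.of base nl_ok fl_ok .nil
  []
  []
  (by decide +kernel) trivial

theorem w4_2717_631 : S (PX [786] [631,693,724,755]) := VW.play 662 (PX [662,786] [631,693,724,755]) (by decide +kernel) v4_2716

theorem w4_2717_662 : S (PX [786] [662,693,724,755]) := VW.play 631 (PX [631,786] [662,693,724,755]) (by decide +kernel) v4_2616

theorem v4_2717 : VW (PX [786] [693,724,755]) := VW.of base nl_ok fl_ok (.cons 631 662 .nil (.cons 662 631 .nil .nil))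
  [(538, (.cons 631 662 .nil (.cons 662 631 .nil .nil))), (569, (.cons 631 662 .nil (.cons 662 631 .nil .nil))), (600, (.cons 631 662 .nil (.cons 662 631 .nil .nil)))]
  [([631], (PX [786] [631,693,724,755])), ([662], (PX [786] [662,693,724,755]))]
  (by decide +kernel) ⟨w4_2717_631, w4_2717_662, trivial⟩

theorem v4_2718 : VW (PX [755] [693,724,786]) := VW.of base nl_ok fl_ok .nil
  [(600, (.cons 631 662 .nil (.cons 662 631 .nil .nil))), (631, (.cons 600 662 .nil (.cons 662 600 .nil .nil))), (662, (.cons 600 631 .nil (.cons 631 600 .nil .nil)))]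
  []
  (by decide +kernel) trivial

theorem w4_2734_631 : S (PX [] [631,693,724]) := VW.play 662 (PX [662] [631,693,724]) (by decide +kernel) v4_2603

theorem w4_2734_662 : S (PX [] [662,693,724]) := VW.play 631 (PX [631] [662,693,724]) (by decide +kernel) v4_2618

theorem w4_2734_755 : S (PX [] [693,724,755]) := VW.play 786 (PX [786] [693,724,755]) (by decide +kernel) v4_2717

theorem w4_2734_786 : S (PX [] [693,724,786]) := VW.play 755 (PX [755] [693,724,786]) (by decide +kernel) v4_2718

theorem v4_2734 : VW (PX [] [693,724]) := VW.of base nl_ok fl_ok .nil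
  [(600, (.cons 631 662 .nil (.cons 662 631 (.cons 755 786 .nil (.cons 786 755 .nil .nil)) .nil))), (817, (.cons 755 786 (.cons 631 662 .nil (.cons 662 631 .nil .nil)) (.cons 786 755 .nil .nil)))]
  [([631], (PX [] [631,693,724])), ([662], (PX [] [662,693,724])), ([755], (PX [] [693,724,755])), ([786], (PX [] [693,724,786]))]
  (by decide +kernel) ⟨w4_2734_631, w4_2734_662, w4_2734_755, w4_2734_786, trivial⟩

theorem v4_2735 : VW (PX [661,789] [629,693,725,757]) := VW.of base nl_ok fl_ok .nil
  []
  []
  (by decide +kernel) trivial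

theorem w4_2736_629 : S (PX [789] [629,693,725,757]) := VW.play 661 (PX [661,789] [629,693,725,757]) (by decide +kernel) v4_2735

theorem w4_2736_661 : S (PX [789] [661,693,725,757]) := VW.play 629 (PX [629,789] [661,693,725,757]) (by decide +kernel) v4_2494

theorem v4_2736 : VW (PX [789] [693,725,757]) := VW.of base nl_ok fl_ok (.cons 629 661 .nil (.cons 661 629 .nil .nil))
  [(533, (.cons 629 661 .nil (.cons 661 629 .nil .nil))), (565, (.cons 629 661 .nil (.cons 661 629 .nil .nil))), (597, (.cons 629 661 .nil (.cons 661 629 .nil .nil)))]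
  [([629], (PX [789] [629,693,725,757])), ([661], (PX [789] [661,693,725,757]))]
  (by decide +kernel) ⟨w4_2736_629, w4_2736_661, trivial⟩

theorem v4_2737 : VW (PX [757] [693,725,789]) := VW.of base nl_ok fl_ok .nil
  [(597, (.cons 629 661 .nil (.cons 661 629 .nil .nil))), (629, (.cons 597 661 .nil (.cons 661 597 .nil .nil))), (661, (.cons 597 629 .nil (.cons 629 597 .nil .nil)))]
  []
  (by decide +kernel) trivial

theorem w4_2753_629 : S (PX [] [629,693,725]) := VW.play 661 (PX [661] [629,693,725]) (by decide +kernel) v4_2281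

theorem w4_2753_661 : S (PX [] [661,693,725]) := VW.play 629 (PX [629] [661,693,725]) (by decide +kernel) v4_2496

theorem w4_2753_757 : S (PX [] [693,725,757]) := VW.play 789 (PX [789] [693,725,757]) (by decide +kernel) v4_2736

theorem w4_2753_789 : S (PX [] [693,725,789]) := VW.play 757 (PX [757] [693,725,789]) (by decide +kernel) v4_2737

theorem v4_2753 : VW (PX [] [693,725]) := VW.of base nl_ok fl_ok .nil
  [(597, (.cons 629 661 .nil (.cons 661 629 (.cons 757 789 .nil (.cons 789 757 .nil .nil)) .nil))), (821, (.cons 757 789 (.cons 629 661 .nil (.cons 661 629 .nil .nil)) (.cons 789 757 .nil .nil)))]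
  [([629], (PX [] [629,693,725])), ([661], (PX [] [661,693,725])), ([757], (PX [] [693,725,757])), ([789], (PX [] [693,725,789]))]
  (by decide +kernel) ⟨w4_2753_629, w4_2753_661, w4_2753_757, w4_2753_789, trivial⟩

theorem v4_2754 : VW (PX [660,792] [627,693,726,759]) := VW.of base nl_ok fl_ok .nil
  []
  []
  (by decide +kernel) trivial

theorem w4_2755_627 : S (PX [792] [627,693,726,759]) := VW.play 660 (PX [660,792] [627,693,726,759]) (by decide +kernel) v4_2754

theorem w4_2755_660 : S (PX [792] [660,693,726,759]) := VW.play 627 (PX [627,792] [660,693,726,759]) (by decide +kernel) v4_2607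

theorem v4_2755 : VW (PX [792] [693,726,759]) := VW.of base nl_ok fl_ok (.cons 627 660 .nil (.cons 660 627 .nil .nil))
  [(528, (.cons 627 660 .nil (.cons 660 627 .nil .nil))), (561, (.cons 627 660 .nil (.cons 660 627 .nil .nil))), (594, (.cons 627 660 .nil (.cons 660 627 .nil .nil)))]
  [([627], (PX [792] [627,693,726,759])), ([660], (PX [792] [660,693,726,759]))]
  (by decide +kernel) ⟨w4_2755_627, w4_2755_660, trivial⟩

theorem v4_2756 : VW (PX [759] [693,726,792]) := VW.of base nl_ok fl_ok .nil
  [(594, (.cons 627 660 .nil (.cons 660 627 .nil .nil))), (627, (.cons 594 660 .nil (.cons 660 594 .nil .nil))), (660, (.cons 594 627 .nil (.cons 627 594 .nil .nil)))]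
  []
  (by decide +kernel) trivial

theorem w4_2772_627 : S (PX [] [627,693,726]) := VW.play 660 (PX [660] [627,693,726]) (by decide +kernel) v4_2596

theorem w4_2772_660 : S (PX [] [660,693,726]) := VW.play 627 (PX [627] [660,693,726]) (by decide +kernel) v4_2609

theorem w4_2772_759 : S (PX [] [693,726,759]) := VW.play 792 (PX [792] [693,726,759]) (by decide +kernel) v4_2755

theorem w4_2772_792 : S (PX [] [693,726,792]) := VW.play 759 (PX [759] [693,726,792]) (by decide +kernel) v4_2756

theorem v4_2772 : VW (PX [] [693,726]) := VW.of base nl_ok fl_ok .nil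
  [(594, (.cons 627 660 .nil (.cons 660 627 (.cons 759 792 .nil (.cons 792 759 .nil .nil)) .nil))), (825, (.cons 759 792 (.cons 627 660 .nil (.cons 660 627 .nil .nil)) (.cons 792 759 .nil .nil)))]
  [([627], (PX [] [627,693,726])), ([660], (PX [] [660,693,726])), ([759], (PX [] [693,726,759])), ([792], (PX [] [693,726,792]))]
  (by decide +kernel) ⟨w4_2772_627, w4_2772_660, w4_2772_759, w4_2772_792, trivial⟩

theorem v4_2773 : VW (PX [724] [693,755,786]) := VW.of base nl_ok fl_ok .nil
  [(817, (.cons 848 879 .nil (.cons 879 848 .nil .nil))), (848, (.cons 817 879 .nil (.cons 879 817 .nil .nil))), (879, (.cons 817 848 .nil (.cons 848 817 .nil .nil)))]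
  []
  (by decide +kernel) trivial

theorem w4_2776_662 : S (PX [] [662,693,755]) := VW.play 724 (PX [724] [662,693,755]) (by decide +kernel) v4_2623

theorem w4_2776_724 : S (PX [] [693,724,755]) := VW.play 786 (PX [786] [693,724,755]) (by decide +kernel) v4_2717

theorem w4_2776_786 : S (PX [] [693,755,786]) := VW.play 724 (PX [724] [693,755,786]) (by decide +kernel) v4_2773

theorem v4_2776 : VW (PX [] [693,755]) := VW.of base nl_ok fl_ok .nil
  [(631, (.cons 662 724 (.cons 569 600 .nil (.cons 600 569 .nil .nil)) (.cons 724 662 (.cons 786 817 .nil (.cons 817 786 .nil .nil)) .nil))), (817, (.cons 724 786 (.cons 631 662 .nil (.cons 662 631 .nil .nil)) (.cons 786 724 (.cons 848 879 .nil (.cons 879 848 .nil .nil)) .nil)))]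
  [([662], (PX [] [662,693,755])), ([724], (PX [] [693,724,755])), ([786], (PX [] [693,755,786]))]
  (by decide +kernel) ⟨w4_2776_662, w4_2776_724, w4_2776_786, trivial⟩

theorem v4_2777 : VW (PX [725] [693,757,789]) := VW.of base nl_ok fl_ok .nil
  [(821, (.cons 853 885 .nil (.cons 885 853 .nil .nil))), (853, (.cons 821 885 .nil (.cons 885 821 .nil .nil))), (885, (.cons 821 853 .nil (.cons 853 821 .nil .nil)))]
  []
  (by decide +kernel) trivial

theorem w4_2780_661 : S (PX [] [661,693,757]) := VW.play 725 (PX [725] [661,693,757]) (by decide +kernel) v4_2501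

theorem w4_2780_725 : S (PX [] [693,725,757]) := VW.play 789 (PX [789] [693,725,757]) (by decide +kernel) v4_2736

theorem w4_2780_789 : S (PX [] [693,757,789]) := VW.play 725 (PX [725] [693,757,789]) (by decide +kernel) v4_2777

theorem v4_2780 : VW (PX [] [693,757]) := VW.of base nl_ok fl_ok .nil
  [(629, (.cons 661 725 (.cons 565 597 .nil (.cons 597 565 .nil .nil)) (.cons 725 661 (.cons 789 821 .nil (.cons 821 789 .nil .nil)) .nil))), (821, (.cons 725 789 (.cons 629 661 .nil (.cons 661 629 .nil .nil)) (.cons 789 725 (.cons 853 885 .nil (.cons 885 853 .nil .nil)) .nil)))]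
  [([661], (PX [] [661,693,757])), ([725], (PX [] [693,725,757])), ([789], (PX [] [693,757,789]))]
  (by decide +kernel) ⟨w4_2780_661, w4_2780_725, w4_2780_789, trivial⟩

theorem v4_2781 : VW (PX [726] [693,759,792]) := VW.of base nl_ok fl_ok .nil
  [(825, (.cons 858 891 .nil (.cons 891 858 .nil .nil))), (858, (.cons 825 891 .nil (.cons 891 825 .nil .nil))), (891, (.cons 825 858 .nil (.cons 858 825 .nil .nil)))]
  []
  (by decide +kernel) trivial

theorem w4_2784_660 : S (PX [] [660,693,759]) := VW.play 726 (PX [726] [660,693,759]) (by decide +kernel) v4_2614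

theorem w4_2784_726 : S (PX [] [693,726,759]) := VW.play 792 (PX [792] [693,726,759]) (by decide +kernel) v4_2755

theorem w4_2784_792 : S (PX [] [693,759,792]) := VW.play 726 (PX [726] [693,759,792]) (by decide +kernel) v4_2781

theorem v4_2784 : VW (PX [] [693,759]) := VW.of base nl_ok fl_ok .nil
  [(627, (.cons 660 726 (.cons 561 594 .nil (.cons 594 561 .nil .nil)) (.cons 726 660 (.cons 792 825 .nil (.cons 825 792 .nil .nil)) .nil))), (825, (.cons 726 792 (.cons 627 660 .nil (.cons 660 627 .nil .nil)) (.cons 792 726 (.cons 858 891 .nil (.cons 891 858 .nil .nil)) .nil)))]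
  [([660], (PX [] [660,693,759])), ([726], (PX [] [693,726,759])), ([792], (PX [] [693,759,792]))]
  (by decide +kernel) ⟨w4_2784_660, w4_2784_726, w4_2784_792, trivial⟩

theorem w4_2785_724 : S (PX [] [693,724,786]) := VW.play 755 (PX [755] [693,724,786]) (by decide +kernel) v4_2718

theorem w4_2785_755 : S (PX [] [693,755,786]) := VW.play 724 (PX [724] [693,755,786]) (by decide +kernel) v4_2773

theorem v4_2785 : VW (PX [] [693,786]) := VW.of base nl_ok fl_ok .nil
  [(662, (.cons 724 755 (.cons 600 631 .nil (.cons 631 600 .nil .nil)) (.cons 755 724 .nil .nil))), (817, (.cons 724 755 .nil (.cons 755 724 (.cons 848 879 .nil (.cons 879 848 .nil .nil)) .nil)))]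
  [([724], (PX [] [693,724,786])), ([755], (PX [] [693,755,786]))]
  (by decide +kernel) ⟨w4_2785_724, w4_2785_755, trivial⟩

theorem w4_2786_725 : S (PX [] [693,725,789]) := VW.play 757 (PX [757] [693,725,789]) (by decide +kernel) v4_2737

theorem w4_2786_757 : S (PX [] [693,757,789]) := VW.play 725 (PX [725] [693,757,789]) (by decide +kernel) v4_2777

theorem v4_2786 : VW (PX [] [693,789]) := VW.of base nl_ok fl_ok .nil
  [(661, (.cons 725 757 (.cons 597 629 .nil (.cons 629 597 .nil .nil)) (.cons 757 725 .nil .nil))), (821, (.cons 725 757 .nil (.cons 757 725 (.cons 853 885 .nil (.cons 885 853 .nil .nil)) .nil)))]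
  [([725], (PX [] [693,725,789])), ([757], (PX [] [693,757,789]))]
  (by decide +kernel) ⟨w4_2786_725, w4_2786_757, trivial⟩

theorem w4_2787_726 : S (PX [] [693,726,792]) := VW.play 759 (PX [759] [693,726,792]) (by decide +kernel) v4_2756

theorem w4_2787_759 : S (PX [] [693,759,792]) := VW.play 726 (PX [726] [693,759,792]) (by decide +kernel) v4_2781

theorem v4_2787 : VW (PX [] [693,792]) := VW.of base nl_ok fl_ok .nil
  [(660, (.cons 726 759 (.cons 594 627 .nil (.cons 627 594 .nil .nil)) (.cons 759 726 .nil .nil))), (825, (.cons 726 759 .nil (.cons 759 726 (.cons 858 891 .nil (.cons 891 858 .nil .nil)) .nil)))]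
  [([726], (PX [] [693,726,792])), ([759], (PX [] [693,759,792]))]
  (by decide +kernel) ⟨w4_2787_726, w4_2787_759, trivial⟩

theorem v4_2788 : VW (PX [] [693,817]) := VW.of base nl_ok fl_ok .nil
  [(724, (.cons 755 786 (.cons 631 662 .nil (.cons 662 631 .nil .nil)) (.cons 786 755 .nil .nil))), (755, (.cons 724 786 (.cons 631 662 .nil (.cons 662 631 .nil .nil)) (.cons 786 724 (.cons 848 879 .nil (.cons 879 848 .nil .nil)) .nil))), (786, (.cons 724 755 .nil (.cons 755 724 (.cons 848 879 .nil (.cons 879 848 .nil .nil)) .nil)))]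
  []
  (by decide +kernel) trivial

theorem v4_2789 : VW (PX [] [693,821]) := VW.of base nl_ok fl_ok .nil
  [(725, (.cons 757 789 (.cons 629 661 .nil (.cons 661 629 .nil .nil)) (.cons 789 757 .nil .nil))), (757, (.cons 725 789 (.cons 629 661 .nil (.cons 661 629 .nil .nil)) (.cons 789 725 (.cons 853 885 .nil (.cons 885 853 .nil .nil)) .nil))), (789, (.cons 725 757 .nil (.cons 757 725 (.cons 853 885 .nil (.cons 885 853 .nil .nil)) .nil)))]
  []
  (by decide +kernel) trivial

theorem v4_2790 : VW (PX [] [693,825]) := VW.of base nl_ok fl_ok .nil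
  [(726, (.cons 759 792 (.cons 627 660 .nil (.cons 660 627 .nil .nil)) (.cons 792 759 .nil .nil))), (759, (.cons 726 792 (.cons 627 660 .nil (.cons 660 627 .nil .nil)) (.cons 792 726 (.cons 858 891 .nil (.cons 891 858 .nil .nil)) .nil))), (792, (.cons 726 759 .nil (.cons 759 726 (.cons 858 891 .nil (.cons 891 858 .nil .nil)) .nil)))]
  []
  (by decide +kernel) trivial

theorem r561 : S (Nat.lor X2 (bits [693, 561])) := VW.play 394 (PX [] [561,693]) (by decide +kernel) v4_2551

theorem r565 : S (Nat.lor X2 (bits [693, 565])) := VW.play 394 (PX [] [565,693]) (by decide +kernel) v4_1735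

theorem r569 : S (Nat.lor X2 (bits [693, 569])) := VW.play 394 (PX [] [569,693]) (by decide +kernel) v4_2552

theorem r594 : S (Nat.lor X2 (bits [693, 594])) := VW.play 394 (PX [] [594,693]) (by decide +kernel) v4_2572

theorem r597 : S (Nat.lor X2 (bits [693, 597])) := VW.play 394 (PX [] [597,693]) (by decide +kernel) v4_2018

theorem r600 : S (Nat.lor X2 (bits [693, 600])) := VW.play 394 (PX [] [600,693]) (by decide +kernel) v4_2592

theorem r627 : S (Nat.lor X2 (bits [693, 627])) := VW.play 394 (PX [] [627,693]) (by decide +kernel) v4_2599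

theorem r629 : S (Nat.lor X2 (bits [693, 629])) := VW.play 394 (PX [] [629,693]) (by decide +kernel) v4_2284

theorem r631 : S (Nat.lor X2 (bits [693, 631])) := VW.play 394 (PX [] [631,693]) (by decide +kernel) v4_2606

theorem r660 : S (Nat.lor X2 (bits [693, 660])) := VW.play 394 (PX [] [660,693]) (by decide +kernel) v4_2615

theorem r661 : S (Nat.lor X2 (bits [693, 661])) := VW.play 394 (PX [] [661,693]) (by decide +kernel) v4_2513

theorem r662 : S (Nat.lor X2 (bits [693, 662])) := VW.play 394 (PX [] [662,693]) (by decide +kernel) v4_2624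

theorem r689 : S (Nat.lor X2 (bits [693, 689])) := VW.play 394 (PX [] [689,693]) (by decide +kernel) v4_2625

theorem r690 : S (Nat.lor X2 (bits [693, 690])) := VW.play 394 (PX [] [690,693]) (by decide +kernel) v4_2661

theorem r691 : S (Nat.lor X2 (bits [693, 691])) := VW.play 394 (PX [] [691,693]) (by decide +kernel) v4_2670

theorem r692 : S (Nat.lor X2 (bits [693, 692])) := VW.play 394 (PX [] [692,693]) (by decide +kernel) v4_2690

theorem r694 : S (Nat.lor X2 (bits [693, 694])) := VW.play 394 (PX [] [693,694]) (by decide +kernel) v4_2709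

theorem r695 : S (Nat.lor X2 (bits [693, 695])) := VW.play 394 (PX [] [693,695]) (by decide +kernel) v4_2713

theorem r696 : S (Nat.lor X2 (bits [693, 696])) := VW.play 394 (PX [] [693,696]) (by decide +kernel) v4_2714

theorem r697 : S (Nat.lor X2 (bits [693, 697])) := VW.play 394 (PX [] [693,697]) (by decide +kernel) v4_2715

theorem r724 : S (Nat.lor X2 (bits [693, 724])) := VW.play 394 (PX [] [693,724]) (by decide +kernel) v4_2734

theorem r725 : S (Nat.lor X2 (bits [693, 725])) := VW.play 394 (PX [] [693,725]) (by decide +kernel) v4_2753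

theorem r726 : S (Nat.lor X2 (bits [693, 726])) := VW.play 394 (PX [] [693,726]) (by decide +kernel) v4_2772

theorem r755 : S (Nat.lor X2 (bits [693, 755])) := VW.play 394 (PX [] [693,755]) (by decide +kernel) v4_2776

theorem r757 : S (Nat.lor X2 (bits [693, 757])) := VW.play 394 (PX [] [693,757]) (by decide +kernel) v4_2780

theorem r759 : S (Nat.lor X2 (bits [693, 759])) := VW.play 394 (PX [] [693,759]) (by decide +kernel) v4_2784

theorem r786 : S (Nat.lor X2 (bits [693, 786])) := VW.play 394 (PX [] [693,786]) (by decide +kernel) v4_2785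

theorem r789 : S (Nat.lor X2 (bits [693, 789])) := VW.play 394 (PX [] [693,789]) (by decide +kernel) v4_2786

theorem r792 : S (Nat.lor X2 (bits [693, 792])) := VW.play 394 (PX [] [693,792]) (by decide +kernel) v4_2787

theorem r817 : S (Nat.lor X2 (bits [693, 817])) := VW.play 394 (PX [] [693,817]) (by decide +kernel) v4_2788

theorem r821 : S (Nat.lor X2 (bits [693, 821])) := VW.play 394 (PX [] [693,821]) (by decide +kernel) v4_2789

theorem r825 : S (Nat.lor X2 (bits [693, 825])) := VW.play 394 (PX [] [693,825]) (by decide +kernel) v4_2790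

theorem all : RT X2 693 (561 :: 565 :: 569 :: 594 :: 597 :: 600 :: 627 :: 629 :: 631 :: 660 :: 661 :: 662 :: 689 :: 690 :: 691 :: 692 :: 694 :: 695 :: 696 :: 697 :: 724 :: 725 :: 726 :: 755 :: 757 :: 759 :: 786 :: 789 :: 792 :: 817 :: 821 :: 825 :: []) := ⟨r561, r565, r569, r594, r597, r600, r627, r629, r631, r660, r661, r662, r689, r690, r691, r692, r694, r695, r696, r697, r724, r725, r726, r755, r757, r759, r786, r789, r792, r817, r821, r825, trivial⟩

end Pool.Agent.H94.Five.Mid.K10_10_0
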