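import Pool.Agent.H94.Five.Mid.Fam

set_option autoImplicit false
set_option linter.all false
set_option maxRecDepth 100000

/-! Second has the cell (10, 1): some of the other stones. -/

namespace Pool.Agent.H94.Five.Mid.K10_1_0

open Pool.Agent.H79.Five Pool.Agent.H10.Five Pool.Agent.H94.Five.M

abbrev nl : List Ent := [n0, n3, n4, n6, n8, n9, n10, n11, n16, n17, n21, n22]

theorem nl_ok : AC XB M0 nl := .cons n0k <| .cons n3k <| .cons n4k <| .cons n6k <| .cons n8k <| .cons n9k <| .cons n10k <| .cons n11k <| .cons n16k <| .cons n17k <| .cons n21k <| .cons n22k <| .nil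

abbrev fl : List Ent := (x45 :: x54 :: x61 :: x73 :: x77 :: x103 :: x127 :: x130 :: x136 :: x142 :: x161 :: x167 :: x171 :: x174 :: x183 :: x184 :: x187 :: x190 :: x201 :: x204 :: x214 :: x223 :: x243 :: x245 :: x247 :: x255 :: x258 :: x260 :: x266 :: x269 :: x276 :: x277 :: x284 :: x291 :: x292 :: x310 :: x313 :: x316 :: x318 :: x322 :: x328 :: x330 :: x357 :: x364 :: x371 :: x375 :: x383 :: x390 :: x392 :: x399 :: x413 :: x424 :: x426 :: x427 :: x434 :: x437 :: x444 :: x451 :: x452 :: x462 :: x501 :: x511 :: x518 :: x535 :: [])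

theorem fl_ok : AC XB M0 fl := .cons x45k <| .cons x54k <| .cons x61k <| .cons x73k <| .cons x77k <| .cons x103k <| .cons x127k <| .cons x130k <| .cons x136k <| .cons x142k <| .cons x161k <| .cons x167k <| .cons x171k <| .cons x174k <| .cons x183k <| .cons x184k <| .cons x187k <| .cons x190k <| .cons x201k <| .cons x204k <| .cons x214k <| .cons x223k <| .cons x243k <| .cons x245k <| .cons x247k <| .cons x255k <| .cons x258k <| .cons x260k <| .cons x266k <| .cons x269k <| .cons x276k <| .cons x277k <| .cons x284k <| .cons x291k <| .cons x292k <| .cons x310k <| .cons x313k <| .cons x316k <| .cons x318k <| .cons x322k <| .cons x328k <| .cons x330k <| .cons x357k <| .cons x364k <| .cons x371k <| .cons x375k <| .cons x383k <| .cons x390k <| .cons x392k <| .cons x399k <| .cons x413k <| .cons x424k <| .cons x426k <| .cons x427k <| .cons x434k <| .cons x437k <| .cons x444k <| .cons x451k <| .cons x452k <| .cons x462k <| .cons x501k <| .cons x511k <| .cons x518k <| .cons x535k <| .nil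

theorem b4_0 : S (PX [] [273,304,405]) := S.of (.q 330 (.a 1 [] (.d 297 2312 264 2345 429)
 (.a 1 [264] (.d 429 2345 297 2378 462)
 (.a 0 [297,429] (.q 362 (.a 1 [] (.d 298 1290 266 1322 426)
 (.a 1 [266] (.d 426 1322 298 1354 458)
 (.a 0 [298,426] (.q 361 (.a 1 [] (.d 360 359 359 360 364)
 (.a 1 [359] (.d 364 360 360 361 365)
 (.a 0 [360,364] (.q 427 (.a 1 [] (.d 328 2343 295 2376 460)
 (.a 1 [295] (.d 460 2376 328 2409 493)
 (.a 0 [328,460] (.q 395 (.a 1 [] (.d 393 392 392 393 397)
 (.a 1 [392] (.d 397 393 393 394 398)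
 (.a 1 [393] (.d 331 1323 299 1355 459)
 .e))))
 .e))))
 .e))))
 .e))))
 .e)))) (by decide +kernel)

theorem b4_1 : S (PX [] [400,401,405]) := S.of (.q 330 (.a 1 [] (.d 297 2312 264 2345 429)
 (.a 1 [264] (.d 429 2345 297 2378 462)
 (.a 0 [297,429] (.q 362 (.a 1 [] (.d 298 1290 266 1322 426)
 (.a 1 [266] (.d 426 1322 298 1354 458)
 (.a 0 [298,426] (.q 361 (.a 1 [] (.d 360 359 359 360 364)
 (.a 1 [359] (.d 364 360 360 361 365)
 (.a 0 [360,364] (.q 427 (.a 1 [] (.d 328 2343 295 2376 460)
 (.a 1 [295] (.d 460 2376 328 2409 493)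
 (.a 0 [328,460] (.q 395 (.a 1 [] (.d 393 392 392 393 397)
 (.a 1 [392] (.d 397 393 393 394 398)
 (.a 1 [393] (.d 331 1323 299 1355 459)
 .e))))
 .e))))
 .e))))
 .e))))
 .e)))) (by decide +kernel)

theorem b4_2 : S (PX [399,403] [299,398,401,402,405]) := S.of (.q 332 (.a 1 [] (.d 301 3342 270 3373 425)
 (.a 1 [270] (.d 425 3373 301 3404 456)
 (.a 0 [301,425] (.q 300 (.a 1 [] (.d 364 1292 268 1324 428)
 (.a 0 [268,364,428] (.q 333 (.a 1 [] (.d 366 2315 267 2348 432)
 (.a 0 [267,366,432] (.q 330 (.a 1 [] (.d 331 329 329 330 334)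
 (.a 1 [329] (.d 429 2345 297 2378 462)
 .e)))
 .e)))
 .e)))
 .e)))) (by decide +kernel)

theorem b4_3 : S (PX [399,403] [332,398,401,402,405]) := S.of (.q 330 (.a 1 [] (.d 297 2312 264 2345 429)
 (.a 1 [264] (.d 429 2345 297 2378 462)
 (.a 0 [297,429] (.q 395 (.a 1 [] (.d 393 392 392 393 397)
 (.a 0 [392,393,397] (.q 427 (.a 1 [] (.d 331 1323 299 1355 459)
 (.a 1 [299] (.d 459 1355 331 1387 491)
 (.a 0 [331,459] (.q 365 (.a 1 [] (.d 334 3375 303 3406 458)
 (.a 1 [303] (.d 458 3406 334 3437 489)
 (.a 1 [334] (.r 458 3437 489 (.r 362 1354 426 (.d 364 361 361 362 366)))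
 (.a 0 [458] (.q 362 (.a 1 [] (.d 364 361 361 362 366)
 (.a 1 [361] (.d 298 1290 266 1322 426)
 .e)))
 .e)))))
 .e))))
 .e)))
 .e)))) (by decide +kernel)

theorem b4_4 : S (PX [399,403] [365,398,401,402,405]) := S.of (.q 429 (.a 1 [] (.d 330 2345 297 2378 462)
 (.a 1 [297] (.d 462 2378 330 2411 495)
 (.a 0 [330,462] (.q 395 (.a 1 [] (.d 393 392 392 393 397)
 (.a 0 [392,393,397] (.q 427 (.a 1 [] (.d 331 1323 299 1355 459)
 (.a 1 [299] (.d 459 1355 331 1387 491)
 (.a 0 [331,459] (.q 332 (.a 1 [] (.d 301 3342 270 3373 425)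
 (.a 1 [270] (.d 425 3373 301 3404 456)
 (.a 1 [301] (.r 425 3404 456 (.r 428 425 426 (.d 364 1324 300 1356 460)))
 (.a 0 [425] (.q 428 (.a 1 [] (.d 430 426 426 427 431)
 (.a 1 [426] (.d 364 1324 300 1356 460)
 .e)))
 .e)))))
 .e))))
 .e)))
 .e)))) (by decide +kernel)

theorem b4_5 : S (PX [399,403] [398,401,402,405,457]) := S.of (.q 332 (.a 1 [] (.d 301 3342 270 3373 425)
 (.a 1 [270] (.d 425 3373 301 3404 456)
 (.a 0 [301,425] (.q 330 (.a 1 [] (.d 297 2312 264 2345 429)
 (.a 1 [264] (.d 429 2345 297 2378 462)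
 (.a 0 [297,429] (.q 393 (.a 1 [] (.d 395 392 392 393 397)
 (.a 0 [392,395,397] (.q 333 (.a 1 [] (.d 331 329 329 330 334)
 (.a 0 [329,331,334] (.q 300 (.a 1 [] (.d 364 1292 268 1324 428)
 (.a 1 [268] (.d 366 2315 267 2348 432)
 .e)))
 .e)))
 .e)))
 .e))))
 .e)))) (by decide +kernel)

theorem b4_10 : S (PX [398,403] [268,400,401,402,405]) := S.of (.q 330 (.a 1 [] (.d 297 2312 264 2345 429)
 (.a 1 [264] (.d 429 2345 297 2378 462)
 (.a 0 [297,429] (.q 362 (.a 1 [] (.d 298 1290 266 1322 426)
 (.a 1 [266] (.d 426 1322 298 1354 458)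
 (.a 0 [298,426] (.q 361 (.a 1 [] (.d 360 359 359 360 364)
 (.a 1 [359] (.d 364 360 360 361 365)
 (.a 1 [360] (.r 395 394 397 (.r 392 392 393 (.d 423 3371 299 3402 454)))
 .e))))
 .e))))
 .e)))) (by decide +kernel)

theorem b4_21 : S (PX [402] [400,401,403,405]) := S.of (.q 330 (.a 1 [] (.d 297 2312 264 2345 429)
 (.a 1 [264] (.d 429 2345 297 2378 462)
 (.a 0 [297,429] (.q 362 (.a 1 [] (.d 298 1290 266 1322 426)
 (.a 1 [266] (.d 426 1322 298 1354 458)
 (.a 0 [298,426] (.q 361 (.a 1 [] (.d 360 359 359 360 364)
 (.a 1 [359] (.d 364 360 360 361 365)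
 (.a 0 [360,364] (.q 427 (.a 1 [] (.d 328 2343 295 2376 460)
 (.a 1 [295] (.d 460 2376 328 2409 493)
 (.a 0 [328,460] (.q 395 (.a 1 [] (.d 393 392 392 393 397)
 (.a 1 [392] (.d 397 393 393 394 398)
 (.a 1 [393] (.d 331 1323 299 1355 459)
 .e))))
 .e))))
 .e))))
 .e))))
 .e)))) (by decide +kernel)

theorem v4_0 : VW (PX [] [273,405]) := VW.of base nl_ok fl_ok .nil
  [(306, (.cons 339 372 (.cons 207 240 .nil (.cons 240 207 .nil .nil)) (.cons 372 339 .nil .nil))), (339, (.cons 306 372 (.cons 207 240 .nil (.cons 240 207 .nil .nil)) (.cons 372 306 (.cons 438 471 .nil (.cons 471 438 .nil .nil)) .nil))), (372, (.cons 306 339 .nil (.cons 339 306 (.cons 438 471 .nil (.cons 471 438 .nil .nil)) .nil)))]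
  [([304], (PX [] [273,304,405]))]
  (by decide +kernel) ⟨b4_0, trivial⟩

theorem v4_1 : VW (PX [] [277,405]) := VW.of base nl_ok fl_ok .nil
  [(309, (.cons 341 373 (.cons 213 245 .nil (.cons 245 213 .nil .nil)) (.cons 373 341 .nil .nil))), (341, (.cons 309 373 (.cons 213 245 .nil (.cons 245 213 .nil .nil)) (.cons 373 309 (.cons 437 469 .nil (.cons 469 437 .nil .nil)) .nil))), (373, (.cons 309 341 .nil (.cons 341 309 (.cons 437 469 .nil (.cons 469 437 .nil .nil)) .nil)))]
  []
  (by decide +kernel) trivial

theorem v4_2 : VW (PX [] [281,405]) := VW.of base nl_ok fl_ok .nil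
  [(312, (.cons 343 374 (.cons 219 250 .nil (.cons 250 219 .nil .nil)) (.cons 374 343 .nil .nil))), (343, (.cons 312 374 (.cons 219 250 .nil (.cons 250 219 .nil .nil)) (.cons 374 312 (.cons 436 467 .nil (.cons 467 436 .nil .nil)) .nil))), (374, (.cons 312 343 .nil (.cons 343 312 (.cons 436 467 .nil (.cons 467 436 .nil .nil)) .nil)))]
  []
  (by decide +kernel) trivial

theorem v4_6 : VW (PX [207,372] [240,306,339,405]) := VW.of base nl_ok fl_ok .nil
  []
  []
  (by decide +kernel) trivial

theorem w4_8_240 : S (PX [372] [240,306,339,405]) := VW.play 207 (PX [207,372] [240,306,339,405]) (by decide +kernel) v4_6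

theorem v4_8 : VW (PX [372] [306,339,405]) := VW.of base nl_ok fl_ok .nil
  [(207, (.cons 240 273 .nil (.cons 273 240 .nil .nil))), (273, (.cons 207 240 .nil (.cons 240 207 .nil .nil)))]
  [([240], (PX [372] [240,306,339,405]))]
  (by decide +kernel) ⟨w4_8_240, trivial⟩

theorem v4_23 : VW (PX [339] [306,372,405]) := VW.of base nl_ok fl_ok .nil
  [(438, (.cons 471 504 .nil (.cons 504 471 .nil .nil))), (471, (.cons 438 504 .nil (.cons 504 438 .nil .nil))), (504, (.cons 438 471 .nil (.cons 471 438 .nil .nil)))]
  []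
  (by decide +kernel) trivial

theorem w4_24_339 : S (PX [] [306,339,405]) := VW.play 372 (PX [372] [306,339,405]) (by decide +kernel) v4_8

theorem w4_24_372 : S (PX [] [306,372,405]) := VW.play 339 (PX [339] [306,372,405]) (by decide +kernel) v4_23

theorem v4_24 : VW (PX [] [306,405]) := VW.of base nl_ok fl_ok .nil
  [(273, (.cons 339 372 (.cons 207 240 .nil (.cons 240 207 .nil .nil)) (.cons 372 339 .nil .nil))), (438, (.cons 339 372 .nil (.cons 372 339 (.cons 471 504 .nil (.cons 504 471 .nil .nil)) .nil)))]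
  [([339], (PX [] [306,339,405])), ([372], (PX [] [306,372,405]))]
  (by decide +kernel) ⟨w4_24_339, w4_24_372, trivial⟩

theorem v4_28 : VW (PX [373] [309,341,405]) := VW.of base nl_ok fl_ok .nil
  [(213, (.cons 245 277 .nil (.cons 277 245 .nil .nil))), (245, (.cons 213 277 .nil (.cons 277 213 .nil .nil))), (277, (.cons 213 245 .nil (.cons 245 213 .nil .nil)))]
  []
  (by decide +kernel) trivial

theorem v4_43 : VW (PX [341] [309,373,405]) := VW.of base nl_ok fl_ok .nil
  [(437, (.cons 469 501 .nil (.cons 501 469 .nil .nil))), (469, (.cons 437 501 .nil (.cons 501 437 .nil .nil))), (501, (.cons 437 469 .nil (.cons 469 437 .nil .nil)))]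
  []
  (by decide +kernel) trivial

theorem w4_46_341 : S (PX [] [309,341,405]) := VW.play 373 (PX [373] [309,341,405]) (by decide +kernel) v4_28

theorem w4_46_373 : S (PX [] [309,373,405]) := VW.play 341 (PX [341] [309,373,405]) (by decide +kernel) v4_43

theorem v4_46 : VW (PX [] [309,405]) := VW.of base nl_ok fl_ok .nil
  [(277, (.cons 341 373 (.cons 213 245 .nil (.cons 245 213 .nil .nil)) (.cons 373 341 .nil .nil))), (437, (.cons 341 373 .nil (.cons 373 341 (.cons 469 501 .nil (.cons 501 469 .nil .nil)) .nil)))]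
  [([341], (PX [] [309,341,405])), ([373], (PX [] [309,373,405]))]
  (by decide +kernel) ⟨w4_46_341, w4_46_373, trivial⟩

theorem v4_50 : VW (PX [374] [312,343,405]) := VW.of base nl_ok fl_ok .nil
  [(219, (.cons 250 281 .nil (.cons 281 250 .nil .nil))), (250, (.cons 219 281 .nil (.cons 281 219 .nil .nil))), (281, (.cons 219 250 .nil (.cons 250 219 .nil .nil)))]
  []
  (by decide +kernel) trivial

theorem v4_66 : VW (PX [343] [312,374,405]) := VW.of base nl_ok fl_ok .nil
  [(436, (.cons 467 498 .nil (.cons 498 467 .nil .nil))), (467, (.cons 436 498 .nil (.cons 498 436 .nil .nil))), (498, (.cons 436 467 .nil (.cons 467 436 .nil .nil)))]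
  []
  (by decide +kernel) trivial

theorem w4_67_343 : S (PX [] [312,343,405]) := VW.play 374 (PX [374] [312,343,405]) (by decide +kernel) v4_50

theorem w4_67_374 : S (PX [] [312,374,405]) := VW.play 343 (PX [343] [312,374,405]) (by decide +kernel) v4_66

theorem v4_67 : VW (PX [] [312,405]) := VW.of base nl_ok fl_ok .nil
  [(281, (.cons 343 374 (.cons 219 250 .nil (.cons 250 219 .nil .nil)) (.cons 374 343 .nil .nil))), (436, (.cons 343 374 .nil (.cons 374 343 (.cons 467 498 .nil (.cons 498 467 .nil .nil)) .nil)))]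
  [([343], (PX [] [312,343,405])), ([374], (PX [] [312,374,405]))]
  (by decide +kernel) ⟨w4_67_343, w4_67_374, trivial⟩

theorem v4_68 : VW (PX [306,471] [339,372,405,438]) := VW.of base nl_ok fl_ok .nil
  []
  []
  (by decide +kernel) trivial

theorem v4_69 : VW (PX [306,438] [339,372,405,471]) := VW.of base nl_ok fl_ok .nil
  []
  []
  (by decide +kernel) trivial

theorem w4_70_438 : S (PX [306] [339,372,405,438]) := VW.play 471 (PX [306,471] [339,372,405,438]) (by decide +kernel) v4_68

theorem w4_70_471 : S (PX [306] [339,372,405,471]) := VW.play 438 (PX [306,438] [339,372,405,471]) (by decide +kernel) v4_69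

theorem v4_70 : VW (PX [306] [339,372,405]) := VW.of base nl_ok fl_ok (.cons 438 471 .nil (.cons 471 438 .nil .nil))
  [(504, (.cons 438 471 .nil (.cons 471 438 .nil .nil))), (537, (.cons 438 471 .nil (.cons 471 438 .nil .nil))), (570, (.cons 438 471 .nil (.cons 471 438 .nil .nil)))]
  [([438], (PX [306] [339,372,405,438])), ([471], (PX [306] [339,372,405,471]))]
  (by decide +kernel) ⟨w4_70_438, w4_70_471, trivial⟩

theorem v4_71 : VW (PX [372] [339,405,438]) := VW.of base nl_ok fl_ok .nil
  [(471, (.cons 504 537 .nil (.cons 537 504 .nil .nil))), (504, (.cons 471 537 .nil (.cons 537 471 .nil .nil))), (537, (.cons 471 504 .nil (.cons 504 471 .nil .nil)))]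
  []
  (by decide +kernel) trivial

theorem w4_72_306 : S (PX [] [306,339,405]) := VW.play 372 (PX [372] [306,339,405]) (by decide +kernel) v4_8

theorem w4_72_372 : S (PX [] [339,372,405]) := VW.play 306 (PX [306] [339,372,405]) (by decide +kernel) v4_70

theorem w4_72_438 : S (PX [] [339,405,438]) := VW.play 372 (PX [372] [339,405,438]) (by decide +kernel) v4_71

theorem v4_72 : VW (PX [] [339,405]) := VW.of base nl_ok fl_ok .nil
  [(273, (.cons 306 372 (.cons 207 240 .nil (.cons 240 207 .nil .nil)) (.cons 372 306 (.cons 438 471 .nil (.cons 471 438 .nil .nil)) .nil))), (471, (.cons 372 438 (.cons 273 306 .nil (.cons 306 273 .nil .nil)) (.cons 438 372 (.cons 504 537 .nil (.cons 537 504 .nil .nil)) .nil)))]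
  [([306], (PX [] [306,339,405])), ([372], (PX [] [339,372,405])), ([438], (PX [] [339,405,438]))]
  (by decide +kernel) ⟨w4_72_306, w4_72_372, w4_72_438, trivial⟩

theorem v4_73 : VW (PX [309,469] [341,373,405,437]) := VW.of base nl_ok fl_ok .nil
  []
  []
  (by decide +kernel) trivial

theorem v4_74 : VW (PX [309,437] [341,373,405,469]) := VW.of base nl_ok fl_ok .nil
  []
  []
  (by decide +kernel) trivial

theorem w4_75_437 : S (PX [309] [341,373,405,437]) := VW.play 469 (PX [309,469] [341,373,405,437]) (by decide +kernel) v4_73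

theorem w4_75_469 : S (PX [309] [341,373,405,469]) := VW.play 437 (PX [309,437] [341,373,405,469]) (by decide +kernel) v4_74

theorem v4_75 : VW (PX [309] [341,373,405]) := VW.of base nl_ok fl_ok (.cons 437 469 .nil (.cons 469 437 .nil .nil))
  [(501, (.cons 437 469 .nil (.cons 469 437 .nil .nil))), (533, (.cons 437 469 .nil (.cons 469 437 .nil .nil))), (565, (.cons 437 469 .nil (.cons 469 437 .nil .nil)))]
  [([437], (PX [309] [341,373,405,437])), ([469], (PX [309] [341,373,405,469]))]
  (by decide +kernel) ⟨w4_75_437, w4_75_469, trivial⟩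

theorem v4_92 : VW (PX [373] [341,405,437]) := VW.of base nl_ok fl_ok .nil
  [(469, (.cons 501 533 .nil (.cons 533 501 .nil .nil))), (501, (.cons 469 533 .nil (.cons 533 469 .nil .nil))), (533, (.cons 469 501 .nil (.cons 501 469 .nil .nil)))]
  []
  (by decide +kernel) trivial

theorem w4_95_309 : S (PX [] [309,341,405]) := VW.play 373 (PX [373] [309,341,405]) (by decide +kernel) v4_28

theorem w4_95_373 : S (PX [] [341,373,405]) := VW.play 309 (PX [309] [341,373,405]) (by decide +kernel) v4_75

theorem w4_95_437 : S (PX [] [341,405,437]) := VW.play 373 (PX [373] [341,405,437]) (by decide +kernel) v4_92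

theorem v4_95 : VW (PX [] [341,405]) := VW.of base nl_ok fl_ok .nil
  [(277, (.cons 309 373 (.cons 213 245 .nil (.cons 245 213 .nil .nil)) (.cons 373 309 (.cons 437 469 .nil (.cons 469 437 .nil .nil)) .nil))), (469, (.cons 373 437 (.cons 277 309 .nil (.cons 309 277 .nil .nil)) (.cons 437 373 (.cons 501 533 .nil (.cons 533 501 .nil .nil)) .nil)))]
  [([309], (PX [] [309,341,405])), ([373], (PX [] [341,373,405])), ([437], (PX [] [341,405,437]))]
  (by decide +kernel) ⟨w4_95_309, w4_95_373, w4_95_437, trivial⟩

theorem v4_96 : VW (PX [312,467] [343,374,405,436]) := VW.of base nl_ok fl_ok .nil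
  []
  []
  (by decide +kernel) trivial

theorem v4_97 : VW (PX [312,436] [343,374,405,467]) := VW.of base nl_ok fl_ok .nil
  []
  []
  (by decide +kernel) trivial

theorem w4_98_436 : S (PX [312] [343,374,405,436]) := VW.play 467 (PX [312,467] [343,374,405,436]) (by decide +kernel) v4_96

theorem w4_98_467 : S (PX [312] [343,374,405,467]) := VW.play 436 (PX [312,436] [343,374,405,467]) (by decide +kernel) v4_97

theorem v4_98 : VW (PX [312] [343,374,405]) := VW.of base nl_ok fl_ok (.cons 436 467 .nil (.cons 467 436 .nil .nil))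
  [(498, (.cons 436 467 .nil (.cons 467 436 .nil .nil))), (529, (.cons 436 467 .nil (.cons 467 436 .nil .nil))), (560, (.cons 436 467 .nil (.cons 467 436 .nil .nil)))]
  [([436], (PX [312] [343,374,405,436])), ([467], (PX [312] [343,374,405,467]))]
  (by decide +kernel) ⟨w4_98_436, w4_98_467, trivial⟩

theorem v4_99 : VW (PX [374] [343,405,436]) := VW.of base nl_ok fl_ok .nil
  [(467, (.cons 498 529 .nil (.cons 529 498 .nil .nil))), (498, (.cons 467 529 .nil (.cons 529 467 .nil .nil))), (529, (.cons 467 498 .nil (.cons 498 467 .nil .nil)))]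
  []
  (by decide +kernel) trivial

theorem w4_102_312 : S (PX [] [312,343,405]) := VW.play 374 (PX [374] [312,343,405]) (by decide +kernel) v4_50

theorem w4_102_374 : S (PX [] [343,374,405]) := VW.play 312 (PX [312] [343,374,405]) (by decide +kernel) v4_98

theorem w4_102_436 : S (PX [] [343,405,436]) := VW.play 374 (PX [374] [343,405,436]) (by decide +kernel) v4_99

theorem v4_102 : VW (PX [] [343,405]) := VW.of base nl_ok fl_ok .nil
  [(281, (.cons 312 374 (.cons 219 250 .nil (.cons 250 219 .nil .nil)) (.cons 374 312 (.cons 436 467 .nil (.cons 467 436 .nil .nil)) .nil))), (467, (.cons 374 436 (.cons 281 312 .nil (.cons 312 281 .nil .nil)) (.cons 436 374 (.cons 498 529 .nil (.cons 529 498 .nil .nil)) .nil)))]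
  [([312], (PX [] [312,343,405])), ([374], (PX [] [343,374,405])), ([436], (PX [] [343,405,436]))]
  (by decide +kernel) ⟨w4_102_312, w4_102_374, w4_102_436, trivial⟩

theorem v4_103 : VW (PX [339,504] [372,405,438,471]) := VW.of base nl_ok fl_ok .nil
  []
  []
  (by decide +kernel) trivial

theorem v4_104 : VW (PX [339,471] [372,405,438,504]) := VW.of base nl_ok fl_ok .nil
  []
  []
  (by decide +kernel) trivial

theorem w4_105_471 : S (PX [339] [372,405,438,471]) := VW.play 504 (PX [339,504] [372,405,438,471]) (by decide +kernel) v4_103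

theorem w4_105_504 : S (PX [339] [372,405,438,504]) := VW.play 471 (PX [339,471] [372,405,438,504]) (by decide +kernel) v4_104

theorem v4_105 : VW (PX [339] [372,405,438]) := VW.of base nl_ok fl_ok (.cons 471 504 .nil (.cons 504 471 .nil .nil))
  [(537, (.cons 471 504 .nil (.cons 504 471 .nil .nil))), (570, (.cons 471 504 .nil (.cons 504 471 .nil .nil))), (603, (.cons 471 504 .nil (.cons 504 471 .nil .nil)))]
  [([471], (PX [339] [372,405,438,471])), ([504], (PX [339] [372,405,438,504]))]
  (by decide +kernel) ⟨w4_105_471, w4_105_504, trivial⟩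

theorem v4_110 : VW (PX [438] [372,405,471]) := VW.of base nl_ok fl_ok .nil
  [(273, (.cons 306 339 .nil (.cons 339 306 .nil .nil))), (306, (.cons 273 339 .nil (.cons 339 273 .nil .nil))), (339, (.cons 273 306 .nil (.cons 306 273 .nil .nil)))]
  []
  (by decide +kernel) trivial

theorem w4_111_306 : S (PX [] [306,372,405]) := VW.play 339 (PX [339] [306,372,405]) (by decide +kernel) v4_23

theorem w4_111_339 : S (PX [] [339,372,405]) := VW.play 306 (PX [306] [339,372,405]) (by decide +kernel) v4_70

theorem w4_111_438 : S (PX [] [372,405,438]) := VW.play 339 (PX [339] [372,405,438]) (by decide +kernel) v4_105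

theorem w4_111_471 : S (PX [] [372,405,471]) := VW.play 438 (PX [438] [372,405,471]) (by decide +kernel) v4_110

theorem v4_111 : VW (PX [] [372,405]) := VW.of base nl_ok fl_ok .nil
  [(273, (.cons 306 339 .nil (.cons 339 306 (.cons 438 471 .nil (.cons 471 438 .nil .nil)) .nil))), (504, (.cons 438 471 (.cons 306 339 .nil (.cons 339 306 .nil .nil)) (.cons 471 438 .nil .nil)))]
  [([306], (PX [] [306,372,405])), ([339], (PX [] [339,372,405])), ([438], (PX [] [372,405,438])), ([471], (PX [] [372,405,471]))]
  (by decide +kernel) ⟨w4_111_306, w4_111_339, w4_111_438, w4_111_471, trivial⟩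

theorem v4_112 : VW (PX [341,501] [373,405,437,469]) := VW.of base nl_ok fl_ok .nil
  []
  []
  (by decide +kernel) trivial

theorem v4_113 : VW (PX [341,469] [373,405,437,501]) := VW.of base nl_ok fl_ok .nil
  []
  []
  (by decide +kernel) trivial

theorem w4_114_469 : S (PX [341] [373,405,437,469]) := VW.play 501 (PX [341,501] [373,405,437,469]) (by decide +kernel) v4_112

theorem w4_114_501 : S (PX [341] [373,405,437,501]) := VW.play 469 (PX [341,469] [373,405,437,501]) (by decide +kernel) v4_113

theorem v4_114 : VW (PX [341] [373,405,437]) := VW.of base nl_ok fl_ok (.cons 469 501 .nil (.cons 501 469 .nil .nil))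
  [(533, (.cons 469 501 .nil (.cons 501 469 .nil .nil))), (565, (.cons 469 501 .nil (.cons 501 469 .nil .nil))), (597, (.cons 469 501 .nil (.cons 501 469 .nil .nil)))]
  [([469], (PX [341] [373,405,437,469])), ([501], (PX [341] [373,405,437,501]))]
  (by decide +kernel) ⟨w4_114_469, w4_114_501, trivial⟩

theorem v4_119 : VW (PX [437] [373,405,469]) := VW.of base nl_ok fl_ok .nil
  [(277, (.cons 309 341 .nil (.cons 341 309 .nil .nil))), (309, (.cons 277 341 .nil (.cons 341 277 .nil .nil))), (341, (.cons 277 309 .nil (.cons 309 277 .nil .nil)))]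
  []
  (by decide +kernel) trivial

theorem w4_131_309 : S (PX [] [309,373,405]) := VW.play 341 (PX [341] [309,373,405]) (by decide +kernel) v4_43

theorem w4_131_341 : S (PX [] [341,373,405]) := VW.play 309 (PX [309] [341,373,405]) (by decide +kernel) v4_75

theorem w4_131_437 : S (PX [] [373,405,437]) := VW.play 341 (PX [341] [373,405,437]) (by decide +kernel) v4_114

theorem w4_131_469 : S (PX [] [373,405,469]) := VW.play 437 (PX [437] [373,405,469]) (by decide +kernel) v4_119

theorem v4_131 : VW (PX [] [373,405]) := VW.of base nl_ok fl_ok .nil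
  [(277, (.cons 309 341 .nil (.cons 341 309 (.cons 437 469 .nil (.cons 469 437 .nil .nil)) .nil))), (501, (.cons 437 469 (.cons 309 341 .nil (.cons 341 309 .nil .nil)) (.cons 469 437 .nil .nil)))]
  [([309], (PX [] [309,373,405])), ([341], (PX [] [341,373,405])), ([437], (PX [] [373,405,437])), ([469], (PX [] [373,405,469]))]
  (by decide +kernel) ⟨w4_131_309, w4_131_341, w4_131_437, w4_131_469, trivial⟩

theorem v4_132 : VW (PX [343,498] [374,405,436,467]) := VW.of base nl_ok fl_ok .nil
  []
  []
  (by decide +kernel) trivial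

theorem v4_133 : VW (PX [343,467] [374,405,436,498]) := VW.of base nl_ok fl_ok .nil
  []
  []
  (by decide +kernel) trivial

theorem w4_134_467 : S (PX [343] [374,405,436,467]) := VW.play 498 (PX [343,498] [374,405,436,467]) (by decide +kernel) v4_132

theorem w4_134_498 : S (PX [343] [374,405,436,498]) := VW.play 467 (PX [343,467] [374,405,436,498]) (by decide +kernel) v4_133

theorem v4_134 : VW (PX [343] [374,405,436]) := VW.of base nl_ok fl_ok (.cons 467 498 .nil (.cons 498 467 .nil .nil))
  [(529, (.cons 467 498 .nil (.cons 498 467 .nil .nil))), (560, (.cons 467 498 .nil (.cons 498 467 .nil .nil))), (591, (.cons 467 498 .nil (.cons 498 467 .nil .nil)))]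
  [([467], (PX [343] [374,405,436,467])), ([498], (PX [343] [374,405,436,498]))]
  (by decide +kernel) ⟨w4_134_467, w4_134_498, trivial⟩

theorem v4_140 : VW (PX [436] [374,405,467]) := VW.of base nl_ok fl_ok .nil
  [(281, (.cons 312 343 .nil (.cons 343 312 .nil .nil))), (312, (.cons 281 343 .nil (.cons 343 281 .nil .nil))), (343, (.cons 281 312 .nil (.cons 312 281 .nil .nil)))]
  []
  (by decide +kernel) trivial

theorem w4_141_312 : S (PX [] [312,374,405]) := VW.play 343 (PX [343] [312,374,405]) (by decide +kernel) v4_66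

theorem w4_141_343 : S (PX [] [343,374,405]) := VW.play 312 (PX [312] [343,374,405]) (by decide +kernel) v4_98

theorem w4_141_436 : S (PX [] [374,405,436]) := VW.play 343 (PX [343] [374,405,436]) (by decide +kernel) v4_134

theorem w4_141_467 : S (PX [] [374,405,467]) := VW.play 436 (PX [436] [374,405,467]) (by decide +kernel) v4_140

theorem v4_141 : VW (PX [] [374,405]) := VW.of base nl_ok fl_ok .nil
  [(281, (.cons 312 343 .nil (.cons 343 312 (.cons 436 467 .nil (.cons 467 436 .nil .nil)) .nil))), (498, (.cons 436 467 (.cons 312 343 .nil (.cons 343 312 .nil .nil)) (.cons 467 436 .nil .nil)))]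
  [([312], (PX [] [312,374,405])), ([343], (PX [] [343,374,405])), ([436], (PX [] [374,405,436])), ([467], (PX [] [374,405,467]))]
  (by decide +kernel) ⟨w4_141_312, w4_141_343, w4_141_436, w4_141_467, trivial⟩

theorem v4_142 : VW (PX [399,403] [398,401,402,405]) := VW.of base nl_ok fl_ok .nil
  []
  [([299], (PX [399,403] [299,398,401,402,405])), ([332], (PX [399,403] [332,398,401,402,405])), ([365], (PX [399,403] [365,398,401,402,405])), ([457], (PX [399,403] [398,401,402,405,457]))]
  (by decide +kernel) ⟨b4_2, b4_3, b4_4, b4_5, trivial⟩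

theorem v4_144 : VW (PX [398,403] [399,401,402,405]) := VW.of base nl_ok fl_ok .nil
  []
  []
  (by decide +kernel) trivial

theorem v4_146 : VW (PX [398,403] [400,401,402,405]) := VW.of base nl_ok fl_ok .nil
  []
  [([268], (PX [398,403] [268,400,401,402,405]))]
  (by decide +kernel) ⟨b4_10, trivial⟩

theorem w4_148_398 : S (PX [403] [398,401,402,405]) := VW.play 399 (PX [399,403] [398,401,402,405]) (by decide +kernel) v4_142

theorem w4_148_399 : S (PX [403] [399,401,402,405]) := VW.play 398 (PX [398,403] [399,401,402,405]) (by decide +kernel) v4_144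

theorem w4_148_400 : S (PX [403] [400,401,402,405]) := VW.play 398 (PX [398,403] [400,401,402,405]) (by decide +kernel) v4_146

theorem v4_148 : VW (PX [403] [401,402,405]) := VW.of base nl_ok fl_ok .nil
  []
  [([398], (PX [403] [398,401,402,405])), ([399], (PX [403] [399,401,402,405])), ([400], (PX [403] [400,401,402,405]))]
  (by decide +kernel) ⟨w4_148_398, w4_148_399, w4_148_400, trivial⟩

theorem v4_156 : VW (PX [402] [401,403,405]) := VW.of base nl_ok fl_ok .nil
  [(404, (.cons 406 407 .nil (.cons 407 406 .nil .nil))), (406, (.cons 404 407 .nil (.cons 407 404 (.cons 408 409 .nil (.cons 409 408 .nil .nil)) .nil))), (407, (.cons 404 406 .nil (.cons 406 404 (.cons 408 409 .nil (.cons 409 408 .nil .nil)) .nil)))]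
  [([400], (PX [402] [400,401,403,405]))]
  (by decide +kernel) ⟨b4_21, trivial⟩

theorem w4_160_402 : S (PX [] [401,402,405]) := VW.play 403 (PX [403] [401,402,405]) (by decide +kernel) v4_148

theorem w4_160_403 : S (PX [] [401,403,405]) := VW.play 402 (PX [402] [401,403,405]) (by decide +kernel) v4_156

theorem v4_160 : VW (PX [] [401,405]) := VW.of base nl_ok fl_ok .nil
  [(404, (.cons 402 403 .nil (.cons 403 402 (.cons 406 407 .nil (.cons 407 406 .nil .nil)) .nil)))]
  [([400], (PX [] [400,401,405])), ([402], (PX [] [401,402,405])), ([403], (PX [] [401,403,405]))]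
  (by decide +kernel) ⟨b4_1, w4_160_402, w4_160_403, trivial⟩

theorem v4_161 : VW (PX [401,406] [402,403,404,405]) := VW.of base nl_ok fl_ok .nil
  []
  []
  (by decide +kernel) trivial

theorem v4_162 : VW (PX [401,404] [402,403,405,406]) := VW.of base nl_ok fl_ok .nil
  [(407, (.cons 408 409 .nil (.cons 409 408 .nil .nil))), (408, (.cons 407 409 .nil (.cons 409 407 .nil .nil))), (409, (.cons 407 408 .nil (.cons 408 407 .nil .nil)))]
  []
  (by decide +kernel) trivial

theorem w4_163_404 : S (PX [401] [402,403,404,405]) := VW.play 406 (PX [401,406] [402,403,404,405]) (by decide +kernel) v4_161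

theorem w4_163_406 : S (PX [401] [402,403,405,406]) := VW.play 404 (PX [401,404] [402,403,405,406]) (by decide +kernel) v4_162

theorem v4_163 : VW (PX [401] [402,403,405]) := VW.of base nl_ok fl_ok (.cons 404 406 .nil (.cons 406 404 .nil .nil))
  [(407, (.cons 404 406 .nil (.cons 406 404 (.cons 408 409 .nil (.cons 409 408 .nil .nil)) .nil))), (408, (.cons 404 406 .nil (.cons 406 404 (.cons 407 409 .nil (.cons 409 407 .nil .nil)) .nil))), (409, (.cons 404 406 .nil (.cons 406 404 (.cons 407 408 .nil (.cons 408 407 .nil .nil)) .nil)))]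
  [([404], (PX [401] [402,403,404,405])), ([406], (PX [401] [402,403,405,406]))]
  (by decide +kernel) ⟨w4_163_404, w4_163_406, trivial⟩

theorem v4_183 : VW (PX [403] [402,404,405]) := VW.of base nl_ok fl_ok .nil
  [(406, (.cons 407 408 .nil (.cons 408 407 .nil .nil))), (407, (.cons 406 408 .nil (.cons 408 406 .nil .nil))), (408, (.cons 406 407 .nil (.cons 407 406 .nil .nil)))]
  []
  (by decide +kernel) trivial

theorem w4_184_401 : S (PX [] [401,402,405]) := VW.play 403 (PX [403] [401,402,405]) (by decide +kernel) v4_148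

theorem w4_184_403 : S (PX [] [402,403,405]) := VW.play 401 (PX [401] [402,403,405]) (by decide +kernel) v4_163

theorem w4_184_404 : S (PX [] [402,404,405]) := VW.play 403 (PX [403] [402,404,405]) (by decide +kernel) v4_183

theorem v4_184 : VW (PX [] [402,405]) := VW.of base nl_ok fl_ok .nil
  [(406, (.cons 403 404 .nil (.cons 404 403 (.cons 407 408 .nil (.cons 408 407 .nil .nil)) .nil)))]
  [([401], (PX [] [401,402,405])), ([403], (PX [] [402,403,405])), ([404], (PX [] [402,404,405]))]
  (by decide +kernel) ⟨w4_184_401, w4_184_403, w4_184_404, trivial⟩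

theorem v4_185 : VW (PX [402,407] [403,404,405,406]) := VW.of base nl_ok fl_ok .nil
  []
  []
  (by decide +kernel) trivial

theorem v4_186 : VW (PX [402,406] [403,404,405,407]) := VW.of base nl_ok fl_ok .nil
  []
  []
  (by decide +kernel) trivial

theorem w4_187_406 : S (PX [402] [403,404,405,406]) := VW.play 407 (PX [402,407] [403,404,405,406]) (by decide +kernel) v4_185

theorem w4_187_407 : S (PX [402] [403,404,405,407]) := VW.play 406 (PX [402,406] [403,404,405,407]) (by decide +kernel) v4_186

theorem v4_187 : VW (PX [402] [403,404,405]) := VW.of base nl_ok fl_ok (.cons 406 407 .nil (.cons 407 406 .nil .nil))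
  [(408, (.cons 406 407 .nil (.cons 407 406 .nil .nil))), (409, (.cons 406 407 .nil (.cons 407 406 .nil .nil))), (410, (.cons 406 407 .nil (.cons 407 406 .nil .nil)))]
  [([406], (PX [402] [403,404,405,406])), ([407], (PX [402] [403,404,405,407]))]
  (by decide +kernel) ⟨w4_187_406, w4_187_407, trivial⟩

theorem v4_188 : VW (PX [404] [403,405,406]) := VW.of base nl_ok fl_ok .nil
  [(407, (.cons 408 409 .nil (.cons 409 408 .nil .nil))), (408, (.cons 407 409 .nil (.cons 409 407 .nil .nil))), (409, (.cons 407 408 .nil (.cons 408 407 .nil .nil)))]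
  []
  (by decide +kernel) trivial

theorem w4_189_401 : S (PX [] [401,403,405]) := VW.play 402 (PX [402] [401,403,405]) (by decide +kernel) v4_156

theorem w4_189_402 : S (PX [] [402,403,405]) := VW.play 401 (PX [401] [402,403,405]) (by decide +kernel) v4_163

theorem w4_189_404 : S (PX [] [403,404,405]) := VW.play 402 (PX [402] [403,404,405]) (by decide +kernel) v4_187

theorem w4_189_406 : S (PX [] [403,405,406]) := VW.play 404 (PX [404] [403,405,406]) (by decide +kernel) v4_188

theorem v4_189 : VW (PX [] [403,405]) := VW.of base nl_ok fl_ok .nil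
  [(407, (.cons 404 406 (.cons 401 402 .nil (.cons 402 401 .nil .nil)) (.cons 406 404 (.cons 408 409 .nil (.cons 409 408 .nil .nil)) .nil)))]
  [([401], (PX [] [401,403,405])), ([402], (PX [] [402,403,405])), ([404], (PX [] [403,404,405])), ([406], (PX [] [403,405,406]))]
  (by decide +kernel) ⟨w4_189_401, w4_189_402, w4_189_404, w4_189_406, trivial⟩

theorem v4_190 : VW (PX [403,408] [404,405,406,407]) := VW.of base nl_ok fl_ok .nil
  []
  []
  (by decide +kernel) trivial

theorem v4_191 : VW (PX [403,407] [404,405,406,408]) := VW.of base nl_ok fl_ok .nil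
  []
  []
  (by decide +kernel) trivial

theorem w4_192_407 : S (PX [403] [404,405,406,407]) := VW.play 408 (PX [403,408] [404,405,406,407]) (by decide +kernel) v4_190

theorem w4_192_408 : S (PX [403] [404,405,406,408]) := VW.play 407 (PX [403,407] [404,405,406,408]) (by decide +kernel) v4_191

theorem v4_192 : VW (PX [403] [404,405,406]) := VW.of base nl_ok fl_ok (.cons 407 408 .nil (.cons 408 407 .nil .nil))
  [(409, (.cons 407 408 .nil (.cons 408 407 .nil .nil))), (410, (.cons 407 408 .nil (.cons 408 407 .nil .nil))), (411, (.cons 407 408 .nil (.cons 408 407 .nil .nil)))]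
  [([407], (PX [403] [404,405,406,407])), ([408], (PX [403] [404,405,406,408]))]
  (by decide +kernel) ⟨w4_192_407, w4_192_408, trivial⟩

theorem v4_197 : VW (PX [406] [404,405,407]) := VW.of base nl_ok fl_ok .nil
  [(401, (.cons 402 403 .nil (.cons 403 402 .nil .nil))), (402, (.cons 401 403 .nil (.cons 403 401 .nil .nil))), (403, (.cons 401 402 .nil (.cons 402 401 .nil .nil)))]
  []
  (by decide +kernel) trivial

theorem w4_198_402 : S (PX [] [402,404,405]) := VW.play 403 (PX [403] [402,404,405]) (by decide +kernel) v4_183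

theorem w4_198_403 : S (PX [] [403,404,405]) := VW.play 402 (PX [402] [403,404,405]) (by decide +kernel) v4_187

theorem w4_198_406 : S (PX [] [404,405,406]) := VW.play 403 (PX [403] [404,405,406]) (by decide +kernel) v4_192

theorem w4_198_407 : S (PX [] [404,405,407]) := VW.play 406 (PX [406] [404,405,407]) (by decide +kernel) v4_197

theorem v4_198 : VW (PX [] [404,405]) := VW.of base nl_ok fl_ok .nil
  [(401, (.cons 402 403 .nil (.cons 403 402 (.cons 406 407 .nil (.cons 407 406 .nil .nil)) .nil))), (408, (.cons 406 407 (.cons 402 403 .nil (.cons 403 402 .nil .nil)) (.cons 407 406 .nil .nil)))]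
  [([402], (PX [] [402,404,405])), ([403], (PX [] [403,404,405])), ([406], (PX [] [404,405,406])), ([407], (PX [] [404,405,407]))]
  (by decide +kernel) ⟨w4_198_402, w4_198_403, w4_198_406, w4_198_407, trivial⟩

theorem v4_199 : VW (PX [404,408] [403,405,406,407]) := VW.of base nl_ok fl_ok .nil
  []
  []
  (by decide +kernel) trivial

theorem w4_200_403 : S (PX [408] [403,405,406,407]) := VW.play 404 (PX [404,408] [403,405,406,407]) (by decide +kernel) v4_199

theorem w4_200_404 : S (PX [408] [404,405,406,407]) := VW.play 403 (PX [403,408] [404,405,406,407]) (by decide +kernel) v4_190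

theorem v4_200 : VW (PX [408] [405,406,407]) := VW.of base nl_ok fl_ok (.cons 403 404 .nil (.cons 404 403 .nil .nil))
  [(400, (.cons 403 404 .nil (.cons 404 403 .nil .nil))), (401, (.cons 403 404 .nil (.cons 404 403 .nil .nil))), (402, (.cons 403 404 .nil (.cons 404 403 .nil .nil)))]
  [([403], (PX [408] [403,405,406,407])), ([404], (PX [408] [404,405,406,407]))]
  (by decide +kernel) ⟨w4_200_403, w4_200_404, trivial⟩

theorem v4_201 : VW (PX [407] [405,406,408]) := VW.of base nl_ok fl_ok .nil
  [(402, (.cons 403 404 .nil (.cons 404 403 .nil .nil))), (403, (.cons 402 404 .nil (.cons 404 402 .nil .nil))), (404, (.cons 402 403 .nil (.cons 403 402 .nil .nil)))]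
  []
  (by decide +kernel) trivial

theorem w4_215_403 : S (PX [] [403,405,406]) := VW.play 404 (PX [404] [403,405,406]) (by decide +kernel) v4_188

theorem w4_215_404 : S (PX [] [404,405,406]) := VW.play 403 (PX [403] [404,405,406]) (by decide +kernel) v4_192

theorem w4_215_407 : S (PX [] [405,406,407]) := VW.play 408 (PX [408] [405,406,407]) (by decide +kernel) v4_200

theorem w4_215_408 : S (PX [] [405,406,408]) := VW.play 407 (PX [407] [405,406,408]) (by decide +kernel) v4_201

theorem v4_215 : VW (PX [] [405,406]) := VW.of base nl_ok fl_ok .nil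
  [(402, (.cons 403 404 .nil (.cons 404 403 (.cons 407 408 .nil (.cons 408 407 .nil .nil)) .nil))), (409, (.cons 407 408 (.cons 403 404 .nil (.cons 404 403 .nil .nil)) (.cons 408 407 .nil .nil)))]
  [([403], (PX [] [403,405,406])), ([404], (PX [] [404,405,406])), ([407], (PX [] [405,406,407])), ([408], (PX [] [405,406,408]))]
  (by decide +kernel) ⟨w4_215_403, w4_215_404, w4_215_407, w4_215_408, trivial⟩

theorem v4_216 : VW (PX [406] [405,407,408]) := VW.of base nl_ok fl_ok .nil
  [(409, (.cons 410 411 .nil (.cons 411 410 .nil .nil))), (410, (.cons 409 411 .nil (.cons 411 409 .nil .nil))), (411, (.cons 409 410 .nil (.cons 410 409 .nil .nil)))]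
  []
  (by decide +kernel) trivial

theorem w4_219_404 : S (PX [] [404,405,407]) := VW.play 406 (PX [406] [404,405,407]) (by decide +kernel) v4_197

theorem w4_219_406 : S (PX [] [405,406,407]) := VW.play 408 (PX [408] [405,406,407]) (by decide +kernel) v4_200

theorem w4_219_408 : S (PX [] [405,407,408]) := VW.play 406 (PX [406] [405,407,408]) (by decide +kernel) v4_216

theorem v4_219 : VW (PX [] [405,407]) := VW.of base nl_ok fl_ok .nil
  [(403, (.cons 404 406 (.cons 401 402 .nil (.cons 402 401 .nil .nil)) (.cons 406 404 (.cons 408 409 .nil (.cons 409 408 .nil .nil)) .nil))), (409, (.cons 406 408 (.cons 403 404 .nil (.cons 404 403 .nil .nil)) (.cons 408 406 (.cons 410 411 .nil (.cons 411 410 .nil .nil)) .nil)))]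
  [([404], (PX [] [404,405,407])), ([406], (PX [] [405,406,407])), ([408], (PX [] [405,407,408]))]
  (by decide +kernel) ⟨w4_219_404, w4_219_406, w4_219_408, trivial⟩

theorem w4_220_406 : S (PX [] [405,406,408]) := VW.play 407 (PX [407] [405,406,408]) (by decide +kernel) v4_201

theorem w4_220_407 : S (PX [] [405,407,408]) := VW.play 406 (PX [406] [405,407,408]) (by decide +kernel) v4_216

theorem v4_220 : VW (PX [] [405,408]) := VW.of base nl_ok fl_ok .nil
  [(404, (.cons 406 407 (.cons 402 403 .nil (.cons 403 402 .nil .nil)) (.cons 407 406 .nil .nil))), (409, (.cons 406 407 .nil (.cons 407 406 (.cons 410 411 .nil (.cons 411 410 .nil .nil)) .nil)))]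
  [([406], (PX [] [405,406,408])), ([407], (PX [] [405,407,408]))]
  (by decide +kernel) ⟨w4_220_406, w4_220_407, trivial⟩

theorem v4_221 : VW (PX [] [405,409]) := VW.of base nl_ok fl_ok .nil
  [(406, (.cons 407 408 (.cons 403 404 .nil (.cons 404 403 .nil .nil)) (.cons 408 407 .nil .nil))), (407, (.cons 406 408 (.cons 403 404 .nil (.cons 404 403 .nil .nil)) (.cons 408 406 (.cons 410 411 .nil (.cons 411 410 .nil .nil)) .nil))), (408, (.cons 406 407 .nil (.cons 407 406 (.cons 410 411 .nil (.cons 411 410 .nil .nil)) .nil)))]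
  []
  (by decide +kernel) trivial

theorem v4_222 : VW (PX [374,498] [343,405,436,467]) := VW.of base nl_ok fl_ok .nil
  []
  []
  (by decide +kernel) trivial

theorem w4_223_343 : S (PX [498] [343,405,436,467]) := VW.play 374 (PX [374,498] [343,405,436,467]) (by decide +kernel) v4_222

theorem w4_223_374 : S (PX [498] [374,405,436,467]) := VW.play 343 (PX [343,498] [374,405,436,467]) (by decide +kernel) v4_132

theorem v4_223 : VW (PX [498] [405,436,467]) := VW.of base nl_ok fl_ok (.cons 343 374 .nil (.cons 374 343 .nil .nil))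
  [(250, (.cons 343 374 .nil (.cons 374 343 .nil .nil))), (281, (.cons 343 374 .nil (.cons 374 343 .nil .nil))), (312, (.cons 343 374 .nil (.cons 374 343 .nil .nil)))]
  [([343], (PX [498] [343,405,436,467])), ([374], (PX [498] [374,405,436,467]))]
  (by decide +kernel) ⟨w4_223_343, w4_223_374, trivial⟩

theorem v4_224 : VW (PX [467] [405,436,498]) := VW.of base nl_ok fl_ok .nil
  [(312, (.cons 343 374 .nil (.cons 374 343 .nil .nil))), (343, (.cons 312 374 .nil (.cons 374 312 .nil .nil))), (374, (.cons 312 343 .nil (.cons 343 312 .nil .nil)))]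
  []
  (by decide +kernel) trivial

theorem w4_240_343 : S (PX [] [343,405,436]) := VW.play 374 (PX [374] [343,405,436]) (by decide +kernel) v4_99

theorem w4_240_374 : S (PX [] [374,405,436]) := VW.play 343 (PX [343] [374,405,436]) (by decide +kernel) v4_134

theorem w4_240_467 : S (PX [] [405,436,467]) := VW.play 498 (PX [498] [405,436,467]) (by decide +kernel) v4_223

theorem w4_240_498 : S (PX [] [405,436,498]) := VW.play 467 (PX [467] [405,436,498]) (by decide +kernel) v4_224

theorem v4_240 : VW (PX [] [405,436]) := VW.of base nl_ok fl_ok .nil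
  [(312, (.cons 343 374 .nil (.cons 374 343 (.cons 467 498 .nil (.cons 498 467 .nil .nil)) .nil))), (529, (.cons 467 498 (.cons 343 374 .nil (.cons 374 343 .nil .nil)) (.cons 498 467 .nil .nil)))]
  [([343], (PX [] [343,405,436])), ([374], (PX [] [374,405,436])), ([467], (PX [] [405,436,467])), ([498], (PX [] [405,436,498]))]
  (by decide +kernel) ⟨w4_240_343, w4_240_374, w4_240_467, w4_240_498, trivial⟩

theorem v4_241 : VW (PX [373,533] [405,437,469,501]) := VW.of base nl_ok fl_ok .nil
  []
  []
  (by decide +kernel) trivial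

theorem v4_242 : VW (PX [373,501] [405,437,469,533]) := VW.of base nl_ok fl_ok .nil
  []
  []
  (by decide +kernel) trivial

theorem w4_243_501 : S (PX [373] [405,437,469,501]) := VW.play 533 (PX [373,533] [405,437,469,501]) (by decide +kernel) v4_241

theorem w4_243_533 : S (PX [373] [405,437,469,533]) := VW.play 501 (PX [373,501] [405,437,469,533]) (by decide +kernel) v4_242

theorem v4_243 : VW (PX [373] [405,437,469]) := VW.of base nl_ok fl_ok (.cons 501 533 .nil (.cons 533 501 .nil .nil))
  [(565, (.cons 501 533 .nil (.cons 533 501 .nil .nil))), (597, (.cons 501 533 .nil (.cons 533 501 .nil .nil))), (629, (.cons 501 533 .nil (.cons 533 501 .nil .nil)))]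
  [([501], (PX [373] [405,437,469,501])), ([533], (PX [373] [405,437,469,533]))]
  (by decide +kernel) ⟨w4_243_501, w4_243_533, trivial⟩

theorem v4_248 : VW (PX [469] [405,437,501]) := VW.of base nl_ok fl_ok .nil
  [(309, (.cons 341 373 .nil (.cons 373 341 .nil .nil))), (341, (.cons 309 373 .nil (.cons 373 309 .nil .nil))), (373, (.cons 309 341 .nil (.cons 341 309 .nil .nil)))]
  []
  (by decide +kernel) trivial

theorem w4_260_341 : S (PX [] [341,405,437]) := VW.play 373 (PX [373] [341,405,437]) (by decide +kernel) v4_92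

theorem w4_260_373 : S (PX [] [373,405,437]) := VW.play 341 (PX [341] [373,405,437]) (by decide +kernel) v4_114

theorem w4_260_469 : S (PX [] [405,437,469]) := VW.play 373 (PX [373] [405,437,469]) (by decide +kernel) v4_243

theorem w4_260_501 : S (PX [] [405,437,501]) := VW.play 469 (PX [469] [405,437,501]) (by decide +kernel) v4_248

theorem v4_260 : VW (PX [] [405,437]) := VW.of base nl_ok fl_ok .nil
  [(309, (.cons 341 373 .nil (.cons 373 341 (.cons 469 501 .nil (.cons 501 469 .nil .nil)) .nil))), (533, (.cons 469 501 (.cons 341 373 .nil (.cons 373 341 .nil .nil)) (.cons 501 469 .nil .nil)))]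
  [([341], (PX [] [341,405,437])), ([373], (PX [] [373,405,437])), ([469], (PX [] [405,437,469])), ([501], (PX [] [405,437,501]))]
  (by decide +kernel) ⟨w4_260_341, w4_260_373, w4_260_469, w4_260_501, trivial⟩

theorem v4_261 : VW (PX [372,504] [339,405,438,471]) := VW.of base nl_ok fl_ok .nil
  []
  []
  (by decide +kernel) trivial

theorem w4_262_339 : S (PX [504] [339,405,438,471]) := VW.play 372 (PX [372,504] [339,405,438,471]) (by decide +kernel) v4_261

theorem w4_262_372 : S (PX [504] [372,405,438,471]) := VW.play 339 (PX [339,504] [372,405,438,471]) (by decide +kernel) v4_103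

theorem v4_262 : VW (PX [504] [405,438,471]) := VW.of base nl_ok fl_ok (.cons 339 372 .nil (.cons 372 339 .nil .nil))
  [(240, (.cons 339 372 .nil (.cons 372 339 .nil .nil))), (273, (.cons 339 372 .nil (.cons 372 339 .nil .nil))), (306, (.cons 339 372 .nil (.cons 372 339 .nil .nil)))]
  [([339], (PX [504] [339,405,438,471])), ([372], (PX [504] [372,405,438,471]))]
  (by decide +kernel) ⟨w4_262_339, w4_262_372, trivial⟩

theorem v4_263 : VW (PX [471] [405,438,504]) := VW.of base nl_ok fl_ok .nil
  [(306, (.cons 339 372 .nil (.cons 372 339 .nil .nil))), (339, (.cons 306 372 .nil (.cons 372 306 .nil .nil))), (372, (.cons 306 339 .nil (.cons 339 306 .nil .nil)))]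
  []
  (by decide +kernel) trivial

theorem w4_277_339 : S (PX [] [339,405,438]) := VW.play 372 (PX [372] [339,405,438]) (by decide +kernel) v4_71

theorem w4_277_372 : S (PX [] [372,405,438]) := VW.play 339 (PX [339] [372,405,438]) (by decide +kernel) v4_105

theorem w4_277_471 : S (PX [] [405,438,471]) := VW.play 504 (PX [504] [405,438,471]) (by decide +kernel) v4_262

theorem w4_277_504 : S (PX [] [405,438,504]) := VW.play 471 (PX [471] [405,438,504]) (by decide +kernel) v4_263

theorem v4_277 : VW (PX [] [405,438]) := VW.of base nl_ok fl_ok .nil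
  [(306, (.cons 339 372 .nil (.cons 372 339 (.cons 471 504 .nil (.cons 504 471 .nil .nil)) .nil))), (537, (.cons 471 504 (.cons 339 372 .nil (.cons 372 339 .nil .nil)) (.cons 504 471 .nil .nil)))]
  [([339], (PX [] [339,405,438])), ([372], (PX [] [372,405,438])), ([471], (PX [] [405,438,471])), ([504], (PX [] [405,438,504]))]
  (by decide +kernel) ⟨w4_277_339, w4_277_372, w4_277_471, w4_277_504, trivial⟩

theorem v4_278 : VW (PX [436,529] [405,467,498,591]) := VW.of base nl_ok fl_ok .nil
  []
  []
  (by decide +kernel) trivial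

theorem w4_280_591 : S (PX [436] [405,467,498,591]) := VW.play 529 (PX [436,529] [405,467,498,591]) (by decide +kernel) v4_278

theorem v4_280 : VW (PX [436] [405,467,498]) := VW.of base nl_ok fl_ok .nil
  [(529, (.cons 560 591 .nil (.cons 591 560 .nil .nil))), (560, (.cons 529 591 .nil (.cons 591 529 .nil .nil)))]
  [([591], (PX [436] [405,467,498,591]))]
  (by decide +kernel) ⟨w4_280_591, trivial⟩

theorem w4_283_374 : S (PX [] [374,405,467]) := VW.play 436 (PX [436] [374,405,467]) (by decide +kernel) v4_140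

theorem w4_283_436 : S (PX [] [405,436,467]) := VW.play 498 (PX [498] [405,436,467]) (by decide +kernel) v4_223

theorem w4_283_498 : S (PX [] [405,467,498]) := VW.play 436 (PX [436] [405,467,498]) (by decide +kernel) v4_280

theorem v4_283 : VW (PX [] [405,467]) := VW.of base nl_ok fl_ok .nil
  [(343, (.cons 374 436 (.cons 281 312 .nil (.cons 312 281 .nil .nil)) (.cons 436 374 (.cons 498 529 .nil (.cons 529 498 .nil .nil)) .nil))), (529, (.cons 436 498 (.cons 343 374 .nil (.cons 374 343 .nil .nil)) (.cons 498 436 (.cons 560 591 .nil (.cons 591 560 .nil .nil)) .nil)))]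
  [([374], (PX [] [374,405,467])), ([436], (PX [] [405,436,467])), ([498], (PX [] [405,467,498]))]
  (by decide +kernel) ⟨w4_283_374, w4_283_436, w4_283_498, trivial⟩

theorem v4_298 : VW (PX [437] [405,469,501]) := VW.of base nl_ok fl_ok .nil
  [(533, (.cons 565 597 .nil (.cons 597 565 .nil .nil))), (565, (.cons 533 597 .nil (.cons 597 533 .nil .nil))), (597, (.cons 533 565 .nil (.cons 565 533 .nil .nil)))]
  []
  (by decide +kernel) trivial

theorem w4_301_373 : S (PX [] [373,405,469]) := VW.play 437 (PX [437] [373,405,469]) (by decide +kernel) v4_119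

theorem w4_301_437 : S (PX [] [405,437,469]) := VW.play 373 (PX [373] [405,437,469]) (by decide +kernel) v4_243

theorem w4_301_501 : S (PX [] [405,469,501]) := VW.play 437 (PX [437] [405,469,501]) (by decide +kernel) v4_298

theorem v4_301 : VW (PX [] [405,469]) := VW.of base nl_ok fl_ok .nil
  [(341, (.cons 373 437 (.cons 277 309 .nil (.cons 309 277 .nil .nil)) (.cons 437 373 (.cons 501 533 .nil (.cons 533 501 .nil .nil)) .nil))), (533, (.cons 437 501 (.cons 341 373 .nil (.cons 373 341 .nil .nil)) (.cons 501 437 (.cons 565 597 .nil (.cons 597 565 .nil .nil)) .nil)))]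
  [([373], (PX [] [373,405,469])), ([437], (PX [] [405,437,469])), ([501], (PX [] [405,469,501]))]
  (by decide +kernel) ⟨w4_301_373, w4_301_437, w4_301_501, trivial⟩

theorem v4_302 : VW (PX [438] [405,471,504]) := VW.of base nl_ok fl_ok .nil
  [(537, (.cons 570 603 .nil (.cons 603 570 .nil .nil))), (570, (.cons 537 603 .nil (.cons 603 537 .nil .nil))), (603, (.cons 537 570 .nil (.cons 570 537 .nil .nil)))]
  []
  (by decide +kernel) trivial

theorem w4_305_372 : S (PX [] [372,405,471]) := VW.play 438 (PX [438] [372,405,471]) (by decide +kernel) v4_110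

theorem w4_305_438 : S (PX [] [405,438,471]) := VW.play 504 (PX [504] [405,438,471]) (by decide +kernel) v4_262

theorem w4_305_504 : S (PX [] [405,471,504]) := VW.play 438 (PX [438] [405,471,504]) (by decide +kernel) v4_302

theorem v4_305 : VW (PX [] [405,471]) := VW.of base nl_ok fl_ok .nil
  [(339, (.cons 372 438 (.cons 273 306 .nil (.cons 306 273 .nil .nil)) (.cons 438 372 (.cons 504 537 .nil (.cons 537 504 .nil .nil)) .nil))), (537, (.cons 438 504 (.cons 339 372 .nil (.cons 372 339 .nil .nil)) (.cons 504 438 (.cons 570 603 .nil (.cons 603 570 .nil .nil)) .nil)))]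
  [([372], (PX [] [372,405,471])), ([438], (PX [] [405,438,471])), ([504], (PX [] [405,471,504]))]
  (by decide +kernel) ⟨w4_305_372, w4_305_438, w4_305_504, trivial⟩

theorem w4_306_436 : S (PX [] [405,436,498]) := VW.play 467 (PX [467] [405,436,498]) (by decide +kernel) v4_224

theorem w4_306_467 : S (PX [] [405,467,498]) := VW.play 436 (PX [436] [405,467,498]) (by decide +kernel) v4_280

theorem v4_306 : VW (PX [] [405,498]) := VW.of base nl_ok fl_ok .nil
  [(374, (.cons 436 467 (.cons 312 343 .nil (.cons 343 312 .nil .nil)) (.cons 467 436 .nil .nil))), (529, (.cons 436 467 .nil (.cons 467 436 (.cons 560 591 .nil (.cons 591 560 .nil .nil)) .nil)))]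
  [([436], (PX [] [405,436,498])), ([467], (PX [] [405,467,498]))]
  (by decide +kernel) ⟨w4_306_436, w4_306_467, trivial⟩

theorem w4_307_437 : S (PX [] [405,437,501]) := VW.play 469 (PX [469] [405,437,501]) (by decide +kernel) v4_248

theorem w4_307_469 : S (PX [] [405,469,501]) := VW.play 437 (PX [437] [405,469,501]) (by decide +kernel) v4_298

theorem v4_307 : VW (PX [] [405,501]) := VW.of base nl_ok fl_ok .nil
  [(373, (.cons 437 469 (.cons 309 341 .nil (.cons 341 309 .nil .nil)) (.cons 469 437 .nil .nil))), (533, (.cons 437 469 .nil (.cons 469 437 (.cons 565 597 .nil (.cons 597 565 .nil .nil)) .nil)))]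
  [([437], (PX [] [405,437,501])), ([469], (PX [] [405,469,501]))]
  (by decide +kernel) ⟨w4_307_437, w4_307_469, trivial⟩

theorem w4_308_438 : S (PX [] [405,438,504]) := VW.play 471 (PX [471] [405,438,504]) (by decide +kernel) v4_263

theorem w4_308_471 : S (PX [] [405,471,504]) := VW.play 438 (PX [438] [405,471,504]) (by decide +kernel) v4_302

theorem v4_308 : VW (PX [] [405,504]) := VW.of base nl_ok fl_ok .nil
  [(372, (.cons 438 471 (.cons 306 339 .nil (.cons 339 306 .nil .nil)) (.cons 471 438 .nil .nil))), (537, (.cons 438 471 .nil (.cons 471 438 (.cons 570 603 .nil (.cons 603 570 .nil .nil)) .nil)))]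
  [([438], (PX [] [405,438,504])), ([471], (PX [] [405,471,504]))]
  (by decide +kernel) ⟨w4_308_438, w4_308_471, trivial⟩

theorem v4_309 : VW (PX [] [405,529]) := VW.of base nl_ok fl_ok .nil
  [(436, (.cons 467 498 (.cons 343 374 .nil (.cons 374 343 .nil .nil)) (.cons 498 467 .nil .nil))), (467, (.cons 436 498 (.cons 343 374 .nil (.cons 374 343 .nil .nil)) (.cons 498 436 (.cons 560 591 .nil (.cons 591 560 .nil .nil)) .nil))), (498, (.cons 436 467 .nil (.cons 467 436 (.cons 560 591 .nil (.cons 591 560 .nil .nil)) .nil)))]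
  []
  (by decide +kernel) trivial

theorem v4_310 : VW (PX [] [405,533]) := VW.of base nl_ok fl_ok .nil
  [(437, (.cons 469 501 (.cons 341 373 .nil (.cons 373 341 .nil .nil)) (.cons 501 469 .nil .nil))), (469, (.cons 437 501 (.cons 341 373 .nil (.cons 373 341 .nil .nil)) (.cons 501 437 (.cons 565 597 .nil (.cons 597 565 .nil .nil)) .nil))), (501, (.cons 437 469 .nil (.cons 469 437 (.cons 565 597 .nil (.cons 597 565 .nil .nil)) .nil)))]
  []
  (by decide +kernel) trivial

theorem v4_311 : VW (PX [] [405,537]) := VW.of base nl_ok fl_ok .nil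
  [(438, (.cons 471 504 (.cons 339 372 .nil (.cons 372 339 .nil .nil)) (.cons 504 471 .nil .nil))), (471, (.cons 438 504 (.cons 339 372 .nil (.cons 372 339 .nil .nil)) (.cons 504 438 (.cons 570 603 .nil (.cons 603 570 .nil .nil)) .nil))), (504, (.cons 438 471 .nil (.cons 471 438 (.cons 570 603 .nil (.cons 603 570 .nil .nil)) .nil)))]
  []
  (by decide +kernel) trivial

theorem r273 : S (Nat.lor X2 (bits [405, 273])) := VW.play 394 (PX [] [273,405]) (by decide +kernel) v4_0

theorem r277 : S (Nat.lor X2 (bits [405, 277])) := VW.play 394 (PX [] [277,405]) (by decide +kernel) v4_1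

theorem r281 : S (Nat.lor X2 (bits [405, 281])) := VW.play 394 (PX [] [281,405]) (by decide +kernel) v4_2

theorem r306 : S (Nat.lor X2 (bits [405, 306])) := VW.play 394 (PX [] [306,405]) (by decide +kernel) v4_24

theorem r309 : S (Nat.lor X2 (bits [405, 309])) := VW.play 394 (PX [] [309,405]) (by decide +kernel) v4_46

theorem r312 : S (Nat.lor X2 (bits [405, 312])) := VW.play 394 (PX [] [312,405]) (by decide +kernel) v4_67

theorem r339 : S (Nat.lor X2 (bits [405, 339])) := VW.play 394 (PX [] [339,405]) (by decide +kernel) v4_72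

theorem r341 : S (Nat.lor X2 (bits [405, 341])) := VW.play 394 (PX [] [341,405]) (by decide +kernel) v4_95

theorem r343 : S (Nat.lor X2 (bits [405, 343])) := VW.play 394 (PX [] [343,405]) (by decide +kernel) v4_102

theorem r372 : S (Nat.lor X2 (bits [405, 372])) := VW.play 394 (PX [] [372,405]) (by decide +kernel) v4_111

theorem r373 : S (Nat.lor X2 (bits [405, 373])) := VW.play 394 (PX [] [373,405]) (by decide +kernel) v4_131

theorem r374 : S (Nat.lor X2 (bits [405, 374])) := VW.play 394 (PX [] [374,405]) (by decide +kernel) v4_141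

theorem r401 : S (Nat.lor X2 (bits [405, 401])) := VW.play 394 (PX [] [401,405]) (by decide +kernel) v4_160

theorem r402 : S (Nat.lor X2 (bits [405, 402])) := VW.play 394 (PX [] [402,405]) (by decide +kernel) v4_184

theorem r403 : S (Nat.lor X2 (bits [405, 403])) := VW.play 394 (PX [] [403,405]) (by decide +kernel) v4_189

theorem r404 : S (Nat.lor X2 (bits [405, 404])) := VW.play 394 (PX [] [404,405]) (by decide +kernel) v4_198

theorem r406 : S (Nat.lor X2 (bits [405, 406])) := VW.play 394 (PX [] [405,406]) (by decide +kernel) v4_215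

theorem r407 : S (Nat.lor X2 (bits [405, 407])) := VW.play 394 (PX [] [405,407]) (by decide +kernel) v4_219

theorem r408 : S (Nat.lor X2 (bits [405, 408])) := VW.play 394 (PX [] [405,408]) (by decide +kernel) v4_220

theorem r409 : S (Nat.lor X2 (bits [405, 409])) := VW.play 394 (PX [] [405,409]) (by decide +kernel) v4_221

theorem r436 : S (Nat.lor X2 (bits [405, 436])) := VW.play 394 (PX [] [405,436]) (by decide +kernel) v4_240

theorem r437 : S (Nat.lor X2 (bits [405, 437])) := VW.play 394 (PX [] [405,437]) (by decide +kernel) v4_260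

theorem r438 : S (Nat.lor X2 (bits [405, 438])) := VW.play 394 (PX [] [405,438]) (by decide +kernel) v4_277

theorem r467 : S (Nat.lor X2 (bits [405, 467])) := VW.play 394 (PX [] [405,467]) (by decide +kernel) v4_283

theorem r469 : S (Nat.lor X2 (bits [405, 469])) := VW.play 394 (PX [] [405,469]) (by decide +kernel) v4_301

theorem r471 : S (Nat.lor X2 (bits [405, 471])) := VW.play 394 (PX [] [405,471]) (by decide +kernel) v4_305

theorem r498 : S (Nat.lor X2 (bits [405, 498])) := VW.play 394 (PX [] [405,498]) (by decide +kernel) v4_306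

theorem r501 : S (Nat.lor X2 (bits [405, 501])) := VW.play 394 (PX [] [405,501]) (by decide +kernel) v4_307

theorem r504 : S (Nat.lor X2 (bits [405, 504])) := VW.play 394 (PX [] [405,504]) (by decide +kernel) v4_308

theorem r529 : S (Nat.lor X2 (bits [405, 529])) := VW.play 394 (PX [] [405,529]) (by decide +kernel) v4_309

theorem r533 : S (Nat.lor X2 (bits [405, 533])) := VW.play 394 (PX [] [405,533]) (by decide +kernel) v4_310

theorem r537 : S (Nat.lor X2 (bits [405, 537])) := VW.play 394 (PX [] [405,537]) (by decide +kernel) v4_311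

theorem all : RT X2 405 (273 :: 277 :: 281 :: 306 :: 309 :: 312 :: 339 :: 341 :: 343 :: 372 :: 373 :: 374 :: 401 :: 402 :: 403 :: 404 :: 406 :: 407 :: 408 :: 409 :: 436 :: 437 :: 438 :: 467 :: 469 :: 471 :: 498 :: 501 :: 504 :: 529 :: 533 :: 537 :: []) := ⟨r273, r277, r281, r306, r309, r312, r339, r341, r343, r372, r373, r374, r401, r402, r403, r404, r406, r407, r408, r409, r436, r437, r438, r467, r469, r471, r498, r501, r504, r529, r533, r537, trivial⟩

end Pool.Agent.H94.Five.Mid.K10_1_0
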