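import Pool.Agent.H94.Five.Mid.Fam

set_option autoImplicit false
set_option linter.all false
set_option maxRecDepth 100000

/-! Second has the cell (10, 2): some of the other stones. -/

namespace Pool.Agent.H94.Five.Mid.K10_2_0

open Pool.Agent.H79.Five Pool.Agent.H10.Five Pool.Agent.H94.Five.M

abbrev nl : List Ent := [n0, n3, n4, n6, n8, n9, n10, n11, n16, n17, n21, n22]

theorem nl_ok : AC XB M0 nl := .cons n0k <| .cons n3k <| .cons n4k <| .cons n6k <| .cons n8k <| .cons n9k <| .cons n10k <| .cons n11k <| .cons n16k <| .cons n17k <| .cons n21k <| .cons n22k <| .nil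

abbrev fl : List Ent := (x45 :: x73 :: x103 :: x119 :: x130 :: x136 :: x139 :: x142 :: x146 :: x167 :: x174 :: x176 :: x183 :: x185 :: x193 :: x201 :: x204 :: x207 :: x214 :: x219 :: x223 :: x245 :: x253 :: x255 :: x258 :: x266 :: x276 :: x277 :: x284 :: x310 :: x316 :: x328 :: x337 :: x340 :: x357 :: x364 :: x371 :: x375 :: x383 :: x390 :: x424 :: x427 :: x437 :: x451 :: x462 :: x492 :: x498 :: x501 :: [])

theorem fl_ok : AC XB M0 fl := .cons x45k <| .cons x73k <| .cons x103k <| .cons x119k <| .cons x130k <| .cons x136k <| .cons x139k <| .cons x142k <| .cons x146k <| .cons x167k <| .cons x174k <| .cons x176k <| .cons x183k <| .cons x185k <| .cons x193k <| .cons x201k <| .cons x204k <| .cons x207k <| .cons x214k <| .cons x219k <| .cons x223k <| .cons x245k <| .cons x253k <| .cons x255k <| .cons x258k <| .cons x266k <| .cons x276k <| .cons x277k <| .cons x284k <| .cons x310k <| .cons x316k <| .cons x328k <| .cons x337k <| .cons x340k <| .cons x357k <| .cons x364k <| .cons x371k <| .cons x375k <| .cons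 x383k <| .cons x390k <| .cons x424k <| .cons x427k <| .cons x437k <| .cons x451k <| .cons x462k <| .cons x492k <| .cons x498k <| .cons x501k <| .nil

theorem b4_44 : S (PX [239,371] [206,305,330,338,437]) := S.of (.q 332 (.a 1 [] (.d 301 3311 270 3373 425)
 (.a 1 [270] (.d 425 3373 301 3404 456)
 (.a 0 [301,425] (.q 395 (.a 1 [] (.d 393 392 392 393 397)
 (.a 1 [392] (.d 397 393 393 394 398)
 (.a 0 [393,397] (.q 427 (.a 1 [] (.d 331 1323 299 1355 459)
 (.a 1 [299] (.d 459 1355 331 1387 491)
 (.a 0 [331,459] (.q 365 (.a 1 [] (.d 334 3375 303 3406 458)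
 (.a 1 [303] (.d 458 3406 334 3437 489)
 (.a 0 [334,458] (.q 364 (.a 1 [] (.d 362 361 361 362 366)
 (.a 1 [361] (.d 366 362 362 363 367)
 (.a 1 [362] (.d 300 1292 268 1324 428)
 .e))))
 .e))))
 .e))))
 .e))))
 .e)))) (by decide +kernel)

theorem b4_46 : S (PX [206,371] [272,303,305,338,437]) := S.of (.q 395 (.a 1 [] (.d 393 392 392 393 397)
 (.a 1 [392] (.d 397 393 393 394 398)
 (.a 0 [393,397] (.q 427 (.a 1 [] (.d 331 1323 299 1355 459)
 (.a 1 [299] (.d 459 1355 331 1387 491)
 (.a 0 [331,459] (.q 330 (.a 1 [] (.d 297 2312 264 2345 429)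
 (.a 1 [264] (.d 429 2345 297 2378 462)
 (.a 0 [297,429] (.q 361 (.a 1 [] (.d 328 2343 295 2376 460)
 (.a 1 [295] (.d 460 2376 328 2409 493)
 (.a 0 [328,460] (.q 362 (.a 1 [] (.d 360 359 359 360 364)
 (.a 1 [359] (.d 364 360 360 361 365)
 (.a 1 [360] (.d 298 1290 266 1322 426)
 .e))))
 .e))))
 .e))))
 .e))))
 .e)))) (by decide +kernel)

theorem b4_68 : S (PX [431,435] [297,430,433,434,437]) := S.of (.q 332 (.a 1 [] (.d 301 3342 270 3373 425)
 (.a 1 [270] (.d 425 3373 301 3404 456)
 (.a 0 [301,425] (.q 364 (.a 1 [] (.d 300 1292 268 1324 428)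
 (.a 1 [268] (.d 428 1324 300 1356 460)
 (.a 0 [300,428] (.q 299 (.a 1 [] (.r 365 2347 398 (.d 362 361 361 362 366))
 (.a 1 [361] (.r 365 2347 398 (.d 366 362 362 363 367))
 (.a 1 [362] (.r 398 2347 365 (.r 395 394 397 (.d 331 1291 267 1323 427)))
 (.a 0 [365,398] (.q 395 (.a 1 [] (.d 393 392 392 393 397)
 (.a 1 [392] (.d 331 1291 267 1323 427)
 .e)))
 .e)))))
 .e))))
 .e)))) (by decide +kernel)

theorem b4_69 : S (PX [431,435] [298,430,433,434,437]) := S.of (.q 332 (.a 1 [] (.d 301 3342 270 3373 425)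
 (.a 1 [270] (.d 425 3373 301 3404 456)
 (.a 0 [301,425] (.q 364 (.a 1 [] (.d 300 1292 268 1324 428)
 (.a 1 [268] (.d 428 1324 300 1356 460)
 (.a 0 [300,428] (.q 299 (.a 1 [] (.r 365 2347 398 (.d 362 361 361 362 366))
 (.a 1 [361] (.r 365 2347 398 (.d 366 362 362 363 367))
 (.a 1 [362] (.r 398 2347 365 (.r 395 394 397 (.d 331 1291 267 1323 427)))
 (.a 0 [365,398] (.q 395 (.a 1 [] (.d 393 392 392 393 397)
 (.a 1 [392] (.d 331 1291 267 1323 427)
 .e)))
 .e)))))
 .e))))
 .e)))) (by decide +kernel)

theorem b4_70 : S (PX [431,435] [332,430,433,434,437]) := S.of (.q 395 (.a 1 [] (.d 393 392 392 393 397)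
 (.a 1 [392] (.d 397 393 393 394 398)
 (.a 0 [393,397] (.q 462 (.a 1 [] (.d 429 2378 330 2411 495)
 (.a 0 [330,429,495] (.q 493 (.a 1 [] (.d 400 3441 369 3472 524)
 (.a 1 [369] (.d 524 3472 400 3503 555)
 (.a 0 [400,524] (.q 427 (.a 1 [] (.d 331 1323 299 1355 459)
 (.a 1 [299] (.d 459 1355 331 1387 491)
 (.a 1 [331] (.d 460 2409 361 2442 526)
 .e))))
 .e))))
 .e)))
 .e)))) (by decide +kernel)

theorem b4_71 : S (PX [431,435] [334,430,433,434,437]) := S.of (.q 330 (.a 1 [] (.d 297 2312 264 2345 429)
 (.a 1 [264] (.d 429 2345 297 2378 462)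
 (.a 0 [297,429] (.q 425 (.a 1 [] (.d 332 3373 301 3404 456)
 (.a 1 [301] (.d 456 3404 332 3435 487)
 (.a 0 [332,456] (.q 426 (.a 1 [] (.d 362 1322 298 1354 458)
 (.a 0 [298,362,458] (.q 427 (.a 1 [] (.d 424 423 423 424 428)
 (.a 0 [423,424,428] (.q 395 (.a 1 [] (.d 393 392 392 393 397)
 (.a 1 [392] (.d 397 393 393 394 398)
 (.a 1 [393] (.d 331 1323 299 1355 459)
 .e))))
 .e)))
 .e)))
 .e))))
 .e)))) (by decide +kernel)

theorem b4_72 : S (PX [431,435] [361,430,433,434,437]) := S.of (.q 330 (.a 1 [] (.d 297 2312 264 2345 429)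
 (.a 1 [264] (.d 429 2345 297 2378 462)
 (.a 0 [297,429] (.q 425 (.a 1 [] (.d 332 3373 301 3404 456)
 (.a 1 [301] (.d 456 3404 332 3435 487)
 (.a 0 [332,456] (.q 426 (.a 1 [] (.d 362 1322 298 1354 458)
 (.a 0 [298,362,458] (.q 427 (.a 1 [] (.d 424 423 423 424 428)
 (.a 0 [423,424,428] (.q 395 (.a 1 [] (.d 393 392 392 393 397)
 (.a 1 [392] (.d 397 393 393 394 398)
 (.a 1 [393] (.d 331 1323 299 1355 459)
 .e))))
 .e)))
 .e)))
 .e))))
 .e)))) (by decide +kernel)

theorem b4_73 : S (PX [431,435] [364,430,433,434,437]) := S.of (.q 332 (.a 1 [] (.d 301 3342 270 3373 425)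
 (.a 1 [270] (.d 425 3373 301 3404 456)
 (.a 0 [301,425] (.q 398 (.a 1 [] (.d 365 2347 299 2380 464)
 (.a 1 [464] (.r 395 394 397 (.r 299 2347 365 (.d 331 1291 267 1323 427)))
 (.a 0 [299,365] (.q 462 (.a 1 [] (.d 429 2378 330 2411 495)
 (.a 1 [330] (.r 397 394 395 (.r 400 396 399 (.d 493 3441 369 3472 524)))
 .e)))
 .e))))
 .e)))) (by decide +kernel)

theorem b4_74 : S (PX [431,435] [365,430,433,434,437]) := S.of (.q 395 (.a 1 [] (.d 393 392 392 393 397)
 (.a 1 [392] (.d 397 393 393 394 398)
 (.a 0 [393,397] (.q 331 (.a 1 [] (.d 299 1291 267 1323 427)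
 (.a 1 [267] (.d 427 1323 299 1355 459)
 (.a 0 [299,427] (.q 332 (.a 1 [] (.d 301 3342 270 3373 425)
 (.a 1 [270] (.d 425 3373 301 3404 456)
 (.a 0 [301,425] (.q 333 (.a 1 [] (.d 330 329 329 330 334)
 (.a 1 [329] (.d 334 330 330 331 335)
 (.a 1 [334] (.r 330 329 329 (.d 429 2345 297 2378 462))
 (.a 0 [330] (.q 364 (.a 1 [] (.d 300 1292 268 1324 428)
 (.a 1 [268] (.d 428 1324 300 1356 460)
 (.a 1 [300] (.d 302 3343 271 3374 426)
 .e))))
 .e)))))
 .e))))
 .e))))
 .e)))) (by decide +kernel)

theorem b4_75 : S (PX [431,435] [367,430,433,434,437]) := S.of (.q 330 (.a 1 [] (.d 297 2312 264 2345 429)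
 (.a 1 [264] (.d 429 2345 297 2378 462)
 (.a 0 [297,429] (.q 425 (.a 1 [] (.d 332 3373 301 3404 456)
 (.a 1 [301] (.d 456 3404 332 3435 487)
 (.a 0 [332,456] (.q 426 (.a 1 [] (.d 362 1322 298 1354 458)
 (.a 0 [298,362,458] (.q 427 (.a 1 [] (.d 424 423 423 424 428)
 (.a 0 [423,424,428] (.q 395 (.a 1 [] (.d 393 392 392 393 397)
 (.a 1 [392] (.d 397 393 393 394 398)
 (.a 1 [393] (.d 331 1323 299 1355 459)
 .e))))
 .e)))
 .e)))
 .e))))
 .e)))) (by decide +kernel)

theorem b4_76 : S (PX [431,435] [397,430,433,434,437]) := S.of (.q 332 (.a 1 [] (.d 301 3342 270 3373 425)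
 (.a 1 [270] (.d 425 3373 301 3404 456)
 (.a 0 [301,425] (.q 364 (.a 1 [] (.d 300 1292 268 1324 428)
 (.a 1 [268] (.d 428 1324 300 1356 460)
 (.a 0 [300,428] (.q 365 (.a 1 [] (.d 362 361 361 362 366)
 (.a 1 [361] (.d 366 362 362 363 367)
 (.a 1 [362] (.d 398 2347 299 2380 464)
 .e))))
 .e))))
 .e)))) (by decide +kernel)

theorem b4_77 : S (PX [431,435] [400,430,433,434,437]) := S.of (.q 330 (.a 1 [] (.d 297 2312 264 2345 429)
 (.a 1 [264] (.d 429 2345 297 2378 462)
 (.a 0 [297,429] (.q 425 (.a 1 [] (.d 332 3373 301 3404 456)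
 (.a 1 [301] (.d 456 3404 332 3435 487)
 (.a 0 [332,456] (.q 426 (.a 1 [] (.d 362 1322 298 1354 458)
 (.a 0 [298,362,458] (.q 427 (.a 1 [] (.d 424 423 423 424 428)
 (.a 0 [423,424,428] (.q 395 (.a 1 [] (.d 393 392 392 393 397)
 (.a 1 [392] (.d 397 393 393 394 398)
 (.a 1 [393] (.d 331 1323 299 1355 459)
 .e))))
 .e)))
 .e)))
 .e))))
 .e)))) (by decide +kernel)

theorem b4_78 : S (PX [431,435] [424,430,433,434,437]) := S.of (.q 395 (.a 1 [] (.d 393 392 392 393 397)
 (.a 1 [392] (.d 397 393 393 394 398)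
 (.a 0 [393,397] (.q 332 (.a 1 [] (.d 301 3342 270 3373 425)
 (.a 1 [270] (.d 425 3373 301 3404 456)
 (.a 0 [301,425] (.q 365 (.a 1 [] (.d 398 2347 299 2380 464)
 (.a 1 [464] (.r 299 2347 398 (.d 331 1291 267 1323 427))
 (.a 0 [299,398] (.q 364 (.a 1 [] (.d 362 361 361 362 366)
 (.a 1 [361] (.d 366 362 362 363 367)
 (.a 1 [362] (.d 300 1292 268 1324 428)
 .e))))
 .e))))
 .e))))
 .e)))) (by decide +kernel)

theorem b4_79 : S (PX [431,435] [425,430,433,434,437]) := S.of (.q 395 (.a 1 [] (.d 393 392 392 393 397)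
 (.a 1 [392] (.d 397 393 393 394 398)
 (.a 0 [393,397] (.q 462 (.a 1 [] (.d 429 2378 330 2411 495)
 (.a 0 [330,429,495] (.q 493 (.a 1 [] (.d 400 3441 369 3472 524)
 (.a 1 [369] (.d 524 3472 400 3503 555)
 (.a 0 [400,524] (.q 427 (.a 1 [] (.d 331 1323 299 1355 459)
 (.a 1 [299] (.d 459 1355 331 1387 491)
 (.a 1 [331] (.d 460 2409 361 2442 526)
 .e))))
 .e))))
 .e)))
 .e)))) (by decide +kernel)

theorem b4_80 : S (PX [431,435] [427,430,433,434,437]) := S.of (.q 332 (.a 1 [] (.d 301 3342 270 3373 425)
 (.a 1 [270] (.d 425 3373 301 3404 456)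
 (.a 0 [301,425] (.q 398 (.a 1 [] (.d 365 2347 299 2380 464)
 (.a 0 [299,365,464] (.q 462 (.a 1 [] (.d 429 2378 330 2411 495)
 (.a 1 [330] (.r 397 394 395 (.r 400 396 399 (.d 493 3441 369 3472 524)))
 .e)))
 .e)))
 .e)))) (by decide +kernel)

theorem b4_81 : S (PX [431,435] [428,430,433,434,437]) := S.of (.q 395 (.a 1 [] (.d 393 392 392 393 397)
 (.a 1 [392] (.d 397 393 393 394 398)
 (.a 0 [393,397] (.q 332 (.a 1 [] (.d 301 3342 270 3373 425)
 (.a 1 [270] (.d 425 3373 301 3404 456)
 (.a 0 [301,425] (.q 365 (.a 1 [] (.d 398 2347 299 2380 464)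
 (.a 1 [464] (.r 299 2347 398 (.d 331 1291 267 1323 427))
 (.a 0 [299,398] (.q 427 (.a 1 [] (.d 459 1355 331 1387 491)
 (.a 1 [331] (.d 458 3406 334 3437 489)
 .e)))
 .e))))
 .e))))
 .e)))) (by decide +kernel)

theorem b4_82 : S (PX [431,435] [430,433,434,437,456]) := S.of (.q 395 (.a 1 [] (.d 393 392 392 393 397)
 (.a 1 [392] (.d 397 393 393 394 398)
 (.a 0 [393,397] (.q 331 (.a 1 [] (.d 299 1291 267 1323 427)
 (.a 1 [267] (.d 427 1323 299 1355 459)
 (.a 0 [299,427] (.q 332 (.a 1 [] (.d 301 3342 270 3373 425)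
 (.a 0 [270,301,425] (.q 330 (.a 1 [] (.d 329 328 328 329 333)
 (.a 1 [328] (.d 333 329 329 330 334)
 (.a 1 [329] (.d 297 2312 264 2345 429)
 .e))))
 .e)))
 .e))))
 .e)))) (by decide +kernel)

theorem b4_83 : S (PX [431,435] [430,433,434,437,488]) := S.of (.q 395 (.a 1 [] (.d 393 392 392 393 397)
 (.a 1 [392] (.d 397 393 393 394 398)
 (.a 0 [393,397] (.q 331 (.a 1 [] (.d 299 1291 267 1323 427)
 (.a 1 [267] (.d 427 1323 299 1355 459)
 (.a 0 [299,427] (.q 332 (.a 1 [] (.d 301 3342 270 3373 425)
 (.a 1 [270] (.d 425 3373 301 3404 456)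
 (.a 0 [301,425] (.q 330 (.a 1 [] (.d 329 328 328 329 333)
 (.a 1 [328] (.d 333 329 329 330 334)
 (.a 1 [329] (.d 297 2312 264 2345 429)
 .e))))
 .e))))
 .e))))
 .e)))) (by decide +kernel)

theorem b4_100 : S (PX [430,435] [332,431,433,434,437]) := S.of (.q 395 (.a 1 [] (.d 393 392 392 393 397)
 (.a 1 [392] (.d 397 393 393 394 398)
 (.a 0 [393,397] (.q 427 (.a 1 [] (.d 331 1323 299 1355 459)
 (.a 1 [299] (.d 459 1355 331 1387 491)
 (.a 0 [331,459] (.q 330 (.a 1 [] (.d 297 2312 264 2345 429)
 (.a 1 [264] (.d 429 2345 297 2378 462)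
 (.a 1 [297] (.r 429 2378 462 (.r 426 426 428 (.d 362 1322 298 1354 458)))
 (.a 0 [429] (.q 365 (.a 1 [] (.d 334 3375 303 3406 458)
 (.a 1 [303] (.d 458 3406 334 3437 489)
 (.a 1 [334] (.r 458 3437 489 (.r 362 1354 426 (.d 364 361 361 362 366)))
 (.a 0 [458] (.q 362 (.a 1 [] (.d 364 361 361 362 366)
 (.a 1 [361] (.d 298 1290 266 1322 426)
 .e)))
 .e)))))
 .e)))))
 .e))))
 .e)))) (by decide +kernel)

theorem b4_101 : S (PX [430,435] [365,431,433,434,437]) := S.of (.q 332 (.a 1 [] (.d 301 3342 270 3373 425)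
 (.a 1 [270] (.d 425 3373 301 3404 456)
 (.a 0 [301,425] (.q 364 (.a 1 [] (.d 300 1292 268 1324 428)
 (.a 1 [268] (.d 428 1324 300 1356 460)
 (.a 0 [300,428] (.q 397 (.a 1 [] (.d 395 393 393 394 398)
 (.a 1 [393] (.d 463 2379 331 2412 496)
 .e)))
 .e))))
 .e)))) (by decide +kernel)

theorem b4_102 : S (PX [430,435] [367,431,433,434,437]) := S.of (.q 395 (.a 1 [] (.d 393 392 392 393 397)
 (.a 1 [392] (.d 397 393 393 394 398)
 (.a 0 [393,397] (.q 427 (.a 1 [] (.d 331 1323 299 1355 459)
 (.a 1 [299] (.d 459 1355 331 1387 491)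
 (.a 0 [331,459] (.q 429 (.a 1 [] (.d 330 2345 297 2378 462)
 (.a 1 [297] (.d 462 2378 330 2411 495)
 (.a 0 [330,462] (.q 332 (.a 1 [] (.d 301 3342 270 3373 425)
 (.a 1 [270] (.d 425 3373 301 3404 456)
 (.a 1 [301] (.r 428 426 426 (.d 364 1324 300 1356 460))
 .e))))
 .e))))
 .e))))
 .e)))) (by decide +kernel)

theorem b4_103 : S (PX [430,435] [397,431,433,434,437]) := S.of (.q 330 (.a 1 [] (.d 297 2312 264 2345 429)
 (.a 1 [264] (.d 429 2345 297 2378 462)
 (.a 0 [297,429] (.q 425 (.a 1 [] (.d 332 3373 301 3404 456)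
 (.a 1 [301] (.d 456 3404 332 3435 487)
 (.a 0 [332,456] (.q 426 (.a 1 [] (.d 362 1322 298 1354 458)
 (.a 0 [298,362,458] (.q 423 (.a 1 [] (.d 424 422 422 423 427)
 (.a 0 [422,424,427] (.q 392 (.a 1 [] (.d 361 3371 299 3402 454)
 (.a 1 [299] (.r 393 392 395 (.r 361 3402 454 (.d 457 1353 329 1385 489)))
 (.a 1 [454] (.r 393 392 395 (.r 361 3371 299 (.d 457 1353 329 1385 489)))
 (.a 0 [361] (.r 393 392 395 (.q 327 (.a 1 [] (.d 360 2342 294 2375 459)
 (.a 1 [294] (.r 391 390 390 (.d 359 1319 295 1351 455))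
 .e))))
 .e)))))
 .e)))
 .e)))
 .e))))
 .e)))) (by decide +kernel)

theorem b4_104 : S (PX [430,435] [398,431,433,434,437]) := S.of (.q 332 (.a 1 [] (.d 301 3342 270 3373 425)
 (.a 1 [270] (.d 425 3373 301 3404 456)
 (.a 0 [301,425] (.q 364 (.a 1 [] (.d 300 1292 268 1324 428)
 (.a 1 [268] (.d 428 1324 300 1356 460)
 (.a 0 [300,428] (.q 397 (.a 1 [] (.d 331 2346 298 2379 463)
 (.a 1 [298] (.d 463 2379 331 2412 496)
 (.a 0 [331,463] (.q 429 (.a 1 [] (.d 330 2345 297 2378 462)
 (.a 1 [297] (.d 462 2378 330 2411 495)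
 (.a 0 [330,462] (.q 365 (.a 1 [] (.d 362 361 361 362 366)
 (.a 1 [361] (.d 366 362 362 363 367)
 (.a 1 [362] (.d 461 1357 333 1389 493)
 .e))))
 .e))))
 .e))))
 .e))))
 .e)))) (by decide +kernel)

theorem b4_105 : S (PX [430,435] [400,431,433,434,437]) := S.of (.q 395 (.a 1 [] (.d 393 392 392 393 397)
 (.a 1 [392] (.d 397 393 393 394 398)
 (.a 0 [393,397] (.q 427 (.a 1 [] (.d 331 1323 299 1355 459)
 (.a 1 [299] (.d 459 1355 331 1387 491)
 (.a 0 [331,459] (.q 458 (.a 1 [] (.d 365 3406 334 3437 489)
 (.a 1 [334] (.d 489 3437 365 3468 520)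
 (.a 0 [365,489] (.q 426 (.a 1 [] (.d 362 1354 330 1386 490)
 (.a 1 [330] (.d 490 1386 362 1418 522)
 (.a 1 [362] (.r 429 426 428 (.d 462 2378 330 2411 495))
 (.a 1 [490] (.r 428 426 429 (.r 425 424 424 (.d 456 3404 332 3435 487)))
 .e)))))
 .e))))
 .e))))
 .e)))) (by decide +kernel)

theorem b4_106 : S (PX [430,435] [424,431,433,434,437]) := S.of (.q 395 (.a 1 [] (.d 393 392 392 393 397)
 (.a 1 [392] (.d 397 393 393 394 398)
 (.a 0 [393,397] (.q 331 (.a 1 [] (.d 299 1291 267 1323 427)
 (.a 1 [267] (.d 427 1323 299 1355 459)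
 (.a 0 [299,427] (.q 330 (.a 1 [] (.d 297 2312 264 2345 429)
 (.a 1 [264] (.d 429 2345 297 2378 462)
 (.a 0 [297,429] (.q 332 (.a 1 [] (.d 329 328 328 329 333)
 (.a 1 [328] (.d 333 329 329 330 334)
 (.a 1 [329] (.d 301 3342 270 3373 425)
 .e))))
 .e))))
 .e))))
 .e)))) (by decide +kernel)

theorem b4_107 : S (PX [430,435] [427,431,433,434,437]) := S.of (.q 332 (.a 1 [] (.d 301 3342 270 3373 425)
 (.a 1 [270] (.d 425 3373 301 3404 456)
 (.a 0 [301,425] (.q 429 (.a 1 [] (.d 330 2345 297 2378 462)
 (.a 1 [297] (.d 462 2378 330 2411 495)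
 (.a 0 [330,462] (.q 397 (.a 1 [] (.d 395 393 393 394 398)
 (.a 0 [393,395,398] (.q 364 (.a 1 [] (.d 300 1292 268 1324 428)
 (.a 1 [268] (.d 428 1324 300 1356 460)
 (.a 1 [300] (.d 331 2346 298 2379 463)
 .e))))
 .e)))
 .e))))
 .e)))) (by decide +kernel)

theorem b4_108 : S (PX [430,435] [428,431,433,434,437]) := S.of (.q 395 (.a 1 [] (.d 393 392 392 393 397)
 (.a 1 [392] (.d 397 393 393 394 398)
 (.a 0 [393,397] (.q 330 (.a 1 [] (.d 297 2312 264 2345 429)
 (.a 1 [264] (.d 429 2345 297 2378 462)
 (.a 0 [297,429] (.q 425 (.a 1 [] (.d 332 3373 301 3404 456)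
 (.a 1 [301] (.d 456 3404 332 3435 487)
 (.a 0 [332,456] (.q 299 (.a 1 [] (.d 331 1291 267 1323 427)
 (.a 0 [267,331,427] (.q 361 (.a 1 [] (.d 268 3309 237 3340 392)
 (.a 1 [237] (.d 392 3340 268 3371 423)
 (.a 0 [268,392] (.q 362 (.a 1 [] (.d 360 359 359 360 364)
 (.a 1 [359] (.d 364 360 360 361 365)
 (.a 1 [360] (.d 298 1290 266 1322 426)
 .e))))
 .e))))
 .e)))
 .e))))
 .e))))
 .e)))) (by decide +kernel)

theorem b4_112 : S (PX [430,435] [428,432,433,434,437]) := S.of (.q 395 (.a 1 [] (.d 393 392 392 393 397)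
 (.a 1 [392] (.d 397 393 393 394 398)
 (.a 0 [393,397] (.q 330 (.a 1 [] (.d 297 2312 264 2345 429)
 (.a 1 [264] (.d 429 2345 297 2378 462)
 (.a 0 [297,429] (.q 425 (.a 1 [] (.d 332 3373 301 3404 456)
 (.a 1 [301] (.d 456 3404 332 3435 487)
 (.a 0 [332,456] (.q 299 (.a 1 [] (.d 331 1291 267 1323 427)
 (.a 0 [267,331,427] (.q 361 (.a 1 [] (.d 268 3309 237 3340 392)
 (.a 1 [237] (.d 392 3340 268 3371 423)
 (.a 0 [268,392] (.q 362 (.a 1 [] (.d 360 359 359 360 364)
 (.a 1 [359] (.d 364 360 360 361 365)
 (.a 1 [360] (.d 298 1290 266 1322 426)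
 .e))))
 .e))))
 .e)))
 .e))))
 .e))))
 .e)))) (by decide +kernel)

theorem v4_312 : VW (PX [239,371] [206,305,338,437]) := VW.of base nl_ok fl_ok .nil
  []
  [([330], (PX [239,371] [206,305,330,338,437]))]
  (by decide +kernel) ⟨b4_44, trivial⟩

theorem v4_314 : VW (PX [206,371] [272,305,338,437]) := VW.of base nl_ok fl_ok .nil
  []
  [([303], (PX [206,371] [272,303,305,338,437]))]
  (by decide +kernel) ⟨b4_46, trivial⟩

theorem w4_316_206 : S (PX [371] [206,305,338,437]) := VW.play 239 (PX [239,371] [206,305,338,437]) (by decide +kernel) v4_312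

theorem w4_316_272 : S (PX [371] [272,305,338,437]) := VW.play 206 (PX [206,371] [272,305,338,437]) (by decide +kernel) v4_314

theorem v4_316 : VW (PX [371] [305,338,437]) := VW.of base nl_ok fl_ok .nil
  [(239, (.cons 206 272 .nil (.cons 272 206 .nil .nil)))]
  [([206], (PX [371] [206,305,338,437])), ([272], (PX [371] [272,305,338,437]))]
  (by decide +kernel) ⟨w4_316_206, w4_316_272, trivial⟩

theorem v4_324 : VW (PX [338] [305,371,437]) := VW.of base nl_ok fl_ok .nil
  [(404, (.cons 470 503 .nil (.cons 503 470 .nil .nil))), (470, (.cons 404 503 .nil (.cons 503 404 (.cons 536 569 .nil (.cons 569 536 .nil .nil)) .nil))), (503, (.cons 404 470 .nil (.cons 470 404 (.cons 536 569 .nil (.cons 569 536 .nil .nil)) .nil)))]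
  []
  (by decide +kernel) trivial

theorem w4_338_338 : S (PX [] [305,338,437]) := VW.play 371 (PX [371] [305,338,437]) (by decide +kernel) v4_316

theorem w4_338_371 : S (PX [] [305,371,437]) := VW.play 338 (PX [338] [305,371,437]) (by decide +kernel) v4_324

theorem v4_338 : VW (PX [] [305,437]) := VW.of base nl_ok fl_ok .nil
  [(404, (.cons 338 371 .nil (.cons 371 338 (.cons 470 503 .nil (.cons 503 470 .nil .nil)) .nil)))]
  [([338], (PX [] [305,338,437])), ([371], (PX [] [305,371,437]))]
  (by decide +kernel) ⟨w4_338_338, w4_338_371, trivial⟩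

theorem v4_339 : VW (PX [] [309,437]) := VW.of base nl_ok fl_ok .nil
  [(341, (.cons 373 405 (.cons 245 277 .nil (.cons 277 245 .nil .nil)) (.cons 405 373 .nil .nil))), (373, (.cons 341 405 (.cons 245 277 .nil (.cons 277 245 .nil .nil)) (.cons 405 341 (.cons 469 501 .nil (.cons 501 469 .nil .nil)) .nil))), (405, (.cons 341 373 .nil (.cons 373 341 (.cons 469 501 .nil (.cons 501 469 .nil .nil)) .nil)))]
  []
  (by decide +kernel) trivial

theorem v4_340 : VW (PX [] [313,437]) := VW.of base nl_ok fl_ok .nil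
  [(344, (.cons 375 406 (.cons 251 282 .nil (.cons 282 251 .nil .nil)) (.cons 406 375 .nil .nil))), (375, (.cons 344 406 (.cons 251 282 .nil (.cons 282 251 .nil .nil)) (.cons 406 344 (.cons 468 499 .nil (.cons 499 468 .nil .nil)) .nil))), (406, (.cons 344 375 .nil (.cons 375 344 (.cons 468 499 .nil (.cons 499 468 .nil .nil)) .nil)))]
  []
  (by decide +kernel) trivial

theorem v4_341 : VW (PX [305,470] [338,371,404,437]) := VW.of base nl_ok fl_ok .nil
  []
  []
  (by decide +kernel) trivial

theorem v4_342 : VW (PX [305,404] [338,371,437,470]) := VW.of base nl_ok fl_ok .nil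
  [(503, (.cons 536 569 .nil (.cons 569 536 .nil .nil))), (536, (.cons 503 569 .nil (.cons 569 503 .nil .nil))), (569, (.cons 503 536 .nil (.cons 536 503 .nil .nil)))]
  []
  (by decide +kernel) trivial

theorem w4_343_404 : S (PX [305] [338,371,404,437]) := VW.play 470 (PX [305,470] [338,371,404,437]) (by decide +kernel) v4_341

theorem w4_343_470 : S (PX [305] [338,371,437,470]) := VW.play 404 (PX [305,404] [338,371,437,470]) (by decide +kernel) v4_342

theorem v4_343 : VW (PX [305] [338,371,437]) := VW.of base nl_ok fl_ok (.cons 404 470 .nil (.cons 470 404 .nil .nil))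
  [(503, (.cons 404 470 .nil (.cons 470 404 (.cons 536 569 .nil (.cons 569 536 .nil .nil)) .nil))), (536, (.cons 404 470 .nil (.cons 470 404 (.cons 503 569 .nil (.cons 569 503 .nil .nil)) .nil))), (569, (.cons 404 470 .nil (.cons 470 404 (.cons 503 536 .nil (.cons 536 503 .nil .nil)) .nil)))]
  [([404], (PX [305] [338,371,404,437])), ([470], (PX [305] [338,371,437,470]))]
  (by decide +kernel) ⟨w4_343_404, w4_343_470, trivial⟩

theorem v4_363 : VW (PX [371] [338,404,437]) := VW.of base nl_ok fl_ok .nil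
  [(470, (.cons 503 536 .nil (.cons 536 503 .nil .nil))), (503, (.cons 470 536 .nil (.cons 536 470 .nil .nil))), (536, (.cons 470 503 .nil (.cons 503 470 .nil .nil)))]
  []
  (by decide +kernel) trivial

theorem w4_364_305 : S (PX [] [305,338,437]) := VW.play 371 (PX [371] [305,338,437]) (by decide +kernel) v4_316

theorem w4_364_371 : S (PX [] [338,371,437]) := VW.play 305 (PX [305] [338,371,437]) (by decide +kernel) v4_343

theorem w4_364_404 : S (PX [] [338,404,437]) := VW.play 371 (PX [371] [338,404,437]) (by decide +kernel) v4_363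

theorem v4_364 : VW (PX [] [338,437]) := VW.of base nl_ok fl_ok .nil
  [(470, (.cons 371 404 .nil (.cons 404 371 (.cons 503 536 .nil (.cons 536 503 .nil .nil)) .nil)))]
  [([305], (PX [] [305,338,437])), ([371], (PX [] [338,371,437])), ([404], (PX [] [338,404,437]))]
  (by decide +kernel) ⟨w4_364_305, w4_364_371, w4_364_404, trivial⟩

theorem v4_367 : VW (PX [405] [341,373,437]) := VW.of base nl_ok fl_ok .nil
  [(245, (.cons 277 309 .nil (.cons 309 277 .nil .nil))), (277, (.cons 245 309 .nil (.cons 309 245 .nil .nil))), (309, (.cons 245 277 .nil (.cons 277 245 .nil .nil)))]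
  []
  (by decide +kernel) trivial

theorem v4_92 : VW (PX [373] [341,405,437]) := VW.of base nl_ok fl_ok .nil
  [(469, (.cons 501 533 .nil (.cons 533 501 .nil .nil))), (501, (.cons 469 533 .nil (.cons 533 469 .nil .nil))), (533, (.cons 469 501 .nil (.cons 501 469 .nil .nil)))]
  []
  (by decide +kernel) trivial

theorem w4_382_373 : S (PX [] [341,373,437]) := VW.play 405 (PX [405] [341,373,437]) (by decide +kernel) v4_367

theorem w4_382_405 : S (PX [] [341,405,437]) := VW.play 373 (PX [373] [341,405,437]) (by decide +kernel) v4_92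

theorem v4_382 : VW (PX [] [341,437]) := VW.of base nl_ok fl_ok .nil
  [(309, (.cons 373 405 (.cons 245 277 .nil (.cons 277 245 .nil .nil)) (.cons 405 373 .nil .nil))), (469, (.cons 373 405 .nil (.cons 405 373 (.cons 501 533 .nil (.cons 533 501 .nil .nil)) .nil)))]
  [([373], (PX [] [341,373,437])), ([405], (PX [] [341,405,437]))]
  (by decide +kernel) ⟨w4_382_373, w4_382_405, trivial⟩

theorem v4_386 : VW (PX [406] [344,375,437]) := VW.of base nl_ok fl_ok .nil
  [(251, (.cons 282 313 .nil (.cons 313 282 .nil .nil))), (282, (.cons 251 313 .nil (.cons 313 251 .nil .nil))), (313, (.cons 251 282 .nil (.cons 282 251 .nil .nil)))]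
  []
  (by decide +kernel) trivial

theorem v4_401 : VW (PX [375] [344,406,437]) := VW.of base nl_ok fl_ok .nil
  [(468, (.cons 499 530 .nil (.cons 530 499 .nil .nil))), (499, (.cons 468 530 .nil (.cons 530 468 .nil .nil))), (530, (.cons 468 499 .nil (.cons 499 468 .nil .nil)))]
  []
  (by decide +kernel) trivial

theorem w4_402_375 : S (PX [] [344,375,437]) := VW.play 406 (PX [406] [344,375,437]) (by decide +kernel) v4_386

theorem w4_402_406 : S (PX [] [344,406,437]) := VW.play 375 (PX [375] [344,406,437]) (by decide +kernel) v4_401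

theorem v4_402 : VW (PX [] [344,437]) := VW.of base nl_ok fl_ok .nil
  [(313, (.cons 375 406 (.cons 251 282 .nil (.cons 282 251 .nil .nil)) (.cons 406 375 .nil .nil))), (468, (.cons 375 406 .nil (.cons 406 375 (.cons 499 530 .nil (.cons 530 499 .nil .nil)) .nil)))]
  [([375], (PX [] [344,375,437])), ([406], (PX [] [344,406,437]))]
  (by decide +kernel) ⟨w4_402_375, w4_402_406, trivial⟩

theorem v4_403 : VW (PX [338,503] [371,404,437,470]) := VW.of base nl_ok fl_ok .nil
  []
  []
  (by decide +kernel) trivial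

theorem v4_404 : VW (PX [338,470] [371,404,437,503]) := VW.of base nl_ok fl_ok .nil
  []
  []
  (by decide +kernel) trivial

theorem w4_405_470 : S (PX [338] [371,404,437,470]) := VW.play 503 (PX [338,503] [371,404,437,470]) (by decide +kernel) v4_403

theorem w4_405_503 : S (PX [338] [371,404,437,503]) := VW.play 470 (PX [338,470] [371,404,437,503]) (by decide +kernel) v4_404

theorem v4_405 : VW (PX [338] [371,404,437]) := VW.of base nl_ok fl_ok (.cons 470 503 .nil (.cons 503 470 .nil .nil))
  [(536, (.cons 470 503 .nil (.cons 503 470 .nil .nil))), (569, (.cons 470 503 .nil (.cons 503 470 .nil .nil))), (602, (.cons 470 503 .nil (.cons 503 470 .nil .nil)))]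
  [([470], (PX [338] [371,404,437,470])), ([503], (PX [338] [371,404,437,503]))]
  (by decide +kernel) ⟨w4_405_470, w4_405_503, trivial⟩

theorem v4_406 : VW (PX [404] [371,437,470]) := VW.of base nl_ok fl_ok .nil
  [(503, (.cons 536 569 .nil (.cons 569 536 .nil .nil))), (536, (.cons 503 569 .nil (.cons 569 503 .nil .nil))), (569, (.cons 503 536 .nil (.cons 536 503 .nil .nil)))]
  []
  (by decide +kernel) trivial

theorem w4_407_305 : S (PX [] [305,371,437]) := VW.play 338 (PX [338] [305,371,437]) (by decide +kernel) v4_324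

theorem w4_407_338 : S (PX [] [338,371,437]) := VW.play 305 (PX [305] [338,371,437]) (by decide +kernel) v4_343

theorem w4_407_404 : S (PX [] [371,404,437]) := VW.play 338 (PX [338] [371,404,437]) (by decide +kernel) v4_405

theorem w4_407_470 : S (PX [] [371,437,470]) := VW.play 404 (PX [404] [371,437,470]) (by decide +kernel) v4_406

theorem v4_407 : VW (PX [] [371,437]) := VW.of base nl_ok fl_ok .nil
  [(503, (.cons 404 470 (.cons 305 338 .nil (.cons 338 305 .nil .nil)) (.cons 470 404 (.cons 536 569 .nil (.cons 569 536 .nil .nil)) .nil)))]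
  [([305], (PX [] [305,371,437])), ([338], (PX [] [338,371,437])), ([404], (PX [] [371,404,437])), ([470], (PX [] [371,437,470]))]
  (by decide +kernel) ⟨w4_407_305, w4_407_338, w4_407_404, w4_407_470, trivial⟩

theorem v4_112 : VW (PX [341,501] [373,405,437,469]) := VW.of base nl_ok fl_ok .nil
  []
  []
  (by decide +kernel) trivial

theorem v4_113 : VW (PX [341,469] [373,405,437,501]) := VW.of base nl_ok fl_ok .nil
  []
  []
  (by decide +kernel) trivial

theorem w4_114_469 : S (PX [341] [373,405,437,469]) := VW.play 501 (PX [341,501] [373,405,437,469]) (by decide +kernel) v4_112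

theorem w4_114_501 : S (PX [341] [373,405,437,501]) := VW.play 469 (PX [341,469] [373,405,437,501]) (by decide +kernel) v4_113

theorem v4_114 : VW (PX [341] [373,405,437]) := VW.of base nl_ok fl_ok (.cons 469 501 .nil (.cons 501 469 .nil .nil))
  [(533, (.cons 469 501 .nil (.cons 501 469 .nil .nil))), (565, (.cons 469 501 .nil (.cons 501 469 .nil .nil))), (597, (.cons 469 501 .nil (.cons 501 469 .nil .nil)))]
  [([469], (PX [341] [373,405,437,469])), ([501], (PX [341] [373,405,437,501]))]
  (by decide +kernel) ⟨w4_114_469, w4_114_501, trivial⟩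

theorem v4_422 : VW (PX [405] [373,437,469]) := VW.of base nl_ok fl_ok .nil
  [(501, (.cons 533 565 .nil (.cons 565 533 .nil .nil))), (533, (.cons 501 565 .nil (.cons 565 501 .nil .nil))), (565, (.cons 501 533 .nil (.cons 533 501 .nil .nil)))]
  []
  (by decide +kernel) trivial

theorem w4_425_341 : S (PX [] [341,373,437]) := VW.play 405 (PX [405] [341,373,437]) (by decide +kernel) v4_367

theorem w4_425_405 : S (PX [] [373,405,437]) := VW.play 341 (PX [341] [373,405,437]) (by decide +kernel) v4_114

theorem w4_425_469 : S (PX [] [373,437,469]) := VW.play 405 (PX [405] [373,437,469]) (by decide +kernel) v4_422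

theorem v4_425 : VW (PX [] [373,437]) := VW.of base nl_ok fl_ok .nil
  [(309, (.cons 341 405 (.cons 245 277 .nil (.cons 277 245 .nil .nil)) (.cons 405 341 (.cons 469 501 .nil (.cons 501 469 .nil .nil)) .nil))), (501, (.cons 405 469 (.cons 309 341 .nil (.cons 341 309 .nil .nil)) (.cons 469 405 (.cons 533 565 .nil (.cons 565 533 .nil .nil)) .nil)))]
  [([341], (PX [] [341,373,437])), ([405], (PX [] [373,405,437])), ([469], (PX [] [373,437,469]))]
  (by decide +kernel) ⟨w4_425_341, w4_425_405, w4_425_469, trivial⟩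

theorem v4_426 : VW (PX [344,499] [375,406,437,468]) := VW.of base nl_ok fl_ok .nil
  []
  []
  (by decide +kernel) trivial

theorem v4_427 : VW (PX [344,468] [375,406,437,499]) := VW.of base nl_ok fl_ok .nil
  []
  []
  (by decide +kernel) trivial

theorem w4_428_468 : S (PX [344] [375,406,437,468]) := VW.play 499 (PX [344,499] [375,406,437,468]) (by decide +kernel) v4_426

theorem w4_428_499 : S (PX [344] [375,406,437,499]) := VW.play 468 (PX [344,468] [375,406,437,499]) (by decide +kernel) v4_427

theorem v4_428 : VW (PX [344] [375,406,437]) := VW.of base nl_ok fl_ok (.cons 468 499 .nil (.cons 499 468 .nil .nil))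
  [(530, (.cons 468 499 .nil (.cons 499 468 .nil .nil))), (561, (.cons 468 499 .nil (.cons 499 468 .nil .nil))), (592, (.cons 468 499 .nil (.cons 499 468 .nil .nil)))]
  [([468], (PX [344] [375,406,437,468])), ([499], (PX [344] [375,406,437,499]))]
  (by decide +kernel) ⟨w4_428_468, w4_428_499, trivial⟩

theorem v4_429 : VW (PX [406] [375,437,468]) := VW.of base nl_ok fl_ok .nil
  [(499, (.cons 530 561 .nil (.cons 561 530 .nil .nil))), (530, (.cons 499 561 .nil (.cons 561 499 .nil .nil))), (561, (.cons 499 530 .nil (.cons 530 499 .nil .nil)))]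
  []
  (by decide +kernel) trivial

theorem w4_432_344 : S (PX [] [344,375,437]) := VW.play 406 (PX [406] [344,375,437]) (by decide +kernel) v4_386

theorem w4_432_406 : S (PX [] [375,406,437]) := VW.play 344 (PX [344] [375,406,437]) (by decide +kernel) v4_428

theorem w4_432_468 : S (PX [] [375,437,468]) := VW.play 406 (PX [406] [375,437,468]) (by decide +kernel) v4_429

theorem v4_432 : VW (PX [] [375,437]) := VW.of base nl_ok fl_ok .nil
  [(313, (.cons 344 406 (.cons 251 282 .nil (.cons 282 251 .nil .nil)) (.cons 406 344 (.cons 468 499 .nil (.cons 499 468 .nil .nil)) .nil))), (499, (.cons 406 468 (.cons 313 344 .nil (.cons 344 313 .nil .nil)) (.cons 468 406 (.cons 530 561 .nil (.cons 561 530 .nil .nil)) .nil)))]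
  [([344], (PX [] [344,375,437])), ([406], (PX [] [375,406,437])), ([468], (PX [] [375,437,468]))]
  (by decide +kernel) ⟨w4_432_344, w4_432_406, w4_432_468, trivial⟩

theorem v4_433 : VW (PX [371,536] [404,437,470,503]) := VW.of base nl_ok fl_ok .nil
  []
  []
  (by decide +kernel) trivial

theorem v4_434 : VW (PX [371,503] [404,437,470,536]) := VW.of base nl_ok fl_ok .nil
  []
  []
  (by decide +kernel) trivial

theorem w4_435_503 : S (PX [371] [404,437,470,503]) := VW.play 536 (PX [371,536] [404,437,470,503]) (by decide +kernel) v4_433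

theorem w4_435_536 : S (PX [371] [404,437,470,536]) := VW.play 503 (PX [371,503] [404,437,470,536]) (by decide +kernel) v4_434

theorem v4_435 : VW (PX [371] [404,437,470]) := VW.of base nl_ok fl_ok (.cons 503 536 .nil (.cons 536 503 .nil .nil))
  [(569, (.cons 503 536 .nil (.cons 536 503 .nil .nil))), (602, (.cons 503 536 .nil (.cons 536 503 .nil .nil))), (635, (.cons 503 536 .nil (.cons 536 503 .nil .nil)))]
  [([503], (PX [371] [404,437,470,503])), ([536], (PX [371] [404,437,470,536]))]
  (by decide +kernel) ⟨w4_435_503, w4_435_536, trivial⟩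

theorem v4_440 : VW (PX [470] [404,437,503]) := VW.of base nl_ok fl_ok .nil
  [(305, (.cons 338 371 .nil (.cons 371 338 .nil .nil))), (338, (.cons 305 371 .nil (.cons 371 305 .nil .nil))), (371, (.cons 305 338 .nil (.cons 338 305 .nil .nil)))]
  []
  (by decide +kernel) trivial

theorem w4_441_338 : S (PX [] [338,404,437]) := VW.play 371 (PX [371] [338,404,437]) (by decide +kernel) v4_363

theorem w4_441_371 : S (PX [] [371,404,437]) := VW.play 338 (PX [338] [371,404,437]) (by decide +kernel) v4_405

theorem w4_441_470 : S (PX [] [404,437,470]) := VW.play 371 (PX [371] [404,437,470]) (by decide +kernel) v4_435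

theorem w4_441_503 : S (PX [] [404,437,503]) := VW.play 470 (PX [470] [404,437,503]) (by decide +kernel) v4_440

theorem v4_441 : VW (PX [] [404,437]) := VW.of base nl_ok fl_ok .nil
  [(305, (.cons 338 371 .nil (.cons 371 338 (.cons 470 503 .nil (.cons 503 470 .nil .nil)) .nil))), (536, (.cons 470 503 (.cons 338 371 .nil (.cons 371 338 .nil .nil)) (.cons 503 470 .nil .nil)))]
  [([338], (PX [] [338,404,437])), ([371], (PX [] [371,404,437])), ([470], (PX [] [404,437,470])), ([503], (PX [] [404,437,503]))]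
  (by decide +kernel) ⟨w4_441_338, w4_441_371, w4_441_470, w4_441_503, trivial⟩

theorem v4_241 : VW (PX [373,533] [405,437,469,501]) := VW.of base nl_ok fl_ok .nil
  []
  []
  (by decide +kernel) trivial

theorem v4_242 : VW (PX [373,501] [405,437,469,533]) := VW.of base nl_ok fl_ok .nil
  []
  []
  (by decide +kernel) trivial

theorem w4_243_501 : S (PX [373] [405,437,469,501]) := VW.play 533 (PX [373,533] [405,437,469,501]) (by decide +kernel) v4_241

theorem w4_243_533 : S (PX [373] [405,437,469,533]) := VW.play 501 (PX [373,501] [405,437,469,533]) (by decide +kernel) v4_242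

theorem v4_243 : VW (PX [373] [405,437,469]) := VW.of base nl_ok fl_ok (.cons 501 533 .nil (.cons 533 501 .nil .nil))
  [(565, (.cons 501 533 .nil (.cons 533 501 .nil .nil))), (597, (.cons 501 533 .nil (.cons 533 501 .nil .nil))), (629, (.cons 501 533 .nil (.cons 533 501 .nil .nil)))]
  [([501], (PX [373] [405,437,469,501])), ([533], (PX [373] [405,437,469,533]))]
  (by decide +kernel) ⟨w4_243_501, w4_243_533, trivial⟩

theorem v4_248 : VW (PX [469] [405,437,501]) := VW.of base nl_ok fl_ok .nil
  [(309, (.cons 341 373 .nil (.cons 373 341 .nil .nil))), (341, (.cons 309 373 .nil (.cons 373 309 .nil .nil))), (373, (.cons 309 341 .nil (.cons 341 309 .nil .nil)))]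
  []
  (by decide +kernel) trivial

theorem w4_260_341 : S (PX [] [341,405,437]) := VW.play 373 (PX [373] [341,405,437]) (by decide +kernel) v4_92

theorem w4_260_373 : S (PX [] [373,405,437]) := VW.play 341 (PX [341] [373,405,437]) (by decide +kernel) v4_114

theorem w4_260_469 : S (PX [] [405,437,469]) := VW.play 373 (PX [373] [405,437,469]) (by decide +kernel) v4_243

theorem w4_260_501 : S (PX [] [405,437,501]) := VW.play 469 (PX [469] [405,437,501]) (by decide +kernel) v4_248

theorem v4_260 : VW (PX [] [405,437]) := VW.of base nl_ok fl_ok .nil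
  [(309, (.cons 341 373 .nil (.cons 373 341 (.cons 469 501 .nil (.cons 501 469 .nil .nil)) .nil))), (533, (.cons 469 501 (.cons 341 373 .nil (.cons 373 341 .nil .nil)) (.cons 501 469 .nil .nil)))]
  [([341], (PX [] [341,405,437])), ([373], (PX [] [373,405,437])), ([469], (PX [] [405,437,469])), ([501], (PX [] [405,437,501]))]
  (by decide +kernel) ⟨w4_260_341, w4_260_373, w4_260_469, w4_260_501, trivial⟩

theorem v4_442 : VW (PX [375,530] [406,437,468,499]) := VW.of base nl_ok fl_ok .nil
  []
  []
  (by decide +kernel) trivial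

theorem v4_443 : VW (PX [375,499] [406,437,468,530]) := VW.of base nl_ok fl_ok .nil
  []
  []
  (by decide +kernel) trivial

theorem w4_444_499 : S (PX [375] [406,437,468,499]) := VW.play 530 (PX [375,530] [406,437,468,499]) (by decide +kernel) v4_442

theorem w4_444_530 : S (PX [375] [406,437,468,530]) := VW.play 499 (PX [375,499] [406,437,468,530]) (by decide +kernel) v4_443

theorem v4_444 : VW (PX [375] [406,437,468]) := VW.of base nl_ok fl_ok (.cons 499 530 .nil (.cons 530 499 .nil .nil))
  [(561, (.cons 499 530 .nil (.cons 530 499 .nil .nil))), (592, (.cons 499 530 .nil (.cons 530 499 .nil .nil))), (623, (.cons 499 530 .nil (.cons 530 499 .nil .nil)))]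
  [([499], (PX [375] [406,437,468,499])), ([530], (PX [375] [406,437,468,530]))]
  (by decide +kernel) ⟨w4_444_499, w4_444_530, trivial⟩

theorem v4_449 : VW (PX [468] [406,437,499]) := VW.of base nl_ok fl_ok .nil
  [(313, (.cons 344 375 .nil (.cons 375 344 .nil .nil))), (344, (.cons 313 375 .nil (.cons 375 313 .nil .nil))), (375, (.cons 313 344 .nil (.cons 344 313 .nil .nil)))]
  []
  (by decide +kernel) trivial

theorem w4_450_344 : S (PX [] [344,406,437]) := VW.play 375 (PX [375] [344,406,437]) (by decide +kernel) v4_401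

theorem w4_450_375 : S (PX [] [375,406,437]) := VW.play 344 (PX [344] [375,406,437]) (by decide +kernel) v4_428

theorem w4_450_468 : S (PX [] [406,437,468]) := VW.play 375 (PX [375] [406,437,468]) (by decide +kernel) v4_444

theorem w4_450_499 : S (PX [] [406,437,499]) := VW.play 468 (PX [468] [406,437,499]) (by decide +kernel) v4_449

theorem v4_450 : VW (PX [] [406,437]) := VW.of base nl_ok fl_ok .nil
  [(313, (.cons 344 375 .nil (.cons 375 344 (.cons 468 499 .nil (.cons 499 468 .nil .nil)) .nil))), (530, (.cons 468 499 (.cons 344 375 .nil (.cons 375 344 .nil .nil)) (.cons 499 468 .nil .nil)))]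
  [([344], (PX [] [344,406,437])), ([375], (PX [] [375,406,437])), ([468], (PX [] [406,437,468])), ([499], (PX [] [406,437,499]))]
  (by decide +kernel) ⟨w4_450_344, w4_450_375, w4_450_468, w4_450_499, trivial⟩

theorem v4_451 : VW (PX [431,435] [430,433,434,437]) := VW.of base nl_ok fl_ok .nil
  []
  (([297], (PX [431,435] [297,430,433,434,437])) :: ([298], (PX [431,435] [298,430,433,434,437])) :: ([332], (PX [431,435] [332,430,433,434,437])) :: ([334], (PX [431,435] [334,430,433,434,437])) :: ([361], (PX [431,435] [361,430,433,434,437])) :: ([364], (PX [431,435] [364,430,433,434,437])) :: ([365], (PX [431,435] [365,430,433,434,437])) :: ([367], (PX [431,435] [367,430,433,434,437])) :: ([397], (PX [431,435] [397,430,433,434,437])) :: ([400], (PX [431,435] [400,430,433,434,437])) :: ([424], (PX [431,435] [424,430,433,434,437])) :: ([425], (PX [431,435] [425,430,433,434,437])) :: ([427], (PX [431,435] [427,430,433,434,437])) :: ([428], (PX [431,435] [428,430,433,434,437])) :: ([456], (PX [431,435] [430,433,434,437,456]))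 :: ([488], (PX [431,435] [430,433,434,437,488])) :: [])
  (by decide +kernel) ⟨b4_68, b4_69, b4_70, b4_71, b4_72, b4_73, b4_74, b4_75, b4_76, b4_77, b4_78, b4_79, b4_80, b4_81, b4_82, b4_83, trivial⟩

theorem v4_453 : VW (PX [430,435] [431,433,434,437]) := VW.of base nl_ok fl_ok .nil
  []
  [([332], (PX [430,435] [332,431,433,434,437])), ([365], (PX [430,435] [365,431,433,434,437])), ([367], (PX [430,435] [367,431,433,434,437])), ([397], (PX [430,435] [397,431,433,434,437])), ([398], (PX [430,435] [398,431,433,434,437])), ([400], (PX [430,435] [400,431,433,434,437])), ([424], (PX [430,435] [424,431,433,434,437])), ([427], (PX [430,435] [427,431,433,434,437])), ([428], (PX [430,435] [428,431,433,434,437]))]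
  (by decide +kernel) ⟨b4_100, b4_101, b4_102, b4_103, b4_104, b4_105, b4_106, b4_107, b4_108, trivial⟩

theorem v4_454 : VW (PX [430,435] [432,433,434,437]) := VW.of base nl_ok fl_ok .nil
  []
  [([428], (PX [430,435] [428,432,433,434,437]))]
  (by decide +kernel) ⟨b4_112, trivial⟩

theorem w4_456_430 : S (PX [435] [430,433,434,437]) := VW.play 431 (PX [431,435] [430,433,434,437]) (by decide +kernel) v4_451

theorem w4_456_431 : S (PX [435] [431,433,434,437]) := VW.play 430 (PX [430,435] [431,433,434,437]) (by decide +kernel) v4_453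

theorem w4_456_432 : S (PX [435] [432,433,434,437]) := VW.play 430 (PX [430,435] [432,433,434,437]) (by decide +kernel) v4_454

theorem v4_456 : VW (PX [435] [433,434,437]) := VW.of base nl_ok fl_ok .nil
  []
  [([430], (PX [435] [430,433,434,437])), ([431], (PX [435] [431,433,434,437])), ([432], (PX [435] [432,433,434,437]))]
  (by decide +kernel) ⟨w4_456_430, w4_456_431, w4_456_432, trivial⟩

theorem v4_459 : VW (PX [434] [433,435,437]) := VW.of base nl_ok fl_ok .nil
  [(436, (.cons 438 439 .nil (.cons 439 438 .nil .nil))), (438, (.cons 436 439 .nil (.cons 439 436 (.cons 440 441 .nil (.cons 441 440 .nil .nil)) .nil))), (439, (.cons 436 438 .nil (.cons 438 436 (.cons 440 441 .nil (.cons 441 440 .nil .nil)) .nil)))]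
  []
  (by decide +kernel) trivial

theorem w4_460_434 : S (PX [] [433,434,437]) := VW.play 435 (PX [435] [433,434,437]) (by decide +kernel) v4_456

theorem w4_460_435 : S (PX [] [433,435,437]) := VW.play 434 (PX [434] [433,435,437]) (by decide +kernel) v4_459

theorem v4_460 : VW (PX [] [433,437]) := VW.of base nl_ok fl_ok .nil
  [(436, (.cons 434 435 .nil (.cons 435 434 (.cons 438 439 .nil (.cons 439 438 .nil .nil)) .nil)))]
  [([434], (PX [] [433,434,437])), ([435], (PX [] [433,435,437]))]
  (by decide +kernel) ⟨w4_460_434, w4_460_435, trivial⟩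

theorem v4_461 : VW (PX [433,438] [434,435,436,437]) := VW.of base nl_ok fl_ok .nil
  []
  []
  (by decide +kernel) trivial

theorem v4_462 : VW (PX [433,436] [434,435,437,438]) := VW.of base nl_ok fl_ok .nil
  [(439, (.cons 440 441 .nil (.cons 441 440 .nil .nil))), (440, (.cons 439 441 .nil (.cons 441 439 .nil .nil))), (441, (.cons 439 440 .nil (.cons 440 439 .nil .nil)))]
  []
  (by decide +kernel) trivial

theorem w4_463_436 : S (PX [433] [434,435,436,437]) := VW.play 438 (PX [433,438] [434,435,436,437]) (by decide +kernel) v4_461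

theorem w4_463_438 : S (PX [433] [434,435,437,438]) := VW.play 436 (PX [433,436] [434,435,437,438]) (by decide +kernel) v4_462

theorem v4_463 : VW (PX [433] [434,435,437]) := VW.of base nl_ok fl_ok (.cons 436 438 .nil (.cons 438 436 .nil .nil))
  [(439, (.cons 436 438 .nil (.cons 438 436 (.cons 440 441 .nil (.cons 441 440 .nil .nil)) .nil))), (440, (.cons 436 438 .nil (.cons 438 436 (.cons 439 441 .nil (.cons 441 439 .nil .nil)) .nil))), (441, (.cons 436 438 .nil (.cons 438 436 (.cons 439 440 .nil (.cons 440 439 .nil .nil)) .nil)))]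
  [([436], (PX [433] [434,435,436,437])), ([438], (PX [433] [434,435,437,438]))]
  (by decide +kernel) ⟨w4_463_436, w4_463_438, trivial⟩

theorem v4_484 : VW (PX [435] [434,436,437]) := VW.of base nl_ok fl_ok .nil
  [(438, (.cons 439 440 .nil (.cons 440 439 .nil .nil))), (439, (.cons 438 440 .nil (.cons 440 438 .nil .nil))), (440, (.cons 438 439 .nil (.cons 439 438 .nil .nil)))]
  []
  (by decide +kernel) trivial

theorem w4_485_433 : S (PX [] [433,434,437]) := VW.play 435 (PX [435] [433,434,437]) (by decide +kernel) v4_456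

theorem w4_485_435 : S (PX [] [434,435,437]) := VW.play 433 (PX [433] [434,435,437]) (by decide +kernel) v4_463

theorem w4_485_436 : S (PX [] [434,436,437]) := VW.play 435 (PX [435] [434,436,437]) (by decide +kernel) v4_484

theorem v4_485 : VW (PX [] [434,437]) := VW.of base nl_ok fl_ok .nil
  [(438, (.cons 435 436 .nil (.cons 436 435 (.cons 439 440 .nil (.cons 440 439 .nil .nil)) .nil)))]
  [([433], (PX [] [433,434,437])), ([435], (PX [] [434,435,437])), ([436], (PX [] [434,436,437]))]
  (by decide +kernel) ⟨w4_485_433, w4_485_435, w4_485_436, trivial⟩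

theorem v4_486 : VW (PX [434,439] [435,436,437,438]) := VW.of base nl_ok fl_ok .nil
  []
  []
  (by decide +kernel) trivial

theorem v4_487 : VW (PX [434,438] [435,436,437,439]) := VW.of base nl_ok fl_ok .nil
  []
  []
  (by decide +kernel) trivial

theorem w4_488_438 : S (PX [434] [435,436,437,438]) := VW.play 439 (PX [434,439] [435,436,437,438]) (by decide +kernel) v4_486

theorem w4_488_439 : S (PX [434] [435,436,437,439]) := VW.play 438 (PX [434,438] [435,436,437,439]) (by decide +kernel) v4_487

theorem v4_488 : VW (PX [434] [435,436,437]) := VW.of base nl_ok fl_ok (.cons 438 439 .nil (.cons 439 438 .nil .nil))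
  [(440, (.cons 438 439 .nil (.cons 439 438 .nil .nil))), (441, (.cons 438 439 .nil (.cons 439 438 .nil .nil))), (442, (.cons 438 439 .nil (.cons 439 438 .nil .nil)))]
  [([438], (PX [434] [435,436,437,438])), ([439], (PX [434] [435,436,437,439]))]
  (by decide +kernel) ⟨w4_488_438, w4_488_439, trivial⟩

theorem v4_489 : VW (PX [436] [435,437,438]) := VW.of base nl_ok fl_ok .nil
  [(439, (.cons 440 441 .nil (.cons 441 440 .nil .nil))), (440, (.cons 439 441 .nil (.cons 441 439 .nil .nil))), (441, (.cons 439 440 .nil (.cons 440 439 .nil .nil)))]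
  []
  (by decide +kernel) trivial

theorem w4_490_433 : S (PX [] [433,435,437]) := VW.play 434 (PX [434] [433,435,437]) (by decide +kernel) v4_459

theorem w4_490_434 : S (PX [] [434,435,437]) := VW.play 433 (PX [433] [434,435,437]) (by decide +kernel) v4_463

theorem w4_490_436 : S (PX [] [435,436,437]) := VW.play 434 (PX [434] [435,436,437]) (by decide +kernel) v4_488

theorem w4_490_438 : S (PX [] [435,437,438]) := VW.play 436 (PX [436] [435,437,438]) (by decide +kernel) v4_489

theorem v4_490 : VW (PX [] [435,437]) := VW.of base nl_ok fl_ok .nil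
  [(439, (.cons 436 438 (.cons 433 434 .nil (.cons 434 433 .nil .nil)) (.cons 438 436 (.cons 440 441 .nil (.cons 441 440 .nil .nil)) .nil)))]
  [([433], (PX [] [433,435,437])), ([434], (PX [] [434,435,437])), ([436], (PX [] [435,436,437])), ([438], (PX [] [435,437,438]))]
  (by decide +kernel) ⟨w4_490_433, w4_490_434, w4_490_436, w4_490_438, trivial⟩

theorem v4_491 : VW (PX [435,440] [436,437,438,439]) := VW.of base nl_ok fl_ok .nil
  []
  []
  (by decide +kernel) trivial

theorem v4_492 : VW (PX [435,439] [436,437,438,440]) := VW.of base nl_ok fl_ok .nil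
  []
  []
  (by decide +kernel) trivial

theorem w4_493_439 : S (PX [435] [436,437,438,439]) := VW.play 440 (PX [435,440] [436,437,438,439]) (by decide +kernel) v4_491

theorem w4_493_440 : S (PX [435] [436,437,438,440]) := VW.play 439 (PX [435,439] [436,437,438,440]) (by decide +kernel) v4_492

theorem v4_493 : VW (PX [435] [436,437,438]) := VW.of base nl_ok fl_ok (.cons 439 440 .nil (.cons 440 439 .nil .nil))
  [(441, (.cons 439 440 .nil (.cons 440 439 .nil .nil))), (442, (.cons 439 440 .nil (.cons 440 439 .nil .nil))), (443, (.cons 439 440 .nil (.cons 440 439 .nil .nil)))]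
  [([439], (PX [435] [436,437,438,439])), ([440], (PX [435] [436,437,438,440]))]
  (by decide +kernel) ⟨w4_493_439, w4_493_440, trivial⟩

theorem v4_498 : VW (PX [438] [436,437,439]) := VW.of base nl_ok fl_ok .nil
  [(433, (.cons 434 435 .nil (.cons 435 434 .nil .nil))), (434, (.cons 433 435 .nil (.cons 435 433 .nil .nil))), (435, (.cons 433 434 .nil (.cons 434 433 .nil .nil)))]
  []
  (by decide +kernel) trivial

theorem w4_499_434 : S (PX [] [434,436,437]) := VW.play 435 (PX [435] [434,436,437]) (by decide +kernel) v4_484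

theorem w4_499_435 : S (PX [] [435,436,437]) := VW.play 434 (PX [434] [435,436,437]) (by decide +kernel) v4_488

theorem w4_499_438 : S (PX [] [436,437,438]) := VW.play 435 (PX [435] [436,437,438]) (by decide +kernel) v4_493

theorem w4_499_439 : S (PX [] [436,437,439]) := VW.play 438 (PX [438] [436,437,439]) (by decide +kernel) v4_498

theorem v4_499 : VW (PX [] [436,437]) := VW.of base nl_ok fl_ok .nil
  [(433, (.cons 434 435 .nil (.cons 435 434 (.cons 438 439 .nil (.cons 439 438 .nil .nil)) .nil))), (440, (.cons 438 439 (.cons 434 435 .nil (.cons 435 434 .nil .nil)) (.cons 439 438 .nil .nil)))]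
  [([434], (PX [] [434,436,437])), ([435], (PX [] [435,436,437])), ([438], (PX [] [436,437,438])), ([439], (PX [] [436,437,439]))]
  (by decide +kernel) ⟨w4_499_434, w4_499_435, w4_499_438, w4_499_439, trivial⟩

theorem v4_500 : VW (PX [436,440] [435,437,438,439]) := VW.of base nl_ok fl_ok .nil
  []
  []
  (by decide +kernel) trivial

theorem w4_501_435 : S (PX [440] [435,437,438,439]) := VW.play 436 (PX [436,440] [435,437,438,439]) (by decide +kernel) v4_500

theorem w4_501_436 : S (PX [440] [436,437,438,439]) := VW.play 435 (PX [435,440] [436,437,438,439]) (by decide +kernel) v4_491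

theorem v4_501 : VW (PX [440] [437,438,439]) := VW.of base nl_ok fl_ok (.cons 435 436 .nil (.cons 436 435 .nil .nil))
  [(432, (.cons 435 436 .nil (.cons 436 435 .nil .nil))), (433, (.cons 435 436 .nil (.cons 436 435 .nil .nil))), (434, (.cons 435 436 .nil (.cons 436 435 .nil .nil)))]
  [([435], (PX [440] [435,437,438,439])), ([436], (PX [440] [436,437,438,439]))]
  (by decide +kernel) ⟨w4_501_435, w4_501_436, trivial⟩

theorem v4_502 : VW (PX [439] [437,438,440]) := VW.of base nl_ok fl_ok .nil
  [(434, (.cons 435 436 .nil (.cons 436 435 .nil .nil))), (435, (.cons 434 436 .nil (.cons 436 434 .nil .nil))), (436, (.cons 434 435 .nil (.cons 435 434 .nil .nil)))]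
  []
  (by decide +kernel) trivial

theorem w4_516_435 : S (PX [] [435,437,438]) := VW.play 436 (PX [436] [435,437,438]) (by decide +kernel) v4_489

theorem w4_516_436 : S (PX [] [436,437,438]) := VW.play 435 (PX [435] [436,437,438]) (by decide +kernel) v4_493

theorem w4_516_439 : S (PX [] [437,438,439]) := VW.play 440 (PX [440] [437,438,439]) (by decide +kernel) v4_501

theorem w4_516_440 : S (PX [] [437,438,440]) := VW.play 439 (PX [439] [437,438,440]) (by decide +kernel) v4_502

theorem v4_516 : VW (PX [] [437,438]) := VW.of base nl_ok fl_ok .nil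
  [(434, (.cons 435 436 .nil (.cons 436 435 (.cons 439 440 .nil (.cons 440 439 .nil .nil)) .nil))), (441, (.cons 439 440 (.cons 435 436 .nil (.cons 436 435 .nil .nil)) (.cons 440 439 .nil .nil)))]
  [([435], (PX [] [435,437,438])), ([436], (PX [] [436,437,438])), ([439], (PX [] [437,438,439])), ([440], (PX [] [437,438,440]))]
  (by decide +kernel) ⟨w4_516_435, w4_516_436, w4_516_439, w4_516_440, trivial⟩

theorem v4_517 : VW (PX [438] [437,439,440]) := VW.of base nl_ok fl_ok .nil
  [(441, (.cons 442 443 .nil (.cons 443 442 .nil .nil))), (442, (.cons 441 443 .nil (.cons 443 441 .nil .nil))), (443, (.cons 441 442 .nil (.cons 442 441 .nil .nil)))]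
  []
  (by decide +kernel) trivial

theorem w4_520_436 : S (PX [] [436,437,439]) := VW.play 438 (PX [438] [436,437,439]) (by decide +kernel) v4_498

theorem w4_520_438 : S (PX [] [437,438,439]) := VW.play 440 (PX [440] [437,438,439]) (by decide +kernel) v4_501

theorem w4_520_440 : S (PX [] [437,439,440]) := VW.play 438 (PX [438] [437,439,440]) (by decide +kernel) v4_517

theorem v4_520 : VW (PX [] [437,439]) := VW.of base nl_ok fl_ok .nil
  [(435, (.cons 436 438 (.cons 433 434 .nil (.cons 434 433 .nil .nil)) (.cons 438 436 (.cons 440 441 .nil (.cons 441 440 .nil .nil)) .nil))), (441, (.cons 438 440 (.cons 435 436 .nil (.cons 436 435 .nil .nil)) (.cons 440 438 (.cons 442 443 .nil (.cons 443 442 .nil .nil)) .nil)))]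
  [([436], (PX [] [436,437,439])), ([438], (PX [] [437,438,439])), ([440], (PX [] [437,439,440]))]
  (by decide +kernel) ⟨w4_520_436, w4_520_438, w4_520_440, trivial⟩

theorem w4_521_438 : S (PX [] [437,438,440]) := VW.play 439 (PX [439] [437,438,440]) (by decide +kernel) v4_502

theorem w4_521_439 : S (PX [] [437,439,440]) := VW.play 438 (PX [438] [437,439,440]) (by decide +kernel) v4_517

theorem v4_521 : VW (PX [] [437,440]) := VW.of base nl_ok fl_ok .nil
  [(436, (.cons 438 439 (.cons 434 435 .nil (.cons 435 434 .nil .nil)) (.cons 439 438 .nil .nil))), (441, (.cons 438 439 .nil (.cons 439 438 (.cons 442 443 .nil (.cons 443 442 .nil .nil)) .nil)))]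
  [([438], (PX [] [437,438,440])), ([439], (PX [] [437,439,440]))]
  (by decide +kernel) ⟨w4_521_438, w4_521_439, trivial⟩

theorem v4_522 : VW (PX [] [437,441]) := VW.of base nl_ok fl_ok .nil
  [(438, (.cons 439 440 (.cons 435 436 .nil (.cons 436 435 .nil .nil)) (.cons 440 439 .nil .nil))), (439, (.cons 438 440 (.cons 435 436 .nil (.cons 436 435 .nil .nil)) (.cons 440 438 (.cons 442 443 .nil (.cons 443 442 .nil .nil)) .nil))), (440, (.cons 438 439 .nil (.cons 439 438 (.cons 442 443 .nil (.cons 443 442 .nil .nil)) .nil)))]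
  []
  (by decide +kernel) trivial

theorem v4_523 : VW (PX [406,530] [375,437,468,499]) := VW.of base nl_ok fl_ok .nil
  []
  []
  (by decide +kernel) trivial

theorem w4_524_375 : S (PX [530] [375,437,468,499]) := VW.play 406 (PX [406,530] [375,437,468,499]) (by decide +kernel) v4_523

theorem w4_524_406 : S (PX [530] [406,437,468,499]) := VW.play 375 (PX [375,530] [406,437,468,499]) (by decide +kernel) v4_442

theorem v4_524 : VW (PX [530] [437,468,499]) := VW.of base nl_ok fl_ok (.cons 375 406 .nil (.cons 406 375 .nil .nil))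
  [(282, (.cons 375 406 .nil (.cons 406 375 .nil .nil))), (313, (.cons 375 406 .nil (.cons 406 375 .nil .nil))), (344, (.cons 375 406 .nil (.cons 406 375 .nil .nil)))]
  [([375], (PX [530] [375,437,468,499])), ([406], (PX [530] [406,437,468,499]))]
  (by decide +kernel) ⟨w4_524_375, w4_524_406, trivial⟩

theorem v4_525 : VW (PX [499] [437,468,530]) := VW.of base nl_ok fl_ok .nil
  [(344, (.cons 375 406 .nil (.cons 406 375 .nil .nil))), (375, (.cons 344 406 .nil (.cons 406 344 .nil .nil))), (406, (.cons 344 375 .nil (.cons 375 344 .nil .nil)))]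
  []
  (by decide +kernel) trivial

theorem w4_541_375 : S (PX [] [375,437,468]) := VW.play 406 (PX [406] [375,437,468]) (by decide +kernel) v4_429

theorem w4_541_406 : S (PX [] [406,437,468]) := VW.play 375 (PX [375] [406,437,468]) (by decide +kernel) v4_444

theorem w4_541_499 : S (PX [] [437,468,499]) := VW.play 530 (PX [530] [437,468,499]) (by decide +kernel) v4_524

theorem w4_541_530 : S (PX [] [437,468,530]) := VW.play 499 (PX [499] [437,468,530]) (by decide +kernel) v4_525

theorem v4_541 : VW (PX [] [437,468]) := VW.of base nl_ok fl_ok .nil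
  [(344, (.cons 375 406 .nil (.cons 406 375 (.cons 499 530 .nil (.cons 530 499 .nil .nil)) .nil))), (561, (.cons 499 530 (.cons 375 406 .nil (.cons 406 375 .nil .nil)) (.cons 530 499 .nil .nil)))]
  [([375], (PX [] [375,437,468])), ([406], (PX [] [406,437,468])), ([499], (PX [] [437,468,499])), ([530], (PX [] [437,468,530]))]
  (by decide +kernel) ⟨w4_541_375, w4_541_406, w4_541_499, w4_541_530, trivial⟩

theorem v4_542 : VW (PX [405,565] [437,469,501,533]) := VW.of base nl_ok fl_ok .nil
  []
  []
  (by decide +kernel) trivial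

theorem v4_543 : VW (PX [405,533] [437,469,501,565]) := VW.of base nl_ok fl_ok .nil
  []
  []
  (by decide +kernel) trivial

theorem w4_544_533 : S (PX [405] [437,469,501,533]) := VW.play 565 (PX [405,565] [437,469,501,533]) (by decide +kernel) v4_542

theorem w4_544_565 : S (PX [405] [437,469,501,565]) := VW.play 533 (PX [405,533] [437,469,501,565]) (by decide +kernel) v4_543

theorem v4_544 : VW (PX [405] [437,469,501]) := VW.of base nl_ok fl_ok (.cons 533 565 .nil (.cons 565 533 .nil .nil))
  [(597, (.cons 533 565 .nil (.cons 565 533 .nil .nil))), (629, (.cons 533 565 .nil (.cons 565 533 .nil .nil))), (661, (.cons 533 565 .nil (.cons 565 533 .nil .nil)))]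
  [([533], (PX [405] [437,469,501,533])), ([565], (PX [405] [437,469,501,565]))]
  (by decide +kernel) ⟨w4_544_533, w4_544_565, trivial⟩

theorem v4_549 : VW (PX [501] [437,469,533]) := VW.of base nl_ok fl_ok .nil
  [(341, (.cons 373 405 .nil (.cons 405 373 .nil .nil))), (373, (.cons 341 405 .nil (.cons 405 341 .nil .nil))), (405, (.cons 341 373 .nil (.cons 373 341 .nil .nil)))]
  []
  (by decide +kernel) trivial

theorem w4_561_373 : S (PX [] [373,437,469]) := VW.play 405 (PX [405] [373,437,469]) (by decide +kernel) v4_422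

theorem w4_561_405 : S (PX [] [405,437,469]) := VW.play 373 (PX [373] [405,437,469]) (by decide +kernel) v4_243

theorem w4_561_501 : S (PX [] [437,469,501]) := VW.play 405 (PX [405] [437,469,501]) (by decide +kernel) v4_544

theorem w4_561_533 : S (PX [] [437,469,533]) := VW.play 501 (PX [501] [437,469,533]) (by decide +kernel) v4_549

theorem v4_561 : VW (PX [] [437,469]) := VW.of base nl_ok fl_ok .nil
  [(341, (.cons 373 405 .nil (.cons 405 373 (.cons 501 533 .nil (.cons 533 501 .nil .nil)) .nil))), (565, (.cons 501 533 (.cons 373 405 .nil (.cons 405 373 .nil .nil)) (.cons 533 501 .nil .nil)))]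
  [([373], (PX [] [373,437,469])), ([405], (PX [] [405,437,469])), ([501], (PX [] [437,469,501])), ([533], (PX [] [437,469,533]))]
  (by decide +kernel) ⟨w4_561_373, w4_561_405, w4_561_501, w4_561_533, trivial⟩

theorem v4_562 : VW (PX [404,536] [371,437,470,503]) := VW.of base nl_ok fl_ok .nil
  []
  []
  (by decide +kernel) trivial

theorem w4_563_371 : S (PX [536] [371,437,470,503]) := VW.play 404 (PX [404,536] [371,437,470,503]) (by decide +kernel) v4_562

theorem w4_563_404 : S (PX [536] [404,437,470,503]) := VW.play 371 (PX [371,536] [404,437,470,503]) (by decide +kernel) v4_433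

theorem v4_563 : VW (PX [536] [437,470,503]) := VW.of base nl_ok fl_ok (.cons 371 404 .nil (.cons 404 371 .nil .nil))
  [(272, (.cons 371 404 .nil (.cons 404 371 .nil .nil))), (305, (.cons 371 404 .nil (.cons 404 371 .nil .nil))), (338, (.cons 371 404 .nil (.cons 404 371 .nil .nil)))]
  [([371], (PX [536] [371,437,470,503])), ([404], (PX [536] [404,437,470,503]))]
  (by decide +kernel) ⟨w4_563_371, w4_563_404, trivial⟩

theorem v4_564 : VW (PX [503] [437,470,536]) := VW.of base nl_ok fl_ok .nil
  [(338, (.cons 371 404 .nil (.cons 404 371 .nil .nil))), (371, (.cons 338 404 .nil (.cons 404 338 .nil .nil))), (404, (.cons 338 371 .nil (.cons 371 338 .nil .nil)))]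
  []
  (by decide +kernel) trivial

theorem w4_578_371 : S (PX [] [371,437,470]) := VW.play 404 (PX [404] [371,437,470]) (by decide +kernel) v4_406

theorem w4_578_404 : S (PX [] [404,437,470]) := VW.play 371 (PX [371] [404,437,470]) (by decide +kernel) v4_435

theorem w4_578_503 : S (PX [] [437,470,503]) := VW.play 536 (PX [536] [437,470,503]) (by decide +kernel) v4_563

theorem w4_578_536 : S (PX [] [437,470,536]) := VW.play 503 (PX [503] [437,470,536]) (by decide +kernel) v4_564

theorem v4_578 : VW (PX [] [437,470]) := VW.of base nl_ok fl_ok .nil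
  [(338, (.cons 371 404 .nil (.cons 404 371 (.cons 503 536 .nil (.cons 536 503 .nil .nil)) .nil))), (569, (.cons 503 536 (.cons 371 404 .nil (.cons 404 371 .nil .nil)) (.cons 536 503 .nil .nil)))]
  [([371], (PX [] [371,437,470])), ([404], (PX [] [404,437,470])), ([503], (PX [] [437,470,503])), ([536], (PX [] [437,470,536]))]
  (by decide +kernel) ⟨w4_578_371, w4_578_404, w4_578_503, w4_578_536, trivial⟩

theorem v4_579 : VW (PX [468] [437,499,530]) := VW.of base nl_ok fl_ok .nil
  [(561, (.cons 592 623 .nil (.cons 623 592 .nil .nil))), (592, (.cons 561 623 .nil (.cons 623 561 .nil .nil))), (623, (.cons 561 592 .nil (.cons 592 561 .nil .nil)))]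
  []
  (by decide +kernel) trivial

theorem w4_582_406 : S (PX [] [406,437,499]) := VW.play 468 (PX [468] [406,437,499]) (by decide +kernel) v4_449

theorem w4_582_468 : S (PX [] [437,468,499]) := VW.play 530 (PX [530] [437,468,499]) (by decide +kernel) v4_524

theorem w4_582_530 : S (PX [] [437,499,530]) := VW.play 468 (PX [468] [437,499,530]) (by decide +kernel) v4_579

theorem v4_582 : VW (PX [] [437,499]) := VW.of base nl_ok fl_ok .nil
  [(375, (.cons 406 468 (.cons 313 344 .nil (.cons 344 313 .nil .nil)) (.cons 468 406 (.cons 530 561 .nil (.cons 561 530 .nil .nil)) .nil))), (561, (.cons 468 530 (.cons 375 406 .nil (.cons 406 375 .nil .nil)) (.cons 530 468 (.cons 592 623 .nil (.cons 623 592 .nil .nil)) .nil)))]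
  [([406], (PX [] [406,437,499])), ([468], (PX [] [437,468,499])), ([530], (PX [] [437,499,530]))]
  (by decide +kernel) ⟨w4_582_406, w4_582_468, w4_582_530, trivial⟩

theorem v4_597 : VW (PX [469] [437,501,533]) := VW.of base nl_ok fl_ok .nil
  [(565, (.cons 597 629 .nil (.cons 629 597 .nil .nil))), (597, (.cons 565 629 .nil (.cons 629 565 .nil .nil))), (629, (.cons 565 597 .nil (.cons 597 565 .nil .nil)))]
  []
  (by decide +kernel) trivial

theorem w4_600_405 : S (PX [] [405,437,501]) := VW.play 469 (PX [469] [405,437,501]) (by decide +kernel) v4_248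

theorem w4_600_469 : S (PX [] [437,469,501]) := VW.play 405 (PX [405] [437,469,501]) (by decide +kernel) v4_544

theorem w4_600_533 : S (PX [] [437,501,533]) := VW.play 469 (PX [469] [437,501,533]) (by decide +kernel) v4_597

theorem v4_600 : VW (PX [] [437,501]) := VW.of base nl_ok fl_ok .nil
  [(373, (.cons 405 469 (.cons 309 341 .nil (.cons 341 309 .nil .nil)) (.cons 469 405 (.cons 533 565 .nil (.cons 565 533 .nil .nil)) .nil))), (565, (.cons 469 533 (.cons 373 405 .nil (.cons 405 373 .nil .nil)) (.cons 533 469 (.cons 597 629 .nil (.cons 629 597 .nil .nil)) .nil)))]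
  [([405], (PX [] [405,437,501])), ([469], (PX [] [437,469,501])), ([533], (PX [] [437,501,533]))]
  (by decide +kernel) ⟨w4_600_405, w4_600_469, w4_600_533, trivial⟩

theorem v4_601 : VW (PX [470] [437,503,536]) := VW.of base nl_ok fl_ok .nil
  [(569, (.cons 602 635 .nil (.cons 635 602 .nil .nil))), (602, (.cons 569 635 .nil (.cons 635 569 .nil .nil))), (635, (.cons 569 602 .nil (.cons 602 569 .nil .nil)))]
  []
  (by decide +kernel) trivial

theorem w4_604_404 : S (PX [] [404,437,503]) := VW.play 470 (PX [470] [404,437,503]) (by decide +kernel) v4_440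

theorem w4_604_470 : S (PX [] [437,470,503]) := VW.play 536 (PX [536] [437,470,503]) (by decide +kernel) v4_563

theorem w4_604_536 : S (PX [] [437,503,536]) := VW.play 470 (PX [470] [437,503,536]) (by decide +kernel) v4_601

theorem v4_604 : VW (PX [] [437,503]) := VW.of base nl_ok fl_ok .nil
  [(371, (.cons 404 470 (.cons 305 338 .nil (.cons 338 305 .nil .nil)) (.cons 470 404 (.cons 536 569 .nil (.cons 569 536 .nil .nil)) .nil))), (569, (.cons 470 536 (.cons 371 404 .nil (.cons 404 371 .nil .nil)) (.cons 536 470 (.cons 602 635 .nil (.cons 635 602 .nil .nil)) .nil)))]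
  [([404], (PX [] [404,437,503])), ([470], (PX [] [437,470,503])), ([536], (PX [] [437,503,536]))]
  (by decide +kernel) ⟨w4_604_404, w4_604_470, w4_604_536, trivial⟩

theorem w4_605_468 : S (PX [] [437,468,530]) := VW.play 499 (PX [499] [437,468,530]) (by decide +kernel) v4_525

theorem w4_605_499 : S (PX [] [437,499,530]) := VW.play 468 (PX [468] [437,499,530]) (by decide +kernel) v4_579

theorem v4_605 : VW (PX [] [437,530]) := VW.of base nl_ok fl_ok .nil
  [(406, (.cons 468 499 (.cons 344 375 .nil (.cons 375 344 .nil .nil)) (.cons 499 468 .nil .nil))), (561, (.cons 468 499 .nil (.cons 499 468 (.cons 592 623 .nil (.cons 623 592 .nil .nil)) .nil)))]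
  [([468], (PX [] [437,468,530])), ([499], (PX [] [437,499,530]))]
  (by decide +kernel) ⟨w4_605_468, w4_605_499, trivial⟩

theorem w4_606_469 : S (PX [] [437,469,533]) := VW.play 501 (PX [501] [437,469,533]) (by decide +kernel) v4_549

theorem w4_606_501 : S (PX [] [437,501,533]) := VW.play 469 (PX [469] [437,501,533]) (by decide +kernel) v4_597

theorem v4_606 : VW (PX [] [437,533]) := VW.of base nl_ok fl_ok .nil
  [(405, (.cons 469 501 (.cons 341 373 .nil (.cons 373 341 .nil .nil)) (.cons 501 469 .nil .nil))), (565, (.cons 469 501 .nil (.cons 501 469 (.cons 597 629 .nil (.cons 629 597 .nil .nil)) .nil)))]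
  [([469], (PX [] [437,469,533])), ([501], (PX [] [437,501,533]))]
  (by decide +kernel) ⟨w4_606_469, w4_606_501, trivial⟩

theorem w4_607_470 : S (PX [] [437,470,536]) := VW.play 503 (PX [503] [437,470,536]) (by decide +kernel) v4_564

theorem w4_607_503 : S (PX [] [437,503,536]) := VW.play 470 (PX [470] [437,503,536]) (by decide +kernel) v4_601

theorem v4_607 : VW (PX [] [437,536]) := VW.of base nl_ok fl_ok .nil
  [(404, (.cons 470 503 (.cons 338 371 .nil (.cons 371 338 .nil .nil)) (.cons 503 470 .nil .nil))), (569, (.cons 470 503 .nil (.cons 503 470 (.cons 602 635 .nil (.cons 635 602 .nil .nil)) .nil)))]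
  [([470], (PX [] [437,470,536])), ([503], (PX [] [437,503,536]))]
  (by decide +kernel) ⟨w4_607_470, w4_607_503, trivial⟩

theorem v4_608 : VW (PX [] [437,561]) := VW.of base nl_ok fl_ok .nil
  [(468, (.cons 499 530 (.cons 375 406 .nil (.cons 406 375 .nil .nil)) (.cons 530 499 .nil .nil))), (499, (.cons 468 530 (.cons 375 406 .nil (.cons 406 375 .nil .nil)) (.cons 530 468 (.cons 592 623 .nil (.cons 623 592 .nil .nil)) .nil))), (530, (.cons 468 499 .nil (.cons 499 468 (.cons 592 623 .nil (.cons 623 592 .nil .nil)) .nil)))]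
  []
  (by decide +kernel) trivial

theorem v4_609 : VW (PX [] [437,565]) := VW.of base nl_ok fl_ok .nil
  [(469, (.cons 501 533 (.cons 373 405 .nil (.cons 405 373 .nil .nil)) (.cons 533 501 .nil .nil))), (501, (.cons 469 533 (.cons 373 405 .nil (.cons 405 373 .nil .nil)) (.cons 533 469 (.cons 597 629 .nil (.cons 629 597 .nil .nil)) .nil))), (533, (.cons 469 501 .nil (.cons 501 469 (.cons 597 629 .nil (.cons 629 597 .nil .nil)) .nil)))]
  []
  (by decide +kernel) trivial

theorem v4_610 : VW (PX [] [437,569]) := VW.of base nl_ok fl_ok .nil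
  [(470, (.cons 503 536 (.cons 371 404 .nil (.cons 404 371 .nil .nil)) (.cons 536 503 .nil .nil))), (503, (.cons 470 536 (.cons 371 404 .nil (.cons 404 371 .nil .nil)) (.cons 536 470 (.cons 602 635 .nil (.cons 635 602 .nil .nil)) .nil))), (536, (.cons 470 503 .nil (.cons 503 470 (.cons 602 635 .nil (.cons 635 602 .nil .nil)) .nil)))]
  []
  (by decide +kernel) trivial

theorem r305 : S (Nat.lor X2 (bits [437, 305])) := VW.play 394 (PX [] [305,437]) (by decide +kernel) v4_338

theorem r309 : S (Nat.lor X2 (bits [437, 309])) := VW.play 394 (PX [] [309,437]) (by decide +kernel) v4_339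

theorem r313 : S (Nat.lor X2 (bits [437, 313])) := VW.play 394 (PX [] [313,437]) (by decide +kernel) v4_340

theorem r338 : S (Nat.lor X2 (bits [437, 338])) := VW.play 394 (PX [] [338,437]) (by decide +kernel) v4_364

theorem r341 : S (Nat.lor X2 (bits [437, 341])) := VW.play 394 (PX [] [341,437]) (by decide +kernel) v4_382

theorem r344 : S (Nat.lor X2 (bits [437, 344])) := VW.play 394 (PX [] [344,437]) (by decide +kernel) v4_402

theorem r371 : S (Nat.lor X2 (bits [437, 371])) := VW.play 394 (PX [] [371,437]) (by decide +kernel) v4_407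

theorem r373 : S (Nat.lor X2 (bits [437, 373])) := VW.play 394 (PX [] [373,437]) (by decide +kernel) v4_425

theorem r375 : S (Nat.lor X2 (bits [437, 375])) := VW.play 394 (PX [] [375,437]) (by decide +kernel) v4_432

theorem r404 : S (Nat.lor X2 (bits [437, 404])) := VW.play 394 (PX [] [404,437]) (by decide +kernel) v4_441

theorem r405 : S (Nat.lor X2 (bits [437, 405])) := VW.play 394 (PX [] [405,437]) (by decide +kernel) v4_260

theorem r406 : S (Nat.lor X2 (bits [437, 406])) := VW.play 394 (PX [] [406,437]) (by decide +kernel) v4_450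

theorem r433 : S (Nat.lor X2 (bits [437, 433])) := VW.play 394 (PX [] [433,437]) (by decide +kernel) v4_460

theorem r434 : S (Nat.lor X2 (bits [437, 434])) := VW.play 394 (PX [] [434,437]) (by decide +kernel) v4_485

theorem r435 : S (Nat.lor X2 (bits [437, 435])) := VW.play 394 (PX [] [435,437]) (by decide +kernel) v4_490

theorem r436 : S (Nat.lor X2 (bits [437, 436])) := VW.play 394 (PX [] [436,437]) (by decide +kernel) v4_499

theorem r438 : S (Nat.lor X2 (bits [437, 438])) := VW.play 394 (PX [] [437,438]) (by decide +kernel) v4_516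

theorem r439 : S (Nat.lor X2 (bits [437, 439])) := VW.play 394 (PX [] [437,439]) (by decide +kernel) v4_520

theorem r440 : S (Nat.lor X2 (bits [437, 440])) := VW.play 394 (PX [] [437,440]) (by decide +kernel) v4_521

theorem r441 : S (Nat.lor X2 (bits [437, 441])) := VW.play 394 (PX [] [437,441]) (by decide +kernel) v4_522

theorem r468 : S (Nat.lor X2 (bits [437, 468])) := VW.play 394 (PX [] [437,468]) (by decide +kernel) v4_541

theorem r469 : S (Nat.lor X2 (bits [437, 469])) := VW.play 394 (PX [] [437,469]) (by decide +kernel) v4_561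

theorem r470 : S (Nat.lor X2 (bits [437, 470])) := VW.play 394 (PX [] [437,470]) (by decide +kernel) v4_578

theorem r499 : S (Nat.lor X2 (bits [437, 499])) := VW.play 394 (PX [] [437,499]) (by decide +kernel) v4_582

theorem r501 : S (Nat.lor X2 (bits [437, 501])) := VW.play 394 (PX [] [437,501]) (by decide +kernel) v4_600

theorem r503 : S (Nat.lor X2 (bits [437, 503])) := VW.play 394 (PX [] [437,503]) (by decide +kernel) v4_604

theorem r530 : S (Nat.lor X2 (bits [437, 530])) := VW.play 394 (PX [] [437,530]) (by decide +kernel) v4_605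

theorem r533 : S (Nat.lor X2 (bits [437, 533])) := VW.play 394 (PX [] [437,533]) (by decide +kernel) v4_606

theorem r536 : S (Nat.lor X2 (bits [437, 536])) := VW.play 394 (PX [] [437,536]) (by decide +kernel) v4_607

theorem r561 : S (Nat.lor X2 (bits [437, 561])) := VW.play 394 (PX [] [437,561]) (by decide +kernel) v4_608

theorem r565 : S (Nat.lor X2 (bits [437, 565])) := VW.play 394 (PX [] [437,565]) (by decide +kernel) v4_609

theorem r569 : S (Nat.lor X2 (bits [437, 569])) := VW.play 394 (PX [] [437,569]) (by decide +kernel) v4_610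

theorem all : RT X2 437 (305 :: 309 :: 313 :: 338 :: 341 :: 344 :: 371 :: 373 :: 375 :: 404 :: 405 :: 406 :: 433 :: 434 :: 435 :: 436 :: 438 :: 439 :: 440 :: 441 :: 468 :: 469 :: 470 :: 499 :: 501 :: 503 :: 530 :: 533 :: 536 :: 561 :: 565 :: 569 :: []) := ⟨r305, r309, r313, r338, r341, r344, r371, r373, r375, r404, r405, r406, r433, r434, r435, r436, r438, r439, r440, r441, r468, r469, r470, r499, r501, r503, r530, r533, r536, r561, r565, r569, trivial⟩

end Pool.Agent.H94.Five.Mid.K10_2_0
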