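import Pool.Agent.H94.Five.Mid.Fam

set_option autoImplicit false
set_option linter.all false
set_option maxRecDepth 100000

/-! Second has the cell (10, 3): some of the other stones. -/

namespace Pool.Agent.H94.Five.Mid.K10_3_0

open Pool.Agent.H79.Five Pool.Agent.H10.Five Pool.Agent.H94.Five.M

abbrev nl : List Ent := [n0, n3, n4, n6, n8, n9, n10, n11, n16, n17, n21, n22]

theorem nl_ok : AC XB M0 nl := .cons n0k <| .cons n3k <| .cons n4k <| .cons n6k <| .cons n8k <| .cons n9k <| .cons n10k <| .cons n11k <| .cons n16k <| .cons n17k <| .cons n21k <| .cons n22k <| .nil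

abbrev fl : List Ent := (x45 :: x73 :: x93 :: x96 :: x101 :: x103 :: x128 :: x130 :: x139 :: x144 :: x161 :: x167 :: x171 :: x174 :: x183 :: x185 :: x190 :: x194 :: x201 :: x204 :: x223 :: x245 :: x255 :: x258 :: x266 :: x276 :: x277 :: x310 :: x313 :: x316 :: x318 :: x322 :: x328 :: x357 :: x364 :: x371 :: x375 :: x377 :: x383 :: x390 :: x413 :: x420 :: x424 :: x426 :: x427 :: x430 :: x434 :: x437 :: x444 :: x451 :: x462 :: x492 :: x493 :: x501 :: x518 :: [])

theorem fl_ok : AC XB M0 fl := .cons x45k <| .cons x73k <| .cons x93k <| .cons x96k <| .cons x101k <| .cons x103k <| .cons x128k <| .cons x130k <| .cons x139k <| .cons x144k <| .cons x161k <| .cons x167k <| .cons x171k <| .cons x174k <| .cons x183k <| .cons x185k <| .cons x190k <| .cons x194k <| .cons x201k <| .cons x204k <| .cons x223k <| .cons x245k <| .cons x255k <| .cons x258k <| .cons x266k <| .cons x276k <| .cons x277k <| .cons x310k <| .cons x313k <| .cons x316k <| .cons x318k <| .cons x322k <| .cons x328k <| .cons x357k <| .cons x364k <| .cons x371k <| .cons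 x375k <| .cons x377k <| .cons x383k <| .cons x390k <| .cons x413k <| .cons x420k <| .cons x424k <| .cons x426k <| .cons x427k <| .cons x430k <| .cons x434k <| .cons x437k <| .cons x444k <| .cons x451k <| .cons x462k <| .cons x492k <| .cons x493k <| .cons x501k <| .cons x518k <| .nil

theorem b4_181 : S (PX [238,403] [273,304,337,370,469]) := S.of (.q 330 (.a 1 [] (.d 297 2312 264 2345 429)
 (.a 1 [264] (.d 429 2345 297 2378 462)
 (.a 0 [297,429] (.q 362 (.a 1 [] (.d 298 1290 266 1322 426)
 (.a 1 [266] (.d 426 1322 298 1354 458)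
 (.a 0 [298,426] (.q 361 (.a 1 [] (.d 360 359 359 360 364)
 (.a 1 [359] (.d 364 360 360 361 365)
 (.a 0 [360,364] (.q 427 (.a 1 [] (.d 328 2343 295 2376 460)
 (.a 1 [295] (.d 460 2376 328 2409 493)
 (.a 0 [328,460] (.q 395 (.a 1 [] (.d 393 392 392 393 397)
 (.a 1 [392] (.d 397 393 393 394 398)
 (.a 1 [393] (.d 331 1323 299 1355 459)
 .e))))
 .e))))
 .e))))
 .e))))
 .e)))) (by decide +kernel)

theorem b4_182 : S (PX [238,403] [304,330,337,370,469]) := S.of (.q 395 (.a 1 [] (.d 393 392 392 393 397)
 (.a 1 [392] (.d 397 393 393 394 398)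
 (.a 0 [393,397] (.q 427 (.a 1 [] (.d 331 1323 299 1355 459)
 (.a 1 [299] (.d 459 1355 331 1387 491)
 (.a 0 [331,459] (.q 332 (.a 1 [] (.d 301 3342 270 3373 425)
 (.a 1 [270] (.d 425 3373 301 3404 456)
 (.a 0 [301,425] (.q 365 (.a 1 [] (.d 334 3375 303 3406 458)
 (.a 1 [303] (.d 458 3406 334 3437 489)
 (.a 0 [334,458] (.q 364 (.a 1 [] (.d 362 361 361 362 366)
 (.a 1 [361] (.d 366 362 362 363 367)
 (.a 1 [362] (.d 300 1292 268 1324 428)
 .e))))
 .e))))
 .e))))
 .e))))
 .e)))) (by decide +kernel)

theorem b4_183 : S (PX [238,403] [304,335,337,370,469]) := S.of (.q 330 (.a 1 [] (.d 297 2312 264 2345 429)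
 (.a 1 [264] (.d 429 2345 297 2378 462)
 (.a 0 [297,429] (.q 362 (.a 1 [] (.d 298 1290 266 1322 426)
 (.a 1 [266] (.d 426 1322 298 1354 458)
 (.a 0 [298,426] (.q 361 (.a 1 [] (.d 360 359 359 360 364)
 (.a 1 [359] (.d 364 360 360 361 365)
 (.a 0 [360,364] (.q 427 (.a 1 [] (.d 328 2343 295 2376 460)
 (.a 1 [295] (.d 460 2376 328 2409 493)
 (.a 0 [328,460] (.q 395 (.a 1 [] (.d 393 392 392 393 397)
 (.a 1 [392] (.d 397 393 393 394 398)
 (.a 1 [393] (.d 331 1323 299 1355 459)
 .e))))
 .e))))
 .e))))
 .e))))
 .e)))) (by decide +kernel)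

theorem b4_184 : S (PX [238,403] [304,337,366,370,469]) := S.of (.q 330 (.a 1 [] (.d 297 2312 264 2345 429)
 (.a 1 [264] (.d 429 2345 297 2378 462)
 (.a 0 [297,429] (.q 362 (.a 1 [] (.d 298 1290 266 1322 426)
 (.a 1 [266] (.d 426 1322 298 1354 458)
 (.a 0 [298,426] (.q 361 (.a 1 [] (.d 360 359 359 360 364)
 (.a 1 [359] (.d 364 360 360 361 365)
 (.a 0 [360,364] (.q 427 (.a 1 [] (.d 328 2343 295 2376 460)
 (.a 1 [295] (.d 460 2376 328 2409 493)
 (.a 0 [328,460] (.q 395 (.a 1 [] (.d 393 392 392 393 397)
 (.a 1 [392] (.d 397 393 393 394 398)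
 (.a 1 [393] (.d 331 1323 299 1355 459)
 .e))))
 .e))))
 .e))))
 .e))))
 .e)))) (by decide +kernel)

theorem b4_185 : S (PX [238,403] [304,337,370,428,469]) := S.of (.q 429 (.a 1 [] (.d 330 2345 297 2378 462)
 (.a 1 [297] (.d 462 2378 330 2411 495)
 (.a 0 [330,462] (.q 397 (.a 1 [] (.d 395 393 393 394 398)
 (.a 0 [393,395,398] (.q 365 (.a 1 [] (.d 333 1325 301 1357 461)
 (.a 1 [301] (.d 461 1357 333 1389 493)
 (.a 1 [461] (.r 301 1325 333 (.d 332 3342 270 3373 425))
 (.a 0 [333] (.q 427 (.a 1 [] (.d 334 3375 303 3406 458)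
 (.a 1 [303] (.d 458 3406 334 3437 489)
 (.a 1 [334] (.r 493 1389 461 (.d 460 2409 361 2442 526))
 .e))))
 .e)))))
 .e)))
 .e)))) (by decide +kernel)

theorem b4_230 : S (PX [463,467] [332,462,465,466,469]) := S.of (.q 395 (.a 1 [] (.d 393 392 392 393 397)
 (.a 1 [392] (.d 397 393 393 394 398)
 (.a 0 [393,397] (.q 427 (.a 1 [] (.d 331 1323 299 1355 459)
 (.a 1 [299] (.d 459 1355 331 1387 491)
 (.a 0 [331,459] (.q 458 (.a 1 [] (.d 365 3406 334 3437 489)
 (.a 1 [334] (.d 489 3437 365 3468 520)
 (.a 0 [365,489] (.q 361 (.a 1 [] (.d 328 2343 295 2376 460)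
 (.a 1 [295] (.d 460 2376 328 2409 493)
 (.a 0 [328,460] (.q 330 (.a 1 [] (.d 297 2312 264 2345 429)
 (.a 1 [264] (.r 362 1354 426 (.d 360 359 359 360 364))
 .e)))
 .e))))
 .e))))
 .e))))
 .e)))) (by decide +kernel)

theorem b4_231 : S (PX [463,467] [425,462,465,466,469]) := S.of (.q 395 (.a 1 [] (.d 393 392 392 393 397)
 (.a 1 [392] (.d 397 393 393 394 398)
 (.a 0 [393,397] (.q 427 (.a 1 [] (.d 331 1323 299 1355 459)
 (.a 1 [299] (.d 459 1355 331 1387 491)
 (.a 0 [331,459] (.q 361 (.a 1 [] (.d 328 2343 295 2376 460)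
 (.a 1 [295] (.d 460 2376 328 2409 493)
 (.a 0 [328,460] (.q 458 (.a 1 [] (.d 365 3406 334 3437 489)
 (.a 1 [334] (.d 489 3437 365 3468 520)
 (.a 1 [489] (.r 365 3406 334 (.r 362 361 364 (.d 426 1354 330 1386 490)))
 (.a 0 [365] (.q 362 (.a 1 [] (.d 360 359 359 360 364)
 (.a 1 [359] (.d 426 1354 330 1386 490)
 .e)))
 .e)))))
 .e))))
 .e))))
 .e)))) (by decide +kernel)

theorem b4_234 : S (PX [467] [463,465,466,469]) := S.of (.q 462 (.a 1 [] (.d 429 2378 330 2411 495)
 (.a 0 [330,429,495] (.q 395 (.a 1 [] (.d 393 392 392 393 397)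
 (.a 1 [392] (.d 397 393 393 394 398)
 (.a 0 [393] (.q 427 (.a 1 [] (.d 331 1323 299 1355 459)
 (.a 1 [299] (.d 459 1355 331 1387 491)
 (.a 0 [331,459] (.q 332 (.a 1 [] (.d 301 3342 270 3373 425)
 (.a 1 [270] (.d 425 3373 301 3404 456)
 (.a 0 [301,425] (.q 365 (.a 1 [] (.d 334 3375 303 3406 458)
 (.a 1 [303] (.d 458 3406 334 3437 489)
 (.a 1 [334] (.r 398 394 397 (.d 431 2347 299 2380 464))
 .e))))
 .e))))
 .e))))
 (.a 0 [397] (.q 331 (.a 1 [] (.d 299 1291 267 1323 427)
 (.a 1 [267] (.d 427 1323 299 1355 459)
 (.a 0 [299,427] (.q 425 (.a 1 [] (.d 332 3373 301 3404 456)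
 (.a 1 [301] (.d 456 3404 332 3435 487)
 (.a 0 [332,456] (.r 393 392 392 (.q 361 (.a 1 [] (.d 329 1321 297 1353 457)
 (.a 1 [297] (.d 457 1353 329 1385 489)
 (.a 0 [329,457] (.q 362 (.a 1 [] (.d 360 359 359 360 364)
 (.a 1 [359] (.d 364 360 360 361 365)
 (.a 1 [360] (.d 300 3341 269 3372 424)
 .e))))
 .e)))))
 .e))))
 .e))))
 .e)))))
 .e))) (by decide +kernel)

theorem v4_611 : VW (PX [271,403] [238,337,370,469]) := VW.of base nl_ok fl_ok .nil
  []
  []
  (by decide +kernel) trivial

theorem v4_613 : VW (PX [238,403] [271,337,370,469]) := VW.of base nl_ok fl_ok .nil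
  []
  []
  (by decide +kernel) trivial

theorem v4_615 : VW (PX [238,403] [304,337,370,469]) := VW.of base nl_ok fl_ok .nil
  []
  [([273], (PX [238,403] [273,304,337,370,469])), ([330], (PX [238,403] [304,330,337,370,469])), ([335], (PX [238,403] [304,335,337,370,469])), ([366], (PX [238,403] [304,337,366,370,469])), ([428], (PX [238,403] [304,337,370,428,469]))]
  (by decide +kernel) ⟨b4_181, b4_182, b4_183, b4_184, b4_185, trivial⟩

theorem w4_617_238 : S (PX [403] [238,337,370,469]) := VW.play 271 (PX [271,403] [238,337,370,469]) (by decide +kernel) v4_611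

theorem w4_617_271 : S (PX [403] [271,337,370,469]) := VW.play 238 (PX [238,403] [271,337,370,469]) (by decide +kernel) v4_613

theorem w4_617_304 : S (PX [403] [304,337,370,469]) := VW.play 238 (PX [238,403] [304,337,370,469]) (by decide +kernel) v4_615

theorem v4_617 : VW (PX [403] [337,370,469]) := VW.of base nl_ok fl_ok .nil
  []
  [([238], (PX [403] [238,337,370,469])), ([271], (PX [403] [271,337,370,469])), ([304], (PX [403] [304,337,370,469]))]
  (by decide +kernel) ⟨w4_617_238, w4_617_271, w4_617_304, trivial⟩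

theorem v4_625 : VW (PX [370] [337,403,469]) := VW.of base nl_ok fl_ok .nil
  [(436, (.cons 502 535 .nil (.cons 535 502 .nil .nil))), (502, (.cons 436 535 .nil (.cons 535 436 (.cons 568 601 .nil (.cons 601 568 .nil .nil)) .nil))), (535, (.cons 436 502 .nil (.cons 502 436 (.cons 568 601 .nil (.cons 601 568 .nil .nil)) .nil)))]
  []
  (by decide +kernel) trivial

theorem w4_638_370 : S (PX [] [337,370,469]) := VW.play 403 (PX [403] [337,370,469]) (by decide +kernel) v4_617

theorem w4_638_403 : S (PX [] [337,403,469]) := VW.play 370 (PX [370] [337,403,469]) (by decide +kernel) v4_625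

theorem v4_638 : VW (PX [] [337,469]) := VW.of base nl_ok fl_ok .nil
  [(436, (.cons 370 403 .nil (.cons 403 370 (.cons 502 535 .nil (.cons 535 502 .nil .nil)) .nil)))]
  [([370], (PX [] [337,370,469])), ([403], (PX [] [337,403,469]))]
  (by decide +kernel) ⟨w4_638_370, w4_638_403, trivial⟩

theorem v4_639 : VW (PX [] [341,469]) := VW.of base nl_ok fl_ok .nil
  [(373, (.cons 405 437 (.cons 277 309 .nil (.cons 309 277 .nil .nil)) (.cons 437 405 .nil .nil))), (405, (.cons 373 437 (.cons 277 309 .nil (.cons 309 277 .nil .nil)) (.cons 437 373 (.cons 501 533 .nil (.cons 533 501 .nil .nil)) .nil))), (437, (.cons 373 405 .nil (.cons 405 373 (.cons 501 533 .nil (.cons 533 501 .nil .nil)) .nil)))]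
  []
  (by decide +kernel) trivial

theorem v4_640 : VW (PX [] [345,469]) := VW.of base nl_ok fl_ok .nil
  [(376, (.cons 407 438 (.cons 283 314 .nil (.cons 314 283 .nil .nil)) (.cons 438 407 .nil .nil))), (407, (.cons 376 438 (.cons 283 314 .nil (.cons 314 283 .nil .nil)) (.cons 438 376 (.cons 500 531 .nil (.cons 531 500 .nil .nil)) .nil))), (438, (.cons 376 407 .nil (.cons 407 376 (.cons 500 531 .nil (.cons 531 500 .nil .nil)) .nil)))]
  []
  (by decide +kernel) trivial

theorem v4_644 : VW (PX [304,436] [271,370,403,469]) := VW.of base nl_ok fl_ok .nil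
  []
  []
  (by decide +kernel) trivial

theorem v4_622 : VW (PX [271,436] [337,370,403,469]) := VW.of base nl_ok fl_ok .nil
  []
  []
  (by decide +kernel) trivial

theorem w4_646_271 : S (PX [436] [271,370,403,469]) := VW.play 304 (PX [304,436] [271,370,403,469]) (by decide +kernel) v4_644

theorem w4_646_337 : S (PX [436] [337,370,403,469]) := VW.play 271 (PX [271,436] [337,370,403,469]) (by decide +kernel) v4_622

theorem v4_646 : VW (PX [436] [370,403,469]) := VW.of base nl_ok fl_ok .nil
  [(304, (.cons 271 337 .nil (.cons 337 271 .nil .nil)))]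
  [([271], (PX [436] [271,370,403,469])), ([337], (PX [436] [337,370,403,469]))]
  (by decide +kernel) ⟨w4_646_271, w4_646_337, trivial⟩

theorem v4_661 : VW (PX [403] [370,436,469]) := VW.of base nl_ok fl_ok .nil
  [(502, (.cons 535 568 .nil (.cons 568 535 .nil .nil))), (535, (.cons 502 568 .nil (.cons 568 502 .nil .nil))), (568, (.cons 502 535 .nil (.cons 535 502 .nil .nil)))]
  []
  (by decide +kernel) trivial

theorem w4_662_337 : S (PX [] [337,370,469]) := VW.play 403 (PX [403] [337,370,469]) (by decide +kernel) v4_617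

theorem w4_662_403 : S (PX [] [370,403,469]) := VW.play 436 (PX [436] [370,403,469]) (by decide +kernel) v4_646

theorem w4_662_436 : S (PX [] [370,436,469]) := VW.play 403 (PX [403] [370,436,469]) (by decide +kernel) v4_661

theorem v4_662 : VW (PX [] [370,469]) := VW.of base nl_ok fl_ok .nil
  [(502, (.cons 403 436 .nil (.cons 436 403 (.cons 535 568 .nil (.cons 568 535 .nil .nil)) .nil)))]
  [([337], (PX [] [337,370,469])), ([403], (PX [] [370,403,469])), ([436], (PX [] [370,436,469]))]
  (by decide +kernel) ⟨w4_662_337, w4_662_403, w4_662_436, trivial⟩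

theorem v4_119 : VW (PX [437] [373,405,469]) := VW.of base nl_ok fl_ok .nil
  [(277, (.cons 309 341 .nil (.cons 341 309 .nil .nil))), (309, (.cons 277 341 .nil (.cons 341 277 .nil .nil))), (341, (.cons 277 309 .nil (.cons 309 277 .nil .nil)))]
  []
  (by decide +kernel) trivial

theorem v4_422 : VW (PX [405] [373,437,469]) := VW.of base nl_ok fl_ok .nil
  [(501, (.cons 533 565 .nil (.cons 565 533 .nil .nil))), (533, (.cons 501 565 .nil (.cons 565 501 .nil .nil))), (565, (.cons 501 533 .nil (.cons 533 501 .nil .nil)))]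
  []
  (by decide +kernel) trivial

theorem w4_663_405 : S (PX [] [373,405,469]) := VW.play 437 (PX [437] [373,405,469]) (by decide +kernel) v4_119

theorem w4_663_437 : S (PX [] [373,437,469]) := VW.play 405 (PX [405] [373,437,469]) (by decide +kernel) v4_422

theorem v4_663 : VW (PX [] [373,469]) := VW.of base nl_ok fl_ok .nil
  [(341, (.cons 405 437 (.cons 277 309 .nil (.cons 309 277 .nil .nil)) (.cons 437 405 .nil .nil))), (501, (.cons 405 437 .nil (.cons 437 405 (.cons 533 565 .nil (.cons 565 533 .nil .nil)) .nil)))]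
  [([405], (PX [] [373,405,469])), ([437], (PX [] [373,437,469]))]
  (by decide +kernel) ⟨w4_663_405, w4_663_437, trivial⟩

theorem v4_667 : VW (PX [438] [376,407,469]) := VW.of base nl_ok fl_ok .nil
  [(283, (.cons 314 345 .nil (.cons 345 314 .nil .nil))), (314, (.cons 283 345 .nil (.cons 345 283 .nil .nil))), (345, (.cons 283 314 .nil (.cons 314 283 .nil .nil)))]
  []
  (by decide +kernel) trivial

theorem v4_682 : VW (PX [407] [376,438,469]) := VW.of base nl_ok fl_ok .nil
  [(500, (.cons 531 562 .nil (.cons 562 531 .nil .nil))), (531, (.cons 500 562 .nil (.cons 562 500 .nil .nil))), (562, (.cons 500 531 .nil (.cons 531 500 .nil .nil)))]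
  []
  (by decide +kernel) trivial

theorem w4_683_407 : S (PX [] [376,407,469]) := VW.play 438 (PX [438] [376,407,469]) (by decide +kernel) v4_667

theorem w4_683_438 : S (PX [] [376,438,469]) := VW.play 407 (PX [407] [376,438,469]) (by decide +kernel) v4_682

theorem v4_683 : VW (PX [] [376,469]) := VW.of base nl_ok fl_ok .nil
  [(345, (.cons 407 438 (.cons 283 314 .nil (.cons 314 283 .nil .nil)) (.cons 438 407 .nil .nil))), (500, (.cons 407 438 .nil (.cons 438 407 (.cons 531 562 .nil (.cons 562 531 .nil .nil)) .nil)))]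
  [([407], (PX [] [376,407,469])), ([438], (PX [] [376,438,469]))]
  (by decide +kernel) ⟨w4_683_407, w4_683_438, trivial⟩

theorem v4_684 : VW (PX [370,535] [403,436,469,502]) := VW.of base nl_ok fl_ok .nil
  []
  []
  (by decide +kernel) trivial

theorem v4_685 : VW (PX [370,502] [403,436,469,535]) := VW.of base nl_ok fl_ok .nil
  []
  []
  (by decide +kernel) trivial

theorem w4_686_502 : S (PX [370] [403,436,469,502]) := VW.play 535 (PX [370,535] [403,436,469,502]) (by decide +kernel) v4_684

theorem w4_686_535 : S (PX [370] [403,436,469,535]) := VW.play 502 (PX [370,502] [403,436,469,535]) (by decide +kernel) v4_685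

theorem v4_686 : VW (PX [370] [403,436,469]) := VW.of base nl_ok fl_ok (.cons 502 535 .nil (.cons 535 502 .nil .nil))
  [(568, (.cons 502 535 .nil (.cons 535 502 .nil .nil))), (601, (.cons 502 535 .nil (.cons 535 502 .nil .nil))), (634, (.cons 502 535 .nil (.cons 535 502 .nil .nil)))]
  [([502], (PX [370] [403,436,469,502])), ([535], (PX [370] [403,436,469,535]))]
  (by decide +kernel) ⟨w4_686_502, w4_686_535, trivial⟩

theorem v4_687 : VW (PX [436] [403,469,502]) := VW.of base nl_ok fl_ok .nil
  [(535, (.cons 568 601 .nil (.cons 601 568 .nil .nil))), (568, (.cons 535 601 .nil (.cons 601 535 .nil .nil))), (601, (.cons 535 568 .nil (.cons 568 535 .nil .nil)))]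
  []
  (by decide +kernel) trivial

theorem w4_688_337 : S (PX [] [337,403,469]) := VW.play 370 (PX [370] [337,403,469]) (by decide +kernel) v4_625

theorem w4_688_370 : S (PX [] [370,403,469]) := VW.play 436 (PX [436] [370,403,469]) (by decide +kernel) v4_646

theorem w4_688_436 : S (PX [] [403,436,469]) := VW.play 370 (PX [370] [403,436,469]) (by decide +kernel) v4_686

theorem w4_688_502 : S (PX [] [403,469,502]) := VW.play 436 (PX [436] [403,469,502]) (by decide +kernel) v4_687

theorem v4_688 : VW (PX [] [403,469]) := VW.of base nl_ok fl_ok .nil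
  [(535, (.cons 436 502 (.cons 337 370 .nil (.cons 370 337 .nil .nil)) (.cons 502 436 (.cons 568 601 .nil (.cons 601 568 .nil .nil)) .nil)))]
  [([337], (PX [] [337,403,469])), ([370], (PX [] [370,403,469])), ([436], (PX [] [403,436,469])), ([502], (PX [] [403,469,502]))]
  (by decide +kernel) ⟨w4_688_337, w4_688_370, w4_688_436, w4_688_502, trivial⟩

theorem v4_241 : VW (PX [373,533] [405,437,469,501]) := VW.of base nl_ok fl_ok .nil
  []
  []
  (by decide +kernel) trivial

theorem v4_242 : VW (PX [373,501] [405,437,469,533]) := VW.of base nl_ok fl_ok .nil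
  []
  []
  (by decide +kernel) trivial

theorem w4_243_501 : S (PX [373] [405,437,469,501]) := VW.play 533 (PX [373,533] [405,437,469,501]) (by decide +kernel) v4_241

theorem w4_243_533 : S (PX [373] [405,437,469,533]) := VW.play 501 (PX [373,501] [405,437,469,533]) (by decide +kernel) v4_242

theorem v4_243 : VW (PX [373] [405,437,469]) := VW.of base nl_ok fl_ok (.cons 501 533 .nil (.cons 533 501 .nil .nil))
  [(565, (.cons 501 533 .nil (.cons 533 501 .nil .nil))), (597, (.cons 501 533 .nil (.cons 533 501 .nil .nil))), (629, (.cons 501 533 .nil (.cons 533 501 .nil .nil)))]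
  [([501], (PX [373] [405,437,469,501])), ([533], (PX [373] [405,437,469,533]))]
  (by decide +kernel) ⟨w4_243_501, w4_243_533, trivial⟩

theorem v4_298 : VW (PX [437] [405,469,501]) := VW.of base nl_ok fl_ok .nil
  [(533, (.cons 565 597 .nil (.cons 597 565 .nil .nil))), (565, (.cons 533 597 .nil (.cons 597 533 .nil .nil))), (597, (.cons 533 565 .nil (.cons 565 533 .nil .nil)))]
  []
  (by decide +kernel) trivial

theorem w4_301_373 : S (PX [] [373,405,469]) := VW.play 437 (PX [437] [373,405,469]) (by decide +kernel) v4_119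

theorem w4_301_437 : S (PX [] [405,437,469]) := VW.play 373 (PX [373] [405,437,469]) (by decide +kernel) v4_243

theorem w4_301_501 : S (PX [] [405,469,501]) := VW.play 437 (PX [437] [405,469,501]) (by decide +kernel) v4_298

theorem v4_301 : VW (PX [] [405,469]) := VW.of base nl_ok fl_ok .nil
  [(341, (.cons 373 437 (.cons 277 309 .nil (.cons 309 277 .nil .nil)) (.cons 437 373 (.cons 501 533 .nil (.cons 533 501 .nil .nil)) .nil))), (533, (.cons 437 501 (.cons 341 373 .nil (.cons 373 341 .nil .nil)) (.cons 501 437 (.cons 565 597 .nil (.cons 597 565 .nil .nil)) .nil)))]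
  [([373], (PX [] [373,405,469])), ([437], (PX [] [405,437,469])), ([501], (PX [] [405,469,501]))]
  (by decide +kernel) ⟨w4_301_373, w4_301_437, w4_301_501, trivial⟩

theorem v4_689 : VW (PX [376,531] [407,438,469,500]) := VW.of base nl_ok fl_ok .nil
  []
  []
  (by decide +kernel) trivial

theorem v4_690 : VW (PX [376,500] [407,438,469,531]) := VW.of base nl_ok fl_ok .nil
  []
  []
  (by decide +kernel) trivial

theorem w4_691_500 : S (PX [376] [407,438,469,500]) := VW.play 531 (PX [376,531] [407,438,469,500]) (by decide +kernel) v4_689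

theorem w4_691_531 : S (PX [376] [407,438,469,531]) := VW.play 500 (PX [376,500] [407,438,469,531]) (by decide +kernel) v4_690

theorem v4_691 : VW (PX [376] [407,438,469]) := VW.of base nl_ok fl_ok (.cons 500 531 .nil (.cons 531 500 .nil .nil))
  [(562, (.cons 500 531 .nil (.cons 531 500 .nil .nil))), (593, (.cons 500 531 .nil (.cons 531 500 .nil .nil))), (624, (.cons 500 531 .nil (.cons 531 500 .nil .nil)))]
  [([500], (PX [376] [407,438,469,500])), ([531], (PX [376] [407,438,469,531]))]
  (by decide +kernel) ⟨w4_691_500, w4_691_531, trivial⟩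

theorem v4_706 : VW (PX [438] [407,469,500]) := VW.of base nl_ok fl_ok .nil
  [(531, (.cons 562 593 .nil (.cons 593 562 .nil .nil))), (562, (.cons 531 593 .nil (.cons 593 531 .nil .nil))), (593, (.cons 531 562 .nil (.cons 562 531 .nil .nil)))]
  []
  (by decide +kernel) trivial

theorem w4_709_376 : S (PX [] [376,407,469]) := VW.play 438 (PX [438] [376,407,469]) (by decide +kernel) v4_667

theorem w4_709_438 : S (PX [] [407,438,469]) := VW.play 376 (PX [376] [407,438,469]) (by decide +kernel) v4_691

theorem w4_709_500 : S (PX [] [407,469,500]) := VW.play 438 (PX [438] [407,469,500]) (by decide +kernel) v4_706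

theorem v4_709 : VW (PX [] [407,469]) := VW.of base nl_ok fl_ok .nil
  [(345, (.cons 376 438 (.cons 283 314 .nil (.cons 314 283 .nil .nil)) (.cons 438 376 (.cons 500 531 .nil (.cons 531 500 .nil .nil)) .nil))), (531, (.cons 438 500 (.cons 345 376 .nil (.cons 376 345 .nil .nil)) (.cons 500 438 (.cons 562 593 .nil (.cons 593 562 .nil .nil)) .nil)))]
  [([376], (PX [] [376,407,469])), ([438], (PX [] [407,438,469])), ([500], (PX [] [407,469,500]))]
  (by decide +kernel) ⟨w4_709_376, w4_709_438, w4_709_500, trivial⟩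

theorem v4_710 : VW (PX [403,568] [436,469,502,535]) := VW.of base nl_ok fl_ok .nil
  []
  []
  (by decide +kernel) trivial

theorem v4_711 : VW (PX [403,535] [436,469,502,568]) := VW.of base nl_ok fl_ok .nil
  []
  []
  (by decide +kernel) trivial

theorem w4_712_535 : S (PX [403] [436,469,502,535]) := VW.play 568 (PX [403,568] [436,469,502,535]) (by decide +kernel) v4_710

theorem w4_712_568 : S (PX [403] [436,469,502,568]) := VW.play 535 (PX [403,535] [436,469,502,568]) (by decide +kernel) v4_711

theorem v4_712 : VW (PX [403] [436,469,502]) := VW.of base nl_ok fl_ok (.cons 535 568 .nil (.cons 568 535 .nil .nil))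
  [(601, (.cons 535 568 .nil (.cons 568 535 .nil .nil))), (634, (.cons 535 568 .nil (.cons 568 535 .nil .nil))), (667, (.cons 535 568 .nil (.cons 568 535 .nil .nil)))]
  [([535], (PX [403] [436,469,502,535])), ([568], (PX [403] [436,469,502,568]))]
  (by decide +kernel) ⟨w4_712_535, w4_712_568, trivial⟩

theorem v4_717 : VW (PX [502] [436,469,535]) := VW.of base nl_ok fl_ok .nil
  [(337, (.cons 370 403 .nil (.cons 403 370 .nil .nil))), (370, (.cons 337 403 .nil (.cons 403 337 .nil .nil))), (403, (.cons 337 370 .nil (.cons 370 337 .nil .nil)))]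
  []
  (by decide +kernel) trivial

theorem w4_718_370 : S (PX [] [370,436,469]) := VW.play 403 (PX [403] [370,436,469]) (by decide +kernel) v4_661

theorem w4_718_403 : S (PX [] [403,436,469]) := VW.play 370 (PX [370] [403,436,469]) (by decide +kernel) v4_686

theorem w4_718_502 : S (PX [] [436,469,502]) := VW.play 403 (PX [403] [436,469,502]) (by decide +kernel) v4_712

theorem w4_718_535 : S (PX [] [436,469,535]) := VW.play 502 (PX [502] [436,469,535]) (by decide +kernel) v4_717

theorem v4_718 : VW (PX [] [436,469]) := VW.of base nl_ok fl_ok .nil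
  [(337, (.cons 370 403 .nil (.cons 403 370 (.cons 502 535 .nil (.cons 535 502 .nil .nil)) .nil))), (568, (.cons 502 535 (.cons 370 403 .nil (.cons 403 370 .nil .nil)) (.cons 535 502 .nil .nil)))]
  [([370], (PX [] [370,436,469])), ([403], (PX [] [403,436,469])), ([502], (PX [] [436,469,502])), ([535], (PX [] [436,469,535]))]
  (by decide +kernel) ⟨w4_718_370, w4_718_403, w4_718_502, w4_718_535, trivial⟩

theorem v4_542 : VW (PX [405,565] [437,469,501,533]) := VW.of base nl_ok fl_ok .nil
  []
  []
  (by decide +kernel) trivial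

theorem v4_543 : VW (PX [405,533] [437,469,501,565]) := VW.of base nl_ok fl_ok .nil
  []
  []
  (by decide +kernel) trivial

theorem w4_544_533 : S (PX [405] [437,469,501,533]) := VW.play 565 (PX [405,565] [437,469,501,533]) (by decide +kernel) v4_542

theorem w4_544_565 : S (PX [405] [437,469,501,565]) := VW.play 533 (PX [405,533] [437,469,501,565]) (by decide +kernel) v4_543

theorem v4_544 : VW (PX [405] [437,469,501]) := VW.of base nl_ok fl_ok (.cons 533 565 .nil (.cons 565 533 .nil .nil))
  [(597, (.cons 533 565 .nil (.cons 565 533 .nil .nil))), (629, (.cons 533 565 .nil (.cons 565 533 .nil .nil))), (661, (.cons 533 565 .nil (.cons 565 533 .nil .nil)))]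
  [([533], (PX [405] [437,469,501,533])), ([565], (PX [405] [437,469,501,565]))]
  (by decide +kernel) ⟨w4_544_533, w4_544_565, trivial⟩

theorem v4_549 : VW (PX [501] [437,469,533]) := VW.of base nl_ok fl_ok .nil
  [(341, (.cons 373 405 .nil (.cons 405 373 .nil .nil))), (373, (.cons 341 405 .nil (.cons 405 341 .nil .nil))), (405, (.cons 341 373 .nil (.cons 373 341 .nil .nil)))]
  []
  (by decide +kernel) trivial

theorem w4_561_373 : S (PX [] [373,437,469]) := VW.play 405 (PX [405] [373,437,469]) (by decide +kernel) v4_422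

theorem w4_561_405 : S (PX [] [405,437,469]) := VW.play 373 (PX [373] [405,437,469]) (by decide +kernel) v4_243

theorem w4_561_501 : S (PX [] [437,469,501]) := VW.play 405 (PX [405] [437,469,501]) (by decide +kernel) v4_544

theorem w4_561_533 : S (PX [] [437,469,533]) := VW.play 501 (PX [501] [437,469,533]) (by decide +kernel) v4_549

theorem v4_561 : VW (PX [] [437,469]) := VW.of base nl_ok fl_ok .nil
  [(341, (.cons 373 405 .nil (.cons 405 373 (.cons 501 533 .nil (.cons 533 501 .nil .nil)) .nil))), (565, (.cons 501 533 (.cons 373 405 .nil (.cons 405 373 .nil .nil)) (.cons 533 501 .nil .nil)))]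
  [([373], (PX [] [373,437,469])), ([405], (PX [] [405,437,469])), ([501], (PX [] [437,469,501])), ([533], (PX [] [437,469,533]))]
  (by decide +kernel) ⟨w4_561_373, w4_561_405, w4_561_501, w4_561_533, trivial⟩

theorem v4_719 : VW (PX [407,562] [438,469,500,531]) := VW.of base nl_ok fl_ok .nil
  []
  []
  (by decide +kernel) trivial

theorem v4_720 : VW (PX [407,531] [438,469,500,562]) := VW.of base nl_ok fl_ok .nil
  []
  []
  (by decide +kernel) trivial

theorem w4_721_531 : S (PX [407] [438,469,500,531]) := VW.play 562 (PX [407,562] [438,469,500,531]) (by decide +kernel) v4_719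

theorem w4_721_562 : S (PX [407] [438,469,500,562]) := VW.play 531 (PX [407,531] [438,469,500,562]) (by decide +kernel) v4_720

theorem v4_721 : VW (PX [407] [438,469,500]) := VW.of base nl_ok fl_ok (.cons 531 562 .nil (.cons 562 531 .nil .nil))
  [(593, (.cons 531 562 .nil (.cons 562 531 .nil .nil))), (624, (.cons 531 562 .nil (.cons 562 531 .nil .nil))), (655, (.cons 531 562 .nil (.cons 562 531 .nil .nil)))]
  [([531], (PX [407] [438,469,500,531])), ([562], (PX [407] [438,469,500,562]))]
  (by decide +kernel) ⟨w4_721_531, w4_721_562, trivial⟩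

theorem v4_726 : VW (PX [500] [438,469,531]) := VW.of base nl_ok fl_ok .nil
  [(345, (.cons 376 407 .nil (.cons 407 376 .nil .nil))), (376, (.cons 345 407 .nil (.cons 407 345 .nil .nil))), (407, (.cons 345 376 .nil (.cons 376 345 .nil .nil)))]
  []
  (by decide +kernel) trivial

theorem w4_727_376 : S (PX [] [376,438,469]) := VW.play 407 (PX [407] [376,438,469]) (by decide +kernel) v4_682

theorem w4_727_407 : S (PX [] [407,438,469]) := VW.play 376 (PX [376] [407,438,469]) (by decide +kernel) v4_691

theorem w4_727_500 : S (PX [] [438,469,500]) := VW.play 407 (PX [407] [438,469,500]) (by decide +kernel) v4_721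

theorem w4_727_531 : S (PX [] [438,469,531]) := VW.play 500 (PX [500] [438,469,531]) (by decide +kernel) v4_726

theorem v4_727 : VW (PX [] [438,469]) := VW.of base nl_ok fl_ok .nil
  [(345, (.cons 376 407 .nil (.cons 407 376 (.cons 500 531 .nil (.cons 531 500 .nil .nil)) .nil))), (562, (.cons 500 531 (.cons 376 407 .nil (.cons 407 376 .nil .nil)) (.cons 531 500 .nil .nil)))]
  [([376], (PX [] [376,438,469])), ([407], (PX [] [407,438,469])), ([500], (PX [] [438,469,500])), ([531], (PX [] [438,469,531]))]
  (by decide +kernel) ⟨w4_727_376, w4_727_407, w4_727_500, w4_727_531, trivial⟩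

theorem v4_728 : VW (PX [463,467] [462,465,466,469]) := VW.of base nl_ok fl_ok .nil
  []
  [([332], (PX [463,467] [332,462,465,466,469])), ([425], (PX [463,467] [425,462,465,466,469]))]
  (by decide +kernel) ⟨b4_230, b4_231, trivial⟩

theorem w4_730_462 : S (PX [467] [462,465,466,469]) := VW.play 463 (PX [463,467] [462,465,466,469]) (by decide +kernel) v4_728

theorem v4_730 : VW (PX [467] [465,466,469]) := VW.of base nl_ok fl_ok .nil
  [(464, (.cons 462 463 .nil (.cons 463 462 .nil .nil)))]
  [([462], (PX [467] [462,465,466,469])), ([463], (PX [467] [463,465,466,469]))]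
  (by decide +kernel) ⟨w4_730_462, b4_234, trivial⟩

theorem v4_738 : VW (PX [466] [465,467,469]) := VW.of base nl_ok fl_ok .nil
  [(468, (.cons 470 471 .nil (.cons 471 470 .nil .nil))), (470, (.cons 468 471 .nil (.cons 471 468 (.cons 472 473 .nil (.cons 473 472 .nil .nil)) .nil))), (471, (.cons 468 470 .nil (.cons 470 468 (.cons 472 473 .nil (.cons 473 472 .nil .nil)) .nil)))]
  []
  (by decide +kernel) trivial

theorem w4_748_466 : S (PX [] [465,466,469]) := VW.play 467 (PX [467] [465,466,469]) (by decide +kernel) v4_730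

theorem w4_748_467 : S (PX [] [465,467,469]) := VW.play 466 (PX [466] [465,467,469]) (by decide +kernel) v4_738

theorem v4_748 : VW (PX [] [465,469]) := VW.of base nl_ok fl_ok .nil
  [(468, (.cons 466 467 .nil (.cons 467 466 (.cons 470 471 .nil (.cons 471 470 .nil .nil)) .nil)))]
  [([466], (PX [] [465,466,469])), ([467], (PX [] [465,467,469]))]
  (by decide +kernel) ⟨w4_748_466, w4_748_467, trivial⟩

theorem v4_749 : VW (PX [465,470] [466,467,468,469]) := VW.of base nl_ok fl_ok .nil
  []
  []
  (by decide +kernel) trivial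

theorem v4_750 : VW (PX [465,468] [466,467,469,470]) := VW.of base nl_ok fl_ok .nil
  [(471, (.cons 472 473 .nil (.cons 473 472 .nil .nil))), (472, (.cons 471 473 .nil (.cons 473 471 .nil .nil))), (473, (.cons 471 472 .nil (.cons 472 471 .nil .nil)))]
  []
  (by decide +kernel) trivial

theorem w4_751_468 : S (PX [465] [466,467,468,469]) := VW.play 470 (PX [465,470] [466,467,468,469]) (by decide +kernel) v4_749

theorem w4_751_470 : S (PX [465] [466,467,469,470]) := VW.play 468 (PX [465,468] [466,467,469,470]) (by decide +kernel) v4_750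

theorem v4_751 : VW (PX [465] [466,467,469]) := VW.of base nl_ok fl_ok (.cons 468 470 .nil (.cons 470 468 .nil .nil))
  [(471, (.cons 468 470 .nil (.cons 470 468 (.cons 472 473 .nil (.cons 473 472 .nil .nil)) .nil))), (472, (.cons 468 470 .nil (.cons 470 468 (.cons 471 473 .nil (.cons 473 471 .nil .nil)) .nil))), (473, (.cons 468 470 .nil (.cons 470 468 (.cons 471 472 .nil (.cons 472 471 .nil .nil)) .nil)))]
  [([468], (PX [465] [466,467,468,469])), ([470], (PX [465] [466,467,469,470]))]
  (by decide +kernel) ⟨w4_751_468, w4_751_470, trivial⟩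

theorem v4_769 : VW (PX [467] [466,468,469]) := VW.of base nl_ok fl_ok .nil
  [(470, (.cons 471 472 .nil (.cons 472 471 .nil .nil))), (471, (.cons 470 472 .nil (.cons 472 470 .nil .nil))), (472, (.cons 470 471 .nil (.cons 471 470 .nil .nil)))]
  []
  (by decide +kernel) trivial

theorem w4_770_465 : S (PX [] [465,466,469]) := VW.play 467 (PX [467] [465,466,469]) (by decide +kernel) v4_730

theorem w4_770_467 : S (PX [] [466,467,469]) := VW.play 465 (PX [465] [466,467,469]) (by decide +kernel) v4_751

theorem w4_770_468 : S (PX [] [466,468,469]) := VW.play 467 (PX [467] [466,468,469]) (by decide +kernel) v4_769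

theorem v4_770 : VW (PX [] [466,469]) := VW.of base nl_ok fl_ok .nil
  [(470, (.cons 467 468 .nil (.cons 468 467 (.cons 471 472 .nil (.cons 472 471 .nil .nil)) .nil)))]
  [([465], (PX [] [465,466,469])), ([467], (PX [] [466,467,469])), ([468], (PX [] [466,468,469]))]
  (by decide +kernel) ⟨w4_770_465, w4_770_467, w4_770_468, trivial⟩

theorem v4_771 : VW (PX [466,471] [467,468,469,470]) := VW.of base nl_ok fl_ok .nil
  []
  []
  (by decide +kernel) trivial

theorem v4_772 : VW (PX [466,470] [467,468,469,471]) := VW.of base nl_ok fl_ok .nil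
  []
  []
  (by decide +kernel) trivial

theorem w4_773_470 : S (PX [466] [467,468,469,470]) := VW.play 471 (PX [466,471] [467,468,469,470]) (by decide +kernel) v4_771

theorem w4_773_471 : S (PX [466] [467,468,469,471]) := VW.play 470 (PX [466,470] [467,468,469,471]) (by decide +kernel) v4_772

theorem v4_773 : VW (PX [466] [467,468,469]) := VW.of base nl_ok fl_ok (.cons 470 471 .nil (.cons 471 470 .nil .nil))
  [(472, (.cons 470 471 .nil (.cons 471 470 .nil .nil))), (473, (.cons 470 471 .nil (.cons 471 470 .nil .nil))), (474, (.cons 470 471 .nil (.cons 471 470 .nil .nil)))]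
  [([470], (PX [466] [467,468,469,470])), ([471], (PX [466] [467,468,469,471]))]
  (by decide +kernel) ⟨w4_773_470, w4_773_471, trivial⟩

theorem v4_774 : VW (PX [468] [467,469,470]) := VW.of base nl_ok fl_ok .nil
  [(471, (.cons 472 473 .nil (.cons 473 472 .nil .nil))), (472, (.cons 471 473 .nil (.cons 473 471 .nil .nil))), (473, (.cons 471 472 .nil (.cons 472 471 .nil .nil)))]
  []
  (by decide +kernel) trivial

theorem w4_775_465 : S (PX [] [465,467,469]) := VW.play 466 (PX [466] [465,467,469]) (by decide +kernel) v4_738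

theorem w4_775_466 : S (PX [] [466,467,469]) := VW.play 465 (PX [465] [466,467,469]) (by decide +kernel) v4_751

theorem w4_775_468 : S (PX [] [467,468,469]) := VW.play 466 (PX [466] [467,468,469]) (by decide +kernel) v4_773

theorem w4_775_470 : S (PX [] [467,469,470]) := VW.play 468 (PX [468] [467,469,470]) (by decide +kernel) v4_774

theorem v4_775 : VW (PX [] [467,469]) := VW.of base nl_ok fl_ok .nil
  [(471, (.cons 468 470 (.cons 465 466 .nil (.cons 466 465 .nil .nil)) (.cons 470 468 (.cons 472 473 .nil (.cons 473 472 .nil .nil)) .nil)))]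
  [([465], (PX [] [465,467,469])), ([466], (PX [] [466,467,469])), ([468], (PX [] [467,468,469])), ([470], (PX [] [467,469,470]))]
  (by decide +kernel) ⟨w4_775_465, w4_775_466, w4_775_468, w4_775_470, trivial⟩

theorem v4_776 : VW (PX [467,472] [468,469,470,471]) := VW.of base nl_ok fl_ok .nil
  []
  []
  (by decide +kernel) trivial

theorem v4_777 : VW (PX [467,471] [468,469,470,472]) := VW.of base nl_ok fl_ok .nil
  []
  []
  (by decide +kernel) trivial

theorem w4_778_471 : S (PX [467] [468,469,470,471]) := VW.play 472 (PX [467,472] [468,469,470,471]) (by decide +kernel) v4_776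

theorem w4_778_472 : S (PX [467] [468,469,470,472]) := VW.play 471 (PX [467,471] [468,469,470,472]) (by decide +kernel) v4_777

theorem v4_778 : VW (PX [467] [468,469,470]) := VW.of base nl_ok fl_ok (.cons 471 472 .nil (.cons 472 471 .nil .nil))
  [(473, (.cons 471 472 .nil (.cons 472 471 .nil .nil))), (474, (.cons 471 472 .nil (.cons 472 471 .nil .nil))), (475, (.cons 471 472 .nil (.cons 472 471 .nil .nil)))]
  [([471], (PX [467] [468,469,470,471])), ([472], (PX [467] [468,469,470,472]))]
  (by decide +kernel) ⟨w4_778_471, w4_778_472, trivial⟩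

theorem v4_783 : VW (PX [470] [468,469,471]) := VW.of base nl_ok fl_ok .nil
  [(465, (.cons 466 467 .nil (.cons 467 466 .nil .nil))), (466, (.cons 465 467 .nil (.cons 467 465 .nil .nil))), (467, (.cons 465 466 .nil (.cons 466 465 .nil .nil)))]
  []
  (by decide +kernel) trivial

theorem w4_784_466 : S (PX [] [466,468,469]) := VW.play 467 (PX [467] [466,468,469]) (by decide +kernel) v4_769

theorem w4_784_467 : S (PX [] [467,468,469]) := VW.play 466 (PX [466] [467,468,469]) (by decide +kernel) v4_773

theorem w4_784_470 : S (PX [] [468,469,470]) := VW.play 467 (PX [467] [468,469,470]) (by decide +kernel) v4_778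

theorem w4_784_471 : S (PX [] [468,469,471]) := VW.play 470 (PX [470] [468,469,471]) (by decide +kernel) v4_783

theorem v4_784 : VW (PX [] [468,469]) := VW.of base nl_ok fl_ok .nil
  [(465, (.cons 466 467 .nil (.cons 467 466 (.cons 470 471 .nil (.cons 471 470 .nil .nil)) .nil))), (472, (.cons 470 471 (.cons 466 467 .nil (.cons 467 466 .nil .nil)) (.cons 471 470 .nil .nil)))]
  [([466], (PX [] [466,468,469])), ([467], (PX [] [467,468,469])), ([470], (PX [] [468,469,470])), ([471], (PX [] [468,469,471]))]
  (by decide +kernel) ⟨w4_784_466, w4_784_467, w4_784_470, w4_784_471, trivial⟩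

theorem v4_785 : VW (PX [468,472] [467,469,470,471]) := VW.of base nl_ok fl_ok .nil
  []
  []
  (by decide +kernel) trivial

theorem w4_786_467 : S (PX [472] [467,469,470,471]) := VW.play 468 (PX [468,472] [467,469,470,471]) (by decide +kernel) v4_785

theorem w4_786_468 : S (PX [472] [468,469,470,471]) := VW.play 467 (PX [467,472] [468,469,470,471]) (by decide +kernel) v4_776

theorem v4_786 : VW (PX [472] [469,470,471]) := VW.of base nl_ok fl_ok (.cons 467 468 .nil (.cons 468 467 .nil .nil))
  [(464, (.cons 467 468 .nil (.cons 468 467 .nil .nil))), (465, (.cons 467 468 .nil (.cons 468 467 .nil .nil))), (466, (.cons 467 468 .nil (.cons 468 467 .nil .nil)))]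
  [([467], (PX [472] [467,469,470,471])), ([468], (PX [472] [468,469,470,471]))]
  (by decide +kernel) ⟨w4_786_467, w4_786_468, trivial⟩

theorem v4_787 : VW (PX [471] [469,470,472]) := VW.of base nl_ok fl_ok .nil
  [(466, (.cons 467 468 .nil (.cons 468 467 .nil .nil))), (467, (.cons 466 468 .nil (.cons 468 466 .nil .nil))), (468, (.cons 466 467 .nil (.cons 467 466 .nil .nil)))]
  []
  (by decide +kernel) trivial

theorem w4_801_467 : S (PX [] [467,469,470]) := VW.play 468 (PX [468] [467,469,470]) (by decide +kernel) v4_774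

theorem w4_801_468 : S (PX [] [468,469,470]) := VW.play 467 (PX [467] [468,469,470]) (by decide +kernel) v4_778

theorem w4_801_471 : S (PX [] [469,470,471]) := VW.play 472 (PX [472] [469,470,471]) (by decide +kernel) v4_786

theorem w4_801_472 : S (PX [] [469,470,472]) := VW.play 471 (PX [471] [469,470,472]) (by decide +kernel) v4_787

theorem v4_801 : VW (PX [] [469,470]) := VW.of base nl_ok fl_ok .nil
  [(466, (.cons 467 468 .nil (.cons 468 467 (.cons 471 472 .nil (.cons 472 471 .nil .nil)) .nil))), (473, (.cons 471 472 (.cons 467 468 .nil (.cons 468 467 .nil .nil)) (.cons 472 471 .nil .nil)))]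
  [([467], (PX [] [467,469,470])), ([468], (PX [] [468,469,470])), ([471], (PX [] [469,470,471])), ([472], (PX [] [469,470,472]))]
  (by decide +kernel) ⟨w4_801_467, w4_801_468, w4_801_471, w4_801_472, trivial⟩

theorem v4_802 : VW (PX [470] [469,471,472]) := VW.of base nl_ok fl_ok .nil
  [(473, (.cons 474 475 .nil (.cons 475 474 .nil .nil))), (474, (.cons 473 475 .nil (.cons 475 473 .nil .nil))), (475, (.cons 473 474 .nil (.cons 474 473 .nil .nil)))]
  []
  (by decide +kernel) trivial

theorem w4_805_468 : S (PX [] [468,469,471]) := VW.play 470 (PX [470] [468,469,471]) (by decide +kernel) v4_783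

theorem w4_805_470 : S (PX [] [469,470,471]) := VW.play 472 (PX [472] [469,470,471]) (by decide +kernel) v4_786

theorem w4_805_472 : S (PX [] [469,471,472]) := VW.play 470 (PX [470] [469,471,472]) (by decide +kernel) v4_802

theorem v4_805 : VW (PX [] [469,471]) := VW.of base nl_ok fl_ok .nil
  [(467, (.cons 468 470 (.cons 465 466 .nil (.cons 466 465 .nil .nil)) (.cons 470 468 (.cons 472 473 .nil (.cons 473 472 .nil .nil)) .nil))), (473, (.cons 470 472 (.cons 467 468 .nil (.cons 468 467 .nil .nil)) (.cons 472 470 (.cons 474 475 .nil (.cons 475 474 .nil .nil)) .nil)))]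
  [([468], (PX [] [468,469,471])), ([470], (PX [] [469,470,471])), ([472], (PX [] [469,471,472]))]
  (by decide +kernel) ⟨w4_805_468, w4_805_470, w4_805_472, trivial⟩

theorem w4_806_470 : S (PX [] [469,470,472]) := VW.play 471 (PX [471] [469,470,472]) (by decide +kernel) v4_787

theorem w4_806_471 : S (PX [] [469,471,472]) := VW.play 470 (PX [470] [469,471,472]) (by decide +kernel) v4_802

theorem v4_806 : VW (PX [] [469,472]) := VW.of base nl_ok fl_ok .nil
  [(468, (.cons 470 471 (.cons 466 467 .nil (.cons 467 466 .nil .nil)) (.cons 471 470 .nil .nil))), (473, (.cons 470 471 .nil (.cons 471 470 (.cons 474 475 .nil (.cons 475 474 .nil .nil)) .nil)))]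
  [([470], (PX [] [469,470,472])), ([471], (PX [] [469,471,472]))]
  (by decide +kernel) ⟨w4_806_470, w4_806_471, trivial⟩

theorem v4_807 : VW (PX [] [469,473]) := VW.of base nl_ok fl_ok .nil
  [(470, (.cons 471 472 (.cons 467 468 .nil (.cons 468 467 .nil .nil)) (.cons 472 471 .nil .nil))), (471, (.cons 470 472 (.cons 467 468 .nil (.cons 468 467 .nil .nil)) (.cons 472 470 (.cons 474 475 .nil (.cons 475 474 .nil .nil)) .nil))), (472, (.cons 470 471 .nil (.cons 471 470 (.cons 474 475 .nil (.cons 475 474 .nil .nil)) .nil)))]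
  []
  (by decide +kernel) trivial

theorem v4_808 : VW (PX [438,593] [469,500,531,562]) := VW.of base nl_ok fl_ok .nil
  []
  []
  (by decide +kernel) trivial

theorem v4_809 : VW (PX [438,562] [469,500,531,593]) := VW.of base nl_ok fl_ok .nil
  []
  []
  (by decide +kernel) trivial

theorem w4_810_562 : S (PX [438] [469,500,531,562]) := VW.play 593 (PX [438,593] [469,500,531,562]) (by decide +kernel) v4_808

theorem w4_810_593 : S (PX [438] [469,500,531,593]) := VW.play 562 (PX [438,562] [469,500,531,593]) (by decide +kernel) v4_809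

theorem v4_810 : VW (PX [438] [469,500,531]) := VW.of base nl_ok fl_ok (.cons 562 593 .nil (.cons 593 562 .nil .nil))
  [(624, (.cons 562 593 .nil (.cons 593 562 .nil .nil))), (655, (.cons 562 593 .nil (.cons 593 562 .nil .nil))), (686, (.cons 562 593 .nil (.cons 593 562 .nil .nil)))]
  [([562], (PX [438] [469,500,531,562])), ([593], (PX [438] [469,500,531,593]))]
  (by decide +kernel) ⟨w4_810_562, w4_810_593, trivial⟩

theorem v4_815 : VW (PX [531] [469,500,562]) := VW.of base nl_ok fl_ok .nil
  [(376, (.cons 407 438 .nil (.cons 438 407 .nil .nil))), (407, (.cons 376 438 .nil (.cons 438 376 .nil .nil))), (438, (.cons 376 407 .nil (.cons 407 376 .nil .nil)))]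
  []
  (by decide +kernel) trivial

theorem w4_827_407 : S (PX [] [407,469,500]) := VW.play 438 (PX [438] [407,469,500]) (by decide +kernel) v4_706

theorem w4_827_438 : S (PX [] [438,469,500]) := VW.play 407 (PX [407] [438,469,500]) (by decide +kernel) v4_721

theorem w4_827_531 : S (PX [] [469,500,531]) := VW.play 438 (PX [438] [469,500,531]) (by decide +kernel) v4_810

theorem w4_827_562 : S (PX [] [469,500,562]) := VW.play 531 (PX [531] [469,500,562]) (by decide +kernel) v4_815

theorem v4_827 : VW (PX [] [469,500]) := VW.of base nl_ok fl_ok .nil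
  [(376, (.cons 407 438 .nil (.cons 438 407 (.cons 531 562 .nil (.cons 562 531 .nil .nil)) .nil))), (593, (.cons 531 562 (.cons 407 438 .nil (.cons 438 407 .nil .nil)) (.cons 562 531 .nil .nil)))]
  [([407], (PX [] [407,469,500])), ([438], (PX [] [438,469,500])), ([531], (PX [] [469,500,531])), ([562], (PX [] [469,500,562]))]
  (by decide +kernel) ⟨w4_827_407, w4_827_438, w4_827_531, w4_827_562, trivial⟩

theorem v4_828 : VW (PX [437,597] [469,501,533,565]) := VW.of base nl_ok fl_ok .nil
  []
  []
  (by decide +kernel) trivial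

theorem v4_829 : VW (PX [437,565] [469,501,533,597]) := VW.of base nl_ok fl_ok .nil
  []
  []
  (by decide +kernel) trivial

theorem w4_830_565 : S (PX [437] [469,501,533,565]) := VW.play 597 (PX [437,597] [469,501,533,565]) (by decide +kernel) v4_828

theorem w4_830_597 : S (PX [437] [469,501,533,597]) := VW.play 565 (PX [437,565] [469,501,533,597]) (by decide +kernel) v4_829

theorem v4_830 : VW (PX [437] [469,501,533]) := VW.of base nl_ok fl_ok (.cons 565 597 .nil (.cons 597 565 .nil .nil))
  [(629, (.cons 565 597 .nil (.cons 597 565 .nil .nil))), (661, (.cons 565 597 .nil (.cons 597 565 .nil .nil))), (693, (.cons 565 597 .nil (.cons 597 565 .nil .nil)))]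
  [([565], (PX [437] [469,501,533,565])), ([597], (PX [437] [469,501,533,597]))]
  (by decide +kernel) ⟨w4_830_565, w4_830_597, trivial⟩

theorem v4_835 : VW (PX [533] [469,501,565]) := VW.of base nl_ok fl_ok .nil
  [(373, (.cons 405 437 .nil (.cons 437 405 .nil .nil))), (405, (.cons 373 437 .nil (.cons 437 373 .nil .nil))), (437, (.cons 373 405 .nil (.cons 405 373 .nil .nil)))]
  []
  (by decide +kernel) trivial

theorem w4_847_405 : S (PX [] [405,469,501]) := VW.play 437 (PX [437] [405,469,501]) (by decide +kernel) v4_298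

theorem w4_847_437 : S (PX [] [437,469,501]) := VW.play 405 (PX [405] [437,469,501]) (by decide +kernel) v4_544

theorem w4_847_533 : S (PX [] [469,501,533]) := VW.play 437 (PX [437] [469,501,533]) (by decide +kernel) v4_830

theorem w4_847_565 : S (PX [] [469,501,565]) := VW.play 533 (PX [533] [469,501,565]) (by decide +kernel) v4_835

theorem v4_847 : VW (PX [] [469,501]) := VW.of base nl_ok fl_ok .nil
  [(373, (.cons 405 437 .nil (.cons 437 405 (.cons 533 565 .nil (.cons 565 533 .nil .nil)) .nil))), (597, (.cons 533 565 (.cons 405 437 .nil (.cons 437 405 .nil .nil)) (.cons 565 533 .nil .nil)))]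
  [([405], (PX [] [405,469,501])), ([437], (PX [] [437,469,501])), ([533], (PX [] [469,501,533])), ([565], (PX [] [469,501,565]))]
  (by decide +kernel) ⟨w4_847_405, w4_847_437, w4_847_533, w4_847_565, trivial⟩

theorem v4_848 : VW (PX [436,568] [403,469,502,535]) := VW.of base nl_ok fl_ok .nil
  []
  []
  (by decide +kernel) trivial

theorem w4_849_403 : S (PX [568] [403,469,502,535]) := VW.play 436 (PX [436,568] [403,469,502,535]) (by decide +kernel) v4_848

theorem w4_849_436 : S (PX [568] [436,469,502,535]) := VW.play 403 (PX [403,568] [436,469,502,535]) (by decide +kernel) v4_710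

theorem v4_849 : VW (PX [568] [469,502,535]) := VW.of base nl_ok fl_ok (.cons 403 436 .nil (.cons 436 403 .nil .nil))
  [(304, (.cons 403 436 .nil (.cons 436 403 .nil .nil))), (337, (.cons 403 436 .nil (.cons 436 403 .nil .nil))), (370, (.cons 403 436 .nil (.cons 436 403 .nil .nil)))]
  [([403], (PX [568] [403,469,502,535])), ([436], (PX [568] [436,469,502,535]))]
  (by decide +kernel) ⟨w4_849_403, w4_849_436, trivial⟩

theorem v4_850 : VW (PX [535] [469,502,568]) := VW.of base nl_ok fl_ok .nil
  [(370, (.cons 403 436 .nil (.cons 436 403 .nil .nil))), (403, (.cons 370 436 .nil (.cons 436 370 .nil .nil))), (436, (.cons 370 403 .nil (.cons 403 370 .nil .nil)))]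
  []
  (by decide +kernel) trivial

theorem w4_864_403 : S (PX [] [403,469,502]) := VW.play 436 (PX [436] [403,469,502]) (by decide +kernel) v4_687

theorem w4_864_436 : S (PX [] [436,469,502]) := VW.play 403 (PX [403] [436,469,502]) (by decide +kernel) v4_712

theorem w4_864_535 : S (PX [] [469,502,535]) := VW.play 568 (PX [568] [469,502,535]) (by decide +kernel) v4_849

theorem w4_864_568 : S (PX [] [469,502,568]) := VW.play 535 (PX [535] [469,502,568]) (by decide +kernel) v4_850

theorem v4_864 : VW (PX [] [469,502]) := VW.of base nl_ok fl_ok .nil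
  [(370, (.cons 403 436 .nil (.cons 436 403 (.cons 535 568 .nil (.cons 568 535 .nil .nil)) .nil))), (601, (.cons 535 568 (.cons 403 436 .nil (.cons 436 403 .nil .nil)) (.cons 568 535 .nil .nil)))]
  [([403], (PX [] [403,469,502])), ([436], (PX [] [436,469,502])), ([535], (PX [] [469,502,535])), ([568], (PX [] [469,502,568]))]
  (by decide +kernel) ⟨w4_864_403, w4_864_436, w4_864_535, w4_864_568, trivial⟩

theorem v4_879 : VW (PX [500] [469,531,562]) := VW.of base nl_ok fl_ok .nil
  [(593, (.cons 624 655 .nil (.cons 655 624 .nil .nil))), (624, (.cons 593 655 .nil (.cons 655 593 .nil .nil))), (655, (.cons 593 624 .nil (.cons 624 593 .nil .nil)))]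
  []
  (by decide +kernel) trivial

theorem w4_882_438 : S (PX [] [438,469,531]) := VW.play 500 (PX [500] [438,469,531]) (by decide +kernel) v4_726

theorem w4_882_500 : S (PX [] [469,500,531]) := VW.play 438 (PX [438] [469,500,531]) (by decide +kernel) v4_810

theorem w4_882_562 : S (PX [] [469,531,562]) := VW.play 500 (PX [500] [469,531,562]) (by decide +kernel) v4_879

theorem v4_882 : VW (PX [] [469,531]) := VW.of base nl_ok fl_ok .nil
  [(407, (.cons 438 500 (.cons 345 376 .nil (.cons 376 345 .nil .nil)) (.cons 500 438 (.cons 562 593 .nil (.cons 593 562 .nil .nil)) .nil))), (593, (.cons 500 562 (.cons 407 438 .nil (.cons 438 407 .nil .nil)) (.cons 562 500 (.cons 624 655 .nil (.cons 655 624 .nil .nil)) .nil)))]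
  [([438], (PX [] [438,469,531])), ([500], (PX [] [469,500,531])), ([562], (PX [] [469,531,562]))]
  (by decide +kernel) ⟨w4_882_438, w4_882_500, w4_882_562, trivial⟩

theorem v4_897 : VW (PX [501] [469,533,565]) := VW.of base nl_ok fl_ok .nil
  [(597, (.cons 629 661 .nil (.cons 661 629 .nil .nil))), (629, (.cons 597 661 .nil (.cons 661 597 .nil .nil))), (661, (.cons 597 629 .nil (.cons 629 597 .nil .nil)))]
  []
  (by decide +kernel) trivial

theorem w4_900_437 : S (PX [] [437,469,533]) := VW.play 501 (PX [501] [437,469,533]) (by decide +kernel) v4_549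

theorem w4_900_501 : S (PX [] [469,501,533]) := VW.play 437 (PX [437] [469,501,533]) (by decide +kernel) v4_830

theorem w4_900_565 : S (PX [] [469,533,565]) := VW.play 501 (PX [501] [469,533,565]) (by decide +kernel) v4_897

theorem v4_900 : VW (PX [] [469,533]) := VW.of base nl_ok fl_ok .nil
  [(405, (.cons 437 501 (.cons 341 373 .nil (.cons 373 341 .nil .nil)) (.cons 501 437 (.cons 565 597 .nil (.cons 597 565 .nil .nil)) .nil))), (597, (.cons 501 565 (.cons 405 437 .nil (.cons 437 405 .nil .nil)) (.cons 565 501 (.cons 629 661 .nil (.cons 661 629 .nil .nil)) .nil)))]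
  [([437], (PX [] [437,469,533])), ([501], (PX [] [469,501,533])), ([565], (PX [] [469,533,565]))]
  (by decide +kernel) ⟨w4_900_437, w4_900_501, w4_900_565, trivial⟩

theorem v4_901 : VW (PX [502] [469,535,568]) := VW.of base nl_ok fl_ok .nil
  [(601, (.cons 634 667 .nil (.cons 667 634 .nil .nil))), (634, (.cons 601 667 .nil (.cons 667 601 .nil .nil))), (667, (.cons 601 634 .nil (.cons 634 601 .nil .nil)))]
  []
  (by decide +kernel) trivial

theorem w4_904_436 : S (PX [] [436,469,535]) := VW.play 502 (PX [502] [436,469,535]) (by decide +kernel) v4_717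

theorem w4_904_502 : S (PX [] [469,502,535]) := VW.play 568 (PX [568] [469,502,535]) (by decide +kernel) v4_849

theorem w4_904_568 : S (PX [] [469,535,568]) := VW.play 502 (PX [502] [469,535,568]) (by decide +kernel) v4_901

theorem v4_904 : VW (PX [] [469,535]) := VW.of base nl_ok fl_ok .nil
  [(403, (.cons 436 502 (.cons 337 370 .nil (.cons 370 337 .nil .nil)) (.cons 502 436 (.cons 568 601 .nil (.cons 601 568 .nil .nil)) .nil))), (601, (.cons 502 568 (.cons 403 436 .nil (.cons 436 403 .nil .nil)) (.cons 568 502 (.cons 634 667 .nil (.cons 667 634 .nil .nil)) .nil)))]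
  [([436], (PX [] [436,469,535])), ([502], (PX [] [469,502,535])), ([568], (PX [] [469,535,568]))]
  (by decide +kernel) ⟨w4_904_436, w4_904_502, w4_904_568, trivial⟩

theorem w4_905_500 : S (PX [] [469,500,562]) := VW.play 531 (PX [531] [469,500,562]) (by decide +kernel) v4_815

theorem w4_905_531 : S (PX [] [469,531,562]) := VW.play 500 (PX [500] [469,531,562]) (by decide +kernel) v4_879

theorem v4_905 : VW (PX [] [469,562]) := VW.of base nl_ok fl_ok .nil
  [(438, (.cons 500 531 (.cons 376 407 .nil (.cons 407 376 .nil .nil)) (.cons 531 500 .nil .nil))), (593, (.cons 500 531 .nil (.cons 531 500 (.cons 624 655 .nil (.cons 655 624 .nil .nil)) .nil)))]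
  [([500], (PX [] [469,500,562])), ([531], (PX [] [469,531,562]))]
  (by decide +kernel) ⟨w4_905_500, w4_905_531, trivial⟩

theorem w4_906_501 : S (PX [] [469,501,565]) := VW.play 533 (PX [533] [469,501,565]) (by decide +kernel) v4_835

theorem w4_906_533 : S (PX [] [469,533,565]) := VW.play 501 (PX [501] [469,533,565]) (by decide +kernel) v4_897

theorem v4_906 : VW (PX [] [469,565]) := VW.of base nl_ok fl_ok .nil
  [(437, (.cons 501 533 (.cons 373 405 .nil (.cons 405 373 .nil .nil)) (.cons 533 501 .nil .nil))), (597, (.cons 501 533 .nil (.cons 533 501 (.cons 629 661 .nil (.cons 661 629 .nil .nil)) .nil)))]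
  [([501], (PX [] [469,501,565])), ([533], (PX [] [469,533,565]))]
  (by decide +kernel) ⟨w4_906_501, w4_906_533, trivial⟩

theorem w4_907_502 : S (PX [] [469,502,568]) := VW.play 535 (PX [535] [469,502,568]) (by decide +kernel) v4_850

theorem w4_907_535 : S (PX [] [469,535,568]) := VW.play 502 (PX [502] [469,535,568]) (by decide +kernel) v4_901

theorem v4_907 : VW (PX [] [469,568]) := VW.of base nl_ok fl_ok .nil
  [(436, (.cons 502 535 (.cons 370 403 .nil (.cons 403 370 .nil .nil)) (.cons 535 502 .nil .nil))), (601, (.cons 502 535 .nil (.cons 535 502 (.cons 634 667 .nil (.cons 667 634 .nil .nil)) .nil)))]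
  [([502], (PX [] [469,502,568])), ([535], (PX [] [469,535,568]))]
  (by decide +kernel) ⟨w4_907_502, w4_907_535, trivial⟩

theorem v4_908 : VW (PX [] [469,593]) := VW.of base nl_ok fl_ok .nil
  [(500, (.cons 531 562 (.cons 407 438 .nil (.cons 438 407 .nil .nil)) (.cons 562 531 .nil .nil))), (531, (.cons 500 562 (.cons 407 438 .nil (.cons 438 407 .nil .nil)) (.cons 562 500 (.cons 624 655 .nil (.cons 655 624 .nil .nil)) .nil))), (562, (.cons 500 531 .nil (.cons 531 500 (.cons 624 655 .nil (.cons 655 624 .nil .nil)) .nil)))]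
  []
  (by decide +kernel) trivial

theorem v4_909 : VW (PX [] [469,597]) := VW.of base nl_ok fl_ok .nil
  [(501, (.cons 533 565 (.cons 405 437 .nil (.cons 437 405 .nil .nil)) (.cons 565 533 .nil .nil))), (533, (.cons 501 565 (.cons 405 437 .nil (.cons 437 405 .nil .nil)) (.cons 565 501 (.cons 629 661 .nil (.cons 661 629 .nil .nil)) .nil))), (565, (.cons 501 533 .nil (.cons 533 501 (.cons 629 661 .nil (.cons 661 629 .nil .nil)) .nil)))]
  []
  (by decide +kernel) trivial

theorem v4_910 : VW (PX [] [469,601]) := VW.of base nl_ok fl_ok .nil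
  [(502, (.cons 535 568 (.cons 403 436 .nil (.cons 436 403 .nil .nil)) (.cons 568 535 .nil .nil))), (535, (.cons 502 568 (.cons 403 436 .nil (.cons 436 403 .nil .nil)) (.cons 568 502 (.cons 634 667 .nil (.cons 667 634 .nil .nil)) .nil))), (568, (.cons 502 535 .nil (.cons 535 502 (.cons 634 667 .nil (.cons 667 634 .nil .nil)) .nil)))]
  []
  (by decide +kernel) trivial

theorem r337 : S (Nat.lor X2 (bits [469, 337])) := VW.play 394 (PX [] [337,469]) (by decide +kernel) v4_638

theorem r341 : S (Nat.lor X2 (bits [469, 341])) := VW.play 394 (PX [] [341,469]) (by decide +kernel) v4_639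

theorem r345 : S (Nat.lor X2 (bits [469, 345])) := VW.play 394 (PX [] [345,469]) (by decide +kernel) v4_640

theorem r370 : S (Nat.lor X2 (bits [469, 370])) := VW.play 394 (PX [] [370,469]) (by decide +kernel) v4_662

theorem r373 : S (Nat.lor X2 (bits [469, 373])) := VW.play 394 (PX [] [373,469]) (by decide +kernel) v4_663

theorem r376 : S (Nat.lor X2 (bits [469, 376])) := VW.play 394 (PX [] [376,469]) (by decide +kernel) v4_683

theorem r403 : S (Nat.lor X2 (bits [469, 403])) := VW.play 394 (PX [] [403,469]) (by decide +kernel) v4_688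

theorem r405 : S (Nat.lor X2 (bits [469, 405])) := VW.play 394 (PX [] [405,469]) (by decide +kernel) v4_301

theorem r407 : S (Nat.lor X2 (bits [469, 407])) := VW.play 394 (PX [] [407,469]) (by decide +kernel) v4_709

theorem r436 : S (Nat.lor X2 (bits [469, 436])) := VW.play 394 (PX [] [436,469]) (by decide +kernel) v4_718

theorem r437 : S (Nat.lor X2 (bits [469, 437])) := VW.play 394 (PX [] [437,469]) (by decide +kernel) v4_561

theorem r438 : S (Nat.lor X2 (bits [469, 438])) := VW.play 394 (PX [] [438,469]) (by decide +kernel) v4_727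

theorem r465 : S (Nat.lor X2 (bits [469, 465])) := VW.play 394 (PX [] [465,469]) (by decide +kernel) v4_748

theorem r466 : S (Nat.lor X2 (bits [469, 466])) := VW.play 394 (PX [] [466,469]) (by decide +kernel) v4_770

theorem r467 : S (Nat.lor X2 (bits [469, 467])) := VW.play 394 (PX [] [467,469]) (by decide +kernel) v4_775

theorem r468 : S (Nat.lor X2 (bits [469, 468])) := VW.play 394 (PX [] [468,469]) (by decide +kernel) v4_784

theorem r470 : S (Nat.lor X2 (bits [469, 470])) := VW.play 394 (PX [] [469,470]) (by decide +kernel) v4_801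

theorem r471 : S (Nat.lor X2 (bits [469, 471])) := VW.play 394 (PX [] [469,471]) (by decide +kernel) v4_805

theorem r472 : S (Nat.lor X2 (bits [469, 472])) := VW.play 394 (PX [] [469,472]) (by decide +kernel) v4_806

theorem r473 : S (Nat.lor X2 (bits [469, 473])) := VW.play 394 (PX [] [469,473]) (by decide +kernel) v4_807

theorem r500 : S (Nat.lor X2 (bits [469, 500])) := VW.play 394 (PX [] [469,500]) (by decide +kernel) v4_827

theorem r501 : S (Nat.lor X2 (bits [469, 501])) := VW.play 394 (PX [] [469,501]) (by decide +kernel) v4_847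

theorem r502 : S (Nat.lor X2 (bits [469, 502])) := VW.play 394 (PX [] [469,502]) (by decide +kernel) v4_864

theorem r531 : S (Nat.lor X2 (bits [469, 531])) := VW.play 394 (PX [] [469,531]) (by decide +kernel) v4_882

theorem r533 : S (Nat.lor X2 (bits [469, 533])) := VW.play 394 (PX [] [469,533]) (by decide +kernel) v4_900

theorem r535 : S (Nat.lor X2 (bits [469, 535])) := VW.play 394 (PX [] [469,535]) (by decide +kernel) v4_904

theorem r562 : S (Nat.lor X2 (bits [469, 562])) := VW.play 394 (PX [] [469,562]) (by decide +kernel) v4_905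

theorem r565 : S (Nat.lor X2 (bits [469, 565])) := VW.play 394 (PX [] [469,565]) (by decide +kernel) v4_906

theorem r568 : S (Nat.lor X2 (bits [469, 568])) := VW.play 394 (PX [] [469,568]) (by decide +kernel) v4_907

theorem r593 : S (Nat.lor X2 (bits [469, 593])) := VW.play 394 (PX [] [469,593]) (by decide +kernel) v4_908

theorem r597 : S (Nat.lor X2 (bits [469, 597])) := VW.play 394 (PX [] [469,597]) (by decide +kernel) v4_909

theorem r601 : S (Nat.lor X2 (bits [469, 601])) := VW.play 394 (PX [] [469,601]) (by decide +kernel) v4_910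

theorem all : RT X2 469 (337 :: 341 :: 345 :: 370 :: 373 :: 376 :: 403 :: 405 :: 407 :: 436 :: 437 :: 438 :: 465 :: 466 :: 467 :: 468 :: 470 :: 471 :: 472 :: 473 :: 500 :: 501 :: 502 :: 531 :: 533 :: 535 :: 562 :: 565 :: 568 :: 593 :: 597 :: 601 :: []) := ⟨r337, r341, r345, r370, r373, r376, r403, r405, r407, r436, r437, r438, r465, r466, r467, r468, r470, r471, r472, r473, r500, r501, r502, r531, r533, r535, r562, r565, r568, r593, r597, r601, trivial⟩

end Pool.Agent.H94.Five.Mid.K10_3_0
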