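import Pool.Agent.H94.Five.Mid.Fam

set_option autoImplicit false
set_option linter.all false
set_option maxRecDepth 100000

/-! Second has the cell (10, 4): some of the other stones. -/

namespace Pool.Agent.H94.Five.Mid.K10_4_0

open Pool.Agent.H79.Five Pool.Agent.H10.Five Pool.Agent.H94.Five.M

abbrev nl : List Ent := [n0, n3, n4, n6, n8, n9, n10, n11, n16, n17, n21, n22]

theorem nl_ok : AC XB M0 nl := .cons n0k <| .cons n3k <| .cons n4k <| .cons n6k <| .cons n8k <| .cons n9k <| .cons n10k <| .cons n11k <| .cons n16k <| .cons n17k <| .cons n21k <| .cons n22k <| .nil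

abbrev fl : List Ent := (x5 :: x17 :: x34 :: x35 :: x45 :: x55 :: x61 :: x67 :: x73 :: x77 :: x98 :: x103 :: x122 :: x130 :: x131 :: x136 :: x142 :: x146 :: x161 :: x167 :: x171 :: x174 :: x183 :: x184 :: x185 :: x187 :: x190 :: x200 :: x201 :: x204 :: x208 :: x214 :: x223 :: x243 :: x245 :: x255 :: x258 :: x260 :: x266 :: x269 :: x276 :: x277 :: x284 :: x291 :: x310 :: x313 :: x316 :: x318 :: x322 :: x328 :: x337 :: x341 :: x357 :: x364 :: x371 :: x375 :: x383 :: x390 :: x400 :: x415 :: x420 :: x424 :: x426 :: x427 :: x434 :: x437 :: x444 :: x451 :: x452 :: x455 :: x465 :: x501 :: x518 :: [])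

theorem fl_ok : AC XB M0 fl := .cons x5k <| .cons x17k <| .cons x34k <| .cons x35k <| .cons x45k <| .cons x55k <| .cons x61k <| .cons x67k <| .cons x73k <| .cons x77k <| .cons x98k <| .cons x103k <| .cons x122k <| .cons x130k <| .cons x131k <| .cons x136k <| .cons x142k <| .cons x146k <| .cons x161k <| .cons x167k <| .cons x171k <| .cons x174k <| .cons x183k <| .cons x184k <| .cons x185k <| .cons x187k <| .cons x190k <| .cons x200k <| .cons x201k <| .cons x204k <| .cons x208k <| .cons x214k <| .cons x223k <| .cons x243k <| .cons x245k <| .cons x255k <| .cons x258k <| .cons x260k <| .cons x266k <| .cons x269k <| .cons x276k <| .cons x277k <| .cons x284k <| .cons x291k <| .cons x310k <| .cons x313k <| .cons x316k <| .cons x318k <| .cons x322k <| .cons x328k <| .cons x337k <| .cons x341k <| .cons x357k <| .cons x364k <| .cons x371k <| .cons x375k <| .cons x383k <| .cons x390k <| .cons x400k <| .cons x415k <| .cons x420k <| .cons x424k <| .cons x426k <| .cons x427k <| .cons x434k <| .cons x437k <| .cons x444k <| .cons x451k <|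 .cons x452k <| .cons x455k <| .cons x465k <| .cons x501k <| .cons x518k <| .nil

theorem b4_345 : S (PX [336,435] [270,330,369,402,501]) := S.of (.q 395 (.a 1 [] (.d 393 392 392 393 397)
 (.a 1 [392] (.d 397 393 393 394 398)
 (.a 0 [393,397] (.q 427 (.a 1 [] (.d 331 1323 299 1355 459)
 (.a 1 [299] (.d 459 1355 331 1387 491)
 (.a 0 [331,459] (.q 460 (.a 1 [] (.d 361 2376 328 2409 493)
 (.a 1 [328] (.d 493 2409 361 2442 526)
 (.a 0 [361,493] (.q 365 (.a 1 [] (.d 334 3375 303 3406 458)
 (.a 1 [303] (.d 458 3406 334 3437 489)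
 (.a 0 [334,458] (.q 332 (.a 1 [] (.d 425 3373 301 3404 456)
 (.a 1 [301] (.r 364 1356 428 (.d 366 362 362 363 367))
 .e)))
 .e))))
 .e))))
 .e))))
 .e)))) (by decide +kernel)

theorem b4_348 : S (PX [336,435] [300,303,369,402,501]) := S.of (.q 330 (.a 1 [] (.d 297 2312 264 2345 429)
 (.a 1 [264] (.d 429 2345 297 2378 462)
 (.a 0 [297,429] (.q 425 (.a 1 [] (.d 332 3373 301 3404 456)
 (.a 1 [301] (.d 456 3404 332 3435 487)
 (.a 0 [332,456] (.q 393 (.a 1 [] (.d 395 392 392 393 397)
 (.a 0 [392,395,397] (.q 361 (.a 1 [] (.d 457 1353 329 1385 489)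
 (.a 0 [329,457,489] (.q 362 (.a 1 [] (.d 360 359 359 360 364)
 (.a 1 [359] (.d 364 360 360 361 365)
 (.a 1 [360] (.d 298 1290 266 1322 426)
 .e))))
 .e)))
 .e)))
 .e))))
 .e)))) (by decide +kernel)

theorem b4_349 : S (PX [336,435] [302,303,369,402,501]) := S.of (.q 395 (.a 1 [] (.d 393 392 392 393 397)
 (.a 1 [392] (.d 397 393 393 394 398)
 (.a 0 [393,397] (.q 427 (.a 1 [] (.d 331 1323 299 1355 459)
 (.a 1 [299] (.d 459 1355 331 1387 491)
 (.a 0 [331,459] (.q 429 (.a 1 [] (.d 330 2345 297 2378 462)
 (.a 1 [297] (.d 462 2378 330 2411 495)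
 (.a 0 [330,462] (.q 332 (.a 1 [] (.d 301 3342 270 3373 425)
 (.a 1 [270] (.d 425 3373 301 3404 456)
 (.a 1 [301] (.r 425 3404 456 (.r 428 425 426 (.d 364 1324 300 1356 460)))
 (.a 0 [425] (.q 460 (.a 1 [] (.d 361 2376 328 2409 493)
 (.a 1 [328] (.d 493 2409 361 2442 526)
 (.a 1 [361] (.r 428 1356 364 (.d 430 426 426 427 431))
 .e))))
 .e)))))
 .e))))
 .e))))
 .e)))) (by decide +kernel)

theorem v4_912 : VW (PX [336,435] [270,369,402,501]) := VW.of base nl_ok fl_ok .nil
  []
  [([330], (PX [336,435] [270,330,369,402,501]))]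
  (by decide +kernel) ⟨b4_345, trivial⟩

theorem v4_914 : VW (PX [336,435] [303,369,402,501]) := VW.of base nl_ok fl_ok .nil
  []
  [([300], (PX [336,435] [300,303,369,402,501])), ([302], (PX [336,435] [302,303,369,402,501]))]
  (by decide +kernel) ⟨b4_348, b4_349, trivial⟩

theorem v4_915 : VW (PX [270,435] [336,369,402,501]) := VW.of base nl_ok fl_ok .nil
  []
  []
  (by decide +kernel) trivial

theorem w4_917_270 : S (PX [435] [270,369,402,501]) := VW.play 336 (PX [336,435] [270,369,402,501]) (by decide +kernel) v4_912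

theorem w4_917_303 : S (PX [435] [303,369,402,501]) := VW.play 336 (PX [336,435] [303,369,402,501]) (by decide +kernel) v4_914

theorem w4_917_336 : S (PX [435] [336,369,402,501]) := VW.play 270 (PX [270,435] [336,369,402,501]) (by decide +kernel) v4_915

theorem v4_917 : VW (PX [435] [369,402,501]) := VW.of base nl_ok fl_ok .nil
  []
  [([270], (PX [435] [270,369,402,501])), ([303], (PX [435] [303,369,402,501])), ([336], (PX [435] [336,369,402,501]))]
  (by decide +kernel) ⟨w4_917_270, w4_917_303, w4_917_336, trivial⟩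

theorem v4_925 : VW (PX [402] [369,435,501]) := VW.of base nl_ok fl_ok .nil
  [(468, (.cons 534 567 .nil (.cons 567 534 .nil .nil))), (534, (.cons 468 567 .nil (.cons 567 468 (.cons 600 633 .nil (.cons 633 600 .nil .nil)) .nil))), (567, (.cons 468 534 .nil (.cons 534 468 (.cons 600 633 .nil (.cons 633 600 .nil .nil)) .nil)))]
  []
  (by decide +kernel) trivial

theorem w4_939_402 : S (PX [] [369,402,501]) := VW.play 435 (PX [435] [369,402,501]) (by decide +kernel) v4_917

theorem w4_939_435 : S (PX [] [369,435,501]) := VW.play 402 (PX [402] [369,435,501]) (by decide +kernel) v4_925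

theorem v4_939 : VW (PX [] [369,501]) := VW.of base nl_ok fl_ok .nil
  [(468, (.cons 402 435 .nil (.cons 435 402 (.cons 534 567 .nil (.cons 567 534 .nil .nil)) .nil)))]
  [([402], (PX [] [369,402,501])), ([435], (PX [] [369,435,501]))]
  (by decide +kernel) ⟨w4_939_402, w4_939_435, trivial⟩

theorem v4_940 : VW (PX [] [373,501]) := VW.of base nl_ok fl_ok .nil
  [(405, (.cons 437 469 (.cons 309 341 .nil (.cons 341 309 .nil .nil)) (.cons 469 437 .nil .nil))), (437, (.cons 405 469 (.cons 309 341 .nil (.cons 341 309 .nil .nil)) (.cons 469 405 (.cons 533 565 .nil (.cons 565 533 .nil .nil)) .nil))), (469, (.cons 405 437 .nil (.cons 437 405 (.cons 533 565 .nil (.cons 565 533 .nil .nil)) .nil)))]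
  []
  (by decide +kernel) trivial

theorem v4_941 : VW (PX [] [377,501]) := VW.of base nl_ok fl_ok .nil
  [(408, (.cons 439 470 (.cons 315 346 .nil (.cons 346 315 .nil .nil)) (.cons 470 439 .nil .nil))), (439, (.cons 408 470 (.cons 315 346 .nil (.cons 346 315 .nil .nil)) (.cons 470 408 (.cons 532 563 .nil (.cons 563 532 .nil .nil)) .nil))), (470, (.cons 408 439 .nil (.cons 439 408 (.cons 532 563 .nil (.cons 563 532 .nil .nil)) .nil)))]
  []
  (by decide +kernel) trivial

theorem v4_942 : VW (PX [369,534] [402,435,468,501]) := VW.of base nl_ok fl_ok .nil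
  []
  []
  (by decide +kernel) trivial

theorem v4_943 : VW (PX [369,468] [402,435,501,534]) := VW.of base nl_ok fl_ok .nil
  [(567, (.cons 600 633 .nil (.cons 633 600 .nil .nil))), (600, (.cons 567 633 .nil (.cons 633 567 .nil .nil))), (633, (.cons 567 600 .nil (.cons 600 567 .nil .nil)))]
  []
  (by decide +kernel) trivial

theorem w4_944_468 : S (PX [369] [402,435,468,501]) := VW.play 534 (PX [369,534] [402,435,468,501]) (by decide +kernel) v4_942

theorem w4_944_534 : S (PX [369] [402,435,501,534]) := VW.play 468 (PX [369,468] [402,435,501,534]) (by decide +kernel) v4_943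

theorem v4_944 : VW (PX [369] [402,435,501]) := VW.of base nl_ok fl_ok (.cons 468 534 .nil (.cons 534 468 .nil .nil))
  [(567, (.cons 468 534 .nil (.cons 534 468 (.cons 600 633 .nil (.cons 633 600 .nil .nil)) .nil))), (600, (.cons 468 534 .nil (.cons 534 468 (.cons 567 633 .nil (.cons 633 567 .nil .nil)) .nil))), (633, (.cons 468 534 .nil (.cons 534 468 (.cons 567 600 .nil (.cons 600 567 .nil .nil)) .nil)))]
  [([468], (PX [369] [402,435,468,501])), ([534], (PX [369] [402,435,501,534]))]
  (by decide +kernel) ⟨w4_944_468, w4_944_534, trivial⟩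

theorem v4_964 : VW (PX [435] [402,468,501]) := VW.of base nl_ok fl_ok .nil
  [(534, (.cons 567 600 .nil (.cons 600 567 .nil .nil))), (567, (.cons 534 600 .nil (.cons 600 534 .nil .nil))), (600, (.cons 534 567 .nil (.cons 567 534 .nil .nil)))]
  []
  (by decide +kernel) trivial

theorem w4_965_369 : S (PX [] [369,402,501]) := VW.play 435 (PX [435] [369,402,501]) (by decide +kernel) v4_917

theorem w4_965_435 : S (PX [] [402,435,501]) := VW.play 369 (PX [369] [402,435,501]) (by decide +kernel) v4_944

theorem w4_965_468 : S (PX [] [402,468,501]) := VW.play 435 (PX [435] [402,468,501]) (by decide +kernel) v4_964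

theorem v4_965 : VW (PX [] [402,501]) := VW.of base nl_ok fl_ok .nil
  [(534, (.cons 435 468 .nil (.cons 468 435 (.cons 567 600 .nil (.cons 600 567 .nil .nil)) .nil)))]
  [([369], (PX [] [369,402,501])), ([435], (PX [] [402,435,501])), ([468], (PX [] [402,468,501]))]
  (by decide +kernel) ⟨w4_965_369, w4_965_435, w4_965_468, trivial⟩

theorem v4_248 : VW (PX [469] [405,437,501]) := VW.of base nl_ok fl_ok .nil
  [(309, (.cons 341 373 .nil (.cons 373 341 .nil .nil))), (341, (.cons 309 373 .nil (.cons 373 309 .nil .nil))), (373, (.cons 309 341 .nil (.cons 341 309 .nil .nil)))]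
  []
  (by decide +kernel) trivial

theorem v4_298 : VW (PX [437] [405,469,501]) := VW.of base nl_ok fl_ok .nil
  [(533, (.cons 565 597 .nil (.cons 597 565 .nil .nil))), (565, (.cons 533 597 .nil (.cons 597 533 .nil .nil))), (597, (.cons 533 565 .nil (.cons 565 533 .nil .nil)))]
  []
  (by decide +kernel) trivial

theorem w4_307_437 : S (PX [] [405,437,501]) := VW.play 469 (PX [469] [405,437,501]) (by decide +kernel) v4_248

theorem w4_307_469 : S (PX [] [405,469,501]) := VW.play 437 (PX [437] [405,469,501]) (by decide +kernel) v4_298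

theorem v4_307 : VW (PX [] [405,501]) := VW.of base nl_ok fl_ok .nil
  [(373, (.cons 437 469 (.cons 309 341 .nil (.cons 341 309 .nil .nil)) (.cons 469 437 .nil .nil))), (533, (.cons 437 469 .nil (.cons 469 437 (.cons 565 597 .nil (.cons 597 565 .nil .nil)) .nil)))]
  [([437], (PX [] [405,437,501])), ([469], (PX [] [405,469,501]))]
  (by decide +kernel) ⟨w4_307_437, w4_307_469, trivial⟩

theorem v4_969 : VW (PX [470] [408,439,501]) := VW.of base nl_ok fl_ok .nil
  [(315, (.cons 346 377 .nil (.cons 377 346 .nil .nil))), (346, (.cons 315 377 .nil (.cons 377 315 .nil .nil))), (377, (.cons 315 346 .nil (.cons 346 315 .nil .nil)))]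
  []
  (by decide +kernel) trivial

theorem v4_984 : VW (PX [439] [408,470,501]) := VW.of base nl_ok fl_ok .nil
  [(532, (.cons 563 594 .nil (.cons 594 563 .nil .nil))), (563, (.cons 532 594 .nil (.cons 594 532 .nil .nil))), (594, (.cons 532 563 .nil (.cons 563 532 .nil .nil)))]
  []
  (by decide +kernel) trivial

theorem w4_985_439 : S (PX [] [408,439,501]) := VW.play 470 (PX [470] [408,439,501]) (by decide +kernel) v4_969

theorem w4_985_470 : S (PX [] [408,470,501]) := VW.play 439 (PX [439] [408,470,501]) (by decide +kernel) v4_984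

theorem v4_985 : VW (PX [] [408,501]) := VW.of base nl_ok fl_ok .nil
  [(377, (.cons 439 470 (.cons 315 346 .nil (.cons 346 315 .nil .nil)) (.cons 470 439 .nil .nil))), (532, (.cons 439 470 .nil (.cons 470 439 (.cons 563 594 .nil (.cons 594 563 .nil .nil)) .nil)))]
  [([439], (PX [] [408,439,501])), ([470], (PX [] [408,470,501]))]
  (by decide +kernel) ⟨w4_985_439, w4_985_470, trivial⟩

theorem v4_986 : VW (PX [402,567] [435,468,501,534]) := VW.of base nl_ok fl_ok .nil
  []
  []
  (by decide +kernel) trivial

theorem v4_987 : VW (PX [402,534] [435,468,501,567]) := VW.of base nl_ok fl_ok .nil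
  []
  []
  (by decide +kernel) trivial

theorem w4_988_534 : S (PX [402] [435,468,501,534]) := VW.play 567 (PX [402,567] [435,468,501,534]) (by decide +kernel) v4_986

theorem w4_988_567 : S (PX [402] [435,468,501,567]) := VW.play 534 (PX [402,534] [435,468,501,567]) (by decide +kernel) v4_987

theorem v4_988 : VW (PX [402] [435,468,501]) := VW.of base nl_ok fl_ok (.cons 534 567 .nil (.cons 567 534 .nil .nil))
  [(600, (.cons 534 567 .nil (.cons 567 534 .nil .nil))), (633, (.cons 534 567 .nil (.cons 567 534 .nil .nil))), (666, (.cons 534 567 .nil (.cons 567 534 .nil .nil)))]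
  [([534], (PX [402] [435,468,501,534])), ([567], (PX [402] [435,468,501,567]))]
  (by decide +kernel) ⟨w4_988_534, w4_988_567, trivial⟩

theorem v4_989 : VW (PX [468] [435,501,534]) := VW.of base nl_ok fl_ok .nil
  [(567, (.cons 600 633 .nil (.cons 633 600 .nil .nil))), (600, (.cons 567 633 .nil (.cons 633 567 .nil .nil))), (633, (.cons 567 600 .nil (.cons 600 567 .nil .nil)))]
  []
  (by decide +kernel) trivial

theorem w4_990_369 : S (PX [] [369,435,501]) := VW.play 402 (PX [402] [369,435,501]) (by decide +kernel) v4_925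

theorem w4_990_402 : S (PX [] [402,435,501]) := VW.play 369 (PX [369] [402,435,501]) (by decide +kernel) v4_944

theorem w4_990_468 : S (PX [] [435,468,501]) := VW.play 402 (PX [402] [435,468,501]) (by decide +kernel) v4_988

theorem w4_990_534 : S (PX [] [435,501,534]) := VW.play 468 (PX [468] [435,501,534]) (by decide +kernel) v4_989

theorem v4_990 : VW (PX [] [435,501]) := VW.of base nl_ok fl_ok .nil
  [(567, (.cons 468 534 (.cons 369 402 .nil (.cons 402 369 .nil .nil)) (.cons 534 468 (.cons 600 633 .nil (.cons 633 600 .nil .nil)) .nil)))]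
  [([369], (PX [] [369,435,501])), ([402], (PX [] [402,435,501])), ([468], (PX [] [435,468,501])), ([534], (PX [] [435,501,534]))]
  (by decide +kernel) ⟨w4_990_369, w4_990_402, w4_990_468, w4_990_534, trivial⟩

theorem v4_542 : VW (PX [405,565] [437,469,501,533]) := VW.of base nl_ok fl_ok .nil
  []
  []
  (by decide +kernel) trivial

theorem v4_543 : VW (PX [405,533] [437,469,501,565]) := VW.of base nl_ok fl_ok .nil
  []
  []
  (by decide +kernel) trivial

theorem w4_544_533 : S (PX [405] [437,469,501,533]) := VW.play 565 (PX [405,565] [437,469,501,533]) (by decide +kernel) v4_542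

theorem w4_544_565 : S (PX [405] [437,469,501,565]) := VW.play 533 (PX [405,533] [437,469,501,565]) (by decide +kernel) v4_543

theorem v4_544 : VW (PX [405] [437,469,501]) := VW.of base nl_ok fl_ok (.cons 533 565 .nil (.cons 565 533 .nil .nil))
  [(597, (.cons 533 565 .nil (.cons 565 533 .nil .nil))), (629, (.cons 533 565 .nil (.cons 565 533 .nil .nil))), (661, (.cons 533 565 .nil (.cons 565 533 .nil .nil)))]
  [([533], (PX [405] [437,469,501,533])), ([565], (PX [405] [437,469,501,565]))]
  (by decide +kernel) ⟨w4_544_533, w4_544_565, trivial⟩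

theorem v4_597 : VW (PX [469] [437,501,533]) := VW.of base nl_ok fl_ok .nil
  [(565, (.cons 597 629 .nil (.cons 629 597 .nil .nil))), (597, (.cons 565 629 .nil (.cons 629 565 .nil .nil))), (629, (.cons 565 597 .nil (.cons 597 565 .nil .nil)))]
  []
  (by decide +kernel) trivial

theorem w4_600_405 : S (PX [] [405,437,501]) := VW.play 469 (PX [469] [405,437,501]) (by decide +kernel) v4_248

theorem w4_600_469 : S (PX [] [437,469,501]) := VW.play 405 (PX [405] [437,469,501]) (by decide +kernel) v4_544

theorem w4_600_533 : S (PX [] [437,501,533]) := VW.play 469 (PX [469] [437,501,533]) (by decide +kernel) v4_597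

theorem v4_600 : VW (PX [] [437,501]) := VW.of base nl_ok fl_ok .nil
  [(373, (.cons 405 469 (.cons 309 341 .nil (.cons 341 309 .nil .nil)) (.cons 469 405 (.cons 533 565 .nil (.cons 565 533 .nil .nil)) .nil))), (565, (.cons 469 533 (.cons 373 405 .nil (.cons 405 373 .nil .nil)) (.cons 533 469 (.cons 597 629 .nil (.cons 629 597 .nil .nil)) .nil)))]
  [([405], (PX [] [405,437,501])), ([469], (PX [] [437,469,501])), ([533], (PX [] [437,501,533]))]
  (by decide +kernel) ⟨w4_600_405, w4_600_469, w4_600_533, trivial⟩

theorem v4_991 : VW (PX [408,563] [439,470,501,532]) := VW.of base nl_ok fl_ok .nil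
  []
  []
  (by decide +kernel) trivial

theorem v4_992 : VW (PX [408,532] [439,470,501,563]) := VW.of base nl_ok fl_ok .nil
  []
  []
  (by decide +kernel) trivial

theorem w4_993_532 : S (PX [408] [439,470,501,532]) := VW.play 563 (PX [408,563] [439,470,501,532]) (by decide +kernel) v4_991

theorem w4_993_563 : S (PX [408] [439,470,501,563]) := VW.play 532 (PX [408,532] [439,470,501,563]) (by decide +kernel) v4_992

theorem v4_993 : VW (PX [408] [439,470,501]) := VW.of base nl_ok fl_ok (.cons 532 563 .nil (.cons 563 532 .nil .nil))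
  [(594, (.cons 532 563 .nil (.cons 563 532 .nil .nil))), (625, (.cons 532 563 .nil (.cons 563 532 .nil .nil))), (656, (.cons 532 563 .nil (.cons 563 532 .nil .nil)))]
  [([532], (PX [408] [439,470,501,532])), ([563], (PX [408] [439,470,501,563]))]
  (by decide +kernel) ⟨w4_993_532, w4_993_563, trivial⟩

theorem v4_1008 : VW (PX [470] [439,501,532]) := VW.of base nl_ok fl_ok .nil
  [(563, (.cons 594 625 .nil (.cons 625 594 .nil .nil))), (594, (.cons 563 625 .nil (.cons 625 563 .nil .nil))), (625, (.cons 563 594 .nil (.cons 594 563 .nil .nil)))]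
  []
  (by decide +kernel) trivial

theorem w4_1011_408 : S (PX [] [408,439,501]) := VW.play 470 (PX [470] [408,439,501]) (by decide +kernel) v4_969

theorem w4_1011_470 : S (PX [] [439,470,501]) := VW.play 408 (PX [408] [439,470,501]) (by decide +kernel) v4_993

theorem w4_1011_532 : S (PX [] [439,501,532]) := VW.play 470 (PX [470] [439,501,532]) (by decide +kernel) v4_1008

theorem v4_1011 : VW (PX [] [439,501]) := VW.of base nl_ok fl_ok .nil
  [(377, (.cons 408 470 (.cons 315 346 .nil (.cons 346 315 .nil .nil)) (.cons 470 408 (.cons 532 563 .nil (.cons 563 532 .nil .nil)) .nil))), (563, (.cons 470 532 (.cons 377 408 .nil (.cons 408 377 .nil .nil)) (.cons 532 470 (.cons 594 625 .nil (.cons 625 594 .nil .nil)) .nil)))]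
  [([408], (PX [] [408,439,501])), ([470], (PX [] [439,470,501])), ([532], (PX [] [439,501,532]))]
  (by decide +kernel) ⟨w4_1011_408, w4_1011_470, w4_1011_532, trivial⟩

theorem v4_1012 : VW (PX [435,600] [468,501,534,567]) := VW.of base nl_ok fl_ok .nil
  []
  []
  (by decide +kernel) trivial

theorem v4_1013 : VW (PX [435,567] [468,501,534,600]) := VW.of base nl_ok fl_ok .nil
  []
  []
  (by decide +kernel) trivial

theorem w4_1014_567 : S (PX [435] [468,501,534,567]) := VW.play 600 (PX [435,600] [468,501,534,567]) (by decide +kernel) v4_1012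

theorem w4_1014_600 : S (PX [435] [468,501,534,600]) := VW.play 567 (PX [435,567] [468,501,534,600]) (by decide +kernel) v4_1013

theorem v4_1014 : VW (PX [435] [468,501,534]) := VW.of base nl_ok fl_ok (.cons 567 600 .nil (.cons 600 567 .nil .nil))
  [(633, (.cons 567 600 .nil (.cons 600 567 .nil .nil))), (666, (.cons 567 600 .nil (.cons 600 567 .nil .nil))), (699, (.cons 567 600 .nil (.cons 600 567 .nil .nil)))]
  [([567], (PX [435] [468,501,534,567])), ([600], (PX [435] [468,501,534,600]))]
  (by decide +kernel) ⟨w4_1014_567, w4_1014_600, trivial⟩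

theorem v4_1019 : VW (PX [534] [468,501,567]) := VW.of base nl_ok fl_ok .nil
  [(369, (.cons 402 435 .nil (.cons 435 402 .nil .nil))), (402, (.cons 369 435 .nil (.cons 435 369 .nil .nil))), (435, (.cons 369 402 .nil (.cons 402 369 .nil .nil)))]
  []
  (by decide +kernel) trivial

theorem w4_1020_402 : S (PX [] [402,468,501]) := VW.play 435 (PX [435] [402,468,501]) (by decide +kernel) v4_964

theorem w4_1020_435 : S (PX [] [435,468,501]) := VW.play 402 (PX [402] [435,468,501]) (by decide +kernel) v4_988

theorem w4_1020_534 : S (PX [] [468,501,534]) := VW.play 435 (PX [435] [468,501,534]) (by decide +kernel) v4_1014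

theorem w4_1020_567 : S (PX [] [468,501,567]) := VW.play 534 (PX [534] [468,501,567]) (by decide +kernel) v4_1019

theorem v4_1020 : VW (PX [] [468,501]) := VW.of base nl_ok fl_ok .nil
  [(369, (.cons 402 435 .nil (.cons 435 402 (.cons 534 567 .nil (.cons 567 534 .nil .nil)) .nil))), (600, (.cons 534 567 (.cons 402 435 .nil (.cons 435 402 .nil .nil)) (.cons 567 534 .nil .nil)))]
  [([402], (PX [] [402,468,501])), ([435], (PX [] [435,468,501])), ([534], (PX [] [468,501,534])), ([567], (PX [] [468,501,567]))]
  (by decide +kernel) ⟨w4_1020_402, w4_1020_435, w4_1020_534, w4_1020_567, trivial⟩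

theorem v4_828 : VW (PX [437,597] [469,501,533,565]) := VW.of base nl_ok fl_ok .nil
  []
  []
  (by decide +kernel) trivial

theorem v4_829 : VW (PX [437,565] [469,501,533,597]) := VW.of base nl_ok fl_ok .nil
  []
  []
  (by decide +kernel) trivial

theorem w4_830_565 : S (PX [437] [469,501,533,565]) := VW.play 597 (PX [437,597] [469,501,533,565]) (by decide +kernel) v4_828

theorem w4_830_597 : S (PX [437] [469,501,533,597]) := VW.play 565 (PX [437,565] [469,501,533,597]) (by decide +kernel) v4_829

theorem v4_830 : VW (PX [437] [469,501,533]) := VW.of base nl_ok fl_ok (.cons 565 597 .nil (.cons 597 565 .nil .nil))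
  [(629, (.cons 565 597 .nil (.cons 597 565 .nil .nil))), (661, (.cons 565 597 .nil (.cons 597 565 .nil .nil))), (693, (.cons 565 597 .nil (.cons 597 565 .nil .nil)))]
  [([565], (PX [437] [469,501,533,565])), ([597], (PX [437] [469,501,533,597]))]
  (by decide +kernel) ⟨w4_830_565, w4_830_597, trivial⟩

theorem v4_835 : VW (PX [533] [469,501,565]) := VW.of base nl_ok fl_ok .nil
  [(373, (.cons 405 437 .nil (.cons 437 405 .nil .nil))), (405, (.cons 373 437 .nil (.cons 437 373 .nil .nil))), (437, (.cons 373 405 .nil (.cons 405 373 .nil .nil)))]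
  []
  (by decide +kernel) trivial

theorem w4_847_405 : S (PX [] [405,469,501]) := VW.play 437 (PX [437] [405,469,501]) (by decide +kernel) v4_298

theorem w4_847_437 : S (PX [] [437,469,501]) := VW.play 405 (PX [405] [437,469,501]) (by decide +kernel) v4_544

theorem w4_847_533 : S (PX [] [469,501,533]) := VW.play 437 (PX [437] [469,501,533]) (by decide +kernel) v4_830

theorem w4_847_565 : S (PX [] [469,501,565]) := VW.play 533 (PX [533] [469,501,565]) (by decide +kernel) v4_835

theorem v4_847 : VW (PX [] [469,501]) := VW.of base nl_ok fl_ok .nil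
  [(373, (.cons 405 437 .nil (.cons 437 405 (.cons 533 565 .nil (.cons 565 533 .nil .nil)) .nil))), (597, (.cons 533 565 (.cons 405 437 .nil (.cons 437 405 .nil .nil)) (.cons 565 533 .nil .nil)))]
  [([405], (PX [] [405,469,501])), ([437], (PX [] [437,469,501])), ([533], (PX [] [469,501,533])), ([565], (PX [] [469,501,565]))]
  (by decide +kernel) ⟨w4_847_405, w4_847_437, w4_847_533, w4_847_565, trivial⟩

theorem v4_1021 : VW (PX [439,594] [470,501,532,563]) := VW.of base nl_ok fl_ok .nil
  []
  []
  (by decide +kernel) trivial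

theorem v4_1022 : VW (PX [439,563] [470,501,532,594]) := VW.of base nl_ok fl_ok .nil
  []
  []
  (by decide +kernel) trivial

theorem w4_1023_563 : S (PX [439] [470,501,532,563]) := VW.play 594 (PX [439,594] [470,501,532,563]) (by decide +kernel) v4_1021

theorem w4_1023_594 : S (PX [439] [470,501,532,594]) := VW.play 563 (PX [439,563] [470,501,532,594]) (by decide +kernel) v4_1022

theorem v4_1023 : VW (PX [439] [470,501,532]) := VW.of base nl_ok fl_ok (.cons 563 594 .nil (.cons 594 563 .nil .nil))
  [(625, (.cons 563 594 .nil (.cons 594 563 .nil .nil))), (656, (.cons 563 594 .nil (.cons 594 563 .nil .nil))), (687, (.cons 563 594 .nil (.cons 594 563 .nil .nil)))]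
  [([563], (PX [439] [470,501,532,563])), ([594], (PX [439] [470,501,532,594]))]
  (by decide +kernel) ⟨w4_1023_563, w4_1023_594, trivial⟩

theorem v4_1028 : VW (PX [532] [470,501,563]) := VW.of base nl_ok fl_ok .nil
  [(377, (.cons 408 439 .nil (.cons 439 408 .nil .nil))), (408, (.cons 377 439 .nil (.cons 439 377 .nil .nil))), (439, (.cons 377 408 .nil (.cons 408 377 .nil .nil)))]
  []
  (by decide +kernel) trivial

theorem w4_1029_408 : S (PX [] [408,470,501]) := VW.play 439 (PX [439] [408,470,501]) (by decide +kernel) v4_984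

theorem w4_1029_439 : S (PX [] [439,470,501]) := VW.play 408 (PX [408] [439,470,501]) (by decide +kernel) v4_993

theorem w4_1029_532 : S (PX [] [470,501,532]) := VW.play 439 (PX [439] [470,501,532]) (by decide +kernel) v4_1023

theorem w4_1029_563 : S (PX [] [470,501,563]) := VW.play 532 (PX [532] [470,501,563]) (by decide +kernel) v4_1028

theorem v4_1029 : VW (PX [] [470,501]) := VW.of base nl_ok fl_ok .nil
  [(377, (.cons 408 439 .nil (.cons 439 408 (.cons 532 563 .nil (.cons 563 532 .nil .nil)) .nil))), (594, (.cons 532 563 (.cons 408 439 .nil (.cons 439 408 .nil .nil)) (.cons 563 532 .nil .nil)))]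
  [([408], (PX [] [408,470,501])), ([439], (PX [] [439,470,501])), ([532], (PX [] [470,501,532])), ([563], (PX [] [470,501,563]))]
  (by decide +kernel) ⟨w4_1029_408, w4_1029_439, w4_1029_532, w4_1029_563, trivial⟩

theorem v4_1030 : VW (PX [] [497,501]) := VW.of base nl_ok fl_ok .nil
  [(498, (.cons 499 500 (.cons 495 496 .nil (.cons 496 495 .nil .nil)) (.cons 500 499 .nil .nil))), (499, (.cons 498 500 (.cons 495 496 .nil (.cons 496 495 .nil .nil)) (.cons 500 498 (.cons 502 503 .nil (.cons 503 502 .nil .nil)) .nil))), (500, (.cons 498 499 .nil (.cons 499 498 (.cons 502 503 .nil (.cons 503 502 .nil .nil)) .nil)))]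
  []
  (by decide +kernel) trivial

theorem v4_1034 : VW (PX [496,500] [495,498,499,501]) := VW.of base nl_ok fl_ok .nil
  []
  []
  (by decide +kernel) trivial

theorem w4_1036_495 : S (PX [500] [495,498,499,501]) := VW.play 496 (PX [496,500] [495,498,499,501]) (by decide +kernel) v4_1034

theorem v4_1036 : VW (PX [500] [498,499,501]) := VW.of base nl_ok fl_ok .nil
  [(496, (.cons 495 497 .nil (.cons 497 495 .nil .nil))), (497, (.cons 495 496 .nil (.cons 496 495 .nil .nil)))]
  [([495], (PX [500] [495,498,499,501]))]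
  (by decide +kernel) ⟨w4_1036_495, trivial⟩

theorem v4_1051 : VW (PX [499] [498,500,501]) := VW.of base nl_ok fl_ok .nil
  [(502, (.cons 503 504 .nil (.cons 504 503 .nil .nil))), (503, (.cons 502 504 .nil (.cons 504 502 .nil .nil))), (504, (.cons 502 503 .nil (.cons 503 502 .nil .nil)))]
  []
  (by decide +kernel) trivial

theorem w4_1052_499 : S (PX [] [498,499,501]) := VW.play 500 (PX [500] [498,499,501]) (by decide +kernel) v4_1036

theorem w4_1052_500 : S (PX [] [498,500,501]) := VW.play 499 (PX [499] [498,500,501]) (by decide +kernel) v4_1051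

theorem v4_1052 : VW (PX [] [498,501]) := VW.of base nl_ok fl_ok .nil
  [(497, (.cons 499 500 (.cons 495 496 .nil (.cons 496 495 .nil .nil)) (.cons 500 499 .nil .nil))), (502, (.cons 499 500 .nil (.cons 500 499 (.cons 503 504 .nil (.cons 504 503 .nil .nil)) .nil)))]
  [([499], (PX [] [498,499,501])), ([500], (PX [] [498,500,501]))]
  (by decide +kernel) ⟨w4_1052_499, w4_1052_500, trivial⟩

theorem v4_1053 : VW (PX [498,503] [499,500,501,502]) := VW.of base nl_ok fl_ok .nil
  []
  []
  (by decide +kernel) trivial

theorem v4_1054 : VW (PX [498,502] [499,500,501,503]) := VW.of base nl_ok fl_ok .nil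
  []
  []
  (by decide +kernel) trivial

theorem w4_1055_502 : S (PX [498] [499,500,501,502]) := VW.play 503 (PX [498,503] [499,500,501,502]) (by decide +kernel) v4_1053

theorem w4_1055_503 : S (PX [498] [499,500,501,503]) := VW.play 502 (PX [498,502] [499,500,501,503]) (by decide +kernel) v4_1054

theorem v4_1055 : VW (PX [498] [499,500,501]) := VW.of base nl_ok fl_ok (.cons 502 503 .nil (.cons 503 502 .nil .nil))
  [(504, (.cons 502 503 .nil (.cons 503 502 .nil .nil))), (505, (.cons 502 503 .nil (.cons 503 502 .nil .nil))), (506, (.cons 502 503 .nil (.cons 503 502 .nil .nil)))]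
  [([502], (PX [498] [499,500,501,502])), ([503], (PX [498] [499,500,501,503]))]
  (by decide +kernel) ⟨w4_1055_502, w4_1055_503, trivial⟩

theorem v4_1056 : VW (PX [500] [499,501,502]) := VW.of base nl_ok fl_ok .nil
  [(503, (.cons 504 505 .nil (.cons 505 504 .nil .nil))), (504, (.cons 503 505 .nil (.cons 505 503 .nil .nil))), (505, (.cons 503 504 .nil (.cons 504 503 .nil .nil)))]
  []
  (by decide +kernel) trivial

theorem w4_1057_498 : S (PX [] [498,499,501]) := VW.play 500 (PX [500] [498,499,501]) (by decide +kernel) v4_1036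

theorem w4_1057_500 : S (PX [] [499,500,501]) := VW.play 498 (PX [498] [499,500,501]) (by decide +kernel) v4_1055

theorem w4_1057_502 : S (PX [] [499,501,502]) := VW.play 500 (PX [500] [499,501,502]) (by decide +kernel) v4_1056

theorem v4_1057 : VW (PX [] [499,501]) := VW.of base nl_ok fl_ok .nil
  [(497, (.cons 498 500 (.cons 495 496 .nil (.cons 496 495 .nil .nil)) (.cons 500 498 (.cons 502 503 .nil (.cons 503 502 .nil .nil)) .nil))), (503, (.cons 500 502 (.cons 497 498 .nil (.cons 498 497 .nil .nil)) (.cons 502 500 (.cons 504 505 .nil (.cons 505 504 .nil .nil)) .nil)))]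
  [([498], (PX [] [498,499,501])), ([500], (PX [] [499,500,501])), ([502], (PX [] [499,501,502]))]
  (by decide +kernel) ⟨w4_1057_498, w4_1057_500, w4_1057_502, trivial⟩

theorem v4_1058 : VW (PX [499,504] [500,501,502,503]) := VW.of base nl_ok fl_ok .nil
  []
  []
  (by decide +kernel) trivial

theorem v4_1059 : VW (PX [499,503] [500,501,502,504]) := VW.of base nl_ok fl_ok .nil
  []
  []
  (by decide +kernel) trivial

theorem w4_1060_503 : S (PX [499] [500,501,502,503]) := VW.play 504 (PX [499,504] [500,501,502,503]) (by decide +kernel) v4_1058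

theorem w4_1060_504 : S (PX [499] [500,501,502,504]) := VW.play 503 (PX [499,503] [500,501,502,504]) (by decide +kernel) v4_1059

theorem v4_1060 : VW (PX [499] [500,501,502]) := VW.of base nl_ok fl_ok (.cons 503 504 .nil (.cons 504 503 .nil .nil))
  [(505, (.cons 503 504 .nil (.cons 504 503 .nil .nil))), (506, (.cons 503 504 .nil (.cons 504 503 .nil .nil))), (507, (.cons 503 504 .nil (.cons 504 503 .nil .nil)))]
  [([503], (PX [499] [500,501,502,503])), ([504], (PX [499] [500,501,502,504]))]
  (by decide +kernel) ⟨w4_1060_503, w4_1060_504, trivial⟩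

theorem v4_1065 : VW (PX [502] [500,501,503]) := VW.of base nl_ok fl_ok .nil
  [(497, (.cons 498 499 .nil (.cons 499 498 .nil .nil))), (498, (.cons 497 499 .nil (.cons 499 497 .nil .nil))), (499, (.cons 497 498 .nil (.cons 498 497 .nil .nil)))]
  []
  (by decide +kernel) trivial

theorem w4_1066_498 : S (PX [] [498,500,501]) := VW.play 499 (PX [499] [498,500,501]) (by decide +kernel) v4_1051

theorem w4_1066_499 : S (PX [] [499,500,501]) := VW.play 498 (PX [498] [499,500,501]) (by decide +kernel) v4_1055

theorem w4_1066_502 : S (PX [] [500,501,502]) := VW.play 499 (PX [499] [500,501,502]) (by decide +kernel) v4_1060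

theorem w4_1066_503 : S (PX [] [500,501,503]) := VW.play 502 (PX [502] [500,501,503]) (by decide +kernel) v4_1065

theorem v4_1066 : VW (PX [] [500,501]) := VW.of base nl_ok fl_ok .nil
  [(497, (.cons 498 499 .nil (.cons 499 498 (.cons 502 503 .nil (.cons 503 502 .nil .nil)) .nil))), (504, (.cons 502 503 (.cons 498 499 .nil (.cons 499 498 .nil .nil)) (.cons 503 502 .nil .nil)))]
  [([498], (PX [] [498,500,501])), ([499], (PX [] [499,500,501])), ([502], (PX [] [500,501,502])), ([503], (PX [] [500,501,503]))]
  (by decide +kernel) ⟨w4_1066_498, w4_1066_499, w4_1066_502, w4_1066_503, trivial⟩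

theorem v4_1067 : VW (PX [500,504] [499,501,502,503]) := VW.of base nl_ok fl_ok .nil
  []
  []
  (by decide +kernel) trivial

theorem w4_1068_499 : S (PX [504] [499,501,502,503]) := VW.play 500 (PX [500,504] [499,501,502,503]) (by decide +kernel) v4_1067

theorem w4_1068_500 : S (PX [504] [500,501,502,503]) := VW.play 499 (PX [499,504] [500,501,502,503]) (by decide +kernel) v4_1058

theorem v4_1068 : VW (PX [504] [501,502,503]) := VW.of base nl_ok fl_ok (.cons 499 500 .nil (.cons 500 499 .nil .nil))
  [(496, (.cons 499 500 .nil (.cons 500 499 .nil .nil))), (497, (.cons 499 500 .nil (.cons 500 499 .nil .nil))), (498, (.cons 499 500 .nil (.cons 500 499 .nil .nil)))]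
  [([499], (PX [504] [499,501,502,503])), ([500], (PX [504] [500,501,502,503]))]
  (by decide +kernel) ⟨w4_1068_499, w4_1068_500, trivial⟩

theorem v4_1069 : VW (PX [503] [501,502,504]) := VW.of base nl_ok fl_ok .nil
  [(498, (.cons 499 500 .nil (.cons 500 499 .nil .nil))), (499, (.cons 498 500 .nil (.cons 500 498 .nil .nil))), (500, (.cons 498 499 .nil (.cons 499 498 .nil .nil)))]
  []
  (by decide +kernel) trivial

theorem w4_1083_499 : S (PX [] [499,501,502]) := VW.play 500 (PX [500] [499,501,502]) (by decide +kernel) v4_1056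

theorem w4_1083_500 : S (PX [] [500,501,502]) := VW.play 499 (PX [499] [500,501,502]) (by decide +kernel) v4_1060

theorem w4_1083_503 : S (PX [] [501,502,503]) := VW.play 504 (PX [504] [501,502,503]) (by decide +kernel) v4_1068

theorem w4_1083_504 : S (PX [] [501,502,504]) := VW.play 503 (PX [503] [501,502,504]) (by decide +kernel) v4_1069

theorem v4_1083 : VW (PX [] [501,502]) := VW.of base nl_ok fl_ok .nil
  [(498, (.cons 499 500 .nil (.cons 500 499 (.cons 503 504 .nil (.cons 504 503 .nil .nil)) .nil))), (505, (.cons 503 504 (.cons 499 500 .nil (.cons 500 499 .nil .nil)) (.cons 504 503 .nil .nil)))]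
  [([499], (PX [] [499,501,502])), ([500], (PX [] [500,501,502])), ([503], (PX [] [501,502,503])), ([504], (PX [] [501,502,504]))]
  (by decide +kernel) ⟨w4_1083_499, w4_1083_500, w4_1083_503, w4_1083_504, trivial⟩

theorem v4_1084 : VW (PX [502] [501,503,504]) := VW.of base nl_ok fl_ok .nil
  [(505, (.cons 506 507 .nil (.cons 507 506 .nil .nil))), (506, (.cons 505 507 .nil (.cons 507 505 .nil .nil))), (507, (.cons 505 506 .nil (.cons 506 505 .nil .nil)))]
  []
  (by decide +kernel) trivial

theorem w4_1087_500 : S (PX [] [500,501,503]) := VW.play 502 (PX [502] [500,501,503]) (by decide +kernel) v4_1065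

theorem w4_1087_502 : S (PX [] [501,502,503]) := VW.play 504 (PX [504] [501,502,503]) (by decide +kernel) v4_1068

theorem w4_1087_504 : S (PX [] [501,503,504]) := VW.play 502 (PX [502] [501,503,504]) (by decide +kernel) v4_1084

theorem v4_1087 : VW (PX [] [501,503]) := VW.of base nl_ok fl_ok .nil
  [(499, (.cons 500 502 (.cons 497 498 .nil (.cons 498 497 .nil .nil)) (.cons 502 500 (.cons 504 505 .nil (.cons 505 504 .nil .nil)) .nil))), (505, (.cons 502 504 (.cons 499 500 .nil (.cons 500 499 .nil .nil)) (.cons 504 502 (.cons 506 507 .nil (.cons 507 506 .nil .nil)) .nil)))]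
  [([500], (PX [] [500,501,503])), ([502], (PX [] [501,502,503])), ([504], (PX [] [501,503,504]))]
  (by decide +kernel) ⟨w4_1087_500, w4_1087_502, w4_1087_504, trivial⟩

theorem w4_1088_502 : S (PX [] [501,502,504]) := VW.play 503 (PX [503] [501,502,504]) (by decide +kernel) v4_1069

theorem w4_1088_503 : S (PX [] [501,503,504]) := VW.play 502 (PX [502] [501,503,504]) (by decide +kernel) v4_1084

theorem v4_1088 : VW (PX [] [501,504]) := VW.of base nl_ok fl_ok .nil
  [(500, (.cons 502 503 (.cons 498 499 .nil (.cons 499 498 .nil .nil)) (.cons 503 502 .nil .nil))), (505, (.cons 502 503 .nil (.cons 503 502 (.cons 506 507 .nil (.cons 507 506 .nil .nil)) .nil)))]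
  [([502], (PX [] [501,502,504])), ([503], (PX [] [501,503,504]))]
  (by decide +kernel) ⟨w4_1088_502, w4_1088_503, trivial⟩

theorem v4_1089 : VW (PX [] [501,505]) := VW.of base nl_ok fl_ok .nil
  [(502, (.cons 503 504 (.cons 499 500 .nil (.cons 500 499 .nil .nil)) (.cons 504 503 .nil .nil))), (503, (.cons 502 504 (.cons 499 500 .nil (.cons 500 499 .nil .nil)) (.cons 504 502 (.cons 506 507 .nil (.cons 507 506 .nil .nil)) .nil))), (504, (.cons 502 503 .nil (.cons 503 502 (.cons 506 507 .nil (.cons 507 506 .nil .nil)) .nil)))]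
  []
  (by decide +kernel) trivial

theorem v4_1090 : VW (PX [470,625] [501,532,563,594]) := VW.of base nl_ok fl_ok .nil
  []
  []
  (by decide +kernel) trivial

theorem v4_1091 : VW (PX [470,594] [501,532,563,625]) := VW.of base nl_ok fl_ok .nil
  []
  []
  (by decide +kernel) trivial

theorem w4_1092_594 : S (PX [470] [501,532,563,594]) := VW.play 625 (PX [470,625] [501,532,563,594]) (by decide +kernel) v4_1090

theorem w4_1092_625 : S (PX [470] [501,532,563,625]) := VW.play 594 (PX [470,594] [501,532,563,625]) (by decide +kernel) v4_1091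

theorem v4_1092 : VW (PX [470] [501,532,563]) := VW.of base nl_ok fl_ok (.cons 594 625 .nil (.cons 625 594 .nil .nil))
  [(656, (.cons 594 625 .nil (.cons 625 594 .nil .nil))), (687, (.cons 594 625 .nil (.cons 625 594 .nil .nil))), (718, (.cons 594 625 .nil (.cons 625 594 .nil .nil)))]
  [([594], (PX [470] [501,532,563,594])), ([625], (PX [470] [501,532,563,625]))]
  (by decide +kernel) ⟨w4_1092_594, w4_1092_625, trivial⟩

theorem v4_1097 : VW (PX [563] [501,532,594]) := VW.of base nl_ok fl_ok .nil
  [(408, (.cons 439 470 .nil (.cons 470 439 .nil .nil))), (439, (.cons 408 470 .nil (.cons 470 408 .nil .nil))), (470, (.cons 408 439 .nil (.cons 439 408 .nil .nil)))]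
  []
  (by decide +kernel) trivial

theorem w4_1109_439 : S (PX [] [439,501,532]) := VW.play 470 (PX [470] [439,501,532]) (by decide +kernel) v4_1008

theorem w4_1109_470 : S (PX [] [470,501,532]) := VW.play 439 (PX [439] [470,501,532]) (by decide +kernel) v4_1023

theorem w4_1109_563 : S (PX [] [501,532,563]) := VW.play 470 (PX [470] [501,532,563]) (by decide +kernel) v4_1092

theorem w4_1109_594 : S (PX [] [501,532,594]) := VW.play 563 (PX [563] [501,532,594]) (by decide +kernel) v4_1097

theorem v4_1109 : VW (PX [] [501,532]) := VW.of base nl_ok fl_ok .nil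
  [(408, (.cons 439 470 .nil (.cons 470 439 (.cons 563 594 .nil (.cons 594 563 .nil .nil)) .nil))), (625, (.cons 563 594 (.cons 439 470 .nil (.cons 470 439 .nil .nil)) (.cons 594 563 .nil .nil)))]
  [([439], (PX [] [439,501,532])), ([470], (PX [] [470,501,532])), ([563], (PX [] [501,532,563])), ([594], (PX [] [501,532,594]))]
  (by decide +kernel) ⟨w4_1109_439, w4_1109_470, w4_1109_563, w4_1109_594, trivial⟩

theorem v4_1110 : VW (PX [469,629] [501,533,565,597]) := VW.of base nl_ok fl_ok .nil
  []
  []
  (by decide +kernel) trivial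

theorem v4_1111 : VW (PX [469,597] [501,533,565,629]) := VW.of base nl_ok fl_ok .nil
  []
  []
  (by decide +kernel) trivial

theorem w4_1112_597 : S (PX [469] [501,533,565,597]) := VW.play 629 (PX [469,629] [501,533,565,597]) (by decide +kernel) v4_1110

theorem w4_1112_629 : S (PX [469] [501,533,565,629]) := VW.play 597 (PX [469,597] [501,533,565,629]) (by decide +kernel) v4_1111

theorem v4_1112 : VW (PX [469] [501,533,565]) := VW.of base nl_ok fl_ok (.cons 597 629 .nil (.cons 629 597 .nil .nil))
  [(661, (.cons 597 629 .nil (.cons 629 597 .nil .nil))), (693, (.cons 597 629 .nil (.cons 629 597 .nil .nil))), (725, (.cons 597 629 .nil (.cons 629 597 .nil .nil)))]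
  [([597], (PX [469] [501,533,565,597])), ([629], (PX [469] [501,533,565,629]))]
  (by decide +kernel) ⟨w4_1112_597, w4_1112_629, trivial⟩

theorem v4_1117 : VW (PX [565] [501,533,597]) := VW.of base nl_ok fl_ok .nil
  [(405, (.cons 437 469 .nil (.cons 469 437 .nil .nil))), (437, (.cons 405 469 .nil (.cons 469 405 .nil .nil))), (469, (.cons 405 437 .nil (.cons 437 405 .nil .nil)))]
  []
  (by decide +kernel) trivial

theorem w4_1129_437 : S (PX [] [437,501,533]) := VW.play 469 (PX [469] [437,501,533]) (by decide +kernel) v4_597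

theorem w4_1129_469 : S (PX [] [469,501,533]) := VW.play 437 (PX [437] [469,501,533]) (by decide +kernel) v4_830

theorem w4_1129_565 : S (PX [] [501,533,565]) := VW.play 469 (PX [469] [501,533,565]) (by decide +kernel) v4_1112

theorem w4_1129_597 : S (PX [] [501,533,597]) := VW.play 565 (PX [565] [501,533,597]) (by decide +kernel) v4_1117

theorem v4_1129 : VW (PX [] [501,533]) := VW.of base nl_ok fl_ok .nil
  [(405, (.cons 437 469 .nil (.cons 469 437 (.cons 565 597 .nil (.cons 597 565 .nil .nil)) .nil))), (629, (.cons 565 597 (.cons 437 469 .nil (.cons 469 437 .nil .nil)) (.cons 597 565 .nil .nil)))]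
  [([437], (PX [] [437,501,533])), ([469], (PX [] [469,501,533])), ([565], (PX [] [501,533,565])), ([597], (PX [] [501,533,597]))]
  (by decide +kernel) ⟨w4_1129_437, w4_1129_469, w4_1129_565, w4_1129_597, trivial⟩

theorem v4_1130 : VW (PX [468,600] [435,501,534,567]) := VW.of base nl_ok fl_ok .nil
  []
  []
  (by decide +kernel) trivial

theorem w4_1131_435 : S (PX [600] [435,501,534,567]) := VW.play 468 (PX [468,600] [435,501,534,567]) (by decide +kernel) v4_1130

theorem w4_1131_468 : S (PX [600] [468,501,534,567]) := VW.play 435 (PX [435,600] [468,501,534,567]) (by decide +kernel) v4_1012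

theorem v4_1131 : VW (PX [600] [501,534,567]) := VW.of base nl_ok fl_ok (.cons 435 468 .nil (.cons 468 435 .nil .nil))
  [(336, (.cons 435 468 .nil (.cons 468 435 .nil .nil))), (369, (.cons 435 468 .nil (.cons 468 435 .nil .nil))), (402, (.cons 435 468 .nil (.cons 468 435 .nil .nil)))]
  [([435], (PX [600] [435,501,534,567])), ([468], (PX [600] [468,501,534,567]))]
  (by decide +kernel) ⟨w4_1131_435, w4_1131_468, trivial⟩

theorem v4_1132 : VW (PX [567] [501,534,600]) := VW.of base nl_ok fl_ok .nil
  [(402, (.cons 435 468 .nil (.cons 468 435 .nil .nil))), (435, (.cons 402 468 .nil (.cons 468 402 .nil .nil))), (468, (.cons 402 435 .nil (.cons 435 402 .nil .nil)))]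
  []
  (by decide +kernel) trivial

theorem w4_1146_435 : S (PX [] [435,501,534]) := VW.play 468 (PX [468] [435,501,534]) (by decide +kernel) v4_989

theorem w4_1146_468 : S (PX [] [468,501,534]) := VW.play 435 (PX [435] [468,501,534]) (by decide +kernel) v4_1014

theorem w4_1146_567 : S (PX [] [501,534,567]) := VW.play 600 (PX [600] [501,534,567]) (by decide +kernel) v4_1131

theorem w4_1146_600 : S (PX [] [501,534,600]) := VW.play 567 (PX [567] [501,534,600]) (by decide +kernel) v4_1132

theorem v4_1146 : VW (PX [] [501,534]) := VW.of base nl_ok fl_ok .nil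
  [(402, (.cons 435 468 .nil (.cons 468 435 (.cons 567 600 .nil (.cons 600 567 .nil .nil)) .nil))), (633, (.cons 567 600 (.cons 435 468 .nil (.cons 468 435 .nil .nil)) (.cons 600 567 .nil .nil)))]
  [([435], (PX [] [435,501,534])), ([468], (PX [] [468,501,534])), ([567], (PX [] [501,534,567])), ([600], (PX [] [501,534,600]))]
  (by decide +kernel) ⟨w4_1146_435, w4_1146_468, w4_1146_567, w4_1146_600, trivial⟩

theorem v4_1161 : VW (PX [532] [501,563,594]) := VW.of base nl_ok fl_ok .nil
  [(625, (.cons 656 687 .nil (.cons 687 656 .nil .nil))), (656, (.cons 625 687 .nil (.cons 687 625 .nil .nil))), (687, (.cons 625 656 .nil (.cons 656 625 .nil .nil)))]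
  []
  (by decide +kernel) trivial

theorem w4_1164_470 : S (PX [] [470,501,563]) := VW.play 532 (PX [532] [470,501,563]) (by decide +kernel) v4_1028

theorem w4_1164_532 : S (PX [] [501,532,563]) := VW.play 470 (PX [470] [501,532,563]) (by decide +kernel) v4_1092

theorem w4_1164_594 : S (PX [] [501,563,594]) := VW.play 532 (PX [532] [501,563,594]) (by decide +kernel) v4_1161

theorem v4_1164 : VW (PX [] [501,563]) := VW.of base nl_ok fl_ok .nil
  [(439, (.cons 470 532 (.cons 377 408 .nil (.cons 408 377 .nil .nil)) (.cons 532 470 (.cons 594 625 .nil (.cons 625 594 .nil .nil)) .nil))), (625, (.cons 532 594 (.cons 439 470 .nil (.cons 470 439 .nil .nil)) (.cons 594 532 (.cons 656 687 .nil (.cons 687 656 .nil .nil)) .nil)))]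
  [([470], (PX [] [470,501,563])), ([532], (PX [] [501,532,563])), ([594], (PX [] [501,563,594]))]
  (by decide +kernel) ⟨w4_1164_470, w4_1164_532, w4_1164_594, trivial⟩

theorem v4_1179 : VW (PX [533] [501,565,597]) := VW.of base nl_ok fl_ok .nil
  [(629, (.cons 661 693 .nil (.cons 693 661 .nil .nil))), (661, (.cons 629 693 .nil (.cons 693 629 .nil .nil))), (693, (.cons 629 661 .nil (.cons 661 629 .nil .nil)))]
  []
  (by decide +kernel) trivial

theorem w4_1182_469 : S (PX [] [469,501,565]) := VW.play 533 (PX [533] [469,501,565]) (by decide +kernel) v4_835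

theorem w4_1182_533 : S (PX [] [501,533,565]) := VW.play 469 (PX [469] [501,533,565]) (by decide +kernel) v4_1112

theorem w4_1182_597 : S (PX [] [501,565,597]) := VW.play 533 (PX [533] [501,565,597]) (by decide +kernel) v4_1179

theorem v4_1182 : VW (PX [] [501,565]) := VW.of base nl_ok fl_ok .nil
  [(437, (.cons 469 533 (.cons 373 405 .nil (.cons 405 373 .nil .nil)) (.cons 533 469 (.cons 597 629 .nil (.cons 629 597 .nil .nil)) .nil))), (629, (.cons 533 597 (.cons 437 469 .nil (.cons 469 437 .nil .nil)) (.cons 597 533 (.cons 661 693 .nil (.cons 693 661 .nil .nil)) .nil)))]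
  [([469], (PX [] [469,501,565])), ([533], (PX [] [501,533,565])), ([597], (PX [] [501,565,597]))]
  (by decide +kernel) ⟨w4_1182_469, w4_1182_533, w4_1182_597, trivial⟩

theorem v4_1183 : VW (PX [534] [501,567,600]) := VW.of base nl_ok fl_ok .nil
  [(633, (.cons 666 699 .nil (.cons 699 666 .nil .nil))), (666, (.cons 633 699 .nil (.cons 699 633 .nil .nil))), (699, (.cons 633 666 .nil (.cons 666 633 .nil .nil)))]
  []
  (by decide +kernel) trivial

theorem w4_1186_468 : S (PX [] [468,501,567]) := VW.play 534 (PX [534] [468,501,567]) (by decide +kernel) v4_1019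

theorem w4_1186_534 : S (PX [] [501,534,567]) := VW.play 600 (PX [600] [501,534,567]) (by decide +kernel) v4_1131

theorem w4_1186_600 : S (PX [] [501,567,600]) := VW.play 534 (PX [534] [501,567,600]) (by decide +kernel) v4_1183

theorem v4_1186 : VW (PX [] [501,567]) := VW.of base nl_ok fl_ok .nil
  [(435, (.cons 468 534 (.cons 369 402 .nil (.cons 402 369 .nil .nil)) (.cons 534 468 (.cons 600 633 .nil (.cons 633 600 .nil .nil)) .nil))), (633, (.cons 534 600 (.cons 435 468 .nil (.cons 468 435 .nil .nil)) (.cons 600 534 (.cons 666 699 .nil (.cons 699 666 .nil .nil)) .nil)))]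
  [([468], (PX [] [468,501,567])), ([534], (PX [] [501,534,567])), ([600], (PX [] [501,567,600]))]
  (by decide +kernel) ⟨w4_1186_468, w4_1186_534, w4_1186_600, trivial⟩

theorem w4_1187_532 : S (PX [] [501,532,594]) := VW.play 563 (PX [563] [501,532,594]) (by decide +kernel) v4_1097

theorem w4_1187_563 : S (PX [] [501,563,594]) := VW.play 532 (PX [532] [501,563,594]) (by decide +kernel) v4_1161

theorem v4_1187 : VW (PX [] [501,594]) := VW.of base nl_ok fl_ok .nil
  [(470, (.cons 532 563 (.cons 408 439 .nil (.cons 439 408 .nil .nil)) (.cons 563 532 .nil .nil))), (625, (.cons 532 563 .nil (.cons 563 532 (.cons 656 687 .nil (.cons 687 656 .nil .nil)) .nil)))]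
  [([532], (PX [] [501,532,594])), ([563], (PX [] [501,563,594]))]
  (by decide +kernel) ⟨w4_1187_532, w4_1187_563, trivial⟩

theorem w4_1188_533 : S (PX [] [501,533,597]) := VW.play 565 (PX [565] [501,533,597]) (by decide +kernel) v4_1117

theorem w4_1188_565 : S (PX [] [501,565,597]) := VW.play 533 (PX [533] [501,565,597]) (by decide +kernel) v4_1179

theorem v4_1188 : VW (PX [] [501,597]) := VW.of base nl_ok fl_ok .nil
  [(469, (.cons 533 565 (.cons 405 437 .nil (.cons 437 405 .nil .nil)) (.cons 565 533 .nil .nil))), (629, (.cons 533 565 .nil (.cons 565 533 (.cons 661 693 .nil (.cons 693 661 .nil .nil)) .nil)))]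
  [([533], (PX [] [501,533,597])), ([565], (PX [] [501,565,597]))]
  (by decide +kernel) ⟨w4_1188_533, w4_1188_565, trivial⟩

theorem w4_1189_534 : S (PX [] [501,534,600]) := VW.play 567 (PX [567] [501,534,600]) (by decide +kernel) v4_1132

theorem w4_1189_567 : S (PX [] [501,567,600]) := VW.play 534 (PX [534] [501,567,600]) (by decide +kernel) v4_1183

theorem v4_1189 : VW (PX [] [501,600]) := VW.of base nl_ok fl_ok .nil
  [(468, (.cons 534 567 (.cons 402 435 .nil (.cons 435 402 .nil .nil)) (.cons 567 534 .nil .nil))), (633, (.cons 534 567 .nil (.cons 567 534 (.cons 666 699 .nil (.cons 699 666 .nil .nil)) .nil)))]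
  [([534], (PX [] [501,534,600])), ([567], (PX [] [501,567,600]))]
  (by decide +kernel) ⟨w4_1189_534, w4_1189_567, trivial⟩

theorem v4_1190 : VW (PX [] [501,625]) := VW.of base nl_ok fl_ok .nil
  [(532, (.cons 563 594 (.cons 439 470 .nil (.cons 470 439 .nil .nil)) (.cons 594 563 .nil .nil))), (563, (.cons 532 594 (.cons 439 470 .nil (.cons 470 439 .nil .nil)) (.cons 594 532 (.cons 656 687 .nil (.cons 687 656 .nil .nil)) .nil))), (594, (.cons 532 563 .nil (.cons 563 532 (.cons 656 687 .nil (.cons 687 656 .nil .nil)) .nil)))]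
  []
  (by decide +kernel) trivial

theorem v4_1191 : VW (PX [] [501,629]) := VW.of base nl_ok fl_ok .nil
  [(533, (.cons 565 597 (.cons 437 469 .nil (.cons 469 437 .nil .nil)) (.cons 597 565 .nil .nil))), (565, (.cons 533 597 (.cons 437 469 .nil (.cons 469 437 .nil .nil)) (.cons 597 533 (.cons 661 693 .nil (.cons 693 661 .nil .nil)) .nil))), (597, (.cons 533 565 .nil (.cons 565 533 (.cons 661 693 .nil (.cons 693 661 .nil .nil)) .nil)))]
  []
  (by decide +kernel) trivial

theorem v4_1192 : VW (PX [] [501,633]) := VW.of base nl_ok fl_ok .nil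
  [(534, (.cons 567 600 (.cons 435 468 .nil (.cons 468 435 .nil .nil)) (.cons 600 567 .nil .nil))), (567, (.cons 534 600 (.cons 435 468 .nil (.cons 468 435 .nil .nil)) (.cons 600 534 (.cons 666 699 .nil (.cons 699 666 .nil .nil)) .nil))), (600, (.cons 534 567 .nil (.cons 567 534 (.cons 666 699 .nil (.cons 699 666 .nil .nil)) .nil)))]
  []
  (by decide +kernel) trivial

theorem r369 : S (Nat.lor X2 (bits [501, 369])) := VW.play 394 (PX [] [369,501]) (by decide +kernel) v4_939

theorem r373 : S (Nat.lor X2 (bits [501, 373])) := VW.play 394 (PX [] [373,501]) (by decide +kernel) v4_940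

theorem r377 : S (Nat.lor X2 (bits [501, 377])) := VW.play 394 (PX [] [377,501]) (by decide +kernel) v4_941

theorem r402 : S (Nat.lor X2 (bits [501, 402])) := VW.play 394 (PX [] [402,501]) (by decide +kernel) v4_965

theorem r405 : S (Nat.lor X2 (bits [501, 405])) := VW.play 394 (PX [] [405,501]) (by decide +kernel) v4_307

theorem r408 : S (Nat.lor X2 (bits [501, 408])) := VW.play 394 (PX [] [408,501]) (by decide +kernel) v4_985

theorem r435 : S (Nat.lor X2 (bits [501, 435])) := VW.play 394 (PX [] [435,501]) (by decide +kernel) v4_990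

theorem r437 : S (Nat.lor X2 (bits [501, 437])) := VW.play 394 (PX [] [437,501]) (by decide +kernel) v4_600

theorem r439 : S (Nat.lor X2 (bits [501, 439])) := VW.play 394 (PX [] [439,501]) (by decide +kernel) v4_1011

theorem r468 : S (Nat.lor X2 (bits [501, 468])) := VW.play 394 (PX [] [468,501]) (by decide +kernel) v4_1020

theorem r469 : S (Nat.lor X2 (bits [501, 469])) := VW.play 394 (PX [] [469,501]) (by decide +kernel) v4_847

theorem r470 : S (Nat.lor X2 (bits [501, 470])) := VW.play 394 (PX [] [470,501]) (by decide +kernel) v4_1029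

theorem r497 : S (Nat.lor X2 (bits [501, 497])) := VW.play 394 (PX [] [497,501]) (by decide +kernel) v4_1030

theorem r498 : S (Nat.lor X2 (bits [501, 498])) := VW.play 394 (PX [] [498,501]) (by decide +kernel) v4_1052

theorem r499 : S (Nat.lor X2 (bits [501, 499])) := VW.play 394 (PX [] [499,501]) (by decide +kernel) v4_1057

theorem r500 : S (Nat.lor X2 (bits [501, 500])) := VW.play 394 (PX [] [500,501]) (by decide +kernel) v4_1066

theorem r502 : S (Nat.lor X2 (bits [501, 502])) := VW.play 394 (PX [] [501,502]) (by decide +kernel) v4_1083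

theorem r503 : S (Nat.lor X2 (bits [501, 503])) := VW.play 394 (PX [] [501,503]) (by decide +kernel) v4_1087

theorem r504 : S (Nat.lor X2 (bits [501, 504])) := VW.play 394 (PX [] [501,504]) (by decide +kernel) v4_1088

theorem r505 : S (Nat.lor X2 (bits [501, 505])) := VW.play 394 (PX [] [501,505]) (by decide +kernel) v4_1089

theorem r532 : S (Nat.lor X2 (bits [501, 532])) := VW.play 394 (PX [] [501,532]) (by decide +kernel) v4_1109

theorem r533 : S (Nat.lor X2 (bits [501, 533])) := VW.play 394 (PX [] [501,533]) (by decide +kernel) v4_1129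

theorem r534 : S (Nat.lor X2 (bits [501, 534])) := VW.play 394 (PX [] [501,534]) (by decide +kernel) v4_1146

theorem r563 : S (Nat.lor X2 (bits [501, 563])) := VW.play 394 (PX [] [501,563]) (by decide +kernel) v4_1164

theorem r565 : S (Nat.lor X2 (bits [501, 565])) := VW.play 394 (PX [] [501,565]) (by decide +kernel) v4_1182

theorem r567 : S (Nat.lor X2 (bits [501, 567])) := VW.play 394 (PX [] [501,567]) (by decide +kernel) v4_1186

theorem r594 : S (Nat.lor X2 (bits [501, 594])) := VW.play 394 (PX [] [501,594]) (by decide +kernel) v4_1187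

theorem r597 : S (Nat.lor X2 (bits [501, 597])) := VW.play 394 (PX [] [501,597]) (by decide +kernel) v4_1188

theorem r600 : S (Nat.lor X2 (bits [501, 600])) := VW.play 394 (PX [] [501,600]) (by decide +kernel) v4_1189

theorem r625 : S (Nat.lor X2 (bits [501, 625])) := VW.play 394 (PX [] [501,625]) (by decide +kernel) v4_1190

theorem r629 : S (Nat.lor X2 (bits [501, 629])) := VW.play 394 (PX [] [501,629]) (by decide +kernel) v4_1191

theorem r633 : S (Nat.lor X2 (bits [501, 633])) := VW.play 394 (PX [] [501,633]) (by decide +kernel) v4_1192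

theorem all : RT X2 501 (369 :: 373 :: 377 :: 402 :: 405 :: 408 :: 435 :: 437 :: 439 :: 468 :: 469 :: 470 :: 497 :: 498 :: 499 :: 500 :: 502 :: 503 :: 504 :: 505 :: 532 :: 533 :: 534 :: 563 :: 565 :: 567 :: 594 :: 597 :: 600 :: 625 :: 629 :: 633 :: []) := ⟨r369, r373, r377, r402, r405, r408, r435, r437, r439, r468, r469, r470, r497, r498, r499, r500, r502, r503, r504, r505, r532, r533, r534, r563, r565, r567, r594, r597, r600, r625, r629, r633, trivial⟩

end Pool.Agent.H94.Five.Mid.K10_4_0
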