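import Pool.Agent.H94.Five.Mid.Fam

set_option autoImplicit false
set_option linter.all false
set_option maxRecDepth 100000

/-! Second has the cell (10, 5): some of the other stones. -/

namespace Pool.Agent.H94.Five.Mid.K10_5_0

open Pool.Agent.H79.Five Pool.Agent.H10.Five Pool.Agent.H94.Five.M

abbrev nl : List Ent := [n0, n3, n4, n6, n8, n9, n10, n11, n16, n17, n21, n22]

theorem nl_ok : AC XB M0 nl := .cons n0k <| .cons n3k <| .cons n4k <| .cons n6k <| .cons n8k <| .cons n9k <| .cons n10k <| .cons n11k <| .cons n16k <| .cons n17k <| .cons n21k <| .cons n22k <| .nil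

abbrev fl : List Ent := (x38 :: x45 :: x73 :: x77 :: x79 :: x99 :: x101 :: x103 :: x122 :: x130 :: x142 :: x146 :: x161 :: x167 :: x168 :: x174 :: x177 :: x183 :: x187 :: x190 :: x193 :: x201 :: x204 :: x206 :: x214 :: x243 :: x245 :: x255 :: x258 :: x260 :: x266 :: x269 :: x276 :: x280 :: x284 :: x291 :: x310 :: x316 :: x319 :: x322 :: x328 :: x340 :: x357 :: x364 :: x371 :: x375 :: x383 :: x390 :: x393 :: x400 :: x415 :: x420 :: x424 :: x426 :: x427 :: x434 :: x437 :: x441 :: x444 :: x451 :: x455 :: x462 :: x465 :: x492 :: x493 :: x497 :: x501 :: x518 :: [])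

theorem fl_ok : AC XB M0 fl := .cons x38k <| .cons x45k <| .cons x73k <| .cons x77k <| .cons x79k <| .cons x99k <| .cons x101k <| .cons x103k <| .cons x122k <| .cons x130k <| .cons x142k <| .cons x146k <| .cons x161k <| .cons x167k <| .cons x168k <| .cons x174k <| .cons x177k <| .cons x183k <| .cons x187k <| .cons x190k <| .cons x193k <| .cons x201k <| .cons x204k <| .cons x206k <| .cons x214k <| .cons x243k <| .cons x245k <| .cons x255k <| .cons x258k <| .cons x260k <| .cons x266k <| .cons x269k <| .cons x276k <| .cons x280k <| .cons x284k <| .cons x291k <| .cons x310k <| .cons x316k <| .cons x319k <| .cons x322k <| .cons x328k <| .cons x340k <| .cons x357k <| .cons x364k <| .cons x371k <| .cons x375k <| .cons x383k <| .cons x390k <| .cons x393k <| .cons x400k <| .cons x415k <| .cons x420k <| .cons x424k <| .cons x426k <| .cons x427k <| .cons x434k <| .cons x437k <| .cons x441k <| .cons x444k <| .cons x451k <| .cons x455k <| .cons x462k <| .cons x465k <| .cons x492k <| .cons x493k <| .cons x497k <|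 .cons x501k <| .cons x518k <| .nil

theorem b4_397 : S (PX [] [400,401,533]) := S.of (.q 330 (.a 1 [] (.d 297 2312 264 2345 429)
 (.a 1 [264] (.d 429 2345 297 2378 462)
 (.a 0 [297,429] (.q 362 (.a 1 [] (.d 298 1290 266 1322 426)
 (.a 1 [266] (.d 426 1322 298 1354 458)
 (.a 0 [298,426] (.q 361 (.a 1 [] (.d 360 359 359 360 364)
 (.a 1 [359] (.d 364 360 360 361 365)
 (.a 0 [360,364] (.q 427 (.a 1 [] (.d 328 2343 295 2376 460)
 (.a 1 [295] (.d 460 2376 328 2409 493)
 (.a 0 [328,460] (.q 395 (.a 1 [] (.d 393 392 392 393 397)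
 (.a 1 [392] (.d 397 393 393 394 398)
 (.a 1 [393] (.d 331 1323 299 1355 459)
 .e))))
 .e))))
 .e))))
 .e))))
 .e)))) (by decide +kernel)

theorem b4_398 : S (PX [335,467] [298,302,401,434,533]) := S.of (.q 395 (.a 1 [] (.d 393 392 392 393 397)
 (.a 1 [392] (.d 397 393 393 394 398)
 (.a 0 [393,397] (.q 331 (.a 1 [] (.d 299 1291 267 1323 427)
 (.a 1 [267] (.d 427 1323 299 1355 459)
 (.a 0 [299,427] (.q 332 (.a 1 [] (.d 301 3342 270 3373 425)
 (.a 1 [270] (.d 425 3373 301 3404 456)
 (.a 1 [425] (.r 333 331 334 (.r 330 329 329 (.d 429 2345 297 2378 462)))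
 (.a 0 [301] (.q 300 (.a 1 [] (.d 364 1292 268 1324 428)
 (.a 1 [268] (.r 333 331 334 (.r 330 329 329 (.d 429 2345 297 2378 462)))
 .e)))
 .e)))))
 .e))))
 .e)))) (by decide +kernel)

theorem b4_399 : S (PX [335,467] [300,302,401,434,533]) := S.of (.q 330 (.a 1 [] (.d 297 2312 264 2345 429)
 (.a 1 [264] (.d 429 2345 297 2378 462)
 (.a 0 [297,429] (.q 425 (.a 1 [] (.d 332 3373 301 3404 456)
 (.a 1 [301] (.d 456 3404 332 3435 487)
 (.a 0 [332,456] (.q 393 (.a 1 [] (.d 395 392 392 393 397)
 (.a 0 [392,395,397] (.q 361 (.a 1 [] (.d 457 1353 329 1385 489)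
 (.a 0 [329,457,489] (.q 362 (.a 1 [] (.d 360 359 359 360 364)
 (.a 1 [359] (.d 364 360 360 361 365)
 (.a 1 [360] (.d 298 1290 266 1322 426)
 .e))))
 .e)))
 .e)))
 .e))))
 .e)))) (by decide +kernel)

theorem b4_400 : S (PX [335,467] [302,303,401,434,533]) := S.of (.q 395 (.a 1 [] (.d 393 392 392 393 397)
 (.a 1 [392] (.d 397 393 393 394 398)
 (.a 0 [393,397] (.q 427 (.a 1 [] (.d 331 1323 299 1355 459)
 (.a 1 [299] (.d 459 1355 331 1387 491)
 (.a 0 [331,459] (.q 330 (.a 1 [] (.d 297 2312 264 2345 429)
 (.a 1 [264] (.d 429 2345 297 2378 462)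
 (.a 0 [297,429] (.q 361 (.a 1 [] (.d 328 2343 295 2376 460)
 (.a 1 [295] (.d 460 2376 328 2409 493)
 (.a 0 [328,460] (.q 362 (.a 1 [] (.d 360 359 359 360 364)
 (.a 1 [359] (.d 364 360 360 361 365)
 (.a 1 [360] (.d 298 1290 266 1322 426)
 .e))))
 .e))))
 .e))))
 .e))))
 .e)))) (by decide +kernel)

theorem b4_401 : S (PX [335,467] [302,392,401,434,533]) := S.of (.q 332 (.a 1 [] (.d 301 3342 270 3373 425)
 (.a 1 [270] (.d 425 3373 301 3404 456)
 (.a 0 [301,425] (.q 334 (.a 1 [] (.d 333 331 331 332 336)
 (.a 0 [331,333,336] (.q 397 (.a 1 [] (.d 395 393 393 394 398)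
 (.a 0 [393,395,398] (.q 364 (.a 1 [] (.d 300 1292 268 1324 428)
 (.a 1 [268] (.d 428 1324 300 1356 460)
 (.a 1 [300] (.r 428 1356 460 (.d 366 3376 304 3407 459))
 (.a 0 [428] (.q 365 (.a 1 [] (.d 362 361 361 362 366)
 (.a 1 [361] (.d 366 362 362 363 367)
 (.a 1 [362] (.d 303 3344 272 3375 427)
 .e))))
 .e)))))
 .e)))
 .e)))
 .e)))) (by decide +kernel)

theorem b4_402 : S (PX [335,467] [302,397,401,434,533]) := S.of (.q 330 (.a 1 [] (.d 297 2312 264 2345 429)
 (.a 1 [264] (.d 429 2345 297 2378 462)
 (.a 0 [297,429] (.q 425 (.a 1 [] (.d 332 3373 301 3404 456)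
 (.a 1 [301] (.d 456 3404 332 3435 487)
 (.a 0 [332,456] (.q 426 (.a 1 [] (.d 362 1322 298 1354 458)
 (.a 0 [298,362,458] (.q 423 (.a 1 [] (.d 424 422 422 423 427)
 (.a 0 [422,424,427] (.q 392 (.a 1 [] (.d 361 3371 299 3402 454)
 (.a 1 [299] (.r 393 392 395 (.r 361 3402 454 (.d 457 1353 329 1385 489)))
 (.a 1 [454] (.r 393 392 395 (.r 361 3371 299 (.d 457 1353 329 1385 489)))
 (.a 0 [361] (.r 393 392 395 (.q 327 (.a 1 [] (.d 360 2342 294 2375 459)
 (.a 1 [294] (.r 391 390 390 (.d 359 1319 295 1351 455))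
 .e))))
 .e)))))
 .e)))
 .e)))
 .e))))
 .e)))) (by decide +kernel)

theorem b4_403 : S (PX [335,467] [302,398,401,434,533]) := S.of (.q 330 (.a 1 [] (.d 297 2312 264 2345 429)
 (.a 1 [264] (.d 429 2345 297 2378 462)
 (.a 0 [297,429] (.q 362 (.a 1 [] (.d 298 1290 266 1322 426)
 (.a 1 [266] (.d 426 1322 298 1354 458)
 (.a 0 [298,426] (.q 364 (.a 1 [] (.d 361 360 360 361 365)
 (.a 1 [360] (.d 365 361 361 362 366)
 (.a 0 [361,365] (.q 332 (.a 1 [] (.d 300 1292 268 1324 428)
 (.a 1 [268] (.d 428 1324 300 1356 460)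
 (.a 1 [300] (.d 301 3342 270 3373 425)
 .e))))
 .e))))
 .e))))
 .e)))) (by decide +kernel)

theorem b4_404 : S (PX [335,467] [302,399,401,434,533]) := S.of (.q 330 (.a 1 [] (.d 297 2312 264 2345 429)
 (.a 1 [264] (.d 429 2345 297 2378 462)
 (.a 0 [297,429] (.q 362 (.a 1 [] (.d 298 1290 266 1322 426)
 (.a 1 [266] (.d 426 1322 298 1354 458)
 (.a 0 [298,426] (.q 364 (.a 1 [] (.d 361 360 360 361 365)
 (.a 1 [360] (.d 365 361 361 362 366)
 (.a 0 [361,365] (.q 332 (.a 1 [] (.d 300 1292 268 1324 428)
 (.a 1 [268] (.d 428 1324 300 1356 460)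
 (.a 1 [300] (.d 301 3342 270 3373 425)
 .e))))
 .e))))
 .e))))
 .e)))) (by decide +kernel)

theorem b4_405 : S (PX [335,467] [302,400,401,434,533]) := S.of (.q 330 (.a 1 [] (.d 297 2312 264 2345 429)
 (.a 1 [264] (.d 429 2345 297 2378 462)
 (.a 0 [297,429] (.q 362 (.a 1 [] (.d 298 1290 266 1322 426)
 (.a 1 [266] (.d 426 1322 298 1354 458)
 (.a 0 [298,426] (.q 364 (.a 1 [] (.d 361 360 360 361 365)
 (.a 1 [360] (.d 365 361 361 362 366)
 (.a 0 [361,365] (.q 332 (.a 1 [] (.d 300 1292 268 1324 428)
 (.a 1 [268] (.d 428 1324 300 1356 460)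
 (.a 1 [300] (.d 301 3342 270 3373 425)
 .e))))
 .e))))
 .e))))
 .e)))) (by decide +kernel)

theorem b4_406 : S (PX [335,467] [302,401,426,434,533]) := S.of (.q 395 (.a 1 [] (.d 393 392 392 393 397)
 (.a 1 [392] (.d 397 393 393 394 398)
 (.a 0 [393,397] (.q 332 (.a 1 [] (.d 301 3342 270 3373 425)
 (.a 1 [270] (.d 425 3373 301 3404 456)
 (.a 0 [301,425] (.q 331 (.a 1 [] (.d 299 1291 267 1323 427)
 (.a 1 [267] (.d 427 1323 299 1355 459)
 (.a 1 [299] (.r 333 331 334 (.r 330 329 329 (.d 429 2345 297 2378 462)))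
 .e))))
 .e))))
 .e)))) (by decide +kernel)

theorem b4_416 : S (PX [302,467] [304,335,401,434,533]) := S.of (.q 332 (.a 1 [] (.d 301 3342 270 3373 425)
 (.a 1 [270] (.d 425 3373 301 3404 456)
 (.a 0 [301,425] (.q 364 (.a 1 [] (.d 300 1292 268 1324 428)
 (.a 1 [268] (.d 428 1324 300 1356 460)
 (.a 0 [300,428] (.q 395 (.a 1 [] (.d 393 392 392 393 397)
 (.a 1 [366] (.d 397 393 393 394 398)
 (.a 1 [393] (.d 333 3343 271 3374 426)
 (.a 0 [397] (.q 366 (.a 1 [] (.d 333 3343 271 3374 426)
 (.a 1 [271] (.d 365 362 362 363 367)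
 .e)))
 .e)))))
 .e))))
 .e)))) (by decide +kernel)

theorem b4_417 : S (PX [302,467] [330,335,401,434,533]) := S.of (.q 395 (.a 1 [] (.d 393 392 392 393 397)
 (.a 1 [392] (.d 397 393 393 394 398)
 (.a 0 [393,397] (.q 364 (.a 1 [] (.d 333 3343 271 3374 426)
 (.a 0 [271,333,426] (.q 332 (.a 1 [] (.d 300 1292 268 1324 428)
 (.a 1 [268] (.d 428 1324 300 1356 460)
 (.a 1 [300] (.d 301 3342 270 3373 425)
 .e))))
 .e)))
 .e)))) (by decide +kernel)

theorem b4_418 : S (PX [302,467] [332,335,401,434,533]) := S.of (.q 395 (.a 1 [] (.d 393 392 392 393 397)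
 (.a 1 [392] (.d 397 393 393 394 398)
 (.a 0 [393,397] (.q 330 (.a 1 [] (.d 297 2312 264 2345 429)
 (.a 1 [264] (.d 429 2345 297 2378 462)
 (.a 0 [297,429] (.q 362 (.a 1 [] (.d 298 1290 266 1322 426)
 (.a 1 [266] (.d 426 1322 298 1354 458)
 (.a 1 [298] (.r 426 1354 458 (.r 364 3374 333 (.d 361 360 360 361 365)))
 (.a 0 [426] (.q 360 (.a 1 [] (.d 361 359 359 360 364)
 (.a 0 [359,361,364] (.q 329 (.a 1 [] (.d 296 2311 263 2344 428)
 (.a 1 [263] (.d 428 2344 296 2377 461)
 (.a 1 [296] (.r 298 1290 266 (.d 391 3339 267 3370 422))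
 .e))))
 .e)))
 .e)))))
 .e))))
 .e)))) (by decide +kernel)

theorem b4_419 : S (PX [302,467] [335,366,401,434,533]) := S.of (.q 332 (.a 1 [] (.d 301 3342 270 3373 425)
 (.a 1 [270] (.d 425 3373 301 3404 456)
 (.a 0 [301,425] (.q 364 (.a 1 [] (.d 300 1292 268 1324 428)
 (.a 1 [268] (.d 428 1324 300 1356 460)
 (.a 0 [300,428] (.q 397 (.a 1 [] (.d 395 393 393 394 398)
 (.a 1 [393] (.r 395 394 398 (.d 333 3343 271 3374 426))
 (.a 1 [398] (.r 395 393 393 (.d 333 3343 271 3374 426))
 (.a 0 [395] (.q 362 (.a 1 [] (.d 361 360 360 361 365)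
 (.a 0 [360,361,365] (.q 330 (.a 1 [] (.d 298 1290 266 1322 426)
 (.a 1 [266] (.d 426 1322 298 1354 458)
 (.a 1 [298] (.d 297 2312 264 2345 429)
 .e))))
 .e)))
 .e)))))
 .e))))
 .e)))) (by decide +kernel)

theorem b4_420 : S (PX [302,467] [335,400,401,434,533]) := S.of (.q 332 (.a 1 [] (.d 301 3342 270 3373 425)
 (.a 1 [270] (.d 425 3373 301 3404 456)
 (.a 0 [301,425] (.q 364 (.a 1 [] (.d 300 1292 268 1324 428)
 (.a 1 [268] (.d 428 1324 300 1356 460)
 (.a 0 [300,428] (.q 395 (.a 1 [] (.d 393 392 392 393 397)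
 (.a 1 [392] (.d 397 393 393 394 398)
 (.a 1 [393] (.d 333 3343 271 3374 426)
 .e))))
 .e))))
 .e)))) (by decide +kernel)

theorem b4_421 : S (PX [302,467] [335,401,425,434,533]) := S.of (.q 395 (.a 1 [] (.d 393 392 392 393 397)
 (.a 1 [392] (.d 397 393 393 394 398)
 (.a 0 [393,397] (.q 429 (.a 1 [] (.d 330 2345 297 2378 462)
 (.a 1 [297] (.d 462 2378 330 2411 495)
 (.a 0 [330,462] (.q 299 (.a 1 [] (.d 331 1291 267 1323 427)
 (.a 0 [267,331,427] (.q 300 (.a 1 [] (.d 301 298 298 299 303)
 (.a 1 [298] (.r 301 299 303 (.r 332 3342 270 (.d 364 1292 268 1324 428)))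
 (.a 1 [303] (.r 301 298 298 (.r 332 3342 270 (.d 364 1292 268 1324 428)))
 (.a 0 [301] (.q 364 (.a 1 [] (.d 332 1292 268 1324 428)
 (.a 1 [268] (.d 333 3343 271 3374 426)
 .e)))
 .e)))))
 .e)))
 .e))))
 .e)))) (by decide +kernel)

theorem b4_422 : S (PX [302,467] [335,401,428,434,533]) := S.of (.q 429 (.a 1 [] (.d 330 2345 297 2378 462)
 (.a 1 [297] (.d 462 2378 330 2411 495)
 (.a 0 [330,462] (.q 397 (.a 1 [] (.d 395 393 393 394 398)
 (.a 0 [393,395,398] (.q 365 (.a 1 [] (.d 333 1325 301 1357 461)
 (.a 1 [301] (.d 461 1357 333 1389 493)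
 (.a 1 [461] (.r 301 1325 333 (.d 332 3342 270 3373 425))
 (.a 0 [333] (.q 427 (.a 1 [] (.d 334 3375 303 3406 458)
 (.a 1 [303] (.d 458 3406 334 3437 489)
 (.a 1 [334] (.r 493 1389 461 (.d 460 2409 361 2442 526))
 .e))))
 .e)))))
 .e)))
 .e)))) (by decide +kernel)

theorem b4_431 : S (PX [335,467] [368,400,401,434,533]) := S.of (.q 332 (.a 1 [] (.d 301 3342 270 3373 425)
 (.a 1 [270] (.d 425 3373 301 3404 456)
 (.a 0 [301,425] (.q 330 (.a 1 [] (.d 297 2312 264 2345 429)
 (.a 1 [264] (.d 429 2345 297 2378 462)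
 (.a 0 [297,429] (.q 428 (.a 1 [] (.d 364 1324 300 1356 460)
 (.a 0 [300,364,460] (.q 298 (.a 1 [] (.d 362 1290 266 1322 426)
 (.a 0 [266,362,426] (.q 397 (.a 1 [] (.d 395 393 393 394 398)
 (.a 1 [393] (.d 366 3376 304 3407 459)
 .e)))
 .e)))
 .e)))
 .e))))
 .e)))) (by decide +kernel)

theorem b4_432 : S (PX [467] [400,401,434,533]) := S.of (.q 330 (.a 1 [] (.d 297 2312 264 2345 429)
 (.a 1 [264] (.d 429 2345 297 2378 462)
 (.a 0 [297,429] (.q 362 (.a 1 [] (.d 298 1290 266 1322 426)
 (.a 1 [266] (.d 426 1322 298 1354 458)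
 (.a 0 [298,426] (.q 361 (.a 1 [] (.d 360 359 359 360 364)
 (.a 1 [359] (.d 364 360 360 361 365)
 (.a 0 [360,364] (.q 427 (.a 1 [] (.d 328 2343 295 2376 460)
 (.a 1 [295] (.d 460 2376 328 2409 493)
 (.a 0 [328,460] (.q 395 (.a 1 [] (.d 393 392 392 393 397)
 (.a 1 [392] (.d 397 393 393 394 398)
 (.a 1 [393] (.d 331 1323 299 1355 459)
 .e))))
 .e))))
 .e))))
 .e))))
 .e)))) (by decide +kernel)

theorem b4_462 : S (PX [434] [400,401,467,533]) := S.of (.q 330 (.a 1 [] (.d 297 2312 264 2345 429)
 (.a 1 [264] (.d 429 2345 297 2378 462)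
 (.a 0 [297,429] (.q 362 (.a 1 [] (.d 298 1290 266 1322 426)
 (.a 1 [266] (.d 426 1322 298 1354 458)
 (.a 0 [298,426] (.q 361 (.a 1 [] (.d 360 359 359 360 364)
 (.a 1 [359] (.d 364 360 360 361 365)
 (.a 0 [360,364] (.q 427 (.a 1 [] (.d 328 2343 295 2376 460)
 (.a 1 [295] (.d 460 2376 328 2409 493)
 (.a 0 [328,460] (.q 395 (.a 1 [] (.d 393 392 392 393 397)
 (.a 1 [392] (.d 397 393 393 394 398)
 (.a 1 [393] (.d 331 1323 299 1355 459)
 .e))))
 .e))))
 .e))))
 .e))))
 .e)))) (by decide +kernel)

theorem v4_1193 : VW (PX [335,467] [302,401,434,533]) := VW.of base nl_ok fl_ok .nil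
  []
  [([298], (PX [335,467] [298,302,401,434,533])), ([300], (PX [335,467] [300,302,401,434,533])), ([303], (PX [335,467] [302,303,401,434,533])), ([392], (PX [335,467] [302,392,401,434,533])), ([397], (PX [335,467] [302,397,401,434,533])), ([398], (PX [335,467] [302,398,401,434,533])), ([399], (PX [335,467] [302,399,401,434,533])), ([400], (PX [335,467] [302,400,401,434,533])), ([426], (PX [335,467] [302,401,426,434,533]))]
  (by decide +kernel) ⟨b4_398, b4_399, b4_400, b4_401, b4_402, b4_403, b4_404, b4_405, b4_406, trivial⟩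

theorem v4_1195 : VW (PX [302,467] [335,401,434,533]) := VW.of base nl_ok fl_ok .nil
  []
  [([304], (PX [302,467] [304,335,401,434,533])), ([330], (PX [302,467] [330,335,401,434,533])), ([332], (PX [302,467] [332,335,401,434,533])), ([366], (PX [302,467] [335,366,401,434,533])), ([400], (PX [302,467] [335,400,401,434,533])), ([425], (PX [302,467] [335,401,425,434,533])), ([428], (PX [302,467] [335,401,428,434,533]))]
  (by decide +kernel) ⟨b4_416, b4_417, b4_418, b4_419, b4_420, b4_421, b4_422, trivial⟩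

theorem v4_1198 : VW (PX [335,467] [368,401,434,533]) := VW.of base nl_ok fl_ok .nil
  []
  [([400], (PX [335,467] [368,400,401,434,533]))]
  (by decide +kernel) ⟨b4_431, trivial⟩

theorem w4_1199_302 : S (PX [467] [302,401,434,533]) := VW.play 335 (PX [335,467] [302,401,434,533]) (by decide +kernel) v4_1193

theorem w4_1199_335 : S (PX [467] [335,401,434,533]) := VW.play 302 (PX [302,467] [335,401,434,533]) (by decide +kernel) v4_1195

theorem w4_1199_368 : S (PX [467] [368,401,434,533]) := VW.play 335 (PX [335,467] [368,401,434,533]) (by decide +kernel) v4_1198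

theorem v4_1199 : VW (PX [467] [401,434,533]) := VW.of base nl_ok fl_ok .nil
  []
  [([302], (PX [467] [302,401,434,533])), ([335], (PX [467] [335,401,434,533])), ([368], (PX [467] [368,401,434,533])), ([400], (PX [467] [400,401,434,533]))]
  (by decide +kernel) ⟨w4_1199_302, w4_1199_335, w4_1199_368, b4_432, trivial⟩

theorem v4_1207 : VW (PX [434] [401,467,533]) := VW.of base nl_ok fl_ok .nil
  [(500, (.cons 566 599 .nil (.cons 599 566 .nil .nil))), (566, (.cons 500 599 .nil (.cons 599 500 (.cons 632 665 .nil (.cons 665 632 .nil .nil)) .nil))), (599, (.cons 500 566 .nil (.cons 566 500 (.cons 632 665 .nil (.cons 665 632 .nil .nil)) .nil)))]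
  [([400], (PX [434] [400,401,467,533]))]
  (by decide +kernel) ⟨b4_462, trivial⟩

theorem w4_1211_434 : S (PX [] [401,434,533]) := VW.play 467 (PX [467] [401,434,533]) (by decide +kernel) v4_1199

theorem w4_1211_467 : S (PX [] [401,467,533]) := VW.play 434 (PX [434] [401,467,533]) (by decide +kernel) v4_1207

theorem v4_1211 : VW (PX [] [401,533]) := VW.of base nl_ok fl_ok .nil
  [(500, (.cons 434 467 .nil (.cons 467 434 (.cons 566 599 .nil (.cons 599 566 .nil .nil)) .nil)))]
  [([400], (PX [] [400,401,533])), ([434], (PX [] [401,434,533])), ([467], (PX [] [401,467,533]))]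
  (by decide +kernel) ⟨b4_397, w4_1211_434, w4_1211_467, trivial⟩

theorem v4_310 : VW (PX [] [405,533]) := VW.of base nl_ok fl_ok .nil
  [(437, (.cons 469 501 (.cons 341 373 .nil (.cons 373 341 .nil .nil)) (.cons 501 469 .nil .nil))), (469, (.cons 437 501 (.cons 341 373 .nil (.cons 373 341 .nil .nil)) (.cons 501 437 (.cons 565 597 .nil (.cons 597 565 .nil .nil)) .nil))), (501, (.cons 437 469 .nil (.cons 469 437 (.cons 565 597 .nil (.cons 597 565 .nil .nil)) .nil)))]
  []
  (by decide +kernel) trivial

theorem v4_1212 : VW (PX [] [409,533]) := VW.of base nl_ok fl_ok .nil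
  [(440, (.cons 471 502 (.cons 347 378 .nil (.cons 378 347 .nil .nil)) (.cons 502 471 .nil .nil))), (471, (.cons 440 502 (.cons 347 378 .nil (.cons 378 347 .nil .nil)) (.cons 502 440 (.cons 564 595 .nil (.cons 595 564 .nil .nil)) .nil))), (502, (.cons 440 471 .nil (.cons 471 440 (.cons 564 595 .nil (.cons 595 564 .nil .nil)) .nil)))]
  []
  (by decide +kernel) trivial

theorem v4_1213 : VW (PX [401,566] [434,467,500,533]) := VW.of base nl_ok fl_ok .nil
  []
  []
  (by decide +kernel) trivial

theorem v4_1214 : VW (PX [401,500] [434,467,533,566]) := VW.of base nl_ok fl_ok .nil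
  [(599, (.cons 632 665 .nil (.cons 665 632 .nil .nil))), (632, (.cons 599 665 .nil (.cons 665 599 .nil .nil))), (665, (.cons 599 632 .nil (.cons 632 599 .nil .nil)))]
  []
  (by decide +kernel) trivial

theorem w4_1215_500 : S (PX [401] [434,467,500,533]) := VW.play 566 (PX [401,566] [434,467,500,533]) (by decide +kernel) v4_1213

theorem w4_1215_566 : S (PX [401] [434,467,533,566]) := VW.play 500 (PX [401,500] [434,467,533,566]) (by decide +kernel) v4_1214

theorem v4_1215 : VW (PX [401] [434,467,533]) := VW.of base nl_ok fl_ok (.cons 500 566 .nil (.cons 566 500 .nil .nil))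
  [(599, (.cons 500 566 .nil (.cons 566 500 (.cons 632 665 .nil (.cons 665 632 .nil .nil)) .nil))), (632, (.cons 500 566 .nil (.cons 566 500 (.cons 599 665 .nil (.cons 665 599 .nil .nil)) .nil))), (665, (.cons 500 566 .nil (.cons 566 500 (.cons 599 632 .nil (.cons 632 599 .nil .nil)) .nil)))]
  [([500], (PX [401] [434,467,500,533])), ([566], (PX [401] [434,467,533,566]))]
  (by decide +kernel) ⟨w4_1215_500, w4_1215_566, trivial⟩

theorem v4_1235 : VW (PX [467] [434,500,533]) := VW.of base nl_ok fl_ok .nil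
  [(566, (.cons 599 632 .nil (.cons 632 599 .nil .nil))), (599, (.cons 566 632 .nil (.cons 632 566 .nil .nil))), (632, (.cons 566 599 .nil (.cons 599 566 .nil .nil)))]
  []
  (by decide +kernel) trivial

theorem w4_1236_401 : S (PX [] [401,434,533]) := VW.play 467 (PX [467] [401,434,533]) (by decide +kernel) v4_1199

theorem w4_1236_467 : S (PX [] [434,467,533]) := VW.play 401 (PX [401] [434,467,533]) (by decide +kernel) v4_1215

theorem w4_1236_500 : S (PX [] [434,500,533]) := VW.play 467 (PX [467] [434,500,533]) (by decide +kernel) v4_1235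

theorem v4_1236 : VW (PX [] [434,533]) := VW.of base nl_ok fl_ok .nil
  [(566, (.cons 467 500 .nil (.cons 500 467 (.cons 599 632 .nil (.cons 632 599 .nil .nil)) .nil)))]
  [([401], (PX [] [401,434,533])), ([467], (PX [] [434,467,533])), ([500], (PX [] [434,500,533]))]
  (by decide +kernel) ⟨w4_1236_401, w4_1236_467, w4_1236_500, trivial⟩

theorem v4_549 : VW (PX [501] [437,469,533]) := VW.of base nl_ok fl_ok .nil
  [(341, (.cons 373 405 .nil (.cons 405 373 .nil .nil))), (373, (.cons 341 405 .nil (.cons 405 341 .nil .nil))), (405, (.cons 341 373 .nil (.cons 373 341 .nil .nil)))]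
  []
  (by decide +kernel) trivial

theorem v4_597 : VW (PX [469] [437,501,533]) := VW.of base nl_ok fl_ok .nil
  [(565, (.cons 597 629 .nil (.cons 629 597 .nil .nil))), (597, (.cons 565 629 .nil (.cons 629 565 .nil .nil))), (629, (.cons 565 597 .nil (.cons 597 565 .nil .nil)))]
  []
  (by decide +kernel) trivial

theorem w4_606_469 : S (PX [] [437,469,533]) := VW.play 501 (PX [501] [437,469,533]) (by decide +kernel) v4_549

theorem w4_606_501 : S (PX [] [437,501,533]) := VW.play 469 (PX [469] [437,501,533]) (by decide +kernel) v4_597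

theorem v4_606 : VW (PX [] [437,533]) := VW.of base nl_ok fl_ok .nil
  [(405, (.cons 469 501 (.cons 341 373 .nil (.cons 373 341 .nil .nil)) (.cons 501 469 .nil .nil))), (565, (.cons 469 501 .nil (.cons 501 469 (.cons 597 629 .nil (.cons 629 597 .nil .nil)) .nil)))]
  [([469], (PX [] [437,469,533])), ([501], (PX [] [437,501,533]))]
  (by decide +kernel) ⟨w4_606_469, w4_606_501, trivial⟩

theorem v4_1240 : VW (PX [502] [440,471,533]) := VW.of base nl_ok fl_ok .nil
  [(347, (.cons 378 409 .nil (.cons 409 378 .nil .nil))), (378, (.cons 347 409 .nil (.cons 409 347 .nil .nil))), (409, (.cons 347 378 .nil (.cons 378 347 .nil .nil)))]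
  []
  (by decide +kernel) trivial

theorem v4_1255 : VW (PX [471] [440,502,533]) := VW.of base nl_ok fl_ok .nil
  [(564, (.cons 595 626 .nil (.cons 626 595 .nil .nil))), (595, (.cons 564 626 .nil (.cons 626 564 .nil .nil))), (626, (.cons 564 595 .nil (.cons 595 564 .nil .nil)))]
  []
  (by decide +kernel) trivial

theorem w4_1256_471 : S (PX [] [440,471,533]) := VW.play 502 (PX [502] [440,471,533]) (by decide +kernel) v4_1240

theorem w4_1256_502 : S (PX [] [440,502,533]) := VW.play 471 (PX [471] [440,502,533]) (by decide +kernel) v4_1255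

theorem v4_1256 : VW (PX [] [440,533]) := VW.of base nl_ok fl_ok .nil
  [(409, (.cons 471 502 (.cons 347 378 .nil (.cons 378 347 .nil .nil)) (.cons 502 471 .nil .nil))), (564, (.cons 471 502 .nil (.cons 502 471 (.cons 595 626 .nil (.cons 626 595 .nil .nil)) .nil)))]
  [([471], (PX [] [440,471,533])), ([502], (PX [] [440,502,533]))]
  (by decide +kernel) ⟨w4_1256_471, w4_1256_502, trivial⟩

theorem v4_1257 : VW (PX [434,599] [467,500,533,566]) := VW.of base nl_ok fl_ok .nil
  []
  []
  (by decide +kernel) trivial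

theorem v4_1258 : VW (PX [434,566] [467,500,533,599]) := VW.of base nl_ok fl_ok .nil
  []
  []
  (by decide +kernel) trivial

theorem w4_1259_566 : S (PX [434] [467,500,533,566]) := VW.play 599 (PX [434,599] [467,500,533,566]) (by decide +kernel) v4_1257

theorem w4_1259_599 : S (PX [434] [467,500,533,599]) := VW.play 566 (PX [434,566] [467,500,533,599]) (by decide +kernel) v4_1258

theorem v4_1259 : VW (PX [434] [467,500,533]) := VW.of base nl_ok fl_ok (.cons 566 599 .nil (.cons 599 566 .nil .nil))
  [(632, (.cons 566 599 .nil (.cons 599 566 .nil .nil))), (665, (.cons 566 599 .nil (.cons 599 566 .nil .nil))), (698, (.cons 566 599 .nil (.cons 599 566 .nil .nil)))]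
  [([566], (PX [434] [467,500,533,566])), ([599], (PX [434] [467,500,533,599]))]
  (by decide +kernel) ⟨w4_1259_566, w4_1259_599, trivial⟩

theorem v4_1260 : VW (PX [500] [467,533,566]) := VW.of base nl_ok fl_ok .nil
  [(599, (.cons 632 665 .nil (.cons 665 632 .nil .nil))), (632, (.cons 599 665 .nil (.cons 665 599 .nil .nil))), (665, (.cons 599 632 .nil (.cons 632 599 .nil .nil)))]
  []
  (by decide +kernel) trivial

theorem w4_1261_401 : S (PX [] [401,467,533]) := VW.play 434 (PX [434] [401,467,533]) (by decide +kernel) v4_1207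

theorem w4_1261_434 : S (PX [] [434,467,533]) := VW.play 401 (PX [401] [434,467,533]) (by decide +kernel) v4_1215

theorem w4_1261_500 : S (PX [] [467,500,533]) := VW.play 434 (PX [434] [467,500,533]) (by decide +kernel) v4_1259

theorem w4_1261_566 : S (PX [] [467,533,566]) := VW.play 500 (PX [500] [467,533,566]) (by decide +kernel) v4_1260

theorem v4_1261 : VW (PX [] [467,533]) := VW.of base nl_ok fl_ok .nil
  [(599, (.cons 500 566 (.cons 401 434 .nil (.cons 434 401 .nil .nil)) (.cons 566 500 (.cons 632 665 .nil (.cons 665 632 .nil .nil)) .nil)))]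
  [([401], (PX [] [401,467,533])), ([434], (PX [] [434,467,533])), ([500], (PX [] [467,500,533])), ([566], (PX [] [467,533,566]))]
  (by decide +kernel) ⟨w4_1261_401, w4_1261_434, w4_1261_500, w4_1261_566, trivial⟩

theorem v4_828 : VW (PX [437,597] [469,501,533,565]) := VW.of base nl_ok fl_ok .nil
  []
  []
  (by decide +kernel) trivial

theorem v4_829 : VW (PX [437,565] [469,501,533,597]) := VW.of base nl_ok fl_ok .nil
  []
  []
  (by decide +kernel) trivial

theorem w4_830_565 : S (PX [437] [469,501,533,565]) := VW.play 597 (PX [437,597] [469,501,533,565]) (by decide +kernel) v4_828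

theorem w4_830_597 : S (PX [437] [469,501,533,597]) := VW.play 565 (PX [437,565] [469,501,533,597]) (by decide +kernel) v4_829

theorem v4_830 : VW (PX [437] [469,501,533]) := VW.of base nl_ok fl_ok (.cons 565 597 .nil (.cons 597 565 .nil .nil))
  [(629, (.cons 565 597 .nil (.cons 597 565 .nil .nil))), (661, (.cons 565 597 .nil (.cons 597 565 .nil .nil))), (693, (.cons 565 597 .nil (.cons 597 565 .nil .nil)))]
  [([565], (PX [437] [469,501,533,565])), ([597], (PX [437] [469,501,533,597]))]
  (by decide +kernel) ⟨w4_830_565, w4_830_597, trivial⟩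

theorem v4_897 : VW (PX [501] [469,533,565]) := VW.of base nl_ok fl_ok .nil
  [(597, (.cons 629 661 .nil (.cons 661 629 .nil .nil))), (629, (.cons 597 661 .nil (.cons 661 597 .nil .nil))), (661, (.cons 597 629 .nil (.cons 629 597 .nil .nil)))]
  []
  (by decide +kernel) trivial

theorem w4_900_437 : S (PX [] [437,469,533]) := VW.play 501 (PX [501] [437,469,533]) (by decide +kernel) v4_549

theorem w4_900_501 : S (PX [] [469,501,533]) := VW.play 437 (PX [437] [469,501,533]) (by decide +kernel) v4_830

theorem w4_900_565 : S (PX [] [469,533,565]) := VW.play 501 (PX [501] [469,533,565]) (by decide +kernel) v4_897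

theorem v4_900 : VW (PX [] [469,533]) := VW.of base nl_ok fl_ok .nil
  [(405, (.cons 437 501 (.cons 341 373 .nil (.cons 373 341 .nil .nil)) (.cons 501 437 (.cons 565 597 .nil (.cons 597 565 .nil .nil)) .nil))), (597, (.cons 501 565 (.cons 405 437 .nil (.cons 437 405 .nil .nil)) (.cons 565 501 (.cons 629 661 .nil (.cons 661 629 .nil .nil)) .nil)))]
  [([437], (PX [] [437,469,533])), ([501], (PX [] [469,501,533])), ([565], (PX [] [469,533,565]))]
  (by decide +kernel) ⟨w4_900_437, w4_900_501, w4_900_565, trivial⟩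

theorem v4_1262 : VW (PX [440,595] [471,502,533,564]) := VW.of base nl_ok fl_ok .nil
  []
  []
  (by decide +kernel) trivial

theorem v4_1263 : VW (PX [440,564] [471,502,533,595]) := VW.of base nl_ok fl_ok .nil
  []
  []
  (by decide +kernel) trivial

theorem w4_1264_564 : S (PX [440] [471,502,533,564]) := VW.play 595 (PX [440,595] [471,502,533,564]) (by decide +kernel) v4_1262

theorem w4_1264_595 : S (PX [440] [471,502,533,595]) := VW.play 564 (PX [440,564] [471,502,533,595]) (by decide +kernel) v4_1263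

theorem v4_1264 : VW (PX [440] [471,502,533]) := VW.of base nl_ok fl_ok (.cons 564 595 .nil (.cons 595 564 .nil .nil))
  [(626, (.cons 564 595 .nil (.cons 595 564 .nil .nil))), (657, (.cons 564 595 .nil (.cons 595 564 .nil .nil))), (688, (.cons 564 595 .nil (.cons 595 564 .nil .nil)))]
  [([564], (PX [440] [471,502,533,564])), ([595], (PX [440] [471,502,533,595]))]
  (by decide +kernel) ⟨w4_1264_564, w4_1264_595, trivial⟩

theorem v4_1279 : VW (PX [502] [471,533,564]) := VW.of base nl_ok fl_ok .nil
  [(595, (.cons 626 657 .nil (.cons 657 626 .nil .nil))), (626, (.cons 595 657 .nil (.cons 657 595 .nil .nil))), (657, (.cons 595 626 .nil (.cons 626 595 .nil .nil)))]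
  []
  (by decide +kernel) trivial

theorem w4_1282_440 : S (PX [] [440,471,533]) := VW.play 502 (PX [502] [440,471,533]) (by decide +kernel) v4_1240

theorem w4_1282_502 : S (PX [] [471,502,533]) := VW.play 440 (PX [440] [471,502,533]) (by decide +kernel) v4_1264

theorem w4_1282_564 : S (PX [] [471,533,564]) := VW.play 502 (PX [502] [471,533,564]) (by decide +kernel) v4_1279

theorem v4_1282 : VW (PX [] [471,533]) := VW.of base nl_ok fl_ok .nil
  [(409, (.cons 440 502 (.cons 347 378 .nil (.cons 378 347 .nil .nil)) (.cons 502 440 (.cons 564 595 .nil (.cons 595 564 .nil .nil)) .nil))), (595, (.cons 502 564 (.cons 409 440 .nil (.cons 440 409 .nil .nil)) (.cons 564 502 (.cons 626 657 .nil (.cons 657 626 .nil .nil)) .nil)))]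
  [([440], (PX [] [440,471,533])), ([502], (PX [] [471,502,533])), ([564], (PX [] [471,533,564]))]
  (by decide +kernel) ⟨w4_1282_440, w4_1282_502, w4_1282_564, trivial⟩

theorem v4_1283 : VW (PX [467,632] [500,533,566,599]) := VW.of base nl_ok fl_ok .nil
  []
  []
  (by decide +kernel) trivial

theorem v4_1284 : VW (PX [467,599] [500,533,566,632]) := VW.of base nl_ok fl_ok .nil
  []
  []
  (by decide +kernel) trivial

theorem w4_1285_599 : S (PX [467] [500,533,566,599]) := VW.play 632 (PX [467,632] [500,533,566,599]) (by decide +kernel) v4_1283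

theorem w4_1285_632 : S (PX [467] [500,533,566,632]) := VW.play 599 (PX [467,599] [500,533,566,632]) (by decide +kernel) v4_1284

theorem v4_1285 : VW (PX [467] [500,533,566]) := VW.of base nl_ok fl_ok (.cons 599 632 .nil (.cons 632 599 .nil .nil))
  [(665, (.cons 599 632 .nil (.cons 632 599 .nil .nil))), (698, (.cons 599 632 .nil (.cons 632 599 .nil .nil))), (731, (.cons 599 632 .nil (.cons 632 599 .nil .nil)))]
  [([599], (PX [467] [500,533,566,599])), ([632], (PX [467] [500,533,566,632]))]
  (by decide +kernel) ⟨w4_1285_599, w4_1285_632, trivial⟩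

theorem v4_1290 : VW (PX [566] [500,533,599]) := VW.of base nl_ok fl_ok .nil
  [(401, (.cons 434 467 .nil (.cons 467 434 .nil .nil))), (434, (.cons 401 467 .nil (.cons 467 401 .nil .nil))), (467, (.cons 401 434 .nil (.cons 434 401 .nil .nil)))]
  []
  (by decide +kernel) trivial

theorem w4_1291_434 : S (PX [] [434,500,533]) := VW.play 467 (PX [467] [434,500,533]) (by decide +kernel) v4_1235

theorem w4_1291_467 : S (PX [] [467,500,533]) := VW.play 434 (PX [434] [467,500,533]) (by decide +kernel) v4_1259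

theorem w4_1291_566 : S (PX [] [500,533,566]) := VW.play 467 (PX [467] [500,533,566]) (by decide +kernel) v4_1285

theorem w4_1291_599 : S (PX [] [500,533,599]) := VW.play 566 (PX [566] [500,533,599]) (by decide +kernel) v4_1290

theorem v4_1291 : VW (PX [] [500,533]) := VW.of base nl_ok fl_ok .nil
  [(401, (.cons 434 467 .nil (.cons 467 434 (.cons 566 599 .nil (.cons 599 566 .nil .nil)) .nil))), (632, (.cons 566 599 (.cons 434 467 .nil (.cons 467 434 .nil .nil)) (.cons 599 566 .nil .nil)))]
  [([434], (PX [] [434,500,533])), ([467], (PX [] [467,500,533])), ([566], (PX [] [500,533,566])), ([599], (PX [] [500,533,599]))]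
  (by decide +kernel) ⟨w4_1291_434, w4_1291_467, w4_1291_566, w4_1291_599, trivial⟩

theorem v4_1110 : VW (PX [469,629] [501,533,565,597]) := VW.of base nl_ok fl_ok .nil
  []
  []
  (by decide +kernel) trivial

theorem v4_1111 : VW (PX [469,597] [501,533,565,629]) := VW.of base nl_ok fl_ok .nil
  []
  []
  (by decide +kernel) trivial

theorem w4_1112_597 : S (PX [469] [501,533,565,597]) := VW.play 629 (PX [469,629] [501,533,565,597]) (by decide +kernel) v4_1110

theorem w4_1112_629 : S (PX [469] [501,533,565,629]) := VW.play 597 (PX [469,597] [501,533,565,629]) (by decide +kernel) v4_1111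

theorem v4_1112 : VW (PX [469] [501,533,565]) := VW.of base nl_ok fl_ok (.cons 597 629 .nil (.cons 629 597 .nil .nil))
  [(661, (.cons 597 629 .nil (.cons 629 597 .nil .nil))), (693, (.cons 597 629 .nil (.cons 629 597 .nil .nil))), (725, (.cons 597 629 .nil (.cons 629 597 .nil .nil)))]
  [([597], (PX [469] [501,533,565,597])), ([629], (PX [469] [501,533,565,629]))]
  (by decide +kernel) ⟨w4_1112_597, w4_1112_629, trivial⟩

theorem v4_1117 : VW (PX [565] [501,533,597]) := VW.of base nl_ok fl_ok .nil
  [(405, (.cons 437 469 .nil (.cons 469 437 .nil .nil))), (437, (.cons 405 469 .nil (.cons 469 405 .nil .nil))), (469, (.cons 405 437 .nil (.cons 437 405 .nil .nil)))]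
  []
  (by decide +kernel) trivial

theorem w4_1129_437 : S (PX [] [437,501,533]) := VW.play 469 (PX [469] [437,501,533]) (by decide +kernel) v4_597

theorem w4_1129_469 : S (PX [] [469,501,533]) := VW.play 437 (PX [437] [469,501,533]) (by decide +kernel) v4_830

theorem w4_1129_565 : S (PX [] [501,533,565]) := VW.play 469 (PX [469] [501,533,565]) (by decide +kernel) v4_1112

theorem w4_1129_597 : S (PX [] [501,533,597]) := VW.play 565 (PX [565] [501,533,597]) (by decide +kernel) v4_1117

theorem v4_1129 : VW (PX [] [501,533]) := VW.of base nl_ok fl_ok .nil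
  [(405, (.cons 437 469 .nil (.cons 469 437 (.cons 565 597 .nil (.cons 597 565 .nil .nil)) .nil))), (629, (.cons 565 597 (.cons 437 469 .nil (.cons 469 437 .nil .nil)) (.cons 597 565 .nil .nil)))]
  [([437], (PX [] [437,501,533])), ([469], (PX [] [469,501,533])), ([565], (PX [] [501,533,565])), ([597], (PX [] [501,533,597]))]
  (by decide +kernel) ⟨w4_1129_437, w4_1129_469, w4_1129_565, w4_1129_597, trivial⟩

theorem v4_1292 : VW (PX [471,626] [502,533,564,595]) := VW.of base nl_ok fl_ok .nil
  []
  []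
  (by decide +kernel) trivial

theorem v4_1293 : VW (PX [471,595] [502,533,564,626]) := VW.of base nl_ok fl_ok .nil
  []
  []
  (by decide +kernel) trivial

theorem w4_1294_595 : S (PX [471] [502,533,564,595]) := VW.play 626 (PX [471,626] [502,533,564,595]) (by decide +kernel) v4_1292

theorem w4_1294_626 : S (PX [471] [502,533,564,626]) := VW.play 595 (PX [471,595] [502,533,564,626]) (by decide +kernel) v4_1293

theorem v4_1294 : VW (PX [471] [502,533,564]) := VW.of base nl_ok fl_ok (.cons 595 626 .nil (.cons 626 595 .nil .nil))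
  [(657, (.cons 595 626 .nil (.cons 626 595 .nil .nil))), (688, (.cons 595 626 .nil (.cons 626 595 .nil .nil))), (719, (.cons 595 626 .nil (.cons 626 595 .nil .nil)))]
  [([595], (PX [471] [502,533,564,595])), ([626], (PX [471] [502,533,564,626]))]
  (by decide +kernel) ⟨w4_1294_595, w4_1294_626, trivial⟩

theorem v4_1299 : VW (PX [564] [502,533,595]) := VW.of base nl_ok fl_ok .nil
  [(409, (.cons 440 471 .nil (.cons 471 440 .nil .nil))), (440, (.cons 409 471 .nil (.cons 471 409 .nil .nil))), (471, (.cons 409 440 .nil (.cons 440 409 .nil .nil)))]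
  []
  (by decide +kernel) trivial

theorem w4_1300_440 : S (PX [] [440,502,533]) := VW.play 471 (PX [471] [440,502,533]) (by decide +kernel) v4_1255

theorem w4_1300_471 : S (PX [] [471,502,533]) := VW.play 440 (PX [440] [471,502,533]) (by decide +kernel) v4_1264

theorem w4_1300_564 : S (PX [] [502,533,564]) := VW.play 471 (PX [471] [502,533,564]) (by decide +kernel) v4_1294

theorem w4_1300_595 : S (PX [] [502,533,595]) := VW.play 564 (PX [564] [502,533,595]) (by decide +kernel) v4_1299

theorem v4_1300 : VW (PX [] [502,533]) := VW.of base nl_ok fl_ok .nil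
  [(409, (.cons 440 471 .nil (.cons 471 440 (.cons 564 595 .nil (.cons 595 564 .nil .nil)) .nil))), (626, (.cons 564 595 (.cons 440 471 .nil (.cons 471 440 .nil .nil)) (.cons 595 564 .nil .nil)))]
  [([440], (PX [] [440,502,533])), ([471], (PX [] [471,502,533])), ([564], (PX [] [502,533,564])), ([595], (PX [] [502,533,595]))]
  (by decide +kernel) ⟨w4_1300_440, w4_1300_471, w4_1300_564, w4_1300_595, trivial⟩

theorem v4_1301 : VW (PX [] [529,533]) := VW.of base nl_ok fl_ok .nil
  [(530, (.cons 531 532 (.cons 527 528 .nil (.cons 528 527 .nil .nil)) (.cons 532 531 .nil .nil))), (531, (.cons 530 532 (.cons 527 528 .nil (.cons 528 527 .nil .nil)) (.cons 532 530 (.cons 534 535 .nil (.cons 535 534 .nil .nil)) .nil))), (532, (.cons 530 531 .nil (.cons 531 530 (.cons 534 535 .nil (.cons 535 534 .nil .nil)) .nil)))]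
  []
  (by decide +kernel) trivial

theorem v4_1305 : VW (PX [527,532] [528,530,531,533]) := VW.of base nl_ok fl_ok .nil
  []
  []
  (by decide +kernel) trivial

theorem w4_1307_528 : S (PX [532] [528,530,531,533]) := VW.play 527 (PX [527,532] [528,530,531,533]) (by decide +kernel) v4_1305

theorem v4_1307 : VW (PX [532] [530,531,533]) := VW.of base nl_ok fl_ok .nil
  [(527, (.cons 528 529 .nil (.cons 529 528 .nil .nil))), (529, (.cons 527 528 .nil (.cons 528 527 .nil .nil)))]
  [([528], (PX [532] [528,530,531,533]))]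
  (by decide +kernel) ⟨w4_1307_528, trivial⟩

theorem v4_1322 : VW (PX [531] [530,532,533]) := VW.of base nl_ok fl_ok .nil
  [(534, (.cons 535 536 .nil (.cons 536 535 .nil .nil))), (535, (.cons 534 536 .nil (.cons 536 534 .nil .nil))), (536, (.cons 534 535 .nil (.cons 535 534 .nil .nil)))]
  []
  (by decide +kernel) trivial

theorem w4_1323_531 : S (PX [] [530,531,533]) := VW.play 532 (PX [532] [530,531,533]) (by decide +kernel) v4_1307

theorem w4_1323_532 : S (PX [] [530,532,533]) := VW.play 531 (PX [531] [530,532,533]) (by decide +kernel) v4_1322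

theorem v4_1323 : VW (PX [] [530,533]) := VW.of base nl_ok fl_ok .nil
  [(529, (.cons 531 532 (.cons 527 528 .nil (.cons 528 527 .nil .nil)) (.cons 532 531 .nil .nil))), (534, (.cons 531 532 .nil (.cons 532 531 (.cons 535 536 .nil (.cons 536 535 .nil .nil)) .nil)))]
  [([531], (PX [] [530,531,533])), ([532], (PX [] [530,532,533]))]
  (by decide +kernel) ⟨w4_1323_531, w4_1323_532, trivial⟩

theorem v4_1324 : VW (PX [530,535] [531,532,533,534]) := VW.of base nl_ok fl_ok .nil
  []
  []
  (by decide +kernel) trivial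

theorem v4_1325 : VW (PX [530,534] [531,532,533,535]) := VW.of base nl_ok fl_ok .nil
  []
  []
  (by decide +kernel) trivial

theorem w4_1326_534 : S (PX [530] [531,532,533,534]) := VW.play 535 (PX [530,535] [531,532,533,534]) (by decide +kernel) v4_1324

theorem w4_1326_535 : S (PX [530] [531,532,533,535]) := VW.play 534 (PX [530,534] [531,532,533,535]) (by decide +kernel) v4_1325

theorem v4_1326 : VW (PX [530] [531,532,533]) := VW.of base nl_ok fl_ok (.cons 534 535 .nil (.cons 535 534 .nil .nil))
  [(536, (.cons 534 535 .nil (.cons 535 534 .nil .nil))), (537, (.cons 534 535 .nil (.cons 535 534 .nil .nil))), (538, (.cons 534 535 .nil (.cons 535 534 .nil .nil)))]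
  [([534], (PX [530] [531,532,533,534])), ([535], (PX [530] [531,532,533,535]))]
  (by decide +kernel) ⟨w4_1326_534, w4_1326_535, trivial⟩

theorem v4_1327 : VW (PX [532] [531,533,534]) := VW.of base nl_ok fl_ok .nil
  [(535, (.cons 536 537 .nil (.cons 537 536 .nil .nil))), (536, (.cons 535 537 .nil (.cons 537 535 .nil .nil))), (537, (.cons 535 536 .nil (.cons 536 535 .nil .nil)))]
  []
  (by decide +kernel) trivial

theorem w4_1328_530 : S (PX [] [530,531,533]) := VW.play 532 (PX [532] [530,531,533]) (by decide +kernel) v4_1307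

theorem w4_1328_532 : S (PX [] [531,532,533]) := VW.play 530 (PX [530] [531,532,533]) (by decide +kernel) v4_1326

theorem w4_1328_534 : S (PX [] [531,533,534]) := VW.play 532 (PX [532] [531,533,534]) (by decide +kernel) v4_1327

theorem v4_1328 : VW (PX [] [531,533]) := VW.of base nl_ok fl_ok .nil
  [(529, (.cons 530 532 (.cons 527 528 .nil (.cons 528 527 .nil .nil)) (.cons 532 530 (.cons 534 535 .nil (.cons 535 534 .nil .nil)) .nil))), (535, (.cons 532 534 (.cons 529 530 .nil (.cons 530 529 .nil .nil)) (.cons 534 532 (.cons 536 537 .nil (.cons 537 536 .nil .nil)) .nil)))]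
  [([530], (PX [] [530,531,533])), ([532], (PX [] [531,532,533])), ([534], (PX [] [531,533,534]))]
  (by decide +kernel) ⟨w4_1328_530, w4_1328_532, w4_1328_534, trivial⟩

theorem v4_1329 : VW (PX [531,536] [532,533,534,535]) := VW.of base nl_ok fl_ok .nil
  []
  []
  (by decide +kernel) trivial

theorem v4_1330 : VW (PX [531,535] [532,533,534,536]) := VW.of base nl_ok fl_ok .nil
  []
  []
  (by decide +kernel) trivial

theorem w4_1331_535 : S (PX [531] [532,533,534,535]) := VW.play 536 (PX [531,536] [532,533,534,535]) (by decide +kernel) v4_1329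

theorem w4_1331_536 : S (PX [531] [532,533,534,536]) := VW.play 535 (PX [531,535] [532,533,534,536]) (by decide +kernel) v4_1330

theorem v4_1331 : VW (PX [531] [532,533,534]) := VW.of base nl_ok fl_ok (.cons 535 536 .nil (.cons 536 535 .nil .nil))
  [(537, (.cons 535 536 .nil (.cons 536 535 .nil .nil))), (538, (.cons 535 536 .nil (.cons 536 535 .nil .nil))), (539, (.cons 535 536 .nil (.cons 536 535 .nil .nil)))]
  [([535], (PX [531] [532,533,534,535])), ([536], (PX [531] [532,533,534,536]))]
  (by decide +kernel) ⟨w4_1331_535, w4_1331_536, trivial⟩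

theorem v4_1336 : VW (PX [534] [532,533,535]) := VW.of base nl_ok fl_ok .nil
  [(529, (.cons 530 531 .nil (.cons 531 530 .nil .nil))), (530, (.cons 529 531 .nil (.cons 531 529 .nil .nil))), (531, (.cons 529 530 .nil (.cons 530 529 .nil .nil)))]
  []
  (by decide +kernel) trivial

theorem w4_1337_530 : S (PX [] [530,532,533]) := VW.play 531 (PX [531] [530,532,533]) (by decide +kernel) v4_1322

theorem w4_1337_531 : S (PX [] [531,532,533]) := VW.play 530 (PX [530] [531,532,533]) (by decide +kernel) v4_1326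

theorem w4_1337_534 : S (PX [] [532,533,534]) := VW.play 531 (PX [531] [532,533,534]) (by decide +kernel) v4_1331

theorem w4_1337_535 : S (PX [] [532,533,535]) := VW.play 534 (PX [534] [532,533,535]) (by decide +kernel) v4_1336

theorem v4_1337 : VW (PX [] [532,533]) := VW.of base nl_ok fl_ok .nil
  [(529, (.cons 530 531 .nil (.cons 531 530 (.cons 534 535 .nil (.cons 535 534 .nil .nil)) .nil))), (536, (.cons 534 535 (.cons 530 531 .nil (.cons 531 530 .nil .nil)) (.cons 535 534 .nil .nil)))]
  [([530], (PX [] [530,532,533])), ([531], (PX [] [531,532,533])), ([534], (PX [] [532,533,534])), ([535], (PX [] [532,533,535]))]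
  (by decide +kernel) ⟨w4_1337_530, w4_1337_531, w4_1337_534, w4_1337_535, trivial⟩

theorem v4_1338 : VW (PX [532,536] [531,533,534,535]) := VW.of base nl_ok fl_ok .nil
  []
  []
  (by decide +kernel) trivial

theorem w4_1339_531 : S (PX [536] [531,533,534,535]) := VW.play 532 (PX [532,536] [531,533,534,535]) (by decide +kernel) v4_1338

theorem w4_1339_532 : S (PX [536] [532,533,534,535]) := VW.play 531 (PX [531,536] [532,533,534,535]) (by decide +kernel) v4_1329

theorem v4_1339 : VW (PX [536] [533,534,535]) := VW.of base nl_ok fl_ok (.cons 531 532 .nil (.cons 532 531 .nil .nil))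
  [(528, (.cons 531 532 .nil (.cons 532 531 .nil .nil))), (529, (.cons 531 532 .nil (.cons 532 531 .nil .nil))), (530, (.cons 531 532 .nil (.cons 532 531 .nil .nil)))]
  [([531], (PX [536] [531,533,534,535])), ([532], (PX [536] [532,533,534,535]))]
  (by decide +kernel) ⟨w4_1339_531, w4_1339_532, trivial⟩

theorem v4_1340 : VW (PX [535] [533,534,536]) := VW.of base nl_ok fl_ok .nil
  [(530, (.cons 531 532 .nil (.cons 532 531 .nil .nil))), (531, (.cons 530 532 .nil (.cons 532 530 .nil .nil))), (532, (.cons 530 531 .nil (.cons 531 530 .nil .nil)))]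
  []
  (by decide +kernel) trivial

theorem w4_1354_531 : S (PX [] [531,533,534]) := VW.play 532 (PX [532] [531,533,534]) (by decide +kernel) v4_1327

theorem w4_1354_532 : S (PX [] [532,533,534]) := VW.play 531 (PX [531] [532,533,534]) (by decide +kernel) v4_1331

theorem w4_1354_535 : S (PX [] [533,534,535]) := VW.play 536 (PX [536] [533,534,535]) (by decide +kernel) v4_1339

theorem w4_1354_536 : S (PX [] [533,534,536]) := VW.play 535 (PX [535] [533,534,536]) (by decide +kernel) v4_1340

theorem v4_1354 : VW (PX [] [533,534]) := VW.of base nl_ok fl_ok .nil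
  [(530, (.cons 531 532 .nil (.cons 532 531 (.cons 535 536 .nil (.cons 536 535 .nil .nil)) .nil))), (537, (.cons 535 536 (.cons 531 532 .nil (.cons 532 531 .nil .nil)) (.cons 536 535 .nil .nil)))]
  [([531], (PX [] [531,533,534])), ([532], (PX [] [532,533,534])), ([535], (PX [] [533,534,535])), ([536], (PX [] [533,534,536]))]
  (by decide +kernel) ⟨w4_1354_531, w4_1354_532, w4_1354_535, w4_1354_536, trivial⟩

theorem v4_1355 : VW (PX [534] [533,535,536]) := VW.of base nl_ok fl_ok .nil
  [(537, (.cons 538 539 .nil (.cons 539 538 .nil .nil))), (538, (.cons 537 539 .nil (.cons 539 537 .nil .nil))), (539, (.cons 537 538 .nil (.cons 538 537 .nil .nil)))]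
  []
  (by decide +kernel) trivial

theorem w4_1358_532 : S (PX [] [532,533,535]) := VW.play 534 (PX [534] [532,533,535]) (by decide +kernel) v4_1336

theorem w4_1358_534 : S (PX [] [533,534,535]) := VW.play 536 (PX [536] [533,534,535]) (by decide +kernel) v4_1339

theorem w4_1358_536 : S (PX [] [533,535,536]) := VW.play 534 (PX [534] [533,535,536]) (by decide +kernel) v4_1355

theorem v4_1358 : VW (PX [] [533,535]) := VW.of base nl_ok fl_ok .nil
  [(531, (.cons 532 534 (.cons 529 530 .nil (.cons 530 529 .nil .nil)) (.cons 534 532 (.cons 536 537 .nil (.cons 537 536 .nil .nil)) .nil))), (537, (.cons 534 536 (.cons 531 532 .nil (.cons 532 531 .nil .nil)) (.cons 536 534 (.cons 538 539 .nil (.cons 539 538 .nil .nil)) .nil)))]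
  [([532], (PX [] [532,533,535])), ([534], (PX [] [533,534,535])), ([536], (PX [] [533,535,536]))]
  (by decide +kernel) ⟨w4_1358_532, w4_1358_534, w4_1358_536, trivial⟩

theorem w4_1359_534 : S (PX [] [533,534,536]) := VW.play 535 (PX [535] [533,534,536]) (by decide +kernel) v4_1340

theorem w4_1359_535 : S (PX [] [533,535,536]) := VW.play 534 (PX [534] [533,535,536]) (by decide +kernel) v4_1355

theorem v4_1359 : VW (PX [] [533,536]) := VW.of base nl_ok fl_ok .nil
  [(532, (.cons 534 535 (.cons 530 531 .nil (.cons 531 530 .nil .nil)) (.cons 535 534 .nil .nil))), (537, (.cons 534 535 .nil (.cons 535 534 (.cons 538 539 .nil (.cons 539 538 .nil .nil)) .nil)))]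
  [([534], (PX [] [533,534,536])), ([535], (PX [] [533,535,536]))]
  (by decide +kernel) ⟨w4_1359_534, w4_1359_535, trivial⟩

theorem v4_1360 : VW (PX [] [533,537]) := VW.of base nl_ok fl_ok .nil
  [(534, (.cons 535 536 (.cons 531 532 .nil (.cons 532 531 .nil .nil)) (.cons 536 535 .nil .nil))), (535, (.cons 534 536 (.cons 531 532 .nil (.cons 532 531 .nil .nil)) (.cons 536 534 (.cons 538 539 .nil (.cons 539 538 .nil .nil)) .nil))), (536, (.cons 534 535 .nil (.cons 535 534 (.cons 538 539 .nil (.cons 539 538 .nil .nil)) .nil)))]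
  []
  (by decide +kernel) trivial

theorem v4_1361 : VW (PX [502,657] [533,564,595,626]) := VW.of base nl_ok fl_ok .nil
  []
  []
  (by decide +kernel) trivial

theorem v4_1362 : VW (PX [502,626] [533,564,595,657]) := VW.of base nl_ok fl_ok .nil
  []
  []
  (by decide +kernel) trivial

theorem w4_1363_626 : S (PX [502] [533,564,595,626]) := VW.play 657 (PX [502,657] [533,564,595,626]) (by decide +kernel) v4_1361

theorem w4_1363_657 : S (PX [502] [533,564,595,657]) := VW.play 626 (PX [502,626] [533,564,595,657]) (by decide +kernel) v4_1362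

theorem v4_1363 : VW (PX [502] [533,564,595]) := VW.of base nl_ok fl_ok (.cons 626 657 .nil (.cons 657 626 .nil .nil))
  [(688, (.cons 626 657 .nil (.cons 657 626 .nil .nil))), (719, (.cons 626 657 .nil (.cons 657 626 .nil .nil))), (750, (.cons 626 657 .nil (.cons 657 626 .nil .nil)))]
  [([626], (PX [502] [533,564,595,626])), ([657], (PX [502] [533,564,595,657]))]
  (by decide +kernel) ⟨w4_1363_626, w4_1363_657, trivial⟩

theorem v4_1368 : VW (PX [595] [533,564,626]) := VW.of base nl_ok fl_ok .nil
  [(440, (.cons 471 502 .nil (.cons 502 471 .nil .nil))), (471, (.cons 440 502 .nil (.cons 502 440 .nil .nil))), (502, (.cons 440 471 .nil (.cons 471 440 .nil .nil)))]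
  []
  (by decide +kernel) trivial

theorem w4_1380_471 : S (PX [] [471,533,564]) := VW.play 502 (PX [502] [471,533,564]) (by decide +kernel) v4_1279

theorem w4_1380_502 : S (PX [] [502,533,564]) := VW.play 471 (PX [471] [502,533,564]) (by decide +kernel) v4_1294

theorem w4_1380_595 : S (PX [] [533,564,595]) := VW.play 502 (PX [502] [533,564,595]) (by decide +kernel) v4_1363

theorem w4_1380_626 : S (PX [] [533,564,626]) := VW.play 595 (PX [595] [533,564,626]) (by decide +kernel) v4_1368

theorem v4_1380 : VW (PX [] [533,564]) := VW.of base nl_ok fl_ok .nil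
  [(440, (.cons 471 502 .nil (.cons 502 471 (.cons 595 626 .nil (.cons 626 595 .nil .nil)) .nil))), (657, (.cons 595 626 (.cons 471 502 .nil (.cons 502 471 .nil .nil)) (.cons 626 595 .nil .nil)))]
  [([471], (PX [] [471,533,564])), ([502], (PX [] [502,533,564])), ([595], (PX [] [533,564,595])), ([626], (PX [] [533,564,626]))]
  (by decide +kernel) ⟨w4_1380_471, w4_1380_502, w4_1380_595, w4_1380_626, trivial⟩

theorem v4_1381 : VW (PX [501,661] [533,565,597,629]) := VW.of base nl_ok fl_ok .nil
  []
  []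
  (by decide +kernel) trivial

theorem v4_1382 : VW (PX [501,629] [533,565,597,661]) := VW.of base nl_ok fl_ok .nil
  []
  []
  (by decide +kernel) trivial

theorem w4_1383_629 : S (PX [501] [533,565,597,629]) := VW.play 661 (PX [501,661] [533,565,597,629]) (by decide +kernel) v4_1381

theorem w4_1383_661 : S (PX [501] [533,565,597,661]) := VW.play 629 (PX [501,629] [533,565,597,661]) (by decide +kernel) v4_1382

theorem v4_1383 : VW (PX [501] [533,565,597]) := VW.of base nl_ok fl_ok (.cons 629 661 .nil (.cons 661 629 .nil .nil))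
  [(693, (.cons 629 661 .nil (.cons 661 629 .nil .nil))), (725, (.cons 629 661 .nil (.cons 661 629 .nil .nil))), (757, (.cons 629 661 .nil (.cons 661 629 .nil .nil)))]
  [([629], (PX [501] [533,565,597,629])), ([661], (PX [501] [533,565,597,661]))]
  (by decide +kernel) ⟨w4_1383_629, w4_1383_661, trivial⟩

theorem v4_1388 : VW (PX [597] [533,565,629]) := VW.of base nl_ok fl_ok .nil
  [(437, (.cons 469 501 .nil (.cons 501 469 .nil .nil))), (469, (.cons 437 501 .nil (.cons 501 437 .nil .nil))), (501, (.cons 437 469 .nil (.cons 469 437 .nil .nil)))]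
  []
  (by decide +kernel) trivial

theorem w4_1400_469 : S (PX [] [469,533,565]) := VW.play 501 (PX [501] [469,533,565]) (by decide +kernel) v4_897

theorem w4_1400_501 : S (PX [] [501,533,565]) := VW.play 469 (PX [469] [501,533,565]) (by decide +kernel) v4_1112

theorem w4_1400_597 : S (PX [] [533,565,597]) := VW.play 501 (PX [501] [533,565,597]) (by decide +kernel) v4_1383

theorem w4_1400_629 : S (PX [] [533,565,629]) := VW.play 597 (PX [597] [533,565,629]) (by decide +kernel) v4_1388

theorem v4_1400 : VW (PX [] [533,565]) := VW.of base nl_ok fl_ok .nil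
  [(437, (.cons 469 501 .nil (.cons 501 469 (.cons 597 629 .nil (.cons 629 597 .nil .nil)) .nil))), (661, (.cons 597 629 (.cons 469 501 .nil (.cons 501 469 .nil .nil)) (.cons 629 597 .nil .nil)))]
  [([469], (PX [] [469,533,565])), ([501], (PX [] [501,533,565])), ([597], (PX [] [533,565,597])), ([629], (PX [] [533,565,629]))]
  (by decide +kernel) ⟨w4_1400_469, w4_1400_501, w4_1400_597, w4_1400_629, trivial⟩

theorem v4_1401 : VW (PX [500,632] [467,533,566,599]) := VW.of base nl_ok fl_ok .nil
  []
  []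
  (by decide +kernel) trivial

theorem w4_1402_467 : S (PX [632] [467,533,566,599]) := VW.play 500 (PX [500,632] [467,533,566,599]) (by decide +kernel) v4_1401

theorem w4_1402_500 : S (PX [632] [500,533,566,599]) := VW.play 467 (PX [467,632] [500,533,566,599]) (by decide +kernel) v4_1283

theorem v4_1402 : VW (PX [632] [533,566,599]) := VW.of base nl_ok fl_ok (.cons 467 500 .nil (.cons 500 467 .nil .nil))
  [(368, (.cons 467 500 .nil (.cons 500 467 .nil .nil))), (401, (.cons 467 500 .nil (.cons 500 467 .nil .nil))), (434, (.cons 467 500 .nil (.cons 500 467 .nil .nil)))]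
  [([467], (PX [632] [467,533,566,599])), ([500], (PX [632] [500,533,566,599]))]
  (by decide +kernel) ⟨w4_1402_467, w4_1402_500, trivial⟩

theorem v4_1403 : VW (PX [599] [533,566,632]) := VW.of base nl_ok fl_ok .nil
  [(434, (.cons 467 500 .nil (.cons 500 467 .nil .nil))), (467, (.cons 434 500 .nil (.cons 500 434 .nil .nil))), (500, (.cons 434 467 .nil (.cons 467 434 .nil .nil)))]
  []
  (by decide +kernel) trivial

theorem w4_1417_467 : S (PX [] [467,533,566]) := VW.play 500 (PX [500] [467,533,566]) (by decide +kernel) v4_1260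

theorem w4_1417_500 : S (PX [] [500,533,566]) := VW.play 467 (PX [467] [500,533,566]) (by decide +kernel) v4_1285

theorem w4_1417_599 : S (PX [] [533,566,599]) := VW.play 632 (PX [632] [533,566,599]) (by decide +kernel) v4_1402

theorem w4_1417_632 : S (PX [] [533,566,632]) := VW.play 599 (PX [599] [533,566,632]) (by decide +kernel) v4_1403

theorem v4_1417 : VW (PX [] [533,566]) := VW.of base nl_ok fl_ok .nil
  [(434, (.cons 467 500 .nil (.cons 500 467 (.cons 599 632 .nil (.cons 632 599 .nil .nil)) .nil))), (665, (.cons 599 632 (.cons 467 500 .nil (.cons 500 467 .nil .nil)) (.cons 632 599 .nil .nil)))]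
  [([467], (PX [] [467,533,566])), ([500], (PX [] [500,533,566])), ([599], (PX [] [533,566,599])), ([632], (PX [] [533,566,632]))]
  (by decide +kernel) ⟨w4_1417_467, w4_1417_500, w4_1417_599, w4_1417_632, trivial⟩

theorem v4_1432 : VW (PX [564] [533,595,626]) := VW.of base nl_ok fl_ok .nil
  [(657, (.cons 688 719 .nil (.cons 719 688 .nil .nil))), (688, (.cons 657 719 .nil (.cons 719 657 .nil .nil))), (719, (.cons 657 688 .nil (.cons 688 657 .nil .nil)))]
  []
  (by decide +kernel) trivial

theorem w4_1435_502 : S (PX [] [502,533,595]) := VW.play 564 (PX [564] [502,533,595]) (by decide +kernel) v4_1299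

theorem w4_1435_564 : S (PX [] [533,564,595]) := VW.play 502 (PX [502] [533,564,595]) (by decide +kernel) v4_1363

theorem w4_1435_626 : S (PX [] [533,595,626]) := VW.play 564 (PX [564] [533,595,626]) (by decide +kernel) v4_1432

theorem v4_1435 : VW (PX [] [533,595]) := VW.of base nl_ok fl_ok .nil
  [(471, (.cons 502 564 (.cons 409 440 .nil (.cons 440 409 .nil .nil)) (.cons 564 502 (.cons 626 657 .nil (.cons 657 626 .nil .nil)) .nil))), (657, (.cons 564 626 (.cons 471 502 .nil (.cons 502 471 .nil .nil)) (.cons 626 564 (.cons 688 719 .nil (.cons 719 688 .nil .nil)) .nil)))]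
  [([502], (PX [] [502,533,595])), ([564], (PX [] [533,564,595])), ([626], (PX [] [533,595,626]))]
  (by decide +kernel) ⟨w4_1435_502, w4_1435_564, w4_1435_626, trivial⟩

theorem v4_1450 : VW (PX [565] [533,597,629]) := VW.of base nl_ok fl_ok .nil
  [(661, (.cons 693 725 .nil (.cons 725 693 .nil .nil))), (693, (.cons 661 725 .nil (.cons 725 661 .nil .nil))), (725, (.cons 661 693 .nil (.cons 693 661 .nil .nil)))]
  []
  (by decide +kernel) trivial

theorem w4_1453_501 : S (PX [] [501,533,597]) := VW.play 565 (PX [565] [501,533,597]) (by decide +kernel) v4_1117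

theorem w4_1453_565 : S (PX [] [533,565,597]) := VW.play 501 (PX [501] [533,565,597]) (by decide +kernel) v4_1383

theorem w4_1453_629 : S (PX [] [533,597,629]) := VW.play 565 (PX [565] [533,597,629]) (by decide +kernel) v4_1450

theorem v4_1453 : VW (PX [] [533,597]) := VW.of base nl_ok fl_ok .nil
  [(469, (.cons 501 565 (.cons 405 437 .nil (.cons 437 405 .nil .nil)) (.cons 565 501 (.cons 629 661 .nil (.cons 661 629 .nil .nil)) .nil))), (661, (.cons 565 629 (.cons 469 501 .nil (.cons 501 469 .nil .nil)) (.cons 629 565 (.cons 693 725 .nil (.cons 725 693 .nil .nil)) .nil)))]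
  [([501], (PX [] [501,533,597])), ([565], (PX [] [533,565,597])), ([629], (PX [] [533,597,629]))]
  (by decide +kernel) ⟨w4_1453_501, w4_1453_565, w4_1453_629, trivial⟩

theorem v4_1454 : VW (PX [566] [533,599,632]) := VW.of base nl_ok fl_ok .nil
  [(665, (.cons 698 731 .nil (.cons 731 698 .nil .nil))), (698, (.cons 665 731 .nil (.cons 731 665 .nil .nil))), (731, (.cons 665 698 .nil (.cons 698 665 .nil .nil)))]
  []
  (by decide +kernel) trivial

theorem w4_1457_500 : S (PX [] [500,533,599]) := VW.play 566 (PX [566] [500,533,599]) (by decide +kernel) v4_1290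

theorem w4_1457_566 : S (PX [] [533,566,599]) := VW.play 632 (PX [632] [533,566,599]) (by decide +kernel) v4_1402

theorem w4_1457_632 : S (PX [] [533,599,632]) := VW.play 566 (PX [566] [533,599,632]) (by decide +kernel) v4_1454

theorem v4_1457 : VW (PX [] [533,599]) := VW.of base nl_ok fl_ok .nil
  [(467, (.cons 500 566 (.cons 401 434 .nil (.cons 434 401 .nil .nil)) (.cons 566 500 (.cons 632 665 .nil (.cons 665 632 .nil .nil)) .nil))), (665, (.cons 566 632 (.cons 467 500 .nil (.cons 500 467 .nil .nil)) (.cons 632 566 (.cons 698 731 .nil (.cons 731 698 .nil .nil)) .nil)))]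
  [([500], (PX [] [500,533,599])), ([566], (PX [] [533,566,599])), ([632], (PX [] [533,599,632]))]
  (by decide +kernel) ⟨w4_1457_500, w4_1457_566, w4_1457_632, trivial⟩

theorem w4_1458_564 : S (PX [] [533,564,626]) := VW.play 595 (PX [595] [533,564,626]) (by decide +kernel) v4_1368

theorem w4_1458_595 : S (PX [] [533,595,626]) := VW.play 564 (PX [564] [533,595,626]) (by decide +kernel) v4_1432

theorem v4_1458 : VW (PX [] [533,626]) := VW.of base nl_ok fl_ok .nil
  [(502, (.cons 564 595 (.cons 440 471 .nil (.cons 471 440 .nil .nil)) (.cons 595 564 .nil .nil))), (657, (.cons 564 595 .nil (.cons 595 564 (.cons 688 719 .nil (.cons 719 688 .nil .nil)) .nil)))]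
  [([564], (PX [] [533,564,626])), ([595], (PX [] [533,595,626]))]
  (by decide +kernel) ⟨w4_1458_564, w4_1458_595, trivial⟩

theorem w4_1459_565 : S (PX [] [533,565,629]) := VW.play 597 (PX [597] [533,565,629]) (by decide +kernel) v4_1388

theorem w4_1459_597 : S (PX [] [533,597,629]) := VW.play 565 (PX [565] [533,597,629]) (by decide +kernel) v4_1450

theorem v4_1459 : VW (PX [] [533,629]) := VW.of base nl_ok fl_ok .nil
  [(501, (.cons 565 597 (.cons 437 469 .nil (.cons 469 437 .nil .nil)) (.cons 597 565 .nil .nil))), (661, (.cons 565 597 .nil (.cons 597 565 (.cons 693 725 .nil (.cons 725 693 .nil .nil)) .nil)))]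
  [([565], (PX [] [533,565,629])), ([597], (PX [] [533,597,629]))]
  (by decide +kernel) ⟨w4_1459_565, w4_1459_597, trivial⟩

theorem w4_1460_566 : S (PX [] [533,566,632]) := VW.play 599 (PX [599] [533,566,632]) (by decide +kernel) v4_1403

theorem w4_1460_599 : S (PX [] [533,599,632]) := VW.play 566 (PX [566] [533,599,632]) (by decide +kernel) v4_1454

theorem v4_1460 : VW (PX [] [533,632]) := VW.of base nl_ok fl_ok .nil
  [(500, (.cons 566 599 (.cons 434 467 .nil (.cons 467 434 .nil .nil)) (.cons 599 566 .nil .nil))), (665, (.cons 566 599 .nil (.cons 599 566 (.cons 698 731 .nil (.cons 731 698 .nil .nil)) .nil)))]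
  [([566], (PX [] [533,566,632])), ([599], (PX [] [533,599,632]))]
  (by decide +kernel) ⟨w4_1460_566, w4_1460_599, trivial⟩

theorem v4_1461 : VW (PX [] [533,657]) := VW.of base nl_ok fl_ok .nil
  [(564, (.cons 595 626 (.cons 471 502 .nil (.cons 502 471 .nil .nil)) (.cons 626 595 .nil .nil))), (595, (.cons 564 626 (.cons 471 502 .nil (.cons 502 471 .nil .nil)) (.cons 626 564 (.cons 688 719 .nil (.cons 719 688 .nil .nil)) .nil))), (626, (.cons 564 595 .nil (.cons 595 564 (.cons 688 719 .nil (.cons 719 688 .nil .nil)) .nil)))]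
  []
  (by decide +kernel) trivial

theorem v4_1462 : VW (PX [] [533,661]) := VW.of base nl_ok fl_ok .nil
  [(565, (.cons 597 629 (.cons 469 501 .nil (.cons 501 469 .nil .nil)) (.cons 629 597 .nil .nil))), (597, (.cons 565 629 (.cons 469 501 .nil (.cons 501 469 .nil .nil)) (.cons 629 565 (.cons 693 725 .nil (.cons 725 693 .nil .nil)) .nil))), (629, (.cons 565 597 .nil (.cons 597 565 (.cons 693 725 .nil (.cons 725 693 .nil .nil)) .nil)))]
  []
  (by decide +kernel) trivial

theorem v4_1463 : VW (PX [] [533,665]) := VW.of base nl_ok fl_ok .nil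
  [(566, (.cons 599 632 (.cons 467 500 .nil (.cons 500 467 .nil .nil)) (.cons 632 599 .nil .nil))), (599, (.cons 566 632 (.cons 467 500 .nil (.cons 500 467 .nil .nil)) (.cons 632 566 (.cons 698 731 .nil (.cons 731 698 .nil .nil)) .nil))), (632, (.cons 566 599 .nil (.cons 599 566 (.cons 698 731 .nil (.cons 731 698 .nil .nil)) .nil)))]
  []
  (by decide +kernel) trivial

theorem r401 : S (Nat.lor X2 (bits [533, 401])) := VW.play 394 (PX [] [401,533]) (by decide +kernel) v4_1211

theorem r405 : S (Nat.lor X2 (bits [533, 405])) := VW.play 394 (PX [] [405,533]) (by decide +kernel) v4_310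

theorem r409 : S (Nat.lor X2 (bits [533, 409])) := VW.play 394 (PX [] [409,533]) (by decide +kernel) v4_1212

theorem r434 : S (Nat.lor X2 (bits [533, 434])) := VW.play 394 (PX [] [434,533]) (by decide +kernel) v4_1236

theorem r437 : S (Nat.lor X2 (bits [533, 437])) := VW.play 394 (PX [] [437,533]) (by decide +kernel) v4_606

theorem r440 : S (Nat.lor X2 (bits [533, 440])) := VW.play 394 (PX [] [440,533]) (by decide +kernel) v4_1256

theorem r467 : S (Nat.lor X2 (bits [533, 467])) := VW.play 394 (PX [] [467,533]) (by decide +kernel) v4_1261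

theorem r469 : S (Nat.lor X2 (bits [533, 469])) := VW.play 394 (PX [] [469,533]) (by decide +kernel) v4_900

theorem r471 : S (Nat.lor X2 (bits [533, 471])) := VW.play 394 (PX [] [471,533]) (by decide +kernel) v4_1282

theorem r500 : S (Nat.lor X2 (bits [533, 500])) := VW.play 394 (PX [] [500,533]) (by decide +kernel) v4_1291

theorem r501 : S (Nat.lor X2 (bits [533, 501])) := VW.play 394 (PX [] [501,533]) (by decide +kernel) v4_1129

theorem r502 : S (Nat.lor X2 (bits [533, 502])) := VW.play 394 (PX [] [502,533]) (by decide +kernel) v4_1300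

theorem r529 : S (Nat.lor X2 (bits [533, 529])) := VW.play 394 (PX [] [529,533]) (by decide +kernel) v4_1301

theorem r530 : S (Nat.lor X2 (bits [533, 530])) := VW.play 394 (PX [] [530,533]) (by decide +kernel) v4_1323

theorem r531 : S (Nat.lor X2 (bits [533, 531])) := VW.play 394 (PX [] [531,533]) (by decide +kernel) v4_1328

theorem r532 : S (Nat.lor X2 (bits [533, 532])) := VW.play 394 (PX [] [532,533]) (by decide +kernel) v4_1337

theorem r534 : S (Nat.lor X2 (bits [533, 534])) := VW.play 394 (PX [] [533,534]) (by decide +kernel) v4_1354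

theorem r535 : S (Nat.lor X2 (bits [533, 535])) := VW.play 394 (PX [] [533,535]) (by decide +kernel) v4_1358

theorem r536 : S (Nat.lor X2 (bits [533, 536])) := VW.play 394 (PX [] [533,536]) (by decide +kernel) v4_1359

theorem r537 : S (Nat.lor X2 (bits [533, 537])) := VW.play 394 (PX [] [533,537]) (by decide +kernel) v4_1360

theorem r564 : S (Nat.lor X2 (bits [533, 564])) := VW.play 394 (PX [] [533,564]) (by decide +kernel) v4_1380

theorem r565 : S (Nat.lor X2 (bits [533, 565])) := VW.play 394 (PX [] [533,565]) (by decide +kernel) v4_1400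

theorem r566 : S (Nat.lor X2 (bits [533, 566])) := VW.play 394 (PX [] [533,566]) (by decide +kernel) v4_1417

theorem r595 : S (Nat.lor X2 (bits [533, 595])) := VW.play 394 (PX [] [533,595]) (by decide +kernel) v4_1435

theorem r597 : S (Nat.lor X2 (bits [533, 597])) := VW.play 394 (PX [] [533,597]) (by decide +kernel) v4_1453

theorem r599 : S (Nat.lor X2 (bits [533, 599])) := VW.play 394 (PX [] [533,599]) (by decide +kernel) v4_1457

theorem r626 : S (Nat.lor X2 (bits [533, 626])) := VW.play 394 (PX [] [533,626]) (by decide +kernel) v4_1458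

theorem r629 : S (Nat.lor X2 (bits [533, 629])) := VW.play 394 (PX [] [533,629]) (by decide +kernel) v4_1459

theorem r632 : S (Nat.lor X2 (bits [533, 632])) := VW.play 394 (PX [] [533,632]) (by decide +kernel) v4_1460

theorem r657 : S (Nat.lor X2 (bits [533, 657])) := VW.play 394 (PX [] [533,657]) (by decide +kernel) v4_1461

theorem r661 : S (Nat.lor X2 (bits [533, 661])) := VW.play 394 (PX [] [533,661]) (by decide +kernel) v4_1462

theorem r665 : S (Nat.lor X2 (bits [533, 665])) := VW.play 394 (PX [] [533,665]) (by decide +kernel) v4_1463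

theorem all : RT X2 533 (401 :: 405 :: 409 :: 434 :: 437 :: 440 :: 467 :: 469 :: 471 :: 500 :: 501 :: 502 :: 529 :: 530 :: 531 :: 532 :: 534 :: 535 :: 536 :: 537 :: 564 :: 565 :: 566 :: 595 :: 597 :: 599 :: 626 :: 629 :: 632 :: 657 :: 661 :: 665 :: []) := ⟨r401, r405, r409, r434, r437, r440, r467, r469, r471, r500, r501, r502, r529, r530, r531, r532, r534, r535, r536, r537, r564, r565, r566, r595, r597, r599, r626, r629, r632, r657, r661, r665, trivial⟩

end Pool.Agent.H94.Five.Mid.K10_5_0
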