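import Pool.Agent.H94.Five.Mid.Fam

set_option autoImplicit false
set_option linter.all false
set_option maxRecDepth 100000

/-! Second has the cell (10, 6): some of the other stones. -/

namespace Pool.Agent.H94.Five.Mid.K10_6_0

open Pool.Agent.H79.Five Pool.Agent.H10.Five Pool.Agent.H94.Five.M

abbrev nl : List Ent := [n0, n3, n4, n6, n8, n9, n10, n11, n16, n17, n21, n22]

theorem nl_ok : AC XB M0 nl := .cons n0k <| .cons n3k <| .cons n4k <| .cons n6k <| .cons n8k <| .cons n9k <| .cons n10k <| .cons n11k <| .cons n16k <| .cons n17k <| .cons n21k <| .cons n22k <| .nil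

abbrev fl : List Ent := (x73 :: x77 :: x93 :: x103 :: x104 :: x130 :: x136 :: x142 :: x155 :: x161 :: x167 :: x171 :: x174 :: x183 :: x190 :: x200 :: x201 :: x204 :: x214 :: x221 :: x223 :: x228 :: x243 :: x245 :: x255 :: x258 :: x260 :: x266 :: x269 :: x276 :: x277 :: x284 :: x310 :: x313 :: x316 :: x318 :: x322 :: x328 :: x332 :: x337 :: x339 :: x341 :: x357 :: x363 :: x364 :: x371 :: x375 :: x383 :: x390 :: x393 :: x400 :: x413 :: x415 :: x420 :: x424 :: x426 :: x427 :: x434 :: x437 :: x444 :: x451 :: x452 :: x462 :: x464 :: x472 :: x501 :: x511 :: x518 :: [])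

theorem fl_ok : AC XB M0 fl := .cons x73k <| .cons x77k <| .cons x93k <| .cons x103k <| .cons x104k <| .cons x130k <| .cons x136k <| .cons x142k <| .cons x155k <| .cons x161k <| .cons x167k <| .cons x171k <| .cons x174k <| .cons x183k <| .cons x190k <| .cons x200k <| .cons x201k <| .cons x204k <| .cons x214k <| .cons x221k <| .cons x223k <| .cons x228k <| .cons x243k <| .cons x245k <| .cons x255k <| .cons x258k <| .cons x260k <| .cons x266k <| .cons x269k <| .cons x276k <| .cons x277k <| .cons x284k <| .cons x310k <| .cons x313k <| .cons x316k <| .cons x318k <| .cons x322k <| .cons x328k <| .cons x332k <| .cons x337k <| .cons x339k <| .cons x341k <| .cons x357k <| .cons x363k <| .cons x364k <| .cons x371k <| .cons x375k <| .cons x383k <| .cons x390k <| .cons x393k <| .cons x400k <| .cons x413k <| .cons x415k <| .cons x420k <| .cons x424k <| .cons x426k <| .cons x427k <| .cons x434k <| .cons x437k <| .cons x444k <| .cons x451k <| .cons x452k <| .cons x462k <| .cons x464k <| .cons x472k <| .cons x501k <| .cons x511k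 <| .cons x518k <| .nil

theorem b4_484 : S (PX [367,499] [202,334,433,466,565]) := S.of (.q 395 (.a 1 [] (.d 393 392 392 393 397)
 (.a 1 [392] (.d 397 393 393 394 398)
 (.a 0 [393,397] (.q 427 (.a 1 [] (.d 331 1323 299 1355 459)
 (.a 1 [299] (.d 459 1355 331 1387 491)
 (.a 0 [331,459] (.q 429 (.a 1 [] (.d 330 2345 297 2378 462)
 (.a 1 [297] (.d 462 2378 330 2411 495)
 (.a 0 [330,462] (.q 332 (.a 1 [] (.d 301 3342 270 3373 425)
 (.a 1 [270] (.d 425 3373 301 3404 456)
 (.a 1 [301] (.r 425 3404 456 (.r 428 425 426 (.d 364 1324 300 1356 460)))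
 (.a 0 [425] (.q 460 (.a 1 [] (.d 361 2376 328 2409 493)
 (.a 1 [328] (.d 493 2409 361 2442 526)
 (.a 1 [361] (.d 398 3408 336 3439 491)
 .e))))
 .e)))))
 .e))))
 .e))))
 .e)))) (by decide +kernel)

theorem b4_485 : S (PX [367,499] [235,334,433,466,565]) := S.of (.q 395 (.a 1 [] (.d 393 392 392 393 397)
 (.a 1 [392] (.d 397 393 393 394 398)
 (.a 0 [393,397] (.q 427 (.a 1 [] (.d 331 1323 299 1355 459)
 (.a 1 [299] (.d 459 1355 331 1387 491)
 (.a 0 [331,459] (.q 429 (.a 1 [] (.d 330 2345 297 2378 462)
 (.a 1 [297] (.d 462 2378 330 2411 495)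
 (.a 0 [330,462] (.q 332 (.a 1 [] (.d 301 3342 270 3373 425)
 (.a 1 [270] (.d 425 3373 301 3404 456)
 (.a 1 [301] (.r 425 3404 456 (.r 428 425 426 (.d 364 1324 300 1356 460)))
 (.a 0 [425] (.q 460 (.a 1 [] (.d 361 2376 328 2409 493)
 (.a 1 [328] (.d 493 2409 361 2442 526)
 (.a 1 [361] (.d 398 3408 336 3439 491)
 .e))))
 .e)))))
 .e))))
 .e))))
 .e)))) (by decide +kernel)

theorem b4_486 : S (PX [367,499] [268,334,433,466,565]) := S.of (.q 330 (.a 1 [] (.d 297 2312 264 2345 429)
 (.a 1 [264] (.d 429 2345 297 2378 462)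
 (.a 0 [297,429] (.q 362 (.a 1 [] (.d 298 1290 266 1322 426)
 (.a 1 [266] (.d 426 1322 298 1354 458)
 (.a 0 [298,426] (.q 364 (.a 1 [] (.d 361 360 360 361 365)
 (.a 1 [360] (.d 365 361 361 362 366)
 (.a 0 [361,365] (.q 332 (.a 1 [] (.d 428 1324 300 1356 460)
 (.a 1 [300] (.d 425 3373 301 3404 456)
 .e)))
 .e))))
 .e))))
 .e)))) (by decide +kernel)

theorem b4_487 : S (PX [367,499] [332,334,433,466,565]) := S.of (.q 330 (.a 1 [] (.d 297 2312 264 2345 429)
 (.a 1 [264] (.d 429 2345 297 2378 462)
 (.a 0 [297,429] (.q 362 (.a 1 [] (.d 298 1290 266 1322 426)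
 (.a 1 [266] (.d 426 1322 298 1354 458)
 (.a 0 [298,426] (.q 361 (.a 1 [] (.d 360 359 359 360 364)
 (.a 1 [359] (.d 364 360 360 361 365)
 (.a 0 [360,364] (.q 299 (.a 1 [] (.d 268 3309 237 3340 392)
 (.a 1 [237] (.d 392 3340 268 3371 423)
 (.a 1 [268] (.r 392 3371 423 (.r 395 392 393 (.d 331 1291 267 1323 427)))
 (.a 0 [392] (.q 395 (.a 1 [] (.d 397 393 393 394 398)
 (.a 1 [393] (.d 331 1291 267 1323 427)
 .e)))
 .e)))))
 .e))))
 .e))))
 .e)))) (by decide +kernel)

theorem b4_488 : S (PX [367,499] [333,334,433,466,565]) := S.of (.q 332 (.a 1 [] (.d 301 3342 270 3373 425)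
 (.a 1 [270] (.d 425 3373 301 3404 456)
 (.a 0 [301,425] (.q 364 (.a 1 [] (.d 300 1292 268 1324 428)
 (.a 1 [268] (.d 428 1324 300 1356 460)
 (.a 0 [300,428] (.q 330 (.a 1 [] (.d 297 2312 264 2345 429)
 (.a 1 [264] (.d 429 2345 297 2378 462)
 (.a 1 [297] (.r 365 363 366 (.r 362 361 361 (.d 426 1322 298 1354 458)))
 .e))))
 .e))))
 .e)))) (by decide +kernel)

theorem b4_489 : S (PX [367,499] [334,336,433,466,565]) := S.of (.q 332 (.a 1 [] (.d 301 3342 270 3373 425)
 (.a 1 [270] (.d 425 3373 301 3404 456)
 (.a 0 [301,425] (.q 364 (.a 1 [] (.d 300 1292 268 1324 428)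
 (.a 1 [268] (.d 428 1324 300 1356 460)
 (.a 0 [300,428] (.q 330 (.a 1 [] (.d 297 2312 264 2345 429)
 (.a 1 [264] (.d 429 2345 297 2378 462)
 (.a 1 [297] (.r 365 363 366 (.r 362 361 361 (.d 426 1322 298 1354 458)))
 .e))))
 .e))))
 .e)))) (by decide +kernel)

theorem b4_490 : S (PX [367,499] [334,433,457,466,565]) := S.of (.q 395 (.a 1 [] (.d 393 392 392 393 397)
 (.a 1 [392] (.d 397 393 393 394 398)
 (.a 0 [393,397] (.q 427 (.a 1 [] (.d 331 1323 299 1355 459)
 (.a 1 [299] (.d 459 1355 331 1387 491)
 (.a 0 [331,459] (.q 330 (.a 1 [] (.d 297 2312 264 2345 429)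
 (.a 1 [264] (.d 429 2345 297 2378 462)
 (.a 0 [297,429] (.q 361 (.a 1 [] (.d 328 2343 295 2376 460)
 (.a 1 [295] (.d 460 2376 328 2409 493)
 (.a 0 [328,460] (.q 458 (.a 1 [] (.d 489 3437 365 3468 520)
 (.a 1 [365] (.r 362 1354 426 (.d 360 359 359 360 364))
 .e)))
 .e))))
 .e))))
 .e))))
 .e)))) (by decide +kernel)

theorem b4_499 : S (PX [334,499] [365,367,433,466,565]) := S.of (.q 332 (.a 1 [] (.d 301 3342 270 3373 425)
 (.a 1 [270] (.d 425 3373 301 3404 456)
 (.a 0 [301,425] (.q 330 (.a 1 [] (.d 297 2312 264 2345 429)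
 (.a 1 [264] (.d 429 2345 297 2378 462)
 (.a 0 [297,429] (.q 397 (.a 1 [] (.d 395 393 393 394 398)
 (.a 1 [393] (.r 331 330 333 (.r 395 394 398 (.d 427 1323 299 1355 459)))
 (.a 1 [398] (.r 331 330 333 (.r 395 393 393 (.d 427 1323 299 1355 459)))
 (.a 0 [395] (.q 364 (.a 1 [] (.d 300 1292 268 1324 428)
 (.a 1 [268] (.d 428 1324 300 1356 460)
 (.a 1 [300] (.r 331 330 333 (.d 430 2346 298 2379 463))
 .e))))
 .e)))))
 .e))))
 .e)))) (by decide +kernel)

theorem b4_503 : S (PX [367,499] [400,401,433,466,565]) := S.of (.q 429 (.a 1 [] (.d 330 2345 297 2378 462)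
 (.a 1 [297] (.d 462 2378 330 2411 495)
 (.a 0 [330,462] (.q 398 (.a 1 [] (.d 336 3377 305 3408 460)
 (.a 1 [305] (.d 460 3408 336 3439 491)
 (.a 0 [336,460] (.q 332 (.a 1 [] (.d 301 3342 270 3373 425)
 (.a 1 [270] (.d 425 3373 301 3404 456)
 (.a 0 [301,425] (.q 365 (.a 1 [] (.d 299 2314 266 2347 431)
 (.a 1 [266] (.d 431 2347 299 2380 464)
 (.a 1 [299] (.r 364 363 366 (.d 300 1292 268 1324 428))
 .e))))
 .e))))
 .e))))
 .e)))) (by decide +kernel)

theorem v4_1464 : VW (PX [367,499] [334,433,466,565]) := VW.of base nl_ok fl_ok .nil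
  []
  [([202], (PX [367,499] [202,334,433,466,565])), ([235], (PX [367,499] [235,334,433,466,565])), ([268], (PX [367,499] [268,334,433,466,565])), ([332], (PX [367,499] [332,334,433,466,565])), ([333], (PX [367,499] [333,334,433,466,565])), ([336], (PX [367,499] [334,336,433,466,565])), ([457], (PX [367,499] [334,433,457,466,565]))]
  (by decide +kernel) ⟨b4_484, b4_485, b4_486, b4_487, b4_488, b4_489, b4_490, trivial⟩

theorem v4_1466 : VW (PX [334,499] [367,433,466,565]) := VW.of base nl_ok fl_ok .nil
  []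
  [([365], (PX [334,499] [365,367,433,466,565]))]
  (by decide +kernel) ⟨b4_499, trivial⟩

theorem v4_1469 : VW (PX [367,499] [400,433,466,565]) := VW.of base nl_ok fl_ok .nil
  []
  [([401], (PX [367,499] [400,401,433,466,565]))]
  (by decide +kernel) ⟨b4_503, trivial⟩

theorem w4_1470_334 : S (PX [499] [334,433,466,565]) := VW.play 367 (PX [367,499] [334,433,466,565]) (by decide +kernel) v4_1464

theorem w4_1470_367 : S (PX [499] [367,433,466,565]) := VW.play 334 (PX [334,499] [367,433,466,565]) (by decide +kernel) v4_1466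

theorem w4_1470_400 : S (PX [499] [400,433,466,565]) := VW.play 367 (PX [367,499] [400,433,466,565]) (by decide +kernel) v4_1469

theorem v4_1470 : VW (PX [499] [433,466,565]) := VW.of base nl_ok fl_ok .nil
  []
  [([334], (PX [499] [334,433,466,565])), ([367], (PX [499] [367,433,466,565])), ([400], (PX [499] [400,433,466,565]))]
  (by decide +kernel) ⟨w4_1470_334, w4_1470_367, w4_1470_400, trivial⟩

theorem v4_1478 : VW (PX [466] [433,499,565]) := VW.of base nl_ok fl_ok .nil
  [(532, (.cons 598 631 .nil (.cons 631 598 .nil .nil))), (598, (.cons 532 631 .nil (.cons 631 532 (.cons 664 697 .nil (.cons 697 664 .nil .nil)) .nil))), (631, (.cons 532 598 .nil (.cons 598 532 (.cons 664 697 .nil (.cons 697 664 .nil .nil)) .nil)))]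
  []
  (by decide +kernel) trivial

theorem w4_1482_466 : S (PX [] [433,466,565]) := VW.play 499 (PX [499] [433,466,565]) (by decide +kernel) v4_1470

theorem w4_1482_499 : S (PX [] [433,499,565]) := VW.play 466 (PX [466] [433,499,565]) (by decide +kernel) v4_1478

theorem v4_1482 : VW (PX [] [433,565]) := VW.of base nl_ok fl_ok .nil
  [(532, (.cons 466 499 .nil (.cons 499 466 (.cons 598 631 .nil (.cons 631 598 .nil .nil)) .nil)))]
  [([466], (PX [] [433,466,565])), ([499], (PX [] [433,499,565]))]
  (by decide +kernel) ⟨w4_1482_466, w4_1482_499, trivial⟩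

theorem v4_609 : VW (PX [] [437,565]) := VW.of base nl_ok fl_ok .nil
  [(469, (.cons 501 533 (.cons 373 405 .nil (.cons 405 373 .nil .nil)) (.cons 533 501 .nil .nil))), (501, (.cons 469 533 (.cons 373 405 .nil (.cons 405 373 .nil .nil)) (.cons 533 469 (.cons 597 629 .nil (.cons 629 597 .nil .nil)) .nil))), (533, (.cons 469 501 .nil (.cons 501 469 (.cons 597 629 .nil (.cons 629 597 .nil .nil)) .nil)))]
  []
  (by decide +kernel) trivial

theorem v4_1483 : VW (PX [] [441,565]) := VW.of base nl_ok fl_ok .nil
  [(472, (.cons 503 534 (.cons 379 410 .nil (.cons 410 379 .nil .nil)) (.cons 534 503 .nil .nil))), (503, (.cons 472 534 (.cons 379 410 .nil (.cons 410 379 .nil .nil)) (.cons 534 472 (.cons 596 627 .nil (.cons 627 596 .nil .nil)) .nil))), (534, (.cons 472 503 .nil (.cons 503 472 (.cons 596 627 .nil (.cons 627 596 .nil .nil)) .nil)))]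
  []
  (by decide +kernel) trivial

theorem v4_1484 : VW (PX [433,598] [466,499,532,565]) := VW.of base nl_ok fl_ok .nil
  []
  []
  (by decide +kernel) trivial

theorem v4_1485 : VW (PX [433,532] [466,499,565,598]) := VW.of base nl_ok fl_ok .nil
  [(631, (.cons 664 697 .nil (.cons 697 664 .nil .nil))), (664, (.cons 631 697 .nil (.cons 697 631 .nil .nil))), (697, (.cons 631 664 .nil (.cons 664 631 .nil .nil)))]
  []
  (by decide +kernel) trivial

theorem w4_1486_532 : S (PX [433] [466,499,532,565]) := VW.play 598 (PX [433,598] [466,499,532,565]) (by decide +kernel) v4_1484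

theorem w4_1486_598 : S (PX [433] [466,499,565,598]) := VW.play 532 (PX [433,532] [466,499,565,598]) (by decide +kernel) v4_1485

theorem v4_1486 : VW (PX [433] [466,499,565]) := VW.of base nl_ok fl_ok (.cons 532 598 .nil (.cons 598 532 .nil .nil))
  [(631, (.cons 532 598 .nil (.cons 598 532 (.cons 664 697 .nil (.cons 697 664 .nil .nil)) .nil))), (664, (.cons 532 598 .nil (.cons 598 532 (.cons 631 697 .nil (.cons 697 631 .nil .nil)) .nil))), (697, (.cons 532 598 .nil (.cons 598 532 (.cons 631 664 .nil (.cons 664 631 .nil .nil)) .nil)))]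
  [([532], (PX [433] [466,499,532,565])), ([598], (PX [433] [466,499,565,598]))]
  (by decide +kernel) ⟨w4_1486_532, w4_1486_598, trivial⟩

theorem v4_1506 : VW (PX [499] [466,532,565]) := VW.of base nl_ok fl_ok .nil
  [(598, (.cons 631 664 .nil (.cons 664 631 .nil .nil))), (631, (.cons 598 664 .nil (.cons 664 598 .nil .nil))), (664, (.cons 598 631 .nil (.cons 631 598 .nil .nil)))]
  []
  (by decide +kernel) trivial

theorem w4_1507_433 : S (PX [] [433,466,565]) := VW.play 499 (PX [499] [433,466,565]) (by decide +kernel) v4_1470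

theorem w4_1507_499 : S (PX [] [466,499,565]) := VW.play 433 (PX [433] [466,499,565]) (by decide +kernel) v4_1486

theorem w4_1507_532 : S (PX [] [466,532,565]) := VW.play 499 (PX [499] [466,532,565]) (by decide +kernel) v4_1506

theorem v4_1507 : VW (PX [] [466,565]) := VW.of base nl_ok fl_ok .nil
  [(598, (.cons 499 532 .nil (.cons 532 499 (.cons 631 664 .nil (.cons 664 631 .nil .nil)) .nil)))]
  [([433], (PX [] [433,466,565])), ([499], (PX [] [466,499,565])), ([532], (PX [] [466,532,565]))]
  (by decide +kernel) ⟨w4_1507_433, w4_1507_499, w4_1507_532, trivial⟩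

theorem v4_835 : VW (PX [533] [469,501,565]) := VW.of base nl_ok fl_ok .nil
  [(373, (.cons 405 437 .nil (.cons 437 405 .nil .nil))), (405, (.cons 373 437 .nil (.cons 437 373 .nil .nil))), (437, (.cons 373 405 .nil (.cons 405 373 .nil .nil)))]
  []
  (by decide +kernel) trivial

theorem v4_897 : VW (PX [501] [469,533,565]) := VW.of base nl_ok fl_ok .nil
  [(597, (.cons 629 661 .nil (.cons 661 629 .nil .nil))), (629, (.cons 597 661 .nil (.cons 661 597 .nil .nil))), (661, (.cons 597 629 .nil (.cons 629 597 .nil .nil)))]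
  []
  (by decide +kernel) trivial

theorem w4_906_501 : S (PX [] [469,501,565]) := VW.play 533 (PX [533] [469,501,565]) (by decide +kernel) v4_835

theorem w4_906_533 : S (PX [] [469,533,565]) := VW.play 501 (PX [501] [469,533,565]) (by decide +kernel) v4_897

theorem v4_906 : VW (PX [] [469,565]) := VW.of base nl_ok fl_ok .nil
  [(437, (.cons 501 533 (.cons 373 405 .nil (.cons 405 373 .nil .nil)) (.cons 533 501 .nil .nil))), (597, (.cons 501 533 .nil (.cons 533 501 (.cons 629 661 .nil (.cons 661 629 .nil .nil)) .nil)))]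
  [([501], (PX [] [469,501,565])), ([533], (PX [] [469,533,565]))]
  (by decide +kernel) ⟨w4_906_501, w4_906_533, trivial⟩

theorem v4_1511 : VW (PX [534] [472,503,565]) := VW.of base nl_ok fl_ok .nil
  [(379, (.cons 410 441 .nil (.cons 441 410 .nil .nil))), (410, (.cons 379 441 .nil (.cons 441 379 .nil .nil))), (441, (.cons 379 410 .nil (.cons 410 379 .nil .nil)))]
  []
  (by decide +kernel) trivial

theorem v4_1526 : VW (PX [503] [472,534,565]) := VW.of base nl_ok fl_ok .nil
  [(596, (.cons 627 658 .nil (.cons 658 627 .nil .nil))), (627, (.cons 596 658 .nil (.cons 658 596 .nil .nil))), (658, (.cons 596 627 .nil (.cons 627 596 .nil .nil)))]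
  []
  (by decide +kernel) trivial

theorem w4_1527_503 : S (PX [] [472,503,565]) := VW.play 534 (PX [534] [472,503,565]) (by decide +kernel) v4_1511

theorem w4_1527_534 : S (PX [] [472,534,565]) := VW.play 503 (PX [503] [472,534,565]) (by decide +kernel) v4_1526

theorem v4_1527 : VW (PX [] [472,565]) := VW.of base nl_ok fl_ok .nil
  [(441, (.cons 503 534 (.cons 379 410 .nil (.cons 410 379 .nil .nil)) (.cons 534 503 .nil .nil))), (596, (.cons 503 534 .nil (.cons 534 503 (.cons 627 658 .nil (.cons 658 627 .nil .nil)) .nil)))]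
  [([503], (PX [] [472,503,565])), ([534], (PX [] [472,534,565]))]
  (by decide +kernel) ⟨w4_1527_503, w4_1527_534, trivial⟩

theorem v4_1528 : VW (PX [466,631] [499,532,565,598]) := VW.of base nl_ok fl_ok .nil
  []
  []
  (by decide +kernel) trivial

theorem v4_1529 : VW (PX [466,598] [499,532,565,631]) := VW.of base nl_ok fl_ok .nil
  []
  []
  (by decide +kernel) trivial

theorem w4_1530_598 : S (PX [466] [499,532,565,598]) := VW.play 631 (PX [466,631] [499,532,565,598]) (by decide +kernel) v4_1528

theorem w4_1530_631 : S (PX [466] [499,532,565,631]) := VW.play 598 (PX [466,598] [499,532,565,631]) (by decide +kernel) v4_1529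

theorem v4_1530 : VW (PX [466] [499,532,565]) := VW.of base nl_ok fl_ok (.cons 598 631 .nil (.cons 631 598 .nil .nil))
  [(664, (.cons 598 631 .nil (.cons 631 598 .nil .nil))), (697, (.cons 598 631 .nil (.cons 631 598 .nil .nil))), (730, (.cons 598 631 .nil (.cons 631 598 .nil .nil)))]
  [([598], (PX [466] [499,532,565,598])), ([631], (PX [466] [499,532,565,631]))]
  (by decide +kernel) ⟨w4_1530_598, w4_1530_631, trivial⟩

theorem v4_1531 : VW (PX [532] [499,565,598]) := VW.of base nl_ok fl_ok .nil
  [(631, (.cons 664 697 .nil (.cons 697 664 .nil .nil))), (664, (.cons 631 697 .nil (.cons 697 631 .nil .nil))), (697, (.cons 631 664 .nil (.cons 664 631 .nil .nil)))]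
  []
  (by decide +kernel) trivial

theorem w4_1532_433 : S (PX [] [433,499,565]) := VW.play 466 (PX [466] [433,499,565]) (by decide +kernel) v4_1478

theorem w4_1532_466 : S (PX [] [466,499,565]) := VW.play 433 (PX [433] [466,499,565]) (by decide +kernel) v4_1486

theorem w4_1532_532 : S (PX [] [499,532,565]) := VW.play 466 (PX [466] [499,532,565]) (by decide +kernel) v4_1530

theorem w4_1532_598 : S (PX [] [499,565,598]) := VW.play 532 (PX [532] [499,565,598]) (by decide +kernel) v4_1531

theorem v4_1532 : VW (PX [] [499,565]) := VW.of base nl_ok fl_ok .nil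
  [(631, (.cons 532 598 (.cons 433 466 .nil (.cons 466 433 .nil .nil)) (.cons 598 532 (.cons 664 697 .nil (.cons 697 664 .nil .nil)) .nil)))]
  [([433], (PX [] [433,499,565])), ([466], (PX [] [466,499,565])), ([532], (PX [] [499,532,565])), ([598], (PX [] [499,565,598]))]
  (by decide +kernel) ⟨w4_1532_433, w4_1532_466, w4_1532_532, w4_1532_598, trivial⟩

theorem v4_1110 : VW (PX [469,629] [501,533,565,597]) := VW.of base nl_ok fl_ok .nil
  []
  []
  (by decide +kernel) trivial

theorem v4_1111 : VW (PX [469,597] [501,533,565,629]) := VW.of base nl_ok fl_ok .nil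
  []
  []
  (by decide +kernel) trivial

theorem w4_1112_597 : S (PX [469] [501,533,565,597]) := VW.play 629 (PX [469,629] [501,533,565,597]) (by decide +kernel) v4_1110

theorem w4_1112_629 : S (PX [469] [501,533,565,629]) := VW.play 597 (PX [469,597] [501,533,565,629]) (by decide +kernel) v4_1111

theorem v4_1112 : VW (PX [469] [501,533,565]) := VW.of base nl_ok fl_ok (.cons 597 629 .nil (.cons 629 597 .nil .nil))
  [(661, (.cons 597 629 .nil (.cons 629 597 .nil .nil))), (693, (.cons 597 629 .nil (.cons 629 597 .nil .nil))), (725, (.cons 597 629 .nil (.cons 629 597 .nil .nil)))]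
  [([597], (PX [469] [501,533,565,597])), ([629], (PX [469] [501,533,565,629]))]
  (by decide +kernel) ⟨w4_1112_597, w4_1112_629, trivial⟩

theorem v4_1179 : VW (PX [533] [501,565,597]) := VW.of base nl_ok fl_ok .nil
  [(629, (.cons 661 693 .nil (.cons 693 661 .nil .nil))), (661, (.cons 629 693 .nil (.cons 693 629 .nil .nil))), (693, (.cons 629 661 .nil (.cons 661 629 .nil .nil)))]
  []
  (by decide +kernel) trivial

theorem w4_1182_469 : S (PX [] [469,501,565]) := VW.play 533 (PX [533] [469,501,565]) (by decide +kernel) v4_835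

theorem w4_1182_533 : S (PX [] [501,533,565]) := VW.play 469 (PX [469] [501,533,565]) (by decide +kernel) v4_1112

theorem w4_1182_597 : S (PX [] [501,565,597]) := VW.play 533 (PX [533] [501,565,597]) (by decide +kernel) v4_1179

theorem v4_1182 : VW (PX [] [501,565]) := VW.of base nl_ok fl_ok .nil
  [(437, (.cons 469 533 (.cons 373 405 .nil (.cons 405 373 .nil .nil)) (.cons 533 469 (.cons 597 629 .nil (.cons 629 597 .nil .nil)) .nil))), (629, (.cons 533 597 (.cons 437 469 .nil (.cons 469 437 .nil .nil)) (.cons 597 533 (.cons 661 693 .nil (.cons 693 661 .nil .nil)) .nil)))]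
  [([469], (PX [] [469,501,565])), ([533], (PX [] [501,533,565])), ([597], (PX [] [501,565,597]))]
  (by decide +kernel) ⟨w4_1182_469, w4_1182_533, w4_1182_597, trivial⟩

theorem v4_1533 : VW (PX [472,627] [503,534,565,596]) := VW.of base nl_ok fl_ok .nil
  []
  []
  (by decide +kernel) trivial

theorem v4_1534 : VW (PX [472,596] [503,534,565,627]) := VW.of base nl_ok fl_ok .nil
  []
  []
  (by decide +kernel) trivial

theorem w4_1535_596 : S (PX [472] [503,534,565,596]) := VW.play 627 (PX [472,627] [503,534,565,596]) (by decide +kernel) v4_1533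

theorem w4_1535_627 : S (PX [472] [503,534,565,627]) := VW.play 596 (PX [472,596] [503,534,565,627]) (by decide +kernel) v4_1534

theorem v4_1535 : VW (PX [472] [503,534,565]) := VW.of base nl_ok fl_ok (.cons 596 627 .nil (.cons 627 596 .nil .nil))
  [(658, (.cons 596 627 .nil (.cons 627 596 .nil .nil))), (689, (.cons 596 627 .nil (.cons 627 596 .nil .nil))), (720, (.cons 596 627 .nil (.cons 627 596 .nil .nil)))]
  [([596], (PX [472] [503,534,565,596])), ([627], (PX [472] [503,534,565,627]))]
  (by decide +kernel) ⟨w4_1535_596, w4_1535_627, trivial⟩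

theorem v4_1550 : VW (PX [534] [503,565,596]) := VW.of base nl_ok fl_ok .nil
  [(627, (.cons 658 689 .nil (.cons 689 658 .nil .nil))), (658, (.cons 627 689 .nil (.cons 689 627 .nil .nil))), (689, (.cons 627 658 .nil (.cons 658 627 .nil .nil)))]
  []
  (by decide +kernel) trivial

theorem w4_1553_472 : S (PX [] [472,503,565]) := VW.play 534 (PX [534] [472,503,565]) (by decide +kernel) v4_1511

theorem w4_1553_534 : S (PX [] [503,534,565]) := VW.play 472 (PX [472] [503,534,565]) (by decide +kernel) v4_1535

theorem w4_1553_596 : S (PX [] [503,565,596]) := VW.play 534 (PX [534] [503,565,596]) (by decide +kernel) v4_1550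

theorem v4_1553 : VW (PX [] [503,565]) := VW.of base nl_ok fl_ok .nil
  [(441, (.cons 472 534 (.cons 379 410 .nil (.cons 410 379 .nil .nil)) (.cons 534 472 (.cons 596 627 .nil (.cons 627 596 .nil .nil)) .nil))), (627, (.cons 534 596 (.cons 441 472 .nil (.cons 472 441 .nil .nil)) (.cons 596 534 (.cons 658 689 .nil (.cons 689 658 .nil .nil)) .nil)))]
  [([472], (PX [] [472,503,565])), ([534], (PX [] [503,534,565])), ([596], (PX [] [503,565,596]))]
  (by decide +kernel) ⟨w4_1553_472, w4_1553_534, w4_1553_596, trivial⟩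

theorem v4_1554 : VW (PX [499,664] [532,565,598,631]) := VW.of base nl_ok fl_ok .nil
  []
  []
  (by decide +kernel) trivial

theorem v4_1555 : VW (PX [499,631] [532,565,598,664]) := VW.of base nl_ok fl_ok .nil
  []
  []
  (by decide +kernel) trivial

theorem w4_1556_631 : S (PX [499] [532,565,598,631]) := VW.play 664 (PX [499,664] [532,565,598,631]) (by decide +kernel) v4_1554

theorem w4_1556_664 : S (PX [499] [532,565,598,664]) := VW.play 631 (PX [499,631] [532,565,598,664]) (by decide +kernel) v4_1555

theorem v4_1556 : VW (PX [499] [532,565,598]) := VW.of base nl_ok fl_ok (.cons 631 664 .nil (.cons 664 631 .nil .nil))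
  [(697, (.cons 631 664 .nil (.cons 664 631 .nil .nil))), (730, (.cons 631 664 .nil (.cons 664 631 .nil .nil))), (763, (.cons 631 664 .nil (.cons 664 631 .nil .nil)))]
  [([631], (PX [499] [532,565,598,631])), ([664], (PX [499] [532,565,598,664]))]
  (by decide +kernel) ⟨w4_1556_631, w4_1556_664, trivial⟩

theorem v4_1561 : VW (PX [598] [532,565,631]) := VW.of base nl_ok fl_ok .nil
  [(433, (.cons 466 499 .nil (.cons 499 466 .nil .nil))), (466, (.cons 433 499 .nil (.cons 499 433 .nil .nil))), (499, (.cons 433 466 .nil (.cons 466 433 .nil .nil)))]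
  []
  (by decide +kernel) trivial

theorem w4_1562_466 : S (PX [] [466,532,565]) := VW.play 499 (PX [499] [466,532,565]) (by decide +kernel) v4_1506

theorem w4_1562_499 : S (PX [] [499,532,565]) := VW.play 466 (PX [466] [499,532,565]) (by decide +kernel) v4_1530

theorem w4_1562_598 : S (PX [] [532,565,598]) := VW.play 499 (PX [499] [532,565,598]) (by decide +kernel) v4_1556

theorem w4_1562_631 : S (PX [] [532,565,631]) := VW.play 598 (PX [598] [532,565,631]) (by decide +kernel) v4_1561

theorem v4_1562 : VW (PX [] [532,565]) := VW.of base nl_ok fl_ok .nil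
  [(433, (.cons 466 499 .nil (.cons 499 466 (.cons 598 631 .nil (.cons 631 598 .nil .nil)) .nil))), (664, (.cons 598 631 (.cons 466 499 .nil (.cons 499 466 .nil .nil)) (.cons 631 598 .nil .nil)))]
  [([466], (PX [] [466,532,565])), ([499], (PX [] [499,532,565])), ([598], (PX [] [532,565,598])), ([631], (PX [] [532,565,631]))]
  (by decide +kernel) ⟨w4_1562_466, w4_1562_499, w4_1562_598, w4_1562_631, trivial⟩

theorem v4_1381 : VW (PX [501,661] [533,565,597,629]) := VW.of base nl_ok fl_ok .nil
  []
  []
  (by decide +kernel) trivial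

theorem v4_1382 : VW (PX [501,629] [533,565,597,661]) := VW.of base nl_ok fl_ok .nil
  []
  []
  (by decide +kernel) trivial

theorem w4_1383_629 : S (PX [501] [533,565,597,629]) := VW.play 661 (PX [501,661] [533,565,597,629]) (by decide +kernel) v4_1381

theorem w4_1383_661 : S (PX [501] [533,565,597,661]) := VW.play 629 (PX [501,629] [533,565,597,661]) (by decide +kernel) v4_1382

theorem v4_1383 : VW (PX [501] [533,565,597]) := VW.of base nl_ok fl_ok (.cons 629 661 .nil (.cons 661 629 .nil .nil))
  [(693, (.cons 629 661 .nil (.cons 661 629 .nil .nil))), (725, (.cons 629 661 .nil (.cons 661 629 .nil .nil))), (757, (.cons 629 661 .nil (.cons 661 629 .nil .nil)))]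
  [([629], (PX [501] [533,565,597,629])), ([661], (PX [501] [533,565,597,661]))]
  (by decide +kernel) ⟨w4_1383_629, w4_1383_661, trivial⟩

theorem v4_1388 : VW (PX [597] [533,565,629]) := VW.of base nl_ok fl_ok .nil
  [(437, (.cons 469 501 .nil (.cons 501 469 .nil .nil))), (469, (.cons 437 501 .nil (.cons 501 437 .nil .nil))), (501, (.cons 437 469 .nil (.cons 469 437 .nil .nil)))]
  []
  (by decide +kernel) trivial

theorem w4_1400_469 : S (PX [] [469,533,565]) := VW.play 501 (PX [501] [469,533,565]) (by decide +kernel) v4_897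

theorem w4_1400_501 : S (PX [] [501,533,565]) := VW.play 469 (PX [469] [501,533,565]) (by decide +kernel) v4_1112

theorem w4_1400_597 : S (PX [] [533,565,597]) := VW.play 501 (PX [501] [533,565,597]) (by decide +kernel) v4_1383

theorem w4_1400_629 : S (PX [] [533,565,629]) := VW.play 597 (PX [597] [533,565,629]) (by decide +kernel) v4_1388

theorem v4_1400 : VW (PX [] [533,565]) := VW.of base nl_ok fl_ok .nil
  [(437, (.cons 469 501 .nil (.cons 501 469 (.cons 597 629 .nil (.cons 629 597 .nil .nil)) .nil))), (661, (.cons 597 629 (.cons 469 501 .nil (.cons 501 469 .nil .nil)) (.cons 629 597 .nil .nil)))]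
  [([469], (PX [] [469,533,565])), ([501], (PX [] [501,533,565])), ([597], (PX [] [533,565,597])), ([629], (PX [] [533,565,629]))]
  (by decide +kernel) ⟨w4_1400_469, w4_1400_501, w4_1400_597, w4_1400_629, trivial⟩

theorem v4_1563 : VW (PX [503,658] [534,565,596,627]) := VW.of base nl_ok fl_ok .nil
  []
  []
  (by decide +kernel) trivial

theorem v4_1564 : VW (PX [503,627] [534,565,596,658]) := VW.of base nl_ok fl_ok .nil
  []
  []
  (by decide +kernel) trivial

theorem w4_1565_627 : S (PX [503] [534,565,596,627]) := VW.play 658 (PX [503,658] [534,565,596,627]) (by decide +kernel) v4_1563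

theorem w4_1565_658 : S (PX [503] [534,565,596,658]) := VW.play 627 (PX [503,627] [534,565,596,658]) (by decide +kernel) v4_1564

theorem v4_1565 : VW (PX [503] [534,565,596]) := VW.of base nl_ok fl_ok (.cons 627 658 .nil (.cons 658 627 .nil .nil))
  [(689, (.cons 627 658 .nil (.cons 658 627 .nil .nil))), (720, (.cons 627 658 .nil (.cons 658 627 .nil .nil))), (751, (.cons 627 658 .nil (.cons 658 627 .nil .nil)))]
  [([627], (PX [503] [534,565,596,627])), ([658], (PX [503] [534,565,596,658]))]
  (by decide +kernel) ⟨w4_1565_627, w4_1565_658, trivial⟩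

theorem v4_1570 : VW (PX [596] [534,565,627]) := VW.of base nl_ok fl_ok .nil
  [(441, (.cons 472 503 .nil (.cons 503 472 .nil .nil))), (472, (.cons 441 503 .nil (.cons 503 441 .nil .nil))), (503, (.cons 441 472 .nil (.cons 472 441 .nil .nil)))]
  []
  (by decide +kernel) trivial

theorem w4_1571_472 : S (PX [] [472,534,565]) := VW.play 503 (PX [503] [472,534,565]) (by decide +kernel) v4_1526

theorem w4_1571_503 : S (PX [] [503,534,565]) := VW.play 472 (PX [472] [503,534,565]) (by decide +kernel) v4_1535

theorem w4_1571_596 : S (PX [] [534,565,596]) := VW.play 503 (PX [503] [534,565,596]) (by decide +kernel) v4_1565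

theorem w4_1571_627 : S (PX [] [534,565,627]) := VW.play 596 (PX [596] [534,565,627]) (by decide +kernel) v4_1570

theorem v4_1571 : VW (PX [] [534,565]) := VW.of base nl_ok fl_ok .nil
  [(441, (.cons 472 503 .nil (.cons 503 472 (.cons 596 627 .nil (.cons 627 596 .nil .nil)) .nil))), (658, (.cons 596 627 (.cons 472 503 .nil (.cons 503 472 .nil .nil)) (.cons 627 596 .nil .nil)))]
  [([472], (PX [] [472,534,565])), ([503], (PX [] [503,534,565])), ([596], (PX [] [534,565,596])), ([627], (PX [] [534,565,627]))]
  (by decide +kernel) ⟨w4_1571_472, w4_1571_503, w4_1571_596, w4_1571_627, trivial⟩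

theorem v4_1572 : VW (PX [] [561,565]) := VW.of base nl_ok fl_ok .nil
  [(562, (.cons 563 564 (.cons 559 560 .nil (.cons 560 559 .nil .nil)) (.cons 564 563 .nil .nil))), (563, (.cons 562 564 (.cons 559 560 .nil (.cons 560 559 .nil .nil)) (.cons 564 562 (.cons 566 567 .nil (.cons 567 566 .nil .nil)) .nil))), (564, (.cons 562 563 .nil (.cons 563 562 (.cons 566 567 .nil (.cons 567 566 .nil .nil)) .nil)))]
  []
  (by decide +kernel) trivial

theorem v4_1576 : VW (PX [564] [562,563,565]) := VW.of base nl_ok fl_ok .nil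
  [(559, (.cons 560 561 .nil (.cons 561 560 .nil .nil))), (560, (.cons 559 561 .nil (.cons 561 559 .nil .nil))), (561, (.cons 559 560 .nil (.cons 560 559 .nil .nil)))]
  []
  (by decide +kernel) trivial

theorem v4_1591 : VW (PX [563] [562,564,565]) := VW.of base nl_ok fl_ok .nil
  [(566, (.cons 567 568 .nil (.cons 568 567 .nil .nil))), (567, (.cons 566 568 .nil (.cons 568 566 .nil .nil))), (568, (.cons 566 567 .nil (.cons 567 566 .nil .nil)))]
  []
  (by decide +kernel) trivial

theorem w4_1592_563 : S (PX [] [562,563,565]) := VW.play 564 (PX [564] [562,563,565]) (by decide +kernel) v4_1576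

theorem w4_1592_564 : S (PX [] [562,564,565]) := VW.play 563 (PX [563] [562,564,565]) (by decide +kernel) v4_1591

theorem v4_1592 : VW (PX [] [562,565]) := VW.of base nl_ok fl_ok .nil
  [(561, (.cons 563 564 (.cons 559 560 .nil (.cons 560 559 .nil .nil)) (.cons 564 563 .nil .nil))), (566, (.cons 563 564 .nil (.cons 564 563 (.cons 567 568 .nil (.cons 568 567 .nil .nil)) .nil)))]
  [([563], (PX [] [562,563,565])), ([564], (PX [] [562,564,565]))]
  (by decide +kernel) ⟨w4_1592_563, w4_1592_564, trivial⟩

theorem v4_1593 : VW (PX [562,567] [563,564,565,566]) := VW.of base nl_ok fl_ok .nil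
  []
  []
  (by decide +kernel) trivial

theorem v4_1594 : VW (PX [562,566] [563,564,565,567]) := VW.of base nl_ok fl_ok .nil
  []
  []
  (by decide +kernel) trivial

theorem w4_1595_566 : S (PX [562] [563,564,565,566]) := VW.play 567 (PX [562,567] [563,564,565,566]) (by decide +kernel) v4_1593

theorem w4_1595_567 : S (PX [562] [563,564,565,567]) := VW.play 566 (PX [562,566] [563,564,565,567]) (by decide +kernel) v4_1594

theorem v4_1595 : VW (PX [562] [563,564,565]) := VW.of base nl_ok fl_ok (.cons 566 567 .nil (.cons 567 566 .nil .nil))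
  [(568, (.cons 566 567 .nil (.cons 567 566 .nil .nil))), (569, (.cons 566 567 .nil (.cons 567 566 .nil .nil))), (570, (.cons 566 567 .nil (.cons 567 566 .nil .nil)))]
  [([566], (PX [562] [563,564,565,566])), ([567], (PX [562] [563,564,565,567]))]
  (by decide +kernel) ⟨w4_1595_566, w4_1595_567, trivial⟩

theorem v4_1596 : VW (PX [564] [563,565,566]) := VW.of base nl_ok fl_ok .nil
  [(567, (.cons 568 569 .nil (.cons 569 568 .nil .nil))), (568, (.cons 567 569 .nil (.cons 569 567 .nil .nil))), (569, (.cons 567 568 .nil (.cons 568 567 .nil .nil)))]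
  []
  (by decide +kernel) trivial

theorem w4_1599_562 : S (PX [] [562,563,565]) := VW.play 564 (PX [564] [562,563,565]) (by decide +kernel) v4_1576

theorem w4_1599_564 : S (PX [] [563,564,565]) := VW.play 562 (PX [562] [563,564,565]) (by decide +kernel) v4_1595

theorem w4_1599_566 : S (PX [] [563,565,566]) := VW.play 564 (PX [564] [563,565,566]) (by decide +kernel) v4_1596

theorem v4_1599 : VW (PX [] [563,565]) := VW.of base nl_ok fl_ok .nil
  [(561, (.cons 562 564 (.cons 559 560 .nil (.cons 560 559 .nil .nil)) (.cons 564 562 (.cons 566 567 .nil (.cons 567 566 .nil .nil)) .nil))), (567, (.cons 564 566 (.cons 561 562 .nil (.cons 562 561 .nil .nil)) (.cons 566 564 (.cons 568 569 .nil (.cons 569 568 .nil .nil)) .nil)))]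
  [([562], (PX [] [562,563,565])), ([564], (PX [] [563,564,565])), ([566], (PX [] [563,565,566]))]
  (by decide +kernel) ⟨w4_1599_562, w4_1599_564, w4_1599_566, trivial⟩

theorem v4_1600 : VW (PX [563,568] [564,565,566,567]) := VW.of base nl_ok fl_ok .nil
  []
  []
  (by decide +kernel) trivial

theorem v4_1601 : VW (PX [563,567] [564,565,566,568]) := VW.of base nl_ok fl_ok .nil
  []
  []
  (by decide +kernel) trivial

theorem w4_1602_567 : S (PX [563] [564,565,566,567]) := VW.play 568 (PX [563,568] [564,565,566,567]) (by decide +kernel) v4_1600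

theorem w4_1602_568 : S (PX [563] [564,565,566,568]) := VW.play 567 (PX [563,567] [564,565,566,568]) (by decide +kernel) v4_1601

theorem v4_1602 : VW (PX [563] [564,565,566]) := VW.of base nl_ok fl_ok (.cons 567 568 .nil (.cons 568 567 .nil .nil))
  [(569, (.cons 567 568 .nil (.cons 568 567 .nil .nil))), (570, (.cons 567 568 .nil (.cons 568 567 .nil .nil))), (571, (.cons 567 568 .nil (.cons 568 567 .nil .nil)))]
  [([567], (PX [563] [564,565,566,567])), ([568], (PX [563] [564,565,566,568]))]
  (by decide +kernel) ⟨w4_1602_567, w4_1602_568, trivial⟩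

theorem v4_1607 : VW (PX [566] [564,565,567]) := VW.of base nl_ok fl_ok .nil
  [(561, (.cons 562 563 .nil (.cons 563 562 .nil .nil))), (562, (.cons 561 563 .nil (.cons 563 561 .nil .nil))), (563, (.cons 561 562 .nil (.cons 562 561 .nil .nil)))]
  []
  (by decide +kernel) trivial

theorem w4_1608_562 : S (PX [] [562,564,565]) := VW.play 563 (PX [563] [562,564,565]) (by decide +kernel) v4_1591

theorem w4_1608_563 : S (PX [] [563,564,565]) := VW.play 562 (PX [562] [563,564,565]) (by decide +kernel) v4_1595

theorem w4_1608_566 : S (PX [] [564,565,566]) := VW.play 563 (PX [563] [564,565,566]) (by decide +kernel) v4_1602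

theorem w4_1608_567 : S (PX [] [564,565,567]) := VW.play 566 (PX [566] [564,565,567]) (by decide +kernel) v4_1607

theorem v4_1608 : VW (PX [] [564,565]) := VW.of base nl_ok fl_ok .nil
  [(561, (.cons 562 563 .nil (.cons 563 562 (.cons 566 567 .nil (.cons 567 566 .nil .nil)) .nil))), (568, (.cons 566 567 (.cons 562 563 .nil (.cons 563 562 .nil .nil)) (.cons 567 566 .nil .nil)))]
  [([562], (PX [] [562,564,565])), ([563], (PX [] [563,564,565])), ([566], (PX [] [564,565,566])), ([567], (PX [] [564,565,567]))]
  (by decide +kernel) ⟨w4_1608_562, w4_1608_563, w4_1608_566, w4_1608_567, trivial⟩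

theorem v4_1609 : VW (PX [564,568] [563,565,566,567]) := VW.of base nl_ok fl_ok .nil
  []
  []
  (by decide +kernel) trivial

theorem w4_1610_563 : S (PX [568] [563,565,566,567]) := VW.play 564 (PX [564,568] [563,565,566,567]) (by decide +kernel) v4_1609

theorem w4_1610_564 : S (PX [568] [564,565,566,567]) := VW.play 563 (PX [563,568] [564,565,566,567]) (by decide +kernel) v4_1600

theorem v4_1610 : VW (PX [568] [565,566,567]) := VW.of base nl_ok fl_ok (.cons 563 564 .nil (.cons 564 563 .nil .nil))
  [(560, (.cons 563 564 .nil (.cons 564 563 .nil .nil))), (561, (.cons 563 564 .nil (.cons 564 563 .nil .nil))), (562, (.cons 563 564 .nil (.cons 564 563 .nil .nil)))]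
  [([563], (PX [568] [563,565,566,567])), ([564], (PX [568] [564,565,566,567]))]
  (by decide +kernel) ⟨w4_1610_563, w4_1610_564, trivial⟩

theorem v4_1611 : VW (PX [567] [565,566,568]) := VW.of base nl_ok fl_ok .nil
  [(562, (.cons 563 564 .nil (.cons 564 563 .nil .nil))), (563, (.cons 562 564 .nil (.cons 564 562 .nil .nil))), (564, (.cons 562 563 .nil (.cons 563 562 .nil .nil)))]
  []
  (by decide +kernel) trivial

theorem w4_1627_563 : S (PX [] [563,565,566]) := VW.play 564 (PX [564] [563,565,566]) (by decide +kernel) v4_1596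

theorem w4_1627_564 : S (PX [] [564,565,566]) := VW.play 563 (PX [563] [564,565,566]) (by decide +kernel) v4_1602

theorem w4_1627_567 : S (PX [] [565,566,567]) := VW.play 568 (PX [568] [565,566,567]) (by decide +kernel) v4_1610

theorem w4_1627_568 : S (PX [] [565,566,568]) := VW.play 567 (PX [567] [565,566,568]) (by decide +kernel) v4_1611

theorem v4_1627 : VW (PX [] [565,566]) := VW.of base nl_ok fl_ok .nil
  [(562, (.cons 563 564 .nil (.cons 564 563 (.cons 567 568 .nil (.cons 568 567 .nil .nil)) .nil))), (569, (.cons 567 568 (.cons 563 564 .nil (.cons 564 563 .nil .nil)) (.cons 568 567 .nil .nil)))]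
  [([563], (PX [] [563,565,566])), ([564], (PX [] [564,565,566])), ([567], (PX [] [565,566,567])), ([568], (PX [] [565,566,568]))]
  (by decide +kernel) ⟨w4_1627_563, w4_1627_564, w4_1627_567, w4_1627_568, trivial⟩

theorem v4_1628 : VW (PX [566] [565,567,568]) := VW.of base nl_ok fl_ok .nil
  [(569, (.cons 570 571 .nil (.cons 571 570 .nil .nil))), (570, (.cons 569 571 .nil (.cons 571 569 .nil .nil))), (571, (.cons 569 570 .nil (.cons 570 569 .nil .nil)))]
  []
  (by decide +kernel) trivial

theorem w4_1631_564 : S (PX [] [564,565,567]) := VW.play 566 (PX [566] [564,565,567]) (by decide +kernel) v4_1607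

theorem w4_1631_566 : S (PX [] [565,566,567]) := VW.play 568 (PX [568] [565,566,567]) (by decide +kernel) v4_1610

theorem w4_1631_568 : S (PX [] [565,567,568]) := VW.play 566 (PX [566] [565,567,568]) (by decide +kernel) v4_1628

theorem v4_1631 : VW (PX [] [565,567]) := VW.of base nl_ok fl_ok .nil
  [(563, (.cons 564 566 (.cons 561 562 .nil (.cons 562 561 .nil .nil)) (.cons 566 564 (.cons 568 569 .nil (.cons 569 568 .nil .nil)) .nil))), (569, (.cons 566 568 (.cons 563 564 .nil (.cons 564 563 .nil .nil)) (.cons 568 566 (.cons 570 571 .nil (.cons 571 570 .nil .nil)) .nil)))]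
  [([564], (PX [] [564,565,567])), ([566], (PX [] [565,566,567])), ([568], (PX [] [565,567,568]))]
  (by decide +kernel) ⟨w4_1631_564, w4_1631_566, w4_1631_568, trivial⟩

theorem w4_1632_566 : S (PX [] [565,566,568]) := VW.play 567 (PX [567] [565,566,568]) (by decide +kernel) v4_1611

theorem w4_1632_567 : S (PX [] [565,567,568]) := VW.play 566 (PX [566] [565,567,568]) (by decide +kernel) v4_1628

theorem v4_1632 : VW (PX [] [565,568]) := VW.of base nl_ok fl_ok .nil
  [(564, (.cons 566 567 (.cons 562 563 .nil (.cons 563 562 .nil .nil)) (.cons 567 566 .nil .nil))), (569, (.cons 566 567 .nil (.cons 567 566 (.cons 570 571 .nil (.cons 571 570 .nil .nil)) .nil)))]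
  [([566], (PX [] [565,566,568])), ([567], (PX [] [565,567,568]))]
  (by decide +kernel) ⟨w4_1632_566, w4_1632_567, trivial⟩

theorem v4_1633 : VW (PX [] [565,569]) := VW.of base nl_ok fl_ok .nil
  [(566, (.cons 567 568 (.cons 563 564 .nil (.cons 564 563 .nil .nil)) (.cons 568 567 .nil .nil))), (567, (.cons 566 568 (.cons 563 564 .nil (.cons 564 563 .nil .nil)) (.cons 568 566 (.cons 570 571 .nil (.cons 571 570 .nil .nil)) .nil))), (568, (.cons 566 567 .nil (.cons 567 566 (.cons 570 571 .nil (.cons 571 570 .nil .nil)) .nil)))]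
  []
  (by decide +kernel) trivial

theorem v4_1634 : VW (PX [534,689] [565,596,627,658]) := VW.of base nl_ok fl_ok .nil
  []
  []
  (by decide +kernel) trivial

theorem v4_1635 : VW (PX [534,658] [565,596,627,689]) := VW.of base nl_ok fl_ok .nil
  []
  []
  (by decide +kernel) trivial

theorem w4_1636_658 : S (PX [534] [565,596,627,658]) := VW.play 689 (PX [534,689] [565,596,627,658]) (by decide +kernel) v4_1634

theorem w4_1636_689 : S (PX [534] [565,596,627,689]) := VW.play 658 (PX [534,658] [565,596,627,689]) (by decide +kernel) v4_1635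

theorem v4_1636 : VW (PX [534] [565,596,627]) := VW.of base nl_ok fl_ok (.cons 658 689 .nil (.cons 689 658 .nil .nil))
  [(720, (.cons 658 689 .nil (.cons 689 658 .nil .nil))), (751, (.cons 658 689 .nil (.cons 689 658 .nil .nil))), (782, (.cons 658 689 .nil (.cons 689 658 .nil .nil)))]
  [([658], (PX [534] [565,596,627,658])), ([689], (PX [534] [565,596,627,689]))]
  (by decide +kernel) ⟨w4_1636_658, w4_1636_689, trivial⟩

theorem v4_1641 : VW (PX [627] [565,596,658]) := VW.of base nl_ok fl_ok .nil
  [(472, (.cons 503 534 .nil (.cons 534 503 .nil .nil))), (503, (.cons 472 534 .nil (.cons 534 472 .nil .nil))), (534, (.cons 472 503 .nil (.cons 503 472 .nil .nil)))]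
  []
  (by decide +kernel) trivial

theorem w4_1653_503 : S (PX [] [503,565,596]) := VW.play 534 (PX [534] [503,565,596]) (by decide +kernel) v4_1550

theorem w4_1653_534 : S (PX [] [534,565,596]) := VW.play 503 (PX [503] [534,565,596]) (by decide +kernel) v4_1565

theorem w4_1653_627 : S (PX [] [565,596,627]) := VW.play 534 (PX [534] [565,596,627]) (by decide +kernel) v4_1636

theorem w4_1653_658 : S (PX [] [565,596,658]) := VW.play 627 (PX [627] [565,596,658]) (by decide +kernel) v4_1641

theorem v4_1653 : VW (PX [] [565,596]) := VW.of base nl_ok fl_ok .nil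
  [(472, (.cons 503 534 .nil (.cons 534 503 (.cons 627 658 .nil (.cons 658 627 .nil .nil)) .nil))), (689, (.cons 627 658 (.cons 503 534 .nil (.cons 534 503 .nil .nil)) (.cons 658 627 .nil .nil)))]
  [([503], (PX [] [503,565,596])), ([534], (PX [] [534,565,596])), ([627], (PX [] [565,596,627])), ([658], (PX [] [565,596,658]))]
  (by decide +kernel) ⟨w4_1653_503, w4_1653_534, w4_1653_627, w4_1653_658, trivial⟩

theorem v4_1654 : VW (PX [533,693] [565,597,629,661]) := VW.of base nl_ok fl_ok .nil
  []
  []
  (by decide +kernel) trivial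

theorem v4_1655 : VW (PX [533,661] [565,597,629,693]) := VW.of base nl_ok fl_ok .nil
  []
  []
  (by decide +kernel) trivial

theorem w4_1656_661 : S (PX [533] [565,597,629,661]) := VW.play 693 (PX [533,693] [565,597,629,661]) (by decide +kernel) v4_1654

theorem w4_1656_693 : S (PX [533] [565,597,629,693]) := VW.play 661 (PX [533,661] [565,597,629,693]) (by decide +kernel) v4_1655

theorem v4_1656 : VW (PX [533] [565,597,629]) := VW.of base nl_ok fl_ok (.cons 661 693 .nil (.cons 693 661 .nil .nil))
  [(725, (.cons 661 693 .nil (.cons 693 661 .nil .nil))), (757, (.cons 661 693 .nil (.cons 693 661 .nil .nil))), (789, (.cons 661 693 .nil (.cons 693 661 .nil .nil)))]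
  [([661], (PX [533] [565,597,629,661])), ([693], (PX [533] [565,597,629,693]))]
  (by decide +kernel) ⟨w4_1656_661, w4_1656_693, trivial⟩

theorem v4_1661 : VW (PX [629] [565,597,661]) := VW.of base nl_ok fl_ok .nil
  [(469, (.cons 501 533 .nil (.cons 533 501 .nil .nil))), (501, (.cons 469 533 .nil (.cons 533 469 .nil .nil))), (533, (.cons 469 501 .nil (.cons 501 469 .nil .nil)))]
  []
  (by decide +kernel) trivial

theorem w4_1673_501 : S (PX [] [501,565,597]) := VW.play 533 (PX [533] [501,565,597]) (by decide +kernel) v4_1179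

theorem w4_1673_533 : S (PX [] [533,565,597]) := VW.play 501 (PX [501] [533,565,597]) (by decide +kernel) v4_1383

theorem w4_1673_629 : S (PX [] [565,597,629]) := VW.play 533 (PX [533] [565,597,629]) (by decide +kernel) v4_1656

theorem w4_1673_661 : S (PX [] [565,597,661]) := VW.play 629 (PX [629] [565,597,661]) (by decide +kernel) v4_1661

theorem v4_1673 : VW (PX [] [565,597]) := VW.of base nl_ok fl_ok .nil
  [(469, (.cons 501 533 .nil (.cons 533 501 (.cons 629 661 .nil (.cons 661 629 .nil .nil)) .nil))), (693, (.cons 629 661 (.cons 501 533 .nil (.cons 533 501 .nil .nil)) (.cons 661 629 .nil .nil)))]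
  [([501], (PX [] [501,565,597])), ([533], (PX [] [533,565,597])), ([629], (PX [] [565,597,629])), ([661], (PX [] [565,597,661]))]
  (by decide +kernel) ⟨w4_1673_501, w4_1673_533, w4_1673_629, w4_1673_661, trivial⟩

theorem v4_1674 : VW (PX [532,664] [499,565,598,631]) := VW.of base nl_ok fl_ok .nil
  []
  []
  (by decide +kernel) trivial

theorem w4_1675_499 : S (PX [664] [499,565,598,631]) := VW.play 532 (PX [532,664] [499,565,598,631]) (by decide +kernel) v4_1674

theorem w4_1675_532 : S (PX [664] [532,565,598,631]) := VW.play 499 (PX [499,664] [532,565,598,631]) (by decide +kernel) v4_1554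

theorem v4_1675 : VW (PX [664] [565,598,631]) := VW.of base nl_ok fl_ok (.cons 499 532 .nil (.cons 532 499 .nil .nil))
  [(400, (.cons 499 532 .nil (.cons 532 499 .nil .nil))), (433, (.cons 499 532 .nil (.cons 532 499 .nil .nil))), (466, (.cons 499 532 .nil (.cons 532 499 .nil .nil)))]
  [([499], (PX [664] [499,565,598,631])), ([532], (PX [664] [532,565,598,631]))]
  (by decide +kernel) ⟨w4_1675_499, w4_1675_532, trivial⟩

theorem v4_1676 : VW (PX [631] [565,598,664]) := VW.of base nl_ok fl_ok .nil
  [(466, (.cons 499 532 .nil (.cons 532 499 .nil .nil))), (499, (.cons 466 532 .nil (.cons 532 466 .nil .nil))), (532, (.cons 466 499 .nil (.cons 499 466 .nil .nil)))]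
  []
  (by decide +kernel) trivial

theorem w4_1690_499 : S (PX [] [499,565,598]) := VW.play 532 (PX [532] [499,565,598]) (by decide +kernel) v4_1531

theorem w4_1690_532 : S (PX [] [532,565,598]) := VW.play 499 (PX [499] [532,565,598]) (by decide +kernel) v4_1556

theorem w4_1690_631 : S (PX [] [565,598,631]) := VW.play 664 (PX [664] [565,598,631]) (by decide +kernel) v4_1675

theorem w4_1690_664 : S (PX [] [565,598,664]) := VW.play 631 (PX [631] [565,598,664]) (by decide +kernel) v4_1676

theorem v4_1690 : VW (PX [] [565,598]) := VW.of base nl_ok fl_ok .nil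
  [(466, (.cons 499 532 .nil (.cons 532 499 (.cons 631 664 .nil (.cons 664 631 .nil .nil)) .nil))), (697, (.cons 631 664 (.cons 499 532 .nil (.cons 532 499 .nil .nil)) (.cons 664 631 .nil .nil)))]
  [([499], (PX [] [499,565,598])), ([532], (PX [] [532,565,598])), ([631], (PX [] [565,598,631])), ([664], (PX [] [565,598,664]))]
  (by decide +kernel) ⟨w4_1690_499, w4_1690_532, w4_1690_631, w4_1690_664, trivial⟩

theorem v4_1705 : VW (PX [596] [565,627,658]) := VW.of base nl_ok fl_ok .nil
  [(689, (.cons 720 751 .nil (.cons 751 720 .nil .nil))), (720, (.cons 689 751 .nil (.cons 751 689 .nil .nil))), (751, (.cons 689 720 .nil (.cons 720 689 .nil .nil)))]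
  []
  (by decide +kernel) trivial

theorem w4_1708_534 : S (PX [] [534,565,627]) := VW.play 596 (PX [596] [534,565,627]) (by decide +kernel) v4_1570

theorem w4_1708_596 : S (PX [] [565,596,627]) := VW.play 534 (PX [534] [565,596,627]) (by decide +kernel) v4_1636

theorem w4_1708_658 : S (PX [] [565,627,658]) := VW.play 596 (PX [596] [565,627,658]) (by decide +kernel) v4_1705

theorem v4_1708 : VW (PX [] [565,627]) := VW.of base nl_ok fl_ok .nil
  [(503, (.cons 534 596 (.cons 441 472 .nil (.cons 472 441 .nil .nil)) (.cons 596 534 (.cons 658 689 .nil (.cons 689 658 .nil .nil)) .nil))), (689, (.cons 596 658 (.cons 503 534 .nil (.cons 534 503 .nil .nil)) (.cons 658 596 (.cons 720 751 .nil (.cons 751 720 .nil .nil)) .nil)))]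
  [([534], (PX [] [534,565,627])), ([596], (PX [] [565,596,627])), ([658], (PX [] [565,627,658]))]
  (by decide +kernel) ⟨w4_1708_534, w4_1708_596, w4_1708_658, trivial⟩

theorem v4_1723 : VW (PX [597] [565,629,661]) := VW.of base nl_ok fl_ok .nil
  [(693, (.cons 725 757 .nil (.cons 757 725 .nil .nil))), (725, (.cons 693 757 .nil (.cons 757 693 .nil .nil))), (757, (.cons 693 725 .nil (.cons 725 693 .nil .nil)))]
  []
  (by decide +kernel) trivial

theorem w4_1726_533 : S (PX [] [533,565,629]) := VW.play 597 (PX [597] [533,565,629]) (by decide +kernel) v4_1388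

theorem w4_1726_597 : S (PX [] [565,597,629]) := VW.play 533 (PX [533] [565,597,629]) (by decide +kernel) v4_1656

theorem w4_1726_661 : S (PX [] [565,629,661]) := VW.play 597 (PX [597] [565,629,661]) (by decide +kernel) v4_1723

theorem v4_1726 : VW (PX [] [565,629]) := VW.of base nl_ok fl_ok .nil
  [(501, (.cons 533 597 (.cons 437 469 .nil (.cons 469 437 .nil .nil)) (.cons 597 533 (.cons 661 693 .nil (.cons 693 661 .nil .nil)) .nil))), (693, (.cons 597 661 (.cons 501 533 .nil (.cons 533 501 .nil .nil)) (.cons 661 597 (.cons 725 757 .nil (.cons 757 725 .nil .nil)) .nil)))]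
  [([533], (PX [] [533,565,629])), ([597], (PX [] [565,597,629])), ([661], (PX [] [565,629,661]))]
  (by decide +kernel) ⟨w4_1726_533, w4_1726_597, w4_1726_661, trivial⟩

theorem v4_1727 : VW (PX [598] [565,631,664]) := VW.of base nl_ok fl_ok .nil
  [(697, (.cons 730 763 .nil (.cons 763 730 .nil .nil))), (730, (.cons 697 763 .nil (.cons 763 697 .nil .nil))), (763, (.cons 697 730 .nil (.cons 730 697 .nil .nil)))]
  []
  (by decide +kernel) trivial

theorem w4_1730_532 : S (PX [] [532,565,631]) := VW.play 598 (PX [598] [532,565,631]) (by decide +kernel) v4_1561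

theorem w4_1730_598 : S (PX [] [565,598,631]) := VW.play 664 (PX [664] [565,598,631]) (by decide +kernel) v4_1675

theorem w4_1730_664 : S (PX [] [565,631,664]) := VW.play 598 (PX [598] [565,631,664]) (by decide +kernel) v4_1727

theorem v4_1730 : VW (PX [] [565,631]) := VW.of base nl_ok fl_ok .nil
  [(499, (.cons 532 598 (.cons 433 466 .nil (.cons 466 433 .nil .nil)) (.cons 598 532 (.cons 664 697 .nil (.cons 697 664 .nil .nil)) .nil))), (697, (.cons 598 664 (.cons 499 532 .nil (.cons 532 499 .nil .nil)) (.cons 664 598 (.cons 730 763 .nil (.cons 763 730 .nil .nil)) .nil)))]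
  [([532], (PX [] [532,565,631])), ([598], (PX [] [565,598,631])), ([664], (PX [] [565,631,664]))]
  (by decide +kernel) ⟨w4_1730_532, w4_1730_598, w4_1730_664, trivial⟩

theorem w4_1731_596 : S (PX [] [565,596,658]) := VW.play 627 (PX [627] [565,596,658]) (by decide +kernel) v4_1641

theorem w4_1731_627 : S (PX [] [565,627,658]) := VW.play 596 (PX [596] [565,627,658]) (by decide +kernel) v4_1705

theorem v4_1731 : VW (PX [] [565,658]) := VW.of base nl_ok fl_ok .nil
  [(534, (.cons 596 627 (.cons 472 503 .nil (.cons 503 472 .nil .nil)) (.cons 627 596 .nil .nil))), (689, (.cons 596 627 .nil (.cons 627 596 (.cons 720 751 .nil (.cons 751 720 .nil .nil)) .nil)))]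
  [([596], (PX [] [565,596,658])), ([627], (PX [] [565,627,658]))]
  (by decide +kernel) ⟨w4_1731_596, w4_1731_627, trivial⟩

theorem w4_1732_597 : S (PX [] [565,597,661]) := VW.play 629 (PX [629] [565,597,661]) (by decide +kernel) v4_1661

theorem w4_1732_629 : S (PX [] [565,629,661]) := VW.play 597 (PX [597] [565,629,661]) (by decide +kernel) v4_1723

theorem v4_1732 : VW (PX [] [565,661]) := VW.of base nl_ok fl_ok .nil
  [(533, (.cons 597 629 (.cons 469 501 .nil (.cons 501 469 .nil .nil)) (.cons 629 597 .nil .nil))), (693, (.cons 597 629 .nil (.cons 629 597 (.cons 725 757 .nil (.cons 757 725 .nil .nil)) .nil)))]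
  [([597], (PX [] [565,597,661])), ([629], (PX [] [565,629,661]))]
  (by decide +kernel) ⟨w4_1732_597, w4_1732_629, trivial⟩

theorem w4_1733_598 : S (PX [] [565,598,664]) := VW.play 631 (PX [631] [565,598,664]) (by decide +kernel) v4_1676

theorem w4_1733_631 : S (PX [] [565,631,664]) := VW.play 598 (PX [598] [565,631,664]) (by decide +kernel) v4_1727

theorem v4_1733 : VW (PX [] [565,664]) := VW.of base nl_ok fl_ok .nil
  [(532, (.cons 598 631 (.cons 466 499 .nil (.cons 499 466 .nil .nil)) (.cons 631 598 .nil .nil))), (697, (.cons 598 631 .nil (.cons 631 598 (.cons 730 763 .nil (.cons 763 730 .nil .nil)) .nil)))]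
  [([598], (PX [] [565,598,664])), ([631], (PX [] [565,631,664]))]
  (by decide +kernel) ⟨w4_1733_598, w4_1733_631, trivial⟩

theorem v4_1734 : VW (PX [] [565,689]) := VW.of base nl_ok fl_ok .nil
  [(596, (.cons 627 658 (.cons 503 534 .nil (.cons 534 503 .nil .nil)) (.cons 658 627 .nil .nil))), (627, (.cons 596 658 (.cons 503 534 .nil (.cons 534 503 .nil .nil)) (.cons 658 596 (.cons 720 751 .nil (.cons 751 720 .nil .nil)) .nil))), (658, (.cons 596 627 .nil (.cons 627 596 (.cons 720 751 .nil (.cons 751 720 .nil .nil)) .nil)))]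
  []
  (by decide +kernel) trivial

theorem v4_1735 : VW (PX [] [565,693]) := VW.of base nl_ok fl_ok .nil
  [(597, (.cons 629 661 (.cons 501 533 .nil (.cons 533 501 .nil .nil)) (.cons 661 629 .nil .nil))), (629, (.cons 597 661 (.cons 501 533 .nil (.cons 533 501 .nil .nil)) (.cons 661 597 (.cons 725 757 .nil (.cons 757 725 .nil .nil)) .nil))), (661, (.cons 597 629 .nil (.cons 629 597 (.cons 725 757 .nil (.cons 757 725 .nil .nil)) .nil)))]
  []
  (by decide +kernel) trivial

theorem v4_1736 : VW (PX [] [565,697]) := VW.of base nl_ok fl_ok .nil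
  [(598, (.cons 631 664 (.cons 499 532 .nil (.cons 532 499 .nil .nil)) (.cons 664 631 .nil .nil))), (631, (.cons 598 664 (.cons 499 532 .nil (.cons 532 499 .nil .nil)) (.cons 664 598 (.cons 730 763 .nil (.cons 763 730 .nil .nil)) .nil))), (664, (.cons 598 631 .nil (.cons 631 598 (.cons 730 763 .nil (.cons 763 730 .nil .nil)) .nil)))]
  []
  (by decide +kernel) trivial

theorem r433 : S (Nat.lor X2 (bits [565, 433])) := VW.play 394 (PX [] [433,565]) (by decide +kernel) v4_1482

theorem r437 : S (Nat.lor X2 (bits [565, 437])) := VW.play 394 (PX [] [437,565]) (by decide +kernel) v4_609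

theorem r441 : S (Nat.lor X2 (bits [565, 441])) := VW.play 394 (PX [] [441,565]) (by decide +kernel) v4_1483

theorem r466 : S (Nat.lor X2 (bits [565, 466])) := VW.play 394 (PX [] [466,565]) (by decide +kernel) v4_1507

theorem r469 : S (Nat.lor X2 (bits [565, 469])) := VW.play 394 (PX [] [469,565]) (by decide +kernel) v4_906

theorem r472 : S (Nat.lor X2 (bits [565, 472])) := VW.play 394 (PX [] [472,565]) (by decide +kernel) v4_1527

theorem r499 : S (Nat.lor X2 (bits [565, 499])) := VW.play 394 (PX [] [499,565]) (by decide +kernel) v4_1532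

theorem r501 : S (Nat.lor X2 (bits [565, 501])) := VW.play 394 (PX [] [501,565]) (by decide +kernel) v4_1182

theorem r503 : S (Nat.lor X2 (bits [565, 503])) := VW.play 394 (PX [] [503,565]) (by decide +kernel) v4_1553

theorem r532 : S (Nat.lor X2 (bits [565, 532])) := VW.play 394 (PX [] [532,565]) (by decide +kernel) v4_1562

theorem r533 : S (Nat.lor X2 (bits [565, 533])) := VW.play 394 (PX [] [533,565]) (by decide +kernel) v4_1400

theorem r534 : S (Nat.lor X2 (bits [565, 534])) := VW.play 394 (PX [] [534,565]) (by decide +kernel) v4_1571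

theorem r561 : S (Nat.lor X2 (bits [565, 561])) := VW.play 394 (PX [] [561,565]) (by decide +kernel) v4_1572

theorem r562 : S (Nat.lor X2 (bits [565, 562])) := VW.play 394 (PX [] [562,565]) (by decide +kernel) v4_1592

theorem r563 : S (Nat.lor X2 (bits [565, 563])) := VW.play 394 (PX [] [563,565]) (by decide +kernel) v4_1599

theorem r564 : S (Nat.lor X2 (bits [565, 564])) := VW.play 394 (PX [] [564,565]) (by decide +kernel) v4_1608

theorem r566 : S (Nat.lor X2 (bits [565, 566])) := VW.play 394 (PX [] [565,566]) (by decide +kernel) v4_1627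

theorem r567 : S (Nat.lor X2 (bits [565, 567])) := VW.play 394 (PX [] [565,567]) (by decide +kernel) v4_1631

theorem r568 : S (Nat.lor X2 (bits [565, 568])) := VW.play 394 (PX [] [565,568]) (by decide +kernel) v4_1632

theorem r569 : S (Nat.lor X2 (bits [565, 569])) := VW.play 394 (PX [] [565,569]) (by decide +kernel) v4_1633

theorem r596 : S (Nat.lor X2 (bits [565, 596])) := VW.play 394 (PX [] [565,596]) (by decide +kernel) v4_1653

theorem r597 : S (Nat.lor X2 (bits [565, 597])) := VW.play 394 (PX [] [565,597]) (by decide +kernel) v4_1673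

theorem r598 : S (Nat.lor X2 (bits [565, 598])) := VW.play 394 (PX [] [565,598]) (by decide +kernel) v4_1690

theorem r627 : S (Nat.lor X2 (bits [565, 627])) := VW.play 394 (PX [] [565,627]) (by decide +kernel) v4_1708

theorem r629 : S (Nat.lor X2 (bits [565, 629])) := VW.play 394 (PX [] [565,629]) (by decide +kernel) v4_1726

theorem r631 : S (Nat.lor X2 (bits [565, 631])) := VW.play 394 (PX [] [565,631]) (by decide +kernel) v4_1730

theorem r658 : S (Nat.lor X2 (bits [565, 658])) := VW.play 394 (PX [] [565,658]) (by decide +kernel) v4_1731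

theorem r661 : S (Nat.lor X2 (bits [565, 661])) := VW.play 394 (PX [] [565,661]) (by decide +kernel) v4_1732

theorem r664 : S (Nat.lor X2 (bits [565, 664])) := VW.play 394 (PX [] [565,664]) (by decide +kernel) v4_1733

theorem r689 : S (Nat.lor X2 (bits [565, 689])) := VW.play 394 (PX [] [565,689]) (by decide +kernel) v4_1734

theorem r693 : S (Nat.lor X2 (bits [565, 693])) := VW.play 394 (PX [] [565,693]) (by decide +kernel) v4_1735

theorem r697 : S (Nat.lor X2 (bits [565, 697])) := VW.play 394 (PX [] [565,697]) (by decide +kernel) v4_1736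

theorem all : RT X2 565 (433 :: 437 :: 441 :: 466 :: 469 :: 472 :: 499 :: 501 :: 503 :: 532 :: 533 :: 534 :: 561 :: 562 :: 563 :: 564 :: 566 :: 567 :: 568 :: 569 :: 596 :: 597 :: 598 :: 627 :: 629 :: 631 :: 658 :: 661 :: 664 :: 689 :: 693 :: 697 :: []) := ⟨r433, r437, r441, r466, r469, r472, r499, r501, r503, r532, r533, r534, r561, r562, r563, r564, r566, r567, r568, r569, r596, r597, r598, r627, r629, r631, r658, r661, r664, r689, r693, r697, trivial⟩

end Pool.Agent.H94.Five.Mid.K10_6_0
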