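import Pool.Agent.H94.Five.Mid.Fam

set_option autoImplicit false
set_option linter.all false
set_option maxRecDepth 100000

/-! Second has the cell (10, 7): some of the other stones. -/

namespace Pool.Agent.H94.Five.Mid.K10_7_0

open Pool.Agent.H79.Five Pool.Agent.H10.Five Pool.Agent.H94.Five.M

abbrev nl : List Ent := [n0, n3, n4, n6, n8, n9, n10, n11, n16, n17, n21, n22]

theorem nl_ok : AC XB M0 nl := .cons n0k <| .cons n3k <| .cons n4k <| .cons n6k <| .cons n8k <| .cons n9k <| .cons n10k <| .cons n11k <| .cons n16k <| .cons n17k <| .cons n21k <| .cons n22k <| .nil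

abbrev fl : List Ent := (x45 :: x61 :: x73 :: x77 :: x101 :: x103 :: x127 :: x130 :: x136 :: x142 :: x167 :: x174 :: x183 :: x201 :: x204 :: x209 :: x214 :: x223 :: x245 :: x253 :: x255 :: x258 :: x266 :: x276 :: x277 :: x291 :: x308 :: x310 :: x316 :: x328 :: x337 :: x341 :: x357 :: x364 :: x371 :: x375 :: x383 :: x390 :: x393 :: x400 :: x420 :: x424 :: x427 :: x437 :: x447 :: x451 :: x462 :: x492 :: x493 :: x501 :: [])

theorem fl_ok : AC XB M0 fl := .cons x45k <| .cons x61k <| .cons x73k <| .cons x77k <| .cons x101k <| .cons x103k <| .cons x127k <| .cons x130k <| .cons x136k <| .cons x142k <| .cons x167k <| .cons x174k <| .cons x183k <| .cons x201k <| .cons x204k <| .cons x209k <| .cons x214k <| .cons x223k <| .cons x245k <| .cons x253k <| .cons x255k <| .cons x258k <| .cons x266k <| .cons x276k <| .cons x277k <| .cons x291k <| .cons x308k <| .cons x310k <| .cons x316k <| .cons x328k <| .cons x337k <| .cons x341k <| .cons x357k <| .cons x364k <| .cons x371k <| .cons x375k <| .cons x383k <| .cons x390k <|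 .cons x393k <| .cons x400k <| .cons x420k <| .cons x424k <| .cons x427k <| .cons x437k <| .cons x447k <| .cons x451k <| .cons x462k <| .cons x492k <| .cons x493k <| .cons x501k <| .nil

theorem b4_554 : S (PX [432,531] [304,366,465,498,597]) := S.of (.q 330 (.a 1 [] (.d 297 2312 264 2345 429)
 (.a 1 [264] (.d 429 2345 297 2378 462)
 (.a 0 [297,429] (.q 362 (.a 1 [] (.d 298 1290 266 1322 426)
 (.a 1 [266] (.d 426 1322 298 1354 458)
 (.a 0 [298,426] (.q 361 (.a 1 [] (.d 360 359 359 360 364)
 (.a 1 [359] (.d 364 360 360 361 365)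
 (.a 0 [360,364] (.q 427 (.a 1 [] (.d 328 2343 295 2376 460)
 (.a 1 [295] (.d 460 2376 328 2409 493)
 (.a 0 [328,460] (.q 395 (.a 1 [] (.d 393 392 392 393 397)
 (.a 1 [392] (.d 397 393 393 394 398)
 (.a 1 [393] (.d 331 1323 299 1355 459)
 .e))))
 .e))))
 .e))))
 .e))))
 .e)))) (by decide +kernel)

theorem b4_555 : S (PX [432,531] [330,366,465,498,597]) := S.of (.q 332 (.a 1 [] (.d 301 3342 270 3373 425)
 (.a 1 [270] (.d 425 3373 301 3404 456)
 (.a 0 [301,425] (.q 364 (.a 1 [] (.d 300 1292 268 1324 428)
 (.a 1 [268] (.d 428 1324 300 1356 460)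
 (.a 0 [300,428] (.q 361 (.a 1 [] (.d 362 360 360 361 365)
 (.a 0 [360,362,365] (.q 427 (.a 1 [] (.d 328 2343 295 2376 460)
 (.a 1 [295] (.d 460 2376 328 2409 493)
 (.a 0 [328,460] (.q 395 (.a 1 [] (.d 393 392 392 393 397)
 (.a 1 [392] (.d 397 393 393 394 398)
 (.a 1 [393] (.d 331 1323 299 1355 459)
 .e))))
 .e))))
 .e)))
 .e))))
 .e)))) (by decide +kernel)

theorem b4_556 : S (PX [432,531] [332,366,465,498,597]) := S.of (.q 395 (.a 1 [] (.d 393 392 392 393 397)
 (.a 1 [392] (.d 397 393 393 394 398)
 (.a 0 [393,397] (.q 330 (.a 1 [] (.d 297 2312 264 2345 429)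
 (.a 1 [264] (.d 429 2345 297 2378 462)
 (.a 0 [297,429] (.q 299 (.a 1 [] (.d 331 1291 267 1323 427)
 (.a 0 [267,331,427] (.q 361 (.a 1 [] (.d 268 3309 237 3340 392)
 (.a 1 [237] (.d 392 3340 268 3371 423)
 (.a 0 [268,392] (.q 362 (.a 1 [] (.d 360 359 359 360 364)
 (.a 1 [359] (.d 364 360 360 361 365)
 (.a 1 [360] (.d 298 1290 266 1322 426)
 .e))))
 .e))))
 .e)))
 .e))))
 .e)))) (by decide +kernel)

theorem b4_557 : S (PX [432,531] [335,366,465,498,597]) := S.of (.q 332 (.a 1 [] (.d 301 3342 270 3373 425)
 (.a 1 [270] (.d 425 3373 301 3404 456)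
 (.a 0 [301,425] (.q 429 (.a 1 [] (.d 330 2345 297 2378 462)
 (.a 1 [297] (.d 462 2378 330 2411 495)
 (.a 0 [330,462] (.q 428 (.a 1 [] (.d 364 1324 300 1356 460)
 (.a 1 [300] (.r 460 1356 364 (.r 430 428 431 (.r 427 426 426 (.d 361 2376 328 2409 493))))
 (.a 0 [364,460] (.q 395 (.a 1 [] (.d 393 392 392 393 397)
 (.a 1 [392] (.d 397 393 393 394 398)
 (.a 1 [393] (.r 430 428 431 (.r 427 426 426 (.d 331 1323 299 1355 459)))
 .e))))
 .e))))
 .e))))
 .e)))) (by decide +kernel)

theorem b4_558 : S (PX [432,531] [365,366,465,498,597]) := S.of (.q 395 (.a 1 [] (.d 393 392 392 393 397)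
 (.a 1 [392] (.d 397 393 393 394 398)
 (.a 0 [393,397] (.q 331 (.a 1 [] (.d 299 1291 267 1323 427)
 (.a 1 [267] (.d 427 1323 299 1355 459)
 (.a 0 [299,427] (.q 332 (.a 1 [] (.d 301 3342 270 3373 425)
 (.a 1 [270] (.d 425 3373 301 3404 456)
 (.a 0 [301,425] (.q 333 (.a 1 [] (.d 330 329 329 330 334)
 (.a 1 [329] (.d 334 330 330 331 335)
 (.a 1 [334] (.r 330 329 329 (.d 429 2345 297 2378 462))
 (.a 0 [330] (.q 364 (.a 1 [] (.d 300 1292 268 1324 428)
 (.a 1 [268] (.d 428 1324 300 1356 460)
 (.a 1 [300] (.d 302 3343 271 3374 426)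
 .e))))
 .e)))))
 .e))))
 .e))))
 .e)))) (by decide +kernel)

theorem b4_559 : S (PX [432,531] [366,425,465,498,597]) := S.of (.q 395 (.a 1 [] (.d 393 392 392 393 397)
 (.a 1 [392] (.d 397 393 393 394 398)
 (.a 0 [393,397] (.q 331 (.a 1 [] (.d 299 1291 267 1323 427)
 (.a 1 [267] (.d 427 1323 299 1355 459)
 (.a 0 [299,427] (.q 330 (.a 1 [] (.d 297 2312 264 2345 429)
 (.a 1 [264] (.d 429 2345 297 2378 462)
 (.a 0 [297] (.q 329 (.a 1 [] (.d 328 327 327 328 332)
 (.a 1 [327] (.d 332 328 328 329 333)
 (.a 0 [328,332] (.q 362 (.a 1 [] (.d 298 1290 266 1322 426)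
 (.a 1 [266] (.d 426 1322 298 1354 458)
 (.a 1 [298] (.d 296 2311 263 2344 428)
 .e))))
 .e))))
 (.a 0 [429] (.q 426 (.a 1 [] (.d 362 1322 298 1354 458)
 (.a 0 [298,362,458] (.q 333 (.a 1 [] (.d 332 329 329 330 334)
 (.a 1 [329] (.d 364 3374 302 3405 457)
 .e)))
 .e)))
 .e)))))
 .e))))
 .e)))) (by decide +kernel)

theorem b4_560 : S (PX [432,531] [366,428,465,498,597]) := S.of (.q 330 (.a 1 [] (.d 297 2312 264 2345 429)
 (.a 1 [264] (.d 429 2345 297 2378 462)
 (.a 0 [297] (.q 362 (.a 1 [] (.d 298 1290 266 1322 426)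
 (.a 1 [266] (.d 426 1322 298 1354 458)
 (.a 0 [298,426] (.q 361 (.a 1 [] (.d 360 359 359 360 364)
 (.a 1 [359] (.d 364 360 360 361 365)
 (.a 0 [360,364] (.q 427 (.a 1 [] (.d 328 2343 295 2376 460)
 (.a 1 [295] (.d 460 2376 328 2409 493)
 (.a 0 [328,460] (.q 395 (.a 1 [] (.d 393 392 392 393 397)
 (.a 1 [392] (.d 397 393 393 394 398)
 (.a 1 [393] (.d 331 1323 299 1355 459)
 .e))))
 .e))))
 .e))))
 .e))))
 (.a 0 [429] (.q 332 (.a 1 [] (.d 301 3342 270 3373 425)
 (.a 1 [270] (.d 425 3373 301 3404 456)
 (.a 0 [301,425] (.q 426 (.a 1 [] (.d 362 1322 298 1354 458)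
 (.a 0 [298,362,458] (.q 333 (.a 1 [] (.d 331 329 329 330 334)
 (.a 0 [329,331,334] (.q 395 (.a 1 [] (.d 393 392 392 393 397)
 (.a 1 [392] (.d 397 393 393 394 398)
 (.a 1 [393] (.d 364 3374 302 3405 457)
 .e))))
 .e)))
 .e)))
 .e))))
 .e))))) (by decide +kernel)

theorem b4_561 : S (PX [432,531] [366,465,490,498,597]) := S.of (.q 330 (.a 1 [] (.d 297 2312 264 2345 429)
 (.a 1 [264] (.d 429 2345 297 2378 462)
 (.a 0 [297,429] (.q 362 (.a 1 [] (.d 298 1290 266 1322 426)
 (.a 1 [266] (.d 426 1322 298 1354 458)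
 (.a 0 [298,426] (.q 361 (.a 1 [] (.d 360 359 359 360 364)
 (.a 1 [359] (.d 364 360 360 361 365)
 (.a 0 [360,364] (.q 427 (.a 1 [] (.d 328 2343 295 2376 460)
 (.a 1 [295] (.d 460 2376 328 2409 493)
 (.a 0 [328,460] (.q 395 (.a 1 [] (.d 393 392 392 393 397)
 (.a 1 [392] (.d 397 393 393 394 398)
 (.a 1 [393] (.d 331 1323 299 1355 459)
 .e))))
 .e))))
 .e))))
 .e))))
 .e)))) (by decide +kernel)

theorem b4_562 : S (PX [366,531] [399,400,465,498,597]) := S.of (.q 330 (.a 1 [] (.d 297 2312 264 2345 429)
 (.a 1 [264] (.d 429 2345 297 2378 462)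
 (.a 0 [297,429] (.q 362 (.a 1 [] (.d 298 1290 266 1322 426)
 (.a 1 [266] (.d 426 1322 298 1354 458)
 (.a 0 [298,426] (.q 332 (.a 1 [] (.d 301 3342 270 3373 425)
 (.a 1 [270] (.d 425 3373 301 3404 456)
 (.a 1 [301] (.r 364 362 365 (.d 428 1324 300 1356 460))
 .e))))
 .e))))
 .e)))) (by decide +kernel)

theorem b4_564 : S (PX [366,531] [428,432,465,498,597]) := S.of (.q 395 (.a 1 [] (.d 393 392 392 393 397)
 (.a 1 [392] (.d 397 393 393 394 398)
 (.a 0 [393,397] (.q 429 (.a 1 [] (.d 330 2345 297 2378 462)
 (.a 1 [297] (.d 462 2378 330 2411 495)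
 (.a 0 [330,462] (.q 364 (.a 1 [] (.d 365 362 362 363 367)
 (.a 0 [362,365,367] (.q 332 (.a 1 [] (.d 301 3342 270 3373 425)
 (.a 1 [270] (.d 425 3373 301 3404 456)
 (.a 0 [301,425] (.q 333 (.a 1 [] (.d 302 3343 271 3374 426)
 (.a 1 [271] (.d 426 3374 302 3405 457)
 (.a 1 [302] (.r 300 1292 268 (.d 267 2282 234 2315 399))
 .e))))
 .e))))
 .e)))
 .e))))
 .e)))) (by decide +kernel)

theorem v4_1738 : VW (PX [432,531] [366,465,498,597]) := VW.of base nl_ok fl_ok .nil
  []
  [([304], (PX [432,531] [304,366,465,498,597])), ([330], (PX [432,531] [330,366,465,498,597])), ([332], (PX [432,531] [332,366,465,498,597])), ([335], (PX [432,531] [335,366,465,498,597])), ([365], (PX [432,531] [365,366,465,498,597])), ([425], (PX [432,531] [366,425,465,498,597])), ([428], (PX [432,531] [366,428,465,498,597])), ([490], (PX [432,531] [366,465,490,498,597]))]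
  (by decide +kernel) ⟨b4_554, b4_555, b4_556, b4_557, b4_558, b4_559, b4_560, b4_561, trivial⟩

theorem v4_1739 : VW (PX [366,531] [399,465,498,597]) := VW.of base nl_ok fl_ok .nil
  []
  [([400], (PX [366,531] [399,400,465,498,597]))]
  (by decide +kernel) ⟨b4_562, trivial⟩

theorem v4_1741 : VW (PX [366,531] [432,465,498,597]) := VW.of base nl_ok fl_ok .nil
  []
  [([428], (PX [366,531] [428,432,465,498,597]))]
  (by decide +kernel) ⟨b4_564, trivial⟩

theorem w4_1743_366 : S (PX [531] [366,465,498,597]) := VW.play 432 (PX [432,531] [366,465,498,597]) (by decide +kernel) v4_1738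

theorem w4_1743_399 : S (PX [531] [399,465,498,597]) := VW.play 366 (PX [366,531] [399,465,498,597]) (by decide +kernel) v4_1739

theorem w4_1743_432 : S (PX [531] [432,465,498,597]) := VW.play 366 (PX [366,531] [432,465,498,597]) (by decide +kernel) v4_1741

theorem v4_1743 : VW (PX [531] [465,498,597]) := VW.of base nl_ok fl_ok .nil
  []
  [([366], (PX [531] [366,465,498,597])), ([399], (PX [531] [399,465,498,597])), ([432], (PX [531] [432,465,498,597]))]
  (by decide +kernel) ⟨w4_1743_366, w4_1743_399, w4_1743_432, trivial⟩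

theorem v4_1751 : VW (PX [498] [465,531,597]) := VW.of base nl_ok fl_ok .nil
  [(564, (.cons 630 663 .nil (.cons 663 630 .nil .nil))), (630, (.cons 564 663 .nil (.cons 663 564 (.cons 696 729 .nil (.cons 729 696 .nil .nil)) .nil))), (663, (.cons 564 630 .nil (.cons 630 564 (.cons 696 729 .nil (.cons 729 696 .nil .nil)) .nil)))]
  []
  (by decide +kernel) trivial

theorem w4_1755_498 : S (PX [] [465,498,597]) := VW.play 531 (PX [531] [465,498,597]) (by decide +kernel) v4_1743

theorem w4_1755_531 : S (PX [] [465,531,597]) := VW.play 498 (PX [498] [465,531,597]) (by decide +kernel) v4_1751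

theorem v4_1755 : VW (PX [] [465,597]) := VW.of base nl_ok fl_ok .nil
  [(564, (.cons 498 531 .nil (.cons 531 498 (.cons 630 663 .nil (.cons 663 630 .nil .nil)) .nil)))]
  [([498], (PX [] [465,498,597])), ([531], (PX [] [465,531,597]))]
  (by decide +kernel) ⟨w4_1755_498, w4_1755_531, trivial⟩

theorem v4_909 : VW (PX [] [469,597]) := VW.of base nl_ok fl_ok .nil
  [(501, (.cons 533 565 (.cons 405 437 .nil (.cons 437 405 .nil .nil)) (.cons 565 533 .nil .nil))), (533, (.cons 501 565 (.cons 405 437 .nil (.cons 437 405 .nil .nil)) (.cons 565 501 (.cons 629 661 .nil (.cons 661 629 .nil .nil)) .nil))), (565, (.cons 501 533 .nil (.cons 533 501 (.cons 629 661 .nil (.cons 661 629 .nil .nil)) .nil)))]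
  []
  (by decide +kernel) trivial

theorem v4_1756 : VW (PX [] [473,597]) := VW.of base nl_ok fl_ok .nil
  [(504, (.cons 535 566 (.cons 411 442 .nil (.cons 442 411 .nil .nil)) (.cons 566 535 .nil .nil))), (535, (.cons 504 566 (.cons 411 442 .nil (.cons 442 411 .nil .nil)) (.cons 566 504 (.cons 628 659 .nil (.cons 659 628 .nil .nil)) .nil))), (566, (.cons 504 535 .nil (.cons 535 504 (.cons 628 659 .nil (.cons 659 628 .nil .nil)) .nil)))]
  []
  (by decide +kernel) trivial

theorem v4_1757 : VW (PX [465,630] [498,531,564,597]) := VW.of base nl_ok fl_ok .nil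
  []
  []
  (by decide +kernel) trivial

theorem v4_1758 : VW (PX [465,564] [498,531,597,630]) := VW.of base nl_ok fl_ok .nil
  [(663, (.cons 696 729 .nil (.cons 729 696 .nil .nil))), (696, (.cons 663 729 .nil (.cons 729 663 .nil .nil))), (729, (.cons 663 696 .nil (.cons 696 663 .nil .nil)))]
  []
  (by decide +kernel) trivial

theorem w4_1759_564 : S (PX [465] [498,531,564,597]) := VW.play 630 (PX [465,630] [498,531,564,597]) (by decide +kernel) v4_1757

theorem w4_1759_630 : S (PX [465] [498,531,597,630]) := VW.play 564 (PX [465,564] [498,531,597,630]) (by decide +kernel) v4_1758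

theorem v4_1759 : VW (PX [465] [498,531,597]) := VW.of base nl_ok fl_ok (.cons 564 630 .nil (.cons 630 564 .nil .nil))
  [(663, (.cons 564 630 .nil (.cons 630 564 (.cons 696 729 .nil (.cons 729 696 .nil .nil)) .nil))), (696, (.cons 564 630 .nil (.cons 630 564 (.cons 663 729 .nil (.cons 729 663 .nil .nil)) .nil))), (729, (.cons 564 630 .nil (.cons 630 564 (.cons 663 696 .nil (.cons 696 663 .nil .nil)) .nil)))]
  [([564], (PX [465] [498,531,564,597])), ([630], (PX [465] [498,531,597,630]))]
  (by decide +kernel) ⟨w4_1759_564, w4_1759_630, trivial⟩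

theorem v4_1777 : VW (PX [531] [498,564,597]) := VW.of base nl_ok fl_ok .nil
  [(630, (.cons 663 696 .nil (.cons 696 663 .nil .nil))), (663, (.cons 630 696 .nil (.cons 696 630 .nil .nil))), (696, (.cons 630 663 .nil (.cons 663 630 .nil .nil)))]
  []
  (by decide +kernel) trivial

theorem w4_1778_465 : S (PX [] [465,498,597]) := VW.play 531 (PX [531] [465,498,597]) (by decide +kernel) v4_1743

theorem w4_1778_531 : S (PX [] [498,531,597]) := VW.play 465 (PX [465] [498,531,597]) (by decide +kernel) v4_1759

theorem w4_1778_564 : S (PX [] [498,564,597]) := VW.play 531 (PX [531] [498,564,597]) (by decide +kernel) v4_1777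

theorem v4_1778 : VW (PX [] [498,597]) := VW.of base nl_ok fl_ok .nil
  [(630, (.cons 531 564 .nil (.cons 564 531 (.cons 663 696 .nil (.cons 696 663 .nil .nil)) .nil)))]
  [([465], (PX [] [465,498,597])), ([531], (PX [] [498,531,597])), ([564], (PX [] [498,564,597]))]
  (by decide +kernel) ⟨w4_1778_465, w4_1778_531, w4_1778_564, trivial⟩

theorem v4_1117 : VW (PX [565] [501,533,597]) := VW.of base nl_ok fl_ok .nil
  [(405, (.cons 437 469 .nil (.cons 469 437 .nil .nil))), (437, (.cons 405 469 .nil (.cons 469 405 .nil .nil))), (469, (.cons 405 437 .nil (.cons 437 405 .nil .nil)))]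
  []
  (by decide +kernel) trivial

theorem v4_1179 : VW (PX [533] [501,565,597]) := VW.of base nl_ok fl_ok .nil
  [(629, (.cons 661 693 .nil (.cons 693 661 .nil .nil))), (661, (.cons 629 693 .nil (.cons 693 629 .nil .nil))), (693, (.cons 629 661 .nil (.cons 661 629 .nil .nil)))]
  []
  (by decide +kernel) trivial

theorem w4_1188_533 : S (PX [] [501,533,597]) := VW.play 565 (PX [565] [501,533,597]) (by decide +kernel) v4_1117

theorem w4_1188_565 : S (PX [] [501,565,597]) := VW.play 533 (PX [533] [501,565,597]) (by decide +kernel) v4_1179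

theorem v4_1188 : VW (PX [] [501,597]) := VW.of base nl_ok fl_ok .nil
  [(469, (.cons 533 565 (.cons 405 437 .nil (.cons 437 405 .nil .nil)) (.cons 565 533 .nil .nil))), (629, (.cons 533 565 .nil (.cons 565 533 (.cons 661 693 .nil (.cons 693 661 .nil .nil)) .nil)))]
  [([533], (PX [] [501,533,597])), ([565], (PX [] [501,565,597]))]
  (by decide +kernel) ⟨w4_1188_533, w4_1188_565, trivial⟩

theorem v4_1782 : VW (PX [566] [504,535,597]) := VW.of base nl_ok fl_ok .nil
  [(411, (.cons 442 473 .nil (.cons 473 442 .nil .nil))), (442, (.cons 411 473 .nil (.cons 473 411 .nil .nil))), (473, (.cons 411 442 .nil (.cons 442 411 .nil .nil)))]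
  []
  (by decide +kernel) trivial

theorem v4_1797 : VW (PX [535] [504,566,597]) := VW.of base nl_ok fl_ok .nil
  [(628, (.cons 659 690 .nil (.cons 690 659 .nil .nil))), (659, (.cons 628 690 .nil (.cons 690 628 .nil .nil))), (690, (.cons 628 659 .nil (.cons 659 628 .nil .nil)))]
  []
  (by decide +kernel) trivial

theorem w4_1798_535 : S (PX [] [504,535,597]) := VW.play 566 (PX [566] [504,535,597]) (by decide +kernel) v4_1782

theorem w4_1798_566 : S (PX [] [504,566,597]) := VW.play 535 (PX [535] [504,566,597]) (by decide +kernel) v4_1797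

theorem v4_1798 : VW (PX [] [504,597]) := VW.of base nl_ok fl_ok .nil
  [(473, (.cons 535 566 (.cons 411 442 .nil (.cons 442 411 .nil .nil)) (.cons 566 535 .nil .nil))), (628, (.cons 535 566 .nil (.cons 566 535 (.cons 659 690 .nil (.cons 690 659 .nil .nil)) .nil)))]
  [([535], (PX [] [504,535,597])), ([566], (PX [] [504,566,597]))]
  (by decide +kernel) ⟨w4_1798_535, w4_1798_566, trivial⟩

theorem v4_1799 : VW (PX [498,663] [531,564,597,630]) := VW.of base nl_ok fl_ok .nil
  []
  []
  (by decide +kernel) trivial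

theorem v4_1800 : VW (PX [498,630] [531,564,597,663]) := VW.of base nl_ok fl_ok .nil
  []
  []
  (by decide +kernel) trivial

theorem w4_1801_630 : S (PX [498] [531,564,597,630]) := VW.play 663 (PX [498,663] [531,564,597,630]) (by decide +kernel) v4_1799

theorem w4_1801_663 : S (PX [498] [531,564,597,663]) := VW.play 630 (PX [498,630] [531,564,597,663]) (by decide +kernel) v4_1800

theorem v4_1801 : VW (PX [498] [531,564,597]) := VW.of base nl_ok fl_ok (.cons 630 663 .nil (.cons 663 630 .nil .nil))
  [(696, (.cons 630 663 .nil (.cons 663 630 .nil .nil))), (729, (.cons 630 663 .nil (.cons 663 630 .nil .nil))), (762, (.cons 630 663 .nil (.cons 663 630 .nil .nil)))]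
  [([630], (PX [498] [531,564,597,630])), ([663], (PX [498] [531,564,597,663]))]
  (by decide +kernel) ⟨w4_1801_630, w4_1801_663, trivial⟩

theorem v4_1802 : VW (PX [564] [531,597,630]) := VW.of base nl_ok fl_ok .nil
  [(663, (.cons 696 729 .nil (.cons 729 696 .nil .nil))), (696, (.cons 663 729 .nil (.cons 729 663 .nil .nil))), (729, (.cons 663 696 .nil (.cons 696 663 .nil .nil)))]
  []
  (by decide +kernel) trivial

theorem w4_1803_465 : S (PX [] [465,531,597]) := VW.play 498 (PX [498] [465,531,597]) (by decide +kernel) v4_1751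

theorem w4_1803_498 : S (PX [] [498,531,597]) := VW.play 465 (PX [465] [498,531,597]) (by decide +kernel) v4_1759

theorem w4_1803_564 : S (PX [] [531,564,597]) := VW.play 498 (PX [498] [531,564,597]) (by decide +kernel) v4_1801

theorem w4_1803_630 : S (PX [] [531,597,630]) := VW.play 564 (PX [564] [531,597,630]) (by decide +kernel) v4_1802

theorem v4_1803 : VW (PX [] [531,597]) := VW.of base nl_ok fl_ok .nil
  [(663, (.cons 564 630 (.cons 465 498 .nil (.cons 498 465 .nil .nil)) (.cons 630 564 (.cons 696 729 .nil (.cons 729 696 .nil .nil)) .nil)))]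
  [([465], (PX [] [465,531,597])), ([498], (PX [] [498,531,597])), ([564], (PX [] [531,564,597])), ([630], (PX [] [531,597,630]))]
  (by decide +kernel) ⟨w4_1803_465, w4_1803_498, w4_1803_564, w4_1803_630, trivial⟩

theorem v4_1381 : VW (PX [501,661] [533,565,597,629]) := VW.of base nl_ok fl_ok .nil
  []
  []
  (by decide +kernel) trivial

theorem v4_1382 : VW (PX [501,629] [533,565,597,661]) := VW.of base nl_ok fl_ok .nil
  []
  []
  (by decide +kernel) trivial

theorem w4_1383_629 : S (PX [501] [533,565,597,629]) := VW.play 661 (PX [501,661] [533,565,597,629]) (by decide +kernel) v4_1381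

theorem w4_1383_661 : S (PX [501] [533,565,597,661]) := VW.play 629 (PX [501,629] [533,565,597,661]) (by decide +kernel) v4_1382

theorem v4_1383 : VW (PX [501] [533,565,597]) := VW.of base nl_ok fl_ok (.cons 629 661 .nil (.cons 661 629 .nil .nil))
  [(693, (.cons 629 661 .nil (.cons 661 629 .nil .nil))), (725, (.cons 629 661 .nil (.cons 661 629 .nil .nil))), (757, (.cons 629 661 .nil (.cons 661 629 .nil .nil)))]
  [([629], (PX [501] [533,565,597,629])), ([661], (PX [501] [533,565,597,661]))]
  (by decide +kernel) ⟨w4_1383_629, w4_1383_661, trivial⟩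

theorem v4_1450 : VW (PX [565] [533,597,629]) := VW.of base nl_ok fl_ok .nil
  [(661, (.cons 693 725 .nil (.cons 725 693 .nil .nil))), (693, (.cons 661 725 .nil (.cons 725 661 .nil .nil))), (725, (.cons 661 693 .nil (.cons 693 661 .nil .nil)))]
  []
  (by decide +kernel) trivial

theorem w4_1453_501 : S (PX [] [501,533,597]) := VW.play 565 (PX [565] [501,533,597]) (by decide +kernel) v4_1117

theorem w4_1453_565 : S (PX [] [533,565,597]) := VW.play 501 (PX [501] [533,565,597]) (by decide +kernel) v4_1383

theorem w4_1453_629 : S (PX [] [533,597,629]) := VW.play 565 (PX [565] [533,597,629]) (by decide +kernel) v4_1450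

theorem v4_1453 : VW (PX [] [533,597]) := VW.of base nl_ok fl_ok .nil
  [(469, (.cons 501 565 (.cons 405 437 .nil (.cons 437 405 .nil .nil)) (.cons 565 501 (.cons 629 661 .nil (.cons 661 629 .nil .nil)) .nil))), (661, (.cons 565 629 (.cons 469 501 .nil (.cons 501 469 .nil .nil)) (.cons 629 565 (.cons 693 725 .nil (.cons 725 693 .nil .nil)) .nil)))]
  [([501], (PX [] [501,533,597])), ([565], (PX [] [533,565,597])), ([629], (PX [] [533,597,629]))]
  (by decide +kernel) ⟨w4_1453_501, w4_1453_565, w4_1453_629, trivial⟩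

theorem v4_1804 : VW (PX [504,659] [535,566,597,628]) := VW.of base nl_ok fl_ok .nil
  []
  []
  (by decide +kernel) trivial

theorem v4_1805 : VW (PX [504,628] [535,566,597,659]) := VW.of base nl_ok fl_ok .nil
  []
  []
  (by decide +kernel) trivial

theorem w4_1806_628 : S (PX [504] [535,566,597,628]) := VW.play 659 (PX [504,659] [535,566,597,628]) (by decide +kernel) v4_1804

theorem w4_1806_659 : S (PX [504] [535,566,597,659]) := VW.play 628 (PX [504,628] [535,566,597,659]) (by decide +kernel) v4_1805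

theorem v4_1806 : VW (PX [504] [535,566,597]) := VW.of base nl_ok fl_ok (.cons 628 659 .nil (.cons 659 628 .nil .nil))
  [(690, (.cons 628 659 .nil (.cons 659 628 .nil .nil))), (721, (.cons 628 659 .nil (.cons 659 628 .nil .nil))), (752, (.cons 628 659 .nil (.cons 659 628 .nil .nil)))]
  [([628], (PX [504] [535,566,597,628])), ([659], (PX [504] [535,566,597,659]))]
  (by decide +kernel) ⟨w4_1806_628, w4_1806_659, trivial⟩

theorem v4_1821 : VW (PX [566] [535,597,628]) := VW.of base nl_ok fl_ok .nil
  [(659, (.cons 690 721 .nil (.cons 721 690 .nil .nil))), (690, (.cons 659 721 .nil (.cons 721 659 .nil .nil))), (721, (.cons 659 690 .nil (.cons 690 659 .nil .nil)))]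
  []
  (by decide +kernel) trivial

theorem w4_1824_504 : S (PX [] [504,535,597]) := VW.play 566 (PX [566] [504,535,597]) (by decide +kernel) v4_1782

theorem w4_1824_566 : S (PX [] [535,566,597]) := VW.play 504 (PX [504] [535,566,597]) (by decide +kernel) v4_1806

theorem w4_1824_628 : S (PX [] [535,597,628]) := VW.play 566 (PX [566] [535,597,628]) (by decide +kernel) v4_1821

theorem v4_1824 : VW (PX [] [535,597]) := VW.of base nl_ok fl_ok .nil
  [(473, (.cons 504 566 (.cons 411 442 .nil (.cons 442 411 .nil .nil)) (.cons 566 504 (.cons 628 659 .nil (.cons 659 628 .nil .nil)) .nil))), (659, (.cons 566 628 (.cons 473 504 .nil (.cons 504 473 .nil .nil)) (.cons 628 566 (.cons 690 721 .nil (.cons 721 690 .nil .nil)) .nil)))]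
  [([504], (PX [] [504,535,597])), ([566], (PX [] [535,566,597])), ([628], (PX [] [535,597,628]))]
  (by decide +kernel) ⟨w4_1824_504, w4_1824_566, w4_1824_628, trivial⟩

theorem v4_1825 : VW (PX [531,696] [564,597,630,663]) := VW.of base nl_ok fl_ok .nil
  []
  []
  (by decide +kernel) trivial

theorem v4_1826 : VW (PX [531,663] [564,597,630,696]) := VW.of base nl_ok fl_ok .nil
  []
  []
  (by decide +kernel) trivial

theorem w4_1827_663 : S (PX [531] [564,597,630,663]) := VW.play 696 (PX [531,696] [564,597,630,663]) (by decide +kernel) v4_1825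

theorem w4_1827_696 : S (PX [531] [564,597,630,696]) := VW.play 663 (PX [531,663] [564,597,630,696]) (by decide +kernel) v4_1826

theorem v4_1827 : VW (PX [531] [564,597,630]) := VW.of base nl_ok fl_ok (.cons 663 696 .nil (.cons 696 663 .nil .nil))
  [(729, (.cons 663 696 .nil (.cons 696 663 .nil .nil))), (762, (.cons 663 696 .nil (.cons 696 663 .nil .nil))), (795, (.cons 663 696 .nil (.cons 696 663 .nil .nil)))]
  [([663], (PX [531] [564,597,630,663])), ([696], (PX [531] [564,597,630,696]))]
  (by decide +kernel) ⟨w4_1827_663, w4_1827_696, trivial⟩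

theorem v4_1832 : VW (PX [630] [564,597,663]) := VW.of base nl_ok fl_ok .nil
  [(465, (.cons 498 531 .nil (.cons 531 498 .nil .nil))), (498, (.cons 465 531 .nil (.cons 531 465 .nil .nil))), (531, (.cons 465 498 .nil (.cons 498 465 .nil .nil)))]
  []
  (by decide +kernel) trivial

theorem w4_1833_498 : S (PX [] [498,564,597]) := VW.play 531 (PX [531] [498,564,597]) (by decide +kernel) v4_1777

theorem w4_1833_531 : S (PX [] [531,564,597]) := VW.play 498 (PX [498] [531,564,597]) (by decide +kernel) v4_1801

theorem w4_1833_630 : S (PX [] [564,597,630]) := VW.play 531 (PX [531] [564,597,630]) (by decide +kernel) v4_1827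

theorem w4_1833_663 : S (PX [] [564,597,663]) := VW.play 630 (PX [630] [564,597,663]) (by decide +kernel) v4_1832

theorem v4_1833 : VW (PX [] [564,597]) := VW.of base nl_ok fl_ok .nil
  [(465, (.cons 498 531 .nil (.cons 531 498 (.cons 630 663 .nil (.cons 663 630 .nil .nil)) .nil))), (696, (.cons 630 663 (.cons 498 531 .nil (.cons 531 498 .nil .nil)) (.cons 663 630 .nil .nil)))]
  [([498], (PX [] [498,564,597])), ([531], (PX [] [531,564,597])), ([630], (PX [] [564,597,630])), ([663], (PX [] [564,597,663]))]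
  (by decide +kernel) ⟨w4_1833_498, w4_1833_531, w4_1833_630, w4_1833_663, trivial⟩

theorem v4_1654 : VW (PX [533,693] [565,597,629,661]) := VW.of base nl_ok fl_ok .nil
  []
  []
  (by decide +kernel) trivial

theorem v4_1655 : VW (PX [533,661] [565,597,629,693]) := VW.of base nl_ok fl_ok .nil
  []
  []
  (by decide +kernel) trivial

theorem w4_1656_661 : S (PX [533] [565,597,629,661]) := VW.play 693 (PX [533,693] [565,597,629,661]) (by decide +kernel) v4_1654

theorem w4_1656_693 : S (PX [533] [565,597,629,693]) := VW.play 661 (PX [533,661] [565,597,629,693]) (by decide +kernel) v4_1655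

theorem v4_1656 : VW (PX [533] [565,597,629]) := VW.of base nl_ok fl_ok (.cons 661 693 .nil (.cons 693 661 .nil .nil))
  [(725, (.cons 661 693 .nil (.cons 693 661 .nil .nil))), (757, (.cons 661 693 .nil (.cons 693 661 .nil .nil))), (789, (.cons 661 693 .nil (.cons 693 661 .nil .nil)))]
  [([661], (PX [533] [565,597,629,661])), ([693], (PX [533] [565,597,629,693]))]
  (by decide +kernel) ⟨w4_1656_661, w4_1656_693, trivial⟩

theorem v4_1661 : VW (PX [629] [565,597,661]) := VW.of base nl_ok fl_ok .nil
  [(469, (.cons 501 533 .nil (.cons 533 501 .nil .nil))), (501, (.cons 469 533 .nil (.cons 533 469 .nil .nil))), (533, (.cons 469 501 .nil (.cons 501 469 .nil .nil)))]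
  []
  (by decide +kernel) trivial

theorem w4_1673_501 : S (PX [] [501,565,597]) := VW.play 533 (PX [533] [501,565,597]) (by decide +kernel) v4_1179

theorem w4_1673_533 : S (PX [] [533,565,597]) := VW.play 501 (PX [501] [533,565,597]) (by decide +kernel) v4_1383

theorem w4_1673_629 : S (PX [] [565,597,629]) := VW.play 533 (PX [533] [565,597,629]) (by decide +kernel) v4_1656

theorem w4_1673_661 : S (PX [] [565,597,661]) := VW.play 629 (PX [629] [565,597,661]) (by decide +kernel) v4_1661

theorem v4_1673 : VW (PX [] [565,597]) := VW.of base nl_ok fl_ok .nil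
  [(469, (.cons 501 533 .nil (.cons 533 501 (.cons 629 661 .nil (.cons 661 629 .nil .nil)) .nil))), (693, (.cons 629 661 (.cons 501 533 .nil (.cons 533 501 .nil .nil)) (.cons 661 629 .nil .nil)))]
  [([501], (PX [] [501,565,597])), ([533], (PX [] [533,565,597])), ([629], (PX [] [565,597,629])), ([661], (PX [] [565,597,661]))]
  (by decide +kernel) ⟨w4_1673_501, w4_1673_533, w4_1673_629, w4_1673_661, trivial⟩

theorem v4_1834 : VW (PX [535,690] [566,597,628,659]) := VW.of base nl_ok fl_ok .nil
  []
  []
  (by decide +kernel) trivial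

theorem v4_1835 : VW (PX [535,659] [566,597,628,690]) := VW.of base nl_ok fl_ok .nil
  []
  []
  (by decide +kernel) trivial

theorem w4_1836_659 : S (PX [535] [566,597,628,659]) := VW.play 690 (PX [535,690] [566,597,628,659]) (by decide +kernel) v4_1834

theorem w4_1836_690 : S (PX [535] [566,597,628,690]) := VW.play 659 (PX [535,659] [566,597,628,690]) (by decide +kernel) v4_1835

theorem v4_1836 : VW (PX [535] [566,597,628]) := VW.of base nl_ok fl_ok (.cons 659 690 .nil (.cons 690 659 .nil .nil))
  [(721, (.cons 659 690 .nil (.cons 690 659 .nil .nil))), (752, (.cons 659 690 .nil (.cons 690 659 .nil .nil))), (783, (.cons 659 690 .nil (.cons 690 659 .nil .nil)))]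
  [([659], (PX [535] [566,597,628,659])), ([690], (PX [535] [566,597,628,690]))]
  (by decide +kernel) ⟨w4_1836_659, w4_1836_690, trivial⟩

theorem v4_1841 : VW (PX [628] [566,597,659]) := VW.of base nl_ok fl_ok .nil
  [(473, (.cons 504 535 .nil (.cons 535 504 .nil .nil))), (504, (.cons 473 535 .nil (.cons 535 473 .nil .nil))), (535, (.cons 473 504 .nil (.cons 504 473 .nil .nil)))]
  []
  (by decide +kernel) trivial

theorem w4_1842_504 : S (PX [] [504,566,597]) := VW.play 535 (PX [535] [504,566,597]) (by decide +kernel) v4_1797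

theorem w4_1842_535 : S (PX [] [535,566,597]) := VW.play 504 (PX [504] [535,566,597]) (by decide +kernel) v4_1806

theorem w4_1842_628 : S (PX [] [566,597,628]) := VW.play 535 (PX [535] [566,597,628]) (by decide +kernel) v4_1836

theorem w4_1842_659 : S (PX [] [566,597,659]) := VW.play 628 (PX [628] [566,597,659]) (by decide +kernel) v4_1841

theorem v4_1842 : VW (PX [] [566,597]) := VW.of base nl_ok fl_ok .nil
  [(473, (.cons 504 535 .nil (.cons 535 504 (.cons 628 659 .nil (.cons 659 628 .nil .nil)) .nil))), (690, (.cons 628 659 (.cons 504 535 .nil (.cons 535 504 .nil .nil)) (.cons 659 628 .nil .nil)))]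
  [([504], (PX [] [504,566,597])), ([535], (PX [] [535,566,597])), ([628], (PX [] [566,597,628])), ([659], (PX [] [566,597,659]))]
  (by decide +kernel) ⟨w4_1842_504, w4_1842_535, w4_1842_628, w4_1842_659, trivial⟩

theorem v4_1843 : VW (PX [] [593,597]) := VW.of base nl_ok fl_ok .nil
  [(594, (.cons 595 596 (.cons 591 592 .nil (.cons 592 591 .nil .nil)) (.cons 596 595 .nil .nil))), (595, (.cons 594 596 (.cons 591 592 .nil (.cons 592 591 .nil .nil)) (.cons 596 594 (.cons 598 599 .nil (.cons 599 598 .nil .nil)) .nil))), (596, (.cons 594 595 .nil (.cons 595 594 (.cons 598 599 .nil (.cons 599 598 .nil .nil)) .nil)))]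
  []
  (by decide +kernel) trivial

theorem v4_1847 : VW (PX [596] [594,595,597]) := VW.of base nl_ok fl_ok .nil
  [(591, (.cons 592 593 .nil (.cons 593 592 .nil .nil))), (592, (.cons 591 593 .nil (.cons 593 591 .nil .nil))), (593, (.cons 591 592 .nil (.cons 592 591 .nil .nil)))]
  []
  (by decide +kernel) trivial

theorem v4_1862 : VW (PX [595] [594,596,597]) := VW.of base nl_ok fl_ok .nil
  [(598, (.cons 599 600 .nil (.cons 600 599 .nil .nil))), (599, (.cons 598 600 .nil (.cons 600 598 .nil .nil))), (600, (.cons 598 599 .nil (.cons 599 598 .nil .nil)))]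
  []
  (by decide +kernel) trivial

theorem w4_1865_595 : S (PX [] [594,595,597]) := VW.play 596 (PX [596] [594,595,597]) (by decide +kernel) v4_1847

theorem w4_1865_596 : S (PX [] [594,596,597]) := VW.play 595 (PX [595] [594,596,597]) (by decide +kernel) v4_1862

theorem v4_1865 : VW (PX [] [594,597]) := VW.of base nl_ok fl_ok .nil
  [(593, (.cons 595 596 (.cons 591 592 .nil (.cons 592 591 .nil .nil)) (.cons 596 595 .nil .nil))), (598, (.cons 595 596 .nil (.cons 596 595 (.cons 599 600 .nil (.cons 600 599 .nil .nil)) .nil)))]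
  [([595], (PX [] [594,595,597])), ([596], (PX [] [594,596,597]))]
  (by decide +kernel) ⟨w4_1865_595, w4_1865_596, trivial⟩

theorem v4_1866 : VW (PX [594,599] [595,596,597,598]) := VW.of base nl_ok fl_ok .nil
  []
  []
  (by decide +kernel) trivial

theorem v4_1867 : VW (PX [594,598] [595,596,597,599]) := VW.of base nl_ok fl_ok .nil
  []
  []
  (by decide +kernel) trivial

theorem w4_1868_598 : S (PX [594] [595,596,597,598]) := VW.play 599 (PX [594,599] [595,596,597,598]) (by decide +kernel) v4_1866

theorem w4_1868_599 : S (PX [594] [595,596,597,599]) := VW.play 598 (PX [594,598] [595,596,597,599]) (by decide +kernel) v4_1867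

theorem v4_1868 : VW (PX [594] [595,596,597]) := VW.of base nl_ok fl_ok (.cons 598 599 .nil (.cons 599 598 .nil .nil))
  [(600, (.cons 598 599 .nil (.cons 599 598 .nil .nil))), (601, (.cons 598 599 .nil (.cons 599 598 .nil .nil))), (602, (.cons 598 599 .nil (.cons 599 598 .nil .nil)))]
  [([598], (PX [594] [595,596,597,598])), ([599], (PX [594] [595,596,597,599]))]
  (by decide +kernel) ⟨w4_1868_598, w4_1868_599, trivial⟩

theorem v4_1871 : VW (PX [596] [595,597,598]) := VW.of base nl_ok fl_ok .nil
  [(599, (.cons 600 601 .nil (.cons 601 600 .nil .nil))), (600, (.cons 599 601 .nil (.cons 601 599 .nil .nil))), (601, (.cons 599 600 .nil (.cons 600 599 .nil .nil)))]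
  []
  (by decide +kernel) trivial

theorem w4_1874_594 : S (PX [] [594,595,597]) := VW.play 596 (PX [596] [594,595,597]) (by decide +kernel) v4_1847

theorem w4_1874_596 : S (PX [] [595,596,597]) := VW.play 594 (PX [594] [595,596,597]) (by decide +kernel) v4_1868

theorem w4_1874_598 : S (PX [] [595,597,598]) := VW.play 596 (PX [596] [595,597,598]) (by decide +kernel) v4_1871

theorem v4_1874 : VW (PX [] [595,597]) := VW.of base nl_ok fl_ok .nil
  [(593, (.cons 594 596 (.cons 591 592 .nil (.cons 592 591 .nil .nil)) (.cons 596 594 (.cons 598 599 .nil (.cons 599 598 .nil .nil)) .nil))), (599, (.cons 596 598 (.cons 593 594 .nil (.cons 594 593 .nil .nil)) (.cons 598 596 (.cons 600 601 .nil (.cons 601 600 .nil .nil)) .nil)))]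
  [([594], (PX [] [594,595,597])), ([596], (PX [] [595,596,597])), ([598], (PX [] [595,597,598]))]
  (by decide +kernel) ⟨w4_1874_594, w4_1874_596, w4_1874_598, trivial⟩

theorem v4_1875 : VW (PX [595,600] [596,597,598,599]) := VW.of base nl_ok fl_ok .nil
  []
  []
  (by decide +kernel) trivial

theorem v4_1876 : VW (PX [595,599] [596,597,598,600]) := VW.of base nl_ok fl_ok .nil
  []
  []
  (by decide +kernel) trivial

theorem w4_1877_599 : S (PX [595] [596,597,598,599]) := VW.play 600 (PX [595,600] [596,597,598,599]) (by decide +kernel) v4_1875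

theorem w4_1877_600 : S (PX [595] [596,597,598,600]) := VW.play 599 (PX [595,599] [596,597,598,600]) (by decide +kernel) v4_1876

theorem v4_1877 : VW (PX [595] [596,597,598]) := VW.of base nl_ok fl_ok (.cons 599 600 .nil (.cons 600 599 .nil .nil))
  [(601, (.cons 599 600 .nil (.cons 600 599 .nil .nil))), (602, (.cons 599 600 .nil (.cons 600 599 .nil .nil))), (603, (.cons 599 600 .nil (.cons 600 599 .nil .nil)))]
  [([599], (PX [595] [596,597,598,599])), ([600], (PX [595] [596,597,598,600]))]
  (by decide +kernel) ⟨w4_1877_599, w4_1877_600, trivial⟩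

theorem v4_1882 : VW (PX [598] [596,597,599]) := VW.of base nl_ok fl_ok .nil
  [(593, (.cons 594 595 .nil (.cons 595 594 .nil .nil))), (594, (.cons 593 595 .nil (.cons 595 593 .nil .nil))), (595, (.cons 593 594 .nil (.cons 594 593 .nil .nil)))]
  []
  (by decide +kernel) trivial

theorem w4_1894_594 : S (PX [] [594,596,597]) := VW.play 595 (PX [595] [594,596,597]) (by decide +kernel) v4_1862

theorem w4_1894_595 : S (PX [] [595,596,597]) := VW.play 594 (PX [594] [595,596,597]) (by decide +kernel) v4_1868

theorem w4_1894_598 : S (PX [] [596,597,598]) := VW.play 595 (PX [595] [596,597,598]) (by decide +kernel) v4_1877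

theorem w4_1894_599 : S (PX [] [596,597,599]) := VW.play 598 (PX [598] [596,597,599]) (by decide +kernel) v4_1882

theorem v4_1894 : VW (PX [] [596,597]) := VW.of base nl_ok fl_ok .nil
  [(593, (.cons 594 595 .nil (.cons 595 594 (.cons 598 599 .nil (.cons 599 598 .nil .nil)) .nil))), (600, (.cons 598 599 (.cons 594 595 .nil (.cons 595 594 .nil .nil)) (.cons 599 598 .nil .nil)))]
  [([594], (PX [] [594,596,597])), ([595], (PX [] [595,596,597])), ([598], (PX [] [596,597,598])), ([599], (PX [] [596,597,599]))]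
  (by decide +kernel) ⟨w4_1894_594, w4_1894_595, w4_1894_598, w4_1894_599, trivial⟩

theorem v4_1895 : VW (PX [596,600] [595,597,598,599]) := VW.of base nl_ok fl_ok .nil
  []
  []
  (by decide +kernel) trivial

theorem w4_1896_595 : S (PX [600] [595,597,598,599]) := VW.play 596 (PX [596,600] [595,597,598,599]) (by decide +kernel) v4_1895

theorem w4_1896_596 : S (PX [600] [596,597,598,599]) := VW.play 595 (PX [595,600] [596,597,598,599]) (by decide +kernel) v4_1875

theorem v4_1896 : VW (PX [600] [597,598,599]) := VW.of base nl_ok fl_ok (.cons 595 596 .nil (.cons 596 595 .nil .nil))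
  [(592, (.cons 595 596 .nil (.cons 596 595 .nil .nil))), (593, (.cons 595 596 .nil (.cons 596 595 .nil .nil))), (594, (.cons 595 596 .nil (.cons 596 595 .nil .nil)))]
  [([595], (PX [600] [595,597,598,599])), ([596], (PX [600] [596,597,598,599]))]
  (by decide +kernel) ⟨w4_1896_595, w4_1896_596, trivial⟩

theorem v4_1897 : VW (PX [599] [597,598,600]) := VW.of base nl_ok fl_ok .nil
  [(594, (.cons 595 596 .nil (.cons 596 595 .nil .nil))), (595, (.cons 594 596 .nil (.cons 596 594 .nil .nil))), (596, (.cons 594 595 .nil (.cons 595 594 .nil .nil)))]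
  []
  (by decide +kernel) trivial

theorem w4_1913_595 : S (PX [] [595,597,598]) := VW.play 596 (PX [596] [595,597,598]) (by decide +kernel) v4_1871

theorem w4_1913_596 : S (PX [] [596,597,598]) := VW.play 595 (PX [595] [596,597,598]) (by decide +kernel) v4_1877

theorem w4_1913_599 : S (PX [] [597,598,599]) := VW.play 600 (PX [600] [597,598,599]) (by decide +kernel) v4_1896

theorem w4_1913_600 : S (PX [] [597,598,600]) := VW.play 599 (PX [599] [597,598,600]) (by decide +kernel) v4_1897

theorem v4_1913 : VW (PX [] [597,598]) := VW.of base nl_ok fl_ok .nil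
  [(594, (.cons 595 596 .nil (.cons 596 595 (.cons 599 600 .nil (.cons 600 599 .nil .nil)) .nil))), (601, (.cons 599 600 (.cons 595 596 .nil (.cons 596 595 .nil .nil)) (.cons 600 599 .nil .nil)))]
  [([595], (PX [] [595,597,598])), ([596], (PX [] [596,597,598])), ([599], (PX [] [597,598,599])), ([600], (PX [] [597,598,600]))]
  (by decide +kernel) ⟨w4_1913_595, w4_1913_596, w4_1913_599, w4_1913_600, trivial⟩

theorem v4_1914 : VW (PX [598] [597,599,600]) := VW.of base nl_ok fl_ok .nil
  [(601, (.cons 602 603 .nil (.cons 603 602 .nil .nil))), (602, (.cons 601 603 .nil (.cons 603 601 .nil .nil))), (603, (.cons 601 602 .nil (.cons 602 601 .nil .nil)))]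
  []
  (by decide +kernel) trivial

theorem w4_1917_596 : S (PX [] [596,597,599]) := VW.play 598 (PX [598] [596,597,599]) (by decide +kernel) v4_1882

theorem w4_1917_598 : S (PX [] [597,598,599]) := VW.play 600 (PX [600] [597,598,599]) (by decide +kernel) v4_1896

theorem w4_1917_600 : S (PX [] [597,599,600]) := VW.play 598 (PX [598] [597,599,600]) (by decide +kernel) v4_1914

theorem v4_1917 : VW (PX [] [597,599]) := VW.of base nl_ok fl_ok .nil
  [(595, (.cons 596 598 (.cons 593 594 .nil (.cons 594 593 .nil .nil)) (.cons 598 596 (.cons 600 601 .nil (.cons 601 600 .nil .nil)) .nil))), (601, (.cons 598 600 (.cons 595 596 .nil (.cons 596 595 .nil .nil)) (.cons 600 598 (.cons 602 603 .nil (.cons 603 602 .nil .nil)) .nil)))]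
  [([596], (PX [] [596,597,599])), ([598], (PX [] [597,598,599])), ([600], (PX [] [597,599,600]))]
  (by decide +kernel) ⟨w4_1917_596, w4_1917_598, w4_1917_600, trivial⟩

theorem w4_1918_598 : S (PX [] [597,598,600]) := VW.play 599 (PX [599] [597,598,600]) (by decide +kernel) v4_1897

theorem w4_1918_599 : S (PX [] [597,599,600]) := VW.play 598 (PX [598] [597,599,600]) (by decide +kernel) v4_1914

theorem v4_1918 : VW (PX [] [597,600]) := VW.of base nl_ok fl_ok .nil
  [(596, (.cons 598 599 (.cons 594 595 .nil (.cons 595 594 .nil .nil)) (.cons 599 598 .nil .nil))), (601, (.cons 598 599 .nil (.cons 599 598 (.cons 602 603 .nil (.cons 603 602 .nil .nil)) .nil)))]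
  [([598], (PX [] [597,598,600])), ([599], (PX [] [597,599,600]))]
  (by decide +kernel) ⟨w4_1918_598, w4_1918_599, trivial⟩

theorem v4_1919 : VW (PX [] [597,601]) := VW.of base nl_ok fl_ok .nil
  [(598, (.cons 599 600 (.cons 595 596 .nil (.cons 596 595 .nil .nil)) (.cons 600 599 .nil .nil))), (599, (.cons 598 600 (.cons 595 596 .nil (.cons 596 595 .nil .nil)) (.cons 600 598 (.cons 602 603 .nil (.cons 603 602 .nil .nil)) .nil))), (600, (.cons 598 599 .nil (.cons 599 598 (.cons 602 603 .nil (.cons 603 602 .nil .nil)) .nil)))]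
  []
  (by decide +kernel) trivial

theorem v4_1920 : VW (PX [566,721] [597,628,659,690]) := VW.of base nl_ok fl_ok .nil
  []
  []
  (by decide +kernel) trivial

theorem v4_1921 : VW (PX [566,690] [597,628,659,721]) := VW.of base nl_ok fl_ok .nil
  []
  []
  (by decide +kernel) trivial

theorem w4_1922_690 : S (PX [566] [597,628,659,690]) := VW.play 721 (PX [566,721] [597,628,659,690]) (by decide +kernel) v4_1920

theorem w4_1922_721 : S (PX [566] [597,628,659,721]) := VW.play 690 (PX [566,690] [597,628,659,721]) (by decide +kernel) v4_1921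

theorem v4_1922 : VW (PX [566] [597,628,659]) := VW.of base nl_ok fl_ok (.cons 690 721 .nil (.cons 721 690 .nil .nil))
  [(752, (.cons 690 721 .nil (.cons 721 690 .nil .nil))), (783, (.cons 690 721 .nil (.cons 721 690 .nil .nil))), (814, (.cons 690 721 .nil (.cons 721 690 .nil .nil)))]
  [([690], (PX [566] [597,628,659,690])), ([721], (PX [566] [597,628,659,721]))]
  (by decide +kernel) ⟨w4_1922_690, w4_1922_721, trivial⟩

theorem v4_1927 : VW (PX [659] [597,628,690]) := VW.of base nl_ok fl_ok .nil
  [(504, (.cons 535 566 .nil (.cons 566 535 .nil .nil))), (535, (.cons 504 566 .nil (.cons 566 504 .nil .nil))), (566, (.cons 504 535 .nil (.cons 535 504 .nil .nil)))]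
  []
  (by decide +kernel) trivial

theorem w4_1939_535 : S (PX [] [535,597,628]) := VW.play 566 (PX [566] [535,597,628]) (by decide +kernel) v4_1821

theorem w4_1939_566 : S (PX [] [566,597,628]) := VW.play 535 (PX [535] [566,597,628]) (by decide +kernel) v4_1836

theorem w4_1939_659 : S (PX [] [597,628,659]) := VW.play 566 (PX [566] [597,628,659]) (by decide +kernel) v4_1922

theorem w4_1939_690 : S (PX [] [597,628,690]) := VW.play 659 (PX [659] [597,628,690]) (by decide +kernel) v4_1927

theorem v4_1939 : VW (PX [] [597,628]) := VW.of base nl_ok fl_ok .nil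
  [(504, (.cons 535 566 .nil (.cons 566 535 (.cons 659 690 .nil (.cons 690 659 .nil .nil)) .nil))), (721, (.cons 659 690 (.cons 535 566 .nil (.cons 566 535 .nil .nil)) (.cons 690 659 .nil .nil)))]
  [([535], (PX [] [535,597,628])), ([566], (PX [] [566,597,628])), ([659], (PX [] [597,628,659])), ([690], (PX [] [597,628,690]))]
  (by decide +kernel) ⟨w4_1939_535, w4_1939_566, w4_1939_659, w4_1939_690, trivial⟩

theorem v4_1940 : VW (PX [565,725] [597,629,661,693]) := VW.of base nl_ok fl_ok .nil
  []
  []
  (by decide +kernel) trivial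

theorem v4_1941 : VW (PX [565,693] [597,629,661,725]) := VW.of base nl_ok fl_ok .nil
  []
  []
  (by decide +kernel) trivial

theorem w4_1942_693 : S (PX [565] [597,629,661,693]) := VW.play 725 (PX [565,725] [597,629,661,693]) (by decide +kernel) v4_1940

theorem w4_1942_725 : S (PX [565] [597,629,661,725]) := VW.play 693 (PX [565,693] [597,629,661,725]) (by decide +kernel) v4_1941

theorem v4_1942 : VW (PX [565] [597,629,661]) := VW.of base nl_ok fl_ok (.cons 693 725 .nil (.cons 725 693 .nil .nil))
  [(757, (.cons 693 725 .nil (.cons 725 693 .nil .nil))), (789, (.cons 693 725 .nil (.cons 725 693 .nil .nil))), (821, (.cons 693 725 .nil (.cons 725 693 .nil .nil)))]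
  [([693], (PX [565] [597,629,661,693])), ([725], (PX [565] [597,629,661,725]))]
  (by decide +kernel) ⟨w4_1942_693, w4_1942_725, trivial⟩

theorem v4_1947 : VW (PX [661] [597,629,693]) := VW.of base nl_ok fl_ok .nil
  [(501, (.cons 533 565 .nil (.cons 565 533 .nil .nil))), (533, (.cons 501 565 .nil (.cons 565 501 .nil .nil))), (565, (.cons 501 533 .nil (.cons 533 501 .nil .nil)))]
  []
  (by decide +kernel) trivial

theorem w4_1959_533 : S (PX [] [533,597,629]) := VW.play 565 (PX [565] [533,597,629]) (by decide +kernel) v4_1450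

theorem w4_1959_565 : S (PX [] [565,597,629]) := VW.play 533 (PX [533] [565,597,629]) (by decide +kernel) v4_1656

theorem w4_1959_661 : S (PX [] [597,629,661]) := VW.play 565 (PX [565] [597,629,661]) (by decide +kernel) v4_1942

theorem w4_1959_693 : S (PX [] [597,629,693]) := VW.play 661 (PX [661] [597,629,693]) (by decide +kernel) v4_1947

theorem v4_1959 : VW (PX [] [597,629]) := VW.of base nl_ok fl_ok .nil
  [(501, (.cons 533 565 .nil (.cons 565 533 (.cons 661 693 .nil (.cons 693 661 .nil .nil)) .nil))), (725, (.cons 661 693 (.cons 533 565 .nil (.cons 565 533 .nil .nil)) (.cons 693 661 .nil .nil)))]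
  [([533], (PX [] [533,597,629])), ([565], (PX [] [565,597,629])), ([661], (PX [] [597,629,661])), ([693], (PX [] [597,629,693]))]
  (by decide +kernel) ⟨w4_1959_533, w4_1959_565, w4_1959_661, w4_1959_693, trivial⟩

theorem v4_1960 : VW (PX [564,696] [531,597,630,663]) := VW.of base nl_ok fl_ok .nil
  []
  []
  (by decide +kernel) trivial

theorem w4_1961_531 : S (PX [696] [531,597,630,663]) := VW.play 564 (PX [564,696] [531,597,630,663]) (by decide +kernel) v4_1960

theorem w4_1961_564 : S (PX [696] [564,597,630,663]) := VW.play 531 (PX [531,696] [564,597,630,663]) (by decide +kernel) v4_1825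

theorem v4_1961 : VW (PX [696] [597,630,663]) := VW.of base nl_ok fl_ok (.cons 531 564 .nil (.cons 564 531 .nil .nil))
  [(432, (.cons 531 564 .nil (.cons 564 531 .nil .nil))), (465, (.cons 531 564 .nil (.cons 564 531 .nil .nil))), (498, (.cons 531 564 .nil (.cons 564 531 .nil .nil)))]
  [([531], (PX [696] [531,597,630,663])), ([564], (PX [696] [564,597,630,663]))]
  (by decide +kernel) ⟨w4_1961_531, w4_1961_564, trivial⟩

theorem v4_1962 : VW (PX [663] [597,630,696]) := VW.of base nl_ok fl_ok .nil
  [(498, (.cons 531 564 .nil (.cons 564 531 .nil .nil))), (531, (.cons 498 564 .nil (.cons 564 498 .nil .nil))), (564, (.cons 498 531 .nil (.cons 531 498 .nil .nil)))]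
  []
  (by decide +kernel) trivial

theorem w4_1976_531 : S (PX [] [531,597,630]) := VW.play 564 (PX [564] [531,597,630]) (by decide +kernel) v4_1802

theorem w4_1976_564 : S (PX [] [564,597,630]) := VW.play 531 (PX [531] [564,597,630]) (by decide +kernel) v4_1827

theorem w4_1976_663 : S (PX [] [597,630,663]) := VW.play 696 (PX [696] [597,630,663]) (by decide +kernel) v4_1961

theorem w4_1976_696 : S (PX [] [597,630,696]) := VW.play 663 (PX [663] [597,630,696]) (by decide +kernel) v4_1962

theorem v4_1976 : VW (PX [] [597,630]) := VW.of base nl_ok fl_ok .nil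
  [(498, (.cons 531 564 .nil (.cons 564 531 (.cons 663 696 .nil (.cons 696 663 .nil .nil)) .nil))), (729, (.cons 663 696 (.cons 531 564 .nil (.cons 564 531 .nil .nil)) (.cons 696 663 .nil .nil)))]
  [([531], (PX [] [531,597,630])), ([564], (PX [] [564,597,630])), ([663], (PX [] [597,630,663])), ([696], (PX [] [597,630,696]))]
  (by decide +kernel) ⟨w4_1976_531, w4_1976_564, w4_1976_663, w4_1976_696, trivial⟩

theorem v4_1991 : VW (PX [628] [597,659,690]) := VW.of base nl_ok fl_ok .nil
  [(721, (.cons 752 783 .nil (.cons 783 752 .nil .nil))), (752, (.cons 721 783 .nil (.cons 783 721 .nil .nil))), (783, (.cons 721 752 .nil (.cons 752 721 .nil .nil)))]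
  []
  (by decide +kernel) trivial

theorem w4_1994_566 : S (PX [] [566,597,659]) := VW.play 628 (PX [628] [566,597,659]) (by decide +kernel) v4_1841

theorem w4_1994_628 : S (PX [] [597,628,659]) := VW.play 566 (PX [566] [597,628,659]) (by decide +kernel) v4_1922

theorem w4_1994_690 : S (PX [] [597,659,690]) := VW.play 628 (PX [628] [597,659,690]) (by decide +kernel) v4_1991

theorem v4_1994 : VW (PX [] [597,659]) := VW.of base nl_ok fl_ok .nil
  [(535, (.cons 566 628 (.cons 473 504 .nil (.cons 504 473 .nil .nil)) (.cons 628 566 (.cons 690 721 .nil (.cons 721 690 .nil .nil)) .nil))), (721, (.cons 628 690 (.cons 535 566 .nil (.cons 566 535 .nil .nil)) (.cons 690 628 (.cons 752 783 .nil (.cons 783 752 .nil .nil)) .nil)))]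
  [([566], (PX [] [566,597,659])), ([628], (PX [] [597,628,659])), ([690], (PX [] [597,659,690]))]
  (by decide +kernel) ⟨w4_1994_566, w4_1994_628, w4_1994_690, trivial⟩

theorem v4_2009 : VW (PX [629] [597,661,693]) := VW.of base nl_ok fl_ok .nil
  [(725, (.cons 757 789 .nil (.cons 789 757 .nil .nil))), (757, (.cons 725 789 .nil (.cons 789 725 .nil .nil))), (789, (.cons 725 757 .nil (.cons 757 725 .nil .nil)))]
  []
  (by decide +kernel) trivial

theorem w4_2012_565 : S (PX [] [565,597,661]) := VW.play 629 (PX [629] [565,597,661]) (by decide +kernel) v4_1661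

theorem w4_2012_629 : S (PX [] [597,629,661]) := VW.play 565 (PX [565] [597,629,661]) (by decide +kernel) v4_1942

theorem w4_2012_693 : S (PX [] [597,661,693]) := VW.play 629 (PX [629] [597,661,693]) (by decide +kernel) v4_2009

theorem v4_2012 : VW (PX [] [597,661]) := VW.of base nl_ok fl_ok .nil
  [(533, (.cons 565 629 (.cons 469 501 .nil (.cons 501 469 .nil .nil)) (.cons 629 565 (.cons 693 725 .nil (.cons 725 693 .nil .nil)) .nil))), (725, (.cons 629 693 (.cons 533 565 .nil (.cons 565 533 .nil .nil)) (.cons 693 629 (.cons 757 789 .nil (.cons 789 757 .nil .nil)) .nil)))]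
  [([565], (PX [] [565,597,661])), ([629], (PX [] [597,629,661])), ([693], (PX [] [597,661,693]))]
  (by decide +kernel) ⟨w4_2012_565, w4_2012_629, w4_2012_693, trivial⟩

theorem v4_2013 : VW (PX [630] [597,663,696]) := VW.of base nl_ok fl_ok .nil
  [(729, (.cons 762 795 .nil (.cons 795 762 .nil .nil))), (762, (.cons 729 795 .nil (.cons 795 729 .nil .nil))), (795, (.cons 729 762 .nil (.cons 762 729 .nil .nil)))]
  []
  (by decide +kernel) trivial

theorem w4_2016_564 : S (PX [] [564,597,663]) := VW.play 630 (PX [630] [564,597,663]) (by decide +kernel) v4_1832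

theorem w4_2016_630 : S (PX [] [597,630,663]) := VW.play 696 (PX [696] [597,630,663]) (by decide +kernel) v4_1961

theorem w4_2016_696 : S (PX [] [597,663,696]) := VW.play 630 (PX [630] [597,663,696]) (by decide +kernel) v4_2013

theorem v4_2016 : VW (PX [] [597,663]) := VW.of base nl_ok fl_ok .nil
  [(531, (.cons 564 630 (.cons 465 498 .nil (.cons 498 465 .nil .nil)) (.cons 630 564 (.cons 696 729 .nil (.cons 729 696 .nil .nil)) .nil))), (729, (.cons 630 696 (.cons 531 564 .nil (.cons 564 531 .nil .nil)) (.cons 696 630 (.cons 762 795 .nil (.cons 795 762 .nil .nil)) .nil)))]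
  [([564], (PX [] [564,597,663])), ([630], (PX [] [597,630,663])), ([696], (PX [] [597,663,696]))]
  (by decide +kernel) ⟨w4_2016_564, w4_2016_630, w4_2016_696, trivial⟩

theorem w4_2017_628 : S (PX [] [597,628,690]) := VW.play 659 (PX [659] [597,628,690]) (by decide +kernel) v4_1927

theorem w4_2017_659 : S (PX [] [597,659,690]) := VW.play 628 (PX [628] [597,659,690]) (by decide +kernel) v4_1991

theorem v4_2017 : VW (PX [] [597,690]) := VW.of base nl_ok fl_ok .nil
  [(566, (.cons 628 659 (.cons 504 535 .nil (.cons 535 504 .nil .nil)) (.cons 659 628 .nil .nil))), (721, (.cons 628 659 .nil (.cons 659 628 (.cons 752 783 .nil (.cons 783 752 .nil .nil)) .nil)))]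
  [([628], (PX [] [597,628,690])), ([659], (PX [] [597,659,690]))]
  (by decide +kernel) ⟨w4_2017_628, w4_2017_659, trivial⟩

theorem w4_2018_629 : S (PX [] [597,629,693]) := VW.play 661 (PX [661] [597,629,693]) (by decide +kernel) v4_1947

theorem w4_2018_661 : S (PX [] [597,661,693]) := VW.play 629 (PX [629] [597,661,693]) (by decide +kernel) v4_2009

theorem v4_2018 : VW (PX [] [597,693]) := VW.of base nl_ok fl_ok .nil
  [(565, (.cons 629 661 (.cons 501 533 .nil (.cons 533 501 .nil .nil)) (.cons 661 629 .nil .nil))), (725, (.cons 629 661 .nil (.cons 661 629 (.cons 757 789 .nil (.cons 789 757 .nil .nil)) .nil)))]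
  [([629], (PX [] [597,629,693])), ([661], (PX [] [597,661,693]))]
  (by decide +kernel) ⟨w4_2018_629, w4_2018_661, trivial⟩

theorem w4_2019_630 : S (PX [] [597,630,696]) := VW.play 663 (PX [663] [597,630,696]) (by decide +kernel) v4_1962

theorem w4_2019_663 : S (PX [] [597,663,696]) := VW.play 630 (PX [630] [597,663,696]) (by decide +kernel) v4_2013

theorem v4_2019 : VW (PX [] [597,696]) := VW.of base nl_ok fl_ok .nil
  [(564, (.cons 630 663 (.cons 498 531 .nil (.cons 531 498 .nil .nil)) (.cons 663 630 .nil .nil))), (729, (.cons 630 663 .nil (.cons 663 630 (.cons 762 795 .nil (.cons 795 762 .nil .nil)) .nil)))]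
  [([630], (PX [] [597,630,696])), ([663], (PX [] [597,663,696]))]
  (by decide +kernel) ⟨w4_2019_630, w4_2019_663, trivial⟩

theorem v4_2020 : VW (PX [] [597,721]) := VW.of base nl_ok fl_ok .nil
  [(628, (.cons 659 690 (.cons 535 566 .nil (.cons 566 535 .nil .nil)) (.cons 690 659 .nil .nil))), (659, (.cons 628 690 (.cons 535 566 .nil (.cons 566 535 .nil .nil)) (.cons 690 628 (.cons 752 783 .nil (.cons 783 752 .nil .nil)) .nil))), (690, (.cons 628 659 .nil (.cons 659 628 (.cons 752 783 .nil (.cons 783 752 .nil .nil)) .nil)))]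
  []
  (by decide +kernel) trivial

theorem v4_2021 : VW (PX [] [597,725]) := VW.of base nl_ok fl_ok .nil
  [(629, (.cons 661 693 (.cons 533 565 .nil (.cons 565 533 .nil .nil)) (.cons 693 661 .nil .nil))), (661, (.cons 629 693 (.cons 533 565 .nil (.cons 565 533 .nil .nil)) (.cons 693 629 (.cons 757 789 .nil (.cons 789 757 .nil .nil)) .nil))), (693, (.cons 629 661 .nil (.cons 661 629 (.cons 757 789 .nil (.cons 789 757 .nil .nil)) .nil)))]
  []
  (by decide +kernel) trivial

theorem v4_2022 : VW (PX [] [597,729]) := VW.of base nl_ok fl_ok .nil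
  [(630, (.cons 663 696 (.cons 531 564 .nil (.cons 564 531 .nil .nil)) (.cons 696 663 .nil .nil))), (663, (.cons 630 696 (.cons 531 564 .nil (.cons 564 531 .nil .nil)) (.cons 696 630 (.cons 762 795 .nil (.cons 795 762 .nil .nil)) .nil))), (696, (.cons 630 663 .nil (.cons 663 630 (.cons 762 795 .nil (.cons 795 762 .nil .nil)) .nil)))]
  []
  (by decide +kernel) trivial

theorem r465 : S (Nat.lor X2 (bits [597, 465])) := VW.play 394 (PX [] [465,597]) (by decide +kernel) v4_1755

theorem r469 : S (Nat.lor X2 (bits [597, 469])) := VW.play 394 (PX [] [469,597]) (by decide +kernel) v4_909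

theorem r473 : S (Nat.lor X2 (bits [597, 473])) := VW.play 394 (PX [] [473,597]) (by decide +kernel) v4_1756

theorem r498 : S (Nat.lor X2 (bits [597, 498])) := VW.play 394 (PX [] [498,597]) (by decide +kernel) v4_1778

theorem r501 : S (Nat.lor X2 (bits [597, 501])) := VW.play 394 (PX [] [501,597]) (by decide +kernel) v4_1188

theorem r504 : S (Nat.lor X2 (bits [597, 504])) := VW.play 394 (PX [] [504,597]) (by decide +kernel) v4_1798

theorem r531 : S (Nat.lor X2 (bits [597, 531])) := VW.play 394 (PX [] [531,597]) (by decide +kernel) v4_1803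

theorem r533 : S (Nat.lor X2 (bits [597, 533])) := VW.play 394 (PX [] [533,597]) (by decide +kernel) v4_1453

theorem r535 : S (Nat.lor X2 (bits [597, 535])) := VW.play 394 (PX [] [535,597]) (by decide +kernel) v4_1824

theorem r564 : S (Nat.lor X2 (bits [597, 564])) := VW.play 394 (PX [] [564,597]) (by decide +kernel) v4_1833

theorem r565 : S (Nat.lor X2 (bits [597, 565])) := VW.play 394 (PX [] [565,597]) (by decide +kernel) v4_1673

theorem r566 : S (Nat.lor X2 (bits [597, 566])) := VW.play 394 (PX [] [566,597]) (by decide +kernel) v4_1842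

theorem r593 : S (Nat.lor X2 (bits [597, 593])) := VW.play 394 (PX [] [593,597]) (by decide +kernel) v4_1843

theorem r594 : S (Nat.lor X2 (bits [597, 594])) := VW.play 394 (PX [] [594,597]) (by decide +kernel) v4_1865

theorem r595 : S (Nat.lor X2 (bits [597, 595])) := VW.play 394 (PX [] [595,597]) (by decide +kernel) v4_1874

theorem r596 : S (Nat.lor X2 (bits [597, 596])) := VW.play 394 (PX [] [596,597]) (by decide +kernel) v4_1894

theorem r598 : S (Nat.lor X2 (bits [597, 598])) := VW.play 394 (PX [] [597,598]) (by decide +kernel) v4_1913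

theorem r599 : S (Nat.lor X2 (bits [597, 599])) := VW.play 394 (PX [] [597,599]) (by decide +kernel) v4_1917

theorem r600 : S (Nat.lor X2 (bits [597, 600])) := VW.play 394 (PX [] [597,600]) (by decide +kernel) v4_1918

theorem r601 : S (Nat.lor X2 (bits [597, 601])) := VW.play 394 (PX [] [597,601]) (by decide +kernel) v4_1919

theorem r628 : S (Nat.lor X2 (bits [597, 628])) := VW.play 394 (PX [] [597,628]) (by decide +kernel) v4_1939

theorem r629 : S (Nat.lor X2 (bits [597, 629])) := VW.play 394 (PX [] [597,629]) (by decide +kernel) v4_1959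

theorem r630 : S (Nat.lor X2 (bits [597, 630])) := VW.play 394 (PX [] [597,630]) (by decide +kernel) v4_1976

theorem r659 : S (Nat.lor X2 (bits [597, 659])) := VW.play 394 (PX [] [597,659]) (by decide +kernel) v4_1994

theorem r661 : S (Nat.lor X2 (bits [597, 661])) := VW.play 394 (PX [] [597,661]) (by decide +kernel) v4_2012

theorem r663 : S (Nat.lor X2 (bits [597, 663])) := VW.play 394 (PX [] [597,663]) (by decide +kernel) v4_2016

theorem r690 : S (Nat.lor X2 (bits [597, 690])) := VW.play 394 (PX [] [597,690]) (by decide +kernel) v4_2017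

theorem r693 : S (Nat.lor X2 (bits [597, 693])) := VW.play 394 (PX [] [597,693]) (by decide +kernel) v4_2018

theorem r696 : S (Nat.lor X2 (bits [597, 696])) := VW.play 394 (PX [] [597,696]) (by decide +kernel) v4_2019

theorem r721 : S (Nat.lor X2 (bits [597, 721])) := VW.play 394 (PX [] [597,721]) (by decide +kernel) v4_2020

theorem r725 : S (Nat.lor X2 (bits [597, 725])) := VW.play 394 (PX [] [597,725]) (by decide +kernel) v4_2021

theorem r729 : S (Nat.lor X2 (bits [597, 729])) := VW.play 394 (PX [] [597,729]) (by decide +kernel) v4_2022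

theorem all : RT X2 597 (465 :: 469 :: 473 :: 498 :: 501 :: 504 :: 531 :: 533 :: 535 :: 564 :: 565 :: 566 :: 593 :: 594 :: 595 :: 596 :: 598 :: 599 :: 600 :: 601 :: 628 :: 629 :: 630 :: 659 :: 661 :: 663 :: 690 :: 693 :: 696 :: 721 :: 725 :: 729 :: []) := ⟨r465, r469, r473, r498, r501, r504, r531, r533, r535, r564, r565, r566, r593, r594, r595, r596, r598, r599, r600, r601, r628, r629, r630, r659, r661, r663, r690, r693, r696, r721, r725, r729, trivial⟩

end Pool.Agent.H94.Five.Mid.K10_7_0
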