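import Pool.Agent.H94.Five.Mid.Fam

set_option autoImplicit false
set_option linter.all false
set_option maxRecDepth 100000

/-! Second has the cell (10, 8): some of the other stones. -/

namespace Pool.Agent.H94.Five.Mid.K10_8_0

open Pool.Agent.H79.Five Pool.Agent.H10.Five Pool.Agent.H94.Five.M

abbrev nl : List Ent := [n0, n3, n4, n6, n8, n9, n10, n11, n16, n17, n21, n22]

theorem nl_ok : AC XB M0 nl := .cons n0k <| .cons n3k <| .cons n4k <| .cons n6k <| .cons n8k <| .cons n9k <| .cons n10k <| .cons n11k <| .cons n16k <| .cons n17k <| .cons n21k <| .cons n22k <| .nil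

abbrev fl : List Ent := (x45 :: x54 :: x73 :: x77 :: x103 :: x130 :: x136 :: x142 :: x167 :: x174 :: x183 :: x187 :: x201 :: x204 :: x209 :: x214 :: x223 :: x245 :: x247 :: x253 :: x255 :: x258 :: x260 :: x266 :: x269 :: x276 :: x277 :: x284 :: x291 :: x310 :: x316 :: x328 :: x330 :: x340 :: x357 :: x364 :: x371 :: x375 :: x383 :: x390 :: x392 :: x393 :: x424 :: x427 :: x437 :: x451 :: x452 :: x501 :: x511 :: x535 :: [])

theorem fl_ok : AC XB M0 fl := .cons x45k <| .cons x54k <| .cons x73k <| .cons x77k <| .cons x103k <| .cons x130k <| .cons x136k <| .cons x142k <| .cons x167k <| .cons x174k <| .cons x183k <| .cons x187k <| .cons x201k <| .cons x204k <| .cons x209k <| .cons x214k <| .cons x223k <| .cons x245k <| .cons x247k <| .cons x253k <| .cons x255k <| .cons x258k <| .cons x260k <| .cons x266k <| .cons x269k <| .cons x276k <| .cons x277k <| .cons x284k <| .cons x291k <| .cons x310k <| .cons x316k <| .cons x328k <| .cons x330k <| .cons x340k <| .cons x357k <| .cons x364k <| .cons x371k <| .cons x375k <| .cons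 x383k <| .cons x390k <| .cons x392k <| .cons x393k <| .cons x424k <| .cons x427k <| .cons x437k <| .cons x451k <| .cons x452k <| .cons x501k <| .cons x511k <| .cons x535k <| .nil

theorem b4_588 : S (PX [431,563] [299,398,497,530,629]) := S.of (.q 332 (.a 1 [] (.d 301 3342 270 3373 425)
 (.a 1 [270] (.d 425 3373 301 3404 456)
 (.a 0 [301,425] (.q 429 (.a 1 [] (.d 330 2345 297 2378 462)
 (.a 1 [297] (.d 462 2378 330 2411 495)
 (.a 0 [330,462] (.q 428 (.a 1 [] (.d 430 427 427 428 432)
 (.a 1 [427] (.d 364 1324 300 1356 460)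
 .e)))
 .e))))
 .e)))) (by decide +kernel)

theorem b4_589 : S (PX [431,563] [332,398,497,530,629]) := S.of (.q 330 (.a 1 [] (.d 297 2312 264 2345 429)
 (.a 1 [264] (.d 429 2345 297 2378 462)
 (.a 0 [297,429] (.q 395 (.a 1 [] (.d 393 392 392 393 397)
 (.a 0 [392,393,397] (.q 427 (.a 1 [] (.d 331 1323 299 1355 459)
 (.a 1 [299] (.d 459 1355 331 1387 491)
 (.a 0 [331,459] (.q 365 (.a 1 [] (.d 334 3375 303 3406 458)
 (.a 1 [303] (.d 458 3406 334 3437 489)
 (.a 1 [334] (.r 458 3437 489 (.r 362 1354 426 (.d 364 361 361 362 366)))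
 (.a 0 [458] (.q 362 (.a 1 [] (.d 364 361 361 362 366)
 (.a 1 [361] (.d 298 1290 266 1322 426)
 .e)))
 .e)))))
 .e))))
 .e)))
 .e)))) (by decide +kernel)

theorem b4_590 : S (PX [431,563] [365,398,497,530,629]) := S.of (.q 429 (.a 1 [] (.d 330 2345 297 2378 462)
 (.a 1 [297] (.d 462 2378 330 2411 495)
 (.a 0 [330,462] (.q 332 (.a 1 [] (.d 301 3342 270 3373 425)
 (.a 1 [270] (.d 425 3373 301 3404 456)
 (.a 0 [301,425] (.q 428 (.a 1 [] (.d 430 427 427 428 432)
 (.a 1 [427] (.d 364 1324 300 1356 460)
 .e)))
 .e))))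
 .e)))) (by decide +kernel)

theorem b4_591 : S (PX [431,563] [398,400,497,530,629]) := S.of (.q 429 (.a 1 [] (.d 330 2345 297 2378 462)
 (.a 1 [297] (.d 462 2378 330 2411 495)
 (.a 0 [330,462] (.q 332 (.a 1 [] (.d 301 3342 270 3373 425)
 (.a 1 [270] (.d 425 3373 301 3404 456)
 (.a 0 [301,425] (.q 428 (.a 1 [] (.d 430 427 427 428 432)
 (.a 1 [427] (.d 364 1324 300 1356 460)
 .e)))
 .e))))
 .e)))) (by decide +kernel)

theorem b4_592 : S (PX [431,563] [398,457,497,530,629]) := S.of (.q 429 (.a 1 [] (.d 330 2345 297 2378 462)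
 (.a 1 [297] (.d 462 2378 330 2411 495)
 (.a 0 [330,462] (.q 332 (.a 1 [] (.d 301 3342 270 3373 425)
 (.a 1 [270] (.d 425 3373 301 3404 456)
 (.a 0 [301,425] (.q 428 (.a 1 [] (.d 430 427 427 428 432)
 (.a 1 [427] (.d 364 1324 300 1356 460)
 .e)))
 .e))))
 .e)))) (by decide +kernel)

theorem b4_598 : S (PX [398,563] [332,431,497,530,629]) := S.of (.q 429 (.a 1 [] (.d 330 2345 297 2378 462)
 (.a 1 [297] (.d 462 2378 330 2411 495)
 (.a 0 [330,462] (.q 460 (.a 1 [] (.d 367 3408 336 3439 491)
 (.a 1 [336] (.d 491 3439 367 3470 522)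
 (.a 1 [367] (.r 395 394 397 (.r 491 3470 522 (.r 427 1387 459 (.d 493 2409 361 2442 526))))
 (.a 0 [491] (.q 427 (.a 1 [] (.d 361 2376 328 2409 493)
 (.a 1 [328] (.d 493 2409 361 2442 526)
 (.a 1 [361] (.r 395 394 397 (.d 331 1323 299 1355 459))
 .e))))
 .e)))))
 .e)))) (by decide +kernel)

theorem b4_599 : S (PX [398,563] [365,431,497,530,629]) := S.of (.q 429 (.a 1 [] (.d 330 2345 297 2378 462)
 (.a 1 [297] (.d 462 2378 330 2411 495)
 (.a 0 [330,462] (.q 460 (.a 1 [] (.d 367 3408 336 3439 491)
 (.a 1 [336] (.d 491 3439 367 3470 522)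
 (.a 1 [367] (.r 395 394 397 (.r 491 3470 522 (.r 427 1387 459 (.d 493 2409 361 2442 526))))
 (.a 0 [491] (.q 427 (.a 1 [] (.d 361 2376 328 2409 493)
 (.a 1 [328] (.d 493 2409 361 2442 526)
 (.a 1 [361] (.r 395 394 397 (.d 331 1323 299 1355 459))
 .e))))
 .e)))))
 .e)))) (by decide +kernel)

theorem b4_600 : S (PX [398,563] [397,431,497,530,629]) := S.of (.q 429 (.a 1 [] (.d 330 2345 297 2378 462)
 (.a 1 [297] (.d 462 2378 330 2411 495)
 (.a 0 [330,462] (.q 460 (.a 1 [] (.d 367 3408 336 3439 491)
 (.a 1 [336] (.d 491 3439 367 3470 522)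
 (.a 0 [367,491] (.q 332 (.a 1 [] (.d 301 3342 270 3373 425)
 (.a 1 [270] (.d 425 3373 301 3404 456)
 (.a 1 [301] (.r 428 1356 364 (.r 425 3404 456 (.r 427 425 426 (.d 493 2409 361 2442 526))))
 (.a 0 [425] (.q 361 (.a 1 [] (.d 427 2376 328 2409 493)
 (.a 1 [328] (.r 364 1356 428 (.d 362 360 360 361 365))
 .e)))
 .e)))))
 .e))))
 .e)))) (by decide +kernel)

theorem b4_601 : S (PX [398,563] [424,431,497,530,629]) := S.of (.q 429 (.a 1 [] (.d 330 2345 297 2378 462)
 (.a 1 [297] (.d 462 2378 330 2411 495)
 (.a 0 [330,462] (.q 460 (.a 1 [] (.d 367 3408 336 3439 491)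
 (.a 1 [336] (.d 491 3439 367 3470 522)
 (.a 1 [367] (.r 395 394 397 (.r 491 3470 522 (.r 427 1387 459 (.d 493 2409 361 2442 526))))
 (.a 0 [491] (.q 427 (.a 1 [] (.d 361 2376 328 2409 493)
 (.a 1 [328] (.d 493 2409 361 2442 526)
 (.a 1 [361] (.r 395 394 397 (.d 331 1323 299 1355 459))
 .e))))
 .e)))))
 .e)))) (by decide +kernel)

theorem b4_602 : S (PX [398,563] [427,431,497,530,629]) := S.of (.q 429 (.a 1 [] (.d 330 2345 297 2378 462)
 (.a 1 [297] (.d 462 2378 330 2411 495)
 (.a 0 [330,462] (.q 332 (.a 1 [] (.d 301 3342 270 3373 425)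
 (.a 1 [270] (.d 425 3373 301 3404 456)
 (.a 0 [301,425] (.q 460 (.a 1 [] (.d 367 3408 336 3439 491)
 (.a 1 [336] (.d 491 3439 367 3470 522)
 (.a 1 [491] (.r 364 1356 428 (.r 397 394 395 (.r 367 3408 336 (.r 365 363 366 (.d 461 1357 333 1389 493)))))
 (.a 0 [367] (.q 365 (.a 1 [] (.r 397 394 395 (.d 461 1357 333 1389 493))
 (.a 1 [333] (.r 364 1356 428 (.d 362 361 361 362 366))
 .e)))
 .e)))))
 .e))))
 .e)))) (by decide +kernel)

theorem b4_603 : S (PX [398,563] [428,431,497,530,629]) := S.of (.q 429 (.a 1 [] (.d 330 2345 297 2378 462)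
 (.a 1 [297] (.d 462 2378 330 2411 495)
 (.a 0 [330,462] (.q 460 (.a 1 [] (.d 367 3408 336 3439 491)
 (.a 1 [336] (.d 491 3439 367 3470 522)
 (.a 1 [367] (.r 395 394 397 (.r 491 3470 522 (.r 427 1387 459 (.d 493 2409 361 2442 526))))
 (.a 0 [491] (.q 427 (.a 1 [] (.d 361 2376 328 2409 493)
 (.a 1 [328] (.d 493 2409 361 2442 526)
 (.a 1 [361] (.r 395 394 397 (.d 331 1323 299 1355 459))
 .e))))
 .e)))))
 .e)))) (by decide +kernel)

theorem b4_612 : S (PX [431,563] [365,464,497,530,629]) := S.of (.q 395 (.a 1 [] (.d 393 392 392 393 397)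
 (.a 1 [392] (.d 397 393 393 394 398)
 (.a 0 [393,397] (.q 429 (.a 1 [] (.d 330 2345 297 2378 462)
 (.a 1 [297] (.d 462 2378 330 2411 495)
 (.a 0 [330,462] (.q 427 (.a 1 [] (.d 331 1323 299 1355 459)
 (.a 1 [299] (.d 459 1355 331 1387 491)
 (.a 1 [331] (.r 428 427 430 (.r 425 425 426 (.d 456 3404 332 3435 487)))
 .e))))
 .e))))
 .e)))) (by decide +kernel)

theorem v4_2023 : VW (PX [431,563] [398,497,530,629]) := VW.of base nl_ok fl_ok .nil
  []
  [([299], (PX [431,563] [299,398,497,530,629])), ([332], (PX [431,563] [332,398,497,530,629])), ([365], (PX [431,563] [365,398,497,530,629])), ([400], (PX [431,563] [398,400,497,530,629])), ([457], (PX [431,563] [398,457,497,530,629]))]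
  (by decide +kernel) ⟨b4_588, b4_589, b4_590, b4_591, b4_592, trivial⟩

theorem v4_2025 : VW (PX [398,563] [431,497,530,629]) := VW.of base nl_ok fl_ok .nil
  []
  [([332], (PX [398,563] [332,431,497,530,629])), ([365], (PX [398,563] [365,431,497,530,629])), ([397], (PX [398,563] [397,431,497,530,629])), ([424], (PX [398,563] [424,431,497,530,629])), ([427], (PX [398,563] [427,431,497,530,629])), ([428], (PX [398,563] [428,431,497,530,629]))]
  (by decide +kernel) ⟨b4_598, b4_599, b4_600, b4_601, b4_602, b4_603, trivial⟩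

theorem v4_2028 : VW (PX [431,563] [464,497,530,629]) := VW.of base nl_ok fl_ok .nil
  []
  [([365], (PX [431,563] [365,464,497,530,629]))]
  (by decide +kernel) ⟨b4_612, trivial⟩

theorem w4_2029_398 : S (PX [563] [398,497,530,629]) := VW.play 431 (PX [431,563] [398,497,530,629]) (by decide +kernel) v4_2023

theorem w4_2029_431 : S (PX [563] [431,497,530,629]) := VW.play 398 (PX [398,563] [431,497,530,629]) (by decide +kernel) v4_2025

theorem w4_2029_464 : S (PX [563] [464,497,530,629]) := VW.play 431 (PX [431,563] [464,497,530,629]) (by decide +kernel) v4_2028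

theorem v4_2029 : VW (PX [563] [497,530,629]) := VW.of base nl_ok fl_ok .nil
  []
  [([398], (PX [563] [398,497,530,629])), ([431], (PX [563] [431,497,530,629])), ([464], (PX [563] [464,497,530,629]))]
  (by decide +kernel) ⟨w4_2029_398, w4_2029_431, w4_2029_464, trivial⟩

theorem v4_2037 : VW (PX [530] [497,563,629]) := VW.of base nl_ok fl_ok .nil
  [(596, (.cons 662 695 .nil (.cons 695 662 .nil .nil))), (662, (.cons 596 695 .nil (.cons 695 596 (.cons 728 761 .nil (.cons 761 728 .nil .nil)) .nil))), (695, (.cons 596 662 .nil (.cons 662 596 (.cons 728 761 .nil (.cons 761 728 .nil .nil)) .nil)))]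
  []
  (by decide +kernel) trivial

theorem w4_2041_530 : S (PX [] [497,530,629]) := VW.play 563 (PX [563] [497,530,629]) (by decide +kernel) v4_2029

theorem w4_2041_563 : S (PX [] [497,563,629]) := VW.play 530 (PX [530] [497,563,629]) (by decide +kernel) v4_2037

theorem v4_2041 : VW (PX [] [497,629]) := VW.of base nl_ok fl_ok .nil
  [(596, (.cons 530 563 .nil (.cons 563 530 (.cons 662 695 .nil (.cons 695 662 .nil .nil)) .nil)))]
  [([530], (PX [] [497,530,629])), ([563], (PX [] [497,563,629]))]
  (by decide +kernel) ⟨w4_2041_530, w4_2041_563, trivial⟩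

theorem v4_1191 : VW (PX [] [501,629]) := VW.of base nl_ok fl_ok .nil
  [(533, (.cons 565 597 (.cons 437 469 .nil (.cons 469 437 .nil .nil)) (.cons 597 565 .nil .nil))), (565, (.cons 533 597 (.cons 437 469 .nil (.cons 469 437 .nil .nil)) (.cons 597 533 (.cons 661 693 .nil (.cons 693 661 .nil .nil)) .nil))), (597, (.cons 533 565 .nil (.cons 565 533 (.cons 661 693 .nil (.cons 693 661 .nil .nil)) .nil)))]
  []
  (by decide +kernel) trivial

theorem v4_2042 : VW (PX [] [505,629]) := VW.of base nl_ok fl_ok .nil
  [(536, (.cons 567 598 (.cons 443 474 .nil (.cons 474 443 .nil .nil)) (.cons 598 567 .nil .nil))), (567, (.cons 536 598 (.cons 443 474 .nil (.cons 474 443 .nil .nil)) (.cons 598 536 (.cons 660 691 .nil (.cons 691 660 .nil .nil)) .nil))), (598, (.cons 536 567 .nil (.cons 567 536 (.cons 660 691 .nil (.cons 691 660 .nil .nil)) .nil)))]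
  []
  (by decide +kernel) trivial

theorem v4_2043 : VW (PX [497,662] [530,563,596,629]) := VW.of base nl_ok fl_ok .nil
  []
  []
  (by decide +kernel) trivial

theorem v4_2044 : VW (PX [497,596] [530,563,629,662]) := VW.of base nl_ok fl_ok .nil
  [(695, (.cons 728 761 .nil (.cons 761 728 .nil .nil))), (728, (.cons 695 761 .nil (.cons 761 695 .nil .nil))), (761, (.cons 695 728 .nil (.cons 728 695 .nil .nil)))]
  []
  (by decide +kernel) trivial

theorem w4_2045_596 : S (PX [497] [530,563,596,629]) := VW.play 662 (PX [497,662] [530,563,596,629]) (by decide +kernel) v4_2043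

theorem w4_2045_662 : S (PX [497] [530,563,629,662]) := VW.play 596 (PX [497,596] [530,563,629,662]) (by decide +kernel) v4_2044

theorem v4_2045 : VW (PX [497] [530,563,629]) := VW.of base nl_ok fl_ok (.cons 596 662 .nil (.cons 662 596 .nil .nil))
  [(695, (.cons 596 662 .nil (.cons 662 596 (.cons 728 761 .nil (.cons 761 728 .nil .nil)) .nil))), (728, (.cons 596 662 .nil (.cons 662 596 (.cons 695 761 .nil (.cons 761 695 .nil .nil)) .nil))), (761, (.cons 596 662 .nil (.cons 662 596 (.cons 695 728 .nil (.cons 728 695 .nil .nil)) .nil)))]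
  [([596], (PX [497] [530,563,596,629])), ([662], (PX [497] [530,563,629,662]))]
  (by decide +kernel) ⟨w4_2045_596, w4_2045_662, trivial⟩

theorem v4_2063 : VW (PX [563] [530,596,629]) := VW.of base nl_ok fl_ok .nil
  [(662, (.cons 695 728 .nil (.cons 728 695 .nil .nil))), (695, (.cons 662 728 .nil (.cons 728 662 .nil .nil))), (728, (.cons 662 695 .nil (.cons 695 662 .nil .nil)))]
  []
  (by decide +kernel) trivial

theorem w4_2064_497 : S (PX [] [497,530,629]) := VW.play 563 (PX [563] [497,530,629]) (by decide +kernel) v4_2029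

theorem w4_2064_563 : S (PX [] [530,563,629]) := VW.play 497 (PX [497] [530,563,629]) (by decide +kernel) v4_2045

theorem w4_2064_596 : S (PX [] [530,596,629]) := VW.play 563 (PX [563] [530,596,629]) (by decide +kernel) v4_2063

theorem v4_2064 : VW (PX [] [530,629]) := VW.of base nl_ok fl_ok .nil
  [(662, (.cons 563 596 .nil (.cons 596 563 (.cons 695 728 .nil (.cons 728 695 .nil .nil)) .nil)))]
  [([497], (PX [] [497,530,629])), ([563], (PX [] [530,563,629])), ([596], (PX [] [530,596,629]))]
  (by decide +kernel) ⟨w4_2064_497, w4_2064_563, w4_2064_596, trivial⟩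

theorem v4_1388 : VW (PX [597] [533,565,629]) := VW.of base nl_ok fl_ok .nil
  [(437, (.cons 469 501 .nil (.cons 501 469 .nil .nil))), (469, (.cons 437 501 .nil (.cons 501 437 .nil .nil))), (501, (.cons 437 469 .nil (.cons 469 437 .nil .nil)))]
  []
  (by decide +kernel) trivial

theorem v4_1450 : VW (PX [565] [533,597,629]) := VW.of base nl_ok fl_ok .nil
  [(661, (.cons 693 725 .nil (.cons 725 693 .nil .nil))), (693, (.cons 661 725 .nil (.cons 725 661 .nil .nil))), (725, (.cons 661 693 .nil (.cons 693 661 .nil .nil)))]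
  []
  (by decide +kernel) trivial

theorem w4_1459_565 : S (PX [] [533,565,629]) := VW.play 597 (PX [597] [533,565,629]) (by decide +kernel) v4_1388

theorem w4_1459_597 : S (PX [] [533,597,629]) := VW.play 565 (PX [565] [533,597,629]) (by decide +kernel) v4_1450

theorem v4_1459 : VW (PX [] [533,629]) := VW.of base nl_ok fl_ok .nil
  [(501, (.cons 565 597 (.cons 437 469 .nil (.cons 469 437 .nil .nil)) (.cons 597 565 .nil .nil))), (661, (.cons 565 597 .nil (.cons 597 565 (.cons 693 725 .nil (.cons 725 693 .nil .nil)) .nil)))]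
  [([565], (PX [] [533,565,629])), ([597], (PX [] [533,597,629]))]
  (by decide +kernel) ⟨w4_1459_565, w4_1459_597, trivial⟩

theorem v4_2068 : VW (PX [598] [536,567,629]) := VW.of base nl_ok fl_ok .nil
  [(443, (.cons 474 505 .nil (.cons 505 474 .nil .nil))), (474, (.cons 443 505 .nil (.cons 505 443 .nil .nil))), (505, (.cons 443 474 .nil (.cons 474 443 .nil .nil)))]
  []
  (by decide +kernel) trivial

theorem v4_2083 : VW (PX [567] [536,598,629]) := VW.of base nl_ok fl_ok .nil
  [(660, (.cons 691 722 .nil (.cons 722 691 .nil .nil))), (691, (.cons 660 722 .nil (.cons 722 660 .nil .nil))), (722, (.cons 660 691 .nil (.cons 691 660 .nil .nil)))]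
  []
  (by decide +kernel) trivial

theorem w4_2084_567 : S (PX [] [536,567,629]) := VW.play 598 (PX [598] [536,567,629]) (by decide +kernel) v4_2068

theorem w4_2084_598 : S (PX [] [536,598,629]) := VW.play 567 (PX [567] [536,598,629]) (by decide +kernel) v4_2083

theorem v4_2084 : VW (PX [] [536,629]) := VW.of base nl_ok fl_ok .nil
  [(505, (.cons 567 598 (.cons 443 474 .nil (.cons 474 443 .nil .nil)) (.cons 598 567 .nil .nil))), (660, (.cons 567 598 .nil (.cons 598 567 (.cons 691 722 .nil (.cons 722 691 .nil .nil)) .nil)))]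
  [([567], (PX [] [536,567,629])), ([598], (PX [] [536,598,629]))]
  (by decide +kernel) ⟨w4_2084_567, w4_2084_598, trivial⟩

theorem v4_2085 : VW (PX [530,695] [563,596,629,662]) := VW.of base nl_ok fl_ok .nil
  []
  []
  (by decide +kernel) trivial

theorem v4_2086 : VW (PX [530,662] [563,596,629,695]) := VW.of base nl_ok fl_ok .nil
  []
  []
  (by decide +kernel) trivial

theorem w4_2087_662 : S (PX [530] [563,596,629,662]) := VW.play 695 (PX [530,695] [563,596,629,662]) (by decide +kernel) v4_2085

theorem w4_2087_695 : S (PX [530] [563,596,629,695]) := VW.play 662 (PX [530,662] [563,596,629,695]) (by decide +kernel) v4_2086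

theorem v4_2087 : VW (PX [530] [563,596,629]) := VW.of base nl_ok fl_ok (.cons 662 695 .nil (.cons 695 662 .nil .nil))
  [(728, (.cons 662 695 .nil (.cons 695 662 .nil .nil))), (761, (.cons 662 695 .nil (.cons 695 662 .nil .nil))), (794, (.cons 662 695 .nil (.cons 695 662 .nil .nil)))]
  [([662], (PX [530] [563,596,629,662])), ([695], (PX [530] [563,596,629,695]))]
  (by decide +kernel) ⟨w4_2087_662, w4_2087_695, trivial⟩

theorem v4_2088 : VW (PX [596] [563,629,662]) := VW.of base nl_ok fl_ok .nil
  [(695, (.cons 728 761 .nil (.cons 761 728 .nil .nil))), (728, (.cons 695 761 .nil (.cons 761 695 .nil .nil))), (761, (.cons 695 728 .nil (.cons 728 695 .nil .nil)))]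
  []
  (by decide +kernel) trivial

theorem w4_2089_497 : S (PX [] [497,563,629]) := VW.play 530 (PX [530] [497,563,629]) (by decide +kernel) v4_2037

theorem w4_2089_530 : S (PX [] [530,563,629]) := VW.play 497 (PX [497] [530,563,629]) (by decide +kernel) v4_2045

theorem w4_2089_596 : S (PX [] [563,596,629]) := VW.play 530 (PX [530] [563,596,629]) (by decide +kernel) v4_2087

theorem w4_2089_662 : S (PX [] [563,629,662]) := VW.play 596 (PX [596] [563,629,662]) (by decide +kernel) v4_2088

theorem v4_2089 : VW (PX [] [563,629]) := VW.of base nl_ok fl_ok .nil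
  [(695, (.cons 596 662 (.cons 497 530 .nil (.cons 530 497 .nil .nil)) (.cons 662 596 (.cons 728 761 .nil (.cons 761 728 .nil .nil)) .nil)))]
  [([497], (PX [] [497,563,629])), ([530], (PX [] [530,563,629])), ([596], (PX [] [563,596,629])), ([662], (PX [] [563,629,662]))]
  (by decide +kernel) ⟨w4_2089_497, w4_2089_530, w4_2089_596, w4_2089_662, trivial⟩

theorem v4_1654 : VW (PX [533,693] [565,597,629,661]) := VW.of base nl_ok fl_ok .nil
  []
  []
  (by decide +kernel) trivial

theorem v4_1655 : VW (PX [533,661] [565,597,629,693]) := VW.of base nl_ok fl_ok .nil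
  []
  []
  (by decide +kernel) trivial

theorem w4_1656_661 : S (PX [533] [565,597,629,661]) := VW.play 693 (PX [533,693] [565,597,629,661]) (by decide +kernel) v4_1654

theorem w4_1656_693 : S (PX [533] [565,597,629,693]) := VW.play 661 (PX [533,661] [565,597,629,693]) (by decide +kernel) v4_1655

theorem v4_1656 : VW (PX [533] [565,597,629]) := VW.of base nl_ok fl_ok (.cons 661 693 .nil (.cons 693 661 .nil .nil))
  [(725, (.cons 661 693 .nil (.cons 693 661 .nil .nil))), (757, (.cons 661 693 .nil (.cons 693 661 .nil .nil))), (789, (.cons 661 693 .nil (.cons 693 661 .nil .nil)))]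
  [([661], (PX [533] [565,597,629,661])), ([693], (PX [533] [565,597,629,693]))]
  (by decide +kernel) ⟨w4_1656_661, w4_1656_693, trivial⟩

theorem v4_1723 : VW (PX [597] [565,629,661]) := VW.of base nl_ok fl_ok .nil
  [(693, (.cons 725 757 .nil (.cons 757 725 .nil .nil))), (725, (.cons 693 757 .nil (.cons 757 693 .nil .nil))), (757, (.cons 693 725 .nil (.cons 725 693 .nil .nil)))]
  []
  (by decide +kernel) trivial

theorem w4_1726_533 : S (PX [] [533,565,629]) := VW.play 597 (PX [597] [533,565,629]) (by decide +kernel) v4_1388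

theorem w4_1726_597 : S (PX [] [565,597,629]) := VW.play 533 (PX [533] [565,597,629]) (by decide +kernel) v4_1656

theorem w4_1726_661 : S (PX [] [565,629,661]) := VW.play 597 (PX [597] [565,629,661]) (by decide +kernel) v4_1723

theorem v4_1726 : VW (PX [] [565,629]) := VW.of base nl_ok fl_ok .nil
  [(501, (.cons 533 597 (.cons 437 469 .nil (.cons 469 437 .nil .nil)) (.cons 597 533 (.cons 661 693 .nil (.cons 693 661 .nil .nil)) .nil))), (693, (.cons 597 661 (.cons 501 533 .nil (.cons 533 501 .nil .nil)) (.cons 661 597 (.cons 725 757 .nil (.cons 757 725 .nil .nil)) .nil)))]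
  [([533], (PX [] [533,565,629])), ([597], (PX [] [565,597,629])), ([661], (PX [] [565,629,661]))]
  (by decide +kernel) ⟨w4_1726_533, w4_1726_597, w4_1726_661, trivial⟩

theorem v4_2090 : VW (PX [536,691] [567,598,629,660]) := VW.of base nl_ok fl_ok .nil
  []
  []
  (by decide +kernel) trivial

theorem v4_2091 : VW (PX [536,660] [567,598,629,691]) := VW.of base nl_ok fl_ok .nil
  []
  []
  (by decide +kernel) trivial

theorem w4_2092_660 : S (PX [536] [567,598,629,660]) := VW.play 691 (PX [536,691] [567,598,629,660]) (by decide +kernel) v4_2090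

theorem w4_2092_691 : S (PX [536] [567,598,629,691]) := VW.play 660 (PX [536,660] [567,598,629,691]) (by decide +kernel) v4_2091

theorem v4_2092 : VW (PX [536] [567,598,629]) := VW.of base nl_ok fl_ok (.cons 660 691 .nil (.cons 691 660 .nil .nil))
  [(722, (.cons 660 691 .nil (.cons 691 660 .nil .nil))), (753, (.cons 660 691 .nil (.cons 691 660 .nil .nil))), (784, (.cons 660 691 .nil (.cons 691 660 .nil .nil)))]
  [([660], (PX [536] [567,598,629,660])), ([691], (PX [536] [567,598,629,691]))]
  (by decide +kernel) ⟨w4_2092_660, w4_2092_691, trivial⟩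

theorem v4_2107 : VW (PX [598] [567,629,660]) := VW.of base nl_ok fl_ok .nil
  [(691, (.cons 722 753 .nil (.cons 753 722 .nil .nil))), (722, (.cons 691 753 .nil (.cons 753 691 .nil .nil))), (753, (.cons 691 722 .nil (.cons 722 691 .nil .nil)))]
  []
  (by decide +kernel) trivial

theorem w4_2110_536 : S (PX [] [536,567,629]) := VW.play 598 (PX [598] [536,567,629]) (by decide +kernel) v4_2068

theorem w4_2110_598 : S (PX [] [567,598,629]) := VW.play 536 (PX [536] [567,598,629]) (by decide +kernel) v4_2092

theorem w4_2110_660 : S (PX [] [567,629,660]) := VW.play 598 (PX [598] [567,629,660]) (by decide +kernel) v4_2107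

theorem v4_2110 : VW (PX [] [567,629]) := VW.of base nl_ok fl_ok .nil
  [(505, (.cons 536 598 (.cons 443 474 .nil (.cons 474 443 .nil .nil)) (.cons 598 536 (.cons 660 691 .nil (.cons 691 660 .nil .nil)) .nil))), (691, (.cons 598 660 (.cons 505 536 .nil (.cons 536 505 .nil .nil)) (.cons 660 598 (.cons 722 753 .nil (.cons 753 722 .nil .nil)) .nil)))]
  [([536], (PX [] [536,567,629])), ([598], (PX [] [567,598,629])), ([660], (PX [] [567,629,660]))]
  (by decide +kernel) ⟨w4_2110_536, w4_2110_598, w4_2110_660, trivial⟩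

theorem v4_2111 : VW (PX [563,728] [596,629,662,695]) := VW.of base nl_ok fl_ok .nil
  []
  []
  (by decide +kernel) trivial

theorem v4_2112 : VW (PX [563,695] [596,629,662,728]) := VW.of base nl_ok fl_ok .nil
  []
  []
  (by decide +kernel) trivial

theorem w4_2113_695 : S (PX [563] [596,629,662,695]) := VW.play 728 (PX [563,728] [596,629,662,695]) (by decide +kernel) v4_2111

theorem w4_2113_728 : S (PX [563] [596,629,662,728]) := VW.play 695 (PX [563,695] [596,629,662,728]) (by decide +kernel) v4_2112

theorem v4_2113 : VW (PX [563] [596,629,662]) := VW.of base nl_ok fl_ok (.cons 695 728 .nil (.cons 728 695 .nil .nil))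
  [(761, (.cons 695 728 .nil (.cons 728 695 .nil .nil))), (794, (.cons 695 728 .nil (.cons 728 695 .nil .nil))), (827, (.cons 695 728 .nil (.cons 728 695 .nil .nil)))]
  [([695], (PX [563] [596,629,662,695])), ([728], (PX [563] [596,629,662,728]))]
  (by decide +kernel) ⟨w4_2113_695, w4_2113_728, trivial⟩

theorem v4_2118 : VW (PX [662] [596,629,695]) := VW.of base nl_ok fl_ok .nil
  [(497, (.cons 530 563 .nil (.cons 563 530 .nil .nil))), (530, (.cons 497 563 .nil (.cons 563 497 .nil .nil))), (563, (.cons 497 530 .nil (.cons 530 497 .nil .nil)))]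
  []
  (by decide +kernel) trivial

theorem w4_2119_530 : S (PX [] [530,596,629]) := VW.play 563 (PX [563] [530,596,629]) (by decide +kernel) v4_2063

theorem w4_2119_563 : S (PX [] [563,596,629]) := VW.play 530 (PX [530] [563,596,629]) (by decide +kernel) v4_2087

theorem w4_2119_662 : S (PX [] [596,629,662]) := VW.play 563 (PX [563] [596,629,662]) (by decide +kernel) v4_2113

theorem w4_2119_695 : S (PX [] [596,629,695]) := VW.play 662 (PX [662] [596,629,695]) (by decide +kernel) v4_2118

theorem v4_2119 : VW (PX [] [596,629]) := VW.of base nl_ok fl_ok .nil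
  [(497, (.cons 530 563 .nil (.cons 563 530 (.cons 662 695 .nil (.cons 695 662 .nil .nil)) .nil))), (728, (.cons 662 695 (.cons 530 563 .nil (.cons 563 530 .nil .nil)) (.cons 695 662 .nil .nil)))]
  [([530], (PX [] [530,596,629])), ([563], (PX [] [563,596,629])), ([662], (PX [] [596,629,662])), ([695], (PX [] [596,629,695]))]
  (by decide +kernel) ⟨w4_2119_530, w4_2119_563, w4_2119_662, w4_2119_695, trivial⟩

theorem v4_1940 : VW (PX [565,725] [597,629,661,693]) := VW.of base nl_ok fl_ok .nil
  []
  []
  (by decide +kernel) trivial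

theorem v4_1941 : VW (PX [565,693] [597,629,661,725]) := VW.of base nl_ok fl_ok .nil
  []
  []
  (by decide +kernel) trivial

theorem w4_1942_693 : S (PX [565] [597,629,661,693]) := VW.play 725 (PX [565,725] [597,629,661,693]) (by decide +kernel) v4_1940

theorem w4_1942_725 : S (PX [565] [597,629,661,725]) := VW.play 693 (PX [565,693] [597,629,661,725]) (by decide +kernel) v4_1941

theorem v4_1942 : VW (PX [565] [597,629,661]) := VW.of base nl_ok fl_ok (.cons 693 725 .nil (.cons 725 693 .nil .nil))
  [(757, (.cons 693 725 .nil (.cons 725 693 .nil .nil))), (789, (.cons 693 725 .nil (.cons 725 693 .nil .nil))), (821, (.cons 693 725 .nil (.cons 725 693 .nil .nil)))]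
  [([693], (PX [565] [597,629,661,693])), ([725], (PX [565] [597,629,661,725]))]
  (by decide +kernel) ⟨w4_1942_693, w4_1942_725, trivial⟩

theorem v4_1947 : VW (PX [661] [597,629,693]) := VW.of base nl_ok fl_ok .nil
  [(501, (.cons 533 565 .nil (.cons 565 533 .nil .nil))), (533, (.cons 501 565 .nil (.cons 565 501 .nil .nil))), (565, (.cons 501 533 .nil (.cons 533 501 .nil .nil)))]
  []
  (by decide +kernel) trivial

theorem w4_1959_533 : S (PX [] [533,597,629]) := VW.play 565 (PX [565] [533,597,629]) (by decide +kernel) v4_1450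

theorem w4_1959_565 : S (PX [] [565,597,629]) := VW.play 533 (PX [533] [565,597,629]) (by decide +kernel) v4_1656

theorem w4_1959_661 : S (PX [] [597,629,661]) := VW.play 565 (PX [565] [597,629,661]) (by decide +kernel) v4_1942

theorem w4_1959_693 : S (PX [] [597,629,693]) := VW.play 661 (PX [661] [597,629,693]) (by decide +kernel) v4_1947

theorem v4_1959 : VW (PX [] [597,629]) := VW.of base nl_ok fl_ok .nil
  [(501, (.cons 533 565 .nil (.cons 565 533 (.cons 661 693 .nil (.cons 693 661 .nil .nil)) .nil))), (725, (.cons 661 693 (.cons 533 565 .nil (.cons 565 533 .nil .nil)) (.cons 693 661 .nil .nil)))]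
  [([533], (PX [] [533,597,629])), ([565], (PX [] [565,597,629])), ([661], (PX [] [597,629,661])), ([693], (PX [] [597,629,693]))]
  (by decide +kernel) ⟨w4_1959_533, w4_1959_565, w4_1959_661, w4_1959_693, trivial⟩

theorem v4_2120 : VW (PX [567,722] [598,629,660,691]) := VW.of base nl_ok fl_ok .nil
  []
  []
  (by decide +kernel) trivial

theorem v4_2121 : VW (PX [567,691] [598,629,660,722]) := VW.of base nl_ok fl_ok .nil
  []
  []
  (by decide +kernel) trivial

theorem w4_2122_691 : S (PX [567] [598,629,660,691]) := VW.play 722 (PX [567,722] [598,629,660,691]) (by decide +kernel) v4_2120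

theorem w4_2122_722 : S (PX [567] [598,629,660,722]) := VW.play 691 (PX [567,691] [598,629,660,722]) (by decide +kernel) v4_2121

theorem v4_2122 : VW (PX [567] [598,629,660]) := VW.of base nl_ok fl_ok (.cons 691 722 .nil (.cons 722 691 .nil .nil))
  [(753, (.cons 691 722 .nil (.cons 722 691 .nil .nil))), (784, (.cons 691 722 .nil (.cons 722 691 .nil .nil))), (815, (.cons 691 722 .nil (.cons 722 691 .nil .nil)))]
  [([691], (PX [567] [598,629,660,691])), ([722], (PX [567] [598,629,660,722]))]
  (by decide +kernel) ⟨w4_2122_691, w4_2122_722, trivial⟩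

theorem v4_2127 : VW (PX [660] [598,629,691]) := VW.of base nl_ok fl_ok .nil
  [(505, (.cons 536 567 .nil (.cons 567 536 .nil .nil))), (536, (.cons 505 567 .nil (.cons 567 505 .nil .nil))), (567, (.cons 505 536 .nil (.cons 536 505 .nil .nil)))]
  []
  (by decide +kernel) trivial

theorem w4_2128_536 : S (PX [] [536,598,629]) := VW.play 567 (PX [567] [536,598,629]) (by decide +kernel) v4_2083

theorem w4_2128_567 : S (PX [] [567,598,629]) := VW.play 536 (PX [536] [567,598,629]) (by decide +kernel) v4_2092

theorem w4_2128_660 : S (PX [] [598,629,660]) := VW.play 567 (PX [567] [598,629,660]) (by decide +kernel) v4_2122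

theorem w4_2128_691 : S (PX [] [598,629,691]) := VW.play 660 (PX [660] [598,629,691]) (by decide +kernel) v4_2127

theorem v4_2128 : VW (PX [] [598,629]) := VW.of base nl_ok fl_ok .nil
  [(505, (.cons 536 567 .nil (.cons 567 536 (.cons 660 691 .nil (.cons 691 660 .nil .nil)) .nil))), (722, (.cons 660 691 (.cons 536 567 .nil (.cons 567 536 .nil .nil)) (.cons 691 660 .nil .nil)))]
  [([536], (PX [] [536,598,629])), ([567], (PX [] [567,598,629])), ([660], (PX [] [598,629,660])), ([691], (PX [] [598,629,691]))]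
  (by decide +kernel) ⟨w4_2128_536, w4_2128_567, w4_2128_660, w4_2128_691, trivial⟩

theorem v4_2129 : VW (PX [] [625,629]) := VW.of base nl_ok fl_ok .nil
  [(626, (.cons 627 628 (.cons 623 624 .nil (.cons 624 623 .nil .nil)) (.cons 628 627 .nil .nil))), (627, (.cons 626 628 (.cons 623 624 .nil (.cons 624 623 .nil .nil)) (.cons 628 626 (.cons 630 631 .nil (.cons 631 630 .nil .nil)) .nil))), (628, (.cons 626 627 .nil (.cons 627 626 (.cons 630 631 .nil (.cons 631 630 .nil .nil)) .nil)))]
  []
  (by decide +kernel) trivial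

theorem v4_2133 : VW (PX [628] [626,627,629]) := VW.of base nl_ok fl_ok .nil
  [(623, (.cons 624 625 .nil (.cons 625 624 .nil .nil))), (624, (.cons 623 625 .nil (.cons 625 623 .nil .nil))), (625, (.cons 623 624 .nil (.cons 624 623 .nil .nil)))]
  []
  (by decide +kernel) trivial

theorem v4_2162 : VW (PX [627] [626,628,629]) := VW.of base nl_ok fl_ok .nil
  [(630, (.cons 631 632 .nil (.cons 632 631 .nil .nil))), (631, (.cons 630 632 .nil (.cons 632 630 .nil .nil))), (632, (.cons 630 631 .nil (.cons 631 630 .nil .nil)))]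
  []
  (by decide +kernel) trivial

theorem w4_2165_627 : S (PX [] [626,627,629]) := VW.play 628 (PX [628] [626,627,629]) (by decide +kernel) v4_2133

theorem w4_2165_628 : S (PX [] [626,628,629]) := VW.play 627 (PX [627] [626,628,629]) (by decide +kernel) v4_2162

theorem v4_2165 : VW (PX [] [626,629]) := VW.of base nl_ok fl_ok .nil
  [(625, (.cons 627 628 (.cons 623 624 .nil (.cons 624 623 .nil .nil)) (.cons 628 627 .nil .nil))), (630, (.cons 627 628 .nil (.cons 628 627 (.cons 631 632 .nil (.cons 632 631 .nil .nil)) .nil)))]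
  [([627], (PX [] [626,627,629])), ([628], (PX [] [626,628,629]))]
  (by decide +kernel) ⟨w4_2165_627, w4_2165_628, trivial⟩

theorem v4_2166 : VW (PX [626,631] [627,628,629,630]) := VW.of base nl_ok fl_ok .nil
  []
  []
  (by decide +kernel) trivial

theorem v4_2167 : VW (PX [626,630] [627,628,629,631]) := VW.of base nl_ok fl_ok .nil
  []
  []
  (by decide +kernel) trivial

theorem w4_2168_630 : S (PX [626] [627,628,629,630]) := VW.play 631 (PX [626,631] [627,628,629,630]) (by decide +kernel) v4_2166

theorem w4_2168_631 : S (PX [626] [627,628,629,631]) := VW.play 630 (PX [626,630] [627,628,629,631]) (by decide +kernel) v4_2167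

theorem v4_2168 : VW (PX [626] [627,628,629]) := VW.of base nl_ok fl_ok (.cons 630 631 .nil (.cons 631 630 .nil .nil))
  [(632, (.cons 630 631 .nil (.cons 631 630 .nil .nil))), (633, (.cons 630 631 .nil (.cons 631 630 .nil .nil))), (634, (.cons 630 631 .nil (.cons 631 630 .nil .nil)))]
  [([630], (PX [626] [627,628,629,630])), ([631], (PX [626] [627,628,629,631]))]
  (by decide +kernel) ⟨w4_2168_630, w4_2168_631, trivial⟩

theorem v4_2171 : VW (PX [628] [627,629,630]) := VW.of base nl_ok fl_ok .nil
  [(631, (.cons 632 633 .nil (.cons 633 632 .nil .nil))), (632, (.cons 631 633 .nil (.cons 633 631 .nil .nil))), (633, (.cons 631 632 .nil (.cons 632 631 .nil .nil)))]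
  []
  (by decide +kernel) trivial

theorem w4_2174_626 : S (PX [] [626,627,629]) := VW.play 628 (PX [628] [626,627,629]) (by decide +kernel) v4_2133

theorem w4_2174_628 : S (PX [] [627,628,629]) := VW.play 626 (PX [626] [627,628,629]) (by decide +kernel) v4_2168

theorem w4_2174_630 : S (PX [] [627,629,630]) := VW.play 628 (PX [628] [627,629,630]) (by decide +kernel) v4_2171

theorem v4_2174 : VW (PX [] [627,629]) := VW.of base nl_ok fl_ok .nil
  [(625, (.cons 626 628 (.cons 623 624 .nil (.cons 624 623 .nil .nil)) (.cons 628 626 (.cons 630 631 .nil (.cons 631 630 .nil .nil)) .nil))), (631, (.cons 628 630 (.cons 625 626 .nil (.cons 626 625 .nil .nil)) (.cons 630 628 (.cons 632 633 .nil (.cons 633 632 .nil .nil)) .nil)))]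
  [([626], (PX [] [626,627,629])), ([628], (PX [] [627,628,629])), ([630], (PX [] [627,629,630]))]
  (by decide +kernel) ⟨w4_2174_626, w4_2174_628, w4_2174_630, trivial⟩

theorem v4_2175 : VW (PX [627,632] [628,629,630,631]) := VW.of base nl_ok fl_ok .nil
  []
  []
  (by decide +kernel) trivial

theorem v4_2176 : VW (PX [627,631] [628,629,630,632]) := VW.of base nl_ok fl_ok .nil
  []
  []
  (by decide +kernel) trivial

theorem w4_2177_631 : S (PX [627] [628,629,630,631]) := VW.play 632 (PX [627,632] [628,629,630,631]) (by decide +kernel) v4_2175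

theorem w4_2177_632 : S (PX [627] [628,629,630,632]) := VW.play 631 (PX [627,631] [628,629,630,632]) (by decide +kernel) v4_2176

theorem v4_2177 : VW (PX [627] [628,629,630]) := VW.of base nl_ok fl_ok (.cons 631 632 .nil (.cons 632 631 .nil .nil))
  [(633, (.cons 631 632 .nil (.cons 632 631 .nil .nil))), (634, (.cons 631 632 .nil (.cons 632 631 .nil .nil))), (635, (.cons 631 632 .nil (.cons 632 631 .nil .nil)))]
  [([631], (PX [627] [628,629,630,631])), ([632], (PX [627] [628,629,630,632]))]
  (by decide +kernel) ⟨w4_2177_631, w4_2177_632, trivial⟩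

theorem v4_2182 : VW (PX [630] [628,629,631]) := VW.of base nl_ok fl_ok .nil
  [(625, (.cons 626 627 .nil (.cons 627 626 .nil .nil))), (626, (.cons 625 627 .nil (.cons 627 625 .nil .nil))), (627, (.cons 625 626 .nil (.cons 626 625 .nil .nil)))]
  []
  (by decide +kernel) trivial

theorem w4_2194_626 : S (PX [] [626,628,629]) := VW.play 627 (PX [627] [626,628,629]) (by decide +kernel) v4_2162

theorem w4_2194_627 : S (PX [] [627,628,629]) := VW.play 626 (PX [626] [627,628,629]) (by decide +kernel) v4_2168

theorem w4_2194_630 : S (PX [] [628,629,630]) := VW.play 627 (PX [627] [628,629,630]) (by decide +kernel) v4_2177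

theorem w4_2194_631 : S (PX [] [628,629,631]) := VW.play 630 (PX [630] [628,629,631]) (by decide +kernel) v4_2182

theorem v4_2194 : VW (PX [] [628,629]) := VW.of base nl_ok fl_ok .nil
  [(625, (.cons 626 627 .nil (.cons 627 626 (.cons 630 631 .nil (.cons 631 630 .nil .nil)) .nil))), (632, (.cons 630 631 (.cons 626 627 .nil (.cons 627 626 .nil .nil)) (.cons 631 630 .nil .nil)))]
  [([626], (PX [] [626,628,629])), ([627], (PX [] [627,628,629])), ([630], (PX [] [628,629,630])), ([631], (PX [] [628,629,631]))]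
  (by decide +kernel) ⟨w4_2194_626, w4_2194_627, w4_2194_630, w4_2194_631, trivial⟩

theorem v4_2195 : VW (PX [628,632] [627,629,630,631]) := VW.of base nl_ok fl_ok .nil
  []
  []
  (by decide +kernel) trivial

theorem w4_2196_627 : S (PX [632] [627,629,630,631]) := VW.play 628 (PX [628,632] [627,629,630,631]) (by decide +kernel) v4_2195

theorem w4_2196_628 : S (PX [632] [628,629,630,631]) := VW.play 627 (PX [627,632] [628,629,630,631]) (by decide +kernel) v4_2175

theorem v4_2196 : VW (PX [632] [629,630,631]) := VW.of base nl_ok fl_ok (.cons 627 628 .nil (.cons 628 627 .nil .nil))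
  [(624, (.cons 627 628 .nil (.cons 628 627 .nil .nil))), (625, (.cons 627 628 .nil (.cons 628 627 .nil .nil))), (626, (.cons 627 628 .nil (.cons 628 627 .nil .nil)))]
  [([627], (PX [632] [627,629,630,631])), ([628], (PX [632] [628,629,630,631]))]
  (by decide +kernel) ⟨w4_2196_627, w4_2196_628, trivial⟩

theorem v4_2197 : VW (PX [631] [629,630,632]) := VW.of base nl_ok fl_ok .nil
  [(626, (.cons 627 628 .nil (.cons 628 627 .nil .nil))), (627, (.cons 626 628 .nil (.cons 628 626 .nil .nil))), (628, (.cons 626 627 .nil (.cons 627 626 .nil .nil)))]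
  []
  (by decide +kernel) trivial

theorem w4_2213_627 : S (PX [] [627,629,630]) := VW.play 628 (PX [628] [627,629,630]) (by decide +kernel) v4_2171

theorem w4_2213_628 : S (PX [] [628,629,630]) := VW.play 627 (PX [627] [628,629,630]) (by decide +kernel) v4_2177

theorem w4_2213_631 : S (PX [] [629,630,631]) := VW.play 632 (PX [632] [629,630,631]) (by decide +kernel) v4_2196

theorem w4_2213_632 : S (PX [] [629,630,632]) := VW.play 631 (PX [631] [629,630,632]) (by decide +kernel) v4_2197

theorem v4_2213 : VW (PX [] [629,630]) := VW.of base nl_ok fl_ok .nil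
  [(626, (.cons 627 628 .nil (.cons 628 627 (.cons 631 632 .nil (.cons 632 631 .nil .nil)) .nil))), (633, (.cons 631 632 (.cons 627 628 .nil (.cons 628 627 .nil .nil)) (.cons 632 631 .nil .nil)))]
  [([627], (PX [] [627,629,630])), ([628], (PX [] [628,629,630])), ([631], (PX [] [629,630,631])), ([632], (PX [] [629,630,632]))]
  (by decide +kernel) ⟨w4_2213_627, w4_2213_628, w4_2213_631, w4_2213_632, trivial⟩

theorem v4_2214 : VW (PX [630] [629,631,632]) := VW.of base nl_ok fl_ok .nil
  [(633, (.cons 634 635 .nil (.cons 635 634 .nil .nil))), (634, (.cons 633 635 .nil (.cons 635 633 .nil .nil))), (635, (.cons 633 634 .nil (.cons 634 633 .nil .nil)))]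
  []
  (by decide +kernel) trivial

theorem w4_2217_628 : S (PX [] [628,629,631]) := VW.play 630 (PX [630] [628,629,631]) (by decide +kernel) v4_2182

theorem w4_2217_630 : S (PX [] [629,630,631]) := VW.play 632 (PX [632] [629,630,631]) (by decide +kernel) v4_2196

theorem w4_2217_632 : S (PX [] [629,631,632]) := VW.play 630 (PX [630] [629,631,632]) (by decide +kernel) v4_2214

theorem v4_2217 : VW (PX [] [629,631]) := VW.of base nl_ok fl_ok .nil
  [(627, (.cons 628 630 (.cons 625 626 .nil (.cons 626 625 .nil .nil)) (.cons 630 628 (.cons 632 633 .nil (.cons 633 632 .nil .nil)) .nil))), (633, (.cons 630 632 (.cons 627 628 .nil (.cons 628 627 .nil .nil)) (.cons 632 630 (.cons 634 635 .nil (.cons 635 634 .nil .nil)) .nil)))]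
  [([628], (PX [] [628,629,631])), ([630], (PX [] [629,630,631])), ([632], (PX [] [629,631,632]))]
  (by decide +kernel) ⟨w4_2217_628, w4_2217_630, w4_2217_632, trivial⟩

theorem w4_2218_630 : S (PX [] [629,630,632]) := VW.play 631 (PX [631] [629,630,632]) (by decide +kernel) v4_2197

theorem w4_2218_631 : S (PX [] [629,631,632]) := VW.play 630 (PX [630] [629,631,632]) (by decide +kernel) v4_2214

theorem v4_2218 : VW (PX [] [629,632]) := VW.of base nl_ok fl_ok .nil
  [(628, (.cons 630 631 (.cons 626 627 .nil (.cons 627 626 .nil .nil)) (.cons 631 630 .nil .nil))), (633, (.cons 630 631 .nil (.cons 631 630 (.cons 634 635 .nil (.cons 635 634 .nil .nil)) .nil)))]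
  [([630], (PX [] [629,630,632])), ([631], (PX [] [629,631,632]))]
  (by decide +kernel) ⟨w4_2218_630, w4_2218_631, trivial⟩

theorem v4_2219 : VW (PX [] [629,633]) := VW.of base nl_ok fl_ok .nil
  [(630, (.cons 631 632 (.cons 627 628 .nil (.cons 628 627 .nil .nil)) (.cons 632 631 .nil .nil))), (631, (.cons 630 632 (.cons 627 628 .nil (.cons 628 627 .nil .nil)) (.cons 632 630 (.cons 634 635 .nil (.cons 635 634 .nil .nil)) .nil))), (632, (.cons 630 631 .nil (.cons 631 630 (.cons 634 635 .nil (.cons 635 634 .nil .nil)) .nil)))]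
  []
  (by decide +kernel) trivial

theorem v4_2220 : VW (PX [598,753] [629,660,691,722]) := VW.of base nl_ok fl_ok .nil
  []
  []
  (by decide +kernel) trivial

theorem v4_2221 : VW (PX [598,722] [629,660,691,753]) := VW.of base nl_ok fl_ok .nil
  []
  []
  (by decide +kernel) trivial

theorem w4_2222_722 : S (PX [598] [629,660,691,722]) := VW.play 753 (PX [598,753] [629,660,691,722]) (by decide +kernel) v4_2220

theorem w4_2222_753 : S (PX [598] [629,660,691,753]) := VW.play 722 (PX [598,722] [629,660,691,753]) (by decide +kernel) v4_2221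

theorem v4_2222 : VW (PX [598] [629,660,691]) := VW.of base nl_ok fl_ok (.cons 722 753 .nil (.cons 753 722 .nil .nil))
  [(784, (.cons 722 753 .nil (.cons 753 722 .nil .nil))), (815, (.cons 722 753 .nil (.cons 753 722 .nil .nil))), (846, (.cons 722 753 .nil (.cons 753 722 .nil .nil)))]
  [([722], (PX [598] [629,660,691,722])), ([753], (PX [598] [629,660,691,753]))]
  (by decide +kernel) ⟨w4_2222_722, w4_2222_753, trivial⟩

theorem v4_2227 : VW (PX [691] [629,660,722]) := VW.of base nl_ok fl_ok .nil
  [(536, (.cons 567 598 .nil (.cons 598 567 .nil .nil))), (567, (.cons 536 598 .nil (.cons 598 536 .nil .nil))), (598, (.cons 536 567 .nil (.cons 567 536 .nil .nil)))]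
  []
  (by decide +kernel) trivial

theorem w4_2239_567 : S (PX [] [567,629,660]) := VW.play 598 (PX [598] [567,629,660]) (by decide +kernel) v4_2107

theorem w4_2239_598 : S (PX [] [598,629,660]) := VW.play 567 (PX [567] [598,629,660]) (by decide +kernel) v4_2122

theorem w4_2239_691 : S (PX [] [629,660,691]) := VW.play 598 (PX [598] [629,660,691]) (by decide +kernel) v4_2222

theorem w4_2239_722 : S (PX [] [629,660,722]) := VW.play 691 (PX [691] [629,660,722]) (by decide +kernel) v4_2227

theorem v4_2239 : VW (PX [] [629,660]) := VW.of base nl_ok fl_ok .nil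
  [(536, (.cons 567 598 .nil (.cons 598 567 (.cons 691 722 .nil (.cons 722 691 .nil .nil)) .nil))), (753, (.cons 691 722 (.cons 567 598 .nil (.cons 598 567 .nil .nil)) (.cons 722 691 .nil .nil)))]
  [([567], (PX [] [567,629,660])), ([598], (PX [] [598,629,660])), ([691], (PX [] [629,660,691])), ([722], (PX [] [629,660,722]))]
  (by decide +kernel) ⟨w4_2239_567, w4_2239_598, w4_2239_691, w4_2239_722, trivial⟩

theorem v4_2240 : VW (PX [597,757] [629,661,693,725]) := VW.of base nl_ok fl_ok .nil
  []
  []
  (by decide +kernel) trivial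

theorem v4_2241 : VW (PX [597,725] [629,661,693,757]) := VW.of base nl_ok fl_ok .nil
  []
  []
  (by decide +kernel) trivial

theorem w4_2242_725 : S (PX [597] [629,661,693,725]) := VW.play 757 (PX [597,757] [629,661,693,725]) (by decide +kernel) v4_2240

theorem w4_2242_757 : S (PX [597] [629,661,693,757]) := VW.play 725 (PX [597,725] [629,661,693,757]) (by decide +kernel) v4_2241

theorem v4_2242 : VW (PX [597] [629,661,693]) := VW.of base nl_ok fl_ok (.cons 725 757 .nil (.cons 757 725 .nil .nil))
  [(789, (.cons 725 757 .nil (.cons 757 725 .nil .nil))), (821, (.cons 725 757 .nil (.cons 757 725 .nil .nil))), (853, (.cons 725 757 .nil (.cons 757 725 .nil .nil)))]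
  [([725], (PX [597] [629,661,693,725])), ([757], (PX [597] [629,661,693,757]))]
  (by decide +kernel) ⟨w4_2242_725, w4_2242_757, trivial⟩

theorem v4_2247 : VW (PX [693] [629,661,725]) := VW.of base nl_ok fl_ok .nil
  [(533, (.cons 565 597 .nil (.cons 597 565 .nil .nil))), (565, (.cons 533 597 .nil (.cons 597 533 .nil .nil))), (597, (.cons 533 565 .nil (.cons 565 533 .nil .nil)))]
  []
  (by decide +kernel) trivial

theorem w4_2259_565 : S (PX [] [565,629,661]) := VW.play 597 (PX [597] [565,629,661]) (by decide +kernel) v4_1723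

theorem w4_2259_597 : S (PX [] [597,629,661]) := VW.play 565 (PX [565] [597,629,661]) (by decide +kernel) v4_1942

theorem w4_2259_693 : S (PX [] [629,661,693]) := VW.play 597 (PX [597] [629,661,693]) (by decide +kernel) v4_2242

theorem w4_2259_725 : S (PX [] [629,661,725]) := VW.play 693 (PX [693] [629,661,725]) (by decide +kernel) v4_2247

theorem v4_2259 : VW (PX [] [629,661]) := VW.of base nl_ok fl_ok .nil
  [(533, (.cons 565 597 .nil (.cons 597 565 (.cons 693 725 .nil (.cons 725 693 .nil .nil)) .nil))), (757, (.cons 693 725 (.cons 565 597 .nil (.cons 597 565 .nil .nil)) (.cons 725 693 .nil .nil)))]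
  [([565], (PX [] [565,629,661])), ([597], (PX [] [597,629,661])), ([693], (PX [] [629,661,693])), ([725], (PX [] [629,661,725]))]
  (by decide +kernel) ⟨w4_2259_565, w4_2259_597, w4_2259_693, w4_2259_725, trivial⟩

theorem v4_2260 : VW (PX [596,728] [563,629,662,695]) := VW.of base nl_ok fl_ok .nil
  []
  []
  (by decide +kernel) trivial

theorem w4_2261_563 : S (PX [728] [563,629,662,695]) := VW.play 596 (PX [596,728] [563,629,662,695]) (by decide +kernel) v4_2260

theorem w4_2261_596 : S (PX [728] [596,629,662,695]) := VW.play 563 (PX [563,728] [596,629,662,695]) (by decide +kernel) v4_2111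

theorem v4_2261 : VW (PX [728] [629,662,695]) := VW.of base nl_ok fl_ok (.cons 563 596 .nil (.cons 596 563 .nil .nil))
  [(464, (.cons 563 596 .nil (.cons 596 563 .nil .nil))), (497, (.cons 563 596 .nil (.cons 596 563 .nil .nil))), (530, (.cons 563 596 .nil (.cons 596 563 .nil .nil)))]
  [([563], (PX [728] [563,629,662,695])), ([596], (PX [728] [596,629,662,695]))]
  (by decide +kernel) ⟨w4_2261_563, w4_2261_596, trivial⟩

theorem v4_2262 : VW (PX [695] [629,662,728]) := VW.of base nl_ok fl_ok .nil
  [(530, (.cons 563 596 .nil (.cons 596 563 .nil .nil))), (563, (.cons 530 596 .nil (.cons 596 530 .nil .nil))), (596, (.cons 530 563 .nil (.cons 563 530 .nil .nil)))]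
  []
  (by decide +kernel) trivial

theorem w4_2276_563 : S (PX [] [563,629,662]) := VW.play 596 (PX [596] [563,629,662]) (by decide +kernel) v4_2088

theorem w4_2276_596 : S (PX [] [596,629,662]) := VW.play 563 (PX [563] [596,629,662]) (by decide +kernel) v4_2113

theorem w4_2276_695 : S (PX [] [629,662,695]) := VW.play 728 (PX [728] [629,662,695]) (by decide +kernel) v4_2261

theorem w4_2276_728 : S (PX [] [629,662,728]) := VW.play 695 (PX [695] [629,662,728]) (by decide +kernel) v4_2262

theorem v4_2276 : VW (PX [] [629,662]) := VW.of base nl_ok fl_ok .nil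
  [(530, (.cons 563 596 .nil (.cons 596 563 (.cons 695 728 .nil (.cons 728 695 .nil .nil)) .nil))), (761, (.cons 695 728 (.cons 563 596 .nil (.cons 596 563 .nil .nil)) (.cons 728 695 .nil .nil)))]
  [([563], (PX [] [563,629,662])), ([596], (PX [] [596,629,662])), ([695], (PX [] [629,662,695])), ([728], (PX [] [629,662,728]))]
  (by decide +kernel) ⟨w4_2276_563, w4_2276_596, w4_2276_695, w4_2276_728, trivial⟩

theorem v4_2277 : VW (PX [660] [629,691,722]) := VW.of base nl_ok fl_ok .nil
  [(753, (.cons 784 815 .nil (.cons 815 784 .nil .nil))), (784, (.cons 753 815 .nil (.cons 815 753 .nil .nil))), (815, (.cons 753 784 .nil (.cons 784 753 .nil .nil)))]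
  []
  (by decide +kernel) trivial

theorem w4_2280_598 : S (PX [] [598,629,691]) := VW.play 660 (PX [660] [598,629,691]) (by decide +kernel) v4_2127

theorem w4_2280_660 : S (PX [] [629,660,691]) := VW.play 598 (PX [598] [629,660,691]) (by decide +kernel) v4_2222

theorem w4_2280_722 : S (PX [] [629,691,722]) := VW.play 660 (PX [660] [629,691,722]) (by decide +kernel) v4_2277

theorem v4_2280 : VW (PX [] [629,691]) := VW.of base nl_ok fl_ok .nil
  [(567, (.cons 598 660 (.cons 505 536 .nil (.cons 536 505 .nil .nil)) (.cons 660 598 (.cons 722 753 .nil (.cons 753 722 .nil .nil)) .nil))), (753, (.cons 660 722 (.cons 567 598 .nil (.cons 598 567 .nil .nil)) (.cons 722 660 (.cons 784 815 .nil (.cons 815 784 .nil .nil)) .nil)))]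
  [([598], (PX [] [598,629,691])), ([660], (PX [] [629,660,691])), ([722], (PX [] [629,691,722]))]
  (by decide +kernel) ⟨w4_2280_598, w4_2280_660, w4_2280_722, trivial⟩

theorem v4_2281 : VW (PX [661] [629,693,725]) := VW.of base nl_ok fl_ok .nil
  [(757, (.cons 789 821 .nil (.cons 821 789 .nil .nil))), (789, (.cons 757 821 .nil (.cons 821 757 .nil .nil))), (821, (.cons 757 789 .nil (.cons 789 757 .nil .nil)))]
  []
  (by decide +kernel) trivial

theorem w4_2284_597 : S (PX [] [597,629,693]) := VW.play 661 (PX [661] [597,629,693]) (by decide +kernel) v4_1947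

theorem w4_2284_661 : S (PX [] [629,661,693]) := VW.play 597 (PX [597] [629,661,693]) (by decide +kernel) v4_2242

theorem w4_2284_725 : S (PX [] [629,693,725]) := VW.play 661 (PX [661] [629,693,725]) (by decide +kernel) v4_2281

theorem v4_2284 : VW (PX [] [629,693]) := VW.of base nl_ok fl_ok .nil
  [(565, (.cons 597 661 (.cons 501 533 .nil (.cons 533 501 .nil .nil)) (.cons 661 597 (.cons 725 757 .nil (.cons 757 725 .nil .nil)) .nil))), (757, (.cons 661 725 (.cons 565 597 .nil (.cons 597 565 .nil .nil)) (.cons 725 661 (.cons 789 821 .nil (.cons 821 789 .nil .nil)) .nil)))]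
  [([597], (PX [] [597,629,693])), ([661], (PX [] [629,661,693])), ([725], (PX [] [629,693,725]))]
  (by decide +kernel) ⟨w4_2284_597, w4_2284_661, w4_2284_725, trivial⟩

theorem v4_2285 : VW (PX [662] [629,695,728]) := VW.of base nl_ok fl_ok .nil
  [(761, (.cons 794 827 .nil (.cons 827 794 .nil .nil))), (794, (.cons 761 827 .nil (.cons 827 761 .nil .nil))), (827, (.cons 761 794 .nil (.cons 794 761 .nil .nil)))]
  []
  (by decide +kernel) trivial

theorem w4_2288_596 : S (PX [] [596,629,695]) := VW.play 662 (PX [662] [596,629,695]) (by decide +kernel) v4_2118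

theorem w4_2288_662 : S (PX [] [629,662,695]) := VW.play 728 (PX [728] [629,662,695]) (by decide +kernel) v4_2261

theorem w4_2288_728 : S (PX [] [629,695,728]) := VW.play 662 (PX [662] [629,695,728]) (by decide +kernel) v4_2285

theorem v4_2288 : VW (PX [] [629,695]) := VW.of base nl_ok fl_ok .nil
  [(563, (.cons 596 662 (.cons 497 530 .nil (.cons 530 497 .nil .nil)) (.cons 662 596 (.cons 728 761 .nil (.cons 761 728 .nil .nil)) .nil))), (761, (.cons 662 728 (.cons 563 596 .nil (.cons 596 563 .nil .nil)) (.cons 728 662 (.cons 794 827 .nil (.cons 827 794 .nil .nil)) .nil)))]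
  [([596], (PX [] [596,629,695])), ([662], (PX [] [629,662,695])), ([728], (PX [] [629,695,728]))]
  (by decide +kernel) ⟨w4_2288_596, w4_2288_662, w4_2288_728, trivial⟩

theorem w4_2289_660 : S (PX [] [629,660,722]) := VW.play 691 (PX [691] [629,660,722]) (by decide +kernel) v4_2227

theorem w4_2289_691 : S (PX [] [629,691,722]) := VW.play 660 (PX [660] [629,691,722]) (by decide +kernel) v4_2277

theorem v4_2289 : VW (PX [] [629,722]) := VW.of base nl_ok fl_ok .nil
  [(598, (.cons 660 691 (.cons 536 567 .nil (.cons 567 536 .nil .nil)) (.cons 691 660 .nil .nil))), (753, (.cons 660 691 .nil (.cons 691 660 (.cons 784 815 .nil (.cons 815 784 .nil .nil)) .nil)))]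
  [([660], (PX [] [629,660,722])), ([691], (PX [] [629,691,722]))]
  (by decide +kernel) ⟨w4_2289_660, w4_2289_691, trivial⟩

theorem w4_2290_661 : S (PX [] [629,661,725]) := VW.play 693 (PX [693] [629,661,725]) (by decide +kernel) v4_2247

theorem w4_2290_693 : S (PX [] [629,693,725]) := VW.play 661 (PX [661] [629,693,725]) (by decide +kernel) v4_2281

theorem v4_2290 : VW (PX [] [629,725]) := VW.of base nl_ok fl_ok .nil
  [(597, (.cons 661 693 (.cons 533 565 .nil (.cons 565 533 .nil .nil)) (.cons 693 661 .nil .nil))), (757, (.cons 661 693 .nil (.cons 693 661 (.cons 789 821 .nil (.cons 821 789 .nil .nil)) .nil)))]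
  [([661], (PX [] [629,661,725])), ([693], (PX [] [629,693,725]))]
  (by decide +kernel) ⟨w4_2290_661, w4_2290_693, trivial⟩

theorem w4_2291_662 : S (PX [] [629,662,728]) := VW.play 695 (PX [695] [629,662,728]) (by decide +kernel) v4_2262

theorem w4_2291_695 : S (PX [] [629,695,728]) := VW.play 662 (PX [662] [629,695,728]) (by decide +kernel) v4_2285

theorem v4_2291 : VW (PX [] [629,728]) := VW.of base nl_ok fl_ok .nil
  [(596, (.cons 662 695 (.cons 530 563 .nil (.cons 563 530 .nil .nil)) (.cons 695 662 .nil .nil))), (761, (.cons 662 695 .nil (.cons 695 662 (.cons 794 827 .nil (.cons 827 794 .nil .nil)) .nil)))]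
  [([662], (PX [] [629,662,728])), ([695], (PX [] [629,695,728]))]
  (by decide +kernel) ⟨w4_2291_662, w4_2291_695, trivial⟩

theorem v4_2292 : VW (PX [] [629,753]) := VW.of base nl_ok fl_ok .nil
  [(660, (.cons 691 722 (.cons 567 598 .nil (.cons 598 567 .nil .nil)) (.cons 722 691 .nil .nil))), (691, (.cons 660 722 (.cons 567 598 .nil (.cons 598 567 .nil .nil)) (.cons 722 660 (.cons 784 815 .nil (.cons 815 784 .nil .nil)) .nil))), (722, (.cons 660 691 .nil (.cons 691 660 (.cons 784 815 .nil (.cons 815 784 .nil .nil)) .nil)))]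
  []
  (by decide +kernel) trivial

theorem v4_2293 : VW (PX [] [629,757]) := VW.of base nl_ok fl_ok .nil
  [(661, (.cons 693 725 (.cons 565 597 .nil (.cons 597 565 .nil .nil)) (.cons 725 693 .nil .nil))), (693, (.cons 661 725 (.cons 565 597 .nil (.cons 597 565 .nil .nil)) (.cons 725 661 (.cons 789 821 .nil (.cons 821 789 .nil .nil)) .nil))), (725, (.cons 661 693 .nil (.cons 693 661 (.cons 789 821 .nil (.cons 821 789 .nil .nil)) .nil)))]
  []
  (by decide +kernel) trivial

theorem v4_2294 : VW (PX [] [629,761]) := VW.of base nl_ok fl_ok .nil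
  [(662, (.cons 695 728 (.cons 563 596 .nil (.cons 596 563 .nil .nil)) (.cons 728 695 .nil .nil))), (695, (.cons 662 728 (.cons 563 596 .nil (.cons 596 563 .nil .nil)) (.cons 728 662 (.cons 794 827 .nil (.cons 827 794 .nil .nil)) .nil))), (728, (.cons 662 695 .nil (.cons 695 662 (.cons 794 827 .nil (.cons 827 794 .nil .nil)) .nil)))]
  []
  (by decide +kernel) trivial

theorem r497 : S (Nat.lor X2 (bits [629, 497])) := VW.play 394 (PX [] [497,629]) (by decide +kernel) v4_2041

theorem r501 : S (Nat.lor X2 (bits [629, 501])) := VW.play 394 (PX [] [501,629]) (by decide +kernel) v4_1191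

theorem r505 : S (Nat.lor X2 (bits [629, 505])) := VW.play 394 (PX [] [505,629]) (by decide +kernel) v4_2042

theorem r530 : S (Nat.lor X2 (bits [629, 530])) := VW.play 394 (PX [] [530,629]) (by decide +kernel) v4_2064

theorem r533 : S (Nat.lor X2 (bits [629, 533])) := VW.play 394 (PX [] [533,629]) (by decide +kernel) v4_1459

theorem r536 : S (Nat.lor X2 (bits [629, 536])) := VW.play 394 (PX [] [536,629]) (by decide +kernel) v4_2084

theorem r563 : S (Nat.lor X2 (bits [629, 563])) := VW.play 394 (PX [] [563,629]) (by decide +kernel) v4_2089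

theorem r565 : S (Nat.lor X2 (bits [629, 565])) := VW.play 394 (PX [] [565,629]) (by decide +kernel) v4_1726

theorem r567 : S (Nat.lor X2 (bits [629, 567])) := VW.play 394 (PX [] [567,629]) (by decide +kernel) v4_2110

theorem r596 : S (Nat.lor X2 (bits [629, 596])) := VW.play 394 (PX [] [596,629]) (by decide +kernel) v4_2119

theorem r597 : S (Nat.lor X2 (bits [629, 597])) := VW.play 394 (PX [] [597,629]) (by decide +kernel) v4_1959

theorem r598 : S (Nat.lor X2 (bits [629, 598])) := VW.play 394 (PX [] [598,629]) (by decide +kernel) v4_2128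

theorem r625 : S (Nat.lor X2 (bits [629, 625])) := VW.play 394 (PX [] [625,629]) (by decide +kernel) v4_2129

theorem r626 : S (Nat.lor X2 (bits [629, 626])) := VW.play 394 (PX [] [626,629]) (by decide +kernel) v4_2165

theorem r627 : S (Nat.lor X2 (bits [629, 627])) := VW.play 394 (PX [] [627,629]) (by decide +kernel) v4_2174

theorem r628 : S (Nat.lor X2 (bits [629, 628])) := VW.play 394 (PX [] [628,629]) (by decide +kernel) v4_2194

theorem r630 : S (Nat.lor X2 (bits [629, 630])) := VW.play 394 (PX [] [629,630]) (by decide +kernel) v4_2213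

theorem r631 : S (Nat.lor X2 (bits [629, 631])) := VW.play 394 (PX [] [629,631]) (by decide +kernel) v4_2217

theorem r632 : S (Nat.lor X2 (bits [629, 632])) := VW.play 394 (PX [] [629,632]) (by decide +kernel) v4_2218

theorem r633 : S (Nat.lor X2 (bits [629, 633])) := VW.play 394 (PX [] [629,633]) (by decide +kernel) v4_2219

theorem r660 : S (Nat.lor X2 (bits [629, 660])) := VW.play 394 (PX [] [629,660]) (by decide +kernel) v4_2239

theorem r661 : S (Nat.lor X2 (bits [629, 661])) := VW.play 394 (PX [] [629,661]) (by decide +kernel) v4_2259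

theorem r662 : S (Nat.lor X2 (bits [629, 662])) := VW.play 394 (PX [] [629,662]) (by decide +kernel) v4_2276

theorem r691 : S (Nat.lor X2 (bits [629, 691])) := VW.play 394 (PX [] [629,691]) (by decide +kernel) v4_2280

theorem r693 : S (Nat.lor X2 (bits [629, 693])) := VW.play 394 (PX [] [629,693]) (by decide +kernel) v4_2284

theorem r695 : S (Nat.lor X2 (bits [629, 695])) := VW.play 394 (PX [] [629,695]) (by decide +kernel) v4_2288

theorem r722 : S (Nat.lor X2 (bits [629, 722])) := VW.play 394 (PX [] [629,722]) (by decide +kernel) v4_2289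

theorem r725 : S (Nat.lor X2 (bits [629, 725])) := VW.play 394 (PX [] [629,725]) (by decide +kernel) v4_2290

theorem r728 : S (Nat.lor X2 (bits [629, 728])) := VW.play 394 (PX [] [629,728]) (by decide +kernel) v4_2291

theorem r753 : S (Nat.lor X2 (bits [629, 753])) := VW.play 394 (PX [] [629,753]) (by decide +kernel) v4_2292

theorem r757 : S (Nat.lor X2 (bits [629, 757])) := VW.play 394 (PX [] [629,757]) (by decide +kernel) v4_2293

theorem r761 : S (Nat.lor X2 (bits [629, 761])) := VW.play 394 (PX [] [629,761]) (by decide +kernel) v4_2294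

theorem all : RT X2 629 (497 :: 501 :: 505 :: 530 :: 533 :: 536 :: 563 :: 565 :: 567 :: 596 :: 597 :: 598 :: 625 :: 626 :: 627 :: 628 :: 630 :: 631 :: 632 :: 633 :: 660 :: 661 :: 662 :: 691 :: 693 :: 695 :: 722 :: 725 :: 728 :: 753 :: 757 :: 761 :: []) := ⟨r497, r501, r505, r530, r533, r536, r563, r565, r567, r596, r597, r598, r625, r626, r627, r628, r630, r631, r632, r633, r660, r661, r662, r691, r693, r695, r722, r725, r728, r753, r757, r761, trivial⟩

end Pool.Agent.H94.Five.Mid.K10_8_0
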