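import Pool.Agent.H94.Five.Mid.Fam

set_option autoImplicit false
set_option linter.all false
set_option maxRecDepth 100000

/-! Second has the cell (10, 9): some of the other stones. -/

namespace Pool.Agent.H94.Five.Mid.K10_9_0

open Pool.Agent.H79.Five Pool.Agent.H10.Five Pool.Agent.H94.Five.M

abbrev nl : List Ent := [n0, n3, n4, n6, n8, n9, n10, n11, n16, n17, n21, n22]

theorem nl_ok : AC XB M0 nl := .cons n0k <| .cons n3k <| .cons n4k <| .cons n6k <| .cons n8k <| .cons n9k <| .cons n10k <| .cons n11k <| .cons n16k <| .cons n17k <| .cons n21k <| .cons n22k <| .nil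

abbrev fl : List Ent := (x73 :: x103 :: x130 :: x167 :: x174 :: x183 :: x201 :: x204 :: x245 :: x255 :: x258 :: x266 :: x276 :: x310 :: x316 :: x328 :: x357 :: x364 :: x371 :: x375 :: x383 :: x390 :: x424 :: x427 :: x437 :: x451 :: x501 :: [])

theorem fl_ok : AC XB M0 fl := .cons x73k <| .cons x103k <| .cons x130k <| .cons x167k <| .cons x174k <| .cons x183k <| .cons x201k <| .cons x204k <| .cons x245k <| .cons x255k <| .cons x258k <| .cons x266k <| .cons x276k <| .cons x310k <| .cons x316k <| .cons x328k <| .cons x357k <| .cons x364k <| .cons x371k <| .cons x375k <| .cons x383k <| .cons x390k <| .cons x424k <| .cons x427k <| .cons x437k <| .cons x451k <| .cons x501k <| .nil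

theorem v4_2295 : VW (PX [] [529,661]) := VW.of base nl_ok fl_ok .nil
  [(562, (.cons 595 628 (.cons 463 496 .nil (.cons 496 463 .nil .nil)) (.cons 628 595 .nil .nil))), (595, (.cons 562 628 (.cons 463 496 .nil (.cons 496 463 .nil .nil)) (.cons 628 562 (.cons 694 727 .nil (.cons 727 694 .nil .nil)) .nil))), (628, (.cons 562 595 .nil (.cons 595 562 (.cons 694 727 .nil (.cons 727 694 .nil .nil)) .nil)))]
  []
  (by decide +kernel) trivial

theorem v4_1462 : VW (PX [] [533,661]) := VW.of base nl_ok fl_ok .nil
  [(565, (.cons 597 629 (.cons 469 501 .nil (.cons 501 469 .nil .nil)) (.cons 629 597 .nil .nil))), (597, (.cons 565 629 (.cons 469 501 .nil (.cons 501 469 .nil .nil)) (.cons 629 565 (.cons 693 725 .nil (.cons 725 693 .nil .nil)) .nil))), (629, (.cons 565 597 .nil (.cons 597 565 (.cons 693 725 .nil (.cons 725 693 .nil .nil)) .nil)))]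
  []
  (by decide +kernel) trivial

theorem v4_2296 : VW (PX [] [537,661]) := VW.of base nl_ok fl_ok .nil
  [(568, (.cons 599 630 (.cons 475 506 .nil (.cons 506 475 .nil .nil)) (.cons 630 599 .nil .nil))), (599, (.cons 568 630 (.cons 475 506 .nil (.cons 506 475 .nil .nil)) (.cons 630 568 (.cons 692 723 .nil (.cons 723 692 .nil .nil)) .nil))), (630, (.cons 568 599 .nil (.cons 599 568 (.cons 692 723 .nil (.cons 723 692 .nil .nil)) .nil)))]
  []
  (by decide +kernel) trivial

theorem v4_2300 : VW (PX [628] [562,595,661]) := VW.of base nl_ok fl_ok .nil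
  [(463, (.cons 496 529 .nil (.cons 529 496 .nil .nil))), (496, (.cons 463 529 .nil (.cons 529 463 .nil .nil))), (529, (.cons 463 496 .nil (.cons 496 463 .nil .nil)))]
  []
  (by decide +kernel) trivial

theorem v4_2315 : VW (PX [595] [562,628,661]) := VW.of base nl_ok fl_ok .nil
  [(694, (.cons 727 760 .nil (.cons 760 727 .nil .nil))), (727, (.cons 694 760 .nil (.cons 760 694 .nil .nil))), (760, (.cons 694 727 .nil (.cons 727 694 .nil .nil)))]
  []
  (by decide +kernel) trivial

theorem w4_2316_595 : S (PX [] [562,595,661]) := VW.play 628 (PX [628] [562,595,661]) (by decide +kernel) v4_2300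

theorem w4_2316_628 : S (PX [] [562,628,661]) := VW.play 595 (PX [595] [562,628,661]) (by decide +kernel) v4_2315

theorem v4_2316 : VW (PX [] [562,661]) := VW.of base nl_ok fl_ok .nil
  [(529, (.cons 595 628 (.cons 463 496 .nil (.cons 496 463 .nil .nil)) (.cons 628 595 .nil .nil))), (694, (.cons 595 628 .nil (.cons 628 595 (.cons 727 760 .nil (.cons 760 727 .nil .nil)) .nil)))]
  [([595], (PX [] [562,595,661])), ([628], (PX [] [562,628,661]))]
  (by decide +kernel) ⟨w4_2316_595, w4_2316_628, trivial⟩

theorem v4_1661 : VW (PX [629] [565,597,661]) := VW.of base nl_ok fl_ok .nil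
  [(469, (.cons 501 533 .nil (.cons 533 501 .nil .nil))), (501, (.cons 469 533 .nil (.cons 533 469 .nil .nil))), (533, (.cons 469 501 .nil (.cons 501 469 .nil .nil)))]
  []
  (by decide +kernel) trivial

theorem v4_1723 : VW (PX [597] [565,629,661]) := VW.of base nl_ok fl_ok .nil
  [(693, (.cons 725 757 .nil (.cons 757 725 .nil .nil))), (725, (.cons 693 757 .nil (.cons 757 693 .nil .nil))), (757, (.cons 693 725 .nil (.cons 725 693 .nil .nil)))]
  []
  (by decide +kernel) trivial

theorem w4_1732_597 : S (PX [] [565,597,661]) := VW.play 629 (PX [629] [565,597,661]) (by decide +kernel) v4_1661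

theorem w4_1732_629 : S (PX [] [565,629,661]) := VW.play 597 (PX [597] [565,629,661]) (by decide +kernel) v4_1723

theorem v4_1732 : VW (PX [] [565,661]) := VW.of base nl_ok fl_ok .nil
  [(533, (.cons 597 629 (.cons 469 501 .nil (.cons 501 469 .nil .nil)) (.cons 629 597 .nil .nil))), (693, (.cons 597 629 .nil (.cons 629 597 (.cons 725 757 .nil (.cons 757 725 .nil .nil)) .nil)))]
  [([597], (PX [] [565,597,661])), ([629], (PX [] [565,629,661]))]
  (by decide +kernel) ⟨w4_1732_597, w4_1732_629, trivial⟩

theorem v4_2320 : VW (PX [630] [568,599,661]) := VW.of base nl_ok fl_ok .nil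
  [(475, (.cons 506 537 .nil (.cons 537 506 .nil .nil))), (506, (.cons 475 537 .nil (.cons 537 475 .nil .nil))), (537, (.cons 475 506 .nil (.cons 506 475 .nil .nil)))]
  []
  (by decide +kernel) trivial

theorem v4_2335 : VW (PX [599] [568,630,661]) := VW.of base nl_ok fl_ok .nil
  [(692, (.cons 723 754 .nil (.cons 754 723 .nil .nil))), (723, (.cons 692 754 .nil (.cons 754 692 .nil .nil))), (754, (.cons 692 723 .nil (.cons 723 692 .nil .nil)))]
  []
  (by decide +kernel) trivial

theorem w4_2336_599 : S (PX [] [568,599,661]) := VW.play 630 (PX [630] [568,599,661]) (by decide +kernel) v4_2320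

theorem w4_2336_630 : S (PX [] [568,630,661]) := VW.play 599 (PX [599] [568,630,661]) (by decide +kernel) v4_2335

theorem v4_2336 : VW (PX [] [568,661]) := VW.of base nl_ok fl_ok .nil
  [(537, (.cons 599 630 (.cons 475 506 .nil (.cons 506 475 .nil .nil)) (.cons 630 599 .nil .nil))), (692, (.cons 599 630 .nil (.cons 630 599 (.cons 723 754 .nil (.cons 754 723 .nil .nil)) .nil)))]
  [([599], (PX [] [568,599,661])), ([630], (PX [] [568,630,661]))]
  (by decide +kernel) ⟨w4_2336_599, w4_2336_630, trivial⟩

theorem v4_2337 : VW (PX [562,727] [595,628,661,694]) := VW.of base nl_ok fl_ok .nil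
  []
  []
  (by decide +kernel) trivial

theorem v4_2338 : VW (PX [562,694] [595,628,661,727]) := VW.of base nl_ok fl_ok .nil
  []
  []
  (by decide +kernel) trivial

theorem w4_2339_694 : S (PX [562] [595,628,661,694]) := VW.play 727 (PX [562,727] [595,628,661,694]) (by decide +kernel) v4_2337

theorem w4_2339_727 : S (PX [562] [595,628,661,727]) := VW.play 694 (PX [562,694] [595,628,661,727]) (by decide +kernel) v4_2338

theorem v4_2339 : VW (PX [562] [595,628,661]) := VW.of base nl_ok fl_ok (.cons 694 727 .nil (.cons 727 694 .nil .nil))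
  [(760, (.cons 694 727 .nil (.cons 727 694 .nil .nil))), (793, (.cons 694 727 .nil (.cons 727 694 .nil .nil))), (826, (.cons 694 727 .nil (.cons 727 694 .nil .nil)))]
  [([694], (PX [562] [595,628,661,694])), ([727], (PX [562] [595,628,661,727]))]
  (by decide +kernel) ⟨w4_2339_694, w4_2339_727, trivial⟩

theorem v4_2340 : VW (PX [628] [595,661,694]) := VW.of base nl_ok fl_ok .nil
  [(727, (.cons 760 793 .nil (.cons 793 760 .nil .nil))), (760, (.cons 727 793 .nil (.cons 793 727 .nil .nil))), (793, (.cons 727 760 .nil (.cons 760 727 .nil .nil)))]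
  []
  (by decide +kernel) trivial

theorem w4_2343_562 : S (PX [] [562,595,661]) := VW.play 628 (PX [628] [562,595,661]) (by decide +kernel) v4_2300

theorem w4_2343_628 : S (PX [] [595,628,661]) := VW.play 562 (PX [562] [595,628,661]) (by decide +kernel) v4_2339

theorem w4_2343_694 : S (PX [] [595,661,694]) := VW.play 628 (PX [628] [595,661,694]) (by decide +kernel) v4_2340

theorem v4_2343 : VW (PX [] [595,661]) := VW.of base nl_ok fl_ok .nil
  [(529, (.cons 562 628 (.cons 463 496 .nil (.cons 496 463 .nil .nil)) (.cons 628 562 (.cons 694 727 .nil (.cons 727 694 .nil .nil)) .nil))), (727, (.cons 628 694 (.cons 529 562 .nil (.cons 562 529 .nil .nil)) (.cons 694 628 (.cons 760 793 .nil (.cons 793 760 .nil .nil)) .nil)))]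
  [([562], (PX [] [562,595,661])), ([628], (PX [] [595,628,661])), ([694], (PX [] [595,661,694]))]
  (by decide +kernel) ⟨w4_2343_562, w4_2343_628, w4_2343_694, trivial⟩

theorem v4_1940 : VW (PX [565,725] [597,629,661,693]) := VW.of base nl_ok fl_ok .nil
  []
  []
  (by decide +kernel) trivial

theorem v4_1941 : VW (PX [565,693] [597,629,661,725]) := VW.of base nl_ok fl_ok .nil
  []
  []
  (by decide +kernel) trivial

theorem w4_1942_693 : S (PX [565] [597,629,661,693]) := VW.play 725 (PX [565,725] [597,629,661,693]) (by decide +kernel) v4_1940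

theorem w4_1942_725 : S (PX [565] [597,629,661,725]) := VW.play 693 (PX [565,693] [597,629,661,725]) (by decide +kernel) v4_1941

theorem v4_1942 : VW (PX [565] [597,629,661]) := VW.of base nl_ok fl_ok (.cons 693 725 .nil (.cons 725 693 .nil .nil))
  [(757, (.cons 693 725 .nil (.cons 725 693 .nil .nil))), (789, (.cons 693 725 .nil (.cons 725 693 .nil .nil))), (821, (.cons 693 725 .nil (.cons 725 693 .nil .nil)))]
  [([693], (PX [565] [597,629,661,693])), ([725], (PX [565] [597,629,661,725]))]
  (by decide +kernel) ⟨w4_1942_693, w4_1942_725, trivial⟩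

theorem v4_2009 : VW (PX [629] [597,661,693]) := VW.of base nl_ok fl_ok .nil
  [(725, (.cons 757 789 .nil (.cons 789 757 .nil .nil))), (757, (.cons 725 789 .nil (.cons 789 725 .nil .nil))), (789, (.cons 725 757 .nil (.cons 757 725 .nil .nil)))]
  []
  (by decide +kernel) trivial

theorem w4_2012_565 : S (PX [] [565,597,661]) := VW.play 629 (PX [629] [565,597,661]) (by decide +kernel) v4_1661

theorem w4_2012_629 : S (PX [] [597,629,661]) := VW.play 565 (PX [565] [597,629,661]) (by decide +kernel) v4_1942

theorem w4_2012_693 : S (PX [] [597,661,693]) := VW.play 629 (PX [629] [597,661,693]) (by decide +kernel) v4_2009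

theorem v4_2012 : VW (PX [] [597,661]) := VW.of base nl_ok fl_ok .nil
  [(533, (.cons 565 629 (.cons 469 501 .nil (.cons 501 469 .nil .nil)) (.cons 629 565 (.cons 693 725 .nil (.cons 725 693 .nil .nil)) .nil))), (725, (.cons 629 693 (.cons 533 565 .nil (.cons 565 533 .nil .nil)) (.cons 693 629 (.cons 757 789 .nil (.cons 789 757 .nil .nil)) .nil)))]
  [([565], (PX [] [565,597,661])), ([629], (PX [] [597,629,661])), ([693], (PX [] [597,661,693]))]
  (by decide +kernel) ⟨w4_2012_565, w4_2012_629, w4_2012_693, trivial⟩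

theorem v4_2344 : VW (PX [568,723] [599,630,661,692]) := VW.of base nl_ok fl_ok .nil
  []
  []
  (by decide +kernel) trivial

theorem v4_2345 : VW (PX [568,692] [599,630,661,723]) := VW.of base nl_ok fl_ok .nil
  []
  []
  (by decide +kernel) trivial

theorem w4_2346_692 : S (PX [568] [599,630,661,692]) := VW.play 723 (PX [568,723] [599,630,661,692]) (by decide +kernel) v4_2344

theorem w4_2346_723 : S (PX [568] [599,630,661,723]) := VW.play 692 (PX [568,692] [599,630,661,723]) (by decide +kernel) v4_2345

theorem v4_2346 : VW (PX [568] [599,630,661]) := VW.of base nl_ok fl_ok (.cons 692 723 .nil (.cons 723 692 .nil .nil))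
  [(754, (.cons 692 723 .nil (.cons 723 692 .nil .nil))), (785, (.cons 692 723 .nil (.cons 723 692 .nil .nil))), (816, (.cons 692 723 .nil (.cons 723 692 .nil .nil)))]
  [([692], (PX [568] [599,630,661,692])), ([723], (PX [568] [599,630,661,723]))]
  (by decide +kernel) ⟨w4_2346_692, w4_2346_723, trivial⟩

theorem v4_2361 : VW (PX [630] [599,661,692]) := VW.of base nl_ok fl_ok .nil
  [(723, (.cons 754 785 .nil (.cons 785 754 .nil .nil))), (754, (.cons 723 785 .nil (.cons 785 723 .nil .nil))), (785, (.cons 723 754 .nil (.cons 754 723 .nil .nil)))]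
  []
  (by decide +kernel) trivial

theorem w4_2364_568 : S (PX [] [568,599,661]) := VW.play 630 (PX [630] [568,599,661]) (by decide +kernel) v4_2320

theorem w4_2364_630 : S (PX [] [599,630,661]) := VW.play 568 (PX [568] [599,630,661]) (by decide +kernel) v4_2346

theorem w4_2364_692 : S (PX [] [599,661,692]) := VW.play 630 (PX [630] [599,661,692]) (by decide +kernel) v4_2361

theorem v4_2364 : VW (PX [] [599,661]) := VW.of base nl_ok fl_ok .nil
  [(537, (.cons 568 630 (.cons 475 506 .nil (.cons 506 475 .nil .nil)) (.cons 630 568 (.cons 692 723 .nil (.cons 723 692 .nil .nil)) .nil))), (723, (.cons 630 692 (.cons 537 568 .nil (.cons 568 537 .nil .nil)) (.cons 692 630 (.cons 754 785 .nil (.cons 785 754 .nil .nil)) .nil)))]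
  [([568], (PX [] [568,599,661])), ([630], (PX [] [599,630,661])), ([692], (PX [] [599,661,692]))]
  (by decide +kernel) ⟨w4_2364_568, w4_2364_630, w4_2364_692, trivial⟩

theorem v4_2365 : VW (PX [595,760] [628,661,694,727]) := VW.of base nl_ok fl_ok .nil
  []
  []
  (by decide +kernel) trivial

theorem v4_2366 : VW (PX [595,727] [628,661,694,760]) := VW.of base nl_ok fl_ok .nil
  []
  []
  (by decide +kernel) trivial

theorem w4_2367_727 : S (PX [595] [628,661,694,727]) := VW.play 760 (PX [595,760] [628,661,694,727]) (by decide +kernel) v4_2365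

theorem w4_2367_760 : S (PX [595] [628,661,694,760]) := VW.play 727 (PX [595,727] [628,661,694,760]) (by decide +kernel) v4_2366

theorem v4_2367 : VW (PX [595] [628,661,694]) := VW.of base nl_ok fl_ok (.cons 727 760 .nil (.cons 760 727 .nil .nil))
  [(793, (.cons 727 760 .nil (.cons 760 727 .nil .nil))), (826, (.cons 727 760 .nil (.cons 760 727 .nil .nil))), (859, (.cons 727 760 .nil (.cons 760 727 .nil .nil)))]
  [([727], (PX [595] [628,661,694,727])), ([760], (PX [595] [628,661,694,760]))]
  (by decide +kernel) ⟨w4_2367_727, w4_2367_760, trivial⟩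

theorem v4_2372 : VW (PX [694] [628,661,727]) := VW.of base nl_ok fl_ok .nil
  [(529, (.cons 562 595 .nil (.cons 595 562 .nil .nil))), (562, (.cons 529 595 .nil (.cons 595 529 .nil .nil))), (595, (.cons 529 562 .nil (.cons 562 529 .nil .nil)))]
  []
  (by decide +kernel) trivial

theorem w4_2373_562 : S (PX [] [562,628,661]) := VW.play 595 (PX [595] [562,628,661]) (by decide +kernel) v4_2315

theorem w4_2373_595 : S (PX [] [595,628,661]) := VW.play 562 (PX [562] [595,628,661]) (by decide +kernel) v4_2339

theorem w4_2373_694 : S (PX [] [628,661,694]) := VW.play 595 (PX [595] [628,661,694]) (by decide +kernel) v4_2367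

theorem w4_2373_727 : S (PX [] [628,661,727]) := VW.play 694 (PX [694] [628,661,727]) (by decide +kernel) v4_2372

theorem v4_2373 : VW (PX [] [628,661]) := VW.of base nl_ok fl_ok .nil
  [(529, (.cons 562 595 .nil (.cons 595 562 (.cons 694 727 .nil (.cons 727 694 .nil .nil)) .nil))), (760, (.cons 694 727 (.cons 562 595 .nil (.cons 595 562 .nil .nil)) (.cons 727 694 .nil .nil)))]
  [([562], (PX [] [562,628,661])), ([595], (PX [] [595,628,661])), ([694], (PX [] [628,661,694])), ([727], (PX [] [628,661,727]))]
  (by decide +kernel) ⟨w4_2373_562, w4_2373_595, w4_2373_694, w4_2373_727, trivial⟩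

theorem v4_2240 : VW (PX [597,757] [629,661,693,725]) := VW.of base nl_ok fl_ok .nil
  []
  []
  (by decide +kernel) trivial

theorem v4_2241 : VW (PX [597,725] [629,661,693,757]) := VW.of base nl_ok fl_ok .nil
  []
  []
  (by decide +kernel) trivial

theorem w4_2242_725 : S (PX [597] [629,661,693,725]) := VW.play 757 (PX [597,757] [629,661,693,725]) (by decide +kernel) v4_2240

theorem w4_2242_757 : S (PX [597] [629,661,693,757]) := VW.play 725 (PX [597,725] [629,661,693,757]) (by decide +kernel) v4_2241

theorem v4_2242 : VW (PX [597] [629,661,693]) := VW.of base nl_ok fl_ok (.cons 725 757 .nil (.cons 757 725 .nil .nil))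
  [(789, (.cons 725 757 .nil (.cons 757 725 .nil .nil))), (821, (.cons 725 757 .nil (.cons 757 725 .nil .nil))), (853, (.cons 725 757 .nil (.cons 757 725 .nil .nil)))]
  [([725], (PX [597] [629,661,693,725])), ([757], (PX [597] [629,661,693,757]))]
  (by decide +kernel) ⟨w4_2242_725, w4_2242_757, trivial⟩

theorem v4_2247 : VW (PX [693] [629,661,725]) := VW.of base nl_ok fl_ok .nil
  [(533, (.cons 565 597 .nil (.cons 597 565 .nil .nil))), (565, (.cons 533 597 .nil (.cons 597 533 .nil .nil))), (597, (.cons 533 565 .nil (.cons 565 533 .nil .nil)))]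
  []
  (by decide +kernel) trivial

theorem w4_2259_565 : S (PX [] [565,629,661]) := VW.play 597 (PX [597] [565,629,661]) (by decide +kernel) v4_1723

theorem w4_2259_597 : S (PX [] [597,629,661]) := VW.play 565 (PX [565] [597,629,661]) (by decide +kernel) v4_1942

theorem w4_2259_693 : S (PX [] [629,661,693]) := VW.play 597 (PX [597] [629,661,693]) (by decide +kernel) v4_2242

theorem w4_2259_725 : S (PX [] [629,661,725]) := VW.play 693 (PX [693] [629,661,725]) (by decide +kernel) v4_2247

theorem v4_2259 : VW (PX [] [629,661]) := VW.of base nl_ok fl_ok .nil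
  [(533, (.cons 565 597 .nil (.cons 597 565 (.cons 693 725 .nil (.cons 725 693 .nil .nil)) .nil))), (757, (.cons 693 725 (.cons 565 597 .nil (.cons 597 565 .nil .nil)) (.cons 725 693 .nil .nil)))]
  [([565], (PX [] [565,629,661])), ([597], (PX [] [597,629,661])), ([693], (PX [] [629,661,693])), ([725], (PX [] [629,661,725]))]
  (by decide +kernel) ⟨w4_2259_565, w4_2259_597, w4_2259_693, w4_2259_725, trivial⟩

theorem v4_2374 : VW (PX [599,754] [630,661,692,723]) := VW.of base nl_ok fl_ok .nil
  []
  []
  (by decide +kernel) trivial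

theorem v4_2375 : VW (PX [599,723] [630,661,692,754]) := VW.of base nl_ok fl_ok .nil
  []
  []
  (by decide +kernel) trivial

theorem w4_2376_723 : S (PX [599] [630,661,692,723]) := VW.play 754 (PX [599,754] [630,661,692,723]) (by decide +kernel) v4_2374

theorem w4_2376_754 : S (PX [599] [630,661,692,754]) := VW.play 723 (PX [599,723] [630,661,692,754]) (by decide +kernel) v4_2375

theorem v4_2376 : VW (PX [599] [630,661,692]) := VW.of base nl_ok fl_ok (.cons 723 754 .nil (.cons 754 723 .nil .nil))
  [(785, (.cons 723 754 .nil (.cons 754 723 .nil .nil))), (816, (.cons 723 754 .nil (.cons 754 723 .nil .nil))), (847, (.cons 723 754 .nil (.cons 754 723 .nil .nil)))]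
  [([723], (PX [599] [630,661,692,723])), ([754], (PX [599] [630,661,692,754]))]
  (by decide +kernel) ⟨w4_2376_723, w4_2376_754, trivial⟩

theorem v4_2381 : VW (PX [692] [630,661,723]) := VW.of base nl_ok fl_ok .nil
  [(537, (.cons 568 599 .nil (.cons 599 568 .nil .nil))), (568, (.cons 537 599 .nil (.cons 599 537 .nil .nil))), (599, (.cons 537 568 .nil (.cons 568 537 .nil .nil)))]
  []
  (by decide +kernel) trivial

theorem w4_2382_568 : S (PX [] [568,630,661]) := VW.play 599 (PX [599] [568,630,661]) (by decide +kernel) v4_2335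

theorem w4_2382_599 : S (PX [] [599,630,661]) := VW.play 568 (PX [568] [599,630,661]) (by decide +kernel) v4_2346

theorem w4_2382_692 : S (PX [] [630,661,692]) := VW.play 599 (PX [599] [630,661,692]) (by decide +kernel) v4_2376

theorem w4_2382_723 : S (PX [] [630,661,723]) := VW.play 692 (PX [692] [630,661,723]) (by decide +kernel) v4_2381

theorem v4_2382 : VW (PX [] [630,661]) := VW.of base nl_ok fl_ok .nil
  [(537, (.cons 568 599 .nil (.cons 599 568 (.cons 692 723 .nil (.cons 723 692 .nil .nil)) .nil))), (754, (.cons 692 723 (.cons 568 599 .nil (.cons 599 568 .nil .nil)) (.cons 723 692 .nil .nil)))]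
  [([568], (PX [] [568,630,661])), ([599], (PX [] [599,630,661])), ([692], (PX [] [630,661,692])), ([723], (PX [] [630,661,723]))]
  (by decide +kernel) ⟨w4_2382_568, w4_2382_599, w4_2382_692, w4_2382_723, trivial⟩

theorem v4_2383 : VW (PX [] [657,661]) := VW.of base nl_ok fl_ok .nil
  [(658, (.cons 659 660 (.cons 655 656 .nil (.cons 656 655 .nil .nil)) (.cons 660 659 .nil .nil))), (659, (.cons 658 660 (.cons 655 656 .nil (.cons 656 655 .nil .nil)) (.cons 660 658 (.cons 662 663 .nil (.cons 663 662 .nil .nil)) .nil))), (660, (.cons 658 659 .nil (.cons 659 658 (.cons 662 663 .nil (.cons 663 662 .nil .nil)) .nil)))]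
  []
  (by decide +kernel) trivial

theorem v4_2387 : VW (PX [660] [658,659,661]) := VW.of base nl_ok fl_ok .nil
  [(655, (.cons 656 657 .nil (.cons 657 656 .nil .nil))), (656, (.cons 655 657 .nil (.cons 657 655 .nil .nil))), (657, (.cons 655 656 .nil (.cons 656 655 .nil .nil)))]
  []
  (by decide +kernel) trivial

theorem v4_2416 : VW (PX [659] [658,660,661]) := VW.of base nl_ok fl_ok .nil
  [(662, (.cons 663 664 .nil (.cons 664 663 .nil .nil))), (663, (.cons 662 664 .nil (.cons 664 662 .nil .nil))), (664, (.cons 662 663 .nil (.cons 663 662 .nil .nil)))]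
  []
  (by decide +kernel) trivial

theorem w4_2419_659 : S (PX [] [658,659,661]) := VW.play 660 (PX [660] [658,659,661]) (by decide +kernel) v4_2387

theorem w4_2419_660 : S (PX [] [658,660,661]) := VW.play 659 (PX [659] [658,660,661]) (by decide +kernel) v4_2416

theorem v4_2419 : VW (PX [] [658,661]) := VW.of base nl_ok fl_ok .nil
  [(657, (.cons 659 660 (.cons 655 656 .nil (.cons 656 655 .nil .nil)) (.cons 660 659 .nil .nil))), (662, (.cons 659 660 .nil (.cons 660 659 (.cons 663 664 .nil (.cons 664 663 .nil .nil)) .nil)))]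
  [([659], (PX [] [658,659,661])), ([660], (PX [] [658,660,661]))]
  (by decide +kernel) ⟨w4_2419_659, w4_2419_660, trivial⟩

theorem v4_2420 : VW (PX [658,663] [659,660,661,662]) := VW.of base nl_ok fl_ok .nil
  []
  []
  (by decide +kernel) trivial

theorem v4_2421 : VW (PX [658,662] [659,660,661,663]) := VW.of base nl_ok fl_ok .nil
  []
  []
  (by decide +kernel) trivial

theorem w4_2422_662 : S (PX [658] [659,660,661,662]) := VW.play 663 (PX [658,663] [659,660,661,662]) (by decide +kernel) v4_2420

theorem w4_2422_663 : S (PX [658] [659,660,661,663]) := VW.play 662 (PX [658,662] [659,660,661,663]) (by decide +kernel) v4_2421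

theorem v4_2422 : VW (PX [658] [659,660,661]) := VW.of base nl_ok fl_ok (.cons 662 663 .nil (.cons 663 662 .nil .nil))
  [(664, (.cons 662 663 .nil (.cons 663 662 .nil .nil))), (665, (.cons 662 663 .nil (.cons 663 662 .nil .nil))), (666, (.cons 662 663 .nil (.cons 663 662 .nil .nil)))]
  [([662], (PX [658] [659,660,661,662])), ([663], (PX [658] [659,660,661,663]))]
  (by decide +kernel) ⟨w4_2422_662, w4_2422_663, trivial⟩

theorem v4_2425 : VW (PX [660] [659,661,662]) := VW.of base nl_ok fl_ok .nil
  [(663, (.cons 664 665 .nil (.cons 665 664 .nil .nil))), (664, (.cons 663 665 .nil (.cons 665 663 .nil .nil))), (665, (.cons 663 664 .nil (.cons 664 663 .nil .nil)))]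
  []
  (by decide +kernel) trivial

theorem w4_2428_658 : S (PX [] [658,659,661]) := VW.play 660 (PX [660] [658,659,661]) (by decide +kernel) v4_2387

theorem w4_2428_660 : S (PX [] [659,660,661]) := VW.play 658 (PX [658] [659,660,661]) (by decide +kernel) v4_2422

theorem w4_2428_662 : S (PX [] [659,661,662]) := VW.play 660 (PX [660] [659,661,662]) (by decide +kernel) v4_2425

theorem v4_2428 : VW (PX [] [659,661]) := VW.of base nl_ok fl_ok .nil
  [(657, (.cons 658 660 (.cons 655 656 .nil (.cons 656 655 .nil .nil)) (.cons 660 658 (.cons 662 663 .nil (.cons 663 662 .nil .nil)) .nil))), (663, (.cons 660 662 (.cons 657 658 .nil (.cons 658 657 .nil .nil)) (.cons 662 660 (.cons 664 665 .nil (.cons 665 664 .nil .nil)) .nil)))]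
  [([658], (PX [] [658,659,661])), ([660], (PX [] [659,660,661])), ([662], (PX [] [659,661,662]))]
  (by decide +kernel) ⟨w4_2428_658, w4_2428_660, w4_2428_662, trivial⟩

theorem v4_2429 : VW (PX [659,664] [660,661,662,663]) := VW.of base nl_ok fl_ok .nil
  []
  []
  (by decide +kernel) trivial

theorem v4_2430 : VW (PX [659,663] [660,661,662,664]) := VW.of base nl_ok fl_ok .nil
  []
  []
  (by decide +kernel) trivial

theorem w4_2431_663 : S (PX [659] [660,661,662,663]) := VW.play 664 (PX [659,664] [660,661,662,663]) (by decide +kernel) v4_2429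

theorem w4_2431_664 : S (PX [659] [660,661,662,664]) := VW.play 663 (PX [659,663] [660,661,662,664]) (by decide +kernel) v4_2430

theorem v4_2431 : VW (PX [659] [660,661,662]) := VW.of base nl_ok fl_ok (.cons 663 664 .nil (.cons 664 663 .nil .nil))
  [(665, (.cons 663 664 .nil (.cons 664 663 .nil .nil))), (666, (.cons 663 664 .nil (.cons 664 663 .nil .nil))), (667, (.cons 663 664 .nil (.cons 664 663 .nil .nil)))]
  [([663], (PX [659] [660,661,662,663])), ([664], (PX [659] [660,661,662,664]))]
  (by decide +kernel) ⟨w4_2431_663, w4_2431_664, trivial⟩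

theorem v4_2436 : VW (PX [662] [660,661,663]) := VW.of base nl_ok fl_ok .nil
  [(657, (.cons 658 659 .nil (.cons 659 658 .nil .nil))), (658, (.cons 657 659 .nil (.cons 659 657 .nil .nil))), (659, (.cons 657 658 .nil (.cons 658 657 .nil .nil)))]
  []
  (by decide +kernel) trivial

theorem w4_2448_658 : S (PX [] [658,660,661]) := VW.play 659 (PX [659] [658,660,661]) (by decide +kernel) v4_2416

theorem w4_2448_659 : S (PX [] [659,660,661]) := VW.play 658 (PX [658] [659,660,661]) (by decide +kernel) v4_2422

theorem w4_2448_662 : S (PX [] [660,661,662]) := VW.play 659 (PX [659] [660,661,662]) (by decide +kernel) v4_2431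

theorem w4_2448_663 : S (PX [] [660,661,663]) := VW.play 662 (PX [662] [660,661,663]) (by decide +kernel) v4_2436

theorem v4_2448 : VW (PX [] [660,661]) := VW.of base nl_ok fl_ok .nil
  [(657, (.cons 658 659 .nil (.cons 659 658 (.cons 662 663 .nil (.cons 663 662 .nil .nil)) .nil))), (664, (.cons 662 663 (.cons 658 659 .nil (.cons 659 658 .nil .nil)) (.cons 663 662 .nil .nil)))]
  [([658], (PX [] [658,660,661])), ([659], (PX [] [659,660,661])), ([662], (PX [] [660,661,662])), ([663], (PX [] [660,661,663]))]
  (by decide +kernel) ⟨w4_2448_658, w4_2448_659, w4_2448_662, w4_2448_663, trivial⟩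

theorem v4_2449 : VW (PX [660,664] [659,661,662,663]) := VW.of base nl_ok fl_ok .nil
  []
  []
  (by decide +kernel) trivial

theorem w4_2450_659 : S (PX [664] [659,661,662,663]) := VW.play 660 (PX [660,664] [659,661,662,663]) (by decide +kernel) v4_2449

theorem w4_2450_660 : S (PX [664] [660,661,662,663]) := VW.play 659 (PX [659,664] [660,661,662,663]) (by decide +kernel) v4_2429

theorem v4_2450 : VW (PX [664] [661,662,663]) := VW.of base nl_ok fl_ok (.cons 659 660 .nil (.cons 660 659 .nil .nil))
  [(656, (.cons 659 660 .nil (.cons 660 659 .nil .nil))), (657, (.cons 659 660 .nil (.cons 660 659 .nil .nil))), (658, (.cons 659 660 .nil (.cons 660 659 .nil .nil)))]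
  [([659], (PX [664] [659,661,662,663])), ([660], (PX [664] [660,661,662,663]))]
  (by decide +kernel) ⟨w4_2450_659, w4_2450_660, trivial⟩

theorem v4_2451 : VW (PX [663] [661,662,664]) := VW.of base nl_ok fl_ok .nil
  [(658, (.cons 659 660 .nil (.cons 660 659 .nil .nil))), (659, (.cons 658 660 .nil (.cons 660 658 .nil .nil))), (660, (.cons 658 659 .nil (.cons 659 658 .nil .nil)))]
  []
  (by decide +kernel) trivial

theorem w4_2467_659 : S (PX [] [659,661,662]) := VW.play 660 (PX [660] [659,661,662]) (by decide +kernel) v4_2425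

theorem w4_2467_660 : S (PX [] [660,661,662]) := VW.play 659 (PX [659] [660,661,662]) (by decide +kernel) v4_2431

theorem w4_2467_663 : S (PX [] [661,662,663]) := VW.play 664 (PX [664] [661,662,663]) (by decide +kernel) v4_2450

theorem w4_2467_664 : S (PX [] [661,662,664]) := VW.play 663 (PX [663] [661,662,664]) (by decide +kernel) v4_2451

theorem v4_2467 : VW (PX [] [661,662]) := VW.of base nl_ok fl_ok .nil
  [(658, (.cons 659 660 .nil (.cons 660 659 (.cons 663 664 .nil (.cons 664 663 .nil .nil)) .nil))), (665, (.cons 663 664 (.cons 659 660 .nil (.cons 660 659 .nil .nil)) (.cons 664 663 .nil .nil)))]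
  [([659], (PX [] [659,661,662])), ([660], (PX [] [660,661,662])), ([663], (PX [] [661,662,663])), ([664], (PX [] [661,662,664]))]
  (by decide +kernel) ⟨w4_2467_659, w4_2467_660, w4_2467_663, w4_2467_664, trivial⟩

theorem v4_2468 : VW (PX [662] [661,663,664]) := VW.of base nl_ok fl_ok .nil
  [(665, (.cons 666 667 .nil (.cons 667 666 .nil .nil))), (666, (.cons 665 667 .nil (.cons 667 665 .nil .nil))), (667, (.cons 665 666 .nil (.cons 666 665 .nil .nil)))]
  []
  (by decide +kernel) trivial

theorem w4_2471_660 : S (PX [] [660,661,663]) := VW.play 662 (PX [662] [660,661,663]) (by decide +kernel) v4_2436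

theorem w4_2471_662 : S (PX [] [661,662,663]) := VW.play 664 (PX [664] [661,662,663]) (by decide +kernel) v4_2450

theorem w4_2471_664 : S (PX [] [661,663,664]) := VW.play 662 (PX [662] [661,663,664]) (by decide +kernel) v4_2468

theorem v4_2471 : VW (PX [] [661,663]) := VW.of base nl_ok fl_ok .nil
  [(659, (.cons 660 662 (.cons 657 658 .nil (.cons 658 657 .nil .nil)) (.cons 662 660 (.cons 664 665 .nil (.cons 665 664 .nil .nil)) .nil))), (665, (.cons 662 664 (.cons 659 660 .nil (.cons 660 659 .nil .nil)) (.cons 664 662 (.cons 666 667 .nil (.cons 667 666 .nil .nil)) .nil)))]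
  [([660], (PX [] [660,661,663])), ([662], (PX [] [661,662,663])), ([664], (PX [] [661,663,664]))]
  (by decide +kernel) ⟨w4_2471_660, w4_2471_662, w4_2471_664, trivial⟩

theorem w4_2472_662 : S (PX [] [661,662,664]) := VW.play 663 (PX [663] [661,662,664]) (by decide +kernel) v4_2451

theorem w4_2472_663 : S (PX [] [661,663,664]) := VW.play 662 (PX [662] [661,663,664]) (by decide +kernel) v4_2468

theorem v4_2472 : VW (PX [] [661,664]) := VW.of base nl_ok fl_ok .nil
  [(660, (.cons 662 663 (.cons 658 659 .nil (.cons 659 658 .nil .nil)) (.cons 663 662 .nil .nil))), (665, (.cons 662 663 .nil (.cons 663 662 (.cons 666 667 .nil (.cons 667 666 .nil .nil)) .nil)))]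
  [([662], (PX [] [661,662,664])), ([663], (PX [] [661,663,664]))]
  (by decide +kernel) ⟨w4_2472_662, w4_2472_663, trivial⟩

theorem v4_2473 : VW (PX [] [661,665]) := VW.of base nl_ok fl_ok .nil
  [(662, (.cons 663 664 (.cons 659 660 .nil (.cons 660 659 .nil .nil)) (.cons 664 663 .nil .nil))), (663, (.cons 662 664 (.cons 659 660 .nil (.cons 660 659 .nil .nil)) (.cons 664 662 (.cons 666 667 .nil (.cons 667 666 .nil .nil)) .nil))), (664, (.cons 662 663 .nil (.cons 663 662 (.cons 666 667 .nil (.cons 667 666 .nil .nil)) .nil)))]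
  []
  (by decide +kernel) trivial

theorem v4_2474 : VW (PX [630,785] [661,692,723,754]) := VW.of base nl_ok fl_ok .nil
  []
  []
  (by decide +kernel) trivial

theorem v4_2475 : VW (PX [630,754] [661,692,723,785]) := VW.of base nl_ok fl_ok .nil
  []
  []
  (by decide +kernel) trivial

theorem w4_2476_754 : S (PX [630] [661,692,723,754]) := VW.play 785 (PX [630,785] [661,692,723,754]) (by decide +kernel) v4_2474

theorem w4_2476_785 : S (PX [630] [661,692,723,785]) := VW.play 754 (PX [630,754] [661,692,723,785]) (by decide +kernel) v4_2475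

theorem v4_2476 : VW (PX [630] [661,692,723]) := VW.of base nl_ok fl_ok (.cons 754 785 .nil (.cons 785 754 .nil .nil))
  [(816, (.cons 754 785 .nil (.cons 785 754 .nil .nil))), (847, (.cons 754 785 .nil (.cons 785 754 .nil .nil))), (878, (.cons 754 785 .nil (.cons 785 754 .nil .nil)))]
  [([754], (PX [630] [661,692,723,754])), ([785], (PX [630] [661,692,723,785]))]
  (by decide +kernel) ⟨w4_2476_754, w4_2476_785, trivial⟩

theorem v4_2481 : VW (PX [723] [661,692,754]) := VW.of base nl_ok fl_ok .nil
  [(568, (.cons 599 630 .nil (.cons 630 599 .nil .nil))), (599, (.cons 568 630 .nil (.cons 630 568 .nil .nil))), (630, (.cons 568 599 .nil (.cons 599 568 .nil .nil)))]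
  []
  (by decide +kernel) trivial

theorem w4_2493_599 : S (PX [] [599,661,692]) := VW.play 630 (PX [630] [599,661,692]) (by decide +kernel) v4_2361

theorem w4_2493_630 : S (PX [] [630,661,692]) := VW.play 599 (PX [599] [630,661,692]) (by decide +kernel) v4_2376

theorem w4_2493_723 : S (PX [] [661,692,723]) := VW.play 630 (PX [630] [661,692,723]) (by decide +kernel) v4_2476

theorem w4_2493_754 : S (PX [] [661,692,754]) := VW.play 723 (PX [723] [661,692,754]) (by decide +kernel) v4_2481

theorem v4_2493 : VW (PX [] [661,692]) := VW.of base nl_ok fl_ok .nil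
  [(568, (.cons 599 630 .nil (.cons 630 599 (.cons 723 754 .nil (.cons 754 723 .nil .nil)) .nil))), (785, (.cons 723 754 (.cons 599 630 .nil (.cons 630 599 .nil .nil)) (.cons 754 723 .nil .nil)))]
  [([599], (PX [] [599,661,692])), ([630], (PX [] [630,661,692])), ([723], (PX [] [661,692,723])), ([754], (PX [] [661,692,754]))]
  (by decide +kernel) ⟨w4_2493_599, w4_2493_630, w4_2493_723, w4_2493_754, trivial⟩

theorem v4_2494 : VW (PX [629,789] [661,693,725,757]) := VW.of base nl_ok fl_ok .nil
  []
  []
  (by decide +kernel) trivial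

theorem v4_2495 : VW (PX [629,757] [661,693,725,789]) := VW.of base nl_ok fl_ok .nil
  []
  []
  (by decide +kernel) trivial

theorem w4_2496_757 : S (PX [629] [661,693,725,757]) := VW.play 789 (PX [629,789] [661,693,725,757]) (by decide +kernel) v4_2494

theorem w4_2496_789 : S (PX [629] [661,693,725,789]) := VW.play 757 (PX [629,757] [661,693,725,789]) (by decide +kernel) v4_2495

theorem v4_2496 : VW (PX [629] [661,693,725]) := VW.of base nl_ok fl_ok (.cons 757 789 .nil (.cons 789 757 .nil .nil))
  [(821, (.cons 757 789 .nil (.cons 789 757 .nil .nil))), (853, (.cons 757 789 .nil (.cons 789 757 .nil .nil))), (885, (.cons 757 789 .nil (.cons 789 757 .nil .nil)))]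
  [([757], (PX [629] [661,693,725,757])), ([789], (PX [629] [661,693,725,789]))]
  (by decide +kernel) ⟨w4_2496_757, w4_2496_789, trivial⟩

theorem v4_2501 : VW (PX [725] [661,693,757]) := VW.of base nl_ok fl_ok .nil
  [(565, (.cons 597 629 .nil (.cons 629 597 .nil .nil))), (597, (.cons 565 629 .nil (.cons 629 565 .nil .nil))), (629, (.cons 565 597 .nil (.cons 597 565 .nil .nil)))]
  []
  (by decide +kernel) trivial

theorem w4_2513_597 : S (PX [] [597,661,693]) := VW.play 629 (PX [629] [597,661,693]) (by decide +kernel) v4_2009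

theorem w4_2513_629 : S (PX [] [629,661,693]) := VW.play 597 (PX [597] [629,661,693]) (by decide +kernel) v4_2242

theorem w4_2513_725 : S (PX [] [661,693,725]) := VW.play 629 (PX [629] [661,693,725]) (by decide +kernel) v4_2496

theorem w4_2513_757 : S (PX [] [661,693,757]) := VW.play 725 (PX [725] [661,693,757]) (by decide +kernel) v4_2501

theorem v4_2513 : VW (PX [] [661,693]) := VW.of base nl_ok fl_ok .nil
  [(565, (.cons 597 629 .nil (.cons 629 597 (.cons 725 757 .nil (.cons 757 725 .nil .nil)) .nil))), (789, (.cons 725 757 (.cons 597 629 .nil (.cons 629 597 .nil .nil)) (.cons 757 725 .nil .nil)))]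
  [([597], (PX [] [597,661,693])), ([629], (PX [] [629,661,693])), ([725], (PX [] [661,693,725])), ([757], (PX [] [661,693,757]))]
  (by decide +kernel) ⟨w4_2513_597, w4_2513_629, w4_2513_725, w4_2513_757, trivial⟩

theorem v4_2514 : VW (PX [628,760] [595,661,694,727]) := VW.of base nl_ok fl_ok .nil
  []
  []
  (by decide +kernel) trivial

theorem w4_2515_595 : S (PX [760] [595,661,694,727]) := VW.play 628 (PX [628,760] [595,661,694,727]) (by decide +kernel) v4_2514

theorem w4_2515_628 : S (PX [760] [628,661,694,727]) := VW.play 595 (PX [595,760] [628,661,694,727]) (by decide +kernel) v4_2365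

theorem v4_2515 : VW (PX [760] [661,694,727]) := VW.of base nl_ok fl_ok (.cons 595 628 .nil (.cons 628 595 .nil .nil))
  [(496, (.cons 595 628 .nil (.cons 628 595 .nil .nil))), (529, (.cons 595 628 .nil (.cons 628 595 .nil .nil))), (562, (.cons 595 628 .nil (.cons 628 595 .nil .nil)))]
  [([595], (PX [760] [595,661,694,727])), ([628], (PX [760] [628,661,694,727]))]
  (by decide +kernel) ⟨w4_2515_595, w4_2515_628, trivial⟩

theorem v4_2516 : VW (PX [727] [661,694,760]) := VW.of base nl_ok fl_ok .nil
  [(562, (.cons 595 628 .nil (.cons 628 595 .nil .nil))), (595, (.cons 562 628 .nil (.cons 628 562 .nil .nil))), (628, (.cons 562 595 .nil (.cons 595 562 .nil .nil)))]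
  []
  (by decide +kernel) trivial

theorem w4_2532_595 : S (PX [] [595,661,694]) := VW.play 628 (PX [628] [595,661,694]) (by decide +kernel) v4_2340

theorem w4_2532_628 : S (PX [] [628,661,694]) := VW.play 595 (PX [595] [628,661,694]) (by decide +kernel) v4_2367

theorem w4_2532_727 : S (PX [] [661,694,727]) := VW.play 760 (PX [760] [661,694,727]) (by decide +kernel) v4_2515

theorem w4_2532_760 : S (PX [] [661,694,760]) := VW.play 727 (PX [727] [661,694,760]) (by decide +kernel) v4_2516

theorem v4_2532 : VW (PX [] [661,694]) := VW.of base nl_ok fl_ok .nil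
  [(562, (.cons 595 628 .nil (.cons 628 595 (.cons 727 760 .nil (.cons 760 727 .nil .nil)) .nil))), (793, (.cons 727 760 (.cons 595 628 .nil (.cons 628 595 .nil .nil)) (.cons 760 727 .nil .nil)))]
  [([595], (PX [] [595,661,694])), ([628], (PX [] [628,661,694])), ([727], (PX [] [661,694,727])), ([760], (PX [] [661,694,760]))]
  (by decide +kernel) ⟨w4_2532_595, w4_2532_628, w4_2532_727, w4_2532_760, trivial⟩

theorem v4_2533 : VW (PX [692] [661,723,754]) := VW.of base nl_ok fl_ok .nil
  [(785, (.cons 816 847 .nil (.cons 847 816 .nil .nil))), (816, (.cons 785 847 .nil (.cons 847 785 .nil .nil))), (847, (.cons 785 816 .nil (.cons 816 785 .nil .nil)))]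
  []
  (by decide +kernel) trivial

theorem w4_2536_630 : S (PX [] [630,661,723]) := VW.play 692 (PX [692] [630,661,723]) (by decide +kernel) v4_2381

theorem w4_2536_692 : S (PX [] [661,692,723]) := VW.play 630 (PX [630] [661,692,723]) (by decide +kernel) v4_2476

theorem w4_2536_754 : S (PX [] [661,723,754]) := VW.play 692 (PX [692] [661,723,754]) (by decide +kernel) v4_2533

theorem v4_2536 : VW (PX [] [661,723]) := VW.of base nl_ok fl_ok .nil
  [(599, (.cons 630 692 (.cons 537 568 .nil (.cons 568 537 .nil .nil)) (.cons 692 630 (.cons 754 785 .nil (.cons 785 754 .nil .nil)) .nil))), (785, (.cons 692 754 (.cons 599 630 .nil (.cons 630 599 .nil .nil)) (.cons 754 692 (.cons 816 847 .nil (.cons 847 816 .nil .nil)) .nil)))]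
  [([630], (PX [] [630,661,723])), ([692], (PX [] [661,692,723])), ([754], (PX [] [661,723,754]))]
  (by decide +kernel) ⟨w4_2536_630, w4_2536_692, w4_2536_754, trivial⟩

theorem v4_2537 : VW (PX [693] [661,725,757]) := VW.of base nl_ok fl_ok .nil
  [(789, (.cons 821 853 .nil (.cons 853 821 .nil .nil))), (821, (.cons 789 853 .nil (.cons 853 789 .nil .nil))), (853, (.cons 789 821 .nil (.cons 821 789 .nil .nil)))]
  []
  (by decide +kernel) trivial

theorem w4_2540_629 : S (PX [] [629,661,725]) := VW.play 693 (PX [693] [629,661,725]) (by decide +kernel) v4_2247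

theorem w4_2540_693 : S (PX [] [661,693,725]) := VW.play 629 (PX [629] [661,693,725]) (by decide +kernel) v4_2496

theorem w4_2540_757 : S (PX [] [661,725,757]) := VW.play 693 (PX [693] [661,725,757]) (by decide +kernel) v4_2537

theorem v4_2540 : VW (PX [] [661,725]) := VW.of base nl_ok fl_ok .nil
  [(597, (.cons 629 693 (.cons 533 565 .nil (.cons 565 533 .nil .nil)) (.cons 693 629 (.cons 757 789 .nil (.cons 789 757 .nil .nil)) .nil))), (789, (.cons 693 757 (.cons 597 629 .nil (.cons 629 597 .nil .nil)) (.cons 757 693 (.cons 821 853 .nil (.cons 853 821 .nil .nil)) .nil)))]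
  [([629], (PX [] [629,661,725])), ([693], (PX [] [661,693,725])), ([757], (PX [] [661,725,757]))]
  (by decide +kernel) ⟨w4_2540_629, w4_2540_693, w4_2540_757, trivial⟩

theorem v4_2541 : VW (PX [694] [661,727,760]) := VW.of base nl_ok fl_ok .nil
  [(793, (.cons 826 859 .nil (.cons 859 826 .nil .nil))), (826, (.cons 793 859 .nil (.cons 859 793 .nil .nil))), (859, (.cons 793 826 .nil (.cons 826 793 .nil .nil)))]
  []
  (by decide +kernel) trivial

theorem w4_2544_628 : S (PX [] [628,661,727]) := VW.play 694 (PX [694] [628,661,727]) (by decide +kernel) v4_2372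

theorem w4_2544_694 : S (PX [] [661,694,727]) := VW.play 760 (PX [760] [661,694,727]) (by decide +kernel) v4_2515

theorem w4_2544_760 : S (PX [] [661,727,760]) := VW.play 694 (PX [694] [661,727,760]) (by decide +kernel) v4_2541

theorem v4_2544 : VW (PX [] [661,727]) := VW.of base nl_ok fl_ok .nil
  [(595, (.cons 628 694 (.cons 529 562 .nil (.cons 562 529 .nil .nil)) (.cons 694 628 (.cons 760 793 .nil (.cons 793 760 .nil .nil)) .nil))), (793, (.cons 694 760 (.cons 595 628 .nil (.cons 628 595 .nil .nil)) (.cons 760 694 (.cons 826 859 .nil (.cons 859 826 .nil .nil)) .nil)))]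
  [([628], (PX [] [628,661,727])), ([694], (PX [] [661,694,727])), ([760], (PX [] [661,727,760]))]
  (by decide +kernel) ⟨w4_2544_628, w4_2544_694, w4_2544_760, trivial⟩

theorem w4_2545_692 : S (PX [] [661,692,754]) := VW.play 723 (PX [723] [661,692,754]) (by decide +kernel) v4_2481

theorem w4_2545_723 : S (PX [] [661,723,754]) := VW.play 692 (PX [692] [661,723,754]) (by decide +kernel) v4_2533

theorem v4_2545 : VW (PX [] [661,754]) := VW.of base nl_ok fl_ok .nil
  [(630, (.cons 692 723 (.cons 568 599 .nil (.cons 599 568 .nil .nil)) (.cons 723 692 .nil .nil))), (785, (.cons 692 723 .nil (.cons 723 692 (.cons 816 847 .nil (.cons 847 816 .nil .nil)) .nil)))]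
  [([692], (PX [] [661,692,754])), ([723], (PX [] [661,723,754]))]
  (by decide +kernel) ⟨w4_2545_692, w4_2545_723, trivial⟩

theorem w4_2546_693 : S (PX [] [661,693,757]) := VW.play 725 (PX [725] [661,693,757]) (by decide +kernel) v4_2501

theorem w4_2546_725 : S (PX [] [661,725,757]) := VW.play 693 (PX [693] [661,725,757]) (by decide +kernel) v4_2537

theorem v4_2546 : VW (PX [] [661,757]) := VW.of base nl_ok fl_ok .nil
  [(629, (.cons 693 725 (.cons 565 597 .nil (.cons 597 565 .nil .nil)) (.cons 725 693 .nil .nil))), (789, (.cons 693 725 .nil (.cons 725 693 (.cons 821 853 .nil (.cons 853 821 .nil .nil)) .nil)))]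
  [([693], (PX [] [661,693,757])), ([725], (PX [] [661,725,757]))]
  (by decide +kernel) ⟨w4_2546_693, w4_2546_725, trivial⟩

theorem w4_2547_694 : S (PX [] [661,694,760]) := VW.play 727 (PX [727] [661,694,760]) (by decide +kernel) v4_2516

theorem w4_2547_727 : S (PX [] [661,727,760]) := VW.play 694 (PX [694] [661,727,760]) (by decide +kernel) v4_2541

theorem v4_2547 : VW (PX [] [661,760]) := VW.of base nl_ok fl_ok .nil
  [(628, (.cons 694 727 (.cons 562 595 .nil (.cons 595 562 .nil .nil)) (.cons 727 694 .nil .nil))), (793, (.cons 694 727 .nil (.cons 727 694 (.cons 826 859 .nil (.cons 859 826 .nil .nil)) .nil)))]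
  [([694], (PX [] [661,694,760])), ([727], (PX [] [661,727,760]))]
  (by decide +kernel) ⟨w4_2547_694, w4_2547_727, trivial⟩

theorem v4_2548 : VW (PX [] [661,785]) := VW.of base nl_ok fl_ok .nil
  [(692, (.cons 723 754 (.cons 599 630 .nil (.cons 630 599 .nil .nil)) (.cons 754 723 .nil .nil))), (723, (.cons 692 754 (.cons 599 630 .nil (.cons 630 599 .nil .nil)) (.cons 754 692 (.cons 816 847 .nil (.cons 847 816 .nil .nil)) .nil))), (754, (.cons 692 723 .nil (.cons 723 692 (.cons 816 847 .nil (.cons 847 816 .nil .nil)) .nil)))]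
  []
  (by decide +kernel) trivial

theorem v4_2549 : VW (PX [] [661,789]) := VW.of base nl_ok fl_ok .nil
  [(693, (.cons 725 757 (.cons 597 629 .nil (.cons 629 597 .nil .nil)) (.cons 757 725 .nil .nil))), (725, (.cons 693 757 (.cons 597 629 .nil (.cons 629 597 .nil .nil)) (.cons 757 693 (.cons 821 853 .nil (.cons 853 821 .nil .nil)) .nil))), (757, (.cons 693 725 .nil (.cons 725 693 (.cons 821 853 .nil (.cons 853 821 .nil .nil)) .nil)))]
  []
  (by decide +kernel) trivial

theorem v4_2550 : VW (PX [] [661,793]) := VW.of base nl_ok fl_ok .nil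
  [(694, (.cons 727 760 (.cons 595 628 .nil (.cons 628 595 .nil .nil)) (.cons 760 727 .nil .nil))), (727, (.cons 694 760 (.cons 595 628 .nil (.cons 628 595 .nil .nil)) (.cons 760 694 (.cons 826 859 .nil (.cons 859 826 .nil .nil)) .nil))), (760, (.cons 694 727 .nil (.cons 727 694 (.cons 826 859 .nil (.cons 859 826 .nil .nil)) .nil)))]
  []
  (by decide +kernel) trivial

theorem r529 : S (Nat.lor X2 (bits [661, 529])) := VW.play 394 (PX [] [529,661]) (by decide +kernel) v4_2295

theorem r533 : S (Nat.lor X2 (bits [661, 533])) := VW.play 394 (PX [] [533,661]) (by decide +kernel) v4_1462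

theorem r537 : S (Nat.lor X2 (bits [661, 537])) := VW.play 394 (PX [] [537,661]) (by decide +kernel) v4_2296

theorem r562 : S (Nat.lor X2 (bits [661, 562])) := VW.play 394 (PX [] [562,661]) (by decide +kernel) v4_2316

theorem r565 : S (Nat.lor X2 (bits [661, 565])) := VW.play 394 (PX [] [565,661]) (by decide +kernel) v4_1732

theorem r568 : S (Nat.lor X2 (bits [661, 568])) := VW.play 394 (PX [] [568,661]) (by decide +kernel) v4_2336

theorem r595 : S (Nat.lor X2 (bits [661, 595])) := VW.play 394 (PX [] [595,661]) (by decide +kernel) v4_2343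

theorem r597 : S (Nat.lor X2 (bits [661, 597])) := VW.play 394 (PX [] [597,661]) (by decide +kernel) v4_2012

theorem r599 : S (Nat.lor X2 (bits [661, 599])) := VW.play 394 (PX [] [599,661]) (by decide +kernel) v4_2364

theorem r628 : S (Nat.lor X2 (bits [661, 628])) := VW.play 394 (PX [] [628,661]) (by decide +kernel) v4_2373

theorem r629 : S (Nat.lor X2 (bits [661, 629])) := VW.play 394 (PX [] [629,661]) (by decide +kernel) v4_2259

theorem r630 : S (Nat.lor X2 (bits [661, 630])) := VW.play 394 (PX [] [630,661]) (by decide +kernel) v4_2382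

theorem r657 : S (Nat.lor X2 (bits [661, 657])) := VW.play 394 (PX [] [657,661]) (by decide +kernel) v4_2383

theorem r658 : S (Nat.lor X2 (bits [661, 658])) := VW.play 394 (PX [] [658,661]) (by decide +kernel) v4_2419

theorem r659 : S (Nat.lor X2 (bits [661, 659])) := VW.play 394 (PX [] [659,661]) (by decide +kernel) v4_2428

theorem r660 : S (Nat.lor X2 (bits [661, 660])) := VW.play 394 (PX [] [660,661]) (by decide +kernel) v4_2448

theorem r662 : S (Nat.lor X2 (bits [661, 662])) := VW.play 394 (PX [] [661,662]) (by decide +kernel) v4_2467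

theorem r663 : S (Nat.lor X2 (bits [661, 663])) := VW.play 394 (PX [] [661,663]) (by decide +kernel) v4_2471

theorem r664 : S (Nat.lor X2 (bits [661, 664])) := VW.play 394 (PX [] [661,664]) (by decide +kernel) v4_2472

theorem r665 : S (Nat.lor X2 (bits [661, 665])) := VW.play 394 (PX [] [661,665]) (by decide +kernel) v4_2473

theorem r692 : S (Nat.lor X2 (bits [661, 692])) := VW.play 394 (PX [] [661,692]) (by decide +kernel) v4_2493

theorem r693 : S (Nat.lor X2 (bits [661, 693])) := VW.play 394 (PX [] [661,693]) (by decide +kernel) v4_2513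

theorem r694 : S (Nat.lor X2 (bits [661, 694])) := VW.play 394 (PX [] [661,694]) (by decide +kernel) v4_2532

theorem r723 : S (Nat.lor X2 (bits [661, 723])) := VW.play 394 (PX [] [661,723]) (by decide +kernel) v4_2536

theorem r725 : S (Nat.lor X2 (bits [661, 725])) := VW.play 394 (PX [] [661,725]) (by decide +kernel) v4_2540

theorem r727 : S (Nat.lor X2 (bits [661, 727])) := VW.play 394 (PX [] [661,727]) (by decide +kernel) v4_2544

theorem r754 : S (Nat.lor X2 (bits [661, 754])) := VW.play 394 (PX [] [661,754]) (by decide +kernel) v4_2545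

theorem r757 : S (Nat.lor X2 (bits [661, 757])) := VW.play 394 (PX [] [661,757]) (by decide +kernel) v4_2546

theorem r760 : S (Nat.lor X2 (bits [661, 760])) := VW.play 394 (PX [] [661,760]) (by decide +kernel) v4_2547

theorem r785 : S (Nat.lor X2 (bits [661, 785])) := VW.play 394 (PX [] [661,785]) (by decide +kernel) v4_2548

theorem r789 : S (Nat.lor X2 (bits [661, 789])) := VW.play 394 (PX [] [661,789]) (by decide +kernel) v4_2549

theorem r793 : S (Nat.lor X2 (bits [661, 793])) := VW.play 394 (PX [] [661,793]) (by decide +kernel) v4_2550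

theorem all : RT X2 661 (529 :: 533 :: 537 :: 562 :: 565 :: 568 :: 595 :: 597 :: 599 :: 628 :: 629 :: 630 :: 657 :: 658 :: 659 :: 660 :: 662 :: 663 :: 664 :: 665 :: 692 :: 693 :: 694 :: 723 :: 725 :: 727 :: 754 :: 757 :: 760 :: 785 :: 789 :: 793 :: []) := ⟨r529, r533, r537, r562, r565, r568, r595, r597, r599, r628, r629, r630, r657, r658, r659, r660, r662, r663, r664, r665, r692, r693, r694, r723, r725, r727, r754, r757, r760, r785, r789, r793, trivial⟩

end Pool.Agent.H94.Five.Mid.K10_9_0
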