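import Pool.Agent.H94.Five.Mid.Fam

set_option autoImplicit false
set_option linter.all false
set_option maxRecDepth 100000

/-! Second has the cell (7, 1): some of the other stones. -/

namespace Pool.Agent.H94.Five.Mid.K7_1_0

open Pool.Agent.H79.Five Pool.Agent.H10.Five Pool.Agent.H94.Five.M

abbrev nl : List Ent := (n0 :: n1 :: n2 :: n3 :: n4 :: n5 :: n6 :: n7 :: n8 :: n9 :: n10 :: n11 :: n12 :: n13 :: n14 :: n15 :: n16 :: n17 :: n18 :: n19 :: n20 :: n21 :: n22 :: n23 :: n24 :: [])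

theorem nl_ok : AC XB M0 nl := .cons n0k <| .cons n1k <| .cons n2k <| .cons n3k <| .cons n4k <| .cons n5k <| .cons n6k <| .cons n7k <| .cons n8k <| .cons n9k <| .cons n10k <| .cons n11k <| .cons n12k <| .cons n13k <| .cons n14k <| .cons n15k <| .cons n16k <| .cons n17k <| .cons n18k <| .cons n19k <| .cons n20k <| .cons n21k <| .cons n22k <| .cons n23k <| .cons n24k <| .nil

abbrev fl : List Ent := (x3 :: x8 :: x10 :: x15 :: x20 :: x21 :: x23 :: x26 :: x30 :: x33 :: x35 :: x37 :: x38 :: x42 :: x45 :: x50 :: x53 :: x54 :: x55 :: x61 :: x62 :: x66 :: x68 :: x69 :: x70 :: x71 :: x73 :: x75 :: x77 :: x83 :: x90 :: x93 :: x96 :: x98 :: x103 :: x104 :: x106 :: x109 :: x110 :: x113 :: x115 :: x118 :: x125 :: x127 :: x129 :: x130 :: x132 :: x133 :: x136 :: x141 :: x142 :: x143 :: x147 :: x149 :: x150 :: x151 :: x157 :: x161 :: x166 :: x167 :: x168 :: x171 :: x172 :: x173 :: x174 :: x175 :: x177 :: x180 :: x182 :: x183 :: x184 :: x185 :: x186 :: x187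 :: x188 :: x191 :: x194 :: x195 :: x200 :: x201 :: x202 :: x204 :: x208 :: x210 :: x214 :: x215 :: x217 :: x218 :: x219 :: x220 :: x221 :: x222 :: x223 :: x228 :: x229 :: x233 :: x236 :: x243 :: x244 :: x246 :: x247 :: x248 :: x255 :: x256 :: x260 :: x261 :: x263 :: x265 :: x266 :: x268 :: x269 :: x273 :: x275 :: x277 :: x278 :: x279 :: x281 :: x282 :: x284 :: x289 :: x291 :: x292 :: x294 :: x297 :: x308 :: x309 :: x310 :: x311 :: x313 :: x316 :: x317 :: x318 :: x321 :: x323 :: x324 :: x326 :: x328 :: x329 :: x330 :: x334 :: x337 :: x338 :: x341 :: x342 :: x344 :: x353 :: x357 :: x361 :: x364 :: x365 :: x367 :: x368 :: x371 :: x375 :: x378 :: x381 :: x383 :: x384 :: x386 :: x388 :: x390 :: x392 :: x393 :: x395 :: x398 :: x399 :: x400 :: x405 :: x409 :: x410 :: x412 :: x415 :: x421 :: x423 :: x424 :: x425 :: x426 :: x427 :: x435 :: x436 :: x437 :: x438 :: x439 :: x444 :: x446 :: x450 :: x451 :: x452 :: x454 :: x455 :: x456 :: x459 :: x460 :: x464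 :: x466 :: x472 :: x475 :: x476 :: x480 :: x486 :: x491 :: x492 :: x495 :: x499 :: x501 :: x502 :: x503 :: x511 :: x516 :: x518 :: x523 :: x529 :: x531 :: x535 :: x536 :: x538 :: x542 :: x545 :: x554 :: x559 :: [])

theorem fl_ok : AC XB M0 fl := .cons x3k <| .cons x8k <| .cons x10k <| .cons x15k <| .cons x20k <| .cons x21k <| .cons x23k <| .cons x26k <| .cons x30k <| .cons x33k <| .cons x35k <| .cons x37k <| .cons x38k <| .cons x42k <| .cons x45k <| .cons x50k <| .cons x53k <| .cons x54k <| .cons x55k <| .cons x61k <| .cons x62k <| .cons x66k <| .cons x68k <| .cons x69k <| .cons x70k <| .cons x71k <| .cons x73k <| .cons x75k <| .cons x77k <| .cons x83k <| .cons x90k <| .cons x93k <| .cons x96k <| .cons x98k <| .cons x103k <| .cons x104k <| .cons x106k <| .cons x109k <| .cons x110k <| .cons x113k <| .cons x115k <| .cons x118k <| .cons x125k <| .cons x127k <| .cons x129k <| .cons x130k <| .cons x132k <| .cons x133k <| .cons x136k <| .cons x141k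 <| .cons x142k <| .cons x143k <| .cons x147k <| .cons x149k <| .cons x150k <| .cons x151k <| .cons x157k <| .cons x161k <| .cons x166k <| .cons x167k <| .cons x168k <| .cons x171k <| .cons x172k <| .cons x173k <| .cons x174k <| .cons x175k <| .cons x177k <| .cons x180k <| .cons x182k <| .cons x183k <| .cons x184k <| .cons x185k <| .cons x186k <| .cons x187k <| .cons x188k <| .cons x191k <| .cons x194k <| .cons x195k <| .cons x200k <| .cons x201k <| .cons x202k <| .cons x204k <| .cons x208k <| .cons x210k <| .cons x214k <| .cons x215k <| .cons x217k <| .cons x218k <| .cons x219k <| .cons x220k <| .cons x221k <| .cons x222k <| .cons x223k <| .cons x228k <| .cons x229k <| .cons x233k <| .cons x236k <| .cons x243k <| .cons x244k <| .cons x246k <| .cons x247k <| .cons x248k <| .cons x255k <| .cons x256k <| .cons x260k <| .cons x261k <| .cons x263k <| .cons x265k <| .cons x266k <| .cons x268k <| .cons x269k <| .cons x273k <| .cons x275k <| .cons x277k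 <| .cons x278k <| .cons x279k <| .cons x281k <| .cons x282k <| .cons x284k <| .cons x289k <| .cons x291k <| .cons x292k <| .cons x294k <| .cons x297k <| .cons x308k <| .cons x309k <| .cons x310k <| .cons x311k <| .cons x313k <| .cons x316k <| .cons x317k <| .cons x318k <| .cons x321k <| .cons x323k <| .cons x324k <| .cons x326k <| .cons x328k <| .cons x329k <| .cons x330k <| .cons x334k <| .cons x337k <| .cons x338k <| .cons x341k <| .cons x342k <| .cons x344k <| .cons x353k <| .cons x357k <| .cons x361k <| .cons x364k <| .cons x365k <| .cons x367k <| .cons x368k <| .cons x371k <| .cons x375k <| .cons x378k <| .cons x381k <| .cons x383k <| .cons x384k <| .cons x386k <| .cons x388k <| .cons x390k <| .cons x392k <| .cons x393k <| .cons x395k <| .cons x398k <| .cons x399k <| .cons x400k <| .cons x405k <| .cons x409k <| .cons x410k <| .cons x412k <| .cons x415k <| .cons x421k <| .cons x423k <| .cons x424k <| .cons x425k <| .cons x426k <| .cons x427k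 <| .cons x435k <| .cons x436k <| .cons x437k <| .cons x438k <| .cons x439k <| .cons x444k <| .cons x446k <| .cons x450k <| .cons x451k <| .cons x452k <| .cons x454k <| .cons x455k <| .cons x456k <| .cons x459k <| .cons x460k <| .cons x464k <| .cons x466k <| .cons x472k <| .cons x475k <| .cons x476k <| .cons x480k <| .cons x486k <| .cons x491k <| .cons x492k <| .cons x495k <| .cons x499k <| .cons x501k <| .cons x502k <| .cons x503k <| .cons x511k <| .cons x516k <| .cons x518k <| .cons x523k <| .cons x529k <| .cons x531k <| .cons x535k <| .cons x536k <| .cons x538k <| .cons x542k <| .cons x545k <| .cons x554k <| .cons x559k <| .nil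

theorem b0_5 : S (PX [237,336] [171,270,300,303,402]) := S.of (.q 330 (.a 1 [] (.d 297 2312 264 2345 429)
 (.a 1 [264] (.d 429 2345 297 2378 462)
 (.a 0 [297,429] (.q 299 (.a 1 [] (.d 268 3278 206 3309 361)
 (.a 1 [206] (.r 361 3309 268 (.r 392 3371 423 (.r 395 392 393 (.d 331 1291 267 1323 427))))
 (.a 0 [268,361] (.q 395 (.a 1 [] (.d 393 392 392 393 397)
 (.a 1 [392] (.d 397 393 393 394 398)
 (.a 1 [393] (.d 331 1291 267 1323 427)
 .e))))
 .e))))
 .e)))) (by decide +kernel)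

theorem b0_6 : S (PX [237,336] [171,270,301,303,402]) := S.of (.q 330 (.a 1 [] (.d 297 2312 264 2345 429)
 (.a 1 [264] (.d 429 2345 297 2378 462)
 (.a 0 [297,429] (.q 299 (.a 1 [] (.d 268 3278 206 3309 361)
 (.a 1 [206] (.r 361 3309 268 (.r 392 3371 423 (.r 395 392 393 (.d 331 1291 267 1323 427))))
 (.a 0 [268,361] (.q 395 (.a 1 [] (.d 393 392 392 393 397)
 (.a 1 [392] (.d 397 393 393 394 398)
 (.a 1 [393] (.d 331 1291 267 1323 427)
 .e))))
 .e))))
 .e)))) (by decide +kernel)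

theorem b0_7 : S (PX [237,336] [171,270,302,303,402]) := S.of (.q 395 (.a 1 [] (.d 393 392 392 393 397)
 (.a 1 [392] (.d 397 393 393 394 398)
 (.a 0 [393,397] (.q 427 (.a 1 [] (.d 331 1323 299 1355 459)
 (.a 1 [299] (.d 459 1355 331 1387 491)
 (.a 0 [331,459] (.q 429 (.a 1 [] (.d 330 2345 297 2378 462)
 (.a 1 [297] (.d 462 2378 330 2411 495)
 (.a 0 [330,462] (.q 460 (.a 1 [] (.d 361 2376 328 2409 493)
 (.a 1 [328] (.d 493 2409 361 2442 526)
 (.a 0 [361,493] (.q 428 (.a 1 [] (.d 426 425 425 426 430)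
 (.a 1 [425] (.d 430 426 426 427 431)
 (.a 1 [426] (.d 364 1356 332 1388 492)
 .e))))
 .e))))
 .e))))
 .e))))
 .e)))) (by decide +kernel)

theorem b0_8 : S (PX [237,336] [171,270,303,330,402]) := S.of (.q 395 (.a 1 [] (.d 393 392 392 393 397)
 (.a 1 [392] (.d 397 393 393 394 398)
 (.a 0 [393,397] (.q 427 (.a 1 [] (.d 331 1323 299 1355 459)
 (.a 1 [299] (.d 459 1355 331 1387 491)
 (.a 0 [331,459] (.q 460 (.a 1 [] (.d 361 2376 328 2409 493)
 (.a 1 [328] (.d 493 2409 361 2442 526)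
 (.a 0 [361] (.q 489 (.a 1 [] (.d 458 3437 365 3468 520)
 (.a 0 [365,458,520] (.q 428 (.a 1 [] (.d 364 1356 332 1388 492)
 (.a 1 [332] (.d 492 1388 364 1420 524)
 (.a 1 [492] (.r 332 1356 364 (.d 425 3373 301 3404 456))
 (.a 0 [364] (.r 492 1420 524 (.r 493 2442 526 (.r 491 489 490 (.r 494 491 495 (.d 461 2410 362 2443 527)))))
 .e)))))
 .e)))
 (.a 0 [493] (.q 332 (.a 1 [] (.d 425 3373 301 3404 456)
 (.a 1 [301] (.r 364 1356 428 (.r 361 2376 328 (.d 362 360 360 361 365)))
 .e)))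
 .e)))))
 .e))))
 .e)))) (by decide +kernel)

theorem b0_9 : S (PX [237,336] [171,270,303,392,402]) := S.of (.q 330 (.a 1 [] (.d 297 2312 264 2345 429)
 (.a 1 [264] (.d 429 2345 297 2378 462)
 (.a 0 [297,429] (.q 362 (.a 1 [] (.d 298 1290 266 1322 426)
 (.a 1 [266] (.d 426 1322 298 1354 458)
 (.a 0 [298,426] (.q 361 (.a 1 [] (.d 360 359 359 360 364)
 (.a 1 [359] (.d 364 360 360 361 365)
 (.a 0 [360,364] (.q 427 (.a 1 [] (.d 328 2343 295 2376 460)
 (.a 1 [295] (.d 460 2376 328 2409 493)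
 (.a 1 [328] (.r 299 3309 268 (.r 395 1323 331 (.d 397 393 393 394 398)))
 .e))))
 .e))))
 .e))))
 .e)))) (by decide +kernel)

theorem b0_20 : S (PX [237,336] [204,266,270,303,402]) := S.of (.q 395 (.a 1 [] (.d 393 392 392 393 397)
 (.a 1 [392] (.d 397 393 393 394 398)
 (.a 0 [393,397] (.q 427 (.a 1 [] (.d 331 1323 299 1355 459)
 (.a 1 [299] (.d 459 1355 331 1387 491)
 (.a 0 [331,459] (.q 429 (.a 1 [] (.d 330 2345 297 2378 462)
 (.a 1 [297] (.d 462 2378 330 2411 495)
 (.a 0 [330,462] (.q 460 (.a 1 [] (.d 361 2376 328 2409 493)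
 (.a 1 [328] (.d 493 2409 361 2442 526)
 (.a 0 [361,493] (.q 428 (.a 1 [] (.d 426 425 425 426 430)
 (.a 1 [425] (.d 430 426 426 427 431)
 (.a 1 [426] (.d 364 1356 332 1388 492)
 .e))))
 .e))))
 .e))))
 .e))))
 .e)))) (by decide +kernel)

theorem b0_21 : S (PX [237,336] [204,268,270,303,402]) := S.of (.q 395 (.a 1 [] (.d 393 392 392 393 397)
 (.a 1 [392] (.d 397 393 393 394 398)
 (.a 0 [393,397] (.q 427 (.a 1 [] (.d 331 1323 299 1355 459)
 (.a 1 [299] (.d 459 1355 331 1387 491)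
 (.a 0 [331,459] (.q 429 (.a 1 [] (.d 330 2345 297 2378 462)
 (.a 1 [297] (.d 462 2378 330 2411 495)
 (.a 0 [330,462] (.q 332 (.a 1 [] (.d 425 3373 301 3404 456)
 (.a 1 [301] (.r 425 3404 456 (.r 428 425 426 (.d 364 1324 300 1356 460)))
 (.a 1 [456] (.r 425 3373 301 (.r 428 425 426 (.d 364 1324 300 1356 460)))
 (.a 0 [425] (.q 460 (.a 1 [] (.d 361 2376 328 2409 493)
 (.a 1 [328] (.d 493 2409 361 2442 526)
 (.a 1 [361] (.r 428 1356 364 (.d 430 426 426 427 431))
 .e))))
 .e)))))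
 .e))))
 .e))))
 .e)))) (by decide +kernel)

theorem b0_22 : S (PX [237,336] [204,270,300,303,402]) := S.of (.q 330 (.a 1 [] (.d 297 2312 264 2345 429)
 (.a 1 [264] (.d 429 2345 297 2378 462)
 (.a 0 [297,429] (.q 395 (.a 1 [] (.d 393 392 392 393 397)
 (.a 1 [392] (.d 397 393 393 394 398)
 (.a 0 [393,397] (.q 299 (.a 1 [] (.d 331 1291 267 1323 427)
 (.a 1 [267] (.d 268 3278 206 3309 361)
 .e)))
 .e))))
 .e)))) (by decide +kernel)

theorem b0_23 : S (PX [237,336] [204,270,301,303,402]) := S.of (.q 330 (.a 1 [] (.d 297 2312 264 2345 429)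
 (.a 1 [264] (.d 429 2345 297 2378 462)
 (.a 0 [297,429] (.q 299 (.a 1 [] (.d 268 3278 206 3309 361)
 (.a 1 [206] (.r 361 3309 268 (.r 392 3371 423 (.r 395 392 393 (.d 331 1291 267 1323 427))))
 (.a 0 [268,361] (.q 395 (.a 1 [] (.d 393 392 392 393 397)
 (.a 1 [392] (.d 397 393 393 394 398)
 (.a 1 [393] (.d 331 1291 267 1323 427)
 .e))))
 .e))))
 .e)))) (by decide +kernel)

theorem b0_24 : S (PX [237,336] [204,270,302,303,402]) := S.of (.q 395 (.a 1 [] (.d 393 392 392 393 397)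
 (.a 1 [392] (.d 397 393 393 394 398)
 (.a 0 [393,397] (.q 427 (.a 1 [] (.d 331 1323 299 1355 459)
 (.a 1 [299] (.d 459 1355 331 1387 491)
 (.a 0 [331,459] (.q 429 (.a 1 [] (.d 330 2345 297 2378 462)
 (.a 1 [297] (.d 462 2378 330 2411 495)
 (.a 0 [330,462] (.q 460 (.a 1 [] (.d 361 2376 328 2409 493)
 (.a 1 [328] (.d 493 2409 361 2442 526)
 (.a 0 [361,493] (.q 428 (.a 1 [] (.d 426 425 425 426 430)
 (.a 1 [425] (.d 430 426 426 427 431)
 (.a 1 [426] (.d 364 1356 332 1388 492)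
 .e))))
 .e))))
 .e))))
 .e))))
 .e)))) (by decide +kernel)

theorem b0_25 : S (PX [237,336] [204,270,303,330,402]) := S.of (.q 395 (.a 1 [] (.d 393 392 392 393 397)
 (.a 1 [392] (.d 397 393 393 394 398)
 (.a 0 [393,397] (.q 427 (.a 1 [] (.d 331 1323 299 1355 459)
 (.a 1 [299] (.d 459 1355 331 1387 491)
 (.a 0 [331,459] (.q 460 (.a 1 [] (.d 361 2376 328 2409 493)
 (.a 1 [328] (.d 493 2409 361 2442 526)
 (.a 0 [361] (.q 489 (.a 1 [] (.d 458 3437 365 3468 520)
 (.a 0 [365,458,520] (.q 428 (.a 1 [] (.d 364 1356 332 1388 492)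
 (.a 1 [332] (.d 492 1388 364 1420 524)
 (.a 1 [492] (.r 332 1356 364 (.d 425 3373 301 3404 456))
 (.a 0 [364] (.r 492 1420 524 (.r 493 2442 526 (.r 491 489 490 (.r 494 491 495 (.d 461 2410 362 2443 527)))))
 .e)))))
 .e)))
 (.a 0 [493] (.q 332 (.a 1 [] (.d 425 3373 301 3404 456)
 (.a 1 [301] (.r 364 1356 428 (.r 361 2376 328 (.d 362 360 360 361 365)))
 .e)))
 .e)))))
 .e))))
 .e)))) (by decide +kernel)

theorem b0_26 : S (PX [237,336] [204,270,303,392,402]) := S.of (.q 330 (.a 1 [] (.d 297 2312 264 2345 429)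
 (.a 1 [264] (.d 429 2345 297 2378 462)
 (.a 0 [297,429] (.q 362 (.a 1 [] (.d 298 1290 266 1322 426)
 (.a 1 [266] (.d 426 1322 298 1354 458)
 (.a 0 [298,426] (.q 361 (.a 1 [] (.d 360 359 359 360 364)
 (.a 1 [359] (.d 364 360 360 361 365)
 (.a 0 [360,364] (.q 427 (.a 1 [] (.d 328 2343 295 2376 460)
 (.a 1 [295] (.d 460 2376 328 2409 493)
 (.a 1 [328] (.r 299 3309 268 (.r 395 1323 331 (.d 397 393 393 394 398)))
 .e))))
 .e))))
 .e))))
 .e)))) (by decide +kernel)

theorem b0_27 : S (PX [237,336] [204,270,303,393,402]) := S.of (.q 429 (.a 1 [] (.d 330 2345 297 2378 462)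
 (.a 1 [297] (.d 462 2378 330 2411 495)
 (.a 0 [330,462] (.q 332 (.a 1 [] (.d 425 3373 301 3404 456)
 (.a 0 [301,425,456] (.q 364 (.a 1 [] (.d 300 1292 268 1324 428)
 (.a 1 [268] (.d 428 1324 300 1356 460)
 (.a 1 [300] (.r 460 1356 428 (.r 367 3408 398 (.r 365 363 366 (.r 361 361 362 (.d 427 2376 328 2409 493)))))
 (.a 0 [428] (.q 398 (.a 1 [] (.d 367 3377 305 3408 460)
 (.a 1 [305] (.r 397 394 395 (.r 367 3408 460 (.r 365 363 366 (.d 431 2347 299 2380 464))))
 (.a 1 [460] (.r 397 394 395 (.r 367 3377 305 (.r 365 363 366 (.d 431 2347 299 2380 464))))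
 (.a 0 [367] (.q 365 (.a 1 [] (.d 362 361 361 362 366)
 (.a 1 [361] (.d 431 2347 299 2380 464)
 .e)))
 .e)))))
 .e)))))
 .e)))
 .e)))) (by decide +kernel)

theorem b0_28 : S (PX [237,336] [204,270,303,395,402]) := S.of (.q 330 (.a 1 [] (.d 297 2312 264 2345 429)
 (.a 1 [264] (.d 429 2345 297 2378 462)
 (.a 0 [297,429] (.q 362 (.a 1 [] (.d 298 1290 266 1322 426)
 (.a 1 [266] (.d 426 1322 298 1354 458)
 (.a 0 [298,426] (.q 364 (.a 1 [] (.d 361 360 360 361 365)
 (.a 1 [360] (.d 365 361 361 362 366)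
 (.a 0 [361,365] (.q 332 (.a 1 [] (.d 300 1292 268 1324 428)
 (.a 1 [268] (.d 428 1324 300 1356 460)
 (.a 1 [300] (.d 425 3373 301 3404 456)
 .e))))
 .e))))
 .e))))
 .e)))) (by decide +kernel)

theorem b0_29 : S (PX [237,336] [204,270,303,402,424]) := S.of (.q 330 (.a 1 [] (.d 297 2312 264 2345 429)
 (.a 1 [264] (.d 429 2345 297 2378 462)
 (.a 0 [297,429] (.q 362 (.a 1 [] (.d 298 1290 266 1322 426)
 (.a 1 [266] (.d 426 1322 298 1354 458)
 (.a 0 [298,426] (.q 361 (.a 1 [] (.d 360 359 359 360 364)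
 (.a 1 [359] (.d 364 360 360 361 365)
 (.a 1 [360] (.r 299 3309 268 (.r 392 3371 423 (.r 395 392 393 (.d 331 1291 267 1323 427))))
 .e))))
 .e))))
 .e)))) (by decide +kernel)

theorem b0_30 : S (PX [171,336] [237,268,270,303,402]) := S.of (.q 330 (.a 1 [] (.d 297 2312 264 2345 429)
 (.a 1 [264] (.d 429 2345 297 2378 462)
 (.a 0 [297,429] (.q 362 (.a 1 [] (.d 298 1290 266 1322 426)
 (.a 1 [266] (.d 426 1322 298 1354 458)
 (.a 0 [298,426] (.q 361 (.a 1 [] (.d 360 359 359 360 364)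
 (.a 1 [359] (.d 364 360 360 361 365)
 (.a 0 [360,364] (.q 427 (.a 1 [] (.d 328 2343 295 2376 460)
 (.a 1 [295] (.d 460 2376 328 2409 493)
 (.a 0 [328,460] (.q 395 (.a 1 [] (.d 393 392 392 393 397)
 (.a 1 [392] (.d 397 393 393 394 398)
 (.a 1 [393] (.d 331 1323 299 1355 459)
 .e))))
 .e))))
 .e))))
 .e))))
 .e)))) (by decide +kernel)

theorem b0_31 : S (PX [171,336] [237,269,270,303,402]) := S.of (.q 395 (.a 1 [] (.d 393 392 392 393 397)
 (.a 1 [392] (.d 397 393 393 394 398)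
 (.a 0 [393,397] (.q 331 (.a 1 [] (.d 299 1291 267 1323 427)
 (.a 1 [267] (.d 427 1323 299 1355 459)
 (.a 0 [299,427] (.q 330 (.a 1 [] (.d 297 2312 264 2345 429)
 (.a 1 [264] (.d 429 2345 297 2378 462)
 (.a 0 [297,429] (.q 332 (.a 1 [] (.d 329 328 328 329 333)
 (.a 1 [328] (.d 333 329 329 330 334)
 (.a 1 [329] (.d 425 3373 301 3404 456)
 .e))))
 .e))))
 .e))))
 .e)))) (by decide +kernel)

theorem b0_32 : S (PX [171,336] [237,270,300,303,402]) := S.of (.q 330 (.a 1 [] (.d 297 2312 264 2345 429)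
 (.a 1 [264] (.d 429 2345 297 2378 462)
 (.a 0 [297,429] (.q 425 (.a 1 [] (.d 332 3373 301 3404 456)
 (.a 1 [301] (.d 456 3404 332 3435 487)
 (.a 0 [332,456] (.q 393 (.a 1 [] (.d 395 392 392 393 397)
 (.a 0 [392,395,397] (.q 361 (.a 1 [] (.d 457 1353 329 1385 489)
 (.a 0 [329,457,489] (.q 362 (.a 1 [] (.d 360 359 359 360 364)
 (.a 1 [359] (.d 364 360 360 361 365)
 (.a 1 [360] (.d 298 1290 266 1322 426)
 .e))))
 .e)))
 .e)))
 .e))))
 .e)))) (by decide +kernel)

theorem b0_33 : S (PX [171,336] [237,270,301,303,402]) := S.of (.q 395 (.a 1 [] (.d 393 392 392 393 397)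
 (.a 1 [392] (.d 397 393 393 394 398)
 (.a 0 [393,397] (.q 427 (.a 1 [] (.d 331 1323 299 1355 459)
 (.a 1 [299] (.d 459 1355 331 1387 491)
 (.a 0 [331,459] (.q 330 (.a 1 [] (.d 297 2312 264 2345 429)
 (.a 1 [264] (.d 429 2345 297 2378 462)
 (.a 0 [297,429] (.q 365 (.a 1 [] (.d 458 3406 334 3437 489)
 (.a 1 [334] (.r 458 3437 489 (.r 362 1354 426 (.d 364 361 361 362 366)))
 (.a 1 [489] (.r 458 3406 334 (.r 362 1354 426 (.d 364 361 361 362 366)))
 (.a 0 [458] (.q 362 (.a 1 [] (.d 364 361 361 362 366)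
 (.a 1 [361] (.d 298 1290 266 1322 426)
 .e)))
 .e)))))
 .e))))
 .e))))
 .e)))) (by decide +kernel)

theorem b0_34 : S (PX [171,336] [237,270,302,303,402]) := S.of (.q 395 (.a 1 [] (.d 393 392 392 393 397)
 (.a 1 [392] (.d 397 393 393 394 398)
 (.a 0 [393,397] (.q 427 (.a 1 [] (.d 331 1323 299 1355 459)
 (.a 1 [299] (.d 459 1355 331 1387 491)
 (.a 0 [331,459] (.q 429 (.a 1 [] (.d 330 2345 297 2378 462)
 (.a 1 [297] (.d 462 2378 330 2411 495)
 (.a 0 [330,462] (.q 458 (.a 1 [] (.d 365 3406 334 3437 489)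
 (.a 1 [334] (.d 489 3437 365 3468 520)
 (.a 0 [365,489] (.q 426 (.a 1 [] (.d 428 425 425 426 430)
 (.a 1 [425] (.d 490 1386 362 1418 522)
 .e)))
 .e))))
 .e))))
 .e))))
 .e)))) (by decide +kernel)

theorem b0_35 : S (PX [171,336] [237,270,303,330,402]) := S.of (.q 395 (.a 1 [] (.d 393 392 392 393 397)
 (.a 1 [392] (.d 397 393 393 394 398)
 (.a 0 [393,397] (.q 427 (.a 1 [] (.d 331 1323 299 1355 459)
 (.a 1 [299] (.d 459 1355 331 1387 491)
 (.a 0 [331] (.q 332 (.a 1 [] (.d 425 3373 301 3404 456)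
 (.a 0 [301,425,456] (.q 364 (.a 1 [] (.d 300 1292 268 1324 428)
 (.a 1 [268] (.d 428 1324 300 1356 460)
 (.a 1 [300] (.r 460 1356 428 (.d 493 2409 361 2442 526))
 (.a 0 [428] (.q 365 (.a 1 [] (.d 362 361 361 362 366)
 (.a 1 [361] (.d 366 362 362 363 367)
 (.a 1 [362] (.d 458 3406 334 3437 489)
 .e))))
 .e)))))
 .e)))
 (.a 0 [459] (.q 361 (.a 1 [] (.d 328 2343 295 2376 460)
 (.a 1 [295] (.d 460 2376 328 2409 493)
 (.a 0 [328,460] (.q 362 (.a 1 [] (.d 360 359 359 360 364)
 (.a 1 [359] (.d 364 360 360 361 365)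
 (.a 1 [360] (.r 365 361 364 (.d 458 3406 334 3437 489))
 (.a 0 [364] (.q 458 (.a 1 [] (.d 365 3406 334 3437 489)
 (.a 1 [334] (.d 489 3437 365 3468 520)
 (.a 0 [365,489] (.q 428 (.a 1 [] (.d 329 2344 296 2377 461)
 (.a 1 [296] (.d 461 2377 329 2410 494)
 (.a 1 [329] (.r 426 1386 490 (.d 429 425 425 426 430))
 .e))))
 .e))))
 .e)))))
 .e))))
 .e)))))
 .e)))) (by decide +kernel)

theorem b0_36 : S (PX [171,336] [237,270,303,392,402]) := S.of (.q 330 (.a 1 [] (.d 297 2312 264 2345 429)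
 (.a 1 [264] (.d 429 2345 297 2378 462)
 (.a 0 [297,429] (.q 362 (.a 1 [] (.d 298 1290 266 1322 426)
 (.a 1 [266] (.d 426 1322 298 1354 458)
 (.a 0 [298,426] (.q 364 (.a 1 [] (.d 361 360 360 361 365)
 (.a 1 [360] (.d 365 361 361 362 366)
 (.a 0 [361,365] (.q 332 (.a 1 [] (.d 300 1292 268 1324 428)
 (.a 1 [268] (.d 428 1324 300 1356 460)
 (.a 1 [300] (.d 425 3373 301 3404 456)
 .e))))
 .e))))
 .e))))
 .e)))) (by decide +kernel)

theorem b0_44 : S (PX [336] [265,270,303,402]) := S.of (.q 395 (.a 1 [] (.d 393 392 392 393 397)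
 (.a 1 [392] (.d 397 393 393 394 398)
 (.a 0 [393,397] (.q 331 (.a 1 [] (.d 299 1291 267 1323 427)
 (.a 1 [267] (.d 427 1323 299 1355 459)
 (.a 0 [299,427] (.q 330 (.a 1 [] (.d 297 2312 264 2345 429)
 (.a 1 [264] (.d 429 2345 297 2378 462)
 (.a 0 [297,429] (.q 329 (.a 1 [] (.d 328 327 327 328 332)
 (.a 1 [327] (.d 332 328 328 329 333)
 (.a 1 [328] (.r 332 329 333 (.d 425 3373 301 3404 456))
 (.a 0 [332] (.q 362 (.a 1 [] (.d 298 1290 266 1322 426)
 (.a 1 [266] (.d 426 1322 298 1354 458)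
 (.a 1 [298] (.d 296 2311 263 2344 428)
 .e))))
 .e)))))
 .e))))
 .e))))
 .e)))) (by decide +kernel)

theorem b0_45 : S (PX [336] [269,270,303,402]) := S.of (.q 395 (.a 1 [] (.d 393 392 392 393 397)
 (.a 1 [392] (.d 397 393 393 394 398)
 (.a 0 [393,397] (.q 331 (.a 1 [] (.d 299 1291 267 1323 427)
 (.a 1 [267] (.d 427 1323 299 1355 459)
 (.a 0 [299,427] (.q 330 (.a 1 [] (.d 297 2312 264 2345 429)
 (.a 1 [264] (.d 429 2345 297 2378 462)
 (.a 0 [297,429] (.q 332 (.a 1 [] (.d 329 328 328 329 333)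
 (.a 1 [328] (.d 333 329 329 330 334)
 (.a 1 [329] (.d 425 3373 301 3404 456)
 .e))))
 .e))))
 .e))))
 .e)))) (by decide +kernel)

theorem b0_46 : S (PX [336] [270,298,303,402]) := S.of (.q 395 (.a 1 [] (.d 393 392 392 393 397)
 (.a 1 [392] (.d 397 393 393 394 398)
 (.a 0 [393,397] (.q 429 (.a 1 [] (.d 330 2345 297 2378 462)
 (.a 1 [297] (.d 462 2378 330 2411 495)
 (.a 0 [330,462] (.q 398 (.a 1 [] (.d 367 3377 305 3408 460)
 (.a 1 [305] (.r 460 3408 367 (.r 491 3470 522 (.r 427 1387 459 (.d 493 2409 361 2442 526))))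
 (.a 0 [367,460] (.q 332 (.a 1 [] (.d 425 3373 301 3404 456)
 (.a 0 [301,425,456] (.q 299 (.a 1 [] (.d 331 1291 267 1323 427)
 (.a 1 [267] (.d 365 2314 266 2347 431)
 .e)))
 .e)))
 .e))))
 .e))))
 .e)))) (by decide +kernel)

theorem b0_47 : S (PX [336] [270,299,303,402]) := S.of (.q 330 (.a 1 [] (.d 297 2312 264 2345 429)
 (.a 1 [264] (.d 429 2345 297 2378 462)
 (.a 0 [297,429] (.q 395 (.a 1 [] (.d 393 392 392 393 397)
 (.a 1 [392] (.d 397 393 393 394 398)
 (.a 0 [393,397] (.q 425 (.a 1 [] (.d 332 3373 301 3404 456)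
 (.a 1 [301] (.d 456 3404 332 3435 487)
 (.a 0 [332,456] (.q 427 (.a 1 [] (.d 459 1355 331 1387 491)
 (.a 0 [331,459,491] (.q 426 (.a 1 [] (.d 424 423 423 424 428)
 (.a 1 [423] (.d 362 1322 298 1354 458)
 .e)))
 .e)))
 .e))))
 .e))))
 .e)))) (by decide +kernel)

theorem b0_48 : S (PX [336] [270,300,303,402]) := S.of (.q 330 (.a 1 [] (.d 297 2312 264 2345 429)
 (.a 1 [264] (.d 429 2345 297 2378 462)
 (.a 0 [297,429] (.q 425 (.a 1 [] (.d 332 3373 301 3404 456)
 (.a 1 [301] (.d 456 3404 332 3435 487)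
 (.a 0 [332,456] (.q 393 (.a 1 [] (.d 395 392 392 393 397)
 (.a 0 [392,395,397] (.q 361 (.a 1 [] (.d 457 1353 329 1385 489)
 (.a 0 [329,457,489] (.q 362 (.a 1 [] (.d 360 359 359 360 364)
 (.a 1 [359] (.d 364 360 360 361 365)
 (.a 1 [360] (.d 298 1290 266 1322 426)
 .e))))
 .e)))
 .e)))
 .e))))
 .e)))) (by decide +kernel)

theorem b0_49 : S (PX [336] [270,301,303,402]) := S.of (.q 395 (.a 1 [] (.d 393 392 392 393 397)
 (.a 1 [392] (.d 397 393 393 394 398)
 (.a 0 [393,397] (.q 427 (.a 1 [] (.d 331 1323 299 1355 459)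
 (.a 1 [299] (.d 459 1355 331 1387 491)
 (.a 0 [331,459] (.q 429 (.a 1 [] (.d 330 2345 297 2378 462)
 (.a 1 [297] (.d 462 2378 330 2411 495)
 (.a 0 [330,462] (.q 460 (.a 1 [] (.d 361 2376 328 2409 493)
 (.a 1 [328] (.d 493 2409 361 2442 526)
 (.a 0 [361,493] (.q 428 (.a 1 [] (.d 426 425 425 426 430)
 (.a 1 [425] (.d 430 426 426 427 431)
 (.a 1 [426] (.d 364 1356 332 1388 492)
 .e))))
 .e))))
 .e))))
 .e))))
 .e)))) (by decide +kernel)

theorem b0_50 : S (PX [336] [270,302,303,402]) := S.of (.q 395 (.a 1 [] (.d 393 392 392 393 397)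
 (.a 1 [392] (.d 397 393 393 394 398)
 (.a 0 [393,397] (.q 427 (.a 1 [] (.d 331 1323 299 1355 459)
 (.a 1 [299] (.d 459 1355 331 1387 491)
 (.a 0 [331,459] (.q 429 (.a 1 [] (.d 330 2345 297 2378 462)
 (.a 1 [297] (.d 462 2378 330 2411 495)
 (.a 0 [330,462] (.q 460 (.a 1 [] (.d 361 2376 328 2409 493)
 (.a 1 [328] (.d 493 2409 361 2442 526)
 (.a 0 [361,493] (.q 428 (.a 1 [] (.d 426 425 425 426 430)
 (.a 1 [425] (.d 430 426 426 427 431)
 (.a 1 [426] (.d 364 1356 332 1388 492)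
 .e))))
 .e))))
 .e))))
 .e))))
 .e)))) (by decide +kernel)

theorem b0_51 : S (PX [336] [270,303,327,402]) := S.of (.q 395 (.a 1 [] (.d 393 392 392 393 397)
 (.a 1 [392] (.d 397 393 393 394 398)
 (.a 0 [393,397] (.q 429 (.a 1 [] (.d 330 2345 297 2378 462)
 (.a 1 [297] (.d 462 2378 330 2411 495)
 (.a 0 [330,462] (.q 332 (.a 1 [] (.d 425 3373 301 3404 456)
 (.a 0 [301,425,456] (.q 364 (.a 1 [] (.d 300 1292 268 1324 428)
 (.a 1 [268] (.d 428 1324 300 1356 460)
 (.a 1 [300] (.r 460 1356 428 (.r 398 3408 367 (.r 491 3470 522 (.r 427 1387 459 (.d 493 2409 361 2442 526)))))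
 (.a 0 [428] (.q 366 (.a 1 [] (.d 365 362 362 363 367)
 (.a 1 [362] (.r 367 363 365 (.d 398 3377 305 3408 460))
 (.a 0 [365,367] (.q 333 (.a 1 [] (.d 302 3343 271 3374 426)
 (.a 1 [271] (.d 426 3374 302 3405 457)
 (.a 1 [302] (.r 300 1292 268 (.d 399 2315 267 2348 432))
 .e))))
 .e))))
 .e)))))
 .e)))
 .e))))
 .e)))) (by decide +kernel)

theorem b0_52 : S (PX [336] [270,303,328,402]) := S.of (.q 395 (.a 1 [] (.d 393 392 392 393 397)
 (.a 1 [392] (.d 397 393 393 394 398)
 (.a 0 [393,397] (.q 427 (.a 1 [] (.d 331 1323 299 1355 459)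
 (.a 1 [299] (.d 459 1355 331 1387 491)
 (.a 0 [331,459] (.q 330 (.a 1 [] (.d 297 2312 264 2345 429)
 (.a 1 [264] (.d 429 2345 297 2378 462)
 (.a 0 [297,429] (.q 425 (.a 1 [] (.d 332 3373 301 3404 456)
 (.a 1 [301] (.d 456 3404 332 3435 487)
 (.a 0 [332,456] (.q 426 (.a 1 [] (.d 424 423 423 424 428)
 (.a 1 [423] (.d 362 1322 298 1354 458)
 .e)))
 .e))))
 .e))))
 .e))))
 .e)))) (by decide +kernel)

theorem b0_53 : S (PX [336] [270,303,330,402]) := S.of (.q 395 (.a 1 [] (.d 393 392 392 393 397)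
 (.a 1 [392] (.d 397 393 393 394 398)
 (.a 0 [393,397] (.q 427 (.a 1 [] (.d 331 1323 299 1355 459)
 (.a 1 [299] (.d 459 1355 331 1387 491)
 (.a 0 [331,459] (.q 460 (.a 1 [] (.d 361 2376 328 2409 493)
 (.a 1 [328] (.d 493 2409 361 2442 526)
 (.a 0 [361] (.q 489 (.a 1 [] (.d 458 3437 365 3468 520)
 (.a 0 [365,458,520] (.q 428 (.a 1 [] (.d 364 1356 332 1388 492)
 (.a 1 [332] (.d 492 1388 364 1420 524)
 (.a 1 [492] (.r 332 1356 364 (.d 425 3373 301 3404 456))
 (.a 0 [364] (.r 492 1420 524 (.r 493 2442 526 (.r 491 489 490 (.r 494 491 495 (.d 461 2410 362 2443 527)))))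
 .e)))))
 .e)))
 (.a 0 [493] (.q 332 (.a 1 [] (.d 425 3373 301 3404 456)
 (.a 1 [301] (.r 364 1356 428 (.r 361 2376 328 (.d 362 360 360 361 365)))
 .e)))
 .e)))))
 .e))))
 .e)))) (by decide +kernel)

theorem b0_54 : S (PX [336] [270,303,331,402]) := S.of (.q 330 (.a 1 [] (.d 297 2312 264 2345 429)
 (.a 1 [264] (.d 429 2345 297 2378 462)
 (.a 0 [297,429] (.q 362 (.a 1 [] (.d 298 1290 266 1322 426)
 (.a 1 [266] (.d 426 1322 298 1354 458)
 (.a 0 [298,426] (.q 364 (.a 1 [] (.d 361 360 360 361 365)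
 (.a 1 [360] (.d 365 361 361 362 366)
 (.a 0 [361,365] (.q 332 (.a 1 [] (.d 300 1292 268 1324 428)
 (.a 1 [268] (.d 428 1324 300 1356 460)
 (.a 1 [300] (.d 425 3373 301 3404 456)
 .e))))
 .e))))
 .e))))
 .e)))) (by decide +kernel)

theorem b0_55 : S (PX [336] [270,303,333,402]) := S.of (.q 395 (.a 1 [] (.d 393 392 392 393 397)
 (.a 1 [392] (.d 397 393 393 394 398)
 (.a 0 [393,397] (.q 427 (.a 1 [] (.d 331 1323 299 1355 459)
 (.a 1 [299] (.d 459 1355 331 1387 491)
 (.a 0 [331,459] (.q 429 (.a 1 [] (.d 330 2345 297 2378 462)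
 (.a 1 [297] (.d 462 2378 330 2411 495)
 (.a 0 [330,462] (.q 332 (.a 1 [] (.d 425 3373 301 3404 456)
 (.a 1 [301] (.r 425 3404 456 (.r 428 425 426 (.d 364 1324 300 1356 460)))
 (.a 1 [456] (.r 425 3373 301 (.r 428 425 426 (.d 364 1324 300 1356 460)))
 (.a 0 [425] (.q 460 (.a 1 [] (.d 361 2376 328 2409 493)
 (.a 1 [328] (.d 493 2409 361 2442 526)
 (.a 1 [361] (.r 428 1356 364 (.d 430 426 426 427 431))
 .e))))
 .e)))))
 .e))))
 .e))))
 .e)))) (by decide +kernel)

theorem b0_56 : S (PX [336] [270,303,335,402]) := S.of (.q 395 (.a 1 [] (.d 393 392 392 393 397)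
 (.a 1 [392] (.d 397 393 393 394 398)
 (.a 0 [393,397] (.q 429 (.a 1 [] (.d 330 2345 297 2378 462)
 (.a 1 [297] (.d 462 2378 330 2411 495)
 (.a 0 [330,462] (.q 332 (.a 1 [] (.d 425 3373 301 3404 456)
 (.a 0 [301,425,456] (.q 427 (.a 1 [] (.d 331 1323 299 1355 459)
 (.a 1 [299] (.d 459 1355 331 1387 491)
 (.a 0 [331,459] (.q 428 (.a 1 [] (.d 430 426 426 427 431)
 (.a 1 [426] (.d 364 1324 300 1356 460)
 .e)))
 .e))))
 .e)))
 .e))))
 .e)))) (by decide +kernel)

theorem b0_57 : S (PX [336] [270,303,360,402]) := S.of (.q 395 (.a 1 [] (.d 393 392 392 393 397)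
 (.a 1 [392] (.d 397 393 393 394 398)
 (.a 0 [393,397] (.q 429 (.a 1 [] (.d 330 2345 297 2378 462)
 (.a 1 [297] (.d 462 2378 330 2411 495)
 (.a 0 [330,462] (.q 332 (.a 1 [] (.d 425 3373 301 3404 456)
 (.a 0 [301,425,456] (.q 364 (.a 1 [] (.d 300 1292 268 1324 428)
 (.a 1 [268] (.d 428 1324 300 1356 460)
 (.a 1 [300] (.r 460 1356 428 (.r 398 3408 367 (.r 491 3470 522 (.r 427 1387 459 (.d 493 2409 361 2442 526)))))
 (.a 0 [428] (.q 366 (.a 1 [] (.d 365 362 362 363 367)
 (.a 1 [362] (.r 367 363 365 (.d 398 3377 305 3408 460))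
 (.a 0 [365,367] (.q 333 (.a 1 [] (.d 302 3343 271 3374 426)
 (.a 1 [271] (.d 426 3374 302 3405 457)
 (.a 1 [302] (.r 300 1292 268 (.d 399 2315 267 2348 432))
 .e))))
 .e))))
 .e)))))
 .e)))
 .e))))
 .e)))) (by decide +kernel)

theorem b0_58 : S (PX [336] [270,303,361,402]) := S.of (.q 330 (.a 1 [] (.d 297 2312 264 2345 429)
 (.a 1 [264] (.d 429 2345 297 2378 462)
 (.a 0 [297,429] (.q 425 (.a 1 [] (.d 332 3373 301 3404 456)
 (.a 1 [301] (.d 456 3404 332 3435 487)
 (.a 0 [332,456] (.q 426 (.a 1 [] (.d 362 1322 298 1354 458)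
 (.a 0 [298,362,458] (.q 427 (.a 1 [] (.d 424 423 423 424 428)
 (.a 0 [423,424,428] (.q 395 (.a 1 [] (.d 393 392 392 393 397)
 (.a 1 [392] (.d 397 393 393 394 398)
 (.a 1 [393] (.d 331 1323 299 1355 459)
 .e))))
 .e)))
 .e)))
 .e))))
 .e)))) (by decide +kernel)

theorem b0_59 : S (PX [336] [270,303,362,402]) := S.of (.q 395 (.a 1 [] (.d 393 392 392 393 397)
 (.a 1 [392] (.d 397 393 393 394 398)
 (.a 0 [393,397] (.q 331 (.a 1 [] (.d 299 1291 267 1323 427)
 (.a 1 [267] (.d 427 1323 299 1355 459)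
 (.a 0 [299,427] (.q 330 (.a 1 [] (.d 297 2312 264 2345 429)
 (.a 1 [264] (.d 429 2345 297 2378 462)
 (.a 0 [297,429] (.q 332 (.a 1 [] (.d 329 328 328 329 333)
 (.a 1 [328] (.d 333 329 329 330 334)
 (.a 1 [329] (.d 425 3373 301 3404 456)
 .e))))
 .e))))
 .e))))
 .e)))) (by decide +kernel)

theorem b0_60 : S (PX [336] [270,303,364,402]) := S.of (.q 395 (.a 1 [] (.d 393 392 392 393 397)
 (.a 1 [392] (.d 397 393 393 394 398)
 (.a 0 [393,397] (.q 331 (.a 1 [] (.d 299 1291 267 1323 427)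
 (.a 1 [267] (.d 427 1323 299 1355 459)
 (.a 0 [299,427] (.q 330 (.a 1 [] (.d 297 2312 264 2345 429)
 (.a 1 [264] (.d 429 2345 297 2378 462)
 (.a 0 [297,429] (.q 332 (.a 1 [] (.d 329 328 328 329 333)
 (.a 1 [328] (.d 333 329 329 330 334)
 (.a 1 [329] (.d 425 3373 301 3404 456)
 .e))))
 .e))))
 .e))))
 .e)))) (by decide +kernel)

theorem b0_61 : S (PX [336] [270,303,366,402]) := S.of (.q 395 (.a 1 [] (.d 393 392 392 393 397)
 (.a 1 [392] (.d 397 393 393 394 398)
 (.a 0 [393,397] (.q 429 (.a 1 [] (.d 330 2345 297 2378 462)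
 (.a 1 [297] (.d 462 2378 330 2411 495)
 (.a 0 [330,462] (.q 398 (.a 1 [] (.d 367 3377 305 3408 460)
 (.a 1 [305] (.r 460 3408 367 (.r 491 3470 522 (.r 427 1387 459 (.d 493 2409 361 2442 526))))
 (.a 0 [367,460] (.q 332 (.a 1 [] (.d 425 3373 301 3404 456)
 (.a 0 [301,425,456] (.q 299 (.a 1 [] (.d 331 1291 267 1323 427)
 (.a 1 [267] (.d 365 2314 266 2347 431)
 .e)))
 .e)))
 .e))))
 .e))))
 .e)))) (by decide +kernel)

theorem b0_62 : S (PX [336] [270,303,392,402]) := S.of (.q 330 (.a 1 [] (.d 297 2312 264 2345 429)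
 (.a 1 [264] (.d 429 2345 297 2378 462)
 (.a 0 [297,429] (.q 362 (.a 1 [] (.d 298 1290 266 1322 426)
 (.a 1 [266] (.d 426 1322 298 1354 458)
 (.a 0 [298,426] (.q 364 (.a 1 [] (.d 361 360 360 361 365)
 (.a 1 [360] (.d 365 361 361 362 366)
 (.a 0 [361,365] (.q 332 (.a 1 [] (.d 300 1292 268 1324 428)
 (.a 1 [268] (.d 428 1324 300 1356 460)
 (.a 1 [300] (.d 425 3373 301 3404 456)
 .e))))
 .e))))
 .e))))
 .e)))) (by decide +kernel)

theorem b0_63 : S (PX [336] [270,303,393,402]) := S.of (.q 429 (.a 1 [] (.d 330 2345 297 2378 462)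
 (.a 1 [297] (.d 462 2378 330 2411 495)
 (.a 0 [330,462] (.q 332 (.a 1 [] (.d 425 3373 301 3404 456)
 (.a 0 [301,425,456] (.q 364 (.a 1 [] (.d 300 1292 268 1324 428)
 (.a 1 [268] (.d 428 1324 300 1356 460)
 (.a 1 [300] (.r 460 1356 428 (.r 367 3408 398 (.r 365 363 366 (.r 361 361 362 (.d 427 2376 328 2409 493)))))
 (.a 0 [428] (.q 398 (.a 1 [] (.d 367 3377 305 3408 460)
 (.a 1 [305] (.r 397 394 395 (.r 367 3408 460 (.r 365 363 366 (.d 431 2347 299 2380 464))))
 (.a 1 [460] (.r 397 394 395 (.r 367 3377 305 (.r 365 363 366 (.d 431 2347 299 2380 464))))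
 (.a 0 [367] (.q 365 (.a 1 [] (.d 362 361 361 362 366)
 (.a 1 [361] (.d 431 2347 299 2380 464)
 .e)))
 .e)))))
 .e)))))
 .e)))
 .e)))) (by decide +kernel)

theorem b0_64 : S (PX [336] [270,303,395,402]) := S.of (.q 330 (.a 1 [] (.d 297 2312 264 2345 429)
 (.a 1 [264] (.d 429 2345 297 2378 462)
 (.a 0 [297,429] (.q 362 (.a 1 [] (.d 298 1290 266 1322 426)
 (.a 1 [266] (.d 426 1322 298 1354 458)
 (.a 0 [298,426] (.q 364 (.a 1 [] (.d 361 360 360 361 365)
 (.a 1 [360] (.d 365 361 361 362 366)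
 (.a 0 [361,365] (.q 332 (.a 1 [] (.d 300 1292 268 1324 428)
 (.a 1 [268] (.d 428 1324 300 1356 460)
 (.a 1 [300] (.d 425 3373 301 3404 456)
 .e))))
 .e))))
 .e))))
 .e)))) (by decide +kernel)

theorem b0_65 : S (PX [336] [270,303,397,402]) := S.of (.q 429 (.a 1 [] (.d 330 2345 297 2378 462)
 (.a 1 [297] (.d 462 2378 330 2411 495)
 (.a 0 [330,462] (.q 332 (.a 1 [] (.d 425 3373 301 3404 456)
 (.a 0 [301,425,456] (.q 364 (.a 1 [] (.d 300 1292 268 1324 428)
 (.a 1 [268] (.d 428 1324 300 1356 460)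
 (.a 1 [300] (.r 460 1356 428 (.r 367 3408 398 (.r 365 363 366 (.r 361 361 362 (.d 427 2376 328 2409 493)))))
 (.a 0 [428] (.q 398 (.a 1 [] (.d 367 3377 305 3408 460)
 (.a 1 [305] (.r 367 3408 460 (.r 365 363 366 (.d 431 2347 299 2380 464)))
 (.a 1 [460] (.r 367 3377 305 (.r 365 363 366 (.d 431 2347 299 2380 464)))
 (.a 0 [367] (.q 365 (.a 1 [] (.d 362 361 361 362 366)
 (.a 1 [361] (.d 431 2347 299 2380 464)
 .e)))
 .e)))))
 .e)))))
 .e)))
 .e)))) (by decide +kernel)

theorem b0_66 : S (PX [336] [270,303,398,402]) := S.of (.q 330 (.a 1 [] (.d 297 2312 264 2345 429)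
 (.a 1 [264] (.d 429 2345 297 2378 462)
 (.a 0 [297,429] (.q 362 (.a 1 [] (.d 298 1290 266 1322 426)
 (.a 1 [266] (.d 426 1322 298 1354 458)
 (.a 0 [298,426] (.q 361 (.a 1 [] (.d 360 359 359 360 364)
 (.a 1 [359] (.d 364 360 360 361 365)
 (.a 0 [360,364] (.q 425 (.a 1 [] (.d 332 3373 301 3404 456)
 (.a 1 [301] (.d 456 3404 332 3435 487)
 (.a 0 [332,456] (.q 393 (.a 1 [] (.d 395 392 392 393 397)
 (.a 1 [392] (.d 457 1353 329 1385 489)
 .e)))
 .e))))
 .e))))
 .e))))
 .e)))) (by decide +kernel)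

theorem b0_67 : S (PX [336] [270,303,402,424]) := S.of (.q 395 (.a 1 [] (.d 393 392 392 393 397)
 (.a 1 [392] (.d 397 393 393 394 398)
 (.a 0 [393,397] (.q 331 (.a 1 [] (.d 299 1291 267 1323 427)
 (.a 1 [267] (.d 427 1323 299 1355 459)
 (.a 0 [299,427] (.q 330 (.a 1 [] (.d 297 2312 264 2345 429)
 (.a 1 [264] (.d 429 2345 297 2378 462)
 (.a 0 [297,429] (.q 332 (.a 1 [] (.d 329 328 328 329 333)
 (.a 1 [328] (.d 333 329 329 330 334)
 (.a 1 [329] (.d 425 3373 301 3404 456)
 .e))))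
 .e))))
 .e))))
 .e)))) (by decide +kernel)

theorem b0_68 : S (PX [336] [270,303,402,426]) := S.of (.q 395 (.a 1 [] (.d 393 392 392 393 397)
 (.a 1 [392] (.d 397 393 393 394 398)
 (.a 0 [393,397] (.q 429 (.a 1 [] (.d 330 2345 297 2378 462)
 (.a 1 [297] (.d 462 2378 330 2411 495)
 (.a 0 [330,462] (.q 332 (.a 1 [] (.d 425 3373 301 3404 456)
 (.a 0 [301,425,456] (.q 398 (.a 1 [] (.d 367 3377 305 3408 460)
 (.a 1 [305] (.r 460 3408 367 (.r 428 1356 364 (.r 491 3470 522 (.r 427 1387 459 (.d 493 2409 361 2442 526)))))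
 (.a 0 [367,460] (.q 299 (.a 1 [] (.d 331 1291 267 1323 427)
 (.a 1 [267] (.d 365 2314 266 2347 431)
 .e)))
 .e))))
 .e)))
 .e))))
 .e)))) (by decide +kernel)

theorem b0_69 : S (PX [336] [270,303,402,427]) := S.of (.q 429 (.a 1 [] (.d 330 2345 297 2378 462)
 (.a 1 [297] (.d 462 2378 330 2411 495)
 (.a 0 [330,462] (.q 332 (.a 1 [] (.d 425 3373 301 3404 456)
 (.a 0 [301,425,456] (.q 397 (.a 1 [] (.d 395 393 393 394 398)
 (.a 1 [393] (.r 398 394 395 (.d 367 3377 305 3408 460))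
 (.a 0 [395,398] (.q 365 (.a 1 [] (.d 461 1357 333 1389 493)
 (.a 0 [333,461,493] (.q 364 (.a 1 [] (.d 362 361 361 362 366)
 (.a 1 [361] (.d 366 362 362 363 367)
 (.a 1 [362] (.d 300 1292 268 1324 428)
 .e))))
 .e)))
 .e))))
 .e)))
 .e)))) (by decide +kernel)

theorem b0_70 : S (PX [336] [270,303,402,429]) := S.of (.q 395 (.a 1 [] (.d 393 392 392 393 397)
 (.a 1 [392] (.d 397 393 393 394 398)
 (.a 0 [393,397] (.q 332 (.a 1 [] (.d 425 3373 301 3404 456)
 (.a 0 [301,425,456] (.q 333 (.a 1 [] (.r 334 332 335 (.r 331 330 330 (.d 427 1323 299 1355 459)))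
 (.a 1 [459] (.r 334 332 335 (.r 331 330 330 (.d 299 1291 267 1323 427)))
 (.a 0 [299,330,331,334,335,427] (.q 364 (.a 1 [] (.d 300 1292 268 1324 428)
 (.a 1 [268] (.d 428 1324 300 1356 460)
 (.a 1 [300] (.d 302 3343 271 3374 426)
 (.a 1 [428] (.d 426 3374 302 3405 457)
 .e)))))
 .e))))
 .e)))
 .e)))) (by decide +kernel)

theorem b0_71 : S (PX [336] [270,303,402,430]) := S.of (.q 395 (.a 1 [] (.d 393 392 392 393 397)
 (.a 1 [392] (.d 397 393 393 394 398)
 (.a 0 [393,397] (.q 429 (.a 1 [] (.d 330 2345 297 2378 462)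
 (.a 1 [297] (.d 462 2378 330 2411 495)
 (.a 0 [330,462] (.q 398 (.a 1 [] (.d 367 3377 305 3408 460)
 (.a 1 [305] (.r 460 3408 367 (.r 491 3470 522 (.r 427 1387 459 (.d 493 2409 361 2442 526))))
 (.a 0 [367,460] (.q 332 (.a 1 [] (.d 425 3373 301 3404 456)
 (.a 0 [301,425,456] (.q 299 (.a 1 [] (.d 331 1291 267 1323 427)
 (.a 1 [267] (.d 365 2314 266 2347 431)
 .e)))
 .e)))
 .e))))
 .e))))
 .e)))) (by decide +kernel)

theorem b0_72 : S (PX [336] [270,303,402,457]) := S.of (.q 395 (.a 1 [] (.d 393 392 392 393 397)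
 (.a 1 [392] (.d 397 393 393 394 398)
 (.a 0 [393,397] (.q 425 (.a 1 [] (.d 332 3373 301 3404 456)
 (.a 1 [301] (.d 456 3404 332 3435 487)
 (.a 0 [332,456] (.q 427 (.a 1 [] (.d 331 1323 299 1355 459)
 (.a 1 [299] (.d 459 1355 331 1387 491)
 (.a 0 [331,459] (.q 458 (.a 1 [] (.d 365 3406 334 3437 489)
 (.a 1 [334] (.d 489 3437 365 3468 520)
 (.a 0 [365,489] (.q 426 (.a 1 [] (.d 424 423 423 424 428)
 (.a 1 [423] (.d 428 424 424 425 429)
 (.a 1 [424] (.d 362 1354 330 1386 490)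
 .e))))
 .e))))
 .e))))
 .e))))
 .e)))) (by decide +kernel)

theorem b0_73 : S (PX [336] [270,303,402,459]) := S.of (.q 395 (.a 1 [] (.d 393 392 392 393 397)
 (.a 1 [392] (.d 397 393 393 394 398)
 (.a 0 [393,397] (.q 429 (.a 1 [] (.d 330 2345 297 2378 462)
 (.a 1 [297] (.d 462 2378 330 2411 495)
 (.a 0 [330,462] (.q 332 (.a 1 [] (.d 425 3373 301 3404 456)
 (.a 0 [301,425,456] (.q 299 (.a 1 [] (.d 331 1291 267 1323 427)
 (.a 0 [267,331,427] (.q 398 (.a 1 [] (.d 365 2314 266 2347 431)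
 (.a 1 [266] (.d 367 3377 305 3408 460)
 .e)))
 .e)))
 .e)))
 .e))))
 .e)))) (by decide +kernel)

theorem b0_74 : S (PX [336] [270,303,402,460]) := S.of (.q 395 (.a 1 [] (.d 393 392 392 393 397)
 (.a 1 [392] (.d 397 393 393 394 398)
 (.a 0 [393,397] (.q 429 (.a 1 [] (.d 330 2345 297 2378 462)
 (.a 1 [297] (.d 462 2378 330 2411 495)
 (.a 0 [330,462] (.q 332 (.a 1 [] (.d 425 3373 301 3404 456)
 (.a 0 [301,425,456] (.q 299 (.a 1 [] (.d 331 1291 267 1323 427)
 (.a 0 [267,331,427] (.q 365 (.a 1 [] (.d 266 2281 233 2314 398)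
 (.a 1 [233] (.d 398 2314 266 2347 431)
 (.a 1 [266] (.r 398 2347 431 (.r 367 3377 305 (.r 364 363 366 (.d 300 1292 268 1324 428))))
 (.a 0 [398] (.q 364 (.a 1 [] (.d 362 361 361 362 366)
 (.a 1 [361] (.d 366 362 362 363 367)
 (.a 1 [362] (.d 300 1292 268 1324 428)
 .e))))
 .e)))))
 .e)))
 .e)))
 .e))))
 .e)))) (by decide +kernel)

theorem b0_75 : S (PX [336] [270,303,402,462]) := S.of (.q 395 (.a 1 [] (.d 393 392 392 393 397)
 (.a 1 [392] (.d 397 393 393 394 398)
 (.a 0 [393,397] (.q 427 (.a 1 [] (.d 331 1323 299 1355 459)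
 (.a 1 [299] (.d 459 1355 331 1387 491)
 (.a 0 [331,459] (.q 460 (.a 1 [] (.d 361 2376 328 2409 493)
 (.a 1 [328] (.d 493 2409 361 2442 526)
 (.a 0 [361,493] (.q 425 (.a 1 [] (.d 332 3373 301 3404 456)
 (.a 1 [301] (.d 456 3404 332 3435 487)
 (.a 1 [456] (.r 332 3373 301 (.r 428 1356 364 (.d 426 424 424 425 429)))
 (.a 0 [332] (.q 428 (.a 1 [] (.d 426 424 424 425 429)
 (.a 1 [424] (.d 492 1388 364 1420 524)
 .e)))
 .e)))))
 .e))))
 .e))))
 .e)))) (by decide +kernel)

theorem b0_76 : S (PX [336] [270,303,402,463]) := S.of (.q 395 (.a 1 [] (.d 393 392 392 393 397)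
 (.a 1 [392] (.d 397 393 393 394 398)
 (.a 0 [393,397] (.q 331 (.a 1 [] (.d 299 1291 267 1323 427)
 (.a 1 [267] (.d 427 1323 299 1355 459)
 (.a 0 [299,427] (.q 330 (.a 1 [] (.d 297 2312 264 2345 429)
 (.a 1 [264] (.d 429 2345 297 2378 462)
 (.a 0 [297,429] (.q 332 (.a 1 [] (.d 329 328 328 329 333)
 (.a 1 [328] (.d 333 329 329 330 334)
 (.a 1 [329] (.d 425 3373 301 3404 456)
 .e))))
 .e))))
 .e))))
 .e)))) (by decide +kernel)

theorem b0_77 : S (PX [336] [270,303,402,490]) := S.of (.q 395 (.a 1 [] (.d 393 392 392 393 397)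
 (.a 1 [392] (.d 397 393 393 394 398)
 (.a 0 [393,397] (.q 429 (.a 1 [] (.d 330 2345 297 2378 462)
 (.a 1 [297] (.d 462 2378 330 2411 495)
 (.a 0 [330,462] (.q 332 (.a 1 [] (.d 425 3373 301 3404 456)
 (.a 0 [301,425,456] (.q 427 (.a 1 [] (.d 331 1323 299 1355 459)
 (.a 1 [299] (.d 459 1355 331 1387 491)
 (.a 0 [331,459] (.q 428 (.a 1 [] (.d 430 426 426 427 431)
 (.a 1 [426] (.d 364 1324 300 1356 460)
 .e)))
 .e))))
 .e)))
 .e))))
 .e)))) (by decide +kernel)

theorem b0_78 : S (PX [336] [270,303,402,491]) := S.of (.q 395 (.a 1 [] (.d 393 392 392 393 397)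
 (.a 1 [392] (.d 397 393 393 394 398)
 (.a 0 [393,397] (.q 429 (.a 1 [] (.d 330 2345 297 2378 462)
 (.a 1 [297] (.d 462 2378 330 2411 495)
 (.a 0 [330,462] (.q 427 (.a 1 [] (.d 331 1323 299 1355 459)
 (.a 0 [299,331,459] (.q 458 (.a 1 [] (.d 365 3406 334 3437 489)
 (.a 1 [334] (.d 489 3437 365 3468 520)
 (.a 0 [365,489] (.q 426 (.a 1 [] (.d 428 425 425 426 430)
 (.a 1 [425] (.d 490 1386 362 1418 522)
 .e)))
 .e))))
 .e)))
 .e))))
 .e)))) (by decide +kernel)

theorem b0_79 : S (PX [336] [270,303,402,492]) := S.of (.q 395 (.a 1 [] (.d 393 392 392 393 397)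
 (.a 1 [392] (.d 397 393 393 394 398)
 (.a 0 [393,397] (.q 429 (.a 1 [] (.d 330 2345 297 2378 462)
 (.a 1 [297] (.d 462 2378 330 2411 495)
 (.a 0 [330,462] (.q 398 (.a 1 [] (.d 367 3377 305 3408 460)
 (.a 1 [305] (.r 460 3408 367 (.r 491 3470 522 (.r 427 1387 459 (.d 493 2409 361 2442 526))))
 (.a 0 [367,460] (.q 332 (.a 1 [] (.d 425 3373 301 3404 456)
 (.a 0 [301,425,456] (.q 299 (.a 1 [] (.d 331 1291 267 1323 427)
 (.a 1 [267] (.d 365 2314 266 2347 431)
 .e)))
 .e)))
 .e))))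
 .e))))
 .e)))) (by decide +kernel)

theorem b0_80 : S (PX [336] [270,303,402,493]) := S.of (.q 395 (.a 1 [] (.d 393 392 392 393 397)
 (.a 1 [392] (.d 397 393 393 394 398)
 (.a 0 [393,397] (.q 429 (.a 1 [] (.d 330 2345 297 2378 462)
 (.a 1 [297] (.d 462 2378 330 2411 495)
 (.a 0 [330,462] (.q 427 (.a 1 [] (.d 331 1323 299 1355 459)
 (.a 1 [299] (.d 459 1355 331 1387 491)
 (.a 0 [331,459] (.q 458 (.a 1 [] (.d 365 3406 334 3437 489)
 (.a 1 [334] (.d 489 3437 365 3468 520)
 (.a 0 [365,489] (.q 426 (.a 1 [] (.d 428 425 425 426 430)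
 (.a 1 [425] (.d 490 1386 362 1418 522)
 .e)))
 .e))))
 .e))))
 .e))))
 .e)))) (by decide +kernel)

theorem b0_81 : S (PX [336] [270,303,402,521]) := S.of (.q 395 (.a 1 [] (.d 393 392 392 393 397)
 (.a 1 [392] (.d 397 393 393 394 398)
 (.a 0 [393,397] (.q 429 (.a 1 [] (.d 330 2345 297 2378 462)
 (.a 1 [297] (.d 462 2378 330 2411 495)
 (.a 0 [330,462] (.q 398 (.a 1 [] (.d 367 3377 305 3408 460)
 (.a 1 [305] (.r 460 3408 367 (.r 491 3470 522 (.r 427 1387 459 (.d 493 2409 361 2442 526))))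
 (.a 0 [367,460] (.q 299 (.a 1 [] (.d 331 1291 267 1323 427)
 (.a 0 [267,331,427] (.q 332 (.a 1 [] (.d 365 2314 266 2347 431)
 (.a 1 [266] (.d 425 3373 301 3404 456)
 .e)))
 .e)))
 .e))))
 .e))))
 .e)))) (by decide +kernel)

theorem b0_128 : S (PX [237,369] [270,300,303,336,402]) := S.of (.q 330 (.a 1 [] (.d 297 2312 264 2345 429)
 (.a 1 [264] (.d 429 2345 297 2378 462)
 (.a 0 [297,429] (.q 299 (.a 1 [] (.d 268 3278 206 3309 361)
 (.a 1 [206] (.r 361 3309 268 (.r 392 3371 423 (.r 395 392 393 (.d 331 1291 267 1323 427))))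
 (.a 0 [268,361] (.q 395 (.a 1 [] (.d 393 392 392 393 397)
 (.a 1 [392] (.d 397 393 393 394 398)
 (.a 1 [393] (.d 331 1291 267 1323 427)
 .e))))
 .e))))
 .e)))) (by decide +kernel)

theorem b0_129 : S (PX [237,369] [270,301,303,336,402]) := S.of (.q 330 (.a 1 [] (.d 297 2312 264 2345 429)
 (.a 1 [264] (.d 429 2345 297 2378 462)
 (.a 0 [297,429] (.q 299 (.a 1 [] (.d 268 3278 206 3309 361)
 (.a 1 [206] (.r 361 3309 268 (.r 392 3371 423 (.r 395 392 393 (.d 331 1291 267 1323 427))))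
 (.a 0 [268,361] (.q 395 (.a 1 [] (.d 393 392 392 393 397)
 (.a 1 [392] (.d 397 393 393 394 398)
 (.a 1 [393] (.d 331 1291 267 1323 427)
 .e))))
 .e))))
 .e)))) (by decide +kernel)

theorem b0_130 : S (PX [237,369] [270,302,303,336,402]) := S.of (.q 395 (.a 1 [] (.d 393 392 392 393 397)
 (.a 1 [392] (.d 397 393 393 394 398)
 (.a 0 [393,397] (.q 427 (.a 1 [] (.d 331 1323 299 1355 459)
 (.a 1 [299] (.d 459 1355 331 1387 491)
 (.a 0 [331,459] (.q 330 (.a 1 [] (.d 297 2312 264 2345 429)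
 (.a 1 [264] (.d 429 2345 297 2378 462)
 (.a 0 [297,429] (.q 365 (.a 1 [] (.d 458 3406 334 3437 489)
 (.a 1 [334] (.r 458 3437 489 (.r 362 1354 426 (.d 364 361 361 362 366)))
 (.a 1 [489] (.r 458 3406 334 (.r 362 1354 426 (.d 364 361 361 362 366)))
 (.a 0 [458] (.q 361 (.a 1 [] (.d 328 2343 295 2376 460)
 (.a 1 [295] (.d 460 2376 328 2409 493)
 (.a 1 [328] (.r 362 361 364 (.d 298 1290 266 1322 426))
 .e))))
 .e)))))
 .e))))
 .e))))
 .e)))) (by decide +kernel)

theorem b0_131 : S (PX [237,369] [270,303,330,336,402]) := S.of (.q 395 (.a 1 [] (.d 393 392 392 393 397)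
 (.a 1 [392] (.d 397 393 393 394 398)
 (.a 0 [393,397] (.q 427 (.a 1 [] (.d 331 1323 299 1355 459)
 (.a 1 [299] (.d 459 1355 331 1387 491)
 (.a 0 [331,459] (.q 460 (.a 1 [] (.d 361 2376 328 2409 493)
 (.a 1 [328] (.d 493 2409 361 2442 526)
 (.a 0 [361] (.r 493 2442 526 (.q 489 (.a 1 [] (.d 458 3437 365 3468 520)
 (.a 0 [365,458,520] (.q 428 (.a 1 [] (.d 364 1356 332 1388 492)
 (.a 1 [332] (.d 492 1388 364 1420 524)
 (.a 1 [364] (.r 492 1420 524 (.r 491 489 490 (.r 494 491 495 (.d 461 2410 362 2443 527))))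
 (.a 1 [492] (.r 332 1356 364 (.d 425 3373 301 3404 456))
 .e)))))
 .e))))
 (.a 0 [493] (.q 332 (.a 1 [] (.d 425 3373 301 3404 456)
 (.a 1 [301] (.r 364 1356 428 (.r 361 2376 328 (.d 362 360 360 361 365)))
 .e)))
 .e)))))
 .e))))
 .e)))) (by decide +kernel)

theorem b0_132 : S (PX [237,369] [270,303,334,336,402]) := S.of (.q 330 (.a 1 [] (.d 297 2312 264 2345 429)
 (.a 1 [264] (.d 429 2345 297 2378 462)
 (.a 0 [297,429] (.q 362 (.a 1 [] (.d 298 1290 266 1322 426)
 (.a 1 [266] (.d 426 1322 298 1354 458)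
 (.a 0 [298,426] (.q 361 (.a 1 [] (.d 360 359 359 360 364)
 (.a 1 [359] (.d 364 360 360 361 365)
 (.a 1 [360] (.r 299 3309 268 (.r 392 3371 423 (.r 395 392 393 (.d 331 1291 267 1323 427))))
 .e))))
 .e))))
 .e)))) (by decide +kernel)

theorem b0_133 : S (PX [237,369] [270,303,336,392,402]) := S.of (.q 330 (.a 1 [] (.d 297 2312 264 2345 429)
 (.a 1 [264] (.d 429 2345 297 2378 462)
 (.a 0 [297,429] (.q 362 (.a 1 [] (.d 298 1290 266 1322 426)
 (.a 1 [266] (.d 426 1322 298 1354 458)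
 (.a 0 [298,426] (.q 361 (.a 1 [] (.d 360 359 359 360 364)
 (.a 1 [359] (.d 364 360 360 361 365)
 (.a 0 [360,364] (.q 427 (.a 1 [] (.d 328 2343 295 2376 460)
 (.a 1 [295] (.d 460 2376 328 2409 493)
 (.a 1 [328] (.r 299 3309 268 (.r 395 1323 331 (.d 397 393 393 394 398)))
 .e))))
 .e))))
 .e))))
 .e)))) (by decide +kernel)

theorem b0_159 : S (PX [] [270,330,402]) := S.of (.q 395 (.a 1 [] (.d 393 392 392 393 397)
 (.a 1 [392] (.d 397 393 393 394 398)
 (.a 0 [393,397] (.q 427 (.a 1 [] (.d 331 1323 299 1355 459)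
 (.a 1 [299] (.d 459 1355 331 1387 491)
 (.a 0 [331,459] (.q 460 (.a 1 [] (.d 361 2376 328 2409 493)
 (.a 1 [328] (.d 493 2409 361 2442 526)
 (.a 0 [361,493] (.q 365 (.a 1 [] (.d 334 3375 303 3406 458)
 (.a 1 [303] (.d 458 3406 334 3437 489)
 (.a 0 [334,458] (.q 332 (.a 1 [] (.d 425 3373 301 3404 456)
 (.a 1 [301] (.r 364 1356 428 (.d 366 362 362 363 367))
 .e)))
 .e))))
 .e))))
 .e))))
 .e)))) (by decide +kernel)

theorem b0_160 : S (PX [303] [270,330,336,402]) := S.of (.q 395 (.a 1 [] (.d 393 392 392 393 397)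
 (.a 1 [392] (.d 397 393 393 394 398)
 (.a 0 [393,397] (.q 427 (.a 1 [] (.d 331 1323 299 1355 459)
 (.a 1 [299] (.d 459 1355 331 1387 491)
 (.a 0 [331,459] (.q 361 (.a 1 [] (.d 328 2343 295 2376 460)
 (.a 1 [295] (.d 460 2376 328 2409 493)
 (.a 1 [328] (.r 365 3375 334 (.r 364 361 362 (.r 460 2409 493 (.d 428 1356 332 1388 492))))
 (.a 0 [460] (.q 332 (.a 1 [] (.d 425 3373 301 3404 456)
 (.a 1 [301] (.r 365 3375 334 (.r 364 361 362 (.d 300 1292 268 1324 428)))
 .e)))
 .e)))))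
 .e))))
 .e)))) (by decide +kernel)

theorem b0_161 : S (PX [303] [270,336,392,402]) := S.of (.q 330 (.a 1 [] (.d 297 2312 264 2345 429)
 (.a 1 [264] (.d 429 2345 297 2378 462)
 (.a 0 [297,429] (.q 362 (.a 1 [] (.d 298 1290 266 1322 426)
 (.a 1 [266] (.d 426 1322 298 1354 458)
 (.a 0 [298,426] (.q 365 (.a 1 [] (.d 364 361 361 362 366)
 (.a 1 [361] (.d 334 3344 272 3375 427)
 .e)))
 .e))))
 .e)))) (by decide +kernel)

theorem b0_294 : S (PX [336] [270,330,369,402]) := S.of (.q 395 (.a 1 [] (.d 393 392 392 393 397)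
 (.a 1 [392] (.d 397 393 393 394 398)
 (.a 0 [393,397] (.q 427 (.a 1 [] (.d 331 1323 299 1355 459)
 (.a 1 [299] (.d 459 1355 331 1387 491)
 (.a 0 [331,459] (.q 460 (.a 1 [] (.d 361 2376 328 2409 493)
 (.a 1 [328] (.d 493 2409 361 2442 526)
 (.a 0 [361,493] (.q 365 (.a 1 [] (.d 334 3375 303 3406 458)
 (.a 1 [303] (.d 458 3406 334 3437 489)
 (.a 0 [334,458] (.q 332 (.a 1 [] (.d 425 3373 301 3404 456)
 (.a 1 [301] (.r 364 1356 428 (.d 366 362 362 363 367))
 .e)))
 .e))))
 .e))))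
 .e))))
 .e)))) (by decide +kernel)

theorem b0_303 : S (PX [] [300,303,402]) := S.of (.q 330 (.a 1 [] (.d 297 2312 264 2345 429)
 (.a 1 [264] (.d 429 2345 297 2378 462)
 (.a 0 [297,429] (.q 425 (.a 1 [] (.d 332 3373 301 3404 456)
 (.a 1 [301] (.d 456 3404 332 3435 487)
 (.a 0 [332,456] (.q 393 (.a 1 [] (.d 395 392 392 393 397)
 (.a 0 [392,395,397] (.q 361 (.a 1 [] (.d 457 1353 329 1385 489)
 (.a 0 [329,457,489] (.q 362 (.a 1 [] (.d 360 359 359 360 364)
 (.a 1 [359] (.d 364 360 360 361 365)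
 (.a 1 [360] (.d 298 1290 266 1322 426)
 .e))))
 .e)))
 .e)))
 .e))))
 .e)))) (by decide +kernel)

theorem b0_304 : S (PX [] [302,303,402]) := S.of (.q 395 (.a 1 [] (.d 393 392 392 393 397)
 (.a 1 [392] (.d 397 393 393 394 398)
 (.a 0 [393,397] (.q 427 (.a 1 [] (.d 331 1323 299 1355 459)
 (.a 1 [299] (.d 459 1355 331 1387 491)
 (.a 0 [331,459] (.q 425 (.a 1 [] (.d 332 3373 301 3404 456)
 (.a 1 [301] (.d 456 3404 332 3435 487)
 (.a 0 [332,456] (.q 458 (.a 1 [] (.d 365 3406 334 3437 489)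
 (.a 1 [334] (.d 489 3437 365 3468 520)
 (.a 0 [365,489] (.q 426 (.a 1 [] (.d 424 423 423 424 428)
 (.a 1 [423] (.d 428 424 424 425 429)
 (.a 1 [424] (.d 362 1354 330 1386 490)
 .e))))
 .e))))
 .e))))
 .e))))
 .e)))) (by decide +kernel)

theorem b0_305 : S (PX [] [303,330,402]) := S.of (.q 395 (.a 1 [] (.d 393 392 392 393 397)
 (.a 1 [392] (.d 397 393 393 394 398)
 (.a 0 [393,397] (.q 427 (.a 1 [] (.d 331 1323 299 1355 459)
 (.a 1 [299] (.d 459 1355 331 1387 491)
 (.a 0 [331,459] (.q 332 (.a 1 [] (.d 301 3342 270 3373 425)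
 (.a 1 [270] (.d 425 3373 301 3404 456)
 (.a 0 [301,425] (.q 361 (.a 1 [] (.d 328 2343 295 2376 460)
 (.a 1 [295] (.d 460 2376 328 2409 493)
 (.a 1 [328] (.r 460 2409 493 (.r 364 1356 428 (.d 362 360 360 361 365)))
 (.a 0 [460] (.q 364 (.a 1 [] (.d 362 360 360 361 365)
 (.a 1 [360] (.d 300 1292 268 1324 428)
 .e)))
 .e)))))
 .e))))
 .e))))
 .e)))) (by decide +kernel)

theorem b0_315 : S (PX [270,369] [204,235,303,336,402]) := S.of (.q 395 (.a 1 [] (.d 393 392 392 393 397)
 (.a 1 [392] (.d 397 393 393 394 398)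
 (.a 0 [393,397] (.q 427 (.a 1 [] (.d 331 1323 299 1355 459)
 (.a 1 [299] (.d 459 1355 331 1387 491)
 (.a 0 [331,459] (.q 429 (.a 1 [] (.d 330 2345 297 2378 462)
 (.a 1 [297] (.d 462 2378 330 2411 495)
 (.a 1 [330] (.r 332 3342 301 (.r 425 3404 456 (.r 428 425 426 (.d 364 1324 300 1356 460))))
 .e))))
 .e))))
 .e)))) (by decide +kernel)

theorem b0_316 : S (PX [270,369] [204,266,303,336,402]) := S.of (.q 395 (.a 1 [] (.d 393 392 392 393 397)
 (.a 1 [392] (.d 397 393 393 394 398)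
 (.a 0 [393,397] (.q 427 (.a 1 [] (.d 331 1323 299 1355 459)
 (.a 1 [299] (.d 459 1355 331 1387 491)
 (.a 0 [331,459] (.q 429 (.a 1 [] (.d 330 2345 297 2378 462)
 (.a 1 [297] (.d 462 2378 330 2411 495)
 (.a 1 [330] (.r 332 3342 301 (.r 425 3404 456 (.r 428 425 426 (.d 364 1324 300 1356 460))))
 .e))))
 .e))))
 .e)))) (by decide +kernel)

theorem b0_317 : S (PX [270,369] [204,300,303,336,402]) := S.of (.q 395 (.a 1 [] (.d 393 392 392 393 397)
 (.a 1 [392] (.d 397 393 393 394 398)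
 (.a 0 [393,397] (.q 429 (.a 1 [] (.d 330 2345 297 2378 462)
 (.a 1 [297] (.d 462 2378 330 2411 495)
 (.a 0 [330,462] (.q 427 (.a 1 [] (.d 331 1323 299 1355 459)
 (.a 1 [299] (.d 459 1355 331 1387 491)
 (.a 1 [331] (.r 332 3342 301 (.r 425 3404 456 (.r 428 425 426 (.r 460 1356 364 (.d 493 2409 361 2442 526)))))
 .e))))
 .e))))
 .e)))) (by decide +kernel)

theorem b0_318 : S (PX [270,369] [204,302,303,336,402]) := S.of (.q 395 (.a 1 [] (.d 393 392 392 393 397)
 (.a 1 [392] (.d 397 393 393 394 398)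
 (.a 0 [393,397] (.q 427 (.a 1 [] (.d 331 1323 299 1355 459)
 (.a 1 [299] (.d 459 1355 331 1387 491)
 (.a 0 [331,459] (.q 429 (.a 1 [] (.d 330 2345 297 2378 462)
 (.a 1 [297] (.d 462 2378 330 2411 495)
 (.a 1 [330] (.r 332 3342 301 (.r 425 3404 456 (.r 428 425 426 (.d 364 1324 300 1356 460))))
 .e))))
 .e))))
 .e)))) (by decide +kernel)

theorem b0_319 : S (PX [270,369] [204,303,333,336,402]) := S.of (.q 395 (.a 1 [] (.d 393 392 392 393 397)
 (.a 1 [392] (.d 397 393 393 394 398)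
 (.a 0 [393,397] (.q 427 (.a 1 [] (.d 331 1323 299 1355 459)
 (.a 1 [299] (.d 459 1355 331 1387 491)
 (.a 0 [331,459] (.q 429 (.a 1 [] (.d 330 2345 297 2378 462)
 (.a 1 [297] (.d 462 2378 330 2411 495)
 (.a 1 [330] (.r 332 3342 301 (.r 425 3404 456 (.r 428 425 426 (.d 364 1324 300 1356 460))))
 .e))))
 .e))))
 .e)))) (by decide +kernel)

theorem b0_320 : S (PX [270,369] [204,303,335,336,402]) := S.of (.q 395 (.a 1 [] (.d 393 392 392 393 397)
 (.a 1 [392] (.d 397 393 393 394 398)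
 (.a 0 [393,397] (.q 331 (.a 1 [] (.d 299 1291 267 1323 427)
 (.a 1 [267] (.d 427 1323 299 1355 459)
 (.a 0 [299,427] (.q 330 (.a 1 [] (.d 297 2312 264 2345 429)
 (.a 1 [264] (.d 429 2345 297 2378 462)
 (.a 1 [297] (.r 332 3342 301 (.d 329 328 328 329 333))
 .e))))
 .e))))
 .e)))) (by decide +kernel)

theorem b0_321 : S (PX [270,369] [204,303,336,362,402]) := S.of (.q 395 (.a 1 [] (.d 393 392 392 393 397)
 (.a 1 [392] (.d 397 393 393 394 398)
 (.a 0 [393,397] (.q 331 (.a 1 [] (.d 299 1291 267 1323 427)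
 (.a 1 [267] (.d 427 1323 299 1355 459)
 (.a 0 [299,427] (.q 330 (.a 1 [] (.d 297 2312 264 2345 429)
 (.a 1 [264] (.d 429 2345 297 2378 462)
 (.a 1 [297] (.r 332 3342 301 (.d 329 328 328 329 333))
 .e))))
 .e))))
 .e)))) (by decide +kernel)

theorem b0_322 : S (PX [270,369] [204,303,336,393,402]) := S.of (.q 330 (.a 1 [] (.d 297 2312 264 2345 429)
 (.a 1 [264] (.d 429 2345 297 2378 462)
 (.a 0 [297,429] (.q 362 (.a 1 [] (.d 298 1290 266 1322 426)
 (.a 1 [266] (.d 426 1322 298 1354 458)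
 (.a 0 [298,426] (.q 364 (.a 1 [] (.d 361 360 360 361 365)
 (.a 1 [360] (.d 365 361 361 362 366)
 (.a 1 [361] (.r 332 3342 301 (.d 300 1292 268 1324 428))
 .e))))
 .e))))
 .e)))) (by decide +kernel)

theorem b0_323 : S (PX [270,369] [204,303,336,395,402]) := S.of (.q 330 (.a 1 [] (.d 297 2312 264 2345 429)
 (.a 1 [264] (.d 429 2345 297 2378 462)
 (.a 0 [297,429] (.q 362 (.a 1 [] (.d 298 1290 266 1322 426)
 (.a 1 [266] (.d 426 1322 298 1354 458)
 (.a 0 [298,426] (.q 364 (.a 1 [] (.d 361 360 360 361 365)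
 (.a 1 [360] (.d 365 361 361 362 366)
 (.a 1 [361] (.r 332 3342 301 (.d 300 1292 268 1324 428))
 .e))))
 .e))))
 .e)))) (by decide +kernel)

theorem b0_329 : S (PX [270,369] [237,300,303,336,402]) := S.of (.q 395 (.a 1 [] (.d 393 392 392 393 397)
 (.a 1 [392] (.d 397 393 393 394 398)
 (.a 0 [393,397] (.q 330 (.a 1 [] (.d 297 2312 264 2345 429)
 (.a 1 [264] (.d 429 2345 297 2378 462)
 (.a 0 [297,429] (.q 362 (.a 1 [] (.d 298 1290 266 1322 426)
 (.a 1 [266] (.d 426 1322 298 1354 458)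
 (.a 0 [298,426] (.q 299 (.a 1 [] (.d 331 1291 267 1323 427)
 (.a 1 [267] (.r 332 3342 301 (.r 331 1323 427 (.d 333 329 329 330 334)))
 (.a 1 [427] (.r 332 3342 301 (.r 331 1291 267 (.d 333 329 329 330 334)))
 (.a 0 [331] (.q 364 (.a 1 [] (.d 361 360 360 361 365)
 (.a 1 [360] (.d 365 361 361 362 366)
 (.a 1 [361] (.r 332 3342 301 (.r 365 362 366 (.d 398 2314 266 2347 431)))
 (.a 1 [365] (.r 361 360 360 (.d 392 3340 268 3371 423))
 .e)))))
 .e)))))
 .e))))
 .e))))
 .e)))) (by decide +kernel)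

theorem b0_330 : S (PX [270,369] [237,302,303,336,402]) := S.of (.q 395 (.a 1 [] (.d 393 392 392 393 397)
 (.a 1 [392] (.d 397 393 393 394 398)
 (.a 0 [393,397] (.q 427 (.a 1 [] (.d 331 1323 299 1355 459)
 (.a 1 [299] (.d 459 1355 331 1387 491)
 (.a 0 [331,459] (.q 429 (.a 1 [] (.d 330 2345 297 2378 462)
 (.a 1 [297] (.d 462 2378 330 2411 495)
 (.a 1 [330] (.r 332 3342 301 (.r 425 3404 456 (.r 428 425 426 (.d 364 1324 300 1356 460))))
 .e))))
 .e))))
 .e)))) (by decide +kernel)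

theorem b0_331 : S (PX [270,369] [237,303,330,336,402]) := S.of (.q 395 (.a 1 [] (.d 393 392 392 393 397)
 (.a 1 [392] (.d 397 393 393 394 398)
 (.a 0 [393,397] (.q 427 (.a 1 [] (.d 331 1323 299 1355 459)
 (.a 1 [299] (.d 459 1355 331 1387 491)
 (.a 0 [331,459] (.q 460 (.a 1 [] (.d 361 2376 328 2409 493)
 (.a 1 [328] (.d 493 2409 361 2442 526)
 (.a 1 [361] (.r 332 3342 301 (.r 428 1356 364 (.r 425 3404 456 (.d 426 424 424 425 429))))
 .e))))
 .e))))
 .e)))) (by decide +kernel)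

theorem b0_332 : S (PX [270,369] [237,303,333,336,402]) := S.of (.q 395 (.a 1 [] (.d 393 392 392 393 397)
 (.a 1 [392] (.d 397 393 393 394 398)
 (.a 0 [393,397] (.q 427 (.a 1 [] (.d 331 1323 299 1355 459)
 (.a 1 [299] (.d 459 1355 331 1387 491)
 (.a 0 [331,459] (.q 429 (.a 1 [] (.d 330 2345 297 2378 462)
 (.a 1 [297] (.d 462 2378 330 2411 495)
 (.a 1 [330] (.r 332 3342 301 (.r 425 3404 456 (.r 428 425 426 (.d 364 1324 300 1356 460))))
 .e))))
 .e))))
 .e)))) (by decide +kernel)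

theorem b0_333 : S (PX [270,369] [237,303,336,402,425]) := S.of (.q 395 (.a 1 [] (.d 393 392 392 393 397)
 (.a 1 [392] (.d 397 393 393 394 398)
 (.a 0 [393,397] (.q 427 (.a 1 [] (.d 331 1323 299 1355 459)
 (.a 1 [299] (.d 459 1355 331 1387 491)
 (.a 0 [331,459] (.q 361 (.a 1 [] (.d 328 2343 295 2376 460)
 (.a 1 [295] (.d 460 2376 328 2409 493)
 (.a 0 [328,460] (.q 364 (.a 1 [] (.d 362 360 360 361 365)
 (.a 1 [360] (.r 365 361 362 (.d 458 3406 334 3437 489))
 (.a 1 [362] (.r 332 3342 301 (.d 300 1292 268 1324 428))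
 .e))))
 .e))))
 .e))))
 .e)))) (by decide +kernel)

theorem b0_334 : S (PX [369] [265,303,336,402]) := S.of (.q 395 (.a 1 [] (.d 393 392 392 393 397)
 (.a 1 [392] (.d 397 393 393 394 398)
 (.a 0 [393,397] (.q 331 (.a 1 [] (.d 299 1291 267 1323 427)
 (.a 1 [267] (.d 427 1323 299 1355 459)
 (.a 0 [299,427] (.q 330 (.a 1 [] (.d 297 2312 264 2345 429)
 (.a 1 [264] (.d 429 2345 297 2378 462)
 (.a 0 [297,429] (.q 329 (.a 1 [] (.d 328 327 327 328 332)
 (.a 1 [327] (.d 332 328 328 329 333)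
 (.a 1 [328] (.r 332 329 333 (.d 425 3373 301 3404 456))
 (.a 0 [332] (.q 362 (.a 1 [] (.d 298 1290 266 1322 426)
 (.a 1 [266] (.d 426 1322 298 1354 458)
 (.a 1 [298] (.d 296 2311 263 2344 428)
 .e))))
 .e)))))
 .e))))
 .e))))
 .e)))) (by decide +kernel)

theorem b0_335 : S (PX [369] [268,303,336,402]) := S.of (.q 395 (.a 1 [] (.d 393 392 392 393 397)
 (.a 1 [392] (.d 397 393 393 394 398)
 (.a 0 [393,397] (.q 427 (.a 1 [] (.d 331 1323 299 1355 459)
 (.a 1 [299] (.d 459 1355 331 1387 491)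
 (.a 0 [331,459] (.q 330 (.a 1 [] (.d 297 2312 264 2345 429)
 (.a 1 [264] (.d 429 2345 297 2378 462)
 (.a 0 [297,429] (.q 425 (.a 1 [] (.d 332 3373 301 3404 456)
 (.a 1 [301] (.d 456 3404 332 3435 487)
 (.a 0 [332,456] (.q 426 (.a 1 [] (.d 424 423 423 424 428)
 (.a 1 [423] (.d 362 1322 298 1354 458)
 .e)))
 .e))))
 .e))))
 .e))))
 .e)))) (by decide +kernel)

theorem b0_336 : S (PX [369] [269,303,336,402]) := S.of (.q 395 (.a 1 [] (.d 393 392 392 393 397)
 (.a 1 [392] (.d 397 393 393 394 398)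
 (.a 0 [393,397] (.q 331 (.a 1 [] (.d 299 1291 267 1323 427)
 (.a 1 [267] (.d 427 1323 299 1355 459)
 (.a 0 [299,427] (.q 330 (.a 1 [] (.d 297 2312 264 2345 429)
 (.a 1 [264] (.d 429 2345 297 2378 462)
 (.a 0 [297,429] (.q 332 (.a 1 [] (.d 329 328 328 329 333)
 (.a 1 [328] (.d 333 329 329 330 334)
 (.a 1 [329] (.d 301 3342 270 3373 425)
 .e))))
 .e))))
 .e))))
 .e)))) (by decide +kernel)

theorem b0_337 : S (PX [369] [299,303,336,402]) := S.of (.q 330 (.a 1 [] (.d 297 2312 264 2345 429)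
 (.a 1 [264] (.d 429 2345 297 2378 462)
 (.a 0 [297,429] (.q 395 (.a 1 [] (.d 393 392 392 393 397)
 (.a 1 [392] (.d 397 393 393 394 398)
 (.a 0 [393,397] (.q 425 (.a 1 [] (.d 332 3373 301 3404 456)
 (.a 1 [301] (.d 456 3404 332 3435 487)
 (.a 0 [332,456] (.q 427 (.a 1 [] (.d 459 1355 331 1387 491)
 (.a 0 [331,459,491] (.q 426 (.a 1 [] (.d 424 423 423 424 428)
 (.a 1 [423] (.d 362 1322 298 1354 458)
 .e)))
 .e)))
 .e))))
 .e))))
 .e)))) (by decide +kernel)

theorem b0_338 : S (PX [369] [300,303,336,402]) := S.of (.q 330 (.a 1 [] (.d 297 2312 264 2345 429)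
 (.a 1 [264] (.d 429 2345 297 2378 462)
 (.a 0 [297,429] (.q 425 (.a 1 [] (.d 332 3373 301 3404 456)
 (.a 1 [301] (.d 456 3404 332 3435 487)
 (.a 0 [332,456] (.q 393 (.a 1 [] (.d 395 392 392 393 397)
 (.a 0 [392,395,397] (.q 361 (.a 1 [] (.d 457 1353 329 1385 489)
 (.a 0 [329,457,489] (.q 362 (.a 1 [] (.d 360 359 359 360 364)
 (.a 1 [359] (.d 364 360 360 361 365)
 (.a 1 [360] (.d 298 1290 266 1322 426)
 .e))))
 .e)))
 .e)))
 .e))))
 .e)))) (by decide +kernel)

theorem b0_339 : S (PX [369] [301,303,336,402]) := S.of (.q 395 (.a 1 [] (.d 393 392 392 393 397)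
 (.a 1 [392] (.d 397 393 393 394 398)
 (.a 0 [393,397] (.q 427 (.a 1 [] (.d 331 1323 299 1355 459)
 (.a 1 [299] (.d 459 1355 331 1387 491)
 (.a 0 [331,459] (.q 429 (.a 1 [] (.d 330 2345 297 2378 462)
 (.a 1 [297] (.d 462 2378 330 2411 495)
 (.a 0 [330,462] (.q 460 (.a 1 [] (.d 361 2376 328 2409 493)
 (.a 1 [328] (.d 493 2409 361 2442 526)
 (.a 0 [361,493] (.q 428 (.a 1 [] (.d 426 425 425 426 430)
 (.a 1 [425] (.d 430 426 426 427 431)
 (.a 1 [426] (.d 364 1356 332 1388 492)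
 .e))))
 .e))))
 .e))))
 .e))))
 .e)))) (by decide +kernel)

theorem b0_340 : S (PX [369] [302,303,336,402]) := S.of (.q 395 (.a 1 [] (.d 393 392 392 393 397)
 (.a 1 [392] (.d 397 393 393 394 398)
 (.a 0 [393,397] (.q 427 (.a 1 [] (.d 331 1323 299 1355 459)
 (.a 1 [299] (.d 459 1355 331 1387 491)
 (.a 0 [331,459] (.q 429 (.a 1 [] (.d 330 2345 297 2378 462)
 (.a 1 [297] (.d 462 2378 330 2411 495)
 (.a 0 [330,462] (.q 460 (.a 1 [] (.d 361 2376 328 2409 493)
 (.a 1 [328] (.d 493 2409 361 2442 526)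
 (.a 0 [361,493] (.q 428 (.a 1 [] (.d 426 425 425 426 430)
 (.a 1 [425] (.d 430 426 426 427 431)
 (.a 1 [426] (.d 364 1356 332 1388 492)
 .e))))
 .e))))
 .e))))
 .e))))
 .e)))) (by decide +kernel)

theorem b0_341 : S (PX [369] [303,327,336,402]) := S.of (.q 395 (.a 1 [] (.d 393 392 392 393 397)
 (.a 1 [392] (.d 397 393 393 394 398)
 (.a 0 [393,397] (.q 330 (.a 1 [] (.d 297 2312 264 2345 429)
 (.a 1 [264] (.d 429 2345 297 2378 462)
 (.a 0 [297,429] (.q 426 (.a 1 [] (.d 362 1322 298 1354 458)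
 (.a 0 [298,362,458] (.q 425 (.a 1 [] (.d 332 3373 301 3404 456)
 (.a 1 [301] (.d 456 3404 332 3435 487)
 (.a 0 [332,456] (.q 427 (.a 1 [] (.d 424 423 423 424 428)
 (.a 1 [423] (.d 459 1355 331 1387 491)
 .e)))
 .e))))
 .e)))
 .e))))
 .e)))) (by decide +kernel)

theorem b0_342 : S (PX [369] [303,328,336,402]) := S.of (.q 395 (.a 1 [] (.d 393 392 392 393 397)
 (.a 1 [392] (.d 397 393 393 394 398)
 (.a 0 [393,397] (.q 427 (.a 1 [] (.d 331 1323 299 1355 459)
 (.a 1 [299] (.d 459 1355 331 1387 491)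
 (.a 0 [331,459] (.q 330 (.a 1 [] (.d 297 2312 264 2345 429)
 (.a 1 [264] (.d 429 2345 297 2378 462)
 (.a 0 [297,429] (.q 425 (.a 1 [] (.d 332 3373 301 3404 456)
 (.a 1 [301] (.d 456 3404 332 3435 487)
 (.a 0 [332,456] (.q 426 (.a 1 [] (.d 424 423 423 424 428)
 (.a 1 [423] (.d 362 1322 298 1354 458)
 .e)))
 .e))))
 .e))))
 .e))))
 .e)))) (by decide +kernel)

theorem b0_343 : S (PX [369] [303,330,336,402]) := S.of (.q 332 (.a 1 [] (.d 301 3342 270 3373 425)
 (.a 1 [270] (.d 425 3373 301 3404 456)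
 (.a 0 [301,425] (.q 395 (.a 1 [] (.d 393 392 392 393 397)
 (.a 1 [392] (.d 397 393 393 394 398)
 (.a 0 [393,397] (.q 427 (.a 1 [] (.d 331 1323 299 1355 459)
 (.a 1 [299] (.d 459 1355 331 1387 491)
 (.a 0 [331,459] (.q 361 (.a 1 [] (.d 328 2343 295 2376 460)
 (.a 1 [295] (.d 460 2376 328 2409 493)
 (.a 1 [328] (.r 460 2409 493 (.r 364 1356 428 (.d 362 360 360 361 365)))
 (.a 0 [460] (.q 364 (.a 1 [] (.d 362 360 360 361 365)
 (.a 1 [360] (.d 300 1292 268 1324 428)
 .e)))
 .e)))))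
 .e))))
 .e))))
 .e)))) (by decide +kernel)

theorem b0_344 : S (PX [369] [303,331,336,402]) := S.of (.q 332 (.a 1 [] (.d 301 3342 270 3373 425)
 (.a 1 [270] (.d 425 3373 301 3404 456)
 (.a 0 [301,425] (.q 429 (.a 1 [] (.d 330 2345 297 2378 462)
 (.a 1 [297] (.d 462 2378 330 2411 495)
 (.a 0 [330,462] (.q 397 (.a 1 [] (.d 395 393 393 394 398)
 (.a 0 [393,395,398] (.q 365 (.a 1 [] (.d 461 1357 333 1389 493)
 (.a 0 [333,461,493] (.q 364 (.a 1 [] (.d 362 361 361 362 366)
 (.a 1 [361] (.d 366 362 362 363 367)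
 (.a 1 [362] (.d 300 1292 268 1324 428)
 .e))))
 .e)))
 .e)))
 .e))))
 .e)))) (by decide +kernel)

theorem b0_345 : S (PX [369] [303,332,336,402]) := S.of (.q 395 (.a 1 [] (.d 393 392 392 393 397)
 (.a 1 [392] (.d 397 393 393 394 398)
 (.a 0 [393,397] (.q 427 (.a 1 [] (.d 331 1323 299 1355 459)
 (.a 1 [299] (.d 459 1355 331 1387 491)
 (.a 0 [331,459] (.q 330 (.a 1 [] (.d 297 2312 264 2345 429)
 (.a 1 [264] (.d 429 2345 297 2378 462)
 (.a 0 [297,429] (.q 365 (.a 1 [] (.d 458 3406 334 3437 489)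
 (.a 1 [334] (.r 458 3437 489 (.r 362 1354 426 (.d 364 361 361 362 366)))
 (.a 1 [489] (.r 458 3406 334 (.r 362 1354 426 (.d 364 361 361 362 366)))
 (.a 0 [458] (.q 362 (.a 1 [] (.d 364 361 361 362 366)
 (.a 1 [361] (.d 298 1290 266 1322 426)
 .e)))
 .e)))))
 .e))))
 .e))))
 .e)))) (by decide +kernel)

theorem b0_346 : S (PX [369] [303,333,336,402]) := S.of (.q 395 (.a 1 [] (.d 393 392 392 393 397)
 (.a 1 [392] (.d 397 393 393 394 398)
 (.a 0 [393,397] (.q 427 (.a 1 [] (.d 331 1323 299 1355 459)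
 (.a 1 [299] (.d 459 1355 331 1387 491)
 (.a 0 [331,459] (.q 429 (.a 1 [] (.d 330 2345 297 2378 462)
 (.a 1 [297] (.d 462 2378 330 2411 495)
 (.a 0 [330,462] (.q 332 (.a 1 [] (.d 301 3342 270 3373 425)
 (.a 1 [270] (.d 425 3373 301 3404 456)
 (.a 1 [301] (.r 425 3404 456 (.r 428 425 426 (.d 364 1324 300 1356 460)))
 (.a 0 [425] (.q 428 (.a 1 [] (.d 430 426 426 427 431)
 (.a 1 [426] (.d 364 1324 300 1356 460)
 .e)))
 .e)))))
 .e))))
 .e))))
 .e)))) (by decide +kernel)

theorem b0_347 : S (PX [369] [303,334,336,402]) := S.of (.q 332 (.a 1 [] (.d 301 3342 270 3373 425)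
 (.a 1 [270] (.d 425 3373 301 3404 456)
 (.a 0 [301,425] (.q 395 (.a 1 [] (.d 393 392 392 393 397)
 (.a 1 [392] (.d 397 393 393 394 398)
 (.a 0 [393,397] (.q 427 (.a 1 [] (.d 331 1323 299 1355 459)
 (.a 1 [299] (.d 459 1355 331 1387 491)
 (.a 0 [331,459] (.q 361 (.a 1 [] (.d 328 2343 295 2376 460)
 (.a 1 [295] (.d 460 2376 328 2409 493)
 (.a 1 [328] (.r 460 2409 493 (.r 364 1356 428 (.d 362 360 360 361 365)))
 (.a 0 [460] (.q 364 (.a 1 [] (.d 362 360 360 361 365)
 (.a 1 [360] (.d 300 1292 268 1324 428)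
 .e)))
 .e)))))
 .e))))
 .e))))
 .e)))) (by decide +kernel)

theorem b0_348 : S (PX [369] [303,335,336,402]) := S.of (.q 332 (.a 1 [] (.d 301 3342 270 3373 425)
 (.a 1 [270] (.d 425 3373 301 3404 456)
 (.a 0 [301,425] (.q 395 (.a 1 [] (.d 393 392 392 393 397)
 (.a 1 [392] (.d 397 393 393 394 398)
 (.a 0 [393,397] (.q 429 (.a 1 [] (.d 330 2345 297 2378 462)
 (.a 1 [297] (.d 462 2378 330 2411 495)
 (.a 0 [330,462] (.q 427 (.a 1 [] (.d 331 1323 299 1355 459)
 (.a 1 [299] (.d 459 1355 331 1387 491)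
 (.a 0 [331,459] (.q 428 (.a 1 [] (.d 430 426 426 427 431)
 (.a 1 [426] (.d 364 1324 300 1356 460)
 .e)))
 .e))))
 .e))))
 .e))))
 .e)))) (by decide +kernel)

theorem b0_349 : S (PX [369] [303,336,360,402]) := S.of (.q 395 (.a 1 [] (.d 393 392 392 393 397)
 (.a 1 [392] (.d 397 393 393 394 398)
 (.a 0 [393,397] (.q 332 (.a 1 [] (.d 301 3342 270 3373 425)
 (.a 1 [270] (.d 425 3373 301 3404 456)
 (.a 0 [301,425] (.q 429 (.a 1 [] (.d 330 2345 297 2378 462)
 (.a 1 [297] (.d 462 2378 330 2411 495)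
 (.a 0 [330,462] (.q 299 (.a 1 [] (.d 331 1291 267 1323 427)
 (.a 0 [267,331,427] (.q 365 (.a 1 [] (.d 266 2281 233 2314 398)
 (.a 1 [233] (.d 398 2314 266 2347 431)
 (.a 0 [266,398] (.q 364 (.a 1 [] (.d 362 361 361 362 366)
 (.a 1 [361] (.d 428 1324 300 1356 460)
 .e)))
 .e))))
 .e)))
 .e))))
 .e))))
 .e)))) (by decide +kernel)

theorem b0_350 : S (PX [369] [303,336,361,402]) := S.of (.q 330 (.a 1 [] (.d 297 2312 264 2345 429)
 (.a 1 [264] (.d 429 2345 297 2378 462)
 (.a 0 [297,429] (.q 425 (.a 1 [] (.d 332 3373 301 3404 456)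
 (.a 1 [301] (.d 456 3404 332 3435 487)
 (.a 0 [332,456] (.q 426 (.a 1 [] (.d 362 1322 298 1354 458)
 (.a 0 [298,362,458] (.q 427 (.a 1 [] (.d 424 423 423 424 428)
 (.a 0 [423,424,428] (.q 395 (.a 1 [] (.d 393 392 392 393 397)
 (.a 1 [392] (.d 397 393 393 394 398)
 (.a 1 [393] (.d 331 1323 299 1355 459)
 .e))))
 .e)))
 .e)))
 .e))))
 .e)))) (by decide +kernel)

theorem b0_351 : S (PX [369] [303,336,362,402]) := S.of (.q 395 (.a 1 [] (.d 393 392 392 393 397)
 (.a 1 [392] (.d 397 393 393 394 398)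
 (.a 0 [393,397] (.q 331 (.a 1 [] (.d 299 1291 267 1323 427)
 (.a 1 [267] (.d 427 1323 299 1355 459)
 (.a 0 [299,427] (.q 330 (.a 1 [] (.d 297 2312 264 2345 429)
 (.a 1 [264] (.d 429 2345 297 2378 462)
 (.a 0 [297,429] (.q 332 (.a 1 [] (.d 329 328 328 329 333)
 (.a 1 [328] (.d 333 329 329 330 334)
 (.a 1 [329] (.d 301 3342 270 3373 425)
 .e))))
 .e))))
 .e))))
 .e)))) (by decide +kernel)

theorem b0_352 : S (PX [369] [303,336,364,402]) := S.of (.q 395 (.a 1 [] (.d 393 392 392 393 397)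
 (.a 1 [392] (.d 397 393 393 394 398)
 (.a 0 [393,397] (.q 331 (.a 1 [] (.d 299 1291 267 1323 427)
 (.a 1 [267] (.d 427 1323 299 1355 459)
 (.a 0 [299,427] (.q 330 (.a 1 [] (.d 297 2312 264 2345 429)
 (.a 1 [264] (.d 429 2345 297 2378 462)
 (.a 0 [297,429] (.q 332 (.a 1 [] (.d 329 328 328 329 333)
 (.a 1 [328] (.d 333 329 329 330 334)
 (.a 1 [329] (.d 301 3342 270 3373 425)
 .e))))
 .e))))
 .e))))
 .e)))) (by decide +kernel)

theorem b0_353 : S (PX [369] [303,336,366,402]) := S.of (.q 395 (.a 1 [] (.d 393 392 392 393 397)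
 (.a 1 [392] (.d 397 393 393 394 398)
 (.a 0 [393,397] (.q 332 (.a 1 [] (.d 301 3342 270 3373 425)
 (.a 1 [270] (.d 425 3373 301 3404 456)
 (.a 0 [301,425] (.q 429 (.a 1 [] (.d 330 2345 297 2378 462)
 (.a 1 [297] (.d 462 2378 330 2411 495)
 (.a 0 [330,462] (.q 427 (.a 1 [] (.d 331 1323 299 1355 459)
 (.a 1 [299] (.d 459 1355 331 1387 491)
 (.a 0 [331,459] (.q 428 (.a 1 [] (.d 430 426 426 427 431)
 (.a 1 [426] (.d 364 1324 300 1356 460)
 .e)))
 .e))))
 .e))))
 .e))))
 .e)))) (by decide +kernel)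

theorem b0_354 : S (PX [369] [303,336,392,402]) := S.of (.q 330 (.a 1 [] (.d 297 2312 264 2345 429)
 (.a 1 [264] (.d 429 2345 297 2378 462)
 (.a 0 [297,429] (.q 362 (.a 1 [] (.d 298 1290 266 1322 426)
 (.a 1 [266] (.d 426 1322 298 1354 458)
 (.a 0 [298,426] (.q 364 (.a 1 [] (.d 361 360 360 361 365)
 (.a 1 [360] (.d 365 361 361 362 366)
 (.a 0 [361,365] (.q 332 (.a 1 [] (.d 300 1292 268 1324 428)
 (.a 1 [268] (.d 428 1324 300 1356 460)
 (.a 1 [300] (.d 301 3342 270 3373 425)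
 .e))))
 .e))))
 .e))))
 .e)))) (by decide +kernel)

theorem b0_355 : S (PX [369] [303,336,393,402]) := S.of (.q 332 (.a 1 [] (.d 301 3342 270 3373 425)
 (.a 1 [270] (.d 425 3373 301 3404 456)
 (.a 0 [301] (.q 429 (.a 1 [] (.d 330 2345 297 2378 462)
 (.a 1 [297] (.d 462 2378 330 2411 495)
 (.a 0 [330,462] (.q 428 (.a 1 [] (.d 364 1324 300 1356 460)
 (.a 1 [300] (.r 460 1356 364 (.r 425 3404 456 (.r 427 425 426 (.d 493 2409 361 2442 526))))
 (.a 0 [364,460] (.q 427 (.a 1 [] (.d 425 425 426 3404 456)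
 (.a 1 [425] (.d 430 426 426 427 431)
 (.a 0 [426] (.q 365 (.a 1 [] (.d 458 3406 334 3437 489)
 (.a 1 [334] (.r 431 427 430 (.d 398 2347 299 2380 464))
 .e)))
 .e))))
 .e))))
 .e))))
 (.a 0 [425] (.q 330 (.a 1 [] (.d 297 2312 264 2345 429)
 (.a 1 [264] (.d 429 2345 297 2378 462)
 (.a 0 [297,429] (.q 329 (.a 1 [] (.d 331 328 328 329 333)
 (.a 0 [328,331,333] (.q 362 (.a 1 [] (.d 298 1290 266 1322 426)
 (.a 1 [266] (.d 426 1322 298 1354 458)
 (.a 0 [298,426] (.q 428 (.a 1 [] (.d 364 1324 300 1356 460)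
 (.a 1 [300] (.d 395 2344 296 2377 461)
 .e)))
 .e))))
 .e)))
 .e))))
 .e))))) (by decide +kernel)

theorem b0_356 : S (PX [369] [303,336,395,402]) := S.of (.q 330 (.a 1 [] (.d 297 2312 264 2345 429)
 (.a 1 [264] (.d 429 2345 297 2378 462)
 (.a 0 [297,429] (.q 362 (.a 1 [] (.d 298 1290 266 1322 426)
 (.a 1 [266] (.d 426 1322 298 1354 458)
 (.a 0 [298,426] (.q 364 (.a 1 [] (.d 361 360 360 361 365)
 (.a 1 [360] (.d 365 361 361 362 366)
 (.a 0 [361,365] (.q 332 (.a 1 [] (.d 300 1292 268 1324 428)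
 (.a 1 [268] (.d 428 1324 300 1356 460)
 (.a 1 [300] (.d 301 3342 270 3373 425)
 .e))))
 .e))))
 .e))))
 .e)))) (by decide +kernel)

theorem b0_357 : S (PX [369] [303,336,397,402]) := S.of (.q 330 (.a 1 [] (.d 297 2312 264 2345 429)
 (.a 1 [264] (.d 429 2345 297 2378 462)
 (.a 0 [297,429] (.q 425 (.a 1 [] (.d 332 3373 301 3404 456)
 (.a 1 [301] (.d 456 3404 332 3435 487)
 (.a 0 [332,456] (.q 426 (.a 1 [] (.d 362 1322 298 1354 458)
 (.a 0 [298,362,458] (.q 423 (.a 1 [] (.d 424 422 422 423 427)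
 (.a 0 [422,424,427] (.q 392 (.a 1 [] (.d 361 3371 299 3402 454)
 (.a 1 [299] (.r 393 392 395 (.r 361 3402 454 (.d 457 1353 329 1385 489)))
 (.a 1 [454] (.r 393 392 395 (.r 361 3371 299 (.d 457 1353 329 1385 489)))
 (.a 0 [361] (.r 393 392 395 (.q 327 (.a 1 [] (.d 360 2342 294 2375 459)
 (.a 1 [294] (.r 391 390 390 (.d 359 1319 295 1351 455))
 .e))))
 .e)))))
 .e)))
 .e)))
 .e))))
 .e)))) (by decide +kernel)

theorem b0_358 : S (PX [369] [303,336,398,402]) := S.of (.q 429 (.a 1 [] (.d 330 2345 297 2378 462)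
 (.a 1 [297] (.d 462 2378 330 2411 495)
 (.a 0 [330,462] (.q 332 (.a 1 [] (.d 301 3342 270 3373 425)
 (.a 1 [270] (.d 425 3373 301 3404 456)
 (.a 0 [301,425] (.q 395 (.a 1 [] (.d 393 392 392 393 397)
 (.a 0 [392,393,397] (.q 427 (.a 1 [] (.d 331 1323 299 1355 459)
 (.a 1 [299] (.d 459 1355 331 1387 491)
 (.a 0 [331,459] (.q 428 (.a 1 [] (.d 430 426 426 427 431)
 (.a 1 [426] (.d 364 1324 300 1356 460)
 .e)))
 .e))))
 .e)))
 .e))))
 .e)))) (by decide +kernel)

theorem b0_359 : S (PX [369] [303,336,400,402]) := S.of (.q 395 (.a 1 [] (.d 393 392 392 393 397)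
 (.a 1 [392] (.d 397 393 393 394 398)
 (.a 0 [393,397] (.q 427 (.a 1 [] (.d 331 1323 299 1355 459)
 (.a 1 [299] (.d 459 1355 331 1387 491)
 (.a 0 [331,459] (.q 429 (.a 1 [] (.d 330 2345 297 2378 462)
 (.a 1 [297] (.d 462 2378 330 2411 495)
 (.a 0 [330,462] (.q 460 (.a 1 [] (.d 361 2376 328 2409 493)
 (.a 1 [328] (.d 493 2409 361 2442 526)
 (.a 0 [361,493] (.q 428 (.a 1 [] (.d 426 425 425 426 430)
 (.a 1 [425] (.d 430 426 426 427 431)
 (.a 1 [426] (.d 364 1356 332 1388 492)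
 (.a 1 [431] (.r 524 1420 492 (.d 426 425 425 426 430))
 (.a 1 [524] (.r 431 427 430 (.d 364 1356 332 1388 492))
 .e))))))
 .e))))
 .e))))
 .e))))
 .e)))) (by decide +kernel)

theorem b0_360 : S (PX [369] [303,336,402,424]) := S.of (.q 395 (.a 1 [] (.d 393 392 392 393 397)
 (.a 1 [392] (.d 397 393 393 394 398)
 (.a 0 [393,397] (.q 331 (.a 1 [] (.d 299 1291 267 1323 427)
 (.a 1 [267] (.d 427 1323 299 1355 459)
 (.a 0 [299,427] (.q 330 (.a 1 [] (.d 297 2312 264 2345 429)
 (.a 1 [264] (.d 429 2345 297 2378 462)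
 (.a 0 [297,429] (.q 332 (.a 1 [] (.d 329 328 328 329 333)
 (.a 1 [328] (.d 333 329 329 330 334)
 (.a 1 [329] (.d 301 3342 270 3373 425)
 .e))))
 .e))))
 .e))))
 .e)))) (by decide +kernel)

theorem b0_361 : S (PX [369] [303,336,402,426]) := S.of (.q 332 (.a 1 [] (.d 301 3342 270 3373 425)
 (.a 1 [270] (.d 425 3373 301 3404 456)
 (.a 0 [301,425] (.q 429 (.a 1 [] (.d 330 2345 297 2378 462)
 (.a 1 [297] (.d 462 2378 330 2411 495)
 (.a 0 [330,462] (.q 397 (.a 1 [] (.d 395 393 393 394 398)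
 (.a 0 [393,395,398] (.q 365 (.a 1 [] (.d 461 1357 333 1389 493)
 (.a 0 [333,461,493] (.q 364 (.a 1 [] (.d 362 361 361 362 366)
 (.a 1 [361] (.d 366 362 362 363 367)
 (.a 1 [362] (.d 300 1292 268 1324 428)
 .e))))
 .e)))
 .e)))
 .e))))
 .e)))) (by decide +kernel)

theorem b0_362 : S (PX [369] [303,336,402,427]) := S.of (.q 332 (.a 1 [] (.d 301 3342 270 3373 425)
 (.a 1 [270] (.d 425 3373 301 3404 456)
 (.a 0 [301,425] (.q 429 (.a 1 [] (.d 330 2345 297 2378 462)
 (.a 1 [297] (.d 462 2378 330 2411 495)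
 (.a 0 [330,462] (.q 397 (.a 1 [] (.d 395 393 393 394 398)
 (.a 0 [393,395,398] (.q 365 (.a 1 [] (.d 461 1357 333 1389 493)
 (.a 0 [333,461,493] (.q 364 (.a 1 [] (.d 362 361 361 362 366)
 (.a 1 [361] (.d 366 362 362 363 367)
 (.a 1 [362] (.d 300 1292 268 1324 428)
 .e))))
 .e)))
 .e)))
 .e))))
 .e)))) (by decide +kernel)

theorem b0_363 : S (PX [369] [303,336,402,429]) := S.of (.q 395 (.a 1 [] (.d 393 392 392 393 397)
 (.a 1 [392] (.d 397 393 393 394 398)
 (.a 0 [393,397] (.q 427 (.a 1 [] (.d 331 1323 299 1355 459)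
 (.a 1 [299] (.d 459 1355 331 1387 491)
 (.a 0 [331] (.q 425 (.a 1 [] (.d 332 3373 301 3404 456)
 (.a 1 [301] (.d 456 3404 332 3435 487)
 (.a 0 [332,456] (.q 458 (.a 1 [] (.d 365 3406 334 3437 489)
 (.a 1 [334] (.d 489 3437 365 3468 520)
 (.a 1 [365] (.r 491 1387 459 (.d 524 2440 392 2473 557))
 .e))))
 .e))))
 (.a 0 [459] (.q 365 (.a 1 [] (.d 458 3406 334 3437 489)
 (.a 0 [334,458,489] (.q 332 (.a 1 [] (.d 301 3342 270 3373 425)
 (.a 1 [270] (.d 425 3373 301 3404 456)
 (.a 1 [301] (.r 299 1323 331 (.d 398 2314 266 2347 431))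
 .e))))
 .e)))
 .e)))))
 .e)))) (by decide +kernel)

theorem b0_364 : S (PX [369] [303,336,402,430]) := S.of (.q 330 (.a 1 [] (.d 297 2312 264 2345 429)
 (.a 1 [264] (.d 429 2345 297 2378 462)
 (.a 0 [297,429] (.q 425 (.a 1 [] (.d 332 3373 301 3404 456)
 (.a 1 [301] (.d 456 3404 332 3435 487)
 (.a 0 [332,456] (.q 393 (.a 1 [] (.d 395 392 392 393 397)
 (.a 0 [392,395,397] (.q 361 (.a 1 [] (.d 457 1353 329 1385 489)
 (.a 0 [329,457,489] (.q 362 (.a 1 [] (.d 360 359 359 360 364)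
 (.a 1 [359] (.d 364 360 360 361 365)
 (.a 1 [360] (.d 298 1290 266 1322 426)
 .e))))
 .e)))
 .e)))
 .e))))
 .e)))) (by decide +kernel)

theorem b0_365 : S (PX [369] [303,336,402,431]) := S.of (.q 395 (.a 1 [] (.d 393 392 392 393 397)
 (.a 1 [392] (.d 397 393 393 394 398)
 (.a 0 [393,397] (.q 427 (.a 1 [] (.d 331 1323 299 1355 459)
 (.a 1 [299] (.d 459 1355 331 1387 491)
 (.a 0 [331,459] (.q 332 (.a 1 [] (.d 301 3342 270 3373 425)
 (.a 1 [270] (.d 425 3373 301 3404 456)
 (.a 0 [301,425] (.q 361 (.a 1 [] (.d 328 2343 295 2376 460)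
 (.a 1 [295] (.d 460 2376 328 2409 493)
 (.a 1 [328] (.r 460 2409 493 (.r 364 1356 428 (.d 362 360 360 361 365)))
 (.a 0 [460] (.q 364 (.a 1 [] (.d 362 360 360 361 365)
 (.a 1 [360] (.d 300 1292 268 1324 428)
 .e)))
 .e)))))
 .e))))
 .e))))
 .e)))) (by decide +kernel)

theorem b0_366 : S (PX [369] [303,336,402,455]) := S.of (.q 395 (.a 1 [] (.d 393 392 392 393 397)
 (.a 1 [392] (.d 397 393 393 394 398)
 (.a 0 [393,397] (.q 331 (.a 1 [] (.d 299 1291 267 1323 427)
 (.a 1 [267] (.d 427 1323 299 1355 459)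
 (.a 0 [299,427] (.q 330 (.a 1 [] (.d 297 2312 264 2345 429)
 (.a 1 [264] (.d 429 2345 297 2378 462)
 (.a 0 [297,429] (.q 332 (.a 1 [] (.d 329 328 328 329 333)
 (.a 1 [328] (.d 333 329 329 330 334)
 (.a 1 [329] (.d 301 3342 270 3373 425)
 .e))))
 .e))))
 .e))))
 .e)))) (by decide +kernel)

theorem b0_367 : S (PX [369] [303,336,402,457]) := S.of (.q 395 (.a 1 [] (.d 393 392 392 393 397)
 (.a 1 [392] (.d 397 393 393 394 398)
 (.a 0 [393,397] (.q 425 (.a 1 [] (.d 332 3373 301 3404 456)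
 (.a 1 [301] (.d 456 3404 332 3435 487)
 (.a 0 [332,456] (.q 427 (.a 1 [] (.d 331 1323 299 1355 459)
 (.a 1 [299] (.d 459 1355 331 1387 491)
 (.a 0 [331,459] (.q 458 (.a 1 [] (.d 365 3406 334 3437 489)
 (.a 1 [334] (.d 489 3437 365 3468 520)
 (.a 0 [365,489] (.q 426 (.a 1 [] (.d 424 423 423 424 428)
 (.a 1 [423] (.d 428 424 424 425 429)
 (.a 1 [424] (.d 362 1354 330 1386 490)
 .e))))
 .e))))
 .e))))
 .e))))
 .e)))) (by decide +kernel)

theorem b0_368 : S (PX [369] [303,336,402,459]) := S.of (.q 395 (.a 1 [] (.d 393 392 392 393 397)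
 (.a 1 [392] (.d 397 393 393 394 398)
 (.a 0 [393,397] (.q 332 (.a 1 [] (.d 301 3342 270 3373 425)
 (.a 1 [270] (.d 425 3373 301 3404 456)
 (.a 0 [301,425] (.q 429 (.a 1 [] (.d 330 2345 297 2378 462)
 (.a 1 [297] (.d 462 2378 330 2411 495)
 (.a 0 [330,462] (.q 299 (.a 1 [] (.d 331 1291 267 1323 427)
 (.a 0 [267,331,427] (.q 365 (.a 1 [] (.d 266 2281 233 2314 398)
 (.a 1 [233] (.d 398 2314 266 2347 431)
 (.a 0 [266,398] (.q 364 (.a 1 [] (.d 362 361 361 362 366)
 (.a 1 [361] (.d 366 362 362 363 367)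
 (.a 1 [362] (.d 300 1292 268 1324 428)
 .e))))
 .e))))
 .e)))
 .e))))
 .e))))
 .e)))) (by decide +kernel)

theorem b0_369 : S (PX [369] [303,336,402,460]) := S.of (.q 395 (.a 1 [] (.d 393 392 392 393 397)
 (.a 1 [392] (.d 397 393 393 394 398)
 (.a 0 [393,397] (.q 429 (.a 1 [] (.d 330 2345 297 2378 462)
 (.a 1 [297] (.d 462 2378 330 2411 495)
 (.a 0 [330,462] (.q 332 (.a 1 [] (.d 301 3342 270 3373 425)
 (.a 1 [270] (.d 425 3373 301 3404 456)
 (.a 0 [301,425] (.q 299 (.a 1 [] (.d 331 1291 267 1323 427)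
 (.a 0 [267,331,427] (.q 365 (.a 1 [] (.d 266 2281 233 2314 398)
 (.a 1 [233] (.d 398 2314 266 2347 431)
 (.a 0 [266,398] (.q 364 (.a 1 [] (.d 362 361 361 362 366)
 (.a 1 [361] (.d 366 362 362 363 367)
 (.a 1 [362] (.d 300 1292 268 1324 428)
 .e))))
 .e))))
 .e)))
 .e))))
 .e))))
 .e)))) (by decide +kernel)

theorem b0_370 : S (PX [369] [303,336,402,462]) := S.of (.q 395 (.a 1 [] (.d 393 392 392 393 397)
 (.a 1 [392] (.d 397 393 393 394 398)
 (.a 0 [393,397] (.q 427 (.a 1 [] (.d 331 1323 299 1355 459)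
 (.a 1 [299] (.d 459 1355 331 1387 491)
 (.a 0 [331,459] (.q 460 (.a 1 [] (.d 361 2376 328 2409 493)
 (.a 1 [328] (.d 493 2409 361 2442 526)
 (.a 0 [361,493] (.q 425 (.a 1 [] (.d 332 3373 301 3404 456)
 (.a 1 [301] (.d 456 3404 332 3435 487)
 (.a 1 [456] (.r 332 3373 301 (.r 428 1356 364 (.d 426 424 424 425 429)))
 (.a 0 [332] (.q 428 (.a 1 [] (.d 426 424 424 425 429)
 (.a 1 [424] (.d 492 1388 364 1420 524)
 .e)))
 .e)))))
 .e))))
 .e))))
 .e)))) (by decide +kernel)

theorem b0_371 : S (PX [369] [303,336,402,463]) := S.of (.q 395 (.a 1 [] (.d 393 392 392 393 397)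
 (.a 1 [392] (.d 397 393 393 394 398)
 (.a 0 [393,397] (.q 331 (.a 1 [] (.d 299 1291 267 1323 427)
 (.a 1 [267] (.d 427 1323 299 1355 459)
 (.a 0 [299,427] (.q 330 (.a 1 [] (.d 297 2312 264 2345 429)
 (.a 1 [264] (.d 429 2345 297 2378 462)
 (.a 0 [297,429] (.q 332 (.a 1 [] (.d 329 328 328 329 333)
 (.a 1 [328] (.d 333 329 329 330 334)
 (.a 1 [329] (.d 301 3342 270 3373 425)
 .e))))
 .e))))
 .e))))
 .e)))) (by decide +kernel)

theorem b0_372 : S (PX [369] [303,336,402,490]) := S.of (.q 395 (.a 1 [] (.d 393 392 392 393 397)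
 (.a 1 [392] (.d 397 393 393 394 398)
 (.a 0 [393,397] (.q 332 (.a 1 [] (.d 301 3342 270 3373 425)
 (.a 1 [270] (.d 425 3373 301 3404 456)
 (.a 0 [301,425] (.q 429 (.a 1 [] (.d 330 2345 297 2378 462)
 (.a 1 [297] (.d 462 2378 330 2411 495)
 (.a 0 [330,462] (.q 427 (.a 1 [] (.d 331 1323 299 1355 459)
 (.a 1 [299] (.d 459 1355 331 1387 491)
 (.a 0 [331,459] (.q 428 (.a 1 [] (.d 430 426 426 427 431)
 (.a 1 [426] (.d 364 1324 300 1356 460)
 .e)))
 .e))))
 .e))))
 .e))))
 .e)))) (by decide +kernel)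

theorem b0_373 : S (PX [369] [303,336,402,491]) := S.of (.q 395 (.a 1 [] (.d 393 392 392 393 397)
 (.a 1 [392] (.d 397 393 393 394 398)
 (.a 0 [393,397] (.q 429 (.a 1 [] (.d 330 2345 297 2378 462)
 (.a 1 [297] (.d 462 2378 330 2411 495)
 (.a 0 [330,462] (.q 332 (.a 1 [] (.d 301 3342 270 3373 425)
 (.a 1 [270] (.d 425 3373 301 3404 456)
 (.a 0 [301,425] (.q 299 (.a 1 [] (.d 331 1291 267 1323 427)
 (.a 0 [267,331,427] (.q 365 (.a 1 [] (.d 266 2281 233 2314 398)
 (.a 1 [233] (.d 398 2314 266 2347 431)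
 (.a 0 [266,398] (.q 364 (.a 1 [] (.d 362 361 361 362 366)
 (.a 1 [361] (.d 366 362 362 363 367)
 (.a 1 [362] (.d 300 1292 268 1324 428)
 .e))))
 .e))))
 .e)))
 .e))))
 .e))))
 .e)))) (by decide +kernel)

theorem b0_374 : S (PX [369] [303,336,402,492]) := S.of (.q 395 (.a 1 [] (.d 393 392 392 393 397)
 (.a 1 [392] (.d 397 393 393 394 398)
 (.a 0 [393,397] (.q 332 (.a 1 [] (.d 301 3342 270 3373 425)
 (.a 1 [270] (.d 425 3373 301 3404 456)
 (.a 0 [301,425] (.q 429 (.a 1 [] (.d 330 2345 297 2378 462)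
 (.a 1 [297] (.d 462 2378 330 2411 495)
 (.a 0 [330,462] (.q 299 (.a 1 [] (.d 331 1291 267 1323 427)
 (.a 0 [267,331,427] (.q 365 (.a 1 [] (.d 266 2281 233 2314 398)
 (.a 1 [233] (.d 398 2314 266 2347 431)
 (.a 0 [266,398] (.q 364 (.a 1 [] (.d 362 361 361 362 366)
 (.a 1 [361] (.d 366 362 362 363 367)
 (.a 1 [362] (.d 300 1292 268 1324 428)
 .e))))
 .e))))
 .e)))
 .e))))
 .e))))
 .e)))) (by decide +kernel)

theorem b0_375 : S (PX [369] [303,336,402,493]) := S.of (.q 395 (.a 1 [] (.d 393 392 392 393 397)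
 (.a 1 [392] (.d 397 393 393 394 398)
 (.a 0 [393,397] (.q 429 (.a 1 [] (.d 330 2345 297 2378 462)
 (.a 1 [297] (.d 462 2378 330 2411 495)
 (.a 0 [330,462] (.q 427 (.a 1 [] (.d 331 1323 299 1355 459)
 (.a 1 [299] (.d 459 1355 331 1387 491)
 (.a 0 [331,459] (.q 332 (.a 1 [] (.d 301 3342 270 3373 425)
 (.a 1 [270] (.d 425 3373 301 3404 456)
 (.a 1 [301] (.r 425 3404 456 (.r 428 425 426 (.d 364 1324 300 1356 460)))
 (.a 0 [425] (.q 428 (.a 1 [] (.d 430 426 426 427 431)
 (.a 1 [426] (.d 364 1324 300 1356 460)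
 .e)))
 .e)))))
 .e))))
 .e))))
 .e)))) (by decide +kernel)

theorem b0_376 : S (PX [369] [303,336,402,495]) := S.of (.q 395 (.a 1 [] (.d 393 392 392 393 397)
 (.a 1 [392] (.d 397 393 393 394 398)
 (.a 0 [393,397] (.q 427 (.a 1 [] (.d 331 1323 299 1355 459)
 (.a 1 [299] (.d 459 1355 331 1387 491)
 (.a 0 [331,459] (.q 332 (.a 1 [] (.d 301 3342 270 3373 425)
 (.a 1 [270] (.d 425 3373 301 3404 456)
 (.a 0 [301,425] (.q 361 (.a 1 [] (.d 328 2343 295 2376 460)
 (.a 1 [295] (.d 460 2376 328 2409 493)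
 (.a 1 [328] (.r 460 2409 493 (.r 364 1356 428 (.d 362 360 360 361 365)))
 (.a 0 [460] (.q 364 (.a 1 [] (.d 362 360 360 361 365)
 (.a 1 [360] (.d 300 1292 268 1324 428)
 .e)))
 .e)))))
 .e))))
 .e))))
 .e)))) (by decide +kernel)

theorem b0_377 : S (PX [369] [303,336,402,521]) := S.of (.q 395 (.a 1 [] (.d 393 392 392 393 397)
 (.a 1 [392] (.d 397 393 393 394 398)
 (.a 0 [393,397] (.q 425 (.a 1 [] (.d 332 3373 301 3404 456)
 (.a 1 [301] (.d 456 3404 332 3435 487)
 (.a 0 [332,456] (.q 330 (.a 1 [] (.d 297 2312 264 2345 429)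
 (.a 1 [264] (.d 429 2345 297 2378 462)
 (.a 0 [297,429] (.q 426 (.a 1 [] (.d 362 1322 298 1354 458)
 (.a 0 [298,362,458] (.q 427 (.a 1 [] (.d 424 423 423 424 428)
 (.a 1 [423] (.d 459 1355 331 1387 491)
 .e)))
 .e)))
 .e))))
 .e))))
 .e)))) (by decide +kernel)

theorem b0_378 : S (PX [369] [303,336,402,525]) := S.of (.q 395 (.a 1 [] (.d 393 392 392 393 397)
 (.a 1 [392] (.d 397 393 393 394 398)
 (.a 0 [393,397] (.q 429 (.a 1 [] (.d 330 2345 297 2378 462)
 (.a 1 [297] (.d 462 2378 330 2411 495)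
 (.a 0 [330,462] (.q 332 (.a 1 [] (.d 301 3342 270 3373 425)
 (.a 1 [270] (.d 425 3373 301 3404 456)
 (.a 0 [301,425] (.q 299 (.a 1 [] (.d 331 1291 267 1323 427)
 (.a 0 [267,331,427] (.q 365 (.a 1 [] (.d 266 2281 233 2314 398)
 (.a 1 [233] (.d 398 2314 266 2347 431)
 (.a 0 [266,398] (.q 364 (.a 1 [] (.d 362 361 361 362 366)
 (.a 1 [361] (.d 366 362 362 363 367)
 (.a 1 [362] (.d 300 1292 268 1324 428)
 .e))))
 .e))))
 .e)))
 .e))))
 .e))))
 .e)))) (by decide +kernel)

theorem b0_379 : S (PX [369] [303,336,402,526]) := S.of (.q 395 (.a 1 [] (.d 393 392 392 393 397)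
 (.a 1 [392] (.d 397 393 393 394 398)
 (.a 0 [393,397] (.q 427 (.a 1 [] (.d 331 1323 299 1355 459)
 (.a 1 [299] (.d 459 1355 331 1387 491)
 (.a 0 [331,459] (.q 429 (.a 1 [] (.d 330 2345 297 2378 462)
 (.a 1 [297] (.d 462 2378 330 2411 495)
 (.a 0 [330,462] (.q 332 (.a 1 [] (.d 301 3342 270 3373 425)
 (.a 1 [270] (.d 425 3373 301 3404 456)
 (.a 1 [301] (.r 425 3404 456 (.r 428 425 426 (.d 364 1324 300 1356 460)))
 (.a 0 [425] (.q 428 (.a 1 [] (.d 430 426 426 427 431)
 (.a 1 [426] (.d 364 1324 300 1356 460)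
 .e)))
 .e)))))
 .e))))
 .e))))
 .e)))) (by decide +kernel)

theorem b0_380 : S (PX [369] [303,336,402,555]) := S.of (.q 395 (.a 1 [] (.d 393 392 392 393 397)
 (.a 1 [392] (.d 397 393 393 394 398)
 (.a 0 [393,397] (.q 427 (.a 1 [] (.d 331 1323 299 1355 459)
 (.a 1 [299] (.d 459 1355 331 1387 491)
 (.a 0 [331,459] (.q 429 (.a 1 [] (.d 330 2345 297 2378 462)
 (.a 1 [297] (.d 462 2378 330 2411 495)
 (.a 0 [330,462] (.q 332 (.a 1 [] (.d 301 3342 270 3373 425)
 (.a 1 [270] (.d 425 3373 301 3404 456)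
 (.a 1 [301] (.r 425 3404 456 (.r 428 425 426 (.d 364 1324 300 1356 460)))
 (.a 0 [425] (.q 428 (.a 1 [] (.d 430 426 426 427 431)
 (.a 1 [426] (.d 364 1324 300 1356 460)
 .e)))
 .e)))))
 .e))))
 .e))))
 .e)))) (by decide +kernel)

theorem b0_516 : S (PX [336,435] [270,330,369,402,501]) := S.of (.q 395 (.a 1 [] (.d 393 392 392 393 397)
 (.a 1 [392] (.d 397 393 393 394 398)
 (.a 0 [393,397] (.q 427 (.a 1 [] (.d 331 1323 299 1355 459)
 (.a 1 [299] (.d 459 1355 331 1387 491)
 (.a 0 [331,459] (.q 460 (.a 1 [] (.d 361 2376 328 2409 493)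
 (.a 1 [328] (.d 493 2409 361 2442 526)
 (.a 0 [361,493] (.q 365 (.a 1 [] (.d 334 3375 303 3406 458)
 (.a 1 [303] (.d 458 3406 334 3437 489)
 (.a 0 [334,458] (.q 332 (.a 1 [] (.d 425 3373 301 3404 456)
 (.a 1 [301] (.r 364 1356 428 (.d 366 362 362 363 367))
 .e)))
 .e))))
 .e))))
 .e))))
 .e)))) (by decide +kernel)

theorem b0_590 : S (PX [401] [268,398,400,402]) := S.of (.q 330 (.a 1 [] (.d 297 2312 264 2345 429)
 (.a 1 [264] (.d 429 2345 297 2378 462)
 (.a 0 [297,429] (.q 362 (.a 1 [] (.d 298 1290 266 1322 426)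
 (.a 1 [266] (.d 426 1322 298 1354 458)
 (.a 0 [298,426] (.q 364 (.a 1 [] (.d 361 360 360 361 365)
 (.a 1 [360] (.d 365 361 361 362 366)
 (.a 0 [361,365] (.q 332 (.a 1 [] (.d 428 1324 300 1356 460)
 (.a 1 [300] (.d 425 3373 301 3404 456)
 .e)))
 .e))))
 .e))))
 .e)))) (by decide +kernel)

theorem b0_591 : S (PX [401] [299,398,400,402]) := S.of (.q 332 (.a 1 [] (.d 301 3342 270 3373 425)
 (.a 1 [270] (.d 425 3373 301 3404 456)
 (.a 0 [301] (.q 429 (.a 1 [] (.d 330 2345 297 2378 462)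
 (.a 1 [297] (.d 462 2378 330 2411 495)
 (.a 0 [330,462] (.q 428 (.a 1 [] (.d 364 1324 300 1356 460)
 (.a 1 [300] (.r 460 1356 364 (.r 425 3404 456 (.r 427 425 426 (.d 493 2409 361 2442 526))))
 (.a 0 [364,460] (.q 395 (.a 1 [] (.d 393 392 392 393 397)
 (.a 1 [392] (.r 425 3404 456 (.r 427 425 426 (.d 459 1355 331 1387 491)))
 .e)))
 .e))))
 .e))))
 (.a 0 [425] (.q 364 (.a 1 [] (.d 300 1292 268 1324 428)
 (.a 1 [268] (.d 428 1324 300 1356 460)
 (.a 0 [300,428] (.q 362 (.a 1 [] (.d 361 360 360 361 365)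
 (.a 1 [360] (.d 365 361 361 362 366)
 (.a 0 [361,365] (.q 330 (.a 1 [] (.d 298 1290 266 1322 426)
 (.a 1 [266] (.d 426 1322 298 1354 458)
 (.a 1 [298] (.d 297 2312 264 2345 429)
 .e))))
 .e))))
 .e))))
 .e))))) (by decide +kernel)

theorem b0_592 : S (PX [401] [330,398,400,402]) := S.of (.q 332 (.a 1 [] (.d 301 3342 270 3373 425)
 (.a 1 [270] (.d 425 3373 301 3404 456)
 (.a 0 [301,425] (.q 364 (.a 1 [] (.d 300 1292 268 1324 428)
 (.a 1 [268] (.d 428 1324 300 1356 460)
 (.a 0 [300,428] (.q 361 (.a 1 [] (.d 362 360 360 361 365)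
 (.a 0 [360,362,365] (.q 427 (.a 1 [] (.d 328 2343 295 2376 460)
 (.a 1 [295] (.d 460 2376 328 2409 493)
 (.a 0 [328,460] (.q 395 (.a 1 [] (.d 393 392 392 393 397)
 (.a 1 [392] (.d 459 1355 331 1387 491)
 .e)))
 .e))))
 .e)))
 .e))))
 .e)))) (by decide +kernel)

theorem b0_593 : S (PX [401] [332,398,400,402]) := S.of (.q 330 (.a 1 [] (.d 297 2312 264 2345 429)
 (.a 1 [264] (.d 429 2345 297 2378 462)
 (.a 0 [297,429] (.q 395 (.a 1 [] (.d 393 392 392 393 397)
 (.a 0 [392,393,397] (.q 427 (.a 1 [] (.d 331 1323 299 1355 459)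
 (.a 1 [299] (.d 459 1355 331 1387 491)
 (.a 0 [331,459] (.q 365 (.a 1 [] (.d 334 3375 303 3406 458)
 (.a 1 [303] (.d 458 3406 334 3437 489)
 (.a 1 [334] (.r 458 3437 489 (.r 362 1354 426 (.d 364 361 361 362 366)))
 (.a 0 [458] (.q 362 (.a 1 [] (.d 364 361 361 362 366)
 (.a 1 [361] (.d 298 1290 266 1322 426)
 .e)))
 .e)))))
 .e))))
 .e)))
 .e)))) (by decide +kernel)

theorem b0_594 : S (PX [401] [365,398,400,402]) := S.of (.q 429 (.a 1 [] (.d 330 2345 297 2378 462)
 (.a 1 [297] (.d 462 2378 330 2411 495)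
 (.a 0 [330,462] (.q 395 (.a 1 [] (.d 393 392 392 393 397)
 (.a 0 [392,393,397] (.q 427 (.a 1 [] (.d 331 1323 299 1355 459)
 (.a 1 [299] (.d 459 1355 331 1387 491)
 (.a 0 [331,459] (.q 332 (.a 1 [] (.d 301 3342 270 3373 425)
 (.a 1 [270] (.d 425 3373 301 3404 456)
 (.a 1 [301] (.r 425 3404 456 (.r 428 425 426 (.d 364 1324 300 1356 460)))
 (.a 0 [425] (.q 428 (.a 1 [] (.d 430 426 426 427 431)
 (.a 1 [426] (.d 364 1324 300 1356 460)
 .e)))
 .e)))))
 .e))))
 .e)))
 .e)))) (by decide +kernel)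

theorem b0_595 : S (PX [401] [367,398,400,402]) := S.of (.q 429 (.a 1 [] (.d 330 2345 297 2378 462)
 (.a 1 [297] (.d 462 2378 330 2411 495)
 (.a 0 [330,462] (.q 395 (.a 1 [] (.d 393 392 392 393 397)
 (.a 0 [392,393,397] (.q 427 (.a 1 [] (.d 331 1323 299 1355 459)
 (.a 1 [299] (.d 459 1355 331 1387 491)
 (.a 0 [331,459] (.q 332 (.a 1 [] (.d 301 3342 270 3373 425)
 (.a 1 [270] (.d 425 3373 301 3404 456)
 (.a 1 [301] (.r 425 3404 456 (.r 428 425 426 (.d 364 1324 300 1356 460)))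
 (.a 0 [425] (.q 428 (.a 1 [] (.d 430 426 426 427 431)
 (.a 1 [426] (.d 364 1324 300 1356 460)
 .e)))
 .e)))))
 .e))))
 .e)))
 .e)))) (by decide +kernel)

theorem b0_596 : S (PX [401] [397,398,400,402]) := S.of (.q 330 (.a 1 [] (.d 297 2312 264 2345 429)
 (.a 1 [264] (.d 429 2345 297 2378 462)
 (.a 0 [297,429] (.q 425 (.a 1 [] (.d 332 3373 301 3404 456)
 (.a 1 [301] (.d 456 3404 332 3435 487)
 (.a 0 [332,456] (.q 426 (.a 1 [] (.d 362 1322 298 1354 458)
 (.a 0 [298,362,458] (.q 423 (.a 1 [] (.d 424 422 422 423 427)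
 (.a 0 [422,424,427] (.q 392 (.a 1 [] (.d 361 3371 299 3402 454)
 (.a 1 [299] (.r 393 392 395 (.r 361 3402 454 (.d 457 1353 329 1385 489)))
 (.a 1 [454] (.r 393 392 395 (.r 361 3371 299 (.d 457 1353 329 1385 489)))
 (.a 0 [361] (.r 393 392 395 (.q 327 (.a 1 [] (.d 360 2342 294 2375 459)
 (.a 1 [294] (.r 391 390 390 (.d 359 1319 295 1351 455))
 .e))))
 .e)))))
 .e)))
 .e)))
 .e))))
 .e)))) (by decide +kernel)

theorem b0_597 : S (PX [401] [398,400,402,425]) := S.of (.q 395 (.a 1 [] (.d 393 392 392 393 397)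
 (.a 0 [392,393,397] (.q 427 (.a 1 [] (.d 331 1323 299 1355 459)
 (.a 1 [299] (.d 459 1355 331 1387 491)
 (.a 0 [331,459] (.q 361 (.a 1 [] (.d 328 2343 295 2376 460)
 (.a 1 [295] (.d 460 2376 328 2409 493)
 (.a 0 [328,460] (.q 458 (.a 1 [] (.d 365 3406 334 3437 489)
 (.a 1 [334] (.d 489 3437 365 3468 520)
 (.a 1 [489] (.r 365 3406 334 (.r 362 361 364 (.d 426 1354 330 1386 490)))
 (.a 0 [365] (.q 362 (.a 1 [] (.d 360 359 359 360 364)
 (.a 1 [359] (.d 426 1354 330 1386 490)
 .e)))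
 .e)))))
 .e))))
 .e))))
 .e))) (by decide +kernel)

theorem b0_598 : S (PX [401] [398,400,402,433]) := S.of (.q 330 (.a 1 [] (.d 297 2312 264 2345 429)
 (.a 1 [264] (.d 429 2345 297 2378 462)
 (.a 0 [297,429] (.q 362 (.a 1 [] (.d 298 1290 266 1322 426)
 (.a 1 [266] (.d 426 1322 298 1354 458)
 (.a 0 [298,426] (.q 361 (.a 1 [] (.d 360 359 359 360 364)
 (.a 1 [359] (.d 364 360 360 361 365)
 (.a 0 [360,364] (.q 425 (.a 1 [] (.d 332 3373 301 3404 456)
 (.a 1 [301] (.d 456 3404 332 3435 487)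
 (.a 0 [332,456] (.q 393 (.a 1 [] (.d 395 392 392 393 397)
 (.a 1 [392] (.d 457 1353 329 1385 489)
 .e)))
 .e))))
 .e))))
 .e))))
 .e)))) (by decide +kernel)

theorem b0_599 : S (PX [401] [398,400,402,457]) := S.of (.q 332 (.a 1 [] (.d 301 3342 270 3373 425)
 (.a 1 [270] (.d 425 3373 301 3404 456)
 (.a 0 [301,425] (.q 364 (.a 1 [] (.d 300 1292 268 1324 428)
 (.a 1 [268] (.d 428 1324 300 1356 460)
 (.a 0 [300,428] (.q 429 (.a 1 [] (.d 330 2345 297 2378 462)
 (.a 1 [297] (.d 462 2378 330 2411 495)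
 (.a 0 [330,462] (.q 361 (.a 1 [] (.d 362 360 360 361 365)
 (.a 0 [360,362,365] (.q 427 (.a 1 [] (.d 328 2343 295 2376 460)
 (.a 1 [295] (.d 460 2376 328 2409 493)
 (.a 0 [328,460] (.q 395 (.a 1 [] (.d 393 392 392 393 397)
 (.a 1 [392] (.d 459 1355 331 1387 491)
 .e)))
 .e))))
 .e)))
 .e))))
 .e))))
 .e)))) (by decide +kernel)

theorem b0_600 : S (PX [401] [398,400,402,464]) := S.of (.q 332 (.a 1 [] (.d 301 3342 270 3373 425)
 (.a 1 [270] (.d 425 3373 301 3404 456)
 (.a 0 [301,425] (.q 429 (.a 1 [] (.d 330 2345 297 2378 462)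
 (.a 1 [297] (.d 462 2378 330 2411 495)
 (.a 0 [330,462] (.q 395 (.a 1 [] (.d 393 392 392 393 397)
 (.a 0 [392,393,397] (.q 427 (.a 1 [] (.d 331 1323 299 1355 459)
 (.a 1 [299] (.d 459 1355 331 1387 491)
 (.a 0 [331,459] (.q 428 (.a 1 [] (.d 430 426 426 427 431)
 (.a 1 [426] (.d 364 1324 300 1356 460)
 .e)))
 .e))))
 .e)))
 .e))))
 .e)))) (by decide +kernel)

theorem b0_619 : S (PX [400] [299,398,401,402]) := S.of (.q 332 (.a 1 [] (.d 301 3342 270 3373 425)
 (.a 1 [270] (.d 425 3373 301 3404 456)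
 (.a 0 [301,425] (.q 330 (.a 1 [] (.d 297 2312 264 2345 429)
 (.a 1 [264] (.d 429 2345 297 2378 462)
 (.a 0 [297] (.q 300 (.a 1 [] (.d 364 1292 268 1324 428)
 (.a 0 [268,364,428] (.q 331 (.a 1 [] (.d 329 328 328 329 333)
 (.a 1 [328] (.d 333 329 329 330 334)
 (.a 0 [329,333] (.q 393 (.a 1 [] (.d 395 392 392 393 397)
 (.a 1 [392] (.d 362 3341 269 3372 424)
 .e)))
 .e))))
 .e)))
 (.a 0 [429] (.q 362 (.a 1 [] (.d 298 1290 266 1322 426)
 (.a 1 [266] (.d 426 1322 298 1354 458)
 (.a 0 [298] (.q 300 (.a 1 [] (.d 364 1292 268 1324 428)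
 (.a 1 [268] (.r 364 1324 428 (.d 365 361 361 362 366))
 (.a 1 [428] (.r 364 1292 268 (.d 365 361 361 362 366))
 (.a 0 [364] (.q 331 (.a 1 [] (.d 329 328 328 329 333)
 (.a 1 [328] (.d 333 329 329 330 334)
 (.a 1 [329] (.d 269 3310 238 3341 393)
 .e))))
 .e)))))
 (.a 0 [426] (.q 428 (.a 1 [] (.d 364 1324 300 1356 460)
 (.a 1 [300] (.r 364 1356 460 (.d 365 361 361 362 366))
 (.a 1 [460] (.r 364 1324 300 (.d 365 361 361 362 366))
 (.a 0 [364] (.q 395 (.a 1 [] (.d 393 392 392 393 397)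
 (.a 1 [392] (.d 461 2377 329 2410 494)
 .e)))
 .e)))))
 .e)))))
 .e)))))
 .e)))) (by decide +kernel)

theorem b0_620 : S (PX [400] [332,398,401,402]) := S.of (.q 330 (.a 1 [] (.d 297 2312 264 2345 429)
 (.a 1 [264] (.d 429 2345 297 2378 462)
 (.a 0 [297,429] (.q 395 (.a 1 [] (.d 393 392 392 393 397)
 (.a 0 [392,393,397] (.q 427 (.a 1 [] (.d 331 1323 299 1355 459)
 (.a 1 [299] (.d 459 1355 331 1387 491)
 (.a 0 [331,459] (.q 365 (.a 1 [] (.d 334 3375 303 3406 458)
 (.a 1 [303] (.d 458 3406 334 3437 489)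
 (.a 1 [334] (.r 458 3437 489 (.r 362 1354 426 (.d 364 361 361 362 366)))
 (.a 0 [458] (.q 362 (.a 1 [] (.d 364 361 361 362 366)
 (.a 1 [361] (.d 298 1290 266 1322 426)
 .e)))
 .e)))))
 .e))))
 .e)))
 .e)))) (by decide +kernel)

theorem b0_621 : S (PX [400] [365,398,401,402]) := S.of (.q 429 (.a 1 [] (.d 330 2345 297 2378 462)
 (.a 1 [297] (.d 462 2378 330 2411 495)
 (.a 0 [330,462] (.q 395 (.a 1 [] (.d 393 392 392 393 397)
 (.a 0 [392,393,397] (.q 427 (.a 1 [] (.d 331 1323 299 1355 459)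
 (.a 1 [299] (.d 459 1355 331 1387 491)
 (.a 0 [331,459] (.q 332 (.a 1 [] (.d 301 3342 270 3373 425)
 (.a 1 [270] (.d 425 3373 301 3404 456)
 (.a 1 [301] (.r 425 3404 456 (.r 428 425 426 (.d 364 1324 300 1356 460)))
 (.a 0 [425] (.q 428 (.a 1 [] (.d 430 426 426 427 431)
 (.a 1 [426] (.d 364 1324 300 1356 460)
 .e)))
 .e)))))
 .e))))
 .e)))
 .e)))) (by decide +kernel)

theorem b0_622 : S (PX [400] [398,401,402,425]) := S.of (.q 462 (.a 1 [] (.d 429 2378 330 2411 495)
 (.a 0 [330,429,495] (.q 395 (.a 1 [] (.d 393 392 392 393 397)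
 (.a 0 [392,393,397] (.q 427 (.a 1 [] (.d 331 1323 299 1355 459)
 (.a 1 [299] (.d 459 1355 331 1387 491)
 (.a 0 [331,459] (.q 493 (.a 1 [] (.d 460 2409 361 2442 526)
 (.a 1 [361] (.d 431 3441 369 3472 524)
 .e)))
 .e))))
 .e)))
 .e))) (by decide +kernel)

theorem b0_623 : S (PX [400] [398,401,402,457]) := S.of (.q 332 (.a 1 [] (.d 301 3342 270 3373 425)
 (.a 1 [270] (.d 425 3373 301 3404 456)
 (.a 0 [301,425] (.q 364 (.a 1 [] (.d 300 1292 268 1324 428)
 (.a 1 [268] (.d 428 1324 300 1356 460)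
 (.a 0 [300,428] (.q 429 (.a 1 [] (.d 330 2345 297 2378 462)
 (.a 1 [297] (.d 462 2378 330 2411 495)
 (.a 0 [330,462] (.q 361 (.a 1 [] (.d 362 360 360 361 365)
 (.a 0 [360,362,365] (.q 427 (.a 1 [] (.d 328 2343 295 2376 460)
 (.a 1 [295] (.d 460 2376 328 2409 493)
 (.a 0 [328,460] (.q 395 (.a 1 [] (.d 393 392 392 393 397)
 (.a 1 [392] (.d 459 1355 331 1387 491)
 .e)))
 .e))))
 .e)))
 .e))))
 .e))))
 .e)))) (by decide +kernel)

theorem b0_624 : S (PX [400] [398,401,402,464]) := S.of (.q 332 (.a 1 [] (.d 301 3342 270 3373 425)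
 (.a 1 [270] (.d 425 3373 301 3404 456)
 (.a 0 [301,425] (.q 429 (.a 1 [] (.d 330 2345 297 2378 462)
 (.a 1 [297] (.d 462 2378 330 2411 495)
 (.a 0 [330,462] (.q 395 (.a 1 [] (.d 393 392 392 393 397)
 (.a 0 [392,393,397] (.q 427 (.a 1 [] (.d 331 1323 299 1355 459)
 (.a 1 [299] (.d 459 1355 331 1387 491)
 (.a 0 [331,459] (.q 428 (.a 1 [] (.d 430 426 426 427 431)
 (.a 1 [426] (.d 364 1324 300 1356 460)
 .e)))
 .e))))
 .e)))
 .e))))
 .e)))) (by decide +kernel)

theorem b0_627 : S (PX [] [398,402,464]) := S.of (.q 332 (.a 1 [] (.d 301 3342 270 3373 425)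
 (.a 1 [270] (.d 425 3373 301 3404 456)
 (.a 0 [301,425] (.q 429 (.a 1 [] (.d 330 2345 297 2378 462)
 (.a 1 [297] (.d 462 2378 330 2411 495)
 (.a 0 [330,462] (.q 395 (.a 1 [] (.d 393 392 392 393 397)
 (.a 0 [392,393,397] (.q 427 (.a 1 [] (.d 331 1323 299 1355 459)
 (.a 1 [299] (.d 459 1355 331 1387 491)
 (.a 0 [331,459] (.q 428 (.a 1 [] (.d 430 426 426 427 431)
 (.a 1 [426] (.d 364 1324 300 1356 460)
 .e)))
 .e))))
 .e)))
 .e))))
 .e)))) (by decide +kernel)

theorem b0_628 : S (PX [] [330,400,402]) := S.of (.q 395 (.a 1 [] (.d 393 392 392 393 397)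
 (.a 1 [392] (.d 397 393 393 394 398)
 (.a 0 [393,397] (.q 427 (.a 1 [] (.d 331 1323 299 1355 459)
 (.a 1 [299] (.d 459 1355 331 1387 491)
 (.a 0 [331,459] (.q 332 (.a 1 [] (.d 301 3342 270 3373 425)
 (.a 1 [270] (.d 425 3373 301 3404 456)
 (.a 0 [301,425] (.q 361 (.a 1 [] (.d 328 2343 295 2376 460)
 (.a 1 [295] (.d 460 2376 328 2409 493)
 (.a 1 [328] (.r 460 2409 493 (.r 364 1356 428 (.d 362 360 360 361 365)))
 (.a 0 [460] (.q 364 (.a 1 [] (.d 362 360 360 361 365)
 (.a 1 [360] (.d 300 1292 268 1324 428)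
 .e)))
 .e)))))
 .e))))
 .e))))
 .e)))) (by decide +kernel)

theorem b0_647 : S (PX [399,403] [299,398,401,402,405]) := S.of (.q 332 (.a 1 [] (.d 301 3342 270 3373 425)
 (.a 1 [270] (.d 425 3373 301 3404 456)
 (.a 0 [301,425] (.q 300 (.a 1 [] (.d 364 1292 268 1324 428)
 (.a 0 [268,364,428] (.q 333 (.a 1 [] (.d 366 2315 267 2348 432)
 (.a 0 [267,366,432] (.q 330 (.a 1 [] (.d 331 329 329 330 334)
 (.a 1 [329] (.d 429 2345 297 2378 462)
 .e)))
 .e)))
 .e)))
 .e)))) (by decide +kernel)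

theorem b0_648 : S (PX [399,403] [332,398,401,402,405]) := S.of (.q 330 (.a 1 [] (.d 297 2312 264 2345 429)
 (.a 1 [264] (.d 429 2345 297 2378 462)
 (.a 0 [297,429] (.q 395 (.a 1 [] (.d 393 392 392 393 397)
 (.a 0 [392,393,397] (.q 427 (.a 1 [] (.d 331 1323 299 1355 459)
 (.a 1 [299] (.d 459 1355 331 1387 491)
 (.a 0 [331,459] (.q 365 (.a 1 [] (.d 334 3375 303 3406 458)
 (.a 1 [303] (.d 458 3406 334 3437 489)
 (.a 1 [334] (.r 458 3437 489 (.r 362 1354 426 (.d 364 361 361 362 366)))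
 (.a 0 [458] (.q 362 (.a 1 [] (.d 364 361 361 362 366)
 (.a 1 [361] (.d 298 1290 266 1322 426)
 .e)))
 .e)))))
 .e))))
 .e)))
 .e)))) (by decide +kernel)

theorem b0_649 : S (PX [399,403] [365,398,401,402,405]) := S.of (.q 429 (.a 1 [] (.d 330 2345 297 2378 462)
 (.a 1 [297] (.d 462 2378 330 2411 495)
 (.a 0 [330,462] (.q 395 (.a 1 [] (.d 393 392 392 393 397)
 (.a 0 [392,393,397] (.q 427 (.a 1 [] (.d 331 1323 299 1355 459)
 (.a 1 [299] (.d 459 1355 331 1387 491)
 (.a 0 [331,459] (.q 332 (.a 1 [] (.d 301 3342 270 3373 425)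
 (.a 1 [270] (.d 425 3373 301 3404 456)
 (.a 1 [301] (.r 425 3404 456 (.r 428 425 426 (.d 364 1324 300 1356 460)))
 (.a 0 [425] (.q 428 (.a 1 [] (.d 430 426 426 427 431)
 (.a 1 [426] (.d 364 1324 300 1356 460)
 .e)))
 .e)))))
 .e))))
 .e)))
 .e)))) (by decide +kernel)

theorem b0_650 : S (PX [399,403] [398,401,402,405,425]) := S.of (.q 395 (.a 1 [] (.d 393 392 392 393 397)
 (.a 0 [392,393,397] (.q 427 (.a 1 [] (.d 331 1323 299 1355 459)
 (.a 1 [299] (.d 459 1355 331 1387 491)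
 (.a 0 [331,459] (.q 361 (.a 1 [] (.d 328 2343 295 2376 460)
 (.a 1 [295] (.d 460 2376 328 2409 493)
 (.a 0 [328,460] (.q 458 (.a 1 [] (.d 365 3406 334 3437 489)
 (.a 1 [334] (.d 489 3437 365 3468 520)
 (.a 1 [489] (.r 365 3406 334 (.r 362 361 364 (.d 426 1354 330 1386 490)))
 (.a 0 [365] (.q 362 (.a 1 [] (.d 360 359 359 360 364)
 (.a 1 [359] (.d 426 1354 330 1386 490)
 .e)))
 .e)))))
 .e))))
 .e))))
 .e))) (by decide +kernel)

theorem b0_651 : S (PX [399,403] [398,401,402,405,457]) := S.of (.q 332 (.a 1 [] (.d 301 3342 270 3373 425)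
 (.a 1 [270] (.d 425 3373 301 3404 456)
 (.a 0 [301,425] (.q 330 (.a 1 [] (.d 297 2312 264 2345 429)
 (.a 1 [264] (.d 429 2345 297 2378 462)
 (.a 0 [297,429] (.q 393 (.a 1 [] (.d 395 392 392 393 397)
 (.a 0 [392,395,397] (.q 333 (.a 1 [] (.d 331 329 329 330 334)
 (.a 0 [329,331,334] (.q 300 (.a 1 [] (.d 364 1292 268 1324 428)
 (.a 1 [268] (.d 366 2315 267 2348 432)
 .e)))
 .e)))
 .e)))
 .e))))
 .e)))) (by decide +kernel)

theorem b0_652 : S (PX [399,403] [398,401,402,405,464]) := S.of (.q 332 (.a 1 [] (.d 301 3342 270 3373 425)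
 (.a 1 [270] (.d 425 3373 301 3404 456)
 (.a 0 [301,425] (.q 330 (.a 1 [] (.d 297 2312 264 2345 429)
 (.a 1 [264] (.d 429 2345 297 2378 462)
 (.a 0 [297,429] (.q 333 (.a 1 [] (.d 331 329 329 330 334)
 (.a 0 [329,331,334] (.q 393 (.a 1 [] (.d 395 392 392 393 397)
 (.a 0 [392,395,397] (.q 300 (.a 1 [] (.d 364 1292 268 1324 428)
 (.a 1 [268] (.d 366 2315 267 2348 432)
 .e)))
 .e)))
 .e)))
 .e))))
 .e)))) (by decide +kernel)

theorem b0_706 : S (PX [433] [332,402,464,495]) := S.of (.q 395 (.a 1 [] (.d 393 392 392 393 397)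
 (.a 1 [392] (.d 397 393 393 394 398)
 (.a 0 [393,397] (.q 427 (.a 1 [] (.d 331 1323 299 1355 459)
 (.a 1 [299] (.d 459 1355 331 1387 491)
 (.a 0 [331,459] (.q 330 (.a 1 [] (.d 297 2312 264 2345 429)
 (.a 1 [264] (.d 429 2345 297 2378 462)
 (.a 0 [297,429] (.q 365 (.a 1 [] (.d 334 3375 303 3406 458)
 (.a 1 [303] (.d 458 3406 334 3437 489)
 (.a 1 [334] (.r 458 3437 489 (.r 362 1354 426 (.d 364 361 361 362 366)))
 (.a 0 [458] (.q 362 (.a 1 [] (.d 364 361 361 362 366)
 (.a 1 [361] (.d 298 1290 266 1322 426)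
 .e)))
 .e)))))
 .e))))
 .e))))
 .e)))) (by decide +kernel)

theorem b0_707 : S (PX [433] [402,425,464,495]) := S.of (.q 395 (.a 1 [] (.d 393 392 392 393 397)
 (.a 1 [392] (.d 397 393 393 394 398)
 (.a 0 [393,397] (.q 427 (.a 1 [] (.d 331 1323 299 1355 459)
 (.a 1 [299] (.d 459 1355 331 1387 491)
 (.a 0 [331,459] (.q 361 (.a 1 [] (.d 328 2343 295 2376 460)
 (.a 1 [295] (.d 460 2376 328 2409 493)
 (.a 0 [328,460] (.q 330 (.a 1 [] (.d 297 2312 264 2345 429)
 (.a 1 [264] (.d 429 2345 297 2378 462)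
 (.a 0 [297,429] (.q 362 (.a 1 [] (.d 360 359 359 360 364)
 (.a 1 [359] (.d 364 360 360 361 365)
 (.a 1 [360] (.d 298 1290 266 1322 426)
 .e))))
 .e))))
 .e))))
 .e))))
 .e)))) (by decide +kernel)

theorem b0_708 : S (PX [433] [402,427,464,495]) := S.of (.q 330 (.a 1 [] (.d 297 2312 264 2345 429)
 (.a 1 [264] (.d 429 2345 297 2378 462)
 (.a 0 [297,429] (.q 425 (.a 1 [] (.d 332 3373 301 3404 456)
 (.a 1 [301] (.d 456 3404 332 3435 487)
 (.a 0 [332,456] (.q 393 (.a 1 [] (.d 395 392 392 393 397)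
 (.a 0 [392,395,397] (.q 361 (.a 1 [] (.d 457 1353 329 1385 489)
 (.a 0 [329,457,489] (.q 362 (.a 1 [] (.d 360 359 359 360 364)
 (.a 1 [359] (.d 364 360 360 361 365)
 (.a 1 [360] (.d 298 1290 266 1322 426)
 .e))))
 .e)))
 .e)))
 .e))))
 .e)))) (by decide +kernel)

theorem b1_411 : S (PX [] [270,398,402]) := S.of (.q 330 (.a 1 [] (.d 297 2312 264 2345 429)
 (.a 1 [264] (.d 429 2345 297 2378 462)
 (.a 0 [297,429] (.q 362 (.a 1 [] (.d 298 1290 266 1322 426)
 (.a 1 [266] (.d 426 1322 298 1354 458)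
 (.a 0 [298,426] (.q 361 (.a 1 [] (.d 360 359 359 360 364)
 (.a 1 [359] (.d 364 360 360 361 365)
 (.a 0 [360,364] (.q 425 (.a 1 [] (.d 332 3373 301 3404 456)
 (.a 1 [301] (.d 456 3404 332 3435 487)
 (.a 0 [332,456] (.q 393 (.a 1 [] (.d 395 392 392 393 397)
 (.a 1 [392] (.d 457 1353 329 1385 489)
 .e)))
 .e))))
 .e))))
 .e))))
 .e)))) (by decide +kernel)

theorem b1_412 : S (PX [] [299,398,402]) := S.of (.q 332 (.a 1 [] (.d 301 3342 270 3373 425)
 (.a 1 [270] (.d 425 3373 301 3404 456)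
 (.a 0 [301,425] (.q 330 (.a 1 [] (.d 297 2312 264 2345 429)
 (.a 1 [264] (.d 429 2345 297 2378 462)
 (.a 0 [297] (.q 300 (.a 1 [] (.d 364 1292 268 1324 428)
 (.a 0 [268,364,428] (.q 331 (.a 1 [] (.d 329 328 328 329 333)
 (.a 1 [328] (.d 333 329 329 330 334)
 (.a 0 [329,333] (.q 393 (.a 1 [] (.d 395 392 392 393 397)
 (.a 1 [392] (.d 362 3341 269 3372 424)
 .e)))
 .e))))
 .e)))
 (.a 0 [429] (.q 362 (.a 1 [] (.d 298 1290 266 1322 426)
 (.a 1 [266] (.d 426 1322 298 1354 458)
 (.a 0 [298] (.q 300 (.a 1 [] (.d 364 1292 268 1324 428)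
 (.a 1 [268] (.r 364 1324 428 (.d 365 361 361 362 366))
 (.a 1 [428] (.r 364 1292 268 (.d 365 361 361 362 366))
 (.a 0 [364] (.q 331 (.a 1 [] (.d 329 328 328 329 333)
 (.a 1 [328] (.d 333 329 329 330 334)
 (.a 1 [329] (.d 269 3310 238 3341 393)
 .e))))
 .e)))))
 (.a 0 [426] (.q 428 (.a 1 [] (.d 364 1324 300 1356 460)
 (.a 1 [300] (.r 364 1356 460 (.d 365 361 361 362 366))
 (.a 1 [460] (.r 364 1324 300 (.d 365 361 361 362 366))
 (.a 0 [364] (.q 395 (.a 1 [] (.d 393 392 392 393 397)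
 (.a 1 [392] (.d 461 2377 329 2410 494)
 .e)))
 .e)))))
 .e)))))
 .e)))))
 .e)))) (by decide +kernel)

theorem b1_413 : S (PX [] [332,398,402]) := S.of (.q 330 (.a 1 [] (.d 297 2312 264 2345 429)
 (.a 1 [264] (.d 429 2345 297 2378 462)
 (.a 0 [297,429] (.q 395 (.a 1 [] (.d 393 392 392 393 397)
 (.a 0 [392,393,397] (.q 427 (.a 1 [] (.d 331 1323 299 1355 459)
 (.a 1 [299] (.d 459 1355 331 1387 491)
 (.a 0 [331,459] (.q 365 (.a 1 [] (.d 334 3375 303 3406 458)
 (.a 1 [303] (.d 458 3406 334 3437 489)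
 (.a 1 [334] (.r 458 3437 489 (.r 362 1354 426 (.d 364 361 361 362 366)))
 (.a 0 [458] (.q 362 (.a 1 [] (.d 364 361 361 362 366)
 (.a 1 [361] (.d 298 1290 266 1322 426)
 .e)))
 .e)))))
 .e))))
 .e)))
 .e)))) (by decide +kernel)

theorem b1_414 : S (PX [] [365,398,402]) := S.of (.q 429 (.a 1 [] (.d 330 2345 297 2378 462)
 (.a 1 [297] (.d 462 2378 330 2411 495)
 (.a 0 [330,462] (.q 395 (.a 1 [] (.d 393 392 392 393 397)
 (.a 0 [392,393,397] (.q 427 (.a 1 [] (.d 331 1323 299 1355 459)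
 (.a 1 [299] (.d 459 1355 331 1387 491)
 (.a 0 [331,459] (.q 332 (.a 1 [] (.d 301 3342 270 3373 425)
 (.a 1 [270] (.d 425 3373 301 3404 456)
 (.a 1 [301] (.r 425 3404 456 (.r 428 425 426 (.d 364 1324 300 1356 460)))
 (.a 0 [425] (.q 428 (.a 1 [] (.d 430 426 426 427 431)
 (.a 1 [426] (.d 364 1324 300 1356 460)
 .e)))
 .e)))))
 .e))))
 .e)))
 .e)))) (by decide +kernel)

theorem b1_415 : S (PX [400] [299,398,399,402]) := S.of (.q 332 (.a 1 [] (.d 301 3342 270 3373 425)
 (.a 1 [270] (.d 425 3373 301 3404 456)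
 (.a 0 [301,425] (.q 330 (.a 1 [] (.d 297 2312 264 2345 429)
 (.a 1 [264] (.d 429 2345 297 2378 462)
 (.a 0 [297] (.q 300 (.a 1 [] (.d 364 1292 268 1324 428)
 (.a 0 [268,364,428] (.q 331 (.a 1 [] (.d 329 328 328 329 333)
 (.a 1 [328] (.d 333 329 329 330 334)
 (.a 0 [329,333] (.q 393 (.a 1 [] (.d 395 392 392 393 397)
 (.a 1 [392] (.d 362 3341 269 3372 424)
 .e)))
 .e))))
 .e)))
 (.a 0 [429] (.q 362 (.a 1 [] (.d 298 1290 266 1322 426)
 (.a 1 [266] (.d 426 1322 298 1354 458)
 (.a 0 [298] (.q 300 (.a 1 [] (.d 364 1292 268 1324 428)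
 (.a 1 [268] (.r 364 1324 428 (.d 365 361 361 362 366))
 (.a 1 [428] (.r 364 1292 268 (.d 365 361 361 362 366))
 (.a 0 [364] (.q 331 (.a 1 [] (.d 329 328 328 329 333)
 (.a 1 [328] (.d 333 329 329 330 334)
 (.a 1 [329] (.d 269 3310 238 3341 393)
 .e))))
 .e)))))
 (.a 0 [426] (.q 428 (.a 1 [] (.d 364 1324 300 1356 460)
 (.a 1 [300] (.r 364 1356 460 (.d 365 361 361 362 366))
 (.a 1 [460] (.r 364 1324 300 (.d 365 361 361 362 366))
 (.a 0 [364] (.q 395 (.a 1 [] (.d 393 392 392 393 397)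
 (.a 1 [392] (.d 461 2377 329 2410 494)
 .e)))
 .e)))))
 .e)))))
 .e)))))
 .e)))) (by decide +kernel)

theorem b1_416 : S (PX [400] [332,398,399,402]) := S.of (.q 330 (.a 1 [] (.d 297 2312 264 2345 429)
 (.a 1 [264] (.d 429 2345 297 2378 462)
 (.a 0 [297,429] (.q 395 (.a 1 [] (.d 393 392 392 393 397)
 (.a 0 [392,393,397] (.q 427 (.a 1 [] (.d 331 1323 299 1355 459)
 (.a 1 [299] (.d 459 1355 331 1387 491)
 (.a 0 [331,459] (.q 365 (.a 1 [] (.d 334 3375 303 3406 458)
 (.a 1 [303] (.d 458 3406 334 3437 489)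
 (.a 1 [334] (.r 458 3437 489 (.r 362 1354 426 (.d 364 361 361 362 366)))
 (.a 0 [458] (.q 362 (.a 1 [] (.d 364 361 361 362 366)
 (.a 1 [361] (.d 298 1290 266 1322 426)
 .e)))
 .e)))))
 .e))))
 .e)))
 .e)))) (by decide +kernel)

theorem b1_417 : S (PX [400] [365,398,399,402]) := S.of (.q 429 (.a 1 [] (.d 330 2345 297 2378 462)
 (.a 1 [297] (.d 462 2378 330 2411 495)
 (.a 0 [330,462] (.q 395 (.a 1 [] (.d 393 392 392 393 397)
 (.a 0 [392,393,397] (.q 427 (.a 1 [] (.d 331 1323 299 1355 459)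
 (.a 1 [299] (.d 459 1355 331 1387 491)
 (.a 0 [331,459] (.q 332 (.a 1 [] (.d 301 3342 270 3373 425)
 (.a 1 [270] (.d 425 3373 301 3404 456)
 (.a 1 [301] (.r 425 3404 456 (.r 428 425 426 (.d 364 1324 300 1356 460)))
 (.a 0 [425] (.q 428 (.a 1 [] (.d 430 426 426 427 431)
 (.a 1 [426] (.d 364 1324 300 1356 460)
 .e)))
 .e)))))
 .e))))
 .e)))
 .e)))) (by decide +kernel)

theorem b1_418 : S (PX [400] [398,399,402,457]) := S.of (.q 332 (.a 1 [] (.d 301 3342 270 3373 425)
 (.a 1 [270] (.d 425 3373 301 3404 456)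
 (.a 0 [301,425] (.q 364 (.a 1 [] (.d 300 1292 268 1324 428)
 (.a 1 [268] (.d 428 1324 300 1356 460)
 (.a 0 [300,428] (.q 429 (.a 1 [] (.d 330 2345 297 2378 462)
 (.a 1 [297] (.d 462 2378 330 2411 495)
 (.a 0 [330,462] (.q 361 (.a 1 [] (.d 362 360 360 361 365)
 (.a 0 [360,362,365] (.q 427 (.a 1 [] (.d 328 2343 295 2376 460)
 (.a 1 [295] (.d 460 2376 328 2409 493)
 (.a 0 [328,460] (.q 395 (.a 1 [] (.d 393 392 392 393 397)
 (.a 1 [392] (.d 459 1355 331 1387 491)
 .e)))
 .e))))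
 .e)))
 .e))))
 .e))))
 .e)))) (by decide +kernel)

theorem b1_473 : S (PX [401] [392,398,400,402]) := S.of (.q 330 (.a 1 [] (.d 297 2312 264 2345 429)
 (.a 1 [264] (.d 429 2345 297 2378 462)
 (.a 0 [297,429] (.q 362 (.a 1 [] (.d 298 1290 266 1322 426)
 (.a 1 [266] (.d 426 1322 298 1354 458)
 (.a 0 [298,426] (.q 364 (.a 1 [] (.d 361 360 360 361 365)
 (.a 1 [360] (.d 365 361 361 362 366)
 (.a 0 [361,365] (.q 332 (.a 1 [] (.d 300 1292 268 1324 428)
 (.a 1 [268] (.d 428 1324 300 1356 460)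
 (.a 1 [300] (.d 301 3342 270 3373 425)
 .e))))
 .e))))
 .e))))
 .e)))) (by decide +kernel)

theorem b1_493 : S (PX [] [398,402,457]) := S.of (.q 332 (.a 1 [] (.d 301 3342 270 3373 425)
 (.a 1 [270] (.d 425 3373 301 3404 456)
 (.a 0 [301,425] (.q 364 (.a 1 [] (.d 300 1292 268 1324 428)
 (.a 1 [268] (.d 428 1324 300 1356 460)
 (.a 0 [300,428] (.q 429 (.a 1 [] (.d 330 2345 297 2378 462)
 (.a 1 [297] (.d 462 2378 330 2411 495)
 (.a 0 [330,462] (.q 361 (.a 1 [] (.d 362 360 360 361 365)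
 (.a 0 [360,362,365] (.q 427 (.a 1 [] (.d 328 2343 295 2376 460)
 (.a 1 [295] (.d 460 2376 328 2409 493)
 (.a 0 [328,460] (.q 395 (.a 1 [] (.d 393 392 392 393 397)
 (.a 1 [392] (.d 459 1355 331 1387 491)
 .e)))
 .e))))
 .e)))
 .e))))
 .e))))
 .e)))) (by decide +kernel)

theorem b1_494 : S (PX [401] [268,399,400,402]) := S.of (.q 330 (.a 1 [] (.d 297 2312 264 2345 429)
 (.a 1 [264] (.d 429 2345 297 2378 462)
 (.a 0 [297,429] (.q 362 (.a 1 [] (.d 298 1290 266 1322 426)
 (.a 1 [266] (.d 426 1322 298 1354 458)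
 (.a 0 [298,426] (.q 361 (.a 1 [] (.d 360 359 359 360 364)
 (.a 1 [359] (.d 364 360 360 361 365)
 (.a 0 [360,364] (.q 427 (.a 1 [] (.d 328 2343 295 2376 460)
 (.a 1 [295] (.d 460 2376 328 2409 493)
 (.a 0 [328,460] (.q 395 (.a 1 [] (.d 393 392 392 393 397)
 (.a 1 [392] (.d 397 393 393 394 398)
 (.a 1 [393] (.d 331 1323 299 1355 459)
 .e))))
 .e))))
 .e))))
 .e))))
 .e)))) (by decide +kernel)

theorem b1_528 : S (PX [398,403] [268,400,401,402,405]) := S.of (.q 330 (.a 1 [] (.d 297 2312 264 2345 429)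
 (.a 1 [264] (.d 429 2345 297 2378 462)
 (.a 0 [297,429] (.q 362 (.a 1 [] (.d 298 1290 266 1322 426)
 (.a 1 [266] (.d 426 1322 298 1354 458)
 (.a 0 [298,426] (.q 361 (.a 1 [] (.d 360 359 359 360 364)
 (.a 1 [359] (.d 364 360 360 361 365)
 (.a 1 [360] (.r 395 394 397 (.r 392 392 393 (.d 423 3371 299 3402 454)))
 .e))))
 .e))))
 .e)))) (by decide +kernel)

theorem b6_0 : S (PX [] [263,265,402]) := S.of (.q 395 (.a 1 [] (.d 393 392 392 393 397)
 (.a 1 [392] (.d 397 393 393 394 398)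
 (.a 0 [393,397] (.q 331 (.a 1 [] (.d 299 1291 267 1323 427)
 (.a 1 [267] (.d 427 1323 299 1355 459)
 (.a 0 [299,427] (.q 332 (.a 1 [] (.d 301 3342 270 3373 425)
 (.a 1 [270] (.d 425 3373 301 3404 456)
 (.a 0 [301,425] (.q 330 (.a 1 [] (.d 329 328 328 329 333)
 (.a 1 [328] (.d 333 329 329 330 334)
 (.a 1 [329] (.d 297 2312 264 2345 429)
 .e))))
 .e))))
 .e))))
 .e)))) (by decide +kernel)

theorem b6_1 : S (PX [] [265,268,402]) := S.of (.q 395 (.a 1 [] (.d 393 392 392 393 397)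
 (.a 1 [392] (.d 397 393 393 394 398)
 (.a 0 [393,397] (.q 331 (.a 1 [] (.d 299 1291 267 1323 427)
 (.a 1 [267] (.d 427 1323 299 1355 459)
 (.a 0 [299,427] (.q 330 (.a 1 [] (.d 297 2312 264 2345 429)
 (.a 1 [264] (.d 429 2345 297 2378 462)
 (.a 0 [297,429] (.q 329 (.a 1 [] (.d 328 327 327 328 332)
 (.a 1 [327] (.d 332 328 328 329 333)
 (.a 1 [328] (.r 332 329 333 (.d 425 3373 301 3404 456))
 (.a 0 [332] (.q 362 (.a 1 [] (.d 298 1290 266 1322 426)
 (.a 1 [266] (.d 426 1322 298 1354 458)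
 (.a 1 [298] (.d 296 2311 263 2344 428)
 .e))))
 .e)))))
 .e))))
 .e))))
 .e)))) (by decide +kernel)

theorem b6_2 : S (PX [] [265,297,402]) := S.of (.q 332 (.a 1 [] (.d 301 3342 270 3373 425)
 (.a 1 [270] (.d 425 3373 301 3404 456)
 (.a 0 [301] (.q 429 (.a 1 [] (.d 462 2378 330 2411 495)
 (.a 0 [330,462,495] (.q 428 (.a 1 [] (.d 364 1324 300 1356 460)
 (.a 1 [300] (.r 460 1356 364 (.r 425 3404 456 (.r 427 425 426 (.d 493 2409 361 2442 526))))
 (.a 0 [364,460] (.q 395 (.a 1 [] (.d 393 392 392 393 397)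
 (.a 1 [392] (.d 397 393 393 394 398)
 (.a 1 [393] (.r 425 3404 456 (.r 427 425 426 (.d 459 1355 331 1387 491)))
 .e))))
 .e))))
 .e)))
 (.a 0 [425] (.q 364 (.a 1 [] (.d 300 1292 268 1324 428)
 (.a 1 [268] (.d 428 1324 300 1356 460)
 (.a 0 [300,428] (.q 365 (.a 1 [] (.d 362 361 361 362 366)
 (.a 1 [361] (.d 366 362 362 363 367)
 (.a 0 [362,366] (.q 397 (.a 1 [] (.d 395 393 393 394 398)
 (.a 1 [393] (.r 398 394 395 (.d 431 2347 299 2380 464))
 (.a 1 [395] (.r 301 3342 270 (.d 333 1293 269 1325 429))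
 .e))))
 .e))))
 .e))))
 .e))))) (by decide +kernel)

theorem b6_3 : S (PX [] [265,329,402]) := S.of (.q 332 (.a 1 [] (.d 301 3342 270 3373 425)
 (.a 1 [270] (.d 425 3373 301 3404 456)
 (.a 0 [301,425] (.q 429 (.a 1 [] (.d 330 2345 297 2378 462)
 (.a 1 [297] (.d 462 2378 330 2411 495)
 (.a 0 [330,462] (.q 428 (.a 1 [] (.d 364 1324 300 1356 460)
 (.a 0 [300,364,460] (.q 427 (.a 1 [] (.d 430 426 426 427 431)
 (.a 0 [426,430,431] (.q 395 (.a 1 [] (.d 393 392 392 393 397)
 (.a 1 [392] (.d 397 393 393 394 398)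
 (.a 1 [393] (.d 331 1323 299 1355 459)
 .e))))
 .e)))
 .e)))
 .e))))
 .e)))) (by decide +kernel)

theorem b6_4 : S (PX [] [265,331,402]) := S.of (.q 332 (.a 1 [] (.d 301 3342 270 3373 425)
 (.a 1 [270] (.d 425 3373 301 3404 456)
 (.a 0 [301,425] (.q 364 (.a 1 [] (.d 300 1292 268 1324 428)
 (.a 1 [268] (.d 428 1324 300 1356 460)
 (.a 0 [300,428] (.q 362 (.a 1 [] (.d 361 360 360 361 365)
 (.a 1 [360] (.d 365 361 361 362 366)
 (.a 0 [361,365] (.q 330 (.a 1 [] (.d 298 1290 266 1322 426)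
 (.a 1 [266] (.d 426 1322 298 1354 458)
 (.a 1 [298] (.d 297 2312 264 2345 429)
 .e))))
 .e))))
 .e))))
 .e)))) (by decide +kernel)

theorem b6_5 : S (PX [] [265,332,402]) := S.of (.q 395 (.a 1 [] (.d 393 392 392 393 397)
 (.a 1 [392] (.d 397 393 393 394 398)
 (.a 0 [393] (.q 427 (.a 1 [] (.d 331 1323 299 1355 459)
 (.a 1 [299] (.d 459 1355 331 1387 491)
 (.a 0 [331,459] (.q 330 (.a 1 [] (.d 297 2312 264 2345 429)
 (.a 1 [264] (.d 429 2345 297 2378 462)
 (.a 0 [297,429] (.q 361 (.a 1 [] (.d 328 2343 295 2376 460)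
 (.a 1 [295] (.d 460 2376 328 2409 493)
 (.a 0 [328,460] (.q 362 (.a 1 [] (.d 360 359 359 360 364)
 (.a 1 [359] (.d 364 360 360 361 365)
 (.a 1 [360] (.d 298 1290 266 1322 426)
 .e))))
 .e))))
 .e))))
 .e))))
 (.a 0 [397] (.q 331 (.a 1 [] (.d 299 1291 267 1323 427)
 (.a 1 [267] (.d 427 1323 299 1355 459)
 (.a 0 [299,427] (.q 330 (.a 1 [] (.d 297 2312 264 2345 429)
 (.a 1 [264] (.d 429 2345 297 2378 462)
 (.a 0 [297,429] (.q 362 (.a 1 [] (.d 298 1290 266 1322 426)
 (.a 1 [266] (.d 426 1322 298 1354 458)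
 (.a 1 [298] (.r 393 392 392 (.d 424 3372 300 3403 455))
 .e))))
 .e))))
 .e))))
 .e))))) (by decide +kernel)

theorem b6_6 : S (PX [] [265,361,402]) := S.of (.q 332 (.a 1 [] (.d 301 3342 270 3373 425)
 (.a 1 [270] (.d 425 3373 301 3404 456)
 (.a 0 [301,425] (.q 364 (.a 1 [] (.d 300 1292 268 1324 428)
 (.a 1 [268] (.d 428 1324 300 1356 460)
 (.a 0 [300,428] (.q 365 (.a 1 [] (.d 366 362 362 363 367)
 (.a 0 [362,366,367] (.q 299 (.a 1 [] (.d 266 2281 233 2314 398)
 (.a 1 [233] (.d 398 2314 266 2347 431)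
 (.a 1 [266] (.r 398 2347 431 (.r 395 394 397 (.d 331 1291 267 1323 427)))
 (.a 0 [398] (.q 395 (.a 1 [] (.d 393 392 392 393 397)
 (.a 1 [392] (.d 331 1291 267 1323 427)
 .e)))
 .e)))))
 .e)))
 .e))))
 .e)))) (by decide +kernel)

theorem b6_7 : S (PX [] [265,397,402]) := S.of (.q 330 (.a 1 [] (.d 297 2312 264 2345 429)
 (.a 1 [264] (.d 429 2345 297 2378 462)
 (.a 0 [297] (.q 332 (.a 1 [] (.d 301 3342 270 3373 425)
 (.a 1 [270] (.d 425 3373 301 3404 456)
 (.a 0 [301,425] (.q 362 (.a 1 [] (.d 298 1290 266 1322 426)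
 (.a 1 [266] (.d 426 1322 298 1354 458)
 (.a 0 [298,426] (.q 300 (.a 1 [] (.d 364 1292 268 1324 428)
 (.a 1 [268] (.r 364 1324 428 (.d 365 361 361 362 366))
 (.a 1 [428] (.r 364 1292 268 (.d 365 361 361 362 366))
 (.a 0 [364] (.q 331 (.a 1 [] (.d 329 328 328 329 333)
 (.a 1 [328] (.d 333 329 329 330 334)
 (.a 1 [329] (.d 269 3310 238 3341 393)
 .e))))
 .e)))))
 .e))))
 .e))))
 (.a 0 [429] (.q 332 (.a 1 [] (.d 301 3342 270 3373 425)
 (.a 1 [270] (.d 425 3373 301 3404 456)
 (.a 0 [301,425] (.q 333 (.a 1 [] (.d 331 329 329 330 334)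
 (.a 0 [329,331,334] (.q 364 (.a 1 [] (.d 300 1292 268 1324 428)
 (.a 1 [268] (.d 428 1324 300 1356 460)
 (.a 0 [300,428] (.q 426 (.a 1 [] (.d 362 1322 298 1354 458)
 (.a 1 [298] (.d 395 3374 302 3405 457)
 .e)))
 .e))))
 .e)))
 .e))))
 .e))))) (by decide +kernel)

theorem b6_8 : S (PX [] [265,402,424]) := S.of (.q 395 (.a 1 [] (.d 393 392 392 393 397)
 (.a 1 [392] (.d 397 393 393 394 398)
 (.a 0 [393,397] (.q 331 (.a 1 [] (.d 299 1291 267 1323 427)
 (.a 1 [267] (.d 427 1323 299 1355 459)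
 (.a 0 [299,427] (.q 330 (.a 1 [] (.d 297 2312 264 2345 429)
 (.a 1 [264] (.d 429 2345 297 2378 462)
 (.a 0 [297,429] (.q 329 (.a 1 [] (.d 328 327 327 328 332)
 (.a 1 [327] (.d 332 328 328 329 333)
 (.a 1 [328] (.r 332 329 333 (.d 425 3373 301 3404 456))
 (.a 0 [332] (.q 362 (.a 1 [] (.d 298 1290 266 1322 426)
 (.a 1 [266] (.d 426 1322 298 1354 458)
 (.a 1 [298] (.d 296 2311 263 2344 428)
 .e))))
 .e)))))
 .e))))
 .e))))
 .e)))) (by decide +kernel)

theorem b6_9 : S (PX [] [265,402,425]) := S.of (.q 395 (.a 1 [] (.d 393 392 392 393 397)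
 (.a 1 [392] (.d 397 393 393 394 398)
 (.a 0 [393,397] (.q 331 (.a 1 [] (.d 299 1291 267 1323 427)
 (.a 1 [267] (.d 427 1323 299 1355 459)
 (.a 0 [299,427] (.q 330 (.a 1 [] (.d 297 2312 264 2345 429)
 (.a 1 [264] (.d 429 2345 297 2378 462)
 (.a 0 [297] (.q 329 (.a 1 [] (.d 328 327 327 328 332)
 (.a 1 [327] (.d 332 328 328 329 333)
 (.a 0 [328,332] (.q 362 (.a 1 [] (.d 298 1290 266 1322 426)
 (.a 1 [266] (.d 426 1322 298 1354 458)
 (.a 1 [298] (.d 296 2311 263 2344 428)
 .e))))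
 .e))))
 (.a 0 [429] (.q 426 (.a 1 [] (.d 362 1322 298 1354 458)
 (.a 0 [298,362,458] (.q 333 (.a 1 [] (.d 332 329 329 330 334)
 (.a 1 [329] (.d 364 3374 302 3405 457)
 .e)))
 .e)))
 .e)))))
 .e))))
 .e)))) (by decide +kernel)

theorem b6_10 : S (PX [] [265,402,427]) := S.of (.q 332 (.a 1 [] (.d 301 3342 270 3373 425)
 (.a 1 [270] (.d 425 3373 301 3404 456)
 (.a 0 [301,425] (.q 429 (.a 1 [] (.d 330 2345 297 2378 462)
 (.a 1 [297] (.d 462 2378 330 2411 495)
 (.a 0 [330,462] (.q 397 (.a 1 [] (.d 395 393 393 394 398)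
 (.a 0 [393,395,398] (.q 365 (.a 1 [] (.d 461 1357 333 1389 493)
 (.a 0 [333,461,493] (.q 364 (.a 1 [] (.d 362 361 361 362 366)
 (.a 1 [361] (.d 366 362 362 363 367)
 (.a 1 [362] (.d 300 1292 268 1324 428)
 .e))))
 .e)))
 .e)))
 .e))))
 .e)))) (by decide +kernel)

theorem b6_11 : S (PX [] [265,402,488]) := S.of (.q 395 (.a 1 [] (.d 393 392 392 393 397)
 (.a 1 [392] (.d 397 393 393 394 398)
 (.a 0 [393,397] (.q 331 (.a 1 [] (.d 299 1291 267 1323 427)
 (.a 1 [267] (.d 427 1323 299 1355 459)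
 (.a 0 [299,427] (.q 330 (.a 1 [] (.d 297 2312 264 2345 429)
 (.a 1 [264] (.d 429 2345 297 2378 462)
 (.a 0 [297,429] (.q 329 (.a 1 [] (.d 328 327 327 328 332)
 (.a 1 [327] (.d 332 328 328 329 333)
 (.a 1 [328] (.r 332 329 333 (.d 425 3373 301 3404 456))
 (.a 0 [332] (.q 362 (.a 1 [] (.d 298 1290 266 1322 426)
 (.a 1 [266] (.d 426 1322 298 1354 458)
 (.a 1 [298] (.d 296 2311 263 2344 428)
 .e))))
 .e)))))
 .e))))
 .e))))
 .e)))) (by decide +kernel)

theorem b6_12 : S (PX [] [173,269,402]) := S.of (.q 395 (.a 1 [] (.d 393 392 392 393 397)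
 (.a 1 [392] (.d 397 393 393 394 398)
 (.a 0 [393,397] (.q 331 (.a 1 [] (.d 299 1291 267 1323 427)
 (.a 1 [267] (.d 427 1323 299 1355 459)
 (.a 0 [299,427] (.q 330 (.a 1 [] (.d 297 2312 264 2345 429)
 (.a 1 [264] (.d 429 2345 297 2378 462)
 (.a 0 [297,429] (.q 332 (.a 1 [] (.d 329 328 328 329 333)
 (.a 1 [328] (.d 333 329 329 330 334)
 (.a 1 [329] (.d 301 3342 270 3373 425)
 .e))))
 .e))))
 .e))))
 .e)))) (by decide +kernel)

theorem b6_13 : S (PX [] [205,269,402]) := S.of (.q 395 (.a 1 [] (.d 393 392 392 393 397)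
 (.a 1 [392] (.d 397 393 393 394 398)
 (.a 0 [393,397] (.q 331 (.a 1 [] (.d 299 1291 267 1323 427)
 (.a 1 [267] (.d 427 1323 299 1355 459)
 (.a 0 [299,427] (.q 330 (.a 1 [] (.d 297 2312 264 2345 429)
 (.a 1 [264] (.d 429 2345 297 2378 462)
 (.a 0 [297,429] (.q 332 (.a 1 [] (.d 329 328 328 329 333)
 (.a 1 [328] (.d 333 329 329 330 334)
 (.a 1 [329] (.d 301 3342 270 3373 425)
 .e))))
 .e))))
 .e))))
 .e)))) (by decide +kernel)

theorem b6_14 : S (PX [] [266,269,402]) := S.of (.q 395 (.a 1 [] (.d 393 392 392 393 397)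
 (.a 1 [392] (.d 397 393 393 394 398)
 (.a 0 [393,397] (.q 331 (.a 1 [] (.d 299 1291 267 1323 427)
 (.a 1 [267] (.d 427 1323 299 1355 459)
 (.a 0 [299,427] (.q 332 (.a 1 [] (.d 301 3342 270 3373 425)
 (.a 1 [270] (.d 425 3373 301 3404 456)
 (.a 0 [301,425] (.q 333 (.a 1 [] (.d 330 329 329 330 334)
 (.a 1 [329] (.d 334 330 330 331 335)
 (.a 1 [334] (.r 330 329 329 (.d 429 2345 297 2378 462))
 (.a 0 [330] (.q 364 (.a 1 [] (.d 300 1292 268 1324 428)
 (.a 1 [268] (.d 428 1324 300 1356 460)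
 (.a 1 [300] (.d 302 3343 271 3374 426)
 .e))))
 .e)))))
 .e))))
 .e))))
 .e)))) (by decide +kernel)

theorem b6_15 : S (PX [] [269,270,402]) := S.of (.q 395 (.a 1 [] (.d 393 392 392 393 397)
 (.a 1 [392] (.d 397 393 393 394 398)
 (.a 0 [393,397] (.q 331 (.a 1 [] (.d 299 1291 267 1323 427)
 (.a 1 [267] (.d 427 1323 299 1355 459)
 (.a 0 [299,427] (.q 330 (.a 1 [] (.d 297 2312 264 2345 429)
 (.a 1 [264] (.d 429 2345 297 2378 462)
 (.a 0 [297,429] (.q 332 (.a 1 [] (.d 329 328 328 329 333)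
 (.a 1 [328] (.d 333 329 329 330 334)
 (.a 1 [329] (.d 425 3373 301 3404 456)
 .e))))
 .e))))
 .e))))
 .e)))) (by decide +kernel)

theorem b6_16 : S (PX [] [269,271,402]) := S.of (.q 395 (.a 1 [] (.d 393 392 392 393 397)
 (.a 1 [392] (.d 397 393 393 394 398)
 (.a 0 [393,397] (.q 331 (.a 1 [] (.d 299 1291 267 1323 427)
 (.a 1 [267] (.d 427 1323 299 1355 459)
 (.a 0 [299,427] (.q 330 (.a 1 [] (.d 297 2312 264 2345 429)
 (.a 1 [264] (.d 429 2345 297 2378 462)
 (.a 0 [297,429] (.q 332 (.a 1 [] (.d 329 328 328 329 333)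
 (.a 1 [328] (.d 333 329 329 330 334)
 (.a 1 [329] (.d 301 3342 270 3373 425)
 .e))))
 .e))))
 .e))))
 .e)))) (by decide +kernel)

theorem b6_17 : S (PX [] [269,301,402]) := S.of (.q 330 (.a 1 [] (.d 297 2312 264 2345 429)
 (.a 1 [264] (.d 429 2345 297 2378 462)
 (.a 0 [297] (.q 425 (.a 1 [] (.d 456 3404 332 3435 487)
 (.a 0 [332,456,487] (.q 426 (.a 1 [] (.d 362 1322 298 1354 458)
 (.a 1 [298] (.r 458 1354 362 (.r 429 2378 462 (.r 427 425 428 (.d 489 3437 365 3468 520))))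
 (.a 0 [362,458] (.q 395 (.a 1 [] (.d 393 392 392 393 397)
 (.a 1 [392] (.d 397 393 393 394 398)
 (.a 1 [393] (.r 429 2378 462 (.r 427 425 428 (.d 459 1355 331 1387 491)))
 .e))))
 .e))))
 .e)))
 (.a 0 [429] (.q 362 (.a 1 [] (.d 298 1290 266 1322 426)
 (.a 1 [266] (.d 426 1322 298 1354 458)
 (.a 0 [298,426] (.q 361 (.a 1 [] (.d 360 359 359 360 364)
 (.a 1 [359] (.d 364 360 360 361 365)
 (.a 0 [360,364] (.q 393 (.a 1 [] (.d 395 392 392 393 397)
 (.a 1 [392] (.r 297 2312 264 (.d 329 1289 265 1321 425))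
 .e)))
 .e))))
 .e))))
 .e))))) (by decide +kernel)

theorem b6_18 : S (PX [] [269,302,402]) := S.of (.q 395 (.a 1 [] (.d 393 392 392 393 397)
 (.a 1 [392] (.d 397 393 393 394 398)
 (.a 0 [393,397] (.q 331 (.a 1 [] (.d 299 1291 267 1323 427)
 (.a 1 [267] (.d 427 1323 299 1355 459)
 (.a 0 [299,427] (.q 330 (.a 1 [] (.d 297 2312 264 2345 429)
 (.a 1 [264] (.d 429 2345 297 2378 462)
 (.a 0 [297,429] (.q 332 (.a 1 [] (.d 329 328 328 329 333)
 (.a 1 [328] (.d 333 329 329 330 334)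
 (.a 1 [329] (.d 301 3342 270 3373 425)
 .e))))
 .e))))
 .e))))
 .e)))) (by decide +kernel)

theorem b6_19 : S (PX [] [269,330,402]) := S.of (.q 395 (.a 1 [] (.d 393 392 392 393 397)
 (.a 1 [392] (.d 397 393 393 394 398)
 (.a 0 [393] (.q 331 (.a 1 [] (.d 299 1291 267 1323 427)
 (.a 1 [267] (.d 427 1323 299 1355 459)
 (.a 0 [299,427] (.q 332 (.a 1 [] (.d 301 3342 270 3373 425)
 (.a 1 [270] (.d 425 3373 301 3404 456)
 (.a 0 [301,425] (.q 364 (.a 1 [] (.d 300 1292 268 1324 428)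
 (.a 1 [268] (.d 428 1324 300 1356 460)
 (.a 1 [300] (.r 397 394 398 (.d 430 2346 298 2379 463))
 .e))))
 .e))))
 .e))))
 (.a 0 [397] (.q 427 (.a 1 [] (.d 331 1323 299 1355 459)
 (.a 1 [299] (.d 459 1355 331 1387 491)
 (.a 0 [331,459] (.q 332 (.a 1 [] (.d 301 3342 270 3373 425)
 (.a 1 [270] (.d 425 3373 301 3404 456)
 (.a 0 [301,425] (.q 365 (.a 1 [] (.d 334 3375 303 3406 458)
 (.a 1 [303] (.d 458 3406 334 3437 489)
 (.a 0 [334,458] (.q 364 (.a 1 [] (.d 362 361 361 362 366)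
 (.a 1 [361] (.d 366 362 362 363 367)
 (.a 1 [362] (.d 300 1292 268 1324 428)
 .e))))
 .e))))
 .e))))
 .e))))
 .e))))) (by decide +kernel)

theorem b6_20 : S (PX [] [269,333,402]) := S.of (.q 330 (.a 1 [] (.d 297 2312 264 2345 429)
 (.a 1 [264] (.d 429 2345 297 2378 462)
 (.a 0 [297,429] (.q 425 (.a 1 [] (.d 332 3373 301 3404 456)
 (.a 1 [301] (.d 456 3404 332 3435 487)
 (.a 0 [332,456] (.q 426 (.a 1 [] (.d 362 1322 298 1354 458)
 (.a 0 [298,362,458] (.q 427 (.a 1 [] (.d 424 423 423 424 428)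
 (.a 0 [423,424,428] (.q 395 (.a 1 [] (.d 393 392 392 393 397)
 (.a 1 [392] (.d 397 393 393 394 398)
 (.a 1 [393] (.d 331 1323 299 1355 459)
 .e))))
 .e)))
 .e)))
 .e))))
 .e)))) (by decide +kernel)

theorem b6_21 : S (PX [] [269,365,402]) := S.of (.q 330 (.a 1 [] (.d 297 2312 264 2345 429)
 (.a 1 [264] (.d 429 2345 297 2378 462)
 (.a 0 [297,429] (.q 362 (.a 1 [] (.d 298 1290 266 1322 426)
 (.a 1 [266] (.d 426 1322 298 1354 458)
 (.a 0 [298,426] (.q 361 (.a 1 [] (.d 360 359 359 360 364)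
 (.a 0 [359,360,364] (.q 299 (.a 1 [] (.d 268 3309 237 3340 392)
 (.a 1 [237] (.d 392 3340 268 3371 423)
 (.a 1 [268] (.r 392 3371 423 (.r 395 392 393 (.d 331 1291 267 1323 427)))
 (.a 0 [392] (.q 395 (.a 1 [] (.d 397 393 393 394 398)
 (.a 1 [393] (.d 331 1291 267 1323 427)
 .e)))
 .e)))))
 .e)))
 .e))))
 .e)))) (by decide +kernel)

theorem b6_22 : S (PX [] [269,393,402]) := S.of (.q 330 (.a 1 [] (.d 297 2312 264 2345 429)
 (.a 1 [264] (.d 429 2345 297 2378 462)
 (.a 0 [297,429] (.q 332 (.a 1 [] (.d 301 3342 270 3373 425)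
 (.a 1 [270] (.d 425 3373 301 3404 456)
 (.a 0 [301] (.q 364 (.a 1 [] (.d 300 1292 268 1324 428)
 (.a 1 [268] (.d 428 1324 300 1356 460)
 (.a 0 [300,428] (.q 298 (.a 1 [] (.d 362 1290 266 1322 426)
 (.a 1 [266] (.r 362 1322 426 (.d 365 361 361 362 366))
 (.a 1 [426] (.r 362 1290 266 (.d 365 361 361 362 366))
 (.a 0 [362] (.q 331 (.a 1 [] (.d 329 328 328 329 333)
 (.a 1 [328] (.d 333 329 329 330 334)
 (.a 1 [329] (.d 265 2280 232 2313 397)
 .e))))
 .e)))))
 .e))))
 (.a 0 [425] (.q 329 (.a 1 [] (.d 331 328 328 329 333)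
 (.a 0 [328,331,333] (.q 362 (.a 1 [] (.d 298 1290 266 1322 426)
 (.a 1 [266] (.d 426 1322 298 1354 458)
 (.a 0 [298,426] (.q 428 (.a 1 [] (.d 364 1324 300 1356 460)
 (.a 1 [300] (.d 395 2344 296 2377 461)
 .e)))
 .e))))
 .e)))
 .e)))))
 .e)))) (by decide +kernel)

theorem b6_23 : S (PX [] [269,397,402]) := S.of (.q 330 (.a 1 [] (.d 297 2312 264 2345 429)
 (.a 1 [264] (.d 429 2345 297 2378 462)
 (.a 0 [297,429] (.q 425 (.a 1 [] (.d 332 3373 301 3404 456)
 (.a 1 [301] (.d 456 3404 332 3435 487)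
 (.a 0 [332,456] (.q 426 (.a 1 [] (.d 362 1322 298 1354 458)
 (.a 0 [298,362,458] (.q 423 (.a 1 [] (.d 424 422 422 423 427)
 (.a 0 [422,424,427] (.q 392 (.a 1 [] (.d 361 3371 299 3402 454)
 (.a 1 [299] (.r 393 392 395 (.r 361 3402 454 (.d 457 1353 329 1385 489)))
 (.a 1 [454] (.r 393 392 395 (.r 361 3371 299 (.d 457 1353 329 1385 489)))
 (.a 0 [361] (.r 393 392 395 (.q 327 (.a 1 [] (.d 360 2342 294 2375 459)
 (.a 1 [294] (.r 391 390 390 (.d 359 1319 295 1351 455))
 .e))))
 .e)))))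
 .e)))
 .e)))
 .e))))
 .e)))) (by decide +kernel)

theorem b6_24 : S (PX [] [269,400,402]) := S.of (.q 395 (.a 1 [] (.d 393 392 392 393 397)
 (.a 1 [392] (.d 397 393 393 394 398)
 (.a 0 [393,397] (.q 331 (.a 1 [] (.d 299 1291 267 1323 427)
 (.a 1 [267] (.d 427 1323 299 1355 459)
 (.a 0 [299,427] (.q 332 (.a 1 [] (.d 301 3342 270 3373 425)
 (.a 1 [270] (.d 425 3373 301 3404 456)
 (.a 0 [301,425] (.q 333 (.a 1 [] (.d 330 329 329 330 334)
 (.a 1 [329] (.d 334 330 330 331 335)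
 (.a 1 [334] (.r 330 329 329 (.d 429 2345 297 2378 462))
 (.a 0 [330] (.q 364 (.a 1 [] (.d 300 1292 268 1324 428)
 (.a 1 [268] (.d 428 1324 300 1356 460)
 (.a 1 [300] (.d 302 3343 271 3374 426)
 .e))))
 .e)))))
 .e))))
 .e))))
 .e)))) (by decide +kernel)

theorem b6_25 : S (PX [] [269,401,402]) := S.of (.q 395 (.a 1 [] (.d 393 392 392 393 397)
 (.a 1 [392] (.d 397 393 393 394 398)
 (.a 0 [393,397] (.q 331 (.a 1 [] (.d 299 1291 267 1323 427)
 (.a 1 [267] (.d 427 1323 299 1355 459)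
 (.a 0 [299,427] (.q 330 (.a 1 [] (.d 297 2312 264 2345 429)
 (.a 1 [264] (.d 429 2345 297 2378 462)
 (.a 0 [297,429] (.q 332 (.a 1 [] (.d 329 328 328 329 333)
 (.a 1 [328] (.d 333 329 329 330 334)
 (.a 1 [329] (.d 301 3342 270 3373 425)
 .e))))
 .e))))
 .e))))
 .e)))) (by decide +kernel)

theorem b6_26 : S (PX [] [269,402,425]) := S.of (.q 395 (.a 1 [] (.d 393 392 392 393 397)
 (.a 1 [392] (.d 397 393 393 394 398)
 (.a 0 [393,397] (.q 331 (.a 1 [] (.d 299 1291 267 1323 427)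
 (.a 1 [267] (.d 427 1323 299 1355 459)
 (.a 0 [299,427] (.q 330 (.a 1 [] (.d 297 2312 264 2345 429)
 (.a 1 [264] (.d 429 2345 297 2378 462)
 (.a 0 [297] (.q 329 (.a 1 [] (.d 328 327 327 328 332)
 (.a 1 [327] (.d 332 328 328 329 333)
 (.a 0 [328,332] (.q 362 (.a 1 [] (.d 298 1290 266 1322 426)
 (.a 1 [266] (.d 426 1322 298 1354 458)
 (.a 1 [298] (.d 296 2311 263 2344 428)
 .e))))
 .e))))
 (.a 0 [429] (.q 426 (.a 1 [] (.d 362 1322 298 1354 458)
 (.a 0 [298,362,458] (.q 333 (.a 1 [] (.d 332 329 329 330 334)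
 (.a 1 [329] (.d 364 3374 302 3405 457)
 .e)))
 .e)))
 .e)))))
 .e))))
 .e)))) (by decide +kernel)

theorem b6_27 : S (PX [] [269,402,457]) := S.of (.q 395 (.a 1 [] (.d 393 392 392 393 397)
 (.a 1 [392] (.d 397 393 393 394 398)
 (.a 0 [393,397] (.q 331 (.a 1 [] (.d 299 1291 267 1323 427)
 (.a 1 [267] (.d 427 1323 299 1355 459)
 (.a 0 [299,427] (.q 330 (.a 1 [] (.d 297 2312 264 2345 429)
 (.a 1 [264] (.d 429 2345 297 2378 462)
 (.a 0 [297,429] (.q 332 (.a 1 [] (.d 329 328 328 329 333)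
 (.a 1 [328] (.d 333 329 329 330 334)
 (.a 1 [329] (.d 301 3342 270 3373 425)
 .e))))
 .e))))
 .e))))
 .e)))) (by decide +kernel)

theorem b6_28 : S (PX [] [269,402,462]) := S.of (.q 395 (.a 1 [] (.d 393 392 392 393 397)
 (.a 1 [392] (.d 397 393 393 394 398)
 (.a 0 [393,397] (.q 331 (.a 1 [] (.d 299 1291 267 1323 427)
 (.a 1 [267] (.d 427 1323 299 1355 459)
 (.a 0 [299,427] (.q 332 (.a 1 [] (.d 301 3342 270 3373 425)
 (.a 1 [270] (.d 425 3373 301 3404 456)
 (.a 0 [301,425] (.q 333 (.a 1 [] (.d 330 329 329 330 334)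
 (.a 1 [329] (.d 334 330 330 331 335)
 (.a 1 [334] (.r 330 329 329 (.d 297 2312 264 2345 429))
 (.a 0 [330] (.q 364 (.a 1 [] (.d 300 1292 268 1324 428)
 (.a 1 [268] (.d 428 1324 300 1356 460)
 (.a 1 [300] (.d 302 3343 271 3374 426)
 .e))))
 .e)))))
 .e))))
 .e))))
 .e)))) (by decide +kernel)

theorem b6_29 : S (PX [] [269,402,464]) := S.of (.q 395 (.a 1 [] (.d 393 392 392 393 397)
 (.a 1 [392] (.d 397 393 393 394 398)
 (.a 0 [393,397] (.q 331 (.a 1 [] (.d 299 1291 267 1323 427)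
 (.a 1 [267] (.d 427 1323 299 1355 459)
 (.a 0 [299,427] (.q 332 (.a 1 [] (.d 301 3342 270 3373 425)
 (.a 1 [270] (.d 425 3373 301 3404 456)
 (.a 0 [301,425] (.q 333 (.a 1 [] (.d 330 329 329 330 334)
 (.a 1 [329] (.d 334 330 330 331 335)
 (.a 1 [334] (.r 330 329 329 (.d 429 2345 297 2378 462))
 (.a 0 [330] (.q 364 (.a 1 [] (.d 300 1292 268 1324 428)
 (.a 1 [268] (.d 428 1324 300 1356 460)
 (.a 1 [300] (.d 302 3343 271 3374 426)
 .e))))
 .e)))))
 .e))))
 .e))))
 .e)))) (by decide +kernel)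

theorem b6_30 : S (PX [] [269,402,494]) := S.of (.q 395 (.a 1 [] (.d 393 392 392 393 397)
 (.a 1 [392] (.d 397 393 393 394 398)
 (.a 0 [393,397] (.q 331 (.a 1 [] (.d 299 1291 267 1323 427)
 (.a 1 [267] (.d 427 1323 299 1355 459)
 (.a 0 [299,427] (.q 330 (.a 1 [] (.d 297 2312 264 2345 429)
 (.a 1 [264] (.d 429 2345 297 2378 462)
 (.a 0 [297,429] (.q 332 (.a 1 [] (.d 329 328 328 329 333)
 (.a 1 [328] (.d 333 329 329 330 334)
 (.a 1 [329] (.d 301 3342 270 3373 425)
 .e))))
 .e))))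
 .e))))
 .e)))) (by decide +kernel)

theorem b6_245 : S (PX [] [232,332,402]) := S.of (.q 395 (.a 1 [] (.d 393 392 392 393 397)
 (.a 1 [392] (.d 397 393 393 394 398)
 (.a 0 [393,397] (.q 427 (.a 1 [] (.d 331 1323 299 1355 459)
 (.a 1 [299] (.d 459 1355 331 1387 491)
 (.a 0 [331,459] (.q 330 (.a 1 [] (.d 297 2312 264 2345 429)
 (.a 1 [264] (.d 429 2345 297 2378 462)
 (.a 0 [297,429] (.q 361 (.a 1 [] (.d 328 2343 295 2376 460)
 (.a 1 [295] (.d 460 2376 328 2409 493)
 (.a 0 [328,460] (.q 362 (.a 1 [] (.d 360 359 359 360 364)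
 (.a 1 [359] (.d 364 360 360 361 365)
 (.a 1 [360] (.d 298 1290 266 1322 426)
 .e))))
 .e))))
 .e))))
 .e))))
 .e)))) (by decide +kernel)

theorem v0_1 : VW (PX [237,336] [171,270,303,402]) := VW.of base nl_ok fl_ok .nil
  []
  [([300], (PX [237,336] [171,270,300,303,402])), ([301], (PX [237,336] [171,270,301,303,402])), ([302], (PX [237,336] [171,270,302,303,402])), ([330], (PX [237,336] [171,270,303,330,402])), ([392], (PX [237,336] [171,270,303,392,402]))]
  (by decide +kernel) ⟨b0_5, b0_6, b0_7, b0_8, b0_9, trivial⟩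

theorem v0_3 : VW (PX [237,336] [204,270,303,402]) := VW.of base nl_ok fl_ok .nil
  []
  [([266], (PX [237,336] [204,266,270,303,402])), ([268], (PX [237,336] [204,268,270,303,402])), ([300], (PX [237,336] [204,270,300,303,402])), ([301], (PX [237,336] [204,270,301,303,402])), ([302], (PX [237,336] [204,270,302,303,402])), ([330], (PX [237,336] [204,270,303,330,402])), ([392], (PX [237,336] [204,270,303,392,402])), ([393], (PX [237,336] [204,270,303,393,402])), ([395], (PX [237,336] [204,270,303,395,402])), ([424], (PX [237,336] [204,270,303,402,424]))]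
  (by decide +kernel) ⟨b0_20, b0_21, b0_22, b0_23, b0_24, b0_25, b0_26, b0_27, b0_28, b0_29, trivial⟩

theorem v0_4 : VW (PX [171,336] [237,270,303,402]) := VW.of base nl_ok fl_ok .nil
  []
  [([268], (PX [171,336] [237,268,270,303,402])), ([269], (PX [171,336] [237,269,270,303,402])), ([300], (PX [171,336] [237,270,300,303,402])), ([301], (PX [171,336] [237,270,301,303,402])), ([302], (PX [171,336] [237,270,302,303,402])), ([330], (PX [171,336] [237,270,303,330,402])), ([392], (PX [171,336] [237,270,303,392,402]))]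
  (by decide +kernel) ⟨b0_30, b0_31, b0_32, b0_33, b0_34, b0_35, b0_36, trivial⟩

theorem w0_6_171 : S (PX [336] [171,270,303,402]) := VW.play 237 (PX [237,336] [171,270,303,402]) (by decide +kernel) v0_1

theorem w0_6_204 : S (PX [336] [204,270,303,402]) := VW.play 237 (PX [237,336] [204,270,303,402]) (by decide +kernel) v0_3

theorem w0_6_237 : S (PX [336] [237,270,303,402]) := VW.play 171 (PX [171,336] [237,270,303,402]) (by decide +kernel) v0_4

theorem v0_6 : VW (PX [336] [270,303,402]) := VW.of base nl_ok fl_ok .nil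
  []
  (([171], (PX [336] [171,270,303,402])) :: ([204], (PX [336] [204,270,303,402])) :: ([237], (PX [336] [237,270,303,402])) :: ([265], (PX [336] [265,270,303,402])) :: ([269], (PX [336] [269,270,303,402])) :: ([298], (PX [336] [270,298,303,402])) :: ([299], (PX [336] [270,299,303,402])) :: ([300], (PX [336] [270,300,303,402])) :: ([301], (PX [336] [270,301,303,402])) :: ([302], (PX [336] [270,302,303,402])) :: ([327], (PX [336] [270,303,327,402])) :: ([328], (PX [336] [270,303,328,402])) :: ([330], (PX [336] [270,303,330,402])) :: ([331], (PX [336] [270,303,331,402])) :: ([333], (PX [336] [270,303,333,402])) :: ([335], (PX [336] [270,303,335,402])) :: ([360], (PX [336] [270,303,360,402])) :: ([361], (PX [336] [270,303,361,402])) :: ([362], (PX [336] [270,303,362,402])) :: ([364], (PX [336] [270,303,364,402])) :: ([366], (PX [336] [270,303,366,402])) :: ([392], (PX [336] [270,303,392,402])) :: ([393], (PX [336] [270,303,393,402])) :: ([395],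 (PX [336] [270,303,395,402])) :: ([397], (PX [336] [270,303,397,402])) :: ([398], (PX [336] [270,303,398,402])) :: ([424], (PX [336] [270,303,402,424])) :: ([426], (PX [336] [270,303,402,426])) :: ([427], (PX [336] [270,303,402,427])) :: ([429], (PX [336] [270,303,402,429])) :: ([430], (PX [336] [270,303,402,430])) :: ([457], (PX [336] [270,303,402,457])) :: ([459], (PX [336] [270,303,402,459])) :: ([460], (PX [336] [270,303,402,460])) :: ([462], (PX [336] [270,303,402,462])) :: ([463], (PX [336] [270,303,402,463])) :: ([490], (PX [336] [270,303,402,490])) :: ([491], (PX [336] [270,303,402,491])) :: ([492], (PX [336] [270,303,402,492])) :: ([493], (PX [336] [270,303,402,493])) :: ([521], (PX [336] [270,303,402,521])) :: [])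
  (by decide +kernel) ⟨w0_6_171, w0_6_204, w0_6_237, b0_44, b0_45, b0_46, b0_47, b0_48, b0_49, b0_50, b0_51, b0_52, b0_53, b0_54, b0_55, b0_56, b0_57, b0_58, b0_59, b0_60, b0_61, b0_62, b0_63, b0_64, b0_65, b0_66, b0_67, b0_68, b0_69, b0_70, b0_71, b0_72, b0_73, b0_74, b0_75, b0_76, b0_77, b0_78, b0_79, b0_80, b0_81, trivial⟩

theorem v0_14 : VW (PX [303] [270,336,402]) := VW.of base nl_ok fl_ok .nil
  [(369, (.cons 435 468 .nil (.cons 468 435 .nil .nil))), (435, (.cons 369 468 .nil (.cons 468 369 (.cons 501 534 .nil (.cons 534 501 .nil .nil)) .nil))), (468, (.cons 369 435 .nil (.cons 435 369 (.cons 501 534 .nil (.cons 534 501 .nil .nil)) .nil)))]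
  [([330], (PX [303] [270,330,336,402])), ([392], (PX [303] [270,336,392,402]))]
  (by decide +kernel) ⟨b0_160, b0_161, trivial⟩

theorem v0_31 : VW (PX [336] [270,369,402]) := VW.of base nl_ok fl_ok .nil
  [(435, (.cons 468 501 .nil (.cons 501 468 .nil .nil))), (468, (.cons 435 501 .nil (.cons 501 435 .nil .nil))), (501, (.cons 435 468 .nil (.cons 468 435 .nil .nil)))]
  [([330], (PX [336] [270,330,369,402]))]
  (by decide +kernel) ⟨b0_294, trivial⟩

theorem w0_32_303 : S (PX [] [270,303,402]) := VW.play 336 (PX [336] [270,303,402]) (by decide +kernel) v0_6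

theorem w0_32_336 : S (PX [] [270,336,402]) := VW.play 303 (PX [303] [270,336,402]) (by decide +kernel) v0_14

theorem w0_32_369 : S (PX [] [270,369,402]) := VW.play 336 (PX [336] [270,369,402]) (by decide +kernel) v0_31

theorem v0_32 : VW (PX [] [270,402]) := VW.of base nl_ok fl_ok .nil
  []
  [([303], (PX [] [270,303,402])), ([330], (PX [] [270,330,402])), ([336], (PX [] [270,336,402])), ([369], (PX [] [270,369,402]))]
  (by decide +kernel) ⟨w0_32_303, b0_159, w0_32_336, w0_32_369, trivial⟩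

theorem v0_33 : VW (PX [] [274,402]) := VW.of base nl_ok fl_ok .nil
  [(306, (.cons 338 370 (.cons 210 242 .nil (.cons 242 210 .nil .nil)) (.cons 370 338 .nil .nil))), (338, (.cons 306 370 (.cons 210 242 .nil (.cons 242 210 .nil .nil)) (.cons 370 306 (.cons 434 466 .nil (.cons 466 434 .nil .nil)) .nil))), (370, (.cons 306 338 .nil (.cons 338 306 (.cons 434 466 .nil (.cons 466 434 .nil .nil)) .nil)))]
  []
  (by decide +kernel) trivial

theorem v0_47 : VW (PX [371] [278,340,402]) := VW.of base nl_ok fl_ok .nil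
  [(216, (.cons 247 309 (.cons 154 185 .nil (.cons 185 154 .nil .nil)) (.cons 309 247 .nil .nil))), (247, (.cons 216 309 (.cons 154 185 .nil (.cons 185 154 .nil .nil)) (.cons 309 216 .nil .nil))), (309, (.cons 216 247 .nil (.cons 247 216 .nil .nil)))]
  []
  (by decide +kernel) trivial

theorem v0_53 : VW (PX [340,464] [278,371,402,433]) := VW.of base nl_ok fl_ok .nil
  []
  []
  (by decide +kernel) trivial

theorem v0_55 : VW (PX [340,433] [278,371,402,464]) := VW.of base nl_ok fl_ok .nil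
  []
  []
  (by decide +kernel) trivial

theorem v0_57 : VW (PX [340,433] [278,371,402,495]) := VW.of base nl_ok fl_ok .nil
  []
  []
  (by decide +kernel) trivial

theorem w0_59_433 : S (PX [340] [278,371,402,433]) := VW.play 464 (PX [340,464] [278,371,402,433]) (by decide +kernel) v0_53

theorem w0_59_464 : S (PX [340] [278,371,402,464]) := VW.play 433 (PX [340,433] [278,371,402,464]) (by decide +kernel) v0_55

theorem w0_59_495 : S (PX [340] [278,371,402,495]) := VW.play 433 (PX [340,433] [278,371,402,495]) (by decide +kernel) v0_57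

theorem v0_59 : VW (PX [340] [278,371,402]) := VW.of base nl_ok fl_ok .nil
  []
  [([433], (PX [340] [278,371,402,433])), ([464], (PX [340] [278,371,402,464])), ([495], (PX [340] [278,371,402,495]))]
  (by decide +kernel) ⟨w0_59_433, w0_59_464, w0_59_495, trivial⟩

theorem w0_60_340 : S (PX [] [278,340,402]) := VW.play 371 (PX [371] [278,340,402]) (by decide +kernel) v0_47

theorem w0_60_371 : S (PX [] [278,371,402]) := VW.play 340 (PX [340] [278,371,402]) (by decide +kernel) v0_59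

theorem v0_60 : VW (PX [] [278,402]) := VW.of base nl_ok fl_ok .nil
  [(309, (.cons 340 371 (.cons 216 247 .nil (.cons 247 216 .nil .nil)) (.cons 371 340 .nil .nil)))]
  [([340], (PX [] [278,340,402])), ([371], (PX [] [278,371,402]))]
  (by decide +kernel) ⟨w0_60_340, w0_60_371, trivial⟩

theorem v0_62 : VW (PX [270,369] [204,303,336,402]) := VW.of base nl_ok fl_ok .nil
  []
  [([235], (PX [270,369] [204,235,303,336,402])), ([266], (PX [270,369] [204,266,303,336,402])), ([300], (PX [270,369] [204,300,303,336,402])), ([302], (PX [270,369] [204,302,303,336,402])), ([333], (PX [270,369] [204,303,333,336,402])), ([335], (PX [270,369] [204,303,335,336,402])), ([362], (PX [270,369] [204,303,336,362,402])), ([393], (PX [270,369] [204,303,336,393,402])), ([395], (PX [270,369] [204,303,336,395,402]))]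
  (by decide +kernel) ⟨b0_315, b0_316, b0_317, b0_318, b0_319, b0_320, b0_321, b0_322, b0_323, trivial⟩

theorem v0_64 : VW (PX [270,369] [237,303,336,402]) := VW.of base nl_ok fl_ok .nil
  []
  [([300], (PX [270,369] [237,300,303,336,402])), ([302], (PX [270,369] [237,302,303,336,402])), ([330], (PX [270,369] [237,303,330,336,402])), ([333], (PX [270,369] [237,303,333,336,402])), ([425], (PX [270,369] [237,303,336,402,425]))]
  (by decide +kernel) ⟨b0_329, b0_330, b0_331, b0_332, b0_333, trivial⟩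

theorem v0_12 : VW (PX [237,369] [270,303,336,402]) := VW.of base nl_ok fl_ok .nil
  []
  [([300], (PX [237,369] [270,300,303,336,402])), ([301], (PX [237,369] [270,301,303,336,402])), ([302], (PX [237,369] [270,302,303,336,402])), ([330], (PX [237,369] [270,303,330,336,402])), ([334], (PX [237,369] [270,303,334,336,402])), ([392], (PX [237,369] [270,303,336,392,402]))]
  (by decide +kernel) ⟨b0_128, b0_129, b0_130, b0_131, b0_132, b0_133, trivial⟩

theorem w0_65_204 : S (PX [369] [204,303,336,402]) := VW.play 270 (PX [270,369] [204,303,336,402]) (by decide +kernel) v0_62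

theorem w0_65_237 : S (PX [369] [237,303,336,402]) := VW.play 270 (PX [270,369] [237,303,336,402]) (by decide +kernel) v0_64

theorem w0_65_270 : S (PX [369] [270,303,336,402]) := VW.play 237 (PX [237,369] [270,303,336,402]) (by decide +kernel) v0_12

theorem v0_65 : VW (PX [369] [303,336,402]) := VW.of base nl_ok fl_ok .nil
  []
  (([204], (PX [369] [204,303,336,402])) :: ([237], (PX [369] [237,303,336,402])) :: ([265], (PX [369] [265,303,336,402])) :: ([268], (PX [369] [268,303,336,402])) :: ([269], (PX [369] [269,303,336,402])) :: ([270], (PX [369] [270,303,336,402])) :: ([299], (PX [369] [299,303,336,402])) :: ([300], (PX [369] [300,303,336,402])) :: ([301], (PX [369] [301,303,336,402])) :: ([302], (PX [369] [302,303,336,402])) :: ([327], (PX [369] [303,327,336,402])) :: ([328], (PX [369] [303,328,336,402])) :: ([330], (PX [369] [303,330,336,402])) :: ([331], (PX [369] [303,331,336,402])) :: ([332], (PX [369] [303,332,336,402])) :: ([333],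 (PX [369] [303,333,336,402])) :: ([334], (PX [369] [303,334,336,402])) :: ([335], (PX [369] [303,335,336,402])) :: ([360], (PX [369] [303,336,360,402])) :: ([361], (PX [369] [303,336,361,402])) :: ([362], (PX [369] [303,336,362,402])) :: ([364], (PX [369] [303,336,364,402])) :: ([366], (PX [369] [303,336,366,402])) :: ([392], (PX [369] [303,336,392,402])) :: ([393], (PX [369] [303,336,393,402])) :: ([395], (PX [369] [303,336,395,402])) :: ([397], (PX [369] [303,336,397,402])) :: ([398], (PX [369] [303,336,398,402])) :: ([400], (PX [369] [303,336,400,402])) :: ([424], (PX [369] [303,336,402,424])) :: ([426], (PX [369] [303,336,402,426])) :: ([427], (PX [369] [303,336,402,427])) :: ([429], (PX [369] [303,336,402,429])) :: ([430], (PX [369] [303,336,402,430])) :: ([431], (PX [369] [303,336,402,431])) :: ([455], (PX [369] [303,336,402,455])) :: ([457], (PX [369] [303,336,402,457])) :: ([459], (PX [369] [303,336,402,459])) :: ([460], (PX [369] [303,336,402,460]))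 :: ([462], (PX [369] [303,336,402,462])) :: ([463], (PX [369] [303,336,402,463])) :: ([490], (PX [369] [303,336,402,490])) :: ([491], (PX [369] [303,336,402,491])) :: ([492], (PX [369] [303,336,402,492])) :: ([493], (PX [369] [303,336,402,493])) :: ([495], (PX [369] [303,336,402,495])) :: ([521], (PX [369] [303,336,402,521])) :: ([525], (PX [369] [303,336,402,525])) :: ([526], (PX [369] [303,336,402,526])) :: ([555], (PX [369] [303,336,402,555])) :: [])
  (by decide +kernel) ⟨w0_65_204, w0_65_237, b0_334, b0_335, b0_336, w0_65_270, b0_337, b0_338, b0_339, b0_340, b0_341, b0_342, b0_343, b0_344, b0_345, b0_346, b0_347, b0_348, b0_349, b0_350, b0_351, b0_352, b0_353, b0_354, b0_355, b0_356, b0_357, b0_358, b0_359, b0_360, b0_361, b0_362, b0_363, b0_364, b0_365, b0_366, b0_367, b0_368, b0_369, b0_370, b0_371, b0_372, b0_373, b0_374, b0_375, b0_376, b0_377, b0_378, b0_379, b0_380, trivial⟩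

theorem v0_66 : VW (PX [336] [303,369,402]) := VW.of base nl_ok fl_ok .nil
  [(435, (.cons 468 501 .nil (.cons 501 468 .nil .nil))), (468, (.cons 435 501 .nil (.cons 501 435 .nil .nil))), (501, (.cons 435 468 .nil (.cons 468 435 .nil .nil)))]
  []
  (by decide +kernel) trivial

theorem v0_75 : VW (PX [369] [303,402,435]) := VW.of base nl_ok fl_ok .nil
  [(468, (.cons 501 534 .nil (.cons 534 501 .nil .nil))), (501, (.cons 468 534 .nil (.cons 534 468 .nil .nil))), (534, (.cons 468 501 .nil (.cons 501 468 .nil .nil)))]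
  []
  (by decide +kernel) trivial

theorem w0_76_270 : S (PX [] [270,303,402]) := VW.play 336 (PX [336] [270,303,402]) (by decide +kernel) v0_6

theorem w0_76_336 : S (PX [] [303,336,402]) := VW.play 369 (PX [369] [303,336,402]) (by decide +kernel) v0_65

theorem w0_76_369 : S (PX [] [303,369,402]) := VW.play 336 (PX [336] [303,369,402]) (by decide +kernel) v0_66

theorem w0_76_435 : S (PX [] [303,402,435]) := VW.play 369 (PX [369] [303,402,435]) (by decide +kernel) v0_75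

theorem v0_76 : VW (PX [] [303,402]) := VW.of base nl_ok fl_ok .nil
  []
  [([270], (PX [] [270,303,402])), ([300], (PX [] [300,303,402])), ([302], (PX [] [302,303,402])), ([330], (PX [] [303,330,402])), ([336], (PX [] [303,336,402])), ([369], (PX [] [303,369,402])), ([435], (PX [] [303,402,435]))]
  (by decide +kernel) ⟨w0_76_270, b0_303, b0_304, b0_305, w0_76_336, w0_76_369, w0_76_435, trivial⟩

theorem v0_80 : VW (PX [370] [306,338,402]) := VW.of base nl_ok fl_ok .nil
  [(210, (.cons 242 274 .nil (.cons 274 242 .nil .nil))), (242, (.cons 210 274 .nil (.cons 274 210 .nil .nil))), (274, (.cons 210 242 .nil (.cons 242 210 .nil .nil)))]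
  []
  (by decide +kernel) trivial

theorem v0_95 : VW (PX [338] [306,370,402]) := VW.of base nl_ok fl_ok .nil
  [(434, (.cons 466 498 .nil (.cons 498 466 .nil .nil))), (466, (.cons 434 498 .nil (.cons 498 434 .nil .nil))), (498, (.cons 434 466 .nil (.cons 466 434 .nil .nil)))]
  []
  (by decide +kernel) trivial

theorem w0_98_338 : S (PX [] [306,338,402]) := VW.play 370 (PX [370] [306,338,402]) (by decide +kernel) v0_80

theorem w0_98_370 : S (PX [] [306,370,402]) := VW.play 338 (PX [338] [306,370,402]) (by decide +kernel) v0_95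

theorem v0_98 : VW (PX [] [306,402]) := VW.of base nl_ok fl_ok .nil
  [(274, (.cons 338 370 (.cons 210 242 .nil (.cons 242 210 .nil .nil)) (.cons 370 338 .nil .nil))), (434, (.cons 338 370 .nil (.cons 370 338 (.cons 466 498 .nil (.cons 498 466 .nil .nil)) .nil)))]
  [([338], (PX [] [306,338,402])), ([370], (PX [] [306,370,402]))]
  (by decide +kernel) ⟨w0_98_338, w0_98_370, trivial⟩

theorem v0_121 : VW (PX [303,468] [336,369,402,435]) := VW.of base nl_ok fl_ok .nil
  []
  []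
  (by decide +kernel) trivial

theorem v0_122 : VW (PX [303,435] [336,369,402,468]) := VW.of base nl_ok fl_ok .nil
  []
  []
  (by decide +kernel) trivial

theorem w0_123_435 : S (PX [303] [336,369,402,435]) := VW.play 468 (PX [303,468] [336,369,402,435]) (by decide +kernel) v0_121

theorem w0_123_468 : S (PX [303] [336,369,402,468]) := VW.play 435 (PX [303,435] [336,369,402,468]) (by decide +kernel) v0_122

theorem v0_123 : VW (PX [303] [336,369,402]) := VW.of base nl_ok fl_ok (.cons 435 468 .nil (.cons 468 435 .nil .nil))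
  [(501, (.cons 435 468 .nil (.cons 468 435 .nil .nil))), (534, (.cons 435 468 .nil (.cons 468 435 .nil .nil))), (567, (.cons 435 468 .nil (.cons 468 435 .nil .nil)))]
  [([435], (PX [303] [336,369,402,435])), ([468], (PX [303] [336,369,402,468]))]
  (by decide +kernel) ⟨w0_123_435, w0_123_468, trivial⟩

theorem v0_124 : VW (PX [369] [336,402,435]) := VW.of base nl_ok fl_ok .nil
  [(468, (.cons 501 534 .nil (.cons 534 501 .nil .nil))), (501, (.cons 468 534 .nil (.cons 534 468 .nil .nil))), (534, (.cons 468 501 .nil (.cons 501 468 .nil .nil)))]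
  []
  (by decide +kernel) trivial

theorem v0_125 : VW (PX [369] [336,402,468]) := VW.of base nl_ok fl_ok .nil
  [(435, (.cons 501 534 .nil (.cons 534 501 .nil .nil))), (501, (.cons 435 534 .nil (.cons 534 435 (.cons 567 600 .nil (.cons 600 567 .nil .nil)) .nil))), (534, (.cons 435 501 .nil (.cons 501 435 (.cons 567 600 .nil (.cons 600 567 .nil .nil)) .nil)))]
  []
  (by decide +kernel) trivial

theorem w0_141_270 : S (PX [] [270,336,402]) := VW.play 303 (PX [303] [270,336,402]) (by decide +kernel) v0_14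

theorem w0_141_303 : S (PX [] [303,336,402]) := VW.play 369 (PX [369] [303,336,402]) (by decide +kernel) v0_65

theorem w0_141_369 : S (PX [] [336,369,402]) := VW.play 303 (PX [303] [336,369,402]) (by decide +kernel) v0_123

theorem w0_141_435 : S (PX [] [336,402,435]) := VW.play 369 (PX [369] [336,402,435]) (by decide +kernel) v0_124

theorem w0_141_468 : S (PX [] [336,402,468]) := VW.play 369 (PX [369] [336,402,468]) (by decide +kernel) v0_125

theorem v0_141 : VW (PX [] [336,402]) := VW.of base nl_ok fl_ok .nil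
  []
  [([270], (PX [] [270,336,402])), ([303], (PX [] [303,336,402])), ([369], (PX [] [336,369,402])), ([435], (PX [] [336,402,435])), ([468], (PX [] [336,402,468]))]
  (by decide +kernel) ⟨w0_141_270, w0_141_303, w0_141_369, w0_141_435, w0_141_468, trivial⟩

theorem v0_142 : VW (PX [306,466] [338,370,402,434]) := VW.of base nl_ok fl_ok .nil
  []
  []
  (by decide +kernel) trivial

theorem v0_143 : VW (PX [306,434] [338,370,402,466]) := VW.of base nl_ok fl_ok .nil
  []
  []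
  (by decide +kernel) trivial

theorem w0_144_434 : S (PX [306] [338,370,402,434]) := VW.play 466 (PX [306,466] [338,370,402,434]) (by decide +kernel) v0_142

theorem w0_144_466 : S (PX [306] [338,370,402,466]) := VW.play 434 (PX [306,434] [338,370,402,466]) (by decide +kernel) v0_143

theorem v0_144 : VW (PX [306] [338,370,402]) := VW.of base nl_ok fl_ok (.cons 434 466 .nil (.cons 466 434 .nil .nil))
  [(498, (.cons 434 466 .nil (.cons 466 434 .nil .nil))), (530, (.cons 434 466 .nil (.cons 466 434 .nil .nil))), (562, (.cons 434 466 .nil (.cons 466 434 .nil .nil)))]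
  [([434], (PX [306] [338,370,402,434])), ([466], (PX [306] [338,370,402,466]))]
  (by decide +kernel) ⟨w0_144_434, w0_144_466, trivial⟩

theorem v0_161 : VW (PX [370] [338,402,434]) := VW.of base nl_ok fl_ok .nil
  [(466, (.cons 498 530 .nil (.cons 530 498 .nil .nil))), (498, (.cons 466 530 .nil (.cons 530 466 .nil .nil))), (530, (.cons 466 498 .nil (.cons 498 466 .nil .nil)))]
  []
  (by decide +kernel) trivial

theorem w0_164_306 : S (PX [] [306,338,402]) := VW.play 370 (PX [370] [306,338,402]) (by decide +kernel) v0_80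

theorem w0_164_370 : S (PX [] [338,370,402]) := VW.play 306 (PX [306] [338,370,402]) (by decide +kernel) v0_144

theorem w0_164_434 : S (PX [] [338,402,434]) := VW.play 370 (PX [370] [338,402,434]) (by decide +kernel) v0_161

theorem v0_164 : VW (PX [] [338,402]) := VW.of base nl_ok fl_ok .nil
  [(274, (.cons 306 370 (.cons 210 242 .nil (.cons 242 210 .nil .nil)) (.cons 370 306 (.cons 434 466 .nil (.cons 466 434 .nil .nil)) .nil))), (466, (.cons 370 434 (.cons 274 306 .nil (.cons 306 274 .nil .nil)) (.cons 434 370 (.cons 498 530 .nil (.cons 530 498 .nil .nil)) .nil)))]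
  [([306], (PX [] [306,338,402])), ([370], (PX [] [338,370,402])), ([434], (PX [] [338,402,434]))]
  (by decide +kernel) ⟨w0_164_306, w0_164_370, w0_164_434, trivial⟩

theorem v0_99 : VW (PX [371] [309,340,402]) := VW.of base nl_ok fl_ok .nil
  [(216, (.cons 247 278 .nil (.cons 278 247 .nil .nil))), (247, (.cons 216 278 .nil (.cons 278 216 .nil .nil))), (278, (.cons 216 247 .nil (.cons 247 216 .nil .nil)))]
  []
  (by decide +kernel) trivial

theorem v0_165 : VW (PX [309,433] [278,340,371,402]) := VW.of base nl_ok fl_ok .nil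
  []
  []
  (by decide +kernel) trivial

theorem v0_108 : VW (PX [278,433] [309,340,371,402]) := VW.of base nl_ok fl_ok .nil
  []
  []
  (by decide +kernel) trivial

theorem w0_166_278 : S (PX [433] [278,340,371,402]) := VW.play 309 (PX [309,433] [278,340,371,402]) (by decide +kernel) v0_165

theorem w0_166_309 : S (PX [433] [309,340,371,402]) := VW.play 278 (PX [278,433] [309,340,371,402]) (by decide +kernel) v0_108

theorem v0_166 : VW (PX [433] [340,371,402]) := VW.of base nl_ok fl_ok (.cons 278 309 .nil (.cons 309 278 .nil .nil))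
  [(185, (.cons 278 309 .nil (.cons 309 278 .nil .nil))), (216, (.cons 278 309 .nil (.cons 309 278 .nil .nil))), (247, (.cons 278 309 .nil (.cons 309 278 .nil .nil)))]
  [([278], (PX [433] [278,340,371,402])), ([309], (PX [433] [309,340,371,402]))]
  (by decide +kernel) ⟨w0_166_278, w0_166_309, trivial⟩

theorem v0_167 : VW (PX [371,464] [340,402,433,495]) := VW.of base nl_ok fl_ok .nil
  []
  []
  (by decide +kernel) trivial

theorem v0_169 : VW (PX [371,464] [340,402,433,526]) := VW.of base nl_ok fl_ok .nil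
  []
  []
  (by decide +kernel) trivial

theorem w0_171_495 : S (PX [371] [340,402,433,495]) := VW.play 464 (PX [371,464] [340,402,433,495]) (by decide +kernel) v0_167

theorem w0_171_526 : S (PX [371] [340,402,433,526]) := VW.play 464 (PX [371,464] [340,402,433,526]) (by decide +kernel) v0_169

theorem v0_171 : VW (PX [371] [340,402,433]) := VW.of base nl_ok fl_ok .nil
  [(464, (.cons 495 526 .nil (.cons 526 495 .nil .nil)))]
  [([495], (PX [371] [340,402,433,495])), ([526], (PX [371] [340,402,433,526]))]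
  (by decide +kernel) ⟨w0_171_495, w0_171_526, trivial⟩

theorem v0_185 : VW (PX [433] [340,402,464]) := VW.of base nl_ok fl_ok .nil
  [(278, (.cons 309 371 (.cons 216 247 .nil (.cons 247 216 .nil .nil)) (.cons 371 309 .nil .nil))), (309, (.cons 278 371 (.cons 216 247 .nil (.cons 247 216 .nil .nil)) (.cons 371 278 .nil .nil))), (371, (.cons 278 309 .nil (.cons 309 278 .nil .nil)))]
  []
  (by decide +kernel) trivial

theorem w0_186_278 : S (PX [] [278,340,402]) := VW.play 371 (PX [371] [278,340,402]) (by decide +kernel) v0_47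

theorem w0_186_309 : S (PX [] [309,340,402]) := VW.play 371 (PX [371] [309,340,402]) (by decide +kernel) v0_99

theorem w0_186_371 : S (PX [] [340,371,402]) := VW.play 433 (PX [433] [340,371,402]) (by decide +kernel) v0_166

theorem w0_186_433 : S (PX [] [340,402,433]) := VW.play 371 (PX [371] [340,402,433]) (by decide +kernel) v0_171

theorem w0_186_464 : S (PX [] [340,402,464]) := VW.play 433 (PX [433] [340,402,464]) (by decide +kernel) v0_185

theorem v0_186 : VW (PX [] [340,402]) := VW.of base nl_ok fl_ok .nil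
  []
  [([278], (PX [] [278,340,402])), ([309], (PX [] [309,340,402])), ([371], (PX [] [340,371,402])), ([433], (PX [] [340,402,433])), ([464], (PX [] [340,402,464]))]
  (by decide +kernel) ⟨w0_186_278, w0_186_309, w0_186_371, w0_186_433, w0_186_464, trivial⟩

theorem v0_187 : VW (PX [336,501] [369,402,435,468]) := VW.of base nl_ok fl_ok .nil
  []
  []
  (by decide +kernel) trivial

theorem v0_188 : VW (PX [336,468] [369,402,435,501]) := VW.of base nl_ok fl_ok .nil
  []
  []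
  (by decide +kernel) trivial

theorem w0_189_468 : S (PX [336] [369,402,435,468]) := VW.play 501 (PX [336,501] [369,402,435,468]) (by decide +kernel) v0_187

theorem w0_189_501 : S (PX [336] [369,402,435,501]) := VW.play 468 (PX [336,468] [369,402,435,501]) (by decide +kernel) v0_188

theorem v0_189 : VW (PX [336] [369,402,435]) := VW.of base nl_ok fl_ok (.cons 468 501 .nil (.cons 501 468 .nil .nil))
  [(534, (.cons 468 501 .nil (.cons 501 468 .nil .nil))), (567, (.cons 468 501 .nil (.cons 501 468 .nil .nil))), (600, (.cons 468 501 .nil (.cons 501 468 .nil .nil)))]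
  [([468], (PX [336] [369,402,435,468])), ([501], (PX [336] [369,402,435,501]))]
  (by decide +kernel) ⟨w0_189_468, w0_189_501, trivial⟩

theorem v0_190 : VW (PX [336,435] [369,402,468,501]) := VW.of base nl_ok fl_ok .nil
  [(534, (.cons 567 600 .nil (.cons 600 567 .nil .nil))), (567, (.cons 534 600 .nil (.cons 600 534 .nil .nil))), (600, (.cons 534 567 .nil (.cons 567 534 .nil .nil)))]
  []
  (by decide +kernel) trivial

theorem w0_191_435 : S (PX [336] [369,402,435,468]) := VW.play 501 (PX [336,501] [369,402,435,468]) (by decide +kernel) v0_187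

theorem w0_191_501 : S (PX [336] [369,402,468,501]) := VW.play 435 (PX [336,435] [369,402,468,501]) (by decide +kernel) v0_190

theorem v0_191 : VW (PX [336] [369,402,468]) := VW.of base nl_ok fl_ok (.cons 435 501 .nil (.cons 501 435 .nil .nil))
  [(534, (.cons 435 501 .nil (.cons 501 435 (.cons 567 600 .nil (.cons 600 567 .nil .nil)) .nil))), (567, (.cons 435 501 .nil (.cons 501 435 (.cons 534 600 .nil (.cons 600 534 .nil .nil)) .nil))), (600, (.cons 435 501 .nil (.cons 501 435 (.cons 534 567 .nil (.cons 567 534 .nil .nil)) .nil)))]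
  [([435], (PX [336] [369,402,435,468])), ([501], (PX [336] [369,402,468,501]))]
  (by decide +kernel) ⟨w0_191_435, w0_191_501, trivial⟩

theorem v0_197 : VW (PX [336,435] [270,369,402,501]) := VW.of base nl_ok fl_ok .nil
  []
  [([330], (PX [336,435] [270,330,369,402,501]))]
  (by decide +kernel) ⟨b0_516, trivial⟩

theorem v0_198 : VW (PX [270,435] [303,369,402,501]) := VW.of base nl_ok fl_ok .nil
  []
  []
  (by decide +kernel) trivial

theorem v0_200 : VW (PX [270,435] [336,369,402,501]) := VW.of base nl_ok fl_ok .nil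
  []
  []
  (by decide +kernel) trivial

theorem w0_202_270 : S (PX [435] [270,369,402,501]) := VW.play 336 (PX [336,435] [270,369,402,501]) (by decide +kernel) v0_197

theorem w0_202_303 : S (PX [435] [303,369,402,501]) := VW.play 270 (PX [270,435] [303,369,402,501]) (by decide +kernel) v0_198

theorem w0_202_336 : S (PX [435] [336,369,402,501]) := VW.play 270 (PX [270,435] [336,369,402,501]) (by decide +kernel) v0_200

theorem v0_202 : VW (PX [435] [369,402,501]) := VW.of base nl_ok fl_ok .nil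
  []
  [([270], (PX [435] [270,369,402,501])), ([303], (PX [435] [303,369,402,501])), ([336], (PX [435] [336,369,402,501]))]
  (by decide +kernel) ⟨w0_202_270, w0_202_303, w0_202_336, trivial⟩

theorem w0_210_270 : S (PX [] [270,369,402]) := VW.play 336 (PX [336] [270,369,402]) (by decide +kernel) v0_31

theorem w0_210_303 : S (PX [] [303,369,402]) := VW.play 336 (PX [336] [303,369,402]) (by decide +kernel) v0_66

theorem w0_210_336 : S (PX [] [336,369,402]) := VW.play 303 (PX [303] [336,369,402]) (by decide +kernel) v0_123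

theorem w0_210_435 : S (PX [] [369,402,435]) := VW.play 336 (PX [336] [369,402,435]) (by decide +kernel) v0_189

theorem w0_210_468 : S (PX [] [369,402,468]) := VW.play 336 (PX [336] [369,402,468]) (by decide +kernel) v0_191

theorem w0_210_501 : S (PX [] [369,402,501]) := VW.play 435 (PX [435] [369,402,501]) (by decide +kernel) v0_202

theorem v0_210 : VW (PX [] [369,402]) := VW.of base nl_ok fl_ok .nil
  []
  [([270], (PX [] [270,369,402])), ([303], (PX [] [303,369,402])), ([336], (PX [] [336,369,402])), ([435], (PX [] [369,402,435])), ([468], (PX [] [369,402,468])), ([501], (PX [] [369,402,501]))]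
  (by decide +kernel) ⟨w0_210_270, w0_210_303, w0_210_336, w0_210_435, w0_210_468, w0_210_501, trivial⟩

theorem v0_211 : VW (PX [338,498] [370,402,434,466]) := VW.of base nl_ok fl_ok .nil
  []
  []
  (by decide +kernel) trivial

theorem v0_212 : VW (PX [338,466] [370,402,434,498]) := VW.of base nl_ok fl_ok .nil
  []
  []
  (by decide +kernel) trivial

theorem w0_213_466 : S (PX [338] [370,402,434,466]) := VW.play 498 (PX [338,498] [370,402,434,466]) (by decide +kernel) v0_211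

theorem w0_213_498 : S (PX [338] [370,402,434,498]) := VW.play 466 (PX [338,466] [370,402,434,498]) (by decide +kernel) v0_212

theorem v0_213 : VW (PX [338] [370,402,434]) := VW.of base nl_ok fl_ok (.cons 466 498 .nil (.cons 498 466 .nil .nil))
  [(530, (.cons 466 498 .nil (.cons 498 466 .nil .nil))), (562, (.cons 466 498 .nil (.cons 498 466 .nil .nil))), (594, (.cons 466 498 .nil (.cons 498 466 .nil .nil)))]
  [([466], (PX [338] [370,402,434,466])), ([498], (PX [338] [370,402,434,498]))]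
  (by decide +kernel) ⟨w0_213_466, w0_213_498, trivial⟩

theorem v0_218 : VW (PX [434] [370,402,466]) := VW.of base nl_ok fl_ok .nil
  [(274, (.cons 306 338 .nil (.cons 338 306 .nil .nil))), (306, (.cons 274 338 .nil (.cons 338 274 .nil .nil))), (338, (.cons 274 306 .nil (.cons 306 274 .nil .nil)))]
  []
  (by decide +kernel) trivial

theorem w0_230_306 : S (PX [] [306,370,402]) := VW.play 338 (PX [338] [306,370,402]) (by decide +kernel) v0_95

theorem w0_230_338 : S (PX [] [338,370,402]) := VW.play 306 (PX [306] [338,370,402]) (by decide +kernel) v0_144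

theorem w0_230_434 : S (PX [] [370,402,434]) := VW.play 338 (PX [338] [370,402,434]) (by decide +kernel) v0_213

theorem w0_230_466 : S (PX [] [370,402,466]) := VW.play 434 (PX [434] [370,402,466]) (by decide +kernel) v0_218

theorem v0_230 : VW (PX [] [370,402]) := VW.of base nl_ok fl_ok .nil
  [(274, (.cons 306 338 .nil (.cons 338 306 (.cons 434 466 .nil (.cons 466 434 .nil .nil)) .nil))), (498, (.cons 434 466 (.cons 306 338 .nil (.cons 338 306 .nil .nil)) (.cons 466 434 .nil .nil)))]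
  [([306], (PX [] [306,370,402])), ([338], (PX [] [338,370,402])), ([434], (PX [] [370,402,434])), ([466], (PX [] [370,402,466]))]
  (by decide +kernel) ⟨w0_230_306, w0_230_338, w0_230_434, w0_230_466, trivial⟩

theorem v0_107 : VW (PX [340,433] [278,309,371,402]) := VW.of base nl_ok fl_ok .nil
  [(185, (.cons 216 247 .nil (.cons 247 216 .nil .nil))), (216, (.cons 185 247 .nil (.cons 247 185 .nil .nil))), (247, (.cons 185 216 .nil (.cons 216 185 .nil .nil)))]
  []
  (by decide +kernel) trivial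

theorem w0_109_278 : S (PX [433] [278,309,371,402]) := VW.play 340 (PX [340,433] [278,309,371,402]) (by decide +kernel) v0_107

theorem w0_109_340 : S (PX [433] [309,340,371,402]) := VW.play 278 (PX [278,433] [309,340,371,402]) (by decide +kernel) v0_108

theorem v0_109 : VW (PX [433] [309,371,402]) := VW.of base nl_ok fl_ok (.cons 278 340 .nil (.cons 340 278 .nil .nil))
  [(185, (.cons 278 340 (.cons 216 247 .nil (.cons 247 216 .nil .nil)) (.cons 340 278 .nil .nil))), (216, (.cons 278 340 (.cons 185 247 .nil (.cons 247 185 .nil .nil)) (.cons 340 278 .nil .nil))), (247, (.cons 278 340 (.cons 185 216 .nil (.cons 216 185 .nil .nil)) (.cons 340 278 .nil .nil)))]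
  [([278], (PX [433] [278,309,371,402])), ([340], (PX [433] [309,340,371,402]))]
  (by decide +kernel) ⟨w0_109_278, w0_109_340, trivial⟩

theorem v0_231 : VW (PX [340,464] [309,371,402,433]) := VW.of base nl_ok fl_ok .nil
  []
  []
  (by decide +kernel) trivial

theorem v0_173 : VW (PX [309,464] [340,371,402,433]) := VW.of base nl_ok fl_ok .nil
  []
  []
  (by decide +kernel) trivial

theorem w0_232_309 : S (PX [464] [309,371,402,433]) := VW.play 340 (PX [340,464] [309,371,402,433]) (by decide +kernel) v0_231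

theorem w0_232_340 : S (PX [464] [340,371,402,433]) := VW.play 309 (PX [309,464] [340,371,402,433]) (by decide +kernel) v0_173

theorem v0_232 : VW (PX [464] [371,402,433]) := VW.of base nl_ok fl_ok (.cons 309 340 .nil (.cons 340 309 .nil .nil))
  [(216, (.cons 309 340 .nil (.cons 340 309 .nil .nil))), (247, (.cons 309 340 .nil (.cons 340 309 .nil .nil))), (278, (.cons 309 340 .nil (.cons 340 309 .nil .nil)))]
  [([309], (PX [464] [309,371,402,433])), ([340], (PX [464] [340,371,402,433]))]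
  (by decide +kernel) ⟨w0_232_309, w0_232_340, trivial⟩

theorem v0_233 : VW (PX [433] [371,402,464]) := VW.of base nl_ok fl_ok .nil
  [(278, (.cons 309 340 .nil (.cons 340 309 .nil .nil))), (309, (.cons 278 340 .nil (.cons 340 278 .nil .nil))), (340, (.cons 278 309 .nil (.cons 309 278 .nil .nil)))]
  []
  (by decide +kernel) trivial

theorem v0_234 : VW (PX [433] [371,402,495]) := VW.of base nl_ok fl_ok .nil
  [(278, (.cons 309 340 .nil (.cons 340 309 .nil .nil))), (309, (.cons 278 340 .nil (.cons 340 278 .nil .nil))), (340, (.cons 278 309 .nil (.cons 309 278 .nil .nil)))]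
  []
  (by decide +kernel) trivial

theorem w0_242_278 : S (PX [] [278,371,402]) := VW.play 340 (PX [340] [278,371,402]) (by decide +kernel) v0_59

theorem w0_242_309 : S (PX [] [309,371,402]) := VW.play 433 (PX [433] [309,371,402]) (by decide +kernel) v0_109

theorem w0_242_340 : S (PX [] [340,371,402]) := VW.play 433 (PX [433] [340,371,402]) (by decide +kernel) v0_166

theorem w0_242_433 : S (PX [] [371,402,433]) := VW.play 464 (PX [464] [371,402,433]) (by decide +kernel) v0_232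

theorem w0_242_464 : S (PX [] [371,402,464]) := VW.play 433 (PX [433] [371,402,464]) (by decide +kernel) v0_233

theorem w0_242_495 : S (PX [] [371,402,495]) := VW.play 433 (PX [433] [371,402,495]) (by decide +kernel) v0_234

theorem v0_242 : VW (PX [] [371,402]) := VW.of base nl_ok fl_ok .nil
  []
  [([278], (PX [] [278,371,402])), ([309], (PX [] [309,371,402])), ([340], (PX [] [340,371,402])), ([433], (PX [] [371,402,433])), ([464], (PX [] [371,402,464])), ([495], (PX [] [371,402,495]))]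
  (by decide +kernel) ⟨w0_242_278, w0_242_309, w0_242_340, w0_242_433, w0_242_464, w0_242_495, trivial⟩

theorem v0_250 : VW (PX [401] [398,400,402]) := VW.of base nl_ok fl_ok .nil
  []
  [([268], (PX [401] [268,398,400,402])), ([299], (PX [401] [299,398,400,402])), ([330], (PX [401] [330,398,400,402])), ([332], (PX [401] [332,398,400,402])), ([365], (PX [401] [365,398,400,402])), ([367], (PX [401] [367,398,400,402])), ([397], (PX [401] [397,398,400,402])), ([425], (PX [401] [398,400,402,425])), ([433], (PX [401] [398,400,402,433])), ([457], (PX [401] [398,400,402,457])), ([464], (PX [401] [398,400,402,464]))]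
  (by decide +kernel) ⟨b0_590, b0_591, b0_592, b0_593, b0_594, b0_595, b0_596, b0_597, b0_598, b0_599, b0_600, trivial⟩

theorem v0_256 : VW (PX [401] [399,400,402]) := VW.of base nl_ok fl_ok .nil
  []
  []
  (by decide +kernel) trivial

theorem v0_268 : VW (PX [399,404] [400,401,402,403]) := VW.of base nl_ok fl_ok .nil
  []
  []
  (by decide +kernel) trivial

theorem v0_269 : VW (PX [399,403] [400,401,402,404]) := VW.of base nl_ok fl_ok .nil
  []
  []
  (by decide +kernel) trivial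

theorem w0_270_403 : S (PX [399] [400,401,402,403]) := VW.play 404 (PX [399,404] [400,401,402,403]) (by decide +kernel) v0_268

theorem w0_270_404 : S (PX [399] [400,401,402,404]) := VW.play 403 (PX [399,403] [400,401,402,404]) (by decide +kernel) v0_269

theorem v0_270 : VW (PX [399] [400,401,402]) := VW.of base nl_ok fl_ok (.cons 403 404 .nil (.cons 404 403 .nil .nil))
  [(405, (.cons 403 404 .nil (.cons 404 403 .nil .nil))), (406, (.cons 403 404 .nil (.cons 404 403 .nil .nil))), (407, (.cons 403 404 .nil (.cons 404 403 .nil .nil)))]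
  [([403], (PX [399] [400,401,402,403])), ([404], (PX [399] [400,401,402,404]))]
  (by decide +kernel) ⟨w0_270_403, w0_270_404, trivial⟩

theorem v0_271 : VW (PX [401] [400,402,403]) := VW.of base nl_ok fl_ok .nil
  [(404, (.cons 405 406 .nil (.cons 406 405 .nil .nil))), (405, (.cons 404 406 .nil (.cons 406 404 .nil .nil))), (406, (.cons 404 405 .nil (.cons 405 404 .nil .nil)))]
  []
  (by decide +kernel) trivial

theorem v0_272 : VW (PX [401] [400,402,404]) := VW.of base nl_ok fl_ok .nil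
  [(403, (.cons 405 406 .nil (.cons 406 405 .nil .nil))), (405, (.cons 403 406 .nil (.cons 406 403 (.cons 407 408 .nil (.cons 408 407 .nil .nil)) .nil))), (406, (.cons 403 405 .nil (.cons 405 403 (.cons 407 408 .nil (.cons 408 407 .nil .nil)) .nil)))]
  []
  (by decide +kernel) trivial

theorem w0_279_398 : S (PX [] [398,400,402]) := VW.play 401 (PX [401] [398,400,402]) (by decide +kernel) v0_250

theorem w0_279_399 : S (PX [] [399,400,402]) := VW.play 401 (PX [401] [399,400,402]) (by decide +kernel) v0_256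

theorem w0_279_401 : S (PX [] [400,401,402]) := VW.play 399 (PX [399] [400,401,402]) (by decide +kernel) v0_270

theorem w0_279_403 : S (PX [] [400,402,403]) := VW.play 401 (PX [401] [400,402,403]) (by decide +kernel) v0_271

theorem w0_279_404 : S (PX [] [400,402,404]) := VW.play 401 (PX [401] [400,402,404]) (by decide +kernel) v0_272

theorem v0_279 : VW (PX [] [400,402]) := VW.of base nl_ok fl_ok .nil
  []
  [([330], (PX [] [330,400,402])), ([398], (PX [] [398,400,402])), ([399], (PX [] [399,400,402])), ([401], (PX [] [400,401,402])), ([403], (PX [] [400,402,403])), ([404], (PX [] [400,402,404]))]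
  (by decide +kernel) ⟨b0_628, w0_279_398, w0_279_399, w0_279_401, w0_279_403, w0_279_404, trivial⟩

theorem v0_254 : VW (PX [400] [398,401,402]) := VW.of base nl_ok fl_ok .nil
  [(403, (.cons 404 405 .nil (.cons 405 404 .nil .nil))), (404, (.cons 403 405 .nil (.cons 405 403 .nil .nil))), (405, (.cons 403 404 .nil (.cons 404 403 .nil .nil)))]
  [([299], (PX [400] [299,398,401,402])), ([332], (PX [400] [332,398,401,402])), ([365], (PX [400] [365,398,401,402])), ([425], (PX [400] [398,401,402,425])), ([457], (PX [400] [398,401,402,457])), ([464], (PX [400] [398,401,402,464]))]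
  (by decide +kernel) ⟨b0_619, b0_620, b0_621, b0_622, b0_623, b0_624, trivial⟩

theorem v0_257 : VW (PX [400] [399,401,402]) := VW.of base nl_ok fl_ok .nil
  [(403, (.cons 404 405 .nil (.cons 405 404 .nil .nil))), (404, (.cons 403 405 .nil (.cons 405 403 .nil .nil))), (405, (.cons 403 404 .nil (.cons 404 403 .nil .nil)))]
  []
  (by decide +kernel) trivial

theorem v0_280 : VW (PX [400,405] [401,402,403,404]) := VW.of base nl_ok fl_ok .nil
  []
  []
  (by decide +kernel) trivial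

theorem v0_281 : VW (PX [400,404] [401,402,403,405]) := VW.of base nl_ok fl_ok .nil
  []
  []
  (by decide +kernel) trivial

theorem w0_282_404 : S (PX [400] [401,402,403,404]) := VW.play 405 (PX [400,405] [401,402,403,404]) (by decide +kernel) v0_280

theorem w0_282_405 : S (PX [400] [401,402,403,405]) := VW.play 404 (PX [400,404] [401,402,403,405]) (by decide +kernel) v0_281

theorem v0_282 : VW (PX [400] [401,402,403]) := VW.of base nl_ok fl_ok (.cons 404 405 .nil (.cons 405 404 .nil .nil))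
  [(406, (.cons 404 405 .nil (.cons 405 404 .nil .nil))), (407, (.cons 404 405 .nil (.cons 405 404 .nil .nil))), (408, (.cons 404 405 .nil (.cons 405 404 .nil .nil)))]
  [([404], (PX [400] [401,402,403,404])), ([405], (PX [400] [401,402,403,405]))]
  (by decide +kernel) ⟨w0_282_404, w0_282_405, trivial⟩

theorem v0_283 : VW (PX [400,403] [401,402,404,405]) := VW.of base nl_ok fl_ok .nil
  [(406, (.cons 407 408 .nil (.cons 408 407 .nil .nil))), (407, (.cons 406 408 .nil (.cons 408 406 .nil .nil))), (408, (.cons 406 407 .nil (.cons 407 406 .nil .nil)))]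
  []
  (by decide +kernel) trivial

theorem w0_284_403 : S (PX [400] [401,402,403,404]) := VW.play 405 (PX [400,405] [401,402,403,404]) (by decide +kernel) v0_280

theorem w0_284_405 : S (PX [400] [401,402,404,405]) := VW.play 403 (PX [400,403] [401,402,404,405]) (by decide +kernel) v0_283

theorem v0_284 : VW (PX [400] [401,402,404]) := VW.of base nl_ok fl_ok (.cons 403 405 .nil (.cons 405 403 .nil .nil))
  [(406, (.cons 403 405 .nil (.cons 405 403 (.cons 407 408 .nil (.cons 408 407 .nil .nil)) .nil))), (407, (.cons 403 405 .nil (.cons 405 403 (.cons 406 408 .nil (.cons 408 406 .nil .nil)) .nil))), (408, (.cons 403 405 .nil (.cons 405 403 (.cons 406 407 .nil (.cons 407 406 .nil .nil)) .nil)))]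
  [([403], (PX [400] [401,402,403,404])), ([405], (PX [400] [401,402,404,405]))]
  (by decide +kernel) ⟨w0_284_403, w0_284_405, trivial⟩

theorem v0_289 : VW (PX [399,403] [398,401,402,405]) := VW.of base nl_ok fl_ok .nil
  []
  [([299], (PX [399,403] [299,398,401,402,405])), ([332], (PX [399,403] [332,398,401,402,405])), ([365], (PX [399,403] [365,398,401,402,405])), ([425], (PX [399,403] [398,401,402,405,425])), ([457], (PX [399,403] [398,401,402,405,457])), ([464], (PX [399,403] [398,401,402,405,464]))]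
  (by decide +kernel) ⟨b0_647, b0_648, b0_649, b0_650, b0_651, b0_652, trivial⟩

theorem v0_291 : VW (PX [398,403] [399,401,402,405]) := VW.of base nl_ok fl_ok .nil
  []
  []
  (by decide +kernel) trivial

theorem v0_293 : VW (PX [398,403] [400,401,402,405]) := VW.of base nl_ok fl_ok .nil
  []
  []
  (by decide +kernel) trivial

theorem w0_295_398 : S (PX [403] [398,401,402,405]) := VW.play 399 (PX [399,403] [398,401,402,405]) (by decide +kernel) v0_289

theorem w0_295_399 : S (PX [403] [399,401,402,405]) := VW.play 398 (PX [398,403] [399,401,402,405]) (by decide +kernel) v0_291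

theorem w0_295_400 : S (PX [403] [400,401,402,405]) := VW.play 398 (PX [398,403] [400,401,402,405]) (by decide +kernel) v0_293

theorem v0_295 : VW (PX [403] [401,402,405]) := VW.of base nl_ok fl_ok .nil
  []
  [([398], (PX [403] [398,401,402,405])), ([399], (PX [403] [399,401,402,405])), ([400], (PX [403] [400,401,402,405]))]
  (by decide +kernel) ⟨w0_295_398, w0_295_399, w0_295_400, trivial⟩

theorem w0_303_398 : S (PX [] [398,401,402]) := VW.play 400 (PX [400] [398,401,402]) (by decide +kernel) v0_254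

theorem w0_303_399 : S (PX [] [399,401,402]) := VW.play 400 (PX [400] [399,401,402]) (by decide +kernel) v0_257

theorem w0_303_400 : S (PX [] [400,401,402]) := VW.play 399 (PX [399] [400,401,402]) (by decide +kernel) v0_270

theorem w0_303_403 : S (PX [] [401,402,403]) := VW.play 400 (PX [400] [401,402,403]) (by decide +kernel) v0_282

theorem w0_303_404 : S (PX [] [401,402,404]) := VW.play 400 (PX [400] [401,402,404]) (by decide +kernel) v0_284

theorem w0_303_405 : S (PX [] [401,402,405]) := VW.play 403 (PX [403] [401,402,405]) (by decide +kernel) v0_295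

theorem v0_303 : VW (PX [] [401,402]) := VW.of base nl_ok fl_ok .nil
  []
  [([398], (PX [] [398,401,402])), ([399], (PX [] [399,401,402])), ([400], (PX [] [400,401,402])), ([403], (PX [] [401,402,403])), ([404], (PX [] [401,402,404])), ([405], (PX [] [401,402,405]))]
  (by decide +kernel) ⟨w0_303_398, w0_303_399, w0_303_400, w0_303_403, w0_303_404, w0_303_405, trivial⟩

theorem v0_266 : VW (PX [401] [399,402,403]) := VW.of base nl_ok fl_ok .nil
  [(404, (.cons 405 406 .nil (.cons 406 405 .nil .nil))), (405, (.cons 404 406 .nil (.cons 406 404 .nil .nil))), (406, (.cons 404 405 .nil (.cons 405 404 .nil .nil)))]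
  []
  (by decide +kernel) trivial

theorem v0_304 : VW (PX [401,406] [402,403,404,405]) := VW.of base nl_ok fl_ok .nil
  []
  []
  (by decide +kernel) trivial

theorem v0_305 : VW (PX [401,405] [402,403,404,406]) := VW.of base nl_ok fl_ok .nil
  []
  []
  (by decide +kernel) trivial

theorem w0_306_405 : S (PX [401] [402,403,404,405]) := VW.play 406 (PX [401,406] [402,403,404,405]) (by decide +kernel) v0_304

theorem w0_306_406 : S (PX [401] [402,403,404,406]) := VW.play 405 (PX [401,405] [402,403,404,406]) (by decide +kernel) v0_305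

theorem v0_306 : VW (PX [401] [402,403,404]) := VW.of base nl_ok fl_ok (.cons 405 406 .nil (.cons 406 405 .nil .nil))
  [(407, (.cons 405 406 .nil (.cons 406 405 .nil .nil))), (408, (.cons 405 406 .nil (.cons 406 405 .nil .nil))), (409, (.cons 405 406 .nil (.cons 406 405 .nil .nil)))]
  [([405], (PX [401] [402,403,404,405])), ([406], (PX [401] [402,403,404,406]))]
  (by decide +kernel) ⟨w0_306_405, w0_306_406, trivial⟩

theorem v0_307 : VW (PX [401,404] [402,403,405,406]) := VW.of base nl_ok fl_ok .nil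
  [(407, (.cons 408 409 .nil (.cons 409 408 .nil .nil))), (408, (.cons 407 409 .nil (.cons 409 407 .nil .nil))), (409, (.cons 407 408 .nil (.cons 408 407 .nil .nil)))]
  []
  (by decide +kernel) trivial

theorem w0_308_404 : S (PX [401] [402,403,404,405]) := VW.play 406 (PX [401,406] [402,403,404,405]) (by decide +kernel) v0_304

theorem w0_308_406 : S (PX [401] [402,403,405,406]) := VW.play 404 (PX [401,404] [402,403,405,406]) (by decide +kernel) v0_307

theorem v0_308 : VW (PX [401] [402,403,405]) := VW.of base nl_ok fl_ok (.cons 404 406 .nil (.cons 406 404 .nil .nil))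
  [(407, (.cons 404 406 .nil (.cons 406 404 (.cons 408 409 .nil (.cons 409 408 .nil .nil)) .nil))), (408, (.cons 404 406 .nil (.cons 406 404 (.cons 407 409 .nil (.cons 409 407 .nil .nil)) .nil))), (409, (.cons 404 406 .nil (.cons 406 404 (.cons 407 408 .nil (.cons 408 407 .nil .nil)) .nil)))]
  [([404], (PX [401] [402,403,404,405])), ([406], (PX [401] [402,403,405,406]))]
  (by decide +kernel) ⟨w0_308_404, w0_308_406, trivial⟩

theorem v0_313 : VW (PX [400,404] [399,402,403,406]) := VW.of base nl_ok fl_ok .nil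
  []
  []
  (by decide +kernel) trivial

theorem v0_315 : VW (PX [399,404] [400,402,403,406]) := VW.of base nl_ok fl_ok .nil
  []
  []
  (by decide +kernel) trivial

theorem v0_317 : VW (PX [399,404] [401,402,403,406]) := VW.of base nl_ok fl_ok .nil
  []
  []
  (by decide +kernel) trivial

theorem w0_319_399 : S (PX [404] [399,402,403,406]) := VW.play 400 (PX [400,404] [399,402,403,406]) (by decide +kernel) v0_313

theorem w0_319_400 : S (PX [404] [400,402,403,406]) := VW.play 399 (PX [399,404] [400,402,403,406]) (by decide +kernel) v0_315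

theorem w0_319_401 : S (PX [404] [401,402,403,406]) := VW.play 399 (PX [399,404] [401,402,403,406]) (by decide +kernel) v0_317

theorem v0_319 : VW (PX [404] [402,403,406]) := VW.of base nl_ok fl_ok .nil
  []
  [([399], (PX [404] [399,402,403,406])), ([400], (PX [404] [400,402,403,406])), ([401], (PX [404] [401,402,403,406]))]
  (by decide +kernel) ⟨w0_319_399, w0_319_400, w0_319_401, trivial⟩

theorem w0_327_399 : S (PX [] [399,402,403]) := VW.play 401 (PX [401] [399,402,403]) (by decide +kernel) v0_266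

theorem w0_327_400 : S (PX [] [400,402,403]) := VW.play 401 (PX [401] [400,402,403]) (by decide +kernel) v0_271

theorem w0_327_401 : S (PX [] [401,402,403]) := VW.play 400 (PX [400] [401,402,403]) (by decide +kernel) v0_282

theorem w0_327_404 : S (PX [] [402,403,404]) := VW.play 401 (PX [401] [402,403,404]) (by decide +kernel) v0_306

theorem w0_327_405 : S (PX [] [402,403,405]) := VW.play 401 (PX [401] [402,403,405]) (by decide +kernel) v0_308

theorem w0_327_406 : S (PX [] [402,403,406]) := VW.play 404 (PX [404] [402,403,406]) (by decide +kernel) v0_319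

theorem v0_327 : VW (PX [] [402,403]) := VW.of base nl_ok fl_ok .nil
  []
  [([399], (PX [] [399,402,403])), ([400], (PX [] [400,402,403])), ([401], (PX [] [401,402,403])), ([404], (PX [] [402,403,404])), ([405], (PX [] [402,403,405])), ([406], (PX [] [402,403,406]))]
  (by decide +kernel) ⟨w0_327_399, w0_327_400, w0_327_401, w0_327_404, w0_327_405, w0_327_406, trivial⟩

theorem v0_342 : VW (PX [403] [402,404,405]) := VW.of base nl_ok fl_ok .nil
  [(406, (.cons 407 408 .nil (.cons 408 407 .nil .nil))), (407, (.cons 406 408 .nil (.cons 408 406 .nil .nil))), (408, (.cons 406 407 .nil (.cons 407 406 .nil .nil)))]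
  []
  (by decide +kernel) trivial

theorem v0_343 : VW (PX [403] [402,404,406]) := VW.of base nl_ok fl_ok .nil
  [(405, (.cons 407 408 .nil (.cons 408 407 .nil .nil))), (407, (.cons 405 408 .nil (.cons 408 405 (.cons 409 410 .nil (.cons 410 409 .nil .nil)) .nil))), (408, (.cons 405 407 .nil (.cons 407 405 (.cons 409 410 .nil (.cons 410 409 .nil .nil)) .nil)))]
  []
  (by decide +kernel) trivial

theorem w0_359_400 : S (PX [] [400,402,404]) := VW.play 401 (PX [401] [400,402,404]) (by decide +kernel) v0_272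

theorem w0_359_401 : S (PX [] [401,402,404]) := VW.play 400 (PX [400] [401,402,404]) (by decide +kernel) v0_284

theorem w0_359_403 : S (PX [] [402,403,404]) := VW.play 401 (PX [401] [402,403,404]) (by decide +kernel) v0_306

theorem w0_359_405 : S (PX [] [402,404,405]) := VW.play 403 (PX [403] [402,404,405]) (by decide +kernel) v0_342

theorem w0_359_406 : S (PX [] [402,404,406]) := VW.play 403 (PX [403] [402,404,406]) (by decide +kernel) v0_343

theorem v0_359 : VW (PX [] [402,404]) := VW.of base nl_ok fl_ok .nil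
  []
  [([400], (PX [] [400,402,404])), ([401], (PX [] [401,402,404])), ([403], (PX [] [402,403,404])), ([405], (PX [] [402,404,405])), ([406], (PX [] [402,404,406]))]
  (by decide +kernel) ⟨w0_359_400, w0_359_401, w0_359_403, w0_359_405, w0_359_406, trivial⟩

theorem w0_361_403 : S (PX [] [402,403,406]) := VW.play 404 (PX [404] [402,403,406]) (by decide +kernel) v0_319

theorem w0_361_404 : S (PX [] [402,404,406]) := VW.play 403 (PX [403] [402,404,406]) (by decide +kernel) v0_343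

theorem v0_361 : VW (PX [] [402,406]) := VW.of base nl_ok fl_ok .nil
  [(405, (.cons 403 404 .nil (.cons 404 403 (.cons 407 408 .nil (.cons 408 407 .nil .nil)) .nil)))]
  [([403], (PX [] [402,403,406])), ([404], (PX [] [402,404,406]))]
  (by decide +kernel) ⟨w0_361_403, w0_361_404, trivial⟩

theorem v0_115 : VW (PX [371,464] [309,402,433,495]) := VW.of base nl_ok fl_ok .nil
  []
  []
  (by decide +kernel) trivial

theorem v0_117 : VW (PX [371,464] [309,402,433,526]) := VW.of base nl_ok fl_ok .nil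
  []
  []
  (by decide +kernel) trivial

theorem w0_119_495 : S (PX [371] [309,402,433,495]) := VW.play 464 (PX [371,464] [309,402,433,495]) (by decide +kernel) v0_115

theorem w0_119_526 : S (PX [371] [309,402,433,526]) := VW.play 464 (PX [371,464] [309,402,433,526]) (by decide +kernel) v0_117

theorem v0_119 : VW (PX [371] [309,402,433]) := VW.of base nl_ok fl_ok .nil
  [(464, (.cons 495 526 .nil (.cons 526 495 .nil .nil)))]
  [([495], (PX [371] [309,402,433,495])), ([526], (PX [371] [309,402,433,526]))]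
  (by decide +kernel) ⟨w0_119_495, w0_119_526, trivial⟩

theorem v0_362 : VW (PX [371,495] [340,402,433,464]) := VW.of base nl_ok fl_ok .nil
  []
  []
  (by decide +kernel) trivial

theorem v0_363 : VW (PX [340,495] [371,402,433,464]) := VW.of base nl_ok fl_ok .nil
  []
  []
  (by decide +kernel) trivial

theorem w0_364_340 : S (PX [495] [340,402,433,464]) := VW.play 371 (PX [371,495] [340,402,433,464]) (by decide +kernel) v0_362

theorem w0_364_371 : S (PX [495] [371,402,433,464]) := VW.play 340 (PX [340,495] [371,402,433,464]) (by decide +kernel) v0_363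

theorem v0_364 : VW (PX [495] [402,433,464]) := VW.of base nl_ok fl_ok (.cons 340 371 .nil (.cons 371 340 .nil .nil))
  [(247, (.cons 340 371 .nil (.cons 371 340 .nil .nil))), (278, (.cons 340 371 .nil (.cons 371 340 .nil .nil))), (309, (.cons 340 371 .nil (.cons 371 340 .nil .nil)))]
  [([340], (PX [495] [340,402,433,464])), ([371], (PX [495] [371,402,433,464]))]
  (by decide +kernel) ⟨w0_364_340, w0_364_371, trivial⟩

theorem v0_365 : VW (PX [464] [402,433,495]) := VW.of base nl_ok fl_ok .nil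
  [(309, (.cons 340 371 .nil (.cons 371 340 .nil .nil))), (340, (.cons 309 371 .nil (.cons 371 309 .nil .nil))), (371, (.cons 309 340 .nil (.cons 340 309 .nil .nil)))]
  []
  (by decide +kernel) trivial

theorem v0_366 : VW (PX [464] [402,433,526]) := VW.of base nl_ok fl_ok .nil
  [(309, (.cons 340 371 .nil (.cons 371 340 .nil .nil))), (340, (.cons 309 371 .nil (.cons 371 309 .nil .nil))), (371, (.cons 309 340 .nil (.cons 340 309 .nil .nil)))]
  []
  (by decide +kernel) trivial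

theorem w0_374_309 : S (PX [] [309,402,433]) := VW.play 371 (PX [371] [309,402,433]) (by decide +kernel) v0_119

theorem w0_374_340 : S (PX [] [340,402,433]) := VW.play 371 (PX [371] [340,402,433]) (by decide +kernel) v0_171

theorem w0_374_371 : S (PX [] [371,402,433]) := VW.play 464 (PX [464] [371,402,433]) (by decide +kernel) v0_232

theorem w0_374_464 : S (PX [] [402,433,464]) := VW.play 495 (PX [495] [402,433,464]) (by decide +kernel) v0_364

theorem w0_374_495 : S (PX [] [402,433,495]) := VW.play 464 (PX [464] [402,433,495]) (by decide +kernel) v0_365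

theorem w0_374_526 : S (PX [] [402,433,526]) := VW.play 464 (PX [464] [402,433,526]) (by decide +kernel) v0_366

theorem v0_374 : VW (PX [] [402,433]) := VW.of base nl_ok fl_ok .nil
  []
  [([309], (PX [] [309,402,433])), ([340], (PX [] [340,402,433])), ([371], (PX [] [371,402,433])), ([464], (PX [] [402,433,464])), ([495], (PX [] [402,433,495])), ([526], (PX [] [402,433,526]))]
  (by decide +kernel) ⟨w0_374_309, w0_374_340, w0_374_371, w0_374_464, w0_374_495, w0_374_526, trivial⟩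

theorem v0_375 : VW (PX [370,530] [402,434,466,498]) := VW.of base nl_ok fl_ok .nil
  []
  []
  (by decide +kernel) trivial

theorem v0_376 : VW (PX [370,498] [402,434,466,530]) := VW.of base nl_ok fl_ok .nil
  []
  []
  (by decide +kernel) trivial

theorem w0_377_498 : S (PX [370] [402,434,466,498]) := VW.play 530 (PX [370,530] [402,434,466,498]) (by decide +kernel) v0_375

theorem w0_377_530 : S (PX [370] [402,434,466,530]) := VW.play 498 (PX [370,498] [402,434,466,530]) (by decide +kernel) v0_376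

theorem v0_377 : VW (PX [370] [402,434,466]) := VW.of base nl_ok fl_ok (.cons 498 530 .nil (.cons 530 498 .nil .nil))
  [(562, (.cons 498 530 .nil (.cons 530 498 .nil .nil))), (594, (.cons 498 530 .nil (.cons 530 498 .nil .nil))), (626, (.cons 498 530 .nil (.cons 530 498 .nil .nil)))]
  [([498], (PX [370] [402,434,466,498])), ([530], (PX [370] [402,434,466,530]))]
  (by decide +kernel) ⟨w0_377_498, w0_377_530, trivial⟩

theorem v0_382 : VW (PX [466] [402,434,498]) := VW.of base nl_ok fl_ok .nil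
  [(306, (.cons 338 370 .nil (.cons 370 338 .nil .nil))), (338, (.cons 306 370 .nil (.cons 370 306 .nil .nil))), (370, (.cons 306 338 .nil (.cons 338 306 .nil .nil)))]
  []
  (by decide +kernel) trivial

theorem w0_394_338 : S (PX [] [338,402,434]) := VW.play 370 (PX [370] [338,402,434]) (by decide +kernel) v0_161

theorem w0_394_370 : S (PX [] [370,402,434]) := VW.play 338 (PX [338] [370,402,434]) (by decide +kernel) v0_213

theorem w0_394_466 : S (PX [] [402,434,466]) := VW.play 370 (PX [370] [402,434,466]) (by decide +kernel) v0_377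

theorem w0_394_498 : S (PX [] [402,434,498]) := VW.play 466 (PX [466] [402,434,498]) (by decide +kernel) v0_382

theorem v0_394 : VW (PX [] [402,434]) := VW.of base nl_ok fl_ok .nil
  [(306, (.cons 338 370 .nil (.cons 370 338 (.cons 466 498 .nil (.cons 498 466 .nil .nil)) .nil))), (530, (.cons 466 498 (.cons 338 370 .nil (.cons 370 338 .nil .nil)) (.cons 498 466 .nil .nil)))]
  [([338], (PX [] [338,402,434])), ([370], (PX [] [370,402,434])), ([466], (PX [] [402,434,466])), ([498], (PX [] [402,434,498]))]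
  (by decide +kernel) ⟨w0_394_338, w0_394_370, w0_394_466, w0_394_498, trivial⟩

theorem v0_395 : VW (PX [369,534] [402,435,468,501]) := VW.of base nl_ok fl_ok .nil
  []
  []
  (by decide +kernel) trivial

theorem v0_396 : VW (PX [369,501] [402,435,468,534]) := VW.of base nl_ok fl_ok .nil
  []
  []
  (by decide +kernel) trivial

theorem w0_397_501 : S (PX [369] [402,435,468,501]) := VW.play 534 (PX [369,534] [402,435,468,501]) (by decide +kernel) v0_395

theorem w0_397_534 : S (PX [369] [402,435,468,534]) := VW.play 501 (PX [369,501] [402,435,468,534]) (by decide +kernel) v0_396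

theorem v0_397 : VW (PX [369] [402,435,468]) := VW.of base nl_ok fl_ok (.cons 501 534 .nil (.cons 534 501 .nil .nil))
  [(567, (.cons 501 534 .nil (.cons 534 501 .nil .nil))), (600, (.cons 501 534 .nil (.cons 534 501 .nil .nil))), (633, (.cons 501 534 .nil (.cons 534 501 .nil .nil)))]
  [([501], (PX [369] [402,435,468,501])), ([534], (PX [369] [402,435,468,534]))]
  (by decide +kernel) ⟨w0_397_501, w0_397_534, trivial⟩

theorem v0_398 : VW (PX [369,468] [402,435,501,534]) := VW.of base nl_ok fl_ok .nil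
  [(567, (.cons 600 633 .nil (.cons 633 600 .nil .nil))), (600, (.cons 567 633 .nil (.cons 633 567 .nil .nil))), (633, (.cons 567 600 .nil (.cons 600 567 .nil .nil)))]
  []
  (by decide +kernel) trivial

theorem w0_399_468 : S (PX [369] [402,435,468,501]) := VW.play 534 (PX [369,534] [402,435,468,501]) (by decide +kernel) v0_395

theorem w0_399_534 : S (PX [369] [402,435,501,534]) := VW.play 468 (PX [369,468] [402,435,501,534]) (by decide +kernel) v0_398

theorem v0_399 : VW (PX [369] [402,435,501]) := VW.of base nl_ok fl_ok (.cons 468 534 .nil (.cons 534 468 .nil .nil))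
  [(567, (.cons 468 534 .nil (.cons 534 468 (.cons 600 633 .nil (.cons 633 600 .nil .nil)) .nil))), (600, (.cons 468 534 .nil (.cons 534 468 (.cons 567 633 .nil (.cons 633 567 .nil .nil)) .nil))), (633, (.cons 468 534 .nil (.cons 534 468 (.cons 567 600 .nil (.cons 600 567 .nil .nil)) .nil)))]
  [([468], (PX [369] [402,435,468,501])), ([534], (PX [369] [402,435,501,534]))]
  (by decide +kernel) ⟨w0_399_468, w0_399_534, trivial⟩

theorem v0_404 : VW (PX [336,468] [303,402,435,534]) := VW.of base nl_ok fl_ok .nil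
  []
  []
  (by decide +kernel) trivial

theorem v0_406 : VW (PX [303,468] [336,402,435,534]) := VW.of base nl_ok fl_ok .nil
  []
  []
  (by decide +kernel) trivial

theorem v0_408 : VW (PX [303,468] [369,402,435,534]) := VW.of base nl_ok fl_ok .nil
  []
  []
  (by decide +kernel) trivial

theorem w0_410_303 : S (PX [468] [303,402,435,534]) := VW.play 336 (PX [336,468] [303,402,435,534]) (by decide +kernel) v0_404

theorem w0_410_336 : S (PX [468] [336,402,435,534]) := VW.play 303 (PX [303,468] [336,402,435,534]) (by decide +kernel) v0_406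

theorem w0_410_369 : S (PX [468] [369,402,435,534]) := VW.play 303 (PX [303,468] [369,402,435,534]) (by decide +kernel) v0_408

theorem v0_410 : VW (PX [468] [402,435,534]) := VW.of base nl_ok fl_ok .nil
  []
  [([303], (PX [468] [303,402,435,534])), ([336], (PX [468] [336,402,435,534])), ([369], (PX [468] [369,402,435,534]))]
  (by decide +kernel) ⟨w0_410_303, w0_410_336, w0_410_369, trivial⟩

theorem w0_418_303 : S (PX [] [303,402,435]) := VW.play 369 (PX [369] [303,402,435]) (by decide +kernel) v0_75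

theorem w0_418_336 : S (PX [] [336,402,435]) := VW.play 369 (PX [369] [336,402,435]) (by decide +kernel) v0_124

theorem w0_418_369 : S (PX [] [369,402,435]) := VW.play 336 (PX [336] [369,402,435]) (by decide +kernel) v0_189

theorem w0_418_468 : S (PX [] [402,435,468]) := VW.play 369 (PX [369] [402,435,468]) (by decide +kernel) v0_397

theorem w0_418_501 : S (PX [] [402,435,501]) := VW.play 369 (PX [369] [402,435,501]) (by decide +kernel) v0_399

theorem w0_418_534 : S (PX [] [402,435,534]) := VW.play 468 (PX [468] [402,435,534]) (by decide +kernel) v0_410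

theorem v0_418 : VW (PX [] [402,435]) := VW.of base nl_ok fl_ok .nil
  []
  [([303], (PX [] [303,402,435])), ([336], (PX [] [336,402,435])), ([369], (PX [] [369,402,435])), ([468], (PX [] [402,435,468])), ([501], (PX [] [402,435,501])), ([534], (PX [] [402,435,534]))]
  (by decide +kernel) ⟨w0_418_303, w0_418_336, w0_418_369, w0_418_468, w0_418_501, w0_418_534, trivial⟩

theorem v0_419 : VW (PX [433,557] [402,464,495,526]) := VW.of base nl_ok fl_ok .nil
  []
  []
  (by decide +kernel) trivial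

theorem v0_421 : VW (PX [433,526] [402,464,495,557]) := VW.of base nl_ok fl_ok .nil
  []
  []
  (by decide +kernel) trivial

theorem w0_423_526 : S (PX [433] [402,464,495,526]) := VW.play 557 (PX [433,557] [402,464,495,526]) (by decide +kernel) v0_419

theorem w0_423_557 : S (PX [433] [402,464,495,557]) := VW.play 526 (PX [433,526] [402,464,495,557]) (by decide +kernel) v0_421

theorem v0_423 : VW (PX [433] [402,464,495]) := VW.of base nl_ok fl_ok .nil
  [(588, (.cons 526 557 .nil (.cons 557 526 .nil .nil)))]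
  [([332], (PX [433] [332,402,464,495])), ([425], (PX [433] [402,425,464,495])), ([427], (PX [433] [402,427,464,495])), ([526], (PX [433] [402,464,495,526])), ([557], (PX [433] [402,464,495,557]))]
  (by decide +kernel) ⟨b0_706, b0_707, b0_708, w0_423_526, w0_423_557, trivial⟩

theorem v0_183 : VW (PX [371,495] [340,402,464,526]) := VW.of base nl_ok fl_ok .nil
  []
  []
  (by decide +kernel) trivial

theorem v0_432 : VW (PX [340,495] [371,402,464,526]) := VW.of base nl_ok fl_ok .nil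
  []
  []
  (by decide +kernel) trivial

theorem w0_434_340 : S (PX [495] [340,402,464,526]) := VW.play 371 (PX [371,495] [340,402,464,526]) (by decide +kernel) v0_183

theorem w0_434_371 : S (PX [495] [371,402,464,526]) := VW.play 340 (PX [340,495] [371,402,464,526]) (by decide +kernel) v0_432

theorem v0_434 : VW (PX [495] [402,464,526]) := VW.of base nl_ok fl_ok .nil
  [(433, (.cons 340 371 .nil (.cons 371 340 .nil .nil)))]
  [([340], (PX [495] [340,402,464,526])), ([371], (PX [495] [371,402,464,526]))]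
  (by decide +kernel) ⟨w0_434_340, w0_434_371, trivial⟩

theorem w0_435_340 : S (PX [] [340,402,464]) := VW.play 433 (PX [433] [340,402,464]) (by decide +kernel) v0_185

theorem w0_435_371 : S (PX [] [371,402,464]) := VW.play 433 (PX [433] [371,402,464]) (by decide +kernel) v0_233

theorem w0_435_433 : S (PX [] [402,433,464]) := VW.play 495 (PX [495] [402,433,464]) (by decide +kernel) v0_364

theorem w0_435_495 : S (PX [] [402,464,495]) := VW.play 433 (PX [433] [402,464,495]) (by decide +kernel) v0_423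

theorem w0_435_526 : S (PX [] [402,464,526]) := VW.play 495 (PX [495] [402,464,526]) (by decide +kernel) v0_434

theorem v0_435 : VW (PX [] [402,464]) := VW.of base nl_ok fl_ok .nil
  []
  [([340], (PX [] [340,402,464])), ([371], (PX [] [371,402,464])), ([398], (PX [] [398,402,464])), ([433], (PX [] [402,433,464])), ([495], (PX [] [402,464,495])), ([526], (PX [] [402,464,526]))]
  (by decide +kernel) ⟨w0_435_340, w0_435_371, b0_627, w0_435_433, w0_435_495, w0_435_526, trivial⟩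

theorem v0_450 : VW (PX [434] [402,466,498]) := VW.of base nl_ok fl_ok .nil
  [(530, (.cons 562 594 .nil (.cons 594 562 .nil .nil))), (562, (.cons 530 594 .nil (.cons 594 530 .nil .nil))), (594, (.cons 530 562 .nil (.cons 562 530 .nil .nil)))]
  []
  (by decide +kernel) trivial

theorem w0_453_370 : S (PX [] [370,402,466]) := VW.play 434 (PX [434] [370,402,466]) (by decide +kernel) v0_218

theorem w0_453_434 : S (PX [] [402,434,466]) := VW.play 370 (PX [370] [402,434,466]) (by decide +kernel) v0_377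

theorem w0_453_498 : S (PX [] [402,466,498]) := VW.play 434 (PX [434] [402,466,498]) (by decide +kernel) v0_450

theorem v0_453 : VW (PX [] [402,466]) := VW.of base nl_ok fl_ok .nil
  [(338, (.cons 370 434 (.cons 274 306 .nil (.cons 306 274 .nil .nil)) (.cons 434 370 (.cons 498 530 .nil (.cons 530 498 .nil .nil)) .nil))), (530, (.cons 434 498 (.cons 338 370 .nil (.cons 370 338 .nil .nil)) (.cons 498 434 (.cons 562 594 .nil (.cons 594 562 .nil .nil)) .nil)))]
  [([370], (PX [] [370,402,466])), ([434], (PX [] [402,434,466])), ([498], (PX [] [402,466,498]))]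
  (by decide +kernel) ⟨w0_453_370, w0_453_434, w0_453_498, trivial⟩

theorem v0_468 : VW (PX [435] [402,468,501]) := VW.of base nl_ok fl_ok .nil
  [(534, (.cons 567 600 .nil (.cons 600 567 .nil .nil))), (567, (.cons 534 600 .nil (.cons 600 534 .nil .nil))), (600, (.cons 534 567 .nil (.cons 567 534 .nil .nil)))]
  []
  (by decide +kernel) trivial

theorem v0_469 : VW (PX [435] [402,468,534]) := VW.of base nl_ok fl_ok .nil
  [(501, (.cons 567 600 .nil (.cons 600 567 .nil .nil))), (567, (.cons 501 600 .nil (.cons 600 501 (.cons 633 666 .nil (.cons 666 633 .nil .nil)) .nil))), (600, (.cons 501 567 .nil (.cons 567 501 (.cons 633 666 .nil (.cons 666 633 .nil .nil)) .nil)))]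
  []
  (by decide +kernel) trivial

theorem w0_483_336 : S (PX [] [336,402,468]) := VW.play 369 (PX [369] [336,402,468]) (by decide +kernel) v0_125

theorem w0_483_369 : S (PX [] [369,402,468]) := VW.play 336 (PX [336] [369,402,468]) (by decide +kernel) v0_191

theorem w0_483_435 : S (PX [] [402,435,468]) := VW.play 369 (PX [369] [402,435,468]) (by decide +kernel) v0_397

theorem w0_483_501 : S (PX [] [402,468,501]) := VW.play 435 (PX [435] [402,468,501]) (by decide +kernel) v0_468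

theorem w0_483_534 : S (PX [] [402,468,534]) := VW.play 435 (PX [435] [402,468,534]) (by decide +kernel) v0_469

theorem v0_483 : VW (PX [] [402,468]) := VW.of base nl_ok fl_ok .nil
  []
  [([336], (PX [] [336,402,468])), ([369], (PX [] [369,402,468])), ([435], (PX [] [402,435,468])), ([501], (PX [] [402,468,501])), ([534], (PX [] [402,468,534]))]
  (by decide +kernel) ⟨w0_483_336, w0_483_369, w0_483_435, w0_483_501, w0_483_534, trivial⟩

theorem v0_489 : VW (PX [464,588] [402,495,526,557]) := VW.of base nl_ok fl_ok .nil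
  []
  []
  (by decide +kernel) trivial

theorem v0_491 : VW (PX [464,557] [402,495,526,619]) := VW.of base nl_ok fl_ok .nil
  []
  []
  (by decide +kernel) trivial

theorem w0_493_557 : S (PX [464] [402,495,526,557]) := VW.play 588 (PX [464,588] [402,495,526,557]) (by decide +kernel) v0_489

theorem w0_493_619 : S (PX [464] [402,495,526,619]) := VW.play 557 (PX [464,557] [402,495,526,619]) (by decide +kernel) v0_491

theorem v0_493 : VW (PX [464] [402,495,526]) := VW.of base nl_ok fl_ok .nil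
  [(588, (.cons 557 619 .nil (.cons 619 557 .nil .nil)))]
  [([557], (PX [464] [402,495,526,557])), ([619], (PX [464] [402,495,526,619]))]
  (by decide +kernel) ⟨w0_493_557, w0_493_619, trivial⟩

theorem w0_494_371 : S (PX [] [371,402,495]) := VW.play 433 (PX [433] [371,402,495]) (by decide +kernel) v0_234

theorem w0_494_433 : S (PX [] [402,433,495]) := VW.play 464 (PX [464] [402,433,495]) (by decide +kernel) v0_365

theorem w0_494_464 : S (PX [] [402,464,495]) := VW.play 433 (PX [433] [402,464,495]) (by decide +kernel) v0_423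

theorem w0_494_526 : S (PX [] [402,495,526]) := VW.play 464 (PX [464] [402,495,526]) (by decide +kernel) v0_493

theorem v0_494 : VW (PX [] [402,495]) := VW.of base nl_ok fl_ok .nil
  []
  [([371], (PX [] [371,402,495])), ([433], (PX [] [402,433,495])), ([464], (PX [] [402,464,495])), ([526], (PX [] [402,495,526]))]
  (by decide +kernel) ⟨w0_494_371, w0_494_433, w0_494_464, w0_494_526, trivial⟩

theorem w0_495_434 : S (PX [] [402,434,498]) := VW.play 466 (PX [466] [402,434,498]) (by decide +kernel) v0_382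

theorem w0_495_466 : S (PX [] [402,466,498]) := VW.play 434 (PX [434] [402,466,498]) (by decide +kernel) v0_450

theorem v0_495 : VW (PX [] [402,498]) := VW.of base nl_ok fl_ok .nil
  [(370, (.cons 434 466 (.cons 306 338 .nil (.cons 338 306 .nil .nil)) (.cons 466 434 .nil .nil))), (530, (.cons 434 466 .nil (.cons 466 434 (.cons 562 594 .nil (.cons 594 562 .nil .nil)) .nil)))]
  [([434], (PX [] [402,434,498])), ([466], (PX [] [402,466,498]))]
  (by decide +kernel) ⟨w0_495_434, w0_495_466, trivial⟩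

theorem w0_496_369 : S (PX [] [369,402,501]) := VW.play 435 (PX [435] [369,402,501]) (by decide +kernel) v0_202

theorem w0_496_435 : S (PX [] [402,435,501]) := VW.play 369 (PX [369] [402,435,501]) (by decide +kernel) v0_399

theorem w0_496_468 : S (PX [] [402,468,501]) := VW.play 435 (PX [435] [402,468,501]) (by decide +kernel) v0_468

theorem v0_496 : VW (PX [] [402,501]) := VW.of base nl_ok fl_ok .nil
  [(534, (.cons 435 468 .nil (.cons 468 435 (.cons 567 600 .nil (.cons 600 567 .nil .nil)) .nil)))]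
  [([369], (PX [] [369,402,501])), ([435], (PX [] [402,435,501])), ([468], (PX [] [402,468,501]))]
  (by decide +kernel) ⟨w0_496_369, w0_496_435, w0_496_468, trivial⟩

theorem w0_497_433 : S (PX [] [402,433,526]) := VW.play 464 (PX [464] [402,433,526]) (by decide +kernel) v0_366

theorem w0_497_464 : S (PX [] [402,464,526]) := VW.play 495 (PX [495] [402,464,526]) (by decide +kernel) v0_434

theorem w0_497_495 : S (PX [] [402,495,526]) := VW.play 464 (PX [464] [402,495,526]) (by decide +kernel) v0_493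

theorem v0_497 : VW (PX [] [402,526]) := VW.of base nl_ok fl_ok .nil
  []
  [([433], (PX [] [402,433,526])), ([464], (PX [] [402,464,526])), ([495], (PX [] [402,495,526]))]
  (by decide +kernel) ⟨w0_497_433, w0_497_464, w0_497_495, trivial⟩

theorem v0_498 : VW (PX [] [402,530]) := VW.of base nl_ok fl_ok .nil
  [(434, (.cons 466 498 (.cons 338 370 .nil (.cons 370 338 .nil .nil)) (.cons 498 466 .nil .nil))), (466, (.cons 434 498 (.cons 338 370 .nil (.cons 370 338 .nil .nil)) (.cons 498 434 (.cons 562 594 .nil (.cons 594 562 .nil .nil)) .nil))), (498, (.cons 434 466 .nil (.cons 466 434 (.cons 562 594 .nil (.cons 594 562 .nil .nil)) .nil)))]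
  []
  (by decide +kernel) trivial

theorem w0_499_435 : S (PX [] [402,435,534]) := VW.play 468 (PX [468] [402,435,534]) (by decide +kernel) v0_410

theorem w0_499_468 : S (PX [] [402,468,534]) := VW.play 435 (PX [435] [402,468,534]) (by decide +kernel) v0_469

theorem v0_499 : VW (PX [] [402,534]) := VW.of base nl_ok fl_ok .nil
  [(501, (.cons 435 468 .nil (.cons 468 435 (.cons 567 600 .nil (.cons 600 567 .nil .nil)) .nil)))]
  [([435], (PX [] [402,435,534])), ([468], (PX [] [402,468,534]))]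
  (by decide +kernel) ⟨w0_499_435, w0_499_468, trivial⟩

theorem v1_96 : VW (PX [371] [309,340,402]) := VW.of base nl_ok fl_ok .nil
  [(216, (.cons 247 278 .nil (.cons 278 247 .nil .nil))), (247, (.cons 216 278 .nil (.cons 278 216 .nil .nil))), (278, (.cons 216 247 .nil (.cons 247 216 .nil .nil)))]
  []
  (by decide +kernel) trivial

theorem v1_104 : VW (PX [340,433] [278,309,371,402]) := VW.of base nl_ok fl_ok .nil
  [(185, (.cons 216 247 .nil (.cons 247 216 .nil .nil))), (216, (.cons 185 247 .nil (.cons 247 185 .nil .nil))), (247, (.cons 185 216 .nil (.cons 216 185 .nil .nil)))]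
  []
  (by decide +kernel) trivial

theorem v1_105 : VW (PX [278,433] [309,340,371,402]) := VW.of base nl_ok fl_ok .nil
  []
  []
  (by decide +kernel) trivial

theorem w1_106_278 : S (PX [433] [278,309,371,402]) := VW.play 340 (PX [340,433] [278,309,371,402]) (by decide +kernel) v1_104

theorem w1_106_340 : S (PX [433] [309,340,371,402]) := VW.play 278 (PX [278,433] [309,340,371,402]) (by decide +kernel) v1_105

theorem v1_106 : VW (PX [433] [309,371,402]) := VW.of base nl_ok fl_ok (.cons 278 340 .nil (.cons 340 278 .nil .nil))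
  [(185, (.cons 278 340 (.cons 216 247 .nil (.cons 247 216 .nil .nil)) (.cons 340 278 .nil .nil))), (216, (.cons 278 340 (.cons 185 247 .nil (.cons 247 185 .nil .nil)) (.cons 340 278 .nil .nil))), (247, (.cons 278 340 (.cons 185 216 .nil (.cons 216 185 .nil .nil)) (.cons 340 278 .nil .nil)))]
  [([278], (PX [433] [278,309,371,402])), ([340], (PX [433] [309,340,371,402]))]
  (by decide +kernel) ⟨w1_106_278, w1_106_340, trivial⟩

theorem v1_112 : VW (PX [371,464] [309,402,433,526]) := VW.of base nl_ok fl_ok .nil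
  []
  []
  (by decide +kernel) trivial

theorem w1_114_526 : S (PX [371] [309,402,433,526]) := VW.play 464 (PX [371,464] [309,402,433,526]) (by decide +kernel) v1_112

theorem v1_114 : VW (PX [371] [309,402,433]) := VW.of base nl_ok fl_ok .nil
  [(464, (.cons 495 526 .nil (.cons 526 495 .nil .nil))), (495, (.cons 464 526 .nil (.cons 526 464 .nil .nil)))]
  [([526], (PX [371] [309,402,433,526]))]
  (by decide +kernel) ⟨w1_114_526, trivial⟩

theorem w1_115_340 : S (PX [] [309,340,402]) := VW.play 371 (PX [371] [309,340,402]) (by decide +kernel) v1_96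

theorem w1_115_371 : S (PX [] [309,371,402]) := VW.play 433 (PX [433] [309,371,402]) (by decide +kernel) v1_106

theorem w1_115_433 : S (PX [] [309,402,433]) := VW.play 371 (PX [371] [309,402,433]) (by decide +kernel) v1_114

theorem v1_115 : VW (PX [] [309,402]) := VW.of base nl_ok fl_ok .nil
  [(278, (.cons 340 371 (.cons 216 247 .nil (.cons 247 216 .nil .nil)) (.cons 371 340 .nil .nil)))]
  [([340], (PX [] [309,340,402])), ([371], (PX [] [309,371,402])), ([433], (PX [] [309,402,433]))]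
  (by decide +kernel) ⟨w1_115_340, w1_115_371, w1_115_433, trivial⟩

theorem v1_231 : VW (PX [400] [398,399,402]) := VW.of base nl_ok fl_ok .nil
  []
  [([299], (PX [400] [299,398,399,402])), ([332], (PX [400] [332,398,399,402])), ([365], (PX [400] [365,398,399,402])), ([457], (PX [400] [398,399,402,457]))]
  (by decide +kernel) ⟨b1_415, b1_416, b1_417, b1_418, trivial⟩

theorem v1_238 : VW (PX [401] [398,400,402]) := VW.of base nl_ok fl_ok .nil
  []
  [([268], (PX [401] [268,398,400,402])), ([299], (PX [401] [299,398,400,402])), ([332], (PX [401] [332,398,400,402])), ([365], (PX [401] [365,398,400,402])), ([367], (PX [401] [367,398,400,402])), ([392], (PX [401] [392,398,400,402])), ([397], (PX [401] [397,398,400,402])), ([433], (PX [401] [398,400,402,433])), ([457], (PX [401] [398,400,402,457]))]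
  (by decide +kernel) ⟨b0_590, b0_591, b0_593, b0_594, b0_595, b1_473, b0_596, b0_598, b0_599, trivial⟩

theorem v1_242 : VW (PX [400] [398,401,402]) := VW.of base nl_ok fl_ok .nil
  [(403, (.cons 404 405 .nil (.cons 405 404 .nil .nil))), (404, (.cons 403 405 .nil (.cons 405 403 .nil .nil))), (405, (.cons 403 404 .nil (.cons 404 403 .nil .nil)))]
  [([299], (PX [400] [299,398,401,402])), ([332], (PX [400] [332,398,401,402])), ([365], (PX [400] [365,398,401,402])), ([457], (PX [400] [398,401,402,457]))]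
  (by decide +kernel) ⟨b0_619, b0_620, b0_621, b0_623, trivial⟩

theorem w1_243_399 : S (PX [] [398,399,402]) := VW.play 400 (PX [400] [398,399,402]) (by decide +kernel) v1_231

theorem w1_243_400 : S (PX [] [398,400,402]) := VW.play 401 (PX [401] [398,400,402]) (by decide +kernel) v1_238

theorem w1_243_401 : S (PX [] [398,401,402]) := VW.play 400 (PX [400] [398,401,402]) (by decide +kernel) v1_242

theorem v1_243 : VW (PX [] [398,402]) := VW.of base nl_ok fl_ok .nil
  []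
  [([270], (PX [] [270,398,402])), ([299], (PX [] [299,398,402])), ([332], (PX [] [332,398,402])), ([365], (PX [] [365,398,402])), ([399], (PX [] [398,399,402])), ([400], (PX [] [398,400,402])), ([401], (PX [] [398,401,402])), ([457], (PX [] [398,402,457]))]
  (by decide +kernel) ⟨b1_411, b1_412, b1_413, b1_414, w1_243_399, w1_243_400, w1_243_401, b1_493, trivial⟩

theorem v1_244 : VW (PX [401] [399,400,402]) := VW.of base nl_ok fl_ok .nil
  []
  [([268], (PX [401] [268,399,400,402]))]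
  (by decide +kernel) ⟨b1_494, trivial⟩

theorem v1_245 : VW (PX [400] [399,401,402]) := VW.of base nl_ok fl_ok .nil
  [(403, (.cons 404 405 .nil (.cons 405 404 .nil .nil))), (404, (.cons 403 405 .nil (.cons 405 403 .nil .nil))), (405, (.cons 403 404 .nil (.cons 404 403 .nil .nil)))]
  []
  (by decide +kernel) trivial

theorem v1_254 : VW (PX [401] [399,402,403]) := VW.of base nl_ok fl_ok .nil
  [(404, (.cons 405 406 .nil (.cons 406 405 .nil .nil))), (405, (.cons 404 406 .nil (.cons 406 404 .nil .nil))), (406, (.cons 404 405 .nil (.cons 405 404 .nil .nil)))]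
  []
  (by decide +kernel) trivial

theorem w1_255_398 : S (PX [] [398,399,402]) := VW.play 400 (PX [400] [398,399,402]) (by decide +kernel) v1_231

theorem w1_255_400 : S (PX [] [399,400,402]) := VW.play 401 (PX [401] [399,400,402]) (by decide +kernel) v1_244

theorem w1_255_401 : S (PX [] [399,401,402]) := VW.play 400 (PX [400] [399,401,402]) (by decide +kernel) v1_245

theorem w1_255_403 : S (PX [] [399,402,403]) := VW.play 401 (PX [401] [399,402,403]) (by decide +kernel) v1_254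

theorem v1_255 : VW (PX [] [399,402]) := VW.of base nl_ok fl_ok .nil
  []
  [([398], (PX [] [398,399,402])), ([400], (PX [] [399,400,402])), ([401], (PX [] [399,401,402])), ([403], (PX [] [399,402,403]))]
  (by decide +kernel) ⟨w1_255_398, w1_255_400, w1_255_401, w1_255_403, trivial⟩

theorem v1_277 : VW (PX [399,403] [398,401,402,405]) := VW.of base nl_ok fl_ok .nil
  []
  [([299], (PX [399,403] [299,398,401,402,405])), ([332], (PX [399,403] [332,398,401,402,405])), ([365], (PX [399,403] [365,398,401,402,405])), ([457], (PX [399,403] [398,401,402,405,457]))]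
  (by decide +kernel) ⟨b0_647, b0_648, b0_649, b0_651, trivial⟩

theorem v1_279 : VW (PX [398,403] [399,401,402,405]) := VW.of base nl_ok fl_ok .nil
  []
  []
  (by decide +kernel) trivial

theorem v1_281 : VW (PX [398,403] [400,401,402,405]) := VW.of base nl_ok fl_ok .nil
  []
  [([268], (PX [398,403] [268,400,401,402,405]))]
  (by decide +kernel) ⟨b1_528, trivial⟩

theorem w1_283_398 : S (PX [403] [398,401,402,405]) := VW.play 399 (PX [399,403] [398,401,402,405]) (by decide +kernel) v1_277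

theorem w1_283_399 : S (PX [403] [399,401,402,405]) := VW.play 398 (PX [398,403] [399,401,402,405]) (by decide +kernel) v1_279

theorem w1_283_400 : S (PX [403] [400,401,402,405]) := VW.play 398 (PX [398,403] [400,401,402,405]) (by decide +kernel) v1_281

theorem v1_283 : VW (PX [403] [401,402,405]) := VW.of base nl_ok fl_ok .nil
  []
  [([398], (PX [403] [398,401,402,405])), ([399], (PX [403] [399,401,402,405])), ([400], (PX [403] [400,401,402,405]))]
  (by decide +kernel) ⟨w1_283_398, w1_283_399, w1_283_400, trivial⟩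

theorem v1_292 : VW (PX [401,406] [402,403,404,405]) := VW.of base nl_ok fl_ok .nil
  []
  []
  (by decide +kernel) trivial

theorem v1_295 : VW (PX [401,404] [402,403,405,406]) := VW.of base nl_ok fl_ok .nil
  [(407, (.cons 408 409 .nil (.cons 409 408 .nil .nil))), (408, (.cons 407 409 .nil (.cons 409 407 .nil .nil))), (409, (.cons 407 408 .nil (.cons 408 407 .nil .nil)))]
  []
  (by decide +kernel) trivial

theorem w1_296_404 : S (PX [401] [402,403,404,405]) := VW.play 406 (PX [401,406] [402,403,404,405]) (by decide +kernel) v1_292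

theorem w1_296_406 : S (PX [401] [402,403,405,406]) := VW.play 404 (PX [401,404] [402,403,405,406]) (by decide +kernel) v1_295

theorem v1_296 : VW (PX [401] [402,403,405]) := VW.of base nl_ok fl_ok (.cons 404 406 .nil (.cons 406 404 .nil .nil))
  [(407, (.cons 404 406 .nil (.cons 406 404 (.cons 408 409 .nil (.cons 409 408 .nil .nil)) .nil))), (408, (.cons 404 406 .nil (.cons 406 404 (.cons 407 409 .nil (.cons 409 407 .nil .nil)) .nil))), (409, (.cons 404 406 .nil (.cons 406 404 (.cons 407 408 .nil (.cons 408 407 .nil .nil)) .nil)))]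
  [([404], (PX [401] [402,403,404,405])), ([406], (PX [401] [402,403,405,406]))]
  (by decide +kernel) ⟨w1_296_404, w1_296_406, trivial⟩

theorem v1_330 : VW (PX [403] [402,404,405]) := VW.of base nl_ok fl_ok .nil
  [(406, (.cons 407 408 .nil (.cons 408 407 .nil .nil))), (407, (.cons 406 408 .nil (.cons 408 406 .nil .nil))), (408, (.cons 406 407 .nil (.cons 407 406 .nil .nil)))]
  []
  (by decide +kernel) trivial

theorem w1_348_401 : S (PX [] [401,402,405]) := VW.play 403 (PX [403] [401,402,405]) (by decide +kernel) v1_283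

theorem w1_348_403 : S (PX [] [402,403,405]) := VW.play 401 (PX [401] [402,403,405]) (by decide +kernel) v1_296

theorem w1_348_404 : S (PX [] [402,404,405]) := VW.play 403 (PX [403] [402,404,405]) (by decide +kernel) v1_330

theorem v1_348 : VW (PX [] [402,405]) := VW.of base nl_ok fl_ok .nil
  [(406, (.cons 403 404 .nil (.cons 404 403 (.cons 407 408 .nil (.cons 408 407 .nil .nil)) .nil)))]
  [([401], (PX [] [401,402,405])), ([403], (PX [] [402,403,405])), ([404], (PX [] [402,404,405]))]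
  (by decide +kernel) ⟨w1_348_401, w1_348_403, w1_348_404, trivial⟩

theorem v6_7 : VW (PX [] [232,402]) := VW.of base nl_ok fl_ok .nil
  []
  [([332], (PX [] [232,332,402]))]
  (by decide +kernel) ⟨b6_245, trivial⟩

theorem v6_0 : VW (PX [] [265,402]) := VW.of base nl_ok fl_ok .nil
  []
  [([263], (PX [] [263,265,402])), ([268], (PX [] [265,268,402])), ([297], (PX [] [265,297,402])), ([329], (PX [] [265,329,402])), ([331], (PX [] [265,331,402])), ([332], (PX [] [265,332,402])), ([361], (PX [] [265,361,402])), ([397], (PX [] [265,397,402])), ([424], (PX [] [265,402,424])), ([425], (PX [] [265,402,425])), ([427], (PX [] [265,402,427])), ([488], (PX [] [265,402,488]))]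
  (by decide +kernel) ⟨b6_0, b6_1, b6_2, b6_3, b6_4, b6_5, b6_6, b6_7, b6_8, b6_9, b6_10, b6_11, trivial⟩

theorem v6_1 : VW (PX [] [269,402]) := VW.of base nl_ok fl_ok .nil
  []
  (([173], (PX [] [173,269,402])) :: ([205], (PX [] [205,269,402])) :: ([266], (PX [] [266,269,402])) :: ([270], (PX [] [269,270,402])) :: ([271], (PX [] [269,271,402])) :: ([301], (PX [] [269,301,402])) :: ([302], (PX [] [269,302,402])) :: ([330], (PX [] [269,330,402])) :: ([333], (PX [] [269,333,402])) :: ([365], (PX [] [269,365,402])) :: ([393], (PX [] [269,393,402])) :: ([397], (PX [] [269,397,402])) :: ([400], (PX [] [269,400,402])) :: ([401], (PX [] [269,401,402])) :: ([425], (PX [] [269,402,425])) :: ([457], (PX [] [269,402,457])) :: ([462], (PX [] [269,402,462])) :: ([464], (PX [] [269,402,464])) :: ([494], (PX [] [269,402,494])) :: [])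
  (by decide +kernel) ⟨b6_12, b6_13, b6_14, b6_15, b6_16, b6_17, b6_18, b6_19, b6_20, b6_21, b6_22, b6_23, b6_24, b6_25, b6_26, b6_27, b6_28, b6_29, b6_30, trivial⟩

theorem r270 : S (Nat.lor X2 (bits [402, 270])) := VW.play 394 (PX [] [270,402]) (by decide +kernel) v0_32

theorem r274 : S (Nat.lor X2 (bits [402, 274])) := VW.play 394 (PX [] [274,402]) (by decide +kernel) v0_33

theorem r278 : S (Nat.lor X2 (bits [402, 278])) := VW.play 394 (PX [] [278,402]) (by decide +kernel) v0_60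

theorem r303 : S (Nat.lor X2 (bits [402, 303])) := VW.play 394 (PX [] [303,402]) (by decide +kernel) v0_76

theorem r306 : S (Nat.lor X2 (bits [402, 306])) := VW.play 394 (PX [] [306,402]) (by decide +kernel) v0_98

theorem r336 : S (Nat.lor X2 (bits [402, 336])) := VW.play 394 (PX [] [336,402]) (by decide +kernel) v0_141

theorem r338 : S (Nat.lor X2 (bits [402, 338])) := VW.play 394 (PX [] [338,402]) (by decide +kernel) v0_164

theorem r340 : S (Nat.lor X2 (bits [402, 340])) := VW.play 394 (PX [] [340,402]) (by decide +kernel) v0_186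

theorem r369 : S (Nat.lor X2 (bits [402, 369])) := VW.play 394 (PX [] [369,402]) (by decide +kernel) v0_210

theorem r370 : S (Nat.lor X2 (bits [402, 370])) := VW.play 394 (PX [] [370,402]) (by decide +kernel) v0_230

theorem r371 : S (Nat.lor X2 (bits [402, 371])) := VW.play 394 (PX [] [371,402]) (by decide +kernel) v0_242

theorem r400 : S (Nat.lor X2 (bits [402, 400])) := VW.play 394 (PX [] [400,402]) (by decide +kernel) v0_279

theorem r401 : S (Nat.lor X2 (bits [402, 401])) := VW.play 394 (PX [] [401,402]) (by decide +kernel) v0_303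

theorem r403 : S (Nat.lor X2 (bits [402, 403])) := VW.play 394 (PX [] [402,403]) (by decide +kernel) v0_327

theorem r404 : S (Nat.lor X2 (bits [402, 404])) := VW.play 394 (PX [] [402,404]) (by decide +kernel) v0_359

theorem r406 : S (Nat.lor X2 (bits [402, 406])) := VW.play 394 (PX [] [402,406]) (by decide +kernel) v0_361

theorem r433 : S (Nat.lor X2 (bits [402, 433])) := VW.play 394 (PX [] [402,433]) (by decide +kernel) v0_374

theorem r434 : S (Nat.lor X2 (bits [402, 434])) := VW.play 394 (PX [] [402,434]) (by decide +kernel) v0_394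

theorem r435 : S (Nat.lor X2 (bits [402, 435])) := VW.play 394 (PX [] [402,435]) (by decide +kernel) v0_418

theorem r464 : S (Nat.lor X2 (bits [402, 464])) := VW.play 394 (PX [] [402,464]) (by decide +kernel) v0_435

theorem r466 : S (Nat.lor X2 (bits [402, 466])) := VW.play 394 (PX [] [402,466]) (by decide +kernel) v0_453

theorem r468 : S (Nat.lor X2 (bits [402, 468])) := VW.play 394 (PX [] [402,468]) (by decide +kernel) v0_483

theorem r495 : S (Nat.lor X2 (bits [402, 495])) := VW.play 394 (PX [] [402,495]) (by decide +kernel) v0_494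

theorem r498 : S (Nat.lor X2 (bits [402, 498])) := VW.play 394 (PX [] [402,498]) (by decide +kernel) v0_495

theorem r501 : S (Nat.lor X2 (bits [402, 501])) := VW.play 394 (PX [] [402,501]) (by decide +kernel) v0_496

theorem r526 : S (Nat.lor X2 (bits [402, 526])) := VW.play 394 (PX [] [402,526]) (by decide +kernel) v0_497

theorem r530 : S (Nat.lor X2 (bits [402, 530])) := VW.play 394 (PX [] [402,530]) (by decide +kernel) v0_498

theorem r534 : S (Nat.lor X2 (bits [402, 534])) := VW.play 394 (PX [] [402,534]) (by decide +kernel) v0_499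

theorem r309 : S (Nat.lor X2 (bits [402, 309])) := VW.play 394 (PX [] [309,402]) (by decide +kernel) v1_115

theorem r398 : S (Nat.lor X2 (bits [402, 398])) := VW.play 394 (PX [] [398,402]) (by decide +kernel) v1_243

theorem r399 : S (Nat.lor X2 (bits [402, 399])) := VW.play 394 (PX [] [399,402]) (by decide +kernel) v1_255

theorem r405 : S (Nat.lor X2 (bits [402, 405])) := VW.play 394 (PX [] [402,405]) (by decide +kernel) v1_348

theorem r232 : S (Nat.lor X2 (bits [402, 232])) := VW.play 394 (PX [] [232,402]) (by decide +kernel) v6_7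

theorem r265 : S (Nat.lor X2 (bits [402, 265])) := VW.play 394 (PX [] [265,402]) (by decide +kernel) v6_0

theorem r269 : S (Nat.lor X2 (bits [402, 269])) := VW.play 394 (PX [] [269,402]) (by decide +kernel) v6_1

theorem all : RT X2 402 (270 :: 274 :: 278 :: 303 :: 306 :: 336 :: 338 :: 340 :: 369 :: 370 :: 371 :: 400 :: 401 :: 403 :: 404 :: 406 :: 433 :: 434 :: 435 :: 464 :: 466 :: 468 :: 495 :: 498 :: 501 :: 526 :: 530 :: 534 :: 309 :: 398 :: 399 :: 405 :: 232 :: 265 :: 269 :: []) := ⟨r270, r274, r278, r303, r306, r336, r338, r340, r369, r370, r371, r400, r401, r403, r404, r406, r433, r434, r435, r464, r466, r468, r495, r498, r501, r526, r530, r534, r309, r398, r399, r405, r232, r265, r269, trivial⟩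

end Pool.Agent.H94.Five.Mid.K7_1_0
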