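import Pool.Agent.H94.Five.Mid.Fam

set_option autoImplicit false
set_option linter.all false
set_option maxRecDepth 100000

/-! Second has the cell (7, 2): some of the other stones. -/

namespace Pool.Agent.H94.Five.Mid.K7_2_1

open Pool.Agent.H79.Five Pool.Agent.H10.Five Pool.Agent.H94.Five.M

abbrev nl : List Ent := (n1 :: n2 :: n4 :: n5 :: n6 :: n7 :: n8 :: n9 :: n11 :: n12 :: n13 :: n14 :: n15 :: n17 :: n18 :: n19 :: n20 :: n22 :: n23 :: n24 :: [])

theorem nl_ok : AC XB M0 nl := .cons n1k <| .cons n2k <| .cons n4k <| .cons n5k <| .cons n6k <| .cons n7k <| .cons n8k <| .cons n9k <| .cons n11k <| .cons n12k <| .cons n13k <| .cons n14k <| .cons n15k <| .cons n17k <| .cons n18k <| .cons n19k <| .cons n20k <| .cons n22k <| .cons n23k <| .cons n24k <| .nil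

abbrev fl : List Ent := (x6 :: x15 :: x19 :: x25 :: x35 :: x38 :: x45 :: x53 :: x57 :: x62 :: x66 :: x69 :: x73 :: x75 :: x79 :: x94 :: x100 :: x101 :: x104 :: x112 :: x118 :: x120 :: x125 :: x130 :: x133 :: x136 :: x140 :: x142 :: x147 :: x149 :: x155 :: x156 :: x159 :: x161 :: x165 :: x169 :: x170 :: x175 :: x176 :: x177 :: x178 :: x180 :: x186 :: x188 :: x192 :: x193 :: x195 :: x196 :: x202 :: x206 :: x207 :: x208 :: x210 :: x211 :: x215 :: x217 :: x218 :: x222 :: x223 :: x225 :: x229 :: x244 :: x248 :: x249 :: x250 :: x251 :: x253 :: x256 :: x259 :: x260 :: x261 :: x262 :: x265 :: x266 :: x267 :: x268 :: x269 :: x270 :: x271 :: x272 :: x273 :: x276 :: x284 :: x285 :: x289 :: x291 :: x307 :: x309 :: x310 :: x312 :: x317 :: x318 :: x320 :: x321 :: x324 :: x329 :: x334 :: x337 :: x340 :: x344 :: x357 :: x365 :: x366 :: x368 :: x371 :: x372 :: x373 :: x375 :: x376 :: x378 :: x380 :: x381 :: x384 :: x385 :: x386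 :: x388 :: x390 :: x393 :: x396 :: x400 :: x415 :: x421 :: x427 :: x436 :: x439 :: x444 :: x446 :: x448 :: x452 :: x454 :: x462 :: x463 :: x464 :: x476 :: x477 :: x486 :: x492 :: x493 :: x498 :: x503 :: x504 :: x518 :: [])

theorem fl_ok : AC XB M0 fl := .cons x6k <| .cons x15k <| .cons x19k <| .cons x25k <| .cons x35k <| .cons x38k <| .cons x45k <| .cons x53k <| .cons x57k <| .cons x62k <| .cons x66k <| .cons x69k <| .cons x73k <| .cons x75k <| .cons x79k <| .cons x94k <| .cons x100k <| .cons x101k <| .cons x104k <| .cons x112k <| .cons x118k <| .cons x120k <| .cons x125k <| .cons x130k <| .cons x133k <| .cons x136k <| .cons x140k <| .cons x142k <| .cons x147k <| .cons x149k <| .cons x155k <| .cons x156k <| .cons x159k <| .cons x161k <| .cons x165k <| .cons x169k <| .cons x170k <| .cons x175k <| .cons x176k <| .cons x177k <| .cons x178k <| .cons x180k <| .cons x186k <| .cons x188k <| .cons x192k <| .cons x193k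 <| .cons x195k <| .cons x196k <| .cons x202k <| .cons x206k <| .cons x207k <| .cons x208k <| .cons x210k <| .cons x211k <| .cons x215k <| .cons x217k <| .cons x218k <| .cons x222k <| .cons x223k <| .cons x225k <| .cons x229k <| .cons x244k <| .cons x248k <| .cons x249k <| .cons x250k <| .cons x251k <| .cons x253k <| .cons x256k <| .cons x259k <| .cons x260k <| .cons x261k <| .cons x262k <| .cons x265k <| .cons x266k <| .cons x267k <| .cons x268k <| .cons x269k <| .cons x270k <| .cons x271k <| .cons x272k <| .cons x273k <| .cons x276k <| .cons x284k <| .cons x285k <| .cons x289k <| .cons x291k <| .cons x307k <| .cons x309k <| .cons x310k <| .cons x312k <| .cons x317k <| .cons x318k <| .cons x320k <| .cons x321k <| .cons x324k <| .cons x329k <| .cons x334k <| .cons x337k <| .cons x340k <| .cons x344k <| .cons x357k <| .cons x365k <| .cons x366k <| .cons x368k <| .cons x371k <| .cons x372k <| .cons x373k <| .cons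 x375k <| .cons x376k <| .cons x378k <| .cons x380k <| .cons x381k <| .cons x384k <| .cons x385k <| .cons x386k <| .cons x388k <| .cons x390k <| .cons x393k <| .cons x396k <| .cons x400k <| .cons x415k <| .cons x421k <| .cons x427k <| .cons x436k <| .cons x439k <| .cons x444k <| .cons x446k <| .cons x448k <| .cons x452k <| .cons x454k <| .cons x462k <| .cons x463k <| .cons x464k <| .cons x476k <| .cons x477k <| .cons x486k <| .cons x492k <| .cons x493k <| .cons x498k <| .cons x503k <| .cons x504k <| .cons x518k <| .nil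

theorem b0_1331 : S (PX [302,467] [330,335,401,434,500]) := S.of (.q 395 (.a 1 [] (.d 393 392 392 393 397)
 (.a 1 [392] (.d 397 393 393 394 398)
 (.a 0 [393,397] (.q 364 (.a 1 [] (.d 333 3343 271 3374 426)
 (.a 0 [271,333,426] (.q 332 (.a 1 [] (.d 300 1292 268 1324 428)
 (.a 1 [268] (.d 428 1324 300 1356 460)
 (.a 1 [300] (.d 301 3342 270 3373 425)
 .e))))
 .e)))
 .e)))) (by decide +kernel)

theorem b0_1332 : S (PX [302,467] [335,366,401,434,500]) := S.of (.q 332 (.a 1 [] (.d 301 3342 270 3373 425)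
 (.a 1 [270] (.d 425 3373 301 3404 456)
 (.a 0 [301,425] (.q 364 (.a 1 [] (.d 300 1292 268 1324 428)
 (.a 1 [268] (.d 428 1324 300 1356 460)
 (.a 0 [300,428] (.q 397 (.a 1 [] (.d 395 393 393 394 398)
 (.a 1 [393] (.r 395 394 398 (.d 333 3343 271 3374 426))
 (.a 1 [398] (.r 395 393 393 (.d 333 3343 271 3374 426))
 (.a 0 [395] (.q 362 (.a 1 [] (.d 361 360 360 361 365)
 (.a 0 [360,361,365] (.q 330 (.a 1 [] (.d 298 1290 266 1322 426)
 (.a 1 [266] (.d 426 1322 298 1354 458)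
 (.a 1 [298] (.d 297 2312 264 2345 429)
 .e))))
 .e)))
 .e)))))
 .e))))
 .e)))) (by decide +kernel)

theorem b0_1333 : S (PX [302,467] [335,400,401,434,500]) := S.of (.q 332 (.a 1 [] (.d 301 3342 270 3373 425)
 (.a 1 [270] (.d 425 3373 301 3404 456)
 (.a 0 [301,425] (.q 364 (.a 1 [] (.d 300 1292 268 1324 428)
 (.a 1 [268] (.d 428 1324 300 1356 460)
 (.a 0 [300,428] (.q 395 (.a 1 [] (.d 393 392 392 393 397)
 (.a 1 [392] (.d 397 393 393 394 398)
 (.a 1 [393] (.d 333 3343 271 3374 426)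
 .e))))
 .e))))
 .e)))) (by decide +kernel)

theorem b0_1334 : S (PX [302,467] [335,401,425,434,500]) := S.of (.q 395 (.a 1 [] (.d 393 392 392 393 397)
 (.a 1 [392] (.d 397 393 393 394 398)
 (.a 0 [393,397] (.q 429 (.a 1 [] (.d 330 2345 297 2378 462)
 (.a 1 [297] (.d 462 2378 330 2411 495)
 (.a 0 [330,462] (.q 299 (.a 1 [] (.d 331 1291 267 1323 427)
 (.a 0 [267,331,427] (.q 300 (.a 1 [] (.d 301 298 298 299 303)
 (.a 1 [298] (.r 301 299 303 (.r 332 3342 270 (.d 364 1292 268 1324 428)))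
 (.a 1 [303] (.r 301 298 298 (.r 332 3342 270 (.d 364 1292 268 1324 428)))
 (.a 0 [301] (.q 364 (.a 1 [] (.d 332 1292 268 1324 428)
 (.a 1 [268] (.d 333 3343 271 3374 426)
 .e)))
 .e)))))
 .e)))
 .e))))
 .e)))) (by decide +kernel)

theorem b0_1335 : S (PX [302,467] [335,401,428,434,500]) := S.of (.q 429 (.a 1 [] (.d 330 2345 297 2378 462)
 (.a 1 [297] (.d 462 2378 330 2411 495)
 (.a 0 [330,462] (.q 397 (.a 1 [] (.d 395 393 393 394 398)
 (.a 0 [393,395,398] (.q 365 (.a 1 [] (.d 333 1325 301 1357 461)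
 (.a 1 [301] (.d 461 1357 333 1389 493)
 (.a 1 [461] (.r 301 1325 333 (.d 332 3342 270 3373 425))
 (.a 0 [333] (.q 427 (.a 1 [] (.d 334 3375 303 3406 458)
 (.a 1 [303] (.d 458 3406 334 3437 489)
 (.a 1 [334] (.r 493 1389 461 (.d 460 2409 361 2442 526))
 .e))))
 .e)))))
 .e)))
 .e)))) (by decide +kernel)

theorem b0_1365 : S (PX [302,467] [330,335,401,434,533]) := S.of (.q 395 (.a 1 [] (.d 393 392 392 393 397)
 (.a 1 [392] (.d 397 393 393 394 398)
 (.a 0 [393,397] (.q 364 (.a 1 [] (.d 333 3343 271 3374 426)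
 (.a 0 [271,333,426] (.q 332 (.a 1 [] (.d 300 1292 268 1324 428)
 (.a 1 [268] (.d 428 1324 300 1356 460)
 (.a 1 [300] (.d 301 3342 270 3373 425)
 .e))))
 .e)))
 .e)))) (by decide +kernel)

theorem b0_1366 : S (PX [302,467] [335,366,401,434,533]) := S.of (.q 332 (.a 1 [] (.d 301 3342 270 3373 425)
 (.a 1 [270] (.d 425 3373 301 3404 456)
 (.a 0 [301,425] (.q 364 (.a 1 [] (.d 300 1292 268 1324 428)
 (.a 1 [268] (.d 428 1324 300 1356 460)
 (.a 0 [300,428] (.q 397 (.a 1 [] (.d 395 393 393 394 398)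
 (.a 1 [393] (.r 395 394 398 (.d 333 3343 271 3374 426))
 (.a 1 [398] (.r 395 393 393 (.d 333 3343 271 3374 426))
 (.a 0 [395] (.q 362 (.a 1 [] (.d 361 360 360 361 365)
 (.a 0 [360,361,365] (.q 330 (.a 1 [] (.d 298 1290 266 1322 426)
 (.a 1 [266] (.d 426 1322 298 1354 458)
 (.a 1 [298] (.d 297 2312 264 2345 429)
 .e))))
 .e)))
 .e)))))
 .e))))
 .e)))) (by decide +kernel)

theorem b0_1367 : S (PX [302,467] [335,400,401,434,533]) := S.of (.q 332 (.a 1 [] (.d 301 3342 270 3373 425)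
 (.a 1 [270] (.d 425 3373 301 3404 456)
 (.a 0 [301,425] (.q 364 (.a 1 [] (.d 300 1292 268 1324 428)
 (.a 1 [268] (.d 428 1324 300 1356 460)
 (.a 0 [300,428] (.q 395 (.a 1 [] (.d 393 392 392 393 397)
 (.a 1 [392] (.d 397 393 393 394 398)
 (.a 1 [393] (.d 333 3343 271 3374 426)
 .e))))
 .e))))
 .e)))) (by decide +kernel)

theorem b0_1368 : S (PX [302,467] [335,401,425,434,533]) := S.of (.q 395 (.a 1 [] (.d 393 392 392 393 397)
 (.a 1 [392] (.d 397 393 393 394 398)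
 (.a 0 [393,397] (.q 429 (.a 1 [] (.d 330 2345 297 2378 462)
 (.a 1 [297] (.d 462 2378 330 2411 495)
 (.a 0 [330,462] (.q 299 (.a 1 [] (.d 331 1291 267 1323 427)
 (.a 0 [267,331,427] (.q 300 (.a 1 [] (.d 301 298 298 299 303)
 (.a 1 [298] (.r 301 299 303 (.r 332 3342 270 (.d 364 1292 268 1324 428)))
 (.a 1 [303] (.r 301 298 298 (.r 332 3342 270 (.d 364 1292 268 1324 428)))
 (.a 0 [301] (.q 364 (.a 1 [] (.d 332 1292 268 1324 428)
 (.a 1 [268] (.d 333 3343 271 3374 426)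
 .e)))
 .e)))))
 .e)))
 .e))))
 .e)))) (by decide +kernel)

theorem b0_1369 : S (PX [302,467] [335,401,428,434,533]) := S.of (.q 429 (.a 1 [] (.d 330 2345 297 2378 462)
 (.a 1 [297] (.d 462 2378 330 2411 495)
 (.a 0 [330,462] (.q 397 (.a 1 [] (.d 395 393 393 394 398)
 (.a 0 [393,395,398] (.q 365 (.a 1 [] (.d 333 1325 301 1357 461)
 (.a 1 [301] (.d 461 1357 333 1389 493)
 (.a 1 [461] (.r 301 1325 333 (.d 332 3342 270 3373 425))
 (.a 0 [333] (.q 427 (.a 1 [] (.d 334 3375 303 3406 458)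
 (.a 1 [303] (.d 458 3406 334 3437 489)
 (.a 1 [334] (.r 493 1389 461 (.d 460 2409 361 2442 526))
 .e))))
 .e)))))
 .e)))
 .e)))) (by decide +kernel)

theorem b0_1496 : S (PX [401] [330,335,434,467]) := S.of (.q 332 (.a 1 [] (.d 301 3342 270 3373 425)
 (.a 1 [270] (.d 425 3373 301 3404 456)
 (.a 0 [301,425] (.q 395 (.a 1 [] (.d 393 392 392 393 397)
 (.a 1 [392] (.d 397 393 393 394 398)
 (.a 0 [393,397] (.q 299 (.a 1 [] (.d 331 1291 267 1323 427)
 (.a 0 [267,331,427] (.q 365 (.a 1 [] (.d 266 2281 233 2314 398)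
 (.a 1 [233] (.d 398 2314 266 2347 431)
 (.a 0 [266,398] (.q 364 (.a 1 [] (.d 362 361 361 362 366)
 (.a 1 [361] (.d 366 362 362 363 367)
 (.a 1 [362] (.d 300 1292 268 1324 428)
 .e))))
 .e))))
 .e)))
 .e))))
 .e)))) (by decide +kernel)

theorem b0_1497 : S (PX [401] [335,366,434,467]) := S.of (.q 330 (.a 1 [] (.d 297 2312 264 2345 429)
 (.a 1 [264] (.d 429 2345 297 2378 462)
 (.a 0 [297,429] (.q 362 (.a 1 [] (.d 298 1290 266 1322 426)
 (.a 1 [266] (.d 426 1322 298 1354 458)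
 (.a 0 [298,426] (.q 361 (.a 1 [] (.d 360 359 359 360 364)
 (.a 1 [359] (.d 364 360 360 361 365)
 (.a 0 [360,364] (.q 427 (.a 1 [] (.d 328 2343 295 2376 460)
 (.a 1 [295] (.d 460 2376 328 2409 493)
 (.a 0 [328,460] (.q 395 (.a 1 [] (.d 393 392 392 393 397)
 (.a 1 [392] (.d 397 393 393 394 398)
 (.a 1 [393] (.d 331 1323 299 1355 459)
 .e))))
 .e))))
 .e))))
 .e))))
 .e)))) (by decide +kernel)

theorem b0_1498 : S (PX [401] [335,425,434,467]) := S.of (.q 395 (.a 1 [] (.d 393 392 392 393 397)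
 (.a 1 [392] (.d 397 393 393 394 398)
 (.a 0 [393,397] (.q 331 (.a 1 [] (.d 299 1291 267 1323 427)
 (.a 1 [267] (.d 427 1323 299 1355 459)
 (.a 0 [299,427] (.q 330 (.a 1 [] (.d 297 2312 264 2345 429)
 (.a 1 [264] (.d 429 2345 297 2378 462)
 (.a 0 [297] (.q 329 (.a 1 [] (.d 328 327 327 328 332)
 (.a 1 [327] (.d 332 328 328 329 333)
 (.a 0 [328,332] (.q 362 (.a 1 [] (.d 298 1290 266 1322 426)
 (.a 1 [266] (.d 426 1322 298 1354 458)
 (.a 1 [298] (.d 296 2311 263 2344 428)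
 .e))))
 .e))))
 (.a 0 [429] (.q 426 (.a 1 [] (.d 362 1322 298 1354 458)
 (.a 0 [298,362,458] (.q 333 (.a 1 [] (.d 332 329 329 330 334)
 (.a 1 [329] (.d 364 3374 302 3405 457)
 .e)))
 .e)))
 .e)))))
 .e))))
 .e)))) (by decide +kernel)

theorem b0_1499 : S (PX [401] [335,428,434,467]) := S.of (.q 397 (.a 1 [] (.d 395 393 393 394 398)
 (.a 0 [393,395,398] (.q 429 (.a 1 [] (.d 330 2345 297 2378 462)
 (.a 1 [297] (.d 462 2378 330 2411 495)
 (.a 0 [330,462] (.q 365 (.a 1 [] (.d 333 1325 301 1357 461)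
 (.a 1 [301] (.d 461 1357 333 1389 493)
 (.a 1 [461] (.r 301 1325 333 (.d 332 3342 270 3373 425))
 (.a 0 [333] (.q 427 (.a 1 [] (.d 334 3375 303 3406 458)
 (.a 1 [303] (.d 458 3406 334 3437 489)
 (.a 1 [334] (.r 493 1389 461 (.d 460 2409 361 2442 526))
 .e))))
 .e)))))
 .e))))
 .e))) (by decide +kernel)

theorem b0_1502 : S (PX [335,467] [368,400,401,434,500]) := S.of (.q 332 (.a 1 [] (.d 301 3342 270 3373 425)
 (.a 1 [270] (.d 425 3373 301 3404 456)
 (.a 0 [301,425] (.q 330 (.a 1 [] (.d 297 2312 264 2345 429)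
 (.a 1 [264] (.d 429 2345 297 2378 462)
 (.a 0 [297,429] (.q 428 (.a 1 [] (.d 364 1324 300 1356 460)
 (.a 0 [300,364,460] (.q 298 (.a 1 [] (.d 362 1290 266 1322 426)
 (.a 0 [266,362,426] (.q 397 (.a 1 [] (.d 395 393 393 394 398)
 (.a 1 [393] (.d 366 3376 304 3407 459)
 .e)))
 .e)))
 .e)))
 .e))))
 .e)))) (by decide +kernel)

theorem b0_1631 : S (PX [368] [400,401,434,467]) := S.of (.q 429 (.a 1 [] (.d 330 2345 297 2378 462)
 (.a 0 [330] (.q 332 (.a 1 [] (.d 301 3342 270 3373 425)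
 (.a 0 [301] (.r 425 3404 456 (.q 428 (.a 1 [] (.d 364 1324 300 1356 460)
 (.a 1 [364] (.r 427 425 426 (.q 395 (.a 1 [] (.d 393 392 392 393 397)
 (.a 1 [500] (.q 533 (.a 1 [] (.d 393 392 392 393 397)
 (.a 1 [397] (.d 331 1323 299 1355 459)
 .e)))
 (.a 1 [533] (.q 500 (.a 1 [] (.d 393 392 392 393 397)
 (.a 1 [397] (.d 459 1355 331 1387 491)
 .e)))
 (.a 1 [397] (.d 331 1323 299 1355 459)
 .e))))))
 (.a 1 [460] (.r 427 425 426 (.r 431 427 430 (.r 364 1324 300 (.q 365 (.a 1 [] (.d 362 361 361 362 366)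
 (.a 1 [500] (.q 533 (.a 1 [] (.d 362 361 361 362 366)
 (.a 1 [366] (.d 458 3406 334 3437 489)
 .e)))
 (.a 1 [533] (.q 500 (.a 1 [] (.d 362 361 361 362 366)
 (.a 1 [366] (.d 398 2347 299 2380 464)
 .e)))
 (.a 1 [366] (.d 398 2347 299 2380 464)
 .e))))))))
 (.a 1 [500] (.q 533 (.a 1 [] (.d 364 1324 300 1356 460)
 (.a 1 [364] (.q 395 (.a 1 [] (.d 393 392 392 393 397)
 (.a 1 [392] (.d 397 393 393 394 398)
 (.a 1 [393] (.r 427 425 426 (.d 459 1355 331 1387 491))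
 .e))))
 .e)))
 (.a 1 [533] (.q 500 (.a 1 [] (.d 364 1324 300 1356 460)
 (.a 1 [364] (.q 395 (.a 1 [] (.d 393 392 392 393 397)
 (.a 1 [392] (.d 397 393 393 394 398)
 (.a 1 [393] (.r 427 425 426 (.d 459 1355 331 1387 491))
 .e))))
 .e)))
 (.a 1 [300] (.r 427 425 426 (.r 460 1356 364 (.d 493 2409 361 2442 526)))
 .e))))))))
 (.a 0 [425] (.r 301 3342 270 (.q 364 (.a 1 [] (.d 300 1292 268 1324 428)
 (.a 1 [300] (.q 365 (.a 1 [] (.d 362 361 361 362 366)
 (.a 1 [500] (.q 533 (.a 1 [] (.d 362 361 361 362 366)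
 (.a 1 [366] (.r 397 1325 333 (.d 395 393 393 394 398))
 .e)))
 (.a 1 [533] (.q 500 (.a 1 [] (.d 362 361 361 362 366)
 (.a 1 [366] (.r 397 1325 333 (.d 395 393 393 394 398))
 .e)))
 (.a 1 [366] (.r 397 1325 333 (.d 395 393 393 394 398))
 .e)))))
 (.a 1 [428] (.q 365 (.a 1 [] (.d 362 361 361 362 366)
 (.a 1 [500] (.q 533 (.a 1 [] (.d 362 361 361 362 366)
 (.a 1 [366] (.r 397 1325 333 (.d 395 393 393 394 398))
 .e)))
 (.a 1 [533] (.q 500 (.a 1 [] (.d 362 361 361 362 366)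
 (.a 1 [366] (.r 397 1325 333 (.d 395 393 393 394 398))
 .e)))
 (.a 1 [366] (.r 397 1325 333 (.d 395 393 393 394 398))
 .e)))))
 (.a 1 [500] (.q 533 (.a 1 [] (.d 428 1324 300 1356 460)
 (.a 1 [300] (.q 365 (.a 1 [] (.d 362 361 361 362 366)
 (.a 1 [361] (.d 366 362 362 363 367)
 (.a 1 [362] (.r 397 1325 333 (.d 395 393 393 394 398))
 .e))))
 .e)))
 (.a 1 [533] (.q 500 (.a 1 [] (.d 428 1324 300 1356 460)
 (.a 1 [300] (.q 365 (.a 1 [] (.d 362 361 361 362 366)
 (.a 1 [361] (.d 366 362 362 363 367)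
 (.a 1 [362] (.r 397 1325 333 (.d 395 393 393 394 398))
 .e))))
 .e)))
 (.a 1 [268] (.d 428 1324 300 1356 460)
 .e))))))))
 (.a 1 [500] (.q 533 (.a 1 [] (.d 425 3373 301 3404 456)
 (.a 1 [301] (.q 364 (.a 1 [] (.d 300 1292 268 1324 428)
 (.a 1 [268] (.d 428 1324 300 1356 460)
 (.a 0 [300,428] (.q 365 (.a 1 [] (.d 362 361 361 362 366)
 (.a 1 [361] (.d 366 362 362 363 367)
 (.a 0 [362,366] (.q 397 (.a 1 [] (.d 395 393 393 394 398)
 (.a 1 [393] (.d 461 1357 333 1389 493)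
 .e)))
 .e))))
 .e))))
 .e)))
 (.a 1 [533] (.q 500 (.a 1 [] (.d 425 3373 301 3404 456)
 (.a 1 [301] (.q 364 (.a 1 [] (.d 300 1292 268 1324 428)
 (.a 1 [268] (.d 428 1324 300 1356 460)
 (.a 0 [300,428] (.q 365 (.a 1 [] (.d 362 361 361 362 366)
 (.a 1 [361] (.d 366 362 362 363 367)
 (.a 0 [362,366] (.q 397 (.a 1 [] (.d 395 393 393 394 398)
 (.a 1 [393] (.d 461 1357 333 1389 493)
 .e)))
 .e))))
 .e))))
 .e)))
 (.a 1 [270] (.d 425 3373 301 3404 456)
 .e)))))))
 (.a 0 [462] (.r 330 2345 297 (.q 332 (.a 1 [] (.d 301 3342 270 3373 425)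
 (.a 1 [301] (.r 425 3404 456 (.q 428 (.a 1 [] (.d 364 1324 300 1356 460)
 (.a 1 [500] (.q 533 (.a 1 [] (.d 364 1324 300 1356 460)
 (.a 1 [364] (.r 426 425 427 (.d 362 1322 298 1354 458))
 .e)))
 (.a 1 [533] (.q 500 (.a 1 [] (.d 364 1324 300 1356 460)
 (.a 1 [364] (.r 426 425 427 (.d 362 1322 298 1354 458))
 .e)))
 (.a 1 [364] (.r 426 425 427 (.d 362 1322 298 1354 458))
 .e))))))
 (.a 1 [425] (.r 301 3342 270 (.q 397 (.a 1 [] (.d 395 393 393 394 398)
 (.a 1 [500] (.q 533 (.a 1 [] (.d 395 393 393 394 398)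
 (.a 1 [395] (.r 333 1325 365 (.d 331 329 329 330 334))
 .e)))
 (.a 1 [533] (.q 500 (.a 1 [] (.d 395 393 393 394 398)
 (.a 1 [395] (.r 333 1325 365 (.d 331 329 329 330 334))
 .e)))
 (.a 1 [395] (.r 333 1325 365 (.d 331 329 329 330 334))
 .e))))))
 (.a 1 [500] (.q 533 (.a 1 [] (.d 301 3342 270 3373 425)
 (.a 1 [301] (.q 428 (.a 1 [] (.d 364 1324 300 1356 460)
 (.a 1 [300] (.r 460 1356 364 (.r 425 3404 456 (.r 427 425 426 (.d 493 2409 361 2442 526))))
 (.a 1 [364] (.r 425 3404 456 (.r 426 425 427 (.d 362 1322 298 1354 458)))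
 .e))))
 (.a 1 [425] (.q 397 (.a 1 [] (.d 395 393 393 394 398)
 (.a 1 [393] (.r 301 3342 270 (.r 365 1325 333 (.r 398 394 395 (.d 431 2347 299 2380 464))))
 (.a 1 [395] (.r 301 3342 270 (.r 333 1325 365 (.d 331 329 329 330 334)))
 .e))))
 .e))))
 (.a 1 [533] (.q 500 (.a 1 [] (.d 301 3342 270 3373 425)
 (.a 1 [301] (.q 428 (.a 1 [] (.d 364 1324 300 1356 460)
 (.a 1 [300] (.r 460 1356 364 (.r 425 3404 456 (.r 427 425 426 (.d 493 2409 361 2442 526))))
 (.a 1 [364] (.r 425 3404 456 (.r 426 425 427 (.d 362 1322 298 1354 458)))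
 .e))))
 (.a 1 [425] (.q 397 (.a 1 [] (.d 395 393 393 394 398)
 (.a 1 [393] (.r 301 3342 270 (.r 365 1325 333 (.r 398 394 395 (.d 431 2347 299 2380 464))))
 (.a 1 [395] (.r 301 3342 270 (.r 333 1325 365 (.d 331 329 329 330 334)))
 .e))))
 .e))))
 (.a 1 [270] (.d 425 3373 301 3404 456)
 .e))))))))
 (.a 1 [500] (.q 533 (.a 1 [] (.d 462 2378 330 2411 495)
 (.a 1 [330] (.q 332 (.a 1 [] (.d 301 3342 270 3373 425)
 (.a 1 [270] (.d 425 3373 301 3404 456)
 (.a 0 [301,425] (.q 364 (.a 1 [] (.d 300 1292 268 1324 428)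
 (.a 1 [268] (.d 428 1324 300 1356 460)
 (.a 0 [300,428] (.q 365 (.a 1 [] (.d 362 361 361 362 366)
 (.a 1 [361] (.d 366 362 362 363 367)
 (.a 0 [362,366] (.q 397 (.a 1 [] (.d 395 393 393 394 398)
 (.a 1 [393] (.d 461 1357 333 1389 493)
 .e)))
 .e))))
 .e))))
 .e))))
 .e)))
 (.a 1 [533] (.q 500 (.a 1 [] (.d 462 2378 330 2411 495)
 (.a 1 [330] (.q 332 (.a 1 [] (.d 301 3342 270 3373 425)
 (.a 1 [270] (.d 425 3373 301 3404 456)
 (.a 0 [301,425] (.q 364 (.a 1 [] (.d 300 1292 268 1324 428)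
 (.a 1 [268] (.d 428 1324 300 1356 460)
 (.a 0 [300,428] (.q 365 (.a 1 [] (.d 362 361 361 362 366)
 (.a 1 [361] (.d 366 362 362 363 367)
 (.a 0 [362,366] (.q 397 (.a 1 [] (.d 395 393 393 394 398)
 (.a 1 [393] (.d 461 1357 333 1389 493)
 .e)))
 .e))))
 .e))))
 .e))))
 .e)))
 (.a 1 [297] (.d 462 2378 330 2411 495)
 .e))))))) (by decide +kernel)

theorem b0_1632 : S (PX [368,533] [400,401,434,467,500]) := S.of (.q 330 (.a 1 [] (.d 297 2312 264 2345 429)
 (.a 1 [264] (.d 429 2345 297 2378 462)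
 (.a 0 [297,429] (.q 362 (.a 1 [] (.d 298 1290 266 1322 426)
 (.a 1 [266] (.d 426 1322 298 1354 458)
 (.a 0 [298,426] (.q 361 (.a 1 [] (.d 360 359 359 360 364)
 (.a 1 [359] (.d 364 360 360 361 365)
 (.a 0 [360,364] (.q 427 (.a 1 [] (.d 328 2343 295 2376 460)
 (.a 1 [295] (.d 460 2376 328 2409 493)
 (.a 0 [328,460] (.q 395 (.a 1 [] (.d 393 392 392 393 397)
 (.a 1 [392] (.d 397 393 393 394 398)
 (.a 1 [393] (.d 331 1323 299 1355 459)
 .e))))
 .e))))
 .e))))
 .e))))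
 .e)))) (by decide +kernel)

theorem b0_1633 : S (PX [368,500] [400,401,434,467,533]) := S.of (.q 330 (.a 1 [] (.d 297 2312 264 2345 429)
 (.a 1 [264] (.d 429 2345 297 2378 462)
 (.a 0 [297,429] (.q 362 (.a 1 [] (.d 298 1290 266 1322 426)
 (.a 1 [266] (.d 426 1322 298 1354 458)
 (.a 0 [298,426] (.q 361 (.a 1 [] (.d 360 359 359 360 364)
 (.a 1 [359] (.d 364 360 360 361 365)
 (.a 0 [360,364] (.q 427 (.a 1 [] (.d 328 2343 295 2376 460)
 (.a 1 [295] (.d 460 2376 328 2409 493)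
 (.a 0 [328,460] (.q 395 (.a 1 [] (.d 393 392 392 393 397)
 (.a 1 [392] (.d 397 393 393 394 398)
 (.a 1 [393] (.d 331 1323 299 1355 459)
 .e))))
 .e))))
 .e))))
 .e))))
 .e)))) (by decide +kernel)

theorem b0_1636 : S (PX [368,467] [298,302,401,434,500]) := S.of (.q 425 (.a 1 [] (.d 332 3373 301 3404 456)
 (.a 1 [301] (.d 456 3404 332 3435 487)
 (.a 0 [332,456] (.q 393 (.a 1 [] (.d 395 392 392 393 397)
 (.a 0 [392,395,397] (.q 361 (.a 1 [] (.d 329 1321 297 1353 457)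
 (.a 1 [297] (.d 457 1353 329 1385 489)
 (.a 1 [457] (.r 297 1321 329 (.d 330 2312 264 2345 429))
 (.a 0 [329] (.q 427 (.a 1 [] (.d 328 2343 295 2376 460)
 (.a 1 [295] (.d 460 2376 328 2409 493)
 (.a 1 [328] (.r 489 1385 457 (.d 458 3437 365 3468 520))
 .e))))
 .e)))))
 .e)))
 .e)))) (by decide +kernel)

theorem b0_1637 : S (PX [368,467] [300,302,401,434,500]) := S.of (.q 330 (.a 1 [] (.d 297 2312 264 2345 429)
 (.a 1 [264] (.d 429 2345 297 2378 462)
 (.a 0 [297,429] (.q 425 (.a 1 [] (.d 332 3373 301 3404 456)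
 (.a 1 [301] (.d 456 3404 332 3435 487)
 (.a 0 [332,456] (.q 393 (.a 1 [] (.d 395 392 392 393 397)
 (.a 0 [392,395,397] (.q 361 (.a 1 [] (.d 457 1353 329 1385 489)
 (.a 0 [329,457,489] (.q 362 (.a 1 [] (.d 360 359 359 360 364)
 (.a 1 [359] (.d 364 360 360 361 365)
 (.a 1 [360] (.d 298 1290 266 1322 426)
 .e))))
 .e)))
 .e)))
 .e))))
 .e)))) (by decide +kernel)

theorem b0_1638 : S (PX [368,467] [302,397,401,434,500]) := S.of (.q 330 (.a 1 [] (.d 297 2312 264 2345 429)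
 (.a 1 [264] (.d 429 2345 297 2378 462)
 (.a 0 [297,429] (.q 425 (.a 1 [] (.d 332 3373 301 3404 456)
 (.a 1 [301] (.d 456 3404 332 3435 487)
 (.a 0 [332,456] (.q 426 (.a 1 [] (.d 362 1322 298 1354 458)
 (.a 0 [298,362,458] (.q 423 (.a 1 [] (.d 424 422 422 423 427)
 (.a 0 [422,424,427] (.q 392 (.a 1 [] (.d 361 3371 299 3402 454)
 (.a 1 [299] (.r 393 392 395 (.r 361 3402 454 (.d 457 1353 329 1385 489)))
 (.a 1 [454] (.r 393 392 395 (.r 361 3371 299 (.d 457 1353 329 1385 489)))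
 (.a 0 [361] (.r 393 392 395 (.q 327 (.a 1 [] (.d 360 2342 294 2375 459)
 (.a 1 [294] (.r 391 390 390 (.d 359 1319 295 1351 455))
 .e))))
 .e)))))
 .e)))
 .e)))
 .e))))
 .e)))) (by decide +kernel)

theorem b0_1639 : S (PX [368,467] [302,398,401,434,500]) := S.of (.q 330 (.a 1 [] (.d 297 2312 264 2345 429)
 (.a 1 [264] (.d 429 2345 297 2378 462)
 (.a 0 [297,429] (.q 362 (.a 1 [] (.d 298 1290 266 1322 426)
 (.a 1 [266] (.d 426 1322 298 1354 458)
 (.a 0 [298,426] (.q 364 (.a 1 [] (.d 361 360 360 361 365)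
 (.a 1 [360] (.d 365 361 361 362 366)
 (.a 0 [361,365] (.q 332 (.a 1 [] (.d 300 1292 268 1324 428)
 (.a 1 [268] (.d 428 1324 300 1356 460)
 (.a 1 [300] (.d 301 3342 270 3373 425)
 .e))))
 .e))))
 .e))))
 .e)))) (by decide +kernel)

theorem b0_1640 : S (PX [368,467] [302,399,401,434,500]) := S.of (.q 330 (.a 1 [] (.d 297 2312 264 2345 429)
 (.a 1 [264] (.d 429 2345 297 2378 462)
 (.a 0 [297,429] (.q 362 (.a 1 [] (.d 298 1290 266 1322 426)
 (.a 1 [266] (.d 426 1322 298 1354 458)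
 (.a 0 [298,426] (.q 364 (.a 1 [] (.d 361 360 360 361 365)
 (.a 1 [360] (.d 365 361 361 362 366)
 (.a 0 [361,365] (.q 332 (.a 1 [] (.d 300 1292 268 1324 428)
 (.a 1 [268] (.d 428 1324 300 1356 460)
 (.a 1 [300] (.d 301 3342 270 3373 425)
 .e))))
 .e))))
 .e))))
 .e)))) (by decide +kernel)

theorem b0_1641 : S (PX [368,467] [302,400,401,434,500]) := S.of (.q 330 (.a 1 [] (.d 297 2312 264 2345 429)
 (.a 1 [264] (.d 429 2345 297 2378 462)
 (.a 0 [297,429] (.q 362 (.a 1 [] (.d 298 1290 266 1322 426)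
 (.a 1 [266] (.d 426 1322 298 1354 458)
 (.a 0 [298,426] (.q 364 (.a 1 [] (.d 361 360 360 361 365)
 (.a 1 [360] (.d 365 361 361 362 366)
 (.a 0 [361,365] (.q 332 (.a 1 [] (.d 300 1292 268 1324 428)
 (.a 1 [268] (.d 428 1324 300 1356 460)
 (.a 1 [300] (.d 301 3342 270 3373 425)
 .e))))
 .e))))
 .e))))
 .e)))) (by decide +kernel)

theorem b0_1647 : S (PX [467] [400,401,434,500]) := S.of (.q 330 (.a 1 [] (.d 297 2312 264 2345 429)
 (.a 1 [264] (.d 429 2345 297 2378 462)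
 (.a 0 [297,429] (.q 362 (.a 1 [] (.d 298 1290 266 1322 426)
 (.a 1 [266] (.d 426 1322 298 1354 458)
 (.a 0 [298,426] (.q 361 (.a 1 [] (.d 360 359 359 360 364)
 (.a 1 [359] (.d 364 360 360 361 365)
 (.a 0 [360,364] (.q 427 (.a 1 [] (.d 328 2343 295 2376 460)
 (.a 1 [295] (.d 460 2376 328 2409 493)
 (.a 0 [328,460] (.q 395 (.a 1 [] (.d 393 392 392 393 397)
 (.a 1 [392] (.d 397 393 393 394 398)
 (.a 1 [393] (.d 331 1323 299 1355 459)
 .e))))
 .e))))
 .e))))
 .e))))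
 .e)))) (by decide +kernel)

theorem b0_1654 : S (PX [368,467] [298,302,401,434,533]) := S.of (.q 425 (.a 1 [] (.d 332 3373 301 3404 456)
 (.a 1 [301] (.d 456 3404 332 3435 487)
 (.a 0 [332,456] (.q 393 (.a 1 [] (.d 395 392 392 393 397)
 (.a 0 [392,395,397] (.q 361 (.a 1 [] (.d 329 1321 297 1353 457)
 (.a 1 [297] (.d 457 1353 329 1385 489)
 (.a 1 [457] (.r 297 1321 329 (.d 330 2312 264 2345 429))
 (.a 0 [329] (.q 427 (.a 1 [] (.d 328 2343 295 2376 460)
 (.a 1 [295] (.d 460 2376 328 2409 493)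
 (.a 1 [328] (.r 489 1385 457 (.d 458 3437 365 3468 520))
 .e))))
 .e)))))
 .e)))
 .e)))) (by decide +kernel)

theorem b0_1655 : S (PX [368,467] [300,302,401,434,533]) := S.of (.q 330 (.a 1 [] (.d 297 2312 264 2345 429)
 (.a 1 [264] (.d 429 2345 297 2378 462)
 (.a 0 [297,429] (.q 425 (.a 1 [] (.d 332 3373 301 3404 456)
 (.a 1 [301] (.d 456 3404 332 3435 487)
 (.a 0 [332,456] (.q 393 (.a 1 [] (.d 395 392 392 393 397)
 (.a 0 [392,395,397] (.q 361 (.a 1 [] (.d 457 1353 329 1385 489)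
 (.a 0 [329,457,489] (.q 362 (.a 1 [] (.d 360 359 359 360 364)
 (.a 1 [359] (.d 364 360 360 361 365)
 (.a 1 [360] (.d 298 1290 266 1322 426)
 .e))))
 .e)))
 .e)))
 .e))))
 .e)))) (by decide +kernel)

theorem b0_1656 : S (PX [368,467] [302,397,401,434,533]) := S.of (.q 330 (.a 1 [] (.d 297 2312 264 2345 429)
 (.a 1 [264] (.d 429 2345 297 2378 462)
 (.a 0 [297,429] (.q 425 (.a 1 [] (.d 332 3373 301 3404 456)
 (.a 1 [301] (.d 456 3404 332 3435 487)
 (.a 0 [332,456] (.q 426 (.a 1 [] (.d 362 1322 298 1354 458)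
 (.a 0 [298,362,458] (.q 423 (.a 1 [] (.d 424 422 422 423 427)
 (.a 0 [422,424,427] (.q 392 (.a 1 [] (.d 361 3371 299 3402 454)
 (.a 1 [299] (.r 393 392 395 (.r 361 3402 454 (.d 457 1353 329 1385 489)))
 (.a 1 [454] (.r 393 392 395 (.r 361 3371 299 (.d 457 1353 329 1385 489)))
 (.a 0 [361] (.r 393 392 395 (.q 327 (.a 1 [] (.d 360 2342 294 2375 459)
 (.a 1 [294] (.r 391 390 390 (.d 359 1319 295 1351 455))
 .e))))
 .e)))))
 .e)))
 .e)))
 .e))))
 .e)))) (by decide +kernel)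

theorem b0_1657 : S (PX [368,467] [302,398,401,434,533]) := S.of (.q 330 (.a 1 [] (.d 297 2312 264 2345 429)
 (.a 1 [264] (.d 429 2345 297 2378 462)
 (.a 0 [297,429] (.q 362 (.a 1 [] (.d 298 1290 266 1322 426)
 (.a 1 [266] (.d 426 1322 298 1354 458)
 (.a 0 [298,426] (.q 364 (.a 1 [] (.d 361 360 360 361 365)
 (.a 1 [360] (.d 365 361 361 362 366)
 (.a 0 [361,365] (.q 332 (.a 1 [] (.d 300 1292 268 1324 428)
 (.a 1 [268] (.d 428 1324 300 1356 460)
 (.a 1 [300] (.d 301 3342 270 3373 425)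
 .e))))
 .e))))
 .e))))
 .e)))) (by decide +kernel)

theorem b0_1658 : S (PX [368,467] [302,399,401,434,533]) := S.of (.q 330 (.a 1 [] (.d 297 2312 264 2345 429)
 (.a 1 [264] (.d 429 2345 297 2378 462)
 (.a 0 [297,429] (.q 362 (.a 1 [] (.d 298 1290 266 1322 426)
 (.a 1 [266] (.d 426 1322 298 1354 458)
 (.a 0 [298,426] (.q 364 (.a 1 [] (.d 361 360 360 361 365)
 (.a 1 [360] (.d 365 361 361 362 366)
 (.a 0 [361,365] (.q 332 (.a 1 [] (.d 300 1292 268 1324 428)
 (.a 1 [268] (.d 428 1324 300 1356 460)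
 (.a 1 [300] (.d 301 3342 270 3373 425)
 .e))))
 .e))))
 .e))))
 .e)))) (by decide +kernel)

theorem b0_1659 : S (PX [368,467] [302,400,401,434,533]) := S.of (.q 330 (.a 1 [] (.d 297 2312 264 2345 429)
 (.a 1 [264] (.d 429 2345 297 2378 462)
 (.a 0 [297,429] (.q 362 (.a 1 [] (.d 298 1290 266 1322 426)
 (.a 1 [266] (.d 426 1322 298 1354 458)
 (.a 0 [298,426] (.q 364 (.a 1 [] (.d 361 360 360 361 365)
 (.a 1 [360] (.d 365 361 361 362 366)
 (.a 0 [361,365] (.q 332 (.a 1 [] (.d 300 1292 268 1324 428)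
 (.a 1 [268] (.d 428 1324 300 1356 460)
 (.a 1 [300] (.d 301 3342 270 3373 425)
 .e))))
 .e))))
 .e))))
 .e)))) (by decide +kernel)

theorem b0_1666 : S (PX [335,467] [368,400,401,434,533]) := S.of (.q 332 (.a 1 [] (.d 301 3342 270 3373 425)
 (.a 1 [270] (.d 425 3373 301 3404 456)
 (.a 0 [301,425] (.q 330 (.a 1 [] (.d 297 2312 264 2345 429)
 (.a 1 [264] (.d 429 2345 297 2378 462)
 (.a 0 [297,429] (.q 428 (.a 1 [] (.d 364 1324 300 1356 460)
 (.a 0 [300,364,460] (.q 298 (.a 1 [] (.d 362 1290 266 1322 426)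
 (.a 0 [266,362,426] (.q 397 (.a 1 [] (.d 395 393 393 394 398)
 (.a 1 [393] (.d 366 3376 304 3407 459)
 .e)))
 .e)))
 .e)))
 .e))))
 .e)))) (by decide +kernel)

theorem b0_1667 : S (PX [467] [400,401,434,533]) := S.of (.q 330 (.a 1 [] (.d 297 2312 264 2345 429)
 (.a 1 [264] (.d 429 2345 297 2378 462)
 (.a 0 [297,429] (.q 362 (.a 1 [] (.d 298 1290 266 1322 426)
 (.a 1 [266] (.d 426 1322 298 1354 458)
 (.a 0 [298,426] (.q 361 (.a 1 [] (.d 360 359 359 360 364)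
 (.a 1 [359] (.d 364 360 360 361 365)
 (.a 0 [360,364] (.q 427 (.a 1 [] (.d 328 2343 295 2376 460)
 (.a 1 [295] (.d 460 2376 328 2409 493)
 (.a 0 [328,460] (.q 395 (.a 1 [] (.d 393 392 392 393 397)
 (.a 1 [392] (.d 397 393 393 394 398)
 (.a 1 [393] (.d 331 1323 299 1355 459)
 .e))))
 .e))))
 .e))))
 .e))))
 .e)))) (by decide +kernel)

theorem b0_1688 : S (PX [] [297,430,434]) := S.of (.q 395 (.a 1 [] (.d 393 392 392 393 397)
 (.a 1 [392] (.d 397 393 393 394 398)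
 (.a 0 [393] (.q 427 (.a 1 [] (.d 331 1323 299 1355 459)
 (.a 1 [299] (.d 459 1355 331 1387 491)
 (.a 0 [331,459] (.q 361 (.a 1 [] (.d 328 2343 295 2376 460)
 (.a 1 [295] (.d 460 2376 328 2409 493)
 (.a 0 [328,460] (.q 458 (.a 1 [] (.d 365 3406 334 3437 489)
 (.a 1 [334] (.d 489 3437 365 3468 520)
 (.a 1 [489] (.r 365 3406 334 (.r 362 361 364 (.d 426 1354 330 1386 490)))
 (.a 0 [365] (.q 362 (.a 1 [] (.d 360 359 359 360 364)
 (.a 1 [359] (.d 426 1354 330 1386 490)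
 .e)))
 .e)))))
 .e))))
 .e))))
 (.a 0 [397] (.q 331 (.a 1 [] (.d 299 1291 267 1323 427)
 (.a 1 [267] (.d 427 1323 299 1355 459)
 (.a 0 [299,427] (.q 332 (.a 1 [] (.d 301 3342 270 3373 425)
 (.a 1 [270] (.d 425 3373 301 3404 456)
 (.a 0 [301,425] (.q 300 (.a 1 [] (.d 364 1292 268 1324 428)
 (.a 1 [268] (.r 393 392 392 (.d 362 3341 269 3372 424))
 .e)))
 .e))))
 .e))))
 .e))))) (by decide +kernel)

theorem b0_1689 : S (PX [] [330,430,434]) := S.of (.q 332 (.a 1 [] (.d 301 3342 270 3373 425)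
 (.a 1 [270] (.d 425 3373 301 3404 456)
 (.a 0 [301,425] (.q 364 (.a 1 [] (.d 300 1292 268 1324 428)
 (.a 1 [268] (.d 428 1324 300 1356 460)
 (.a 0 [300,428] (.q 365 (.a 1 [] (.d 362 361 361 362 366)
 (.a 1 [361] (.d 366 362 362 363 367)
 (.a 0 [362,366] (.q 427 (.a 1 [] (.d 334 3375 303 3406 458)
 (.a 1 [303] (.d 458 3406 334 3437 489)
 (.a 0 [334,458] (.q 398 (.a 1 [] (.d 299 2314 266 2347 431)
 (.a 1 [266] (.d 431 2347 299 2380 464)
 (.a 1 [299] (.r 395 394 397 (.d 459 1355 331 1387 491))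
 .e))))
 .e))))
 .e))))
 .e))))
 .e)))) (by decide +kernel)

theorem b0_1690 : S (PX [] [332,430,434]) := S.of (.q 395 (.a 1 [] (.d 393 392 392 393 397)
 (.a 1 [392] (.d 397 393 393 394 398)
 (.a 0 [393,397] (.q 330 (.a 1 [] (.d 297 2312 264 2345 429)
 (.a 1 [264] (.d 429 2345 297 2378 462)
 (.a 0 [297] (.q 426 (.a 1 [] (.d 362 1322 298 1354 458)
 (.a 0 [298,362,458] (.q 364 (.a 1 [] (.d 333 3374 302 3405 457)
 (.a 1 [302] (.d 457 3405 333 3436 488)
 (.a 0 [333,457] (.q 427 (.a 1 [] (.d 331 1323 299 1355 459)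
 (.a 1 [299] (.d 459 1355 331 1387 491)
 (.a 1 [331] (.r 429 2378 462 (.r 428 425 425 (.r 460 1388 492 (.d 493 2409 361 2442 526))))
 .e))))
 .e))))
 .e)))
 (.a 0 [429] (.q 362 (.a 1 [] (.d 298 1290 266 1322 426)
 (.a 1 [266] (.d 426 1322 298 1354 458)
 (.a 0 [298] (.q 364 (.a 1 [] (.d 361 360 360 361 365)
 (.a 1 [360] (.d 365 361 361 362 366)
 (.a 1 [361] (.r 426 1354 458 (.d 457 3405 333 3436 488))
 .e))))
 (.a 0 [426] (.q 427 (.a 1 [] (.d 331 1323 299 1355 459)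
 (.a 1 [299] (.d 459 1355 331 1387 491)
 (.a 0 [331] (.q 364 (.a 1 [] (.d 361 360 360 361 365)
 (.a 1 [360] (.d 365 361 361 362 366)
 (.a 1 [361] (.r 365 362 366 (.d 458 3406 334 3437 489))
 (.a 1 [365] (.r 361 360 360 (.d 460 2376 328 2409 493))
 .e)))))
 (.a 0 [459] (.r 299 1323 331 (.r 298 1290 266 (.r 297 2312 264 (.d 300 296 296 297 301))))
 .e)))))
 .e)))))
 .e)))))
 .e)))) (by decide +kernel)

theorem b0_1691 : S (PX [] [361,430,434]) := S.of (.q 332 (.a 1 [] (.d 301 3342 270 3373 425)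
 (.a 1 [270] (.d 425 3373 301 3404 456)
 (.a 0 [301,425] (.q 364 (.a 1 [] (.d 300 1292 268 1324 428)
 (.a 1 [268] (.d 428 1324 300 1356 460)
 (.a 0 [300,428] (.q 429 (.a 1 [] (.d 330 2345 297 2378 462)
 (.a 1 [297] (.d 462 2378 330 2411 495)
 (.a 0 [330,462] (.q 365 (.a 1 [] (.d 366 362 362 363 367)
 (.a 0 [362,366,367] (.q 398 (.a 1 [] (.d 299 2314 266 2347 431)
 (.a 1 [266] (.d 431 2347 299 2380 464)
 (.a 1 [299] (.r 397 394 395 (.d 461 1357 333 1389 493))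
 .e))))
 .e)))
 .e))))
 .e))))
 .e)))) (by decide +kernel)

theorem b0_1692 : S (PX [] [364,430,434]) := S.of (.q 330 (.a 1 [] (.d 297 2312 264 2345 429)
 (.a 1 [264] (.d 429 2345 297 2378 462)
 (.a 0 [297] (.q 425 (.a 1 [] (.d 332 3373 301 3404 456)
 (.a 1 [301] (.d 456 3404 332 3435 487)
 (.a 0 [332,456] (.q 426 (.a 1 [] (.d 362 1322 298 1354 458)
 (.a 1 [298] (.r 458 1354 362 (.r 429 2378 462 (.r 427 425 428 (.d 489 3437 365 3468 520))))
 (.a 0 [362,458] (.q 395 (.a 1 [] (.d 393 392 392 393 397)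
 (.a 1 [392] (.d 397 393 393 394 398)
 (.a 1 [393] (.r 429 2378 462 (.r 427 425 428 (.d 459 1355 331 1387 491)))
 .e))))
 .e))))
 .e))))
 (.a 0 [429] (.q 425 (.a 1 [] (.d 332 3373 301 3404 456)
 (.a 1 [301] (.d 456 3404 332 3435 487)
 (.a 0 [332,456] (.q 393 (.a 1 [] (.d 395 392 392 393 397)
 (.a 1 [397] (.r 392 392 395 (.r 297 2312 264 (.r 361 1321 329 (.d 423 3371 299 3402 454))))
 (.a 0 [392,395] (.q 426 (.a 1 [] (.d 362 1322 298 1354 458)
 (.a 1 [298] (.r 458 1354 362 (.r 297 2312 264 (.r 361 1321 329 (.r 489 1385 457 (.d 427 3437 365 3468 520)))))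
 (.a 1 [458] (.r 297 2312 264 (.r 361 1321 329 (.r 362 1322 298 (.r 360 359 359 (.d 459 2375 327 2408 492)))))
 (.a 0 [362] (.q 327 (.a 1 [] (.d 360 2342 294 2375 459)
 (.a 1 [294] (.r 297 2312 264 (.r 329 1321 361 (.d 328 326 326 327 331)))
 .e)))
 .e)))))
 .e))))
 .e))))
 .e))))) (by decide +kernel)

theorem b0_1693 : S (PX [] [365,430,434]) := S.of (.q 395 (.a 1 [] (.d 393 392 392 393 397)
 (.a 1 [392] (.d 397 393 393 394 398)
 (.a 0 [393,397] (.q 331 (.a 1 [] (.d 299 1291 267 1323 427)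
 (.a 1 [267] (.d 427 1323 299 1355 459)
 (.a 0 [299,427] (.q 332 (.a 1 [] (.d 301 3342 270 3373 425)
 (.a 1 [270] (.d 425 3373 301 3404 456)
 (.a 0 [301,425] (.q 333 (.a 1 [] (.d 330 329 329 330 334)
 (.a 1 [329] (.d 334 330 330 331 335)
 (.a 1 [334] (.r 330 329 329 (.d 429 2345 297 2378 462))
 (.a 0 [330] (.q 364 (.a 1 [] (.d 300 1292 268 1324 428)
 (.a 1 [268] (.d 428 1324 300 1356 460)
 (.a 1 [300] (.d 302 3343 271 3374 426)
 .e))))
 .e)))))
 .e))))
 .e))))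
 .e)))) (by decide +kernel)

theorem b0_1694 : S (PX [] [397,430,434]) := S.of (.q 330 (.a 1 [] (.d 297 2312 264 2345 429)
 (.a 1 [264] (.d 429 2345 297 2378 462)
 (.a 0 [297] (.q 362 (.a 1 [] (.d 298 1290 266 1322 426)
 (.a 1 [266] (.d 426 1322 298 1354 458)
 (.a 0 [298,426] (.q 364 (.a 1 [] (.d 361 360 360 361 365)
 (.a 1 [360] (.d 365 361 361 362 366)
 (.a 0 [361,365] (.q 332 (.a 1 [] (.d 300 1292 268 1324 428)
 (.a 1 [268] (.d 428 1324 300 1356 460)
 (.a 1 [300] (.d 301 3342 270 3373 425)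
 .e))))
 .e))))
 .e))))
 (.a 0 [429] (.q 425 (.a 1 [] (.d 332 3373 301 3404 456)
 (.a 1 [301] (.d 456 3404 332 3435 487)
 (.a 0 [332,456] (.r 297 2312 264 (.q 361 (.a 1 [] (.r 393 1321 329 (.r 392 392 395 (.d 423 3371 299 3402 454)))
 (.a 1 [454] (.r 393 1321 329 (.r 392 392 395 (.d 299 3340 268 3371 423)))
 (.a 0 [299,329,392,393,395,423] (.q 362 (.a 1 [] (.d 360 359 359 360 364)
 (.a 1 [359] (.d 364 360 360 361 365)
 (.a 1 [360] (.d 298 1290 266 1322 426)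
 .e))))
 .e)))))
 .e))))
 .e))))) (by decide +kernel)

theorem b0_1695 : S (PX [] [424,430,434]) := S.of (.q 395 (.a 1 [] (.d 393 392 392 393 397)
 (.a 1 [392] (.d 397 393 393 394 398)
 (.a 0 [393,397] (.q 429 (.a 1 [] (.d 330 2345 297 2378 462)
 (.a 1 [297] (.d 462 2378 330 2411 495)
 (.a 0 [330,462] (.q 332 (.a 1 [] (.d 301 3342 270 3373 425)
 (.a 1 [270] (.d 425 3373 301 3404 456)
 (.a 0 [301] (.q 427 (.a 1 [] (.d 331 1323 299 1355 459)
 (.a 1 [299] (.d 459 1355 331 1387 491)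
 (.a 1 [331] (.r 425 3404 456 (.r 428 425 426 (.d 364 1324 300 1356 460)))
 .e))))
 (.a 0 [425] (.q 364 (.a 1 [] (.d 300 1292 268 1324 428)
 (.a 1 [268] (.d 428 1324 300 1356 460)
 (.a 0 [300] (.q 362 (.a 1 [] (.d 361 360 360 361 365)
 (.a 1 [360] (.d 365 361 361 362 366)
 (.a 1 [361] (.r 428 1356 460 (.d 461 2377 329 2410 494))
 .e))))
 (.a 0 [428] (.q 427 (.a 1 [] (.d 331 1323 299 1355 459)
 (.a 1 [299] (.d 459 1355 331 1387 491)
 (.a 0 [331] (.q 362 (.a 1 [] (.d 361 360 360 361 365)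
 (.a 1 [360] (.d 365 361 361 362 366)
 (.a 1 [361] (.r 365 362 366 (.d 458 3406 334 3437 489))
 (.a 1 [365] (.r 361 360 360 (.d 460 2376 328 2409 493))
 .e)))))
 (.a 0 [459] (.r 299 1323 331 (.r 300 1292 268 (.r 301 3342 270 (.d 302 298 298 299 303))))
 .e)))))
 .e)))))
 .e)))))
 .e))))
 .e)))) (by decide +kernel)

theorem b0_1696 : S (PX [] [425,430,434]) := S.of (.q 395 (.a 1 [] (.d 393 392 392 393 397)
 (.a 1 [392] (.d 397 393 393 394 398)
 (.a 0 [393] (.q 427 (.a 1 [] (.d 331 1323 299 1355 459)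
 (.a 1 [299] (.d 459 1355 331 1387 491)
 (.a 0 [331,459] (.q 361 (.a 1 [] (.d 328 2343 295 2376 460)
 (.a 1 [295] (.d 460 2376 328 2409 493)
 (.a 0 [328,460] (.q 330 (.a 1 [] (.d 297 2312 264 2345 429)
 (.a 1 [264] (.d 429 2345 297 2378 462)
 (.a 0 [297,429] (.q 362 (.a 1 [] (.d 360 359 359 360 364)
 (.a 1 [359] (.d 364 360 360 361 365)
 (.a 1 [360] (.d 298 1290 266 1322 426)
 .e))))
 .e))))
 .e))))
 .e))))
 (.a 0 [397] (.q 330 (.a 1 [] (.d 297 2312 264 2345 429)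
 (.a 1 [264] (.d 429 2345 297 2378 462)
 (.a 0 [297,429] (.q 299 (.a 1 [] (.d 331 1291 267 1323 427)
 (.a 1 [267] (.r 427 1323 331 (.r 392 392 393 (.d 361 3340 268 3371 423)))
 (.a 1 [331] (.r 392 392 393 (.d 361 3340 268 3371 423))
 .e))))
 .e))))
 .e))))) (by decide +kernel)

theorem b0_1697 : S (PX [] [427,430,434]) := S.of (.q 429 (.a 1 [] (.d 330 2345 297 2378 462)
 (.a 1 [297] (.d 462 2378 330 2411 495)
 (.a 0 [330,462] (.q 332 (.a 1 [] (.d 301 3342 270 3373 425)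
 (.a 1 [270] (.d 425 3373 301 3404 456)
 (.a 0 [301] (.q 364 (.a 1 [] (.d 300 1292 268 1324 428)
 (.a 1 [268] (.d 428 1324 300 1356 460)
 (.a 0 [300,428] (.q 365 (.a 1 [] (.d 362 361 361 362 366)
 (.a 1 [361] (.d 366 362 362 363 367)
 (.a 0 [362,366] (.q 398 (.a 1 [] (.d 299 2314 266 2347 431)
 (.a 1 [266] (.d 431 2347 299 2380 464)
 (.a 1 [299] (.r 397 394 395 (.d 461 1357 333 1389 493))
 .e))))
 .e))))
 .e))))
 (.a 0 [425] (.r 301 3342 270 (.q 395 (.a 1 [] (.d 393 392 392 393 397)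
 (.a 1 [392] (.d 397 393 393 394 398)
 (.a 0 [393,397] (.q 364 (.a 1 [] (.d 300 1292 268 1324 428)
 (.a 1 [268] (.d 428 1324 300 1356 460)
 (.a 0 [300] (.q 362 (.a 1 [] (.d 361 360 360 361 365)
 (.a 1 [360] (.d 365 361 361 362 366)
 (.a 1 [361] (.r 428 1356 460 (.d 461 2377 329 2410 494))
 .e))))
 (.a 0 [428] (.r 300 1292 268 (.q 426 (.a 1 [] (.d 333 3374 302 3405 457)
 (.a 1 [302] (.d 457 3405 333 3436 488)
 (.a 1 [457] (.r 302 3374 333 (.d 303 299 299 300 304))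
 (.a 0 [333] (.q 299 (.a 1 [] (.d 298 297 297 298 302)
 (.a 1 [297] (.d 302 298 298 299 303)
 (.a 0 [298,302] (.q 365 (.a 1 [] (.d 362 361 361 362 366)
 (.a 1 [361] (.d 366 362 362 363 367)
 (.a 1 [362] (.d 266 2281 233 2314 398)
 .e))))
 .e))))
 .e))))))
 .e)))))
 .e)))))
 .e)))))
 .e)))) (by decide +kernel)

theorem b0_1698 : S (PX [] [428,430,434]) := S.of (.q 429 (.a 1 [] (.d 330 2345 297 2378 462)
 (.a 1 [297] (.d 462 2378 330 2411 495)
 (.a 0 [330,462] (.q 395 (.a 1 [] (.d 393 392 392 393 397)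
 (.a 1 [392] (.d 397 393 393 394 398)
 (.a 0 [393] (.q 427 (.a 1 [] (.d 331 1323 299 1355 459)
 (.a 1 [299] (.d 459 1355 331 1387 491)
 (.a 0 [331,459] (.q 460 (.a 1 [] (.d 361 2376 328 2409 493)
 (.a 1 [328] (.d 493 2409 361 2442 526)
 (.a 1 [361] (.r 398 394 397 (.d 491 3439 367 3470 522))
 .e))))
 .e))))
 (.a 0 [397] (.q 425 (.a 1 [] (.d 332 3373 301 3404 456)
 (.a 1 [301] (.d 456 3404 332 3435 487)
 (.a 0 [332,456] (.q 491 (.a 1 [] (.r 427 1387 459 (.r 392 392 393 (.d 458 2407 359 2440 524)))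
 (.a 1 [335] (.r 392 392 393 (.d 458 2407 359 2440 524))
 (.a 1 [359] (.r 427 1387 459 (.r 392 392 393 (.r 458 2440 524 (.d 489 3437 365 3468 520))))
 (.a 1 [366] (.r 392 392 393 (.d 458 2407 359 2440 524))
 (.a 1 [459] (.r 392 392 393 (.d 458 2407 359 2440 524))
 (.a 1 [524] (.r 427 1387 459 (.r 392 392 393 (.r 458 2407 359 (.d 489 3437 365 3468 520))))
 (.a 0 [392,393,458] (.q 460 (.a 1 [] (.d 398 3439 367 3470 522)
 (.a 1 [367] (.d 522 3470 398 3501 553)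
 (.a 1 [398] (.r 427 1387 459 (.d 493 2409 361 2442 526))
 .e))))
 .e))))))))
 .e))))
 .e)))))
 .e)))) (by decide +kernel)

theorem b0_1699 : S (PX [] [430,431,434]) := S.of (.q 425 (.a 1 [] (.d 332 3373 301 3404 456)
 (.a 0 [332] (.q 395 (.a 1 [] (.d 393 392 392 393 397)
 (.a 0 [393] (.q 427 (.a 1 [] (.d 331 1323 299 1355 459)
 (.a 1 [331] (.q 429 (.a 1 [] (.d 330 2345 297 2378 462)
 (.a 1 [433] (.q 432 (.a 1 [] (.d 462 2378 330 2411 495)
 (.a 1 [330] (.r 426 425 428 (.r 398 394 397 (.r 491 1387 459 (.d 460 3439 367 3470 522))))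
 .e)))
 (.a 1 [432] (.q 433 (.a 1 [] (.d 462 2378 330 2411 495)
 (.a 1 [330] (.r 426 425 428 (.r 398 394 397 (.r 491 1387 459 (.d 460 3439 367 3470 522))))
 .e)))
 (.a 1 [330] (.r 426 425 428 (.r 398 394 397 (.r 491 1387 459 (.d 460 3439 367 3470 522))))
 .e)))))
 (.a 0 [459] (.q 429 (.a 1 [] (.d 330 2345 297 2378 462)
 (.a 1 [330] (.r 397 394 398 (.r 426 425 428 (.q 365 (.a 1 [] (.d 333 1325 301 1357 461)
 (.a 1 [433] (.q 432 (.a 1 [] (.d 334 3375 303 3406 458)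
 (.a 1 [303] (.d 458 3406 334 3437 489)
 (.a 1 [334] (.d 333 1325 301 1357 461)
 .e))))
 (.a 1 [432] (.q 433 (.a 1 [] (.d 333 1325 301 1357 461)
 (.a 1 [333] (.d 334 3375 303 3406 458)
 .e)))
 (.a 1 [333] (.d 334 3375 303 3406 458)
 .e)))))))
 (.a 1 [433] (.q 432 (.a 1 [] (.d 462 2378 330 2411 495)
 (.a 1 [462] (.r 426 425 428 (.r 330 2345 297 (.d 362 1322 298 1354 458)))
 (.a 1 [330] (.q 365 (.a 1 [] (.d 334 3375 303 3406 458)
 (.a 1 [303] (.d 458 3406 334 3437 489)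
 (.a 1 [334] (.r 397 394 398 (.d 461 1357 333 1389 493))
 .e))))
 .e))))
 (.a 1 [432] (.q 433 (.a 1 [] (.d 462 2378 330 2411 495)
 (.a 1 [462] (.r 426 425 428 (.r 330 2345 297 (.d 362 1322 298 1354 458)))
 (.a 1 [330] (.q 365 (.a 1 [] (.d 334 3375 303 3406 458)
 (.a 1 [303] (.d 458 3406 334 3437 489)
 (.a 1 [334] (.r 397 394 398 (.d 461 1357 333 1389 493))
 .e))))
 .e))))
 (.a 1 [462] (.r 426 425 428 (.r 330 2345 297 (.d 362 1322 298 1354 458)))
 (.a 1 [297] (.d 462 2378 330 2411 495)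
 .e)))))))
 (.a 1 [432] (.q 433 (.a 1 [] (.d 331 1323 299 1355 459)
 (.a 1 [331] (.q 428 (.a 1 [] (.d 426 424 424 425 429)
 (.a 1 [424] (.r 429 425 426 (.d 330 2345 297 2378 462))
 (.a 0 [426,429] (.q 460 (.a 1 [] (.d 492 1388 364 1420 524)
 (.a 1 [364] (.d 493 2409 361 2442 526)
 .e)))
 .e))))
 (.a 1 [459] (.q 429 (.a 1 [] (.d 330 2345 297 2378 462)
 (.a 1 [297] (.d 462 2378 330 2411 495)
 (.a 1 [462] (.r 426 425 428 (.r 330 2345 297 (.d 362 1322 298 1354 458)))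
 (.a 0 [330] (.q 365 (.a 1 [] (.d 334 3375 303 3406 458)
 (.a 1 [303] (.d 458 3406 334 3437 489)
 (.a 1 [334] (.r 397 394 398 (.d 461 1357 333 1389 493))
 .e))))
 .e)))))
 (.a 1 [429] (.q 428 (.a 1 [] (.d 331 1323 299 1355 459)
 (.a 1 [299] (.d 459 1355 331 1387 491)
 (.a 0 [331,459] (.q 460 (.a 1 [] (.d 492 1388 364 1420 524)
 (.a 1 [364] (.d 493 2409 361 2442 526)
 .e)))
 .e))))
 (.a 1 [299] (.d 459 1355 331 1387 491)
 (.a 1 [428] (.q 429 (.a 1 [] (.d 459 1355 331 1387 491)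
 (.a 1 [331] (.d 330 2345 297 2378 462)
 .e)))
 .e)))))))
 (.a 1 [433] (.q 432 (.a 1 [] (.d 459 1355 331 1387 491)
 (.a 1 [331] (.q 458 (.a 1 [] (.d 365 3406 334 3437 489)
 (.a 1 [334] (.d 489 3437 365 3468 520)
 (.a 1 [365] (.r 491 1387 459 (.d 524 2440 392 2473 557))
 .e))))
 (.a 1 [459] (.q 426 (.a 1 [] (.d 424 423 423 424 428)
 (.a 1 [423] (.d 428 424 424 425 429)
 (.a 1 [424] (.r 429 425 428 (.d 330 2345 297 2378 462))
 (.a 0 [428] (.q 458 (.a 1 [] (.d 362 1354 330 1386 490)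
 (.a 1 [330] (.d 490 1386 362 1418 522)
 (.a 1 [362] (.d 365 3406 334 3437 489)
 .e))))
 .e)))))
 .e))))
 (.a 1 [299] (.d 459 1355 331 1387 491)
 .e)))))))
 (.a 0 [397] (.q 427 (.a 1 [] (.d 331 1323 299 1355 459)
 (.a 0 [459] (.q 429 (.a 1 [] (.d 330 2345 297 2378 462)
 (.a 1 [433] (.q 432 (.a 1 [] (.d 462 2378 330 2411 495)
 (.a 1 [462] (.r 426 425 428 (.r 330 2345 297 (.d 362 1322 298 1354 458)))
 (.a 1 [330] (.q 460 (.a 1 [] (.d 361 2376 328 2409 493)
 (.a 1 [328] (.d 493 2409 361 2442 526)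
 (.a 1 [361] (.r 428 425 426 (.d 492 1388 364 1420 524))
 .e))))
 .e))))
 (.a 1 [432] (.q 433 (.a 1 [] (.d 462 2378 330 2411 495)
 (.a 1 [462] (.r 426 425 428 (.r 330 2345 297 (.d 362 1322 298 1354 458)))
 (.a 1 [330] (.q 460 (.a 1 [] (.d 361 2376 328 2409 493)
 (.a 1 [328] (.d 493 2409 361 2442 526)
 (.a 1 [361] (.r 428 425 426 (.d 492 1388 364 1420 524))
 .e))))
 .e))))
 (.a 1 [462] (.r 426 425 428 (.r 330 2345 297 (.d 362 1322 298 1354 458)))
 (.a 1 [330] (.r 426 425 428 (.r 392 392 393 (.r 424 423 423 (.r 456 3435 487 (.d 488 1384 360 1416 520)))))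
 .e))))))
 (.a 1 [432] (.q 433 (.a 1 [] (.d 331 1323 299 1355 459)
 (.a 1 [331] (.r 392 392 393 (.r 491 1387 459 (.d 458 2407 359 2440 524)))
 (.a 1 [459] (.q 429 (.a 1 [] (.d 330 2345 297 2378 462)
 (.a 1 [297] (.d 462 2378 330 2411 495)
 (.a 1 [462] (.r 426 425 428 (.r 330 2345 297 (.d 362 1322 298 1354 458)))
 (.a 0 [330] (.q 458 (.a 1 [] (.d 365 3406 334 3437 489)
 (.a 1 [334] (.d 489 3437 365 3468 520)
 (.a 1 [365] (.r 426 425 428 (.d 490 1386 362 1418 522))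
 .e))))
 .e)))))
 (.a 1 [429] (.q 428 (.a 1 [] (.d 331 1323 299 1355 459)
 (.a 1 [299] (.d 459 1355 331 1387 491)
 (.a 0 [331,459] (.q 364 (.a 1 [] (.r 426 424 424 (.d 457 3405 333 3436 488))
 (.a 1 [333] (.r 460 1388 492 (.d 493 2409 361 2442 526))
 .e)))
 .e))))
 (.a 1 [428] (.q 429 (.a 1 [] (.d 331 1323 299 1355 459)
 (.a 1 [299] (.d 459 1355 331 1387 491)
 (.a 1 [331] (.d 330 2345 297 2378 462)
 .e))))
 .e))))))
 (.a 1 [433] (.q 432 (.a 1 [] (.d 331 1323 299 1355 459)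
 (.a 1 [331] (.r 392 392 393 (.r 491 1387 459 (.d 458 2407 359 2440 524)))
 (.a 1 [459] (.q 458 (.a 1 [] (.d 365 3406 334 3437 489)
 (.a 1 [334] (.d 489 3437 365 3468 520)
 (.a 1 [365] (.r 392 392 393 (.d 491 2407 359 2440 524))
 .e))))
 .e))))
 (.a 1 [331] (.r 392 392 393 (.r 491 1387 459 (.d 458 2407 359 2440 524)))
 .e))))))
 (.a 0 [432] (.q 433 (.a 1 [] (.d 397 393 393 394 398)
 (.a 1 [429] (.q 428 (.a 1 [] (.d 397 393 393 394 398)
 (.a 1 [397] (.q 329 (.a 1 [] (.d 362 2344 296 2377 461)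
 (.a 1 [296] (.r 393 392 392 (.d 361 1321 297 1353 457))
 .e)))
 (.a 1 [393] (.q 459 (.a 1 [] (.d 427 1355 331 1387 491)
 (.a 1 [331] (.r 397 394 398 (.d 490 3438 366 3469 521))
 .e)))
 (.a 1 [398] (.d 393 392 392 393 397)
 .e)))))
 (.a 1 [393] (.q 429 (.a 1 [] (.d 330 2345 297 2378 462)
 (.a 1 [297] (.d 462 2378 330 2411 495)
 (.a 0 [330,462] (.r 398 394 397 (.q 427 (.a 1 [] (.d 331 1323 299 1355 459)
 (.a 1 [299] (.d 459 1355 331 1387 491)
 (.a 1 [331] (.r 491 1387 459 (.d 460 3439 367 3470 522))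
 (.a 0 [459] (.q 460 (.a 1 [] (.d 361 2376 328 2409 493)
 (.a 1 [328] (.d 493 2409 361 2442 526)
 (.a 1 [361] (.d 367 3408 336 3439 491)
 .e))))
 .e))))))
 .e))))
 (.a 1 [397] (.q 429 (.a 1 [] (.d 330 2345 297 2378 462)
 (.a 1 [297] (.d 462 2378 330 2411 495)
 (.a 0 [330,462] (.q 491 (.a 1 [] (.r 427 1387 459 (.r 392 392 393 (.d 458 2407 359 2440 524)))
 (.a 1 [359] (.r 427 1387 459 (.r 426 425 428 (.r 392 392 393 (.r 458 2440 524 (.d 490 1386 362 1418 522)))))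
 (.a 1 [427] (.r 392 392 393 (.d 458 2407 359 2440 524))
 (.a 1 [524] (.r 427 1387 459 (.r 426 425 428 (.r 392 392 393 (.r 458 2407 359 (.d 489 3437 365 3468 520)))))
 (.a 0 [392,393,458] (.q 460 (.a 1 [] (.d 398 3439 367 3470 522)
 (.a 1 [367] (.d 522 3470 398 3501 553)
 (.a 1 [398] (.r 427 1387 459 (.d 493 2409 361 2442 526))
 .e))))
 .e))))))
 .e))))
 (.a 1 [428] (.q 429 (.a 1 [] (.d 393 392 392 393 397)
 (.a 1 [392] (.d 397 393 393 394 398)
 (.a 1 [393] (.d 330 2345 297 2378 462)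
 .e))))
 (.a 1 [398] (.d 393 392 392 393 397)
 .e)))))))
 (.a 1 [433] (.q 432 (.a 1 [] (.d 393 392 392 393 397)
 (.a 1 [393] (.q 427 (.a 1 [] (.d 331 1323 299 1355 459)
 (.a 1 [299] (.d 459 1355 331 1387 491)
 (.a 0 [331,459] (.q 426 (.a 1 [] (.d 424 423 423 424 428)
 (.a 1 [423] (.d 428 424 424 425 429)
 (.a 1 [424] (.r 429 425 428 (.d 330 2345 297 2378 462))
 (.a 0 [428] (.q 458 (.a 1 [] (.d 362 1354 330 1386 490)
 (.a 1 [330] (.d 490 1386 362 1418 522)
 (.a 1 [362] (.d 365 3406 334 3437 489)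
 .e))))
 .e)))))
 .e))))
 (.a 1 [397] (.q 429 (.a 1 [] (.d 330 2345 297 2378 462)
 (.a 1 [297] (.d 462 2378 330 2411 495)
 (.a 0 [330,462] (.q 491 (.a 1 [] (.r 427 1387 459 (.r 392 392 393 (.d 458 2407 359 2440 524)))
 (.a 1 [359] (.r 427 1387 459 (.r 426 425 428 (.r 392 392 393 (.r 458 2440 524 (.d 490 1386 362 1418 522)))))
 (.a 1 [427] (.r 392 392 393 (.d 458 2407 359 2440 524))
 (.a 1 [524] (.r 427 1387 459 (.r 426 425 428 (.r 392 392 393 (.r 458 2407 359 (.d 489 3437 365 3468 520)))))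
 (.a 0 [392,393,458] (.q 460 (.a 1 [] (.d 398 3439 367 3470 522)
 (.a 1 [367] (.d 522 3470 398 3501 553)
 (.a 1 [398] (.r 427 1387 459 (.d 493 2409 361 2442 526))
 .e))))
 .e))))))
 .e))))
 .e))))
 (.a 1 [392] (.d 397 393 393 394 398)
 .e)))))))
 (.a 0 [456] (.r 332 3373 301 (.q 395 (.a 1 [] (.d 393 392 392 393 397)
 (.a 0 [393] (.q 432 (.a 1 [] (.q 427 (.a 1 [] (.d 331 1323 299 1355 459)
 (.a 1 [299] (.d 459 1355 331 1387 491)
 (.a 0 [331,459] (.q 428 (.a 1 [] (.d 426 424 424 425 429)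
 (.a 1 [424] (.d 364 1324 300 1356 460)
 .e)))
 .e))))
 (.a 1 [397] (.q 330 (.a 1 [] (.d 297 2312 264 2345 429)
 (.a 1 [429] (.q 333 (.a 1 [] (.d 331 329 329 330 334)
 (.a 1 [329] (.r 331 330 334 (.d 427 1323 299 1355 459))
 (.a 1 [334] (.r 331 329 329 (.d 427 1323 299 1355 459))
 (.a 0 [331] (.q 364 (.a 1 [] (.d 300 1292 268 1324 428)
 (.a 1 [268] (.d 428 1324 300 1356 460)
 (.a 1 [300] (.d 302 3343 271 3374 426)
 (.a 0 [428] (.q 427 (.a 1 [] (.d 426 3374 302 3405 457)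
 (.a 1 [302] (.r 426 3405 457 (.d 362 1322 298 1354 458))
 (.a 1 [426] (.r 300 1292 268 (.r 366 2348 399 (.d 365 362 362 363 367)))
 .e))))
 .e)))))
 (.a 0 [427] (.q 428 (.a 1 [] (.d 331 329 329 330 334)
 (.a 1 [329] (.d 364 1324 300 1356 460)
 .e)))
 (.a 0 [428] (.q 427 (.a 1 [] (.d 331 329 329 330 334)
 (.a 1 [329] (.d 331 1323 299 330 334)
 (.a 1 [334] (.d 459 1355 331 1387 491)
 (.a 0 [331] (.q 364 (.a 1 [] (.d 302 3343 271 3374 426)
 (.a 1 [271] (.d 426 3374 302 3405 457)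
 (.a 1 [302] (.r 426 3405 457 (.d 362 1322 298 1354 458))
 (.a 1 [426] (.r 300 1292 268 (.r 366 2348 399 (.d 365 362 362 363 367)))
 .e)))))
 .e)))))
 .e)))))))
 (.a 1 [297] (.q 331 (.a 1 [] (.d 329 328 328 329 333)
 (.a 1 [328] (.d 333 329 329 330 334)
 (.a 1 [329] (.d 299 1291 267 1323 427)
 .e))))
 .e))))
 (.a 1 [364] (.q 330 (.a 1 [] (.d 297 2312 264 2345 429)
 (.a 1 [429] (.q 362 (.a 1 [] (.d 298 1290 266 1322 426)
 (.a 1 [266] (.d 426 1322 298 1354 458)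
 (.a 0 [298] (.q 427 (.a 1 [] (.d 331 1323 299 1355 459)
 (.a 1 [299] (.d 459 1355 331 1387 491)
 (.a 1 [331] (.r 397 394 398 (.r 458 1354 426 (.d 489 3437 365 3468 520)))
 .e))))
 (.a 0 [426] (.q 428 (.a 1 [] (.d 329 2344 296 2377 461)
 (.a 1 [296] (.d 461 2377 329 2410 494)
 (.a 1 [461] (.r 329 2344 296 (.d 331 328 328 329 333))
 (.a 0 [329] (.q 459 (.a 1 [] (.d 427 1355 331 1387 491)
 (.a 1 [331] (.r 397 394 398 (.d 490 3438 366 3469 521))
 .e)))
 .e)))))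
 (.a 0 [427] (.q 428 (.a 1 [] (.d 298 1290 266 1322 426)
 (.a 1 [266] (.d 426 1322 298 1354 458)
 (.a 1 [298] (.d 329 2344 296 2377 461)
 .e))))
 (.a 0 [428] (.q 427 (.a 1 [] (.d 298 1290 266 1322 426)
 (.a 1 [266] (.d 426 1322 298 1354 458)
 (.a 1 [298] (.d 459 1355 331 1387 491)
 .e))))
 .e)))))))
 (.a 1 [297] (.q 331 (.a 1 [] (.d 329 328 328 329 333)
 (.a 1 [328] (.d 333 329 329 330 334)
 (.a 1 [329] (.d 299 1291 267 1323 427)
 .e))))
 .e))))
 (.a 1 [427] (.q 364 (.a 1 [] (.d 300 1292 268 1324 428)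
 (.a 1 [268] (.d 428 1324 300 1356 460)
 (.a 0 [300,428] (.q 429 (.a 1 [] (.d 330 2345 297 2378 462)
 (.a 1 [297] (.d 462 2378 330 2411 495)
 (.a 0 [330,462] (.q 333 (.a 1 [] (.d 302 3343 271 3374 426)
 (.a 1 [271] (.d 426 3374 302 3405 457)
 (.a 1 [302] (.r 397 394 398 (.r 365 1357 461 (.d 366 362 362 363 367)))
 .e))))
 .e))))
 .e))))
 (.a 1 [331] (.q 429 (.a 1 [] (.d 330 2345 297 2378 462)
 (.a 1 [297] (.d 462 2378 330 2411 495)
 (.a 0 [330,462] (.q 364 (.a 1 [] (.d 300 1292 268 1324 428)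
 (.a 1 [268] (.d 428 1324 300 1356 460)
 (.a 1 [300] (.r 428 1356 460 (.r 426 425 427 (.d 457 3405 333 3436 488)))
 (.a 0 [428] (.q 333 (.a 1 [] (.d 302 3343 271 3374 426)
 (.a 1 [271] (.d 426 3374 302 3405 457)
 (.a 1 [302] (.r 300 1292 268 (.r 366 2348 399 (.d 365 362 362 363 367)))
 .e))))
 .e)))))
 .e))))
 (.a 1 [428] (.q 427 (.a 1 [] (.d 331 1323 299 1355 459)
 (.a 1 [299] (.d 459 1355 331 1387 491)
 (.a 0 [331,459] (.q 458 (.a 1 [] (.d 365 3406 334 3437 489)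
 (.a 1 [334] (.d 489 3437 365 3468 520)
 (.a 0 [365,489] (.q 429 (.a 1 [] (.d 330 2345 297 2378 462)
 (.a 1 [297] (.d 462 2378 330 2411 495)
 (.a 0 [330,462] (.q 460 (.a 1 [] (.d 361 2376 328 2409 493)
 (.a 1 [328] (.d 493 2409 361 2442 526)
 (.a 1 [361] (.r 398 394 397 (.d 491 3439 367 3470 522))
 .e))))
 .e))))
 .e))))
 .e))))
 (.a 1 [429] (.q 427 (.a 1 [] (.d 331 1323 299 1355 459)
 (.a 1 [299] (.d 459 1355 331 1387 491)
 (.a 0 [331,459] (.q 364 (.a 1 [] (.d 300 1292 268 1324 428)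
 (.a 1 [268] (.d 428 1324 300 1356 460)
 (.a 1 [300] (.r 460 1356 428 (.d 493 2409 361 2442 526))
 (.a 0 [428] (.q 365 (.a 1 [] (.d 362 361 361 362 366)
 (.a 1 [361] (.d 366 362 362 363 367)
 (.a 1 [362] (.d 334 3375 303 3406 458)
 .e))))
 .e)))))
 .e))))
 (.a 1 [300] (.q 429 (.a 1 [] (.d 330 2345 297 2378 462)
 (.a 1 [297] (.d 462 2378 330 2411 495)
 (.a 0 [330,462] (.q 427 (.a 1 [] (.d 331 1323 299 1355 459)
 (.a 1 [299] (.d 459 1355 331 1387 491)
 (.a 1 [331] (.r 428 425 426 (.r 460 1356 364 (.d 493 2409 361 2442 526)))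
 .e))))
 .e))))
 (.a 1 [299] (.q 427 (.a 1 [] (.d 459 1355 331 1387 491)
 (.a 0 [331,459,491] (.q 460 (.a 1 [] (.d 361 2376 328 2409 493)
 (.a 1 [328] (.d 493 2409 361 2442 526)
 (.a 1 [361] (.r 428 1356 364 (.d 426 424 424 425 429))
 .e))))
 .e)))
 (.a 1 [426] (.q 364 (.a 1 [] (.d 300 1292 268 1324 428)
 (.a 1 [268] (.d 428 1324 300 1356 460)
 (.a 0 [300,428] (.q 429 (.a 1 [] (.d 330 2345 297 2378 462)
 (.a 1 [297] (.d 462 2378 330 2411 495)
 (.a 0 [330,462] (.q 365 (.a 1 [] (.d 362 361 361 362 366)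
 (.a 1 [361] (.d 366 362 362 363 367)
 (.a 1 [362] (.r 398 394 397 (.r 367 363 366 (.d 460 3408 336 3439 491)))
 (.a 1 [366] (.r 398 394 397 (.r 299 2314 266 (.d 331 1291 267 1323 427)))
 .e)))))
 .e))))
 .e))))
 (.a 1 [459] (.q 364 (.a 1 [] (.d 300 1292 268 1324 428)
 (.a 1 [268] (.d 428 1324 300 1356 460)
 (.a 0 [300,428] (.q 429 (.a 1 [] (.d 330 2345 297 2378 462)
 (.a 1 [297] (.d 462 2378 330 2411 495)
 (.a 0 [330,462] (.q 333 (.a 1 [] (.d 302 3343 271 3374 426)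
 (.a 1 [271] (.d 426 3374 302 3405 457)
 (.a 1 [302] (.r 397 394 398 (.r 365 1357 461 (.d 366 362 362 363 367)))
 .e))))
 .e))))
 .e))))
 (.a 1 [362] (.q 331 (.a 1 [] (.d 299 1291 267 1323 427)
 (.a 1 [267] (.d 427 1323 299 1355 459)
 (.a 0 [299,427] (.q 330 (.a 1 [] (.d 329 328 328 329 333)
 (.a 1 [328] (.d 333 329 329 330 334)
 (.a 1 [329] (.d 297 2312 264 2345 429)
 (.a 1 [428] (.d 429 2345 297 2378 462)
 (.a 0 [429] (.q 428 (.a 1 [] (.d 329 328 328 329 333)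
 (.a 1 [328] (.d 333 329 329 330 334)
 (.a 1 [329] (.d 364 1324 300 1356 460)
 .e))))
 .e))))))
 .e))))
 (.a 1 [297] (.q 427 (.a 1 [] (.d 331 1323 299 1355 459)
 (.a 1 [299] (.d 459 1355 331 1387 491)
 (.a 0 [331,459] (.q 428 (.a 1 [] (.d 426 424 424 425 429)
 (.a 1 [424] (.d 364 1324 300 1356 460)
 .e)))
 .e))))
 (.a 1 [460] (.q 427 (.a 1 [] (.d 331 1323 299 1355 459)
 (.a 1 [299] (.d 459 1355 331 1387 491)
 (.a 0 [331,459] (.q 458 (.a 1 [] (.d 365 3406 334 3437 489)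
 (.a 1 [334] (.d 489 3437 365 3468 520)
 (.a 0 [365,489] (.q 426 (.a 1 [] (.d 424 423 423 424 428)
 (.a 1 [423] (.d 428 424 424 425 429)
 (.a 1 [424] (.d 362 1354 330 1386 490)
 .e))))
 .e))))
 .e))))
 (.a 1 [424] (.q 364 (.a 1 [] (.d 300 1292 268 1324 428)
 (.a 1 [268] (.d 428 1324 300 1356 460)
 (.a 0 [300,428] (.q 427 (.a 1 [] (.d 331 1323 299 1355 459)
 (.a 1 [299] (.d 459 1355 331 1387 491)
 (.a 0 [331,459] (.q 362 (.a 1 [] (.d 361 360 360 361 365)
 (.a 1 [360] (.d 365 361 361 362 366)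
 (.a 1 [361] (.r 365 362 366 (.d 458 3406 334 3437 489))
 (.a 1 [365] (.r 361 360 360 (.d 460 2376 328 2409 493))
 .e)))))
 .e))))
 .e))))
 (.a 1 [302] (.q 427 (.a 1 [] (.d 331 1323 299 1355 459)
 (.a 1 [299] (.d 459 1355 331 1387 491)
 (.a 0 [331,459] (.q 428 (.a 1 [] (.d 426 424 424 425 429)
 (.a 1 [424] (.d 364 1324 300 1356 460)
 .e)))
 .e))))
 (.a 1 [303] (.q 427 (.a 1 [] (.d 331 1323 299 1355 459)
 (.a 1 [299] (.d 459 1355 331 1387 491)
 (.a 0 [331,459] (.q 428 (.a 1 [] (.d 426 424 424 425 429)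
 (.a 1 [424] (.d 364 1324 300 1356 460)
 .e)))
 .e))))
 (.a 1 [298] (.q 427 (.a 1 [] (.d 331 1323 299 1355 459)
 (.a 1 [299] (.d 459 1355 331 1387 491)
 (.a 0 [331,459] (.q 428 (.a 1 [] (.d 426 424 424 425 429)
 (.a 1 [364] (.r 397 394 398 (.d 426 424 424 425 429))
 (.a 1 [397] (.d 364 1324 300 1356 460)
 .e))))
 .e))))
 .e)))))))))))))))))))
 (.a 0 [397] (.q 427 (.a 1 [] (.d 331 1323 299 1355 459)
 (.a 0 [459] (.r 393 392 392 (.r 331 1323 299 (.q 330 (.a 1 [] (.d 329 328 328 329 333)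
 (.a 1 [432] (.q 433 (.a 1 [] (.d 333 329 329 330 334)
 (.a 1 [429] (.q 428 (.a 1 [] (.d 333 329 329 330 334)
 (.a 1 [329] (.d 364 1324 300 1356 460)
 (.a 0 [333] (.q 365 (.a 1 [] (.d 364 1324 300 1356 460)
 (.a 1 [300] (.d 458 3406 334 3437 489)
 .e)))
 .e))))
 (.a 1 [329] (.d 297 2312 264 2345 429)
 (.a 1 [428] (.d 429 2345 297 2378 462)
 .e)))))
 (.a 1 [433] (.q 432 (.a 1 [] (.d 297 2312 264 2345 429)
 (.a 1 [264] (.d 429 2345 297 2378 462)
 (.a 1 [297] (.d 333 329 329 330 334)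
 .e))))
 (.a 1 [329] (.d 429 2345 297 2378 462)
 .e)))))))
 (.a 0 [432] (.q 433 (.a 1 [] (.d 459 1355 331 1387 491)
 (.a 0 [429] (.q 428 (.a 1 [] (.d 331 1323 299 1355 459)
 (.a 1 [365] (.q 333 (.a 1 [] (.d 331 1323 299 1355 459)
 (.a 1 [331] (.d 364 1324 300 1356 460)
 (.a 1 [461] (.q 493 (.a 1 [] (.d 364 1324 300 1356 460)
 (.a 1 [300] (.d 460 1356 364 2442 526)
 (.a 1 [364] (.d 460 2409 361 2442 526)
 (.a 1 [460] (.d 459 1355 331 1387 491)
 .e)))))
 (.a 1 [493] (.q 461 (.a 1 [] (.d 364 1324 300 1356 460)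
 (.a 1 [300] (.d 331 1323 299 1355 459)
 .e)))
 .e)))))
 (.a 1 [331] (.d 364 1324 300 1356 460)
 (.a 1 [333] (.q 365 (.a 1 [] (.d 459 1355 331 1387 491)
 (.a 1 [331] (.d 334 3375 303 3406 458)
 .e)))
 .e)))))
 (.a 1 [331] (.q 364 (.a 1 [] (.d 300 1292 268 1324 428)
 (.a 1 [268] (.d 428 1324 300 1356 460)
 (.a 1 [300] (.r 428 1356 460 (.d 426 424 424 425 429))
 (.a 0 [428] (.q 429 (.a 1 [] (.d 330 2345 297 2378 462)
 (.a 1 [297] (.d 462 2378 330 2411 495)
 (.a 0 [330,462] (.q 365 (.a 1 [] (.d 362 361 361 362 366)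
 (.a 1 [361] (.d 366 362 362 363 367)
 (.a 1 [362] (.d 334 3375 303 3406 458)
 .e))))
 .e))))
 .e)))))
 (.a 1 [459] (.q 428 (.a 1 [] (.d 426 424 424 425 429)
 (.a 1 [424] (.d 364 1324 300 1356 460)
 .e)))
 (.a 1 [428] (.q 429 (.a 1 [] (.d 331 1323 299 1355 459)
 (.a 1 [299] (.d 459 1355 331 1387 491)
 (.a 1 [331] (.d 330 2345 297 2378 462)
 .e))))
 .e))))))
 (.a 1 [433] (.q 432 (.a 1 [] (.d 331 1323 299 1355 459)
 (.a 1 [331] (.q 364 (.a 1 [] (.d 300 1292 268 1324 428)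
 (.a 1 [268] (.d 428 1324 300 1356 460)
 (.a 1 [300] (.r 460 1356 428 (.d 493 2409 361 2442 526))
 (.a 0 [428] (.q 365 (.a 1 [] (.d 362 361 361 362 366)
 (.a 1 [361] (.d 366 362 362 363 367)
 (.a 1 [362] (.d 334 3375 303 3406 458)
 .e))))
 .e)))))
 (.a 1 [459] (.q 428 (.a 1 [] (.d 426 424 424 425 429)
 (.a 1 [424] (.d 364 1324 300 1356 460)
 .e)))
 .e))))
 (.a 1 [331] (.r 392 392 393 (.r 491 1387 459 (.d 458 2407 359 2440 524)))
 .e))))))
 (.a 1 [432] (.q 433 (.a 1 [] (.d 397 393 393 394 398)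
 (.a 1 [393] (.q 364 (.a 1 [] (.d 300 1292 268 1324 428)
 (.a 1 [268] (.d 428 1324 300 1356 460)
 (.a 0 [300,428] (.q 429 (.a 1 [] (.d 330 2345 297 2378 462)
 (.a 1 [297] (.d 462 2378 330 2411 495)
 (.a 0 [330,462] (.q 365 (.a 1 [] (.d 362 361 361 362 366)
 (.a 1 [361] (.d 366 362 362 363 367)
 (.a 1 [362] (.r 398 394 397 (.r 367 363 366 (.d 460 3408 336 3439 491)))
 (.a 1 [366] (.r 398 394 397 (.r 299 2314 266 (.d 331 1291 267 1323 427)))
 .e)))))
 .e))))
 .e))))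
 (.a 1 [397] (.q 364 (.a 1 [] (.d 300 1292 268 1324 428)
 (.a 1 [268] (.d 428 1324 300 1356 460)
 (.a 0 [300,428] (.q 429 (.a 1 [] (.d 330 2345 297 2378 462)
 (.a 1 [297] (.d 462 2378 330 2411 495)
 (.a 0 [330,462] (.q 361 (.a 1 [] (.d 362 360 360 361 365)
 (.a 1 [360] (.r 393 392 392 (.d 457 1353 329 1385 489))
 .e)))
 .e))))
 .e))))
 (.a 1 [428] (.q 429 (.a 1 [] (.d 393 392 392 393 397)
 (.a 1 [392] (.d 397 393 393 394 398)
 (.a 1 [393] (.d 330 2345 297 2378 462)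
 .e))))
 (.a 1 [429] (.q 428 (.a 1 [] (.d 393 392 392 393 397)
 (.a 1 [392] (.d 364 1324 300 1356 460)
 .e)))
 .e))))))
 (.a 1 [433] (.q 432 (.a 1 [] (.d 397 393 393 394 398)
 (.a 1 [393] (.q 427 (.a 1 [] (.d 331 1323 299 1355 459)
 (.a 1 [299] (.d 459 1355 331 1387 491)
 (.a 0 [331,459] (.q 428 (.a 1 [] (.d 426 424 424 425 429)
 (.a 1 [424] (.d 364 1324 300 1356 460)
 .e)))
 .e))))
 (.a 1 [397] (.q 364 (.a 1 [] (.d 300 1292 268 1324 428)
 (.a 1 [268] (.d 428 1324 300 1356 460)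
 (.a 0 [300,428] (.q 429 (.a 1 [] (.d 330 2345 297 2378 462)
 (.a 1 [297] (.d 462 2378 330 2411 495)
 (.a 0 [330,462] (.q 361 (.a 1 [] (.d 362 360 360 361 365)
 (.a 1 [360] (.r 393 392 392 (.d 457 1353 329 1385 489))
 .e)))
 .e))))
 .e))))
 .e))))
 (.a 1 [392] (.d 397 393 393 394 398)
 .e))))))))
 (.a 0 [432] (.q 433 (.a 1 [] (.d 456 3404 332 3435 487)
 (.a 0 [332] (.q 429 (.a 1 [] (.d 330 2345 297 2378 462)
 (.a 1 [330] (.r 495 2411 462 (.q 395 (.a 1 [] (.d 393 392 392 393 397)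
 (.a 1 [397] (.q 491 (.a 1 [] (.r 427 1387 459 (.r 392 392 393 (.d 458 2407 359 2440 524)))
 (.a 1 [359] (.r 427 1387 459 (.r 426 425 428 (.r 392 392 393 (.r 458 2440 524 (.d 490 1386 362 1418 522)))))
 (.a 1 [427] (.r 392 392 393 (.d 458 2407 359 2440 524))
 (.a 1 [524] (.r 427 1387 459 (.r 426 425 428 (.r 392 392 393 (.r 458 2407 359 (.d 489 3437 365 3468 520)))))
 (.a 0 [392,393,458] (.q 460 (.a 1 [] (.d 398 3439 367 3470 522)
 (.a 1 [367] (.d 522 3470 398 3501 553)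
 (.a 1 [398] (.r 427 1387 459 (.d 493 2409 361 2442 526))
 .e))))
 .e))))))
 (.a 1 [393] (.r 398 394 397 (.q 427 (.a 1 [] (.d 331 1323 299 1355 459)
 (.a 1 [299] (.d 459 1355 331 1387 491)
 (.a 1 [331] (.r 491 1387 459 (.d 460 3439 367 3470 522))
 (.a 0 [459] (.q 460 (.a 1 [] (.d 361 2376 328 2409 493)
 (.a 1 [328] (.d 493 2409 361 2442 526)
 (.a 1 [361] (.d 367 3408 336 3439 491)
 .e))))
 .e))))))
 (.a 1 [392] (.d 397 393 393 394 398)
 .e))))))
 (.a 1 [462] (.q 395 (.a 1 [] (.d 393 392 392 393 397)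
 (.a 1 [392] (.d 397 393 393 394 398)
 (.a 0 [393,397] (.q 427 (.a 1 [] (.d 331 1323 299 1355 459)
 (.a 1 [299] (.d 459 1355 331 1387 491)
 (.a 1 [331] (.r 426 425 428 (.r 330 2345 297 (.d 362 1322 298 1354 458)))
 .e))))
 .e))))
 (.a 1 [297] (.d 462 2378 330 2411 495)
 .e)))))
 (.a 1 [429] (.q 428 (.a 1 [] (.d 456 3404 332 3435 487)
 (.a 1 [332] (.q 393 (.a 1 [] (.d 395 392 392 393 397)
 (.a 0 [392,395,397] (.q 361 (.a 1 [] (.d 329 1321 297 1353 457)
 (.a 1 [297] (.d 457 1353 329 1385 489)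
 (.a 0 [329,457] (.q 364 (.a 1 [] (.d 362 360 360 361 365)
 (.a 1 [360] (.r 365 361 362 (.r 460 1388 492 (.d 427 2376 328 2409 493)))
 (.a 1 [362] (.r 460 1388 492 (.d 427 2376 328 2409 493))
 .e))))
 .e))))
 .e)))
 (.a 1 [456] (.r 332 3373 301 (.d 364 1324 300 1356 460))
 .e))))
 (.a 1 [456] (.q 429 (.a 1 [] (.d 330 2345 297 2378 462)
 (.a 1 [297] (.d 462 2378 330 2411 495)
 (.a 0 [330,462] (.q 395 (.a 1 [] (.d 393 392 392 393 397)
 (.a 1 [392] (.d 397 393 393 394 398)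
 (.a 0 [393,397] (.q 428 (.a 1 [] (.r 427 425 426 (.d 459 1355 331 1387 491))
 (.a 1 [331] (.r 332 3373 301 (.d 364 1324 300 1356 460))
 .e)))
 .e))))
 .e))))
 (.a 1 [428] (.q 429 (.a 1 [] (.d 332 3373 301 3404 456)
 (.a 1 [301] (.d 456 3404 332 3435 487)
 (.a 1 [332] (.d 330 2345 297 2378 462)
 .e))))
 .e))))))
 (.a 1 [433] (.q 432 (.a 1 [] (.d 456 3404 332 3435 487)
 (.a 1 [332] (.q 393 (.a 1 [] (.d 395 392 392 393 397)
 (.a 0 [392,395,397] (.q 361 (.a 1 [] (.d 329 1321 297 1353 457)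
 (.a 1 [297] (.d 457 1353 329 1385 489)
 (.a 1 [457] (.r 297 1321 329 (.d 330 2312 264 2345 429))
 (.a 0 [329] (.q 427 (.a 1 [] (.d 328 2343 295 2376 460)
 (.a 1 [295] (.d 460 2376 328 2409 493)
 (.a 1 [328] (.r 489 1385 457 (.d 458 3437 365 3468 520))
 .e))))
 .e)))))
 .e)))
 (.a 1 [456] (.q 395 (.a 1 [] (.d 393 392 392 393 397)
 (.a 1 [392] (.d 397 393 393 394 398)
 (.a 0 [393,397] (.q 429 (.a 1 [] (.d 330 2345 297 2378 462)
 (.a 1 [297] (.d 462 2378 330 2411 495)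
 (.a 0 [330,462] (.q 428 (.a 1 [] (.r 427 425 426 (.d 459 1355 331 1387 491))
 (.a 1 [331] (.r 332 3373 301 (.d 364 1324 300 1356 460))
 .e)))
 .e))))
 .e))))
 .e))))
 (.a 1 [301] (.d 456 3404 332 3435 487)
 .e))))))) (by decide +kernel)

theorem b0_1700 : S (PX [431] [297,430,432,434]) := S.of (.q 332 (.a 1 [] (.d 301 3342 270 3373 425)
 (.a 1 [270] (.d 425 3373 301 3404 456)
 (.a 0 [301,425] (.q 364 (.a 1 [] (.d 300 1292 268 1324 428)
 (.a 1 [268] (.d 428 1324 300 1356 460)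
 (.a 0 [300,428] (.q 299 (.a 1 [] (.r 365 2347 398 (.d 362 361 361 362 366))
 (.a 1 [361] (.r 365 2347 398 (.d 366 362 362 363 367))
 (.a 1 [362] (.r 398 2347 365 (.r 395 394 397 (.d 331 1291 267 1323 427)))
 (.a 0 [365,398] (.q 395 (.a 1 [] (.d 393 392 392 393 397)
 (.a 1 [392] (.d 331 1291 267 1323 427)
 .e)))
 .e)))))
 .e))))
 .e)))) (by decide +kernel)

theorem b0_1701 : S (PX [431] [332,430,432,434]) := S.of (.q 395 (.a 1 [] (.d 393 392 392 393 397)
 (.a 1 [392] (.d 397 393 393 394 398)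
 (.a 0 [393,397] (.q 462 (.a 1 [] (.d 429 2378 330 2411 495)
 (.a 0 [330,429,495] (.q 493 (.a 1 [] (.d 400 3441 369 3472 524)
 (.a 1 [369] (.d 524 3472 400 3503 555)
 (.a 0 [400,524] (.q 427 (.a 1 [] (.d 331 1323 299 1355 459)
 (.a 1 [299] (.d 459 1355 331 1387 491)
 (.a 1 [331] (.d 460 2409 361 2442 526)
 .e))))
 .e))))
 .e)))
 .e)))) (by decide +kernel)

theorem b0_1702 : S (PX [431] [361,430,432,434]) := S.of (.q 330 (.a 1 [] (.d 297 2312 264 2345 429)
 (.a 1 [264] (.d 429 2345 297 2378 462)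
 (.a 0 [297,429] (.q 425 (.a 1 [] (.d 332 3373 301 3404 456)
 (.a 1 [301] (.d 456 3404 332 3435 487)
 (.a 0 [332,456] (.q 426 (.a 1 [] (.d 362 1322 298 1354 458)
 (.a 0 [298,362,458] (.q 427 (.a 1 [] (.d 424 423 423 424 428)
 (.a 0 [423,424,428] (.q 395 (.a 1 [] (.d 393 392 392 393 397)
 (.a 1 [392] (.d 397 393 393 394 398)
 (.a 1 [393] (.d 331 1323 299 1355 459)
 .e))))
 .e)))
 .e)))
 .e))))
 .e)))) (by decide +kernel)

theorem b0_1703 : S (PX [431] [364,430,432,434]) := S.of (.q 332 (.a 1 [] (.d 301 3342 270 3373 425)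
 (.a 1 [270] (.d 425 3373 301 3404 456)
 (.a 0 [301,425] (.q 398 (.a 1 [] (.d 365 2347 299 2380 464)
 (.a 1 [464] (.r 395 394 397 (.r 299 2347 365 (.d 331 1291 267 1323 427)))
 (.a 0 [299,365] (.q 462 (.a 1 [] (.d 429 2378 330 2411 495)
 (.a 1 [330] (.r 397 394 395 (.r 400 396 399 (.d 493 3441 369 3472 524)))
 .e)))
 .e))))
 .e)))) (by decide +kernel)

theorem b0_1704 : S (PX [431] [365,430,432,434]) := S.of (.q 395 (.a 1 [] (.d 393 392 392 393 397)
 (.a 1 [392] (.d 397 393 393 394 398)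
 (.a 0 [393,397] (.q 331 (.a 1 [] (.d 299 1291 267 1323 427)
 (.a 1 [267] (.d 427 1323 299 1355 459)
 (.a 0 [299,427] (.q 332 (.a 1 [] (.d 301 3342 270 3373 425)
 (.a 1 [270] (.d 425 3373 301 3404 456)
 (.a 0 [301,425] (.q 333 (.a 1 [] (.d 330 329 329 330 334)
 (.a 1 [329] (.d 334 330 330 331 335)
 (.a 1 [334] (.r 330 329 329 (.d 429 2345 297 2378 462))
 (.a 0 [330] (.q 364 (.a 1 [] (.d 300 1292 268 1324 428)
 (.a 1 [268] (.d 428 1324 300 1356 460)
 (.a 1 [300] (.d 302 3343 271 3374 426)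
 .e))))
 .e)))))
 .e))))
 .e))))
 .e)))) (by decide +kernel)

theorem b0_1705 : S (PX [431] [397,430,432,434]) := S.of (.q 332 (.a 1 [] (.d 301 3342 270 3373 425)
 (.a 1 [270] (.d 425 3373 301 3404 456)
 (.a 0 [301,425] (.q 364 (.a 1 [] (.d 300 1292 268 1324 428)
 (.a 1 [268] (.d 428 1324 300 1356 460)
 (.a 0 [300,428] (.q 365 (.a 1 [] (.d 362 361 361 362 366)
 (.a 1 [361] (.d 366 362 362 363 367)
 (.a 1 [362] (.d 398 2347 299 2380 464)
 .e))))
 .e))))
 .e)))) (by decide +kernel)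

theorem b0_1706 : S (PX [431] [424,430,432,434]) := S.of (.q 395 (.a 1 [] (.d 393 392 392 393 397)
 (.a 1 [392] (.d 397 393 393 394 398)
 (.a 0 [393,397] (.q 332 (.a 1 [] (.d 301 3342 270 3373 425)
 (.a 1 [270] (.d 425 3373 301 3404 456)
 (.a 0 [301,425] (.q 365 (.a 1 [] (.d 398 2347 299 2380 464)
 (.a 1 [464] (.r 299 2347 398 (.d 331 1291 267 1323 427))
 (.a 0 [299,398] (.q 364 (.a 1 [] (.d 362 361 361 362 366)
 (.a 1 [361] (.d 366 362 362 363 367)
 (.a 1 [362] (.d 300 1292 268 1324 428)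
 .e))))
 .e))))
 .e))))
 .e)))) (by decide +kernel)

theorem b0_1707 : S (PX [431] [425,430,432,434]) := S.of (.q 395 (.a 1 [] (.d 393 392 392 393 397)
 (.a 1 [392] (.d 397 393 393 394 398)
 (.a 0 [393,397] (.q 462 (.a 1 [] (.d 429 2378 330 2411 495)
 (.a 0 [330,429,495] (.q 493 (.a 1 [] (.d 400 3441 369 3472 524)
 (.a 1 [369] (.d 524 3472 400 3503 555)
 (.a 0 [400,524] (.q 427 (.a 1 [] (.d 331 1323 299 1355 459)
 (.a 1 [299] (.d 459 1355 331 1387 491)
 (.a 1 [331] (.d 460 2409 361 2442 526)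
 .e))))
 .e))))
 .e)))
 .e)))) (by decide +kernel)

theorem b0_1708 : S (PX [431] [427,430,432,434]) := S.of (.q 332 (.a 1 [] (.d 301 3342 270 3373 425)
 (.a 1 [270] (.d 425 3373 301 3404 456)
 (.a 0 [301,425] (.q 398 (.a 1 [] (.d 365 2347 299 2380 464)
 (.a 0 [299,365,464] (.q 462 (.a 1 [] (.d 429 2378 330 2411 495)
 (.a 1 [330] (.r 397 394 395 (.r 400 396 399 (.d 493 3441 369 3472 524)))
 .e)))
 .e)))
 .e)))) (by decide +kernel)

theorem b0_1709 : S (PX [431] [428,430,432,434]) := S.of (.q 395 (.a 1 [] (.d 393 392 392 393 397)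
 (.a 1 [392] (.d 397 393 393 394 398)
 (.a 0 [393,397] (.q 332 (.a 1 [] (.d 301 3342 270 3373 425)
 (.a 1 [270] (.d 425 3373 301 3404 456)
 (.a 0 [301,425] (.q 365 (.a 1 [] (.d 398 2347 299 2380 464)
 (.a 1 [464] (.r 299 2347 398 (.d 331 1291 267 1323 427))
 (.a 0 [299,398] (.q 427 (.a 1 [] (.d 459 1355 331 1387 491)
 (.a 1 [331] (.d 458 3406 334 3437 489)
 .e)))
 .e))))
 .e))))
 .e)))) (by decide +kernel)

theorem b0_1721 : S (PX [431,436] [297,430,432,434,435]) := S.of (.q 332 (.a 1 [] (.d 301 3342 270 3373 425)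
 (.a 1 [270] (.d 425 3373 301 3404 456)
 (.a 0 [301,425] (.q 364 (.a 1 [] (.d 300 1292 268 1324 428)
 (.a 1 [268] (.d 428 1324 300 1356 460)
 (.a 0 [300,428] (.q 299 (.a 1 [] (.r 365 2347 398 (.d 362 361 361 362 366))
 (.a 1 [361] (.r 365 2347 398 (.d 366 362 362 363 367))
 (.a 1 [362] (.r 398 2347 365 (.r 395 394 397 (.d 331 1291 267 1323 427)))
 (.a 0 [365,398] (.q 395 (.a 1 [] (.d 393 392 392 393 397)
 (.a 1 [392] (.d 331 1291 267 1323 427)
 .e)))
 .e)))))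
 .e))))
 .e)))) (by decide +kernel)

theorem b0_1722 : S (PX [431,436] [332,430,432,434,435]) := S.of (.q 395 (.a 1 [] (.d 393 392 392 393 397)
 (.a 1 [392] (.d 397 393 393 394 398)
 (.a 0 [393,397] (.q 462 (.a 1 [] (.d 429 2378 330 2411 495)
 (.a 0 [330,429,495] (.q 493 (.a 1 [] (.d 400 3441 369 3472 524)
 (.a 1 [369] (.d 524 3472 400 3503 555)
 (.a 0 [400,524] (.q 427 (.a 1 [] (.d 331 1323 299 1355 459)
 (.a 1 [299] (.d 459 1355 331 1387 491)
 (.a 1 [331] (.d 460 2409 361 2442 526)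
 .e))))
 .e))))
 .e)))
 .e)))) (by decide +kernel)

theorem b0_1723 : S (PX [431,436] [361,430,432,434,435]) := S.of (.q 330 (.a 1 [] (.d 297 2312 264 2345 429)
 (.a 1 [264] (.d 429 2345 297 2378 462)
 (.a 0 [297,429] (.q 425 (.a 1 [] (.d 332 3373 301 3404 456)
 (.a 1 [301] (.d 456 3404 332 3435 487)
 (.a 0 [332,456] (.q 426 (.a 1 [] (.d 362 1322 298 1354 458)
 (.a 0 [298,362,458] (.q 427 (.a 1 [] (.d 424 423 423 424 428)
 (.a 0 [423,424,428] (.q 395 (.a 1 [] (.d 393 392 392 393 397)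
 (.a 1 [392] (.d 397 393 393 394 398)
 (.a 1 [393] (.d 331 1323 299 1355 459)
 .e))))
 .e)))
 .e)))
 .e))))
 .e)))) (by decide +kernel)

theorem b0_1724 : S (PX [431,436] [364,430,432,434,435]) := S.of (.q 332 (.a 1 [] (.d 301 3342 270 3373 425)
 (.a 1 [270] (.d 425 3373 301 3404 456)
 (.a 0 [301,425] (.q 398 (.a 1 [] (.d 365 2347 299 2380 464)
 (.a 1 [464] (.r 395 394 397 (.r 299 2347 365 (.d 331 1291 267 1323 427)))
 (.a 0 [299,365] (.q 462 (.a 1 [] (.d 429 2378 330 2411 495)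
 (.a 1 [330] (.r 397 394 395 (.r 400 396 399 (.d 493 3441 369 3472 524)))
 .e)))
 .e))))
 .e)))) (by decide +kernel)

theorem b0_1725 : S (PX [431,436] [365,430,432,434,435]) := S.of (.q 395 (.a 1 [] (.d 393 392 392 393 397)
 (.a 1 [392] (.d 397 393 393 394 398)
 (.a 0 [393,397] (.q 331 (.a 1 [] (.d 299 1291 267 1323 427)
 (.a 1 [267] (.d 427 1323 299 1355 459)
 (.a 0 [299,427] (.q 332 (.a 1 [] (.d 301 3342 270 3373 425)
 (.a 1 [270] (.d 425 3373 301 3404 456)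
 (.a 0 [301,425] (.q 333 (.a 1 [] (.d 330 329 329 330 334)
 (.a 1 [329] (.d 334 330 330 331 335)
 (.a 1 [334] (.r 330 329 329 (.d 429 2345 297 2378 462))
 (.a 0 [330] (.q 364 (.a 1 [] (.d 300 1292 268 1324 428)
 (.a 1 [268] (.d 428 1324 300 1356 460)
 (.a 1 [300] (.d 302 3343 271 3374 426)
 .e))))
 .e)))))
 .e))))
 .e))))
 .e)))) (by decide +kernel)

theorem b0_1726 : S (PX [431,436] [397,430,432,434,435]) := S.of (.q 332 (.a 1 [] (.d 301 3342 270 3373 425)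
 (.a 1 [270] (.d 425 3373 301 3404 456)
 (.a 0 [301,425] (.q 364 (.a 1 [] (.d 300 1292 268 1324 428)
 (.a 1 [268] (.d 428 1324 300 1356 460)
 (.a 0 [300,428] (.q 365 (.a 1 [] (.d 362 361 361 362 366)
 (.a 1 [361] (.d 366 362 362 363 367)
 (.a 1 [362] (.d 398 2347 299 2380 464)
 .e))))
 .e))))
 .e)))) (by decide +kernel)

theorem b0_1727 : S (PX [431,436] [424,430,432,434,435]) := S.of (.q 395 (.a 1 [] (.d 393 392 392 393 397)
 (.a 1 [392] (.d 397 393 393 394 398)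
 (.a 0 [393,397] (.q 332 (.a 1 [] (.d 301 3342 270 3373 425)
 (.a 1 [270] (.d 425 3373 301 3404 456)
 (.a 0 [301,425] (.q 365 (.a 1 [] (.d 398 2347 299 2380 464)
 (.a 1 [464] (.r 299 2347 398 (.d 331 1291 267 1323 427))
 (.a 0 [299,398] (.q 364 (.a 1 [] (.d 362 361 361 362 366)
 (.a 1 [361] (.d 366 362 362 363 367)
 (.a 1 [362] (.d 300 1292 268 1324 428)
 .e))))
 .e))))
 .e))))
 .e)))) (by decide +kernel)

theorem b0_1728 : S (PX [431,436] [425,430,432,434,435]) := S.of (.q 395 (.a 1 [] (.d 393 392 392 393 397)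
 (.a 1 [392] (.d 397 393 393 394 398)
 (.a 0 [393,397] (.q 462 (.a 1 [] (.d 429 2378 330 2411 495)
 (.a 0 [330,429,495] (.q 493 (.a 1 [] (.d 400 3441 369 3472 524)
 (.a 1 [369] (.d 524 3472 400 3503 555)
 (.a 0 [400,524] (.q 427 (.a 1 [] (.d 331 1323 299 1355 459)
 (.a 1 [299] (.d 459 1355 331 1387 491)
 (.a 1 [331] (.d 460 2409 361 2442 526)
 .e))))
 .e))))
 .e)))
 .e)))) (by decide +kernel)

theorem b0_1729 : S (PX [431,436] [427,430,432,434,435]) := S.of (.q 332 (.a 1 [] (.d 301 3342 270 3373 425)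
 (.a 1 [270] (.d 425 3373 301 3404 456)
 (.a 0 [301,425] (.q 398 (.a 1 [] (.d 365 2347 299 2380 464)
 (.a 0 [299,365,464] (.q 462 (.a 1 [] (.d 429 2378 330 2411 495)
 (.a 1 [330] (.r 397 394 395 (.r 400 396 399 (.d 493 3441 369 3472 524)))
 .e)))
 .e)))
 .e)))) (by decide +kernel)

theorem b0_1730 : S (PX [431,436] [428,430,432,434,435]) := S.of (.q 395 (.a 1 [] (.d 393 392 392 393 397)
 (.a 1 [392] (.d 397 393 393 394 398)
 (.a 0 [393,397] (.q 332 (.a 1 [] (.d 301 3342 270 3373 425)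
 (.a 1 [270] (.d 425 3373 301 3404 456)
 (.a 0 [301,425] (.q 365 (.a 1 [] (.d 398 2347 299 2380 464)
 (.a 1 [464] (.r 299 2347 398 (.d 331 1291 267 1323 427))
 (.a 0 [299,398] (.q 427 (.a 1 [] (.d 459 1355 331 1387 491)
 (.a 1 [331] (.d 458 3406 334 3437 489)
 .e)))
 .e))))
 .e))))
 .e)))) (by decide +kernel)

theorem b0_1731 : S (PX [431,436] [430,432,434,435,488]) := S.of (.q 395 (.a 1 [] (.d 393 392 392 393 397)
 (.a 1 [392] (.d 397 393 393 394 398)
 (.a 0 [393,397] (.q 331 (.a 1 [] (.d 299 1291 267 1323 427)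
 (.a 1 [267] (.d 427 1323 299 1355 459)
 (.a 0 [299,427] (.q 332 (.a 1 [] (.d 301 3342 270 3373 425)
 (.a 1 [270] (.d 425 3373 301 3404 456)
 (.a 0 [301,425] (.q 330 (.a 1 [] (.d 329 328 328 329 333)
 (.a 1 [328] (.d 333 329 329 330 334)
 (.a 1 [329] (.d 297 2312 264 2345 429)
 .e))))
 .e))))
 .e))))
 .e)))) (by decide +kernel)

theorem b0_1743 : S (PX [431,435] [297,430,432,434,436]) := S.of (.q 332 (.a 1 [] (.d 301 3342 270 3373 425)
 (.a 1 [270] (.d 425 3373 301 3404 456)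
 (.a 0 [301,425] (.q 364 (.a 1 [] (.d 300 1292 268 1324 428)
 (.a 1 [268] (.d 428 1324 300 1356 460)
 (.a 0 [300,428] (.q 299 (.a 1 [] (.r 365 2347 398 (.d 362 361 361 362 366))
 (.a 1 [361] (.r 365 2347 398 (.d 366 362 362 363 367))
 (.a 1 [362] (.r 398 2347 365 (.r 395 394 397 (.d 331 1291 267 1323 427)))
 (.a 0 [365,398] (.q 395 (.a 1 [] (.d 393 392 392 393 397)
 (.a 1 [392] (.d 331 1291 267 1323 427)
 .e)))
 .e)))))
 .e))))
 .e)))) (by decide +kernel)

theorem b0_1744 : S (PX [431,435] [332,430,432,434,436]) := S.of (.q 395 (.a 1 [] (.d 393 392 392 393 397)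
 (.a 1 [392] (.d 397 393 393 394 398)
 (.a 0 [393,397] (.q 462 (.a 1 [] (.d 429 2378 330 2411 495)
 (.a 0 [330,429,495] (.q 493 (.a 1 [] (.d 400 3441 369 3472 524)
 (.a 1 [369] (.d 524 3472 400 3503 555)
 (.a 0 [400,524] (.q 427 (.a 1 [] (.d 331 1323 299 1355 459)
 (.a 1 [299] (.d 459 1355 331 1387 491)
 (.a 1 [331] (.d 460 2409 361 2442 526)
 .e))))
 .e))))
 .e)))
 .e)))) (by decide +kernel)

theorem b0_1745 : S (PX [431,435] [361,430,432,434,436]) := S.of (.q 330 (.a 1 [] (.d 297 2312 264 2345 429)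
 (.a 1 [264] (.d 429 2345 297 2378 462)
 (.a 0 [297,429] (.q 425 (.a 1 [] (.d 332 3373 301 3404 456)
 (.a 1 [301] (.d 456 3404 332 3435 487)
 (.a 0 [332,456] (.q 426 (.a 1 [] (.d 362 1322 298 1354 458)
 (.a 0 [298,362,458] (.q 427 (.a 1 [] (.d 424 423 423 424 428)
 (.a 0 [423,424,428] (.q 395 (.a 1 [] (.d 393 392 392 393 397)
 (.a 1 [392] (.d 397 393 393 394 398)
 (.a 1 [393] (.d 331 1323 299 1355 459)
 .e))))
 .e)))
 .e)))
 .e))))
 .e)))) (by decide +kernel)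

theorem b0_1746 : S (PX [431,435] [364,430,432,434,436]) := S.of (.q 332 (.a 1 [] (.d 301 3342 270 3373 425)
 (.a 1 [270] (.d 425 3373 301 3404 456)
 (.a 0 [301,425] (.q 398 (.a 1 [] (.d 365 2347 299 2380 464)
 (.a 1 [464] (.r 395 394 397 (.r 299 2347 365 (.d 331 1291 267 1323 427)))
 (.a 0 [299,365] (.q 462 (.a 1 [] (.d 429 2378 330 2411 495)
 (.a 1 [330] (.r 397 394 395 (.r 400 396 399 (.d 493 3441 369 3472 524)))
 .e)))
 .e))))
 .e)))) (by decide +kernel)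

theorem b0_1747 : S (PX [431,435] [365,430,432,434,436]) := S.of (.q 395 (.a 1 [] (.d 393 392 392 393 397)
 (.a 1 [392] (.d 397 393 393 394 398)
 (.a 0 [393,397] (.q 331 (.a 1 [] (.d 299 1291 267 1323 427)
 (.a 1 [267] (.d 427 1323 299 1355 459)
 (.a 0 [299,427] (.q 332 (.a 1 [] (.d 301 3342 270 3373 425)
 (.a 1 [270] (.d 425 3373 301 3404 456)
 (.a 0 [301,425] (.q 333 (.a 1 [] (.d 330 329 329 330 334)
 (.a 1 [329] (.d 334 330 330 331 335)
 (.a 1 [334] (.r 330 329 329 (.d 429 2345 297 2378 462))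
 (.a 0 [330] (.q 364 (.a 1 [] (.d 300 1292 268 1324 428)
 (.a 1 [268] (.d 428 1324 300 1356 460)
 (.a 1 [300] (.d 302 3343 271 3374 426)
 .e))))
 .e)))))
 .e))))
 .e))))
 .e)))) (by decide +kernel)

theorem b0_1748 : S (PX [431,435] [397,430,432,434,436]) := S.of (.q 332 (.a 1 [] (.d 301 3342 270 3373 425)
 (.a 1 [270] (.d 425 3373 301 3404 456)
 (.a 0 [301,425] (.q 364 (.a 1 [] (.d 300 1292 268 1324 428)
 (.a 1 [268] (.d 428 1324 300 1356 460)
 (.a 0 [300,428] (.q 365 (.a 1 [] (.d 362 361 361 362 366)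
 (.a 1 [361] (.d 366 362 362 363 367)
 (.a 1 [362] (.d 398 2347 299 2380 464)
 .e))))
 .e))))
 .e)))) (by decide +kernel)

theorem b0_1749 : S (PX [431,435] [424,430,432,434,436]) := S.of (.q 395 (.a 1 [] (.d 393 392 392 393 397)
 (.a 1 [392] (.d 397 393 393 394 398)
 (.a 0 [393,397] (.q 332 (.a 1 [] (.d 301 3342 270 3373 425)
 (.a 1 [270] (.d 425 3373 301 3404 456)
 (.a 0 [301,425] (.q 365 (.a 1 [] (.d 398 2347 299 2380 464)
 (.a 1 [464] (.r 299 2347 398 (.d 331 1291 267 1323 427))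
 (.a 0 [299,398] (.q 364 (.a 1 [] (.d 362 361 361 362 366)
 (.a 1 [361] (.d 366 362 362 363 367)
 (.a 1 [362] (.d 300 1292 268 1324 428)
 .e))))
 .e))))
 .e))))
 .e)))) (by decide +kernel)

theorem b0_1750 : S (PX [431,435] [425,430,432,434,436]) := S.of (.q 395 (.a 1 [] (.d 393 392 392 393 397)
 (.a 1 [392] (.d 397 393 393 394 398)
 (.a 0 [393,397] (.q 462 (.a 1 [] (.d 429 2378 330 2411 495)
 (.a 0 [330,429,495] (.q 493 (.a 1 [] (.d 400 3441 369 3472 524)
 (.a 1 [369] (.d 524 3472 400 3503 555)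
 (.a 0 [400,524] (.q 427 (.a 1 [] (.d 331 1323 299 1355 459)
 (.a 1 [299] (.d 459 1355 331 1387 491)
 (.a 1 [331] (.d 460 2409 361 2442 526)
 .e))))
 .e))))
 .e)))
 .e)))) (by decide +kernel)

theorem b0_1751 : S (PX [431,435] [427,430,432,434,436]) := S.of (.q 332 (.a 1 [] (.d 301 3342 270 3373 425)
 (.a 1 [270] (.d 425 3373 301 3404 456)
 (.a 0 [301,425] (.q 398 (.a 1 [] (.d 365 2347 299 2380 464)
 (.a 0 [299,365,464] (.q 462 (.a 1 [] (.d 429 2378 330 2411 495)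
 (.a 1 [330] (.r 397 394 395 (.r 400 396 399 (.d 493 3441 369 3472 524)))
 .e)))
 .e)))
 .e)))) (by decide +kernel)

theorem b0_1752 : S (PX [431,435] [428,430,432,434,436]) := S.of (.q 395 (.a 1 [] (.d 393 392 392 393 397)
 (.a 1 [392] (.d 397 393 393 394 398)
 (.a 0 [393,397] (.q 332 (.a 1 [] (.d 301 3342 270 3373 425)
 (.a 1 [270] (.d 425 3373 301 3404 456)
 (.a 0 [301,425] (.q 365 (.a 1 [] (.d 398 2347 299 2380 464)
 (.a 1 [464] (.r 299 2347 398 (.d 331 1291 267 1323 427))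
 (.a 0 [299,398] (.q 427 (.a 1 [] (.d 459 1355 331 1387 491)
 (.a 1 [331] (.d 458 3406 334 3437 489)
 .e)))
 .e))))
 .e))))
 .e)))) (by decide +kernel)

theorem b0_1753 : S (PX [431,435] [430,432,434,436,488]) := S.of (.q 395 (.a 1 [] (.d 393 392 392 393 397)
 (.a 1 [392] (.d 397 393 393 394 398)
 (.a 0 [393,397] (.q 331 (.a 1 [] (.d 299 1291 267 1323 427)
 (.a 1 [267] (.d 427 1323 299 1355 459)
 (.a 0 [299,427] (.q 332 (.a 1 [] (.d 301 3342 270 3373 425)
 (.a 1 [270] (.d 425 3373 301 3404 456)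
 (.a 0 [301,425] (.q 330 (.a 1 [] (.d 329 328 328 329 333)
 (.a 1 [328] (.d 333 329 329 330 334)
 (.a 1 [329] (.d 297 2312 264 2345 429)
 .e))))
 .e))))
 .e))))
 .e)))) (by decide +kernel)

theorem b0_1754 : S (PX [431] [430,432,434,488]) := S.of (.q 395 (.a 1 [] (.d 393 392 392 393 397)
 (.a 1 [392] (.d 397 393 393 394 398)
 (.a 0 [393,397] (.q 331 (.a 1 [] (.d 299 1291 267 1323 427)
 (.a 1 [267] (.d 427 1323 299 1355 459)
 (.a 0 [299,427] (.q 332 (.a 1 [] (.d 301 3342 270 3373 425)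
 (.a 1 [270] (.d 425 3373 301 3404 456)
 (.a 0 [301,425] (.q 330 (.a 1 [] (.d 329 328 328 329 333)
 (.a 1 [328] (.d 333 329 329 330 334)
 (.a 1 [329] (.d 297 2312 264 2345 429)
 .e))))
 .e))))
 .e))))
 .e)))) (by decide +kernel)

theorem b0_1776 : S (PX [433] [430,431,432,434]) := S.of (.q 429 (.a 1 [] (.d 330 2345 297 2378 462)
 (.a 1 [297] (.d 462 2378 330 2411 495)
 (.a 0 [330,462] (.q 332 (.a 1 [] (.d 301 3342 270 3373 425)
 (.a 1 [270] (.d 425 3373 301 3404 456)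
 (.a 0 [301,425] (.q 364 (.a 1 [] (.d 300 1292 268 1324 428)
 (.a 1 [268] (.d 428 1324 300 1356 460)
 (.a 0 [300,428] (.q 361 (.a 1 [] (.d 362 360 360 361 365)
 (.a 0 [360,362,365] (.q 427 (.a 1 [] (.d 328 2343 295 2376 460)
 (.a 1 [295] (.d 460 2376 328 2409 493)
 (.a 0 [328,460] (.q 395 (.a 1 [] (.d 393 392 392 393 397)
 (.a 1 [392] (.d 397 393 393 394 398)
 (.a 1 [393] (.d 331 1323 299 1355 459)
 .e))))
 .e))))
 .e)))
 .e))))
 .e))))
 .e)))) (by decide +kernel)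

theorem b0_1996 : S (PX [432] [297,430,433,434]) := S.of (.q 395 (.a 1 [] (.d 393 392 392 393 397)
 (.a 1 [392] (.d 397 393 393 394 398)
 (.a 0 [393] (.q 427 (.a 1 [] (.d 331 1323 299 1355 459)
 (.a 1 [299] (.d 459 1355 331 1387 491)
 (.a 0 [331,459] (.q 361 (.a 1 [] (.d 328 2343 295 2376 460)
 (.a 1 [295] (.d 460 2376 328 2409 493)
 (.a 0 [328,460] (.q 458 (.a 1 [] (.d 365 3406 334 3437 489)
 (.a 1 [334] (.d 489 3437 365 3468 520)
 (.a 1 [489] (.r 365 3406 334 (.r 362 361 364 (.d 426 1354 330 1386 490)))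
 (.a 0 [365] (.q 362 (.a 1 [] (.d 360 359 359 360 364)
 (.a 1 [359] (.d 426 1354 330 1386 490)
 .e)))
 .e)))))
 .e))))
 .e))))
 (.a 0 [397] (.q 331 (.a 1 [] (.d 299 1291 267 1323 427)
 (.a 1 [267] (.d 427 1323 299 1355 459)
 (.a 0 [299,427] (.q 332 (.a 1 [] (.d 301 3342 270 3373 425)
 (.a 1 [270] (.d 425 3373 301 3404 456)
 (.a 0 [301,425] (.q 300 (.a 1 [] (.d 364 1292 268 1324 428)
 (.a 1 [268] (.r 393 392 392 (.d 362 3341 269 3372 424))
 .e)))
 .e))))
 .e))))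
 .e))))) (by decide +kernel)

theorem b0_1997 : S (PX [432] [298,430,433,434]) := S.of (.q 395 (.a 1 [] (.d 393 392 392 393 397)
 (.a 1 [392] (.d 397 393 393 394 398)
 (.a 0 [393,397] (.q 331 (.a 1 [] (.d 299 1291 267 1323 427)
 (.a 1 [267] (.d 427 1323 299 1355 459)
 (.a 0 [299] (.r 427 1355 459 (.q 361 (.a 1 [] (.d 328 2343 295 2376 460)
 (.a 1 [295] (.d 460 2376 328 2409 493)
 (.a 0 [328,460] (.q 458 (.a 1 [] (.d 365 3406 334 3437 489)
 (.a 1 [334] (.d 489 3437 365 3468 520)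
 (.a 1 [489] (.r 365 3406 334 (.r 362 361 364 (.d 426 1354 330 1386 490)))
 (.a 0 [365] (.q 362 (.a 1 [] (.d 360 359 359 360 364)
 (.a 1 [359] (.d 426 1354 330 1386 490)
 .e)))
 .e)))))
 .e)))))
 (.a 0 [427] (.q 332 (.a 1 [] (.d 301 3342 270 3373 425)
 (.a 1 [270] (.d 425 3373 301 3404 456)
 (.a 0 [301,425] (.q 330 (.a 1 [] (.d 329 328 328 329 333)
 (.a 1 [328] (.d 333 329 329 330 334)
 (.a 1 [329] (.d 297 2312 264 2345 429)
 .e))))
 .e))))
 .e)))))
 .e)))) (by decide +kernel)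

theorem b0_1998 : S (PX [432] [332,430,433,434]) := S.of (.q 395 (.a 1 [] (.d 393 392 392 393 397)
 (.a 1 [392] (.d 397 393 393 394 398)
 (.a 0 [393,397] (.q 330 (.a 1 [] (.d 297 2312 264 2345 429)
 (.a 1 [264] (.d 429 2345 297 2378 462)
 (.a 0 [297] (.q 426 (.a 1 [] (.d 362 1322 298 1354 458)
 (.a 0 [298,362,458] (.q 364 (.a 1 [] (.d 333 3374 302 3405 457)
 (.a 1 [302] (.d 457 3405 333 3436 488)
 (.a 0 [333,457] (.q 427 (.a 1 [] (.d 331 1323 299 1355 459)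
 (.a 1 [299] (.d 459 1355 331 1387 491)
 (.a 1 [331] (.r 429 2378 462 (.r 428 425 425 (.r 460 1388 492 (.d 493 2409 361 2442 526))))
 .e))))
 .e))))
 .e)))
 (.a 0 [429] (.q 362 (.a 1 [] (.d 298 1290 266 1322 426)
 (.a 1 [266] (.d 426 1322 298 1354 458)
 (.a 0 [298] (.q 364 (.a 1 [] (.d 361 360 360 361 365)
 (.a 1 [360] (.d 365 361 361 362 366)
 (.a 1 [361] (.r 426 1354 458 (.d 457 3405 333 3436 488))
 .e))))
 (.a 0 [426] (.q 427 (.a 1 [] (.d 331 1323 299 1355 459)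
 (.a 1 [299] (.d 459 1355 331 1387 491)
 (.a 0 [331] (.q 364 (.a 1 [] (.d 361 360 360 361 365)
 (.a 1 [360] (.d 365 361 361 362 366)
 (.a 1 [361] (.r 365 362 366 (.d 458 3406 334 3437 489))
 (.a 1 [365] (.r 361 360 360 (.d 460 2376 328 2409 493))
 .e)))))
 (.a 0 [459] (.r 299 1323 331 (.r 298 1290 266 (.r 297 2312 264 (.d 300 296 296 297 301))))
 .e)))))
 .e)))))
 .e)))))
 .e)))) (by decide +kernel)

theorem b0_1999 : S (PX [432] [334,430,433,434]) := S.of (.q 330 (.a 1 [] (.d 297 2312 264 2345 429)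
 (.a 1 [264] (.d 429 2345 297 2378 462)
 (.a 0 [297,429] (.q 425 (.a 1 [] (.d 332 3373 301 3404 456)
 (.a 1 [301] (.d 456 3404 332 3435 487)
 (.a 0 [332,456] (.q 426 (.a 1 [] (.d 362 1322 298 1354 458)
 (.a 0 [298,362,458] (.q 427 (.a 1 [] (.d 424 423 423 424 428)
 (.a 0 [423,424,428] (.q 395 (.a 1 [] (.d 393 392 392 393 397)
 (.a 1 [392] (.d 397 393 393 394 398)
 (.a 1 [393] (.d 331 1323 299 1355 459)
 .e))))
 .e)))
 .e)))
 .e))))
 .e)))) (by decide +kernel)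

theorem b0_2000 : S (PX [432] [361,430,433,434]) := S.of (.q 330 (.a 1 [] (.d 297 2312 264 2345 429)
 (.a 1 [264] (.d 429 2345 297 2378 462)
 (.a 0 [297,429] (.q 425 (.a 1 [] (.d 332 3373 301 3404 456)
 (.a 1 [301] (.d 456 3404 332 3435 487)
 (.a 0 [332,456] (.q 426 (.a 1 [] (.d 362 1322 298 1354 458)
 (.a 0 [298,362,458] (.q 427 (.a 1 [] (.d 424 423 423 424 428)
 (.a 0 [423,424,428] (.q 395 (.a 1 [] (.d 393 392 392 393 397)
 (.a 1 [392] (.d 397 393 393 394 398)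
 (.a 1 [393] (.d 331 1323 299 1355 459)
 .e))))
 .e)))
 .e)))
 .e))))
 .e)))) (by decide +kernel)

theorem b0_2001 : S (PX [432] [364,430,433,434]) := S.of (.q 330 (.a 1 [] (.d 297 2312 264 2345 429)
 (.a 1 [264] (.d 429 2345 297 2378 462)
 (.a 0 [297] (.q 425 (.a 1 [] (.d 332 3373 301 3404 456)
 (.a 1 [301] (.d 456 3404 332 3435 487)
 (.a 0 [332,456] (.q 426 (.a 1 [] (.d 362 1322 298 1354 458)
 (.a 1 [298] (.r 458 1354 362 (.r 429 2378 462 (.r 427 425 428 (.d 489 3437 365 3468 520))))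
 (.a 0 [362,458] (.q 395 (.a 1 [] (.d 393 392 392 393 397)
 (.a 1 [392] (.d 397 393 393 394 398)
 (.a 1 [393] (.r 429 2378 462 (.r 427 425 428 (.d 459 1355 331 1387 491)))
 .e))))
 .e))))
 .e))))
 (.a 0 [429] (.q 425 (.a 1 [] (.d 332 3373 301 3404 456)
 (.a 1 [301] (.d 456 3404 332 3435 487)
 (.a 0 [332,456] (.q 393 (.a 1 [] (.d 395 392 392 393 397)
 (.a 1 [397] (.r 392 392 395 (.r 297 2312 264 (.r 361 1321 329 (.d 423 3371 299 3402 454))))
 (.a 0 [392,395] (.q 426 (.a 1 [] (.d 362 1322 298 1354 458)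
 (.a 1 [298] (.r 458 1354 362 (.r 297 2312 264 (.r 361 1321 329 (.r 489 1385 457 (.d 427 3437 365 3468 520)))))
 (.a 1 [458] (.r 297 2312 264 (.r 361 1321 329 (.r 362 1322 298 (.r 360 359 359 (.d 459 2375 327 2408 492)))))
 (.a 0 [362] (.q 327 (.a 1 [] (.d 360 2342 294 2375 459)
 (.a 1 [294] (.r 297 2312 264 (.r 329 1321 361 (.d 328 326 326 327 331)))
 .e)))
 .e)))))
 .e))))
 .e))))
 .e))))) (by decide +kernel)

theorem b0_2002 : S (PX [432] [365,430,433,434]) := S.of (.q 395 (.a 1 [] (.d 393 392 392 393 397)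
 (.a 1 [392] (.d 397 393 393 394 398)
 (.a 0 [393,397] (.q 331 (.a 1 [] (.d 299 1291 267 1323 427)
 (.a 1 [267] (.d 427 1323 299 1355 459)
 (.a 0 [299,427] (.q 332 (.a 1 [] (.d 301 3342 270 3373 425)
 (.a 1 [270] (.d 425 3373 301 3404 456)
 (.a 0 [301,425] (.q 333 (.a 1 [] (.d 330 329 329 330 334)
 (.a 1 [329] (.d 334 330 330 331 335)
 (.a 1 [334] (.r 330 329 329 (.d 429 2345 297 2378 462))
 (.a 0 [330] (.q 364 (.a 1 [] (.d 300 1292 268 1324 428)
 (.a 1 [268] (.d 428 1324 300 1356 460)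
 (.a 1 [300] (.d 302 3343 271 3374 426)
 .e))))
 .e)))))
 .e))))
 .e))))
 .e)))) (by decide +kernel)

theorem b0_2003 : S (PX [432] [367,430,433,434]) := S.of (.q 330 (.a 1 [] (.d 297 2312 264 2345 429)
 (.a 1 [264] (.d 429 2345 297 2378 462)
 (.a 0 [297,429] (.q 425 (.a 1 [] (.d 332 3373 301 3404 456)
 (.a 1 [301] (.d 456 3404 332 3435 487)
 (.a 0 [332,456] (.q 426 (.a 1 [] (.d 362 1322 298 1354 458)
 (.a 0 [298,362,458] (.q 427 (.a 1 [] (.d 424 423 423 424 428)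
 (.a 0 [423,424,428] (.q 395 (.a 1 [] (.d 393 392 392 393 397)
 (.a 1 [392] (.d 397 393 393 394 398)
 (.a 1 [393] (.d 331 1323 299 1355 459)
 .e))))
 .e)))
 .e)))
 .e))))
 .e)))) (by decide +kernel)

theorem b0_2004 : S (PX [432] [397,430,433,434]) := S.of (.q 330 (.a 1 [] (.d 297 2312 264 2345 429)
 (.a 1 [264] (.d 429 2345 297 2378 462)
 (.a 0 [297] (.q 362 (.a 1 [] (.d 298 1290 266 1322 426)
 (.a 1 [266] (.d 426 1322 298 1354 458)
 (.a 0 [298,426] (.q 364 (.a 1 [] (.d 361 360 360 361 365)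
 (.a 1 [360] (.d 365 361 361 362 366)
 (.a 0 [361,365] (.q 332 (.a 1 [] (.d 300 1292 268 1324 428)
 (.a 1 [268] (.d 428 1324 300 1356 460)
 (.a 1 [300] (.d 301 3342 270 3373 425)
 .e))))
 .e))))
 .e))))
 (.a 0 [429] (.q 425 (.a 1 [] (.d 332 3373 301 3404 456)
 (.a 1 [301] (.d 456 3404 332 3435 487)
 (.a 0 [332,456] (.r 297 2312 264 (.q 361 (.a 1 [] (.r 393 1321 329 (.r 392 392 395 (.d 423 3371 299 3402 454)))
 (.a 1 [454] (.r 393 1321 329 (.r 392 392 395 (.d 299 3340 268 3371 423)))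
 (.a 0 [299,329,392,393,395,423] (.q 362 (.a 1 [] (.d 360 359 359 360 364)
 (.a 1 [359] (.d 364 360 360 361 365)
 (.a 1 [360] (.d 298 1290 266 1322 426)
 .e))))
 .e)))))
 .e))))
 .e))))) (by decide +kernel)

theorem b0_2005 : S (PX [432] [400,430,433,434]) := S.of (.q 330 (.a 1 [] (.d 297 2312 264 2345 429)
 (.a 1 [264] (.d 429 2345 297 2378 462)
 (.a 0 [297,429] (.q 425 (.a 1 [] (.d 332 3373 301 3404 456)
 (.a 1 [301] (.d 456 3404 332 3435 487)
 (.a 0 [332,456] (.q 426 (.a 1 [] (.d 362 1322 298 1354 458)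
 (.a 0 [298,362,458] (.q 427 (.a 1 [] (.d 424 423 423 424 428)
 (.a 0 [423,424,428] (.q 395 (.a 1 [] (.d 393 392 392 393 397)
 (.a 1 [392] (.d 397 393 393 394 398)
 (.a 1 [393] (.d 331 1323 299 1355 459)
 .e))))
 .e)))
 .e)))
 .e))))
 .e)))) (by decide +kernel)

theorem b0_2006 : S (PX [432] [424,430,433,434]) := S.of (.q 395 (.a 1 [] (.d 393 392 392 393 397)
 (.a 1 [392] (.d 397 393 393 394 398)
 (.a 0 [393,397] (.q 425 (.a 1 [] (.d 332 3373 301 3404 456)
 (.a 1 [301] (.d 456 3404 332 3435 487)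
 (.a 0 [332,456] (.q 330 (.a 1 [] (.d 297 2312 264 2345 429)
 (.a 1 [264] (.d 429 2345 297 2378 462)
 (.a 0 [297] (.q 427 (.a 1 [] (.d 331 1323 299 1355 459)
 (.a 1 [299] (.d 459 1355 331 1387 491)
 (.a 1 [331] (.r 429 2378 462 (.r 426 425 428 (.d 362 1322 298 1354 458)))
 .e))))
 (.a 0 [429] (.q 362 (.a 1 [] (.d 298 1290 266 1322 426)
 (.a 1 [266] (.d 426 1322 298 1354 458)
 (.a 0 [298] (.q 364 (.a 1 [] (.d 361 360 360 361 365)
 (.a 1 [360] (.d 365 361 361 362 366)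
 (.a 1 [361] (.r 426 1354 458 (.d 457 3405 333 3436 488))
 .e))))
 (.a 0 [426] (.q 427 (.a 1 [] (.d 331 1323 299 1355 459)
 (.a 1 [299] (.d 459 1355 331 1387 491)
 (.a 0 [331] (.q 364 (.a 1 [] (.d 361 360 360 361 365)
 (.a 1 [360] (.d 365 361 361 362 366)
 (.a 1 [361] (.r 365 362 366 (.d 458 3406 334 3437 489))
 (.a 1 [365] (.r 361 360 360 (.d 460 2376 328 2409 493))
 .e)))))
 (.a 0 [459] (.r 299 1323 331 (.r 298 1290 266 (.r 297 2312 264 (.d 300 296 296 297 301))))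
 .e)))))
 .e)))))
 .e)))))
 .e))))
 .e)))) (by decide +kernel)

theorem b0_2007 : S (PX [432] [425,430,433,434]) := S.of (.q 395 (.a 1 [] (.d 393 392 392 393 397)
 (.a 1 [392] (.d 397 393 393 394 398)
 (.a 0 [393] (.q 427 (.a 1 [] (.d 331 1323 299 1355 459)
 (.a 1 [299] (.d 459 1355 331 1387 491)
 (.a 0 [331,459] (.q 361 (.a 1 [] (.d 328 2343 295 2376 460)
 (.a 1 [295] (.d 460 2376 328 2409 493)
 (.a 0 [328,460] (.q 330 (.a 1 [] (.d 297 2312 264 2345 429)
 (.a 1 [264] (.d 429 2345 297 2378 462)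
 (.a 0 [297,429] (.q 362 (.a 1 [] (.d 360 359 359 360 364)
 (.a 1 [359] (.d 364 360 360 361 365)
 (.a 1 [360] (.d 298 1290 266 1322 426)
 .e))))
 .e))))
 .e))))
 .e))))
 (.a 0 [397] (.q 330 (.a 1 [] (.d 297 2312 264 2345 429)
 (.a 1 [264] (.d 429 2345 297 2378 462)
 (.a 0 [297,429] (.q 299 (.a 1 [] (.d 331 1291 267 1323 427)
 (.a 1 [267] (.r 427 1323 331 (.r 392 392 393 (.d 361 3340 268 3371 423)))
 (.a 1 [331] (.r 392 392 393 (.d 361 3340 268 3371 423))
 .e))))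
 .e))))
 .e))))) (by decide +kernel)

theorem b0_2008 : S (PX [432] [427,430,433,434]) := S.of (.q 429 (.a 1 [] (.d 330 2345 297 2378 462)
 (.a 1 [297] (.d 462 2378 330 2411 495)
 (.a 0 [330,462] (.q 332 (.a 1 [] (.d 301 3342 270 3373 425)
 (.a 1 [270] (.d 425 3373 301 3404 456)
 (.a 0 [301] (.q 364 (.a 1 [] (.d 300 1292 268 1324 428)
 (.a 1 [268] (.d 428 1324 300 1356 460)
 (.a 0 [300,428] (.q 365 (.a 1 [] (.d 362 361 361 362 366)
 (.a 1 [361] (.d 366 362 362 363 367)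
 (.a 0 [362,366] (.q 398 (.a 1 [] (.d 299 2314 266 2347 431)
 (.a 1 [266] (.d 431 2347 299 2380 464)
 (.a 1 [299] (.r 397 394 395 (.d 461 1357 333 1389 493))
 .e))))
 .e))))
 .e))))
 (.a 0 [425] (.r 301 3342 270 (.q 395 (.a 1 [] (.d 393 392 392 393 397)
 (.a 1 [392] (.d 397 393 393 394 398)
 (.a 0 [393,397] (.q 364 (.a 1 [] (.d 300 1292 268 1324 428)
 (.a 1 [268] (.d 428 1324 300 1356 460)
 (.a 0 [300] (.q 362 (.a 1 [] (.d 361 360 360 361 365)
 (.a 1 [360] (.d 365 361 361 362 366)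
 (.a 1 [361] (.r 428 1356 460 (.d 461 2377 329 2410 494))
 .e))))
 (.a 0 [428] (.r 300 1292 268 (.q 426 (.a 1 [] (.d 333 3374 302 3405 457)
 (.a 1 [302] (.d 457 3405 333 3436 488)
 (.a 1 [457] (.r 302 3374 333 (.d 303 299 299 300 304))
 (.a 0 [333] (.q 299 (.a 1 [] (.d 298 297 297 298 302)
 (.a 1 [297] (.d 302 298 298 299 303)
 (.a 0 [298,302] (.q 365 (.a 1 [] (.d 362 361 361 362 366)
 (.a 1 [361] (.d 366 362 362 363 367)
 (.a 1 [362] (.d 266 2281 233 2314 398)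
 .e))))
 .e))))
 .e))))))
 .e)))))
 .e)))))
 .e)))))
 .e)))) (by decide +kernel)

theorem b0_2009 : S (PX [432] [428,430,433,434]) := S.of (.q 395 (.a 1 [] (.d 393 392 392 393 397)
 (.a 1 [392] (.d 397 393 393 394 398)
 (.a 0 [393] (.q 427 (.a 1 [] (.d 331 1323 299 1355 459)
 (.a 1 [299] (.d 459 1355 331 1387 491)
 (.a 0 [331,459] (.q 330 (.a 1 [] (.d 297 2312 264 2345 429)
 (.a 1 [264] (.d 429 2345 297 2378 462)
 (.a 0 [297,429] (.q 361 (.a 1 [] (.d 328 2343 295 2376 460)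
 (.a 1 [295] (.d 460 2376 328 2409 493)
 (.a 0 [328,460] (.q 362 (.a 1 [] (.d 360 359 359 360 364)
 (.a 1 [359] (.d 364 360 360 361 365)
 (.a 1 [360] (.d 298 1290 266 1322 426)
 .e))))
 .e))))
 .e))))
 .e))))
 (.a 0 [397] (.q 429 (.a 1 [] (.d 330 2345 297 2378 462)
 (.a 1 [297] (.d 462 2378 330 2411 495)
 (.a 0 [330,462] (.q 425 (.a 1 [] (.d 332 3373 301 3404 456)
 (.a 1 [301] (.d 456 3404 332 3435 487)
 (.a 0 [332,456] (.q 491 (.a 1 [] (.r 427 1387 459 (.r 392 392 393 (.d 458 2407 359 2440 524)))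
 (.a 1 [335] (.r 392 392 393 (.d 458 2407 359 2440 524))
 (.a 1 [359] (.r 427 1387 459 (.r 392 392 393 (.r 458 2440 524 (.d 489 3437 365 3468 520))))
 (.a 1 [366] (.r 392 392 393 (.d 458 2407 359 2440 524))
 (.a 1 [459] (.r 392 392 393 (.d 458 2407 359 2440 524))
 (.a 1 [524] (.r 427 1387 459 (.r 392 392 393 (.r 458 2407 359 (.d 489 3437 365 3468 520))))
 (.a 0 [392,393,458] (.q 460 (.a 1 [] (.d 398 3439 367 3470 522)
 (.a 1 [367] (.d 522 3470 398 3501 553)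
 (.a 1 [398] (.r 427 1387 459 (.d 493 2409 361 2442 526))
 .e))))
 .e))))))))
 .e))))
 .e))))
 .e))))) (by decide +kernel)

theorem b0_2010 : S (PX [432] [430,433,434,488]) := S.of (.q 395 (.a 1 [] (.d 393 392 392 393 397)
 (.a 1 [392] (.d 397 393 393 394 398)
 (.a 0 [393,397] (.q 331 (.a 1 [] (.d 299 1291 267 1323 427)
 (.a 1 [267] (.d 427 1323 299 1355 459)
 (.a 0 [299,427] (.q 332 (.a 1 [] (.d 301 3342 270 3373 425)
 (.a 1 [270] (.d 425 3373 301 3404 456)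
 (.a 0 [301,425] (.q 330 (.a 1 [] (.d 329 328 328 329 333)
 (.a 1 [328] (.d 333 329 329 330 334)
 (.a 1 [329] (.d 297 2312 264 2345 429)
 .e))))
 .e))))
 .e))))
 .e)))) (by decide +kernel)

theorem b0_2011 : S (PX [] [430,434,488]) := S.of (.q 395 (.a 1 [] (.d 393 392 392 393 397)
 (.a 1 [392] (.d 397 393 393 394 398)
 (.a 0 [393,397] (.q 331 (.a 1 [] (.d 299 1291 267 1323 427)
 (.a 1 [267] (.d 427 1323 299 1355 459)
 (.a 0 [299,427] (.q 332 (.a 1 [] (.d 301 3342 270 3373 425)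
 (.a 1 [270] (.d 425 3373 301 3404 456)
 (.a 0 [301,425] (.q 330 (.a 1 [] (.d 329 328 328 329 333)
 (.a 1 [328] (.d 333 329 329 330 334)
 (.a 1 [329] (.d 297 2312 264 2345 429)
 .e))))
 .e))))
 .e))))
 .e)))) (by decide +kernel)

theorem b0_2012 : S (PX [] [332,431,434]) := S.of (.q 395 (.a 1 [] (.d 393 392 392 393 397)
 (.a 1 [392] (.d 397 393 393 394 398)
 (.a 0 [393,397] (.q 427 (.a 1 [] (.d 331 1323 299 1355 459)
 (.a 1 [299] (.d 459 1355 331 1387 491)
 (.a 0 [331,459] (.q 330 (.a 1 [] (.d 297 2312 264 2345 429)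
 (.a 1 [264] (.d 429 2345 297 2378 462)
 (.a 0 [297,429] (.q 365 (.a 1 [] (.d 334 3375 303 3406 458)
 (.a 1 [303] (.d 458 3406 334 3437 489)
 (.a 1 [334] (.r 458 3437 489 (.r 362 1354 426 (.d 364 361 361 362 366)))
 (.a 0 [458] (.q 362 (.a 1 [] (.d 364 361 361 362 366)
 (.a 1 [361] (.d 298 1290 266 1322 426)
 .e)))
 .e)))))
 .e))))
 .e))))
 .e)))) (by decide +kernel)

theorem b0_2013 : S (PX [] [397,431,434]) := S.of (.q 332 (.a 1 [] (.d 301 3342 270 3373 425)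
 (.a 1 [270] (.d 425 3373 301 3404 456)
 (.a 0 [301,425] (.q 330 (.a 1 [] (.d 297 2312 264 2345 429)
 (.a 1 [264] (.d 429 2345 297 2378 462)
 (.a 0 [297] (.q 362 (.a 1 [] (.d 298 1290 266 1322 426)
 (.a 1 [266] (.d 426 1322 298 1354 458)
 (.a 0 [298,426] (.q 300 (.a 1 [] (.d 364 1292 268 1324 428)
 (.a 1 [268] (.r 364 1324 428 (.d 365 361 361 362 366))
 (.a 1 [428] (.r 364 1292 268 (.d 365 361 361 362 366))
 (.a 0 [364] (.q 331 (.a 1 [] (.d 329 328 328 329 333)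
 (.a 1 [328] (.d 333 329 329 330 334)
 (.a 1 [329] (.d 269 3310 238 3341 393)
 .e))))
 .e)))))
 .e))))
 (.a 0 [429] (.q 333 (.a 1 [] (.d 331 329 329 330 334)
 (.a 0 [329,331,334] (.q 426 (.a 1 [] (.d 362 1322 298 1354 458)
 (.a 0 [298,362,458] (.q 364 (.a 1 [] (.d 300 1292 268 1324 428)
 (.a 1 [268] (.d 428 1324 300 1356 460)
 (.a 1 [300] (.d 395 3374 302 3405 457)
 .e))))
 .e)))
 .e)))
 .e)))))
 .e)))) (by decide +kernel)

theorem b0_2014 : S (PX [433] [299,431,432,434]) := S.of (.q 332 (.a 1 [] (.d 301 3342 270 3373 425)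
 (.a 1 [270] (.d 425 3373 301 3404 456)
 (.a 0 [301,425] (.q 395 (.a 1 [] (.d 393 392 392 393 397)
 (.a 1 [392] (.d 397 393 393 394 398)
 (.a 0 [393,397] (.q 427 (.a 1 [] (.d 459 1355 331 1387 491)
 (.a 0 [331,459,491] (.q 361 (.a 1 [] (.d 328 2343 295 2376 460)
 (.a 1 [295] (.d 460 2376 328 2409 493)
 (.a 1 [328] (.r 460 2409 493 (.r 364 1356 428 (.d 362 360 360 361 365)))
 (.a 0 [460] (.q 364 (.a 1 [] (.d 362 360 360 361 365)
 (.a 1 [360] (.d 300 1292 268 1324 428)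
 .e)))
 .e)))))
 .e)))
 .e))))
 .e)))) (by decide +kernel)

theorem b0_2015 : S (PX [433] [331,431,432,434]) := S.of (.q 429 (.a 1 [] (.d 330 2345 297 2378 462)
 (.a 1 [297] (.d 462 2378 330 2411 495)
 (.a 0 [330,462] (.q 397 (.a 1 [] (.d 395 393 393 394 398)
 (.a 0 [393,395,398] (.q 365 (.a 1 [] (.d 333 1325 301 1357 461)
 (.a 1 [301] (.d 461 1357 333 1389 493)
 (.a 1 [461] (.r 301 1325 333 (.d 332 3342 270 3373 425))
 (.a 0 [333] (.q 332 (.a 1 [] (.d 301 3342 270 3373 425)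
 (.a 1 [270] (.d 425 3373 301 3404 456)
 (.a 0 [301,425] (.q 364 (.a 1 [] (.d 362 361 361 362 366)
 (.a 1 [361] (.d 366 362 362 363 367)
 (.a 1 [362] (.d 300 1292 268 1324 428)
 .e))))
 .e))))
 .e)))))
 .e)))
 .e)))) (by decide +kernel)

theorem b0_2016 : S (PX [433] [332,431,432,434]) := S.of (.q 395 (.a 1 [] (.d 393 392 392 393 397)
 (.a 1 [392] (.d 397 393 393 394 398)
 (.a 0 [393,397] (.q 427 (.a 1 [] (.d 331 1323 299 1355 459)
 (.a 1 [299] (.d 459 1355 331 1387 491)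
 (.a 0 [331,459] (.q 460 (.a 1 [] (.d 361 2376 328 2409 493)
 (.a 1 [328] (.d 493 2409 361 2442 526)
 (.a 0 [361] (.q 429 (.a 1 [] (.d 330 2345 297 2378 462)
 (.a 1 [297] (.d 462 2378 330 2411 495)
 (.a 0 [330] (.r 495 2411 462 (.r 526 2442 493 (.d 464 3474 402 3505 557)))
 (.a 0 [462] (.q 428 (.a 1 [] (.d 426 425 425 426 430)
 (.a 1 [425] (.d 492 1388 364 1420 524)
 .e)))
 .e)))))
 (.a 0 [493] (.q 365 (.a 1 [] (.d 334 3375 303 3406 458)
 (.a 1 [303] (.d 458 3406 334 3437 489)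
 (.a 1 [334] (.r 361 2376 328 (.r 362 361 364 (.r 458 3437 489 (.d 426 1354 330 1386 490))))
 (.a 0 [458] (.q 330 (.a 1 [] (.d 297 2312 264 2345 429)
 (.a 1 [264] (.d 429 2345 297 2378 462)
 (.a 1 [297] (.r 361 2376 328 (.r 362 361 364 (.d 298 1290 266 1322 426)))
 .e))))
 .e)))))
 .e)))))
 .e))))
 .e)))) (by decide +kernel)

theorem b0_2017 : S (PX [433] [333,431,432,434]) := S.of (.q 395 (.a 1 [] (.d 393 392 392 393 397)
 (.a 1 [392] (.d 397 393 393 394 398)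
 (.a 0 [393,397] (.q 427 (.a 1 [] (.d 331 1323 299 1355 459)
 (.a 1 [299] (.d 459 1355 331 1387 491)
 (.a 0 [331,459] (.q 365 (.a 1 [] (.d 334 3375 303 3406 458)
 (.a 1 [303] (.d 458 3406 334 3437 489)
 (.a 0 [334,458] (.q 332 (.a 1 [] (.d 301 3342 270 3373 425)
 (.a 1 [270] (.d 425 3373 301 3404 456)
 (.a 0 [301,425] (.q 364 (.a 1 [] (.d 362 361 361 362 366)
 (.a 1 [361] (.d 366 362 362 363 367)
 (.a 1 [362] (.d 300 1292 268 1324 428)
 .e))))
 .e))))
 .e))))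
 .e))))
 .e)))) (by decide +kernel)

theorem b0_2018 : S (PX [433] [361,431,432,434]) := S.of (.q 395 (.a 1 [] (.d 393 392 392 393 397)
 (.a 1 [392] (.d 397 393 393 394 398)
 (.a 0 [393,397] (.q 427 (.a 1 [] (.d 331 1323 299 1355 459)
 (.a 1 [299] (.d 459 1355 331 1387 491)
 (.a 0 [331,459] (.q 429 (.a 1 [] (.d 330 2345 297 2378 462)
 (.a 1 [297] (.d 462 2378 330 2411 495)
 (.a 0 [330,462] (.q 458 (.a 1 [] (.d 365 3406 334 3437 489)
 (.a 1 [334] (.d 489 3437 365 3468 520)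
 (.a 0 [365,489] (.q 425 (.a 1 [] (.d 332 3373 301 3404 456)
 (.a 1 [301] (.d 456 3404 332 3435 487)
 (.a 1 [332] (.r 426 425 428 (.d 490 1386 362 1418 522))
 .e))))
 .e))))
 .e))))
 .e))))
 .e)))) (by decide +kernel)

theorem b0_2019 : S (PX [433] [365,431,432,434]) := S.of (.q 395 (.a 1 [] (.d 393 392 392 393 397)
 (.a 1 [392] (.d 397 393 393 394 398)
 (.a 0 [393,397] (.q 331 (.a 1 [] (.d 299 1291 267 1323 427)
 (.a 1 [267] (.d 427 1323 299 1355 459)
 (.a 0 [299,427] (.q 332 (.a 1 [] (.d 301 3342 270 3373 425)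
 (.a 1 [270] (.d 425 3373 301 3404 456)
 (.a 0 [301,425] (.q 333 (.a 1 [] (.d 330 329 329 330 334)
 (.a 1 [329] (.d 334 330 330 331 335)
 (.a 1 [334] (.r 330 329 329 (.d 429 2345 297 2378 462))
 (.a 0 [330] (.q 364 (.a 1 [] (.d 300 1292 268 1324 428)
 (.a 1 [268] (.d 428 1324 300 1356 460)
 (.a 1 [300] (.d 302 3343 271 3374 426)
 .e))))
 .e)))))
 .e))))
 .e))))
 .e)))) (by decide +kernel)

theorem b0_2020 : S (PX [433] [392,431,432,434]) := S.of (.q 332 (.a 1 [] (.d 301 3342 270 3373 425)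
 (.a 1 [270] (.d 425 3373 301 3404 456)
 (.a 0 [301,425] (.q 364 (.a 1 [] (.d 300 1292 268 1324 428)
 (.a 1 [268] (.d 428 1324 300 1356 460)
 (.a 0 [300,428] (.q 429 (.a 1 [] (.d 330 2345 297 2378 462)
 (.a 1 [297] (.d 462 2378 330 2411 495)
 (.a 0 [330,462] (.q 397 (.a 1 [] (.d 395 393 393 394 398)
 (.a 0 [393,395,398] (.q 365 (.a 1 [] (.d 362 361 361 362 366)
 (.a 1 [361] (.d 366 362 362 363 367)
 (.a 1 [362] (.d 461 1357 333 1389 493)
 .e))))
 .e)))
 .e))))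
 .e))))
 .e)))) (by decide +kernel)

theorem b0_2021 : S (PX [433] [393,431,432,434]) := S.of (.q 332 (.a 1 [] (.d 301 3342 270 3373 425)
 (.a 1 [270] (.d 425 3373 301 3404 456)
 (.a 0 [301,425] (.q 364 (.a 1 [] (.d 300 1292 268 1324 428)
 (.a 1 [268] (.d 428 1324 300 1356 460)
 (.a 0 [300] (.q 361 (.a 1 [] (.d 362 360 360 361 365)
 (.a 1 [360] (.r 460 1356 428 (.d 427 2376 328 2409 493))
 .e)))
 (.a 0 [428] (.q 429 (.a 1 [] (.d 330 2345 297 2378 462)
 (.a 1 [297] (.d 462 2378 330 2411 495)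
 (.a 0 [330,462] (.q 365 (.a 1 [] (.d 362 361 361 362 366)
 (.a 1 [361] (.d 366 362 362 363 367)
 (.a 0 [362] (.q 398 (.a 1 [] (.r 397 394 395 (.d 461 1357 333 1389 493))
 (.a 1 [296] (.r 367 363 366 (.d 460 3408 336 3439 491))
 (.a 1 [329] (.r 367 363 366 (.d 460 3408 336 3439 491))
 (.a 1 [395] (.r 367 363 366 (.d 460 3408 336 3439 491))
 .e)))))
 (.a 0 [366] (.q 427 (.a 1 [] (.d 334 3375 303 3406 458)
 (.a 1 [303] (.d 458 3406 334 3437 489)
 (.a 1 [334] (.r 361 361 362 (.d 460 2376 328 2409 493))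
 .e))))
 .e)))))
 .e))))
 .e)))))
 .e)))) (by decide +kernel)

theorem b0_2022 : S (PX [433] [395,431,432,434]) := S.of (.q 332 (.a 1 [] (.d 301 3342 270 3373 425)
 (.a 1 [301] (.q 364 (.a 1 [] (.d 300 1292 268 1324 428)
 (.a 1 [428] (.q 429 (.a 1 [] (.d 330 2345 297 2378 462)
 (.a 1 [297] (.d 462 2378 330 2411 495)
 (.a 0 [330,462] (.q 362 (.a 1 [] (.d 361 360 360 361 365)
 (.a 1 [360] (.d 365 361 361 362 366)
 (.a 0 [361] (.r 365 362 366 (.q 334 (.a 1 [] (.d 303 3344 272 3375 427)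
 (.a 1 [272] (.d 427 3375 303 3406 458)
 (.a 0 [303,427] (.q 331 (.a 1 [] (.r 300 1292 268 (.d 393 3341 269 3372 424))
 (.a 1 [237] (.r 333 331 335 (.r 397 1357 461 (.d 430 2346 298 2379 463)))
 (.a 1 [268] (.r 333 331 335 (.r 397 1357 461 (.d 430 2346 298 2379 463)))
 (.a 1 [299] (.r 333 331 335 (.r 397 1357 461 (.d 430 2346 298 2379 463)))
 .e)))))
 .e)))))
 (.a 0 [365] (.r 361 360 360 (.r 300 1292 268 (.q 393 (.a 1 [] (.d 331 3341 269 3372 424)
 (.a 1 [269] (.r 425 3404 456 (.d 457 1353 329 1385 489))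
 .e)))))
 .e)))))
 .e))))
 (.a 1 [300] (.q 361 (.a 1 [] (.d 362 360 360 361 365)
 (.a 1 [360] (.r 460 1356 428 (.d 427 2376 328 2409 493))
 .e)))
 .e))))
 (.a 1 [425] (.q 364 (.a 1 [] (.d 300 1292 268 1324 428)
 (.a 1 [428] (.q 429 (.a 1 [] (.d 330 2345 297 2378 462)
 (.a 1 [297] (.d 462 2378 330 2411 495)
 (.a 0 [330,462] (.q 365 (.a 1 [] (.d 362 361 361 362 366)
 (.a 1 [361] (.d 366 362 362 363 367)
 (.a 1 [362] (.r 301 3342 270 (.r 367 363 366 (.r 334 2349 400 (.d 268 2283 235 1292 300))))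
 (.a 0 [366] (.q 334 (.a 1 [] (.d 303 3344 272 3375 427)
 (.a 1 [272] (.d 427 3375 303 3406 458)
 (.a 1 [303] (.r 301 3342 270 (.r 333 1325 397 (.d 335 331 331 332 336)))
 .e))))
 .e)))))
 .e))))
 (.a 1 [300] (.q 361 (.a 1 [] (.d 362 360 360 361 365)
 (.a 1 [360] (.r 460 1356 428 (.d 427 2376 328 2409 493))
 .e)))
 .e))))
 (.a 1 [270] (.d 425 3373 301 3404 456)
 .e))))) (by decide +kernel)

theorem b0_2023 : S (PX [433] [397,431,432,434]) := S.of (.q 429 (.a 1 [] (.d 330 2345 297 2378 462)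
 (.a 0 [330] (.r 495 2411 462 (.q 332 (.a 1 [] (.d 301 3342 270 3373 425)
 (.a 1 [301] (.r 425 3404 456 (.q 427 (.a 1 [] (.r 428 425 426 (.d 364 1324 300 1356 460))
 (.a 1 [428] (.q 361 (.a 1 [] (.d 328 2343 295 2376 460)
 (.a 1 [295] (.d 460 2376 328 2409 493)
 (.a 0 [328,460] (.q 458 (.a 1 [] (.d 365 3406 334 3437 489)
 (.a 1 [334] (.d 489 3437 365 3468 520)
 (.a 1 [365] (.r 489 3468 520 (.r 393 1385 457 (.r 392 392 395 (.d 491 2407 359 2440 524))))
 (.a 1 [489] (.r 365 3406 334 (.r 362 361 364 (.r 359 359 360 (.d 392 2374 326 2407 491))))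
 .e)))))
 .e))))
 (.a 1 [426] (.q 460 (.a 1 [] (.d 361 2376 328 2409 493)
 (.a 1 [328] (.d 493 2409 361 2442 526)
 (.a 1 [361] (.r 526 2442 493 (.d 464 3474 402 3505 557))
 (.a 1 [493] (.r 364 1356 428 (.r 361 2376 328 (.d 362 360 360 361 365)))
 .e)))))
 (.a 1 [460] (.q 458 (.a 1 [] (.d 365 3406 334 3437 489)
 (.a 1 [334] (.d 489 3437 365 3468 520)
 (.a 1 [365] (.r 426 425 428 (.d 490 1386 362 1418 522))
 .e))))
 .e))))))
 (.a 1 [425] (.r 301 3342 270 (.q 364 (.a 1 [] (.d 300 1292 268 1324 428)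
 (.a 1 [300] (.q 367 (.a 1 [] (.r 460 1356 428 (.d 398 3408 336 3439 491))
 (.a 1 [336] (.r 400 2349 334 (.r 460 1356 428 (.r 365 363 366 (.r 398 3439 491 (.r 361 361 362 (.d 427 2376 328 2409 493))))))
 (.a 1 [398] (.r 334 2349 400 (.r 365 363 366 (.d 427 3375 303 3406 458)))
 .e))))
 (.a 1 [428] (.q 464 (.a 1 [] (.d 402 3443 371 3474 526)
 (.a 1 [371] (.d 526 3474 402 3505 557)
 (.a 0 [402,526] (.q 367 (.a 1 [] (.r 268 1292 300 (.d 334 2283 235 2316 400))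
 (.a 1 [235] (.r 365 363 366 (.r 334 2349 400 (.d 427 3375 303 3406 458)))
 (.a 1 [400] (.r 365 363 366 (.r 268 1292 300 (.r 334 2283 235 (.d 427 3375 303 3406 458))))
 (.a 0 [334] (.q 361 (.a 1 [] (.d 365 361 362 363 366)
 (.a 1 [366] (.d 362 360 360 361 365)
 (.a 0 [362,365] (.q 460 (.a 1 [] (.d 427 2376 328 2409 493)
 (.a 1 [328] (.d 398 3408 336 3439 491)
 .e)))
 .e))))
 .e)))))
 .e))))
 .e)))))
 (.a 1 [270] (.d 425 3373 301 3404 456)
 .e))))))
 (.a 1 [462] (.q 332 (.a 1 [] (.d 301 3342 270 3373 425)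
 (.a 1 [270] (.d 425 3373 301 3404 456)
 (.a 0 [301,425] (.q 364 (.a 1 [] (.d 300 1292 268 1324 428)
 (.a 1 [268] (.d 428 1324 300 1356 460)
 (.a 0 [300,428] (.q 362 (.a 1 [] (.d 361 360 360 361 365)
 (.a 1 [360] (.d 365 361 361 362 366)
 (.a 1 [361] (.r 330 2345 297 (.d 426 1322 298 1354 458))
 .e))))
 .e))))
 .e))))
 (.a 1 [297] (.d 462 2378 330 2411 495)
 .e))))) (by decide +kernel)

theorem b0_2024 : S (PX [433] [398,431,432,434]) := S.of (.q 332 (.a 1 [] (.d 301 3342 270 3373 425)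
 (.a 1 [270] (.d 425 3373 301 3404 456)
 (.a 0 [301,425] (.q 428 (.a 1 [] (.d 364 1324 300 1356 460)
 (.a 0 [300,364,460] (.q 395 (.a 1 [] (.d 393 392 392 393 397)
 (.a 0 [392,393,397] (.q 329 (.a 1 [] (.d 362 2344 296 2377 461)
 (.a 0 [296,362,461] (.q 331 (.a 1 [] (.d 330 328 328 329 333)
 (.a 1 [328] (.d 427 1323 299 1355 459)
 .e)))
 .e)))
 .e)))
 .e)))
 .e)))) (by decide +kernel)

theorem b0_2025 : S (PX [433] [399,431,432,434]) := S.of (.q 395 (.a 1 [] (.d 393 392 392 393 397)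
 (.a 1 [392] (.d 397 393 393 394 398)
 (.a 0 [393,397] (.q 427 (.a 1 [] (.d 331 1323 299 1355 459)
 (.a 1 [299] (.d 459 1355 331 1387 491)
 (.a 0 [331,459] (.q 365 (.a 1 [] (.d 334 3375 303 3406 458)
 (.a 1 [303] (.d 458 3406 334 3437 489)
 (.a 0 [334,458] (.q 332 (.a 1 [] (.d 301 3342 270 3373 425)
 (.a 1 [270] (.d 425 3373 301 3404 456)
 (.a 0 [301,425] (.q 364 (.a 1 [] (.d 362 361 361 362 366)
 (.a 1 [361] (.d 366 362 362 363 367)
 (.a 1 [362] (.d 300 1292 268 1324 428)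
 .e))))
 .e))))
 .e))))
 .e))))
 .e)))) (by decide +kernel)

theorem b0_2026 : S (PX [433] [424,431,432,434]) := S.of (.q 429 (.a 1 [] (.d 330 2345 297 2378 462)
 (.a 1 [297] (.d 462 2378 330 2411 495)
 (.a 0 [330,462] (.q 397 (.a 1 [] (.d 395 393 393 394 398)
 (.a 0 [393,395,398] (.q 365 (.a 1 [] (.d 333 1325 301 1357 461)
 (.a 1 [301] (.d 461 1357 333 1389 493)
 (.a 1 [461] (.r 301 1325 333 (.d 332 3342 270 3373 425))
 (.a 0 [333] (.q 427 (.a 1 [] (.d 334 3375 303 3406 458)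
 (.a 1 [303] (.d 458 3406 334 3437 489)
 (.a 1 [334] (.r 493 1389 461 (.d 460 2409 361 2442 526))
 .e))))
 .e)))))
 .e)))
 .e)))) (by decide +kernel)

theorem b0_2027 : S (PX [433] [425,431,432,434]) := S.of (.q 395 (.a 1 [] (.d 393 392 392 393 397)
 (.a 1 [392] (.d 397 393 393 394 398)
 (.a 0 [393,397] (.q 427 (.a 1 [] (.d 331 1323 299 1355 459)
 (.a 1 [299] (.d 459 1355 331 1387 491)
 (.a 0 [331,459] (.q 361 (.a 1 [] (.d 328 2343 295 2376 460)
 (.a 1 [295] (.d 460 2376 328 2409 493)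
 (.a 0 [328,460] (.q 458 (.a 1 [] (.d 365 3406 334 3437 489)
 (.a 1 [334] (.d 489 3437 365 3468 520)
 (.a 1 [489] (.r 365 3406 334 (.r 362 361 364 (.d 426 1354 330 1386 490)))
 (.a 0 [365] (.q 362 (.a 1 [] (.d 360 359 359 360 364)
 (.a 1 [359] (.d 426 1354 330 1386 490)
 .e)))
 .e)))))
 .e))))
 .e))))
 .e)))) (by decide +kernel)

theorem b0_2028 : S (PX [433] [427,431,432,434]) := S.of (.q 429 (.a 1 [] (.d 330 2345 297 2378 462)
 (.a 1 [297] (.d 462 2378 330 2411 495)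
 (.a 0 [330,462] (.q 397 (.a 1 [] (.d 395 393 393 394 398)
 (.a 0 [393,395,398] (.q 365 (.a 1 [] (.d 333 1325 301 1357 461)
 (.a 1 [301] (.d 461 1357 333 1389 493)
 (.a 1 [461] (.r 301 1325 333 (.d 332 3342 270 3373 425))
 (.a 0 [333] (.q 332 (.a 1 [] (.d 301 3342 270 3373 425)
 (.a 1 [270] (.d 425 3373 301 3404 456)
 (.a 0 [301,425] (.q 364 (.a 1 [] (.d 362 361 361 362 366)
 (.a 1 [361] (.d 366 362 362 363 367)
 (.a 1 [362] (.d 300 1292 268 1324 428)
 .e))))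
 .e))))
 .e)))))
 .e)))
 .e)))) (by decide +kernel)

theorem b0_2029 : S (PX [433] [428,431,432,434]) := S.of (.q 429 (.a 1 [] (.d 330 2345 297 2378 462)
 (.a 1 [297] (.d 462 2378 330 2411 495)
 (.a 0 [330,462] (.q 397 (.a 1 [] (.d 395 393 393 394 398)
 (.a 0 [393,395,398] (.q 365 (.a 1 [] (.d 333 1325 301 1357 461)
 (.a 1 [301] (.d 461 1357 333 1389 493)
 (.a 1 [461] (.r 301 1325 333 (.d 332 3342 270 3373 425))
 (.a 0 [333] (.q 427 (.a 1 [] (.d 334 3375 303 3406 458)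
 (.a 1 [303] (.d 458 3406 334 3437 489)
 (.a 1 [334] (.r 493 1389 461 (.d 460 2409 361 2442 526))
 .e))))
 .e)))))
 .e)))
 .e)))) (by decide +kernel)

theorem b0_2030 : S (PX [433] [429,431,432,434]) := S.of (.q 395 (.a 1 [] (.d 393 392 392 393 397)
 (.a 0 [397] (.q 425 (.a 1 [] (.d 332 3373 301 3404 456)
 (.a 0 [332] (.r 392 392 393 (.r 456 3435 487 (.q 458 (.a 1 [] (.d 359 2374 326 2407 491)
 (.a 1 [491] (.q 427 (.a 1 [] (.d 331 1323 299 1355 459)
 (.a 1 [428] (.q 430 (.a 1 [] (.d 331 1323 299 1355 459)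
 (.a 1 [331] (.d 365 3406 334 3437 489)
 .e)))
 (.a 1 [331] (.d 365 3406 334 3437 489)
 (.a 1 [430] (.q 428 (.a 1 [] (.d 365 3406 334 3437 489)
 (.a 1 [334] (.d 489 3437 365 3468 520)
 (.a 1 [365] (.d 331 1323 299 1355 459)
 .e))))
 .e)))))
 (.a 1 [428] (.q 430 (.a 1 [] (.d 359 2374 326 2407 491)
 (.a 1 [491] (.q 427 (.a 1 [] (.d 331 1323 299 1355 459)
 (.a 1 [299] (.d 489 3437 365 3468 520)
 .e)))
 .e)))
 (.a 1 [430] (.q 428 (.a 1 [] (.d 359 2374 326 2407 491)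
 (.a 1 [491] (.q 427 (.a 1 [] (.d 331 1323 299 1355 459)
 (.a 1 [299] (.d 489 3437 365 3468 520)
 .e)))
 .e)))
 (.a 1 [359] (.r 491 2440 524 (.r 427 1387 459 (.d 489 3437 365 3468 520)))
 .e))))))))
 (.a 0 [456] (.q 428 (.a 1 [] (.r 332 3373 301 (.d 364 1324 300 1356 460))
 (.a 0 [301] (.r 392 392 393 (.q 364 (.a 1 [] (.d 332 1324 300 1356 460)
 (.a 1 [365] (.q 333 (.a 1 [] (.d 332 1324 300 1356 460)
 (.a 1 [461] (.q 493 (.a 1 [] (.d 332 1324 300 1356 460)
 (.a 1 [460] (.d 302 3343 271 3374 426)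
 .e)))
 (.a 1 [332] (.d 302 3343 271 3374 426)
 (.a 1 [493] (.q 461 (.a 1 [] (.d 460 1356 332 1388 492)
 (.a 1 [332] (.d 362 2377 329 2410 494)
 .e)))
 .e)))))
 (.a 1 [460] (.q 365 (.a 1 [] (.d 362 361 361 362 366)
 (.a 1 [361] (.d 366 362 362 363 367)
 (.a 1 [366] (.r 362 361 361 (.d 461 2377 329 2410 494))
 (.a 0 [362] (.q 427 (.a 1 [] (.d 331 1323 299 1355 459)
 (.a 1 [299] (.d 459 1355 331 1387 491)
 (.a 1 [331] (.d 334 3375 303 3406 458)
 .e))))
 .e)))))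
 (.a 1 [333] (.q 365 (.a 1 [] (.d 332 1324 300 1356 460)
 (.a 1 [300] (.d 460 1356 332 1388 492)
 (.a 1 [332] (.d 362 361 361 362 366)
 .e))))
 (.a 1 [300] (.d 460 1356 332 1388 492)
 .e)))))))
 (.a 0 [365] (.r 332 3373 301 (.q 333 (.a 1 [] (.d 364 1324 300 1356 460)
 (.a 1 [461] (.q 493 (.a 1 [] (.d 364 1324 300 1356 460)
 (.a 1 [364] (.q 331 (.a 1 [] (.d 330 329 329 330 334)
 (.a 1 [329] (.d 334 330 330 331 335)
 (.a 1 [330] (.d 299 1291 267 1323 427)
 .e))))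
 .e)))
 (.a 1 [364] (.q 461 (.a 1 [] (.d 362 2377 329 2410 494)
 (.a 1 [329] (.d 494 2410 362 2443 527)
 (.a 1 [494] (.r 329 2377 362 (.r 331 329 330 (.d 427 1323 299 1355 459)))
 (.a 0 [362] (.q 331 (.a 1 [] (.d 330 329 329 330 334)
 (.a 1 [329] (.d 334 330 330 331 335)
 (.a 1 [330] (.d 299 1291 267 1323 427)
 .e))))
 .e)))))
 .e)))))
 (.a 1 [332] (.q 329 (.a 1 [] (.d 362 2344 296 2377 461)
 (.a 1 [296] (.r 393 392 392 (.d 361 1321 297 1353 457))
 .e)))
 (.a 1 [333] (.r 301 3373 332 (.q 461 (.a 1 [] (.d 362 2377 329 2410 494)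
 (.a 1 [329] (.d 494 2410 362 2443 527)
 (.a 0 [362,494] (.q 460 (.a 1 [] (.d 492 1388 364 1420 524)
 (.a 0 [364,492,524] (.q 427 (.a 1 [] (.d 331 1323 299 1355 459)
 (.a 1 [299] (.d 459 1355 331 1387 491)
 (.a 1 [331] (.d 361 2376 328 2409 493)
 .e))))
 .e)))
 .e)))))
 .e))))))
 (.a 1 [428] (.q 430 (.a 1 [] (.d 456 3404 332 3435 487)
 (.a 1 [332] (.r 392 392 393 (.q 458 (.a 1 [] (.d 359 2374 326 2407 491)
 (.a 1 [326] (.d 491 2407 359 2440 524)
 (.a 1 [359] (.r 491 2440 524 (.r 427 1387 459 (.d 489 3437 365 3468 520)))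
 (.a 0 [491] (.q 427 (.a 1 [] (.d 331 1323 299 1355 459)
 (.a 1 [299] (.d 489 3437 365 3468 520)
 .e)))
 .e))))))
 .e)))
 (.a 1 [430] (.q 428 (.a 1 [] (.d 456 3404 332 3435 487)
 (.a 1 [332] (.q 329 (.a 1 [] (.d 362 2344 296 2377 461)
 (.a 1 [296] (.r 393 392 392 (.d 361 1321 297 1353 457))
 .e)))
 .e)))
 (.a 1 [301] (.d 456 3404 332 3435 487)
 .e)))))))
 (.a 1 [393] (.q 428 (.a 1 [] (.q 332 (.a 1 [] (.d 364 1324 300 1356 460)
 (.a 1 [300] (.d 425 3373 301 3404 456)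
 .e)))
 (.a 1 [332] (.q 459 (.a 1 [] (.d 427 1355 331 1387 491)
 (.a 1 [331] (.r 397 394 398 (.d 490 3438 366 3469 521))
 .e)))
 (.a 1 [362] (.q 332 (.a 1 [] (.d 364 1324 300 1356 460)
 (.a 1 [300] (.d 425 3373 301 3404 456)
 .e)))
 (.a 1 [460] (.q 362 (.a 1 [] (.d 329 2344 296 2377 461)
 (.a 1 [296] (.d 461 2377 329 2410 494)
 (.a 0 [329,461] (.q 364 (.a 1 [] (.d 361 360 360 361 365)
 (.a 1 [360] (.d 365 361 361 362 366)
 (.a 1 [361] (.r 332 1324 300 (.d 425 3373 301 3404 456))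
 .e))))
 .e))))
 (.a 1 [300] (.q 459 (.a 1 [] (.d 427 1355 331 1387 491)
 (.a 1 [331] (.r 397 394 398 (.d 490 3438 366 3469 521))
 .e)))
 (.a 1 [366] (.q 332 (.a 1 [] (.d 364 1324 300 1356 460)
 (.a 1 [300] (.d 425 3373 301 3404 456)
 .e)))
 (.a 1 [333] (.q 332 (.a 1 [] (.d 364 1324 300 1356 460)
 (.a 1 [300] (.d 425 3373 301 3404 456)
 .e)))
 .e))))))))
 (.a 1 [428] (.q 430 (.a 1 [] (.d 393 392 392 393 397)
 (.a 1 [397] (.q 425 (.a 1 [] (.d 332 3373 301 3404 456)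
 (.a 1 [301] (.d 456 3404 332 3435 487)
 (.a 0 [332,456] (.r 392 392 393 (.q 458 (.a 1 [] (.d 359 2374 326 2407 491)
 (.a 1 [326] (.d 491 2407 359 2440 524)
 (.a 1 [359] (.r 491 2440 524 (.r 427 1387 459 (.d 489 3437 365 3468 520)))
 (.a 0 [491] (.q 427 (.a 1 [] (.d 331 1323 299 1355 459)
 (.a 1 [299] (.d 489 3437 365 3468 520)
 .e)))
 .e))))))
 .e))))
 (.a 1 [393] (.q 331 (.a 1 [] (.d 299 1291 267 1323 427)
 (.a 1 [267] (.d 427 1323 299 1355 459)
 (.a 1 [299] (.r 397 394 398 (.d 364 2346 298 2379 463))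
 .e))))
 .e))))
 (.a 1 [430] (.q 428 (.a 1 [] (.d 393 392 392 393 397)
 (.a 1 [397] (.q 332 (.a 1 [] (.d 364 1324 300 1356 460)
 (.a 1 [300] (.d 425 3373 301 3404 456)
 .e)))
 .e)))
 (.a 1 [392] (.d 397 393 393 394 398)
 .e))))))) (by decide +kernel)

theorem b0_2031 : S (PX [433] [431,432,434,457]) := S.of (.q 395 (.a 1 [] (.d 393 392 392 393 397)
 (.a 1 [392] (.d 397 393 393 394 398)
 (.a 0 [393,397] (.q 427 (.a 1 [] (.d 331 1323 299 1355 459)
 (.a 1 [299] (.d 459 1355 331 1387 491)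
 (.a 0 [331,459] (.q 361 (.a 1 [] (.d 328 2343 295 2376 460)
 (.a 1 [295] (.d 460 2376 328 2409 493)
 (.a 0 [328,460] (.q 458 (.a 1 [] (.d 365 3406 334 3437 489)
 (.a 1 [334] (.d 489 3437 365 3468 520)
 (.a 1 [489] (.r 365 3406 334 (.r 362 361 364 (.d 426 1354 330 1386 490)))
 (.a 0 [365] (.q 362 (.a 1 [] (.d 360 359 359 360 364)
 (.a 1 [359] (.d 426 1354 330 1386 490)
 .e)))
 .e)))))
 .e))))
 .e))))
 .e)))) (by decide +kernel)

theorem b0_2032 : S (PX [433] [431,432,434,463]) := S.of (.q 395 (.a 1 [] (.d 393 392 392 393 397)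
 (.a 1 [392] (.d 397 393 393 394 398)
 (.a 0 [393,397] (.q 331 (.a 1 [] (.d 299 1291 267 1323 427)
 (.a 1 [267] (.d 427 1323 299 1355 459)
 (.a 0 [299,427] (.q 332 (.a 1 [] (.d 301 3342 270 3373 425)
 (.a 1 [270] (.d 425 3373 301 3404 456)
 (.a 0 [301,425] (.q 330 (.a 1 [] (.d 329 328 328 329 333)
 (.a 1 [328] (.d 333 329 329 330 334)
 (.a 1 [329] (.d 297 2312 264 2345 429)
 .e))))
 .e))))
 .e))))
 .e)))) (by decide +kernel)

theorem b0_2096 : S (PX [430,435] [332,431,433,434,437]) := S.of (.q 395 (.a 1 [] (.d 393 392 392 393 397)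
 (.a 1 [392] (.d 397 393 393 394 398)
 (.a 0 [393,397] (.q 427 (.a 1 [] (.d 331 1323 299 1355 459)
 (.a 1 [299] (.d 459 1355 331 1387 491)
 (.a 0 [331,459] (.q 330 (.a 1 [] (.d 297 2312 264 2345 429)
 (.a 1 [264] (.d 429 2345 297 2378 462)
 (.a 1 [297] (.r 429 2378 462 (.r 426 426 428 (.d 362 1322 298 1354 458)))
 (.a 0 [429] (.q 365 (.a 1 [] (.d 334 3375 303 3406 458)
 (.a 1 [303] (.d 458 3406 334 3437 489)
 (.a 1 [334] (.r 458 3437 489 (.r 362 1354 426 (.d 364 361 361 362 366)))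
 (.a 0 [458] (.q 362 (.a 1 [] (.d 364 361 361 362 366)
 (.a 1 [361] (.d 298 1290 266 1322 426)
 .e)))
 .e)))))
 .e)))))
 .e))))
 .e)))) (by decide +kernel)

theorem b0_2097 : S (PX [430,435] [397,431,433,434,437]) := S.of (.q 330 (.a 1 [] (.d 297 2312 264 2345 429)
 (.a 1 [264] (.d 429 2345 297 2378 462)
 (.a 0 [297,429] (.q 425 (.a 1 [] (.d 332 3373 301 3404 456)
 (.a 1 [301] (.d 456 3404 332 3435 487)
 (.a 0 [332,456] (.q 426 (.a 1 [] (.d 362 1322 298 1354 458)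
 (.a 0 [298,362,458] (.q 423 (.a 1 [] (.d 424 422 422 423 427)
 (.a 0 [422,424,427] (.q 392 (.a 1 [] (.d 361 3371 299 3402 454)
 (.a 1 [299] (.r 393 392 395 (.r 361 3402 454 (.d 457 1353 329 1385 489)))
 (.a 1 [454] (.r 393 392 395 (.r 361 3371 299 (.d 457 1353 329 1385 489)))
 (.a 0 [361] (.r 393 392 395 (.q 327 (.a 1 [] (.d 360 2342 294 2375 459)
 (.a 1 [294] (.r 391 390 390 (.d 359 1319 295 1351 455))
 .e))))
 .e)))))
 .e)))
 .e)))
 .e))))
 .e)))) (by decide +kernel)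

theorem b0_2129 : S (PX [432] [332,431,433,434]) := S.of (.q 395 (.a 1 [] (.d 393 392 392 393 397)
 (.a 1 [392] (.d 397 393 393 394 398)
 (.a 0 [393,397] (.q 427 (.a 1 [] (.d 331 1323 299 1355 459)
 (.a 1 [299] (.d 459 1355 331 1387 491)
 (.a 0 [331,459] (.q 330 (.a 1 [] (.d 297 2312 264 2345 429)
 (.a 1 [264] (.d 429 2345 297 2378 462)
 (.a 0 [297,429] (.q 365 (.a 1 [] (.d 334 3375 303 3406 458)
 (.a 1 [303] (.d 458 3406 334 3437 489)
 (.a 1 [334] (.r 458 3437 489 (.r 362 1354 426 (.d 364 361 361 362 366)))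
 (.a 0 [458] (.q 362 (.a 1 [] (.d 364 361 361 362 366)
 (.a 1 [361] (.d 298 1290 266 1322 426)
 .e)))
 .e)))))
 .e))))
 .e))))
 .e)))) (by decide +kernel)

theorem b0_2130 : S (PX [432] [397,431,433,434]) := S.of (.q 330 (.a 1 [] (.d 297 2312 264 2345 429)
 (.a 1 [429] (.q 362 (.a 1 [] (.d 298 1290 266 1322 426)
 (.a 1 [266] (.d 426 1322 298 1354 458)
 (.a 0 [298,426] (.q 425 (.a 1 [] (.d 332 3373 301 3404 456)
 (.a 1 [301] (.d 456 3404 332 3435 487)
 (.a 0 [332,456] (.q 361 (.a 1 [] (.d 360 359 359 360 364)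
 (.a 1 [359] (.d 364 360 360 361 365)
 (.a 1 [360] (.r 297 2312 264 (.r 393 1321 329 (.r 392 392 395 (.d 423 3371 299 3402 454))))
 .e))))
 .e))))
 .e))))
 (.a 1 [297] (.q 332 (.a 1 [] (.d 301 3342 270 3373 425)
 (.a 1 [270] (.d 425 3373 301 3404 456)
 (.a 0 [301,425] (.q 362 (.a 1 [] (.d 298 1290 266 1322 426)
 (.a 1 [266] (.d 426 1322 298 1354 458)
 (.a 0 [298,426] (.q 300 (.a 1 [] (.d 364 1292 268 1324 428)
 (.a 1 [268] (.r 364 1324 428 (.d 365 361 361 362 366))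
 (.a 1 [428] (.r 364 1292 268 (.d 365 361 361 362 366))
 (.a 0 [364] (.q 331 (.a 1 [] (.d 329 328 328 329 333)
 (.a 1 [328] (.d 333 329 329 330 334)
 (.a 1 [329] (.d 269 3310 238 3341 393)
 .e))))
 .e)))))
 .e))))
 .e))))
 .e)))) (by decide +kernel)

theorem b0_2147 : S (PX [433] [332,431,434,435]) := S.of (.q 395 (.a 1 [] (.d 393 392 392 393 397)
 (.a 1 [392] (.d 397 393 393 394 398)
 (.a 0 [393,397] (.q 427 (.a 1 [] (.d 331 1323 299 1355 459)
 (.a 1 [299] (.d 459 1355 331 1387 491)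
 (.a 0 [331,459] (.q 330 (.a 1 [] (.d 297 2312 264 2345 429)
 (.a 1 [264] (.d 429 2345 297 2378 462)
 (.a 0 [297,429] (.q 365 (.a 1 [] (.d 334 3375 303 3406 458)
 (.a 1 [303] (.d 458 3406 334 3437 489)
 (.a 1 [334] (.r 458 3437 489 (.r 362 1354 426 (.d 364 361 361 362 366)))
 (.a 0 [458] (.q 362 (.a 1 [] (.d 364 361 361 362 366)
 (.a 1 [361] (.d 298 1290 266 1322 426)
 .e)))
 .e)))))
 .e))))
 .e))))
 .e)))) (by decide +kernel)

theorem b0_2148 : S (PX [433] [397,431,434,435]) := S.of (.q 332 (.a 1 [] (.d 301 3342 270 3373 425)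
 (.a 1 [270] (.d 425 3373 301 3404 456)
 (.a 0 [301,425] (.q 330 (.a 1 [] (.d 297 2312 264 2345 429)
 (.a 1 [264] (.d 429 2345 297 2378 462)
 (.a 0 [297] (.q 362 (.a 1 [] (.d 298 1290 266 1322 426)
 (.a 1 [266] (.d 426 1322 298 1354 458)
 (.a 0 [298,426] (.q 300 (.a 1 [] (.d 364 1292 268 1324 428)
 (.a 1 [268] (.r 364 1324 428 (.d 365 361 361 362 366))
 (.a 1 [428] (.r 364 1292 268 (.d 365 361 361 362 366))
 (.a 0 [364] (.q 331 (.a 1 [] (.d 329 328 328 329 333)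
 (.a 1 [328] (.d 333 329 329 330 334)
 (.a 1 [329] (.d 269 3310 238 3341 393)
 .e))))
 .e)))))
 .e))))
 (.a 0 [429] (.q 333 (.a 1 [] (.d 331 329 329 330 334)
 (.a 0 [329,331,334] (.q 426 (.a 1 [] (.d 362 1322 298 1354 458)
 (.a 0 [298,362,458] (.q 364 (.a 1 [] (.d 300 1292 268 1324 428)
 (.a 1 [268] (.d 428 1324 300 1356 460)
 (.a 1 [300] (.d 395 3374 302 3405 457)
 .e))))
 .e)))
 .e)))
 .e)))))
 .e)))) (by decide +kernel)

theorem b0_2180 : S (PX [431,435] [297,430,433,434,437]) := S.of (.q 332 (.a 1 [] (.d 301 3342 270 3373 425)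
 (.a 1 [270] (.d 425 3373 301 3404 456)
 (.a 0 [301,425] (.q 364 (.a 1 [] (.d 300 1292 268 1324 428)
 (.a 1 [268] (.d 428 1324 300 1356 460)
 (.a 0 [300,428] (.q 299 (.a 1 [] (.r 365 2347 398 (.d 362 361 361 362 366))
 (.a 1 [361] (.r 365 2347 398 (.d 366 362 362 363 367))
 (.a 1 [362] (.r 398 2347 365 (.r 395 394 397 (.d 331 1291 267 1323 427)))
 (.a 0 [365,398] (.q 395 (.a 1 [] (.d 393 392 392 393 397)
 (.a 1 [392] (.d 331 1291 267 1323 427)
 .e)))
 .e)))))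
 .e))))
 .e)))) (by decide +kernel)

theorem b0_2181 : S (PX [431,435] [298,430,433,434,437]) := S.of (.q 332 (.a 1 [] (.d 301 3342 270 3373 425)
 (.a 1 [270] (.d 425 3373 301 3404 456)
 (.a 0 [301,425] (.q 364 (.a 1 [] (.d 300 1292 268 1324 428)
 (.a 1 [268] (.d 428 1324 300 1356 460)
 (.a 0 [300,428] (.q 299 (.a 1 [] (.r 365 2347 398 (.d 362 361 361 362 366))
 (.a 1 [361] (.r 365 2347 398 (.d 366 362 362 363 367))
 (.a 1 [362] (.r 398 2347 365 (.r 395 394 397 (.d 331 1291 267 1323 427)))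
 (.a 0 [365,398] (.q 395 (.a 1 [] (.d 393 392 392 393 397)
 (.a 1 [392] (.d 331 1291 267 1323 427)
 .e)))
 .e)))))
 .e))))
 .e)))) (by decide +kernel)

theorem b0_2182 : S (PX [431,435] [332,430,433,434,437]) := S.of (.q 395 (.a 1 [] (.d 393 392 392 393 397)
 (.a 1 [392] (.d 397 393 393 394 398)
 (.a 0 [393,397] (.q 462 (.a 1 [] (.d 429 2378 330 2411 495)
 (.a 0 [330,429,495] (.q 493 (.a 1 [] (.d 400 3441 369 3472 524)
 (.a 1 [369] (.d 524 3472 400 3503 555)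
 (.a 0 [400,524] (.q 427 (.a 1 [] (.d 331 1323 299 1355 459)
 (.a 1 [299] (.d 459 1355 331 1387 491)
 (.a 1 [331] (.d 460 2409 361 2442 526)
 .e))))
 .e))))
 .e)))
 .e)))) (by decide +kernel)

theorem b0_2183 : S (PX [431,435] [334,430,433,434,437]) := S.of (.q 330 (.a 1 [] (.d 297 2312 264 2345 429)
 (.a 1 [264] (.d 429 2345 297 2378 462)
 (.a 0 [297,429] (.q 425 (.a 1 [] (.d 332 3373 301 3404 456)
 (.a 1 [301] (.d 456 3404 332 3435 487)
 (.a 0 [332,456] (.q 426 (.a 1 [] (.d 362 1322 298 1354 458)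
 (.a 0 [298,362,458] (.q 427 (.a 1 [] (.d 424 423 423 424 428)
 (.a 0 [423,424,428] (.q 395 (.a 1 [] (.d 393 392 392 393 397)
 (.a 1 [392] (.d 397 393 393 394 398)
 (.a 1 [393] (.d 331 1323 299 1355 459)
 .e))))
 .e)))
 .e)))
 .e))))
 .e)))) (by decide +kernel)

theorem b0_2184 : S (PX [431,435] [361,430,433,434,437]) := S.of (.q 330 (.a 1 [] (.d 297 2312 264 2345 429)
 (.a 1 [264] (.d 429 2345 297 2378 462)
 (.a 0 [297,429] (.q 425 (.a 1 [] (.d 332 3373 301 3404 456)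
 (.a 1 [301] (.d 456 3404 332 3435 487)
 (.a 0 [332,456] (.q 426 (.a 1 [] (.d 362 1322 298 1354 458)
 (.a 0 [298,362,458] (.q 427 (.a 1 [] (.d 424 423 423 424 428)
 (.a 0 [423,424,428] (.q 395 (.a 1 [] (.d 393 392 392 393 397)
 (.a 1 [392] (.d 397 393 393 394 398)
 (.a 1 [393] (.d 331 1323 299 1355 459)
 .e))))
 .e)))
 .e)))
 .e))))
 .e)))) (by decide +kernel)

theorem b0_2185 : S (PX [431,435] [364,430,433,434,437]) := S.of (.q 332 (.a 1 [] (.d 301 3342 270 3373 425)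
 (.a 1 [270] (.d 425 3373 301 3404 456)
 (.a 0 [301,425] (.q 398 (.a 1 [] (.d 365 2347 299 2380 464)
 (.a 1 [464] (.r 395 394 397 (.r 299 2347 365 (.d 331 1291 267 1323 427)))
 (.a 0 [299,365] (.q 462 (.a 1 [] (.d 429 2378 330 2411 495)
 (.a 1 [330] (.r 397 394 395 (.r 400 396 399 (.d 493 3441 369 3472 524)))
 .e)))
 .e))))
 .e)))) (by decide +kernel)

theorem b0_2186 : S (PX [431,435] [365,430,433,434,437]) := S.of (.q 395 (.a 1 [] (.d 393 392 392 393 397)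
 (.a 1 [392] (.d 397 393 393 394 398)
 (.a 0 [393,397] (.q 331 (.a 1 [] (.d 299 1291 267 1323 427)
 (.a 1 [267] (.d 427 1323 299 1355 459)
 (.a 0 [299,427] (.q 332 (.a 1 [] (.d 301 3342 270 3373 425)
 (.a 1 [270] (.d 425 3373 301 3404 456)
 (.a 0 [301,425] (.q 333 (.a 1 [] (.d 330 329 329 330 334)
 (.a 1 [329] (.d 334 330 330 331 335)
 (.a 1 [334] (.r 330 329 329 (.d 429 2345 297 2378 462))
 (.a 0 [330] (.q 364 (.a 1 [] (.d 300 1292 268 1324 428)
 (.a 1 [268] (.d 428 1324 300 1356 460)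
 (.a 1 [300] (.d 302 3343 271 3374 426)
 .e))))
 .e)))))
 .e))))
 .e))))
 .e)))) (by decide +kernel)

theorem b0_2187 : S (PX [431,435] [367,430,433,434,437]) := S.of (.q 330 (.a 1 [] (.d 297 2312 264 2345 429)
 (.a 1 [264] (.d 429 2345 297 2378 462)
 (.a 0 [297,429] (.q 425 (.a 1 [] (.d 332 3373 301 3404 456)
 (.a 1 [301] (.d 456 3404 332 3435 487)
 (.a 0 [332,456] (.q 426 (.a 1 [] (.d 362 1322 298 1354 458)
 (.a 0 [298,362,458] (.q 427 (.a 1 [] (.d 424 423 423 424 428)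
 (.a 0 [423,424,428] (.q 395 (.a 1 [] (.d 393 392 392 393 397)
 (.a 1 [392] (.d 397 393 393 394 398)
 (.a 1 [393] (.d 331 1323 299 1355 459)
 .e))))
 .e)))
 .e)))
 .e))))
 .e)))) (by decide +kernel)

theorem b0_2188 : S (PX [431,435] [397,430,433,434,437]) := S.of (.q 332 (.a 1 [] (.d 301 3342 270 3373 425)
 (.a 1 [270] (.d 425 3373 301 3404 456)
 (.a 0 [301,425] (.q 364 (.a 1 [] (.d 300 1292 268 1324 428)
 (.a 1 [268] (.d 428 1324 300 1356 460)
 (.a 0 [300,428] (.q 365 (.a 1 [] (.d 362 361 361 362 366)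
 (.a 1 [361] (.d 366 362 362 363 367)
 (.a 1 [362] (.d 398 2347 299 2380 464)
 .e))))
 .e))))
 .e)))) (by decide +kernel)

theorem b0_2189 : S (PX [431,435] [400,430,433,434,437]) := S.of (.q 330 (.a 1 [] (.d 297 2312 264 2345 429)
 (.a 1 [264] (.d 429 2345 297 2378 462)
 (.a 0 [297,429] (.q 425 (.a 1 [] (.d 332 3373 301 3404 456)
 (.a 1 [301] (.d 456 3404 332 3435 487)
 (.a 0 [332,456] (.q 426 (.a 1 [] (.d 362 1322 298 1354 458)
 (.a 0 [298,362,458] (.q 427 (.a 1 [] (.d 424 423 423 424 428)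
 (.a 0 [423,424,428] (.q 395 (.a 1 [] (.d 393 392 392 393 397)
 (.a 1 [392] (.d 397 393 393 394 398)
 (.a 1 [393] (.d 331 1323 299 1355 459)
 .e))))
 .e)))
 .e)))
 .e))))
 .e)))) (by decide +kernel)

theorem b0_2190 : S (PX [431,435] [424,430,433,434,437]) := S.of (.q 395 (.a 1 [] (.d 393 392 392 393 397)
 (.a 1 [392] (.d 397 393 393 394 398)
 (.a 0 [393,397] (.q 332 (.a 1 [] (.d 301 3342 270 3373 425)
 (.a 1 [270] (.d 425 3373 301 3404 456)
 (.a 0 [301,425] (.q 365 (.a 1 [] (.d 398 2347 299 2380 464)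
 (.a 1 [464] (.r 299 2347 398 (.d 331 1291 267 1323 427))
 (.a 0 [299,398] (.q 364 (.a 1 [] (.d 362 361 361 362 366)
 (.a 1 [361] (.d 366 362 362 363 367)
 (.a 1 [362] (.d 300 1292 268 1324 428)
 .e))))
 .e))))
 .e))))
 .e)))) (by decide +kernel)

theorem b0_2191 : S (PX [431,435] [425,430,433,434,437]) := S.of (.q 395 (.a 1 [] (.d 393 392 392 393 397)
 (.a 1 [392] (.d 397 393 393 394 398)
 (.a 0 [393,397] (.q 462 (.a 1 [] (.d 429 2378 330 2411 495)
 (.a 0 [330,429,495] (.q 493 (.a 1 [] (.d 400 3441 369 3472 524)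
 (.a 1 [369] (.d 524 3472 400 3503 555)
 (.a 0 [400,524] (.q 427 (.a 1 [] (.d 331 1323 299 1355 459)
 (.a 1 [299] (.d 459 1355 331 1387 491)
 (.a 1 [331] (.d 460 2409 361 2442 526)
 .e))))
 .e))))
 .e)))
 .e)))) (by decide +kernel)

theorem b0_2192 : S (PX [431,435] [427,430,433,434,437]) := S.of (.q 332 (.a 1 [] (.d 301 3342 270 3373 425)
 (.a 1 [270] (.d 425 3373 301 3404 456)
 (.a 0 [301,425] (.q 398 (.a 1 [] (.d 365 2347 299 2380 464)
 (.a 0 [299,365,464] (.q 462 (.a 1 [] (.d 429 2378 330 2411 495)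
 (.a 1 [330] (.r 397 394 395 (.r 400 396 399 (.d 493 3441 369 3472 524)))
 .e)))
 .e)))
 .e)))) (by decide +kernel)

theorem b0_2193 : S (PX [431,435] [428,430,433,434,437]) := S.of (.q 395 (.a 1 [] (.d 393 392 392 393 397)
 (.a 1 [392] (.d 397 393 393 394 398)
 (.a 0 [393,397] (.q 332 (.a 1 [] (.d 301 3342 270 3373 425)
 (.a 1 [270] (.d 425 3373 301 3404 456)
 (.a 0 [301,425] (.q 365 (.a 1 [] (.d 398 2347 299 2380 464)
 (.a 1 [464] (.r 299 2347 398 (.d 331 1291 267 1323 427))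
 (.a 0 [299,398] (.q 427 (.a 1 [] (.d 459 1355 331 1387 491)
 (.a 1 [331] (.d 458 3406 334 3437 489)
 .e)))
 .e))))
 .e))))
 .e)))) (by decide +kernel)

theorem b0_2194 : S (PX [431,435] [430,433,434,437,488]) := S.of (.q 395 (.a 1 [] (.d 393 392 392 393 397)
 (.a 1 [392] (.d 397 393 393 394 398)
 (.a 0 [393,397] (.q 331 (.a 1 [] (.d 299 1291 267 1323 427)
 (.a 1 [267] (.d 427 1323 299 1355 459)
 (.a 0 [299,427] (.q 332 (.a 1 [] (.d 301 3342 270 3373 425)
 (.a 1 [270] (.d 425 3373 301 3404 456)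
 (.a 0 [301,425] (.q 330 (.a 1 [] (.d 329 328 328 329 333)
 (.a 1 [328] (.d 333 329 329 330 334)
 (.a 1 [329] (.d 297 2312 264 2345 429)
 .e))))
 .e))))
 .e))))
 .e)))) (by decide +kernel)

theorem b0_2248 : S (PX [368,500] [330,335,434,467,566]) := S.of (.q 332 (.a 1 [] (.d 301 3342 270 3373 425)
 (.a 1 [270] (.d 425 3373 301 3404 456)
 (.a 0 [301,425] (.q 364 (.a 1 [] (.d 300 1292 268 1324 428)
 (.a 1 [268] (.d 428 1324 300 1356 460)
 (.a 0 [300,428] (.q 361 (.a 1 [] (.d 362 360 360 361 365)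
 (.a 0 [360,362,365] (.q 427 (.a 1 [] (.d 328 2343 295 2376 460)
 (.a 1 [295] (.d 460 2376 328 2409 493)
 (.a 0 [328,460] (.q 395 (.a 1 [] (.d 393 392 392 393 397)
 (.a 1 [392] (.d 397 393 393 394 398)
 (.a 1 [393] (.d 331 1323 299 1355 459)
 .e))))
 .e))))
 .e)))
 .e))))
 .e)))) (by decide +kernel)

theorem b0_2249 : S (PX [368,500] [335,366,434,467,566]) := S.of (.q 332 (.a 1 [] (.d 301 3342 270 3373 425)
 (.a 1 [270] (.d 425 3373 301 3404 456)
 (.a 0 [301,425] (.q 397 (.a 1 [] (.d 395 393 393 394 398)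
 (.a 0 [393,395,398] (.q 428 (.a 1 [] (.d 364 1324 300 1356 460)
 (.a 0 [300,364,460] (.q 429 (.a 1 [] (.d 330 2345 297 2378 462)
 (.a 1 [297] (.d 462 2378 330 2411 495)
 (.a 0 [330,462] (.q 430 (.a 1 [] (.d 427 426 426 427 431)
 (.a 1 [426] (.d 431 427 427 428 432)
 (.a 0 [427,431] (.q 461 (.a 1 [] (.d 365 1357 333 1389 493)
 (.a 1 [333] (.d 399 3409 337 3440 492)
 .e)))
 .e))))
 .e))))
 .e)))
 .e)))
 .e)))) (by decide +kernel)

theorem b0_2250 : S (PX [368,500] [335,425,434,467,566]) := S.of (.q 395 (.a 1 [] (.d 393 392 392 393 397)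
 (.a 1 [392] (.d 397 393 393 394 398)
 (.a 0 [393,397] (.q 331 (.a 1 [] (.d 299 1291 267 1323 427)
 (.a 1 [267] (.d 427 1323 299 1355 459)
 (.a 0 [299,427] (.q 330 (.a 1 [] (.d 297 2312 264 2345 429)
 (.a 1 [264] (.d 429 2345 297 2378 462)
 (.a 0 [297] (.q 329 (.a 1 [] (.d 328 327 327 328 332)
 (.a 1 [327] (.d 332 328 328 329 333)
 (.a 0 [328,332] (.q 362 (.a 1 [] (.d 298 1290 266 1322 426)
 (.a 1 [266] (.d 426 1322 298 1354 458)
 (.a 1 [298] (.d 296 2311 263 2344 428)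
 .e))))
 .e))))
 (.a 0 [429] (.q 426 (.a 1 [] (.d 362 1322 298 1354 458)
 (.a 0 [298,362,458] (.q 333 (.a 1 [] (.d 332 329 329 330 334)
 (.a 1 [329] (.d 364 3374 302 3405 457)
 .e)))
 .e)))
 .e)))))
 .e))))
 .e)))) (by decide +kernel)

theorem b0_2251 : S (PX [368,500] [335,428,434,467,566]) := S.of (.q 429 (.a 1 [] (.d 330 2345 297 2378 462)
 (.a 1 [297] (.d 462 2378 330 2411 495)
 (.a 0 [330,462] (.q 397 (.a 1 [] (.d 395 393 393 394 398)
 (.a 0 [393,395,398] (.q 365 (.a 1 [] (.d 333 1325 301 1357 461)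
 (.a 1 [301] (.d 461 1357 333 1389 493)
 (.a 1 [461] (.r 301 1325 333 (.d 332 3342 270 3373 425))
 (.a 0 [333] (.q 427 (.a 1 [] (.d 334 3375 303 3406 458)
 (.a 1 [303] (.d 458 3406 334 3437 489)
 (.a 1 [334] (.r 493 1389 461 (.d 460 2409 361 2442 526))
 .e))))
 .e)))))
 .e)))
 .e)))) (by decide +kernel)

theorem b0_2257 : S (PX [368,500] [400,401,434,467,566]) := S.of (.q 330 (.a 1 [] (.d 297 2312 264 2345 429)
 (.a 1 [264] (.d 429 2345 297 2378 462)
 (.a 0 [297,429] (.q 362 (.a 1 [] (.d 298 1290 266 1322 426)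
 (.a 1 [266] (.d 426 1322 298 1354 458)
 (.a 0 [298,426] (.q 361 (.a 1 [] (.d 360 359 359 360 364)
 (.a 1 [359] (.d 364 360 360 361 365)
 (.a 0 [360,364] (.q 427 (.a 1 [] (.d 328 2343 295 2376 460)
 (.a 1 [295] (.d 460 2376 328 2409 493)
 (.a 0 [328,460] (.q 395 (.a 1 [] (.d 393 392 392 393 397)
 (.a 1 [392] (.d 397 393 393 394 398)
 (.a 1 [393] (.d 331 1323 299 1355 459)
 .e))))
 .e))))
 .e))))
 .e))))
 .e)))) (by decide +kernel)

theorem b6_368 : S (PX [] [264,332,434]) := S.of (.q 395 (.a 1 [] (.d 393 392 392 393 397)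
 (.a 1 [392] (.d 397 393 393 394 398)
 (.a 0 [393,397] (.q 427 (.a 1 [] (.d 331 1323 299 1355 459)
 (.a 1 [299] (.d 459 1355 331 1387 491)
 (.a 0 [331,459] (.q 458 (.a 1 [] (.d 365 3406 334 3437 489)
 (.a 1 [334] (.d 489 3437 365 3468 520)
 (.a 0 [365,489] (.q 361 (.a 1 [] (.d 328 2343 295 2376 460)
 (.a 1 [295] (.d 460 2376 328 2409 493)
 (.a 0 [328,460] (.q 330 (.a 1 [] (.d 429 2345 297 2378 462)
 (.a 1 [297] (.r 362 1354 426 (.d 360 359 359 360 364))
 .e)))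
 .e))))
 .e))))
 .e))))
 .e)))) (by decide +kernel)

theorem b6_373 : S (PX [] [298,332,434]) := S.of (.q 395 (.a 1 [] (.d 393 392 392 393 397)
 (.a 1 [392] (.d 397 393 393 394 398)
 (.a 0 [393] (.q 427 (.a 1 [] (.d 331 1323 299 1355 459)
 (.a 1 [299] (.d 459 1355 331 1387 491)
 (.a 0 [331,459] (.q 330 (.a 1 [] (.d 297 2312 264 2345 429)
 (.a 1 [264] (.d 429 2345 297 2378 462)
 (.a 0 [297,429] (.q 361 (.a 1 [] (.d 328 2343 295 2376 460)
 (.a 1 [295] (.d 460 2376 328 2409 493)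
 (.a 0 [328,460] (.q 362 (.a 1 [] (.d 360 359 359 360 364)
 (.a 1 [359] (.d 364 360 360 361 365)
 (.a 1 [360] (.r 365 361 364 (.d 458 1354 426 3437 489))
 (.a 1 [364] (.r 458 1354 426 (.d 489 3437 365 3468 520))
 .e)))))
 .e))))
 .e))))
 .e))))
 (.a 0 [397] (.q 330 (.a 1 [] (.d 297 2312 264 2345 429)
 (.a 1 [264] (.d 429 2345 297 2378 462)
 (.a 0 [297,429] (.q 299 (.a 1 [] (.d 331 1291 267 1323 427)
 (.a 1 [267] (.r 427 1323 331 (.r 392 392 393 (.d 361 3340 268 3371 423)))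
 (.a 1 [331] (.r 392 392 393 (.d 361 3340 268 3371 423))
 .e))))
 .e))))
 .e))))) (by decide +kernel)

theorem b6_374 : S (PX [] [299,332,434]) := S.of (.q 330 (.a 1 [] (.d 297 2312 264 2345 429)
 (.a 1 [264] (.d 429 2345 297 2378 462)
 (.a 0 [297,429] (.q 395 (.a 1 [] (.d 393 392 392 393 397)
 (.a 1 [392] (.d 397 393 393 394 398)
 (.a 0 [393,397] (.q 427 (.a 1 [] (.d 459 1355 331 1387 491)
 (.a 0 [331,459,491] (.q 365 (.a 1 [] (.d 334 3375 303 3406 458)
 (.a 1 [303] (.d 458 3406 334 3437 489)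
 (.a 1 [334] (.r 458 3437 489 (.r 362 1354 426 (.d 364 361 361 362 366)))
 (.a 0 [458] (.q 362 (.a 1 [] (.d 364 361 361 362 366)
 (.a 1 [361] (.d 298 1290 266 1322 426)
 .e)))
 .e)))))
 .e)))
 .e))))
 .e)))) (by decide +kernel)

theorem b6_401 : S (PX [] [264,395,434]) := S.of (.q 332 (.a 1 [] (.d 301 3342 270 3373 425)
 (.a 1 [270] (.d 425 3373 301 3404 456)
 (.a 0 [301,425] (.q 364 (.a 1 [] (.d 300 1292 268 1324 428)
 (.a 1 [268] (.d 428 1324 300 1356 460)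
 (.a 0 [300,428] (.q 362 (.a 1 [] (.d 361 360 360 361 365)
 (.a 1 [360] (.d 365 361 361 362 366)
 (.a 0 [361,365] (.q 330 (.a 1 [] (.d 298 1290 266 1322 426)
 (.a 1 [266] (.d 426 1322 298 1354 458)
 (.a 1 [298] (.d 429 2345 297 2378 462)
 .e))))
 .e))))
 .e))))
 .e)))) (by decide +kernel)

theorem b6_407 : S (PX [] [298,395,434]) := S.of (.q 332 (.a 1 [] (.d 301 3342 270 3373 425)
 (.a 0 [301] (.q 429 (.a 1 [] (.d 330 2345 297 2378 462)
 (.a 0 [330] (.r 425 3404 456 (.q 428 (.a 1 [] (.d 364 1324 300 1356 460)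
 (.a 0 [364] (.r 426 425 427 (.q 458 (.a 1 [] (.d 490 1386 362 1418 522)
 (.a 1 [362] (.r 462 2411 495 (.r 490 1418 522 (.q 459 (.a 1 [] (.d 397 3438 366 3469 521)
 (.a 1 [266] (.q 234 (.a 1 [] (.d 521 3469 397 3500 552)
 (.a 1 [397] (.r 460 458 461 (.r 492 1420 524 (.d 525 2441 393 2474 558)))
 .e)))
 (.a 1 [234] (.q 266 (.a 1 [] (.d 521 3469 397 3500 552)
 (.a 1 [397] (.r 460 458 461 (.r 492 1420 524 (.d 525 2441 393 2474 558)))
 .e)))
 (.a 1 [397] (.r 460 458 461 (.r 492 1420 524 (.d 525 2441 393 2474 558)))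
 .e)))))))
 (.a 1 [490] (.q 491 (.a 1 [] (.d 392 2407 359 2440 524)
 (.a 1 [359] (.d 524 2440 392 2473 557)
 (.a 1 [392] (.r 524 2473 557 (.r 460 1420 492 (.d 522 3470 398 3501 553)))
 (.a 0 [524] (.q 398 (.a 1 [] (.d 460 3439 367 3470 522)
 (.a 0 [367,460,522] (.q 430 (.a 1 [] (.r 462 2411 495 (.d 494 1390 366 1422 526))
 (.a 1 [366] (.r 431 428 432 (.d 365 2347 299 2380 464))
 .e)))
 .e)))
 .e)))))
 (.a 1 [522] (.r 462 2411 495 (.q 459 (.a 1 [] (.r 490 1386 362 (.d 397 3438 366 3469 521))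
 (.a 1 [234] (.r 460 458 461 (.r 492 1420 524 (.d 525 2441 393 2474 558)))
 (.a 1 [266] (.r 460 458 461 (.r 492 1420 524 (.d 525 2441 393 2474 558)))
 (.a 1 [362] (.r 460 458 461 (.r 492 1420 524 (.d 525 2441 393 2474 558)))
 .e))))))
 .e))))))
 (.a 1 [460] (.r 427 425 426 (.q 365 (.a 1 [] (.d 334 3375 303 3406 458)
 (.a 1 [303] (.d 458 3406 334 3437 489)
 (.a 1 [334] (.r 364 1324 300 (.d 366 362 362 363 367))
 .e)))))
 (.a 1 [300] (.r 427 425 426 (.r 460 1356 364 (.d 493 2409 361 2442 526)))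
 .e))))))
 (.a 1 [462] (.r 425 3404 456 (.q 427 (.a 1 [] (.r 428 425 426 (.d 364 1324 300 1356 460))
 (.a 1 [300] (.r 428 425 426 (.r 460 1356 364 (.d 493 2409 361 2442 526)))
 (.a 1 [364] (.r 426 425 428 (.r 330 2345 297 (.r 458 1354 362 (.d 489 3437 365 3468 520))))
 (.a 0 [426,428] (.q 361 (.a 1 [] (.d 328 2343 295 2376 460)
 (.a 1 [295] (.d 460 2376 328 2409 493)
 (.a 1 [328] (.r 297 2345 330 (.r 393 1321 329 (.r 489 1385 457 (.d 458 3437 365 3468 520))))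
 .e))))
 .e))))))
 (.a 1 [297] (.d 462 2378 330 2411 495)
 .e)))))
 (.a 0 [425] (.q 364 (.a 1 [] (.d 300 1292 268 1324 428)
 (.a 1 [428] (.q 365 (.a 1 [] (.d 362 361 361 362 366)
 (.a 1 [362] (.r 301 3342 270 (.r 268 1292 300 (.r 367 363 366 (.d 334 2283 235 2316 400))))
 (.a 1 [366] (.q 427 (.a 1 [] (.d 334 3375 303 3406 458)
 (.a 1 [303] (.d 458 3406 334 3437 489)
 (.a 1 [334] (.r 361 361 362 (.d 460 2376 328 2409 493))
 .e))))
 .e))))
 (.a 1 [300] (.q 361 (.a 1 [] (.d 362 360 360 361 365)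
 (.a 1 [360] (.r 365 361 362 (.r 460 1356 428 (.d 427 2376 328 2409 493)))
 (.a 1 [362] (.r 460 1356 428 (.d 427 2376 328 2409 493))
 .e))))
 .e))))
 (.a 1 [270] (.d 425 3373 301 3404 456)
 .e))))) (by decide +kernel)

theorem b6_408 : S (PX [] [299,395,434]) := S.of (.q 330 (.a 1 [] (.d 297 2312 264 2345 429)
 (.a 0 [297] (.q 425 (.a 1 [] (.d 332 3373 301 3404 456)
 (.a 1 [332] (.r 429 2378 462 (.q 426 (.a 1 [] (.d 362 1322 298 1354 458)
 (.a 1 [362] (.q 423 (.a 1 [] (.d 427 423 424 425 428)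
 (.a 1 [428] (.d 424 422 422 423 427)
 (.a 0 [424,427] (.q 522 (.a 1 [] (.r 456 3435 487 (.d 489 2438 390 2471 555))
 (.a 0 [390,456,487,489,555] (.q 491 (.a 1 [] (.d 460 3470 398 3501 553)
 (.a 1 [398] (.r 458 1418 490 (.d 524 2440 392 2473 557))
 .e)))
 .e)))
 .e))))
 (.a 1 [458] (.r 427 425 428 (.q 361 (.a 1 [] (.d 328 2343 295 2376 460)
 (.a 1 [295] (.d 460 2376 328 2409 493)
 (.a 1 [328] (.r 362 1322 298 (.d 364 360 360 361 365))
 .e)))))
 (.a 1 [298] (.r 427 425 428 (.r 458 1354 362 (.d 489 3437 365 3468 520)))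
 .e))))))
 (.a 1 [456] (.q 426 (.a 1 [] (.d 362 1322 298 1354 458)
 (.a 1 [298] (.r 458 1354 362 (.r 429 2378 462 (.r 427 425 428 (.d 489 3437 365 3468 520))))
 (.a 0 [362,458] (.q 428 (.a 1 [] (.d 429 425 427 2378 462)
 (.a 1 [427] (.r 332 3373 301 (.d 364 1324 300 1356 460))
 .e)))
 .e))))
 (.a 1 [301] (.d 456 3404 332 3435 487)
 .e)))))
 (.a 1 [429] (.q 362 (.a 1 [] (.d 298 1290 266 1322 426)
 (.a 1 [266] (.d 426 1322 298 1354 458)
 (.a 0 [298,426] (.q 364 (.a 1 [] (.d 361 360 360 361 365)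
 (.a 1 [360] (.d 365 361 361 362 366)
 (.a 0 [361,365] (.q 332 (.a 1 [] (.d 300 1292 268 1324 428)
 (.a 1 [268] (.d 428 1324 300 1356 460)
 (.a 1 [300] (.d 301 3342 270 3373 425)
 .e))))
 .e))))
 .e))))
 .e)))) (by decide +kernel)

theorem b6_417 : S (PX [] [294,298,434]) := S.of (.q 332 (.a 1 [] (.d 301 3342 270 3373 425)
 (.a 1 [270] (.d 425 3373 301 3404 456)
 (.a 0 [301,425] (.q 429 (.a 1 [] (.d 330 2345 297 2378 462)
 (.a 1 [297] (.d 462 2378 330 2411 495)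
 (.a 0 [330,462] (.q 397 (.a 1 [] (.d 395 393 393 394 398)
 (.a 0 [393,395,398] (.q 365 (.a 1 [] (.d 461 1357 333 1389 493)
 (.a 0 [333,461,493] (.q 364 (.a 1 [] (.d 362 361 361 362 366)
 (.a 1 [361] (.d 366 362 362 363 367)
 (.a 1 [362] (.d 300 1292 268 1324 428)
 .e))))
 .e)))
 .e)))
 .e))))
 .e)))) (by decide +kernel)

theorem b6_418 : S (PX [] [295,298,434]) := S.of (.q 332 (.a 1 [] (.d 301 3342 270 3373 425)
 (.a 1 [270] (.d 425 3373 301 3404 456)
 (.a 0 [301,425] (.q 429 (.a 1 [] (.d 330 2345 297 2378 462)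
 (.a 1 [297] (.d 462 2378 330 2411 495)
 (.a 0 [330,462] (.q 397 (.a 1 [] (.d 395 393 393 394 398)
 (.a 0 [393,395,398] (.q 365 (.a 1 [] (.d 461 1357 333 1389 493)
 (.a 0 [333,461,493] (.q 364 (.a 1 [] (.d 362 361 361 362 366)
 (.a 1 [361] (.d 366 362 362 363 367)
 (.a 1 [362] (.d 300 1292 268 1324 428)
 .e))))
 .e)))
 .e)))
 .e))))
 .e)))) (by decide +kernel)

theorem b6_419 : S (PX [] [296,298,434]) := S.of (.q 332 (.a 1 [] (.d 301 3342 270 3373 425)
 (.a 1 [270] (.d 425 3373 301 3404 456)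
 (.a 0 [301,425] (.q 429 (.a 1 [] (.d 330 2345 297 2378 462)
 (.a 1 [297] (.d 462 2378 330 2411 495)
 (.a 0 [330,462] (.q 397 (.a 1 [] (.d 395 393 393 394 398)
 (.a 0 [393,395,398] (.q 365 (.a 1 [] (.d 461 1357 333 1389 493)
 (.a 0 [333,461,493] (.q 364 (.a 1 [] (.d 362 361 361 362 366)
 (.a 1 [361] (.d 366 362 362 363 367)
 (.a 1 [362] (.d 300 1292 268 1324 428)
 .e))))
 .e)))
 .e)))
 .e))))
 .e)))) (by decide +kernel)

theorem b6_420 : S (PX [] [297,298,434]) := S.of (.q 397 (.a 1 [] (.d 395 393 393 394 398)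
 (.a 0 [393,395,398] (.q 429 (.a 1 [] (.d 462 2378 330 2411 495)
 (.a 0 [330,462,495] (.q 365 (.a 1 [] (.d 333 1325 301 1357 461)
 (.a 1 [301] (.d 461 1357 333 1389 493)
 (.a 1 [461] (.r 301 1325 333 (.d 332 3342 270 3373 425))
 (.a 0 [333] (.q 427 (.a 1 [] (.d 334 3375 303 3406 458)
 (.a 1 [303] (.d 458 3406 334 3437 489)
 (.a 1 [334] (.r 493 1389 461 (.d 460 2409 361 2442 526))
 .e))))
 .e)))))
 .e)))
 .e))) (by decide +kernel)

theorem b6_421 : S (PX [] [298,299,434]) := S.of (.q 429 (.a 1 [] (.d 330 2345 297 2378 462)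
 (.a 1 [297] (.d 462 2378 330 2411 495)
 (.a 0 [330,462] (.q 397 (.a 1 [] (.d 395 393 393 394 398)
 (.a 0 [393,395,398] (.q 365 (.a 1 [] (.d 333 1325 301 1357 461)
 (.a 1 [301] (.d 461 1357 333 1389 493)
 (.a 1 [461] (.r 301 1325 333 (.d 332 3342 270 3373 425))
 (.a 0 [333] (.q 427 (.a 1 [] (.d 334 3375 303 3406 458)
 (.a 1 [303] (.d 458 3406 334 3437 489)
 (.a 1 [334] (.r 493 1389 461 (.d 460 2409 361 2442 526))
 .e))))
 .e)))))
 .e)))
 .e)))) (by decide +kernel)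

theorem b6_422 : S (PX [] [298,300,434]) := S.of (.q 429 (.a 1 [] (.d 330 2345 297 2378 462)
 (.a 1 [297] (.d 462 2378 330 2411 495)
 (.a 0 [330,462] (.q 397 (.a 1 [] (.d 395 393 393 394 398)
 (.a 0 [393,395,398] (.q 365 (.a 1 [] (.d 333 1325 301 1357 461)
 (.a 1 [301] (.d 461 1357 333 1389 493)
 (.a 1 [461] (.r 301 1325 333 (.d 332 3342 270 3373 425))
 (.a 0 [333] (.q 427 (.a 1 [] (.d 334 3375 303 3406 458)
 (.a 1 [303] (.d 458 3406 334 3437 489)
 (.a 1 [334] (.r 493 1389 461 (.d 460 2409 361 2442 526))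
 .e))))
 .e)))))
 .e)))
 .e)))) (by decide +kernel)

theorem b6_423 : S (PX [] [298,301,434]) := S.of (.q 393 (.a 1 [] (.d 395 392 392 393 397)
 (.a 0 [392,395,397] (.q 425 (.a 1 [] (.d 456 3404 332 3435 487)
 (.a 0 [332,456,487] (.q 361 (.a 1 [] (.d 329 1321 297 1353 457)
 (.a 1 [297] (.d 457 1353 329 1385 489)
 (.a 1 [457] (.r 297 1321 329 (.d 330 2312 264 2345 429))
 (.a 0 [329] (.q 427 (.a 1 [] (.d 328 2343 295 2376 460)
 (.a 1 [295] (.d 460 2376 328 2409 493)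
 (.a 1 [328] (.r 489 1385 457 (.d 458 3437 365 3468 520))
 .e))))
 .e)))))
 .e)))
 .e))) (by decide +kernel)

theorem b6_424 : S (PX [] [298,302,434]) := S.of (.q 425 (.a 1 [] (.d 332 3373 301 3404 456)
 (.a 1 [301] (.d 456 3404 332 3435 487)
 (.a 0 [332,456] (.q 393 (.a 1 [] (.d 395 392 392 393 397)
 (.a 0 [392,395,397] (.q 361 (.a 1 [] (.d 329 1321 297 1353 457)
 (.a 1 [297] (.d 457 1353 329 1385 489)
 (.a 1 [457] (.r 297 1321 329 (.d 330 2312 264 2345 429))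
 (.a 0 [329] (.q 427 (.a 1 [] (.d 328 2343 295 2376 460)
 (.a 1 [295] (.d 460 2376 328 2409 493)
 (.a 1 [328] (.r 489 1385 457 (.d 458 3437 365 3468 520))
 .e))))
 .e)))))
 .e)))
 .e)))) (by decide +kernel)

theorem b6_425 : S (PX [] [298,330,434]) := S.of (.q 395 (.a 1 [] (.d 393 392 392 393 397)
 (.a 1 [392] (.d 397 393 393 394 398)
 (.a 0 [393,397] (.q 332 (.a 1 [] (.d 301 3342 270 3373 425)
 (.a 1 [270] (.d 425 3373 301 3404 456)
 (.a 0 [301,425] (.q 427 (.a 1 [] (.d 331 1323 299 1355 459)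
 (.a 1 [299] (.d 459 1355 331 1387 491)
 (.a 0 [331] (.q 364 (.a 1 [] (.d 300 1292 268 1324 428)
 (.a 1 [268] (.d 428 1324 300 1356 460)
 (.a 1 [300] (.r 460 1356 428 (.d 493 2409 361 2442 526))
 (.a 0 [428] (.q 365 (.a 1 [] (.d 362 361 361 362 366)
 (.a 1 [361] (.d 366 362 362 363 367)
 (.a 1 [362] (.d 334 3375 303 3406 458)
 .e))))
 .e)))))
 (.a 0 [459] (.q 365 (.a 1 [] (.d 334 3375 303 3406 458)
 (.a 1 [303] (.d 458 3406 334 3437 489)
 (.a 1 [334] (.r 299 1323 331 (.d 398 2314 266 2347 431))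
 .e))))
 .e)))))
 .e))))
 .e)))) (by decide +kernel)

theorem b6_426 : S (PX [] [298,331,434]) := S.of (.q 332 (.a 1 [] (.d 301 3342 270 3373 425)
 (.a 1 [270] (.d 425 3373 301 3404 456)
 (.a 0 [301,425] (.q 397 (.a 1 [] (.d 395 393 393 394 398)
 (.a 0 [393,395,398] (.q 429 (.a 1 [] (.d 330 2345 297 2378 462)
 (.a 1 [297] (.d 462 2378 330 2411 495)
 (.a 0 [330,462] (.q 365 (.a 1 [] (.d 461 1357 333 1389 493)
 (.a 0 [333,461,493] (.q 364 (.a 1 [] (.d 362 361 361 362 366)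
 (.a 1 [361] (.d 366 362 362 363 367)
 (.a 1 [362] (.d 300 1292 268 1324 428)
 .e))))
 .e)))
 .e))))
 .e)))
 .e)))) (by decide +kernel)

theorem b6_427 : S (PX [] [298,361,434]) := S.of (.q 395 (.a 1 [] (.d 393 392 392 393 397)
 (.a 1 [392] (.d 397 393 393 394 398)
 (.a 0 [393] (.q 425 (.a 1 [] (.d 332 3373 301 3404 456)
 (.a 1 [301] (.d 456 3404 332 3435 487)
 (.a 0 [332,456] (.q 427 (.a 1 [] (.d 331 1323 299 1355 459)
 (.a 1 [299] (.d 459 1355 331 1387 491)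
 (.a 0 [331,459] (.q 426 (.a 1 [] (.d 424 423 423 424 428)
 (.a 1 [423] (.d 428 424 424 425 429)
 (.a 1 [424] (.r 429 425 428 (.d 462 2378 330 2411 495))
 (.a 0 [428] (.q 458 (.a 1 [] (.d 362 1354 330 1386 490)
 (.a 1 [330] (.d 489 3437 365 3468 520)
 .e)))
 .e)))))
 .e))))
 .e))))
 (.a 0 [397] (.q 331 (.a 1 [] (.d 299 1291 267 1323 427)
 (.a 1 [267] (.d 427 1323 299 1355 459)
 (.a 0 [299,427] (.q 332 (.a 1 [] (.d 301 3342 270 3373 425)
 (.a 1 [270] (.d 425 3373 301 3404 456)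
 (.a 0 [301,425] (.q 300 (.a 1 [] (.d 364 1292 268 1324 428)
 (.a 1 [364] (.r 393 392 392 (.d 362 3341 269 3372 424))
 (.a 0 [268] (.q 330 (.a 1 [] (.d 329 328 328 329 333)
 (.a 1 [328] (.d 333 329 329 330 334)
 (.a 1 [329] (.d 297 2312 264 2345 429)
 .e))))
 .e))))
 .e))))
 .e))))
 .e))))) (by decide +kernel)

theorem b6_428 : S (PX [] [298,362,434]) := S.of (.q 395 (.a 1 [] (.d 393 392 392 393 397)
 (.a 1 [392] (.d 397 393 393 394 398)
 (.a 0 [393,397] (.q 331 (.a 1 [] (.d 299 1291 267 1323 427)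
 (.a 1 [267] (.d 427 1323 299 1355 459)
 (.a 0 [299,427] (.q 332 (.a 1 [] (.d 301 3342 270 3373 425)
 (.a 1 [270] (.d 425 3373 301 3404 456)
 (.a 0 [301] (.q 300 (.a 1 [] (.d 364 1292 268 1324 428)
 (.a 0 [268,364,428] (.q 330 (.a 1 [] (.d 329 328 328 329 333)
 (.a 1 [328] (.d 333 329 329 330 334)
 (.a 1 [329] (.d 297 2312 264 2345 429)
 .e))))
 .e)))
 (.a 0 [425] (.q 330 (.a 1 [] (.d 329 328 328 329 333)
 (.a 1 [328] (.d 333 329 329 330 334)
 (.a 1 [329] (.d 297 2312 264 2345 429)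
 .e))))
 .e)))))
 .e))))
 .e)))) (by decide +kernel)

theorem b6_429 : S (PX [] [298,364,434]) := S.of (.q 395 (.a 1 [] (.d 393 392 392 393 397)
 (.a 1 [392] (.d 397 393 393 394 398)
 (.a 0 [393,397] (.q 331 (.a 1 [] (.d 299 1291 267 1323 427)
 (.a 1 [267] (.d 427 1323 299 1355 459)
 (.a 0 [299] (.r 427 1355 459 (.q 429 (.a 1 [] (.d 330 2345 297 2378 462)
 (.a 1 [297] (.d 462 2378 330 2411 495)
 (.a 0 [330,462] (.q 425 (.a 1 [] (.d 332 3373 301 3404 456)
 (.a 1 [301] (.d 456 3404 332 3435 487)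
 (.a 0 [332,456] (.q 458 (.a 1 [] (.d 365 3406 334 3437 489)
 (.a 1 [334] (.d 489 3437 365 3468 520)
 (.a 1 [365] (.r 426 425 428 (.d 490 1386 362 1418 522))
 .e))))
 .e))))
 .e)))))
 (.a 0 [427] (.q 330 (.a 1 [] (.d 297 2312 264 2345 429)
 (.a 1 [264] (.d 429 2345 297 2378 462)
 (.a 0 [297,429] (.q 332 (.a 1 [] (.d 329 328 328 329 333)
 (.a 1 [328] (.d 333 329 329 330 334)
 (.a 1 [329] (.d 301 3342 270 3373 425)
 .e))))
 .e))))
 .e)))))
 .e)))) (by decide +kernel)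

theorem b6_430 : S (PX [] [298,365,434]) := S.of (.q 395 (.a 1 [] (.d 393 392 392 393 397)
 (.a 1 [392] (.d 397 393 393 394 398)
 (.a 0 [393,397] (.q 331 (.a 1 [] (.d 299 1291 267 1323 427)
 (.a 1 [267] (.d 427 1323 299 1355 459)
 (.a 0 [299] (.r 427 1355 459 (.q 429 (.a 1 [] (.d 330 2345 297 2378 462)
 (.a 1 [297] (.d 462 2378 330 2411 495)
 (.a 0 [330,462] (.q 332 (.a 1 [] (.d 301 3342 270 3373 425)
 (.a 1 [270] (.d 425 3373 301 3404 456)
 (.a 1 [301] (.r 425 3404 456 (.r 428 425 426 (.d 364 1324 300 1356 460)))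
 (.a 0 [425] (.q 428 (.a 1 [] (.d 430 426 426 427 431)
 (.a 1 [426] (.d 364 1324 300 1356 460)
 .e)))
 .e)))))
 .e)))))
 (.a 0 [427] (.q 332 (.a 1 [] (.d 301 3342 270 3373 425)
 (.a 1 [270] (.d 425 3373 301 3404 456)
 (.a 0 [301,425] (.q 333 (.a 1 [] (.d 330 329 329 330 334)
 (.a 1 [329] (.d 334 330 330 331 335)
 (.a 1 [334] (.r 330 329 329 (.d 429 2345 297 2378 462))
 (.a 0 [330] (.q 364 (.a 1 [] (.d 300 1292 268 1324 428)
 (.a 1 [268] (.d 428 1324 300 1356 460)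
 (.a 1 [300] (.d 302 3343 271 3374 426)
 .e))))
 .e)))))
 .e))))
 .e)))))
 .e)))) (by decide +kernel)

theorem b6_431 : S (PX [] [298,393,434]) := S.of (.q 332 (.a 1 [] (.d 301 3342 270 3373 425)
 (.a 1 [270] (.d 425 3373 301 3404 456)
 (.a 0 [301] (.q 429 (.a 1 [] (.d 330 2345 297 2378 462)
 (.a 1 [297] (.d 462 2378 330 2411 495)
 (.a 0 [330,462] (.q 428 (.a 1 [] (.d 364 1324 300 1356 460)
 (.a 1 [300] (.r 460 1356 364 (.r 425 3404 456 (.r 427 425 426 (.d 493 2409 361 2442 526))))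
 (.a 0 [364,460] (.q 427 (.a 1 [] (.d 425 425 426 3404 456)
 (.a 1 [425] (.d 430 426 426 427 431)
 (.a 0 [426] (.q 365 (.a 1 [] (.d 334 3375 303 3406 458)
 (.a 1 [303] (.d 458 3406 334 3437 489)
 (.a 1 [334] (.r 431 427 430 (.d 398 2347 299 2380 464))
 .e))))
 .e))))
 .e))))
 .e))))
 (.a 0 [425] (.q 364 (.a 1 [] (.d 300 1292 268 1324 428)
 (.a 1 [268] (.d 428 1324 300 1356 460)
 (.a 0 [300,428] (.q 429 (.a 1 [] (.d 330 2345 297 2378 462)
 (.a 1 [297] (.d 462 2378 330 2411 495)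
 (.a 0 [330,462] (.q 365 (.a 1 [] (.d 362 361 361 362 366)
 (.a 1 [361] (.d 366 362 362 363 367)
 (.a 1 [362] (.r 301 3342 270 (.r 397 1325 333 (.r 398 394 395 (.d 431 2347 299 2380 464))))
 .e))))
 .e))))
 .e))))
 .e))))) (by decide +kernel)

theorem b6_432 : S (PX [] [298,397,434]) := S.of (.q 332 (.a 1 [] (.d 301 3342 270 3373 425)
 (.a 0 [301] (.q 429 (.a 1 [] (.d 330 2345 297 2378 462)
 (.a 0 [330] (.r 425 3404 456 (.q 364 (.a 1 [] (.d 300 1292 268 1324 428)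
 (.a 0 [428] (.q 361 (.a 1 [] (.d 362 360 360 361 365)
 (.a 0 [362] (.q 393 (.a 1 [] (.d 329 1321 297 1353 457)
 (.a 1 [457] (.r 395 392 392 (.q 427 (.a 1 [] (.d 331 1323 299 1355 459)
 (.a 1 [266] (.q 234 (.a 1 [] (.d 331 1323 299 1355 459)
 (.a 1 [459] (.d 328 2343 295 2376 460)
 .e)))
 (.a 1 [234] (.q 266 (.a 1 [] (.d 331 1323 299 1355 459)
 (.a 1 [459] (.d 460 2376 328 2409 493)
 .e)))
 (.a 1 [459] (.d 328 2343 295 2376 460)
 .e))))))
 (.a 1 [266] (.q 234 (.a 1 [] (.d 329 1321 297 1353 457)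
 (.a 1 [329] (.r 395 392 392 (.r 457 1385 489 (.d 426 3405 333 3436 488)))
 (.a 1 [457] (.q 427 (.a 1 [] (.d 328 2343 295 2376 460)
 (.a 1 [295] (.d 460 2376 328 2409 493)
 (.a 1 [328] (.r 395 392 392 (.d 459 1355 331 1387 491))
 .e))))
 .e))))
 (.a 1 [234] (.q 266 (.a 1 [] (.d 329 1321 297 1353 457)
 (.a 1 [329] (.r 395 392 392 (.r 457 1385 489 (.d 426 3405 333 3436 488)))
 (.a 1 [457] (.q 299 (.a 1 [] (.d 233 2248 200 2281 365)
 (.a 1 [200] (.d 365 2281 233 2314 398)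
 (.a 1 [233] (.r 395 392 392 (.d 331 1291 267 1323 427))
 .e))))
 .e))))
 (.a 1 [329] (.r 395 392 392 (.r 457 1385 489 (.d 426 3405 333 3436 488)))
 .e))))))
 (.a 1 [365] (.r 362 360 360 (.r 300 1292 268 (.q 393 (.a 1 [] (.d 329 1321 297 1353 457)
 (.a 1 [269] (.q 333 (.a 1 [] (.d 329 1321 297 1353 457)
 (.a 1 [329] (.r 395 392 392 (.d 426 3374 302 3405 457))
 (.a 1 [457] (.r 395 392 392 (.d 302 3343 271 3374 426))
 .e))))
 (.a 1 [329] (.d 331 3341 269 3372 424)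
 (.a 1 [333] (.r 269 3341 331 (.d 329 1321 297 1353 457))
 .e)))))))
 (.a 1 [360] (.q 427 (.a 1 [] (.d 328 2343 295 2376 460)
 (.a 1 [295] (.d 460 2376 328 2409 493)
 (.a 1 [328] (.r 365 361 362 (.d 458 3406 334 3437 489))
 .e))))
 .e)))))
 (.a 1 [300] (.r 428 1356 460 (.r 427 425 426 (.q 299 (.a 1 [] (.r 395 1323 331 (.r 431 427 430 (.r 365 2347 398 (.d 458 3406 334 3437 489))))
 (.a 1 [331] (.r 431 427 430 (.r 365 2347 398 (.d 458 3406 334 3437 489)))
 (.a 1 [334] (.r 395 1323 331 (.r 431 427 430 (.r 365 2347 398 (.d 362 361 361 362 366))))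
 (.a 0 [365,398,430,431] (.r 395 1323 331 (.r 392 392 393 (.r 491 1387 459 (.d 458 2407 359 2440 524))))
 .e)))))))
 (.a 1 [268] (.d 428 1324 300 1356 460)
 .e))))))
 (.a 1 [462] (.q 364 (.a 1 [] (.d 300 1292 268 1324 428)
 (.a 1 [300] (.r 428 1356 460 (.r 425 3404 456 (.r 427 425 426 (.q 299 (.a 1 [] (.r 395 1323 331 (.r 431 427 430 (.r 365 2347 398 (.d 458 3406 334 3437 489))))
 (.a 1 [331] (.r 431 427 430 (.r 365 2347 398 (.d 458 3406 334 3437 489)))
 (.a 1 [334] (.r 395 1323 331 (.r 431 427 430 (.r 365 2347 398 (.d 366 362 362 363 367))))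
 (.a 1 [365] (.r 331 1323 395 (.r 330 2345 297 (.d 333 329 329 330 334)))
 .e))))))))
 (.a 1 [428] (.r 330 2345 297 (.q 365 (.a 1 [] (.d 362 361 361 362 366)
 (.a 1 [299] (.r 300 1292 268 (.d 362 361 361 362 366))
 (.a 1 [361] (.d 366 362 362 363 367)
 (.a 1 [366] (.r 362 361 361 (.r 458 1354 426 (.d 427 3406 334 3437 489)))
 (.a 0 [300,362] (.q 299 (.a 1 [] (.d 266 2281 233 2314 398)
 (.a 1 [233] (.d 398 2314 266 2347 431)
 (.a 0 [266,398] (.q 331 (.a 1 [] (.d 329 328 328 329 333)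
 (.a 1 [328] (.d 333 329 329 330 334)
 (.a 1 [329] (.d 267 1259 235 1291 395)
 .e))))
 .e))))
 .e)))))))
 (.a 1 [268] (.d 428 1324 300 1356 460)
 .e)))))
 (.a 1 [297] (.d 462 2378 330 2411 495)
 .e)))))
 (.a 1 [425] (.q 364 (.a 1 [] (.d 300 1292 268 1324 428)
 (.a 1 [428] (.q 361 (.a 1 [] (.d 362 360 360 361 365)
 (.a 0 [360,362,365] (.q 330 (.a 1 [] (.d 297 2312 264 2345 429)
 (.a 1 [264] (.d 429 2345 297 2378 462)
 (.a 1 [297] (.r 268 1292 300 (.d 299 3309 237 3340 392))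
 .e))))
 .e)))
 (.a 1 [300] (.q 361 (.a 1 [] (.d 362 360 360 361 365)
 (.a 1 [360] (.r 365 361 362 (.r 460 1356 428 (.d 427 2376 328 2409 493)))
 (.a 1 [362] (.r 460 1356 428 (.d 427 2376 328 2409 493))
 .e))))
 .e))))
 .e)))) (by decide +kernel)

theorem b6_433 : S (PX [] [298,425,434]) := S.of (.q 395 (.a 1 [] (.d 393 392 392 393 397)
 (.a 1 [392] (.d 397 393 393 394 398)
 (.a 0 [393] (.q 427 (.a 1 [] (.d 331 1323 299 1355 459)
 (.a 1 [299] (.d 459 1355 331 1387 491)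
 (.a 0 [331,459] (.q 361 (.a 1 [] (.d 328 2343 295 2376 460)
 (.a 1 [295] (.d 460 2376 328 2409 493)
 (.a 0 [328,460] (.q 458 (.a 1 [] (.d 365 3406 334 3437 489)
 (.a 1 [334] (.d 489 3437 365 3468 520)
 (.a 1 [489] (.r 365 3406 334 (.r 362 361 364 (.d 426 1354 330 1386 490)))
 (.a 0 [365] (.q 362 (.a 1 [] (.d 360 359 359 360 364)
 (.a 1 [359] (.d 426 1354 330 1386 490)
 .e)))
 .e)))))
 .e))))
 .e))))
 (.a 0 [397] (.q 330 (.a 1 [] (.d 297 2312 264 2345 429)
 (.a 1 [264] (.d 429 2345 297 2378 462)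
 (.a 0 [297,429] (.q 299 (.a 1 [] (.d 331 1291 267 1323 427)
 (.a 1 [267] (.r 427 1323 331 (.r 392 392 393 (.d 361 3340 268 3371 423)))
 (.a 1 [331] (.r 392 392 393 (.d 361 3340 268 3371 423))
 .e))))
 .e))))
 .e))))) (by decide +kernel)

theorem b6_434 : S (PX [] [298,427,434]) := S.of (.q 332 (.a 1 [] (.d 301 3342 270 3373 425)
 (.a 1 [270] (.d 425 3373 301 3404 456)
 (.a 0 [301,425] (.q 429 (.a 1 [] (.d 330 2345 297 2378 462)
 (.a 1 [297] (.d 462 2378 330 2411 495)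
 (.a 0 [330,462] (.q 397 (.a 1 [] (.d 395 393 393 394 398)
 (.a 0 [393,395,398] (.q 365 (.a 1 [] (.d 461 1357 333 1389 493)
 (.a 0 [333,461,493] (.q 364 (.a 1 [] (.d 362 361 361 362 366)
 (.a 1 [361] (.d 366 362 362 363 367)
 (.a 1 [362] (.d 300 1292 268 1324 428)
 .e))))
 .e)))
 .e)))
 .e))))
 .e)))) (by decide +kernel)

theorem b6_435 : S (PX [] [298,429,434]) := S.of (.q 395 (.a 1 [] (.d 393 392 392 393 397)
 (.a 1 [392] (.d 397 393 393 394 398)
 (.a 0 [393] (.q 427 (.a 1 [] (.d 331 1323 299 1355 459)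
 (.a 1 [299] (.d 459 1355 331 1387 491)
 (.a 0 [331,459] (.q 460 (.a 1 [] (.d 361 2376 328 2409 493)
 (.a 1 [328] (.d 493 2409 361 2442 526)
 (.a 0 [361,493] (.q 364 (.a 1 [] (.d 428 1356 332 1388 492)
 (.a 1 [492] (.r 332 1356 428 (.d 425 3373 301 3404 456))
 (.a 0 [332,428] (.q 365 (.a 1 [] (.d 366 362 362 363 367)
 (.a 1 [362] (.d 458 3406 334 3437 489)
 .e)))
 .e))))
 .e))))
 .e))))
 (.a 0 [397] (.q 331 (.a 1 [] (.d 299 1291 267 1323 427)
 (.a 1 [267] (.d 427 1323 299 1355 459)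
 (.a 0 [299,427] (.r 393 392 392 (.q 425 (.a 1 [] (.d 332 3373 301 3404 456)
 (.a 1 [301] (.d 456 3404 332 3435 487)
 (.a 0 [332,456] (.q 361 (.a 1 [] (.d 329 1321 297 1353 457)
 (.a 1 [297] (.d 457 1353 329 1385 489)
 (.a 0 [329,457] (.q 362 (.a 1 [] (.d 360 359 359 360 364)
 (.a 1 [359] (.d 364 360 360 361 365)
 (.a 1 [360] (.d 300 3341 269 3372 424)
 .e))))
 .e))))
 .e)))))
 .e))))
 .e))))) (by decide +kernel)

theorem b6_436 : S (PX [] [298,430,434]) := S.of (.q 395 (.a 1 [] (.d 393 392 392 393 397)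
 (.a 1 [392] (.d 397 393 393 394 398)
 (.a 0 [393,397] (.q 331 (.a 1 [] (.d 299 1291 267 1323 427)
 (.a 1 [267] (.d 427 1323 299 1355 459)
 (.a 0 [299] (.r 427 1355 459 (.q 361 (.a 1 [] (.d 328 2343 295 2376 460)
 (.a 1 [295] (.d 460 2376 328 2409 493)
 (.a 0 [328,460] (.q 458 (.a 1 [] (.d 365 3406 334 3437 489)
 (.a 1 [334] (.d 489 3437 365 3468 520)
 (.a 1 [489] (.r 365 3406 334 (.r 362 361 364 (.d 426 1354 330 1386 490)))
 (.a 0 [365] (.q 362 (.a 1 [] (.d 360 359 359 360 364)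
 (.a 1 [359] (.d 426 1354 330 1386 490)
 .e)))
 .e)))))
 .e)))))
 (.a 0 [427] (.q 332 (.a 1 [] (.d 301 3342 270 3373 425)
 (.a 1 [270] (.d 425 3373 301 3404 456)
 (.a 0 [301,425] (.q 330 (.a 1 [] (.d 329 328 328 329 333)
 (.a 1 [328] (.d 333 329 329 330 334)
 (.a 1 [329] (.d 297 2312 264 2345 429)
 .e))))
 .e))))
 .e)))))
 .e)))) (by decide +kernel)

theorem b6_437 : S (PX [] [298,434,457]) := S.of (.q 395 (.a 1 [] (.d 393 392 392 393 397)
 (.a 1 [393] (.q 427 (.a 1 [] (.d 331 1323 299 1355 459)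
 (.a 1 [299] (.d 459 1355 331 1387 491)
 (.a 0 [331,459] (.q 425 (.a 1 [] (.d 332 3373 301 3404 456)
 (.a 1 [301] (.d 456 3404 332 3435 487)
 (.a 0 [332,456] (.q 458 (.a 1 [] (.d 365 3406 334 3437 489)
 (.a 1 [334] (.d 489 3437 365 3468 520)
 (.a 0 [365,489] (.q 426 (.a 1 [] (.d 424 423 423 424 428)
 (.a 1 [423] (.d 428 424 424 425 429)
 (.a 1 [424] (.d 362 1354 330 1386 490)
 .e))))
 .e))))
 .e))))
 .e))))
 (.a 1 [397] (.q 331 (.a 1 [] (.d 299 1291 267 1323 427)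
 (.a 1 [267] (.d 427 1323 299 1355 459)
 (.a 0 [299,427] (.q 332 (.a 1 [] (.d 301 3342 270 3373 425)
 (.a 1 [270] (.d 425 3373 301 3404 456)
 (.a 0 [301,425] (.q 300 (.a 1 [] (.d 364 1292 268 1324 428)
 (.a 1 [268] (.r 393 392 392 (.d 362 3341 269 3372 424))
 .e)))
 .e))))
 .e))))
 (.a 1 [392] (.d 397 393 393 394 398)
 .e))))) (by decide +kernel)

theorem b6_438 : S (PX [] [298,434,458]) := S.of (.q 429 (.a 1 [] (.d 330 2345 297 2378 462)
 (.a 1 [297] (.d 462 2378 330 2411 495)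
 (.a 0 [330,462] (.q 397 (.a 1 [] (.d 395 393 393 394 398)
 (.a 0 [393,395,398] (.q 365 (.a 1 [] (.d 333 1325 301 1357 461)
 (.a 1 [301] (.d 461 1357 333 1389 493)
 (.a 1 [461] (.r 301 1325 333 (.d 332 3342 270 3373 425))
 (.a 0 [333] (.q 332 (.a 1 [] (.d 301 3342 270 3373 425)
 (.a 1 [270] (.d 425 3373 301 3404 456)
 (.a 0 [301,425] (.q 364 (.a 1 [] (.d 362 361 361 362 366)
 (.a 1 [361] (.d 366 362 362 363 367)
 (.a 1 [362] (.d 300 1292 268 1324 428)
 .e))))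
 .e))))
 .e)))))
 .e)))
 .e)))) (by decide +kernel)

theorem b6_439 : S (PX [] [298,434,460]) := S.of (.q 429 (.a 1 [] (.d 330 2345 297 2378 462)
 (.a 1 [297] (.d 462 2378 330 2411 495)
 (.a 0 [330,462] (.q 397 (.a 1 [] (.d 395 393 393 394 398)
 (.a 0 [393,395,398] (.q 365 (.a 1 [] (.d 333 1325 301 1357 461)
 (.a 1 [301] (.d 461 1357 333 1389 493)
 (.a 1 [461] (.r 301 1325 333 (.d 332 3342 270 3373 425))
 (.a 0 [333] (.q 332 (.a 1 [] (.d 301 3342 270 3373 425)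
 (.a 1 [270] (.d 425 3373 301 3404 456)
 (.a 0 [301,425] (.q 364 (.a 1 [] (.d 362 361 361 362 366)
 (.a 1 [361] (.d 366 362 362 363 367)
 (.a 1 [362] (.d 300 1292 268 1324 428)
 .e))))
 .e))))
 .e)))))
 .e)))
 .e)))) (by decide +kernel)

theorem b6_440 : S (PX [] [298,434,461]) := S.of (.q 395 (.a 1 [] (.d 393 392 392 393 397)
 (.a 1 [392] (.d 397 393 393 394 398)
 (.a 0 [393,397] (.q 429 (.a 1 [] (.d 330 2345 297 2378 462)
 (.a 1 [297] (.d 462 2378 330 2411 495)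
 (.a 0 [330,462] (.q 331 (.a 1 [] (.d 299 1291 267 1323 427)
 (.a 1 [267] (.d 427 1323 299 1355 459)
 (.a 0 [299] (.q 425 (.a 1 [] (.d 332 3373 301 3404 456)
 (.a 1 [301] (.d 456 3404 332 3435 487)
 (.a 1 [456] (.r 427 1355 459 (.r 428 425 426 (.r 332 3373 301 (.d 364 1324 300 1356 460))))
 (.a 0 [332] (.r 427 1355 459 (.q 460 (.a 1 [] (.d 361 2376 328 2409 493)
 (.a 1 [328] (.d 493 2409 361 2442 526)
 (.a 1 [361] (.r 428 425 426 (.d 492 1388 364 1420 524))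
 .e)))))
 .e)))))
 (.a 0 [427] (.q 332 (.a 1 [] (.d 301 3342 270 3373 425)
 (.a 1 [270] (.d 425 3373 301 3404 456)
 (.a 0 [301,425] (.q 364 (.a 1 [] (.d 300 1292 268 1324 428)
 (.a 1 [268] (.d 428 1324 300 1356 460)
 (.a 0 [300] (.r 299 1291 267 (.q 365 (.a 1 [] (.d 362 361 361 362 366)
 (.a 1 [361] (.d 366 362 362 363 367)
 (.a 1 [362] (.d 266 2281 233 2314 398)
 .e)))))
 (.a 0 [428] (.r 300 1292 268 (.q 426 (.a 1 [] (.d 333 3374 302 3405 457)
 (.a 1 [302] (.d 457 3405 333 3436 488)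
 (.a 1 [457] (.r 333 3374 302 (.r 267 1291 299 (.d 366 2282 234 2315 399)))
 (.a 0 [333] (.q 365 (.a 1 [] (.d 362 361 361 362 366)
 (.a 1 [361] (.d 366 362 362 363 367)
 (.a 1 [362] (.r 299 1291 267 (.d 398 2314 266 2347 431))
 .e))))
 .e))))))
 .e)))))
 .e))))
 .e)))))
 .e))))
 .e)))) (by decide +kernel)

theorem b6_446 : S (PX [] [299,392,434]) := S.of (.q 330 (.a 1 [] (.d 297 2312 264 2345 429)
 (.a 1 [264] (.d 429 2345 297 2378 462)
 (.a 0 [297,429] (.q 332 (.a 1 [] (.d 301 3342 270 3373 425)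
 (.a 1 [270] (.d 425 3373 301 3404 456)
 (.a 0 [301] (.q 298 (.a 1 [] (.d 362 1290 266 1322 426)
 (.a 0 [266,362,426] (.q 331 (.a 1 [] (.d 329 328 328 329 333)
 (.a 1 [328] (.d 333 329 329 330 334)
 (.a 0 [329,333] (.q 397 (.a 1 [] (.d 395 393 393 394 398)
 (.a 1 [393] (.d 364 2313 265 2346 430)
 .e)))
 .e))))
 .e)))
 (.a 0 [425] (.q 364 (.a 1 [] (.d 300 1292 268 1324 428)
 (.a 1 [268] (.d 428 1324 300 1356 460)
 (.a 0 [300] (.q 298 (.a 1 [] (.d 362 1290 266 1322 426)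
 (.a 1 [266] (.r 362 1322 426 (.d 365 361 361 362 366))
 (.a 1 [426] (.r 362 1290 266 (.d 365 361 361 362 366))
 (.a 0 [362] (.q 331 (.a 1 [] (.d 329 328 328 329 333)
 (.a 1 [328] (.d 333 329 329 330 334)
 (.a 1 [329] (.d 265 2280 232 2313 397)
 .e))))
 .e)))))
 (.a 0 [428] (.q 426 (.a 1 [] (.d 362 1322 298 1354 458)
 (.a 1 [298] (.r 362 1354 458 (.d 365 361 361 362 366))
 (.a 1 [458] (.r 362 1322 298 (.d 365 361 361 362 366))
 (.a 0 [362] (.q 395 (.a 1 [] (.d 397 393 393 394 398)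
 (.a 1 [393] (.d 457 3405 333 3436 488)
 .e)))
 .e)))))
 .e)))))
 .e)))))
 .e)))) (by decide +kernel)

theorem b6_488 : S (PX [] [237,330,434]) := S.of (.q 395 (.a 1 [] (.d 393 392 392 393 397)
 (.a 1 [392] (.d 397 393 393 394 398)
 (.a 0 [393,397] (.q 427 (.a 1 [] (.d 331 1323 299 1355 459)
 (.a 1 [299] (.d 459 1355 331 1387 491)
 (.a 0 [331,459] (.q 332 (.a 1 [] (.d 301 3342 270 3373 425)
 (.a 1 [270] (.d 425 3373 301 3404 456)
 (.a 0 [301,425] (.q 365 (.a 1 [] (.d 334 3375 303 3406 458)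
 (.a 1 [303] (.d 458 3406 334 3437 489)
 (.a 0 [334,458] (.q 364 (.a 1 [] (.d 362 361 361 362 366)
 (.a 1 [361] (.d 366 362 362 363 367)
 (.a 1 [362] (.d 300 1292 268 1324 428)
 .e))))
 .e))))
 .e))))
 .e))))
 .e)))) (by decide +kernel)

theorem b6_489 : S (PX [] [264,397,434]) := S.of (.q 425 (.a 1 [] (.d 332 3373 301 3404 456)
 (.a 1 [301] (.d 456 3404 332 3435 487)
 (.a 0 [332,456] (.q 330 (.a 1 [] (.d 429 2345 297 2378 462)
 (.a 0 [297,429,462] (.q 426 (.a 1 [] (.d 362 1322 298 1354 458)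
 (.a 0 [298,362,458] (.q 423 (.a 1 [] (.d 424 422 422 423 427)
 (.a 0 [422,424,427] (.q 392 (.a 1 [] (.d 361 3371 299 3402 454)
 (.a 1 [299] (.r 393 392 395 (.r 361 3402 454 (.d 457 1353 329 1385 489)))
 (.a 1 [454] (.r 393 392 395 (.r 361 3371 299 (.d 457 1353 329 1385 489)))
 (.a 0 [361] (.r 393 392 395 (.q 327 (.a 1 [] (.d 360 2342 294 2375 459)
 (.a 1 [294] (.r 391 390 390 (.d 359 1319 295 1351 455))
 .e))))
 .e)))))
 .e)))
 .e)))
 .e)))
 .e)))) (by decide +kernel)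

theorem b6_490 : S (PX [] [264,398,434]) := S.of (.q 332 (.a 1 [] (.d 301 3342 270 3373 425)
 (.a 1 [270] (.d 425 3373 301 3404 456)
 (.a 0 [301,425] (.q 364 (.a 1 [] (.d 300 1292 268 1324 428)
 (.a 1 [268] (.d 428 1324 300 1356 460)
 (.a 0 [300,428] (.q 362 (.a 1 [] (.d 361 360 360 361 365)
 (.a 1 [360] (.d 365 361 361 362 366)
 (.a 0 [361,365] (.q 330 (.a 1 [] (.d 298 1290 266 1322 426)
 (.a 1 [266] (.d 426 1322 298 1354 458)
 (.a 1 [298] (.d 429 2345 297 2378 462)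
 .e))))
 .e))))
 .e))))
 .e)))) (by decide +kernel)

theorem b6_498 : S (PX [] [266,299,434]) := S.of (.q 332 (.a 1 [] (.d 301 3342 270 3373 425)
 (.a 1 [270] (.d 425 3373 301 3404 456)
 (.a 0 [301,425] (.q 395 (.a 1 [] (.d 393 392 392 393 397)
 (.a 1 [392] (.d 397 393 393 394 398)
 (.a 0 [393,397] (.q 427 (.a 1 [] (.d 459 1355 331 1387 491)
 (.a 0 [331,459,491] (.q 361 (.a 1 [] (.d 328 2343 295 2376 460)
 (.a 1 [295] (.d 460 2376 328 2409 493)
 (.a 1 [328] (.r 460 2409 493 (.r 364 1356 428 (.d 362 360 360 361 365)))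
 (.a 0 [460] (.q 364 (.a 1 [] (.d 362 360 360 361 365)
 (.a 1 [360] (.d 300 1292 268 1324 428)
 .e)))
 .e)))))
 .e)))
 .e))))
 .e)))) (by decide +kernel)

theorem b6_499 : S (PX [] [268,299,434]) := S.of (.q 330 (.a 1 [] (.d 297 2312 264 2345 429)
 (.a 1 [264] (.d 429 2345 297 2378 462)
 (.a 0 [297,429] (.q 395 (.a 1 [] (.d 393 392 392 393 397)
 (.a 1 [392] (.d 397 393 393 394 398)
 (.a 0 [393,397] (.q 427 (.a 1 [] (.d 459 1355 331 1387 491)
 (.a 0 [331,459,491] (.q 365 (.a 1 [] (.d 334 3375 303 3406 458)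
 (.a 1 [303] (.d 458 3406 334 3437 489)
 (.a 1 [334] (.r 458 3437 489 (.r 362 1354 426 (.d 364 361 361 362 366)))
 (.a 0 [458] (.q 362 (.a 1 [] (.d 364 361 361 362 366)
 (.a 1 [361] (.d 298 1290 266 1322 426)
 .e)))
 .e)))))
 .e)))
 .e))))
 .e)))) (by decide +kernel)

theorem b6_500 : S (PX [] [295,299,434]) := S.of (.q 332 (.a 1 [] (.d 301 3342 270 3373 425)
 (.a 1 [270] (.d 425 3373 301 3404 456)
 (.a 0 [301,425] (.q 395 (.a 1 [] (.d 393 392 392 393 397)
 (.a 1 [392] (.d 397 393 393 394 398)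
 (.a 0 [393,397] (.q 429 (.a 1 [] (.d 330 2345 297 2378 462)
 (.a 1 [297] (.d 462 2378 330 2411 495)
 (.a 0 [330,462] (.q 427 (.a 1 [] (.d 459 1355 331 1387 491)
 (.a 0 [331,459,491] (.q 428 (.a 1 [] (.d 430 426 426 427 431)
 (.a 1 [426] (.d 364 1324 300 1356 460)
 .e)))
 .e)))
 .e))))
 .e))))
 .e)))) (by decide +kernel)

theorem b6_501 : S (PX [] [296,299,434]) := S.of (.q 332 (.a 1 [] (.d 301 3342 270 3373 425)
 (.a 1 [270] (.d 425 3373 301 3404 456)
 (.a 0 [301,425] (.q 395 (.a 1 [] (.d 393 392 392 393 397)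
 (.a 1 [392] (.d 397 393 393 394 398)
 (.a 0 [393,397] (.q 427 (.a 1 [] (.d 459 1355 331 1387 491)
 (.a 0 [331,459,491] (.q 361 (.a 1 [] (.d 328 2343 295 2376 460)
 (.a 1 [295] (.d 460 2376 328 2409 493)
 (.a 1 [328] (.r 460 2409 493 (.r 364 1356 428 (.d 362 360 360 361 365)))
 (.a 0 [460] (.q 364 (.a 1 [] (.d 362 360 360 361 365)
 (.a 1 [360] (.d 300 1292 268 1324 428)
 .e)))
 .e)))))
 .e)))
 .e))))
 .e)))) (by decide +kernel)

theorem b6_502 : S (PX [] [297,299,434]) := S.of (.q 395 (.a 1 [] (.d 393 392 392 393 397)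
 (.a 1 [392] (.d 397 393 393 394 398)
 (.a 0 [393,397] (.q 427 (.a 1 [] (.d 459 1355 331 1387 491)
 (.a 0 [331,459,491] (.q 361 (.a 1 [] (.d 328 2343 295 2376 460)
 (.a 1 [295] (.d 460 2376 328 2409 493)
 (.a 0 [328,460] (.q 458 (.a 1 [] (.d 365 3406 334 3437 489)
 (.a 1 [334] (.d 489 3437 365 3468 520)
 (.a 1 [489] (.r 365 3406 334 (.r 362 361 364 (.d 426 1354 330 1386 490)))
 (.a 0 [365] (.q 362 (.a 1 [] (.d 360 359 359 360 364)
 (.a 1 [359] (.d 426 1354 330 1386 490)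
 .e)))
 .e)))))
 .e))))
 .e)))
 .e)))) (by decide +kernel)

theorem b6_503 : S (PX [] [299,300,434]) := S.of (.q 429 (.a 1 [] (.d 330 2345 297 2378 462)
 (.a 1 [297] (.d 462 2378 330 2411 495)
 (.a 0 [330,462] (.q 397 (.a 1 [] (.d 395 393 393 394 398)
 (.a 0 [393,395,398] (.q 365 (.a 1 [] (.d 333 1325 301 1357 461)
 (.a 1 [301] (.d 461 1357 333 1389 493)
 (.a 1 [461] (.r 301 1325 333 (.d 332 3342 270 3373 425))
 (.a 0 [333] (.q 427 (.a 1 [] (.d 334 3375 303 3406 458)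
 (.a 1 [303] (.d 458 3406 334 3437 489)
 (.a 1 [334] (.r 493 1389 461 (.d 460 2409 361 2442 526))
 .e))))
 .e)))))
 .e)))
 .e)))) (by decide +kernel)

theorem b6_504 : S (PX [] [299,301,434]) := S.of (.q 395 (.a 1 [] (.d 393 392 392 393 397)
 (.a 1 [392] (.d 397 393 393 394 398)
 (.a 0 [393,397] (.q 427 (.a 1 [] (.d 459 1355 331 1387 491)
 (.a 0 [331,459,491] (.q 365 (.a 1 [] (.d 334 3375 303 3406 458)
 (.a 1 [303] (.d 458 3406 334 3437 489)
 (.a 0 [334,458] (.q 460 (.a 1 [] (.d 361 2376 328 2409 493)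
 (.a 1 [328] (.d 493 2409 361 2442 526)
 (.a 1 [493] (.r 361 2376 328 (.r 364 361 362 (.d 428 1356 332 1388 492)))
 (.a 0 [361] (.q 364 (.a 1 [] (.d 366 362 362 363 367)
 (.a 1 [362] (.d 428 1356 332 1388 492)
 .e)))
 .e)))))
 .e))))
 .e)))
 .e)))) (by decide +kernel)

theorem b6_505 : S (PX [] [299,302,434]) := S.of (.q 330 (.a 1 [] (.d 297 2312 264 2345 429)
 (.a 1 [264] (.d 429 2345 297 2378 462)
 (.a 0 [297,429] (.q 395 (.a 1 [] (.d 393 392 392 393 397)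
 (.a 1 [392] (.d 397 393 393 394 398)
 (.a 0 [393,397] (.q 427 (.a 1 [] (.d 459 1355 331 1387 491)
 (.a 0 [331,459,491] (.q 365 (.a 1 [] (.d 334 3375 303 3406 458)
 (.a 1 [303] (.d 458 3406 334 3437 489)
 (.a 1 [334] (.r 458 3437 489 (.r 362 1354 426 (.d 364 361 361 362 366)))
 (.a 0 [458] (.q 362 (.a 1 [] (.d 364 361 361 362 366)
 (.a 1 [361] (.d 298 1290 266 1322 426)
 .e)))
 .e)))))
 .e)))
 .e))))
 .e)))) (by decide +kernel)

theorem b6_506 : S (PX [] [299,303,434]) := S.of (.q 330 (.a 1 [] (.d 297 2312 264 2345 429)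
 (.a 1 [264] (.d 429 2345 297 2378 462)
 (.a 0 [297,429] (.q 395 (.a 1 [] (.d 393 392 392 393 397)
 (.a 1 [392] (.d 397 393 393 394 398)
 (.a 0 [393,397] (.q 425 (.a 1 [] (.d 332 3373 301 3404 456)
 (.a 1 [301] (.d 456 3404 332 3435 487)
 (.a 0 [332,456] (.q 427 (.a 1 [] (.d 459 1355 331 1387 491)
 (.a 0 [331,459,491] (.q 426 (.a 1 [] (.d 424 423 423 424 428)
 (.a 1 [423] (.d 362 1322 298 1354 458)
 .e)))
 .e)))
 .e))))
 .e))))
 .e)))) (by decide +kernel)

theorem b6_507 : S (PX [] [299,329,434]) := S.of (.q 395 (.a 1 [] (.d 393 392 392 393 397)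
 (.a 1 [392] (.d 397 393 393 394 398)
 (.a 0 [393,397] (.q 425 (.a 1 [] (.d 332 3373 301 3404 456)
 (.a 1 [301] (.d 456 3404 332 3435 487)
 (.a 0 [332,456] (.q 427 (.a 1 [] (.d 459 1355 331 1387 491)
 (.a 0 [331,459,491] (.q 330 (.a 1 [] (.d 297 2312 264 2345 429)
 (.a 1 [264] (.d 429 2345 297 2378 462)
 (.a 1 [297] (.r 429 2378 462 (.r 426 425 428 (.d 362 1322 298 1354 458)))
 (.a 0 [429] (.q 426 (.a 1 [] (.d 424 423 423 424 428)
 (.a 1 [423] (.d 362 1322 298 1354 458)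
 .e)))
 .e)))))
 .e)))
 .e))))
 .e)))) (by decide +kernel)

theorem b6_508 : S (PX [] [299,330,434]) := S.of (.q 332 (.a 1 [] (.d 301 3342 270 3373 425)
 (.a 1 [270] (.d 425 3373 301 3404 456)
 (.a 0 [301,425] (.q 395 (.a 1 [] (.d 393 392 392 393 397)
 (.a 1 [392] (.d 397 393 393 394 398)
 (.a 0 [393,397] (.q 427 (.a 1 [] (.d 459 1355 331 1387 491)
 (.a 0 [331,459,491] (.q 361 (.a 1 [] (.d 328 2343 295 2376 460)
 (.a 1 [295] (.d 460 2376 328 2409 493)
 (.a 1 [328] (.r 460 2409 493 (.r 364 1356 428 (.d 362 360 360 361 365)))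
 (.a 0 [460] (.q 364 (.a 1 [] (.d 362 360 360 361 365)
 (.a 1 [360] (.d 300 1292 268 1324 428)
 .e)))
 .e)))))
 .e)))
 .e))))
 .e)))) (by decide +kernel)

theorem b6_509 : S (PX [] [299,333,434]) := S.of (.q 395 (.a 1 [] (.d 393 392 392 393 397)
 (.a 1 [392] (.d 397 393 393 394 398)
 (.a 0 [393,397] (.q 429 (.a 1 [] (.d 330 2345 297 2378 462)
 (.a 1 [297] (.d 462 2378 330 2411 495)
 (.a 0 [330,462] (.q 427 (.a 1 [] (.d 459 1355 331 1387 491)
 (.a 0 [331,459,491] (.q 332 (.a 1 [] (.d 301 3342 270 3373 425)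
 (.a 1 [270] (.d 425 3373 301 3404 456)
 (.a 1 [301] (.r 425 3404 456 (.r 428 425 426 (.d 364 1324 300 1356 460)))
 (.a 0 [425] (.q 428 (.a 1 [] (.d 430 426 426 427 431)
 (.a 1 [426] (.d 364 1324 300 1356 460)
 .e)))
 .e)))))
 .e)))
 .e))))
 .e)))) (by decide +kernel)

theorem b6_510 : S (PX [] [299,361,434]) := S.of (.q 395 (.a 1 [] (.d 393 392 392 393 397)
 (.a 1 [392] (.d 397 393 393 394 398)
 (.a 0 [393,397] (.q 425 (.a 1 [] (.d 332 3373 301 3404 456)
 (.a 1 [301] (.d 456 3404 332 3435 487)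
 (.a 0 [332,456] (.q 427 (.a 1 [] (.d 459 1355 331 1387 491)
 (.a 0 [331,459,491] (.q 330 (.a 1 [] (.d 297 2312 264 2345 429)
 (.a 1 [264] (.d 429 2345 297 2378 462)
 (.a 1 [297] (.r 429 2378 462 (.r 426 425 428 (.d 362 1322 298 1354 458)))
 (.a 0 [429] (.q 426 (.a 1 [] (.d 424 423 423 424 428)
 (.a 1 [423] (.d 362 1322 298 1354 458)
 .e)))
 .e)))))
 .e)))
 .e))))
 .e)))) (by decide +kernel)

theorem b6_511 : S (PX [] [299,365,434]) := S.of (.q 395 (.a 1 [] (.d 393 392 392 393 397)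
 (.a 1 [392] (.d 397 393 393 394 398)
 (.a 0 [393,397] (.q 429 (.a 1 [] (.d 330 2345 297 2378 462)
 (.a 1 [297] (.d 462 2378 330 2411 495)
 (.a 0 [330,462] (.q 427 (.a 1 [] (.d 459 1355 331 1387 491)
 (.a 0 [331,459,491] (.q 332 (.a 1 [] (.d 301 3342 270 3373 425)
 (.a 1 [270] (.d 425 3373 301 3404 456)
 (.a 1 [301] (.r 425 3404 456 (.r 428 425 426 (.d 364 1324 300 1356 460)))
 (.a 0 [425] (.q 428 (.a 1 [] (.d 430 426 426 427 431)
 (.a 1 [426] (.d 364 1324 300 1356 460)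
 .e)))
 .e)))))
 .e)))
 .e))))
 .e)))) (by decide +kernel)

theorem b6_512 : S (PX [] [299,393,434]) := S.of (.q 330 (.a 1 [] (.d 297 2312 264 2345 429)
 (.a 1 [264] (.d 429 2345 297 2378 462)
 (.a 0 [297] (.q 425 (.a 1 [] (.d 332 3373 301 3404 456)
 (.a 1 [301] (.d 456 3404 332 3435 487)
 (.a 0 [332,456] (.r 429 2378 462 (.q 426 (.a 1 [] (.d 362 1322 298 1354 458)
 (.a 1 [298] (.r 427 425 428 (.r 458 1354 362 (.d 489 3437 365 3468 520)))
 (.a 0 [362] (.r 427 425 428 (.q 365 (.a 1 [] (.d 334 3375 303 3406 458)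
 (.a 1 [303] (.d 458 3406 334 3437 489)
 (.a 0 [334,458] (.q 395 (.a 1 [] (.d 459 1355 331 1387 491)
 (.a 1 [331] (.r 397 394 398 (.d 461 1357 333 1389 493))
 .e)))
 .e)))))
 (.a 0 [458] (.r 427 425 428 (.q 361 (.a 1 [] (.d 328 2343 295 2376 460)
 (.a 1 [295] (.d 460 2376 328 2409 493)
 (.a 1 [328] (.r 362 1322 298 (.d 364 360 360 361 365))
 .e)))))
 .e))))))
 .e))))
 (.a 0 [429] (.q 362 (.a 1 [] (.d 298 1290 266 1322 426)
 (.a 1 [266] (.d 426 1322 298 1354 458)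
 (.a 0 [298,426] (.q 364 (.a 1 [] (.d 361 360 360 361 365)
 (.a 1 [360] (.d 365 361 361 362 366)
 (.a 0 [361,365] (.q 332 (.a 1 [] (.d 300 1292 268 1324 428)
 (.a 1 [268] (.d 428 1324 300 1356 460)
 (.a 1 [300] (.d 301 3342 270 3373 425)
 .e))))
 .e))))
 .e))))
 .e))))) (by decide +kernel)

theorem b6_513 : S (PX [] [299,397,434]) := S.of (.q 330 (.a 1 [] (.d 297 2312 264 2345 429)
 (.a 1 [264] (.d 429 2345 297 2378 462)
 (.a 0 [297] (.q 425 (.a 1 [] (.d 332 3373 301 3404 456)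
 (.a 1 [301] (.d 456 3404 332 3435 487)
 (.a 0 [332,456] (.q 426 (.a 1 [] (.d 362 1322 298 1354 458)
 (.a 1 [298] (.r 458 1354 362 (.r 429 2378 462 (.r 427 425 428 (.d 489 3437 365 3468 520))))
 (.a 0 [362,458] (.q 427 (.a 1 [] (.d 429 425 428 2378 462)
 (.a 1 [429] (.d 424 423 423 424 428)
 (.a 0 [428] (.q 361 (.a 1 [] (.d 328 2343 295 2376 460)
 (.a 1 [295] (.d 460 2376 328 2409 493)
 (.a 1 [328] (.r 423 423 424 (.r 392 3402 454 (.r 393 392 395 (.d 457 1353 329 1385 489))))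
 .e))))
 .e))))
 .e))))
 .e))))
 (.a 0 [429] (.q 362 (.a 1 [] (.d 298 1290 266 1322 426)
 (.a 1 [266] (.d 426 1322 298 1354 458)
 (.a 0 [298,426] (.q 425 (.a 1 [] (.d 332 3373 301 3404 456)
 (.a 1 [301] (.d 456 3404 332 3435 487)
 (.a 0 [332,456] (.q 361 (.a 1 [] (.d 360 359 359 360 364)
 (.a 1 [359] (.d 364 360 360 361 365)
 (.a 1 [364] (.r 297 2312 264 (.r 393 1321 329 (.r 392 392 395 (.r 359 359 360 (.d 458 2374 326 2407 491)))))
 (.a 0 [360] (.q 427 (.a 1 [] (.d 328 2343 295 2376 460)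
 (.a 1 [295] (.d 460 2376 328 2409 493)
 (.a 1 [328] (.r 365 361 364 (.d 458 3406 334 3437 489))
 .e))))
 .e)))))
 .e))))
 .e))))
 .e))))) (by decide +kernel)

theorem b6_514 : S (PX [] [299,398,434]) := S.of (.q 332 (.a 1 [] (.d 301 3342 270 3373 425)
 (.a 1 [270] (.d 425 3373 301 3404 456)
 (.a 0 [301,425] (.q 330 (.a 1 [] (.d 297 2312 264 2345 429)
 (.a 1 [264] (.d 429 2345 297 2378 462)
 (.a 0 [297] (.q 300 (.a 1 [] (.d 364 1292 268 1324 428)
 (.a 0 [268,364,428] (.q 331 (.a 1 [] (.d 329 328 328 329 333)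
 (.a 1 [328] (.d 333 329 329 330 334)
 (.a 0 [329,333] (.q 393 (.a 1 [] (.d 395 392 392 393 397)
 (.a 1 [392] (.d 362 3341 269 3372 424)
 .e)))
 .e))))
 .e)))
 (.a 0 [429] (.q 362 (.a 1 [] (.d 298 1290 266 1322 426)
 (.a 1 [266] (.d 426 1322 298 1354 458)
 (.a 0 [298] (.q 300 (.a 1 [] (.d 364 1292 268 1324 428)
 (.a 1 [268] (.r 364 1324 428 (.d 365 361 361 362 366))
 (.a 1 [428] (.r 364 1292 268 (.d 365 361 361 362 366))
 (.a 0 [364] (.q 331 (.a 1 [] (.d 329 328 328 329 333)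
 (.a 1 [328] (.d 333 329 329 330 334)
 (.a 1 [329] (.d 269 3310 238 3341 393)
 .e))))
 .e)))))
 (.a 0 [426] (.q 428 (.a 1 [] (.d 364 1324 300 1356 460)
 (.a 1 [300] (.r 364 1356 460 (.d 365 361 361 362 366))
 (.a 1 [460] (.r 364 1324 300 (.d 365 361 361 362 366))
 (.a 0 [364] (.q 395 (.a 1 [] (.d 393 392 392 393 397)
 (.a 1 [392] (.d 461 2377 329 2410 494)
 .e)))
 .e)))))
 .e)))))
 .e)))))
 .e)))) (by decide +kernel)

theorem b6_515 : S (PX [] [299,423,434]) := S.of (.q 330 (.a 1 [] (.d 297 2312 264 2345 429)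
 (.a 1 [264] (.d 429 2345 297 2378 462)
 (.a 0 [297,429] (.q 395 (.a 1 [] (.d 393 392 392 393 397)
 (.a 1 [392] (.d 397 393 393 394 398)
 (.a 0 [393,397] (.q 427 (.a 1 [] (.d 459 1355 331 1387 491)
 (.a 0 [331,459,491] (.q 365 (.a 1 [] (.d 334 3375 303 3406 458)
 (.a 1 [303] (.d 458 3406 334 3437 489)
 (.a 1 [334] (.r 458 3437 489 (.r 362 1354 426 (.d 364 361 361 362 366)))
 (.a 0 [458] (.q 362 (.a 1 [] (.d 364 361 361 362 366)
 (.a 1 [361] (.d 298 1290 266 1322 426)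
 .e)))
 .e)))))
 .e)))
 .e))))
 .e)))) (by decide +kernel)

theorem b6_516 : S (PX [] [299,425,434]) := S.of (.q 395 (.a 1 [] (.d 393 392 392 393 397)
 (.a 1 [392] (.d 397 393 393 394 398)
 (.a 0 [393,397] (.q 427 (.a 1 [] (.d 459 1355 331 1387 491)
 (.a 0 [331,459,491] (.q 361 (.a 1 [] (.d 328 2343 295 2376 460)
 (.a 1 [295] (.d 460 2376 328 2409 493)
 (.a 0 [328,460] (.q 458 (.a 1 [] (.d 365 3406 334 3437 489)
 (.a 1 [334] (.d 489 3437 365 3468 520)
 (.a 1 [489] (.r 365 3406 334 (.r 362 361 364 (.d 426 1354 330 1386 490)))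
 (.a 0 [365] (.q 362 (.a 1 [] (.d 360 359 359 360 364)
 (.a 1 [359] (.d 426 1354 330 1386 490)
 .e)))
 .e)))))
 .e))))
 .e)))
 .e)))) (by decide +kernel)

theorem b6_517 : S (PX [] [299,431,434]) := S.of (.q 332 (.a 1 [] (.d 301 3342 270 3373 425)
 (.a 1 [270] (.d 425 3373 301 3404 456)
 (.a 0 [301,425] (.q 395 (.a 1 [] (.d 393 392 392 393 397)
 (.a 1 [392] (.d 397 393 393 394 398)
 (.a 0 [393,397] (.q 427 (.a 1 [] (.d 459 1355 331 1387 491)
 (.a 0 [331,459,491] (.q 361 (.a 1 [] (.d 328 2343 295 2376 460)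
 (.a 1 [295] (.d 460 2376 328 2409 493)
 (.a 1 [328] (.r 460 2409 493 (.r 364 1356 428 (.d 362 360 360 361 365)))
 (.a 0 [460] (.q 364 (.a 1 [] (.d 362 360 360 361 365)
 (.a 1 [360] (.d 300 1292 268 1324 428)
 .e)))
 .e)))))
 .e)))
 .e))))
 .e)))) (by decide +kernel)

theorem b6_518 : S (PX [] [299,434,457]) := S.of (.q 330 (.a 1 [] (.d 297 2312 264 2345 429)
 (.a 1 [264] (.d 429 2345 297 2378 462)
 (.a 0 [297,429] (.q 395 (.a 1 [] (.d 393 392 392 393 397)
 (.a 1 [392] (.d 397 393 393 394 398)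
 (.a 0 [393,397] (.q 425 (.a 1 [] (.d 332 3373 301 3404 456)
 (.a 1 [301] (.d 456 3404 332 3435 487)
 (.a 0 [332,456] (.q 427 (.a 1 [] (.d 459 1355 331 1387 491)
 (.a 0 [331,459,491] (.q 458 (.a 1 [] (.d 365 3406 334 3437 489)
 (.a 1 [334] (.d 489 3437 365 3468 520)
 (.a 1 [365] (.r 426 1354 362 (.d 424 423 423 424 428))
 .e))))
 .e)))
 .e))))
 .e))))
 .e)))) (by decide +kernel)

theorem v0_695 : VW (PX [431,436] [430,432,434,435]) := VW.of base nl_ok fl_ok .nil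
  []
  [([297], (PX [431,436] [297,430,432,434,435])), ([332], (PX [431,436] [332,430,432,434,435])), ([361], (PX [431,436] [361,430,432,434,435])), ([364], (PX [431,436] [364,430,432,434,435])), ([365], (PX [431,436] [365,430,432,434,435])), ([397], (PX [431,436] [397,430,432,434,435])), ([424], (PX [431,436] [424,430,432,434,435])), ([425], (PX [431,436] [425,430,432,434,435])), ([427], (PX [431,436] [427,430,432,434,435])), ([428], (PX [431,436] [428,430,432,434,435])), ([488], (PX [431,436] [430,432,434,435,488]))]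
  (by decide +kernel) ⟨b0_1721, b0_1722, b0_1723, b0_1724, b0_1725, b0_1726, b0_1727, b0_1728, b0_1729, b0_1730, b0_1731, trivial⟩

theorem v0_697 : VW (PX [431,435] [430,432,434,436]) := VW.of base nl_ok fl_ok .nil
  []
  [([297], (PX [431,435] [297,430,432,434,436])), ([332], (PX [431,435] [332,430,432,434,436])), ([361], (PX [431,435] [361,430,432,434,436])), ([364], (PX [431,435] [364,430,432,434,436])), ([365], (PX [431,435] [365,430,432,434,436])), ([397], (PX [431,435] [397,430,432,434,436])), ([424], (PX [431,435] [424,430,432,434,436])), ([425], (PX [431,435] [425,430,432,434,436])), ([427], (PX [431,435] [427,430,432,434,436])), ([428], (PX [431,435] [428,430,432,434,436])), ([488], (PX [431,435] [430,432,434,436,488]))]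
  (by decide +kernel) ⟨b0_1743, b0_1744, b0_1745, b0_1746, b0_1747, b0_1748, b0_1749, b0_1750, b0_1751, b0_1752, b0_1753, trivial⟩

theorem w0_698_435 : S (PX [431] [430,432,434,435]) := VW.play 436 (PX [431,436] [430,432,434,435]) (by decide +kernel) v0_695

theorem w0_698_436 : S (PX [431] [430,432,434,436]) := VW.play 435 (PX [431,435] [430,432,434,436]) (by decide +kernel) v0_697

theorem v0_698 : VW (PX [431] [430,432,434]) := VW.of base nl_ok fl_ok .nil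
  [(433, (.cons 435 436 .nil (.cons 436 435 .nil .nil)))]
  (([297], (PX [431] [297,430,432,434])) :: ([332], (PX [431] [332,430,432,434])) :: ([361], (PX [431] [361,430,432,434])) :: ([364], (PX [431] [364,430,432,434])) :: ([365], (PX [431] [365,430,432,434])) :: ([397], (PX [431] [397,430,432,434])) :: ([424], (PX [431] [424,430,432,434])) :: ([425], (PX [431] [425,430,432,434])) :: ([427], (PX [431] [427,430,432,434])) :: ([428], (PX [431] [428,430,432,434])) :: ([435], (PX [431] [430,432,434,435])) :: ([436], (PX [431] [430,432,434,436])) :: ([488], (PX [431] [430,432,434,488])) :: [])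
  (by decide +kernel) ⟨b0_1700, b0_1701, b0_1702, b0_1703, b0_1704, b0_1705, b0_1706, b0_1707, b0_1708, b0_1709, w0_698_435, w0_698_436, b0_1754, trivial⟩

theorem v0_712 : VW (PX [432] [430,433,434]) := VW.of base nl_ok fl_ok .nil
  [(435, (.cons 436 437 .nil (.cons 437 436 .nil .nil))), (436, (.cons 435 437 .nil (.cons 437 435 .nil .nil))), (437, (.cons 435 436 .nil (.cons 436 435 .nil .nil)))]
  (([297], (PX [432] [297,430,433,434])) :: ([298], (PX [432] [298,430,433,434])) :: ([332], (PX [432] [332,430,433,434])) :: ([334], (PX [432] [334,430,433,434])) :: ([361], (PX [432] [361,430,433,434])) :: ([364], (PX [432] [364,430,433,434])) :: ([365], (PX [432] [365,430,433,434])) :: ([367], (PX [432] [367,430,433,434])) :: ([397], (PX [432] [397,430,433,434])) :: ([400], (PX [432] [400,430,433,434])) :: ([424], (PX [432] [424,430,433,434])) :: ([425], (PX [432] [425,430,433,434])) :: ([427], (PX [432] [427,430,433,434]))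 :: ([428], (PX [432] [428,430,433,434])) :: ([488], (PX [432] [430,433,434,488])) :: [])
  (by decide +kernel) ⟨b0_1996, b0_1997, b0_1998, b0_1999, b0_2000, b0_2001, b0_2002, b0_2003, b0_2004, b0_2005, b0_2006, b0_2007, b0_2008, b0_2009, b0_2010, trivial⟩

theorem w0_713_432 : S (PX [] [430,432,434]) := VW.play 431 (PX [431] [430,432,434]) (by decide +kernel) v0_698

theorem w0_713_433 : S (PX [] [430,433,434]) := VW.play 432 (PX [432] [430,433,434]) (by decide +kernel) v0_712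

theorem v0_713 : VW (PX [] [430,434]) := VW.of base nl_ok fl_ok .nil
  []
  (([297], (PX [] [297,430,434])) :: ([330], (PX [] [330,430,434])) :: ([332], (PX [] [332,430,434])) :: ([361], (PX [] [361,430,434])) :: ([364], (PX [] [364,430,434])) :: ([365], (PX [] [365,430,434])) :: ([397], (PX [] [397,430,434])) :: ([424], (PX [] [424,430,434])) :: ([425], (PX [] [425,430,434])) :: ([427], (PX [] [427,430,434])) :: ([428], (PX [] [428,430,434])) :: ([431], (PX [] [430,431,434])) :: ([432], (PX [] [430,432,434])) :: ([433], (PX [] [430,433,434])) :: ([488], (PX [] [430,434,488])) :: [])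
  (by decide +kernel) ⟨b0_1688, b0_1689, b0_1690, b0_1691, b0_1692, b0_1693, b0_1694, b0_1695, b0_1696, b0_1697, b0_1698, b0_1699, w0_713_432, w0_713_433, b0_2011, trivial⟩

theorem v0_714 : VW (PX [433] [431,432,434]) := VW.of base nl_ok fl_ok .nil
  []
  (([299], (PX [433] [299,431,432,434])) :: ([331], (PX [433] [331,431,432,434])) :: ([332], (PX [433] [332,431,432,434])) :: ([333], (PX [433] [333,431,432,434])) :: ([361], (PX [433] [361,431,432,434])) :: ([365], (PX [433] [365,431,432,434])) :: ([392], (PX [433] [392,431,432,434])) :: ([393], (PX [433] [393,431,432,434])) :: ([395], (PX [433] [395,431,432,434])) :: ([397], (PX [433] [397,431,432,434])) :: ([398], (PX [433] [398,431,432,434])) :: ([399], (PX [433] [399,431,432,434])) :: ([424], (PX [433] [424,431,432,434])) :: ([425], (PX [433] [425,431,432,434])) :: ([427], (PX [433] [427,431,432,434])) :: ([428], (PX [433] [428,431,432,434])) :: ([429], (PX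 [433] [429,431,432,434])) :: ([430], (PX [433] [430,431,432,434])) :: ([457], (PX [433] [431,432,434,457])) :: ([463], (PX [433] [431,432,434,463])) :: [])
  (by decide +kernel) ⟨b0_2014, b0_2015, b0_2016, b0_2017, b0_2018, b0_2019, b0_2020, b0_2021, b0_2022, b0_2023, b0_2024, b0_2025, b0_2026, b0_2027, b0_2028, b0_2029, b0_2030, b0_1776, b0_2031, b0_2032, trivial⟩

theorem v0_730 : VW (PX [432] [431,433,434]) := VW.of base nl_ok fl_ok .nil
  [(435, (.cons 436 437 .nil (.cons 437 436 .nil .nil))), (436, (.cons 435 437 .nil (.cons 437 435 .nil .nil))), (437, (.cons 435 436 .nil (.cons 436 435 .nil .nil)))]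
  [([332], (PX [432] [332,431,433,434])), ([397], (PX [432] [397,431,433,434]))]
  (by decide +kernel) ⟨b0_2129, b0_2130, trivial⟩

theorem v0_739 : VW (PX [433] [431,434,435]) := VW.of base nl_ok fl_ok .nil
  [(436, (.cons 437 438 .nil (.cons 438 437 .nil .nil))), (437, (.cons 436 438 .nil (.cons 438 436 .nil .nil))), (438, (.cons 436 437 .nil (.cons 437 436 .nil .nil)))]
  [([332], (PX [433] [332,431,434,435])), ([397], (PX [433] [397,431,434,435]))]
  (by decide +kernel) ⟨b0_2147, b0_2148, trivial⟩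

theorem w0_740_432 : S (PX [] [431,432,434]) := VW.play 433 (PX [433] [431,432,434]) (by decide +kernel) v0_714

theorem w0_740_433 : S (PX [] [431,433,434]) := VW.play 432 (PX [432] [431,433,434]) (by decide +kernel) v0_730

theorem w0_740_435 : S (PX [] [431,434,435]) := VW.play 433 (PX [433] [431,434,435]) (by decide +kernel) v0_739

theorem v0_740 : VW (PX [] [431,434]) := VW.of base nl_ok fl_ok .nil
  []
  [([332], (PX [] [332,431,434])), ([397], (PX [] [397,431,434])), ([430], (PX [] [430,431,434])), ([432], (PX [] [431,432,434])), ([433], (PX [] [431,433,434])), ([435], (PX [] [431,434,435]))]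
  (by decide +kernel) ⟨b0_2012, b0_2013, b0_1699, w0_740_432, w0_740_433, w0_740_435, trivial⟩

theorem v0_741 : VW (PX [431,436] [432,433,434,435]) := VW.of base nl_ok fl_ok .nil
  []
  []
  (by decide +kernel) trivial

theorem v0_742 : VW (PX [431,435] [432,433,434,436]) := VW.of base nl_ok fl_ok .nil
  []
  []
  (by decide +kernel) trivial

theorem w0_743_435 : S (PX [431] [432,433,434,435]) := VW.play 436 (PX [431,436] [432,433,434,435]) (by decide +kernel) v0_741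

theorem w0_743_436 : S (PX [431] [432,433,434,436]) := VW.play 435 (PX [431,435] [432,433,434,436]) (by decide +kernel) v0_742

theorem v0_743 : VW (PX [431] [432,433,434]) := VW.of base nl_ok fl_ok (.cons 435 436 .nil (.cons 436 435 .nil .nil))
  [(437, (.cons 435 436 .nil (.cons 436 435 .nil .nil))), (438, (.cons 435 436 .nil (.cons 436 435 .nil .nil))), (439, (.cons 435 436 .nil (.cons 436 435 .nil .nil)))]
  [([435], (PX [431] [432,433,434,435])), ([436], (PX [431] [432,433,434,436]))]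
  (by decide +kernel) ⟨w0_743_435, w0_743_436, trivial⟩

theorem v0_744 : VW (PX [433] [432,434,435]) := VW.of base nl_ok fl_ok .nil
  [(436, (.cons 437 438 .nil (.cons 438 437 .nil .nil))), (437, (.cons 436 438 .nil (.cons 438 436 .nil .nil))), (438, (.cons 436 437 .nil (.cons 437 436 .nil .nil)))]
  []
  (by decide +kernel) trivial

theorem v0_745 : VW (PX [433] [432,434,436]) := VW.of base nl_ok fl_ok .nil
  [(435, (.cons 437 438 .nil (.cons 438 437 .nil .nil))), (437, (.cons 435 438 .nil (.cons 438 435 (.cons 439 440 .nil (.cons 440 439 .nil .nil)) .nil))), (438, (.cons 435 437 .nil (.cons 437 435 (.cons 439 440 .nil (.cons 440 439 .nil .nil)) .nil)))]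
  []
  (by decide +kernel) trivial

theorem w0_750_430 : S (PX [] [430,432,434]) := VW.play 431 (PX [431] [430,432,434]) (by decide +kernel) v0_698

theorem w0_750_431 : S (PX [] [431,432,434]) := VW.play 433 (PX [433] [431,432,434]) (by decide +kernel) v0_714

theorem w0_750_433 : S (PX [] [432,433,434]) := VW.play 431 (PX [431] [432,433,434]) (by decide +kernel) v0_743

theorem w0_750_435 : S (PX [] [432,434,435]) := VW.play 433 (PX [433] [432,434,435]) (by decide +kernel) v0_744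

theorem w0_750_436 : S (PX [] [432,434,436]) := VW.play 433 (PX [433] [432,434,436]) (by decide +kernel) v0_745

theorem v0_750 : VW (PX [] [432,434]) := VW.of base nl_ok fl_ok .nil
  []
  [([430], (PX [] [430,432,434])), ([431], (PX [] [431,432,434])), ([433], (PX [] [432,433,434])), ([435], (PX [] [432,434,435])), ([436], (PX [] [432,434,436]))]
  (by decide +kernel) ⟨w0_750_430, w0_750_431, w0_750_433, w0_750_435, w0_750_436, trivial⟩

theorem v0_751 : VW (PX [432,437] [433,434,435,436]) := VW.of base nl_ok fl_ok .nil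
  []
  []
  (by decide +kernel) trivial

theorem v0_752 : VW (PX [432,436] [433,434,435,437]) := VW.of base nl_ok fl_ok .nil
  []
  []
  (by decide +kernel) trivial

theorem w0_753_436 : S (PX [432] [433,434,435,436]) := VW.play 437 (PX [432,437] [433,434,435,436]) (by decide +kernel) v0_751

theorem w0_753_437 : S (PX [432] [433,434,435,437]) := VW.play 436 (PX [432,436] [433,434,435,437]) (by decide +kernel) v0_752

theorem v0_753 : VW (PX [432] [433,434,435]) := VW.of base nl_ok fl_ok (.cons 436 437 .nil (.cons 437 436 .nil .nil))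
  [(438, (.cons 436 437 .nil (.cons 437 436 .nil .nil))), (439, (.cons 436 437 .nil (.cons 437 436 .nil .nil))), (440, (.cons 436 437 .nil (.cons 437 436 .nil .nil)))]
  [([436], (PX [432] [433,434,435,436])), ([437], (PX [432] [433,434,435,437]))]
  (by decide +kernel) ⟨w0_753_436, w0_753_437, trivial⟩

theorem v0_754 : VW (PX [432,435] [433,434,436,437]) := VW.of base nl_ok fl_ok .nil
  [(438, (.cons 439 440 .nil (.cons 440 439 .nil .nil))), (439, (.cons 438 440 .nil (.cons 440 438 .nil .nil))), (440, (.cons 438 439 .nil (.cons 439 438 .nil .nil)))]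
  []
  (by decide +kernel) trivial

theorem w0_755_435 : S (PX [432] [433,434,435,436]) := VW.play 437 (PX [432,437] [433,434,435,436]) (by decide +kernel) v0_751

theorem w0_755_437 : S (PX [432] [433,434,436,437]) := VW.play 435 (PX [432,435] [433,434,436,437]) (by decide +kernel) v0_754

theorem v0_755 : VW (PX [432] [433,434,436]) := VW.of base nl_ok fl_ok (.cons 435 437 .nil (.cons 437 435 .nil .nil))
  [(438, (.cons 435 437 .nil (.cons 437 435 (.cons 439 440 .nil (.cons 440 439 .nil .nil)) .nil))), (439, (.cons 435 437 .nil (.cons 437 435 (.cons 438 440 .nil (.cons 440 438 .nil .nil)) .nil))), (440, (.cons 435 437 .nil (.cons 437 435 (.cons 438 439 .nil (.cons 439 438 .nil .nil)) .nil)))]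
  [([435], (PX [432] [433,434,435,436])), ([437], (PX [432] [433,434,436,437]))]
  (by decide +kernel) ⟨w0_755_435, w0_755_437, trivial⟩

theorem v0_758 : VW (PX [431,435] [430,433,434,437]) := VW.of base nl_ok fl_ok .nil
  []
  (([297], (PX [431,435] [297,430,433,434,437])) :: ([298], (PX [431,435] [298,430,433,434,437])) :: ([332], (PX [431,435] [332,430,433,434,437])) :: ([334], (PX [431,435] [334,430,433,434,437])) :: ([361], (PX [431,435] [361,430,433,434,437])) :: ([364], (PX [431,435] [364,430,433,434,437])) :: ([365], (PX [431,435] [365,430,433,434,437])) :: ([367], (PX [431,435] [367,430,433,434,437])) :: ([397], (PX [431,435] [397,430,433,434,437])) :: ([400], (PX [431,435] [400,430,433,434,437])) :: ([424], (PX [431,435] [424,430,433,434,437])) :: ([425], (PX [431,435] [425,430,433,434,437])) :: ([427], (PX [431,435] [427,430,433,434,437])) :: ([428], (PX [431,435] [428,430,433,434,437])) :: ([488],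 (PX [431,435] [430,433,434,437,488])) :: [])
  (by decide +kernel) ⟨b0_2180, b0_2181, b0_2182, b0_2183, b0_2184, b0_2185, b0_2186, b0_2187, b0_2188, b0_2189, b0_2190, b0_2191, b0_2192, b0_2193, b0_2194, trivial⟩

theorem v0_725 : VW (PX [430,435] [431,433,434,437]) := VW.of base nl_ok fl_ok .nil
  []
  [([332], (PX [430,435] [332,431,433,434,437])), ([397], (PX [430,435] [397,431,433,434,437]))]
  (by decide +kernel) ⟨b0_2096, b0_2097, trivial⟩

theorem v0_760 : VW (PX [430,435] [432,433,434,437]) := VW.of base nl_ok fl_ok .nil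
  []
  []
  (by decide +kernel) trivial

theorem w0_762_430 : S (PX [435] [430,433,434,437]) := VW.play 431 (PX [431,435] [430,433,434,437]) (by decide +kernel) v0_758

theorem w0_762_431 : S (PX [435] [431,433,434,437]) := VW.play 430 (PX [430,435] [431,433,434,437]) (by decide +kernel) v0_725

theorem w0_762_432 : S (PX [435] [432,433,434,437]) := VW.play 430 (PX [430,435] [432,433,434,437]) (by decide +kernel) v0_760

theorem v0_762 : VW (PX [435] [433,434,437]) := VW.of base nl_ok fl_ok .nil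
  []
  [([430], (PX [435] [430,433,434,437])), ([431], (PX [435] [431,433,434,437])), ([432], (PX [435] [432,433,434,437]))]
  (by decide +kernel) ⟨w0_762_430, w0_762_431, w0_762_432, trivial⟩

theorem w0_769_430 : S (PX [] [430,433,434]) := VW.play 432 (PX [432] [430,433,434]) (by decide +kernel) v0_712

theorem w0_769_431 : S (PX [] [431,433,434]) := VW.play 432 (PX [432] [431,433,434]) (by decide +kernel) v0_730

theorem w0_769_432 : S (PX [] [432,433,434]) := VW.play 431 (PX [431] [432,433,434]) (by decide +kernel) v0_743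

theorem w0_769_435 : S (PX [] [433,434,435]) := VW.play 432 (PX [432] [433,434,435]) (by decide +kernel) v0_753

theorem w0_769_436 : S (PX [] [433,434,436]) := VW.play 432 (PX [432] [433,434,436]) (by decide +kernel) v0_755

theorem w0_769_437 : S (PX [] [433,434,437]) := VW.play 435 (PX [435] [433,434,437]) (by decide +kernel) v0_762

theorem v0_769 : VW (PX [] [433,434]) := VW.of base nl_ok fl_ok .nil
  []
  [([430], (PX [] [430,433,434])), ([431], (PX [] [431,433,434])), ([432], (PX [] [432,433,434])), ([435], (PX [] [433,434,435])), ([436], (PX [] [433,434,436])), ([437], (PX [] [433,434,437]))]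
  (by decide +kernel) ⟨w0_769_430, w0_769_431, w0_769_432, w0_769_435, w0_769_436, w0_769_437, trivial⟩

theorem v0_770 : VW (PX [433,438] [434,435,436,437]) := VW.of base nl_ok fl_ok .nil
  []
  []
  (by decide +kernel) trivial

theorem v0_771 : VW (PX [433,437] [434,435,436,438]) := VW.of base nl_ok fl_ok .nil
  []
  []
  (by decide +kernel) trivial

theorem w0_772_437 : S (PX [433] [434,435,436,437]) := VW.play 438 (PX [433,438] [434,435,436,437]) (by decide +kernel) v0_770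

theorem w0_772_438 : S (PX [433] [434,435,436,438]) := VW.play 437 (PX [433,437] [434,435,436,438]) (by decide +kernel) v0_771

theorem v0_772 : VW (PX [433] [434,435,436]) := VW.of base nl_ok fl_ok (.cons 437 438 .nil (.cons 438 437 .nil .nil))
  [(439, (.cons 437 438 .nil (.cons 438 437 .nil .nil))), (440, (.cons 437 438 .nil (.cons 438 437 .nil .nil))), (441, (.cons 437 438 .nil (.cons 438 437 .nil .nil)))]
  [([437], (PX [433] [434,435,436,437])), ([438], (PX [433] [434,435,436,438]))]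
  (by decide +kernel) ⟨w0_772_437, w0_772_438, trivial⟩

theorem v0_773 : VW (PX [433,436] [434,435,437,438]) := VW.of base nl_ok fl_ok .nil
  [(439, (.cons 440 441 .nil (.cons 441 440 .nil .nil))), (440, (.cons 439 441 .nil (.cons 441 439 .nil .nil))), (441, (.cons 439 440 .nil (.cons 440 439 .nil .nil)))]
  []
  (by decide +kernel) trivial

theorem w0_774_436 : S (PX [433] [434,435,436,437]) := VW.play 438 (PX [433,438] [434,435,436,437]) (by decide +kernel) v0_770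

theorem w0_774_438 : S (PX [433] [434,435,437,438]) := VW.play 436 (PX [433,436] [434,435,437,438]) (by decide +kernel) v0_773

theorem v0_774 : VW (PX [433] [434,435,437]) := VW.of base nl_ok fl_ok (.cons 436 438 .nil (.cons 438 436 .nil .nil))
  [(439, (.cons 436 438 .nil (.cons 438 436 (.cons 440 441 .nil (.cons 441 440 .nil .nil)) .nil))), (440, (.cons 436 438 .nil (.cons 438 436 (.cons 439 441 .nil (.cons 441 439 .nil .nil)) .nil))), (441, (.cons 436 438 .nil (.cons 438 436 (.cons 439 440 .nil (.cons 440 439 .nil .nil)) .nil)))]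
  [([436], (PX [433] [434,435,436,437])), ([438], (PX [433] [434,435,437,438]))]
  (by decide +kernel) ⟨w0_774_436, w0_774_438, trivial⟩

theorem w0_779_431 : S (PX [] [431,434,435]) := VW.play 433 (PX [433] [431,434,435]) (by decide +kernel) v0_739

theorem w0_779_432 : S (PX [] [432,434,435]) := VW.play 433 (PX [433] [432,434,435]) (by decide +kernel) v0_744

theorem w0_779_433 : S (PX [] [433,434,435]) := VW.play 432 (PX [432] [433,434,435]) (by decide +kernel) v0_753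

theorem w0_779_436 : S (PX [] [434,435,436]) := VW.play 433 (PX [433] [434,435,436]) (by decide +kernel) v0_772

theorem w0_779_437 : S (PX [] [434,435,437]) := VW.play 433 (PX [433] [434,435,437]) (by decide +kernel) v0_774

theorem v0_779 : VW (PX [] [434,435]) := VW.of base nl_ok fl_ok .nil
  [(438, (.cons 436 437 (.cons 432 433 .nil (.cons 433 432 .nil .nil)) (.cons 437 436 .nil .nil)))]
  [([431], (PX [] [431,434,435])), ([432], (PX [] [432,434,435])), ([433], (PX [] [433,434,435])), ([436], (PX [] [434,435,436])), ([437], (PX [] [434,435,437]))]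
  (by decide +kernel) ⟨w0_779_431, w0_779_432, w0_779_433, w0_779_436, w0_779_437, trivial⟩

theorem v0_794 : VW (PX [435] [434,436,437]) := VW.of base nl_ok fl_ok .nil
  [(438, (.cons 439 440 .nil (.cons 440 439 .nil .nil))), (439, (.cons 438 440 .nil (.cons 440 438 .nil .nil))), (440, (.cons 438 439 .nil (.cons 439 438 .nil .nil)))]
  []
  (by decide +kernel) trivial

theorem w0_795_432 : S (PX [] [432,434,436]) := VW.play 433 (PX [433] [432,434,436]) (by decide +kernel) v0_745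

theorem w0_795_433 : S (PX [] [433,434,436]) := VW.play 432 (PX [432] [433,434,436]) (by decide +kernel) v0_755

theorem w0_795_435 : S (PX [] [434,435,436]) := VW.play 433 (PX [433] [434,435,436]) (by decide +kernel) v0_772

theorem w0_795_437 : S (PX [] [434,436,437]) := VW.play 435 (PX [435] [434,436,437]) (by decide +kernel) v0_794

theorem v0_795 : VW (PX [] [434,436]) := VW.of base nl_ok fl_ok .nil
  [(438, (.cons 435 437 (.cons 432 433 .nil (.cons 433 432 .nil .nil)) (.cons 437 435 (.cons 439 440 .nil (.cons 440 439 .nil .nil)) .nil)))]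
  [([432], (PX [] [432,434,436])), ([433], (PX [] [433,434,436])), ([435], (PX [] [434,435,436])), ([437], (PX [] [434,436,437]))]
  (by decide +kernel) ⟨w0_795_432, w0_795_433, w0_795_435, w0_795_437, trivial⟩

theorem w0_796_433 : S (PX [] [433,434,437]) := VW.play 435 (PX [435] [433,434,437]) (by decide +kernel) v0_762

theorem w0_796_435 : S (PX [] [434,435,437]) := VW.play 433 (PX [433] [434,435,437]) (by decide +kernel) v0_774

theorem w0_796_436 : S (PX [] [434,436,437]) := VW.play 435 (PX [435] [434,436,437]) (by decide +kernel) v0_794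

theorem v0_796 : VW (PX [] [434,437]) := VW.of base nl_ok fl_ok .nil
  [(438, (.cons 435 436 .nil (.cons 436 435 (.cons 439 440 .nil (.cons 440 439 .nil .nil)) .nil)))]
  [([433], (PX [] [433,434,437])), ([435], (PX [] [434,435,437])), ([436], (PX [] [434,436,437]))]
  (by decide +kernel) ⟨w0_796_433, w0_796_435, w0_796_436, trivial⟩

theorem v0_797 : VW (PX [] [434,438]) := VW.of base nl_ok fl_ok .nil
  [(435, (.cons 436 437 (.cons 432 433 .nil (.cons 433 432 .nil .nil)) (.cons 437 436 .nil .nil))), (436, (.cons 435 437 (.cons 432 433 .nil (.cons 433 432 .nil .nil)) (.cons 437 435 (.cons 439 440 .nil (.cons 440 439 .nil .nil)) .nil))), (437, (.cons 435 436 .nil (.cons 436 435 (.cons 439 440 .nil (.cons 440 439 .nil .nil)) .nil)))]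
  []
  (by decide +kernel) trivial

theorem v0_613 : VW (PX [403,527] [341,434,465,496]) := VW.of base nl_ok fl_ok .nil
  []
  []
  (by decide +kernel) trivial

theorem v0_615 : VW (PX [403,496] [341,434,465,558]) := VW.of base nl_ok fl_ok .nil
  []
  []
  (by decide +kernel) trivial

theorem w0_617_496 : S (PX [403] [341,434,465,496]) := VW.play 527 (PX [403,527] [341,434,465,496]) (by decide +kernel) v0_613

theorem w0_617_558 : S (PX [403] [341,434,465,558]) := VW.play 496 (PX [403,496] [341,434,465,558]) (by decide +kernel) v0_615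

theorem v0_617 : VW (PX [403] [341,434,465]) := VW.of base nl_ok fl_ok .nil
  [(527, (.cons 496 558 .nil (.cons 558 496 .nil .nil)))]
  [([496], (PX [403] [341,434,465,496])), ([558], (PX [403] [341,434,465,558]))]
  (by decide +kernel) ⟨w0_617_496, w0_617_558, trivial⟩

theorem v0_656 : VW (PX [403,527] [372,434,465,496]) := VW.of base nl_ok fl_ok .nil
  []
  []
  (by decide +kernel) trivial

theorem v0_658 : VW (PX [403,496] [372,434,465,558]) := VW.of base nl_ok fl_ok .nil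
  []
  []
  (by decide +kernel) trivial

theorem w0_660_496 : S (PX [403] [372,434,465,496]) := VW.play 527 (PX [403,527] [372,434,465,496]) (by decide +kernel) v0_656

theorem w0_660_558 : S (PX [403] [372,434,465,558]) := VW.play 496 (PX [403,496] [372,434,465,558]) (by decide +kernel) v0_658

theorem v0_660 : VW (PX [403] [372,434,465]) := VW.of base nl_ok fl_ok .nil
  [(527, (.cons 496 558 .nil (.cons 558 496 .nil .nil)))]
  [([496], (PX [403] [372,434,465,496])), ([558], (PX [403] [372,434,465,558]))]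
  (by decide +kernel) ⟨w0_660_496, w0_660_558, trivial⟩

theorem v0_689 : VW (PX [372,496] [341,403,434,465]) := VW.of base nl_ok fl_ok .nil
  []
  []
  (by decide +kernel) trivial

theorem v0_662 : VW (PX [341,496] [372,403,434,465]) := VW.of base nl_ok fl_ok .nil
  []
  []
  (by decide +kernel) trivial

theorem w0_690_341 : S (PX [496] [341,403,434,465]) := VW.play 372 (PX [372,496] [341,403,434,465]) (by decide +kernel) v0_689

theorem w0_690_372 : S (PX [496] [372,403,434,465]) := VW.play 341 (PX [341,496] [372,403,434,465]) (by decide +kernel) v0_662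

theorem v0_690 : VW (PX [496] [403,434,465]) := VW.of base nl_ok fl_ok (.cons 341 372 .nil (.cons 372 341 .nil .nil))
  [(248, (.cons 341 372 .nil (.cons 372 341 .nil .nil))), (279, (.cons 341 372 .nil (.cons 372 341 .nil .nil))), (310, (.cons 341 372 .nil (.cons 372 341 .nil .nil)))]
  [([341], (PX [496] [341,403,434,465])), ([372], (PX [496] [372,403,434,465]))]
  (by decide +kernel) ⟨w0_690_341, w0_690_372, trivial⟩

theorem v0_798 : VW (PX [403,527] [372,434,465,496]) := VW.of base nl_ok fl_ok .nil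
  []
  []
  (by decide +kernel) trivial

theorem v0_799 : VW (PX [372,527] [403,434,465,496]) := VW.of base nl_ok fl_ok .nil
  []
  []
  (by decide +kernel) trivial

theorem w0_800_372 : S (PX [527] [372,434,465,496]) := VW.play 403 (PX [403,527] [372,434,465,496]) (by decide +kernel) v0_798

theorem w0_800_403 : S (PX [527] [403,434,465,496]) := VW.play 372 (PX [372,527] [403,434,465,496]) (by decide +kernel) v0_799

theorem v0_800 : VW (PX [527] [434,465,496]) := VW.of base nl_ok fl_ok (.cons 372 403 .nil (.cons 403 372 .nil .nil))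
  [(279, (.cons 372 403 .nil (.cons 403 372 .nil .nil))), (310, (.cons 372 403 .nil (.cons 403 372 .nil .nil))), (341, (.cons 372 403 .nil (.cons 403 372 .nil .nil)))]
  [([372], (PX [527] [372,434,465,496])), ([403], (PX [527] [403,434,465,496]))]
  (by decide +kernel) ⟨w0_800_372, w0_800_403, trivial⟩

theorem v0_801 : VW (PX [496] [434,465,527]) := VW.of base nl_ok fl_ok .nil
  [(341, (.cons 372 403 .nil (.cons 403 372 .nil .nil))), (372, (.cons 341 403 .nil (.cons 403 341 .nil .nil))), (403, (.cons 341 372 .nil (.cons 372 341 .nil .nil)))]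
  []
  (by decide +kernel) trivial

theorem v0_802 : VW (PX [496] [434,465,558]) := VW.of base nl_ok fl_ok .nil
  [(341, (.cons 372 403 .nil (.cons 403 372 .nil .nil))), (372, (.cons 341 403 .nil (.cons 403 341 .nil .nil))), (403, (.cons 341 372 .nil (.cons 372 341 .nil .nil)))]
  []
  (by decide +kernel) trivial

theorem w0_810_341 : S (PX [] [341,434,465]) := VW.play 403 (PX [403] [341,434,465]) (by decide +kernel) v0_617

theorem w0_810_372 : S (PX [] [372,434,465]) := VW.play 403 (PX [403] [372,434,465]) (by decide +kernel) v0_660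

theorem w0_810_403 : S (PX [] [403,434,465]) := VW.play 496 (PX [496] [403,434,465]) (by decide +kernel) v0_690

theorem w0_810_496 : S (PX [] [434,465,496]) := VW.play 527 (PX [527] [434,465,496]) (by decide +kernel) v0_800

theorem w0_810_527 : S (PX [] [434,465,527]) := VW.play 496 (PX [496] [434,465,527]) (by decide +kernel) v0_801

theorem w0_810_558 : S (PX [] [434,465,558]) := VW.play 496 (PX [496] [434,465,558]) (by decide +kernel) v0_802

theorem v0_810 : VW (PX [] [434,465]) := VW.of base nl_ok fl_ok .nil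
  []
  [([341], (PX [] [341,434,465])), ([372], (PX [] [372,434,465])), ([403], (PX [] [403,434,465])), ([496], (PX [] [434,465,496])), ([527], (PX [] [434,465,527])), ([558], (PX [] [434,465,558]))]
  (by decide +kernel) ⟨w0_810_341, w0_810_372, w0_810_403, w0_810_496, w0_810_527, w0_810_558, trivial⟩

theorem v0_650 : VW (PX [402] [370,434,466]) := VW.of base nl_ok fl_ok .nil
  [(498, (.cons 530 562 .nil (.cons 562 530 .nil .nil))), (530, (.cons 498 562 .nil (.cons 562 498 .nil .nil))), (562, (.cons 498 530 .nil (.cons 530 498 .nil .nil)))]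
  []
  (by decide +kernel) trivial

theorem v0_375 : VW (PX [370,530] [402,434,466,498]) := VW.of base nl_ok fl_ok .nil
  []
  []
  (by decide +kernel) trivial

theorem v0_376 : VW (PX [370,498] [402,434,466,530]) := VW.of base nl_ok fl_ok .nil
  []
  []
  (by decide +kernel) trivial

theorem w0_377_498 : S (PX [370] [402,434,466,498]) := VW.play 530 (PX [370,530] [402,434,466,498]) (by decide +kernel) v0_375

theorem w0_377_530 : S (PX [370] [402,434,466,530]) := VW.play 498 (PX [370,498] [402,434,466,530]) (by decide +kernel) v0_376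

theorem v0_377 : VW (PX [370] [402,434,466]) := VW.of base nl_ok fl_ok (.cons 498 530 .nil (.cons 530 498 .nil .nil))
  [(562, (.cons 498 530 .nil (.cons 530 498 .nil .nil))), (594, (.cons 498 530 .nil (.cons 530 498 .nil .nil))), (626, (.cons 498 530 .nil (.cons 530 498 .nil .nil)))]
  [([498], (PX [370] [402,434,466,498])), ([530], (PX [370] [402,434,466,530]))]
  (by decide +kernel) ⟨w0_377_498, w0_377_530, trivial⟩

theorem v0_811 : VW (PX [402,562] [434,466,498,530]) := VW.of base nl_ok fl_ok .nil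
  []
  []
  (by decide +kernel) trivial

theorem v0_812 : VW (PX [402,530] [434,466,498,562]) := VW.of base nl_ok fl_ok .nil
  []
  []
  (by decide +kernel) trivial

theorem w0_813_530 : S (PX [402] [434,466,498,530]) := VW.play 562 (PX [402,562] [434,466,498,530]) (by decide +kernel) v0_811

theorem w0_813_562 : S (PX [402] [434,466,498,562]) := VW.play 530 (PX [402,530] [434,466,498,562]) (by decide +kernel) v0_812

theorem v0_813 : VW (PX [402] [434,466,498]) := VW.of base nl_ok fl_ok (.cons 530 562 .nil (.cons 562 530 .nil .nil))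
  [(594, (.cons 530 562 .nil (.cons 562 530 .nil .nil))), (626, (.cons 530 562 .nil (.cons 562 530 .nil .nil))), (658, (.cons 530 562 .nil (.cons 562 530 .nil .nil)))]
  [([530], (PX [402] [434,466,498,530])), ([562], (PX [402] [434,466,498,562]))]
  (by decide +kernel) ⟨w0_813_530, w0_813_562, trivial⟩

theorem v0_818 : VW (PX [498] [434,466,530]) := VW.of base nl_ok fl_ok .nil
  [(338, (.cons 370 402 .nil (.cons 402 370 .nil .nil))), (370, (.cons 338 402 .nil (.cons 402 338 .nil .nil))), (402, (.cons 338 370 .nil (.cons 370 338 .nil .nil)))]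
  []
  (by decide +kernel) trivial

theorem w0_830_370 : S (PX [] [370,434,466]) := VW.play 402 (PX [402] [370,434,466]) (by decide +kernel) v0_650

theorem w0_830_402 : S (PX [] [402,434,466]) := VW.play 370 (PX [370] [402,434,466]) (by decide +kernel) v0_377

theorem w0_830_498 : S (PX [] [434,466,498]) := VW.play 402 (PX [402] [434,466,498]) (by decide +kernel) v0_813

theorem w0_830_530 : S (PX [] [434,466,530]) := VW.play 498 (PX [498] [434,466,530]) (by decide +kernel) v0_818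

theorem v0_830 : VW (PX [] [434,466]) := VW.of base nl_ok fl_ok .nil
  [(338, (.cons 370 402 .nil (.cons 402 370 (.cons 498 530 .nil (.cons 530 498 .nil .nil)) .nil))), (562, (.cons 498 530 (.cons 370 402 .nil (.cons 402 370 .nil .nil)) (.cons 530 498 .nil .nil)))]
  [([370], (PX [] [370,434,466])), ([402], (PX [] [402,434,466])), ([498], (PX [] [434,466,498])), ([530], (PX [] [434,466,530]))]
  (by decide +kernel) ⟨w0_830_370, w0_830_402, w0_830_498, w0_830_530, trivial⟩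

theorem v0_567 : VW (PX [401] [335,434,467]) := VW.of base nl_ok fl_ok .nil
  [(500, (.cons 533 566 .nil (.cons 566 533 .nil .nil))), (533, (.cons 500 566 .nil (.cons 566 500 .nil .nil))), (566, (.cons 500 533 .nil (.cons 533 500 .nil .nil)))]
  [([330], (PX [401] [330,335,434,467])), ([366], (PX [401] [335,366,434,467])), ([425], (PX [401] [335,425,434,467])), ([428], (PX [401] [335,428,434,467]))]
  (by decide +kernel) ⟨b0_1496, b0_1497, b0_1498, b0_1499, trivial⟩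

theorem v0_622 : VW (PX [401] [368,434,467]) := VW.of base nl_ok fl_ok .nil
  [(500, (.cons 533 566 .nil (.cons 566 533 .nil .nil))), (533, (.cons 500 566 .nil (.cons 566 500 .nil .nil))), (566, (.cons 500 533 .nil (.cons 533 500 .nil .nil)))]
  []
  (by decide +kernel) trivial

theorem v0_667 : VW (PX [368,533] [401,434,467,500]) := VW.of base nl_ok fl_ok .nil
  []
  [([400], (PX [368,533] [400,401,434,467,500]))]
  (by decide +kernel) ⟨b0_1632, trivial⟩

theorem v0_668 : VW (PX [368,500] [401,434,467,533]) := VW.of base nl_ok fl_ok .nil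
  []
  [([400], (PX [368,500] [400,401,434,467,533]))]
  (by decide +kernel) ⟨b0_1633, trivial⟩

theorem w0_669_500 : S (PX [368] [401,434,467,500]) := VW.play 533 (PX [368,533] [401,434,467,500]) (by decide +kernel) v0_667

theorem w0_669_533 : S (PX [368] [401,434,467,533]) := VW.play 500 (PX [368,500] [401,434,467,533]) (by decide +kernel) v0_668

theorem v0_669 : VW (PX [368] [401,434,467]) := VW.of base nl_ok fl_ok (.cons 500 533 .nil (.cons 533 500 .nil .nil))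
  [(566, (.cons 500 533 .nil (.cons 533 500 .nil .nil))), (599, (.cons 500 533 .nil (.cons 533 500 .nil .nil))), (632, (.cons 500 533 .nil (.cons 533 500 .nil .nil)))]
  [([400], (PX [368] [400,401,434,467])), ([500], (PX [368] [401,434,467,500])), ([533], (PX [368] [401,434,467,533]))]
  (by decide +kernel) ⟨b0_1631, w0_669_500, w0_669_533, trivial⟩

theorem v0_831 : VW (PX [401,566] [434,467,500,533]) := VW.of base nl_ok fl_ok .nil
  []
  []
  (by decide +kernel) trivial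

theorem v0_832 : VW (PX [401,533] [434,467,500,566]) := VW.of base nl_ok fl_ok .nil
  []
  []
  (by decide +kernel) trivial

theorem w0_833_533 : S (PX [401] [434,467,500,533]) := VW.play 566 (PX [401,566] [434,467,500,533]) (by decide +kernel) v0_831

theorem w0_833_566 : S (PX [401] [434,467,500,566]) := VW.play 533 (PX [401,533] [434,467,500,566]) (by decide +kernel) v0_832

theorem v0_833 : VW (PX [401] [434,467,500]) := VW.of base nl_ok fl_ok (.cons 533 566 .nil (.cons 566 533 .nil .nil))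
  [(599, (.cons 533 566 .nil (.cons 566 533 .nil .nil))), (632, (.cons 533 566 .nil (.cons 566 533 .nil .nil))), (665, (.cons 533 566 .nil (.cons 566 533 .nil .nil)))]
  [([533], (PX [401] [434,467,500,533])), ([566], (PX [401] [434,467,500,566]))]
  (by decide +kernel) ⟨w0_833_533, w0_833_566, trivial⟩

theorem v0_834 : VW (PX [401,500] [434,467,533,566]) := VW.of base nl_ok fl_ok .nil
  [(599, (.cons 632 665 .nil (.cons 665 632 .nil .nil))), (632, (.cons 599 665 .nil (.cons 665 599 .nil .nil))), (665, (.cons 599 632 .nil (.cons 632 599 .nil .nil)))]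
  []
  (by decide +kernel) trivial

theorem w0_835_500 : S (PX [401] [434,467,500,533]) := VW.play 566 (PX [401,566] [434,467,500,533]) (by decide +kernel) v0_831

theorem w0_835_566 : S (PX [401] [434,467,533,566]) := VW.play 500 (PX [401,500] [434,467,533,566]) (by decide +kernel) v0_834

theorem v0_835 : VW (PX [401] [434,467,533]) := VW.of base nl_ok fl_ok (.cons 500 566 .nil (.cons 566 500 .nil .nil))
  [(599, (.cons 500 566 .nil (.cons 566 500 (.cons 632 665 .nil (.cons 665 632 .nil .nil)) .nil))), (632, (.cons 500 566 .nil (.cons 566 500 (.cons 599 665 .nil (.cons 665 599 .nil .nil)) .nil))), (665, (.cons 500 566 .nil (.cons 566 500 (.cons 599 632 .nil (.cons 632 599 .nil .nil)) .nil)))]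
  [([500], (PX [401] [434,467,500,533])), ([566], (PX [401] [434,467,533,566]))]
  (by decide +kernel) ⟨w0_835_500, w0_835_566, trivial⟩

theorem v0_840 : VW (PX [368,500] [335,434,467,566]) := VW.of base nl_ok fl_ok .nil
  []
  [([330], (PX [368,500] [330,335,434,467,566])), ([366], (PX [368,500] [335,366,434,467,566])), ([425], (PX [368,500] [335,425,434,467,566])), ([428], (PX [368,500] [335,428,434,467,566]))]
  (by decide +kernel) ⟨b0_2248, b0_2249, b0_2250, b0_2251, trivial⟩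

theorem v0_842 : VW (PX [335,500] [368,434,467,566]) := VW.of base nl_ok fl_ok .nil
  []
  []
  (by decide +kernel) trivial

theorem v0_845 : VW (PX [368,500] [401,434,467,566]) := VW.of base nl_ok fl_ok .nil
  []
  [([400], (PX [368,500] [400,401,434,467,566]))]
  (by decide +kernel) ⟨b0_2257, trivial⟩

theorem w0_846_335 : S (PX [500] [335,434,467,566]) := VW.play 368 (PX [368,500] [335,434,467,566]) (by decide +kernel) v0_840

theorem w0_846_368 : S (PX [500] [368,434,467,566]) := VW.play 335 (PX [335,500] [368,434,467,566]) (by decide +kernel) v0_842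

theorem w0_846_401 : S (PX [500] [401,434,467,566]) := VW.play 368 (PX [368,500] [401,434,467,566]) (by decide +kernel) v0_845

theorem v0_846 : VW (PX [500] [434,467,566]) := VW.of base nl_ok fl_ok .nil
  []
  [([335], (PX [500] [335,434,467,566])), ([368], (PX [500] [368,434,467,566])), ([401], (PX [500] [401,434,467,566]))]
  (by decide +kernel) ⟨w0_846_335, w0_846_368, w0_846_401, trivial⟩

theorem w0_854_335 : S (PX [] [335,434,467]) := VW.play 401 (PX [401] [335,434,467]) (by decide +kernel) v0_567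

theorem w0_854_368 : S (PX [] [368,434,467]) := VW.play 401 (PX [401] [368,434,467]) (by decide +kernel) v0_622

theorem w0_854_401 : S (PX [] [401,434,467]) := VW.play 368 (PX [368] [401,434,467]) (by decide +kernel) v0_669

theorem w0_854_500 : S (PX [] [434,467,500]) := VW.play 401 (PX [401] [434,467,500]) (by decide +kernel) v0_833

theorem w0_854_533 : S (PX [] [434,467,533]) := VW.play 401 (PX [401] [434,467,533]) (by decide +kernel) v0_835

theorem w0_854_566 : S (PX [] [434,467,566]) := VW.play 500 (PX [500] [434,467,566]) (by decide +kernel) v0_846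

theorem v0_854 : VW (PX [] [434,467]) := VW.of base nl_ok fl_ok .nil
  []
  [([335], (PX [] [335,434,467])), ([368], (PX [] [368,434,467])), ([401], (PX [] [401,434,467])), ([500], (PX [] [434,467,500])), ([533], (PX [] [434,467,533])), ([566], (PX [] [434,467,566]))]
  (by decide +kernel) ⟨w0_854_335, w0_854_368, w0_854_401, w0_854_500, w0_854_533, w0_854_566, trivial⟩

theorem v0_665 : VW (PX [465] [372,434,496]) := VW.of base nl_ok fl_ok .nil
  [(310, (.cons 341 403 (.cons 248 279 .nil (.cons 279 248 .nil .nil)) (.cons 403 341 .nil .nil))), (341, (.cons 310 403 (.cons 248 279 .nil (.cons 279 248 .nil .nil)) (.cons 403 310 .nil .nil))), (403, (.cons 310 341 .nil (.cons 341 310 .nil .nil)))]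
  []
  (by decide +kernel) trivial

theorem v0_691 : VW (PX [465] [403,434,496]) := VW.of base nl_ok fl_ok .nil
  [(310, (.cons 341 372 .nil (.cons 372 341 .nil .nil))), (341, (.cons 310 372 .nil (.cons 372 310 .nil .nil))), (372, (.cons 310 341 .nil (.cons 341 310 .nil .nil)))]
  []
  (by decide +kernel) trivial

theorem v0_855 : VW (PX [465] [434,496,527]) := VW.of base nl_ok fl_ok .nil
  [(558, (.cons 589 620 .nil (.cons 620 589 .nil .nil))), (589, (.cons 558 620 .nil (.cons 620 558 .nil .nil))), (620, (.cons 558 589 .nil (.cons 589 558 .nil .nil)))]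
  []
  (by decide +kernel) trivial

theorem w0_856_372 : S (PX [] [372,434,496]) := VW.play 465 (PX [465] [372,434,496]) (by decide +kernel) v0_665

theorem w0_856_403 : S (PX [] [403,434,496]) := VW.play 465 (PX [465] [403,434,496]) (by decide +kernel) v0_691

theorem w0_856_465 : S (PX [] [434,465,496]) := VW.play 527 (PX [527] [434,465,496]) (by decide +kernel) v0_800

theorem w0_856_527 : S (PX [] [434,496,527]) := VW.play 465 (PX [465] [434,496,527]) (by decide +kernel) v0_855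

theorem v0_856 : VW (PX [] [434,496]) := VW.of base nl_ok fl_ok .nil
  [(558, (.cons 465 527 (.cons 372 403 .nil (.cons 403 372 .nil .nil)) (.cons 527 465 (.cons 589 620 .nil (.cons 620 589 .nil .nil)) .nil)))]
  [([372], (PX [] [372,434,496])), ([403], (PX [] [403,434,496])), ([465], (PX [] [434,465,496])), ([527], (PX [] [434,496,527]))]
  (by decide +kernel) ⟨w0_856_372, w0_856_403, w0_856_465, w0_856_527, trivial⟩

theorem v0_382 : VW (PX [466] [402,434,498]) := VW.of base nl_ok fl_ok .nil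
  [(306, (.cons 338 370 .nil (.cons 370 338 .nil .nil))), (338, (.cons 306 370 .nil (.cons 370 306 .nil .nil))), (370, (.cons 306 338 .nil (.cons 338 306 .nil .nil)))]
  []
  (by decide +kernel) trivial

theorem v0_871 : VW (PX [466] [434,498,530]) := VW.of base nl_ok fl_ok .nil
  [(562, (.cons 594 626 .nil (.cons 626 594 .nil .nil))), (594, (.cons 562 626 .nil (.cons 626 562 .nil .nil))), (626, (.cons 562 594 .nil (.cons 594 562 .nil .nil)))]
  []
  (by decide +kernel) trivial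

theorem w0_874_402 : S (PX [] [402,434,498]) := VW.play 466 (PX [466] [402,434,498]) (by decide +kernel) v0_382

theorem w0_874_466 : S (PX [] [434,466,498]) := VW.play 402 (PX [402] [434,466,498]) (by decide +kernel) v0_813

theorem w0_874_530 : S (PX [] [434,498,530]) := VW.play 466 (PX [466] [434,498,530]) (by decide +kernel) v0_871

theorem v0_874 : VW (PX [] [434,498]) := VW.of base nl_ok fl_ok .nil
  [(370, (.cons 402 466 (.cons 306 338 .nil (.cons 338 306 .nil .nil)) (.cons 466 402 (.cons 530 562 .nil (.cons 562 530 .nil .nil)) .nil))), (562, (.cons 466 530 (.cons 370 402 .nil (.cons 402 370 .nil .nil)) (.cons 530 466 (.cons 594 626 .nil (.cons 626 594 .nil .nil)) .nil)))]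
  [([402], (PX [] [402,434,498])), ([466], (PX [] [434,466,498])), ([530], (PX [] [434,498,530]))]
  (by decide +kernel) ⟨w0_874_402, w0_874_466, w0_874_530, trivial⟩

theorem v0_623 : VW (PX [401] [368,434,500]) := VW.of base nl_ok fl_ok .nil
  [(467, (.cons 533 566 .nil (.cons 566 533 .nil .nil))), (533, (.cons 467 566 .nil (.cons 566 467 (.cons 599 632 .nil (.cons 632 599 .nil .nil)) .nil))), (566, (.cons 467 533 .nil (.cons 533 467 (.cons 599 632 .nil (.cons 632 599 .nil .nil)) .nil)))]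
  []
  (by decide +kernel) trivial

theorem v0_672 : VW (PX [368,467] [302,401,434,500]) := VW.of base nl_ok fl_ok .nil
  []
  [([298], (PX [368,467] [298,302,401,434,500])), ([300], (PX [368,467] [300,302,401,434,500])), ([397], (PX [368,467] [302,397,401,434,500])), ([398], (PX [368,467] [302,398,401,434,500])), ([399], (PX [368,467] [302,399,401,434,500])), ([400], (PX [368,467] [302,400,401,434,500]))]
  (by decide +kernel) ⟨b0_1636, b0_1637, b0_1638, b0_1639, b0_1640, b0_1641, trivial⟩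

theorem v0_546 : VW (PX [302,467] [335,401,434,500]) := VW.of base nl_ok fl_ok .nil
  []
  [([330], (PX [302,467] [330,335,401,434,500])), ([366], (PX [302,467] [335,366,401,434,500])), ([400], (PX [302,467] [335,400,401,434,500])), ([425], (PX [302,467] [335,401,425,434,500])), ([428], (PX [302,467] [335,401,428,434,500]))]
  (by decide +kernel) ⟨b0_1331, b0_1332, b0_1333, b0_1334, b0_1335, trivial⟩

theorem v0_633 : VW (PX [335,467] [368,401,434,500]) := VW.of base nl_ok fl_ok .nil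
  []
  [([400], (PX [335,467] [368,400,401,434,500]))]
  (by decide +kernel) ⟨b0_1502, trivial⟩

theorem w0_674_302 : S (PX [467] [302,401,434,500]) := VW.play 368 (PX [368,467] [302,401,434,500]) (by decide +kernel) v0_672

theorem w0_674_335 : S (PX [467] [335,401,434,500]) := VW.play 302 (PX [302,467] [335,401,434,500]) (by decide +kernel) v0_546

theorem w0_674_368 : S (PX [467] [368,401,434,500]) := VW.play 335 (PX [335,467] [368,401,434,500]) (by decide +kernel) v0_633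

theorem v0_674 : VW (PX [467] [401,434,500]) := VW.of base nl_ok fl_ok .nil
  []
  [([302], (PX [467] [302,401,434,500])), ([335], (PX [467] [335,401,434,500])), ([368], (PX [467] [368,401,434,500])), ([400], (PX [467] [400,401,434,500]))]
  (by decide +kernel) ⟨w0_674_302, w0_674_335, w0_674_368, b0_1647, trivial⟩

theorem v0_889 : VW (PX [467] [434,500,533]) := VW.of base nl_ok fl_ok .nil
  [(566, (.cons 599 632 .nil (.cons 632 599 .nil .nil))), (599, (.cons 566 632 .nil (.cons 632 566 .nil .nil))), (632, (.cons 566 599 .nil (.cons 599 566 .nil .nil)))]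
  []
  (by decide +kernel) trivial

theorem v0_890 : VW (PX [467] [434,500,566]) := VW.of base nl_ok fl_ok .nil
  [(533, (.cons 599 632 .nil (.cons 632 599 .nil .nil))), (599, (.cons 533 632 .nil (.cons 632 533 (.cons 665 698 .nil (.cons 698 665 .nil .nil)) .nil))), (632, (.cons 533 599 .nil (.cons 599 533 (.cons 665 698 .nil (.cons 698 665 .nil .nil)) .nil)))]
  []
  (by decide +kernel) trivial

theorem w0_904_368 : S (PX [] [368,434,500]) := VW.play 401 (PX [401] [368,434,500]) (by decide +kernel) v0_623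

theorem w0_904_401 : S (PX [] [401,434,500]) := VW.play 467 (PX [467] [401,434,500]) (by decide +kernel) v0_674

theorem w0_904_467 : S (PX [] [434,467,500]) := VW.play 401 (PX [401] [434,467,500]) (by decide +kernel) v0_833

theorem w0_904_533 : S (PX [] [434,500,533]) := VW.play 467 (PX [467] [434,500,533]) (by decide +kernel) v0_889

theorem w0_904_566 : S (PX [] [434,500,566]) := VW.play 467 (PX [467] [434,500,566]) (by decide +kernel) v0_890

theorem v0_904 : VW (PX [] [434,500]) := VW.of base nl_ok fl_ok .nil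
  []
  [([368], (PX [] [368,434,500])), ([401], (PX [] [401,434,500])), ([467], (PX [] [434,467,500])), ([533], (PX [] [434,500,533])), ([566], (PX [] [434,500,566]))]
  (by decide +kernel) ⟨w0_904_368, w0_904_401, w0_904_467, w0_904_533, w0_904_566, trivial⟩

theorem w0_905_465 : S (PX [] [434,465,527]) := VW.play 496 (PX [496] [434,465,527]) (by decide +kernel) v0_801

theorem w0_905_496 : S (PX [] [434,496,527]) := VW.play 465 (PX [465] [434,496,527]) (by decide +kernel) v0_855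

theorem v0_905 : VW (PX [] [434,527]) := VW.of base nl_ok fl_ok .nil
  [(403, (.cons 465 496 (.cons 341 372 .nil (.cons 372 341 .nil .nil)) (.cons 496 465 .nil .nil))), (558, (.cons 465 496 .nil (.cons 496 465 (.cons 589 620 .nil (.cons 620 589 .nil .nil)) .nil)))]
  [([465], (PX [] [434,465,527])), ([496], (PX [] [434,496,527]))]
  (by decide +kernel) ⟨w0_905_465, w0_905_496, trivial⟩

theorem w0_906_466 : S (PX [] [434,466,530]) := VW.play 498 (PX [498] [434,466,530]) (by decide +kernel) v0_818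

theorem w0_906_498 : S (PX [] [434,498,530]) := VW.play 466 (PX [466] [434,498,530]) (by decide +kernel) v0_871

theorem v0_906 : VW (PX [] [434,530]) := VW.of base nl_ok fl_ok .nil
  [(402, (.cons 466 498 (.cons 338 370 .nil (.cons 370 338 .nil .nil)) (.cons 498 466 .nil .nil))), (562, (.cons 466 498 .nil (.cons 498 466 (.cons 594 626 .nil (.cons 626 594 .nil .nil)) .nil)))]
  [([466], (PX [] [434,466,530])), ([498], (PX [] [434,498,530]))]
  (by decide +kernel) ⟨w0_906_466, w0_906_498, trivial⟩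

theorem v0_676 : VW (PX [368,467] [302,401,434,533]) := VW.of base nl_ok fl_ok .nil
  []
  [([298], (PX [368,467] [298,302,401,434,533])), ([300], (PX [368,467] [300,302,401,434,533])), ([397], (PX [368,467] [302,397,401,434,533])), ([398], (PX [368,467] [302,398,401,434,533])), ([399], (PX [368,467] [302,399,401,434,533])), ([400], (PX [368,467] [302,400,401,434,533]))]
  (by decide +kernel) ⟨b0_1654, b0_1655, b0_1656, b0_1657, b0_1658, b0_1659, trivial⟩

theorem v0_549 : VW (PX [302,467] [335,401,434,533]) := VW.of base nl_ok fl_ok .nil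
  []
  [([330], (PX [302,467] [330,335,401,434,533])), ([366], (PX [302,467] [335,366,401,434,533])), ([400], (PX [302,467] [335,400,401,434,533])), ([425], (PX [302,467] [335,401,425,434,533])), ([428], (PX [302,467] [335,401,428,434,533]))]
  (by decide +kernel) ⟨b0_1365, b0_1366, b0_1367, b0_1368, b0_1369, trivial⟩

theorem v0_679 : VW (PX [335,467] [368,401,434,533]) := VW.of base nl_ok fl_ok .nil
  []
  [([400], (PX [335,467] [368,400,401,434,533]))]
  (by decide +kernel) ⟨b0_1666, trivial⟩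

theorem w0_680_302 : S (PX [467] [302,401,434,533]) := VW.play 368 (PX [368,467] [302,401,434,533]) (by decide +kernel) v0_676

theorem w0_680_335 : S (PX [467] [335,401,434,533]) := VW.play 302 (PX [302,467] [335,401,434,533]) (by decide +kernel) v0_549

theorem w0_680_368 : S (PX [467] [368,401,434,533]) := VW.play 335 (PX [335,467] [368,401,434,533]) (by decide +kernel) v0_679

theorem v0_680 : VW (PX [467] [401,434,533]) := VW.of base nl_ok fl_ok .nil
  []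
  [([302], (PX [467] [302,401,434,533])), ([335], (PX [467] [335,401,434,533])), ([368], (PX [467] [368,401,434,533])), ([400], (PX [467] [400,401,434,533]))]
  (by decide +kernel) ⟨w0_680_302, w0_680_335, w0_680_368, b0_1667, trivial⟩

theorem w0_907_401 : S (PX [] [401,434,533]) := VW.play 467 (PX [467] [401,434,533]) (by decide +kernel) v0_680

theorem w0_907_467 : S (PX [] [434,467,533]) := VW.play 401 (PX [401] [434,467,533]) (by decide +kernel) v0_835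

theorem w0_907_500 : S (PX [] [434,500,533]) := VW.play 467 (PX [467] [434,500,533]) (by decide +kernel) v0_889

theorem v0_907 : VW (PX [] [434,533]) := VW.of base nl_ok fl_ok .nil
  [(566, (.cons 467 500 .nil (.cons 500 467 (.cons 599 632 .nil (.cons 632 599 .nil .nil)) .nil)))]
  [([401], (PX [] [401,434,533])), ([467], (PX [] [434,467,533])), ([500], (PX [] [434,500,533]))]
  (by decide +kernel) ⟨w0_907_401, w0_907_467, w0_907_500, trivial⟩

theorem w0_908_465 : S (PX [] [434,465,558]) := VW.play 496 (PX [496] [434,465,558]) (by decide +kernel) v0_802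

theorem v0_908 : VW (PX [] [434,558]) := VW.of base nl_ok fl_ok .nil
  [(496, (.cons 465 527 (.cons 372 403 .nil (.cons 403 372 .nil .nil)) (.cons 527 465 (.cons 589 620 .nil (.cons 620 589 .nil .nil)) .nil))), (527, (.cons 465 496 .nil (.cons 496 465 (.cons 589 620 .nil (.cons 620 589 .nil .nil)) .nil)))]
  [([465], (PX [] [434,465,558]))]
  (by decide +kernel) ⟨w0_908_465, trivial⟩

theorem v0_909 : VW (PX [] [434,562]) := VW.of base nl_ok fl_ok .nil
  [(466, (.cons 498 530 (.cons 370 402 .nil (.cons 402 370 .nil .nil)) (.cons 530 498 .nil .nil))), (498, (.cons 466 530 (.cons 370 402 .nil (.cons 402 370 .nil .nil)) (.cons 530 466 (.cons 594 626 .nil (.cons 626 594 .nil .nil)) .nil))), (530, (.cons 466 498 .nil (.cons 498 466 (.cons 594 626 .nil (.cons 626 594 .nil .nil)) .nil)))]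
  []
  (by decide +kernel) trivial

theorem w0_910_467 : S (PX [] [434,467,566]) := VW.play 500 (PX [500] [434,467,566]) (by decide +kernel) v0_846

theorem w0_910_500 : S (PX [] [434,500,566]) := VW.play 467 (PX [467] [434,500,566]) (by decide +kernel) v0_890

theorem v0_910 : VW (PX [] [434,566]) := VW.of base nl_ok fl_ok .nil
  [(533, (.cons 467 500 .nil (.cons 500 467 (.cons 599 632 .nil (.cons 632 599 .nil .nil)) .nil)))]
  [([467], (PX [] [434,467,566])), ([500], (PX [] [434,500,566]))]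
  (by decide +kernel) ⟨w0_910_467, w0_910_500, trivial⟩

theorem v6_19 : VW (PX [] [237,434]) := VW.of base nl_ok fl_ok .nil
  []
  [([330], (PX [] [237,330,434]))]
  (by decide +kernel) ⟨b6_488, trivial⟩

theorem v6_20 : VW (PX [] [264,434]) := VW.of base nl_ok fl_ok .nil
  []
  [([332], (PX [] [264,332,434])), ([395], (PX [] [264,395,434])), ([397], (PX [] [264,397,434])), ([398], (PX [] [264,398,434]))]
  (by decide +kernel) ⟨b6_368, b6_401, b6_489, b6_490, trivial⟩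

theorem v6_15 : VW (PX [] [298,434]) := VW.of base nl_ok fl_ok .nil
  []
  (([294], (PX [] [294,298,434])) :: ([295], (PX [] [295,298,434])) :: ([296], (PX [] [296,298,434])) :: ([297], (PX [] [297,298,434])) :: ([299], (PX [] [298,299,434])) :: ([300], (PX [] [298,300,434])) :: ([301], (PX [] [298,301,434])) :: ([302], (PX [] [298,302,434])) :: ([330], (PX [] [298,330,434])) :: ([331], (PX [] [298,331,434])) :: ([332], (PX [] [298,332,434])) :: ([361], (PX [] [298,361,434])) :: ([362], (PX [] [298,362,434])) :: ([364], (PX [] [298,364,434])) :: ([365], (PX [] [298,365,434])) :: ([393], (PX [] [298,393,434])) :: ([395], (PX [] [298,395,434])) :: ([397], (PX [] [298,397,434])) :: ([425], (PX [] [298,425,434])) :: ([427], (PX [] [298,427,434])) :: ([429], (PX [] [298,429,434])) :: ([430], (PX [] [298,430,434])) :: ([457], (PX [] [298,434,457])) :: ([458], (PX [] [298,434,458])) :: ([460], (PX [] [298,434,460]))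 :: ([461], (PX [] [298,434,461])) :: [])
  (by decide +kernel) ⟨b6_417, b6_418, b6_419, b6_420, b6_421, b6_422, b6_423, b6_424, b6_425, b6_426, b6_373, b6_427, b6_428, b6_429, b6_430, b6_431, b6_407, b6_432, b6_433, b6_434, b6_435, b6_436, b6_437, b6_438, b6_439, b6_440, trivial⟩

theorem v6_23 : VW (PX [] [299,434]) := VW.of base nl_ok fl_ok .nil
  []
  (([266], (PX [] [266,299,434])) :: ([268], (PX [] [268,299,434])) :: ([295], (PX [] [295,299,434])) :: ([296], (PX [] [296,299,434])) :: ([297], (PX [] [297,299,434])) :: ([298], (PX [] [298,299,434])) :: ([300], (PX [] [299,300,434])) :: ([301], (PX [] [299,301,434])) :: ([302], (PX [] [299,302,434])) :: ([303], (PX [] [299,303,434])) :: ([329], (PX [] [299,329,434])) :: ([330], (PX [] [299,330,434])) :: ([332], (PX [] [299,332,434])) :: ([333], (PX [] [299,333,434])) :: ([361], (PX [] [299,361,434])) :: ([365], (PX [] [299,365,434])) :: ([392], (PX [] [299,392,434]))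 :: ([393], (PX [] [299,393,434])) :: ([395], (PX [] [299,395,434])) :: ([397], (PX [] [299,397,434])) :: ([398], (PX [] [299,398,434])) :: ([423], (PX [] [299,423,434])) :: ([425], (PX [] [299,425,434])) :: ([431], (PX [] [299,431,434])) :: ([457], (PX [] [299,434,457])) :: [])
  (by decide +kernel) ⟨b6_498, b6_499, b6_500, b6_501, b6_502, b6_421, b6_503, b6_504, b6_505, b6_506, b6_507, b6_508, b6_374, b6_509, b6_510, b6_511, b6_446, b6_512, b6_408, b6_513, b6_514, b6_515, b6_516, b6_517, b6_518, trivial⟩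

theorem v6_13 : VW (PX [] [303,434]) := VW.of base nl_ok fl_ok .nil
  []
  []
  (by decide +kernel) trivial

theorem r430 : S (Nat.lor X2 (bits [434, 430])) := VW.play 394 (PX [] [430,434]) (by decide +kernel) v0_713

theorem r431 : S (Nat.lor X2 (bits [434, 431])) := VW.play 394 (PX [] [431,434]) (by decide +kernel) v0_740

theorem r432 : S (Nat.lor X2 (bits [434, 432])) := VW.play 394 (PX [] [432,434]) (by decide +kernel) v0_750

theorem r433 : S (Nat.lor X2 (bits [434, 433])) := VW.play 394 (PX [] [433,434]) (by decide +kernel) v0_769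

theorem r435 : S (Nat.lor X2 (bits [434, 435])) := VW.play 394 (PX [] [434,435]) (by decide +kernel) v0_779

theorem r436 : S (Nat.lor X2 (bits [434, 436])) := VW.play 394 (PX [] [434,436]) (by decide +kernel) v0_795

theorem r437 : S (Nat.lor X2 (bits [434, 437])) := VW.play 394 (PX [] [434,437]) (by decide +kernel) v0_796

theorem r438 : S (Nat.lor X2 (bits [434, 438])) := VW.play 394 (PX [] [434,438]) (by decide +kernel) v0_797

theorem r465 : S (Nat.lor X2 (bits [434, 465])) := VW.play 394 (PX [] [434,465]) (by decide +kernel) v0_810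

theorem r466 : S (Nat.lor X2 (bits [434, 466])) := VW.play 394 (PX [] [434,466]) (by decide +kernel) v0_830

theorem r467 : S (Nat.lor X2 (bits [434, 467])) := VW.play 394 (PX [] [434,467]) (by decide +kernel) v0_854

theorem r496 : S (Nat.lor X2 (bits [434, 496])) := VW.play 394 (PX [] [434,496]) (by decide +kernel) v0_856

theorem r498 : S (Nat.lor X2 (bits [434, 498])) := VW.play 394 (PX [] [434,498]) (by decide +kernel) v0_874

theorem r500 : S (Nat.lor X2 (bits [434, 500])) := VW.play 394 (PX [] [434,500]) (by decide +kernel) v0_904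

theorem r527 : S (Nat.lor X2 (bits [434, 527])) := VW.play 394 (PX [] [434,527]) (by decide +kernel) v0_905

theorem r530 : S (Nat.lor X2 (bits [434, 530])) := VW.play 394 (PX [] [434,530]) (by decide +kernel) v0_906

theorem r533 : S (Nat.lor X2 (bits [434, 533])) := VW.play 394 (PX [] [434,533]) (by decide +kernel) v0_907

theorem r558 : S (Nat.lor X2 (bits [434, 558])) := VW.play 394 (PX [] [434,558]) (by decide +kernel) v0_908

theorem r562 : S (Nat.lor X2 (bits [434, 562])) := VW.play 394 (PX [] [434,562]) (by decide +kernel) v0_909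

theorem r566 : S (Nat.lor X2 (bits [434, 566])) := VW.play 394 (PX [] [434,566]) (by decide +kernel) v0_910

theorem r237 : S (Nat.lor X2 (bits [434, 237])) := VW.play 394 (PX [] [237,434]) (by decide +kernel) v6_19

theorem r264 : S (Nat.lor X2 (bits [434, 264])) := VW.play 394 (PX [] [264,434]) (by decide +kernel) v6_20

theorem r298 : S (Nat.lor X2 (bits [434, 298])) := VW.play 394 (PX [] [298,434]) (by decide +kernel) v6_15

theorem r299 : S (Nat.lor X2 (bits [434, 299])) := VW.play 394 (PX [] [299,434]) (by decide +kernel) v6_23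

theorem r303 : S (Nat.lor X2 (bits [434, 303])) := VW.play 394 (PX [] [303,434]) (by decide +kernel) v6_13

theorem all : RT X2 434 (430 :: 431 :: 432 :: 433 :: 435 :: 436 :: 437 :: 438 :: 465 :: 466 :: 467 :: 496 :: 498 :: 500 :: 527 :: 530 :: 533 :: 558 :: 562 :: 566 :: 237 :: 264 :: 298 :: 299 :: 303 :: []) := ⟨r430, r431, r432, r433, r435, r436, r437, r438, r465, r466, r467, r496, r498, r500, r527, r530, r533, r558, r562, r566, r237, r264, r298, r299, r303, trivial⟩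

end Pool.Agent.H94.Five.Mid.K7_2_1
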