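import Pool.Agent.H94.Five.Mid.Fam

set_option autoImplicit false
set_option linter.all false
set_option maxRecDepth 100000

/-! Second has the cell (7, 3): some of the other stones. -/

namespace Pool.Agent.H94.Five.Mid.K7_3_2

open Pool.Agent.H79.Five Pool.Agent.H10.Five Pool.Agent.H94.Five.M

abbrev nl : List Ent := (n1 :: n2 :: n4 :: n5 :: n6 :: n7 :: n8 :: n9 :: n11 :: n12 :: n13 :: n14 :: n15 :: n17 :: n18 :: n19 :: n20 :: n22 :: n23 :: n24 :: [])

theorem nl_ok : AC XB M0 nl := .cons n1k <| .cons n2k <| .cons n4k <| .cons n5k <| .cons n6k <| .cons n7k <| .cons n8k <| .cons n9k <| .cons n11k <| .cons n12k <| .cons n13k <| .cons n14k <| .cons n15k <| .cons n17k <| .cons n18k <| .cons n19k <| .cons n20k <| .cons n22k <| .cons n23k <| .cons n24k <| .nil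

abbrev fl : List Ent := [x175, x210, x260, x269, x317, x329, x368, x371, x375, x386, x390]

theorem fl_ok : AC XB M0 fl := .cons x175k <| .cons x210k <| .cons x260k <| .cons x269k <| .cons x317k <| .cons x329k <| .cons x368k <| .cons x371k <| .cons x375k <| .cons x386k <| .cons x390k <| .nil

theorem v0_218 : VW (PX [434] [370,402,466]) := VW.of base nl_ok fl_ok .nil
  [(274, (.cons 306 338 .nil (.cons 338 306 .nil .nil))), (306, (.cons 274 338 .nil (.cons 338 274 .nil .nil))), (338, (.cons 274 306 .nil (.cons 306 274 .nil .nil)))]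
  []
  (by decide +kernel) trivial

theorem v0_650 : VW (PX [402] [370,434,466]) := VW.of base nl_ok fl_ok .nil
  [(498, (.cons 530 562 .nil (.cons 562 530 .nil .nil))), (530, (.cons 498 562 .nil (.cons 562 498 .nil .nil))), (562, (.cons 498 530 .nil (.cons 530 498 .nil .nil)))]
  []
  (by decide +kernel) trivial

theorem w0_946_402 : S (PX [] [370,402,466]) := VW.play 434 (PX [434] [370,402,466]) (by decide +kernel) v0_218

theorem w0_946_434 : S (PX [] [370,434,466]) := VW.play 402 (PX [402] [370,434,466]) (by decide +kernel) v0_650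

theorem v0_946 : VW (PX [] [370,466]) := VW.of base nl_ok fl_ok .nil
  [(338, (.cons 402 434 (.cons 274 306 .nil (.cons 306 274 .nil .nil)) (.cons 434 402 .nil .nil))), (498, (.cons 402 434 .nil (.cons 434 402 (.cons 530 562 .nil (.cons 562 530 .nil .nil)) .nil)))]
  [([402], (PX [] [370,402,466])), ([434], (PX [] [370,434,466]))]
  (by decide +kernel) ⟨w0_946_402, w0_946_434, trivial⟩

theorem v0_947 : VW (PX [435] [373,404,466]) := VW.of base nl_ok fl_ok .nil
  [(280, (.cons 311 342 .nil (.cons 342 311 .nil .nil))), (311, (.cons 280 342 .nil (.cons 342 280 .nil .nil))), (342, (.cons 280 311 .nil (.cons 311 280 .nil .nil)))]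
  []
  (by decide +kernel) trivial

theorem v0_963 : VW (PX [404] [373,435,466]) := VW.of base nl_ok fl_ok .nil
  [(497, (.cons 528 559 .nil (.cons 559 528 .nil .nil))), (528, (.cons 497 559 .nil (.cons 559 497 .nil .nil))), (559, (.cons 497 528 .nil (.cons 528 497 .nil .nil)))]
  []
  (by decide +kernel) trivial

theorem w0_966_404 : S (PX [] [373,404,466]) := VW.play 435 (PX [435] [373,404,466]) (by decide +kernel) v0_947

theorem w0_966_435 : S (PX [] [373,435,466]) := VW.play 404 (PX [404] [373,435,466]) (by decide +kernel) v0_963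

theorem v0_966 : VW (PX [] [373,466]) := VW.of base nl_ok fl_ok .nil
  [(342, (.cons 404 435 (.cons 280 311 .nil (.cons 311 280 .nil .nil)) (.cons 435 404 .nil .nil))), (497, (.cons 404 435 .nil (.cons 435 404 (.cons 528 559 .nil (.cons 559 528 .nil .nil)) .nil)))]
  [([404], (PX [] [373,404,466])), ([435], (PX [] [373,435,466]))]
  (by decide +kernel) ⟨w0_966_404, w0_966_435, trivial⟩

theorem r370 : S (Nat.lor X2 (bits [466, 370])) := VW.play 394 (PX [] [370,466]) (by decide +kernel) v0_946

theorem r373 : S (Nat.lor X2 (bits [466, 373])) := VW.play 394 (PX [] [373,466]) (by decide +kernel) v0_966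

theorem all : RT X2 466 [370, 373] := ⟨r370, r373, trivial⟩

end Pool.Agent.H94.Five.Mid.K7_3_2
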