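import Pool.Agent.H94.Five.Mid.Fam

set_option autoImplicit false
set_option linter.all false
set_option maxRecDepth 100000

/-! Second has the cell (7, 3): some of the other stones. -/

namespace Pool.Agent.H94.Five.Mid.K7_3_4

open Pool.Agent.H79.Five Pool.Agent.H10.Five Pool.Agent.H94.Five.M

abbrev nl : List Ent := (n1 :: n2 :: n4 :: n5 :: n6 :: n7 :: n8 :: n9 :: n11 :: n12 :: n13 :: n14 :: n15 :: n17 :: n18 :: n19 :: n20 :: n22 :: n23 :: n24 :: [])

theorem nl_ok : AC XB M0 nl := .cons n1k <| .cons n2k <| .cons n4k <| .cons n5k <| .cons n6k <| .cons n7k <| .cons n8k <| .cons n9k <| .cons n11k <| .cons n12k <| .cons n13k <| .cons n14k <| .cons n15k <| .cons n17k <| .cons n18k <| .cons n19k <| .cons n20k <| .cons n22k <| .cons n23k <| .cons n24k <| .nil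

abbrev fl : List Ent := (x1 :: x11 :: x12 :: x28 :: x32 :: x34 :: x44 :: x45 :: x54 :: x60 :: x64 :: x65 :: x68 :: x72 :: x73 :: x75 :: x93 :: x101 :: x102 :: x104 :: x105 :: x130 :: x135 :: x136 :: x141 :: x148 :: x158 :: x159 :: x165 :: x168 :: x171 :: x172 :: x175 :: x176 :: x186 :: x188 :: x192 :: x200 :: x201 :: x202 :: x204 :: x206 :: x207 :: x210 :: x211 :: x215 :: x216 :: x219 :: x221 :: x223 :: x231 :: x234 :: x236 :: x239 :: x244 :: x248 :: x251 :: x255 :: x256 :: x259 :: x260 :: x269 :: x270 :: x273 :: x274 :: x275 :: x277 :: x284 :: x290 :: x291 :: x292 :: x293 :: x304 :: x309 :: x310 :: x317 :: x318 :: x324 :: x326 :: x329 :: x331 :: x334 :: x337 :: x338 :: x340 :: x342 :: x343 :: x345 :: x351 :: x356 :: x357 :: x359 :: x365 :: x367 :: x368 :: x371 :: x375 :: x377 :: x381 :: x383 :: x384 :: x385 :: x386 :: x390 :: x392 :: x393 :: x399 :: x400 :: x415 :: x420 :: x421 :: x427 :: x436 :: x437 :: x439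 :: x444 :: x452 :: x464 :: x475 :: x486 :: x488 :: x492 :: x493 :: x496 :: x501 :: x503 :: x511 :: x515 :: x518 :: x522 :: x527 :: x544 :: [])

theorem fl_ok : AC XB M0 fl := .cons x1k <| .cons x11k <| .cons x12k <| .cons x28k <| .cons x32k <| .cons x34k <| .cons x44k <| .cons x45k <| .cons x54k <| .cons x60k <| .cons x64k <| .cons x65k <| .cons x68k <| .cons x72k <| .cons x73k <| .cons x75k <| .cons x93k <| .cons x101k <| .cons x102k <| .cons x104k <| .cons x105k <| .cons x130k <| .cons x135k <| .cons x136k <| .cons x141k <| .cons x148k <| .cons x158k <| .cons x159k <| .cons x165k <| .cons x168k <| .cons x171k <| .cons x172k <| .cons x175k <| .cons x176k <| .cons x186k <| .cons x188k <| .cons x192k <| .cons x200k <| .cons x201k <| .cons x202k <| .cons x204k <| .cons x206k <| .cons x207k <| .cons x210k <| .cons x211k <| .cons x215k <| .cons x216k <| .cons x219k <| .cons x221k <| .cons x223k <| .cons x231k <|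 .cons x234k <| .cons x236k <| .cons x239k <| .cons x244k <| .cons x248k <| .cons x251k <| .cons x255k <| .cons x256k <| .cons x259k <| .cons x260k <| .cons x269k <| .cons x270k <| .cons x273k <| .cons x274k <| .cons x275k <| .cons x277k <| .cons x284k <| .cons x290k <| .cons x291k <| .cons x292k <| .cons x293k <| .cons x304k <| .cons x309k <| .cons x310k <| .cons x317k <| .cons x318k <| .cons x324k <| .cons x326k <| .cons x329k <| .cons x331k <| .cons x334k <| .cons x337k <| .cons x338k <| .cons x340k <| .cons x342k <| .cons x343k <| .cons x345k <| .cons x351k <| .cons x356k <| .cons x357k <| .cons x359k <| .cons x365k <| .cons x367k <| .cons x368k <| .cons x371k <| .cons x375k <| .cons x377k <| .cons x381k <| .cons x383k <| .cons x384k <| .cons x385k <| .cons x386k <| .cons x390k <| .cons x392k <| .cons x393k <| .cons x399k <| .cons x400k <| .cons x415k <| .cons x420k <| .cons x421k <| .cons x427k <| .cons x436k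 <| .cons x437k <| .cons x439k <| .cons x444k <| .cons x452k <| .cons x464k <| .cons x475k <| .cons x486k <| .cons x488k <| .cons x492k <| .cons x493k <| .cons x496k <| .cons x501k <| .cons x503k <| .cons x511k <| .cons x515k <| .cons x518k <| .cons x522k <| .cons x527k <| .cons x544k <| .nil

theorem b0_2348 : S (PX [400] [235,334,433,466]) := S.of (.q 395 (.a 1 [] (.d 393 392 392 393 397)
 (.a 1 [392] (.d 397 393 393 394 398)
 (.a 0 [393,397] (.q 427 (.a 1 [] (.d 331 1323 299 1355 459)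
 (.a 1 [299] (.d 459 1355 331 1387 491)
 (.a 0 [331,459] (.q 429 (.a 1 [] (.d 330 2345 297 2378 462)
 (.a 1 [297] (.d 462 2378 330 2411 495)
 (.a 0 [330,462] (.q 332 (.a 1 [] (.d 301 3342 270 3373 425)
 (.a 1 [270] (.d 425 3373 301 3404 456)
 (.a 1 [301] (.r 425 3404 456 (.r 428 425 426 (.d 364 1324 300 1356 460)))
 (.a 0 [425] (.q 428 (.a 1 [] (.d 430 426 426 427 431)
 (.a 1 [426] (.d 364 1324 300 1356 460)
 .e)))
 .e)))))
 .e))))
 .e))))
 .e)))) (by decide +kernel)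

theorem b0_2349 : S (PX [400] [332,334,433,466]) := S.of (.q 330 (.a 1 [] (.d 297 2312 264 2345 429)
 (.a 1 [264] (.d 429 2345 297 2378 462)
 (.a 0 [297,429] (.q 362 (.a 1 [] (.d 298 1290 266 1322 426)
 (.a 1 [266] (.d 426 1322 298 1354 458)
 (.a 0 [298,426] (.q 361 (.a 1 [] (.d 360 359 359 360 364)
 (.a 1 [359] (.d 364 360 360 361 365)
 (.a 0 [360,364] (.q 299 (.a 1 [] (.d 268 3309 237 3340 392)
 (.a 1 [237] (.d 392 3340 268 3371 423)
 (.a 1 [268] (.r 392 3371 423 (.r 395 392 393 (.d 331 1291 267 1323 427)))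
 (.a 0 [392] (.q 395 (.a 1 [] (.d 397 393 393 394 398)
 (.a 1 [393] (.d 331 1291 267 1323 427)
 .e)))
 .e)))))
 .e))))
 .e))))
 .e)))) (by decide +kernel)

theorem b0_2350 : S (PX [400] [334,367,433,466]) := S.of (.q 395 (.a 1 [] (.d 393 392 392 393 397)
 (.a 1 [392] (.d 397 393 393 394 398)
 (.a 0 [393,397] (.q 427 (.a 1 [] (.d 331 1323 299 1355 459)
 (.a 1 [299] (.d 459 1355 331 1387 491)
 (.a 0 [331,459] (.q 429 (.a 1 [] (.d 330 2345 297 2378 462)
 (.a 1 [297] (.d 462 2378 330 2411 495)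
 (.a 0 [330,462] (.q 332 (.a 1 [] (.d 301 3342 270 3373 425)
 (.a 1 [270] (.d 425 3373 301 3404 456)
 (.a 1 [301] (.r 425 3404 456 (.r 428 425 426 (.d 364 1324 300 1356 460)))
 (.a 0 [425] (.q 428 (.a 1 [] (.d 430 426 426 427 431)
 (.a 1 [426] (.d 364 1324 300 1356 460)
 .e)))
 .e)))))
 .e))))
 .e))))
 .e)))) (by decide +kernel)

theorem b0_2351 : S (PX [400] [334,433,457,466]) := S.of (.q 395 (.a 1 [] (.d 393 392 392 393 397)
 (.a 1 [392] (.d 397 393 393 394 398)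
 (.a 0 [393,397] (.q 427 (.a 1 [] (.d 331 1323 299 1355 459)
 (.a 1 [299] (.d 459 1355 331 1387 491)
 (.a 0 [331,459] (.q 330 (.a 1 [] (.d 297 2312 264 2345 429)
 (.a 1 [264] (.d 429 2345 297 2378 462)
 (.a 0 [297,429] (.q 361 (.a 1 [] (.d 328 2343 295 2376 460)
 (.a 1 [295] (.d 460 2376 328 2409 493)
 (.a 0 [328,460] (.q 458 (.a 1 [] (.d 489 3437 365 3468 520)
 (.a 1 [365] (.r 362 1354 426 (.d 360 359 359 360 364))
 .e)))
 .e))))
 .e))))
 .e))))
 .e)))) (by decide +kernel)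

theorem b0_2420 : S (PX [400] [268,367,433,466]) := S.of (.q 395 (.a 1 [] (.d 393 392 392 393 397)
 (.a 1 [392] (.d 397 393 393 394 398)
 (.a 0 [393,397] (.q 427 (.a 1 [] (.d 331 1323 299 1355 459)
 (.a 1 [299] (.d 459 1355 331 1387 491)
 (.a 0 [331,459] (.q 429 (.a 1 [] (.d 330 2345 297 2378 462)
 (.a 1 [297] (.d 462 2378 330 2411 495)
 (.a 0 [330,462] (.q 332 (.a 1 [] (.d 301 3342 270 3373 425)
 (.a 1 [270] (.d 425 3373 301 3404 456)
 (.a 1 [301] (.r 425 3404 456 (.r 428 425 426 (.d 364 1324 300 1356 460)))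
 (.a 0 [425] (.q 428 (.a 1 [] (.d 430 426 426 427 431)
 (.a 1 [426] (.d 364 1324 300 1356 460)
 .e)))
 .e)))))
 .e))))
 .e))))
 .e)))) (by decide +kernel)

theorem b0_2515 : S (PX [433] [268,367,466,499]) := S.of (.q 395 (.a 1 [] (.d 393 392 392 393 397)
 (.a 1 [392] (.d 397 393 393 394 398)
 (.a 0 [393,397] (.q 427 (.a 1 [] (.d 331 1323 299 1355 459)
 (.a 1 [299] (.d 459 1355 331 1387 491)
 (.a 0 [331,459] (.q 429 (.a 1 [] (.d 330 2345 297 2378 462)
 (.a 1 [297] (.d 462 2378 330 2411 495)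
 (.a 0 [330,462] (.q 332 (.a 1 [] (.d 301 3342 270 3373 425)
 (.a 1 [270] (.d 425 3373 301 3404 456)
 (.a 1 [301] (.r 425 3404 456 (.r 428 425 426 (.d 364 1324 300 1356 460)))
 (.a 0 [425] (.q 428 (.a 1 [] (.d 430 426 426 427 431)
 (.a 1 [426] (.d 364 1324 300 1356 460)
 .e)))
 .e)))))
 .e))))
 .e))))
 .e)))) (by decide +kernel)

theorem b0_2517 : S (PX [367] [400,401,433,466]) := S.of (.q 332 (.a 1 [] (.d 301 3342 270 3373 425)
 (.a 0 [301] (.q 364 (.a 1 [] (.d 300 1292 268 1324 428)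
 (.a 1 [300] (.r 365 363 366 (.r 460 1356 428 (.r 361 361 362 (.d 427 2376 328 2409 493))))
 (.a 1 [428] (.r 365 363 366 (.r 361 361 362 (.r 268 1292 300 (.r 425 3404 456 (.q 427 (.a 1 [] (.d 328 2343 295 2376 460)
 (.a 1 [499] (.q 532 (.a 1 [] (.d 328 2343 295 2376 460)
 (.a 1 [460] (.d 334 3375 303 3406 458)
 .e)))
 (.a 1 [532] (.q 499 (.a 1 [] (.d 328 2343 295 2376 460)
 (.a 1 [460] (.d 458 3406 334 3437 489)
 .e)))
 (.a 1 [460] (.d 334 3375 303 3406 458)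
 .e)))))))))
 (.a 1 [499] (.q 532 (.a 1 [] (.d 428 1324 300 1356 460)
 (.a 1 [300] (.q 330 (.a 1 [] (.d 297 2312 264 2345 429)
 (.a 1 [264] (.d 429 2345 297 2378 462)
 (.a 1 [297] (.r 365 363 366 (.r 362 361 361 (.d 426 1322 298 1354 458)))
 .e))))
 .e)))
 (.a 1 [532] (.q 499 (.a 1 [] (.d 428 1324 300 1356 460)
 (.a 1 [300] (.q 330 (.a 1 [] (.d 297 2312 264 2345 429)
 (.a 1 [264] (.d 429 2345 297 2378 462)
 (.a 1 [297] (.r 365 363 366 (.r 362 361 361 (.d 426 1322 298 1354 458)))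
 .e))))
 .e)))
 .e))))))
 (.a 0 [425] (.r 301 3342 270 (.q 364 (.a 1 [] (.d 300 1292 268 1324 428)
 (.a 1 [499] (.q 532 (.a 1 [] (.d 428 1324 300 1356 460)
 (.a 1 [300] (.q 330 (.a 1 [] (.d 297 2312 264 2345 429)
 (.a 1 [264] (.d 429 2345 297 2378 462)
 (.a 1 [297] (.r 365 363 366 (.r 362 361 361 (.d 426 1322 298 1354 458)))
 .e))))
 .e)))
 (.a 1 [532] (.q 499 (.a 1 [] (.d 428 1324 300 1356 460)
 (.a 1 [300] (.q 330 (.a 1 [] (.d 297 2312 264 2345 429)
 (.a 1 [264] (.d 429 2345 297 2378 462)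
 (.a 1 [297] (.r 365 363 366 (.r 362 361 361 (.d 426 1322 298 1354 458)))
 .e))))
 .e)))
 (.a 1 [300] (.r 365 363 366 (.r 361 361 362 (.r 460 1356 428 (.d 427 2376 328 2409 493))))
 (.a 1 [428] (.r 365 363 366 (.r 268 1292 300 (.r 334 2283 235 (.d 427 3375 303 3406 458))))
 .e)))))))
 (.a 1 [499] (.q 532 (.a 1 [] (.d 301 3342 270 3373 425)
 (.a 1 [301] (.q 364 (.a 1 [] (.d 300 1292 268 1324 428)
 (.a 1 [268] (.d 428 1324 300 1356 460)
 (.a 0 [300,428] (.q 330 (.a 1 [] (.d 297 2312 264 2345 429)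
 (.a 1 [264] (.d 429 2345 297 2378 462)
 (.a 1 [297] (.r 365 363 366 (.r 362 361 361 (.d 426 1322 298 1354 458)))
 .e))))
 .e))))
 (.a 1 [425] (.q 364 (.a 1 [] (.d 300 1292 268 1324 428)
 (.a 1 [268] (.d 428 1324 300 1356 460)
 (.a 0 [300,428] (.q 429 (.a 1 [] (.d 330 2345 297 2378 462)
 (.a 1 [297] (.d 462 2378 330 2411 495)
 (.a 1 [330] (.r 365 363 366 (.r 301 3342 270 (.r 397 1325 333 (.d 395 393 393 394 398))))
 .e))))
 .e))))
 .e))))
 (.a 1 [532] (.q 499 (.a 1 [] (.d 301 3342 270 3373 425)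
 (.a 1 [301] (.q 364 (.a 1 [] (.d 300 1292 268 1324 428)
 (.a 1 [268] (.d 428 1324 300 1356 460)
 (.a 0 [300,428] (.q 330 (.a 1 [] (.d 297 2312 264 2345 429)
 (.a 1 [264] (.d 429 2345 297 2378 462)
 (.a 1 [297] (.r 365 363 366 (.r 362 361 361 (.d 426 1322 298 1354 458)))
 .e))))
 .e))))
 (.a 1 [425] (.q 364 (.a 1 [] (.d 300 1292 268 1324 428)
 (.a 1 [268] (.d 428 1324 300 1356 460)
 (.a 0 [300,428] (.q 429 (.a 1 [] (.d 330 2345 297 2378 462)
 (.a 1 [297] (.d 462 2378 330 2411 495)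
 (.a 1 [330] (.r 365 363 366 (.r 301 3342 270 (.r 397 1325 333 (.d 395 393 393 394 398))))
 .e))))
 .e))))
 .e))))
 (.a 1 [270] (.d 425 3373 301 3404 456)
 .e))))))) (by decide +kernel)

theorem b0_2518 : S (PX [367,532] [400,401,433,466,499]) := S.of (.q 429 (.a 1 [] (.d 330 2345 297 2378 462)
 (.a 1 [297] (.d 462 2378 330 2411 495)
 (.a 0 [330,462] (.q 398 (.a 1 [] (.d 336 3377 305 3408 460)
 (.a 1 [305] (.d 460 3408 336 3439 491)
 (.a 0 [336,460] (.q 332 (.a 1 [] (.d 301 3342 270 3373 425)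
 (.a 1 [270] (.d 425 3373 301 3404 456)
 (.a 0 [301,425] (.q 365 (.a 1 [] (.d 299 2314 266 2347 431)
 (.a 1 [266] (.d 431 2347 299 2380 464)
 (.a 1 [299] (.r 364 363 366 (.d 300 1292 268 1324 428))
 .e))))
 .e))))
 .e))))
 .e)))) (by decide +kernel)

theorem b0_2519 : S (PX [367,499] [400,401,433,466,532]) := S.of (.q 429 (.a 1 [] (.d 330 2345 297 2378 462)
 (.a 1 [297] (.d 462 2378 330 2411 495)
 (.a 0 [330,462] (.q 398 (.a 1 [] (.d 336 3377 305 3408 460)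
 (.a 1 [305] (.d 460 3408 336 3439 491)
 (.a 0 [336,460] (.q 332 (.a 1 [] (.d 301 3342 270 3373 425)
 (.a 1 [270] (.d 425 3373 301 3404 456)
 (.a 0 [301,425] (.q 365 (.a 1 [] (.d 299 2314 266 2347 431)
 (.a 1 [266] (.d 431 2347 299 2380 464)
 (.a 1 [299] (.r 364 363 366 (.d 300 1292 268 1324 428))
 .e))))
 .e))))
 .e))))
 .e)))) (by decide +kernel)

theorem b0_2641 : S (PX [367,532] [400,401,466,499,598]) := S.of (.q 330 (.a 1 [] (.d 297 2312 264 2345 429)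
 (.a 1 [264] (.d 429 2345 297 2378 462)
 (.a 0 [297,429] (.q 332 (.a 1 [] (.d 301 3342 270 3373 425)
 (.a 1 [270] (.d 425 3373 301 3404 456)
 (.a 0 [301,425] (.q 364 (.a 1 [] (.d 300 1292 268 1324 428)
 (.a 1 [268] (.d 428 1324 300 1356 460)
 (.a 1 [300] (.r 365 363 366 (.r 362 361 361 (.d 426 1322 298 1354 458)))
 .e))))
 .e))))
 .e)))) (by decide +kernel)

theorem b0_2700 : S (PX [433] [400,401,466,499]) := S.of (.q 330 (.a 1 [] (.d 297 2312 264 2345 429)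
 (.a 1 [264] (.d 429 2345 297 2378 462)
 (.a 0 [297,429] (.q 362 (.a 1 [] (.d 298 1290 266 1322 426)
 (.a 1 [266] (.d 426 1322 298 1354 458)
 (.a 0 [298,426] (.q 361 (.a 1 [] (.d 360 359 359 360 364)
 (.a 1 [359] (.d 364 360 360 361 365)
 (.a 0 [360,364] (.q 427 (.a 1 [] (.d 328 2343 295 2376 460)
 (.a 1 [295] (.d 460 2376 328 2409 493)
 (.a 0 [328,460] (.q 395 (.a 1 [] (.d 393 392 392 393 397)
 (.a 1 [392] (.d 397 393 393 394 398)
 (.a 1 [393] (.d 331 1323 299 1355 459)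
 .e))))
 .e))))
 .e))))
 .e))))
 .e)))) (by decide +kernel)

theorem b0_2701 : S (PX [433] [400,401,466,532]) := S.of (.q 330 (.a 1 [] (.d 297 2312 264 2345 429)
 (.a 1 [264] (.d 429 2345 297 2378 462)
 (.a 0 [297,429] (.q 362 (.a 1 [] (.d 298 1290 266 1322 426)
 (.a 1 [266] (.d 426 1322 298 1354 458)
 (.a 0 [298,426] (.q 361 (.a 1 [] (.d 360 359 359 360 364)
 (.a 1 [359] (.d 364 360 360 361 365)
 (.a 0 [360,364] (.q 427 (.a 1 [] (.d 328 2343 295 2376 460)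
 (.a 1 [295] (.d 460 2376 328 2409 493)
 (.a 0 [328,460] (.q 395 (.a 1 [] (.d 393 392 392 393 397)
 (.a 1 [392] (.d 397 393 393 394 398)
 (.a 1 [393] (.d 331 1323 299 1355 459)
 .e))))
 .e))))
 .e))))
 .e))))
 .e)))) (by decide +kernel)

theorem b0_2711 : S (PX [367,499] [235,334,433,466,565]) := S.of (.q 395 (.a 1 [] (.d 393 392 392 393 397)
 (.a 1 [392] (.d 397 393 393 394 398)
 (.a 0 [393,397] (.q 427 (.a 1 [] (.d 331 1323 299 1355 459)
 (.a 1 [299] (.d 459 1355 331 1387 491)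
 (.a 0 [331,459] (.q 429 (.a 1 [] (.d 330 2345 297 2378 462)
 (.a 1 [297] (.d 462 2378 330 2411 495)
 (.a 0 [330,462] (.q 332 (.a 1 [] (.d 301 3342 270 3373 425)
 (.a 1 [270] (.d 425 3373 301 3404 456)
 (.a 1 [301] (.r 425 3404 456 (.r 428 425 426 (.d 364 1324 300 1356 460)))
 (.a 0 [425] (.q 460 (.a 1 [] (.d 361 2376 328 2409 493)
 (.a 1 [328] (.d 493 2409 361 2442 526)
 (.a 1 [361] (.d 398 3408 336 3439 491)
 .e))))
 .e)))))
 .e))))
 .e))))
 .e)))) (by decide +kernel)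

theorem b0_2712 : S (PX [367,499] [332,334,433,466,565]) := S.of (.q 330 (.a 1 [] (.d 297 2312 264 2345 429)
 (.a 1 [264] (.d 429 2345 297 2378 462)
 (.a 0 [297,429] (.q 362 (.a 1 [] (.d 298 1290 266 1322 426)
 (.a 1 [266] (.d 426 1322 298 1354 458)
 (.a 0 [298,426] (.q 361 (.a 1 [] (.d 360 359 359 360 364)
 (.a 1 [359] (.d 364 360 360 361 365)
 (.a 0 [360,364] (.q 299 (.a 1 [] (.d 268 3309 237 3340 392)
 (.a 1 [237] (.d 392 3340 268 3371 423)
 (.a 1 [268] (.r 392 3371 423 (.r 395 392 393 (.d 331 1291 267 1323 427)))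
 (.a 0 [392] (.q 395 (.a 1 [] (.d 397 393 393 394 398)
 (.a 1 [393] (.d 331 1291 267 1323 427)
 .e)))
 .e)))))
 .e))))
 .e))))
 .e)))) (by decide +kernel)

theorem b0_2713 : S (PX [367,499] [334,433,457,466,565]) := S.of (.q 395 (.a 1 [] (.d 393 392 392 393 397)
 (.a 1 [392] (.d 397 393 393 394 398)
 (.a 0 [393,397] (.q 427 (.a 1 [] (.d 331 1323 299 1355 459)
 (.a 1 [299] (.d 459 1355 331 1387 491)
 (.a 0 [331,459] (.q 330 (.a 1 [] (.d 297 2312 264 2345 429)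
 (.a 1 [264] (.d 429 2345 297 2378 462)
 (.a 0 [297,429] (.q 361 (.a 1 [] (.d 328 2343 295 2376 460)
 (.a 1 [295] (.d 460 2376 328 2409 493)
 (.a 0 [328,460] (.q 458 (.a 1 [] (.d 489 3437 365 3468 520)
 (.a 1 [365] (.r 362 1354 426 (.d 360 359 359 360 364))
 .e)))
 .e))))
 .e))))
 .e))))
 .e)))) (by decide +kernel)

theorem b0_2720 : S (PX [367,499] [400,401,433,466,565]) := S.of (.q 429 (.a 1 [] (.d 330 2345 297 2378 462)
 (.a 1 [297] (.d 462 2378 330 2411 495)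
 (.a 0 [330,462] (.q 398 (.a 1 [] (.d 336 3377 305 3408 460)
 (.a 1 [305] (.d 460 3408 336 3439 491)
 (.a 0 [336,460] (.q 332 (.a 1 [] (.d 301 3342 270 3373 425)
 (.a 1 [270] (.d 425 3373 301 3404 456)
 (.a 0 [301,425] (.q 365 (.a 1 [] (.d 299 2314 266 2347 431)
 (.a 1 [266] (.d 431 2347 299 2380 464)
 (.a 1 [299] (.r 364 363 366 (.d 300 1292 268 1324 428))
 .e))))
 .e))))
 .e))))
 .e)))) (by decide +kernel)

theorem b0_2730 : S (PX [] [332,462,466]) := S.of (.q 395 (.a 1 [] (.d 393 392 392 393 397)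
 (.a 1 [392] (.d 397 393 393 394 398)
 (.a 0 [393,397] (.q 427 (.a 1 [] (.d 331 1323 299 1355 459)
 (.a 1 [299] (.d 459 1355 331 1387 491)
 (.a 0 [331] (.q 361 (.a 1 [] (.d 328 2343 295 2376 460)
 (.a 1 [295] (.d 460 2376 328 2409 493)
 (.a 0 [328,460] (.q 330 (.a 1 [] (.d 297 2312 264 2345 429)
 (.a 0 [264,297,429] (.q 362 (.a 1 [] (.d 360 359 359 360 364)
 (.a 1 [359] (.d 364 360 360 361 365)
 (.a 1 [360] (.d 298 1290 266 1322 426)
 .e))))
 .e)))
 .e))))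
 (.a 0 [459] (.q 458 (.a 1 [] (.d 365 3406 334 3437 489)
 (.a 1 [334] (.d 489 3437 365 3468 520)
 (.a 0 [365,489] (.q 426 (.a 1 [] (.d 362 1354 330 1386 490)
 (.a 1 [330] (.d 490 1386 362 1418 522)
 (.a 1 [490] (.r 330 1354 362 (.d 297 2312 264 2345 429))
 (.a 0 [362] (.q 457 (.a 1 [] (.d 364 3405 333 3436 488)
 (.a 1 [333] (.d 488 3436 364 3467 519)
 (.a 0 [364,488] (.q 424 (.a 1 [] (.d 425 423 423 424 428)
 (.a 1 [423] (.r 490 1418 522 (.d 523 2439 391 2472 556))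
 .e)))
 .e))))
 .e)))))
 .e))))
 .e)))))
 .e)))) (by decide +kernel)

theorem b0_2731 : S (PX [] [425,462,466]) := S.of (.q 395 (.a 1 [] (.d 393 392 392 393 397)
 (.a 1 [392] (.d 397 393 393 394 398)
 (.a 0 [393,397] (.q 427 (.a 1 [] (.d 331 1323 299 1355 459)
 (.a 1 [299] (.d 459 1355 331 1387 491)
 (.a 0 [331] (.q 361 (.a 1 [] (.d 328 2343 295 2376 460)
 (.a 1 [295] (.d 460 2376 328 2409 493)
 (.a 0 [328,460] (.q 458 (.a 1 [] (.d 365 3406 334 3437 489)
 (.a 1 [334] (.d 489 3437 365 3468 520)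
 (.a 1 [489] (.r 365 3406 334 (.r 362 361 364 (.d 426 1354 330 1386 490)))
 (.a 0 [365] (.q 362 (.a 1 [] (.d 360 359 359 360 364)
 (.a 1 [359] (.d 426 1354 330 1386 490)
 .e)))
 .e)))))
 .e))))
 (.a 0 [459] (.q 330 (.a 1 [] (.d 297 2312 264 2345 429)
 (.a 0 [264,297,429] (.q 361 (.a 1 [] (.d 328 2343 295 2376 460)
 (.a 1 [295] (.d 460 2376 328 2409 493)
 (.a 1 [328] (.r 299 1323 331 (.d 392 3340 268 3371 423))
 .e))))
 .e)))
 .e)))))
 .e)))) (by decide +kernel)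

theorem b0_2732 : S (PX [464] [332,462,463,466]) := S.of (.q 395 (.a 1 [] (.d 393 392 392 393 397)
 (.a 1 [392] (.d 397 393 393 394 398)
 (.a 0 [393,397] (.q 330 (.a 1 [] (.d 297 2312 264 2345 429)
 (.a 0 [264,297,429] (.q 362 (.a 1 [] (.d 298 1290 266 1322 426)
 (.a 1 [266] (.d 426 1322 298 1354 458)
 (.a 0 [298] (.q 364 (.a 1 [] (.d 361 360 360 361 365)
 (.a 1 [360] (.d 365 361 361 362 366)
 (.a 1 [361] (.r 426 1354 458 (.d 457 3405 333 3436 488))
 .e))))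
 (.a 0 [426] (.q 331 (.a 1 [] (.d 299 1291 267 1323 427)
 (.a 1 [267] (.d 427 1323 299 1355 459)
 (.a 0 [299] (.q 365 (.a 1 [] (.d 364 361 361 362 366)
 (.a 1 [361] (.r 427 1355 459 (.d 458 3406 334 3437 489))
 .e)))
 (.a 0 [427] (.r 298 1290 266 (.q 428 (.a 1 [] (.d 329 2344 296 2377 461)
 (.a 1 [296] (.d 461 2377 329 2410 494)
 (.a 1 [461] (.r 329 2344 296 (.r 267 1291 299 (.d 360 3308 236 3339 391)))
 (.a 0 [329] (.q 361 (.a 1 [] (.d 360 359 359 360 364)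
 (.a 1 [359] (.d 364 360 360 361 365)
 (.a 1 [360] (.r 299 1291 267 (.d 392 3340 268 3371 423))
 .e))))
 .e))))))
 .e)))))
 .e)))))
 .e)))
 .e)))) (by decide +kernel)

theorem b0_2733 : S (PX [464] [364,462,463,466]) := S.of (.q 425 (.a 1 [] (.d 332 3373 301 3404 456)
 (.a 1 [301] (.d 456 3404 332 3435 487)
 (.a 0 [332,456] (.q 330 (.a 1 [] (.d 297 2312 264 2345 429)
 (.a 0 [264,297,429] (.q 426 (.a 1 [] (.d 362 1322 298 1354 458)
 (.a 0 [298,362,458] (.q 427 (.a 1 [] (.d 424 423 423 424 428)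
 (.a 0 [423,424,428] (.q 395 (.a 1 [] (.d 393 392 392 393 397)
 (.a 1 [392] (.d 397 393 393 394 398)
 (.a 1 [393] (.d 331 1323 299 1355 459)
 .e))))
 .e)))
 .e)))
 .e)))
 .e)))) (by decide +kernel)

theorem b0_2734 : S (PX [464] [365,462,463,466]) := S.of (.q 395 (.a 1 [] (.d 393 392 392 393 397)
 (.a 1 [392] (.d 397 393 393 394 398)
 (.a 0 [393,397] (.q 331 (.a 1 [] (.d 299 1291 267 1323 427)
 (.a 1 [267] (.d 427 1323 299 1355 459)
 (.a 0 [299,427] (.q 332 (.a 1 [] (.d 301 3342 270 3373 425)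
 (.a 1 [270] (.d 425 3373 301 3404 456)
 (.a 0 [301,425] (.q 333 (.a 1 [] (.d 330 329 329 330 334)
 (.a 1 [329] (.d 334 330 330 331 335)
 (.a 1 [334] (.r 330 329 329 (.d 297 2312 264 2345 429))
 (.a 0 [330] (.q 364 (.a 1 [] (.d 300 1292 268 1324 428)
 (.a 1 [268] (.d 428 1324 300 1356 460)
 (.a 1 [300] (.d 302 3343 271 3374 426)
 .e))))
 .e)))))
 .e))))
 .e))))
 .e)))) (by decide +kernel)

theorem b0_2735 : S (PX [464] [397,462,463,466]) := S.of (.q 425 (.a 1 [] (.d 332 3373 301 3404 456)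
 (.a 1 [301] (.d 456 3404 332 3435 487)
 (.a 0 [332,456] (.q 330 (.a 1 [] (.d 297 2312 264 2345 429)
 (.a 0 [264,297,429] (.q 426 (.a 1 [] (.d 362 1322 298 1354 458)
 (.a 0 [298,362,458] (.q 423 (.a 1 [] (.d 424 422 422 423 427)
 (.a 0 [422,424,427] (.q 392 (.a 1 [] (.d 361 3371 299 3402 454)
 (.a 1 [299] (.r 393 392 395 (.r 361 3402 454 (.d 457 1353 329 1385 489)))
 (.a 1 [454] (.r 393 392 395 (.r 361 3371 299 (.d 457 1353 329 1385 489)))
 (.a 0 [361] (.r 393 392 395 (.q 327 (.a 1 [] (.d 360 2342 294 2375 459)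
 (.a 1 [294] (.r 391 390 390 (.d 359 1319 295 1351 455))
 .e))))
 .e)))))
 .e)))
 .e)))
 .e)))
 .e)))) (by decide +kernel)

theorem b0_2736 : S (PX [464] [425,462,463,466]) := S.of (.q 395 (.a 1 [] (.d 393 392 392 393 397)
 (.a 1 [392] (.d 397 393 393 394 398)
 (.a 0 [393] (.r 398 394 397 (.q 365 (.a 1 [] (.d 431 2380 332 2413 497)
 (.a 1 [497] (.r 332 2380 431 (.r 299 2314 266 (.d 331 1291 267 1323 427)))
 (.a 0 [332,431] (.q 427 (.a 1 [] (.d 331 1323 299 1355 459)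
 (.a 1 [299] (.d 459 1355 331 1387 491)
 (.a 1 [331] (.d 334 3375 303 3406 458)
 .e))))
 .e)))))
 (.a 0 [397] (.q 330 (.a 1 [] (.d 297 2312 264 2345 429)
 (.a 0 [264,297,429] (.q 299 (.a 1 [] (.d 331 1291 267 1323 427)
 (.a 1 [267] (.r 427 1323 331 (.r 392 392 393 (.d 361 3340 268 3371 423)))
 (.a 1 [331] (.r 392 392 393 (.d 361 3340 268 3371 423))
 .e))))
 .e)))
 .e))))) (by decide +kernel)

theorem b0_2737 : S (PX [464] [427,462,463,466]) := S.of (.q 425 (.a 1 [] (.d 332 3373 301 3404 456)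
 (.a 1 [301] (.d 456 3404 332 3435 487)
 (.a 0 [332,456] (.q 393 (.a 1 [] (.d 395 392 392 393 397)
 (.a 0 [392,395,397] (.q 361 (.a 1 [] (.d 329 1321 297 1353 457)
 (.a 1 [297] (.d 457 1353 329 1385 489)
 (.a 1 [457] (.r 297 1321 329 (.d 330 2312 264 2345 429))
 (.a 0 [329] (.q 330 (.a 1 [] (.d 297 2312 264 2345 429)
 (.a 0 [264,297,429] (.q 362 (.a 1 [] (.d 360 359 359 360 364)
 (.a 1 [359] (.d 364 360 360 361 365)
 (.a 1 [360] (.d 298 1290 266 1322 426)
 .e))))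
 .e)))
 .e)))))
 .e)))
 .e)))) (by decide +kernel)

theorem b0_2738 : S (PX [464] [428,462,463,466]) := S.of (.q 425 (.a 1 [] (.d 332 3373 301 3404 456)
 (.a 1 [301] (.d 456 3404 332 3435 487)
 (.a 0 [332,456] (.q 393 (.a 1 [] (.d 395 392 392 393 397)
 (.a 0 [392,395,397] (.q 330 (.a 1 [] (.d 297 2312 264 2345 429)
 (.a 0 [264,297,429] (.q 361 (.a 1 [] (.d 457 1353 329 1385 489)
 (.a 0 [329,457,489] (.q 362 (.a 1 [] (.d 360 359 359 360 364)
 (.a 1 [359] (.d 364 360 360 361 365)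
 (.a 1 [360] (.d 298 1290 266 1322 426)
 .e))))
 .e)))
 .e)))
 .e)))
 .e)))) (by decide +kernel)

theorem b0_2739 : S (PX [464] [429,462,463,466]) := S.of (.q 395 (.a 1 [] (.d 393 392 392 393 397)
 (.a 1 [392] (.d 397 393 393 394 398)
 (.a 0 [393] (.q 332 (.a 1 [] (.d 301 3342 270 3373 425)
 (.a 1 [270] (.d 425 3373 301 3404 456)
 (.a 1 [301] (.r 398 394 397 (.r 365 2380 431 (.r 299 2314 266 (.d 331 1291 267 1323 427))))
 .e))))
 (.a 0 [397] (.q 331 (.a 1 [] (.d 299 1291 267 1323 427)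
 (.a 1 [267] (.d 427 1323 299 1355 459)
 (.a 0 [299,427] (.r 393 392 392 (.q 362 (.a 1 [] (.d 300 3341 269 3372 424)
 (.a 1 [269] (.d 424 3372 300 3403 455)
 (.a 0 [300,424] (.q 426 (.a 1 [] (.d 330 1322 298 1354 458)
 (.a 1 [298] (.d 458 1354 330 1386 490)
 (.a 0 [330,458] (.q 361 (.a 1 [] (.d 360 359 359 360 364)
 (.a 1 [359] (.d 364 360 360 361 365)
 (.a 1 [360] (.r 364 361 365 (.d 457 3405 333 3436 488))
 (.a 1 [364] (.r 360 359 359 (.d 459 2375 327 2408 492))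
 .e)))))
 .e))))
 .e)))))
 .e))))
 .e))))) (by decide +kernel)

theorem b0_2740 : S (PX [464] [457,462,463,466]) := S.of (.q 395 (.a 1 [] (.d 393 392 392 393 397)
 (.a 1 [392] (.d 397 393 393 394 398)
 (.a 0 [393,397] (.q 331 (.a 1 [] (.d 299 1291 267 1323 427)
 (.a 1 [267] (.d 427 1323 299 1355 459)
 (.a 0 [299,427] (.q 330 (.a 1 [] (.d 297 2312 264 2345 429)
 (.a 0 [264,297,429] (.q 332 (.a 1 [] (.d 329 328 328 329 333)
 (.a 1 [328] (.d 333 329 329 330 334)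
 (.a 1 [329] (.d 301 3342 270 3373 425)
 .e))))
 .e)))
 .e))))
 .e)))) (by decide +kernel)

theorem b0_2791 : S (PX [461,464] [169,459,462,463,466]) := S.of (.q 395 (.a 1 [] (.d 393 392 392 393 397)
 (.a 1 [392] (.d 397 393 393 394 398)
 (.a 0 [393,397] (.q 428 (.a 1 [] (.d 362 2377 329 2410 494)
 (.a 1 [329] (.d 494 2410 362 2443 527)
 (.a 0 [362,494] (.q 332 (.a 1 [] (.d 364 1324 300 1356 460)
 (.a 1 [300] (.d 425 3373 301 3404 456)
 .e)))
 .e))))
 .e)))) (by decide +kernel)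

theorem b0_2792 : S (PX [461,464] [202,459,462,463,466]) := S.of (.q 395 (.a 1 [] (.d 393 392 392 393 397)
 (.a 1 [392] (.d 397 393 393 394 398)
 (.a 0 [393,397] (.q 428 (.a 1 [] (.d 362 2377 329 2410 494)
 (.a 1 [329] (.d 494 2410 362 2443 527)
 (.a 0 [362,494] (.q 332 (.a 1 [] (.d 364 1324 300 1356 460)
 (.a 1 [300] (.d 425 3373 301 3404 456)
 .e)))
 .e))))
 .e)))) (by decide +kernel)

theorem b0_2793 : S (PX [461,464] [235,459,462,463,466]) := S.of (.q 395 (.a 1 [] (.d 393 392 392 393 397)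
 (.a 1 [392] (.d 397 393 393 394 398)
 (.a 0 [393,397] (.q 428 (.a 1 [] (.d 362 2377 329 2410 494)
 (.a 1 [329] (.d 494 2410 362 2443 527)
 (.a 0 [362,494] (.q 332 (.a 1 [] (.d 364 1324 300 1356 460)
 (.a 1 [300] (.d 425 3373 301 3404 456)
 .e)))
 .e))))
 .e)))) (by decide +kernel)

theorem b0_2794 : S (PX [461,464] [236,459,462,463,466]) := S.of (.q 395 (.a 1 [] (.d 393 392 392 393 397)
 (.a 1 [392] (.d 397 393 393 394 398)
 (.a 0 [393,397] (.q 428 (.a 1 [] (.d 362 2377 329 2410 494)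
 (.a 1 [329] (.d 494 2410 362 2443 527)
 (.a 0 [362,494] (.q 332 (.a 1 [] (.d 364 1324 300 1356 460)
 (.a 1 [300] (.d 425 3373 301 3404 456)
 .e)))
 .e))))
 .e)))) (by decide +kernel)

theorem b0_2795 : S (PX [461,464] [237,459,462,463,466]) := S.of (.q 395 (.a 1 [] (.d 393 392 392 393 397)
 (.a 1 [392] (.d 397 393 393 394 398)
 (.a 0 [393,397] (.q 428 (.a 1 [] (.d 362 2377 329 2410 494)
 (.a 1 [329] (.d 494 2410 362 2443 527)
 (.a 0 [362,494] (.q 332 (.a 1 [] (.d 364 1324 300 1356 460)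
 (.a 1 [300] (.d 425 3373 301 3404 456)
 .e)))
 .e))))
 .e)))) (by decide +kernel)

theorem b0_2796 : S (PX [461,464] [264,459,462,463,466]) := S.of (.q 395 (.a 1 [] (.d 393 392 392 393 397)
 (.a 1 [392] (.d 397 393 393 394 398)
 (.a 0 [393,397] (.q 428 (.a 1 [] (.d 362 2377 329 2410 494)
 (.a 1 [329] (.d 494 2410 362 2443 527)
 (.a 0 [362,494] (.q 332 (.a 1 [] (.d 364 1324 300 1356 460)
 (.a 1 [300] (.d 425 3373 301 3404 456)
 .e)))
 .e))))
 .e)))) (by decide +kernel)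

theorem b0_2797 : S (PX [461,464] [266,459,462,463,466]) := S.of (.q 395 (.a 1 [] (.d 393 392 392 393 397)
 (.a 1 [392] (.d 397 393 393 394 398)
 (.a 0 [393,397] (.q 428 (.a 1 [] (.d 362 2377 329 2410 494)
 (.a 1 [329] (.d 494 2410 362 2443 527)
 (.a 0 [362,494] (.q 332 (.a 1 [] (.d 364 1324 300 1356 460)
 (.a 1 [300] (.d 425 3373 301 3404 456)
 .e)))
 .e))))
 .e)))) (by decide +kernel)

theorem b0_2798 : S (PX [461,464] [269,459,462,463,466]) := S.of (.q 395 (.a 1 [] (.d 393 392 392 393 397)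
 (.a 1 [392] (.d 397 393 393 394 398)
 (.a 0 [393,397] (.q 428 (.a 1 [] (.d 362 2377 329 2410 494)
 (.a 1 [329] (.d 494 2410 362 2443 527)
 (.a 0 [362,494] (.q 331 (.a 1 [] (.d 299 1291 267 1323 427)
 (.a 0 [267,299,427] (.q 332 (.a 1 [] (.d 364 1324 300 1356 460)
 (.a 1 [300] (.d 425 3373 301 3404 456)
 .e)))
 .e)))
 .e))))
 .e)))) (by decide +kernel)

theorem b0_2799 : S (PX [461,464] [297,459,462,463,466]) := S.of (.q 395 (.a 1 [] (.d 393 392 392 393 397)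
 (.a 1 [392] (.d 397 393 393 394 398)
 (.a 0 [393,397] (.q 428 (.a 1 [] (.d 362 2377 329 2410 494)
 (.a 1 [329] (.d 494 2410 362 2443 527)
 (.a 0 [362,494] (.q 332 (.a 1 [] (.d 364 1324 300 1356 460)
 (.a 1 [300] (.d 425 3373 301 3404 456)
 .e)))
 .e))))
 .e)))) (by decide +kernel)

theorem b0_2800 : S (PX [461,464] [298,459,462,463,466]) := S.of (.q 395 (.a 1 [] (.d 393 392 392 393 397)
 (.a 1 [392] (.d 397 393 393 394 398)
 (.a 0 [393,397] (.q 428 (.a 1 [] (.d 362 2377 329 2410 494)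
 (.a 1 [329] (.d 494 2410 362 2443 527)
 (.a 0 [362,494] (.q 332 (.a 1 [] (.d 364 1324 300 1356 460)
 (.a 1 [300] (.d 425 3373 301 3404 456)
 .e)))
 .e))))
 .e)))) (by decide +kernel)

theorem b0_2801 : S (PX [461,464] [299,459,462,463,466]) := S.of (.q 332 (.a 1 [] (.d 301 3342 270 3373 425)
 (.a 1 [270] (.d 425 3373 301 3404 456)
 (.a 0 [301,425] (.q 395 (.a 1 [] (.d 393 392 392 393 397)
 (.a 1 [392] (.d 397 393 393 394 398)
 (.a 0 [393,397] (.q 428 (.a 1 [] (.d 364 1324 300 1356 460)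
 (.a 1 [300] (.d 494 2410 362 2443 527)
 .e)))
 .e))))
 .e)))) (by decide +kernel)

theorem b0_2802 : S (PX [461,464] [300,459,462,463,466]) := S.of (.q 395 (.a 1 [] (.d 393 392 392 393 397)
 (.a 1 [392] (.d 397 393 393 394 398)
 (.a 0 [393,397] (.q 331 (.a 1 [] (.d 299 1291 267 1323 427)
 (.a 0 [267,299,427] (.q 330 (.a 1 [] (.d 297 2312 264 2345 429)
 (.a 0 [264,297,429] (.q 298 (.a 1 [] (.d 362 1290 266 1322 426)
 (.a 1 [266] (.r 362 1322 426 (.d 428 2377 329 2410 494))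
 (.a 1 [426] (.r 362 1290 266 (.d 428 2377 329 2410 494))
 (.a 0 [362] (.q 332 (.a 1 [] (.d 329 328 328 329 333)
 (.a 1 [328] (.d 333 329 329 330 334)
 (.a 1 [329] (.d 301 3342 270 3373 425)
 .e))))
 .e)))))
 .e)))
 .e)))
 .e)))) (by decide +kernel)

theorem b0_2803 : S (PX [461,464] [301,459,462,463,466]) := S.of (.q 393 (.a 1 [] (.d 395 392 392 393 397)
 (.a 0 [392,395,397] (.q 425 (.a 1 [] (.d 456 3404 332 3435 487)
 (.a 0 [332,456,487] (.q 361 (.a 1 [] (.d 329 1321 297 1353 457)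
 (.a 1 [297] (.d 457 1353 329 1385 489)
 (.a 1 [457] (.r 297 1321 329 (.d 330 2312 264 2345 429))
 (.a 0 [329] (.q 427 (.a 1 [] (.d 328 2343 295 2376 460)
 (.a 1 [295] (.d 460 2376 328 2409 493)
 (.a 1 [328] (.r 489 1385 457 (.d 458 3437 365 3468 520))
 .e))))
 .e)))))
 .e)))
 .e))) (by decide +kernel)

theorem b0_2804 : S (PX [461,464] [302,459,462,463,466]) := S.of (.q 395 (.a 1 [] (.d 393 392 392 393 397)
 (.a 1 [392] (.d 397 393 393 394 398)
 (.a 0 [393,397] (.q 428 (.a 1 [] (.d 362 2377 329 2410 494)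
 (.a 1 [329] (.d 494 2410 362 2443 527)
 (.a 0 [362,494] (.q 332 (.a 1 [] (.d 364 1324 300 1356 460)
 (.a 1 [300] (.d 425 3373 301 3404 456)
 .e)))
 .e))))
 .e)))) (by decide +kernel)

theorem b0_2805 : S (PX [461,464] [303,459,462,463,466]) := S.of (.q 395 (.a 1 [] (.d 393 392 392 393 397)
 (.a 1 [392] (.d 397 393 393 394 398)
 (.a 0 [393,397] (.q 428 (.a 1 [] (.d 362 2377 329 2410 494)
 (.a 1 [329] (.d 494 2410 362 2443 527)
 (.a 0 [362,494] (.q 332 (.a 1 [] (.d 364 1324 300 1356 460)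
 (.a 1 [300] (.d 425 3373 301 3404 456)
 .e)))
 .e))))
 .e)))) (by decide +kernel)

theorem b0_2806 : S (PX [461,464] [304,459,462,463,466]) := S.of (.q 395 (.a 1 [] (.d 393 392 392 393 397)
 (.a 1 [392] (.d 397 393 393 394 398)
 (.a 0 [393,397] (.q 428 (.a 1 [] (.d 362 2377 329 2410 494)
 (.a 1 [329] (.d 494 2410 362 2443 527)
 (.a 0 [362,494] (.q 332 (.a 1 [] (.d 364 1324 300 1356 460)
 (.a 1 [300] (.d 425 3373 301 3404 456)
 .e)))
 .e))))
 .e)))) (by decide +kernel)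

theorem b0_2807 : S (PX [461,464] [328,459,462,463,466]) := S.of (.q 395 (.a 1 [] (.d 393 392 392 393 397)
 (.a 1 [392] (.d 397 393 393 394 398)
 (.a 0 [393,397] (.q 428 (.a 1 [] (.d 362 2377 329 2410 494)
 (.a 1 [329] (.d 494 2410 362 2443 527)
 (.a 0 [362,494] (.q 332 (.a 1 [] (.d 364 1324 300 1356 460)
 (.a 1 [300] (.d 425 3373 301 3404 456)
 .e)))
 .e))))
 .e)))) (by decide +kernel)

theorem b0_2808 : S (PX [461,464] [330,459,462,463,466]) := S.of (.q 395 (.a 1 [] (.d 393 392 392 393 397)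
 (.a 1 [392] (.d 397 393 393 394 398)
 (.a 0 [393,397] (.q 428 (.a 1 [] (.d 362 2377 329 2410 494)
 (.a 1 [329] (.d 494 2410 362 2443 527)
 (.a 0 [362,494] (.q 332 (.a 1 [] (.d 364 1324 300 1356 460)
 (.a 1 [300] (.d 425 3373 301 3404 456)
 .e)))
 .e))))
 .e)))) (by decide +kernel)

theorem b0_2809 : S (PX [461,464] [332,459,462,463,466]) := S.of (.q 395 (.a 1 [] (.d 393 392 392 393 397)
 (.a 1 [392] (.d 397 393 393 394 398)
 (.a 0 [393,397] (.q 331 (.a 1 [] (.d 299 1291 267 1323 427)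
 (.a 0 [267,299,427] (.q 330 (.a 1 [] (.d 297 2312 264 2345 429)
 (.a 0 [264,297,429] (.q 362 (.a 1 [] (.d 298 1290 266 1322 426)
 (.a 1 [266] (.d 426 1322 298 1354 458)
 (.a 1 [298] (.d 428 2377 329 2410 494)
 .e))))
 .e)))
 .e)))
 .e)))) (by decide +kernel)

theorem b0_2810 : S (PX [461,464] [333,459,462,463,466]) := S.of (.q 395 (.a 1 [] (.d 393 392 392 393 397)
 (.a 1 [392] (.d 397 393 393 394 398)
 (.a 0 [393,397] (.q 428 (.a 1 [] (.d 362 2377 329 2410 494)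
 (.a 1 [329] (.d 494 2410 362 2443 527)
 (.a 0 [362,494] (.q 332 (.a 1 [] (.d 364 1324 300 1356 460)
 (.a 1 [300] (.d 425 3373 301 3404 456)
 .e)))
 .e))))
 .e)))) (by decide +kernel)

theorem b0_2811 : S (PX [461,464] [335,459,462,463,466]) := S.of (.q 395 (.a 1 [] (.d 393 392 392 393 397)
 (.a 1 [392] (.d 397 393 393 394 398)
 (.a 0 [393,397] (.q 428 (.a 1 [] (.d 362 2377 329 2410 494)
 (.a 1 [329] (.d 494 2410 362 2443 527)
 (.a 0 [362,494] (.q 332 (.a 1 [] (.d 364 1324 300 1356 460)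
 (.a 1 [300] (.d 425 3373 301 3404 456)
 .e)))
 .e))))
 .e)))) (by decide +kernel)

theorem b0_2812 : S (PX [461,464] [357,459,462,463,466]) := S.of (.q 395 (.a 1 [] (.d 393 392 392 393 397)
 (.a 1 [392] (.d 397 393 393 394 398)
 (.a 0 [393,397] (.q 428 (.a 1 [] (.d 362 2377 329 2410 494)
 (.a 1 [329] (.d 494 2410 362 2443 527)
 (.a 0 [362,494] (.q 332 (.a 1 [] (.d 364 1324 300 1356 460)
 (.a 1 [300] (.d 425 3373 301 3404 456)
 .e)))
 .e))))
 .e)))) (by decide +kernel)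

theorem b0_2813 : S (PX [461,464] [359,459,462,463,466]) := S.of (.q 395 (.a 1 [] (.d 393 392 392 393 397)
 (.a 1 [392] (.d 397 393 393 394 398)
 (.a 0 [393,397] (.q 428 (.a 1 [] (.d 362 2377 329 2410 494)
 (.a 1 [329] (.d 494 2410 362 2443 527)
 (.a 0 [362,494] (.q 332 (.a 1 [] (.d 364 1324 300 1356 460)
 (.a 1 [300] (.d 425 3373 301 3404 456)
 .e)))
 .e))))
 .e)))) (by decide +kernel)

theorem b0_2814 : S (PX [461,464] [360,459,462,463,466]) := S.of (.q 332 (.a 1 [] (.d 301 3342 270 3373 425)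
 (.a 1 [270] (.d 425 3373 301 3404 456)
 (.a 0 [301,425] (.q 395 (.a 1 [] (.d 393 392 392 393 397)
 (.a 1 [392] (.d 397 393 393 394 398)
 (.a 1 [393] (.r 398 394 397 (.r 365 2380 431 (.r 299 2314 266 (.d 331 1291 267 1323 427))))
 (.a 0 [397] (.q 428 (.a 1 [] (.d 364 1324 300 1356 460)
 (.a 1 [300] (.d 494 2410 362 2443 527)
 .e)))
 .e)))))
 .e)))) (by decide +kernel)

theorem b0_2815 : S (PX [461,464] [361,459,462,463,466]) := S.of (.q 395 (.a 1 [] (.d 393 392 392 393 397)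
 (.a 1 [392] (.d 397 393 393 394 398)
 (.a 0 [393,397] (.q 428 (.a 1 [] (.d 362 2377 329 2410 494)
 (.a 1 [329] (.d 494 2410 362 2443 527)
 (.a 0 [362,494] (.q 332 (.a 1 [] (.d 364 1324 300 1356 460)
 (.a 1 [300] (.d 425 3373 301 3404 456)
 .e)))
 .e))))
 .e)))) (by decide +kernel)

theorem b0_2816 : S (PX [461,464] [362,459,462,463,466]) := S.of (.q 395 (.a 1 [] (.d 393 392 392 393 397)
 (.a 1 [392] (.d 397 393 393 394 398)
 (.a 0 [393,397] (.q 331 (.a 1 [] (.d 299 1291 267 1323 427)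
 (.a 0 [267,299,427] (.q 332 (.a 1 [] (.d 301 3342 270 3373 425)
 (.a 1 [270] (.d 425 3373 301 3404 456)
 (.a 0 [301,425] (.q 330 (.a 1 [] (.d 329 328 328 329 333)
 (.a 1 [328] (.d 333 329 329 330 334)
 (.a 1 [329] (.d 297 2312 264 2345 429)
 .e))))
 .e))))
 .e)))
 .e)))) (by decide +kernel)

theorem b0_2817 : S (PX [461,464] [364,459,462,463,466]) := S.of (.q 425 (.a 1 [] (.d 332 3373 301 3404 456)
 (.a 1 [301] (.d 456 3404 332 3435 487)
 (.a 0 [332,456] (.q 330 (.a 1 [] (.d 297 2312 264 2345 429)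
 (.a 0 [264,297,429] (.q 362 (.a 1 [] (.d 298 1290 266 1322 426)
 (.a 1 [266] (.d 426 1322 298 1354 458)
 (.a 0 [298,426] (.q 395 (.a 1 [] (.d 393 392 392 393 397)
 (.a 1 [392] (.d 397 393 393 394 398)
 (.a 1 [393] (.d 428 2377 329 2410 494)
 .e))))
 .e))))
 .e)))
 .e)))) (by decide +kernel)

theorem b0_2818 : S (PX [461,464] [366,459,462,463,466]) := S.of (.q 332 (.a 1 [] (.d 301 3342 270 3373 425)
 (.a 1 [270] (.d 425 3373 301 3404 456)
 (.a 0 [301,425] (.q 395 (.a 1 [] (.d 393 392 392 393 397)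
 (.a 1 [392] (.d 397 393 393 394 398)
 (.a 1 [393] (.r 398 394 397 (.r 365 2380 431 (.r 299 2314 266 (.d 331 1291 267 1323 427))))
 (.a 0 [397] (.q 428 (.a 1 [] (.d 364 1324 300 1356 460)
 (.a 1 [300] (.d 494 2410 362 2443 527)
 .e)))
 .e)))))
 .e)))) (by decide +kernel)

theorem b0_2819 : S (PX [461,464] [367,459,462,463,466]) := S.of (.q 395 (.a 1 [] (.d 393 392 392 393 397)
 (.a 1 [392] (.d 397 393 393 394 398)
 (.a 0 [393,397] (.q 428 (.a 1 [] (.d 362 2377 329 2410 494)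
 (.a 1 [329] (.d 494 2410 362 2443 527)
 (.a 0 [362,494] (.q 332 (.a 1 [] (.d 364 1324 300 1356 460)
 (.a 1 [300] (.d 425 3373 301 3404 456)
 .e)))
 .e))))
 .e)))) (by decide +kernel)

theorem b0_2820 : S (PX [461,464] [393,459,462,463,466]) := S.of (.q 332 (.a 1 [] (.d 301 3342 270 3373 425)
 (.a 1 [270] (.d 425 3373 301 3404 456)
 (.a 0 [301,425] (.q 364 (.a 1 [] (.d 300 1292 268 1324 428)
 (.a 1 [268] (.d 428 1324 300 1356 460)
 (.a 0 [300,428] (.q 365 (.a 1 [] (.d 362 361 361 362 366)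
 (.a 1 [361] (.d 366 362 362 363 367)
 (.a 1 [362] (.r 398 2380 431 (.r 397 394 395 (.d 429 1357 333 1389 493)))
 .e))))
 .e))))
 .e)))) (by decide +kernel)

theorem b0_2821 : S (PX [461,464] [397,459,462,463,466]) := S.of (.q 330 (.a 1 [] (.d 297 2312 264 2345 429)
 (.a 0 [264,297,429] (.q 362 (.a 1 [] (.d 298 1290 266 1322 426)
 (.a 1 [266] (.d 426 1322 298 1354 458)
 (.a 0 [298,426] (.q 428 (.a 1 [] (.d 395 2377 329 2410 494)
 (.a 0 [329,395,494] (.q 364 (.a 1 [] (.d 361 360 360 361 365)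
 (.a 1 [360] (.d 365 361 361 362 366)
 (.a 1 [361] (.d 332 1324 300 1356 460)
 .e))))
 .e)))
 .e))))
 .e))) (by decide +kernel)

theorem b0_2822 : S (PX [461,464] [400,459,462,463,466]) := S.of (.q 395 (.a 1 [] (.d 393 392 392 393 397)
 (.a 1 [392] (.d 397 393 393 394 398)
 (.a 0 [393,397] (.q 428 (.a 1 [] (.d 362 2377 329 2410 494)
 (.a 1 [329] (.d 494 2410 362 2443 527)
 (.a 0 [362,494] (.q 332 (.a 1 [] (.d 364 1324 300 1356 460)
 (.a 1 [300] (.d 425 3373 301 3404 456)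
 .e)))
 .e))))
 .e)))) (by decide +kernel)

theorem b0_2823 : S (PX [461,464] [422,459,462,463,466]) := S.of (.q 395 (.a 1 [] (.d 393 392 392 393 397)
 (.a 1 [392] (.d 397 393 393 394 398)
 (.a 0 [393,397] (.q 428 (.a 1 [] (.d 362 2377 329 2410 494)
 (.a 1 [329] (.d 494 2410 362 2443 527)
 (.a 0 [362,494] (.q 332 (.a 1 [] (.d 364 1324 300 1356 460)
 (.a 1 [300] (.d 425 3373 301 3404 456)
 .e)))
 .e))))
 .e)))) (by decide +kernel)

theorem b0_2824 : S (PX [461,464] [424,459,462,463,466]) := S.of (.q 395 (.a 1 [] (.d 393 392 392 393 397)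
 (.a 1 [392] (.d 397 393 393 394 398)
 (.a 0 [393,397] (.q 332 (.a 1 [] (.d 301 3342 270 3373 425)
 (.a 1 [270] (.d 425 3373 301 3404 456)
 (.a 0 [301,425] (.q 428 (.a 1 [] (.d 364 1324 300 1356 460)
 (.a 1 [300] (.d 494 2410 362 2443 527)
 .e)))
 .e))))
 .e)))) (by decide +kernel)

theorem b0_2825 : S (PX [461,464] [425,459,462,463,466]) := S.of (.q 395 (.a 1 [] (.d 393 392 392 393 397)
 (.a 1 [392] (.d 397 393 393 394 398)
 (.a 0 [393,397] (.q 331 (.a 1 [] (.d 299 1291 267 1323 427)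
 (.a 0 [267,299,427] (.q 330 (.a 1 [] (.d 297 2312 264 2345 429)
 (.a 0 [264,297,429] (.q 362 (.a 1 [] (.d 298 1290 266 1322 426)
 (.a 1 [266] (.d 426 1322 298 1354 458)
 (.a 1 [298] (.d 428 2377 329 2410 494)
 (.a 1 [361] (.r 329 2377 428 (.d 426 1322 298 1354 458))
 (.a 0 [329] (.q 361 (.a 1 [] (.d 298 1290 266 1322 426)
 (.a 1 [266] (.d 426 1322 298 1354 458)
 (.a 1 [298] (.d 360 359 359 360 364)
 (.a 1 [426] (.r 428 2410 494 (.d 364 360 360 361 365))
 .e)))))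
 .e))))))
 .e)))
 .e)))
 .e)))) (by decide +kernel)

theorem b0_2826 : S (PX [461,464] [426,459,462,463,466]) := S.of (.q 332 (.a 1 [] (.d 301 3342 270 3373 425)
 (.a 1 [270] (.d 425 3373 301 3404 456)
 (.a 0 [301,425] (.q 395 (.a 1 [] (.d 393 392 392 393 397)
 (.a 1 [392] (.d 397 393 393 394 398)
 (.a 1 [393] (.r 398 394 397 (.r 365 2380 431 (.r 299 2314 266 (.d 331 1291 267 1323 427))))
 (.a 0 [397] (.q 428 (.a 1 [] (.d 364 1324 300 1356 460)
 (.a 1 [300] (.d 494 2410 362 2443 527)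
 .e)))
 .e)))))
 .e)))) (by decide +kernel)

theorem b0_2827 : S (PX [461,464] [427,459,462,463,466]) := S.of (.q 395 (.a 1 [] (.d 393 392 392 393 397)
 (.a 1 [392] (.d 397 393 393 394 398)
 (.a 0 [393,397] (.q 428 (.a 1 [] (.d 362 2377 329 2410 494)
 (.a 1 [329] (.d 494 2410 362 2443 527)
 (.a 0 [362,494] (.q 332 (.a 1 [] (.d 364 1324 300 1356 460)
 (.a 1 [300] (.d 425 3373 301 3404 456)
 .e)))
 .e))))
 .e)))) (by decide +kernel)

theorem b0_2828 : S (PX [461,464] [428,459,462,463,466]) := S.of (.q 332 (.a 1 [] (.d 301 3342 270 3373 425)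
 (.a 1 [270] (.d 425 3373 301 3404 456)
 (.a 0 [301,425] (.q 397 (.a 1 [] (.d 395 393 393 394 398)
 (.a 1 [393] (.r 398 394 395 (.r 365 2380 431 (.d 429 1357 333 1389 493)))
 (.a 0 [395] (.q 365 (.a 1 [] (.d 429 1357 333 1389 493)
 (.a 0 [333,429,493] (.q 427 (.a 1 [] (.d 334 3375 303 3406 458)
 (.a 1 [303] (.d 458 3406 334 3437 489)
 (.a 0 [334,458] (.q 361 (.a 1 [] (.d 328 2343 295 2376 460)
 (.a 1 [295] (.r 398 2380 431 (.r 362 361 364 (.r 266 2314 299 (.r 330 1290 298 (.r 328 2376 460 (.r 297 2312 264 (.d 359 359 360 3338 390)))))))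
 (.a 1 [460] (.r 398 2380 431 (.r 362 361 364 (.r 266 2314 299 (.r 330 1290 298 (.r 328 2343 295 (.r 297 2312 264 (.d 359 359 360 3338 390)))))))
 (.a 0 [328] (.q 299 (.a 1 [] (.d 398 2314 266 2347 431)
 (.a 1 [266] (.r 364 361 362 (.r 268 1292 300 (.d 330 3309 237 3340 392)))
 .e)))
 .e)))))
 .e))))
 .e)))
 (.a 0 [398] (.q 429 (.a 1 [] (.d 365 1357 333 1389 493)
 (.a 1 [333] (.d 493 1389 365 1421 525)
 (.a 0 [365,493] (.r 330 2345 297 (.q 331 (.a 1 [] (.d 329 328 328 329 333)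
 (.a 1 [328] (.d 333 329 329 330 334)
 (.a 1 [333] (.r 395 393 393 (.d 299 1291 267 1323 427))
 (.a 0 [329] (.q 362 (.a 1 [] (.d 298 1290 266 1322 426)
 (.a 1 [266] (.d 426 1322 298 1354 458)
 (.a 1 [298] (.r 393 393 395 (.d 424 3372 300 3403 455))
 (.a 0 [393] (.q 361 (.a 1 [] (.d 426 1322 298 1354 458)
 (.a 1 [298] (.d 360 359 359 360 364)
 .e)))
 .e)))))
 .e))))))
 .e))))
 .e)))))
 .e)))) (by decide +kernel)

theorem b0_2829 : S (PX [461,464] [429,459,462,463,466]) := S.of (.q 395 (.a 1 [] (.d 393 392 392 393 397)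
 (.a 1 [392] (.d 397 393 393 394 398)
 (.a 0 [393,397] (.q 428 (.a 1 [] (.d 362 2377 329 2410 494)
 (.a 1 [329] (.d 494 2410 362 2443 527)
 (.a 0 [362,494] (.q 332 (.a 1 [] (.d 364 1324 300 1356 460)
 (.a 1 [300] (.d 425 3373 301 3404 456)
 .e)))
 .e))))
 .e)))) (by decide +kernel)

theorem b0_2830 : S (PX [461,464] [455,459,462,463,466]) := S.of (.q 395 (.a 1 [] (.d 393 392 392 393 397)
 (.a 1 [392] (.d 397 393 393 394 398)
 (.a 0 [393,397] (.q 332 (.a 1 [] (.d 301 3342 270 3373 425)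
 (.a 1 [270] (.d 425 3373 301 3404 456)
 (.a 0 [301,425] (.q 428 (.a 1 [] (.d 364 1324 300 1356 460)
 (.a 1 [300] (.d 494 2410 362 2443 527)
 .e)))
 .e))))
 .e)))) (by decide +kernel)

theorem b0_2831 : S (PX [461,464] [456,459,462,463,466]) := S.of (.q 395 (.a 1 [] (.d 393 392 392 393 397)
 (.a 1 [392] (.d 397 393 393 394 398)
 (.a 0 [393,397] (.q 428 (.a 1 [] (.d 362 2377 329 2410 494)
 (.a 1 [329] (.d 494 2410 362 2443 527)
 (.a 0 [362,494] (.q 332 (.a 1 [] (.d 364 1324 300 1356 460)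
 (.a 1 [300] (.d 301 3342 270 3373 425)
 .e)))
 .e))))
 .e)))) (by decide +kernel)

theorem b0_2832 : S (PX [461,464] [457,459,462,463,466]) := S.of (.q 395 (.a 1 [] (.d 393 392 392 393 397)
 (.a 1 [392] (.d 397 393 393 394 398)
 (.a 0 [393,397] (.q 428 (.a 1 [] (.d 362 2377 329 2410 494)
 (.a 1 [329] (.d 494 2410 362 2443 527)
 (.a 0 [362,494] (.q 332 (.a 1 [] (.d 364 1324 300 1356 460)
 (.a 1 [300] (.d 425 3373 301 3404 456)
 .e)))
 .e))))
 .e)))) (by decide +kernel)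

theorem b0_2833 : S (PX [461,464] [458,459,462,463,466]) := S.of (.q 395 (.a 1 [] (.d 393 392 392 393 397)
 (.a 1 [392] (.d 397 393 393 394 398)
 (.a 0 [393,397] (.q 428 (.a 1 [] (.d 362 2377 329 2410 494)
 (.a 1 [329] (.d 494 2410 362 2443 527)
 (.a 0 [362,494] (.q 332 (.a 1 [] (.d 364 1324 300 1356 460)
 (.a 1 [300] (.d 425 3373 301 3404 456)
 .e)))
 .e))))
 .e)))) (by decide +kernel)

theorem b0_2834 : S (PX [461,464] [459,460,462,463,466]) := S.of (.q 395 (.a 1 [] (.d 393 392 392 393 397)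
 (.a 1 [392] (.d 397 393 393 394 398)
 (.a 0 [393,397] (.q 428 (.a 1 [] (.d 362 2377 329 2410 494)
 (.a 1 [329] (.d 494 2410 362 2443 527)
 (.a 0 [362,494] (.q 332 (.a 1 [] (.d 301 3342 270 3373 425)
 (.a 1 [270] (.d 425 3373 301 3404 456)
 (.a 0 [301,425] (.q 331 (.a 1 [] (.d 299 1291 267 1323 427)
 (.a 0 [267,299,427] (.q 330 (.a 1 [] (.d 329 328 328 329 333)
 (.a 1 [328] (.d 333 329 329 330 334)
 (.a 1 [329] (.d 297 2312 264 2345 429)
 .e))))
 .e)))
 .e))))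
 .e))))
 .e)))) (by decide +kernel)

theorem b0_2835 : S (PX [461,464] [459,462,463,466,488]) := S.of (.q 395 (.a 1 [] (.d 393 392 392 393 397)
 (.a 1 [392] (.d 397 393 393 394 398)
 (.a 0 [393,397] (.q 428 (.a 1 [] (.d 362 2377 329 2410 494)
 (.a 1 [329] (.d 494 2410 362 2443 527)
 (.a 0 [362,494] (.q 332 (.a 1 [] (.d 364 1324 300 1356 460)
 (.a 1 [300] (.d 425 3373 301 3404 456)
 .e)))
 .e))))
 .e)))) (by decide +kernel)

theorem b0_2836 : S (PX [461,464] [459,462,463,466,490]) := S.of (.q 395 (.a 1 [] (.d 393 392 392 393 397)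
 (.a 1 [392] (.d 397 393 393 394 398)
 (.a 0 [393,397] (.q 428 (.a 1 [] (.d 362 2377 329 2410 494)
 (.a 1 [329] (.d 494 2410 362 2443 527)
 (.a 0 [362,494] (.q 332 (.a 1 [] (.d 364 1324 300 1356 460)
 (.a 1 [300] (.d 425 3373 301 3404 456)
 .e)))
 .e))))
 .e)))) (by decide +kernel)

theorem b0_2837 : S (PX [461,464] [459,462,463,466,492]) := S.of (.q 332 (.a 1 [] (.d 301 3342 270 3373 425)
 (.a 1 [270] (.d 425 3373 301 3404 456)
 (.a 0 [301,425] (.q 395 (.a 1 [] (.d 393 392 392 393 397)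
 (.a 1 [392] (.d 397 393 393 394 398)
 (.a 1 [393] (.r 398 394 397 (.r 365 2380 431 (.r 299 2314 266 (.d 331 1291 267 1323 427))))
 (.a 0 [397] (.q 428 (.a 1 [] (.d 364 1324 300 1356 460)
 (.a 1 [300] (.d 494 2410 362 2443 527)
 .e)))
 .e)))))
 .e)))) (by decide +kernel)

theorem b0_2838 : S (PX [461,464] [459,462,463,466,518]) := S.of (.q 395 (.a 1 [] (.d 393 392 392 393 397)
 (.a 1 [392] (.d 397 393 393 394 398)
 (.a 0 [393,397] (.q 428 (.a 1 [] (.d 362 2377 329 2410 494)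
 (.a 1 [329] (.d 494 2410 362 2443 527)
 (.a 0 [362,494] (.q 332 (.a 1 [] (.d 364 1324 300 1356 460)
 (.a 1 [300] (.d 425 3373 301 3404 456)
 .e)))
 .e))))
 .e)))) (by decide +kernel)

theorem b0_2839 : S (PX [461,464] [459,462,463,466,521]) := S.of (.q 395 (.a 1 [] (.d 393 392 392 393 397)
 (.a 1 [392] (.d 397 393 393 394 398)
 (.a 0 [393,397] (.q 428 (.a 1 [] (.d 362 2377 329 2410 494)
 (.a 1 [329] (.d 494 2410 362 2443 527)
 (.a 0 [362,494] (.q 332 (.a 1 [] (.d 364 1324 300 1356 460)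
 (.a 1 [300] (.d 425 3373 301 3404 456)
 .e)))
 .e))))
 .e)))) (by decide +kernel)

theorem b0_2840 : S (PX [461,464] [459,462,463,466,549]) := S.of (.q 395 (.a 1 [] (.d 393 392 392 393 397)
 (.a 1 [392] (.d 397 393 393 394 398)
 (.a 0 [393,397] (.q 428 (.a 1 [] (.d 362 2377 329 2410 494)
 (.a 1 [329] (.d 494 2410 362 2443 527)
 (.a 0 [362,494] (.q 332 (.a 1 [] (.d 364 1324 300 1356 460)
 (.a 1 [300] (.d 425 3373 301 3404 456)
 .e)))
 .e))))
 .e)))) (by decide +kernel)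

theorem b0_2841 : S (PX [461,464] [459,462,463,466,552]) := S.of (.q 395 (.a 1 [] (.d 393 392 392 393 397)
 (.a 1 [392] (.d 397 393 393 394 398)
 (.a 0 [393,397] (.q 428 (.a 1 [] (.d 362 2377 329 2410 494)
 (.a 1 [329] (.d 494 2410 362 2443 527)
 (.a 0 [362,494] (.q 332 (.a 1 [] (.d 364 1324 300 1356 460)
 (.a 1 [300] (.d 425 3373 301 3404 456)
 .e)))
 .e))))
 .e)))) (by decide +kernel)

theorem b0_2938 : S (PX [464] [460,462,463,466]) := S.of (.q 395 (.a 1 [] (.d 393 392 392 393 397)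
 (.a 0 [397] (.q 459 (.a 1 [] (.d 427 1355 331 1387 491)
 (.a 0 [331] (.r 393 392 392 (.r 427 1387 491 (.q 426 (.a 1 [] (.d 360 2375 327 2408 492)
 (.a 1 [364] (.q 430 (.a 1 [] (.d 360 2375 327 2408 492)
 (.a 1 [298] (.q 265 (.a 1 [] (.d 360 2375 327 2408 492)
 (.a 1 [492] (.r 428 426 429 (.r 425 424 424 (.d 456 3404 332 3435 487)))
 .e)))
 (.a 1 [492] (.r 428 426 429 (.r 425 424 424 (.d 456 3404 332 3435 487)))
 (.a 1 [265] (.q 298 (.a 1 [] (.d 360 2375 327 2408 492)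
 (.a 1 [327] (.d 492 2408 360 2441 525)
 (.a 1 [360] (.r 330 1322 362 (.d 297 2312 264 2345 429))
 .e))))
 .e)))))
 (.a 1 [430] (.q 364 (.a 1 [] (.d 360 2375 327 2408 492)
 (.a 1 [496] (.q 529 (.a 1 [] (.d 492 2408 360 2441 525)
 (.a 1 [360] (.d 333 3374 302 3405 457)
 .e)))
 (.a 1 [529] (.q 496 (.a 1 [] (.d 492 2408 360 2441 525)
 (.a 1 [360] (.d 457 3405 333 3436 488)
 .e)))
 (.a 1 [360] (.d 333 3374 302 3405 457)
 .e)))))
 (.a 1 [360] (.q 364 (.a 1 [] (.d 333 3374 302 3405 457)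
 (.a 1 [302] (.d 457 3405 333 3436 488)
 (.a 0 [333,457] (.q 365 (.a 1 [] (.d 362 361 361 362 366)
 (.a 1 [361] (.d 458 3406 334 3437 489)
 .e)))
 .e))))
 .e)))))))
 (.a 1 [427] (.q 332 (.a 1 [] (.d 301 3342 270 3373 425)
 (.a 1 [270] (.d 425 3373 301 3404 456)
 (.a 0 [301,425] (.q 364 (.a 1 [] (.d 300 1292 268 1324 428)
 (.a 0 [268,300,428] (.q 426 (.a 1 [] (.d 333 3374 302 3405 457)
 (.a 1 [302] (.d 457 3405 333 3436 488)
 (.a 1 [333] (.r 393 392 392 (.d 492 2408 360 2441 525))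
 .e))))
 .e)))
 .e))))
 (.a 1 [491] (.q 332 (.a 1 [] (.d 301 3342 270 3373 425)
 (.a 1 [270] (.d 425 3373 301 3404 456)
 (.a 0 [301,425] (.q 330 (.a 1 [] (.d 297 2312 264 2345 429)
 (.a 1 [264] (.r 331 1355 427 (.d 329 328 328 329 333))
 .e)))
 .e))))
 .e)))))
 (.a 1 [459] (.q 461 (.a 1 [] (.d 397 393 393 394 398)
 (.a 1 [397] (.q 428 (.a 1 [] (.d 362 2377 329 2410 494)
 (.a 1 [329] (.d 494 2410 362 2443 527)
 (.a 0 [362,494] (.q 332 (.a 1 [] (.d 301 3342 270 3373 425)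
 (.a 1 [270] (.d 425 3373 301 3404 456)
 (.a 0 [301,425] (.q 331 (.a 1 [] (.d 299 1291 267 1323 427)
 (.a 0 [267,299,427] (.q 330 (.a 1 [] (.d 329 328 328 329 333)
 (.a 1 [328] (.d 333 329 329 330 334)
 (.a 1 [329] (.d 297 2312 264 2345 429)
 .e))))
 .e)))
 .e))))
 .e))))
 (.a 1 [393] (.q 332 (.a 1 [] (.d 301 3342 270 3373 425)
 (.a 1 [270] (.d 425 3373 301 3404 456)
 (.a 1 [301] (.r 398 394 397 (.r 365 2380 431 (.r 299 2314 266 (.d 331 1291 267 1323 427))))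
 .e))))
 (.a 1 [398] (.d 393 392 392 393 397)
 .e)))))
 (.a 1 [393] (.q 459 (.a 1 [] (.d 427 1355 331 1387 491)
 (.a 0 [331,427,491] (.q 332 (.a 1 [] (.d 301 3342 270 3373 425)
 (.a 1 [270] (.d 425 3373 301 3404 456)
 (.a 0 [301,425] (.q 364 (.a 1 [] (.d 300 1292 268 1324 428)
 (.a 1 [268] (.r 398 394 397 (.r 365 2380 431 (.d 362 361 361 362 366)))
 .e)))
 .e))))
 .e)))
 (.a 1 [392] (.d 397 393 393 394 398)
 .e)))))) (by decide +kernel)

theorem b0_2939 : S (PX [459,464] [297,461,462,463,466]) := S.of (.q 395 (.a 1 [] (.d 393 392 392 393 397)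
 (.a 1 [392] (.d 397 393 393 394 398)
 (.a 1 [393] (.d 427 1355 331 1387 491)
 .e)))) (by decide +kernel)

theorem b0_2940 : S (PX [459,464] [298,461,462,463,466]) := S.of (.q 395 (.a 1 [] (.d 393 392 392 393 397)
 (.a 1 [392] (.d 397 393 393 394 398)
 (.a 1 [393] (.d 427 1355 331 1387 491)
 .e)))) (by decide +kernel)

theorem b0_2941 : S (PX [459,464] [299,461,462,463,466]) := S.of (.q 395 (.a 1 [] (.d 393 392 392 393 397)
 (.a 1 [392] (.d 397 393 393 394 398)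
 (.a 1 [393] (.d 427 1355 331 1387 491)
 .e)))) (by decide +kernel)

theorem b0_2942 : S (PX [459,464] [300,461,462,463,466]) := S.of (.q 395 (.a 1 [] (.d 393 392 392 393 397)
 (.a 1 [392] (.d 397 393 393 394 398)
 (.a 1 [393] (.d 427 1355 331 1387 491)
 .e)))) (by decide +kernel)

theorem b0_2943 : S (PX [459,464] [301,461,462,463,466]) := S.of (.q 395 (.a 1 [] (.d 393 392 392 393 397)
 (.a 1 [392] (.d 397 393 393 394 398)
 (.a 1 [393] (.d 427 1355 331 1387 491)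
 .e)))) (by decide +kernel)

theorem b0_2944 : S (PX [459,464] [328,461,462,463,466]) := S.of (.q 395 (.a 1 [] (.d 393 392 392 393 397)
 (.a 1 [392] (.d 397 393 393 394 398)
 (.a 1 [393] (.d 427 1355 331 1387 491)
 .e)))) (by decide +kernel)

theorem b0_2945 : S (PX [459,464] [329,461,462,463,466]) := S.of (.q 395 (.a 1 [] (.d 393 392 392 393 397)
 (.a 1 [392] (.d 397 393 393 394 398)
 (.a 1 [393] (.d 427 1355 331 1387 491)
 .e)))) (by decide +kernel)

theorem b0_2946 : S (PX [459,464] [330,461,462,463,466]) := S.of (.q 395 (.a 1 [] (.d 393 392 392 393 397)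
 (.a 1 [392] (.d 397 393 393 394 398)
 (.a 1 [393] (.d 427 1355 331 1387 491)
 .e)))) (by decide +kernel)

theorem b0_2947 : S (PX [459,464] [332,461,462,463,466]) := S.of (.q 395 (.a 1 [] (.d 393 392 392 393 397)
 (.a 1 [392] (.d 397 393 393 394 398)
 (.a 1 [393] (.d 427 1355 331 1387 491)
 .e)))) (by decide +kernel)

theorem b0_2948 : S (PX [459,464] [333,461,462,463,466]) := S.of (.q 395 (.a 1 [] (.d 393 392 392 393 397)
 (.a 1 [392] (.d 397 393 393 394 398)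
 (.a 1 [393] (.d 427 1355 331 1387 491)
 .e)))) (by decide +kernel)

theorem b0_2949 : S (PX [459,464] [365,461,462,463,466]) := S.of (.q 395 (.a 1 [] (.d 393 392 392 393 397)
 (.a 1 [392] (.d 397 393 393 394 398)
 (.a 1 [393] (.d 427 1355 331 1387 491)
 .e)))) (by decide +kernel)

theorem b0_2950 : S (PX [459,464] [395,461,462,463,466]) := S.of (.q 330 (.a 1 [] (.d 297 2312 264 2345 429)
 (.a 0 [264,297,429] (.q 456 (.a 1 [] (.d 425 3404 332 3435 487)
 (.a 0 [332,425,487] (.q 458 (.a 1 [] (.d 457 455 455 456 460)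
 (.a 0 [455,457,460] (.q 489 (.a 1 [] (.d 427 3437 365 3468 520)
 (.a 1 [365] (.r 426 1354 362 (.r 522 1418 490 (.d 555 2471 423 2504 588)))
 .e)))
 .e)))
 .e)))
 .e))) (by decide +kernel)

theorem b0_2951 : S (PX [459,464] [397,461,462,463,466]) := S.of (.q 332 (.a 1 [] (.d 301 3342 270 3373 425)
 (.a 1 [270] (.d 425 3373 301 3404 456)
 (.a 0 [301,425] (.q 364 (.a 1 [] (.d 300 1292 268 1324 428)
 (.a 1 [268] (.d 428 1324 300 1356 460)
 (.a 0 [300,428] (.q 395 (.a 1 [] (.d 427 1355 331 1387 491)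
 (.a 0 [331,427,491] (.q 426 (.a 1 [] (.d 333 3374 302 3405 457)
 (.a 1 [302] (.d 457 3405 333 3436 488)
 (.a 1 [333] (.r 393 392 392 (.d 492 2408 360 2441 525))
 .e))))
 .e)))
 .e))))
 .e)))) (by decide +kernel)

theorem b0_2952 : S (PX [459,464] [425,461,462,463,466]) := S.of (.q 395 (.a 1 [] (.d 393 392 392 393 397)
 (.a 1 [392] (.d 397 393 393 394 398)
 (.a 1 [393] (.d 427 1355 331 1387 491)
 .e)))) (by decide +kernel)

theorem b0_2953 : S (PX [459,464] [426,461,462,463,466]) := S.of (.q 395 (.a 1 [] (.d 393 392 392 393 397)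
 (.a 1 [392] (.d 397 393 393 394 398)
 (.a 1 [393] (.d 427 1355 331 1387 491)
 .e)))) (by decide +kernel)

theorem b0_2954 : S (PX [459,464] [427,461,462,463,466]) := S.of (.q 332 (.a 1 [] (.d 301 3342 270 3373 425)
 (.a 1 [270] (.d 425 3373 301 3404 456)
 (.a 0 [301,425] (.q 428 (.a 1 [] (.d 364 1324 300 1356 460)
 (.a 0 [300,364,460] (.q 397 (.a 1 [] (.d 395 393 393 394 398)
 (.a 1 [393] (.d 490 3438 366 3469 521)
 .e)))
 .e)))
 .e)))) (by decide +kernel)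

theorem b0_2955 : S (PX [459,464] [428,461,462,463,466]) := S.of (.q 395 (.a 1 [] (.d 393 392 392 393 397)
 (.a 1 [392] (.d 397 393 393 394 398)
 (.a 1 [393] (.d 427 1355 331 1387 491)
 .e)))) (by decide +kernel)

theorem b0_2956 : S (PX [459,464] [429,461,462,463,466]) := S.of (.q 395 (.a 1 [] (.d 393 392 392 393 397)
 (.a 1 [392] (.d 397 393 393 394 398)
 (.a 1 [393] (.d 427 1355 331 1387 491)
 .e)))) (by decide +kernel)

theorem b0_2957 : S (PX [459,464] [457,461,462,463,466]) := S.of (.q 395 (.a 1 [] (.d 393 392 392 393 397)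
 (.a 1 [392] (.d 397 393 393 394 398)
 (.a 1 [393] (.d 427 1355 331 1387 491)
 .e)))) (by decide +kernel)

theorem b0_2958 : S (PX [459,464] [461,462,463,466,487]) := S.of (.q 395 (.a 1 [] (.d 393 392 392 393 397)
 (.a 1 [392] (.d 397 393 393 394 398)
 (.a 1 [393] (.d 427 1355 331 1387 491)
 .e)))) (by decide +kernel)

theorem b0_2959 : S (PX [459,464] [461,462,463,466,489]) := S.of (.q 395 (.a 1 [] (.d 393 392 392 393 397)
 (.a 1 [392] (.d 397 393 393 394 398)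
 (.a 1 [393] (.d 427 1355 331 1387 491)
 .e)))) (by decide +kernel)

theorem b0_2960 : S (PX [459,464] [461,462,463,466,493]) := S.of (.q 395 (.a 1 [] (.d 393 392 392 393 397)
 (.a 1 [392] (.d 397 393 393 394 398)
 (.a 1 [393] (.d 427 1355 331 1387 491)
 .e)))) (by decide +kernel)

theorem b0_2961 : S (PX [459,464] [461,462,463,466,549]) := S.of (.q 395 (.a 1 [] (.d 393 392 392 393 397)
 (.a 1 [392] (.d 397 393 393 394 398)
 (.a 1 [393] (.d 427 1355 331 1387 491)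
 .e)))) (by decide +kernel)

theorem b0_2962 : S (PX [459,464] [461,462,463,466,560]) := S.of (.q 395 (.a 1 [] (.d 393 392 392 393 397)
 (.a 1 [392] (.d 397 393 393 394 398)
 (.a 1 [393] (.d 427 1355 331 1387 491)
 .e)))) (by decide +kernel)

theorem b0_2987 : S (PX [464] [462,463,466,488]) := S.of (.q 395 (.a 1 [] (.d 393 392 392 393 397)
 (.a 1 [392] (.d 397 393 393 394 398)
 (.a 0 [393,397] (.q 331 (.a 1 [] (.d 299 1291 267 1323 427)
 (.a 1 [267] (.d 427 1323 299 1355 459)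
 (.a 0 [299,427] (.q 332 (.a 1 [] (.d 301 3342 270 3373 425)
 (.a 1 [270] (.d 425 3373 301 3404 456)
 (.a 0 [301,425] (.q 330 (.a 1 [] (.d 329 328 328 329 333)
 (.a 1 [328] (.d 333 329 329 330 334)
 (.a 1 [329] (.d 297 2312 264 2345 429)
 .e))))
 .e))))
 .e))))
 .e)))) (by decide +kernel)

theorem b0_2988 : S (PX [464] [462,463,466,489]) := S.of (.q 395 (.a 1 [] (.d 393 392 392 393 397)
 (.a 1 [392] (.d 397 393 393 394 398)
 (.a 0 [393,397] (.q 425 (.a 1 [] (.d 332 3373 301 3404 456)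
 (.a 1 [301] (.d 456 3404 332 3435 487)
 (.a 0 [332,456] (.q 330 (.a 1 [] (.d 297 2312 264 2345 429)
 (.a 0 [264,297,429] (.q 426 (.a 1 [] (.d 362 1322 298 1354 458)
 (.a 0 [298,362,458] (.q 427 (.a 1 [] (.d 424 423 423 424 428)
 (.a 1 [423] (.d 459 1355 331 1387 491)
 .e)))
 .e)))
 .e)))
 .e))))
 .e)))) (by decide +kernel)

theorem b0_3040 : S (PX [463] [332,462,464,466]) := S.of (.q 395 (.a 1 [] (.d 393 392 392 393 397)
 (.a 1 [392] (.d 397 393 393 394 398)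
 (.a 0 [393,397] (.q 427 (.a 1 [] (.d 331 1323 299 1355 459)
 (.a 1 [299] (.d 459 1355 331 1387 491)
 (.a 0 [331,459] (.q 330 (.a 1 [] (.d 297 2312 264 2345 429)
 (.a 0 [264,297,429] (.q 361 (.a 1 [] (.d 328 2343 295 2376 460)
 (.a 1 [295] (.d 460 2376 328 2409 493)
 (.a 0 [328,460] (.q 458 (.a 1 [] (.d 365 3406 334 3437 489)
 (.a 1 [334] (.d 489 3437 365 3468 520)
 (.a 1 [365] (.r 362 1354 426 (.d 360 359 359 360 364))
 .e))))
 .e))))
 .e)))
 .e))))
 .e)))) (by decide +kernel)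

theorem b0_3041 : S (PX [463] [365,462,464,466]) := S.of (.q 332 (.a 1 [] (.d 301 3342 270 3373 425)
 (.a 1 [270] (.d 425 3373 301 3404 456)
 (.a 0 [301,425] (.q 364 (.a 1 [] (.d 300 1292 268 1324 428)
 (.a 1 [268] (.d 428 1324 300 1356 460)
 (.a 0 [300,428] (.q 397 (.a 1 [] (.d 395 393 393 394 398)
 (.a 1 [393] (.d 430 2379 331 2412 496)
 .e)))
 .e))))
 .e)))) (by decide +kernel)

theorem b0_3042 : S (PX [463] [425,462,464,466]) := S.of (.q 395 (.a 1 [] (.d 393 392 392 393 397)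
 (.a 1 [392] (.d 397 393 393 394 398)
 (.a 0 [393,397] (.q 427 (.a 1 [] (.d 331 1323 299 1355 459)
 (.a 1 [299] (.d 459 1355 331 1387 491)
 (.a 0 [331,459] (.q 361 (.a 1 [] (.d 328 2343 295 2376 460)
 (.a 1 [295] (.d 460 2376 328 2409 493)
 (.a 0 [328,460] (.q 458 (.a 1 [] (.d 365 3406 334 3437 489)
 (.a 1 [334] (.d 489 3437 365 3468 520)
 (.a 1 [489] (.r 365 3406 334 (.r 362 361 364 (.d 426 1354 330 1386 490)))
 (.a 0 [365] (.q 362 (.a 1 [] (.d 360 359 359 360 364)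
 (.a 1 [359] (.d 426 1354 330 1386 490)
 .e)))
 .e)))))
 .e))))
 .e))))
 .e)))) (by decide +kernel)

theorem b0_3263 : S (PX [464] [332,462,465,466]) := S.of (.q 395 (.a 1 [] (.d 393 392 392 393 397)
 (.a 1 [392] (.d 397 393 393 394 398)
 (.a 0 [393,397] (.q 427 (.a 1 [] (.d 331 1323 299 1355 459)
 (.a 1 [299] (.d 459 1355 331 1387 491)
 (.a 0 [331] (.q 361 (.a 1 [] (.d 328 2343 295 2376 460)
 (.a 1 [295] (.d 460 2376 328 2409 493)
 (.a 0 [328,460] (.q 330 (.a 1 [] (.d 297 2312 264 2345 429)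
 (.a 0 [264,297,429] (.q 362 (.a 1 [] (.d 360 359 359 360 364)
 (.a 1 [359] (.d 364 360 360 361 365)
 (.a 1 [360] (.d 298 1290 266 1322 426)
 .e))))
 .e)))
 .e))))
 (.a 0 [459] (.q 458 (.a 1 [] (.d 365 3406 334 3437 489)
 (.a 1 [334] (.d 489 3437 365 3468 520)
 (.a 0 [365,489] (.q 426 (.a 1 [] (.d 362 1354 330 1386 490)
 (.a 1 [330] (.d 490 1386 362 1418 522)
 (.a 1 [490] (.r 330 1354 362 (.d 297 2312 264 2345 429))
 (.a 0 [362] (.q 457 (.a 1 [] (.d 364 3405 333 3436 488)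
 (.a 1 [333] (.d 488 3436 364 3467 519)
 (.a 0 [364,488] (.q 424 (.a 1 [] (.d 425 423 423 424 428)
 (.a 1 [423] (.r 490 1418 522 (.d 523 2439 391 2472 556))
 .e)))
 .e))))
 .e)))))
 .e))))
 .e)))))
 .e)))) (by decide +kernel)

theorem b0_3264 : S (PX [464] [425,462,465,466]) := S.of (.q 395 (.a 1 [] (.d 393 392 392 393 397)
 (.a 1 [392] (.d 397 393 393 394 398)
 (.a 0 [393,397] (.q 427 (.a 1 [] (.d 331 1323 299 1355 459)
 (.a 1 [299] (.d 459 1355 331 1387 491)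
 (.a 0 [331] (.q 361 (.a 1 [] (.d 328 2343 295 2376 460)
 (.a 1 [295] (.d 460 2376 328 2409 493)
 (.a 0 [328,460] (.q 458 (.a 1 [] (.d 365 3406 334 3437 489)
 (.a 1 [334] (.d 489 3437 365 3468 520)
 (.a 1 [489] (.r 365 3406 334 (.r 362 361 364 (.d 426 1354 330 1386 490)))
 (.a 0 [365] (.q 362 (.a 1 [] (.d 360 359 359 360 364)
 (.a 1 [359] (.d 426 1354 330 1386 490)
 .e)))
 .e)))))
 .e))))
 (.a 0 [459] (.q 330 (.a 1 [] (.d 297 2312 264 2345 429)
 (.a 0 [264,297,429] (.q 361 (.a 1 [] (.d 328 2343 295 2376 460)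
 (.a 1 [295] (.d 460 2376 328 2409 493)
 (.a 1 [328] (.r 299 1323 331 (.d 392 3340 268 3371 423))
 .e))))
 .e)))
 .e)))))
 .e)))) (by decide +kernel)

theorem b0_3265 : S (PX [] [332,463,466]) := S.of (.q 330 (.a 1 [] (.d 297 2312 264 2345 429)
 (.a 1 [264] (.d 429 2345 297 2378 462)
 (.a 0 [297,429] (.q 362 (.a 1 [] (.d 298 1290 266 1322 426)
 (.a 1 [266] (.d 426 1322 298 1354 458)
 (.a 0 [298,426] (.q 361 (.a 1 [] (.d 360 359 359 360 364)
 (.a 1 [359] (.d 364 360 360 361 365)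
 (.a 0 [360,364] (.q 427 (.a 1 [] (.d 328 2343 295 2376 460)
 (.a 1 [295] (.d 460 2376 328 2409 493)
 (.a 0 [328,460] (.q 395 (.a 1 [] (.d 393 392 392 393 397)
 (.a 1 [392] (.d 397 393 393 394 398)
 (.a 1 [393] (.d 331 1323 299 1355 459)
 .e))))
 .e))))
 .e))))
 .e))))
 .e)))) (by decide +kernel)

theorem b0_3266 : S (PX [] [425,463,466]) := S.of (.q 395 (.a 1 [] (.d 393 392 392 393 397)
 (.a 1 [392] (.d 397 393 393 394 398)
 (.a 0 [393,397] (.q 331 (.a 1 [] (.d 299 1291 267 1323 427)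
 (.a 1 [267] (.d 427 1323 299 1355 459)
 (.a 0 [299,427] (.q 330 (.a 1 [] (.d 297 2312 264 2345 429)
 (.a 1 [264] (.d 429 2345 297 2378 462)
 (.a 0 [297] (.q 329 (.a 1 [] (.d 328 327 327 328 332)
 (.a 1 [327] (.d 332 328 328 329 333)
 (.a 0 [328,332] (.q 362 (.a 1 [] (.d 298 1290 266 1322 426)
 (.a 1 [266] (.d 426 1322 298 1354 458)
 (.a 1 [298] (.d 296 2311 263 2344 428)
 .e))))
 .e))))
 (.a 0 [429] (.q 426 (.a 1 [] (.d 362 1322 298 1354 458)
 (.a 0 [298,362,458] (.q 333 (.a 1 [] (.d 332 329 329 330 334)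
 (.a 1 [329] (.d 364 3374 302 3405 457)
 .e)))
 .e)))
 .e)))))
 .e))))
 .e)))) (by decide +kernel)

theorem b0_3267 : S (PX [462] [297,463,464,466]) := S.of (.d 429 2378 330 2411 495) (by decide +kernel)

theorem b0_3268 : S (PX [462] [332,463,464,466]) := S.of (.d 429 2378 330 2411 495) (by decide +kernel)

theorem b0_3269 : S (PX [462] [333,463,464,466]) := S.of (.d 429 2378 330 2411 495) (by decide +kernel)

theorem b0_3270 : S (PX [462] [425,463,464,466]) := S.of (.d 429 2378 330 2411 495) (by decide +kernel)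

theorem b0_3271 : S (PX [462,467] [332,463,464,465,466]) := S.of (.d 429 2378 330 2411 495) (by decide +kernel)

theorem b0_3272 : S (PX [462,467] [425,463,464,465,466]) := S.of (.d 429 2378 330 2411 495) (by decide +kernel)

theorem b0_3273 : S (PX [462,465] [332,463,464,466,467]) := S.of (.d 429 2378 330 2411 495) (by decide +kernel)

theorem b0_3274 : S (PX [462,465] [425,463,464,466,467]) := S.of (.d 429 2378 330 2411 495) (by decide +kernel)

theorem b0_3331 : S (PX [464] [425,463,465,466]) := S.of (.q 395 (.a 1 [] (.d 393 392 392 393 397)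
 (.a 1 [392] (.d 397 393 393 394 398)
 (.a 0 [393,397] (.q 331 (.a 1 [] (.d 299 1291 267 1323 427)
 (.a 1 [267] (.d 427 1323 299 1355 459)
 (.a 0 [299,427] (.q 330 (.a 1 [] (.d 297 2312 264 2345 429)
 (.a 1 [264] (.d 429 2345 297 2378 462)
 (.a 0 [297] (.q 329 (.a 1 [] (.d 328 327 327 328 332)
 (.a 1 [327] (.d 332 328 328 329 333)
 (.a 0 [328,332] (.q 362 (.a 1 [] (.d 298 1290 266 1322 426)
 (.a 1 [266] (.d 426 1322 298 1354 458)
 (.a 1 [298] (.d 296 2311 263 2344 428)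
 .e))))
 .e))))
 (.a 0 [429] (.q 426 (.a 1 [] (.d 362 1322 298 1354 458)
 (.a 0 [298,362,458] (.q 333 (.a 1 [] (.d 332 329 329 330 334)
 (.a 1 [329] (.d 364 3374 302 3405 457)
 .e)))
 .e)))
 .e)))))
 .e))))
 .e)))) (by decide +kernel)

theorem b0_3335 : S (PX [465] [425,463,466,467]) := S.of (.q 395 (.a 1 [] (.d 393 392 392 393 397)
 (.a 1 [392] (.d 397 393 393 394 398)
 (.a 0 [393,397] (.q 331 (.a 1 [] (.d 299 1291 267 1323 427)
 (.a 1 [267] (.d 427 1323 299 1355 459)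
 (.a 0 [299,427] (.q 330 (.a 1 [] (.d 297 2312 264 2345 429)
 (.a 1 [264] (.d 429 2345 297 2378 462)
 (.a 0 [297] (.q 329 (.a 1 [] (.d 328 327 327 328 332)
 (.a 1 [327] (.d 332 328 328 329 333)
 (.a 0 [328,332] (.q 362 (.a 1 [] (.d 298 1290 266 1322 426)
 (.a 1 [266] (.d 426 1322 298 1354 458)
 (.a 1 [298] (.d 296 2311 263 2344 428)
 .e))))
 .e))))
 (.a 0 [429] (.q 426 (.a 1 [] (.d 362 1322 298 1354 458)
 (.a 0 [298,362,458] (.q 333 (.a 1 [] (.d 332 329 329 330 334)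
 (.a 1 [329] (.d 364 3374 302 3405 457)
 .e)))
 .e)))
 .e)))))
 .e))))
 .e)))) (by decide +kernel)

theorem b0_3352 : S (PX [463,467] [332,462,465,466,469]) := S.of (.q 395 (.a 1 [] (.d 393 392 392 393 397)
 (.a 1 [392] (.d 397 393 393 394 398)
 (.a 0 [393,397] (.q 427 (.a 1 [] (.d 331 1323 299 1355 459)
 (.a 1 [299] (.d 459 1355 331 1387 491)
 (.a 0 [331,459] (.q 458 (.a 1 [] (.d 365 3406 334 3437 489)
 (.a 1 [334] (.d 489 3437 365 3468 520)
 (.a 0 [365,489] (.q 361 (.a 1 [] (.d 328 2343 295 2376 460)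
 (.a 1 [295] (.d 460 2376 328 2409 493)
 (.a 0 [328,460] (.q 330 (.a 1 [] (.d 297 2312 264 2345 429)
 (.a 1 [264] (.r 362 1354 426 (.d 360 359 359 360 364))
 .e)))
 .e))))
 .e))))
 .e))))
 .e)))) (by decide +kernel)

theorem b0_3353 : S (PX [463,467] [425,462,465,466,469]) := S.of (.q 395 (.a 1 [] (.d 393 392 392 393 397)
 (.a 1 [392] (.d 397 393 393 394 398)
 (.a 0 [393,397] (.q 427 (.a 1 [] (.d 331 1323 299 1355 459)
 (.a 1 [299] (.d 459 1355 331 1387 491)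
 (.a 0 [331,459] (.q 361 (.a 1 [] (.d 328 2343 295 2376 460)
 (.a 1 [295] (.d 460 2376 328 2409 493)
 (.a 0 [328,460] (.q 458 (.a 1 [] (.d 365 3406 334 3437 489)
 (.a 1 [334] (.d 489 3437 365 3468 520)
 (.a 1 [489] (.r 365 3406 334 (.r 362 361 364 (.d 426 1354 330 1386 490)))
 (.a 0 [365] (.q 362 (.a 1 [] (.d 360 359 359 360 364)
 (.a 1 [359] (.d 426 1354 330 1386 490)
 .e)))
 .e)))))
 .e))))
 .e))))
 .e)))) (by decide +kernel)

theorem b0_3356 : S (PX [467] [463,465,466,469]) := S.of (.q 462 (.a 1 [] (.d 429 2378 330 2411 495)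
 (.a 0 [330,429,495] (.q 395 (.a 1 [] (.d 393 392 392 393 397)
 (.a 1 [392] (.d 397 393 393 394 398)
 (.a 0 [393] (.q 427 (.a 1 [] (.d 331 1323 299 1355 459)
 (.a 1 [299] (.d 459 1355 331 1387 491)
 (.a 0 [331,459] (.q 332 (.a 1 [] (.d 301 3342 270 3373 425)
 (.a 1 [270] (.d 425 3373 301 3404 456)
 (.a 0 [301,425] (.q 365 (.a 1 [] (.d 334 3375 303 3406 458)
 (.a 1 [303] (.d 458 3406 334 3437 489)
 (.a 1 [334] (.r 398 394 397 (.d 431 2347 299 2380 464))
 .e))))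
 .e))))
 .e))))
 (.a 0 [397] (.q 331 (.a 1 [] (.d 299 1291 267 1323 427)
 (.a 1 [267] (.d 427 1323 299 1355 459)
 (.a 0 [299,427] (.q 425 (.a 1 [] (.d 332 3373 301 3404 456)
 (.a 1 [301] (.d 456 3404 332 3435 487)
 (.a 0 [332,456] (.r 393 392 392 (.q 361 (.a 1 [] (.d 329 1321 297 1353 457)
 (.a 1 [297] (.d 457 1353 329 1385 489)
 (.a 0 [329,457] (.q 362 (.a 1 [] (.d 360 359 359 360 364)
 (.a 1 [359] (.d 364 360 360 361 365)
 (.a 1 [360] (.d 300 3341 269 3372 424)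
 .e))))
 .e)))))
 .e))))
 .e))))
 .e)))))
 .e))) (by decide +kernel)

theorem b0_3408 : S (PX [400,532] [268,367,466,499,598]) := S.of (.q 395 (.a 1 [] (.d 393 392 392 393 397)
 (.a 1 [392] (.d 397 393 393 394 398)
 (.a 0 [393,397] (.q 427 (.a 1 [] (.d 331 1323 299 1355 459)
 (.a 1 [299] (.d 459 1355 331 1387 491)
 (.a 0 [331,459] (.q 330 (.a 1 [] (.d 297 2312 264 2345 429)
 (.a 1 [264] (.d 429 2345 297 2378 462)
 (.a 0 [297,429] (.q 365 (.a 1 [] (.d 334 3375 303 3406 458)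
 (.a 1 [303] (.d 458 3406 334 3437 489)
 (.a 1 [334] (.r 458 3437 489 (.r 362 1354 426 (.d 364 361 361 362 366)))
 (.a 0 [458] (.q 362 (.a 1 [] (.d 364 361 361 362 366)
 (.a 1 [361] (.d 298 1290 266 1322 426)
 .e)))
 .e)))))
 .e))))
 .e))))
 .e)))) (by decide +kernel)

theorem v0_218 : VW (PX [434] [370,402,466]) := VW.of base nl_ok fl_ok .nil
  [(274, (.cons 306 338 .nil (.cons 338 306 .nil .nil))), (306, (.cons 274 338 .nil (.cons 338 274 .nil .nil))), (338, (.cons 274 306 .nil (.cons 306 274 .nil .nil)))]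
  []
  (by decide +kernel) trivial

theorem v0_375 : VW (PX [370,530] [402,434,466,498]) := VW.of base nl_ok fl_ok .nil
  []
  []
  (by decide +kernel) trivial

theorem v0_376 : VW (PX [370,498] [402,434,466,530]) := VW.of base nl_ok fl_ok .nil
  []
  []
  (by decide +kernel) trivial

theorem w0_377_498 : S (PX [370] [402,434,466,498]) := VW.play 530 (PX [370,530] [402,434,466,498]) (by decide +kernel) v0_375

theorem w0_377_530 : S (PX [370] [402,434,466,530]) := VW.play 498 (PX [370,498] [402,434,466,530]) (by decide +kernel) v0_376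

theorem v0_377 : VW (PX [370] [402,434,466]) := VW.of base nl_ok fl_ok (.cons 498 530 .nil (.cons 530 498 .nil .nil))
  [(562, (.cons 498 530 .nil (.cons 530 498 .nil .nil))), (594, (.cons 498 530 .nil (.cons 530 498 .nil .nil))), (626, (.cons 498 530 .nil (.cons 530 498 .nil .nil)))]
  [([498], (PX [370] [402,434,466,498])), ([530], (PX [370] [402,434,466,530]))]
  (by decide +kernel) ⟨w0_377_498, w0_377_530, trivial⟩

theorem v0_450 : VW (PX [434] [402,466,498]) := VW.of base nl_ok fl_ok .nil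
  [(530, (.cons 562 594 .nil (.cons 594 562 .nil .nil))), (562, (.cons 530 594 .nil (.cons 594 530 .nil .nil))), (594, (.cons 530 562 .nil (.cons 562 530 .nil .nil)))]
  []
  (by decide +kernel) trivial

theorem w0_453_370 : S (PX [] [370,402,466]) := VW.play 434 (PX [434] [370,402,466]) (by decide +kernel) v0_218

theorem w0_453_434 : S (PX [] [402,434,466]) := VW.play 370 (PX [370] [402,434,466]) (by decide +kernel) v0_377

theorem w0_453_498 : S (PX [] [402,466,498]) := VW.play 434 (PX [434] [402,466,498]) (by decide +kernel) v0_450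

theorem v0_453 : VW (PX [] [402,466]) := VW.of base nl_ok fl_ok .nil
  [(338, (.cons 370 434 (.cons 274 306 .nil (.cons 306 274 .nil .nil)) (.cons 434 370 (.cons 498 530 .nil (.cons 530 498 .nil .nil)) .nil))), (530, (.cons 434 498 (.cons 338 370 .nil (.cons 370 338 .nil .nil)) (.cons 498 434 (.cons 562 594 .nil (.cons 594 562 .nil .nil)) .nil)))]
  [([370], (PX [] [370,402,466])), ([434], (PX [] [402,434,466])), ([498], (PX [] [402,466,498]))]
  (by decide +kernel) ⟨w0_453_370, w0_453_434, w0_453_498, trivial⟩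

theorem v0_947 : VW (PX [435] [373,404,466]) := VW.of base nl_ok fl_ok .nil
  [(280, (.cons 311 342 .nil (.cons 342 311 .nil .nil))), (311, (.cons 280 342 .nil (.cons 342 280 .nil .nil))), (342, (.cons 280 311 .nil (.cons 311 280 .nil .nil)))]
  []
  (by decide +kernel) trivial

theorem v0_991 : VW (PX [373,497] [342,404,435,466]) := VW.of base nl_ok fl_ok .nil
  []
  []
  (by decide +kernel) trivial

theorem v0_961 : VW (PX [342,497] [373,404,435,466]) := VW.of base nl_ok fl_ok .nil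
  []
  []
  (by decide +kernel) trivial

theorem w0_992_342 : S (PX [497] [342,404,435,466]) := VW.play 373 (PX [373,497] [342,404,435,466]) (by decide +kernel) v0_991

theorem w0_992_373 : S (PX [497] [373,404,435,466]) := VW.play 342 (PX [342,497] [373,404,435,466]) (by decide +kernel) v0_961

theorem v0_992 : VW (PX [497] [404,435,466]) := VW.of base nl_ok fl_ok (.cons 342 373 .nil (.cons 373 342 .nil .nil))
  [(249, (.cons 342 373 .nil (.cons 373 342 .nil .nil))), (280, (.cons 342 373 .nil (.cons 373 342 .nil .nil))), (311, (.cons 342 373 .nil (.cons 373 342 .nil .nil)))]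
  [([342], (PX [497] [342,404,435,466])), ([373], (PX [497] [373,404,435,466]))]
  (by decide +kernel) ⟨w0_992_342, w0_992_373, trivial⟩

theorem v0_993 : VW (PX [435] [404,466,497]) := VW.of base nl_ok fl_ok .nil
  [(528, (.cons 559 590 .nil (.cons 590 559 .nil .nil))), (559, (.cons 528 590 .nil (.cons 590 528 .nil .nil))), (590, (.cons 528 559 .nil (.cons 559 528 .nil .nil)))]
  []
  (by decide +kernel) trivial

theorem w0_997_373 : S (PX [] [373,404,466]) := VW.play 435 (PX [435] [373,404,466]) (by decide +kernel) v0_947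

theorem w0_997_435 : S (PX [] [404,435,466]) := VW.play 497 (PX [497] [404,435,466]) (by decide +kernel) v0_992

theorem w0_997_497 : S (PX [] [404,466,497]) := VW.play 435 (PX [435] [404,466,497]) (by decide +kernel) v0_993

theorem v0_997 : VW (PX [] [404,466]) := VW.of base nl_ok fl_ok .nil
  [(342, (.cons 373 435 (.cons 280 311 .nil (.cons 311 280 .nil .nil)) (.cons 435 373 (.cons 497 528 .nil (.cons 528 497 .nil .nil)) .nil))), (528, (.cons 435 497 (.cons 342 373 .nil (.cons 373 342 .nil .nil)) (.cons 497 435 (.cons 559 590 .nil (.cons 590 559 .nil .nil)) .nil)))]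
  [([373], (PX [] [373,404,466])), ([435], (PX [] [404,435,466])), ([497], (PX [] [404,466,497]))]
  (by decide +kernel) ⟨w0_997_373, w0_997_435, w0_997_497, trivial⟩

theorem v0_924 : VW (PX [400] [334,433,466]) := VW.of base nl_ok fl_ok .nil
  [(499, (.cons 532 565 .nil (.cons 565 532 .nil .nil))), (532, (.cons 499 565 .nil (.cons 565 499 .nil .nil))), (565, (.cons 499 532 .nil (.cons 532 499 .nil .nil)))]
  [([235], (PX [400] [235,334,433,466])), ([332], (PX [400] [332,334,433,466])), ([367], (PX [400] [334,367,433,466])), ([457], (PX [400] [334,433,457,466]))]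
  (by decide +kernel) ⟨b0_2348, b0_2349, b0_2350, b0_2351, trivial⟩

theorem v0_931 : VW (PX [400] [367,433,466]) := VW.of base nl_ok fl_ok .nil
  [(499, (.cons 532 565 .nil (.cons 565 532 .nil .nil))), (532, (.cons 499 565 .nil (.cons 565 499 .nil .nil))), (565, (.cons 499 532 .nil (.cons 532 499 .nil .nil)))]
  [([268], (PX [400] [268,367,433,466]))]
  (by decide +kernel) ⟨b0_2420, trivial⟩

theorem v0_967 : VW (PX [367,532] [400,433,466,499]) := VW.of base nl_ok fl_ok .nil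
  []
  [([401], (PX [367,532] [400,401,433,466,499]))]
  (by decide +kernel) ⟨b0_2518, trivial⟩

theorem v0_968 : VW (PX [367,499] [400,433,466,532]) := VW.of base nl_ok fl_ok .nil
  []
  [([401], (PX [367,499] [400,401,433,466,532]))]
  (by decide +kernel) ⟨b0_2519, trivial⟩

theorem w0_969_499 : S (PX [367] [400,433,466,499]) := VW.play 532 (PX [367,532] [400,433,466,499]) (by decide +kernel) v0_967

theorem w0_969_532 : S (PX [367] [400,433,466,532]) := VW.play 499 (PX [367,499] [400,433,466,532]) (by decide +kernel) v0_968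

theorem v0_969 : VW (PX [367] [400,433,466]) := VW.of base nl_ok fl_ok (.cons 499 532 .nil (.cons 532 499 .nil .nil))
  [(565, (.cons 499 532 .nil (.cons 532 499 .nil .nil))), (598, (.cons 499 532 .nil (.cons 532 499 .nil .nil))), (631, (.cons 499 532 .nil (.cons 532 499 .nil .nil)))]
  [([401], (PX [367] [400,401,433,466])), ([499], (PX [367] [400,433,466,499])), ([532], (PX [367] [400,433,466,532]))]
  (by decide +kernel) ⟨b0_2517, w0_969_499, w0_969_532, trivial⟩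

theorem v0_998 : VW (PX [400,565] [433,466,499,532]) := VW.of base nl_ok fl_ok .nil
  []
  []
  (by decide +kernel) trivial

theorem v0_999 : VW (PX [400,532] [433,466,499,565]) := VW.of base nl_ok fl_ok .nil
  []
  []
  (by decide +kernel) trivial

theorem w0_1000_532 : S (PX [400] [433,466,499,532]) := VW.play 565 (PX [400,565] [433,466,499,532]) (by decide +kernel) v0_998

theorem w0_1000_565 : S (PX [400] [433,466,499,565]) := VW.play 532 (PX [400,532] [433,466,499,565]) (by decide +kernel) v0_999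

theorem v0_1000 : VW (PX [400] [433,466,499]) := VW.of base nl_ok fl_ok (.cons 532 565 .nil (.cons 565 532 .nil .nil))
  [(598, (.cons 532 565 .nil (.cons 565 532 .nil .nil))), (631, (.cons 532 565 .nil (.cons 565 532 .nil .nil))), (664, (.cons 532 565 .nil (.cons 565 532 .nil .nil)))]
  [([532], (PX [400] [433,466,499,532])), ([565], (PX [400] [433,466,499,565]))]
  (by decide +kernel) ⟨w0_1000_532, w0_1000_565, trivial⟩

theorem v0_1001 : VW (PX [400,499] [433,466,532,565]) := VW.of base nl_ok fl_ok .nil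
  [(598, (.cons 631 664 .nil (.cons 664 631 .nil .nil))), (631, (.cons 598 664 .nil (.cons 664 598 .nil .nil))), (664, (.cons 598 631 .nil (.cons 631 598 .nil .nil)))]
  []
  (by decide +kernel) trivial

theorem w0_1002_499 : S (PX [400] [433,466,499,532]) := VW.play 565 (PX [400,565] [433,466,499,532]) (by decide +kernel) v0_998

theorem w0_1002_565 : S (PX [400] [433,466,532,565]) := VW.play 499 (PX [400,499] [433,466,532,565]) (by decide +kernel) v0_1001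

theorem v0_1002 : VW (PX [400] [433,466,532]) := VW.of base nl_ok fl_ok (.cons 499 565 .nil (.cons 565 499 .nil .nil))
  [(598, (.cons 499 565 .nil (.cons 565 499 (.cons 631 664 .nil (.cons 664 631 .nil .nil)) .nil))), (631, (.cons 499 565 .nil (.cons 565 499 (.cons 598 664 .nil (.cons 664 598 .nil .nil)) .nil))), (664, (.cons 499 565 .nil (.cons 565 499 (.cons 598 631 .nil (.cons 631 598 .nil .nil)) .nil)))]
  [([499], (PX [400] [433,466,499,532])), ([565], (PX [400] [433,466,532,565]))]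
  (by decide +kernel) ⟨w0_1002_499, w0_1002_565, trivial⟩

theorem v0_1007 : VW (PX [367,499] [334,433,466,565]) := VW.of base nl_ok fl_ok .nil
  []
  [([235], (PX [367,499] [235,334,433,466,565])), ([332], (PX [367,499] [332,334,433,466,565])), ([457], (PX [367,499] [334,433,457,466,565]))]
  (by decide +kernel) ⟨b0_2711, b0_2712, b0_2713, trivial⟩

theorem v0_1009 : VW (PX [334,499] [367,433,466,565]) := VW.of base nl_ok fl_ok .nil
  []
  []
  (by decide +kernel) trivial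

theorem v0_1012 : VW (PX [367,499] [400,433,466,565]) := VW.of base nl_ok fl_ok .nil
  []
  [([401], (PX [367,499] [400,401,433,466,565]))]
  (by decide +kernel) ⟨b0_2720, trivial⟩

theorem w0_1013_334 : S (PX [499] [334,433,466,565]) := VW.play 367 (PX [367,499] [334,433,466,565]) (by decide +kernel) v0_1007

theorem w0_1013_367 : S (PX [499] [367,433,466,565]) := VW.play 334 (PX [334,499] [367,433,466,565]) (by decide +kernel) v0_1009

theorem w0_1013_400 : S (PX [499] [400,433,466,565]) := VW.play 367 (PX [367,499] [400,433,466,565]) (by decide +kernel) v0_1012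

theorem v0_1013 : VW (PX [499] [433,466,565]) := VW.of base nl_ok fl_ok .nil
  []
  [([334], (PX [499] [334,433,466,565])), ([367], (PX [499] [367,433,466,565])), ([400], (PX [499] [400,433,466,565]))]
  (by decide +kernel) ⟨w0_1013_334, w0_1013_367, w0_1013_400, trivial⟩

theorem w0_1021_334 : S (PX [] [334,433,466]) := VW.play 400 (PX [400] [334,433,466]) (by decide +kernel) v0_924

theorem w0_1021_367 : S (PX [] [367,433,466]) := VW.play 400 (PX [400] [367,433,466]) (by decide +kernel) v0_931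

theorem w0_1021_400 : S (PX [] [400,433,466]) := VW.play 367 (PX [367] [400,433,466]) (by decide +kernel) v0_969

theorem w0_1021_499 : S (PX [] [433,466,499]) := VW.play 400 (PX [400] [433,466,499]) (by decide +kernel) v0_1000

theorem w0_1021_532 : S (PX [] [433,466,532]) := VW.play 400 (PX [400] [433,466,532]) (by decide +kernel) v0_1002

theorem w0_1021_565 : S (PX [] [433,466,565]) := VW.play 499 (PX [499] [433,466,565]) (by decide +kernel) v0_1013

theorem v0_1021 : VW (PX [] [433,466]) := VW.of base nl_ok fl_ok .nil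
  []
  [([334], (PX [] [334,433,466])), ([367], (PX [] [367,433,466])), ([400], (PX [] [400,433,466])), ([499], (PX [] [433,466,499])), ([532], (PX [] [433,466,532])), ([565], (PX [] [433,466,565]))]
  (by decide +kernel) ⟨w0_1021_334, w0_1021_367, w0_1021_400, w0_1021_499, w0_1021_532, w0_1021_565, trivial⟩

theorem v0_650 : VW (PX [402] [370,434,466]) := VW.of base nl_ok fl_ok .nil
  [(498, (.cons 530 562 .nil (.cons 562 530 .nil .nil))), (530, (.cons 498 562 .nil (.cons 562 498 .nil .nil))), (562, (.cons 498 530 .nil (.cons 530 498 .nil .nil)))]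
  []
  (by decide +kernel) trivial

theorem v0_811 : VW (PX [402,562] [434,466,498,530]) := VW.of base nl_ok fl_ok .nil
  []
  []
  (by decide +kernel) trivial

theorem v0_812 : VW (PX [402,530] [434,466,498,562]) := VW.of base nl_ok fl_ok .nil
  []
  []
  (by decide +kernel) trivial

theorem w0_813_530 : S (PX [402] [434,466,498,530]) := VW.play 562 (PX [402,562] [434,466,498,530]) (by decide +kernel) v0_811

theorem w0_813_562 : S (PX [402] [434,466,498,562]) := VW.play 530 (PX [402,530] [434,466,498,562]) (by decide +kernel) v0_812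

theorem v0_813 : VW (PX [402] [434,466,498]) := VW.of base nl_ok fl_ok (.cons 530 562 .nil (.cons 562 530 .nil .nil))
  [(594, (.cons 530 562 .nil (.cons 562 530 .nil .nil))), (626, (.cons 530 562 .nil (.cons 562 530 .nil .nil))), (658, (.cons 530 562 .nil (.cons 562 530 .nil .nil)))]
  [([530], (PX [402] [434,466,498,530])), ([562], (PX [402] [434,466,498,562]))]
  (by decide +kernel) ⟨w0_813_530, w0_813_562, trivial⟩

theorem v0_818 : VW (PX [498] [434,466,530]) := VW.of base nl_ok fl_ok .nil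
  [(338, (.cons 370 402 .nil (.cons 402 370 .nil .nil))), (370, (.cons 338 402 .nil (.cons 402 338 .nil .nil))), (402, (.cons 338 370 .nil (.cons 370 338 .nil .nil)))]
  []
  (by decide +kernel) trivial

theorem w0_830_370 : S (PX [] [370,434,466]) := VW.play 402 (PX [402] [370,434,466]) (by decide +kernel) v0_650

theorem w0_830_402 : S (PX [] [402,434,466]) := VW.play 370 (PX [370] [402,434,466]) (by decide +kernel) v0_377

theorem w0_830_498 : S (PX [] [434,466,498]) := VW.play 402 (PX [402] [434,466,498]) (by decide +kernel) v0_813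

theorem w0_830_530 : S (PX [] [434,466,530]) := VW.play 498 (PX [498] [434,466,530]) (by decide +kernel) v0_818

theorem v0_830 : VW (PX [] [434,466]) := VW.of base nl_ok fl_ok .nil
  [(338, (.cons 370 402 .nil (.cons 402 370 (.cons 498 530 .nil (.cons 530 498 .nil .nil)) .nil))), (562, (.cons 498 530 (.cons 370 402 .nil (.cons 402 370 .nil .nil)) (.cons 530 498 .nil .nil)))]
  [([370], (PX [] [370,434,466])), ([402], (PX [] [402,434,466])), ([498], (PX [] [434,466,498])), ([530], (PX [] [434,466,530]))]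
  (by decide +kernel) ⟨w0_830_370, w0_830_402, w0_830_498, w0_830_530, trivial⟩

theorem v0_963 : VW (PX [404] [373,435,466]) := VW.of base nl_ok fl_ok .nil
  [(497, (.cons 528 559 .nil (.cons 559 528 .nil .nil))), (528, (.cons 497 559 .nil (.cons 559 497 .nil .nil))), (559, (.cons 497 528 .nil (.cons 528 497 .nil .nil)))]
  []
  (by decide +kernel) trivial

theorem v0_1022 : VW (PX [404,528] [373,435,466,497]) := VW.of base nl_ok fl_ok .nil
  []
  []
  (by decide +kernel) trivial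

theorem v0_995 : VW (PX [373,528] [404,435,466,497]) := VW.of base nl_ok fl_ok .nil
  []
  []
  (by decide +kernel) trivial

theorem w0_1023_373 : S (PX [528] [373,435,466,497]) := VW.play 404 (PX [404,528] [373,435,466,497]) (by decide +kernel) v0_1022

theorem w0_1023_404 : S (PX [528] [404,435,466,497]) := VW.play 373 (PX [373,528] [404,435,466,497]) (by decide +kernel) v0_995

theorem v0_1023 : VW (PX [528] [435,466,497]) := VW.of base nl_ok fl_ok (.cons 373 404 .nil (.cons 404 373 .nil .nil))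
  [(280, (.cons 373 404 .nil (.cons 404 373 .nil .nil))), (311, (.cons 373 404 .nil (.cons 404 373 .nil .nil))), (342, (.cons 373 404 .nil (.cons 404 373 .nil .nil)))]
  [([373], (PX [528] [373,435,466,497])), ([404], (PX [528] [404,435,466,497]))]
  (by decide +kernel) ⟨w0_1023_373, w0_1023_404, trivial⟩

theorem v0_1024 : VW (PX [497] [435,466,528]) := VW.of base nl_ok fl_ok .nil
  [(342, (.cons 373 404 .nil (.cons 404 373 .nil .nil))), (373, (.cons 342 404 .nil (.cons 404 342 .nil .nil))), (404, (.cons 342 373 .nil (.cons 373 342 .nil .nil)))]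
  []
  (by decide +kernel) trivial

theorem w0_1025_373 : S (PX [] [373,435,466]) := VW.play 404 (PX [404] [373,435,466]) (by decide +kernel) v0_963

theorem w0_1025_404 : S (PX [] [404,435,466]) := VW.play 497 (PX [497] [404,435,466]) (by decide +kernel) v0_992

theorem w0_1025_497 : S (PX [] [435,466,497]) := VW.play 528 (PX [528] [435,466,497]) (by decide +kernel) v0_1023

theorem w0_1025_528 : S (PX [] [435,466,528]) := VW.play 497 (PX [497] [435,466,528]) (by decide +kernel) v0_1024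

theorem v0_1025 : VW (PX [] [435,466]) := VW.of base nl_ok fl_ok .nil
  [(342, (.cons 373 404 .nil (.cons 404 373 (.cons 497 528 .nil (.cons 528 497 .nil .nil)) .nil))), (559, (.cons 497 528 (.cons 373 404 .nil (.cons 404 373 .nil .nil)) (.cons 528 497 .nil .nil)))]
  [([373], (PX [] [373,435,466])), ([404], (PX [] [404,435,466])), ([497], (PX [] [435,466,497])), ([528], (PX [] [435,466,528]))]
  (by decide +kernel) ⟨w0_1025_373, w0_1025_404, w0_1025_497, w0_1025_528, trivial⟩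

theorem v0_1027 : VW (PX [461,464] [459,462,463,466]) := VW.of base nl_ok fl_ok .nil
  []
  (([169], (PX [461,464] [169,459,462,463,466])) :: ([202], (PX [461,464] [202,459,462,463,466])) :: ([235], (PX [461,464] [235,459,462,463,466])) :: ([236], (PX [461,464] [236,459,462,463,466])) :: ([237], (PX [461,464] [237,459,462,463,466])) :: ([264], (PX [461,464] [264,459,462,463,466])) :: ([266], (PX [461,464] [266,459,462,463,466])) :: ([269], (PX [461,464] [269,459,462,463,466])) :: ([297], (PX [461,464] [297,459,462,463,466])) :: ([298], (PX [461,464] [298,459,462,463,466])) :: ([299], (PX [461,464] [299,459,462,463,466])) :: ([300], (PX [461,464] [300,459,462,463,466])) :: ([301], (PX [461,464] [301,459,462,463,466])) :: ([302], (PX [461,464] [302,459,462,463,466])) :: ([303], (PX [461,464] [303,459,462,463,466])) :: ([304], (PX [461,464] [304,459,462,463,466])) :: ([328], (PX [461,464] [328,459,462,463,466]))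 :: ([330], (PX [461,464] [330,459,462,463,466])) :: ([332], (PX [461,464] [332,459,462,463,466])) :: ([333], (PX [461,464] [333,459,462,463,466])) :: ([335], (PX [461,464] [335,459,462,463,466])) :: ([357], (PX [461,464] [357,459,462,463,466])) :: ([359], (PX [461,464] [359,459,462,463,466])) :: ([360], (PX [461,464] [360,459,462,463,466])) :: ([361], (PX [461,464] [361,459,462,463,466])) :: ([362], (PX [461,464] [362,459,462,463,466])) :: ([364], (PX [461,464] [364,459,462,463,466])) :: ([366], (PX [461,464] [366,459,462,463,466])) :: ([367], (PX [461,464] [367,459,462,463,466])) :: ([393], (PX [461,464] [393,459,462,463,466])) :: ([397], (PX [461,464] [397,459,462,463,466])) :: ([400], (PX [461,464] [400,459,462,463,466])) :: ([422], (PX [461,464] [422,459,462,463,466])) :: ([424], (PX [461,464] [424,459,462,463,466])) :: ([425], (PX [461,464] [425,459,462,463,466])) :: ([426], (PX [461,464] [426,459,462,463,466]))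 :: ([427], (PX [461,464] [427,459,462,463,466])) :: ([428], (PX [461,464] [428,459,462,463,466])) :: ([429], (PX [461,464] [429,459,462,463,466])) :: ([455], (PX [461,464] [455,459,462,463,466])) :: ([456], (PX [461,464] [456,459,462,463,466])) :: ([457], (PX [461,464] [457,459,462,463,466])) :: ([458], (PX [461,464] [458,459,462,463,466])) :: ([460], (PX [461,464] [459,460,462,463,466])) :: ([488], (PX [461,464] [459,462,463,466,488])) :: ([490], (PX [461,464] [459,462,463,466,490])) :: ([492], (PX [461,464] [459,462,463,466,492])) :: ([518], (PX [461,464] [459,462,463,466,518])) :: ([521], (PX [461,464] [459,462,463,466,521])) :: ([549], (PX [461,464] [459,462,463,466,549])) :: ([552], (PX [461,464] [459,462,463,466,552])) :: [])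
  (by decide +kernel) ⟨b0_2791, b0_2792, b0_2793, b0_2794, b0_2795, b0_2796, b0_2797, b0_2798, b0_2799, b0_2800, b0_2801, b0_2802, b0_2803, b0_2804, b0_2805, b0_2806, b0_2807, b0_2808, b0_2809, b0_2810, b0_2811, b0_2812, b0_2813, b0_2814, b0_2815, b0_2816, b0_2817, b0_2818, b0_2819, b0_2820, b0_2821, b0_2822, b0_2823, b0_2824, b0_2825, b0_2826, b0_2827, b0_2828, b0_2829, b0_2830, b0_2831, b0_2832, b0_2833, b0_2834, b0_2835, b0_2836, b0_2837, b0_2838, b0_2839, b0_2840, b0_2841, trivial⟩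

theorem v0_1029 : VW (PX [459,464] [461,462,463,466]) := VW.of base nl_ok fl_ok .nil
  []
  (([297], (PX [459,464] [297,461,462,463,466])) :: ([298], (PX [459,464] [298,461,462,463,466])) :: ([299], (PX [459,464] [299,461,462,463,466])) :: ([300], (PX [459,464] [300,461,462,463,466])) :: ([301], (PX [459,464] [301,461,462,463,466])) :: ([328], (PX [459,464] [328,461,462,463,466])) :: ([329], (PX [459,464] [329,461,462,463,466])) :: ([330], (PX [459,464] [330,461,462,463,466])) :: ([332], (PX [459,464] [332,461,462,463,466])) :: ([333], (PX [459,464] [333,461,462,463,466])) :: ([365], (PX [459,464] [365,461,462,463,466])) :: ([395], (PX [459,464] [395,461,462,463,466])) :: ([397], (PX [459,464] [397,461,462,463,466])) :: ([425], (PX [459,464] [425,461,462,463,466])) :: ([426], (PX [459,464] [426,461,462,463,466])) :: ([427], (PX [459,464] [427,461,462,463,466])) :: ([428], (PX [459,464] [428,461,462,463,466]))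 :: ([429], (PX [459,464] [429,461,462,463,466])) :: ([457], (PX [459,464] [457,461,462,463,466])) :: ([487], (PX [459,464] [461,462,463,466,487])) :: ([489], (PX [459,464] [461,462,463,466,489])) :: ([493], (PX [459,464] [461,462,463,466,493])) :: ([549], (PX [459,464] [461,462,463,466,549])) :: ([560], (PX [459,464] [461,462,463,466,560])) :: [])
  (by decide +kernel) ⟨b0_2939, b0_2940, b0_2941, b0_2942, b0_2943, b0_2944, b0_2945, b0_2946, b0_2947, b0_2948, b0_2949, b0_2950, b0_2951, b0_2952, b0_2953, b0_2954, b0_2955, b0_2956, b0_2957, b0_2958, b0_2959, b0_2960, b0_2961, b0_2962, trivial⟩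

theorem w0_1031_459 : S (PX [464] [459,462,463,466]) := VW.play 461 (PX [461,464] [459,462,463,466]) (by decide +kernel) v0_1027

theorem w0_1031_461 : S (PX [464] [461,462,463,466]) := VW.play 459 (PX [459,464] [461,462,463,466]) (by decide +kernel) v0_1029

theorem v0_1031 : VW (PX [464] [462,463,466]) := VW.of base nl_ok fl_ok .nil
  []
  (([332], (PX [464] [332,462,463,466])) :: ([364], (PX [464] [364,462,463,466])) :: ([365], (PX [464] [365,462,463,466])) :: ([397], (PX [464] [397,462,463,466])) :: ([425], (PX [464] [425,462,463,466])) :: ([427], (PX [464] [427,462,463,466])) :: ([428], (PX [464] [428,462,463,466])) :: ([429], (PX [464] [429,462,463,466])) :: ([457], (PX [464] [457,462,463,466])) :: ([459], (PX [464] [459,462,463,466])) :: ([460], (PX [464] [460,462,463,466])) :: ([461], (PX [464] [461,462,463,466])) :: ([488], (PX [464] [462,463,466,488])) :: ([489], (PX [464] [462,463,466,489])) :: [])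
  (by decide +kernel) ⟨b0_2732, b0_2733, b0_2734, b0_2735, b0_2736, b0_2737, b0_2738, b0_2739, b0_2740, w0_1031_459, b0_2938, w0_1031_461, b0_2987, b0_2988, trivial⟩

theorem v0_1037 : VW (PX [463] [462,464,466]) := VW.of base nl_ok fl_ok .nil
  [(465, (.cons 467 468 .nil (.cons 468 467 .nil .nil))), (467, (.cons 465 468 .nil (.cons 468 465 (.cons 469 470 .nil (.cons 470 469 .nil .nil)) .nil))), (468, (.cons 465 467 .nil (.cons 467 465 (.cons 469 470 .nil (.cons 470 469 .nil .nil)) .nil)))]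
  [([332], (PX [463] [332,462,464,466])), ([365], (PX [463] [365,462,464,466])), ([425], (PX [463] [425,462,464,466]))]
  (by decide +kernel) ⟨b0_3040, b0_3041, b0_3042, trivial⟩

theorem v0_1051 : VW (PX [464] [462,465,466]) := VW.of base nl_ok fl_ok .nil
  [(467, (.cons 468 469 .nil (.cons 469 468 .nil .nil))), (468, (.cons 467 469 .nil (.cons 469 467 .nil .nil))), (469, (.cons 467 468 .nil (.cons 468 467 .nil .nil)))]
  [([332], (PX [464] [332,462,465,466])), ([425], (PX [464] [425,462,465,466]))]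
  (by decide +kernel) ⟨b0_3263, b0_3264, trivial⟩

theorem w0_1052_463 : S (PX [] [462,463,466]) := VW.play 464 (PX [464] [462,463,466]) (by decide +kernel) v0_1031

theorem w0_1052_464 : S (PX [] [462,464,466]) := VW.play 463 (PX [463] [462,464,466]) (by decide +kernel) v0_1037

theorem w0_1052_465 : S (PX [] [462,465,466]) := VW.play 464 (PX [464] [462,465,466]) (by decide +kernel) v0_1051

theorem v0_1052 : VW (PX [] [462,466]) := VW.of base nl_ok fl_ok .nil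
  []
  [([332], (PX [] [332,462,466])), ([425], (PX [] [425,462,466])), ([463], (PX [] [462,463,466])), ([464], (PX [] [462,464,466])), ([465], (PX [] [462,465,466]))]
  (by decide +kernel) ⟨b0_2730, b0_2731, w0_1052_463, w0_1052_464, w0_1052_465, trivial⟩

theorem v0_1053 : VW (PX [462,467] [463,464,465,466]) := VW.of base nl_ok fl_ok .nil
  []
  [([332], (PX [462,467] [332,463,464,465,466])), ([425], (PX [462,467] [425,463,464,465,466]))]
  (by decide +kernel) ⟨b0_3271, b0_3272, trivial⟩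

theorem v0_1054 : VW (PX [462,465] [463,464,466,467]) := VW.of base nl_ok fl_ok .nil
  [(468, (.cons 469 470 .nil (.cons 470 469 .nil .nil))), (469, (.cons 468 470 .nil (.cons 470 468 .nil .nil))), (470, (.cons 468 469 .nil (.cons 469 468 .nil .nil)))]
  [([332], (PX [462,465] [332,463,464,466,467])), ([425], (PX [462,465] [425,463,464,466,467]))]
  (by decide +kernel) ⟨b0_3273, b0_3274, trivial⟩

theorem w0_1055_465 : S (PX [462] [463,464,465,466]) := VW.play 467 (PX [462,467] [463,464,465,466]) (by decide +kernel) v0_1053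

theorem w0_1055_467 : S (PX [462] [463,464,466,467]) := VW.play 465 (PX [462,465] [463,464,466,467]) (by decide +kernel) v0_1054

theorem v0_1055 : VW (PX [462] [463,464,466]) := VW.of base nl_ok fl_ok (.cons 465 467 .nil (.cons 467 465 .nil .nil))
  [(468, (.cons 465 467 .nil (.cons 467 465 (.cons 469 470 .nil (.cons 470 469 .nil .nil)) .nil))), (469, (.cons 465 467 .nil (.cons 467 465 (.cons 468 470 .nil (.cons 470 468 .nil .nil)) .nil))), (470, (.cons 465 467 .nil (.cons 467 465 (.cons 468 469 .nil (.cons 469 468 .nil .nil)) .nil)))]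
  [([297], (PX [462] [297,463,464,466])), ([332], (PX [462] [332,463,464,466])), ([333], (PX [462] [333,463,464,466])), ([425], (PX [462] [425,463,464,466])), ([465], (PX [462] [463,464,465,466])), ([467], (PX [462] [463,464,466,467]))]
  (by decide +kernel) ⟨b0_3267, b0_3268, b0_3269, b0_3270, w0_1055_465, w0_1055_467, trivial⟩

theorem v0_1059 : VW (PX [464] [463,465,466]) := VW.of base nl_ok fl_ok .nil
  [(467, (.cons 468 469 .nil (.cons 469 468 .nil .nil))), (468, (.cons 467 469 .nil (.cons 469 467 .nil .nil))), (469, (.cons 467 468 .nil (.cons 468 467 .nil .nil)))]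
  [([425], (PX [464] [425,463,465,466]))]
  (by decide +kernel) ⟨b0_3331, trivial⟩

theorem v0_1063 : VW (PX [465] [463,466,467]) := VW.of base nl_ok fl_ok .nil
  [(468, (.cons 469 470 .nil (.cons 470 469 .nil .nil))), (469, (.cons 468 470 .nil (.cons 470 468 .nil .nil))), (470, (.cons 468 469 .nil (.cons 469 468 .nil .nil)))]
  [([425], (PX [465] [425,463,466,467]))]
  (by decide +kernel) ⟨b0_3335, trivial⟩

theorem w0_1064_462 : S (PX [] [462,463,466]) := VW.play 464 (PX [464] [462,463,466]) (by decide +kernel) v0_1031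

theorem w0_1064_464 : S (PX [] [463,464,466]) := VW.play 462 (PX [462] [463,464,466]) (by decide +kernel) v0_1055

theorem w0_1064_465 : S (PX [] [463,465,466]) := VW.play 464 (PX [464] [463,465,466]) (by decide +kernel) v0_1059

theorem w0_1064_467 : S (PX [] [463,466,467]) := VW.play 465 (PX [465] [463,466,467]) (by decide +kernel) v0_1063

theorem v0_1064 : VW (PX [] [463,466]) := VW.of base nl_ok fl_ok .nil
  []
  [([332], (PX [] [332,463,466])), ([425], (PX [] [425,463,466])), ([462], (PX [] [462,463,466])), ([464], (PX [] [463,464,466])), ([465], (PX [] [463,465,466])), ([467], (PX [] [463,466,467]))]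
  (by decide +kernel) ⟨b0_3265, b0_3266, w0_1064_462, w0_1064_464, w0_1064_465, w0_1064_467, trivial⟩

theorem v0_1065 : VW (PX [463,468] [464,465,466,467]) := VW.of base nl_ok fl_ok .nil
  []
  []
  (by decide +kernel) trivial

theorem v0_1066 : VW (PX [463,467] [464,465,466,468]) := VW.of base nl_ok fl_ok .nil
  []
  []
  (by decide +kernel) trivial

theorem w0_1067_467 : S (PX [463] [464,465,466,467]) := VW.play 468 (PX [463,468] [464,465,466,467]) (by decide +kernel) v0_1065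

theorem w0_1067_468 : S (PX [463] [464,465,466,468]) := VW.play 467 (PX [463,467] [464,465,466,468]) (by decide +kernel) v0_1066

theorem v0_1067 : VW (PX [463] [464,465,466]) := VW.of base nl_ok fl_ok (.cons 467 468 .nil (.cons 468 467 .nil .nil))
  [(469, (.cons 467 468 .nil (.cons 468 467 .nil .nil))), (470, (.cons 467 468 .nil (.cons 468 467 .nil .nil))), (471, (.cons 467 468 .nil (.cons 468 467 .nil .nil)))]
  [([467], (PX [463] [464,465,466,467])), ([468], (PX [463] [464,465,466,468]))]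
  (by decide +kernel) ⟨w0_1067_467, w0_1067_468, trivial⟩

theorem v0_1068 : VW (PX [465] [464,466,467]) := VW.of base nl_ok fl_ok .nil
  [(468, (.cons 469 470 .nil (.cons 470 469 .nil .nil))), (469, (.cons 468 470 .nil (.cons 470 468 .nil .nil))), (470, (.cons 468 469 .nil (.cons 469 468 .nil .nil)))]
  []
  (by decide +kernel) trivial

theorem w0_1069_462 : S (PX [] [462,464,466]) := VW.play 463 (PX [463] [462,464,466]) (by decide +kernel) v0_1037

theorem w0_1069_463 : S (PX [] [463,464,466]) := VW.play 462 (PX [462] [463,464,466]) (by decide +kernel) v0_1055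

theorem w0_1069_465 : S (PX [] [464,465,466]) := VW.play 463 (PX [463] [464,465,466]) (by decide +kernel) v0_1067

theorem w0_1069_467 : S (PX [] [464,466,467]) := VW.play 465 (PX [465] [464,466,467]) (by decide +kernel) v0_1068

theorem v0_1069 : VW (PX [] [464,466]) := VW.of base nl_ok fl_ok .nil
  [(468, (.cons 465 467 (.cons 462 463 .nil (.cons 463 462 .nil .nil)) (.cons 467 465 (.cons 469 470 .nil (.cons 470 469 .nil .nil)) .nil)))]
  [([462], (PX [] [462,464,466])), ([463], (PX [] [463,464,466])), ([465], (PX [] [464,465,466])), ([467], (PX [] [464,466,467]))]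
  (by decide +kernel) ⟨w0_1069_462, w0_1069_463, w0_1069_465, w0_1069_467, trivial⟩

theorem v0_1070 : VW (PX [464,469] [465,466,467,468]) := VW.of base nl_ok fl_ok .nil
  []
  []
  (by decide +kernel) trivial

theorem v0_1071 : VW (PX [464,468] [465,466,467,469]) := VW.of base nl_ok fl_ok .nil
  []
  []
  (by decide +kernel) trivial

theorem w0_1072_468 : S (PX [464] [465,466,467,468]) := VW.play 469 (PX [464,469] [465,466,467,468]) (by decide +kernel) v0_1070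

theorem w0_1072_469 : S (PX [464] [465,466,467,469]) := VW.play 468 (PX [464,468] [465,466,467,469]) (by decide +kernel) v0_1071

theorem v0_1072 : VW (PX [464] [465,466,467]) := VW.of base nl_ok fl_ok (.cons 468 469 .nil (.cons 469 468 .nil .nil))
  [(470, (.cons 468 469 .nil (.cons 469 468 .nil .nil))), (471, (.cons 468 469 .nil (.cons 469 468 .nil .nil))), (472, (.cons 468 469 .nil (.cons 469 468 .nil .nil)))]
  [([468], (PX [464] [465,466,467,468])), ([469], (PX [464] [465,466,467,469]))]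
  (by decide +kernel) ⟨w0_1072_468, w0_1072_469, trivial⟩

theorem v0_1073 : VW (PX [464,467] [465,466,468,469]) := VW.of base nl_ok fl_ok .nil
  [(470, (.cons 471 472 .nil (.cons 472 471 .nil .nil))), (471, (.cons 470 472 .nil (.cons 472 470 .nil .nil))), (472, (.cons 470 471 .nil (.cons 471 470 .nil .nil)))]
  []
  (by decide +kernel) trivial

theorem w0_1074_467 : S (PX [464] [465,466,467,468]) := VW.play 469 (PX [464,469] [465,466,467,468]) (by decide +kernel) v0_1070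

theorem w0_1074_469 : S (PX [464] [465,466,468,469]) := VW.play 467 (PX [464,467] [465,466,468,469]) (by decide +kernel) v0_1073

theorem v0_1074 : VW (PX [464] [465,466,468]) := VW.of base nl_ok fl_ok (.cons 467 469 .nil (.cons 469 467 .nil .nil))
  [(470, (.cons 467 469 .nil (.cons 469 467 (.cons 471 472 .nil (.cons 472 471 .nil .nil)) .nil))), (471, (.cons 467 469 .nil (.cons 469 467 (.cons 470 472 .nil (.cons 472 470 .nil .nil)) .nil))), (472, (.cons 467 469 .nil (.cons 469 467 (.cons 470 471 .nil (.cons 471 470 .nil .nil)) .nil)))]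
  [([467], (PX [464] [465,466,467,468])), ([469], (PX [464] [465,466,468,469]))]
  (by decide +kernel) ⟨w0_1074_467, w0_1074_469, trivial⟩

theorem v0_1077 : VW (PX [463,467] [462,465,466,469]) := VW.of base nl_ok fl_ok .nil
  []
  [([332], (PX [463,467] [332,462,465,466,469])), ([425], (PX [463,467] [425,462,465,466,469]))]
  (by decide +kernel) ⟨b0_3352, b0_3353, trivial⟩

theorem w0_1079_462 : S (PX [467] [462,465,466,469]) := VW.play 463 (PX [463,467] [462,465,466,469]) (by decide +kernel) v0_1077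

theorem v0_1079 : VW (PX [467] [465,466,469]) := VW.of base nl_ok fl_ok .nil
  [(464, (.cons 462 463 .nil (.cons 463 462 .nil .nil)))]
  [([462], (PX [467] [462,465,466,469])), ([463], (PX [467] [463,465,466,469]))]
  (by decide +kernel) ⟨w0_1079_462, b0_3356, trivial⟩

theorem w0_1087_462 : S (PX [] [462,465,466]) := VW.play 464 (PX [464] [462,465,466]) (by decide +kernel) v0_1051

theorem w0_1087_463 : S (PX [] [463,465,466]) := VW.play 464 (PX [464] [463,465,466]) (by decide +kernel) v0_1059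

theorem w0_1087_464 : S (PX [] [464,465,466]) := VW.play 463 (PX [463] [464,465,466]) (by decide +kernel) v0_1067

theorem w0_1087_467 : S (PX [] [465,466,467]) := VW.play 464 (PX [464] [465,466,467]) (by decide +kernel) v0_1072

theorem w0_1087_468 : S (PX [] [465,466,468]) := VW.play 464 (PX [464] [465,466,468]) (by decide +kernel) v0_1074

theorem w0_1087_469 : S (PX [] [465,466,469]) := VW.play 467 (PX [467] [465,466,469]) (by decide +kernel) v0_1079

theorem v0_1087 : VW (PX [] [465,466]) := VW.of base nl_ok fl_ok .nil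
  []
  [([462], (PX [] [462,465,466])), ([463], (PX [] [463,465,466])), ([464], (PX [] [464,465,466])), ([467], (PX [] [465,466,467])), ([468], (PX [] [465,466,468])), ([469], (PX [] [465,466,469]))]
  (by decide +kernel) ⟨w0_1087_462, w0_1087_463, w0_1087_464, w0_1087_467, w0_1087_468, w0_1087_469, trivial⟩

theorem v0_1088 : VW (PX [465,470] [466,467,468,469]) := VW.of base nl_ok fl_ok .nil
  []
  []
  (by decide +kernel) trivial

theorem v0_1089 : VW (PX [465,469] [466,467,468,470]) := VW.of base nl_ok fl_ok .nil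
  []
  []
  (by decide +kernel) trivial

theorem w0_1090_469 : S (PX [465] [466,467,468,469]) := VW.play 470 (PX [465,470] [466,467,468,469]) (by decide +kernel) v0_1088

theorem w0_1090_470 : S (PX [465] [466,467,468,470]) := VW.play 469 (PX [465,469] [466,467,468,470]) (by decide +kernel) v0_1089

theorem v0_1090 : VW (PX [465] [466,467,468]) := VW.of base nl_ok fl_ok (.cons 469 470 .nil (.cons 470 469 .nil .nil))
  [(471, (.cons 469 470 .nil (.cons 470 469 .nil .nil))), (472, (.cons 469 470 .nil (.cons 470 469 .nil .nil))), (473, (.cons 469 470 .nil (.cons 470 469 .nil .nil)))]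
  [([469], (PX [465] [466,467,468,469])), ([470], (PX [465] [466,467,468,470]))]
  (by decide +kernel) ⟨w0_1090_469, w0_1090_470, trivial⟩

theorem v0_1091 : VW (PX [465,468] [466,467,469,470]) := VW.of base nl_ok fl_ok .nil
  [(471, (.cons 472 473 .nil (.cons 473 472 .nil .nil))), (472, (.cons 471 473 .nil (.cons 473 471 .nil .nil))), (473, (.cons 471 472 .nil (.cons 472 471 .nil .nil)))]
  []
  (by decide +kernel) trivial

theorem w0_1092_468 : S (PX [465] [466,467,468,469]) := VW.play 470 (PX [465,470] [466,467,468,469]) (by decide +kernel) v0_1088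

theorem w0_1092_470 : S (PX [465] [466,467,469,470]) := VW.play 468 (PX [465,468] [466,467,469,470]) (by decide +kernel) v0_1091

theorem v0_1092 : VW (PX [465] [466,467,469]) := VW.of base nl_ok fl_ok (.cons 468 470 .nil (.cons 470 468 .nil .nil))
  [(471, (.cons 468 470 .nil (.cons 470 468 (.cons 472 473 .nil (.cons 473 472 .nil .nil)) .nil))), (472, (.cons 468 470 .nil (.cons 470 468 (.cons 471 473 .nil (.cons 473 471 .nil .nil)) .nil))), (473, (.cons 468 470 .nil (.cons 470 468 (.cons 471 472 .nil (.cons 472 471 .nil .nil)) .nil)))]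
  [([468], (PX [465] [466,467,468,469])), ([470], (PX [465] [466,467,469,470]))]
  (by decide +kernel) ⟨w0_1092_468, w0_1092_470, trivial⟩

theorem w0_1095_463 : S (PX [] [463,466,467]) := VW.play 465 (PX [465] [463,466,467]) (by decide +kernel) v0_1063

theorem w0_1095_464 : S (PX [] [464,466,467]) := VW.play 465 (PX [465] [464,466,467]) (by decide +kernel) v0_1068

theorem w0_1095_465 : S (PX [] [465,466,467]) := VW.play 464 (PX [464] [465,466,467]) (by decide +kernel) v0_1072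

theorem w0_1095_468 : S (PX [] [466,467,468]) := VW.play 465 (PX [465] [466,467,468]) (by decide +kernel) v0_1090

theorem w0_1095_469 : S (PX [] [466,467,469]) := VW.play 465 (PX [465] [466,467,469]) (by decide +kernel) v0_1092

theorem v0_1095 : VW (PX [] [466,467]) := VW.of base nl_ok fl_ok .nil
  [(470, (.cons 468 469 (.cons 464 465 .nil (.cons 465 464 .nil .nil)) (.cons 469 468 .nil .nil)))]
  [([463], (PX [] [463,466,467])), ([464], (PX [] [464,466,467])), ([465], (PX [] [465,466,467])), ([468], (PX [] [466,467,468])), ([469], (PX [] [466,467,469]))]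
  (by decide +kernel) ⟨w0_1095_463, w0_1095_464, w0_1095_465, w0_1095_468, w0_1095_469, trivial⟩

theorem v0_1110 : VW (PX [467] [466,468,469]) := VW.of base nl_ok fl_ok .nil
  [(470, (.cons 471 472 .nil (.cons 472 471 .nil .nil))), (471, (.cons 470 472 .nil (.cons 472 470 .nil .nil))), (472, (.cons 470 471 .nil (.cons 471 470 .nil .nil)))]
  []
  (by decide +kernel) trivial

theorem w0_1111_465 : S (PX [] [465,466,468]) := VW.play 464 (PX [464] [465,466,468]) (by decide +kernel) v0_1074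

theorem w0_1111_467 : S (PX [] [466,467,468]) := VW.play 465 (PX [465] [466,467,468]) (by decide +kernel) v0_1090

theorem w0_1111_469 : S (PX [] [466,468,469]) := VW.play 467 (PX [467] [466,468,469]) (by decide +kernel) v0_1110

theorem v0_1111 : VW (PX [] [466,468]) := VW.of base nl_ok fl_ok .nil
  [(464, (.cons 465 467 (.cons 462 463 .nil (.cons 463 462 .nil .nil)) (.cons 467 465 (.cons 469 470 .nil (.cons 470 469 .nil .nil)) .nil))), (470, (.cons 467 469 (.cons 464 465 .nil (.cons 465 464 .nil .nil)) (.cons 469 467 (.cons 471 472 .nil (.cons 472 471 .nil .nil)) .nil)))]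
  [([465], (PX [] [465,466,468])), ([467], (PX [] [466,467,468])), ([469], (PX [] [466,468,469]))]
  (by decide +kernel) ⟨w0_1111_465, w0_1111_467, w0_1111_469, trivial⟩

theorem w0_1112_465 : S (PX [] [465,466,469]) := VW.play 467 (PX [467] [465,466,469]) (by decide +kernel) v0_1079

theorem w0_1112_467 : S (PX [] [466,467,469]) := VW.play 465 (PX [465] [466,467,469]) (by decide +kernel) v0_1092

theorem w0_1112_468 : S (PX [] [466,468,469]) := VW.play 467 (PX [467] [466,468,469]) (by decide +kernel) v0_1110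

theorem v0_1112 : VW (PX [] [466,469]) := VW.of base nl_ok fl_ok .nil
  [(470, (.cons 467 468 .nil (.cons 468 467 (.cons 471 472 .nil (.cons 472 471 .nil .nil)) .nil)))]
  [([465], (PX [] [465,466,469])), ([467], (PX [] [466,467,469])), ([468], (PX [] [466,468,469]))]
  (by decide +kernel) ⟨w0_1112_465, w0_1112_467, w0_1112_468, trivial⟩

theorem v0_1113 : VW (PX [] [466,470]) := VW.of base nl_ok fl_ok .nil
  [(467, (.cons 468 469 (.cons 464 465 .nil (.cons 465 464 .nil .nil)) (.cons 469 468 .nil .nil))), (468, (.cons 467 469 (.cons 464 465 .nil (.cons 465 464 .nil .nil)) (.cons 469 467 (.cons 471 472 .nil (.cons 472 471 .nil .nil)) .nil))), (469, (.cons 467 468 .nil (.cons 468 467 (.cons 471 472 .nil (.cons 472 471 .nil .nil)) .nil)))]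
  []
  (by decide +kernel) trivial

theorem v0_1114 : VW (PX [435,559] [404,466,497,528]) := VW.of base nl_ok fl_ok .nil
  []
  []
  (by decide +kernel) trivial

theorem v0_1115 : VW (PX [404,559] [435,466,497,528]) := VW.of base nl_ok fl_ok .nil
  []
  []
  (by decide +kernel) trivial

theorem w0_1116_404 : S (PX [559] [404,466,497,528]) := VW.play 435 (PX [435,559] [404,466,497,528]) (by decide +kernel) v0_1114

theorem w0_1116_435 : S (PX [559] [435,466,497,528]) := VW.play 404 (PX [404,559] [435,466,497,528]) (by decide +kernel) v0_1115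

theorem v0_1116 : VW (PX [559] [466,497,528]) := VW.of base nl_ok fl_ok (.cons 404 435 .nil (.cons 435 404 .nil .nil))
  [(311, (.cons 404 435 .nil (.cons 435 404 .nil .nil))), (342, (.cons 404 435 .nil (.cons 435 404 .nil .nil))), (373, (.cons 404 435 .nil (.cons 435 404 .nil .nil)))]
  [([404], (PX [559] [404,466,497,528])), ([435], (PX [559] [435,466,497,528]))]
  (by decide +kernel) ⟨w0_1116_404, w0_1116_435, trivial⟩

theorem v0_1117 : VW (PX [528] [466,497,559]) := VW.of base nl_ok fl_ok .nil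
  [(373, (.cons 404 435 .nil (.cons 435 404 .nil .nil))), (404, (.cons 373 435 .nil (.cons 435 373 .nil .nil))), (435, (.cons 373 404 .nil (.cons 404 373 .nil .nil)))]
  []
  (by decide +kernel) trivial

theorem w0_1119_404 : S (PX [] [404,466,497]) := VW.play 435 (PX [435] [404,466,497]) (by decide +kernel) v0_993

theorem w0_1119_435 : S (PX [] [435,466,497]) := VW.play 528 (PX [528] [435,466,497]) (by decide +kernel) v0_1023

theorem w0_1119_528 : S (PX [] [466,497,528]) := VW.play 559 (PX [559] [466,497,528]) (by decide +kernel) v0_1116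

theorem w0_1119_559 : S (PX [] [466,497,559]) := VW.play 528 (PX [528] [466,497,559]) (by decide +kernel) v0_1117

theorem v0_1119 : VW (PX [] [466,497]) := VW.of base nl_ok fl_ok .nil
  [(373, (.cons 404 435 .nil (.cons 435 404 (.cons 528 559 .nil (.cons 559 528 .nil .nil)) .nil))), (590, (.cons 528 559 (.cons 404 435 .nil (.cons 435 404 .nil .nil)) (.cons 559 528 .nil .nil)))]
  [([404], (PX [] [404,466,497])), ([435], (PX [] [435,466,497])), ([528], (PX [] [466,497,528])), ([559], (PX [] [466,497,559]))]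
  (by decide +kernel) ⟨w0_1119_404, w0_1119_435, w0_1119_528, w0_1119_559, trivial⟩

theorem v0_1120 : VW (PX [434,594] [466,498,530,562]) := VW.of base nl_ok fl_ok .nil
  []
  []
  (by decide +kernel) trivial

theorem v0_1121 : VW (PX [434,562] [466,498,530,594]) := VW.of base nl_ok fl_ok .nil
  []
  []
  (by decide +kernel) trivial

theorem w0_1122_562 : S (PX [434] [466,498,530,562]) := VW.play 594 (PX [434,594] [466,498,530,562]) (by decide +kernel) v0_1120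

theorem w0_1122_594 : S (PX [434] [466,498,530,594]) := VW.play 562 (PX [434,562] [466,498,530,594]) (by decide +kernel) v0_1121

theorem v0_1122 : VW (PX [434] [466,498,530]) := VW.of base nl_ok fl_ok (.cons 562 594 .nil (.cons 594 562 .nil .nil))
  [(626, (.cons 562 594 .nil (.cons 594 562 .nil .nil))), (658, (.cons 562 594 .nil (.cons 594 562 .nil .nil))), (690, (.cons 562 594 .nil (.cons 594 562 .nil .nil)))]
  [([562], (PX [434] [466,498,530,562])), ([594], (PX [434] [466,498,530,594]))]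
  (by decide +kernel) ⟨w0_1122_562, w0_1122_594, trivial⟩

theorem v0_1127 : VW (PX [530] [466,498,562]) := VW.of base nl_ok fl_ok .nil
  [(370, (.cons 402 434 .nil (.cons 434 402 .nil .nil))), (402, (.cons 370 434 .nil (.cons 434 370 .nil .nil))), (434, (.cons 370 402 .nil (.cons 402 370 .nil .nil)))]
  []
  (by decide +kernel) trivial

theorem w0_1139_402 : S (PX [] [402,466,498]) := VW.play 434 (PX [434] [402,466,498]) (by decide +kernel) v0_450

theorem w0_1139_434 : S (PX [] [434,466,498]) := VW.play 402 (PX [402] [434,466,498]) (by decide +kernel) v0_813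

theorem w0_1139_530 : S (PX [] [466,498,530]) := VW.play 434 (PX [434] [466,498,530]) (by decide +kernel) v0_1122

theorem w0_1139_562 : S (PX [] [466,498,562]) := VW.play 530 (PX [530] [466,498,562]) (by decide +kernel) v0_1127

theorem v0_1139 : VW (PX [] [466,498]) := VW.of base nl_ok fl_ok .nil
  [(370, (.cons 402 434 .nil (.cons 434 402 (.cons 530 562 .nil (.cons 562 530 .nil .nil)) .nil))), (594, (.cons 530 562 (.cons 402 434 .nil (.cons 434 402 .nil .nil)) (.cons 562 530 .nil .nil)))]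
  [([402], (PX [] [402,466,498])), ([434], (PX [] [434,466,498])), ([530], (PX [] [466,498,530])), ([562], (PX [] [466,498,562]))]
  (by decide +kernel) ⟨w0_1139_402, w0_1139_434, w0_1139_530, w0_1139_562, trivial⟩

theorem v0_944 : VW (PX [433] [367,466,499]) := VW.of base nl_ok fl_ok .nil
  [(532, (.cons 565 598 .nil (.cons 598 565 .nil .nil))), (565, (.cons 532 598 .nil (.cons 598 532 .nil .nil))), (598, (.cons 532 565 .nil (.cons 565 532 .nil .nil)))]
  [([268], (PX [433] [268,367,466,499]))]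
  (by decide +kernel) ⟨b0_2515, trivial⟩

theorem v0_984 : VW (PX [433] [400,466,499]) := VW.of base nl_ok fl_ok .nil
  [(532, (.cons 565 598 .nil (.cons 598 565 .nil .nil))), (565, (.cons 532 598 .nil (.cons 598 532 .nil .nil))), (598, (.cons 532 565 .nil (.cons 565 532 .nil .nil)))]
  [([401], (PX [433] [400,401,466,499]))]
  (by decide +kernel) ⟨b0_2700, trivial⟩

theorem v0_1140 : VW (PX [433,598] [466,499,532,565]) := VW.of base nl_ok fl_ok .nil
  []
  []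
  (by decide +kernel) trivial

theorem v0_1141 : VW (PX [433,565] [466,499,532,598]) := VW.of base nl_ok fl_ok .nil
  []
  []
  (by decide +kernel) trivial

theorem w0_1142_565 : S (PX [433] [466,499,532,565]) := VW.play 598 (PX [433,598] [466,499,532,565]) (by decide +kernel) v0_1140

theorem w0_1142_598 : S (PX [433] [466,499,532,598]) := VW.play 565 (PX [433,565] [466,499,532,598]) (by decide +kernel) v0_1141

theorem v0_1142 : VW (PX [433] [466,499,532]) := VW.of base nl_ok fl_ok (.cons 565 598 .nil (.cons 598 565 .nil .nil))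
  [(631, (.cons 565 598 .nil (.cons 598 565 .nil .nil))), (664, (.cons 565 598 .nil (.cons 598 565 .nil .nil))), (697, (.cons 565 598 .nil (.cons 598 565 .nil .nil)))]
  [([565], (PX [433] [466,499,532,565])), ([598], (PX [433] [466,499,532,598]))]
  (by decide +kernel) ⟨w0_1142_565, w0_1142_598, trivial⟩

theorem v0_1143 : VW (PX [433,532] [466,499,565,598]) := VW.of base nl_ok fl_ok .nil
  [(631, (.cons 664 697 .nil (.cons 697 664 .nil .nil))), (664, (.cons 631 697 .nil (.cons 697 631 .nil .nil))), (697, (.cons 631 664 .nil (.cons 664 631 .nil .nil)))]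
  []
  (by decide +kernel) trivial

theorem w0_1144_532 : S (PX [433] [466,499,532,565]) := VW.play 598 (PX [433,598] [466,499,532,565]) (by decide +kernel) v0_1140

theorem w0_1144_598 : S (PX [433] [466,499,565,598]) := VW.play 532 (PX [433,532] [466,499,565,598]) (by decide +kernel) v0_1143

theorem v0_1144 : VW (PX [433] [466,499,565]) := VW.of base nl_ok fl_ok (.cons 532 598 .nil (.cons 598 532 .nil .nil))
  [(631, (.cons 532 598 .nil (.cons 598 532 (.cons 664 697 .nil (.cons 697 664 .nil .nil)) .nil))), (664, (.cons 532 598 .nil (.cons 598 532 (.cons 631 697 .nil (.cons 697 631 .nil .nil)) .nil))), (697, (.cons 532 598 .nil (.cons 598 532 (.cons 631 664 .nil (.cons 664 631 .nil .nil)) .nil)))]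
  [([532], (PX [433] [466,499,532,565])), ([598], (PX [433] [466,499,565,598]))]
  (by decide +kernel) ⟨w0_1144_532, w0_1144_598, trivial⟩

theorem v0_1148 : VW (PX [400,532] [367,466,499,598]) := VW.of base nl_ok fl_ok .nil
  []
  [([268], (PX [400,532] [268,367,466,499,598]))]
  (by decide +kernel) ⟨b0_3408, trivial⟩

theorem v0_979 : VW (PX [367,532] [400,466,499,598]) := VW.of base nl_ok fl_ok .nil
  []
  [([401], (PX [367,532] [400,401,466,499,598]))]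
  (by decide +kernel) ⟨b0_2641, trivial⟩

theorem v0_1151 : VW (PX [367,532] [433,466,499,598]) := VW.of base nl_ok fl_ok .nil
  []
  []
  (by decide +kernel) trivial

theorem w0_1153_367 : S (PX [532] [367,466,499,598]) := VW.play 400 (PX [400,532] [367,466,499,598]) (by decide +kernel) v0_1148

theorem w0_1153_400 : S (PX [532] [400,466,499,598]) := VW.play 367 (PX [367,532] [400,466,499,598]) (by decide +kernel) v0_979

theorem w0_1153_433 : S (PX [532] [433,466,499,598]) := VW.play 367 (PX [367,532] [433,466,499,598]) (by decide +kernel) v0_1151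

theorem v0_1153 : VW (PX [532] [466,499,598]) := VW.of base nl_ok fl_ok .nil
  []
  [([367], (PX [532] [367,466,499,598])), ([400], (PX [532] [400,466,499,598])), ([433], (PX [532] [433,466,499,598]))]
  (by decide +kernel) ⟨w0_1153_367, w0_1153_400, w0_1153_433, trivial⟩

theorem w0_1161_367 : S (PX [] [367,466,499]) := VW.play 433 (PX [433] [367,466,499]) (by decide +kernel) v0_944

theorem w0_1161_400 : S (PX [] [400,466,499]) := VW.play 433 (PX [433] [400,466,499]) (by decide +kernel) v0_984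

theorem w0_1161_433 : S (PX [] [433,466,499]) := VW.play 400 (PX [400] [433,466,499]) (by decide +kernel) v0_1000

theorem w0_1161_532 : S (PX [] [466,499,532]) := VW.play 433 (PX [433] [466,499,532]) (by decide +kernel) v0_1142

theorem w0_1161_565 : S (PX [] [466,499,565]) := VW.play 433 (PX [433] [466,499,565]) (by decide +kernel) v0_1144

theorem w0_1161_598 : S (PX [] [466,499,598]) := VW.play 532 (PX [532] [466,499,598]) (by decide +kernel) v0_1153

theorem v0_1161 : VW (PX [] [466,499]) := VW.of base nl_ok fl_ok .nil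
  []
  [([367], (PX [] [367,466,499])), ([400], (PX [] [400,466,499])), ([433], (PX [] [433,466,499])), ([532], (PX [] [466,499,532])), ([565], (PX [] [466,499,565])), ([598], (PX [] [466,499,598]))]
  (by decide +kernel) ⟨w0_1161_367, w0_1161_400, w0_1161_433, w0_1161_532, w0_1161_565, w0_1161_598, trivial⟩

theorem v0_1162 : VW (PX [497] [466,528,559]) := VW.of base nl_ok fl_ok .nil
  [(590, (.cons 621 652 .nil (.cons 652 621 .nil .nil))), (621, (.cons 590 652 .nil (.cons 652 590 .nil .nil))), (652, (.cons 590 621 .nil (.cons 621 590 .nil .nil)))]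
  []
  (by decide +kernel) trivial

theorem w0_1163_435 : S (PX [] [435,466,528]) := VW.play 497 (PX [497] [435,466,528]) (by decide +kernel) v0_1024

theorem w0_1163_497 : S (PX [] [466,497,528]) := VW.play 559 (PX [559] [466,497,528]) (by decide +kernel) v0_1116

theorem w0_1163_559 : S (PX [] [466,528,559]) := VW.play 497 (PX [497] [466,528,559]) (by decide +kernel) v0_1162

theorem v0_1163 : VW (PX [] [466,528]) := VW.of base nl_ok fl_ok .nil
  [(404, (.cons 435 497 (.cons 342 373 .nil (.cons 373 342 .nil .nil)) (.cons 497 435 (.cons 559 590 .nil (.cons 590 559 .nil .nil)) .nil))), (590, (.cons 497 559 (.cons 404 435 .nil (.cons 435 404 .nil .nil)) (.cons 559 497 (.cons 621 652 .nil (.cons 652 621 .nil .nil)) .nil)))]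
  [([435], (PX [] [435,466,528])), ([497], (PX [] [466,497,528])), ([559], (PX [] [466,528,559]))]
  (by decide +kernel) ⟨w0_1163_435, w0_1163_497, w0_1163_559, trivial⟩

theorem v0_1178 : VW (PX [498] [466,530,562]) := VW.of base nl_ok fl_ok .nil
  [(594, (.cons 626 658 .nil (.cons 658 626 .nil .nil))), (626, (.cons 594 658 .nil (.cons 658 594 .nil .nil))), (658, (.cons 594 626 .nil (.cons 626 594 .nil .nil)))]
  []
  (by decide +kernel) trivial

theorem w0_1181_434 : S (PX [] [434,466,530]) := VW.play 498 (PX [498] [434,466,530]) (by decide +kernel) v0_818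

theorem w0_1181_498 : S (PX [] [466,498,530]) := VW.play 434 (PX [434] [466,498,530]) (by decide +kernel) v0_1122

theorem w0_1181_562 : S (PX [] [466,530,562]) := VW.play 498 (PX [498] [466,530,562]) (by decide +kernel) v0_1178

theorem v0_1181 : VW (PX [] [466,530]) := VW.of base nl_ok fl_ok .nil
  [(402, (.cons 434 498 (.cons 338 370 .nil (.cons 370 338 .nil .nil)) (.cons 498 434 (.cons 562 594 .nil (.cons 594 562 .nil .nil)) .nil))), (594, (.cons 498 562 (.cons 402 434 .nil (.cons 434 402 .nil .nil)) (.cons 562 498 (.cons 626 658 .nil (.cons 658 626 .nil .nil)) .nil)))]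
  [([434], (PX [] [434,466,530])), ([498], (PX [] [466,498,530])), ([562], (PX [] [466,530,562]))]
  (by decide +kernel) ⟨w0_1181_434, w0_1181_498, w0_1181_562, trivial⟩

theorem v0_985 : VW (PX [433] [400,466,532]) := VW.of base nl_ok fl_ok .nil
  [(499, (.cons 565 598 .nil (.cons 598 565 .nil .nil))), (565, (.cons 499 598 .nil (.cons 598 499 (.cons 631 664 .nil (.cons 664 631 .nil .nil)) .nil))), (598, (.cons 499 565 .nil (.cons 565 499 (.cons 631 664 .nil (.cons 664 631 .nil .nil)) .nil)))]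
  [([401], (PX [433] [400,401,466,532]))]
  (by decide +kernel) ⟨b0_2701, trivial⟩

theorem v0_1196 : VW (PX [499] [466,532,565]) := VW.of base nl_ok fl_ok .nil
  [(598, (.cons 631 664 .nil (.cons 664 631 .nil .nil))), (631, (.cons 598 664 .nil (.cons 664 598 .nil .nil))), (664, (.cons 598 631 .nil (.cons 631 598 .nil .nil)))]
  []
  (by decide +kernel) trivial

theorem v0_1197 : VW (PX [499] [466,532,598]) := VW.of base nl_ok fl_ok .nil
  [(565, (.cons 631 664 .nil (.cons 664 631 .nil .nil))), (631, (.cons 565 664 .nil (.cons 664 565 (.cons 697 730 .nil (.cons 730 697 .nil .nil)) .nil))), (664, (.cons 565 631 .nil (.cons 631 565 (.cons 697 730 .nil (.cons 730 697 .nil .nil)) .nil)))]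
  []
  (by decide +kernel) trivial

theorem w0_1211_400 : S (PX [] [400,466,532]) := VW.play 433 (PX [433] [400,466,532]) (by decide +kernel) v0_985

theorem w0_1211_433 : S (PX [] [433,466,532]) := VW.play 400 (PX [400] [433,466,532]) (by decide +kernel) v0_1002

theorem w0_1211_499 : S (PX [] [466,499,532]) := VW.play 433 (PX [433] [466,499,532]) (by decide +kernel) v0_1142

theorem w0_1211_565 : S (PX [] [466,532,565]) := VW.play 499 (PX [499] [466,532,565]) (by decide +kernel) v0_1196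

theorem w0_1211_598 : S (PX [] [466,532,598]) := VW.play 499 (PX [499] [466,532,598]) (by decide +kernel) v0_1197

theorem v0_1211 : VW (PX [] [466,532]) := VW.of base nl_ok fl_ok .nil
  []
  [([400], (PX [] [400,466,532])), ([433], (PX [] [433,466,532])), ([499], (PX [] [466,499,532])), ([565], (PX [] [466,532,565])), ([598], (PX [] [466,532,598]))]
  (by decide +kernel) ⟨w0_1211_400, w0_1211_433, w0_1211_499, w0_1211_565, w0_1211_598, trivial⟩

theorem w0_1212_497 : S (PX [] [466,497,559]) := VW.play 528 (PX [528] [466,497,559]) (by decide +kernel) v0_1117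

theorem w0_1212_528 : S (PX [] [466,528,559]) := VW.play 497 (PX [497] [466,528,559]) (by decide +kernel) v0_1162

theorem v0_1212 : VW (PX [] [466,559]) := VW.of base nl_ok fl_ok .nil
  [(435, (.cons 497 528 (.cons 373 404 .nil (.cons 404 373 .nil .nil)) (.cons 528 497 .nil .nil))), (590, (.cons 497 528 .nil (.cons 528 497 (.cons 621 652 .nil (.cons 652 621 .nil .nil)) .nil)))]
  [([497], (PX [] [466,497,559])), ([528], (PX [] [466,528,559]))]
  (by decide +kernel) ⟨w0_1212_497, w0_1212_528, trivial⟩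

theorem w0_1213_498 : S (PX [] [466,498,562]) := VW.play 530 (PX [530] [466,498,562]) (by decide +kernel) v0_1127

theorem w0_1213_530 : S (PX [] [466,530,562]) := VW.play 498 (PX [498] [466,530,562]) (by decide +kernel) v0_1178

theorem v0_1213 : VW (PX [] [466,562]) := VW.of base nl_ok fl_ok .nil
  [(434, (.cons 498 530 (.cons 370 402 .nil (.cons 402 370 .nil .nil)) (.cons 530 498 .nil .nil))), (594, (.cons 498 530 .nil (.cons 530 498 (.cons 626 658 .nil (.cons 658 626 .nil .nil)) .nil)))]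
  [([498], (PX [] [466,498,562])), ([530], (PX [] [466,530,562]))]
  (by decide +kernel) ⟨w0_1213_498, w0_1213_530, trivial⟩

theorem w0_1214_433 : S (PX [] [433,466,565]) := VW.play 499 (PX [499] [433,466,565]) (by decide +kernel) v0_1013

theorem w0_1214_499 : S (PX [] [466,499,565]) := VW.play 433 (PX [433] [466,499,565]) (by decide +kernel) v0_1144

theorem w0_1214_532 : S (PX [] [466,532,565]) := VW.play 499 (PX [499] [466,532,565]) (by decide +kernel) v0_1196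

theorem v0_1214 : VW (PX [] [466,565]) := VW.of base nl_ok fl_ok .nil
  [(598, (.cons 499 532 .nil (.cons 532 499 (.cons 631 664 .nil (.cons 664 631 .nil .nil)) .nil)))]
  [([433], (PX [] [433,466,565])), ([499], (PX [] [466,499,565])), ([532], (PX [] [466,532,565]))]
  (by decide +kernel) ⟨w0_1214_433, w0_1214_499, w0_1214_532, trivial⟩

theorem v0_1215 : VW (PX [] [466,590]) := VW.of base nl_ok fl_ok .nil
  [(497, (.cons 528 559 (.cons 404 435 .nil (.cons 435 404 .nil .nil)) (.cons 559 528 .nil .nil))), (528, (.cons 497 559 (.cons 404 435 .nil (.cons 435 404 .nil .nil)) (.cons 559 497 (.cons 621 652 .nil (.cons 652 621 .nil .nil)) .nil))), (559, (.cons 497 528 .nil (.cons 528 497 (.cons 621 652 .nil (.cons 652 621 .nil .nil)) .nil)))]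
  []
  (by decide +kernel) trivial

theorem v0_1216 : VW (PX [] [466,594]) := VW.of base nl_ok fl_ok .nil
  [(498, (.cons 530 562 (.cons 402 434 .nil (.cons 434 402 .nil .nil)) (.cons 562 530 .nil .nil))), (530, (.cons 498 562 (.cons 402 434 .nil (.cons 434 402 .nil .nil)) (.cons 562 498 (.cons 626 658 .nil (.cons 658 626 .nil .nil)) .nil))), (562, (.cons 498 530 .nil (.cons 530 498 (.cons 626 658 .nil (.cons 658 626 .nil .nil)) .nil)))]
  []
  (by decide +kernel) trivial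

theorem w0_1217_499 : S (PX [] [466,499,598]) := VW.play 532 (PX [532] [466,499,598]) (by decide +kernel) v0_1153

theorem w0_1217_532 : S (PX [] [466,532,598]) := VW.play 499 (PX [499] [466,532,598]) (by decide +kernel) v0_1197

theorem v0_1217 : VW (PX [] [466,598]) := VW.of base nl_ok fl_ok .nil
  [(565, (.cons 499 532 .nil (.cons 532 499 (.cons 631 664 .nil (.cons 664 631 .nil .nil)) .nil)))]
  [([499], (PX [] [466,499,598])), ([532], (PX [] [466,532,598]))]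
  (by decide +kernel) ⟨w0_1217_499, w0_1217_532, trivial⟩

theorem r402 : S (Nat.lor X2 (bits [466, 402])) := VW.play 394 (PX [] [402,466]) (by decide +kernel) v0_453

theorem r404 : S (Nat.lor X2 (bits [466, 404])) := VW.play 394 (PX [] [404,466]) (by decide +kernel) v0_997

theorem r433 : S (Nat.lor X2 (bits [466, 433])) := VW.play 394 (PX [] [433,466]) (by decide +kernel) v0_1021

theorem r434 : S (Nat.lor X2 (bits [466, 434])) := VW.play 394 (PX [] [434,466]) (by decide +kernel) v0_830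

theorem r435 : S (Nat.lor X2 (bits [466, 435])) := VW.play 394 (PX [] [435,466]) (by decide +kernel) v0_1025

theorem r462 : S (Nat.lor X2 (bits [466, 462])) := VW.play 394 (PX [] [462,466]) (by decide +kernel) v0_1052

theorem r463 : S (Nat.lor X2 (bits [466, 463])) := VW.play 394 (PX [] [463,466]) (by decide +kernel) v0_1064

theorem r464 : S (Nat.lor X2 (bits [466, 464])) := VW.play 394 (PX [] [464,466]) (by decide +kernel) v0_1069

theorem r465 : S (Nat.lor X2 (bits [466, 465])) := VW.play 394 (PX [] [465,466]) (by decide +kernel) v0_1087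

theorem r467 : S (Nat.lor X2 (bits [466, 467])) := VW.play 394 (PX [] [466,467]) (by decide +kernel) v0_1095

theorem r468 : S (Nat.lor X2 (bits [466, 468])) := VW.play 394 (PX [] [466,468]) (by decide +kernel) v0_1111

theorem r469 : S (Nat.lor X2 (bits [466, 469])) := VW.play 394 (PX [] [466,469]) (by decide +kernel) v0_1112

theorem r470 : S (Nat.lor X2 (bits [466, 470])) := VW.play 394 (PX [] [466,470]) (by decide +kernel) v0_1113

theorem r497 : S (Nat.lor X2 (bits [466, 497])) := VW.play 394 (PX [] [466,497]) (by decide +kernel) v0_1119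

theorem r498 : S (Nat.lor X2 (bits [466, 498])) := VW.play 394 (PX [] [466,498]) (by decide +kernel) v0_1139

theorem r499 : S (Nat.lor X2 (bits [466, 499])) := VW.play 394 (PX [] [466,499]) (by decide +kernel) v0_1161

theorem r528 : S (Nat.lor X2 (bits [466, 528])) := VW.play 394 (PX [] [466,528]) (by decide +kernel) v0_1163

theorem r530 : S (Nat.lor X2 (bits [466, 530])) := VW.play 394 (PX [] [466,530]) (by decide +kernel) v0_1181

theorem r532 : S (Nat.lor X2 (bits [466, 532])) := VW.play 394 (PX [] [466,532]) (by decide +kernel) v0_1211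

theorem r559 : S (Nat.lor X2 (bits [466, 559])) := VW.play 394 (PX [] [466,559]) (by decide +kernel) v0_1212

theorem r562 : S (Nat.lor X2 (bits [466, 562])) := VW.play 394 (PX [] [466,562]) (by decide +kernel) v0_1213

theorem r565 : S (Nat.lor X2 (bits [466, 565])) := VW.play 394 (PX [] [466,565]) (by decide +kernel) v0_1214

theorem r590 : S (Nat.lor X2 (bits [466, 590])) := VW.play 394 (PX [] [466,590]) (by decide +kernel) v0_1215

theorem r594 : S (Nat.lor X2 (bits [466, 594])) := VW.play 394 (PX [] [466,594]) (by decide +kernel) v0_1216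

theorem r598 : S (Nat.lor X2 (bits [466, 598])) := VW.play 394 (PX [] [466,598]) (by decide +kernel) v0_1217

theorem r333 : S (Nat.lor X2 (bits [466, 333])) := S.of (.q 395 (.a 1 [] (.q 394 (.a 1 [] (.d 393 392 392 393 397)
 (.a 1 [392] (.d 397 393 393 394 398)
 (.a 0 [393,397] (.q 427 (.a 1 [] (.d 331 1323 299 1355 459)
 (.a 1 [299] (.d 459 1355 331 1387 491)
 (.a 0 [331,459] (.q 332 (.a 1 [] (.d 301 3342 270 3373 425)
 (.a 1 [270] (.d 425 3373 301 3404 456)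
 (.a 0 [301,425] (.q 365 (.a 1 [] (.d 334 3375 303 3406 458)
 (.a 1 [303] (.d 458 3406 334 3437 489)
 (.a 0 [334,458] (.q 364 (.a 1 [] (.d 362 361 361 362 366)
 (.a 1 [361] (.d 366 362 362 363 367)
 (.a 1 [362] (.d 300 1292 268 1324 428)
 .e))))
 .e))))
 .e))))
 .e))))
 .e))))
 (.a 1 [269] (.q 427 (.a 1 [] (.d 331 1323 299 1355 459)
 (.a 1 [331] (.q 330 (.a 1 [] (.d 297 2312 264 2345 429)
 (.a 1 [264] (.d 429 2345 297 2378 462)
 (.a 0 [297,429] (.q 398 (.a 1 [] (.d 397 394 394 395 399)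
 (.a 0 [394,397,399] (.q 365 (.a 1 [] (.d 334 3375 303 3406 458)
 (.a 1 [303] (.d 458 3406 334 3437 489)
 (.a 0 [334,458] (.q 332 (.a 1 [] (.d 299 2314 266 2347 431)
 (.a 1 [266] (.d 431 2347 299 2380 464)
 (.a 0 [299,431] (.q 364 (.a 1 [] (.d 362 361 361 362 366)
 (.a 1 [361] (.d 366 362 362 363 367)
 (.a 1 [362] (.d 300 1292 268 1324 428)
 .e))))
 .e))))
 .e))))
 .e)))
 .e))))
 (.a 1 [299] (.d 459 1355 331 1387 491)
 .e))))
 (.a 0 [394] (.q 330 (.a 1 [] (.d 297 2312 264 2345 429)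
 (.a 1 [297] (.q 427 (.a 1 [] (.d 331 1323 299 1355 459)
 (.a 1 [331] (.r 429 2378 462 (.q 428 (.a 1 [] (.d 426 425 425 426 430)
 (.a 1 [425] (.d 430 426 426 427 431)
 (.a 0 [426,430] (.q 460 (.a 1 [] (.d 364 1356 332 1388 492)
 (.a 1 [332] (.d 492 1388 364 1420 524)
 (.a 1 [364] (.r 491 1387 459 (.d 522 3470 398 3501 553))
 .e))))
 .e)))))
 (.a 1 [459] (.q 365 (.a 1 [] (.d 334 3375 303 3406 458)
 (.a 1 [303] (.d 458 3406 334 3437 489)
 (.a 0 [334,458] (.q 362 (.a 1 [] (.d 364 361 361 362 366)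
 (.a 1 [366] (.r 361 361 364 (.r 299 1323 331 (.d 392 3340 268 3371 423)))
 (.a 0 [361,364] (.q 329 (.a 1 [] (.d 296 2311 263 2344 428)
 (.a 1 [263] (.d 428 2344 296 2377 461)
 (.a 1 [296] (.r 331 1323 299 (.d 328 327 327 328 332))
 .e))))
 .e))))
 .e))))
 .e))))
 (.a 1 [429] (.q 299 (.a 1 [] (.d 331 1291 267 1323 427)
 (.a 0 [267,331,427] (.q 361 (.a 1 [] (.d 268 3309 237 3340 392)
 (.a 1 [237] (.d 392 3340 268 3371 423)
 (.a 0 [268,392] (.q 362 (.a 1 [] (.d 360 359 359 360 364)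
 (.a 1 [359] (.d 364 360 360 361 365)
 (.a 0 [360,364] (.q 296 (.a 1 [] (.d 329 2311 263 2344 428)
 (.a 1 [263] (.r 297 2312 264 (.d 298 295 295 296 300))
 .e)))
 .e))))
 .e))))
 .e)))
 (.a 1 [264] (.d 429 2345 297 2378 462)
 .e)))))
 (.a 0 [427] (.q 429 (.a 1 [] (.d 330 2345 297 2378 462)
 (.a 1 [462] (.q 394 (.a 1 [] (.d 393 392 392 393 397)
 (.a 1 [397] (.r 330 2345 297 (.q 362 (.a 1 [] (.d 298 1290 266 1322 426)
 (.a 1 [266] (.d 426 1322 298 1354 458)
 (.a 0 [298,426] (.q 361 (.a 1 [] (.d 360 359 359 360 364)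
 (.a 1 [359] (.d 364 360 360 361 365)
 (.a 1 [360] (.r 392 392 393 (.d 423 3371 299 3402 454))
 .e))))
 .e)))))
 (.a 1 [393] (.q 332 (.a 1 [] (.d 301 3342 270 3373 425)
 (.a 1 [270] (.d 425 3373 301 3404 456)
 (.a 0 [301,425] (.q 428 (.a 1 [] (.d 364 1324 300 1356 460)
 (.a 1 [300] (.r 460 1356 364 (.r 398 394 397 (.d 491 3439 367 3470 522)))
 (.a 0 [364,460] (.q 461 (.a 1 [] (.d 362 2377 329 2410 494)
 (.a 1 [329] (.d 494 2410 362 2443 527)
 (.a 1 [362] (.r 397 394 398 (.d 493 1389 365 1421 525))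
 .e))))
 .e))))
 .e))))
 .e))))
 (.a 1 [330] (.q 398 (.a 1 [] (.d 397 394 394 395 399)
 (.a 0 [394,397,399] (.q 460 (.a 1 [] (.d 367 3408 336 3439 491)
 (.a 1 [336] (.d 491 3439 367 3470 522)
 (.a 0 [367,491] (.q 428 (.a 1 [] (.d 364 1356 332 1388 492)
 (.a 1 [332] (.d 492 1388 364 1420 524)
 (.a 0 [364,492] (.q 494 (.a 1 [] (.d 461 2410 362 2443 527)
 (.a 1 [362] (.r 462 2411 495 (.d 430 1390 366 1422 526))
 .e)))
 .e))))
 .e))))
 .e)))
 .e))))
 (.a 0 [331] (.q 394 (.a 1 [] (.d 393 392 392 393 397)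
 (.a 0 [397] (.q 332 (.a 1 [] (.d 301 3342 270 3373 425)
 (.a 0 [301] (.q 429 (.a 1 [] (.d 330 2345 297 2378 462)
 (.a 0 [330] (.r 425 3404 456 (.r 393 392 392 (.q 364 (.a 1 [] (.d 300 1292 268 1324 428)
 (.a 0 [365] (.q 269 (.a 1 [] (.d 300 1292 268 1324 428)
 (.a 1 [428] (.r 268 1292 300 (.q 361 (.a 1 [] (.d 329 1321 297 1353 457)
 (.a 1 [457] (.q 459 (.a 1 [] (.r 427 1387 491 (.d 460 2376 328 2409 493))
 (.a 1 [328] (.r 360 360 362 (.d 426 2375 327 2408 492))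
 .e)))
 (.a 1 [329] (.q 328 (.a 1 [] (.d 295 2310 262 2343 427)
 (.a 1 [262] (.d 427 2343 295 2376 460)
 (.a 1 [295] (.r 427 2376 460 (.r 457 1385 489 (.r 426 3436 488 (.r 360 360 362 (.d 459 1387 491 2408 492)))))
 (.a 0 [427] (.q 426 (.a 1 [] (.d 457 3436 488 1385 489)
 (.a 1 [457] (.r 360 360 362 (.d 459 2375 327 2408 492))
 .e)))
 .e)))))
 (.a 1 [297] (.d 457 1353 329 1385 489)
 .e))))))
 (.a 1 [300] (.r 428 1356 460 (.r 426 425 427 (.r 457 3436 488 (.d 489 1385 361 1417 521))))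
 .e))))
 (.a 1 [269] (.q 365 (.a 1 [] (.d 300 1292 268 1324 428)
 (.a 1 [237] (.q 205 (.a 1 [] (.d 300 1292 268 1324 428)
 (.a 1 [428] (.d 362 361 361 362 366)
 .e)))
 (.a 1 [205] (.q 237 (.a 1 [] (.d 300 1292 268 1324 428)
 (.a 1 [428] (.d 362 361 361 362 366)
 .e)))
 (.a 1 [428] (.d 362 361 361 362 366)
 .e)))))
 (.a 1 [428] (.q 365 (.a 1 [] (.d 362 361 361 362 366)
 (.a 1 [361] (.d 366 362 362 363 367)
 (.a 1 [366] (.r 361 361 362 (.d 457 1353 329 1385 489))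
 (.a 0 [362] (.q 398 (.a 1 [] (.d 299 2314 266 2347 431)
 (.a 1 [266] (.d 431 2347 299 2380 464)
 (.a 1 [299] (.r 367 363 366 (.d 460 3408 336 3439 491))
 .e))))
 .e)))))
 (.a 1 [300] (.r 428 1356 460 (.r 426 425 427 (.r 457 3436 488 (.d 489 1385 361 1417 521))))
 .e))))))))
 (.a 0 [462] (.r 330 2345 297 (.r 425 3404 456 (.q 364 (.a 1 [] (.d 300 1292 268 1324 428)
 (.a 1 [365] (.q 269 (.a 1 [] (.d 428 1324 300 1356 460)
 (.a 1 [428] (.q 361 (.a 1 [] (.r 392 392 393 (.d 423 3371 299 3402 454))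
 (.a 1 [299] (.r 362 360 360 (.d 426 1322 298 1354 458))
 .e)))
 (.a 1 [300] (.r 428 1356 460 (.r 426 425 427 (.d 362 1322 298 1354 458)))
 .e))))
 (.a 1 [269] (.q 365 (.a 1 [] (.d 428 1324 300 1356 460)
 (.a 1 [237] (.q 205 (.a 1 [] (.d 300 1292 268 1324 428)
 (.a 1 [428] (.d 362 361 361 362 366)
 .e)))
 (.a 1 [205] (.q 237 (.a 1 [] (.d 366 362 362 363 367)
 (.a 1 [362] (.d 428 1324 300 1356 460)
 .e)))
 (.a 1 [428] (.d 362 361 361 362 366)
 .e)))))
 (.a 1 [428] (.q 365 (.a 1 [] (.d 362 361 361 362 366)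
 (.a 1 [361] (.d 366 362 362 363 367)
 (.a 1 [366] (.r 362 361 361 (.d 426 1322 298 1354 458))
 (.a 0 [362] (.q 299 (.a 1 [] (.d 266 2281 233 2314 398)
 (.a 1 [233] (.d 398 2314 266 2347 431)
 (.a 1 [266] (.r 268 1292 300 (.d 361 3309 237 3340 392))
 .e))))
 .e)))))
 (.a 1 [300] (.r 428 1356 460 (.r 426 425 427 (.d 362 1322 298 1354 458)))
 .e))))))))
 (.a 1 [365] (.q 269 (.a 1 [] (.d 462 2378 330 2411 495)
 (.a 1 [330] (.r 425 3404 456 (.q 491 (.a 1 [] (.r 427 1387 459 (.r 428 425 426 (.d 364 1324 300 1356 460)))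
 (.a 1 [300] (.r 427 1387 459 (.r 428 425 426 (.r 460 1356 364 (.d 522 3470 398 3501 553))))
 (.a 1 [364] (.r 427 1387 459 (.r 428 425 426 (.r 392 392 393 (.d 458 2407 359 2440 524))))
 (.a 1 [426] (.r 392 392 393 (.d 458 2407 359 2440 524))
 .e))))))
 .e)))
 (.a 0 [269] (.q 365 (.a 1 [] (.d 330 2345 297 2378 462)
 (.a 1 [330] (.r 425 3404 456 (.r 393 392 392 (.q 364 (.a 1 [] (.d 362 361 361 362 366)
 (.a 1 [237] (.q 205 (.a 1 [] (.d 300 1292 268 1324 428)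
 (.a 1 [428] (.d 362 361 361 362 366)
 .e)))
 (.a 1 [205] (.q 237 (.a 1 [] (.d 300 1292 268 1324 428)
 (.a 1 [428] (.d 362 361 361 362 366)
 .e)))
 (.a 1 [361] (.d 300 1292 268 1324 428)
 .e)))))))
 (.a 1 [462] (.r 425 3404 456 (.r 393 392 392 (.r 297 2345 330 (.r 361 1321 329 (.r 364 361 362 (.d 428 1324 300 1356 460))))))
 (.a 1 [205] (.q 237 (.a 1 [] (.d 462 2378 330 2411 495)
 (.a 1 [330] (.q 364 (.a 1 [] (.d 362 361 361 362 366)
 (.a 1 [361] (.d 366 362 362 363 367)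
 (.a 1 [362] (.d 300 1292 268 1324 428)
 .e))))
 .e)))
 (.a 1 [237] (.q 205 (.a 1 [] (.d 462 2378 330 2411 495)
 (.a 1 [330] (.q 364 (.a 1 [] (.d 362 361 361 362 366)
 (.a 1 [361] (.d 366 362 362 363 367)
 (.a 1 [362] (.d 300 1292 268 1324 428)
 .e))))
 .e)))
 (.a 1 [297] (.d 462 2378 330 2411 495)
 .e)))))))
 (.a 1 [297] (.d 462 2378 330 2411 495)
 .e)))))))
 (.a 1 [425] (.q 364 (.a 1 [] (.d 300 1292 268 1324 428)
 (.a 1 [428] (.q 330 (.a 1 [] (.d 297 2312 264 2345 429)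
 (.a 1 [264] (.d 429 2345 297 2378 462)
 (.a 0 [297,429] (.r 392 392 393 (.r 268 1292 300 (.r 361 3340 299 (.d 362 360 360 361 365))))
 .e))))
 (.a 1 [300] (.q 362 (.a 1 [] (.d 361 360 360 361 365)
 (.a 1 [360] (.d 365 361 361 362 366)
 (.a 1 [361] (.r 428 1356 460 (.d 461 2377 329 2410 494))
 .e))))
 .e))))
 .e))))
 (.a 1 [393] (.q 332 (.a 1 [] (.d 301 3342 270 3373 425)
 (.a 1 [270] (.d 425 3373 301 3404 456)
 (.a 0 [301,425] (.q 429 (.a 1 [] (.d 330 2345 297 2378 462)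
 (.a 1 [297] (.d 462 2378 330 2411 495)
 (.a 0 [330,462] (.q 428 (.a 1 [] (.d 364 1324 300 1356 460)
 (.a 1 [300] (.r 460 1356 364 (.r 398 394 397 (.d 491 3439 367 3470 522)))
 (.a 0 [364,460] (.q 461 (.a 1 [] (.d 362 2377 329 2410 494)
 (.a 1 [329] (.d 494 2410 362 2443 527)
 (.a 1 [362] (.r 397 394 398 (.d 493 1389 365 1421 525))
 .e))))
 .e))))
 .e))))
 .e))))
 .e))))
 (.a 0 [397] (.q 427 (.a 1 [] (.d 331 1323 299 1355 459)
 (.a 0 [331] (.q 365 (.a 1 [] (.d 334 3375 303 3406 458)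
 (.a 0 [334] (.q 330 (.a 1 [] (.d 297 2312 264 2345 429)
 (.a 0 [429] (.r 458 3437 489 (.r 459 1387 491 (.q 364 (.a 1 [] (.d 362 361 361 362 366)
 (.a 0 [332] (.q 335 (.a 1 [] (.d 366 362 362 363 367)
 (.a 1 [362] (.r 367 363 366 (.q 460 (.a 1 [] (.d 457 456 456 457 461)
 (.a 1 [457] (.q 393 (.a 1 [] (.r 394 392 392 (.d 493 2409 361 2442 526))
 (.a 1 [361] (.r 492 1388 428 (.d 426 2408 360 2441 525))
 .e)))
 (.a 1 [461] (.q 493 (.a 1 [] (.d 394 2409 361 2442 526)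
 (.a 1 [361] (.d 526 2442 394 2475 559)
 (.a 1 [526] (.r 394 2409 361 (.r 457 456 456 (.r 426 3436 488 (.r 492 1388 428 (.d 393 2408 360 392 392)))))
 (.a 0 [394] (.q 426 (.a 1 [] (.d 457 456 456 3436 488)
 (.a 1 [456] (.r 492 1388 428 (.d 525 2441 393 2474 558))
 .e)))
 .e)))))
 .e)))))
 (.a 1 [366] (.r 362 361 361 (.r 426 1354 394 (.r 457 3436 488 (.d 460 456 456 457 461))))
 .e))))
 (.a 1 [335] (.q 332 (.a 1 [] (.d 366 362 362 363 367)
 (.a 1 [336] (.q 337 (.a 1 [] (.d 300 1292 268 1324 428)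
 (.a 1 [268] (.d 428 1324 300 1356 460)
 (.a 1 [300] (.d 362 361 361 362 366)
 .e))))
 (.a 1 [337] (.q 336 (.a 1 [] (.d 428 1324 300 1356 460)
 (.a 1 [300] (.d 366 362 362 363 367)
 .e)))
 (.a 1 [362] (.d 428 1324 300 1356 460)
 .e)))))
 (.a 1 [362] (.q 332 (.a 1 [] (.d 300 1292 268 1324 428)
 (.a 1 [268] (.d 428 1324 300 1356 460)
 (.a 1 [300] (.r 460 1356 428 (.d 461 457 457 458 462))
 (.a 0 [428] (.q 299 (.a 1 [] (.d 266 2281 233 2314 398)
 (.a 1 [233] (.d 398 2314 266 2347 431)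
 (.a 1 [266] (.r 268 1292 300 (.d 361 3309 237 3340 392))
 .e))))
 .e)))))
 (.a 1 [366] (.r 362 361 361 (.r 426 1354 394 (.r 457 3436 488 (.d 460 456 456 457 461))))
 (.a 1 [361] (.d 366 362 362 363 367)
 .e)))))))))
 (.a 0 [297] (.r 429 2378 462 (.r 458 3437 489 (.q 364 (.a 1 [] (.d 362 361 361 362 366)
 (.a 1 [332] (.q 335 (.a 1 [] (.d 362 361 361 362 366)
 (.a 1 [362] (.q 460 (.a 1 [] (.r 491 1387 459 (.d 367 363 366 3439 398))
 (.a 1 [366] (.r 491 1387 459 (.d 522 3470 398 3501 553))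
 (.a 1 [398] (.r 428 1388 492 (.d 430 426 426 427 431))
 .e))))
 (.a 1 [366] (.r 362 361 361 (.r 426 1354 394 (.d 428 425 425 426 430)))
 .e))))
 (.a 1 [335] (.q 332 (.a 1 [] (.d 362 361 361 362 366)
 (.a 1 [336] (.q 337 (.a 1 [] (.d 300 1292 268 1324 428)
 (.a 1 [268] (.d 428 1324 300 1356 460)
 (.a 1 [300] (.d 362 361 361 362 366)
 .e))))
 (.a 1 [337] (.q 336 (.a 1 [] (.d 362 361 361 362 366)
 (.a 1 [362] (.d 300 1292 268 1324 428)
 .e)))
 (.a 1 [362] (.d 300 1292 268 1324 428)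
 .e)))))
 (.a 1 [362] (.q 332 (.a 1 [] (.d 300 1292 268 1324 428)
 (.a 1 [268] (.d 428 1324 300 1356 460)
 (.a 1 [300] (.r 428 1356 460 (.d 430 426 426 427 431))
 (.a 0 [428] (.q 398 (.a 1 [] (.d 299 2314 266 2347 431)
 (.a 1 [266] (.d 431 2347 299 2380 464)
 (.a 1 [299] (.r 367 363 366 (.d 491 1387 459 3439 460))
 .e))))
 .e)))))
 (.a 1 [366] (.r 362 361 361 (.r 426 1354 394 (.d 428 425 425 426 430)))
 .e))))))))
 (.a 1 [332] (.q 335 (.a 1 [] (.d 297 2312 264 2345 429)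
 (.a 1 [429] (.r 458 3437 489 (.q 392 (.a 1 [] (.r 394 392 393 (.r 362 1354 426 (.d 364 361 361 362 366)))
 (.a 1 [361] (.r 491 1387 459 (.d 425 2407 359 2440 524))
 .e))))
 .e)))
 (.a 0 [335] (.q 332 (.a 1 [] (.d 429 2345 297 2378 462)
 (.a 1 [429] (.r 458 3437 489 (.r 459 1387 491 (.q 364 (.a 1 [] (.d 362 361 361 362 366)
 (.a 1 [336] (.q 337 (.a 1 [] (.d 300 1292 268 1324 428)
 (.a 1 [268] (.d 428 1324 300 1356 460)
 (.a 1 [300] (.d 362 361 361 362 366)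
 .e))))
 (.a 1 [337] (.q 336 (.a 1 [] (.d 428 1324 300 1356 460)
 (.a 1 [300] (.d 366 362 362 363 367)
 .e)))
 (.a 1 [362] (.d 428 1324 300 1356 460)
 .e)))))))
 (.a 1 [297] (.r 458 3437 489 (.r 459 1387 491 (.r 462 2378 429 (.r 460 458 461 (.r 364 1356 428 (.d 362 361 361 362 366))))))
 (.a 1 [336] (.q 337 (.a 1 [] (.d 297 2312 264 2345 429)
 (.a 1 [429] (.q 364 (.a 1 [] (.d 362 361 361 362 366)
 (.a 1 [361] (.d 366 362 362 363 367)
 (.a 1 [362] (.d 300 1292 268 1324 428)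
 .e))))
 .e)))
 (.a 1 [337] (.q 336 (.a 1 [] (.d 297 2312 264 2345 429)
 (.a 1 [429] (.q 364 (.a 1 [] (.d 362 361 361 362 366)
 (.a 1 [361] (.d 366 362 362 363 367)
 (.a 1 [362] (.d 300 1292 268 1324 428)
 .e))))
 .e)))
 (.a 1 [462] (.d 297 2312 264 2345 429)
 .e)))))))
 (.a 1 [264] (.d 429 2345 297 2378 462)
 .e)))))))
 (.a 1 [458] (.q 364 (.a 1 [] (.d 362 361 361 362 366)
 (.a 1 [362] (.q 429 (.a 1 [] (.d 330 2345 297 2378 462)
 (.a 1 [297] (.d 462 2378 330 2411 495)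
 (.a 0 [330,462] (.r 491 1387 459 (.r 367 363 366 (.r 460 3439 398 (.d 428 1356 332 1388 492))))
 .e))))
 (.a 1 [366] (.q 428 (.a 1 [] (.d 332 1324 300 1356 460)
 (.a 1 [300] (.d 460 1356 332 1388 492)
 (.a 1 [332] (.r 362 361 361 (.d 461 2377 329 2410 494))
 .e))))
 .e))))
 (.a 1 [303] (.d 458 3406 334 3437 489)
 .e)))))
 (.a 1 [459] (.q 365 (.a 1 [] (.d 334 3375 303 3406 458)
 (.a 1 [303] (.d 458 3406 334 3437 489)
 (.a 0 [334,458] (.q 330 (.a 1 [] (.d 297 2312 264 2345 429)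
 (.a 1 [264] (.d 429 2345 297 2378 462)
 (.a 0 [297,429] (.q 362 (.a 1 [] (.d 364 361 361 362 366)
 (.a 1 [366] (.r 361 361 364 (.r 299 1323 331 (.d 392 3340 268 3371 423)))
 (.a 0 [361,364] (.q 329 (.a 1 [] (.d 296 2311 263 2344 428)
 (.a 1 [263] (.d 428 2344 296 2377 461)
 (.a 1 [296] (.r 331 1323 299 (.d 328 327 327 328 332))
 .e))))
 .e))))
 .e))))
 .e))))
 (.a 1 [299] (.d 459 1355 331 1387 491)
 .e)))))
 (.a 1 [364] (.q 330 (.a 1 [] (.d 297 2312 264 2345 429)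
 (.a 1 [429] (.q 331 (.a 1 [] (.d 299 1291 267 1323 427)
 (.a 1 [267] (.d 427 1323 299 1355 459)
 (.a 0 [299,427] (.q 329 (.a 1 [] (.d 328 327 327 328 332)
 (.a 0 [327,328,332] (.q 393 (.a 1 [] (.d 394 392 392 393 397)
 (.a 1 [392] (.r 297 2312 264 (.d 361 1289 265 1321 425))
 .e)))
 .e)))
 .e))))
 (.a 1 [297] (.q 394 (.a 1 [] (.d 393 392 392 393 397)
 (.a 1 [392] (.d 397 393 393 394 398)
 (.a 0 [393,397] (.q 331 (.a 1 [] (.d 299 1291 267 1323 427)
 (.a 1 [267] (.d 427 1323 299 1355 459)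
 (.a 0 [299,427] (.q 329 (.a 1 [] (.d 328 327 327 328 332)
 (.a 1 [327] (.r 332 328 328 (.d 301 3342 270 3373 425))
 (.a 0 [328,332] (.q 362 (.a 1 [] (.d 298 1290 266 1322 426)
 (.a 1 [266] (.d 426 1322 298 1354 458)
 (.a 1 [298] (.d 296 2311 263 2344 428)
 .e))))
 .e))))
 .e))))
 .e))))
 .e))))
 (.a 1 [332] (.q 331 (.a 1 [] (.d 299 1291 267 1323 427)
 (.a 1 [427] (.q 397 (.a 1 [] (.d 394 393 393 394 398)
 (.a 1 [393] (.d 398 394 394 395 399)
 (.a 0 [394,398] (.q 298 (.a 1 [] (.d 364 2313 265 2346 430)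
 (.a 0 [265,364,430] (.q 297 (.a 1 [] (.d 330 2312 264 2345 429)
 (.a 1 [264] (.r 299 1291 267 (.d 300 296 296 297 301))
 .e)))
 .e)))
 .e))))
 (.a 1 [299] (.q 429 (.a 1 [] (.d 330 2345 297 2378 462)
 (.a 1 [297] (.d 462 2378 330 2411 495)
 (.a 0 [330,462] (.q 398 (.a 1 [] (.d 397 394 394 395 399)
 (.a 0 [394,397,399] (.q 460 (.a 1 [] (.d 367 3408 336 3439 491)
 (.a 1 [336] (.d 491 3439 367 3470 522)
 (.a 0 [367,491] (.q 428 (.a 1 [] (.d 492 1388 364 1420 524)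
 (.a 1 [364] (.r 427 1355 459 (.d 430 426 426 427 431))
 .e)))
 .e))))
 .e)))
 .e))))
 (.a 1 [267] (.d 427 1323 299 1355 459)
 .e)))))
 (.a 1 [365] (.q 330 (.a 1 [] (.d 297 2312 264 2345 429)
 (.a 1 [429] (.q 397 (.a 1 [] (.d 394 393 393 394 398)
 (.a 1 [393] (.d 398 394 394 395 399)
 (.a 0 [394,398] (.q 299 (.a 1 [] (.d 331 1291 267 1323 427)
 (.a 0 [267,331,427] (.q 361 (.a 1 [] (.d 268 3309 237 3340 392)
 (.a 1 [237] (.d 392 3340 268 3371 423)
 (.a 0 [268,392] (.q 362 (.a 1 [] (.d 360 359 359 360 364)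
 (.a 0 [359,360,364] (.q 296 (.a 1 [] (.d 329 2311 263 2344 428)
 (.a 1 [263] (.r 297 2312 264 (.d 298 295 295 296 300))
 .e)))
 .e)))
 .e))))
 .e)))
 .e))))
 (.a 1 [297] (.q 397 (.a 1 [] (.d 394 393 393 394 398)
 (.a 1 [393] (.d 398 394 394 395 399)
 (.a 0 [394,398] (.q 459 (.a 1 [] (.d 427 1355 331 1387 491)
 (.a 0 [331,427,491] (.q 428 (.a 1 [] (.d 366 3407 335 3438 490)
 (.a 1 [335] (.d 490 3438 366 3469 521)
 (.a 0 [366,490] (.q 460 (.a 1 [] (.d 364 1356 332 1388 492)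
 (.a 1 [332] (.d 492 1388 364 1420 524)
 (.a 1 [364] (.r 462 2378 429 (.d 461 458 458 459 463))
 .e))))
 .e))))
 .e)))
 .e))))
 .e))))
 (.a 1 [362] (.q 394 (.a 1 [] (.d 393 392 392 393 397)
 (.a 1 [393] (.q 331 (.a 1 [] (.d 299 1291 267 1323 427)
 (.a 1 [267] (.d 427 1323 299 1355 459)
 (.a 0 [299,427] (.q 332 (.a 1 [] (.d 301 3342 270 3373 425)
 (.a 1 [270] (.d 425 3373 301 3404 456)
 (.a 0 [301,425] (.q 364 (.a 1 [] (.d 300 1292 268 1324 428)
 (.a 1 [268] (.d 428 1324 300 1356 460)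
 (.a 1 [300] (.r 397 394 398 (.d 430 2346 298 2379 463))
 .e))))
 .e))))
 .e))))
 (.a 1 [397] (.q 427 (.a 1 [] (.d 331 1323 299 1355 459)
 (.a 1 [299] (.d 459 1355 331 1387 491)
 (.a 0 [331,459] (.q 332 (.a 1 [] (.d 301 3342 270 3373 425)
 (.a 1 [270] (.d 425 3373 301 3404 456)
 (.a 0 [301,425] (.q 365 (.a 1 [] (.d 334 3375 303 3406 458)
 (.a 1 [303] (.d 458 3406 334 3437 489)
 (.a 0 [334,458] (.q 460 (.a 1 [] (.d 361 2376 328 2409 493)
 (.a 1 [328] (.d 493 2409 361 2442 526)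
 (.a 0 [361,493] (.q 429 (.a 1 [] (.d 330 2345 297 2378 462)
 (.a 1 [297] (.d 462 2378 330 2411 495)
 (.a 1 [330] (.r 428 1356 364 (.d 430 426 426 427 431))
 .e))))
 .e))))
 .e))))
 .e))))
 .e))))
 (.a 1 [392] (.d 397 393 393 394 398)
 .e)))))
 (.a 1 [428] (.q 427 (.a 1 [] (.d 331 1323 299 1355 459)
 (.a 1 [459] (.q 397 (.a 1 [] (.d 394 393 393 394 398)
 (.a 1 [393] (.d 398 394 394 395 399)
 (.a 0 [394,398] (.q 365 (.a 1 [] (.d 334 3375 303 3406 458)
 (.a 1 [303] (.d 458 3406 334 3437 489)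
 (.a 0 [334,458] (.q 364 (.a 1 [] (.d 362 361 361 362 366)
 (.a 1 [361] (.d 366 362 362 363 367)
 (.a 1 [362] (.r 331 1323 299 (.d 430 2346 298 2379 463))
 .e))))
 .e))))
 .e))))
 (.a 1 [331] (.q 394 (.a 1 [] (.d 393 392 392 393 397)
 (.a 1 [392] (.d 397 393 393 394 398)
 (.a 0 [393,397] (.q 365 (.a 1 [] (.d 334 3375 303 3406 458)
 (.a 1 [303] (.d 458 3406 334 3437 489)
 (.a 0 [334,458] (.q 332 (.a 1 [] (.d 301 3342 270 3373 425)
 (.a 1 [270] (.d 425 3373 301 3404 456)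
 (.a 0 [301,425] (.q 361 (.a 1 [] (.d 328 2343 295 2376 460)
 (.a 1 [295] (.d 460 2376 328 2409 493)
 (.a 0 [328,460] (.q 330 (.a 1 [] (.d 297 2312 264 2345 429)
 (.a 1 [264] (.d 429 2345 297 2378 462)
 (.a 1 [297] (.r 362 361 364 (.d 298 1290 266 1322 426))
 .e))))
 .e))))
 .e))))
 .e))))
 .e))))
 (.a 1 [299] (.d 459 1355 331 1387 491)
 .e)))))
 (.a 1 [334] (.q 394 (.a 1 [] (.d 393 392 392 393 397)
 (.a 1 [397] (.q 429 (.a 1 [] (.d 330 2345 297 2378 462)
 (.a 1 [297] (.d 462 2378 330 2411 495)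
 (.a 0 [330,462] (.q 427 (.a 1 [] (.d 331 1323 299 1355 459)
 (.a 1 [299] (.d 459 1355 331 1387 491)
 (.a 0 [331,459] (.q 332 (.a 1 [] (.d 301 3342 270 3373 425)
 (.a 1 [270] (.d 425 3373 301 3404 456)
 (.a 1 [301] (.r 425 3404 456 (.r 428 425 426 (.d 364 1324 300 1356 460)))
 (.a 0 [425] (.q 428 (.a 1 [] (.d 430 426 426 427 431)
 (.a 1 [426] (.d 364 1324 300 1356 460)
 .e)))
 .e)))))
 .e))))
 .e))))
 (.a 1 [393] (.q 332 (.a 1 [] (.d 301 3342 270 3373 425)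
 (.a 1 [270] (.d 425 3373 301 3404 456)
 (.a 0 [301,425] (.q 299 (.a 1 [] (.d 331 1291 267 1323 427)
 (.a 1 [267] (.r 398 394 397 (.d 365 2314 266 2347 431))
 .e)))
 .e))))
 .e))))
 (.a 1 [301] (.q 427 (.a 1 [] (.d 331 1323 299 1355 459)
 (.a 1 [331] (.q 330 (.a 1 [] (.d 297 2312 264 2345 429)
 (.a 1 [264] (.d 429 2345 297 2378 462)
 (.a 0 [297,429] (.q 394 (.a 1 [] (.d 393 392 392 393 397)
 (.a 1 [365] (.d 397 393 393 394 398)
 (.a 0 [393,397] (.q 365 (.a 1 [] (.d 334 3375 303 3406 458)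
 (.a 1 [303] (.d 458 3406 334 3437 489)
 (.a 1 [334] (.r 458 3437 489 (.r 362 1354 426 (.d 364 361 361 362 366)))
 (.a 0 [458] (.q 362 (.a 1 [] (.d 364 361 361 362 366)
 (.a 1 [361] (.d 298 1290 266 1322 426)
 .e)))
 .e)))))
 .e))))
 .e))))
 (.a 1 [459] (.q 365 (.a 1 [] (.d 334 3375 303 3406 458)
 (.a 1 [303] (.d 458 3406 334 3437 489)
 (.a 0 [334,458] (.q 398 (.a 1 [] (.d 397 394 394 395 399)
 (.a 1 [394] (.r 299 1323 331 (.d 332 2314 266 2347 431))
 .e)))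
 .e))))
 (.a 1 [299] (.d 459 1355 331 1387 491)
 .e)))))
 (.a 1 [300] (.q 394 (.a 1 [] (.d 393 392 392 393 397)
 (.a 1 [397] (.q 427 (.a 1 [] (.d 331 1323 299 1355 459)
 (.a 1 [299] (.d 459 1355 331 1387 491)
 (.a 0 [331,459] (.q 365 (.a 1 [] (.d 334 3375 303 3406 458)
 (.a 1 [303] (.d 458 3406 334 3437 489)
 (.a 0 [334,458] (.q 332 (.a 1 [] (.d 301 3342 270 3373 425)
 (.a 1 [270] (.d 425 3373 301 3404 456)
 (.a 0 [301,425] (.q 364 (.a 1 [] (.d 362 361 361 362 366)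
 (.a 1 [361] (.d 366 362 362 363 367)
 (.a 1 [362] (.r 460 1356 428 (.d 493 2409 361 2442 526))
 (.a 1 [366] (.r 361 361 362 (.d 460 1356 428 2409 493))
 .e)))))
 .e))))
 .e))))
 .e))))
 (.a 1 [393] (.q 331 (.a 1 [] (.d 299 1291 267 1323 427)
 (.a 1 [267] (.d 427 1323 299 1355 459)
 (.a 0 [299,427] (.q 330 (.a 1 [] (.d 297 2312 264 2345 429)
 (.a 1 [264] (.d 429 2345 297 2378 462)
 (.a 0 [297,429] (.q 298 (.a 1 [] (.d 362 1290 266 1322 426)
 (.a 1 [266] (.r 397 394 398 (.d 364 2313 265 2346 430))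
 .e)))
 .e))))
 .e))))
 .e))))
 (.a 1 [366] (.q 427 (.a 1 [] (.d 331 1323 299 1355 459)
 (.a 1 [331] (.q 394 (.a 1 [] (.d 393 392 392 393 397)
 (.a 1 [392] (.d 397 393 393 394 398)
 (.a 0 [393,397] (.q 332 (.a 1 [] (.d 301 3342 270 3373 425)
 (.a 1 [270] (.d 425 3373 301 3404 456)
 (.a 0 [301,425] (.q 365 (.a 1 [] (.d 334 3375 303 3406 458)
 (.a 1 [303] (.d 458 3406 334 3437 489)
 (.a 0 [334,458] (.q 364 (.a 1 [] (.d 300 1292 268 1324 428)
 (.a 1 [268] (.d 428 1324 300 1356 460)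
 (.a 1 [300] (.r 460 1356 428 (.d 361 2376 328 361 362))
 (.a 1 [428] (.r 361 361 362 (.d 460 2376 328 2409 493))
 .e)))))
 .e))))
 .e))))
 .e))))
 (.a 1 [459] (.q 397 (.a 1 [] (.d 394 393 393 394 398)
 (.a 1 [393] (.d 398 394 394 395 399)
 (.a 0 [394,398] (.q 429 (.a 1 [] (.d 330 2345 297 2378 462)
 (.a 1 [297] (.d 462 2378 330 2411 495)
 (.a 0 [330,462] (.q 430 (.a 1 [] (.d 428 426 426 427 431)
 (.a 1 [426] (.r 331 1323 299 (.d 364 2346 298 2379 463))
 .e)))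
 .e))))
 .e))))
 (.a 1 [299] (.d 459 1355 331 1387 491)
 .e)))))
 (.a 1 [329] (.q 427 (.a 1 [] (.d 331 1323 299 1355 459)
 (.a 1 [331] (.q 330 (.a 1 [] (.d 297 2312 264 2345 429)
 (.a 1 [264] (.d 429 2345 297 2378 462)
 (.a 0 [297,429] (.q 398 (.a 1 [] (.d 397 394 394 395 399)
 (.a 0 [394,397,399] (.q 365 (.a 1 [] (.d 334 3375 303 3406 458)
 (.a 1 [303] (.d 458 3406 334 3437 489)
 (.a 0 [334,458] (.q 332 (.a 1 [] (.d 299 2314 266 2347 431)
 (.a 1 [266] (.d 431 2347 299 2380 464)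
 (.a 0 [299,431] (.q 364 (.a 1 [] (.d 362 361 361 362 366)
 (.a 1 [361] (.d 366 362 362 363 367)
 (.a 1 [362] (.d 300 1292 268 1324 428)
 .e))))
 .e))))
 .e))))
 .e)))
 .e))))
 (.a 1 [299] (.d 459 1355 331 1387 491)
 .e))))
 (.a 1 [361] (.q 394 (.a 1 [] (.d 393 392 392 393 397)
 (.a 1 [393] (.q 427 (.a 1 [] (.d 331 1323 299 1355 459)
 (.a 1 [299] (.d 459 1355 331 1387 491)
 (.a 0 [331,459] (.q 365 (.a 1 [] (.d 334 3375 303 3406 458)
 (.a 1 [303] (.d 458 3406 334 3437 489)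
 (.a 0 [334,458] (.q 332 (.a 1 [] (.d 301 3342 270 3373 425)
 (.a 1 [270] (.d 425 3373 301 3404 456)
 (.a 1 [301] (.r 398 394 397 (.d 431 2347 299 2380 464))
 .e))))
 .e))))
 .e))))
 (.a 1 [397] (.q 427 (.a 1 [] (.d 331 1323 299 1355 459)
 (.a 1 [299] (.d 459 1355 331 1387 491)
 (.a 0 [331,459] (.q 332 (.a 1 [] (.d 301 3342 270 3373 425)
 (.a 1 [270] (.d 425 3373 301 3404 456)
 (.a 0 [301,425] (.q 365 (.a 1 [] (.d 334 3375 303 3406 458)
 (.a 1 [303] (.d 458 3406 334 3437 489)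
 (.a 0 [334,458] (.q 364 (.a 1 [] (.d 366 362 362 363 367)
 (.a 1 [362] (.d 428 1324 300 1356 460)
 .e)))
 .e))))
 .e))))
 .e))))
 (.a 1 [392] (.d 397 393 393 394 398)
 .e)))))
 (.a 1 [460] (.q 427 (.a 1 [] (.d 331 1323 299 1355 459)
 (.a 1 [459] (.q 394 (.a 1 [] (.d 393 392 392 393 397)
 (.a 1 [392] (.d 397 393 393 394 398)
 (.a 0 [393,397] (.q 332 (.a 1 [] (.d 301 3342 270 3373 425)
 (.a 1 [270] (.d 425 3373 301 3404 456)
 (.a 0 [301,425] (.q 365 (.a 1 [] (.d 334 3375 303 3406 458)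
 (.a 1 [303] (.d 458 3406 334 3437 489)
 (.a 1 [334] (.r 299 1323 331 (.d 398 2314 266 2347 431))
 .e))))
 .e))))
 .e))))
 (.a 1 [331] (.q 394 (.a 1 [] (.d 393 392 392 393 397)
 (.a 1 [392] (.d 397 393 393 394 398)
 (.a 0 [393,397] (.q 365 (.a 1 [] (.d 334 3375 303 3406 458)
 (.a 1 [303] (.d 458 3406 334 3437 489)
 (.a 0 [334,458] (.q 332 (.a 1 [] (.d 301 3342 270 3373 425)
 (.a 1 [270] (.d 425 3373 301 3404 456)
 (.a 0 [301,425] (.q 364 (.a 1 [] (.d 362 361 361 362 366)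
 (.a 1 [361] (.d 366 362 362 363 367)
 (.a 1 [362] (.d 300 1292 268 1324 428)
 .e))))
 .e))))
 .e))))
 .e))))
 .e))))
 (.a 1 [426] (.q 394 (.a 1 [] (.d 393 392 392 393 397)
 (.a 1 [393] (.q 332 (.a 1 [] (.d 301 3342 270 3373 425)
 (.a 1 [270] (.d 425 3373 301 3404 456)
 (.a 0 [301,425] (.q 299 (.a 1 [] (.d 331 1291 267 1323 427)
 (.a 1 [267] (.r 427 1323 331 (.r 398 394 397 (.d 365 2314 266 2347 431)))
 (.a 1 [331] (.r 398 394 397 (.d 365 2314 266 2347 431))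
 .e))))
 .e))))
 (.a 1 [397] (.q 427 (.a 1 [] (.d 331 1323 299 1355 459)
 (.a 1 [299] (.d 459 1355 331 1387 491)
 (.a 0 [331,459] (.q 332 (.a 1 [] (.d 301 3342 270 3373 425)
 (.a 1 [270] (.d 425 3373 301 3404 456)
 (.a 0 [301,425] (.q 365 (.a 1 [] (.d 334 3375 303 3406 458)
 (.a 1 [303] (.d 458 3406 334 3437 489)
 (.a 0 [334,458] (.q 364 (.a 1 [] (.d 362 361 361 362 366)
 (.a 1 [361] (.d 366 362 362 363 367)
 (.a 1 [362] (.d 300 1292 268 1324 428)
 .e))))
 .e))))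
 .e))))
 .e))))
 .e))))
 (.a 1 [457] (.q 427 (.a 1 [] (.d 331 1323 299 1355 459)
 (.a 1 [331] (.q 394 (.a 1 [] (.d 393 392 392 393 397)
 (.a 1 [392] (.d 397 393 393 394 398)
 (.a 0 [393,397] (.q 330 (.a 1 [] (.d 297 2312 264 2345 429)
 (.a 1 [264] (.d 429 2345 297 2378 462)
 (.a 0 [297,429] (.q 365 (.a 1 [] (.d 334 3375 303 3406 458)
 (.a 1 [303] (.d 458 3406 334 3437 489)
 (.a 1 [334] (.r 458 3437 489 (.r 362 1354 426 (.d 364 361 361 362 366)))
 (.a 0 [458] (.q 361 (.a 1 [] (.d 328 2343 295 2376 460)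
 (.a 1 [295] (.d 460 2376 328 2409 493)
 (.a 1 [328] (.r 362 361 364 (.d 298 1290 266 1322 426))
 .e))))
 .e)))))
 .e))))
 .e))))
 (.a 1 [459] (.q 394 (.a 1 [] (.d 393 392 392 393 397)
 (.a 1 [392] (.d 397 393 393 394 398)
 (.a 0 [393,397] (.q 429 (.a 1 [] (.d 330 2345 297 2378 462)
 (.a 1 [297] (.d 462 2378 330 2411 495)
 (.a 0 [330,462] (.q 460 (.a 1 [] (.d 361 2376 328 2409 493)
 (.a 1 [328] (.d 493 2409 361 2442 526)
 (.a 0 [361,493] (.q 425 (.a 1 [] (.d 332 3373 301 3404 456)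
 (.a 1 [301] (.d 456 3404 332 3435 487)
 (.a 1 [332] (.r 428 425 426 (.d 492 1388 364 1420 524))
 .e))))
 .e))))
 .e))))
 .e))))
 (.a 1 [299] (.d 459 1355 331 1387 491)
 .e)))))
 (.a 1 [335] (.q 394 (.a 1 [] (.d 393 392 392 393 397)
 (.a 1 [397] (.q 429 (.a 1 [] (.d 330 2345 297 2378 462)
 (.a 1 [297] (.d 462 2378 330 2411 495)
 (.a 0 [330,462] (.q 299 (.a 1 [] (.d 331 1291 267 1323 427)
 (.a 0 [267,331,427] (.q 332 (.a 1 [] (.d 301 3342 270 3373 425)
 (.a 1 [270] (.d 425 3373 301 3404 456)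
 (.a 0 [301,425] (.q 365 (.a 1 [] (.d 266 2281 233 2314 398)
 (.a 1 [233] (.d 398 2314 266 2347 431)
 (.a 0 [266,398] (.q 364 (.a 1 [] (.d 362 361 361 362 366)
 (.a 1 [361] (.d 366 362 362 363 367)
 (.a 1 [362] (.d 300 1292 268 1324 428)
 .e))))
 .e))))
 .e))))
 .e)))
 .e))))
 (.a 1 [393] (.q 332 (.a 1 [] (.d 301 3342 270 3373 425)
 (.a 1 [270] (.d 425 3373 301 3404 456)
 (.a 0 [301,425] (.q 299 (.a 1 [] (.d 331 1291 267 1323 427)
 (.a 1 [267] (.r 427 1323 331 (.r 398 394 397 (.d 365 2314 266 2347 431)))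
 (.a 1 [331] (.r 398 394 397 (.d 365 2314 266 2347 431))
 .e))))
 .e))))
 .e))))
 (.a 0 [463] (.q 330 (.a 1 [] (.d 297 2312 264 2345 429)
 (.a 1 [297] (.q 394 (.a 1 [] (.d 393 392 392 393 397)
 (.a 1 [397] (.q 299 (.a 1 [] (.d 331 1291 267 1323 427)
 (.a 1 [267] (.r 427 1323 331 (.r 392 392 393 (.d 361 3340 268 3371 423)))
 (.a 1 [331] (.r 392 392 393 (.d 361 3340 268 3371 423))
 .e))))
 (.a 1 [393] (.q 362 (.a 1 [] (.d 298 1290 266 1322 426)
 (.a 1 [266] (.d 426 1322 298 1354 458)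
 (.a 0 [298,426] (.q 364 (.a 1 [] (.d 361 360 360 361 365)
 (.a 1 [360] (.d 365 361 361 362 366)
 (.a 0 [361,365] (.q 329 (.a 1 [] (.d 296 2311 263 2344 428)
 (.a 1 [263] (.d 428 2344 296 2377 461)
 (.a 1 [296] (.r 428 2377 461 (.d 460 1356 332 1388 492))
 (.a 0 [428] (.q 332 (.a 1 [] (.d 301 3342 270 3373 425)
 (.a 1 [270] (.d 425 3373 301 3404 456)
 (.a 1 [301] (.r 331 328 328 (.d 427 1323 299 1355 459))
 .e))))
 .e)))))
 .e))))
 .e))))
 .e))))
 (.a 1 [429] (.q 397 (.a 1 [] (.d 394 393 393 394 398)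
 (.a 1 [393] (.d 398 394 394 395 399)
 (.a 0 [394,398] (.q 299 (.a 1 [] (.d 331 1291 267 1323 427)
 (.a 0 [267,331,427] (.q 361 (.a 1 [] (.d 268 3309 237 3340 392)
 (.a 1 [237] (.d 392 3340 268 3371 423)
 (.a 0 [268,392] (.q 362 (.a 1 [] (.d 360 359 359 360 364)
 (.a 1 [359] (.d 364 360 360 361 365)
 (.a 0 [360,364] (.q 296 (.a 1 [] (.d 329 2311 263 2344 428)
 (.a 1 [263] (.r 297 2312 264 (.d 298 295 295 296 300))
 .e)))
 .e))))
 .e))))
 .e)))
 .e))))
 (.a 1 [264] (.d 429 2345 297 2378 462)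
 .e)))))
 (.a 0 [265] (.q 429 (.a 1 [] (.d 330 2345 297 2378 462)
 (.a 1 [462] (.q 427 (.a 1 [] (.d 331 1323 299 1355 459)
 (.a 1 [331] (.q 398 (.a 1 [] (.d 397 394 394 395 399)
 (.a 1 [394] (.r 491 1387 459 (.d 460 3439 367 3470 522))
 .e)))
 (.a 1 [459] (.q 428 (.a 1 [] (.d 426 425 425 426 430)
 (.a 1 [425] (.d 430 426 426 427 431)
 (.a 0 [426,430] (.q 364 (.a 1 [] (.d 332 1324 300 1356 460)
 (.a 1 [300] (.d 460 1356 332 1388 492)
 (.a 0 [332,460] (.q 461 (.a 1 [] (.d 362 2377 329 2410 494)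
 (.a 1 [329] (.d 494 2410 362 2443 527)
 (.a 1 [494] (.r 362 2377 329 (.d 365 361 361 362 366))
 (.a 0 [362] (.q 365 (.a 1 [] (.d 334 3375 303 3406 458)
 (.a 1 [303] (.d 458 3406 334 3437 489)
 (.a 1 [334] (.r 397 1389 493 (.d 398 394 394 395 399))
 .e))))
 .e)))))
 .e))))
 .e))))
 .e))))
 (.a 1 [330] (.q 331 (.a 1 [] (.d 299 1291 267 1323 427)
 (.a 1 [267] (.d 427 1323 299 1355 459)
 (.a 0 [299,427] (.q 398 (.a 1 [] (.d 397 394 394 395 399)
 (.a 0 [394,397,399] (.q 460 (.a 1 [] (.d 367 3408 336 3439 491)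
 (.a 1 [336] (.d 491 3439 367 3470 522)
 (.a 0 [367,491] (.q 428 (.a 1 [] (.d 364 1356 332 1388 492)
 (.a 1 [332] (.d 492 1388 364 1420 524)
 (.a 0 [364,492] (.q 494 (.a 1 [] (.d 461 2410 362 2443 527)
 (.a 1 [362] (.r 462 2411 495 (.d 430 1390 366 1422 526))
 .e)))
 .e))))
 .e))))
 .e)))
 .e))))
 .e))))
 (.a 1 [298] (.q 330 (.a 1 [] (.d 297 2312 264 2345 429)
 (.a 1 [297] (.q 299 (.a 1 [] (.d 331 1291 267 1323 427)
 (.a 0 [267,331,427] (.q 394 (.a 1 [] (.d 393 392 392 393 397)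
 (.a 1 [392] (.d 397 393 393 394 398)
 (.a 1 [397] (.r 392 392 393 (.d 361 3340 268 3371 423))
 (.a 0 [393] (.q 332 (.a 1 [] (.d 301 3342 270 3373 425)
 (.a 1 [270] (.d 425 3373 301 3404 456)
 (.a 1 [301] (.r 398 394 397 (.d 365 2314 266 2347 431))
 .e))))
 .e)))))
 .e)))
 (.a 1 [429] (.q 331 (.a 1 [] (.d 299 1291 267 1323 427)
 (.a 1 [267] (.d 427 1323 299 1355 459)
 (.a 0 [299,427] (.q 329 (.a 1 [] (.d 328 327 327 328 332)
 (.a 0 [327,328,332] (.q 393 (.a 1 [] (.d 394 392 392 393 397)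
 (.a 1 [392] (.r 297 2312 264 (.d 361 1289 265 1321 425))
 .e)))
 .e)))
 .e))))
 .e))))
 (.a 1 [430] (.q 429 (.a 1 [] (.d 330 2345 297 2378 462)
 (.a 1 [462] (.q 398 (.a 1 [] (.d 397 394 394 395 399)
 (.a 0 [394,397,399] (.q 427 (.a 1 [] (.d 331 1323 299 1355 459)
 (.a 1 [299] (.d 459 1355 331 1387 491)
 (.a 1 [331] (.r 491 1387 459 (.d 460 3439 367 3470 522))
 (.a 0 [459] (.q 365 (.a 1 [] (.d 334 3375 303 3406 458)
 (.a 1 [303] (.d 458 3406 334 3437 489)
 (.a 1 [334] (.r 299 1323 331 (.d 332 2314 266 2347 431))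
 .e))))
 .e)))))
 .e)))
 (.a 1 [330] (.q 397 (.a 1 [] (.d 394 393 393 394 398)
 (.a 1 [393] (.d 398 394 394 395 399)
 (.a 0 [394,398] (.q 461 (.a 1 [] (.d 493 1389 365 1421 525)
 (.a 0 [365,493,525] (.q 459 (.a 1 [] (.d 427 1355 331 1387 491)
 (.a 1 [331] (.r 462 2411 495 (.d 460 458 458 459 463))
 .e)))
 .e)))
 .e))))
 .e))))
 (.a 1 [455] (.q 427 (.a 1 [] (.d 331 1323 299 1355 459)
 (.a 1 [331] (.q 330 (.a 1 [] (.d 297 2312 264 2345 429)
 (.a 1 [264] (.d 429 2345 297 2378 462)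
 (.a 0 [297,429] (.q 398 (.a 1 [] (.d 397 394 394 395 399)
 (.a 0 [394,397,399] (.q 365 (.a 1 [] (.d 334 3375 303 3406 458)
 (.a 1 [303] (.d 458 3406 334 3437 489)
 (.a 0 [334,458] (.q 332 (.a 1 [] (.d 299 2314 266 2347 431)
 (.a 1 [266] (.d 431 2347 299 2380 464)
 (.a 0 [299,431] (.q 364 (.a 1 [] (.d 362 361 361 362 366)
 (.a 1 [361] (.d 366 362 362 363 367)
 (.a 1 [362] (.d 300 1292 268 1324 428)
 .e))))
 .e))))
 .e))))
 .e)))
 .e))))
 (.a 1 [459] (.q 394 (.a 1 [] (.d 393 392 392 393 397)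
 (.a 1 [392] (.d 397 393 393 394 398)
 (.a 0 [393,397] (.q 429 (.a 1 [] (.d 330 2345 297 2378 462)
 (.a 1 [297] (.d 462 2378 330 2411 495)
 (.a 0 [330,462] (.q 460 (.a 1 [] (.d 361 2376 328 2409 493)
 (.a 1 [328] (.d 493 2409 361 2442 526)
 (.a 0 [361,493] (.q 428 (.a 1 [] (.d 426 425 425 426 430)
 (.a 1 [425] (.d 430 426 426 427 431)
 (.a 1 [426] (.d 364 1356 332 1388 492)
 .e))))
 .e))))
 .e))))
 .e))))
 (.a 1 [299] (.d 459 1355 331 1387 491)
 .e)))))
 (.a 1 [521] (.q 427 (.a 1 [] (.d 331 1323 299 1355 459)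
 (.a 1 [331] (.q 394 (.a 1 [] (.d 393 392 392 393 397)
 (.a 1 [392] (.d 397 393 393 394 398)
 (.a 0 [393,397] (.q 330 (.a 1 [] (.d 297 2312 264 2345 429)
 (.a 1 [264] (.d 429 2345 297 2378 462)
 (.a 0 [297,429] (.q 365 (.a 1 [] (.d 334 3375 303 3406 458)
 (.a 1 [303] (.d 458 3406 334 3437 489)
 (.a 1 [334] (.r 458 3437 489 (.r 362 1354 426 (.d 364 361 361 362 366)))
 (.a 0 [458] (.q 362 (.a 1 [] (.d 364 361 361 362 366)
 (.a 1 [361] (.d 298 1290 266 1322 426)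
 .e)))
 .e)))))
 .e))))
 .e))))
 (.a 1 [459] (.q 365 (.a 1 [] (.d 334 3375 303 3406 458)
 (.a 1 [303] (.d 458 3406 334 3437 489)
 (.a 0 [334,458] (.q 398 (.a 1 [] (.d 397 394 394 395 399)
 (.a 1 [394] (.r 299 1323 331 (.d 332 2314 266 2347 431))
 .e)))
 .e))))
 .e))))
 (.a 1 [525] (.q 429 (.a 1 [] (.d 330 2345 297 2378 462)
 (.a 1 [330] (.q 331 (.a 1 [] (.d 299 1291 267 1323 427)
 (.a 1 [267] (.d 427 1323 299 1355 459)
 (.a 0 [299,427] (.q 398 (.a 1 [] (.d 397 394 394 395 399)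
 (.a 0 [394,397,399] (.q 460 (.a 1 [] (.d 367 3408 336 3439 491)
 (.a 1 [336] (.d 491 3439 367 3470 522)
 (.a 0 [367,491] (.q 428 (.a 1 [] (.d 364 1356 332 1388 492)
 (.a 1 [332] (.d 492 1388 364 1420 524)
 (.a 0 [364,492] (.q 494 (.a 1 [] (.d 461 2410 362 2443 527)
 (.a 1 [362] (.r 462 2411 495 (.d 430 1390 366 1422 526))
 .e)))
 .e))))
 .e))))
 .e)))
 .e))))
 (.a 1 [462] (.q 427 (.a 1 [] (.d 331 1323 299 1355 459)
 (.a 1 [299] (.d 459 1355 331 1387 491)
 (.a 0 [331,459] (.q 394 (.a 1 [] (.d 393 392 392 393 397)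
 (.a 1 [392] (.d 397 393 393 394 398)
 (.a 0 [393,397] (.q 426 (.a 1 [] (.d 428 425 425 426 430)
 (.a 1 [425] (.r 330 2345 297 (.d 362 1322 298 1354 458))
 .e)))
 .e))))
 .e))))
 .e))))
 (.a 1 [462] (.q 394 (.a 1 [] (.d 393 392 392 393 397)
 (.a 1 [392] (.d 397 393 393 394 398)
 (.a 0 [393,397] (.q 427 (.a 1 [] (.d 331 1323 299 1355 459)
 (.a 1 [299] (.d 459 1355 331 1387 491)
 (.a 0 [331,459] (.q 332 (.a 1 [] (.d 301 3342 270 3373 425)
 (.a 1 [270] (.d 425 3373 301 3404 456)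
 (.a 0 [301,425] (.q 365 (.a 1 [] (.d 334 3375 303 3406 458)
 (.a 1 [303] (.d 458 3406 334 3437 489)
 (.a 0 [334,458] (.q 460 (.a 1 [] (.d 361 2376 328 2409 493)
 (.a 1 [328] (.d 493 2409 361 2442 526)
 (.a 1 [361] (.r 364 1356 428 (.d 366 362 362 363 367))
 .e))))
 .e))))
 .e))))
 .e))))
 .e))))
 (.a 1 [297] (.q 394 (.a 1 [] (.d 393 392 392 393 397)
 (.a 1 [392] (.d 397 393 393 394 398)
 (.a 0 [393,397] (.q 427 (.a 1 [] (.d 331 1323 299 1355 459)
 (.a 1 [299] (.d 459 1355 331 1387 491)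
 (.a 0 [331,459] (.q 365 (.a 1 [] (.d 334 3375 303 3406 458)
 (.a 1 [303] (.d 458 3406 334 3437 489)
 (.a 0 [334,458] (.q 332 (.a 1 [] (.d 301 3342 270 3373 425)
 (.a 1 [270] (.d 425 3373 301 3404 456)
 (.a 0 [301,425] (.q 361 (.a 1 [] (.d 328 2343 295 2376 460)
 (.a 1 [295] (.d 460 2376 328 2409 493)
 (.a 1 [328] (.r 364 361 362 (.d 428 1324 300 1356 460))
 (.a 1 [460] (.r 364 361 362 (.d 300 1292 268 1324 428))
 .e)))))
 .e))))
 .e))))
 .e))))
 .e))))
 (.a 1 [299] (.q 394 (.a 1 [] (.d 393 392 392 393 397)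
 (.a 1 [392] (.d 397 393 393 394 398)
 (.a 0 [393,397] (.q 429 (.a 1 [] (.d 330 2345 297 2378 462)
 (.a 1 [297] (.d 462 2378 330 2411 495)
 (.a 0 [330,462] (.q 427 (.a 1 [] (.d 459 1355 331 1387 491)
 (.a 0 [331,459,491] (.q 332 (.a 1 [] (.d 301 3342 270 3373 425)
 (.a 1 [270] (.d 425 3373 301 3404 456)
 (.a 1 [301] (.r 425 3404 456 (.r 428 425 426 (.d 364 1324 300 1356 460)))
 (.a 0 [425] (.q 428 (.a 1 [] (.d 430 426 426 427 431)
 (.a 1 [426] (.d 364 1324 300 1356 460)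
 .e)))
 .e)))))
 .e)))
 .e))))
 .e))))
 (.a 1 [393] (.q 427 (.a 1 [] (.d 331 1323 299 1355 459)
 (.a 1 [299] (.d 459 1355 331 1387 491)
 (.a 0 [331,459] (.q 330 (.a 1 [] (.d 297 2312 264 2345 429)
 (.a 1 [264] (.d 429 2345 297 2378 462)
 (.a 0 [297,429] (.q 398 (.a 1 [] (.d 397 394 394 395 399)
 (.a 0 [394,397,399] (.q 365 (.a 1 [] (.d 334 3375 303 3406 458)
 (.a 1 [303] (.d 458 3406 334 3437 489)
 (.a 0 [334,458] (.q 332 (.a 1 [] (.d 299 2314 266 2347 431)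
 (.a 1 [266] (.d 431 2347 299 2380 464)
 (.a 0 [299,431] (.q 364 (.a 1 [] (.d 362 361 361 362 366)
 (.a 1 [361] (.d 366 362 362 363 367)
 (.a 1 [362] (.d 300 1292 268 1324 428)
 .e))))
 .e))))
 .e))))
 .e)))
 .e))))
 .e))))
 (.a 1 [398] (.q 427 (.a 1 [] (.d 331 1323 299 1355 459)
 (.a 1 [299] (.d 459 1355 331 1387 491)
 (.a 0 [331,459] (.q 330 (.a 1 [] (.d 297 2312 264 2345 429)
 (.a 1 [264] (.d 429 2345 297 2378 462)
 (.a 0 [297,429] (.q 394 (.a 1 [] (.d 393 392 392 393 397)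
 (.a 0 [392,393,397] (.q 365 (.a 1 [] (.d 334 3375 303 3406 458)
 (.a 1 [303] (.d 458 3406 334 3437 489)
 (.a 1 [334] (.r 458 3437 489 (.r 362 1354 426 (.d 364 361 361 362 366)))
 (.a 0 [458] (.q 362 (.a 1 [] (.d 364 361 361 362 366)
 (.a 1 [361] (.d 298 1290 266 1322 426)
 .e)))
 .e)))))
 .e)))
 .e))))
 .e))))
 (.a 1 [459] (.q 394 (.a 1 [] (.d 393 392 392 393 397)
 (.a 1 [392] (.d 397 393 393 394 398)
 (.a 0 [393,397] (.q 429 (.a 1 [] (.d 330 2345 297 2378 462)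
 (.a 1 [297] (.d 462 2378 330 2411 495)
 (.a 0 [330,462] (.q 299 (.a 1 [] (.d 331 1291 267 1323 427)
 (.a 0 [267,331,427] (.q 332 (.a 1 [] (.d 301 3342 270 3373 425)
 (.a 1 [270] (.d 425 3373 301 3404 456)
 (.a 0 [301,425] (.q 365 (.a 1 [] (.d 266 2281 233 2314 398)
 (.a 1 [233] (.d 398 2314 266 2347 431)
 (.a 0 [266,398] (.q 364 (.a 1 [] (.d 362 361 361 362 366)
 (.a 1 [361] (.d 366 362 362 363 367)
 (.a 1 [362] (.d 300 1292 268 1324 428)
 .e))))
 .e))))
 .e))))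
 .e)))
 .e))))
 .e))))
 (.a 1 [392] (.q 427 (.a 1 [] (.d 331 1323 299 1355 459)
 (.a 1 [299] (.d 459 1355 331 1387 491)
 (.a 0 [331,459] (.q 330 (.a 1 [] (.d 297 2312 264 2345 429)
 (.a 1 [264] (.d 429 2345 297 2378 462)
 (.a 0 [297,429] (.q 394 (.a 1 [] (.d 397 393 393 394 398)
 (.a 0 [393,397,398] (.q 365 (.a 1 [] (.d 334 3375 303 3406 458)
 (.a 1 [303] (.d 458 3406 334 3437 489)
 (.a 1 [334] (.r 458 3437 489 (.r 362 1354 426 (.d 364 361 361 362 366)))
 (.a 0 [458] (.q 362 (.a 1 [] (.d 364 361 361 362 366)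
 (.a 1 [361] (.d 298 1290 266 1322 426)
 .e)))
 .e)))))
 .e)))
 .e))))
 .e))))
 (.a 1 [491] (.q 394 (.a 1 [] (.d 393 392 392 393 397)
 (.a 1 [392] (.d 397 393 393 394 398)
 (.a 0 [393,397] (.q 429 (.a 1 [] (.d 330 2345 297 2378 462)
 (.a 1 [297] (.d 462 2378 330 2411 495)
 (.a 0 [330,462] (.q 427 (.a 1 [] (.d 331 1323 299 1355 459)
 (.a 0 [299,331,459] (.q 332 (.a 1 [] (.d 301 3342 270 3373 425)
 (.a 1 [270] (.d 425 3373 301 3404 456)
 (.a 1 [301] (.r 425 3404 456 (.r 428 425 426 (.d 364 1324 300 1356 460)))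
 (.a 0 [425] (.q 428 (.a 1 [] (.d 430 426 426 427 431)
 (.a 1 [426] (.d 364 1324 300 1356 460)
 .e)))
 .e)))))
 .e)))
 .e))))
 .e))))
 (.a 1 [461] (.q 429 (.a 1 [] (.d 330 2345 297 2378 462)
 (.a 1 [297] (.d 462 2378 330 2411 495)
 (.a 0 [330,462] (.q 394 (.a 1 [] (.d 393 392 392 393 397)
 (.a 1 [392] (.d 397 393 393 394 398)
 (.a 0 [393,397] (.q 299 (.a 1 [] (.d 331 1291 267 1323 427)
 (.a 0 [267,331,427] (.q 332 (.a 1 [] (.d 301 3342 270 3373 425)
 (.a 1 [270] (.d 425 3373 301 3404 456)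
 (.a 0 [301,425] (.q 365 (.a 1 [] (.d 266 2281 233 2314 398)
 (.a 1 [233] (.d 398 2314 266 2347 431)
 (.a 0 [266,398] (.q 364 (.a 1 [] (.d 362 361 361 362 366)
 (.a 1 [361] (.d 366 362 362 363 367)
 (.a 1 [362] (.d 300 1292 268 1324 428)
 .e))))
 .e))))
 .e))))
 .e)))
 .e))))
 .e))))
 (.a 1 [425] (.q 427 (.a 1 [] (.d 331 1323 299 1355 459)
 (.a 1 [299] (.d 459 1355 331 1387 491)
 (.a 0 [331,459] (.q 394 (.a 1 [] (.d 393 392 392 393 397)
 (.a 1 [392] (.d 397 393 393 394 398)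
 (.a 0 [393,397] (.q 361 (.a 1 [] (.d 328 2343 295 2376 460)
 (.a 1 [295] (.d 460 2376 328 2409 493)
 (.a 0 [328,460] (.q 330 (.a 1 [] (.d 297 2312 264 2345 429)
 (.a 1 [264] (.d 429 2345 297 2378 462)
 (.a 0 [297,429] (.q 365 (.a 1 [] (.d 334 3375 303 3406 458)
 (.a 1 [303] (.d 458 3406 334 3437 489)
 (.a 1 [334] (.r 362 361 364 (.d 426 1322 298 1354 458))
 (.a 1 [458] (.r 362 361 364 (.d 298 1290 266 1322 426))
 .e)))))
 .e))))
 .e))))
 .e))))
 .e))))
 (.a 1 [458] (.q 394 (.a 1 [] (.d 393 392 392 393 397)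
 (.a 1 [392] (.d 397 393 393 394 398)
 (.a 0 [393,397] (.q 427 (.a 1 [] (.d 331 1323 299 1355 459)
 (.a 1 [299] (.d 459 1355 331 1387 491)
 (.a 0 [331,459] (.q 460 (.a 1 [] (.d 361 2376 328 2409 493)
 (.a 1 [328] (.d 493 2409 361 2442 526)
 (.a 0 [361,493] (.q 429 (.a 1 [] (.d 330 2345 297 2378 462)
 (.a 1 [297] (.d 462 2378 330 2411 495)
 (.a 0 [330,462] (.q 332 (.a 1 [] (.d 301 3342 270 3373 425)
 (.a 1 [270] (.d 425 3373 301 3404 456)
 (.a 1 [301] (.r 428 1356 364 (.d 425 425 426 3404 456))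
 (.a 1 [425] (.r 428 1356 364 (.d 430 426 426 427 431))
 .e)))))
 .e))))
 .e))))
 .e))))
 .e))))
 (.a 1 [456] (.q 427 (.a 1 [] (.d 331 1323 299 1355 459)
 (.a 1 [299] (.d 459 1355 331 1387 491)
 (.a 0 [331,459] (.q 394 (.a 1 [] (.d 393 392 392 393 397)
 (.a 1 [392] (.d 397 393 393 394 398)
 (.a 0 [393,397] (.q 460 (.a 1 [] (.d 361 2376 328 2409 493)
 (.a 1 [328] (.d 493 2409 361 2442 526)
 (.a 0 [361,493] (.q 429 (.a 1 [] (.d 330 2345 297 2378 462)
 (.a 1 [297] (.d 462 2378 330 2411 495)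
 (.a 0 [330,462] (.q 332 (.a 1 [] (.d 301 3342 270 3373 425)
 (.a 1 [270] (.r 428 1356 364 (.d 425 3373 301 425 426))
 (.a 1 [301] (.r 428 1356 364 (.d 426 425 425 426 430))
 (.a 1 [425] (.r 428 1356 364 (.d 430 426 426 427 431))
 .e)))))
 .e))))
 .e))))
 .e))))
 .e))))
 (.a 1 [489] (.q 394 (.a 1 [] (.d 393 392 392 393 397)
 (.a 1 [392] (.d 397 393 393 394 398)
 (.a 0 [393,397] (.q 427 (.a 1 [] (.d 331 1323 299 1355 459)
 (.a 1 [299] (.d 459 1355 331 1387 491)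
 (.a 0 [331,459] (.q 361 (.a 1 [] (.d 328 2343 295 2376 460)
 (.a 1 [295] (.d 460 2376 328 2409 493)
 (.a 0 [328,460] (.q 330 (.a 1 [] (.d 297 2312 264 2345 429)
 (.a 1 [264] (.d 429 2345 297 2378 462)
 (.a 0 [297,429] (.q 365 (.a 1 [] (.d 334 3375 303 3406 458)
 (.a 1 [303] (.r 362 361 364 (.d 426 1322 298 1354 458))
 (.a 1 [458] (.r 362 361 364 (.d 298 1290 266 1322 426))
 .e))))
 .e))))
 .e))))
 .e))))
 .e))))
 (.a 1 [424] (.q 427 (.a 1 [] (.d 331 1323 299 1355 459)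
 (.a 1 [299] (.d 459 1355 331 1387 491)
 (.a 0 [331,459] (.q 330 (.a 1 [] (.d 297 2312 264 2345 429)
 (.a 1 [264] (.d 429 2345 297 2378 462)
 (.a 0 [297,429] (.q 398 (.a 1 [] (.d 397 394 394 395 399)
 (.a 0 [394,397,399] (.q 365 (.a 1 [] (.d 334 3375 303 3406 458)
 (.a 1 [303] (.d 458 3406 334 3437 489)
 (.a 0 [334,458] (.q 332 (.a 1 [] (.d 299 2314 266 2347 431)
 (.a 1 [266] (.d 431 2347 299 2380 464)
 (.a 0 [299,431] (.q 364 (.a 1 [] (.d 362 361 361 362 366)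
 (.a 1 [361] (.d 366 362 362 363 367)
 (.a 1 [362] (.d 300 1292 268 1324 428)
 .e))))
 .e))))
 .e))))
 .e)))
 .e))))
 .e))))
 (.a 1 [429] (.q 427 (.a 1 [] (.d 331 1323 299 1355 459)
 (.a 1 [299] (.d 459 1355 331 1387 491)
 (.a 0 [331,459] (.q 394 (.a 1 [] (.d 393 392 392 393 397)
 (.a 1 [392] (.d 397 393 393 394 398)
 (.a 0 [393,397] (.q 365 (.a 1 [] (.d 334 3375 303 3406 458)
 (.a 1 [303] (.d 458 3406 334 3437 489)
 (.a 0 [334,458] (.q 332 (.a 1 [] (.d 301 3342 270 3373 425)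
 (.a 1 [270] (.d 425 3373 301 3404 456)
 (.a 0 [301,425] (.q 364 (.a 1 [] (.d 362 361 361 362 366)
 (.a 1 [361] (.d 366 362 362 363 367)
 (.a 1 [362] (.d 300 1292 268 1324 428)
 .e))))
 .e))))
 .e))))
 .e))))
 .e))))
 .e)))))))))))))))))))))))))))))))))))))))))))) (by decide +kernel)

theorem r365 : S (Nat.lor X2 (bits [466, 365])) := S.of (.q 429 (.a 1 [] (.d 330 2345 297 2378 462)
 (.a 0 [462] (.q 394 (.a 1 [] (.q 395 (.a 1 [] (.d 393 392 392 393 397)
 (.a 1 [392] (.d 397 393 393 394 398)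
 (.a 0 [393,397] (.q 427 (.a 1 [] (.d 331 1323 299 1355 459)
 (.a 1 [299] (.d 459 1355 331 1387 491)
 (.a 0 [331,459] (.q 426 (.a 1 [] (.d 428 425 425 426 430)
 (.a 1 [425] (.r 330 2345 297 (.d 362 1322 298 1354 458))
 .e)))
 .e))))
 .e))))
 (.a 1 [330] (.q 395 (.a 1 [] (.d 393 392 392 393 397)
 (.a 1 [397] (.q 427 (.a 1 [] (.d 331 1323 299 1355 459)
 (.a 1 [299] (.d 459 1355 331 1387 491)
 (.a 0 [331,459] (.q 428 (.a 1 [] (.d 426 425 425 426 430)
 (.a 1 [425] (.d 430 426 426 427 431)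
 (.a 1 [430] (.r 425 425 426 (.d 456 3404 332 3435 487))
 (.a 0 [426] (.q 460 (.a 1 [] (.d 364 1356 332 1388 492)
 (.a 1 [332] (.d 492 1388 364 1420 524)
 (.a 1 [364] (.d 361 2376 328 2409 493)
 .e))))
 .e)))))
 .e))))
 (.a 1 [393] (.q 427 (.a 1 [] (.d 331 1323 299 1355 459)
 (.a 1 [299] (.d 459 1355 331 1387 491)
 (.a 0 [331,459] (.q 460 (.a 1 [] (.d 361 2376 328 2409 493)
 (.a 1 [328] (.d 493 2409 361 2442 526)
 (.a 1 [361] (.r 398 394 397 (.d 491 3439 367 3470 522))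
 .e))))
 .e))))
 (.a 1 [392] (.d 397 393 393 394 398)
 .e)))))
 (.a 0 [395] (.r 330 2345 297 (.q 362 (.a 1 [] (.d 298 1290 266 1322 426)
 (.a 1 [426] (.q 332 (.a 1 [] (.d 301 3342 270 3373 425)
 (.a 1 [425] (.q 364 (.a 1 [] (.d 300 1292 268 1324 428)
 (.a 1 [268] (.d 428 1324 300 1356 460)
 (.a 0 [300,428] (.r 361 360 360 (.q 427 (.a 1 [] (.d 328 2343 295 2376 460)
 (.a 1 [295] (.d 460 2376 328 2409 493)
 (.a 1 [460] (.r 328 2343 295 (.r 331 328 329 (.r 298 1290 266 (.d 397 2313 265 2346 430))))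
 (.a 0 [328] (.q 331 (.a 1 [] (.d 333 329 329 330 334)
 (.a 1 [329] (.r 298 1290 266 (.d 397 2313 265 2346 430))
 .e)))
 .e))))))
 .e))))
 (.a 1 [301] (.q 364 (.a 1 [] (.d 300 1292 268 1324 428)
 (.a 1 [268] (.d 428 1324 300 1356 460)
 (.a 0 [300,428] (.q 331 (.a 1 [] (.d 329 328 328 329 333)
 (.a 1 [299] (.r 298 1290 266 (.d 329 328 328 329 333))
 (.a 1 [328] (.d 333 329 329 330 334)
 (.a 1 [329] (.r 298 1290 266 (.d 397 2313 265 2346 430))
 (.a 0 [298] (.q 299 (.a 1 [] (.d 333 329 329 330 334)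
 (.a 1 [329] (.r 361 360 360 (.d 392 3340 268 3371 423))
 .e)))
 .e))))))
 .e))))
 .e))))
 (.a 1 [298] (.q 332 (.a 1 [] (.d 301 3342 270 3373 425)
 (.a 1 [270] (.d 425 3373 301 3404 456)
 (.a 0 [301,425] (.q 300 (.a 1 [] (.d 364 1292 268 1324 428)
 (.a 0 [268,364,428] (.q 331 (.a 1 [] (.d 329 328 328 329 333)
 (.a 1 [328] (.d 333 329 329 330 334)
 (.a 1 [329] (.d 269 3310 238 3341 393)
 .e))))
 .e)))
 .e))))
 (.a 1 [266] (.d 426 1322 298 1354 458)
 .e))))))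
 (.a 1 [425] (.q 395 (.a 1 [] (.d 393 392 392 393 397)
 (.a 1 [393] (.q 427 (.a 1 [] (.d 331 1323 299 1355 459)
 (.a 1 [299] (.d 459 1355 331 1387 491)
 (.a 0 [331,459] (.q 460 (.a 1 [] (.d 361 2376 328 2409 493)
 (.a 1 [328] (.d 493 2409 361 2442 526)
 (.a 1 [361] (.r 398 394 397 (.d 491 3439 367 3470 522))
 .e))))
 .e))))
 (.a 1 [397] (.q 427 (.a 1 [] (.d 331 1323 299 1355 459)
 (.a 1 [299] (.d 459 1355 331 1387 491)
 (.a 0 [331,459] (.q 460 (.a 1 [] (.d 361 2376 328 2409 493)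
 (.a 1 [328] (.d 493 2409 361 2442 526)
 (.a 0 [361,493] (.q 428 (.a 1 [] (.d 430 426 426 427 431)
 (.a 1 [426] (.d 492 1388 364 1420 524)
 .e)))
 .e))))
 .e))))
 .e))))
 (.a 1 [397] (.r 330 2345 297 (.q 425 (.a 1 [] (.d 332 3373 301 3404 456)
 (.a 1 [301] (.d 456 3404 332 3435 487)
 (.a 0 [332,456] (.q 426 (.a 1 [] (.d 362 1322 298 1354 458)
 (.a 0 [298,362,458] (.q 392 (.a 1 [] (.r 427 425 428 (.r 395 392 393 (.d 459 1355 331 1387 491)))
 (.a 1 [331] (.r 393 392 395 (.r 427 425 428 (.r 423 423 424 (.d 361 3371 299 3402 454))))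
 (.a 1 [393] (.r 427 425 428 (.r 423 423 424 (.d 361 3371 299 3402 454)))
 (.a 0 [427,428] (.q 361 (.a 1 [] (.d 299 3340 268 3371 423)
 (.a 1 [268] (.d 423 3371 299 3402 454)
 (.a 1 [299] (.r 393 392 395 (.d 457 1353 329 1385 489))
 .e))))
 .e)))))
 .e)))
 .e)))))
 (.a 1 [393] (.r 330 2345 297 (.q 332 (.a 1 [] (.d 301 3342 270 3373 425)
 (.a 1 [425] (.q 329 (.a 1 [] (.d 331 328 328 329 333)
 (.a 0 [328,331,333] (.q 362 (.a 1 [] (.d 298 1290 266 1322 426)
 (.a 1 [266] (.d 426 1322 298 1354 458)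
 (.a 0 [298,426] (.q 428 (.a 1 [] (.d 364 1324 300 1356 460)
 (.a 1 [300] (.d 395 2344 296 2377 461)
 .e)))
 .e))))
 .e)))
 (.a 1 [301] (.q 426 (.a 1 [] (.d 362 1322 298 1354 458)
 (.a 1 [298] (.r 425 3404 456 (.r 428 425 427 (.d 364 1324 300 1356 460)))
 .e)))
 .e)))))
 (.a 0 [301] (.r 330 2345 297 (.q 362 (.a 1 [] (.d 298 1290 266 1322 426)
 (.a 0 [298] (.r 426 1354 458 (.q 427 (.a 1 [] (.d 428 425 425 426 430)
 (.a 0 [299] (.q 300 (.a 1 [] (.d 428 425 425 426 430)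
 (.a 1 [295] (.q 296 (.a 1 [] (.d 428 425 425 426 430)
 (.a 1 [428] (.q 395 (.a 1 [] (.d 393 392 392 393 397)
 (.a 1 [392] (.d 397 393 393 394 398)
 (.a 1 [393] (.d 459 1355 331 1387 491)
 .e))))
 (.a 1 [425] (.r 428 426 430 (.r 395 2344 329 (.d 393 392 392 393 397)))
 .e))))
 (.a 1 [428] (.q 295 (.a 1 [] (.r 361 2343 328 (.d 360 359 359 360 364))
 (.a 1 [359] (.r 361 2343 328 (.r 364 360 360 (.r 332 1292 268 (.r 425 3404 456 (.r 424 423 423 (.r 393 3372 331 (.d 395 392 392 393 397)))))))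
 (.a 0 [328,360,361,364] (.q 395 (.a 1 [] (.d 393 392 392 393 397)
 (.a 1 [392] (.d 397 393 393 394 398)
 (.a 1 [393] (.d 459 1355 331 1387 491)
 .e))))
 .e))))
 (.a 1 [425] (.r 428 426 430 (.r 364 1324 332 (.r 460 1388 492 (.d 361 2376 328 360 360))))
 (.a 1 [430] (.r 425 425 428 (.d 456 3404 332 3435 487))
 (.a 1 [296] (.q 295 (.a 1 [] (.d 428 425 425 426 430)
 (.a 1 [425] (.r 361 2343 328 (.d 360 359 359 360 364))
 .e)))
 .e)))))))
 (.a 1 [428] (.q 299 (.a 1 [] (.r 395 1323 331 (.d 393 392 392 393 397))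
 (.a 1 [392] (.r 395 1323 331 (.d 397 393 393 394 398))
 (.a 1 [397] (.r 395 1323 331 (.r 392 392 393 (.d 361 3340 268 3371 423)))
 (.a 0 [331,393,395] (.q 361 (.a 1 [] (.d 360 359 359 360 364)
 (.a 1 [359] (.d 392 3340 268 3371 423)
 .e)))
 .e)))))
 (.a 1 [425] (.q 299 (.a 1 [] (.r 395 1323 331 (.d 393 392 392 393 397))
 (.a 1 [392] (.r 395 1323 331 (.d 397 393 393 394 398))
 (.a 1 [393] (.r 395 1323 331 (.r 428 426 430 (.d 461 2377 329 2410 494)))
 (.a 1 [397] (.r 395 1323 331 (.r 392 392 393 (.d 361 3340 268 3371 423)))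
 (.a 0 [331,395] (.q 361 (.a 1 [] (.d 360 359 359 360 364)
 (.a 1 [359] (.d 392 3340 268 3371 423)
 .e)))
 .e))))))
 (.a 1 [430] (.r 425 425 428 (.d 456 3404 332 3435 487))
 .e)))))))
 (.a 1 [426] (.q 361 (.a 1 [] (.d 360 359 359 360 364)
 (.a 0 [359,360,364] (.q 328 (.a 1 [] (.d 295 2310 262 2343 427)
 (.a 1 [262] (.d 427 2343 295 2376 460)
 (.a 0 [295,427] (.q 299 (.a 1 [] (.d 268 3309 237 3340 392)
 (.a 1 [237] (.d 392 3340 268 3371 423)
 (.a 1 [268] (.r 392 3371 423 (.r 395 392 393 (.r 331 1291 267 (.d 329 327 327 328 332))))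
 (.a 0 [392] (.q 331 (.a 1 [] (.d 329 327 327 328 332)
 (.a 1 [327] (.d 267 1259 235 1291 395)
 .e)))
 .e)))))
 .e))))
 .e)))
 (.a 1 [266] (.d 426 1322 298 1354 458)
 .e))))))
 (.a 0 [464] (.q 395 (.a 1 [] (.d 393 392 392 393 397)
 (.a 0 [397] (.r 330 2345 297 (.r 392 392 393 (.q 361 (.a 1 [] (.d 299 3340 268 3371 423)
 (.a 0 [299] (.q 362 (.a 1 [] (.d 360 359 359 360 364)
 (.a 1 [463] (.q 465 (.a 1 [] (.d 298 1290 266 1322 426)
 (.a 1 [460] (.q 461 (.a 1 [] (.d 298 1290 266 1322 426)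
 (.a 1 [266] (.d 426 1322 298 1354 458)
 (.a 1 [298] (.d 428 2377 329 2410 494)
 .e))))
 (.a 1 [461] (.q 460 (.a 1 [] (.d 426 1322 298 1354 458)
 (.a 1 [298] (.d 427 2376 328 2409 493)
 .e)))
 (.a 1 [266] (.d 426 1322 298 1354 458)
 (.a 1 [298] (.d 360 359 359 360 364)
 .e))))))
 (.a 1 [465] (.q 463 (.a 1 [] (.d 360 359 359 360 364)
 (.a 1 [467] (.q 468 (.a 1 [] (.d 298 1290 266 1322 426)
 (.a 1 [266] (.d 426 1322 298 1354 458)
 (.a 1 [298] (.d 360 359 359 360 364)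
 .e))))
 (.a 1 [468] (.q 467 (.a 1 [] (.d 360 359 359 360 364)
 (.a 1 [360] (.d 298 1290 266 1322 426)
 .e)))
 (.a 1 [360] (.d 298 1290 266 1322 426)
 .e)))))
 (.a 1 [360] (.d 298 1290 266 1322 426)
 .e)))))
 (.a 0 [463] (.q 465 (.a 1 [] (.d 423 3371 299 3402 454)
 (.a 1 [460] (.q 461 (.a 1 [] (.d 299 3340 268 3371 423)
 (.a 1 [299] (.q 362 (.a 1 [] (.d 360 359 359 360 364)
 (.a 1 [359] (.d 428 2377 329 2410 494)
 .e)))
 .e)))
 (.a 1 [299] (.q 460 (.a 1 [] (.d 427 2376 328 2409 493)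
 (.a 1 [328] (.r 427 2409 493 (.d 459 1355 331 1387 491))
 (.a 1 [493] (.r 427 2376 328 (.d 459 1355 331 1387 491))
 (.a 0 [427] (.q 332 (.a 1 [] (.d 301 3342 270 3373 425)
 (.a 1 [270] (.d 425 3373 301 3404 456)
 (.a 1 [301] (.r 364 1356 428 (.r 362 360 360 (.d 426 1322 298 1354 458)))
 .e))))
 .e)))))
 .e))))
 (.a 0 [465] (.q 463 (.a 1 [] (.d 423 3371 299 3402 454)
 (.a 1 [299] (.q 362 (.a 1 [] (.d 360 359 359 360 364)
 (.a 1 [467] (.q 468 (.a 1 [] (.d 298 1290 266 1322 426)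
 (.a 1 [266] (.d 426 1322 298 1354 458)
 (.a 1 [298] (.d 360 359 359 360 364)
 .e))))
 (.a 1 [468] (.q 467 (.a 1 [] (.d 360 359 359 360 364)
 (.a 1 [360] (.d 298 1290 266 1322 426)
 .e)))
 (.a 1 [360] (.d 298 1290 266 1322 426)
 .e)))))
 (.a 1 [467] (.q 468 (.a 1 [] (.d 423 3371 299 3402 454)
 (.a 1 [299] (.q 362 (.a 1 [] (.d 360 359 359 360 364)
 (.a 1 [359] (.d 426 1322 298 1354 458)
 .e)))
 .e)))
 (.a 1 [468] (.q 467 (.a 1 [] (.d 423 3371 299 3402 454)
 (.a 1 [299] (.q 362 (.a 1 [] (.d 360 359 359 360 364)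
 (.a 1 [359] (.d 426 1322 298 1354 458)
 .e)))
 .e)))
 .e)))))
 (.a 1 [423] (.r 299 3340 268 (.d 331 1291 267 1323 427))
 (.a 1 [268] (.d 423 3371 299 3402 454)
 .e)))))))))
 (.a 0 [393] (.r 398 394 397 (.r 330 2345 297 (.q 460 (.a 1 [] (.d 367 3408 336 3439 491)
 (.a 0 [491] (.q 427 (.a 1 [] (.d 331 1323 299 1355 459)
 (.a 1 [465] (.q 463 (.a 1 [] (.d 331 1323 299 1355 459)
 (.a 1 [467] (.q 468 (.a 1 [] (.d 361 2376 328 2409 493)
 (.a 1 [328] (.d 493 2409 361 2442 526)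
 (.a 1 [361] (.d 331 1323 299 1355 459)
 .e))))
 (.a 1 [468] (.q 467 (.a 1 [] (.d 331 1323 299 1355 459)
 (.a 1 [331] (.d 361 2376 328 2409 493)
 .e)))
 (.a 1 [331] (.d 361 2376 328 2409 493)
 .e)))))
 (.a 1 [463] (.q 465 (.a 1 [] (.d 331 1323 299 1355 459)
 (.a 1 [331] (.d 361 2376 328 2409 493)
 .e)))
 (.a 1 [331] (.d 361 2376 328 2409 493)
 .e)))))
 (.a 0 [465] (.q 463 (.a 1 [] (.d 367 3408 336 3439 491)
 (.a 1 [491] (.q 427 (.a 1 [] (.d 331 1323 299 1355 459)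
 (.a 1 [467] (.q 468 (.a 1 [] (.d 361 2376 328 2409 493)
 (.a 1 [328] (.d 493 2409 361 2442 526)
 (.a 1 [361] (.d 331 1323 299 1355 459)
 .e))))
 (.a 1 [468] (.q 467 (.a 1 [] (.d 331 1323 299 1355 459)
 (.a 1 [331] (.d 361 2376 328 2409 493)
 .e)))
 (.a 1 [331] (.d 361 2376 328 2409 493)
 .e)))))
 (.a 1 [467] (.q 468 (.a 1 [] (.d 367 3408 336 3439 491)
 (.a 1 [491] (.q 427 (.a 1 [] (.d 331 1323 299 1355 459)
 (.a 1 [299] (.d 493 2409 361 2442 526)
 .e)))
 .e)))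
 (.a 1 [468] (.q 467 (.a 1 [] (.d 367 3408 336 3439 491)
 (.a 1 [491] (.q 427 (.a 1 [] (.d 331 1323 299 1355 459)
 (.a 1 [299] (.d 493 2409 361 2442 526)
 .e)))
 .e)))
 (.a 1 [367] (.r 491 3470 522 (.r 427 1387 459 (.d 493 2409 361 2442 526)))
 .e))))))
 (.a 1 [463] (.q 465 (.a 1 [] (.d 367 3408 336 3439 491)
 (.a 1 [491] (.q 427 (.a 1 [] (.d 331 1323 299 1355 459)
 (.a 1 [299] (.d 493 2409 361 2442 526)
 .e)))
 .e)))
 (.a 1 [367] (.r 491 3470 522 (.r 427 1387 459 (.d 493 2409 361 2442 526)))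
 .e))))))))
 (.a 0 [463] (.q 465 (.a 1 [] (.d 393 392 392 393 397)
 (.a 0 [397] (.r 330 2345 297 (.r 392 392 393 (.q 361 (.a 1 [] (.d 299 3340 268 3371 423)
 (.a 1 [460] (.q 461 (.a 1 [] (.d 299 3340 268 3371 423)
 (.a 1 [299] (.q 362 (.a 1 [] (.d 360 359 359 360 364)
 (.a 1 [359] (.d 428 2377 329 2410 494)
 .e)))
 .e)))
 (.a 1 [299] (.q 460 (.a 1 [] (.d 427 2376 328 2409 493)
 (.a 1 [328] (.r 427 2409 493 (.d 459 1355 331 1387 491))
 (.a 1 [493] (.r 427 2376 328 (.d 459 1355 331 1387 491))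
 (.a 0 [427] (.q 332 (.a 1 [] (.d 301 3342 270 3373 425)
 (.a 1 [270] (.d 425 3373 301 3404 456)
 (.a 1 [301] (.r 364 1356 428 (.r 362 360 360 (.d 426 1322 298 1354 458)))
 .e))))
 .e)))))
 .e))))))
 (.a 1 [460] (.q 461 (.a 1 [] (.d 397 393 393 394 398)
 (.a 1 [397] (.q 362 (.a 1 [] (.d 428 2377 329 2410 494)
 (.a 1 [329] (.r 330 2345 297 (.d 426 1322 298 1354 458))
 .e)))
 (.a 1 [393] (.q 362 (.a 1 [] (.d 428 2377 329 2410 494)
 (.a 1 [329] (.r 330 2345 297 (.d 426 1322 298 1354 458))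
 .e)))
 (.a 1 [398] (.d 393 392 392 393 397)
 .e)))))
 (.a 1 [461] (.q 460 (.a 1 [] (.d 393 392 392 393 397)
 (.a 1 [397] (.q 427 (.a 1 [] (.d 331 1323 299 1355 459)
 (.a 1 [299] (.d 459 1355 331 1387 491)
 (.a 1 [331] (.d 361 2376 328 2409 493)
 .e))))
 .e)))
 (.a 1 [393] (.r 398 394 397 (.q 460 (.a 1 [] (.d 367 3408 336 3439 491)
 (.a 1 [336] (.d 491 3439 367 3470 522)
 (.a 1 [367] (.r 491 3470 522 (.r 427 1387 459 (.d 493 2409 361 2442 526)))
 (.a 0 [491] (.q 427 (.a 1 [] (.d 331 1323 299 1355 459)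
 (.a 1 [299] (.d 493 2409 361 2442 526)
 .e)))
 .e))))))
 .e))))))
 (.a 0 [465] (.q 463 (.a 1 [] (.d 397 393 393 394 398)
 (.a 0 [397] (.r 330 2345 297 (.r 392 392 393 (.q 361 (.a 1 [] (.d 299 3340 268 3371 423)
 (.a 1 [299] (.q 362 (.a 1 [] (.d 360 359 359 360 364)
 (.a 1 [467] (.q 468 (.a 1 [] (.d 298 1290 266 1322 426)
 (.a 1 [266] (.d 426 1322 298 1354 458)
 (.a 1 [298] (.d 360 359 359 360 364)
 .e))))
 (.a 1 [468] (.q 467 (.a 1 [] (.d 360 359 359 360 364)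
 (.a 1 [360] (.d 298 1290 266 1322 426)
 .e)))
 (.a 1 [360] (.d 298 1290 266 1322 426)
 .e)))))
 (.a 1 [467] (.q 468 (.a 1 [] (.d 423 3371 299 3402 454)
 (.a 1 [299] (.q 362 (.a 1 [] (.d 360 359 359 360 364)
 (.a 1 [359] (.d 426 1322 298 1354 458)
 .e)))
 .e)))
 (.a 1 [468] (.q 467 (.a 1 [] (.d 423 3371 299 3402 454)
 (.a 1 [299] (.q 362 (.a 1 [] (.d 360 359 359 360 364)
 (.a 1 [359] (.d 426 1322 298 1354 458)
 .e)))
 .e)))
 (.a 1 [268] (.d 423 3371 299 3402 454)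
 .e))))))))
 (.a 0 [393] (.r 398 394 397 (.r 330 2345 297 (.q 427 (.a 1 [] (.d 331 1323 299 1355 459)
 (.a 1 [459] (.q 460 (.a 1 [] (.d 361 2376 328 2409 493)
 (.a 1 [467] (.q 468 (.a 1 [] (.d 367 3408 336 3439 491)
 (.a 1 [336] (.d 491 3439 367 3470 522)
 (.a 1 [367] (.d 361 2376 328 2409 493)
 .e))))
 (.a 1 [468] (.q 467 (.a 1 [] (.d 361 2376 328 2409 493)
 (.a 1 [361] (.d 367 3408 336 3439 491)
 .e)))
 (.a 1 [361] (.d 367 3408 336 3439 491)
 .e)))))
 (.a 1 [467] (.q 468 (.a 1 [] (.d 331 1323 299 1355 459)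
 (.a 1 [331] (.r 491 1387 459 (.d 460 3439 367 3470 522))
 (.a 1 [459] (.q 460 (.a 1 [] (.d 361 2376 328 2409 493)
 (.a 1 [328] (.d 493 2409 361 2442 526)
 (.a 1 [361] (.d 367 3408 336 3439 491)
 .e))))
 .e))))
 (.a 1 [468] (.q 467 (.a 1 [] (.d 331 1323 299 1355 459)
 (.a 1 [331] (.r 491 1387 459 (.d 460 3439 367 3470 522))
 (.a 1 [459] (.q 460 (.a 1 [] (.d 361 2376 328 2409 493)
 (.a 1 [328] (.d 493 2409 361 2442 526)
 (.a 1 [361] (.d 367 3408 336 3439 491)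
 .e))))
 .e))))
 (.a 1 [331] (.r 491 1387 459 (.d 460 3439 367 3470 522))
 .e))))))))
 (.a 1 [467] (.q 468 (.a 1 [] (.d 393 392 392 393 397)
 (.a 1 [397] (.q 427 (.a 1 [] (.d 331 1323 299 1355 459)
 (.a 1 [299] (.d 459 1355 331 1387 491)
 (.a 0 [331,459] (.q 425 (.a 1 [] (.d 332 3373 301 3404 456)
 (.a 1 [301] (.d 456 3404 332 3435 487)
 (.a 1 [332] (.r 426 425 428 (.r 330 2345 297 (.d 362 1322 298 1354 458)))
 .e))))
 .e))))
 .e)))
 (.a 1 [468] (.q 467 (.a 1 [] (.d 393 392 392 393 397)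
 (.a 1 [397] (.q 427 (.a 1 [] (.d 331 1323 299 1355 459)
 (.a 1 [299] (.d 459 1355 331 1387 491)
 (.a 0 [331,459] (.q 425 (.a 1 [] (.d 332 3373 301 3404 456)
 (.a 1 [301] (.d 456 3404 332 3435 487)
 (.a 1 [332] (.r 426 425 428 (.r 330 2345 297 (.d 362 1322 298 1354 458)))
 .e))))
 .e))))
 .e)))
 (.a 1 [398] (.d 393 392 392 393 397)
 .e)))))))
 (.a 1 [392] (.d 397 393 393 394 398)
 .e)))))))
 (.a 0 [463] (.r 330 2345 297 (.q 395 (.a 1 [] (.d 393 392 392 393 397)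
 (.a 0 [397] (.r 392 392 393 (.q 361 (.a 1 [] (.d 299 3340 268 3371 423)
 (.a 0 [299] (.q 362 (.a 1 [] (.d 360 359 359 360 364)
 (.a 1 [464] (.q 465 (.a 1 [] (.d 298 1290 266 1322 426)
 (.a 1 [460] (.q 461 (.a 1 [] (.d 298 1290 266 1322 426)
 (.a 1 [266] (.d 426 1322 298 1354 458)
 (.a 1 [298] (.d 428 2377 329 2410 494)
 .e))))
 (.a 1 [461] (.q 460 (.a 1 [] (.d 426 1322 298 1354 458)
 (.a 1 [298] (.d 427 2376 328 2409 493)
 .e)))
 (.a 1 [266] (.d 426 1322 298 1354 458)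
 (.a 1 [298] (.d 360 359 359 360 364)
 .e))))))
 (.a 1 [465] (.q 464 (.a 1 [] (.d 360 359 359 360 364)
 (.a 1 [360] (.d 298 1290 266 1322 426)
 .e)))
 (.a 1 [360] (.d 298 1290 266 1322 426)
 .e)))))
 (.a 0 [464] (.q 465 (.a 1 [] (.d 423 3371 299 3402 454)
 (.a 1 [460] (.q 461 (.a 1 [] (.d 299 3340 268 3371 423)
 (.a 1 [299] (.q 362 (.a 1 [] (.d 360 359 359 360 364)
 (.a 1 [359] (.d 428 2377 329 2410 494)
 .e)))
 .e)))
 (.a 1 [299] (.q 460 (.a 1 [] (.d 427 2376 328 2409 493)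
 (.a 1 [328] (.r 427 2409 493 (.d 459 1355 331 1387 491))
 (.a 1 [493] (.r 427 2376 328 (.d 459 1355 331 1387 491))
 (.a 0 [427] (.q 332 (.a 1 [] (.d 301 3342 270 3373 425)
 (.a 1 [270] (.d 425 3373 301 3404 456)
 (.a 1 [301] (.r 364 1356 428 (.r 362 360 360 (.d 426 1322 298 1354 458)))
 .e))))
 .e)))))
 .e))))
 (.a 1 [465] (.q 464 (.a 1 [] (.d 423 3371 299 3402 454)
 (.a 1 [299] (.q 362 (.a 1 [] (.d 360 359 359 360 364)
 (.a 1 [359] (.d 426 1322 298 1354 458)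
 .e)))
 .e)))
 (.a 1 [423] (.r 299 3340 268 (.d 331 1291 267 1323 427))
 (.a 1 [268] (.d 423 3371 299 3402 454)
 .e))))))))
 (.a 0 [393] (.r 398 394 397 (.q 460 (.a 1 [] (.d 367 3408 336 3439 491)
 (.a 1 [491] (.q 427 (.a 1 [] (.d 331 1323 299 1355 459)
 (.a 1 [464] (.q 465 (.a 1 [] (.d 331 1323 299 1355 459)
 (.a 1 [331] (.d 361 2376 328 2409 493)
 .e)))
 (.a 1 [465] (.q 464 (.a 1 [] (.d 361 2376 328 2409 493)
 (.a 1 [328] (.d 493 2409 361 2442 526)
 (.a 1 [361] (.d 331 1323 299 1355 459)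
 .e))))
 (.a 1 [331] (.d 493 2409 361 2442 526)
 .e)))))
 (.a 1 [464] (.q 465 (.a 1 [] (.d 367 3408 336 3439 491)
 (.a 1 [491] (.q 427 (.a 1 [] (.d 331 1323 299 1355 459)
 (.a 1 [299] (.d 493 2409 361 2442 526)
 .e)))
 .e)))
 (.a 1 [465] (.q 464 (.a 1 [] (.d 367 3408 336 3439 491)
 (.a 1 [491] (.q 427 (.a 1 [] (.d 331 1323 299 1355 459)
 (.a 1 [299] (.d 493 2409 361 2442 526)
 .e)))
 .e)))
 (.a 1 [367] (.r 491 3470 522 (.r 427 1387 459 (.d 493 2409 361 2442 526)))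
 .e)))))))
 (.a 0 [464] (.q 465 (.a 1 [] (.d 397 393 393 394 398)
 (.a 0 [397] (.r 392 392 393 (.q 361 (.a 1 [] (.d 299 3340 268 3371 423)
 (.a 1 [460] (.q 461 (.a 1 [] (.d 299 3340 268 3371 423)
 (.a 1 [299] (.q 362 (.a 1 [] (.d 360 359 359 360 364)
 (.a 1 [359] (.d 428 2377 329 2410 494)
 .e)))
 .e)))
 (.a 1 [299] (.q 460 (.a 1 [] (.d 427 2376 328 2409 493)
 (.a 1 [328] (.r 427 2409 493 (.d 459 1355 331 1387 491))
 (.a 1 [493] (.r 427 2376 328 (.d 459 1355 331 1387 491))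
 (.a 0 [427] (.q 332 (.a 1 [] (.d 301 3342 270 3373 425)
 (.a 1 [270] (.d 425 3373 301 3404 456)
 (.a 1 [301] (.r 364 1356 428 (.r 362 360 360 (.d 426 1322 298 1354 458)))
 .e))))
 .e)))))
 .e)))))
 (.a 1 [460] (.q 461 (.a 1 [] (.d 393 392 392 393 397)
 (.a 1 [397] (.q 362 (.a 1 [] (.d 298 1290 266 1322 426)
 (.a 1 [266] (.d 426 1322 298 1354 458)
 (.a 1 [298] (.d 428 2377 329 2410 494)
 .e))))
 .e)))
 (.a 1 [461] (.q 460 (.a 1 [] (.d 393 392 392 393 397)
 (.a 1 [397] (.q 427 (.a 1 [] (.d 331 1323 299 1355 459)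
 (.a 1 [299] (.d 459 1355 331 1387 491)
 (.a 1 [331] (.d 361 2376 328 2409 493)
 .e))))
 .e)))
 (.a 1 [393] (.r 398 394 397 (.q 460 (.a 1 [] (.d 367 3408 336 3439 491)
 (.a 1 [336] (.d 491 3439 367 3470 522)
 (.a 1 [367] (.r 491 3470 522 (.r 427 1387 459 (.d 493 2409 361 2442 526)))
 (.a 0 [491] (.q 427 (.a 1 [] (.d 331 1323 299 1355 459)
 (.a 1 [299] (.d 493 2409 361 2442 526)
 .e)))
 .e))))))
 (.a 1 [398] (.d 393 392 392 393 397)
 .e)))))))
 (.a 1 [465] (.q 464 (.a 1 [] (.d 393 392 392 393 397)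
 (.a 1 [397] (.q 299 (.a 1 [] (.d 331 1291 267 1323 427)
 (.a 1 [267] (.r 427 1323 331 (.r 392 392 393 (.d 361 3340 268 3371 423)))
 (.a 1 [331] (.r 392 392 393 (.d 361 3340 268 3371 423))
 .e))))
 (.a 1 [393] (.q 362 (.a 1 [] (.d 298 1290 266 1322 426)
 (.a 1 [266] (.d 426 1322 298 1354 458)
 (.a 0 [298,426] (.q 299 (.a 1 [] (.d 331 1291 267 1323 427)
 (.a 0 [267,331,427] (.q 361 (.a 1 [] (.d 360 359 359 360 364)
 (.a 1 [359] (.d 392 3340 268 3371 423)
 .e)))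
 .e)))
 .e))))
 (.a 1 [392] (.d 397 393 393 394 398)
 .e)))))
 (.a 1 [392] (.d 397 393 393 394 398)
 .e))))))))
 (.a 0 [465] (.q 395 (.a 1 [] (.d 393 392 392 393 397)
 (.a 0 [397] (.r 330 2345 297 (.r 392 392 393 (.q 361 (.a 1 [] (.d 299 3340 268 3371 423)
 (.a 0 [299] (.q 362 (.a 1 [] (.d 360 359 359 360 364)
 (.a 1 [464] (.q 463 (.a 1 [] (.d 360 359 359 360 364)
 (.a 1 [467] (.q 468 (.a 1 [] (.d 298 1290 266 1322 426)
 (.a 1 [266] (.d 426 1322 298 1354 458)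
 (.a 1 [298] (.d 360 359 359 360 364)
 .e))))
 (.a 1 [468] (.q 467 (.a 1 [] (.d 360 359 359 360 364)
 (.a 1 [360] (.d 298 1290 266 1322 426)
 .e)))
 (.a 1 [360] (.d 298 1290 266 1322 426)
 .e)))))
 (.a 1 [463] (.q 464 (.a 1 [] (.d 360 359 359 360 364)
 (.a 1 [360] (.d 298 1290 266 1322 426)
 .e)))
 (.a 1 [360] (.d 298 1290 266 1322 426)
 .e)))))
 (.a 0 [464] (.q 463 (.a 1 [] (.d 423 3371 299 3402 454)
 (.a 1 [299] (.q 362 (.a 1 [] (.d 360 359 359 360 364)
 (.a 1 [467] (.q 468 (.a 1 [] (.d 298 1290 266 1322 426)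
 (.a 1 [266] (.d 426 1322 298 1354 458)
 (.a 1 [298] (.d 360 359 359 360 364)
 .e))))
 (.a 1 [468] (.q 467 (.a 1 [] (.d 360 359 359 360 364)
 (.a 1 [360] (.d 298 1290 266 1322 426)
 .e)))
 (.a 1 [360] (.d 298 1290 266 1322 426)
 .e)))))
 (.a 1 [467] (.q 468 (.a 1 [] (.d 423 3371 299 3402 454)
 (.a 1 [299] (.q 362 (.a 1 [] (.d 360 359 359 360 364)
 (.a 1 [359] (.d 426 1322 298 1354 458)
 .e)))
 .e)))
 (.a 1 [468] (.q 467 (.a 1 [] (.d 423 3371 299 3402 454)
 (.a 1 [299] (.q 362 (.a 1 [] (.d 360 359 359 360 364)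
 (.a 1 [359] (.d 426 1322 298 1354 458)
 .e)))
 .e)))
 .e)))))
 (.a 1 [463] (.q 464 (.a 1 [] (.d 423 3371 299 3402 454)
 (.a 1 [299] (.q 362 (.a 1 [] (.d 360 359 359 360 364)
 (.a 1 [359] (.d 426 1322 298 1354 458)
 .e)))
 .e)))
 (.a 1 [423] (.r 299 3340 268 (.d 331 1291 267 1323 427))
 (.a 1 [268] (.d 423 3371 299 3402 454)
 .e)))))))))
 (.a 0 [393] (.q 464 (.a 1 [] (.q 427 (.a 1 [] (.d 331 1323 299 1355 459)
 (.a 1 [299] (.d 459 1355 331 1387 491)
 (.a 0 [331,459] (.q 460 (.a 1 [] (.d 361 2376 328 2409 493)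
 (.a 1 [328] (.d 493 2409 361 2442 526)
 (.a 1 [361] (.r 398 394 397 (.d 491 3439 367 3470 522))
 .e))))
 .e))))
 (.a 0 [467] (.r 398 394 397 (.r 330 2345 297 (.q 427 (.a 1 [] (.d 331 1323 299 1355 459)
 (.a 1 [459] (.q 460 (.a 1 [] (.d 361 2376 328 2409 493)
 (.a 1 [468] (.q 469 (.a 1 [] (.d 361 2376 328 2409 493)
 (.a 1 [361] (.d 367 3408 336 3439 491)
 .e)))
 (.a 1 [469] (.q 468 (.a 1 [] (.d 367 3408 336 3439 491)
 (.a 1 [336] (.d 491 3439 367 3470 522)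
 (.a 1 [367] (.d 361 2376 328 2409 493)
 .e))))
 (.a 1 [361] (.d 491 3439 367 3470 522)
 .e)))))
 (.a 1 [468] (.q 469 (.a 1 [] (.d 331 1323 299 1355 459)
 (.a 1 [331] (.r 491 1387 459 (.d 460 3439 367 3470 522))
 (.a 1 [459] (.q 460 (.a 1 [] (.d 361 2376 328 2409 493)
 (.a 1 [328] (.d 493 2409 361 2442 526)
 (.a 1 [361] (.d 367 3408 336 3439 491)
 .e))))
 .e))))
 (.a 1 [469] (.q 468 (.a 1 [] (.d 331 1323 299 1355 459)
 (.a 1 [331] (.r 491 1387 459 (.d 460 3439 367 3470 522))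
 (.a 1 [459] (.q 460 (.a 1 [] (.d 361 2376 328 2409 493)
 (.a 1 [328] (.d 493 2409 361 2442 526)
 (.a 1 [361] (.d 367 3408 336 3439 491)
 .e))))
 .e))))
 (.a 1 [331] (.r 491 1387 459 (.d 460 3439 367 3470 522))
 .e))))))))
 (.a 0 [468] (.r 398 394 397 (.r 330 2345 297 (.q 427 (.a 1 [] (.d 331 1323 299 1355 459)
 (.a 1 [459] (.q 460 (.a 1 [] (.d 361 2376 328 2409 493)
 (.a 1 [469] (.q 467 (.a 1 [] (.d 367 3408 336 3439 491)
 (.a 1 [336] (.d 491 3439 367 3470 522)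
 (.a 1 [367] (.d 361 2376 328 2409 493)
 .e))))
 (.a 1 [467] (.q 469 (.a 1 [] (.d 361 2376 328 2409 493)
 (.a 1 [361] (.d 367 3408 336 3439 491)
 .e)))
 (.a 1 [361] (.d 367 3408 336 3439 491)
 .e)))))
 (.a 1 [469] (.q 467 (.a 1 [] (.d 331 1323 299 1355 459)
 (.a 1 [331] (.r 491 1387 459 (.d 460 3439 367 3470 522))
 (.a 1 [459] (.q 460 (.a 1 [] (.d 361 2376 328 2409 493)
 (.a 1 [328] (.d 493 2409 361 2442 526)
 (.a 1 [361] (.d 367 3408 336 3439 491)
 .e))))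
 .e))))
 (.a 1 [467] (.q 469 (.a 1 [] (.d 331 1323 299 1355 459)
 (.a 1 [331] (.r 491 1387 459 (.d 460 3439 367 3470 522))
 (.a 1 [459] (.q 460 (.a 1 [] (.d 361 2376 328 2409 493)
 (.a 1 [328] (.d 493 2409 361 2442 526)
 (.a 1 [361] (.d 367 3408 336 3439 491)
 .e))))
 .e))))
 (.a 1 [331] (.r 491 1387 459 (.d 460 3439 367 3470 522))
 .e))))))))
 (.a 0 [469] (.r 330 2345 297 (.r 398 394 397 (.q 427 (.a 1 [] (.d 331 1323 299 1355 459)
 (.a 1 [459] (.q 460 (.a 1 [] (.d 361 2376 328 2409 493)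
 (.a 1 [468] (.q 467 (.a 1 [] (.d 367 3408 336 3439 491)
 (.a 1 [336] (.d 491 3439 367 3470 522)
 (.a 1 [367] (.d 361 2376 328 2409 493)
 .e))))
 (.a 1 [467] (.q 468 (.a 1 [] (.d 367 3408 336 3439 491)
 (.a 1 [336] (.d 491 3439 367 3470 522)
 (.a 1 [367] (.d 361 2376 328 2409 493)
 .e))))
 (.a 1 [361] (.d 367 3408 336 3439 491)
 .e)))))
 (.a 1 [468] (.q 467 (.a 1 [] (.d 331 1323 299 1355 459)
 (.a 1 [331] (.r 491 1387 459 (.d 460 3439 367 3470 522))
 (.a 1 [459] (.q 460 (.a 1 [] (.d 361 2376 328 2409 493)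
 (.a 1 [328] (.d 493 2409 361 2442 526)
 (.a 1 [361] (.d 367 3408 336 3439 491)
 .e))))
 .e))))
 (.a 1 [467] (.q 468 (.a 1 [] (.d 331 1323 299 1355 459)
 (.a 1 [331] (.r 491 1387 459 (.d 460 3439 367 3470 522))
 (.a 1 [459] (.q 460 (.a 1 [] (.d 361 2376 328 2409 493)
 (.a 1 [328] (.d 493 2409 361 2442 526)
 (.a 1 [361] (.d 367 3408 336 3439 491)
 .e))))
 .e))))
 (.a 1 [331] (.r 491 1387 459 (.d 460 3439 367 3470 522))
 .e))))))))
 (.a 1 [398] (.q 427 (.a 1 [] (.d 331 1323 299 1355 459)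
 (.a 1 [299] (.d 459 1355 331 1387 491)
 (.a 0 [331,459] (.q 426 (.a 1 [] (.d 428 425 425 426 430)
 (.a 1 [425] (.r 330 2345 297 (.d 362 1322 298 1354 458))
 .e)))
 .e))))
 (.a 1 [330] (.q 427 (.a 1 [] (.d 331 1323 299 1355 459)
 (.a 1 [299] (.d 459 1355 331 1387 491)
 (.a 0 [331,459] (.q 460 (.a 1 [] (.d 361 2376 328 2409 493)
 (.a 1 [328] (.d 493 2409 361 2442 526)
 (.a 1 [361] (.r 398 394 397 (.d 491 3439 367 3470 522))
 .e))))
 .e))))
 (.a 1 [297] (.q 427 (.a 1 [] (.d 331 1323 299 1355 459)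
 (.a 1 [299] (.d 459 1355 331 1387 491)
 (.a 0 [331,459] (.q 460 (.a 1 [] (.d 361 2376 328 2409 493)
 (.a 1 [328] (.d 493 2409 361 2442 526)
 (.a 1 [361] (.r 398 394 397 (.d 491 3439 367 3470 522))
 .e))))
 .e))))
 (.a 1 [427] (.q 332 (.a 1 [] (.d 301 3342 270 3373 425)
 (.a 1 [270] (.d 425 3373 301 3404 456)
 (.a 0 [301,425] (.q 364 (.a 1 [] (.d 300 1292 268 1324 428)
 (.a 1 [268] (.d 428 1324 300 1356 460)
 (.a 0 [300,428] (.q 426 (.a 1 [] (.d 333 3374 302 3405 457)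
 (.a 1 [302] (.d 457 3405 333 3436 488)
 (.a 1 [333] (.r 330 2345 297 (.d 362 1322 298 1354 458))
 .e))))
 .e))))
 .e))))
 (.a 1 [332] (.q 427 (.a 1 [] (.d 331 1323 299 1355 459)
 (.a 1 [299] (.d 459 1355 331 1387 491)
 (.a 0 [331,459] (.q 426 (.a 1 [] (.d 428 425 425 426 430)
 (.a 1 [425] (.r 330 2345 297 (.d 362 1322 298 1354 458))
 .e)))
 .e))))
 (.a 1 [425] (.q 427 (.a 1 [] (.d 331 1323 299 1355 459)
 (.a 1 [299] (.d 459 1355 331 1387 491)
 (.a 0 [331,459] (.q 460 (.a 1 [] (.d 361 2376 328 2409 493)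
 (.a 1 [328] (.d 493 2409 361 2442 526)
 (.a 1 [361] (.r 398 394 397 (.d 491 3439 367 3470 522))
 .e))))
 .e))))
 (.a 1 [331] (.q 332 (.a 1 [] (.d 301 3342 270 3373 425)
 (.a 1 [270] (.d 425 3373 301 3404 456)
 (.a 0 [301,425] (.q 428 (.a 1 [] (.d 364 1324 300 1356 460)
 (.a 1 [300] (.r 460 1356 364 (.r 398 394 397 (.d 491 3439 367 3470 522)))
 (.a 0 [364,460] (.q 459 (.a 1 [] (.r 397 394 398 (.d 490 3438 366 3469 521))
 (.a 1 [366] (.r 427 1387 491 (.d 430 426 426 427 431))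
 .e)))
 .e))))
 .e))))
 (.a 1 [299] (.q 332 (.a 1 [] (.d 301 3342 270 3373 425)
 (.a 1 [270] (.d 425 3373 301 3404 456)
 (.a 0 [301,425] (.q 428 (.a 1 [] (.d 364 1324 300 1356 460)
 (.a 1 [300] (.r 460 1356 364 (.r 398 394 397 (.d 491 3439 367 3470 522)))
 (.a 0 [364,460] (.q 427 (.a 1 [] (.d 430 426 426 427 431)
 (.a 1 [426] (.d 459 1355 331 1387 491)
 .e)))
 .e))))
 .e))))
 (.a 1 [428] (.q 427 (.a 1 [] (.d 331 1323 299 1355 459)
 (.a 1 [299] (.d 459 1355 331 1387 491)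
 (.a 0 [331,459] (.q 460 (.a 1 [] (.d 361 2376 328 2409 493)
 (.a 1 [328] (.d 493 2409 361 2442 526)
 (.a 1 [361] (.r 398 394 397 (.d 491 3439 367 3470 522))
 .e))))
 .e))))
 (.a 1 [362] (.q 331 (.a 1 [] (.d 299 1291 267 1323 427)
 (.a 1 [267] (.d 427 1323 299 1355 459)
 (.a 0 [299,427] (.q 332 (.a 1 [] (.d 301 3342 270 3373 425)
 (.a 1 [270] (.d 425 3373 301 3404 456)
 (.a 1 [301] (.r 330 2345 297 (.d 333 329 329 330 334))
 .e))))
 .e))))
 (.a 1 [361] (.q 425 (.a 1 [] (.d 332 3373 301 3404 456)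
 (.a 1 [301] (.d 456 3404 332 3435 487)
 (.a 0 [332,456] (.q 427 (.a 1 [] (.d 331 1323 299 1355 459)
 (.a 1 [299] (.d 459 1355 331 1387 491)
 (.a 1 [331] (.r 426 425 428 (.r 330 2345 297 (.d 362 1322 298 1354 458)))
 .e))))
 .e))))
 (.a 1 [329] (.q 427 (.a 1 [] (.d 331 1323 299 1355 459)
 (.a 1 [299] (.d 459 1355 331 1387 491)
 (.a 0 [331,459] (.q 425 (.a 1 [] (.d 332 3373 301 3404 456)
 (.a 1 [301] (.d 456 3404 332 3435 487)
 (.a 1 [332] (.r 426 425 428 (.r 330 2345 297 (.d 362 1322 298 1354 458)))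
 .e))))
 .e))))
 (.a 1 [300] (.q 425 (.a 1 [] (.d 332 3373 301 3404 456)
 (.a 1 [301] (.d 456 3404 332 3435 487)
 (.a 0 [332,456] (.q 427 (.a 1 [] (.d 331 1323 299 1355 459)
 (.a 1 [299] (.d 459 1355 331 1387 491)
 (.a 1 [331] (.r 426 425 428 (.r 330 2345 297 (.d 362 1322 298 1354 458)))
 .e))))
 .e))))
 (.a 1 [298] (.q 427 (.a 1 [] (.d 331 1323 299 1355 459)
 (.a 1 [299] (.d 459 1355 331 1387 491)
 (.a 0 [331,459] (.q 460 (.a 1 [] (.d 361 2376 328 2409 493)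
 (.a 1 [328] (.d 493 2409 361 2442 526)
 (.a 1 [361] (.r 398 394 397 (.d 491 3439 367 3470 522))
 .e))))
 .e))))
 (.a 1 [424] (.q 425 (.a 1 [] (.d 332 3373 301 3404 456)
 (.a 1 [301] (.d 456 3404 332 3435 487)
 (.a 0 [332,456] (.q 426 (.a 1 [] (.r 427 425 428 (.d 459 1355 331 1387 491))
 (.a 1 [331] (.r 330 2345 297 (.d 362 1322 298 1354 458))
 .e)))
 .e))))
 (.a 1 [269] (.q 331 (.a 1 [] (.d 299 1291 267 1323 427)
 (.a 1 [267] (.d 427 1323 299 1355 459)
 (.a 0 [299,427] (.q 332 (.a 1 [] (.d 301 3342 270 3373 425)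
 (.a 1 [270] (.d 425 3373 301 3404 456)
 (.a 1 [301] (.r 330 2345 297 (.d 333 329 329 330 334))
 .e))))
 .e))))
 (.a 1 [265] (.q 427 (.a 1 [] (.d 331 1323 299 1355 459)
 (.a 1 [299] (.d 459 1355 331 1387 491)
 (.a 0 [331,459] (.q 460 (.a 1 [] (.d 361 2376 328 2409 493)
 (.a 1 [328] (.d 493 2409 361 2442 526)
 (.a 1 [361] (.r 398 394 397 (.d 491 3439 367 3470 522))
 .e))))
 .e))))
 .e))))))))))))))))))))))
 (.a 0 [464] (.q 463 (.a 1 [] (.d 397 393 393 394 398)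
 (.a 0 [397] (.r 330 2345 297 (.r 392 392 393 (.q 361 (.a 1 [] (.d 299 3340 268 3371 423)
 (.a 1 [299] (.q 362 (.a 1 [] (.d 360 359 359 360 364)
 (.a 1 [467] (.q 468 (.a 1 [] (.d 298 1290 266 1322 426)
 (.a 1 [266] (.d 426 1322 298 1354 458)
 (.a 1 [298] (.d 360 359 359 360 364)
 .e))))
 (.a 1 [468] (.q 467 (.a 1 [] (.d 360 359 359 360 364)
 (.a 1 [360] (.d 298 1290 266 1322 426)
 .e)))
 (.a 1 [360] (.d 298 1290 266 1322 426)
 .e)))))
 (.a 1 [467] (.q 468 (.a 1 [] (.d 423 3371 299 3402 454)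
 (.a 1 [299] (.q 362 (.a 1 [] (.d 360 359 359 360 364)
 (.a 1 [359] (.d 426 1322 298 1354 458)
 .e)))
 .e)))
 (.a 1 [468] (.q 467 (.a 1 [] (.d 423 3371 299 3402 454)
 (.a 1 [299] (.q 362 (.a 1 [] (.d 360 359 359 360 364)
 (.a 1 [359] (.d 426 1322 298 1354 458)
 .e)))
 .e)))
 (.a 1 [268] (.d 423 3371 299 3402 454)
 .e))))))))
 (.a 0 [393] (.r 398 394 397 (.r 330 2345 297 (.q 427 (.a 1 [] (.d 331 1323 299 1355 459)
 (.a 1 [459] (.q 460 (.a 1 [] (.d 361 2376 328 2409 493)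
 (.a 1 [467] (.q 468 (.a 1 [] (.d 367 3408 336 3439 491)
 (.a 1 [336] (.d 491 3439 367 3470 522)
 (.a 1 [367] (.d 361 2376 328 2409 493)
 .e))))
 (.a 1 [468] (.q 467 (.a 1 [] (.d 361 2376 328 2409 493)
 (.a 1 [361] (.d 367 3408 336 3439 491)
 .e)))
 (.a 1 [361] (.d 367 3408 336 3439 491)
 .e)))))
 (.a 1 [467] (.q 468 (.a 1 [] (.d 331 1323 299 1355 459)
 (.a 1 [331] (.r 491 1387 459 (.d 460 3439 367 3470 522))
 (.a 1 [459] (.q 460 (.a 1 [] (.d 361 2376 328 2409 493)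
 (.a 1 [328] (.d 493 2409 361 2442 526)
 (.a 1 [361] (.d 367 3408 336 3439 491)
 .e))))
 .e))))
 (.a 1 [468] (.q 467 (.a 1 [] (.d 331 1323 299 1355 459)
 (.a 1 [331] (.r 491 1387 459 (.d 460 3439 367 3470 522))
 (.a 1 [459] (.q 460 (.a 1 [] (.d 361 2376 328 2409 493)
 (.a 1 [328] (.d 493 2409 361 2442 526)
 (.a 1 [361] (.d 367 3408 336 3439 491)
 .e))))
 .e))))
 (.a 1 [331] (.r 491 1387 459 (.d 460 3439 367 3470 522))
 .e))))))))
 (.a 1 [467] (.q 468 (.a 1 [] (.d 393 392 392 393 397)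
 (.a 1 [397] (.q 427 (.a 1 [] (.d 331 1323 299 1355 459)
 (.a 1 [299] (.d 459 1355 331 1387 491)
 (.a 0 [331,459] (.q 425 (.a 1 [] (.d 332 3373 301 3404 456)
 (.a 1 [301] (.d 456 3404 332 3435 487)
 (.a 1 [332] (.r 426 425 428 (.r 330 2345 297 (.d 362 1322 298 1354 458)))
 .e))))
 .e))))
 .e)))
 (.a 1 [468] (.q 467 (.a 1 [] (.d 393 392 392 393 397)
 (.a 1 [397] (.q 427 (.a 1 [] (.d 331 1323 299 1355 459)
 (.a 1 [299] (.d 459 1355 331 1387 491)
 (.a 0 [331,459] (.q 425 (.a 1 [] (.d 332 3373 301 3404 456)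
 (.a 1 [301] (.d 456 3404 332 3435 487)
 (.a 1 [332] (.r 426 425 428 (.r 330 2345 297 (.d 362 1322 298 1354 458)))
 .e))))
 .e))))
 .e)))
 (.a 1 [398] (.d 393 392 392 393 397)
 .e)))))))
 (.a 1 [463] (.q 464 (.a 1 [] (.d 393 392 392 393 397)
 (.a 1 [397] (.q 331 (.a 1 [] (.d 299 1291 267 1323 427)
 (.a 1 [267] (.d 427 1323 299 1355 459)
 (.a 0 [299,427] (.q 332 (.a 1 [] (.d 301 3342 270 3373 425)
 (.a 1 [270] (.d 425 3373 301 3404 456)
 (.a 1 [301] (.r 330 2345 297 (.d 333 329 329 330 334))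
 .e))))
 .e))))
 .e)))
 (.a 1 [392] (.d 397 393 393 394 398)
 .e)))))))
 (.a 1 [331] (.r 330 2345 297 (.q 395 (.a 1 [] (.d 393 392 392 393 397)
 (.a 1 [393] (.r 398 394 397 (.q 460 (.a 1 [] (.d 367 3408 336 3439 491)
 (.a 1 [336] (.d 491 3439 367 3470 522)
 (.a 1 [367] (.r 491 3470 522 (.r 427 1387 459 (.d 493 2409 361 2442 526)))
 (.a 0 [491] (.q 362 (.a 1 [] (.d 298 1290 266 1322 426)
 (.a 1 [266] (.d 426 1322 298 1354 458)
 (.a 0 [298,426] (.q 364 (.a 1 [] (.d 428 1356 332 1388 492)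
 (.a 1 [332] (.r 361 360 360 (.d 427 2376 328 2409 493))
 (.a 1 [492] (.r 332 1356 428 (.d 425 3373 301 3404 456))
 .e))))
 .e))))
 .e))))))
 (.a 1 [397] (.q 425 (.a 1 [] (.d 332 3373 301 3404 456)
 (.a 1 [301] (.d 456 3404 332 3435 487)
 (.a 0 [332,456] (.q 362 (.a 1 [] (.d 298 1290 266 1322 426)
 (.a 1 [266] (.d 426 1322 298 1354 458)
 (.a 1 [298] (.r 426 1354 458 (.r 428 425 427 (.d 461 2377 329 2410 494)))
 (.a 0 [426] (.q 361 (.a 1 [] (.d 360 359 359 360 364)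
 (.a 1 [359] (.r 392 392 393 (.d 423 3371 299 3402 454))
 .e)))
 .e)))))
 .e))))
 .e)))))
 (.a 1 [269] (.r 330 2345 297 (.q 332 (.a 1 [] (.d 301 3342 270 3373 425)
 (.a 1 [301] (.q 333 (.a 1 [] (.d 331 329 329 330 334)
 (.a 0 [329,331,334] (.q 428 (.a 1 [] (.d 364 1324 300 1356 460)
 (.a 1 [300] (.r 460 1356 364 (.r 425 3404 456 (.r 427 425 426 (.d 493 2409 361 2442 526))))
 (.a 1 [364] (.r 425 3404 456 (.r 426 425 427 (.d 362 1322 298 1354 458)))
 .e))))
 .e)))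
 (.a 1 [425] (.q 362 (.a 1 [] (.d 298 1290 266 1322 426)
 (.a 1 [266] (.d 426 1322 298 1354 458)
 (.a 0 [298,426] (.q 395 (.a 1 [] (.d 393 392 392 393 397)
 (.a 1 [392] (.d 397 393 393 394 398)
 (.a 0 [393,397] (.q 329 (.a 1 [] (.d 331 328 328 329 333)
 (.a 1 [301] (.r 333 329 331 (.d 296 2311 263 2344 428))
 (.a 1 [331] (.d 428 2344 296 2377 461)
 (.a 1 [333] (.r 301 3342 270 (.d 428 2344 296 2377 461))
 .e)))))
 .e))))
 .e))))
 .e)))))
 (.a 1 [333] (.r 330 2345 297 (.q 395 (.a 1 [] (.d 393 392 392 393 397)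
 (.a 1 [397] (.q 301 (.a 1 [] (.d 332 3342 270 3373 425)
 (.a 0 [270,332,425] (.q 299 (.a 1 [] (.d 331 1291 267 1323 427)
 (.a 1 [267] (.r 392 392 393 (.d 361 3340 268 3371 423))
 .e)))
 .e)))
 (.a 1 [393] (.q 362 (.a 1 [] (.d 298 1290 266 1322 426)
 (.a 1 [266] (.d 426 1322 298 1354 458)
 (.a 0 [298,426] (.q 299 (.a 1 [] (.d 331 1291 267 1323 427)
 (.a 0 [267,331,427] (.q 361 (.a 1 [] (.d 360 359 359 360 364)
 (.a 1 [359] (.d 392 3340 268 3371 423)
 .e)))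
 .e)))
 .e))))
 (.a 1 [392] (.d 397 393 393 394 398)
 .e))))))
 (.a 1 [424] (.r 330 2345 297 (.q 332 (.a 1 [] (.d 301 3342 270 3373 425)
 (.a 1 [425] (.q 331 (.a 1 [] (.d 329 328 328 329 333)
 (.a 1 [328] (.d 333 329 329 330 334)
 (.a 0 [329,333] (.q 393 (.a 1 [] (.d 395 392 392 393 397)
 (.a 1 [392] (.r 395 393 397 (.d 427 1323 299 1355 459))
 (.a 1 [397] (.r 395 392 392 (.d 427 1323 299 1355 459))
 (.a 0 [395] (.q 362 (.a 1 [] (.d 298 1290 266 1322 426)
 (.a 1 [266] (.d 426 1322 298 1354 458)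
 (.a 1 [298] (.r 300 3341 269 (.d 364 1292 268 1324 428))
 .e))))
 .e)))))
 .e))))
 (.a 1 [301] (.q 428 (.a 1 [] (.d 364 1324 300 1356 460)
 (.a 1 [300] (.r 460 1356 364 (.r 425 3404 456 (.r 427 425 426 (.d 493 2409 361 2442 526))))
 (.a 1 [364] (.r 425 3404 456 (.r 426 425 427 (.d 362 1322 298 1354 458)))
 .e))))
 .e)))))
 (.a 1 [297] (.q 395 (.a 1 [] (.d 393 392 392 393 397)
 (.a 1 [392] (.d 397 393 393 394 398)
 (.a 0 [393,397] (.q 427 (.a 1 [] (.d 331 1323 299 1355 459)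
 (.a 1 [299] (.d 459 1355 331 1387 491)
 (.a 0 [331,459] (.q 425 (.a 1 [] (.d 332 3373 301 3404 456)
 (.a 1 [301] (.d 456 3404 332 3435 487)
 (.a 1 [456] (.r 428 425 426 (.r 332 3373 301 (.d 364 1324 300 1356 460)))
 (.a 0 [332] (.q 460 (.a 1 [] (.d 361 2376 328 2409 493)
 (.a 1 [328] (.d 493 2409 361 2442 526)
 (.a 1 [361] (.r 428 425 426 (.d 492 1388 364 1420 524))
 .e))))
 .e)))))
 .e))))
 .e))))
 (.a 1 [332] (.q 395 (.a 1 [] (.d 393 392 392 393 397)
 (.a 1 [392] (.d 397 393 393 394 398)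
 (.a 0 [393,397] (.q 427 (.a 1 [] (.d 331 1323 299 1355 459)
 (.a 1 [299] (.d 459 1355 331 1387 491)
 (.a 0 [331,459] (.q 426 (.a 1 [] (.d 428 425 425 426 430)
 (.a 1 [425] (.r 330 2345 297 (.d 362 1322 298 1354 458))
 .e)))
 .e))))
 .e))))
 (.a 1 [398] (.q 332 (.a 1 [] (.d 301 3342 270 3373 425)
 (.a 1 [270] (.d 425 3373 301 3404 456)
 (.a 0 [301,425] (.q 364 (.a 1 [] (.d 300 1292 268 1324 428)
 (.a 1 [268] (.d 428 1324 300 1356 460)
 (.a 0 [300,428] (.q 395 (.a 1 [] (.d 393 392 392 393 397)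
 (.a 0 [392,393,397] (.q 333 (.a 1 [] (.d 302 3343 271 3374 426)
 (.a 1 [271] (.d 426 3374 302 3405 457)
 (.a 1 [302] (.r 330 2345 297 (.d 331 329 329 330 334))
 .e))))
 .e)))
 .e))))
 .e))))
 (.a 1 [460] (.q 395 (.a 1 [] (.d 393 392 392 393 397)
 (.a 1 [392] (.d 397 393 393 394 398)
 (.a 0 [393,397] (.q 425 (.a 1 [] (.d 332 3373 301 3404 456)
 (.a 1 [301] (.d 456 3404 332 3435 487)
 (.a 0 [332,456] (.q 427 (.a 1 [] (.d 331 1323 299 1355 459)
 (.a 1 [299] (.d 459 1355 331 1387 491)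
 (.a 1 [331] (.r 426 425 428 (.r 330 2345 297 (.d 362 1322 298 1354 458)))
 .e))))
 .e))))
 .e))))
 (.a 1 [427] (.q 425 (.a 1 [] (.d 332 3373 301 3404 456)
 (.a 1 [301] (.d 456 3404 332 3435 487)
 (.a 0 [332,456] (.q 393 (.a 1 [] (.d 395 392 392 393 397)
 (.a 0 [392,395,397] (.q 361 (.a 1 [] (.d 297 1321 329 2345 330)
 (.a 1 [297] (.d 457 1353 329 1385 489)
 (.a 0 [329] (.q 362 (.a 1 [] (.d 360 359 359 360 364)
 (.a 1 [359] (.r 330 2345 297 (.d 426 1322 298 1354 458))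
 .e)))
 .e))))
 .e)))
 .e))))
 (.a 1 [392] (.q 332 (.a 1 [] (.d 301 3342 270 3373 425)
 (.a 1 [270] (.d 425 3373 301 3404 456)
 (.a 0 [301,425] (.q 364 (.a 1 [] (.d 300 1292 268 1324 428)
 (.a 1 [268] (.d 428 1324 300 1356 460)
 (.a 0 [300,428] (.q 395 (.a 1 [] (.d 397 393 393 394 398)
 (.a 0 [393,397,398] (.q 333 (.a 1 [] (.d 302 3343 271 3374 426)
 (.a 1 [271] (.d 426 3374 302 3405 457)
 (.a 1 [302] (.r 330 2345 297 (.d 331 329 329 330 334))
 .e))))
 .e)))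
 .e))))
 .e))))
 (.a 1 [431] (.q 332 (.a 1 [] (.d 301 3342 270 3373 425)
 (.a 1 [270] (.d 425 3373 301 3404 456)
 (.a 0 [301,425] (.q 364 (.a 1 [] (.d 300 1292 268 1324 428)
 (.a 1 [268] (.d 428 1324 300 1356 460)
 (.a 0 [300,428] (.q 395 (.a 1 [] (.d 393 392 392 393 397)
 (.a 1 [392] (.d 397 393 393 394 398)
 (.a 0 [393,397] (.q 333 (.a 1 [] (.d 302 3343 271 3374 426)
 (.a 1 [271] (.d 426 3374 302 3405 457)
 (.a 1 [302] (.r 330 2345 297 (.d 331 329 329 330 334))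
 .e))))
 .e))))
 .e))))
 .e))))
 (.a 1 [361] (.q 395 (.a 1 [] (.d 393 392 392 393 397)
 (.a 1 [392] (.d 397 393 393 394 398)
 (.a 0 [393,397] (.q 425 (.a 1 [] (.d 332 3373 301 3404 456)
 (.a 1 [301] (.d 456 3404 332 3435 487)
 (.a 0 [332,456] (.q 427 (.a 1 [] (.d 331 1323 299 1355 459)
 (.a 1 [299] (.d 459 1355 331 1387 491)
 (.a 1 [331] (.r 426 425 428 (.r 330 2345 297 (.d 362 1322 298 1354 458)))
 .e))))
 .e))))
 .e))))
 (.a 1 [362] (.q 395 (.a 1 [] (.d 393 392 392 393 397)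
 (.a 1 [392] (.d 397 393 393 394 398)
 (.a 0 [393,397] (.q 331 (.a 1 [] (.d 299 1291 267 1323 427)
 (.a 1 [267] (.d 427 1323 299 1355 459)
 (.a 0 [299,427] (.q 332 (.a 1 [] (.d 301 3342 270 3373 425)
 (.a 1 [270] (.d 425 3373 301 3404 456)
 (.a 1 [301] (.r 330 2345 297 (.d 333 329 329 330 334))
 .e))))
 .e))))
 .e))))
 (.a 1 [299] (.q 395 (.a 1 [] (.d 393 392 392 393 397)
 (.a 1 [392] (.d 397 393 393 394 398)
 (.a 0 [393,397] (.q 427 (.a 1 [] (.d 459 1355 331 1387 491)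
 (.a 0 [331,459,491] (.q 426 (.a 1 [] (.d 428 425 425 426 430)
 (.a 1 [425] (.r 330 2345 297 (.d 362 1322 298 1354 458))
 .e)))
 .e)))
 .e))))
 (.a 1 [459] (.q 332 (.a 1 [] (.d 301 3342 270 3373 425)
 (.a 1 [270] (.d 425 3373 301 3404 456)
 (.a 0 [301,425] (.q 364 (.a 1 [] (.d 300 1292 268 1324 428)
 (.a 1 [268] (.d 428 1324 300 1356 460)
 (.a 0 [300,428] (.q 397 (.a 1 [] (.d 395 393 393 394 398)
 (.a 0 [393,395,398] (.q 298 (.a 1 [] (.d 331 2313 265 2346 430)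
 (.a 1 [265] (.r 330 2345 297 (.d 362 1290 266 1322 426))
 .e)))
 .e)))
 .e))))
 .e))))
 (.a 1 [298] (.q 395 (.a 1 [] (.d 393 392 392 393 397)
 (.a 1 [392] (.d 397 393 393 394 398)
 (.a 0 [393,397] (.q 425 (.a 1 [] (.d 332 3373 301 3404 456)
 (.a 1 [301] (.d 456 3404 332 3435 487)
 (.a 0 [332,456] (.q 427 (.a 1 [] (.d 331 1323 299 1355 459)
 (.a 1 [299] (.d 459 1355 331 1387 491)
 (.a 1 [331] (.r 426 425 428 (.r 330 2345 297 (.r 458 1354 362 (.r 491 1387 459 (.d 524 2440 392 2473 557)))))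
 (.a 0 [459] (.q 460 (.a 1 [] (.d 361 2376 328 2409 493)
 (.a 1 [328] (.d 493 2409 361 2442 526)
 (.a 1 [361] (.r 428 425 426 (.d 492 1388 364 1420 524))
 .e))))
 .e)))))
 .e))))
 .e))))
 (.a 1 [265] (.q 332 (.a 1 [] (.d 301 3342 270 3373 425)
 (.a 1 [270] (.d 425 3373 301 3404 456)
 (.a 0 [301,425] (.q 364 (.a 1 [] (.d 300 1292 268 1324 428)
 (.a 1 [268] (.d 428 1324 300 1356 460)
 (.a 0 [300,428] (.q 395 (.a 1 [] (.d 393 392 392 393 397)
 (.a 1 [392] (.d 397 393 393 394 398)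
 (.a 0 [393,397] (.q 333 (.a 1 [] (.d 302 3343 271 3374 426)
 (.a 1 [271] (.d 426 3374 302 3405 457)
 (.a 1 [302] (.r 330 2345 297 (.d 331 329 329 330 334))
 .e))))
 .e))))
 .e))))
 .e))))
 (.a 1 [329] (.q 395 (.a 1 [] (.d 393 392 392 393 397)
 (.a 1 [392] (.d 397 393 393 394 398)
 (.a 0 [393,397] (.q 427 (.a 1 [] (.d 331 1323 299 1355 459)
 (.a 1 [299] (.d 459 1355 331 1387 491)
 (.a 0 [331,459] (.q 425 (.a 1 [] (.d 332 3373 301 3404 456)
 (.a 1 [301] (.d 456 3404 332 3435 487)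
 (.a 1 [332] (.r 426 425 428 (.r 330 2345 297 (.d 362 1322 298 1354 458)))
 .e))))
 .e))))
 .e))))
 .e)))))))))))))))))))))))))))))
 (.a 0 [330] (.q 398 (.a 1 [] (.q 460 (.a 1 [] (.d 367 3408 336 3439 491)
 (.a 1 [336] (.d 491 3439 367 3470 522)
 (.a 0 [367,491] (.q 397 (.a 1 [] (.d 395 394 394 395 399)
 (.a 1 [394] (.d 399 395 395 396 400)
 (.a 0 [395,399] (.q 428 (.a 1 [] (.d 364 1356 332 1388 492)
 (.a 1 [332] (.d 492 1388 364 1420 524)
 (.a 0 [364,492] (.q 366 (.a 1 [] (.d 335 3376 304 3407 459)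
 (.a 1 [304] (.d 459 3407 335 3438 490)
 (.a 1 [335] (.r 462 2411 495 (.d 430 1358 334 1390 494))
 .e))))
 .e))))
 .e))))
 .e))))
 (.a 1 [395] (.r 462 2411 495 (.q 430 (.a 1 [] (.d 366 1358 334 1390 494)
 (.a 1 [334] (.d 494 1390 366 1422 526)
 (.a 0 [366,494] (.q 428 (.a 1 [] (.d 427 426 426 427 431)
 (.a 1 [426] (.d 431 427 427 428 432)
 (.a 0 [427,431] (.q 460 (.a 1 [] (.d 364 1356 332 1388 492)
 (.a 1 [332] (.d 492 1388 364 1420 524)
 (.a 1 [364] (.d 367 3408 336 3439 491)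
 .e))))
 .e))))
 .e)))))
 (.a 1 [462] (.q 460 (.a 1 [] (.d 367 3408 336 3439 491)
 (.a 1 [367] (.q 395 (.a 1 [] (.d 397 394 394 395 399)
 (.a 1 [399] (.r 394 394 397 (.r 491 3470 522 (.r 427 1387 459 (.d 493 2409 361 2442 526))))
 (.a 0 [394,397] (.q 428 (.a 1 [] (.d 364 1356 332 1388 492)
 (.a 1 [332] (.d 492 1388 364 1420 524)
 (.a 1 [364] (.r 491 3470 522 (.r 427 1387 459 (.d 426 425 425 426 430)))
 .e))))
 .e))))
 (.a 1 [491] (.q 428 (.a 1 [] (.d 364 1356 332 1388 492)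
 (.a 1 [332] (.d 492 1388 364 1420 524)
 (.a 0 [364,492] (.q 427 (.a 1 [] (.d 426 425 425 426 430)
 (.a 1 [425] (.d 430 426 426 427 431)
 (.a 0 [426,430] (.q 395 (.a 1 [] (.d 397 394 394 395 399)
 (.a 1 [394] (.d 331 1323 299 1355 459)
 .e)))
 .e))))
 .e))))
 .e))))
 (.a 1 [495] (.q 395 (.a 1 [] (.d 397 394 394 395 399)
 (.a 1 [397] (.q 427 (.a 1 [] (.d 331 1323 299 1355 459)
 (.a 1 [299] (.d 459 1355 331 1387 491)
 (.a 1 [331] (.r 491 1387 459 (.d 460 3439 367 3470 522))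
 (.a 0 [459] (.q 428 (.a 1 [] (.d 426 425 425 426 430)
 (.a 1 [425] (.d 430 426 426 427 431)
 (.a 0 [426,430] (.q 460 (.a 1 [] (.d 364 1356 332 1388 492)
 (.a 1 [332] (.d 492 1388 364 1420 524)
 (.a 1 [364] (.d 367 3408 336 3439 491)
 .e))))
 .e))))
 .e)))))
 (.a 1 [394] (.q 427 (.a 1 [] (.d 331 1323 299 1355 459)
 (.a 1 [299] (.d 459 1355 331 1387 491)
 (.a 1 [331] (.r 491 1387 459 (.d 460 3439 367 3470 522))
 (.a 0 [459] (.q 428 (.a 1 [] (.d 426 425 425 426 430)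
 (.a 1 [425] (.d 430 426 426 427 431)
 (.a 0 [426,430] (.q 362 (.a 1 [] (.d 329 2344 296 2377 461)
 (.a 1 [296] (.d 461 2377 329 2410 494)
 (.a 0 [329,461] (.q 460 (.a 1 [] (.d 364 1356 332 1388 492)
 (.a 1 [332] (.d 491 3439 367 3470 522)
 .e)))
 .e))))
 .e))))
 .e)))))
 .e))))
 (.a 1 [367] (.q 395 (.a 1 [] (.d 397 394 394 395 399)
 (.a 1 [397] (.q 427 (.a 1 [] (.d 331 1323 299 1355 459)
 (.a 1 [299] (.d 459 1355 331 1387 491)
 (.a 0 [331,459] (.q 430 (.a 1 [] (.d 428 426 426 427 431)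
 (.a 1 [426] (.r 462 2411 495 (.d 494 1390 366 1422 526))
 .e)))
 .e))))
 (.a 1 [394] (.q 427 (.a 1 [] (.d 331 1323 299 1355 459)
 (.a 1 [299] (.d 459 1355 331 1387 491)
 (.a 0 [331,459] (.q 430 (.a 1 [] (.d 428 426 426 427 431)
 (.a 1 [426] (.r 462 2411 495 (.d 494 1390 366 1422 526))
 .e)))
 .e))))
 (.a 1 [399] (.q 427 (.a 1 [] (.d 331 1323 299 1355 459)
 (.a 1 [299] (.d 459 1355 331 1387 491)
 (.a 1 [331] (.r 394 394 397 (.r 491 1387 459 (.r 460 3470 522 (.d 493 2409 361 2442 526))))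
 (.a 0 [459] (.q 428 (.a 1 [] (.d 426 425 425 426 430)
 (.a 1 [425] (.d 430 426 426 427 431)
 (.a 1 [430] (.r 394 394 397 (.r 425 425 426 (.d 456 3404 332 3435 487)))
 (.a 0 [426] (.q 460 (.a 1 [] (.d 364 1356 332 1388 492)
 (.a 1 [332] (.d 492 1388 364 1420 524)
 (.a 1 [364] (.r 394 394 397 (.d 493 2409 361 2442 526))
 .e))))
 .e)))))
 .e)))))
 .e)))))
 (.a 1 [399] (.q 460 (.a 1 [] (.d 367 3408 336 3439 491)
 (.a 1 [367] (.r 462 2411 495 (.q 463 (.a 1 [] (.d 461 459 459 460 464)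
 (.a 0 [459,461,464] (.q 364 (.a 1 [] (.d 428 1356 332 1388 492)
 (.a 0 [332,428,492] (.q 430 (.a 1 [] (.d 366 1358 334 1390 494)
 (.a 1 [334] (.d 494 1390 366 1422 526)
 (.a 1 [366] (.d 397 2379 331 2412 496)
 .e))))
 .e)))
 .e))))
 (.a 1 [491] (.q 428 (.a 1 [] (.d 364 1356 332 1388 492)
 (.a 1 [332] (.d 492 1388 364 1420 524)
 (.a 0 [364,492] (.q 430 (.a 1 [] (.d 427 426 426 427 431)
 (.a 1 [426] (.d 431 427 427 428 432)
 (.a 1 [427] (.r 462 2411 495 (.d 494 1390 366 1422 526))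
 .e))))
 .e))))
 .e))))
 (.a 1 [428] (.q 397 (.a 1 [] (.d 395 394 394 395 399)
 (.a 1 [395] (.r 462 2411 495 (.q 460 (.a 1 [] (.d 367 3408 336 3439 491)
 (.a 1 [336] (.d 491 3439 367 3470 522)
 (.a 0 [367,491] (.q 493 (.a 1 [] (.r 461 1421 525 (.d 463 459 459 460 464))
 (.a 1 [459] (.r 400 396 399 (.d 431 3441 369 3472 524))
 .e)))
 .e)))))
 (.a 1 [399] (.r 395 394 394 (.q 331 (.a 1 [] (.d 299 1291 267 1323 427)
 (.a 1 [267] (.d 427 1323 299 1355 459)
 (.a 0 [299,427] (.q 430 (.a 1 [] (.d 364 2346 298 2379 463)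
 (.a 1 [298] (.r 462 2411 495 (.d 494 1390 366 1422 526))
 .e)))
 .e)))))
 .e))))
 (.a 1 [430] (.q 397 (.a 1 [] (.d 395 394 394 395 399)
 (.a 1 [395] (.q 460 (.a 1 [] (.d 367 3408 336 3439 491)
 (.a 1 [336] (.d 491 3439 367 3470 522)
 (.a 0 [367,491] (.r 462 2411 495 (.q 493 (.a 1 [] (.r 461 1421 525 (.d 463 459 459 460 464))
 (.a 1 [459] (.r 400 396 399 (.d 431 3441 369 3472 524))
 .e))))
 .e))))
 (.a 1 [399] (.r 394 394 395 (.q 460 (.a 1 [] (.d 367 3408 336 3439 491)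
 (.a 1 [336] (.d 491 3439 367 3470 522)
 (.a 0 [367,491] (.q 461 (.a 1 [] (.r 462 2411 495 (.d 463 459 459 460 464))
 (.a 1 [459] (.r 493 1421 525 (.d 427 2409 361 2442 526))
 .e)))
 .e)))))
 .e))))
 (.a 1 [366] (.q 395 (.a 1 [] (.d 397 394 394 395 399)
 (.a 1 [397] (.q 427 (.a 1 [] (.d 331 1323 299 1355 459)
 (.a 1 [299] (.d 459 1355 331 1387 491)
 (.a 1 [331] (.r 491 1387 459 (.d 460 3439 367 3470 522))
 (.a 0 [459] (.q 428 (.a 1 [] (.d 426 425 425 426 430)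
 (.a 1 [425] (.d 430 426 426 427 431)
 (.a 0 [426,430] (.q 460 (.a 1 [] (.d 364 1356 332 1388 492)
 (.a 1 [332] (.d 492 1388 364 1420 524)
 (.a 1 [364] (.d 367 3408 336 3439 491)
 .e))))
 .e))))
 .e)))))
 (.a 1 [394] (.q 427 (.a 1 [] (.d 331 1323 299 1355 459)
 (.a 1 [299] (.d 459 1355 331 1387 491)
 (.a 1 [331] (.r 491 1387 459 (.d 460 3439 367 3470 522))
 (.a 0 [459] (.q 428 (.a 1 [] (.d 426 425 425 426 430)
 (.a 1 [425] (.d 430 426 426 427 431)
 (.a 0 [426,430] (.q 362 (.a 1 [] (.d 329 2344 296 2377 461)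
 (.a 1 [296] (.d 461 2377 329 2410 494)
 (.a 0 [329,461] (.q 460 (.a 1 [] (.d 364 1356 332 1388 492)
 (.a 1 [332] (.d 491 3439 367 3470 522)
 .e)))
 .e))))
 .e))))
 .e)))))
 .e))))
 (.a 1 [431] (.r 462 2411 495 (.q 460 (.a 1 [] (.d 367 3408 336 3439 491)
 (.a 1 [367] (.q 463 (.a 1 [] (.d 461 459 459 460 464)
 (.a 0 [459,461,464] (.q 364 (.a 1 [] (.d 428 1356 332 1388 492)
 (.a 0 [332,428,492] (.q 397 (.a 1 [] (.d 395 394 394 395 399)
 (.a 1 [394] (.d 399 395 395 396 400)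
 (.a 1 [395] (.d 430 2379 331 2412 496)
 .e))))
 .e)))
 .e)))
 (.a 1 [491] (.q 430 (.a 1 [] (.d 366 1358 334 1390 494)
 (.a 1 [334] (.d 494 1390 366 1422 526)
 (.a 0 [366,494] (.q 492 (.a 1 [] (.d 428 1388 364 1420 524)
 (.a 0 [364,428,524] (.q 461 (.a 1 [] (.d 459 458 458 459 463)
 (.a 1 [367] (.r 368 3440 399 (.d 463 459 459 460 464))
 (.a 1 [368] (.r 367 3408 336 (.d 523 3471 399 3502 554))
 .e))))
 .e)))
 .e))))
 .e)))))
 (.a 1 [459] (.r 462 2411 495 (.q 430 (.a 1 [] (.d 366 1358 334 1390 494)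
 (.a 1 [334] (.d 494 1390 366 1422 526)
 (.a 0 [366,494] (.q 428 (.a 1 [] (.d 427 426 426 427 431)
 (.a 1 [426] (.d 431 427 427 428 432)
 (.a 0 [427,431] (.q 460 (.a 1 [] (.d 364 1356 332 1388 492)
 (.a 1 [332] (.d 492 1388 364 1420 524)
 (.a 1 [364] (.d 367 3408 336 3439 491)
 .e))))
 .e))))
 .e)))))
 (.a 1 [333] (.q 460 (.a 1 [] (.d 367 3408 336 3439 491)
 (.a 1 [367] (.r 462 2411 495 (.q 395 (.a 1 [] (.d 397 394 394 395 399)
 (.a 1 [394] (.r 491 3470 522 (.r 459 1387 427 (.d 461 458 458 459 463)))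
 .e))))
 (.a 1 [491] (.q 428 (.a 1 [] (.d 364 1356 332 1388 492)
 (.a 1 [332] (.d 492 1388 364 1420 524)
 (.a 0 [364,492] (.q 430 (.a 1 [] (.d 427 426 426 427 431)
 (.a 1 [426] (.d 431 427 427 428 432)
 (.a 1 [427] (.r 462 2411 495 (.d 494 1390 366 1422 526))
 .e))))
 .e))))
 .e))))
 (.a 1 [463] (.q 460 (.a 1 [] (.d 367 3408 336 3439 491)
 (.a 1 [367] (.q 395 (.a 1 [] (.d 397 394 394 395 399)
 (.a 1 [399] (.r 394 394 397 (.r 491 3470 522 (.r 427 1387 459 (.d 493 2409 361 2442 526))))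
 (.a 0 [394,397] (.q 428 (.a 1 [] (.d 364 1356 332 1388 492)
 (.a 1 [332] (.d 492 1388 364 1420 524)
 (.a 1 [364] (.r 491 3470 522 (.r 427 1387 459 (.d 426 425 425 426 430)))
 .e))))
 .e))))
 (.a 1 [491] (.q 428 (.a 1 [] (.d 364 1356 332 1388 492)
 (.a 1 [332] (.d 492 1388 364 1420 524)
 (.a 0 [364,492] (.q 430 (.a 1 [] (.d 427 426 426 427 431)
 (.a 1 [426] (.d 431 427 427 428 432)
 (.a 1 [427] (.r 462 2411 495 (.d 494 1390 366 1422 526))
 .e))))
 .e))))
 .e))))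
 (.a 1 [460] (.q 395 (.a 1 [] (.d 397 394 394 395 399)
 (.a 0 [394,397,399] (.q 427 (.a 1 [] (.d 331 1323 299 1355 459)
 (.a 1 [299] (.d 459 1355 331 1387 491)
 (.a 0 [331,459] (.q 430 (.a 1 [] (.d 428 426 426 427 431)
 (.a 1 [426] (.r 462 2411 495 (.d 494 1390 366 1422 526))
 .e)))
 .e))))
 .e)))
 (.a 1 [394] (.q 367 (.a 1 [] (.d 336 3377 305 3408 460)
 (.a 1 [305] (.d 460 3408 336 3439 491)
 (.a 0 [336,460] (.q 399 (.a 1 [] (.d 397 395 395 396 400)
 (.a 0 [395,397,400] (.q 431 (.a 1 [] (.d 495 2411 462 1391 463)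
 (.a 1 [462] (.d 463 1359 335 1391 495)
 (.a 1 [495] (.d 335 1327 303 1359 463)
 (.a 0 [463] (.q 430 (.a 1 [] (.d 428 427 427 428 432)
 (.a 1 [427] (.d 432 428 428 429 433)
 (.a 1 [428] (.r 462 2411 495 (.d 494 1390 366 1422 526))
 .e))))
 .e)))))
 .e)))
 .e))))
 (.a 1 [491] (.q 395 (.a 1 [] (.d 397 394 394 395 399)
 (.a 0 [394,397,399] (.q 427 (.a 1 [] (.d 331 1323 299 1355 459)
 (.a 0 [299,331,459] (.q 430 (.a 1 [] (.d 428 426 426 427 431)
 (.a 1 [426] (.r 462 2411 495 (.d 494 1390 366 1422 526))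
 .e)))
 .e)))
 .e)))
 (.a 1 [427] (.q 367 (.a 1 [] (.d 336 3377 305 3408 460)
 (.a 1 [305] (.d 460 3408 336 3439 491)
 (.a 0 [336,460] (.q 399 (.a 1 [] (.d 397 395 395 396 400)
 (.a 0 [395,397,400] (.q 431 (.a 1 [] (.d 495 2411 462 1391 463)
 (.a 1 [462] (.d 463 1359 335 1391 495)
 (.a 1 [495] (.d 335 1327 303 1359 463)
 (.a 0 [463] (.q 430 (.a 1 [] (.d 432 428 428 429 433)
 (.a 1 [428] (.r 462 2411 495 (.d 494 1390 366 1422 526))
 .e)))
 .e)))))
 .e)))
 .e))))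
 (.a 1 [362] (.q 460 (.a 1 [] (.d 367 3408 336 3439 491)
 (.a 1 [336] (.d 491 3439 367 3470 522)
 (.a 0 [367,491] (.q 397 (.a 1 [] (.d 395 394 394 395 399)
 (.a 1 [394] (.d 399 395 395 396 400)
 (.a 0 [395,399] (.q 428 (.a 1 [] (.d 364 1356 332 1388 492)
 (.a 1 [332] (.d 492 1388 364 1420 524)
 (.a 0 [364,492] (.q 366 (.a 1 [] (.d 335 3376 304 3407 459)
 (.a 1 [304] (.d 459 3407 335 3438 490)
 (.a 1 [335] (.r 462 2411 495 (.d 430 1358 334 1390 494))
 .e))))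
 .e))))
 .e))))
 .e))))
 (.a 1 [426] (.q 460 (.a 1 [] (.d 367 3408 336 3439 491)
 (.a 1 [336] (.d 491 3439 367 3470 522)
 (.a 0 [367,491] (.q 397 (.a 1 [] (.d 395 394 394 395 399)
 (.a 1 [394] (.d 399 395 395 396 400)
 (.a 0 [395,399] (.q 364 (.a 1 [] (.d 428 1356 332 1388 492)
 (.a 0 [332,428,492] (.q 463 (.a 1 [] (.d 430 2379 331 2412 496)
 (.a 1 [331] (.r 462 2411 495 (.d 461 459 459 460 464))
 .e)))
 .e)))
 .e))))
 .e))))
 (.a 1 [492] (.q 367 (.a 1 [] (.d 336 3377 305 3408 460)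
 (.a 1 [305] (.d 460 3408 336 3439 491)
 (.a 0 [336,460] (.q 399 (.a 1 [] (.d 397 395 395 396 400)
 (.a 0 [395,397,400] (.q 431 (.a 1 [] (.d 495 2411 462 1391 463)
 (.a 1 [462] (.d 463 1359 335 1391 495)
 (.a 1 [495] (.d 335 1327 303 1359 463)
 (.a 0 [463] (.q 430 (.a 1 [] (.d 428 427 427 428 432)
 (.a 1 [427] (.d 432 428 428 429 433)
 (.a 1 [428] (.r 462 2411 495 (.d 494 1390 366 1422 526))
 .e))))
 .e)))))
 .e)))
 .e))))
 (.a 1 [494] (.q 460 (.a 1 [] (.d 367 3408 336 3439 491)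
 (.a 1 [336] (.d 491 3439 367 3470 522)
 (.a 0 [367,491] (.q 395 (.a 1 [] (.d 397 394 394 395 399)
 (.a 0 [394,397,399] (.q 427 (.a 1 [] (.d 331 1323 299 1355 459)
 (.a 0 [299,331,459] (.q 428 (.a 1 [] (.d 426 425 425 426 430)
 (.a 1 [425] (.d 430 426 426 427 431)
 (.a 1 [426] (.d 364 1356 332 1388 492)
 .e))))
 .e)))
 .e)))
 .e))))
 (.a 1 [329] (.q 460 (.a 1 [] (.d 367 3408 336 3439 491)
 (.a 1 [336] (.d 491 3439 367 3470 522)
 (.a 0 [367,491] (.q 397 (.a 1 [] (.d 395 394 394 395 399)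
 (.a 1 [394] (.d 399 395 395 396 400)
 (.a 0 [395,399] (.q 428 (.a 1 [] (.d 364 1356 332 1388 492)
 (.a 1 [332] (.d 492 1388 364 1420 524)
 (.a 0 [364,492] (.q 366 (.a 1 [] (.d 335 3376 304 3407 459)
 (.a 1 [304] (.d 459 3407 335 3438 490)
 (.a 1 [335] (.r 462 2411 495 (.d 430 1358 334 1390 494))
 .e))))
 .e))))
 .e))))
 .e))))
 (.a 1 [458] (.q 460 (.a 1 [] (.d 367 3408 336 3439 491)
 (.a 1 [336] (.d 491 3439 367 3470 522)
 (.a 0 [367,491] (.q 397 (.a 1 [] (.d 395 394 394 395 399)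
 (.a 1 [394] (.d 399 395 395 396 400)
 (.a 0 [395,399] (.q 428 (.a 1 [] (.d 364 1356 332 1388 492)
 (.a 1 [332] (.d 492 1388 364 1420 524)
 (.a 0 [364,492] (.q 366 (.a 1 [] (.d 335 3376 304 3407 459)
 (.a 1 [304] (.d 459 3407 335 3438 490)
 (.a 1 [335] (.r 462 2411 495 (.d 430 1358 334 1390 494))
 .e))))
 .e))))
 .e))))
 .e))))
 (.a 1 [328] (.q 460 (.a 1 [] (.d 367 3408 336 3439 491)
 (.a 1 [336] (.d 491 3439 367 3470 522)
 (.a 0 [367,491] (.q 397 (.a 1 [] (.d 395 394 394 395 399)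
 (.a 1 [394] (.d 399 395 395 396 400)
 (.a 0 [395,399] (.q 428 (.a 1 [] (.d 364 1356 332 1388 492)
 (.a 1 [332] (.d 492 1388 364 1420 524)
 (.a 0 [364,492] (.q 366 (.a 1 [] (.d 335 3376 304 3407 459)
 (.a 1 [304] (.d 459 3407 335 3438 490)
 (.a 1 [335] (.r 462 2411 495 (.d 430 1358 334 1390 494))
 .e))))
 .e))))
 .e))))
 .e))))
 .e)))))))))))))))))))))))))
 (.a 1 [297] (.d 462 2378 330 2411 495)
 .e))))) (by decide +kernel)

theorem all : RT X2 466 (402 :: 404 :: 433 :: 434 :: 435 :: 462 :: 463 :: 464 :: 465 :: 467 :: 468 :: 469 :: 470 :: 497 :: 498 :: 499 :: 528 :: 530 :: 532 :: 559 :: 562 :: 565 :: 590 :: 594 :: 598 :: 333 :: 365 :: []) := ⟨r402, r404, r433, r434, r435, r462, r463, r464, r465, r467, r468, r469, r470, r497, r498, r499, r528, r530, r532, r559, r562, r565, r590, r594, r598, r333, r365, trivial⟩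

end Pool.Agent.H94.Five.Mid.K7_3_4
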