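import Pool.Agent.H94.Five.Mid.Fam

set_option autoImplicit false
set_option linter.all false
set_option maxRecDepth 100000

/-! Second has the cell (7, 4): some of the other stones. -/

namespace Pool.Agent.H94.Five.Mid.K7_4_0

open Pool.Agent.H79.Five Pool.Agent.H10.Five Pool.Agent.H94.Five.M

abbrev nl : List Ent := (n1 :: n2 :: n4 :: n5 :: n6 :: n7 :: n8 :: n9 :: n11 :: n12 :: n13 :: n14 :: n15 :: n17 :: n18 :: n19 :: n20 :: n22 :: n23 :: n24 :: [])

theorem nl_ok : AC XB M0 nl := .cons n1k <| .cons n2k <| .cons n4k <| .cons n5k <| .cons n6k <| .cons n7k <| .cons n8k <| .cons n9k <| .cons n11k <| .cons n12k <| .cons n13k <| .cons n14k <| .cons n15k <| .cons n17k <| .cons n18k <| .cons n19k <| .cons n20k <| .cons n22k <| .cons n23k <| .cons n24k <| .nil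

abbrev fl : List Ent := (x18 :: x45 :: x49 :: x53 :: x57 :: x61 :: x64 :: x72 :: x75 :: x76 :: x77 :: x78 :: x100 :: x101 :: x102 :: x106 :: x113 :: x127 :: x130 :: x132 :: x136 :: x137 :: x142 :: x147 :: x148 :: x162 :: x165 :: x172 :: x175 :: x176 :: x177 :: x180 :: x182 :: x186 :: x193 :: x202 :: x204 :: x205 :: x210 :: x216 :: x218 :: x223 :: x226 :: x240 :: x244 :: x248 :: x249 :: x252 :: x253 :: x256 :: x259 :: x260 :: x262 :: x267 :: x269 :: x270 :: x274 :: x276 :: x277 :: x278 :: x284 :: x285 :: x290 :: x291 :: x300 :: x308 :: x309 :: x310 :: x312 :: x317 :: x318 :: x324 :: x325 :: x327 :: x329 :: x330 :: x335 :: x337 :: x341 :: x343 :: x348 :: x357 :: x358 :: x360 :: x365 :: x366 :: x368 :: x371 :: x372 :: x375 :: x376 :: x380 :: x381 :: x385 :: x386 :: x389 :: x390 :: x392 :: x393 :: x400 :: x421 :: x427 :: x428 :: x429 :: x436 :: x439 :: x440 :: x444 :: x446 :: x448 :: x450 :: x452 :: x458 :: x460 :: x464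 :: x468 :: x476 :: x486 :: x493 :: x500 :: x501 :: x503 :: x508 :: x510 :: x515 :: x535 :: x544 :: x550 :: x557 :: [])

theorem fl_ok : AC XB M0 fl := .cons x18k <| .cons x45k <| .cons x49k <| .cons x53k <| .cons x57k <| .cons x61k <| .cons x64k <| .cons x72k <| .cons x75k <| .cons x76k <| .cons x77k <| .cons x78k <| .cons x100k <| .cons x101k <| .cons x102k <| .cons x106k <| .cons x113k <| .cons x127k <| .cons x130k <| .cons x132k <| .cons x136k <| .cons x137k <| .cons x142k <| .cons x147k <| .cons x148k <| .cons x162k <| .cons x165k <| .cons x172k <| .cons x175k <| .cons x176k <| .cons x177k <| .cons x180k <| .cons x182k <| .cons x186k <| .cons x193k <| .cons x202k <| .cons x204k <| .cons x205k <| .cons x210k <| .cons x216k <| .cons x218k <| .cons x223k <| .cons x226k <| .cons x240k <| .cons x244k <| .cons x248k <| .cons x249k <| .cons x252k <| .cons x253k <| .cons x256k <| .cons x259k <| .cons x260k <| .cons x262k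 <| .cons x267k <| .cons x269k <| .cons x270k <| .cons x274k <| .cons x276k <| .cons x277k <| .cons x278k <| .cons x284k <| .cons x285k <| .cons x290k <| .cons x291k <| .cons x300k <| .cons x308k <| .cons x309k <| .cons x310k <| .cons x312k <| .cons x317k <| .cons x318k <| .cons x324k <| .cons x325k <| .cons x327k <| .cons x329k <| .cons x330k <| .cons x335k <| .cons x337k <| .cons x341k <| .cons x343k <| .cons x348k <| .cons x357k <| .cons x358k <| .cons x360k <| .cons x365k <| .cons x366k <| .cons x368k <| .cons x371k <| .cons x372k <| .cons x375k <| .cons x376k <| .cons x380k <| .cons x381k <| .cons x385k <| .cons x386k <| .cons x389k <| .cons x390k <| .cons x392k <| .cons x393k <| .cons x400k <| .cons x421k <| .cons x427k <| .cons x428k <| .cons x429k <| .cons x436k <| .cons x439k <| .cons x440k <| .cons x444k <| .cons x446k <| .cons x448k <| .cons x450k <| .cons x452k <| .cons x458k <| .cons x460k <| .cons x464k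 <| .cons x468k <| .cons x476k <| .cons x486k <| .cons x493k <| .cons x500k <| .cons x501k <| .cons x503k <| .cons x508k <| .cons x510k <| .cons x515k <| .cons x535k <| .cons x544k <| .cons x550k <| .cons x557k <| .nil

theorem b0_3432 : S (PX [] [330,366,498]) := S.of (.q 332 (.a 1 [] (.d 301 3342 270 3373 425)
 (.a 1 [270] (.d 425 3373 301 3404 456)
 (.a 0 [301,425] (.q 364 (.a 1 [] (.d 300 1292 268 1324 428)
 (.a 1 [268] (.d 428 1324 300 1356 460)
 (.a 0 [300,428] (.q 361 (.a 1 [] (.d 362 360 360 361 365)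
 (.a 0 [360,362,365] (.q 427 (.a 1 [] (.d 328 2343 295 2376 460)
 (.a 1 [295] (.d 460 2376 328 2409 493)
 (.a 0 [328,460] (.q 395 (.a 1 [] (.d 393 392 392 393 397)
 (.a 1 [392] (.d 397 393 393 394 398)
 (.a 1 [393] (.d 331 1323 299 1355 459)
 .e))))
 .e))))
 .e)))
 .e))))
 .e)))) (by decide +kernel)

theorem b0_3433 : S (PX [] [332,366,498]) := S.of (.q 395 (.a 1 [] (.d 393 392 392 393 397)
 (.a 1 [392] (.d 397 393 393 394 398)
 (.a 0 [393,397] (.q 330 (.a 1 [] (.d 297 2312 264 2345 429)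
 (.a 1 [264] (.d 429 2345 297 2378 462)
 (.a 0 [297,429] (.q 299 (.a 1 [] (.d 331 1291 267 1323 427)
 (.a 0 [267,331,427] (.q 361 (.a 1 [] (.d 268 3309 237 3340 392)
 (.a 1 [237] (.d 392 3340 268 3371 423)
 (.a 0 [268,392] (.q 362 (.a 1 [] (.d 360 359 359 360 364)
 (.a 1 [359] (.d 364 360 360 361 365)
 (.a 1 [360] (.d 298 1290 266 1322 426)
 .e))))
 .e))))
 .e)))
 .e))))
 .e)))) (by decide +kernel)

theorem b0_3434 : S (PX [] [335,366,498]) := S.of (.q 330 (.a 1 [] (.d 297 2312 264 2345 429)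
 (.a 1 [264] (.d 429 2345 297 2378 462)
 (.a 0 [297,429] (.q 362 (.a 1 [] (.d 298 1290 266 1322 426)
 (.a 1 [266] (.d 426 1322 298 1354 458)
 (.a 0 [298,426] (.q 361 (.a 1 [] (.d 360 359 359 360 364)
 (.a 1 [359] (.d 364 360 360 361 365)
 (.a 0 [360,364] (.q 427 (.a 1 [] (.d 328 2343 295 2376 460)
 (.a 1 [295] (.d 460 2376 328 2409 493)
 (.a 0 [328,460] (.q 395 (.a 1 [] (.d 393 392 392 393 397)
 (.a 1 [392] (.d 397 393 393 394 398)
 (.a 1 [393] (.d 331 1323 299 1355 459)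
 .e))))
 .e))))
 .e))))
 .e))))
 .e)))) (by decide +kernel)

theorem b0_3435 : S (PX [] [365,366,498]) := S.of (.q 395 (.a 1 [] (.d 393 392 392 393 397)
 (.a 1 [392] (.d 397 393 393 394 398)
 (.a 0 [393,397] (.q 331 (.a 1 [] (.d 299 1291 267 1323 427)
 (.a 1 [267] (.d 427 1323 299 1355 459)
 (.a 0 [299,427] (.q 332 (.a 1 [] (.d 301 3342 270 3373 425)
 (.a 1 [270] (.d 425 3373 301 3404 456)
 (.a 0 [301,425] (.q 333 (.a 1 [] (.d 330 329 329 330 334)
 (.a 1 [329] (.d 334 330 330 331 335)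
 (.a 1 [334] (.r 330 329 329 (.d 429 2345 297 2378 462))
 (.a 0 [330] (.q 364 (.a 1 [] (.d 300 1292 268 1324 428)
 (.a 1 [268] (.d 428 1324 300 1356 460)
 (.a 1 [300] (.d 302 3343 271 3374 426)
 .e))))
 .e)))))
 .e))))
 .e))))
 .e)))) (by decide +kernel)

theorem b0_3436 : S (PX [] [366,399,498]) := S.of (.q 395 (.a 1 [] (.d 393 392 392 393 397)
 (.a 0 [393] (.q 332 (.a 1 [] (.d 301 3342 270 3373 425)
 (.a 0 [425] (.q 364 (.a 1 [] (.d 300 1292 268 1324 428)
 (.a 0 [428] (.r 397 394 398 (.q 331 (.a 1 [] (.d 299 1291 267 1323 427)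
 (.a 1 [432] (.q 465 (.a 1 [] (.d 299 1291 267 1323 427)
 (.a 1 [427] (.d 298 2313 265 2346 430)
 (.a 1 [333] (.r 300 1292 268 (.d 299 1291 267 1323 427))
 (.a 1 [300] (.q 333 (.a 1 [] (.d 427 1323 299 1355 459)
 (.a 1 [299] (.d 302 3343 271 3374 426)
 .e)))
 .e)))))
 (.a 1 [465] (.q 432 (.a 1 [] (.d 299 1291 267 1323 427)
 (.a 1 [427] (.d 430 2346 298 2379 463)
 .e)))
 (.a 1 [427] (.d 298 2313 265 2346 430)
 .e))))))
 (.a 0 [300] (.r 460 1356 428 (.q 333 (.a 1 [] (.d 302 3343 271 3374 426)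
 (.a 1 [302] (.r 397 394 398 (.r 301 3342 270 (.q 334 (.a 1 [] (.d 365 1293 269 1325 429)
 (.a 1 [432] (.q 465 (.a 1 [] (.d 331 330 330 331 335)
 (.a 1 [330] (.d 335 331 331 332 336)
 (.a 1 [331] (.d 365 1293 269 1325 429)
 .e))))
 (.a 1 [465] (.q 432 (.a 1 [] (.d 365 1293 269 1325 429)
 (.a 1 [365] (.d 331 330 330 331 335)
 .e)))
 (.a 1 [365] (.d 335 331 331 332 336)
 .e)))))))
 (.a 1 [432] (.q 465 (.a 1 [] (.d 426 3374 302 3405 457)
 (.a 1 [426] (.q 427 (.a 1 [] (.d 331 1323 299 1355 459)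
 (.a 1 [299] (.d 493 2409 361 2442 526)
 .e)))
 (.a 1 [302] (.q 427 (.a 1 [] (.d 331 1323 299 1355 459)
 (.a 1 [299] (.d 493 2409 361 2442 526)
 .e)))
 (.a 1 [457] (.d 302 3343 271 3374 426)
 .e)))))
 (.a 1 [465] (.q 432 (.a 1 [] (.d 426 3374 302 3405 457)
 (.a 1 [426] (.q 427 (.a 1 [] (.d 331 1323 299 1355 459)
 (.a 1 [299] (.d 493 2409 361 2442 526)
 .e)))
 (.a 1 [302] (.q 427 (.a 1 [] (.d 331 1323 299 1355 459)
 (.a 1 [299] (.d 493 2409 361 2442 526)
 .e)))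
 (.a 1 [457] (.d 302 3343 271 3374 426)
 .e)))))
 (.a 1 [426] (.r 397 394 398 (.r 301 3342 270 (.d 365 1293 269 1325 429)))
 .e)))))))
 (.a 1 [432] (.q 465 (.a 1 [] (.d 300 1292 268 1324 428)
 (.a 1 [300] (.q 333 (.a 1 [] (.d 302 3343 271 3374 426)
 (.a 1 [271] (.d 426 3374 302 3405 457)
 (.a 0 [302,426] (.q 331 (.a 1 [] (.d 330 329 329 330 334)
 (.a 1 [329] (.d 334 330 330 331 335)
 (.a 1 [330] (.d 299 1291 267 1323 427)
 .e))))
 .e))))
 (.a 1 [428] (.q 302 (.a 1 [] (.d 333 3343 271 3374 426)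
 (.a 1 [271] (.r 426 3374 333 (.r 300 1292 268 (.r 301 3342 270 (.d 303 299 299 300 304))))
 (.a 1 [333] (.r 300 1292 268 (.r 301 3342 270 (.d 303 299 299 300 304)))
 .e))))
 .e))))
 (.a 1 [465] (.q 432 (.a 1 [] (.d 428 1324 300 1356 460)
 (.a 1 [428] (.q 331 (.a 1 [] (.d 299 1291 267 1323 427)
 (.a 1 [267] (.d 427 1323 299 1355 459)
 (.a 1 [299] (.r 397 394 398 (.d 298 2313 265 2346 430))
 .e))))
 (.a 1 [300] (.q 331 (.a 1 [] (.d 299 1291 267 1323 427)
 (.a 1 [299] (.r 397 394 398 (.d 298 2313 265 2346 430))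
 (.a 1 [333] (.r 267 1291 299 (.r 397 394 398 (.d 298 2313 265 2346 430)))
 (.a 0 [267] (.q 333 (.a 1 [] (.d 427 1323 299 1355 459)
 (.a 1 [299] (.d 302 3343 271 3374 426)
 .e)))
 .e)))))
 .e))))
 (.a 1 [268] (.d 428 1324 300 1356 460)
 .e)))))))
 (.a 0 [301] (.q 432 (.a 1 [] (.q 299 (.a 1 [] (.d 331 1291 267 1323 427)
 (.a 1 [267] (.r 427 1323 331 (.r 398 394 397 (.d 365 2314 266 2347 431)))
 (.a 1 [331] (.r 398 394 397 (.d 365 2314 266 2347 431))
 .e))))
 (.a 1 [300] (.q 330 (.a 1 [] (.d 297 2312 264 2345 429)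
 (.a 1 [297] (.q 299 (.a 1 [] (.d 331 1291 267 1323 427)
 (.a 1 [331] (.r 398 394 397 (.d 365 2314 266 2347 431))
 (.a 1 [333] (.r 267 1291 331 (.r 398 394 397 (.d 365 2314 266 2347 431)))
 (.a 0 [267] (.q 333 (.a 1 [] (.d 331 329 329 1323 427)
 (.a 1 [329] (.d 331 330 334 1323 427)
 (.a 1 [331] (.r 398 394 397 (.d 365 2314 266 2347 431))
 .e))))
 .e)))))
 (.a 1 [429] (.q 333 (.a 1 [] (.d 331 329 329 330 334)
 (.a 1 [329] (.r 331 330 334 (.d 427 1323 299 1355 459))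
 (.a 1 [334] (.r 331 329 329 (.d 427 1323 299 1355 459))
 (.a 0 [331] (.q 362 (.a 1 [] (.d 298 1290 266 1322 426)
 (.a 1 [266] (.d 426 1322 298 1354 458)
 (.a 1 [298] (.r 426 1354 458 (.d 364 3374 302 3405 457))
 (.a 0 [426] (.q 428 (.a 1 [] (.d 329 2344 296 2377 461)
 (.a 1 [296] (.d 461 2377 329 2410 494)
 (.a 1 [329] (.r 364 1356 460 (.d 361 360 360 361 365))
 .e))))
 .e)))))
 .e)))))
 (.a 1 [333] (.q 267 (.a 1 [] (.d 297 2312 264 2345 429)
 (.a 1 [264] (.d 429 2345 297 2378 462)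
 (.a 0 [297,429] (.q 362 (.a 1 [] (.d 298 1290 266 1322 426)
 (.a 1 [266] (.d 426 1322 298 1354 458)
 (.a 1 [298] (.r 299 1291 331 (.r 398 394 397 (.d 365 2314 266 2347 431)))
 (.a 1 [365] (.r 397 394 398 (.d 426 1322 298 1354 458))
 (.a 0 [397] (.q 365 (.a 1 [] (.d 426 1322 298 1354 458)
 (.a 1 [298] (.r 299 1291 331 (.d 398 2314 266 2347 431))
 (.a 1 [299] (.d 298 1290 266 1322 426)
 .e))))
 .e))))))
 .e))))
 .e)))))
 (.a 1 [398] (.q 427 (.a 1 [] (.d 331 1323 299 1355 459)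
 (.a 1 [299] (.d 459 1355 331 1387 491)
 (.a 0 [331,459] (.q 428 (.a 1 [] (.d 364 1324 300 1356 460)
 (.a 1 [300] (.r 460 1356 364 (.d 493 2409 361 2442 526))
 (.a 1 [364] (.r 425 3404 456 (.d 426 424 424 425 429))
 .e))))
 .e))))
 (.a 1 [427] (.q 330 (.a 1 [] (.d 297 2312 264 2345 429)
 (.a 1 [264] (.d 429 2345 297 2378 462)
 (.a 0 [297,429] (.q 299 (.a 1 [] (.r 331 1291 267 (.d 333 329 329 330 334))
 (.a 1 [267] (.r 398 394 397 (.d 365 2314 266 2347 431))
 (.a 1 [333] (.r 398 394 397 (.d 365 2314 266 2347 431))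
 .e))))
 .e))))
 (.a 1 [397] (.q 427 (.a 1 [] (.d 331 1323 299 1355 459)
 (.a 1 [299] (.d 459 1355 331 1387 491)
 (.a 0 [331,459] (.q 428 (.a 1 [] (.d 364 1324 300 1356 460)
 (.a 1 [300] (.r 460 1356 364 (.d 493 2409 361 2442 526))
 (.a 1 [364] (.r 425 3404 456 (.d 426 424 424 425 429))
 .e))))
 .e))))
 (.a 1 [331] (.q 429 (.a 1 [] (.d 330 2345 297 2378 462)
 (.a 1 [297] (.d 462 2378 330 2411 495)
 (.a 0 [330,462] (.q 431 (.a 1 [] (.d 430 428 428 429 433)
 (.a 1 [428] (.r 398 394 397 (.d 365 2347 299 2380 464))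
 .e)))
 .e))))
 (.a 1 [428] (.q 299 (.a 1 [] (.d 331 1291 267 1323 427)
 (.a 1 [267] (.r 427 1323 331 (.r 398 394 397 (.d 365 2314 266 2347 431)))
 (.a 1 [331] (.r 398 394 397 (.d 365 2314 266 2347 431))
 .e))))
 (.a 1 [299] (.q 330 (.a 1 [] (.d 297 2312 264 2345 429)
 (.a 1 [264] (.d 429 2345 297 2378 462)
 (.a 0 [297,429] (.q 298 (.a 1 [] (.d 362 1290 266 1322 426)
 (.a 0 [266,362,426] (.q 331 (.a 1 [] (.d 329 328 328 329 333)
 (.a 1 [328] (.d 333 329 329 330 334)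
 (.a 1 [329] (.r 397 394 398 (.d 364 2313 265 2346 430))
 .e))))
 .e)))
 .e))))
 (.a 1 [459] (.q 299 (.a 1 [] (.d 331 1291 267 1323 427)
 (.a 1 [267] (.r 398 394 397 (.d 365 2314 266 2347 431))
 .e)))
 (.a 1 [333] (.q 300 (.a 1 [] (.d 364 1292 268 1324 428)
 (.a 0 [268,364,428] (.q 299 (.a 1 [] (.d 331 1291 267 1323 427)
 (.a 1 [267] (.r 427 1323 331 (.r 398 394 397 (.d 365 2314 266 2347 431)))
 (.a 1 [331] (.r 398 394 397 (.d 365 2314 266 2347 431))
 .e))))
 .e)))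
 (.a 1 [365] (.q 364 (.a 1 [] (.d 300 1292 268 1324 428)
 (.a 1 [268] (.d 428 1324 300 1356 460)
 (.a 0 [300,428] (.q 331 (.a 1 [] (.d 299 1291 267 1323 427)
 (.a 1 [299] (.r 397 394 398 (.d 298 2313 265 2346 430))
 (.a 1 [333] (.r 267 1291 299 (.r 397 394 398 (.d 298 2313 265 2346 430)))
 (.a 0 [267] (.q 333 (.a 1 [] (.d 427 1323 299 1355 459)
 (.a 1 [299] (.d 302 3343 271 3374 426)
 .e)))
 .e)))))
 .e))))
 (.a 1 [267] (.q 300 (.a 1 [] (.d 364 1292 268 1324 428)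
 (.a 0 [268,364,428] (.q 330 (.a 1 [] (.d 297 2312 264 2345 429)
 (.a 1 [264] (.d 429 2345 297 2378 462)
 (.a 0 [297,429] (.q 331 (.a 1 [] (.d 329 328 328 329 333)
 (.a 1 [328] (.d 333 329 329 330 334)
 (.a 1 [329] (.d 427 1323 299 1355 459)
 .e))))
 .e))))
 .e)))
 .e)))))))))))))
 (.a 0 [432] (.q 465 (.a 1 [] (.d 301 3342 270 3373 425)
 (.a 1 [300] (.q 333 (.a 1 [] (.d 301 3342 270 3373 425)
 (.a 1 [301] (.q 331 (.a 1 [] (.d 330 329 329 330 334)
 (.a 1 [329] (.d 334 330 330 331 335)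
 (.a 1 [330] (.d 299 1291 267 1323 427)
 .e))))
 (.a 1 [425] (.q 331 (.a 1 [] (.d 330 329 329 330 334)
 (.a 1 [329] (.d 334 330 330 331 335)
 (.a 1 [330] (.d 299 1291 267 1323 427)
 .e))))
 .e))))
 (.a 1 [425] (.q 300 (.a 1 [] (.d 364 1292 268 1324 428)
 (.a 0 [268,364,428] (.q 299 (.a 1 [] (.d 331 1291 267 1323 427)
 (.a 1 [267] (.r 301 3342 270 (.d 302 298 298 299 303))
 .e)))
 .e)))
 (.a 1 [301] (.q 300 (.a 1 [] (.d 364 1292 268 1324 428)
 (.a 0 [268,364,428] (.q 299 (.a 1 [] (.d 331 1291 267 1323 427)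
 (.a 1 [267] (.r 427 1323 331 (.r 398 394 397 (.d 365 2314 266 2347 431)))
 (.a 1 [331] (.r 398 394 397 (.d 365 2314 266 2347 431))
 .e))))
 .e)))
 (.a 1 [270] (.d 425 3373 301 3404 456)
 .e))))))
 (.a 1 [465] (.q 432 (.a 1 [] (.d 301 3342 270 3373 425)
 (.a 1 [425] (.q 299 (.a 1 [] (.d 331 1291 267 1323 427)
 (.a 1 [267] (.r 427 1323 331 (.r 398 394 397 (.d 365 2314 266 2347 431)))
 (.a 1 [331] (.r 398 394 397 (.d 365 2314 266 2347 431))
 .e))))
 .e)))
 (.a 1 [270] (.d 425 3373 301 3404 456)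
 .e)))))))
 (.a 0 [397] (.q 331 (.a 1 [] (.d 299 1291 267 1323 427)
 (.a 0 [427] (.q 332 (.a 1 [] (.d 301 3342 270 3373 425)
 (.a 1 [425] (.r 299 1291 267 (.r 393 392 392 (.q 300 (.a 1 [] (.d 364 1292 268 1324 428)
 (.a 1 [465] (.q 432 (.a 1 [] (.d 362 3341 269 3372 424)
 (.a 1 [269] (.d 364 1292 268 1324 428)
 .e)))
 (.a 1 [432] (.q 465 (.a 1 [] (.d 364 1292 268 1324 428)
 (.a 1 [364] (.d 362 3341 269 3372 424)
 .e)))
 (.a 1 [364] (.d 362 3341 269 3372 424)
 .e)))))))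
 (.a 1 [301] (.r 393 392 392 (.r 425 3404 456 (.r 299 1291 267 (.q 300 (.a 1 [] (.d 364 1292 268 1324 428)
 (.a 1 [465] (.q 432 (.a 1 [] (.d 362 3341 269 3372 424)
 (.a 1 [269] (.d 364 1292 268 1324 428)
 .e)))
 (.a 1 [432] (.q 465 (.a 1 [] (.d 364 1292 268 1324 428)
 (.a 1 [364] (.d 362 3341 269 3372 424)
 .e)))
 (.a 1 [364] (.d 362 3341 269 3372 424)
 .e))))))))
 (.a 1 [432] (.q 465 (.a 1 [] (.d 301 3342 270 3373 425)
 (.a 1 [425] (.q 300 (.a 1 [] (.d 364 1292 268 1324 428)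
 (.a 1 [268] (.r 393 392 392 (.d 362 3341 269 3372 424))
 .e)))
 (.a 1 [300] (.q 333 (.a 1 [] (.d 301 3342 270 3373 425)
 (.a 1 [270] (.d 425 3373 301 3404 456)
 (.a 1 [301] (.d 330 329 329 330 334)
 .e))))
 .e))))
 (.a 1 [465] (.q 432 (.a 1 [] (.d 301 3342 270 3373 425)
 (.a 1 [425] (.q 330 (.a 1 [] (.d 329 328 328 329 333)
 (.a 1 [328] (.d 333 329 329 330 334)
 (.a 1 [329] (.d 297 2312 264 2345 429)
 .e))))
 .e)))
 (.a 1 [270] (.d 425 3373 301 3404 456)
 .e)))))))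
 (.a 0 [299] (.q 330 (.a 1 [] (.d 297 2312 264 2345 429)
 (.a 0 [429] (.r 393 392 392 (.r 297 2312 264 (.r 459 1355 427 (.q 362 (.a 1 [] (.d 298 1290 266 1322 426)
 (.a 1 [432] (.q 465 (.a 1 [] (.d 298 1290 266 1322 426)
 (.a 1 [426] (.d 424 3372 300 3403 455)
 (.a 1 [300] (.q 333 (.a 1 [] (.d 298 1290 266 1322 426)
 (.a 1 [266] (.d 426 1322 298 1354 458)
 (.a 1 [298] (.d 332 329 329 330 334)
 .e))))
 (.a 1 [333] (.d 300 3341 269 3372 424)
 .e)))))
 (.a 1 [465] (.q 432 (.a 1 [] (.d 298 1290 266 1322 426)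
 (.a 1 [426] (.d 300 3341 269 3372 424)
 .e)))
 (.a 1 [426] (.d 300 3341 269 3372 424)
 .e))))))))
 (.a 0 [297] (.q 332 (.a 1 [] (.d 329 328 328 329 333)
 (.a 1 [432] (.q 465 (.a 1 [] (.d 329 328 328 329 333)
 (.a 1 [333] (.q 300 (.a 1 [] (.d 301 3342 270 3373 425)
 (.a 1 [270] (.d 364 1292 268 1324 428)
 .e)))
 (.a 1 [300] (.d 333 329 329 330 334)
 .e))))
 (.a 1 [465] (.q 432 (.a 1 [] (.d 329 328 328 329 333)
 (.a 1 [333] (.d 425 3373 301 3404 456)
 .e)))
 (.a 1 [333] (.d 301 3342 270 3373 425)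
 .e)))))
 (.a 1 [432] (.q 465 (.a 1 [] (.d 297 2312 264 2345 429)
 (.a 1 [333] (.q 300 (.a 1 [] (.d 297 2312 264 2345 429)
 (.a 1 [429] (.r 393 392 392 (.d 362 3341 269 3372 424))
 .e)))
 (.a 1 [429] (.q 333 (.a 1 [] (.d 332 329 329 330 334)
 (.a 1 [329] (.r 332 330 334 (.d 425 3373 301 3404 456))
 (.a 1 [334] (.r 332 329 329 (.d 425 3373 301 3404 456))
 (.a 0 [332] (.q 362 (.a 1 [] (.d 298 1290 266 1322 426)
 (.a 1 [266] (.d 426 1322 298 1354 458)
 (.a 1 [298] (.r 393 392 392 (.d 424 3372 300 3403 455))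
 .e))))
 .e)))))
 (.a 1 [297] (.q 332 (.a 1 [] (.d 329 328 328 329 333)
 (.a 1 [300] (.d 333 329 329 330 334)
 (.a 1 [329] (.d 425 3373 301 3404 456)
 (.a 0 [333] (.q 300 (.a 1 [] (.d 425 3373 301 3404 456)
 (.a 1 [301] (.d 364 1292 268 1324 428)
 .e)))
 .e)))))
 (.a 1 [300] (.q 333 (.a 1 [] (.d 429 2345 297 2378 462)
 (.a 1 [297] (.d 332 329 329 330 334)
 .e)))
 .e))))))
 (.a 1 [465] (.q 432 (.a 1 [] (.d 297 2312 264 2345 429)
 (.a 1 [429] (.q 332 (.a 1 [] (.d 329 328 328 329 333)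
 (.a 1 [328] (.d 333 329 329 330 334)
 (.a 1 [329] (.d 301 3342 270 3373 425)
 .e))))
 .e)))
 (.a 1 [264] (.d 429 2345 297 2378 462)
 .e)))))))
 (.a 0 [432] (.q 465 (.a 1 [] (.d 427 1323 299 1355 459)
 (.a 1 [333] (.q 300 (.a 1 [] (.d 299 1291 267 1323 427)
 (.a 1 [427] (.r 393 392 392 (.d 362 3341 269 3372 424))
 .e)))
 (.a 1 [300] (.q 333 (.a 1 [] (.d 299 1291 267 1323 427)
 (.a 1 [427] (.q 332 (.a 1 [] (.d 330 329 329 330 334)
 (.a 1 [329] (.d 334 330 330 331 335)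
 (.a 1 [330] (.d 301 3342 270 3373 425)
 .e))))
 .e)))
 (.a 1 [427] (.r 393 392 392 (.q 300 (.a 1 [] (.d 362 3341 269 3372 424)
 (.a 0 [269,362,424] (.q 332 (.a 1 [] (.d 364 1292 268 1324 428)
 (.a 1 [268] (.d 425 3373 301 3404 456)
 .e)))
 .e))))
 (.a 1 [299] (.r 393 392 392 (.q 300 (.a 1 [] (.d 362 3341 269 3372 424)
 (.a 0 [269,362,424] (.q 332 (.a 1 [] (.d 364 1292 268 1324 428)
 (.a 1 [268] (.d 425 3373 301 3404 456)
 .e)))
 .e))))
 (.a 1 [459] (.d 299 1291 267 1323 427)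
 .e)))))))
 (.a 1 [465] (.q 432 (.a 1 [] (.d 427 1323 299 1355 459)
 (.a 1 [427] (.q 332 (.a 1 [] (.d 301 3342 270 3373 425)
 (.a 1 [270] (.d 425 3373 301 3404 456)
 (.a 0 [301,425] (.q 330 (.a 1 [] (.d 329 328 328 329 333)
 (.a 1 [328] (.d 333 329 329 330 334)
 (.a 1 [329] (.d 297 2312 264 2345 429)
 .e))))
 .e))))
 (.a 1 [459] (.d 299 1291 267 1323 427)
 .e))))
 (.a 1 [267] (.d 427 1323 299 1355 459)
 .e)))))))
 (.a 0 [432] (.q 465 (.a 1 [] (.d 393 392 392 393 397)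
 (.a 1 [393] (.q 333 (.a 1 [] (.q 429 (.a 1 [] (.d 330 2345 297 2378 462)
 (.a 1 [297] (.d 462 2378 330 2411 495)
 (.a 1 [330] (.r 397 394 398 (.d 365 1325 301 1357 461))
 .e))))
 (.a 1 [397] (.q 364 (.a 1 [] (.d 302 3343 271 3374 426)
 (.a 1 [271] (.d 426 3374 302 3405 457)
 (.a 0 [302,426] (.q 332 (.a 1 [] (.d 300 1292 268 1324 428)
 (.a 1 [268] (.d 428 1324 300 1356 460)
 (.a 1 [300] (.d 301 3342 270 3373 425)
 .e))))
 .e))))
 (.a 1 [398] (.q 332 (.a 1 [] (.d 301 3342 270 3373 425)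
 (.a 1 [270] (.d 425 3373 301 3404 456)
 (.a 0 [301,425] (.q 364 (.a 1 [] (.d 300 1292 268 1324 428)
 (.a 1 [268] (.d 428 1324 300 1356 460)
 (.a 1 [300] (.d 302 3343 271 3374 426)
 .e))))
 .e))))
 (.a 1 [425] (.q 429 (.a 1 [] (.d 330 2345 297 2378 462)
 (.a 1 [297] (.d 462 2378 330 2411 495)
 (.a 1 [330] (.r 397 394 398 (.d 365 1325 301 1357 461))
 .e))))
 (.a 1 [301] (.q 427 (.a 1 [] (.d 331 1323 299 1355 459)
 (.a 1 [299] (.d 459 1355 331 1387 491)
 (.a 0 [331,459] (.q 429 (.a 1 [] (.d 330 2345 297 2378 462)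
 (.a 1 [297] (.d 462 2378 330 2411 495)
 (.a 1 [330] (.r 397 394 398 (.r 365 1357 461 (.d 458 3406 334 3437 489)))
 .e))))
 .e))))
 (.a 1 [302] (.q 429 (.a 1 [] (.d 330 2345 297 2378 462)
 (.a 1 [297] (.d 462 2378 330 2411 495)
 (.a 1 [330] (.r 397 394 398 (.d 365 1325 301 1357 461))
 .e))))
 (.a 1 [334] (.q 427 (.a 1 [] (.d 331 1323 299 1355 459)
 (.a 1 [299] (.d 459 1355 331 1387 491)
 (.a 0 [331,459] (.q 429 (.a 1 [] (.d 330 2345 297 2378 462)
 (.a 1 [297] (.d 462 2378 330 2411 495)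
 (.a 1 [330] (.r 397 394 398 (.d 365 1325 301 1357 461))
 (.a 0 [462] (.q 426 (.a 1 [] (.d 428 425 425 426 430)
 (.a 1 [398] (.r 430 426 428 (.d 364 3374 302 3405 457))
 (.a 1 [428] (.d 364 3374 302 3405 457)
 (.a 1 [430] (.r 398 394 397 (.d 364 3374 302 3405 457))
 .e)))))
 .e)))))
 .e))))
 (.a 1 [270] (.q 429 (.a 1 [] (.d 330 2345 297 2378 462)
 (.a 1 [297] (.d 462 2378 330 2411 495)
 (.a 1 [330] (.r 397 394 398 (.d 365 1325 301 1357 461))
 .e))))
 (.a 1 [401] (.q 429 (.a 1 [] (.d 330 2345 297 2378 462)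
 (.a 1 [297] (.d 462 2378 330 2411 495)
 (.a 1 [330] (.r 397 394 398 (.d 365 1325 301 1357 461))
 .e))))
 (.a 1 [430] (.q 301 (.a 1 [] (.d 332 3342 270 3373 425)
 (.a 1 [270] (.r 397 394 398 (.d 365 1293 269 1325 429))
 .e)))
 (.a 1 [400] (.q 429 (.a 1 [] (.d 330 2345 297 2378 462)
 (.a 1 [297] (.d 462 2378 330 2411 495)
 (.a 1 [330] (.r 397 394 398 (.d 365 1325 301 1357 461))
 .e))))
 .e))))))))))))
 (.a 0 [397] (.q 332 (.a 1 [] (.d 301 3342 270 3373 425)
 (.a 0 [301] (.q 300 (.a 1 [] (.d 364 1292 268 1324 428)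
 (.a 0 [428] (.r 268 1292 364 (.q 459 (.a 1 [] (.d 427 1355 331 1387 491)
 (.a 1 [427] (.q 330 (.a 1 [] (.d 297 2312 264 2345 429)
 (.a 1 [335] (.q 304 (.a 1 [] (.d 297 2312 264 2345 429)
 (.a 1 [429] (.r 392 392 393 (.r 299 3340 361 (.r 331 1291 267 (.d 333 329 329 330 334))))
 .e)))
 (.a 1 [304] (.q 335 (.a 1 [] (.d 297 2312 264 2345 429)
 (.a 1 [429] (.r 392 392 393 (.r 299 3340 361 (.r 331 1291 267 (.d 333 329 329 330 334))))
 .e)))
 (.a 1 [429] (.r 392 392 393 (.r 299 3340 361 (.r 331 1291 267 (.d 333 329 329 330 334))))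
 .e)))))
 (.a 1 [335] (.q 304 (.a 1 [] (.d 427 1355 331 1387 491)
 (.a 1 [427] (.q 330 (.a 1 [] (.d 297 2312 264 2345 429)
 (.a 1 [264] (.d 429 2345 297 2378 462)
 (.a 1 [297] (.r 392 392 393 (.r 299 3340 361 (.r 331 1291 267 (.d 333 329 329 330 334))))
 .e))))
 (.a 1 [331] (.r 392 392 393 (.r 425 3404 456 (.r 491 1387 427 (.d 458 2407 359 2440 524))))
 .e))))
 (.a 1 [304] (.q 335 (.a 1 [] (.d 427 1355 331 1387 491)
 (.a 1 [331] (.r 236 1228 204 (.r 392 392 393 (.r 425 3404 456 (.r 491 1387 427 (.d 458 2407 359 2440 524)))))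
 (.a 1 [427] (.q 330 (.a 1 [] (.d 297 2312 264 2345 429)
 (.a 1 [264] (.d 429 2345 297 2378 462)
 (.a 1 [297] (.r 392 392 393 (.r 299 3340 361 (.r 331 1291 267 (.d 333 329 329 330 334))))
 .e))))
 .e))))
 (.a 1 [331] (.r 392 392 393 (.r 425 3404 456 (.r 491 1387 427 (.d 458 2407 359 2440 524))))
 (.a 1 [491] (.r 331 1355 427 (.r 393 392 392 (.d 362 3341 269 3372 424)))
 .e))))))))
 (.a 1 [364] (.q 331 (.a 1 [] (.d 299 1291 267 1323 427)
 (.a 1 [267] (.d 427 1323 299 1355 459)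
 (.a 1 [299] (.r 393 392 392 (.d 362 3341 269 3372 424))
 .e))))
 (.a 1 [268] (.q 331 (.a 1 [] (.d 299 1291 267 1323 427)
 (.a 1 [267] (.d 427 1323 299 1355 459)
 (.a 1 [299] (.r 393 392 392 (.d 362 3341 269 3372 424))
 .e))))
 .e)))))
 (.a 1 [425] (.q 330 (.a 1 [] (.d 297 2312 264 2345 429)
 (.a 1 [429] (.q 333 (.a 1 [] (.d 331 329 329 330 334)
 (.a 1 [329] (.r 331 330 334 (.d 427 1323 299 1355 459))
 (.a 1 [334] (.r 331 329 329 (.d 427 1323 299 1355 459))
 (.a 0 [331] (.q 364 (.a 1 [] (.d 300 1292 268 1324 428)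
 (.a 1 [268] (.d 428 1324 300 1356 460)
 (.a 1 [300] (.d 302 3343 271 3374 426)
 .e))))
 .e)))))
 (.a 1 [297] (.q 331 (.a 1 [] (.d 329 328 328 329 333)
 (.a 1 [300] (.d 333 329 329 330 334)
 (.a 1 [329] (.d 427 1323 299 1355 459)
 (.a 0 [333] (.q 300 (.a 1 [] (.d 427 1323 299 1355 459)
 (.a 1 [299] (.d 364 1292 268 1324 428)
 .e)))
 .e)))))
 (.a 1 [333] (.q 300 (.a 1 [] (.d 429 2345 297 2378 462)
 (.a 1 [297] (.d 364 1292 268 1324 428)
 .e)))
 (.a 1 [300] (.q 333 (.a 1 [] (.d 429 2345 297 2378 462)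
 (.a 1 [297] (.d 331 329 329 330 334)
 .e)))
 .e))))))
 (.a 1 [300] (.q 333 (.a 1 [] (.d 425 3373 301 3404 456)
 (.a 1 [301] (.q 331 (.a 1 [] (.d 330 329 329 330 334)
 (.a 1 [329] (.d 334 330 330 331 335)
 (.a 1 [330] (.d 299 1291 267 1323 427)
 .e))))
 .e)))
 (.a 1 [270] (.d 425 3373 301 3404 456)
 (.a 1 [333] (.q 300 (.a 1 [] (.d 425 3373 301 3404 456)
 (.a 1 [301] (.d 364 1292 268 1324 428)
 .e)))
 .e)))))))
 (.a 1 [333] (.q 300 (.a 1 [] (.d 397 393 393 394 398)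
 (.a 1 [393] (.q 332 (.a 1 [] (.d 364 1292 268 1324 428)
 (.a 1 [268] (.d 425 3373 301 3404 456)
 .e)))
 .e)))
 (.a 1 [300] (.q 333 (.a 1 [] (.d 393 392 392 393 397)
 (.a 1 [393] (.q 429 (.a 1 [] (.d 330 2345 297 2378 462)
 (.a 1 [297] (.d 462 2378 330 2411 495)
 (.a 1 [330] (.r 397 394 398 (.d 365 1325 301 1357 461))
 .e))))
 (.a 1 [397] (.q 364 (.a 1 [] (.d 302 3343 271 3374 426)
 (.a 1 [271] (.d 426 3374 302 3405 457)
 (.a 0 [302,426] (.q 427 (.a 1 [] (.d 331 1323 299 1355 459)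
 (.a 1 [299] (.d 459 1355 331 1387 491)
 (.a 0 [331,459] (.q 428 (.a 1 [] (.d 460 1356 332 1388 492)
 (.a 1 [332] (.r 460 1388 492 (.d 493 2409 361 2442 526))
 (.a 1 [492] (.r 332 1356 460 (.d 301 3342 270 3373 425))
 (.a 0 [460] (.q 362 (.a 1 [] (.d 361 360 360 361 365)
 (.a 1 [360] (.d 461 2377 329 2410 494)
 .e)))
 .e)))))
 .e))))
 .e))))
 .e))))
 (.a 1 [392] (.d 397 393 393 394 398)
 .e)))))))
 (.a 1 [465] (.q 432 (.a 1 [] (.d 397 393 393 394 398)
 (.a 1 [393] (.q 427 (.a 1 [] (.d 331 1323 299 1355 459)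
 (.a 1 [299] (.d 459 1355 331 1387 491)
 (.a 0 [331,459] (.q 458 (.a 1 [] (.d 365 3406 334 3437 489)
 (.a 1 [334] (.d 489 3437 365 3468 520)
 (.a 0 [365,489] (.q 425 (.a 1 [] (.d 332 3373 301 3404 456)
 (.a 1 [301] (.d 456 3404 332 3435 487)
 (.a 0 [332,456] (.q 426 (.a 1 [] (.d 424 423 423 424 428)
 (.a 1 [423] (.d 428 424 424 425 429)
 (.a 1 [424] (.d 362 1354 330 1386 490)
 .e))))
 .e))))
 .e))))
 .e))))
 (.a 1 [397] (.q 429 (.a 1 [] (.d 330 2345 297 2378 462)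
 (.a 1 [297] (.d 462 2378 330 2411 495)
 (.a 0 [330,462] (.q 427 (.a 1 [] (.d 331 1323 299 1355 459)
 (.a 1 [299] (.d 459 1355 331 1387 491)
 (.a 0 [331,459] (.q 428 (.a 1 [] (.d 426 425 425 426 430)
 (.a 1 [425] (.d 430 426 426 427 431)
 (.a 1 [430] (.r 425 425 426 (.d 456 3404 332 3435 487))
 (.a 0 [426] (.q 460 (.a 1 [] (.d 364 1356 332 1388 492)
 (.a 1 [332] (.d 492 1388 364 1420 524)
 (.a 1 [364] (.d 361 2376 328 2409 493)
 .e))))
 .e)))))
 .e))))
 .e))))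
 (.a 1 [398] (.d 393 392 392 393 397)
 .e)))))
 (.a 1 [392] (.d 397 393 393 394 398)
 .e))))))) (by decide +kernel)

theorem b0_3437 : S (PX [] [366,425,498]) := S.of (.q 395 (.a 1 [] (.d 393 392 392 393 397)
 (.a 1 [392] (.d 397 393 393 394 398)
 (.a 0 [393,397] (.q 331 (.a 1 [] (.d 299 1291 267 1323 427)
 (.a 1 [267] (.d 427 1323 299 1355 459)
 (.a 0 [299,427] (.q 330 (.a 1 [] (.d 297 2312 264 2345 429)
 (.a 1 [264] (.d 429 2345 297 2378 462)
 (.a 0 [297] (.q 329 (.a 1 [] (.d 328 327 327 328 332)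
 (.a 1 [327] (.d 332 328 328 329 333)
 (.a 0 [328,332] (.q 362 (.a 1 [] (.d 298 1290 266 1322 426)
 (.a 1 [266] (.d 426 1322 298 1354 458)
 (.a 1 [298] (.d 296 2311 263 2344 428)
 .e))))
 .e))))
 (.a 0 [429] (.q 426 (.a 1 [] (.d 362 1322 298 1354 458)
 (.a 0 [298,362,458] (.q 333 (.a 1 [] (.d 332 329 329 330 334)
 (.a 1 [329] (.d 364 3374 302 3405 457)
 .e)))
 .e)))
 .e)))))
 .e))))
 .e)))) (by decide +kernel)

theorem b0_3438 : S (PX [] [366,428,498]) := S.of (.q 330 (.a 1 [] (.d 297 2312 264 2345 429)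
 (.a 1 [264] (.d 429 2345 297 2378 462)
 (.a 0 [297] (.q 362 (.a 1 [] (.d 298 1290 266 1322 426)
 (.a 1 [266] (.d 426 1322 298 1354 458)
 (.a 0 [298,426] (.q 361 (.a 1 [] (.d 360 359 359 360 364)
 (.a 1 [359] (.d 364 360 360 361 365)
 (.a 0 [360,364] (.q 427 (.a 1 [] (.d 328 2343 295 2376 460)
 (.a 1 [295] (.d 460 2376 328 2409 493)
 (.a 0 [328,460] (.q 395 (.a 1 [] (.d 393 392 392 393 397)
 (.a 1 [392] (.d 397 393 393 394 398)
 (.a 1 [393] (.d 331 1323 299 1355 459)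
 .e))))
 .e))))
 .e))))
 .e))))
 (.a 0 [429] (.q 332 (.a 1 [] (.d 301 3342 270 3373 425)
 (.a 1 [270] (.d 425 3373 301 3404 456)
 (.a 0 [301,425] (.q 426 (.a 1 [] (.d 362 1322 298 1354 458)
 (.a 0 [298,362,458] (.q 333 (.a 1 [] (.d 331 329 329 330 334)
 (.a 0 [329,331,334] (.q 395 (.a 1 [] (.d 393 392 392 393 397)
 (.a 1 [392] (.d 397 393 393 394 398)
 (.a 1 [393] (.d 364 3374 302 3405 457)
 .e))))
 .e)))
 .e)))
 .e))))
 .e))))) (by decide +kernel)

theorem b0_3439 : S (PX [399] [330,366,432,498]) := S.of (.q 332 (.a 1 [] (.d 301 3342 270 3373 425)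
 (.a 1 [270] (.d 425 3373 301 3404 456)
 (.a 0 [301,425] (.q 364 (.a 1 [] (.d 300 1292 268 1324 428)
 (.a 1 [268] (.d 428 1324 300 1356 460)
 (.a 0 [300,428] (.q 361 (.a 1 [] (.d 362 360 360 361 365)
 (.a 0 [360,362,365] (.q 427 (.a 1 [] (.d 328 2343 295 2376 460)
 (.a 1 [295] (.d 460 2376 328 2409 493)
 (.a 0 [328,460] (.q 395 (.a 1 [] (.d 393 392 392 393 397)
 (.a 1 [392] (.d 397 393 393 394 398)
 (.a 1 [393] (.d 331 1323 299 1355 459)
 .e))))
 .e))))
 .e)))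
 .e))))
 .e)))) (by decide +kernel)

theorem b0_3440 : S (PX [399] [332,366,432,498]) := S.of (.q 395 (.a 1 [] (.d 393 392 392 393 397)
 (.a 1 [392] (.d 397 393 393 394 398)
 (.a 0 [393,397] (.q 330 (.a 1 [] (.d 297 2312 264 2345 429)
 (.a 1 [264] (.d 429 2345 297 2378 462)
 (.a 0 [297,429] (.q 299 (.a 1 [] (.d 331 1291 267 1323 427)
 (.a 0 [267,331,427] (.q 361 (.a 1 [] (.d 268 3309 237 3340 392)
 (.a 1 [237] (.d 392 3340 268 3371 423)
 (.a 0 [268,392] (.q 362 (.a 1 [] (.d 360 359 359 360 364)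
 (.a 1 [359] (.d 364 360 360 361 365)
 (.a 1 [360] (.d 298 1290 266 1322 426)
 .e))))
 .e))))
 .e)))
 .e))))
 .e)))) (by decide +kernel)

theorem b0_3441 : S (PX [399] [333,366,432,498]) := S.of (.q 397 (.a 1 [] (.d 395 393 393 394 398)
 (.a 1 [393] (.d 398 394 395 396 400)
 (.a 0 [395,398] (.q 330 (.a 1 [] (.d 297 2312 264 2345 429)
 (.a 1 [264] (.d 429 2345 297 2378 462)
 (.a 0 [297,429] (.q 362 (.a 1 [] (.d 298 1290 266 1322 426)
 (.a 1 [266] (.d 426 1322 298 1354 458)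
 (.a 0 [298,426] (.q 364 (.a 1 [] (.d 361 360 360 361 365)
 (.a 0 [360,361,365] (.q 332 (.a 1 [] (.d 300 1292 268 1324 428)
 (.a 1 [268] (.d 428 1324 300 1356 460)
 (.a 1 [300] (.d 301 3342 270 3373 425)
 .e))))
 .e)))
 .e))))
 .e))))
 .e)))) (by decide +kernel)

theorem b0_3442 : S (PX [399] [335,366,432,498]) := S.of (.q 397 (.a 1 [] (.d 395 393 393 394 398)
 (.a 1 [393] (.d 398 394 395 396 400)
 (.a 0 [395,398] (.q 332 (.a 1 [] (.d 301 3342 270 3373 425)
 (.a 1 [270] (.d 425 3373 301 3404 456)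
 (.a 0 [301,425] (.q 364 (.a 1 [] (.d 300 1292 268 1324 428)
 (.a 1 [268] (.d 428 1324 300 1356 460)
 (.a 0 [300,428] (.q 430 (.a 1 [] (.d 331 2346 298 2379 463)
 (.a 1 [298] (.d 463 2379 331 2412 496)
 (.a 0 [331,463] (.q 362 (.a 1 [] (.d 361 360 360 361 365)
 (.a 0 [360,361,365] (.q 330 (.a 1 [] (.d 298 1290 266 1322 426)
 (.a 1 [266] (.d 426 1322 298 1354 458)
 (.a 1 [298] (.d 297 2312 264 2345 429)
 .e))))
 .e)))
 .e))))
 .e))))
 .e))))
 .e)))) (by decide +kernel)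

theorem b0_3443 : S (PX [399] [365,366,432,498]) := S.of (.q 395 (.a 1 [] (.d 393 392 392 393 397)
 (.a 1 [392] (.d 397 393 393 394 398)
 (.a 0 [393,397] (.q 331 (.a 1 [] (.d 299 1291 267 1323 427)
 (.a 1 [267] (.d 427 1323 299 1355 459)
 (.a 0 [299,427] (.q 332 (.a 1 [] (.d 301 3342 270 3373 425)
 (.a 1 [270] (.d 425 3373 301 3404 456)
 (.a 0 [301,425] (.q 333 (.a 1 [] (.d 330 329 329 330 334)
 (.a 1 [329] (.d 334 330 330 331 335)
 (.a 1 [334] (.r 330 329 329 (.d 429 2345 297 2378 462))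
 (.a 0 [330] (.q 364 (.a 1 [] (.d 300 1292 268 1324 428)
 (.a 1 [268] (.d 428 1324 300 1356 460)
 (.a 1 [300] (.d 302 3343 271 3374 426)
 .e))))
 .e)))))
 .e))))
 .e))))
 .e)))) (by decide +kernel)

theorem b0_3444 : S (PX [399] [366,392,432,498]) := S.of (.q 397 (.a 1 [] (.d 395 393 393 394 398)
 (.a 1 [393] (.d 398 394 395 396 400)
 (.a 0 [395,398] (.q 330 (.a 1 [] (.d 297 2312 264 2345 429)
 (.a 1 [264] (.d 429 2345 297 2378 462)
 (.a 0 [297,429] (.q 362 (.a 1 [] (.d 298 1290 266 1322 426)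
 (.a 1 [266] (.d 426 1322 298 1354 458)
 (.a 0 [298,426] (.q 364 (.a 1 [] (.d 361 360 360 361 365)
 (.a 0 [360,361,365] (.q 332 (.a 1 [] (.d 300 1292 268 1324 428)
 (.a 1 [268] (.d 428 1324 300 1356 460)
 (.a 1 [300] (.d 301 3342 270 3373 425)
 .e))))
 .e)))
 .e))))
 .e))))
 .e)))) (by decide +kernel)

theorem b0_3445 : S (PX [399] [366,425,432,498]) := S.of (.q 395 (.a 1 [] (.d 393 392 392 393 397)
 (.a 1 [392] (.d 397 393 393 394 398)
 (.a 0 [393,397] (.q 331 (.a 1 [] (.d 299 1291 267 1323 427)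
 (.a 1 [267] (.d 427 1323 299 1355 459)
 (.a 0 [299,427] (.q 330 (.a 1 [] (.d 297 2312 264 2345 429)
 (.a 1 [264] (.d 429 2345 297 2378 462)
 (.a 0 [297] (.q 329 (.a 1 [] (.d 328 327 327 328 332)
 (.a 1 [327] (.d 332 328 328 329 333)
 (.a 0 [328,332] (.q 362 (.a 1 [] (.d 298 1290 266 1322 426)
 (.a 1 [266] (.d 426 1322 298 1354 458)
 (.a 1 [298] (.d 296 2311 263 2344 428)
 .e))))
 .e))))
 (.a 0 [429] (.q 426 (.a 1 [] (.d 362 1322 298 1354 458)
 (.a 0 [298,362,458] (.q 333 (.a 1 [] (.d 332 329 329 330 334)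
 (.a 1 [329] (.d 364 3374 302 3405 457)
 .e)))
 .e)))
 .e)))))
 .e))))
 .e)))) (by decide +kernel)

theorem b0_3446 : S (PX [399] [366,428,432,498]) := S.of (.q 397 (.a 1 [] (.d 395 393 393 394 398)
 (.a 1 [393] (.d 398 394 395 396 400)
 (.a 0 [395] (.q 429 (.a 1 [] (.d 330 2345 297 2378 462)
 (.a 1 [297] (.d 462 2378 330 2411 495)
 (.a 0 [330,462] (.q 365 (.a 1 [] (.d 333 1325 301 1357 461)
 (.a 1 [301] (.d 461 1357 333 1389 493)
 (.a 1 [461] (.r 301 1325 333 (.d 332 3342 270 3373 425))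
 (.a 0 [333] (.q 332 (.a 1 [] (.d 301 3342 270 3373 425)
 (.a 1 [270] (.d 425 3373 301 3404 456)
 (.a 1 [301] (.r 398 396 400 (.d 431 2347 299 2380 464))
 .e))))
 .e)))))
 .e))))
 (.a 0 [398] (.r 395 393 393 (.q 427 (.a 1 [] (.d 331 1323 299 1355 459)
 (.a 1 [299] (.d 459 1355 331 1387 491)
 (.a 0 [331,459] (.q 458 (.a 1 [] (.d 365 3406 334 3437 489)
 (.a 1 [334] (.d 489 3437 365 3468 520)
 (.a 0 [365,489] (.q 361 (.a 1 [] (.d 328 2343 295 2376 460)
 (.a 1 [295] (.d 460 2376 328 2409 493)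
 (.a 0 [328,460] (.q 330 (.a 1 [] (.d 297 2312 264 2345 429)
 (.a 1 [264] (.d 429 2345 297 2378 462)
 (.a 1 [297] (.r 362 1354 426 (.d 360 359 359 360 364))
 .e))))
 .e))))
 .e))))
 .e)))))
 .e))))) (by decide +kernel)

theorem b0_3447 : S (PX [399] [366,432,490,498]) := S.of (.q 397 (.a 1 [] (.d 395 393 393 394 398)
 (.a 1 [393] (.d 398 394 395 396 400)
 (.a 0 [395,398] (.q 332 (.a 1 [] (.d 301 3342 270 3373 425)
 (.a 1 [270] (.d 425 3373 301 3404 456)
 (.a 0 [301,425] (.q 364 (.a 1 [] (.d 300 1292 268 1324 428)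
 (.a 1 [268] (.d 428 1324 300 1356 460)
 (.a 0 [300,428] (.q 430 (.a 1 [] (.d 331 2346 298 2379 463)
 (.a 1 [298] (.d 463 2379 331 2412 496)
 (.a 0 [331,463] (.q 362 (.a 1 [] (.d 361 360 360 361 365)
 (.a 0 [360,361,365] (.q 330 (.a 1 [] (.d 298 1290 266 1322 426)
 (.a 1 [266] (.d 426 1322 298 1354 458)
 (.a 1 [298] (.d 297 2312 264 2345 429)
 .e))))
 .e)))
 .e))))
 .e))))
 .e))))
 .e)))) (by decide +kernel)

theorem b0_3823 : S (PX [432] [330,366,465,498]) := S.of (.q 332 (.a 1 [] (.d 301 3342 270 3373 425)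
 (.a 1 [270] (.d 425 3373 301 3404 456)
 (.a 0 [301,425] (.q 364 (.a 1 [] (.d 300 1292 268 1324 428)
 (.a 1 [268] (.d 428 1324 300 1356 460)
 (.a 0 [300,428] (.q 361 (.a 1 [] (.d 362 360 360 361 365)
 (.a 0 [360,362,365] (.q 427 (.a 1 [] (.d 328 2343 295 2376 460)
 (.a 1 [295] (.d 460 2376 328 2409 493)
 (.a 0 [328,460] (.q 395 (.a 1 [] (.d 393 392 392 393 397)
 (.a 1 [392] (.d 397 393 393 394 398)
 (.a 1 [393] (.d 331 1323 299 1355 459)
 .e))))
 .e))))
 .e)))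
 .e))))
 .e)))) (by decide +kernel)

theorem b0_3824 : S (PX [432] [332,366,465,498]) := S.of (.q 395 (.a 1 [] (.d 393 392 392 393 397)
 (.a 1 [392] (.d 397 393 393 394 398)
 (.a 0 [393,397] (.q 330 (.a 1 [] (.d 297 2312 264 2345 429)
 (.a 1 [264] (.d 429 2345 297 2378 462)
 (.a 0 [297,429] (.q 299 (.a 1 [] (.d 331 1291 267 1323 427)
 (.a 0 [267,331,427] (.q 361 (.a 1 [] (.d 268 3309 237 3340 392)
 (.a 1 [237] (.d 392 3340 268 3371 423)
 (.a 0 [268,392] (.q 362 (.a 1 [] (.d 360 359 359 360 364)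
 (.a 1 [359] (.d 364 360 360 361 365)
 (.a 1 [360] (.d 298 1290 266 1322 426)
 .e))))
 .e))))
 .e)))
 .e))))
 .e)))) (by decide +kernel)

theorem b0_3825 : S (PX [432] [335,366,465,498]) := S.of (.q 332 (.a 1 [] (.d 301 3342 270 3373 425)
 (.a 1 [270] (.d 425 3373 301 3404 456)
 (.a 0 [301,425] (.q 429 (.a 1 [] (.d 330 2345 297 2378 462)
 (.a 1 [297] (.d 462 2378 330 2411 495)
 (.a 0 [330,462] (.q 428 (.a 1 [] (.d 364 1324 300 1356 460)
 (.a 1 [300] (.r 460 1356 364 (.r 430 428 431 (.r 427 426 426 (.d 361 2376 328 2409 493))))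
 (.a 0 [364,460] (.q 395 (.a 1 [] (.d 393 392 392 393 397)
 (.a 1 [392] (.d 397 393 393 394 398)
 (.a 1 [393] (.r 430 428 431 (.r 427 426 426 (.d 331 1323 299 1355 459)))
 .e))))
 .e))))
 .e))))
 .e)))) (by decide +kernel)

theorem b0_3826 : S (PX [432] [365,366,465,498]) := S.of (.q 395 (.a 1 [] (.d 393 392 392 393 397)
 (.a 1 [392] (.d 397 393 393 394 398)
 (.a 0 [393,397] (.q 331 (.a 1 [] (.d 299 1291 267 1323 427)
 (.a 1 [267] (.d 427 1323 299 1355 459)
 (.a 0 [299,427] (.q 332 (.a 1 [] (.d 301 3342 270 3373 425)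
 (.a 1 [270] (.d 425 3373 301 3404 456)
 (.a 0 [301,425] (.q 333 (.a 1 [] (.d 330 329 329 330 334)
 (.a 1 [329] (.d 334 330 330 331 335)
 (.a 1 [334] (.r 330 329 329 (.d 429 2345 297 2378 462))
 (.a 0 [330] (.q 364 (.a 1 [] (.d 300 1292 268 1324 428)
 (.a 1 [268] (.d 428 1324 300 1356 460)
 (.a 1 [300] (.d 302 3343 271 3374 426)
 .e))))
 .e)))))
 .e))))
 .e))))
 .e)))) (by decide +kernel)

theorem b0_3827 : S (PX [432] [366,425,465,498]) := S.of (.q 395 (.a 1 [] (.d 393 392 392 393 397)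
 (.a 1 [392] (.d 397 393 393 394 398)
 (.a 0 [393,397] (.q 331 (.a 1 [] (.d 299 1291 267 1323 427)
 (.a 1 [267] (.d 427 1323 299 1355 459)
 (.a 0 [299,427] (.q 330 (.a 1 [] (.d 297 2312 264 2345 429)
 (.a 1 [264] (.d 429 2345 297 2378 462)
 (.a 0 [297] (.q 329 (.a 1 [] (.d 328 327 327 328 332)
 (.a 1 [327] (.d 332 328 328 329 333)
 (.a 0 [328,332] (.q 362 (.a 1 [] (.d 298 1290 266 1322 426)
 (.a 1 [266] (.d 426 1322 298 1354 458)
 (.a 1 [298] (.d 296 2311 263 2344 428)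
 .e))))
 .e))))
 (.a 0 [429] (.q 426 (.a 1 [] (.d 362 1322 298 1354 458)
 (.a 0 [298,362,458] (.q 333 (.a 1 [] (.d 332 329 329 330 334)
 (.a 1 [329] (.d 364 3374 302 3405 457)
 .e)))
 .e)))
 .e)))))
 .e))))
 .e)))) (by decide +kernel)

theorem b0_3828 : S (PX [432] [366,428,465,498]) := S.of (.q 330 (.a 1 [] (.d 297 2312 264 2345 429)
 (.a 1 [264] (.d 429 2345 297 2378 462)
 (.a 0 [297] (.q 362 (.a 1 [] (.d 298 1290 266 1322 426)
 (.a 1 [266] (.d 426 1322 298 1354 458)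
 (.a 0 [298,426] (.q 361 (.a 1 [] (.d 360 359 359 360 364)
 (.a 1 [359] (.d 364 360 360 361 365)
 (.a 0 [360,364] (.q 427 (.a 1 [] (.d 328 2343 295 2376 460)
 (.a 1 [295] (.d 460 2376 328 2409 493)
 (.a 0 [328,460] (.q 395 (.a 1 [] (.d 393 392 392 393 397)
 (.a 1 [392] (.d 397 393 393 394 398)
 (.a 1 [393] (.d 331 1323 299 1355 459)
 .e))))
 .e))))
 .e))))
 .e))))
 (.a 0 [429] (.q 332 (.a 1 [] (.d 301 3342 270 3373 425)
 (.a 1 [270] (.d 425 3373 301 3404 456)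
 (.a 0 [301,425] (.q 426 (.a 1 [] (.d 362 1322 298 1354 458)
 (.a 0 [298,362,458] (.q 333 (.a 1 [] (.d 331 329 329 330 334)
 (.a 0 [329,331,334] (.q 395 (.a 1 [] (.d 393 392 392 393 397)
 (.a 1 [392] (.d 397 393 393 394 398)
 (.a 1 [393] (.d 364 3374 302 3405 457)
 .e))))
 .e)))
 .e)))
 .e))))
 .e))))) (by decide +kernel)

theorem b0_3829 : S (PX [432] [366,465,490,498]) := S.of (.q 330 (.a 1 [] (.d 297 2312 264 2345 429)
 (.a 1 [264] (.d 429 2345 297 2378 462)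
 (.a 0 [297,429] (.q 362 (.a 1 [] (.d 298 1290 266 1322 426)
 (.a 1 [266] (.d 426 1322 298 1354 458)
 (.a 0 [298,426] (.q 361 (.a 1 [] (.d 360 359 359 360 364)
 (.a 1 [359] (.d 364 360 360 361 365)
 (.a 0 [360,364] (.q 427 (.a 1 [] (.d 328 2343 295 2376 460)
 (.a 1 [295] (.d 460 2376 328 2409 493)
 (.a 0 [328,460] (.q 395 (.a 1 [] (.d 393 392 392 393 397)
 (.a 1 [392] (.d 397 393 393 394 398)
 (.a 1 [393] (.d 331 1323 299 1355 459)
 .e))))
 .e))))
 .e))))
 .e))))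
 .e)))) (by decide +kernel)

theorem b0_3830 : S (PX [] [366,490,498]) := S.of (.q 330 (.a 1 [] (.d 297 2312 264 2345 429)
 (.a 1 [264] (.d 429 2345 297 2378 462)
 (.a 0 [297,429] (.q 362 (.a 1 [] (.d 298 1290 266 1322 426)
 (.a 1 [266] (.d 426 1322 298 1354 458)
 (.a 0 [298,426] (.q 361 (.a 1 [] (.d 360 359 359 360 364)
 (.a 1 [359] (.d 364 360 360 361 365)
 (.a 0 [360,364] (.q 427 (.a 1 [] (.d 328 2343 295 2376 460)
 (.a 1 [295] (.d 460 2376 328 2409 493)
 (.a 0 [328,460] (.q 395 (.a 1 [] (.d 393 392 392 393 397)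
 (.a 1 [392] (.d 397 393 393 394 398)
 (.a 1 [393] (.d 331 1323 299 1355 459)
 .e))))
 .e))))
 .e))))
 .e))))
 .e)))) (by decide +kernel)

theorem b0_3831 : S (PX [] [399,400,498]) := S.of (.q 330 (.a 1 [] (.d 297 2312 264 2345 429)
 (.a 1 [264] (.d 429 2345 297 2378 462)
 (.a 0 [297,429] (.q 362 (.a 1 [] (.d 298 1290 266 1322 426)
 (.a 1 [266] (.d 426 1322 298 1354 458)
 (.a 0 [298,426] (.q 361 (.a 1 [] (.d 360 359 359 360 364)
 (.a 1 [359] (.d 364 360 360 361 365)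
 (.a 0 [360,364] (.q 427 (.a 1 [] (.d 328 2343 295 2376 460)
 (.a 1 [295] (.d 460 2376 328 2409 493)
 (.a 0 [328,460] (.q 395 (.a 1 [] (.d 393 392 392 393 397)
 (.a 1 [392] (.d 397 393 393 394 398)
 (.a 1 [393] (.d 331 1323 299 1355 459)
 .e))))
 .e))))
 .e))))
 .e))))
 .e)))) (by decide +kernel)

theorem b0_3871 : S (PX [366] [333,399,432,498]) := S.of (.q 332 (.a 1 [] (.d 301 3342 270 3373 425)
 (.a 1 [301] (.q 364 (.a 1 [] (.d 365 362 362 363 367)
 (.a 1 [531] (.q 465 (.a 1 [] (.d 300 1292 268 1324 428)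
 (.a 1 [268] (.d 428 1324 300 1356 460)
 (.a 1 [300] (.d 365 362 362 363 367)
 .e))))
 (.a 1 [465] (.q 531 (.a 1 [] (.d 365 362 362 363 367)
 (.a 1 [365] (.d 300 1292 268 1324 428)
 .e)))
 (.a 1 [365] (.d 300 1292 268 1324 428)
 .e)))))
 (.a 1 [531] (.q 465 (.a 1 [] (.d 425 3373 301 3404 456)
 (.a 1 [301] (.q 364 (.a 1 [] (.d 365 362 362 363 367)
 (.a 1 [362] (.d 428 1324 300 1356 460)
 .e)))
 .e)))
 (.a 1 [465] (.q 531 (.a 1 [] (.d 425 3373 301 3404 456)
 (.a 1 [301] (.q 364 (.a 1 [] (.d 365 362 362 363 367)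
 (.a 1 [362] (.d 428 1324 300 1356 460)
 .e)))
 .e)))
 (.a 1 [270] (.d 425 3373 301 3404 456)
 .e)))))) (by decide +kernel)

theorem b0_3872 : S (PX [366] [399,400,432,498]) := S.of (.q 332 (.a 1 [] (.d 301 3342 270 3373 425)
 (.a 1 [301] (.q 364 (.a 1 [] (.d 365 362 362 363 367)
 (.a 1 [531] (.q 465 (.a 1 [] (.d 300 1292 268 1324 428)
 (.a 1 [268] (.d 428 1324 300 1356 460)
 (.a 1 [300] (.d 365 362 362 363 367)
 .e))))
 (.a 1 [465] (.q 531 (.a 1 [] (.d 365 362 362 363 367)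
 (.a 1 [365] (.d 300 1292 268 1324 428)
 .e)))
 (.a 1 [365] (.d 300 1292 268 1324 428)
 .e)))))
 (.a 1 [531] (.q 465 (.a 1 [] (.d 425 3373 301 3404 456)
 (.a 1 [301] (.q 364 (.a 1 [] (.d 365 362 362 363 367)
 (.a 1 [362] (.d 428 1324 300 1356 460)
 .e)))
 .e)))
 (.a 1 [465] (.q 531 (.a 1 [] (.d 425 3373 301 3404 456)
 (.a 1 [301] (.q 364 (.a 1 [] (.d 365 362 362 363 367)
 (.a 1 [362] (.d 428 1324 300 1356 460)
 .e)))
 .e)))
 (.a 1 [270] (.d 425 3373 301 3404 456)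
 .e)))))) (by decide +kernel)

theorem b0_3873 : S (PX [366] [399,428,432,498]) := S.of (.q 365 (.a 1 [] (.d 364 362 362 363 367)
 (.a 0 [364] (.q 429 (.a 1 [] (.d 330 2345 297 2378 462)
 (.a 1 [330] (.q 531 (.a 1 [] (.q 397 (.a 1 [] (.d 395 393 393 394 398)
 (.a 1 [393] (.d 461 1357 333 1389 493)
 .e)))
 (.a 1 [397] (.q 334 (.a 1 [] (.d 303 3344 272 3375 427)
 (.a 1 [272] (.d 427 3375 303 3406 458)
 (.a 1 [303] (.r 462 2411 495 (.r 398 1358 430 (.r 270 1294 302 (.r 332 3342 301 (.d 299 2314 266 2347 431)))))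
 .e))))
 (.a 1 [395] (.q 334 (.a 1 [] (.d 303 3344 272 3375 427)
 (.a 1 [272] (.d 427 3375 303 3406 458)
 (.a 1 [303] (.r 462 2411 495 (.r 398 1358 430 (.r 270 1294 302 (.r 332 3342 301 (.d 299 2314 266 2347 431)))))
 .e))))
 (.a 1 [398] (.q 397 (.a 1 [] (.d 333 1325 301 1357 461)
 (.a 1 [301] (.d 461 1357 333 1389 493)
 (.a 1 [461] (.r 301 1325 333 (.d 332 3342 270 3373 425))
 (.a 0 [333] (.q 427 (.a 1 [] (.d 334 3375 303 3406 458)
 (.a 1 [303] (.d 458 3406 334 3437 489)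
 (.a 1 [334] (.r 395 393 393 (.d 459 1355 331 1387 491))
 .e))))
 .e)))))
 (.a 1 [333] (.q 334 (.a 1 [] (.d 303 3344 272 3375 427)
 (.a 1 [272] (.d 427 3375 303 3406 458)
 (.a 1 [303] (.r 462 2411 495 (.r 398 1358 430 (.r 395 394 397 (.r 427 3406 458 (.d 459 1355 331 1387 491)))))
 (.a 1 [427] (.r 462 2411 495 (.r 398 1358 430 (.r 395 394 397 (.r 270 1294 302 (.r 332 3342 301 (.d 299 2314 266 2347 431))))))
 .e)))))
 (.a 1 [461] (.q 334 (.a 1 [] (.d 303 3344 272 3375 427)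
 (.a 1 [272] (.d 427 3375 303 3406 458)
 (.a 1 [303] (.r 462 2411 495 (.r 398 1358 430 (.r 395 394 397 (.r 427 3406 458 (.d 459 1355 331 1387 491)))))
 (.a 1 [427] (.r 462 2411 495 (.r 398 1358 430 (.r 395 394 397 (.r 270 1294 302 (.r 332 3342 301 (.d 299 2314 266 2347 431))))))
 .e)))))
 .e)))))))
 (.a 1 [462] (.q 465 (.a 1 [] (.q 397 (.a 1 [] (.d 395 393 393 394 398)
 (.a 1 [393] (.d 461 1357 333 1389 493)
 .e)))
 (.a 1 [397] (.q 427 (.a 1 [] (.d 334 3375 303 3406 458)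
 (.a 1 [303] (.d 458 3406 334 3437 489)
 (.a 0 [334,458] (.q 460 (.a 1 [] (.d 361 2376 328 2409 493)
 (.a 1 [328] (.d 493 2409 361 2442 526)
 (.a 0 [361,493] (.q 398 (.a 1 [] (.d 367 3408 336 3439 491)
 (.a 1 [336] (.d 491 3439 367 3470 522)
 (.a 1 [367] (.r 491 3470 522 (.r 395 1387 459 (.r 299 1323 331 (.d 332 2314 266 2347 431))))
 (.a 0 [491] (.q 332 (.a 1 [] (.d 299 2314 266 2347 431)
 (.a 1 [266] (.d 425 3373 301 3404 456)
 .e)))
 .e)))))
 .e))))
 .e))))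
 (.a 1 [395] (.q 427 (.a 1 [] (.d 334 3375 303 3406 458)
 (.a 1 [303] (.d 458 3406 334 3437 489)
 (.a 0 [334,458] (.q 397 (.a 1 [] (.d 333 1325 301 1357 461)
 (.a 1 [301] (.d 461 1357 333 1389 493)
 (.a 1 [333] (.r 493 1389 461 (.d 460 2409 361 2442 526))
 (.a 1 [461] (.r 301 1325 333 (.d 332 3342 270 3373 425))
 .e)))))
 .e))))
 (.a 1 [333] (.q 395 (.a 1 [] (.d 393 392 392 393 397)
 (.a 1 [392] (.d 397 393 393 394 398)
 (.a 0 [393,397] (.q 427 (.a 1 [] (.d 331 1323 299 1355 459)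
 (.a 1 [299] (.d 459 1355 331 1387 491)
 (.a 1 [331] (.d 334 3375 303 3406 458)
 .e))))
 .e))))
 .e)))))
 (.a 1 [531] (.q 465 (.a 1 [] (.d 330 2345 297 2378 462)
 (.a 1 [462] (.q 397 (.a 1 [] (.d 395 393 393 394 398)
 (.a 1 [393] (.d 461 1357 333 1389 493)
 .e)))
 .e)))
 (.a 1 [465] (.q 531 (.a 1 [] (.d 462 2378 330 2411 495)
 (.a 1 [330] (.q 397 (.a 1 [] (.d 395 393 393 394 398)
 (.a 1 [393] (.d 461 1357 333 1389 493)
 .e)))
 .e)))
 (.a 1 [297] (.d 462 2378 330 2411 495)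
 .e)))))))
 (.a 1 [367] (.r 362 362 364 (.q 330 (.a 1 [] (.d 298 1290 266 1322 426)
 (.a 1 [531] (.q 465 (.a 1 [] (.d 298 1290 266 1322 426)
 (.a 1 [426] (.d 297 2312 264 2345 429)
 .e)))
 (.a 1 [465] (.q 531 (.a 1 [] (.d 298 1290 266 1322 426)
 (.a 1 [426] (.d 429 2345 297 2378 462)
 .e)))
 (.a 1 [426] (.d 297 2312 264 2345 429)
 .e))))))
 (.a 0 [362] (.r 367 363 364 (.q 429 (.a 1 [] (.d 330 2345 297 2378 462)
 (.a 1 [462] (.q 398 (.a 1 [] (.d 336 3377 305 3408 460)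
 (.a 1 [465] (.q 531 (.a 1 [] (.d 336 3377 305 3408 460)
 (.a 1 [460] (.r 397 394 395 (.d 461 1357 333 1389 493))
 .e)))
 (.a 1 [531] (.q 465 (.a 1 [] (.d 336 3377 305 3408 460)
 (.a 1 [460] (.r 397 394 395 (.d 461 1357 333 1389 493))
 .e)))
 (.a 1 [460] (.r 397 394 395 (.d 461 1357 333 1389 493))
 .e)))))
 (.a 1 [330] (.q 398 (.a 1 [] (.d 336 3377 305 3408 460)
 (.a 1 [531] (.q 465 (.a 1 [] (.d 336 3377 305 3408 460)
 (.a 1 [460] (.r 397 394 395 (.d 461 1357 333 1389 493))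
 .e)))
 (.a 1 [465] (.q 531 (.a 1 [] (.d 336 3377 305 3408 460)
 (.a 1 [460] (.r 397 394 395 (.d 461 1357 333 1389 493))
 .e)))
 (.a 1 [460] (.r 397 394 395 (.d 461 1357 333 1389 493))
 .e)))))
 (.a 1 [531] (.q 465 (.a 1 [] (.d 330 2345 297 2378 462)
 (.a 1 [462] (.q 397 (.a 1 [] (.d 395 393 393 394 398)
 (.a 1 [393] (.d 461 1357 333 1389 493)
 .e)))
 .e)))
 (.a 1 [465] (.q 531 (.a 1 [] (.d 330 2345 297 2378 462)
 (.a 1 [462] (.q 397 (.a 1 [] (.d 395 393 393 394 398)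
 (.a 1 [393] (.d 461 1357 333 1389 493)
 .e)))
 .e)))
 .e)))))))
 (.a 1 [531] (.q 465 (.a 1 [] (.d 364 362 362 363 367)
 (.a 1 [364] (.q 427 (.a 1 [] (.d 334 3375 303 3406 458)
 (.a 1 [303] (.d 458 3406 334 3437 489)
 (.a 0 [334,458] (.q 395 (.a 1 [] (.d 393 392 392 393 397)
 (.a 1 [392] (.d 397 393 393 394 398)
 (.a 1 [393] (.d 331 1323 299 1355 459)
 .e))))
 .e))))
 (.a 1 [367] (.q 330 (.a 1 [] (.d 297 2312 264 2345 429)
 (.a 1 [264] (.d 429 2345 297 2378 462)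
 (.a 1 [297] (.r 362 362 364 (.d 426 1322 298 1354 458))
 .e))))
 .e))))
 (.a 1 [465] (.q 531 (.a 1 [] (.d 364 362 362 363 367)
 (.a 1 [364] (.q 427 (.a 1 [] (.d 334 3375 303 3406 458)
 (.a 1 [303] (.d 458 3406 334 3437 489)
 (.a 0 [334,458] (.q 395 (.a 1 [] (.d 393 392 392 393 397)
 (.a 1 [392] (.d 397 393 393 394 398)
 (.a 1 [393] (.d 331 1323 299 1355 459)
 .e))))
 .e))))
 (.a 1 [367] (.q 330 (.a 1 [] (.d 297 2312 264 2345 429)
 (.a 1 [264] (.d 429 2345 297 2378 462)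
 (.a 1 [297] (.r 362 362 364 (.d 426 1322 298 1354 458))
 .e))))
 .e))))
 .e))))))) (by decide +kernel)

theorem b0_3874 : S (PX [366] [399,432,461,498]) := S.of (.q 332 (.a 1 [] (.d 301 3342 270 3373 425)
 (.a 1 [301] (.q 364 (.a 1 [] (.d 365 362 362 363 367)
 (.a 1 [465] (.q 531 (.a 1 [] (.d 300 1292 268 1324 428)
 (.a 1 [268] (.d 428 1324 300 1356 460)
 (.a 1 [300] (.d 365 362 362 363 367)
 .e))))
 (.a 1 [531] (.q 465 (.a 1 [] (.d 365 362 362 363 367)
 (.a 1 [365] (.d 300 1292 268 1324 428)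
 .e)))
 (.a 1 [365] (.d 300 1292 268 1324 428)
 .e)))))
 (.a 1 [465] (.q 531 (.a 1 [] (.d 425 3373 301 3404 456)
 (.a 1 [301] (.q 364 (.a 1 [] (.d 365 362 362 363 367)
 (.a 1 [362] (.d 428 1324 300 1356 460)
 .e)))
 .e)))
 (.a 1 [531] (.q 465 (.a 1 [] (.d 425 3373 301 3404 456)
 (.a 1 [301] (.q 364 (.a 1 [] (.d 365 362 362 363 367)
 (.a 1 [362] (.d 428 1324 300 1356 460)
 .e)))
 .e)))
 (.a 1 [270] (.d 425 3373 301 3404 456)
 .e)))))) (by decide +kernel)

theorem b0_3875 : S (PX [366,531] [399,400,432,465,498]) := S.of (.q 330 (.a 1 [] (.d 297 2312 264 2345 429)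
 (.a 1 [264] (.d 429 2345 297 2378 462)
 (.a 0 [297,429] (.q 362 (.a 1 [] (.d 298 1290 266 1322 426)
 (.a 1 [266] (.d 426 1322 298 1354 458)
 (.a 0 [298,426] (.q 332 (.a 1 [] (.d 301 3342 270 3373 425)
 (.a 1 [270] (.d 425 3373 301 3404 456)
 (.a 1 [301] (.r 364 362 365 (.d 428 1324 300 1356 460))
 .e))))
 .e))))
 .e)))) (by decide +kernel)

theorem b0_3876 : S (PX [366,531] [399,428,432,465,498]) := S.of (.q 395 (.a 1 [] (.d 393 392 392 393 397)
 (.a 1 [392] (.d 397 393 393 394 398)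
 (.a 0 [393,397] (.q 429 (.a 1 [] (.d 330 2345 297 2378 462)
 (.a 1 [297] (.d 462 2378 330 2411 495)
 (.a 0 [330,462] (.q 332 (.a 1 [] (.d 301 3342 270 3373 425)
 (.a 1 [270] (.d 425 3373 301 3404 456)
 (.a 0 [301,425] (.q 365 (.a 1 [] (.d 364 362 362 363 367)
 (.a 0 [362,364,367] (.q 427 (.a 1 [] (.d 331 1323 299 1355 459)
 (.a 1 [299] (.d 459 1355 331 1387 491)
 (.a 1 [331] (.d 334 3375 303 3406 458)
 .e))))
 .e)))
 .e))))
 .e))))
 .e)))) (by decide +kernel)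

theorem b0_3877 : S (PX [366,465] [399,400,432,498,531]) := S.of (.q 330 (.a 1 [] (.d 297 2312 264 2345 429)
 (.a 1 [264] (.d 429 2345 297 2378 462)
 (.a 0 [297,429] (.q 362 (.a 1 [] (.d 298 1290 266 1322 426)
 (.a 1 [266] (.d 426 1322 298 1354 458)
 (.a 0 [298,426] (.q 332 (.a 1 [] (.d 301 3342 270 3373 425)
 (.a 1 [270] (.d 425 3373 301 3404 456)
 (.a 1 [301] (.r 364 362 365 (.d 428 1324 300 1356 460))
 .e))))
 .e))))
 .e)))) (by decide +kernel)

theorem b0_3941 : S (PX [366,531] [399,400,465,498,597]) := S.of (.q 330 (.a 1 [] (.d 297 2312 264 2345 429)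
 (.a 1 [264] (.d 429 2345 297 2378 462)
 (.a 0 [297,429] (.q 362 (.a 1 [] (.d 298 1290 266 1322 426)
 (.a 1 [266] (.d 426 1322 298 1354 458)
 (.a 0 [298,426] (.q 332 (.a 1 [] (.d 301 3342 270 3373 425)
 (.a 1 [270] (.d 425 3373 301 3404 456)
 (.a 1 [301] (.r 364 362 365 (.d 428 1324 300 1356 460))
 .e))))
 .e))))
 .e)))) (by decide +kernel)

theorem b0_3959 : S (PX [432] [399,400,465,498]) := S.of (.q 330 (.a 1 [] (.d 297 2312 264 2345 429)
 (.a 1 [264] (.d 429 2345 297 2378 462)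
 (.a 0 [297,429] (.q 362 (.a 1 [] (.d 298 1290 266 1322 426)
 (.a 1 [266] (.d 426 1322 298 1354 458)
 (.a 0 [298,426] (.q 361 (.a 1 [] (.d 360 359 359 360 364)
 (.a 1 [359] (.d 364 360 360 361 365)
 (.a 0 [360,364] (.q 427 (.a 1 [] (.d 328 2343 295 2376 460)
 (.a 1 [295] (.d 460 2376 328 2409 493)
 (.a 0 [328,460] (.q 395 (.a 1 [] (.d 393 392 392 393 397)
 (.a 1 [392] (.d 397 393 393 394 398)
 (.a 1 [393] (.d 331 1323 299 1355 459)
 .e))))
 .e))))
 .e))))
 .e))))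
 .e)))) (by decide +kernel)

theorem b0_3960 : S (PX [399] [428,432,465,498]) := S.of (.q 429 (.a 1 [] (.d 330 2345 297 2378 462)
 (.a 0 [330] (.r 495 2411 462 (.q 397 (.a 1 [] (.d 395 393 393 394 398)
 (.a 0 [395] (.r 398 396 400 (.q 365 (.a 1 [] (.d 333 1325 301 1357 461)
 (.a 1 [333] (.q 332 (.a 1 [] (.d 299 2314 266 2347 431)
 (.a 1 [531] (.q 564 (.a 1 [] (.d 299 2314 266 2347 431)
 (.a 1 [431] (.d 301 3342 270 3373 425)
 .e)))
 (.a 1 [564] (.q 531 (.a 1 [] (.d 299 2314 266 2347 431)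
 (.a 1 [431] (.d 425 3373 301 3404 456)
 .e)))
 (.a 1 [431] (.d 301 3342 270 3373 425)
 .e)))))
 (.a 1 [531] (.q 564 (.a 1 [] (.d 461 1357 333 1389 493)
 (.a 1 [461] (.r 301 1325 333 (.d 332 3342 270 3373 425))
 (.a 1 [333] (.q 332 (.a 1 [] (.d 299 2314 266 2347 431)
 (.a 1 [266] (.d 431 2347 299 2380 464)
 (.a 1 [299] (.d 301 3342 270 3373 425)
 .e))))
 .e))))
 (.a 1 [564] (.q 531 (.a 1 [] (.d 461 1357 333 1389 493)
 (.a 1 [461] (.r 301 1325 333 (.d 332 3342 270 3373 425))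
 (.a 1 [333] (.q 332 (.a 1 [] (.d 299 2314 266 2347 431)
 (.a 1 [266] (.d 431 2347 299 2380 464)
 (.a 1 [299] (.d 301 3342 270 3373 425)
 .e))))
 .e))))
 (.a 1 [461] (.r 301 1325 333 (.d 332 3342 270 3373 425))
 (.a 1 [301] (.d 461 1357 333 1389 493)
 .e))))))))
 (.a 0 [398] (.q 365 (.a 1 [] (.d 333 1325 301 1357 461)
 (.a 1 [333] (.r 395 393 393 (.q 427 (.a 1 [] (.d 331 1323 299 1355 459)
 (.a 1 [531] (.q 564 (.a 1 [] (.d 334 3375 303 3406 458)
 (.a 1 [303] (.d 458 3406 334 3437 489)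
 (.a 1 [334] (.d 331 1323 299 1355 459)
 .e))))
 (.a 1 [564] (.q 531 (.a 1 [] (.d 331 1323 299 1355 459)
 (.a 1 [331] (.d 334 3375 303 3406 458)
 .e)))
 (.a 1 [331] (.d 334 3375 303 3406 458)
 .e))))))
 (.a 1 [531] (.q 564 (.a 1 [] (.d 461 1357 333 1389 493)
 (.a 1 [461] (.r 301 1325 333 (.d 332 3342 270 3373 425))
 (.a 1 [333] (.q 427 (.a 1 [] (.d 334 3375 303 3406 458)
 (.a 1 [303] (.d 458 3406 334 3437 489)
 (.a 1 [334] (.r 395 393 393 (.d 459 1355 331 1387 491))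
 .e))))
 .e))))
 (.a 1 [564] (.q 531 (.a 1 [] (.d 461 1357 333 1389 493)
 (.a 1 [461] (.r 301 1325 333 (.d 332 3342 270 3373 425))
 (.a 1 [333] (.q 427 (.a 1 [] (.d 334 3375 303 3406 458)
 (.a 1 [303] (.d 458 3406 334 3437 489)
 (.a 1 [334] (.r 395 393 393 (.d 459 1355 331 1387 491))
 .e))))
 .e))))
 (.a 1 [461] (.r 301 1325 333 (.d 332 3342 270 3373 425))
 (.a 1 [301] (.d 461 1357 333 1389 493)
 .e)))))))
 (.a 1 [531] (.q 564 (.a 1 [] (.d 398 394 395 396 400)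
 (.a 1 [395] (.q 461 (.a 1 [] (.d 365 1357 333 1389 493)
 (.a 1 [333] (.d 493 1389 365 1421 525)
 (.a 0 [365,493] (.q 430 (.a 1 [] (.d 368 3409 337 3440 492)
 (.a 1 [337] (.d 492 3440 368 3471 523)
 (.a 0 [368,492] (.q 463 (.a 1 [] (.d 431 1391 367 1423 527)
 (.a 1 [367] (.d 496 2412 364 2445 529)
 .e)))
 .e))))
 .e))))
 (.a 1 [400] (.d 395 393 393 394 398)
 .e))))
 (.a 1 [564] (.q 531 (.a 1 [] (.d 398 394 395 396 400)
 (.a 1 [395] (.q 461 (.a 1 [] (.d 365 1357 333 1389 493)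
 (.a 1 [333] (.d 493 1389 365 1421 525)
 (.a 0 [365,493] (.q 430 (.a 1 [] (.d 368 3409 337 3440 492)
 (.a 1 [337] (.d 492 3440 368 3471 523)
 (.a 0 [368,492] (.q 463 (.a 1 [] (.d 431 1391 367 1423 527)
 (.a 1 [367] (.d 496 2412 364 2445 529)
 .e)))
 .e))))
 .e))))
 (.a 1 [400] (.d 395 393 393 394 398)
 .e))))
 (.a 1 [393] (.d 398 394 395 396 400)
 .e))))))))
 (.a 0 [462] (.r 330 2345 297 (.q 395 (.a 1 [] (.d 393 392 392 393 397)
 (.a 0 [397] (.r 392 392 393 (.q 427 (.a 1 [] (.d 331 1323 299 1355 459)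
 (.a 1 [331] (.q 361 (.a 1 [] (.d 328 2343 295 2376 460)
 (.a 1 [531] (.q 564 (.a 1 [] (.d 299 3340 268 3371 423)
 (.a 1 [268] (.d 423 3371 299 3402 454)
 (.a 1 [299] (.d 328 2343 295 2376 460)
 .e))))
 (.a 1 [564] (.q 531 (.a 1 [] (.d 328 2343 295 2376 460)
 (.a 1 [328] (.d 299 3340 268 3371 423)
 .e)))
 (.a 1 [328] (.d 299 3340 268 3371 423)
 .e)))))
 (.a 1 [531] (.q 564 (.a 1 [] (.d 459 1355 331 1387 491)
 (.a 1 [459] (.r 299 1323 331 (.d 361 3340 268 3371 423))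
 (.a 1 [331] (.q 361 (.a 1 [] (.d 328 2343 295 2376 460)
 (.a 1 [295] (.d 460 2376 328 2409 493)
 (.a 1 [328] (.d 299 3340 268 3371 423)
 .e))))
 .e))))
 (.a 1 [564] (.q 531 (.a 1 [] (.d 459 1355 331 1387 491)
 (.a 1 [459] (.r 299 1323 331 (.d 361 3340 268 3371 423))
 (.a 1 [331] (.q 361 (.a 1 [] (.d 328 2343 295 2376 460)
 (.a 1 [295] (.d 460 2376 328 2409 493)
 (.a 1 [328] (.d 299 3340 268 3371 423)
 .e))))
 .e))))
 (.a 1 [459] (.r 299 1323 331 (.d 361 3340 268 3371 423))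
 (.a 1 [299] (.d 459 1355 331 1387 491)
 .e))))))))
 (.a 0 [393] (.r 397 394 398 (.q 332 (.a 1 [] (.d 301 3342 270 3373 425)
 (.a 1 [301] (.q 331 (.a 1 [] (.d 329 328 328 329 333)
 (.a 1 [531] (.q 564 (.a 1 [] (.d 329 328 328 329 333)
 (.a 1 [333] (.d 299 1291 267 1323 427)
 .e)))
 (.a 1 [564] (.q 531 (.a 1 [] (.d 329 328 328 329 333)
 (.a 1 [333] (.d 427 1323 299 1355 459)
 .e)))
 (.a 1 [333] (.d 299 1291 267 1323 427)
 .e)))))
 (.a 1 [531] (.q 564 (.a 1 [] (.d 301 3342 270 3373 425)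
 (.a 1 [301] (.q 331 (.a 1 [] (.d 329 328 328 329 333)
 (.a 1 [328] (.d 333 329 329 330 334)
 (.a 1 [329] (.d 299 1291 267 1323 427)
 .e))))
 (.a 1 [425] (.r 301 3342 270 (.r 333 1325 365 (.d 331 329 329 330 334)))
 .e))))
 (.a 1 [564] (.q 531 (.a 1 [] (.d 301 3342 270 3373 425)
 (.a 1 [301] (.q 331 (.a 1 [] (.d 329 328 328 329 333)
 (.a 1 [328] (.d 333 329 329 330 334)
 (.a 1 [329] (.d 299 1291 267 1323 427)
 .e))))
 (.a 1 [425] (.r 301 3342 270 (.r 333 1325 365 (.d 331 329 329 330 334)))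
 .e))))
 (.a 1 [425] (.r 301 3342 270 (.r 333 1325 365 (.d 331 329 329 330 334)))
 (.a 1 [270] (.d 425 3373 301 3404 456)
 .e))))))))
 (.a 1 [531] (.q 564 (.a 1 [] (.d 397 393 393 394 398)
 (.a 1 [397] (.q 299 (.a 1 [] (.d 331 1291 267 1323 427)
 (.a 1 [267] (.r 427 1323 331 (.r 392 392 393 (.d 361 3340 268 3371 423)))
 (.a 1 [331] (.r 392 392 393 (.d 361 3340 268 3371 423))
 .e))))
 (.a 1 [393] (.q 427 (.a 1 [] (.d 331 1323 299 1355 459)
 (.a 1 [299] (.d 459 1355 331 1387 491)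
 (.a 0 [331,459] (.q 460 (.a 1 [] (.d 361 2376 328 2409 493)
 (.a 1 [328] (.d 493 2409 361 2442 526)
 (.a 1 [361] (.r 398 394 397 (.d 491 3439 367 3470 522))
 .e))))
 .e))))
 .e))))
 (.a 1 [564] (.q 531 (.a 1 [] (.d 397 393 393 394 398)
 (.a 1 [397] (.q 299 (.a 1 [] (.d 331 1291 267 1323 427)
 (.a 1 [267] (.r 427 1323 331 (.r 392 392 393 (.d 361 3340 268 3371 423)))
 (.a 1 [331] (.r 392 392 393 (.d 361 3340 268 3371 423))
 .e))))
 (.a 1 [393] (.q 427 (.a 1 [] (.d 331 1323 299 1355 459)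
 (.a 1 [299] (.d 459 1355 331 1387 491)
 (.a 0 [331,459] (.q 460 (.a 1 [] (.d 361 2376 328 2409 493)
 (.a 1 [328] (.d 493 2409 361 2442 526)
 (.a 1 [361] (.r 398 394 397 (.d 491 3439 367 3470 522))
 .e))))
 .e))))
 .e))))
 (.a 1 [392] (.d 397 393 393 394 398)
 .e))))))))
 (.a 1 [531] (.q 564 (.a 1 [] (.d 462 2378 330 2411 495)
 (.a 1 [330] (.q 397 (.a 1 [] (.d 395 393 393 394 398)
 (.a 1 [393] (.d 398 394 395 396 400)
 (.a 0 [395,398] (.q 461 (.a 1 [] (.d 365 1357 333 1389 493)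
 (.a 1 [333] (.d 493 1389 365 1421 525)
 (.a 0 [365,493] (.q 332 (.a 1 [] (.d 301 3342 270 3373 425)
 (.a 1 [270] (.d 425 3373 301 3404 456)
 (.a 0 [301,425] (.q 430 (.a 1 [] (.d 368 3409 337 3440 492)
 (.a 1 [337] (.d 492 3440 368 3471 523)
 (.a 0 [368,492] (.q 463 (.a 1 [] (.d 364 2379 331 2412 496)
 (.a 1 [331] (.d 496 2412 364 2445 529)
 (.a 1 [364] (.r 495 2411 462 (.d 431 1391 367 1423 527))
 .e))))
 .e))))
 .e))))
 .e))))
 .e))))
 (.a 1 [462] (.q 395 (.a 1 [] (.d 393 392 392 393 397)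
 (.a 1 [392] (.d 397 393 393 394 398)
 (.a 0 [393,397] (.q 331 (.a 1 [] (.d 299 1291 267 1323 427)
 (.a 1 [267] (.d 427 1323 299 1355 459)
 (.a 0 [299,427] (.q 332 (.a 1 [] (.d 301 3342 270 3373 425)
 (.a 1 [270] (.d 425 3373 301 3404 456)
 (.a 1 [301] (.r 330 2345 297 (.d 333 329 329 330 334))
 .e))))
 .e))))
 .e))))
 .e))))
 (.a 1 [564] (.q 531 (.a 1 [] (.d 462 2378 330 2411 495)
 (.a 1 [330] (.q 397 (.a 1 [] (.d 395 393 393 394 398)
 (.a 1 [393] (.d 398 394 395 396 400)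
 (.a 0 [395,398] (.q 461 (.a 1 [] (.d 365 1357 333 1389 493)
 (.a 1 [333] (.d 493 1389 365 1421 525)
 (.a 0 [365,493] (.q 332 (.a 1 [] (.d 301 3342 270 3373 425)
 (.a 1 [270] (.d 425 3373 301 3404 456)
 (.a 0 [301,425] (.q 430 (.a 1 [] (.d 368 3409 337 3440 492)
 (.a 1 [337] (.d 492 3440 368 3471 523)
 (.a 0 [368,492] (.q 463 (.a 1 [] (.d 364 2379 331 2412 496)
 (.a 1 [331] (.d 496 2412 364 2445 529)
 (.a 1 [364] (.r 495 2411 462 (.d 431 1391 367 1423 527))
 .e))))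
 .e))))
 .e))))
 .e))))
 .e))))
 (.a 1 [462] (.q 395 (.a 1 [] (.d 393 392 392 393 397)
 (.a 1 [392] (.d 397 393 393 394 398)
 (.a 0 [393,397] (.q 331 (.a 1 [] (.d 299 1291 267 1323 427)
 (.a 1 [267] (.d 427 1323 299 1355 459)
 (.a 0 [299,427] (.q 332 (.a 1 [] (.d 301 3342 270 3373 425)
 (.a 1 [270] (.d 425 3373 301 3404 456)
 (.a 1 [301] (.r 330 2345 297 (.d 333 329 329 330 334))
 .e))))
 .e))))
 .e))))
 .e))))
 (.a 1 [297] (.d 462 2378 330 2411 495)
 .e))))))) (by decide +kernel)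

theorem b0_3961 : S (PX [399,564] [428,432,465,498,531]) := S.of (.q 397 (.a 1 [] (.d 395 393 393 394 398)
 (.a 1 [393] (.d 398 394 395 396 400)
 (.a 0 [395,398] (.q 429 (.a 1 [] (.d 330 2345 297 2378 462)
 (.a 1 [297] (.d 462 2378 330 2411 495)
 (.a 0 [330,462] (.q 365 (.a 1 [] (.d 333 1325 301 1357 461)
 (.a 1 [301] (.d 461 1357 333 1389 493)
 (.a 1 [461] (.r 301 1325 333 (.d 332 3342 270 3373 425))
 (.a 0 [333] (.q 427 (.a 1 [] (.d 334 3375 303 3406 458)
 (.a 1 [303] (.d 458 3406 334 3437 489)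
 (.a 1 [334] (.r 493 1389 461 (.d 460 2409 361 2442 526))
 .e))))
 .e)))))
 .e))))
 .e)))) (by decide +kernel)

theorem b0_3962 : S (PX [399,531] [428,432,465,498,564]) := S.of (.q 397 (.a 1 [] (.d 395 393 393 394 398)
 (.a 1 [393] (.d 398 394 395 396 400)
 (.a 0 [395,398] (.q 429 (.a 1 [] (.d 330 2345 297 2378 462)
 (.a 1 [297] (.d 462 2378 330 2411 495)
 (.a 0 [330,462] (.q 365 (.a 1 [] (.d 333 1325 301 1357 461)
 (.a 1 [301] (.d 461 1357 333 1389 493)
 (.a 1 [461] (.r 301 1325 333 (.d 332 3342 270 3373 425))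
 (.a 0 [333] (.q 427 (.a 1 [] (.d 334 3375 303 3406 458)
 (.a 1 [303] (.d 458 3406 334 3437 489)
 (.a 1 [334] (.r 493 1389 461 (.d 460 2409 361 2442 526))
 .e))))
 .e)))))
 .e))))
 .e)))) (by decide +kernel)

theorem b0_4176 : S (PX [432,531] [330,366,465,498,597]) := S.of (.q 332 (.a 1 [] (.d 301 3342 270 3373 425)
 (.a 1 [270] (.d 425 3373 301 3404 456)
 (.a 0 [301,425] (.q 364 (.a 1 [] (.d 300 1292 268 1324 428)
 (.a 1 [268] (.d 428 1324 300 1356 460)
 (.a 0 [300,428] (.q 361 (.a 1 [] (.d 362 360 360 361 365)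
 (.a 0 [360,362,365] (.q 427 (.a 1 [] (.d 328 2343 295 2376 460)
 (.a 1 [295] (.d 460 2376 328 2409 493)
 (.a 0 [328,460] (.q 395 (.a 1 [] (.d 393 392 392 393 397)
 (.a 1 [392] (.d 397 393 393 394 398)
 (.a 1 [393] (.d 331 1323 299 1355 459)
 .e))))
 .e))))
 .e)))
 .e))))
 .e)))) (by decide +kernel)

theorem b0_4177 : S (PX [432,531] [332,366,465,498,597]) := S.of (.q 395 (.a 1 [] (.d 393 392 392 393 397)
 (.a 1 [392] (.d 397 393 393 394 398)
 (.a 0 [393,397] (.q 330 (.a 1 [] (.d 297 2312 264 2345 429)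
 (.a 1 [264] (.d 429 2345 297 2378 462)
 (.a 0 [297,429] (.q 299 (.a 1 [] (.d 331 1291 267 1323 427)
 (.a 0 [267,331,427] (.q 361 (.a 1 [] (.d 268 3309 237 3340 392)
 (.a 1 [237] (.d 392 3340 268 3371 423)
 (.a 0 [268,392] (.q 362 (.a 1 [] (.d 360 359 359 360 364)
 (.a 1 [359] (.d 364 360 360 361 365)
 (.a 1 [360] (.d 298 1290 266 1322 426)
 .e))))
 .e))))
 .e)))
 .e))))
 .e)))) (by decide +kernel)

theorem b0_4178 : S (PX [432,531] [335,366,465,498,597]) := S.of (.q 332 (.a 1 [] (.d 301 3342 270 3373 425)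
 (.a 1 [270] (.d 425 3373 301 3404 456)
 (.a 0 [301,425] (.q 429 (.a 1 [] (.d 330 2345 297 2378 462)
 (.a 1 [297] (.d 462 2378 330 2411 495)
 (.a 0 [330,462] (.q 428 (.a 1 [] (.d 364 1324 300 1356 460)
 (.a 1 [300] (.r 460 1356 364 (.r 430 428 431 (.r 427 426 426 (.d 361 2376 328 2409 493))))
 (.a 0 [364,460] (.q 395 (.a 1 [] (.d 393 392 392 393 397)
 (.a 1 [392] (.d 397 393 393 394 398)
 (.a 1 [393] (.r 430 428 431 (.r 427 426 426 (.d 331 1323 299 1355 459)))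
 .e))))
 .e))))
 .e))))
 .e)))) (by decide +kernel)

theorem b0_4179 : S (PX [432,531] [365,366,465,498,597]) := S.of (.q 395 (.a 1 [] (.d 393 392 392 393 397)
 (.a 1 [392] (.d 397 393 393 394 398)
 (.a 0 [393,397] (.q 331 (.a 1 [] (.d 299 1291 267 1323 427)
 (.a 1 [267] (.d 427 1323 299 1355 459)
 (.a 0 [299,427] (.q 332 (.a 1 [] (.d 301 3342 270 3373 425)
 (.a 1 [270] (.d 425 3373 301 3404 456)
 (.a 0 [301,425] (.q 333 (.a 1 [] (.d 330 329 329 330 334)
 (.a 1 [329] (.d 334 330 330 331 335)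
 (.a 1 [334] (.r 330 329 329 (.d 429 2345 297 2378 462))
 (.a 0 [330] (.q 364 (.a 1 [] (.d 300 1292 268 1324 428)
 (.a 1 [268] (.d 428 1324 300 1356 460)
 (.a 1 [300] (.d 302 3343 271 3374 426)
 .e))))
 .e)))))
 .e))))
 .e))))
 .e)))) (by decide +kernel)

theorem b0_4180 : S (PX [432,531] [366,425,465,498,597]) := S.of (.q 395 (.a 1 [] (.d 393 392 392 393 397)
 (.a 1 [392] (.d 397 393 393 394 398)
 (.a 0 [393,397] (.q 331 (.a 1 [] (.d 299 1291 267 1323 427)
 (.a 1 [267] (.d 427 1323 299 1355 459)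
 (.a 0 [299,427] (.q 330 (.a 1 [] (.d 297 2312 264 2345 429)
 (.a 1 [264] (.d 429 2345 297 2378 462)
 (.a 0 [297] (.q 329 (.a 1 [] (.d 328 327 327 328 332)
 (.a 1 [327] (.d 332 328 328 329 333)
 (.a 0 [328,332] (.q 362 (.a 1 [] (.d 298 1290 266 1322 426)
 (.a 1 [266] (.d 426 1322 298 1354 458)
 (.a 1 [298] (.d 296 2311 263 2344 428)
 .e))))
 .e))))
 (.a 0 [429] (.q 426 (.a 1 [] (.d 362 1322 298 1354 458)
 (.a 0 [298,362,458] (.q 333 (.a 1 [] (.d 332 329 329 330 334)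
 (.a 1 [329] (.d 364 3374 302 3405 457)
 .e)))
 .e)))
 .e)))))
 .e))))
 .e)))) (by decide +kernel)

theorem b0_4181 : S (PX [432,531] [366,428,465,498,597]) := S.of (.q 330 (.a 1 [] (.d 297 2312 264 2345 429)
 (.a 1 [264] (.d 429 2345 297 2378 462)
 (.a 0 [297] (.q 362 (.a 1 [] (.d 298 1290 266 1322 426)
 (.a 1 [266] (.d 426 1322 298 1354 458)
 (.a 0 [298,426] (.q 361 (.a 1 [] (.d 360 359 359 360 364)
 (.a 1 [359] (.d 364 360 360 361 365)
 (.a 0 [360,364] (.q 427 (.a 1 [] (.d 328 2343 295 2376 460)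
 (.a 1 [295] (.d 460 2376 328 2409 493)
 (.a 0 [328,460] (.q 395 (.a 1 [] (.d 393 392 392 393 397)
 (.a 1 [392] (.d 397 393 393 394 398)
 (.a 1 [393] (.d 331 1323 299 1355 459)
 .e))))
 .e))))
 .e))))
 .e))))
 (.a 0 [429] (.q 332 (.a 1 [] (.d 301 3342 270 3373 425)
 (.a 1 [270] (.d 425 3373 301 3404 456)
 (.a 0 [301,425] (.q 426 (.a 1 [] (.d 362 1322 298 1354 458)
 (.a 0 [298,362,458] (.q 333 (.a 1 [] (.d 331 329 329 330 334)
 (.a 0 [329,331,334] (.q 395 (.a 1 [] (.d 393 392 392 393 397)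
 (.a 1 [392] (.d 397 393 393 394 398)
 (.a 1 [393] (.d 364 3374 302 3405 457)
 .e))))
 .e)))
 .e)))
 .e))))
 .e))))) (by decide +kernel)

theorem b0_4182 : S (PX [432,531] [366,465,490,498,597]) := S.of (.q 330 (.a 1 [] (.d 297 2312 264 2345 429)
 (.a 1 [264] (.d 429 2345 297 2378 462)
 (.a 0 [297,429] (.q 362 (.a 1 [] (.d 298 1290 266 1322 426)
 (.a 1 [266] (.d 426 1322 298 1354 458)
 (.a 0 [298,426] (.q 361 (.a 1 [] (.d 360 359 359 360 364)
 (.a 1 [359] (.d 364 360 360 361 365)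
 (.a 0 [360,364] (.q 427 (.a 1 [] (.d 328 2343 295 2376 460)
 (.a 1 [295] (.d 460 2376 328 2409 493)
 (.a 0 [328,460] (.q 395 (.a 1 [] (.d 393 392 392 393 397)
 (.a 1 [392] (.d 397 393 393 394 398)
 (.a 1 [393] (.d 331 1323 299 1355 459)
 .e))))
 .e))))
 .e))))
 .e))))
 .e)))) (by decide +kernel)

theorem b0_4184 : S (PX [366,531] [428,432,465,498,597]) := S.of (.q 395 (.a 1 [] (.d 393 392 392 393 397)
 (.a 1 [392] (.d 397 393 393 394 398)
 (.a 0 [393,397] (.q 429 (.a 1 [] (.d 330 2345 297 2378 462)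
 (.a 1 [297] (.d 462 2378 330 2411 495)
 (.a 0 [330,462] (.q 364 (.a 1 [] (.d 365 362 362 363 367)
 (.a 0 [362,365,367] (.q 332 (.a 1 [] (.d 301 3342 270 3373 425)
 (.a 1 [270] (.d 425 3373 301 3404 456)
 (.a 0 [301,425] (.q 333 (.a 1 [] (.d 302 3343 271 3374 426)
 (.a 1 [271] (.d 426 3374 302 3405 457)
 (.a 1 [302] (.r 300 1292 268 (.d 267 2282 234 2315 399))
 .e))))
 .e))))
 .e)))
 .e))))
 .e)))) (by decide +kernel)

theorem b0_4202 : S (PX [496] [393,494,495,498]) := S.of (.q 330 (.a 1 [] (.d 297 2312 264 2345 429)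
 (.a 1 [264] (.d 429 2345 297 2378 462)
 (.a 0 [297,429] (.q 332 (.a 1 [] (.d 301 3342 270 3373 425)
 (.a 1 [270] (.d 425 3373 301 3404 456)
 (.a 0 [301] (.q 362 (.a 1 [] (.d 298 1290 266 1322 426)
 (.a 1 [266] (.d 426 1322 298 1354 458)
 (.a 0 [298] (.r 458 1354 426 (.r 425 3404 456 (.q 300 (.a 1 [] (.d 364 1292 268 1324 428)
 (.a 1 [268] (.r 364 1324 428 (.d 365 361 361 362 366))
 (.a 1 [428] (.r 364 1292 268 (.d 365 361 361 362 366))
 (.a 0 [364] (.q 392 (.a 1 [] (.d 359 2374 326 2407 491)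
 (.a 1 [326] (.d 491 2407 359 2440 524)
 (.a 1 [491] (.r 359 2374 326 (.r 361 359 360 (.d 423 3371 299 3402 454)))
 (.a 0 [359] (.q 427 (.a 1 [] (.d 365 3406 334 3437 489)
 (.a 1 [334] (.d 489 3437 365 3468 520)
 (.a 1 [365] (.r 491 2440 524 (.r 395 1387 459 (.r 331 1323 299 (.d 329 328 328 329 333))))
 .e))))
 .e)))))
 .e)))))))
 (.a 0 [426] (.q 364 (.a 1 [] (.d 361 360 360 361 365)
 (.a 1 [360] (.d 365 361 361 362 366)
 (.a 1 [361] (.d 300 1292 268 1324 428)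
 .e))))
 .e)))))
 (.a 0 [425] (.q 329 (.a 1 [] (.d 331 328 328 329 333)
 (.a 0 [328,331,333] (.q 362 (.a 1 [] (.d 298 1290 266 1322 426)
 (.a 1 [266] (.d 426 1322 298 1354 458)
 (.a 0 [298,426] (.q 428 (.a 1 [] (.d 364 1324 300 1356 460)
 (.a 1 [300] (.d 395 2344 296 2377 461)
 .e)))
 .e))))
 .e)))
 .e)))))
 .e)))) (by decide +kernel)

theorem b0_4203 : S (PX [496] [395,494,495,498]) := S.of (.q 330 (.a 1 [] (.d 297 2312 264 2345 429)
 (.a 1 [264] (.d 429 2345 297 2378 462)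
 (.a 0 [297,429] (.q 362 (.a 1 [] (.d 298 1290 266 1322 426)
 (.a 1 [266] (.d 426 1322 298 1354 458)
 (.a 0 [298,426] (.q 364 (.a 1 [] (.d 361 360 360 361 365)
 (.a 1 [360] (.d 365 361 361 362 366)
 (.a 0 [361,365] (.q 332 (.a 1 [] (.d 300 1292 268 1324 428)
 (.a 1 [268] (.d 428 1324 300 1356 460)
 (.a 1 [300] (.d 301 3342 270 3373 425)
 .e))))
 .e))))
 .e))))
 .e)))) (by decide +kernel)

theorem b0_4204 : S (PX [496] [428,494,495,498]) := S.of (.q 395 (.a 1 [] (.d 393 392 392 393 397)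
 (.a 1 [392] (.d 397 393 393 394 398)
 (.a 0 [393,397] (.q 330 (.a 1 [] (.d 297 2312 264 2345 429)
 (.a 1 [264] (.d 429 2345 297 2378 462)
 (.a 0 [297,429] (.q 426 (.a 1 [] (.d 362 1322 298 1354 458)
 (.a 0 [298,362,458] (.q 333 (.a 1 [] (.d 364 3374 302 3405 457)
 (.a 0 [302,364,457] (.q 331 (.a 1 [] (.d 332 329 329 330 334)
 (.a 1 [329] (.d 427 1323 299 1355 459)
 .e)))
 .e)))
 .e)))
 .e))))
 .e)))) (by decide +kernel)

theorem b0_4214 : S (PX [493,496] [297,491,494,495,498]) := S.of (.q 395 (.a 1 [] (.d 393 392 392 393 397)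
 (.a 1 [392] (.d 397 393 393 394 398)
 (.a 0 [393,397] (.q 427 (.a 1 [] (.d 331 1323 299 1355 459)
 (.a 1 [299] (.d 460 2409 361 2442 526)
 .e)))
 .e)))) (by decide +kernel)

theorem b0_4215 : S (PX [493,496] [330,491,494,495,498]) := S.of (.q 395 (.a 1 [] (.d 393 392 392 393 397)
 (.a 1 [392] (.d 397 393 393 394 398)
 (.a 0 [393,397] (.q 427 (.a 1 [] (.d 331 1323 299 1355 459)
 (.a 1 [299] (.d 460 2409 361 2442 526)
 .e)))
 .e)))) (by decide +kernel)

theorem b0_4216 : S (PX [493,496] [332,491,494,495,498]) := S.of (.q 395 (.a 1 [] (.d 393 392 392 393 397)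
 (.a 1 [392] (.d 397 393 393 394 398)
 (.a 0 [393,397] (.q 427 (.a 1 [] (.d 331 1323 299 1355 459)
 (.a 1 [299] (.d 460 2409 361 2442 526)
 .e)))
 .e)))) (by decide +kernel)

theorem b0_4217 : S (PX [493,496] [425,491,494,495,498]) := S.of (.q 427 (.a 1 [] (.d 460 2409 361 2442 526)
 (.a 0 [361,460,526] (.q 395 (.a 1 [] (.d 393 392 392 393 397)
 (.a 1 [392] (.d 397 393 393 394 398)
 (.a 1 [393] (.d 331 1323 299 1355 459)
 .e))))
 .e))) (by decide +kernel)

theorem b0_4218 : S (PX [493,496] [427,491,494,495,498]) := S.of (.q 425 (.a 1 [] (.d 332 3373 301 3404 456)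
 (.a 1 [301] (.d 456 3404 332 3435 487)
 (.a 0 [332,456] (.q 429 (.a 1 [] (.d 330 2345 297 2378 462)
 (.a 0 [297,330,462] (.q 397 (.a 1 [] (.d 395 393 393 394 398)
 (.a 1 [393] (.d 461 1389 365 1421 525)
 .e)))
 .e)))
 .e)))) (by decide +kernel)

theorem b0_4219 : S (PX [493,496] [456,491,494,495,498]) := S.of (.q 395 (.a 1 [] (.d 393 392 392 393 397)
 (.a 1 [392] (.d 397 393 393 394 398)
 (.a 0 [393,397] (.q 427 (.a 1 [] (.d 331 1323 299 1355 459)
 (.a 1 [299] (.d 460 2409 361 2442 526)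
 .e)))
 .e)))) (by decide +kernel)

theorem b0_4220 : S (PX [493,496] [457,491,494,495,498]) := S.of (.q 395 (.a 1 [] (.d 393 392 392 393 397)
 (.a 1 [392] (.d 397 393 393 394 398)
 (.a 0 [393,397] (.q 427 (.a 1 [] (.d 331 1323 299 1355 459)
 (.a 1 [299] (.d 460 2409 361 2442 526)
 .e)))
 .e)))) (by decide +kernel)

theorem b0_4221 : S (PX [493,496] [460,491,494,495,498]) := S.of (.q 395 (.a 1 [] (.d 393 392 392 393 397)
 (.a 1 [392] (.d 397 393 393 394 398)
 (.a 0 [393,397] (.q 331 (.a 1 [] (.d 299 1291 267 1323 427)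
 (.a 1 [267] (.d 427 1323 299 1355 459)
 (.a 0 [299,427] (.q 332 (.a 1 [] (.d 301 3342 270 3373 425)
 (.a 1 [270] (.d 425 3373 301 3404 456)
 (.a 0 [301,425] (.q 330 (.a 1 [] (.d 329 328 328 329 333)
 (.a 1 [328] (.d 333 329 329 330 334)
 (.a 1 [329] (.d 297 2312 264 2345 429)
 .e))))
 .e))))
 .e))))
 .e)))) (by decide +kernel)

theorem b0_4222 : S (PX [493,496] [491,494,495,498,527]) := S.of (.q 395 (.a 1 [] (.d 393 392 392 393 397)
 (.a 1 [392] (.d 397 393 393 394 398)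
 (.a 0 [393,397] (.q 427 (.a 1 [] (.d 331 1323 299 1355 459)
 (.a 1 [299] (.d 460 2409 361 2442 526)
 .e)))
 .e)))) (by decide +kernel)

theorem b0_4229 : S (PX [493,496] [297,492,494,495,498]) := S.of (.q 395 (.a 1 [] (.d 393 392 392 393 397)
 (.a 1 [392] (.d 397 393 393 394 398)
 (.a 0 [393,397] (.q 427 (.a 1 [] (.d 331 1323 299 1355 459)
 (.a 1 [299] (.d 459 1355 331 1387 491)
 (.a 1 [331] (.d 460 2409 361 2442 526)
 .e))))
 .e)))) (by decide +kernel)

theorem b0_4230 : S (PX [493,496] [330,492,494,495,498]) := S.of (.q 395 (.a 1 [] (.d 393 392 392 393 397)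
 (.a 1 [392] (.d 397 393 393 394 398)
 (.a 0 [393,397] (.q 427 (.a 1 [] (.d 331 1323 299 1355 459)
 (.a 1 [299] (.d 459 1355 331 1387 491)
 (.a 1 [331] (.d 460 2409 361 2442 526)
 .e))))
 .e)))) (by decide +kernel)

theorem b0_4231 : S (PX [493,496] [332,492,494,495,498]) := S.of (.q 395 (.a 1 [] (.d 393 392 392 393 397)
 (.a 1 [392] (.d 397 393 393 394 398)
 (.a 0 [393,397] (.q 427 (.a 1 [] (.d 331 1323 299 1355 459)
 (.a 1 [299] (.d 459 1355 331 1387 491)
 (.a 1 [331] (.d 460 2409 361 2442 526)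
 .e))))
 .e)))) (by decide +kernel)

theorem b0_4232 : S (PX [493,496] [393,492,494,495,498]) := S.of (.q 427 (.a 1 [] (.d 460 2409 361 2442 526)
 (.a 0 [361,460,526] (.q 425 (.a 1 [] (.d 332 3373 301 3404 456)
 (.a 1 [301] (.d 456 3404 332 3435 487)
 (.a 0 [332,456] (.q 458 (.a 1 [] (.d 365 3406 334 3437 489)
 (.a 1 [334] (.d 489 3437 365 3468 520)
 (.a 0 [365,489] (.q 426 (.a 1 [] (.d 424 423 423 424 428)
 (.a 1 [423] (.d 428 424 424 425 429)
 (.a 1 [424] (.d 362 1354 330 1386 490)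
 .e))))
 .e))))
 .e))))
 .e))) (by decide +kernel)

theorem b0_4233 : S (PX [493,496] [395,492,494,495,498]) := S.of (.q 330 (.a 1 [] (.d 297 2312 264 2345 429)
 (.a 1 [264] (.d 429 2345 297 2378 462)
 (.a 0 [297,429] (.q 362 (.a 1 [] (.d 298 1290 266 1322 426)
 (.a 1 [266] (.d 426 1322 298 1354 458)
 (.a 0 [298,426] (.q 364 (.a 1 [] (.d 361 360 360 361 365)
 (.a 1 [360] (.d 365 361 361 362 366)
 (.a 0 [361,365] (.q 332 (.a 1 [] (.d 300 1292 268 1324 428)
 (.a 1 [268] (.d 428 1324 300 1356 460)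
 (.a 1 [300] (.d 301 3342 270 3373 425)
 .e))))
 .e))))
 .e))))
 .e)))) (by decide +kernel)

theorem b0_4234 : S (PX [493,496] [425,492,494,495,498]) := S.of (.q 395 (.a 1 [] (.d 393 392 392 393 397)
 (.a 1 [392] (.d 397 393 393 394 398)
 (.a 0 [393,397] (.q 427 (.a 1 [] (.d 331 1323 299 1355 459)
 (.a 1 [299] (.d 459 1355 331 1387 491)
 (.a 1 [331] (.d 460 2409 361 2442 526)
 .e))))
 .e)))) (by decide +kernel)

theorem b0_4249 : S (PX [492,496] [297,493,494,495,498]) := S.of (.q 395 (.a 1 [] (.d 393 392 392 393 397)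
 (.a 1 [392] (.d 397 393 393 394 398)
 (.a 0 [393,397] (.q 427 (.a 1 [] (.d 331 1323 299 1355 459)
 (.a 1 [299] (.d 459 1355 331 1387 491)
 (.a 0 [331,459] (.q 425 (.a 1 [] (.d 332 3373 301 3404 456)
 (.a 1 [301] (.d 456 3404 332 3435 487)
 (.a 0 [332,456] (.q 428 (.a 1 [] (.d 426 424 424 425 429)
 (.a 1 [424] (.d 460 1388 364 1420 524)
 .e)))
 .e))))
 .e))))
 .e)))) (by decide +kernel)

theorem b0_4250 : S (PX [492,496] [299,493,494,495,498]) := S.of (.q 330 (.a 1 [] (.d 297 2312 264 2345 429)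
 (.a 1 [264] (.d 429 2345 297 2378 462)
 (.a 0 [297,429] (.q 425 (.a 1 [] (.d 332 3373 301 3404 456)
 (.a 1 [301] (.d 456 3404 332 3435 487)
 (.a 0 [332,456] (.q 428 (.a 1 [] (.d 460 1388 364 1420 524)
 (.a 0 [364,460,524] (.q 426 (.a 1 [] (.d 362 1322 298 1354 458)
 (.a 1 [298] (.r 458 1354 362 (.r 427 424 424 (.d 489 3437 365 3468 520)))
 (.a 0 [362,458] (.q 459 (.a 1 [] (.d 393 2408 360 2441 525)
 (.a 1 [360] (.d 525 2441 393 2474 558)
 (.a 1 [393] (.r 427 424 424 (.d 395 1355 331 1387 491))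
 .e))))
 .e))))
 .e)))
 .e))))
 .e)))) (by decide +kernel)

theorem b0_4251 : S (PX [492,496] [300,493,494,495,498]) := S.of (.q 395 (.a 1 [] (.d 393 392 392 393 397)
 (.a 1 [392] (.d 397 393 393 394 398)
 (.a 0 [393,397] (.q 425 (.a 1 [] (.d 332 3373 301 3404 456)
 (.a 1 [301] (.d 456 3404 332 3435 487)
 (.a 0 [332,456] (.q 429 (.a 1 [] (.d 330 2345 297 2378 462)
 (.a 0 [297,330,462] (.q 427 (.a 1 [] (.d 331 1323 299 1355 459)
 (.a 1 [299] (.d 459 1355 331 1387 491)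
 (.a 1 [331] (.r 428 425 426 (.d 460 1388 364 1420 524))
 .e))))
 .e)))
 .e))))
 .e)))) (by decide +kernel)

theorem b0_4252 : S (PX [492,496] [301,493,494,495,498]) := S.of (.q 395 (.a 1 [] (.d 393 392 392 393 397)
 (.a 1 [392] (.d 397 393 393 394 398)
 (.a 0 [393,397] (.q 427 (.a 1 [] (.d 331 1323 299 1355 459)
 (.a 1 [299] (.d 459 1355 331 1387 491)
 (.a 0 [331,459] (.q 429 (.a 1 [] (.d 330 2345 297 2378 462)
 (.a 0 [297,330,462] (.q 428 (.a 1 [] (.d 426 425 425 426 430)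
 (.a 1 [425] (.d 430 426 426 427 431)
 (.a 1 [426] (.d 460 1388 364 1420 524)
 .e))))
 .e)))
 .e))))
 .e)))) (by decide +kernel)

theorem b0_4253 : S (PX [492,496] [332,493,494,495,498]) := S.of (.q 330 (.a 1 [] (.d 297 2312 264 2345 429)
 (.a 1 [264] (.d 429 2345 297 2378 462)
 (.a 0 [297,429] (.q 362 (.a 1 [] (.d 298 1290 266 1322 426)
 (.a 1 [266] (.d 426 1322 298 1354 458)
 (.a 0 [298,426] (.q 361 (.a 1 [] (.d 360 359 359 360 364)
 (.a 1 [359] (.d 364 360 360 361 365)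
 (.a 0 [360,364] (.q 299 (.a 1 [] (.d 268 3309 237 3340 392)
 (.a 1 [237] (.d 392 3340 268 3371 423)
 (.a 1 [268] (.r 392 3371 423 (.r 395 392 393 (.d 331 1291 267 1323 427)))
 (.a 0 [392] (.q 395 (.a 1 [] (.d 397 393 393 394 398)
 (.a 1 [393] (.d 331 1291 267 1323 427)
 .e)))
 .e)))))
 .e))))
 .e))))
 .e)))) (by decide +kernel)

theorem b0_4254 : S (PX [492,496] [365,493,494,495,498]) := S.of (.q 395 (.a 1 [] (.d 393 392 392 393 397)
 (.a 1 [392] (.d 397 393 393 394 398)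
 (.a 0 [393,397] (.q 429 (.a 1 [] (.d 330 2345 297 2378 462)
 (.a 0 [297,330,462] (.q 427 (.a 1 [] (.d 331 1323 299 1355 459)
 (.a 1 [299] (.d 459 1355 331 1387 491)
 (.a 0 [331,459] (.q 428 (.a 1 [] (.d 426 425 425 426 430)
 (.a 1 [425] (.d 430 426 426 427 431)
 (.a 1 [426] (.d 460 1388 364 1420 524)
 .e))))
 .e))))
 .e)))
 .e)))) (by decide +kernel)

theorem b0_4255 : S (PX [492,496] [395,493,494,495,498]) := S.of (.q 330 (.a 1 [] (.d 297 2312 264 2345 429)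
 (.a 1 [264] (.d 429 2345 297 2378 462)
 (.a 0 [297,429] (.q 362 (.a 1 [] (.d 298 1290 266 1322 426)
 (.a 1 [266] (.d 426 1322 298 1354 458)
 (.a 0 [298,426] (.q 364 (.a 1 [] (.d 361 360 360 361 365)
 (.a 1 [360] (.d 365 361 361 362 366)
 (.a 1 [361] (.r 428 1388 460 (.r 332 1324 300 (.d 425 3373 301 3404 456)))
 .e))))
 .e))))
 .e)))) (by decide +kernel)

theorem b0_4256 : S (PX [492,496] [397,493,494,495,498]) := S.of (.q 428 (.a 1 [] (.d 460 1388 364 1420 524)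
 (.a 1 [524] (.r 364 1388 460 (.r 332 1324 300 (.d 425 3373 301 3404 456)))
 (.a 0 [364,460] (.q 429 (.a 1 [] (.d 330 2345 297 2378 462)
 (.a 0 [297,330,462] (.q 427 (.a 1 [] (.d 426 425 425 426 430)
 (.a 1 [425] (.d 430 426 426 427 431)
 (.a 1 [430] (.r 425 425 426 (.d 456 3404 332 3435 487))
 (.a 0 [426] (.q 458 (.a 1 [] (.d 365 3406 334 3437 489)
 (.a 1 [334] (.d 489 3437 365 3468 520)
 (.a 0 [365,489] (.q 425 (.a 1 [] (.d 332 3373 301 3404 456)
 (.a 1 [301] (.d 456 3404 332 3435 487)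
 (.a 0 [332,456] (.q 395 (.a 1 [] (.d 331 1323 299 1355 459)
 (.a 1 [299] (.d 459 1355 331 1387 491)
 (.a 1 [331] (.r 392 392 393 (.d 491 1387 459 2440 524))
 (.a 1 [459] (.r 392 392 393 (.d 491 2407 359 2440 524))
 .e)))))
 .e))))
 .e))))
 .e)))))
 .e)))
 .e)))) (by decide +kernel)

theorem b0_4257 : S (PX [492,496] [425,493,494,495,498]) := S.of (.q 330 (.a 1 [] (.d 297 2312 264 2345 429)
 (.a 1 [264] (.d 429 2345 297 2378 462)
 (.a 0 [297,429] (.q 362 (.a 1 [] (.d 298 1290 266 1322 426)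
 (.a 1 [266] (.d 426 1322 298 1354 458)
 (.a 0 [298,426] (.q 428 (.a 1 [] (.d 460 1388 364 1420 524)
 (.a 1 [524] (.r 364 1388 460 (.d 361 360 360 361 365))
 (.a 0 [364,460] (.q 395 (.a 1 [] (.d 393 392 392 393 397)
 (.a 1 [392] (.d 397 393 393 394 398)
 (.a 1 [393] (.d 329 2344 296 2377 461)
 .e))))
 .e))))
 .e))))
 .e)))) (by decide +kernel)

theorem b0_4258 : S (PX [492,496] [426,493,494,495,498]) := S.of (.q 425 (.a 1 [] (.d 332 3373 301 3404 456)
 (.a 1 [301] (.d 456 3404 332 3435 487)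
 (.a 0 [332,456] (.q 393 (.a 1 [] (.d 395 392 392 393 397)
 (.a 0 [392,395,397] (.q 361 (.a 1 [] (.d 329 1321 297 1353 457)
 (.a 1 [297] (.d 457 1353 329 1385 489)
 (.a 1 [457] (.r 297 1321 329 (.d 330 2312 264 2345 429))
 (.a 0 [329] (.q 427 (.a 1 [] (.d 328 2343 295 2376 460)
 (.a 1 [295] (.r 489 1385 457 (.d 458 3437 365 3468 520))
 .e)))
 .e)))))
 .e)))
 .e)))) (by decide +kernel)

theorem b0_4259 : S (PX [492,496] [427,493,494,495,498]) := S.of (.q 330 (.a 1 [] (.d 297 2312 264 2345 429)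
 (.a 1 [264] (.d 429 2345 297 2378 462)
 (.a 0 [297,429] (.q 426 (.a 1 [] (.d 362 1322 298 1354 458)
 (.a 0 [298,362,458] (.q 393 (.a 1 [] (.d 395 392 392 393 397)
 (.a 1 [392] (.d 459 2408 360 2441 525)
 .e)))
 .e)))
 .e)))) (by decide +kernel)

theorem b0_4260 : S (PX [492,496] [428,493,494,495,498]) := S.of (.q 330 (.a 1 [] (.d 297 2312 264 2345 429)
 (.a 1 [264] (.d 429 2345 297 2378 462)
 (.a 0 [297,429] (.q 426 (.a 1 [] (.d 362 1322 298 1354 458)
 (.a 0 [298,362,458] (.q 395 (.a 1 [] (.d 393 392 392 393 397)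
 (.a 1 [392] (.d 397 393 393 394 398)
 (.a 1 [397] (.r 393 392 392 (.d 459 2408 360 2441 525))
 (.a 0 [393] (.q 333 (.a 1 [] (.d 364 3374 302 3405 457)
 (.a 0 [302,364,457] (.q 331 (.a 1 [] (.d 332 329 329 330 334)
 (.a 1 [329] (.d 427 1323 299 1355 459)
 .e)))
 .e)))
 .e)))))
 .e)))
 .e)))) (by decide +kernel)

theorem b0_4261 : S (PX [492,496] [429,493,494,495,498]) := S.of (.q 332 (.a 1 [] (.d 301 3342 270 3373 425)
 (.a 1 [270] (.d 425 3373 301 3404 456)
 (.a 0 [301] (.q 364 (.a 1 [] (.d 300 1292 268 1324 428)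
 (.a 1 [268] (.d 428 1324 300 1356 460)
 (.a 0 [300,428] (.q 362 (.a 1 [] (.d 361 360 360 361 365)
 (.a 1 [360] (.d 365 361 361 362 366)
 (.a 0 [361,365] (.q 397 (.a 1 [] (.d 395 393 393 394 398)
 (.a 1 [393] (.r 430 2412 463 (.r 298 2346 331 (.d 330 1290 266 1322 426)))
 .e)))
 .e))))
 .e))))
 (.a 0 [425] (.q 397 (.a 1 [] (.d 395 393 393 394 398)
 (.a 0 [393,395,398] (.q 364 (.a 1 [] (.d 300 1292 268 1324 428)
 (.a 1 [268] (.d 428 1324 300 1356 460)
 (.a 0 [300] (.q 362 (.a 1 [] (.d 361 360 360 361 365)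
 (.a 1 [360] (.d 365 361 361 362 366)
 (.a 1 [361] (.r 430 2412 463 (.r 298 2346 331 (.d 330 1290 266 1322 426)))
 .e))))
 (.a 0 [428] (.r 430 2412 463 (.r 298 2346 331 (.r 300 1292 268 (.r 301 3342 270 (.d 299 297 297 298 302)))))
 .e)))))
 .e)))
 .e))))) (by decide +kernel)

theorem b0_4262 : S (PX [492,496] [461,493,494,495,498]) := S.of (.q 395 (.a 1 [] (.d 393 392 392 393 397)
 (.a 1 [392] (.d 397 393 393 394 398)
 (.a 0 [393,397] (.q 429 (.a 1 [] (.d 330 2345 297 2378 462)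
 (.a 0 [297,330,462] (.q 425 (.a 1 [] (.d 332 3373 301 3404 456)
 (.a 1 [301] (.d 456 3404 332 3435 487)
 (.a 0 [332,456] (.q 427 (.a 1 [] (.d 331 1323 299 1355 459)
 (.a 1 [299] (.d 459 1355 331 1387 491)
 (.a 1 [331] (.r 428 425 426 (.d 460 1388 364 1420 524))
 .e))))
 .e))))
 .e)))
 .e)))) (by decide +kernel)

theorem b0_4304 : S (PX [492,497] [397,494,495,496,498]) := S.of (.q 330 (.a 1 [] (.d 297 2312 264 2345 429)
 (.a 1 [264] (.d 429 2345 297 2378 462)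
 (.a 0 [297,429] (.q 362 (.a 1 [] (.d 298 1290 266 1322 426)
 (.a 1 [266] (.d 426 1322 298 1354 458)
 (.a 0 [298,426] (.q 364 (.a 1 [] (.d 361 360 360 361 365)
 (.a 1 [360] (.d 365 361 361 362 366)
 (.a 1 [361] (.r 428 1388 460 (.r 332 1324 300 (.d 425 3373 301 3404 456)))
 .e))))
 .e))))
 .e)))) (by decide +kernel)

theorem b0_4306 : S (PX [495] [397,494,496,498]) := S.of (.q 332 (.a 1 [] (.d 301 3342 270 3373 425)
 (.a 1 [270] (.d 425 3373 301 3404 456)
 (.a 0 [301,425] (.q 364 (.a 1 [] (.d 300 1292 268 1324 428)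
 (.a 1 [268] (.d 428 1324 300 1356 460)
 (.a 0 [300,428] (.q 362 (.a 1 [] (.d 361 360 360 361 365)
 (.a 1 [360] (.d 365 361 361 362 366)
 (.a 1 [361] (.r 429 2411 462 (.r 330 2345 297 (.d 426 1322 298 1354 458)))
 .e))))
 .e))))
 .e)))) (by decide +kernel)

theorem b0_4517 : S (PX [497] [364,495,496,498]) := S.of (.q 330 (.a 1 [] (.d 297 2312 264 2345 429)
 (.a 1 [264] (.d 429 2345 297 2378 462)
 (.a 0 [297,429] (.q 425 (.a 1 [] (.d 332 3373 301 3404 456)
 (.a 1 [301] (.d 456 3404 332 3435 487)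
 (.a 0 [332,456] (.q 426 (.a 1 [] (.d 362 1322 298 1354 458)
 (.a 0 [298,362,458] (.q 427 (.a 1 [] (.d 424 423 423 424 428)
 (.a 0 [423,424,428] (.q 395 (.a 1 [] (.d 393 392 392 393 397)
 (.a 1 [392] (.d 397 393 393 394 398)
 (.a 1 [393] (.d 331 1323 299 1355 459)
 .e))))
 .e)))
 .e)))
 .e))))
 .e)))) (by decide +kernel)

theorem b0_4518 : S (PX [493,497] [332,492,495,496,498]) := S.of (.q 395 (.a 1 [] (.d 393 392 392 393 397)
 (.a 1 [392] (.d 397 393 393 394 398)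
 (.a 0 [393,397] (.q 427 (.a 1 [] (.d 331 1323 299 1355 459)
 (.a 1 [299] (.d 459 1355 331 1387 491)
 (.a 1 [331] (.d 460 2409 361 2442 526)
 .e))))
 .e)))) (by decide +kernel)

theorem b0_4519 : S (PX [493,497] [393,492,495,496,498]) := S.of (.q 427 (.a 1 [] (.d 460 2409 361 2442 526)
 (.a 0 [361,460,526] (.q 425 (.a 1 [] (.d 332 3373 301 3404 456)
 (.a 1 [301] (.d 456 3404 332 3435 487)
 (.a 0 [332,456] (.q 458 (.a 1 [] (.d 365 3406 334 3437 489)
 (.a 1 [334] (.d 489 3437 365 3468 520)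
 (.a 0 [365,489] (.q 426 (.a 1 [] (.d 424 423 423 424 428)
 (.a 1 [423] (.d 428 424 424 425 429)
 (.a 1 [424] (.d 362 1354 330 1386 490)
 .e))))
 .e))))
 .e))))
 .e))) (by decide +kernel)

theorem b0_4520 : S (PX [493,497] [425,492,495,496,498]) := S.of (.q 427 (.a 1 [] (.d 460 2409 361 2442 526)
 (.a 0 [361,460,526] (.q 395 (.a 1 [] (.d 393 392 392 393 397)
 (.a 1 [392] (.d 397 393 393 394 398)
 (.a 1 [393] (.d 331 1323 299 1355 459)
 .e))))
 .e))) (by decide +kernel)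

theorem b0_4531 : S (PX [494,497] [297,493,495,496,498]) := S.of (.q 395 (.a 1 [] (.d 393 392 392 393 397)
 (.a 1 [392] (.d 397 393 393 394 398)
 (.a 0 [393,397] (.q 427 (.a 1 [] (.d 331 1323 299 1355 459)
 (.a 1 [299] (.d 459 1355 331 1387 491)
 (.a 0 [331,459] (.q 365 (.a 1 [] (.d 334 3375 303 3406 458)
 (.a 1 [303] (.d 458 3406 334 3437 489)
 (.a 0 [334,458] (.q 332 (.a 1 [] (.d 301 3342 270 3373 425)
 (.a 1 [270] (.d 425 3373 301 3404 456)
 (.a 0 [301,425] (.q 361 (.a 1 [] (.d 328 2343 295 2376 460)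
 (.a 1 [295] (.r 364 361 362 (.d 428 1324 300 1356 460))
 (.a 1 [460] (.r 364 361 362 (.d 300 1292 268 1324 428))
 .e))))
 .e))))
 .e))))
 .e))))
 .e)))) (by decide +kernel)

theorem b0_4532 : S (PX [494,497] [298,493,495,496,498]) := S.of (.q 395 (.a 1 [] (.d 393 392 392 393 397)
 (.a 1 [392] (.d 397 393 393 394 398)
 (.a 0 [393,397] (.q 332 (.a 1 [] (.d 301 3342 270 3373 425)
 (.a 1 [270] (.d 425 3373 301 3404 456)
 (.a 0 [301,425] (.q 428 (.a 1 [] (.d 364 1324 300 1356 460)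
 (.a 1 [300] (.d 461 2410 362 2443 527)
 .e)))
 .e))))
 .e)))) (by decide +kernel)

theorem b0_4533 : S (PX [494,497] [299,493,495,496,498]) := S.of (.q 395 (.a 1 [] (.d 393 392 392 393 397)
 (.a 1 [392] (.d 397 393 393 394 398)
 (.a 0 [393,397] (.q 332 (.a 1 [] (.d 301 3342 270 3373 425)
 (.a 1 [270] (.d 425 3373 301 3404 456)
 (.a 0 [301,425] (.q 428 (.a 1 [] (.d 364 1324 300 1356 460)
 (.a 1 [300] (.d 461 2410 362 2443 527)
 .e)))
 .e))))
 .e)))) (by decide +kernel)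

theorem b0_4534 : S (PX [494,497] [300,493,495,496,498]) := S.of (.q 395 (.a 1 [] (.d 393 392 392 393 397)
 (.a 1 [392] (.d 397 393 393 394 398)
 (.a 0 [393,397] (.q 425 (.a 1 [] (.d 332 3373 301 3404 456)
 (.a 1 [301] (.d 456 3404 332 3435 487)
 (.a 0 [332,456] (.q 429 (.a 1 [] (.d 330 2345 297 2378 462)
 (.a 0 [297,330,462] (.q 427 (.a 1 [] (.d 331 1323 299 1355 459)
 (.a 1 [299] (.d 459 1355 331 1387 491)
 (.a 1 [331] (.r 428 425 426 (.d 461 2410 362 2443 527))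
 .e))))
 .e)))
 .e))))
 .e)))) (by decide +kernel)

theorem b0_4535 : S (PX [494,497] [301,493,495,496,498]) := S.of (.q 395 (.a 1 [] (.d 393 392 392 393 397)
 (.a 1 [392] (.d 397 393 393 394 398)
 (.a 0 [393,397] (.q 427 (.a 1 [] (.d 331 1323 299 1355 459)
 (.a 1 [299] (.d 459 1355 331 1387 491)
 (.a 0 [331,459] (.q 429 (.a 1 [] (.d 330 2345 297 2378 462)
 (.a 0 [297,330,462] (.q 428 (.a 1 [] (.d 426 425 425 426 430)
 (.a 1 [425] (.d 430 426 426 427 431)
 (.a 1 [426] (.d 461 2410 362 2443 527)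
 .e))))
 .e)))
 .e))))
 .e)))) (by decide +kernel)

theorem b0_4536 : S (PX [494,497] [332,493,495,496,498]) := S.of (.q 395 (.a 1 [] (.d 393 392 392 393 397)
 (.a 1 [392] (.d 397 393 393 394 398)
 (.a 0 [393,397] (.q 428 (.a 1 [] (.d 461 2410 362 2443 527)
 (.a 0 [362,461,527] (.q 429 (.a 1 [] (.d 330 2345 297 2378 462)
 (.a 0 [297,330,462] (.q 427 (.a 1 [] (.d 426 425 425 426 430)
 (.a 1 [425] (.d 430 426 426 427 431)
 (.a 1 [426] (.d 331 1323 299 1355 459)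
 .e))))
 .e)))
 .e)))
 .e)))) (by decide +kernel)

theorem b0_4537 : S (PX [494,497] [365,493,495,496,498]) := S.of (.q 395 (.a 1 [] (.d 393 392 392 393 397)
 (.a 1 [392] (.d 397 393 393 394 398)
 (.a 0 [393,397] (.q 429 (.a 1 [] (.d 330 2345 297 2378 462)
 (.a 0 [297,330,462] (.q 428 (.a 1 [] (.d 461 2410 362 2443 527)
 (.a 0 [362,461,527] (.q 427 (.a 1 [] (.d 426 425 425 426 430)
 (.a 1 [425] (.d 430 426 426 427 431)
 (.a 1 [426] (.d 331 1323 299 1355 459)
 .e))))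
 .e)))
 .e)))
 .e)))) (by decide +kernel)

theorem b0_4538 : S (PX [494,497] [397,493,495,496,498]) := S.of (.q 332 (.a 1 [] (.d 301 3342 270 3373 425)
 (.a 1 [270] (.d 425 3373 301 3404 456)
 (.a 0 [301,425] (.q 429 (.a 1 [] (.d 330 2345 297 2378 462)
 (.a 0 [297] (.r 462 2378 330 (.q 430 (.a 1 [] (.d 398 1390 366 1422 526)
 (.a 1 [366] (.d 526 1422 398 1454 558)
 (.a 0 [398,526] (.q 428 (.a 1 [] (.d 427 426 426 427 431)
 (.a 1 [426] (.d 364 1324 300 1356 460)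
 .e)))
 .e)))))
 (.a 0 [330] (.q 364 (.a 1 [] (.d 300 1292 268 1324 428)
 (.a 1 [268] (.d 428 1324 300 1356 460)
 (.a 0 [300] (.q 365 (.a 1 [] (.d 362 361 361 362 366)
 (.a 1 [361] (.d 366 362 362 363 367)
 (.a 0 [362,366] (.q 398 (.a 1 [] (.d 299 2314 266 2347 431)
 (.a 1 [266] (.d 431 2347 299 2380 464)
 (.a 1 [299] (.r 460 1356 428 (.d 491 3439 367 3470 522))
 .e))))
 .e))))
 (.a 0 [428] (.q 366 (.a 1 [] (.d 365 362 362 363 367)
 (.a 0 [362] (.r 365 363 367 (.q 398 (.a 1 [] (.d 299 2314 266 2347 431)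
 (.a 1 [266] (.d 431 2347 299 2380 464)
 (.a 1 [299] (.r 430 1390 462 (.r 334 1326 302 (.d 427 3375 303 3406 458)))
 .e)))))
 (.a 0 [365] (.r 300 1292 268 (.q 333 (.a 1 [] (.d 267 2282 234 2315 399)
 (.a 1 [234] (.d 399 2315 267 2348 432)
 (.a 0 [267,399] (.q 334 (.a 1 [] (.d 335 331 331 332 336)
 (.a 0 [331,335,336] (.q 302 (.a 1 [] (.d 270 1262 238 1294 398)
 (.a 1 [238] (.d 398 1294 270 1326 430)
 (.a 1 [270] (.d 271 3312 240 3343 395)
 .e))))
 .e)))
 .e)))))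
 (.a 0 [367] (.r 365 362 362 (.q 398 (.a 1 [] (.d 299 2314 266 2347 431)
 (.a 1 [266] (.d 431 2347 299 2380 464)
 (.a 1 [299] (.r 430 1390 462 (.r 334 1326 302 (.d 427 3375 303 3406 458)))
 .e)))))
 .e)))))
 .e)))))
 (.a 0 [462] (.q 364 (.a 1 [] (.d 300 1292 268 1324 428)
 (.a 1 [268] (.d 428 1324 300 1356 460)
 (.a 0 [300,428] (.q 362 (.a 1 [] (.d 361 360 360 361 365)
 (.a 1 [360] (.d 365 361 361 362 366)
 (.a 1 [361] (.r 330 2345 297 (.d 426 1322 298 1354 458))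
 .e))))
 .e))))
 .e)))))
 .e)))) (by decide +kernel)

theorem b0_4539 : S (PX [494,497] [425,493,495,496,498]) := S.of (.q 395 (.a 1 [] (.d 393 392 392 393 397)
 (.a 1 [392] (.d 397 393 393 394 398)
 (.a 0 [393,397] (.q 427 (.a 1 [] (.d 331 1323 299 1355 459)
 (.a 1 [299] (.d 459 1355 331 1387 491)
 (.a 0 [331] (.q 365 (.a 1 [] (.d 334 3375 303 3406 458)
 (.a 1 [303] (.d 458 3406 334 3437 489)
 (.a 0 [334,458] (.q 361 (.a 1 [] (.d 328 2343 295 2376 460)
 (.a 1 [295] (.r 364 361 362 (.r 460 2376 328 (.d 428 1356 332 1388 492)))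
 (.a 0 [328,460] (.q 330 (.a 1 [] (.d 297 2312 264 2345 429)
 (.a 1 [264] (.d 429 2345 297 2378 462)
 (.a 1 [297] (.r 362 361 364 (.d 298 1290 266 1322 426))
 .e))))
 .e))))
 .e))))
 (.a 0 [459] (.q 428 (.a 1 [] (.d 461 2410 362 2443 527)
 (.a 0 [362,461,527] (.q 429 (.a 1 [] (.d 430 426 426 427 431)
 (.a 1 [426] (.d 330 2345 297 2378 462)
 .e)))
 .e)))
 .e)))))
 .e)))) (by decide +kernel)

theorem b0_4540 : S (PX [494,497] [426,493,495,496,498]) := S.of (.q 395 (.a 1 [] (.d 393 392 392 393 397)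
 (.a 1 [392] (.d 397 393 393 394 398)
 (.a 0 [393,397] (.q 428 (.a 1 [] (.d 461 2410 362 2443 527)
 (.a 0 [362,461,527] (.q 429 (.a 1 [] (.d 330 2345 297 2378 462)
 (.a 0 [297,330,462] (.q 332 (.a 1 [] (.d 364 1324 300 1356 460)
 (.a 1 [300] (.d 425 3373 301 3404 456)
 .e)))
 .e)))
 .e)))
 .e)))) (by decide +kernel)

theorem b0_4541 : S (PX [494,497] [427,493,495,496,498]) := S.of (.q 395 (.a 1 [] (.d 393 392 392 393 397)
 (.a 1 [392] (.d 397 393 393 394 398)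
 (.a 0 [393,397] (.q 428 (.a 1 [] (.d 461 2410 362 2443 527)
 (.a 0 [362,461,527] (.q 429 (.a 1 [] (.d 330 2345 297 2378 462)
 (.a 0 [297,330,462] (.q 332 (.a 1 [] (.d 364 1324 300 1356 460)
 (.a 1 [300] (.d 425 3373 301 3404 456)
 .e)))
 .e)))
 .e)))
 .e)))) (by decide +kernel)

theorem b0_4542 : S (PX [494,497] [428,493,495,496,498]) := S.of (.q 395 (.a 1 [] (.d 393 392 392 393 397)
 (.a 1 [392] (.d 397 393 393 394 398)
 (.a 0 [393] (.q 427 (.a 1 [] (.d 331 1323 299 1355 459)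
 (.a 1 [299] (.d 459 1355 331 1387 491)
 (.a 0 [331,459] (.q 365 (.a 1 [] (.d 334 3375 303 3406 458)
 (.a 1 [303] (.d 458 3406 334 3437 489)
 (.a 1 [334] (.r 398 394 397 (.r 431 2413 464 (.r 332 2347 299 (.d 425 3373 301 3404 456))))
 .e))))
 .e))))
 (.a 0 [397] (.q 425 (.a 1 [] (.d 332 3373 301 3404 456)
 (.a 1 [301] (.d 456 3404 332 3435 487)
 (.a 0 [332,456] (.q 299 (.a 1 [] (.d 331 1291 267 1323 427)
 (.a 0 [267,331,427] (.q 330 (.a 1 [] (.d 297 2312 264 2345 429)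
 (.a 1 [264] (.d 429 2345 297 2378 462)
 (.a 1 [297] (.r 392 392 393 (.d 361 3340 268 3371 423))
 .e))))
 .e)))
 .e))))
 .e))))) (by decide +kernel)

theorem b0_4543 : S (PX [494,497] [429,493,495,496,498]) := S.of (.q 332 (.a 1 [] (.d 301 3342 270 3373 425)
 (.a 1 [270] (.d 425 3373 301 3404 456)
 (.a 0 [301,425] (.q 428 (.a 1 [] (.d 364 1324 300 1356 460)
 (.a 0 [300,364,460] (.q 395 (.a 1 [] (.d 393 392 392 393 397)
 (.a 1 [392] (.d 397 393 393 394 398)
 (.a 1 [393] (.d 461 2410 362 2443 527)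
 .e))))
 .e)))
 .e)))) (by decide +kernel)

theorem b0_4544 : S (PX [494,497] [461,493,495,496,498]) := S.of (.q 395 (.a 1 [] (.d 393 392 392 393 397)
 (.a 1 [392] (.d 397 393 393 394 398)
 (.a 0 [393] (.q 427 (.a 1 [] (.d 331 1323 299 1355 459)
 (.a 1 [299] (.d 459 1355 331 1387 491)
 (.a 0 [331,459] (.q 365 (.a 1 [] (.d 334 3375 303 3406 458)
 (.a 1 [303] (.d 458 3406 334 3437 489)
 (.a 1 [334] (.r 398 394 397 (.r 431 2413 464 (.r 332 2347 299 (.d 425 3373 301 3404 456))))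
 .e))))
 .e))))
 (.a 0 [397] (.q 429 (.a 1 [] (.d 330 2345 297 2378 462)
 (.a 0 [297,330,462] (.q 332 (.a 1 [] (.d 301 3342 270 3373 425)
 (.a 1 [270] (.d 425 3373 301 3404 456)
 (.a 0 [301,425] (.q 299 (.a 1 [] (.d 331 1291 267 1323 427)
 (.a 0 [267,331,427] (.q 365 (.a 1 [] (.d 266 2281 233 2314 398)
 (.a 1 [233] (.d 398 2314 266 2347 431)
 (.a 0 [266,398] (.q 364 (.a 1 [] (.d 362 361 361 362 366)
 (.a 1 [361] (.d 366 362 362 363 367)
 (.a 1 [362] (.d 300 1292 268 1324 428)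
 .e))))
 .e))))
 .e)))
 .e))))
 .e)))
 .e))))) (by decide +kernel)

theorem b6_993 : S (PX [] [235,328,498]) := S.of (.q 395 (.a 1 [] (.d 393 392 392 393 397)
 (.a 1 [392] (.d 397 393 393 394 398)
 (.a 0 [393,397] (.q 427 (.a 1 [] (.d 331 1323 299 1355 459)
 (.a 1 [299] (.d 459 1355 331 1387 491)
 (.a 0 [331,459] (.q 458 (.a 1 [] (.d 365 3406 334 3437 489)
 (.a 1 [334] (.d 489 3437 365 3468 520)
 (.a 0 [365,489] (.q 425 (.a 1 [] (.d 332 3373 301 3404 456)
 (.a 1 [301] (.d 456 3404 332 3435 487)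
 (.a 0 [332,456] (.q 330 (.a 1 [] (.d 297 2312 264 2345 429)
 (.a 1 [264] (.d 429 2345 297 2378 462)
 (.a 1 [297] (.r 426 1354 362 (.d 429 425 428 2378 462))
 (.a 1 [429] (.r 426 1354 362 (.d 424 423 423 424 428))
 .e)))))
 .e))))
 .e))))
 .e))))
 .e)))) (by decide +kernel)

theorem b6_994 : S (PX [] [326,328,498]) := S.of (.q 330 (.a 1 [] (.d 297 2312 264 2345 429)
 (.a 1 [264] (.d 429 2345 297 2378 462)
 (.a 0 [297,429] (.q 395 (.a 1 [] (.d 393 392 392 393 397)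
 (.a 1 [392] (.d 397 393 393 394 398)
 (.a 0 [393,397] (.q 427 (.a 1 [] (.d 331 1323 299 1355 459)
 (.a 1 [299] (.d 459 1355 331 1387 491)
 (.a 0 [331,459] (.q 365 (.a 1 [] (.d 334 3375 303 3406 458)
 (.a 1 [303] (.d 458 3406 334 3437 489)
 (.a 1 [334] (.r 458 3437 489 (.r 362 1354 426 (.d 364 361 361 362 366)))
 (.a 0 [458] (.q 362 (.a 1 [] (.d 364 361 361 362 366)
 (.a 1 [361] (.d 298 1290 266 1322 426)
 .e)))
 .e)))))
 .e))))
 .e))))
 .e)))) (by decide +kernel)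

theorem b6_995 : S (PX [] [328,329,498]) := S.of (.q 395 (.a 1 [] (.d 393 392 392 393 397)
 (.a 1 [392] (.d 397 393 393 394 398)
 (.a 0 [393,397] (.q 425 (.a 1 [] (.d 332 3373 301 3404 456)
 (.a 1 [301] (.d 456 3404 332 3435 487)
 (.a 0 [332,456] (.q 427 (.a 1 [] (.d 331 1323 299 1355 459)
 (.a 1 [299] (.d 459 1355 331 1387 491)
 (.a 0 [331,459] (.q 330 (.a 1 [] (.d 297 2312 264 2345 429)
 (.a 1 [264] (.d 429 2345 297 2378 462)
 (.a 1 [297] (.r 429 2378 462 (.r 426 425 428 (.d 362 1322 298 1354 458)))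
 (.a 0 [429] (.q 426 (.a 1 [] (.d 424 423 423 424 428)
 (.a 1 [423] (.d 362 1322 298 1354 458)
 .e)))
 .e)))))
 .e))))
 .e))))
 .e)))) (by decide +kernel)

theorem b6_996 : S (PX [] [328,332,498]) := S.of (.q 330 (.a 1 [] (.d 297 2312 264 2345 429)
 (.a 1 [264] (.d 429 2345 297 2378 462)
 (.a 0 [297,429] (.q 395 (.a 1 [] (.d 393 392 392 393 397)
 (.a 1 [392] (.d 397 393 393 394 398)
 (.a 0 [393,397] (.q 427 (.a 1 [] (.d 331 1323 299 1355 459)
 (.a 1 [299] (.d 459 1355 331 1387 491)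
 (.a 0 [331,459] (.q 365 (.a 1 [] (.d 334 3375 303 3406 458)
 (.a 1 [303] (.d 458 3406 334 3437 489)
 (.a 1 [334] (.r 458 3437 489 (.r 362 1354 426 (.d 364 361 361 362 366)))
 (.a 0 [458] (.q 362 (.a 1 [] (.d 364 361 361 362 366)
 (.a 1 [361] (.d 298 1290 266 1322 426)
 .e)))
 .e)))))
 .e))))
 .e))))
 .e)))) (by decide +kernel)

theorem b6_997 : S (PX [] [328,359,498]) := S.of (.q 395 (.a 1 [] (.d 393 392 392 393 397)
 (.a 1 [392] (.d 397 393 393 394 398)
 (.a 0 [393,397] (.q 427 (.a 1 [] (.d 331 1323 299 1355 459)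
 (.a 1 [299] (.d 459 1355 331 1387 491)
 (.a 0 [331,459] (.q 425 (.a 1 [] (.d 332 3373 301 3404 456)
 (.a 1 [301] (.d 456 3404 332 3435 487)
 (.a 0 [332,456] (.q 330 (.a 1 [] (.d 297 2312 264 2345 429)
 (.a 1 [264] (.d 429 2345 297 2378 462)
 (.a 1 [297] (.r 429 2378 462 (.r 426 425 428 (.d 362 1322 298 1354 458)))
 (.a 0 [429] (.q 426 (.a 1 [] (.d 424 423 423 424 428)
 (.a 1 [423] (.d 362 1322 298 1354 458)
 .e)))
 .e)))))
 .e))))
 .e))))
 .e)))) (by decide +kernel)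

theorem b6_998 : S (PX [] [328,364,498]) := S.of (.q 395 (.a 1 [] (.d 393 392 392 393 397)
 (.a 1 [392] (.d 397 393 393 394 398)
 (.a 0 [393,397] (.q 331 (.a 1 [] (.d 299 1291 267 1323 427)
 (.a 1 [267] (.d 427 1323 299 1355 459)
 (.a 0 [299,427] (.q 330 (.a 1 [] (.d 297 2312 264 2345 429)
 (.a 1 [264] (.d 429 2345 297 2378 462)
 (.a 0 [297,429] (.q 332 (.a 1 [] (.d 333 329 329 330 334)
 (.a 1 [329] (.d 425 3373 301 3404 456)
 .e)))
 .e))))
 .e))))
 .e)))) (by decide +kernel)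

theorem b6_999 : S (PX [] [328,393,498]) := S.of (.q 332 (.a 1 [] (.d 301 3342 270 3373 425)
 (.a 1 [270] (.d 425 3373 301 3404 456)
 (.a 0 [301,425] (.q 429 (.a 1 [] (.d 330 2345 297 2378 462)
 (.a 1 [297] (.d 462 2378 330 2411 495)
 (.a 0 [330,462] (.q 428 (.a 1 [] (.d 364 1324 300 1356 460)
 (.a 0 [300,364,460] (.q 431 (.a 1 [] (.d 430 427 427 428 432)
 (.a 0 [427,430,432] (.q 398 (.a 1 [] (.d 365 2347 299 2380 464)
 (.a 1 [299] (.r 397 394 395 (.r 365 2380 464 (.d 461 1357 333 1389 493)))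
 (.a 1 [464] (.r 397 394 395 (.r 365 2347 299 (.d 461 1357 333 1389 493)))
 (.a 0 [365] (.r 397 394 395 (.q 335 (.a 1 [] (.d 366 3376 304 3407 459)
 (.a 1 [304] (.r 399 396 400 (.d 367 1327 303 1359 463))
 .e))))
 .e)))))
 .e)))
 .e)))
 .e))))
 .e)))) (by decide +kernel)

theorem b6_1000 : S (PX [] [328,461,498]) := S.of (.q 395 (.a 1 [] (.d 393 392 392 393 397)
 (.a 1 [392] (.d 397 393 393 394 398)
 (.a 0 [393,397] (.q 427 (.a 1 [] (.d 331 1323 299 1355 459)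
 (.a 1 [299] (.d 459 1355 331 1387 491)
 (.a 0 [331,459] (.q 332 (.a 1 [] (.d 301 3342 270 3373 425)
 (.a 1 [270] (.d 425 3373 301 3404 456)
 (.a 0 [301,425] (.q 365 (.a 1 [] (.d 334 3375 303 3406 458)
 (.a 1 [303] (.d 458 3406 334 3437 489)
 (.a 0 [334,458] (.q 460 (.a 1 [] (.d 493 2409 361 2442 526)
 (.a 1 [361] (.r 364 1356 428 (.d 366 362 362 363 367))
 .e)))
 .e))))
 .e))))
 .e))))
 .e)))) (by decide +kernel)

theorem v0_1218 : VW (PX [399] [366,432,498]) := VW.of base nl_ok fl_ok .nil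
  [(465, (.cons 531 564 .nil (.cons 564 531 .nil .nil))), (531, (.cons 465 564 .nil (.cons 564 465 (.cons 597 630 .nil (.cons 630 597 .nil .nil)) .nil))), (564, (.cons 465 531 .nil (.cons 531 465 (.cons 597 630 .nil (.cons 630 597 .nil .nil)) .nil)))]
  [([330], (PX [399] [330,366,432,498])), ([332], (PX [399] [332,366,432,498])), ([333], (PX [399] [333,366,432,498])), ([335], (PX [399] [335,366,432,498])), ([365], (PX [399] [365,366,432,498])), ([392], (PX [399] [366,392,432,498])), ([425], (PX [399] [366,425,432,498])), ([428], (PX [399] [366,428,432,498])), ([490], (PX [399] [366,432,490,498]))]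
  (by decide +kernel) ⟨b0_3439, b0_3440, b0_3441, b0_3442, b0_3443, b0_3444, b0_3445, b0_3446, b0_3447, trivial⟩

theorem v0_1239 : VW (PX [432] [366,465,498]) := VW.of base nl_ok fl_ok .nil
  [(531, (.cons 564 597 .nil (.cons 597 564 .nil .nil))), (564, (.cons 531 597 .nil (.cons 597 531 .nil .nil))), (597, (.cons 531 564 .nil (.cons 564 531 .nil .nil)))]
  [([330], (PX [432] [330,366,465,498])), ([332], (PX [432] [332,366,465,498])), ([335], (PX [432] [335,366,465,498])), ([365], (PX [432] [365,366,465,498])), ([425], (PX [432] [366,425,465,498])), ([428], (PX [432] [366,428,465,498])), ([490], (PX [432] [366,465,490,498]))]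
  (by decide +kernel) ⟨b0_3823, b0_3824, b0_3825, b0_3826, b0_3827, b0_3828, b0_3829, trivial⟩

theorem w0_1240_432 : S (PX [] [366,432,498]) := VW.play 399 (PX [399] [366,432,498]) (by decide +kernel) v0_1218

theorem w0_1240_465 : S (PX [] [366,465,498]) := VW.play 432 (PX [432] [366,465,498]) (by decide +kernel) v0_1239

theorem v0_1240 : VW (PX [] [366,498]) := VW.of base nl_ok fl_ok .nil
  []
  [([330], (PX [] [330,366,498])), ([332], (PX [] [332,366,498])), ([335], (PX [] [335,366,498])), ([365], (PX [] [365,366,498])), ([399], (PX [] [366,399,498])), ([425], (PX [] [366,425,498])), ([428], (PX [] [366,428,498])), ([432], (PX [] [366,432,498])), ([465], (PX [] [366,465,498])), ([490], (PX [] [366,490,498]))]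
  (by decide +kernel) ⟨b0_3432, b0_3433, b0_3434, b0_3435, b0_3436, b0_3437, b0_3438, w0_1240_432, w0_1240_465, b0_3830, trivial⟩

theorem v0_1241 : VW (PX [] [370,498]) := VW.of base nl_ok fl_ok .nil
  [(402, (.cons 434 466 (.cons 306 338 .nil (.cons 338 306 .nil .nil)) (.cons 466 434 .nil .nil))), (434, (.cons 402 466 (.cons 306 338 .nil (.cons 338 306 .nil .nil)) (.cons 466 402 (.cons 530 562 .nil (.cons 562 530 .nil .nil)) .nil))), (466, (.cons 402 434 .nil (.cons 434 402 (.cons 530 562 .nil (.cons 562 530 .nil .nil)) .nil)))]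
  []
  (by decide +kernel) trivial

theorem v0_1245 : VW (PX [467] [374,436,498]) := VW.of base nl_ok fl_ok .nil
  [(312, (.cons 343 405 (.cons 250 281 .nil (.cons 281 250 .nil .nil)) (.cons 405 343 .nil .nil))), (343, (.cons 312 405 (.cons 250 281 .nil (.cons 281 250 .nil .nil)) (.cons 405 312 .nil .nil))), (405, (.cons 312 343 .nil (.cons 343 312 .nil .nil)))]
  []
  (by decide +kernel) trivial

theorem v0_1251 : VW (PX [436,529] [374,467,498,591]) := VW.of base nl_ok fl_ok .nil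
  []
  []
  (by decide +kernel) trivial

theorem w0_1253_591 : S (PX [436] [374,467,498,591]) := VW.play 529 (PX [436,529] [374,467,498,591]) (by decide +kernel) v0_1251

theorem v0_1253 : VW (PX [436] [374,467,498]) := VW.of base nl_ok fl_ok .nil
  [(529, (.cons 560 591 .nil (.cons 591 560 .nil .nil))), (560, (.cons 529 591 .nil (.cons 591 529 .nil .nil)))]
  [([591], (PX [436] [374,467,498,591]))]
  (by decide +kernel) ⟨w0_1253_591, trivial⟩

theorem w0_1254_436 : S (PX [] [374,436,498]) := VW.play 467 (PX [467] [374,436,498]) (by decide +kernel) v0_1245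

theorem w0_1254_467 : S (PX [] [374,467,498]) := VW.play 436 (PX [436] [374,467,498]) (by decide +kernel) v0_1253

theorem v0_1254 : VW (PX [] [374,498]) := VW.of base nl_ok fl_ok .nil
  [(405, (.cons 436 467 (.cons 312 343 .nil (.cons 343 312 .nil .nil)) (.cons 467 436 .nil .nil)))]
  [([436], (PX [] [374,436,498])), ([467], (PX [] [374,467,498]))]
  (by decide +kernel) ⟨w0_1254_436, w0_1254_467, trivial⟩

theorem v0_1256 : VW (PX [366,531] [399,432,465,498]) := VW.of base nl_ok fl_ok .nil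
  []
  [([400], (PX [366,531] [399,400,432,465,498])), ([428], (PX [366,531] [399,428,432,465,498]))]
  (by decide +kernel) ⟨b0_3875, b0_3876, trivial⟩

theorem v0_1257 : VW (PX [366,465] [399,432,498,531]) := VW.of base nl_ok fl_ok .nil
  [(564, (.cons 597 630 .nil (.cons 630 597 .nil .nil))), (597, (.cons 564 630 .nil (.cons 630 564 .nil .nil))), (630, (.cons 564 597 .nil (.cons 597 564 .nil .nil)))]
  [([400], (PX [366,465] [399,400,432,498,531]))]
  (by decide +kernel) ⟨b0_3877, trivial⟩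

theorem w0_1258_465 : S (PX [366] [399,432,465,498]) := VW.play 531 (PX [366,531] [399,432,465,498]) (by decide +kernel) v0_1256

theorem w0_1258_531 : S (PX [366] [399,432,498,531]) := VW.play 465 (PX [366,465] [399,432,498,531]) (by decide +kernel) v0_1257

theorem v0_1258 : VW (PX [366] [399,432,498]) := VW.of base nl_ok fl_ok (.cons 465 531 .nil (.cons 531 465 .nil .nil))
  [(564, (.cons 465 531 .nil (.cons 531 465 (.cons 597 630 .nil (.cons 630 597 .nil .nil)) .nil))), (597, (.cons 465 531 .nil (.cons 531 465 (.cons 564 630 .nil (.cons 630 564 .nil .nil)) .nil))), (630, (.cons 465 531 .nil (.cons 531 465 (.cons 564 597 .nil (.cons 597 564 .nil .nil)) .nil)))]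
  [([333], (PX [366] [333,399,432,498])), ([400], (PX [366] [399,400,432,498])), ([428], (PX [366] [399,428,432,498])), ([461], (PX [366] [399,432,461,498])), ([465], (PX [366] [399,432,465,498])), ([531], (PX [366] [399,432,498,531]))]
  (by decide +kernel) ⟨b0_3871, b0_3872, b0_3873, b0_3874, w0_1258_465, w0_1258_531, trivial⟩

theorem v0_1275 : VW (PX [432] [399,465,498]) := VW.of base nl_ok fl_ok .nil
  [(531, (.cons 564 597 .nil (.cons 597 564 .nil .nil))), (564, (.cons 531 597 .nil (.cons 597 531 .nil .nil))), (597, (.cons 531 564 .nil (.cons 564 531 .nil .nil)))]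
  [([400], (PX [432] [399,400,465,498]))]
  (by decide +kernel) ⟨b0_3959, trivial⟩

theorem w0_1276_432 : S (PX [] [399,432,498]) := VW.play 366 (PX [366] [399,432,498]) (by decide +kernel) v0_1258

theorem w0_1276_465 : S (PX [] [399,465,498]) := VW.play 432 (PX [432] [399,465,498]) (by decide +kernel) v0_1275

theorem v0_1276 : VW (PX [] [399,498]) := VW.of base nl_ok fl_ok .nil
  [(531, (.cons 432 465 .nil (.cons 465 432 (.cons 564 597 .nil (.cons 597 564 .nil .nil)) .nil)))]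
  [([366], (PX [] [366,399,498])), ([400], (PX [] [399,400,498])), ([432], (PX [] [399,432,498])), ([465], (PX [] [399,465,498]))]
  (by decide +kernel) ⟨b0_3436, b0_3831, w0_1276_432, w0_1276_465, trivial⟩

theorem v0_382 : VW (PX [466] [402,434,498]) := VW.of base nl_ok fl_ok .nil
  [(306, (.cons 338 370 .nil (.cons 370 338 .nil .nil))), (338, (.cons 306 370 .nil (.cons 370 306 .nil .nil))), (370, (.cons 306 338 .nil (.cons 338 306 .nil .nil)))]
  []
  (by decide +kernel) trivial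

theorem v0_450 : VW (PX [434] [402,466,498]) := VW.of base nl_ok fl_ok .nil
  [(530, (.cons 562 594 .nil (.cons 594 562 .nil .nil))), (562, (.cons 530 594 .nil (.cons 594 530 .nil .nil))), (594, (.cons 530 562 .nil (.cons 562 530 .nil .nil)))]
  []
  (by decide +kernel) trivial

theorem w0_495_434 : S (PX [] [402,434,498]) := VW.play 466 (PX [466] [402,434,498]) (by decide +kernel) v0_382

theorem w0_495_466 : S (PX [] [402,466,498]) := VW.play 434 (PX [434] [402,466,498]) (by decide +kernel) v0_450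

theorem v0_495 : VW (PX [] [402,498]) := VW.of base nl_ok fl_ok .nil
  [(370, (.cons 434 466 (.cons 306 338 .nil (.cons 338 306 .nil .nil)) (.cons 466 434 .nil .nil))), (530, (.cons 434 466 .nil (.cons 466 434 (.cons 562 594 .nil (.cons 594 562 .nil .nil)) .nil)))]
  [([434], (PX [] [402,434,498])), ([466], (PX [] [402,466,498]))]
  (by decide +kernel) ⟨w0_495_434, w0_495_466, trivial⟩

theorem v0_1277 : VW (PX [467] [405,436,498]) := VW.of base nl_ok fl_ok .nil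
  [(312, (.cons 343 374 .nil (.cons 374 343 .nil .nil))), (343, (.cons 312 374 .nil (.cons 374 312 .nil .nil))), (374, (.cons 312 343 .nil (.cons 343 312 .nil .nil)))]
  []
  (by decide +kernel) trivial

theorem v0_1293 : VW (PX [436,529] [405,467,498,591]) := VW.of base nl_ok fl_ok .nil
  []
  []
  (by decide +kernel) trivial

theorem w0_1295_591 : S (PX [436] [405,467,498,591]) := VW.play 529 (PX [436,529] [405,467,498,591]) (by decide +kernel) v0_1293

theorem v0_1295 : VW (PX [436] [405,467,498]) := VW.of base nl_ok fl_ok .nil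
  [(529, (.cons 560 591 .nil (.cons 591 560 .nil .nil))), (560, (.cons 529 591 .nil (.cons 591 529 .nil .nil)))]
  [([591], (PX [436] [405,467,498,591]))]
  (by decide +kernel) ⟨w0_1295_591, trivial⟩

theorem w0_1298_436 : S (PX [] [405,436,498]) := VW.play 467 (PX [467] [405,436,498]) (by decide +kernel) v0_1277

theorem w0_1298_467 : S (PX [] [405,467,498]) := VW.play 436 (PX [436] [405,467,498]) (by decide +kernel) v0_1295

theorem v0_1298 : VW (PX [] [405,498]) := VW.of base nl_ok fl_ok .nil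
  [(374, (.cons 436 467 (.cons 312 343 .nil (.cons 343 312 .nil .nil)) (.cons 467 436 .nil .nil))), (529, (.cons 436 467 .nil (.cons 467 436 (.cons 560 591 .nil (.cons 591 560 .nil .nil)) .nil)))]
  [([436], (PX [] [405,436,498])), ([467], (PX [] [405,467,498]))]
  (by decide +kernel) ⟨w0_1298_436, w0_1298_467, trivial⟩

theorem v0_1299 : VW (PX [399,564] [432,465,498,531]) := VW.of base nl_ok fl_ok .nil
  []
  [([428], (PX [399,564] [428,432,465,498,531]))]
  (by decide +kernel) ⟨b0_3961, trivial⟩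

theorem v0_1300 : VW (PX [399,531] [432,465,498,564]) := VW.of base nl_ok fl_ok .nil
  []
  [([428], (PX [399,531] [428,432,465,498,564]))]
  (by decide +kernel) ⟨b0_3962, trivial⟩

theorem w0_1301_531 : S (PX [399] [432,465,498,531]) := VW.play 564 (PX [399,564] [432,465,498,531]) (by decide +kernel) v0_1299

theorem w0_1301_564 : S (PX [399] [432,465,498,564]) := VW.play 531 (PX [399,531] [432,465,498,564]) (by decide +kernel) v0_1300

theorem v0_1301 : VW (PX [399] [432,465,498]) := VW.of base nl_ok fl_ok (.cons 531 564 .nil (.cons 564 531 .nil .nil))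
  [(597, (.cons 531 564 .nil (.cons 564 531 .nil .nil))), (630, (.cons 531 564 .nil (.cons 564 531 .nil .nil))), (663, (.cons 531 564 .nil (.cons 564 531 .nil .nil)))]
  [([428], (PX [399] [428,432,465,498])), ([531], (PX [399] [432,465,498,531])), ([564], (PX [399] [432,465,498,564]))]
  (by decide +kernel) ⟨b0_3960, w0_1301_531, w0_1301_564, trivial⟩

theorem v0_1302 : VW (PX [465] [432,498,531]) := VW.of base nl_ok fl_ok .nil
  [(564, (.cons 597 630 .nil (.cons 630 597 .nil .nil))), (597, (.cons 564 630 .nil (.cons 630 564 .nil .nil))), (630, (.cons 564 597 .nil (.cons 597 564 .nil .nil)))]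
  []
  (by decide +kernel) trivial

theorem v0_1303 : VW (PX [465] [432,498,564]) := VW.of base nl_ok fl_ok .nil
  [(531, (.cons 597 630 .nil (.cons 630 597 .nil .nil))), (597, (.cons 531 630 .nil (.cons 630 531 (.cons 663 696 .nil (.cons 696 663 .nil .nil)) .nil))), (630, (.cons 531 597 .nil (.cons 597 531 (.cons 663 696 .nil (.cons 696 663 .nil .nil)) .nil)))]
  []
  (by decide +kernel) trivial

theorem w0_1317_366 : S (PX [] [366,432,498]) := VW.play 399 (PX [399] [366,432,498]) (by decide +kernel) v0_1218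

theorem w0_1317_399 : S (PX [] [399,432,498]) := VW.play 366 (PX [366] [399,432,498]) (by decide +kernel) v0_1258

theorem w0_1317_465 : S (PX [] [432,465,498]) := VW.play 399 (PX [399] [432,465,498]) (by decide +kernel) v0_1301

theorem w0_1317_531 : S (PX [] [432,498,531]) := VW.play 465 (PX [465] [432,498,531]) (by decide +kernel) v0_1302

theorem w0_1317_564 : S (PX [] [432,498,564]) := VW.play 465 (PX [465] [432,498,564]) (by decide +kernel) v0_1303

theorem v0_1317 : VW (PX [] [432,498]) := VW.of base nl_ok fl_ok .nil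
  []
  [([366], (PX [] [366,432,498])), ([399], (PX [] [399,432,498])), ([465], (PX [] [432,465,498])), ([531], (PX [] [432,498,531])), ([564], (PX [] [432,498,564]))]
  (by decide +kernel) ⟨w0_1317_366, w0_1317_399, w0_1317_465, w0_1317_531, w0_1317_564, trivial⟩

theorem v0_811 : VW (PX [402,562] [434,466,498,530]) := VW.of base nl_ok fl_ok .nil
  []
  []
  (by decide +kernel) trivial

theorem v0_812 : VW (PX [402,530] [434,466,498,562]) := VW.of base nl_ok fl_ok .nil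
  []
  []
  (by decide +kernel) trivial

theorem w0_813_530 : S (PX [402] [434,466,498,530]) := VW.play 562 (PX [402,562] [434,466,498,530]) (by decide +kernel) v0_811

theorem w0_813_562 : S (PX [402] [434,466,498,562]) := VW.play 530 (PX [402,530] [434,466,498,562]) (by decide +kernel) v0_812

theorem v0_813 : VW (PX [402] [434,466,498]) := VW.of base nl_ok fl_ok (.cons 530 562 .nil (.cons 562 530 .nil .nil))
  [(594, (.cons 530 562 .nil (.cons 562 530 .nil .nil))), (626, (.cons 530 562 .nil (.cons 562 530 .nil .nil))), (658, (.cons 530 562 .nil (.cons 562 530 .nil .nil)))]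
  [([530], (PX [402] [434,466,498,530])), ([562], (PX [402] [434,466,498,562]))]
  (by decide +kernel) ⟨w0_813_530, w0_813_562, trivial⟩

theorem v0_871 : VW (PX [466] [434,498,530]) := VW.of base nl_ok fl_ok .nil
  [(562, (.cons 594 626 .nil (.cons 626 594 .nil .nil))), (594, (.cons 562 626 .nil (.cons 626 562 .nil .nil))), (626, (.cons 562 594 .nil (.cons 594 562 .nil .nil)))]
  []
  (by decide +kernel) trivial

theorem w0_874_402 : S (PX [] [402,434,498]) := VW.play 466 (PX [466] [402,434,498]) (by decide +kernel) v0_382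

theorem w0_874_466 : S (PX [] [434,466,498]) := VW.play 402 (PX [402] [434,466,498]) (by decide +kernel) v0_813

theorem w0_874_530 : S (PX [] [434,498,530]) := VW.play 466 (PX [466] [434,498,530]) (by decide +kernel) v0_871

theorem v0_874 : VW (PX [] [434,498]) := VW.of base nl_ok fl_ok .nil
  [(370, (.cons 402 466 (.cons 306 338 .nil (.cons 338 306 .nil .nil)) (.cons 466 402 (.cons 530 562 .nil (.cons 562 530 .nil .nil)) .nil))), (562, (.cons 466 530 (.cons 370 402 .nil (.cons 402 370 .nil .nil)) (.cons 530 466 (.cons 594 626 .nil (.cons 626 594 .nil .nil)) .nil)))]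
  [([402], (PX [] [402,434,498])), ([466], (PX [] [434,466,498])), ([530], (PX [] [434,498,530]))]
  (by decide +kernel) ⟨w0_874_402, w0_874_466, w0_874_530, trivial⟩

theorem v0_1318 : VW (PX [405,529] [374,436,467,498]) := VW.of base nl_ok fl_ok .nil
  []
  []
  (by decide +kernel) trivial

theorem v0_1291 : VW (PX [374,529] [405,436,467,498]) := VW.of base nl_ok fl_ok .nil
  []
  []
  (by decide +kernel) trivial

theorem w0_1319_374 : S (PX [529] [374,436,467,498]) := VW.play 405 (PX [405,529] [374,436,467,498]) (by decide +kernel) v0_1318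

theorem w0_1319_405 : S (PX [529] [405,436,467,498]) := VW.play 374 (PX [374,529] [405,436,467,498]) (by decide +kernel) v0_1291

theorem v0_1319 : VW (PX [529] [436,467,498]) := VW.of base nl_ok fl_ok (.cons 374 405 .nil (.cons 405 374 .nil .nil))
  [(281, (.cons 374 405 .nil (.cons 405 374 .nil .nil))), (312, (.cons 374 405 .nil (.cons 405 374 .nil .nil))), (343, (.cons 374 405 .nil (.cons 405 374 .nil .nil)))]
  [([374], (PX [529] [374,436,467,498])), ([405], (PX [529] [405,436,467,498]))]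
  (by decide +kernel) ⟨w0_1319_374, w0_1319_405, trivial⟩

theorem v0_1320 : VW (PX [467] [436,498,529]) := VW.of base nl_ok fl_ok .nil
  [(560, (.cons 591 622 .nil (.cons 622 591 .nil .nil))), (591, (.cons 560 622 .nil (.cons 622 560 .nil .nil))), (622, (.cons 560 591 .nil (.cons 591 560 .nil .nil)))]
  []
  (by decide +kernel) trivial

theorem w0_1324_374 : S (PX [] [374,436,498]) := VW.play 467 (PX [467] [374,436,498]) (by decide +kernel) v0_1245

theorem w0_1324_405 : S (PX [] [405,436,498]) := VW.play 467 (PX [467] [405,436,498]) (by decide +kernel) v0_1277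

theorem w0_1324_467 : S (PX [] [436,467,498]) := VW.play 529 (PX [529] [436,467,498]) (by decide +kernel) v0_1319

theorem w0_1324_529 : S (PX [] [436,498,529]) := VW.play 467 (PX [467] [436,498,529]) (by decide +kernel) v0_1320

theorem v0_1324 : VW (PX [] [436,498]) := VW.of base nl_ok fl_ok .nil
  [(560, (.cons 467 529 (.cons 374 405 .nil (.cons 405 374 .nil .nil)) (.cons 529 467 (.cons 591 622 .nil (.cons 622 591 .nil .nil)) .nil)))]
  [([374], (PX [] [374,436,498])), ([405], (PX [] [405,436,498])), ([467], (PX [] [436,467,498])), ([529], (PX [] [436,498,529]))]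
  (by decide +kernel) ⟨w0_1324_374, w0_1324_405, w0_1324_467, w0_1324_529, trivial⟩

theorem v0_1325 : VW (PX [432,597] [465,498,531,564]) := VW.of base nl_ok fl_ok .nil
  []
  []
  (by decide +kernel) trivial

theorem v0_1326 : VW (PX [432,564] [465,498,531,597]) := VW.of base nl_ok fl_ok .nil
  []
  []
  (by decide +kernel) trivial

theorem w0_1327_564 : S (PX [432] [465,498,531,564]) := VW.play 597 (PX [432,597] [465,498,531,564]) (by decide +kernel) v0_1325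

theorem w0_1327_597 : S (PX [432] [465,498,531,597]) := VW.play 564 (PX [432,564] [465,498,531,597]) (by decide +kernel) v0_1326

theorem v0_1327 : VW (PX [432] [465,498,531]) := VW.of base nl_ok fl_ok (.cons 564 597 .nil (.cons 597 564 .nil .nil))
  [(630, (.cons 564 597 .nil (.cons 597 564 .nil .nil))), (663, (.cons 564 597 .nil (.cons 597 564 .nil .nil))), (696, (.cons 564 597 .nil (.cons 597 564 .nil .nil)))]
  [([564], (PX [432] [465,498,531,564])), ([597], (PX [432] [465,498,531,597]))]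
  (by decide +kernel) ⟨w0_1327_564, w0_1327_597, trivial⟩

theorem v0_1328 : VW (PX [432,531] [465,498,564,597]) := VW.of base nl_ok fl_ok .nil
  [(630, (.cons 663 696 .nil (.cons 696 663 .nil .nil))), (663, (.cons 630 696 .nil (.cons 696 630 .nil .nil))), (696, (.cons 630 663 .nil (.cons 663 630 .nil .nil)))]
  []
  (by decide +kernel) trivial

theorem w0_1329_531 : S (PX [432] [465,498,531,564]) := VW.play 597 (PX [432,597] [465,498,531,564]) (by decide +kernel) v0_1325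

theorem w0_1329_597 : S (PX [432] [465,498,564,597]) := VW.play 531 (PX [432,531] [465,498,564,597]) (by decide +kernel) v0_1328

theorem v0_1329 : VW (PX [432] [465,498,564]) := VW.of base nl_ok fl_ok (.cons 531 597 .nil (.cons 597 531 .nil .nil))
  [(630, (.cons 531 597 .nil (.cons 597 531 (.cons 663 696 .nil (.cons 696 663 .nil .nil)) .nil))), (663, (.cons 531 597 .nil (.cons 597 531 (.cons 630 696 .nil (.cons 696 630 .nil .nil)) .nil))), (696, (.cons 531 597 .nil (.cons 597 531 (.cons 630 663 .nil (.cons 663 630 .nil .nil)) .nil)))]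
  [([531], (PX [432] [465,498,531,564])), ([597], (PX [432] [465,498,564,597]))]
  (by decide +kernel) ⟨w0_1329_531, w0_1329_597, trivial⟩

theorem v0_1334 : VW (PX [432,531] [366,465,498,597]) := VW.of base nl_ok fl_ok .nil
  []
  [([330], (PX [432,531] [330,366,465,498,597])), ([332], (PX [432,531] [332,366,465,498,597])), ([335], (PX [432,531] [335,366,465,498,597])), ([365], (PX [432,531] [365,366,465,498,597])), ([425], (PX [432,531] [366,425,465,498,597])), ([428], (PX [432,531] [366,428,465,498,597])), ([490], (PX [432,531] [366,465,490,498,597]))]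
  (by decide +kernel) ⟨b0_4176, b0_4177, b0_4178, b0_4179, b0_4180, b0_4181, b0_4182, trivial⟩

theorem v0_1270 : VW (PX [366,531] [399,465,498,597]) := VW.of base nl_ok fl_ok .nil
  []
  [([400], (PX [366,531] [399,400,465,498,597]))]
  (by decide +kernel) ⟨b0_3941, trivial⟩

theorem v0_1336 : VW (PX [366,531] [432,465,498,597]) := VW.of base nl_ok fl_ok .nil
  []
  [([428], (PX [366,531] [428,432,465,498,597]))]
  (by decide +kernel) ⟨b0_4184, trivial⟩

theorem w0_1338_366 : S (PX [531] [366,465,498,597]) := VW.play 432 (PX [432,531] [366,465,498,597]) (by decide +kernel) v0_1334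

theorem w0_1338_399 : S (PX [531] [399,465,498,597]) := VW.play 366 (PX [366,531] [399,465,498,597]) (by decide +kernel) v0_1270

theorem w0_1338_432 : S (PX [531] [432,465,498,597]) := VW.play 366 (PX [366,531] [432,465,498,597]) (by decide +kernel) v0_1336

theorem v0_1338 : VW (PX [531] [465,498,597]) := VW.of base nl_ok fl_ok .nil
  []
  [([366], (PX [531] [366,465,498,597])), ([399], (PX [531] [399,465,498,597])), ([432], (PX [531] [432,465,498,597]))]
  (by decide +kernel) ⟨w0_1338_366, w0_1338_399, w0_1338_432, trivial⟩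

theorem w0_1346_366 : S (PX [] [366,465,498]) := VW.play 432 (PX [432] [366,465,498]) (by decide +kernel) v0_1239

theorem w0_1346_399 : S (PX [] [399,465,498]) := VW.play 432 (PX [432] [399,465,498]) (by decide +kernel) v0_1275

theorem w0_1346_432 : S (PX [] [432,465,498]) := VW.play 399 (PX [399] [432,465,498]) (by decide +kernel) v0_1301

theorem w0_1346_531 : S (PX [] [465,498,531]) := VW.play 432 (PX [432] [465,498,531]) (by decide +kernel) v0_1327

theorem w0_1346_564 : S (PX [] [465,498,564]) := VW.play 432 (PX [432] [465,498,564]) (by decide +kernel) v0_1329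

theorem w0_1346_597 : S (PX [] [465,498,597]) := VW.play 531 (PX [531] [465,498,597]) (by decide +kernel) v0_1338

theorem v0_1346 : VW (PX [] [465,498]) := VW.of base nl_ok fl_ok .nil
  []
  [([366], (PX [] [366,465,498])), ([399], (PX [] [399,465,498])), ([432], (PX [] [432,465,498])), ([531], (PX [] [465,498,531])), ([564], (PX [] [465,498,564])), ([597], (PX [] [465,498,597]))]
  (by decide +kernel) ⟨w0_1346_366, w0_1346_399, w0_1346_432, w0_1346_531, w0_1346_564, w0_1346_597, trivial⟩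

theorem v0_1120 : VW (PX [434,594] [466,498,530,562]) := VW.of base nl_ok fl_ok .nil
  []
  []
  (by decide +kernel) trivial

theorem v0_1121 : VW (PX [434,562] [466,498,530,594]) := VW.of base nl_ok fl_ok .nil
  []
  []
  (by decide +kernel) trivial

theorem w0_1122_562 : S (PX [434] [466,498,530,562]) := VW.play 594 (PX [434,594] [466,498,530,562]) (by decide +kernel) v0_1120

theorem w0_1122_594 : S (PX [434] [466,498,530,594]) := VW.play 562 (PX [434,562] [466,498,530,594]) (by decide +kernel) v0_1121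

theorem v0_1122 : VW (PX [434] [466,498,530]) := VW.of base nl_ok fl_ok (.cons 562 594 .nil (.cons 594 562 .nil .nil))
  [(626, (.cons 562 594 .nil (.cons 594 562 .nil .nil))), (658, (.cons 562 594 .nil (.cons 594 562 .nil .nil))), (690, (.cons 562 594 .nil (.cons 594 562 .nil .nil)))]
  [([562], (PX [434] [466,498,530,562])), ([594], (PX [434] [466,498,530,594]))]
  (by decide +kernel) ⟨w0_1122_562, w0_1122_594, trivial⟩

theorem v0_1127 : VW (PX [530] [466,498,562]) := VW.of base nl_ok fl_ok .nil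
  [(370, (.cons 402 434 .nil (.cons 434 402 .nil .nil))), (402, (.cons 370 434 .nil (.cons 434 370 .nil .nil))), (434, (.cons 370 402 .nil (.cons 402 370 .nil .nil)))]
  []
  (by decide +kernel) trivial

theorem w0_1139_402 : S (PX [] [402,466,498]) := VW.play 434 (PX [434] [402,466,498]) (by decide +kernel) v0_450

theorem w0_1139_434 : S (PX [] [434,466,498]) := VW.play 402 (PX [402] [434,466,498]) (by decide +kernel) v0_813

theorem w0_1139_530 : S (PX [] [466,498,530]) := VW.play 434 (PX [434] [466,498,530]) (by decide +kernel) v0_1122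

theorem w0_1139_562 : S (PX [] [466,498,562]) := VW.play 530 (PX [530] [466,498,562]) (by decide +kernel) v0_1127

theorem v0_1139 : VW (PX [] [466,498]) := VW.of base nl_ok fl_ok .nil
  [(370, (.cons 402 434 .nil (.cons 434 402 (.cons 530 562 .nil (.cons 562 530 .nil .nil)) .nil))), (594, (.cons 530 562 (.cons 402 434 .nil (.cons 434 402 .nil .nil)) (.cons 562 530 .nil .nil)))]
  [([402], (PX [] [402,466,498])), ([434], (PX [] [434,466,498])), ([530], (PX [] [466,498,530])), ([562], (PX [] [466,498,562]))]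
  (by decide +kernel) ⟨w0_1139_402, w0_1139_434, w0_1139_530, w0_1139_562, trivial⟩

theorem v0_1347 : VW (PX [436,560] [405,467,498,529]) := VW.of base nl_ok fl_ok .nil
  []
  []
  (by decide +kernel) trivial

theorem v0_1322 : VW (PX [405,560] [436,467,498,529]) := VW.of base nl_ok fl_ok .nil
  []
  []
  (by decide +kernel) trivial

theorem w0_1348_405 : S (PX [560] [405,467,498,529]) := VW.play 436 (PX [436,560] [405,467,498,529]) (by decide +kernel) v0_1347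

theorem w0_1348_436 : S (PX [560] [436,467,498,529]) := VW.play 405 (PX [405,560] [436,467,498,529]) (by decide +kernel) v0_1322

theorem v0_1348 : VW (PX [560] [467,498,529]) := VW.of base nl_ok fl_ok (.cons 405 436 .nil (.cons 436 405 .nil .nil))
  [(312, (.cons 405 436 .nil (.cons 436 405 .nil .nil))), (343, (.cons 405 436 .nil (.cons 436 405 .nil .nil))), (374, (.cons 405 436 .nil (.cons 436 405 .nil .nil)))]
  [([405], (PX [560] [405,467,498,529])), ([436], (PX [560] [436,467,498,529]))]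
  (by decide +kernel) ⟨w0_1348_405, w0_1348_436, trivial⟩

theorem v0_1349 : VW (PX [529] [467,498,560]) := VW.of base nl_ok fl_ok .nil
  [(374, (.cons 405 436 .nil (.cons 436 405 .nil .nil))), (405, (.cons 374 436 .nil (.cons 436 374 .nil .nil))), (436, (.cons 374 405 .nil (.cons 405 374 .nil .nil)))]
  []
  (by decide +kernel) trivial

theorem v0_1350 : VW (PX [529] [467,498,591]) := VW.of base nl_ok fl_ok .nil
  [(374, (.cons 405 436 .nil (.cons 436 405 .nil .nil))), (405, (.cons 374 436 .nil (.cons 436 374 .nil .nil))), (436, (.cons 374 405 .nil (.cons 405 374 .nil .nil)))]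
  []
  (by decide +kernel) trivial

theorem w0_1358_374 : S (PX [] [374,467,498]) := VW.play 436 (PX [436] [374,467,498]) (by decide +kernel) v0_1253

theorem w0_1358_405 : S (PX [] [405,467,498]) := VW.play 436 (PX [436] [405,467,498]) (by decide +kernel) v0_1295

theorem w0_1358_436 : S (PX [] [436,467,498]) := VW.play 529 (PX [529] [436,467,498]) (by decide +kernel) v0_1319

theorem w0_1358_529 : S (PX [] [467,498,529]) := VW.play 560 (PX [560] [467,498,529]) (by decide +kernel) v0_1348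

theorem w0_1358_560 : S (PX [] [467,498,560]) := VW.play 529 (PX [529] [467,498,560]) (by decide +kernel) v0_1349

theorem w0_1358_591 : S (PX [] [467,498,591]) := VW.play 529 (PX [529] [467,498,591]) (by decide +kernel) v0_1350

theorem v0_1358 : VW (PX [] [467,498]) := VW.of base nl_ok fl_ok .nil
  []
  [([374], (PX [] [374,467,498])), ([405], (PX [] [405,467,498])), ([436], (PX [] [436,467,498])), ([529], (PX [] [467,498,529])), ([560], (PX [] [467,498,560])), ([591], (PX [] [467,498,591]))]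
  (by decide +kernel) ⟨w0_1358_374, w0_1358_405, w0_1358_436, w0_1358_529, w0_1358_560, w0_1358_591, trivial⟩

theorem v0_1360 : VW (PX [493,496] [491,494,495,498]) := VW.of base nl_ok fl_ok .nil
  []
  [([297], (PX [493,496] [297,491,494,495,498])), ([330], (PX [493,496] [330,491,494,495,498])), ([332], (PX [493,496] [332,491,494,495,498])), ([425], (PX [493,496] [425,491,494,495,498])), ([427], (PX [493,496] [427,491,494,495,498])), ([456], (PX [493,496] [456,491,494,495,498])), ([457], (PX [493,496] [457,491,494,495,498])), ([460], (PX [493,496] [460,491,494,495,498])), ([527], (PX [493,496] [491,494,495,498,527]))]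
  (by decide +kernel) ⟨b0_4214, b0_4215, b0_4216, b0_4217, b0_4218, b0_4219, b0_4220, b0_4221, b0_4222, trivial⟩

theorem v0_1362 : VW (PX [493,496] [492,494,495,498]) := VW.of base nl_ok fl_ok .nil
  []
  [([297], (PX [493,496] [297,492,494,495,498])), ([330], (PX [493,496] [330,492,494,495,498])), ([332], (PX [493,496] [332,492,494,495,498])), ([393], (PX [493,496] [393,492,494,495,498])), ([395], (PX [493,496] [395,492,494,495,498])), ([425], (PX [493,496] [425,492,494,495,498]))]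
  (by decide +kernel) ⟨b0_4229, b0_4230, b0_4231, b0_4232, b0_4233, b0_4234, trivial⟩

theorem v0_1364 : VW (PX [492,496] [493,494,495,498]) := VW.of base nl_ok fl_ok .nil
  []
  (([297], (PX [492,496] [297,493,494,495,498])) :: ([299], (PX [492,496] [299,493,494,495,498])) :: ([300], (PX [492,496] [300,493,494,495,498])) :: ([301], (PX [492,496] [301,493,494,495,498])) :: ([332], (PX [492,496] [332,493,494,495,498])) :: ([365], (PX [492,496] [365,493,494,495,498])) :: ([395], (PX [492,496] [395,493,494,495,498])) :: ([397], (PX [492,496] [397,493,494,495,498])) :: ([425], (PX [492,496] [425,493,494,495,498])) :: ([426], (PX [492,496] [426,493,494,495,498])) :: ([427], (PX [492,496] [427,493,494,495,498])) :: ([428], (PX [492,496] [428,493,494,495,498])) :: ([429], (PX [492,496] [429,493,494,495,498])) :: ([461], (PX [492,496] [461,493,494,495,498])) :: [])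
  (by decide +kernel) ⟨b0_4249, b0_4250, b0_4251, b0_4252, b0_4253, b0_4254, b0_4255, b0_4256, b0_4257, b0_4258, b0_4259, b0_4260, b0_4261, b0_4262, trivial⟩

theorem w0_1365_491 : S (PX [496] [491,494,495,498]) := VW.play 493 (PX [493,496] [491,494,495,498]) (by decide +kernel) v0_1360

theorem w0_1365_492 : S (PX [496] [492,494,495,498]) := VW.play 493 (PX [493,496] [492,494,495,498]) (by decide +kernel) v0_1362

theorem w0_1365_493 : S (PX [496] [493,494,495,498]) := VW.play 492 (PX [492,496] [493,494,495,498]) (by decide +kernel) v0_1364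

theorem v0_1365 : VW (PX [496] [494,495,498]) := VW.of base nl_ok fl_ok .nil
  []
  [([393], (PX [496] [393,494,495,498])), ([395], (PX [496] [395,494,495,498])), ([428], (PX [496] [428,494,495,498])), ([491], (PX [496] [491,494,495,498])), ([492], (PX [496] [492,494,495,498])), ([493], (PX [496] [493,494,495,498]))]
  (by decide +kernel) ⟨b0_4202, b0_4203, b0_4204, w0_1365_491, w0_1365_492, w0_1365_493, trivial⟩

theorem v0_1373 : VW (PX [495] [494,496,498]) := VW.of base nl_ok fl_ok .nil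
  [(497, (.cons 499 500 .nil (.cons 500 499 .nil .nil))), (499, (.cons 497 500 .nil (.cons 500 497 (.cons 501 502 .nil (.cons 502 501 .nil .nil)) .nil))), (500, (.cons 497 499 .nil (.cons 499 497 (.cons 501 502 .nil (.cons 502 501 .nil .nil)) .nil)))]
  [([397], (PX [495] [397,494,496,498]))]
  (by decide +kernel) ⟨b0_4306, trivial⟩

theorem w0_1380_495 : S (PX [] [494,495,498]) := VW.play 496 (PX [496] [494,495,498]) (by decide +kernel) v0_1365

theorem w0_1380_496 : S (PX [] [494,496,498]) := VW.play 495 (PX [495] [494,496,498]) (by decide +kernel) v0_1373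

theorem v0_1380 : VW (PX [] [494,498]) := VW.of base nl_ok fl_ok .nil
  [(497, (.cons 495 496 .nil (.cons 496 495 (.cons 499 500 .nil (.cons 500 499 .nil .nil)) .nil)))]
  [([495], (PX [] [494,495,498])), ([496], (PX [] [494,496,498]))]
  (by decide +kernel) ⟨w0_1380_495, w0_1380_496, trivial⟩

theorem v0_1381 : VW (PX [493,497] [492,495,496,498]) := VW.of base nl_ok fl_ok .nil
  []
  [([332], (PX [493,497] [332,492,495,496,498])), ([393], (PX [493,497] [393,492,495,496,498])), ([425], (PX [493,497] [425,492,495,496,498]))]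
  (by decide +kernel) ⟨b0_4518, b0_4519, b0_4520, trivial⟩

theorem v0_1383 : VW (PX [494,497] [493,495,496,498]) := VW.of base nl_ok fl_ok .nil
  []
  (([297], (PX [494,497] [297,493,495,496,498])) :: ([298], (PX [494,497] [298,493,495,496,498])) :: ([299], (PX [494,497] [299,493,495,496,498])) :: ([300], (PX [494,497] [300,493,495,496,498])) :: ([301], (PX [494,497] [301,493,495,496,498])) :: ([332], (PX [494,497] [332,493,495,496,498])) :: ([365], (PX [494,497] [365,493,495,496,498])) :: ([397], (PX [494,497] [397,493,495,496,498])) :: ([425], (PX [494,497] [425,493,495,496,498])) :: ([426], (PX [494,497] [426,493,495,496,498])) :: ([427], (PX [494,497] [427,493,495,496,498])) :: ([428], (PX [494,497] [428,493,495,496,498])) :: ([429], (PX [494,497] [429,493,495,496,498])) :: ([461], (PX [494,497] [461,493,495,496,498])) :: [])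
  (by decide +kernel) ⟨b0_4531, b0_4532, b0_4533, b0_4534, b0_4535, b0_4536, b0_4537, b0_4538, b0_4539, b0_4540, b0_4541, b0_4542, b0_4543, b0_4544, trivial⟩

theorem v0_1370 : VW (PX [492,497] [494,495,496,498]) := VW.of base nl_ok fl_ok .nil
  []
  [([397], (PX [492,497] [397,494,495,496,498]))]
  (by decide +kernel) ⟨b0_4304, trivial⟩

theorem w0_1384_492 : S (PX [497] [492,495,496,498]) := VW.play 493 (PX [493,497] [492,495,496,498]) (by decide +kernel) v0_1381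

theorem w0_1384_493 : S (PX [497] [493,495,496,498]) := VW.play 494 (PX [494,497] [493,495,496,498]) (by decide +kernel) v0_1383

theorem w0_1384_494 : S (PX [497] [494,495,496,498]) := VW.play 492 (PX [492,497] [494,495,496,498]) (by decide +kernel) v0_1370

theorem v0_1384 : VW (PX [497] [495,496,498]) := VW.of base nl_ok fl_ok .nil
  []
  [([364], (PX [497] [364,495,496,498])), ([492], (PX [497] [492,495,496,498])), ([493], (PX [497] [493,495,496,498])), ([494], (PX [497] [494,495,496,498]))]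
  (by decide +kernel) ⟨b0_4517, w0_1384_492, w0_1384_493, w0_1384_494, trivial⟩

theorem v0_1385 : VW (PX [496] [495,497,498]) := VW.of base nl_ok fl_ok .nil
  [(499, (.cons 500 501 .nil (.cons 501 500 .nil .nil))), (500, (.cons 499 501 .nil (.cons 501 499 .nil .nil))), (501, (.cons 499 500 .nil (.cons 500 499 .nil .nil)))]
  []
  (by decide +kernel) trivial

theorem v0_1394 : VW (PX [497] [495,498,499]) := VW.of base nl_ok fl_ok .nil
  [(500, (.cons 501 502 .nil (.cons 502 501 .nil .nil))), (501, (.cons 500 502 .nil (.cons 502 500 .nil .nil))), (502, (.cons 500 501 .nil (.cons 501 500 .nil .nil)))]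
  []
  (by decide +kernel) trivial

theorem w0_1395_494 : S (PX [] [494,495,498]) := VW.play 496 (PX [496] [494,495,498]) (by decide +kernel) v0_1365

theorem w0_1395_496 : S (PX [] [495,496,498]) := VW.play 497 (PX [497] [495,496,498]) (by decide +kernel) v0_1384

theorem w0_1395_497 : S (PX [] [495,497,498]) := VW.play 496 (PX [496] [495,497,498]) (by decide +kernel) v0_1385

theorem w0_1395_499 : S (PX [] [495,498,499]) := VW.play 497 (PX [497] [495,498,499]) (by decide +kernel) v0_1394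

theorem v0_1395 : VW (PX [] [495,498]) := VW.of base nl_ok fl_ok .nil
  []
  [([494], (PX [] [494,495,498])), ([496], (PX [] [495,496,498])), ([497], (PX [] [495,497,498])), ([499], (PX [] [495,498,499]))]
  (by decide +kernel) ⟨w0_1395_494, w0_1395_496, w0_1395_497, w0_1395_499, trivial⟩

theorem v0_1396 : VW (PX [495,500] [496,497,498,499]) := VW.of base nl_ok fl_ok .nil
  []
  []
  (by decide +kernel) trivial

theorem v0_1397 : VW (PX [495,499] [496,497,498,500]) := VW.of base nl_ok fl_ok .nil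
  []
  []
  (by decide +kernel) trivial

theorem w0_1398_499 : S (PX [495] [496,497,498,499]) := VW.play 500 (PX [495,500] [496,497,498,499]) (by decide +kernel) v0_1396

theorem w0_1398_500 : S (PX [495] [496,497,498,500]) := VW.play 499 (PX [495,499] [496,497,498,500]) (by decide +kernel) v0_1397

theorem v0_1398 : VW (PX [495] [496,497,498]) := VW.of base nl_ok fl_ok (.cons 499 500 .nil (.cons 500 499 .nil .nil))
  [(501, (.cons 499 500 .nil (.cons 500 499 .nil .nil))), (502, (.cons 499 500 .nil (.cons 500 499 .nil .nil))), (503, (.cons 499 500 .nil (.cons 500 499 .nil .nil)))]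
  [([499], (PX [495] [496,497,498,499])), ([500], (PX [495] [496,497,498,500]))]
  (by decide +kernel) ⟨w0_1398_499, w0_1398_500, trivial⟩

theorem v0_1399 : VW (PX [497] [496,498,499]) := VW.of base nl_ok fl_ok .nil
  [(500, (.cons 501 502 .nil (.cons 502 501 .nil .nil))), (501, (.cons 500 502 .nil (.cons 502 500 .nil .nil))), (502, (.cons 500 501 .nil (.cons 501 500 .nil .nil)))]
  []
  (by decide +kernel) trivial

theorem w0_1400_494 : S (PX [] [494,496,498]) := VW.play 495 (PX [495] [494,496,498]) (by decide +kernel) v0_1373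

theorem w0_1400_495 : S (PX [] [495,496,498]) := VW.play 497 (PX [497] [495,496,498]) (by decide +kernel) v0_1384

theorem w0_1400_497 : S (PX [] [496,497,498]) := VW.play 495 (PX [495] [496,497,498]) (by decide +kernel) v0_1398

theorem w0_1400_499 : S (PX [] [496,498,499]) := VW.play 497 (PX [497] [496,498,499]) (by decide +kernel) v0_1399

theorem v0_1400 : VW (PX [] [496,498]) := VW.of base nl_ok fl_ok .nil
  [(500, (.cons 497 499 (.cons 494 495 .nil (.cons 495 494 .nil .nil)) (.cons 499 497 (.cons 501 502 .nil (.cons 502 501 .nil .nil)) .nil)))]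
  [([494], (PX [] [494,496,498])), ([495], (PX [] [495,496,498])), ([497], (PX [] [496,497,498])), ([499], (PX [] [496,498,499]))]
  (by decide +kernel) ⟨w0_1400_494, w0_1400_495, w0_1400_497, w0_1400_499, trivial⟩

theorem v0_1401 : VW (PX [496,501] [497,498,499,500]) := VW.of base nl_ok fl_ok .nil
  []
  []
  (by decide +kernel) trivial

theorem v0_1402 : VW (PX [496,500] [497,498,499,501]) := VW.of base nl_ok fl_ok .nil
  []
  []
  (by decide +kernel) trivial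

theorem w0_1403_500 : S (PX [496] [497,498,499,500]) := VW.play 501 (PX [496,501] [497,498,499,500]) (by decide +kernel) v0_1401

theorem w0_1403_501 : S (PX [496] [497,498,499,501]) := VW.play 500 (PX [496,500] [497,498,499,501]) (by decide +kernel) v0_1402

theorem v0_1403 : VW (PX [496] [497,498,499]) := VW.of base nl_ok fl_ok (.cons 500 501 .nil (.cons 501 500 .nil .nil))
  [(502, (.cons 500 501 .nil (.cons 501 500 .nil .nil))), (503, (.cons 500 501 .nil (.cons 501 500 .nil .nil))), (504, (.cons 500 501 .nil (.cons 501 500 .nil .nil)))]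
  [([500], (PX [496] [497,498,499,500])), ([501], (PX [496] [497,498,499,501]))]
  (by decide +kernel) ⟨w0_1403_500, w0_1403_501, trivial⟩

theorem v0_1406 : VW (PX [494,499] [495,497,498,500]) := VW.of base nl_ok fl_ok .nil
  []
  []
  (by decide +kernel) trivial

theorem w0_1408_495 : S (PX [499] [495,497,498,500]) := VW.play 494 (PX [494,499] [495,497,498,500]) (by decide +kernel) v0_1406

theorem v0_1408 : VW (PX [499] [497,498,500]) := VW.of base nl_ok fl_ok .nil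
  [(494, (.cons 495 496 .nil (.cons 496 495 .nil .nil))), (496, (.cons 494 495 .nil (.cons 495 494 .nil .nil)))]
  [([495], (PX [499] [495,497,498,500]))]
  (by decide +kernel) ⟨w0_1408_495, trivial⟩

theorem w0_1409_495 : S (PX [] [495,497,498]) := VW.play 496 (PX [496] [495,497,498]) (by decide +kernel) v0_1385

theorem w0_1409_496 : S (PX [] [496,497,498]) := VW.play 495 (PX [495] [496,497,498]) (by decide +kernel) v0_1398

theorem w0_1409_499 : S (PX [] [497,498,499]) := VW.play 496 (PX [496] [497,498,499]) (by decide +kernel) v0_1403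

theorem w0_1409_500 : S (PX [] [497,498,500]) := VW.play 499 (PX [499] [497,498,500]) (by decide +kernel) v0_1408

theorem v0_1409 : VW (PX [] [497,498]) := VW.of base nl_ok fl_ok .nil
  [(494, (.cons 495 496 .nil (.cons 496 495 (.cons 499 500 .nil (.cons 500 499 .nil .nil)) .nil))), (501, (.cons 499 500 (.cons 495 496 .nil (.cons 496 495 .nil .nil)) (.cons 500 499 .nil .nil)))]
  [([495], (PX [] [495,497,498])), ([496], (PX [] [496,497,498])), ([499], (PX [] [497,498,499])), ([500], (PX [] [497,498,500]))]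
  (by decide +kernel) ⟨w0_1409_495, w0_1409_496, w0_1409_499, w0_1409_500, trivial⟩

theorem v0_1410 : VW (PX [497,502] [498,499,500,501]) := VW.of base nl_ok fl_ok .nil
  []
  []
  (by decide +kernel) trivial

theorem v0_1411 : VW (PX [497,501] [498,499,500,502]) := VW.of base nl_ok fl_ok .nil
  []
  []
  (by decide +kernel) trivial

theorem w0_1412_501 : S (PX [497] [498,499,500,501]) := VW.play 502 (PX [497,502] [498,499,500,501]) (by decide +kernel) v0_1410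

theorem w0_1412_502 : S (PX [497] [498,499,500,502]) := VW.play 501 (PX [497,501] [498,499,500,502]) (by decide +kernel) v0_1411

theorem v0_1412 : VW (PX [497] [498,499,500]) := VW.of base nl_ok fl_ok (.cons 501 502 .nil (.cons 502 501 .nil .nil))
  [(503, (.cons 501 502 .nil (.cons 502 501 .nil .nil))), (504, (.cons 501 502 .nil (.cons 502 501 .nil .nil))), (505, (.cons 501 502 .nil (.cons 502 501 .nil .nil)))]
  [([501], (PX [497] [498,499,500,501])), ([502], (PX [497] [498,499,500,502]))]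
  (by decide +kernel) ⟨w0_1412_501, w0_1412_502, trivial⟩

theorem v0_1392 : VW (PX [496,500] [495,498,499,501]) := VW.of base nl_ok fl_ok .nil
  []
  []
  (by decide +kernel) trivial

theorem w0_1416_495 : S (PX [500] [495,498,499,501]) := VW.play 496 (PX [496,500] [495,498,499,501]) (by decide +kernel) v0_1392

theorem v0_1416 : VW (PX [500] [498,499,501]) := VW.of base nl_ok fl_ok .nil
  [(496, (.cons 495 497 .nil (.cons 497 495 .nil .nil))), (497, (.cons 495 496 .nil (.cons 496 495 .nil .nil)))]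
  [([495], (PX [500] [495,498,499,501]))]
  (by decide +kernel) ⟨w0_1416_495, trivial⟩

theorem v0_1417 : VW (PX [496,500] [495,498,499,502]) := VW.of base nl_ok fl_ok .nil
  []
  []
  (by decide +kernel) trivial

theorem w0_1419_495 : S (PX [500] [495,498,499,502]) := VW.play 496 (PX [496,500] [495,498,499,502]) (by decide +kernel) v0_1417

theorem v0_1419 : VW (PX [500] [498,499,502]) := VW.of base nl_ok fl_ok .nil
  [(496, (.cons 495 497 .nil (.cons 497 495 .nil .nil))), (497, (.cons 495 496 .nil (.cons 496 495 .nil .nil)))]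
  [([495], (PX [500] [495,498,499,502]))]
  (by decide +kernel) ⟨w0_1419_495, trivial⟩

theorem w0_1427_495 : S (PX [] [495,498,499]) := VW.play 497 (PX [497] [495,498,499]) (by decide +kernel) v0_1394

theorem w0_1427_496 : S (PX [] [496,498,499]) := VW.play 497 (PX [497] [496,498,499]) (by decide +kernel) v0_1399

theorem w0_1427_497 : S (PX [] [497,498,499]) := VW.play 496 (PX [496] [497,498,499]) (by decide +kernel) v0_1403

theorem w0_1427_500 : S (PX [] [498,499,500]) := VW.play 497 (PX [497] [498,499,500]) (by decide +kernel) v0_1412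

theorem w0_1427_501 : S (PX [] [498,499,501]) := VW.play 500 (PX [500] [498,499,501]) (by decide +kernel) v0_1416

theorem w0_1427_502 : S (PX [] [498,499,502]) := VW.play 500 (PX [500] [498,499,502]) (by decide +kernel) v0_1419

theorem v0_1427 : VW (PX [] [498,499]) := VW.of base nl_ok fl_ok .nil
  []
  [([495], (PX [] [495,498,499])), ([496], (PX [] [496,498,499])), ([497], (PX [] [497,498,499])), ([500], (PX [] [498,499,500])), ([501], (PX [] [498,499,501])), ([502], (PX [] [498,499,502]))]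
  (by decide +kernel) ⟨w0_1427_495, w0_1427_496, w0_1427_497, w0_1427_500, w0_1427_501, w0_1427_502, trivial⟩

theorem v0_1442 : VW (PX [499] [498,500,501]) := VW.of base nl_ok fl_ok .nil
  [(502, (.cons 503 504 .nil (.cons 504 503 .nil .nil))), (503, (.cons 502 504 .nil (.cons 504 502 .nil .nil))), (504, (.cons 502 503 .nil (.cons 503 502 .nil .nil)))]
  []
  (by decide +kernel) trivial

theorem v0_1443 : VW (PX [499] [498,500,502]) := VW.of base nl_ok fl_ok .nil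
  [(501, (.cons 503 504 .nil (.cons 504 503 .nil .nil))), (503, (.cons 501 504 .nil (.cons 504 501 (.cons 505 506 .nil (.cons 506 505 .nil .nil)) .nil))), (504, (.cons 501 503 .nil (.cons 503 501 (.cons 505 506 .nil (.cons 506 505 .nil .nil)) .nil)))]
  []
  (by decide +kernel) trivial

theorem w0_1449_497 : S (PX [] [497,498,500]) := VW.play 499 (PX [499] [497,498,500]) (by decide +kernel) v0_1408

theorem w0_1449_499 : S (PX [] [498,499,500]) := VW.play 497 (PX [497] [498,499,500]) (by decide +kernel) v0_1412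

theorem w0_1449_501 : S (PX [] [498,500,501]) := VW.play 499 (PX [499] [498,500,501]) (by decide +kernel) v0_1442

theorem w0_1449_502 : S (PX [] [498,500,502]) := VW.play 499 (PX [499] [498,500,502]) (by decide +kernel) v0_1443

theorem v0_1449 : VW (PX [] [498,500]) := VW.of base nl_ok fl_ok .nil
  [(496, (.cons 497 499 (.cons 494 495 .nil (.cons 495 494 .nil .nil)) (.cons 499 497 (.cons 501 502 .nil (.cons 502 501 .nil .nil)) .nil)))]
  [([497], (PX [] [497,498,500])), ([499], (PX [] [498,499,500])), ([501], (PX [] [498,500,501])), ([502], (PX [] [498,500,502]))]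
  (by decide +kernel) ⟨w0_1449_497, w0_1449_499, w0_1449_501, w0_1449_502, trivial⟩

theorem w0_1450_499 : S (PX [] [498,499,501]) := VW.play 500 (PX [500] [498,499,501]) (by decide +kernel) v0_1416

theorem w0_1450_500 : S (PX [] [498,500,501]) := VW.play 499 (PX [499] [498,500,501]) (by decide +kernel) v0_1442

theorem v0_1450 : VW (PX [] [498,501]) := VW.of base nl_ok fl_ok .nil
  [(497, (.cons 499 500 (.cons 495 496 .nil (.cons 496 495 .nil .nil)) (.cons 500 499 .nil .nil))), (502, (.cons 499 500 .nil (.cons 500 499 (.cons 503 504 .nil (.cons 504 503 .nil .nil)) .nil)))]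
  [([499], (PX [] [498,499,501])), ([500], (PX [] [498,500,501]))]
  (by decide +kernel) ⟨w0_1450_499, w0_1450_500, trivial⟩

theorem w0_1451_499 : S (PX [] [498,499,502]) := VW.play 500 (PX [500] [498,499,502]) (by decide +kernel) v0_1419

theorem w0_1451_500 : S (PX [] [498,500,502]) := VW.play 499 (PX [499] [498,500,502]) (by decide +kernel) v0_1443

theorem v0_1451 : VW (PX [] [498,502]) := VW.of base nl_ok fl_ok .nil
  [(501, (.cons 499 500 .nil (.cons 500 499 (.cons 503 504 .nil (.cons 504 503 .nil .nil)) .nil)))]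
  [([499], (PX [] [498,499,502])), ([500], (PX [] [498,500,502]))]
  (by decide +kernel) ⟨w0_1451_499, w0_1451_500, trivial⟩

theorem v0_1452 : VW (PX [467,622] [498,529,560,591]) := VW.of base nl_ok fl_ok .nil
  []
  []
  (by decide +kernel) trivial

theorem v0_1453 : VW (PX [467,591] [498,529,560,622]) := VW.of base nl_ok fl_ok .nil
  []
  []
  (by decide +kernel) trivial

theorem w0_1454_591 : S (PX [467] [498,529,560,591]) := VW.play 622 (PX [467,622] [498,529,560,591]) (by decide +kernel) v0_1452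

theorem w0_1454_622 : S (PX [467] [498,529,560,622]) := VW.play 591 (PX [467,591] [498,529,560,622]) (by decide +kernel) v0_1453

theorem v0_1454 : VW (PX [467] [498,529,560]) := VW.of base nl_ok fl_ok (.cons 591 622 .nil (.cons 622 591 .nil .nil))
  [(653, (.cons 591 622 .nil (.cons 622 591 .nil .nil))), (684, (.cons 591 622 .nil (.cons 622 591 .nil .nil))), (715, (.cons 591 622 .nil (.cons 622 591 .nil .nil)))]
  [([591], (PX [467] [498,529,560,591])), ([622], (PX [467] [498,529,560,622]))]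
  (by decide +kernel) ⟨w0_1454_591, w0_1454_622, trivial⟩

theorem v0_1458 : VW (PX [560] [498,529,591]) := VW.of base nl_ok fl_ok .nil
  [(405, (.cons 436 467 .nil (.cons 467 436 .nil .nil))), (436, (.cons 405 467 .nil (.cons 467 405 .nil .nil))), (467, (.cons 405 436 .nil (.cons 436 405 .nil .nil)))]
  []
  (by decide +kernel) trivial

theorem w0_1459_436 : S (PX [] [436,498,529]) := VW.play 467 (PX [467] [436,498,529]) (by decide +kernel) v0_1320

theorem w0_1459_467 : S (PX [] [467,498,529]) := VW.play 560 (PX [560] [467,498,529]) (by decide +kernel) v0_1348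

theorem w0_1459_560 : S (PX [] [498,529,560]) := VW.play 467 (PX [467] [498,529,560]) (by decide +kernel) v0_1454

theorem w0_1459_591 : S (PX [] [498,529,591]) := VW.play 560 (PX [560] [498,529,591]) (by decide +kernel) v0_1458

theorem v0_1459 : VW (PX [] [498,529]) := VW.of base nl_ok fl_ok .nil
  [(405, (.cons 436 467 .nil (.cons 467 436 (.cons 560 591 .nil (.cons 591 560 .nil .nil)) .nil))), (622, (.cons 560 591 (.cons 436 467 .nil (.cons 467 436 .nil .nil)) (.cons 591 560 .nil .nil)))]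
  [([436], (PX [] [436,498,529])), ([467], (PX [] [467,498,529])), ([560], (PX [] [498,529,560])), ([591], (PX [] [498,529,591]))]
  (by decide +kernel) ⟨w0_1459_436, w0_1459_467, w0_1459_560, w0_1459_591, trivial⟩

theorem v0_1460 : VW (PX [466,626] [498,530,562,594]) := VW.of base nl_ok fl_ok .nil
  []
  []
  (by decide +kernel) trivial

theorem v0_1461 : VW (PX [466,594] [498,530,562,626]) := VW.of base nl_ok fl_ok .nil
  []
  []
  (by decide +kernel) trivial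

theorem w0_1462_594 : S (PX [466] [498,530,562,594]) := VW.play 626 (PX [466,626] [498,530,562,594]) (by decide +kernel) v0_1460

theorem w0_1462_626 : S (PX [466] [498,530,562,626]) := VW.play 594 (PX [466,594] [498,530,562,626]) (by decide +kernel) v0_1461

theorem v0_1462 : VW (PX [466] [498,530,562]) := VW.of base nl_ok fl_ok (.cons 594 626 .nil (.cons 626 594 .nil .nil))
  [(658, (.cons 594 626 .nil (.cons 626 594 .nil .nil))), (690, (.cons 594 626 .nil (.cons 626 594 .nil .nil))), (722, (.cons 594 626 .nil (.cons 626 594 .nil .nil)))]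
  [([594], (PX [466] [498,530,562,594])), ([626], (PX [466] [498,530,562,626]))]
  (by decide +kernel) ⟨w0_1462_594, w0_1462_626, trivial⟩

theorem v0_1467 : VW (PX [562] [498,530,594]) := VW.of base nl_ok fl_ok .nil
  [(402, (.cons 434 466 .nil (.cons 466 434 .nil .nil))), (434, (.cons 402 466 .nil (.cons 466 402 .nil .nil))), (466, (.cons 402 434 .nil (.cons 434 402 .nil .nil)))]
  []
  (by decide +kernel) trivial

theorem w0_1479_434 : S (PX [] [434,498,530]) := VW.play 466 (PX [466] [434,498,530]) (by decide +kernel) v0_871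

theorem w0_1479_466 : S (PX [] [466,498,530]) := VW.play 434 (PX [434] [466,498,530]) (by decide +kernel) v0_1122

theorem w0_1479_562 : S (PX [] [498,530,562]) := VW.play 466 (PX [466] [498,530,562]) (by decide +kernel) v0_1462

theorem w0_1479_594 : S (PX [] [498,530,594]) := VW.play 562 (PX [562] [498,530,594]) (by decide +kernel) v0_1467

theorem v0_1479 : VW (PX [] [498,530]) := VW.of base nl_ok fl_ok .nil
  [(402, (.cons 434 466 .nil (.cons 466 434 (.cons 562 594 .nil (.cons 594 562 .nil .nil)) .nil))), (626, (.cons 562 594 (.cons 434 466 .nil (.cons 466 434 .nil .nil)) (.cons 594 562 .nil .nil)))]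
  [([434], (PX [] [434,498,530])), ([466], (PX [] [466,498,530])), ([562], (PX [] [498,530,562])), ([594], (PX [] [498,530,594]))]
  (by decide +kernel) ⟨w0_1479_434, w0_1479_466, w0_1479_562, w0_1479_594, trivial⟩

theorem v0_1480 : VW (PX [465,630] [498,531,564,597]) := VW.of base nl_ok fl_ok .nil
  []
  []
  (by decide +kernel) trivial

theorem v0_1481 : VW (PX [465,597] [498,531,564,630]) := VW.of base nl_ok fl_ok .nil
  []
  []
  (by decide +kernel) trivial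

theorem w0_1482_597 : S (PX [465] [498,531,564,597]) := VW.play 630 (PX [465,630] [498,531,564,597]) (by decide +kernel) v0_1480

theorem w0_1482_630 : S (PX [465] [498,531,564,630]) := VW.play 597 (PX [465,597] [498,531,564,630]) (by decide +kernel) v0_1481

theorem v0_1482 : VW (PX [465] [498,531,564]) := VW.of base nl_ok fl_ok (.cons 597 630 .nil (.cons 630 597 .nil .nil))
  [(663, (.cons 597 630 .nil (.cons 630 597 .nil .nil))), (696, (.cons 597 630 .nil (.cons 630 597 .nil .nil))), (729, (.cons 597 630 .nil (.cons 630 597 .nil .nil)))]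
  [([597], (PX [465] [498,531,564,597])), ([630], (PX [465] [498,531,564,630]))]
  (by decide +kernel) ⟨w0_1482_597, w0_1482_630, trivial⟩

theorem v0_1485 : VW (PX [399,564] [432,498,531,597]) := VW.of base nl_ok fl_ok .nil
  []
  []
  (by decide +kernel) trivial

theorem v0_1343 : VW (PX [399,564] [465,498,531,597]) := VW.of base nl_ok fl_ok .nil
  []
  []
  (by decide +kernel) trivial

theorem w0_1487_432 : S (PX [564] [432,498,531,597]) := VW.play 399 (PX [399,564] [432,498,531,597]) (by decide +kernel) v0_1485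

theorem w0_1487_465 : S (PX [564] [465,498,531,597]) := VW.play 399 (PX [399,564] [465,498,531,597]) (by decide +kernel) v0_1343

theorem v0_1487 : VW (PX [564] [498,531,597]) := VW.of base nl_ok fl_ok .nil
  [(399, (.cons 432 465 .nil (.cons 465 432 .nil .nil)))]
  [([432], (PX [564] [432,498,531,597])), ([465], (PX [564] [465,498,531,597]))]
  (by decide +kernel) ⟨w0_1487_432, w0_1487_465, trivial⟩

theorem w0_1488_432 : S (PX [] [432,498,531]) := VW.play 465 (PX [465] [432,498,531]) (by decide +kernel) v0_1302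

theorem w0_1488_465 : S (PX [] [465,498,531]) := VW.play 432 (PX [432] [465,498,531]) (by decide +kernel) v0_1327

theorem w0_1488_564 : S (PX [] [498,531,564]) := VW.play 465 (PX [465] [498,531,564]) (by decide +kernel) v0_1482

theorem w0_1488_597 : S (PX [] [498,531,597]) := VW.play 564 (PX [564] [498,531,597]) (by decide +kernel) v0_1487

theorem v0_1488 : VW (PX [] [498,531]) := VW.of base nl_ok fl_ok .nil
  [(399, (.cons 432 465 .nil (.cons 465 432 (.cons 564 597 .nil (.cons 597 564 .nil .nil)) .nil))), (630, (.cons 564 597 (.cons 432 465 .nil (.cons 465 432 .nil .nil)) (.cons 597 564 .nil .nil)))]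
  [([432], (PX [] [432,498,531])), ([465], (PX [] [465,498,531])), ([564], (PX [] [498,531,564])), ([597], (PX [] [498,531,597]))]
  (by decide +kernel) ⟨w0_1488_432, w0_1488_465, w0_1488_564, w0_1488_597, trivial⟩

theorem v0_1489 : VW (PX [529] [498,560,591]) := VW.of base nl_ok fl_ok .nil
  [(622, (.cons 653 684 .nil (.cons 684 653 .nil .nil))), (653, (.cons 622 684 .nil (.cons 684 622 .nil .nil))), (684, (.cons 622 653 .nil (.cons 653 622 .nil .nil)))]
  []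
  (by decide +kernel) trivial

theorem w0_1490_467 : S (PX [] [467,498,560]) := VW.play 529 (PX [529] [467,498,560]) (by decide +kernel) v0_1349

theorem w0_1490_529 : S (PX [] [498,529,560]) := VW.play 467 (PX [467] [498,529,560]) (by decide +kernel) v0_1454

theorem w0_1490_591 : S (PX [] [498,560,591]) := VW.play 529 (PX [529] [498,560,591]) (by decide +kernel) v0_1489

theorem v0_1490 : VW (PX [] [498,560]) := VW.of base nl_ok fl_ok .nil
  [(436, (.cons 467 529 (.cons 374 405 .nil (.cons 405 374 .nil .nil)) (.cons 529 467 (.cons 591 622 .nil (.cons 622 591 .nil .nil)) .nil))), (622, (.cons 529 591 (.cons 436 467 .nil (.cons 467 436 .nil .nil)) (.cons 591 529 (.cons 653 684 .nil (.cons 684 653 .nil .nil)) .nil)))]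
  [([467], (PX [] [467,498,560])), ([529], (PX [] [498,529,560])), ([591], (PX [] [498,560,591]))]
  (by decide +kernel) ⟨w0_1490_467, w0_1490_529, w0_1490_591, trivial⟩

theorem v0_1505 : VW (PX [530] [498,562,594]) := VW.of base nl_ok fl_ok .nil
  [(626, (.cons 658 690 .nil (.cons 690 658 .nil .nil))), (658, (.cons 626 690 .nil (.cons 690 626 .nil .nil))), (690, (.cons 626 658 .nil (.cons 658 626 .nil .nil)))]
  []
  (by decide +kernel) trivial

theorem w0_1508_466 : S (PX [] [466,498,562]) := VW.play 530 (PX [530] [466,498,562]) (by decide +kernel) v0_1127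

theorem w0_1508_530 : S (PX [] [498,530,562]) := VW.play 466 (PX [466] [498,530,562]) (by decide +kernel) v0_1462

theorem w0_1508_594 : S (PX [] [498,562,594]) := VW.play 530 (PX [530] [498,562,594]) (by decide +kernel) v0_1505

theorem v0_1508 : VW (PX [] [498,562]) := VW.of base nl_ok fl_ok .nil
  [(434, (.cons 466 530 (.cons 370 402 .nil (.cons 402 370 .nil .nil)) (.cons 530 466 (.cons 594 626 .nil (.cons 626 594 .nil .nil)) .nil))), (626, (.cons 530 594 (.cons 434 466 .nil (.cons 466 434 .nil .nil)) (.cons 594 530 (.cons 658 690 .nil (.cons 690 658 .nil .nil)) .nil)))]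
  [([466], (PX [] [466,498,562])), ([530], (PX [] [498,530,562])), ([594], (PX [] [498,562,594]))]
  (by decide +kernel) ⟨w0_1508_466, w0_1508_530, w0_1508_594, trivial⟩

theorem v0_1523 : VW (PX [531] [498,564,597]) := VW.of base nl_ok fl_ok .nil
  [(630, (.cons 663 696 .nil (.cons 696 663 .nil .nil))), (663, (.cons 630 696 .nil (.cons 696 630 .nil .nil))), (696, (.cons 630 663 .nil (.cons 663 630 .nil .nil)))]
  []
  (by decide +kernel) trivial

theorem w0_1524_432 : S (PX [] [432,498,564]) := VW.play 465 (PX [465] [432,498,564]) (by decide +kernel) v0_1303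

theorem w0_1524_465 : S (PX [] [465,498,564]) := VW.play 432 (PX [432] [465,498,564]) (by decide +kernel) v0_1329

theorem w0_1524_531 : S (PX [] [498,531,564]) := VW.play 465 (PX [465] [498,531,564]) (by decide +kernel) v0_1482

theorem w0_1524_597 : S (PX [] [498,564,597]) := VW.play 531 (PX [531] [498,564,597]) (by decide +kernel) v0_1523

theorem v0_1524 : VW (PX [] [498,564]) := VW.of base nl_ok fl_ok .nil
  [(630, (.cons 531 597 (.cons 432 465 .nil (.cons 465 432 .nil .nil)) (.cons 597 531 (.cons 663 696 .nil (.cons 696 663 .nil .nil)) .nil)))]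
  [([432], (PX [] [432,498,564])), ([465], (PX [] [465,498,564])), ([531], (PX [] [498,531,564])), ([597], (PX [] [498,564,597]))]
  (by decide +kernel) ⟨w0_1524_432, w0_1524_465, w0_1524_531, w0_1524_597, trivial⟩

theorem v0_1533 : VW (PX [560] [498,591,622]) := VW.of base nl_ok fl_ok .nil
  [(653, (.cons 684 715 .nil (.cons 715 684 .nil .nil))), (684, (.cons 653 715 .nil (.cons 715 653 .nil .nil))), (715, (.cons 653 684 .nil (.cons 684 653 .nil .nil)))]
  []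
  (by decide +kernel) trivial

theorem w0_1534_467 : S (PX [] [467,498,591]) := VW.play 529 (PX [529] [467,498,591]) (by decide +kernel) v0_1350

theorem w0_1534_529 : S (PX [] [498,529,591]) := VW.play 560 (PX [560] [498,529,591]) (by decide +kernel) v0_1458

theorem w0_1534_560 : S (PX [] [498,560,591]) := VW.play 529 (PX [529] [498,560,591]) (by decide +kernel) v0_1489

theorem w0_1534_622 : S (PX [] [498,591,622]) := VW.play 560 (PX [560] [498,591,622]) (by decide +kernel) v0_1533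

theorem v0_1534 : VW (PX [] [498,591]) := VW.of base nl_ok fl_ok .nil
  []
  [([467], (PX [] [467,498,591])), ([529], (PX [] [498,529,591])), ([560], (PX [] [498,560,591])), ([622], (PX [] [498,591,622]))]
  (by decide +kernel) ⟨w0_1534_467, w0_1534_529, w0_1534_560, w0_1534_622, trivial⟩

theorem w0_1535_530 : S (PX [] [498,530,594]) := VW.play 562 (PX [562] [498,530,594]) (by decide +kernel) v0_1467

theorem w0_1535_562 : S (PX [] [498,562,594]) := VW.play 530 (PX [530] [498,562,594]) (by decide +kernel) v0_1505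

theorem v0_1535 : VW (PX [] [498,594]) := VW.of base nl_ok fl_ok .nil
  [(466, (.cons 530 562 (.cons 402 434 .nil (.cons 434 402 .nil .nil)) (.cons 562 530 .nil .nil))), (626, (.cons 530 562 .nil (.cons 562 530 (.cons 658 690 .nil (.cons 690 658 .nil .nil)) .nil)))]
  [([530], (PX [] [498,530,594])), ([562], (PX [] [498,562,594]))]
  (by decide +kernel) ⟨w0_1535_530, w0_1535_562, trivial⟩

theorem w0_1536_465 : S (PX [] [465,498,597]) := VW.play 531 (PX [531] [465,498,597]) (by decide +kernel) v0_1338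

theorem w0_1536_531 : S (PX [] [498,531,597]) := VW.play 564 (PX [564] [498,531,597]) (by decide +kernel) v0_1487

theorem w0_1536_564 : S (PX [] [498,564,597]) := VW.play 531 (PX [531] [498,564,597]) (by decide +kernel) v0_1523

theorem v0_1536 : VW (PX [] [498,597]) := VW.of base nl_ok fl_ok .nil
  [(630, (.cons 531 564 .nil (.cons 564 531 (.cons 663 696 .nil (.cons 696 663 .nil .nil)) .nil)))]
  [([465], (PX [] [465,498,597])), ([531], (PX [] [498,531,597])), ([564], (PX [] [498,564,597]))]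
  (by decide +kernel) ⟨w0_1536_465, w0_1536_531, w0_1536_564, trivial⟩

theorem w0_1537_591 : S (PX [] [498,591,622]) := VW.play 560 (PX [560] [498,591,622]) (by decide +kernel) v0_1533

theorem v0_1537 : VW (PX [] [498,622]) := VW.of base nl_ok fl_ok .nil
  [(529, (.cons 560 591 (.cons 436 467 .nil (.cons 467 436 .nil .nil)) (.cons 591 560 .nil .nil))), (560, (.cons 529 591 (.cons 436 467 .nil (.cons 467 436 .nil .nil)) (.cons 591 529 (.cons 653 684 .nil (.cons 684 653 .nil .nil)) .nil)))]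
  [([591], (PX [] [498,591,622]))]
  (by decide +kernel) ⟨w0_1537_591, trivial⟩

theorem v0_1538 : VW (PX [] [498,626]) := VW.of base nl_ok fl_ok .nil
  [(530, (.cons 562 594 (.cons 434 466 .nil (.cons 466 434 .nil .nil)) (.cons 594 562 .nil .nil))), (562, (.cons 530 594 (.cons 434 466 .nil (.cons 466 434 .nil .nil)) (.cons 594 530 (.cons 658 690 .nil (.cons 690 658 .nil .nil)) .nil))), (594, (.cons 530 562 .nil (.cons 562 530 (.cons 658 690 .nil (.cons 690 658 .nil .nil)) .nil)))]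
  []
  (by decide +kernel) trivial

theorem v0_1539 : VW (PX [] [498,630]) := VW.of base nl_ok fl_ok .nil
  [(531, (.cons 564 597 (.cons 432 465 .nil (.cons 465 432 .nil .nil)) (.cons 597 564 .nil .nil))), (564, (.cons 531 597 (.cons 432 465 .nil (.cons 465 432 .nil .nil)) (.cons 597 531 (.cons 663 696 .nil (.cons 696 663 .nil .nil)) .nil))), (597, (.cons 531 564 .nil (.cons 564 531 (.cons 663 696 .nil (.cons 696 663 .nil .nil)) .nil)))]
  []
  (by decide +kernel) trivial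

theorem v6_44 : VW (PX [] [328,498]) := VW.of base nl_ok fl_ok .nil
  []
  [([235], (PX [] [235,328,498])), ([326], (PX [] [326,328,498])), ([329], (PX [] [328,329,498])), ([332], (PX [] [328,332,498])), ([359], (PX [] [328,359,498])), ([364], (PX [] [328,364,498])), ([393], (PX [] [328,393,498])), ([461], (PX [] [328,461,498]))]
  (by decide +kernel) ⟨b6_993, b6_994, b6_995, b6_996, b6_997, b6_998, b6_999, b6_1000, trivial⟩

theorem r366 : S (Nat.lor X2 (bits [498, 366])) := VW.play 394 (PX [] [366,498]) (by decide +kernel) v0_1240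

theorem r370 : S (Nat.lor X2 (bits [498, 370])) := VW.play 394 (PX [] [370,498]) (by decide +kernel) v0_1241

theorem r374 : S (Nat.lor X2 (bits [498, 374])) := VW.play 394 (PX [] [374,498]) (by decide +kernel) v0_1254

theorem r399 : S (Nat.lor X2 (bits [498, 399])) := VW.play 394 (PX [] [399,498]) (by decide +kernel) v0_1276

theorem r402 : S (Nat.lor X2 (bits [498, 402])) := VW.play 394 (PX [] [402,498]) (by decide +kernel) v0_495

theorem r405 : S (Nat.lor X2 (bits [498, 405])) := VW.play 394 (PX [] [405,498]) (by decide +kernel) v0_1298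

theorem r432 : S (Nat.lor X2 (bits [498, 432])) := VW.play 394 (PX [] [432,498]) (by decide +kernel) v0_1317

theorem r434 : S (Nat.lor X2 (bits [498, 434])) := VW.play 394 (PX [] [434,498]) (by decide +kernel) v0_874

theorem r436 : S (Nat.lor X2 (bits [498, 436])) := VW.play 394 (PX [] [436,498]) (by decide +kernel) v0_1324

theorem r465 : S (Nat.lor X2 (bits [498, 465])) := VW.play 394 (PX [] [465,498]) (by decide +kernel) v0_1346

theorem r466 : S (Nat.lor X2 (bits [498, 466])) := VW.play 394 (PX [] [466,498]) (by decide +kernel) v0_1139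

theorem r467 : S (Nat.lor X2 (bits [498, 467])) := VW.play 394 (PX [] [467,498]) (by decide +kernel) v0_1358

theorem r494 : S (Nat.lor X2 (bits [498, 494])) := VW.play 394 (PX [] [494,498]) (by decide +kernel) v0_1380

theorem r495 : S (Nat.lor X2 (bits [498, 495])) := VW.play 394 (PX [] [495,498]) (by decide +kernel) v0_1395

theorem r496 : S (Nat.lor X2 (bits [498, 496])) := VW.play 394 (PX [] [496,498]) (by decide +kernel) v0_1400

theorem r497 : S (Nat.lor X2 (bits [498, 497])) := VW.play 394 (PX [] [497,498]) (by decide +kernel) v0_1409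

theorem r499 : S (Nat.lor X2 (bits [498, 499])) := VW.play 394 (PX [] [498,499]) (by decide +kernel) v0_1427

theorem r500 : S (Nat.lor X2 (bits [498, 500])) := VW.play 394 (PX [] [498,500]) (by decide +kernel) v0_1449

theorem r501 : S (Nat.lor X2 (bits [498, 501])) := VW.play 394 (PX [] [498,501]) (by decide +kernel) v0_1450

theorem r502 : S (Nat.lor X2 (bits [498, 502])) := VW.play 394 (PX [] [498,502]) (by decide +kernel) v0_1451

theorem r529 : S (Nat.lor X2 (bits [498, 529])) := VW.play 394 (PX [] [498,529]) (by decide +kernel) v0_1459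

theorem r530 : S (Nat.lor X2 (bits [498, 530])) := VW.play 394 (PX [] [498,530]) (by decide +kernel) v0_1479

theorem r531 : S (Nat.lor X2 (bits [498, 531])) := VW.play 394 (PX [] [498,531]) (by decide +kernel) v0_1488

theorem r560 : S (Nat.lor X2 (bits [498, 560])) := VW.play 394 (PX [] [498,560]) (by decide +kernel) v0_1490

theorem r562 : S (Nat.lor X2 (bits [498, 562])) := VW.play 394 (PX [] [498,562]) (by decide +kernel) v0_1508

theorem r564 : S (Nat.lor X2 (bits [498, 564])) := VW.play 394 (PX [] [498,564]) (by decide +kernel) v0_1524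

theorem r591 : S (Nat.lor X2 (bits [498, 591])) := VW.play 394 (PX [] [498,591]) (by decide +kernel) v0_1534

theorem r594 : S (Nat.lor X2 (bits [498, 594])) := VW.play 394 (PX [] [498,594]) (by decide +kernel) v0_1535

theorem r597 : S (Nat.lor X2 (bits [498, 597])) := VW.play 394 (PX [] [498,597]) (by decide +kernel) v0_1536

theorem r622 : S (Nat.lor X2 (bits [498, 622])) := VW.play 394 (PX [] [498,622]) (by decide +kernel) v0_1537

theorem r626 : S (Nat.lor X2 (bits [498, 626])) := VW.play 394 (PX [] [498,626]) (by decide +kernel) v0_1538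

theorem r630 : S (Nat.lor X2 (bits [498, 630])) := VW.play 394 (PX [] [498,630]) (by decide +kernel) v0_1539

theorem r297 : S (Nat.lor X2 (bits [498, 297])) := S.of (.q 365 (.a 1 [] (.q 364 (.a 1 [] (.d 362 361 361 362 366)
 (.a 1 [361] (.d 366 362 362 363 367)
 (.a 0 [362,366] (.q 332 (.a 1 [] (.d 300 1292 268 1324 428)
 (.a 1 [268] (.d 428 1324 300 1356 460)
 (.a 0 [300,428] (.q 299 (.a 1 [] (.d 266 2281 233 2314 398)
 (.a 1 [233] (.d 398 2314 266 2347 431)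
 (.a 0 [266,398] (.q 334 (.a 1 [] (.d 303 3344 272 3375 427)
 (.a 1 [272] (.d 427 3375 303 3406 458)
 (.a 1 [303] (.r 427 3406 458 (.r 331 1323 395 (.d 333 330 330 331 335)))
 (.a 0 [427] (.q 331 (.a 1 [] (.d 333 330 330 331 335)
 (.a 1 [330] (.d 267 1259 235 1291 395)
 .e)))
 .e)))))
 .e))))
 .e))))
 .e))))
 (.a 0 [427] (.q 429 (.a 1 [] (.d 462 2378 330 2411 495)
 (.a 1 [495] (.q 364 (.a 1 [] (.d 362 361 361 362 366)
 (.a 1 [366] (.q 397 (.a 1 [] (.d 333 1325 301 1357 461)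
 (.a 1 [301] (.d 461 1357 333 1389 493)
 (.a 0 [333,461] (.q 430 (.a 1 [] (.d 331 2346 298 2379 463)
 (.a 1 [298] (.d 463 2379 331 2412 496)
 (.a 0 [331,463] (.q 394 (.a 1 [] (.d 395 393 393 394 398)
 (.a 0 [393,395,398] (.q 332 (.a 1 [] (.d 300 1292 268 1324 428)
 (.a 1 [268] (.d 428 1324 300 1356 460)
 (.a 1 [300] (.d 425 3373 301 3404 456)
 .e))))
 .e)))
 .e))))
 .e))))
 (.a 1 [362] (.q 460 (.a 1 [] (.d 428 1356 332 1388 492)
 (.a 1 [332] (.r 367 363 366 (.d 398 3408 336 3439 491))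
 .e)))
 .e))))
 (.a 1 [462] (.q 364 (.a 1 [] (.d 362 361 361 362 366)
 (.a 1 [361] (.d 366 362 362 363 367)
 (.a 0 [362,366] (.q 332 (.a 1 [] (.d 300 1292 268 1324 428)
 (.a 1 [268] (.d 428 1324 300 1356 460)
 (.a 0 [300,428] (.q 301 (.a 1 [] (.d 270 3311 239 3342 394)
 (.a 1 [239] (.d 394 3342 270 3373 425)
 (.a 1 [270] (.r 397 1325 333 (.r 394 3373 425 (.d 395 393 393 394 398)))
 (.a 0 [394] (.q 398 (.a 1 [] (.d 299 2314 266 2347 431)
 (.a 1 [266] (.d 431 2347 299 2380 464)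
 (.a 1 [299] (.r 397 1325 333 (.d 399 395 395 396 400))
 .e))))
 .e)))))
 .e))))
 .e))))
 (.a 1 [330] (.q 397 (.a 1 [] (.d 333 1325 301 1357 461)
 (.a 1 [301] (.d 461 1357 333 1389 493)
 (.a 0 [333,461] (.q 398 (.a 1 [] (.d 395 394 394 395 399)
 (.a 1 [394] (.d 399 395 395 396 400)
 (.a 0 [395,399] (.q 366 (.a 1 [] (.d 364 362 362 363 367)
 (.a 1 [362] (.r 367 363 364 (.d 460 3408 336 3439 491))
 (.a 1 [364] (.r 462 2411 495 (.d 430 1358 334 1390 494))
 .e))))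
 .e))))
 .e))))
 .e)))))
 (.a 1 [334] (.q 429 (.a 1 [] (.d 462 2378 330 2411 495)
 (.a 1 [462] (.q 397 (.a 1 [] (.d 333 1325 301 1357 461)
 (.a 1 [301] (.d 461 1357 333 1389 493)
 (.a 0 [333,461] (.q 398 (.a 1 [] (.d 395 394 394 395 399)
 (.a 1 [394] (.d 399 395 395 396 400)
 (.a 0 [395,399] (.q 332 (.a 1 [] (.d 299 2314 266 2347 431)
 (.a 1 [266] (.d 431 2347 299 2380 464)
 (.a 0 [299,431] (.q 364 (.a 1 [] (.d 362 361 361 362 366)
 (.a 1 [361] (.d 366 362 362 363 367)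
 (.a 1 [362] (.d 300 1292 268 1324 428)
 .e))))
 .e))))
 .e))))
 .e))))
 (.a 1 [495] (.q 364 (.a 1 [] (.d 362 361 361 362 366)
 (.a 1 [361] (.d 366 362 362 363 367)
 (.a 0 [362,366] (.q 397 (.a 1 [] (.d 333 1325 301 1357 461)
 (.a 1 [301] (.d 461 1357 333 1389 493)
 (.a 0 [333,461] (.q 430 (.a 1 [] (.d 331 2346 298 2379 463)
 (.a 1 [298] (.d 463 2379 331 2412 496)
 (.a 0 [331,463] (.q 332 (.a 1 [] (.d 300 1292 268 1324 428)
 (.a 1 [268] (.d 428 1324 300 1356 460)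
 (.a 1 [300] (.r 428 1356 460 (.d 431 427 427 428 432))
 (.a 0 [428] (.q 395 (.a 1 [] (.d 394 393 393 394 398)
 (.a 1 [393] (.d 398 394 394 395 399)
 (.a 1 [394] (.r 398 395 399 (.d 431 2347 299 2380 464))
 (.a 1 [398] (.r 394 393 393 (.d 425 3373 301 3404 456))
 .e)))))
 .e)))))
 .e))))
 .e))))
 .e))))
 (.a 1 [330] (.q 364 (.a 1 [] (.d 362 361 361 362 366)
 (.a 1 [361] (.d 366 362 362 363 367)
 (.a 0 [362,366] (.q 397 (.a 1 [] (.d 333 1325 301 1357 461)
 (.a 1 [301] (.d 461 1357 333 1389 493)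
 (.a 0 [333,461] (.q 430 (.a 1 [] (.d 331 2346 298 2379 463)
 (.a 1 [298] (.d 463 2379 331 2412 496)
 (.a 0 [331,463] (.q 332 (.a 1 [] (.d 300 1292 268 1324 428)
 (.a 1 [268] (.d 428 1324 300 1356 460)
 (.a 1 [300] (.r 428 1356 460 (.d 431 427 427 428 432))
 (.a 0 [428] (.q 395 (.a 1 [] (.d 394 393 393 394 398)
 (.a 1 [393] (.d 398 394 394 395 399)
 (.a 1 [394] (.r 398 395 399 (.d 431 2347 299 2380 464))
 (.a 1 [398] (.r 394 393 393 (.d 425 3373 301 3404 456))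
 .e)))))
 .e)))))
 .e))))
 .e))))
 .e))))
 .e)))))
 (.a 1 [366] (.q 427 (.a 1 [] (.d 334 3375 303 3406 458)
 (.a 1 [334] (.q 429 (.a 1 [] (.d 462 2378 330 2411 495)
 (.a 0 [330,462,495] (.q 430 (.a 1 [] (.d 428 426 426 427 431)
 (.a 0 [426,428,431] (.q 397 (.a 1 [] (.d 333 1325 301 1357 461)
 (.a 1 [301] (.d 461 1357 333 1389 493)
 (.a 0 [333,461] (.q 331 (.a 1 [] (.d 395 1323 299 1355 459)
 (.a 1 [299] (.d 364 2346 298 2379 463)
 .e)))
 .e))))
 .e)))
 .e)))
 (.a 1 [458] (.q 395 (.a 1 [] (.d 331 1323 299 1355 459)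
 (.a 1 [299] (.d 459 1355 331 1387 491)
 (.a 0 [331,459] (.q 397 (.a 1 [] (.d 394 393 393 394 398)
 (.a 1 [393] (.d 398 394 394 395 399)
 (.a 0 [394,398] (.q 429 (.a 1 [] (.d 333 1325 301 1357 461)
 (.a 1 [301] (.d 461 1357 333 1389 493)
 (.a 1 [333] (.d 462 2378 330 2411 495)
 .e))))
 .e))))
 .e))))
 .e))))
 (.a 1 [362] (.q 334 (.a 1 [] (.d 303 3344 272 3375 427)
 (.a 1 [427] (.q 429 (.a 1 [] (.d 462 2378 330 2411 495)
 (.a 0 [330,462,495] (.q 333 (.a 1 [] (.d 397 1325 301 1357 461)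
 (.a 0 [301,397,461] (.q 336 (.a 1 [] (.d 335 332 332 333 337)
 (.a 0 [332,335,337] (.q 367 (.a 1 [] (.d 398 3377 305 3408 460)
 (.a 1 [305] (.r 366 363 364 (.r 398 3408 460 (.d 302 1294 270 1326 430)))
 (.a 1 [460] (.r 366 363 364 (.r 398 3377 305 (.d 302 1294 270 1326 430)))
 (.a 0 [398] (.q 368 (.a 1 [] (.d 366 363 364 365 369)
 (.a 1 [364] (.r 272 3344 303 (.d 304 1264 240 1296 400))
 .e)))
 .e)))))
 .e)))
 .e)))
 .e)))
 (.a 1 [303] (.q 429 (.a 1 [] (.d 462 2378 330 2411 495)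
 (.a 0 [330,462,495] (.q 333 (.a 1 [] (.d 397 1325 301 1357 461)
 (.a 0 [301,397,461] (.q 332 (.a 1 [] (.d 335 331 331 332 336)
 (.a 0 [331,335,336] (.q 431 (.a 1 [] (.d 398 2347 299 2380 464)
 (.a 1 [299] (.r 427 3406 458 (.r 428 427 430 (.d 364 1324 300 1356 460)))
 .e)))
 .e)))
 .e)))
 .e)))
 .e))))
 (.a 1 [303] (.q 364 (.a 1 [] (.d 362 361 361 362 366)
 (.a 1 [366] (.q 332 (.a 1 [] (.d 300 1292 268 1324 428)
 (.a 1 [268] (.d 428 1324 300 1356 460)
 (.a 0 [300,428] (.q 301 (.a 1 [] (.d 270 3311 239 3342 394)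
 (.a 1 [239] (.d 394 3342 270 3373 425)
 (.a 0 [270,394] (.q 429 (.a 1 [] (.d 462 2378 330 2411 495)
 (.a 1 [495] (.r 333 1325 397 (.r 330 2378 462 (.d 331 329 329 330 334)))
 (.a 0 [330,462] (.q 398 (.a 1 [] (.d 299 2314 266 2347 431)
 (.a 1 [266] (.d 431 2347 299 2380 464)
 (.a 1 [299] (.r 397 1325 333 (.d 399 395 395 396 400))
 .e))))
 .e))))
 .e))))
 .e))))
 (.a 1 [362] (.q 332 (.a 1 [] (.d 300 1292 268 1324 428)
 (.a 1 [268] (.d 428 1324 300 1356 460)
 (.a 0 [300,428] (.q 301 (.a 1 [] (.d 270 3311 239 3342 394)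
 (.a 1 [239] (.d 394 3342 270 3373 425)
 (.a 0 [270,394] (.q 333 (.a 1 [] (.d 269 1261 237 1293 397)
 (.a 1 [237] (.d 397 1293 269 1325 429)
 (.a 1 [269] (.r 429 1325 397 (.d 462 2378 330 2411 495))
 (.a 0 [397] (.q 335 (.a 1 [] (.d 334 331 331 332 336)
 (.a 1 [331] (.r 334 332 336 (.r 367 363 366 (.d 400 2316 268 2349 433)))
 (.a 1 [336] (.r 334 331 331 (.r 367 363 366 (.d 400 2316 268 2349 433)))
 (.a 0 [334] (.q 302 (.a 1 [] (.d 271 3312 240 3343 395)
 (.a 1 [240] (.d 395 3343 271 3374 426)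
 (.a 1 [271] (.r 269 1261 237 (.d 368 2284 236 2317 401))
 .e))))
 .e)))))
 .e)))))
 .e))))
 .e))))
 .e))))
 (.a 1 [332] (.q 427 (.a 1 [] (.d 334 3375 303 3406 458)
 (.a 1 [334] (.q 364 (.a 1 [] (.d 362 361 361 362 366)
 (.a 1 [361] (.d 366 362 362 363 367)
 (.a 0 [362,366] (.q 331 (.a 1 [] (.d 395 1323 299 1355 459)
 (.a 0 [299,395,459] (.q 429 (.a 1 [] (.d 462 2378 330 2411 495)
 (.a 0 [330,462,495] (.q 430 (.a 1 [] (.d 428 426 426 427 431)
 (.a 1 [426] (.d 397 2346 298 2379 463)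
 .e)))
 .e)))
 .e)))
 .e))))
 (.a 1 [458] (.q 395 (.a 1 [] (.d 331 1323 299 1355 459)
 (.a 1 [299] (.d 459 1355 331 1387 491)
 (.a 0 [331,459] (.q 397 (.a 1 [] (.d 394 393 393 394 398)
 (.a 1 [393] (.d 398 394 394 395 399)
 (.a 0 [394,398] (.q 429 (.a 1 [] (.d 333 1325 301 1357 461)
 (.a 1 [301] (.d 461 1357 333 1389 493)
 (.a 1 [333] (.d 462 2378 330 2411 495)
 .e))))
 .e))))
 .e))))
 .e))))
 (.a 1 [394] (.q 364 (.a 1 [] (.d 362 361 361 362 366)
 (.a 1 [362] (.q 332 (.a 1 [] (.d 300 1292 268 1324 428)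
 (.a 1 [268] (.d 428 1324 300 1356 460)
 (.a 0 [300,428] (.q 334 (.a 1 [] (.d 303 3344 272 3375 427)
 (.a 1 [272] (.d 427 3375 303 3406 458)
 (.a 0 [303,427] (.q 398 (.a 1 [] (.d 299 2314 266 2347 431)
 (.a 1 [266] (.d 431 2347 299 2380 464)
 (.a 1 [299] (.r 366 363 367 (.d 430 1326 302 1358 462))
 .e))))
 .e))))
 .e))))
 (.a 1 [366] (.q 427 (.a 1 [] (.d 334 3375 303 3406 458)
 (.a 1 [303] (.d 458 3406 334 3437 489)
 (.a 0 [334,458] (.q 395 (.a 1 [] (.d 331 1323 299 1355 459)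
 (.a 1 [299] (.d 459 1355 331 1387 491)
 (.a 0 [331,459] (.q 428 (.a 1 [] (.d 332 1324 300 1356 460)
 (.a 1 [300] (.d 460 1356 332 1388 492)
 (.a 1 [332] (.r 362 361 361 (.d 461 2377 329 2410 494))
 .e))))
 .e))))
 .e))))
 (.a 1 [361] (.d 366 362 362 363 367)
 .e)))))
 (.a 1 [331] (.q 364 (.a 1 [] (.d 362 361 361 362 366)
 (.a 1 [362] (.q 334 (.a 1 [] (.d 303 3344 272 3375 427)
 (.a 1 [272] (.d 427 3375 303 3406 458)
 (.a 0 [303,427] (.q 429 (.a 1 [] (.d 462 2378 330 2411 495)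
 (.a 0 [330,462,495] (.q 460 (.a 1 [] (.d 428 1356 332 1388 492)
 (.a 1 [332] (.r 367 363 366 (.d 398 3408 336 3439 491))
 .e)))
 .e)))
 .e))))
 (.a 1 [366] (.q 332 (.a 1 [] (.d 300 1292 268 1324 428)
 (.a 1 [268] (.d 428 1324 300 1356 460)
 (.a 0 [300,428] (.q 301 (.a 1 [] (.d 270 3311 239 3342 394)
 (.a 1 [239] (.d 394 3342 270 3373 425)
 (.a 0 [270,394] (.q 334 (.a 1 [] (.d 303 3344 272 3375 427)
 (.a 1 [272] (.d 427 3375 303 3406 458)
 (.a 0 [303,427] (.q 429 (.a 1 [] (.d 462 2378 330 2411 495)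
 (.a 0 [330,462,495] (.q 398 (.a 1 [] (.d 299 2314 266 2347 431)
 (.a 1 [266] (.d 431 2347 299 2380 464)
 (.a 1 [299] (.r 397 1325 333 (.d 399 395 395 396 400))
 .e))))
 .e)))
 .e))))
 .e))))
 .e))))
 .e))))
 (.a 1 [333] (.q 364 (.a 1 [] (.d 362 361 361 362 366)
 (.a 1 [366] (.q 427 (.a 1 [] (.d 334 3375 303 3406 458)
 (.a 1 [303] (.d 458 3406 334 3437 489)
 (.a 0 [334,458] (.q 460 (.a 1 [] (.d 428 1356 332 1388 492)
 (.a 1 [332] (.r 361 361 362 (.d 394 2376 328 2409 493))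
 .e)))
 .e))))
 (.a 1 [362] (.q 332 (.a 1 [] (.d 300 1292 268 1324 428)
 (.a 1 [268] (.d 428 1324 300 1356 460)
 (.a 0 [300,428] (.q 299 (.a 1 [] (.d 266 2281 233 2314 398)
 (.a 1 [233] (.d 398 2314 266 2347 431)
 (.a 0 [266,398] (.q 427 (.a 1 [] (.d 334 3375 303 3406 458)
 (.a 1 [303] (.d 458 3406 334 3437 489)
 (.a 0 [334,458] (.q 394 (.a 1 [] (.d 301 3342 270 3373 425)
 (.a 1 [270] (.d 425 3373 301 3404 456)
 (.a 1 [301] (.r 395 1323 331 (.d 393 392 392 393 397))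
 .e))))
 .e))))
 .e))))
 .e))))
 (.a 1 [361] (.d 366 362 362 363 367)
 .e)))))
 (.a 0 [425] (.q 427 (.a 1 [] (.d 334 3375 303 3406 458)
 (.a 1 [334] (.q 364 (.a 1 [] (.d 362 361 361 362 366)
 (.a 1 [366] (.q 460 (.a 1 [] (.d 428 1356 332 1388 492)
 (.a 1 [332] (.r 361 361 362 (.d 394 2376 328 2409 493))
 .e)))
 (.a 1 [362] (.q 395 (.a 1 [] (.d 331 1323 299 1355 459)
 (.a 1 [299] (.d 459 1355 331 1387 491)
 (.a 0 [331,459] (.q 333 (.a 1 [] (.d 302 3343 271 3374 426)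
 (.a 1 [271] (.d 426 3374 302 3405 457)
 (.a 0 [302,426] (.q 397 (.a 1 [] (.d 394 393 393 394 398)
 (.a 1 [393] (.d 398 394 394 395 399)
 (.a 1 [394] (.d 301 1293 269 1325 429)
 .e))))
 .e))))
 .e))))
 (.a 1 [361] (.d 366 362 362 363 367)
 .e)))))
 (.a 1 [458] (.q 395 (.a 1 [] (.d 331 1323 299 1355 459)
 (.a 1 [299] (.d 459 1355 331 1387 491)
 (.a 0 [331,459] (.q 364 (.a 1 [] (.d 362 361 361 362 366)
 (.a 1 [361] (.d 366 362 362 363 367)
 (.a 0 [362,366] (.q 397 (.a 1 [] (.d 394 393 393 394 398)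
 (.a 1 [393] (.d 398 394 394 395 399)
 (.a 0 [394,398] (.q 426 (.a 1 [] (.d 333 3374 302 3405 457)
 (.a 1 [302] (.d 457 3405 333 3436 488)
 (.a 1 [457] (.r 333 3374 302 (.d 429 1325 301 1357 461))
 (.a 0 [333] (.q 428 (.a 1 [] (.d 332 1324 300 1356 460)
 (.a 1 [300] (.d 460 1356 332 1388 492)
 (.a 1 [332] (.r 429 426 430 (.d 462 2378 330 2411 495))
 .e))))
 .e)))))
 .e))))
 .e))))
 .e))))
 .e))))
 (.a 1 [460] (.q 364 (.a 1 [] (.d 362 361 361 362 366)
 (.a 1 [366] (.q 427 (.a 1 [] (.d 334 3375 303 3406 458)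
 (.a 1 [303] (.d 458 3406 334 3437 489)
 (.a 0 [334,458] (.q 332 (.a 1 [] (.d 300 1292 268 1324 428)
 (.a 0 [268,300,428] (.q 395 (.a 1 [] (.d 331 1323 299 1355 459)
 (.a 1 [299] (.d 459 1355 331 1387 491)
 (.a 1 [459] (.r 299 1323 331 (.d 398 2314 266 2347 431))
 (.a 0 [331] (.q 398 (.a 1 [] (.d 397 394 394 395 399)
 (.a 1 [394] (.d 431 2347 299 2380 464)
 .e)))
 .e)))))
 .e)))
 .e))))
 (.a 1 [362] (.q 427 (.a 1 [] (.d 334 3375 303 3406 458)
 (.a 1 [303] (.d 458 3406 334 3437 489)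
 (.a 0 [334,458] (.q 332 (.a 1 [] (.d 300 1292 268 1324 428)
 (.a 0 [268,300,428] (.q 299 (.a 1 [] (.d 266 2281 233 2314 398)
 (.a 1 [233] (.d 398 2314 266 2347 431)
 (.a 1 [266] (.r 395 1323 331 (.r 398 2347 431 (.d 397 394 394 395 399)))
 (.a 0 [398] (.q 394 (.a 1 [] (.d 301 3342 270 3373 425)
 (.a 1 [270] (.d 425 3373 301 3404 456)
 (.a 1 [301] (.r 395 1323 331 (.d 393 392 392 393 397))
 .e))))
 .e)))))
 .e)))
 .e))))
 (.a 1 [361] (.d 366 362 362 363 367)
 .e)))))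
 (.a 1 [459] (.q 364 (.a 1 [] (.d 362 361 361 362 366)
 (.a 1 [366] (.q 428 (.a 1 [] (.d 332 1324 300 1356 460)
 (.a 1 [300] (.d 460 1356 332 1388 492)
 (.a 0 [332,460] (.q 429 (.a 1 [] (.d 462 2378 330 2411 495)
 (.a 0 [330,462,495] (.q 461 (.a 1 [] (.d 397 1357 333 1389 493)
 (.a 1 [333] (.r 362 361 361 (.d 395 2377 329 2410 494))
 .e)))
 .e)))
 .e))))
 (.a 1 [362] (.q 332 (.a 1 [] (.d 300 1292 268 1324 428)
 (.a 1 [268] (.d 428 1324 300 1356 460)
 (.a 0 [300,428] (.q 299 (.a 1 [] (.d 266 2281 233 2314 398)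
 (.a 1 [233] (.d 398 2314 266 2347 431)
 (.a 0 [266,398] (.q 427 (.a 1 [] (.d 334 3375 303 3406 458)
 (.a 1 [303] (.d 458 3406 334 3437 489)
 (.a 1 [458] (.r 331 1323 395 (.r 334 3375 303 (.d 333 330 330 331 335)))
 (.a 0 [334] (.q 394 (.a 1 [] (.d 301 3342 270 3373 425)
 (.a 1 [270] (.d 425 3373 301 3404 456)
 (.a 1 [301] (.r 395 1323 331 (.d 393 392 392 393 397))
 .e))))
 .e)))))
 .e))))
 .e))))
 (.a 1 [361] (.d 366 362 362 363 367)
 .e)))))
 (.a 1 [461] (.q 364 (.a 1 [] (.d 362 361 361 362 366)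
 (.a 1 [362] (.q 428 (.a 1 [] (.d 332 1324 300 1356 460)
 (.a 1 [300] (.d 460 1356 332 1388 492)
 (.a 0 [332,460] (.q 427 (.a 1 [] (.d 334 3375 303 3406 458)
 (.a 1 [303] (.d 458 3406 334 3437 489)
 (.a 0 [334,458] (.q 459 (.a 1 [] (.d 395 1355 331 1387 491)
 (.a 1 [331] (.r 366 363 367 (.d 397 3407 335 3438 490))
 .e)))
 .e))))
 .e))))
 (.a 1 [366] (.q 332 (.a 1 [] (.d 300 1292 268 1324 428)
 (.a 1 [268] (.d 428 1324 300 1356 460)
 (.a 0 [300,428] (.q 299 (.a 1 [] (.d 266 2281 233 2314 398)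
 (.a 1 [233] (.d 398 2314 266 2347 431)
 (.a 0 [266,398] (.q 334 (.a 1 [] (.d 303 3344 272 3375 427)
 (.a 1 [272] (.d 427 3375 303 3406 458)
 (.a 1 [303] (.r 427 3406 458 (.r 331 1323 395 (.d 333 330 330 331 335)))
 (.a 0 [427] (.q 331 (.a 1 [] (.d 333 330 330 331 335)
 (.a 1 [330] (.d 267 1259 235 1291 395)
 .e)))
 .e)))))
 .e))))
 .e))))
 .e))))
 (.a 1 [424] (.q 427 (.a 1 [] (.d 334 3375 303 3406 458)
 (.a 1 [334] (.q 395 (.a 1 [] (.d 331 1323 299 1355 459)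
 (.a 1 [299] (.d 459 1355 331 1387 491)
 (.a 0 [331,459] (.q 394 (.a 1 [] (.d 393 392 392 393 397)
 (.a 1 [392] (.d 397 393 393 394 398)
 (.a 0 [393,397] (.q 362 (.a 1 [] (.d 364 361 361 362 366)
 (.a 1 [361] (.r 458 3437 489 (.d 426 1354 330 1386 490))
 .e)))
 .e))))
 .e))))
 (.a 1 [458] (.q 395 (.a 1 [] (.d 331 1323 299 1355 459)
 (.a 1 [299] (.d 459 1355 331 1387 491)
 (.a 0 [331,459] (.q 397 (.a 1 [] (.d 394 393 393 394 398)
 (.a 1 [393] (.d 398 394 394 395 399)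
 (.a 0 [394,398] (.q 429 (.a 1 [] (.d 333 1325 301 1357 461)
 (.a 1 [301] (.d 461 1357 333 1389 493)
 (.a 1 [333] (.d 462 2378 330 2411 495)
 .e))))
 .e))))
 .e))))
 .e))))
 (.a 1 [364] (.q 427 (.a 1 [] (.d 334 3375 303 3406 458)
 (.a 1 [303] (.d 458 3406 334 3437 489)
 (.a 0 [334,458] (.q 395 (.a 1 [] (.d 331 1323 299 1355 459)
 (.a 1 [299] (.d 459 1355 331 1387 491)
 (.a 0 [331,459] (.q 397 (.a 1 [] (.d 394 393 393 394 398)
 (.a 1 [393] (.d 398 394 394 395 399)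
 (.a 0 [394,398] (.q 429 (.a 1 [] (.d 333 1325 301 1357 461)
 (.a 1 [301] (.d 461 1357 333 1389 493)
 (.a 1 [333] (.d 462 2378 330 2411 495)
 .e))))
 .e))))
 .e))))
 .e))))
 (.a 1 [429] (.q 364 (.a 1 [] (.d 362 361 361 362 366)
 (.a 1 [361] (.d 366 362 362 363 367)
 (.a 0 [362,366] (.q 332 (.a 1 [] (.d 300 1292 268 1324 428)
 (.a 1 [268] (.d 428 1324 300 1356 460)
 (.a 0 [300,428] (.q 427 (.a 1 [] (.d 334 3375 303 3406 458)
 (.a 1 [303] (.d 458 3406 334 3437 489)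
 (.a 0 [334,458] (.q 394 (.a 1 [] (.d 301 3342 270 3373 425)
 (.a 1 [270] (.d 425 3373 301 3404 456)
 (.a 0 [301,425] (.q 299 (.a 1 [] (.d 266 2281 233 2314 398)
 (.a 1 [233] (.d 398 2314 266 2347 431)
 (.a 1 [266] (.r 395 1323 331 (.d 398 394 397 2347 431))
 (.a 1 [398] (.r 395 1323 331 (.d 393 392 392 393 397))
 .e)))))
 .e))))
 .e))))
 .e))))
 .e))))
 (.a 1 [458] (.q 364 (.a 1 [] (.d 362 361 361 362 366)
 (.a 1 [361] (.d 366 362 362 363 367)
 (.a 0 [362,366] (.q 332 (.a 1 [] (.d 300 1292 268 1324 428)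
 (.a 1 [268] (.d 428 1324 300 1356 460)
 (.a 0 [300,428] (.q 394 (.a 1 [] (.d 301 3342 270 3373 425)
 (.a 1 [270] (.d 425 3373 301 3404 456)
 (.a 0 [301,425] (.q 299 (.a 1 [] (.d 266 2281 233 2314 398)
 (.a 1 [233] (.d 398 2314 266 2347 431)
 (.a 1 [266] (.r 398 2347 431 (.r 395 394 397 (.d 331 1291 267 1323 427)))
 (.a 0 [398] (.q 395 (.a 1 [] (.d 393 392 392 393 397)
 (.a 1 [392] (.d 331 1291 267 1323 427)
 .e)))
 .e)))))
 .e))))
 .e))))
 .e))))
 (.a 1 [462] (.q 364 (.a 1 [] (.d 362 361 361 362 366)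
 (.a 1 [361] (.d 366 362 362 363 367)
 (.a 0 [362,366] (.q 332 (.a 1 [] (.d 300 1292 268 1324 428)
 (.a 1 [268] (.d 428 1324 300 1356 460)
 (.a 0 [300,428] (.q 301 (.a 1 [] (.d 270 3311 239 3342 394)
 (.a 1 [239] (.d 394 3342 270 3373 425)
 (.a 0 [270,394] (.q 334 (.a 1 [] (.d 303 3344 272 3375 427)
 (.a 1 [272] (.d 427 3375 303 3406 458)
 (.a 0 [303,427] (.q 333 (.a 1 [] (.d 331 330 330 331 335)
 (.a 1 [330] (.d 335 331 331 332 336)
 (.a 1 [331] (.d 269 1261 237 1293 397)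
 .e))))
 .e))))
 .e))))
 .e))))
 .e))))
 (.a 1 [361] (.q 427 (.a 1 [] (.d 334 3375 303 3406 458)
 (.a 1 [303] (.d 458 3406 334 3437 489)
 (.a 0 [334,458] (.q 395 (.a 1 [] (.d 331 1323 299 1355 459)
 (.a 1 [299] (.d 459 1355 331 1387 491)
 (.a 0 [331,459] (.q 397 (.a 1 [] (.d 394 393 393 394 398)
 (.a 1 [393] (.d 398 394 394 395 399)
 (.a 0 [394,398] (.q 429 (.a 1 [] (.d 333 1325 301 1357 461)
 (.a 1 [301] (.d 461 1357 333 1389 493)
 (.a 1 [333] (.d 462 2378 330 2411 495)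
 .e))))
 .e))))
 .e))))
 .e))))
 (.a 1 [395] (.q 364 (.a 1 [] (.d 362 361 361 362 366)
 (.a 1 [361] (.d 366 362 362 363 367)
 (.a 0 [362,366] (.q 428 (.a 1 [] (.d 332 1324 300 1356 460)
 (.a 1 [300] (.d 460 1356 332 1388 492)
 (.a 0 [332,460] (.q 427 (.a 1 [] (.d 334 3375 303 3406 458)
 (.a 1 [303] (.d 458 3406 334 3437 489)
 (.a 0 [334,458] (.q 429 (.a 1 [] (.d 426 425 425 426 430)
 (.a 1 [425] (.d 430 426 426 427 431)
 (.a 1 [426] (.d 462 2378 330 2411 495)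
 .e))))
 .e))))
 .e))))
 .e))))
 (.a 1 [299] (.q 364 (.a 1 [] (.d 362 361 361 362 366)
 (.a 1 [361] (.d 366 362 362 363 367)
 (.a 0 [362,366] (.q 428 (.a 1 [] (.d 332 1324 300 1356 460)
 (.a 1 [300] (.d 460 1356 332 1388 492)
 (.a 0 [332,460] (.q 427 (.a 1 [] (.d 334 3375 303 3406 458)
 (.a 1 [303] (.d 458 3406 334 3437 489)
 (.a 0 [334,458] (.q 429 (.a 1 [] (.d 426 425 425 426 430)
 (.a 1 [425] (.d 430 426 426 427 431)
 (.a 1 [426] (.d 462 2378 330 2411 495)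
 .e))))
 .e))))
 .e))))
 .e))))
 (.a 1 [367] (.q 427 (.a 1 [] (.d 334 3375 303 3406 458)
 (.a 1 [303] (.d 458 3406 334 3437 489)
 (.a 0 [334,458] (.q 395 (.a 1 [] (.d 331 1323 299 1355 459)
 (.a 1 [299] (.d 459 1355 331 1387 491)
 (.a 0 [331,459] (.q 397 (.a 1 [] (.d 394 393 393 394 398)
 (.a 1 [393] (.d 398 394 394 395 399)
 (.a 0 [394,398] (.q 429 (.a 1 [] (.d 333 1325 301 1357 461)
 (.a 1 [301] (.d 461 1357 333 1389 493)
 (.a 1 [333] (.d 462 2378 330 2411 495)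
 .e))))
 .e))))
 .e))))
 .e))))
 (.a 1 [398] (.q 364 (.a 1 [] (.d 362 361 361 362 366)
 (.a 1 [361] (.d 366 362 362 363 367)
 (.a 0 [362,366] (.q 334 (.a 1 [] (.d 303 3344 272 3375 427)
 (.a 1 [272] (.d 427 3375 303 3406 458)
 (.a 0 [303,427] (.q 332 (.a 1 [] (.d 300 1292 268 1324 428)
 (.a 1 [268] (.d 428 1324 300 1356 460)
 (.a 0 [300,428] (.q 301 (.a 1 [] (.d 270 3311 239 3342 394)
 (.a 1 [239] (.d 394 3342 270 3373 425)
 (.a 0 [270,394] (.q 333 (.a 1 [] (.d 331 330 330 331 335)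
 (.a 1 [330] (.d 335 331 331 332 336)
 (.a 1 [331] (.d 269 1261 237 1293 397)
 .e))))
 .e))))
 .e))))
 .e))))
 .e))))
 (.a 1 [301] (.q 364 (.a 1 [] (.d 362 361 361 362 366)
 (.a 1 [361] (.d 366 362 362 363 367)
 (.a 0 [362,366] (.q 332 (.a 1 [] (.d 300 1292 268 1324 428)
 (.a 1 [268] (.d 428 1324 300 1356 460)
 (.a 0 [300,428] (.q 299 (.a 1 [] (.d 266 2281 233 2314 398)
 (.a 1 [233] (.d 398 2314 266 2347 431)
 (.a 0 [266,398] (.q 334 (.a 1 [] (.d 303 3344 272 3375 427)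
 (.a 1 [272] (.d 427 3375 303 3406 458)
 (.a 1 [303] (.r 427 3406 458 (.r 331 1323 395 (.d 333 330 330 331 335)))
 (.a 0 [427] (.q 331 (.a 1 [] (.d 333 330 330 331 335)
 (.a 1 [330] (.d 267 1259 235 1291 395)
 .e)))
 .e)))))
 .e))))
 .e))))
 .e))))
 (.a 1 [330] (.q 364 (.a 1 [] (.d 362 361 361 362 366)
 (.a 1 [361] (.d 366 362 362 363 367)
 (.a 0 [362,366] (.q 332 (.a 1 [] (.d 300 1292 268 1324 428)
 (.a 1 [268] (.d 428 1324 300 1356 460)
 (.a 0 [300,428] (.q 394 (.a 1 [] (.d 301 3342 270 3373 425)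
 (.a 1 [270] (.d 425 3373 301 3404 456)
 (.a 0 [301,425] (.q 299 (.a 1 [] (.d 266 2281 233 2314 398)
 (.a 1 [233] (.d 398 2314 266 2347 431)
 (.a 1 [266] (.r 398 2347 431 (.r 395 394 397 (.d 331 1291 267 1323 427)))
 (.a 0 [398] (.q 395 (.a 1 [] (.d 393 392 392 393 397)
 (.a 1 [392] (.d 331 1291 267 1323 427)
 .e)))
 .e)))))
 .e))))
 .e))))
 .e))))
 (.a 1 [300] (.q 364 (.a 1 [] (.d 362 361 361 362 366)
 (.a 1 [361] (.d 366 362 362 363 367)
 (.a 0 [362,366] (.q 427 (.a 1 [] (.d 334 3375 303 3406 458)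
 (.a 1 [303] (.d 458 3406 334 3437 489)
 (.a 0 [334,458] (.q 428 (.a 1 [] (.d 460 1356 332 1388 492)
 (.a 0 [332,460,492] (.q 429 (.a 1 [] (.d 426 425 425 426 430)
 (.a 1 [425] (.d 430 426 426 427 431)
 (.a 1 [426] (.d 462 2378 330 2411 495)
 .e))))
 .e)))
 .e))))
 .e))))
 (.a 1 [393] (.q 364 (.a 1 [] (.d 362 361 361 362 366)
 (.a 1 [361] (.d 366 362 362 363 367)
 (.a 0 [362,366] (.q 427 (.a 1 [] (.d 334 3375 303 3406 458)
 (.a 1 [303] (.d 458 3406 334 3437 489)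
 (.a 0 [334,458] (.q 428 (.a 1 [] (.d 332 1324 300 1356 460)
 (.a 1 [300] (.d 460 1356 332 1388 492)
 (.a 0 [332,460] (.q 429 (.a 1 [] (.d 426 425 425 426 430)
 (.a 1 [425] (.d 430 426 426 427 431)
 (.a 1 [426] (.d 462 2378 330 2411 495)
 .e))))
 .e))))
 .e))))
 .e))))
 (.a 1 [399] (.q 427 (.a 1 [] (.d 334 3375 303 3406 458)
 (.a 1 [303] (.d 458 3406 334 3437 489)
 (.a 0 [334,458] (.q 395 (.a 1 [] (.d 331 1323 299 1355 459)
 (.a 1 [299] (.d 459 1355 331 1387 491)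
 (.a 0 [331,459] (.q 394 (.a 1 [] (.d 393 392 392 393 397)
 (.a 1 [392] (.d 397 393 393 394 398)
 (.a 0 [393,397] (.q 332 (.a 1 [] (.d 301 3342 270 3373 425)
 (.a 1 [270] (.d 425 3373 301 3404 456)
 (.a 0 [301,425] (.q 361 (.a 1 [] (.d 328 2343 295 2376 460)
 (.a 1 [295] (.d 460 2376 328 2409 493)
 (.a 1 [328] (.r 364 361 362 (.d 428 1324 300 1356 460))
 (.a 1 [460] (.r 364 361 362 (.d 300 1292 268 1324 428))
 .e)))))
 .e))))
 .e))))
 .e))))
 .e))))
 (.a 1 [269] (.q 364 (.a 1 [] (.d 362 361 361 362 366)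
 (.a 1 [361] (.d 366 362 362 363 367)
 (.a 0 [362,366] (.q 428 (.a 1 [] (.d 332 1324 300 1356 460)
 (.a 1 [300] (.d 460 1356 332 1388 492)
 (.a 0 [332,460] (.q 427 (.a 1 [] (.d 334 3375 303 3406 458)
 (.a 1 [303] (.d 458 3406 334 3437 489)
 (.a 0 [334,458] (.q 429 (.a 1 [] (.d 426 425 425 426 430)
 (.a 1 [425] (.d 430 426 426 427 431)
 (.a 1 [426] (.d 462 2378 330 2411 495)
 .e))))
 .e))))
 .e))))
 .e))))
 (.a 1 [265] (.q 364 (.a 1 [] (.d 362 361 361 362 366)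
 (.a 1 [361] (.d 366 362 362 363 367)
 (.a 0 [362,366] (.q 332 (.a 1 [] (.d 300 1292 268 1324 428)
 (.a 1 [268] (.d 428 1324 300 1356 460)
 (.a 0 [300,428] (.q 299 (.a 1 [] (.d 266 2281 233 2314 398)
 (.a 1 [233] (.d 398 2314 266 2347 431)
 (.a 0 [266,398] (.q 334 (.a 1 [] (.d 303 3344 272 3375 427)
 (.a 1 [272] (.d 427 3375 303 3406 458)
 (.a 1 [303] (.r 427 3406 458 (.r 331 1323 395 (.d 333 330 330 331 335)))
 (.a 0 [427] (.q 331 (.a 1 [] (.d 333 330 330 331 335)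
 (.a 1 [330] (.d 267 1259 235 1291 395)
 .e)))
 .e)))))
 .e))))
 .e))))
 .e))))
 (.a 1 [296] (.q 364 (.a 1 [] (.d 362 361 361 362 366)
 (.a 1 [361] (.d 366 362 362 363 367)
 (.a 0 [362,366] (.q 428 (.a 1 [] (.d 332 1324 300 1356 460)
 (.a 1 [300] (.d 460 1356 332 1388 492)
 (.a 0 [332,460] (.q 427 (.a 1 [] (.d 334 3375 303 3406 458)
 (.a 1 [303] (.d 458 3406 334 3437 489)
 (.a 0 [334,458] (.q 429 (.a 1 [] (.d 426 425 425 426 430)
 (.a 1 [425] (.d 430 426 426 427 431)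
 (.a 1 [426] (.d 462 2378 330 2411 495)
 .e))))
 .e))))
 .e))))
 .e))))
 (.a 1 [298] (.q 364 (.a 1 [] (.d 362 361 361 362 366)
 (.a 1 [361] (.d 366 362 362 363 367)
 (.a 0 [362,366] (.q 427 (.a 1 [] (.d 334 3375 303 3406 458)
 (.a 1 [303] (.d 458 3406 334 3437 489)
 (.a 0 [334,458] (.q 428 (.a 1 [] (.d 332 1324 300 1356 460)
 (.a 1 [300] (.d 460 1356 332 1388 492)
 (.a 0 [332,460] (.q 429 (.a 1 [] (.d 426 425 425 426 430)
 (.a 1 [425] (.d 430 426 426 427 431)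
 (.a 1 [426] (.d 462 2378 330 2411 495)
 .e))))
 .e))))
 .e))))
 .e))))
 (.a 1 [329] (.q 364 (.a 1 [] (.d 362 361 361 362 366)
 (.a 1 [361] (.d 366 362 362 363 367)
 (.a 0 [362,366] (.q 428 (.a 1 [] (.d 332 1324 300 1356 460)
 (.a 1 [300] (.d 460 1356 332 1388 492)
 (.a 0 [332,460] (.q 427 (.a 1 [] (.d 334 3375 303 3406 458)
 (.a 1 [303] (.d 458 3406 334 3437 489)
 (.a 0 [334,458] (.q 429 (.a 1 [] (.d 426 425 425 426 430)
 (.a 1 [425] (.d 430 426 426 427 431)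
 (.a 1 [426] (.d 462 2378 330 2411 495)
 .e))))
 .e))))
 .e))))
 .e))))
 (.a 1 [335] (.q 364 (.a 1 [] (.d 362 361 361 362 366)
 (.a 1 [361] (.d 366 362 362 363 367)
 (.a 0 [362,366] (.q 428 (.a 1 [] (.d 332 1324 300 1356 460)
 (.a 1 [300] (.d 460 1356 332 1388 492)
 (.a 0 [332,460] (.q 429 (.a 1 [] (.d 462 2378 330 2411 495)
 (.a 0 [330,462,495] (.q 427 (.a 1 [] (.d 426 425 425 426 430)
 (.a 1 [425] (.d 430 426 426 427 431)
 (.a 1 [426] (.d 334 3375 303 3406 458)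
 .e))))
 .e)))
 .e))))
 .e))))
 (.a 1 [430] (.q 364 (.a 1 [] (.d 362 361 361 362 366)
 (.a 1 [361] (.d 366 362 362 363 367)
 (.a 0 [362,366] (.q 332 (.a 1 [] (.d 300 1292 268 1324 428)
 (.a 1 [268] (.d 428 1324 300 1356 460)
 (.a 0 [300,428] (.q 301 (.a 1 [] (.d 270 3311 239 3342 394)
 (.a 1 [239] (.d 394 3342 270 3373 425)
 (.a 0 [270,394] (.q 334 (.a 1 [] (.d 303 3344 272 3375 427)
 (.a 1 [272] (.d 427 3375 303 3406 458)
 (.a 0 [303,427] (.q 429 (.a 1 [] (.d 462 2378 330 2411 495)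
 (.a 1 [330] (.r 333 1325 397 (.d 335 331 331 332 336))
 .e)))
 .e))))
 .e))))
 .e))))
 .e))))
 (.a 1 [490] (.q 364 (.a 1 [] (.d 362 361 361 362 366)
 (.a 1 [361] (.d 366 362 362 363 367)
 (.a 0 [362,366] (.q 428 (.a 1 [] (.d 332 1324 300 1356 460)
 (.a 1 [300] (.d 460 1356 332 1388 492)
 (.a 0 [332,460] (.q 427 (.a 1 [] (.d 334 3375 303 3406 458)
 (.a 1 [303] (.d 458 3406 334 3437 489)
 (.a 0 [334,458] (.q 426 (.a 1 [] (.d 425 424 424 425 429)
 (.a 1 [424] (.d 429 425 425 426 430)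
 (.a 1 [425] (.r 429 426 430 (.d 462 2378 330 2411 495))
 (.a 0 [429] (.q 395 (.a 1 [] (.d 331 1323 299 1355 459)
 (.a 1 [299] (.d 459 1355 331 1387 491)
 (.a 1 [331] (.d 333 3374 302 3405 457)
 .e))))
 .e)))))
 .e))))
 .e))))
 .e))))
 .e)))))))))))))))))))))))))))))))))))))) (by decide +kernel)

theorem r301 : S (Nat.lor X2 (bits [498, 301])) := S.of (.q 429 (.a 1 [] (.d 330 2345 297 2378 462)
 (.a 0 [330] (.q 427 (.a 1 [] (.q 365 (.a 1 [] (.d 334 3375 303 3406 458)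
 (.a 1 [303] (.d 458 3406 334 3437 489)
 (.a 0 [334,458] (.q 428 (.a 1 [] (.d 426 425 425 426 430)
 (.a 1 [425] (.d 430 426 426 427 431)
 (.a 0 [426,430] (.q 362 (.a 1 [] (.d 364 361 361 362 366)
 (.a 1 [361] (.r 364 362 366 (.d 460 1356 332 1388 492))
 (.a 1 [366] (.r 364 361 361 (.d 460 1356 332 1388 492))
 (.a 0 [364] (.q 395 (.a 1 [] (.d 331 1323 299 1355 459)
 (.a 1 [299] (.d 459 1355 331 1387 491)
 (.a 1 [331] (.d 329 2344 296 2377 461)
 .e))))
 .e)))))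
 .e))))
 .e))))
 (.a 1 [426] (.q 365 (.a 1 [] (.d 334 3375 303 3406 458)
 (.a 1 [458] (.q 362 (.a 1 [] (.d 364 361 361 362 366)
 (.a 0 [361,364,366] (.q 395 (.a 1 [] (.d 331 1323 299 1355 459)
 (.a 1 [299] (.d 459 1355 331 1387 491)
 (.a 0 [331,459] (.q 397 (.a 1 [] (.d 394 393 393 394 398)
 (.a 1 [393] (.d 398 394 394 395 399)
 (.a 1 [394] (.d 461 1357 333 1389 493)
 .e))))
 .e))))
 .e)))
 (.a 1 [334] (.q 331 (.a 1 [] (.d 395 1323 299 1355 459)
 (.a 0 [299,395,459] (.q 397 (.a 1 [] (.d 461 1357 333 1389 493)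
 (.a 0 [333,461,493] (.q 364 (.a 1 [] (.d 362 361 361 362 366)
 (.a 1 [361] (.d 366 362 362 363 367)
 (.a 1 [362] (.d 298 2313 265 2346 430)
 .e))))
 .e)))
 .e)))
 (.a 1 [303] (.d 458 3406 334 3437 489)
 .e)))))
 (.a 1 [394] (.q 365 (.a 1 [] (.d 334 3375 303 3406 458)
 (.a 1 [458] (.q 426 (.a 1 [] (.d 428 425 425 426 430)
 (.a 0 [425,428,430] (.q 395 (.a 1 [] (.d 331 1323 299 1355 459)
 (.a 1 [299] (.d 459 1355 331 1387 491)
 (.a 0 [331,459] (.q 364 (.a 1 [] (.d 362 361 361 362 366)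
 (.a 1 [361] (.d 366 362 362 363 367)
 (.a 1 [362] (.d 333 3374 302 3405 457)
 .e))))
 .e))))
 .e)))
 (.a 1 [334] (.q 428 (.a 1 [] (.d 426 425 425 426 430)
 (.a 1 [425] (.d 430 426 426 427 431)
 (.a 0 [426,430] (.q 362 (.a 1 [] (.d 364 361 361 362 366)
 (.a 1 [361] (.r 364 362 366 (.d 460 1356 332 1388 492))
 (.a 1 [366] (.r 364 361 361 (.d 460 1356 332 1388 492))
 (.a 0 [364] (.q 395 (.a 1 [] (.d 331 1323 299 1355 459)
 (.a 1 [299] (.d 459 1355 331 1387 491)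
 (.a 1 [331] (.d 329 2344 296 2377 461)
 .e))))
 .e)))))
 .e))))
 (.a 1 [303] (.d 458 3406 334 3437 489)
 .e)))))
 (.a 1 [332] (.q 365 (.a 1 [] (.d 334 3375 303 3406 458)
 (.a 1 [334] (.q 331 (.a 1 [] (.d 395 1323 299 1355 459)
 (.a 0 [299,395,459] (.q 364 (.a 1 [] (.d 362 361 361 362 366)
 (.a 1 [361] (.d 366 362 362 363 367)
 (.a 0 [362,366] (.q 397 (.a 1 [] (.d 461 1357 333 1389 493)
 (.a 1 [333] (.d 430 2346 298 2379 463)
 .e)))
 .e))))
 .e)))
 (.a 1 [458] (.q 428 (.a 1 [] (.d 426 425 425 426 430)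
 (.a 1 [425] (.d 430 426 426 427 431)
 (.a 0 [426,430] (.q 362 (.a 1 [] (.d 364 361 361 362 366)
 (.a 0 [361,364,366] (.q 395 (.a 1 [] (.d 331 1323 299 1355 459)
 (.a 1 [299] (.d 459 1355 331 1387 491)
 (.a 1 [331] (.d 329 2344 296 2377 461)
 .e))))
 .e)))
 .e))))
 (.a 1 [303] (.d 458 3406 334 3437 489)
 .e)))))
 (.a 1 [362] (.q 365 (.a 1 [] (.d 334 3375 303 3406 458)
 (.a 1 [458] (.q 426 (.a 1 [] (.d 428 425 425 426 430)
 (.a 0 [425,428,430] (.q 395 (.a 1 [] (.d 331 1323 299 1355 459)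
 (.a 1 [299] (.d 459 1355 331 1387 491)
 (.a 0 [331,459] (.q 397 (.a 1 [] (.d 394 393 393 394 398)
 (.a 1 [393] (.d 398 394 394 395 399)
 (.a 1 [394] (.d 461 1357 333 1389 493)
 .e))))
 .e))))
 .e)))
 (.a 1 [334] (.q 426 (.a 1 [] (.d 428 425 425 426 430)
 (.a 0 [425,428,430] (.q 395 (.a 1 [] (.d 331 1323 299 1355 459)
 (.a 1 [299] (.d 459 1355 331 1387 491)
 (.a 0 [331,459] (.q 333 (.a 1 [] (.d 364 3374 302 3405 457)
 (.a 1 [302] (.r 397 1357 461 (.d 398 394 394 395 399))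
 .e)))
 .e))))
 .e)))
 (.a 1 [303] (.d 458 3406 334 3437 489)
 .e)))))
 (.a 1 [302] (.q 365 (.a 1 [] (.d 334 3375 303 3406 458)
 (.a 1 [334] (.q 428 (.a 1 [] (.d 426 425 425 426 430)
 (.a 1 [425] (.d 430 426 426 427 431)
 (.a 0 [426,430] (.q 366 (.a 1 [] (.d 364 362 362 363 367)
 (.a 1 [362] (.r 364 363 367 (.d 460 1356 332 1388 492))
 (.a 1 [367] (.r 364 362 362 (.d 460 1356 332 1388 492))
 (.a 0 [364] (.q 395 (.a 1 [] (.d 331 1323 299 1355 459)
 (.a 1 [299] (.d 459 1355 331 1387 491)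
 (.a 1 [331] (.r 459 1387 491 (.d 397 3407 335 3438 490))
 (.a 0 [459] (.q 397 (.a 1 [] (.d 394 393 393 394 398)
 (.a 1 [393] (.d 398 394 394 395 399)
 (.a 1 [394] (.d 461 1357 333 1389 493)
 .e))))
 .e)))))
 .e)))))
 .e))))
 (.a 1 [458] (.q 364 (.a 1 [] (.d 362 361 361 362 366)
 (.a 1 [361] (.d 366 362 362 363 367)
 (.a 0 [362,366] (.q 426 (.a 1 [] (.d 428 425 425 426 430)
 (.a 1 [425] (.r 428 426 430 (.d 460 1356 332 1388 492))
 (.a 1 [430] (.r 428 425 425 (.d 460 1356 332 1388 492))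
 (.a 0 [428] (.q 395 (.a 1 [] (.d 331 1323 299 1355 459)
 (.a 1 [299] (.d 459 1355 331 1387 491)
 (.a 1 [331] (.d 457 3405 333 3436 488)
 .e))))
 .e)))))
 .e))))
 (.a 1 [303] (.d 458 3406 334 3437 489)
 .e)))))
 (.a 1 [490] (.q 365 (.a 1 [] (.d 334 3375 303 3406 458)
 (.a 1 [334] (.q 428 (.a 1 [] (.d 426 425 425 426 430)
 (.a 1 [425] (.d 430 426 426 427 431)
 (.a 0 [426,430] (.q 364 (.a 1 [] (.d 362 361 361 362 366)
 (.a 1 [361] (.d 366 362 362 363 367)
 (.a 1 [362] (.d 332 1324 300 1356 460)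
 .e))))
 .e))))
 (.a 1 [458] (.q 364 (.a 1 [] (.d 362 361 361 362 366)
 (.a 1 [361] (.d 366 362 362 363 367)
 (.a 0 [362,366] (.q 426 (.a 1 [] (.d 428 425 425 426 430)
 (.a 1 [425] (.r 428 426 430 (.d 460 1356 332 1388 492))
 (.a 1 [430] (.r 428 425 425 (.d 460 1356 332 1388 492))
 (.a 0 [428] (.q 397 (.a 1 [] (.d 461 1357 333 1389 493)
 (.a 1 [493] (.r 333 1357 461 (.d 395 3374 302 3405 457))
 (.a 0 [333,461] (.q 395 (.a 1 [] (.d 394 393 393 394 398)
 (.a 1 [393] (.d 398 394 394 395 399)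
 (.a 1 [394] (.d 459 1355 331 1387 491)
 .e))))
 .e))))
 .e)))))
 .e))))
 .e))))
 (.a 1 [365] (.q 428 (.a 1 [] (.d 426 425 425 426 430)
 (.a 1 [425] (.d 430 426 426 427 431)
 (.a 0 [426,430] (.q 460 (.a 1 [] (.d 364 1356 332 1388 492)
 (.a 1 [332] (.d 492 1388 364 1420 524)
 (.a 0 [364,492] (.q 459 (.a 1 [] (.d 395 1355 331 1387 491)
 (.a 1 [331] (.r 491 1387 395 (.d 522 3470 398 3501 553))
 (.a 1 [395] (.r 462 2411 495 (.d 461 458 458 459 463))
 .e))))
 .e))))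
 .e))))
 (.a 1 [395] (.q 428 (.a 1 [] (.d 426 425 425 426 430)
 (.a 1 [425] (.d 430 426 426 427 431)
 (.a 0 [426,430] (.q 364 (.a 1 [] (.d 332 1324 300 1356 460)
 (.a 1 [300] (.d 460 1356 332 1388 492)
 (.a 0 [332,460] (.q 365 (.a 1 [] (.d 362 361 361 362 366)
 (.a 1 [361] (.d 366 362 362 363 367)
 (.a 1 [362] (.d 334 3375 303 3406 458)
 .e))))
 .e))))
 .e))))
 (.a 1 [428] (.q 395 (.a 1 [] (.d 331 1323 299 1355 459)
 (.a 1 [299] (.d 459 1355 331 1387 491)
 (.a 0 [331,459] (.q 397 (.a 1 [] (.d 394 393 393 394 398)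
 (.a 1 [393] (.d 398 394 394 395 399)
 (.a 0 [394,398] (.q 365 (.a 1 [] (.d 461 1357 333 1389 493)
 (.a 1 [333] (.d 458 3406 334 3437 489)
 .e)))
 .e))))
 .e))))
 (.a 1 [458] (.q 395 (.a 1 [] (.d 331 1323 299 1355 459)
 (.a 1 [299] (.d 459 1355 331 1387 491)
 (.a 0 [331,459] (.q 394 (.a 1 [] (.d 393 392 392 393 397)
 (.a 1 [392] (.d 397 393 393 394 398)
 (.a 0 [393,397] (.q 460 (.a 1 [] (.d 361 2376 328 2409 493)
 (.a 1 [328] (.d 493 2409 361 2442 526)
 (.a 0 [361,493] (.q 428 (.a 1 [] (.d 426 425 425 426 430)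
 (.a 1 [425] (.d 430 426 426 427 431)
 (.a 1 [426] (.d 364 1356 332 1388 492)
 .e))))
 .e))))
 .e))))
 .e))))
 (.a 1 [331] (.q 428 (.a 1 [] (.d 426 425 425 426 430)
 (.a 1 [425] (.d 430 426 426 427 431)
 (.a 0 [426,430] (.q 458 (.a 1 [] (.d 365 3406 334 3437 489)
 (.a 1 [334] (.d 489 3437 365 3468 520)
 (.a 0 [365,489] (.q 460 (.a 1 [] (.d 364 1356 332 1388 492)
 (.a 1 [332] (.d 492 1388 364 1420 524)
 (.a 1 [364] (.r 462 2411 495 (.r 459 458 461 (.r 491 1387 395 (.d 522 3470 398 3501 553))))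
 .e))))
 .e))))
 .e))))
 (.a 1 [334] (.q 428 (.a 1 [] (.d 426 425 425 426 430)
 (.a 1 [425] (.d 430 426 426 427 431)
 (.a 0 [426,430] (.q 460 (.a 1 [] (.d 364 1356 332 1388 492)
 (.a 1 [332] (.d 492 1388 364 1420 524)
 (.a 0 [364,492] (.q 459 (.a 1 [] (.d 395 1355 331 1387 491)
 (.a 1 [331] (.r 491 1387 395 (.d 522 3470 398 3501 553))
 (.a 1 [395] (.r 462 2411 495 (.d 461 458 458 459 463))
 .e))))
 .e))))
 .e))))
 (.a 1 [333] (.q 428 (.a 1 [] (.d 426 425 425 426 430)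
 (.a 1 [425] (.d 430 426 426 427 431)
 (.a 0 [426,430] (.q 364 (.a 1 [] (.d 332 1324 300 1356 460)
 (.a 1 [300] (.d 460 1356 332 1388 492)
 (.a 0 [332,460] (.q 331 (.a 1 [] (.d 395 1323 299 1355 459)
 (.a 0 [299,395,459] (.q 365 (.a 1 [] (.d 362 361 361 362 366)
 (.a 1 [361] (.d 366 362 362 363 367)
 (.a 1 [362] (.d 334 3375 303 3406 458)
 .e))))
 .e)))
 .e))))
 .e))))
 (.a 1 [298] (.q 365 (.a 1 [] (.d 334 3375 303 3406 458)
 (.a 1 [303] (.d 458 3406 334 3437 489)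
 (.a 0 [334,458] (.q 428 (.a 1 [] (.d 426 425 425 426 430)
 (.a 1 [425] (.d 430 426 426 427 431)
 (.a 0 [426,430] (.q 362 (.a 1 [] (.d 364 361 361 362 366)
 (.a 1 [361] (.r 364 362 366 (.d 460 1356 332 1388 492))
 (.a 1 [366] (.r 364 361 361 (.d 460 1356 332 1388 492))
 (.a 0 [364] (.q 397 (.a 1 [] (.d 461 1357 333 1389 493)
 (.a 1 [333] (.r 461 1389 493 (.d 395 2377 329 2410 494))
 (.a 1 [493] (.r 461 1357 333 (.d 395 2377 329 2410 494))
 (.a 0 [461] (.q 395 (.a 1 [] (.d 394 393 393 394 398)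
 (.a 1 [393] (.d 398 394 394 395 399)
 (.a 1 [394] (.d 459 1355 331 1387 491)
 .e))))
 .e)))))
 .e)))))
 .e))))
 .e))))
 (.a 1 [492] (.q 365 (.a 1 [] (.d 334 3375 303 3406 458)
 (.a 1 [303] (.d 458 3406 334 3437 489)
 (.a 0 [334,458] (.q 364 (.a 1 [] (.d 362 361 361 362 366)
 (.a 1 [361] (.d 366 362 362 363 367)
 (.a 0 [362,366] (.q 426 (.a 1 [] (.d 428 425 425 426 430)
 (.a 1 [425] (.r 428 426 430 (.d 332 1324 300 1356 460))
 (.a 1 [430] (.r 428 425 425 (.d 332 1324 300 1356 460))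
 (.a 0 [428] (.q 395 (.a 1 [] (.d 331 1323 299 1355 459)
 (.a 1 [299] (.d 459 1355 331 1387 491)
 (.a 1 [331] (.d 333 3374 302 3405 457)
 .e))))
 .e)))))
 .e))))
 .e))))
 (.a 1 [329] (.q 365 (.a 1 [] (.d 334 3375 303 3406 458)
 (.a 1 [303] (.d 458 3406 334 3437 489)
 (.a 0 [334,458] (.q 428 (.a 1 [] (.d 426 425 425 426 430)
 (.a 1 [425] (.d 430 426 426 427 431)
 (.a 0 [426,430] (.q 362 (.a 1 [] (.d 364 361 361 362 366)
 (.a 1 [361] (.r 364 362 366 (.d 460 1356 332 1388 492))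
 (.a 1 [366] (.r 364 361 361 (.d 460 1356 332 1388 492))
 (.a 0 [364] (.q 395 (.a 1 [] (.d 331 1323 299 1355 459)
 (.a 1 [299] (.d 459 1355 331 1387 491)
 (.a 1 [331] (.r 461 2410 494 (.d 397 1357 333 1389 493))
 .e))))
 .e)))))
 .e))))
 .e))))
 .e))))))))))))))))))
 (.a 0 [462] (.q 427 (.a 1 [] (.q 365 (.a 1 [] (.d 334 3375 303 3406 458)
 (.a 1 [303] (.d 458 3406 334 3437 489)
 (.a 0 [334,458] (.q 395 (.a 1 [] (.d 331 1323 299 1355 459)
 (.a 1 [299] (.d 459 1355 331 1387 491)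
 (.a 0 [331,459] (.q 461 (.a 1 [] (.d 397 1357 333 1389 493)
 (.a 1 [333] (.r 397 1389 493 (.d 398 394 394 395 399))
 (.a 1 [493] (.r 397 1357 333 (.d 398 394 394 395 399))
 (.a 0 [397] (.q 428 (.a 1 [] (.d 426 425 425 426 430)
 (.a 1 [425] (.d 430 426 426 427 431)
 (.a 1 [426] (.d 362 2377 329 2410 494)
 .e))))
 .e)))))
 .e))))
 .e))))
 (.a 1 [330] (.q 365 (.a 1 [] (.d 334 3375 303 3406 458)
 (.a 1 [334] (.q 428 (.a 1 [] (.d 426 425 425 426 430)
 (.a 1 [425] (.d 430 426 426 427 431)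
 (.a 0 [426,430] (.q 366 (.a 1 [] (.d 364 362 362 363 367)
 (.a 1 [362] (.r 364 363 367 (.d 460 1356 332 1388 492))
 (.a 1 [367] (.r 364 362 362 (.d 460 1356 332 1388 492))
 (.a 0 [364] (.q 397 (.a 1 [] (.d 461 1357 333 1389 493)
 (.a 1 [333] (.d 459 3407 335 3438 490)
 .e)))
 .e)))))
 .e))))
 (.a 1 [458] (.q 428 (.a 1 [] (.d 426 425 425 426 430)
 (.a 1 [425] (.d 430 426 426 427 431)
 (.a 0 [426,430] (.q 362 (.a 1 [] (.d 364 361 361 362 366)
 (.a 1 [361] (.r 364 362 366 (.d 460 1356 332 1388 492))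
 (.a 1 [366] (.r 364 361 361 (.d 460 1356 332 1388 492))
 (.a 0 [364] (.q 395 (.a 1 [] (.d 331 1323 299 1355 459)
 (.a 1 [299] (.d 459 1355 331 1387 491)
 (.a 1 [331] (.d 329 2344 296 2377 461)
 .e))))
 .e)))))
 .e))))
 .e))))
 (.a 1 [459] (.q 365 (.a 1 [] (.d 334 3375 303 3406 458)
 (.a 1 [458] (.q 461 (.a 1 [] (.d 397 1357 333 1389 493)
 (.a 0 [333,397,493] (.q 428 (.a 1 [] (.d 426 425 425 426 430)
 (.a 1 [425] (.d 430 426 426 427 431)
 (.a 0 [426,430] (.q 364 (.a 1 [] (.d 362 361 361 362 366)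
 (.a 1 [361] (.d 366 362 362 363 367)
 (.a 1 [362] (.d 332 1324 300 1356 460)
 .e))))
 .e))))
 .e)))
 (.a 1 [334] (.q 364 (.a 1 [] (.d 362 361 361 362 366)
 (.a 1 [361] (.d 366 362 362 363 367)
 (.a 0 [362,366] (.q 430 (.a 1 [] (.d 428 426 426 427 431)
 (.a 1 [426] (.r 428 427 431 (.d 460 1356 332 1388 492))
 (.a 1 [431] (.r 428 426 426 (.d 460 1356 332 1388 492))
 (.a 0 [428] (.q 397 (.a 1 [] (.d 461 1357 333 1389 493)
 (.a 1 [333] (.d 463 2379 331 2412 496)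
 .e)))
 .e)))))
 .e))))
 .e))))
 (.a 1 [394] (.q 365 (.a 1 [] (.d 334 3375 303 3406 458)
 (.a 1 [334] (.q 364 (.a 1 [] (.d 362 361 361 362 366)
 (.a 1 [361] (.d 366 362 362 363 367)
 (.a 0 [362,366] (.q 430 (.a 1 [] (.d 428 426 426 427 431)
 (.a 1 [426] (.r 428 427 431 (.d 460 1356 332 1388 492))
 (.a 1 [431] (.r 428 426 426 (.d 460 1356 332 1388 492))
 (.a 0 [428] (.q 397 (.a 1 [] (.d 461 1357 333 1389 493)
 (.a 1 [333] (.d 463 2379 331 2412 496)
 .e)))
 .e)))))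
 .e))))
 (.a 1 [458] (.q 364 (.a 1 [] (.d 362 361 361 362 366)
 (.a 1 [361] (.d 366 362 362 363 367)
 (.a 0 [362,366] (.q 426 (.a 1 [] (.d 428 425 425 426 430)
 (.a 1 [425] (.r 428 426 430 (.d 460 1356 332 1388 492))
 (.a 1 [430] (.r 428 425 425 (.d 460 1356 332 1388 492))
 (.a 0 [428] (.q 395 (.a 1 [] (.d 331 1323 299 1355 459)
 (.a 1 [299] (.d 459 1355 331 1387 491)
 (.a 1 [331] (.d 333 3374 302 3405 457)
 .e))))
 .e)))))
 .e))))
 .e))))
 (.a 1 [398] (.q 365 (.a 1 [] (.d 334 3375 303 3406 458)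
 (.a 1 [334] (.q 430 (.a 1 [] (.d 428 426 426 427 431)
 (.a 0 [426,428,431] (.q 331 (.a 1 [] (.d 395 1323 299 1355 459)
 (.a 0 [299,395,459] (.q 364 (.a 1 [] (.d 362 361 361 362 366)
 (.a 1 [361] (.d 366 362 362 363 367)
 (.a 1 [362] (.d 397 2346 298 2379 463)
 .e))))
 .e)))
 .e)))
 (.a 1 [458] (.q 364 (.a 1 [] (.d 362 361 361 362 366)
 (.a 1 [361] (.d 366 362 362 363 367)
 (.a 0 [362,366] (.q 430 (.a 1 [] (.d 428 426 426 427 431)
 (.a 1 [426] (.r 428 427 431 (.d 460 1356 332 1388 492))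
 (.a 1 [431] (.r 428 426 426 (.d 460 1356 332 1388 492))
 (.a 0 [428] (.q 397 (.a 1 [] (.d 461 1357 333 1389 493)
 (.a 1 [333] (.d 463 2379 331 2412 496)
 .e)))
 .e)))))
 .e))))
 .e))))
 (.a 1 [332] (.q 365 (.a 1 [] (.d 334 3375 303 3406 458)
 (.a 1 [334] (.q 364 (.a 1 [] (.d 362 361 361 362 366)
 (.a 1 [361] (.d 366 362 362 363 367)
 (.a 0 [362,366] (.q 430 (.a 1 [] (.d 428 426 426 427 431)
 (.a 0 [426,428,431] (.q 397 (.a 1 [] (.d 461 1357 333 1389 493)
 (.a 1 [333] (.d 463 2379 331 2412 496)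
 .e)))
 .e)))
 .e))))
 (.a 1 [458] (.q 395 (.a 1 [] (.d 331 1323 299 1355 459)
 (.a 1 [299] (.d 459 1355 331 1387 491)
 (.a 0 [331,459] (.q 461 (.a 1 [] (.d 397 1357 333 1389 493)
 (.a 1 [333] (.r 397 1389 493 (.d 398 394 394 395 399))
 (.a 1 [493] (.r 397 1357 333 (.d 398 394 394 395 399))
 (.a 0 [397] (.q 428 (.a 1 [] (.d 426 425 425 426 430)
 (.a 1 [425] (.d 430 426 426 427 431)
 (.a 1 [426] (.d 362 2377 329 2410 494)
 .e))))
 .e)))))
 .e))))
 .e))))
 (.a 1 [490] (.q 365 (.a 1 [] (.d 334 3375 303 3406 458)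
 (.a 1 [334] (.q 428 (.a 1 [] (.d 426 425 425 426 430)
 (.a 1 [425] (.d 430 426 426 427 431)
 (.a 0 [426,430] (.q 366 (.a 1 [] (.d 364 362 362 363 367)
 (.a 1 [362] (.r 364 363 367 (.d 460 1356 332 1388 492))
 (.a 1 [367] (.r 364 362 362 (.d 460 1356 332 1388 492))
 (.a 0 [364] (.q 397 (.a 1 [] (.d 461 1357 333 1389 493)
 (.a 1 [333] (.d 335 3376 304 3407 459)
 .e)))
 .e)))))
 .e))))
 (.a 1 [458] (.q 395 (.a 1 [] (.d 331 1323 299 1355 459)
 (.a 1 [299] (.d 459 1355 331 1387 491)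
 (.a 0 [331,459] (.q 461 (.a 1 [] (.d 397 1357 333 1389 493)
 (.a 1 [333] (.r 397 1389 493 (.d 398 394 394 395 399))
 (.a 1 [493] (.r 397 1357 333 (.d 398 394 394 395 399))
 (.a 0 [397] (.q 428 (.a 1 [] (.d 426 425 425 426 430)
 (.a 1 [425] (.d 430 426 426 427 431)
 (.a 1 [426] (.d 362 2377 329 2410 494)
 .e))))
 .e)))))
 .e))))
 .e))))
 (.a 1 [365] (.q 428 (.a 1 [] (.d 426 425 425 426 430)
 (.a 1 [425] (.d 430 426 426 427 431)
 (.a 0 [426,430] (.q 460 (.a 1 [] (.d 364 1356 332 1388 492)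
 (.a 1 [332] (.d 492 1388 364 1420 524)
 (.a 0 [364,492] (.q 398 (.a 1 [] (.d 367 3408 336 3439 491)
 (.a 1 [336] (.d 491 3439 367 3470 522)
 (.a 1 [367] (.r 491 3470 522 (.r 395 1387 459 (.d 397 394 394 395 399)))
 (.a 0 [491] (.q 395 (.a 1 [] (.d 397 394 394 395 399)
 (.a 1 [394] (.d 331 1323 299 1355 459)
 .e)))
 .e)))))
 .e))))
 .e))))
 (.a 1 [395] (.q 428 (.a 1 [] (.d 426 425 425 426 430)
 (.a 1 [425] (.d 430 426 426 427 431)
 (.a 0 [426,430] (.q 364 (.a 1 [] (.d 332 1324 300 1356 460)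
 (.a 1 [300] (.d 460 1356 332 1388 492)
 (.a 0 [332,460] (.q 365 (.a 1 [] (.d 362 361 361 362 366)
 (.a 1 [361] (.d 366 362 362 363 367)
 (.a 1 [362] (.d 334 3375 303 3406 458)
 .e))))
 .e))))
 .e))))
 (.a 1 [428] (.q 395 (.a 1 [] (.d 331 1323 299 1355 459)
 (.a 1 [299] (.d 459 1355 331 1387 491)
 (.a 0 [331,459] (.q 397 (.a 1 [] (.d 394 393 393 394 398)
 (.a 1 [393] (.d 398 394 394 395 399)
 (.a 0 [394,398] (.q 365 (.a 1 [] (.d 461 1357 333 1389 493)
 (.a 1 [333] (.d 458 3406 334 3437 489)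
 .e)))
 .e))))
 .e))))
 (.a 1 [458] (.q 428 (.a 1 [] (.d 426 425 425 426 430)
 (.a 1 [425] (.d 430 426 426 427 431)
 (.a 0 [426,430] (.q 460 (.a 1 [] (.d 364 1356 332 1388 492)
 (.a 1 [332] (.d 492 1388 364 1420 524)
 (.a 0 [364,492] (.q 394 (.a 1 [] (.d 361 2376 328 2409 493)
 (.a 1 [328] (.d 493 2409 361 2442 526)
 (.a 0 [361,493] (.q 395 (.a 1 [] (.d 393 392 392 393 397)
 (.a 1 [392] (.d 397 393 393 394 398)
 (.a 1 [393] (.d 331 1323 299 1355 459)
 .e))))
 .e))))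
 .e))))
 .e))))
 (.a 1 [430] (.q 395 (.a 1 [] (.d 331 1323 299 1355 459)
 (.a 1 [299] (.d 459 1355 331 1387 491)
 (.a 0 [331,459] (.q 458 (.a 1 [] (.d 365 3406 334 3437 489)
 (.a 1 [334] (.d 489 3437 365 3468 520)
 (.a 0 [365,489] (.q 394 (.a 1 [] (.d 393 392 392 393 397)
 (.a 1 [392] (.d 397 393 393 394 398)
 (.a 1 [393] (.r 330 2345 297 (.r 426 1354 362 (.r 425 425 428 (.d 456 3404 332 3435 487))))
 .e))))
 .e))))
 .e))))
 (.a 1 [334] (.q 395 (.a 1 [] (.d 331 1323 299 1355 459)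
 (.a 1 [299] (.d 459 1355 331 1387 491)
 (.a 0 [331,459] (.q 394 (.a 1 [] (.d 393 392 392 393 397)
 (.a 1 [392] (.d 397 393 393 394 398)
 (.a 0 [393,397] (.q 426 (.a 1 [] (.d 428 425 425 426 430)
 (.a 1 [425] (.r 330 2345 297 (.d 362 1322 298 1354 458))
 .e)))
 .e))))
 .e))))
 (.a 1 [426] (.q 395 (.a 1 [] (.d 331 1323 299 1355 459)
 (.a 1 [299] (.d 459 1355 331 1387 491)
 (.a 0 [331,459] (.q 397 (.a 1 [] (.d 394 393 393 394 398)
 (.a 1 [393] (.d 398 394 394 395 399)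
 (.a 0 [394,398] (.q 365 (.a 1 [] (.d 461 1357 333 1389 493)
 (.a 1 [333] (.d 458 3406 334 3437 489)
 .e)))
 .e))))
 .e))))
 (.a 1 [460] (.q 365 (.a 1 [] (.d 334 3375 303 3406 458)
 (.a 1 [303] (.d 458 3406 334 3437 489)
 (.a 0 [334,458] (.q 459 (.a 1 [] (.d 395 1355 331 1387 491)
 (.a 0 [331,395,491] (.q 428 (.a 1 [] (.d 426 425 425 426 430)
 (.a 1 [425] (.d 430 426 426 427 431)
 (.a 0 [426,430] (.q 366 (.a 1 [] (.d 364 362 362 363 367)
 (.a 1 [362] (.d 397 3407 335 3438 490)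
 .e)))
 .e))))
 .e)))
 .e))))
 (.a 1 [299] (.q 365 (.a 1 [] (.d 334 3375 303 3406 458)
 (.a 1 [303] (.d 458 3406 334 3437 489)
 (.a 0 [334,458] (.q 364 (.a 1 [] (.d 362 361 361 362 366)
 (.a 1 [361] (.d 366 362 362 363 367)
 (.a 0 [362,366] (.q 430 (.a 1 [] (.d 428 426 426 427 431)
 (.a 1 [426] (.r 428 427 431 (.d 460 1356 332 1388 492))
 (.a 1 [431] (.r 428 426 426 (.d 460 1356 332 1388 492))
 (.a 0 [428] (.q 397 (.a 1 [] (.d 461 1357 333 1389 493)
 (.a 1 [333] (.d 463 2379 331 2412 496)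
 .e)))
 .e)))))
 .e))))
 .e))))
 (.a 1 [461] (.q 428 (.a 1 [] (.d 426 425 425 426 430)
 (.a 1 [425] (.d 430 426 426 427 431)
 (.a 0 [426,430] (.q 459 (.a 1 [] (.d 395 1355 331 1387 491)
 (.a 0 [331,395,491] (.q 365 (.a 1 [] (.d 334 3375 303 3406 458)
 (.a 1 [303] (.d 458 3406 334 3437 489)
 (.a 0 [334,458] (.q 366 (.a 1 [] (.d 364 362 362 363 367)
 (.a 1 [362] (.d 397 3407 335 3438 490)
 .e)))
 .e))))
 .e)))
 .e))))
 (.a 1 [362] (.q 395 (.a 1 [] (.d 331 1323 299 1355 459)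
 (.a 1 [299] (.d 459 1355 331 1387 491)
 (.a 0 [331,459] (.q 397 (.a 1 [] (.d 394 393 393 394 398)
 (.a 1 [393] (.d 398 394 394 395 399)
 (.a 0 [394,398] (.q 365 (.a 1 [] (.d 461 1357 333 1389 493)
 (.a 1 [333] (.d 458 3406 334 3437 489)
 .e)))
 .e))))
 .e))))
 (.a 1 [366] (.q 395 (.a 1 [] (.d 331 1323 299 1355 459)
 (.a 1 [299] (.d 459 1355 331 1387 491)
 (.a 0 [331,459] (.q 397 (.a 1 [] (.d 394 393 393 394 398)
 (.a 1 [393] (.d 398 394 394 395 399)
 (.a 0 [394,398] (.q 430 (.a 1 [] (.d 428 426 426 427 431)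
 (.a 0 [426,428,431] (.q 365 (.a 1 [] (.d 461 1357 333 1389 493)
 (.a 1 [333] (.d 458 3406 334 3437 489)
 .e)))
 .e)))
 .e))))
 .e))))
 (.a 1 [302] (.q 365 (.a 1 [] (.d 334 3375 303 3406 458)
 (.a 1 [303] (.d 458 3406 334 3437 489)
 (.a 0 [334,458] (.q 395 (.a 1 [] (.d 331 1323 299 1355 459)
 (.a 1 [299] (.d 459 1355 331 1387 491)
 (.a 0 [331,459] (.q 461 (.a 1 [] (.d 397 1357 333 1389 493)
 (.a 1 [333] (.r 397 1389 493 (.d 398 394 394 395 399))
 (.a 1 [493] (.r 397 1357 333 (.d 398 394 394 395 399))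
 (.a 0 [397] (.q 428 (.a 1 [] (.d 426 425 425 426 430)
 (.a 1 [425] (.d 430 426 426 427 431)
 (.a 1 [426] (.d 362 2377 329 2410 494)
 .e))))
 .e)))))
 .e))))
 .e))))
 (.a 1 [298] (.q 365 (.a 1 [] (.d 334 3375 303 3406 458)
 (.a 1 [303] (.d 458 3406 334 3437 489)
 (.a 0 [334,458] (.q 364 (.a 1 [] (.d 362 361 361 362 366)
 (.a 1 [361] (.d 366 362 362 363 367)
 (.a 0 [362,366] (.q 430 (.a 1 [] (.d 428 426 426 427 431)
 (.a 1 [426] (.r 428 427 431 (.d 460 1356 332 1388 492))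
 (.a 1 [431] (.r 428 426 426 (.d 460 1356 332 1388 492))
 (.a 0 [428] (.q 397 (.a 1 [] (.d 461 1357 333 1389 493)
 (.a 1 [333] (.d 463 2379 331 2412 496)
 .e)))
 .e)))))
 .e))))
 .e))))
 (.a 1 [463] (.q 365 (.a 1 [] (.d 334 3375 303 3406 458)
 (.a 1 [303] (.d 458 3406 334 3437 489)
 (.a 0 [334,458] (.q 364 (.a 1 [] (.d 362 361 361 362 366)
 (.a 1 [361] (.d 366 362 362 363 367)
 (.a 0 [362,366] (.q 430 (.a 1 [] (.d 428 426 426 427 431)
 (.a 1 [426] (.r 428 427 431 (.d 460 1356 332 1388 492))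
 (.a 1 [431] (.r 428 426 426 (.d 460 1356 332 1388 492))
 (.a 0 [428] (.q 397 (.a 1 [] (.d 461 1357 333 1389 493)
 (.a 1 [333] (.r 331 2346 298 (.d 395 1323 299 1355 459))
 .e)))
 .e)))))
 .e))))
 .e))))
 .e)))))))))))))))))))))))
 (.a 1 [297] (.d 462 2378 330 2411 495)
 .e))))) (by decide +kernel)

theorem r328 : S (Nat.lor X2 (bits [498, 328])) := VW.play 394 (PX [] [328,498]) (by decide +kernel) v6_44

theorem all : RT X2 498 (366 :: 370 :: 374 :: 399 :: 402 :: 405 :: 432 :: 434 :: 436 :: 465 :: 466 :: 467 :: 494 :: 495 :: 496 :: 497 :: 499 :: 500 :: 501 :: 502 :: 529 :: 530 :: 531 :: 560 :: 562 :: 564 :: 591 :: 594 :: 597 :: 622 :: 626 :: 630 :: 297 :: 301 :: 328 :: []) := ⟨r366, r370, r374, r399, r402, r405, r432, r434, r436, r465, r466, r467, r494, r495, r496, r497, r499, r500, r501, r502, r529, r530, r531, r560, r562, r564, r591, r594, r597, r622, r626, r630, r297, r301, r328, trivial⟩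

end Pool.Agent.H94.Five.Mid.K7_4_0
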