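import Pool.Agent.H94.Five.Mid.Fam

set_option autoImplicit false
set_option linter.all false
set_option maxRecDepth 100000

/-! Second has the cell (7, 5): some of the other stones. -/

namespace Pool.Agent.H94.Five.Mid.K7_5_0

open Pool.Agent.H79.Five Pool.Agent.H10.Five Pool.Agent.H94.Five.M

abbrev nl : List Ent := (n0 :: n3 :: n4 :: n6 :: n7 :: n8 :: n9 :: n10 :: n11 :: n12 :: n13 :: n14 :: n15 :: n16 :: n17 :: n18 :: n19 :: n20 :: n21 :: n22 :: n24 :: [])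

theorem nl_ok : AC XB M0 nl := .cons n0k <| .cons n3k <| .cons n4k <| .cons n6k <| .cons n7k <| .cons n8k <| .cons n9k <| .cons n10k <| .cons n11k <| .cons n12k <| .cons n13k <| .cons n14k <| .cons n15k <| .cons n16k <| .cons n17k <| .cons n18k <| .cons n19k <| .cons n20k <| .cons n21k <| .cons n22k <| .cons n24k <| .nil

abbrev fl : List Ent := (x0 :: x6 :: x7 :: x15 :: x23 :: x25 :: x30 :: x35 :: x44 :: x45 :: x49 :: x53 :: x54 :: x57 :: x58 :: x62 :: x69 :: x73 :: x77 :: x80 :: x87 :: x88 :: x92 :: x94 :: x96 :: x100 :: x101 :: x102 :: x103 :: x106 :: x113 :: x119 :: x130 :: x131 :: x136 :: x142 :: x156 :: x160 :: x163 :: x167 :: x168 :: x170 :: x174 :: x178 :: x179 :: x180 :: x183 :: x184 :: x185 :: x188 :: x193 :: x195 :: x196 :: x198 :: x201 :: x204 :: x206 :: x207 :: x209 :: x210 :: x214 :: x216 :: x217 :: x223 :: x225 :: x226 :: x229 :: x233 :: x241 :: x245 :: x247 :: x249 :: x253 :: x255 :: x257 :: x258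 :: x260 :: x261 :: x262 :: x266 :: x268 :: x269 :: x271 :: x276 :: x277 :: x284 :: x285 :: x290 :: x291 :: x298 :: x301 :: x303 :: x304 :: x305 :: x307 :: x310 :: x312 :: x316 :: x321 :: x322 :: x325 :: x328 :: x330 :: x335 :: x340 :: x349 :: x354 :: x355 :: x357 :: x358 :: x364 :: x366 :: x371 :: x372 :: x375 :: x376 :: x378 :: x379 :: x383 :: x386 :: x388 :: x390 :: x392 :: x393 :: x396 :: x399 :: x408 :: x413 :: x415 :: x420 :: x423 :: x424 :: x426 :: x427 :: x437 :: x439 :: x446 :: x449 :: x451 :: x452 :: x454 :: x455 :: x457 :: x460 :: x462 :: x463 :: x476 :: x480 :: x481 :: x492 :: x496 :: x500 :: x501 :: x503 :: x507 :: x510 :: x511 :: x512 :: x513 :: x518 :: x519 :: x520 :: x522 :: x535 :: x537 :: x540 :: x545 :: x552 :: x553 :: [])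

theorem fl_ok : AC XB M0 fl := .cons x0k <| .cons x6k <| .cons x7k <| .cons x15k <| .cons x23k <| .cons x25k <| .cons x30k <| .cons x35k <| .cons x44k <| .cons x45k <| .cons x49k <| .cons x53k <| .cons x54k <| .cons x57k <| .cons x58k <| .cons x62k <| .cons x69k <| .cons x73k <| .cons x77k <| .cons x80k <| .cons x87k <| .cons x88k <| .cons x92k <| .cons x94k <| .cons x96k <| .cons x100k <| .cons x101k <| .cons x102k <| .cons x103k <| .cons x106k <| .cons x113k <| .cons x119k <| .cons x130k <| .cons x131k <| .cons x136k <| .cons x142k <| .cons x156k <| .cons x160k <| .cons x163k <| .cons x167k <| .cons x168k <| .cons x170k <| .cons x174k <| .cons x178k <| .cons x179k <| .cons x180k <| .cons x183k <| .cons x184k <| .cons x185k <| .cons x188k <| .cons x193k <| .cons x195k <| .cons x196k <| .cons x198k <| .cons x201k <| .cons x204k <| .cons x206k <| .cons x207k <| .cons x209k <| .cons x210k <| .cons x214k <| .cons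 x216k <| .cons x217k <| .cons x223k <| .cons x225k <| .cons x226k <| .cons x229k <| .cons x233k <| .cons x241k <| .cons x245k <| .cons x247k <| .cons x249k <| .cons x253k <| .cons x255k <| .cons x257k <| .cons x258k <| .cons x260k <| .cons x261k <| .cons x262k <| .cons x266k <| .cons x268k <| .cons x269k <| .cons x271k <| .cons x276k <| .cons x277k <| .cons x284k <| .cons x285k <| .cons x290k <| .cons x291k <| .cons x298k <| .cons x301k <| .cons x303k <| .cons x304k <| .cons x305k <| .cons x307k <| .cons x310k <| .cons x312k <| .cons x316k <| .cons x321k <| .cons x322k <| .cons x325k <| .cons x328k <| .cons x330k <| .cons x335k <| .cons x340k <| .cons x349k <| .cons x354k <| .cons x355k <| .cons x357k <| .cons x358k <| .cons x364k <| .cons x366k <| .cons x371k <| .cons x372k <| .cons x375k <| .cons x376k <| .cons x378k <| .cons x379k <| .cons x383k <| .cons x386k <| .cons x388k <| .cons x390k <| .cons x392k <| .cons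 x393k <| .cons x396k <| .cons x399k <| .cons x408k <| .cons x413k <| .cons x415k <| .cons x420k <| .cons x423k <| .cons x424k <| .cons x426k <| .cons x427k <| .cons x437k <| .cons x439k <| .cons x446k <| .cons x449k <| .cons x451k <| .cons x452k <| .cons x454k <| .cons x455k <| .cons x457k <| .cons x460k <| .cons x462k <| .cons x463k <| .cons x476k <| .cons x480k <| .cons x481k <| .cons x492k <| .cons x496k <| .cons x500k <| .cons x501k <| .cons x503k <| .cons x507k <| .cons x510k <| .cons x511k <| .cons x512k <| .cons x513k <| .cons x518k <| .cons x519k <| .cons x520k <| .cons x522k <| .cons x535k <| .cons x537k <| .cons x540k <| .cons x545k <| .cons x552k <| .cons x553k <| .nil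

theorem b2_1353 : S (PX [] [299,398,530]) := S.of (.q 332 (.a 1 [] (.d 301 3342 270 3373 425)
 (.a 1 [270] (.d 425 3373 301 3404 456)
 (.a 0 [301,425] (.q 330 (.a 1 [] (.d 297 2312 264 2345 429)
 (.a 1 [264] (.d 429 2345 297 2378 462)
 (.a 0 [297] (.q 300 (.a 1 [] (.d 364 1292 268 1324 428)
 (.a 0 [268,364,428] (.q 331 (.a 1 [] (.d 329 328 328 329 333)
 (.a 1 [328] (.d 333 329 329 330 334)
 (.a 0 [329,333] (.q 393 (.a 1 [] (.d 395 392 392 393 397)
 (.a 1 [392] (.d 362 3341 269 3372 424)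
 .e)))
 .e))))
 .e)))
 (.a 0 [429] (.q 362 (.a 1 [] (.d 298 1290 266 1322 426)
 (.a 1 [266] (.d 426 1322 298 1354 458)
 (.a 0 [298] (.q 300 (.a 1 [] (.d 364 1292 268 1324 428)
 (.a 1 [268] (.r 364 1324 428 (.d 365 361 361 362 366))
 (.a 1 [428] (.r 364 1292 268 (.d 365 361 361 362 366))
 (.a 0 [364] (.q 331 (.a 1 [] (.d 329 328 328 329 333)
 (.a 1 [328] (.d 333 329 329 330 334)
 (.a 1 [329] (.d 269 3310 238 3341 393)
 .e))))
 .e)))))
 (.a 0 [426] (.q 428 (.a 1 [] (.d 364 1324 300 1356 460)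
 (.a 1 [300] (.r 364 1356 460 (.d 365 361 361 362 366))
 (.a 1 [460] (.r 364 1324 300 (.d 365 361 361 362 366))
 (.a 0 [364] (.q 395 (.a 1 [] (.d 393 392 392 393 397)
 (.a 1 [392] (.d 461 2377 329 2410 494)
 .e)))
 .e)))))
 .e)))))
 .e)))))
 .e)))) (by decide +kernel)

theorem b2_1354 : S (PX [] [332,398,530]) := S.of (.q 330 (.a 1 [] (.d 297 2312 264 2345 429)
 (.a 1 [264] (.d 429 2345 297 2378 462)
 (.a 0 [297,429] (.q 395 (.a 1 [] (.d 393 392 392 393 397)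
 (.a 0 [392,393,397] (.q 427 (.a 1 [] (.d 331 1323 299 1355 459)
 (.a 1 [299] (.d 459 1355 331 1387 491)
 (.a 0 [331,459] (.q 365 (.a 1 [] (.d 334 3375 303 3406 458)
 (.a 1 [303] (.d 458 3406 334 3437 489)
 (.a 1 [334] (.r 458 3437 489 (.r 362 1354 426 (.d 364 361 361 362 366)))
 (.a 0 [458] (.q 362 (.a 1 [] (.d 364 361 361 362 366)
 (.a 1 [361] (.d 298 1290 266 1322 426)
 .e)))
 .e)))))
 .e))))
 .e)))
 .e)))) (by decide +kernel)

theorem b2_1355 : S (PX [] [365,398,530]) := S.of (.q 429 (.a 1 [] (.d 330 2345 297 2378 462)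
 (.a 1 [297] (.d 462 2378 330 2411 495)
 (.a 0 [330,462] (.q 395 (.a 1 [] (.d 393 392 392 393 397)
 (.a 0 [392,393,397] (.q 427 (.a 1 [] (.d 331 1323 299 1355 459)
 (.a 1 [299] (.d 459 1355 331 1387 491)
 (.a 0 [331,459] (.q 332 (.a 1 [] (.d 301 3342 270 3373 425)
 (.a 1 [270] (.d 425 3373 301 3404 456)
 (.a 1 [301] (.r 425 3404 456 (.r 428 425 426 (.d 364 1324 300 1356 460)))
 (.a 0 [425] (.q 428 (.a 1 [] (.d 430 426 426 427 431)
 (.a 1 [426] (.d 364 1324 300 1356 460)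
 .e)))
 .e)))))
 .e))))
 .e)))
 .e)))) (by decide +kernel)

theorem b2_1356 : S (PX [] [398,400,530]) := S.of (.q 332 (.a 1 [] (.d 301 3342 270 3373 425)
 (.a 1 [270] (.d 425 3373 301 3404 456)
 (.a 0 [301,425] (.q 364 (.a 1 [] (.d 300 1292 268 1324 428)
 (.a 1 [268] (.d 428 1324 300 1356 460)
 (.a 0 [300,428] (.q 362 (.a 1 [] (.d 361 360 360 361 365)
 (.a 1 [360] (.d 365 361 361 362 366)
 (.a 0 [361,365] (.q 330 (.a 1 [] (.d 298 1290 266 1322 426)
 (.a 1 [266] (.d 426 1322 298 1354 458)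
 (.a 1 [298] (.d 297 2312 264 2345 429)
 .e))))
 .e))))
 .e))))
 .e)))) (by decide +kernel)

theorem b2_1357 : S (PX [] [398,431,530]) := S.of (.q 332 (.a 1 [] (.d 301 3342 270 3373 425)
 (.a 0 [301] (.q 429 (.a 1 [] (.d 330 2345 297 2378 462)
 (.a 0 [330] (.r 425 3404 456 (.q 428 (.a 1 [] (.d 364 1324 300 1356 460)
 (.a 1 [364] (.q 464 (.a 1 [] (.q 395 (.a 1 [] (.d 393 392 392 393 397)
 (.a 1 [392] (.r 427 425 426 (.d 459 1355 331 1387 491))
 .e)))
 (.a 1 [427] (.q 395 (.a 1 [] (.d 393 392 392 393 397)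
 (.a 0 [392,393,397] (.q 461 (.a 1 [] (.d 362 2377 329 2410 494)
 (.a 1 [329] (.d 494 2410 362 2443 527)
 (.a 1 [362] (.r 462 2411 495 (.d 463 460 460 461 465))
 .e))))
 .e)))
 (.a 1 [395] (.r 426 425 427 (.q 458 (.a 1 [] (.d 490 1386 362 1418 522)
 (.a 0 [362,490,522] (.q 460 (.a 1 [] (.r 462 2411 495 (.d 461 458 459 460 463))
 (.a 1 [459] (.r 524 1420 492 (.d 491 2440 392 2473 557))
 .e)))
 .e))))
 (.a 1 [392] (.q 395 (.a 1 [] (.r 427 425 426 (.d 459 1355 331 1387 491))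
 (.a 1 [491] (.r 427 425 426 (.d 331 1323 299 1355 459))
 (.a 0 [331,426,427,459] (.q 461 (.a 1 [] (.d 362 2377 329 2410 494)
 (.a 1 [329] (.d 494 2410 362 2443 527)
 (.a 1 [362] (.r 397 393 393 (.d 365 1357 333 1389 493))
 .e))))
 .e))))
 (.a 1 [423] (.q 395 (.a 1 [] (.d 393 392 392 393 397)
 (.a 1 [392] (.r 427 425 426 (.d 459 1355 331 1387 491))
 .e)))
 .e))))))
 (.a 1 [460] (.q 497 (.a 1 [] (.q 395 (.a 1 [] (.d 393 392 392 393 397)
 (.a 1 [392] (.r 427 425 426 (.d 459 1355 331 1387 491))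
 .e)))
 (.a 1 [427] (.q 395 (.a 1 [] (.d 393 392 392 393 397)
 (.a 0 [392,393,397] (.q 362 (.a 1 [] (.d 329 2344 296 2377 461)
 (.a 1 [296] (.d 461 2377 329 2410 494)
 (.a 1 [329] (.r 364 1324 300 (.d 365 361 361 362 366))
 .e))))
 .e)))
 (.a 1 [395] (.r 427 425 426 (.q 365 (.a 1 [] (.d 334 3375 303 3406 458)
 (.a 1 [303] (.d 458 3406 334 3437 489)
 (.a 1 [334] (.r 364 1324 300 (.d 366 362 362 363 367))
 .e)))))
 (.a 1 [458] (.r 427 425 426 (.q 459 (.a 1 [] (.d 395 1355 331 1387 491)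
 (.a 1 [331] (.r 395 1387 491 (.d 393 392 392 393 397))
 (.a 1 [491] (.r 395 1355 331 (.d 393 392 392 393 397))
 (.a 0 [395] (.q 366 (.a 1 [] (.d 397 3407 335 3438 490)
 (.a 1 [335] (.r 364 1324 300 (.d 365 362 362 363 367))
 .e)))
 .e))))))
 (.a 1 [459] (.r 427 425 426 (.q 458 (.a 1 [] (.d 365 3406 334 3437 489)
 (.a 1 [334] (.d 489 3437 365 3468 520)
 (.a 0 [365,489] (.q 392 (.a 1 [] (.d 359 2374 326 2407 491)
 (.a 1 [326] (.d 491 2407 359 2440 524)
 (.a 0 [359,491] (.r 393 392 395 (.r 364 1324 300 (.q 361 (.a 1 [] (.d 329 1321 297 1353 457)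
 (.a 0 [297,329,457] (.r 328 2343 295 (.r 360 360 362 (.d 296 1288 264 1320 424)))
 .e)))))
 .e))))
 .e)))))
 (.a 1 [299] (.q 395 (.a 1 [] (.d 393 392 392 393 397)
 (.a 1 [392] (.r 427 425 426 (.d 459 1355 331 1387 491))
 .e)))
 (.a 1 [457] (.r 427 425 426 (.q 395 (.a 1 [] (.d 393 392 392 393 397)
 (.a 1 [392] (.d 459 1355 331 1387 491)
 (.a 0 [459] (.q 458 (.a 1 [] (.d 393 392 392 393 397)
 (.a 1 [392] (.d 489 3437 365 3468 520)
 .e)))
 .e)))))
 (.a 1 [488] (.q 395 (.a 1 [] (.d 393 392 392 393 397)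
 (.a 1 [392] (.r 427 425 426 (.d 459 1355 331 1387 491))
 .e)))
 .e)))))))))
 (.a 1 [497] (.q 464 (.a 1 [] (.d 364 1324 300 1356 460)
 (.a 1 [364] (.q 395 (.a 1 [] (.d 393 392 392 393 397)
 (.a 1 [392] (.r 427 425 426 (.d 459 1355 331 1387 491))
 .e)))
 .e)))
 (.a 1 [464] (.q 497 (.a 1 [] (.d 364 1324 300 1356 460)
 (.a 1 [364] (.q 395 (.a 1 [] (.d 393 392 392 393 397)
 (.a 1 [392] (.r 427 425 426 (.d 459 1355 331 1387 491))
 .e)))
 .e)))
 (.a 1 [300] (.r 460 1356 364 (.r 427 425 426 (.d 493 2409 361 2442 526)))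
 .e))))))))
 (.a 0 [462] (.r 330 2345 297 (.r 425 3404 456 (.q 364 (.a 1 [] (.d 300 1292 268 1324 428)
 (.a 1 [428] (.q 362 (.a 1 [] (.d 361 360 360 361 365)
 (.a 1 [464] (.q 497 (.a 1 [] (.d 361 360 360 361 365)
 (.a 1 [361] (.d 298 1290 266 1322 426)
 .e)))
 (.a 1 [497] (.q 464 (.a 1 [] (.d 298 1290 266 1322 426)
 (.a 1 [266] (.d 426 1322 298 1354 458)
 (.a 1 [298] (.d 361 360 360 361 365)
 .e))))
 (.a 1 [361] (.d 426 1322 298 1354 458)
 .e)))))
 (.a 1 [464] (.q 497 (.a 1 [] (.d 428 1324 300 1356 460)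
 (.a 1 [428] (.q 362 (.a 1 [] (.d 361 360 360 361 365)
 (.a 1 [360] (.d 365 361 361 362 366)
 (.a 1 [361] (.d 298 1290 266 1322 426)
 .e))))
 (.a 1 [300] (.r 428 1356 460 (.r 426 425 427 (.d 362 1322 298 1354 458)))
 (.a 1 [460] (.d 300 1292 268 1324 428)
 .e)))))
 (.a 1 [497] (.q 464 (.a 1 [] (.d 428 1324 300 1356 460)
 (.a 1 [428] (.q 362 (.a 1 [] (.d 361 360 360 361 365)
 (.a 1 [360] (.d 365 361 361 362 366)
 (.a 1 [361] (.d 298 1290 266 1322 426)
 .e))))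
 (.a 1 [300] (.r 428 1356 460 (.r 426 425 427 (.d 362 1322 298 1354 458)))
 .e))))
 (.a 1 [300] (.r 428 1356 460 (.r 426 425 427 (.d 362 1322 298 1354 458)))
 .e))))))))
 (.a 1 [497] (.q 464 (.a 1 [] (.d 462 2378 330 2411 495)
 (.a 1 [462] (.q 364 (.a 1 [] (.d 300 1292 268 1324 428)
 (.a 1 [268] (.d 428 1324 300 1356 460)
 (.a 0 [300,428] (.q 362 (.a 1 [] (.d 361 360 360 361 365)
 (.a 1 [360] (.d 365 361 361 362 366)
 (.a 1 [361] (.r 330 2345 297 (.d 426 1322 298 1354 458))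
 .e))))
 .e))))
 (.a 1 [330] (.q 364 (.a 1 [] (.d 300 1292 268 1324 428)
 (.a 1 [268] (.d 428 1324 300 1356 460)
 (.a 0 [300,428] (.q 365 (.a 1 [] (.d 362 361 361 362 366)
 (.a 1 [361] (.d 366 362 362 363 367)
 (.a 0 [362,366] (.q 461 (.a 1 [] (.d 397 1357 333 1389 493)
 (.a 1 [333] (.r 462 2411 495 (.d 463 460 460 461 465))
 .e)))
 .e))))
 .e))))
 .e))))
 (.a 0 [464] (.q 497 (.a 1 [] (.d 462 2378 330 2411 495)
 (.a 1 [330] (.r 495 2411 462 (.r 425 3404 456 (.q 364 (.a 1 [] (.d 300 1292 268 1324 428)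
 (.a 1 [428] (.q 395 (.a 1 [] (.d 393 392 392 393 397)
 (.a 0 [392,393,397] (.q 366 (.a 1 [] (.d 365 362 362 363 367)
 (.a 0 [362,365,367] (.q 333 (.a 1 [] (.d 302 3343 271 3374 426)
 (.a 1 [271] (.d 426 3374 302 3405 457)
 (.a 1 [302] (.r 300 1292 268 (.d 399 2315 267 2348 432))
 .e))))
 .e)))
 .e)))
 (.a 1 [300] (.q 365 (.a 1 [] (.d 362 361 361 362 366)
 (.a 1 [361] (.d 366 362 362 363 367)
 (.a 1 [362] (.r 428 1356 460 (.r 427 425 426 (.d 458 3406 334 3437 489)))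
 .e))))
 (.a 1 [268] (.d 428 1324 300 1356 460)
 .e)))))))
 (.a 1 [462] (.q 364 (.a 1 [] (.d 300 1292 268 1324 428)
 (.a 1 [268] (.d 428 1324 300 1356 460)
 (.a 0 [300,428] (.q 362 (.a 1 [] (.d 361 360 360 361 365)
 (.a 1 [360] (.d 365 361 361 362 366)
 (.a 1 [361] (.r 330 2345 297 (.d 426 1322 298 1354 458))
 .e))))
 .e))))
 .e))))
 (.a 1 [297] (.d 462 2378 330 2411 495)
 .e)))))))
 (.a 0 [425] (.q 364 (.a 1 [] (.d 300 1292 268 1324 428)
 (.a 0 [428] (.q 365 (.a 1 [] (.d 362 361 361 362 366)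
 (.a 1 [366] (.r 361 361 362 (.r 268 1292 300 (.r 301 3342 270 (.q 334 (.a 1 [] (.d 235 2250 202 2283 367)
 (.a 1 [497] (.q 464 (.a 1 [] (.d 235 2250 202 2283 367)
 (.a 1 [367] (.d 427 3375 303 3406 458)
 .e)))
 (.a 1 [464] (.q 497 (.a 1 [] (.d 235 2250 202 2283 367)
 (.a 1 [367] (.d 427 3375 303 3406 458)
 .e)))
 (.a 1 [367] (.d 427 3375 303 3406 458)
 .e))))))))
 (.a 1 [497] (.q 464 (.a 1 [] (.d 362 361 361 362 366)
 (.a 1 [362] (.q 427 (.a 1 [] (.d 334 3375 303 3406 458)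
 (.a 1 [303] (.d 458 3406 334 3437 489)
 (.a 0 [334,458] (.q 395 (.a 1 [] (.d 393 392 392 393 397)
 (.a 1 [392] (.d 459 1355 331 1387 491)
 .e)))
 .e))))
 (.a 1 [366] (.q 427 (.a 1 [] (.d 334 3375 303 3406 458)
 (.a 1 [303] (.d 458 3406 334 3437 489)
 (.a 1 [334] (.r 361 361 362 (.d 460 2376 328 2409 493))
 .e))))
 .e))))
 (.a 1 [464] (.q 497 (.a 1 [] (.d 362 361 361 362 366)
 (.a 1 [362] (.q 427 (.a 1 [] (.d 334 3375 303 3406 458)
 (.a 1 [303] (.d 458 3406 334 3437 489)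
 (.a 0 [334,458] (.q 395 (.a 1 [] (.d 393 392 392 393 397)
 (.a 1 [392] (.d 459 1355 331 1387 491)
 .e)))
 .e))))
 (.a 1 [366] (.q 427 (.a 1 [] (.d 334 3375 303 3406 458)
 (.a 1 [303] (.d 458 3406 334 3437 489)
 (.a 1 [334] (.r 361 361 362 (.d 460 2376 328 2409 493))
 .e))))
 .e))))
 (.a 1 [362] (.r 301 3342 270 (.r 367 363 366 (.r 268 1292 300 (.d 334 2283 235 2316 400))))
 .e))))))
 (.a 0 [300] (.q 497 (.a 1 [] (.q 361 (.a 1 [] (.d 362 360 360 361 365)
 (.a 1 [360] (.r 460 1356 428 (.d 427 2376 328 2409 493))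
 .e)))
 (.a 1 [428] (.q 365 (.a 1 [] (.d 362 361 361 362 366)
 (.a 1 [362] (.q 427 (.a 1 [] (.d 334 3375 303 3406 458)
 (.a 1 [303] (.d 458 3406 334 3437 489)
 (.a 0 [334,458] (.q 395 (.a 1 [] (.d 393 392 392 393 397)
 (.a 1 [392] (.d 459 1355 331 1387 491)
 .e)))
 .e))))
 (.a 1 [366] (.q 427 (.a 1 [] (.d 334 3375 303 3406 458)
 (.a 1 [303] (.d 458 3406 334 3437 489)
 (.a 1 [334] (.r 361 361 362 (.d 460 2376 328 2409 493))
 .e))))
 .e))))
 (.a 1 [362] (.q 395 (.a 1 [] (.d 393 392 392 393 397)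
 (.a 0 [392,393,397] (.q 331 (.a 1 [] (.d 299 1291 267 1323 427)
 (.a 1 [267] (.d 427 1323 299 1355 459)
 (.a 0 [299,427] (.q 330 (.a 1 [] (.d 329 328 328 329 333)
 (.a 1 [328] (.d 333 329 329 330 334)
 (.a 1 [329] (.d 297 2312 264 2345 429)
 .e))))
 .e))))
 .e)))
 (.a 1 [429] (.q 361 (.a 1 [] (.d 362 360 360 361 365)
 (.a 1 [360] (.r 460 1356 428 (.d 427 2376 328 2409 493))
 .e)))
 (.a 1 [361] (.q 330 (.a 1 [] (.d 297 2312 264 2345 429)
 (.a 1 [264] (.d 429 2345 297 2378 462)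
 (.a 0 [297,429] (.q 329 (.a 1 [] (.d 331 328 328 329 333)
 (.a 0 [328,331,333] (.q 362 (.a 1 [] (.d 298 1290 266 1322 426)
 (.a 1 [266] (.d 426 1322 298 1354 458)
 (.a 1 [298] (.r 428 1356 460 (.d 395 2344 296 2377 461))
 .e))))
 .e)))
 .e))))
 (.a 1 [427] (.q 429 (.a 1 [] (.d 330 2345 297 2378 462)
 (.a 1 [297] (.d 462 2378 330 2411 495)
 (.a 0 [330,462] (.q 362 (.a 1 [] (.d 361 360 360 361 365)
 (.a 1 [360] (.d 365 361 361 362 366)
 (.a 0 [361,365] (.q 395 (.a 1 [] (.d 393 392 392 393 397)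
 (.a 1 [392] (.r 428 1356 460 (.d 461 2377 329 2410 494))
 .e)))
 .e))))
 .e))))
 (.a 1 [430] (.q 361 (.a 1 [] (.d 362 360 360 361 365)
 (.a 1 [360] (.r 460 1356 428 (.d 427 2376 328 2409 493))
 .e)))
 .e))))))))
 (.a 1 [497] (.q 464 (.a 1 [] (.d 428 1324 300 1356 460)
 (.a 1 [428] (.q 429 (.a 1 [] (.d 330 2345 297 2378 462)
 (.a 1 [297] (.d 462 2378 330 2411 495)
 (.a 0 [330,462] (.q 395 (.a 1 [] (.d 393 392 392 393 397)
 (.a 0 [392,393,397] (.q 361 (.a 1 [] (.d 362 360 360 361 365)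
 (.a 0 [360,362,365] (.q 427 (.a 1 [] (.d 331 1323 299 1355 459)
 (.a 1 [299] (.d 459 1355 331 1387 491)
 (.a 1 [331] (.d 328 2343 295 2376 460)
 .e))))
 .e)))
 .e)))
 .e))))
 (.a 1 [300] (.q 361 (.a 1 [] (.d 362 360 360 361 365)
 (.a 1 [360] (.r 460 1356 428 (.d 427 2376 328 2409 493))
 .e)))
 (.a 1 [460] (.d 300 1292 268 1324 428)
 .e)))))
 (.a 1 [464] (.q 497 (.a 1 [] (.d 428 1324 300 1356 460)
 (.a 1 [428] (.q 429 (.a 1 [] (.d 330 2345 297 2378 462)
 (.a 1 [297] (.d 462 2378 330 2411 495)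
 (.a 0 [330,462] (.q 395 (.a 1 [] (.d 393 392 392 393 397)
 (.a 0 [392,393,397] (.q 361 (.a 1 [] (.d 362 360 360 361 365)
 (.a 0 [360,362,365] (.q 427 (.a 1 [] (.d 331 1323 299 1355 459)
 (.a 1 [299] (.d 459 1355 331 1387 491)
 (.a 1 [331] (.d 328 2343 295 2376 460)
 .e))))
 .e)))
 .e)))
 .e))))
 (.a 1 [300] (.q 361 (.a 1 [] (.d 362 360 360 361 365)
 (.a 1 [360] (.r 460 1356 428 (.d 427 2376 328 2409 493))
 .e)))
 (.a 1 [460] (.d 300 1292 268 1324 428)
 .e)))))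
 (.a 1 [268] (.d 428 1324 300 1356 460)
 .e)))))))
 (.a 1 [497] (.q 464 (.a 1 [] (.d 301 3342 270 3373 425)
 (.a 1 [301] (.q 330 (.a 1 [] (.d 297 2312 264 2345 429)
 (.a 1 [264] (.d 429 2345 297 2378 462)
 (.a 0 [297,429] (.q 362 (.a 1 [] (.d 298 1290 266 1322 426)
 (.a 1 [266] (.d 426 1322 298 1354 458)
 (.a 0 [298,426] (.q 300 (.a 1 [] (.d 364 1292 268 1324 428)
 (.a 1 [268] (.r 364 1324 428 (.d 365 361 361 362 366))
 (.a 1 [428] (.r 364 1292 268 (.d 365 361 361 362 366))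
 (.a 0 [364] (.q 331 (.a 1 [] (.d 329 328 328 329 333)
 (.a 1 [328] (.d 333 329 329 330 334)
 (.a 1 [329] (.d 269 3310 238 3341 393)
 .e))))
 .e)))))
 .e))))
 .e))))
 (.a 1 [425] (.q 330 (.a 1 [] (.d 297 2312 264 2345 429)
 (.a 1 [264] (.d 429 2345 297 2378 462)
 (.a 0 [297,429] (.q 362 (.a 1 [] (.d 298 1290 266 1322 426)
 (.a 1 [266] (.d 426 1322 298 1354 458)
 (.a 0 [298,426] (.q 428 (.a 1 [] (.d 364 1324 300 1356 460)
 (.a 1 [300] (.r 364 1356 460 (.d 365 361 361 362 366))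
 (.a 1 [460] (.r 364 1324 300 (.d 365 361 361 362 366))
 (.a 0 [364] (.q 395 (.a 1 [] (.d 393 392 392 393 397)
 (.a 1 [392] (.d 461 2377 329 2410 494)
 .e)))
 .e)))))
 .e))))
 .e))))
 .e))))
 (.a 1 [464] (.q 497 (.a 1 [] (.d 301 3342 270 3373 425)
 (.a 1 [301] (.q 330 (.a 1 [] (.d 297 2312 264 2345 429)
 (.a 1 [264] (.d 429 2345 297 2378 462)
 (.a 0 [297,429] (.q 362 (.a 1 [] (.d 298 1290 266 1322 426)
 (.a 1 [266] (.d 426 1322 298 1354 458)
 (.a 0 [298,426] (.q 300 (.a 1 [] (.d 364 1292 268 1324 428)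
 (.a 1 [268] (.r 364 1324 428 (.d 365 361 361 362 366))
 (.a 1 [428] (.r 364 1292 268 (.d 365 361 361 362 366))
 (.a 0 [364] (.q 331 (.a 1 [] (.d 329 328 328 329 333)
 (.a 1 [328] (.d 333 329 329 330 334)
 (.a 1 [329] (.d 269 3310 238 3341 393)
 .e))))
 .e)))))
 .e))))
 .e))))
 (.a 1 [425] (.q 330 (.a 1 [] (.d 297 2312 264 2345 429)
 (.a 1 [264] (.d 429 2345 297 2378 462)
 (.a 0 [297,429] (.q 362 (.a 1 [] (.d 298 1290 266 1322 426)
 (.a 1 [266] (.d 426 1322 298 1354 458)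
 (.a 0 [298,426] (.q 428 (.a 1 [] (.d 364 1324 300 1356 460)
 (.a 1 [300] (.r 364 1356 460 (.d 365 361 361 362 366))
 (.a 1 [460] (.r 364 1324 300 (.d 365 361 361 362 366))
 (.a 0 [364] (.q 395 (.a 1 [] (.d 393 392 392 393 397)
 (.a 1 [392] (.d 461 2377 329 2410 494)
 .e)))
 .e)))))
 .e))))
 .e))))
 .e))))
 (.a 1 [270] (.d 425 3373 301 3404 456)
 .e))))))) (by decide +kernel)

theorem b2_1358 : S (PX [] [398,457,530]) := S.of (.q 332 (.a 1 [] (.d 301 3342 270 3373 425)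
 (.a 1 [270] (.d 425 3373 301 3404 456)
 (.a 0 [301,425] (.q 364 (.a 1 [] (.d 300 1292 268 1324 428)
 (.a 1 [268] (.d 428 1324 300 1356 460)
 (.a 0 [300,428] (.q 429 (.a 1 [] (.d 330 2345 297 2378 462)
 (.a 1 [297] (.d 462 2378 330 2411 495)
 (.a 0 [330,462] (.q 361 (.a 1 [] (.d 362 360 360 361 365)
 (.a 0 [360,362,365] (.q 427 (.a 1 [] (.d 328 2343 295 2376 460)
 (.a 1 [295] (.d 460 2376 328 2409 493)
 (.a 0 [328,460] (.q 395 (.a 1 [] (.d 393 392 392 393 397)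
 (.a 1 [392] (.d 459 1355 331 1387 491)
 .e)))
 .e))))
 .e)))
 .e))))
 .e))))
 .e)))) (by decide +kernel)

theorem b2_1359 : S (PX [431] [299,398,464,530]) := S.of (.q 332 (.a 1 [] (.d 301 3342 270 3373 425)
 (.a 1 [270] (.d 425 3373 301 3404 456)
 (.a 0 [301,425] (.q 429 (.a 1 [] (.d 330 2345 297 2378 462)
 (.a 1 [297] (.d 462 2378 330 2411 495)
 (.a 0 [330,462] (.q 428 (.a 1 [] (.d 430 427 427 428 432)
 (.a 1 [427] (.d 364 1324 300 1356 460)
 .e)))
 .e))))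
 .e)))) (by decide +kernel)

theorem b2_1360 : S (PX [431] [332,398,464,530]) := S.of (.q 330 (.a 1 [] (.d 297 2312 264 2345 429)
 (.a 1 [264] (.d 429 2345 297 2378 462)
 (.a 0 [297,429] (.q 395 (.a 1 [] (.d 393 392 392 393 397)
 (.a 0 [392,393,397] (.q 427 (.a 1 [] (.d 331 1323 299 1355 459)
 (.a 1 [299] (.d 459 1355 331 1387 491)
 (.a 0 [331,459] (.q 365 (.a 1 [] (.d 334 3375 303 3406 458)
 (.a 1 [303] (.d 458 3406 334 3437 489)
 (.a 1 [334] (.r 458 3437 489 (.r 362 1354 426 (.d 364 361 361 362 366)))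
 (.a 0 [458] (.q 362 (.a 1 [] (.d 364 361 361 362 366)
 (.a 1 [361] (.d 298 1290 266 1322 426)
 .e)))
 .e)))))
 .e))))
 .e)))
 .e)))) (by decide +kernel)

theorem b2_1361 : S (PX [431] [365,398,464,530]) := S.of (.q 429 (.a 1 [] (.d 330 2345 297 2378 462)
 (.a 1 [297] (.d 462 2378 330 2411 495)
 (.a 0 [330,462] (.q 332 (.a 1 [] (.d 301 3342 270 3373 425)
 (.a 1 [270] (.d 425 3373 301 3404 456)
 (.a 0 [301,425] (.q 428 (.a 1 [] (.d 430 427 427 428 432)
 (.a 1 [427] (.d 364 1324 300 1356 460)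
 .e)))
 .e))))
 .e)))) (by decide +kernel)

theorem b2_1362 : S (PX [431] [398,400,464,530]) := S.of (.q 429 (.a 1 [] (.d 330 2345 297 2378 462)
 (.a 1 [297] (.d 462 2378 330 2411 495)
 (.a 0 [330,462] (.q 332 (.a 1 [] (.d 301 3342 270 3373 425)
 (.a 1 [270] (.d 425 3373 301 3404 456)
 (.a 0 [301,425] (.q 428 (.a 1 [] (.d 430 427 427 428 432)
 (.a 1 [427] (.d 364 1324 300 1356 460)
 .e)))
 .e))))
 .e)))) (by decide +kernel)

theorem b2_1363 : S (PX [431] [398,457,464,530]) := S.of (.q 429 (.a 1 [] (.d 330 2345 297 2378 462)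
 (.a 1 [297] (.d 462 2378 330 2411 495)
 (.a 0 [330,462] (.q 332 (.a 1 [] (.d 301 3342 270 3373 425)
 (.a 1 [270] (.d 425 3373 301 3404 456)
 (.a 0 [301,425] (.q 428 (.a 1 [] (.d 430 427 427 428 432)
 (.a 1 [427] (.d 364 1324 300 1356 460)
 .e)))
 .e))))
 .e)))) (by decide +kernel)

theorem b2_1385 : S (PX [497] [398,431,464,530]) := S.of (.q 332 (.a 1 [] (.d 301 3342 270 3373 425)
 (.a 1 [270] (.d 425 3373 301 3404 456)
 (.a 0 [301,425] (.q 364 (.a 1 [] (.d 300 1292 268 1324 428)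
 (.a 1 [268] (.d 428 1324 300 1356 460)
 (.a 0 [300,428] (.q 362 (.a 1 [] (.d 361 360 360 361 365)
 (.a 1 [360] (.d 365 361 361 362 366)
 (.a 0 [361,365] (.q 330 (.a 1 [] (.d 298 1290 266 1322 426)
 (.a 1 [266] (.d 426 1322 298 1354 458)
 (.a 1 [298] (.d 297 2312 264 2345 429)
 .e))))
 .e))))
 .e))))
 .e)))) (by decide +kernel)

theorem b2_1502 : S (PX [464] [299,398,497,530]) := S.of (.q 332 (.a 1 [] (.d 301 3342 270 3373 425)
 (.a 1 [270] (.d 425 3373 301 3404 456)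
 (.a 0 [301,425] (.q 330 (.a 1 [] (.d 297 2312 264 2345 429)
 (.a 1 [264] (.d 429 2345 297 2378 462)
 (.a 0 [297] (.q 300 (.a 1 [] (.d 364 1292 268 1324 428)
 (.a 0 [268,364,428] (.q 331 (.a 1 [] (.d 329 328 328 329 333)
 (.a 1 [328] (.d 333 329 329 330 334)
 (.a 0 [329,333] (.q 393 (.a 1 [] (.d 395 392 392 393 397)
 (.a 1 [392] (.d 362 3341 269 3372 424)
 .e)))
 .e))))
 .e)))
 (.a 0 [429] (.q 362 (.a 1 [] (.d 298 1290 266 1322 426)
 (.a 1 [266] (.d 426 1322 298 1354 458)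
 (.a 0 [298] (.q 300 (.a 1 [] (.d 364 1292 268 1324 428)
 (.a 1 [268] (.r 364 1324 428 (.d 365 361 361 362 366))
 (.a 1 [428] (.r 364 1292 268 (.d 365 361 361 362 366))
 (.a 0 [364] (.q 331 (.a 1 [] (.d 329 328 328 329 333)
 (.a 1 [328] (.d 333 329 329 330 334)
 (.a 1 [329] (.d 269 3310 238 3341 393)
 .e))))
 .e)))))
 (.a 0 [426] (.q 428 (.a 1 [] (.d 364 1324 300 1356 460)
 (.a 1 [300] (.r 364 1356 460 (.d 365 361 361 362 366))
 (.a 1 [460] (.r 364 1324 300 (.d 365 361 361 362 366))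
 (.a 0 [364] (.q 395 (.a 1 [] (.d 393 392 392 393 397)
 (.a 1 [392] (.d 461 2377 329 2410 494)
 .e)))
 .e)))))
 .e)))))
 .e)))))
 .e)))) (by decide +kernel)

theorem b2_1503 : S (PX [464] [332,398,497,530]) := S.of (.q 330 (.a 1 [] (.d 297 2312 264 2345 429)
 (.a 1 [264] (.d 429 2345 297 2378 462)
 (.a 0 [297,429] (.q 395 (.a 1 [] (.d 393 392 392 393 397)
 (.a 0 [392,393,397] (.q 427 (.a 1 [] (.d 331 1323 299 1355 459)
 (.a 1 [299] (.d 459 1355 331 1387 491)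
 (.a 0 [331,459] (.q 365 (.a 1 [] (.d 334 3375 303 3406 458)
 (.a 1 [303] (.d 458 3406 334 3437 489)
 (.a 1 [334] (.r 458 3437 489 (.r 362 1354 426 (.d 364 361 361 362 366)))
 (.a 0 [458] (.q 362 (.a 1 [] (.d 364 361 361 362 366)
 (.a 1 [361] (.d 298 1290 266 1322 426)
 .e)))
 .e)))))
 .e))))
 .e)))
 .e)))) (by decide +kernel)

theorem b2_1504 : S (PX [464] [365,398,497,530]) := S.of (.q 429 (.a 1 [] (.d 330 2345 297 2378 462)
 (.a 1 [297] (.d 462 2378 330 2411 495)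
 (.a 0 [330,462] (.q 395 (.a 1 [] (.d 393 392 392 393 397)
 (.a 0 [392,393,397] (.q 427 (.a 1 [] (.d 331 1323 299 1355 459)
 (.a 1 [299] (.d 459 1355 331 1387 491)
 (.a 0 [331,459] (.q 332 (.a 1 [] (.d 301 3342 270 3373 425)
 (.a 1 [270] (.d 425 3373 301 3404 456)
 (.a 1 [301] (.r 425 3404 456 (.r 428 425 426 (.d 364 1324 300 1356 460)))
 (.a 0 [425] (.q 428 (.a 1 [] (.d 430 426 426 427 431)
 (.a 1 [426] (.d 364 1324 300 1356 460)
 .e)))
 .e)))))
 .e))))
 .e)))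
 .e)))) (by decide +kernel)

theorem b2_1505 : S (PX [464] [398,400,497,530]) := S.of (.q 332 (.a 1 [] (.d 301 3342 270 3373 425)
 (.a 1 [270] (.d 425 3373 301 3404 456)
 (.a 0 [301,425] (.q 364 (.a 1 [] (.d 300 1292 268 1324 428)
 (.a 1 [268] (.d 428 1324 300 1356 460)
 (.a 0 [300,428] (.q 362 (.a 1 [] (.d 361 360 360 361 365)
 (.a 1 [360] (.d 365 361 361 362 366)
 (.a 0 [361,365] (.q 330 (.a 1 [] (.d 298 1290 266 1322 426)
 (.a 1 [266] (.d 426 1322 298 1354 458)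
 (.a 1 [298] (.d 297 2312 264 2345 429)
 .e))))
 .e))))
 .e))))
 .e)))) (by decide +kernel)

theorem b2_1506 : S (PX [464] [398,457,497,530]) := S.of (.q 332 (.a 1 [] (.d 301 3342 270 3373 425)
 (.a 1 [270] (.d 425 3373 301 3404 456)
 (.a 0 [301,425] (.q 364 (.a 1 [] (.d 300 1292 268 1324 428)
 (.a 1 [268] (.d 428 1324 300 1356 460)
 (.a 0 [300,428] (.q 429 (.a 1 [] (.d 330 2345 297 2378 462)
 (.a 1 [297] (.d 462 2378 330 2411 495)
 (.a 0 [330,462] (.q 361 (.a 1 [] (.d 362 360 360 361 365)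
 (.a 0 [360,362,365] (.q 427 (.a 1 [] (.d 328 2343 295 2376 460)
 (.a 1 [295] (.d 460 2376 328 2409 493)
 (.a 0 [328,460] (.q 395 (.a 1 [] (.d 393 392 392 393 397)
 (.a 1 [392] (.d 459 1355 331 1387 491)
 .e)))
 .e))))
 .e)))
 .e))))
 .e))))
 .e)))) (by decide +kernel)

theorem b2_1507 : S (PX [] [332,431,530]) := S.of (.q 395 (.a 1 [] (.d 393 392 392 393 397)
 (.a 1 [392] (.d 397 393 393 394 398)
 (.a 0 [393,397] (.q 427 (.a 1 [] (.d 331 1323 299 1355 459)
 (.a 1 [299] (.d 459 1355 331 1387 491)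
 (.a 0 [331,459] (.q 330 (.a 1 [] (.d 297 2312 264 2345 429)
 (.a 1 [264] (.d 429 2345 297 2378 462)
 (.a 0 [297,429] (.q 365 (.a 1 [] (.d 334 3375 303 3406 458)
 (.a 1 [303] (.d 458 3406 334 3437 489)
 (.a 1 [334] (.r 458 3437 489 (.r 362 1354 426 (.d 364 361 361 362 366)))
 (.a 0 [458] (.q 362 (.a 1 [] (.d 364 361 361 362 366)
 (.a 1 [361] (.d 298 1290 266 1322 426)
 .e)))
 .e)))))
 .e))))
 .e))))
 .e)))) (by decide +kernel)

theorem b2_1508 : S (PX [] [365,431,530]) := S.of (.q 395 (.a 1 [] (.d 393 392 392 393 397)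
 (.a 1 [392] (.d 397 393 393 394 398)
 (.a 0 [393,397] (.q 331 (.a 1 [] (.d 299 1291 267 1323 427)
 (.a 1 [267] (.d 427 1323 299 1355 459)
 (.a 0 [299,427] (.q 332 (.a 1 [] (.d 301 3342 270 3373 425)
 (.a 1 [270] (.d 425 3373 301 3404 456)
 (.a 0 [301,425] (.q 333 (.a 1 [] (.d 330 329 329 330 334)
 (.a 1 [329] (.d 334 330 330 331 335)
 (.a 1 [334] (.r 330 329 329 (.d 429 2345 297 2378 462))
 (.a 0 [330] (.q 364 (.a 1 [] (.d 300 1292 268 1324 428)
 (.a 1 [268] (.d 428 1324 300 1356 460)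
 (.a 1 [300] (.d 302 3343 271 3374 426)
 .e))))
 .e)))))
 .e))))
 .e))))
 .e)))) (by decide +kernel)

theorem b2_1509 : S (PX [] [397,431,530]) := S.of (.q 332 (.a 1 [] (.d 301 3342 270 3373 425)
 (.a 1 [270] (.d 425 3373 301 3404 456)
 (.a 0 [301,425] (.q 330 (.a 1 [] (.d 297 2312 264 2345 429)
 (.a 1 [264] (.d 429 2345 297 2378 462)
 (.a 0 [297] (.q 362 (.a 1 [] (.d 298 1290 266 1322 426)
 (.a 1 [266] (.d 426 1322 298 1354 458)
 (.a 0 [298,426] (.q 300 (.a 1 [] (.d 364 1292 268 1324 428)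
 (.a 1 [268] (.r 364 1324 428 (.d 365 361 361 362 366))
 (.a 1 [428] (.r 364 1292 268 (.d 365 361 361 362 366))
 (.a 0 [364] (.q 331 (.a 1 [] (.d 329 328 328 329 333)
 (.a 1 [328] (.d 333 329 329 330 334)
 (.a 1 [329] (.d 269 3310 238 3341 393)
 .e))))
 .e)))))
 .e))))
 (.a 0 [429] (.q 333 (.a 1 [] (.d 331 329 329 330 334)
 (.a 0 [329,331,334] (.q 426 (.a 1 [] (.d 362 1322 298 1354 458)
 (.a 0 [298,362,458] (.q 364 (.a 1 [] (.d 300 1292 268 1324 428)
 (.a 1 [268] (.d 428 1324 300 1356 460)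
 (.a 1 [300] (.d 395 3374 302 3405 457)
 .e))))
 .e)))
 .e)))
 .e)))))
 .e)))) (by decide +kernel)

theorem b2_1510 : S (PX [] [424,431,530]) := S.of (.q 330 (.a 1 [] (.d 297 2312 264 2345 429)
 (.a 1 [264] (.d 429 2345 297 2378 462)
 (.a 0 [297,429] (.q 362 (.a 1 [] (.d 298 1290 266 1322 426)
 (.a 1 [266] (.d 426 1322 298 1354 458)
 (.a 0 [298,426] (.q 361 (.a 1 [] (.d 360 359 359 360 364)
 (.a 1 [359] (.d 364 360 360 361 365)
 (.a 0 [360,364] (.q 427 (.a 1 [] (.d 328 2343 295 2376 460)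
 (.a 1 [295] (.d 460 2376 328 2409 493)
 (.a 0 [328,460] (.q 392 (.a 1 [] (.d 299 3340 268 3371 423)
 (.a 1 [268] (.d 423 3371 299 3402 454)
 (.a 1 [299] (.r 395 392 393 (.d 459 1355 331 1387 491))
 .e))))
 .e))))
 .e))))
 .e))))
 .e)))) (by decide +kernel)

theorem b2_1511 : S (PX [] [427,431,530]) := S.of (.q 429 (.a 1 [] (.d 330 2345 297 2378 462)
 (.a 1 [297] (.d 462 2378 330 2411 495)
 (.a 0 [330,462] (.q 332 (.a 1 [] (.d 301 3342 270 3373 425)
 (.a 1 [270] (.d 425 3373 301 3404 456)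
 (.a 0 [301] (.q 364 (.a 1 [] (.d 300 1292 268 1324 428)
 (.a 1 [268] (.d 428 1324 300 1356 460)
 (.a 0 [300,428] (.q 365 (.a 1 [] (.d 362 361 361 362 366)
 (.a 1 [361] (.d 366 362 362 363 367)
 (.a 0 [362,366] (.q 397 (.a 1 [] (.d 395 393 393 394 398)
 (.a 1 [393] (.d 461 1357 333 1389 493)
 .e)))
 .e))))
 .e))))
 (.a 0 [425] (.r 301 3342 270 (.q 395 (.a 1 [] (.d 393 392 392 393 397)
 (.a 1 [392] (.d 397 393 393 394 398)
 (.a 0 [393,397] (.q 364 (.a 1 [] (.d 300 1292 268 1324 428)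
 (.a 1 [268] (.d 428 1324 300 1356 460)
 (.a 0 [300] (.q 362 (.a 1 [] (.d 361 360 360 361 365)
 (.a 1 [360] (.d 365 361 361 362 366)
 (.a 1 [361] (.r 428 1356 460 (.d 461 2377 329 2410 494))
 .e))))
 (.a 0 [428] (.r 300 1292 268 (.q 426 (.a 1 [] (.d 333 3374 302 3405 457)
 (.a 1 [302] (.d 457 3405 333 3436 488)
 (.a 1 [457] (.r 302 3374 333 (.d 303 299 299 300 304))
 (.a 0 [333] (.q 299 (.a 1 [] (.d 298 297 297 298 302)
 (.a 1 [297] (.d 302 298 298 299 303)
 (.a 0 [298,302] (.q 365 (.a 1 [] (.d 362 361 361 362 366)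
 (.a 1 [361] (.d 366 362 362 363 367)
 (.a 1 [362] (.d 266 2281 233 2314 398)
 .e))))
 .e))))
 .e))))))
 .e)))))
 .e)))))
 .e)))))
 .e)))) (by decide +kernel)

theorem b2_1512 : S (PX [] [428,431,530]) := S.of (.q 425 (.a 1 [] (.d 332 3373 301 3404 456)
 (.a 1 [301] (.d 456 3404 332 3435 487)
 (.a 0 [332,456] (.q 393 (.a 1 [] (.d 395 392 392 393 397)
 (.a 0 [392,395,397] (.q 361 (.a 1 [] (.d 329 1321 297 1353 457)
 (.a 1 [297] (.d 457 1353 329 1385 489)
 (.a 1 [457] (.r 297 1321 329 (.d 330 2312 264 2345 429))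
 (.a 0 [329] (.r 489 1385 457 (.q 362 (.a 1 [] (.d 360 359 359 360 364)
 (.a 1 [359] (.d 364 360 360 361 365)
 (.a 1 [360] (.r 365 361 364 (.r 427 3437 458 (.d 328 2343 295 2376 460)))
 (.a 0 [364] (.q 426 (.a 1 [] (.d 330 1322 298 1354 458)
 (.a 1 [298] (.d 458 1354 330 1386 490)
 (.a 1 [330] (.r 360 359 359 (.d 459 2375 327 2408 492))
 .e))))
 .e))))))
 .e)))))
 .e)))
 .e)))) (by decide +kernel)

theorem b2_1513 : S (PX [497] [231,431,464,530]) := S.of (.q 332 (.a 1 [] (.d 301 3342 270 3373 425)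
 (.a 1 [270] (.d 425 3373 301 3404 456)
 (.a 0 [301,425] (.q 395 (.a 1 [] (.d 393 392 392 393 397)
 (.a 1 [392] (.d 397 393 393 394 398)
 (.a 0 [393,397] (.q 427 (.a 1 [] (.d 331 1323 299 1355 459)
 (.a 1 [299] (.d 459 1355 331 1387 491)
 (.a 0 [331,459] (.q 365 (.a 1 [] (.d 334 3375 303 3406 458)
 (.a 1 [303] (.d 458 3406 334 3437 489)
 (.a 0 [334,458] (.q 364 (.a 1 [] (.d 362 361 361 362 366)
 (.a 1 [361] (.d 366 362 362 363 367)
 (.a 1 [362] (.d 300 1292 268 1324 428)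
 .e))))
 .e))))
 .e))))
 .e))))
 .e)))) (by decide +kernel)

theorem b2_1514 : S (PX [497] [264,431,464,530]) := S.of (.q 332 (.a 1 [] (.d 301 3342 270 3373 425)
 (.a 1 [270] (.d 425 3373 301 3404 456)
 (.a 0 [301,425] (.q 395 (.a 1 [] (.d 393 392 392 393 397)
 (.a 1 [392] (.d 397 393 393 394 398)
 (.a 0 [393,397] (.q 427 (.a 1 [] (.d 331 1323 299 1355 459)
 (.a 1 [299] (.d 459 1355 331 1387 491)
 (.a 0 [331,459] (.q 365 (.a 1 [] (.d 334 3375 303 3406 458)
 (.a 1 [303] (.d 458 3406 334 3437 489)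
 (.a 0 [334,458] (.q 364 (.a 1 [] (.d 362 361 361 362 366)
 (.a 1 [361] (.d 366 362 362 363 367)
 (.a 1 [362] (.d 300 1292 268 1324 428)
 .e))))
 .e))))
 .e))))
 .e))))
 .e)))) (by decide +kernel)

theorem b2_1515 : S (PX [497] [265,431,464,530]) := S.of (.q 332 (.a 1 [] (.d 301 3342 270 3373 425)
 (.a 1 [270] (.d 425 3373 301 3404 456)
 (.a 0 [301,425] (.q 364 (.a 1 [] (.d 300 1292 268 1324 428)
 (.a 1 [268] (.d 428 1324 300 1356 460)
 (.a 0 [300,428] (.q 365 (.a 1 [] (.d 362 361 361 362 366)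
 (.a 1 [361] (.d 366 362 362 363 367)
 (.a 0 [362,366] (.q 427 (.a 1 [] (.d 334 3375 303 3406 458)
 (.a 1 [303] (.d 458 3406 334 3437 489)
 (.a 0 [334,458] (.q 395 (.a 1 [] (.d 393 392 392 393 397)
 (.a 1 [392] (.d 397 393 393 394 398)
 (.a 1 [393] (.d 331 1323 299 1355 459)
 .e))))
 .e))))
 .e))))
 .e))))
 .e)))) (by decide +kernel)

theorem b2_1516 : S (PX [497] [269,431,464,530]) := S.of (.q 395 (.a 1 [] (.d 393 392 392 393 397)
 (.a 1 [392] (.d 397 393 393 394 398)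
 (.a 0 [393,397] (.q 331 (.a 1 [] (.d 299 1291 267 1323 427)
 (.a 1 [267] (.d 427 1323 299 1355 459)
 (.a 0 [299,427] (.q 332 (.a 1 [] (.d 301 3342 270 3373 425)
 (.a 1 [270] (.d 425 3373 301 3404 456)
 (.a 0 [301,425] (.q 333 (.a 1 [] (.d 330 329 329 330 334)
 (.a 1 [329] (.d 334 330 330 331 335)
 (.a 1 [334] (.r 330 329 329 (.d 429 2345 297 2378 462))
 (.a 0 [330] (.q 364 (.a 1 [] (.d 300 1292 268 1324 428)
 (.a 1 [268] (.d 428 1324 300 1356 460)
 (.a 1 [300] (.d 302 3343 271 3374 426)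
 .e))))
 .e)))))
 .e))))
 .e))))
 .e)))) (by decide +kernel)

theorem b2_1517 : S (PX [497] [297,431,464,530]) := S.of (.q 395 (.a 1 [] (.d 393 392 392 393 397)
 (.a 1 [392] (.d 397 393 393 394 398)
 (.a 0 [393,397] (.q 427 (.a 1 [] (.d 331 1323 299 1355 459)
 (.a 1 [299] (.d 459 1355 331 1387 491)
 (.a 0 [331,459] (.q 361 (.a 1 [] (.d 328 2343 295 2376 460)
 (.a 1 [295] (.d 460 2376 328 2409 493)
 (.a 0 [328,460] (.q 332 (.a 1 [] (.d 301 3342 270 3373 425)
 (.a 1 [270] (.d 425 3373 301 3404 456)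
 (.a 0 [301,425] (.q 364 (.a 1 [] (.d 362 360 360 361 365)
 (.a 1 [360] (.d 300 1292 268 1324 428)
 .e)))
 .e))))
 .e))))
 .e))))
 .e)))) (by decide +kernel)

theorem b2_1518 : S (PX [497] [299,431,464,530]) := S.of (.q 332 (.a 1 [] (.d 301 3342 270 3373 425)
 (.a 1 [270] (.d 425 3373 301 3404 456)
 (.a 0 [301,425] (.q 395 (.a 1 [] (.d 393 392 392 393 397)
 (.a 1 [392] (.d 397 393 393 394 398)
 (.a 0 [393,397] (.q 427 (.a 1 [] (.d 459 1355 331 1387 491)
 (.a 0 [331,459,491] (.q 361 (.a 1 [] (.d 328 2343 295 2376 460)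
 (.a 1 [295] (.d 460 2376 328 2409 493)
 (.a 1 [328] (.r 460 2409 493 (.r 364 1356 428 (.d 362 360 360 361 365)))
 (.a 0 [460] (.q 364 (.a 1 [] (.d 362 360 360 361 365)
 (.a 1 [360] (.d 300 1292 268 1324 428)
 .e)))
 .e)))))
 .e)))
 .e))))
 .e)))) (by decide +kernel)

theorem b2_1519 : S (PX [497] [300,431,464,530]) := S.of (.q 429 (.a 1 [] (.d 330 2345 297 2378 462)
 (.a 1 [297] (.d 462 2378 330 2411 495)
 (.a 0 [330,462] (.q 397 (.a 1 [] (.d 395 393 393 394 398)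
 (.a 0 [393,395,398] (.q 365 (.a 1 [] (.d 333 1325 301 1357 461)
 (.a 1 [301] (.d 461 1357 333 1389 493)
 (.a 1 [461] (.r 301 1325 333 (.d 332 3342 270 3373 425))
 (.a 0 [333] (.q 427 (.a 1 [] (.d 334 3375 303 3406 458)
 (.a 1 [303] (.d 458 3406 334 3437 489)
 (.a 1 [334] (.r 493 1389 461 (.d 460 2409 361 2442 526))
 .e))))
 .e)))))
 .e)))
 .e)))) (by decide +kernel)

theorem b2_1520 : S (PX [497] [303,431,464,530]) := S.of (.q 332 (.a 1 [] (.d 301 3342 270 3373 425)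
 (.a 1 [270] (.d 425 3373 301 3404 456)
 (.a 0 [301,425] (.q 395 (.a 1 [] (.d 393 392 392 393 397)
 (.a 1 [392] (.d 397 393 393 394 398)
 (.a 0 [393,397] (.q 427 (.a 1 [] (.d 331 1323 299 1355 459)
 (.a 1 [299] (.d 459 1355 331 1387 491)
 (.a 0 [331,459] (.q 361 (.a 1 [] (.d 328 2343 295 2376 460)
 (.a 1 [295] (.d 460 2376 328 2409 493)
 (.a 1 [328] (.r 460 2409 493 (.r 364 1356 428 (.d 362 360 360 361 365)))
 (.a 0 [460] (.q 364 (.a 1 [] (.d 362 360 360 361 365)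
 (.a 1 [360] (.d 300 1292 268 1324 428)
 .e)))
 .e)))))
 .e))))
 .e))))
 .e)))) (by decide +kernel)

theorem b2_1521 : S (PX [497] [326,431,464,530]) := S.of (.q 332 (.a 1 [] (.d 301 3342 270 3373 425)
 (.a 1 [270] (.d 425 3373 301 3404 456)
 (.a 0 [301,425] (.q 395 (.a 1 [] (.d 393 392 392 393 397)
 (.a 1 [392] (.d 397 393 393 394 398)
 (.a 0 [393,397] (.q 427 (.a 1 [] (.d 331 1323 299 1355 459)
 (.a 1 [299] (.d 459 1355 331 1387 491)
 (.a 0 [331,459] (.q 361 (.a 1 [] (.d 328 2343 295 2376 460)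
 (.a 1 [295] (.d 460 2376 328 2409 493)
 (.a 1 [328] (.r 460 2409 493 (.r 364 1356 428 (.d 362 360 360 361 365)))
 (.a 0 [460] (.q 364 (.a 1 [] (.d 362 360 360 361 365)
 (.a 1 [360] (.d 300 1292 268 1324 428)
 .e)))
 .e)))))
 .e))))
 .e))))
 .e)))) (by decide +kernel)

theorem b2_1522 : S (PX [497] [331,431,464,530]) := S.of (.q 332 (.a 1 [] (.d 301 3342 270 3373 425)
 (.a 1 [270] (.d 425 3373 301 3404 456)
 (.a 0 [301,425] (.q 364 (.a 1 [] (.d 300 1292 268 1324 428)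
 (.a 1 [268] (.d 428 1324 300 1356 460)
 (.a 0 [300,428] (.q 362 (.a 1 [] (.d 361 360 360 361 365)
 (.a 1 [360] (.d 365 361 361 362 366)
 (.a 0 [361,365] (.q 330 (.a 1 [] (.d 298 1290 266 1322 426)
 (.a 1 [266] (.d 426 1322 298 1354 458)
 (.a 1 [298] (.d 297 2312 264 2345 429)
 .e))))
 .e))))
 .e))))
 .e)))) (by decide +kernel)

theorem b2_1547 : S (PX [497] [332,431,464,530]) := S.of (.q 395 (.a 1 [] (.d 393 392 392 393 397)
 (.a 0 [397] (.q 427 (.a 1 [] (.d 331 1323 299 1355 459)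
 (.a 1 [365] (.q 398 (.a 1 [] (.d 459 1355 331 1387 491)
 (.a 1 [331] (.q 429 (.a 1 [] (.d 330 2345 297 2378 462)
 (.a 1 [297] (.d 462 2378 330 2411 495)
 (.a 1 [330] (.r 491 1387 459 (.d 460 3439 367 3470 522))
 .e))))
 (.a 1 [459] (.q 429 (.a 1 [] (.d 330 2345 297 2378 462)
 (.a 1 [297] (.d 462 2378 330 2411 495)
 (.a 0 [330,462] (.q 460 (.a 1 [] (.d 361 2376 328 2409 493)
 (.a 1 [328] (.d 493 2409 361 2442 526)
 (.a 1 [361] (.d 367 3408 336 3439 491)
 .e))))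
 .e))))
 (.a 1 [491] (.d 331 1323 299 1355 459)
 .e)))))
 (.a 1 [331] (.q 365 (.a 1 [] (.d 334 3375 303 3406 458)
 (.a 1 [303] (.d 458 3406 334 3437 489)
 (.a 0 [334] (.r 458 3437 489 (.r 491 1387 459 (.r 392 392 393 (.d 425 2407 359 2440 524))))
 (.a 0 [458] (.q 364 (.a 1 [] (.d 362 361 361 362 366)
 (.a 1 [361] (.d 366 362 362 363 367)
 (.a 1 [366] (.r 361 361 362 (.d 460 2376 328 2409 493))
 (.a 0 [362] (.q 460 (.a 1 [] (.d 361 2376 328 2409 493)
 (.a 1 [328] (.d 493 2409 361 2442 526)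
 (.a 0 [361,493] (.q 429 (.a 1 [] (.d 330 2345 297 2378 462)
 (.a 1 [297] (.d 462 2378 330 2411 495)
 (.a 1 [330] (.r 491 1387 459 (.d 367 363 366 3439 398))
 .e))))
 .e))))
 .e)))))
 .e)))))
 (.a 1 [459] (.q 365 (.a 1 [] (.d 334 3375 303 3406 458)
 (.a 1 [303] (.d 458 3406 334 3437 489)
 (.a 0 [334,458] (.q 460 (.a 1 [] (.d 361 2376 328 2409 493)
 (.a 1 [328] (.d 493 2409 361 2442 526)
 (.a 0 [361,493] (.q 428 (.a 1 [] (.d 492 1388 364 1420 524)
 (.a 1 [524] (.r 364 1388 492 (.d 366 362 362 363 367))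
 (.a 0 [364,492] (.q 429 (.a 1 [] (.d 426 425 425 426 430)
 (.a 1 [425] (.d 462 2378 330 2411 495)
 .e)))
 .e))))
 .e))))
 .e))))
 .e)))))
 (.a 1 [398] (.q 365 (.a 1 [] (.d 393 392 392 393 397)
 (.a 1 [393] (.q 427 (.a 1 [] (.d 331 1323 299 1355 459)
 (.a 1 [299] (.d 459 1355 331 1387 491)
 (.a 1 [331] (.d 334 3375 303 3406 458)
 .e))))
 .e)))
 (.a 1 [392] (.d 397 393 393 394 398)
 (.a 1 [365] (.r 398 394 397 (.q 429 (.a 1 [] (.d 330 2345 297 2378 462)
 (.a 1 [297] (.d 462 2378 330 2411 495)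
 (.a 0 [330,462] (.q 460 (.a 1 [] (.d 367 3408 336 3439 491)
 (.a 1 [336] (.d 491 3439 367 3470 522)
 (.a 1 [367] (.r 491 3470 522 (.r 427 1387 459 (.d 493 2409 361 2442 526)))
 (.a 0 [491] (.q 427 (.a 1 [] (.d 331 1323 299 1355 459)
 (.a 1 [299] (.d 493 2409 361 2442 526)
 .e)))
 .e)))))
 .e)))))
 .e)))))) (by decide +kernel)

theorem b2_1548 : S (PX [497] [335,431,464,530]) := S.of (.q 332 (.a 1 [] (.d 301 3342 270 3373 425)
 (.a 1 [270] (.d 425 3373 301 3404 456)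
 (.a 0 [301,425] (.q 395 (.a 1 [] (.d 393 392 392 393 397)
 (.a 1 [392] (.d 397 393 393 394 398)
 (.a 0 [393,397] (.q 331 (.a 1 [] (.d 299 1291 267 1323 427)
 (.a 1 [267] (.d 427 1323 299 1355 459)
 (.a 0 [299,427] (.q 330 (.a 1 [] (.d 329 328 328 329 333)
 (.a 1 [328] (.d 333 329 329 330 334)
 (.a 1 [329] (.d 297 2312 264 2345 429)
 .e))))
 .e))))
 .e))))
 .e)))) (by decide +kernel)

theorem b2_1549 : S (PX [497] [359,431,464,530]) := S.of (.q 332 (.a 1 [] (.d 301 3342 270 3373 425)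
 (.a 1 [270] (.d 425 3373 301 3404 456)
 (.a 0 [301,425] (.q 395 (.a 1 [] (.d 393 392 392 393 397)
 (.a 1 [392] (.d 397 393 393 394 398)
 (.a 0 [393,397] (.q 427 (.a 1 [] (.d 331 1323 299 1355 459)
 (.a 1 [299] (.d 459 1355 331 1387 491)
 (.a 0 [331,459] (.q 361 (.a 1 [] (.d 328 2343 295 2376 460)
 (.a 1 [295] (.d 460 2376 328 2409 493)
 (.a 1 [328] (.r 460 2409 493 (.r 364 1356 428 (.d 362 360 360 361 365)))
 (.a 0 [460] (.q 364 (.a 1 [] (.d 362 360 360 361 365)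
 (.a 1 [360] (.d 300 1292 268 1324 428)
 .e)))
 .e)))))
 .e))))
 .e))))
 .e)))) (by decide +kernel)

theorem b2_1550 : S (PX [497] [361,431,464,530]) := S.of (.q 332 (.a 1 [] (.d 301 3342 270 3373 425)
 (.a 1 [270] (.d 425 3373 301 3404 456)
 (.a 0 [301,425] (.q 364 (.a 1 [] (.d 300 1292 268 1324 428)
 (.a 1 [268] (.d 428 1324 300 1356 460)
 (.a 0 [300,428] (.q 429 (.a 1 [] (.d 330 2345 297 2378 462)
 (.a 1 [297] (.d 462 2378 330 2411 495)
 (.a 0 [330,462] (.q 365 (.a 1 [] (.d 366 362 362 363 367)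
 (.a 0 [362,366,367] (.q 397 (.a 1 [] (.d 395 393 393 394 398)
 (.a 1 [393] (.d 461 1357 333 1389 493)
 .e)))
 .e)))
 .e))))
 .e))))
 .e)))) (by decide +kernel)

theorem b2_1551 : S (PX [497] [365,431,464,530]) := S.of (.q 332 (.a 1 [] (.d 301 3342 270 3373 425)
 (.a 1 [270] (.d 425 3373 301 3404 456)
 (.a 0 [301,425] (.q 330 (.a 1 [] (.d 297 2312 264 2345 429)
 (.a 1 [264] (.d 429 2345 297 2378 462)
 (.a 0 [297] (.q 395 (.a 1 [] (.d 393 392 392 393 397)
 (.a 1 [392] (.d 397 393 393 394 398)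
 (.a 0 [393] (.q 329 (.a 1 [] (.d 331 328 328 329 333)
 (.a 1 [328] (.r 331 329 333 (.d 427 1323 299 1355 459))
 (.a 1 [333] (.r 331 328 328 (.d 427 1323 299 1355 459))
 (.a 0 [331] (.q 362 (.a 1 [] (.d 298 1290 266 1322 426)
 (.a 1 [266] (.d 426 1322 298 1354 458)
 (.a 1 [298] (.d 296 2311 263 2344 428)
 .e))))
 .e)))))
 (.a 0 [397] (.q 333 (.a 1 [] (.d 331 329 329 330 334)
 (.a 1 [329] (.r 331 330 334 (.d 427 1323 299 1355 459))
 (.a 1 [334] (.r 331 329 329 (.d 427 1323 299 1355 459))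
 (.a 0 [331] (.q 364 (.a 1 [] (.d 300 1292 268 1324 428)
 (.a 1 [268] (.d 428 1324 300 1356 460)
 (.a 1 [300] (.d 302 3343 271 3374 426)
 .e))))
 .e)))))
 .e)))))
 (.a 0 [429] (.q 333 (.a 1 [] (.d 331 329 329 330 334)
 (.a 0 [329,331,334] (.q 426 (.a 1 [] (.d 362 1322 298 1354 458)
 (.a 0 [298,362,458] (.q 395 (.a 1 [] (.d 393 392 392 393 397)
 (.a 1 [392] (.d 397 393 393 394 398)
 (.a 1 [393] (.d 364 3374 302 3405 457)
 .e))))
 .e)))
 .e)))
 .e)))))
 .e)))) (by decide +kernel)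

theorem b2_1552 : S (PX [497] [366,431,464,530]) := S.of (.q 332 (.a 1 [] (.d 301 3342 270 3373 425)
 (.a 1 [270] (.d 425 3373 301 3404 456)
 (.a 0 [301,425] (.q 395 (.a 1 [] (.d 393 392 392 393 397)
 (.a 1 [392] (.d 397 393 393 394 398)
 (.a 0 [393,397] (.q 331 (.a 1 [] (.d 299 1291 267 1323 427)
 (.a 1 [267] (.d 427 1323 299 1355 459)
 (.a 0 [299,427] (.q 330 (.a 1 [] (.d 329 328 328 329 333)
 (.a 1 [328] (.d 333 329 329 330 334)
 (.a 1 [329] (.d 297 2312 264 2345 429)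
 .e))))
 .e))))
 .e))))
 .e)))) (by decide +kernel)

theorem b2_1553 : S (PX [497] [392,431,464,530]) := S.of (.q 332 (.a 1 [] (.d 301 3342 270 3373 425)
 (.a 1 [270] (.d 425 3373 301 3404 456)
 (.a 0 [301,425] (.q 364 (.a 1 [] (.d 300 1292 268 1324 428)
 (.a 1 [268] (.d 428 1324 300 1356 460)
 (.a 0 [300,428] (.q 365 (.a 1 [] (.d 362 361 361 362 366)
 (.a 1 [361] (.d 366 362 362 363 367)
 (.a 0 [362,366] (.q 429 (.a 1 [] (.d 330 2345 297 2378 462)
 (.a 1 [297] (.d 462 2378 330 2411 495)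
 (.a 0 [330,462] (.q 397 (.a 1 [] (.d 395 393 393 394 398)
 (.a 1 [393] (.d 461 1357 333 1389 493)
 .e)))
 .e))))
 .e))))
 .e))))
 .e)))) (by decide +kernel)

theorem b2_1554 : S (PX [497] [393,431,464,530]) := S.of (.q 332 (.a 1 [] (.d 301 3342 270 3373 425)
 (.a 1 [270] (.d 425 3373 301 3404 456)
 (.a 0 [301,425] (.q 364 (.a 1 [] (.d 300 1292 268 1324 428)
 (.a 1 [268] (.d 428 1324 300 1356 460)
 (.a 0 [300] (.q 361 (.a 1 [] (.d 362 360 360 361 365)
 (.a 1 [360] (.r 460 1356 428 (.d 427 2376 328 2409 493))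
 .e)))
 (.a 0 [428] (.q 365 (.a 1 [] (.d 362 361 361 362 366)
 (.a 1 [361] (.d 366 362 362 363 367)
 (.a 0 [362,366] (.q 427 (.a 1 [] (.d 334 3375 303 3406 458)
 (.a 1 [303] (.d 458 3406 334 3437 489)
 (.a 0 [334,458] (.q 361 (.a 1 [] (.d 328 2343 295 2376 460)
 (.a 1 [295] (.d 460 2376 328 2409 493)
 (.a 0 [328,460] (.q 330 (.a 1 [] (.d 297 2312 264 2345 429)
 (.a 1 [264] (.d 429 2345 297 2378 462)
 (.a 1 [297] (.r 268 1292 300 (.d 299 3309 237 3340 392))
 .e))))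
 .e))))
 .e))))
 .e))))
 .e)))))
 .e)))) (by decide +kernel)

theorem b2_1555 : S (PX [497] [395,431,464,530]) := S.of (.q 332 (.a 1 [] (.d 301 3342 270 3373 425)
 (.a 1 [270] (.d 425 3373 301 3404 456)
 (.a 0 [301,425] (.q 364 (.a 1 [] (.d 300 1292 268 1324 428)
 (.a 1 [268] (.d 428 1324 300 1356 460)
 (.a 0 [300,428] (.q 362 (.a 1 [] (.d 361 360 360 361 365)
 (.a 1 [360] (.d 365 361 361 362 366)
 (.a 0 [361,365] (.q 330 (.a 1 [] (.d 298 1290 266 1322 426)
 (.a 1 [266] (.d 426 1322 298 1354 458)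
 (.a 1 [298] (.d 297 2312 264 2345 429)
 .e))))
 .e))))
 .e))))
 .e)))) (by decide +kernel)

theorem b2_1556 : S (PX [497] [397,431,464,530]) := S.of (.q 332 (.a 1 [] (.d 301 3342 270 3373 425)
 (.a 1 [270] (.d 425 3373 301 3404 456)
 (.a 0 [301,425] (.q 330 (.a 1 [] (.d 297 2312 264 2345 429)
 (.a 1 [264] (.d 429 2345 297 2378 462)
 (.a 0 [297] (.q 362 (.a 1 [] (.d 298 1290 266 1322 426)
 (.a 1 [266] (.d 426 1322 298 1354 458)
 (.a 0 [298,426] (.q 300 (.a 1 [] (.d 364 1292 268 1324 428)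
 (.a 1 [268] (.r 364 1324 428 (.d 365 361 361 362 366))
 (.a 1 [428] (.r 364 1292 268 (.d 365 361 361 362 366))
 (.a 0 [364] (.q 331 (.a 1 [] (.d 329 328 328 329 333)
 (.a 1 [328] (.d 333 329 329 330 334)
 (.a 1 [329] (.d 269 3310 238 3341 393)
 .e))))
 .e)))))
 .e))))
 (.a 0 [429] (.q 333 (.a 1 [] (.d 331 329 329 330 334)
 (.a 0 [329,331,334] (.q 426 (.a 1 [] (.d 362 1322 298 1354 458)
 (.a 0 [298,362,458] (.q 364 (.a 1 [] (.d 300 1292 268 1324 428)
 (.a 1 [268] (.d 428 1324 300 1356 460)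
 (.a 1 [300] (.d 395 3374 302 3405 457)
 .e))))
 .e)))
 .e)))
 .e)))))
 .e)))) (by decide +kernel)

theorem b2_1557 : S (PX [497] [399,431,464,530]) := S.of (.q 332 (.a 1 [] (.d 301 3342 270 3373 425)
 (.a 1 [270] (.d 425 3373 301 3404 456)
 (.a 0 [301,425] (.q 364 (.a 1 [] (.d 300 1292 268 1324 428)
 (.a 1 [268] (.d 428 1324 300 1356 460)
 (.a 0 [300,428] (.q 429 (.a 1 [] (.d 330 2345 297 2378 462)
 (.a 1 [297] (.d 462 2378 330 2411 495)
 (.a 0 [330,462] (.q 397 (.a 1 [] (.d 395 393 393 394 398)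
 (.a 0 [393,395,398] (.q 365 (.a 1 [] (.d 362 361 361 362 366)
 (.a 1 [361] (.d 366 362 362 363 367)
 (.a 1 [362] (.d 461 1357 333 1389 493)
 .e))))
 .e)))
 .e))))
 .e))))
 .e)))) (by decide +kernel)

theorem b2_1558 : S (PX [497] [400,431,464,530]) := S.of (.q 332 (.a 1 [] (.d 301 3342 270 3373 425)
 (.a 1 [270] (.d 425 3373 301 3404 456)
 (.a 0 [301,425] (.q 395 (.a 1 [] (.d 393 392 392 393 397)
 (.a 1 [392] (.d 397 393 393 394 398)
 (.a 0 [393,397] (.q 427 (.a 1 [] (.d 331 1323 299 1355 459)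
 (.a 1 [299] (.d 459 1355 331 1387 491)
 (.a 0 [331,459] (.q 361 (.a 1 [] (.d 328 2343 295 2376 460)
 (.a 1 [295] (.d 460 2376 328 2409 493)
 (.a 1 [328] (.r 460 2409 493 (.r 364 1356 428 (.d 362 360 360 361 365)))
 (.a 0 [460] (.q 364 (.a 1 [] (.d 362 360 360 361 365)
 (.a 1 [360] (.d 300 1292 268 1324 428)
 .e)))
 .e)))))
 .e))))
 .e))))
 .e)))) (by decide +kernel)

theorem b2_1559 : S (PX [497] [423,431,464,530]) := S.of (.q 332 (.a 1 [] (.d 301 3342 270 3373 425)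
 (.a 1 [270] (.d 425 3373 301 3404 456)
 (.a 0 [301,425] (.q 395 (.a 1 [] (.d 393 392 392 393 397)
 (.a 1 [392] (.d 397 393 393 394 398)
 (.a 0 [393,397] (.q 427 (.a 1 [] (.d 331 1323 299 1355 459)
 (.a 1 [299] (.d 459 1355 331 1387 491)
 (.a 0 [331,459] (.q 361 (.a 1 [] (.d 328 2343 295 2376 460)
 (.a 1 [295] (.d 460 2376 328 2409 493)
 (.a 1 [328] (.r 460 2409 493 (.r 364 1356 428 (.d 362 360 360 361 365)))
 (.a 0 [460] (.q 364 (.a 1 [] (.d 362 360 360 361 365)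
 (.a 1 [360] (.d 300 1292 268 1324 428)
 .e)))
 .e)))))
 .e))))
 .e))))
 .e)))) (by decide +kernel)

theorem b2_1560 : S (PX [497] [424,431,464,530]) := S.of (.q 330 (.a 1 [] (.d 297 2312 264 2345 429)
 (.a 1 [264] (.d 429 2345 297 2378 462)
 (.a 0 [297,429] (.q 362 (.a 1 [] (.d 298 1290 266 1322 426)
 (.a 1 [266] (.d 426 1322 298 1354 458)
 (.a 0 [298,426] (.q 361 (.a 1 [] (.d 360 359 359 360 364)
 (.a 1 [359] (.d 364 360 360 361 365)
 (.a 0 [360,364] (.q 427 (.a 1 [] (.d 328 2343 295 2376 460)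
 (.a 1 [295] (.d 460 2376 328 2409 493)
 (.a 0 [328,460] (.q 392 (.a 1 [] (.d 299 3340 268 3371 423)
 (.a 1 [268] (.d 423 3371 299 3402 454)
 (.a 1 [299] (.r 395 392 393 (.d 459 1355 331 1387 491))
 .e))))
 .e))))
 .e))))
 .e))))
 .e)))) (by decide +kernel)

theorem b2_1561 : S (PX [497] [425,431,464,530]) := S.of (.q 395 (.a 1 [] (.d 393 392 392 393 397)
 (.a 1 [392] (.d 397 393 393 394 398)
 (.a 0 [393,397] (.q 427 (.a 1 [] (.d 331 1323 299 1355 459)
 (.a 1 [299] (.d 459 1355 331 1387 491)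
 (.a 0 [331,459] (.q 361 (.a 1 [] (.d 328 2343 295 2376 460)
 (.a 1 [295] (.d 460 2376 328 2409 493)
 (.a 0 [328,460] (.q 330 (.a 1 [] (.d 297 2312 264 2345 429)
 (.a 1 [264] (.d 429 2345 297 2378 462)
 (.a 0 [297,429] (.q 362 (.a 1 [] (.d 360 359 359 360 364)
 (.a 1 [359] (.d 364 360 360 361 365)
 (.a 1 [360] (.d 298 1290 266 1322 426)
 .e))))
 .e))))
 .e))))
 .e))))
 .e)))) (by decide +kernel)

theorem b2_1562 : S (PX [497] [426,431,464,530]) := S.of (.q 395 (.a 1 [] (.d 393 392 392 393 397)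
 (.a 1 [392] (.d 397 393 393 394 398)
 (.a 0 [393,397] (.q 332 (.a 1 [] (.d 301 3342 270 3373 425)
 (.a 1 [270] (.d 425 3373 301 3404 456)
 (.a 0 [301] (.q 331 (.a 1 [] (.d 299 1291 267 1323 427)
 (.a 1 [267] (.d 427 1323 299 1355 459)
 (.a 0 [299,427] (.q 330 (.a 1 [] (.d 329 328 328 329 333)
 (.a 1 [328] (.d 333 329 329 330 334)
 (.a 1 [329] (.d 297 2312 264 2345 429)
 .e))))
 .e))))
 (.a 0 [425] (.q 428 (.a 1 [] (.d 364 1324 300 1356 460)
 (.a 0 [300,364,460] (.q 330 (.a 1 [] (.d 297 2312 264 2345 429)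
 (.a 1 [264] (.d 429 2345 297 2378 462)
 (.a 0 [297,429] (.q 329 (.a 1 [] (.d 331 328 328 329 333)
 (.a 1 [328] (.d 362 2344 296 2377 461)
 .e)))
 .e))))
 .e)))
 .e)))))
 .e)))) (by decide +kernel)

theorem b2_1563 : S (PX [497] [427,431,464,530]) := S.of (.q 429 (.a 1 [] (.d 330 2345 297 2378 462)
 (.a 1 [297] (.d 462 2378 330 2411 495)
 (.a 0 [330,462] (.q 397 (.a 1 [] (.d 395 393 393 394 398)
 (.a 0 [393,395,398] (.q 365 (.a 1 [] (.d 333 1325 301 1357 461)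
 (.a 1 [301] (.d 461 1357 333 1389 493)
 (.a 1 [461] (.r 301 1325 333 (.d 332 3342 270 3373 425))
 (.a 0 [333] (.q 332 (.a 1 [] (.d 301 3342 270 3373 425)
 (.a 1 [270] (.d 425 3373 301 3404 456)
 (.a 0 [301,425] (.q 364 (.a 1 [] (.d 362 361 361 362 366)
 (.a 1 [361] (.d 366 362 362 363 367)
 (.a 1 [362] (.d 300 1292 268 1324 428)
 .e))))
 .e))))
 .e)))))
 .e)))
 .e)))) (by decide +kernel)

theorem b2_1564 : S (PX [497] [428,431,464,530]) := S.of (.q 429 (.a 1 [] (.d 330 2345 297 2378 462)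
 (.a 1 [297] (.d 462 2378 330 2411 495)
 (.a 0 [330,462] (.q 397 (.a 1 [] (.d 395 393 393 394 398)
 (.a 0 [393,395,398] (.q 365 (.a 1 [] (.d 333 1325 301 1357 461)
 (.a 1 [301] (.d 461 1357 333 1389 493)
 (.a 1 [461] (.r 301 1325 333 (.d 332 3342 270 3373 425))
 (.a 0 [333] (.q 427 (.a 1 [] (.d 334 3375 303 3406 458)
 (.a 1 [303] (.d 458 3406 334 3437 489)
 (.a 1 [334] (.r 493 1389 461 (.d 460 2409 361 2442 526))
 .e))))
 .e)))))
 .e)))
 .e)))) (by decide +kernel)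

theorem b2_1565 : S (PX [497] [429,431,464,530]) := S.of (.q 395 (.a 1 [] (.d 393 392 392 393 397)
 (.a 1 [392] (.d 397 393 393 394 398)
 (.a 0 [393,397] (.q 427 (.a 1 [] (.d 331 1323 299 1355 459)
 (.a 1 [299] (.d 459 1355 331 1387 491)
 (.a 0 [331,459] (.q 365 (.a 1 [] (.d 334 3375 303 3406 458)
 (.a 1 [303] (.d 458 3406 334 3437 489)
 (.a 0 [334,458] (.q 460 (.a 1 [] (.d 361 2376 328 2409 493)
 (.a 1 [328] (.d 493 2409 361 2442 526)
 (.a 1 [493] (.r 361 2376 328 (.r 364 361 362 (.d 428 1356 332 1388 492)))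
 (.a 0 [361] (.q 364 (.a 1 [] (.d 366 362 362 363 367)
 (.a 1 [362] (.d 428 1356 332 1388 492)
 .e)))
 .e)))))
 .e))))
 .e))))
 .e)))) (by decide +kernel)

theorem b2_1566 : S (PX [497] [430,431,464,530]) := S.of (.q 429 (.a 1 [] (.d 330 2345 297 2378 462)
 (.a 1 [297] (.d 462 2378 330 2411 495)
 (.a 0 [330,462] (.q 332 (.a 1 [] (.d 301 3342 270 3373 425)
 (.a 1 [270] (.d 425 3373 301 3404 456)
 (.a 0 [301,425] (.q 364 (.a 1 [] (.d 300 1292 268 1324 428)
 (.a 1 [268] (.d 428 1324 300 1356 460)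
 (.a 0 [300,428] (.q 395 (.a 1 [] (.d 393 392 392 393 397)
 (.a 1 [392] (.d 397 393 393 394 398)
 (.a 0 [393] (.q 365 (.a 1 [] (.d 362 361 361 362 366)
 (.a 1 [361] (.d 366 362 362 363 367)
 (.a 1 [362] (.r 398 394 397 (.r 367 363 366 (.d 460 3408 336 3439 491)))
 (.a 1 [366] (.r 398 394 397 (.r 299 2314 266 (.d 331 1291 267 1323 427)))
 .e)))))
 (.a 0 [397] (.q 459 (.a 1 [] (.d 427 1355 331 1387 491)
 (.a 0 [331,427,491] (.q 426 (.a 1 [] (.d 333 3374 302 3405 457)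
 (.a 1 [302] (.d 457 3405 333 3436 488)
 (.a 1 [333] (.r 393 392 392 (.d 492 2408 360 2441 525))
 .e))))
 .e)))
 .e)))))
 .e))))
 .e))))
 .e)))) (by decide +kernel)

theorem b2_1567 : S (PX [497] [431,432,464,530]) := S.of (.q 332 (.a 1 [] (.d 301 3342 270 3373 425)
 (.a 1 [270] (.d 425 3373 301 3404 456)
 (.a 0 [301,425] (.q 429 (.a 1 [] (.d 330 2345 297 2378 462)
 (.a 1 [297] (.d 462 2378 330 2411 495)
 (.a 0 [330,462] (.q 364 (.a 1 [] (.d 300 1292 268 1324 428)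
 (.a 1 [268] (.d 428 1324 300 1356 460)
 (.a 0 [300,428] (.q 397 (.a 1 [] (.d 395 393 393 394 398)
 (.a 0 [393,395,398] (.q 365 (.a 1 [] (.d 362 361 361 362 366)
 (.a 1 [361] (.d 366 362 362 363 367)
 (.a 1 [362] (.d 461 1357 333 1389 493)
 .e))))
 .e)))
 .e))))
 .e))))
 .e)))) (by decide +kernel)

theorem b2_1568 : S (PX [497] [431,433,464,530]) := S.of (.q 332 (.a 1 [] (.d 301 3342 270 3373 425)
 (.a 1 [270] (.d 425 3373 301 3404 456)
 (.a 0 [301,425] (.q 395 (.a 1 [] (.d 393 392 392 393 397)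
 (.a 1 [392] (.d 397 393 393 394 398)
 (.a 0 [393,397] (.q 427 (.a 1 [] (.d 331 1323 299 1355 459)
 (.a 1 [299] (.d 459 1355 331 1387 491)
 (.a 0 [331,459] (.q 361 (.a 1 [] (.d 328 2343 295 2376 460)
 (.a 1 [295] (.d 460 2376 328 2409 493)
 (.a 1 [328] (.r 460 2409 493 (.r 364 1356 428 (.d 362 360 360 361 365)))
 (.a 0 [460] (.q 364 (.a 1 [] (.d 362 360 360 361 365)
 (.a 1 [360] (.d 300 1292 268 1324 428)
 .e)))
 .e)))))
 .e))))
 .e))))
 .e)))) (by decide +kernel)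

theorem b2_1569 : S (PX [497] [431,457,464,530]) := S.of (.q 395 (.a 1 [] (.d 393 392 392 393 397)
 (.a 1 [392] (.d 397 393 393 394 398)
 (.a 0 [393,397] (.q 427 (.a 1 [] (.d 331 1323 299 1355 459)
 (.a 1 [299] (.d 459 1355 331 1387 491)
 (.a 0 [331,459] (.q 330 (.a 1 [] (.d 297 2312 264 2345 429)
 (.a 1 [264] (.d 429 2345 297 2378 462)
 (.a 0 [297,429] (.q 361 (.a 1 [] (.d 328 2343 295 2376 460)
 (.a 1 [295] (.d 460 2376 328 2409 493)
 (.a 0 [328,460] (.q 458 (.a 1 [] (.d 365 3406 334 3437 489)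
 (.a 1 [334] (.d 489 3437 365 3468 520)
 (.a 1 [365] (.r 362 1354 426 (.d 360 359 359 360 364))
 .e))))
 .e))))
 .e))))
 .e))))
 .e)))) (by decide +kernel)

theorem b2_1570 : S (PX [497] [431,458,464,530]) := S.of (.q 332 (.a 1 [] (.d 301 3342 270 3373 425)
 (.a 1 [270] (.d 425 3373 301 3404 456)
 (.a 0 [301,425] (.q 395 (.a 1 [] (.d 393 392 392 393 397)
 (.a 1 [392] (.d 397 393 393 394 398)
 (.a 0 [393,397] (.q 331 (.a 1 [] (.d 299 1291 267 1323 427)
 (.a 1 [267] (.d 427 1323 299 1355 459)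
 (.a 0 [299,427] (.q 330 (.a 1 [] (.d 329 328 328 329 333)
 (.a 1 [328] (.d 333 329 329 330 334)
 (.a 1 [329] (.d 297 2312 264 2345 429)
 .e))))
 .e))))
 .e))))
 .e)))) (by decide +kernel)

theorem b2_1571 : S (PX [497] [431,459,464,530]) := S.of (.q 332 (.a 1 [] (.d 301 3342 270 3373 425)
 (.a 1 [270] (.d 425 3373 301 3404 456)
 (.a 0 [301,425] (.q 364 (.a 1 [] (.d 300 1292 268 1324 428)
 (.a 1 [268] (.d 428 1324 300 1356 460)
 (.a 0 [300,428] (.q 429 (.a 1 [] (.d 330 2345 297 2378 462)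
 (.a 1 [297] (.d 462 2378 330 2411 495)
 (.a 0 [330,462] (.q 397 (.a 1 [] (.d 395 393 393 394 398)
 (.a 0 [393,395,398] (.q 365 (.a 1 [] (.d 362 361 361 362 366)
 (.a 1 [361] (.d 366 362 362 363 367)
 (.a 1 [362] (.d 461 1357 333 1389 493)
 .e))))
 .e)))
 .e))))
 .e))))
 .e)))) (by decide +kernel)

theorem b2_1572 : S (PX [497] [431,460,464,530]) := S.of (.q 395 (.a 1 [] (.d 393 392 392 393 397)
 (.a 1 [392] (.d 397 393 393 394 398)
 (.a 0 [393,397] (.q 332 (.a 1 [] (.d 301 3342 270 3373 425)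
 (.a 1 [270] (.d 425 3373 301 3404 456)
 (.a 0 [301,425] (.q 331 (.a 1 [] (.d 299 1291 267 1323 427)
 (.a 1 [267] (.d 427 1323 299 1355 459)
 (.a 0 [299,427] (.q 330 (.a 1 [] (.d 329 328 328 329 333)
 (.a 1 [328] (.d 333 329 329 330 334)
 (.a 1 [329] (.d 297 2312 264 2345 429)
 .e))))
 .e))))
 .e))))
 .e)))) (by decide +kernel)

theorem b2_1573 : S (PX [497] [431,461,464,530]) := S.of (.q 395 (.a 1 [] (.d 393 392 392 393 397)
 (.a 1 [392] (.d 397 393 393 394 398)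
 (.a 0 [393,397] (.q 427 (.a 1 [] (.d 331 1323 299 1355 459)
 (.a 1 [299] (.d 459 1355 331 1387 491)
 (.a 0 [331,459] (.q 365 (.a 1 [] (.d 334 3375 303 3406 458)
 (.a 1 [303] (.d 458 3406 334 3437 489)
 (.a 0 [334,458] (.q 460 (.a 1 [] (.d 361 2376 328 2409 493)
 (.a 1 [328] (.d 493 2409 361 2442 526)
 (.a 1 [493] (.r 361 2376 328 (.r 364 361 362 (.d 428 1356 332 1388 492)))
 (.a 0 [361] (.q 364 (.a 1 [] (.d 366 362 362 363 367)
 (.a 1 [362] (.d 428 1356 332 1388 492)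
 .e)))
 .e)))))
 .e))))
 .e))))
 .e)))) (by decide +kernel)

theorem b2_1574 : S (PX [497] [431,462,464,530]) := S.of (.q 332 (.a 1 [] (.d 301 3342 270 3373 425)
 (.a 1 [270] (.d 425 3373 301 3404 456)
 (.a 0 [301,425] (.q 395 (.a 1 [] (.d 393 392 392 393 397)
 (.a 1 [392] (.d 397 393 393 394 398)
 (.a 0 [393,397] (.q 427 (.a 1 [] (.d 331 1323 299 1355 459)
 (.a 1 [299] (.d 459 1355 331 1387 491)
 (.a 0 [331,459] (.q 365 (.a 1 [] (.d 334 3375 303 3406 458)
 (.a 1 [303] (.d 458 3406 334 3437 489)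
 (.a 0 [334,458] (.q 460 (.a 1 [] (.d 361 2376 328 2409 493)
 (.a 1 [328] (.d 493 2409 361 2442 526)
 (.a 1 [361] (.r 364 1356 428 (.d 366 362 362 363 367))
 .e))))
 .e))))
 .e))))
 .e))))
 .e)))) (by decide +kernel)

theorem b2_1575 : S (PX [497] [431,463,464,530]) := S.of (.q 332 (.a 1 [] (.d 301 3342 270 3373 425)
 (.a 1 [270] (.d 425 3373 301 3404 456)
 (.a 0 [301,425] (.q 364 (.a 1 [] (.d 300 1292 268 1324 428)
 (.a 1 [268] (.d 428 1324 300 1356 460)
 (.a 0 [300,428] (.q 365 (.a 1 [] (.d 362 361 361 362 366)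
 (.a 1 [361] (.d 366 362 362 363 367)
 (.a 0 [362,366] (.q 427 (.a 1 [] (.d 334 3375 303 3406 458)
 (.a 1 [303] (.d 458 3406 334 3437 489)
 (.a 0 [334,458] (.q 395 (.a 1 [] (.d 393 392 392 393 397)
 (.a 1 [392] (.d 397 393 393 394 398)
 (.a 1 [393] (.d 331 1323 299 1355 459)
 .e))))
 .e))))
 .e))))
 .e))))
 .e)))) (by decide +kernel)

theorem b2_1576 : S (PX [497] [431,464,491,530]) := S.of (.q 332 (.a 1 [] (.d 301 3342 270 3373 425)
 (.a 1 [270] (.d 425 3373 301 3404 456)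
 (.a 0 [301,425] (.q 364 (.a 1 [] (.d 300 1292 268 1324 428)
 (.a 1 [268] (.d 428 1324 300 1356 460)
 (.a 0 [300,428] (.q 429 (.a 1 [] (.d 330 2345 297 2378 462)
 (.a 1 [297] (.d 462 2378 330 2411 495)
 (.a 0 [330,462] (.q 365 (.a 1 [] (.d 362 361 361 362 366)
 (.a 1 [361] (.d 366 362 362 363 367)
 (.a 0 [362,366] (.q 397 (.a 1 [] (.d 395 393 393 394 398)
 (.a 1 [393] (.d 461 1357 333 1389 493)
 .e)))
 .e))))
 .e))))
 .e))))
 .e)))) (by decide +kernel)

theorem b2_1577 : S (PX [497] [431,464,495,530]) := S.of (.q 332 (.a 1 [] (.d 301 3342 270 3373 425)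
 (.a 1 [270] (.d 425 3373 301 3404 456)
 (.a 0 [301,425] (.q 395 (.a 1 [] (.d 393 392 392 393 397)
 (.a 1 [392] (.d 397 393 393 394 398)
 (.a 0 [393,397] (.q 427 (.a 1 [] (.d 331 1323 299 1355 459)
 (.a 1 [299] (.d 459 1355 331 1387 491)
 (.a 0 [331,459] (.q 365 (.a 1 [] (.d 334 3375 303 3406 458)
 (.a 1 [303] (.d 458 3406 334 3437 489)
 (.a 0 [334,458] (.q 364 (.a 1 [] (.d 362 361 361 362 366)
 (.a 1 [361] (.d 366 362 362 363 367)
 (.a 1 [362] (.d 300 1292 268 1324 428)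
 .e))))
 .e))))
 .e))))
 .e))))
 .e)))) (by decide +kernel)

theorem b2_1578 : S (PX [497] [431,464,521,530]) := S.of (.q 332 (.a 1 [] (.d 301 3342 270 3373 425)
 (.a 1 [270] (.d 425 3373 301 3404 456)
 (.a 0 [301,425] (.q 364 (.a 1 [] (.d 300 1292 268 1324 428)
 (.a 1 [268] (.d 428 1324 300 1356 460)
 (.a 0 [300,428] (.q 365 (.a 1 [] (.d 362 361 361 362 366)
 (.a 1 [361] (.d 366 362 362 363 367)
 (.a 0 [362,366] (.q 427 (.a 1 [] (.d 334 3375 303 3406 458)
 (.a 1 [303] (.d 458 3406 334 3437 489)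
 (.a 0 [334,458] (.q 395 (.a 1 [] (.d 393 392 392 393 397)
 (.a 1 [392] (.d 397 393 393 394 398)
 (.a 1 [393] (.d 331 1323 299 1355 459)
 .e))))
 .e))))
 .e))))
 .e))))
 .e)))) (by decide +kernel)

theorem b2_1579 : S (PX [497] [431,464,524,530]) := S.of (.q 332 (.a 1 [] (.d 301 3342 270 3373 425)
 (.a 1 [270] (.d 425 3373 301 3404 456)
 (.a 0 [301,425] (.q 395 (.a 1 [] (.d 393 392 392 393 397)
 (.a 1 [392] (.d 397 393 393 394 398)
 (.a 0 [393,397] (.q 427 (.a 1 [] (.d 331 1323 299 1355 459)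
 (.a 1 [299] (.d 459 1355 331 1387 491)
 (.a 0 [331,459] (.q 361 (.a 1 [] (.d 328 2343 295 2376 460)
 (.a 1 [295] (.d 460 2376 328 2409 493)
 (.a 1 [328] (.r 460 2409 493 (.r 364 1356 428 (.d 362 360 360 361 365)))
 (.a 0 [460] (.q 364 (.a 1 [] (.d 362 360 360 361 365)
 (.a 1 [360] (.d 300 1292 268 1324 428)
 .e)))
 .e)))))
 .e))))
 .e))))
 .e)))) (by decide +kernel)

theorem b2_1708 : S (PX [398,563] [332,431,497,530,629]) := S.of (.q 429 (.a 1 [] (.d 330 2345 297 2378 462)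
 (.a 1 [297] (.d 462 2378 330 2411 495)
 (.a 0 [330,462] (.q 460 (.a 1 [] (.d 367 3408 336 3439 491)
 (.a 1 [336] (.d 491 3439 367 3470 522)
 (.a 1 [367] (.r 395 394 397 (.r 491 3470 522 (.r 427 1387 459 (.d 493 2409 361 2442 526))))
 (.a 0 [491] (.q 427 (.a 1 [] (.d 361 2376 328 2409 493)
 (.a 1 [328] (.d 493 2409 361 2442 526)
 (.a 1 [361] (.r 395 394 397 (.d 331 1323 299 1355 459))
 .e))))
 .e)))))
 .e)))) (by decide +kernel)

theorem b2_1709 : S (PX [398,563] [365,431,497,530,629]) := S.of (.q 429 (.a 1 [] (.d 330 2345 297 2378 462)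
 (.a 1 [297] (.d 462 2378 330 2411 495)
 (.a 0 [330,462] (.q 460 (.a 1 [] (.d 367 3408 336 3439 491)
 (.a 1 [336] (.d 491 3439 367 3470 522)
 (.a 1 [367] (.r 395 394 397 (.r 491 3470 522 (.r 427 1387 459 (.d 493 2409 361 2442 526))))
 (.a 0 [491] (.q 427 (.a 1 [] (.d 361 2376 328 2409 493)
 (.a 1 [328] (.d 493 2409 361 2442 526)
 (.a 1 [361] (.r 395 394 397 (.d 331 1323 299 1355 459))
 .e))))
 .e)))))
 .e)))) (by decide +kernel)

theorem b2_1710 : S (PX [398,563] [397,431,497,530,629]) := S.of (.q 429 (.a 1 [] (.d 330 2345 297 2378 462)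
 (.a 1 [297] (.d 462 2378 330 2411 495)
 (.a 0 [330,462] (.q 460 (.a 1 [] (.d 367 3408 336 3439 491)
 (.a 1 [336] (.d 491 3439 367 3470 522)
 (.a 0 [367,491] (.q 332 (.a 1 [] (.d 301 3342 270 3373 425)
 (.a 1 [270] (.d 425 3373 301 3404 456)
 (.a 1 [301] (.r 428 1356 364 (.r 425 3404 456 (.r 427 425 426 (.d 493 2409 361 2442 526))))
 (.a 0 [425] (.q 361 (.a 1 [] (.d 427 2376 328 2409 493)
 (.a 1 [328] (.r 364 1356 428 (.d 362 360 360 361 365))
 .e)))
 .e)))))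
 .e))))
 .e)))) (by decide +kernel)

theorem b2_1711 : S (PX [398,563] [424,431,497,530,629]) := S.of (.q 429 (.a 1 [] (.d 330 2345 297 2378 462)
 (.a 1 [297] (.d 462 2378 330 2411 495)
 (.a 0 [330,462] (.q 460 (.a 1 [] (.d 367 3408 336 3439 491)
 (.a 1 [336] (.d 491 3439 367 3470 522)
 (.a 1 [367] (.r 395 394 397 (.r 491 3470 522 (.r 427 1387 459 (.d 493 2409 361 2442 526))))
 (.a 0 [491] (.q 427 (.a 1 [] (.d 361 2376 328 2409 493)
 (.a 1 [328] (.d 493 2409 361 2442 526)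
 (.a 1 [361] (.r 395 394 397 (.d 331 1323 299 1355 459))
 .e))))
 .e)))))
 .e)))) (by decide +kernel)

theorem b2_1712 : S (PX [398,563] [427,431,497,530,629]) := S.of (.q 429 (.a 1 [] (.d 330 2345 297 2378 462)
 (.a 1 [297] (.d 462 2378 330 2411 495)
 (.a 0 [330,462] (.q 332 (.a 1 [] (.d 301 3342 270 3373 425)
 (.a 1 [270] (.d 425 3373 301 3404 456)
 (.a 0 [301,425] (.q 460 (.a 1 [] (.d 367 3408 336 3439 491)
 (.a 1 [336] (.d 491 3439 367 3470 522)
 (.a 1 [491] (.r 364 1356 428 (.r 397 394 395 (.r 367 3408 336 (.r 365 363 366 (.d 461 1357 333 1389 493)))))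
 (.a 0 [367] (.q 365 (.a 1 [] (.r 397 394 395 (.d 461 1357 333 1389 493))
 (.a 1 [333] (.r 364 1356 428 (.d 362 361 361 362 366))
 .e)))
 .e)))))
 .e))))
 .e)))) (by decide +kernel)

theorem b2_1713 : S (PX [398,563] [428,431,497,530,629]) := S.of (.q 429 (.a 1 [] (.d 330 2345 297 2378 462)
 (.a 1 [297] (.d 462 2378 330 2411 495)
 (.a 0 [330,462] (.q 460 (.a 1 [] (.d 367 3408 336 3439 491)
 (.a 1 [336] (.d 491 3439 367 3470 522)
 (.a 1 [367] (.r 395 394 397 (.r 491 3470 522 (.r 427 1387 459 (.d 493 2409 361 2442 526))))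
 (.a 0 [491] (.q 427 (.a 1 [] (.d 361 2376 328 2409 493)
 (.a 1 [328] (.d 493 2409 361 2442 526)
 (.a 1 [361] (.r 395 394 397 (.d 331 1323 299 1355 459))
 .e))))
 .e)))))
 .e)))) (by decide +kernel)

theorem b2_1763 : S (PX [464] [332,431,497,530]) := S.of (.q 395 (.a 1 [] (.d 393 392 392 393 397)
 (.a 1 [392] (.d 397 393 393 394 398)
 (.a 0 [393,397] (.q 427 (.a 1 [] (.d 331 1323 299 1355 459)
 (.a 1 [299] (.d 459 1355 331 1387 491)
 (.a 0 [331,459] (.q 330 (.a 1 [] (.d 297 2312 264 2345 429)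
 (.a 1 [264] (.d 429 2345 297 2378 462)
 (.a 0 [297,429] (.q 365 (.a 1 [] (.d 334 3375 303 3406 458)
 (.a 1 [303] (.d 458 3406 334 3437 489)
 (.a 1 [334] (.r 458 3437 489 (.r 362 1354 426 (.d 364 361 361 362 366)))
 (.a 0 [458] (.q 362 (.a 1 [] (.d 364 361 361 362 366)
 (.a 1 [361] (.d 298 1290 266 1322 426)
 .e)))
 .e)))))
 .e))))
 .e))))
 .e)))) (by decide +kernel)

theorem b2_1764 : S (PX [464] [365,431,497,530]) := S.of (.q 332 (.a 1 [] (.d 301 3342 270 3373 425)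
 (.a 1 [270] (.d 425 3373 301 3404 456)
 (.a 0 [301,425] (.q 397 (.a 1 [] (.d 395 393 393 394 398)
 (.a 0 [393,395,398] (.q 462 (.a 1 [] (.d 429 2378 330 2411 495)
 (.a 0 [330,429,495] (.q 463 (.a 1 [] (.d 461 460 460 461 465)
 (.a 1 [460] (.d 465 461 461 462 466)
 (.a 1 [465] (.r 460 460 461 (.r 364 1356 428 (.d 430 2379 331 2412 496)))
 (.a 0 [461] (.q 364 (.a 1 [] (.d 300 1292 268 1324 428)
 (.a 1 [268] (.d 428 1324 300 1356 460)
 (.a 1 [300] (.d 430 2379 331 2412 496)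
 .e))))
 .e)))))
 .e)))
 .e)))
 .e)))) (by decide +kernel)

theorem b2_1765 : S (PX [464] [397,431,497,530]) := S.of (.q 429 (.a 1 [] (.d 330 2345 297 2378 462)
 (.a 1 [297] (.d 462 2378 330 2411 495)
 (.a 0 [330] (.r 495 2411 462 (.q 332 (.a 1 [] (.d 301 3342 270 3373 425)
 (.a 1 [270] (.d 425 3373 301 3404 456)
 (.a 0 [301] (.r 425 3404 456 (.q 427 (.a 1 [] (.r 428 425 426 (.d 364 1324 300 1356 460))
 (.a 1 [300] (.r 428 425 426 (.r 460 1356 364 (.d 493 2409 361 2442 526)))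
 (.a 0 [364,426,428,460] (.q 557 (.a 1 [] (.d 526 3505 433 3536 588)
 (.a 0 [433,526,588] (.q 458 (.a 1 [] (.d 365 3406 334 3437 489)
 (.a 1 [334] (.d 489 3437 365 3468 520)
 (.a 1 [365] (.r 491 2473 524 (.r 395 1387 459 (.d 392 2407 359 392 393)))
 .e))))
 .e)))
 .e)))))
 (.a 0 [425] (.q 526 (.a 1 [] (.d 433 3474 402 3505 557)
 (.a 1 [402] (.d 557 3505 433 3536 588)
 (.a 0 [433,557] (.q 364 (.a 1 [] (.d 300 1292 268 1324 428)
 (.a 1 [268] (.d 428 1324 300 1356 460)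
 (.a 1 [300] (.r 460 1356 428 (.r 427 2442 493 (.r 361 2376 328 (.d 362 360 360 361 365))))
 (.a 0 [428] (.q 362 (.a 1 [] (.d 361 360 360 361 365)
 (.a 1 [360] (.d 365 361 361 362 366)
 (.a 0 [361,365] (.r 300 1292 268 (.r 301 3342 270 (.q 299 (.a 1 [] (.d 298 297 297 298 302)
 (.a 1 [297] (.d 302 298 298 299 303)
 (.a 0 [298,302] (.q 331 (.a 1 [] (.d 267 1259 235 1291 395)
 (.a 1 [235] (.d 395 1291 267 1323 427)
 (.a 1 [267] (.d 393 3341 269 3372 424)
 .e))))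
 .e))))))
 .e))))
 .e)))))
 .e))))
 .e))))))
 (.a 0 [462] (.q 332 (.a 1 [] (.d 301 3342 270 3373 425)
 (.a 1 [270] (.d 425 3373 301 3404 456)
 (.a 0 [301,425] (.q 364 (.a 1 [] (.d 300 1292 268 1324 428)
 (.a 1 [268] (.d 428 1324 300 1356 460)
 (.a 0 [300,428] (.q 362 (.a 1 [] (.d 361 360 360 361 365)
 (.a 1 [360] (.d 365 361 361 362 366)
 (.a 1 [361] (.r 330 2345 297 (.d 426 1322 298 1354 458))
 .e))))
 .e))))
 .e))))
 .e))))) (by decide +kernel)

theorem b2_1766 : S (PX [464] [398,431,497,530]) := S.of (.q 332 (.a 1 [] (.d 301 3342 270 3373 425)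
 (.a 1 [270] (.d 425 3373 301 3404 456)
 (.a 0 [301,425] (.q 364 (.a 1 [] (.d 300 1292 268 1324 428)
 (.a 1 [268] (.d 428 1324 300 1356 460)
 (.a 0 [300,428] (.q 429 (.a 1 [] (.d 330 2345 297 2378 462)
 (.a 1 [297] (.d 462 2378 330 2411 495)
 (.a 0 [330,462] (.q 361 (.a 1 [] (.d 362 360 360 361 365)
 (.a 0 [360,362,365] (.q 427 (.a 1 [] (.d 328 2343 295 2376 460)
 (.a 1 [295] (.d 460 2376 328 2409 493)
 (.a 0 [328,460] (.q 395 (.a 1 [] (.d 393 392 392 393 397)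
 (.a 1 [392] (.d 459 1355 331 1387 491)
 .e)))
 .e))))
 .e)))
 .e))))
 .e))))
 .e)))) (by decide +kernel)

theorem b2_1767 : S (PX [464] [424,431,497,530]) := S.of (.q 332 (.a 1 [] (.d 301 3342 270 3373 425)
 (.a 1 [270] (.d 425 3373 301 3404 456)
 (.a 0 [301,425] (.q 462 (.a 1 [] (.d 429 2378 330 2411 495)
 (.a 0 [330,429,495] (.q 463 (.a 1 [] (.d 461 460 460 461 465)
 (.a 1 [460] (.d 465 461 461 462 466)
 (.a 0 [461,465] (.q 397 (.a 1 [] (.d 395 393 393 394 398)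
 (.a 0 [393,395,398] (.q 364 (.a 1 [] (.d 300 1292 268 1324 428)
 (.a 1 [268] (.d 428 1324 300 1356 460)
 (.a 1 [300] (.d 430 2379 331 2412 496)
 .e))))
 .e)))
 .e))))
 .e)))
 .e)))) (by decide +kernel)

theorem b2_1768 : S (PX [464] [427,431,497,530]) := S.of (.q 429 (.a 1 [] (.d 330 2345 297 2378 462)
 (.a 1 [297] (.d 462 2378 330 2411 495)
 (.a 0 [330,462] (.q 397 (.a 1 [] (.d 395 393 393 394 398)
 (.a 0 [393,395,398] (.q 365 (.a 1 [] (.d 333 1325 301 1357 461)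
 (.a 1 [301] (.d 461 1357 333 1389 493)
 (.a 1 [461] (.r 301 1325 333 (.d 332 3342 270 3373 425))
 (.a 0 [333] (.q 332 (.a 1 [] (.d 301 3342 270 3373 425)
 (.a 1 [270] (.d 425 3373 301 3404 456)
 (.a 0 [301,425] (.q 364 (.a 1 [] (.d 362 361 361 362 366)
 (.a 1 [361] (.d 366 362 362 363 367)
 (.a 1 [362] (.d 300 1292 268 1324 428)
 .e))))
 .e))))
 .e)))))
 .e)))
 .e)))) (by decide +kernel)

theorem b2_1769 : S (PX [464] [428,431,497,530]) := S.of (.q 429 (.a 1 [] (.d 330 2345 297 2378 462)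
 (.a 1 [297] (.d 462 2378 330 2411 495)
 (.a 0 [330,462] (.q 397 (.a 1 [] (.d 395 393 393 394 398)
 (.a 0 [393,395,398] (.q 365 (.a 1 [] (.d 333 1325 301 1357 461)
 (.a 1 [301] (.d 461 1357 333 1389 493)
 (.a 1 [461] (.r 301 1325 333 (.d 332 3342 270 3373 425))
 (.a 0 [333] (.q 427 (.a 1 [] (.d 334 3375 303 3406 458)
 (.a 1 [303] (.d 458 3406 334 3437 489)
 (.a 1 [334] (.r 493 1389 461 (.d 460 2409 361 2442 526))
 .e))))
 .e)))))
 .e)))
 .e)))) (by decide +kernel)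

theorem b2_1770 : S (PX [] [365,464,530]) := S.of (.q 395 (.a 1 [] (.d 393 392 392 393 397)
 (.a 1 [392] (.d 397 393 393 394 398)
 (.a 0 [393,397] (.q 429 (.a 1 [] (.d 330 2345 297 2378 462)
 (.a 1 [297] (.d 462 2378 330 2411 495)
 (.a 0 [330,462] (.q 427 (.a 1 [] (.d 331 1323 299 1355 459)
 (.a 1 [299] (.d 459 1355 331 1387 491)
 (.a 0 [331,459] (.q 460 (.a 1 [] (.d 361 2376 328 2409 493)
 (.a 1 [328] (.d 493 2409 361 2442 526)
 (.a 0 [361,493] (.q 428 (.a 1 [] (.d 426 425 425 426 430)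
 (.a 1 [425] (.d 430 426 426 427 431)
 (.a 1 [426] (.d 364 1356 332 1388 492)
 .e))))
 .e))))
 .e))))
 .e))))
 .e)))) (by decide +kernel)

theorem b2_1771 : S (PX [431] [365,464,497,530]) := S.of (.q 395 (.a 1 [] (.d 393 392 392 393 397)
 (.a 0 [397] (.q 429 (.a 1 [] (.d 330 2345 297 2378 462)
 (.a 1 [462] (.r 330 2345 297 (.q 427 (.a 1 [] (.d 331 1323 299 1355 459)
 (.a 1 [563] (.q 596 (.a 1 [] (.d 459 1355 331 1387 491)
 (.a 1 [331] (.r 428 427 430 (.r 425 425 426 (.d 456 3404 332 3435 487)))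
 .e)))
 (.a 1 [596] (.q 563 (.a 1 [] (.d 459 1355 331 1387 491)
 (.a 1 [331] (.r 428 427 430 (.r 425 425 426 (.d 456 3404 332 3435 487)))
 .e)))
 (.a 1 [331] (.r 428 427 430 (.r 425 425 426 (.d 456 3404 332 3435 487)))
 .e))))))
 (.a 1 [330] (.r 462 2411 495 (.q 427 (.a 1 [] (.d 331 1323 299 1355 459)
 (.a 1 [563] (.q 596 (.a 1 [] (.d 331 1323 299 1355 459)
 (.a 1 [459] (.r 428 427 430 (.r 425 425 426 (.d 456 3404 332 3435 487)))
 .e)))
 (.a 1 [596] (.q 563 (.a 1 [] (.d 331 1323 299 1355 459)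
 (.a 1 [459] (.r 428 427 430 (.r 425 425 426 (.d 456 3404 332 3435 487)))
 .e)))
 (.a 1 [459] (.r 428 427 430 (.r 425 425 426 (.d 456 3404 332 3435 487)))
 .e))))))
 (.a 1 [563] (.q 596 (.a 1 [] (.d 330 2345 297 2378 462)
 (.a 1 [462] (.q 427 (.a 1 [] (.d 331 1323 299 1355 459)
 (.a 1 [299] (.d 459 1355 331 1387 491)
 (.a 1 [331] (.r 428 427 430 (.r 425 425 426 (.d 456 3404 332 3435 487)))
 .e))))
 .e)))
 (.a 1 [596] (.q 563 (.a 1 [] (.d 330 2345 297 2378 462)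
 (.a 1 [462] (.q 427 (.a 1 [] (.d 331 1323 299 1355 459)
 (.a 1 [299] (.d 459 1355 331 1387 491)
 (.a 1 [331] (.r 428 427 430 (.r 425 425 426 (.d 456 3404 332 3435 487)))
 .e))))
 .e)))
 (.a 1 [297] (.d 462 2378 330 2411 495)
 .e)))))))
 (.a 0 [393] (.q 427 (.a 1 [] (.d 331 1323 299 1355 459)
 (.a 1 [331] (.q 429 (.a 1 [] (.d 330 2345 297 2378 462)
 (.a 1 [563] (.q 596 (.a 1 [] (.d 330 2345 297 2378 462)
 (.a 1 [462] (.r 428 427 430 (.r 425 425 426 (.d 456 3404 332 3435 487)))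
 .e)))
 (.a 1 [596] (.q 563 (.a 1 [] (.d 330 2345 297 2378 462)
 (.a 1 [462] (.r 428 427 430 (.r 425 425 426 (.d 456 3404 332 3435 487)))
 .e)))
 (.a 1 [462] (.r 428 427 430 (.r 425 425 426 (.d 456 3404 332 3435 487)))
 .e)))))
 (.a 1 [459] (.q 429 (.a 1 [] (.d 330 2345 297 2378 462)
 (.a 1 [563] (.q 596 (.a 1 [] (.d 330 2345 297 2378 462)
 (.a 1 [462] (.r 428 427 430 (.r 425 425 426 (.d 456 3404 332 3435 487)))
 .e)))
 (.a 1 [596] (.q 563 (.a 1 [] (.d 330 2345 297 2378 462)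
 (.a 1 [462] (.r 428 427 430 (.r 425 425 426 (.d 456 3404 332 3435 487)))
 .e)))
 (.a 1 [462] (.r 428 427 430 (.r 425 425 426 (.d 456 3404 332 3435 487)))
 .e)))))
 (.a 1 [563] (.q 596 (.a 1 [] (.d 331 1323 299 1355 459)
 (.a 1 [331] (.q 429 (.a 1 [] (.d 330 2345 297 2378 462)
 (.a 1 [297] (.d 462 2378 330 2411 495)
 (.a 1 [330] (.r 428 427 430 (.r 425 425 426 (.d 456 3404 332 3435 487)))
 .e))))
 (.a 1 [459] (.q 429 (.a 1 [] (.d 330 2345 297 2378 462)
 (.a 1 [297] (.d 462 2378 330 2411 495)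
 (.a 1 [330] (.r 428 427 430 (.r 425 425 426 (.d 456 3404 332 3435 487)))
 .e))))
 .e))))
 (.a 1 [596] (.q 563 (.a 1 [] (.d 331 1323 299 1355 459)
 (.a 1 [331] (.q 429 (.a 1 [] (.d 330 2345 297 2378 462)
 (.a 1 [297] (.d 462 2378 330 2411 495)
 (.a 1 [330] (.r 428 427 430 (.r 425 425 426 (.d 456 3404 332 3435 487)))
 .e))))
 (.a 1 [459] (.q 429 (.a 1 [] (.d 330 2345 297 2378 462)
 (.a 1 [297] (.d 462 2378 330 2411 495)
 (.a 1 [330] (.r 428 427 430 (.r 425 425 426 (.d 456 3404 332 3435 487)))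
 .e))))
 .e))))
 (.a 1 [299] (.d 459 1355 331 1387 491)
 .e)))))))
 (.a 1 [563] (.q 596 (.a 1 [] (.d 397 393 393 394 398)
 (.a 1 [397] (.q 429 (.a 1 [] (.d 330 2345 297 2378 462)
 (.a 1 [297] (.d 462 2378 330 2411 495)
 (.a 0 [330,462] (.q 427 (.a 1 [] (.d 331 1323 299 1355 459)
 (.a 1 [299] (.d 459 1355 331 1387 491)
 (.a 1 [331] (.r 428 427 430 (.r 425 425 426 (.d 456 3404 332 3435 487)))
 .e))))
 .e))))
 (.a 1 [398] (.d 393 392 392 393 397)
 .e))))
 (.a 1 [596] (.q 563 (.a 1 [] (.d 397 393 393 394 398)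
 (.a 1 [397] (.q 429 (.a 1 [] (.d 330 2345 297 2378 462)
 (.a 1 [297] (.d 462 2378 330 2411 495)
 (.a 0 [330,462] (.q 427 (.a 1 [] (.d 331 1323 299 1355 459)
 (.a 1 [299] (.d 459 1355 331 1387 491)
 (.a 1 [331] (.r 428 427 430 (.r 425 425 426 (.d 456 3404 332 3435 487)))
 .e))))
 .e))))
 (.a 1 [398] (.d 393 392 392 393 397)
 .e))))
 (.a 1 [392] (.d 397 393 393 394 398)
 .e))))))) (by decide +kernel)

theorem b2_1772 : S (PX [431,596] [365,464,497,530,563]) := S.of (.q 395 (.a 1 [] (.d 393 392 392 393 397)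
 (.a 1 [392] (.d 397 393 393 394 398)
 (.a 0 [393,397] (.q 429 (.a 1 [] (.d 330 2345 297 2378 462)
 (.a 1 [297] (.d 462 2378 330 2411 495)
 (.a 0 [330,462] (.q 427 (.a 1 [] (.d 331 1323 299 1355 459)
 (.a 1 [299] (.d 459 1355 331 1387 491)
 (.a 1 [331] (.r 428 427 430 (.r 425 425 426 (.d 456 3404 332 3435 487)))
 .e))))
 .e))))
 .e)))) (by decide +kernel)

theorem b2_1773 : S (PX [431,563] [365,464,497,530,596]) := S.of (.q 395 (.a 1 [] (.d 393 392 392 393 397)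
 (.a 1 [392] (.d 397 393 393 394 398)
 (.a 0 [393,397] (.q 429 (.a 1 [] (.d 330 2345 297 2378 462)
 (.a 1 [297] (.d 462 2378 330 2411 495)
 (.a 0 [330,462] (.q 427 (.a 1 [] (.d 331 1323 299 1355 459)
 (.a 1 [299] (.d 459 1355 331 1387 491)
 (.a 1 [331] (.r 428 427 430 (.r 425 425 426 (.d 456 3404 332 3435 487)))
 .e))))
 .e))))
 .e)))) (by decide +kernel)

theorem b2_1795 : S (PX [497] [365,464,530,563]) := S.of (.q 395 (.a 1 [] (.d 393 392 392 393 397)
 (.a 1 [392] (.d 397 393 393 394 398)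
 (.a 0 [393,397] (.q 429 (.a 1 [] (.d 330 2345 297 2378 462)
 (.a 1 [297] (.d 462 2378 330 2411 495)
 (.a 0 [330,462] (.q 427 (.a 1 [] (.d 331 1323 299 1355 459)
 (.a 1 [299] (.d 459 1355 331 1387 491)
 (.a 0 [331,459] (.q 460 (.a 1 [] (.d 361 2376 328 2409 493)
 (.a 1 [328] (.d 493 2409 361 2442 526)
 (.a 0 [361,493] (.q 428 (.a 1 [] (.d 426 425 425 426 430)
 (.a 1 [425] (.d 430 426 426 427 431)
 (.a 1 [426] (.d 364 1356 332 1388 492)
 .e))))
 .e))))
 .e))))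
 .e))))
 .e)))) (by decide +kernel)

theorem b2_1796 : S (PX [497] [365,464,530,596]) := S.of (.q 395 (.a 1 [] (.d 393 392 392 393 397)
 (.a 1 [392] (.d 397 393 393 394 398)
 (.a 0 [393,397] (.q 429 (.a 1 [] (.d 330 2345 297 2378 462)
 (.a 1 [297] (.d 462 2378 330 2411 495)
 (.a 0 [330,462] (.q 427 (.a 1 [] (.d 331 1323 299 1355 459)
 (.a 1 [299] (.d 459 1355 331 1387 491)
 (.a 0 [331,459] (.q 460 (.a 1 [] (.d 361 2376 328 2409 493)
 (.a 1 [328] (.d 493 2409 361 2442 526)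
 (.a 0 [361,493] (.q 428 (.a 1 [] (.d 426 425 425 426 430)
 (.a 1 [425] (.d 430 426 426 427 431)
 (.a 1 [426] (.d 364 1356 332 1388 492)
 .e))))
 .e))))
 .e))))
 .e))))
 .e)))) (by decide +kernel)

theorem b2_1895 : S (PX [431,563] [299,398,497,530,629]) := S.of (.q 332 (.a 1 [] (.d 301 3342 270 3373 425)
 (.a 1 [270] (.d 425 3373 301 3404 456)
 (.a 0 [301,425] (.q 429 (.a 1 [] (.d 330 2345 297 2378 462)
 (.a 1 [297] (.d 462 2378 330 2411 495)
 (.a 0 [330,462] (.q 428 (.a 1 [] (.d 430 427 427 428 432)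
 (.a 1 [427] (.d 364 1324 300 1356 460)
 .e)))
 .e))))
 .e)))) (by decide +kernel)

theorem b2_1896 : S (PX [431,563] [332,398,497,530,629]) := S.of (.q 330 (.a 1 [] (.d 297 2312 264 2345 429)
 (.a 1 [264] (.d 429 2345 297 2378 462)
 (.a 0 [297,429] (.q 395 (.a 1 [] (.d 393 392 392 393 397)
 (.a 0 [392,393,397] (.q 427 (.a 1 [] (.d 331 1323 299 1355 459)
 (.a 1 [299] (.d 459 1355 331 1387 491)
 (.a 0 [331,459] (.q 365 (.a 1 [] (.d 334 3375 303 3406 458)
 (.a 1 [303] (.d 458 3406 334 3437 489)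
 (.a 1 [334] (.r 458 3437 489 (.r 362 1354 426 (.d 364 361 361 362 366)))
 (.a 0 [458] (.q 362 (.a 1 [] (.d 364 361 361 362 366)
 (.a 1 [361] (.d 298 1290 266 1322 426)
 .e)))
 .e)))))
 .e))))
 .e)))
 .e)))) (by decide +kernel)

theorem b2_1897 : S (PX [431,563] [365,398,497,530,629]) := S.of (.q 429 (.a 1 [] (.d 330 2345 297 2378 462)
 (.a 1 [297] (.d 462 2378 330 2411 495)
 (.a 0 [330,462] (.q 332 (.a 1 [] (.d 301 3342 270 3373 425)
 (.a 1 [270] (.d 425 3373 301 3404 456)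
 (.a 0 [301,425] (.q 428 (.a 1 [] (.d 430 427 427 428 432)
 (.a 1 [427] (.d 364 1324 300 1356 460)
 .e)))
 .e))))
 .e)))) (by decide +kernel)

theorem b2_1898 : S (PX [431,563] [398,400,497,530,629]) := S.of (.q 429 (.a 1 [] (.d 330 2345 297 2378 462)
 (.a 1 [297] (.d 462 2378 330 2411 495)
 (.a 0 [330,462] (.q 332 (.a 1 [] (.d 301 3342 270 3373 425)
 (.a 1 [270] (.d 425 3373 301 3404 456)
 (.a 0 [301,425] (.q 428 (.a 1 [] (.d 430 427 427 428 432)
 (.a 1 [427] (.d 364 1324 300 1356 460)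
 .e)))
 .e))))
 .e)))) (by decide +kernel)

theorem b2_1899 : S (PX [431,563] [398,457,497,530,629]) := S.of (.q 429 (.a 1 [] (.d 330 2345 297 2378 462)
 (.a 1 [297] (.d 462 2378 330 2411 495)
 (.a 0 [330,462] (.q 332 (.a 1 [] (.d 301 3342 270 3373 425)
 (.a 1 [270] (.d 425 3373 301 3404 456)
 (.a 0 [301,425] (.q 428 (.a 1 [] (.d 430 427 427 428 432)
 (.a 1 [427] (.d 364 1324 300 1356 460)
 .e)))
 .e))))
 .e)))) (by decide +kernel)

theorem b2_1913 : S (PX [431,563] [365,464,497,530,629]) := S.of (.q 395 (.a 1 [] (.d 393 392 392 393 397)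
 (.a 1 [392] (.d 397 393 393 394 398)
 (.a 0 [393,397] (.q 429 (.a 1 [] (.d 330 2345 297 2378 462)
 (.a 1 [297] (.d 462 2378 330 2411 495)
 (.a 0 [330,462] (.q 427 (.a 1 [] (.d 331 1323 299 1355 459)
 (.a 1 [299] (.d 459 1355 331 1387 491)
 (.a 1 [331] (.r 428 427 430 (.r 425 425 426 (.d 456 3404 332 3435 487)))
 .e))))
 .e))))
 .e)))) (by decide +kernel)

theorem b2_1932 : S (PX [528] [330,526,527,530]) := S.of (.q 395 (.a 1 [] (.d 393 392 392 393 397)
 (.a 1 [392] (.d 397 393 393 394 398)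
 (.a 0 [393,397] (.q 427 (.a 1 [] (.d 331 1323 299 1355 459)
 (.a 1 [299] (.d 459 1355 331 1387 491)
 (.a 0 [331,459] (.q 332 (.a 1 [] (.d 301 3342 270 3373 425)
 (.a 1 [270] (.d 425 3373 301 3404 456)
 (.a 0 [301,425] (.q 365 (.a 1 [] (.d 334 3375 303 3406 458)
 (.a 1 [303] (.d 458 3406 334 3437 489)
 (.a 0 [334,458] (.q 364 (.a 1 [] (.d 362 361 361 362 366)
 (.a 1 [361] (.d 366 362 362 363 367)
 (.a 1 [362] (.d 300 1292 268 1324 428)
 .e))))
 .e))))
 .e))))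
 .e))))
 .e)))) (by decide +kernel)

theorem b2_1933 : S (PX [528] [428,526,527,530]) := S.of (.q 395 (.a 1 [] (.d 393 392 392 393 397)
 (.a 1 [392] (.d 397 393 393 394 398)
 (.a 0 [393,397] (.q 330 (.a 1 [] (.d 297 2312 264 2345 429)
 (.a 1 [264] (.d 429 2345 297 2378 462)
 (.a 0 [297,429] (.q 426 (.a 1 [] (.d 362 1322 298 1354 458)
 (.a 0 [298,362,458] (.q 333 (.a 1 [] (.d 364 3374 302 3405 457)
 (.a 0 [302,364,457] (.q 331 (.a 1 [] (.d 332 329 329 330 334)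
 (.a 1 [329] (.d 427 1323 299 1355 459)
 .e)))
 .e)))
 .e)))
 .e))))
 .e)))) (by decide +kernel)

theorem b2_1934 : S (PX [524,528] [427,523,526,527,530]) := S.of (.q 395 (.a 1 [] (.d 393 392 392 393 397)
 (.a 1 [392] (.d 397 393 393 394 398)
 (.a 0 [393,397] (.q 330 (.a 1 [] (.d 297 2312 264 2345 429)
 (.a 1 [264] (.d 429 2345 297 2378 462)
 (.a 0 [297,429] (.q 362 (.a 1 [] (.d 298 1290 266 1322 426)
 (.a 1 [266] (.d 426 1322 298 1354 458)
 (.a 0 [298,426] (.q 428 (.a 1 [] (.d 329 2344 296 2377 461)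
 (.a 1 [296] (.d 461 2377 329 2410 494)
 (.a 1 [329] (.r 460 1420 492 (.r 364 1356 332 (.d 365 361 361 362 366)))
 .e))))
 .e))))
 .e))))
 .e)))) (by decide +kernel)

theorem b2_1941 : S (PX [524,528] [330,525,526,527,530]) := S.of (.q 395 (.a 1 [] (.d 393 392 392 393 397)
 (.a 1 [392] (.d 397 393 393 394 398)
 (.a 0 [393,397] (.q 332 (.a 1 [] (.d 301 3342 270 3373 425)
 (.a 1 [270] (.d 425 3373 301 3404 456)
 (.a 0 [301,425] (.q 299 (.a 1 [] (.d 331 1291 267 1323 427)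
 (.a 0 [267,331,427] (.q 365 (.a 1 [] (.d 266 2281 233 2314 398)
 (.a 1 [233] (.d 398 2314 266 2347 431)
 (.a 0 [266,398] (.q 364 (.a 1 [] (.d 362 361 361 362 366)
 (.a 1 [361] (.d 366 362 362 363 367)
 (.a 1 [362] (.d 300 1292 268 1324 428)
 .e))))
 .e))))
 .e)))
 .e))))
 .e)))) (by decide +kernel)

theorem b2_1942 : S (PX [524,528] [332,525,526,527,530]) := S.of (.q 330 (.a 1 [] (.d 297 2312 264 2345 429)
 (.a 1 [264] (.d 429 2345 297 2378 462)
 (.a 0 [297,429] (.q 362 (.a 1 [] (.d 298 1290 266 1322 426)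
 (.a 1 [266] (.d 426 1322 298 1354 458)
 (.a 0 [298,426] (.q 361 (.a 1 [] (.d 360 359 359 360 364)
 (.a 1 [359] (.d 364 360 360 361 365)
 (.a 0 [360,364] (.q 427 (.a 1 [] (.d 328 2343 295 2376 460)
 (.a 1 [295] (.d 460 2376 328 2409 493)
 (.a 0 [328,460] (.q 395 (.a 1 [] (.d 393 392 392 393 397)
 (.a 1 [392] (.d 397 393 393 394 398)
 (.a 1 [393] (.d 331 1323 299 1355 459)
 .e))))
 .e))))
 .e))))
 .e))))
 .e)))) (by decide +kernel)

theorem b2_1943 : S (PX [524,528] [397,525,526,527,530]) := S.of (.q 429 (.a 1 [] (.d 330 2345 297 2378 462)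
 (.a 1 [297] (.d 462 2378 330 2411 495)
 (.a 0 [330,462] (.q 332 (.a 1 [] (.d 301 3342 270 3373 425)
 (.a 1 [270] (.d 425 3373 301 3404 456)
 (.a 0 [301,425] (.q 460 (.a 1 [] (.d 428 1356 364 1420 492)
 (.a 0 [364,428,492] (.q 398 (.a 1 [] (.d 367 3408 336 3439 491)
 (.a 1 [336] (.d 491 3439 367 3470 522)
 (.a 0 [367,491] (.q 365 (.a 1 [] (.d 299 2314 266 2347 431)
 (.a 1 [266] (.d 431 2347 299 2380 464)
 (.a 0 [299,431] (.q 427 (.a 1 [] (.d 361 2376 328 2409 493)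
 (.a 1 [328] (.d 458 3406 334 3437 489)
 .e)))
 .e))))
 .e))))
 .e)))
 .e))))
 .e)))) (by decide +kernel)

theorem b2_1944 : S (PX [524,528] [425,525,526,527,530]) := S.of (.q 429 (.a 1 [] (.d 330 2345 297 2378 462)
 (.a 1 [297] (.d 462 2378 330 2411 495)
 (.a 0 [330,462] (.q 395 (.a 1 [] (.d 393 392 392 393 397)
 (.a 1 [392] (.d 397 393 393 394 398)
 (.a 0 [393] (.r 398 394 397 (.q 460 (.a 1 [] (.d 367 3408 336 3439 491)
 (.a 1 [336] (.d 491 3439 367 3470 522)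
 (.a 1 [367] (.r 428 1420 492 (.r 332 1356 364 (.r 491 3470 522 (.r 427 1387 459 (.r 426 426 430 (.d 361 2376 328 2409 493))))))
 (.a 0 [491] (.q 427 (.a 1 [] (.d 331 1323 299 1355 459)
 (.a 1 [299] (.d 361 2376 328 2409 493)
 .e)))
 .e))))))
 (.a 0 [397] (.q 427 (.a 1 [] (.d 331 1323 299 1355 459)
 (.a 1 [299] (.d 459 1355 331 1387 491)
 (.a 0 [331,459] (.q 460 (.a 1 [] (.d 361 2376 328 2409 493)
 (.a 1 [328] (.r 428 1420 492 (.d 430 426 426 427 431))
 .e)))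
 .e))))
 .e)))))
 .e)))) (by decide +kernel)

theorem b2_1945 : S (PX [524,528] [427,525,526,527,530]) := S.of (.q 425 (.a 1 [] (.d 332 3373 301 3404 456)
 (.a 1 [301] (.d 456 3404 332 3435 487)
 (.a 0 [332,456] (.q 330 (.a 1 [] (.d 297 2312 264 2345 429)
 (.a 1 [264] (.d 429 2345 297 2378 462)
 (.a 0 [297,429] (.q 393 (.a 1 [] (.d 395 392 392 393 397)
 (.a 1 [397] (.r 392 392 395 (.r 458 2440 491 (.r 362 1354 426 (.r 359 2374 326 (.r 361 359 360 (.d 423 3371 299 3402 454))))))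
 (.a 0 [392,395] (.q 361 (.a 1 [] (.d 457 1353 329 1385 489)
 (.a 0 [329,457,489] (.q 362 (.a 1 [] (.d 360 359 359 360 364)
 (.a 1 [359] (.d 364 360 360 361 365)
 (.a 1 [360] (.d 298 1290 266 1322 426)
 .e))))
 .e)))
 .e))))
 .e))))
 .e)))) (by decide +kernel)

theorem b2_1946 : S (PX [524,528] [428,525,526,527,530]) := S.of (.q 395 (.a 1 [] (.d 393 392 392 393 397)
 (.a 1 [392] (.d 397 393 393 394 398)
 (.a 0 [393,397] (.q 429 (.a 1 [] (.d 330 2345 297 2378 462)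
 (.a 1 [297] (.d 462 2378 330 2411 495)
 (.a 0 [330,462] (.q 425 (.a 1 [] (.d 332 3373 301 3404 456)
 (.a 1 [301] (.d 456 3404 332 3435 487)
 (.a 0 [332,456] (.q 491 (.a 1 [] (.d 458 2440 392 2473 557)
 (.a 1 [392] (.r 427 1387 459 (.r 458 2473 557 (.d 489 3437 365 3468 520)))
 (.a 1 [557] (.r 427 1387 459 (.r 458 2440 392 (.d 489 3437 365 3468 520)))
 (.a 0 [458] (.q 460 (.a 1 [] (.d 398 3439 367 3470 522)
 (.a 1 [367] (.d 522 3470 398 3501 553)
 (.a 1 [398] (.r 427 1387 459 (.d 361 2376 328 2409 493))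
 .e))))
 .e)))))
 .e))))
 .e))))
 .e)))) (by decide +kernel)

theorem b2_1947 : S (PX [524,528] [429,525,526,527,530]) := S.of (.q 332 (.a 1 [] (.d 301 3342 270 3373 425)
 (.a 1 [270] (.d 425 3373 301 3404 456)
 (.a 0 [301] (.q 364 (.a 1 [] (.d 300 1292 268 1324 428)
 (.a 1 [268] (.d 428 1324 300 1356 460)
 (.a 0 [300,428] (.q 365 (.a 1 [] (.d 362 361 361 362 366)
 (.a 1 [361] (.d 366 362 362 363 367)
 (.a 0 [362,366] (.q 458 (.a 1 [] (.d 427 3406 334 3437 489)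
 (.a 1 [334] (.r 425 3404 456 (.d 491 2440 392 2473 557))
 .e)))
 .e))))
 .e))))
 (.a 0 [425] (.q 428 (.a 1 [] (.d 364 1324 300 1356 460)
 (.a 1 [300] (.d 460 1356 364 1420 492)
 (.a 0 [364] (.r 460 1420 492 (.q 395 (.a 1 [] (.d 393 392 392 393 397)
 (.a 1 [392] (.d 397 393 393 394 398)
 (.a 0 [393] (.q 459 (.a 1 [] (.d 427 1355 331 1387 491)
 (.a 1 [331] (.r 397 394 398 (.d 490 3438 366 3469 521))
 .e)))
 (.a 0 [397] (.q 427 (.a 1 [] (.d 331 1323 299 1355 459)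
 (.a 1 [299] (.d 459 1355 331 1387 491)
 (.a 1 [331] (.d 361 2376 328 2409 493)
 (.a 1 [461] (.r 493 2409 361 (.d 331 1323 299 1355 459))
 (.a 0 [493] (.q 461 (.a 1 [] (.d 331 1323 299 1355 459)
 (.a 1 [299] (.d 459 1355 331 1387 491)
 (.a 1 [331] (.d 362 2377 329 2410 494)
 .e))))
 .e))))))
 .e))))))
 (.a 0 [460] (.r 364 1324 300 (.q 365 (.a 1 [] (.d 362 361 361 362 366)
 (.a 1 [361] (.d 366 362 362 363 367)
 (.a 0 [362,366] (.q 398 (.a 1 [] (.d 299 2314 266 2347 431)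
 (.a 1 [266] (.d 431 2347 299 2380 464)
 (.a 1 [431] (.r 395 394 397 (.r 299 2314 266 (.d 331 1291 267 1323 427)))
 (.a 0 [299] (.q 427 (.a 1 [] (.d 334 3375 303 3406 458)
 (.a 1 [303] (.d 458 3406 334 3437 489)
 (.a 1 [334] (.r 395 394 397 (.d 459 1355 331 1387 491))
 .e))))
 .e)))))
 .e)))))
 .e)))))
 .e))))) (by decide +kernel)

theorem b2_1948 : S (PX [524,528] [461,525,526,527,530]) := S.of (.q 429 (.a 1 [] (.d 330 2345 297 2378 462)
 (.a 1 [297] (.d 462 2378 330 2411 495)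
 (.a 0 [330,462] (.q 395 (.a 1 [] (.d 393 392 392 393 397)
 (.a 1 [392] (.d 397 393 393 394 398)
 (.a 0 [393,397] (.q 425 (.a 1 [] (.d 332 3373 301 3404 456)
 (.a 1 [301] (.d 456 3404 332 3435 487)
 (.a 0 [332,456] (.q 427 (.a 1 [] (.d 331 1323 299 1355 459)
 (.a 1 [299] (.d 459 1355 331 1387 491)
 (.a 1 [331] (.r 491 1387 459 (.d 458 2440 392 2473 557))
 (.a 0 [459] (.q 460 (.a 1 [] (.d 428 425 426 1420 492)
 (.a 1 [426] (.r 492 1420 428 (.d 361 2376 328 2409 493))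
 (.a 1 [428] (.d 361 2376 328 2409 493)
 (.a 1 [492] (.r 426 425 428 (.d 361 2376 328 2409 493))
 .e)))))
 .e)))))
 .e))))
 .e))))
 .e)))) (by decide +kernel)

theorem b2_2047 : S (PX [529] [428,527,528,530]) := S.of (.q 395 (.a 1 [] (.d 393 392 392 393 397)
 (.a 1 [392] (.d 397 393 393 394 398)
 (.a 0 [393,397] (.q 330 (.a 1 [] (.d 297 2312 264 2345 429)
 (.a 1 [264] (.d 429 2345 297 2378 462)
 (.a 0 [297,429] (.q 426 (.a 1 [] (.d 362 1322 298 1354 458)
 (.a 0 [298,362,458] (.q 333 (.a 1 [] (.d 364 3374 302 3405 457)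
 (.a 0 [302,364,457] (.q 331 (.a 1 [] (.d 332 329 329 330 334)
 (.a 1 [329] (.d 427 1323 299 1355 459)
 .e)))
 .e)))
 .e)))
 .e))))
 .e)))) (by decide +kernel)

theorem b6_1157 : S (PX [] [264,395,530]) := S.of (.q 332 (.a 1 [] (.d 301 3342 270 3373 425)
 (.a 1 [270] (.d 425 3373 301 3404 456)
 (.a 0 [301,425] (.q 364 (.a 1 [] (.d 300 1292 268 1324 428)
 (.a 1 [268] (.d 428 1324 300 1356 460)
 (.a 0 [300,428] (.q 362 (.a 1 [] (.d 361 360 360 361 365)
 (.a 1 [360] (.d 365 361 361 362 366)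
 (.a 0 [361,365] (.q 330 (.a 1 [] (.d 298 1290 266 1322 426)
 (.a 1 [266] (.d 426 1322 298 1354 458)
 (.a 1 [298] (.d 429 2345 297 2378 462)
 .e))))
 .e))))
 .e))))
 .e)))) (by decide +kernel)

theorem b6_1163 : S (PX [] [298,395,530]) := S.of (.q 429 (.a 1 [] (.d 330 2345 297 2378 462)
 (.a 1 [297] (.d 462 2378 330 2411 495)
 (.a 0 [330,462] (.q 332 (.a 1 [] (.d 301 3342 270 3373 425)
 (.a 1 [270] (.d 425 3373 301 3404 456)
 (.a 0 [301] (.r 425 3404 456 (.q 427 (.a 1 [] (.r 428 425 426 (.d 364 1324 300 1356 460))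
 (.a 1 [300] (.r 428 425 426 (.r 460 1356 364 (.d 493 2409 361 2442 526)))
 (.a 0 [364] (.q 458 (.a 1 [] (.d 365 3406 334 3437 489)
 (.a 1 [334] (.d 489 3437 365 3468 520)
 (.a 1 [365] (.r 426 425 428 (.d 490 1386 362 1418 522))
 .e))))
 (.a 0 [426] (.q 364 (.a 1 [] (.d 300 1292 268 1324 428)
 (.a 1 [268] (.d 428 1324 300 1356 460)
 (.a 1 [300] (.r 460 1356 428 (.d 493 2409 361 2442 526))
 (.a 0 [428] (.q 365 (.a 1 [] (.d 362 361 361 362 366)
 (.a 1 [361] (.d 366 362 362 363 367)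
 (.a 1 [362] (.d 334 3375 303 3406 458)
 .e))))
 .e)))))
 (.a 0 [428] (.q 365 (.a 1 [] (.d 334 3375 303 3406 458)
 (.a 1 [303] (.d 458 3406 334 3437 489)
 (.a 0 [334,458] (.q 460 (.a 1 [] (.d 361 2376 328 2409 493)
 (.a 1 [328] (.d 493 2409 361 2442 526)
 (.a 1 [493] (.r 361 2376 328 (.r 364 361 362 (.r 367 363 366 (.d 398 3408 336 3439 491))))
 (.a 0 [361] (.q 398 (.a 1 [] (.d 299 2314 266 2347 431)
 (.a 1 [266] (.d 431 2347 299 2380 464)
 (.a 1 [299] (.d 367 3408 336 3439 491)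
 .e))))
 .e)))))
 .e))))
 (.a 0 [460] (.q 458 (.a 1 [] (.d 365 3406 334 3437 489)
 (.a 1 [334] (.d 489 3437 365 3468 520)
 (.a 1 [365] (.r 426 425 428 (.d 490 1386 362 1418 522))
 .e))))
 .e))))))))
 (.a 0 [425] (.q 364 (.a 1 [] (.d 300 1292 268 1324 428)
 (.a 1 [268] (.d 428 1324 300 1356 460)
 (.a 0 [300] (.q 361 (.a 1 [] (.d 362 360 360 361 365)
 (.a 1 [360] (.r 460 1356 428 (.d 427 2376 328 2409 493))
 .e)))
 (.a 0 [428] (.r 301 3342 270 (.q 367 (.a 1 [] (.r 365 363 366 (.r 268 1292 300 (.d 334 2283 235 2316 400)))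
 (.a 1 [235] (.r 365 363 366 (.r 397 1325 333 (.r 268 1292 300 (.r 334 2316 400 (.d 427 3375 303 3406 458)))))
 (.a 1 [365] (.r 268 1292 300 (.d 334 2283 235 2316 400))
 (.a 1 [400] (.r 365 363 366 (.r 397 1325 333 (.r 268 1292 300 (.r 334 2283 235 (.d 427 3375 303 3406 458)))))
 (.a 0 [268,300,334] (.q 398 (.a 1 [] (.d 336 3377 305 3408 460)
 (.a 1 [305] (.d 460 3408 336 3439 491)
 (.a 1 [336] (.r 365 363 366 (.d 431 2347 299 2380 464))
 .e))))
 .e)))))))
 .e)))))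
 .e)))))
 .e)))) (by decide +kernel)

theorem b6_1164 : S (PX [] [299,395,530]) := S.of (.q 330 (.a 1 [] (.d 297 2312 264 2345 429)
 (.a 0 [297] (.q 425 (.a 1 [] (.d 332 3373 301 3404 456)
 (.a 1 [332] (.r 429 2378 462 (.q 426 (.a 1 [] (.d 362 1322 298 1354 458)
 (.a 1 [362] (.q 423 (.a 1 [] (.d 427 423 424 425 428)
 (.a 1 [428] (.d 424 422 422 423 427)
 (.a 0 [424,427] (.q 522 (.a 1 [] (.r 456 3435 487 (.d 489 2438 390 2471 555))
 (.a 0 [390,456,487,489,555] (.q 491 (.a 1 [] (.d 460 3470 398 3501 553)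
 (.a 1 [398] (.r 458 1418 490 (.d 524 2440 392 2473 557))
 .e)))
 .e)))
 .e))))
 (.a 1 [458] (.r 427 425 428 (.q 361 (.a 1 [] (.d 328 2343 295 2376 460)
 (.a 1 [295] (.d 460 2376 328 2409 493)
 (.a 1 [328] (.r 362 1322 298 (.d 364 360 360 361 365))
 .e)))))
 (.a 1 [298] (.r 427 425 428 (.r 458 1354 362 (.d 489 3437 365 3468 520)))
 .e))))))
 (.a 1 [456] (.q 426 (.a 1 [] (.d 362 1322 298 1354 458)
 (.a 1 [298] (.r 458 1354 362 (.r 429 2378 462 (.r 427 425 428 (.d 489 3437 365 3468 520))))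
 (.a 0 [362,458] (.q 428 (.a 1 [] (.d 429 425 427 2378 462)
 (.a 1 [427] (.r 332 3373 301 (.d 364 1324 300 1356 460))
 .e)))
 .e))))
 (.a 1 [301] (.d 456 3404 332 3435 487)
 .e)))))
 (.a 1 [429] (.q 362 (.a 1 [] (.d 298 1290 266 1322 426)
 (.a 1 [266] (.d 426 1322 298 1354 458)
 (.a 0 [298,426] (.q 364 (.a 1 [] (.d 361 360 360 361 365)
 (.a 1 [360] (.d 365 361 361 362 366)
 (.a 0 [361,365] (.q 332 (.a 1 [] (.d 300 1292 268 1324 428)
 (.a 1 [268] (.d 428 1324 300 1356 460)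
 (.a 1 [300] (.d 301 3342 270 3373 425)
 .e))))
 .e))))
 .e))))
 .e)))) (by decide +kernel)

theorem b6_1172 : S (PX [] [294,298,530]) := S.of (.q 332 (.a 1 [] (.d 301 3342 270 3373 425)
 (.a 1 [270] (.d 425 3373 301 3404 456)
 (.a 0 [301,425] (.q 429 (.a 1 [] (.d 330 2345 297 2378 462)
 (.a 1 [297] (.d 462 2378 330 2411 495)
 (.a 0 [330,462] (.q 397 (.a 1 [] (.d 395 393 393 394 398)
 (.a 0 [393,395,398] (.q 365 (.a 1 [] (.d 461 1357 333 1389 493)
 (.a 0 [333,461,493] (.q 364 (.a 1 [] (.d 362 361 361 362 366)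
 (.a 1 [361] (.d 366 362 362 363 367)
 (.a 1 [362] (.d 300 1292 268 1324 428)
 .e))))
 .e)))
 .e)))
 .e))))
 .e)))) (by decide +kernel)

theorem b6_1173 : S (PX [] [295,298,530]) := S.of (.q 332 (.a 1 [] (.d 301 3342 270 3373 425)
 (.a 1 [270] (.d 425 3373 301 3404 456)
 (.a 0 [301,425] (.q 429 (.a 1 [] (.d 330 2345 297 2378 462)
 (.a 1 [297] (.d 462 2378 330 2411 495)
 (.a 0 [330,462] (.q 397 (.a 1 [] (.d 395 393 393 394 398)
 (.a 0 [393,395,398] (.q 365 (.a 1 [] (.d 461 1357 333 1389 493)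
 (.a 0 [333,461,493] (.q 364 (.a 1 [] (.d 362 361 361 362 366)
 (.a 1 [361] (.d 366 362 362 363 367)
 (.a 1 [362] (.d 300 1292 268 1324 428)
 .e))))
 .e)))
 .e)))
 .e))))
 .e)))) (by decide +kernel)

theorem b6_1174 : S (PX [] [296,298,530]) := S.of (.q 332 (.a 1 [] (.d 301 3342 270 3373 425)
 (.a 1 [270] (.d 425 3373 301 3404 456)
 (.a 0 [301,425] (.q 429 (.a 1 [] (.d 330 2345 297 2378 462)
 (.a 1 [297] (.d 462 2378 330 2411 495)
 (.a 0 [330,462] (.q 397 (.a 1 [] (.d 395 393 393 394 398)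
 (.a 0 [393,395,398] (.q 365 (.a 1 [] (.d 461 1357 333 1389 493)
 (.a 0 [333,461,493] (.q 364 (.a 1 [] (.d 362 361 361 362 366)
 (.a 1 [361] (.d 366 362 362 363 367)
 (.a 1 [362] (.d 300 1292 268 1324 428)
 .e))))
 .e)))
 .e)))
 .e))))
 .e)))) (by decide +kernel)

theorem b6_1175 : S (PX [] [297,298,530]) := S.of (.q 397 (.a 1 [] (.d 395 393 393 394 398)
 (.a 0 [393,395,398] (.q 429 (.a 1 [] (.d 462 2378 330 2411 495)
 (.a 0 [330,462,495] (.q 365 (.a 1 [] (.d 333 1325 301 1357 461)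
 (.a 1 [301] (.d 461 1357 333 1389 493)
 (.a 1 [461] (.r 301 1325 333 (.d 332 3342 270 3373 425))
 (.a 0 [333] (.q 427 (.a 1 [] (.d 334 3375 303 3406 458)
 (.a 1 [303] (.d 458 3406 334 3437 489)
 (.a 1 [334] (.r 493 1389 461 (.d 460 2409 361 2442 526))
 .e))))
 .e)))))
 .e)))
 .e))) (by decide +kernel)

theorem b6_1176 : S (PX [] [298,299,530]) := S.of (.q 429 (.a 1 [] (.d 330 2345 297 2378 462)
 (.a 1 [297] (.d 462 2378 330 2411 495)
 (.a 0 [330,462] (.q 397 (.a 1 [] (.d 395 393 393 394 398)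
 (.a 0 [393,395,398] (.q 365 (.a 1 [] (.d 333 1325 301 1357 461)
 (.a 1 [301] (.d 461 1357 333 1389 493)
 (.a 1 [461] (.r 301 1325 333 (.d 332 3342 270 3373 425))
 (.a 0 [333] (.q 427 (.a 1 [] (.d 334 3375 303 3406 458)
 (.a 1 [303] (.d 458 3406 334 3437 489)
 (.a 1 [334] (.r 493 1389 461 (.d 460 2409 361 2442 526))
 .e))))
 .e)))))
 .e)))
 .e)))) (by decide +kernel)

theorem b6_1177 : S (PX [] [298,300,530]) := S.of (.q 429 (.a 1 [] (.d 330 2345 297 2378 462)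
 (.a 1 [297] (.d 462 2378 330 2411 495)
 (.a 0 [330,462] (.q 397 (.a 1 [] (.d 395 393 393 394 398)
 (.a 0 [393,395,398] (.q 365 (.a 1 [] (.d 333 1325 301 1357 461)
 (.a 1 [301] (.d 461 1357 333 1389 493)
 (.a 1 [461] (.r 301 1325 333 (.d 332 3342 270 3373 425))
 (.a 0 [333] (.q 427 (.a 1 [] (.d 334 3375 303 3406 458)
 (.a 1 [303] (.d 458 3406 334 3437 489)
 (.a 1 [334] (.r 493 1389 461 (.d 460 2409 361 2442 526))
 .e))))
 .e)))))
 .e)))
 .e)))) (by decide +kernel)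

theorem b6_1178 : S (PX [] [298,301,530]) := S.of (.q 393 (.a 1 [] (.d 395 392 392 393 397)
 (.a 0 [392,395,397] (.q 425 (.a 1 [] (.d 456 3404 332 3435 487)
 (.a 0 [332,456,487] (.q 361 (.a 1 [] (.d 329 1321 297 1353 457)
 (.a 1 [297] (.d 457 1353 329 1385 489)
 (.a 1 [457] (.r 297 1321 329 (.d 330 2312 264 2345 429))
 (.a 0 [329] (.q 427 (.a 1 [] (.d 328 2343 295 2376 460)
 (.a 1 [295] (.d 460 2376 328 2409 493)
 (.a 1 [328] (.r 489 1385 457 (.d 458 3437 365 3468 520))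
 .e))))
 .e)))))
 .e)))
 .e))) (by decide +kernel)

theorem b6_1179 : S (PX [] [298,302,530]) := S.of (.q 425 (.a 1 [] (.d 332 3373 301 3404 456)
 (.a 1 [301] (.d 456 3404 332 3435 487)
 (.a 0 [332,456] (.q 393 (.a 1 [] (.d 395 392 392 393 397)
 (.a 0 [392,395,397] (.q 361 (.a 1 [] (.d 329 1321 297 1353 457)
 (.a 1 [297] (.d 457 1353 329 1385 489)
 (.a 1 [457] (.r 297 1321 329 (.d 330 2312 264 2345 429))
 (.a 0 [329] (.q 427 (.a 1 [] (.d 328 2343 295 2376 460)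
 (.a 1 [295] (.d 460 2376 328 2409 493)
 (.a 1 [328] (.r 489 1385 457 (.d 458 3437 365 3468 520))
 .e))))
 .e)))))
 .e)))
 .e)))) (by decide +kernel)

theorem b6_1180 : S (PX [] [298,330,530]) := S.of (.q 395 (.a 1 [] (.d 393 392 392 393 397)
 (.a 1 [392] (.d 397 393 393 394 398)
 (.a 0 [393,397] (.q 332 (.a 1 [] (.d 301 3342 270 3373 425)
 (.a 1 [270] (.d 425 3373 301 3404 456)
 (.a 0 [301,425] (.q 427 (.a 1 [] (.d 331 1323 299 1355 459)
 (.a 1 [299] (.d 459 1355 331 1387 491)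
 (.a 0 [331] (.q 364 (.a 1 [] (.d 300 1292 268 1324 428)
 (.a 1 [268] (.d 428 1324 300 1356 460)
 (.a 1 [300] (.r 460 1356 428 (.d 493 2409 361 2442 526))
 (.a 0 [428] (.q 365 (.a 1 [] (.d 362 361 361 362 366)
 (.a 1 [361] (.d 366 362 362 363 367)
 (.a 1 [362] (.d 334 3375 303 3406 458)
 .e))))
 .e)))))
 (.a 0 [459] (.q 365 (.a 1 [] (.d 334 3375 303 3406 458)
 (.a 1 [303] (.d 458 3406 334 3437 489)
 (.a 1 [334] (.r 299 1323 331 (.d 398 2314 266 2347 431))
 .e))))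
 .e)))))
 .e))))
 .e)))) (by decide +kernel)

theorem b6_1181 : S (PX [] [298,331,530]) := S.of (.q 332 (.a 1 [] (.d 301 3342 270 3373 425)
 (.a 1 [270] (.d 425 3373 301 3404 456)
 (.a 0 [301,425] (.q 397 (.a 1 [] (.d 395 393 393 394 398)
 (.a 0 [393,395,398] (.q 429 (.a 1 [] (.d 330 2345 297 2378 462)
 (.a 1 [297] (.d 462 2378 330 2411 495)
 (.a 0 [330,462] (.q 365 (.a 1 [] (.d 461 1357 333 1389 493)
 (.a 0 [333,461,493] (.q 364 (.a 1 [] (.d 362 361 361 362 366)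
 (.a 1 [361] (.d 366 362 362 363 367)
 (.a 1 [362] (.d 300 1292 268 1324 428)
 .e))))
 .e)))
 .e))))
 .e)))
 .e)))) (by decide +kernel)

theorem b6_1182 : S (PX [] [298,332,530]) := S.of (.q 395 (.a 1 [] (.d 393 392 392 393 397)
 (.a 1 [392] (.d 397 393 393 394 398)
 (.a 0 [393] (.q 427 (.a 1 [] (.d 331 1323 299 1355 459)
 (.a 1 [299] (.d 459 1355 331 1387 491)
 (.a 0 [331,459] (.q 330 (.a 1 [] (.d 297 2312 264 2345 429)
 (.a 1 [264] (.d 429 2345 297 2378 462)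
 (.a 0 [297,429] (.q 361 (.a 1 [] (.d 328 2343 295 2376 460)
 (.a 1 [295] (.d 460 2376 328 2409 493)
 (.a 0 [328,460] (.q 362 (.a 1 [] (.d 360 359 359 360 364)
 (.a 1 [359] (.d 364 360 360 361 365)
 (.a 1 [360] (.r 365 361 364 (.d 458 1354 426 3437 489))
 (.a 1 [364] (.r 458 1354 426 (.d 489 3437 365 3468 520))
 .e)))))
 .e))))
 .e))))
 .e))))
 (.a 0 [397] (.q 330 (.a 1 [] (.d 297 2312 264 2345 429)
 (.a 1 [264] (.d 429 2345 297 2378 462)
 (.a 0 [297,429] (.q 299 (.a 1 [] (.d 331 1291 267 1323 427)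
 (.a 1 [267] (.r 427 1323 331 (.r 392 392 393 (.d 361 3340 268 3371 423)))
 (.a 1 [331] (.r 392 392 393 (.d 361 3340 268 3371 423))
 .e))))
 .e))))
 .e))))) (by decide +kernel)

theorem b6_1183 : S (PX [] [298,361,530]) := S.of (.q 395 (.a 1 [] (.d 393 392 392 393 397)
 (.a 1 [392] (.d 397 393 393 394 398)
 (.a 0 [393] (.q 425 (.a 1 [] (.d 332 3373 301 3404 456)
 (.a 1 [301] (.d 456 3404 332 3435 487)
 (.a 0 [332,456] (.q 427 (.a 1 [] (.d 331 1323 299 1355 459)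
 (.a 1 [299] (.d 459 1355 331 1387 491)
 (.a 0 [331,459] (.q 426 (.a 1 [] (.d 424 423 423 424 428)
 (.a 1 [423] (.d 428 424 424 425 429)
 (.a 1 [424] (.r 429 425 428 (.d 462 2378 330 2411 495))
 (.a 0 [428] (.q 458 (.a 1 [] (.d 362 1354 330 1386 490)
 (.a 1 [330] (.d 489 3437 365 3468 520)
 .e)))
 .e)))))
 .e))))
 .e))))
 (.a 0 [397] (.q 331 (.a 1 [] (.d 299 1291 267 1323 427)
 (.a 1 [267] (.d 427 1323 299 1355 459)
 (.a 0 [299,427] (.q 332 (.a 1 [] (.d 301 3342 270 3373 425)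
 (.a 1 [270] (.d 425 3373 301 3404 456)
 (.a 0 [301,425] (.q 300 (.a 1 [] (.d 364 1292 268 1324 428)
 (.a 1 [364] (.r 393 392 392 (.d 362 3341 269 3372 424))
 (.a 0 [268] (.q 330 (.a 1 [] (.d 329 328 328 329 333)
 (.a 1 [328] (.d 333 329 329 330 334)
 (.a 1 [329] (.d 297 2312 264 2345 429)
 .e))))
 .e))))
 .e))))
 .e))))
 .e))))) (by decide +kernel)

theorem b6_1184 : S (PX [] [298,362,530]) := S.of (.q 395 (.a 1 [] (.d 393 392 392 393 397)
 (.a 1 [392] (.d 397 393 393 394 398)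
 (.a 0 [393,397] (.q 331 (.a 1 [] (.d 299 1291 267 1323 427)
 (.a 1 [267] (.d 427 1323 299 1355 459)
 (.a 0 [299,427] (.q 332 (.a 1 [] (.d 301 3342 270 3373 425)
 (.a 1 [270] (.d 425 3373 301 3404 456)
 (.a 0 [301] (.q 300 (.a 1 [] (.d 364 1292 268 1324 428)
 (.a 0 [268,364,428] (.q 330 (.a 1 [] (.d 329 328 328 329 333)
 (.a 1 [328] (.d 333 329 329 330 334)
 (.a 1 [329] (.d 297 2312 264 2345 429)
 .e))))
 .e)))
 (.a 0 [425] (.q 330 (.a 1 [] (.d 329 328 328 329 333)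
 (.a 1 [328] (.d 333 329 329 330 334)
 (.a 1 [329] (.d 297 2312 264 2345 429)
 .e))))
 .e)))))
 .e))))
 .e)))) (by decide +kernel)

theorem b6_1185 : S (PX [] [298,364,530]) := S.of (.q 395 (.a 1 [] (.d 393 392 392 393 397)
 (.a 1 [392] (.d 397 393 393 394 398)
 (.a 0 [393,397] (.q 331 (.a 1 [] (.d 299 1291 267 1323 427)
 (.a 1 [267] (.d 427 1323 299 1355 459)
 (.a 0 [299] (.r 427 1355 459 (.q 429 (.a 1 [] (.d 330 2345 297 2378 462)
 (.a 1 [297] (.d 462 2378 330 2411 495)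
 (.a 0 [330,462] (.q 425 (.a 1 [] (.d 332 3373 301 3404 456)
 (.a 1 [301] (.d 456 3404 332 3435 487)
 (.a 0 [332,456] (.q 458 (.a 1 [] (.d 365 3406 334 3437 489)
 (.a 1 [334] (.d 489 3437 365 3468 520)
 (.a 1 [365] (.r 426 425 428 (.d 490 1386 362 1418 522))
 .e))))
 .e))))
 .e)))))
 (.a 0 [427] (.q 330 (.a 1 [] (.d 297 2312 264 2345 429)
 (.a 1 [264] (.d 429 2345 297 2378 462)
 (.a 0 [297,429] (.q 332 (.a 1 [] (.d 329 328 328 329 333)
 (.a 1 [328] (.d 333 329 329 330 334)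
 (.a 1 [329] (.d 301 3342 270 3373 425)
 .e))))
 .e))))
 .e)))))
 .e)))) (by decide +kernel)

theorem b6_1186 : S (PX [] [298,365,530]) := S.of (.q 395 (.a 1 [] (.d 393 392 392 393 397)
 (.a 1 [392] (.d 397 393 393 394 398)
 (.a 0 [393,397] (.q 331 (.a 1 [] (.d 299 1291 267 1323 427)
 (.a 1 [267] (.d 427 1323 299 1355 459)
 (.a 0 [299] (.r 427 1355 459 (.q 429 (.a 1 [] (.d 330 2345 297 2378 462)
 (.a 1 [297] (.d 462 2378 330 2411 495)
 (.a 0 [330,462] (.q 332 (.a 1 [] (.d 301 3342 270 3373 425)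
 (.a 1 [270] (.d 425 3373 301 3404 456)
 (.a 1 [301] (.r 425 3404 456 (.r 428 425 426 (.d 364 1324 300 1356 460)))
 (.a 0 [425] (.q 428 (.a 1 [] (.d 430 426 426 427 431)
 (.a 1 [426] (.d 364 1324 300 1356 460)
 .e)))
 .e)))))
 .e)))))
 (.a 0 [427] (.q 332 (.a 1 [] (.d 301 3342 270 3373 425)
 (.a 1 [270] (.d 425 3373 301 3404 456)
 (.a 0 [301,425] (.q 333 (.a 1 [] (.d 330 329 329 330 334)
 (.a 1 [329] (.d 334 330 330 331 335)
 (.a 1 [334] (.r 330 329 329 (.d 429 2345 297 2378 462))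
 (.a 0 [330] (.q 364 (.a 1 [] (.d 300 1292 268 1324 428)
 (.a 1 [268] (.d 428 1324 300 1356 460)
 (.a 1 [300] (.d 302 3343 271 3374 426)
 .e))))
 .e)))))
 .e))))
 .e)))))
 .e)))) (by decide +kernel)

theorem b6_1187 : S (PX [] [298,393,530]) := S.of (.q 332 (.a 1 [] (.d 301 3342 270 3373 425)
 (.a 1 [270] (.d 425 3373 301 3404 456)
 (.a 0 [301] (.q 429 (.a 1 [] (.d 330 2345 297 2378 462)
 (.a 1 [297] (.d 462 2378 330 2411 495)
 (.a 0 [330,462] (.q 428 (.a 1 [] (.d 364 1324 300 1356 460)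
 (.a 1 [300] (.r 460 1356 364 (.r 425 3404 456 (.r 427 425 426 (.d 493 2409 361 2442 526))))
 (.a 0 [364,460] (.q 427 (.a 1 [] (.d 425 425 426 3404 456)
 (.a 1 [425] (.d 430 426 426 427 431)
 (.a 0 [426] (.q 365 (.a 1 [] (.d 334 3375 303 3406 458)
 (.a 1 [303] (.d 458 3406 334 3437 489)
 (.a 1 [334] (.r 431 427 430 (.d 398 2347 299 2380 464))
 .e))))
 .e))))
 .e))))
 .e))))
 (.a 0 [425] (.q 364 (.a 1 [] (.d 300 1292 268 1324 428)
 (.a 1 [268] (.d 428 1324 300 1356 460)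
 (.a 0 [300,428] (.q 429 (.a 1 [] (.d 330 2345 297 2378 462)
 (.a 1 [297] (.d 462 2378 330 2411 495)
 (.a 0 [330,462] (.q 365 (.a 1 [] (.d 362 361 361 362 366)
 (.a 1 [361] (.d 366 362 362 363 367)
 (.a 1 [362] (.r 301 3342 270 (.r 397 1325 333 (.r 398 394 395 (.d 431 2347 299 2380 464))))
 .e))))
 .e))))
 .e))))
 .e))))) (by decide +kernel)

theorem b6_1188 : S (PX [] [298,397,530]) := S.of (.q 332 (.a 1 [] (.d 301 3342 270 3373 425)
 (.a 0 [301] (.q 429 (.a 1 [] (.d 330 2345 297 2378 462)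
 (.a 0 [330] (.r 425 3404 456 (.q 428 (.a 1 [] (.d 364 1324 300 1356 460)
 (.a 0 [364] (.q 430 (.a 1 [] (.d 427 425 426 427 431)
 (.a 1 [427] (.r 431 428 432 (.r 462 2411 495 (.q 398 (.a 1 [] (.d 366 1358 334 1390 494)
 (.a 1 [331] (.q 265 (.a 1 [] (.d 366 1358 334 1390 494)
 (.a 1 [494] (.d 365 2347 299 2380 464)
 .e)))
 (.a 1 [265] (.q 331 (.a 1 [] (.d 366 1358 334 1390 494)
 (.a 1 [494] (.d 365 2347 299 2380 464)
 .e)))
 (.a 1 [494] (.d 365 2347 299 2380 464)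
 .e)))))))
 (.a 0 [431] (.r 462 2411 495 (.r 427 425 426 (.q 395 (.a 1 [] (.d 331 1323 299 1355 459)
 (.a 1 [331] (.q 265 (.a 1 [] (.q 460 (.a 1 [] (.d 361 2376 328 2409 493)
 (.a 1 [328] (.d 493 2409 361 2442 526)
 (.a 1 [361] (.r 491 1387 459 (.d 522 3470 398 3501 553))
 .e))))
 (.a 1 [393] (.q 460 (.a 1 [] (.d 361 2376 328 2409 493)
 (.a 1 [328] (.d 493 2409 361 2442 526)
 (.a 1 [361] (.r 491 1387 459 (.d 522 3470 398 3501 553))
 .e))))
 (.a 1 [392] (.q 460 (.a 1 [] (.d 361 2376 328 2409 493)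
 (.a 1 [328] (.d 493 2409 361 2442 526)
 (.a 1 [361] (.r 491 1387 459 (.d 522 3470 398 3501 553))
 .e))))
 (.a 1 [491] (.q 494 (.a 1 [] (.d 398 1390 366 1422 526)
 (.a 1 [366] (.d 526 1422 398 1454 558)
 (.a 1 [398] (.d 461 2410 362 2443 527)
 .e))))
 (.a 1 [329] (.q 328 (.a 1 [] (.d 361 2343 295 2376 460)
 (.a 1 [295] (.r 460 2376 361 (.r 491 1387 459 (.d 522 3470 398 3501 553)))
 (.a 0 [361,460] (.q 494 (.a 1 [] (.d 398 1390 366 1422 526)
 (.a 1 [366] (.d 526 1422 398 1454 558)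
 (.a 1 [398] (.d 461 2410 362 2443 527)
 .e))))
 .e))))
 (.a 1 [526] (.q 461 (.a 1 [] (.d 362 2377 329 2410 494)
 (.a 1 [329] (.d 494 2410 362 2443 527)
 (.a 1 [362] (.r 459 1387 491 (.d 460 458 458 459 463))
 .e))))
 (.a 1 [328] (.q 329 (.a 1 [] (.d 362 2344 296 2377 461)
 (.a 1 [296] (.r 393 392 392 (.d 361 1289 297 1353 457))
 .e)))
 (.a 1 [463] (.r 392 392 393 (.r 491 1387 459 (.d 458 2407 359 2440 524)))
 (.a 1 [527] (.r 393 392 392 (.r 459 1387 491 (.q 463 (.a 1 [] (.r 460 459 461 (.d 493 2409 361 2442 526))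
 (.a 1 [361] (.r 461 459 460 (.d 362 2377 329 2410 494))
 (.a 0 [460,461] (.q 489 (.a 1 [] (.d 457 1385 361 1417 521)
 (.a 1 [361] (.d 458 3437 365 3468 520)
 .e)))
 .e))))))
 (.a 1 [399] (.r 393 392 392 (.r 459 1387 491 (.q 463 (.a 1 [] (.r 460 459 461 (.d 493 2409 361 2442 526))
 (.a 1 [361] (.r 461 459 460 (.d 494 2410 362 2443 527))
 (.a 0 [460,461] (.q 489 (.a 1 [] (.d 457 1385 361 1417 521)
 (.a 1 [361] (.d 458 3437 365 3468 520)
 .e)))
 .e))))))
 .e)))))))))))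
 (.a 1 [459] (.r 393 392 392 (.q 361 (.a 1 [] (.d 329 1321 297 1353 457)
 (.a 1 [265] (.r 331 1323 299 (.d 329 1321 297 1353 457))
 (.a 1 [297] (.d 328 2343 295 2376 460)
 (.a 0 [331] (.q 265 (.a 1 [] (.d 460 2376 328 2409 493)
 (.a 1 [328] (.d 329 1289 297 1353 457)
 .e)))
 .e))))))
 (.a 1 [299] (.d 459 1355 331 1387 491)
 .e)))))))
 (.a 1 [331] (.q 265 (.a 1 [] (.d 427 425 426 427 431)
 (.a 1 [427] (.r 462 2411 495 (.q 398 (.a 1 [] (.d 366 1358 334 1390 494)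
 (.a 1 [334] (.d 494 1390 366 1422 526)
 (.a 1 [366] (.r 431 428 432 (.d 365 2347 299 2380 464))
 .e)))))
 (.a 1 [431] (.q 460 (.a 1 [] (.r 427 425 426 (.d 493 2409 361 2442 526))
 (.a 1 [526] (.r 427 425 426 (.d 361 2376 328 2409 493))
 (.a 0 [361,426,427,493] (.q 398 (.a 1 [] (.d 367 3408 336 3439 491)
 (.a 1 [336] (.d 491 3439 367 3470 522)
 (.a 1 [367] (.r 462 2411 495 (.d 494 1390 366 1422 526))
 .e))))
 .e))))
 .e))))
 (.a 1 [265] (.q 331 (.a 1 [] (.d 427 425 426 427 431)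
 (.a 1 [427] (.q 299 (.a 1 [] (.d 267 1259 235 1291 395)
 (.a 0 [235,267,395] (.q 398 (.a 1 [] (.d 431 2347 365 428 432)
 (.a 1 [365] (.r 462 2411 495 (.d 494 1390 366 1422 526))
 .e)))
 .e)))
 (.a 1 [426] (.d 431 427 427 428 432)
 (.a 1 [431] (.r 427 425 426 (.d 395 1323 299 1355 459))
 .e)))))
 (.a 1 [426] (.d 431 427 427 428 432)
 .e)))))))
 (.a 1 [460] (.r 427 425 426 (.q 365 (.a 1 [] (.d 334 3375 303 3406 458)
 (.a 1 [303] (.d 458 3406 334 3437 489)
 (.a 1 [334] (.r 364 1324 300 (.d 366 362 362 363 367))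
 .e)))))
 (.a 1 [300] (.r 427 425 426 (.r 460 1356 364 (.d 493 2409 361 2442 526)))
 .e))))))
 (.a 1 [462] (.q 364 (.a 1 [] (.d 300 1292 268 1324 428)
 (.a 1 [300] (.r 428 1356 460 (.r 425 3404 456 (.r 427 425 426 (.q 299 (.a 1 [] (.r 395 1323 331 (.r 431 427 430 (.r 365 2347 398 (.d 458 3406 334 3437 489))))
 (.a 1 [331] (.r 431 427 430 (.r 365 2347 398 (.d 458 3406 334 3437 489)))
 (.a 1 [334] (.r 395 1323 331 (.r 431 427 430 (.r 365 2347 398 (.d 366 362 362 363 367))))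
 (.a 1 [365] (.r 331 1323 395 (.r 330 2345 297 (.d 333 329 329 330 334)))
 .e))))))))
 (.a 1 [428] (.r 330 2345 297 (.q 365 (.a 1 [] (.d 362 361 361 362 366)
 (.a 1 [299] (.r 300 1292 268 (.d 362 361 361 362 366))
 (.a 1 [361] (.d 366 362 362 363 367)
 (.a 1 [366] (.r 362 361 361 (.r 458 1354 426 (.d 427 3406 334 3437 489)))
 (.a 0 [300,362] (.q 299 (.a 1 [] (.d 266 2281 233 2314 398)
 (.a 1 [233] (.d 398 2314 266 2347 431)
 (.a 0 [266,398] (.q 331 (.a 1 [] (.d 329 328 328 329 333)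
 (.a 1 [328] (.d 333 329 329 330 334)
 (.a 1 [329] (.d 267 1259 235 1291 395)
 .e))))
 .e))))
 .e)))))))
 (.a 1 [268] (.d 428 1324 300 1356 460)
 .e)))))
 (.a 1 [297] (.d 462 2378 330 2411 495)
 .e)))))
 (.a 1 [425] (.q 364 (.a 1 [] (.d 300 1292 268 1324 428)
 (.a 1 [428] (.q 361 (.a 1 [] (.d 362 360 360 361 365)
 (.a 0 [360,362,365] (.q 330 (.a 1 [] (.d 297 2312 264 2345 429)
 (.a 1 [264] (.d 429 2345 297 2378 462)
 (.a 1 [297] (.r 268 1292 300 (.d 299 3309 237 3340 392))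
 .e))))
 .e)))
 (.a 1 [300] (.q 361 (.a 1 [] (.d 362 360 360 361 365)
 (.a 1 [360] (.r 365 361 362 (.r 460 1356 428 (.d 427 2376 328 2409 493)))
 (.a 1 [362] (.r 460 1356 428 (.d 427 2376 328 2409 493))
 .e))))
 .e))))
 .e)))) (by decide +kernel)

theorem b6_1189 : S (PX [] [298,425,530]) := S.of (.q 395 (.a 1 [] (.d 393 392 392 393 397)
 (.a 1 [392] (.d 397 393 393 394 398)
 (.a 0 [393] (.q 427 (.a 1 [] (.d 331 1323 299 1355 459)
 (.a 1 [299] (.d 459 1355 331 1387 491)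
 (.a 0 [331,459] (.q 361 (.a 1 [] (.d 328 2343 295 2376 460)
 (.a 1 [295] (.d 460 2376 328 2409 493)
 (.a 0 [328,460] (.q 458 (.a 1 [] (.d 365 3406 334 3437 489)
 (.a 1 [334] (.d 489 3437 365 3468 520)
 (.a 1 [489] (.r 365 3406 334 (.r 362 361 364 (.d 426 1354 330 1386 490)))
 (.a 0 [365] (.q 362 (.a 1 [] (.d 360 359 359 360 364)
 (.a 1 [359] (.d 426 1354 330 1386 490)
 .e)))
 .e)))))
 .e))))
 .e))))
 (.a 0 [397] (.q 330 (.a 1 [] (.d 297 2312 264 2345 429)
 (.a 1 [264] (.d 429 2345 297 2378 462)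
 (.a 0 [297,429] (.q 299 (.a 1 [] (.d 331 1291 267 1323 427)
 (.a 1 [267] (.r 427 1323 331 (.r 392 392 393 (.d 361 3340 268 3371 423)))
 (.a 1 [331] (.r 392 392 393 (.d 361 3340 268 3371 423))
 .e))))
 .e))))
 .e))))) (by decide +kernel)

theorem b6_1190 : S (PX [] [298,427,530]) := S.of (.q 332 (.a 1 [] (.d 301 3342 270 3373 425)
 (.a 1 [270] (.d 425 3373 301 3404 456)
 (.a 0 [301,425] (.q 429 (.a 1 [] (.d 330 2345 297 2378 462)
 (.a 1 [297] (.d 462 2378 330 2411 495)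
 (.a 0 [330,462] (.q 397 (.a 1 [] (.d 395 393 393 394 398)
 (.a 0 [393,395,398] (.q 365 (.a 1 [] (.d 461 1357 333 1389 493)
 (.a 0 [333,461,493] (.q 364 (.a 1 [] (.d 362 361 361 362 366)
 (.a 1 [361] (.d 366 362 362 363 367)
 (.a 1 [362] (.d 300 1292 268 1324 428)
 .e))))
 .e)))
 .e)))
 .e))))
 .e)))) (by decide +kernel)

theorem b6_1191 : S (PX [] [298,429,530]) := S.of (.q 395 (.a 1 [] (.d 393 392 392 393 397)
 (.a 1 [392] (.d 397 393 393 394 398)
 (.a 0 [393] (.q 427 (.a 1 [] (.d 331 1323 299 1355 459)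
 (.a 1 [299] (.d 459 1355 331 1387 491)
 (.a 0 [331,459] (.q 460 (.a 1 [] (.d 361 2376 328 2409 493)
 (.a 1 [328] (.d 493 2409 361 2442 526)
 (.a 0 [361,493] (.q 364 (.a 1 [] (.d 428 1356 332 1388 492)
 (.a 1 [492] (.r 332 1356 428 (.d 425 3373 301 3404 456))
 (.a 0 [332,428] (.q 365 (.a 1 [] (.d 366 362 362 363 367)
 (.a 1 [362] (.d 458 3406 334 3437 489)
 .e)))
 .e))))
 .e))))
 .e))))
 (.a 0 [397] (.q 331 (.a 1 [] (.d 299 1291 267 1323 427)
 (.a 1 [267] (.d 427 1323 299 1355 459)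
 (.a 0 [299,427] (.r 393 392 392 (.q 425 (.a 1 [] (.d 332 3373 301 3404 456)
 (.a 1 [301] (.d 456 3404 332 3435 487)
 (.a 0 [332,456] (.q 361 (.a 1 [] (.d 329 1321 297 1353 457)
 (.a 1 [297] (.d 457 1353 329 1385 489)
 (.a 0 [329,457] (.q 362 (.a 1 [] (.d 360 359 359 360 364)
 (.a 1 [359] (.d 364 360 360 361 365)
 (.a 1 [360] (.d 300 3341 269 3372 424)
 .e))))
 .e))))
 .e)))))
 .e))))
 .e))))) (by decide +kernel)

theorem b6_1192 : S (PX [] [298,430,530]) := S.of (.q 395 (.a 1 [] (.d 393 392 392 393 397)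
 (.a 1 [392] (.d 397 393 393 394 398)
 (.a 0 [393,397] (.q 331 (.a 1 [] (.d 299 1291 267 1323 427)
 (.a 1 [267] (.d 427 1323 299 1355 459)
 (.a 0 [299] (.r 427 1355 459 (.q 361 (.a 1 [] (.d 328 2343 295 2376 460)
 (.a 1 [295] (.d 460 2376 328 2409 493)
 (.a 0 [328,460] (.q 458 (.a 1 [] (.d 365 3406 334 3437 489)
 (.a 1 [334] (.d 489 3437 365 3468 520)
 (.a 1 [489] (.r 365 3406 334 (.r 362 361 364 (.d 426 1354 330 1386 490)))
 (.a 0 [365] (.q 362 (.a 1 [] (.d 360 359 359 360 364)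
 (.a 1 [359] (.d 426 1354 330 1386 490)
 .e)))
 .e)))))
 .e)))))
 (.a 0 [427] (.q 332 (.a 1 [] (.d 301 3342 270 3373 425)
 (.a 1 [270] (.d 425 3373 301 3404 456)
 (.a 0 [301,425] (.q 330 (.a 1 [] (.d 329 328 328 329 333)
 (.a 1 [328] (.d 333 329 329 330 334)
 (.a 1 [329] (.d 297 2312 264 2345 429)
 .e))))
 .e))))
 .e)))))
 .e)))) (by decide +kernel)

theorem b6_1193 : S (PX [] [298,457,530]) := S.of (.q 395 (.a 1 [] (.d 393 392 392 393 397)
 (.a 1 [393] (.q 427 (.a 1 [] (.d 331 1323 299 1355 459)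
 (.a 1 [299] (.d 459 1355 331 1387 491)
 (.a 0 [331,459] (.q 458 (.a 1 [] (.d 365 3406 334 3437 489)
 (.a 1 [334] (.d 489 3437 365 3468 520)
 (.a 0 [365,489] (.q 425 (.a 1 [] (.d 332 3373 301 3404 456)
 (.a 1 [301] (.d 456 3404 332 3435 487)
 (.a 0 [332,456] (.q 426 (.a 1 [] (.d 424 423 423 424 428)
 (.a 1 [423] (.d 428 424 424 425 429)
 (.a 1 [424] (.d 362 1354 330 1386 490)
 .e))))
 .e))))
 .e))))
 .e))))
 (.a 1 [397] (.q 331 (.a 1 [] (.d 299 1291 267 1323 427)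
 (.a 1 [267] (.d 427 1323 299 1355 459)
 (.a 0 [299,427] (.q 332 (.a 1 [] (.d 301 3342 270 3373 425)
 (.a 1 [270] (.d 425 3373 301 3404 456)
 (.a 0 [301,425] (.q 300 (.a 1 [] (.d 364 1292 268 1324 428)
 (.a 1 [268] (.r 393 392 392 (.d 362 3341 269 3372 424))
 .e)))
 .e))))
 .e))))
 (.a 1 [392] (.d 397 393 393 394 398)
 .e))))) (by decide +kernel)

theorem b6_1194 : S (PX [] [298,458,530]) := S.of (.q 429 (.a 1 [] (.d 330 2345 297 2378 462)
 (.a 1 [297] (.d 462 2378 330 2411 495)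
 (.a 0 [330,462] (.q 397 (.a 1 [] (.d 395 393 393 394 398)
 (.a 0 [393,395,398] (.q 365 (.a 1 [] (.d 333 1325 301 1357 461)
 (.a 1 [301] (.d 461 1357 333 1389 493)
 (.a 1 [461] (.r 301 1325 333 (.d 332 3342 270 3373 425))
 (.a 0 [333] (.q 332 (.a 1 [] (.d 301 3342 270 3373 425)
 (.a 1 [270] (.d 425 3373 301 3404 456)
 (.a 0 [301,425] (.q 364 (.a 1 [] (.d 362 361 361 362 366)
 (.a 1 [361] (.d 366 362 362 363 367)
 (.a 1 [362] (.d 300 1292 268 1324 428)
 .e))))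
 .e))))
 .e)))))
 .e)))
 .e)))) (by decide +kernel)

theorem b6_1195 : S (PX [] [298,460,530]) := S.of (.q 429 (.a 1 [] (.d 330 2345 297 2378 462)
 (.a 1 [297] (.d 462 2378 330 2411 495)
 (.a 0 [330,462] (.q 397 (.a 1 [] (.d 395 393 393 394 398)
 (.a 0 [393,395,398] (.q 365 (.a 1 [] (.d 333 1325 301 1357 461)
 (.a 1 [301] (.d 461 1357 333 1389 493)
 (.a 1 [461] (.r 301 1325 333 (.d 332 3342 270 3373 425))
 (.a 0 [333] (.q 332 (.a 1 [] (.d 301 3342 270 3373 425)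
 (.a 1 [270] (.d 425 3373 301 3404 456)
 (.a 0 [301,425] (.q 364 (.a 1 [] (.d 362 361 361 362 366)
 (.a 1 [361] (.d 366 362 362 363 367)
 (.a 1 [362] (.d 300 1292 268 1324 428)
 .e))))
 .e))))
 .e)))))
 .e)))
 .e)))) (by decide +kernel)

theorem b6_1196 : S (PX [] [298,461,530]) := S.of (.q 395 (.a 1 [] (.d 393 392 392 393 397)
 (.a 1 [392] (.d 397 393 393 394 398)
 (.a 0 [393,397] (.q 429 (.a 1 [] (.d 330 2345 297 2378 462)
 (.a 1 [297] (.d 462 2378 330 2411 495)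
 (.a 0 [330,462] (.q 331 (.a 1 [] (.d 299 1291 267 1323 427)
 (.a 1 [267] (.d 427 1323 299 1355 459)
 (.a 0 [299] (.q 425 (.a 1 [] (.d 332 3373 301 3404 456)
 (.a 1 [301] (.d 456 3404 332 3435 487)
 (.a 1 [456] (.r 427 1355 459 (.r 428 425 426 (.r 332 3373 301 (.d 364 1324 300 1356 460))))
 (.a 0 [332] (.r 427 1355 459 (.q 460 (.a 1 [] (.d 361 2376 328 2409 493)
 (.a 1 [328] (.d 493 2409 361 2442 526)
 (.a 1 [361] (.r 428 425 426 (.d 492 1388 364 1420 524))
 .e)))))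
 .e)))))
 (.a 0 [427] (.q 332 (.a 1 [] (.d 301 3342 270 3373 425)
 (.a 1 [270] (.d 425 3373 301 3404 456)
 (.a 0 [301,425] (.q 364 (.a 1 [] (.d 300 1292 268 1324 428)
 (.a 1 [268] (.d 428 1324 300 1356 460)
 (.a 0 [300] (.r 299 1291 267 (.q 365 (.a 1 [] (.d 362 361 361 362 366)
 (.a 1 [361] (.d 366 362 362 363 367)
 (.a 1 [362] (.d 266 2281 233 2314 398)
 .e)))))
 (.a 0 [428] (.r 300 1292 268 (.q 426 (.a 1 [] (.d 333 3374 302 3405 457)
 (.a 1 [302] (.d 457 3405 333 3436 488)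
 (.a 1 [457] (.r 333 3374 302 (.r 267 1291 299 (.d 366 2282 234 2315 399)))
 (.a 0 [333] (.q 365 (.a 1 [] (.d 362 361 361 362 366)
 (.a 1 [361] (.d 366 362 362 363 367)
 (.a 1 [362] (.r 299 1291 267 (.d 398 2314 266 2347 431))
 .e))))
 .e))))))
 .e)))))
 .e))))
 .e)))))
 .e))))
 .e)))) (by decide +kernel)

theorem b6_1197 : S (PX [] [359,390,530]) := S.of (.q 395 (.a 1 [] (.d 393 392 392 393 397)
 (.a 1 [392] (.d 397 393 393 394 398)
 (.a 0 [393,397] (.q 427 (.a 1 [] (.d 331 1323 299 1355 459)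
 (.a 1 [299] (.d 459 1355 331 1387 491)
 (.a 0 [331,459] (.q 425 (.a 1 [] (.d 332 3373 301 3404 456)
 (.a 1 [301] (.d 456 3404 332 3435 487)
 (.a 0 [332,456] (.q 330 (.a 1 [] (.d 297 2312 264 2345 429)
 (.a 1 [264] (.d 429 2345 297 2378 462)
 (.a 1 [297] (.r 429 2378 462 (.r 426 425 428 (.d 362 1322 298 1354 458)))
 (.a 0 [429] (.q 426 (.a 1 [] (.d 424 423 423 424 428)
 (.a 1 [423] (.d 362 1322 298 1354 458)
 .e)))
 .e)))))
 .e))))
 .e))))
 .e)))) (by decide +kernel)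

theorem b6_1198 : S (PX [] [359,397,530]) := S.of (.q 330 (.a 1 [] (.d 297 2312 264 2345 429)
 (.a 1 [264] (.d 429 2345 297 2378 462)
 (.a 0 [297,429] (.q 362 (.a 1 [] (.d 298 1290 266 1322 426)
 (.a 1 [266] (.d 426 1322 298 1354 458)
 (.a 0 [298] (.q 365 (.a 1 [] (.d 364 361 361 362 366)
 (.a 1 [361] (.r 458 1354 426 (.d 427 3406 334 3437 489))
 .e)))
 (.a 0 [426] (.q 365 (.a 1 [] (.d 364 361 361 362 366)
 (.a 0 [361,364,366] (.q 332 (.a 1 [] (.d 301 3342 270 3373 425)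
 (.a 1 [270] (.d 425 3373 301 3404 456)
 (.a 1 [301] (.r 266 1290 298 (.d 299 2281 233 2314 398))
 .e))))
 .e)))
 .e)))))
 .e)))) (by decide +kernel)

theorem b6_1199 : S (PX [] [359,458,530]) := S.of (.q 425 (.a 1 [] (.d 332 3373 301 3404 456)
 (.a 1 [301] (.d 456 3404 332 3435 487)
 (.a 0 [332,456] (.q 395 (.a 1 [] (.d 393 392 392 393 397)
 (.a 1 [392] (.d 397 393 393 394 398)
 (.a 0 [393,397] (.q 330 (.a 1 [] (.d 297 2312 264 2345 429)
 (.a 1 [264] (.d 429 2345 297 2378 462)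
 (.a 0 [297,429] (.q 299 (.a 1 [] (.d 331 1291 267 1323 427)
 (.a 0 [267,331,427] (.q 361 (.a 1 [] (.d 268 3309 237 3340 392)
 (.a 1 [237] (.d 392 3340 268 3371 423)
 (.a 0 [268,392] (.q 362 (.a 1 [] (.d 364 360 360 361 365)
 (.a 1 [360] (.d 298 1290 266 1322 426)
 .e)))
 .e))))
 .e)))
 .e))))
 .e))))
 .e)))) (by decide +kernel)

theorem b6_1207 : S (PX [] [268,392,530]) := S.of (.q 330 (.a 1 [] (.d 297 2312 264 2345 429)
 (.a 1 [264] (.d 429 2345 297 2378 462)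
 (.a 0 [297,429] (.q 362 (.a 1 [] (.d 298 1290 266 1322 426)
 (.a 1 [266] (.d 426 1322 298 1354 458)
 (.a 0 [298,426] (.q 364 (.a 1 [] (.d 361 360 360 361 365)
 (.a 1 [360] (.d 365 361 361 362 366)
 (.a 0 [361,365] (.q 332 (.a 1 [] (.d 428 1324 300 1356 460)
 (.a 1 [300] (.d 425 3373 301 3404 456)
 .e)))
 .e))))
 .e))))
 .e)))) (by decide +kernel)

theorem b6_1208 : S (PX [] [270,392,530]) := S.of (.q 330 (.a 1 [] (.d 297 2312 264 2345 429)
 (.a 1 [264] (.d 429 2345 297 2378 462)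
 (.a 0 [297,429] (.q 362 (.a 1 [] (.d 298 1290 266 1322 426)
 (.a 1 [266] (.d 426 1322 298 1354 458)
 (.a 0 [298,426] (.q 364 (.a 1 [] (.d 361 360 360 361 365)
 (.a 1 [360] (.d 365 361 361 362 366)
 (.a 0 [361,365] (.q 332 (.a 1 [] (.d 300 1292 268 1324 428)
 (.a 1 [268] (.d 428 1324 300 1356 460)
 (.a 1 [300] (.d 425 3373 301 3404 456)
 .e))))
 .e))))
 .e))))
 .e)))) (by decide +kernel)

theorem b6_1209 : S (PX [] [299,392,530]) := S.of (.q 330 (.a 1 [] (.d 297 2312 264 2345 429)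
 (.a 1 [264] (.d 429 2345 297 2378 462)
 (.a 0 [297,429] (.q 332 (.a 1 [] (.d 301 3342 270 3373 425)
 (.a 1 [270] (.d 425 3373 301 3404 456)
 (.a 0 [301] (.q 298 (.a 1 [] (.d 362 1290 266 1322 426)
 (.a 0 [266,362,426] (.q 331 (.a 1 [] (.d 329 328 328 329 333)
 (.a 1 [328] (.d 333 329 329 330 334)
 (.a 0 [329,333] (.q 397 (.a 1 [] (.d 395 393 393 394 398)
 (.a 1 [393] (.d 364 2313 265 2346 430)
 .e)))
 .e))))
 .e)))
 (.a 0 [425] (.q 364 (.a 1 [] (.d 300 1292 268 1324 428)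
 (.a 1 [268] (.d 428 1324 300 1356 460)
 (.a 0 [300] (.q 298 (.a 1 [] (.d 362 1290 266 1322 426)
 (.a 1 [266] (.r 362 1322 426 (.d 365 361 361 362 366))
 (.a 1 [426] (.r 362 1290 266 (.d 365 361 361 362 366))
 (.a 0 [362] (.q 331 (.a 1 [] (.d 329 328 328 329 333)
 (.a 1 [328] (.d 333 329 329 330 334)
 (.a 1 [329] (.d 265 2280 232 2313 397)
 .e))))
 .e)))))
 (.a 0 [428] (.q 426 (.a 1 [] (.d 362 1322 298 1354 458)
 (.a 1 [298] (.r 362 1354 458 (.d 365 361 361 362 366))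
 (.a 1 [458] (.r 362 1322 298 (.d 365 361 361 362 366))
 (.a 0 [362] (.q 395 (.a 1 [] (.d 397 393 393 394 398)
 (.a 1 [393] (.d 457 3405 333 3436 488)
 .e)))
 .e)))))
 .e)))))
 .e)))))
 .e)))) (by decide +kernel)

theorem b6_1210 : S (PX [] [301,392,530]) := S.of (.q 395 (.a 1 [] (.d 397 393 393 394 398)
 (.a 0 [393,397,398] (.q 427 (.a 1 [] (.d 331 1323 299 1355 459)
 (.a 1 [299] (.d 459 1355 331 1387 491)
 (.a 0 [331,459] (.q 365 (.a 1 [] (.d 334 3375 303 3406 458)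
 (.a 1 [303] (.d 458 3406 334 3437 489)
 (.a 0 [334,458] (.q 460 (.a 1 [] (.d 361 2376 328 2409 493)
 (.a 1 [328] (.d 493 2409 361 2442 526)
 (.a 1 [493] (.r 361 2376 328 (.r 364 361 362 (.d 428 1356 332 1388 492)))
 (.a 0 [361] (.q 364 (.a 1 [] (.d 366 362 362 363 367)
 (.a 1 [362] (.d 428 1356 332 1388 492)
 .e)))
 .e)))))
 .e))))
 .e))))
 .e))) (by decide +kernel)

theorem b6_1211 : S (PX [] [302,392,530]) := S.of (.q 330 (.a 1 [] (.d 297 2312 264 2345 429)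
 (.a 1 [264] (.d 429 2345 297 2378 462)
 (.a 0 [297,429] (.q 362 (.a 1 [] (.d 298 1290 266 1322 426)
 (.a 1 [266] (.d 426 1322 298 1354 458)
 (.a 0 [298,426] (.q 364 (.a 1 [] (.d 361 360 360 361 365)
 (.a 1 [360] (.d 365 361 361 362 366)
 (.a 0 [361,365] (.q 332 (.a 1 [] (.d 300 1292 268 1324 428)
 (.a 1 [268] (.d 428 1324 300 1356 460)
 (.a 1 [300] (.d 301 3342 270 3373 425)
 .e))))
 .e))))
 .e))))
 .e)))) (by decide +kernel)

theorem b6_1212 : S (PX [] [329,392,530]) := S.of (.q 332 (.a 1 [] (.d 301 3342 270 3373 425)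
 (.a 1 [270] (.d 425 3373 301 3404 456)
 (.a 0 [301,425] (.q 429 (.a 1 [] (.d 330 2345 297 2378 462)
 (.a 1 [297] (.d 462 2378 330 2411 495)
 (.a 0 [330,462] (.q 428 (.a 1 [] (.d 364 1324 300 1356 460)
 (.a 0 [300,364,460] (.q 427 (.a 1 [] (.d 430 426 426 427 431)
 (.a 0 [426,430,431] (.q 395 (.a 1 [] (.d 397 393 393 394 398)
 (.a 1 [393] (.d 459 1355 331 1387 491)
 .e)))
 .e)))
 .e)))
 .e))))
 .e)))) (by decide +kernel)

theorem b6_1213 : S (PX [] [330,392,530]) := S.of (.q 332 (.a 1 [] (.d 301 3342 270 3373 425)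
 (.a 1 [270] (.d 425 3373 301 3404 456)
 (.a 0 [301,425] (.q 395 (.a 1 [] (.d 397 393 393 394 398)
 (.a 0 [393,397,398] (.q 427 (.a 1 [] (.d 331 1323 299 1355 459)
 (.a 1 [299] (.d 459 1355 331 1387 491)
 (.a 0 [331,459] (.q 361 (.a 1 [] (.d 328 2343 295 2376 460)
 (.a 1 [295] (.d 460 2376 328 2409 493)
 (.a 1 [328] (.r 460 2409 493 (.r 364 1356 428 (.d 362 360 360 361 365)))
 (.a 0 [460] (.q 364 (.a 1 [] (.d 362 360 360 361 365)
 (.a 1 [360] (.d 300 1292 268 1324 428)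
 .e)))
 .e)))))
 .e))))
 .e)))
 .e)))) (by decide +kernel)

theorem b6_1214 : S (PX [] [332,392,530]) := S.of (.q 330 (.a 1 [] (.d 297 2312 264 2345 429)
 (.a 1 [264] (.d 429 2345 297 2378 462)
 (.a 0 [297,429] (.q 362 (.a 1 [] (.d 298 1290 266 1322 426)
 (.a 1 [266] (.d 426 1322 298 1354 458)
 (.a 0 [298,426] (.q 365 (.a 1 [] (.d 364 361 361 362 366)
 (.a 0 [361,364,366] (.q 427 (.a 1 [] (.d 334 3375 303 3406 458)
 (.a 1 [303] (.d 458 3406 334 3437 489)
 (.a 0 [334,458] (.q 395 (.a 1 [] (.d 397 393 393 394 398)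
 (.a 1 [393] (.d 459 1355 331 1387 491)
 .e)))
 .e))))
 .e)))
 .e))))
 .e)))) (by decide +kernel)

theorem b6_1215 : S (PX [] [361,392,530]) := S.of (.q 425 (.a 1 [] (.d 332 3373 301 3404 456)
 (.a 1 [301] (.d 456 3404 332 3435 487)
 (.a 0 [332,456] (.q 395 (.a 1 [] (.d 397 393 393 394 398)
 (.a 0 [393,397,398] (.q 427 (.a 1 [] (.d 331 1323 299 1355 459)
 (.a 1 [299] (.d 459 1355 331 1387 491)
 (.a 0 [331,459] (.q 330 (.a 1 [] (.d 297 2312 264 2345 429)
 (.a 1 [264] (.d 429 2345 297 2378 462)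
 (.a 1 [297] (.r 429 2378 462 (.r 426 425 428 (.d 362 1322 298 1354 458)))
 (.a 0 [429] (.q 426 (.a 1 [] (.d 424 423 423 424 428)
 (.a 1 [423] (.d 362 1322 298 1354 458)
 .e)))
 .e)))))
 .e))))
 .e)))
 .e)))) (by decide +kernel)

theorem b6_1216 : S (PX [] [364,392,530]) := S.of (.q 330 (.a 1 [] (.d 297 2312 264 2345 429)
 (.a 1 [264] (.d 429 2345 297 2378 462)
 (.a 0 [297,429] (.q 395 (.a 1 [] (.d 397 393 393 394 398)
 (.a 0 [393,397,398] (.q 331 (.a 1 [] (.d 299 1291 267 1323 427)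
 (.a 1 [267] (.d 427 1323 299 1355 459)
 (.a 0 [299,427] (.q 332 (.a 1 [] (.d 329 328 328 329 333)
 (.a 1 [328] (.d 333 329 329 330 334)
 (.a 1 [329] (.d 301 3342 270 3373 425)
 .e))))
 .e))))
 .e)))
 .e)))) (by decide +kernel)

theorem b6_1217 : S (PX [] [366,392,530]) := S.of (.q 330 (.a 1 [] (.d 297 2312 264 2345 429)
 (.a 1 [264] (.d 429 2345 297 2378 462)
 (.a 0 [297,429] (.q 362 (.a 1 [] (.d 298 1290 266 1322 426)
 (.a 1 [266] (.d 426 1322 298 1354 458)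
 (.a 0 [298,426] (.q 364 (.a 1 [] (.d 361 360 360 361 365)
 (.a 0 [360,361,365] (.q 332 (.a 1 [] (.d 300 1292 268 1324 428)
 (.a 1 [268] (.d 428 1324 300 1356 460)
 (.a 1 [300] (.d 301 3342 270 3373 425)
 .e))))
 .e)))
 .e))))
 .e)))) (by decide +kernel)

theorem b6_1218 : S (PX [] [389,392,530]) := S.of (.q 330 (.a 1 [] (.d 297 2312 264 2345 429)
 (.a 1 [264] (.d 429 2345 297 2378 462)
 (.a 0 [297,429] (.q 362 (.a 1 [] (.d 298 1290 266 1322 426)
 (.a 1 [266] (.d 426 1322 298 1354 458)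
 (.a 0 [298,426] (.q 364 (.a 1 [] (.d 361 360 360 361 365)
 (.a 1 [360] (.d 365 361 361 362 366)
 (.a 0 [361,365] (.q 332 (.a 1 [] (.d 300 1292 268 1324 428)
 (.a 1 [268] (.d 428 1324 300 1356 460)
 (.a 1 [300] (.d 301 3342 270 3373 425)
 .e))))
 .e))))
 .e))))
 .e)))) (by decide +kernel)

theorem b6_1219 : S (PX [] [390,392,530]) := S.of (.q 330 (.a 1 [] (.d 297 2312 264 2345 429)
 (.a 1 [264] (.d 429 2345 297 2378 462)
 (.a 0 [297,429] (.q 362 (.a 1 [] (.d 298 1290 266 1322 426)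
 (.a 1 [266] (.d 426 1322 298 1354 458)
 (.a 0 [298,426] (.q 364 (.a 1 [] (.d 361 360 360 361 365)
 (.a 1 [360] (.d 365 361 361 362 366)
 (.a 0 [361,365] (.q 332 (.a 1 [] (.d 300 1292 268 1324 428)
 (.a 1 [268] (.d 428 1324 300 1356 460)
 (.a 1 [300] (.d 301 3342 270 3373 425)
 .e))))
 .e))))
 .e))))
 .e)))) (by decide +kernel)

theorem b6_1220 : S (PX [] [392,393,530]) := S.of (.q 332 (.a 1 [] (.d 301 3342 270 3373 425)
 (.a 1 [270] (.d 425 3373 301 3404 456)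
 (.a 0 [301,425] (.q 429 (.a 1 [] (.d 330 2345 297 2378 462)
 (.a 1 [297] (.d 462 2378 330 2411 495)
 (.a 0 [330,462] (.q 428 (.a 1 [] (.d 364 1324 300 1356 460)
 (.a 0 [300,364,460] (.q 431 (.a 1 [] (.d 430 427 427 428 432)
 (.a 0 [427,430,432] (.q 398 (.a 1 [] (.d 365 2347 299 2380 464)
 (.a 1 [299] (.r 397 394 395 (.r 365 2380 464 (.d 461 1357 333 1389 493)))
 (.a 1 [464] (.r 397 394 395 (.r 365 2347 299 (.d 461 1357 333 1389 493)))
 (.a 0 [365] (.r 397 394 395 (.q 335 (.a 1 [] (.d 366 3376 304 3407 459)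
 (.a 1 [304] (.r 399 396 400 (.d 367 1327 303 1359 463))
 .e))))
 .e)))))
 .e)))
 .e)))
 .e))))
 .e)))) (by decide +kernel)

theorem b6_1221 : S (PX [] [392,423,530]) := S.of (.q 330 (.a 1 [] (.d 297 2312 264 2345 429)
 (.a 1 [264] (.d 429 2345 297 2378 462)
 (.a 0 [297,429] (.q 395 (.a 1 [] (.d 397 393 393 394 398)
 (.a 0 [393,397,398] (.q 427 (.a 1 [] (.d 331 1323 299 1355 459)
 (.a 1 [299] (.d 459 1355 331 1387 491)
 (.a 0 [331,459] (.q 365 (.a 1 [] (.d 334 3375 303 3406 458)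
 (.a 1 [303] (.d 458 3406 334 3437 489)
 (.a 1 [334] (.r 458 3437 489 (.r 362 1354 426 (.d 364 361 361 362 366)))
 (.a 0 [458] (.q 362 (.a 1 [] (.d 364 361 361 362 366)
 (.a 1 [361] (.d 298 1290 266 1322 426)
 .e)))
 .e)))))
 .e))))
 .e)))
 .e)))) (by decide +kernel)

theorem b6_1222 : S (PX [] [392,425,530]) := S.of (.q 395 (.a 1 [] (.d 397 393 393 394 398)
 (.a 0 [393,397,398] (.q 427 (.a 1 [] (.d 331 1323 299 1355 459)
 (.a 1 [299] (.d 459 1355 331 1387 491)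
 (.a 0 [331,459] (.q 361 (.a 1 [] (.d 328 2343 295 2376 460)
 (.a 1 [295] (.d 460 2376 328 2409 493)
 (.a 0 [328,460] (.q 458 (.a 1 [] (.d 365 3406 334 3437 489)
 (.a 1 [334] (.d 489 3437 365 3468 520)
 (.a 1 [489] (.r 365 3406 334 (.r 362 361 364 (.d 426 1354 330 1386 490)))
 (.a 0 [365] (.q 362 (.a 1 [] (.d 360 359 359 360 364)
 (.a 1 [359] (.d 426 1354 330 1386 490)
 .e)))
 .e)))))
 .e))))
 .e))))
 .e))) (by decide +kernel)

theorem b6_1223 : S (PX [] [392,426,530]) := S.of (.q 332 (.a 1 [] (.d 301 3342 270 3373 425)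
 (.a 1 [270] (.d 425 3373 301 3404 456)
 (.a 0 [301,425] (.q 429 (.a 1 [] (.d 330 2345 297 2378 462)
 (.a 1 [297] (.d 462 2378 330 2411 495)
 (.a 0 [330,462] (.q 397 (.a 1 [] (.d 395 393 393 394 398)
 (.a 0 [393,395,398] (.q 365 (.a 1 [] (.d 461 1357 333 1389 493)
 (.a 0 [333,461,493] (.q 364 (.a 1 [] (.d 362 361 361 362 366)
 (.a 1 [361] (.d 366 362 362 363 367)
 (.a 1 [362] (.d 300 1292 268 1324 428)
 .e))))
 .e)))
 .e)))
 .e))))
 .e)))) (by decide +kernel)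

theorem b6_1224 : S (PX [] [392,427,530]) := S.of (.q 332 (.a 1 [] (.d 301 3342 270 3373 425)
 (.a 1 [270] (.d 425 3373 301 3404 456)
 (.a 0 [301,425] (.q 429 (.a 1 [] (.d 330 2345 297 2378 462)
 (.a 1 [297] (.d 462 2378 330 2411 495)
 (.a 0 [330,462] (.q 397 (.a 1 [] (.d 395 393 393 394 398)
 (.a 0 [393,395,398] (.q 365 (.a 1 [] (.d 461 1357 333 1389 493)
 (.a 0 [333,461,493] (.q 364 (.a 1 [] (.d 362 361 361 362 366)
 (.a 1 [361] (.d 366 362 362 363 367)
 (.a 1 [362] (.d 300 1292 268 1324 428)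
 .e))))
 .e)))
 .e)))
 .e))))
 .e)))) (by decide +kernel)

theorem b6_1225 : S (PX [] [392,429,530]) := S.of (.q 395 (.a 1 [] (.d 397 393 393 394 398)
 (.a 0 [393,397,398] (.q 427 (.a 1 [] (.d 331 1323 299 1355 459)
 (.a 1 [299] (.d 459 1355 331 1387 491)
 (.a 0 [331,459] (.q 365 (.a 1 [] (.d 334 3375 303 3406 458)
 (.a 1 [303] (.d 458 3406 334 3437 489)
 (.a 0 [334,458] (.q 460 (.a 1 [] (.d 361 2376 328 2409 493)
 (.a 1 [328] (.d 493 2409 361 2442 526)
 (.a 1 [493] (.r 361 2376 328 (.r 364 361 362 (.d 428 1356 332 1388 492)))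
 (.a 0 [361] (.q 364 (.a 1 [] (.d 366 362 362 363 367)
 (.a 1 [362] (.d 428 1356 332 1388 492)
 .e)))
 .e)))))
 .e))))
 .e))))
 .e))) (by decide +kernel)

theorem b6_1226 : S (PX [] [392,431,530]) := S.of (.q 330 (.a 1 [] (.d 297 2312 264 2345 429)
 (.a 1 [264] (.d 429 2345 297 2378 462)
 (.a 0 [297,429] (.q 362 (.a 1 [] (.d 298 1290 266 1322 426)
 (.a 1 [266] (.d 426 1322 298 1354 458)
 (.a 0 [298,426] (.q 364 (.a 1 [] (.d 361 360 360 361 365)
 (.a 1 [360] (.d 365 361 361 362 366)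
 (.a 0 [361,365] (.q 332 (.a 1 [] (.d 300 1292 268 1324 428)
 (.a 1 [268] (.d 428 1324 300 1356 460)
 (.a 1 [300] (.d 301 3342 270 3373 425)
 .e))))
 .e))))
 .e))))
 .e)))) (by decide +kernel)

theorem b6_1227 : S (PX [] [392,454,530]) := S.of (.q 330 (.a 1 [] (.d 297 2312 264 2345 429)
 (.a 1 [264] (.d 429 2345 297 2378 462)
 (.a 0 [297,429] (.q 425 (.a 1 [] (.d 332 3373 301 3404 456)
 (.a 1 [301] (.d 456 3404 332 3435 487)
 (.a 0 [332,456] (.q 395 (.a 1 [] (.d 397 393 393 394 398)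
 (.a 0 [393,397,398] (.q 427 (.a 1 [] (.d 331 1323 299 1355 459)
 (.a 1 [299] (.d 459 1355 331 1387 491)
 (.a 0 [331,459] (.q 426 (.a 1 [] (.d 424 423 423 424 428)
 (.a 1 [423] (.d 362 1322 298 1354 458)
 .e)))
 .e))))
 .e)))
 .e))))
 .e)))) (by decide +kernel)

theorem b6_1228 : S (PX [] [392,457,530]) := S.of (.q 330 (.a 1 [] (.d 297 2312 264 2345 429)
 (.a 1 [264] (.d 429 2345 297 2378 462)
 (.a 0 [297,429] (.q 362 (.a 1 [] (.d 298 1290 266 1322 426)
 (.a 1 [266] (.d 426 1322 298 1354 458)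
 (.a 0 [298,426] (.q 364 (.a 1 [] (.d 361 360 360 361 365)
 (.a 1 [360] (.d 365 361 361 362 366)
 (.a 0 [361,365] (.q 332 (.a 1 [] (.d 300 1292 268 1324 428)
 (.a 1 [268] (.d 428 1324 300 1356 460)
 (.a 1 [300] (.d 301 3342 270 3373 425)
 .e))))
 .e))))
 .e))))
 .e)))) (by decide +kernel)

theorem b6_1229 : S (PX [] [392,458,530]) := S.of (.q 330 (.a 1 [] (.d 297 2312 264 2345 429)
 (.a 1 [264] (.d 429 2345 297 2378 462)
 (.a 0 [297,429] (.q 395 (.a 1 [] (.d 397 393 393 394 398)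
 (.a 0 [393,397,398] (.q 331 (.a 1 [] (.d 299 1291 267 1323 427)
 (.a 1 [267] (.d 427 1323 299 1355 459)
 (.a 0 [299,427] (.q 332 (.a 1 [] (.d 329 328 328 329 333)
 (.a 1 [328] (.d 333 329 329 330 334)
 (.a 1 [329] (.d 301 3342 270 3373 425)
 .e))))
 .e))))
 .e)))
 .e)))) (by decide +kernel)

theorem b6_1230 : S (PX [] [392,461,530]) := S.of (.q 330 (.a 1 [] (.d 297 2312 264 2345 429)
 (.a 1 [264] (.d 429 2345 297 2378 462)
 (.a 0 [297,429] (.q 362 (.a 1 [] (.d 298 1290 266 1322 426)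
 (.a 1 [266] (.d 426 1322 298 1354 458)
 (.a 0 [298,426] (.q 425 (.a 1 [] (.d 332 3373 301 3404 456)
 (.a 1 [301] (.d 456 3404 332 3435 487)
 (.a 0 [332,456] (.q 365 (.a 1 [] (.d 364 361 361 362 366)
 (.a 0 [361,364,366] (.q 427 (.a 1 [] (.d 334 3375 303 3406 458)
 (.a 1 [303] (.d 458 3406 334 3437 489)
 (.a 0 [334,458] (.q 395 (.a 1 [] (.d 397 393 393 394 398)
 (.a 1 [393] (.d 459 1355 331 1387 491)
 .e)))
 .e))))
 .e)))
 .e))))
 .e))))
 .e)))) (by decide +kernel)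

theorem b6_1231 : S (PX [] [392,462,530]) := S.of (.q 332 (.a 1 [] (.d 301 3342 270 3373 425)
 (.a 1 [270] (.d 425 3373 301 3404 456)
 (.a 0 [301,425] (.q 364 (.a 1 [] (.d 300 1292 268 1324 428)
 (.a 1 [268] (.d 428 1324 300 1356 460)
 (.a 0 [300,428] (.q 362 (.a 1 [] (.d 361 360 360 361 365)
 (.a 1 [360] (.d 365 361 361 362 366)
 (.a 0 [361,365] (.q 330 (.a 1 [] (.d 298 1290 266 1322 426)
 (.a 1 [266] (.d 426 1322 298 1354 458)
 (.a 1 [298] (.d 297 2312 264 2345 429)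
 .e))))
 .e))))
 .e))))
 .e)))) (by decide +kernel)

theorem b6_1232 : S (PX [] [392,464,530]) := S.of (.q 330 (.a 1 [] (.d 297 2312 264 2345 429)
 (.a 1 [264] (.d 429 2345 297 2378 462)
 (.a 0 [297,429] (.q 362 (.a 1 [] (.d 298 1290 266 1322 426)
 (.a 1 [266] (.d 426 1322 298 1354 458)
 (.a 0 [298,426] (.q 364 (.a 1 [] (.d 361 360 360 361 365)
 (.a 1 [360] (.d 365 361 361 362 366)
 (.a 0 [361,365] (.q 332 (.a 1 [] (.d 300 1292 268 1324 428)
 (.a 1 [268] (.d 428 1324 300 1356 460)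
 (.a 1 [300] (.d 301 3342 270 3373 425)
 .e))))
 .e))))
 .e))))
 .e)))) (by decide +kernel)

theorem b6_1233 : S (PX [] [392,494,530]) := S.of (.q 330 (.a 1 [] (.d 297 2312 264 2345 429)
 (.a 1 [264] (.d 429 2345 297 2378 462)
 (.a 0 [297,429] (.q 362 (.a 1 [] (.d 298 1290 266 1322 426)
 (.a 1 [266] (.d 426 1322 298 1354 458)
 (.a 0 [298,426] (.q 364 (.a 1 [] (.d 361 360 360 361 365)
 (.a 1 [360] (.d 365 361 361 362 366)
 (.a 0 [361,365] (.q 332 (.a 1 [] (.d 300 1292 268 1324 428)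
 (.a 1 [268] (.d 428 1324 300 1356 460)
 (.a 1 [300] (.d 301 3342 270 3373 425)
 .e))))
 .e))))
 .e))))
 .e)))) (by decide +kernel)

theorem b6_1234 : S (PX [] [392,497,530]) := S.of (.q 330 (.a 1 [] (.d 297 2312 264 2345 429)
 (.a 1 [264] (.d 429 2345 297 2378 462)
 (.a 0 [297,429] (.q 362 (.a 1 [] (.d 298 1290 266 1322 426)
 (.a 1 [266] (.d 426 1322 298 1354 458)
 (.a 0 [298,426] (.q 364 (.a 1 [] (.d 361 360 360 361 365)
 (.a 1 [360] (.d 365 361 361 362 366)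
 (.a 0 [361,365] (.q 332 (.a 1 [] (.d 300 1292 268 1324 428)
 (.a 1 [268] (.d 428 1324 300 1356 460)
 (.a 1 [300] (.d 301 3342 270 3373 425)
 .e))))
 .e))))
 .e))))
 .e)))) (by decide +kernel)

theorem b6_1235 : S (PX [] [392,526,530]) := S.of (.q 330 (.a 1 [] (.d 297 2312 264 2345 429)
 (.a 1 [264] (.d 429 2345 297 2378 462)
 (.a 0 [297,429] (.q 362 (.a 1 [] (.d 298 1290 266 1322 426)
 (.a 1 [266] (.d 426 1322 298 1354 458)
 (.a 0 [298,426] (.q 364 (.a 1 [] (.d 361 360 360 361 365)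
 (.a 1 [360] (.d 365 361 361 362 366)
 (.a 0 [361,365] (.q 332 (.a 1 [] (.d 300 1292 268 1324 428)
 (.a 1 [268] (.d 428 1324 300 1356 460)
 (.a 1 [300] (.d 301 3342 270 3373 425)
 .e))))
 .e))))
 .e))))
 .e)))) (by decide +kernel)

theorem b6_1236 : S (PX [] [264,332,530]) := S.of (.q 395 (.a 1 [] (.d 393 392 392 393 397)
 (.a 1 [392] (.d 397 393 393 394 398)
 (.a 0 [393,397] (.q 427 (.a 1 [] (.d 331 1323 299 1355 459)
 (.a 1 [299] (.d 459 1355 331 1387 491)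
 (.a 0 [331,459] (.q 458 (.a 1 [] (.d 365 3406 334 3437 489)
 (.a 1 [334] (.d 489 3437 365 3468 520)
 (.a 0 [365,489] (.q 361 (.a 1 [] (.d 328 2343 295 2376 460)
 (.a 1 [295] (.d 460 2376 328 2409 493)
 (.a 0 [328,460] (.q 330 (.a 1 [] (.d 429 2345 297 2378 462)
 (.a 1 [297] (.r 362 1354 426 (.d 360 359 359 360 364))
 .e)))
 .e))))
 .e))))
 .e))))
 .e)))) (by decide +kernel)

theorem b6_1237 : S (PX [] [264,397,530]) := S.of (.q 425 (.a 1 [] (.d 332 3373 301 3404 456)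
 (.a 1 [301] (.d 456 3404 332 3435 487)
 (.a 0 [332,456] (.q 330 (.a 1 [] (.d 429 2345 297 2378 462)
 (.a 0 [297,429,462] (.q 426 (.a 1 [] (.d 362 1322 298 1354 458)
 (.a 0 [298,362,458] (.q 423 (.a 1 [] (.d 424 422 422 423 427)
 (.a 0 [422,424,427] (.q 392 (.a 1 [] (.d 361 3371 299 3402 454)
 (.a 1 [299] (.r 393 392 395 (.r 361 3402 454 (.d 457 1353 329 1385 489)))
 (.a 1 [454] (.r 393 392 395 (.r 361 3371 299 (.d 457 1353 329 1385 489)))
 (.a 0 [361] (.r 393 392 395 (.q 327 (.a 1 [] (.d 360 2342 294 2375 459)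
 (.a 1 [294] (.r 391 390 390 (.d 359 1319 295 1351 455))
 .e))))
 .e)))))
 .e)))
 .e)))
 .e)))
 .e)))) (by decide +kernel)

theorem b6_1238 : S (PX [] [264,398,530]) := S.of (.q 332 (.a 1 [] (.d 301 3342 270 3373 425)
 (.a 1 [270] (.d 425 3373 301 3404 456)
 (.a 0 [301,425] (.q 364 (.a 1 [] (.d 300 1292 268 1324 428)
 (.a 1 [268] (.d 428 1324 300 1356 460)
 (.a 0 [300,428] (.q 362 (.a 1 [] (.d 361 360 360 361 365)
 (.a 1 [360] (.d 365 361 361 362 366)
 (.a 0 [361,365] (.q 330 (.a 1 [] (.d 298 1290 266 1322 426)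
 (.a 1 [266] (.d 426 1322 298 1354 458)
 (.a 1 [298] (.d 429 2345 297 2378 462)
 .e))))
 .e))))
 .e))))
 .e)))) (by decide +kernel)

theorem b6_1239 : S (PX [] [266,299,530]) := S.of (.q 332 (.a 1 [] (.d 301 3342 270 3373 425)
 (.a 1 [270] (.d 425 3373 301 3404 456)
 (.a 0 [301,425] (.q 395 (.a 1 [] (.d 393 392 392 393 397)
 (.a 1 [392] (.d 397 393 393 394 398)
 (.a 0 [393,397] (.q 427 (.a 1 [] (.d 459 1355 331 1387 491)
 (.a 0 [331,459,491] (.q 361 (.a 1 [] (.d 328 2343 295 2376 460)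
 (.a 1 [295] (.d 460 2376 328 2409 493)
 (.a 1 [328] (.r 460 2409 493 (.r 364 1356 428 (.d 362 360 360 361 365)))
 (.a 0 [460] (.q 364 (.a 1 [] (.d 362 360 360 361 365)
 (.a 1 [360] (.d 300 1292 268 1324 428)
 .e)))
 .e)))))
 .e)))
 .e))))
 .e)))) (by decide +kernel)

theorem b6_1240 : S (PX [] [268,299,530]) := S.of (.q 330 (.a 1 [] (.d 297 2312 264 2345 429)
 (.a 1 [264] (.d 429 2345 297 2378 462)
 (.a 0 [297,429] (.q 395 (.a 1 [] (.d 393 392 392 393 397)
 (.a 1 [392] (.d 397 393 393 394 398)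
 (.a 0 [393,397] (.q 427 (.a 1 [] (.d 459 1355 331 1387 491)
 (.a 0 [331,459,491] (.q 365 (.a 1 [] (.d 334 3375 303 3406 458)
 (.a 1 [303] (.d 458 3406 334 3437 489)
 (.a 1 [334] (.r 458 3437 489 (.r 362 1354 426 (.d 364 361 361 362 366)))
 (.a 0 [458] (.q 362 (.a 1 [] (.d 364 361 361 362 366)
 (.a 1 [361] (.d 298 1290 266 1322 426)
 .e)))
 .e)))))
 .e)))
 .e))))
 .e)))) (by decide +kernel)

theorem b6_1241 : S (PX [] [295,299,530]) := S.of (.q 332 (.a 1 [] (.d 301 3342 270 3373 425)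
 (.a 1 [270] (.d 425 3373 301 3404 456)
 (.a 0 [301,425] (.q 395 (.a 1 [] (.d 393 392 392 393 397)
 (.a 1 [392] (.d 397 393 393 394 398)
 (.a 0 [393,397] (.q 429 (.a 1 [] (.d 330 2345 297 2378 462)
 (.a 1 [297] (.d 462 2378 330 2411 495)
 (.a 0 [330,462] (.q 427 (.a 1 [] (.d 459 1355 331 1387 491)
 (.a 0 [331,459,491] (.q 428 (.a 1 [] (.d 430 426 426 427 431)
 (.a 1 [426] (.d 364 1324 300 1356 460)
 .e)))
 .e)))
 .e))))
 .e))))
 .e)))) (by decide +kernel)

theorem b6_1242 : S (PX [] [296,299,530]) := S.of (.q 332 (.a 1 [] (.d 301 3342 270 3373 425)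
 (.a 1 [270] (.d 425 3373 301 3404 456)
 (.a 0 [301,425] (.q 395 (.a 1 [] (.d 393 392 392 393 397)
 (.a 1 [392] (.d 397 393 393 394 398)
 (.a 0 [393,397] (.q 427 (.a 1 [] (.d 459 1355 331 1387 491)
 (.a 0 [331,459,491] (.q 361 (.a 1 [] (.d 328 2343 295 2376 460)
 (.a 1 [295] (.d 460 2376 328 2409 493)
 (.a 1 [328] (.r 460 2409 493 (.r 364 1356 428 (.d 362 360 360 361 365)))
 (.a 0 [460] (.q 364 (.a 1 [] (.d 362 360 360 361 365)
 (.a 1 [360] (.d 300 1292 268 1324 428)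
 .e)))
 .e)))))
 .e)))
 .e))))
 .e)))) (by decide +kernel)

theorem b6_1243 : S (PX [] [297,299,530]) := S.of (.q 395 (.a 1 [] (.d 393 392 392 393 397)
 (.a 1 [392] (.d 397 393 393 394 398)
 (.a 0 [393,397] (.q 427 (.a 1 [] (.d 459 1355 331 1387 491)
 (.a 0 [331,459,491] (.q 361 (.a 1 [] (.d 328 2343 295 2376 460)
 (.a 1 [295] (.d 460 2376 328 2409 493)
 (.a 0 [328,460] (.q 458 (.a 1 [] (.d 365 3406 334 3437 489)
 (.a 1 [334] (.d 489 3437 365 3468 520)
 (.a 1 [489] (.r 365 3406 334 (.r 362 361 364 (.d 426 1354 330 1386 490)))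
 (.a 0 [365] (.q 362 (.a 1 [] (.d 360 359 359 360 364)
 (.a 1 [359] (.d 426 1354 330 1386 490)
 .e)))
 .e)))))
 .e))))
 .e)))
 .e)))) (by decide +kernel)

theorem b6_1244 : S (PX [] [299,300,530]) := S.of (.q 429 (.a 1 [] (.d 330 2345 297 2378 462)
 (.a 1 [297] (.d 462 2378 330 2411 495)
 (.a 0 [330,462] (.q 397 (.a 1 [] (.d 395 393 393 394 398)
 (.a 0 [393,395,398] (.q 365 (.a 1 [] (.d 333 1325 301 1357 461)
 (.a 1 [301] (.d 461 1357 333 1389 493)
 (.a 1 [461] (.r 301 1325 333 (.d 332 3342 270 3373 425))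
 (.a 0 [333] (.q 427 (.a 1 [] (.d 334 3375 303 3406 458)
 (.a 1 [303] (.d 458 3406 334 3437 489)
 (.a 1 [334] (.r 493 1389 461 (.d 460 2409 361 2442 526))
 .e))))
 .e)))))
 .e)))
 .e)))) (by decide +kernel)

theorem b6_1245 : S (PX [] [299,301,530]) := S.of (.q 395 (.a 1 [] (.d 393 392 392 393 397)
 (.a 1 [392] (.d 397 393 393 394 398)
 (.a 0 [393,397] (.q 427 (.a 1 [] (.d 459 1355 331 1387 491)
 (.a 0 [331,459,491] (.q 365 (.a 1 [] (.d 334 3375 303 3406 458)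
 (.a 1 [303] (.d 458 3406 334 3437 489)
 (.a 0 [334,458] (.q 460 (.a 1 [] (.d 361 2376 328 2409 493)
 (.a 1 [328] (.d 493 2409 361 2442 526)
 (.a 1 [493] (.r 361 2376 328 (.r 364 361 362 (.d 428 1356 332 1388 492)))
 (.a 0 [361] (.q 364 (.a 1 [] (.d 366 362 362 363 367)
 (.a 1 [362] (.d 428 1356 332 1388 492)
 .e)))
 .e)))))
 .e))))
 .e)))
 .e)))) (by decide +kernel)

theorem b6_1246 : S (PX [] [299,302,530]) := S.of (.q 330 (.a 1 [] (.d 297 2312 264 2345 429)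
 (.a 1 [264] (.d 429 2345 297 2378 462)
 (.a 0 [297,429] (.q 395 (.a 1 [] (.d 393 392 392 393 397)
 (.a 1 [392] (.d 397 393 393 394 398)
 (.a 0 [393,397] (.q 427 (.a 1 [] (.d 459 1355 331 1387 491)
 (.a 0 [331,459,491] (.q 365 (.a 1 [] (.d 334 3375 303 3406 458)
 (.a 1 [303] (.d 458 3406 334 3437 489)
 (.a 1 [334] (.r 458 3437 489 (.r 362 1354 426 (.d 364 361 361 362 366)))
 (.a 0 [458] (.q 362 (.a 1 [] (.d 364 361 361 362 366)
 (.a 1 [361] (.d 298 1290 266 1322 426)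
 .e)))
 .e)))))
 .e)))
 .e))))
 .e)))) (by decide +kernel)

theorem b6_1247 : S (PX [] [299,303,530]) := S.of (.q 330 (.a 1 [] (.d 297 2312 264 2345 429)
 (.a 1 [264] (.d 429 2345 297 2378 462)
 (.a 0 [297,429] (.q 395 (.a 1 [] (.d 393 392 392 393 397)
 (.a 1 [392] (.d 397 393 393 394 398)
 (.a 0 [393,397] (.q 425 (.a 1 [] (.d 332 3373 301 3404 456)
 (.a 1 [301] (.d 456 3404 332 3435 487)
 (.a 0 [332,456] (.q 427 (.a 1 [] (.d 459 1355 331 1387 491)
 (.a 0 [331,459,491] (.q 426 (.a 1 [] (.d 424 423 423 424 428)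
 (.a 1 [423] (.d 362 1322 298 1354 458)
 .e)))
 .e)))
 .e))))
 .e))))
 .e)))) (by decide +kernel)

theorem b6_1248 : S (PX [] [299,329,530]) := S.of (.q 395 (.a 1 [] (.d 393 392 392 393 397)
 (.a 1 [392] (.d 397 393 393 394 398)
 (.a 0 [393,397] (.q 425 (.a 1 [] (.d 332 3373 301 3404 456)
 (.a 1 [301] (.d 456 3404 332 3435 487)
 (.a 0 [332,456] (.q 427 (.a 1 [] (.d 459 1355 331 1387 491)
 (.a 0 [331,459,491] (.q 330 (.a 1 [] (.d 297 2312 264 2345 429)
 (.a 1 [264] (.d 429 2345 297 2378 462)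
 (.a 1 [297] (.r 429 2378 462 (.r 426 425 428 (.d 362 1322 298 1354 458)))
 (.a 0 [429] (.q 426 (.a 1 [] (.d 424 423 423 424 428)
 (.a 1 [423] (.d 362 1322 298 1354 458)
 .e)))
 .e)))))
 .e)))
 .e))))
 .e)))) (by decide +kernel)

theorem b6_1249 : S (PX [] [299,330,530]) := S.of (.q 332 (.a 1 [] (.d 301 3342 270 3373 425)
 (.a 1 [270] (.d 425 3373 301 3404 456)
 (.a 0 [301,425] (.q 395 (.a 1 [] (.d 393 392 392 393 397)
 (.a 1 [392] (.d 397 393 393 394 398)
 (.a 0 [393,397] (.q 427 (.a 1 [] (.d 459 1355 331 1387 491)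
 (.a 0 [331,459,491] (.q 361 (.a 1 [] (.d 328 2343 295 2376 460)
 (.a 1 [295] (.d 460 2376 328 2409 493)
 (.a 1 [328] (.r 460 2409 493 (.r 364 1356 428 (.d 362 360 360 361 365)))
 (.a 0 [460] (.q 364 (.a 1 [] (.d 362 360 360 361 365)
 (.a 1 [360] (.d 300 1292 268 1324 428)
 .e)))
 .e)))))
 .e)))
 .e))))
 .e)))) (by decide +kernel)

theorem b6_1250 : S (PX [] [299,332,530]) := S.of (.q 330 (.a 1 [] (.d 297 2312 264 2345 429)
 (.a 1 [264] (.d 429 2345 297 2378 462)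
 (.a 0 [297,429] (.q 395 (.a 1 [] (.d 393 392 392 393 397)
 (.a 1 [392] (.d 397 393 393 394 398)
 (.a 0 [393,397] (.q 427 (.a 1 [] (.d 459 1355 331 1387 491)
 (.a 0 [331,459,491] (.q 365 (.a 1 [] (.d 334 3375 303 3406 458)
 (.a 1 [303] (.d 458 3406 334 3437 489)
 (.a 1 [334] (.r 458 3437 489 (.r 362 1354 426 (.d 364 361 361 362 366)))
 (.a 0 [458] (.q 362 (.a 1 [] (.d 364 361 361 362 366)
 (.a 1 [361] (.d 298 1290 266 1322 426)
 .e)))
 .e)))))
 .e)))
 .e))))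
 .e)))) (by decide +kernel)

theorem b6_1251 : S (PX [] [299,333,530]) := S.of (.q 395 (.a 1 [] (.d 393 392 392 393 397)
 (.a 1 [392] (.d 397 393 393 394 398)
 (.a 0 [393,397] (.q 429 (.a 1 [] (.d 330 2345 297 2378 462)
 (.a 1 [297] (.d 462 2378 330 2411 495)
 (.a 0 [330,462] (.q 427 (.a 1 [] (.d 459 1355 331 1387 491)
 (.a 0 [331,459,491] (.q 332 (.a 1 [] (.d 301 3342 270 3373 425)
 (.a 1 [270] (.d 425 3373 301 3404 456)
 (.a 1 [301] (.r 425 3404 456 (.r 428 425 426 (.d 364 1324 300 1356 460)))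
 (.a 0 [425] (.q 428 (.a 1 [] (.d 430 426 426 427 431)
 (.a 1 [426] (.d 364 1324 300 1356 460)
 .e)))
 .e)))))
 .e)))
 .e))))
 .e)))) (by decide +kernel)

theorem b6_1252 : S (PX [] [299,361,530]) := S.of (.q 395 (.a 1 [] (.d 393 392 392 393 397)
 (.a 1 [392] (.d 397 393 393 394 398)
 (.a 0 [393,397] (.q 425 (.a 1 [] (.d 332 3373 301 3404 456)
 (.a 1 [301] (.d 456 3404 332 3435 487)
 (.a 0 [332,456] (.q 427 (.a 1 [] (.d 459 1355 331 1387 491)
 (.a 0 [331,459,491] (.q 330 (.a 1 [] (.d 297 2312 264 2345 429)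
 (.a 1 [264] (.d 429 2345 297 2378 462)
 (.a 1 [297] (.r 429 2378 462 (.r 426 425 428 (.d 362 1322 298 1354 458)))
 (.a 0 [429] (.q 426 (.a 1 [] (.d 424 423 423 424 428)
 (.a 1 [423] (.d 362 1322 298 1354 458)
 .e)))
 .e)))))
 .e)))
 .e))))
 .e)))) (by decide +kernel)

theorem b6_1253 : S (PX [] [299,365,530]) := S.of (.q 395 (.a 1 [] (.d 393 392 392 393 397)
 (.a 1 [392] (.d 397 393 393 394 398)
 (.a 0 [393,397] (.q 429 (.a 1 [] (.d 330 2345 297 2378 462)
 (.a 1 [297] (.d 462 2378 330 2411 495)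
 (.a 0 [330,462] (.q 427 (.a 1 [] (.d 459 1355 331 1387 491)
 (.a 0 [331,459,491] (.q 332 (.a 1 [] (.d 301 3342 270 3373 425)
 (.a 1 [270] (.d 425 3373 301 3404 456)
 (.a 1 [301] (.r 425 3404 456 (.r 428 425 426 (.d 364 1324 300 1356 460)))
 (.a 0 [425] (.q 428 (.a 1 [] (.d 430 426 426 427 431)
 (.a 1 [426] (.d 364 1324 300 1356 460)
 .e)))
 .e)))))
 .e)))
 .e))))
 .e)))) (by decide +kernel)

theorem b6_1254 : S (PX [] [299,393,530]) := S.of (.q 330 (.a 1 [] (.d 297 2312 264 2345 429)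
 (.a 1 [264] (.d 429 2345 297 2378 462)
 (.a 0 [297] (.q 425 (.a 1 [] (.d 332 3373 301 3404 456)
 (.a 1 [301] (.d 456 3404 332 3435 487)
 (.a 0 [332,456] (.r 429 2378 462 (.q 426 (.a 1 [] (.d 362 1322 298 1354 458)
 (.a 1 [298] (.r 427 425 428 (.r 458 1354 362 (.d 489 3437 365 3468 520)))
 (.a 0 [362] (.r 427 425 428 (.q 365 (.a 1 [] (.d 334 3375 303 3406 458)
 (.a 1 [303] (.d 458 3406 334 3437 489)
 (.a 0 [334,458] (.q 395 (.a 1 [] (.d 459 1355 331 1387 491)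
 (.a 1 [331] (.r 397 394 398 (.d 461 1357 333 1389 493))
 .e)))
 .e)))))
 (.a 0 [458] (.r 427 425 428 (.q 361 (.a 1 [] (.d 328 2343 295 2376 460)
 (.a 1 [295] (.d 460 2376 328 2409 493)
 (.a 1 [328] (.r 362 1322 298 (.d 364 360 360 361 365))
 .e)))))
 .e))))))
 .e))))
 (.a 0 [429] (.q 362 (.a 1 [] (.d 298 1290 266 1322 426)
 (.a 1 [266] (.d 426 1322 298 1354 458)
 (.a 0 [298,426] (.q 364 (.a 1 [] (.d 361 360 360 361 365)
 (.a 1 [360] (.d 365 361 361 362 366)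
 (.a 0 [361,365] (.q 332 (.a 1 [] (.d 300 1292 268 1324 428)
 (.a 1 [268] (.d 428 1324 300 1356 460)
 (.a 1 [300] (.d 301 3342 270 3373 425)
 .e))))
 .e))))
 .e))))
 .e))))) (by decide +kernel)

theorem b6_1255 : S (PX [] [299,397,530]) := S.of (.q 330 (.a 1 [] (.d 297 2312 264 2345 429)
 (.a 1 [264] (.d 429 2345 297 2378 462)
 (.a 0 [297] (.q 425 (.a 1 [] (.d 332 3373 301 3404 456)
 (.a 1 [301] (.d 456 3404 332 3435 487)
 (.a 0 [332,456] (.q 426 (.a 1 [] (.d 362 1322 298 1354 458)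
 (.a 1 [298] (.r 458 1354 362 (.r 429 2378 462 (.r 427 425 428 (.d 489 3437 365 3468 520))))
 (.a 0 [362,458] (.q 427 (.a 1 [] (.d 429 425 428 2378 462)
 (.a 1 [429] (.d 424 423 423 424 428)
 (.a 0 [428] (.q 361 (.a 1 [] (.d 328 2343 295 2376 460)
 (.a 1 [295] (.d 460 2376 328 2409 493)
 (.a 1 [328] (.r 423 423 424 (.r 392 3402 454 (.r 393 392 395 (.d 457 1353 329 1385 489))))
 .e))))
 .e))))
 .e))))
 .e))))
 (.a 0 [429] (.q 362 (.a 1 [] (.d 298 1290 266 1322 426)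
 (.a 1 [266] (.d 426 1322 298 1354 458)
 (.a 0 [298,426] (.q 425 (.a 1 [] (.d 332 3373 301 3404 456)
 (.a 1 [301] (.d 456 3404 332 3435 487)
 (.a 0 [332,456] (.q 361 (.a 1 [] (.d 360 359 359 360 364)
 (.a 1 [359] (.d 364 360 360 361 365)
 (.a 1 [364] (.r 297 2312 264 (.r 393 1321 329 (.r 392 392 395 (.r 359 359 360 (.d 458 2374 326 2407 491)))))
 (.a 0 [360] (.q 427 (.a 1 [] (.d 328 2343 295 2376 460)
 (.a 1 [295] (.d 460 2376 328 2409 493)
 (.a 1 [328] (.r 365 361 364 (.d 458 3406 334 3437 489))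
 .e))))
 .e)))))
 .e))))
 .e))))
 .e))))) (by decide +kernel)

theorem b6_1257 : S (PX [] [299,423,530]) := S.of (.q 330 (.a 1 [] (.d 297 2312 264 2345 429)
 (.a 1 [264] (.d 429 2345 297 2378 462)
 (.a 0 [297,429] (.q 395 (.a 1 [] (.d 393 392 392 393 397)
 (.a 1 [392] (.d 397 393 393 394 398)
 (.a 0 [393,397] (.q 427 (.a 1 [] (.d 459 1355 331 1387 491)
 (.a 0 [331,459,491] (.q 365 (.a 1 [] (.d 334 3375 303 3406 458)
 (.a 1 [303] (.d 458 3406 334 3437 489)
 (.a 1 [334] (.r 458 3437 489 (.r 362 1354 426 (.d 364 361 361 362 366)))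
 (.a 0 [458] (.q 362 (.a 1 [] (.d 364 361 361 362 366)
 (.a 1 [361] (.d 298 1290 266 1322 426)
 .e)))
 .e)))))
 .e)))
 .e))))
 .e)))) (by decide +kernel)

theorem b6_1258 : S (PX [] [299,425,530]) := S.of (.q 395 (.a 1 [] (.d 393 392 392 393 397)
 (.a 1 [392] (.d 397 393 393 394 398)
 (.a 0 [393,397] (.q 427 (.a 1 [] (.d 459 1355 331 1387 491)
 (.a 0 [331,459,491] (.q 361 (.a 1 [] (.d 328 2343 295 2376 460)
 (.a 1 [295] (.d 460 2376 328 2409 493)
 (.a 0 [328,460] (.q 458 (.a 1 [] (.d 365 3406 334 3437 489)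
 (.a 1 [334] (.d 489 3437 365 3468 520)
 (.a 1 [489] (.r 365 3406 334 (.r 362 361 364 (.d 426 1354 330 1386 490)))
 (.a 0 [365] (.q 362 (.a 1 [] (.d 360 359 359 360 364)
 (.a 1 [359] (.d 426 1354 330 1386 490)
 .e)))
 .e)))))
 .e))))
 .e)))
 .e)))) (by decide +kernel)

theorem b6_1259 : S (PX [] [299,431,530]) := S.of (.q 332 (.a 1 [] (.d 301 3342 270 3373 425)
 (.a 1 [270] (.d 425 3373 301 3404 456)
 (.a 0 [301,425] (.q 395 (.a 1 [] (.d 393 392 392 393 397)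
 (.a 1 [392] (.d 397 393 393 394 398)
 (.a 0 [393,397] (.q 427 (.a 1 [] (.d 459 1355 331 1387 491)
 (.a 0 [331,459,491] (.q 361 (.a 1 [] (.d 328 2343 295 2376 460)
 (.a 1 [295] (.d 460 2376 328 2409 493)
 (.a 1 [328] (.r 460 2409 493 (.r 364 1356 428 (.d 362 360 360 361 365)))
 (.a 0 [460] (.q 364 (.a 1 [] (.d 362 360 360 361 365)
 (.a 1 [360] (.d 300 1292 268 1324 428)
 .e)))
 .e)))))
 .e)))
 .e))))
 .e)))) (by decide +kernel)

theorem b6_1260 : S (PX [] [299,457,530]) := S.of (.q 330 (.a 1 [] (.d 297 2312 264 2345 429)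
 (.a 1 [264] (.d 429 2345 297 2378 462)
 (.a 0 [297,429] (.q 395 (.a 1 [] (.d 393 392 392 393 397)
 (.a 1 [392] (.d 397 393 393 394 398)
 (.a 0 [393,397] (.q 425 (.a 1 [] (.d 332 3373 301 3404 456)
 (.a 1 [301] (.d 456 3404 332 3435 487)
 (.a 0 [332,456] (.q 427 (.a 1 [] (.d 459 1355 331 1387 491)
 (.a 0 [331,459,491] (.q 458 (.a 1 [] (.d 365 3406 334 3437 489)
 (.a 1 [334] (.d 489 3437 365 3468 520)
 (.a 1 [365] (.r 426 1354 362 (.d 424 423 423 424 428))
 .e))))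
 .e)))
 .e))))
 .e))))
 .e)))) (by decide +kernel)

theorem v2_417 : VW (PX [431] [398,464,530]) := VW.of base nl_ok fl_ok .nil
  [(497, (.cons 563 596 .nil (.cons 596 563 .nil .nil))), (563, (.cons 497 596 .nil (.cons 596 497 (.cons 629 662 .nil (.cons 662 629 .nil .nil)) .nil))), (596, (.cons 497 563 .nil (.cons 563 497 (.cons 629 662 .nil (.cons 662 629 .nil .nil)) .nil)))]
  [([299], (PX [431] [299,398,464,530])), ([332], (PX [431] [332,398,464,530])), ([365], (PX [431] [365,398,464,530])), ([400], (PX [431] [398,400,464,530])), ([457], (PX [431] [398,457,464,530]))]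
  (by decide +kernel) ⟨b2_1359, b2_1360, b2_1361, b2_1362, b2_1363, trivial⟩

theorem v2_431 : VW (PX [464] [398,497,530]) := VW.of base nl_ok fl_ok .nil
  [(563, (.cons 596 629 .nil (.cons 629 596 .nil .nil))), (596, (.cons 563 629 .nil (.cons 629 563 .nil .nil))), (629, (.cons 563 596 .nil (.cons 596 563 .nil .nil)))]
  [([299], (PX [464] [299,398,497,530])), ([332], (PX [464] [332,398,497,530])), ([365], (PX [464] [365,398,497,530])), ([400], (PX [464] [398,400,497,530])), ([457], (PX [464] [398,457,497,530]))]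
  (by decide +kernel) ⟨b2_1502, b2_1503, b2_1504, b2_1505, b2_1506, trivial⟩

theorem w2_432_464 : S (PX [] [398,464,530]) := VW.play 431 (PX [431] [398,464,530]) (by decide +kernel) v2_417

theorem w2_432_497 : S (PX [] [398,497,530]) := VW.play 464 (PX [464] [398,497,530]) (by decide +kernel) v2_431

theorem v2_432 : VW (PX [] [398,530]) := VW.of base nl_ok fl_ok .nil
  []
  [([299], (PX [] [299,398,530])), ([332], (PX [] [332,398,530])), ([365], (PX [] [365,398,530])), ([400], (PX [] [398,400,530])), ([431], (PX [] [398,431,530])), ([457], (PX [] [398,457,530])), ([464], (PX [] [398,464,530])), ([497], (PX [] [398,497,530]))]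
  (by decide +kernel) ⟨b2_1353, b2_1354, b2_1355, b2_1356, b2_1357, b2_1358, w2_432_464, w2_432_497, trivial⟩

theorem v2_433 : VW (PX [] [402,530]) := VW.of base nl_ok fl_ok .nil
  [(434, (.cons 466 498 (.cons 338 370 .nil (.cons 370 338 .nil .nil)) (.cons 498 466 .nil .nil))), (466, (.cons 434 498 (.cons 338 370 .nil (.cons 370 338 .nil .nil)) (.cons 498 434 (.cons 562 594 .nil (.cons 594 562 .nil .nil)) .nil))), (498, (.cons 434 466 .nil (.cons 466 434 (.cons 562 594 .nil (.cons 594 562 .nil .nil)) .nil)))]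
  []
  (by decide +kernel) trivial

theorem v2_434 : VW (PX [] [406,530]) := VW.of base nl_ok fl_ok .nil
  [(437, (.cons 468 499 (.cons 344 375 .nil (.cons 375 344 .nil .nil)) (.cons 499 468 .nil .nil))), (468, (.cons 437 499 (.cons 344 375 .nil (.cons 375 344 .nil .nil)) (.cons 499 437 (.cons 561 592 .nil (.cons 592 561 .nil .nil)) .nil))), (499, (.cons 437 468 .nil (.cons 468 437 (.cons 561 592 .nil (.cons 592 561 .nil .nil)) .nil)))]
  []
  (by decide +kernel) trivial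

theorem v2_438 : VW (PX [497] [431,464,530]) := VW.of base nl_ok fl_ok .nil
  []
  (([231], (PX [497] [231,431,464,530])) :: ([264], (PX [497] [264,431,464,530])) :: ([265], (PX [497] [265,431,464,530])) :: ([269], (PX [497] [269,431,464,530])) :: ([297], (PX [497] [297,431,464,530])) :: ([299], (PX [497] [299,431,464,530])) :: ([300], (PX [497] [300,431,464,530])) :: ([303], (PX [497] [303,431,464,530])) :: ([326], (PX [497] [326,431,464,530])) :: ([331], (PX [497] [331,431,464,530])) :: ([332], (PX [497] [332,431,464,530])) :: ([335], (PX [497] [335,431,464,530])) :: ([359], (PX [497] [359,431,464,530])) :: ([361], (PX [497] [361,431,464,530])) :: ([365], (PX [497] [365,431,464,530])) :: ([366], (PX [497] [366,431,464,530])) :: ([392], (PX [497] [392,431,464,530])) :: ([393], (PX [497] [393,431,464,530])) :: ([395], (PX [497] [395,431,464,530])) :: ([397], (PX [497] [397,431,464,530])) :: ([398], (PX [497] [398,431,464,530]))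 :: ([399], (PX [497] [399,431,464,530])) :: ([400], (PX [497] [400,431,464,530])) :: ([423], (PX [497] [423,431,464,530])) :: ([424], (PX [497] [424,431,464,530])) :: ([425], (PX [497] [425,431,464,530])) :: ([426], (PX [497] [426,431,464,530])) :: ([427], (PX [497] [427,431,464,530])) :: ([428], (PX [497] [428,431,464,530])) :: ([429], (PX [497] [429,431,464,530])) :: ([430], (PX [497] [430,431,464,530])) :: ([432], (PX [497] [431,432,464,530])) :: ([433], (PX [497] [431,433,464,530])) :: ([457], (PX [497] [431,457,464,530])) :: ([458], (PX [497] [431,458,464,530])) :: ([459], (PX [497] [431,459,464,530])) :: ([460], (PX [497] [431,460,464,530])) :: ([461], (PX [497] [431,461,464,530])) :: ([462], (PX [497] [431,462,464,530])) :: ([463], (PX [497] [431,463,464,530])) :: ([491], (PX [497] [431,464,491,530])) :: ([495], (PX [497] [431,464,495,530])) :: ([521], (PX [497] [431,464,521,530])) :: ([524], (PX [497] [431,464,524,530]))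 :: [])
  (by decide +kernel) ⟨b2_1513, b2_1514, b2_1515, b2_1516, b2_1517, b2_1518, b2_1519, b2_1520, b2_1521, b2_1522, b2_1547, b2_1548, b2_1549, b2_1550, b2_1551, b2_1552, b2_1553, b2_1554, b2_1555, b2_1556, b2_1385, b2_1557, b2_1558, b2_1559, b2_1560, b2_1561, b2_1562, b2_1563, b2_1564, b2_1565, b2_1566, b2_1567, b2_1568, b2_1569, b2_1570, b2_1571, b2_1572, b2_1573, b2_1574, b2_1575, b2_1576, b2_1577, b2_1578, b2_1579, trivial⟩

theorem v2_453 : VW (PX [464] [431,497,530]) := VW.of base nl_ok fl_ok .nil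
  [(563, (.cons 596 629 .nil (.cons 629 596 .nil .nil))), (596, (.cons 563 629 .nil (.cons 629 563 .nil .nil))), (629, (.cons 563 596 .nil (.cons 596 563 .nil .nil)))]
  [([332], (PX [464] [332,431,497,530])), ([365], (PX [464] [365,431,497,530])), ([397], (PX [464] [397,431,497,530])), ([398], (PX [464] [398,431,497,530])), ([424], (PX [464] [424,431,497,530])), ([427], (PX [464] [427,431,497,530])), ([428], (PX [464] [428,431,497,530]))]
  (by decide +kernel) ⟨b2_1763, b2_1764, b2_1765, b2_1766, b2_1767, b2_1768, b2_1769, trivial⟩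

theorem w2_454_464 : S (PX [] [431,464,530]) := VW.play 497 (PX [497] [431,464,530]) (by decide +kernel) v2_438

theorem w2_454_497 : S (PX [] [431,497,530]) := VW.play 464 (PX [464] [431,497,530]) (by decide +kernel) v2_453

theorem v2_454 : VW (PX [] [431,530]) := VW.of base nl_ok fl_ok .nil
  [(563, (.cons 464 497 .nil (.cons 497 464 (.cons 596 629 .nil (.cons 629 596 .nil .nil)) .nil)))]
  [([332], (PX [] [332,431,530])), ([365], (PX [] [365,431,530])), ([397], (PX [] [397,431,530])), ([398], (PX [] [398,431,530])), ([424], (PX [] [424,431,530])), ([427], (PX [] [427,431,530])), ([428], (PX [] [428,431,530])), ([464], (PX [] [431,464,530])), ([497], (PX [] [431,497,530]))]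
  (by decide +kernel) ⟨b2_1507, b2_1508, b2_1509, b2_1357, b2_1510, b2_1511, b2_1512, w2_454_464, w2_454_497, trivial⟩

theorem v2_457 : VW (PX [498] [434,466,530]) := VW.of base nl_ok fl_ok .nil
  [(338, (.cons 370 402 .nil (.cons 402 370 .nil .nil))), (370, (.cons 338 402 .nil (.cons 402 338 .nil .nil))), (402, (.cons 338 370 .nil (.cons 370 338 .nil .nil)))]
  []
  (by decide +kernel) trivial

theorem v2_155 : VW (PX [466] [434,498,530]) := VW.of base nl_ok fl_ok .nil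
  [(562, (.cons 594 626 .nil (.cons 626 594 .nil .nil))), (594, (.cons 562 626 .nil (.cons 626 562 .nil .nil))), (626, (.cons 562 594 .nil (.cons 594 562 .nil .nil)))]
  []
  (by decide +kernel) trivial

theorem w2_472_466 : S (PX [] [434,466,530]) := VW.play 498 (PX [498] [434,466,530]) (by decide +kernel) v2_457

theorem w2_472_498 : S (PX [] [434,498,530]) := VW.play 466 (PX [466] [434,498,530]) (by decide +kernel) v2_155

theorem v2_472 : VW (PX [] [434,530]) := VW.of base nl_ok fl_ok .nil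
  [(402, (.cons 466 498 (.cons 338 370 .nil (.cons 370 338 .nil .nil)) (.cons 498 466 .nil .nil))), (562, (.cons 466 498 .nil (.cons 498 466 (.cons 594 626 .nil (.cons 626 594 .nil .nil)) .nil)))]
  [([466], (PX [] [434,466,530])), ([498], (PX [] [434,498,530]))]
  (by decide +kernel) ⟨w2_472_466, w2_472_498, trivial⟩

theorem v2_473 : VW (PX [499] [437,468,530]) := VW.of base nl_ok fl_ok .nil
  [(344, (.cons 375 406 .nil (.cons 406 375 .nil .nil))), (375, (.cons 344 406 .nil (.cons 406 344 .nil .nil))), (406, (.cons 344 375 .nil (.cons 375 344 .nil .nil)))]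
  []
  (by decide +kernel) trivial

theorem v2_489 : VW (PX [468] [437,499,530]) := VW.of base nl_ok fl_ok .nil
  [(561, (.cons 592 623 .nil (.cons 623 592 .nil .nil))), (592, (.cons 561 623 .nil (.cons 623 561 .nil .nil))), (623, (.cons 561 592 .nil (.cons 592 561 .nil .nil)))]
  []
  (by decide +kernel) trivial

theorem w2_492_468 : S (PX [] [437,468,530]) := VW.play 499 (PX [499] [437,468,530]) (by decide +kernel) v2_473

theorem w2_492_499 : S (PX [] [437,499,530]) := VW.play 468 (PX [468] [437,499,530]) (by decide +kernel) v2_489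

theorem v2_492 : VW (PX [] [437,530]) := VW.of base nl_ok fl_ok .nil
  [(406, (.cons 468 499 (.cons 344 375 .nil (.cons 375 344 .nil .nil)) (.cons 499 468 .nil .nil))), (561, (.cons 468 499 .nil (.cons 499 468 (.cons 592 623 .nil (.cons 623 592 .nil .nil)) .nil)))]
  [([468], (PX [] [437,468,530])), ([499], (PX [] [437,499,530]))]
  (by decide +kernel) ⟨w2_492_468, w2_492_499, trivial⟩

theorem v2_493 : VW (PX [431,596] [464,497,530,563]) := VW.of base nl_ok fl_ok .nil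
  []
  [([365], (PX [431,596] [365,464,497,530,563]))]
  (by decide +kernel) ⟨b2_1772, trivial⟩

theorem v2_494 : VW (PX [431,563] [464,497,530,596]) := VW.of base nl_ok fl_ok .nil
  []
  [([365], (PX [431,563] [365,464,497,530,596]))]
  (by decide +kernel) ⟨b2_1773, trivial⟩

theorem w2_495_563 : S (PX [431] [464,497,530,563]) := VW.play 596 (PX [431,596] [464,497,530,563]) (by decide +kernel) v2_493

theorem w2_495_596 : S (PX [431] [464,497,530,596]) := VW.play 563 (PX [431,563] [464,497,530,596]) (by decide +kernel) v2_494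

theorem v2_495 : VW (PX [431] [464,497,530]) := VW.of base nl_ok fl_ok (.cons 563 596 .nil (.cons 596 563 .nil .nil))
  [(629, (.cons 563 596 .nil (.cons 596 563 .nil .nil))), (662, (.cons 563 596 .nil (.cons 596 563 .nil .nil))), (695, (.cons 563 596 .nil (.cons 596 563 .nil .nil)))]
  [([365], (PX [431] [365,464,497,530])), ([563], (PX [431] [464,497,530,563])), ([596], (PX [431] [464,497,530,596]))]
  (by decide +kernel) ⟨b2_1771, w2_495_563, w2_495_596, trivial⟩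

theorem v2_510 : VW (PX [497] [464,530,563]) := VW.of base nl_ok fl_ok .nil
  [(596, (.cons 629 662 .nil (.cons 662 629 .nil .nil))), (629, (.cons 596 662 .nil (.cons 662 596 .nil .nil))), (662, (.cons 596 629 .nil (.cons 629 596 .nil .nil)))]
  [([365], (PX [497] [365,464,530,563]))]
  (by decide +kernel) ⟨b2_1795, trivial⟩

theorem v2_511 : VW (PX [497] [464,530,596]) := VW.of base nl_ok fl_ok .nil
  [(563, (.cons 629 662 .nil (.cons 662 629 .nil .nil))), (629, (.cons 563 662 .nil (.cons 662 563 (.cons 695 728 .nil (.cons 728 695 .nil .nil)) .nil))), (662, (.cons 563 629 .nil (.cons 629 563 (.cons 695 728 .nil (.cons 728 695 .nil .nil)) .nil)))]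
  [([365], (PX [497] [365,464,530,596]))]
  (by decide +kernel) ⟨b2_1796, trivial⟩

theorem w2_519_398 : S (PX [] [398,464,530]) := VW.play 431 (PX [431] [398,464,530]) (by decide +kernel) v2_417

theorem w2_519_431 : S (PX [] [431,464,530]) := VW.play 497 (PX [497] [431,464,530]) (by decide +kernel) v2_438

theorem w2_519_497 : S (PX [] [464,497,530]) := VW.play 431 (PX [431] [464,497,530]) (by decide +kernel) v2_495

theorem w2_519_563 : S (PX [] [464,530,563]) := VW.play 497 (PX [497] [464,530,563]) (by decide +kernel) v2_510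

theorem w2_519_596 : S (PX [] [464,530,596]) := VW.play 497 (PX [497] [464,530,596]) (by decide +kernel) v2_511

theorem v2_519 : VW (PX [] [464,530]) := VW.of base nl_ok fl_ok .nil
  []
  [([365], (PX [] [365,464,530])), ([398], (PX [] [398,464,530])), ([431], (PX [] [431,464,530])), ([497], (PX [] [464,497,530])), ([563], (PX [] [464,530,563])), ([596], (PX [] [464,530,596]))]
  (by decide +kernel) ⟨b2_1770, w2_519_398, w2_519_431, w2_519_497, w2_519_563, w2_519_596, trivial⟩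

theorem v2_188 : VW (PX [434,594] [466,498,530,562]) := VW.of base nl_ok fl_ok .nil
  []
  []
  (by decide +kernel) trivial

theorem v2_189 : VW (PX [434,562] [466,498,530,594]) := VW.of base nl_ok fl_ok .nil
  []
  []
  (by decide +kernel) trivial

theorem w2_190_562 : S (PX [434] [466,498,530,562]) := VW.play 594 (PX [434,594] [466,498,530,562]) (by decide +kernel) v2_188

theorem w2_190_594 : S (PX [434] [466,498,530,594]) := VW.play 562 (PX [434,562] [466,498,530,594]) (by decide +kernel) v2_189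

theorem v2_190 : VW (PX [434] [466,498,530]) := VW.of base nl_ok fl_ok (.cons 562 594 .nil (.cons 594 562 .nil .nil))
  [(626, (.cons 562 594 .nil (.cons 594 562 .nil .nil))), (658, (.cons 562 594 .nil (.cons 594 562 .nil .nil))), (690, (.cons 562 594 .nil (.cons 594 562 .nil .nil)))]
  [([562], (PX [434] [466,498,530,562])), ([594], (PX [434] [466,498,530,594]))]
  (by decide +kernel) ⟨w2_190_562, w2_190_594, trivial⟩

theorem v2_534 : VW (PX [498] [466,530,562]) := VW.of base nl_ok fl_ok .nil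
  [(594, (.cons 626 658 .nil (.cons 658 626 .nil .nil))), (626, (.cons 594 658 .nil (.cons 658 594 .nil .nil))), (658, (.cons 594 626 .nil (.cons 626 594 .nil .nil)))]
  []
  (by decide +kernel) trivial

theorem w2_537_434 : S (PX [] [434,466,530]) := VW.play 498 (PX [498] [434,466,530]) (by decide +kernel) v2_457

theorem w2_537_498 : S (PX [] [466,498,530]) := VW.play 434 (PX [434] [466,498,530]) (by decide +kernel) v2_190

theorem w2_537_562 : S (PX [] [466,530,562]) := VW.play 498 (PX [498] [466,530,562]) (by decide +kernel) v2_534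

theorem v2_537 : VW (PX [] [466,530]) := VW.of base nl_ok fl_ok .nil
  [(402, (.cons 434 498 (.cons 338 370 .nil (.cons 370 338 .nil .nil)) (.cons 498 434 (.cons 562 594 .nil (.cons 594 562 .nil .nil)) .nil))), (594, (.cons 498 562 (.cons 402 434 .nil (.cons 434 402 .nil .nil)) (.cons 562 498 (.cons 626 658 .nil (.cons 658 626 .nil .nil)) .nil)))]
  [([434], (PX [] [434,466,530])), ([498], (PX [] [466,498,530])), ([562], (PX [] [466,530,562]))]
  (by decide +kernel) ⟨w2_537_434, w2_537_498, w2_537_562, trivial⟩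

theorem v2_538 : VW (PX [437,561] [406,468,499,530]) := VW.of base nl_ok fl_ok .nil
  []
  []
  (by decide +kernel) trivial

theorem v2_487 : VW (PX [406,561] [437,468,499,530]) := VW.of base nl_ok fl_ok .nil
  []
  []
  (by decide +kernel) trivial

theorem w2_539_406 : S (PX [561] [406,468,499,530]) := VW.play 437 (PX [437,561] [406,468,499,530]) (by decide +kernel) v2_538

theorem w2_539_437 : S (PX [561] [437,468,499,530]) := VW.play 406 (PX [406,561] [437,468,499,530]) (by decide +kernel) v2_487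

theorem v2_539 : VW (PX [561] [468,499,530]) := VW.of base nl_ok fl_ok (.cons 406 437 .nil (.cons 437 406 .nil .nil))
  [(313, (.cons 406 437 .nil (.cons 437 406 .nil .nil))), (344, (.cons 406 437 .nil (.cons 437 406 .nil .nil))), (375, (.cons 406 437 .nil (.cons 437 406 .nil .nil)))]
  [([406], (PX [561] [406,468,499,530])), ([437], (PX [561] [437,468,499,530]))]
  (by decide +kernel) ⟨w2_539_406, w2_539_437, trivial⟩

theorem v2_540 : VW (PX [499] [468,530,561]) := VW.of base nl_ok fl_ok .nil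
  [(592, (.cons 623 654 .nil (.cons 654 623 .nil .nil))), (623, (.cons 592 654 .nil (.cons 654 592 .nil .nil))), (654, (.cons 592 623 .nil (.cons 623 592 .nil .nil)))]
  []
  (by decide +kernel) trivial

theorem w2_544_437 : S (PX [] [437,468,530]) := VW.play 499 (PX [499] [437,468,530]) (by decide +kernel) v2_473

theorem w2_544_499 : S (PX [] [468,499,530]) := VW.play 561 (PX [561] [468,499,530]) (by decide +kernel) v2_539

theorem w2_544_561 : S (PX [] [468,530,561]) := VW.play 499 (PX [499] [468,530,561]) (by decide +kernel) v2_540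

theorem v2_544 : VW (PX [] [468,530]) := VW.of base nl_ok fl_ok .nil
  [(406, (.cons 437 499 (.cons 344 375 .nil (.cons 375 344 .nil .nil)) (.cons 499 437 (.cons 561 592 .nil (.cons 592 561 .nil .nil)) .nil))), (592, (.cons 499 561 (.cons 406 437 .nil (.cons 437 406 .nil .nil)) (.cons 561 499 (.cons 623 654 .nil (.cons 654 623 .nil .nil)) .nil)))]
  [([437], (PX [] [437,468,530])), ([499], (PX [] [468,499,530])), ([561], (PX [] [468,530,561]))]
  (by decide +kernel) ⟨w2_544_437, w2_544_499, w2_544_561, trivial⟩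

theorem v2_545 : VW (PX [464,629] [497,530,563,596]) := VW.of base nl_ok fl_ok .nil
  []
  []
  (by decide +kernel) trivial

theorem v2_546 : VW (PX [464,596] [497,530,563,629]) := VW.of base nl_ok fl_ok .nil
  []
  []
  (by decide +kernel) trivial

theorem w2_547_596 : S (PX [464] [497,530,563,596]) := VW.play 629 (PX [464,629] [497,530,563,596]) (by decide +kernel) v2_545

theorem w2_547_629 : S (PX [464] [497,530,563,629]) := VW.play 596 (PX [464,596] [497,530,563,629]) (by decide +kernel) v2_546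

theorem v2_547 : VW (PX [464] [497,530,563]) := VW.of base nl_ok fl_ok (.cons 596 629 .nil (.cons 629 596 .nil .nil))
  [(662, (.cons 596 629 .nil (.cons 629 596 .nil .nil))), (695, (.cons 596 629 .nil (.cons 629 596 .nil .nil))), (728, (.cons 596 629 .nil (.cons 629 596 .nil .nil)))]
  [([596], (PX [464] [497,530,563,596])), ([629], (PX [464] [497,530,563,629]))]
  (by decide +kernel) ⟨w2_547_596, w2_547_629, trivial⟩

theorem v2_548 : VW (PX [464,563] [497,530,596,629]) := VW.of base nl_ok fl_ok .nil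
  [(662, (.cons 695 728 .nil (.cons 728 695 .nil .nil))), (695, (.cons 662 728 .nil (.cons 728 662 .nil .nil))), (728, (.cons 662 695 .nil (.cons 695 662 .nil .nil)))]
  []
  (by decide +kernel) trivial

theorem w2_549_563 : S (PX [464] [497,530,563,596]) := VW.play 629 (PX [464,629] [497,530,563,596]) (by decide +kernel) v2_545

theorem w2_549_629 : S (PX [464] [497,530,596,629]) := VW.play 563 (PX [464,563] [497,530,596,629]) (by decide +kernel) v2_548

theorem v2_549 : VW (PX [464] [497,530,596]) := VW.of base nl_ok fl_ok (.cons 563 629 .nil (.cons 629 563 .nil .nil))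
  [(662, (.cons 563 629 .nil (.cons 629 563 (.cons 695 728 .nil (.cons 728 695 .nil .nil)) .nil))), (695, (.cons 563 629 .nil (.cons 629 563 (.cons 662 728 .nil (.cons 728 662 .nil .nil)) .nil))), (728, (.cons 563 629 .nil (.cons 629 563 (.cons 662 695 .nil (.cons 695 662 .nil .nil)) .nil)))]
  [([563], (PX [464] [497,530,563,596])), ([629], (PX [464] [497,530,596,629]))]
  (by decide +kernel) ⟨w2_549_563, w2_549_629, trivial⟩

theorem v2_553 : VW (PX [431,563] [398,497,530,629]) := VW.of base nl_ok fl_ok .nil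
  []
  [([299], (PX [431,563] [299,398,497,530,629])), ([332], (PX [431,563] [332,398,497,530,629])), ([365], (PX [431,563] [365,398,497,530,629])), ([400], (PX [431,563] [398,400,497,530,629])), ([457], (PX [431,563] [398,457,497,530,629]))]
  (by decide +kernel) ⟨b2_1895, b2_1896, b2_1897, b2_1898, b2_1899, trivial⟩

theorem v2_448 : VW (PX [398,563] [431,497,530,629]) := VW.of base nl_ok fl_ok .nil
  []
  [([332], (PX [398,563] [332,431,497,530,629])), ([365], (PX [398,563] [365,431,497,530,629])), ([397], (PX [398,563] [397,431,497,530,629])), ([424], (PX [398,563] [424,431,497,530,629])), ([427], (PX [398,563] [427,431,497,530,629])), ([428], (PX [398,563] [428,431,497,530,629]))]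
  (by decide +kernel) ⟨b2_1708, b2_1709, b2_1710, b2_1711, b2_1712, b2_1713, trivial⟩

theorem v2_557 : VW (PX [431,563] [464,497,530,629]) := VW.of base nl_ok fl_ok .nil
  []
  [([365], (PX [431,563] [365,464,497,530,629]))]
  (by decide +kernel) ⟨b2_1913, trivial⟩

theorem w2_558_398 : S (PX [563] [398,497,530,629]) := VW.play 431 (PX [431,563] [398,497,530,629]) (by decide +kernel) v2_553

theorem w2_558_431 : S (PX [563] [431,497,530,629]) := VW.play 398 (PX [398,563] [431,497,530,629]) (by decide +kernel) v2_448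

theorem w2_558_464 : S (PX [563] [464,497,530,629]) := VW.play 431 (PX [431,563] [464,497,530,629]) (by decide +kernel) v2_557

theorem v2_558 : VW (PX [563] [497,530,629]) := VW.of base nl_ok fl_ok .nil
  []
  [([398], (PX [563] [398,497,530,629])), ([431], (PX [563] [431,497,530,629])), ([464], (PX [563] [464,497,530,629]))]
  (by decide +kernel) ⟨w2_558_398, w2_558_431, w2_558_464, trivial⟩

theorem w2_566_398 : S (PX [] [398,497,530]) := VW.play 464 (PX [464] [398,497,530]) (by decide +kernel) v2_431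

theorem w2_566_431 : S (PX [] [431,497,530]) := VW.play 464 (PX [464] [431,497,530]) (by decide +kernel) v2_453

theorem w2_566_464 : S (PX [] [464,497,530]) := VW.play 431 (PX [431] [464,497,530]) (by decide +kernel) v2_495

theorem w2_566_563 : S (PX [] [497,530,563]) := VW.play 464 (PX [464] [497,530,563]) (by decide +kernel) v2_547

theorem w2_566_596 : S (PX [] [497,530,596]) := VW.play 464 (PX [464] [497,530,596]) (by decide +kernel) v2_549

theorem w2_566_629 : S (PX [] [497,530,629]) := VW.play 563 (PX [563] [497,530,629]) (by decide +kernel) v2_558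

theorem v2_566 : VW (PX [] [497,530]) := VW.of base nl_ok fl_ok .nil
  []
  [([398], (PX [] [398,497,530])), ([431], (PX [] [431,497,530])), ([464], (PX [] [464,497,530])), ([563], (PX [] [497,530,563])), ([596], (PX [] [497,530,596])), ([629], (PX [] [497,530,629]))]
  (by decide +kernel) ⟨w2_566_398, w2_566_431, w2_566_464, w2_566_563, w2_566_596, w2_566_629, trivial⟩

theorem v2_337 : VW (PX [466,626] [498,530,562,594]) := VW.of base nl_ok fl_ok .nil
  []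
  []
  (by decide +kernel) trivial

theorem v2_338 : VW (PX [466,594] [498,530,562,626]) := VW.of base nl_ok fl_ok .nil
  []
  []
  (by decide +kernel) trivial

theorem w2_339_594 : S (PX [466] [498,530,562,594]) := VW.play 626 (PX [466,626] [498,530,562,594]) (by decide +kernel) v2_337

theorem w2_339_626 : S (PX [466] [498,530,562,626]) := VW.play 594 (PX [466,594] [498,530,562,626]) (by decide +kernel) v2_338

theorem v2_339 : VW (PX [466] [498,530,562]) := VW.of base nl_ok fl_ok (.cons 594 626 .nil (.cons 626 594 .nil .nil))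
  [(658, (.cons 594 626 .nil (.cons 626 594 .nil .nil))), (690, (.cons 594 626 .nil (.cons 626 594 .nil .nil))), (722, (.cons 594 626 .nil (.cons 626 594 .nil .nil)))]
  [([594], (PX [466] [498,530,562,594])), ([626], (PX [466] [498,530,562,626]))]
  (by decide +kernel) ⟨w2_339_594, w2_339_626, trivial⟩

theorem v2_344 : VW (PX [562] [498,530,594]) := VW.of base nl_ok fl_ok .nil
  [(402, (.cons 434 466 .nil (.cons 466 434 .nil .nil))), (434, (.cons 402 466 .nil (.cons 466 402 .nil .nil))), (466, (.cons 402 434 .nil (.cons 434 402 .nil .nil)))]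
  []
  (by decide +kernel) trivial

theorem w2_356_434 : S (PX [] [434,498,530]) := VW.play 466 (PX [466] [434,498,530]) (by decide +kernel) v2_155

theorem w2_356_466 : S (PX [] [466,498,530]) := VW.play 434 (PX [434] [466,498,530]) (by decide +kernel) v2_190

theorem w2_356_562 : S (PX [] [498,530,562]) := VW.play 466 (PX [466] [498,530,562]) (by decide +kernel) v2_339

theorem w2_356_594 : S (PX [] [498,530,594]) := VW.play 562 (PX [562] [498,530,594]) (by decide +kernel) v2_344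

theorem v2_356 : VW (PX [] [498,530]) := VW.of base nl_ok fl_ok .nil
  [(402, (.cons 434 466 .nil (.cons 466 434 (.cons 562 594 .nil (.cons 594 562 .nil .nil)) .nil))), (626, (.cons 562 594 (.cons 434 466 .nil (.cons 466 434 .nil .nil)) (.cons 594 562 .nil .nil)))]
  [([434], (PX [] [434,498,530])), ([466], (PX [] [466,498,530])), ([562], (PX [] [498,530,562])), ([594], (PX [] [498,530,594]))]
  (by decide +kernel) ⟨w2_356_434, w2_356_466, w2_356_562, w2_356_594, trivial⟩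

theorem v2_567 : VW (PX [468,592] [437,499,530,561]) := VW.of base nl_ok fl_ok .nil
  []
  []
  (by decide +kernel) trivial

theorem v2_542 : VW (PX [437,592] [468,499,530,561]) := VW.of base nl_ok fl_ok .nil
  []
  []
  (by decide +kernel) trivial

theorem w2_568_437 : S (PX [592] [437,499,530,561]) := VW.play 468 (PX [468,592] [437,499,530,561]) (by decide +kernel) v2_567

theorem w2_568_468 : S (PX [592] [468,499,530,561]) := VW.play 437 (PX [437,592] [468,499,530,561]) (by decide +kernel) v2_542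

theorem v2_568 : VW (PX [592] [499,530,561]) := VW.of base nl_ok fl_ok (.cons 437 468 .nil (.cons 468 437 .nil .nil))
  [(344, (.cons 437 468 .nil (.cons 468 437 .nil .nil))), (375, (.cons 437 468 .nil (.cons 468 437 .nil .nil))), (406, (.cons 437 468 .nil (.cons 468 437 .nil .nil)))]
  [([437], (PX [592] [437,499,530,561])), ([468], (PX [592] [468,499,530,561]))]
  (by decide +kernel) ⟨w2_568_437, w2_568_468, trivial⟩

theorem v2_569 : VW (PX [561] [499,530,592]) := VW.of base nl_ok fl_ok .nil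
  [(406, (.cons 437 468 .nil (.cons 468 437 .nil .nil))), (437, (.cons 406 468 .nil (.cons 468 406 .nil .nil))), (468, (.cons 406 437 .nil (.cons 437 406 .nil .nil)))]
  []
  (by decide +kernel) trivial

theorem w2_570_437 : S (PX [] [437,499,530]) := VW.play 468 (PX [468] [437,499,530]) (by decide +kernel) v2_489

theorem w2_570_468 : S (PX [] [468,499,530]) := VW.play 561 (PX [561] [468,499,530]) (by decide +kernel) v2_539

theorem w2_570_561 : S (PX [] [499,530,561]) := VW.play 592 (PX [592] [499,530,561]) (by decide +kernel) v2_568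

theorem w2_570_592 : S (PX [] [499,530,592]) := VW.play 561 (PX [561] [499,530,592]) (by decide +kernel) v2_569

theorem v2_570 : VW (PX [] [499,530]) := VW.of base nl_ok fl_ok .nil
  [(406, (.cons 437 468 .nil (.cons 468 437 (.cons 561 592 .nil (.cons 592 561 .nil .nil)) .nil))), (623, (.cons 561 592 (.cons 437 468 .nil (.cons 468 437 .nil .nil)) (.cons 592 561 .nil .nil)))]
  [([437], (PX [] [437,499,530])), ([468], (PX [] [468,499,530])), ([561], (PX [] [499,530,561])), ([592], (PX [] [499,530,592]))]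
  (by decide +kernel) ⟨w2_570_437, w2_570_468, w2_570_561, w2_570_592, trivial⟩

theorem v2_571 : VW (PX [524,528] [523,526,527,530]) := VW.of base nl_ok fl_ok .nil
  []
  [([427], (PX [524,528] [427,523,526,527,530]))]
  (by decide +kernel) ⟨b2_1934, trivial⟩

theorem v2_572 : VW (PX [524,528] [525,526,527,530]) := VW.of base nl_ok fl_ok .nil
  []
  [([330], (PX [524,528] [330,525,526,527,530])), ([332], (PX [524,528] [332,525,526,527,530])), ([397], (PX [524,528] [397,525,526,527,530])), ([425], (PX [524,528] [425,525,526,527,530])), ([427], (PX [524,528] [427,525,526,527,530])), ([428], (PX [524,528] [428,525,526,527,530])), ([429], (PX [524,528] [429,525,526,527,530])), ([461], (PX [524,528] [461,525,526,527,530]))]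
  (by decide +kernel) ⟨b2_1941, b2_1942, b2_1943, b2_1944, b2_1945, b2_1946, b2_1947, b2_1948, trivial⟩

theorem w2_573_523 : S (PX [528] [523,526,527,530]) := VW.play 524 (PX [524,528] [523,526,527,530]) (by decide +kernel) v2_571

theorem w2_573_525 : S (PX [528] [525,526,527,530]) := VW.play 524 (PX [524,528] [525,526,527,530]) (by decide +kernel) v2_572

theorem v2_573 : VW (PX [528] [526,527,530]) := VW.of base nl_ok fl_ok .nil
  [(524, (.cons 523 525 .nil (.cons 525 523 .nil .nil)))]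
  [([330], (PX [528] [330,526,527,530])), ([428], (PX [528] [428,526,527,530])), ([523], (PX [528] [523,526,527,530])), ([525], (PX [528] [525,526,527,530]))]
  (by decide +kernel) ⟨b2_1932, b2_1933, w2_573_523, w2_573_525, trivial⟩

theorem v2_581 : VW (PX [527] [526,528,530]) := VW.of base nl_ok fl_ok .nil
  [(529, (.cons 531 532 .nil (.cons 532 531 .nil .nil))), (531, (.cons 529 532 .nil (.cons 532 529 (.cons 533 534 .nil (.cons 534 533 .nil .nil)) .nil))), (532, (.cons 529 531 .nil (.cons 531 529 (.cons 533 534 .nil (.cons 534 533 .nil .nil)) .nil)))]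
  []
  (by decide +kernel) trivial

theorem w2_590_527 : S (PX [] [526,527,530]) := VW.play 528 (PX [528] [526,527,530]) (by decide +kernel) v2_573

theorem w2_590_528 : S (PX [] [526,528,530]) := VW.play 527 (PX [527] [526,528,530]) (by decide +kernel) v2_581

theorem v2_590 : VW (PX [] [526,530]) := VW.of base nl_ok fl_ok .nil
  [(529, (.cons 527 528 .nil (.cons 528 527 (.cons 531 532 .nil (.cons 532 531 .nil .nil)) .nil)))]
  [([527], (PX [] [526,527,530])), ([528], (PX [] [526,528,530]))]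
  (by decide +kernel) ⟨w2_590_527, w2_590_528, trivial⟩

theorem v2_578 : VW (PX [524,529] [526,527,528,530]) := VW.of base nl_ok fl_ok .nil
  []
  []
  (by decide +kernel) trivial

theorem w2_591_526 : S (PX [529] [526,527,528,530]) := VW.play 524 (PX [524,529] [526,527,528,530]) (by decide +kernel) v2_578

theorem v2_591 : VW (PX [529] [527,528,530]) := VW.of base nl_ok fl_ok .nil
  [(524, (.cons 525 526 .nil (.cons 526 525 .nil .nil))), (525, (.cons 524 526 .nil (.cons 526 524 .nil .nil)))]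
  [([428], (PX [529] [428,527,528,530])), ([526], (PX [529] [526,527,528,530]))]
  (by decide +kernel) ⟨b2_2047, w2_591_526, trivial⟩

theorem v2_592 : VW (PX [528] [527,529,530]) := VW.of base nl_ok fl_ok .nil
  [(531, (.cons 532 533 .nil (.cons 533 532 .nil .nil))), (532, (.cons 531 533 .nil (.cons 533 531 .nil .nil))), (533, (.cons 531 532 .nil (.cons 532 531 .nil .nil)))]
  []
  (by decide +kernel) trivial

theorem w2_593_526 : S (PX [] [526,527,530]) := VW.play 528 (PX [528] [526,527,530]) (by decide +kernel) v2_573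

theorem w2_593_528 : S (PX [] [527,528,530]) := VW.play 529 (PX [529] [527,528,530]) (by decide +kernel) v2_591

theorem w2_593_529 : S (PX [] [527,529,530]) := VW.play 528 (PX [528] [527,529,530]) (by decide +kernel) v2_592

theorem v2_593 : VW (PX [] [527,530]) := VW.of base nl_ok fl_ok .nil
  [(531, (.cons 528 529 .nil (.cons 529 528 (.cons 532 533 .nil (.cons 533 532 .nil .nil)) .nil)))]
  [([526], (PX [] [526,527,530])), ([528], (PX [] [527,528,530])), ([529], (PX [] [527,529,530]))]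
  (by decide +kernel) ⟨w2_593_526, w2_593_528, w2_593_529, trivial⟩

theorem v2_594 : VW (PX [527,532] [528,529,530,531]) := VW.of base nl_ok fl_ok .nil
  []
  []
  (by decide +kernel) trivial

theorem v2_595 : VW (PX [527,531] [528,529,530,532]) := VW.of base nl_ok fl_ok .nil
  []
  []
  (by decide +kernel) trivial

theorem w2_596_531 : S (PX [527] [528,529,530,531]) := VW.play 532 (PX [527,532] [528,529,530,531]) (by decide +kernel) v2_594

theorem w2_596_532 : S (PX [527] [528,529,530,532]) := VW.play 531 (PX [527,531] [528,529,530,532]) (by decide +kernel) v2_595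

theorem v2_596 : VW (PX [527] [528,529,530]) := VW.of base nl_ok fl_ok (.cons 531 532 .nil (.cons 532 531 .nil .nil))
  [(533, (.cons 531 532 .nil (.cons 532 531 .nil .nil))), (534, (.cons 531 532 .nil (.cons 532 531 .nil .nil))), (535, (.cons 531 532 .nil (.cons 532 531 .nil .nil)))]
  [([531], (PX [527] [528,529,530,531])), ([532], (PX [527] [528,529,530,532]))]
  (by decide +kernel) ⟨w2_596_531, w2_596_532, trivial⟩

theorem v2_597 : VW (PX [529] [528,530,531]) := VW.of base nl_ok fl_ok .nil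
  [(532, (.cons 533 534 .nil (.cons 534 533 .nil .nil))), (533, (.cons 532 534 .nil (.cons 534 532 .nil .nil))), (534, (.cons 532 533 .nil (.cons 533 532 .nil .nil)))]
  []
  (by decide +kernel) trivial

theorem v2_598 : VW (PX [529] [528,530,532]) := VW.of base nl_ok fl_ok .nil
  [(531, (.cons 533 534 .nil (.cons 534 533 .nil .nil))), (533, (.cons 531 534 .nil (.cons 534 531 (.cons 535 536 .nil (.cons 536 535 .nil .nil)) .nil))), (534, (.cons 531 533 .nil (.cons 533 531 (.cons 535 536 .nil (.cons 536 535 .nil .nil)) .nil)))]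
  []
  (by decide +kernel) trivial

theorem w2_608_526 : S (PX [] [526,528,530]) := VW.play 527 (PX [527] [526,528,530]) (by decide +kernel) v2_581

theorem w2_608_527 : S (PX [] [527,528,530]) := VW.play 529 (PX [529] [527,528,530]) (by decide +kernel) v2_591

theorem w2_608_529 : S (PX [] [528,529,530]) := VW.play 527 (PX [527] [528,529,530]) (by decide +kernel) v2_596

theorem w2_608_531 : S (PX [] [528,530,531]) := VW.play 529 (PX [529] [528,530,531]) (by decide +kernel) v2_597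

theorem w2_608_532 : S (PX [] [528,530,532]) := VW.play 529 (PX [529] [528,530,532]) (by decide +kernel) v2_598

theorem v2_608 : VW (PX [] [528,530]) := VW.of base nl_ok fl_ok .nil
  []
  [([526], (PX [] [526,528,530])), ([527], (PX [] [527,528,530])), ([529], (PX [] [528,529,530])), ([531], (PX [] [528,530,531])), ([532], (PX [] [528,530,532]))]
  (by decide +kernel) ⟨w2_608_526, w2_608_527, w2_608_529, w2_608_531, w2_608_532, trivial⟩

theorem v2_609 : VW (PX [528,533] [529,530,531,532]) := VW.of base nl_ok fl_ok .nil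
  []
  []
  (by decide +kernel) trivial

theorem v2_610 : VW (PX [528,532] [529,530,531,533]) := VW.of base nl_ok fl_ok .nil
  []
  []
  (by decide +kernel) trivial

theorem w2_611_532 : S (PX [528] [529,530,531,532]) := VW.play 533 (PX [528,533] [529,530,531,532]) (by decide +kernel) v2_609

theorem w2_611_533 : S (PX [528] [529,530,531,533]) := VW.play 532 (PX [528,532] [529,530,531,533]) (by decide +kernel) v2_610

theorem v2_611 : VW (PX [528] [529,530,531]) := VW.of base nl_ok fl_ok (.cons 532 533 .nil (.cons 533 532 .nil .nil))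
  [(534, (.cons 532 533 .nil (.cons 533 532 .nil .nil))), (535, (.cons 532 533 .nil (.cons 533 532 .nil .nil))), (536, (.cons 532 533 .nil (.cons 533 532 .nil .nil)))]
  [([532], (PX [528] [529,530,531,532])), ([533], (PX [528] [529,530,531,533]))]
  (by decide +kernel) ⟨w2_611_532, w2_611_533, trivial⟩

theorem v2_614 : VW (PX [531] [529,530,532]) := VW.of base nl_ok fl_ok .nil
  [(526, (.cons 527 528 .nil (.cons 528 527 .nil .nil))), (527, (.cons 526 528 .nil (.cons 528 526 .nil .nil))), (528, (.cons 526 527 .nil (.cons 527 526 .nil .nil)))]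
  []
  (by decide +kernel) trivial

theorem w2_615_527 : S (PX [] [527,529,530]) := VW.play 528 (PX [528] [527,529,530]) (by decide +kernel) v2_592

theorem w2_615_528 : S (PX [] [528,529,530]) := VW.play 527 (PX [527] [528,529,530]) (by decide +kernel) v2_596

theorem w2_615_531 : S (PX [] [529,530,531]) := VW.play 528 (PX [528] [529,530,531]) (by decide +kernel) v2_611

theorem w2_615_532 : S (PX [] [529,530,532]) := VW.play 531 (PX [531] [529,530,532]) (by decide +kernel) v2_614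

theorem v2_615 : VW (PX [] [529,530]) := VW.of base nl_ok fl_ok .nil
  [(526, (.cons 527 528 .nil (.cons 528 527 (.cons 531 532 .nil (.cons 532 531 .nil .nil)) .nil))), (533, (.cons 531 532 (.cons 527 528 .nil (.cons 528 527 .nil .nil)) (.cons 532 531 .nil .nil)))]
  [([527], (PX [] [527,529,530])), ([528], (PX [] [528,529,530])), ([531], (PX [] [529,530,531])), ([532], (PX [] [529,530,532]))]
  (by decide +kernel) ⟨w2_615_527, w2_615_528, w2_615_531, w2_615_532, trivial⟩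

theorem v2_616 : VW (PX [529,534] [530,531,532,533]) := VW.of base nl_ok fl_ok .nil
  []
  []
  (by decide +kernel) trivial

theorem v2_617 : VW (PX [529,533] [530,531,532,534]) := VW.of base nl_ok fl_ok .nil
  []
  []
  (by decide +kernel) trivial

theorem w2_618_533 : S (PX [529] [530,531,532,533]) := VW.play 534 (PX [529,534] [530,531,532,533]) (by decide +kernel) v2_616

theorem w2_618_534 : S (PX [529] [530,531,532,534]) := VW.play 533 (PX [529,533] [530,531,532,534]) (by decide +kernel) v2_617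

theorem v2_618 : VW (PX [529] [530,531,532]) := VW.of base nl_ok fl_ok (.cons 533 534 .nil (.cons 534 533 .nil .nil))
  [(535, (.cons 533 534 .nil (.cons 534 533 .nil .nil))), (536, (.cons 533 534 .nil (.cons 534 533 .nil .nil))), (537, (.cons 533 534 .nil (.cons 534 533 .nil .nil)))]
  [([533], (PX [529] [530,531,532,533])), ([534], (PX [529] [530,531,532,534]))]
  (by decide +kernel) ⟨w2_618_533, w2_618_534, trivial⟩

theorem v2_621 : VW (PX [527,532] [528,530,531,533]) := VW.of base nl_ok fl_ok .nil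
  []
  []
  (by decide +kernel) trivial

theorem w2_623_528 : S (PX [532] [528,530,531,533]) := VW.play 527 (PX [527,532] [528,530,531,533]) (by decide +kernel) v2_621

theorem v2_623 : VW (PX [532] [530,531,533]) := VW.of base nl_ok fl_ok .nil
  [(527, (.cons 528 529 .nil (.cons 529 528 .nil .nil))), (529, (.cons 527 528 .nil (.cons 528 527 .nil .nil)))]
  [([528], (PX [532] [528,530,531,533]))]
  (by decide +kernel) ⟨w2_623_528, trivial⟩

theorem w2_624_528 : S (PX [] [528,530,531]) := VW.play 529 (PX [529] [528,530,531]) (by decide +kernel) v2_597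

theorem w2_624_529 : S (PX [] [529,530,531]) := VW.play 528 (PX [528] [529,530,531]) (by decide +kernel) v2_611

theorem w2_624_532 : S (PX [] [530,531,532]) := VW.play 529 (PX [529] [530,531,532]) (by decide +kernel) v2_618

theorem w2_624_533 : S (PX [] [530,531,533]) := VW.play 532 (PX [532] [530,531,533]) (by decide +kernel) v2_623

theorem v2_624 : VW (PX [] [530,531]) := VW.of base nl_ok fl_ok .nil
  [(527, (.cons 528 529 .nil (.cons 529 528 (.cons 532 533 .nil (.cons 533 532 .nil .nil)) .nil))), (534, (.cons 532 533 (.cons 528 529 .nil (.cons 529 528 .nil .nil)) (.cons 533 532 .nil .nil)))]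
  [([528], (PX [] [528,530,531])), ([529], (PX [] [529,530,531])), ([532], (PX [] [530,531,532])), ([533], (PX [] [530,531,533]))]
  (by decide +kernel) ⟨w2_624_528, w2_624_529, w2_624_532, w2_624_533, trivial⟩

theorem v2_639 : VW (PX [531] [530,532,533]) := VW.of base nl_ok fl_ok .nil
  [(534, (.cons 535 536 .nil (.cons 536 535 .nil .nil))), (535, (.cons 534 536 .nil (.cons 536 534 .nil .nil))), (536, (.cons 534 535 .nil (.cons 535 534 .nil .nil)))]
  []
  (by decide +kernel) trivial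

theorem w2_640_528 : S (PX [] [528,530,532]) := VW.play 529 (PX [529] [528,530,532]) (by decide +kernel) v2_598

theorem w2_640_529 : S (PX [] [529,530,532]) := VW.play 531 (PX [531] [529,530,532]) (by decide +kernel) v2_614

theorem w2_640_531 : S (PX [] [530,531,532]) := VW.play 529 (PX [529] [530,531,532]) (by decide +kernel) v2_618

theorem w2_640_533 : S (PX [] [530,532,533]) := VW.play 531 (PX [531] [530,532,533]) (by decide +kernel) v2_639

theorem v2_640 : VW (PX [] [530,532]) := VW.of base nl_ok fl_ok .nil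
  [(534, (.cons 531 533 (.cons 528 529 .nil (.cons 529 528 .nil .nil)) (.cons 533 531 (.cons 535 536 .nil (.cons 536 535 .nil .nil)) .nil)))]
  [([528], (PX [] [528,530,532])), ([529], (PX [] [529,530,532])), ([531], (PX [] [530,531,532])), ([533], (PX [] [530,532,533]))]
  (by decide +kernel) ⟨w2_640_528, w2_640_529, w2_640_531, w2_640_533, trivial⟩

theorem w2_641_531 : S (PX [] [530,531,533]) := VW.play 532 (PX [532] [530,531,533]) (by decide +kernel) v2_623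

theorem w2_641_532 : S (PX [] [530,532,533]) := VW.play 531 (PX [531] [530,532,533]) (by decide +kernel) v2_639

theorem v2_641 : VW (PX [] [530,533]) := VW.of base nl_ok fl_ok .nil
  [(529, (.cons 531 532 (.cons 527 528 .nil (.cons 528 527 .nil .nil)) (.cons 532 531 .nil .nil))), (534, (.cons 531 532 .nil (.cons 532 531 (.cons 535 536 .nil (.cons 536 535 .nil .nil)) .nil)))]
  [([531], (PX [] [530,531,533])), ([532], (PX [] [530,532,533]))]
  (by decide +kernel) ⟨w2_641_531, w2_641_532, trivial⟩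

theorem v2_642 : VW (PX [] [530,534]) := VW.of base nl_ok fl_ok .nil
  [(531, (.cons 532 533 (.cons 528 529 .nil (.cons 529 528 .nil .nil)) (.cons 533 532 .nil .nil))), (532, (.cons 531 533 (.cons 528 529 .nil (.cons 529 528 .nil .nil)) (.cons 533 531 (.cons 535 536 .nil (.cons 536 535 .nil .nil)) .nil))), (533, (.cons 531 532 .nil (.cons 532 531 (.cons 535 536 .nil (.cons 536 535 .nil .nil)) .nil)))]
  []
  (by decide +kernel) trivial

theorem v2_643 : VW (PX [499,654] [530,561,592,623]) := VW.of base nl_ok fl_ok .nil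
  []
  []
  (by decide +kernel) trivial

theorem v2_644 : VW (PX [499,623] [530,561,592,654]) := VW.of base nl_ok fl_ok .nil
  []
  []
  (by decide +kernel) trivial

theorem w2_645_623 : S (PX [499] [530,561,592,623]) := VW.play 654 (PX [499,654] [530,561,592,623]) (by decide +kernel) v2_643

theorem w2_645_654 : S (PX [499] [530,561,592,654]) := VW.play 623 (PX [499,623] [530,561,592,654]) (by decide +kernel) v2_644

theorem v2_645 : VW (PX [499] [530,561,592]) := VW.of base nl_ok fl_ok (.cons 623 654 .nil (.cons 654 623 .nil .nil))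
  [(685, (.cons 623 654 .nil (.cons 654 623 .nil .nil))), (716, (.cons 623 654 .nil (.cons 654 623 .nil .nil))), (747, (.cons 623 654 .nil (.cons 654 623 .nil .nil)))]
  [([623], (PX [499] [530,561,592,623])), ([654], (PX [499] [530,561,592,654]))]
  (by decide +kernel) ⟨w2_645_623, w2_645_654, trivial⟩

theorem v2_649 : VW (PX [592] [530,561,623]) := VW.of base nl_ok fl_ok .nil
  [(437, (.cons 468 499 .nil (.cons 499 468 .nil .nil))), (468, (.cons 437 499 .nil (.cons 499 437 .nil .nil))), (499, (.cons 437 468 .nil (.cons 468 437 .nil .nil)))]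
  []
  (by decide +kernel) trivial

theorem w2_650_468 : S (PX [] [468,530,561]) := VW.play 499 (PX [499] [468,530,561]) (by decide +kernel) v2_540

theorem w2_650_499 : S (PX [] [499,530,561]) := VW.play 592 (PX [592] [499,530,561]) (by decide +kernel) v2_568

theorem w2_650_592 : S (PX [] [530,561,592]) := VW.play 499 (PX [499] [530,561,592]) (by decide +kernel) v2_645

theorem w2_650_623 : S (PX [] [530,561,623]) := VW.play 592 (PX [592] [530,561,623]) (by decide +kernel) v2_649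

theorem v2_650 : VW (PX [] [530,561]) := VW.of base nl_ok fl_ok .nil
  [(437, (.cons 468 499 .nil (.cons 499 468 (.cons 592 623 .nil (.cons 623 592 .nil .nil)) .nil))), (654, (.cons 592 623 (.cons 468 499 .nil (.cons 499 468 .nil .nil)) (.cons 623 592 .nil .nil)))]
  [([468], (PX [] [468,530,561])), ([499], (PX [] [499,530,561])), ([592], (PX [] [530,561,592])), ([623], (PX [] [530,561,623]))]
  (by decide +kernel) ⟨w2_650_468, w2_650_499, w2_650_592, w2_650_623, trivial⟩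

theorem v2_651 : VW (PX [498,658] [530,562,594,626]) := VW.of base nl_ok fl_ok .nil
  []
  []
  (by decide +kernel) trivial

theorem v2_652 : VW (PX [498,626] [530,562,594,658]) := VW.of base nl_ok fl_ok .nil
  []
  []
  (by decide +kernel) trivial

theorem w2_653_626 : S (PX [498] [530,562,594,626]) := VW.play 658 (PX [498,658] [530,562,594,626]) (by decide +kernel) v2_651

theorem w2_653_658 : S (PX [498] [530,562,594,658]) := VW.play 626 (PX [498,626] [530,562,594,658]) (by decide +kernel) v2_652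

theorem v2_653 : VW (PX [498] [530,562,594]) := VW.of base nl_ok fl_ok (.cons 626 658 .nil (.cons 658 626 .nil .nil))
  [(690, (.cons 626 658 .nil (.cons 658 626 .nil .nil))), (722, (.cons 626 658 .nil (.cons 658 626 .nil .nil))), (754, (.cons 626 658 .nil (.cons 658 626 .nil .nil)))]
  [([626], (PX [498] [530,562,594,626])), ([658], (PX [498] [530,562,594,658]))]
  (by decide +kernel) ⟨w2_653_626, w2_653_658, trivial⟩

theorem v2_658 : VW (PX [594] [530,562,626]) := VW.of base nl_ok fl_ok .nil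
  [(434, (.cons 466 498 .nil (.cons 498 466 .nil .nil))), (466, (.cons 434 498 .nil (.cons 498 434 .nil .nil))), (498, (.cons 434 466 .nil (.cons 466 434 .nil .nil)))]
  []
  (by decide +kernel) trivial

theorem w2_670_466 : S (PX [] [466,530,562]) := VW.play 498 (PX [498] [466,530,562]) (by decide +kernel) v2_534

theorem w2_670_498 : S (PX [] [498,530,562]) := VW.play 466 (PX [466] [498,530,562]) (by decide +kernel) v2_339

theorem w2_670_594 : S (PX [] [530,562,594]) := VW.play 498 (PX [498] [530,562,594]) (by decide +kernel) v2_653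

theorem w2_670_626 : S (PX [] [530,562,626]) := VW.play 594 (PX [594] [530,562,626]) (by decide +kernel) v2_658

theorem v2_670 : VW (PX [] [530,562]) := VW.of base nl_ok fl_ok .nil
  [(434, (.cons 466 498 .nil (.cons 498 466 (.cons 594 626 .nil (.cons 626 594 .nil .nil)) .nil))), (658, (.cons 594 626 (.cons 466 498 .nil (.cons 498 466 .nil .nil)) (.cons 626 594 .nil .nil)))]
  [([466], (PX [] [466,530,562])), ([498], (PX [] [498,530,562])), ([594], (PX [] [530,562,594])), ([626], (PX [] [530,562,626]))]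
  (by decide +kernel) ⟨w2_670_466, w2_670_498, w2_670_594, w2_670_626, trivial⟩

theorem v2_671 : VW (PX [497,662] [530,563,596,629]) := VW.of base nl_ok fl_ok .nil
  []
  []
  (by decide +kernel) trivial

theorem v2_672 : VW (PX [497,629] [530,563,596,662]) := VW.of base nl_ok fl_ok .nil
  []
  []
  (by decide +kernel) trivial

theorem w2_673_629 : S (PX [497] [530,563,596,629]) := VW.play 662 (PX [497,662] [530,563,596,629]) (by decide +kernel) v2_671

theorem w2_673_662 : S (PX [497] [530,563,596,662]) := VW.play 629 (PX [497,629] [530,563,596,662]) (by decide +kernel) v2_672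

theorem v2_673 : VW (PX [497] [530,563,596]) := VW.of base nl_ok fl_ok (.cons 629 662 .nil (.cons 662 629 .nil .nil))
  [(695, (.cons 629 662 .nil (.cons 662 629 .nil .nil))), (728, (.cons 629 662 .nil (.cons 662 629 .nil .nil))), (761, (.cons 629 662 .nil (.cons 662 629 .nil .nil)))]
  [([629], (PX [497] [530,563,596,629])), ([662], (PX [497] [530,563,596,662]))]
  (by decide +kernel) ⟨w2_673_629, w2_673_662, trivial⟩

theorem v2_674 : VW (PX [497,596] [530,563,629,662]) := VW.of base nl_ok fl_ok .nil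
  [(695, (.cons 728 761 .nil (.cons 761 728 .nil .nil))), (728, (.cons 695 761 .nil (.cons 761 695 .nil .nil))), (761, (.cons 695 728 .nil (.cons 728 695 .nil .nil)))]
  []
  (by decide +kernel) trivial

theorem w2_675_596 : S (PX [497] [530,563,596,629]) := VW.play 662 (PX [497,662] [530,563,596,629]) (by decide +kernel) v2_671

theorem w2_675_662 : S (PX [497] [530,563,629,662]) := VW.play 596 (PX [497,596] [530,563,629,662]) (by decide +kernel) v2_674

theorem v2_675 : VW (PX [497] [530,563,629]) := VW.of base nl_ok fl_ok (.cons 596 662 .nil (.cons 662 596 .nil .nil))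
  [(695, (.cons 596 662 .nil (.cons 662 596 (.cons 728 761 .nil (.cons 761 728 .nil .nil)) .nil))), (728, (.cons 596 662 .nil (.cons 662 596 (.cons 695 761 .nil (.cons 761 695 .nil .nil)) .nil))), (761, (.cons 596 662 .nil (.cons 662 596 (.cons 695 728 .nil (.cons 728 695 .nil .nil)) .nil)))]
  [([596], (PX [497] [530,563,596,629])), ([662], (PX [497] [530,563,629,662]))]
  (by decide +kernel) ⟨w2_675_596, w2_675_662, trivial⟩

theorem w2_678_464 : S (PX [] [464,530,563]) := VW.play 497 (PX [497] [464,530,563]) (by decide +kernel) v2_510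

theorem w2_678_497 : S (PX [] [497,530,563]) := VW.play 464 (PX [464] [497,530,563]) (by decide +kernel) v2_547

theorem w2_678_596 : S (PX [] [530,563,596]) := VW.play 497 (PX [497] [530,563,596]) (by decide +kernel) v2_673

theorem w2_678_629 : S (PX [] [530,563,629]) := VW.play 497 (PX [497] [530,563,629]) (by decide +kernel) v2_675

theorem v2_678 : VW (PX [] [530,563]) := VW.of base nl_ok fl_ok .nil
  [(431, (.cons 464 497 .nil (.cons 497 464 (.cons 596 629 .nil (.cons 629 596 .nil .nil)) .nil))), (662, (.cons 596 629 (.cons 464 497 .nil (.cons 497 464 .nil .nil)) (.cons 629 596 .nil .nil)))]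
  [([464], (PX [] [464,530,563])), ([497], (PX [] [497,530,563])), ([596], (PX [] [530,563,596])), ([629], (PX [] [530,563,629]))]
  (by decide +kernel) ⟨w2_678_464, w2_678_497, w2_678_596, w2_678_629, trivial⟩

theorem v2_679 : VW (PX [561] [530,592,623]) := VW.of base nl_ok fl_ok .nil
  [(654, (.cons 685 716 .nil (.cons 716 685 .nil .nil))), (685, (.cons 654 716 .nil (.cons 716 654 .nil .nil))), (716, (.cons 654 685 .nil (.cons 685 654 .nil .nil)))]
  []
  (by decide +kernel) trivial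

theorem w2_680_499 : S (PX [] [499,530,592]) := VW.play 561 (PX [561] [499,530,592]) (by decide +kernel) v2_569

theorem w2_680_561 : S (PX [] [530,561,592]) := VW.play 499 (PX [499] [530,561,592]) (by decide +kernel) v2_645

theorem w2_680_623 : S (PX [] [530,592,623]) := VW.play 561 (PX [561] [530,592,623]) (by decide +kernel) v2_679

theorem v2_680 : VW (PX [] [530,592]) := VW.of base nl_ok fl_ok .nil
  [(468, (.cons 499 561 (.cons 406 437 .nil (.cons 437 406 .nil .nil)) (.cons 561 499 (.cons 623 654 .nil (.cons 654 623 .nil .nil)) .nil))), (654, (.cons 561 623 (.cons 468 499 .nil (.cons 499 468 .nil .nil)) (.cons 623 561 (.cons 685 716 .nil (.cons 716 685 .nil .nil)) .nil)))]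
  [([499], (PX [] [499,530,592])), ([561], (PX [] [530,561,592])), ([623], (PX [] [530,592,623]))]
  (by decide +kernel) ⟨w2_680_499, w2_680_561, w2_680_623, trivial⟩

theorem v2_695 : VW (PX [562] [530,594,626]) := VW.of base nl_ok fl_ok .nil
  [(658, (.cons 690 722 .nil (.cons 722 690 .nil .nil))), (690, (.cons 658 722 .nil (.cons 722 658 .nil .nil))), (722, (.cons 658 690 .nil (.cons 690 658 .nil .nil)))]
  []
  (by decide +kernel) trivial

theorem w2_698_498 : S (PX [] [498,530,594]) := VW.play 562 (PX [562] [498,530,594]) (by decide +kernel) v2_344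

theorem w2_698_562 : S (PX [] [530,562,594]) := VW.play 498 (PX [498] [530,562,594]) (by decide +kernel) v2_653

theorem w2_698_626 : S (PX [] [530,594,626]) := VW.play 562 (PX [562] [530,594,626]) (by decide +kernel) v2_695

theorem v2_698 : VW (PX [] [530,594]) := VW.of base nl_ok fl_ok .nil
  [(466, (.cons 498 562 (.cons 402 434 .nil (.cons 434 402 .nil .nil)) (.cons 562 498 (.cons 626 658 .nil (.cons 658 626 .nil .nil)) .nil))), (658, (.cons 562 626 (.cons 466 498 .nil (.cons 498 466 .nil .nil)) (.cons 626 562 (.cons 690 722 .nil (.cons 722 690 .nil .nil)) .nil)))]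
  [([498], (PX [] [498,530,594])), ([562], (PX [] [530,562,594])), ([626], (PX [] [530,594,626]))]
  (by decide +kernel) ⟨w2_698_498, w2_698_562, w2_698_626, trivial⟩

theorem v2_713 : VW (PX [563] [530,596,629]) := VW.of base nl_ok fl_ok .nil
  [(662, (.cons 695 728 .nil (.cons 728 695 .nil .nil))), (695, (.cons 662 728 .nil (.cons 728 662 .nil .nil))), (728, (.cons 662 695 .nil (.cons 695 662 .nil .nil)))]
  []
  (by decide +kernel) trivial

theorem w2_714_464 : S (PX [] [464,530,596]) := VW.play 497 (PX [497] [464,530,596]) (by decide +kernel) v2_511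

theorem w2_714_497 : S (PX [] [497,530,596]) := VW.play 464 (PX [464] [497,530,596]) (by decide +kernel) v2_549

theorem w2_714_563 : S (PX [] [530,563,596]) := VW.play 497 (PX [497] [530,563,596]) (by decide +kernel) v2_673

theorem w2_714_629 : S (PX [] [530,596,629]) := VW.play 563 (PX [563] [530,596,629]) (by decide +kernel) v2_713

theorem v2_714 : VW (PX [] [530,596]) := VW.of base nl_ok fl_ok .nil
  [(662, (.cons 563 629 (.cons 464 497 .nil (.cons 497 464 .nil .nil)) (.cons 629 563 (.cons 695 728 .nil (.cons 728 695 .nil .nil)) .nil)))]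
  [([464], (PX [] [464,530,596])), ([497], (PX [] [497,530,596])), ([563], (PX [] [530,563,596])), ([629], (PX [] [530,596,629]))]
  (by decide +kernel) ⟨w2_714_464, w2_714_497, w2_714_563, w2_714_629, trivial⟩

theorem w2_715_561 : S (PX [] [530,561,623]) := VW.play 592 (PX [592] [530,561,623]) (by decide +kernel) v2_649

theorem w2_715_592 : S (PX [] [530,592,623]) := VW.play 561 (PX [561] [530,592,623]) (by decide +kernel) v2_679

theorem v2_715 : VW (PX [] [530,623]) := VW.of base nl_ok fl_ok .nil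
  [(499, (.cons 561 592 (.cons 437 468 .nil (.cons 468 437 .nil .nil)) (.cons 592 561 .nil .nil))), (654, (.cons 561 592 .nil (.cons 592 561 (.cons 685 716 .nil (.cons 716 685 .nil .nil)) .nil)))]
  [([561], (PX [] [530,561,623])), ([592], (PX [] [530,592,623]))]
  (by decide +kernel) ⟨w2_715_561, w2_715_592, trivial⟩

theorem w2_716_562 : S (PX [] [530,562,626]) := VW.play 594 (PX [594] [530,562,626]) (by decide +kernel) v2_658

theorem w2_716_594 : S (PX [] [530,594,626]) := VW.play 562 (PX [562] [530,594,626]) (by decide +kernel) v2_695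

theorem v2_716 : VW (PX [] [530,626]) := VW.of base nl_ok fl_ok .nil
  [(498, (.cons 562 594 (.cons 434 466 .nil (.cons 466 434 .nil .nil)) (.cons 594 562 .nil .nil))), (658, (.cons 562 594 .nil (.cons 594 562 (.cons 690 722 .nil (.cons 722 690 .nil .nil)) .nil)))]
  [([562], (PX [] [530,562,626])), ([594], (PX [] [530,594,626]))]
  (by decide +kernel) ⟨w2_716_562, w2_716_594, trivial⟩

theorem w2_717_497 : S (PX [] [497,530,629]) := VW.play 563 (PX [563] [497,530,629]) (by decide +kernel) v2_558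

theorem w2_717_563 : S (PX [] [530,563,629]) := VW.play 497 (PX [497] [530,563,629]) (by decide +kernel) v2_675

theorem w2_717_596 : S (PX [] [530,596,629]) := VW.play 563 (PX [563] [530,596,629]) (by decide +kernel) v2_713

theorem v2_717 : VW (PX [] [530,629]) := VW.of base nl_ok fl_ok .nil
  [(662, (.cons 563 596 .nil (.cons 596 563 (.cons 695 728 .nil (.cons 728 695 .nil .nil)) .nil)))]
  [([497], (PX [] [497,530,629])), ([563], (PX [] [530,563,629])), ([596], (PX [] [530,596,629]))]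
  (by decide +kernel) ⟨w2_717_497, w2_717_563, w2_717_596, trivial⟩

theorem v2_718 : VW (PX [] [530,654]) := VW.of base nl_ok fl_ok .nil
  [(561, (.cons 592 623 (.cons 468 499 .nil (.cons 499 468 .nil .nil)) (.cons 623 592 .nil .nil))), (592, (.cons 561 623 (.cons 468 499 .nil (.cons 499 468 .nil .nil)) (.cons 623 561 (.cons 685 716 .nil (.cons 716 685 .nil .nil)) .nil))), (623, (.cons 561 592 .nil (.cons 592 561 (.cons 685 716 .nil (.cons 716 685 .nil .nil)) .nil)))]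
  []
  (by decide +kernel) trivial

theorem v2_719 : VW (PX [] [530,658]) := VW.of base nl_ok fl_ok .nil
  [(562, (.cons 594 626 (.cons 466 498 .nil (.cons 498 466 .nil .nil)) (.cons 626 594 .nil .nil))), (594, (.cons 562 626 (.cons 466 498 .nil (.cons 498 466 .nil .nil)) (.cons 626 562 (.cons 690 722 .nil (.cons 722 690 .nil .nil)) .nil))), (626, (.cons 562 594 .nil (.cons 594 562 (.cons 690 722 .nil (.cons 722 690 .nil .nil)) .nil)))]
  []
  (by decide +kernel) trivial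

theorem v2_720 : VW (PX [] [530,662]) := VW.of base nl_ok fl_ok .nil
  [(563, (.cons 596 629 (.cons 464 497 .nil (.cons 497 464 .nil .nil)) (.cons 629 596 .nil .nil))), (596, (.cons 563 629 (.cons 464 497 .nil (.cons 497 464 .nil .nil)) (.cons 629 563 (.cons 695 728 .nil (.cons 728 695 .nil .nil)) .nil))), (629, (.cons 563 596 .nil (.cons 596 563 (.cons 695 728 .nil (.cons 728 695 .nil .nil)) .nil)))]
  []
  (by decide +kernel) trivial

theorem v6_53 : VW (PX [] [264,530]) := VW.of base nl_ok fl_ok .nil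
  []
  [([332], (PX [] [264,332,530])), ([395], (PX [] [264,395,530])), ([397], (PX [] [264,397,530])), ([398], (PX [] [264,398,530]))]
  (by decide +kernel) ⟨b6_1236, b6_1157, b6_1237, b6_1238, trivial⟩

theorem v6_49 : VW (PX [] [298,530]) := VW.of base nl_ok fl_ok .nil
  []
  (([294], (PX [] [294,298,530])) :: ([295], (PX [] [295,298,530])) :: ([296], (PX [] [296,298,530])) :: ([297], (PX [] [297,298,530])) :: ([299], (PX [] [298,299,530])) :: ([300], (PX [] [298,300,530])) :: ([301], (PX [] [298,301,530])) :: ([302], (PX [] [298,302,530])) :: ([330], (PX [] [298,330,530])) :: ([331], (PX [] [298,331,530])) :: ([332], (PX [] [298,332,530])) :: ([361], (PX [] [298,361,530])) :: ([362], (PX [] [298,362,530])) :: ([364], (PX [] [298,364,530])) :: ([365], (PX [] [298,365,530])) :: ([393], (PX [] [298,393,530])) :: ([395], (PX [] [298,395,530])) :: ([397], (PX [] [298,397,530])) :: ([425], (PX [] [298,425,530])) ::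 ([427], (PX [] [298,427,530])) :: ([429], (PX [] [298,429,530])) :: ([430], (PX [] [298,430,530])) :: ([457], (PX [] [298,457,530])) :: ([458], (PX [] [298,458,530])) :: ([460], (PX [] [298,460,530])) :: ([461], (PX [] [298,461,530])) :: [])
  (by decide +kernel) ⟨b6_1172, b6_1173, b6_1174, b6_1175, b6_1176, b6_1177, b6_1178, b6_1179, b6_1180, b6_1181, b6_1182, b6_1183, b6_1184, b6_1185, b6_1186, b6_1187, b6_1163, b6_1188, b6_1189, b6_1190, b6_1191, b6_1192, b6_1193, b6_1194, b6_1195, b6_1196, trivial⟩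

theorem v6_54 : VW (PX [] [299,530]) := VW.of base nl_ok fl_ok .nil
  []
  (([266], (PX [] [266,299,530])) :: ([268], (PX [] [268,299,530])) :: ([295], (PX [] [295,299,530])) :: ([296], (PX [] [296,299,530])) :: ([297], (PX [] [297,299,530])) :: ([298], (PX [] [298,299,530])) :: ([300], (PX [] [299,300,530])) :: ([301], (PX [] [299,301,530])) :: ([302], (PX [] [299,302,530])) :: ([303], (PX [] [299,303,530])) :: ([329], (PX [] [299,329,530])) :: ([330], (PX [] [299,330,530])) :: ([332], (PX [] [299,332,530])) :: ([333], (PX [] [299,333,530])) :: ([361], (PX [] [299,361,530])) :: ([365], (PX [] [299,365,530])) :: ([392], (PX [] [299,392,530])) :: ([393], (PX [] [299,393,530])) :: ([395], (PX [] [299,395,530])) :: ([397], (PX [] [299,397,530])) :: ([398], (PX [] [299,398,530])) :: ([423], (PX [] [299,423,530])) :: ([425], (PX [] [299,425,530])) :: ([431], (PX [] [299,431,530])) :: ([457], (PX [] [299,457,530])) ::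 [])
  (by decide +kernel) ⟨b6_1239, b6_1240, b6_1241, b6_1242, b6_1243, b6_1176, b6_1244, b6_1245, b6_1246, b6_1247, b6_1248, b6_1249, b6_1250, b6_1251, b6_1252, b6_1253, b6_1209, b6_1254, b6_1164, b6_1255, b2_1353, b6_1257, b6_1258, b6_1259, b6_1260, trivial⟩

theorem v6_50 : VW (PX [] [359,530]) := VW.of base nl_ok fl_ok .nil
  []
  [([390], (PX [] [359,390,530])), ([397], (PX [] [359,397,530])), ([458], (PX [] [359,458,530]))]
  (by decide +kernel) ⟨b6_1197, b6_1198, b6_1199, trivial⟩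

theorem v6_52 : VW (PX [] [392,530]) := VW.of base nl_ok fl_ok .nil
  []
  (([268], (PX [] [268,392,530])) :: ([270], (PX [] [270,392,530])) :: ([299], (PX [] [299,392,530])) :: ([301], (PX [] [301,392,530])) :: ([302], (PX [] [302,392,530])) :: ([329], (PX [] [329,392,530])) :: ([330], (PX [] [330,392,530])) :: ([332], (PX [] [332,392,530])) :: ([361], (PX [] [361,392,530])) :: ([364], (PX [] [364,392,530])) :: ([366], (PX [] [366,392,530])) :: ([389], (PX [] [389,392,530])) :: ([390], (PX [] [390,392,530])) :: ([393], (PX [] [392,393,530])) :: ([423], (PX [] [392,423,530])) :: ([425], (PX [] [392,425,530])) :: ([426], (PX [] [392,426,530])) :: ([427], (PX [] [392,427,530])) :: ([429], (PX [] [392,429,530])) :: ([431], (PX [] [392,431,530])) :: ([454], (PX [] [392,454,530])) :: ([457], (PX [] [392,457,530])) :: ([458], (PX [] [392,458,530])) :: ([461], (PX [] [392,461,530])) :: ([462], (PX [] [392,462,530])) ::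 ([464], (PX [] [392,464,530])) :: ([494], (PX [] [392,494,530])) :: ([497], (PX [] [392,497,530])) :: ([526], (PX [] [392,526,530])) :: [])
  (by decide +kernel) ⟨b6_1207, b6_1208, b6_1209, b6_1210, b6_1211, b6_1212, b6_1213, b6_1214, b6_1215, b6_1216, b6_1217, b6_1218, b6_1219, b6_1220, b6_1221, b6_1222, b6_1223, b6_1224, b6_1225, b6_1226, b6_1227, b6_1228, b6_1229, b6_1230, b6_1231, b6_1232, b6_1233, b6_1234, b6_1235, trivial⟩

theorem r398 : S (Nat.lor X2 (bits [530, 398])) := VW.play 394 (PX [] [398,530]) (by decide +kernel) v2_432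

theorem r402 : S (Nat.lor X2 (bits [530, 402])) := VW.play 394 (PX [] [402,530]) (by decide +kernel) v2_433

theorem r406 : S (Nat.lor X2 (bits [530, 406])) := VW.play 394 (PX [] [406,530]) (by decide +kernel) v2_434

theorem r431 : S (Nat.lor X2 (bits [530, 431])) := VW.play 394 (PX [] [431,530]) (by decide +kernel) v2_454

theorem r434 : S (Nat.lor X2 (bits [530, 434])) := VW.play 394 (PX [] [434,530]) (by decide +kernel) v2_472

theorem r437 : S (Nat.lor X2 (bits [530, 437])) := VW.play 394 (PX [] [437,530]) (by decide +kernel) v2_492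

theorem r464 : S (Nat.lor X2 (bits [530, 464])) := VW.play 394 (PX [] [464,530]) (by decide +kernel) v2_519

theorem r466 : S (Nat.lor X2 (bits [530, 466])) := VW.play 394 (PX [] [466,530]) (by decide +kernel) v2_537

theorem r468 : S (Nat.lor X2 (bits [530, 468])) := VW.play 394 (PX [] [468,530]) (by decide +kernel) v2_544

theorem r497 : S (Nat.lor X2 (bits [530, 497])) := VW.play 394 (PX [] [497,530]) (by decide +kernel) v2_566

theorem r498 : S (Nat.lor X2 (bits [530, 498])) := VW.play 394 (PX [] [498,530]) (by decide +kernel) v2_356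

theorem r499 : S (Nat.lor X2 (bits [530, 499])) := VW.play 394 (PX [] [499,530]) (by decide +kernel) v2_570

theorem r526 : S (Nat.lor X2 (bits [530, 526])) := VW.play 394 (PX [] [526,530]) (by decide +kernel) v2_590

theorem r527 : S (Nat.lor X2 (bits [530, 527])) := VW.play 394 (PX [] [527,530]) (by decide +kernel) v2_593

theorem r528 : S (Nat.lor X2 (bits [530, 528])) := VW.play 394 (PX [] [528,530]) (by decide +kernel) v2_608

theorem r529 : S (Nat.lor X2 (bits [530, 529])) := VW.play 394 (PX [] [529,530]) (by decide +kernel) v2_615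

theorem r531 : S (Nat.lor X2 (bits [530, 531])) := VW.play 394 (PX [] [530,531]) (by decide +kernel) v2_624

theorem r532 : S (Nat.lor X2 (bits [530, 532])) := VW.play 394 (PX [] [530,532]) (by decide +kernel) v2_640

theorem r533 : S (Nat.lor X2 (bits [530, 533])) := VW.play 394 (PX [] [530,533]) (by decide +kernel) v2_641

theorem r534 : S (Nat.lor X2 (bits [530, 534])) := VW.play 394 (PX [] [530,534]) (by decide +kernel) v2_642

theorem r561 : S (Nat.lor X2 (bits [530, 561])) := VW.play 394 (PX [] [530,561]) (by decide +kernel) v2_650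

theorem r562 : S (Nat.lor X2 (bits [530, 562])) := VW.play 394 (PX [] [530,562]) (by decide +kernel) v2_670

theorem r563 : S (Nat.lor X2 (bits [530, 563])) := VW.play 394 (PX [] [530,563]) (by decide +kernel) v2_678

theorem r592 : S (Nat.lor X2 (bits [530, 592])) := VW.play 394 (PX [] [530,592]) (by decide +kernel) v2_680

theorem r594 : S (Nat.lor X2 (bits [530, 594])) := VW.play 394 (PX [] [530,594]) (by decide +kernel) v2_698

theorem r596 : S (Nat.lor X2 (bits [530, 596])) := VW.play 394 (PX [] [530,596]) (by decide +kernel) v2_714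

theorem r623 : S (Nat.lor X2 (bits [530, 623])) := VW.play 394 (PX [] [530,623]) (by decide +kernel) v2_715

theorem r626 : S (Nat.lor X2 (bits [530, 626])) := VW.play 394 (PX [] [530,626]) (by decide +kernel) v2_716

theorem r629 : S (Nat.lor X2 (bits [530, 629])) := VW.play 394 (PX [] [530,629]) (by decide +kernel) v2_717

theorem r654 : S (Nat.lor X2 (bits [530, 654])) := VW.play 394 (PX [] [530,654]) (by decide +kernel) v2_718

theorem r658 : S (Nat.lor X2 (bits [530, 658])) := VW.play 394 (PX [] [530,658]) (by decide +kernel) v2_719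

theorem r662 : S (Nat.lor X2 (bits [530, 662])) := VW.play 394 (PX [] [530,662]) (by decide +kernel) v2_720

theorem r264 : S (Nat.lor X2 (bits [530, 264])) := VW.play 394 (PX [] [264,530]) (by decide +kernel) v6_53

theorem r298 : S (Nat.lor X2 (bits [530, 298])) := VW.play 394 (PX [] [298,530]) (by decide +kernel) v6_49

theorem r299 : S (Nat.lor X2 (bits [530, 299])) := VW.play 394 (PX [] [299,530]) (by decide +kernel) v6_54

theorem r359 : S (Nat.lor X2 (bits [530, 359])) := VW.play 394 (PX [] [359,530]) (by decide +kernel) v6_50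

theorem r362 : S (Nat.lor X2 (bits [530, 362])) := S.of (.q 332 (.a 1 [] (.q 330 (.a 1 [] (.d 297 2312 264 2345 429)
 (.a 1 [264] (.d 429 2345 297 2378 462)
 (.a 0 [297,429] (.q 331 (.a 1 [] (.d 329 328 328 329 333)
 (.a 1 [328] (.d 333 329 329 330 334)
 (.a 0 [329,333] (.q 395 (.a 1 [] (.d 299 1291 267 1323 427)
 (.a 1 [267] (.d 427 1323 299 1355 459)
 (.a 0 [299,427] (.q 394 (.a 1 [] (.d 393 392 392 393 397)
 (.a 1 [392] (.d 397 393 393 394 398)
 (.a 1 [393] (.d 301 3342 270 3373 425)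
 .e))))
 .e))))
 .e))))
 .e))))
 (.a 0 [330] (.q 394 (.a 1 [] (.d 301 3342 270 3373 425)
 (.a 1 [301] (.q 395 (.a 1 [] (.d 393 392 392 393 397)
 (.a 1 [393] (.q 299 (.a 1 [] (.d 331 1291 267 1323 427)
 (.a 1 [267] (.r 427 1323 331 (.r 398 394 397 (.d 365 2314 266 2347 431)))
 (.a 1 [331] (.r 398 394 397 (.d 365 2314 266 2347 431))
 .e))))
 (.a 1 [397] (.q 427 (.a 1 [] (.d 331 1323 299 1355 459)
 (.a 1 [299] (.d 459 1355 331 1387 491)
 (.a 0 [331,459] (.q 460 (.a 1 [] (.d 361 2376 328 2409 493)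
 (.a 1 [328] (.d 493 2409 361 2442 526)
 (.a 1 [361] (.r 428 1356 364 (.r 425 3404 456 (.d 426 424 424 425 429)))
 .e))))
 .e))))
 .e))))
 (.a 1 [425] (.q 395 (.a 1 [] (.d 393 392 392 393 397)
 (.a 1 [392] (.d 397 393 393 394 398)
 (.a 0 [393,397] (.q 300 (.a 1 [] (.d 364 1292 268 1324 428)
 (.a 0 [268,364,428] (.q 299 (.a 1 [] (.d 331 1291 267 1323 427)
 (.a 1 [267] (.r 301 3342 270 (.d 302 298 298 299 303))
 .e)))
 .e)))
 .e))))
 (.a 1 [270] (.d 425 3373 301 3404 456)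
 .e)))))
 (.a 0 [394] (.q 364 (.a 1 [] (.d 300 1292 268 1324 428)
 (.a 1 [300] (.q 330 (.a 1 [] (.d 297 2312 264 2345 429)
 (.a 1 [297] (.q 331 (.a 1 [] (.d 329 328 328 329 333)
 (.a 1 [328] (.d 333 329 329 330 334)
 (.a 0 [329,333] (.q 427 (.a 1 [] (.d 395 1323 299 1355 459)
 (.a 0 [299,395,459] (.r 428 1356 460 (.r 429 2378 462 (.d 430 426 426 427 431)))
 .e)))
 .e))))
 (.a 1 [429] (.q 331 (.a 1 [] (.d 329 328 328 329 333)
 (.a 1 [328] (.d 333 329 329 330 334)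
 (.a 0 [329,333] (.q 397 (.a 1 [] (.d 298 2313 265 2346 430)
 (.a 1 [265] (.d 430 2346 298 2379 463)
 (.a 0 [298,430] (.r 428 1356 460 (.q 366 (.a 1 [] (.d 335 3376 304 3407 459)
 (.a 1 [304] (.d 459 3407 335 3438 490)
 (.a 0 [335,459] (.q 299 (.a 1 [] (.d 267 1259 235 1291 395)
 (.a 1 [235] (.d 395 1291 267 1323 427)
 (.a 1 [267] (.r 365 363 367 (.d 398 2314 266 2347 431))
 .e))))
 .e)))))
 .e))))
 .e))))
 .e))))
 (.a 1 [428] (.q 330 (.a 1 [] (.d 297 2312 264 2345 429)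
 (.a 1 [264] (.d 429 2345 297 2378 462)
 (.a 0 [297,429] (.r 268 1292 300 (.q 299 (.a 1 [] (.d 237 3278 206 3309 361)
 (.a 1 [206] (.d 361 3309 237 3340 392)
 (.a 0 [237,361] (.q 331 (.a 1 [] (.d 329 328 328 329 333)
 (.a 1 [328] (.d 333 329 329 330 334)
 (.a 1 [329] (.d 267 1259 235 1291 395)
 .e))))
 .e)))))
 .e))))
 (.a 1 [268] (.d 428 1324 300 1356 460)
 .e)))))
 (.a 1 [301] (.q 364 (.a 1 [] (.d 300 1292 268 1324 428)
 (.a 1 [300] (.q 429 (.a 1 [] (.d 330 2345 297 2378 462)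
 (.a 1 [297] (.d 462 2378 330 2411 495)
 (.a 0 [330,462] (.r 460 1356 428 (.q 398 (.a 1 [] (.d 367 3408 336 3439 491)
 (.a 1 [336] (.d 491 3439 367 3470 522)
 (.a 1 [491] (.r 367 3408 336 (.r 365 363 366 (.d 431 2347 299 2380 464)))
 (.a 0 [367] (.q 395 (.a 1 [] (.d 397 394 394 395 399)
 (.a 1 [394] (.r 491 3470 522 (.r 427 1387 459 (.r 299 1323 331 (.d 365 2314 266 2347 431))))
 .e)))
 .e))))))
 .e))))
 (.a 1 [428] (.q 330 (.a 1 [] (.d 297 2312 264 2345 429)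
 (.a 1 [264] (.d 429 2345 297 2378 462)
 (.a 0 [297,429] (.r 268 1292 300 (.q 299 (.a 1 [] (.d 237 3278 206 3309 361)
 (.a 1 [206] (.d 361 3309 237 3340 392)
 (.a 0 [237,361] (.q 331 (.a 1 [] (.d 329 328 328 329 333)
 (.a 1 [328] (.d 333 329 329 330 334)
 (.a 1 [329] (.d 267 1259 235 1291 395)
 .e))))
 .e)))))
 .e))))
 (.a 1 [268] (.d 428 1324 300 1356 460)
 .e)))))
 (.a 1 [429] (.q 364 (.a 1 [] (.d 300 1292 268 1324 428)
 (.a 1 [428] (.q 301 (.a 1 [] (.d 270 3311 239 3342 394)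
 (.a 1 [239] (.d 394 3342 270 3373 425)
 (.a 0 [270,394] (.r 268 1292 300 (.q 334 (.a 1 [] (.d 235 2250 202 2283 367)
 (.a 1 [202] (.d 367 2283 235 2316 400)
 (.a 1 [235] (.r 367 2316 400 (.r 365 363 366 (.d 427 3375 303 3406 458)))
 (.a 0 [367] (.q 331 (.a 1 [] (.d 333 330 330 331 335)
 (.a 1 [330] (.r 235 2250 202 (.r 299 1259 267 (.r 427 1323 395 (.d 365 3375 303 3406 458))))
 .e)))
 .e))))))
 .e))))
 (.a 1 [300] (.q 394 (.a 1 [] (.d 301 3342 270 3373 425)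
 (.a 1 [270] (.d 425 3373 301 3404 456)
 (.a 0 [301,425] (.r 460 1356 428 (.q 427 (.a 1 [] (.d 361 2376 328 2409 493)
 (.a 1 [328] (.d 493 2409 361 2442 526)
 (.a 0 [361,493] (.q 395 (.a 1 [] (.d 393 392 392 393 397)
 (.a 1 [392] (.d 397 393 393 394 398)
 (.a 1 [393] (.d 331 1323 299 1355 459)
 .e))))
 .e)))))
 .e))))
 (.a 1 [268] (.d 428 1324 300 1356 460)
 .e)))))
 (.a 0 [300] (.q 330 (.a 1 [] (.d 297 2312 264 2345 429)
 (.a 1 [297] (.q 331 (.a 1 [] (.d 329 328 328 329 333)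
 (.a 1 [329] (.q 427 (.a 1 [] (.d 395 1323 299 1355 459)
 (.a 1 [299] (.r 334 330 333 (.d 365 3375 303 3406 458))
 .e)))
 (.a 1 [333] (.q 394 (.a 1 [] (.d 301 3342 270 3373 425)
 (.a 1 [270] (.d 425 3373 301 3404 456)
 (.a 0 [301,425] (.q 299 (.a 1 [] (.d 267 1259 235 1291 395)
 (.a 1 [235] (.d 395 1291 267 1323 427)
 (.a 1 [267] (.r 395 1323 427 (.d 397 393 393 394 398))
 (.a 0 [395] (.q 361 (.a 1 [] (.d 268 3309 237 3340 392)
 (.a 1 [237] (.d 392 3340 268 3371 423)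
 (.a 1 [268] (.r 328 328 329 (.d 427 2343 295 2376 460))
 .e))))
 .e)))))
 .e))))
 .e))))
 (.a 1 [429] (.q 331 (.a 1 [] (.d 329 328 328 329 333)
 (.a 1 [328] (.d 333 329 329 330 334)
 (.a 0 [329,333] (.q 395 (.a 1 [] (.d 299 1291 267 1323 427)
 (.a 1 [267] (.d 427 1323 299 1355 459)
 (.a 0 [299,427] (.q 394 (.a 1 [] (.d 393 392 392 393 397)
 (.a 1 [392] (.d 397 393 393 394 398)
 (.a 1 [393] (.d 301 3342 270 3373 425)
 .e))))
 .e))))
 .e))))
 .e))))
 (.a 0 [428] (.q 394 (.a 1 [] (.d 301 3342 270 3373 425)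
 (.a 1 [425] (.q 395 (.a 1 [] (.d 393 392 392 393 397)
 (.a 1 [393] (.q 299 (.a 1 [] (.d 331 1291 267 1323 427)
 (.a 1 [267] (.r 427 1323 331 (.r 398 394 397 (.d 365 2314 266 2347 431)))
 (.a 1 [331] (.r 398 394 397 (.d 365 2314 266 2347 431))
 .e))))
 (.a 1 [397] (.q 330 (.a 1 [] (.d 297 2312 264 2345 429)
 (.a 1 [264] (.d 429 2345 297 2378 462)
 (.a 0 [297,429] (.q 427 (.a 1 [] (.d 331 1323 299 1355 459)
 (.a 1 [299] (.d 459 1355 331 1387 491)
 (.a 1 [459] (.r 331 1323 299 (.d 333 329 329 330 334))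
 (.a 0 [331] (.q 361 (.a 1 [] (.d 328 2343 295 2376 460)
 (.a 1 [295] (.d 460 2376 328 2409 493)
 (.a 1 [328] (.r 392 392 393 (.d 423 3371 299 3402 454))
 .e))))
 .e)))))
 .e))))
 .e))))
 (.a 1 [301] (.q 395 (.a 1 [] (.d 393 392 392 393 397)
 (.a 1 [392] (.d 397 393 393 394 398)
 (.a 0 [393,397] (.q 331 (.a 1 [] (.d 299 1291 267 1323 427)
 (.a 1 [267] (.d 427 1323 299 1355 459)
 (.a 0 [299,427] (.q 330 (.a 1 [] (.d 329 328 328 329 333)
 (.a 1 [328] (.d 333 329 329 330 334)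
 (.a 1 [329] (.d 297 2312 264 2345 429)
 .e))))
 .e))))
 .e))))
 .e))))
 (.a 1 [297] (.q 301 (.a 1 [] (.d 270 3311 239 3342 394)
 (.a 1 [394] (.q 300 (.a 1 [] (.d 364 1292 268 1324 428)
 (.a 0 [268,364,428] (.q 303 (.a 1 [] (.d 302 299 299 300 304)
 (.a 0 [299,302,304] (.q 334 (.a 1 [] (.d 365 3344 272 3375 427)
 (.a 0 [272,365,427] (.q 335 (.a 1 [] (.d 333 331 331 332 336)
 (.a 1 [331] (.r 336 332 333 (.r 270 3311 239 (.d 369 2285 237 2318 402)))
 (.a 1 [333] (.r 239 3311 270 (.d 271 1231 207 1263 367))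
 .e))))
 .e)))
 .e)))
 .e)))
 (.a 1 [270] (.q 300 (.a 1 [] (.d 364 1292 268 1324 428)
 (.a 0 [268,364,428] (.q 299 (.a 1 [] (.d 302 298 298 299 303)
 (.a 0 [298,302,303] (.q 395 (.a 1 [] (.d 331 1291 267 1323 427)
 (.a 1 [267] (.r 394 3373 425 (.d 397 393 393 394 398))
 .e)))
 .e)))
 .e)))
 .e))))
 (.a 1 [425] (.q 429 (.a 1 [] (.d 330 2345 297 2378 462)
 (.a 1 [330] (.q 428 (.a 1 [] (.d 364 1324 300 1356 460)
 (.a 0 [300,364,460] (.q 431 (.a 1 [] (.d 430 427 427 428 432)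
 (.a 0 [427,430,432] (.q 398 (.a 1 [] (.d 365 2347 299 2380 464)
 (.a 0 [299,365,464] (.q 399 (.a 1 [] (.d 397 395 395 396 400)
 (.a 1 [395] (.r 400 396 397 (.r 462 2411 495 (.d 493 3441 369 3472 524)))
 (.a 1 [397] (.r 495 2411 462 (.d 463 1391 367 1423 527))
 .e))))
 .e)))
 .e)))
 .e)))
 (.a 1 [462] (.q 428 (.a 1 [] (.d 364 1324 300 1356 460)
 (.a 0 [300,364,460] (.q 427 (.a 1 [] (.d 430 426 426 427 431)
 (.a 0 [426,430,431] (.q 331 (.a 1 [] (.d 395 1323 299 1355 459)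
 (.a 1 [299] (.r 330 2345 297 (.d 333 329 329 330 334))
 .e)))
 .e)))
 .e)))
 (.a 1 [297] (.d 462 2378 330 2411 495)
 .e)))))
 (.a 0 [331] (.q 429 (.a 1 [] (.d 330 2345 297 2378 462)
 (.a 1 [330] (.q 394 (.a 1 [] (.d 301 3342 270 3373 425)
 (.a 1 [425] (.r 301 3342 270 (.q 397 (.a 1 [] (.d 395 393 393 394 398)
 (.a 1 [393] (.r 365 1325 333 (.r 398 394 395 (.d 431 2347 299 2380 464)))
 (.a 0 [395,398] (.q 428 (.a 1 [] (.d 364 1324 300 1356 460)
 (.a 1 [300] (.r 365 1325 333 (.r 364 1356 460 (.r 366 363 367 (.d 459 3407 335 3438 490))))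
 (.a 1 [460] (.r 365 1325 333 (.r 364 1324 300 (.r 366 363 367 (.d 459 3407 335 3438 490))))
 (.a 0 [364] (.q 366 (.a 1 [] (.d 335 3376 304 3407 459)
 (.a 1 [304] (.d 459 3407 335 3438 490)
 (.a 0 [335,459] (.q 493 (.a 1 [] (.d 365 1325 333 1389 461)
 (.a 1 [333] (.d 461 1389 365 1421 525)
 (.a 0 [365,461] (.q 427 (.a 1 [] (.d 430 426 426 427 431)
 (.a 1 [426] (.d 460 2409 361 2442 526)
 .e)))
 .e))))
 .e))))
 .e)))))
 .e)))))
 (.a 1 [301] (.q 428 (.a 1 [] (.d 364 1324 300 1356 460)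
 (.a 1 [300] (.r 460 1356 364 (.r 425 3404 456 (.r 427 425 426 (.d 493 2409 361 2442 526))))
 (.a 0 [364,460] (.q 397 (.a 1 [] (.d 395 393 393 394 398)
 (.a 1 [393] (.r 398 394 395 (.r 425 3404 456 (.r 427 425 426 (.r 431 427 430 (.d 365 2347 299 2380 464)))))
 (.a 1 [398] (.r 425 3404 456 (.r 427 425 426 (.r 395 393 393 (.r 459 1387 491 (.d 490 3438 366 3469 521)))))
 (.a 0 [395] (.q 461 (.a 1 [] (.d 365 1357 333 1389 493)
 (.a 1 [333] (.d 493 1389 365 1421 525)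
 (.a 0 [365,493] (.q 366 (.a 1 [] (.d 335 3376 304 3407 459)
 (.a 1 [304] (.d 459 3407 335 3438 490)
 (.a 0 [335,459] (.q 430 (.a 1 [] (.d 427 426 426 427 431)
 (.a 1 [426] (.d 431 427 427 428 432)
 (.a 1 [427] (.r 462 2411 495 (.d 398 1358 334 1390 494))
 .e))))
 .e))))
 .e))))
 .e)))))
 .e))))
 .e))))
 (.a 1 [462] (.q 394 (.a 1 [] (.d 301 3342 270 3373 425)
 (.a 1 [301] (.q 393 (.a 1 [] (.d 395 392 392 393 397)
 (.a 0 [392,395,397] (.q 428 (.a 1 [] (.d 364 1324 300 1356 460)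
 (.a 1 [300] (.r 460 1356 364 (.r 425 3404 456 (.r 427 425 426 (.d 493 2409 361 2442 526))))
 (.a 1 [364] (.r 425 3404 456 (.r 427 425 426 (.r 297 2345 330 (.r 361 1321 329 (.d 460 2376 328 2409 493)))))
 (.a 1 [460] (.r 425 3404 456 (.r 427 425 426 (.r 297 2345 330 (.r 361 1321 329 (.r 489 1385 457 (.d 458 3437 365 3468 520))))))
 .e)))))
 .e)))
 (.a 1 [425] (.q 300 (.a 1 [] (.d 364 1292 268 1324 428)
 (.a 0 [268,364,428] (.q 397 (.a 1 [] (.d 395 393 393 394 398)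
 (.a 1 [393] (.r 398 394 395 (.r 301 3342 270 (.r 365 1325 333 (.d 431 2347 299 2380 464))))
 (.a 1 [395] (.r 301 3342 270 (.r 365 1325 333 (.r 297 2345 330 (.r 299 297 298 (.d 398 2314 266 2347 431)))))
 (.a 1 [398] (.r 301 3342 270 (.r 365 1325 333 (.r 297 2345 330 (.r 299 297 298 (.r 303 299 302 (.d 334 3344 272 3375 427))))))
 .e)))))
 .e)))
 .e))))
 (.a 1 [297] (.d 462 2378 330 2411 495)
 .e)))))
 (.a 0 [395] (.q 429 (.a 1 [] (.d 330 2345 297 2378 462)
 (.a 0 [330] (.q 394 (.a 1 [] (.d 301 3342 270 3373 425)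
 (.a 1 [301] (.r 425 3404 456 (.q 428 (.a 1 [] (.d 364 1324 300 1356 460)
 (.a 1 [364] (.q 431 (.a 1 [] (.d 427 425 426 427 430)
 (.a 1 [426] (.d 430 427 427 428 432)
 (.a 0 [427,430] (.q 398 (.a 1 [] (.d 365 2347 299 2380 464)
 (.a 0 [299,365,464] (.q 524 (.a 1 [] (.r 460 1420 492 (.d 491 3439 367 3470 522))
 (.a 1 [367] (.r 462 2411 495 (.d 493 3472 400 3503 555))
 .e)))
 .e)))
 .e))))
 (.a 1 [460] (.q 431 (.a 1 [] (.d 427 425 426 427 430)
 (.a 1 [426] (.d 430 427 427 428 432)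
 (.a 0 [427,430] (.q 365 (.a 1 [] (.d 398 2347 299 2380 464)
 (.a 0 [299,398,464] (.q 397 (.a 1 [] (.d 461 1357 333 1389 493)
 (.a 1 [333] (.r 364 1324 300 (.r 366 363 367 (.d 459 3407 335 3438 490)))
 .e)))
 .e)))
 .e))))
 (.a 1 [300] (.r 427 425 426 (.r 460 1356 364 (.d 493 2409 361 2442 526)))
 .e))))))
 (.a 1 [425] (.q 428 (.a 1 [] (.d 364 1324 300 1356 460)
 (.a 0 [300,364,460] (.q 431 (.a 1 [] (.d 430 427 427 428 432)
 (.a 0 [427,430,432] (.q 365 (.a 1 [] (.d 398 2347 299 2380 464)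
 (.a 0 [299,398,464] (.q 493 (.a 1 [] (.r 462 2411 495 (.d 524 3472 400 3503 555))
 (.a 1 [400] (.r 397 1389 461 (.d 301 3342 270 1325 333))
 (.a 1 [462] (.r 301 3342 270 (.d 397 1325 333 1389 461))
 .e))))
 .e)))
 .e)))
 .e)))
 (.a 1 [270] (.d 425 3373 301 3404 456)
 .e)))))
 (.a 0 [462] (.r 330 2345 297 (.q 428 (.a 1 [] (.d 364 1324 300 1356 460)
 (.a 0 [364] (.q 333 (.a 1 [] (.d 331 329 329 330 334)
 (.a 1 [329] (.r 334 330 331 (.q 365 (.a 1 [] (.d 397 1325 301 1357 461)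
 (.a 1 [296] (.q 263 (.a 1 [] (.d 303 3344 272 3375 427)
 (.a 1 [272] (.d 427 3375 303 3406 458)
 (.a 1 [303] (.d 397 1325 301 1357 461)
 .e))))
 (.a 1 [263] (.q 296 (.a 1 [] (.d 397 1325 301 1357 461)
 (.a 1 [397] (.d 303 3344 272 3375 427)
 .e)))
 (.a 1 [397] (.d 303 3344 272 3375 427)
 .e))))))
 (.a 1 [331] (.q 301 (.a 1 [] (.d 270 3311 239 3342 394)
 (.a 1 [239] (.d 394 3342 270 3373 425)
 (.a 1 [270] (.r 365 1325 397 (.r 425 3373 394 (.r 427 425 426 (.d 458 3406 334 3437 489))))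
 (.a 0 [394] (.q 430 (.a 1 [] (.d 427 426 426 427 431)
 (.a 1 [426] (.d 431 427 427 428 432)
 (.a 1 [427] (.r 365 1325 397 (.r 431 428 432 (.d 398 2347 299 2380 464)))
 (.a 1 [431] (.r 365 1325 397 (.r 427 426 426 (.d 458 3406 334 3437 489)))
 .e)))))
 .e)))))
 (.a 1 [334] (.q 301 (.a 1 [] (.d 270 3311 239 3342 394)
 (.a 1 [239] (.d 394 3342 270 3373 425)
 (.a 1 [270] (.r 365 1325 397 (.r 425 3373 394 (.r 427 425 426 (.r 431 427 430 (.d 398 2347 299 2380 464)))))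
 (.a 0 [394] (.q 431 (.a 1 [] (.d 430 427 427 428 432)
 (.a 1 [427] (.r 365 1325 397 (.d 398 2347 299 2380 464))
 .e)))
 .e)))))
 .e)))))
 (.a 1 [460] (.q 427 (.a 1 [] (.d 426 425 425 426 430)
 (.a 1 [425] (.d 430 426 426 427 431)
 (.a 1 [430] (.r 425 425 426 (.d 394 3373 301 3404 456))
 (.a 0 [426] (.q 365 (.a 1 [] (.d 334 3375 303 3406 458)
 (.a 1 [303] (.d 458 3406 334 3437 489)
 (.a 1 [334] (.r 431 427 430 (.d 398 2347 299 2380 464))
 .e))))
 .e)))))
 .e)))))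
 (.a 1 [297] (.d 462 2378 330 2411 495)
 .e)))))
 (.a 0 [299] (.q 394 (.a 1 [] (.d 301 3342 270 3373 425)
 (.a 1 [425] (.q 395 (.a 1 [] (.d 393 392 392 393 397)
 (.a 1 [393] (.q 429 (.a 1 [] (.d 330 2345 297 2378 462)
 (.a 1 [297] (.d 462 2378 330 2411 495)
 (.a 0 [330,462] (.q 428 (.a 1 [] (.d 364 1324 300 1356 460)
 (.a 1 [300] (.r 460 1356 364 (.r 398 394 397 (.d 491 3439 367 3470 522)))
 (.a 0 [364,460] (.q 427 (.a 1 [] (.d 430 426 426 427 431)
 (.a 1 [426] (.d 459 1355 331 1387 491)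
 .e)))
 .e))))
 .e))))
 (.a 1 [397] (.q 364 (.a 1 [] (.d 300 1292 268 1324 428)
 (.a 1 [268] (.d 428 1324 300 1356 460)
 (.a 0 [300,428] (.q 426 (.a 1 [] (.d 333 3374 302 3405 457)
 (.a 1 [302] (.d 457 3405 333 3436 488)
 (.a 0 [333,457] (.q 459 (.a 1 [] (.d 427 1355 331 1387 491)
 (.a 1 [331] (.r 393 392 392 (.d 492 2408 360 2441 525))
 .e)))
 .e))))
 .e))))
 (.a 1 [392] (.d 397 393 393 394 398)
 .e)))))
 (.a 1 [301] (.q 395 (.a 1 [] (.d 393 392 392 393 397)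
 (.a 1 [392] (.d 397 393 393 394 398)
 (.a 0 [393,397] (.q 429 (.a 1 [] (.d 330 2345 297 2378 462)
 (.a 1 [297] (.d 462 2378 330 2411 495)
 (.a 0 [330,462] (.q 427 (.a 1 [] (.d 459 1355 331 1387 491)
 (.a 1 [331] (.r 425 3404 456 (.r 428 425 426 (.d 364 1324 300 1356 460)))
 .e)))
 .e))))
 .e))))
 .e))))
 (.a 0 [427] (.q 330 (.a 1 [] (.d 297 2312 264 2345 429)
 (.a 0 [297] (.q 364 (.a 1 [] (.d 300 1292 268 1324 428)
 (.a 1 [300] (.q 331 (.a 1 [] (.d 329 328 328 329 333)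
 (.a 1 [333] (.q 298 (.a 1 [] (.d 265 2280 232 2313 397)
 (.a 1 [232] (.d 397 2313 265 2346 430)
 (.a 0 [265,397] (.q 267 (.a 1 [] (.d 299 1259 235 1291 395)
 (.a 1 [235] (.r 329 328 328 (.d 360 3308 236 3339 391))
 .e)))
 .e))))
 (.a 1 [329] (.q 395 (.a 1 [] (.r 333 330 334 (.d 426 3374 302 3405 457))
 (.a 1 [457] (.r 333 330 334 (.d 302 3343 271 3374 426))
 (.a 0 [302,333,334,426] (.q 394 (.a 1 [] (.d 393 392 392 393 397)
 (.a 1 [392] (.d 397 393 393 394 398)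
 (.a 1 [393] (.d 301 3342 270 3373 425)
 .e))))
 .e))))
 .e))))
 (.a 1 [428] (.q 301 (.a 1 [] (.d 270 3311 239 3342 394)
 (.a 1 [239] (.d 394 3342 270 3373 425)
 (.a 0 [270,394] (.q 333 (.a 1 [] (.d 331 329 329 330 334)
 (.a 1 [329] (.r 429 2378 462 (.r 365 1325 397 (.r 334 330 331 (.r 268 1292 300 (.d 367 363 366 2316 400)))))
 (.a 0 [331,334] (.q 302 (.a 1 [] (.d 271 3312 240 3343 395)
 (.a 1 [240] (.d 395 3343 271 3374 426)
 (.a 1 [271] (.r 300 1292 268 (.d 303 299 299 300 304))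
 .e))))
 .e))))
 .e))))
 (.a 1 [268] (.d 428 1324 300 1356 460)
 .e)))))
 (.a 1 [429] (.q 331 (.a 1 [] (.d 329 328 328 329 333)
 (.a 1 [328] (.d 333 329 329 330 334)
 (.a 0 [329,333] (.q 301 (.a 1 [] (.d 270 3311 239 3342 394)
 (.a 1 [239] (.d 394 3342 270 3373 425)
 (.a 0 [270,394] (.q 299 (.a 1 [] (.d 267 1259 235 1291 395)
 (.a 1 [235] (.r 297 2312 264 (.r 300 297 298 (.d 364 1292 268 1324 428)))
 .e)))
 .e))))
 .e))))
 (.a 1 [264] (.d 429 2345 297 2378 462)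
 .e)))))
 (.a 0 [298] (.q 330 (.a 1 [] (.d 297 2312 264 2345 429)
 (.a 1 [297] (.q 331 (.a 1 [] (.d 329 328 328 329 333)
 (.a 1 [329] (.q 427 (.a 1 [] (.d 395 1323 299 1355 459)
 (.a 1 [299] (.r 334 330 333 (.d 365 3375 303 3406 458))
 .e)))
 (.a 1 [333] (.q 299 (.a 1 [] (.d 267 1259 235 1291 395)
 (.a 1 [235] (.d 395 1291 267 1323 427)
 (.a 0 [267,395] (.q 268 (.a 1 [] (.d 237 3278 206 3309 361)
 (.a 1 [206] (.d 361 3309 237 3340 392)
 (.a 0 [237,361] (.q 301 (.a 1 [] (.d 270 3311 239 3342 394)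
 (.a 1 [239] (.d 394 3342 270 3373 425)
 (.a 0 [270,394] (.q 365 (.a 1 [] (.d 266 2281 233 2314 398)
 (.a 1 [233] (.d 398 2314 266 2347 431)
 (.a 0 [266,398] (.q 334 (.a 1 [] (.d 235 2250 202 2283 367)
 (.a 1 [202] (.d 367 2283 235 2316 400)
 (.a 1 [235] (.d 427 3375 303 3406 458)
 .e))))
 .e))))
 .e))))
 .e))))
 .e))))
 .e))))
 (.a 1 [429] (.q 331 (.a 1 [] (.d 329 328 328 329 333)
 (.a 1 [328] (.d 333 329 329 330 334)
 (.a 0 [329,333] (.q 395 (.a 1 [] (.d 299 1291 267 1323 427)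
 (.a 1 [267] (.d 427 1323 299 1355 459)
 (.a 0 [299,427] (.q 394 (.a 1 [] (.d 393 392 392 393 397)
 (.a 1 [392] (.d 397 393 393 394 398)
 (.a 1 [393] (.d 301 3342 270 3373 425)
 .e))))
 .e))))
 .e))))
 .e))))
 (.a 0 [426] (.q 394 (.a 1 [] (.d 301 3342 270 3373 425)
 (.a 1 [425] (.q 395 (.a 1 [] (.d 393 392 392 393 397)
 (.a 1 [393] (.q 299 (.a 1 [] (.d 331 1291 267 1323 427)
 (.a 1 [267] (.r 427 1323 331 (.r 398 394 397 (.d 365 2314 266 2347 431)))
 (.a 1 [331] (.r 398 394 397 (.d 365 2314 266 2347 431))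
 .e))))
 (.a 1 [397] (.q 427 (.a 1 [] (.d 331 1323 299 1355 459)
 (.a 1 [299] (.d 459 1355 331 1387 491)
 (.a 0 [331,459] (.q 460 (.a 1 [] (.d 361 2376 328 2409 493)
 (.a 1 [328] (.d 493 2409 361 2442 526)
 (.a 0 [361,493] (.q 429 (.a 1 [] (.d 330 2345 297 2378 462)
 (.a 1 [297] (.d 462 2378 330 2411 495)
 (.a 0 [330,462] (.q 365 (.a 1 [] (.d 334 3375 303 3406 458)
 (.a 1 [303] (.d 458 3406 334 3437 489)
 (.a 0 [334,458] (.q 398 (.a 1 [] (.d 299 2314 266 2347 431)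
 (.a 1 [266] (.d 431 2347 299 2380 464)
 (.a 1 [299] (.d 491 3439 367 3470 522)
 .e))))
 .e))))
 .e))))
 .e))))
 .e))))
 .e))))
 (.a 1 [301] (.q 395 (.a 1 [] (.d 393 392 392 393 397)
 (.a 1 [392] (.d 397 393 393 394 398)
 (.a 0 [393,397] (.q 331 (.a 1 [] (.d 299 1291 267 1323 427)
 (.a 1 [267] (.d 427 1323 299 1355 459)
 (.a 0 [299,427] (.q 330 (.a 1 [] (.d 329 328 328 329 333)
 (.a 1 [328] (.d 333 329 329 330 334)
 (.a 1 [329] (.d 297 2312 264 2345 429)
 .e))))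
 .e))))
 .e))))
 .e))))
 (.a 1 [361] (.q 364 (.a 1 [] (.d 300 1292 268 1324 428)
 (.a 1 [300] (.q 394 (.a 1 [] (.d 301 3342 270 3373 425)
 (.a 1 [270] (.d 425 3373 301 3404 456)
 (.a 0 [301,425] (.q 429 (.a 1 [] (.d 330 2345 297 2378 462)
 (.a 1 [297] (.d 462 2378 330 2411 495)
 (.a 0 [330,462] (.q 397 (.a 1 [] (.d 395 393 393 394 398)
 (.a 1 [393] (.r 398 394 395 (.r 460 1356 428 (.d 491 3439 367 3470 522)))
 (.a 0 [395,398] (.q 430 (.a 1 [] (.d 331 2346 298 2379 463)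
 (.a 1 [298] (.d 463 2379 331 2412 496)
 (.a 1 [331] (.r 428 1356 460 (.d 431 427 427 428 432))
 .e))))
 .e))))
 .e))))
 .e))))
 (.a 1 [428] (.q 330 (.a 1 [] (.d 297 2312 264 2345 429)
 (.a 1 [264] (.d 429 2345 297 2378 462)
 (.a 0 [297,429] (.q 301 (.a 1 [] (.d 270 3311 239 3342 394)
 (.a 1 [239] (.d 394 3342 270 3373 425)
 (.a 0 [270,394] (.q 333 (.a 1 [] (.d 331 329 329 330 334)
 (.a 1 [329] (.r 334 330 331 (.r 268 1292 300 (.d 367 2283 235 2316 400)))
 (.a 0 [331,334] (.q 302 (.a 1 [] (.d 271 3312 240 3343 395)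
 (.a 1 [240] (.d 395 3343 271 3374 426)
 (.a 1 [271] (.r 300 1292 268 (.d 303 299 299 300 304))
 .e))))
 .e))))
 .e))))
 .e))))
 (.a 1 [268] (.d 428 1324 300 1356 460)
 .e)))))
 (.a 1 [365] (.q 330 (.a 1 [] (.d 297 2312 264 2345 429)
 (.a 1 [264] (.d 429 2345 297 2378 462)
 (.a 0 [297,429] (.q 301 (.a 1 [] (.d 270 3311 239 3342 394)
 (.a 1 [239] (.d 394 3342 270 3373 425)
 (.a 0 [270,394] (.q 300 (.a 1 [] (.d 364 1292 268 1324 428)
 (.a 0 [268,364,428] (.q 299 (.a 1 [] (.d 302 298 298 299 303)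
 (.a 0 [298,302,303] (.q 331 (.a 1 [] (.d 329 328 328 329 333)
 (.a 1 [328] (.d 333 329 329 330 334)
 (.a 1 [329] (.d 267 1259 235 1291 395)
 .e))))
 .e)))
 .e)))
 .e))))
 .e))))
 (.a 1 [398] (.q 330 (.a 1 [] (.d 297 2312 264 2345 429)
 (.a 1 [264] (.d 429 2345 297 2378 462)
 (.a 0 [297,429] (.q 331 (.a 1 [] (.d 329 328 328 329 333)
 (.a 1 [328] (.d 333 329 329 330 334)
 (.a 0 [329,333] (.q 395 (.a 1 [] (.d 299 1291 267 1323 427)
 (.a 1 [267] (.d 427 1323 299 1355 459)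
 (.a 0 [299,427] (.q 394 (.a 1 [] (.d 393 392 392 393 397)
 (.a 1 [392] (.d 425 3373 301 3404 456)
 .e)))
 .e))))
 .e))))
 .e))))
 (.a 1 [264] (.q 394 (.a 1 [] (.d 301 3342 270 3373 425)
 (.a 1 [270] (.d 425 3373 301 3404 456)
 (.a 0 [301,425] (.q 395 (.a 1 [] (.d 393 392 392 393 397)
 (.a 1 [392] (.d 397 393 393 394 398)
 (.a 0 [393,397] (.q 331 (.a 1 [] (.d 299 1291 267 1323 427)
 (.a 1 [267] (.d 427 1323 299 1355 459)
 (.a 0 [299,427] (.q 330 (.a 1 [] (.d 329 328 328 329 333)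
 (.a 1 [328] (.d 333 329 329 330 334)
 (.a 1 [329] (.d 429 2345 297 2378 462)
 .e))))
 .e))))
 .e))))
 .e))))
 (.a 1 [334] (.q 394 (.a 1 [] (.d 301 3342 270 3373 425)
 (.a 1 [270] (.d 425 3373 301 3404 456)
 (.a 0 [301,425] (.q 395 (.a 1 [] (.d 393 392 392 393 397)
 (.a 1 [392] (.d 397 393 393 394 398)
 (.a 0 [393,397] (.q 331 (.a 1 [] (.d 299 1291 267 1323 427)
 (.a 1 [267] (.d 427 1323 299 1355 459)
 (.a 0 [299,427] (.q 330 (.a 1 [] (.d 329 328 328 329 333)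
 (.a 1 [328] (.d 429 2345 297 2378 462)
 .e)))
 .e))))
 .e))))
 .e))))
 (.a 1 [333] (.q 394 (.a 1 [] (.d 301 3342 270 3373 425)
 (.a 1 [270] (.d 425 3373 301 3404 456)
 (.a 0 [301,425] (.q 429 (.a 1 [] (.d 330 2345 297 2378 462)
 (.a 1 [297] (.d 462 2378 330 2411 495)
 (.a 0 [330,462] (.q 428 (.a 1 [] (.d 364 1324 300 1356 460)
 (.a 0 [300,364,460] (.q 427 (.a 1 [] (.d 430 426 426 427 431)
 (.a 0 [426,430,431] (.q 395 (.a 1 [] (.d 393 392 392 393 397)
 (.a 1 [392] (.d 397 393 393 394 398)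
 (.a 1 [393] (.d 331 1323 299 1355 459)
 .e))))
 .e)))
 .e)))
 .e))))
 .e))))
 (.a 1 [397] (.q 330 (.a 1 [] (.d 297 2312 264 2345 429)
 (.a 1 [264] (.d 429 2345 297 2378 462)
 (.a 0 [297,429] (.q 301 (.a 1 [] (.d 270 3311 239 3342 394)
 (.a 1 [239] (.d 394 3342 270 3373 425)
 (.a 0 [270,394] (.q 300 (.a 1 [] (.d 364 1292 268 1324 428)
 (.a 0 [268,364,428] (.q 299 (.a 1 [] (.d 302 298 298 299 303)
 (.a 0 [298,302,303] (.q 331 (.a 1 [] (.d 329 328 328 329 333)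
 (.a 1 [328] (.d 333 329 329 330 334)
 (.a 1 [329] (.d 267 1259 235 1291 395)
 .e))))
 .e)))
 .e)))
 .e))))
 .e))))
 (.a 1 [329] (.q 394 (.a 1 [] (.d 301 3342 270 3373 425)
 (.a 1 [270] (.d 425 3373 301 3404 456)
 (.a 0 [301,425] (.q 428 (.a 1 [] (.d 364 1324 300 1356 460)
 (.a 0 [300,364,460] (.q 429 (.a 1 [] (.d 330 2345 297 2378 462)
 (.a 1 [297] (.d 462 2378 330 2411 495)
 (.a 0 [330,462] (.q 427 (.a 1 [] (.d 430 426 426 427 431)
 (.a 0 [426,430,431] (.q 395 (.a 1 [] (.d 393 392 392 393 397)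
 (.a 1 [392] (.d 397 393 393 394 398)
 (.a 1 [393] (.d 331 1323 299 1355 459)
 .e))))
 .e)))
 .e))))
 .e)))
 .e))))
 (.a 1 [393] (.q 330 (.a 1 [] (.d 297 2312 264 2345 429)
 (.a 1 [264] (.d 429 2345 297 2378 462)
 (.a 0 [297,429] (.q 300 (.a 1 [] (.d 364 1292 268 1324 428)
 (.a 0 [268,364,428] (.q 301 (.a 1 [] (.d 270 3311 239 3342 394)
 (.a 1 [239] (.d 394 3342 270 3373 425)
 (.a 0 [270,394] (.q 299 (.a 1 [] (.d 302 298 298 299 303)
 (.a 0 [298,302,303] (.q 331 (.a 1 [] (.d 329 328 328 329 333)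
 (.a 1 [328] (.d 333 329 329 330 334)
 (.a 1 [329] (.d 267 1259 235 1291 395)
 .e))))
 .e)))
 .e))))
 .e)))
 .e))))
 (.a 1 [359] (.q 330 (.a 1 [] (.d 297 2312 264 2345 429)
 (.a 1 [264] (.d 429 2345 297 2378 462)
 (.a 0 [297,429] (.q 331 (.a 1 [] (.d 329 328 328 329 333)
 (.a 1 [328] (.d 333 329 329 330 334)
 (.a 0 [329,333] (.q 395 (.a 1 [] (.d 299 1291 267 1323 427)
 (.a 1 [267] (.d 427 1323 299 1355 459)
 (.a 0 [299,427] (.q 394 (.a 1 [] (.d 393 392 392 393 397)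
 (.a 1 [392] (.d 397 393 393 394 398)
 (.a 1 [393] (.d 301 3342 270 3373 425)
 .e))))
 .e))))
 .e))))
 .e))))
 .e)))))))))))))))))))))))))) (by decide +kernel)

theorem r392 : S (Nat.lor X2 (bits [530, 392])) := VW.play 394 (PX [] [392,530]) (by decide +kernel) v6_52

theorem all : RT X2 530 (398 :: 402 :: 406 :: 431 :: 434 :: 437 :: 464 :: 466 :: 468 :: 497 :: 498 :: 499 :: 526 :: 527 :: 528 :: 529 :: 531 :: 532 :: 533 :: 534 :: 561 :: 562 :: 563 :: 592 :: 594 :: 596 :: 623 :: 626 :: 629 :: 654 :: 658 :: 662 :: 264 :: 298 :: 299 :: 359 :: 362 :: 392 :: []) := ⟨r398, r402, r406, r431, r434, r437, r464, r466, r468, r497, r498, r499, r526, r527, r528, r529, r531, r532, r533, r534, r561, r562, r563, r592, r594, r596, r623, r626, r629, r654, r658, r662, r264, r298, r299, r359, r362, r392, trivial⟩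

end Pool.Agent.H94.Five.Mid.K7_5_0
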