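import Pool.Agent.H94.Five.Mid.Fam

set_option autoImplicit false
set_option linter.all false
set_option maxRecDepth 100000

/-! Second has the cell (7, 6): some of the other stones. -/

namespace Pool.Agent.H94.Five.Mid.K7_6_0

open Pool.Agent.H79.Five Pool.Agent.H10.Five Pool.Agent.H94.Five.M

abbrev nl : List Ent := [n0, n3, n4, n6, n8, n9, n10, n11, n16, n17, n21, n22]

theorem nl_ok : AC XB M0 nl := .cons n0k <| .cons n3k <| .cons n4k <| .cons n6k <| .cons n8k <| .cons n9k <| .cons n10k <| .cons n11k <| .cons n16k <| .cons n17k <| .cons n21k <| .cons n22k <| .nil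

abbrev fl : List Ent := (x44 :: x45 :: x60 :: x73 :: x101 :: x102 :: x103 :: x108 :: x130 :: x136 :: x167 :: x171 :: x174 :: x176 :: x179 :: x183 :: x185 :: x193 :: x197 :: x201 :: x204 :: x207 :: x208 :: x218 :: x238 :: x242 :: x245 :: x254 :: x255 :: x258 :: x266 :: x270 :: x276 :: x277 :: x284 :: x291 :: x293 :: x304 :: x310 :: x316 :: x328 :: x336 :: x337 :: x352 :: x356 :: x357 :: x363 :: x364 :: x371 :: x375 :: x379 :: x383 :: x390 :: x400 :: x420 :: x424 :: x426 :: x427 :: x434 :: x437 :: x451 :: x455 :: x462 :: x486 :: x492 :: x493 :: x498 :: x501 :: x533 :: x560 :: [])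

theorem fl_ok : AC XB M0 fl := .cons x44k <| .cons x45k <| .cons x60k <| .cons x73k <| .cons x101k <| .cons x102k <| .cons x103k <| .cons x108k <| .cons x130k <| .cons x136k <| .cons x167k <| .cons x171k <| .cons x174k <| .cons x176k <| .cons x179k <| .cons x183k <| .cons x185k <| .cons x193k <| .cons x197k <| .cons x201k <| .cons x204k <| .cons x207k <| .cons x208k <| .cons x218k <| .cons x238k <| .cons x242k <| .cons x245k <| .cons x254k <| .cons x255k <| .cons x258k <| .cons x266k <| .cons x270k <| .cons x276k <| .cons x277k <| .cons x284k <| .cons x291k <| .cons x293k <| .cons x304k <| .cons x310k <| .cons x316k <| .cons x328k <| .cons x336k <| .cons x337k <| .cons x352k <| .cons x356k <| .cons x357k <| .cons x363k <| .cons x364k <| .cons x371k <| .cons x375k <| .cons x379k <| .cons x383k <| .cons x390k <| .cons x400k <| .cons x420k <| .cons x424k <| .cons x426k <| .cons x427k <| .cons x434k <| .cons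 x437k <| .cons x451k <| .cons x455k <| .cons x462k <| .cons x486k <| .cons x492k <| .cons x493k <| .cons x498k <| .cons x501k <| .cons x533k <| .cons x560k <| .nil

theorem b2_2066 : S (PX [] [297,430,562]) := S.of (.q 395 (.a 1 [] (.d 393 392 392 393 397)
 (.a 1 [392] (.d 397 393 393 394 398)
 (.a 0 [393] (.q 427 (.a 1 [] (.d 331 1323 299 1355 459)
 (.a 1 [299] (.d 459 1355 331 1387 491)
 (.a 0 [331,459] (.q 361 (.a 1 [] (.d 328 2343 295 2376 460)
 (.a 1 [295] (.d 460 2376 328 2409 493)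
 (.a 0 [328,460] (.q 458 (.a 1 [] (.d 365 3406 334 3437 489)
 (.a 1 [334] (.d 489 3437 365 3468 520)
 (.a 1 [489] (.r 365 3406 334 (.r 362 361 364 (.d 426 1354 330 1386 490)))
 (.a 0 [365] (.q 362 (.a 1 [] (.d 360 359 359 360 364)
 (.a 1 [359] (.d 426 1354 330 1386 490)
 .e)))
 .e)))))
 .e))))
 .e))))
 (.a 0 [397] (.q 331 (.a 1 [] (.d 299 1291 267 1323 427)
 (.a 1 [267] (.d 427 1323 299 1355 459)
 (.a 0 [299,427] (.q 332 (.a 1 [] (.d 301 3342 270 3373 425)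
 (.a 1 [270] (.d 425 3373 301 3404 456)
 (.a 0 [301,425] (.q 300 (.a 1 [] (.d 364 1292 268 1324 428)
 (.a 1 [268] (.r 393 392 392 (.d 362 3341 269 3372 424))
 .e)))
 .e))))
 .e))))
 .e))))) (by decide +kernel)

theorem b2_2067 : S (PX [] [298,430,562]) := S.of (.q 395 (.a 1 [] (.d 393 392 392 393 397)
 (.a 1 [392] (.d 397 393 393 394 398)
 (.a 0 [393,397] (.q 331 (.a 1 [] (.d 299 1291 267 1323 427)
 (.a 1 [267] (.d 427 1323 299 1355 459)
 (.a 0 [299] (.r 427 1355 459 (.q 361 (.a 1 [] (.d 328 2343 295 2376 460)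
 (.a 1 [295] (.d 460 2376 328 2409 493)
 (.a 0 [328,460] (.q 458 (.a 1 [] (.d 365 3406 334 3437 489)
 (.a 1 [334] (.d 489 3437 365 3468 520)
 (.a 1 [489] (.r 365 3406 334 (.r 362 361 364 (.d 426 1354 330 1386 490)))
 (.a 0 [365] (.q 362 (.a 1 [] (.d 360 359 359 360 364)
 (.a 1 [359] (.d 426 1354 330 1386 490)
 .e)))
 .e)))))
 .e)))))
 (.a 0 [427] (.q 332 (.a 1 [] (.d 301 3342 270 3373 425)
 (.a 1 [270] (.d 425 3373 301 3404 456)
 (.a 0 [301,425] (.q 330 (.a 1 [] (.d 329 328 328 329 333)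
 (.a 1 [328] (.d 333 329 329 330 334)
 (.a 1 [329] (.d 297 2312 264 2345 429)
 .e))))
 .e))))
 .e)))))
 .e)))) (by decide +kernel)

theorem b2_2068 : S (PX [] [332,430,562]) := S.of (.q 395 (.a 1 [] (.d 393 392 392 393 397)
 (.a 1 [392] (.d 397 393 393 394 398)
 (.a 0 [393,397] (.q 330 (.a 1 [] (.d 297 2312 264 2345 429)
 (.a 1 [264] (.d 429 2345 297 2378 462)
 (.a 0 [297] (.q 426 (.a 1 [] (.d 362 1322 298 1354 458)
 (.a 0 [298,362,458] (.q 364 (.a 1 [] (.d 333 3374 302 3405 457)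
 (.a 1 [302] (.d 457 3405 333 3436 488)
 (.a 0 [333,457] (.q 427 (.a 1 [] (.d 331 1323 299 1355 459)
 (.a 1 [299] (.d 459 1355 331 1387 491)
 (.a 1 [331] (.r 429 2378 462 (.r 428 425 425 (.r 460 1388 492 (.d 493 2409 361 2442 526))))
 .e))))
 .e))))
 .e)))
 (.a 0 [429] (.q 362 (.a 1 [] (.d 298 1290 266 1322 426)
 (.a 1 [266] (.d 426 1322 298 1354 458)
 (.a 0 [298] (.q 364 (.a 1 [] (.d 361 360 360 361 365)
 (.a 1 [360] (.d 365 361 361 362 366)
 (.a 1 [361] (.r 426 1354 458 (.d 457 3405 333 3436 488))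
 .e))))
 (.a 0 [426] (.q 427 (.a 1 [] (.d 331 1323 299 1355 459)
 (.a 1 [299] (.d 459 1355 331 1387 491)
 (.a 0 [331] (.q 364 (.a 1 [] (.d 361 360 360 361 365)
 (.a 1 [360] (.d 365 361 361 362 366)
 (.a 1 [361] (.r 365 362 366 (.d 458 3406 334 3437 489))
 (.a 1 [365] (.r 361 360 360 (.d 460 2376 328 2409 493))
 .e)))))
 (.a 0 [459] (.r 299 1323 331 (.r 298 1290 266 (.r 297 2312 264 (.d 300 296 296 297 301))))
 .e)))))
 .e)))))
 .e)))))
 .e)))) (by decide +kernel)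

theorem b2_2069 : S (PX [] [361,430,562]) := S.of (.q 332 (.a 1 [] (.d 301 3342 270 3373 425)
 (.a 1 [270] (.d 425 3373 301 3404 456)
 (.a 0 [301,425] (.q 364 (.a 1 [] (.d 300 1292 268 1324 428)
 (.a 1 [268] (.d 428 1324 300 1356 460)
 (.a 0 [300,428] (.q 429 (.a 1 [] (.d 330 2345 297 2378 462)
 (.a 1 [297] (.d 462 2378 330 2411 495)
 (.a 0 [330,462] (.q 365 (.a 1 [] (.d 366 362 362 363 367)
 (.a 0 [362,366,367] (.q 398 (.a 1 [] (.d 299 2314 266 2347 431)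
 (.a 1 [266] (.d 431 2347 299 2380 464)
 (.a 1 [299] (.r 397 394 395 (.d 461 1357 333 1389 493))
 .e))))
 .e)))
 .e))))
 .e))))
 .e)))) (by decide +kernel)

theorem b2_2070 : S (PX [] [364,430,562]) := S.of (.q 330 (.a 1 [] (.d 297 2312 264 2345 429)
 (.a 1 [264] (.d 429 2345 297 2378 462)
 (.a 0 [297] (.q 425 (.a 1 [] (.d 332 3373 301 3404 456)
 (.a 1 [301] (.d 456 3404 332 3435 487)
 (.a 0 [332,456] (.q 426 (.a 1 [] (.d 362 1322 298 1354 458)
 (.a 1 [298] (.r 458 1354 362 (.r 429 2378 462 (.r 427 425 428 (.d 489 3437 365 3468 520))))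
 (.a 0 [362,458] (.q 395 (.a 1 [] (.d 393 392 392 393 397)
 (.a 1 [392] (.d 397 393 393 394 398)
 (.a 1 [393] (.r 429 2378 462 (.r 427 425 428 (.d 459 1355 331 1387 491)))
 .e))))
 .e))))
 .e))))
 (.a 0 [429] (.q 425 (.a 1 [] (.d 332 3373 301 3404 456)
 (.a 1 [301] (.d 456 3404 332 3435 487)
 (.a 0 [332,456] (.q 393 (.a 1 [] (.d 395 392 392 393 397)
 (.a 1 [397] (.r 392 392 395 (.r 297 2312 264 (.r 361 1321 329 (.d 423 3371 299 3402 454))))
 (.a 0 [392,395] (.q 426 (.a 1 [] (.d 362 1322 298 1354 458)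
 (.a 1 [298] (.r 458 1354 362 (.r 297 2312 264 (.r 361 1321 329 (.r 489 1385 457 (.d 427 3437 365 3468 520)))))
 (.a 1 [458] (.r 297 2312 264 (.r 361 1321 329 (.r 362 1322 298 (.r 360 359 359 (.d 459 2375 327 2408 492)))))
 (.a 0 [362] (.q 327 (.a 1 [] (.d 360 2342 294 2375 459)
 (.a 1 [294] (.r 297 2312 264 (.r 329 1321 361 (.d 328 326 326 327 331)))
 .e)))
 .e)))))
 .e))))
 .e))))
 .e))))) (by decide +kernel)

theorem b2_2071 : S (PX [] [365,430,562]) := S.of (.q 395 (.a 1 [] (.d 393 392 392 393 397)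
 (.a 1 [392] (.d 397 393 393 394 398)
 (.a 0 [393,397] (.q 331 (.a 1 [] (.d 299 1291 267 1323 427)
 (.a 1 [267] (.d 427 1323 299 1355 459)
 (.a 0 [299,427] (.q 332 (.a 1 [] (.d 301 3342 270 3373 425)
 (.a 1 [270] (.d 425 3373 301 3404 456)
 (.a 0 [301,425] (.q 333 (.a 1 [] (.d 330 329 329 330 334)
 (.a 1 [329] (.d 334 330 330 331 335)
 (.a 1 [334] (.r 330 329 329 (.d 429 2345 297 2378 462))
 (.a 0 [330] (.q 364 (.a 1 [] (.d 300 1292 268 1324 428)
 (.a 1 [268] (.d 428 1324 300 1356 460)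
 (.a 1 [300] (.d 302 3343 271 3374 426)
 .e))))
 .e)))))
 .e))))
 .e))))
 .e)))) (by decide +kernel)

theorem b2_2072 : S (PX [] [397,430,562]) := S.of (.q 330 (.a 1 [] (.d 297 2312 264 2345 429)
 (.a 1 [264] (.d 429 2345 297 2378 462)
 (.a 0 [297] (.q 362 (.a 1 [] (.d 298 1290 266 1322 426)
 (.a 1 [266] (.d 426 1322 298 1354 458)
 (.a 0 [298,426] (.q 364 (.a 1 [] (.d 361 360 360 361 365)
 (.a 1 [360] (.d 365 361 361 362 366)
 (.a 0 [361,365] (.q 332 (.a 1 [] (.d 300 1292 268 1324 428)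
 (.a 1 [268] (.d 428 1324 300 1356 460)
 (.a 1 [300] (.d 301 3342 270 3373 425)
 .e))))
 .e))))
 .e))))
 (.a 0 [429] (.q 425 (.a 1 [] (.d 332 3373 301 3404 456)
 (.a 1 [301] (.d 456 3404 332 3435 487)
 (.a 0 [332,456] (.r 297 2312 264 (.q 361 (.a 1 [] (.r 393 1321 329 (.r 392 392 395 (.d 423 3371 299 3402 454)))
 (.a 1 [454] (.r 393 1321 329 (.r 392 392 395 (.d 299 3340 268 3371 423)))
 (.a 0 [299,329,392,393,395,423] (.q 362 (.a 1 [] (.d 360 359 359 360 364)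
 (.a 1 [359] (.d 364 360 360 361 365)
 (.a 1 [360] (.d 298 1290 266 1322 426)
 .e))))
 .e)))))
 .e))))
 .e))))) (by decide +kernel)

theorem b2_2073 : S (PX [] [424,430,562]) := S.of (.q 395 (.a 1 [] (.d 393 392 392 393 397)
 (.a 1 [392] (.d 397 393 393 394 398)
 (.a 0 [393,397] (.q 429 (.a 1 [] (.d 330 2345 297 2378 462)
 (.a 1 [297] (.d 462 2378 330 2411 495)
 (.a 0 [330,462] (.q 332 (.a 1 [] (.d 301 3342 270 3373 425)
 (.a 1 [270] (.d 425 3373 301 3404 456)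
 (.a 0 [301] (.q 427 (.a 1 [] (.d 331 1323 299 1355 459)
 (.a 1 [299] (.d 459 1355 331 1387 491)
 (.a 1 [331] (.r 425 3404 456 (.r 428 425 426 (.d 364 1324 300 1356 460)))
 .e))))
 (.a 0 [425] (.q 364 (.a 1 [] (.d 300 1292 268 1324 428)
 (.a 1 [268] (.d 428 1324 300 1356 460)
 (.a 0 [300] (.q 362 (.a 1 [] (.d 361 360 360 361 365)
 (.a 1 [360] (.d 365 361 361 362 366)
 (.a 1 [361] (.r 428 1356 460 (.d 461 2377 329 2410 494))
 .e))))
 (.a 0 [428] (.q 427 (.a 1 [] (.d 331 1323 299 1355 459)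
 (.a 1 [299] (.d 459 1355 331 1387 491)
 (.a 0 [331] (.q 362 (.a 1 [] (.d 361 360 360 361 365)
 (.a 1 [360] (.d 365 361 361 362 366)
 (.a 1 [361] (.r 365 362 366 (.d 458 3406 334 3437 489))
 (.a 1 [365] (.r 361 360 360 (.d 460 2376 328 2409 493))
 .e)))))
 (.a 0 [459] (.r 299 1323 331 (.r 300 1292 268 (.r 301 3342 270 (.d 302 298 298 299 303))))
 .e)))))
 .e)))))
 .e)))))
 .e))))
 .e)))) (by decide +kernel)

theorem b2_2074 : S (PX [] [425,430,562]) := S.of (.q 395 (.a 1 [] (.d 393 392 392 393 397)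
 (.a 1 [392] (.d 397 393 393 394 398)
 (.a 0 [393] (.q 427 (.a 1 [] (.d 331 1323 299 1355 459)
 (.a 1 [299] (.d 459 1355 331 1387 491)
 (.a 0 [331,459] (.q 361 (.a 1 [] (.d 328 2343 295 2376 460)
 (.a 1 [295] (.d 460 2376 328 2409 493)
 (.a 0 [328,460] (.q 330 (.a 1 [] (.d 297 2312 264 2345 429)
 (.a 1 [264] (.d 429 2345 297 2378 462)
 (.a 0 [297,429] (.q 362 (.a 1 [] (.d 360 359 359 360 364)
 (.a 1 [359] (.d 364 360 360 361 365)
 (.a 1 [360] (.d 298 1290 266 1322 426)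
 .e))))
 .e))))
 .e))))
 .e))))
 (.a 0 [397] (.q 330 (.a 1 [] (.d 297 2312 264 2345 429)
 (.a 1 [264] (.d 429 2345 297 2378 462)
 (.a 0 [297,429] (.q 299 (.a 1 [] (.d 331 1291 267 1323 427)
 (.a 1 [267] (.r 427 1323 331 (.r 392 392 393 (.d 361 3340 268 3371 423)))
 (.a 1 [331] (.r 392 392 393 (.d 361 3340 268 3371 423))
 .e))))
 .e))))
 .e))))) (by decide +kernel)

theorem b2_2075 : S (PX [] [427,430,562]) := S.of (.q 429 (.a 1 [] (.d 330 2345 297 2378 462)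
 (.a 1 [297] (.d 462 2378 330 2411 495)
 (.a 0 [330,462] (.q 332 (.a 1 [] (.d 301 3342 270 3373 425)
 (.a 1 [270] (.d 425 3373 301 3404 456)
 (.a 0 [301] (.q 364 (.a 1 [] (.d 300 1292 268 1324 428)
 (.a 1 [268] (.d 428 1324 300 1356 460)
 (.a 0 [300,428] (.q 365 (.a 1 [] (.d 362 361 361 362 366)
 (.a 1 [361] (.d 366 362 362 363 367)
 (.a 0 [362,366] (.q 398 (.a 1 [] (.d 299 2314 266 2347 431)
 (.a 1 [266] (.d 431 2347 299 2380 464)
 (.a 1 [299] (.r 397 394 395 (.d 461 1357 333 1389 493))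
 .e))))
 .e))))
 .e))))
 (.a 0 [425] (.r 301 3342 270 (.q 395 (.a 1 [] (.d 393 392 392 393 397)
 (.a 1 [392] (.d 397 393 393 394 398)
 (.a 0 [393,397] (.q 364 (.a 1 [] (.d 300 1292 268 1324 428)
 (.a 1 [268] (.d 428 1324 300 1356 460)
 (.a 0 [300] (.q 362 (.a 1 [] (.d 361 360 360 361 365)
 (.a 1 [360] (.d 365 361 361 362 366)
 (.a 1 [361] (.r 428 1356 460 (.d 461 2377 329 2410 494))
 .e))))
 (.a 0 [428] (.r 300 1292 268 (.q 426 (.a 1 [] (.d 333 3374 302 3405 457)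
 (.a 1 [302] (.d 457 3405 333 3436 488)
 (.a 1 [457] (.r 302 3374 333 (.d 303 299 299 300 304))
 (.a 0 [333] (.q 299 (.a 1 [] (.d 298 297 297 298 302)
 (.a 1 [297] (.d 302 298 298 299 303)
 (.a 0 [298,302] (.q 365 (.a 1 [] (.d 362 361 361 362 366)
 (.a 1 [361] (.d 366 362 362 363 367)
 (.a 1 [362] (.d 266 2281 233 2314 398)
 .e))))
 .e))))
 .e))))))
 .e)))))
 .e)))))
 .e)))))
 .e)))) (by decide +kernel)

theorem b2_2076 : S (PX [] [428,430,562]) := S.of (.q 429 (.a 1 [] (.d 330 2345 297 2378 462)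
 (.a 1 [297] (.d 462 2378 330 2411 495)
 (.a 0 [330,462] (.q 395 (.a 1 [] (.d 393 392 392 393 397)
 (.a 1 [392] (.d 397 393 393 394 398)
 (.a 0 [393] (.q 427 (.a 1 [] (.d 331 1323 299 1355 459)
 (.a 1 [299] (.d 459 1355 331 1387 491)
 (.a 0 [331,459] (.q 460 (.a 1 [] (.d 361 2376 328 2409 493)
 (.a 1 [328] (.d 493 2409 361 2442 526)
 (.a 1 [361] (.r 398 394 397 (.d 491 3439 367 3470 522))
 .e))))
 .e))))
 (.a 0 [397] (.q 425 (.a 1 [] (.d 332 3373 301 3404 456)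
 (.a 1 [301] (.d 456 3404 332 3435 487)
 (.a 0 [332,456] (.q 491 (.a 1 [] (.r 427 1387 459 (.r 392 392 393 (.d 458 2407 359 2440 524)))
 (.a 1 [335] (.r 392 392 393 (.d 458 2407 359 2440 524))
 (.a 1 [359] (.r 427 1387 459 (.r 392 392 393 (.r 458 2440 524 (.d 489 3437 365 3468 520))))
 (.a 1 [366] (.r 392 392 393 (.d 458 2407 359 2440 524))
 (.a 1 [459] (.r 392 392 393 (.d 458 2407 359 2440 524))
 (.a 1 [524] (.r 427 1387 459 (.r 392 392 393 (.r 458 2407 359 (.d 489 3437 365 3468 520))))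
 (.a 0 [392,393,458] (.q 460 (.a 1 [] (.d 398 3439 367 3470 522)
 (.a 1 [367] (.d 522 3470 398 3501 553)
 (.a 1 [398] (.r 427 1387 459 (.d 493 2409 361 2442 526))
 .e))))
 .e))))))))
 .e))))
 .e)))))
 .e)))) (by decide +kernel)

theorem b2_2077 : S (PX [] [430,456,562]) := S.of (.q 395 (.a 1 [] (.d 393 392 392 393 397)
 (.a 1 [392] (.d 397 393 393 394 398)
 (.a 0 [393,397] (.q 331 (.a 1 [] (.d 299 1291 267 1323 427)
 (.a 1 [267] (.d 427 1323 299 1355 459)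
 (.a 0 [299,427] (.q 332 (.a 1 [] (.d 301 3342 270 3373 425)
 (.a 0 [270,301,425] (.q 330 (.a 1 [] (.d 329 328 328 329 333)
 (.a 1 [328] (.d 333 329 329 330 334)
 (.a 1 [329] (.d 297 2312 264 2345 429)
 .e))))
 .e)))
 .e))))
 .e)))) (by decide +kernel)

theorem b2_2078 : S (PX [496] [169,430,463,562]) := S.of (.q 395 (.a 1 [] (.d 393 392 392 393 397)
 (.a 1 [392] (.d 397 393 393 394 398)
 (.a 0 [393,397] (.q 331 (.a 1 [] (.d 299 1291 267 1323 427)
 (.a 1 [267] (.d 427 1323 299 1355 459)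
 (.a 0 [299,427] (.q 332 (.a 1 [] (.d 301 3342 270 3373 425)
 (.a 1 [270] (.d 425 3373 301 3404 456)
 (.a 0 [301,425] (.q 330 (.a 1 [] (.d 329 328 328 329 333)
 (.a 1 [328] (.d 333 329 329 330 334)
 (.a 1 [329] (.d 297 2312 264 2345 429)
 .e))))
 .e))))
 .e))))
 .e)))) (by decide +kernel)

theorem b2_2079 : S (PX [496] [202,430,463,562]) := S.of (.q 395 (.a 1 [] (.d 393 392 392 393 397)
 (.a 1 [392] (.d 397 393 393 394 398)
 (.a 0 [393,397] (.q 331 (.a 1 [] (.d 299 1291 267 1323 427)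
 (.a 1 [267] (.d 427 1323 299 1355 459)
 (.a 0 [299,427] (.q 332 (.a 1 [] (.d 301 3342 270 3373 425)
 (.a 1 [270] (.d 425 3373 301 3404 456)
 (.a 0 [301,425] (.q 330 (.a 1 [] (.d 329 328 328 329 333)
 (.a 1 [328] (.d 333 329 329 330 334)
 (.a 1 [329] (.d 297 2312 264 2345 429)
 .e))))
 .e))))
 .e))))
 .e)))) (by decide +kernel)

theorem b2_2080 : S (PX [496] [235,430,463,562]) := S.of (.q 395 (.a 1 [] (.d 393 392 392 393 397)
 (.a 1 [392] (.d 397 393 393 394 398)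
 (.a 0 [393,397] (.q 331 (.a 1 [] (.d 299 1291 267 1323 427)
 (.a 1 [267] (.d 427 1323 299 1355 459)
 (.a 0 [299,427] (.q 332 (.a 1 [] (.d 301 3342 270 3373 425)
 (.a 1 [270] (.d 425 3373 301 3404 456)
 (.a 0 [301,425] (.q 330 (.a 1 [] (.d 329 328 328 329 333)
 (.a 1 [328] (.d 333 329 329 330 334)
 (.a 1 [329] (.d 297 2312 264 2345 429)
 .e))))
 .e))))
 .e))))
 .e)))) (by decide +kernel)

theorem b2_2081 : S (PX [496] [236,430,463,562]) := S.of (.q 395 (.a 1 [] (.d 393 392 392 393 397)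
 (.a 1 [392] (.d 397 393 393 394 398)
 (.a 0 [393,397] (.q 331 (.a 1 [] (.d 299 1291 267 1323 427)
 (.a 1 [267] (.d 427 1323 299 1355 459)
 (.a 0 [299,427] (.q 332 (.a 1 [] (.d 301 3342 270 3373 425)
 (.a 1 [270] (.d 425 3373 301 3404 456)
 (.a 0 [301,425] (.q 330 (.a 1 [] (.d 329 328 328 329 333)
 (.a 1 [328] (.d 333 329 329 330 334)
 (.a 1 [329] (.d 297 2312 264 2345 429)
 .e))))
 .e))))
 .e))))
 .e)))) (by decide +kernel)

theorem b2_2082 : S (PX [496] [237,430,463,562]) := S.of (.q 395 (.a 1 [] (.d 393 392 392 393 397)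
 (.a 1 [392] (.d 397 393 393 394 398)
 (.a 0 [393,397] (.q 331 (.a 1 [] (.d 299 1291 267 1323 427)
 (.a 1 [267] (.d 427 1323 299 1355 459)
 (.a 0 [299,427] (.q 332 (.a 1 [] (.d 301 3342 270 3373 425)
 (.a 1 [270] (.d 425 3373 301 3404 456)
 (.a 0 [301,425] (.q 330 (.a 1 [] (.d 329 328 328 329 333)
 (.a 1 [328] (.d 333 329 329 330 334)
 (.a 1 [329] (.d 297 2312 264 2345 429)
 .e))))
 .e))))
 .e))))
 .e)))) (by decide +kernel)

theorem b2_2083 : S (PX [496] [266,430,463,562]) := S.of (.q 395 (.a 1 [] (.d 393 392 392 393 397)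
 (.a 1 [392] (.d 397 393 393 394 398)
 (.a 0 [393,397] (.q 331 (.a 1 [] (.d 299 1291 267 1323 427)
 (.a 1 [267] (.d 427 1323 299 1355 459)
 (.a 0 [299,427] (.q 332 (.a 1 [] (.d 301 3342 270 3373 425)
 (.a 1 [270] (.d 425 3373 301 3404 456)
 (.a 0 [301,425] (.q 330 (.a 1 [] (.d 329 328 328 329 333)
 (.a 1 [328] (.d 333 329 329 330 334)
 (.a 1 [329] (.d 297 2312 264 2345 429)
 .e))))
 .e))))
 .e))))
 .e)))) (by decide +kernel)

theorem b2_2084 : S (PX [496] [268,430,463,562]) := S.of (.q 395 (.a 1 [] (.d 393 392 392 393 397)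
 (.a 1 [392] (.d 397 393 393 394 398)
 (.a 0 [393,397] (.q 331 (.a 1 [] (.d 299 1291 267 1323 427)
 (.a 1 [267] (.d 427 1323 299 1355 459)
 (.a 0 [299,427] (.q 332 (.a 1 [] (.d 301 3342 270 3373 425)
 (.a 1 [270] (.d 425 3373 301 3404 456)
 (.a 0 [301,425] (.q 330 (.a 1 [] (.d 329 328 328 329 333)
 (.a 1 [328] (.d 333 329 329 330 334)
 (.a 1 [329] (.d 297 2312 264 2345 429)
 .e))))
 .e))))
 .e))))
 .e)))) (by decide +kernel)

theorem b2_2085 : S (PX [496] [269,430,463,562]) := S.of (.q 395 (.a 1 [] (.d 393 392 392 393 397)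
 (.a 1 [392] (.d 397 393 393 394 398)
 (.a 0 [393,397] (.q 331 (.a 1 [] (.d 299 1291 267 1323 427)
 (.a 1 [267] (.d 427 1323 299 1355 459)
 (.a 0 [299,427] (.q 332 (.a 1 [] (.d 301 3342 270 3373 425)
 (.a 1 [270] (.d 425 3373 301 3404 456)
 (.a 0 [301,425] (.q 333 (.a 1 [] (.d 330 329 329 330 334)
 (.a 1 [329] (.d 334 330 330 331 335)
 (.a 1 [334] (.r 330 329 329 (.d 429 2345 297 2378 462))
 (.a 0 [330] (.q 364 (.a 1 [] (.d 300 1292 268 1324 428)
 (.a 1 [268] (.d 428 1324 300 1356 460)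
 (.a 1 [300] (.d 302 3343 271 3374 426)
 .e))))
 .e)))))
 .e))))
 .e))))
 .e)))) (by decide +kernel)

theorem b2_2086 : S (PX [496] [297,430,463,562]) := S.of (.q 395 (.a 1 [] (.d 393 392 392 393 397)
 (.a 1 [392] (.d 397 393 393 394 398)
 (.a 0 [393] (.q 331 (.a 1 [] (.d 299 1291 267 1323 427)
 (.a 1 [267] (.d 427 1323 299 1355 459)
 (.a 0 [299] (.q 429 (.a 1 [] (.d 462 2378 330 2411 495)
 (.a 0 [330,462,495] (.q 301 (.a 1 [] (.d 332 3342 270 3373 425)
 (.a 1 [270] (.r 397 394 398 (.r 365 1325 333 (.r 427 1355 459 (.d 458 3406 334 3437 489))))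
 .e)))
 .e)))
 (.a 0 [427] (.q 332 (.a 1 [] (.d 301 3342 270 3373 425)
 (.a 1 [270] (.d 425 3373 301 3404 456)
 (.a 0 [301,425] (.q 329 (.a 1 [] (.d 330 328 328 329 333)
 (.a 0 [328,330,333] (.q 428 (.a 1 [] (.d 364 1324 300 1356 460)
 (.a 1 [300] (.d 362 2344 296 2377 461)
 .e)))
 .e)))
 .e))))
 .e)))))
 (.a 0 [397] (.q 331 (.a 1 [] (.d 299 1291 267 1323 427)
 (.a 1 [267] (.d 427 1323 299 1355 459)
 (.a 0 [299,427] (.q 332 (.a 1 [] (.d 301 3342 270 3373 425)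
 (.a 1 [270] (.d 425 3373 301 3404 456)
 (.a 0 [301,425] (.q 300 (.a 1 [] (.d 364 1292 268 1324 428)
 (.a 1 [268] (.r 393 392 392 (.d 362 3341 269 3372 424))
 .e)))
 .e))))
 .e))))
 .e))))) (by decide +kernel)

theorem b2_2087 : S (PX [496] [298,430,463,562]) := S.of (.q 395 (.a 1 [] (.d 393 392 392 393 397)
 (.a 1 [392] (.d 397 393 393 394 398)
 (.a 0 [393,397] (.q 331 (.a 1 [] (.d 299 1291 267 1323 427)
 (.a 1 [267] (.d 427 1323 299 1355 459)
 (.a 0 [299] (.q 332 (.a 1 [] (.d 301 3342 270 3373 425)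
 (.a 1 [270] (.d 425 3373 301 3404 456)
 (.a 0 [301,425] (.q 300 (.a 1 [] (.d 364 1292 268 1324 428)
 (.a 0 [268,364,428] (.q 330 (.a 1 [] (.d 329 328 328 329 333)
 (.a 1 [328] (.d 333 329 329 330 334)
 (.a 1 [329] (.d 297 2312 264 2345 429)
 .e))))
 .e)))
 .e))))
 (.a 0 [427] (.q 332 (.a 1 [] (.d 301 3342 270 3373 425)
 (.a 1 [270] (.d 425 3373 301 3404 456)
 (.a 0 [301,425] (.q 330 (.a 1 [] (.d 329 328 328 329 333)
 (.a 1 [328] (.d 333 329 329 330 334)
 (.a 1 [329] (.d 297 2312 264 2345 429)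
 .e))))
 .e))))
 .e)))))
 .e)))) (by decide +kernel)

theorem b2_2088 : S (PX [496] [299,430,463,562]) := S.of (.q 330 (.a 1 [] (.d 297 2312 264 2345 429)
 (.a 1 [264] (.d 429 2345 297 2378 462)
 (.a 0 [297] (.q 332 (.a 1 [] (.d 301 3342 270 3373 425)
 (.a 1 [270] (.d 425 3373 301 3404 456)
 (.a 0 [301,425] (.q 300 (.a 1 [] (.d 364 1292 268 1324 428)
 (.a 0 [268,364,428] (.q 331 (.a 1 [] (.d 329 328 328 329 333)
 (.a 1 [328] (.d 333 329 329 330 334)
 (.a 0 [329,333] (.q 393 (.a 1 [] (.d 395 392 392 393 397)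
 (.a 1 [392] (.d 362 3341 269 3372 424)
 .e)))
 .e))))
 .e)))
 .e))))
 (.a 0 [429] (.q 425 (.a 1 [] (.d 332 3373 301 3404 456)
 (.a 1 [301] (.d 456 3404 332 3435 487)
 (.a 0 [332,456] (.q 426 (.a 1 [] (.d 362 1322 298 1354 458)
 (.a 0 [298,362,458] (.q 393 (.a 1 [] (.d 395 392 392 393 397)
 (.a 1 [397] (.r 297 2312 264 (.r 361 1321 329 (.r 392 392 395 (.r 423 3402 454 (.d 424 422 422 423 427)))))
 (.a 0 [392,395] (.q 327 (.a 1 [] (.d 360 2342 294 2375 459)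
 (.a 1 [294] (.r 297 2312 264 (.r 329 1321 361 (.d 328 326 326 327 331)))
 .e)))
 .e))))
 .e)))
 .e))))
 .e))))) (by decide +kernel)

theorem b2_2089 : S (PX [496] [300,430,463,562]) := S.of (.q 395 (.a 1 [] (.d 393 392 392 393 397)
 (.a 1 [392] (.d 397 393 393 394 398)
 (.a 0 [393,397] (.q 331 (.a 1 [] (.d 299 1291 267 1323 427)
 (.a 1 [267] (.d 427 1323 299 1355 459)
 (.a 0 [299] (.q 330 (.a 1 [] (.d 297 2312 264 2345 429)
 (.a 1 [264] (.d 429 2345 297 2378 462)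
 (.a 0 [297,429] (.q 298 (.a 1 [] (.d 362 1290 266 1322 426)
 (.a 0 [266,362,426] (.q 332 (.a 1 [] (.d 329 328 328 329 333)
 (.a 1 [328] (.d 333 329 329 330 334)
 (.a 1 [329] (.d 301 3342 270 3373 425)
 (.a 1 [428] (.r 427 1355 459 (.d 329 328 328 329 333))
 (.a 0 [427] (.q 428 (.a 1 [] (.d 425 3373 301 3404 456)
 (.a 1 [301] (.d 329 328 328 329 333)
 .e)))
 .e))))))
 .e)))
 .e))))
 (.a 0 [427] (.q 332 (.a 1 [] (.d 301 3342 270 3373 425)
 (.a 1 [270] (.d 425 3373 301 3404 456)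
 (.a 0 [301,425] (.q 330 (.a 1 [] (.d 329 328 328 329 333)
 (.a 1 [328] (.d 333 329 329 330 334)
 (.a 1 [329] (.d 297 2312 264 2345 429)
 .e))))
 .e))))
 .e)))))
 .e)))) (by decide +kernel)

theorem b2_2090 : S (PX [496] [301,430,463,562]) := S.of (.q 395 (.a 1 [] (.d 393 392 392 393 397)
 (.a 1 [392] (.d 397 393 393 394 398)
 (.a 0 [393] (.q 427 (.a 1 [] (.d 331 1323 299 1355 459)
 (.a 1 [299] (.d 459 1355 331 1387 491)
 (.a 0 [331] (.q 460 (.a 1 [] (.d 361 2376 328 2409 493)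
 (.a 1 [328] (.d 493 2409 361 2442 526)
 (.a 1 [364] (.r 397 394 398 (.d 361 2376 328 2409 493))
 (.a 0 [361,397,493] (.q 364 (.a 1 [] (.d 428 1356 332 1388 492)
 (.a 0 [332,428,492] (.q 365 (.a 1 [] (.d 366 362 362 363 367)
 (.a 1 [362] (.d 458 3406 334 3437 489)
 .e)))
 .e)))
 .e)))))
 (.a 0 [459] (.q 460 (.a 1 [] (.d 361 2376 328 2409 493)
 (.a 1 [328] (.d 493 2409 361 2442 526)
 (.a 0 [361,493] (.q 429 (.a 1 [] (.d 330 2345 297 2378 462)
 (.a 1 [297] (.d 462 2378 330 2411 495)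
 (.a 1 [330] (.r 398 394 397 (.d 491 3439 367 3470 522))
 .e))))
 .e))))
 .e)))))
 (.a 0 [397] (.q 331 (.a 1 [] (.d 299 1291 267 1323 427)
 (.a 1 [267] (.d 427 1323 299 1355 459)
 (.a 0 [299,427] (.q 429 (.a 1 [] (.d 330 2345 297 2378 462)
 (.a 1 [297] (.d 462 2378 330 2411 495)
 (.a 0 [330,462] (.q 425 (.a 1 [] (.d 456 3404 332 3435 487)
 (.a 0 [332,456,487] (.r 393 392 392 (.q 361 (.a 1 [] (.d 329 1321 297 1353 457)
 (.a 1 [297] (.d 457 1353 329 1385 489)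
 (.a 0 [329,457] (.q 362 (.a 1 [] (.d 360 359 359 360 364)
 (.a 1 [359] (.d 364 360 360 361 365)
 (.a 1 [360] (.d 300 3341 269 3372 424)
 .e))))
 .e)))))
 .e)))
 .e))))
 .e))))
 .e))))) (by decide +kernel)

theorem b2_2091 : S (PX [496] [302,430,463,562]) := S.of (.q 395 (.a 1 [] (.d 393 392 392 393 397)
 (.a 1 [392] (.d 397 393 393 394 398)
 (.a 0 [393,397] (.q 331 (.a 1 [] (.d 299 1291 267 1323 427)
 (.a 1 [267] (.d 427 1323 299 1355 459)
 (.a 0 [299] (.q 330 (.a 1 [] (.d 297 2312 264 2345 429)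
 (.a 1 [264] (.d 429 2345 297 2378 462)
 (.a 0 [297,429] (.q 332 (.a 1 [] (.d 329 328 328 329 333)
 (.a 1 [328] (.d 333 329 329 330 334)
 (.a 1 [329] (.d 301 3342 270 3373 425)
 .e))))
 .e))))
 (.a 0 [427] (.q 332 (.a 1 [] (.d 301 3342 270 3373 425)
 (.a 1 [270] (.d 425 3373 301 3404 456)
 (.a 0 [301,425] (.q 330 (.a 1 [] (.d 329 328 328 329 333)
 (.a 1 [328] (.d 333 329 329 330 334)
 (.a 1 [329] (.d 297 2312 264 2345 429)
 .e))))
 .e))))
 .e)))))
 .e)))) (by decide +kernel)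

theorem b2_2092 : S (PX [496] [303,430,463,562]) := S.of (.q 330 (.a 1 [] (.d 297 2312 264 2345 429)
 (.a 1 [264] (.d 429 2345 297 2378 462)
 (.a 0 [297,429] (.q 426 (.a 1 [] (.d 362 1322 298 1354 458)
 (.a 0 [298,362,458] (.q 395 (.a 1 [] (.d 393 392 392 393 397)
 (.a 1 [392] (.d 397 393 393 394 398)
 (.a 0 [393,397] (.q 333 (.a 1 [] (.d 364 3374 302 3405 457)
 (.a 0 [302,364,457] (.q 331 (.a 1 [] (.d 332 329 329 330 334)
 (.a 1 [329] (.d 427 1323 299 1355 459)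
 .e)))
 .e)))
 .e))))
 .e)))
 .e)))) (by decide +kernel)

theorem b2_2093 : S (PX [496] [304,430,463,562]) := S.of (.q 395 (.a 1 [] (.d 393 392 392 393 397)
 (.a 1 [392] (.d 397 393 393 394 398)
 (.a 0 [393,397] (.q 331 (.a 1 [] (.d 299 1291 267 1323 427)
 (.a 1 [267] (.d 427 1323 299 1355 459)
 (.a 0 [299,427] (.q 332 (.a 1 [] (.d 301 3342 270 3373 425)
 (.a 1 [270] (.d 425 3373 301 3404 456)
 (.a 0 [301,425] (.q 330 (.a 1 [] (.d 329 328 328 329 333)
 (.a 1 [328] (.d 333 329 329 330 334)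
 (.a 1 [329] (.d 297 2312 264 2345 429)
 .e))))
 .e))))
 .e))))
 .e)))) (by decide +kernel)

theorem b2_2094 : S (PX [496] [328,430,463,562]) := S.of (.q 395 (.a 1 [] (.d 393 392 392 393 397)
 (.a 1 [392] (.d 397 393 393 394 398)
 (.a 0 [393,397] (.q 331 (.a 1 [] (.d 299 1291 267 1323 427)
 (.a 1 [267] (.d 427 1323 299 1355 459)
 (.a 0 [299,427] (.q 332 (.a 1 [] (.d 301 3342 270 3373 425)
 (.a 1 [270] (.d 425 3373 301 3404 456)
 (.a 0 [301,425] (.q 330 (.a 1 [] (.d 333 329 329 330 334)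
 (.a 1 [329] (.d 429 2345 297 2378 462)
 .e)))
 .e))))
 .e))))
 .e)))) (by decide +kernel)

theorem b2_2095 : S (PX [496] [330,430,463,562]) := S.of (.q 332 (.a 1 [] (.d 301 3342 270 3373 425)
 (.a 1 [270] (.d 425 3373 301 3404 456)
 (.a 0 [301,425] (.q 364 (.a 1 [] (.d 300 1292 268 1324 428)
 (.a 1 [268] (.d 428 1324 300 1356 460)
 (.a 0 [300,428] (.q 365 (.a 1 [] (.d 362 361 361 362 366)
 (.a 1 [361] (.d 366 362 362 363 367)
 (.a 0 [362,366] (.q 427 (.a 1 [] (.d 334 3375 303 3406 458)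
 (.a 1 [303] (.d 458 3406 334 3437 489)
 (.a 0 [334,458] (.q 398 (.a 1 [] (.d 299 2314 266 2347 431)
 (.a 1 [266] (.d 431 2347 299 2380 464)
 (.a 1 [299] (.r 395 394 397 (.d 459 1355 331 1387 491))
 .e))))
 .e))))
 .e))))
 .e))))
 .e)))) (by decide +kernel)

theorem b2_2096 : S (PX [496] [331,430,463,562]) := S.of (.q 397 (.a 1 [] (.d 395 393 393 394 398)
 (.a 0 [393,395,398] (.q 332 (.a 1 [] (.d 301 3342 270 3373 425)
 (.a 1 [270] (.d 425 3373 301 3404 456)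
 (.a 0 [301] (.q 364 (.a 1 [] (.d 300 1292 268 1324 428)
 (.a 1 [268] (.d 428 1324 300 1356 460)
 (.a 0 [300,428] (.q 362 (.a 1 [] (.d 361 360 360 361 365)
 (.a 1 [360] (.d 365 361 361 362 366)
 (.a 0 [361,365] (.q 330 (.a 1 [] (.d 298 1290 266 1322 426)
 (.a 1 [266] (.d 426 1322 298 1354 458)
 (.a 1 [298] (.d 297 2312 264 2345 429)
 .e))))
 .e))))
 .e))))
 (.a 0 [425] (.q 364 (.a 1 [] (.d 300 1292 268 1324 428)
 (.a 1 [268] (.d 428 1324 300 1356 460)
 (.a 0 [300,428] (.r 301 3342 270 (.q 362 (.a 1 [] (.d 361 360 360 361 365)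
 (.a 1 [360] (.d 365 361 361 362 366)
 (.a 1 [361] (.r 365 362 366 (.d 333 1293 269 1325 429))
 (.a 0 [365] (.q 330 (.a 1 [] (.d 298 1290 266 1322 426)
 (.a 1 [266] (.d 426 1322 298 1354 458)
 (.a 1 [298] (.d 297 2312 264 2345 429)
 .e))))
 .e))))))
 .e))))
 .e)))))
 .e))) (by decide +kernel)

theorem b2_2097 : S (PX [496] [332,430,463,562]) := S.of (.q 395 (.a 1 [] (.d 393 392 392 393 397)
 (.a 1 [392] (.d 397 393 393 394 398)
 (.a 0 [393] (.q 330 (.a 1 [] (.d 297 2312 264 2345 429)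
 (.a 1 [264] (.d 429 2345 297 2378 462)
 (.a 0 [297,429] (.q 362 (.a 1 [] (.d 298 1290 266 1322 426)
 (.a 1 [266] (.d 426 1322 298 1354 458)
 (.a 0 [298,426] (.q 459 (.a 1 [] (.d 427 1355 331 1387 491)
 (.a 0 [331,427,491] (.q 428 (.a 1 [] (.d 329 2344 296 2377 461)
 (.a 1 [296] (.d 461 2377 329 2410 494)
 (.a 1 [329] (.r 397 394 398 (.d 490 3438 366 3469 521))
 (.a 0 [397] (.q 364 (.a 1 [] (.d 461 2377 329 2410 494)
 (.a 1 [329] (.d 365 361 361 362 366)
 .e)))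
 .e)))))
 .e)))
 .e))))
 .e))))
 (.a 0 [397] (.q 331 (.a 1 [] (.d 299 1291 267 1323 427)
 (.a 1 [267] (.d 427 1323 299 1355 459)
 (.a 0 [299,427] (.r 393 392 392 (.q 362 (.a 1 [] (.d 300 3341 269 3372 424)
 (.a 1 [269] (.d 424 3372 300 3403 455)
 (.a 0 [300,424] (.q 330 (.a 1 [] (.d 298 1290 266 1322 426)
 (.a 1 [266] (.d 426 1322 298 1354 458)
 (.a 1 [298] (.d 297 2312 264 2345 429)
 .e))))
 .e)))))
 .e))))
 .e))))) (by decide +kernel)

theorem b2_2098 : S (PX [496] [333,430,463,562]) := S.of (.q 395 (.a 1 [] (.d 393 392 392 393 397)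
 (.a 1 [392] (.d 397 393 393 394 398)
 (.a 0 [393,397] (.q 331 (.a 1 [] (.d 299 1291 267 1323 427)
 (.a 1 [267] (.d 427 1323 299 1355 459)
 (.a 0 [299] (.r 427 1355 459 (.q 365 (.a 1 [] (.d 334 3375 303 3406 458)
 (.a 1 [303] (.d 458 3406 334 3437 489)
 (.a 0 [334,458] (.q 460 (.a 1 [] (.d 361 2376 328 2409 493)
 (.a 1 [328] (.d 493 2409 361 2442 526)
 (.a 1 [493] (.r 361 2376 328 (.r 364 361 362 (.d 428 1356 332 1388 492)))
 (.a 0 [361] (.q 332 (.a 1 [] (.d 301 3342 270 3373 425)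
 (.a 1 [270] (.d 425 3373 301 3404 456)
 (.a 1 [301] (.r 364 1356 428 (.d 366 362 362 363 367))
 .e))))
 .e)))))
 .e)))))
 (.a 0 [427] (.q 332 (.a 1 [] (.d 301 3342 270 3373 425)
 (.a 1 [270] (.d 425 3373 301 3404 456)
 (.a 0 [301,425] (.r 299 1291 267 (.q 365 (.a 1 [] (.d 266 2281 233 2314 398)
 (.a 1 [233] (.d 398 2314 266 2347 431)
 (.a 0 [266,398] (.q 364 (.a 1 [] (.d 362 361 361 362 366)
 (.a 1 [361] (.d 366 362 362 363 367)
 (.a 1 [362] (.d 300 1292 268 1324 428)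
 .e))))
 .e)))))
 .e))))
 .e)))))
 .e)))) (by decide +kernel)

theorem b2_2099 : S (PX [496] [334,430,463,562]) := S.of (.q 395 (.a 1 [] (.d 393 392 392 393 397)
 (.a 1 [392] (.d 397 393 393 394 398)
 (.a 0 [393,397] (.q 331 (.a 1 [] (.d 299 1291 267 1323 427)
 (.a 1 [267] (.d 427 1323 299 1355 459)
 (.a 0 [299,427] (.q 332 (.a 1 [] (.d 301 3342 270 3373 425)
 (.a 1 [270] (.d 425 3373 301 3404 456)
 (.a 0 [301,425] (.q 330 (.a 1 [] (.d 329 328 328 329 333)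
 (.a 1 [328] (.d 429 2345 297 2378 462)
 .e)))
 .e))))
 .e))))
 .e)))) (by decide +kernel)

theorem b2_2100 : S (PX [496] [357,430,463,562]) := S.of (.q 395 (.a 1 [] (.d 393 392 392 393 397)
 (.a 1 [392] (.d 397 393 393 394 398)
 (.a 0 [393,397] (.q 331 (.a 1 [] (.d 299 1291 267 1323 427)
 (.a 1 [267] (.d 427 1323 299 1355 459)
 (.a 0 [299,427] (.q 332 (.a 1 [] (.d 301 3342 270 3373 425)
 (.a 1 [270] (.d 425 3373 301 3404 456)
 (.a 0 [301,425] (.q 330 (.a 1 [] (.d 329 328 328 329 333)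
 (.a 1 [328] (.d 333 329 329 330 334)
 (.a 1 [329] (.d 297 2312 264 2345 429)
 .e))))
 .e))))
 .e))))
 .e)))) (by decide +kernel)

theorem b2_2101 : S (PX [496] [358,430,463,562]) := S.of (.q 395 (.a 1 [] (.d 393 392 392 393 397)
 (.a 1 [392] (.d 397 393 393 394 398)
 (.a 0 [393,397] (.q 331 (.a 1 [] (.d 299 1291 267 1323 427)
 (.a 1 [267] (.d 427 1323 299 1355 459)
 (.a 0 [299,427] (.q 332 (.a 1 [] (.d 301 3342 270 3373 425)
 (.a 1 [270] (.d 425 3373 301 3404 456)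
 (.a 0 [301,425] (.q 330 (.a 1 [] (.d 329 328 328 329 333)
 (.a 1 [328] (.d 333 329 329 330 334)
 (.a 1 [329] (.d 297 2312 264 2345 429)
 .e))))
 .e))))
 .e))))
 .e)))) (by decide +kernel)

theorem b2_2102 : S (PX [496] [360,430,463,562]) := S.of (.q 395 (.a 1 [] (.d 393 392 392 393 397)
 (.a 1 [392] (.d 397 393 393 394 398)
 (.a 0 [393,397] (.q 331 (.a 1 [] (.d 299 1291 267 1323 427)
 (.a 1 [267] (.d 427 1323 299 1355 459)
 (.a 0 [299,427] (.q 332 (.a 1 [] (.d 301 3342 270 3373 425)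
 (.a 1 [270] (.d 425 3373 301 3404 456)
 (.a 0 [301,425] (.q 330 (.a 1 [] (.d 329 328 328 329 333)
 (.a 1 [328] (.d 333 329 329 330 334)
 (.a 1 [329] (.d 297 2312 264 2345 429)
 .e))))
 .e))))
 .e))))
 .e)))) (by decide +kernel)

theorem b2_2103 : S (PX [496] [361,430,463,562]) := S.of (.q 332 (.a 1 [] (.d 301 3342 270 3373 425)
 (.a 1 [270] (.d 425 3373 301 3404 456)
 (.a 0 [301,425] (.q 364 (.a 1 [] (.d 300 1292 268 1324 428)
 (.a 1 [268] (.d 428 1324 300 1356 460)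
 (.a 0 [300,428] (.q 429 (.a 1 [] (.d 330 2345 297 2378 462)
 (.a 1 [297] (.d 462 2378 330 2411 495)
 (.a 0 [330,462] (.q 365 (.a 1 [] (.d 366 362 362 363 367)
 (.a 0 [362,366,367] (.q 398 (.a 1 [] (.d 299 2314 266 2347 431)
 (.a 1 [266] (.d 431 2347 299 2380 464)
 (.a 1 [299] (.r 397 394 395 (.d 461 1357 333 1389 493))
 .e))))
 .e)))
 .e))))
 .e))))
 .e)))) (by decide +kernel)

theorem b2_2104 : S (PX [496] [362,430,463,562]) := S.of (.q 395 (.a 1 [] (.d 393 392 392 393 397)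
 (.a 1 [392] (.d 397 393 393 394 398)
 (.a 0 [393,397] (.q 331 (.a 1 [] (.d 299 1291 267 1323 427)
 (.a 1 [267] (.d 427 1323 299 1355 459)
 (.a 0 [299,427] (.q 332 (.a 1 [] (.d 301 3342 270 3373 425)
 (.a 1 [270] (.d 425 3373 301 3404 456)
 (.a 0 [301,425] (.q 330 (.a 1 [] (.d 329 328 328 329 333)
 (.a 1 [328] (.d 333 329 329 330 334)
 (.a 1 [329] (.d 297 2312 264 2345 429)
 .e))))
 .e))))
 .e))))
 .e)))) (by decide +kernel)

theorem b2_2105 : S (PX [496] [364,430,463,562]) := S.of (.q 395 (.a 1 [] (.d 393 392 392 393 397)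
 (.a 1 [331] (.d 397 393 393 394 398)
 (.a 0 [393,397] (.q 331 (.a 1 [] (.d 299 1291 267 1323 427)
 (.a 1 [267] (.d 427 1323 299 1355 459)
 (.a 0 [299,427] (.q 332 (.a 1 [] (.d 301 3342 270 3373 425)
 (.a 1 [270] (.d 425 3373 301 3404 456)
 (.a 0 [301,425] (.q 330 (.a 1 [] (.d 329 328 328 329 333)
 (.a 1 [328] (.d 333 329 329 330 334)
 (.a 1 [329] (.d 297 2312 264 2345 429)
 .e))))
 .e))))
 .e))))
 .e)))) (by decide +kernel)

theorem b2_2106 : S (PX [496] [365,430,463,562]) := S.of (.q 395 (.a 1 [] (.d 393 392 392 393 397)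
 (.a 1 [392] (.d 397 393 393 394 398)
 (.a 0 [393,397] (.q 331 (.a 1 [] (.d 299 1291 267 1323 427)
 (.a 1 [267] (.d 427 1323 299 1355 459)
 (.a 0 [299,427] (.q 332 (.a 1 [] (.d 301 3342 270 3373 425)
 (.a 1 [270] (.d 425 3373 301 3404 456)
 (.a 0 [301,425] (.q 333 (.a 1 [] (.d 330 329 329 330 334)
 (.a 1 [329] (.d 334 330 330 331 335)
 (.a 1 [334] (.r 330 329 329 (.d 429 2345 297 2378 462))
 (.a 0 [330] (.q 364 (.a 1 [] (.d 300 1292 268 1324 428)
 (.a 1 [268] (.d 428 1324 300 1356 460)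
 (.a 1 [300] (.d 302 3343 271 3374 426)
 .e))))
 .e)))))
 .e))))
 .e))))
 .e)))) (by decide +kernel)

theorem b2_2107 : S (PX [496] [366,430,463,562]) := S.of (.q 395 (.a 1 [] (.d 393 392 392 393 397)
 (.a 1 [392] (.d 397 393 393 394 398)
 (.a 0 [393,397] (.q 331 (.a 1 [] (.d 299 1291 267 1323 427)
 (.a 1 [267] (.d 427 1323 299 1355 459)
 (.a 0 [299,427] (.q 332 (.a 1 [] (.d 301 3342 270 3373 425)
 (.a 1 [270] (.d 425 3373 301 3404 456)
 (.a 0 [301,425] (.q 330 (.a 1 [] (.d 329 328 328 329 333)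
 (.a 1 [328] (.d 333 329 329 330 334)
 (.a 1 [329] (.d 297 2312 264 2345 429)
 .e))))
 .e))))
 .e))))
 .e)))) (by decide +kernel)

theorem b2_2108 : S (PX [496] [367,430,463,562]) := S.of (.q 395 (.a 1 [] (.d 393 392 392 393 397)
 (.a 1 [392] (.d 397 393 393 394 398)
 (.a 0 [393,397] (.q 331 (.a 1 [] (.d 299 1291 267 1323 427)
 (.a 1 [267] (.d 427 1323 299 1355 459)
 (.a 0 [299,427] (.q 332 (.a 1 [] (.d 301 3342 270 3373 425)
 (.a 1 [270] (.d 425 3373 301 3404 456)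
 (.a 0 [301,425] (.q 330 (.a 1 [] (.d 329 328 328 329 333)
 (.a 1 [328] (.d 333 329 329 330 334)
 (.a 1 [329] (.d 297 2312 264 2345 429)
 .e))))
 .e))))
 .e))))
 .e)))) (by decide +kernel)

theorem b2_2140 : S (PX [496] [397,430,463,562]) := S.of (.q 332 (.a 1 [] (.d 301 3342 270 3373 425)
 (.a 0 [301] (.q 429 (.a 1 [] (.d 330 2345 297 2378 462)
 (.a 1 [330] (.r 425 3404 456 (.q 427 (.a 1 [] (.r 428 425 426 (.d 364 1324 300 1356 460))
 (.a 1 [428] (.r 495 2411 462 (.q 493 (.a 1 [] (.d 494 492 492 493 497)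
 (.a 1 [492] (.d 460 2409 361 2442 526)
 (.a 0 [331] (.q 364 (.a 1 [] (.d 494 492 492 493 497)
 (.a 1 [492] (.d 460 2409 361 2442 526)
 .e)))
 (.a 0 [364] (.q 331 (.a 1 [] (.d 494 492 492 493 497)
 (.a 1 [492] (.d 395 1323 299 1355 459)
 .e)))
 .e))))))
 (.a 1 [364] (.q 331 (.a 1 [] (.d 395 1323 299 1355 459)
 (.a 0 [299,395,459] (.q 458 (.a 1 [] (.d 365 3406 334 3437 489)
 (.a 1 [334] (.d 489 3437 365 3468 520)
 (.a 1 [365] (.r 426 425 428 (.d 490 1386 362 1418 522))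
 .e))))
 .e)))
 (.a 1 [460] (.q 364 (.a 1 [] (.d 428 1324 300 425 426)
 (.a 1 [426] (.d 300 1292 268 1324 428)
 (.a 0 [300,428] (.q 365 (.a 1 [] (.d 362 361 361 362 366)
 (.a 1 [361] (.d 366 362 362 363 367)
 (.a 1 [362] (.d 334 3375 303 3406 458)
 .e))))
 .e))))
 (.a 1 [331] (.q 364 (.a 1 [] (.d 428 1324 300 425 426)
 (.a 1 [300] (.d 428 425 426 1356 460)
 (.a 1 [426] (.d 300 1292 268 1324 428)
 (.a 0 [428] (.q 365 (.a 1 [] (.d 362 361 361 362 366)
 (.a 1 [361] (.d 366 362 362 363 367)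
 (.a 1 [362] (.d 334 3375 303 3406 458)
 .e))))
 .e)))))
 .e)))))))
 (.a 1 [364] (.q 331 (.a 1 [] (.d 330 2345 297 2378 462)
 (.a 1 [330] (.q 299 (.a 1 [] (.d 267 1259 235 1291 395)
 (.a 1 [235] (.d 395 1291 267 1323 427)
 (.a 0 [267,395] (.q 365 (.a 1 [] (.d 266 2281 233 2314 398)
 (.a 1 [233] (.d 398 2314 266 2347 431)
 (.a 0 [266,398] (.q 427 (.a 1 [] (.d 334 3375 303 3406 458)
 (.a 1 [303] (.d 458 3406 334 3437 489)
 (.a 1 [334] (.r 425 3404 456 (.r 426 425 428 (.r 458 3437 489 (.d 490 1386 362 1418 522))))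
 (.a 0 [458] (.q 493 (.a 1 [] (.d 460 2409 361 2442 526)
 (.a 1 [361] (.r 495 2411 462 (.d 494 492 492 493 497))
 .e)))
 .e)))))
 .e))))
 .e))))
 (.a 1 [462] (.r 330 2345 297 (.d 333 329 329 330 334))
 .e))))
 (.a 1 [462] (.q 364 (.a 1 [] (.d 300 1292 268 1324 428)
 (.a 1 [268] (.d 428 1324 300 1356 460)
 (.a 0 [300,428] (.q 362 (.a 1 [] (.d 361 360 360 361 365)
 (.a 1 [360] (.d 365 361 361 362 366)
 (.a 1 [361] (.r 330 2345 297 (.d 426 1322 298 1354 458))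
 .e))))
 .e))))
 (.a 1 [297] (.d 462 2378 330 2411 495)
 .e))))))
 (.a 1 [364] (.q 331 (.a 1 [] (.d 425 3373 301 3404 456)
 (.a 1 [301] (.q 330 (.a 1 [] (.d 329 328 328 329 333)
 (.a 1 [328] (.d 333 329 329 330 334)
 (.a 1 [329] (.d 297 2312 264 2345 429)
 .e))))
 .e)))
 (.a 1 [425] (.q 364 (.a 1 [] (.d 300 1292 268 1324 428)
 (.a 1 [268] (.d 428 1324 300 1356 460)
 (.a 0 [300,428] (.q 362 (.a 1 [] (.d 361 360 360 361 365)
 (.a 1 [360] (.d 365 361 361 362 366)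
 (.a 0 [361,365] (.q 330 (.a 1 [] (.d 298 1290 266 1322 426)
 (.a 1 [266] (.d 426 1322 298 1354 458)
 (.a 1 [298] (.d 297 2312 264 2345 429)
 .e))))
 .e))))
 .e))))
 .e))))) (by decide +kernel)

theorem b2_2141 : S (PX [496] [399,430,463,562]) := S.of (.q 395 (.a 1 [] (.d 393 392 392 393 397)
 (.a 1 [392] (.d 397 393 393 394 398)
 (.a 0 [393,397] (.q 331 (.a 1 [] (.d 299 1291 267 1323 427)
 (.a 1 [267] (.d 427 1323 299 1355 459)
 (.a 0 [299,427] (.q 332 (.a 1 [] (.d 301 3342 270 3373 425)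
 (.a 1 [270] (.d 425 3373 301 3404 456)
 (.a 0 [301,425] (.q 330 (.a 1 [] (.d 329 328 328 329 333)
 (.a 1 [328] (.d 333 329 329 330 334)
 (.a 1 [329] (.d 297 2312 264 2345 429)
 .e))))
 .e))))
 .e))))
 .e)))) (by decide +kernel)

theorem b2_2142 : S (PX [496] [400,430,463,562]) := S.of (.q 395 (.a 1 [] (.d 393 392 392 393 397)
 (.a 1 [392] (.d 397 393 393 394 398)
 (.a 0 [393,397] (.q 331 (.a 1 [] (.d 299 1291 267 1323 427)
 (.a 1 [267] (.d 427 1323 299 1355 459)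
 (.a 0 [299,427] (.q 332 (.a 1 [] (.d 301 3342 270 3373 425)
 (.a 1 [270] (.d 425 3373 301 3404 456)
 (.a 0 [301,425] (.q 330 (.a 1 [] (.d 329 328 328 329 333)
 (.a 1 [328] (.d 333 329 329 330 334)
 (.a 1 [329] (.d 297 2312 264 2345 429)
 .e))))
 .e))))
 .e))))
 .e)))) (by decide +kernel)

theorem b2_2143 : S (PX [496] [422,430,463,562]) := S.of (.q 395 (.a 1 [] (.d 393 392 392 393 397)
 (.a 1 [392] (.d 397 393 393 394 398)
 (.a 0 [393,397] (.q 331 (.a 1 [] (.d 299 1291 267 1323 427)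
 (.a 1 [267] (.d 427 1323 299 1355 459)
 (.a 0 [299,427] (.q 332 (.a 1 [] (.d 301 3342 270 3373 425)
 (.a 1 [270] (.d 425 3373 301 3404 456)
 (.a 0 [301,425] (.q 330 (.a 1 [] (.d 329 328 328 329 333)
 (.a 1 [328] (.d 333 329 329 330 334)
 (.a 1 [329] (.d 297 2312 264 2345 429)
 .e))))
 .e))))
 .e))))
 .e)))) (by decide +kernel)

theorem b2_2144 : S (PX [496] [424,430,463,562]) := S.of (.q 395 (.a 1 [] (.d 393 392 392 393 397)
 (.a 1 [392] (.d 397 393 393 394 398)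
 (.a 0 [393] (.q 425 (.a 1 [] (.d 332 3373 301 3404 456)
 (.a 1 [301] (.d 456 3404 332 3435 487)
 (.a 0 [332,456] (.q 330 (.a 1 [] (.d 297 2312 264 2345 429)
 (.a 1 [264] (.d 429 2345 297 2378 462)
 (.a 0 [297,429] (.q 362 (.a 1 [] (.d 298 1290 266 1322 426)
 (.a 1 [266] (.d 426 1322 298 1354 458)
 (.a 0 [298,426] (.q 459 (.a 1 [] (.d 427 1355 331 1387 491)
 (.a 0 [331,427,491] (.q 428 (.a 1 [] (.d 329 2344 296 2377 461)
 (.a 1 [296] (.d 461 2377 329 2410 494)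
 (.a 1 [329] (.r 397 394 398 (.d 490 3438 366 3469 521))
 (.a 0 [397] (.q 364 (.a 1 [] (.d 461 2377 329 2410 494)
 (.a 1 [329] (.d 365 361 361 362 366)
 .e)))
 .e)))))
 .e)))
 .e))))
 .e))))
 .e))))
 (.a 0 [397] (.q 331 (.a 1 [] (.d 299 1291 267 1323 427)
 (.a 1 [267] (.d 427 1323 299 1355 459)
 (.a 0 [299,427] (.q 429 (.a 1 [] (.d 330 2345 297 2378 462)
 (.a 1 [297] (.d 462 2378 330 2411 495)
 (.a 0 [330] (.r 495 2411 462 (.q 494 (.a 1 [] (.d 493 492 492 493 497)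
 (.a 1 [492] (.d 497 493 493 494 498)
 (.a 0 [493,497] (.q 425 (.a 1 [] (.d 332 3373 301 3404 456)
 (.a 1 [301] (.d 456 3404 332 3435 487)
 (.a 0 [332] (.r 393 392 392 (.q 361 (.a 1 [] (.d 329 1321 297 1353 457)
 (.a 1 [297] (.d 457 1353 329 1385 489)
 (.a 0 [329] (.q 364 (.a 1 [] (.d 362 360 360 361 365)
 (.a 1 [360] (.r 457 1385 489 (.d 426 3405 333 3436 488))
 .e)))
 (.a 0 [457] (.q 362 (.a 1 [] (.d 360 359 359 360 364)
 (.a 1 [359] (.d 364 360 360 361 365)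
 (.a 1 [360] (.r 329 1321 297 (.d 428 2344 296 2377 461))
 .e))))
 .e))))))
 (.a 0 [456] (.q 428 (.a 1 [] (.d 461 2410 362 2443 527)
 (.a 1 [362] (.r 332 3373 301 (.d 364 1324 300 1356 460))
 .e)))
 .e)))))
 .e)))))
 (.a 0 [462] (.q 332 (.a 1 [] (.d 301 3342 270 3373 425)
 (.a 1 [270] (.d 425 3373 301 3404 456)
 (.a 1 [301] (.r 330 2345 297 (.d 333 329 329 330 334))
 .e))))
 .e)))))
 .e))))
 .e))))) (by decide +kernel)

theorem b2_2145 : S (PX [496] [425,430,463,562]) := S.of (.q 395 (.a 1 [] (.d 393 392 392 393 397)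
 (.a 1 [392] (.d 397 393 393 394 398)
 (.a 0 [393] (.q 331 (.a 1 [] (.d 299 1291 267 1323 427)
 (.a 1 [267] (.d 427 1323 299 1355 459)
 (.a 0 [299,427] (.q 429 (.a 1 [] (.d 330 2345 297 2378 462)
 (.a 1 [297] (.d 462 2378 330 2411 495)
 (.a 0 [330] (.r 398 394 397 (.q 460 (.a 1 [] (.d 367 3408 336 3439 491)
 (.a 1 [336] (.d 491 3439 367 3470 522)
 (.a 0 [367,491] (.q 428 (.a 1 [] (.d 364 1356 332 1388 492)
 (.a 1 [332] (.d 492 1388 364 1420 524)
 (.a 0 [364,492] (.q 494 (.a 1 [] (.d 461 2410 362 2443 527)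
 (.a 1 [362] (.r 495 2411 462 (.d 497 493 493 494 498))
 .e)))
 .e))))
 .e)))))
 (.a 0 [462] (.r 398 394 397 (.q 460 (.a 1 [] (.d 367 3408 336 3439 491)
 (.a 1 [336] (.d 491 3439 367 3470 522)
 (.a 0 [367,491] (.q 428 (.a 1 [] (.d 364 1356 332 1388 492)
 (.a 1 [332] (.d 492 1388 364 1420 524)
 (.a 1 [492] (.r 332 1356 364 (.r 330 2345 297 (.d 333 329 329 330 334)))
 (.a 0 [364] (.q 329 (.a 1 [] (.d 362 2344 296 2377 461)
 (.a 1 [296] (.r 330 2345 297 (.d 332 328 328 329 333))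
 .e)))
 .e)))))
 .e)))))
 .e)))))
 .e))))
 (.a 0 [397] (.q 331 (.a 1 [] (.d 299 1291 267 1323 427)
 (.a 1 [267] (.d 427 1323 299 1355 459)
 (.a 0 [299,427] (.r 393 392 392 (.q 362 (.a 1 [] (.d 300 3341 269 3372 424)
 (.a 1 [269] (.d 424 3372 300 3403 455)
 (.a 0 [300,424] (.q 426 (.a 1 [] (.d 330 1322 298 1354 458)
 (.a 1 [298] (.d 458 1354 330 1386 490)
 (.a 1 [458] (.r 330 1322 298 (.d 429 2345 297 2378 462))
 (.a 0 [330] (.q 361 (.a 1 [] (.d 360 359 359 360 364)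
 (.a 1 [359] (.d 364 360 360 361 365)
 (.a 1 [360] (.r 364 361 365 (.d 457 3405 333 3436 488))
 (.a 1 [364] (.r 360 359 359 (.d 459 2375 327 2408 492))
 .e)))))
 .e)))))
 .e)))))
 .e))))
 .e))))) (by decide +kernel)

theorem b2_2146 : S (PX [496] [426,430,463,562]) := S.of (.q 395 (.a 1 [] (.d 393 392 392 393 397)
 (.a 1 [392] (.d 397 393 393 394 398)
 (.a 0 [393] (.q 429 (.a 1 [] (.d 330 2345 297 2378 462)
 (.a 1 [297] (.d 462 2378 330 2411 495)
 (.a 0 [330,462] (.q 332 (.a 1 [] (.d 301 3342 270 3373 425)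
 (.a 1 [270] (.d 425 3373 301 3404 456)
 (.a 0 [301,425] (.q 299 (.a 1 [] (.d 331 1291 267 1323 427)
 (.a 1 [267] (.r 398 394 397 (.d 365 2314 266 2347 431))
 (.a 0 [331] (.q 364 (.a 1 [] (.d 300 1292 268 1324 428)
 (.a 1 [268] (.d 428 1324 300 1356 460)
 (.a 1 [300] (.r 398 394 397 (.d 365 2314 266 2347 431))
 .e))))
 .e))))
 .e))))
 .e))))
 (.a 0 [397] (.q 331 (.a 1 [] (.d 299 1291 267 1323 427)
 (.a 1 [267] (.d 427 1323 299 1355 459)
 (.a 0 [299,427] (.q 429 (.a 1 [] (.d 330 2345 297 2378 462)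
 (.a 1 [297] (.d 462 2378 330 2411 495)
 (.a 0 [330,462] (.q 425 (.a 1 [] (.d 332 3373 301 3404 456)
 (.a 1 [301] (.d 456 3404 332 3435 487)
 (.a 0 [332,456] (.r 393 392 392 (.q 361 (.a 1 [] (.d 329 1321 297 1353 457)
 (.a 1 [297] (.d 457 1353 329 1385 489)
 (.a 0 [329,457] (.q 362 (.a 1 [] (.d 360 359 359 360 364)
 (.a 1 [359] (.d 364 360 360 361 365)
 (.a 1 [360] (.d 300 3341 269 3372 424)
 .e))))
 .e)))))
 .e))))
 .e))))
 .e))))
 .e))))) (by decide +kernel)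

theorem b2_2147 : S (PX [496] [427,430,463,562]) := S.of (.q 429 (.a 1 [] (.d 330 2345 297 2378 462)
 (.a 1 [297] (.d 462 2378 330 2411 495)
 (.a 0 [330,462] (.q 332 (.a 1 [] (.d 301 3342 270 3373 425)
 (.a 1 [270] (.d 425 3373 301 3404 456)
 (.a 0 [301] (.q 364 (.a 1 [] (.d 300 1292 268 1324 428)
 (.a 1 [268] (.d 428 1324 300 1356 460)
 (.a 0 [300,428] (.q 365 (.a 1 [] (.d 362 361 361 362 366)
 (.a 1 [361] (.d 366 362 362 363 367)
 (.a 0 [362,366] (.q 398 (.a 1 [] (.d 299 2314 266 2347 431)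
 (.a 1 [266] (.d 431 2347 299 2380 464)
 (.a 1 [299] (.r 397 394 395 (.d 461 1357 333 1389 493))
 .e))))
 .e))))
 .e))))
 (.a 0 [425] (.r 301 3342 270 (.q 395 (.a 1 [] (.d 393 392 392 393 397)
 (.a 1 [392] (.d 397 393 393 394 398)
 (.a 0 [393,397] (.q 364 (.a 1 [] (.d 300 1292 268 1324 428)
 (.a 1 [268] (.d 428 1324 300 1356 460)
 (.a 0 [300] (.q 362 (.a 1 [] (.d 361 360 360 361 365)
 (.a 1 [360] (.d 365 361 361 362 366)
 (.a 1 [361] (.r 428 1356 460 (.d 461 2377 329 2410 494))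
 .e))))
 (.a 0 [428] (.r 300 1292 268 (.q 426 (.a 1 [] (.d 333 3374 302 3405 457)
 (.a 1 [302] (.d 457 3405 333 3436 488)
 (.a 1 [457] (.r 302 3374 333 (.d 303 299 299 300 304))
 (.a 0 [333] (.q 299 (.a 1 [] (.d 298 297 297 298 302)
 (.a 1 [297] (.d 302 298 298 299 303)
 (.a 0 [298,302] (.q 365 (.a 1 [] (.d 362 361 361 362 366)
 (.a 1 [361] (.d 366 362 362 363 367)
 (.a 1 [362] (.d 266 2281 233 2314 398)
 .e))))
 .e))))
 .e))))))
 .e)))))
 .e)))))
 .e)))))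
 .e)))) (by decide +kernel)

theorem b2_2148 : S (PX [496] [428,430,463,562]) := S.of (.q 429 (.a 1 [] (.d 330 2345 297 2378 462)
 (.a 1 [297] (.d 462 2378 330 2411 495)
 (.a 0 [330,462] (.q 395 (.a 1 [] (.d 393 392 392 393 397)
 (.a 1 [392] (.d 397 393 393 394 398)
 (.a 0 [393] (.q 332 (.a 1 [] (.d 301 3342 270 3373 425)
 (.a 1 [270] (.d 425 3373 301 3404 456)
 (.a 0 [301,425] (.r 398 394 397 (.q 331 (.a 1 [] (.d 299 1291 267 1323 427)
 (.a 1 [267] (.d 427 1323 299 1355 459)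
 (.a 1 [427] (.r 299 1291 267 (.d 365 2314 266 2347 431))
 (.a 0 [299] (.q 460 (.a 1 [] (.d 367 3408 336 3439 491)
 (.a 1 [336] (.d 491 3439 367 3470 522)
 (.a 1 [367] (.r 427 1355 459 (.d 493 2409 361 2442 526))
 .e))))
 .e))))))
 .e))))
 (.a 0 [397] (.q 331 (.a 1 [] (.d 299 1291 267 1323 427)
 (.a 1 [267] (.d 427 1323 299 1355 459)
 (.a 0 [299,427] (.q 425 (.a 1 [] (.d 332 3373 301 3404 456)
 (.a 1 [301] (.d 456 3404 332 3435 487)
 (.a 0 [332,456] (.r 393 392 392 (.q 361 (.a 1 [] (.d 329 1321 297 1353 457)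
 (.a 1 [297] (.d 457 1353 329 1385 489)
 (.a 0 [329,457] (.q 362 (.a 1 [] (.d 360 359 359 360 364)
 (.a 1 [359] (.d 364 360 360 361 365)
 (.a 1 [360] (.d 300 3341 269 3372 424)
 .e))))
 .e)))))
 .e))))
 .e))))
 .e)))))
 .e)))) (by decide +kernel)

theorem b2_2149 : S (PX [496] [429,430,463,562]) := S.of (.q 332 (.a 1 [] (.d 301 3342 270 3373 425)
 (.a 0 [301] (.q 428 (.a 1 [] (.d 364 1324 300 1356 460)
 (.a 0 [364] (.q 395 (.a 1 [] (.d 393 392 392 393 397)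
 (.a 0 [397] (.q 331 (.a 1 [] (.d 299 1291 267 1323 427)
 (.a 1 [333] (.q 365 (.a 1 [] (.d 299 1291 267 1323 427)
 (.a 1 [427] (.r 299 1291 267 (.d 398 2314 266 2347 431))
 (.a 1 [299] (.r 427 1355 459 (.d 458 3406 334 3437 489))
 .e))))
 (.a 1 [365] (.q 333 (.a 1 [] (.d 299 1291 267 1323 427)
 (.a 1 [461] (.q 493 (.a 1 [] (.d 299 1291 267 1323 427)
 (.a 1 [427] (.d 330 329 329 330 334)
 .e)))
 (.a 1 [427] (.d 330 329 329 330 334)
 (.a 1 [493] (.q 461 (.a 1 [] (.d 299 1291 267 1323 427)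
 (.a 1 [267] (.d 427 1323 299 1355 459)
 (.a 1 [299] (.d 362 2377 329 2410 494)
 .e))))
 .e)))))
 (.a 1 [427] (.q 333 (.a 1 [] (.d 330 329 329 330 334)
 (.a 1 [329] (.d 334 330 330 331 335)
 (.a 1 [334] (.r 329 329 330 (.d 362 2344 296 2377 461))
 (.a 0 [330] (.q 362 (.a 1 [] (.d 329 2344 296 2377 461)
 (.a 1 [296] (.d 461 2377 329 2410 494)
 (.a 1 [329] (.r 393 392 392 (.d 424 3372 300 3403 455))
 .e))))
 .e)))))
 (.a 1 [299] (.q 333 (.a 1 [] (.d 330 329 329 330 334)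
 (.a 1 [329] (.d 334 330 330 331 335)
 (.a 1 [334] (.r 329 329 330 (.d 362 2344 296 2377 461))
 (.a 0 [330] (.q 362 (.a 1 [] (.d 329 2344 296 2377 461)
 (.a 1 [296] (.d 461 2377 329 2410 494)
 (.a 1 [329] (.r 393 392 392 (.d 424 3372 300 3403 455))
 .e))))
 .e)))))
 .e))))))
 (.a 1 [393] (.q 331 (.a 1 [] (.d 299 1291 267 1323 427)
 (.a 1 [267] (.d 427 1323 299 1355 459)
 (.a 0 [299,427] (.q 329 (.a 1 [] (.d 330 328 328 329 333)
 (.a 1 [328] (.d 362 2344 296 2377 461)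
 .e)))
 .e))))
 (.a 1 [331] (.d 397 393 393 394 398)
 .e)))))
 (.a 1 [460] (.r 364 1324 300 (.q 395 (.a 1 [] (.d 393 392 392 393 397)
 (.a 1 [392] (.d 397 393 393 394 398)
 (.a 0 [393,397] (.q 365 (.a 1 [] (.d 362 361 361 362 366)
 (.a 1 [361] (.d 366 362 362 363 367)
 (.a 1 [366] (.r 362 361 361 (.d 461 2377 329 2410 494))
 (.a 0 [362] (.q 331 (.a 1 [] (.d 299 1291 267 1323 427)
 (.a 1 [267] (.d 427 1323 299 1355 459)
 (.a 1 [299] (.r 427 1355 459 (.d 458 3406 334 3437 489))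
 (.a 1 [427] (.r 299 1291 267 (.d 398 2314 266 2347 431))
 .e)))))
 .e)))))
 .e)))))
 (.a 1 [300] (.q 397 (.a 1 [] (.d 395 393 393 394 398)
 (.a 0 [393,395,398] (.q 366 (.a 1 [] (.d 335 3376 304 3407 459)
 (.a 1 [304] (.d 459 3407 335 3438 490)
 (.a 1 [335] (.r 364 1356 460 (.d 365 362 362 363 367))
 .e))))
 .e)))
 .e)))))
 (.a 1 [425] (.q 395 (.a 1 [] (.d 393 392 392 393 397)
 (.a 1 [392] (.d 397 393 393 394 398)
 (.a 0 [393,397] (.q 331 (.a 1 [] (.d 299 1291 267 1323 427)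
 (.a 1 [267] (.d 427 1323 299 1355 459)
 (.a 0 [299,427] (.q 428 (.a 1 [] (.d 364 1324 300 1356 460)
 (.a 0 [300,364,460] (.q 329 (.a 1 [] (.d 330 328 328 329 333)
 (.a 1 [328] (.d 362 2344 296 2377 461)
 .e)))
 .e)))
 .e))))
 .e))))
 .e)))) (by decide +kernel)

theorem b2_2150 : S (PX [496] [430,431,463,562]) := S.of (.q 429 (.a 1 [] (.d 330 2345 297 2378 462)
 (.a 1 [297] (.d 462 2378 330 2411 495)
 (.a 0 [330,462] (.q 332 (.a 1 [] (.d 301 3342 270 3373 425)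
 (.a 1 [270] (.d 425 3373 301 3404 456)
 (.a 0 [301,425] (.q 364 (.a 1 [] (.d 300 1292 268 1324 428)
 (.a 1 [268] (.d 428 1324 300 1356 460)
 (.a 0 [300,428] (.q 395 (.a 1 [] (.d 393 392 392 393 397)
 (.a 1 [392] (.d 397 393 393 394 398)
 (.a 0 [393] (.q 365 (.a 1 [] (.d 362 361 361 362 366)
 (.a 1 [361] (.d 366 362 362 363 367)
 (.a 1 [362] (.r 398 394 397 (.r 367 363 366 (.d 460 3408 336 3439 491)))
 (.a 1 [366] (.r 398 394 397 (.r 299 2314 266 (.d 331 1291 267 1323 427)))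
 .e)))))
 (.a 0 [397] (.q 459 (.a 1 [] (.d 427 1355 331 1387 491)
 (.a 0 [331,427,491] (.q 426 (.a 1 [] (.d 333 3374 302 3405 457)
 (.a 1 [302] (.d 457 3405 333 3436 488)
 (.a 1 [333] (.r 393 392 392 (.d 492 2408 360 2441 525))
 .e))))
 .e)))
 .e)))))
 .e))))
 .e))))
 .e)))) (by decide +kernel)

theorem b2_2151 : S (PX [496] [430,432,463,562]) := S.of (.q 395 (.a 1 [] (.d 393 392 392 393 397)
 (.a 1 [392] (.d 397 393 393 394 398)
 (.a 0 [393,397] (.q 331 (.a 1 [] (.d 299 1291 267 1323 427)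
 (.a 1 [267] (.d 427 1323 299 1355 459)
 (.a 0 [299,427] (.q 332 (.a 1 [] (.d 301 3342 270 3373 425)
 (.a 1 [270] (.d 425 3373 301 3404 456)
 (.a 0 [301,425] (.q 330 (.a 1 [] (.d 329 328 328 329 333)
 (.a 1 [328] (.d 333 329 329 330 334)
 (.a 1 [329] (.d 297 2312 264 2345 429)
 .e))))
 .e))))
 .e))))
 .e)))) (by decide +kernel)

theorem b2_2152 : S (PX [496] [430,433,463,562]) := S.of (.q 395 (.a 1 [] (.d 393 392 392 393 397)
 (.a 1 [392] (.d 397 393 393 394 398)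
 (.a 0 [393,397] (.q 331 (.a 1 [] (.d 299 1291 267 1323 427)
 (.a 1 [267] (.d 427 1323 299 1355 459)
 (.a 0 [299,427] (.q 332 (.a 1 [] (.d 301 3342 270 3373 425)
 (.a 1 [270] (.d 425 3373 301 3404 456)
 (.a 0 [301,425] (.q 330 (.a 1 [] (.d 329 328 328 329 333)
 (.a 1 [328] (.d 333 329 329 330 334)
 (.a 1 [329] (.d 297 2312 264 2345 429)
 .e))))
 .e))))
 .e))))
 .e)))) (by decide +kernel)

theorem b2_2153 : S (PX [496] [430,456,463,562]) := S.of (.q 395 (.a 1 [] (.d 393 392 392 393 397)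
 (.a 1 [392] (.d 397 393 393 394 398)
 (.a 0 [393,397] (.q 331 (.a 1 [] (.d 299 1291 267 1323 427)
 (.a 1 [267] (.d 427 1323 299 1355 459)
 (.a 0 [299,427] (.q 332 (.a 1 [] (.d 301 3342 270 3373 425)
 (.a 0 [270,301,425] (.q 330 (.a 1 [] (.d 329 328 328 329 333)
 (.a 1 [328] (.d 333 329 329 330 334)
 (.a 1 [329] (.d 297 2312 264 2345 429)
 .e))))
 .e)))
 .e))))
 .e)))) (by decide +kernel)

theorem b2_2154 : S (PX [496] [430,457,463,562]) := S.of (.q 332 (.a 1 [] (.d 301 3342 270 3373 425)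
 (.a 1 [270] (.d 425 3373 301 3404 456)
 (.a 0 [301,425] (.q 364 (.a 1 [] (.d 300 1292 268 1324 428)
 (.a 1 [268] (.d 428 1324 300 1356 460)
 (.a 0 [300,428] (.q 365 (.a 1 [] (.d 362 361 361 362 366)
 (.a 1 [361] (.d 366 362 362 363 367)
 (.a 0 [362,366] (.q 427 (.a 1 [] (.d 334 3375 303 3406 458)
 (.a 1 [303] (.d 458 3406 334 3437 489)
 (.a 0 [334,458] (.q 398 (.a 1 [] (.d 299 2314 266 2347 431)
 (.a 1 [266] (.d 431 2347 299 2380 464)
 (.a 1 [299] (.r 395 394 397 (.d 459 1355 331 1387 491))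
 .e))))
 .e))))
 .e))))
 .e))))
 .e)))) (by decide +kernel)

theorem b2_2155 : S (PX [496] [430,460,463,562]) := S.of (.q 395 (.a 1 [] (.d 393 392 392 393 397)
 (.a 1 [392] (.d 397 393 393 394 398)
 (.a 0 [393,397] (.q 331 (.a 1 [] (.d 299 1291 267 1323 427)
 (.a 1 [267] (.d 427 1323 299 1355 459)
 (.a 0 [299,427] (.q 332 (.a 1 [] (.d 301 3342 270 3373 425)
 (.a 1 [270] (.d 425 3373 301 3404 456)
 (.a 0 [301,425] (.q 330 (.a 1 [] (.d 329 328 328 329 333)
 (.a 1 [328] (.d 333 329 329 330 334)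
 (.a 1 [329] (.d 297 2312 264 2345 429)
 .e))))
 .e))))
 .e))))
 .e)))) (by decide +kernel)

theorem b2_2156 : S (PX [496] [430,461,463,562]) := S.of (.q 395 (.a 1 [] (.d 393 392 392 393 397)
 (.a 1 [392] (.d 397 393 393 394 398)
 (.a 0 [393,397] (.q 331 (.a 1 [] (.d 299 1291 267 1323 427)
 (.a 1 [267] (.d 427 1323 299 1355 459)
 (.a 0 [299,427] (.q 332 (.a 1 [] (.d 301 3342 270 3373 425)
 (.a 1 [270] (.d 425 3373 301 3404 456)
 (.a 0 [301,425] (.q 330 (.a 1 [] (.d 329 328 328 329 333)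
 (.a 1 [328] (.d 333 329 329 330 334)
 (.a 1 [329] (.d 297 2312 264 2345 429)
 .e))))
 .e))))
 .e))))
 .e)))) (by decide +kernel)

theorem b2_2157 : S (PX [496] [430,463,487,562]) := S.of (.q 395 (.a 1 [] (.d 393 392 392 393 397)
 (.a 1 [392] (.d 397 393 393 394 398)
 (.a 0 [393,397] (.q 331 (.a 1 [] (.d 299 1291 267 1323 427)
 (.a 1 [267] (.d 427 1323 299 1355 459)
 (.a 0 [299,427] (.q 332 (.a 1 [] (.d 301 3342 270 3373 425)
 (.a 1 [270] (.d 425 3373 301 3404 456)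
 (.a 0 [301,425] (.q 330 (.a 1 [] (.d 329 328 328 329 333)
 (.a 1 [328] (.d 333 329 329 330 334)
 (.a 1 [329] (.d 297 2312 264 2345 429)
 .e))))
 .e))))
 .e))))
 .e)))) (by decide +kernel)

theorem b2_2158 : S (PX [496] [430,463,488,562]) := S.of (.q 395 (.a 1 [] (.d 393 392 392 393 397)
 (.a 1 [392] (.d 397 393 393 394 398)
 (.a 0 [393,397] (.q 331 (.a 1 [] (.d 299 1291 267 1323 427)
 (.a 1 [267] (.d 427 1323 299 1355 459)
 (.a 0 [299,427] (.q 332 (.a 1 [] (.d 301 3342 270 3373 425)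
 (.a 1 [270] (.d 425 3373 301 3404 456)
 (.a 0 [301,425] (.q 330 (.a 1 [] (.d 329 328 328 329 333)
 (.a 1 [328] (.d 333 329 329 330 334)
 (.a 1 [329] (.d 297 2312 264 2345 429)
 .e))))
 .e))))
 .e))))
 .e)))) (by decide +kernel)

theorem b2_2159 : S (PX [496] [430,463,489,562]) := S.of (.q 332 (.a 1 [] (.d 301 3342 270 3373 425)
 (.a 1 [270] (.d 425 3373 301 3404 456)
 (.a 0 [301,425] (.q 364 (.a 1 [] (.d 300 1292 268 1324 428)
 (.a 1 [268] (.d 428 1324 300 1356 460)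
 (.a 0 [300,428] (.q 429 (.a 1 [] (.d 330 2345 297 2378 462)
 (.a 1 [297] (.d 462 2378 330 2411 495)
 (.a 0 [330,462] (.q 365 (.a 1 [] (.d 362 361 361 362 366)
 (.a 1 [361] (.d 366 362 362 363 367)
 (.a 0 [362,366] (.q 398 (.a 1 [] (.d 299 2314 266 2347 431)
 (.a 1 [266] (.d 431 2347 299 2380 464)
 (.a 1 [299] (.r 397 394 395 (.d 461 1357 333 1389 493))
 .e))))
 .e))))
 .e))))
 .e))))
 .e)))) (by decide +kernel)

theorem b2_2160 : S (PX [496] [430,463,492,562]) := S.of (.q 395 (.a 1 [] (.d 393 392 392 393 397)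
 (.a 1 [392] (.d 397 393 393 394 398)
 (.a 0 [393,397] (.q 331 (.a 1 [] (.d 299 1291 267 1323 427)
 (.a 1 [267] (.d 427 1323 299 1355 459)
 (.a 0 [299,427] (.q 332 (.a 1 [] (.d 301 3342 270 3373 425)
 (.a 1 [270] (.d 425 3373 301 3404 456)
 (.a 0 [301,425] (.q 330 (.a 1 [] (.d 329 328 328 329 333)
 (.a 1 [328] (.d 333 329 329 330 334)
 (.a 1 [329] (.d 297 2312 264 2345 429)
 .e))))
 .e))))
 .e))))
 .e)))) (by decide +kernel)

theorem b2_2161 : S (PX [496] [430,463,518,562]) := S.of (.q 395 (.a 1 [] (.d 393 392 392 393 397)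
 (.a 1 [392] (.d 397 393 393 394 398)
 (.a 0 [393,397] (.q 331 (.a 1 [] (.d 299 1291 267 1323 427)
 (.a 1 [267] (.d 427 1323 299 1355 459)
 (.a 0 [299,427] (.q 332 (.a 1 [] (.d 301 3342 270 3373 425)
 (.a 1 [270] (.d 425 3373 301 3404 456)
 (.a 0 [301,425] (.q 330 (.a 1 [] (.d 329 328 328 329 333)
 (.a 1 [328] (.d 333 329 329 330 334)
 (.a 1 [329] (.d 297 2312 264 2345 429)
 .e))))
 .e))))
 .e))))
 .e)))) (by decide +kernel)

theorem b2_2162 : S (PX [496] [430,463,549,562]) := S.of (.q 395 (.a 1 [] (.d 393 392 392 393 397)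
 (.a 1 [392] (.d 397 393 393 394 398)
 (.a 0 [393,397] (.q 331 (.a 1 [] (.d 299 1291 267 1323 427)
 (.a 1 [267] (.d 427 1323 299 1355 459)
 (.a 0 [299,427] (.q 332 (.a 1 [] (.d 301 3342 270 3373 425)
 (.a 1 [270] (.d 425 3373 301 3404 456)
 (.a 0 [301,425] (.q 330 (.a 1 [] (.d 329 328 328 329 333)
 (.a 1 [328] (.d 333 329 329 330 334)
 (.a 1 [329] (.d 297 2312 264 2345 429)
 .e))))
 .e))))
 .e))))
 .e)))) (by decide +kernel)

theorem b2_2184 : S (PX [529] [430,463,496,562]) := S.of (.q 397 (.a 1 [] (.d 395 393 393 394 398)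
 (.a 0 [393,395,398] (.q 332 (.a 1 [] (.d 301 3342 270 3373 425)
 (.a 1 [270] (.d 425 3373 301 3404 456)
 (.a 0 [301] (.q 364 (.a 1 [] (.d 300 1292 268 1324 428)
 (.a 1 [268] (.d 428 1324 300 1356 460)
 (.a 0 [300,428] (.q 362 (.a 1 [] (.d 361 360 360 361 365)
 (.a 1 [360] (.d 365 361 361 362 366)
 (.a 0 [361,365] (.q 330 (.a 1 [] (.d 298 1290 266 1322 426)
 (.a 1 [266] (.d 426 1322 298 1354 458)
 (.a 1 [298] (.d 297 2312 264 2345 429)
 .e))))
 .e))))
 .e))))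
 (.a 0 [425] (.q 364 (.a 1 [] (.d 300 1292 268 1324 428)
 (.a 1 [268] (.d 428 1324 300 1356 460)
 (.a 0 [300,428] (.q 429 (.a 1 [] (.d 330 2345 297 2378 462)
 (.a 1 [297] (.d 462 2378 330 2411 495)
 (.a 1 [330] (.r 301 3342 270 (.r 365 1325 333 (.d 362 361 361 362 366)))
 .e))))
 .e))))
 .e)))))
 .e))) (by decide +kernel)

theorem b2_2187 : S (PX [] [430,488,562]) := S.of (.q 395 (.a 1 [] (.d 393 392 392 393 397)
 (.a 1 [392] (.d 397 393 393 394 398)
 (.a 0 [393,397] (.q 331 (.a 1 [] (.d 299 1291 267 1323 427)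
 (.a 1 [267] (.d 427 1323 299 1355 459)
 (.a 0 [299,427] (.q 332 (.a 1 [] (.d 301 3342 270 3373 425)
 (.a 1 [270] (.d 425 3373 301 3404 456)
 (.a 0 [301,425] (.q 330 (.a 1 [] (.d 329 328 328 329 333)
 (.a 1 [328] (.d 333 329 329 330 334)
 (.a 1 [329] (.d 297 2312 264 2345 429)
 .e))))
 .e))))
 .e))))
 .e)))) (by decide +kernel)

theorem b2_2188 : S (PX [463] [297,430,496,562]) := S.of (.q 395 (.a 1 [] (.d 393 392 392 393 397)
 (.a 1 [392] (.d 397 393 393 394 398)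
 (.a 0 [393,397] (.q 462 (.a 1 [] (.d 429 2378 330 2411 495)
 (.a 0 [330,429,495] (.q 427 (.a 1 [] (.d 331 1323 299 1355 459)
 (.a 1 [299] (.d 459 1355 331 1387 491)
 (.a 1 [331] (.r 459 1387 491 (.r 460 459 461 (.d 493 2409 361 2442 526)))
 (.a 0 [459] (.q 361 (.a 1 [] (.d 328 2343 295 2376 460)
 (.a 1 [295] (.d 460 2376 328 2409 493)
 (.a 0 [328,460] (.q 332 (.a 1 [] (.d 301 3342 270 3373 425)
 (.a 1 [270] (.d 425 3373 301 3404 456)
 (.a 0 [301,425] (.q 365 (.a 1 [] (.d 334 3375 303 3406 458)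
 (.a 1 [303] (.d 458 3406 334 3437 489)
 (.a 1 [334] (.r 364 361 362 (.d 300 1292 268 1324 428))
 .e))))
 .e))))
 .e))))
 .e)))))
 .e)))
 .e)))) (by decide +kernel)

theorem b2_2189 : S (PX [463] [298,430,496,562]) := S.of (.q 332 (.a 1 [] (.d 301 3342 270 3373 425)
 (.a 1 [270] (.d 425 3373 301 3404 456)
 (.a 0 [301,425] (.q 462 (.a 1 [] (.d 429 2378 330 2411 495)
 (.a 0 [330,429,495] (.q 460 (.a 1 [] (.d 461 459 459 460 464)
 (.a 0 [459,461,464] (.q 493 (.a 1 [] (.d 427 2409 361 2442 526)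
 (.a 1 [361] (.r 428 1356 364 (.r 524 1420 492 (.d 555 3503 431 3534 586)))
 .e)))
 .e)))
 .e)))
 .e)))) (by decide +kernel)

theorem b2_2190 : S (PX [463] [332,430,496,562]) := S.of (.q 395 (.a 1 [] (.d 393 392 392 393 397)
 (.a 1 [392] (.d 397 393 393 394 398)
 (.a 0 [393,397] (.q 330 (.a 1 [] (.d 297 2312 264 2345 429)
 (.a 1 [264] (.d 429 2345 297 2378 462)
 (.a 0 [297,429] (.q 427 (.a 1 [] (.d 331 1323 299 1355 459)
 (.a 1 [299] (.d 459 1355 331 1387 491)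
 (.a 0 [331] (.q 362 (.a 1 [] (.d 298 1290 266 1322 426)
 (.a 1 [266] (.d 426 1322 298 1354 458)
 (.a 0 [298,426] (.q 364 (.a 1 [] (.d 361 360 360 361 365)
 (.a 1 [360] (.d 365 361 361 362 366)
 (.a 1 [361] (.r 365 362 366 (.d 458 3406 334 3437 489))
 (.a 1 [365] (.r 361 360 360 (.d 460 2376 328 2409 493))
 .e)))))
 .e))))
 (.a 0 [459] (.q 361 (.a 1 [] (.d 328 2343 295 2376 460)
 (.a 1 [295] (.d 460 2376 328 2409 493)
 (.a 1 [328] (.r 299 1323 331 (.d 392 3340 268 3371 423))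
 .e))))
 .e)))))
 .e))))
 .e)))) (by decide +kernel)

theorem b2_2191 : S (PX [463] [361,430,496,562]) := S.of (.q 332 (.a 1 [] (.d 301 3342 270 3373 425)
 (.a 1 [270] (.d 425 3373 301 3404 456)
 (.a 0 [301,425] (.q 364 (.a 1 [] (.d 300 1292 268 1324 428)
 (.a 1 [268] (.d 428 1324 300 1356 460)
 (.a 0 [300,428] (.q 429 (.a 1 [] (.d 330 2345 297 2378 462)
 (.a 1 [297] (.d 462 2378 330 2411 495)
 (.a 0 [330,462] (.q 365 (.a 1 [] (.d 366 362 362 363 367)
 (.a 0 [362,366,367] (.q 398 (.a 1 [] (.d 299 2314 266 2347 431)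
 (.a 1 [266] (.d 431 2347 299 2380 464)
 (.a 1 [299] (.r 397 394 395 (.d 461 1357 333 1389 493))
 .e))))
 .e)))
 .e))))
 .e))))
 .e)))) (by decide +kernel)

theorem b2_2192 : S (PX [463] [364,430,496,562]) := S.of (.q 395 (.a 1 [] (.d 393 392 392 393 397)
 (.a 1 [392] (.d 397 393 393 394 398)
 (.a 0 [393,397] (.q 331 (.a 1 [] (.d 299 1291 267 1323 427)
 (.a 1 [267] (.d 427 1323 299 1355 459)
 (.a 0 [299,427] (.q 332 (.a 1 [] (.d 301 3342 270 3373 425)
 (.a 1 [270] (.d 425 3373 301 3404 456)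
 (.a 0 [301,425] (.q 330 (.a 1 [] (.d 329 328 328 329 333)
 (.a 1 [328] (.d 333 329 329 330 334)
 (.a 1 [329] (.d 297 2312 264 2345 429)
 .e))))
 .e))))
 .e))))
 .e)))) (by decide +kernel)

theorem b2_2193 : S (PX [463] [365,430,496,562]) := S.of (.q 395 (.a 1 [] (.d 393 392 392 393 397)
 (.a 1 [392] (.d 397 393 393 394 398)
 (.a 0 [393,397] (.q 331 (.a 1 [] (.d 299 1291 267 1323 427)
 (.a 1 [267] (.d 427 1323 299 1355 459)
 (.a 0 [299,427] (.q 332 (.a 1 [] (.d 301 3342 270 3373 425)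
 (.a 1 [270] (.d 425 3373 301 3404 456)
 (.a 0 [301,425] (.q 333 (.a 1 [] (.d 330 329 329 330 334)
 (.a 1 [329] (.d 334 330 330 331 335)
 (.a 1 [334] (.r 330 329 329 (.d 429 2345 297 2378 462))
 (.a 0 [330] (.q 364 (.a 1 [] (.d 300 1292 268 1324 428)
 (.a 1 [268] (.d 428 1324 300 1356 460)
 (.a 1 [300] (.d 302 3343 271 3374 426)
 .e))))
 .e)))))
 .e))))
 .e))))
 .e)))) (by decide +kernel)

theorem b2_2194 : S (PX [463] [397,430,496,562]) := S.of (.q 429 (.a 1 [] (.d 330 2345 297 2378 462)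
 (.a 1 [297] (.d 462 2378 330 2411 495)
 (.a 0 [330] (.q 332 (.a 1 [] (.d 301 3342 270 3373 425)
 (.a 1 [270] (.d 425 3373 301 3404 456)
 (.a 0 [301,425] (.q 460 (.a 1 [] (.r 462 2411 495 (.d 461 459 459 460 464))
 (.a 0 [459,461,462,464,495] (.q 361 (.a 1 [] (.d 427 2376 328 2409 493)
 (.a 1 [328] (.r 364 1356 428 (.d 362 360 360 361 365))
 .e)))
 .e)))
 .e))))
 (.a 0 [462] (.q 332 (.a 1 [] (.d 301 3342 270 3373 425)
 (.a 1 [270] (.d 425 3373 301 3404 456)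
 (.a 0 [301,425] (.q 364 (.a 1 [] (.d 300 1292 268 1324 428)
 (.a 1 [268] (.d 428 1324 300 1356 460)
 (.a 0 [300,428] (.q 362 (.a 1 [] (.d 361 360 360 361 365)
 (.a 1 [360] (.d 365 361 361 362 366)
 (.a 1 [361] (.r 330 2345 297 (.d 426 1322 298 1354 458))
 .e))))
 .e))))
 .e))))
 .e))))) (by decide +kernel)

theorem b2_2195 : S (PX [463] [424,430,496,562]) := S.of (.q 395 (.a 1 [] (.d 393 392 392 393 397)
 (.a 1 [392] (.d 397 393 393 394 398)
 (.a 0 [393,397] (.q 462 (.a 1 [] (.d 429 2378 330 2411 495)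
 (.a 0 [330,429,495] (.q 427 (.a 1 [] (.d 331 1323 299 1355 459)
 (.a 1 [299] (.d 459 1355 331 1387 491)
 (.a 1 [331] (.r 459 1387 491 (.r 460 459 461 (.d 493 2409 361 2442 526)))
 (.a 0 [459] (.q 365 (.a 1 [] (.d 334 3375 303 3406 458)
 (.a 1 [303] (.d 458 3406 334 3437 489)
 (.a 0 [334,458] (.q 332 (.a 1 [] (.d 301 3342 270 3373 425)
 (.a 1 [270] (.d 425 3373 301 3404 456)
 (.a 1 [301] (.r 299 1323 331 (.d 398 2314 266 2347 431))
 .e))))
 .e))))
 .e)))))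
 .e)))
 .e)))) (by decide +kernel)

theorem b2_2196 : S (PX [463] [425,430,496,562]) := S.of (.q 395 (.a 1 [] (.d 393 392 392 393 397)
 (.a 1 [392] (.d 397 393 393 394 398)
 (.a 0 [393,397] (.q 462 (.a 1 [] (.d 429 2378 330 2411 495)
 (.a 0 [330,429,495] (.q 427 (.a 1 [] (.d 331 1323 299 1355 459)
 (.a 1 [299] (.d 459 1355 331 1387 491)
 (.a 1 [331] (.r 459 1387 491 (.r 460 459 461 (.d 493 2409 361 2442 526)))
 (.a 0 [459] (.q 365 (.a 1 [] (.d 334 3375 303 3406 458)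
 (.a 1 [303] (.d 458 3406 334 3437 489)
 (.a 0 [334,458] (.q 364 (.a 1 [] (.d 362 361 361 362 366)
 (.a 1 [361] (.d 366 362 362 363 367)
 (.a 1 [366] (.r 361 361 362 (.d 460 2376 328 2409 493))
 (.a 0 [362] (.q 460 (.a 1 [] (.d 428 1356 332 1388 492)
 (.a 1 [332] (.d 493 2409 361 2442 526)
 .e)))
 .e)))))
 .e))))
 .e)))))
 .e)))
 .e)))) (by decide +kernel)

theorem b2_2197 : S (PX [463] [427,430,496,562]) := S.of (.q 429 (.a 1 [] (.d 330 2345 297 2378 462)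
 (.a 1 [297] (.d 462 2378 330 2411 495)
 (.a 0 [330,462] (.q 332 (.a 1 [] (.d 301 3342 270 3373 425)
 (.a 1 [270] (.d 425 3373 301 3404 456)
 (.a 0 [301] (.q 364 (.a 1 [] (.d 300 1292 268 1324 428)
 (.a 1 [268] (.d 428 1324 300 1356 460)
 (.a 0 [300,428] (.q 365 (.a 1 [] (.d 362 361 361 362 366)
 (.a 1 [361] (.d 366 362 362 363 367)
 (.a 0 [362,366] (.q 398 (.a 1 [] (.d 299 2314 266 2347 431)
 (.a 1 [266] (.d 431 2347 299 2380 464)
 (.a 1 [299] (.r 397 394 395 (.d 461 1357 333 1389 493))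
 .e))))
 .e))))
 .e))))
 (.a 0 [425] (.r 301 3342 270 (.q 395 (.a 1 [] (.d 393 392 392 393 397)
 (.a 1 [392] (.d 397 393 393 394 398)
 (.a 0 [393,397] (.q 364 (.a 1 [] (.d 300 1292 268 1324 428)
 (.a 1 [268] (.d 428 1324 300 1356 460)
 (.a 0 [300] (.q 362 (.a 1 [] (.d 361 360 360 361 365)
 (.a 1 [360] (.d 365 361 361 362 366)
 (.a 1 [361] (.r 428 1356 460 (.d 461 2377 329 2410 494))
 .e))))
 (.a 0 [428] (.r 300 1292 268 (.q 426 (.a 1 [] (.d 333 3374 302 3405 457)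
 (.a 1 [302] (.d 457 3405 333 3436 488)
 (.a 1 [457] (.r 302 3374 333 (.d 303 299 299 300 304))
 (.a 0 [333] (.q 299 (.a 1 [] (.d 298 297 297 298 302)
 (.a 1 [297] (.d 302 298 298 299 303)
 (.a 0 [298,302] (.q 365 (.a 1 [] (.d 362 361 361 362 366)
 (.a 1 [361] (.d 366 362 362 363 367)
 (.a 1 [362] (.d 266 2281 233 2314 398)
 .e))))
 .e))))
 .e))))))
 .e)))))
 .e)))))
 .e)))))
 .e)))) (by decide +kernel)

theorem b2_2198 : S (PX [463] [428,430,496,562]) := S.of (.q 429 (.a 1 [] (.d 330 2345 297 2378 462)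
 (.a 1 [297] (.d 462 2378 330 2411 495)
 (.a 0 [330,462] (.q 395 (.a 1 [] (.d 393 392 392 393 397)
 (.a 1 [392] (.d 397 393 393 394 398)
 (.a 0 [393] (.q 427 (.a 1 [] (.d 331 1323 299 1355 459)
 (.a 1 [299] (.d 459 1355 331 1387 491)
 (.a 0 [331,459] (.q 460 (.a 1 [] (.d 361 2376 328 2409 493)
 (.a 1 [328] (.d 493 2409 361 2442 526)
 (.a 1 [361] (.r 398 394 397 (.d 491 3439 367 3470 522))
 .e))))
 .e))))
 (.a 0 [397] (.q 425 (.a 1 [] (.d 332 3373 301 3404 456)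
 (.a 1 [301] (.d 456 3404 332 3435 487)
 (.a 0 [332,456] (.q 491 (.a 1 [] (.r 427 1387 459 (.r 392 392 393 (.d 458 2407 359 2440 524)))
 (.a 1 [335] (.r 392 392 393 (.d 458 2407 359 2440 524))
 (.a 1 [359] (.r 427 1387 459 (.r 392 392 393 (.r 458 2440 524 (.d 489 3437 365 3468 520))))
 (.a 1 [366] (.r 392 392 393 (.d 458 2407 359 2440 524))
 (.a 1 [459] (.r 392 392 393 (.d 458 2407 359 2440 524))
 (.a 1 [524] (.r 427 1387 459 (.r 392 392 393 (.r 458 2407 359 (.d 489 3437 365 3468 520))))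
 (.a 0 [392,393,458] (.q 460 (.a 1 [] (.d 398 3439 367 3470 522)
 (.a 1 [367] (.d 522 3470 398 3501 553)
 (.a 1 [398] (.r 427 1387 459 (.d 493 2409 361 2442 526))
 .e))))
 .e))))))))
 .e))))
 .e)))))
 .e)))) (by decide +kernel)

theorem b2_2199 : S (PX [463] [430,456,496,562]) := S.of (.q 395 (.a 1 [] (.d 393 392 392 393 397)
 (.a 1 [392] (.d 397 393 393 394 398)
 (.a 0 [393,397] (.q 331 (.a 1 [] (.d 299 1291 267 1323 427)
 (.a 1 [267] (.d 427 1323 299 1355 459)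
 (.a 0 [299,427] (.q 332 (.a 1 [] (.d 301 3342 270 3373 425)
 (.a 0 [270,301,425] (.q 330 (.a 1 [] (.d 329 328 328 329 333)
 (.a 1 [328] (.d 333 329 329 330 334)
 (.a 1 [329] (.d 297 2312 264 2345 429)
 .e))))
 .e)))
 .e))))
 .e)))) (by decide +kernel)

theorem b2_2200 : S (PX [463] [430,488,496,562]) := S.of (.q 395 (.a 1 [] (.d 393 392 392 393 397)
 (.a 1 [392] (.d 397 393 393 394 398)
 (.a 0 [393,397] (.q 331 (.a 1 [] (.d 299 1291 267 1323 427)
 (.a 1 [267] (.d 427 1323 299 1355 459)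
 (.a 0 [299,427] (.q 332 (.a 1 [] (.d 301 3342 270 3373 425)
 (.a 1 [270] (.d 425 3373 301 3404 456)
 (.a 0 [301,425] (.q 330 (.a 1 [] (.d 329 328 328 329 333)
 (.a 1 [328] (.d 333 329 329 330 334)
 (.a 1 [329] (.d 297 2312 264 2345 429)
 .e))))
 .e))))
 .e))))
 .e)))) (by decide +kernel)

theorem b2_2251 : S (PX [] [425,463,562]) := S.of (.q 395 (.a 1 [] (.d 393 392 392 393 397)
 (.a 1 [392] (.d 397 393 393 394 398)
 (.a 0 [393,397] (.q 331 (.a 1 [] (.d 299 1291 267 1323 427)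
 (.a 1 [267] (.d 427 1323 299 1355 459)
 (.a 0 [299,427] (.q 330 (.a 1 [] (.d 297 2312 264 2345 429)
 (.a 1 [264] (.d 429 2345 297 2378 462)
 (.a 0 [297] (.q 329 (.a 1 [] (.d 328 327 327 328 332)
 (.a 1 [327] (.d 332 328 328 329 333)
 (.a 0 [328,332] (.q 362 (.a 1 [] (.d 298 1290 266 1322 426)
 (.a 1 [266] (.d 426 1322 298 1354 458)
 (.a 1 [298] (.d 296 2311 263 2344 428)
 .e))))
 .e))))
 (.a 0 [429] (.q 426 (.a 1 [] (.d 362 1322 298 1354 458)
 (.a 0 [298,362,458] (.q 333 (.a 1 [] (.d 332 329 329 330 334)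
 (.a 1 [329] (.d 364 3374 302 3405 457)
 .e)))
 .e)))
 .e)))))
 .e))))
 .e)))) (by decide +kernel)

theorem b2_2252 : S (PX [529] [169,463,496,562]) := S.of (.q 330 (.a 1 [] (.d 297 2312 264 2345 429)
 (.a 1 [264] (.d 429 2345 297 2378 462)
 (.a 0 [297,429] (.q 362 (.a 1 [] (.d 298 1290 266 1322 426)
 (.a 1 [266] (.d 426 1322 298 1354 458)
 (.a 0 [298,426] (.q 364 (.a 1 [] (.d 361 360 360 361 365)
 (.a 1 [360] (.d 365 361 361 362 366)
 (.a 0 [361,365] (.q 332 (.a 1 [] (.d 300 1292 268 1324 428)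
 (.a 1 [268] (.d 428 1324 300 1356 460)
 (.a 1 [300] (.d 301 3342 270 3373 425)
 .e))))
 .e))))
 .e))))
 .e)))) (by decide +kernel)

theorem b2_2253 : S (PX [529] [202,463,496,562]) := S.of (.q 330 (.a 1 [] (.d 297 2312 264 2345 429)
 (.a 1 [264] (.d 429 2345 297 2378 462)
 (.a 0 [297,429] (.q 362 (.a 1 [] (.d 298 1290 266 1322 426)
 (.a 1 [266] (.d 426 1322 298 1354 458)
 (.a 0 [298,426] (.q 364 (.a 1 [] (.d 361 360 360 361 365)
 (.a 1 [360] (.d 365 361 361 362 366)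
 (.a 0 [361,365] (.q 332 (.a 1 [] (.d 300 1292 268 1324 428)
 (.a 1 [268] (.d 428 1324 300 1356 460)
 (.a 1 [300] (.d 301 3342 270 3373 425)
 .e))))
 .e))))
 .e))))
 .e)))) (by decide +kernel)

theorem b2_2254 : S (PX [529] [235,463,496,562]) := S.of (.q 330 (.a 1 [] (.d 297 2312 264 2345 429)
 (.a 1 [264] (.d 429 2345 297 2378 462)
 (.a 0 [297,429] (.q 362 (.a 1 [] (.d 298 1290 266 1322 426)
 (.a 1 [266] (.d 426 1322 298 1354 458)
 (.a 0 [298,426] (.q 364 (.a 1 [] (.d 361 360 360 361 365)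
 (.a 1 [360] (.d 365 361 361 362 366)
 (.a 0 [361,365] (.q 332 (.a 1 [] (.d 300 1292 268 1324 428)
 (.a 1 [268] (.d 428 1324 300 1356 460)
 (.a 1 [300] (.d 301 3342 270 3373 425)
 .e))))
 .e))))
 .e))))
 .e)))) (by decide +kernel)

theorem b2_2255 : S (PX [529] [236,463,496,562]) := S.of (.q 332 (.a 1 [] (.d 301 3342 270 3373 425)
 (.a 1 [270] (.d 425 3373 301 3404 456)
 (.a 0 [301,425] (.q 364 (.a 1 [] (.d 300 1292 268 1324 428)
 (.a 1 [268] (.d 428 1324 300 1356 460)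
 (.a 0 [300,428] (.q 365 (.a 1 [] (.d 362 361 361 362 366)
 (.a 1 [361] (.d 366 362 362 363 367)
 (.a 0 [362,366] (.q 427 (.a 1 [] (.d 334 3375 303 3406 458)
 (.a 1 [303] (.d 458 3406 334 3437 489)
 (.a 0 [334,458] (.q 395 (.a 1 [] (.d 393 392 392 393 397)
 (.a 1 [392] (.d 397 393 393 394 398)
 (.a 1 [393] (.d 331 1323 299 1355 459)
 .e))))
 .e))))
 .e))))
 .e))))
 .e)))) (by decide +kernel)

theorem b2_2256 : S (PX [529] [237,463,496,562]) := S.of (.q 330 (.a 1 [] (.d 297 2312 264 2345 429)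
 (.a 1 [264] (.d 429 2345 297 2378 462)
 (.a 0 [297,429] (.q 362 (.a 1 [] (.d 298 1290 266 1322 426)
 (.a 1 [266] (.d 426 1322 298 1354 458)
 (.a 0 [298,426] (.q 364 (.a 1 [] (.d 361 360 360 361 365)
 (.a 1 [360] (.d 365 361 361 362 366)
 (.a 0 [361,365] (.q 332 (.a 1 [] (.d 300 1292 268 1324 428)
 (.a 1 [268] (.d 428 1324 300 1356 460)
 (.a 1 [300] (.d 301 3342 270 3373 425)
 .e))))
 .e))))
 .e))))
 .e)))) (by decide +kernel)

theorem b2_2257 : S (PX [529] [266,463,496,562]) := S.of (.q 332 (.a 1 [] (.d 301 3342 270 3373 425)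
 (.a 1 [270] (.d 425 3373 301 3404 456)
 (.a 0 [301,425] (.q 364 (.a 1 [] (.d 300 1292 268 1324 428)
 (.a 1 [268] (.d 428 1324 300 1356 460)
 (.a 0 [300,428] (.q 365 (.a 1 [] (.d 362 361 361 362 366)
 (.a 1 [361] (.d 366 362 362 363 367)
 (.a 0 [362,366] (.q 427 (.a 1 [] (.d 334 3375 303 3406 458)
 (.a 1 [303] (.d 458 3406 334 3437 489)
 (.a 0 [334,458] (.q 395 (.a 1 [] (.d 393 392 392 393 397)
 (.a 1 [392] (.d 397 393 393 394 398)
 (.a 1 [393] (.d 331 1323 299 1355 459)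
 .e))))
 .e))))
 .e))))
 .e))))
 .e)))) (by decide +kernel)

theorem b2_2258 : S (PX [529] [268,463,496,562]) := S.of (.q 330 (.a 1 [] (.d 297 2312 264 2345 429)
 (.a 1 [264] (.d 429 2345 297 2378 462)
 (.a 0 [297,429] (.q 362 (.a 1 [] (.d 298 1290 266 1322 426)
 (.a 1 [266] (.d 426 1322 298 1354 458)
 (.a 0 [298,426] (.q 364 (.a 1 [] (.d 361 360 360 361 365)
 (.a 1 [360] (.d 365 361 361 362 366)
 (.a 0 [361,365] (.q 332 (.a 1 [] (.d 428 1324 300 1356 460)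
 (.a 1 [300] (.d 425 3373 301 3404 456)
 .e)))
 .e))))
 .e))))
 .e)))) (by decide +kernel)

theorem b2_2259 : S (PX [529] [269,463,496,562]) := S.of (.q 330 (.a 1 [] (.d 297 2312 264 2345 429)
 (.a 1 [264] (.d 429 2345 297 2378 462)
 (.a 0 [297,429] (.q 362 (.a 1 [] (.d 298 1290 266 1322 426)
 (.a 1 [266] (.d 426 1322 298 1354 458)
 (.a 0 [298,426] (.q 364 (.a 1 [] (.d 361 360 360 361 365)
 (.a 1 [360] (.d 365 361 361 362 366)
 (.a 0 [361,365] (.q 332 (.a 1 [] (.d 300 1292 268 1324 428)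
 (.a 1 [268] (.d 428 1324 300 1356 460)
 (.a 1 [300] (.d 301 3342 270 3373 425)
 .e))))
 .e))))
 .e))))
 .e)))) (by decide +kernel)

theorem b2_2260 : S (PX [529] [297,463,496,562]) := S.of (.q 397 (.a 1 [] (.d 395 393 393 394 398)
 (.a 0 [393,395,398] (.q 429 (.a 1 [] (.d 462 2378 330 2411 495)
 (.a 0 [330,462,495] (.q 365 (.a 1 [] (.d 333 1325 301 1357 461)
 (.a 1 [301] (.d 461 1357 333 1389 493)
 (.a 1 [461] (.r 301 1325 333 (.d 332 3342 270 3373 425))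
 (.a 0 [333] (.q 427 (.a 1 [] (.d 334 3375 303 3406 458)
 (.a 1 [303] (.d 458 3406 334 3437 489)
 (.a 1 [334] (.r 493 1389 461 (.d 460 2409 361 2442 526))
 .e))))
 .e)))))
 .e)))
 .e))) (by decide +kernel)

theorem b2_2261 : S (PX [529] [298,463,496,562]) := S.of (.q 429 (.a 1 [] (.d 330 2345 297 2378 462)
 (.a 1 [297] (.d 462 2378 330 2411 495)
 (.a 0 [330,462] (.q 397 (.a 1 [] (.d 395 393 393 394 398)
 (.a 0 [393,395,398] (.q 365 (.a 1 [] (.d 333 1325 301 1357 461)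
 (.a 1 [301] (.d 461 1357 333 1389 493)
 (.a 1 [461] (.r 301 1325 333 (.d 332 3342 270 3373 425))
 (.a 0 [333] (.q 427 (.a 1 [] (.d 334 3375 303 3406 458)
 (.a 1 [303] (.d 458 3406 334 3437 489)
 (.a 1 [334] (.r 493 1389 461 (.d 460 2409 361 2442 526))
 .e))))
 .e)))))
 .e)))
 .e)))) (by decide +kernel)

theorem b2_2262 : S (PX [529] [299,463,496,562]) := S.of (.q 429 (.a 1 [] (.d 330 2345 297 2378 462)
 (.a 1 [297] (.d 462 2378 330 2411 495)
 (.a 0 [330,462] (.q 397 (.a 1 [] (.d 395 393 393 394 398)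
 (.a 0 [393,395,398] (.q 365 (.a 1 [] (.d 333 1325 301 1357 461)
 (.a 1 [301] (.d 461 1357 333 1389 493)
 (.a 1 [461] (.r 301 1325 333 (.d 332 3342 270 3373 425))
 (.a 0 [333] (.q 427 (.a 1 [] (.d 334 3375 303 3406 458)
 (.a 1 [303] (.d 458 3406 334 3437 489)
 (.a 1 [334] (.r 493 1389 461 (.d 460 2409 361 2442 526))
 .e))))
 .e)))))
 .e)))
 .e)))) (by decide +kernel)

theorem b2_2263 : S (PX [529] [300,463,496,562]) := S.of (.q 429 (.a 1 [] (.d 330 2345 297 2378 462)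
 (.a 1 [297] (.d 462 2378 330 2411 495)
 (.a 0 [330,462] (.q 397 (.a 1 [] (.d 395 393 393 394 398)
 (.a 0 [393,395,398] (.q 365 (.a 1 [] (.d 333 1325 301 1357 461)
 (.a 1 [301] (.d 461 1357 333 1389 493)
 (.a 1 [461] (.r 301 1325 333 (.d 332 3342 270 3373 425))
 (.a 0 [333] (.q 427 (.a 1 [] (.d 334 3375 303 3406 458)
 (.a 1 [303] (.d 458 3406 334 3437 489)
 (.a 1 [334] (.r 493 1389 461 (.d 460 2409 361 2442 526))
 .e))))
 .e)))))
 .e)))
 .e)))) (by decide +kernel)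

theorem b2_2264 : S (PX [529] [301,463,496,562]) := S.of (.q 330 (.a 1 [] (.d 297 2312 264 2345 429)
 (.a 1 [264] (.d 429 2345 297 2378 462)
 (.a 0 [297] (.q 425 (.a 1 [] (.d 456 3404 332 3435 487)
 (.a 0 [332,456,487] (.q 426 (.a 1 [] (.d 362 1322 298 1354 458)
 (.a 1 [298] (.r 458 1354 362 (.r 429 2378 462 (.r 427 425 428 (.d 489 3437 365 3468 520))))
 (.a 0 [362,458] (.q 395 (.a 1 [] (.d 393 392 392 393 397)
 (.a 1 [392] (.d 397 393 393 394 398)
 (.a 1 [393] (.r 429 2378 462 (.r 427 425 428 (.d 459 1355 331 1387 491)))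
 .e))))
 .e))))
 .e)))
 (.a 0 [429] (.q 362 (.a 1 [] (.d 298 1290 266 1322 426)
 (.a 1 [266] (.d 426 1322 298 1354 458)
 (.a 0 [298,426] (.q 425 (.a 1 [] (.d 456 3404 332 3435 487)
 (.a 0 [332,456,487] (.q 361 (.a 1 [] (.d 360 359 359 360 364)
 (.a 1 [359] (.d 364 360 360 361 365)
 (.a 1 [360] (.r 297 2312 264 (.r 393 1321 329 (.d 395 392 392 393 397)))
 .e))))
 .e)))
 .e))))
 .e))))) (by decide +kernel)

theorem b2_2265 : S (PX [529] [302,463,496,562]) := S.of (.q 330 (.a 1 [] (.d 297 2312 264 2345 429)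
 (.a 1 [264] (.d 429 2345 297 2378 462)
 (.a 0 [297,429] (.q 362 (.a 1 [] (.d 298 1290 266 1322 426)
 (.a 1 [266] (.d 426 1322 298 1354 458)
 (.a 0 [298,426] (.q 364 (.a 1 [] (.d 361 360 360 361 365)
 (.a 1 [360] (.d 365 361 361 362 366)
 (.a 0 [361,365] (.q 332 (.a 1 [] (.d 300 1292 268 1324 428)
 (.a 1 [268] (.d 428 1324 300 1356 460)
 (.a 1 [300] (.d 301 3342 270 3373 425)
 .e))))
 .e))))
 .e))))
 .e)))) (by decide +kernel)

theorem b2_2266 : S (PX [529] [303,463,496,562]) := S.of (.q 330 (.a 1 [] (.d 297 2312 264 2345 429)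
 (.a 1 [264] (.d 429 2345 297 2378 462)
 (.a 0 [297,429] (.q 362 (.a 1 [] (.d 298 1290 266 1322 426)
 (.a 1 [266] (.d 426 1322 298 1354 458)
 (.a 0 [298,426] (.q 364 (.a 1 [] (.d 361 360 360 361 365)
 (.a 1 [360] (.d 365 361 361 362 366)
 (.a 0 [361,365] (.q 332 (.a 1 [] (.d 300 1292 268 1324 428)
 (.a 1 [268] (.d 428 1324 300 1356 460)
 (.a 1 [300] (.d 301 3342 270 3373 425)
 .e))))
 .e))))
 .e))))
 .e)))) (by decide +kernel)

theorem b2_2267 : S (PX [529] [304,463,496,562]) := S.of (.q 330 (.a 1 [] (.d 297 2312 264 2345 429)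
 (.a 1 [264] (.d 429 2345 297 2378 462)
 (.a 0 [297,429] (.q 362 (.a 1 [] (.d 298 1290 266 1322 426)
 (.a 1 [266] (.d 426 1322 298 1354 458)
 (.a 0 [298,426] (.q 364 (.a 1 [] (.d 361 360 360 361 365)
 (.a 1 [360] (.d 365 361 361 362 366)
 (.a 0 [361,365] (.q 332 (.a 1 [] (.d 300 1292 268 1324 428)
 (.a 1 [268] (.d 428 1324 300 1356 460)
 (.a 1 [300] (.d 301 3342 270 3373 425)
 .e))))
 .e))))
 .e))))
 .e)))) (by decide +kernel)

theorem b2_2268 : S (PX [529] [330,463,496,562]) := S.of (.q 332 (.a 1 [] (.d 301 3342 270 3373 425)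
 (.a 1 [270] (.d 425 3373 301 3404 456)
 (.a 0 [301,425] (.q 364 (.a 1 [] (.d 300 1292 268 1324 428)
 (.a 1 [268] (.d 428 1324 300 1356 460)
 (.a 0 [300,428] (.q 365 (.a 1 [] (.d 362 361 361 362 366)
 (.a 1 [361] (.d 366 362 362 363 367)
 (.a 0 [362,366] (.q 427 (.a 1 [] (.d 334 3375 303 3406 458)
 (.a 1 [303] (.d 458 3406 334 3437 489)
 (.a 0 [334,458] (.q 395 (.a 1 [] (.d 393 392 392 393 397)
 (.a 1 [392] (.d 397 393 393 394 398)
 (.a 1 [393] (.d 331 1323 299 1355 459)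
 .e))))
 .e))))
 .e))))
 .e))))
 .e)))) (by decide +kernel)

theorem b2_2269 : S (PX [529] [332,463,496,562]) := S.of (.q 330 (.a 1 [] (.d 297 2312 264 2345 429)
 (.a 1 [264] (.d 429 2345 297 2378 462)
 (.a 0 [297,429] (.q 362 (.a 1 [] (.d 298 1290 266 1322 426)
 (.a 1 [266] (.d 426 1322 298 1354 458)
 (.a 0 [298,426] (.q 395 (.a 1 [] (.d 393 392 392 393 397)
 (.a 1 [392] (.d 397 393 393 394 398)
 (.a 0 [393] (.q 459 (.a 1 [] (.d 427 1355 331 1387 491)
 (.a 0 [331,427,491] (.q 428 (.a 1 [] (.d 329 2344 296 2377 461)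
 (.a 1 [296] (.d 461 2377 329 2410 494)
 (.a 1 [329] (.r 397 394 398 (.d 490 3438 366 3469 521))
 .e))))
 .e)))
 (.a 0 [397] (.q 364 (.a 1 [] (.d 361 360 360 361 365)
 (.a 1 [360] (.d 365 361 361 362 366)
 (.a 0 [361] (.q 427 (.a 1 [] (.d 331 1323 299 1355 459)
 (.a 1 [299] (.d 459 1355 331 1387 491)
 (.a 1 [331] (.r 365 362 366 (.d 458 3406 334 3437 489))
 .e))))
 (.a 0 [365] (.r 361 360 360 (.r 392 392 393 (.d 423 3371 299 3402 454)))
 .e)))))
 .e)))))
 .e))))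
 .e)))) (by decide +kernel)

theorem b2_2270 : S (PX [529] [334,463,496,562]) := S.of (.q 332 (.a 1 [] (.d 301 3342 270 3373 425)
 (.a 1 [270] (.d 425 3373 301 3404 456)
 (.a 0 [301,425] (.q 364 (.a 1 [] (.d 300 1292 268 1324 428)
 (.a 1 [268] (.d 428 1324 300 1356 460)
 (.a 0 [300,428] (.q 362 (.a 1 [] (.d 361 360 360 361 365)
 (.a 1 [360] (.d 365 361 361 362 366)
 (.a 0 [361,365] (.q 330 (.a 1 [] (.d 298 1290 266 1322 426)
 (.a 1 [266] (.d 426 1322 298 1354 458)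
 (.a 1 [298] (.d 297 2312 264 2345 429)
 .e))))
 .e))))
 .e))))
 .e)))) (by decide +kernel)

theorem b2_2271 : S (PX [529] [357,463,496,562]) := S.of (.q 330 (.a 1 [] (.d 297 2312 264 2345 429)
 (.a 1 [264] (.d 429 2345 297 2378 462)
 (.a 0 [297,429] (.q 362 (.a 1 [] (.d 298 1290 266 1322 426)
 (.a 1 [266] (.d 426 1322 298 1354 458)
 (.a 0 [298,426] (.q 364 (.a 1 [] (.d 361 360 360 361 365)
 (.a 1 [360] (.d 365 361 361 362 366)
 (.a 0 [361,365] (.q 332 (.a 1 [] (.d 300 1292 268 1324 428)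
 (.a 1 [268] (.d 428 1324 300 1356 460)
 (.a 1 [300] (.d 301 3342 270 3373 425)
 .e))))
 .e))))
 .e))))
 .e)))) (by decide +kernel)

theorem b2_2272 : S (PX [529] [358,463,496,562]) := S.of (.q 330 (.a 1 [] (.d 297 2312 264 2345 429)
 (.a 1 [264] (.d 429 2345 297 2378 462)
 (.a 0 [297,429] (.q 362 (.a 1 [] (.d 298 1290 266 1322 426)
 (.a 1 [266] (.d 426 1322 298 1354 458)
 (.a 0 [298,426] (.q 364 (.a 1 [] (.d 361 360 360 361 365)
 (.a 1 [360] (.d 365 361 361 362 366)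
 (.a 0 [361,365] (.q 332 (.a 1 [] (.d 300 1292 268 1324 428)
 (.a 1 [268] (.d 428 1324 300 1356 460)
 (.a 1 [300] (.d 301 3342 270 3373 425)
 .e))))
 .e))))
 .e))))
 .e)))) (by decide +kernel)

theorem b2_2273 : S (PX [529] [362,463,496,562]) := S.of (.q 429 (.a 1 [] (.d 330 2345 297 2378 462)
 (.a 1 [297] (.d 462 2378 330 2411 495)
 (.a 0 [330,462] (.q 397 (.a 1 [] (.d 395 393 393 394 398)
 (.a 0 [393,395,398] (.q 365 (.a 1 [] (.d 333 1325 301 1357 461)
 (.a 1 [301] (.d 461 1357 333 1389 493)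
 (.a 1 [461] (.r 301 1325 333 (.d 332 3342 270 3373 425))
 (.a 0 [333] (.q 427 (.a 1 [] (.d 334 3375 303 3406 458)
 (.a 1 [303] (.d 458 3406 334 3437 489)
 (.a 1 [334] (.r 493 1389 461 (.d 460 2409 361 2442 526))
 .e))))
 .e)))))
 .e)))
 .e)))) (by decide +kernel)

theorem b2_2274 : S (PX [529] [364,463,496,562]) := S.of (.q 397 (.a 1 [] (.d 395 393 393 394 398)
 (.a 0 [393,395,398] (.q 429 (.a 1 [] (.d 330 2345 297 2378 462)
 (.a 1 [297] (.d 462 2378 330 2411 495)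
 (.a 0 [330] (.q 493 (.a 1 [] (.d 461 1389 365 1421 525)
 (.a 1 [525] (.r 365 1389 461 (.r 301 1325 333 (.d 332 3342 270 3373 425)))
 (.a 0 [365,461] (.r 462 2411 495 (.q 431 (.a 1 [] (.d 400 3441 369 3472 524)
 (.a 1 [369] (.d 524 3472 400 3503 555)
 (.a 0 [400,524] (.q 427 (.a 1 [] (.d 460 2409 361 2442 526)
 (.a 1 [361] (.r 428 427 430 (.r 425 425 426 (.d 456 3404 332 3435 487)))
 .e)))
 .e)))))
 .e))))
 (.a 0 [462] (.r 330 2345 297 (.q 332 (.a 1 [] (.d 301 3342 270 3373 425)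
 (.a 1 [270] (.d 425 3373 301 3404 456)
 (.a 1 [425] (.r 301 3342 270 (.r 333 1325 365 (.d 331 329 329 330 334)))
 (.a 0 [301] (.q 461 (.a 1 [] (.d 365 1357 333 1389 493)
 (.a 1 [333] (.d 493 1389 365 1421 525)
 (.a 1 [493] (.r 333 1357 365 (.d 331 329 329 330 334))
 (.a 0 [365] (.q 426 (.a 1 [] (.d 362 1322 298 1354 458)
 (.a 1 [298] (.r 425 3404 456 (.r 458 1354 362 (.r 427 425 428 (.r 493 1421 525 (.d 460 2409 361 2442 526)))))
 (.a 1 [362] (.r 425 3404 456 (.r 427 425 428 (.r 493 1421 525 (.d 460 2409 361 2442 526))))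
 .e))))
 .e)))))
 .e))))))
 .e)))))
 .e))) (by decide +kernel)

theorem b2_2275 : S (PX [529] [365,463,496,562]) := S.of (.q 330 (.a 1 [] (.d 297 2312 264 2345 429)
 (.a 1 [264] (.d 429 2345 297 2378 462)
 (.a 0 [297,429] (.q 425 (.a 1 [] (.d 332 3373 301 3404 456)
 (.a 1 [301] (.d 456 3404 332 3435 487)
 (.a 0 [332,456] (.q 426 (.a 1 [] (.d 362 1322 298 1354 458)
 (.a 0 [298,362,458] (.q 427 (.a 1 [] (.d 424 423 423 424 428)
 (.a 0 [423,424,428] (.q 395 (.a 1 [] (.d 393 392 392 393 397)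
 (.a 1 [392] (.d 397 393 393 394 398)
 (.a 1 [393] (.d 331 1323 299 1355 459)
 .e))))
 .e)))
 .e)))
 .e))))
 .e)))) (by decide +kernel)

theorem b2_2276 : S (PX [529] [367,463,496,562]) := S.of (.q 330 (.a 1 [] (.d 297 2312 264 2345 429)
 (.a 1 [264] (.d 429 2345 297 2378 462)
 (.a 0 [297,429] (.q 362 (.a 1 [] (.d 298 1290 266 1322 426)
 (.a 1 [266] (.d 426 1322 298 1354 458)
 (.a 0 [298,426] (.q 364 (.a 1 [] (.d 361 360 360 361 365)
 (.a 1 [360] (.d 365 361 361 362 366)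
 (.a 0 [361,365] (.q 332 (.a 1 [] (.d 300 1292 268 1324 428)
 (.a 1 [268] (.d 428 1324 300 1356 460)
 (.a 1 [300] (.d 301 3342 270 3373 425)
 .e))))
 .e))))
 .e))))
 .e)))) (by decide +kernel)

theorem b2_2303 : S (PX [529] [397,463,496,562]) := S.of (.q 332 (.a 1 [] (.d 301 3342 270 3373 425)
 (.a 0 [364] (.q 430 (.a 1 [] (.d 301 3342 270 3373 425)
 (.a 1 [301] (.q 429 (.a 1 [] (.d 330 2345 297 2378 462)
 (.a 1 [330] (.q 427 (.a 1 [] (.d 428 426 426 427 431)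
 (.a 0 [426,428,431] (.q 365 (.a 1 [] (.d 334 3375 303 3406 458)
 (.a 1 [303] (.d 458 3406 334 3437 489)
 (.a 0 [334,458] (.q 460 (.a 1 [] (.d 361 2376 328 2409 493)
 (.a 1 [328] (.d 493 2409 361 2442 526)
 (.a 0 [361,493] (.q 395 (.a 1 [] (.d 331 1323 299 1355 459)
 (.a 1 [299] (.d 459 1355 331 1387 491)
 (.a 1 [331] (.r 491 1387 459 (.d 522 3470 398 3501 553))
 (.a 1 [459] (.r 299 1323 331 (.d 266 2281 233 2314 398))
 .e)))))
 .e))))
 .e))))
 .e)))
 (.a 1 [462] (.q 427 (.a 1 [] (.d 428 426 426 427 431)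
 (.a 1 [431] (.r 425 3404 456 (.r 426 425 428 (.r 330 2345 297 (.d 362 1322 298 1354 458))))
 (.a 0 [426,428] (.q 331 (.a 1 [] (.d 395 1323 299 1355 459)
 (.a 1 [299] (.r 330 2345 297 (.d 333 329 329 330 334))
 .e)))
 .e))))
 (.a 1 [297] (.d 462 2378 330 2411 495)
 .e)))))
 (.a 1 [425] (.q 429 (.a 1 [] (.d 330 2345 297 2378 462)
 (.a 1 [330] (.q 427 (.a 1 [] (.d 428 426 426 427 431)
 (.a 0 [426,428,431] (.q 460 (.a 1 [] (.d 361 2376 328 2409 493)
 (.a 1 [328] (.d 493 2409 361 2442 526)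
 (.a 0 [361,493] (.q 491 (.a 1 [] (.d 398 3439 367 3470 522)
 (.a 1 [367] (.d 522 3470 398 3501 553)
 (.a 1 [398] (.r 459 1387 395 (.r 462 2411 495 (.r 458 458 461 (.d 489 3437 365 3468 520))))
 .e))))
 .e))))
 .e)))
 (.a 1 [462] (.q 427 (.a 1 [] (.d 428 426 426 427 431)
 (.a 0 [426,428,431] (.q 331 (.a 1 [] (.d 395 1323 299 1355 459)
 (.a 1 [299] (.r 330 2345 297 (.d 333 329 329 330 334))
 .e)))
 .e)))
 (.a 1 [297] (.d 462 2378 330 2411 495)
 .e)))))
 (.a 1 [270] (.d 425 3373 301 3404 456)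
 .e)))))
 (.a 1 [301] (.q 364 (.a 1 [] (.d 300 1292 268 1324 428)
 (.a 1 [268] (.d 428 1324 300 1356 460)
 (.a 0 [300,428] (.q 297 (.a 1 [] (.d 330 2312 264 2345 429)
 (.a 0 [264,330,429] (.r 425 3404 456 (.q 365 (.a 1 [] (.d 362 361 361 362 366)
 (.a 1 [361] (.d 366 362 362 363 367)
 (.a 1 [366] (.r 361 361 362 (.r 393 1321 329 (.r 489 1385 457 (.r 427 3437 458 (.d 328 2343 295 2376 460)))))
 (.a 0 [362] (.q 427 (.a 1 [] (.d 334 3375 303 3406 458)
 (.a 1 [303] (.d 458 3406 334 3437 489)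
 (.a 0 [334,458] (.q 395 (.a 1 [] (.d 331 1323 299 1355 459)
 (.a 1 [299] (.d 459 1355 331 1387 491)
 (.a 1 [331] (.r 393 392 392 (.r 361 1321 329 (.d 460 2376 328 2409 493)))
 .e))))
 .e))))
 .e))))))
 .e)))
 .e))))
 (.a 1 [425] (.q 364 (.a 1 [] (.d 300 1292 268 1324 428)
 (.a 1 [268] (.d 428 1324 300 1356 460)
 (.a 0 [300,428] (.q 362 (.a 1 [] (.d 361 360 360 361 365)
 (.a 1 [360] (.d 365 361 361 362 366)
 (.a 0 [361,365] (.q 330 (.a 1 [] (.d 298 1290 266 1322 426)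
 (.a 1 [266] (.d 426 1322 298 1354 458)
 (.a 1 [298] (.d 297 2312 264 2345 429)
 .e))))
 .e))))
 .e))))
 .e))))) (by decide +kernel)

theorem b2_2304 : S (PX [529] [400,463,496,562]) := S.of (.q 330 (.a 1 [] (.d 297 2312 264 2345 429)
 (.a 1 [264] (.d 429 2345 297 2378 462)
 (.a 0 [297,429] (.q 362 (.a 1 [] (.d 298 1290 266 1322 426)
 (.a 1 [266] (.d 426 1322 298 1354 458)
 (.a 0 [298,426] (.q 364 (.a 1 [] (.d 361 360 360 361 365)
 (.a 1 [360] (.d 365 361 361 362 366)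
 (.a 0 [361,365] (.q 332 (.a 1 [] (.d 300 1292 268 1324 428)
 (.a 1 [268] (.d 428 1324 300 1356 460)
 (.a 1 [300] (.d 301 3342 270 3373 425)
 .e))))
 .e))))
 .e))))
 .e)))) (by decide +kernel)

theorem b2_2305 : S (PX [529] [422,463,496,562]) := S.of (.q 330 (.a 1 [] (.d 297 2312 264 2345 429)
 (.a 1 [264] (.d 429 2345 297 2378 462)
 (.a 0 [297,429] (.q 362 (.a 1 [] (.d 298 1290 266 1322 426)
 (.a 1 [266] (.d 426 1322 298 1354 458)
 (.a 0 [298,426] (.q 364 (.a 1 [] (.d 361 360 360 361 365)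
 (.a 1 [360] (.d 365 361 361 362 366)
 (.a 0 [361,365] (.q 332 (.a 1 [] (.d 300 1292 268 1324 428)
 (.a 1 [268] (.d 428 1324 300 1356 460)
 (.a 1 [300] (.d 301 3342 270 3373 425)
 .e))))
 .e))))
 .e))))
 .e)))) (by decide +kernel)

theorem b2_2306 : S (PX [529] [425,463,496,562]) := S.of (.q 429 (.a 1 [] (.d 330 2345 297 2378 462)
 (.a 1 [297] (.d 462 2378 330 2411 495)
 (.a 0 [330] (.q 397 (.a 1 [] (.d 395 393 393 394 398)
 (.a 0 [393,395,398] (.q 365 (.a 1 [] (.d 333 1325 301 1357 461)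
 (.a 1 [301] (.d 461 1357 333 1389 493)
 (.a 0 [333,461] (.q 364 (.a 1 [] (.d 362 361 361 362 366)
 (.a 1 [361] (.d 366 362 362 363 367)
 (.a 0 [362] (.q 428 (.a 1 [] (.d 332 1324 300 1356 460)
 (.a 1 [300] (.d 460 1356 332 1388 492)
 (.a 1 [332] (.r 366 363 367 (.d 459 3407 335 3438 490))
 .e))))
 (.a 0 [366] (.q 427 (.a 1 [] (.d 334 3375 303 3406 458)
 (.a 1 [303] (.d 458 3406 334 3437 489)
 (.a 1 [334] (.r 361 361 362 (.d 460 2376 328 2409 493))
 .e))))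
 .e)))))
 .e))))
 .e)))
 (.a 0 [462] (.r 330 2345 297 (.q 362 (.a 1 [] (.d 298 1290 266 1322 426)
 (.a 1 [266] (.d 426 1322 298 1354 458)
 (.a 0 [298,426] (.q 364 (.a 1 [] (.d 361 360 360 361 365)
 (.a 1 [360] (.d 365 361 361 362 366)
 (.a 0 [361,365] (.q 393 (.a 1 [] (.d 395 392 392 393 397)
 (.a 0 [392,395,397] (.q 300 (.a 1 [] (.d 332 1292 268 1324 428)
 (.a 1 [268] (.d 331 3341 269 3372 424)
 .e)))
 .e)))
 .e))))
 .e)))))
 .e))))) (by decide +kernel)

theorem b2_2307 : S (PX [529] [426,463,496,562]) := S.of (.q 332 (.a 1 [] (.d 301 3342 270 3373 425)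
 (.a 1 [270] (.d 425 3373 301 3404 456)
 (.a 0 [301,425] (.q 395 (.a 1 [] (.d 393 392 392 393 397)
 (.a 1 [392] (.d 397 393 393 394 398)
 (.a 0 [393] (.q 299 (.a 1 [] (.d 331 1291 267 1323 427)
 (.a 1 [267] (.r 427 1323 331 (.r 398 394 397 (.d 365 2314 266 2347 431)))
 (.a 1 [331] (.r 398 394 397 (.d 365 2314 266 2347 431))
 .e))))
 (.a 0 [397] (.q 364 (.a 1 [] (.d 300 1292 268 1324 428)
 (.a 1 [268] (.d 428 1324 300 1356 460)
 (.a 0 [300] (.q 427 (.a 1 [] (.d 331 1323 299 1355 459)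
 (.a 1 [299] (.d 459 1355 331 1387 491)
 (.a 1 [331] (.r 460 1356 428 (.d 493 2409 361 2442 526))
 .e))))
 (.a 0 [428] (.q 427 (.a 1 [] (.d 331 1323 299 1355 459)
 (.a 1 [299] (.d 459 1355 331 1387 491)
 (.a 0 [331] (.q 365 (.a 1 [] (.d 362 361 361 362 366)
 (.a 1 [361] (.d 366 362 362 363 367)
 (.a 1 [362] (.d 334 3375 303 3406 458)
 .e))))
 (.a 0 [459] (.r 299 1323 331 (.r 268 1292 300 (.r 392 392 393 (.r 361 3340 330 (.d 460 2376 328 2409 493)))))
 .e)))))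
 .e)))))
 .e)))))
 .e)))) (by decide +kernel)

theorem b2_2308 : S (PX [529] [427,463,496,562]) := S.of (.q 429 (.a 1 [] (.d 330 2345 297 2378 462)
 (.a 1 [297] (.d 462 2378 330 2411 495)
 (.a 0 [330,462] (.q 397 (.a 1 [] (.d 395 393 393 394 398)
 (.a 0 [393,395,398] (.q 365 (.a 1 [] (.d 333 1325 301 1357 461)
 (.a 1 [301] (.d 461 1357 333 1389 493)
 (.a 1 [461] (.r 301 1325 333 (.d 332 3342 270 3373 425))
 (.a 0 [333] (.q 332 (.a 1 [] (.d 301 3342 270 3373 425)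
 (.a 1 [270] (.d 425 3373 301 3404 456)
 (.a 0 [301,425] (.q 364 (.a 1 [] (.d 362 361 361 362 366)
 (.a 1 [361] (.d 366 362 362 363 367)
 (.a 1 [362] (.d 300 1292 268 1324 428)
 .e))))
 .e))))
 .e)))))
 .e)))
 .e)))) (by decide +kernel)

theorem b2_2309 : S (PX [529] [428,463,496,562]) := S.of (.q 429 (.a 1 [] (.d 330 2345 297 2378 462)
 (.a 1 [297] (.d 462 2378 330 2411 495)
 (.a 0 [330,462] (.q 397 (.a 1 [] (.d 395 393 393 394 398)
 (.a 0 [393,395,398] (.q 365 (.a 1 [] (.d 333 1325 301 1357 461)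
 (.a 1 [301] (.d 461 1357 333 1389 493)
 (.a 1 [461] (.r 301 1325 333 (.d 332 3342 270 3373 425))
 (.a 0 [333] (.q 427 (.a 1 [] (.d 334 3375 303 3406 458)
 (.a 1 [303] (.d 458 3406 334 3437 489)
 (.a 1 [334] (.r 493 1389 461 (.d 460 2409 361 2442 526))
 .e))))
 .e)))))
 .e)))
 .e)))) (by decide +kernel)

theorem b2_2310 : S (PX [529] [429,463,496,562]) := S.of (.q 332 (.a 1 [] (.d 301 3342 270 3373 425)
 (.a 1 [270] (.d 425 3373 301 3404 456)
 (.a 0 [301] (.q 364 (.a 1 [] (.d 300 1292 268 1324 428)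
 (.a 1 [268] (.d 428 1324 300 1356 460)
 (.a 0 [300,428] (.q 365 (.a 1 [] (.d 362 361 361 362 366)
 (.a 1 [361] (.d 366 362 362 363 367)
 (.a 0 [362,366] (.q 427 (.a 1 [] (.d 334 3375 303 3406 458)
 (.a 1 [303] (.d 458 3406 334 3437 489)
 (.a 0 [334,458] (.q 395 (.a 1 [] (.d 393 392 392 393 397)
 (.a 1 [392] (.d 397 393 393 394 398)
 (.a 1 [393] (.d 331 1323 299 1355 459)
 .e))))
 .e))))
 .e))))
 .e))))
 (.a 0 [425] (.q 395 (.a 1 [] (.d 393 392 392 393 397)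
 (.a 1 [392] (.d 397 393 393 394 398)
 (.a 0 [393,397] (.q 364 (.a 1 [] (.d 300 1292 268 1324 428)
 (.a 1 [268] (.d 428 1324 300 1356 460)
 (.a 0 [300,428] (.q 333 (.a 1 [] (.d 302 3343 271 3374 426)
 (.a 1 [271] (.d 426 3374 302 3405 457)
 (.a 0 [302,426] (.q 427 (.a 1 [] (.d 331 1323 299 1355 459)
 (.a 1 [299] (.d 459 1355 331 1387 491)
 (.a 1 [459] (.r 331 1323 299 (.d 334 330 330 331 335))
 (.a 0 [331] (.q 362 (.a 1 [] (.d 361 360 360 361 365)
 (.a 1 [360] (.d 365 361 361 362 366)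
 (.a 1 [361] (.r 365 362 366 (.d 458 3406 334 3437 489))
 (.a 1 [365] (.r 361 360 360 (.d 460 2376 328 2409 493))
 .e)))))
 .e)))))
 .e))))
 .e))))
 .e))))
 .e))))) (by decide +kernel)

theorem b2_2311 : S (PX [529] [460,463,496,562]) := S.of (.q 330 (.a 1 [] (.d 297 2312 264 2345 429)
 (.a 1 [264] (.d 429 2345 297 2378 462)
 (.a 0 [297,429] (.q 362 (.a 1 [] (.d 298 1290 266 1322 426)
 (.a 1 [266] (.d 426 1322 298 1354 458)
 (.a 0 [298,426] (.q 364 (.a 1 [] (.d 361 360 360 361 365)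
 (.a 1 [360] (.d 365 361 361 362 366)
 (.a 0 [361,365] (.q 332 (.a 1 [] (.d 300 1292 268 1324 428)
 (.a 1 [268] (.d 425 3373 301 3404 456)
 .e)))
 .e))))
 .e))))
 .e)))) (by decide +kernel)

theorem b2_2312 : S (PX [529] [463,487,496,562]) := S.of (.q 330 (.a 1 [] (.d 297 2312 264 2345 429)
 (.a 1 [264] (.d 429 2345 297 2378 462)
 (.a 0 [297,429] (.q 362 (.a 1 [] (.d 298 1290 266 1322 426)
 (.a 1 [266] (.d 426 1322 298 1354 458)
 (.a 0 [298,426] (.q 364 (.a 1 [] (.d 361 360 360 361 365)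
 (.a 1 [360] (.d 365 361 361 362 366)
 (.a 0 [361,365] (.q 332 (.a 1 [] (.d 300 1292 268 1324 428)
 (.a 1 [268] (.d 428 1324 300 1356 460)
 (.a 1 [300] (.d 301 3342 270 3373 425)
 .e))))
 .e))))
 .e))))
 .e)))) (by decide +kernel)

theorem b2_2313 : S (PX [529] [463,488,496,562]) := S.of (.q 330 (.a 1 [] (.d 297 2312 264 2345 429)
 (.a 1 [264] (.d 429 2345 297 2378 462)
 (.a 0 [297,429] (.q 362 (.a 1 [] (.d 298 1290 266 1322 426)
 (.a 1 [266] (.d 426 1322 298 1354 458)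
 (.a 0 [298,426] (.q 364 (.a 1 [] (.d 361 360 360 361 365)
 (.a 1 [360] (.d 365 361 361 362 366)
 (.a 0 [361,365] (.q 332 (.a 1 [] (.d 300 1292 268 1324 428)
 (.a 1 [268] (.d 428 1324 300 1356 460)
 (.a 1 [300] (.d 301 3342 270 3373 425)
 .e))))
 .e))))
 .e))))
 .e)))) (by decide +kernel)

theorem b2_2314 : S (PX [529] [463,496,518,562]) := S.of (.q 330 (.a 1 [] (.d 297 2312 264 2345 429)
 (.a 1 [264] (.d 429 2345 297 2378 462)
 (.a 0 [297,429] (.q 362 (.a 1 [] (.d 298 1290 266 1322 426)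
 (.a 1 [266] (.d 426 1322 298 1354 458)
 (.a 0 [298,426] (.q 364 (.a 1 [] (.d 361 360 360 361 365)
 (.a 1 [360] (.d 365 361 361 362 366)
 (.a 0 [361,365] (.q 332 (.a 1 [] (.d 300 1292 268 1324 428)
 (.a 1 [268] (.d 428 1324 300 1356 460)
 (.a 1 [300] (.d 301 3342 270 3373 425)
 .e))))
 .e))))
 .e))))
 .e)))) (by decide +kernel)

theorem b2_2315 : S (PX [529] [463,496,549,562]) := S.of (.q 330 (.a 1 [] (.d 297 2312 264 2345 429)
 (.a 1 [264] (.d 429 2345 297 2378 462)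
 (.a 0 [297,429] (.q 362 (.a 1 [] (.d 298 1290 266 1322 426)
 (.a 1 [266] (.d 426 1322 298 1354 458)
 (.a 0 [298,426] (.q 364 (.a 1 [] (.d 361 360 360 361 365)
 (.a 1 [360] (.d 365 361 361 362 366)
 (.a 0 [361,365] (.q 332 (.a 1 [] (.d 300 1292 268 1324 428)
 (.a 1 [268] (.d 428 1324 300 1356 460)
 (.a 1 [300] (.d 301 3342 270 3373 425)
 .e))))
 .e))))
 .e))))
 .e)))) (by decide +kernel)

theorem b2_2346 : S (PX [496] [425,463,529,562]) := S.of (.q 395 (.a 1 [] (.d 393 392 392 393 397)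
 (.a 1 [392] (.d 397 393 393 394 398)
 (.a 0 [393,397] (.q 331 (.a 1 [] (.d 299 1291 267 1323 427)
 (.a 1 [267] (.d 427 1323 299 1355 459)
 (.a 0 [299,427] (.q 330 (.a 1 [] (.d 297 2312 264 2345 429)
 (.a 1 [264] (.d 429 2345 297 2378 462)
 (.a 0 [297] (.q 329 (.a 1 [] (.d 328 327 327 328 332)
 (.a 1 [327] (.d 332 328 328 329 333)
 (.a 0 [328,332] (.q 362 (.a 1 [] (.d 298 1290 266 1322 426)
 (.a 1 [266] (.d 426 1322 298 1354 458)
 (.a 1 [298] (.d 296 2311 263 2344 428)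
 .e))))
 .e))))
 (.a 0 [429] (.q 426 (.a 1 [] (.d 362 1322 298 1354 458)
 (.a 0 [298,362,458] (.q 333 (.a 1 [] (.d 332 329 329 330 334)
 (.a 1 [329] (.d 364 3374 302 3405 457)
 .e)))
 .e)))
 .e)))))
 .e))))
 .e)))) (by decide +kernel)

theorem b2_2418 : S (PX [560] [425,558,559,562]) := S.of (.q 395 (.a 1 [] (.d 393 392 392 393 397)
 (.a 1 [392] (.d 397 393 393 394 398)
 (.a 0 [393,397] (.q 427 (.a 1 [] (.d 331 1323 299 1355 459)
 (.a 1 [299] (.d 459 1355 331 1387 491)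
 (.a 0 [331,459] (.q 361 (.a 1 [] (.d 328 2343 295 2376 460)
 (.a 1 [295] (.d 460 2376 328 2409 493)
 (.a 0 [328,460] (.q 330 (.a 1 [] (.d 297 2312 264 2345 429)
 (.a 1 [264] (.d 429 2345 297 2378 462)
 (.a 0 [297,429] (.q 362 (.a 1 [] (.d 360 359 359 360 364)
 (.a 1 [359] (.d 364 360 360 361 365)
 (.a 1 [360] (.d 298 1290 266 1322 426)
 .e))))
 .e))))
 .e))))
 .e))))
 .e)))) (by decide +kernel)

theorem v2_721 : VW (PX [496] [430,463,562]) := VW.of base nl_ok fl_ok .nil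
  []
  (([169], (PX [496] [169,430,463,562])) :: ([202], (PX [496] [202,430,463,562])) :: ([235], (PX [496] [235,430,463,562])) :: ([236], (PX [496] [236,430,463,562])) :: ([237], (PX [496] [237,430,463,562])) :: ([266], (PX [496] [266,430,463,562])) :: ([268], (PX [496] [268,430,463,562])) :: ([269], (PX [496] [269,430,463,562])) :: ([297], (PX [496] [297,430,463,562])) :: ([298], (PX [496] [298,430,463,562])) :: ([299], (PX [496] [299,430,463,562])) :: ([300], (PX [496] [300,430,463,562])) :: ([301], (PX [496] [301,430,463,562])) :: ([302], (PX [496] [302,430,463,562])) :: ([303], (PX [496] [303,430,463,562])) :: ([304], (PX [496] [304,430,463,562])) :: ([328], (PX [496] [328,430,463,562])) :: ([330], (PX [496] [330,430,463,562])) :: ([331], (PX [496] [331,430,463,562])) :: ([332], (PX [496] [332,430,463,562])) :: ([333], (PX [496] [333,430,463,562])) :: ([334], (PX [496] [334,430,463,562])) :: ([357], (PX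 [496] [357,430,463,562])) :: ([358], (PX [496] [358,430,463,562])) :: ([360], (PX [496] [360,430,463,562])) :: ([361], (PX [496] [361,430,463,562])) :: ([362], (PX [496] [362,430,463,562])) :: ([364], (PX [496] [364,430,463,562])) :: ([365], (PX [496] [365,430,463,562])) :: ([366], (PX [496] [366,430,463,562])) :: ([367], (PX [496] [367,430,463,562])) :: ([397], (PX [496] [397,430,463,562])) :: ([399], (PX [496] [399,430,463,562])) :: ([400], (PX [496] [400,430,463,562])) :: ([422], (PX [496] [422,430,463,562])) :: ([424], (PX [496] [424,430,463,562])) :: ([425], (PX [496] [425,430,463,562])) :: ([426], (PX [496] [426,430,463,562])) :: ([427], (PX [496] [427,430,463,562])) :: ([428], (PX [496] [428,430,463,562])) :: ([429], (PX [496] [429,430,463,562])) :: ([431], (PX [496] [430,431,463,562])) :: ([432], (PX [496] [430,432,463,562])) :: ([433], (PX [496] [430,433,463,562])) :: ([456], (PX [496] [430,456,463,562]))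 :: ([457], (PX [496] [430,457,463,562])) :: ([460], (PX [496] [430,460,463,562])) :: ([461], (PX [496] [430,461,463,562])) :: ([487], (PX [496] [430,463,487,562])) :: ([488], (PX [496] [430,463,488,562])) :: ([489], (PX [496] [430,463,489,562])) :: ([492], (PX [496] [430,463,492,562])) :: ([518], (PX [496] [430,463,518,562])) :: ([549], (PX [496] [430,463,549,562])) :: [])
  (by decide +kernel) ⟨b2_2078, b2_2079, b2_2080, b2_2081, b2_2082, b2_2083, b2_2084, b2_2085, b2_2086, b2_2087, b2_2088, b2_2089, b2_2090, b2_2091, b2_2092, b2_2093, b2_2094, b2_2095, b2_2096, b2_2097, b2_2098, b2_2099, b2_2100, b2_2101, b2_2102, b2_2103, b2_2104, b2_2105, b2_2106, b2_2107, b2_2108, b2_2140, b2_2141, b2_2142, b2_2143, b2_2144, b2_2145, b2_2146, b2_2147, b2_2148, b2_2149, b2_2150, b2_2151, b2_2152, b2_2153, b2_2154, b2_2155, b2_2156, b2_2157, b2_2158, b2_2159, b2_2160, b2_2161, b2_2162, trivial⟩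

theorem v2_723 : VW (PX [463] [430,496,562]) := VW.of base nl_ok fl_ok .nil
  [(529, (.cons 595 628 .nil (.cons 628 595 .nil .nil))), (595, (.cons 529 628 .nil (.cons 628 529 (.cons 661 694 .nil (.cons 694 661 .nil .nil)) .nil))), (628, (.cons 529 595 .nil (.cons 595 529 (.cons 661 694 .nil (.cons 694 661 .nil .nil)) .nil)))]
  (([297], (PX [463] [297,430,496,562])) :: ([298], (PX [463] [298,430,496,562])) :: ([332], (PX [463] [332,430,496,562])) :: ([361], (PX [463] [361,430,496,562])) :: ([364], (PX [463] [364,430,496,562])) :: ([365], (PX [463] [365,430,496,562])) :: ([397], (PX [463] [397,430,496,562])) :: ([424], (PX [463] [424,430,496,562])) :: ([425], (PX [463] [425,430,496,562])) :: ([427], (PX [463] [427,430,496,562])) :: ([428], (PX [463] [428,430,496,562])) :: ([456], (PX [463] [430,456,496,562])) :: ([488], (PX [463] [430,488,496,562])) :: [])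
  (by decide +kernel) ⟨b2_2188, b2_2189, b2_2190, b2_2191, b2_2192, b2_2193, b2_2194, b2_2195, b2_2196, b2_2197, b2_2198, b2_2199, b2_2200, trivial⟩

theorem w2_725_463 : S (PX [] [430,463,562]) := VW.play 496 (PX [496] [430,463,562]) (by decide +kernel) v2_721

theorem w2_725_496 : S (PX [] [430,496,562]) := VW.play 463 (PX [463] [430,496,562]) (by decide +kernel) v2_723

theorem v2_725 : VW (PX [] [430,562]) := VW.of base nl_ok fl_ok .nil
  [(529, (.cons 463 496 .nil (.cons 496 463 (.cons 595 628 .nil (.cons 628 595 .nil .nil)) .nil)))]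
  (([297], (PX [] [297,430,562])) :: ([298], (PX [] [298,430,562])) :: ([332], (PX [] [332,430,562])) :: ([361], (PX [] [361,430,562])) :: ([364], (PX [] [364,430,562])) :: ([365], (PX [] [365,430,562])) :: ([397], (PX [] [397,430,562])) :: ([424], (PX [] [424,430,562])) :: ([425], (PX [] [425,430,562])) :: ([427], (PX [] [427,430,562])) :: ([428], (PX [] [428,430,562])) :: ([456], (PX [] [430,456,562])) :: ([463], (PX [] [430,463,562])) :: ([488], (PX [] [430,488,562])) :: ([496], (PX [] [430,496,562])) :: [])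
  (by decide +kernel) ⟨b2_2066, b2_2067, b2_2068, b2_2069, b2_2070, b2_2071, b2_2072, b2_2073, b2_2074, b2_2075, b2_2076, b2_2077, w2_725_463, b2_2187, w2_725_496, trivial⟩

theorem v2_726 : VW (PX [] [434,562]) := VW.of base nl_ok fl_ok .nil
  [(466, (.cons 498 530 (.cons 370 402 .nil (.cons 402 370 .nil .nil)) (.cons 530 498 .nil .nil))), (498, (.cons 466 530 (.cons 370 402 .nil (.cons 402 370 .nil .nil)) (.cons 530 466 (.cons 594 626 .nil (.cons 626 594 .nil .nil)) .nil))), (530, (.cons 466 498 .nil (.cons 498 466 (.cons 594 626 .nil (.cons 626 594 .nil .nil)) .nil)))]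
  []
  (by decide +kernel) trivial

theorem v2_727 : VW (PX [] [438,562]) := VW.of base nl_ok fl_ok .nil
  [(469, (.cons 500 531 (.cons 376 407 .nil (.cons 407 376 .nil .nil)) (.cons 531 500 .nil .nil))), (500, (.cons 469 531 (.cons 376 407 .nil (.cons 407 376 .nil .nil)) (.cons 531 469 (.cons 593 624 .nil (.cons 624 593 .nil .nil)) .nil))), (531, (.cons 469 500 .nil (.cons 500 469 (.cons 593 624 .nil (.cons 624 593 .nil .nil)) .nil)))]
  []
  (by decide +kernel) trivial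

theorem v2_731 : VW (PX [529] [463,496,562]) := VW.of base nl_ok fl_ok .nil
  []
  (([169], (PX [529] [169,463,496,562])) :: ([202], (PX [529] [202,463,496,562])) :: ([235], (PX [529] [235,463,496,562])) :: ([236], (PX [529] [236,463,496,562])) :: ([237], (PX [529] [237,463,496,562])) :: ([266], (PX [529] [266,463,496,562])) :: ([268], (PX [529] [268,463,496,562])) :: ([269], (PX [529] [269,463,496,562])) :: ([297], (PX [529] [297,463,496,562])) :: ([298], (PX [529] [298,463,496,562])) :: ([299], (PX [529] [299,463,496,562])) :: ([300], (PX [529] [300,463,496,562])) :: ([301], (PX [529] [301,463,496,562])) :: ([302], (PX [529] [302,463,496,562])) :: ([303], (PX [529] [303,463,496,562])) :: ([304], (PX [529] [304,463,496,562])) :: ([330], (PX [529] [330,463,496,562])) :: ([332], (PX [529] [332,463,496,562])) :: ([334], (PX [529] [334,463,496,562])) :: ([357], (PX [529] [357,463,496,562])) :: ([358], (PX [529]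 [358,463,496,562])) :: ([362], (PX [529] [362,463,496,562])) :: ([364], (PX [529] [364,463,496,562])) :: ([365], (PX [529] [365,463,496,562])) :: ([367], (PX [529] [367,463,496,562])) :: ([397], (PX [529] [397,463,496,562])) :: ([400], (PX [529] [400,463,496,562])) :: ([422], (PX [529] [422,463,496,562])) :: ([425], (PX [529] [425,463,496,562])) :: ([426], (PX [529] [426,463,496,562])) :: ([427], (PX [529] [427,463,496,562])) :: ([428], (PX [529] [428,463,496,562])) :: ([429], (PX [529] [429,463,496,562])) :: ([430], (PX [529] [430,463,496,562])) :: ([460], (PX [529] [460,463,496,562])) :: ([487], (PX [529] [463,487,496,562])) :: ([488], (PX [529] [463,488,496,562])) :: ([518], (PX [529] [463,496,518,562])) :: ([549], (PX [529] [463,496,549,562])) :: [])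
  (by decide +kernel) ⟨b2_2252, b2_2253, b2_2254, b2_2255, b2_2256, b2_2257, b2_2258, b2_2259, b2_2260, b2_2261, b2_2262, b2_2263, b2_2264, b2_2265, b2_2266, b2_2267, b2_2268, b2_2269, b2_2270, b2_2271, b2_2272, b2_2273, b2_2274, b2_2275, b2_2276, b2_2303, b2_2304, b2_2305, b2_2306, b2_2307, b2_2308, b2_2309, b2_2310, b2_2184, b2_2311, b2_2312, b2_2313, b2_2314, b2_2315, trivial⟩

theorem v2_732 : VW (PX [496] [463,529,562]) := VW.of base nl_ok fl_ok .nil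
  [(595, (.cons 628 661 .nil (.cons 661 628 .nil .nil))), (628, (.cons 595 661 .nil (.cons 661 595 .nil .nil))), (661, (.cons 595 628 .nil (.cons 628 595 .nil .nil)))]
  [([425], (PX [496] [425,463,529,562]))]
  (by decide +kernel) ⟨b2_2346, trivial⟩

theorem w2_733_430 : S (PX [] [430,463,562]) := VW.play 496 (PX [496] [430,463,562]) (by decide +kernel) v2_721

theorem w2_733_496 : S (PX [] [463,496,562]) := VW.play 529 (PX [529] [463,496,562]) (by decide +kernel) v2_731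

theorem w2_733_529 : S (PX [] [463,529,562]) := VW.play 496 (PX [496] [463,529,562]) (by decide +kernel) v2_732

theorem v2_733 : VW (PX [] [463,562]) := VW.of base nl_ok fl_ok .nil
  [(595, (.cons 496 529 .nil (.cons 529 496 (.cons 628 661 .nil (.cons 661 628 .nil .nil)) .nil)))]
  [([425], (PX [] [425,463,562])), ([430], (PX [] [430,463,562])), ([496], (PX [] [463,496,562])), ([529], (PX [] [463,529,562]))]
  (by decide +kernel) ⟨b2_2251, w2_733_430, w2_733_496, w2_733_529, trivial⟩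

theorem v2_195 : VW (PX [530] [466,498,562]) := VW.of base nl_ok fl_ok .nil
  [(370, (.cons 402 434 .nil (.cons 434 402 .nil .nil))), (402, (.cons 370 434 .nil (.cons 434 370 .nil .nil))), (434, (.cons 370 402 .nil (.cons 402 370 .nil .nil)))]
  []
  (by decide +kernel) trivial

theorem v2_534 : VW (PX [498] [466,530,562]) := VW.of base nl_ok fl_ok .nil
  [(594, (.cons 626 658 .nil (.cons 658 626 .nil .nil))), (626, (.cons 594 658 .nil (.cons 658 594 .nil .nil))), (658, (.cons 594 626 .nil (.cons 626 594 .nil .nil)))]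
  []
  (by decide +kernel) trivial

theorem w2_734_498 : S (PX [] [466,498,562]) := VW.play 530 (PX [530] [466,498,562]) (by decide +kernel) v2_195

theorem w2_734_530 : S (PX [] [466,530,562]) := VW.play 498 (PX [498] [466,530,562]) (by decide +kernel) v2_534

theorem v2_734 : VW (PX [] [466,562]) := VW.of base nl_ok fl_ok .nil
  [(434, (.cons 498 530 (.cons 370 402 .nil (.cons 402 370 .nil .nil)) (.cons 530 498 .nil .nil))), (594, (.cons 498 530 .nil (.cons 530 498 (.cons 626 658 .nil (.cons 658 626 .nil .nil)) .nil)))]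
  [([498], (PX [] [466,498,562])), ([530], (PX [] [466,530,562]))]
  (by decide +kernel) ⟨w2_734_498, w2_734_530, trivial⟩

theorem v2_738 : VW (PX [531] [469,500,562]) := VW.of base nl_ok fl_ok .nil
  [(376, (.cons 407 438 .nil (.cons 438 407 .nil .nil))), (407, (.cons 376 438 .nil (.cons 438 376 .nil .nil))), (438, (.cons 376 407 .nil (.cons 407 376 .nil .nil)))]
  []
  (by decide +kernel) trivial

theorem v2_767 : VW (PX [500] [469,531,562]) := VW.of base nl_ok fl_ok .nil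
  [(593, (.cons 624 655 .nil (.cons 655 624 .nil .nil))), (624, (.cons 593 655 .nil (.cons 655 593 .nil .nil))), (655, (.cons 593 624 .nil (.cons 624 593 .nil .nil)))]
  []
  (by decide +kernel) trivial

theorem w2_770_500 : S (PX [] [469,500,562]) := VW.play 531 (PX [531] [469,500,562]) (by decide +kernel) v2_738

theorem w2_770_531 : S (PX [] [469,531,562]) := VW.play 500 (PX [500] [469,531,562]) (by decide +kernel) v2_767

theorem v2_770 : VW (PX [] [469,562]) := VW.of base nl_ok fl_ok .nil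
  [(438, (.cons 500 531 (.cons 376 407 .nil (.cons 407 376 .nil .nil)) (.cons 531 500 .nil .nil))), (593, (.cons 500 531 .nil (.cons 531 500 (.cons 624 655 .nil (.cons 655 624 .nil .nil)) .nil)))]
  [([500], (PX [] [469,500,562])), ([531], (PX [] [469,531,562]))]
  (by decide +kernel) ⟨w2_770_500, w2_770_531, trivial⟩

theorem v2_771 : VW (PX [463,628] [496,529,562,595]) := VW.of base nl_ok fl_ok .nil
  []
  []
  (by decide +kernel) trivial

theorem v2_772 : VW (PX [463,595] [496,529,562,628]) := VW.of base nl_ok fl_ok .nil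
  []
  []
  (by decide +kernel) trivial

theorem w2_773_595 : S (PX [463] [496,529,562,595]) := VW.play 628 (PX [463,628] [496,529,562,595]) (by decide +kernel) v2_771

theorem w2_773_628 : S (PX [463] [496,529,562,628]) := VW.play 595 (PX [463,595] [496,529,562,628]) (by decide +kernel) v2_772

theorem v2_773 : VW (PX [463] [496,529,562]) := VW.of base nl_ok fl_ok (.cons 595 628 .nil (.cons 628 595 .nil .nil))
  [(661, (.cons 595 628 .nil (.cons 628 595 .nil .nil))), (694, (.cons 595 628 .nil (.cons 628 595 .nil .nil))), (727, (.cons 595 628 .nil (.cons 628 595 .nil .nil)))]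
  [([595], (PX [463] [496,529,562,595])), ([628], (PX [463] [496,529,562,628]))]
  (by decide +kernel) ⟨w2_773_595, w2_773_628, trivial⟩

theorem v2_774 : VW (PX [529] [496,562,595]) := VW.of base nl_ok fl_ok .nil
  [(628, (.cons 661 694 .nil (.cons 694 661 .nil .nil))), (661, (.cons 628 694 .nil (.cons 694 628 .nil .nil))), (694, (.cons 628 661 .nil (.cons 661 628 .nil .nil)))]
  []
  (by decide +kernel) trivial

theorem v2_775 : VW (PX [529] [496,562,628]) := VW.of base nl_ok fl_ok .nil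
  [(595, (.cons 661 694 .nil (.cons 694 661 .nil .nil))), (661, (.cons 595 694 .nil (.cons 694 595 (.cons 727 760 .nil (.cons 760 727 .nil .nil)) .nil))), (694, (.cons 595 661 .nil (.cons 661 595 (.cons 727 760 .nil (.cons 760 727 .nil .nil)) .nil)))]
  []
  (by decide +kernel) trivial

theorem w2_781_430 : S (PX [] [430,496,562]) := VW.play 463 (PX [463] [430,496,562]) (by decide +kernel) v2_723

theorem w2_781_463 : S (PX [] [463,496,562]) := VW.play 529 (PX [529] [463,496,562]) (by decide +kernel) v2_731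

theorem w2_781_529 : S (PX [] [496,529,562]) := VW.play 463 (PX [463] [496,529,562]) (by decide +kernel) v2_773

theorem w2_781_595 : S (PX [] [496,562,595]) := VW.play 529 (PX [529] [496,562,595]) (by decide +kernel) v2_774

theorem w2_781_628 : S (PX [] [496,562,628]) := VW.play 529 (PX [529] [496,562,628]) (by decide +kernel) v2_775

theorem v2_781 : VW (PX [] [496,562]) := VW.of base nl_ok fl_ok .nil
  []
  [([430], (PX [] [430,496,562])), ([463], (PX [] [463,496,562])), ([529], (PX [] [496,529,562])), ([595], (PX [] [496,562,595])), ([628], (PX [] [496,562,628]))]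
  (by decide +kernel) ⟨w2_781_430, w2_781_463, w2_781_529, w2_781_595, w2_781_628, trivial⟩

theorem v2_337 : VW (PX [466,626] [498,530,562,594]) := VW.of base nl_ok fl_ok .nil
  []
  []
  (by decide +kernel) trivial

theorem v2_338 : VW (PX [466,594] [498,530,562,626]) := VW.of base nl_ok fl_ok .nil
  []
  []
  (by decide +kernel) trivial

theorem w2_339_594 : S (PX [466] [498,530,562,594]) := VW.play 626 (PX [466,626] [498,530,562,594]) (by decide +kernel) v2_337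

theorem w2_339_626 : S (PX [466] [498,530,562,626]) := VW.play 594 (PX [466,594] [498,530,562,626]) (by decide +kernel) v2_338

theorem v2_339 : VW (PX [466] [498,530,562]) := VW.of base nl_ok fl_ok (.cons 594 626 .nil (.cons 626 594 .nil .nil))
  [(658, (.cons 594 626 .nil (.cons 626 594 .nil .nil))), (690, (.cons 594 626 .nil (.cons 626 594 .nil .nil))), (722, (.cons 594 626 .nil (.cons 626 594 .nil .nil)))]
  [([594], (PX [466] [498,530,562,594])), ([626], (PX [466] [498,530,562,626]))]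
  (by decide +kernel) ⟨w2_339_594, w2_339_626, trivial⟩

theorem v2_382 : VW (PX [530] [498,562,594]) := VW.of base nl_ok fl_ok .nil
  [(626, (.cons 658 690 .nil (.cons 690 658 .nil .nil))), (658, (.cons 626 690 .nil (.cons 690 626 .nil .nil))), (690, (.cons 626 658 .nil (.cons 658 626 .nil .nil)))]
  []
  (by decide +kernel) trivial

theorem w2_385_466 : S (PX [] [466,498,562]) := VW.play 530 (PX [530] [466,498,562]) (by decide +kernel) v2_195

theorem w2_385_530 : S (PX [] [498,530,562]) := VW.play 466 (PX [466] [498,530,562]) (by decide +kernel) v2_339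

theorem w2_385_594 : S (PX [] [498,562,594]) := VW.play 530 (PX [530] [498,562,594]) (by decide +kernel) v2_382

theorem v2_385 : VW (PX [] [498,562]) := VW.of base nl_ok fl_ok .nil
  [(434, (.cons 466 530 (.cons 370 402 .nil (.cons 402 370 .nil .nil)) (.cons 530 466 (.cons 594 626 .nil (.cons 626 594 .nil .nil)) .nil))), (626, (.cons 530 594 (.cons 434 466 .nil (.cons 466 434 .nil .nil)) (.cons 594 530 (.cons 658 690 .nil (.cons 690 658 .nil .nil)) .nil)))]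
  [([466], (PX [] [466,498,562])), ([530], (PX [] [498,530,562])), ([594], (PX [] [498,562,594]))]
  (by decide +kernel) ⟨w2_385_466, w2_385_530, w2_385_594, trivial⟩

theorem v2_782 : VW (PX [469,624] [500,531,562,593]) := VW.of base nl_ok fl_ok .nil
  []
  []
  (by decide +kernel) trivial

theorem v2_783 : VW (PX [469,593] [500,531,562,624]) := VW.of base nl_ok fl_ok .nil
  []
  []
  (by decide +kernel) trivial

theorem w2_784_593 : S (PX [469] [500,531,562,593]) := VW.play 624 (PX [469,624] [500,531,562,593]) (by decide +kernel) v2_782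

theorem w2_784_624 : S (PX [469] [500,531,562,624]) := VW.play 593 (PX [469,593] [500,531,562,624]) (by decide +kernel) v2_783

theorem v2_784 : VW (PX [469] [500,531,562]) := VW.of base nl_ok fl_ok (.cons 593 624 .nil (.cons 624 593 .nil .nil))
  [(655, (.cons 593 624 .nil (.cons 624 593 .nil .nil))), (686, (.cons 593 624 .nil (.cons 624 593 .nil .nil))), (717, (.cons 593 624 .nil (.cons 624 593 .nil .nil)))]
  [([593], (PX [469] [500,531,562,593])), ([624], (PX [469] [500,531,562,624]))]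
  (by decide +kernel) ⟨w2_784_593, w2_784_624, trivial⟩

theorem v2_801 : VW (PX [531] [500,562,593]) := VW.of base nl_ok fl_ok .nil
  [(624, (.cons 655 686 .nil (.cons 686 655 .nil .nil))), (655, (.cons 624 686 .nil (.cons 686 624 .nil .nil))), (686, (.cons 624 655 .nil (.cons 655 624 .nil .nil)))]
  []
  (by decide +kernel) trivial

theorem w2_804_469 : S (PX [] [469,500,562]) := VW.play 531 (PX [531] [469,500,562]) (by decide +kernel) v2_738

theorem w2_804_531 : S (PX [] [500,531,562]) := VW.play 469 (PX [469] [500,531,562]) (by decide +kernel) v2_784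

theorem w2_804_593 : S (PX [] [500,562,593]) := VW.play 531 (PX [531] [500,562,593]) (by decide +kernel) v2_801

theorem v2_804 : VW (PX [] [500,562]) := VW.of base nl_ok fl_ok .nil
  [(438, (.cons 469 531 (.cons 376 407 .nil (.cons 407 376 .nil .nil)) (.cons 531 469 (.cons 593 624 .nil (.cons 624 593 .nil .nil)) .nil))), (624, (.cons 531 593 (.cons 438 469 .nil (.cons 469 438 .nil .nil)) (.cons 593 531 (.cons 655 686 .nil (.cons 686 655 .nil .nil)) .nil)))]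
  [([469], (PX [] [469,500,562])), ([531], (PX [] [500,531,562])), ([593], (PX [] [500,562,593]))]
  (by decide +kernel) ⟨w2_804_469, w2_804_531, w2_804_593, trivial⟩

theorem v2_805 : VW (PX [496,661] [529,562,595,628]) := VW.of base nl_ok fl_ok .nil
  []
  []
  (by decide +kernel) trivial

theorem v2_806 : VW (PX [496,628] [529,562,595,661]) := VW.of base nl_ok fl_ok .nil
  []
  []
  (by decide +kernel) trivial

theorem w2_807_628 : S (PX [496] [529,562,595,628]) := VW.play 661 (PX [496,661] [529,562,595,628]) (by decide +kernel) v2_805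

theorem w2_807_661 : S (PX [496] [529,562,595,661]) := VW.play 628 (PX [496,628] [529,562,595,661]) (by decide +kernel) v2_806

theorem v2_807 : VW (PX [496] [529,562,595]) := VW.of base nl_ok fl_ok (.cons 628 661 .nil (.cons 661 628 .nil .nil))
  [(694, (.cons 628 661 .nil (.cons 661 628 .nil .nil))), (727, (.cons 628 661 .nil (.cons 661 628 .nil .nil))), (760, (.cons 628 661 .nil (.cons 661 628 .nil .nil)))]
  [([628], (PX [496] [529,562,595,628])), ([661], (PX [496] [529,562,595,661]))]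
  (by decide +kernel) ⟨w2_807_628, w2_807_661, trivial⟩

theorem v2_808 : VW (PX [496,595] [529,562,628,661]) := VW.of base nl_ok fl_ok .nil
  [(694, (.cons 727 760 .nil (.cons 760 727 .nil .nil))), (727, (.cons 694 760 .nil (.cons 760 694 .nil .nil))), (760, (.cons 694 727 .nil (.cons 727 694 .nil .nil)))]
  []
  (by decide +kernel) trivial

theorem w2_809_595 : S (PX [496] [529,562,595,628]) := VW.play 661 (PX [496,661] [529,562,595,628]) (by decide +kernel) v2_805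

theorem w2_809_661 : S (PX [496] [529,562,628,661]) := VW.play 595 (PX [496,595] [529,562,628,661]) (by decide +kernel) v2_808

theorem v2_809 : VW (PX [496] [529,562,628]) := VW.of base nl_ok fl_ok (.cons 595 661 .nil (.cons 661 595 .nil .nil))
  [(694, (.cons 595 661 .nil (.cons 661 595 (.cons 727 760 .nil (.cons 760 727 .nil .nil)) .nil))), (727, (.cons 595 661 .nil (.cons 661 595 (.cons 694 760 .nil (.cons 760 694 .nil .nil)) .nil))), (760, (.cons 595 661 .nil (.cons 661 595 (.cons 694 727 .nil (.cons 727 694 .nil .nil)) .nil)))]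
  [([595], (PX [496] [529,562,595,628])), ([661], (PX [496] [529,562,628,661]))]
  (by decide +kernel) ⟨w2_809_595, w2_809_661, trivial⟩

theorem w2_813_463 : S (PX [] [463,529,562]) := VW.play 496 (PX [496] [463,529,562]) (by decide +kernel) v2_732

theorem w2_813_496 : S (PX [] [496,529,562]) := VW.play 463 (PX [463] [496,529,562]) (by decide +kernel) v2_773

theorem w2_813_595 : S (PX [] [529,562,595]) := VW.play 496 (PX [496] [529,562,595]) (by decide +kernel) v2_807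

theorem w2_813_628 : S (PX [] [529,562,628]) := VW.play 496 (PX [496] [529,562,628]) (by decide +kernel) v2_809

theorem v2_813 : VW (PX [] [529,562]) := VW.of base nl_ok fl_ok .nil
  [(430, (.cons 463 496 .nil (.cons 496 463 (.cons 595 628 .nil (.cons 628 595 .nil .nil)) .nil))), (661, (.cons 595 628 (.cons 463 496 .nil (.cons 496 463 .nil .nil)) (.cons 628 595 .nil .nil)))]
  [([463], (PX [] [463,529,562])), ([496], (PX [] [496,529,562])), ([595], (PX [] [529,562,595])), ([628], (PX [] [529,562,628]))]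
  (by decide +kernel) ⟨w2_813_463, w2_813_496, w2_813_595, w2_813_628, trivial⟩

theorem v2_651 : VW (PX [498,658] [530,562,594,626]) := VW.of base nl_ok fl_ok .nil
  []
  []
  (by decide +kernel) trivial

theorem v2_652 : VW (PX [498,626] [530,562,594,658]) := VW.of base nl_ok fl_ok .nil
  []
  []
  (by decide +kernel) trivial

theorem w2_653_626 : S (PX [498] [530,562,594,626]) := VW.play 658 (PX [498,658] [530,562,594,626]) (by decide +kernel) v2_651

theorem w2_653_658 : S (PX [498] [530,562,594,658]) := VW.play 626 (PX [498,626] [530,562,594,658]) (by decide +kernel) v2_652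

theorem v2_653 : VW (PX [498] [530,562,594]) := VW.of base nl_ok fl_ok (.cons 626 658 .nil (.cons 658 626 .nil .nil))
  [(690, (.cons 626 658 .nil (.cons 658 626 .nil .nil))), (722, (.cons 626 658 .nil (.cons 658 626 .nil .nil))), (754, (.cons 626 658 .nil (.cons 658 626 .nil .nil)))]
  [([626], (PX [498] [530,562,594,626])), ([658], (PX [498] [530,562,594,658]))]
  (by decide +kernel) ⟨w2_653_626, w2_653_658, trivial⟩

theorem v2_658 : VW (PX [594] [530,562,626]) := VW.of base nl_ok fl_ok .nil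
  [(434, (.cons 466 498 .nil (.cons 498 466 .nil .nil))), (466, (.cons 434 498 .nil (.cons 498 434 .nil .nil))), (498, (.cons 434 466 .nil (.cons 466 434 .nil .nil)))]
  []
  (by decide +kernel) trivial

theorem w2_670_466 : S (PX [] [466,530,562]) := VW.play 498 (PX [498] [466,530,562]) (by decide +kernel) v2_534

theorem w2_670_498 : S (PX [] [498,530,562]) := VW.play 466 (PX [466] [498,530,562]) (by decide +kernel) v2_339

theorem w2_670_594 : S (PX [] [530,562,594]) := VW.play 498 (PX [498] [530,562,594]) (by decide +kernel) v2_653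

theorem w2_670_626 : S (PX [] [530,562,626]) := VW.play 594 (PX [594] [530,562,626]) (by decide +kernel) v2_658

theorem v2_670 : VW (PX [] [530,562]) := VW.of base nl_ok fl_ok .nil
  [(434, (.cons 466 498 .nil (.cons 498 466 (.cons 594 626 .nil (.cons 626 594 .nil .nil)) .nil))), (658, (.cons 594 626 (.cons 466 498 .nil (.cons 498 466 .nil .nil)) (.cons 626 594 .nil .nil)))]
  [([466], (PX [] [466,530,562])), ([498], (PX [] [498,530,562])), ([594], (PX [] [530,562,594])), ([626], (PX [] [530,562,626]))]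
  (by decide +kernel) ⟨w2_670_466, w2_670_498, w2_670_594, w2_670_626, trivial⟩

theorem v2_814 : VW (PX [500,655] [531,562,593,624]) := VW.of base nl_ok fl_ok .nil
  []
  []
  (by decide +kernel) trivial

theorem v2_815 : VW (PX [500,624] [531,562,593,655]) := VW.of base nl_ok fl_ok .nil
  []
  []
  (by decide +kernel) trivial

theorem w2_816_624 : S (PX [500] [531,562,593,624]) := VW.play 655 (PX [500,655] [531,562,593,624]) (by decide +kernel) v2_814

theorem w2_816_655 : S (PX [500] [531,562,593,655]) := VW.play 624 (PX [500,624] [531,562,593,655]) (by decide +kernel) v2_815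

theorem v2_816 : VW (PX [500] [531,562,593]) := VW.of base nl_ok fl_ok (.cons 624 655 .nil (.cons 655 624 .nil .nil))
  [(686, (.cons 624 655 .nil (.cons 655 624 .nil .nil))), (717, (.cons 624 655 .nil (.cons 655 624 .nil .nil))), (748, (.cons 624 655 .nil (.cons 655 624 .nil .nil)))]
  [([624], (PX [500] [531,562,593,624])), ([655], (PX [500] [531,562,593,655]))]
  (by decide +kernel) ⟨w2_816_624, w2_816_655, trivial⟩

theorem v2_821 : VW (PX [593] [531,562,624]) := VW.of base nl_ok fl_ok .nil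
  [(438, (.cons 469 500 .nil (.cons 500 469 .nil .nil))), (469, (.cons 438 500 .nil (.cons 500 438 .nil .nil))), (500, (.cons 438 469 .nil (.cons 469 438 .nil .nil)))]
  []
  (by decide +kernel) trivial

theorem w2_833_469 : S (PX [] [469,531,562]) := VW.play 500 (PX [500] [469,531,562]) (by decide +kernel) v2_767

theorem w2_833_500 : S (PX [] [500,531,562]) := VW.play 469 (PX [469] [500,531,562]) (by decide +kernel) v2_784

theorem w2_833_593 : S (PX [] [531,562,593]) := VW.play 500 (PX [500] [531,562,593]) (by decide +kernel) v2_816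

theorem w2_833_624 : S (PX [] [531,562,624]) := VW.play 593 (PX [593] [531,562,624]) (by decide +kernel) v2_821

theorem v2_833 : VW (PX [] [531,562]) := VW.of base nl_ok fl_ok .nil
  [(438, (.cons 469 500 .nil (.cons 500 469 (.cons 593 624 .nil (.cons 624 593 .nil .nil)) .nil))), (655, (.cons 593 624 (.cons 469 500 .nil (.cons 500 469 .nil .nil)) (.cons 624 593 .nil .nil)))]
  [([469], (PX [] [469,531,562])), ([500], (PX [] [500,531,562])), ([593], (PX [] [531,562,593])), ([624], (PX [] [531,562,624]))]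
  (by decide +kernel) ⟨w2_833_469, w2_833_500, w2_833_593, w2_833_624, trivial⟩

theorem v2_834 : VW (PX [556,560] [555,558,559,562]) := VW.of base nl_ok fl_ok .nil
  []
  []
  (by decide +kernel) trivial

theorem v2_836 : VW (PX [555,560] [556,558,559,562]) := VW.of base nl_ok fl_ok .nil
  []
  []
  (by decide +kernel) trivial

theorem v2_838 : VW (PX [555,560] [557,558,559,562]) := VW.of base nl_ok fl_ok .nil
  []
  []
  (by decide +kernel) trivial

theorem w2_840_555 : S (PX [560] [555,558,559,562]) := VW.play 556 (PX [556,560] [555,558,559,562]) (by decide +kernel) v2_834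

theorem w2_840_556 : S (PX [560] [556,558,559,562]) := VW.play 555 (PX [555,560] [556,558,559,562]) (by decide +kernel) v2_836

theorem w2_840_557 : S (PX [560] [557,558,559,562]) := VW.play 555 (PX [555,560] [557,558,559,562]) (by decide +kernel) v2_838

theorem v2_840 : VW (PX [560] [558,559,562]) := VW.of base nl_ok fl_ok .nil
  []
  [([425], (PX [560] [425,558,559,562])), ([555], (PX [560] [555,558,559,562])), ([556], (PX [560] [556,558,559,562])), ([557], (PX [560] [557,558,559,562]))]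
  (by decide +kernel) ⟨b2_2418, w2_840_555, w2_840_556, w2_840_557, trivial⟩

theorem v2_848 : VW (PX [559] [558,560,562]) := VW.of base nl_ok fl_ok .nil
  [(561, (.cons 563 564 .nil (.cons 564 563 .nil .nil))), (563, (.cons 561 564 .nil (.cons 564 561 (.cons 565 566 .nil (.cons 566 565 .nil .nil)) .nil))), (564, (.cons 561 563 .nil (.cons 563 561 (.cons 565 566 .nil (.cons 566 565 .nil .nil)) .nil)))]
  []
  (by decide +kernel) trivial

theorem w2_862_559 : S (PX [] [558,559,562]) := VW.play 560 (PX [560] [558,559,562]) (by decide +kernel) v2_840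

theorem w2_862_560 : S (PX [] [558,560,562]) := VW.play 559 (PX [559] [558,560,562]) (by decide +kernel) v2_848

theorem v2_862 : VW (PX [] [558,562]) := VW.of base nl_ok fl_ok .nil
  [(561, (.cons 559 560 .nil (.cons 560 559 (.cons 563 564 .nil (.cons 564 563 .nil .nil)) .nil)))]
  [([559], (PX [] [558,559,562])), ([560], (PX [] [558,560,562]))]
  (by decide +kernel) ⟨w2_862_559, w2_862_560, trivial⟩

theorem v2_863 : VW (PX [556,561] [557,559,560,562]) := VW.of base nl_ok fl_ok .nil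
  []
  []
  (by decide +kernel) trivial

theorem v2_845 : VW (PX [556,561] [558,559,560,562]) := VW.of base nl_ok fl_ok .nil
  []
  []
  (by decide +kernel) trivial

theorem w2_865_557 : S (PX [561] [557,559,560,562]) := VW.play 556 (PX [556,561] [557,559,560,562]) (by decide +kernel) v2_863

theorem w2_865_558 : S (PX [561] [558,559,560,562]) := VW.play 556 (PX [556,561] [558,559,560,562]) (by decide +kernel) v2_845

theorem v2_865 : VW (PX [561] [559,560,562]) := VW.of base nl_ok fl_ok .nil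
  [(556, (.cons 557 558 .nil (.cons 558 557 .nil .nil)))]
  [([557], (PX [561] [557,559,560,562])), ([558], (PX [561] [558,559,560,562]))]
  (by decide +kernel) ⟨w2_865_557, w2_865_558, trivial⟩

theorem v2_866 : VW (PX [560] [559,561,562]) := VW.of base nl_ok fl_ok .nil
  [(563, (.cons 564 565 .nil (.cons 565 564 .nil .nil))), (564, (.cons 563 565 .nil (.cons 565 563 .nil .nil))), (565, (.cons 563 564 .nil (.cons 564 563 .nil .nil)))]
  []
  (by decide +kernel) trivial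

theorem w2_867_558 : S (PX [] [558,559,562]) := VW.play 560 (PX [560] [558,559,562]) (by decide +kernel) v2_840

theorem w2_867_560 : S (PX [] [559,560,562]) := VW.play 561 (PX [561] [559,560,562]) (by decide +kernel) v2_865

theorem w2_867_561 : S (PX [] [559,561,562]) := VW.play 560 (PX [560] [559,561,562]) (by decide +kernel) v2_866

theorem v2_867 : VW (PX [] [559,562]) := VW.of base nl_ok fl_ok .nil
  [(563, (.cons 560 561 .nil (.cons 561 560 (.cons 564 565 .nil (.cons 565 564 .nil .nil)) .nil)))]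
  [([558], (PX [] [558,559,562])), ([560], (PX [] [559,560,562])), ([561], (PX [] [559,561,562]))]
  (by decide +kernel) ⟨w2_867_558, w2_867_560, w2_867_561, trivial⟩

theorem v2_868 : VW (PX [559,564] [560,561,562,563]) := VW.of base nl_ok fl_ok .nil
  []
  []
  (by decide +kernel) trivial

theorem v2_869 : VW (PX [559,563] [560,561,562,564]) := VW.of base nl_ok fl_ok .nil
  []
  []
  (by decide +kernel) trivial

theorem w2_870_563 : S (PX [559] [560,561,562,563]) := VW.play 564 (PX [559,564] [560,561,562,563]) (by decide +kernel) v2_868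

theorem w2_870_564 : S (PX [559] [560,561,562,564]) := VW.play 563 (PX [559,563] [560,561,562,564]) (by decide +kernel) v2_869

theorem v2_870 : VW (PX [559] [560,561,562]) := VW.of base nl_ok fl_ok (.cons 563 564 .nil (.cons 564 563 .nil .nil))
  [(565, (.cons 563 564 .nil (.cons 564 563 .nil .nil))), (566, (.cons 563 564 .nil (.cons 564 563 .nil .nil))), (567, (.cons 563 564 .nil (.cons 564 563 .nil .nil)))]
  [([563], (PX [559] [560,561,562,563])), ([564], (PX [559] [560,561,562,564]))]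
  (by decide +kernel) ⟨w2_870_563, w2_870_564, trivial⟩

theorem v2_871 : VW (PX [561] [560,562,563]) := VW.of base nl_ok fl_ok .nil
  [(564, (.cons 565 566 .nil (.cons 566 565 .nil .nil))), (565, (.cons 564 566 .nil (.cons 566 564 .nil .nil))), (566, (.cons 564 565 .nil (.cons 565 564 .nil .nil)))]
  []
  (by decide +kernel) trivial

theorem w2_872_558 : S (PX [] [558,560,562]) := VW.play 559 (PX [559] [558,560,562]) (by decide +kernel) v2_848

theorem w2_872_559 : S (PX [] [559,560,562]) := VW.play 561 (PX [561] [559,560,562]) (by decide +kernel) v2_865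

theorem w2_872_561 : S (PX [] [560,561,562]) := VW.play 559 (PX [559] [560,561,562]) (by decide +kernel) v2_870

theorem w2_872_563 : S (PX [] [560,562,563]) := VW.play 561 (PX [561] [560,562,563]) (by decide +kernel) v2_871

theorem v2_872 : VW (PX [] [560,562]) := VW.of base nl_ok fl_ok .nil
  [(564, (.cons 561 563 (.cons 558 559 .nil (.cons 559 558 .nil .nil)) (.cons 563 561 (.cons 565 566 .nil (.cons 566 565 .nil .nil)) .nil)))]
  [([558], (PX [] [558,560,562])), ([559], (PX [] [559,560,562])), ([561], (PX [] [560,561,562])), ([563], (PX [] [560,562,563]))]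
  (by decide +kernel) ⟨w2_872_558, w2_872_559, w2_872_561, w2_872_563, trivial⟩

theorem v2_873 : VW (PX [560,565] [561,562,563,564]) := VW.of base nl_ok fl_ok .nil
  []
  []
  (by decide +kernel) trivial

theorem v2_874 : VW (PX [560,564] [561,562,563,565]) := VW.of base nl_ok fl_ok .nil
  []
  []
  (by decide +kernel) trivial

theorem w2_875_564 : S (PX [560] [561,562,563,564]) := VW.play 565 (PX [560,565] [561,562,563,564]) (by decide +kernel) v2_873

theorem w2_875_565 : S (PX [560] [561,562,563,565]) := VW.play 564 (PX [560,564] [561,562,563,565]) (by decide +kernel) v2_874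

theorem v2_875 : VW (PX [560] [561,562,563]) := VW.of base nl_ok fl_ok (.cons 564 565 .nil (.cons 565 564 .nil .nil))
  [(566, (.cons 564 565 .nil (.cons 565 564 .nil .nil))), (567, (.cons 564 565 .nil (.cons 565 564 .nil .nil))), (568, (.cons 564 565 .nil (.cons 565 564 .nil .nil)))]
  [([564], (PX [560] [561,562,563,564])), ([565], (PX [560] [561,562,563,565]))]
  (by decide +kernel) ⟨w2_875_564, w2_875_565, trivial⟩

theorem v2_878 : VW (PX [563] [561,562,564]) := VW.of base nl_ok fl_ok .nil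
  [(558, (.cons 559 560 .nil (.cons 560 559 .nil .nil))), (559, (.cons 558 560 .nil (.cons 560 558 .nil .nil))), (560, (.cons 558 559 .nil (.cons 559 558 .nil .nil)))]
  []
  (by decide +kernel) trivial

theorem w2_879_559 : S (PX [] [559,561,562]) := VW.play 560 (PX [560] [559,561,562]) (by decide +kernel) v2_866

theorem w2_879_560 : S (PX [] [560,561,562]) := VW.play 559 (PX [559] [560,561,562]) (by decide +kernel) v2_870

theorem w2_879_563 : S (PX [] [561,562,563]) := VW.play 560 (PX [560] [561,562,563]) (by decide +kernel) v2_875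

theorem w2_879_564 : S (PX [] [561,562,564]) := VW.play 563 (PX [563] [561,562,564]) (by decide +kernel) v2_878

theorem v2_879 : VW (PX [] [561,562]) := VW.of base nl_ok fl_ok .nil
  [(558, (.cons 559 560 .nil (.cons 560 559 (.cons 563 564 .nil (.cons 564 563 .nil .nil)) .nil))), (565, (.cons 563 564 (.cons 559 560 .nil (.cons 560 559 .nil .nil)) (.cons 564 563 .nil .nil)))]
  [([559], (PX [] [559,561,562])), ([560], (PX [] [560,561,562])), ([563], (PX [] [561,562,563])), ([564], (PX [] [561,562,564]))]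
  (by decide +kernel) ⟨w2_879_559, w2_879_560, w2_879_563, w2_879_564, trivial⟩

theorem v2_880 : VW (PX [561,566] [562,563,564,565]) := VW.of base nl_ok fl_ok .nil
  []
  []
  (by decide +kernel) trivial

theorem v2_881 : VW (PX [561,565] [562,563,564,566]) := VW.of base nl_ok fl_ok .nil
  []
  []
  (by decide +kernel) trivial

theorem w2_882_565 : S (PX [561] [562,563,564,565]) := VW.play 566 (PX [561,566] [562,563,564,565]) (by decide +kernel) v2_880

theorem w2_882_566 : S (PX [561] [562,563,564,566]) := VW.play 565 (PX [561,565] [562,563,564,566]) (by decide +kernel) v2_881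

theorem v2_882 : VW (PX [561] [562,563,564]) := VW.of base nl_ok fl_ok (.cons 565 566 .nil (.cons 566 565 .nil .nil))
  [(567, (.cons 565 566 .nil (.cons 566 565 .nil .nil))), (568, (.cons 565 566 .nil (.cons 566 565 .nil .nil))), (569, (.cons 565 566 .nil (.cons 566 565 .nil .nil)))]
  [([565], (PX [561] [562,563,564,565])), ([566], (PX [561] [562,563,564,566]))]
  (by decide +kernel) ⟨w2_882_565, w2_882_566, trivial⟩

theorem v2_885 : VW (PX [564] [562,563,565]) := VW.of base nl_ok fl_ok .nil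
  [(559, (.cons 560 561 .nil (.cons 561 560 .nil .nil))), (560, (.cons 559 561 .nil (.cons 561 559 .nil .nil))), (561, (.cons 559 560 .nil (.cons 560 559 .nil .nil)))]
  []
  (by decide +kernel) trivial

theorem w2_886_560 : S (PX [] [560,562,563]) := VW.play 561 (PX [561] [560,562,563]) (by decide +kernel) v2_871

theorem w2_886_561 : S (PX [] [561,562,563]) := VW.play 560 (PX [560] [561,562,563]) (by decide +kernel) v2_875

theorem w2_886_564 : S (PX [] [562,563,564]) := VW.play 561 (PX [561] [562,563,564]) (by decide +kernel) v2_882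

theorem w2_886_565 : S (PX [] [562,563,565]) := VW.play 564 (PX [564] [562,563,565]) (by decide +kernel) v2_885

theorem v2_886 : VW (PX [] [562,563]) := VW.of base nl_ok fl_ok .nil
  [(559, (.cons 560 561 .nil (.cons 561 560 (.cons 564 565 .nil (.cons 565 564 .nil .nil)) .nil))), (566, (.cons 564 565 (.cons 560 561 .nil (.cons 561 560 .nil .nil)) (.cons 565 564 .nil .nil)))]
  [([560], (PX [] [560,562,563])), ([561], (PX [] [561,562,563])), ([564], (PX [] [562,563,564])), ([565], (PX [] [562,563,565]))]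
  (by decide +kernel) ⟨w2_886_560, w2_886_561, w2_886_564, w2_886_565, trivial⟩

theorem v2_901 : VW (PX [563] [562,564,565]) := VW.of base nl_ok fl_ok .nil
  [(566, (.cons 567 568 .nil (.cons 568 567 .nil .nil))), (567, (.cons 566 568 .nil (.cons 568 566 .nil .nil))), (568, (.cons 566 567 .nil (.cons 567 566 .nil .nil)))]
  []
  (by decide +kernel) trivial

theorem w2_902_561 : S (PX [] [561,562,564]) := VW.play 563 (PX [563] [561,562,564]) (by decide +kernel) v2_878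

theorem w2_902_563 : S (PX [] [562,563,564]) := VW.play 561 (PX [561] [562,563,564]) (by decide +kernel) v2_882

theorem w2_902_565 : S (PX [] [562,564,565]) := VW.play 563 (PX [563] [562,564,565]) (by decide +kernel) v2_901

theorem v2_902 : VW (PX [] [562,564]) := VW.of base nl_ok fl_ok .nil
  [(560, (.cons 561 563 (.cons 558 559 .nil (.cons 559 558 .nil .nil)) (.cons 563 561 (.cons 565 566 .nil (.cons 566 565 .nil .nil)) .nil))), (566, (.cons 563 565 (.cons 560 561 .nil (.cons 561 560 .nil .nil)) (.cons 565 563 (.cons 567 568 .nil (.cons 568 567 .nil .nil)) .nil)))]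
  [([561], (PX [] [561,562,564])), ([563], (PX [] [562,563,564])), ([565], (PX [] [562,564,565]))]
  (by decide +kernel) ⟨w2_902_561, w2_902_563, w2_902_565, trivial⟩

theorem w2_903_563 : S (PX [] [562,563,565]) := VW.play 564 (PX [564] [562,563,565]) (by decide +kernel) v2_885

theorem w2_903_564 : S (PX [] [562,564,565]) := VW.play 563 (PX [563] [562,564,565]) (by decide +kernel) v2_901

theorem v2_903 : VW (PX [] [562,565]) := VW.of base nl_ok fl_ok .nil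
  [(561, (.cons 563 564 (.cons 559 560 .nil (.cons 560 559 .nil .nil)) (.cons 564 563 .nil .nil))), (566, (.cons 563 564 .nil (.cons 564 563 (.cons 567 568 .nil (.cons 568 567 .nil .nil)) .nil)))]
  [([563], (PX [] [562,563,565])), ([564], (PX [] [562,564,565]))]
  (by decide +kernel) ⟨w2_903_563, w2_903_564, trivial⟩

theorem v2_904 : VW (PX [] [562,566]) := VW.of base nl_ok fl_ok .nil
  [(563, (.cons 564 565 (.cons 560 561 .nil (.cons 561 560 .nil .nil)) (.cons 565 564 .nil .nil))), (564, (.cons 563 565 (.cons 560 561 .nil (.cons 561 560 .nil .nil)) (.cons 565 563 (.cons 567 568 .nil (.cons 568 567 .nil .nil)) .nil))), (565, (.cons 563 564 .nil (.cons 564 563 (.cons 567 568 .nil (.cons 568 567 .nil .nil)) .nil)))]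
  []
  (by decide +kernel) trivial

theorem v2_905 : VW (PX [531,686] [562,593,624,655]) := VW.of base nl_ok fl_ok .nil
  []
  []
  (by decide +kernel) trivial

theorem v2_906 : VW (PX [531,655] [562,593,624,686]) := VW.of base nl_ok fl_ok .nil
  []
  []
  (by decide +kernel) trivial

theorem w2_907_655 : S (PX [531] [562,593,624,655]) := VW.play 686 (PX [531,686] [562,593,624,655]) (by decide +kernel) v2_905

theorem w2_907_686 : S (PX [531] [562,593,624,686]) := VW.play 655 (PX [531,655] [562,593,624,686]) (by decide +kernel) v2_906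

theorem v2_907 : VW (PX [531] [562,593,624]) := VW.of base nl_ok fl_ok (.cons 655 686 .nil (.cons 686 655 .nil .nil))
  [(717, (.cons 655 686 .nil (.cons 686 655 .nil .nil))), (748, (.cons 655 686 .nil (.cons 686 655 .nil .nil))), (779, (.cons 655 686 .nil (.cons 686 655 .nil .nil)))]
  [([655], (PX [531] [562,593,624,655])), ([686], (PX [531] [562,593,624,686]))]
  (by decide +kernel) ⟨w2_907_655, w2_907_686, trivial⟩

theorem v2_912 : VW (PX [624] [562,593,655]) := VW.of base nl_ok fl_ok .nil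
  [(469, (.cons 500 531 .nil (.cons 531 500 .nil .nil))), (500, (.cons 469 531 .nil (.cons 531 469 .nil .nil))), (531, (.cons 469 500 .nil (.cons 500 469 .nil .nil)))]
  []
  (by decide +kernel) trivial

theorem w2_924_500 : S (PX [] [500,562,593]) := VW.play 531 (PX [531] [500,562,593]) (by decide +kernel) v2_801

theorem w2_924_531 : S (PX [] [531,562,593]) := VW.play 500 (PX [500] [531,562,593]) (by decide +kernel) v2_816

theorem w2_924_624 : S (PX [] [562,593,624]) := VW.play 531 (PX [531] [562,593,624]) (by decide +kernel) v2_907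

theorem w2_924_655 : S (PX [] [562,593,655]) := VW.play 624 (PX [624] [562,593,655]) (by decide +kernel) v2_912

theorem v2_924 : VW (PX [] [562,593]) := VW.of base nl_ok fl_ok .nil
  [(469, (.cons 500 531 .nil (.cons 531 500 (.cons 624 655 .nil (.cons 655 624 .nil .nil)) .nil))), (686, (.cons 624 655 (.cons 500 531 .nil (.cons 531 500 .nil .nil)) (.cons 655 624 .nil .nil)))]
  [([500], (PX [] [500,562,593])), ([531], (PX [] [531,562,593])), ([624], (PX [] [562,593,624])), ([655], (PX [] [562,593,655]))]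
  (by decide +kernel) ⟨w2_924_500, w2_924_531, w2_924_624, w2_924_655, trivial⟩

theorem v2_925 : VW (PX [530,690] [562,594,626,658]) := VW.of base nl_ok fl_ok .nil
  []
  []
  (by decide +kernel) trivial

theorem v2_926 : VW (PX [530,658] [562,594,626,690]) := VW.of base nl_ok fl_ok .nil
  []
  []
  (by decide +kernel) trivial

theorem w2_927_658 : S (PX [530] [562,594,626,658]) := VW.play 690 (PX [530,690] [562,594,626,658]) (by decide +kernel) v2_925

theorem w2_927_690 : S (PX [530] [562,594,626,690]) := VW.play 658 (PX [530,658] [562,594,626,690]) (by decide +kernel) v2_926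

theorem v2_927 : VW (PX [530] [562,594,626]) := VW.of base nl_ok fl_ok (.cons 658 690 .nil (.cons 690 658 .nil .nil))
  [(722, (.cons 658 690 .nil (.cons 690 658 .nil .nil))), (754, (.cons 658 690 .nil (.cons 690 658 .nil .nil))), (786, (.cons 658 690 .nil (.cons 690 658 .nil .nil)))]
  [([658], (PX [530] [562,594,626,658])), ([690], (PX [530] [562,594,626,690]))]
  (by decide +kernel) ⟨w2_927_658, w2_927_690, trivial⟩

theorem v2_932 : VW (PX [626] [562,594,658]) := VW.of base nl_ok fl_ok .nil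
  [(466, (.cons 498 530 .nil (.cons 530 498 .nil .nil))), (498, (.cons 466 530 .nil (.cons 530 466 .nil .nil))), (530, (.cons 466 498 .nil (.cons 498 466 .nil .nil)))]
  []
  (by decide +kernel) trivial

theorem w2_944_498 : S (PX [] [498,562,594]) := VW.play 530 (PX [530] [498,562,594]) (by decide +kernel) v2_382

theorem w2_944_530 : S (PX [] [530,562,594]) := VW.play 498 (PX [498] [530,562,594]) (by decide +kernel) v2_653

theorem w2_944_626 : S (PX [] [562,594,626]) := VW.play 530 (PX [530] [562,594,626]) (by decide +kernel) v2_927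

theorem w2_944_658 : S (PX [] [562,594,658]) := VW.play 626 (PX [626] [562,594,658]) (by decide +kernel) v2_932

theorem v2_944 : VW (PX [] [562,594]) := VW.of base nl_ok fl_ok .nil
  [(466, (.cons 498 530 .nil (.cons 530 498 (.cons 626 658 .nil (.cons 658 626 .nil .nil)) .nil))), (690, (.cons 626 658 (.cons 498 530 .nil (.cons 530 498 .nil .nil)) (.cons 658 626 .nil .nil)))]
  [([498], (PX [] [498,562,594])), ([530], (PX [] [530,562,594])), ([626], (PX [] [562,594,626])), ([658], (PX [] [562,594,658]))]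
  (by decide +kernel) ⟨w2_944_498, w2_944_530, w2_944_626, w2_944_658, trivial⟩

theorem v2_945 : VW (PX [529,694] [562,595,628,661]) := VW.of base nl_ok fl_ok .nil
  []
  []
  (by decide +kernel) trivial

theorem v2_946 : VW (PX [529,661] [562,595,628,694]) := VW.of base nl_ok fl_ok .nil
  []
  []
  (by decide +kernel) trivial

theorem w2_947_661 : S (PX [529] [562,595,628,661]) := VW.play 694 (PX [529,694] [562,595,628,661]) (by decide +kernel) v2_945

theorem w2_947_694 : S (PX [529] [562,595,628,694]) := VW.play 661 (PX [529,661] [562,595,628,694]) (by decide +kernel) v2_946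

theorem v2_947 : VW (PX [529] [562,595,628]) := VW.of base nl_ok fl_ok (.cons 661 694 .nil (.cons 694 661 .nil .nil))
  [(727, (.cons 661 694 .nil (.cons 694 661 .nil .nil))), (760, (.cons 661 694 .nil (.cons 694 661 .nil .nil))), (793, (.cons 661 694 .nil (.cons 694 661 .nil .nil)))]
  [([661], (PX [529] [562,595,628,661])), ([694], (PX [529] [562,595,628,694]))]
  (by decide +kernel) ⟨w2_947_661, w2_947_694, trivial⟩

theorem v2_950 : VW (PX [628] [562,595,661]) := VW.of base nl_ok fl_ok .nil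
  [(463, (.cons 496 529 .nil (.cons 529 496 .nil .nil))), (496, (.cons 463 529 .nil (.cons 529 463 .nil .nil))), (529, (.cons 463 496 .nil (.cons 496 463 .nil .nil)))]
  []
  (by decide +kernel) trivial

theorem w2_951_496 : S (PX [] [496,562,595]) := VW.play 529 (PX [529] [496,562,595]) (by decide +kernel) v2_774

theorem w2_951_529 : S (PX [] [529,562,595]) := VW.play 496 (PX [496] [529,562,595]) (by decide +kernel) v2_807

theorem w2_951_628 : S (PX [] [562,595,628]) := VW.play 529 (PX [529] [562,595,628]) (by decide +kernel) v2_947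

theorem w2_951_661 : S (PX [] [562,595,661]) := VW.play 628 (PX [628] [562,595,661]) (by decide +kernel) v2_950

theorem v2_951 : VW (PX [] [562,595]) := VW.of base nl_ok fl_ok .nil
  [(463, (.cons 496 529 .nil (.cons 529 496 (.cons 628 661 .nil (.cons 661 628 .nil .nil)) .nil))), (694, (.cons 628 661 (.cons 496 529 .nil (.cons 529 496 .nil .nil)) (.cons 661 628 .nil .nil)))]
  [([496], (PX [] [496,562,595])), ([529], (PX [] [529,562,595])), ([628], (PX [] [562,595,628])), ([661], (PX [] [562,595,661]))]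
  (by decide +kernel) ⟨w2_951_496, w2_951_529, w2_951_628, w2_951_661, trivial⟩

theorem v2_966 : VW (PX [593] [562,624,655]) := VW.of base nl_ok fl_ok .nil
  [(686, (.cons 717 748 .nil (.cons 748 717 .nil .nil))), (717, (.cons 686 748 .nil (.cons 748 686 .nil .nil))), (748, (.cons 686 717 .nil (.cons 717 686 .nil .nil)))]
  []
  (by decide +kernel) trivial

theorem w2_969_531 : S (PX [] [531,562,624]) := VW.play 593 (PX [593] [531,562,624]) (by decide +kernel) v2_821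

theorem w2_969_593 : S (PX [] [562,593,624]) := VW.play 531 (PX [531] [562,593,624]) (by decide +kernel) v2_907

theorem w2_969_655 : S (PX [] [562,624,655]) := VW.play 593 (PX [593] [562,624,655]) (by decide +kernel) v2_966

theorem v2_969 : VW (PX [] [562,624]) := VW.of base nl_ok fl_ok .nil
  [(500, (.cons 531 593 (.cons 438 469 .nil (.cons 469 438 .nil .nil)) (.cons 593 531 (.cons 655 686 .nil (.cons 686 655 .nil .nil)) .nil))), (686, (.cons 593 655 (.cons 500 531 .nil (.cons 531 500 .nil .nil)) (.cons 655 593 (.cons 717 748 .nil (.cons 748 717 .nil .nil)) .nil)))]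
  [([531], (PX [] [531,562,624])), ([593], (PX [] [562,593,624])), ([655], (PX [] [562,624,655]))]
  (by decide +kernel) ⟨w2_969_531, w2_969_593, w2_969_655, trivial⟩

theorem v2_984 : VW (PX [594] [562,626,658]) := VW.of base nl_ok fl_ok .nil
  [(690, (.cons 722 754 .nil (.cons 754 722 .nil .nil))), (722, (.cons 690 754 .nil (.cons 754 690 .nil .nil))), (754, (.cons 690 722 .nil (.cons 722 690 .nil .nil)))]
  []
  (by decide +kernel) trivial

theorem w2_987_530 : S (PX [] [530,562,626]) := VW.play 594 (PX [594] [530,562,626]) (by decide +kernel) v2_658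

theorem w2_987_594 : S (PX [] [562,594,626]) := VW.play 530 (PX [530] [562,594,626]) (by decide +kernel) v2_927

theorem w2_987_658 : S (PX [] [562,626,658]) := VW.play 594 (PX [594] [562,626,658]) (by decide +kernel) v2_984

theorem v2_987 : VW (PX [] [562,626]) := VW.of base nl_ok fl_ok .nil
  [(498, (.cons 530 594 (.cons 434 466 .nil (.cons 466 434 .nil .nil)) (.cons 594 530 (.cons 658 690 .nil (.cons 690 658 .nil .nil)) .nil))), (690, (.cons 594 658 (.cons 498 530 .nil (.cons 530 498 .nil .nil)) (.cons 658 594 (.cons 722 754 .nil (.cons 754 722 .nil .nil)) .nil)))]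
  [([530], (PX [] [530,562,626])), ([594], (PX [] [562,594,626])), ([658], (PX [] [562,626,658]))]
  (by decide +kernel) ⟨w2_987_530, w2_987_594, w2_987_658, trivial⟩

theorem v2_1002 : VW (PX [595] [562,628,661]) := VW.of base nl_ok fl_ok .nil
  [(694, (.cons 727 760 .nil (.cons 760 727 .nil .nil))), (727, (.cons 694 760 .nil (.cons 760 694 .nil .nil))), (760, (.cons 694 727 .nil (.cons 727 694 .nil .nil)))]
  []
  (by decide +kernel) trivial

theorem w2_1003_496 : S (PX [] [496,562,628]) := VW.play 529 (PX [529] [496,562,628]) (by decide +kernel) v2_775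

theorem w2_1003_529 : S (PX [] [529,562,628]) := VW.play 496 (PX [496] [529,562,628]) (by decide +kernel) v2_809

theorem w2_1003_595 : S (PX [] [562,595,628]) := VW.play 529 (PX [529] [562,595,628]) (by decide +kernel) v2_947

theorem w2_1003_661 : S (PX [] [562,628,661]) := VW.play 595 (PX [595] [562,628,661]) (by decide +kernel) v2_1002

theorem v2_1003 : VW (PX [] [562,628]) := VW.of base nl_ok fl_ok .nil
  [(694, (.cons 595 661 (.cons 496 529 .nil (.cons 529 496 .nil .nil)) (.cons 661 595 (.cons 727 760 .nil (.cons 760 727 .nil .nil)) .nil)))]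
  [([496], (PX [] [496,562,628])), ([529], (PX [] [529,562,628])), ([595], (PX [] [562,595,628])), ([661], (PX [] [562,628,661]))]
  (by decide +kernel) ⟨w2_1003_496, w2_1003_529, w2_1003_595, w2_1003_661, trivial⟩

theorem w2_1004_593 : S (PX [] [562,593,655]) := VW.play 624 (PX [624] [562,593,655]) (by decide +kernel) v2_912

theorem w2_1004_624 : S (PX [] [562,624,655]) := VW.play 593 (PX [593] [562,624,655]) (by decide +kernel) v2_966

theorem v2_1004 : VW (PX [] [562,655]) := VW.of base nl_ok fl_ok .nil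
  [(531, (.cons 593 624 (.cons 469 500 .nil (.cons 500 469 .nil .nil)) (.cons 624 593 .nil .nil))), (686, (.cons 593 624 .nil (.cons 624 593 (.cons 717 748 .nil (.cons 748 717 .nil .nil)) .nil)))]
  [([593], (PX [] [562,593,655])), ([624], (PX [] [562,624,655]))]
  (by decide +kernel) ⟨w2_1004_593, w2_1004_624, trivial⟩

theorem w2_1005_594 : S (PX [] [562,594,658]) := VW.play 626 (PX [626] [562,594,658]) (by decide +kernel) v2_932

theorem w2_1005_626 : S (PX [] [562,626,658]) := VW.play 594 (PX [594] [562,626,658]) (by decide +kernel) v2_984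

theorem v2_1005 : VW (PX [] [562,658]) := VW.of base nl_ok fl_ok .nil
  [(530, (.cons 594 626 (.cons 466 498 .nil (.cons 498 466 .nil .nil)) (.cons 626 594 .nil .nil))), (690, (.cons 594 626 .nil (.cons 626 594 (.cons 722 754 .nil (.cons 754 722 .nil .nil)) .nil)))]
  [([594], (PX [] [562,594,658])), ([626], (PX [] [562,626,658]))]
  (by decide +kernel) ⟨w2_1005_594, w2_1005_626, trivial⟩

theorem w2_1006_595 : S (PX [] [562,595,661]) := VW.play 628 (PX [628] [562,595,661]) (by decide +kernel) v2_950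

theorem w2_1006_628 : S (PX [] [562,628,661]) := VW.play 595 (PX [595] [562,628,661]) (by decide +kernel) v2_1002

theorem v2_1006 : VW (PX [] [562,661]) := VW.of base nl_ok fl_ok .nil
  [(529, (.cons 595 628 (.cons 463 496 .nil (.cons 496 463 .nil .nil)) (.cons 628 595 .nil .nil))), (694, (.cons 595 628 .nil (.cons 628 595 (.cons 727 760 .nil (.cons 760 727 .nil .nil)) .nil)))]
  [([595], (PX [] [562,595,661])), ([628], (PX [] [562,628,661]))]
  (by decide +kernel) ⟨w2_1006_595, w2_1006_628, trivial⟩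

theorem v2_1007 : VW (PX [] [562,686]) := VW.of base nl_ok fl_ok .nil
  [(593, (.cons 624 655 (.cons 500 531 .nil (.cons 531 500 .nil .nil)) (.cons 655 624 .nil .nil))), (624, (.cons 593 655 (.cons 500 531 .nil (.cons 531 500 .nil .nil)) (.cons 655 593 (.cons 717 748 .nil (.cons 748 717 .nil .nil)) .nil))), (655, (.cons 593 624 .nil (.cons 624 593 (.cons 717 748 .nil (.cons 748 717 .nil .nil)) .nil)))]
  []
  (by decide +kernel) trivial

theorem v2_1008 : VW (PX [] [562,690]) := VW.of base nl_ok fl_ok .nil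
  [(594, (.cons 626 658 (.cons 498 530 .nil (.cons 530 498 .nil .nil)) (.cons 658 626 .nil .nil))), (626, (.cons 594 658 (.cons 498 530 .nil (.cons 530 498 .nil .nil)) (.cons 658 594 (.cons 722 754 .nil (.cons 754 722 .nil .nil)) .nil))), (658, (.cons 594 626 .nil (.cons 626 594 (.cons 722 754 .nil (.cons 754 722 .nil .nil)) .nil)))]
  []
  (by decide +kernel) trivial

theorem v2_1009 : VW (PX [] [562,694]) := VW.of base nl_ok fl_ok .nil
  [(595, (.cons 628 661 (.cons 496 529 .nil (.cons 529 496 .nil .nil)) (.cons 661 628 .nil .nil))), (628, (.cons 595 661 (.cons 496 529 .nil (.cons 529 496 .nil .nil)) (.cons 661 595 (.cons 727 760 .nil (.cons 760 727 .nil .nil)) .nil))), (661, (.cons 595 628 .nil (.cons 628 595 (.cons 727 760 .nil (.cons 760 727 .nil .nil)) .nil)))]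
  []
  (by decide +kernel) trivial

theorem r430 : S (Nat.lor X2 (bits [562, 430])) := VW.play 394 (PX [] [430,562]) (by decide +kernel) v2_725

theorem r434 : S (Nat.lor X2 (bits [562, 434])) := VW.play 394 (PX [] [434,562]) (by decide +kernel) v2_726

theorem r438 : S (Nat.lor X2 (bits [562, 438])) := VW.play 394 (PX [] [438,562]) (by decide +kernel) v2_727

theorem r463 : S (Nat.lor X2 (bits [562, 463])) := VW.play 394 (PX [] [463,562]) (by decide +kernel) v2_733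

theorem r466 : S (Nat.lor X2 (bits [562, 466])) := VW.play 394 (PX [] [466,562]) (by decide +kernel) v2_734

theorem r469 : S (Nat.lor X2 (bits [562, 469])) := VW.play 394 (PX [] [469,562]) (by decide +kernel) v2_770

theorem r496 : S (Nat.lor X2 (bits [562, 496])) := VW.play 394 (PX [] [496,562]) (by decide +kernel) v2_781

theorem r498 : S (Nat.lor X2 (bits [562, 498])) := VW.play 394 (PX [] [498,562]) (by decide +kernel) v2_385

theorem r500 : S (Nat.lor X2 (bits [562, 500])) := VW.play 394 (PX [] [500,562]) (by decide +kernel) v2_804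

theorem r529 : S (Nat.lor X2 (bits [562, 529])) := VW.play 394 (PX [] [529,562]) (by decide +kernel) v2_813

theorem r530 : S (Nat.lor X2 (bits [562, 530])) := VW.play 394 (PX [] [530,562]) (by decide +kernel) v2_670

theorem r531 : S (Nat.lor X2 (bits [562, 531])) := VW.play 394 (PX [] [531,562]) (by decide +kernel) v2_833

theorem r558 : S (Nat.lor X2 (bits [562, 558])) := VW.play 394 (PX [] [558,562]) (by decide +kernel) v2_862

theorem r559 : S (Nat.lor X2 (bits [562, 559])) := VW.play 394 (PX [] [559,562]) (by decide +kernel) v2_867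

theorem r560 : S (Nat.lor X2 (bits [562, 560])) := VW.play 394 (PX [] [560,562]) (by decide +kernel) v2_872

theorem r561 : S (Nat.lor X2 (bits [562, 561])) := VW.play 394 (PX [] [561,562]) (by decide +kernel) v2_879

theorem r563 : S (Nat.lor X2 (bits [562, 563])) := VW.play 394 (PX [] [562,563]) (by decide +kernel) v2_886

theorem r564 : S (Nat.lor X2 (bits [562, 564])) := VW.play 394 (PX [] [562,564]) (by decide +kernel) v2_902

theorem r565 : S (Nat.lor X2 (bits [562, 565])) := VW.play 394 (PX [] [562,565]) (by decide +kernel) v2_903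

theorem r566 : S (Nat.lor X2 (bits [562, 566])) := VW.play 394 (PX [] [562,566]) (by decide +kernel) v2_904

theorem r593 : S (Nat.lor X2 (bits [562, 593])) := VW.play 394 (PX [] [562,593]) (by decide +kernel) v2_924

theorem r594 : S (Nat.lor X2 (bits [562, 594])) := VW.play 394 (PX [] [562,594]) (by decide +kernel) v2_944

theorem r595 : S (Nat.lor X2 (bits [562, 595])) := VW.play 394 (PX [] [562,595]) (by decide +kernel) v2_951

theorem r624 : S (Nat.lor X2 (bits [562, 624])) := VW.play 394 (PX [] [562,624]) (by decide +kernel) v2_969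

theorem r626 : S (Nat.lor X2 (bits [562, 626])) := VW.play 394 (PX [] [562,626]) (by decide +kernel) v2_987

theorem r628 : S (Nat.lor X2 (bits [562, 628])) := VW.play 394 (PX [] [562,628]) (by decide +kernel) v2_1003

theorem r655 : S (Nat.lor X2 (bits [562, 655])) := VW.play 394 (PX [] [562,655]) (by decide +kernel) v2_1004

theorem r658 : S (Nat.lor X2 (bits [562, 658])) := VW.play 394 (PX [] [562,658]) (by decide +kernel) v2_1005

theorem r661 : S (Nat.lor X2 (bits [562, 661])) := VW.play 394 (PX [] [562,661]) (by decide +kernel) v2_1006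

theorem r686 : S (Nat.lor X2 (bits [562, 686])) := VW.play 394 (PX [] [562,686]) (by decide +kernel) v2_1007

theorem r690 : S (Nat.lor X2 (bits [562, 690])) := VW.play 394 (PX [] [562,690]) (by decide +kernel) v2_1008

theorem r694 : S (Nat.lor X2 (bits [562, 694])) := VW.play 394 (PX [] [562,694]) (by decide +kernel) v2_1009

theorem r332 : S (Nat.lor X2 (bits [562, 332])) := S.of (.q 330 (.a 1 [] (.d 297 2312 264 2345 429)
 (.a 0 [297] (.q 365 (.a 1 [] (.q 427 (.a 1 [] (.d 334 3375 303 3406 458)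
 (.a 1 [303] (.d 458 3406 334 3437 489)
 (.a 0 [334,458] (.q 364 (.a 1 [] (.d 362 361 361 362 366)
 (.a 1 [361] (.d 366 362 362 363 367)
 (.a 0 [362,366] (.q 395 (.a 1 [] (.d 331 1323 299 1355 459)
 (.a 1 [299] (.d 459 1355 331 1387 491)
 (.a 0 [331,459] (.q 333 (.a 1 [] (.d 302 3343 271 3374 426)
 (.a 1 [271] (.d 426 3374 302 3405 457)
 (.a 1 [302] (.r 429 2378 462 (.d 397 1325 301 1357 461))
 .e))))
 .e))))
 .e))))
 .e))))
 (.a 1 [362] (.r 429 2378 462 (.q 397 (.a 1 [] (.d 333 1325 301 1357 461)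
 (.a 1 [301] (.d 461 1357 333 1389 493)
 (.a 0 [333,461] (.q 395 (.a 1 [] (.d 394 393 393 394 398)
 (.a 1 [393] (.d 398 394 394 395 399)
 (.a 0 [394,398] (.q 427 (.a 1 [] (.d 331 1323 299 1355 459)
 (.a 1 [299] (.d 459 1355 331 1387 491)
 (.a 1 [331] (.d 334 3375 303 3406 458)
 .e))))
 .e))))
 .e)))))
 (.a 1 [429] (.q 427 (.a 1 [] (.d 334 3375 303 3406 458)
 (.a 1 [458] (.q 395 (.a 1 [] (.d 331 1323 299 1355 459)
 (.a 1 [299] (.d 459 1355 331 1387 491)
 (.a 0 [331,459] (.q 394 (.a 1 [] (.d 393 392 392 393 397)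
 (.a 1 [392] (.d 397 393 393 394 398)
 (.a 0 [393,397] (.q 362 (.a 1 [] (.d 364 361 361 362 366)
 (.a 1 [361] (.d 298 1290 266 1322 426)
 .e)))
 .e))))
 .e))))
 (.a 1 [334] (.q 362 (.a 1 [] (.d 364 361 361 362 366)
 (.a 1 [366] (.r 361 361 364 (.r 458 3437 489 (.r 394 1354 426 (.d 460 2376 328 2409 493))))
 (.a 0 [361,364] (.q 395 (.a 1 [] (.d 331 1323 299 1355 459)
 (.a 1 [299] (.d 459 1355 331 1387 491)
 (.a 1 [331] (.r 458 3437 489 (.r 394 1354 426 (.d 393 392 392 393 397)))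
 .e))))
 .e))))
 .e))))
 (.a 1 [462] (.q 362 (.a 1 [] (.d 364 361 361 362 366)
 (.a 1 [364] (.q 394 (.a 1 [] (.d 298 1290 266 1322 426)
 (.a 1 [266] (.d 426 1322 298 1354 458)
 (.a 1 [298] (.r 458 1354 426 (.d 427 3406 334 3437 489))
 (.a 0 [426] (.q 395 (.a 1 [] (.d 393 392 392 393 397)
 (.a 1 [392] (.d 397 393 393 394 398)
 (.a 0 [393,397] (.q 427 (.a 1 [] (.d 331 1323 299 1355 459)
 (.a 1 [299] (.d 459 1355 331 1387 491)
 (.a 1 [331] (.d 334 3375 303 3406 458)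
 .e))))
 .e))))
 .e)))))
 (.a 1 [361] (.q 394 (.a 1 [] (.d 298 1290 266 1322 426)
 (.a 1 [266] (.d 426 1322 298 1354 458)
 (.a 1 [298] (.r 458 1354 426 (.d 427 3406 334 3437 489))
 (.a 0 [426] (.q 395 (.a 1 [] (.d 393 392 392 393 397)
 (.a 1 [392] (.d 397 393 393 394 398)
 (.a 0 [393,397] (.q 329 (.a 1 [] (.d 296 2311 263 2344 428)
 (.a 1 [263] (.d 428 2344 296 2377 461)
 (.a 0 [296,428] (.q 427 (.a 1 [] (.d 331 1323 299 1355 459)
 (.a 1 [299] (.d 458 3406 334 3437 489)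
 .e)))
 .e))))
 .e))))
 .e)))))
 .e))))
 (.a 1 [334] (.q 362 (.a 1 [] (.d 364 361 361 362 366)
 (.a 1 [364] (.q 394 (.a 1 [] (.d 298 1290 266 1322 426)
 (.a 1 [266] (.d 426 1322 298 1354 458)
 (.a 0 [298,426] (.q 397 (.a 1 [] (.d 395 393 393 394 398)
 (.a 1 [393] (.r 429 2378 462 (.d 461 1357 333 1389 493))
 .e)))
 .e))))
 (.a 1 [361] (.q 394 (.a 1 [] (.d 298 1290 266 1322 426)
 (.a 1 [266] (.d 426 1322 298 1354 458)
 (.a 0 [298,426] (.q 397 (.a 1 [] (.d 395 393 393 394 398)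
 (.a 1 [393] (.r 429 2378 462 (.d 461 1357 333 1389 493))
 .e)))
 .e))))
 (.a 1 [366] (.q 394 (.a 1 [] (.d 298 1290 266 1322 426)
 (.a 1 [266] (.d 426 1322 298 1354 458)
 (.a 1 [298] (.r 361 361 364 (.r 458 1354 426 (.r 427 3437 489 (.d 460 2376 328 2409 493))))
 (.a 0 [426] (.q 395 (.a 1 [] (.d 393 392 392 393 397)
 (.a 1 [392] (.d 397 393 393 394 398)
 (.a 1 [397] (.r 361 361 364 (.r 392 392 393 (.d 423 3371 299 3402 454)))
 (.a 0 [393] (.q 427 (.a 1 [] (.d 331 1323 299 1355 459)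
 (.a 1 [299] (.d 459 1355 331 1387 491)
 (.a 1 [331] (.r 361 361 364 (.d 460 2376 328 2409 493))
 .e))))
 .e)))))
 .e)))))
 .e)))))
 (.a 1 [366] (.q 427 (.a 1 [] (.d 334 3375 303 3406 458)
 (.a 1 [334] (.r 429 2378 462 (.q 430 (.a 1 [] (.d 428 426 426 427 431)
 (.a 0 [426,428,431] (.q 331 (.a 1 [] (.d 395 1323 299 1355 459)
 (.a 0 [299,395,459] (.q 397 (.a 1 [] (.d 333 1325 301 1357 461)
 (.a 1 [301] (.d 461 1357 333 1389 493)
 (.a 1 [333] (.d 364 2346 298 2379 463)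
 .e))))
 .e)))
 .e))))
 (.a 1 [458] (.q 395 (.a 1 [] (.d 331 1323 299 1355 459)
 (.a 1 [299] (.d 459 1355 331 1387 491)
 (.a 0 [331,459] (.q 397 (.a 1 [] (.d 394 393 393 394 398)
 (.a 1 [393] (.d 398 394 394 395 399)
 (.a 1 [394] (.r 429 2378 462 (.d 461 1357 333 1389 493))
 .e))))
 .e))))
 .e))))
 (.a 1 [395] (.r 429 2378 462 (.q 364 (.a 1 [] (.d 362 361 361 362 366)
 (.a 1 [362] (.q 427 (.a 1 [] (.d 334 3375 303 3406 458)
 (.a 1 [303] (.d 458 3406 334 3437 489)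
 (.a 0 [334,458] (.q 460 (.a 1 [] (.r 428 1388 492 (.d 430 426 426 427 431))
 (.a 1 [426] (.r 367 363 366 (.d 398 3408 336 3439 491))
 .e)))
 .e))))
 (.a 1 [366] (.q 397 (.a 1 [] (.d 333 1325 301 1357 461)
 (.a 1 [301] (.d 461 1357 333 1389 493)
 (.a 0 [333,461] (.q 298 (.a 1 [] (.d 331 2313 265 2346 430)
 (.a 1 [265] (.r 362 361 361 (.d 394 1290 266 1322 426))
 .e)))
 .e))))
 .e)))))
 (.a 0 [397] (.q 427 (.a 1 [] (.d 334 3375 303 3406 458)
 (.a 0 [458] (.r 429 2378 462 (.q 395 (.a 1 [] (.d 331 1323 299 1355 459)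
 (.a 0 [459] (.q 428 (.a 1 [] (.d 426 425 425 426 430)
 (.a 1 [460] (.q 461 (.a 1 [] (.d 426 425 425 426 430)
 (.a 1 [457] (.q 456 (.a 1 [] (.d 426 425 425 426 430)
 (.a 1 [430] (.d 362 2377 329 2410 494)
 .e)))
 (.a 1 [456] (.q 457 (.a 1 [] (.d 426 425 425 426 430)
 (.a 1 [426] (.d 362 2377 329 2410 494)
 .e)))
 (.a 1 [426] (.d 362 2377 329 2410 494)
 .e)))))
 (.a 1 [426] (.q 362 (.a 1 [] (.d 364 361 361 362 366)
 (.a 1 [361] (.d 461 2377 329 2410 494)
 (.a 0 [461] (.q 460 (.a 1 [] (.d 364 361 361 362 366)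
 (.a 1 [361] (.d 364 362 366 1388 492)
 (.a 1 [366] (.d 492 1388 364 1420 524)
 (.a 0 [364] (.q 361 (.a 1 [] (.d 394 2376 328 2409 493)
 (.a 1 [328] (.r 299 1323 331 (.d 392 3340 268 3371 423))
 .e)))
 .e)))))
 .e))))
 (.a 1 [430] (.q 362 (.a 1 [] (.d 364 361 361 362 366)
 (.a 1 [361] (.d 461 2377 329 2410 494)
 (.a 0 [461] (.q 460 (.a 1 [] (.d 364 361 361 362 366)
 (.a 1 [361] (.d 364 362 366 1388 492)
 (.a 1 [364] (.r 426 425 425 (.r 394 1322 298 (.r 331 1323 299 (.d 361 2376 328 2409 493))))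
 .e))))
 .e))))
 (.a 1 [461] (.q 460 (.a 1 [] (.d 426 425 425 426 430)
 (.a 1 [425] (.d 430 426 426 427 431)
 (.a 1 [426] (.d 492 1388 364 1420 524)
 .e))))
 (.a 1 [425] (.d 430 426 426 427 431)
 .e)))))))
 (.a 1 [331] (.q 364 (.a 1 [] (.d 362 361 361 362 366)
 (.a 1 [361] (.d 366 362 362 363 367)
 (.a 0 [362,366] (.q 426 (.a 1 [] (.d 428 425 425 426 430)
 (.a 1 [425] (.d 457 3405 333 3436 488)
 .e)))
 .e))))
 .e)))))
 (.a 1 [334] (.q 331 (.a 1 [] (.d 395 1323 299 1355 459)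
 (.a 0 [299,395,459] (.q 362 (.a 1 [] (.d 364 361 361 362 366)
 (.a 1 [366] (.r 361 361 364 (.r 458 3437 489 (.r 394 1354 426 (.d 460 2376 328 2409 493))))
 (.a 0 [361,364] (.q 426 (.a 1 [] (.d 458 1354 394 3437 489)
 (.a 1 [394] (.r 429 2378 462 (.d 428 425 425 426 430))
 .e)))
 .e))))
 .e)))
 .e))))
 (.a 0 [333] (.r 429 2378 462 (.q 364 (.a 1 [] (.d 362 361 361 362 366)
 (.a 1 [362] (.r 367 363 366 (.q 334 (.a 1 [] (.d 303 3344 272 3375 427)
 (.a 1 [427] (.q 398 (.a 1 [] (.d 336 3377 305 3408 460)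
 (.a 1 [305] (.d 460 3408 336 3439 491)
 (.a 0 [336,460] (.q 400 (.a 1 [] (.d 301 2316 268 2349 433)
 (.a 1 [268] (.d 433 2349 301 2382 466)
 (.a 1 [301] (.r 399 396 397 (.r 303 3344 272 (.d 335 1295 271 1327 431)))
 .e))))
 .e))))
 (.a 1 [303] (.q 428 (.a 1 [] (.r 427 3406 458 (.d 430 426 426 427 431))
 (.a 1 [426] (.r 460 1388 492 (.d 398 3408 336 3439 491))
 .e)))
 .e)))))
 (.a 1 [366] (.r 361 361 362 (.q 299 (.a 1 [] (.d 268 3309 237 3340 392)
 (.a 1 [237] (.d 392 3340 268 3371 423)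
 (.a 0 [268,392] (.q 331 (.a 1 [] (.d 267 1259 235 1291 395)
 (.a 1 [235] (.d 395 1291 267 1323 427)
 (.a 1 [267] (.r 427 1323 395 (.d 458 3406 334 3437 489))
 (.a 0 [395] (.q 430 (.a 1 [] (.d 397 2346 298 2379 463)
 (.a 0 [298,397,463] (.q 427 (.a 1 [] (.d 428 426 426 427 431)
 (.a 1 [426] (.d 458 3406 334 3437 489)
 .e)))
 .e)))
 .e)))))
 .e)))))
 (.a 1 [361] (.d 366 362 362 363 367)
 .e))))))
 (.a 0 [398] (.r 429 2378 462 (.q 427 (.a 1 [] (.d 334 3375 303 3406 458)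
 (.a 1 [458] (.q 395 (.a 1 [] (.d 331 1323 299 1355 459)
 (.a 1 [459] (.q 461 (.a 1 [] (.d 397 1357 333 1389 493)
 (.a 0 [333,397,493] (.q 428 (.a 1 [] (.d 426 425 425 426 430)
 (.a 1 [425] (.d 430 426 426 427 431)
 (.a 1 [426] (.d 362 2377 329 2410 494)
 .e))))
 .e)))
 (.a 1 [331] (.q 362 (.a 1 [] (.d 364 361 361 362 366)
 (.a 0 [361,364,366] (.q 430 (.a 1 [] (.d 428 426 426 427 431)
 (.a 1 [426] (.r 428 427 431 (.d 461 2377 329 2410 494))
 (.a 1 [431] (.r 428 426 426 (.d 461 2377 329 2410 494))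
 (.a 0 [428] (.q 397 (.a 1 [] (.d 333 1325 301 1357 461)
 (.a 1 [301] (.d 461 1357 333 1389 493)
 (.a 1 [333] (.r 394 393 393 (.d 298 1290 266 1322 426))
 .e))))
 .e)))))
 .e)))
 .e))))
 (.a 1 [334] (.q 430 (.a 1 [] (.d 428 426 426 427 431)
 (.a 0 [426,428,431] (.q 331 (.a 1 [] (.d 395 1323 299 1355 459)
 (.a 0 [299,395,459] (.q 364 (.a 1 [] (.d 362 361 361 362 366)
 (.a 1 [361] (.d 366 362 362 363 367)
 (.a 1 [362] (.d 397 2346 298 2379 463)
 .e))))
 .e)))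
 .e)))
 .e)))))
 (.a 1 [301] (.r 429 2378 462 (.q 427 (.a 1 [] (.d 334 3375 303 3406 458)
 (.a 1 [334] (.q 362 (.a 1 [] (.d 364 361 361 362 366)
 (.a 1 [361] (.r 458 3437 489 (.r 426 1354 394 (.d 428 425 425 426 430)))
 .e)))
 (.a 1 [458] (.q 395 (.a 1 [] (.d 331 1323 299 1355 459)
 (.a 1 [299] (.d 459 1355 331 1387 491)
 (.a 0 [331,459] (.q 461 (.a 1 [] (.d 397 1357 333 1389 493)
 (.a 1 [333] (.r 397 1389 493 (.d 398 394 394 395 399))
 (.a 1 [493] (.r 397 1357 333 (.d 398 394 394 395 399))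
 (.a 0 [397] (.q 428 (.a 1 [] (.d 426 425 425 426 430)
 (.a 1 [425] (.d 430 426 426 427 431)
 (.a 1 [426] (.d 362 2377 329 2410 494)
 .e))))
 .e)))))
 .e))))
 .e)))))
 (.a 1 [426] (.r 429 2378 462 (.q 397 (.a 1 [] (.d 333 1325 301 1357 461)
 (.a 1 [301] (.d 461 1357 333 1389 493)
 (.a 0 [333,461] (.q 395 (.a 1 [] (.d 394 393 393 394 398)
 (.a 1 [393] (.d 398 394 394 395 399)
 (.a 0 [394,398] (.q 427 (.a 1 [] (.d 331 1323 299 1355 459)
 (.a 1 [299] (.d 459 1355 331 1387 491)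
 (.a 1 [331] (.d 334 3375 303 3406 458)
 .e))))
 .e))))
 .e)))))
 (.a 1 [300] (.r 429 2378 462 (.q 427 (.a 1 [] (.d 334 3375 303 3406 458)
 (.a 1 [458] (.q 397 (.a 1 [] (.d 333 1325 301 1357 461)
 (.a 1 [301] (.d 461 1357 333 1389 493)
 (.a 0 [333,461] (.q 459 (.a 1 [] (.d 395 1355 331 1387 491)
 (.a 1 [331] (.r 395 1387 491 (.d 398 394 394 395 399))
 (.a 1 [491] (.r 395 1355 331 (.d 398 394 394 395 399))
 (.a 0 [395] (.q 428 (.a 1 [] (.d 426 425 425 426 430)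
 (.a 1 [425] (.d 430 426 426 427 431)
 (.a 1 [426] (.d 366 3407 335 3438 490)
 .e))))
 .e)))))
 .e))))
 (.a 1 [334] (.q 362 (.a 1 [] (.d 364 361 361 362 366)
 (.a 1 [361] (.r 458 3437 489 (.r 426 1354 394 (.d 428 425 425 426 430)))
 .e)))
 .e)))))
 (.a 1 [430] (.r 429 2378 462 (.q 427 (.a 1 [] (.d 334 3375 303 3406 458)
 (.a 1 [334] (.q 366 (.a 1 [] (.d 364 362 362 363 367)
 (.a 0 [362,364,367] (.q 397 (.a 1 [] (.d 333 1325 301 1357 461)
 (.a 1 [301] (.d 461 1357 333 1389 493)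
 (.a 0 [333,461] (.q 335 (.a 1 [] (.d 304 3345 273 3376 428)
 (.a 1 [273] (.d 428 3376 304 3407 459)
 (.a 1 [304] (.r 459 3407 428 (.d 395 1355 331 1387 491))
 (.a 0 [428] (.q 395 (.a 1 [] (.d 394 393 393 394 398)
 (.a 1 [393] (.d 398 394 394 395 399)
 (.a 1 [394] (.d 331 1323 299 1355 459)
 .e))))
 .e)))))
 .e))))
 .e)))
 (.a 1 [458] (.q 397 (.a 1 [] (.d 333 1325 301 1357 461)
 (.a 1 [301] (.d 461 1357 333 1389 493)
 (.a 0 [333,461] (.q 459 (.a 1 [] (.d 395 1355 331 1387 491)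
 (.a 1 [331] (.r 395 1387 491 (.d 398 394 394 395 399))
 (.a 1 [491] (.r 395 1355 331 (.d 398 394 394 395 399))
 (.a 0 [395] (.q 366 (.a 1 [] (.d 364 362 362 363 367)
 (.a 1 [362] (.d 428 3407 335 3438 490)
 .e)))
 .e)))))
 .e))))
 .e)))))
 (.a 1 [427] (.q 362 (.a 1 [] (.d 364 361 361 362 366)
 (.a 0 [361,364,366] (.q 394 (.a 1 [] (.d 298 1290 266 1322 426)
 (.a 1 [266] (.d 426 1322 298 1354 458)
 (.a 0 [298,426] (.q 397 (.a 1 [] (.d 395 393 393 394 398)
 (.a 1 [393] (.r 429 2378 462 (.d 461 1357 333 1389 493))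
 .e)))
 .e))))
 .e)))
 (.a 1 [361] (.q 427 (.a 1 [] (.d 334 3375 303 3406 458)
 (.a 1 [303] (.d 458 3406 334 3437 489)
 (.a 0 [334,458] (.q 331 (.a 1 [] (.d 395 1323 299 1355 459)
 (.a 0 [299,395,459] (.q 364 (.a 1 [] (.d 366 362 362 363 367)
 (.a 0 [362,366,367] (.q 430 (.a 1 [] (.d 397 2346 298 2379 463)
 (.a 1 [298] (.r 429 2378 462 (.d 428 426 426 427 431))
 .e)))
 .e)))
 .e)))
 .e))))
 (.a 1 [458] (.q 362 (.a 1 [] (.d 364 361 361 362 366)
 (.a 0 [361,364,366] (.q 394 (.a 1 [] (.d 298 1290 266 1322 426)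
 (.a 0 [266,298,426] (.q 397 (.a 1 [] (.d 395 393 393 394 398)
 (.a 1 [393] (.r 429 2378 462 (.d 461 1357 333 1389 493))
 .e)))
 .e)))
 .e)))
 (.a 1 [299] (.q 364 (.a 1 [] (.d 362 361 361 362 366)
 (.a 1 [361] (.d 366 362 362 363 367)
 (.a 0 [362,366] (.q 427 (.a 1 [] (.d 334 3375 303 3406 458)
 (.a 1 [303] (.d 458 3406 334 3437 489)
 (.a 0 [334,458] (.q 395 (.a 1 [] (.d 459 1355 331 1387 491)
 (.a 0 [331,459,491] (.q 333 (.a 1 [] (.d 302 3343 271 3374 426)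
 (.a 1 [271] (.d 426 3374 302 3405 457)
 (.a 1 [302] (.r 429 2378 462 (.d 397 1325 301 1357 461))
 .e))))
 .e)))
 .e))))
 .e))))
 (.a 1 [394] (.q 334 (.a 1 [] (.d 303 3344 272 3375 427)
 (.a 1 [272] (.d 427 3375 303 3406 458)
 (.a 0 [303,427] (.q 366 (.a 1 [] (.d 364 362 362 363 367)
 (.a 0 [362,364,367] (.q 398 (.a 1 [] (.d 462 2378 429 1358 430)
 (.a 1 [429] (.d 430 1326 302 1358 462)
 (.a 1 [462] (.d 302 1294 270 1326 430)
 (.a 0 [430] (.q 397 (.a 1 [] (.d 399 395 395 396 400)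
 (.a 1 [395] (.r 429 2378 462 (.d 461 1357 333 1389 493))
 .e)))
 .e)))))
 .e)))
 .e))))
 (.a 1 [329] (.q 427 (.a 1 [] (.d 334 3375 303 3406 458)
 (.a 1 [303] (.d 458 3406 334 3437 489)
 (.a 0 [334,458] (.q 364 (.a 1 [] (.d 362 361 361 362 366)
 (.a 1 [361] (.d 366 362 362 363 367)
 (.a 0 [362,366] (.q 395 (.a 1 [] (.d 331 1323 299 1355 459)
 (.a 1 [299] (.d 459 1355 331 1387 491)
 (.a 0 [331,459] (.q 333 (.a 1 [] (.d 302 3343 271 3374 426)
 (.a 1 [271] (.d 426 3374 302 3405 457)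
 (.a 1 [302] (.r 429 2378 462 (.d 397 1325 301 1357 461))
 .e))))
 .e))))
 .e))))
 .e))))
 (.a 1 [393] (.q 427 (.a 1 [] (.d 334 3375 303 3406 458)
 (.a 1 [303] (.d 458 3406 334 3437 489)
 (.a 0 [334,458] (.q 364 (.a 1 [] (.d 362 361 361 362 366)
 (.a 1 [361] (.d 366 362 362 363 367)
 (.a 0 [362,366] (.q 331 (.a 1 [] (.d 395 1323 299 1355 459)
 (.a 0 [299,395,459] (.q 430 (.a 1 [] (.d 397 2346 298 2379 463)
 (.a 1 [298] (.r 429 2378 462 (.d 428 426 426 427 431))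
 .e)))
 .e)))
 .e))))
 .e))))
 (.a 1 [459] (.q 334 (.a 1 [] (.d 303 3344 272 3375 427)
 (.a 1 [272] (.d 427 3375 303 3406 458)
 (.a 0 [303,427] (.q 366 (.a 1 [] (.d 364 362 362 363 367)
 (.a 0 [362,364,367] (.q 398 (.a 1 [] (.d 462 2378 429 1358 430)
 (.a 1 [429] (.d 430 1326 302 1358 462)
 (.a 1 [462] (.d 302 1294 270 1326 430)
 (.a 0 [430] (.q 397 (.a 1 [] (.d 395 394 394 395 399)
 (.a 1 [394] (.d 399 395 395 396 400)
 (.a 1 [395] (.r 429 2378 462 (.d 461 1357 333 1389 493))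
 .e))))
 .e)))))
 .e)))
 .e))))
 (.a 1 [461] (.q 427 (.a 1 [] (.d 334 3375 303 3406 458)
 (.a 1 [303] (.d 458 3406 334 3437 489)
 (.a 0 [334,458] (.q 362 (.a 1 [] (.d 364 361 361 362 366)
 (.a 0 [361,364,366] (.q 394 (.a 1 [] (.d 298 1290 266 1322 426)
 (.a 0 [266,298,426] (.q 395 (.a 1 [] (.d 393 392 392 393 397)
 (.a 1 [392] (.d 397 393 393 394 398)
 (.a 1 [393] (.d 331 1323 299 1355 459)
 .e))))
 .e)))
 .e)))
 .e))))
 (.a 1 [296] (.q 427 (.a 1 [] (.d 334 3375 303 3406 458)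
 (.a 1 [303] (.d 458 3406 334 3437 489)
 (.a 0 [334,458] (.q 364 (.a 1 [] (.d 362 361 361 362 366)
 (.a 1 [361] (.d 366 362 362 363 367)
 (.a 0 [362,366] (.q 395 (.a 1 [] (.d 331 1323 299 1355 459)
 (.a 1 [299] (.d 459 1355 331 1387 491)
 (.a 0 [331,459] (.q 333 (.a 1 [] (.d 302 3343 271 3374 426)
 (.a 1 [271] (.d 426 3374 302 3405 457)
 (.a 1 [302] (.r 429 2378 462 (.d 397 1325 301 1357 461))
 .e))))
 .e))))
 .e))))
 .e))))
 (.a 1 [425] (.q 427 (.a 1 [] (.d 334 3375 303 3406 458)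
 (.a 1 [303] (.d 458 3406 334 3437 489)
 (.a 0 [334,458] (.q 364 (.a 1 [] (.d 362 361 361 362 366)
 (.a 1 [361] (.d 366 362 362 363 367)
 (.a 0 [362,366] (.q 395 (.a 1 [] (.d 331 1323 299 1355 459)
 (.a 1 [299] (.d 459 1355 331 1387 491)
 (.a 0 [331,459] (.q 333 (.a 1 [] (.d 302 3343 271 3374 426)
 (.a 1 [271] (.d 426 3374 302 3405 457)
 (.a 1 [302] (.r 429 2378 462 (.d 397 1325 301 1357 461))
 .e))))
 .e))))
 .e))))
 .e))))
 (.a 1 [295] (.q 427 (.a 1 [] (.d 334 3375 303 3406 458)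
 (.a 1 [303] (.d 458 3406 334 3437 489)
 (.a 0 [334,458] (.q 364 (.a 1 [] (.d 362 361 361 362 366)
 (.a 1 [361] (.d 366 362 362 363 367)
 (.a 0 [362,366] (.q 395 (.a 1 [] (.d 331 1323 299 1355 459)
 (.a 1 [299] (.d 459 1355 331 1387 491)
 (.a 0 [331,459] (.q 333 (.a 1 [] (.d 302 3343 271 3374 426)
 (.a 1 [271] (.d 426 3374 302 3405 457)
 (.a 1 [302] (.r 429 2378 462 (.d 397 1325 301 1357 461))
 .e))))
 .e))))
 .e))))
 .e))))
 .e)))))))))))))))))))))))))))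
 (.a 0 [429] (.q 299 (.a 1 [] (.q 361 (.a 1 [] (.d 268 3309 237 3340 392)
 (.a 1 [237] (.d 392 3340 268 3371 423)
 (.a 0 [268,392] (.q 331 (.a 1 [] (.d 267 1259 235 1291 395)
 (.a 1 [235] (.d 395 1291 267 1323 427)
 (.a 0 [267,395] (.q 362 (.a 1 [] (.d 360 359 359 360 364)
 (.a 1 [359] (.d 364 360 360 361 365)
 (.a 0 [360,364] (.q 300 (.a 1 [] (.d 269 3310 238 3341 393)
 (.a 1 [238] (.d 393 3341 269 3372 424)
 (.a 1 [269] (.r 297 2312 264 (.d 298 296 296 297 301))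
 .e))))
 .e))))
 .e))))
 .e))))
 (.a 1 [395] (.r 297 2312 264 (.q 298 (.a 1 [] (.d 296 295 295 296 300)
 (.a 1 [295] (.d 300 296 296 297 301)
 (.a 0 [296,300] (.q 362 (.a 1 [] (.d 266 1258 234 1290 394)
 (.a 1 [234] (.d 394 1290 266 1322 426)
 (.a 0 [266,394] (.q 361 (.a 1 [] (.d 360 359 359 360 364)
 (.a 1 [359] (.d 364 360 360 361 365)
 (.a 1 [360] (.d 268 3309 237 3340 392)
 .e))))
 .e))))
 .e)))))
 (.a 1 [297] (.q 361 (.a 1 [] (.d 268 3309 237 3340 392)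
 (.a 1 [392] (.q 362 (.a 1 [] (.d 360 359 359 360 364)
 (.a 1 [359] (.d 364 360 360 361 365)
 (.a 0 [360,364] (.q 394 (.a 1 [] (.d 298 1290 266 1322 426)
 (.a 1 [266] (.d 426 1322 298 1354 458)
 (.a 0 [298,426] (.q 395 (.a 1 [] (.d 397 393 393 394 398)
 (.a 1 [393] (.d 331 1291 267 1323 427)
 .e)))
 .e))))
 .e))))
 (.a 1 [268] (.q 395 (.a 1 [] (.d 331 1291 267 1323 427)
 (.a 1 [267] (.r 427 1323 331 (.r 392 3371 423 (.r 394 392 393 (.d 460 2376 328 2409 493))))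
 (.a 0 [331,427] (.q 362 (.a 1 [] (.d 360 359 359 360 364)
 (.a 1 [359] (.d 364 360 360 361 365)
 (.a 1 [360] (.r 392 3371 423 (.r 394 392 393 (.d 426 1322 298 1354 458)))
 .e))))
 .e))))
 .e))))
 (.a 1 [264] (.q 395 (.a 1 [] (.d 331 1291 267 1323 427)
 (.a 1 [267] (.r 427 1323 331 (.q 394 (.a 1 [] (.d 393 392 392 393 397)
 (.a 1 [392] (.d 397 393 393 394 398)
 (.a 1 [397] (.r 392 392 393 (.d 361 3340 268 3371 423))
 (.a 0 [393] (.q 361 (.a 1 [] (.d 328 2343 295 2376 460)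
 (.a 1 [295] (.d 460 2376 328 2409 493)
 (.a 1 [328] (.d 268 3309 237 3340 392)
 .e))))
 .e))))))
 (.a 1 [331] (.q 394 (.a 1 [] (.d 393 392 392 393 397)
 (.a 1 [392] (.d 397 393 393 394 398)
 (.a 1 [397] (.r 392 392 393 (.d 361 3340 268 3371 423))
 (.a 0 [393] (.q 362 (.a 1 [] (.d 298 1290 266 1322 426)
 (.a 1 [266] (.d 426 1322 298 1354 458)
 (.a 0 [298,426] (.q 361 (.a 1 [] (.d 360 359 359 360 364)
 (.a 1 [359] (.d 364 360 360 361 365)
 (.a 1 [360] (.d 268 3309 237 3340 392)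
 .e))))
 .e))))
 .e)))))
 (.a 1 [427] (.q 394 (.a 1 [] (.d 393 392 392 393 397)
 (.a 1 [392] (.d 397 393 393 394 398)
 (.a 1 [397] (.r 392 392 393 (.d 361 3340 268 3371 423))
 (.a 0 [393] (.q 362 (.a 1 [] (.d 298 1290 266 1322 426)
 (.a 1 [266] (.d 426 1322 298 1354 458)
 (.a 0 [298,426] (.q 428 (.a 1 [] (.d 329 2344 296 2377 461)
 (.a 1 [296] (.d 461 2377 329 2410 494)
 (.a 0 [329,461] (.q 361 (.a 1 [] (.d 360 359 359 360 364)
 (.a 1 [359] (.d 364 360 360 361 365)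
 (.a 1 [360] (.d 268 3309 237 3340 392)
 .e))))
 .e))))
 .e))))
 .e)))))
 .e)))))
 (.a 1 [268] (.q 331 (.a 1 [] (.d 267 1259 235 1291 395)
 (.a 1 [395] (.r 297 2312 264 (.q 298 (.a 1 [] (.d 296 295 295 296 300)
 (.a 1 [295] (.d 300 296 296 297 301)
 (.a 0 [296,300] (.r 267 1259 235 (.q 236 (.a 1 [] (.d 205 3246 174 3277 329)
 (.a 1 [174] (.d 329 3277 205 3308 360)
 (.a 0 [205,329] (.q 362 (.a 1 [] (.d 266 1258 234 1290 394)
 (.a 1 [234] (.d 394 1290 266 1322 426)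
 (.a 0 [266,394] (.q 364 (.a 1 [] (.d 361 360 360 361 365)
 (.a 1 [360] (.d 365 361 361 362 366)
 (.a 1 [361] (.d 265 2280 232 2313 397)
 .e))))
 .e))))
 .e)))))
 .e)))))
 (.a 1 [267] (.r 427 1323 395 (.q 365 (.a 1 [] (.d 334 3375 303 3406 458)
 (.a 1 [303] (.d 458 3406 334 3437 489)
 (.a 0 [334,458] (.q 362 (.a 1 [] (.d 364 361 361 362 366)
 (.a 0 [361,364,366] (.q 300 (.a 1 [] (.d 269 3310 238 3341 393)
 (.a 1 [238] (.d 393 3341 269 3372 424)
 (.a 1 [269] (.r 297 2312 264 (.d 298 296 296 297 301))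
 .e))))
 .e)))
 .e)))))
 (.a 1 [235] (.d 395 1291 267 1323 427)
 .e)))))
 (.a 1 [267] (.q 361 (.a 1 [] (.d 268 3309 237 3340 392)
 (.a 1 [268] (.r 297 2312 264 (.q 265 (.a 1 [] (.d 329 1257 233 1289 393)
 (.a 0 [233,329,393] (.q 364 (.a 1 [] (.d 362 360 360 361 365)
 (.a 0 [360,362,365] (.q 298 (.a 1 [] (.d 296 295 295 296 300)
 (.a 1 [295] (.d 300 296 296 297 301)
 (.a 1 [296] (.d 331 2280 232 2313 397)
 .e))))
 .e)))
 .e))))
 (.a 1 [392] (.q 362 (.a 1 [] (.d 360 359 359 360 364)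
 (.a 1 [359] (.d 364 360 360 361 365)
 (.a 0 [360,364] (.q 298 (.a 1 [] (.d 266 1258 234 1290 394)
 (.a 1 [234] (.d 394 1290 266 1322 426)
 (.a 1 [266] (.r 297 2312 264 (.d 300 296 296 297 301))
 .e))))
 .e))))
 .e))))
 (.a 1 [298] (.q 331 (.a 1 [] (.d 267 1259 235 1291 395)
 (.a 1 [395] (.q 361 (.a 1 [] (.d 268 3309 237 3340 392)
 (.a 1 [237] (.d 392 3340 268 3371 423)
 (.a 0 [268,392] (.r 297 2312 264 (.q 328 (.a 1 [] (.r 329 327 327 (.d 393 1289 265 1321 425))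
 (.a 1 [265] (.r 235 1259 267 (.d 266 3276 204 3307 359))
 .e))))
 .e))))
 (.a 1 [267] (.r 427 1323 395 (.q 361 (.a 1 [] (.d 268 3309 237 3340 392)
 (.a 1 [237] (.d 392 3340 268 3371 423)
 (.a 0 [268,392] (.q 329 (.a 1 [] (.r 297 2312 264 (.d 393 1289 265 1321 425))
 (.a 1 [264] (.r 328 327 327 (.d 394 2343 295 2376 460))
 (.a 1 [265] (.r 328 327 327 (.d 394 2343 295 2376 460))
 (.a 1 [266] (.r 297 2312 264 (.d 265 1257 233 1289 393))
 .e)))))
 .e)))))
 .e))))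
 (.a 1 [362] (.q 331 (.a 1 [] (.d 267 1259 235 1291 395)
 (.a 1 [395] (.r 297 2312 264 (.q 361 (.a 1 [] (.d 268 3309 237 3340 392)
 (.a 1 [237] (.d 392 3340 268 3371 423)
 (.a 0 [268,392] (.q 328 (.a 1 [] (.r 329 327 327 (.d 393 1289 265 1321 425))
 (.a 1 [265] (.r 235 1259 267 (.d 266 3276 204 3307 359))
 .e)))
 .e)))))
 (.a 1 [267] (.r 395 1323 427 (.q 397 (.a 1 [] (.d 394 393 393 394 398)
 (.a 1 [393] (.d 398 394 394 395 399)
 (.a 0 [394,398] (.q 298 (.a 1 [] (.d 364 2313 265 2346 430)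
 (.a 1 [265] (.r 297 2312 264 (.d 300 296 296 297 301))
 .e)))
 .e)))))
 .e))))
 (.a 1 [300] (.q 395 (.a 1 [] (.d 331 1291 267 1323 427)
 (.a 1 [331] (.q 394 (.a 1 [] (.d 393 392 392 393 397)
 (.a 1 [392] (.d 397 393 393 394 398)
 (.a 1 [397] (.r 392 392 393 (.d 361 3340 268 3371 423))
 (.a 0 [393] (.q 362 (.a 1 [] (.d 298 1290 266 1322 426)
 (.a 1 [266] (.d 426 1322 298 1354 458)
 (.a 0 [298,426] (.q 361 (.a 1 [] (.d 360 359 359 360 364)
 (.a 1 [359] (.d 364 360 360 361 365)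
 (.a 1 [360] (.d 268 3309 237 3340 392)
 .e))))
 .e))))
 .e)))))
 (.a 1 [427] (.q 394 (.a 1 [] (.d 393 392 392 393 397)
 (.a 1 [392] (.d 397 393 393 394 398)
 (.a 1 [397] (.r 392 392 393 (.d 361 3340 268 3371 423))
 (.a 0 [393] (.q 362 (.a 1 [] (.d 298 1290 266 1322 426)
 (.a 1 [266] (.d 426 1322 298 1354 458)
 (.a 0 [298,426] (.q 428 (.a 1 [] (.d 329 2344 296 2377 461)
 (.a 1 [296] (.d 461 2377 329 2410 494)
 (.a 0 [329,461] (.q 361 (.a 1 [] (.d 360 359 359 360 364)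
 (.a 1 [359] (.d 364 360 360 361 365)
 (.a 1 [360] (.d 268 3309 237 3340 392)
 .e))))
 .e))))
 .e))))
 .e)))))
 (.a 1 [267] (.q 268 (.a 1 [] (.d 237 3278 206 3309 361)
 (.a 1 [206] (.d 361 3309 237 3340 392)
 (.a 0 [237,361] (.q 394 (.a 1 [] (.d 393 392 392 393 397)
 (.a 1 [392] (.d 397 393 393 394 398)
 (.a 0 [393,397] (.q 362 (.a 1 [] (.d 298 1290 266 1322 426)
 (.a 1 [266] (.d 426 1322 298 1354 458)
 (.a 1 [298] (.r 427 1323 331 (.r 458 1354 426 (.d 489 3437 365 3468 520)))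
 (.a 0 [426] (.q 296 (.a 1 [] (.d 329 2311 263 2344 428)
 (.a 1 [263] (.r 427 1323 331 (.r 297 2312 264 (.d 298 1290 266 295 295)))
 .e)))
 .e)))))
 .e))))
 .e))))
 .e)))))
 (.a 1 [266] (.r 297 2312 264 (.q 361 (.a 1 [] (.d 268 3309 237 3340 392)
 (.a 1 [237] (.d 392 3340 268 3371 423)
 (.a 0 [268,392] (.q 267 (.a 1 [] (.d 331 1259 235 1291 395)
 (.a 0 [235,331,395] (.q 360 (.a 1 [] (.d 362 359 359 360 364)
 (.a 0 [359,362,364] (.q 329 (.a 1 [] (.d 265 1257 233 1289 393)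
 (.a 1 [233] (.d 393 1289 265 1321 425)
 (.a 1 [265] (.d 298 3308 236 3339 391)
 (.a 1 [300] (.r 236 3308 298 (.d 265 1257 233 1289 393))
 (.a 0 [236] (.q 300 (.a 1 [] (.d 265 1257 233 1289 393)
 (.a 1 [233] (.d 393 1289 265 1321 425)
 (.a 1 [265] (.d 298 296 296 297 301)
 .e))))
 .e))))))
 .e)))
 .e)))
 .e)))))
 (.a 1 [301] (.q 331 (.a 1 [] (.d 267 1259 235 1291 395)
 (.a 1 [395] (.q 361 (.a 1 [] (.d 268 3309 237 3340 392)
 (.a 1 [237] (.d 392 3340 268 3371 423)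
 (.a 0 [268,392] (.q 362 (.a 1 [] (.d 360 359 359 360 364)
 (.a 1 [359] (.d 364 360 360 361 365)
 (.a 0 [360,364] (.q 300 (.a 1 [] (.d 269 3310 238 3341 393)
 (.a 1 [238] (.d 393 3341 269 3372 424)
 (.a 1 [269] (.r 297 2312 264 (.r 393 3372 424 (.d 329 1289 265 1321 425)))
 (.a 0 [393] (.q 394 (.a 1 [] (.d 298 1290 266 1322 426)
 (.a 1 [266] (.d 426 1322 298 1354 458)
 (.a 1 [426] (.r 297 2312 264 (.d 298 1290 266 296 296))
 (.a 0 [298] (.q 427 (.a 1 [] (.d 328 2343 295 2376 460)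
 (.a 1 [295] (.d 460 2376 328 2409 493)
 (.a 1 [328] (.r 458 1354 426 (.d 489 3437 365 3468 520))
 .e))))
 .e)))))
 .e)))))
 .e))))
 .e))))
 (.a 1 [267] (.q 361 (.a 1 [] (.d 268 3309 237 3340 392)
 (.a 1 [237] (.d 392 3340 268 3371 423)
 (.a 0 [268,392] (.q 362 (.a 1 [] (.d 360 359 359 360 364)
 (.a 1 [359] (.d 364 360 360 361 365)
 (.a 0 [360,364] (.q 300 (.a 1 [] (.d 269 3310 238 3341 393)
 (.a 1 [238] (.d 393 3341 269 3372 424)
 (.a 1 [269] (.r 297 2312 264 (.r 393 3372 424 (.d 329 1289 265 1321 425)))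
 (.a 0 [393] (.q 298 (.a 1 [] (.d 297 2312 264 296 296)
 (.a 1 [264] (.d 394 1290 266 1322 426)
 (.a 1 [296] (.d 266 1258 234 1290 394)
 .e))))
 .e)))))
 .e))))
 .e))))
 (.a 1 [235] (.d 395 1291 267 1323 427)
 .e)))))
 (.a 1 [393] (.r 297 2312 264 (.q 298 (.a 1 [] (.d 296 295 295 296 300)
 (.a 1 [295] (.d 300 296 296 297 301)
 (.a 0 [296,300] (.q 362 (.a 1 [] (.d 266 1258 234 1290 394)
 (.a 1 [234] (.d 394 1290 266 1322 426)
 (.a 0 [266,394] (.q 361 (.a 1 [] (.d 360 359 359 360 364)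
 (.a 1 [359] (.d 364 360 360 361 365)
 (.a 1 [360] (.d 268 3309 237 3340 392)
 .e))))
 .e))))
 .e)))))
 (.a 1 [333] (.q 331 (.a 1 [] (.d 267 1259 235 1291 395)
 (.a 1 [395] (.r 297 2312 264 (.q 298 (.a 1 [] (.d 296 295 295 296 300)
 (.a 1 [295] (.d 300 296 296 297 301)
 (.a 0 [296,300] (.q 362 (.a 1 [] (.d 266 1258 234 1290 394)
 (.a 1 [234] (.d 394 1290 266 1322 426)
 (.a 0 [266,394] (.q 364 (.a 1 [] (.d 361 360 360 361 365)
 (.a 1 [360] (.d 365 361 361 362 366)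
 (.a 1 [361] (.d 265 2280 232 2313 397)
 .e))))
 .e))))
 .e)))))
 (.a 1 [267] (.q 361 (.a 1 [] (.d 268 3309 237 3340 392)
 (.a 1 [237] (.d 392 3340 268 3371 423)
 (.a 0 [268,392] (.q 362 (.a 1 [] (.d 360 359 359 360 364)
 (.a 1 [359] (.d 364 360 360 361 365)
 (.a 0 [360,364] (.q 300 (.a 1 [] (.d 269 3310 238 3341 393)
 (.a 1 [238] (.d 393 3341 269 3372 424)
 (.a 1 [269] (.r 297 2312 264 (.d 298 296 296 297 301))
 .e))))
 .e))))
 .e))))
 .e))))
 (.a 1 [265] (.q 331 (.a 1 [] (.d 267 1259 235 1291 395)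
 (.a 1 [395] (.q 361 (.a 1 [] (.d 268 3309 237 3340 392)
 (.a 1 [237] (.d 392 3340 268 3371 423)
 (.a 0 [268,392] (.q 362 (.a 1 [] (.d 360 359 359 360 364)
 (.a 1 [359] (.d 364 360 360 361 365)
 (.a 0 [360,364] (.q 300 (.a 1 [] (.d 269 3310 238 3341 393)
 (.a 1 [238] (.d 393 3341 269 3372 424)
 (.a 1 [269] (.r 297 2312 264 (.d 298 296 296 297 301))
 .e))))
 .e))))
 .e))))
 (.a 1 [267] (.r 427 1323 395 (.q 365 (.a 1 [] (.d 334 3375 303 3406 458)
 (.a 1 [303] (.d 458 3406 334 3437 489)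
 (.a 0 [334,458] (.q 362 (.a 1 [] (.d 364 361 361 362 366)
 (.a 1 [366] (.r 361 361 364 (.d 392 3340 268 3371 423))
 (.a 0 [361,364] (.q 300 (.a 1 [] (.d 269 3310 238 3341 393)
 (.a 1 [238] (.d 393 3341 269 3372 424)
 (.a 1 [269] (.r 297 2312 264 (.d 298 296 296 297 301))
 .e))))
 .e))))
 .e)))))
 .e))))
 (.a 1 [361] (.q 395 (.a 1 [] (.d 331 1291 267 1323 427)
 (.a 0 [267,331,427] (.q 394 (.a 1 [] (.d 393 392 392 393 397)
 (.a 1 [392] (.d 397 393 393 394 398)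
 (.a 0 [393,397] (.q 298 (.a 1 [] (.d 362 1290 266 1322 426)
 (.a 1 [266] (.r 297 2312 264 (.d 300 296 296 297 301))
 .e)))
 .e))))
 .e)))
 (.a 1 [392] (.q 395 (.a 1 [] (.d 331 1291 267 1323 427)
 (.a 0 [267,331,427] (.q 394 (.a 1 [] (.d 397 393 393 394 398)
 (.a 0 [393,397,398] (.q 298 (.a 1 [] (.d 362 1290 266 1322 426)
 (.a 1 [266] (.r 297 2312 264 (.d 300 296 296 297 301))
 .e)))
 .e)))
 .e)))
 (.a 1 [394] (.q 268 (.a 1 [] (.d 237 3278 206 3309 361)
 (.a 1 [206] (.d 361 3309 237 3340 392)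
 (.a 0 [237,361] (.q 267 (.a 1 [] (.d 331 1259 235 1291 395)
 (.a 0 [235,331,395] (.q 266 (.a 1 [] (.d 264 264 265 2312 297)
 (.a 1 [264] (.d 269 265 265 266 270)
 (.a 0 [265] (.q 298 (.a 1 [] (.d 234 1226 202 1258 362)
 (.a 1 [202] (.r 297 2312 264 (.d 300 296 296 297 301))
 .e)))
 .e))))
 .e)))
 .e))))
 (.a 1 [296] (.q 361 (.a 1 [] (.d 268 3309 237 3340 392)
 (.a 1 [237] (.d 392 3340 268 3371 423)
 (.a 0 [268,392] (.q 395 (.a 1 [] (.d 331 1291 267 1323 427)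
 (.a 0 [267,331,427] (.q 394 (.a 1 [] (.d 397 393 393 394 398)
 (.a 0 [393,397,398] (.q 362 (.a 1 [] (.d 360 359 359 360 364)
 (.a 1 [359] (.d 364 360 360 361 365)
 (.a 1 [360] (.d 298 1290 266 1322 426)
 .e))))
 .e)))
 .e)))
 .e))))
 .e)))))))))))))))))))
 (.a 1 [264] (.d 429 2345 297 2378 462)
 .e))))) (by decide +kernel)

theorem r333 : S (Nat.lor X2 (bits [562, 333])) := S.of (.q 395 (.a 1 [] (.q 394 (.a 1 [] (.d 393 392 392 393 397)
 (.a 1 [392] (.d 397 393 393 394 398)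
 (.a 0 [393,397] (.q 427 (.a 1 [] (.d 331 1323 299 1355 459)
 (.a 1 [299] (.d 459 1355 331 1387 491)
 (.a 0 [331,459] (.q 332 (.a 1 [] (.d 301 3342 270 3373 425)
 (.a 1 [270] (.d 425 3373 301 3404 456)
 (.a 0 [301,425] (.q 365 (.a 1 [] (.d 334 3375 303 3406 458)
 (.a 1 [303] (.d 458 3406 334 3437 489)
 (.a 0 [334,458] (.q 364 (.a 1 [] (.d 362 361 361 362 366)
 (.a 1 [361] (.d 366 362 362 363 367)
 (.a 1 [362] (.d 300 1292 268 1324 428)
 .e))))
 .e))))
 .e))))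
 .e))))
 .e))))
 (.a 1 [269] (.q 427 (.a 1 [] (.d 331 1323 299 1355 459)
 (.a 1 [331] (.q 330 (.a 1 [] (.d 297 2312 264 2345 429)
 (.a 1 [264] (.d 429 2345 297 2378 462)
 (.a 0 [297,429] (.q 398 (.a 1 [] (.d 397 394 394 395 399)
 (.a 0 [394,397,399] (.q 365 (.a 1 [] (.d 334 3375 303 3406 458)
 (.a 1 [303] (.d 458 3406 334 3437 489)
 (.a 0 [334,458] (.q 332 (.a 1 [] (.d 299 2314 266 2347 431)
 (.a 1 [266] (.d 431 2347 299 2380 464)
 (.a 0 [299,431] (.q 364 (.a 1 [] (.d 362 361 361 362 366)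
 (.a 1 [361] (.d 366 362 362 363 367)
 (.a 1 [362] (.d 300 1292 268 1324 428)
 .e))))
 .e))))
 .e))))
 .e)))
 .e))))
 (.a 1 [299] (.d 459 1355 331 1387 491)
 .e))))
 (.a 0 [394] (.q 330 (.a 1 [] (.d 297 2312 264 2345 429)
 (.a 1 [297] (.q 427 (.a 1 [] (.d 331 1323 299 1355 459)
 (.a 1 [331] (.r 429 2378 462 (.q 428 (.a 1 [] (.d 426 425 425 426 430)
 (.a 1 [425] (.d 430 426 426 427 431)
 (.a 0 [426,430] (.q 460 (.a 1 [] (.d 364 1356 332 1388 492)
 (.a 1 [332] (.d 492 1388 364 1420 524)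
 (.a 1 [364] (.r 491 1387 459 (.d 522 3470 398 3501 553))
 .e))))
 .e)))))
 (.a 1 [459] (.q 365 (.a 1 [] (.d 334 3375 303 3406 458)
 (.a 1 [303] (.d 458 3406 334 3437 489)
 (.a 0 [334,458] (.q 362 (.a 1 [] (.d 364 361 361 362 366)
 (.a 1 [366] (.r 361 361 364 (.r 299 1323 331 (.d 392 3340 268 3371 423)))
 (.a 0 [361,364] (.q 329 (.a 1 [] (.d 296 2311 263 2344 428)
 (.a 1 [263] (.d 428 2344 296 2377 461)
 (.a 1 [296] (.r 331 1323 299 (.d 328 327 327 328 332))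
 .e))))
 .e))))
 .e))))
 .e))))
 (.a 1 [429] (.q 299 (.a 1 [] (.d 331 1291 267 1323 427)
 (.a 0 [267,331,427] (.q 361 (.a 1 [] (.d 268 3309 237 3340 392)
 (.a 1 [237] (.d 392 3340 268 3371 423)
 (.a 0 [268,392] (.q 362 (.a 1 [] (.d 360 359 359 360 364)
 (.a 1 [359] (.d 364 360 360 361 365)
 (.a 0 [360,364] (.q 296 (.a 1 [] (.d 329 2311 263 2344 428)
 (.a 1 [263] (.r 297 2312 264 (.d 298 295 295 296 300))
 .e)))
 .e))))
 .e))))
 .e)))
 (.a 1 [264] (.d 429 2345 297 2378 462)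
 .e)))))
 (.a 0 [427] (.q 429 (.a 1 [] (.d 330 2345 297 2378 462)
 (.a 1 [462] (.q 394 (.a 1 [] (.d 393 392 392 393 397)
 (.a 1 [397] (.r 330 2345 297 (.q 362 (.a 1 [] (.d 298 1290 266 1322 426)
 (.a 1 [266] (.d 426 1322 298 1354 458)
 (.a 0 [298,426] (.q 361 (.a 1 [] (.d 360 359 359 360 364)
 (.a 1 [359] (.d 364 360 360 361 365)
 (.a 1 [360] (.r 392 392 393 (.d 423 3371 299 3402 454))
 .e))))
 .e)))))
 (.a 1 [393] (.q 332 (.a 1 [] (.d 301 3342 270 3373 425)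
 (.a 1 [270] (.d 425 3373 301 3404 456)
 (.a 0 [301,425] (.q 428 (.a 1 [] (.d 364 1324 300 1356 460)
 (.a 1 [300] (.r 460 1356 364 (.r 398 394 397 (.d 491 3439 367 3470 522)))
 (.a 0 [364,460] (.q 461 (.a 1 [] (.d 362 2377 329 2410 494)
 (.a 1 [329] (.d 494 2410 362 2443 527)
 (.a 1 [362] (.r 397 394 398 (.d 493 1389 365 1421 525))
 .e))))
 .e))))
 .e))))
 .e))))
 (.a 1 [330] (.q 398 (.a 1 [] (.d 397 394 394 395 399)
 (.a 0 [394,397,399] (.q 460 (.a 1 [] (.d 367 3408 336 3439 491)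
 (.a 1 [336] (.d 491 3439 367 3470 522)
 (.a 0 [367,491] (.q 428 (.a 1 [] (.d 364 1356 332 1388 492)
 (.a 1 [332] (.d 492 1388 364 1420 524)
 (.a 0 [364,492] (.q 494 (.a 1 [] (.d 461 2410 362 2443 527)
 (.a 1 [362] (.r 462 2411 495 (.d 430 1390 366 1422 526))
 .e)))
 .e))))
 .e))))
 .e)))
 .e))))
 (.a 0 [331] (.q 394 (.a 1 [] (.d 393 392 392 393 397)
 (.a 0 [397] (.q 332 (.a 1 [] (.d 301 3342 270 3373 425)
 (.a 0 [301] (.q 429 (.a 1 [] (.d 330 2345 297 2378 462)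
 (.a 0 [330] (.r 425 3404 456 (.r 393 392 392 (.q 364 (.a 1 [] (.d 300 1292 268 1324 428)
 (.a 0 [365] (.q 269 (.a 1 [] (.d 300 1292 268 1324 428)
 (.a 1 [428] (.r 268 1292 300 (.q 361 (.a 1 [] (.d 329 1321 297 1353 457)
 (.a 1 [457] (.q 459 (.a 1 [] (.r 427 1387 491 (.d 460 2376 328 2409 493))
 (.a 1 [328] (.r 360 360 362 (.d 426 2375 327 2408 492))
 .e)))
 (.a 1 [329] (.q 328 (.a 1 [] (.d 295 2310 262 2343 427)
 (.a 1 [262] (.d 427 2343 295 2376 460)
 (.a 1 [295] (.r 427 2376 460 (.r 457 1385 489 (.r 426 3436 488 (.r 360 360 362 (.d 459 1387 491 2408 492)))))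
 (.a 0 [427] (.q 426 (.a 1 [] (.d 457 3436 488 1385 489)
 (.a 1 [457] (.r 360 360 362 (.d 459 2375 327 2408 492))
 .e)))
 .e)))))
 (.a 1 [297] (.d 457 1353 329 1385 489)
 .e))))))
 (.a 1 [300] (.r 428 1356 460 (.r 426 425 427 (.r 457 3436 488 (.d 489 1385 361 1417 521))))
 .e))))
 (.a 1 [269] (.q 365 (.a 1 [] (.d 300 1292 268 1324 428)
 (.a 1 [237] (.q 205 (.a 1 [] (.d 300 1292 268 1324 428)
 (.a 1 [428] (.d 362 361 361 362 366)
 .e)))
 (.a 1 [205] (.q 237 (.a 1 [] (.d 300 1292 268 1324 428)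
 (.a 1 [428] (.d 362 361 361 362 366)
 .e)))
 (.a 1 [428] (.d 362 361 361 362 366)
 .e)))))
 (.a 1 [428] (.q 365 (.a 1 [] (.d 362 361 361 362 366)
 (.a 1 [361] (.d 366 362 362 363 367)
 (.a 1 [366] (.r 361 361 362 (.d 457 1353 329 1385 489))
 (.a 0 [362] (.q 398 (.a 1 [] (.d 299 2314 266 2347 431)
 (.a 1 [266] (.d 431 2347 299 2380 464)
 (.a 1 [299] (.r 367 363 366 (.d 460 3408 336 3439 491))
 .e))))
 .e)))))
 (.a 1 [300] (.r 428 1356 460 (.r 426 425 427 (.r 457 3436 488 (.d 489 1385 361 1417 521))))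
 .e))))))))
 (.a 0 [462] (.r 330 2345 297 (.q 428 (.a 1 [] (.d 364 1324 300 1356 460)
 (.a 1 [365] (.q 269 (.a 1 [] (.d 364 1324 300 1356 460)
 (.a 1 [364] (.r 425 3404 456 (.r 426 425 427 (.d 362 1322 298 1354 458)))
 .e)))
 (.a 1 [269] (.q 365 (.a 1 [] (.d 364 1324 300 1356 460)
 (.a 1 [237] (.q 205 (.a 1 [] (.d 364 1324 300 1356 460)
 (.a 1 [364] (.r 425 3404 456 (.r 427 425 426 (.d 458 3406 334 3437 489)))
 .e)))
 (.a 1 [205] (.q 237 (.a 1 [] (.d 364 1324 300 1356 460)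
 (.a 1 [364] (.r 425 3404 456 (.r 427 425 426 (.d 458 3406 334 3437 489)))
 .e)))
 (.a 1 [364] (.r 425 3404 456 (.r 427 425 426 (.d 458 3406 334 3437 489)))
 .e)))))
 (.a 1 [364] (.r 425 3404 456 (.r 426 425 427 (.d 362 1322 298 1354 458)))
 .e))))))
 (.a 1 [365] (.q 269 (.a 1 [] (.d 462 2378 330 2411 495)
 (.a 1 [330] (.r 425 3404 456 (.q 491 (.a 1 [] (.r 427 1387 459 (.r 428 425 426 (.d 364 1324 300 1356 460)))
 (.a 1 [300] (.r 427 1387 459 (.r 428 425 426 (.r 460 1356 364 (.d 522 3470 398 3501 553))))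
 (.a 1 [364] (.r 427 1387 459 (.r 428 425 426 (.r 392 392 393 (.d 458 2407 359 2440 524))))
 (.a 1 [426] (.r 392 392 393 (.d 458 2407 359 2440 524))
 .e))))))
 .e)))
 (.a 0 [269] (.q 365 (.a 1 [] (.d 462 2378 330 2411 495)
 (.a 1 [330] (.r 425 3404 456 (.r 393 392 392 (.q 364 (.a 1 [] (.d 362 361 361 362 366)
 (.a 1 [237] (.q 205 (.a 1 [] (.d 300 1292 268 1324 428)
 (.a 1 [428] (.d 362 361 361 362 366)
 .e)))
 (.a 1 [205] (.q 237 (.a 1 [] (.d 300 1292 268 1324 428)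
 (.a 1 [428] (.d 362 361 361 362 366)
 .e)))
 (.a 1 [361] (.d 300 1292 268 1324 428)
 .e)))))))
 (.a 1 [205] (.q 237 (.a 1 [] (.d 462 2378 330 2411 495)
 (.a 1 [330] (.q 364 (.a 1 [] (.d 362 361 361 362 366)
 (.a 1 [361] (.d 366 362 362 363 367)
 (.a 1 [362] (.d 300 1292 268 1324 428)
 .e))))
 .e)))
 (.a 1 [237] (.q 205 (.a 1 [] (.d 462 2378 330 2411 495)
 (.a 1 [330] (.q 364 (.a 1 [] (.d 362 361 361 362 366)
 (.a 1 [361] (.d 366 362 362 363 367)
 (.a 1 [362] (.d 300 1292 268 1324 428)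
 .e))))
 .e)))
 .e)))))
 (.a 1 [297] (.d 462 2378 330 2411 495)
 .e)))))))
 (.a 1 [425] (.q 364 (.a 1 [] (.d 300 1292 268 1324 428)
 (.a 1 [428] (.q 330 (.a 1 [] (.d 297 2312 264 2345 429)
 (.a 1 [264] (.d 429 2345 297 2378 462)
 (.a 0 [297,429] (.r 392 392 393 (.r 268 1292 300 (.r 361 3340 299 (.d 362 360 360 361 365))))
 .e))))
 (.a 1 [300] (.q 362 (.a 1 [] (.d 361 360 360 361 365)
 (.a 1 [360] (.d 365 361 361 362 366)
 (.a 1 [361] (.r 428 1356 460 (.d 461 2377 329 2410 494))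
 .e))))
 .e))))
 .e))))
 (.a 1 [393] (.q 332 (.a 1 [] (.d 301 3342 270 3373 425)
 (.a 1 [270] (.d 425 3373 301 3404 456)
 (.a 0 [301,425] (.q 429 (.a 1 [] (.d 330 2345 297 2378 462)
 (.a 1 [297] (.d 462 2378 330 2411 495)
 (.a 0 [330,462] (.q 428 (.a 1 [] (.d 364 1324 300 1356 460)
 (.a 1 [300] (.r 460 1356 364 (.r 398 394 397 (.d 491 3439 367 3470 522)))
 (.a 0 [364,460] (.q 461 (.a 1 [] (.d 362 2377 329 2410 494)
 (.a 1 [329] (.d 494 2410 362 2443 527)
 (.a 1 [362] (.r 397 394 398 (.d 493 1389 365 1421 525))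
 .e))))
 .e))))
 .e))))
 .e))))
 .e))))
 (.a 0 [397] (.q 427 (.a 1 [] (.d 331 1323 299 1355 459)
 (.a 0 [331] (.q 365 (.a 1 [] (.d 334 3375 303 3406 458)
 (.a 0 [334] (.q 330 (.a 1 [] (.d 297 2312 264 2345 429)
 (.a 0 [429] (.r 458 3437 489 (.r 459 1387 491 (.q 364 (.a 1 [] (.d 362 361 361 362 366)
 (.a 0 [332] (.q 335 (.a 1 [] (.d 366 362 362 363 367)
 (.a 1 [362] (.r 367 363 366 (.q 460 (.a 1 [] (.d 457 456 456 457 461)
 (.a 1 [457] (.q 393 (.a 1 [] (.r 394 392 392 (.d 493 2409 361 2442 526))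
 (.a 1 [361] (.r 492 1388 428 (.d 426 2408 360 2441 525))
 .e)))
 (.a 1 [461] (.q 493 (.a 1 [] (.d 394 2409 361 2442 526)
 (.a 1 [361] (.d 526 2442 394 2475 559)
 (.a 1 [526] (.r 394 2409 361 (.r 457 456 456 (.r 426 3436 488 (.r 492 1388 428 (.d 393 2408 360 392 392)))))
 (.a 0 [394] (.q 426 (.a 1 [] (.d 457 456 456 3436 488)
 (.a 1 [456] (.r 492 1388 428 (.d 525 2441 393 2474 558))
 .e)))
 .e)))))
 .e)))))
 (.a 1 [366] (.r 362 361 361 (.r 426 1354 394 (.r 457 3436 488 (.d 460 456 456 457 461))))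
 .e))))
 (.a 1 [335] (.q 332 (.a 1 [] (.d 366 362 362 363 367)
 (.a 1 [336] (.q 337 (.a 1 [] (.d 300 1292 268 1324 428)
 (.a 1 [268] (.d 362 361 361 362 366)
 .e)))
 (.a 1 [337] (.q 336 (.a 1 [] (.d 300 1292 268 1324 428)
 (.a 1 [268] (.d 428 1324 300 1356 460)
 (.a 1 [300] (.d 362 361 361 362 366)
 .e))))
 (.a 1 [362] (.d 428 1324 300 1356 460)
 .e)))))
 (.a 1 [362] (.q 332 (.a 1 [] (.d 300 1292 268 1324 428)
 (.a 1 [268] (.d 428 1324 300 1356 460)
 (.a 1 [300] (.r 460 1356 428 (.d 461 457 457 458 462))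
 (.a 0 [428] (.q 299 (.a 1 [] (.d 266 2281 233 2314 398)
 (.a 1 [233] (.d 398 2314 266 2347 431)
 (.a 1 [266] (.r 268 1292 300 (.d 361 3309 237 3340 392))
 .e))))
 .e)))))
 (.a 1 [366] (.r 362 361 361 (.r 426 1354 394 (.r 457 3436 488 (.d 460 456 456 457 461))))
 (.a 1 [361] (.d 366 362 362 363 367)
 .e)))))))))
 (.a 0 [297] (.r 429 2378 462 (.r 458 3437 489 (.q 364 (.a 1 [] (.d 362 361 361 362 366)
 (.a 1 [332] (.q 335 (.a 1 [] (.d 362 361 361 362 366)
 (.a 1 [362] (.q 460 (.a 1 [] (.r 491 1387 459 (.d 367 363 366 3439 398))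
 (.a 1 [366] (.r 491 1387 459 (.d 522 3470 398 3501 553))
 (.a 1 [398] (.r 428 1388 492 (.d 430 426 426 427 431))
 .e))))
 (.a 1 [366] (.r 362 361 361 (.r 426 1354 394 (.d 428 425 425 426 430)))
 .e))))
 (.a 1 [335] (.q 332 (.a 1 [] (.d 362 361 361 362 366)
 (.a 1 [336] (.q 337 (.a 1 [] (.d 300 1292 268 1324 428)
 (.a 1 [268] (.d 428 1324 300 1356 460)
 (.a 1 [300] (.d 362 361 361 362 366)
 .e))))
 (.a 1 [337] (.q 336 (.a 1 [] (.d 362 361 361 362 366)
 (.a 1 [362] (.d 300 1292 268 1324 428)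
 .e)))
 (.a 1 [362] (.d 300 1292 268 1324 428)
 .e)))))
 (.a 1 [362] (.q 332 (.a 1 [] (.d 300 1292 268 1324 428)
 (.a 1 [268] (.d 428 1324 300 1356 460)
 (.a 1 [300] (.r 428 1356 460 (.d 430 426 426 427 431))
 (.a 0 [428] (.q 398 (.a 1 [] (.d 299 2314 266 2347 431)
 (.a 1 [266] (.d 431 2347 299 2380 464)
 (.a 1 [299] (.r 367 363 366 (.d 491 1387 459 3439 460))
 .e))))
 .e)))))
 (.a 1 [366] (.r 362 361 361 (.r 426 1354 394 (.d 428 425 425 426 430)))
 .e))))))))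
 (.a 1 [332] (.q 335 (.a 1 [] (.d 297 2312 264 2345 429)
 (.a 1 [429] (.r 458 3437 489 (.q 392 (.a 1 [] (.r 394 392 393 (.r 362 1354 426 (.d 364 361 361 362 366)))
 (.a 1 [361] (.r 491 1387 459 (.d 425 2407 359 2440 524))
 .e))))
 .e)))
 (.a 0 [335] (.q 332 (.a 1 [] (.d 429 2345 297 2378 462)
 (.a 1 [429] (.r 458 3437 489 (.r 459 1387 491 (.q 364 (.a 1 [] (.d 362 361 361 362 366)
 (.a 1 [336] (.q 337 (.a 1 [] (.d 300 1292 268 1324 428)
 (.a 1 [268] (.d 362 361 361 362 366)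
 .e)))
 (.a 1 [337] (.q 336 (.a 1 [] (.d 300 1292 268 1324 428)
 (.a 1 [268] (.d 428 1324 300 1356 460)
 (.a 1 [300] (.d 362 361 361 362 366)
 .e))))
 (.a 1 [362] (.d 428 1324 300 1356 460)
 .e)))))))
 (.a 1 [297] (.r 458 3437 489 (.r 459 1387 491 (.r 462 2378 429 (.r 460 458 461 (.r 364 1356 428 (.d 362 361 361 362 366))))))
 (.a 1 [336] (.q 337 (.a 1 [] (.d 297 2312 264 2345 429)
 (.a 1 [429] (.q 364 (.a 1 [] (.d 362 361 361 362 366)
 (.a 1 [361] (.d 366 362 362 363 367)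
 (.a 1 [362] (.d 300 1292 268 1324 428)
 .e))))
 .e)))
 (.a 1 [337] (.q 336 (.a 1 [] (.d 297 2312 264 2345 429)
 (.a 1 [429] (.q 364 (.a 1 [] (.d 362 361 361 362 366)
 (.a 1 [361] (.d 366 362 362 363 367)
 (.a 1 [362] (.d 300 1292 268 1324 428)
 .e))))
 .e)))
 (.a 1 [462] (.d 297 2312 264 2345 429)
 .e)))))))
 (.a 1 [264] (.d 429 2345 297 2378 462)
 .e)))))))
 (.a 1 [458] (.q 364 (.a 1 [] (.d 362 361 361 362 366)
 (.a 1 [362] (.q 429 (.a 1 [] (.d 330 2345 297 2378 462)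
 (.a 1 [297] (.d 462 2378 330 2411 495)
 (.a 0 [330,462] (.r 491 1387 459 (.r 367 363 366 (.r 460 3439 398 (.d 428 1356 332 1388 492))))
 .e))))
 (.a 1 [366] (.q 428 (.a 1 [] (.d 332 1324 300 1356 460)
 (.a 1 [300] (.d 460 1356 332 1388 492)
 (.a 1 [332] (.r 362 361 361 (.d 461 2377 329 2410 494))
 .e))))
 .e))))
 (.a 1 [303] (.d 458 3406 334 3437 489)
 .e)))))
 (.a 1 [459] (.q 365 (.a 1 [] (.d 334 3375 303 3406 458)
 (.a 1 [303] (.d 458 3406 334 3437 489)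
 (.a 0 [334,458] (.q 330 (.a 1 [] (.d 297 2312 264 2345 429)
 (.a 1 [264] (.d 429 2345 297 2378 462)
 (.a 0 [297,429] (.q 362 (.a 1 [] (.d 364 361 361 362 366)
 (.a 1 [366] (.r 361 361 364 (.r 299 1323 331 (.d 392 3340 268 3371 423)))
 (.a 0 [361,364] (.q 329 (.a 1 [] (.d 296 2311 263 2344 428)
 (.a 1 [263] (.d 428 2344 296 2377 461)
 (.a 1 [296] (.r 331 1323 299 (.d 328 327 327 328 332))
 .e))))
 .e))))
 .e))))
 .e))))
 (.a 1 [299] (.d 459 1355 331 1387 491)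
 .e)))))
 (.a 1 [364] (.q 330 (.a 1 [] (.d 297 2312 264 2345 429)
 (.a 1 [429] (.q 331 (.a 1 [] (.d 299 1291 267 1323 427)
 (.a 1 [267] (.d 427 1323 299 1355 459)
 (.a 0 [299,427] (.q 329 (.a 1 [] (.d 328 327 327 328 332)
 (.a 0 [327,328,332] (.q 393 (.a 1 [] (.d 394 392 392 393 397)
 (.a 1 [392] (.r 297 2312 264 (.d 361 1289 265 1321 425))
 .e)))
 .e)))
 .e))))
 (.a 1 [297] (.q 394 (.a 1 [] (.d 393 392 392 393 397)
 (.a 1 [392] (.d 397 393 393 394 398)
 (.a 0 [393,397] (.q 331 (.a 1 [] (.d 299 1291 267 1323 427)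
 (.a 1 [267] (.d 427 1323 299 1355 459)
 (.a 0 [299,427] (.q 329 (.a 1 [] (.d 328 327 327 328 332)
 (.a 1 [327] (.r 332 328 328 (.d 301 3342 270 3373 425))
 (.a 0 [328,332] (.q 362 (.a 1 [] (.d 298 1290 266 1322 426)
 (.a 1 [266] (.d 426 1322 298 1354 458)
 (.a 1 [298] (.d 296 2311 263 2344 428)
 .e))))
 .e))))
 .e))))
 .e))))
 .e))))
 (.a 1 [332] (.q 331 (.a 1 [] (.d 299 1291 267 1323 427)
 (.a 1 [427] (.q 397 (.a 1 [] (.d 394 393 393 394 398)
 (.a 1 [393] (.d 398 394 394 395 399)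
 (.a 0 [394,398] (.q 298 (.a 1 [] (.d 364 2313 265 2346 430)
 (.a 0 [265,364,430] (.q 297 (.a 1 [] (.d 330 2312 264 2345 429)
 (.a 1 [264] (.r 299 1291 267 (.d 300 296 296 297 301))
 .e)))
 .e)))
 .e))))
 (.a 1 [299] (.q 429 (.a 1 [] (.d 330 2345 297 2378 462)
 (.a 1 [297] (.d 462 2378 330 2411 495)
 (.a 0 [330,462] (.q 398 (.a 1 [] (.d 397 394 394 395 399)
 (.a 0 [394,397,399] (.q 460 (.a 1 [] (.d 367 3408 336 3439 491)
 (.a 1 [336] (.d 491 3439 367 3470 522)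
 (.a 0 [367,491] (.q 428 (.a 1 [] (.d 492 1388 364 1420 524)
 (.a 1 [364] (.r 427 1355 459 (.d 430 426 426 427 431))
 .e)))
 .e))))
 .e)))
 .e))))
 (.a 1 [267] (.d 427 1323 299 1355 459)
 .e)))))
 (.a 1 [365] (.q 330 (.a 1 [] (.d 297 2312 264 2345 429)
 (.a 1 [429] (.q 397 (.a 1 [] (.d 394 393 393 394 398)
 (.a 1 [393] (.d 398 394 394 395 399)
 (.a 0 [394,398] (.q 299 (.a 1 [] (.d 331 1291 267 1323 427)
 (.a 0 [267,331,427] (.q 361 (.a 1 [] (.d 268 3309 237 3340 392)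
 (.a 1 [237] (.d 392 3340 268 3371 423)
 (.a 0 [268,392] (.q 362 (.a 1 [] (.d 360 359 359 360 364)
 (.a 0 [359,360,364] (.q 296 (.a 1 [] (.d 329 2311 263 2344 428)
 (.a 1 [263] (.r 297 2312 264 (.d 298 295 295 296 300))
 .e)))
 .e)))
 .e))))
 .e)))
 .e))))
 (.a 1 [297] (.q 397 (.a 1 [] (.d 394 393 393 394 398)
 (.a 1 [393] (.d 398 394 394 395 399)
 (.a 0 [394,398] (.q 459 (.a 1 [] (.d 427 1355 331 1387 491)
 (.a 0 [331,427,491] (.q 428 (.a 1 [] (.d 366 3407 335 3438 490)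
 (.a 1 [335] (.d 490 3438 366 3469 521)
 (.a 0 [366,490] (.q 460 (.a 1 [] (.d 364 1356 332 1388 492)
 (.a 1 [332] (.d 492 1388 364 1420 524)
 (.a 1 [364] (.r 462 2378 429 (.d 461 458 458 459 463))
 .e))))
 .e))))
 .e)))
 .e))))
 .e))))
 (.a 1 [362] (.q 394 (.a 1 [] (.d 393 392 392 393 397)
 (.a 1 [393] (.q 331 (.a 1 [] (.d 299 1291 267 1323 427)
 (.a 1 [267] (.d 427 1323 299 1355 459)
 (.a 0 [299,427] (.q 332 (.a 1 [] (.d 301 3342 270 3373 425)
 (.a 1 [270] (.d 425 3373 301 3404 456)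
 (.a 0 [301,425] (.q 364 (.a 1 [] (.d 300 1292 268 1324 428)
 (.a 1 [268] (.d 428 1324 300 1356 460)
 (.a 1 [300] (.r 397 394 398 (.d 430 2346 298 2379 463))
 .e))))
 .e))))
 .e))))
 (.a 1 [397] (.q 427 (.a 1 [] (.d 331 1323 299 1355 459)
 (.a 1 [299] (.d 459 1355 331 1387 491)
 (.a 0 [331,459] (.q 332 (.a 1 [] (.d 301 3342 270 3373 425)
 (.a 1 [270] (.d 425 3373 301 3404 456)
 (.a 0 [301,425] (.q 365 (.a 1 [] (.d 334 3375 303 3406 458)
 (.a 1 [303] (.d 458 3406 334 3437 489)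
 (.a 0 [334,458] (.q 460 (.a 1 [] (.d 361 2376 328 2409 493)
 (.a 1 [328] (.d 493 2409 361 2442 526)
 (.a 0 [361,493] (.q 429 (.a 1 [] (.d 330 2345 297 2378 462)
 (.a 1 [297] (.d 462 2378 330 2411 495)
 (.a 1 [330] (.r 428 1356 364 (.d 430 426 426 427 431))
 .e))))
 .e))))
 .e))))
 .e))))
 .e))))
 (.a 1 [392] (.d 397 393 393 394 398)
 .e)))))
 (.a 1 [428] (.q 427 (.a 1 [] (.d 331 1323 299 1355 459)
 (.a 1 [459] (.q 397 (.a 1 [] (.d 394 393 393 394 398)
 (.a 1 [393] (.d 398 394 394 395 399)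
 (.a 0 [394,398] (.q 365 (.a 1 [] (.d 334 3375 303 3406 458)
 (.a 1 [303] (.d 458 3406 334 3437 489)
 (.a 0 [334,458] (.q 364 (.a 1 [] (.d 362 361 361 362 366)
 (.a 1 [361] (.d 366 362 362 363 367)
 (.a 1 [362] (.r 331 1323 299 (.d 430 2346 298 2379 463))
 .e))))
 .e))))
 .e))))
 (.a 1 [331] (.q 394 (.a 1 [] (.d 393 392 392 393 397)
 (.a 1 [392] (.d 397 393 393 394 398)
 (.a 0 [393,397] (.q 365 (.a 1 [] (.d 334 3375 303 3406 458)
 (.a 1 [303] (.d 458 3406 334 3437 489)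
 (.a 0 [334,458] (.q 332 (.a 1 [] (.d 301 3342 270 3373 425)
 (.a 1 [270] (.d 425 3373 301 3404 456)
 (.a 0 [301,425] (.q 361 (.a 1 [] (.d 328 2343 295 2376 460)
 (.a 1 [295] (.d 460 2376 328 2409 493)
 (.a 0 [328,460] (.q 330 (.a 1 [] (.d 297 2312 264 2345 429)
 (.a 1 [264] (.d 429 2345 297 2378 462)
 (.a 1 [297] (.r 362 361 364 (.d 298 1290 266 1322 426))
 .e))))
 .e))))
 .e))))
 .e))))
 .e))))
 (.a 1 [299] (.d 459 1355 331 1387 491)
 .e)))))
 (.a 1 [301] (.q 427 (.a 1 [] (.d 331 1323 299 1355 459)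
 (.a 1 [331] (.q 330 (.a 1 [] (.d 297 2312 264 2345 429)
 (.a 1 [264] (.d 429 2345 297 2378 462)
 (.a 0 [297,429] (.q 394 (.a 1 [] (.d 393 392 392 393 397)
 (.a 1 [365] (.d 397 393 393 394 398)
 (.a 0 [393,397] (.q 365 (.a 1 [] (.d 334 3375 303 3406 458)
 (.a 1 [303] (.d 458 3406 334 3437 489)
 (.a 1 [334] (.r 458 3437 489 (.r 362 1354 426 (.d 364 361 361 362 366)))
 (.a 0 [458] (.q 362 (.a 1 [] (.d 364 361 361 362 366)
 (.a 1 [361] (.d 298 1290 266 1322 426)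
 .e)))
 .e)))))
 .e))))
 .e))))
 (.a 1 [459] (.q 365 (.a 1 [] (.d 334 3375 303 3406 458)
 (.a 1 [303] (.d 458 3406 334 3437 489)
 (.a 0 [334,458] (.q 398 (.a 1 [] (.d 397 394 394 395 399)
 (.a 1 [394] (.r 299 1323 331 (.d 332 2314 266 2347 431))
 .e)))
 .e))))
 (.a 1 [299] (.d 459 1355 331 1387 491)
 .e)))))
 (.a 1 [334] (.q 394 (.a 1 [] (.d 393 392 392 393 397)
 (.a 1 [397] (.q 429 (.a 1 [] (.d 330 2345 297 2378 462)
 (.a 1 [297] (.d 462 2378 330 2411 495)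
 (.a 0 [330,462] (.q 427 (.a 1 [] (.d 331 1323 299 1355 459)
 (.a 1 [299] (.d 459 1355 331 1387 491)
 (.a 0 [331,459] (.q 332 (.a 1 [] (.d 301 3342 270 3373 425)
 (.a 1 [270] (.d 425 3373 301 3404 456)
 (.a 1 [301] (.r 425 3404 456 (.r 428 425 426 (.d 364 1324 300 1356 460)))
 (.a 0 [425] (.q 428 (.a 1 [] (.d 430 426 426 427 431)
 (.a 1 [426] (.d 364 1324 300 1356 460)
 .e)))
 .e)))))
 .e))))
 .e))))
 (.a 1 [393] (.q 332 (.a 1 [] (.d 301 3342 270 3373 425)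
 (.a 1 [270] (.d 425 3373 301 3404 456)
 (.a 0 [301,425] (.q 299 (.a 1 [] (.d 331 1291 267 1323 427)
 (.a 1 [267] (.r 398 394 397 (.d 365 2314 266 2347 431))
 .e)))
 .e))))
 .e))))
 (.a 1 [300] (.q 394 (.a 1 [] (.d 393 392 392 393 397)
 (.a 1 [397] (.q 427 (.a 1 [] (.d 331 1323 299 1355 459)
 (.a 1 [299] (.d 459 1355 331 1387 491)
 (.a 0 [331,459] (.q 365 (.a 1 [] (.d 334 3375 303 3406 458)
 (.a 1 [303] (.d 458 3406 334 3437 489)
 (.a 0 [334,458] (.q 332 (.a 1 [] (.d 301 3342 270 3373 425)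
 (.a 1 [270] (.d 425 3373 301 3404 456)
 (.a 0 [301,425] (.q 364 (.a 1 [] (.d 362 361 361 362 366)
 (.a 1 [361] (.d 366 362 362 363 367)
 (.a 1 [362] (.r 460 1356 428 (.d 493 2409 361 2442 526))
 (.a 1 [366] (.r 361 361 362 (.d 460 1356 428 2409 493))
 .e)))))
 .e))))
 .e))))
 .e))))
 (.a 1 [393] (.q 331 (.a 1 [] (.d 299 1291 267 1323 427)
 (.a 1 [267] (.d 427 1323 299 1355 459)
 (.a 0 [299,427] (.q 330 (.a 1 [] (.d 297 2312 264 2345 429)
 (.a 1 [264] (.d 429 2345 297 2378 462)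
 (.a 0 [297,429] (.q 298 (.a 1 [] (.d 362 1290 266 1322 426)
 (.a 1 [266] (.r 397 394 398 (.d 364 2313 265 2346 430))
 .e)))
 .e))))
 .e))))
 .e))))
 (.a 1 [366] (.q 427 (.a 1 [] (.d 331 1323 299 1355 459)
 (.a 1 [331] (.q 394 (.a 1 [] (.d 393 392 392 393 397)
 (.a 1 [392] (.d 397 393 393 394 398)
 (.a 0 [393,397] (.q 332 (.a 1 [] (.d 301 3342 270 3373 425)
 (.a 1 [270] (.d 425 3373 301 3404 456)
 (.a 0 [301,425] (.q 365 (.a 1 [] (.d 334 3375 303 3406 458)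
 (.a 1 [303] (.d 458 3406 334 3437 489)
 (.a 0 [334,458] (.q 364 (.a 1 [] (.d 300 1292 268 1324 428)
 (.a 1 [268] (.d 428 1324 300 1356 460)
 (.a 1 [300] (.r 460 1356 428 (.d 361 2376 328 361 362))
 (.a 1 [428] (.r 361 361 362 (.d 460 2376 328 2409 493))
 .e)))))
 .e))))
 .e))))
 .e))))
 (.a 1 [459] (.q 397 (.a 1 [] (.d 394 393 393 394 398)
 (.a 1 [393] (.d 398 394 394 395 399)
 (.a 0 [394,398] (.q 429 (.a 1 [] (.d 330 2345 297 2378 462)
 (.a 1 [297] (.d 462 2378 330 2411 495)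
 (.a 0 [330,462] (.q 430 (.a 1 [] (.d 428 426 426 427 431)
 (.a 1 [426] (.r 331 1323 299 (.d 364 2346 298 2379 463))
 .e)))
 .e))))
 .e))))
 (.a 1 [299] (.d 459 1355 331 1387 491)
 .e)))))
 (.a 1 [329] (.q 427 (.a 1 [] (.d 331 1323 299 1355 459)
 (.a 1 [331] (.q 330 (.a 1 [] (.d 297 2312 264 2345 429)
 (.a 1 [264] (.d 429 2345 297 2378 462)
 (.a 0 [297,429] (.q 398 (.a 1 [] (.d 397 394 394 395 399)
 (.a 0 [394,397,399] (.q 365 (.a 1 [] (.d 334 3375 303 3406 458)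
 (.a 1 [303] (.d 458 3406 334 3437 489)
 (.a 0 [334,458] (.q 332 (.a 1 [] (.d 299 2314 266 2347 431)
 (.a 1 [266] (.d 431 2347 299 2380 464)
 (.a 0 [299,431] (.q 364 (.a 1 [] (.d 362 361 361 362 366)
 (.a 1 [361] (.d 366 362 362 363 367)
 (.a 1 [362] (.d 300 1292 268 1324 428)
 .e))))
 .e))))
 .e))))
 .e)))
 .e))))
 (.a 1 [299] (.d 459 1355 331 1387 491)
 .e))))
 (.a 1 [361] (.q 394 (.a 1 [] (.d 393 392 392 393 397)
 (.a 1 [393] (.q 427 (.a 1 [] (.d 331 1323 299 1355 459)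
 (.a 1 [299] (.d 459 1355 331 1387 491)
 (.a 0 [331,459] (.q 365 (.a 1 [] (.d 334 3375 303 3406 458)
 (.a 1 [303] (.d 458 3406 334 3437 489)
 (.a 0 [334,458] (.q 332 (.a 1 [] (.d 301 3342 270 3373 425)
 (.a 1 [270] (.d 425 3373 301 3404 456)
 (.a 1 [301] (.r 398 394 397 (.d 431 2347 299 2380 464))
 .e))))
 .e))))
 .e))))
 (.a 1 [397] (.q 427 (.a 1 [] (.d 331 1323 299 1355 459)
 (.a 1 [299] (.d 459 1355 331 1387 491)
 (.a 0 [331,459] (.q 332 (.a 1 [] (.d 301 3342 270 3373 425)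
 (.a 1 [270] (.d 425 3373 301 3404 456)
 (.a 0 [301,425] (.q 365 (.a 1 [] (.d 334 3375 303 3406 458)
 (.a 1 [303] (.d 458 3406 334 3437 489)
 (.a 0 [334,458] (.q 364 (.a 1 [] (.d 366 362 362 363 367)
 (.a 1 [362] (.d 428 1324 300 1356 460)
 .e)))
 .e))))
 .e))))
 .e))))
 (.a 1 [392] (.d 397 393 393 394 398)
 .e)))))
 (.a 1 [460] (.q 427 (.a 1 [] (.d 331 1323 299 1355 459)
 (.a 1 [459] (.q 394 (.a 1 [] (.d 393 392 392 393 397)
 (.a 1 [392] (.d 397 393 393 394 398)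
 (.a 0 [393,397] (.q 332 (.a 1 [] (.d 301 3342 270 3373 425)
 (.a 1 [270] (.d 425 3373 301 3404 456)
 (.a 0 [301,425] (.q 365 (.a 1 [] (.d 334 3375 303 3406 458)
 (.a 1 [303] (.d 458 3406 334 3437 489)
 (.a 1 [334] (.r 299 1323 331 (.d 398 2314 266 2347 431))
 .e))))
 .e))))
 .e))))
 (.a 1 [331] (.q 394 (.a 1 [] (.d 393 392 392 393 397)
 (.a 1 [392] (.d 397 393 393 394 398)
 (.a 0 [393,397] (.q 365 (.a 1 [] (.d 334 3375 303 3406 458)
 (.a 1 [303] (.d 458 3406 334 3437 489)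
 (.a 0 [334,458] (.q 332 (.a 1 [] (.d 301 3342 270 3373 425)
 (.a 1 [270] (.d 425 3373 301 3404 456)
 (.a 0 [301,425] (.q 364 (.a 1 [] (.d 362 361 361 362 366)
 (.a 1 [361] (.d 366 362 362 363 367)
 (.a 1 [362] (.d 300 1292 268 1324 428)
 .e))))
 .e))))
 .e))))
 .e))))
 .e))))
 (.a 1 [426] (.q 394 (.a 1 [] (.d 393 392 392 393 397)
 (.a 1 [393] (.q 332 (.a 1 [] (.d 301 3342 270 3373 425)
 (.a 1 [270] (.d 425 3373 301 3404 456)
 (.a 0 [301,425] (.q 299 (.a 1 [] (.d 331 1291 267 1323 427)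
 (.a 1 [267] (.r 427 1323 331 (.r 398 394 397 (.d 365 2314 266 2347 431)))
 (.a 1 [331] (.r 398 394 397 (.d 365 2314 266 2347 431))
 .e))))
 .e))))
 (.a 1 [397] (.q 427 (.a 1 [] (.d 331 1323 299 1355 459)
 (.a 1 [299] (.d 459 1355 331 1387 491)
 (.a 0 [331,459] (.q 332 (.a 1 [] (.d 301 3342 270 3373 425)
 (.a 1 [270] (.d 425 3373 301 3404 456)
 (.a 0 [301,425] (.q 365 (.a 1 [] (.d 334 3375 303 3406 458)
 (.a 1 [303] (.d 458 3406 334 3437 489)
 (.a 0 [334,458] (.q 364 (.a 1 [] (.d 362 361 361 362 366)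
 (.a 1 [361] (.d 366 362 362 363 367)
 (.a 1 [362] (.d 300 1292 268 1324 428)
 .e))))
 .e))))
 .e))))
 .e))))
 .e))))
 (.a 1 [457] (.q 427 (.a 1 [] (.d 331 1323 299 1355 459)
 (.a 1 [331] (.q 394 (.a 1 [] (.d 393 392 392 393 397)
 (.a 1 [392] (.d 397 393 393 394 398)
 (.a 0 [393,397] (.q 330 (.a 1 [] (.d 297 2312 264 2345 429)
 (.a 1 [264] (.d 429 2345 297 2378 462)
 (.a 0 [297,429] (.q 365 (.a 1 [] (.d 334 3375 303 3406 458)
 (.a 1 [303] (.d 458 3406 334 3437 489)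
 (.a 1 [334] (.r 458 3437 489 (.r 362 1354 426 (.d 364 361 361 362 366)))
 (.a 0 [458] (.q 361 (.a 1 [] (.d 328 2343 295 2376 460)
 (.a 1 [295] (.d 460 2376 328 2409 493)
 (.a 1 [328] (.r 362 361 364 (.d 298 1290 266 1322 426))
 .e))))
 .e)))))
 .e))))
 .e))))
 (.a 1 [459] (.q 394 (.a 1 [] (.d 393 392 392 393 397)
 (.a 1 [392] (.d 397 393 393 394 398)
 (.a 0 [393,397] (.q 429 (.a 1 [] (.d 330 2345 297 2378 462)
 (.a 1 [297] (.d 462 2378 330 2411 495)
 (.a 0 [330,462] (.q 460 (.a 1 [] (.d 361 2376 328 2409 493)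
 (.a 1 [328] (.d 493 2409 361 2442 526)
 (.a 0 [361,493] (.q 425 (.a 1 [] (.d 332 3373 301 3404 456)
 (.a 1 [301] (.d 456 3404 332 3435 487)
 (.a 1 [332] (.r 428 425 426 (.d 492 1388 364 1420 524))
 .e))))
 .e))))
 .e))))
 .e))))
 (.a 1 [299] (.d 459 1355 331 1387 491)
 .e)))))
 (.a 1 [335] (.q 394 (.a 1 [] (.d 393 392 392 393 397)
 (.a 1 [397] (.q 429 (.a 1 [] (.d 330 2345 297 2378 462)
 (.a 1 [297] (.d 462 2378 330 2411 495)
 (.a 0 [330,462] (.q 299 (.a 1 [] (.d 331 1291 267 1323 427)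
 (.a 0 [267,331,427] (.q 332 (.a 1 [] (.d 301 3342 270 3373 425)
 (.a 1 [270] (.d 425 3373 301 3404 456)
 (.a 0 [301,425] (.q 365 (.a 1 [] (.d 266 2281 233 2314 398)
 (.a 1 [233] (.d 398 2314 266 2347 431)
 (.a 0 [266,398] (.q 364 (.a 1 [] (.d 362 361 361 362 366)
 (.a 1 [361] (.d 366 362 362 363 367)
 (.a 1 [362] (.d 300 1292 268 1324 428)
 .e))))
 .e))))
 .e))))
 .e)))
 .e))))
 (.a 1 [393] (.q 332 (.a 1 [] (.d 301 3342 270 3373 425)
 (.a 1 [270] (.d 425 3373 301 3404 456)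
 (.a 0 [301,425] (.q 299 (.a 1 [] (.d 331 1291 267 1323 427)
 (.a 1 [267] (.r 427 1323 331 (.r 398 394 397 (.d 365 2314 266 2347 431)))
 (.a 1 [331] (.r 398 394 397 (.d 365 2314 266 2347 431))
 .e))))
 .e))))
 .e))))
 (.a 0 [463] (.q 330 (.a 1 [] (.d 297 2312 264 2345 429)
 (.a 1 [297] (.q 394 (.a 1 [] (.d 393 392 392 393 397)
 (.a 1 [397] (.q 299 (.a 1 [] (.d 331 1291 267 1323 427)
 (.a 1 [267] (.r 427 1323 331 (.r 392 392 393 (.d 361 3340 268 3371 423)))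
 (.a 1 [331] (.r 392 392 393 (.d 361 3340 268 3371 423))
 .e))))
 (.a 1 [393] (.q 362 (.a 1 [] (.d 298 1290 266 1322 426)
 (.a 1 [266] (.d 426 1322 298 1354 458)
 (.a 0 [298,426] (.q 364 (.a 1 [] (.d 361 360 360 361 365)
 (.a 1 [360] (.d 365 361 361 362 366)
 (.a 0 [361,365] (.q 329 (.a 1 [] (.d 296 2311 263 2344 428)
 (.a 1 [263] (.d 428 2344 296 2377 461)
 (.a 1 [296] (.r 428 2377 461 (.d 460 1356 332 1388 492))
 (.a 0 [428] (.q 332 (.a 1 [] (.d 301 3342 270 3373 425)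
 (.a 1 [270] (.d 425 3373 301 3404 456)
 (.a 1 [301] (.r 331 328 328 (.d 427 1323 299 1355 459))
 .e))))
 .e)))))
 .e))))
 .e))))
 .e))))
 (.a 1 [429] (.q 397 (.a 1 [] (.d 394 393 393 394 398)
 (.a 1 [393] (.d 398 394 394 395 399)
 (.a 0 [394,398] (.q 299 (.a 1 [] (.d 331 1291 267 1323 427)
 (.a 0 [267,331,427] (.q 361 (.a 1 [] (.d 268 3309 237 3340 392)
 (.a 1 [237] (.d 392 3340 268 3371 423)
 (.a 0 [268,392] (.q 362 (.a 1 [] (.d 360 359 359 360 364)
 (.a 1 [359] (.d 364 360 360 361 365)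
 (.a 0 [360,364] (.q 296 (.a 1 [] (.d 329 2311 263 2344 428)
 (.a 1 [263] (.r 297 2312 264 (.d 298 295 295 296 300))
 .e)))
 .e))))
 .e))))
 .e)))
 .e))))
 (.a 1 [264] (.d 429 2345 297 2378 462)
 .e)))))
 (.a 1 [430] (.q 429 (.a 1 [] (.d 330 2345 297 2378 462)
 (.a 1 [462] (.q 398 (.a 1 [] (.d 397 394 394 395 399)
 (.a 0 [394,397,399] (.q 427 (.a 1 [] (.d 331 1323 299 1355 459)
 (.a 1 [299] (.d 459 1355 331 1387 491)
 (.a 1 [331] (.r 491 1387 459 (.d 460 3439 367 3470 522))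
 (.a 0 [459] (.q 365 (.a 1 [] (.d 334 3375 303 3406 458)
 (.a 1 [303] (.d 458 3406 334 3437 489)
 (.a 1 [334] (.r 299 1323 331 (.d 332 2314 266 2347 431))
 .e))))
 .e)))))
 .e)))
 (.a 1 [330] (.q 397 (.a 1 [] (.d 394 393 393 394 398)
 (.a 1 [393] (.d 398 394 394 395 399)
 (.a 0 [394,398] (.q 461 (.a 1 [] (.d 493 1389 365 1421 525)
 (.a 0 [365,493,525] (.q 459 (.a 1 [] (.d 427 1355 331 1387 491)
 (.a 1 [331] (.r 462 2411 495 (.d 460 458 458 459 463))
 .e)))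
 .e)))
 .e))))
 .e))))
 (.a 0 [265] (.q 429 (.a 1 [] (.d 330 2345 297 2378 462)
 (.a 1 [462] (.q 427 (.a 1 [] (.d 331 1323 299 1355 459)
 (.a 1 [331] (.q 398 (.a 1 [] (.d 397 394 394 395 399)
 (.a 1 [394] (.r 491 1387 459 (.d 460 3439 367 3470 522))
 .e)))
 (.a 1 [459] (.q 428 (.a 1 [] (.d 426 425 425 426 430)
 (.a 1 [425] (.d 430 426 426 427 431)
 (.a 0 [426,430] (.q 364 (.a 1 [] (.d 332 1324 300 1356 460)
 (.a 1 [300] (.d 460 1356 332 1388 492)
 (.a 0 [332,460] (.q 461 (.a 1 [] (.d 362 2377 329 2410 494)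
 (.a 1 [329] (.d 494 2410 362 2443 527)
 (.a 1 [494] (.r 362 2377 329 (.d 365 361 361 362 366))
 (.a 0 [362] (.q 365 (.a 1 [] (.d 334 3375 303 3406 458)
 (.a 1 [303] (.d 458 3406 334 3437 489)
 (.a 1 [334] (.r 397 1389 493 (.d 398 394 394 395 399))
 .e))))
 .e)))))
 .e))))
 .e))))
 .e))))
 (.a 1 [330] (.q 331 (.a 1 [] (.d 299 1291 267 1323 427)
 (.a 1 [267] (.d 427 1323 299 1355 459)
 (.a 0 [299,427] (.q 398 (.a 1 [] (.d 397 394 394 395 399)
 (.a 0 [394,397,399] (.q 460 (.a 1 [] (.d 367 3408 336 3439 491)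
 (.a 1 [336] (.d 491 3439 367 3470 522)
 (.a 0 [367,491] (.q 428 (.a 1 [] (.d 364 1356 332 1388 492)
 (.a 1 [332] (.d 492 1388 364 1420 524)
 (.a 0 [364,492] (.q 494 (.a 1 [] (.d 461 2410 362 2443 527)
 (.a 1 [362] (.r 462 2411 495 (.d 430 1390 366 1422 526))
 .e)))
 .e))))
 .e))))
 .e)))
 .e))))
 .e))))
 (.a 1 [298] (.q 330 (.a 1 [] (.d 297 2312 264 2345 429)
 (.a 1 [297] (.q 299 (.a 1 [] (.d 331 1291 267 1323 427)
 (.a 0 [267,331,427] (.q 394 (.a 1 [] (.d 393 392 392 393 397)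
 (.a 1 [392] (.d 397 393 393 394 398)
 (.a 1 [397] (.r 392 392 393 (.d 361 3340 268 3371 423))
 (.a 0 [393] (.q 332 (.a 1 [] (.d 301 3342 270 3373 425)
 (.a 1 [270] (.d 425 3373 301 3404 456)
 (.a 1 [301] (.r 398 394 397 (.d 365 2314 266 2347 431))
 .e))))
 .e)))))
 .e)))
 (.a 1 [429] (.q 331 (.a 1 [] (.d 299 1291 267 1323 427)
 (.a 1 [267] (.d 427 1323 299 1355 459)
 (.a 0 [299,427] (.q 329 (.a 1 [] (.d 328 327 327 328 332)
 (.a 0 [327,328,332] (.q 393 (.a 1 [] (.d 394 392 392 393 397)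
 (.a 1 [392] (.r 297 2312 264 (.d 361 1289 265 1321 425))
 .e)))
 .e)))
 .e))))
 .e))))
 (.a 1 [455] (.q 427 (.a 1 [] (.d 331 1323 299 1355 459)
 (.a 1 [331] (.q 330 (.a 1 [] (.d 297 2312 264 2345 429)
 (.a 1 [264] (.d 429 2345 297 2378 462)
 (.a 0 [297,429] (.q 398 (.a 1 [] (.d 397 394 394 395 399)
 (.a 0 [394,397,399] (.q 365 (.a 1 [] (.d 334 3375 303 3406 458)
 (.a 1 [303] (.d 458 3406 334 3437 489)
 (.a 0 [334,458] (.q 332 (.a 1 [] (.d 299 2314 266 2347 431)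
 (.a 1 [266] (.d 431 2347 299 2380 464)
 (.a 0 [299,431] (.q 364 (.a 1 [] (.d 362 361 361 362 366)
 (.a 1 [361] (.d 366 362 362 363 367)
 (.a 1 [362] (.d 300 1292 268 1324 428)
 .e))))
 .e))))
 .e))))
 .e)))
 .e))))
 (.a 1 [459] (.q 394 (.a 1 [] (.d 393 392 392 393 397)
 (.a 1 [392] (.d 397 393 393 394 398)
 (.a 0 [393,397] (.q 429 (.a 1 [] (.d 330 2345 297 2378 462)
 (.a 1 [297] (.d 462 2378 330 2411 495)
 (.a 0 [330,462] (.q 460 (.a 1 [] (.d 361 2376 328 2409 493)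
 (.a 1 [328] (.d 493 2409 361 2442 526)
 (.a 0 [361,493] (.q 428 (.a 1 [] (.d 426 425 425 426 430)
 (.a 1 [425] (.d 430 426 426 427 431)
 (.a 1 [426] (.d 364 1356 332 1388 492)
 .e))))
 .e))))
 .e))))
 .e))))
 (.a 1 [299] (.d 459 1355 331 1387 491)
 .e)))))
 (.a 1 [521] (.q 427 (.a 1 [] (.d 331 1323 299 1355 459)
 (.a 1 [331] (.q 394 (.a 1 [] (.d 393 392 392 393 397)
 (.a 1 [392] (.d 397 393 393 394 398)
 (.a 0 [393,397] (.q 330 (.a 1 [] (.d 297 2312 264 2345 429)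
 (.a 1 [264] (.d 429 2345 297 2378 462)
 (.a 0 [297,429] (.q 365 (.a 1 [] (.d 334 3375 303 3406 458)
 (.a 1 [303] (.d 458 3406 334 3437 489)
 (.a 1 [334] (.r 458 3437 489 (.r 362 1354 426 (.d 364 361 361 362 366)))
 (.a 0 [458] (.q 362 (.a 1 [] (.d 364 361 361 362 366)
 (.a 1 [361] (.d 298 1290 266 1322 426)
 .e)))
 .e)))))
 .e))))
 .e))))
 (.a 1 [459] (.q 365 (.a 1 [] (.d 334 3375 303 3406 458)
 (.a 1 [303] (.d 458 3406 334 3437 489)
 (.a 0 [334,458] (.q 398 (.a 1 [] (.d 397 394 394 395 399)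
 (.a 1 [394] (.r 299 1323 331 (.d 332 2314 266 2347 431))
 .e)))
 .e))))
 .e))))
 (.a 1 [429] (.q 427 (.a 1 [] (.d 331 1323 299 1355 459)
 (.a 1 [299] (.d 459 1355 331 1387 491)
 (.a 0 [331,459] (.q 394 (.a 1 [] (.d 393 392 392 393 397)
 (.a 1 [392] (.d 397 393 393 394 398)
 (.a 0 [393,397] (.q 365 (.a 1 [] (.d 334 3375 303 3406 458)
 (.a 1 [303] (.d 458 3406 334 3437 489)
 (.a 0 [334,458] (.q 332 (.a 1 [] (.d 301 3342 270 3373 425)
 (.a 1 [270] (.d 425 3373 301 3404 456)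
 (.a 0 [301,425] (.q 364 (.a 1 [] (.d 362 361 361 362 366)
 (.a 1 [361] (.d 366 362 362 363 367)
 (.a 1 [362] (.d 300 1292 268 1324 428)
 .e))))
 .e))))
 .e))))
 .e))))
 .e))))
 (.a 1 [297] (.q 394 (.a 1 [] (.d 393 392 392 393 397)
 (.a 1 [392] (.d 397 393 393 394 398)
 (.a 0 [393,397] (.q 427 (.a 1 [] (.d 331 1323 299 1355 459)
 (.a 1 [299] (.d 459 1355 331 1387 491)
 (.a 0 [331,459] (.q 365 (.a 1 [] (.d 334 3375 303 3406 458)
 (.a 1 [303] (.d 458 3406 334 3437 489)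
 (.a 0 [334,458] (.q 332 (.a 1 [] (.d 301 3342 270 3373 425)
 (.a 1 [270] (.d 425 3373 301 3404 456)
 (.a 0 [301,425] (.q 361 (.a 1 [] (.d 328 2343 295 2376 460)
 (.a 1 [295] (.d 460 2376 328 2409 493)
 (.a 1 [328] (.r 364 361 362 (.d 428 1324 300 1356 460))
 (.a 1 [460] (.r 364 361 362 (.d 300 1292 268 1324 428))
 .e)))))
 .e))))
 .e))))
 .e))))
 .e))))
 (.a 1 [299] (.q 394 (.a 1 [] (.d 393 392 392 393 397)
 (.a 1 [392] (.d 397 393 393 394 398)
 (.a 0 [393,397] (.q 429 (.a 1 [] (.d 330 2345 297 2378 462)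
 (.a 1 [297] (.d 462 2378 330 2411 495)
 (.a 0 [330,462] (.q 427 (.a 1 [] (.d 459 1355 331 1387 491)
 (.a 0 [331,459,491] (.q 332 (.a 1 [] (.d 301 3342 270 3373 425)
 (.a 1 [270] (.d 425 3373 301 3404 456)
 (.a 1 [301] (.r 425 3404 456 (.r 428 425 426 (.d 364 1324 300 1356 460)))
 (.a 0 [425] (.q 428 (.a 1 [] (.d 430 426 426 427 431)
 (.a 1 [426] (.d 364 1324 300 1356 460)
 .e)))
 .e)))))
 .e)))
 .e))))
 .e))))
 (.a 1 [393] (.q 427 (.a 1 [] (.d 331 1323 299 1355 459)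
 (.a 1 [299] (.d 459 1355 331 1387 491)
 (.a 0 [331,459] (.q 330 (.a 1 [] (.d 297 2312 264 2345 429)
 (.a 1 [264] (.d 429 2345 297 2378 462)
 (.a 0 [297,429] (.q 398 (.a 1 [] (.d 397 394 394 395 399)
 (.a 0 [394,397,399] (.q 365 (.a 1 [] (.d 334 3375 303 3406 458)
 (.a 1 [303] (.d 458 3406 334 3437 489)
 (.a 0 [334,458] (.q 332 (.a 1 [] (.d 299 2314 266 2347 431)
 (.a 1 [266] (.d 431 2347 299 2380 464)
 (.a 0 [299,431] (.q 364 (.a 1 [] (.d 362 361 361 362 366)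
 (.a 1 [361] (.d 366 362 362 363 367)
 (.a 1 [362] (.d 300 1292 268 1324 428)
 .e))))
 .e))))
 .e))))
 .e)))
 .e))))
 .e))))
 (.a 1 [398] (.q 427 (.a 1 [] (.d 331 1323 299 1355 459)
 (.a 1 [299] (.d 459 1355 331 1387 491)
 (.a 0 [331,459] (.q 330 (.a 1 [] (.d 297 2312 264 2345 429)
 (.a 1 [264] (.d 429 2345 297 2378 462)
 (.a 0 [297,429] (.q 394 (.a 1 [] (.d 393 392 392 393 397)
 (.a 0 [392,393,397] (.q 365 (.a 1 [] (.d 334 3375 303 3406 458)
 (.a 1 [303] (.d 458 3406 334 3437 489)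
 (.a 1 [334] (.r 458 3437 489 (.r 362 1354 426 (.d 364 361 361 362 366)))
 (.a 0 [458] (.q 362 (.a 1 [] (.d 364 361 361 362 366)
 (.a 1 [361] (.d 298 1290 266 1322 426)
 .e)))
 .e)))))
 .e)))
 .e))))
 .e))))
 (.a 1 [459] (.q 394 (.a 1 [] (.d 393 392 392 393 397)
 (.a 1 [392] (.d 397 393 393 394 398)
 (.a 0 [393,397] (.q 429 (.a 1 [] (.d 330 2345 297 2378 462)
 (.a 1 [297] (.d 462 2378 330 2411 495)
 (.a 0 [330,462] (.q 299 (.a 1 [] (.d 331 1291 267 1323 427)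
 (.a 0 [267,331,427] (.q 332 (.a 1 [] (.d 301 3342 270 3373 425)
 (.a 1 [270] (.d 425 3373 301 3404 456)
 (.a 0 [301,425] (.q 365 (.a 1 [] (.d 266 2281 233 2314 398)
 (.a 1 [233] (.d 398 2314 266 2347 431)
 (.a 0 [266,398] (.q 364 (.a 1 [] (.d 362 361 361 362 366)
 (.a 1 [361] (.d 366 362 362 363 367)
 (.a 1 [362] (.d 300 1292 268 1324 428)
 .e))))
 .e))))
 .e))))
 .e)))
 .e))))
 .e))))
 (.a 1 [462] (.q 394 (.a 1 [] (.d 393 392 392 393 397)
 (.a 1 [392] (.d 397 393 393 394 398)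
 (.a 0 [393,397] (.q 427 (.a 1 [] (.d 331 1323 299 1355 459)
 (.a 1 [299] (.d 459 1355 331 1387 491)
 (.a 0 [331,459] (.q 332 (.a 1 [] (.d 301 3342 270 3373 425)
 (.a 1 [270] (.d 425 3373 301 3404 456)
 (.a 0 [301,425] (.q 365 (.a 1 [] (.d 334 3375 303 3406 458)
 (.a 1 [303] (.d 458 3406 334 3437 489)
 (.a 0 [334,458] (.q 460 (.a 1 [] (.d 361 2376 328 2409 493)
 (.a 1 [328] (.d 493 2409 361 2442 526)
 (.a 1 [361] (.r 364 1356 428 (.d 366 362 362 363 367))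
 .e))))
 .e))))
 .e))))
 .e))))
 .e))))
 (.a 1 [392] (.q 427 (.a 1 [] (.d 331 1323 299 1355 459)
 (.a 1 [299] (.d 459 1355 331 1387 491)
 (.a 0 [331,459] (.q 330 (.a 1 [] (.d 297 2312 264 2345 429)
 (.a 1 [264] (.d 429 2345 297 2378 462)
 (.a 0 [297,429] (.q 394 (.a 1 [] (.d 397 393 393 394 398)
 (.a 0 [393,397,398] (.q 365 (.a 1 [] (.d 334 3375 303 3406 458)
 (.a 1 [303] (.d 458 3406 334 3437 489)
 (.a 1 [334] (.r 458 3437 489 (.r 362 1354 426 (.d 364 361 361 362 366)))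
 (.a 0 [458] (.q 362 (.a 1 [] (.d 364 361 361 362 366)
 (.a 1 [361] (.d 298 1290 266 1322 426)
 .e)))
 .e)))))
 .e)))
 .e))))
 .e))))
 (.a 1 [491] (.q 394 (.a 1 [] (.d 393 392 392 393 397)
 (.a 1 [392] (.d 397 393 393 394 398)
 (.a 0 [393,397] (.q 429 (.a 1 [] (.d 330 2345 297 2378 462)
 (.a 1 [297] (.d 462 2378 330 2411 495)
 (.a 0 [330,462] (.q 427 (.a 1 [] (.d 331 1323 299 1355 459)
 (.a 0 [299,331,459] (.q 332 (.a 1 [] (.d 301 3342 270 3373 425)
 (.a 1 [270] (.d 425 3373 301 3404 456)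
 (.a 1 [301] (.r 425 3404 456 (.r 428 425 426 (.d 364 1324 300 1356 460)))
 (.a 0 [425] (.q 428 (.a 1 [] (.d 430 426 426 427 431)
 (.a 1 [426] (.d 364 1324 300 1356 460)
 .e)))
 .e)))))
 .e)))
 .e))))
 .e))))
 (.a 1 [461] (.q 394 (.a 1 [] (.d 393 392 392 393 397)
 (.a 1 [392] (.d 397 393 393 394 398)
 (.a 0 [393,397] (.q 429 (.a 1 [] (.d 330 2345 297 2378 462)
 (.a 1 [297] (.d 462 2378 330 2411 495)
 (.a 0 [330,462] (.q 299 (.a 1 [] (.d 331 1291 267 1323 427)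
 (.a 0 [267,331,427] (.q 332 (.a 1 [] (.d 301 3342 270 3373 425)
 (.a 1 [270] (.d 425 3373 301 3404 456)
 (.a 0 [301,425] (.q 365 (.a 1 [] (.d 266 2281 233 2314 398)
 (.a 1 [233] (.d 398 2314 266 2347 431)
 (.a 0 [266,398] (.q 364 (.a 1 [] (.d 362 361 361 362 366)
 (.a 1 [361] (.d 366 362 362 363 367)
 (.a 1 [362] (.d 300 1292 268 1324 428)
 .e))))
 .e))))
 .e))))
 .e)))
 .e))))
 .e))))
 (.a 1 [425] (.q 427 (.a 1 [] (.d 331 1323 299 1355 459)
 (.a 1 [299] (.d 459 1355 331 1387 491)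
 (.a 0 [331,459] (.q 394 (.a 1 [] (.d 393 392 392 393 397)
 (.a 1 [392] (.d 397 393 393 394 398)
 (.a 0 [393,397] (.q 361 (.a 1 [] (.d 328 2343 295 2376 460)
 (.a 1 [295] (.d 460 2376 328 2409 493)
 (.a 0 [328,460] (.q 330 (.a 1 [] (.d 297 2312 264 2345 429)
 (.a 1 [264] (.d 429 2345 297 2378 462)
 (.a 0 [297,429] (.q 365 (.a 1 [] (.d 334 3375 303 3406 458)
 (.a 1 [303] (.d 458 3406 334 3437 489)
 (.a 1 [334] (.r 362 361 364 (.d 426 1322 298 1354 458))
 (.a 1 [458] (.r 362 361 364 (.d 298 1290 266 1322 426))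
 .e)))))
 .e))))
 .e))))
 .e))))
 .e))))
 (.a 1 [458] (.q 394 (.a 1 [] (.d 393 392 392 393 397)
 (.a 1 [392] (.d 397 393 393 394 398)
 (.a 0 [393,397] (.q 427 (.a 1 [] (.d 331 1323 299 1355 459)
 (.a 1 [299] (.d 459 1355 331 1387 491)
 (.a 0 [331,459] (.q 460 (.a 1 [] (.d 361 2376 328 2409 493)
 (.a 1 [328] (.d 493 2409 361 2442 526)
 (.a 0 [361,493] (.q 429 (.a 1 [] (.d 330 2345 297 2378 462)
 (.a 1 [297] (.d 462 2378 330 2411 495)
 (.a 0 [330,462] (.q 332 (.a 1 [] (.d 301 3342 270 3373 425)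
 (.a 1 [270] (.d 425 3373 301 3404 456)
 (.a 1 [301] (.r 428 1356 364 (.d 425 425 426 3404 456))
 (.a 1 [425] (.r 428 1356 364 (.d 430 426 426 427 431))
 .e)))))
 .e))))
 .e))))
 .e))))
 .e))))
 (.a 1 [456] (.q 427 (.a 1 [] (.d 331 1323 299 1355 459)
 (.a 1 [299] (.d 459 1355 331 1387 491)
 (.a 0 [331,459] (.q 394 (.a 1 [] (.d 393 392 392 393 397)
 (.a 1 [392] (.d 397 393 393 394 398)
 (.a 0 [393,397] (.q 460 (.a 1 [] (.d 361 2376 328 2409 493)
 (.a 1 [328] (.d 493 2409 361 2442 526)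
 (.a 0 [361,493] (.q 429 (.a 1 [] (.d 330 2345 297 2378 462)
 (.a 1 [297] (.d 462 2378 330 2411 495)
 (.a 0 [330,462] (.q 332 (.a 1 [] (.d 301 3342 270 3373 425)
 (.a 1 [270] (.r 428 1356 364 (.d 425 3373 301 425 426))
 (.a 1 [301] (.r 428 1356 364 (.d 426 425 425 426 430))
 (.a 1 [425] (.r 428 1356 364 (.d 430 426 426 427 431))
 .e)))))
 .e))))
 .e))))
 .e))))
 .e))))
 (.a 1 [489] (.q 394 (.a 1 [] (.d 393 392 392 393 397)
 (.a 1 [392] (.d 397 393 393 394 398)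
 (.a 0 [393,397] (.q 427 (.a 1 [] (.d 331 1323 299 1355 459)
 (.a 1 [299] (.d 459 1355 331 1387 491)
 (.a 0 [331,459] (.q 361 (.a 1 [] (.d 328 2343 295 2376 460)
 (.a 1 [295] (.d 460 2376 328 2409 493)
 (.a 0 [328,460] (.q 330 (.a 1 [] (.d 297 2312 264 2345 429)
 (.a 1 [264] (.d 429 2345 297 2378 462)
 (.a 0 [297,429] (.q 365 (.a 1 [] (.d 334 3375 303 3406 458)
 (.a 1 [303] (.r 362 361 364 (.d 426 1322 298 1354 458))
 (.a 1 [458] (.r 362 361 364 (.d 298 1290 266 1322 426))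
 .e))))
 .e))))
 .e))))
 .e))))
 .e))))
 (.a 1 [424] (.q 427 (.a 1 [] (.d 331 1323 299 1355 459)
 (.a 1 [299] (.d 459 1355 331 1387 491)
 (.a 0 [331,459] (.q 330 (.a 1 [] (.d 297 2312 264 2345 429)
 (.a 1 [264] (.d 429 2345 297 2378 462)
 (.a 0 [297,429] (.q 398 (.a 1 [] (.d 397 394 394 395 399)
 (.a 0 [394,397,399] (.q 365 (.a 1 [] (.d 334 3375 303 3406 458)
 (.a 1 [303] (.d 458 3406 334 3437 489)
 (.a 0 [334,458] (.q 332 (.a 1 [] (.d 299 2314 266 2347 431)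
 (.a 1 [266] (.d 431 2347 299 2380 464)
 (.a 0 [299,431] (.q 364 (.a 1 [] (.d 362 361 361 362 366)
 (.a 1 [361] (.d 366 362 362 363 367)
 (.a 1 [362] (.d 300 1292 268 1324 428)
 .e))))
 .e))))
 .e))))
 .e)))
 .e))))
 .e))))
 .e))))))))))))))))))))))))))))))))))))))))))) (by decide +kernel)

theorem all : RT X2 562 (430 :: 434 :: 438 :: 463 :: 466 :: 469 :: 496 :: 498 :: 500 :: 529 :: 530 :: 531 :: 558 :: 559 :: 560 :: 561 :: 563 :: 564 :: 565 :: 566 :: 593 :: 594 :: 595 :: 624 :: 626 :: 628 :: 655 :: 658 :: 661 :: 686 :: 690 :: 694 :: 332 :: 333 :: []) := ⟨r430, r434, r438, r463, r466, r469, r496, r498, r500, r529, r530, r531, r558, r559, r560, r561, r563, r564, r565, r566, r593, r594, r595, r624, r626, r628, r655, r658, r661, r686, r690, r694, r332, r333, trivial⟩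

end Pool.Agent.H94.Five.Mid.K7_6_0
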