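import Pool.Agent.H94.Five.Mid.Fam

set_option autoImplicit false
set_option linter.all false
set_option maxRecDepth 100000

/-! Second has the cell (8, 1): some of the other stones. -/

namespace Pool.Agent.H94.Five.Mid.K8_1_0

open Pool.Agent.H79.Five Pool.Agent.H10.Five Pool.Agent.H94.Five.M

abbrev nl : List Ent := [n0, n3, n4, n6, n8, n9, n10, n11, n16, n17, n21, n22]

theorem nl_ok : AC XB M0 nl := .cons n0k <| .cons n3k <| .cons n4k <| .cons n6k <| .cons n8k <| .cons n9k <| .cons n10k <| .cons n11k <| .cons n16k <| .cons n17k <| .cons n21k <| .cons n22k <| .nil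

abbrev fl : List Ent := (x45 :: x61 :: x73 :: x74 :: x93 :: x96 :: x103 :: x108 :: x111 :: x127 :: x128 :: x130 :: x134 :: x142 :: x144 :: x161 :: x167 :: x171 :: x174 :: x177 :: x183 :: x194 :: x201 :: x204 :: x208 :: x214 :: x223 :: x243 :: x245 :: x255 :: x258 :: x260 :: x266 :: x269 :: x270 :: x276 :: x277 :: x284 :: x291 :: x292 :: x310 :: x313 :: x316 :: x318 :: x322 :: x328 :: x332 :: x339 :: x357 :: x363 :: x364 :: x371 :: x375 :: x379 :: x383 :: x390 :: x400 :: x413 :: x415 :: x424 :: x426 :: x427 :: x434 :: x437 :: x444 :: x451 :: x452 :: x460 :: x462 :: x472 :: x501 :: x518 :: [])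

theorem fl_ok : AC XB M0 fl := .cons x45k <| .cons x61k <| .cons x73k <| .cons x74k <| .cons x93k <| .cons x96k <| .cons x103k <| .cons x108k <| .cons x111k <| .cons x127k <| .cons x128k <| .cons x130k <| .cons x134k <| .cons x142k <| .cons x144k <| .cons x161k <| .cons x167k <| .cons x171k <| .cons x174k <| .cons x177k <| .cons x183k <| .cons x194k <| .cons x201k <| .cons x204k <| .cons x208k <| .cons x214k <| .cons x223k <| .cons x243k <| .cons x245k <| .cons x255k <| .cons x258k <| .cons x260k <| .cons x266k <| .cons x269k <| .cons x270k <| .cons x276k <| .cons x277k <| .cons x284k <| .cons x291k <| .cons x292k <| .cons x310k <| .cons x313k <| .cons x316k <| .cons x318k <| .cons x322k <| .cons x328k <| .cons x332k <| .cons x339k <| .cons x357k <| .cons x363k <| .cons x364k <| .cons x371k <| .cons x375k <| .cons x379k <| .cons x383k <| .cons x390k <| .cons x400k <| .cons x413k <| .cons x415k <| .cons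 x424k <| .cons x426k <| .cons x427k <| .cons x434k <| .cons x437k <| .cons x444k <| .cons x451k <| .cons x452k <| .cons x460k <| .cons x462k <| .cons x472k <| .cons x501k <| .cons x518k <| .nil

theorem b2_2432 : S (PX [238,337] [172,271,273,304,403]) := S.of (.q 330 (.a 1 [] (.d 297 2312 264 2345 429)
 (.a 1 [264] (.d 429 2345 297 2378 462)
 (.a 0 [297,429] (.q 362 (.a 1 [] (.d 298 1290 266 1322 426)
 (.a 1 [266] (.d 426 1322 298 1354 458)
 (.a 0 [298,426] (.q 361 (.a 1 [] (.d 360 359 359 360 364)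
 (.a 1 [359] (.d 364 360 360 361 365)
 (.a 0 [360,364] (.q 427 (.a 1 [] (.d 328 2343 295 2376 460)
 (.a 1 [295] (.d 460 2376 328 2409 493)
 (.a 0 [328,460] (.q 395 (.a 1 [] (.d 393 392 392 393 397)
 (.a 1 [392] (.d 397 393 393 394 398)
 (.a 1 [393] (.d 331 1323 299 1355 459)
 .e))))
 .e))))
 .e))))
 .e))))
 .e)))) (by decide +kernel)

theorem b2_2433 : S (PX [238,337] [172,271,304,330,403]) := S.of (.q 395 (.a 1 [] (.d 393 392 392 393 397)
 (.a 1 [392] (.d 397 393 393 394 398)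
 (.a 0 [393,397] (.q 427 (.a 1 [] (.d 331 1323 299 1355 459)
 (.a 1 [299] (.d 459 1355 331 1387 491)
 (.a 0 [331,459] (.q 332 (.a 1 [] (.d 301 3342 270 3373 425)
 (.a 1 [270] (.d 425 3373 301 3404 456)
 (.a 0 [301,425] (.q 365 (.a 1 [] (.d 334 3375 303 3406 458)
 (.a 1 [303] (.d 458 3406 334 3437 489)
 (.a 0 [334,458] (.q 364 (.a 1 [] (.d 362 361 361 362 366)
 (.a 1 [361] (.d 366 362 362 363 367)
 (.a 1 [362] (.d 300 1292 268 1324 428)
 .e))))
 .e))))
 .e))))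
 .e))))
 .e)))) (by decide +kernel)

theorem b2_2434 : S (PX [238,337] [172,271,304,335,403]) := S.of (.q 332 (.a 1 [] (.d 301 3342 270 3373 425)
 (.a 1 [270] (.d 425 3373 301 3404 456)
 (.a 0 [301,425] (.q 397 (.a 1 [] (.d 395 393 393 394 398)
 (.a 0 [393,395,398] (.q 429 (.a 1 [] (.d 330 2345 297 2378 462)
 (.a 1 [297] (.d 462 2378 330 2411 495)
 (.a 0 [330,462] (.q 365 (.a 1 [] (.d 461 1357 333 1389 493)
 (.a 0 [333,461,493] (.q 364 (.a 1 [] (.d 362 361 361 362 366)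
 (.a 1 [361] (.d 366 362 362 363 367)
 (.a 1 [362] (.d 300 1292 268 1324 428)
 .e))))
 .e)))
 .e))))
 .e)))
 .e)))) (by decide +kernel)

theorem b2_2435 : S (PX [238,337] [172,271,304,366,403]) := S.of (.q 330 (.a 1 [] (.d 297 2312 264 2345 429)
 (.a 1 [264] (.d 429 2345 297 2378 462)
 (.a 0 [297,429] (.q 362 (.a 1 [] (.d 298 1290 266 1322 426)
 (.a 1 [266] (.d 426 1322 298 1354 458)
 (.a 0 [298,426] (.q 361 (.a 1 [] (.d 360 359 359 360 364)
 (.a 1 [359] (.d 364 360 360 361 365)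
 (.a 0 [360,364] (.q 427 (.a 1 [] (.d 328 2343 295 2376 460)
 (.a 1 [295] (.d 460 2376 328 2409 493)
 (.a 0 [328,460] (.q 395 (.a 1 [] (.d 393 392 392 393 397)
 (.a 1 [392] (.d 397 393 393 394 398)
 (.a 1 [393] (.d 331 1323 299 1355 459)
 .e))))
 .e))))
 .e))))
 .e))))
 .e)))) (by decide +kernel)

theorem b2_2436 : S (PX [238,337] [172,271,304,403,428]) := S.of (.q 330 (.a 1 [] (.d 297 2312 264 2345 429)
 (.a 1 [264] (.d 429 2345 297 2378 462)
 (.a 0 [297,429] (.q 332 (.a 1 [] (.d 301 3342 270 3373 425)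
 (.a 1 [270] (.d 425 3373 301 3404 456)
 (.a 0 [301] (.q 331 (.a 1 [] (.d 329 328 328 329 333)
 (.a 1 [328] (.d 333 329 329 330 334)
 (.a 0 [329] (.q 395 (.a 1 [] (.d 393 392 392 393 397)
 (.a 1 [392] (.d 397 393 393 394 398)
 (.a 1 [393] (.d 299 1291 267 1323 427)
 .e))))
 (.a 0 [333] (.q 397 (.a 1 [] (.d 395 393 393 394 398)
 (.a 1 [393] (.r 395 394 398 (.d 427 1323 299 1355 459))
 (.a 1 [398] (.r 395 393 393 (.d 427 1323 299 1355 459))
 (.a 0 [395] (.q 364 (.a 1 [] (.d 298 2313 265 2346 430)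
 (.a 1 [265] (.d 430 2346 298 2379 463)
 (.a 1 [298] (.r 300 1292 268 (.d 269 3279 207 3310 362))
 .e))))
 .e)))))
 .e)))))
 (.a 0 [425] (.q 426 (.a 1 [] (.d 362 1322 298 1354 458)
 (.a 0 [298,362,458] (.q 333 (.a 1 [] (.d 331 329 329 330 334)
 (.a 1 [329] (.r 334 330 331 (.r 270 3342 301 (.d 302 1230 206 1262 366)))
 (.a 0 [331,334] (.q 395 (.a 1 [] (.d 393 392 392 393 397)
 (.a 1 [392] (.d 397 393 393 394 398)
 (.a 1 [393] (.d 364 3374 302 3405 457)
 .e))))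
 .e))))
 .e)))
 .e)))))
 .e)))) (by decide +kernel)

theorem b2_2437 : S (PX [337] [271,273,304,403]) := S.of (.q 330 (.a 1 [] (.d 297 2312 264 2345 429)
 (.a 1 [264] (.d 429 2345 297 2378 462)
 (.a 0 [297,429] (.q 362 (.a 1 [] (.d 298 1290 266 1322 426)
 (.a 1 [266] (.d 426 1322 298 1354 458)
 (.a 0 [298,426] (.q 361 (.a 1 [] (.d 360 359 359 360 364)
 (.a 1 [359] (.d 364 360 360 361 365)
 (.a 0 [360,364] (.q 427 (.a 1 [] (.d 328 2343 295 2376 460)
 (.a 1 [295] (.d 460 2376 328 2409 493)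
 (.a 0 [328,460] (.q 395 (.a 1 [] (.d 393 392 392 393 397)
 (.a 1 [392] (.d 397 393 393 394 398)
 (.a 1 [393] (.d 331 1323 299 1355 459)
 .e))))
 .e))))
 .e))))
 .e))))
 .e)))) (by decide +kernel)

theorem b2_2438 : S (PX [337] [271,300,304,403]) := S.of (.q 330 (.a 1 [] (.d 297 2312 264 2345 429)
 (.a 1 [264] (.d 429 2345 297 2378 462)
 (.a 0 [297,429] (.q 425 (.a 1 [] (.d 332 3373 301 3404 456)
 (.a 1 [301] (.d 456 3404 332 3435 487)
 (.a 0 [332,456] (.q 393 (.a 1 [] (.d 395 392 392 393 397)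
 (.a 0 [392,395,397] (.q 361 (.a 1 [] (.d 457 1353 329 1385 489)
 (.a 0 [329,457,489] (.q 362 (.a 1 [] (.d 360 359 359 360 364)
 (.a 1 [359] (.d 364 360 360 361 365)
 (.a 1 [360] (.d 298 1290 266 1322 426)
 .e))))
 .e)))
 .e)))
 .e))))
 .e)))) (by decide +kernel)

theorem b2_2439 : S (PX [337] [271,304,330,403]) := S.of (.q 395 (.a 1 [] (.d 393 392 392 393 397)
 (.a 1 [392] (.d 397 393 393 394 398)
 (.a 0 [393,397] (.q 427 (.a 1 [] (.d 331 1323 299 1355 459)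
 (.a 1 [299] (.d 459 1355 331 1387 491)
 (.a 0 [331,459] (.q 332 (.a 1 [] (.d 301 3342 270 3373 425)
 (.a 1 [270] (.d 425 3373 301 3404 456)
 (.a 0 [301,425] (.q 365 (.a 1 [] (.d 334 3375 303 3406 458)
 (.a 1 [303] (.d 458 3406 334 3437 489)
 (.a 0 [334,458] (.q 364 (.a 1 [] (.d 362 361 361 362 366)
 (.a 1 [361] (.d 366 362 362 363 367)
 (.a 1 [362] (.d 300 1292 268 1324 428)
 .e))))
 .e))))
 .e))))
 .e))))
 .e)))) (by decide +kernel)

theorem b2_2440 : S (PX [337] [271,304,335,403]) := S.of (.q 332 (.a 1 [] (.d 301 3342 270 3373 425)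
 (.a 1 [270] (.d 425 3373 301 3404 456)
 (.a 0 [301,425] (.q 397 (.a 1 [] (.d 395 393 393 394 398)
 (.a 0 [393,395,398] (.q 429 (.a 1 [] (.d 330 2345 297 2378 462)
 (.a 1 [297] (.d 462 2378 330 2411 495)
 (.a 0 [330,462] (.q 365 (.a 1 [] (.d 461 1357 333 1389 493)
 (.a 0 [333,461,493] (.q 364 (.a 1 [] (.d 362 361 361 362 366)
 (.a 1 [361] (.d 366 362 362 363 367)
 (.a 1 [362] (.d 300 1292 268 1324 428)
 .e))))
 .e)))
 .e))))
 .e)))
 .e)))) (by decide +kernel)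

theorem b2_2441 : S (PX [337] [271,304,366,403]) := S.of (.q 330 (.a 1 [] (.d 297 2312 264 2345 429)
 (.a 1 [264] (.d 429 2345 297 2378 462)
 (.a 0 [297,429] (.q 362 (.a 1 [] (.d 298 1290 266 1322 426)
 (.a 1 [266] (.d 426 1322 298 1354 458)
 (.a 0 [298,426] (.q 361 (.a 1 [] (.d 360 359 359 360 364)
 (.a 1 [359] (.d 364 360 360 361 365)
 (.a 0 [360,364] (.q 427 (.a 1 [] (.d 328 2343 295 2376 460)
 (.a 1 [295] (.d 460 2376 328 2409 493)
 (.a 0 [328,460] (.q 395 (.a 1 [] (.d 393 392 392 393 397)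
 (.a 1 [392] (.d 397 393 393 394 398)
 (.a 1 [393] (.d 331 1323 299 1355 459)
 .e))))
 .e))))
 .e))))
 .e))))
 .e)))) (by decide +kernel)

theorem b2_2442 : S (PX [337] [271,304,403,428]) := S.of (.q 330 (.a 1 [] (.d 297 2312 264 2345 429)
 (.a 1 [264] (.d 429 2345 297 2378 462)
 (.a 0 [297] (.q 362 (.a 1 [] (.d 298 1290 266 1322 426)
 (.a 1 [266] (.d 426 1322 298 1354 458)
 (.a 0 [298,426] (.q 361 (.a 1 [] (.d 360 359 359 360 364)
 (.a 1 [359] (.d 364 360 360 361 365)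
 (.a 0 [360,364] (.q 427 (.a 1 [] (.d 328 2343 295 2376 460)
 (.a 1 [295] (.d 460 2376 328 2409 493)
 (.a 0 [328,460] (.q 395 (.a 1 [] (.d 393 392 392 393 397)
 (.a 1 [392] (.d 397 393 393 394 398)
 (.a 1 [393] (.d 331 1323 299 1355 459)
 .e))))
 .e))))
 .e))))
 .e))))
 (.a 0 [429] (.q 332 (.a 1 [] (.d 301 3342 270 3373 425)
 (.a 1 [270] (.d 425 3373 301 3404 456)
 (.a 0 [301,425] (.q 426 (.a 1 [] (.d 362 1322 298 1354 458)
 (.a 0 [298,362,458] (.q 333 (.a 1 [] (.d 331 329 329 330 334)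
 (.a 0 [329,331,334] (.q 395 (.a 1 [] (.d 393 392 392 393 397)
 (.a 1 [392] (.d 397 393 393 394 398)
 (.a 1 [393] (.d 364 3374 302 3405 457)
 .e))))
 .e)))
 .e)))
 .e))))
 .e))))) (by decide +kernel)

theorem b2_2482 : S (PX [238,370] [271,273,304,337,403]) := S.of (.q 330 (.a 1 [] (.d 297 2312 264 2345 429)
 (.a 1 [264] (.d 429 2345 297 2378 462)
 (.a 0 [297,429] (.q 362 (.a 1 [] (.d 298 1290 266 1322 426)
 (.a 1 [266] (.d 426 1322 298 1354 458)
 (.a 0 [298,426] (.q 361 (.a 1 [] (.d 360 359 359 360 364)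
 (.a 1 [359] (.d 364 360 360 361 365)
 (.a 0 [360,364] (.q 427 (.a 1 [] (.d 328 2343 295 2376 460)
 (.a 1 [295] (.d 460 2376 328 2409 493)
 (.a 0 [328,460] (.q 395 (.a 1 [] (.d 393 392 392 393 397)
 (.a 1 [392] (.d 397 393 393 394 398)
 (.a 1 [393] (.d 331 1323 299 1355 459)
 .e))))
 .e))))
 .e))))
 .e))))
 .e)))) (by decide +kernel)

theorem b2_2483 : S (PX [238,370] [271,304,330,337,403]) := S.of (.q 395 (.a 1 [] (.d 393 392 392 393 397)
 (.a 1 [392] (.d 397 393 393 394 398)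
 (.a 0 [393,397] (.q 427 (.a 1 [] (.d 331 1323 299 1355 459)
 (.a 1 [299] (.d 459 1355 331 1387 491)
 (.a 0 [331,459] (.q 332 (.a 1 [] (.d 301 3342 270 3373 425)
 (.a 1 [270] (.d 425 3373 301 3404 456)
 (.a 0 [301,425] (.q 365 (.a 1 [] (.d 334 3375 303 3406 458)
 (.a 1 [303] (.d 458 3406 334 3437 489)
 (.a 0 [334,458] (.q 364 (.a 1 [] (.d 362 361 361 362 366)
 (.a 1 [361] (.d 366 362 362 363 367)
 (.a 1 [362] (.d 300 1292 268 1324 428)
 .e))))
 .e))))
 .e))))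
 .e))))
 .e)))) (by decide +kernel)

theorem b2_2484 : S (PX [238,370] [271,304,335,337,403]) := S.of (.q 330 (.a 1 [] (.d 297 2312 264 2345 429)
 (.a 1 [264] (.d 429 2345 297 2378 462)
 (.a 0 [297,429] (.q 362 (.a 1 [] (.d 298 1290 266 1322 426)
 (.a 1 [266] (.d 426 1322 298 1354 458)
 (.a 0 [298,426] (.q 361 (.a 1 [] (.d 360 359 359 360 364)
 (.a 1 [359] (.d 364 360 360 361 365)
 (.a 0 [360,364] (.q 427 (.a 1 [] (.d 328 2343 295 2376 460)
 (.a 1 [295] (.d 460 2376 328 2409 493)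
 (.a 0 [328,460] (.q 395 (.a 1 [] (.d 393 392 392 393 397)
 (.a 1 [392] (.d 397 393 393 394 398)
 (.a 1 [393] (.d 331 1323 299 1355 459)
 .e))))
 .e))))
 .e))))
 .e))))
 .e)))) (by decide +kernel)

theorem b2_2485 : S (PX [238,370] [271,304,337,366,403]) := S.of (.q 330 (.a 1 [] (.d 297 2312 264 2345 429)
 (.a 1 [264] (.d 429 2345 297 2378 462)
 (.a 0 [297,429] (.q 362 (.a 1 [] (.d 298 1290 266 1322 426)
 (.a 1 [266] (.d 426 1322 298 1354 458)
 (.a 0 [298,426] (.q 361 (.a 1 [] (.d 360 359 359 360 364)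
 (.a 1 [359] (.d 364 360 360 361 365)
 (.a 0 [360,364] (.q 427 (.a 1 [] (.d 328 2343 295 2376 460)
 (.a 1 [295] (.d 460 2376 328 2409 493)
 (.a 0 [328,460] (.q 395 (.a 1 [] (.d 393 392 392 393 397)
 (.a 1 [392] (.d 397 393 393 394 398)
 (.a 1 [393] (.d 331 1323 299 1355 459)
 .e))))
 .e))))
 .e))))
 .e))))
 .e)))) (by decide +kernel)

theorem b2_2486 : S (PX [238,370] [271,304,337,403,428]) := S.of (.q 330 (.a 1 [] (.d 297 2312 264 2345 429)
 (.a 1 [264] (.d 429 2345 297 2378 462)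
 (.a 0 [297,429] (.q 332 (.a 1 [] (.d 301 3342 270 3373 425)
 (.a 1 [270] (.d 425 3373 301 3404 456)
 (.a 0 [301] (.q 331 (.a 1 [] (.d 329 328 328 329 333)
 (.a 1 [328] (.d 333 329 329 330 334)
 (.a 0 [329] (.q 395 (.a 1 [] (.d 393 392 392 393 397)
 (.a 1 [392] (.d 397 393 393 394 398)
 (.a 1 [393] (.d 299 1291 267 1323 427)
 .e))))
 (.a 0 [333] (.q 397 (.a 1 [] (.d 395 393 393 394 398)
 (.a 1 [393] (.r 395 394 398 (.d 427 1323 299 1355 459))
 (.a 1 [398] (.r 395 393 393 (.d 427 1323 299 1355 459))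
 (.a 0 [395] (.q 364 (.a 1 [] (.d 298 2313 265 2346 430)
 (.a 1 [265] (.d 430 2346 298 2379 463)
 (.a 1 [298] (.r 300 1292 268 (.d 269 3279 207 3310 362))
 .e))))
 .e)))))
 .e)))))
 (.a 0 [425] (.q 426 (.a 1 [] (.d 362 1322 298 1354 458)
 (.a 0 [298,362,458] (.q 333 (.a 1 [] (.d 331 329 329 330 334)
 (.a 1 [329] (.r 334 330 331 (.r 270 3342 301 (.d 302 1230 206 1262 366)))
 (.a 0 [331,334] (.q 395 (.a 1 [] (.d 393 392 392 393 397)
 (.a 1 [392] (.d 397 393 393 394 398)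
 (.a 1 [393] (.d 364 3374 302 3405 457)
 .e))))
 .e))))
 .e)))
 .e)))))
 .e)))) (by decide +kernel)

theorem b2_2498 : S (PX [] [273,304,403]) := S.of (.q 330 (.a 1 [] (.d 297 2312 264 2345 429)
 (.a 1 [264] (.d 429 2345 297 2378 462)
 (.a 0 [297,429] (.q 362 (.a 1 [] (.d 298 1290 266 1322 426)
 (.a 1 [266] (.d 426 1322 298 1354 458)
 (.a 0 [298,426] (.q 361 (.a 1 [] (.d 360 359 359 360 364)
 (.a 1 [359] (.d 364 360 360 361 365)
 (.a 0 [360,364] (.q 427 (.a 1 [] (.d 328 2343 295 2376 460)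
 (.a 1 [295] (.d 460 2376 328 2409 493)
 (.a 0 [328,460] (.q 395 (.a 1 [] (.d 393 392 392 393 397)
 (.a 1 [392] (.d 397 393 393 394 398)
 (.a 1 [393] (.d 331 1323 299 1355 459)
 .e))))
 .e))))
 .e))))
 .e))))
 .e)))) (by decide +kernel)

theorem b2_2499 : S (PX [] [304,330,403]) := S.of (.q 395 (.a 1 [] (.d 393 392 392 393 397)
 (.a 1 [392] (.d 397 393 393 394 398)
 (.a 0 [393,397] (.q 427 (.a 1 [] (.d 331 1323 299 1355 459)
 (.a 1 [299] (.d 459 1355 331 1387 491)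
 (.a 0 [331,459] (.q 332 (.a 1 [] (.d 301 3342 270 3373 425)
 (.a 1 [270] (.d 425 3373 301 3404 456)
 (.a 0 [301,425] (.q 365 (.a 1 [] (.d 334 3375 303 3406 458)
 (.a 1 [303] (.d 458 3406 334 3437 489)
 (.a 0 [334,458] (.q 364 (.a 1 [] (.d 362 361 361 362 366)
 (.a 1 [361] (.d 366 362 362 363 367)
 (.a 1 [362] (.d 300 1292 268 1324 428)
 .e))))
 .e))))
 .e))))
 .e))))
 .e)))) (by decide +kernel)

theorem b2_2500 : S (PX [] [304,335,403]) := S.of (.q 332 (.a 1 [] (.d 301 3342 270 3373 425)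
 (.a 1 [270] (.d 425 3373 301 3404 456)
 (.a 0 [301,425] (.q 397 (.a 1 [] (.d 395 393 393 394 398)
 (.a 0 [393,395,398] (.q 429 (.a 1 [] (.d 330 2345 297 2378 462)
 (.a 1 [297] (.d 462 2378 330 2411 495)
 (.a 0 [330,462] (.q 365 (.a 1 [] (.d 461 1357 333 1389 493)
 (.a 0 [333,461,493] (.q 364 (.a 1 [] (.d 362 361 361 362 366)
 (.a 1 [361] (.d 366 362 362 363 367)
 (.a 1 [362] (.d 300 1292 268 1324 428)
 .e))))
 .e)))
 .e))))
 .e)))
 .e)))) (by decide +kernel)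

theorem b2_2501 : S (PX [238,370] [205,273,304,337,403]) := S.of (.q 330 (.a 1 [] (.d 297 2312 264 2345 429)
 (.a 1 [264] (.d 429 2345 297 2378 462)
 (.a 0 [297,429] (.q 362 (.a 1 [] (.d 298 1290 266 1322 426)
 (.a 1 [266] (.d 426 1322 298 1354 458)
 (.a 0 [298,426] (.q 361 (.a 1 [] (.d 360 359 359 360 364)
 (.a 1 [359] (.d 364 360 360 361 365)
 (.a 0 [360,364] (.q 427 (.a 1 [] (.d 328 2343 295 2376 460)
 (.a 1 [295] (.d 460 2376 328 2409 493)
 (.a 0 [328,460] (.q 395 (.a 1 [] (.d 393 392 392 393 397)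
 (.a 1 [392] (.d 397 393 393 394 398)
 (.a 1 [393] (.d 331 1323 299 1355 459)
 .e))))
 .e))))
 .e))))
 .e))))
 .e)))) (by decide +kernel)

theorem b2_2502 : S (PX [238,370] [205,304,330,337,403]) := S.of (.q 395 (.a 1 [] (.d 393 392 392 393 397)
 (.a 1 [392] (.d 397 393 393 394 398)
 (.a 0 [393,397] (.q 427 (.a 1 [] (.d 331 1323 299 1355 459)
 (.a 1 [299] (.d 459 1355 331 1387 491)
 (.a 0 [331,459] (.q 332 (.a 1 [] (.d 301 3342 270 3373 425)
 (.a 1 [270] (.d 425 3373 301 3404 456)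
 (.a 0 [301,425] (.q 365 (.a 1 [] (.d 334 3375 303 3406 458)
 (.a 1 [303] (.d 458 3406 334 3437 489)
 (.a 0 [334,458] (.q 364 (.a 1 [] (.d 362 361 361 362 366)
 (.a 1 [361] (.d 366 362 362 363 367)
 (.a 1 [362] (.d 300 1292 268 1324 428)
 .e))))
 .e))))
 .e))))
 .e))))
 .e)))) (by decide +kernel)

theorem b2_2503 : S (PX [238,370] [205,304,335,337,403]) := S.of (.q 330 (.a 1 [] (.d 297 2312 264 2345 429)
 (.a 1 [264] (.d 429 2345 297 2378 462)
 (.a 0 [297,429] (.q 362 (.a 1 [] (.d 298 1290 266 1322 426)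
 (.a 1 [266] (.d 426 1322 298 1354 458)
 (.a 0 [298,426] (.q 361 (.a 1 [] (.d 360 359 359 360 364)
 (.a 1 [359] (.d 364 360 360 361 365)
 (.a 0 [360,364] (.q 427 (.a 1 [] (.d 328 2343 295 2376 460)
 (.a 1 [295] (.d 460 2376 328 2409 493)
 (.a 0 [328,460] (.q 395 (.a 1 [] (.d 393 392 392 393 397)
 (.a 1 [392] (.d 397 393 393 394 398)
 (.a 1 [393] (.d 331 1323 299 1355 459)
 .e))))
 .e))))
 .e))))
 .e))))
 .e)))) (by decide +kernel)

theorem b2_2504 : S (PX [238,370] [205,304,337,366,403]) := S.of (.q 330 (.a 1 [] (.d 297 2312 264 2345 429)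
 (.a 1 [264] (.d 429 2345 297 2378 462)
 (.a 0 [297,429] (.q 362 (.a 1 [] (.d 298 1290 266 1322 426)
 (.a 1 [266] (.d 426 1322 298 1354 458)
 (.a 0 [298,426] (.q 361 (.a 1 [] (.d 360 359 359 360 364)
 (.a 1 [359] (.d 364 360 360 361 365)
 (.a 0 [360,364] (.q 427 (.a 1 [] (.d 328 2343 295 2376 460)
 (.a 1 [295] (.d 460 2376 328 2409 493)
 (.a 0 [328,460] (.q 395 (.a 1 [] (.d 393 392 392 393 397)
 (.a 1 [392] (.d 397 393 393 394 398)
 (.a 1 [393] (.d 331 1323 299 1355 459)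
 .e))))
 .e))))
 .e))))
 .e))))
 .e)))) (by decide +kernel)

theorem b2_2505 : S (PX [238,370] [205,304,337,403,428]) := S.of (.q 429 (.a 1 [] (.d 330 2345 297 2378 462)
 (.a 1 [297] (.d 462 2378 330 2411 495)
 (.a 0 [330,462] (.q 397 (.a 1 [] (.d 395 393 393 394 398)
 (.a 0 [393,395,398] (.q 365 (.a 1 [] (.d 333 1325 301 1357 461)
 (.a 1 [301] (.d 461 1357 333 1389 493)
 (.a 1 [461] (.r 301 1325 333 (.d 332 3342 270 3373 425))
 (.a 0 [333] (.q 427 (.a 1 [] (.d 334 3375 303 3406 458)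
 (.a 1 [303] (.d 458 3406 334 3437 489)
 (.a 1 [334] (.r 493 1389 461 (.d 460 2409 361 2442 526))
 .e))))
 .e)))))
 .e)))
 .e)))) (by decide +kernel)

theorem b2_2511 : S (PX [370] [273,304,337,403]) := S.of (.q 330 (.a 1 [] (.d 297 2312 264 2345 429)
 (.a 1 [264] (.d 429 2345 297 2378 462)
 (.a 0 [297,429] (.q 362 (.a 1 [] (.d 298 1290 266 1322 426)
 (.a 1 [266] (.d 426 1322 298 1354 458)
 (.a 0 [298,426] (.q 361 (.a 1 [] (.d 360 359 359 360 364)
 (.a 1 [359] (.d 364 360 360 361 365)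
 (.a 0 [360,364] (.q 427 (.a 1 [] (.d 328 2343 295 2376 460)
 (.a 1 [295] (.d 460 2376 328 2409 493)
 (.a 0 [328,460] (.q 395 (.a 1 [] (.d 393 392 392 393 397)
 (.a 1 [392] (.d 397 393 393 394 398)
 (.a 1 [393] (.d 331 1323 299 1355 459)
 .e))))
 .e))))
 .e))))
 .e))))
 .e)))) (by decide +kernel)

theorem b2_2512 : S (PX [370] [304,330,337,403]) := S.of (.q 395 (.a 1 [] (.d 393 392 392 393 397)
 (.a 1 [392] (.d 397 393 393 394 398)
 (.a 0 [393,397] (.q 427 (.a 1 [] (.d 331 1323 299 1355 459)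
 (.a 1 [299] (.d 459 1355 331 1387 491)
 (.a 0 [331,459] (.q 332 (.a 1 [] (.d 301 3342 270 3373 425)
 (.a 1 [270] (.d 425 3373 301 3404 456)
 (.a 0 [301,425] (.q 365 (.a 1 [] (.d 334 3375 303 3406 458)
 (.a 1 [303] (.d 458 3406 334 3437 489)
 (.a 0 [334,458] (.q 364 (.a 1 [] (.d 362 361 361 362 366)
 (.a 1 [361] (.d 366 362 362 363 367)
 (.a 1 [362] (.d 300 1292 268 1324 428)
 .e))))
 .e))))
 .e))))
 .e))))
 .e)))) (by decide +kernel)

theorem b2_2513 : S (PX [370] [304,333,337,403]) := S.of (.q 395 (.a 1 [] (.d 393 392 392 393 397)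
 (.a 1 [392] (.d 397 393 393 394 398)
 (.a 0 [393,397] (.q 427 (.a 1 [] (.d 331 1323 299 1355 459)
 (.a 1 [299] (.d 459 1355 331 1387 491)
 (.a 0 [331,459] (.q 330 (.a 1 [] (.d 297 2312 264 2345 429)
 (.a 1 [264] (.d 429 2345 297 2378 462)
 (.a 0 [297,429] (.q 365 (.a 1 [] (.d 334 3375 303 3406 458)
 (.a 1 [303] (.d 458 3406 334 3437 489)
 (.a 1 [334] (.r 458 3437 489 (.r 362 1354 426 (.d 364 361 361 362 366)))
 (.a 0 [458] (.q 362 (.a 1 [] (.d 364 361 361 362 366)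
 (.a 1 [361] (.d 298 1290 266 1322 426)
 .e)))
 .e)))))
 .e))))
 .e))))
 .e)))) (by decide +kernel)

theorem b2_2514 : S (PX [370] [304,335,337,403]) := S.of (.q 330 (.a 1 [] (.d 297 2312 264 2345 429)
 (.a 1 [264] (.d 429 2345 297 2378 462)
 (.a 0 [297,429] (.q 362 (.a 1 [] (.d 298 1290 266 1322 426)
 (.a 1 [266] (.d 426 1322 298 1354 458)
 (.a 0 [298,426] (.q 361 (.a 1 [] (.d 360 359 359 360 364)
 (.a 1 [359] (.d 364 360 360 361 365)
 (.a 0 [360,364] (.q 427 (.a 1 [] (.d 328 2343 295 2376 460)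
 (.a 1 [295] (.d 460 2376 328 2409 493)
 (.a 0 [328,460] (.q 395 (.a 1 [] (.d 393 392 392 393 397)
 (.a 1 [392] (.d 397 393 393 394 398)
 (.a 1 [393] (.d 331 1323 299 1355 459)
 .e))))
 .e))))
 .e))))
 .e))))
 .e)))) (by decide +kernel)

theorem b2_2515 : S (PX [370] [304,337,366,403]) := S.of (.q 330 (.a 1 [] (.d 297 2312 264 2345 429)
 (.a 1 [264] (.d 429 2345 297 2378 462)
 (.a 0 [297,429] (.q 362 (.a 1 [] (.d 298 1290 266 1322 426)
 (.a 1 [266] (.d 426 1322 298 1354 458)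
 (.a 0 [298,426] (.q 361 (.a 1 [] (.d 360 359 359 360 364)
 (.a 1 [359] (.d 364 360 360 361 365)
 (.a 0 [360,364] (.q 427 (.a 1 [] (.d 328 2343 295 2376 460)
 (.a 1 [295] (.d 460 2376 328 2409 493)
 (.a 0 [328,460] (.q 395 (.a 1 [] (.d 393 392 392 393 397)
 (.a 1 [392] (.d 397 393 393 394 398)
 (.a 1 [393] (.d 331 1323 299 1355 459)
 .e))))
 .e))))
 .e))))
 .e))))
 .e)))) (by decide +kernel)

theorem b2_2516 : S (PX [370] [304,337,403,428]) := S.of (.q 429 (.a 1 [] (.d 330 2345 297 2378 462)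
 (.a 1 [297] (.d 462 2378 330 2411 495)
 (.a 0 [330,462] (.q 397 (.a 1 [] (.d 395 393 393 394 398)
 (.a 0 [393,395,398] (.q 365 (.a 1 [] (.d 333 1325 301 1357 461)
 (.a 1 [301] (.d 461 1357 333 1389 493)
 (.a 1 [461] (.r 301 1325 333 (.d 332 3342 270 3373 425))
 (.a 0 [333] (.q 427 (.a 1 [] (.d 334 3375 303 3406 458)
 (.a 1 [303] (.d 458 3406 334 3437 489)
 (.a 1 [334] (.r 493 1389 461 (.d 460 2409 361 2442 526))
 .e))))
 .e)))))
 .e)))
 .e)))) (by decide +kernel)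

theorem b2_2517 : S (PX [] [304,366,403]) := S.of (.q 330 (.a 1 [] (.d 297 2312 264 2345 429)
 (.a 1 [264] (.d 429 2345 297 2378 462)
 (.a 0 [297,429] (.q 362 (.a 1 [] (.d 298 1290 266 1322 426)
 (.a 1 [266] (.d 426 1322 298 1354 458)
 (.a 0 [298,426] (.q 361 (.a 1 [] (.d 360 359 359 360 364)
 (.a 1 [359] (.d 364 360 360 361 365)
 (.a 0 [360,364] (.q 427 (.a 1 [] (.d 328 2343 295 2376 460)
 (.a 1 [295] (.d 460 2376 328 2409 493)
 (.a 0 [328,460] (.q 395 (.a 1 [] (.d 393 392 392 393 397)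
 (.a 1 [392] (.d 397 393 393 394 398)
 (.a 1 [393] (.d 331 1323 299 1355 459)
 .e))))
 .e))))
 .e))))
 .e))))
 .e)))) (by decide +kernel)

theorem b2_2518 : S (PX [337] [273,304,370,403]) := S.of (.q 330 (.a 1 [] (.d 297 2312 264 2345 429)
 (.a 1 [264] (.d 429 2345 297 2378 462)
 (.a 0 [297,429] (.q 362 (.a 1 [] (.d 298 1290 266 1322 426)
 (.a 1 [266] (.d 426 1322 298 1354 458)
 (.a 0 [298,426] (.q 361 (.a 1 [] (.d 360 359 359 360 364)
 (.a 1 [359] (.d 364 360 360 361 365)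
 (.a 0 [360,364] (.q 427 (.a 1 [] (.d 328 2343 295 2376 460)
 (.a 1 [295] (.d 460 2376 328 2409 493)
 (.a 0 [328,460] (.q 395 (.a 1 [] (.d 393 392 392 393 397)
 (.a 1 [392] (.d 397 393 393 394 398)
 (.a 1 [393] (.d 331 1323 299 1355 459)
 .e))))
 .e))))
 .e))))
 .e))))
 .e)))) (by decide +kernel)

theorem b2_2519 : S (PX [337] [304,330,370,403]) := S.of (.q 395 (.a 1 [] (.d 393 392 392 393 397)
 (.a 1 [392] (.d 397 393 393 394 398)
 (.a 0 [393,397] (.q 427 (.a 1 [] (.d 331 1323 299 1355 459)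
 (.a 1 [299] (.d 459 1355 331 1387 491)
 (.a 0 [331,459] (.q 332 (.a 1 [] (.d 301 3342 270 3373 425)
 (.a 1 [270] (.d 425 3373 301 3404 456)
 (.a 0 [301,425] (.q 365 (.a 1 [] (.d 334 3375 303 3406 458)
 (.a 1 [303] (.d 458 3406 334 3437 489)
 (.a 0 [334,458] (.q 364 (.a 1 [] (.d 362 361 361 362 366)
 (.a 1 [361] (.d 366 362 362 363 367)
 (.a 1 [362] (.d 300 1292 268 1324 428)
 .e))))
 .e))))
 .e))))
 .e))))
 .e)))) (by decide +kernel)

theorem b2_2520 : S (PX [337] [304,335,370,403]) := S.of (.q 332 (.a 1 [] (.d 301 3342 270 3373 425)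
 (.a 1 [270] (.d 425 3373 301 3404 456)
 (.a 0 [301,425] (.q 397 (.a 1 [] (.d 395 393 393 394 398)
 (.a 0 [393,395,398] (.q 429 (.a 1 [] (.d 330 2345 297 2378 462)
 (.a 1 [297] (.d 462 2378 330 2411 495)
 (.a 0 [330,462] (.q 365 (.a 1 [] (.d 461 1357 333 1389 493)
 (.a 0 [333,461,493] (.q 364 (.a 1 [] (.d 362 361 361 362 366)
 (.a 1 [361] (.d 366 362 362 363 367)
 (.a 1 [362] (.d 300 1292 268 1324 428)
 .e))))
 .e)))
 .e))))
 .e)))
 .e)))) (by decide +kernel)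

theorem b2_2521 : S (PX [337] [304,366,370,403]) := S.of (.q 330 (.a 1 [] (.d 297 2312 264 2345 429)
 (.a 1 [264] (.d 429 2345 297 2378 462)
 (.a 0 [297,429] (.q 362 (.a 1 [] (.d 298 1290 266 1322 426)
 (.a 1 [266] (.d 426 1322 298 1354 458)
 (.a 0 [298,426] (.q 361 (.a 1 [] (.d 360 359 359 360 364)
 (.a 1 [359] (.d 364 360 360 361 365)
 (.a 0 [360,364] (.q 427 (.a 1 [] (.d 328 2343 295 2376 460)
 (.a 1 [295] (.d 460 2376 328 2409 493)
 (.a 0 [328,460] (.q 395 (.a 1 [] (.d 393 392 392 393 397)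
 (.a 1 [392] (.d 397 393 393 394 398)
 (.a 1 [393] (.d 331 1323 299 1355 459)
 .e))))
 .e))))
 .e))))
 .e))))
 .e)))) (by decide +kernel)

theorem b2_2522 : S (PX [337] [304,370,403,428]) := S.of (.q 429 (.a 1 [] (.d 330 2345 297 2378 462)
 (.a 1 [297] (.d 462 2378 330 2411 495)
 (.a 0 [330,462] (.q 397 (.a 1 [] (.d 395 393 393 394 398)
 (.a 0 [393,395,398] (.q 365 (.a 1 [] (.d 333 1325 301 1357 461)
 (.a 1 [301] (.d 461 1357 333 1389 493)
 (.a 1 [461] (.r 301 1325 333 (.d 332 3342 270 3373 425))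
 (.a 0 [333] (.q 427 (.a 1 [] (.d 334 3375 303 3406 458)
 (.a 1 [303] (.d 458 3406 334 3437 489)
 (.a 1 [334] (.r 493 1389 461 (.d 460 2409 361 2442 526))
 .e))))
 .e)))))
 .e)))
 .e)))) (by decide +kernel)

theorem b2_2523 : S (PX [] [304,403,428]) := S.of (.q 429 (.a 1 [] (.d 330 2345 297 2378 462)
 (.a 1 [297] (.d 462 2378 330 2411 495)
 (.a 0 [330,462] (.q 397 (.a 1 [] (.d 395 393 393 394 398)
 (.a 0 [393,395,398] (.q 365 (.a 1 [] (.d 333 1325 301 1357 461)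
 (.a 1 [301] (.d 461 1357 333 1389 493)
 (.a 1 [461] (.r 301 1325 333 (.d 332 3342 270 3373 425))
 (.a 0 [333] (.q 427 (.a 1 [] (.d 334 3375 303 3406 458)
 (.a 1 [303] (.d 458 3406 334 3437 489)
 (.a 1 [334] (.r 493 1389 461 (.d 460 2409 361 2442 526))
 .e))))
 .e)))))
 .e)))
 .e)))) (by decide +kernel)

theorem b2_2563 : S (PX [401] [268,399,400,403]) := S.of (.q 330 (.a 1 [] (.d 297 2312 264 2345 429)
 (.a 1 [264] (.d 429 2345 297 2378 462)
 (.a 0 [297,429] (.q 362 (.a 1 [] (.d 298 1290 266 1322 426)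
 (.a 1 [266] (.d 426 1322 298 1354 458)
 (.a 0 [298,426] (.q 361 (.a 1 [] (.d 360 359 359 360 364)
 (.a 1 [359] (.d 364 360 360 361 365)
 (.a 0 [360,364] (.q 427 (.a 1 [] (.d 328 2343 295 2376 460)
 (.a 1 [295] (.d 460 2376 328 2409 493)
 (.a 0 [328,460] (.q 395 (.a 1 [] (.d 393 392 392 393 397)
 (.a 1 [392] (.d 397 393 393 394 398)
 (.a 1 [393] (.d 331 1323 299 1355 459)
 .e))))
 .e))))
 .e))))
 .e))))
 .e)))) (by decide +kernel)

theorem b2_2583 : S (PX [] [268,400,403]) := S.of (.q 395 (.a 1 [] (.d 393 392 392 393 397)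
 (.a 1 [392] (.d 397 393 393 394 398)
 (.a 0 [393,397] (.q 427 (.a 1 [] (.d 331 1323 299 1355 459)
 (.a 1 [299] (.d 459 1355 331 1387 491)
 (.a 0 [331,459] (.q 330 (.a 1 [] (.d 297 2312 264 2345 429)
 (.a 1 [264] (.d 429 2345 297 2378 462)
 (.a 0 [297,429] (.q 361 (.a 1 [] (.d 328 2343 295 2376 460)
 (.a 1 [295] (.d 460 2376 328 2409 493)
 (.a 0 [328,460] (.q 362 (.a 1 [] (.d 360 359 359 360 364)
 (.a 1 [359] (.d 364 360 360 361 365)
 (.a 1 [360] (.d 298 1290 266 1322 426)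
 .e))))
 .e))))
 .e))))
 .e))))
 .e)))) (by decide +kernel)

theorem b2_2584 : S (PX [399] [268,400,401,403]) := S.of (.q 395 (.a 1 [] (.d 393 392 392 393 397)
 (.a 0 [397] (.q 330 (.a 1 [] (.d 297 2312 264 2345 429)
 (.a 0 [429] (.r 392 392 393 (.q 427 (.a 1 [] (.d 331 1323 299 1355 459)
 (.a 1 [331] (.r 264 2312 297 (.r 491 1387 459 (.q 458 (.a 1 [] (.d 425 2407 359 2440 524)
 (.a 1 [404] (.q 402 (.a 1 [] (.d 365 3406 334 3437 489)
 (.a 1 [334] (.d 489 3437 365 3468 520)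
 (.a 1 [365] (.d 425 2407 359 2440 524)
 .e))))
 (.a 1 [402] (.q 404 (.a 1 [] (.d 425 2407 359 2440 524)
 (.a 1 [425] (.d 365 3406 334 3437 489)
 .e)))
 (.a 1 [425] (.d 365 3406 334 3437 489)
 .e)))))))
 (.a 1 [404] (.q 402 (.a 1 [] (.d 459 1355 331 1387 491)
 (.a 1 [331] (.q 361 (.a 1 [] (.d 328 2343 295 2376 460)
 (.a 1 [295] (.d 460 2376 328 2409 493)
 (.a 1 [328] (.d 423 3371 299 3402 454)
 .e))))
 .e)))
 (.a 1 [402] (.q 404 (.a 1 [] (.d 459 1355 331 1387 491)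
 (.a 1 [331] (.q 361 (.a 1 [] (.d 328 2343 295 2376 460)
 (.a 1 [295] (.d 460 2376 328 2409 493)
 (.a 1 [328] (.d 423 3371 299 3402 454)
 .e))))
 .e)))
 (.a 1 [459] (.r 299 1323 331 (.r 361 3371 423 (.d 460 2376 328 2409 493)))
 (.a 1 [299] (.d 459 1355 331 1387 491)
 .e))))))))
 (.a 0 [297] (.r 392 392 393 (.q 427 (.a 1 [] (.d 331 1323 299 1355 459)
 (.a 1 [331] (.r 491 1387 459 (.r 429 2378 462 (.q 425 (.a 1 [] (.d 458 2407 359 2440 524)
 (.a 1 [404] (.q 402 (.a 1 [] (.d 332 3373 301 3404 456)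
 (.a 1 [301] (.d 456 3404 332 3435 487)
 (.a 1 [332] (.d 458 2407 359 2440 524)
 .e))))
 (.a 1 [402] (.q 404 (.a 1 [] (.d 458 2407 359 2440 524)
 (.a 1 [458] (.d 332 3373 301 3404 456)
 .e)))
 (.a 1 [458] (.d 332 3373 301 3404 456)
 .e)))))))
 (.a 1 [404] (.q 402 (.a 1 [] (.d 459 1355 331 1387 491)
 (.a 1 [331] (.q 361 (.a 1 [] (.d 328 2343 295 2376 460)
 (.a 1 [295] (.d 460 2376 328 2409 493)
 (.a 1 [328] (.d 423 3371 299 3402 454)
 .e))))
 .e)))
 (.a 1 [402] (.q 404 (.a 1 [] (.d 459 1355 331 1387 491)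
 (.a 1 [331] (.q 361 (.a 1 [] (.d 328 2343 295 2376 460)
 (.a 1 [295] (.d 460 2376 328 2409 493)
 (.a 1 [328] (.d 423 3371 299 3402 454)
 .e))))
 .e)))
 (.a 1 [459] (.r 299 1323 331 (.r 361 3371 423 (.d 460 2376 328 2409 493)))
 (.a 1 [299] (.d 459 1355 331 1387 491)
 .e))))))))
 (.a 1 [404] (.q 402 (.a 1 [] (.d 297 2312 264 2345 429)
 (.a 1 [429] (.q 427 (.a 1 [] (.d 331 1323 299 1355 459)
 (.a 1 [299] (.d 459 1355 331 1387 491)
 (.a 0 [331,459] (.q 361 (.a 1 [] (.d 328 2343 295 2376 460)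
 (.a 1 [295] (.d 460 2376 328 2409 493)
 (.a 1 [328] (.r 392 392 393 (.d 423 3371 299 3402 454))
 .e))))
 .e))))
 .e)))
 (.a 1 [402] (.q 404 (.a 1 [] (.d 297 2312 264 2345 429)
 (.a 1 [429] (.q 427 (.a 1 [] (.d 331 1323 299 1355 459)
 (.a 1 [299] (.d 459 1355 331 1387 491)
 (.a 0 [331,459] (.q 361 (.a 1 [] (.d 328 2343 295 2376 460)
 (.a 1 [295] (.d 460 2376 328 2409 493)
 (.a 1 [328] (.r 392 392 393 (.d 423 3371 299 3402 454))
 .e))))
 .e))))
 .e)))
 (.a 1 [264] (.d 429 2345 297 2378 462)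
 .e)))))))
 (.a 0 [393] (.q 427 (.a 1 [] (.d 331 1323 299 1355 459)
 (.a 0 [331] (.q 330 (.a 1 [] (.d 297 2312 264 2345 429)
 (.a 0 [429] (.q 362 (.a 1 [] (.d 298 1290 266 1322 426)
 (.a 1 [426] (.q 361 (.a 1 [] (.d 360 359 359 360 364)
 (.a 1 [404] (.q 402 (.a 1 [] (.d 328 2343 295 2376 460)
 (.a 1 [295] (.d 460 2376 328 2409 493)
 (.a 1 [328] (.d 360 359 359 360 364)
 .e))))
 (.a 1 [402] (.q 404 (.a 1 [] (.d 360 359 359 360 364)
 (.a 1 [360] (.d 328 2343 295 2376 460)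
 .e)))
 (.a 1 [360] (.d 328 2343 295 2376 460)
 .e)))))
 (.a 1 [404] (.q 402 (.a 1 [] (.d 298 1290 266 1322 426)
 (.a 1 [426] (.q 361 (.a 1 [] (.d 360 359 359 360 364)
 (.a 1 [359] (.d 364 360 360 361 365)
 (.a 1 [360] (.d 328 2343 295 2376 460)
 .e))))
 .e)))
 (.a 1 [402] (.q 404 (.a 1 [] (.d 298 1290 266 1322 426)
 (.a 1 [426] (.q 361 (.a 1 [] (.d 360 359 359 360 364)
 (.a 1 [359] (.d 364 360 360 361 365)
 (.a 1 [360] (.d 328 2343 295 2376 460)
 .e))))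
 .e)))
 (.a 1 [298] (.r 458 1354 426 (.d 489 3437 365 3468 520))
 .e))))))
 (.a 1 [297] (.r 429 2378 462 (.r 398 394 397 (.r 491 1387 459 (.d 460 3439 367 3470 522))))
 (.a 1 [404] (.q 402 (.a 1 [] (.d 429 2345 297 2378 462)
 (.a 1 [429] (.q 362 (.a 1 [] (.d 298 1290 266 1322 426)
 (.a 1 [266] (.d 426 1322 298 1354 458)
 (.a 1 [298] (.r 458 1354 426 (.d 489 3437 365 3468 520))
 (.a 0 [426] (.q 361 (.a 1 [] (.d 360 359 359 360 364)
 (.a 1 [359] (.d 364 360 360 361 365)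
 (.a 1 [360] (.d 328 2343 295 2376 460)
 .e))))
 .e)))))
 .e)))
 (.a 1 [402] (.q 404 (.a 1 [] (.d 429 2345 297 2378 462)
 (.a 1 [429] (.q 362 (.a 1 [] (.d 298 1290 266 1322 426)
 (.a 1 [266] (.d 426 1322 298 1354 458)
 (.a 1 [298] (.r 458 1354 426 (.d 489 3437 365 3468 520))
 (.a 0 [426] (.q 361 (.a 1 [] (.d 360 359 359 360 364)
 (.a 1 [359] (.d 364 360 360 361 365)
 (.a 1 [360] (.d 328 2343 295 2376 460)
 .e))))
 .e)))))
 .e)))
 .e))))))
 (.a 0 [459] (.q 425 (.a 1 [] (.d 332 3373 301 3404 456)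
 (.a 0 [332] (.q 426 (.a 1 [] (.d 424 423 423 424 428)
 (.a 1 [428] (.q 458 (.a 1 [] (.d 362 1354 330 1386 490)
 (.a 1 [404] (.q 402 (.a 1 [] (.d 362 1354 330 1386 490)
 (.a 1 [490] (.d 365 3406 334 3437 489)
 .e)))
 (.a 1 [402] (.q 404 (.a 1 [] (.d 362 1354 330 1386 490)
 (.a 1 [490] (.d 489 3437 365 3468 520)
 .e)))
 (.a 1 [490] (.d 365 3406 334 3437 489)
 .e)))))
 (.a 1 [404] (.q 402 (.a 1 [] (.d 428 424 424 425 429)
 (.a 1 [428] (.q 458 (.a 1 [] (.d 362 1354 330 1386 490)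
 (.a 1 [330] (.d 490 1386 362 1418 522)
 (.a 1 [362] (.d 365 3406 334 3437 489)
 .e))))
 (.a 1 [424] (.r 429 425 428 (.d 462 2378 330 2411 495))
 .e))))
 (.a 1 [402] (.q 404 (.a 1 [] (.d 428 424 424 425 429)
 (.a 1 [428] (.q 458 (.a 1 [] (.d 362 1354 330 1386 490)
 (.a 1 [330] (.d 490 1386 362 1418 522)
 (.a 1 [362] (.d 365 3406 334 3437 489)
 .e))))
 (.a 1 [424] (.r 429 425 428 (.d 462 2378 330 2411 495))
 .e))))
 (.a 1 [424] (.r 429 425 428 (.d 462 2378 330 2411 495))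
 .e))))))
 (.a 1 [404] (.q 402 (.a 1 [] (.d 456 3404 332 3435 487)
 (.a 1 [332] (.q 426 (.a 1 [] (.d 424 423 423 424 428)
 (.a 1 [423] (.d 428 424 424 425 429)
 (.a 1 [424] (.r 429 425 428 (.d 462 2378 330 2411 495))
 (.a 0 [428] (.q 458 (.a 1 [] (.d 362 1354 330 1386 490)
 (.a 1 [330] (.d 490 1386 362 1418 522)
 (.a 1 [362] (.d 365 3406 334 3437 489)
 .e))))
 .e)))))
 .e)))
 (.a 1 [402] (.q 404 (.a 1 [] (.d 456 3404 332 3435 487)
 (.a 1 [332] (.q 426 (.a 1 [] (.d 424 423 423 424 428)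
 (.a 1 [423] (.d 428 424 424 425 429)
 (.a 1 [424] (.r 429 425 428 (.d 462 2378 330 2411 495))
 (.a 0 [428] (.q 458 (.a 1 [] (.d 362 1354 330 1386 490)
 (.a 1 [330] (.d 490 1386 362 1418 522)
 (.a 1 [362] (.d 365 3406 334 3437 489)
 .e))))
 .e)))))
 .e)))
 (.a 1 [456] (.r 332 3373 301 (.r 398 394 397 (.r 299 1323 331 (.d 365 2314 266 2347 431))))
 (.a 1 [301] (.d 456 3404 332 3435 487)
 .e)))))))
 (.a 1 [404] (.q 402 (.a 1 [] (.d 331 1323 299 1355 459)
 (.a 1 [331] (.q 330 (.a 1 [] (.d 297 2312 264 2345 429)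
 (.a 1 [264] (.d 429 2345 297 2378 462)
 (.a 0 [297,429] (.q 362 (.a 1 [] (.d 298 1290 266 1322 426)
 (.a 1 [266] (.d 426 1322 298 1354 458)
 (.a 1 [298] (.r 458 1354 426 (.d 489 3437 365 3468 520))
 (.a 0 [426] (.q 361 (.a 1 [] (.d 360 359 359 360 364)
 (.a 1 [359] (.d 364 360 360 361 365)
 (.a 1 [360] (.d 328 2343 295 2376 460)
 .e))))
 .e)))))
 .e))))
 (.a 1 [459] (.q 361 (.a 1 [] (.d 328 2343 295 2376 460)
 (.a 1 [295] (.d 460 2376 328 2409 493)
 (.a 0 [328,460] (.q 362 (.a 1 [] (.d 360 359 359 360 364)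
 (.a 1 [359] (.d 364 360 360 361 365)
 (.a 1 [360] (.r 365 361 364 (.d 458 3406 334 3437 489))
 (.a 0 [364] (.q 330 (.a 1 [] (.d 298 1290 266 1322 426)
 (.a 1 [266] (.d 426 1322 298 1354 458)
 (.a 1 [298] (.d 297 2312 264 2345 429)
 .e))))
 .e)))))
 .e))))
 .e))))
 (.a 1 [402] (.q 404 (.a 1 [] (.d 331 1323 299 1355 459)
 (.a 1 [331] (.q 330 (.a 1 [] (.d 297 2312 264 2345 429)
 (.a 1 [264] (.d 429 2345 297 2378 462)
 (.a 0 [297,429] (.q 362 (.a 1 [] (.d 298 1290 266 1322 426)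
 (.a 1 [266] (.d 426 1322 298 1354 458)
 (.a 1 [298] (.r 458 1354 426 (.d 489 3437 365 3468 520))
 (.a 0 [426] (.q 361 (.a 1 [] (.d 360 359 359 360 364)
 (.a 1 [359] (.d 364 360 360 361 365)
 (.a 1 [360] (.d 328 2343 295 2376 460)
 .e))))
 .e)))))
 .e))))
 (.a 1 [459] (.q 361 (.a 1 [] (.d 328 2343 295 2376 460)
 (.a 1 [295] (.d 460 2376 328 2409 493)
 (.a 0 [328,460] (.q 362 (.a 1 [] (.d 360 359 359 360 364)
 (.a 1 [359] (.d 364 360 360 361 365)
 (.a 1 [360] (.r 365 361 364 (.d 458 3406 334 3437 489))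
 (.a 0 [364] (.q 330 (.a 1 [] (.d 298 1290 266 1322 426)
 (.a 1 [266] (.d 426 1322 298 1354 458)
 (.a 1 [298] (.d 297 2312 264 2345 429)
 .e))))
 .e)))))
 .e))))
 .e))))
 (.a 1 [299] (.d 459 1355 331 1387 491)
 .e)))))))
 (.a 1 [404] (.q 402 (.a 1 [] (.d 397 393 393 394 398)
 (.a 1 [397] (.q 427 (.a 1 [] (.d 331 1323 299 1355 459)
 (.a 1 [299] (.d 459 1355 331 1387 491)
 (.a 0 [331,459] (.q 330 (.a 1 [] (.d 297 2312 264 2345 429)
 (.a 1 [264] (.d 429 2345 297 2378 462)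
 (.a 0 [297,429] (.q 361 (.a 1 [] (.d 328 2343 295 2376 460)
 (.a 1 [295] (.d 460 2376 328 2409 493)
 (.a 1 [328] (.r 392 392 393 (.d 423 3371 299 3402 454))
 .e))))
 .e))))
 .e))))
 (.a 1 [393] (.q 427 (.a 1 [] (.d 331 1323 299 1355 459)
 (.a 1 [299] (.d 459 1355 331 1387 491)
 (.a 0 [331,459] (.q 330 (.a 1 [] (.d 297 2312 264 2345 429)
 (.a 1 [264] (.d 429 2345 297 2378 462)
 (.a 0 [297,429] (.q 361 (.a 1 [] (.d 328 2343 295 2376 460)
 (.a 1 [295] (.d 460 2376 328 2409 493)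
 (.a 0 [328,460] (.q 362 (.a 1 [] (.d 360 359 359 360 364)
 (.a 1 [359] (.d 364 360 360 361 365)
 (.a 1 [360] (.d 298 1290 266 1322 426)
 .e))))
 .e))))
 .e))))
 .e))))
 .e))))
 (.a 1 [402] (.q 404 (.a 1 [] (.d 397 393 393 394 398)
 (.a 1 [397] (.q 427 (.a 1 [] (.d 331 1323 299 1355 459)
 (.a 1 [299] (.d 459 1355 331 1387 491)
 (.a 0 [331,459] (.q 330 (.a 1 [] (.d 297 2312 264 2345 429)
 (.a 1 [264] (.d 429 2345 297 2378 462)
 (.a 0 [297,429] (.q 361 (.a 1 [] (.d 328 2343 295 2376 460)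
 (.a 1 [295] (.d 460 2376 328 2409 493)
 (.a 1 [328] (.r 392 392 393 (.d 423 3371 299 3402 454))
 .e))))
 .e))))
 .e))))
 (.a 1 [393] (.q 427 (.a 1 [] (.d 331 1323 299 1355 459)
 (.a 1 [299] (.d 459 1355 331 1387 491)
 (.a 0 [331,459] (.q 330 (.a 1 [] (.d 297 2312 264 2345 429)
 (.a 1 [264] (.d 429 2345 297 2378 462)
 (.a 0 [297,429] (.q 361 (.a 1 [] (.d 328 2343 295 2376 460)
 (.a 1 [295] (.d 460 2376 328 2409 493)
 (.a 0 [328,460] (.q 362 (.a 1 [] (.d 360 359 359 360 364)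
 (.a 1 [359] (.d 364 360 360 361 365)
 (.a 1 [360] (.d 298 1290 266 1322 426)
 .e))))
 .e))))
 .e))))
 .e))))
 .e))))
 (.a 1 [392] (.d 397 393 393 394 398)
 .e))))))) (by decide +kernel)

theorem b2_2585 : S (PX [399] [330,400,401,403]) := S.of (.q 395 (.a 1 [] (.d 393 392 392 393 397)
 (.a 0 [397] (.q 425 (.a 1 [] (.d 332 3373 301 3404 456)
 (.a 0 [332] (.q 427 (.a 1 [] (.d 331 1323 299 1355 459)
 (.a 1 [459] (.r 393 392 392 (.q 361 (.a 1 [] (.d 329 1321 297 1353 457)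
 (.a 1 [404] (.q 402 (.a 1 [] (.d 328 2343 295 2376 460)
 (.a 1 [295] (.d 460 2376 328 2409 493)
 (.a 1 [328] (.d 329 1321 297 1353 457)
 .e))))
 (.a 1 [402] (.q 404 (.a 1 [] (.d 329 1321 297 1353 457)
 (.a 1 [329] (.d 328 2343 295 2376 460)
 .e)))
 (.a 1 [329] (.d 328 2343 295 2376 460)
 .e))))))
 (.a 1 [404] (.q 402 (.a 1 [] (.d 331 1323 299 1355 459)
 (.a 1 [331] (.r 392 392 393 (.r 491 1387 459 (.d 458 2407 359 2440 524)))
 (.a 1 [459] (.q 458 (.a 1 [] (.d 365 3406 334 3437 489)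
 (.a 1 [334] (.d 489 3437 365 3468 520)
 (.a 1 [365] (.r 392 392 393 (.d 491 2407 359 2440 524))
 .e))))
 .e))))
 (.a 1 [402] (.q 404 (.a 1 [] (.d 331 1323 299 1355 459)
 (.a 1 [331] (.r 392 392 393 (.r 491 1387 459 (.d 458 2407 359 2440 524)))
 (.a 1 [459] (.q 361 (.a 1 [] (.d 328 2343 295 2376 460)
 (.a 1 [295] (.d 460 2376 328 2409 493)
 (.a 1 [328] (.r 393 392 392 (.d 457 1353 329 1385 489))
 .e))))
 .e))))
 (.a 1 [331] (.r 392 392 393 (.r 491 1387 459 (.d 458 2407 359 2440 524)))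
 .e))))))
 (.a 0 [456] (.r 392 392 393 (.r 332 3373 301 (.q 427 (.a 1 [] (.d 331 1323 299 1355 459)
 (.a 1 [459] (.q 458 (.a 1 [] (.d 359 2374 326 2407 491)
 (.a 1 [404] (.q 402 (.a 1 [] (.d 359 2374 326 2407 491)
 (.a 1 [359] (.d 365 3406 334 3437 489)
 .e)))
 (.a 1 [402] (.q 404 (.a 1 [] (.d 365 3406 334 3437 489)
 (.a 1 [334] (.d 489 3437 365 3468 520)
 (.a 1 [365] (.d 359 2374 326 2407 491)
 .e))))
 (.a 1 [359] (.d 489 3437 365 3468 520)
 .e)))))
 (.a 1 [404] (.q 402 (.a 1 [] (.d 331 1323 299 1355 459)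
 (.a 1 [331] (.r 491 1387 459 (.d 458 2407 359 2440 524))
 (.a 1 [459] (.q 458 (.a 1 [] (.d 359 2374 326 2407 491)
 (.a 1 [326] (.d 491 2407 359 2440 524)
 (.a 1 [359] (.d 365 3406 334 3437 489)
 .e))))
 .e))))
 (.a 1 [402] (.q 404 (.a 1 [] (.d 331 1323 299 1355 459)
 (.a 1 [331] (.r 491 1387 459 (.d 458 2407 359 2440 524))
 (.a 1 [459] (.q 458 (.a 1 [] (.d 359 2374 326 2407 491)
 (.a 1 [326] (.d 491 2407 359 2440 524)
 (.a 1 [359] (.d 365 3406 334 3437 489)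
 .e))))
 .e))))
 (.a 1 [331] (.r 491 1387 459 (.d 458 2407 359 2440 524))
 .e))))))))
 (.a 1 [404] (.q 402 (.a 1 [] (.d 456 3404 332 3435 487)
 (.a 1 [332] (.r 392 392 393 (.q 427 (.a 1 [] (.d 331 1323 299 1355 459)
 (.a 1 [299] (.d 459 1355 331 1387 491)
 (.a 1 [331] (.r 491 1387 459 (.d 458 2407 359 2440 524))
 (.a 0 [459] (.q 458 (.a 1 [] (.d 359 2374 326 2407 491)
 (.a 1 [326] (.d 491 2407 359 2440 524)
 (.a 1 [359] (.d 365 3406 334 3437 489)
 .e))))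
 .e))))))
 .e)))
 (.a 1 [402] (.q 404 (.a 1 [] (.d 456 3404 332 3435 487)
 (.a 1 [332] (.r 392 392 393 (.q 427 (.a 1 [] (.d 331 1323 299 1355 459)
 (.a 1 [299] (.d 459 1355 331 1387 491)
 (.a 1 [331] (.r 491 1387 459 (.d 458 2407 359 2440 524))
 (.a 0 [459] (.q 458 (.a 1 [] (.d 359 2374 326 2407 491)
 (.a 1 [326] (.d 491 2407 359 2440 524)
 (.a 1 [359] (.d 365 3406 334 3437 489)
 .e))))
 .e))))))
 .e)))
 (.a 1 [301] (.d 456 3404 332 3435 487)
 .e)))))))
 (.a 0 [393] (.q 332 (.a 1 [] (.d 301 3342 270 3373 425)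
 (.a 0 [425] (.r 398 394 397 (.q 427 (.a 1 [] (.d 331 1323 299 1355 459)
 (.a 1 [331] (.q 365 (.a 1 [] (.d 299 2314 266 2347 431)
 (.a 1 [404] (.q 402 (.a 1 [] (.d 299 2314 266 2347 431)
 (.a 1 [431] (.d 334 3375 303 3406 458)
 .e)))
 (.a 1 [402] (.q 404 (.a 1 [] (.d 299 2314 266 2347 431)
 (.a 1 [431] (.d 458 3406 334 3437 489)
 .e)))
 (.a 1 [431] (.d 334 3375 303 3406 458)
 .e)))))
 (.a 1 [404] (.q 402 (.a 1 [] (.d 459 1355 331 1387 491)
 (.a 1 [331] (.q 365 (.a 1 [] (.d 299 2314 266 2347 431)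
 (.a 1 [266] (.d 431 2347 299 2380 464)
 (.a 1 [299] (.d 334 3375 303 3406 458)
 .e))))
 .e)))
 (.a 1 [402] (.q 404 (.a 1 [] (.d 459 1355 331 1387 491)
 (.a 1 [331] (.q 365 (.a 1 [] (.d 299 2314 266 2347 431)
 (.a 1 [266] (.d 431 2347 299 2380 464)
 (.a 1 [299] (.d 334 3375 303 3406 458)
 .e))))
 .e)))
 (.a 1 [459] (.r 299 1323 331 (.d 365 2314 266 2347 431))
 (.a 1 [299] (.d 459 1355 331 1387 491)
 .e))))))))
 (.a 0 [301] (.r 398 394 397 (.q 427 (.a 1 [] (.d 331 1323 299 1355 459)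
 (.a 1 [331] (.r 491 1387 459 (.r 425 3404 456 (.q 365 (.a 1 [] (.d 299 2314 266 2347 431)
 (.a 1 [404] (.q 402 (.a 1 [] (.d 299 2314 266 2347 431)
 (.a 1 [431] (.d 458 3406 334 3437 489)
 .e)))
 (.a 1 [402] (.q 404 (.a 1 [] (.d 299 2314 266 2347 431)
 (.a 1 [431] (.d 458 3406 334 3437 489)
 .e)))
 (.a 1 [431] (.d 458 3406 334 3437 489)
 .e)))))))
 (.a 1 [404] (.q 402 (.a 1 [] (.d 459 1355 331 1387 491)
 (.a 1 [331] (.q 365 (.a 1 [] (.d 299 2314 266 2347 431)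
 (.a 1 [266] (.d 431 2347 299 2380 464)
 (.a 1 [299] (.d 334 3375 303 3406 458)
 .e))))
 .e)))
 (.a 1 [402] (.q 404 (.a 1 [] (.d 459 1355 331 1387 491)
 (.a 1 [331] (.q 365 (.a 1 [] (.d 299 2314 266 2347 431)
 (.a 1 [266] (.d 431 2347 299 2380 464)
 (.a 1 [299] (.d 334 3375 303 3406 458)
 .e))))
 .e)))
 (.a 1 [459] (.r 299 1323 331 (.d 365 2314 266 2347 431))
 (.a 1 [299] (.d 459 1355 331 1387 491)
 .e))))))))
 (.a 1 [404] (.q 402 (.a 1 [] (.d 301 3342 270 3373 425)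
 (.a 1 [425] (.q 299 (.a 1 [] (.d 331 1291 267 1323 427)
 (.a 1 [267] (.r 427 1323 331 (.r 398 394 397 (.d 365 2314 266 2347 431)))
 (.a 1 [331] (.r 398 394 397 (.d 365 2314 266 2347 431))
 .e))))
 .e)))
 (.a 1 [402] (.q 404 (.a 1 [] (.d 301 3342 270 3373 425)
 (.a 1 [425] (.q 299 (.a 1 [] (.d 331 1291 267 1323 427)
 (.a 1 [267] (.r 427 1323 331 (.r 398 394 397 (.d 365 2314 266 2347 431)))
 (.a 1 [331] (.r 398 394 397 (.d 365 2314 266 2347 431))
 .e))))
 .e)))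
 (.a 1 [270] (.d 425 3373 301 3404 456)
 .e)))))))
 (.a 1 [404] (.q 402 (.a 1 [] (.d 397 393 393 394 398)
 (.a 1 [397] (.q 427 (.a 1 [] (.d 331 1323 299 1355 459)
 (.a 1 [299] (.d 459 1355 331 1387 491)
 (.a 0 [331,459] (.q 332 (.a 1 [] (.d 301 3342 270 3373 425)
 (.a 1 [270] (.d 425 3373 301 3404 456)
 (.a 0 [301,425] (.q 460 (.a 1 [] (.d 361 2376 328 2409 493)
 (.a 1 [328] (.d 493 2409 361 2442 526)
 (.a 1 [493] (.r 364 1356 428 (.r 361 2376 328 (.d 362 360 360 361 365)))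
 (.a 0 [361] (.q 365 (.a 1 [] (.d 334 3375 303 3406 458)
 (.a 1 [303] (.d 458 3406 334 3437 489)
 (.a 1 [334] (.r 364 1356 428 (.d 366 362 362 363 367))
 .e))))
 .e)))))
 .e))))
 .e))))
 (.a 1 [393] (.q 427 (.a 1 [] (.d 331 1323 299 1355 459)
 (.a 1 [299] (.d 459 1355 331 1387 491)
 (.a 0 [331,459] (.q 332 (.a 1 [] (.d 301 3342 270 3373 425)
 (.a 1 [270] (.d 425 3373 301 3404 456)
 (.a 0 [301,425] (.q 365 (.a 1 [] (.d 334 3375 303 3406 458)
 (.a 1 [303] (.d 458 3406 334 3437 489)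
 (.a 1 [334] (.r 398 394 397 (.d 299 2314 266 2347 431))
 .e))))
 .e))))
 .e))))
 .e))))
 (.a 1 [402] (.q 404 (.a 1 [] (.d 397 393 393 394 398)
 (.a 1 [397] (.q 427 (.a 1 [] (.d 331 1323 299 1355 459)
 (.a 1 [299] (.d 459 1355 331 1387 491)
 (.a 0 [331,459] (.q 332 (.a 1 [] (.d 301 3342 270 3373 425)
 (.a 1 [270] (.d 425 3373 301 3404 456)
 (.a 0 [301,425] (.q 460 (.a 1 [] (.d 361 2376 328 2409 493)
 (.a 1 [328] (.d 493 2409 361 2442 526)
 (.a 1 [493] (.r 364 1356 428 (.r 361 2376 328 (.d 362 360 360 361 365)))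
 (.a 0 [361] (.q 365 (.a 1 [] (.d 334 3375 303 3406 458)
 (.a 1 [303] (.d 458 3406 334 3437 489)
 (.a 1 [334] (.r 364 1356 428 (.d 366 362 362 363 367))
 .e))))
 .e)))))
 .e))))
 .e))))
 (.a 1 [393] (.q 427 (.a 1 [] (.d 331 1323 299 1355 459)
 (.a 1 [299] (.d 459 1355 331 1387 491)
 (.a 0 [331,459] (.q 332 (.a 1 [] (.d 301 3342 270 3373 425)
 (.a 1 [270] (.d 425 3373 301 3404 456)
 (.a 0 [301,425] (.q 365 (.a 1 [] (.d 334 3375 303 3406 458)
 (.a 1 [303] (.d 458 3406 334 3437 489)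
 (.a 1 [334] (.r 398 394 397 (.d 299 2314 266 2347 431))
 .e))))
 .e))))
 .e))))
 .e))))
 (.a 1 [392] (.d 397 393 393 394 398)
 .e))))))) (by decide +kernel)

theorem b2_2586 : S (PX [399,404] [268,400,401,402,403]) := S.of (.q 395 (.a 1 [] (.d 393 392 392 393 397)
 (.a 1 [392] (.d 397 393 393 394 398)
 (.a 0 [393,397] (.q 427 (.a 1 [] (.d 331 1323 299 1355 459)
 (.a 1 [299] (.d 459 1355 331 1387 491)
 (.a 0 [331,459] (.q 330 (.a 1 [] (.d 297 2312 264 2345 429)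
 (.a 1 [264] (.d 429 2345 297 2378 462)
 (.a 0 [297,429] (.q 361 (.a 1 [] (.d 328 2343 295 2376 460)
 (.a 1 [295] (.d 460 2376 328 2409 493)
 (.a 0 [328,460] (.q 362 (.a 1 [] (.d 360 359 359 360 364)
 (.a 1 [359] (.d 364 360 360 361 365)
 (.a 1 [360] (.d 298 1290 266 1322 426)
 .e))))
 .e))))
 .e))))
 .e))))
 .e)))) (by decide +kernel)

theorem b2_2587 : S (PX [399,402] [268,400,401,403,404]) := S.of (.q 395 (.a 1 [] (.d 393 392 392 393 397)
 (.a 1 [392] (.d 397 393 393 394 398)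
 (.a 0 [393,397] (.q 427 (.a 1 [] (.d 331 1323 299 1355 459)
 (.a 1 [299] (.d 459 1355 331 1387 491)
 (.a 0 [331,459] (.q 330 (.a 1 [] (.d 297 2312 264 2345 429)
 (.a 1 [264] (.d 429 2345 297 2378 462)
 (.a 0 [297,429] (.q 361 (.a 1 [] (.d 328 2343 295 2376 460)
 (.a 1 [295] (.d 460 2376 328 2409 493)
 (.a 0 [328,460] (.q 362 (.a 1 [] (.d 360 359 359 360 364)
 (.a 1 [359] (.d 364 360 360 361 365)
 (.a 1 [360] (.d 298 1290 266 1322 426)
 .e))))
 .e))))
 .e))))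
 .e))))
 .e)))) (by decide +kernel)

theorem b2_2588 : S (PX [401] [268,400,402,403]) := S.of (.q 395 (.a 1 [] (.d 393 392 392 393 397)
 (.a 1 [392] (.d 397 393 393 394 398)
 (.a 0 [393,397] (.q 427 (.a 1 [] (.d 331 1323 299 1355 459)
 (.a 1 [299] (.d 459 1355 331 1387 491)
 (.a 0 [331,459] (.q 330 (.a 1 [] (.d 297 2312 264 2345 429)
 (.a 1 [264] (.d 429 2345 297 2378 462)
 (.a 0 [297,429] (.q 361 (.a 1 [] (.d 328 2343 295 2376 460)
 (.a 1 [295] (.d 460 2376 328 2409 493)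
 (.a 0 [328,460] (.q 362 (.a 1 [] (.d 360 359 359 360 364)
 (.a 1 [359] (.d 364 360 360 361 365)
 (.a 1 [360] (.d 298 1290 266 1322 426)
 .e))))
 .e))))
 .e))))
 .e))))
 .e)))) (by decide +kernel)

theorem b2_2603 : S (PX [402] [268,400,403,404]) := S.of (.q 395 (.a 1 [] (.d 393 392 392 393 397)
 (.a 1 [392] (.d 397 393 393 394 398)
 (.a 0 [393,397] (.q 427 (.a 1 [] (.d 331 1323 299 1355 459)
 (.a 1 [299] (.d 459 1355 331 1387 491)
 (.a 0 [331,459] (.q 330 (.a 1 [] (.d 297 2312 264 2345 429)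
 (.a 1 [264] (.d 429 2345 297 2378 462)
 (.a 0 [297,429] (.q 361 (.a 1 [] (.d 328 2343 295 2376 460)
 (.a 1 [295] (.d 460 2376 328 2409 493)
 (.a 0 [328,460] (.q 362 (.a 1 [] (.d 360 359 359 360 364)
 (.a 1 [359] (.d 364 360 360 361 365)
 (.a 1 [360] (.d 298 1290 266 1322 426)
 .e))))
 .e))))
 .e))))
 .e))))
 .e)))) (by decide +kernel)

theorem b2_2604 : S (PX [402] [400,401,403,404]) := S.of (.q 330 (.a 1 [] (.d 297 2312 264 2345 429)
 (.a 1 [264] (.d 429 2345 297 2378 462)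
 (.a 0 [297,429] (.q 362 (.a 1 [] (.d 298 1290 266 1322 426)
 (.a 1 [266] (.d 426 1322 298 1354 458)
 (.a 0 [298,426] (.q 361 (.a 1 [] (.d 360 359 359 360 364)
 (.a 1 [359] (.d 364 360 360 361 365)
 (.a 0 [360,364] (.q 427 (.a 1 [] (.d 328 2343 295 2376 460)
 (.a 1 [295] (.d 460 2376 328 2409 493)
 (.a 0 [328,460] (.q 395 (.a 1 [] (.d 393 392 392 393 397)
 (.a 1 [392] (.d 397 393 393 394 398)
 (.a 1 [393] (.d 331 1323 299 1355 459)
 .e))))
 .e))))
 .e))))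
 .e))))
 .e)))) (by decide +kernel)

theorem b2_2605 : S (PX [402] [400,401,403,405]) := S.of (.q 330 (.a 1 [] (.d 297 2312 264 2345 429)
 (.a 1 [264] (.d 429 2345 297 2378 462)
 (.a 0 [297,429] (.q 362 (.a 1 [] (.d 298 1290 266 1322 426)
 (.a 1 [266] (.d 426 1322 298 1354 458)
 (.a 0 [298,426] (.q 361 (.a 1 [] (.d 360 359 359 360 364)
 (.a 1 [359] (.d 364 360 360 361 365)
 (.a 0 [360,364] (.q 427 (.a 1 [] (.d 328 2343 295 2376 460)
 (.a 1 [295] (.d 460 2376 328 2409 493)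
 (.a 0 [328,460] (.q 395 (.a 1 [] (.d 393 392 392 393 397)
 (.a 1 [392] (.d 397 393 393 394 398)
 (.a 1 [393] (.d 331 1323 299 1355 459)
 .e))))
 .e))))
 .e))))
 .e))))
 .e)))) (by decide +kernel)

theorem b2_2628 : S (PX [399,404] [268,400,402,403,406]) := S.of (.q 395 (.a 1 [] (.d 393 392 392 393 397)
 (.a 1 [392] (.d 397 393 393 394 398)
 (.a 0 [393,397] (.q 427 (.a 1 [] (.d 331 1323 299 1355 459)
 (.a 1 [299] (.d 459 1355 331 1387 491)
 (.a 0 [331,459] (.q 330 (.a 1 [] (.d 297 2312 264 2345 429)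
 (.a 1 [264] (.d 429 2345 297 2378 462)
 (.a 0 [297,429] (.q 361 (.a 1 [] (.d 328 2343 295 2376 460)
 (.a 1 [295] (.d 460 2376 328 2409 493)
 (.a 0 [328,460] (.q 362 (.a 1 [] (.d 360 359 359 360 364)
 (.a 1 [359] (.d 364 360 360 361 365)
 (.a 1 [360] (.d 298 1290 266 1322 426)
 .e))))
 .e))))
 .e))))
 .e))))
 .e)))) (by decide +kernel)

theorem v2_1295 : VW (PX [238,337] [172,271,304,403]) := VW.of base nl_ok fl_ok .nil
  []
  [([273], (PX [238,337] [172,271,273,304,403])), ([330], (PX [238,337] [172,271,304,330,403])), ([335], (PX [238,337] [172,271,304,335,403])), ([366], (PX [238,337] [172,271,304,366,403])), ([428], (PX [238,337] [172,271,304,403,428]))]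
  (by decide +kernel) ⟨b2_2432, b2_2433, b2_2434, b2_2435, b2_2436, trivial⟩

theorem w2_1296_172 : S (PX [337] [172,271,304,403]) := VW.play 238 (PX [238,337] [172,271,304,403]) (by decide +kernel) v2_1295

theorem v2_1296 : VW (PX [337] [271,304,403]) := VW.of base nl_ok fl_ok .nil
  [(205, (.cons 172 238 .nil (.cons 238 172 .nil .nil))), (238, (.cons 172 205 .nil (.cons 205 172 .nil .nil)))]
  [([172], (PX [337] [172,271,304,403])), ([273], (PX [337] [271,273,304,403])), ([300], (PX [337] [271,300,304,403])), ([330], (PX [337] [271,304,330,403])), ([335], (PX [337] [271,304,335,403])), ([366], (PX [337] [271,304,366,403])), ([428], (PX [337] [271,304,403,428]))]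
  (by decide +kernel) ⟨w2_1296_172, b2_2437, b2_2438, b2_2439, b2_2440, b2_2441, b2_2442, trivial⟩

theorem v2_1305 : VW (PX [304] [271,337,403]) := VW.of base nl_ok fl_ok .nil
  [(370, (.cons 436 469 .nil (.cons 469 436 .nil .nil))), (436, (.cons 370 469 .nil (.cons 469 370 (.cons 502 535 .nil (.cons 535 502 .nil .nil)) .nil))), (469, (.cons 370 436 .nil (.cons 436 370 (.cons 502 535 .nil (.cons 535 502 .nil .nil)) .nil)))]
  []
  (by decide +kernel) trivial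

theorem v2_1321 : VW (PX [337] [271,370,403]) := VW.of base nl_ok fl_ok .nil
  [(436, (.cons 469 502 .nil (.cons 502 469 .nil .nil))), (469, (.cons 436 502 .nil (.cons 502 436 .nil .nil))), (502, (.cons 436 469 .nil (.cons 469 436 .nil .nil)))]
  []
  (by decide +kernel) trivial

theorem w2_1322_304 : S (PX [] [271,304,403]) := VW.play 337 (PX [337] [271,304,403]) (by decide +kernel) v2_1296

theorem w2_1322_337 : S (PX [] [271,337,403]) := VW.play 304 (PX [304] [271,337,403]) (by decide +kernel) v2_1305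

theorem w2_1322_370 : S (PX [] [271,370,403]) := VW.play 337 (PX [337] [271,370,403]) (by decide +kernel) v2_1321

theorem v2_1322 : VW (PX [] [271,403]) := VW.of base nl_ok fl_ok .nil
  []
  [([304], (PX [] [271,304,403])), ([337], (PX [] [271,337,403])), ([370], (PX [] [271,370,403]))]
  (by decide +kernel) ⟨w2_1322_304, w2_1322_337, w2_1322_370, trivial⟩

theorem v2_1323 : VW (PX [] [275,403]) := VW.of base nl_ok fl_ok .nil
  [(307, (.cons 339 371 (.cons 211 243 .nil (.cons 243 211 .nil .nil)) (.cons 371 339 .nil .nil))), (339, (.cons 307 371 (.cons 211 243 .nil (.cons 243 211 .nil .nil)) (.cons 371 307 (.cons 435 467 .nil (.cons 467 435 .nil .nil)) .nil))), (371, (.cons 307 339 .nil (.cons 339 307 (.cons 435 467 .nil (.cons 467 435 .nil .nil)) .nil)))]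
  []
  (by decide +kernel) trivial

theorem v2_1324 : VW (PX [] [279,403]) := VW.of base nl_ok fl_ok .nil
  [(310, (.cons 341 372 (.cons 217 248 .nil (.cons 248 217 .nil .nil)) (.cons 372 341 .nil .nil))), (341, (.cons 310 372 (.cons 217 248 .nil (.cons 248 217 .nil .nil)) (.cons 372 310 (.cons 434 465 .nil (.cons 465 434 .nil .nil)) .nil))), (372, (.cons 310 341 .nil (.cons 341 310 (.cons 434 465 .nil (.cons 465 434 .nil .nil)) .nil)))]
  []
  (by decide +kernel) trivial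

theorem v2_1325 : VW (PX [238,370] [205,304,337,403]) := VW.of base nl_ok fl_ok .nil
  []
  [([273], (PX [238,370] [205,273,304,337,403])), ([330], (PX [238,370] [205,304,330,337,403])), ([335], (PX [238,370] [205,304,335,337,403])), ([366], (PX [238,370] [205,304,337,366,403])), ([428], (PX [238,370] [205,304,337,403,428]))]
  (by decide +kernel) ⟨b2_2501, b2_2502, b2_2503, b2_2504, b2_2505, trivial⟩

theorem v2_1303 : VW (PX [238,370] [271,304,337,403]) := VW.of base nl_ok fl_ok .nil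
  []
  [([273], (PX [238,370] [271,273,304,337,403])), ([330], (PX [238,370] [271,304,330,337,403])), ([335], (PX [238,370] [271,304,335,337,403])), ([366], (PX [238,370] [271,304,337,366,403])), ([428], (PX [238,370] [271,304,337,403,428]))]
  (by decide +kernel) ⟨b2_2482, b2_2483, b2_2484, b2_2485, b2_2486, trivial⟩

theorem w2_1327_205 : S (PX [370] [205,304,337,403]) := VW.play 238 (PX [238,370] [205,304,337,403]) (by decide +kernel) v2_1325

theorem w2_1327_271 : S (PX [370] [271,304,337,403]) := VW.play 238 (PX [238,370] [271,304,337,403]) (by decide +kernel) v2_1303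

theorem v2_1327 : VW (PX [370] [304,337,403]) := VW.of base nl_ok fl_ok .nil
  [(238, (.cons 205 271 .nil (.cons 271 205 .nil .nil)))]
  [([205], (PX [370] [205,304,337,403])), ([271], (PX [370] [271,304,337,403])), ([273], (PX [370] [273,304,337,403])), ([330], (PX [370] [304,330,337,403])), ([333], (PX [370] [304,333,337,403])), ([335], (PX [370] [304,335,337,403])), ([366], (PX [370] [304,337,366,403])), ([428], (PX [370] [304,337,403,428]))]
  (by decide +kernel) ⟨w2_1327_205, w2_1327_271, b2_2511, b2_2512, b2_2513, b2_2514, b2_2515, b2_2516, trivial⟩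

theorem v2_1328 : VW (PX [337] [304,370,403]) := VW.of base nl_ok fl_ok .nil
  [(436, (.cons 469 502 .nil (.cons 502 469 .nil .nil))), (469, (.cons 436 502 .nil (.cons 502 436 .nil .nil))), (502, (.cons 436 469 .nil (.cons 469 436 .nil .nil)))]
  [([273], (PX [337] [273,304,370,403])), ([330], (PX [337] [304,330,370,403])), ([335], (PX [337] [304,335,370,403])), ([366], (PX [337] [304,366,370,403])), ([428], (PX [337] [304,370,403,428]))]
  (by decide +kernel) ⟨b2_2518, b2_2519, b2_2520, b2_2521, b2_2522, trivial⟩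

theorem w2_1329_271 : S (PX [] [271,304,403]) := VW.play 337 (PX [337] [271,304,403]) (by decide +kernel) v2_1296

theorem w2_1329_337 : S (PX [] [304,337,403]) := VW.play 370 (PX [370] [304,337,403]) (by decide +kernel) v2_1327

theorem w2_1329_370 : S (PX [] [304,370,403]) := VW.play 337 (PX [337] [304,370,403]) (by decide +kernel) v2_1328

theorem v2_1329 : VW (PX [] [304,403]) := VW.of base nl_ok fl_ok .nil
  [(436, (.cons 337 370 .nil (.cons 370 337 (.cons 469 502 .nil (.cons 502 469 .nil .nil)) .nil)))]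
  [([271], (PX [] [271,304,403])), ([273], (PX [] [273,304,403])), ([330], (PX [] [304,330,403])), ([335], (PX [] [304,335,403])), ([337], (PX [] [304,337,403])), ([366], (PX [] [304,366,403])), ([370], (PX [] [304,370,403])), ([428], (PX [] [304,403,428]))]
  (by decide +kernel) ⟨w2_1329_271, b2_2498, b2_2499, b2_2500, w2_1329_337, b2_2517, w2_1329_370, b2_2523, trivial⟩

theorem v2_1333 : VW (PX [371] [307,339,403]) := VW.of base nl_ok fl_ok .nil
  [(211, (.cons 243 275 .nil (.cons 275 243 .nil .nil))), (243, (.cons 211 275 .nil (.cons 275 211 .nil .nil))), (275, (.cons 211 243 .nil (.cons 243 211 .nil .nil)))]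
  []
  (by decide +kernel) trivial

theorem v2_1348 : VW (PX [339] [307,371,403]) := VW.of base nl_ok fl_ok .nil
  [(435, (.cons 467 499 .nil (.cons 499 467 .nil .nil))), (467, (.cons 435 499 .nil (.cons 499 435 .nil .nil))), (499, (.cons 435 467 .nil (.cons 467 435 .nil .nil)))]
  []
  (by decide +kernel) trivial

theorem w2_1351_339 : S (PX [] [307,339,403]) := VW.play 371 (PX [371] [307,339,403]) (by decide +kernel) v2_1333

theorem w2_1351_371 : S (PX [] [307,371,403]) := VW.play 339 (PX [339] [307,371,403]) (by decide +kernel) v2_1348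

theorem v2_1351 : VW (PX [] [307,403]) := VW.of base nl_ok fl_ok .nil
  [(275, (.cons 339 371 (.cons 211 243 .nil (.cons 243 211 .nil .nil)) (.cons 371 339 .nil .nil))), (435, (.cons 339 371 .nil (.cons 371 339 (.cons 467 499 .nil (.cons 499 467 .nil .nil)) .nil)))]
  [([339], (PX [] [307,339,403])), ([371], (PX [] [307,371,403]))]
  (by decide +kernel) ⟨w2_1351_339, w2_1351_371, trivial⟩

theorem v2_1362 : VW (PX [372] [310,341,403]) := VW.of base nl_ok fl_ok .nil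
  [(217, (.cons 248 279 .nil (.cons 279 248 .nil .nil))), (248, (.cons 217 279 .nil (.cons 279 217 .nil .nil))), (279, (.cons 217 248 .nil (.cons 248 217 .nil .nil)))]
  []
  (by decide +kernel) trivial

theorem v2_1363 : VW (PX [341] [310,372,403]) := VW.of base nl_ok fl_ok .nil
  [(434, (.cons 465 496 .nil (.cons 496 465 .nil .nil))), (465, (.cons 434 496 .nil (.cons 496 434 .nil .nil))), (496, (.cons 434 465 .nil (.cons 465 434 .nil .nil)))]
  []
  (by decide +kernel) trivial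

theorem w2_1366_341 : S (PX [] [310,341,403]) := VW.play 372 (PX [372] [310,341,403]) (by decide +kernel) v2_1362

theorem w2_1366_372 : S (PX [] [310,372,403]) := VW.play 341 (PX [341] [310,372,403]) (by decide +kernel) v2_1363

theorem v2_1366 : VW (PX [] [310,403]) := VW.of base nl_ok fl_ok .nil
  [(279, (.cons 341 372 (.cons 217 248 .nil (.cons 248 217 .nil .nil)) (.cons 372 341 .nil .nil))), (434, (.cons 341 372 .nil (.cons 372 341 (.cons 465 496 .nil (.cons 496 465 .nil .nil)) .nil)))]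
  [([341], (PX [] [310,341,403])), ([372], (PX [] [310,372,403]))]
  (by decide +kernel) ⟨w2_1366_341, w2_1366_372, trivial⟩

theorem v2_1367 : VW (PX [304,469] [337,370,403,436]) := VW.of base nl_ok fl_ok .nil
  []
  []
  (by decide +kernel) trivial

theorem v2_1368 : VW (PX [304,436] [337,370,403,469]) := VW.of base nl_ok fl_ok .nil
  []
  []
  (by decide +kernel) trivial

theorem w2_1369_436 : S (PX [304] [337,370,403,436]) := VW.play 469 (PX [304,469] [337,370,403,436]) (by decide +kernel) v2_1367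

theorem w2_1369_469 : S (PX [304] [337,370,403,469]) := VW.play 436 (PX [304,436] [337,370,403,469]) (by decide +kernel) v2_1368

theorem v2_1369 : VW (PX [304] [337,370,403]) := VW.of base nl_ok fl_ok (.cons 436 469 .nil (.cons 469 436 .nil .nil))
  [(502, (.cons 436 469 .nil (.cons 469 436 .nil .nil))), (535, (.cons 436 469 .nil (.cons 469 436 .nil .nil))), (568, (.cons 436 469 .nil (.cons 469 436 .nil .nil)))]
  [([436], (PX [304] [337,370,403,436])), ([469], (PX [304] [337,370,403,469]))]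
  (by decide +kernel) ⟨w2_1369_436, w2_1369_469, trivial⟩

theorem v2_1384 : VW (PX [370] [337,403,436]) := VW.of base nl_ok fl_ok .nil
  [(469, (.cons 502 535 .nil (.cons 535 502 .nil .nil))), (502, (.cons 469 535 .nil (.cons 535 469 .nil .nil))), (535, (.cons 469 502 .nil (.cons 502 469 .nil .nil)))]
  []
  (by decide +kernel) trivial

theorem v2_1385 : VW (PX [370] [337,403,469]) := VW.of base nl_ok fl_ok .nil
  [(436, (.cons 502 535 .nil (.cons 535 502 .nil .nil))), (502, (.cons 436 535 .nil (.cons 535 436 (.cons 568 601 .nil (.cons 601 568 .nil .nil)) .nil))), (535, (.cons 436 502 .nil (.cons 502 436 (.cons 568 601 .nil (.cons 601 568 .nil .nil)) .nil)))]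
  []
  (by decide +kernel) trivial

theorem w2_1400_271 : S (PX [] [271,337,403]) := VW.play 304 (PX [304] [271,337,403]) (by decide +kernel) v2_1305

theorem w2_1400_304 : S (PX [] [304,337,403]) := VW.play 370 (PX [370] [304,337,403]) (by decide +kernel) v2_1327

theorem w2_1400_370 : S (PX [] [337,370,403]) := VW.play 304 (PX [304] [337,370,403]) (by decide +kernel) v2_1369

theorem w2_1400_436 : S (PX [] [337,403,436]) := VW.play 370 (PX [370] [337,403,436]) (by decide +kernel) v2_1384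

theorem w2_1400_469 : S (PX [] [337,403,469]) := VW.play 370 (PX [370] [337,403,469]) (by decide +kernel) v2_1385

theorem v2_1400 : VW (PX [] [337,403]) := VW.of base nl_ok fl_ok .nil
  []
  [([271], (PX [] [271,337,403])), ([304], (PX [] [304,337,403])), ([370], (PX [] [337,370,403])), ([436], (PX [] [337,403,436])), ([469], (PX [] [337,403,469]))]
  (by decide +kernel) ⟨w2_1400_271, w2_1400_304, w2_1400_370, w2_1400_436, w2_1400_469, trivial⟩

theorem v2_1401 : VW (PX [307,467] [339,371,403,435]) := VW.of base nl_ok fl_ok .nil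
  []
  []
  (by decide +kernel) trivial

theorem v2_1402 : VW (PX [307,435] [339,371,403,467]) := VW.of base nl_ok fl_ok .nil
  []
  []
  (by decide +kernel) trivial

theorem w2_1403_435 : S (PX [307] [339,371,403,435]) := VW.play 467 (PX [307,467] [339,371,403,435]) (by decide +kernel) v2_1401

theorem w2_1403_467 : S (PX [307] [339,371,403,467]) := VW.play 435 (PX [307,435] [339,371,403,467]) (by decide +kernel) v2_1402

theorem v2_1403 : VW (PX [307] [339,371,403]) := VW.of base nl_ok fl_ok (.cons 435 467 .nil (.cons 467 435 .nil .nil))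
  [(499, (.cons 435 467 .nil (.cons 467 435 .nil .nil))), (531, (.cons 435 467 .nil (.cons 467 435 .nil .nil))), (563, (.cons 435 467 .nil (.cons 467 435 .nil .nil)))]
  [([435], (PX [307] [339,371,403,435])), ([467], (PX [307] [339,371,403,467]))]
  (by decide +kernel) ⟨w2_1403_435, w2_1403_467, trivial⟩

theorem v2_1420 : VW (PX [371] [339,403,435]) := VW.of base nl_ok fl_ok .nil
  [(467, (.cons 499 531 .nil (.cons 531 499 .nil .nil))), (499, (.cons 467 531 .nil (.cons 531 467 .nil .nil))), (531, (.cons 467 499 .nil (.cons 499 467 .nil .nil)))]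
  []
  (by decide +kernel) trivial

theorem w2_1423_307 : S (PX [] [307,339,403]) := VW.play 371 (PX [371] [307,339,403]) (by decide +kernel) v2_1333

theorem w2_1423_371 : S (PX [] [339,371,403]) := VW.play 307 (PX [307] [339,371,403]) (by decide +kernel) v2_1403

theorem w2_1423_435 : S (PX [] [339,403,435]) := VW.play 371 (PX [371] [339,403,435]) (by decide +kernel) v2_1420

theorem v2_1423 : VW (PX [] [339,403]) := VW.of base nl_ok fl_ok .nil
  [(275, (.cons 307 371 (.cons 211 243 .nil (.cons 243 211 .nil .nil)) (.cons 371 307 (.cons 435 467 .nil (.cons 467 435 .nil .nil)) .nil))), (467, (.cons 371 435 (.cons 275 307 .nil (.cons 307 275 .nil .nil)) (.cons 435 371 (.cons 499 531 .nil (.cons 531 499 .nil .nil)) .nil)))]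
  [([307], (PX [] [307,339,403])), ([371], (PX [] [339,371,403])), ([435], (PX [] [339,403,435]))]
  (by decide +kernel) ⟨w2_1423_307, w2_1423_371, w2_1423_435, trivial⟩

theorem v2_1424 : VW (PX [310,434] [279,341,372,403]) := VW.of base nl_ok fl_ok .nil
  []
  []
  (by decide +kernel) trivial

theorem v2_1352 : VW (PX [279,434] [310,341,372,403]) := VW.of base nl_ok fl_ok .nil
  []
  []
  (by decide +kernel) trivial

theorem w2_1425_279 : S (PX [434] [279,341,372,403]) := VW.play 310 (PX [310,434] [279,341,372,403]) (by decide +kernel) v2_1424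

theorem w2_1425_310 : S (PX [434] [310,341,372,403]) := VW.play 279 (PX [279,434] [310,341,372,403]) (by decide +kernel) v2_1352

theorem v2_1425 : VW (PX [434] [341,372,403]) := VW.of base nl_ok fl_ok (.cons 279 310 .nil (.cons 310 279 .nil .nil))
  [(186, (.cons 279 310 .nil (.cons 310 279 .nil .nil))), (217, (.cons 279 310 .nil (.cons 310 279 .nil .nil))), (248, (.cons 279 310 .nil (.cons 310 279 .nil .nil)))]
  [([279], (PX [434] [279,341,372,403])), ([310], (PX [434] [310,341,372,403]))]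
  (by decide +kernel) ⟨w2_1425_279, w2_1425_310, trivial⟩

theorem v2_1426 : VW (PX [372,496] [341,403,434,465]) := VW.of base nl_ok fl_ok .nil
  []
  []
  (by decide +kernel) trivial

theorem w2_1428_465 : S (PX [372] [341,403,434,465]) := VW.play 496 (PX [372,496] [341,403,434,465]) (by decide +kernel) v2_1426

theorem v2_1428 : VW (PX [372] [341,403,434]) := VW.of base nl_ok fl_ok .nil
  [(496, (.cons 465 527 .nil (.cons 527 465 .nil .nil))), (527, (.cons 465 496 .nil (.cons 496 465 .nil .nil)))]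
  [([465], (PX [372] [341,403,434,465]))]
  (by decide +kernel) ⟨w2_1428_465, trivial⟩

theorem v2_1437 : VW (PX [434] [341,403,465]) := VW.of base nl_ok fl_ok .nil
  [(279, (.cons 310 372 (.cons 217 248 .nil (.cons 248 217 .nil .nil)) (.cons 372 310 .nil .nil))), (310, (.cons 279 372 (.cons 217 248 .nil (.cons 248 217 .nil .nil)) (.cons 372 279 .nil .nil))), (372, (.cons 279 310 .nil (.cons 310 279 .nil .nil)))]
  []
  (by decide +kernel) trivial

theorem w2_1438_310 : S (PX [] [310,341,403]) := VW.play 372 (PX [372] [310,341,403]) (by decide +kernel) v2_1362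

theorem w2_1438_372 : S (PX [] [341,372,403]) := VW.play 434 (PX [434] [341,372,403]) (by decide +kernel) v2_1425

theorem w2_1438_434 : S (PX [] [341,403,434]) := VW.play 372 (PX [372] [341,403,434]) (by decide +kernel) v2_1428

theorem w2_1438_465 : S (PX [] [341,403,465]) := VW.play 434 (PX [434] [341,403,465]) (by decide +kernel) v2_1437

theorem v2_1438 : VW (PX [] [341,403]) := VW.of base nl_ok fl_ok .nil
  [(279, (.cons 310 372 (.cons 217 248 .nil (.cons 248 217 .nil .nil)) (.cons 372 310 (.cons 434 465 .nil (.cons 465 434 .nil .nil)) .nil)))]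
  [([310], (PX [] [310,341,403])), ([372], (PX [] [341,372,403])), ([434], (PX [] [341,403,434])), ([465], (PX [] [341,403,465]))]
  (by decide +kernel) ⟨w2_1438_310, w2_1438_372, w2_1438_434, w2_1438_465, trivial⟩

theorem v2_1439 : VW (PX [337,502] [370,403,436,469]) := VW.of base nl_ok fl_ok .nil
  []
  []
  (by decide +kernel) trivial

theorem v2_1440 : VW (PX [337,469] [370,403,436,502]) := VW.of base nl_ok fl_ok .nil
  []
  []
  (by decide +kernel) trivial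

theorem w2_1441_469 : S (PX [337] [370,403,436,469]) := VW.play 502 (PX [337,502] [370,403,436,469]) (by decide +kernel) v2_1439

theorem w2_1441_502 : S (PX [337] [370,403,436,502]) := VW.play 469 (PX [337,469] [370,403,436,502]) (by decide +kernel) v2_1440

theorem v2_1441 : VW (PX [337] [370,403,436]) := VW.of base nl_ok fl_ok (.cons 469 502 .nil (.cons 502 469 .nil .nil))
  [(535, (.cons 469 502 .nil (.cons 502 469 .nil .nil))), (568, (.cons 469 502 .nil (.cons 502 469 .nil .nil))), (601, (.cons 469 502 .nil (.cons 502 469 .nil .nil)))]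
  [([469], (PX [337] [370,403,436,469])), ([502], (PX [337] [370,403,436,502]))]
  (by decide +kernel) ⟨w2_1441_469, w2_1441_502, trivial⟩

theorem v2_1319 : VW (PX [304,436] [271,370,403,469]) := VW.of base nl_ok fl_ok .nil
  []
  []
  (by decide +kernel) trivial

theorem v2_1397 : VW (PX [271,436] [337,370,403,469]) := VW.of base nl_ok fl_ok .nil
  []
  []
  (by decide +kernel) trivial

theorem w2_1445_271 : S (PX [436] [271,370,403,469]) := VW.play 304 (PX [304,436] [271,370,403,469]) (by decide +kernel) v2_1319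

theorem w2_1445_337 : S (PX [436] [337,370,403,469]) := VW.play 271 (PX [271,436] [337,370,403,469]) (by decide +kernel) v2_1397

theorem v2_1445 : VW (PX [436] [370,403,469]) := VW.of base nl_ok fl_ok .nil
  [(304, (.cons 271 337 .nil (.cons 337 271 .nil .nil)))]
  [([271], (PX [436] [271,370,403,469])), ([337], (PX [436] [337,370,403,469]))]
  (by decide +kernel) ⟨w2_1445_271, w2_1445_337, trivial⟩

theorem v2_1446 : VW (PX [304,436] [271,370,403,502]) := VW.of base nl_ok fl_ok .nil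
  []
  []
  (by decide +kernel) trivial

theorem v2_1448 : VW (PX [271,436] [337,370,403,502]) := VW.of base nl_ok fl_ok .nil
  []
  []
  (by decide +kernel) trivial

theorem w2_1450_271 : S (PX [436] [271,370,403,502]) := VW.play 304 (PX [304,436] [271,370,403,502]) (by decide +kernel) v2_1446

theorem w2_1450_337 : S (PX [436] [337,370,403,502]) := VW.play 271 (PX [271,436] [337,370,403,502]) (by decide +kernel) v2_1448

theorem v2_1450 : VW (PX [436] [370,403,502]) := VW.of base nl_ok fl_ok .nil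
  [(304, (.cons 271 337 .nil (.cons 337 271 .nil .nil)))]
  [([271], (PX [436] [271,370,403,502])), ([337], (PX [436] [337,370,403,502]))]
  (by decide +kernel) ⟨w2_1450_271, w2_1450_337, trivial⟩

theorem w2_1458_271 : S (PX [] [271,370,403]) := VW.play 337 (PX [337] [271,370,403]) (by decide +kernel) v2_1321

theorem w2_1458_304 : S (PX [] [304,370,403]) := VW.play 337 (PX [337] [304,370,403]) (by decide +kernel) v2_1328

theorem w2_1458_337 : S (PX [] [337,370,403]) := VW.play 304 (PX [304] [337,370,403]) (by decide +kernel) v2_1369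

theorem w2_1458_436 : S (PX [] [370,403,436]) := VW.play 337 (PX [337] [370,403,436]) (by decide +kernel) v2_1441

theorem w2_1458_469 : S (PX [] [370,403,469]) := VW.play 436 (PX [436] [370,403,469]) (by decide +kernel) v2_1445

theorem w2_1458_502 : S (PX [] [370,403,502]) := VW.play 436 (PX [436] [370,403,502]) (by decide +kernel) v2_1450

theorem v2_1458 : VW (PX [] [370,403]) := VW.of base nl_ok fl_ok .nil
  []
  [([271], (PX [] [271,370,403])), ([304], (PX [] [304,370,403])), ([337], (PX [] [337,370,403])), ([436], (PX [] [370,403,436])), ([469], (PX [] [370,403,469])), ([502], (PX [] [370,403,502]))]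
  (by decide +kernel) ⟨w2_1458_271, w2_1458_304, w2_1458_337, w2_1458_436, w2_1458_469, w2_1458_502, trivial⟩

theorem v2_1459 : VW (PX [339,499] [371,403,435,467]) := VW.of base nl_ok fl_ok .nil
  []
  []
  (by decide +kernel) trivial

theorem v2_1460 : VW (PX [339,467] [371,403,435,499]) := VW.of base nl_ok fl_ok .nil
  []
  []
  (by decide +kernel) trivial

theorem w2_1461_467 : S (PX [339] [371,403,435,467]) := VW.play 499 (PX [339,499] [371,403,435,467]) (by decide +kernel) v2_1459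

theorem w2_1461_499 : S (PX [339] [371,403,435,499]) := VW.play 467 (PX [339,467] [371,403,435,499]) (by decide +kernel) v2_1460

theorem v2_1461 : VW (PX [339] [371,403,435]) := VW.of base nl_ok fl_ok (.cons 467 499 .nil (.cons 499 467 .nil .nil))
  [(531, (.cons 467 499 .nil (.cons 499 467 .nil .nil))), (563, (.cons 467 499 .nil (.cons 499 467 .nil .nil))), (595, (.cons 467 499 .nil (.cons 499 467 .nil .nil)))]
  [([467], (PX [339] [371,403,435,467])), ([499], (PX [339] [371,403,435,499]))]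
  (by decide +kernel) ⟨w2_1461_467, w2_1461_499, trivial⟩

theorem v2_1466 : VW (PX [435] [371,403,467]) := VW.of base nl_ok fl_ok .nil
  [(275, (.cons 307 339 .nil (.cons 339 307 .nil .nil))), (307, (.cons 275 339 .nil (.cons 339 275 .nil .nil))), (339, (.cons 275 307 .nil (.cons 307 275 .nil .nil)))]
  []
  (by decide +kernel) trivial

theorem w2_1478_307 : S (PX [] [307,371,403]) := VW.play 339 (PX [339] [307,371,403]) (by decide +kernel) v2_1348

theorem w2_1478_339 : S (PX [] [339,371,403]) := VW.play 307 (PX [307] [339,371,403]) (by decide +kernel) v2_1403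

theorem w2_1478_435 : S (PX [] [371,403,435]) := VW.play 339 (PX [339] [371,403,435]) (by decide +kernel) v2_1461

theorem w2_1478_467 : S (PX [] [371,403,467]) := VW.play 435 (PX [435] [371,403,467]) (by decide +kernel) v2_1466

theorem v2_1478 : VW (PX [] [371,403]) := VW.of base nl_ok fl_ok .nil
  [(275, (.cons 307 339 .nil (.cons 339 307 (.cons 435 467 .nil (.cons 467 435 .nil .nil)) .nil))), (499, (.cons 435 467 (.cons 307 339 .nil (.cons 339 307 .nil .nil)) (.cons 467 435 .nil .nil)))]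
  [([307], (PX [] [307,371,403])), ([339], (PX [] [339,371,403])), ([435], (PX [] [371,403,435])), ([467], (PX [] [371,403,467]))]
  (by decide +kernel) ⟨w2_1478_307, w2_1478_339, w2_1478_435, w2_1478_467, trivial⟩

theorem v2_1479 : VW (PX [341,465] [310,372,403,434]) := VW.of base nl_ok fl_ok .nil
  []
  []
  (by decide +kernel) trivial

theorem v2_1430 : VW (PX [310,465] [341,372,403,434]) := VW.of base nl_ok fl_ok .nil
  []
  []
  (by decide +kernel) trivial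

theorem w2_1480_310 : S (PX [465] [310,372,403,434]) := VW.play 341 (PX [341,465] [310,372,403,434]) (by decide +kernel) v2_1479

theorem w2_1480_341 : S (PX [465] [341,372,403,434]) := VW.play 310 (PX [310,465] [341,372,403,434]) (by decide +kernel) v2_1430

theorem v2_1480 : VW (PX [465] [372,403,434]) := VW.of base nl_ok fl_ok (.cons 310 341 .nil (.cons 341 310 .nil .nil))
  [(217, (.cons 310 341 .nil (.cons 341 310 .nil .nil))), (248, (.cons 310 341 .nil (.cons 341 310 .nil .nil))), (279, (.cons 310 341 .nil (.cons 341 310 .nil .nil)))]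
  [([310], (PX [465] [310,372,403,434])), ([341], (PX [465] [341,372,403,434]))]
  (by decide +kernel) ⟨w2_1480_310, w2_1480_341, trivial⟩

theorem v2_1481 : VW (PX [434] [372,403,465]) := VW.of base nl_ok fl_ok .nil
  [(279, (.cons 310 341 .nil (.cons 341 310 .nil .nil))), (310, (.cons 279 341 .nil (.cons 341 279 .nil .nil))), (341, (.cons 279 310 .nil (.cons 310 279 .nil .nil)))]
  []
  (by decide +kernel) trivial

theorem w2_1497_310 : S (PX [] [310,372,403]) := VW.play 341 (PX [341] [310,372,403]) (by decide +kernel) v2_1363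

theorem w2_1497_341 : S (PX [] [341,372,403]) := VW.play 434 (PX [434] [341,372,403]) (by decide +kernel) v2_1425

theorem w2_1497_434 : S (PX [] [372,403,434]) := VW.play 465 (PX [465] [372,403,434]) (by decide +kernel) v2_1480

theorem w2_1497_465 : S (PX [] [372,403,465]) := VW.play 434 (PX [434] [372,403,465]) (by decide +kernel) v2_1481

theorem v2_1497 : VW (PX [] [372,403]) := VW.of base nl_ok fl_ok .nil
  [(279, (.cons 310 341 .nil (.cons 341 310 (.cons 434 465 .nil (.cons 465 434 .nil .nil)) .nil))), (496, (.cons 434 465 (.cons 310 341 .nil (.cons 341 310 .nil .nil)) (.cons 465 434 .nil .nil)))]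
  [([310], (PX [] [310,372,403])), ([341], (PX [] [341,372,403])), ([434], (PX [] [372,403,434])), ([465], (PX [] [372,403,465]))]
  (by decide +kernel) ⟨w2_1497_310, w2_1497_341, w2_1497_434, w2_1497_465, trivial⟩

theorem v2_1498 : VW (PX [401] [399,400,403]) := VW.of base nl_ok fl_ok .nil
  []
  [([268], (PX [401] [268,399,400,403]))]
  (by decide +kernel) ⟨b2_2563, trivial⟩

theorem v2_1499 : VW (PX [400] [399,401,403]) := VW.of base nl_ok fl_ok .nil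
  [(402, (.cons 404 405 .nil (.cons 405 404 .nil .nil))), (404, (.cons 402 405 .nil (.cons 405 402 (.cons 406 407 .nil (.cons 407 406 .nil .nil)) .nil))), (405, (.cons 402 404 .nil (.cons 404 402 (.cons 406 407 .nil (.cons 407 406 .nil .nil)) .nil)))]
  []
  (by decide +kernel) trivial

theorem v2_1508 : VW (PX [401] [399,402,403]) := VW.of base nl_ok fl_ok .nil
  [(404, (.cons 405 406 .nil (.cons 406 405 .nil .nil))), (405, (.cons 404 406 .nil (.cons 406 404 .nil .nil))), (406, (.cons 404 405 .nil (.cons 405 404 .nil .nil)))]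
  []
  (by decide +kernel) trivial

theorem w2_1509_400 : S (PX [] [399,400,403]) := VW.play 401 (PX [401] [399,400,403]) (by decide +kernel) v2_1498

theorem w2_1509_401 : S (PX [] [399,401,403]) := VW.play 400 (PX [400] [399,401,403]) (by decide +kernel) v2_1499

theorem w2_1509_402 : S (PX [] [399,402,403]) := VW.play 401 (PX [401] [399,402,403]) (by decide +kernel) v2_1508

theorem v2_1509 : VW (PX [] [399,403]) := VW.of base nl_ok fl_ok .nil
  []
  [([400], (PX [] [399,400,403])), ([401], (PX [] [399,401,403])), ([402], (PX [] [399,402,403]))]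
  (by decide +kernel) ⟨w2_1509_400, w2_1509_401, w2_1509_402, trivial⟩

theorem v2_1510 : VW (PX [399,404] [400,401,402,403]) := VW.of base nl_ok fl_ok .nil
  []
  [([268], (PX [399,404] [268,400,401,402,403]))]
  (by decide +kernel) ⟨b2_2586, trivial⟩

theorem v2_1511 : VW (PX [399,402] [400,401,403,404]) := VW.of base nl_ok fl_ok .nil
  [(405, (.cons 406 407 .nil (.cons 407 406 .nil .nil))), (406, (.cons 405 407 .nil (.cons 407 405 .nil .nil))), (407, (.cons 405 406 .nil (.cons 406 405 .nil .nil)))]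
  [([268], (PX [399,402] [268,400,401,403,404]))]
  (by decide +kernel) ⟨b2_2587, trivial⟩

theorem w2_1512_402 : S (PX [399] [400,401,402,403]) := VW.play 404 (PX [399,404] [400,401,402,403]) (by decide +kernel) v2_1510

theorem w2_1512_404 : S (PX [399] [400,401,403,404]) := VW.play 402 (PX [399,402] [400,401,403,404]) (by decide +kernel) v2_1511

theorem v2_1512 : VW (PX [399] [400,401,403]) := VW.of base nl_ok fl_ok (.cons 402 404 .nil (.cons 404 402 .nil .nil))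
  [(405, (.cons 402 404 .nil (.cons 404 402 (.cons 406 407 .nil (.cons 407 406 .nil .nil)) .nil))), (406, (.cons 402 404 .nil (.cons 404 402 (.cons 405 407 .nil (.cons 407 405 .nil .nil)) .nil))), (407, (.cons 402 404 .nil (.cons 404 402 (.cons 405 406 .nil (.cons 406 405 .nil .nil)) .nil)))]
  [([268], (PX [399] [268,400,401,403])), ([330], (PX [399] [330,400,401,403])), ([402], (PX [399] [400,401,402,403])), ([404], (PX [399] [400,401,403,404]))]
  (by decide +kernel) ⟨b2_2584, b2_2585, w2_1512_402, w2_1512_404, trivial⟩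

theorem v2_1513 : VW (PX [401] [400,402,403]) := VW.of base nl_ok fl_ok .nil
  [(404, (.cons 405 406 .nil (.cons 406 405 .nil .nil))), (405, (.cons 404 406 .nil (.cons 406 404 .nil .nil))), (406, (.cons 404 405 .nil (.cons 405 404 .nil .nil)))]
  [([268], (PX [401] [268,400,402,403]))]
  (by decide +kernel) ⟨b2_2588, trivial⟩

theorem v2_1526 : VW (PX [402] [400,403,404]) := VW.of base nl_ok fl_ok .nil
  [(405, (.cons 406 407 .nil (.cons 407 406 .nil .nil))), (406, (.cons 405 407 .nil (.cons 407 405 .nil .nil))), (407, (.cons 405 406 .nil (.cons 406 405 .nil .nil)))]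
  [([268], (PX [402] [268,400,403,404])), ([401], (PX [402] [400,401,403,404]))]
  (by decide +kernel) ⟨b2_2603, b2_2604, trivial⟩

theorem w2_1527_399 : S (PX [] [399,400,403]) := VW.play 401 (PX [401] [399,400,403]) (by decide +kernel) v2_1498

theorem w2_1527_401 : S (PX [] [400,401,403]) := VW.play 399 (PX [399] [400,401,403]) (by decide +kernel) v2_1512

theorem w2_1527_402 : S (PX [] [400,402,403]) := VW.play 401 (PX [401] [400,402,403]) (by decide +kernel) v2_1513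

theorem w2_1527_404 : S (PX [] [400,403,404]) := VW.play 402 (PX [402] [400,403,404]) (by decide +kernel) v2_1526

theorem v2_1527 : VW (PX [] [400,403]) := VW.of base nl_ok fl_ok .nil
  []
  [([268], (PX [] [268,400,403])), ([399], (PX [] [399,400,403])), ([401], (PX [] [400,401,403])), ([402], (PX [] [400,402,403])), ([404], (PX [] [400,403,404]))]
  (by decide +kernel) ⟨b2_2583, w2_1527_399, w2_1527_401, w2_1527_402, w2_1527_404, trivial⟩

theorem v2_1528 : VW (PX [400,405] [401,402,403,404]) := VW.of base nl_ok fl_ok .nil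
  []
  []
  (by decide +kernel) trivial

theorem v2_1529 : VW (PX [400,404] [401,402,403,405]) := VW.of base nl_ok fl_ok .nil
  []
  []
  (by decide +kernel) trivial

theorem w2_1530_404 : S (PX [400] [401,402,403,404]) := VW.play 405 (PX [400,405] [401,402,403,404]) (by decide +kernel) v2_1528

theorem w2_1530_405 : S (PX [400] [401,402,403,405]) := VW.play 404 (PX [400,404] [401,402,403,405]) (by decide +kernel) v2_1529

theorem v2_1530 : VW (PX [400] [401,402,403]) := VW.of base nl_ok fl_ok (.cons 404 405 .nil (.cons 405 404 .nil .nil))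
  [(406, (.cons 404 405 .nil (.cons 405 404 .nil .nil))), (407, (.cons 404 405 .nil (.cons 405 404 .nil .nil))), (408, (.cons 404 405 .nil (.cons 405 404 .nil .nil)))]
  [([404], (PX [400] [401,402,403,404])), ([405], (PX [400] [401,402,403,405]))]
  (by decide +kernel) ⟨w2_1530_404, w2_1530_405, trivial⟩

theorem v2_1545 : VW (PX [402] [401,403,404]) := VW.of base nl_ok fl_ok .nil
  [(405, (.cons 406 407 .nil (.cons 407 406 .nil .nil))), (406, (.cons 405 407 .nil (.cons 407 405 .nil .nil))), (407, (.cons 405 406 .nil (.cons 406 405 .nil .nil)))]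
  [([400], (PX [402] [400,401,403,404]))]
  (by decide +kernel) ⟨b2_2604, trivial⟩

theorem v2_1546 : VW (PX [402] [401,403,405]) := VW.of base nl_ok fl_ok .nil
  [(404, (.cons 406 407 .nil (.cons 407 406 .nil .nil))), (406, (.cons 404 407 .nil (.cons 407 404 (.cons 408 409 .nil (.cons 409 408 .nil .nil)) .nil))), (407, (.cons 404 406 .nil (.cons 406 404 (.cons 408 409 .nil (.cons 409 408 .nil .nil)) .nil)))]
  [([400], (PX [402] [400,401,403,405]))]
  (by decide +kernel) ⟨b2_2605, trivial⟩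

theorem w2_1552_399 : S (PX [] [399,401,403]) := VW.play 400 (PX [400] [399,401,403]) (by decide +kernel) v2_1499

theorem w2_1552_400 : S (PX [] [400,401,403]) := VW.play 399 (PX [399] [400,401,403]) (by decide +kernel) v2_1512

theorem w2_1552_402 : S (PX [] [401,402,403]) := VW.play 400 (PX [400] [401,402,403]) (by decide +kernel) v2_1530

theorem w2_1552_404 : S (PX [] [401,403,404]) := VW.play 402 (PX [402] [401,403,404]) (by decide +kernel) v2_1545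

theorem w2_1552_405 : S (PX [] [401,403,405]) := VW.play 402 (PX [402] [401,403,405]) (by decide +kernel) v2_1546

theorem v2_1552 : VW (PX [] [401,403]) := VW.of base nl_ok fl_ok .nil
  []
  [([399], (PX [] [399,401,403])), ([400], (PX [] [400,401,403])), ([402], (PX [] [401,402,403])), ([404], (PX [] [401,403,404])), ([405], (PX [] [401,403,405]))]
  (by decide +kernel) ⟨w2_1552_399, w2_1552_400, w2_1552_402, w2_1552_404, w2_1552_405, trivial⟩

theorem v2_1553 : VW (PX [401,406] [402,403,404,405]) := VW.of base nl_ok fl_ok .nil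
  []
  []
  (by decide +kernel) trivial

theorem v2_1554 : VW (PX [401,405] [402,403,404,406]) := VW.of base nl_ok fl_ok .nil
  []
  []
  (by decide +kernel) trivial

theorem w2_1555_405 : S (PX [401] [402,403,404,405]) := VW.play 406 (PX [401,406] [402,403,404,405]) (by decide +kernel) v2_1553

theorem w2_1555_406 : S (PX [401] [402,403,404,406]) := VW.play 405 (PX [401,405] [402,403,404,406]) (by decide +kernel) v2_1554

theorem v2_1555 : VW (PX [401] [402,403,404]) := VW.of base nl_ok fl_ok (.cons 405 406 .nil (.cons 406 405 .nil .nil))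
  [(407, (.cons 405 406 .nil (.cons 406 405 .nil .nil))), (408, (.cons 405 406 .nil (.cons 406 405 .nil .nil))), (409, (.cons 405 406 .nil (.cons 406 405 .nil .nil)))]
  [([405], (PX [401] [402,403,404,405])), ([406], (PX [401] [402,403,404,406]))]
  (by decide +kernel) ⟨w2_1555_405, w2_1555_406, trivial⟩

theorem v2_1556 : VW (PX [401,404] [402,403,405,406]) := VW.of base nl_ok fl_ok .nil
  [(407, (.cons 408 409 .nil (.cons 409 408 .nil .nil))), (408, (.cons 407 409 .nil (.cons 409 407 .nil .nil))), (409, (.cons 407 408 .nil (.cons 408 407 .nil .nil)))]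
  []
  (by decide +kernel) trivial

theorem w2_1557_404 : S (PX [401] [402,403,404,405]) := VW.play 406 (PX [401,406] [402,403,404,405]) (by decide +kernel) v2_1553

theorem w2_1557_406 : S (PX [401] [402,403,405,406]) := VW.play 404 (PX [401,404] [402,403,405,406]) (by decide +kernel) v2_1556

theorem v2_1557 : VW (PX [401] [402,403,405]) := VW.of base nl_ok fl_ok (.cons 404 406 .nil (.cons 406 404 .nil .nil))
  [(407, (.cons 404 406 .nil (.cons 406 404 (.cons 408 409 .nil (.cons 409 408 .nil .nil)) .nil))), (408, (.cons 404 406 .nil (.cons 406 404 (.cons 407 409 .nil (.cons 409 407 .nil .nil)) .nil))), (409, (.cons 404 406 .nil (.cons 406 404 (.cons 407 408 .nil (.cons 408 407 .nil .nil)) .nil)))]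
  [([404], (PX [401] [402,403,404,405])), ([406], (PX [401] [402,403,405,406]))]
  (by decide +kernel) ⟨w2_1557_404, w2_1557_406, trivial⟩

theorem v2_1562 : VW (PX [400,404] [399,402,403,406]) := VW.of base nl_ok fl_ok .nil
  []
  []
  (by decide +kernel) trivial

theorem v2_1564 : VW (PX [399,404] [400,402,403,406]) := VW.of base nl_ok fl_ok .nil
  []
  [([268], (PX [399,404] [268,400,402,403,406]))]
  (by decide +kernel) ⟨b2_2628, trivial⟩

theorem v2_1566 : VW (PX [399,404] [401,402,403,406]) := VW.of base nl_ok fl_ok .nil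
  []
  []
  (by decide +kernel) trivial

theorem w2_1568_399 : S (PX [404] [399,402,403,406]) := VW.play 400 (PX [400,404] [399,402,403,406]) (by decide +kernel) v2_1562

theorem w2_1568_400 : S (PX [404] [400,402,403,406]) := VW.play 399 (PX [399,404] [400,402,403,406]) (by decide +kernel) v2_1564

theorem w2_1568_401 : S (PX [404] [401,402,403,406]) := VW.play 399 (PX [399,404] [401,402,403,406]) (by decide +kernel) v2_1566

theorem v2_1568 : VW (PX [404] [402,403,406]) := VW.of base nl_ok fl_ok .nil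
  []
  [([399], (PX [404] [399,402,403,406])), ([400], (PX [404] [400,402,403,406])), ([401], (PX [404] [401,402,403,406]))]
  (by decide +kernel) ⟨w2_1568_399, w2_1568_400, w2_1568_401, trivial⟩

theorem w2_1576_399 : S (PX [] [399,402,403]) := VW.play 401 (PX [401] [399,402,403]) (by decide +kernel) v2_1508

theorem w2_1576_400 : S (PX [] [400,402,403]) := VW.play 401 (PX [401] [400,402,403]) (by decide +kernel) v2_1513

theorem w2_1576_401 : S (PX [] [401,402,403]) := VW.play 400 (PX [400] [401,402,403]) (by decide +kernel) v2_1530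

theorem w2_1576_404 : S (PX [] [402,403,404]) := VW.play 401 (PX [401] [402,403,404]) (by decide +kernel) v2_1555

theorem w2_1576_405 : S (PX [] [402,403,405]) := VW.play 401 (PX [401] [402,403,405]) (by decide +kernel) v2_1557

theorem w2_1576_406 : S (PX [] [402,403,406]) := VW.play 404 (PX [404] [402,403,406]) (by decide +kernel) v2_1568

theorem v2_1576 : VW (PX [] [402,403]) := VW.of base nl_ok fl_ok .nil
  []
  [([399], (PX [] [399,402,403])), ([400], (PX [] [400,402,403])), ([401], (PX [] [401,402,403])), ([404], (PX [] [402,403,404])), ([405], (PX [] [402,403,405])), ([406], (PX [] [402,403,406]))]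
  (by decide +kernel) ⟨w2_1576_399, w2_1576_400, w2_1576_401, w2_1576_404, w2_1576_405, w2_1576_406, trivial⟩

theorem v2_1577 : VW (PX [402,407] [403,404,405,406]) := VW.of base nl_ok fl_ok .nil
  []
  []
  (by decide +kernel) trivial

theorem v2_1578 : VW (PX [402,406] [403,404,405,407]) := VW.of base nl_ok fl_ok .nil
  []
  []
  (by decide +kernel) trivial

theorem w2_1579_406 : S (PX [402] [403,404,405,406]) := VW.play 407 (PX [402,407] [403,404,405,406]) (by decide +kernel) v2_1577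

theorem w2_1579_407 : S (PX [402] [403,404,405,407]) := VW.play 406 (PX [402,406] [403,404,405,407]) (by decide +kernel) v2_1578

theorem v2_1579 : VW (PX [402] [403,404,405]) := VW.of base nl_ok fl_ok (.cons 406 407 .nil (.cons 407 406 .nil .nil))
  [(408, (.cons 406 407 .nil (.cons 407 406 .nil .nil))), (409, (.cons 406 407 .nil (.cons 407 406 .nil .nil))), (410, (.cons 406 407 .nil (.cons 407 406 .nil .nil)))]
  [([406], (PX [402] [403,404,405,406])), ([407], (PX [402] [403,404,405,407]))]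
  (by decide +kernel) ⟨w2_1579_406, w2_1579_407, trivial⟩

theorem v2_1580 : VW (PX [402,405] [403,404,406,407]) := VW.of base nl_ok fl_ok .nil
  [(408, (.cons 409 410 .nil (.cons 410 409 .nil .nil))), (409, (.cons 408 410 .nil (.cons 410 408 .nil .nil))), (410, (.cons 408 409 .nil (.cons 409 408 .nil .nil)))]
  []
  (by decide +kernel) trivial

theorem w2_1581_405 : S (PX [402] [403,404,405,406]) := VW.play 407 (PX [402,407] [403,404,405,406]) (by decide +kernel) v2_1577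

theorem w2_1581_407 : S (PX [402] [403,404,406,407]) := VW.play 405 (PX [402,405] [403,404,406,407]) (by decide +kernel) v2_1580

theorem v2_1581 : VW (PX [402] [403,404,406]) := VW.of base nl_ok fl_ok (.cons 405 407 .nil (.cons 407 405 .nil .nil))
  [(408, (.cons 405 407 .nil (.cons 407 405 (.cons 409 410 .nil (.cons 410 409 .nil .nil)) .nil))), (409, (.cons 405 407 .nil (.cons 407 405 (.cons 408 410 .nil (.cons 410 408 .nil .nil)) .nil))), (410, (.cons 405 407 .nil (.cons 407 405 (.cons 408 409 .nil (.cons 409 408 .nil .nil)) .nil)))]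
  [([405], (PX [402] [403,404,405,406])), ([407], (PX [402] [403,404,406,407]))]
  (by decide +kernel) ⟨w2_1581_405, w2_1581_407, trivial⟩

theorem w2_1585_400 : S (PX [] [400,403,404]) := VW.play 402 (PX [402] [400,403,404]) (by decide +kernel) v2_1526

theorem w2_1585_401 : S (PX [] [401,403,404]) := VW.play 402 (PX [402] [401,403,404]) (by decide +kernel) v2_1545

theorem w2_1585_402 : S (PX [] [402,403,404]) := VW.play 401 (PX [401] [402,403,404]) (by decide +kernel) v2_1555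

theorem w2_1585_405 : S (PX [] [403,404,405]) := VW.play 402 (PX [402] [403,404,405]) (by decide +kernel) v2_1579

theorem w2_1585_406 : S (PX [] [403,404,406]) := VW.play 402 (PX [402] [403,404,406]) (by decide +kernel) v2_1581

theorem v2_1585 : VW (PX [] [403,404]) := VW.of base nl_ok fl_ok .nil
  [(407, (.cons 405 406 (.cons 401 402 .nil (.cons 402 401 .nil .nil)) (.cons 406 405 .nil .nil)))]
  [([400], (PX [] [400,403,404])), ([401], (PX [] [401,403,404])), ([402], (PX [] [402,403,404])), ([405], (PX [] [403,404,405])), ([406], (PX [] [403,404,406]))]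
  (by decide +kernel) ⟨w2_1585_400, w2_1585_401, w2_1585_402, w2_1585_405, w2_1585_406, trivial⟩

theorem v2_1586 : VW (PX [404] [403,405,406]) := VW.of base nl_ok fl_ok .nil
  [(407, (.cons 408 409 .nil (.cons 409 408 .nil .nil))), (408, (.cons 407 409 .nil (.cons 409 407 .nil .nil))), (409, (.cons 407 408 .nil (.cons 408 407 .nil .nil)))]
  []
  (by decide +kernel) trivial

theorem w2_1587_401 : S (PX [] [401,403,405]) := VW.play 402 (PX [402] [401,403,405]) (by decide +kernel) v2_1546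

theorem w2_1587_402 : S (PX [] [402,403,405]) := VW.play 401 (PX [401] [402,403,405]) (by decide +kernel) v2_1557

theorem w2_1587_404 : S (PX [] [403,404,405]) := VW.play 402 (PX [402] [403,404,405]) (by decide +kernel) v2_1579

theorem w2_1587_406 : S (PX [] [403,405,406]) := VW.play 404 (PX [404] [403,405,406]) (by decide +kernel) v2_1586

theorem v2_1587 : VW (PX [] [403,405]) := VW.of base nl_ok fl_ok .nil
  [(407, (.cons 404 406 (.cons 401 402 .nil (.cons 402 401 .nil .nil)) (.cons 406 404 (.cons 408 409 .nil (.cons 409 408 .nil .nil)) .nil)))]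
  [([401], (PX [] [401,403,405])), ([402], (PX [] [402,403,405])), ([404], (PX [] [403,404,405])), ([406], (PX [] [403,405,406]))]
  (by decide +kernel) ⟨w2_1587_401, w2_1587_402, w2_1587_404, w2_1587_406, trivial⟩

theorem w2_1588_402 : S (PX [] [402,403,406]) := VW.play 404 (PX [404] [402,403,406]) (by decide +kernel) v2_1568

theorem w2_1588_404 : S (PX [] [403,404,406]) := VW.play 402 (PX [402] [403,404,406]) (by decide +kernel) v2_1581

theorem w2_1588_405 : S (PX [] [403,405,406]) := VW.play 404 (PX [404] [403,405,406]) (by decide +kernel) v2_1586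

theorem v2_1588 : VW (PX [] [403,406]) := VW.of base nl_ok fl_ok .nil
  [(407, (.cons 404 405 .nil (.cons 405 404 (.cons 408 409 .nil (.cons 409 408 .nil .nil)) .nil)))]
  [([402], (PX [] [402,403,406])), ([404], (PX [] [403,404,406])), ([405], (PX [] [403,405,406]))]
  (by decide +kernel) ⟨w2_1588_402, w2_1588_404, w2_1588_405, trivial⟩

theorem v2_1589 : VW (PX [] [403,407]) := VW.of base nl_ok fl_ok .nil
  [(404, (.cons 405 406 (.cons 401 402 .nil (.cons 402 401 .nil .nil)) (.cons 406 405 .nil .nil))), (405, (.cons 404 406 (.cons 401 402 .nil (.cons 402 401 .nil .nil)) (.cons 406 404 (.cons 408 409 .nil (.cons 409 408 .nil .nil)) .nil))), (406, (.cons 404 405 .nil (.cons 405 404 (.cons 408 409 .nil (.cons 409 408 .nil .nil)) .nil)))]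
  []
  (by decide +kernel) trivial

theorem v2_1590 : VW (PX [372,496] [341,403,434,465]) := VW.of base nl_ok fl_ok .nil
  []
  []
  (by decide +kernel) trivial

theorem v2_1495 : VW (PX [341,496] [372,403,434,465]) := VW.of base nl_ok fl_ok .nil
  []
  []
  (by decide +kernel) trivial

theorem w2_1591_341 : S (PX [496] [341,403,434,465]) := VW.play 372 (PX [372,496] [341,403,434,465]) (by decide +kernel) v2_1590

theorem w2_1591_372 : S (PX [496] [372,403,434,465]) := VW.play 341 (PX [341,496] [372,403,434,465]) (by decide +kernel) v2_1495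

theorem v2_1591 : VW (PX [496] [403,434,465]) := VW.of base nl_ok fl_ok (.cons 341 372 .nil (.cons 372 341 .nil .nil))
  [(248, (.cons 341 372 .nil (.cons 372 341 .nil .nil))), (279, (.cons 341 372 .nil (.cons 372 341 .nil .nil))), (310, (.cons 341 372 .nil (.cons 372 341 .nil .nil)))]
  [([341], (PX [496] [341,403,434,465])), ([372], (PX [496] [372,403,434,465]))]
  (by decide +kernel) ⟨w2_1591_341, w2_1591_372, trivial⟩

theorem v2_1592 : VW (PX [465] [403,434,496]) := VW.of base nl_ok fl_ok .nil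
  [(310, (.cons 341 372 .nil (.cons 372 341 .nil .nil))), (341, (.cons 310 372 .nil (.cons 372 310 .nil .nil))), (372, (.cons 310 341 .nil (.cons 341 310 .nil .nil)))]
  []
  (by decide +kernel) trivial

theorem w2_1594_341 : S (PX [] [341,403,434]) := VW.play 372 (PX [372] [341,403,434]) (by decide +kernel) v2_1428

theorem w2_1594_372 : S (PX [] [372,403,434]) := VW.play 465 (PX [465] [372,403,434]) (by decide +kernel) v2_1480

theorem w2_1594_465 : S (PX [] [403,434,465]) := VW.play 496 (PX [496] [403,434,465]) (by decide +kernel) v2_1591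

theorem w2_1594_496 : S (PX [] [403,434,496]) := VW.play 465 (PX [465] [403,434,496]) (by decide +kernel) v2_1592

theorem v2_1594 : VW (PX [] [403,434]) := VW.of base nl_ok fl_ok .nil
  [(310, (.cons 341 372 .nil (.cons 372 341 (.cons 465 496 .nil (.cons 496 465 .nil .nil)) .nil))), (527, (.cons 465 496 (.cons 341 372 .nil (.cons 372 341 .nil .nil)) (.cons 496 465 .nil .nil)))]
  [([341], (PX [] [341,403,434])), ([372], (PX [] [372,403,434])), ([465], (PX [] [403,434,465])), ([496], (PX [] [403,434,496]))]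
  (by decide +kernel) ⟨w2_1594_341, w2_1594_372, w2_1594_465, w2_1594_496, trivial⟩

theorem v2_1595 : VW (PX [371,531] [403,435,467,499]) := VW.of base nl_ok fl_ok .nil
  []
  []
  (by decide +kernel) trivial

theorem v2_1596 : VW (PX [371,499] [403,435,467,531]) := VW.of base nl_ok fl_ok .nil
  []
  []
  (by decide +kernel) trivial

theorem w2_1597_499 : S (PX [371] [403,435,467,499]) := VW.play 531 (PX [371,531] [403,435,467,499]) (by decide +kernel) v2_1595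

theorem w2_1597_531 : S (PX [371] [403,435,467,531]) := VW.play 499 (PX [371,499] [403,435,467,531]) (by decide +kernel) v2_1596

theorem v2_1597 : VW (PX [371] [403,435,467]) := VW.of base nl_ok fl_ok (.cons 499 531 .nil (.cons 531 499 .nil .nil))
  [(563, (.cons 499 531 .nil (.cons 531 499 .nil .nil))), (595, (.cons 499 531 .nil (.cons 531 499 .nil .nil))), (627, (.cons 499 531 .nil (.cons 531 499 .nil .nil)))]
  [([499], (PX [371] [403,435,467,499])), ([531], (PX [371] [403,435,467,531]))]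
  (by decide +kernel) ⟨w2_1597_499, w2_1597_531, trivial⟩

theorem v2_1602 : VW (PX [467] [403,435,499]) := VW.of base nl_ok fl_ok .nil
  [(307, (.cons 339 371 .nil (.cons 371 339 .nil .nil))), (339, (.cons 307 371 .nil (.cons 371 307 .nil .nil))), (371, (.cons 307 339 .nil (.cons 339 307 .nil .nil)))]
  []
  (by decide +kernel) trivial

theorem w2_1614_339 : S (PX [] [339,403,435]) := VW.play 371 (PX [371] [339,403,435]) (by decide +kernel) v2_1420

theorem w2_1614_371 : S (PX [] [371,403,435]) := VW.play 339 (PX [339] [371,403,435]) (by decide +kernel) v2_1461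

theorem w2_1614_467 : S (PX [] [403,435,467]) := VW.play 371 (PX [371] [403,435,467]) (by decide +kernel) v2_1597

theorem w2_1614_499 : S (PX [] [403,435,499]) := VW.play 467 (PX [467] [403,435,499]) (by decide +kernel) v2_1602

theorem v2_1614 : VW (PX [] [403,435]) := VW.of base nl_ok fl_ok .nil
  [(307, (.cons 339 371 .nil (.cons 371 339 (.cons 467 499 .nil (.cons 499 467 .nil .nil)) .nil))), (531, (.cons 467 499 (.cons 339 371 .nil (.cons 371 339 .nil .nil)) (.cons 499 467 .nil .nil)))]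
  [([339], (PX [] [339,403,435])), ([371], (PX [] [371,403,435])), ([467], (PX [] [403,435,467])), ([499], (PX [] [403,435,499]))]
  (by decide +kernel) ⟨w2_1614_339, w2_1614_371, w2_1614_467, w2_1614_499, trivial⟩

theorem v2_1615 : VW (PX [370,535] [403,436,469,502]) := VW.of base nl_ok fl_ok .nil
  []
  []
  (by decide +kernel) trivial

theorem v2_1616 : VW (PX [370,502] [403,436,469,535]) := VW.of base nl_ok fl_ok .nil
  []
  []
  (by decide +kernel) trivial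

theorem w2_1617_502 : S (PX [370] [403,436,469,502]) := VW.play 535 (PX [370,535] [403,436,469,502]) (by decide +kernel) v2_1615

theorem w2_1617_535 : S (PX [370] [403,436,469,535]) := VW.play 502 (PX [370,502] [403,436,469,535]) (by decide +kernel) v2_1616

theorem v2_1617 : VW (PX [370] [403,436,469]) := VW.of base nl_ok fl_ok (.cons 502 535 .nil (.cons 535 502 .nil .nil))
  [(568, (.cons 502 535 .nil (.cons 535 502 .nil .nil))), (601, (.cons 502 535 .nil (.cons 535 502 .nil .nil))), (634, (.cons 502 535 .nil (.cons 535 502 .nil .nil)))]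
  [([502], (PX [370] [403,436,469,502])), ([535], (PX [370] [403,436,469,535]))]
  (by decide +kernel) ⟨w2_1617_502, w2_1617_535, trivial⟩

theorem v2_1376 : VW (PX [304,469] [337,403,436,502]) := VW.of base nl_ok fl_ok .nil
  []
  []
  (by decide +kernel) trivial

theorem v2_1455 : VW (PX [304,469] [370,403,436,502]) := VW.of base nl_ok fl_ok .nil
  []
  []
  (by decide +kernel) trivial

theorem w2_1621_337 : S (PX [469] [337,403,436,502]) := VW.play 304 (PX [304,469] [337,403,436,502]) (by decide +kernel) v2_1376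

theorem w2_1621_370 : S (PX [469] [370,403,436,502]) := VW.play 304 (PX [304,469] [370,403,436,502]) (by decide +kernel) v2_1455

theorem v2_1621 : VW (PX [469] [403,436,502]) := VW.of base nl_ok fl_ok .nil
  [(304, (.cons 337 370 .nil (.cons 370 337 .nil .nil)))]
  [([337], (PX [469] [337,403,436,502])), ([370], (PX [469] [370,403,436,502]))]
  (by decide +kernel) ⟨w2_1621_337, w2_1621_370, trivial⟩

theorem w2_1622_337 : S (PX [] [337,403,436]) := VW.play 370 (PX [370] [337,403,436]) (by decide +kernel) v2_1384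

theorem w2_1622_370 : S (PX [] [370,403,436]) := VW.play 337 (PX [337] [370,403,436]) (by decide +kernel) v2_1441

theorem w2_1622_469 : S (PX [] [403,436,469]) := VW.play 370 (PX [370] [403,436,469]) (by decide +kernel) v2_1617

theorem w2_1622_502 : S (PX [] [403,436,502]) := VW.play 469 (PX [469] [403,436,502]) (by decide +kernel) v2_1621

theorem v2_1622 : VW (PX [] [403,436]) := VW.of base nl_ok fl_ok .nil
  [(304, (.cons 337 370 .nil (.cons 370 337 (.cons 469 502 .nil (.cons 502 469 .nil .nil)) .nil))), (535, (.cons 469 502 (.cons 337 370 .nil (.cons 370 337 .nil .nil)) (.cons 502 469 .nil .nil)))]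
  [([337], (PX [] [337,403,436])), ([370], (PX [] [370,403,436])), ([469], (PX [] [403,436,469])), ([502], (PX [] [403,436,502]))]
  (by decide +kernel) ⟨w2_1622_337, w2_1622_370, w2_1622_469, w2_1622_502, trivial⟩

theorem v2_1623 : VW (PX [434,527] [403,465,496,589]) := VW.of base nl_ok fl_ok .nil
  []
  []
  (by decide +kernel) trivial

theorem w2_1625_589 : S (PX [434] [403,465,496,589]) := VW.play 527 (PX [434,527] [403,465,496,589]) (by decide +kernel) v2_1623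

theorem v2_1625 : VW (PX [434] [403,465,496]) := VW.of base nl_ok fl_ok .nil
  [(527, (.cons 558 589 .nil (.cons 589 558 .nil .nil))), (558, (.cons 527 589 .nil (.cons 589 527 .nil .nil)))]
  [([589], (PX [434] [403,465,496,589]))]
  (by decide +kernel) ⟨w2_1625_589, trivial⟩

theorem w2_1629_341 : S (PX [] [341,403,465]) := VW.play 434 (PX [434] [341,403,465]) (by decide +kernel) v2_1437

theorem w2_1629_372 : S (PX [] [372,403,465]) := VW.play 434 (PX [434] [372,403,465]) (by decide +kernel) v2_1481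

theorem w2_1629_434 : S (PX [] [403,434,465]) := VW.play 496 (PX [496] [403,434,465]) (by decide +kernel) v2_1591

theorem w2_1629_496 : S (PX [] [403,465,496]) := VW.play 434 (PX [434] [403,465,496]) (by decide +kernel) v2_1625

theorem v2_1629 : VW (PX [] [403,465]) := VW.of base nl_ok fl_ok .nil
  [(527, (.cons 434 496 (.cons 341 372 .nil (.cons 372 341 .nil .nil)) (.cons 496 434 (.cons 558 589 .nil (.cons 589 558 .nil .nil)) .nil)))]
  [([341], (PX [] [341,403,465])), ([372], (PX [] [372,403,465])), ([434], (PX [] [403,434,465])), ([496], (PX [] [403,465,496]))]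
  (by decide +kernel) ⟨w2_1629_341, w2_1629_372, w2_1629_434, w2_1629_496, trivial⟩

theorem v2_1644 : VW (PX [435] [403,467,499]) := VW.of base nl_ok fl_ok .nil
  [(531, (.cons 563 595 .nil (.cons 595 563 .nil .nil))), (563, (.cons 531 595 .nil (.cons 595 531 .nil .nil))), (595, (.cons 531 563 .nil (.cons 563 531 .nil .nil)))]
  []
  (by decide +kernel) trivial

theorem w2_1647_371 : S (PX [] [371,403,467]) := VW.play 435 (PX [435] [371,403,467]) (by decide +kernel) v2_1466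

theorem w2_1647_435 : S (PX [] [403,435,467]) := VW.play 371 (PX [371] [403,435,467]) (by decide +kernel) v2_1597

theorem w2_1647_499 : S (PX [] [403,467,499]) := VW.play 435 (PX [435] [403,467,499]) (by decide +kernel) v2_1644

theorem v2_1647 : VW (PX [] [403,467]) := VW.of base nl_ok fl_ok .nil
  [(339, (.cons 371 435 (.cons 275 307 .nil (.cons 307 275 .nil .nil)) (.cons 435 371 (.cons 499 531 .nil (.cons 531 499 .nil .nil)) .nil))), (531, (.cons 435 499 (.cons 339 371 .nil (.cons 371 339 .nil .nil)) (.cons 499 435 (.cons 563 595 .nil (.cons 595 563 .nil .nil)) .nil)))]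
  [([371], (PX [] [371,403,467])), ([435], (PX [] [403,435,467])), ([499], (PX [] [403,467,499]))]
  (by decide +kernel) ⟨w2_1647_371, w2_1647_435, w2_1647_499, trivial⟩

theorem v2_1648 : VW (PX [436] [403,469,502]) := VW.of base nl_ok fl_ok .nil
  [(535, (.cons 568 601 .nil (.cons 601 568 .nil .nil))), (568, (.cons 535 601 .nil (.cons 601 535 .nil .nil))), (601, (.cons 535 568 .nil (.cons 568 535 .nil .nil)))]
  []
  (by decide +kernel) trivial

theorem w2_1649_337 : S (PX [] [337,403,469]) := VW.play 370 (PX [370] [337,403,469]) (by decide +kernel) v2_1385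

theorem w2_1649_370 : S (PX [] [370,403,469]) := VW.play 436 (PX [436] [370,403,469]) (by decide +kernel) v2_1445

theorem w2_1649_436 : S (PX [] [403,436,469]) := VW.play 370 (PX [370] [403,436,469]) (by decide +kernel) v2_1617

theorem w2_1649_502 : S (PX [] [403,469,502]) := VW.play 436 (PX [436] [403,469,502]) (by decide +kernel) v2_1648

theorem v2_1649 : VW (PX [] [403,469]) := VW.of base nl_ok fl_ok .nil
  [(535, (.cons 436 502 (.cons 337 370 .nil (.cons 370 337 .nil .nil)) (.cons 502 436 (.cons 568 601 .nil (.cons 601 568 .nil .nil)) .nil)))]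
  [([337], (PX [] [337,403,469])), ([370], (PX [] [370,403,469])), ([436], (PX [] [403,436,469])), ([502], (PX [] [403,469,502]))]
  (by decide +kernel) ⟨w2_1649_337, w2_1649_370, w2_1649_436, w2_1649_502, trivial⟩

theorem w2_1650_434 : S (PX [] [403,434,496]) := VW.play 465 (PX [465] [403,434,496]) (by decide +kernel) v2_1592

theorem w2_1650_465 : S (PX [] [403,465,496]) := VW.play 434 (PX [434] [403,465,496]) (by decide +kernel) v2_1625

theorem v2_1650 : VW (PX [] [403,496]) := VW.of base nl_ok fl_ok .nil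
  [(372, (.cons 434 465 (.cons 310 341 .nil (.cons 341 310 .nil .nil)) (.cons 465 434 .nil .nil))), (527, (.cons 434 465 .nil (.cons 465 434 (.cons 558 589 .nil (.cons 589 558 .nil .nil)) .nil)))]
  [([434], (PX [] [403,434,496])), ([465], (PX [] [403,465,496]))]
  (by decide +kernel) ⟨w2_1650_434, w2_1650_465, trivial⟩

theorem w2_1651_435 : S (PX [] [403,435,499]) := VW.play 467 (PX [467] [403,435,499]) (by decide +kernel) v2_1602

theorem w2_1651_467 : S (PX [] [403,467,499]) := VW.play 435 (PX [435] [403,467,499]) (by decide +kernel) v2_1644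

theorem v2_1651 : VW (PX [] [403,499]) := VW.of base nl_ok fl_ok .nil
  [(371, (.cons 435 467 (.cons 307 339 .nil (.cons 339 307 .nil .nil)) (.cons 467 435 .nil .nil))), (531, (.cons 435 467 .nil (.cons 467 435 (.cons 563 595 .nil (.cons 595 563 .nil .nil)) .nil)))]
  [([435], (PX [] [403,435,499])), ([467], (PX [] [403,467,499]))]
  (by decide +kernel) ⟨w2_1651_435, w2_1651_467, trivial⟩

theorem w2_1652_370 : S (PX [] [370,403,502]) := VW.play 436 (PX [436] [370,403,502]) (by decide +kernel) v2_1450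

theorem w2_1652_436 : S (PX [] [403,436,502]) := VW.play 469 (PX [469] [403,436,502]) (by decide +kernel) v2_1621

theorem w2_1652_469 : S (PX [] [403,469,502]) := VW.play 436 (PX [436] [403,469,502]) (by decide +kernel) v2_1648

theorem v2_1652 : VW (PX [] [403,502]) := VW.of base nl_ok fl_ok .nil
  [(535, (.cons 436 469 .nil (.cons 469 436 (.cons 568 601 .nil (.cons 601 568 .nil .nil)) .nil)))]
  [([370], (PX [] [370,403,502])), ([436], (PX [] [403,436,502])), ([469], (PX [] [403,469,502]))]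
  (by decide +kernel) ⟨w2_1652_370, w2_1652_436, w2_1652_469, trivial⟩

theorem v2_1653 : VW (PX [] [403,527]) := VW.of base nl_ok fl_ok .nil
  [(434, (.cons 465 496 (.cons 341 372 .nil (.cons 372 341 .nil .nil)) (.cons 496 465 .nil .nil))), (465, (.cons 434 496 (.cons 341 372 .nil (.cons 372 341 .nil .nil)) (.cons 496 434 (.cons 558 589 .nil (.cons 589 558 .nil .nil)) .nil))), (496, (.cons 434 465 .nil (.cons 465 434 (.cons 558 589 .nil (.cons 589 558 .nil .nil)) .nil)))]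
  []
  (by decide +kernel) trivial

theorem v2_1654 : VW (PX [] [403,531]) := VW.of base nl_ok fl_ok .nil
  [(435, (.cons 467 499 (.cons 339 371 .nil (.cons 371 339 .nil .nil)) (.cons 499 467 .nil .nil))), (467, (.cons 435 499 (.cons 339 371 .nil (.cons 371 339 .nil .nil)) (.cons 499 435 (.cons 563 595 .nil (.cons 595 563 .nil .nil)) .nil))), (499, (.cons 435 467 .nil (.cons 467 435 (.cons 563 595 .nil (.cons 595 563 .nil .nil)) .nil)))]
  []
  (by decide +kernel) trivial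

theorem v2_1655 : VW (PX [] [403,535]) := VW.of base nl_ok fl_ok .nil
  [(436, (.cons 469 502 (.cons 337 370 .nil (.cons 370 337 .nil .nil)) (.cons 502 469 .nil .nil))), (469, (.cons 436 502 (.cons 337 370 .nil (.cons 370 337 .nil .nil)) (.cons 502 436 (.cons 568 601 .nil (.cons 601 568 .nil .nil)) .nil))), (502, (.cons 436 469 .nil (.cons 469 436 (.cons 568 601 .nil (.cons 601 568 .nil .nil)) .nil)))]
  []
  (by decide +kernel) trivial

theorem r271 : S (Nat.lor X2 (bits [403, 271])) := VW.play 394 (PX [] [271,403]) (by decide +kernel) v2_1322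

theorem r275 : S (Nat.lor X2 (bits [403, 275])) := VW.play 394 (PX [] [275,403]) (by decide +kernel) v2_1323

theorem r279 : S (Nat.lor X2 (bits [403, 279])) := VW.play 394 (PX [] [279,403]) (by decide +kernel) v2_1324

theorem r304 : S (Nat.lor X2 (bits [403, 304])) := VW.play 394 (PX [] [304,403]) (by decide +kernel) v2_1329

theorem r307 : S (Nat.lor X2 (bits [403, 307])) := VW.play 394 (PX [] [307,403]) (by decide +kernel) v2_1351

theorem r310 : S (Nat.lor X2 (bits [403, 310])) := VW.play 394 (PX [] [310,403]) (by decide +kernel) v2_1366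

theorem r337 : S (Nat.lor X2 (bits [403, 337])) := VW.play 394 (PX [] [337,403]) (by decide +kernel) v2_1400

theorem r339 : S (Nat.lor X2 (bits [403, 339])) := VW.play 394 (PX [] [339,403]) (by decide +kernel) v2_1423

theorem r341 : S (Nat.lor X2 (bits [403, 341])) := VW.play 394 (PX [] [341,403]) (by decide +kernel) v2_1438

theorem r370 : S (Nat.lor X2 (bits [403, 370])) := VW.play 394 (PX [] [370,403]) (by decide +kernel) v2_1458

theorem r371 : S (Nat.lor X2 (bits [403, 371])) := VW.play 394 (PX [] [371,403]) (by decide +kernel) v2_1478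

theorem r372 : S (Nat.lor X2 (bits [403, 372])) := VW.play 394 (PX [] [372,403]) (by decide +kernel) v2_1497

theorem r399 : S (Nat.lor X2 (bits [403, 399])) := VW.play 394 (PX [] [399,403]) (by decide +kernel) v2_1509

theorem r400 : S (Nat.lor X2 (bits [403, 400])) := VW.play 394 (PX [] [400,403]) (by decide +kernel) v2_1527

theorem r401 : S (Nat.lor X2 (bits [403, 401])) := VW.play 394 (PX [] [401,403]) (by decide +kernel) v2_1552

theorem r402 : S (Nat.lor X2 (bits [403, 402])) := VW.play 394 (PX [] [402,403]) (by decide +kernel) v2_1576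

theorem r404 : S (Nat.lor X2 (bits [403, 404])) := VW.play 394 (PX [] [403,404]) (by decide +kernel) v2_1585

theorem r405 : S (Nat.lor X2 (bits [403, 405])) := VW.play 394 (PX [] [403,405]) (by decide +kernel) v2_1587

theorem r406 : S (Nat.lor X2 (bits [403, 406])) := VW.play 394 (PX [] [403,406]) (by decide +kernel) v2_1588

theorem r407 : S (Nat.lor X2 (bits [403, 407])) := VW.play 394 (PX [] [403,407]) (by decide +kernel) v2_1589

theorem r434 : S (Nat.lor X2 (bits [403, 434])) := VW.play 394 (PX [] [403,434]) (by decide +kernel) v2_1594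

theorem r435 : S (Nat.lor X2 (bits [403, 435])) := VW.play 394 (PX [] [403,435]) (by decide +kernel) v2_1614

theorem r436 : S (Nat.lor X2 (bits [403, 436])) := VW.play 394 (PX [] [403,436]) (by decide +kernel) v2_1622

theorem r465 : S (Nat.lor X2 (bits [403, 465])) := VW.play 394 (PX [] [403,465]) (by decide +kernel) v2_1629

theorem r467 : S (Nat.lor X2 (bits [403, 467])) := VW.play 394 (PX [] [403,467]) (by decide +kernel) v2_1647

theorem r469 : S (Nat.lor X2 (bits [403, 469])) := VW.play 394 (PX [] [403,469]) (by decide +kernel) v2_1649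

theorem r496 : S (Nat.lor X2 (bits [403, 496])) := VW.play 394 (PX [] [403,496]) (by decide +kernel) v2_1650

theorem r499 : S (Nat.lor X2 (bits [403, 499])) := VW.play 394 (PX [] [403,499]) (by decide +kernel) v2_1651

theorem r502 : S (Nat.lor X2 (bits [403, 502])) := VW.play 394 (PX [] [403,502]) (by decide +kernel) v2_1652

theorem r527 : S (Nat.lor X2 (bits [403, 527])) := VW.play 394 (PX [] [403,527]) (by decide +kernel) v2_1653

theorem r531 : S (Nat.lor X2 (bits [403, 531])) := VW.play 394 (PX [] [403,531]) (by decide +kernel) v2_1654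

theorem r535 : S (Nat.lor X2 (bits [403, 535])) := VW.play 394 (PX [] [403,535]) (by decide +kernel) v2_1655

theorem r364 : S (Nat.lor X2 (bits [403, 364])) := S.of (.q 394 (.a 1 [] (.q 395 (.a 1 [] (.d 393 392 392 393 397)
 (.a 1 [392] (.d 397 393 393 394 398)
 (.a 0 [393,397] (.q 331 (.a 1 [] (.d 299 1291 267 1323 427)
 (.a 1 [267] (.d 427 1323 299 1355 459)
 (.a 0 [299,427] (.q 330 (.a 1 [] (.d 297 2312 264 2345 429)
 (.a 1 [264] (.d 429 2345 297 2378 462)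
 (.a 0 [297,429] (.q 332 (.a 1 [] (.d 329 328 328 329 333)
 (.a 1 [328] (.d 333 329 329 330 334)
 (.a 1 [329] (.d 301 3342 270 3373 425)
 .e))))
 .e))))
 .e))))
 .e))))
 (.a 0 [395] (.q 425 (.a 1 [] (.d 332 3373 301 3404 456)
 (.a 0 [332] (.q 330 (.a 1 [] (.d 297 2312 264 2345 429)
 (.a 1 [297] (.r 429 2378 462 (.q 426 (.a 1 [] (.d 362 1322 298 1354 458)
 (.a 1 [362] (.q 423 (.a 1 [] (.d 427 423 424 425 428)
 (.a 1 [428] (.d 424 422 422 423 427)
 (.a 0 [424,427] (.q 392 (.a 1 [] (.d 361 3371 299 3402 454)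
 (.a 0 [299,361,454] (.q 522 (.a 1 [] (.r 458 1418 490 (.d 491 2407 359 2440 524))
 (.a 1 [359] (.r 456 3435 487 (.d 489 2438 390 2471 555))
 .e)))
 .e)))
 .e))))
 (.a 1 [458] (.q 423 (.a 1 [] (.d 427 423 424 425 428)
 (.a 1 [428] (.d 424 422 422 423 427)
 (.a 0 [424,427] (.q 361 (.a 1 [] (.d 392 3371 299 3402 454)
 (.a 0 [299,392,454] (.q 393 (.a 1 [] (.d 457 1353 329 1385 489)
 (.a 1 [329] (.r 362 1322 298 (.r 360 359 359 (.d 459 2375 327 2408 492)))
 .e)))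
 .e)))
 .e))))
 (.a 1 [298] (.r 427 425 428 (.r 458 1354 362 (.d 489 3437 365 3468 520)))
 .e))))))
 (.a 1 [429] (.q 426 (.a 1 [] (.d 362 1322 298 1354 458)
 (.a 0 [298,362,458] (.q 423 (.a 1 [] (.d 424 422 422 423 427)
 (.a 0 [422,424,427] (.q 361 (.a 1 [] (.d 392 3371 299 3402 454)
 (.a 0 [299,392,454] (.q 489 (.a 1 [] (.r 456 3435 487 (.d 522 2438 390 2471 555))
 (.a 1 [390] (.r 393 1385 457 (.d 297 2312 264 1321 329))
 (.a 1 [456] (.r 297 2312 264 (.d 393 1321 329 1385 457))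
 .e))))
 .e)))
 .e)))
 .e)))
 (.a 1 [264] (.d 429 2345 297 2378 462)
 .e)))))
 (.a 0 [456] (.q 330 (.a 1 [] (.d 297 2312 264 2345 429)
 (.a 0 [297] (.r 332 3373 301 (.q 426 (.a 1 [] (.d 362 1322 298 1354 458)
 (.a 0 [362] (.q 329 (.a 1 [] (.d 331 328 328 329 333)
 (.a 1 [331] (.r 429 2378 462 (.r 427 425 428 (.q 361 (.a 1 [] (.d 328 2343 295 2376 460)
 (.a 1 [461] (.q 494 (.a 1 [] (.d 328 2343 295 2376 460)
 (.a 1 [460] (.r 423 423 424 (.d 392 3371 299 3402 454))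
 .e)))
 (.a 1 [494] (.q 461 (.a 1 [] (.d 328 2343 295 2376 460)
 (.a 1 [328] (.r 493 2409 460 (.d 525 1421 397 1453 557))
 (.a 1 [460] (.r 423 423 424 (.d 392 3371 299 3402 454))
 .e))))
 (.a 1 [328] (.r 423 423 424 (.d 392 3371 299 3402 454))
 .e)))))))
 (.a 0 [328] (.r 333 329 331 (.r 429 2378 462 (.q 458 (.a 1 [] (.r 427 425 428 (.d 489 3437 365 3468 520))
 (.a 1 [428] (.r 522 1418 490 (.q 491 (.a 1 [] (.d 392 2407 359 2440 524)
 (.a 1 [461] (.q 494 (.a 1 [] (.d 392 2407 359 2440 524)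
 (.a 1 [392] (.d 460 3470 398 3501 553)
 .e)))
 (.a 1 [392] (.d 460 3470 398 3501 553)
 (.a 1 [494] (.q 461 (.a 1 [] (.d 460 3470 398 3501 553)
 (.a 1 [398] (.d 524 2440 392 2473 557)
 .e)))
 .e))))))
 (.a 1 [461] (.r 428 425 427 (.q 491 (.a 1 [] (.d 392 2407 359 2440 524)
 (.a 1 [359] (.d 524 2440 392 2473 557)
 (.a 1 [392] (.r 522 1418 490 (.d 460 3470 398 3501 553))
 .e)))))
 (.a 1 [520] (.r 427 425 428 (.d 365 3406 334 3437 489))
 .e)))))))
 (.a 1 [333] (.r 328 328 331 (.r 429 2378 462 (.r 427 425 428 (.d 361 2343 295 2376 460))))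
 .e)))))
 (.a 1 [458] (.q 427 (.a 1 [] (.d 429 425 428 2378 462)
 (.a 1 [429] (.d 424 423 423 424 428)
 (.a 0 [428] (.q 361 (.a 1 [] (.d 328 2343 295 2376 460)
 (.a 1 [295] (.d 460 2376 328 2409 493)
 (.a 1 [328] (.r 423 423 424 (.d 392 3371 299 3402 454))
 .e))))
 .e))))
 (.a 1 [298] (.r 458 1354 362 (.r 429 2378 462 (.r 427 425 428 (.d 489 3437 365 3468 520))))
 .e))))))
 (.a 1 [429] (.q 426 (.a 1 [] (.d 362 1322 298 1354 458)
 (.a 0 [298,362,458] (.q 423 (.a 1 [] (.d 424 422 422 423 427)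
 (.a 0 [422,424,427] (.q 361 (.a 1 [] (.d 392 3371 299 3402 454)
 (.a 1 [299] (.r 297 2312 264 (.r 329 1321 393 (.r 332 3373 301 (.d 331 328 328 329 333))))
 .e)))
 .e)))
 .e)))
 (.a 1 [264] (.d 429 2345 297 2378 462)
 .e)))))
 (.a 1 [301] (.d 456 3404 332 3435 487)
 .e)))))
 (.a 0 [330] (.q 395 (.a 1 [] (.d 393 392 392 393 397)
 (.a 0 [397] (.q 331 (.a 1 [] (.d 299 1291 267 1323 427)
 (.a 1 [427] (.r 393 392 392 (.q 362 (.a 1 [] (.d 300 3341 269 3372 424)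
 (.a 1 [424] (.q 428 (.a 1 [] (.d 329 2344 296 2377 461)
 (.a 1 [296] (.d 461 2377 329 2410 494)
 (.a 0 [329,461] (.q 301 (.a 1 [] (.d 332 3342 270 3373 425)
 (.a 0 [270,332,425] (.r 299 1291 267 (.r 300 3341 269 (.d 302 298 298 299 303)))
 .e)))
 .e))))
 (.a 1 [300] (.q 329 (.a 1 [] (.d 296 2311 263 2344 428)
 (.a 1 [263] (.d 428 2344 296 2377 461)
 (.a 0 [296,428] (.q 425 (.a 1 [] (.d 361 1321 297 1353 457)
 (.a 1 [297] (.d 456 3404 332 3435 487)
 .e)))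
 .e))))
 .e)))))
 (.a 1 [299] (.r 427 1355 459 (.q 361 (.a 1 [] (.d 328 2343 295 2376 460)
 (.a 1 [295] (.d 460 2376 328 2409 493)
 (.a 0 [328,460] (.q 425 (.a 1 [] (.d 332 3373 301 3404 456)
 (.a 1 [301] (.d 456 3404 332 3435 487)
 (.a 1 [332] (.r 393 392 392 (.d 457 1353 329 1385 489))
 .e))))
 .e)))))
 .e))))
 (.a 1 [393] (.q 427 (.a 1 [] (.d 331 1323 299 1355 459)
 (.a 1 [299] (.d 459 1355 331 1387 491)
 (.a 0 [331,459] (.q 332 (.a 1 [] (.d 301 3342 270 3373 425)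
 (.a 1 [270] (.d 425 3373 301 3404 456)
 (.a 0 [301,425] (.q 365 (.a 1 [] (.d 334 3375 303 3406 458)
 (.a 1 [303] (.d 458 3406 334 3437 489)
 (.a 1 [334] (.r 398 394 397 (.d 431 2347 299 2380 464))
 .e))))
 .e))))
 .e))))
 (.a 1 [392] (.d 397 393 393 394 398)
 .e)))))
 (.a 0 [332] (.q 395 (.a 1 [] (.d 393 392 392 393 397)
 (.a 1 [393] (.q 427 (.a 1 [] (.d 331 1323 299 1355 459)
 (.a 1 [331] (.q 330 (.a 1 [] (.d 297 2312 264 2345 429)
 (.a 1 [264] (.d 429 2345 297 2378 462)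
 (.a 0 [297,429] (.q 362 (.a 1 [] (.d 298 1290 266 1322 426)
 (.a 1 [266] (.d 426 1322 298 1354 458)
 (.a 1 [298] (.r 458 1354 426 (.d 489 3437 365 3468 520))
 (.a 0 [426] (.q 361 (.a 1 [] (.d 328 2343 295 2376 460)
 (.a 1 [295] (.d 460 2376 328 2409 493)
 (.a 0 [328,460] (.q 458 (.a 1 [] (.d 365 3406 334 3437 489)
 (.a 1 [334] (.d 489 3437 365 3468 520)
 (.a 0 [365,489] (.q 392 (.a 1 [] (.d 299 3340 268 3371 423)
 (.a 1 [268] (.d 423 3371 299 3402 454)
 (.a 1 [299] (.r 359 359 360 (.d 425 2374 326 2407 491))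
 .e))))
 .e))))
 .e))))
 .e)))))
 .e))))
 (.a 1 [459] (.q 458 (.a 1 [] (.d 365 3406 334 3437 489)
 (.a 1 [334] (.d 489 3437 365 3468 520)
 (.a 0 [365,489] (.q 426 (.a 1 [] (.d 362 1354 330 1386 490)
 (.a 1 [330] (.d 490 1386 362 1418 522)
 (.a 1 [490] (.r 330 1354 362 (.d 429 2345 297 2378 462))
 (.a 0 [362] (.q 429 (.a 1 [] (.d 428 425 425 426 430)
 (.a 1 [425] (.d 462 2378 330 2411 495)
 .e)))
 .e)))))
 .e))))
 (.a 1 [299] (.d 459 1355 331 1387 491)
 .e)))))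
 (.a 1 [397] (.q 331 (.a 1 [] (.d 299 1291 267 1323 427)
 (.a 1 [267] (.d 427 1323 299 1355 459)
 (.a 0 [299,427] (.q 330 (.a 1 [] (.d 297 2312 264 2345 429)
 (.a 1 [264] (.d 429 2345 297 2378 462)
 (.a 0 [297,429] (.q 362 (.a 1 [] (.d 298 1290 266 1322 426)
 (.a 1 [266] (.d 426 1322 298 1354 458)
 (.a 1 [298] (.r 393 392 392 (.d 424 3372 300 3403 455))
 .e))))
 .e))))
 .e))))
 (.a 1 [392] (.d 397 393 393 394 398)
 .e)))))
 (.a 1 [425] (.q 395 (.a 1 [] (.d 393 392 392 393 397)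
 (.a 1 [393] (.q 427 (.a 1 [] (.d 331 1323 299 1355 459)
 (.a 1 [299] (.d 459 1355 331 1387 491)
 (.a 0 [331,459] (.q 361 (.a 1 [] (.d 328 2343 295 2376 460)
 (.a 1 [295] (.d 460 2376 328 2409 493)
 (.a 0 [328,460] (.q 330 (.a 1 [] (.d 297 2312 264 2345 429)
 (.a 1 [264] (.d 429 2345 297 2378 462)
 (.a 0 [297,429] (.q 299 (.a 1 [] (.d 268 3309 237 3340 392)
 (.a 1 [237] (.d 392 3340 268 3371 423)
 (.a 0 [268,392] (.q 365 (.a 1 [] (.d 334 3375 303 3406 458)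
 (.a 1 [303] (.d 458 3406 334 3437 489)
 (.a 1 [334] (.r 398 394 397 (.d 332 2314 266 2347 431))
 .e))))
 .e))))
 .e))))
 .e))))
 .e))))
 (.a 1 [397] (.q 330 (.a 1 [] (.d 297 2312 264 2345 429)
 (.a 1 [264] (.d 429 2345 297 2378 462)
 (.a 0 [297,429] (.q 299 (.a 1 [] (.d 331 1291 267 1323 427)
 (.a 1 [267] (.r 427 1323 331 (.r 392 392 393 (.d 361 3340 268 3371 423)))
 (.a 1 [331] (.r 392 392 393 (.d 361 3340 268 3371 423))
 .e))))
 .e))))
 (.a 1 [392] (.d 397 393 393 394 398)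
 .e)))))
 (.a 0 [429] (.q 425 (.a 1 [] (.d 332 3373 301 3404 456)
 (.a 1 [456] (.q 395 (.a 1 [] (.d 393 392 392 393 397)
 (.a 1 [393] (.q 427 (.a 1 [] (.d 331 1323 299 1355 459)
 (.a 1 [299] (.d 459 1355 331 1387 491)
 (.a 0 [331,459] (.q 458 (.a 1 [] (.d 365 3406 334 3437 489)
 (.a 1 [334] (.d 489 3437 365 3468 520)
 (.a 0 [365,489] (.q 426 (.a 1 [] (.d 424 423 423 424 428)
 (.a 1 [423] (.d 490 1386 362 1418 522)
 .e)))
 .e))))
 .e))))
 (.a 1 [397] (.r 392 392 393 (.q 427 (.a 1 [] (.d 331 1323 299 1355 459)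
 (.a 1 [299] (.d 459 1355 331 1387 491)
 (.a 1 [331] (.r 491 1387 459 (.d 458 2407 359 2440 524))
 (.a 0 [459] (.q 458 (.a 1 [] (.d 359 2374 326 2407 491)
 (.a 1 [326] (.d 491 2407 359 2440 524)
 (.a 1 [359] (.d 365 3406 334 3437 489)
 .e))))
 .e))))))
 .e))))
 (.a 1 [332] (.q 395 (.a 1 [] (.d 393 392 392 393 397)
 (.a 1 [392] (.d 397 393 393 394 398)
 (.a 0 [393] (.q 427 (.a 1 [] (.d 331 1323 299 1355 459)
 (.a 1 [299] (.d 459 1355 331 1387 491)
 (.a 0 [331,459] (.q 458 (.a 1 [] (.d 365 3406 334 3437 489)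
 (.a 1 [334] (.d 489 3437 365 3468 520)
 (.a 0 [365,489] (.q 426 (.a 1 [] (.d 424 423 423 424 428)
 (.a 1 [423] (.d 490 1386 362 1418 522)
 .e)))
 .e))))
 .e))))
 (.a 0 [397] (.r 392 392 393 (.q 427 (.a 1 [] (.d 331 1323 299 1355 459)
 (.a 1 [299] (.d 459 1355 331 1387 491)
 (.a 1 [331] (.r 491 1387 459 (.d 458 2407 359 2440 524))
 (.a 0 [459] (.q 458 (.a 1 [] (.d 359 2374 326 2407 491)
 (.a 1 [326] (.d 491 2407 359 2440 524)
 (.a 1 [359] (.d 365 3406 334 3437 489)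
 .e))))
 .e))))))
 .e)))))
 (.a 1 [301] (.d 456 3404 332 3435 487)
 .e)))))
 (.a 1 [397] (.q 330 (.a 1 [] (.d 297 2312 264 2345 429)
 (.a 1 [429] (.q 298 (.a 1 [] (.d 362 1290 266 1322 426)
 (.a 0 [266,362,426] (.r 297 2312 264 (.q 299 (.a 1 [] (.d 296 295 295 296 300)
 (.a 1 [295] (.d 300 296 296 297 301)
 (.a 1 [296] (.r 301 297 300 (.d 332 3342 270 3373 425))
 (.a 0 [300] (.q 361 (.a 1 [] (.d 268 3309 237 3340 392)
 (.a 1 [237] (.d 392 3340 268 3371 423)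
 (.a 1 [268] (.r 295 295 296 (.d 328 2310 262 2343 427))
 .e))))
 .e))))))
 .e)))
 (.a 1 [297] (.q 425 (.a 1 [] (.d 332 3373 301 3404 456)
 (.a 1 [301] (.d 456 3404 332 3435 487)
 (.a 0 [332,456] (.q 426 (.a 1 [] (.d 362 1322 298 1354 458)
 (.a 1 [298] (.r 458 1354 362 (.r 429 2378 462 (.r 427 425 428 (.d 489 3437 365 3468 520))))
 (.a 0 [362,458] (.q 427 (.a 1 [] (.d 429 425 428 2378 462)
 (.a 1 [429] (.d 424 423 423 424 428)
 (.a 0 [428] (.q 361 (.a 1 [] (.d 328 2343 295 2376 460)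
 (.a 1 [295] (.d 460 2376 328 2409 493)
 (.a 1 [328] (.r 423 423 424 (.d 392 3371 299 3402 454))
 .e))))
 .e))))
 .e))))
 .e))))
 .e))))
 (.a 0 [393] (.q 330 (.a 1 [] (.d 297 2312 264 2345 429)
 (.a 0 [429] (.q 332 (.a 1 [] (.d 301 3342 270 3373 425)
 (.a 0 [425] (.q 331 (.a 1 [] (.d 329 328 328 329 333)
 (.a 0 [329] (.r 334 330 333 (.r 301 3342 270 (.r 297 2312 264 (.q 395 (.a 1 [] (.d 299 1291 267 1323 427)
 (.a 1 [361] (.q 457 (.a 1 [] (.d 427 1323 299 1355 459)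
 (.a 1 [427] (.r 299 1291 267 (.r 298 297 300 (.d 362 1290 266 1322 426)))
 (.a 1 [299] (.r 427 1355 459 (.d 365 3375 303 3406 458))
 .e))))
 (.a 1 [457] (.q 361 (.a 1 [] (.d 427 1323 299 1355 459)
 (.a 1 [489] (.q 521 (.a 1 [] (.d 427 1323 299 1355 459)
 (.a 1 [427] (.r 299 1291 267 (.d 392 3340 268 3371 423))
 (.a 1 [299] (.r 427 1355 459 (.d 365 3375 303 3406 458))
 .e))))
 (.a 1 [521] (.q 489 (.a 1 [] (.d 427 1323 299 1355 459)
 (.a 1 [427] (.r 299 1291 267 (.d 392 3340 268 3371 423))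
 (.a 1 [299] (.r 427 1355 459 (.d 458 3406 365 3468 520))
 .e))))
 (.a 1 [427] (.r 299 1291 267 (.d 392 3340 268 3371 423))
 (.a 1 [299] (.r 427 1355 459 (.d 365 3375 303 3406 458))
 .e))))))
 (.a 1 [427] (.r 299 1291 267 (.r 298 297 300 (.d 362 1290 266 1322 426)))
 (.a 1 [299] (.r 427 1355 459 (.d 365 3375 303 3406 458))
 .e)))))))))
 (.a 1 [333] (.q 427 (.a 1 [] (.d 395 1323 299 1355 459)
 (.a 1 [299] (.r 328 328 329 (.d 361 2343 295 2376 460))
 .e)))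
 (.a 1 [328] (.d 333 329 329 330 334)
 .e)))))
 (.a 0 [301] (.q 331 (.a 1 [] (.d 329 328 328 329 333)
 (.a 1 [333] (.q 395 (.a 1 [] (.d 299 1291 267 1323 427)
 (.a 1 [397] (.q 365 (.a 1 [] (.d 299 1291 267 1323 427)
 (.a 1 [299] (.r 427 1355 459 (.d 458 3406 334 3437 489))
 (.a 1 [427] (.r 299 1291 267 (.d 398 2314 266 2347 431))
 .e))))
 (.a 1 [299] (.q 458 (.a 1 [] (.r 427 1355 459 (.d 489 3437 365 3468 520))
 (.a 1 [365] (.r 397 394 398 (.r 362 1354 426 (.r 329 328 328 (.d 428 2344 296 2377 461))))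
 (.a 0 [397] (.q 365 (.a 1 [] (.d 427 3406 334 1355 459)
 (.a 1 [334] (.d 427 1355 459 3437 489)
 (.a 1 [427] (.r 362 1354 426 (.r 329 328 328 (.d 428 2344 296 2377 461)))
 .e))))
 .e))))
 (.a 1 [427] (.q 266 (.a 1 [] (.r 299 1291 267 (.d 365 2281 233 2314 398))
 (.a 1 [233] (.r 362 1290 298 (.r 329 328 328 (.d 428 2344 296 2377 461)))
 (.a 1 [365] (.r 397 394 398 (.r 362 1290 298 (.r 329 328 328 (.d 428 2344 296 2377 461))))
 (.a 0 [397] (.q 365 (.a 1 [] (.d 299 2281 233 1291 267)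
 (.a 1 [233] (.d 299 1291 267 2314 398)
 (.a 1 [267] (.d 299 2281 233 2314 398)
 (.a 1 [299] (.r 362 1290 298 (.r 329 328 328 (.d 428 2344 296 2377 461)))
 .e)))))
 .e)))))
 (.a 1 [365] (.r 397 394 398 (.d 299 1291 267 1323 427))
 .e))))))
 (.a 1 [329] (.q 427 (.a 1 [] (.d 395 1323 299 1355 459)
 (.a 1 [299] (.r 334 330 333 (.d 365 3375 303 3406 458))
 .e)))
 .e))))
 (.a 1 [270] (.d 425 3373 301 3404 456)
 .e)))))
 (.a 1 [297] (.q 425 (.a 1 [] (.d 332 3373 301 3404 456)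
 (.a 1 [301] (.d 456 3404 332 3435 487)
 (.a 0 [332,456] (.q 426 (.a 1 [] (.d 362 1322 298 1354 458)
 (.a 1 [298] (.r 458 1354 362 (.r 429 2378 462 (.r 427 425 428 (.d 489 3437 365 3468 520))))
 (.a 0 [362,458] (.q 427 (.a 1 [] (.d 429 425 428 2378 462)
 (.a 1 [429] (.d 424 423 423 424 428)
 (.a 0 [428] (.q 361 (.a 1 [] (.d 328 2343 295 2376 460)
 (.a 1 [295] (.d 460 2376 328 2409 493)
 (.a 1 [328] (.r 423 423 424 (.d 392 3371 299 3402 454))
 .e))))
 .e))))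
 .e))))
 .e))))
 .e))))
 (.a 0 [297] (.q 425 (.a 1 [] (.d 332 3373 301 3404 456)
 (.a 1 [332] (.q 395 (.a 1 [] (.d 393 392 392 393 397)
 (.a 1 [393] (.q 427 (.a 1 [] (.d 331 1323 299 1355 459)
 (.a 1 [299] (.d 459 1355 331 1387 491)
 (.a 0 [331,459] (.q 426 (.a 1 [] (.d 424 423 423 424 428)
 (.a 1 [423] (.d 428 424 424 425 429)
 (.a 1 [424] (.r 429 425 428 (.d 462 2378 330 2411 495))
 (.a 0 [428] (.q 458 (.a 1 [] (.d 362 1354 330 1386 490)
 (.a 1 [330] (.d 490 1386 362 1418 522)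
 (.a 1 [362] (.d 365 3406 334 3437 489)
 .e))))
 .e)))))
 .e))))
 (.a 1 [397] (.q 429 (.a 1 [] (.d 462 2378 330 2411 495)
 (.a 0 [330,462,495] (.q 491 (.a 1 [] (.r 427 1387 459 (.r 428 425 426 (.r 392 392 393 (.d 458 2407 359 2440 524))))
 (.a 1 [327] (.r 427 1387 459 (.r 392 392 393 (.d 458 2407 359 2440 524)))
 (.a 1 [359] (.r 427 1387 459 (.r 428 425 426 (.r 392 392 393 (.r 458 2440 524 (.d 489 3437 365 3468 520)))))
 (.a 1 [360] (.r 427 1387 459 (.r 392 392 393 (.d 458 2407 359 2440 524)))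
 (.a 1 [426] (.r 427 1387 459 (.r 392 392 393 (.d 458 2407 359 2440 524)))
 (.a 1 [427] (.r 392 392 393 (.d 458 2407 359 2440 524))
 (.a 1 [524] (.r 427 1387 459 (.r 428 425 426 (.r 392 392 393 (.r 458 2407 359 (.d 489 3437 365 3468 520)))))
 (.a 0 [392,393,458] (.q 460 (.a 1 [] (.d 398 3439 367 3470 522)
 (.a 1 [367] (.d 522 3470 398 3501 553)
 (.a 1 [398] (.r 427 1387 459 (.d 493 2409 361 2442 526))
 .e))))
 .e)))))))))
 .e)))
 .e))))
 (.a 1 [456] (.q 395 (.a 1 [] (.d 393 392 392 393 397)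
 (.a 1 [393] (.q 427 (.a 1 [] (.d 331 1323 299 1355 459)
 (.a 1 [299] (.d 459 1355 331 1387 491)
 (.a 0 [331,459] (.q 426 (.a 1 [] (.d 424 423 423 424 428)
 (.a 1 [423] (.d 428 424 424 425 429)
 (.a 1 [424] (.r 429 425 428 (.d 462 2378 330 2411 495))
 (.a 0 [428] (.q 458 (.a 1 [] (.d 362 1354 330 1386 490)
 (.a 1 [330] (.d 490 1386 362 1418 522)
 (.a 1 [362] (.d 365 3406 334 3437 489)
 .e))))
 .e)))))
 .e))))
 (.a 1 [397] (.q 429 (.a 1 [] (.d 462 2378 330 2411 495)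
 (.a 0 [330,462,495] (.q 491 (.a 1 [] (.r 427 1387 459 (.r 428 425 426 (.r 392 392 393 (.d 458 2407 359 2440 524))))
 (.a 1 [327] (.r 427 1387 459 (.r 392 392 393 (.d 458 2407 359 2440 524)))
 (.a 1 [359] (.r 427 1387 459 (.r 428 425 426 (.r 392 392 393 (.r 458 2440 524 (.d 489 3437 365 3468 520)))))
 (.a 1 [360] (.r 427 1387 459 (.r 392 392 393 (.d 458 2407 359 2440 524)))
 (.a 1 [426] (.r 427 1387 459 (.r 392 392 393 (.d 458 2407 359 2440 524)))
 (.a 1 [427] (.r 392 392 393 (.d 458 2407 359 2440 524))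
 (.a 1 [524] (.r 427 1387 459 (.r 428 425 426 (.r 392 392 393 (.r 458 2407 359 (.d 489 3437 365 3468 520)))))
 (.a 0 [392,393,458] (.q 460 (.a 1 [] (.d 398 3439 367 3470 522)
 (.a 1 [367] (.d 522 3470 398 3501 553)
 (.a 1 [398] (.r 427 1387 459 (.d 493 2409 361 2442 526))
 .e))))
 .e)))))))))
 .e)))
 (.a 1 [392] (.d 397 393 393 394 398)
 .e)))))
 (.a 1 [301] (.d 456 3404 332 3435 487)
 .e)))))
 (.a 1 [301] (.q 395 (.a 1 [] (.d 393 392 392 393 397)
 (.a 1 [397] (.q 429 (.a 1 [] (.d 330 2345 297 2378 462)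
 (.a 1 [297] (.d 462 2378 330 2411 495)
 (.a 0 [330,462] (.q 425 (.a 1 [] (.d 456 3404 332 3435 487)
 (.a 0 [332,456,487] (.q 491 (.a 1 [] (.r 427 1387 459 (.r 428 425 426 (.r 392 392 393 (.d 458 2407 359 2440 524))))
 (.a 1 [327] (.r 427 1387 459 (.r 392 392 393 (.d 458 2407 359 2440 524)))
 (.a 1 [359] (.r 427 1387 459 (.r 428 425 426 (.r 392 392 393 (.r 458 2440 524 (.d 489 3437 365 3468 520)))))
 (.a 1 [360] (.r 427 1387 459 (.r 392 392 393 (.d 458 2407 359 2440 524)))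
 (.a 1 [426] (.r 427 1387 459 (.r 392 392 393 (.d 458 2407 359 2440 524)))
 (.a 1 [427] (.r 392 392 393 (.d 458 2407 359 2440 524))
 (.a 1 [524] (.r 427 1387 459 (.r 428 425 426 (.r 392 392 393 (.r 458 2407 359 (.d 489 3437 365 3468 520)))))
 (.a 0 [392,393,458] (.q 460 (.a 1 [] (.d 398 3439 367 3470 522)
 (.a 1 [367] (.d 522 3470 398 3501 553)
 (.a 1 [398] (.r 427 1387 459 (.d 493 2409 361 2442 526))
 .e))))
 .e)))))))))
 .e)))
 .e))))
 (.a 1 [393] (.q 427 (.a 1 [] (.d 331 1323 299 1355 459)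
 (.a 1 [299] (.d 459 1355 331 1387 491)
 (.a 0 [331,459] (.q 458 (.a 1 [] (.d 365 3406 334 3437 489)
 (.a 1 [334] (.d 489 3437 365 3468 520)
 (.a 0 [365,489] (.q 425 (.a 1 [] (.d 456 3404 332 3435 487)
 (.a 0 [332,456,487] (.q 426 (.a 1 [] (.d 424 423 423 424 428)
 (.a 1 [423] (.d 428 424 424 425 429)
 (.a 1 [424] (.d 362 1354 330 1386 490)
 .e))))
 .e)))
 .e))))
 .e))))
 (.a 1 [392] (.d 397 393 393 394 398)
 .e)))))
 (.a 0 [427] (.q 425 (.a 1 [] (.d 332 3373 301 3404 456)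
 (.a 1 [332] (.q 330 (.a 1 [] (.d 297 2312 264 2345 429)
 (.a 1 [297] (.q 393 (.a 1 [] (.d 395 392 392 393 397)
 (.a 0 [392,395,397] (.q 457 (.a 1 [] (.d 361 1353 329 1385 489)
 (.a 1 [329] (.d 489 1385 361 1417 521)
 (.a 0 [361,489] (.r 456 3435 487 (.q 458 (.a 1 [] (.d 455 454 454 455 459)
 (.a 1 [454] (.d 459 455 455 456 460)
 (.a 1 [455] (.r 426 1354 362 (.r 459 456 460 (.d 492 2408 360 2441 525)))
 (.a 1 [459] (.r 362 1354 426 (.r 455 454 454 (.d 424 3403 331 3434 486)))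
 .e))))))
 .e))))
 .e)))
 (.a 1 [429] (.q 426 (.a 1 [] (.d 362 1322 298 1354 458)
 (.a 0 [298,362,458] (.q 393 (.a 1 [] (.d 395 392 392 393 397)
 (.a 1 [397] (.r 392 392 395 (.r 297 2312 264 (.r 361 1321 329 (.d 423 3371 299 3402 454))))
 (.a 0 [392,395] (.q 327 (.a 1 [] (.d 360 2342 294 2375 459)
 (.a 1 [294] (.r 297 2312 264 (.r 329 1321 361 (.d 328 326 326 327 331)))
 .e)))
 .e))))
 .e)))
 .e))))
 (.a 1 [456] (.q 395 (.a 1 [] (.d 393 392 392 393 397)
 (.a 1 [393] (.q 330 (.a 1 [] (.d 297 2312 264 2345 429)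
 (.a 1 [264] (.d 429 2345 297 2378 462)
 (.a 0 [297,429] (.r 332 3373 301 (.q 299 (.a 1 [] (.r 331 1291 267 (.d 333 329 329 330 334))
 (.a 1 [267] (.r 398 394 397 (.d 365 2314 266 2347 431))
 .e))))
 .e))))
 (.a 1 [397] (.r 392 392 393 (.q 330 (.a 1 [] (.d 297 2312 264 2345 429)
 (.a 1 [264] (.d 429 2345 297 2378 462)
 (.a 0 [297,429] (.q 331 (.a 1 [] (.r 332 3373 301 (.d 333 329 329 330 334))
 (.a 1 [301] (.r 299 1291 267 (.d 361 3340 268 3371 423))
 (.a 1 [333] (.r 299 1291 267 (.d 361 3340 268 3371 423))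
 .e))))
 .e)))))
 .e))))
 (.a 1 [301] (.d 456 3404 332 3435 487)
 .e)))))
 (.a 1 [392] (.q 395 (.a 1 [] (.d 397 393 393 394 398)
 (.a 1 [397] (.q 331 (.a 1 [] (.d 299 1291 267 1323 427)
 (.a 1 [267] (.d 427 1323 299 1355 459)
 (.a 0 [299,427] (.q 330 (.a 1 [] (.d 297 2312 264 2345 429)
 (.a 1 [264] (.d 429 2345 297 2378 462)
 (.a 0 [297,429] (.q 332 (.a 1 [] (.d 329 328 328 329 333)
 (.a 1 [328] (.d 333 329 329 330 334)
 (.a 1 [329] (.d 301 3342 270 3373 425)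
 .e))))
 .e))))
 .e))))
 (.a 1 [393] (.q 427 (.a 1 [] (.d 331 1323 299 1355 459)
 (.a 1 [299] (.d 459 1355 331 1387 491)
 (.a 0 [331,459] (.q 425 (.a 1 [] (.d 332 3373 301 3404 456)
 (.a 1 [301] (.d 456 3404 332 3435 487)
 (.a 0 [332,456] (.q 426 (.a 1 [] (.d 424 423 423 424 428)
 (.a 1 [423] (.d 428 424 424 425 429)
 (.a 1 [424] (.r 429 425 428 (.d 462 2378 330 2411 495))
 (.a 0 [428] (.q 458 (.a 1 [] (.d 362 1354 330 1386 490)
 (.a 1 [330] (.d 490 1386 362 1418 522)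
 (.a 1 [362] (.d 365 3406 334 3437 489)
 .e))))
 .e)))))
 .e))))
 .e))))
 .e))))
 (.a 1 [398] (.q 395 (.a 1 [] (.d 393 392 392 393 397)
 (.a 1 [393] (.q 427 (.a 1 [] (.d 331 1323 299 1355 459)
 (.a 1 [299] (.d 459 1355 331 1387 491)
 (.a 0 [331,459] (.q 425 (.a 1 [] (.d 332 3373 301 3404 456)
 (.a 1 [301] (.d 456 3404 332 3435 487)
 (.a 0 [332,456] (.q 426 (.a 1 [] (.d 424 423 423 424 428)
 (.a 1 [423] (.d 428 424 424 425 429)
 (.a 1 [424] (.r 429 425 428 (.d 462 2378 330 2411 495))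
 (.a 0 [428] (.q 458 (.a 1 [] (.d 362 1354 330 1386 490)
 (.a 1 [330] (.d 490 1386 362 1418 522)
 (.a 1 [362] (.d 365 3406 334 3437 489)
 .e))))
 .e)))))
 .e))))
 .e))))
 (.a 1 [397] (.q 331 (.a 1 [] (.d 299 1291 267 1323 427)
 (.a 1 [267] (.d 427 1323 299 1355 459)
 (.a 0 [299,427] (.q 332 (.a 1 [] (.d 301 3342 270 3373 425)
 (.a 1 [270] (.d 425 3373 301 3404 456)
 (.a 0 [301,425] (.q 330 (.a 1 [] (.d 329 328 328 329 333)
 (.a 1 [328] (.d 333 329 329 330 334)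
 (.a 1 [329] (.d 297 2312 264 2345 429)
 .e))))
 .e))))
 .e))))
 .e))))
 (.a 0 [331] (.q 425 (.a 1 [] (.d 332 3373 301 3404 456)
 (.a 1 [332] (.q 330 (.a 1 [] (.d 297 2312 264 2345 429)
 (.a 1 [297] (.q 426 (.a 1 [] (.d 362 1322 298 1354 458)
 (.a 1 [298] (.r 458 1354 362 (.r 429 2378 462 (.r 427 425 428 (.d 489 3437 365 3468 520))))
 (.a 0 [362,458] (.q 393 (.a 1 [] (.d 395 392 392 393 397)
 (.a 1 [392] (.r 429 2378 462 (.r 427 425 428 (.r 395 393 397 (.r 459 1387 491 (.d 492 2408 360 2441 525)))))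
 (.a 1 [397] (.r 392 392 395 (.r 429 2378 462 (.r 427 425 428 (.r 423 423 424 (.d 361 3371 299 3402 454)))))
 (.a 0 [395] (.q 457 (.a 1 [] (.d 361 1353 329 1385 489)
 (.a 1 [329] (.d 489 1385 361 1417 521)
 (.a 0 [361,489] (.q 360 (.a 1 [] (.d 327 2342 294 2375 459)
 (.a 1 [294] (.d 459 2375 327 2408 492)
 (.a 0 [327,459] (.q 424 (.a 1 [] (.d 423 422 422 423 427)
 (.a 1 [422] (.d 427 423 423 424 428)
 (.a 1 [423] (.r 456 3435 487 (.d 392 1352 328 1384 488))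
 .e))))
 .e))))
 .e))))
 .e)))))
 .e))))
 (.a 1 [429] (.q 393 (.a 1 [] (.d 395 392 392 393 397)
 (.a 1 [397] (.r 392 392 395 (.r 297 2312 264 (.r 361 1321 329 (.d 423 3371 299 3402 454))))
 (.a 0 [392,395] (.q 426 (.a 1 [] (.d 362 1322 298 1354 458)
 (.a 1 [298] (.r 458 1354 362 (.r 297 2312 264 (.r 361 1321 329 (.r 489 1385 457 (.d 427 3437 365 3468 520)))))
 (.a 1 [458] (.r 297 2312 264 (.r 361 1321 329 (.r 362 1322 298 (.r 360 359 359 (.d 459 2375 327 2408 492)))))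
 (.a 0 [362] (.q 424 (.a 1 [] (.d 423 422 422 423 427)
 (.a 1 [422] (.d 427 423 423 424 428)
 (.a 0 [423,427] (.q 459 (.a 1 [] (.d 360 2375 327 2408 492)
 (.a 1 [327] (.d 492 2408 360 2441 525)
 (.a 0 [360,492] (.q 457 (.a 1 [] (.d 361 1353 329 1385 489)
 (.a 1 [329] (.d 489 1385 361 1417 521)
 (.a 1 [361] (.r 456 3435 487 (.d 458 455 455 456 460))
 .e))))
 .e))))
 .e))))
 .e)))))
 .e))))
 .e))))
 (.a 1 [456] (.q 330 (.a 1 [] (.d 297 2312 264 2345 429)
 (.a 1 [297] (.q 397 (.a 1 [] (.d 395 393 393 394 398)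
 (.a 0 [393,395,398] (.q 426 (.a 1 [] (.d 362 1322 298 1354 458)
 (.a 1 [298] (.r 458 1354 362 (.r 429 2378 462 (.r 427 425 428 (.d 489 3437 365 3468 520))))
 (.a 1 [362] (.r 429 2378 462 (.r 427 425 428 (.r 301 3373 332 (.r 365 1325 333 (.d 458 3406 334 3437 489)))))
 (.a 1 [458] (.r 429 2378 462 (.r 427 425 428 (.r 301 3373 332 (.r 365 1325 333 (.r 493 1389 461 (.d 460 2409 361 2442 526))))))
 .e)))))
 .e)))
 (.a 1 [429] (.q 298 (.a 1 [] (.d 362 1290 266 1322 426)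
 (.a 0 [266,362,426] (.q 393 (.a 1 [] (.d 395 392 392 393 397)
 (.a 1 [392] (.r 297 2312 264 (.r 361 1321 329 (.r 301 3373 332 (.r 299 297 300 (.r 295 295 296 (.d 328 2310 262 2343 427))))))
 (.a 1 [395] (.r 297 2312 264 (.r 361 1321 329 (.r 301 3373 332 (.r 299 297 300 (.d 392 3340 268 3371 423)))))
 .e))))
 .e)))
 .e))))
 (.a 1 [301] (.d 456 3404 332 3435 487)
 .e)))))
 (.a 1 [426] (.q 395 (.a 1 [] (.d 393 392 392 393 397)
 (.a 1 [393] (.q 425 (.a 1 [] (.d 332 3373 301 3404 456)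
 (.a 1 [301] (.d 456 3404 332 3435 487)
 (.a 0 [332,456] (.q 429 (.a 1 [] (.d 330 2345 297 2378 462)
 (.a 1 [297] (.d 462 2378 330 2411 495)
 (.a 0 [330,462] (.q 491 (.a 1 [] (.r 427 1387 459 (.r 398 394 397 (.d 460 3439 367 3470 522)))
 (.a 1 [327] (.r 398 394 397 (.d 460 3439 367 3470 522))
 (.a 1 [360] (.r 398 394 397 (.d 460 3439 367 3470 522))
 (.a 1 [367] (.r 427 1387 459 (.r 398 394 397 (.r 460 3470 522 (.d 493 2409 361 2442 526))))
 (.a 1 [459] (.r 398 394 397 (.d 460 3439 367 3470 522))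
 (.a 1 [522] (.r 427 1387 459 (.r 398 394 397 (.r 460 3439 367 (.d 493 2409 361 2442 526))))
 (.a 0 [397,398,460] (.q 458 (.a 1 [] (.d 392 2407 359 2440 524)
 (.a 1 [359] (.d 524 2440 392 2473 557)
 (.a 1 [392] (.r 427 1387 459 (.d 489 3437 365 3468 520))
 .e))))
 .e))))))))
 .e))))
 .e))))
 (.a 1 [397] (.q 429 (.a 1 [] (.d 330 2345 297 2378 462)
 (.a 1 [297] (.d 462 2378 330 2411 495)
 (.a 0 [330,462] (.q 425 (.a 1 [] (.d 332 3373 301 3404 456)
 (.a 1 [301] (.d 456 3404 332 3435 487)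
 (.a 0 [332,456] (.q 491 (.a 1 [] (.r 427 1387 459 (.r 392 392 393 (.d 458 2407 359 2440 524)))
 (.a 1 [327] (.r 392 392 393 (.d 458 2407 359 2440 524))
 (.a 1 [359] (.r 427 1387 459 (.r 392 392 393 (.r 458 2440 524 (.d 489 3437 365 3468 520))))
 (.a 1 [360] (.r 392 392 393 (.d 458 2407 359 2440 524))
 (.a 1 [459] (.r 392 392 393 (.d 458 2407 359 2440 524))
 (.a 1 [524] (.r 427 1387 459 (.r 392 392 393 (.r 458 2407 359 (.d 489 3437 365 3468 520))))
 (.a 0 [392,393,458] (.q 460 (.a 1 [] (.d 398 3439 367 3470 522)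
 (.a 1 [367] (.d 522 3470 398 3501 553)
 (.a 1 [398] (.r 427 1387 459 (.d 493 2409 361 2442 526))
 .e))))
 .e))))))))
 .e))))
 .e))))
 (.a 1 [392] (.d 397 393 393 394 398)
 .e)))))
 (.a 1 [365] (.q 395 (.a 1 [] (.d 393 392 392 393 397)
 (.a 1 [397] (.q 429 (.a 1 [] (.d 330 2345 297 2378 462)
 (.a 1 [297] (.d 462 2378 330 2411 495)
 (.a 0 [330,462] (.q 425 (.a 1 [] (.d 332 3373 301 3404 456)
 (.a 1 [301] (.d 456 3404 332 3435 487)
 (.a 0 [332,456] (.q 491 (.a 1 [] (.r 427 1387 459 (.r 428 425 426 (.r 392 392 393 (.d 458 2407 359 2440 524))))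
 (.a 1 [327] (.r 427 1387 459 (.r 392 392 393 (.d 458 2407 359 2440 524)))
 (.a 1 [359] (.r 427 1387 459 (.r 426 425 428 (.r 392 392 393 (.r 458 2440 524 (.d 490 1386 362 1418 522)))))
 (.a 1 [426] (.r 392 392 393 (.d 458 2407 359 2440 524))
 (.a 1 [524] (.r 427 1387 459 (.r 426 425 428 (.r 392 392 393 (.r 458 2407 359 (.d 490 1386 362 1418 522)))))
 (.a 0 [392,393,458] (.q 460 (.a 1 [] (.d 398 3439 367 3470 522)
 (.a 1 [367] (.d 522 3470 398 3501 553)
 (.a 1 [398] (.r 427 1387 459 (.d 493 2409 361 2442 526))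
 .e))))
 .e)))))))
 .e))))
 .e))))
 (.a 1 [393] (.q 427 (.a 1 [] (.d 331 1323 299 1355 459)
 (.a 1 [299] (.d 459 1355 331 1387 491)
 (.a 0 [331,459] (.q 425 (.a 1 [] (.d 332 3373 301 3404 456)
 (.a 1 [301] (.d 456 3404 332 3435 487)
 (.a 0 [332,456] (.q 426 (.a 1 [] (.d 424 423 423 424 428)
 (.a 1 [423] (.d 428 424 424 425 429)
 (.a 1 [424] (.r 429 425 428 (.d 462 2378 330 2411 495))
 (.a 0 [428] (.q 330 (.a 1 [] (.d 362 1322 298 1354 458)
 (.a 1 [298] (.d 429 2345 297 2378 462)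
 .e)))
 .e)))))
 .e))))
 .e))))
 (.a 1 [392] (.d 397 393 393 394 398)
 .e)))))
 (.a 0 [298] (.q 395 (.a 1 [] (.d 393 392 392 393 397)
 (.a 1 [397] (.q 331 (.a 1 [] (.d 299 1291 267 1323 427)
 (.a 1 [427] (.q 330 (.a 1 [] (.d 297 2312 264 2345 429)
 (.a 1 [264] (.d 429 2345 297 2378 462)
 (.a 0 [297,429] (.q 332 (.a 1 [] (.d 329 328 328 329 333)
 (.a 1 [328] (.d 333 329 329 330 334)
 (.a 1 [329] (.d 301 3342 270 3373 425)
 .e))))
 .e))))
 (.a 1 [299] (.q 429 (.a 1 [] (.d 330 2345 297 2378 462)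
 (.a 1 [297] (.d 462 2378 330 2411 495)
 (.a 0 [330,462] (.q 425 (.a 1 [] (.d 332 3373 301 3404 456)
 (.a 1 [301] (.d 456 3404 332 3435 487)
 (.a 0 [332,456] (.q 428 (.a 1 [] (.d 427 425 426 1355 459)
 (.a 0 [426,427,459] (.q 362 (.a 1 [] (.d 329 2344 296 2377 461)
 (.a 1 [296] (.d 461 2377 329 2410 494)
 (.a 1 [329] (.r 393 392 392 (.d 424 3372 300 3403 455))
 .e))))
 .e)))
 .e))))
 .e))))
 (.a 1 [267] (.d 427 1323 299 1355 459)
 .e)))))
 (.a 1 [393] (.q 331 (.a 1 [] (.d 299 1291 267 1323 427)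
 (.a 1 [427] (.q 330 (.a 1 [] (.d 297 2312 264 2345 429)
 (.a 1 [264] (.d 429 2345 297 2378 462)
 (.a 0 [297,429] (.q 332 (.a 1 [] (.d 329 328 328 329 333)
 (.a 1 [328] (.d 333 329 329 330 334)
 (.a 1 [329] (.d 301 3342 270 3373 425)
 .e))))
 .e))))
 (.a 1 [299] (.q 429 (.a 1 [] (.d 330 2345 297 2378 462)
 (.a 1 [297] (.d 462 2378 330 2411 495)
 (.a 0 [330,462] (.q 301 (.a 1 [] (.d 332 3342 270 3373 425)
 (.a 1 [270] (.r 397 394 398 (.r 365 1325 333 (.r 427 1355 459 (.d 458 3406 334 3437 489))))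
 .e)))
 .e))))
 .e))))
 (.a 1 [392] (.d 397 393 393 394 398)
 .e)))))
 (.a 0 [299] (.q 330 (.a 1 [] (.d 297 2312 264 2345 429)
 (.a 1 [429] (.q 395 (.a 1 [] (.d 393 392 392 393 397)
 (.a 1 [397] (.q 425 (.a 1 [] (.d 332 3373 301 3404 456)
 (.a 1 [301] (.d 456 3404 332 3435 487)
 (.a 0 [332,456] (.q 426 (.a 1 [] (.d 362 1322 298 1354 458)
 (.a 1 [298] (.r 458 1354 362 (.r 392 392 393 (.d 491 2407 359 2440 524)))
 (.a 0 [362,458] (.q 427 (.a 1 [] (.d 424 423 423 424 428)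
 (.a 1 [423] (.d 459 1355 331 1387 491)
 .e)))
 .e))))
 .e))))
 (.a 1 [393] (.q 362 (.a 1 [] (.d 298 1290 266 1322 426)
 (.a 1 [266] (.d 426 1322 298 1354 458)
 (.a 0 [298,426] (.q 428 (.a 1 [] (.d 329 2344 296 2377 461)
 (.a 1 [296] (.d 461 2377 329 2410 494)
 (.a 0 [329,461] (.q 459 (.a 1 [] (.d 427 1355 331 1387 491)
 (.a 1 [331] (.r 397 394 398 (.d 490 3438 366 3469 521))
 .e)))
 .e))))
 .e))))
 .e))))
 (.a 1 [297] (.q 395 (.a 1 [] (.d 393 392 392 393 397)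
 (.a 1 [392] (.d 397 393 393 394 398)
 (.a 0 [393,397] (.q 425 (.a 1 [] (.d 332 3373 301 3404 456)
 (.a 1 [301] (.d 456 3404 332 3435 487)
 (.a 0 [332,456] (.q 427 (.a 1 [] (.d 459 1355 331 1387 491)
 (.a 1 [331] (.r 429 2378 462 (.r 426 425 428 (.d 362 1322 298 1354 458)))
 .e)))
 .e))))
 .e))))
 .e))))
 (.a 1 [333] (.q 330 (.a 1 [] (.d 297 2312 264 2345 429)
 (.a 1 [429] (.q 426 (.a 1 [] (.d 362 1322 298 1354 458)
 (.a 0 [298,362,458] (.q 425 (.a 1 [] (.d 332 3373 301 3404 456)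
 (.a 1 [301] (.d 456 3404 332 3435 487)
 (.a 0 [332,456] (.q 427 (.a 1 [] (.d 424 423 423 424 428)
 (.a 0 [423,424,428] (.q 395 (.a 1 [] (.d 393 392 392 393 397)
 (.a 1 [392] (.d 397 393 393 394 398)
 (.a 1 [393] (.d 331 1323 299 1355 459)
 .e))))
 .e)))
 .e))))
 .e)))
 (.a 1 [297] (.q 395 (.a 1 [] (.d 393 392 392 393 397)
 (.a 1 [392] (.d 397 393 393 394 398)
 (.a 0 [393,397] (.q 331 (.a 1 [] (.d 299 1291 267 1323 427)
 (.a 1 [267] (.d 427 1323 299 1355 459)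
 (.a 0 [299,427] (.q 329 (.a 1 [] (.d 328 327 327 328 332)
 (.a 1 [327] (.r 332 328 328 (.d 301 3342 270 3373 425))
 (.a 0 [328,332] (.q 362 (.a 1 [] (.d 298 1290 266 1322 426)
 (.a 1 [266] (.d 426 1322 298 1354 458)
 (.a 1 [298] (.d 296 2311 263 2344 428)
 .e))))
 .e))))
 .e))))
 .e))))
 .e))))
 (.a 0 [430] (.q 429 (.a 1 [] (.d 330 2345 297 2378 462)
 (.a 1 [330] (.q 397 (.a 1 [] (.d 395 393 393 394 398)
 (.a 1 [395] (.q 332 (.a 1 [] (.d 301 3342 270 3373 425)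
 (.a 1 [270] (.d 425 3373 301 3404 456)
 (.a 0 [301,425] (.q 493 (.a 1 [] (.d 461 1389 365 1421 525)
 (.a 0 [365,461,525] (.q 460 (.a 1 [] (.d 427 2409 361 2442 526)
 (.a 0 [361,427,526] (.q 400 (.a 1 [] (.r 398 396 399 (.d 491 3439 367 3470 522))
 (.a 1 [337] (.r 462 2411 495 (.d 431 3441 369 3472 524))
 (.a 1 [368] (.r 462 2411 495 (.d 431 3441 369 3472 524))
 (.a 1 [399] (.r 462 2411 495 (.d 431 3441 369 3472 524))
 .e)))))
 .e)))
 .e)))
 .e))))
 (.a 1 [398] (.q 365 (.a 1 [] (.d 333 1325 301 1357 461)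
 (.a 1 [301] (.d 461 1357 333 1389 493)
 (.a 1 [461] (.r 301 1325 333 (.d 332 3342 270 3373 425))
 (.a 0 [333] (.q 427 (.a 1 [] (.d 334 3375 303 3406 458)
 (.a 1 [303] (.d 458 3406 334 3437 489)
 (.a 1 [334] (.r 395 393 393 (.d 459 1355 331 1387 491))
 .e))))
 .e)))))
 (.a 1 [393] (.q 365 (.a 1 [] (.d 333 1325 301 1357 461)
 (.a 1 [301] (.d 461 1357 333 1389 493)
 (.a 1 [461] (.r 398 394 395 (.r 301 1325 333 (.d 332 3342 270 3373 425)))
 (.a 0 [333] (.q 332 (.a 1 [] (.d 301 3342 270 3373 425)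
 (.a 1 [270] (.d 425 3373 301 3404 456)
 (.a 1 [301] (.r 398 394 395 (.d 431 2347 299 2380 464))
 .e))))
 .e)))))
 .e)))))
 (.a 1 [462] (.q 425 (.a 1 [] (.d 332 3373 301 3404 456)
 (.a 1 [301] (.d 456 3404 332 3435 487)
 (.a 0 [332,456] (.q 427 (.a 1 [] (.r 426 425 428 (.r 330 2345 297 (.d 362 1322 298 1354 458)))
 (.a 1 [298] (.r 426 425 428 (.r 330 2345 297 (.r 458 1354 362 (.d 489 3437 365 3468 520))))
 (.a 0 [297,330,362,426,428,458] (.q 395 (.a 1 [] (.d 393 392 392 393 397)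
 (.a 1 [392] (.d 397 393 393 394 398)
 (.a 1 [393] (.d 331 1323 299 1355 459)
 .e))))
 .e))))
 .e))))
 (.a 1 [297] (.d 462 2378 330 2411 495)
 .e)))))
 (.a 1 [496] (.q 425 (.a 1 [] (.d 332 3373 301 3404 456)
 (.a 1 [332] (.q 330 (.a 1 [] (.d 297 2312 264 2345 429)
 (.a 1 [264] (.d 429 2345 297 2378 462)
 (.a 0 [297,429] (.q 426 (.a 1 [] (.d 362 1322 298 1354 458)
 (.a 0 [298,362,458] (.q 427 (.a 1 [] (.d 424 423 423 424 428)
 (.a 0 [423,424,428] (.q 395 (.a 1 [] (.d 393 392 392 393 397)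
 (.a 1 [392] (.d 397 393 393 394 398)
 (.a 1 [393] (.d 331 1323 299 1355 459)
 .e))))
 .e)))
 .e)))
 .e))))
 (.a 1 [456] (.q 330 (.a 1 [] (.d 297 2312 264 2345 429)
 (.a 1 [264] (.d 429 2345 297 2378 462)
 (.a 0 [297,429] (.q 426 (.a 1 [] (.d 362 1322 298 1354 458)
 (.a 0 [298,362,458] (.q 427 (.a 1 [] (.d 424 423 423 424 428)
 (.a 0 [423,424,428] (.q 395 (.a 1 [] (.d 393 392 392 393 397)
 (.a 1 [392] (.d 397 393 393 394 398)
 (.a 1 [393] (.d 331 1323 299 1355 459)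
 .e))))
 .e)))
 .e)))
 .e))))
 (.a 1 [301] (.d 456 3404 332 3435 487)
 .e)))))
 (.a 1 [428] (.q 395 (.a 1 [] (.d 393 392 392 393 397)
 (.a 1 [397] (.q 429 (.a 1 [] (.d 330 2345 297 2378 462)
 (.a 1 [297] (.d 462 2378 330 2411 495)
 (.a 0 [330,462] (.q 425 (.a 1 [] (.d 332 3373 301 3404 456)
 (.a 1 [301] (.d 456 3404 332 3435 487)
 (.a 0 [332,456] (.q 491 (.a 1 [] (.r 427 1387 459 (.r 392 392 393 (.d 458 2407 359 2440 524)))
 (.a 1 [335] (.r 392 392 393 (.d 458 2407 359 2440 524))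
 (.a 1 [359] (.r 427 1387 459 (.r 392 392 393 (.r 458 2440 524 (.d 489 3437 365 3468 520))))
 (.a 1 [366] (.r 392 392 393 (.d 458 2407 359 2440 524))
 (.a 1 [459] (.r 392 392 393 (.d 458 2407 359 2440 524))
 (.a 1 [524] (.r 427 1387 459 (.r 392 392 393 (.r 458 2407 359 (.d 489 3437 365 3468 520))))
 (.a 0 [392,393,458] (.q 460 (.a 1 [] (.d 398 3439 367 3470 522)
 (.a 1 [367] (.d 522 3470 398 3501 553)
 (.a 1 [398] (.r 427 1387 459 (.d 493 2409 361 2442 526))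
 .e))))
 .e))))))))
 .e))))
 .e))))
 (.a 1 [393] (.q 427 (.a 1 [] (.d 331 1323 299 1355 459)
 (.a 1 [299] (.d 459 1355 331 1387 491)
 (.a 0 [331,459] (.q 458 (.a 1 [] (.d 365 3406 334 3437 489)
 (.a 1 [334] (.d 489 3437 365 3468 520)
 (.a 0 [365,489] (.q 425 (.a 1 [] (.d 332 3373 301 3404 456)
 (.a 1 [301] (.d 456 3404 332 3435 487)
 (.a 0 [332,456] (.q 330 (.a 1 [] (.d 297 2312 264 2345 429)
 (.a 1 [264] (.d 429 2345 297 2378 462)
 (.a 0 [297,429] (.q 361 (.a 1 [] (.d 328 2343 295 2376 460)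
 (.a 1 [295] (.d 460 2376 328 2409 493)
 (.a 0 [328,460] (.q 392 (.a 1 [] (.d 359 2374 326 2407 491)
 (.a 1 [326] (.d 423 3371 299 3402 454)
 .e)))
 .e))))
 .e))))
 .e))))
 .e))))
 .e))))
 (.a 1 [392] (.d 397 393 393 394 398)
 .e)))))
 (.a 1 [463] (.q 425 (.a 1 [] (.d 332 3373 301 3404 456)
 (.a 1 [332] (.q 330 (.a 1 [] (.d 297 2312 264 2345 429)
 (.a 1 [264] (.d 429 2345 297 2378 462)
 (.a 0 [297,429] (.q 426 (.a 1 [] (.d 362 1322 298 1354 458)
 (.a 0 [298,362,458] (.q 427 (.a 1 [] (.d 424 423 423 424 428)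
 (.a 0 [423,424,428] (.q 395 (.a 1 [] (.d 393 392 392 393 397)
 (.a 1 [392] (.d 397 393 393 394 398)
 (.a 1 [393] (.d 331 1323 299 1355 459)
 .e))))
 .e)))
 .e)))
 .e))))
 (.a 1 [456] (.q 330 (.a 1 [] (.d 297 2312 264 2345 429)
 (.a 1 [264] (.d 429 2345 297 2378 462)
 (.a 0 [297,429] (.q 426 (.a 1 [] (.d 362 1322 298 1354 458)
 (.a 0 [298,362,458] (.q 427 (.a 1 [] (.d 424 423 423 424 428)
 (.a 0 [423,424,428] (.q 395 (.a 1 [] (.d 393 392 392 393 397)
 (.a 1 [392] (.d 397 393 393 394 398)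
 (.a 1 [393] (.d 331 1323 299 1355 459)
 .e))))
 .e)))
 .e)))
 .e))))
 (.a 1 [301] (.d 456 3404 332 3435 487)
 .e)))))
 (.a 1 [300] (.q 330 (.a 1 [] (.d 297 2312 264 2345 429)
 (.a 1 [297] (.q 395 (.a 1 [] (.d 393 392 392 393 397)
 (.a 1 [392] (.d 397 393 393 394 398)
 (.a 0 [393,397] (.q 331 (.a 1 [] (.d 299 1291 267 1323 427)
 (.a 1 [267] (.d 427 1323 299 1355 459)
 (.a 0 [299,427] (.q 298 (.a 1 [] (.d 362 1290 266 1322 426)
 (.a 0 [266,362,426] (.q 332 (.a 1 [] (.d 329 328 328 329 333)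
 (.a 1 [328] (.d 333 329 329 330 334)
 (.a 1 [329] (.d 301 3342 270 3373 425)
 .e))))
 .e)))
 .e))))
 .e))))
 (.a 1 [429] (.q 395 (.a 1 [] (.d 393 392 392 393 397)
 (.a 1 [392] (.d 397 393 393 394 398)
 (.a 0 [393,397] (.q 331 (.a 1 [] (.d 299 1291 267 1323 427)
 (.a 1 [267] (.d 427 1323 299 1355 459)
 (.a 0 [299,427] (.q 332 (.a 1 [] (.d 329 328 328 329 333)
 (.a 1 [328] (.d 333 329 329 330 334)
 (.a 1 [329] (.d 301 3342 270 3373 425)
 .e))))
 .e))))
 .e))))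
 .e))))
 (.a 1 [329] (.q 395 (.a 1 [] (.d 393 392 392 393 397)
 (.a 1 [397] (.q 331 (.a 1 [] (.d 299 1291 267 1323 427)
 (.a 1 [267] (.d 427 1323 299 1355 459)
 (.a 0 [299,427] (.q 330 (.a 1 [] (.d 297 2312 264 2345 429)
 (.a 1 [264] (.d 429 2345 297 2378 462)
 (.a 0 [297,429] (.q 362 (.a 1 [] (.d 298 1290 266 1322 426)
 (.a 1 [266] (.d 426 1322 298 1354 458)
 (.a 1 [298] (.r 393 392 392 (.d 424 3372 300 3403 455))
 .e))))
 .e))))
 .e))))
 (.a 1 [393] (.q 427 (.a 1 [] (.d 331 1323 299 1355 459)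
 (.a 1 [299] (.d 459 1355 331 1387 491)
 (.a 0 [331,459] (.q 330 (.a 1 [] (.d 297 2312 264 2345 429)
 (.a 1 [264] (.d 429 2345 297 2378 462)
 (.a 0 [297,429] (.q 361 (.a 1 [] (.d 328 2343 295 2376 460)
 (.a 1 [295] (.d 460 2376 328 2409 493)
 (.a 0 [328,460] (.q 458 (.a 1 [] (.d 365 3406 334 3437 489)
 (.a 1 [334] (.d 489 3437 365 3468 520)
 (.a 0 [365,489] (.q 425 (.a 1 [] (.d 332 3373 301 3404 456)
 (.a 1 [301] (.d 456 3404 332 3435 487)
 (.a 1 [332] (.r 426 1354 362 (.d 424 423 423 424 428))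
 .e))))
 .e))))
 .e))))
 .e))))
 .e))))
 .e))))
 (.a 1 [462] (.q 395 (.a 1 [] (.d 393 392 392 393 397)
 (.a 1 [392] (.d 397 393 393 394 398)
 (.a 0 [393,397] (.q 331 (.a 1 [] (.d 299 1291 267 1323 427)
 (.a 1 [267] (.d 427 1323 299 1355 459)
 (.a 0 [299,427] (.q 332 (.a 1 [] (.d 301 3342 270 3373 425)
 (.a 1 [270] (.d 425 3373 301 3404 456)
 (.a 0 [301,425] (.q 330 (.a 1 [] (.d 329 328 328 329 333)
 (.a 1 [328] (.d 333 329 329 330 334)
 (.a 1 [329] (.d 297 2312 264 2345 429)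
 .e))))
 .e))))
 .e))))
 .e))))
 (.a 1 [264] (.q 395 (.a 1 [] (.d 393 392 392 393 397)
 (.a 1 [392] (.d 397 393 393 394 398)
 (.a 0 [393,397] (.q 331 (.a 1 [] (.d 299 1291 267 1323 427)
 (.a 1 [267] (.d 427 1323 299 1355 459)
 (.a 0 [299,427] (.q 332 (.a 1 [] (.d 301 3342 270 3373 425)
 (.a 1 [270] (.d 425 3373 301 3404 456)
 (.a 0 [301,425] (.q 330 (.a 1 [] (.d 329 328 328 329 333)
 (.a 1 [328] (.d 333 329 329 330 334)
 (.a 1 [329] (.d 429 2345 297 2378 462)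
 .e))))
 .e))))
 .e))))
 .e))))
 (.a 1 [270] (.q 395 (.a 1 [] (.d 393 392 392 393 397)
 (.a 1 [392] (.d 397 393 393 394 398)
 (.a 0 [393,397] (.q 331 (.a 1 [] (.d 299 1291 267 1323 427)
 (.a 1 [267] (.d 427 1323 299 1355 459)
 (.a 0 [299,427] (.q 330 (.a 1 [] (.d 297 2312 264 2345 429)
 (.a 1 [264] (.d 429 2345 297 2378 462)
 (.a 0 [297,429] (.q 332 (.a 1 [] (.d 329 328 328 329 333)
 (.a 1 [328] (.d 333 329 329 330 334)
 (.a 1 [329] (.d 425 3373 301 3404 456)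
 .e))))
 .e))))
 .e))))
 .e))))
 (.a 1 [361] (.q 395 (.a 1 [] (.d 393 392 392 393 397)
 (.a 1 [392] (.d 397 393 393 394 398)
 (.a 0 [393,397] (.q 331 (.a 1 [] (.d 299 1291 267 1323 427)
 (.a 1 [267] (.d 427 1323 299 1355 459)
 (.a 0 [299,427] (.q 330 (.a 1 [] (.d 297 2312 264 2345 429)
 (.a 1 [264] (.d 429 2345 297 2378 462)
 (.a 0 [297,429] (.q 329 (.a 1 [] (.d 328 327 327 328 332)
 (.a 1 [327] (.d 332 328 328 329 333)
 (.a 1 [328] (.r 332 329 333 (.d 425 3373 301 3404 456))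
 (.a 0 [332] (.q 362 (.a 1 [] (.d 298 1290 266 1322 426)
 (.a 1 [266] (.d 426 1322 298 1354 458)
 (.a 1 [298] (.d 296 2311 263 2344 428)
 .e))))
 .e)))))
 .e))))
 .e))))
 .e))))
 (.a 1 [328] (.q 395 (.a 1 [] (.d 393 392 392 393 397)
 (.a 1 [392] (.d 397 393 393 394 398)
 (.a 0 [393,397] (.q 331 (.a 1 [] (.d 299 1291 267 1323 427)
 (.a 1 [267] (.d 427 1323 299 1355 459)
 (.a 0 [299,427] (.q 330 (.a 1 [] (.d 297 2312 264 2345 429)
 (.a 1 [264] (.d 429 2345 297 2378 462)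
 (.a 0 [297,429] (.q 332 (.a 1 [] (.d 333 329 329 330 334)
 (.a 1 [329] (.d 425 3373 301 3404 456)
 .e)))
 .e))))
 .e))))
 .e))))
 (.a 1 [267] (.q 395 (.a 1 [] (.d 393 392 392 393 397)
 (.a 1 [392] (.d 397 393 393 394 398)
 (.a 0 [393,397] (.q 330 (.a 1 [] (.d 297 2312 264 2345 429)
 (.a 1 [264] (.d 429 2345 297 2378 462)
 (.a 0 [297,429] (.q 331 (.a 1 [] (.d 427 1323 299 1355 459)
 (.a 0 [299,427,459] (.q 332 (.a 1 [] (.d 329 328 328 329 333)
 (.a 1 [328] (.d 333 329 329 330 334)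
 (.a 1 [329] (.d 301 3342 270 3373 425)
 .e))))
 .e)))
 .e))))
 .e))))
 (.a 1 [459] (.q 395 (.a 1 [] (.d 393 392 392 393 397)
 (.a 1 [392] (.d 397 393 393 394 398)
 (.a 0 [393,397] (.q 330 (.a 1 [] (.d 297 2312 264 2345 429)
 (.a 1 [264] (.d 429 2345 297 2378 462)
 (.a 0 [297,429] (.q 331 (.a 1 [] (.d 299 1291 267 1323 427)
 (.a 0 [267,299,427] (.q 332 (.a 1 [] (.d 329 328 328 329 333)
 (.a 1 [328] (.d 333 329 329 330 334)
 (.a 1 [329] (.d 301 3342 270 3373 425)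
 .e))))
 .e)))
 .e))))
 .e))))
 .e))))))))))))))))))))))))))))))))) (by decide +kernel)

theorem r428 : S (Nat.lor X2 (bits [403, 428])) := S.of (.q 365 (.a 1 [] (.q 429 (.a 1 [] (.d 330 2345 297 2378 462)
 (.a 1 [297] (.d 462 2378 330 2411 495)
 (.a 0 [330,462] (.q 397 (.a 1 [] (.d 333 1325 301 1357 461)
 (.a 1 [301] (.d 461 1357 333 1389 493)
 (.a 0 [333,461] (.q 395 (.a 1 [] (.d 394 393 393 394 398)
 (.a 1 [393] (.d 398 394 394 395 399)
 (.a 0 [394,398] (.q 427 (.a 1 [] (.d 331 1323 299 1355 459)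
 (.a 1 [299] (.d 459 1355 331 1387 491)
 (.a 1 [331] (.d 334 3375 303 3406 458)
 .e))))
 .e))))
 .e))))
 .e))))
 (.a 0 [427] (.q 364 (.a 1 [] (.d 362 361 361 362 366)
 (.a 1 [366] (.q 429 (.a 1 [] (.d 330 2345 297 2378 462)
 (.a 1 [462] (.q 397 (.a 1 [] (.d 333 1325 301 1357 461)
 (.a 1 [301] (.d 461 1357 333 1389 493)
 (.a 0 [333,461] (.q 394 (.a 1 [] (.d 395 393 393 394 398)
 (.a 0 [393,395,398] (.r 362 361 361 (.r 330 2345 297 (.d 426 1322 298 1354 458)))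
 .e)))
 .e))))
 (.a 1 [330] (.q 397 (.a 1 [] (.d 333 1325 301 1357 461)
 (.a 1 [301] (.d 461 1357 333 1389 493)
 (.a 0 [333,461] (.q 331 (.a 1 [] (.d 298 2313 265 2346 430)
 (.a 1 [265] (.d 430 2346 298 2379 463)
 (.a 0 [298,430] (.r 362 361 361 (.q 300 (.a 1 [] (.d 269 3310 238 3341 393)
 (.a 1 [238] (.d 393 3341 269 3372 424)
 (.a 0 [269,393] (.q 398 (.a 1 [] (.d 395 394 394 395 399)
 (.a 1 [394] (.d 399 395 395 396 400)
 (.a 1 [395] (.r 332 1292 268 (.d 431 2347 299 2380 464))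
 .e))))
 .e)))))
 .e))))
 .e))))
 (.a 1 [297] (.d 462 2378 330 2411 495)
 .e)))))
 (.a 1 [362] (.q 429 (.a 1 [] (.d 330 2345 297 2378 462)
 (.a 1 [297] (.d 462 2378 330 2411 495)
 (.a 0 [330,462] (.r 367 363 366 (.q 398 (.a 1 [] (.d 336 3377 305 3408 460)
 (.a 1 [305] (.d 460 3408 336 3439 491)
 (.a 0 [336,460] (.q 397 (.a 1 [] (.d 395 394 394 395 399)
 (.a 1 [394] (.d 399 395 395 396 400)
 (.a 1 [395] (.d 333 1325 301 1357 461)
 .e))))
 .e)))))
 .e))))
 (.a 1 [361] (.d 366 362 362 363 367)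
 .e)))))
 (.a 0 [429] (.q 427 (.a 1 [] (.d 334 3375 303 3406 458)
 (.a 1 [334] (.q 395 (.a 1 [] (.d 331 1323 299 1355 459)
 (.a 1 [459] (.q 398 (.a 1 [] (.d 397 394 394 395 399)
 (.a 1 [394] (.r 299 1323 331 (.d 332 2314 266 2347 431))
 .e)))
 (.a 1 [331] (.q 394 (.a 1 [] (.d 393 392 392 393 397)
 (.a 1 [392] (.d 397 393 393 394 398)
 (.a 0 [393,397] (.q 361 (.a 1 [] (.d 328 2343 295 2376 460)
 (.a 1 [295] (.d 460 2376 328 2409 493)
 (.a 1 [328] (.r 362 361 364 (.r 458 3437 489 (.d 426 1354 330 1386 490)))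
 .e))))
 .e))))
 .e))))
 (.a 1 [458] (.q 395 (.a 1 [] (.d 331 1323 299 1355 459)
 (.a 1 [299] (.d 459 1355 331 1387 491)
 (.a 0 [331,459] (.q 366 (.a 1 [] (.d 364 362 362 363 367)
 (.a 0 [362,364,367] (.q 398 (.a 1 [] (.d 397 394 394 395 399)
 (.a 1 [394] (.r 334 3375 303 (.d 430 1326 302 1358 462))
 .e)))
 .e)))
 .e))))
 (.a 1 [303] (.d 458 3406 334 3437 489)
 .e)))))
 (.a 1 [330] (.q 364 (.a 1 [] (.d 362 361 361 362 366)
 (.a 1 [362] (.q 334 (.a 1 [] (.d 303 3344 272 3375 427)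
 (.a 1 [272] (.d 427 3375 303 3406 458)
 (.a 0 [303,427] (.r 367 363 366 (.q 301 (.a 1 [] (.d 268 2283 235 2316 400)
 (.a 1 [235] (.d 400 2316 268 2349 433)
 (.a 1 [400] (.r 268 2283 235 (.r 332 1292 300 (.d 394 3342 270 3373 425)))
 (.a 0 [268] (.q 397 (.a 1 [] (.d 333 1293 269 1325 429)
 (.a 1 [269] (.r 429 1325 333 (.r 400 2349 433 (.r 398 396 399 (.d 460 3408 336 3439 491))))
 (.a 1 [333] (.r 400 2349 433 (.r 398 396 399 (.r 394 394 395 (.d 332 3342 270 3373 425))))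
 .e))))
 .e))))))
 .e))))
 (.a 1 [366] (.q 427 (.a 1 [] (.d 334 3375 303 3406 458)
 (.a 1 [303] (.d 458 3406 334 3437 489)
 (.a 0 [334,458] (.r 361 361 362 (.q 394 (.a 1 [] (.d 328 2343 295 2376 460)
 (.a 1 [295] (.d 460 2376 328 2409 493)
 (.a 0 [328,460] (.q 395 (.a 1 [] (.d 393 392 392 393 397)
 (.a 1 [392] (.d 397 393 393 394 398)
 (.a 1 [393] (.d 331 1323 299 1355 459)
 .e))))
 .e)))))
 .e))))
 (.a 1 [361] (.d 366 362 362 363 367)
 .e)))))
 (.a 1 [334] (.q 364 (.a 1 [] (.d 362 361 361 362 366)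
 (.a 1 [366] (.q 330 (.a 1 [] (.d 297 2312 264 2345 429)
 (.a 1 [264] (.d 429 2345 297 2378 462)
 (.a 0 [297,429] (.r 361 361 362 (.q 299 (.a 1 [] (.d 268 3309 237 3340 392)
 (.a 1 [237] (.d 392 3340 268 3371 423)
 (.a 1 [392] (.r 268 3309 237 (.r 332 1292 300 (.d 398 2314 266 2347 431)))
 (.a 0 [268] (.q 395 (.a 1 [] (.d 331 1291 267 1323 427)
 (.a 1 [267] (.r 427 1323 331 (.r 392 3371 423 (.r 394 392 393 (.d 460 2376 328 2409 493))))
 (.a 1 [331] (.r 392 3371 423 (.r 394 392 393 (.r 398 394 397 (.d 332 2314 266 2347 431))))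
 .e))))
 .e))))))
 .e))))
 (.a 1 [362] (.q 429 (.a 1 [] (.d 330 2345 297 2378 462)
 (.a 1 [297] (.d 462 2378 330 2411 495)
 (.a 0 [330,462] (.r 367 363 366 (.q 398 (.a 1 [] (.d 336 3377 305 3408 460)
 (.a 1 [305] (.d 460 3408 336 3439 491)
 (.a 0 [336,460] (.q 397 (.a 1 [] (.d 395 394 394 395 399)
 (.a 1 [394] (.d 399 395 395 396 400)
 (.a 1 [395] (.d 333 1325 301 1357 461)
 .e))))
 .e)))))
 .e))))
 (.a 1 [361] (.d 366 362 362 363 367)
 .e)))))
 (.a 0 [362] (.q 427 (.a 1 [] (.d 334 3375 303 3406 458)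
 (.a 1 [458] (.q 395 (.a 1 [] (.d 331 1323 299 1355 459)
 (.a 1 [459] (.q 398 (.a 1 [] (.d 397 394 394 395 399)
 (.a 1 [394] (.r 299 1323 331 (.d 332 2314 266 2347 431))
 .e)))
 (.a 1 [331] (.q 429 (.a 1 [] (.d 330 2345 297 2378 462)
 (.a 1 [297] (.d 462 2378 330 2411 495)
 (.a 0 [330,462] (.q 394 (.a 1 [] (.d 393 392 392 393 397)
 (.a 1 [392] (.d 397 393 393 394 398)
 (.a 1 [393] (.r 397 394 398 (.d 461 1357 333 1389 493))
 (.a 0 [397] (.q 460 (.a 1 [] (.d 361 2376 328 2409 493)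
 (.a 1 [328] (.d 493 2409 361 2442 526)
 (.a 1 [361] (.r 491 1387 459 (.d 522 3470 398 3501 553))
 .e))))
 .e)))))
 .e))))
 (.a 1 [299] (.d 459 1355 331 1387 491)
 .e)))))
 (.a 1 [334] (.q 395 (.a 1 [] (.d 331 1323 299 1355 459)
 (.a 1 [299] (.d 459 1355 331 1387 491)
 (.a 0 [331,459] (.q 397 (.a 1 [] (.d 394 393 393 394 398)
 (.a 1 [393] (.d 398 394 394 395 399)
 (.a 0 [394,398] (.q 429 (.a 1 [] (.d 333 1325 301 1357 461)
 (.a 1 [301] (.d 461 1357 333 1389 493)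
 (.a 1 [333] (.d 330 2345 297 2378 462)
 .e))))
 .e))))
 .e))))
 .e))))
 (.a 0 [366] (.q 429 (.a 1 [] (.d 330 2345 297 2378 462)
 (.a 1 [462] (.q 397 (.a 1 [] (.d 333 1325 301 1357 461)
 (.a 1 [461] (.q 394 (.a 1 [] (.d 395 393 393 394 398)
 (.a 1 [393] (.r 398 394 395 (.r 301 1325 333 (.d 332 3342 270 3373 425)))
 (.a 1 [395] (.r 301 1325 333 (.d 332 3342 270 3373 425))
 .e))))
 (.a 1 [333] (.q 427 (.a 1 [] (.d 334 3375 303 3406 458)
 (.a 1 [303] (.d 458 3406 334 3437 489)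
 (.a 0 [334,458] (.q 398 (.a 1 [] (.d 395 394 394 395 399)
 (.a 1 [394] (.d 399 395 395 396 400)
 (.a 1 [399] (.r 395 394 394 (.d 459 1355 331 1387 491))
 (.a 0 [395] (.q 460 (.a 1 [] (.d 367 3408 336 3439 491)
 (.a 1 [336] (.d 491 3439 367 3470 522)
 (.a 1 [367] (.r 493 1389 461 (.d 526 2442 394 2475 559))
 .e))))
 .e)))))
 .e))))
 (.a 1 [301] (.d 461 1357 333 1389 493)
 .e)))))
 (.a 1 [330] (.q 397 (.a 1 [] (.d 333 1325 301 1357 461)
 (.a 1 [301] (.d 461 1357 333 1389 493)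
 (.a 0 [333,461] (.q 395 (.a 1 [] (.d 394 393 393 394 398)
 (.a 1 [393] (.d 398 394 394 395 399)
 (.a 0 [394,398] (.q 427 (.a 1 [] (.d 331 1323 299 1355 459)
 (.a 1 [299] (.d 459 1355 331 1387 491)
 (.a 1 [331] (.d 334 3375 303 3406 458)
 .e))))
 .e))))
 .e))))
 .e))))
 (.a 1 [458] (.q 330 (.a 1 [] (.d 297 2312 264 2345 429)
 (.a 1 [429] (.q 362 (.a 1 [] (.d 364 361 361 362 366)
 (.a 0 [361,364,366] (.q 266 (.a 1 [] (.d 298 1258 234 1290 394)
 (.a 0 [234,298,394] (.q 299 (.a 1 [] (.d 332 2281 233 2314 398)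
 (.a 0 [233,332,398] (.q 267 (.a 1 [] (.d 331 1259 235 1291 395)
 (.a 1 [235] (.r 264 2312 297 (.d 265 263 263 264 268))
 .e)))
 .e)))
 .e)))
 .e)))
 (.a 1 [297] (.q 362 (.a 1 [] (.d 364 361 361 362 366)
 (.a 0 [361,364,366] (.q 394 (.a 1 [] (.d 298 1290 266 1322 426)
 (.a 0 [266,298,426] (.q 397 (.a 1 [] (.d 395 393 393 394 398)
 (.a 1 [393] (.r 429 2378 462 (.d 461 1357 333 1389 493))
 .e)))
 .e)))
 .e)))
 .e))))
 (.a 1 [462] (.q 334 (.a 1 [] (.d 303 3344 272 3375 427)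
 (.a 1 [427] (.q 366 (.a 1 [] (.d 364 362 362 363 367)
 (.a 0 [362,364,367] (.q 270 (.a 1 [] (.d 302 1262 238 1294 398)
 (.a 0 [238,302,398] (.q 301 (.a 1 [] (.d 332 3311 239 3342 394)
 (.a 0 [239,332,394] (.q 269 (.a 1 [] (.d 333 1261 237 1293 397)
 (.a 1 [237] (.r 272 3344 303 (.d 271 268 268 269 273))
 .e)))
 .e)))
 .e)))
 .e)))
 (.a 1 [303] (.q 366 (.a 1 [] (.d 364 362 362 363 367)
 (.a 0 [362,364,367] (.q 398 (.a 1 [] (.d 302 1294 270 1326 430)
 (.a 0 [270,302,430] (.q 395 (.a 1 [] (.d 397 394 394 395 399)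
 (.a 1 [394] (.r 427 3406 458 (.d 459 1355 331 1387 491))
 .e)))
 .e)))
 .e)))
 .e))))
 (.a 0 [395] (.q 330 (.a 1 [] (.d 297 2312 264 2345 429)
 (.a 0 [429] (.q 427 (.a 1 [] (.d 334 3375 303 3406 458)
 (.a 1 [334] (.r 458 3437 489 (.q 362 (.a 1 [] (.d 364 361 361 362 366)
 (.a 1 [364] (.q 266 (.a 1 [] (.d 394 1290 298 1354 426)
 (.a 1 [426] (.d 298 1258 234 1290 394)
 (.a 0 [298,394] (.q 299 (.a 1 [] (.d 332 2281 233 2314 398)
 (.a 0 [233,332,398] (.q 359 (.a 1 [] (.r 361 359 360 (.d 392 3340 268 3371 423))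
 (.a 1 [268] (.r 297 2312 264 (.d 328 3307 235 3338 390))
 .e)))
 .e)))
 .e))))
 (.a 1 [361] (.q 266 (.a 1 [] (.d 394 1290 298 1354 426)
 (.a 1 [426] (.d 298 1258 234 1290 394)
 (.a 0 [298,394] (.q 332 (.a 1 [] (.d 299 2281 233 2314 398)
 (.a 0 [233,299,398] (.q 331 (.a 1 [] (.d 329 328 328 329 333)
 (.a 1 [328] (.r 364 362 366 (.r 300 1292 268 (.d 393 3341 269 3372 424)))
 .e)))
 .e)))
 .e))))
 (.a 1 [366] (.r 394 1354 426 (.r 361 361 364 (.d 460 2376 328 2409 493)))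
 .e))))))
 (.a 1 [458] (.q 362 (.a 1 [] (.d 364 361 361 362 366)
 (.a 0 [361,364,366] (.q 266 (.a 1 [] (.d 298 1258 234 1290 394)
 (.a 0 [234,298,394] (.q 332 (.a 1 [] (.d 299 2281 233 2314 398)
 (.a 0 [233,299,398] (.q 328 (.a 1 [] (.r 297 2312 264 (.d 359 3307 235 3338 390))
 (.a 1 [235] (.r 331 328 329 (.d 334 3375 303 330 333))
 (.a 1 [297] (.r 334 3375 303 (.d 331 328 329 330 333))
 .e))))
 .e)))
 .e)))
 .e)))
 (.a 1 [303] (.d 458 3406 334 3437 489)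
 .e)))))
 (.a 0 [297] (.r 429 2378 462 (.q 362 (.a 1 [] (.d 364 361 361 362 366)
 (.a 0 [364] (.q 333 (.a 1 [] (.d 397 1325 301 1357 461)
 (.a 1 [461] (.r 301 1325 397 (.q 332 (.a 1 [] (.d 331 329 329 330 334)
 (.a 1 [494] (.q 527 (.a 1 [] (.d 270 3311 239 3342 394)
 (.a 1 [239] (.d 394 3342 270 3373 425)
 (.a 1 [270] (.d 331 329 329 330 334)
 .e))))
 (.a 1 [527] (.q 494 (.a 1 [] (.d 331 329 329 330 334)
 (.a 1 [331] (.d 270 3311 239 3342 394)
 .e)))
 (.a 1 [331] (.d 270 3311 239 3342 394)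
 .e))))))
 (.a 1 [397] (.q 334 (.a 1 [] (.d 303 3344 272 3375 427)
 (.a 1 [272] (.d 427 3375 303 3406 458)
 (.a 1 [303] (.r 332 330 331 (.r 458 3406 427 (.r 394 1354 426 (.d 425 3373 301 3404 456))))
 (.a 0 [427] (.q 298 (.a 1 [] (.d 266 1258 234 1290 394)
 (.a 1 [234] (.d 394 1290 266 1322 426)
 (.a 1 [266] (.r 332 330 331 (.r 394 1322 426 (.d 425 3373 301 3404 456)))
 (.a 1 [394] (.r 332 330 331 (.r 266 1258 234 (.d 299 2281 233 2314 398)))
 .e)))))
 .e)))))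
 (.a 1 [301] (.q 334 (.a 1 [] (.d 303 3344 272 3375 427)
 (.a 1 [272] (.d 427 3375 303 3406 458)
 (.a 1 [303] (.r 332 330 331 (.r 458 3406 427 (.r 394 1354 426 (.r 266 1290 298 (.d 299 2281 233 2314 398)))))
 (.a 0 [427] (.q 266 (.a 1 [] (.d 298 1258 234 1290 394)
 (.a 1 [234] (.r 332 330 331 (.d 299 2281 233 2314 398))
 .e)))
 .e)))))
 .e)))))
 (.a 1 [361] (.q 394 (.a 1 [] (.d 298 1290 266 1322 426)
 (.a 1 [266] (.d 426 1322 298 1354 458)
 (.a 1 [298] (.r 458 1354 426 (.d 427 3406 334 3437 489))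
 (.a 0 [426] (.q 332 (.a 1 [] (.d 301 3342 270 3373 425)
 (.a 1 [270] (.d 425 3373 301 3404 456)
 (.a 1 [301] (.r 266 1290 298 (.d 299 2281 233 2314 398))
 .e))))
 .e)))))
 .e)))))
 (.a 1 [264] (.d 429 2345 297 2378 462)
 .e)))))
 (.a 0 [397] (.q 330 (.a 1 [] (.d 297 2312 264 2345 429)
 (.a 1 [429] (.q 427 (.a 1 [] (.d 334 3375 303 3406 458)
 (.a 1 [334] (.q 362 (.a 1 [] (.d 364 361 361 362 366)
 (.a 1 [366] (.r 361 361 364 (.r 458 3437 489 (.r 394 1354 426 (.d 460 2376 328 2409 493))))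
 (.a 0 [361,364] (.q 331 (.a 1 [] (.d 395 1323 299 1355 459)
 (.a 1 [299] (.r 458 3437 489 (.r 394 1354 426 (.r 395 1355 459 (.r 393 392 392 (.d 424 3372 300 3403 455)))))
 (.a 1 [459] (.r 299 1323 395 (.r 458 3437 489 (.r 394 1354 426 (.r 266 1290 298 (.d 332 2281 233 2314 398)))))
 (.a 0 [395] (.q 329 (.a 1 [] (.d 328 327 327 328 332)
 (.a 1 [327] (.d 332 328 328 329 333)
 (.a 0 [328,332] (.q 300 (.a 1 [] (.d 269 3310 238 3341 393)
 (.a 1 [238] (.d 393 3341 269 3372 424)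
 (.a 0 [269,393] (.q 298 (.a 1 [] (.d 266 1258 234 1290 394)
 (.a 1 [234] (.d 394 1290 266 1322 426)
 (.a 1 [266] (.r 297 2312 264 (.d 299 296 296 297 301))
 .e))))
 .e))))
 .e))))
 .e)))))
 .e))))
 (.a 1 [458] (.q 331 (.a 1 [] (.d 395 1323 299 1355 459)
 (.a 1 [459] (.r 299 1323 395 (.r 334 3375 303 (.r 332 330 333 (.d 398 2314 266 2347 431))))
 (.a 0 [299,395] (.q 362 (.a 1 [] (.d 364 361 361 362 366)
 (.a 1 [361] (.r 334 3375 303 (.r 332 330 333 (.r 364 362 366 (.r 300 1292 268 (.d 393 3341 269 3372 424)))))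
 (.a 1 [366] (.r 361 361 364 (.r 334 3375 303 (.r 332 330 333 (.r 328 328 329 (.d 394 2343 295 2376 460)))))
 (.a 0 [364] (.q 298 (.a 1 [] (.d 266 1258 234 1290 394)
 (.a 1 [234] (.d 394 1290 266 1322 426)
 (.a 0 [266,394] (.q 393 (.a 1 [] (.d 300 3341 269 3372 424)
 (.a 1 [269] (.d 424 3372 300 3403 455)
 (.a 0 [300,424] (.q 329 (.a 1 [] (.d 328 327 327 328 332)
 (.a 1 [327] (.d 332 328 328 329 333)
 (.a 1 [328] (.r 297 2312 264 (.d 361 1289 265 1321 425))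
 .e))))
 .e))))
 .e))))
 .e)))))
 .e))))
 .e))))
 (.a 1 [297] (.q 427 (.a 1 [] (.d 334 3375 303 3406 458)
 (.a 1 [334] (.q 459 (.a 1 [] (.d 395 1355 331 1387 491)
 (.a 0 [331,395,491] (.q 362 (.a 1 [] (.d 364 361 361 362 366)
 (.a 1 [361] (.r 458 3437 489 (.r 394 1354 426 (.r 462 2378 429 (.r 460 458 461 (.r 456 456 457 (.d 425 3404 332 3435 487))))))
 (.a 1 [364] (.r 458 3437 489 (.r 394 1354 426 (.r 462 2378 429 (.r 460 458 461 (.d 493 2409 361 2442 526)))))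
 .e))))
 .e)))
 (.a 1 [458] (.q 366 (.a 1 [] (.d 364 362 362 363 367)
 (.a 0 [362,364,367] (.q 331 (.a 1 [] (.d 395 1323 299 1355 459)
 (.a 1 [299] (.r 334 3375 303 (.r 332 330 333 (.r 462 2378 429 (.r 398 1358 430 (.r 270 1294 302 (.d 301 3311 239 3342 394))))))
 (.a 1 [395] (.r 334 3375 303 (.r 332 330 333 (.r 462 2378 429 (.r 398 1358 430 (.d 431 2347 299 2380 464)))))
 .e))))
 .e)))
 .e))))
 (.a 1 [264] (.d 429 2345 297 2378 462)
 .e)))))
 (.a 0 [394] (.q 429 (.a 1 [] (.d 330 2345 297 2378 462)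
 (.a 0 [462] (.q 364 (.a 1 [] (.d 362 361 361 362 366)
 (.a 1 [366] (.q 397 (.a 1 [] (.d 333 1325 301 1357 461)
 (.a 1 [333] (.q 430 (.a 1 [] (.d 331 2346 298 2379 463)
 (.a 1 [298] (.d 463 2379 331 2412 496)
 (.a 0 [331,463] (.q 399 (.a 1 [] (.d 398 395 395 396 400)
 (.a 1 [395] (.r 461 1389 493 (.d 492 3440 368 3471 523))
 .e)))
 .e))))
 (.a 1 [461] (.q 395 (.a 1 [] (.r 333 1325 301 (.d 426 3374 302 3405 457))
 (.a 1 [457] (.r 333 1325 301 (.d 302 3343 271 3374 426))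
 (.a 0 [301,302,333,426] (.q 427 (.a 1 [] (.d 331 1323 299 1355 459)
 (.a 1 [299] (.d 459 1355 331 1387 491)
 (.a 1 [331] (.d 334 3375 303 3406 458)
 .e))))
 .e))))
 .e))))
 (.a 1 [362] (.q 334 (.a 1 [] (.d 303 3344 272 3375 427)
 (.a 1 [272] (.d 427 3375 303 3406 458)
 (.a 0 [303,427] (.q 333 (.a 1 [] (.d 397 1325 301 1357 461)
 (.a 1 [461] (.r 330 2345 297 (.r 332 330 331 (.r 301 1325 397 (.r 268 1292 300 (.d 367 363 366 2316 400)))))
 (.a 0 [301,397] (.q 302 (.a 1 [] (.d 271 3312 240 3343 395)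
 (.a 1 [240] (.d 395 3343 271 3374 426)
 (.a 1 [271] (.r 366 363 367 (.d 398 1294 270 1326 430))
 .e))))
 .e))))
 .e))))
 (.a 1 [361] (.d 366 362 362 363 367)
 .e)))))
 (.a 1 [330] (.q 397 (.a 1 [] (.d 333 1325 301 1357 461)
 (.a 1 [301] (.d 461 1357 333 1389 493)
 (.a 0 [333,461] (.q 334 (.a 1 [] (.d 303 3344 272 3375 427)
 (.a 1 [272] (.d 427 3375 303 3406 458)
 (.a 0 [303,427] (.q 398 (.a 1 [] (.d 399 395 395 396 400)
 (.a 1 [395] (.r 462 2411 495 (.r 366 1358 430 (.d 364 362 362 363 367)))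
 .e)))
 .e))))
 .e))))
 .e))))
 (.a 0 [398] (.q 427 (.a 1 [] (.d 334 3375 303 3406 458)
 (.a 1 [458] (.q 395 (.a 1 [] (.d 331 1323 299 1355 459)
 (.a 1 [459] (.q 330 (.a 1 [] (.d 297 2312 264 2345 429)
 (.a 1 [264] (.d 429 2345 297 2378 462)
 (.a 0 [297,429] (.q 362 (.a 1 [] (.d 364 361 361 362 366)
 (.a 1 [366] (.r 361 361 364 (.r 299 1323 331 (.d 392 3340 268 3371 423)))
 (.a 0 [361,364] (.q 394 (.a 1 [] (.d 393 392 392 393 397)
 (.a 1 [392] (.d 298 1290 266 1322 426)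
 .e)))
 .e))))
 .e))))
 (.a 1 [331] (.q 364 (.a 1 [] (.d 362 361 361 362 366)
 (.a 1 [361] (.d 366 362 362 363 367)
 (.a 0 [362,366] (.q 426 (.a 1 [] (.d 333 3374 302 3405 457)
 (.a 1 [302] (.d 457 3405 333 3436 488)
 (.a 0 [333,457] (.q 393 (.a 1 [] (.d 394 392 392 393 397)
 (.a 1 [392] (.r 459 1387 491 (.d 492 2408 360 2441 525))
 .e)))
 .e))))
 .e))))
 .e))))
 (.a 1 [334] (.q 395 (.a 1 [] (.d 331 1323 299 1355 459)
 (.a 1 [299] (.d 459 1355 331 1387 491)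
 (.a 0 [331,459] (.q 330 (.a 1 [] (.d 297 2312 264 2345 429)
 (.a 1 [264] (.d 429 2345 297 2378 462)
 (.a 0 [297,429] (.q 394 (.a 1 [] (.d 393 392 392 393 397)
 (.a 1 [392] (.r 458 3437 489 (.r 362 1354 426 (.d 364 361 361 362 366)))
 .e)))
 .e))))
 .e))))
 .e))))
 (.a 0 [426] (.q 427 (.a 1 [] (.d 334 3375 303 3406 458)
 (.a 1 [458] (.q 395 (.a 1 [] (.d 331 1323 299 1355 459)
 (.a 1 [459] (.q 398 (.a 1 [] (.d 397 394 394 395 399)
 (.a 1 [394] (.r 299 1323 331 (.d 332 2314 266 2347 431))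
 .e)))
 (.a 1 [331] (.q 394 (.a 1 [] (.d 393 392 392 393 397)
 (.a 1 [392] (.d 397 393 393 394 398)
 (.a 0 [393,397] (.q 361 (.a 1 [] (.d 328 2343 295 2376 460)
 (.a 1 [295] (.d 460 2376 328 2409 493)
 (.a 0 [328,460] (.q 330 (.a 1 [] (.d 297 2312 264 2345 429)
 (.a 1 [264] (.d 429 2345 297 2378 462)
 (.a 0 [297,429] (.q 332 (.a 1 [] (.d 301 3342 270 3373 425)
 (.a 1 [270] (.d 425 3373 301 3404 456)
 (.a 0 [301,425] (.q 299 (.a 1 [] (.d 266 2281 233 2314 398)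
 (.a 1 [233] (.d 392 3340 268 3371 423)
 .e)))
 .e))))
 .e))))
 .e))))
 .e))))
 (.a 1 [299] (.d 459 1355 331 1387 491)
 .e)))))
 (.a 1 [334] (.q 395 (.a 1 [] (.d 331 1323 299 1355 459)
 (.a 1 [299] (.d 459 1355 331 1387 491)
 (.a 0 [331,459] (.q 397 (.a 1 [] (.d 394 393 393 394 398)
 (.a 1 [393] (.d 398 394 394 395 399)
 (.a 0 [394,398] (.q 429 (.a 1 [] (.d 333 1325 301 1357 461)
 (.a 1 [301] (.d 461 1357 333 1389 493)
 (.a 1 [333] (.d 330 2345 297 2378 462)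
 .e))))
 .e))))
 .e))))
 .e))))
 (.a 0 [430] (.q 429 (.a 1 [] (.d 330 2345 297 2378 462)
 (.a 1 [462] (.q 397 (.a 1 [] (.d 333 1325 301 1357 461)
 (.a 1 [461] (.q 394 (.a 1 [] (.d 395 393 393 394 398)
 (.a 1 [393] (.r 398 394 395 (.r 301 1325 333 (.d 332 3342 270 3373 425)))
 (.a 1 [395] (.r 301 1325 333 (.d 332 3342 270 3373 425))
 .e))))
 (.a 1 [333] (.q 398 (.a 1 [] (.d 395 394 394 395 399)
 (.a 1 [394] (.d 399 395 395 396 400)
 (.a 0 [395,399] (.q 367 (.a 1 [] (.d 336 3377 305 3408 460)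
 (.a 1 [305] (.d 460 3408 336 3439 491)
 (.a 0 [336,460] (.q 334 (.a 1 [] (.d 303 3344 272 3375 427)
 (.a 1 [272] (.d 427 3375 303 3406 458)
 (.a 0 [303,427] (.q 332 (.a 1 [] (.d 299 2314 266 2347 431)
 (.a 1 [266] (.d 431 2347 299 2380 464)
 (.a 0 [299,431] (.q 301 (.a 1 [] (.d 268 2283 235 2316 400)
 (.a 1 [235] (.d 394 3342 270 3373 425)
 .e)))
 .e))))
 .e))))
 .e))))
 .e))))
 (.a 1 [301] (.d 461 1357 333 1389 493)
 .e)))))
 (.a 1 [330] (.q 397 (.a 1 [] (.d 333 1325 301 1357 461)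
 (.a 1 [301] (.d 461 1357 333 1389 493)
 (.a 0 [333,461] (.q 395 (.a 1 [] (.d 394 393 393 394 398)
 (.a 1 [393] (.d 398 394 394 395 399)
 (.a 0 [394,398] (.q 427 (.a 1 [] (.d 331 1323 299 1355 459)
 (.a 1 [299] (.d 459 1355 331 1387 491)
 (.a 1 [331] (.d 334 3375 303 3406 458)
 .e))))
 .e))))
 .e))))
 .e))))
 (.a 1 [460] (.q 364 (.a 1 [] (.d 362 361 361 362 366)
 (.a 1 [362] (.q 429 (.a 1 [] (.d 330 2345 297 2378 462)
 (.a 1 [297] (.d 462 2378 330 2411 495)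
 (.a 0 [330,462] (.q 334 (.a 1 [] (.d 303 3344 272 3375 427)
 (.a 1 [272] (.d 427 3375 303 3406 458)
 (.a 0 [303,427] (.q 333 (.a 1 [] (.d 397 1325 301 1357 461)
 (.a 1 [461] (.r 301 1325 397 (.r 367 363 366 (.d 400 2316 268 2349 433)))
 (.a 0 [301,397] (.q 302 (.a 1 [] (.d 271 3312 240 3343 395)
 (.a 1 [240] (.d 395 3343 271 3374 426)
 (.a 1 [271] (.r 366 363 367 (.d 398 1294 270 1326 430))
 .e))))
 .e))))
 .e))))
 .e))))
 (.a 1 [366] (.q 427 (.a 1 [] (.d 334 3375 303 3406 458)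
 (.a 1 [303] (.d 458 3406 334 3437 489)
 (.a 0 [334,458] (.q 330 (.a 1 [] (.d 297 2312 264 2345 429)
 (.a 1 [264] (.d 429 2345 297 2378 462)
 (.a 0 [297,429] (.q 331 (.a 1 [] (.d 395 1323 299 1355 459)
 (.a 1 [459] (.r 299 1323 395 (.r 361 361 362 (.d 392 3340 268 3371 423)))
 (.a 0 [299,395] (.q 298 (.a 1 [] (.d 265 2280 232 2313 397)
 (.a 1 [232] (.d 397 2313 265 2346 430)
 (.a 1 [265] (.r 362 361 361 (.d 394 1290 266 1322 426))
 .e))))
 .e))))
 .e))))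
 .e))))
 (.a 1 [361] (.d 366 362 362 363 367)
 .e)))))
 (.a 1 [332] (.q 427 (.a 1 [] (.d 334 3375 303 3406 458)
 (.a 1 [303] (.d 458 3406 334 3437 489)
 (.a 0 [334,458] (.q 330 (.a 1 [] (.d 297 2312 264 2345 429)
 (.a 1 [264] (.d 429 2345 297 2378 462)
 (.a 0 [297,429] (.q 362 (.a 1 [] (.d 364 361 361 362 366)
 (.a 0 [361,364,366] (.q 394 (.a 1 [] (.d 298 1290 266 1322 426)
 (.a 0 [266,298,426] (.q 395 (.a 1 [] (.d 393 392 392 393 397)
 (.a 1 [392] (.d 397 393 393 394 398)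
 (.a 1 [393] (.d 331 1323 299 1355 459)
 .e))))
 .e)))
 .e)))
 .e))))
 .e))))
 (.a 1 [361] (.q 427 (.a 1 [] (.d 334 3375 303 3406 458)
 (.a 1 [303] (.d 458 3406 334 3437 489)
 (.a 0 [334,458] (.q 395 (.a 1 [] (.d 331 1323 299 1355 459)
 (.a 1 [299] (.d 459 1355 331 1387 491)
 (.a 0 [331,459] (.q 397 (.a 1 [] (.d 394 393 393 394 398)
 (.a 1 [393] (.d 398 394 394 395 399)
 (.a 0 [394,398] (.q 429 (.a 1 [] (.d 333 1325 301 1357 461)
 (.a 1 [301] (.d 461 1357 333 1389 493)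
 (.a 1 [333] (.d 330 2345 297 2378 462)
 .e))))
 .e))))
 .e))))
 .e))))
 (.a 1 [299] (.q 429 (.a 1 [] (.d 330 2345 297 2378 462)
 (.a 1 [297] (.d 462 2378 330 2411 495)
 (.a 0 [330,462] (.q 397 (.a 1 [] (.d 333 1325 301 1357 461)
 (.a 1 [301] (.d 461 1357 333 1389 493)
 (.a 0 [333,461] (.q 395 (.a 1 [] (.d 394 393 393 394 398)
 (.a 1 [393] (.d 398 394 394 395 399)
 (.a 0 [394,398] (.q 427 (.a 1 [] (.d 459 1355 331 1387 491)
 (.a 1 [331] (.d 458 3406 334 3437 489)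
 .e)))
 .e))))
 .e))))
 .e))))
 (.a 1 [301] (.q 427 (.a 1 [] (.d 334 3375 303 3406 458)
 (.a 1 [303] (.d 458 3406 334 3437 489)
 (.a 0 [334,458] (.q 395 (.a 1 [] (.d 331 1323 299 1355 459)
 (.a 1 [299] (.d 459 1355 331 1387 491)
 (.a 0 [331,459] (.q 397 (.a 1 [] (.d 394 393 393 394 398)
 (.a 1 [393] (.d 398 394 394 395 399)
 (.a 0 [394,398] (.q 429 (.a 1 [] (.d 461 1357 333 1389 493)
 (.a 1 [333] (.d 462 2378 330 2411 495)
 .e)))
 .e))))
 .e))))
 .e))))
 (.a 1 [331] (.q 429 (.a 1 [] (.d 330 2345 297 2378 462)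
 (.a 1 [297] (.d 462 2378 330 2411 495)
 (.a 0 [330,462] (.q 334 (.a 1 [] (.d 303 3344 272 3375 427)
 (.a 1 [272] (.d 427 3375 303 3406 458)
 (.a 0 [303,427] (.q 366 (.a 1 [] (.d 364 362 362 363 367)
 (.a 0 [362,364,367] (.q 398 (.a 1 [] (.d 302 1294 270 1326 430)
 (.a 0 [270,302,430] (.q 397 (.a 1 [] (.d 395 394 394 395 399)
 (.a 1 [394] (.d 399 395 395 396 400)
 (.a 1 [395] (.d 333 1325 301 1357 461)
 .e))))
 .e)))
 .e)))
 .e))))
 .e))))
 (.a 1 [333] (.q 427 (.a 1 [] (.d 334 3375 303 3406 458)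
 (.a 1 [303] (.d 458 3406 334 3437 489)
 (.a 0 [334,458] (.q 330 (.a 1 [] (.d 297 2312 264 2345 429)
 (.a 1 [264] (.d 429 2345 297 2378 462)
 (.a 0 [297,429] (.q 362 (.a 1 [] (.d 364 361 361 362 366)
 (.a 0 [361,364,366] (.q 394 (.a 1 [] (.d 298 1290 266 1322 426)
 (.a 0 [266,298,426] (.q 395 (.a 1 [] (.d 393 392 392 393 397)
 (.a 1 [392] (.d 397 393 393 394 398)
 (.a 1 [393] (.d 331 1323 299 1355 459)
 .e))))
 .e)))
 .e)))
 .e))))
 .e))))
 (.a 1 [459] (.q 429 (.a 1 [] (.d 330 2345 297 2378 462)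
 (.a 1 [297] (.d 462 2378 330 2411 495)
 (.a 0 [330,462] (.q 366 (.a 1 [] (.d 364 362 362 363 367)
 (.a 0 [362,364,367] (.q 334 (.a 1 [] (.d 303 3344 272 3375 427)
 (.a 1 [272] (.d 427 3375 303 3406 458)
 (.a 0 [303,427] (.q 398 (.a 1 [] (.d 302 1294 270 1326 430)
 (.a 0 [270,302,430] (.q 397 (.a 1 [] (.d 395 394 394 395 399)
 (.a 1 [394] (.d 399 395 395 396 400)
 (.a 1 [395] (.d 333 1325 301 1357 461)
 .e))))
 .e)))
 .e))))
 .e)))
 .e))))
 (.a 1 [491] (.q 429 (.a 1 [] (.d 330 2345 297 2378 462)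
 (.a 1 [297] (.d 462 2378 330 2411 495)
 (.a 0 [330,462] (.q 397 (.a 1 [] (.d 333 1325 301 1357 461)
 (.a 1 [301] (.d 461 1357 333 1389 493)
 (.a 0 [333,461] (.q 395 (.a 1 [] (.d 394 393 393 394 398)
 (.a 1 [393] (.d 398 394 394 395 399)
 (.a 0 [394,398] (.q 427 (.a 1 [] (.d 331 1323 299 1355 459)
 (.a 1 [299] (.d 458 3406 334 3437 489)
 .e)))
 .e))))
 .e))))
 .e))))
 (.a 1 [329] (.q 427 (.a 1 [] (.d 334 3375 303 3406 458)
 (.a 1 [303] (.d 458 3406 334 3437 489)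
 (.a 0 [334,458] (.q 395 (.a 1 [] (.d 331 1323 299 1355 459)
 (.a 1 [299] (.d 459 1355 331 1387 491)
 (.a 0 [331,459] (.q 397 (.a 1 [] (.d 394 393 393 394 398)
 (.a 1 [393] (.d 398 394 394 395 399)
 (.a 0 [394,398] (.q 429 (.a 1 [] (.d 333 1325 301 1357 461)
 (.a 1 [301] (.d 461 1357 333 1389 493)
 (.a 1 [333] (.d 330 2345 297 2378 462)
 .e))))
 .e))))
 .e))))
 .e))))
 .e)))))))))))))))))))))))))) (by decide +kernel)

theorem r429 : S (Nat.lor X2 (bits [403, 429])) := S.of (.q 364 (.a 1 [] (.q 365 (.a 1 [] (.d 362 361 361 362 366)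
 (.a 1 [361] (.d 366 362 362 363 367)
 (.a 0 [362,366] (.q 332 (.a 1 [] (.d 300 1292 268 1324 428)
 (.a 1 [268] (.d 428 1324 300 1356 460)
 (.a 0 [300,428] (.q 427 (.a 1 [] (.d 334 3375 303 3406 458)
 (.a 1 [303] (.d 458 3406 334 3437 489)
 (.a 0 [334,458] (.q 394 (.a 1 [] (.d 301 3342 270 3373 425)
 (.a 1 [270] (.d 425 3373 301 3404 456)
 (.a 0 [301,425] (.q 395 (.a 1 [] (.d 393 392 392 393 397)
 (.a 1 [392] (.d 397 393 393 394 398)
 (.a 1 [393] (.d 331 1323 299 1355 459)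
 .e))))
 .e))))
 .e))))
 .e))))
 .e))))
 (.a 0 [365] (.q 332 (.a 1 [] (.d 300 1292 268 1324 428)
 (.a 1 [428] (.q 301 (.a 1 [] (.d 270 3311 239 3342 394)
 (.a 1 [394] (.r 268 1292 300 (.q 334 (.a 1 [] (.d 235 2250 202 2283 367)
 (.a 1 [202] (.d 367 2283 235 2316 400)
 (.a 0 [235,367] (.q 333 (.a 1 [] (.d 331 330 330 331 335)
 (.a 1 [330] (.d 335 331 331 332 336)
 (.a 0 [331,335] (.q 271 (.a 1 [] (.d 302 3312 240 3343 395)
 (.a 1 [240] (.r 270 3311 239 (.d 269 267 267 268 272))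
 .e)))
 .e))))
 .e)))))
 (.a 1 [270] (.r 268 1292 300 (.q 334 (.a 1 [] (.d 235 2250 202 2283 367)
 (.a 1 [202] (.d 367 2283 235 2316 400)
 (.a 0 [235,367] (.q 331 (.a 1 [] (.d 333 330 330 331 335)
 (.a 0 [330,333,335] (.q 397 (.a 1 [] (.d 298 2313 265 2346 430)
 (.a 1 [265] (.d 430 2346 298 2379 463)
 (.a 1 [298] (.r 394 3373 425 (.d 395 393 393 394 398))
 .e))))
 .e)))
 .e)))))
 (.a 1 [239] (.d 394 3342 270 3373 425)
 .e)))))
 (.a 1 [300] (.q 394 (.a 1 [] (.d 301 3342 270 3373 425)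
 (.a 1 [270] (.d 425 3373 301 3404 456)
 (.a 0 [301,425] (.q 397 (.a 1 [] (.d 395 393 393 394 398)
 (.a 0 [393,395,398] (.q 298 (.a 1 [] (.d 331 2313 265 2346 430)
 (.a 0 [265,331,430] (.q 362 (.a 1 [] (.d 330 1290 266 1322 426)
 (.a 0 [266,330,426] (.r 361 360 360 (.r 460 1356 428 (.d 427 2376 328 2409 493)))
 .e)))
 .e)))
 .e)))
 .e))))
 .e))))
 (.a 0 [332] (.q 365 (.a 1 [] (.d 362 361 361 362 366)
 (.a 0 [362] (.q 427 (.a 1 [] (.d 334 3375 303 3406 458)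
 (.a 1 [334] (.q 395 (.a 1 [] (.d 331 1323 299 1355 459)
 (.a 1 [331] (.q 333 (.a 1 [] (.d 302 3343 271 3374 426)
 (.a 1 [271] (.d 426 3374 302 3405 457)
 (.a 0 [302,426] (.r 366 363 367 (.r 459 1387 491 (.q 460 (.a 1 [] (.r 458 3437 489 (.d 461 457 457 458 462))
 (.a 1 [457] (.r 428 1388 492 (.d 397 3407 335 3438 490))
 .e)))))
 .e))))
 (.a 1 [459] (.q 397 (.a 1 [] (.d 394 393 393 394 398)
 (.a 1 [393] (.d 398 394 394 395 399)
 (.a 1 [394] (.r 331 1323 299 (.d 430 2346 298 2379 463))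
 .e))))
 .e))))
 (.a 1 [458] (.q 395 (.a 1 [] (.d 331 1323 299 1355 459)
 (.a 1 [299] (.d 459 1355 331 1387 491)
 (.a 0 [331,459] (.q 398 (.a 1 [] (.d 397 394 394 395 399)
 (.a 0 [394,397,399] (.q 426 (.a 1 [] (.d 333 3374 302 3405 457)
 (.a 1 [302] (.d 457 3405 333 3436 488)
 (.a 0 [333,457] (.r 366 363 367 (.r 334 3375 303 (.d 430 1326 302 1358 462)))
 .e))))
 .e)))
 .e))))
 (.a 1 [303] (.d 458 3406 334 3437 489)
 .e)))))
 (.a 1 [366] (.q 427 (.a 1 [] (.d 334 3375 303 3406 458)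
 (.a 1 [303] (.d 458 3406 334 3437 489)
 (.a 0 [334,458] (.r 361 361 362 (.q 394 (.a 1 [] (.d 328 2343 295 2376 460)
 (.a 1 [295] (.d 460 2376 328 2409 493)
 (.a 0 [328,460] (.q 395 (.a 1 [] (.d 393 392 392 393 397)
 (.a 1 [392] (.d 397 393 393 394 398)
 (.a 1 [393] (.d 331 1323 299 1355 459)
 .e))))
 .e)))))
 .e))))
 (.a 1 [361] (.d 366 362 362 363 367)
 .e)))))
 (.a 0 [428] (.q 365 (.a 1 [] (.d 362 361 361 362 366)
 (.a 1 [362] (.q 427 (.a 1 [] (.d 334 3375 303 3406 458)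
 (.a 1 [458] (.q 395 (.a 1 [] (.d 331 1323 299 1355 459)
 (.a 1 [299] (.d 459 1355 331 1387 491)
 (.a 0 [331,459] (.q 398 (.a 1 [] (.d 397 394 394 395 399)
 (.a 0 [394,397,399] (.r 366 363 367 (.r 334 3375 303 (.d 430 1326 302 1358 462)))
 .e)))
 .e))))
 (.a 1 [334] (.q 395 (.a 1 [] (.d 331 1323 299 1355 459)
 (.a 1 [299] (.d 459 1355 331 1387 491)
 (.a 0 [331,459] (.q 333 (.a 1 [] (.d 302 3343 271 3374 426)
 (.a 1 [271] (.d 426 3374 302 3405 457)
 (.a 0 [302,426] (.r 366 363 367 (.q 300 (.a 1 [] (.d 267 2282 234 2315 399)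
 (.a 1 [234] (.d 399 2315 267 2348 432)
 (.a 0 [267,399] (.q 394 (.a 1 [] (.d 393 392 392 393 397)
 (.a 1 [392] (.d 397 393 393 394 398)
 (.a 1 [393] (.r 332 1292 268 (.d 425 3373 301 3404 456))
 .e))))
 .e)))))
 .e))))
 .e))))
 (.a 1 [303] (.d 458 3406 334 3437 489)
 .e)))))
 (.a 1 [366] (.q 427 (.a 1 [] (.d 334 3375 303 3406 458)
 (.a 1 [303] (.d 458 3406 334 3437 489)
 (.a 0 [334,458] (.r 361 361 362 (.q 394 (.a 1 [] (.d 328 2343 295 2376 460)
 (.a 1 [295] (.d 460 2376 328 2409 493)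
 (.a 0 [328,460] (.q 395 (.a 1 [] (.d 393 392 392 393 397)
 (.a 1 [392] (.d 397 393 393 394 398)
 (.a 1 [393] (.d 331 1323 299 1355 459)
 .e))))
 .e)))))
 .e))))
 (.a 1 [361] (.d 366 362 362 363 367)
 .e)))))
 (.a 0 [395] (.q 365 (.a 1 [] (.d 362 361 361 362 366)
 (.a 0 [362] (.q 428 (.a 1 [] (.d 332 1324 300 1356 460)
 (.a 1 [332] (.r 366 363 367 (.q 397 (.a 1 [] (.d 335 3376 304 3407 459)
 (.a 1 [335] (.q 331 (.a 1 [] (.d 298 2313 265 2346 430)
 (.a 1 [265] (.d 430 2346 298 2379 463)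
 (.a 0 [298,430] (.q 458 (.a 1 [] (.d 427 3406 334 3437 489)
 (.a 0 [334,427,489] (.r 460 1388 492 (.r 459 3438 490 (.d 461 457 457 458 462)))
 .e)))
 .e))))
 (.a 1 [459] (.q 430 (.a 1 [] (.d 331 2346 298 2379 463)
 (.a 1 [298] (.d 463 2379 331 2412 496)
 (.a 0 [331,463] (.q 334 (.a 1 [] (.d 398 1326 302 1358 462)
 (.a 1 [302] (.d 427 3375 303 3406 458)
 .e)))
 .e))))
 .e)))))
 (.a 1 [460] (.r 332 1324 300 (.q 398 (.a 1 [] (.d 299 2314 266 2347 431)
 (.a 1 [266] (.d 431 2347 299 2380 464)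
 (.a 0 [299,431] (.q 334 (.a 1 [] (.d 303 3344 272 3375 427)
 (.a 1 [272] (.d 427 3375 303 3406 458)
 (.a 1 [303] (.r 366 363 367 (.d 430 1326 302 1358 462))
 .e))))
 .e)))))
 (.a 1 [300] (.d 460 1356 332 1388 492)
 .e)))))
 (.a 1 [366] (.q 332 (.a 1 [] (.d 300 1292 268 1324 428)
 (.a 1 [268] (.d 428 1324 300 1356 460)
 (.a 0 [300,428] (.q 427 (.a 1 [] (.d 334 3375 303 3406 458)
 (.a 1 [303] (.d 458 3406 334 3437 489)
 (.a 0 [334,458] (.q 394 (.a 1 [] (.d 301 3342 270 3373 425)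
 (.a 1 [270] (.d 425 3373 301 3404 456)
 (.a 1 [301] (.r 361 361 362 (.d 460 2376 328 2409 493))
 .e))))
 .e))))
 .e))))
 (.a 1 [361] (.d 366 362 362 363 367)
 .e)))))
 (.a 1 [366] (.q 300 (.a 1 [] (.d 332 1292 268 1324 428)
 (.a 1 [332] (.q 362 (.a 1 [] (.d 361 360 360 361 365)
 (.a 0 [360,361,365] (.q 331 (.a 1 [] (.d 269 3310 238 3341 393)
 (.a 1 [238] (.d 393 3341 269 3372 424)
 (.a 0 [269,393] (.q 397 (.a 1 [] (.d 298 2313 265 2346 430)
 (.a 1 [265] (.d 430 2346 298 2379 463)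
 (.a 0 [298,430] (.q 395 (.a 1 [] (.d 398 394 394 395 399)
 (.a 1 [394] (.d 427 1323 299 1355 459)
 .e)))
 .e))))
 .e))))
 .e)))
 (.a 1 [428] (.q 362 (.a 1 [] (.d 361 360 360 361 365)
 (.a 0 [360,361,365] (.q 331 (.a 1 [] (.d 269 3310 238 3341 393)
 (.a 1 [238] (.d 393 3341 269 3372 424)
 (.a 0 [269,393] (.q 299 (.a 1 [] (.d 267 1259 235 1291 395)
 (.a 1 [235] (.d 395 1291 267 1323 427)
 (.a 0 [267,395] (.q 298 (.a 1 [] (.d 297 296 296 297 301)
 (.a 1 [296] (.d 301 297 297 298 302)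
 (.a 1 [297] (.d 265 2280 232 2313 397)
 .e))))
 .e))))
 .e))))
 .e)))
 (.a 1 [268] (.q 362 (.a 1 [] (.d 361 360 360 361 365)
 (.a 0 [360,361,365] (.q 331 (.a 1 [] (.d 269 3310 238 3341 393)
 (.a 1 [238] (.d 393 3341 269 3372 424)
 (.a 0 [269,393] (.q 395 (.a 1 [] (.d 299 1291 267 1323 427)
 (.a 1 [267] (.d 427 1323 299 1355 459)
 (.a 1 [299] (.r 428 1324 332 (.d 461 2377 329 2410 494))
 .e))))
 .e))))
 .e)))
 .e)))))
 (.a 0 [397] (.q 365 (.a 1 [] (.d 362 361 361 362 366)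
 (.a 1 [362] (.q 332 (.a 1 [] (.d 300 1292 268 1324 428)
 (.a 1 [428] (.q 427 (.a 1 [] (.d 334 3375 303 3406 458)
 (.a 1 [303] (.d 458 3406 334 3437 489)
 (.a 0 [334,458] (.q 395 (.a 1 [] (.d 331 1323 299 1355 459)
 (.a 1 [299] (.d 459 1355 331 1387 491)
 (.a 1 [459] (.r 299 1323 331 (.d 398 2314 266 2347 431))
 (.a 0 [331] (.q 394 (.a 1 [] (.d 301 3342 270 3373 425)
 (.a 1 [270] (.d 425 3373 301 3404 456)
 (.a 0 [301,425] (.q 361 (.a 1 [] (.d 328 2343 295 2376 460)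
 (.a 1 [295] (.d 460 2376 328 2409 493)
 (.a 0 [328,460] (.q 299 (.a 1 [] (.d 266 2281 233 2314 398)
 (.a 1 [233] (.d 398 2314 266 2347 431)
 (.a 1 [266] (.r 268 1292 300 (.d 330 3309 237 3340 392))
 .e))))
 .e))))
 .e))))
 .e)))))
 .e))))
 (.a 1 [300] (.q 299 (.a 1 [] (.d 266 2281 233 2314 398)
 (.a 1 [233] (.d 398 2314 266 2347 431)
 (.a 0 [266,398] (.q 331 (.a 1 [] (.d 267 1259 235 1291 395)
 (.a 1 [235] (.d 395 1291 267 1323 427)
 (.a 1 [267] (.r 427 1323 395 (.d 458 3406 334 3437 489))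
 (.a 0 [395] (.q 334 (.a 1 [] (.d 333 330 330 331 335)
 (.a 1 [330] (.d 427 3375 303 3406 458)
 .e)))
 .e)))))
 .e))))
 (.a 1 [268] (.d 428 1324 300 1356 460)
 .e)))))
 (.a 1 [366] (.q 428 (.a 1 [] (.d 332 1324 300 1356 460)
 (.a 1 [300] (.d 460 1356 332 1388 492)
 (.a 0 [332,460] (.q 427 (.a 1 [] (.d 334 3375 303 3406 458)
 (.a 1 [303] (.d 458 3406 334 3437 489)
 (.a 0 [334,458] (.q 395 (.a 1 [] (.d 331 1323 299 1355 459)
 (.a 1 [299] (.d 459 1355 331 1387 491)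
 (.a 1 [331] (.r 362 361 361 (.d 461 2377 329 2410 494))
 .e))))
 .e))))
 .e))))
 (.a 1 [361] (.d 366 362 362 363 367)
 .e)))))
 (.a 0 [427] (.q 428 (.a 1 [] (.d 332 1324 300 1356 460)
 (.a 0 [332] (.q 362 (.a 1 [] (.d 361 360 360 361 365)
 (.a 1 [365] (.q 395 (.a 1 [] (.d 329 2344 296 2377 461)
 (.a 1 [461] (.q 397 (.a 1 [] (.d 394 393 393 394 398)
 (.a 1 [393] (.d 398 394 394 395 399)
 (.a 0 [394] (.q 331 (.a 1 [] (.d 298 2313 265 2346 430)
 (.a 1 [265] (.d 430 2346 298 2379 463)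
 (.a 0 [298,430] (.q 459 (.a 1 [] (.d 366 3407 335 3438 490)
 (.a 1 [335] (.d 490 3438 366 3469 521)
 (.a 0 [366,490] (.q 426 (.a 1 [] (.d 333 3374 302 3405 457)
 (.a 1 [302] (.d 457 3405 333 3436 488)
 (.a 1 [333] (.r 492 1388 460 (.d 360 360 361 2408 393))
 .e))))
 .e))))
 .e))))
 (.a 0 [398] (.r 393 393 394 (.r 361 360 360 (.r 329 2344 296 (.d 425 1321 297 1353 457))))
 .e)))))
 (.a 1 [329] (.q 426 (.a 1 [] (.d 333 3374 302 3405 457)
 (.a 1 [302] (.d 457 3405 333 3436 488)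
 (.a 0 [333,457] (.r 360 360 361 (.r 492 1388 460 (.r 393 2408 459 (.d 394 392 392 393 397))))
 .e))))
 .e))))
 (.a 1 [361] (.q 395 (.a 1 [] (.d 329 2344 296 2377 461)
 (.a 1 [296] (.d 461 2377 329 2410 494)
 (.a 0 [329,461] (.q 397 (.a 1 [] (.d 394 393 393 394 398)
 (.a 1 [393] (.d 398 394 394 395 399)
 (.a 1 [394] (.r 366 362 365 (.d 459 3407 335 3438 490))
 .e))))
 .e))))
 .e))))
 (.a 1 [460] (.r 332 1324 300 (.q 394 (.a 1 [] (.d 301 3342 270 3373 425)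
 (.a 1 [270] (.d 425 3373 301 3404 456)
 (.a 0 [301,425] (.q 362 (.a 1 [] (.d 361 360 360 361 365)
 (.a 1 [360] (.d 365 361 361 362 366)
 (.a 0 [361,365] (.q 397 (.a 1 [] (.d 395 393 393 394 398)
 (.a 1 [393] (.r 395 394 398 (.d 461 2377 329 2410 494))
 (.a 1 [398] (.r 395 393 393 (.d 461 2377 329 2410 494))
 (.a 0 [395] (.q 298 (.a 1 [] (.d 330 1290 266 1322 426)
 (.a 1 [266] (.d 331 2313 265 2346 430)
 .e)))
 .e)))))
 .e))))
 .e)))))
 (.a 1 [300] (.d 460 1356 332 1388 492)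
 .e)))))
 (.a 1 [331] (.q 332 (.a 1 [] (.d 300 1292 268 1324 428)
 (.a 1 [300] (.q 394 (.a 1 [] (.d 301 3342 270 3373 425)
 (.a 1 [270] (.d 425 3373 301 3404 456)
 (.a 0 [301,425] (.q 361 (.a 1 [] (.d 362 360 360 361 365)
 (.a 1 [360] (.r 365 361 362 (.r 460 1356 428 (.d 427 2376 328 2409 493)))
 (.a 1 [362] (.r 460 1356 428 (.d 427 2376 328 2409 493))
 .e))))
 .e))))
 (.a 1 [428] (.q 365 (.a 1 [] (.d 362 361 361 362 366)
 (.a 1 [361] (.d 366 362 362 363 367)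
 (.a 0 [362,366] (.q 427 (.a 1 [] (.d 334 3375 303 3406 458)
 (.a 1 [303] (.d 458 3406 334 3437 489)
 (.a 0 [334,458] (.q 394 (.a 1 [] (.d 301 3342 270 3373 425)
 (.a 1 [270] (.d 425 3373 301 3404 456)
 (.a 0 [301,425] (.q 361 (.a 1 [] (.d 328 2343 295 2376 460)
 (.a 1 [295] (.d 460 2376 328 2409 493)
 (.a 0 [328,460] (.q 299 (.a 1 [] (.d 266 2281 233 2314 398)
 (.a 1 [233] (.d 398 2314 266 2347 431)
 (.a 1 [266] (.r 268 1292 300 (.d 330 3309 237 3340 392))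
 .e))))
 .e))))
 .e))))
 .e))))
 .e))))
 .e))))
 (.a 0 [394] (.q 332 (.a 1 [] (.d 300 1292 268 1324 428)
 (.a 1 [300] (.q 365 (.a 1 [] (.d 362 361 361 362 366)
 (.a 1 [362] (.q 398 (.a 1 [] (.d 299 2314 266 2347 431)
 (.a 1 [266] (.d 431 2347 299 2380 464)
 (.a 0 [299,431] (.q 334 (.a 1 [] (.d 303 3344 272 3375 427)
 (.a 1 [272] (.d 427 3375 303 3406 458)
 (.a 1 [303] (.r 366 363 367 (.d 430 1326 302 1358 462))
 .e))))
 .e))))
 (.a 1 [366] (.q 427 (.a 1 [] (.d 334 3375 303 3406 458)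
 (.a 1 [303] (.d 458 3406 334 3437 489)
 (.a 0 [334,458] (.q 395 (.a 1 [] (.d 331 1323 299 1355 459)
 (.a 1 [299] (.d 459 1355 331 1387 491)
 (.a 1 [459] (.r 299 1323 331 (.d 398 2314 266 2347 431))
 (.a 0 [331] (.q 426 (.a 1 [] (.d 333 3374 302 3405 457)
 (.a 1 [302] (.d 457 3405 333 3436 488)
 (.a 1 [333] (.r 428 1356 460 (.r 362 361 361 (.d 461 2377 329 2410 494)))
 .e))))
 .e)))))
 .e))))
 .e))))
 (.a 1 [428] (.q 365 (.a 1 [] (.d 362 361 361 362 366)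
 (.a 1 [361] (.d 366 362 362 363 367)
 (.a 0 [362,366] (.q 299 (.a 1 [] (.d 266 2281 233 2314 398)
 (.a 1 [233] (.d 398 2314 266 2347 431)
 (.a 0 [266,398] (.q 330 (.a 1 [] (.r 268 1292 300 (.d 361 3309 237 3340 392))
 (.a 1 [392] (.r 268 1292 300 (.d 237 3278 206 3309 361))
 (.a 0 [237,268,300,361] (.q 331 (.a 1 [] (.d 329 328 328 329 333)
 (.a 1 [328] (.d 333 329 329 330 334)
 (.a 1 [329] (.d 267 1259 235 1291 395)
 .e))))
 .e))))
 .e))))
 .e))))
 (.a 1 [268] (.d 428 1324 300 1356 460)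
 .e)))))
 (.a 1 [333] (.q 365 (.a 1 [] (.d 362 361 361 362 366)
 (.a 1 [366] (.q 427 (.a 1 [] (.d 334 3375 303 3406 458)
 (.a 1 [303] (.d 458 3406 334 3437 489)
 (.a 0 [334,458] (.q 460 (.a 1 [] (.d 428 1356 332 1388 492)
 (.a 1 [332] (.r 361 361 362 (.d 394 2376 328 2409 493))
 .e)))
 .e))))
 (.a 1 [362] (.q 332 (.a 1 [] (.d 300 1292 268 1324 428)
 (.a 1 [268] (.d 428 1324 300 1356 460)
 (.a 0 [300,428] (.q 427 (.a 1 [] (.d 334 3375 303 3406 458)
 (.a 1 [303] (.d 458 3406 334 3437 489)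
 (.a 0 [334,458] (.q 394 (.a 1 [] (.d 301 3342 270 3373 425)
 (.a 1 [270] (.d 425 3373 301 3404 456)
 (.a 0 [301,425] (.q 395 (.a 1 [] (.d 393 392 392 393 397)
 (.a 1 [392] (.d 397 393 393 394 398)
 (.a 1 [393] (.d 331 1323 299 1355 459)
 .e))))
 .e))))
 .e))))
 .e))))
 (.a 1 [361] (.d 366 362 362 363 367)
 .e)))))
 (.a 1 [398] (.q 365 (.a 1 [] (.d 362 361 361 362 366)
 (.a 1 [366] (.q 332 (.a 1 [] (.d 300 1292 268 1324 428)
 (.a 1 [268] (.d 428 1324 300 1356 460)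
 (.a 0 [300,428] (.q 394 (.a 1 [] (.d 301 3342 270 3373 425)
 (.a 1 [270] (.d 425 3373 301 3404 456)
 (.a 0 [301,425] (.q 427 (.a 1 [] (.d 334 3375 303 3406 458)
 (.a 1 [303] (.d 458 3406 334 3437 489)
 (.a 1 [334] (.r 361 361 362 (.d 460 2376 328 2409 493))
 .e))))
 .e))))
 .e))))
 (.a 1 [362] (.q 332 (.a 1 [] (.d 300 1292 268 1324 428)
 (.a 1 [268] (.d 428 1324 300 1356 460)
 (.a 0 [300,428] (.q 427 (.a 1 [] (.d 334 3375 303 3406 458)
 (.a 1 [303] (.d 458 3406 334 3437 489)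
 (.a 0 [334,458] (.q 394 (.a 1 [] (.d 301 3342 270 3373 425)
 (.a 1 [270] (.d 425 3373 301 3404 456)
 (.a 0 [301,425] (.q 395 (.a 1 [] (.d 393 392 392 393 397)
 (.a 1 [392] (.d 459 1355 331 1387 491)
 .e)))
 .e))))
 .e))))
 .e))))
 .e))))
 (.a 0 [430] (.q 365 (.a 1 [] (.d 362 361 361 362 366)
 (.a 0 [362] (.q 427 (.a 1 [] (.d 334 3375 303 3406 458)
 (.a 1 [458] (.q 395 (.a 1 [] (.d 331 1323 299 1355 459)
 (.a 1 [331] (.q 426 (.a 1 [] (.d 333 3374 302 3405 457)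
 (.a 1 [302] (.d 457 3405 333 3436 488)
 (.a 0 [333,457] (.q 393 (.a 1 [] (.d 394 392 392 393 397)
 (.a 1 [392] (.r 459 1387 491 (.d 492 2408 360 2441 525))
 .e)))
 .e))))
 (.a 1 [459] (.q 332 (.a 1 [] (.d 300 1292 268 1324 428)
 (.a 1 [268] (.d 428 1324 300 1356 460)
 (.a 1 [300] (.r 299 1323 331 (.d 398 2314 266 2347 431))
 .e))))
 .e))))
 (.a 1 [334] (.q 395 (.a 1 [] (.d 331 1323 299 1355 459)
 (.a 1 [299] (.d 459 1355 331 1387 491)
 (.a 0 [331,459] (.q 398 (.a 1 [] (.d 397 394 394 395 399)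
 (.a 0 [394,397,399] (.q 332 (.a 1 [] (.d 300 1292 268 1324 428)
 (.a 1 [268] (.d 428 1324 300 1356 460)
 (.a 1 [300] (.d 299 2314 266 2347 431)
 .e))))
 .e)))
 .e))))
 .e))))
 (.a 1 [366] (.q 428 (.a 1 [] (.d 332 1324 300 1356 460)
 (.a 1 [300] (.d 460 1356 332 1388 492)
 (.a 0 [332,460] (.r 362 361 361 (.q 395 (.a 1 [] (.d 329 2344 296 2377 461)
 (.a 1 [296] (.d 461 2377 329 2410 494)
 (.a 0 [329,461] (.q 427 (.a 1 [] (.d 331 1323 299 1355 459)
 (.a 1 [299] (.d 459 1355 331 1387 491)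
 (.a 1 [331] (.d 334 3375 303 3406 458)
 .e))))
 .e)))))
 .e))))
 (.a 1 [361] (.d 366 362 362 363 367)
 .e)))))
 (.a 0 [301] (.q 365 (.a 1 [] (.d 362 361 361 362 366)
 (.a 1 [362] (.q 332 (.a 1 [] (.d 300 1292 268 1324 428)
 (.a 1 [300] (.q 299 (.a 1 [] (.d 266 2281 233 2314 398)
 (.a 1 [233] (.d 398 2314 266 2347 431)
 (.a 0 [266,398] (.q 331 (.a 1 [] (.d 267 1259 235 1291 395)
 (.a 1 [235] (.d 395 1291 267 1323 427)
 (.a 1 [267] (.r 427 1323 395 (.d 458 3406 334 3437 489))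
 (.a 0 [395] (.q 334 (.a 1 [] (.d 333 330 330 331 335)
 (.a 1 [330] (.d 427 3375 303 3406 458)
 .e)))
 .e)))))
 .e))))
 (.a 1 [428] (.q 427 (.a 1 [] (.d 334 3375 303 3406 458)
 (.a 1 [303] (.d 458 3406 334 3437 489)
 (.a 0 [334,458] (.q 395 (.a 1 [] (.d 331 1323 299 1355 459)
 (.a 1 [299] (.d 459 1355 331 1387 491)
 (.a 1 [459] (.r 299 1323 331 (.d 398 2314 266 2347 431))
 (.a 0 [331] (.q 398 (.a 1 [] (.d 397 394 394 395 399)
 (.a 1 [394] (.d 431 2347 299 2380 464)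
 .e)))
 .e)))))
 .e))))
 (.a 1 [268] (.d 428 1324 300 1356 460)
 .e)))))
 (.a 1 [366] (.q 332 (.a 1 [] (.d 300 1292 268 1324 428)
 (.a 1 [268] (.d 428 1324 300 1356 460)
 (.a 0 [300,428] (.q 427 (.a 1 [] (.d 334 3375 303 3406 458)
 (.a 1 [303] (.d 458 3406 334 3437 489)
 (.a 0 [334,458] (.q 395 (.a 1 [] (.d 331 1323 299 1355 459)
 (.a 1 [299] (.d 459 1355 331 1387 491)
 (.a 1 [459] (.r 299 1323 331 (.d 398 2314 266 2347 431))
 (.a 0 [331] (.q 398 (.a 1 [] (.d 397 394 394 395 399)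
 (.a 1 [394] (.d 431 2347 299 2380 464)
 .e)))
 .e)))))
 .e))))
 .e))))
 .e))))
 (.a 1 [302] (.q 365 (.a 1 [] (.d 362 361 361 362 366)
 (.a 1 [366] (.q 460 (.a 1 [] (.d 428 1356 332 1388 492)
 (.a 0 [332,428,492] (.q 427 (.a 1 [] (.d 334 3375 303 3406 458)
 (.a 1 [303] (.d 458 3406 334 3437 489)
 (.a 1 [334] (.r 361 361 362 (.d 394 2376 328 2409 493))
 .e))))
 .e)))
 (.a 1 [362] (.q 332 (.a 1 [] (.d 300 1292 268 1324 428)
 (.a 1 [268] (.d 428 1324 300 1356 460)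
 (.a 0 [300,428] (.q 301 (.a 1 [] (.d 270 3311 239 3342 394)
 (.a 1 [239] (.d 394 3342 270 3373 425)
 (.a 0 [270,394] (.q 334 (.a 1 [] (.d 303 3344 272 3375 427)
 (.a 1 [272] (.d 427 3375 303 3406 458)
 (.a 1 [303] (.r 367 363 366 (.d 400 2316 268 2349 433))
 .e))))
 .e))))
 .e))))
 .e))))
 (.a 0 [334] (.q 332 (.a 1 [] (.d 300 1292 268 1324 428)
 (.a 1 [428] (.q 365 (.a 1 [] (.d 362 361 361 362 366)
 (.a 1 [366] (.q 394 (.a 1 [] (.d 301 3342 270 3373 425)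
 (.a 1 [270] (.d 425 3373 301 3404 456)
 (.a 0 [301,425] (.q 427 (.a 1 [] (.r 361 361 362 (.d 460 2376 328 2409 493))
 (.a 1 [493] (.r 361 361 362 (.d 328 2343 295 2376 460))
 (.a 0 [328,361,362,460] (.q 395 (.a 1 [] (.d 393 392 392 393 397)
 (.a 1 [392] (.d 397 393 393 394 398)
 (.a 1 [393] (.d 331 1323 299 1355 459)
 .e))))
 .e))))
 .e))))
 (.a 1 [362] (.q 301 (.a 1 [] (.d 270 3311 239 3342 394)
 (.a 1 [239] (.d 394 3342 270 3373 425)
 (.a 0 [270,394] (.q 299 (.a 1 [] (.d 266 2281 233 2314 398)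
 (.a 1 [233] (.d 398 2314 266 2347 431)
 (.a 1 [266] (.r 300 1292 268 (.d 302 298 298 299 303))
 .e))))
 .e))))
 .e))))
 (.a 1 [300] (.q 365 (.a 1 [] (.d 362 361 361 362 366)
 (.a 1 [361] (.d 366 362 362 363 367)
 (.a 0 [362,366] (.q 394 (.a 1 [] (.d 301 3342 270 3373 425)
 (.a 1 [270] (.d 425 3373 301 3404 456)
 (.a 0 [301,425] (.q 395 (.a 1 [] (.d 393 392 392 393 397)
 (.a 1 [392] (.d 397 393 393 394 398)
 (.a 1 [393] (.r 398 394 397 (.d 431 2347 299 2380 464))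
 (.a 0 [397] (.q 299 (.a 1 [] (.d 331 1291 267 1323 427)
 (.a 1 [267] (.d 398 2314 266 2347 431)
 .e)))
 .e)))))
 .e))))
 .e))))
 (.a 1 [268] (.d 428 1324 300 1356 460)
 .e)))))
 (.a 1 [458] (.q 332 (.a 1 [] (.d 300 1292 268 1324 428)
 (.a 1 [428] (.q 365 (.a 1 [] (.d 362 361 361 362 366)
 (.a 1 [361] (.d 366 362 362 363 367)
 (.a 0 [362,366] (.q 299 (.a 1 [] (.d 266 2281 233 2314 398)
 (.a 1 [233] (.d 398 2314 266 2347 431)
 (.a 0 [266,398] (.q 301 (.a 1 [] (.d 270 3311 239 3342 394)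
 (.a 1 [239] (.d 394 3342 270 3373 425)
 (.a 1 [270] (.r 300 1292 268 (.d 302 298 298 299 303))
 .e))))
 .e))))
 .e))))
 (.a 1 [300] (.q 365 (.a 1 [] (.d 362 361 361 362 366)
 (.a 1 [361] (.d 366 362 362 363 367)
 (.a 0 [362,366] (.q 394 (.a 1 [] (.d 301 3342 270 3373 425)
 (.a 1 [270] (.d 425 3373 301 3404 456)
 (.a 0 [301,425] (.q 395 (.a 1 [] (.d 393 392 392 393 397)
 (.a 1 [392] (.d 397 393 393 394 398)
 (.a 1 [393] (.r 398 394 397 (.d 431 2347 299 2380 464))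
 (.a 0 [397] (.q 299 (.a 1 [] (.d 331 1291 267 1323 427)
 (.a 1 [267] (.d 398 2314 266 2347 431)
 .e)))
 .e)))))
 .e))))
 .e))))
 .e))))
 (.a 1 [491] (.q 365 (.a 1 [] (.d 362 361 361 362 366)
 (.a 1 [362] (.q 332 (.a 1 [] (.d 300 1292 268 1324 428)
 (.a 1 [268] (.d 428 1324 300 1356 460)
 (.a 0 [300,428] (.q 301 (.a 1 [] (.d 270 3311 239 3342 394)
 (.a 1 [239] (.d 394 3342 270 3373 425)
 (.a 0 [270,394] (.q 334 (.a 1 [] (.d 303 3344 272 3375 427)
 (.a 1 [272] (.d 427 3375 303 3406 458)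
 (.a 1 [303] (.r 367 363 366 (.d 400 2316 268 2349 433))
 .e))))
 .e))))
 .e))))
 (.a 1 [366] (.q 332 (.a 1 [] (.d 300 1292 268 1324 428)
 (.a 1 [268] (.d 428 1324 300 1356 460)
 (.a 0 [300,428] (.q 427 (.a 1 [] (.d 334 3375 303 3406 458)
 (.a 1 [303] (.d 458 3406 334 3437 489)
 (.a 0 [334,458] (.q 394 (.a 1 [] (.d 301 3342 270 3373 425)
 (.a 1 [270] (.d 425 3373 301 3404 456)
 (.a 1 [301] (.r 361 361 362 (.d 460 2376 328 2409 493))
 .e))))
 .e))))
 .e))))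
 .e))))
 (.a 1 [270] (.q 365 (.a 1 [] (.d 362 361 361 362 366)
 (.a 1 [366] (.q 332 (.a 1 [] (.d 300 1292 268 1324 428)
 (.a 1 [268] (.d 428 1324 300 1356 460)
 (.a 0 [300,428] (.q 394 (.a 1 [] (.d 425 3373 301 3404 456)
 (.a 0 [301,425,456] (.q 427 (.a 1 [] (.d 334 3375 303 3406 458)
 (.a 1 [303] (.d 458 3406 334 3437 489)
 (.a 1 [334] (.r 361 361 362 (.d 460 2376 328 2409 493))
 .e))))
 .e)))
 .e))))
 (.a 1 [362] (.q 332 (.a 1 [] (.d 300 1292 268 1324 428)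
 (.a 1 [268] (.d 428 1324 300 1356 460)
 (.a 0 [300,428] (.q 427 (.a 1 [] (.d 334 3375 303 3406 458)
 (.a 1 [303] (.d 458 3406 334 3437 489)
 (.a 0 [334,458] (.q 398 (.a 1 [] (.d 299 2314 266 2347 431)
 (.a 1 [266] (.d 431 2347 299 2380 464)
 (.a 1 [431] (.r 299 2314 266 (.r 395 1323 331 (.d 397 394 394 395 399)))
 (.a 0 [299] (.q 395 (.a 1 [] (.d 397 394 394 395 399)
 (.a 1 [394] (.d 459 1355 331 1387 491)
 .e)))
 .e)))))
 .e))))
 .e))))
 .e))))
 (.a 1 [303] (.q 300 (.a 1 [] (.d 332 1292 268 1324 428)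
 (.a 1 [428] (.q 362 (.a 1 [] (.d 361 360 360 361 365)
 (.a 1 [360] (.d 365 361 361 362 366)
 (.a 0 [361,365] (.q 331 (.a 1 [] (.d 269 3310 238 3341 393)
 (.a 1 [238] (.d 393 3341 269 3372 424)
 (.a 0 [269,393] (.q 299 (.a 1 [] (.d 267 1259 235 1291 395)
 (.a 1 [235] (.d 395 1291 267 1323 427)
 (.a 0 [267,395] (.q 298 (.a 1 [] (.d 297 296 296 297 301)
 (.a 1 [296] (.d 301 297 297 298 302)
 (.a 1 [297] (.d 265 2280 232 2313 397)
 .e))))
 .e))))
 .e))))
 .e))))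
 (.a 1 [268] (.q 365 (.a 1 [] (.d 362 361 361 362 366)
 (.a 1 [361] (.d 366 362 362 363 367)
 (.a 0 [362,366] (.q 427 (.a 1 [] (.d 458 3406 334 3437 489)
 (.a 0 [334,458,489] (.q 395 (.a 1 [] (.d 331 1323 299 1355 459)
 (.a 1 [299] (.d 459 1355 331 1387 491)
 (.a 0 [331,459] (.q 394 (.a 1 [] (.d 393 392 392 393 397)
 (.a 1 [392] (.d 397 393 393 394 398)
 (.a 1 [393] (.r 332 1324 428 (.d 425 3373 301 3404 456))
 (.a 1 [397] (.r 428 1324 332 (.r 460 1388 492 (.d 493 2409 361 2442 526)))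
 .e)))))
 .e))))
 .e)))
 .e))))
 .e))))
 (.a 1 [393] (.q 332 (.a 1 [] (.d 300 1292 268 1324 428)
 (.a 1 [428] (.q 365 (.a 1 [] (.d 362 361 361 362 366)
 (.a 1 [361] (.d 366 362 362 363 367)
 (.a 0 [362,366] (.q 427 (.a 1 [] (.d 334 3375 303 3406 458)
 (.a 1 [303] (.d 458 3406 334 3437 489)
 (.a 0 [334,458] (.q 394 (.a 1 [] (.d 301 3342 270 3373 425)
 (.a 1 [270] (.d 425 3373 301 3404 456)
 (.a 0 [301,425] (.q 395 (.a 1 [] (.d 331 1323 299 1355 459)
 (.a 1 [299] (.d 459 1355 331 1387 491)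
 (.a 1 [331] (.r 398 394 397 (.d 431 2347 299 2380 464))
 (.a 1 [459] (.r 299 1323 331 (.d 398 394 397 2347 431))
 .e)))))
 .e))))
 .e))))
 .e))))
 (.a 1 [300] (.q 394 (.a 1 [] (.d 301 3342 270 3373 425)
 (.a 1 [270] (.d 425 3373 301 3404 456)
 (.a 0 [301,425] (.q 361 (.a 1 [] (.d 362 360 360 361 365)
 (.a 1 [360] (.r 365 361 362 (.r 460 1356 428 (.d 427 2376 328 2409 493)))
 (.a 1 [362] (.r 460 1356 428 (.d 427 2376 328 2409 493))
 .e))))
 .e))))
 .e))))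
 (.a 1 [459] (.q 365 (.a 1 [] (.d 362 361 361 362 366)
 (.a 1 [366] (.q 427 (.a 1 [] (.d 334 3375 303 3406 458)
 (.a 1 [303] (.d 458 3406 334 3437 489)
 (.a 0 [334,458] (.q 460 (.a 1 [] (.d 428 1356 332 1388 492)
 (.a 1 [332] (.r 361 361 362 (.d 394 2376 328 2409 493))
 .e)))
 .e))))
 (.a 1 [362] (.q 332 (.a 1 [] (.d 300 1292 268 1324 428)
 (.a 1 [268] (.d 428 1324 300 1356 460)
 (.a 0 [300,428] (.q 427 (.a 1 [] (.d 334 3375 303 3406 458)
 (.a 1 [303] (.d 458 3406 334 3437 489)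
 (.a 0 [334,458] (.q 394 (.a 1 [] (.d 301 3342 270 3373 425)
 (.a 1 [270] (.d 425 3373 301 3404 456)
 (.a 0 [301,425] (.q 395 (.a 1 [] (.d 393 392 392 393 397)
 (.a 1 [392] (.d 397 393 393 394 398)
 (.a 1 [393] (.r 398 394 397 (.d 299 2314 266 1323 331))
 (.a 1 [397] (.r 299 1323 331 (.d 398 2314 266 2347 431))
 .e)))))
 .e))))
 .e))))
 .e))))
 (.a 1 [361] (.d 366 362 362 363 367)
 .e)))))
 (.a 1 [461] (.q 332 (.a 1 [] (.d 300 1292 268 1324 428)
 (.a 1 [428] (.q 301 (.a 1 [] (.d 270 3311 239 3342 394)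
 (.a 1 [239] (.d 394 3342 270 3373 425)
 (.a 0 [270,394] (.r 268 1292 300 (.q 365 (.a 1 [] (.d 362 361 361 362 366)
 (.a 1 [361] (.d 366 362 362 363 367)
 (.a 1 [362] (.r 367 363 366 (.d 334 2283 235 2316 400))
 (.a 0 [366] (.q 334 (.a 1 [] (.d 235 2250 202 2283 367)
 (.a 1 [202] (.d 367 2283 235 2316 400)
 (.a 1 [235] (.d 303 3344 272 3375 427)
 .e))))
 .e))))))
 .e))))
 (.a 1 [300] (.q 365 (.a 1 [] (.d 362 361 361 362 366)
 (.a 1 [361] (.d 366 362 362 363 367)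
 (.a 0 [362,366] (.q 398 (.a 1 [] (.d 299 2314 266 2347 431)
 (.a 1 [266] (.d 431 2347 299 2380 464)
 (.a 0 [299,431] (.q 427 (.a 1 [] (.d 334 3375 303 3406 458)
 (.a 1 [303] (.d 458 3406 334 3437 489)
 (.a 0 [334,458] (.q 394 (.a 1 [] (.d 301 3342 270 3373 425)
 (.a 1 [270] (.d 425 3373 301 3404 456)
 (.a 1 [301] (.r 395 394 397 (.d 459 1355 331 1387 491))
 .e))))
 .e))))
 .e))))
 .e))))
 (.a 1 [268] (.d 428 1324 300 1356 460)
 .e)))))
 (.a 0 [431] (.q 365 (.a 1 [] (.d 362 361 361 362 366)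
 (.a 0 [362] (.q 427 (.a 1 [] (.d 334 3375 303 3406 458)
 (.a 1 [458] (.q 395 (.a 1 [] (.d 331 1323 299 1355 459)
 (.a 1 [331] (.q 426 (.a 1 [] (.d 333 3374 302 3405 457)
 (.a 1 [302] (.d 457 3405 333 3436 488)
 (.a 0 [333,457] (.q 393 (.a 1 [] (.d 394 392 392 393 397)
 (.a 1 [392] (.r 459 1387 491 (.d 492 2408 360 2441 525))
 .e)))
 .e))))
 (.a 1 [459] (.q 397 (.a 1 [] (.d 394 393 393 394 398)
 (.a 1 [393] (.d 398 394 394 395 399)
 (.a 1 [394] (.r 331 1323 299 (.d 430 2346 298 2379 463))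
 .e))))
 .e))))
 (.a 1 [334] (.q 395 (.a 1 [] (.d 331 1323 299 1355 459)
 (.a 1 [299] (.d 459 1355 331 1387 491)
 (.a 0 [331,459] (.q 333 (.a 1 [] (.d 302 3343 271 3374 426)
 (.a 1 [271] (.d 426 3374 302 3405 457)
 (.a 0 [302,426] (.q 300 (.a 1 [] (.d 332 1292 268 1324 428)
 (.a 1 [268] (.r 366 363 367 (.d 399 2315 267 2348 432))
 .e)))
 .e))))
 .e))))
 .e))))
 (.a 1 [366] (.q 428 (.a 1 [] (.d 332 1324 300 1356 460)
 (.a 1 [300] (.d 460 1356 332 1388 492)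
 (.a 0 [332,460] (.q 427 (.a 1 [] (.d 334 3375 303 3406 458)
 (.a 1 [303] (.d 458 3406 334 3437 489)
 (.a 0 [334,458] (.q 395 (.a 1 [] (.d 331 1323 299 1355 459)
 (.a 1 [299] (.d 459 1355 331 1387 491)
 (.a 1 [331] (.r 362 361 361 (.d 461 2377 329 2410 494))
 .e))))
 .e))))
 .e))))
 (.a 1 [361] (.d 366 362 362 363 367)
 .e)))))
 (.a 1 [304] (.q 365 (.a 1 [] (.d 362 361 361 362 366)
 (.a 1 [366] (.q 428 (.a 1 [] (.d 332 1324 300 1356 460)
 (.a 1 [300] (.d 460 1356 332 1388 492)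
 (.a 0 [332,460] (.q 427 (.a 1 [] (.d 334 3375 303 3406 458)
 (.a 1 [303] (.d 458 3406 334 3437 489)
 (.a 0 [334,458] (.q 395 (.a 1 [] (.d 331 1323 299 1355 459)
 (.a 1 [299] (.d 459 1355 331 1387 491)
 (.a 1 [331] (.r 362 361 361 (.d 461 2377 329 2410 494))
 .e))))
 .e))))
 .e))))
 (.a 1 [362] (.q 332 (.a 1 [] (.d 300 1292 268 1324 428)
 (.a 1 [268] (.d 428 1324 300 1356 460)
 (.a 0 [300,428] (.q 427 (.a 1 [] (.d 334 3375 303 3406 458)
 (.a 1 [303] (.d 458 3406 334 3437 489)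
 (.a 0 [334,458] (.q 299 (.a 1 [] (.d 266 2281 233 2314 398)
 (.a 1 [233] (.d 398 2314 266 2347 431)
 (.a 1 [266] (.r 395 1323 331 (.r 398 2347 431 (.d 397 394 394 395 399)))
 (.a 0 [398] (.q 394 (.a 1 [] (.d 301 3342 270 3373 425)
 (.a 1 [270] (.d 425 3373 301 3404 456)
 (.a 1 [301] (.r 395 1323 331 (.d 393 392 392 393 397))
 .e))))
 .e)))))
 .e))))
 .e))))
 .e))))
 (.a 1 [432] (.q 365 (.a 1 [] (.d 362 361 361 362 366)
 (.a 1 [366] (.q 428 (.a 1 [] (.d 332 1324 300 1356 460)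
 (.a 1 [300] (.d 460 1356 332 1388 492)
 (.a 0 [332,460] (.q 427 (.a 1 [] (.d 334 3375 303 3406 458)
 (.a 1 [303] (.d 458 3406 334 3437 489)
 (.a 0 [334,458] (.q 395 (.a 1 [] (.d 331 1323 299 1355 459)
 (.a 1 [299] (.d 459 1355 331 1387 491)
 (.a 1 [331] (.r 362 361 361 (.d 461 2377 329 2410 494))
 .e))))
 .e))))
 .e))))
 (.a 1 [362] (.q 332 (.a 1 [] (.d 300 1292 268 1324 428)
 (.a 1 [268] (.d 428 1324 300 1356 460)
 (.a 0 [300,428] (.q 431 (.a 1 [] (.d 398 2347 299 2380 464)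
 (.a 0 [299,398,464] (.q 301 (.a 1 [] (.d 270 3311 239 3342 394)
 (.a 1 [239] (.d 394 3342 270 3373 425)
 (.a 0 [270,394] (.q 334 (.a 1 [] (.d 303 3344 272 3375 427)
 (.a 1 [272] (.d 427 3375 303 3406 458)
 (.a 1 [303] (.r 367 363 366 (.d 400 2316 268 2349 433))
 .e))))
 .e))))
 .e)))
 .e))))
 .e))))
 (.a 1 [234] (.q 365 (.a 1 [] (.d 362 361 361 362 366)
 (.a 1 [362] (.q 332 (.a 1 [] (.d 300 1292 268 1324 428)
 (.a 1 [268] (.d 428 1324 300 1356 460)
 (.a 0 [300,428] (.q 427 (.a 1 [] (.d 334 3375 303 3406 458)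
 (.a 1 [303] (.d 458 3406 334 3437 489)
 (.a 0 [334,458] (.q 394 (.a 1 [] (.d 301 3342 270 3373 425)
 (.a 1 [270] (.d 425 3373 301 3404 456)
 (.a 0 [301,425] (.q 395 (.a 1 [] (.d 393 392 392 393 397)
 (.a 1 [392] (.d 397 393 393 394 398)
 (.a 1 [393] (.d 331 1323 299 1355 459)
 .e))))
 .e))))
 .e))))
 .e))))
 (.a 1 [366] (.q 427 (.a 1 [] (.d 334 3375 303 3406 458)
 (.a 1 [303] (.d 458 3406 334 3437 489)
 (.a 0 [334,458] (.q 460 (.a 1 [] (.d 428 1356 332 1388 492)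
 (.a 1 [332] (.r 361 361 362 (.d 394 2376 328 2409 493))
 .e)))
 .e))))
 (.a 1 [361] (.d 366 362 362 363 367)
 .e)))))
 (.a 1 [238] (.q 365 (.a 1 [] (.d 362 361 361 362 366)
 (.a 1 [362] (.q 427 (.a 1 [] (.d 334 3375 303 3406 458)
 (.a 1 [303] (.d 458 3406 334 3437 489)
 (.a 0 [334,458] (.q 395 (.a 1 [] (.d 331 1323 299 1355 459)
 (.a 1 [299] (.d 459 1355 331 1387 491)
 (.a 0 [331,459] (.q 300 (.a 1 [] (.d 332 1292 268 1324 428)
 (.a 0 [268,332,428] (.q 333 (.a 1 [] (.d 302 3343 271 3374 426)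
 (.a 1 [271] (.d 426 3374 302 3405 457)
 (.a 1 [302] (.r 366 363 367 (.d 399 2315 267 2348 432))
 .e))))
 .e)))
 .e))))
 .e))))
 (.a 1 [366] (.q 332 (.a 1 [] (.d 300 1292 268 1324 428)
 (.a 1 [268] (.d 428 1324 300 1356 460)
 (.a 0 [300,428] (.q 299 (.a 1 [] (.d 266 2281 233 2314 398)
 (.a 1 [233] (.d 398 2314 266 2347 431)
 (.a 0 [266,398] (.q 331 (.a 1 [] (.d 267 1259 235 1291 395)
 (.a 1 [235] (.d 395 1291 267 1323 427)
 (.a 1 [267] (.r 427 1323 395 (.d 458 3406 334 3437 489))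
 (.a 0 [395] (.q 334 (.a 1 [] (.d 333 330 330 331 335)
 (.a 1 [330] (.d 427 3375 303 3406 458)
 .e)))
 .e)))))
 .e))))
 .e))))
 .e))))
 (.a 1 [296] (.q 365 (.a 1 [] (.d 362 361 361 362 366)
 (.a 1 [362] (.q 427 (.a 1 [] (.d 334 3375 303 3406 458)
 (.a 1 [303] (.d 458 3406 334 3437 489)
 (.a 0 [334,458] (.q 395 (.a 1 [] (.d 331 1323 299 1355 459)
 (.a 1 [299] (.d 459 1355 331 1387 491)
 (.a 0 [331,459] (.q 300 (.a 1 [] (.d 332 1292 268 1324 428)
 (.a 0 [268,332,428] (.q 333 (.a 1 [] (.d 302 3343 271 3374 426)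
 (.a 1 [271] (.d 426 3374 302 3405 457)
 (.a 1 [302] (.r 366 363 367 (.d 399 2315 267 2348 432))
 .e))))
 .e)))
 .e))))
 .e))))
 (.a 1 [366] (.q 332 (.a 1 [] (.d 300 1292 268 1324 428)
 (.a 1 [268] (.d 428 1324 300 1356 460)
 (.a 0 [300,428] (.q 427 (.a 1 [] (.d 334 3375 303 3406 458)
 (.a 1 [303] (.d 458 3406 334 3437 489)
 (.a 0 [334,458] (.q 394 (.a 1 [] (.d 301 3342 270 3373 425)
 (.a 1 [270] (.d 425 3373 301 3404 456)
 (.a 1 [301] (.r 361 361 362 (.d 460 2376 328 2409 493))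
 .e))))
 .e))))
 .e))))
 .e))))
 (.a 1 [329] (.q 332 (.a 1 [] (.d 300 1292 268 1324 428)
 (.a 1 [428] (.q 362 (.a 1 [] (.d 361 360 360 361 365)
 (.a 1 [360] (.d 365 361 361 362 366)
 (.a 0 [361,365] (.r 300 1292 268 (.q 301 (.a 1 [] (.d 270 3311 239 3342 394)
 (.a 1 [239] (.d 394 3342 270 3373 425)
 (.a 0 [270,394] (.q 299 (.a 1 [] (.d 298 297 297 298 302)
 (.a 1 [297] (.d 302 298 298 299 303)
 (.a 0 [298,302] (.q 331 (.a 1 [] (.d 267 1259 235 1291 395)
 (.a 1 [235] (.d 395 1291 267 1323 427)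
 (.a 1 [267] (.d 269 3310 238 3341 393)
 .e))))
 .e))))
 .e)))))
 .e))))
 (.a 1 [300] (.q 365 (.a 1 [] (.d 362 361 361 362 366)
 (.a 1 [361] (.d 366 362 362 363 367)
 (.a 0 [362,366] (.q 398 (.a 1 [] (.d 299 2314 266 2347 431)
 (.a 1 [266] (.d 431 2347 299 2380 464)
 (.a 0 [299,431] (.q 395 (.a 1 [] (.d 397 394 394 395 399)
 (.a 1 [399] (.r 394 394 397 (.d 425 3373 301 3404 456))
 (.a 0 [394,397] (.q 427 (.a 1 [] (.d 459 1355 331 1387 491)
 (.a 1 [331] (.d 458 3406 334 3437 489)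
 .e)))
 .e))))
 .e))))
 .e))))
 .e))))
 (.a 1 [335] (.q 365 (.a 1 [] (.d 362 361 361 362 366)
 (.a 1 [366] (.q 427 (.a 1 [] (.d 334 3375 303 3406 458)
 (.a 1 [303] (.d 458 3406 334 3437 489)
 (.a 0 [334,458] (.q 460 (.a 1 [] (.d 428 1356 332 1388 492)
 (.a 1 [332] (.r 361 361 362 (.d 394 2376 328 2409 493))
 .e)))
 .e))))
 (.a 1 [362] (.q 332 (.a 1 [] (.d 300 1292 268 1324 428)
 (.a 1 [268] (.d 428 1324 300 1356 460)
 (.a 0 [300,428] (.q 427 (.a 1 [] (.d 334 3375 303 3406 458)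
 (.a 1 [303] (.d 458 3406 334 3437 489)
 (.a 0 [334,458] (.q 394 (.a 1 [] (.d 301 3342 270 3373 425)
 (.a 1 [270] (.d 425 3373 301 3404 456)
 (.a 0 [301,425] (.q 395 (.a 1 [] (.d 393 392 392 393 397)
 (.a 1 [392] (.d 397 393 393 394 398)
 (.a 1 [393] (.d 331 1323 299 1355 459)
 .e))))
 .e))))
 .e))))
 .e))))
 (.a 1 [361] (.d 366 362 362 363 367)
 .e)))))
 (.a 1 [490] (.q 365 (.a 1 [] (.d 362 361 361 362 366)
 (.a 1 [362] (.q 332 (.a 1 [] (.d 300 1292 268 1324 428)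
 (.a 1 [268] (.d 428 1324 300 1356 460)
 (.a 0 [300,428] (.q 427 (.a 1 [] (.d 334 3375 303 3406 458)
 (.a 1 [303] (.d 458 3406 334 3437 489)
 (.a 0 [334,458] (.q 394 (.a 1 [] (.d 301 3342 270 3373 425)
 (.a 1 [270] (.d 425 3373 301 3404 456)
 (.a 0 [301,425] (.q 395 (.a 1 [] (.d 393 392 392 393 397)
 (.a 1 [392] (.d 397 393 393 394 398)
 (.a 1 [393] (.d 331 1323 299 1355 459)
 .e))))
 .e))))
 .e))))
 .e))))
 (.a 1 [366] (.q 428 (.a 1 [] (.d 332 1324 300 1356 460)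
 (.a 1 [300] (.d 460 1356 332 1388 492)
 (.a 0 [332,460] (.q 427 (.a 1 [] (.d 334 3375 303 3406 458)
 (.a 1 [303] (.d 458 3406 334 3437 489)
 (.a 0 [334,458] (.q 395 (.a 1 [] (.d 331 1323 299 1355 459)
 (.a 1 [299] (.d 459 1355 331 1387 491)
 (.a 1 [331] (.r 362 361 361 (.d 461 2377 329 2410 494))
 .e))))
 .e))))
 .e))))
 (.a 1 [361] (.d 366 362 362 363 367)
 .e)))))
 (.a 1 [494] (.q 365 (.a 1 [] (.d 362 361 361 362 366)
 (.a 1 [362] (.q 427 (.a 1 [] (.d 334 3375 303 3406 458)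
 (.a 1 [303] (.d 458 3406 334 3437 489)
 (.a 0 [334,458] (.q 395 (.a 1 [] (.d 331 1323 299 1355 459)
 (.a 1 [299] (.d 459 1355 331 1387 491)
 (.a 0 [331,459] (.q 300 (.a 1 [] (.d 332 1292 268 1324 428)
 (.a 0 [268,332,428] (.q 333 (.a 1 [] (.d 302 3343 271 3374 426)
 (.a 1 [271] (.d 426 3374 302 3405 457)
 (.a 1 [302] (.r 366 363 367 (.d 399 2315 267 2348 432))
 .e))))
 .e)))
 .e))))
 .e))))
 (.a 1 [366] (.q 332 (.a 1 [] (.d 300 1292 268 1324 428)
 (.a 1 [268] (.d 428 1324 300 1356 460)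
 (.a 0 [300,428] (.q 427 (.a 1 [] (.d 334 3375 303 3406 458)
 (.a 1 [303] (.d 458 3406 334 3437 489)
 (.a 0 [334,458] (.q 394 (.a 1 [] (.d 301 3342 270 3373 425)
 (.a 1 [270] (.d 425 3373 301 3404 456)
 (.a 1 [301] (.r 361 361 362 (.d 460 2376 328 2409 493))
 .e))))
 .e))))
 .e))))
 .e))))
 (.a 1 [362] (.q 332 (.a 1 [] (.d 300 1292 268 1324 428)
 (.a 1 [268] (.d 428 1324 300 1356 460)
 (.a 0 [300] (.q 394 (.a 1 [] (.d 301 3342 270 3373 425)
 (.a 1 [270] (.d 425 3373 301 3404 456)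
 (.a 0 [301,425] (.r 460 1356 428 (.q 427 (.a 1 [] (.d 361 2376 328 2409 493)
 (.a 1 [328] (.d 493 2409 361 2442 526)
 (.a 0 [361,493] (.q 395 (.a 1 [] (.d 393 392 392 393 397)
 (.a 1 [392] (.d 397 393 393 394 398)
 (.a 1 [393] (.d 331 1323 299 1355 459)
 .e))))
 .e)))))
 .e))))
 (.a 0 [428] (.q 301 (.a 1 [] (.d 270 3311 239 3342 394)
 (.a 1 [239] (.d 394 3342 270 3373 425)
 (.a 0 [270,394] (.r 268 1292 300 (.q 334 (.a 1 [] (.d 235 2250 202 2283 367)
 (.a 1 [202] (.d 367 2283 235 2316 400)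
 (.a 1 [235] (.r 367 2316 400 (.r 365 363 366 (.d 427 3375 303 3406 458)))
 (.a 0 [367] (.q 331 (.a 1 [] (.d 333 330 330 331 335)
 (.a 1 [330] (.r 235 2250 202 (.r 299 1259 267 (.r 427 1323 395 (.d 365 3375 303 3406 458))))
 .e)))
 .e))))))
 .e))))
 .e)))))
 (.a 1 [460] (.q 365 (.a 1 [] (.d 362 361 361 362 366)
 (.a 1 [361] (.d 366 362 362 363 367)
 (.a 0 [362,366] (.q 427 (.a 1 [] (.d 334 3375 303 3406 458)
 (.a 1 [303] (.d 458 3406 334 3437 489)
 (.a 0 [334,458] (.q 332 (.a 1 [] (.d 300 1292 268 1324 428)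
 (.a 0 [268,300,428] (.q 398 (.a 1 [] (.d 299 2314 266 2347 431)
 (.a 1 [266] (.d 431 2347 299 2380 464)
 (.a 1 [431] (.r 299 2314 266 (.r 395 1323 331 (.d 397 394 394 395 399)))
 (.a 0 [299] (.q 395 (.a 1 [] (.d 397 394 394 395 399)
 (.a 1 [394] (.d 459 1355 331 1387 491)
 .e)))
 .e)))))
 .e)))
 .e))))
 .e))))
 (.a 1 [300] (.q 365 (.a 1 [] (.d 362 361 361 362 366)
 (.a 1 [361] (.d 366 362 362 363 367)
 (.a 0 [362,366] (.q 427 (.a 1 [] (.d 334 3375 303 3406 458)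
 (.a 1 [303] (.d 458 3406 334 3437 489)
 (.a 0 [334,458] (.q 460 (.a 1 [] (.d 428 1356 332 1388 492)
 (.a 0 [332,428,492] (.q 394 (.a 1 [] (.d 361 2376 328 2409 493)
 (.a 1 [328] (.d 493 2409 361 2442 526)
 (.a 0 [361,493] (.q 395 (.a 1 [] (.d 393 392 392 393 397)
 (.a 1 [392] (.d 397 393 393 394 398)
 (.a 1 [393] (.d 331 1323 299 1355 459)
 .e))))
 .e))))
 .e)))
 .e))))
 .e))))
 (.a 1 [361] (.q 332 (.a 1 [] (.d 300 1292 268 1324 428)
 (.a 1 [268] (.d 428 1324 300 1356 460)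
 (.a 0 [300,428] (.q 365 (.a 1 [] (.d 366 362 362 363 367)
 (.a 0 [362,366,367] (.q 427 (.a 1 [] (.d 334 3375 303 3406 458)
 (.a 1 [303] (.d 458 3406 334 3437 489)
 (.a 0 [334,458] (.q 398 (.a 1 [] (.d 299 2314 266 2347 431)
 (.a 1 [266] (.d 431 2347 299 2380 464)
 (.a 1 [431] (.r 299 2314 266 (.r 395 1323 331 (.d 397 394 394 395 399)))
 (.a 0 [299] (.q 395 (.a 1 [] (.d 397 394 394 395 399)
 (.a 1 [394] (.d 459 1355 331 1387 491)
 .e)))
 .e)))))
 .e))))
 .e)))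
 .e))))
 (.a 1 [367] (.q 332 (.a 1 [] (.d 300 1292 268 1324 428)
 (.a 1 [268] (.d 428 1324 300 1356 460)
 (.a 0 [300,428] (.q 365 (.a 1 [] (.d 362 361 361 362 366)
 (.a 0 [361,362,366] (.q 427 (.a 1 [] (.d 334 3375 303 3406 458)
 (.a 1 [303] (.d 458 3406 334 3437 489)
 (.a 0 [334,458] (.q 398 (.a 1 [] (.d 299 2314 266 2347 431)
 (.a 1 [266] (.d 431 2347 299 2380 464)
 (.a 1 [431] (.r 299 2314 266 (.r 395 1323 331 (.d 397 394 394 395 399)))
 (.a 0 [299] (.q 395 (.a 1 [] (.d 397 394 394 395 399)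
 (.a 1 [394] (.d 459 1355 331 1387 491)
 .e)))
 .e)))))
 .e))))
 .e)))
 .e))))
 (.a 1 [268] (.q 365 (.a 1 [] (.d 362 361 361 362 366)
 (.a 1 [361] (.d 366 362 362 363 367)
 (.a 0 [362,366] (.q 427 (.a 1 [] (.d 334 3375 303 3406 458)
 (.a 1 [303] (.d 458 3406 334 3437 489)
 (.a 0 [334,458] (.q 332 (.a 1 [] (.d 428 1324 300 1356 460)
 (.a 0 [300,428,460] (.q 398 (.a 1 [] (.d 299 2314 266 2347 431)
 (.a 1 [266] (.d 431 2347 299 2380 464)
 (.a 1 [431] (.r 299 2314 266 (.r 395 1323 331 (.d 397 394 394 395 399)))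
 (.a 0 [299] (.q 395 (.a 1 [] (.d 397 394 394 395 399)
 (.a 1 [394] (.d 459 1355 331 1387 491)
 .e)))
 .e)))))
 .e)))
 .e))))
 .e))))
 (.a 1 [297] (.q 365 (.a 1 [] (.d 362 361 361 362 366)
 (.a 1 [361] (.d 366 362 362 363 367)
 (.a 0 [362,366] (.q 332 (.a 1 [] (.d 300 1292 268 1324 428)
 (.a 1 [268] (.d 428 1324 300 1356 460)
 (.a 0 [300,428] (.q 427 (.a 1 [] (.d 334 3375 303 3406 458)
 (.a 1 [303] (.d 458 3406 334 3437 489)
 (.a 0 [334,458] (.q 394 (.a 1 [] (.d 301 3342 270 3373 425)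
 (.a 1 [270] (.d 425 3373 301 3404 456)
 (.a 0 [301,425] (.q 299 (.a 1 [] (.d 266 2281 233 2314 398)
 (.a 1 [233] (.d 398 2314 266 2347 431)
 (.a 1 [266] (.r 395 1323 331 (.d 398 394 397 2347 431))
 (.a 1 [398] (.r 395 1323 331 (.d 393 392 392 393 397))
 .e)))))
 .e))))
 .e))))
 .e))))
 .e))))
 (.a 1 [299] (.q 365 (.a 1 [] (.d 362 361 361 362 366)
 (.a 1 [361] (.d 366 362 362 363 367)
 (.a 0 [362,366] (.q 427 (.a 1 [] (.d 334 3375 303 3406 458)
 (.a 1 [303] (.d 458 3406 334 3437 489)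
 (.a 0 [334,458] (.q 460 (.a 1 [] (.d 428 1356 332 1388 492)
 (.a 0 [332,428,492] (.q 394 (.a 1 [] (.d 361 2376 328 2409 493)
 (.a 1 [328] (.d 493 2409 361 2442 526)
 (.a 0 [361,493] (.q 395 (.a 1 [] (.d 393 392 392 393 397)
 (.a 1 [392] (.d 397 393 393 394 398)
 (.a 1 [393] (.d 459 1355 331 1387 491)
 .e))))
 .e))))
 .e)))
 .e))))
 .e))))
 (.a 1 [489] (.q 365 (.a 1 [] (.d 362 361 361 362 366)
 (.a 1 [361] (.d 366 362 362 363 367)
 (.a 0 [362,366] (.q 332 (.a 1 [] (.d 300 1292 268 1324 428)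
 (.a 1 [268] (.d 428 1324 300 1356 460)
 (.a 0 [300,428] (.q 299 (.a 1 [] (.d 266 2281 233 2314 398)
 (.a 1 [233] (.d 398 2314 266 2347 431)
 (.a 0 [266,398] (.q 394 (.a 1 [] (.d 301 3342 270 3373 425)
 (.a 1 [270] (.d 425 3373 301 3404 456)
 (.a 0 [301,425] (.q 427 (.a 1 [] (.d 334 3375 303 3406 458)
 (.a 1 [303] (.r 395 1323 331 (.d 393 392 392 393 397))
 .e)))
 .e))))
 .e))))
 .e))))
 .e))))
 (.a 1 [269] (.q 365 (.a 1 [] (.d 362 361 361 362 366)
 (.a 1 [361] (.d 366 362 362 363 367)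
 (.a 0 [362,366] (.q 427 (.a 1 [] (.d 334 3375 303 3406 458)
 (.a 1 [303] (.d 458 3406 334 3437 489)
 (.a 0 [334,458] (.q 460 (.a 1 [] (.d 428 1356 332 1388 492)
 (.a 0 [332,428,492] (.q 394 (.a 1 [] (.d 361 2376 328 2409 493)
 (.a 1 [328] (.d 493 2409 361 2442 526)
 (.a 0 [361,493] (.q 395 (.a 1 [] (.d 393 392 392 393 397)
 (.a 1 [392] (.d 397 393 393 394 398)
 (.a 1 [393] (.d 331 1323 299 1355 459)
 .e))))
 .e))))
 .e)))
 .e))))
 .e))))
 (.a 1 [424] (.q 365 (.a 1 [] (.d 362 361 361 362 366)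
 (.a 1 [361] (.d 366 362 362 363 367)
 (.a 0 [362,366] (.q 427 (.a 1 [] (.d 334 3375 303 3406 458)
 (.a 1 [303] (.d 458 3406 334 3437 489)
 (.a 0 [334,458] (.q 460 (.a 1 [] (.d 428 1356 332 1388 492)
 (.a 0 [332,428,492] (.q 394 (.a 1 [] (.d 361 2376 328 2409 493)
 (.a 1 [328] (.d 493 2409 361 2442 526)
 (.a 0 [361,493] (.q 395 (.a 1 [] (.d 393 392 392 393 397)
 (.a 1 [392] (.d 397 393 393 394 398)
 (.a 1 [393] (.d 331 1323 299 1355 459)
 .e))))
 .e))))
 .e)))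
 .e))))
 .e))))
 (.a 1 [392] (.q 365 (.a 1 [] (.d 362 361 361 362 366)
 (.a 1 [361] (.d 366 362 362 363 367)
 (.a 0 [362,366] (.q 332 (.a 1 [] (.d 300 1292 268 1324 428)
 (.a 1 [268] (.d 428 1324 300 1356 460)
 (.a 0 [300,428] (.q 427 (.a 1 [] (.d 334 3375 303 3406 458)
 (.a 1 [303] (.d 458 3406 334 3437 489)
 (.a 0 [334,458] (.q 398 (.a 1 [] (.d 299 2314 266 2347 431)
 (.a 1 [266] (.d 431 2347 299 2380 464)
 (.a 1 [431] (.r 299 2314 266 (.r 395 1323 331 (.d 397 394 394 395 399)))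
 (.a 0 [299] (.q 395 (.a 1 [] (.d 397 394 394 395 399)
 (.a 1 [394] (.d 459 1355 331 1387 491)
 .e)))
 .e)))))
 .e))))
 .e))))
 .e))))
 .e)))))))))))))))))))))))))))))))))))))))))))))) (by decide +kernel)

theorem all : RT X2 403 (271 :: 275 :: 279 :: 304 :: 307 :: 310 :: 337 :: 339 :: 341 :: 370 :: 371 :: 372 :: 399 :: 400 :: 401 :: 402 :: 404 :: 405 :: 406 :: 407 :: 434 :: 435 :: 436 :: 465 :: 467 :: 469 :: 496 :: 499 :: 502 :: 527 :: 531 :: 535 :: 364 :: 428 :: 429 :: []) := ⟨r271, r275, r279, r304, r307, r310, r337, r339, r341, r370, r371, r372, r399, r400, r401, r402, r404, r405, r406, r407, r434, r435, r436, r465, r467, r469, r496, r499, r502, r527, r531, r535, r364, r428, r429, trivial⟩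

end Pool.Agent.H94.Five.Mid.K8_1_0
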