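import Pool.Agent.H94.Five.Mid.Fam

set_option autoImplicit false
set_option linter.all false
set_option maxRecDepth 100000

/-! Second has the cell (8, 3): some of the other stones. -/

namespace Pool.Agent.H94.Five.Mid.K8_3_0

open Pool.Agent.H79.Five Pool.Agent.H10.Five Pool.Agent.H94.Five.M

abbrev nl : List Ent := [n0, n3, n4, n6, n8, n9, n10, n11, n16, n17, n21, n22]

theorem nl_ok : AC XB M0 nl := .cons n0k <| .cons n3k <| .cons n4k <| .cons n6k <| .cons n8k <| .cons n9k <| .cons n10k <| .cons n11k <| .cons n16k <| .cons n17k <| .cons n21k <| .cons n22k <| .nil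

abbrev fl : List Ent := (x1 :: x14 :: x16 :: x27 :: x32 :: x36 :: x38 :: x43 :: x44 :: x45 :: x48 :: x54 :: x60 :: x64 :: x72 :: x73 :: x77 :: x79 :: x93 :: x96 :: x101 :: x102 :: x103 :: x128 :: x130 :: x135 :: x141 :: x142 :: x148 :: x154 :: x155 :: x161 :: x167 :: x171 :: x174 :: x179 :: x185 :: x187 :: x190 :: x193 :: x197 :: x201 :: x204 :: x206 :: x214 :: x217 :: x234 :: x235 :: x238 :: x243 :: x245 :: x255 :: x258 :: x260 :: x266 :: x269 :: x270 :: x276 :: x277 :: x280 :: x288 :: x291 :: x293 :: x304 :: x310 :: x313 :: x315 :: x316 :: x318 :: x319 :: x322 :: x325 :: x328 :: x331 :: x337 :: x340 :: x341 :: x343 :: x351 :: x355 :: x357 :: x364 :: x371 :: x375 :: x377 :: x382 :: x383 :: x390 :: x392 :: x393 :: x399 :: x400 :: x407 :: x409 :: x415 :: x419 :: x420 :: x423 :: x424 :: x426 :: x427 :: x434 :: x437 :: x441 :: x447 :: x452 :: x453 :: x462 :: x472 :: x492 :: x493 :: x496 :: x498 :: x501 :: x513 ::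 x518 :: x522 :: x527 :: x528 :: x529 :: x544 :: [])

theorem fl_ok : AC XB M0 fl := .cons x1k <| .cons x14k <| .cons x16k <| .cons x27k <| .cons x32k <| .cons x36k <| .cons x38k <| .cons x43k <| .cons x44k <| .cons x45k <| .cons x48k <| .cons x54k <| .cons x60k <| .cons x64k <| .cons x72k <| .cons x73k <| .cons x77k <| .cons x79k <| .cons x93k <| .cons x96k <| .cons x101k <| .cons x102k <| .cons x103k <| .cons x128k <| .cons x130k <| .cons x135k <| .cons x141k <| .cons x142k <| .cons x148k <| .cons x154k <| .cons x155k <| .cons x161k <| .cons x167k <| .cons x171k <| .cons x174k <| .cons x179k <| .cons x185k <| .cons x187k <| .cons x190k <| .cons x193k <| .cons x197k <| .cons x201k <| .cons x204k <| .cons x206k <| .cons x214k <| .cons x217k <| .cons x234k <| .cons x235k <| .cons x238k <| .cons x243k <| .cons x245k <| .cons x255k <| .cons x258k <| .cons x260k <| .cons x266k <| .cons x269k <| .cons x270k <| .cons x276k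 <| .cons x277k <| .cons x280k <| .cons x288k <| .cons x291k <| .cons x293k <| .cons x304k <| .cons x310k <| .cons x313k <| .cons x315k <| .cons x316k <| .cons x318k <| .cons x319k <| .cons x322k <| .cons x325k <| .cons x328k <| .cons x331k <| .cons x337k <| .cons x340k <| .cons x341k <| .cons x343k <| .cons x351k <| .cons x355k <| .cons x357k <| .cons x364k <| .cons x371k <| .cons x375k <| .cons x377k <| .cons x382k <| .cons x383k <| .cons x390k <| .cons x392k <| .cons x393k <| .cons x399k <| .cons x400k <| .cons x407k <| .cons x409k <| .cons x415k <| .cons x419k <| .cons x420k <| .cons x423k <| .cons x424k <| .cons x426k <| .cons x427k <| .cons x434k <| .cons x437k <| .cons x441k <| .cons x447k <| .cons x452k <| .cons x453k <| .cons x462k <| .cons x472k <| .cons x492k <| .cons x493k <| .cons x496k <| .cons x498k <| .cons x501k <| .cons x513k <| .cons x518k <| .cons x522k <| .cons x527k <| .cons x528k <| .cons x529k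 <| .cons x544k <| .nil

theorem b3_517 : S (PX [] [304,335,467]) := S.of (.q 332 (.a 1 [] (.d 301 3342 270 3373 425)
 (.a 1 [270] (.d 425 3373 301 3404 456)
 (.a 0 [301,425] (.q 397 (.a 1 [] (.d 395 393 393 394 398)
 (.a 0 [393,395,398] (.q 429 (.a 1 [] (.d 330 2345 297 2378 462)
 (.a 1 [297] (.d 462 2378 330 2411 495)
 (.a 0 [330,462] (.q 365 (.a 1 [] (.d 461 1357 333 1389 493)
 (.a 0 [333,461,493] (.q 364 (.a 1 [] (.d 362 361 361 362 366)
 (.a 1 [361] (.d 366 362 362 363 367)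
 (.a 1 [362] (.d 300 1292 268 1324 428)
 .e))))
 .e)))
 .e))))
 .e)))
 .e)))) (by decide +kernel)

theorem b3_518 : S (PX [] [330,335,467]) := S.of (.q 332 (.a 1 [] (.d 301 3342 270 3373 425)
 (.a 1 [270] (.d 425 3373 301 3404 456)
 (.a 0 [301,425] (.q 395 (.a 1 [] (.d 393 392 392 393 397)
 (.a 1 [392] (.d 397 393 393 394 398)
 (.a 0 [393,397] (.q 299 (.a 1 [] (.d 331 1291 267 1323 427)
 (.a 0 [267,331,427] (.q 365 (.a 1 [] (.d 266 2281 233 2314 398)
 (.a 1 [233] (.d 398 2314 266 2347 431)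
 (.a 0 [266,398] (.q 364 (.a 1 [] (.d 362 361 361 362 366)
 (.a 1 [361] (.d 366 362 362 363 367)
 (.a 1 [362] (.d 300 1292 268 1324 428)
 .e))))
 .e))))
 .e)))
 .e))))
 .e)))) (by decide +kernel)

theorem b3_519 : S (PX [] [332,335,467]) := S.of (.q 330 (.a 1 [] (.d 297 2312 264 2345 429)
 (.a 1 [264] (.d 429 2345 297 2378 462)
 (.a 0 [297,429] (.q 362 (.a 1 [] (.d 298 1290 266 1322 426)
 (.a 1 [266] (.d 426 1322 298 1354 458)
 (.a 0 [298,426] (.q 361 (.a 1 [] (.d 360 359 359 360 364)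
 (.a 1 [359] (.d 364 360 360 361 365)
 (.a 0 [360,364] (.q 427 (.a 1 [] (.d 328 2343 295 2376 460)
 (.a 1 [295] (.d 460 2376 328 2409 493)
 (.a 0 [328,460] (.q 395 (.a 1 [] (.d 393 392 392 393 397)
 (.a 1 [392] (.d 397 393 393 394 398)
 (.a 1 [393] (.d 331 1323 299 1355 459)
 .e))))
 .e))))
 .e))))
 .e))))
 .e)))) (by decide +kernel)

theorem b3_520 : S (PX [] [335,366,467]) := S.of (.q 330 (.a 1 [] (.d 297 2312 264 2345 429)
 (.a 1 [264] (.d 429 2345 297 2378 462)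
 (.a 0 [297,429] (.q 362 (.a 1 [] (.d 298 1290 266 1322 426)
 (.a 1 [266] (.d 426 1322 298 1354 458)
 (.a 0 [298,426] (.q 361 (.a 1 [] (.d 360 359 359 360 364)
 (.a 1 [359] (.d 364 360 360 361 365)
 (.a 0 [360,364] (.q 427 (.a 1 [] (.d 328 2343 295 2376 460)
 (.a 1 [295] (.d 460 2376 328 2409 493)
 (.a 0 [328,460] (.q 395 (.a 1 [] (.d 393 392 392 393 397)
 (.a 1 [392] (.d 397 393 393 394 398)
 (.a 1 [393] (.d 331 1323 299 1355 459)
 .e))))
 .e))))
 .e))))
 .e))))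
 .e)))) (by decide +kernel)

theorem b3_537 : S (PX [302,401] [205,236,335,368,467]) := S.of (.q 395 (.a 1 [] (.d 393 392 392 393 397)
 (.a 1 [392] (.d 397 393 393 394 398)
 (.a 0 [393,397] (.q 364 (.a 1 [] (.d 333 3343 271 3374 426)
 (.a 0 [271,333,426] (.q 332 (.a 1 [] (.d 300 1292 268 1324 428)
 (.a 1 [268] (.d 425 3373 301 3404 456)
 .e)))
 .e)))
 .e)))) (by decide +kernel)

theorem b3_538 : S (PX [302,401] [236,267,335,368,467]) := S.of (.q 395 (.a 1 [] (.d 393 392 392 393 397)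
 (.a 1 [392] (.d 397 393 393 394 398)
 (.a 0 [393,397] (.q 364 (.a 1 [] (.d 333 3343 271 3374 426)
 (.a 0 [271,333,426] (.q 332 (.a 1 [] (.d 300 1292 268 1324 428)
 (.a 1 [268] (.d 425 3373 301 3404 456)
 .e)))
 .e)))
 .e)))) (by decide +kernel)

theorem b3_539 : S (PX [302,401] [236,273,335,368,467]) := S.of (.q 332 (.a 1 [] (.d 301 3342 270 3373 425)
 (.a 1 [270] (.d 425 3373 301 3404 456)
 (.a 0 [301,425] (.q 364 (.a 1 [] (.d 300 1292 268 1324 428)
 (.a 1 [268] (.d 428 1324 300 1356 460)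
 (.a 0 [300,428] (.q 395 (.a 1 [] (.d 393 392 392 393 397)
 (.a 1 [392] (.d 397 393 393 394 398)
 (.a 1 [393] (.d 333 3343 271 3374 426)
 .e))))
 .e))))
 .e)))) (by decide +kernel)

theorem b3_540 : S (PX [302,401] [236,298,335,368,467]) := S.of (.q 395 (.a 1 [] (.d 393 392 392 393 397)
 (.a 1 [392] (.d 397 393 393 394 398)
 (.a 0 [393,397] (.q 364 (.a 1 [] (.d 333 3343 271 3374 426)
 (.a 0 [271,333,426] (.q 332 (.a 1 [] (.d 300 1292 268 1324 428)
 (.a 1 [268] (.d 425 3373 301 3404 456)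
 .e)))
 .e)))
 .e)))) (by decide +kernel)

theorem b3_541 : S (PX [302,401] [236,304,335,368,467]) := S.of (.q 332 (.a 1 [] (.d 301 3342 270 3373 425)
 (.a 1 [270] (.d 425 3373 301 3404 456)
 (.a 0 [301,425] (.q 364 (.a 1 [] (.d 300 1292 268 1324 428)
 (.a 1 [268] (.d 428 1324 300 1356 460)
 (.a 0 [300,428] (.q 395 (.a 1 [] (.d 393 392 392 393 397)
 (.a 1 [366] (.d 397 393 393 394 398)
 (.a 1 [393] (.d 333 3343 271 3374 426)
 (.a 0 [397] (.q 366 (.a 1 [] (.d 333 3343 271 3374 426)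
 (.a 1 [271] (.d 365 362 362 363 367)
 .e)))
 .e)))))
 .e))))
 .e)))) (by decide +kernel)

theorem b3_542 : S (PX [302,401] [236,329,335,368,467]) := S.of (.q 395 (.a 1 [] (.d 393 392 392 393 397)
 (.a 1 [392] (.d 397 393 393 394 398)
 (.a 0 [393,397] (.q 364 (.a 1 [] (.d 333 3343 271 3374 426)
 (.a 0 [271,333,426] (.q 332 (.a 1 [] (.d 300 1292 268 1324 428)
 (.a 1 [268] (.d 425 3373 301 3404 456)
 .e)))
 .e)))
 .e)))) (by decide +kernel)

theorem b3_543 : S (PX [302,401] [236,330,335,368,467]) := S.of (.q 395 (.a 1 [] (.d 393 392 392 393 397)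
 (.a 1 [392] (.d 397 393 393 394 398)
 (.a 0 [393,397] (.q 364 (.a 1 [] (.d 333 3343 271 3374 426)
 (.a 0 [271,333,426] (.q 332 (.a 1 [] (.d 300 1292 268 1324 428)
 (.a 1 [268] (.d 425 3373 301 3404 456)
 .e)))
 .e)))
 .e)))) (by decide +kernel)

theorem b3_544 : S (PX [302,401] [236,332,335,368,467]) := S.of (.q 395 (.a 1 [] (.d 393 392 392 393 397)
 (.a 1 [392] (.d 397 393 393 394 398)
 (.a 0 [393,397] (.q 330 (.a 1 [] (.d 297 2312 264 2345 429)
 (.a 1 [264] (.d 429 2345 297 2378 462)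
 (.a 0 [297] (.q 426 (.a 1 [] (.d 362 1322 298 1354 458)
 (.a 1 [298] (.r 364 3374 333 (.r 362 1354 458 (.d 365 361 361 362 366)))
 (.a 1 [458] (.r 364 3374 333 (.r 362 1322 298 (.d 365 361 361 362 366)))
 (.a 0 [362] (.q 427 (.a 1 [] (.d 331 1323 299 1355 459)
 (.a 1 [299] (.d 459 1355 331 1387 491)
 (.a 1 [331] (.r 429 2378 462 (.d 428 425 425 426 430))
 .e))))
 .e)))))
 (.a 0 [429] (.q 362 (.a 1 [] (.d 298 1290 266 1322 426)
 (.a 1 [266] (.d 426 1322 298 1354 458)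
 (.a 1 [298] (.r 426 1354 458 (.r 364 3374 333 (.d 361 360 360 361 365)))
 (.a 0 [426] (.q 299 (.a 1 [] (.d 331 1291 267 1323 427)
 (.a 1 [267] (.r 427 1323 331 (.r 298 1290 266 (.r 297 2312 264 (.d 300 296 296 297 301))))
 (.a 1 [331] (.r 298 1290 266 (.r 297 2312 264 (.d 300 296 296 297 301)))
 .e))))
 .e)))))
 .e)))))
 .e)))) (by decide +kernel)

theorem b3_545 : S (PX [302,401] [236,335,336,368,467]) := S.of (.q 395 (.a 1 [] (.d 393 392 392 393 397)
 (.a 1 [392] (.d 397 393 393 394 398)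
 (.a 0 [393,397] (.q 332 (.a 1 [] (.d 301 3342 270 3373 425)
 (.a 1 [270] (.d 425 3373 301 3404 456)
 (.a 0 [301,425] (.q 364 (.a 1 [] (.d 300 1292 268 1324 428)
 (.a 1 [268] (.d 333 3343 271 3374 426)
 .e)))
 .e))))
 .e)))) (by decide +kernel)

theorem b3_546 : S (PX [302,401] [236,335,360,368,467]) := S.of (.q 395 (.a 1 [] (.d 393 392 392 393 397)
 (.a 1 [392] (.d 397 393 393 394 398)
 (.a 0 [393,397] (.q 332 (.a 1 [] (.d 301 3342 270 3373 425)
 (.a 1 [270] (.d 425 3373 301 3404 456)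
 (.a 0 [301,425] (.q 364 (.a 1 [] (.d 300 1292 268 1324 428)
 (.a 1 [268] (.d 333 3343 271 3374 426)
 .e)))
 .e))))
 .e)))) (by decide +kernel)

theorem b3_547 : S (PX [302,401] [236,335,365,368,467]) := S.of (.q 395 (.a 1 [] (.d 393 392 392 393 397)
 (.a 1 [392] (.d 397 393 393 394 398)
 (.a 0 [393,397] (.q 429 (.a 1 [] (.d 330 2345 297 2378 462)
 (.a 1 [297] (.d 462 2378 330 2411 495)
 (.a 0 [330,462] (.q 301 (.a 1 [] (.d 332 3342 270 3373 425)
 (.a 0 [270,332,425] (.q 299 (.a 1 [] (.d 300 298 298 299 303)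
 (.a 1 [298] (.d 331 1291 267 1323 427)
 .e)))
 .e)))
 .e))))
 .e)))) (by decide +kernel)

theorem b3_548 : S (PX [302,401] [236,335,366,368,467]) := S.of (.q 332 (.a 1 [] (.d 301 3342 270 3373 425)
 (.a 1 [270] (.d 425 3373 301 3404 456)
 (.a 0 [301,425] (.q 364 (.a 1 [] (.d 300 1292 268 1324 428)
 (.a 1 [268] (.d 428 1324 300 1356 460)
 (.a 0 [300,428] (.q 397 (.a 1 [] (.d 395 393 393 394 398)
 (.a 1 [393] (.r 395 394 398 (.d 333 3343 271 3374 426))
 (.a 1 [398] (.r 395 393 393 (.d 333 3343 271 3374 426))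
 (.a 0 [395] (.q 298 (.a 1 [] (.d 331 2313 265 2346 430)
 (.a 0 [265,331,430] (.q 362 (.a 1 [] (.d 361 360 360 361 365)
 (.a 1 [360] (.d 330 1290 266 1322 426)
 .e)))
 .e)))
 .e)))))
 .e))))
 .e)))) (by decide +kernel)

theorem b3_549 : S (PX [302,401] [236,335,368,425,467]) := S.of (.q 395 (.a 1 [] (.d 393 392 392 393 397)
 (.a 1 [392] (.d 397 393 393 394 398)
 (.a 0 [393,397] (.q 429 (.a 1 [] (.d 330 2345 297 2378 462)
 (.a 1 [297] (.d 462 2378 330 2411 495)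
 (.a 0 [330,462] (.q 299 (.a 1 [] (.d 331 1291 267 1323 427)
 (.a 0 [267,331,427] (.q 300 (.a 1 [] (.d 301 298 298 299 303)
 (.a 1 [298] (.r 301 299 303 (.r 332 3342 270 (.d 364 1292 268 1324 428)))
 (.a 1 [303] (.r 301 298 298 (.r 332 3342 270 (.d 364 1292 268 1324 428)))
 (.a 0 [301] (.q 364 (.a 1 [] (.d 332 1292 268 1324 428)
 (.a 1 [268] (.d 333 3343 271 3374 426)
 .e)))
 .e)))))
 .e)))
 .e))))
 .e)))) (by decide +kernel)

theorem b3_550 : S (PX [302,401] [236,335,368,428,467]) := S.of (.q 397 (.a 1 [] (.d 395 393 393 394 398)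
 (.a 0 [393,395,398] (.q 429 (.a 1 [] (.d 330 2345 297 2378 462)
 (.a 1 [297] (.d 462 2378 330 2411 495)
 (.a 0 [330,462] (.q 365 (.a 1 [] (.d 333 1325 301 1357 461)
 (.a 1 [301] (.d 461 1357 333 1389 493)
 (.a 1 [461] (.r 301 1325 333 (.d 332 3342 270 3373 425))
 (.a 0 [333] (.q 427 (.a 1 [] (.d 334 3375 303 3406 458)
 (.a 1 [303] (.d 458 3406 334 3437 489)
 (.a 1 [334] (.r 493 1389 461 (.d 460 2409 361 2442 526))
 .e))))
 .e)))))
 .e))))
 .e))) (by decide +kernel)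

theorem b3_551 : S (PX [302,401] [236,335,368,429,467]) := S.of (.q 395 (.a 1 [] (.d 393 392 392 393 397)
 (.a 1 [392] (.d 397 393 393 394 398)
 (.a 0 [393,397] (.q 332 (.a 1 [] (.d 301 3342 270 3373 425)
 (.a 1 [270] (.d 425 3373 301 3404 456)
 (.a 0 [301,425] (.q 364 (.a 1 [] (.d 300 1292 268 1324 428)
 (.a 1 [268] (.d 333 3343 271 3374 426)
 (.a 0 [333] (.q 365 (.a 1 [] (.d 300 1292 268 1324 428)
 (.a 1 [268] (.d 366 362 362 363 367)
 .e)))
 .e))))
 .e))))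
 .e)))) (by decide +kernel)

theorem b3_552 : S (PX [302,401] [236,335,368,456,467]) := S.of (.q 395 (.a 1 [] (.d 393 392 392 393 397)
 (.a 1 [392] (.d 397 393 393 394 398)
 (.a 0 [393,397] (.q 364 (.a 1 [] (.d 333 3343 271 3374 426)
 (.a 0 [271,333,426] (.q 332 (.a 1 [] (.d 300 1292 268 1324 428)
 (.a 1 [268] (.d 301 3342 270 3373 425)
 .e)))
 .e)))
 .e)))) (by decide +kernel)

theorem b3_585 : S (PX [401] [269,335,368,467]) := S.of (.q 332 (.a 1 [] (.d 301 3342 270 3373 425)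
 (.a 0 [301] (.q 429 (.a 1 [] (.d 330 2345 297 2378 462)
 (.a 0 [330] (.r 425 3404 456 (.q 428 (.a 1 [] (.d 364 1324 300 1356 460)
 (.a 1 [364] (.r 427 425 426 (.q 395 (.a 1 [] (.d 393 392 392 393 397)
 (.a 1 [302] (.q 236 (.a 1 [] (.d 393 392 392 393 397)
 (.a 1 [397] (.d 331 1323 299 1355 459)
 .e)))
 (.a 1 [236] (.q 302 (.a 1 [] (.d 393 392 392 393 397)
 (.a 1 [397] (.d 459 1355 331 1387 491)
 .e)))
 (.a 1 [397] (.d 331 1323 299 1355 459)
 .e))))))
 (.a 1 [460] (.r 427 425 426 (.r 300 1324 364 (.q 395 (.a 1 [] (.d 393 392 392 393 397)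
 (.a 1 [236] (.q 302 (.a 1 [] (.d 393 392 392 393 397)
 (.a 1 [397] (.d 459 1355 331 1387 491)
 .e)))
 (.a 1 [397] (.d 331 1323 299 1355 459)
 (.a 1 [302] (.q 236 (.a 1 [] (.d 393 392 392 393 397)
 (.a 1 [392] (.d 397 393 393 394 398)
 (.a 1 [393] (.d 331 1323 299 1355 459)
 .e))))
 .e)))))))
 (.a 1 [236] (.q 302 (.a 1 [] (.d 364 1324 300 1356 460)
 (.a 1 [364] (.q 395 (.a 1 [] (.d 393 392 392 393 397)
 (.a 1 [392] (.d 397 393 393 394 398)
 (.a 1 [393] (.r 427 425 426 (.d 459 1355 331 1387 491))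
 .e))))
 (.a 1 [300] (.r 427 425 426 (.r 460 1356 364 (.d 493 2409 361 2442 526)))
 .e))))
 (.a 1 [302] (.q 236 (.a 1 [] (.d 364 1324 300 1356 460)
 (.a 1 [364] (.q 395 (.a 1 [] (.d 393 392 392 393 397)
 (.a 1 [392] (.d 397 393 393 394 398)
 (.a 1 [393] (.r 427 425 426 (.d 459 1355 331 1387 491))
 .e))))
 (.a 1 [300] (.r 427 425 426 (.r 460 1356 364 (.d 493 2409 361 2442 526)))
 .e))))
 (.a 1 [300] (.r 427 425 426 (.r 460 1356 364 (.d 493 2409 361 2442 526)))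
 .e))))))))
 (.a 0 [462] (.r 330 2345 297 (.r 425 3404 456 (.q 364 (.a 1 [] (.d 300 1292 268 1324 428)
 (.a 1 [236] (.q 302 (.a 1 [] (.d 300 1292 268 1324 428)
 (.a 1 [428] (.q 362 (.a 1 [] (.d 361 360 360 361 365)
 (.a 1 [360] (.d 365 361 361 362 366)
 (.a 1 [361] (.d 298 1290 266 1322 426)
 .e))))
 (.a 1 [300] (.r 428 1356 460 (.r 426 425 427 (.d 362 1322 298 1354 458)))
 .e))))
 (.a 1 [428] (.q 426 (.a 1 [] (.d 362 1322 298 1354 458)
 (.a 1 [298] (.r 362 1354 458 (.d 365 361 361 362 366))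
 (.a 1 [458] (.r 362 1322 298 (.d 365 361 361 362 366))
 (.a 0 [236] (.q 302 (.a 1 [] (.d 362 1322 298 1354 458)
 (.a 1 [298] (.r 395 3374 333 (.d 393 392 392 393 397))
 .e)))
 (.a 0 [302] (.q 236 (.a 1 [] (.d 362 1322 298 1354 458)
 (.a 1 [298] (.r 362 1354 458 (.d 365 361 361 362 366))
 (.a 1 [458] (.r 362 1322 298 (.d 365 361 361 362 366))
 (.a 0 [362] (.q 395 (.a 1 [] (.d 393 392 392 393 397)
 (.a 1 [392] (.d 397 393 393 394 398)
 (.a 1 [393] (.d 457 3405 333 3436 488)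
 .e))))
 .e)))))
 (.a 0 [362] (.q 395 (.a 1 [] (.d 393 392 392 393 397)
 (.a 1 [236] (.r 302 3374 333 (.d 393 392 392 393 397))
 (.a 1 [392] (.d 333 3374 302 3405 457)
 (.a 0 [302] (.q 236 (.a 1 [] (.d 393 392 392 393 397)
 (.a 1 [392] (.d 397 393 393 394 398)
 (.a 1 [393] (.d 457 3405 333 3436 488)
 .e))))
 .e)))))
 .e)))))))
 (.a 1 [300] (.r 428 1356 460 (.r 426 425 427 (.d 362 1322 298 1354 458)))
 (.a 1 [302] (.q 236 (.a 1 [] (.d 428 1324 300 1356 460)
 (.a 1 [300] (.r 428 1356 460 (.r 426 425 427 (.d 362 1322 298 1354 458)))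
 (.a 1 [460] (.d 300 1260 268 1324 428)
 (.a 0 [428] (.q 362 (.a 1 [] (.d 361 360 360 361 365)
 (.a 1 [360] (.d 365 361 361 362 366)
 (.a 1 [361] (.d 298 1290 266 1322 426)
 .e))))
 .e)))))
 .e))))))))
 (.a 1 [236] (.q 302 (.a 1 [] (.d 462 2378 330 2411 495)
 (.a 1 [330] (.q 364 (.a 1 [] (.d 300 1292 268 1324 428)
 (.a 1 [268] (.d 428 1324 300 1356 460)
 (.a 0 [300,428] (.q 395 (.a 1 [] (.d 393 392 392 393 397)
 (.a 1 [392] (.d 397 393 393 394 398)
 (.a 1 [393] (.d 333 3343 271 3374 426)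
 .e))))
 .e))))
 .e)))
 (.a 1 [302] (.q 236 (.a 1 [] (.d 330 2345 297 2378 462)
 (.a 1 [330] (.q 428 (.a 1 [] (.d 364 1324 300 1356 460)
 (.a 1 [300] (.r 460 1356 364 (.r 425 3404 456 (.r 427 425 426 (.d 493 2409 361 2442 526))))
 (.a 0 [364,460] (.q 395 (.a 1 [] (.d 393 392 392 393 397)
 (.a 1 [392] (.d 397 393 393 394 398)
 (.a 1 [393] (.r 425 3404 456 (.r 427 425 426 (.d 459 1355 331 1387 491)))
 .e))))
 .e))))
 (.a 1 [297] (.d 462 2378 330 2411 495)
 .e))))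
 (.a 1 [297] (.d 462 2378 330 2411 495)
 .e)))))))
 (.a 1 [425] (.q 302 (.a 1 [] (.q 300 (.a 1 [] (.d 364 1292 268 1324 428)
 (.a 1 [268] (.r 301 3342 270 (.d 303 299 299 300 304))
 .e)))
 (.a 1 [270] (.q 364 (.a 1 [] (.d 300 1292 268 1324 428)
 (.a 1 [268] (.d 428 1324 300 1356 460)
 (.a 0 [300,428] (.q 395 (.a 1 [] (.d 393 392 392 393 397)
 (.a 1 [392] (.d 397 393 393 394 398)
 (.a 1 [393] (.d 333 3343 271 3374 426)
 .e))))
 .e))))
 (.a 1 [300] (.q 395 (.a 1 [] (.d 393 392 392 393 397)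
 (.a 1 [392] (.d 397 393 393 394 398)
 (.a 0 [393,397] (.q 331 (.a 1 [] (.d 299 1291 267 1323 427)
 (.a 1 [267] (.d 427 1323 299 1355 459)
 (.a 0 [299,427] (.q 330 (.a 1 [] (.d 329 328 328 329 333)
 (.a 1 [328] (.d 333 329 329 330 334)
 (.a 1 [329] (.d 297 2312 264 2345 429)
 .e))))
 .e))))
 .e))))
 (.a 1 [428] (.q 330 (.a 1 [] (.d 297 2312 264 2345 429)
 (.a 1 [264] (.d 429 2345 297 2378 462)
 (.a 0 [297,429] (.q 426 (.a 1 [] (.d 362 1322 298 1354 458)
 (.a 0 [298,362,458] (.q 395 (.a 1 [] (.d 393 392 392 393 397)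
 (.a 1 [392] (.d 397 393 393 394 398)
 (.a 1 [393] (.r 333 3374 364 (.d 331 329 329 330 334))
 .e))))
 .e)))
 .e))))
 (.a 1 [304] (.q 300 (.a 1 [] (.d 364 1292 268 1324 428)
 (.a 1 [268] (.r 301 3342 270 (.d 299 298 298 299 303))
 .e)))
 (.a 1 [265] (.q 300 (.a 1 [] (.d 364 1292 268 1324 428)
 (.a 1 [268] (.r 301 3342 270 (.d 303 299 299 300 304))
 .e)))
 .e)))))))
 (.a 1 [236] (.q 302 (.a 1 [] (.d 425 3373 301 3404 456)
 (.a 1 [301] (.q 364 (.a 1 [] (.d 300 1292 268 1324 428)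
 (.a 1 [268] (.d 428 1324 300 1356 460)
 (.a 0 [300,428] (.q 395 (.a 1 [] (.d 393 392 392 393 397)
 (.a 1 [392] (.d 397 393 393 394 398)
 (.a 1 [393] (.d 333 3343 271 3374 426)
 .e))))
 .e))))
 .e)))
 (.a 1 [302] (.q 236 (.a 1 [] (.d 425 3373 301 3404 456)
 (.a 1 [301] (.q 300 (.a 1 [] (.d 268 1228 204 1260 364)
 (.a 1 [204] (.d 364 1260 268 1324 428)
 (.a 0 [268,364] (.q 330 (.a 1 [] (.d 297 2312 264 2345 429)
 (.a 1 [264] (.d 429 2345 297 2378 462)
 (.a 0 [297,429] (.q 362 (.a 1 [] (.d 298 1290 266 1322 426)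
 (.a 1 [266] (.d 426 1322 298 1354 458)
 (.a 0 [298,426] (.q 395 (.a 1 [] (.d 393 392 392 393 397)
 (.a 1 [392] (.d 397 393 393 394 398)
 (.a 1 [397] (.r 393 392 392 (.r 331 3372 424 (.d 427 1323 299 1355 459)))
 (.a 0 [393] (.q 331 (.a 1 [] (.d 329 328 328 329 333)
 (.a 1 [328] (.d 333 329 329 330 334)
 (.a 1 [329] (.d 299 1291 267 1323 427)
 .e))))
 .e)))))
 .e))))
 .e))))
 .e))))
 (.a 1 [425] (.q 364 (.a 1 [] (.d 300 1260 268 1324 428)
 (.a 1 [268] (.d 428 1324 300 1356 460)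
 (.a 0 [300,428] (.q 362 (.a 1 [] (.d 361 360 360 361 365)
 (.a 1 [360] (.d 365 361 361 362 366)
 (.a 0 [361,365] (.q 330 (.a 1 [] (.d 298 1290 266 1322 426)
 (.a 1 [266] (.d 426 1322 298 1354 458)
 (.a 1 [298] (.d 297 2312 264 2345 429)
 .e))))
 .e))))
 .e))))
 .e))))
 (.a 1 [270] (.d 425 3373 301 3404 456)
 .e))))))) (by decide +kernel)

theorem b3_586 : S (PX [401] [273,335,368,467]) := S.of (.q 332 (.a 1 [] (.d 301 3342 270 3373 425)
 (.a 1 [270] (.d 425 3373 301 3404 456)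
 (.a 0 [301,425] (.q 364 (.a 1 [] (.d 300 1292 268 1324 428)
 (.a 1 [268] (.d 428 1324 300 1356 460)
 (.a 0 [300,428] (.q 397 (.a 1 [] (.d 395 393 393 394 398)
 (.a 0 [393,395,398] (.q 429 (.a 1 [] (.d 330 2345 297 2378 462)
 (.a 1 [297] (.d 462 2378 330 2411 495)
 (.a 0 [330,462] (.q 365 (.a 1 [] (.d 362 361 361 362 366)
 (.a 1 [361] (.d 366 362 362 363 367)
 (.a 1 [362] (.d 461 1357 333 1389 493)
 .e))))
 .e))))
 .e)))
 .e))))
 .e)))) (by decide +kernel)

theorem b3_587 : S (PX [401] [297,335,368,467]) := S.of (.q 397 (.a 1 [] (.d 395 393 393 394 398)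
 (.a 0 [393,395,398] (.q 429 (.a 1 [] (.d 462 2378 330 2411 495)
 (.a 0 [330,462,495] (.q 365 (.a 1 [] (.d 333 1325 301 1357 461)
 (.a 1 [301] (.d 461 1357 333 1389 493)
 (.a 1 [461] (.r 301 1325 333 (.d 332 3342 270 3373 425))
 (.a 0 [333] (.q 427 (.a 1 [] (.d 334 3375 303 3406 458)
 (.a 1 [303] (.d 458 3406 334 3437 489)
 (.a 1 [334] (.r 493 1389 461 (.d 460 2409 361 2442 526))
 .e))))
 .e)))))
 .e)))
 .e))) (by decide +kernel)

theorem b3_615 : S (PX [269,401] [263,302,335,368,467]) := S.of (.q 395 (.a 1 [] (.d 393 392 392 393 397)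
 (.a 1 [392] (.d 397 393 393 394 398)
 (.a 0 [393,397] (.q 331 (.a 1 [] (.d 299 1291 267 1323 427)
 (.a 1 [267] (.d 427 1323 299 1355 459)
 (.a 0 [299,427] (.q 330 (.a 1 [] (.d 297 2312 264 2345 429)
 (.a 1 [264] (.d 429 2345 297 2378 462)
 (.a 0 [297,429] (.q 332 (.a 1 [] (.d 329 328 328 329 333)
 (.a 1 [328] (.d 333 329 329 330 334)
 (.a 1 [329] (.d 301 3342 270 3373 425)
 .e))))
 .e))))
 .e))))
 .e)))) (by decide +kernel)

theorem b3_616 : S (PX [269,401] [271,302,335,368,467]) := S.of (.q 395 (.a 1 [] (.d 393 392 392 393 397)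
 (.a 1 [392] (.d 397 393 393 394 398)
 (.a 0 [393,397] (.q 331 (.a 1 [] (.d 299 1291 267 1323 427)
 (.a 1 [267] (.d 427 1323 299 1355 459)
 (.a 0 [299,427] (.q 330 (.a 1 [] (.d 297 2312 264 2345 429)
 (.a 1 [264] (.d 429 2345 297 2378 462)
 (.a 0 [297,429] (.q 332 (.a 1 [] (.d 329 328 328 329 333)
 (.a 1 [328] (.d 333 329 329 330 334)
 (.a 1 [329] (.d 301 3342 270 3373 425)
 .e))))
 .e))))
 .e))))
 .e)))) (by decide +kernel)

theorem b3_617 : S (PX [269,401] [273,302,335,368,467]) := S.of (.q 332 (.a 1 [] (.d 301 3342 270 3373 425)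
 (.a 1 [270] (.d 425 3373 301 3404 456)
 (.a 0 [301,425] (.q 300 (.a 1 [] (.d 364 1292 268 1324 428)
 (.a 0 [268,364,428] (.q 395 (.a 1 [] (.d 393 392 392 393 397)
 (.a 1 [392] (.d 397 393 393 394 398)
 (.a 1 [397] (.r 393 392 392 (.r 331 3341 362 (.d 299 1291 267 1323 427)))
 (.a 0 [393] (.q 331 (.a 1 [] (.d 299 1291 267 1323 427)
 (.a 1 [267] (.d 427 1323 299 1355 459)
 (.a 1 [299] (.d 238 3279 207 3310 362)
 .e))))
 .e)))))
 .e)))
 .e)))) (by decide +kernel)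

theorem b3_618 : S (PX [269,401] [296,302,335,368,467]) := S.of (.q 395 (.a 1 [] (.d 393 392 392 393 397)
 (.a 1 [392] (.d 397 393 393 394 398)
 (.a 0 [393,397] (.q 331 (.a 1 [] (.d 299 1291 267 1323 427)
 (.a 1 [267] (.d 427 1323 299 1355 459)
 (.a 0 [299,427] (.q 332 (.a 1 [] (.d 301 3342 270 3373 425)
 (.a 1 [270] (.d 425 3373 301 3404 456)
 (.a 0 [301,425] (.q 300 (.a 1 [] (.d 364 1292 268 1324 428)
 (.a 1 [268] (.d 238 3279 207 3310 362)
 .e)))
 .e))))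
 .e))))
 .e)))) (by decide +kernel)

theorem b3_619 : S (PX [269,401] [297,302,335,368,467]) := S.of (.q 395 (.a 1 [] (.d 393 392 392 393 397)
 (.a 1 [392] (.d 397 393 393 394 398)
 (.a 0 [393,397] (.q 331 (.a 1 [] (.d 299 1291 267 1323 427)
 (.a 1 [267] (.d 427 1323 299 1355 459)
 (.a 0 [299,427] (.q 300 (.a 1 [] (.d 238 3279 207 3310 362)
 (.a 0 [207,238,362] (.q 332 (.a 1 [] (.d 364 1292 268 1324 428)
 (.a 1 [268] (.d 425 3373 301 3404 456)
 .e)))
 .e)))
 .e))))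
 .e)))) (by decide +kernel)

theorem b3_620 : S (PX [269,401] [298,302,335,368,467]) := S.of (.q 395 (.a 1 [] (.d 393 392 392 393 397)
 (.a 1 [392] (.d 397 393 393 394 398)
 (.a 0 [393,397] (.q 331 (.a 1 [] (.d 299 1291 267 1323 427)
 (.a 1 [267] (.d 427 1323 299 1355 459)
 (.a 0 [299,427] (.q 332 (.a 1 [] (.d 301 3342 270 3373 425)
 (.a 1 [270] (.d 425 3373 301 3404 456)
 (.a 0 [301,425] (.q 300 (.a 1 [] (.d 364 1292 268 1324 428)
 (.a 1 [268] (.d 238 3279 207 3310 362)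
 .e)))
 .e))))
 .e))))
 .e)))) (by decide +kernel)

theorem b3_621 : S (PX [269,401] [299,302,335,368,467]) := S.of (.q 332 (.a 1 [] (.d 301 3342 270 3373 425)
 (.a 1 [270] (.d 425 3373 301 3404 456)
 (.a 0 [301,425] (.q 300 (.a 1 [] (.d 364 1292 268 1324 428)
 (.a 0 [268,364,428] (.q 331 (.a 1 [] (.d 238 3279 207 3310 362)
 (.a 1 [207] (.d 362 3310 238 3341 393)
 (.a 1 [238] (.r 393 3341 362 (.d 395 392 392 393 397))
 (.a 0 [362] (.q 330 (.a 1 [] (.d 329 328 328 329 333)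
 (.a 1 [328] (.d 333 329 329 330 334)
 (.a 1 [329] (.d 297 2312 264 2345 429)
 .e))))
 .e)))))
 .e)))
 .e)))) (by decide +kernel)

theorem b3_622 : S (PX [269,401] [300,302,335,368,467]) := S.of (.q 330 (.a 1 [] (.d 297 2312 264 2345 429)
 (.a 1 [264] (.d 429 2345 297 2378 462)
 (.a 0 [297,429] (.q 397 (.a 1 [] (.d 395 393 393 394 398)
 (.a 0 [393,395,398] (.q 301 (.a 1 [] (.d 332 3342 270 3373 425)
 (.a 1 [270] (.r 333 1293 365 (.r 332 3373 425 (.d 331 329 329 330 334)))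
 (.a 1 [425] (.r 333 1293 365 (.r 332 3342 270 (.d 331 329 329 330 334)))
 (.a 0 [332] (.q 362 (.a 1 [] (.d 298 1290 266 1322 426)
 (.a 1 [266] (.d 426 1322 298 1354 458)
 (.a 1 [298] (.r 365 1293 333 (.d 364 361 361 362 366))
 .e))))
 .e)))))
 .e)))
 .e)))) (by decide +kernel)

theorem b3_623 : S (PX [269,401] [302,303,335,368,467]) := S.of (.q 395 (.a 1 [] (.d 393 392 392 393 397)
 (.a 1 [392] (.d 397 393 393 394 398)
 (.a 0 [393,397] (.q 330 (.a 1 [] (.d 297 2312 264 2345 429)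
 (.a 1 [264] (.d 429 2345 297 2378 462)
 (.a 0 [297,429] (.q 331 (.a 1 [] (.d 299 1291 267 1323 427)
 (.a 1 [267] (.d 427 1323 299 1355 459)
 (.a 0 [299,427] (.q 300 (.a 1 [] (.d 238 3279 207 3310 362)
 (.a 1 [207] (.r 362 3310 238 (.d 426 1322 298 1354 458))
 (.a 0 [238,362] (.q 332 (.a 1 [] (.d 329 328 328 329 333)
 (.a 1 [328] (.d 333 329 329 330 334)
 (.a 1 [329] (.d 301 3342 270 3373 425)
 .e))))
 .e))))
 .e))))
 .e))))
 .e)))) (by decide +kernel)

theorem b3_624 : S (PX [269,401] [302,304,335,368,467]) := S.of (.q 330 (.a 1 [] (.d 297 2312 264 2345 429)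
 (.a 1 [264] (.d 429 2345 297 2378 462)
 (.a 0 [297,429] (.q 362 (.a 1 [] (.d 298 1290 266 1322 426)
 (.a 1 [266] (.d 426 1322 298 1354 458)
 (.a 0 [298,426] (.q 395 (.a 1 [] (.d 393 392 392 393 397)
 (.a 1 [392] (.d 397 393 393 394 398)
 (.a 1 [397] (.r 393 392 392 (.r 331 3341 300 (.d 299 1291 267 1323 427)))
 (.a 0 [393] (.q 301 (.a 1 [] (.d 332 3342 270 3373 425)
 (.a 1 [270] (.r 397 394 398 (.r 365 1293 333 (.d 364 361 361 362 366)))
 .e)))
 .e)))))
 .e))))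
 .e)))) (by decide +kernel)

theorem b3_625 : S (PX [269,401] [302,305,335,368,467]) := S.of (.q 395 (.a 1 [] (.d 393 392 392 393 397)
 (.a 1 [392] (.d 397 393 393 394 398)
 (.a 0 [393,397] (.q 331 (.a 1 [] (.d 299 1291 267 1323 427)
 (.a 1 [267] (.d 427 1323 299 1355 459)
 (.a 0 [299,427] (.q 330 (.a 1 [] (.d 297 2312 264 2345 429)
 (.a 1 [264] (.d 429 2345 297 2378 462)
 (.a 0 [297,429] (.q 332 (.a 1 [] (.d 329 328 328 329 333)
 (.a 1 [328] (.d 333 329 329 330 334)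
 (.a 1 [329] (.d 301 3342 270 3373 425)
 .e))))
 .e))))
 .e))))
 .e)))) (by decide +kernel)

theorem b3_626 : S (PX [269,401] [302,328,335,368,467]) := S.of (.q 395 (.a 1 [] (.d 393 392 392 393 397)
 (.a 1 [392] (.d 397 393 393 394 398)
 (.a 0 [393,397] (.q 331 (.a 1 [] (.d 299 1291 267 1323 427)
 (.a 1 [267] (.d 427 1323 299 1355 459)
 (.a 0 [299,427] (.q 332 (.a 1 [] (.d 301 3342 270 3373 425)
 (.a 1 [270] (.d 425 3373 301 3404 456)
 (.a 0 [301,425] (.q 300 (.a 1 [] (.d 364 1292 268 1324 428)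
 (.a 1 [268] (.d 238 3279 207 3310 362)
 .e)))
 .e))))
 .e))))
 .e)))) (by decide +kernel)

theorem b3_627 : S (PX [269,401] [302,330,335,368,467]) := S.of (.q 395 (.a 1 [] (.d 393 392 392 393 397)
 (.a 1 [392] (.d 397 393 393 394 398)
 (.a 0 [393,397] (.q 331 (.a 1 [] (.d 299 1291 267 1323 427)
 (.a 1 [267] (.d 427 1323 299 1355 459)
 (.a 0 [299,427] (.q 332 (.a 1 [] (.d 301 3342 270 3373 425)
 (.a 1 [270] (.d 425 3373 301 3404 456)
 (.a 0 [301,425] (.q 300 (.a 1 [] (.d 364 1292 268 1324 428)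
 (.a 1 [268] (.d 238 3279 207 3310 362)
 .e)))
 .e))))
 .e))))
 .e)))) (by decide +kernel)

theorem b3_628 : S (PX [269,401] [302,332,335,368,467]) := S.of (.q 395 (.a 1 [] (.d 393 392 392 393 397)
 (.a 1 [392] (.d 397 393 393 394 398)
 (.a 0 [393,397] (.q 331 (.a 1 [] (.d 299 1291 267 1323 427)
 (.a 1 [267] (.d 427 1323 299 1355 459)
 (.a 0 [299] (.q 330 (.a 1 [] (.d 297 2312 264 2345 429)
 (.a 1 [264] (.d 429 2345 297 2378 462)
 (.a 0 [297,429] (.q 362 (.a 1 [] (.d 298 1290 266 1322 426)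
 (.a 1 [266] (.d 426 1322 298 1354 458)
 (.a 0 [298] (.r 427 1355 459 (.r 458 1354 426 (.d 489 3437 365 3468 520)))
 (.a 0 [426] (.q 360 (.a 1 [] (.d 361 359 359 360 364)
 (.a 0 [359,361,364] (.q 329 (.a 1 [] (.d 296 2311 263 2344 428)
 (.a 1 [263] (.d 428 2344 296 2377 461)
 (.a 1 [296] (.r 298 1290 266 (.d 391 3339 267 3370 422))
 .e))))
 .e)))
 .e)))))
 .e))))
 (.a 0 [427] (.q 300 (.a 1 [] (.d 238 3279 207 3310 362)
 (.a 0 [207,238,362] (.q 297 (.a 1 [] (.d 330 2312 264 2345 429)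
 (.a 1 [264] (.r 299 1291 267 (.d 298 296 296 297 301))
 .e)))
 .e)))
 .e)))))
 .e)))) (by decide +kernel)

theorem b3_629 : S (PX [269,401] [302,333,335,368,467]) := S.of (.q 395 (.a 1 [] (.d 393 392 392 393 397)
 (.a 1 [392] (.d 397 393 393 394 398)
 (.a 0 [393,397] (.q 332 (.a 1 [] (.d 301 3342 270 3373 425)
 (.a 1 [270] (.d 425 3373 301 3404 456)
 (.a 0 [301,425] (.q 429 (.a 1 [] (.d 330 2345 297 2378 462)
 (.a 1 [297] (.d 462 2378 330 2411 495)
 (.a 0 [330,462] (.q 427 (.a 1 [] (.d 331 1323 299 1355 459)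
 (.a 1 [299] (.d 459 1355 331 1387 491)
 (.a 0 [331,459] (.q 428 (.a 1 [] (.d 430 426 426 427 431)
 (.a 1 [426] (.d 364 1324 300 1356 460)
 .e)))
 .e))))
 .e))))
 .e))))
 .e)))) (by decide +kernel)

theorem b3_630 : S (PX [269,401] [302,335,336,368,467]) := S.of (.q 395 (.a 1 [] (.d 393 392 392 393 397)
 (.a 1 [392] (.d 397 393 393 394 398)
 (.a 0 [393,397] (.q 332 (.a 1 [] (.d 301 3342 270 3373 425)
 (.a 1 [270] (.d 425 3373 301 3404 456)
 (.a 0 [301,425] (.q 331 (.a 1 [] (.d 299 1291 267 1323 427)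
 (.a 1 [267] (.d 427 1323 299 1355 459)
 (.a 0 [299,427] (.q 300 (.a 1 [] (.d 364 1292 268 1324 428)
 (.a 1 [268] (.d 238 3279 207 3310 362)
 .e)))
 .e))))
 .e))))
 .e)))) (by decide +kernel)

theorem b3_631 : S (PX [269,401] [302,335,365,368,467]) := S.of (.q 395 (.a 1 [] (.d 393 392 392 393 397)
 (.a 1 [392] (.d 397 393 393 394 398)
 (.a 0 [393,397] (.q 429 (.a 1 [] (.d 330 2345 297 2378 462)
 (.a 1 [297] (.d 462 2378 330 2411 495)
 (.a 0 [330,462] (.q 332 (.a 1 [] (.d 301 3342 270 3373 425)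
 (.a 1 [270] (.d 425 3373 301 3404 456)
 (.a 0 [301,425] (.q 427 (.a 1 [] (.d 331 1323 299 1355 459)
 (.a 1 [299] (.d 459 1355 331 1387 491)
 (.a 0 [331,459] (.q 428 (.a 1 [] (.d 430 426 426 427 431)
 (.a 1 [426] (.d 364 1324 300 1356 460)
 .e)))
 .e))))
 .e))))
 .e))))
 .e)))) (by decide +kernel)

theorem b3_632 : S (PX [269,401] [302,335,366,368,467]) := S.of (.q 330 (.a 1 [] (.d 297 2312 264 2345 429)
 (.a 1 [264] (.d 429 2345 297 2378 462)
 (.a 0 [297,429] (.q 362 (.a 1 [] (.d 298 1290 266 1322 426)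
 (.a 1 [266] (.d 426 1322 298 1354 458)
 (.a 0 [298,426] (.q 300 (.a 1 [] (.d 331 3310 238 3341 393)
 (.a 1 [238] (.r 393 3341 331 (.d 395 392 392 393 397))
 (.a 0 [331,393] (.q 364 (.a 1 [] (.d 361 360 360 361 365)
 (.a 1 [360] (.d 332 1292 268 1324 428)
 .e)))
 .e))))
 .e))))
 .e)))) (by decide +kernel)

theorem b3_633 : S (PX [269,401] [302,335,368,392,467]) := S.of (.q 330 (.a 1 [] (.d 297 2312 264 2345 429)
 (.a 1 [264] (.d 429 2345 297 2378 462)
 (.a 0 [297,429] (.q 362 (.a 1 [] (.d 298 1290 266 1322 426)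
 (.a 1 [266] (.d 426 1322 298 1354 458)
 (.a 0 [298,426] (.q 364 (.a 1 [] (.d 361 360 360 361 365)
 (.a 1 [360] (.d 365 361 361 362 366)
 (.a 0 [361,365] (.q 332 (.a 1 [] (.d 300 1292 268 1324 428)
 (.a 1 [268] (.d 428 1324 300 1356 460)
 (.a 1 [300] (.d 301 3342 270 3373 425)
 .e))))
 .e))))
 .e))))
 .e)))) (by decide +kernel)

theorem b3_634 : S (PX [269,401] [302,335,368,397,467]) := S.of (.q 330 (.a 1 [] (.d 297 2312 264 2345 429)
 (.a 1 [264] (.d 429 2345 297 2378 462)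
 (.a 0 [297,429] (.q 362 (.a 1 [] (.d 298 1290 266 1322 426)
 (.a 1 [266] (.d 426 1322 298 1354 458)
 (.a 0 [298,426] (.q 331 (.a 1 [] (.d 300 3310 238 3341 393)
 (.a 1 [238] (.r 393 3341 300 (.r 395 392 392 (.d 427 1323 299 1355 459)))
 (.a 0 [300,393] (.q 299 (.a 1 [] (.d 267 1259 235 1291 395)
 (.a 1 [235] (.d 395 1291 267 1323 427)
 (.a 0 [267,395] (.q 333 (.a 1 [] (.d 332 329 329 330 334)
 (.a 1 [329] (.r 332 330 334 (.d 301 3342 270 3373 425))
 (.a 1 [334] (.r 332 329 329 (.d 425 3373 301 3404 456))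
 (.a 0 [332] (.q 361 (.a 1 [] (.d 360 359 359 360 364)
 (.a 1 [359] (.d 364 360 360 361 365)
 (.a 1 [360] (.d 268 3309 237 3340 392)
 .e))))
 .e)))))
 .e))))
 .e))))
 .e))))
 .e)))) (by decide +kernel)

theorem b3_635 : S (PX [269,401] [302,335,368,425,467]) := S.of (.q 395 (.a 1 [] (.d 393 392 392 393 397)
 (.a 1 [392] (.d 397 393 393 394 398)
 (.a 0 [393,397] (.q 331 (.a 1 [] (.d 299 1291 267 1323 427)
 (.a 1 [267] (.d 427 1323 299 1355 459)
 (.a 0 [299,427] (.q 300 (.a 1 [] (.d 238 3279 207 3310 362)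
 (.a 0 [207,238,362] (.q 332 (.a 1 [] (.d 364 1292 268 1324 428)
 (.a 1 [428] (.r 268 1292 364 (.r 270 3342 301 (.d 271 267 267 268 272)))
 (.a 0 [268,364] (.q 330 (.a 1 [] (.d 329 328 328 329 333)
 (.a 1 [328] (.d 333 329 329 330 334)
 (.a 1 [329] (.d 297 2312 264 2345 429)
 .e))))
 .e))))
 .e)))
 .e))))
 .e)))) (by decide +kernel)

theorem b3_636 : S (PX [269,401] [302,335,368,426,467]) := S.of (.q 395 (.a 1 [] (.d 393 392 392 393 397)
 (.a 1 [392] (.d 397 393 393 394 398)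
 (.a 0 [393,397] (.q 331 (.a 1 [] (.d 299 1291 267 1323 427)
 (.a 1 [267] (.d 427 1323 299 1355 459)
 (.a 0 [299,427] (.q 429 (.a 1 [] (.d 330 2345 297 2378 462)
 (.a 1 [297] (.d 462 2378 330 2411 495)
 (.a 0 [330,462] (.q 300 (.a 1 [] (.d 238 3279 207 3310 362)
 (.a 0 [207,238,362] (.q 332 (.a 1 [] (.d 364 1292 268 1324 428)
 (.a 1 [268] (.d 425 3373 301 3404 456)
 .e)))
 .e)))
 .e))))
 .e))))
 .e)))) (by decide +kernel)

theorem b3_637 : S (PX [269,401] [302,335,368,428,467]) := S.of (.q 397 (.a 1 [] (.d 395 393 393 394 398)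
 (.a 0 [393,395,398] (.q 330 (.a 1 [] (.d 297 2312 264 2345 429)
 (.a 1 [264] (.d 429 2345 297 2378 462)
 (.a 0 [297,429] (.q 301 (.a 1 [] (.d 332 3342 270 3373 425)
 (.a 1 [270] (.r 333 1293 365 (.r 332 3373 425 (.d 331 329 329 330 334)))
 (.a 1 [425] (.r 333 1293 365 (.r 332 3342 270 (.d 331 329 329 330 334)))
 (.a 0 [332] (.q 362 (.a 1 [] (.d 298 1290 266 1322 426)
 (.a 1 [266] (.d 426 1322 298 1354 458)
 (.a 1 [298] (.r 365 1293 333 (.d 364 361 361 362 366))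
 .e))))
 .e)))))
 .e))))
 .e))) (by decide +kernel)

theorem b3_638 : S (PX [269,401] [302,335,368,457,467]) := S.of (.q 395 (.a 1 [] (.d 393 392 392 393 397)
 (.a 1 [392] (.d 397 393 393 394 398)
 (.a 0 [393,397] (.q 331 (.a 1 [] (.d 299 1291 267 1323 427)
 (.a 1 [267] (.d 427 1323 299 1355 459)
 (.a 0 [299,427] (.q 330 (.a 1 [] (.d 297 2312 264 2345 429)
 (.a 1 [264] (.d 429 2345 297 2378 462)
 (.a 0 [297,429] (.q 332 (.a 1 [] (.d 329 328 328 329 333)
 (.a 1 [328] (.d 333 329 329 330 334)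
 (.a 1 [329] (.d 301 3342 270 3373 425)
 .e))))
 .e))))
 .e))))
 .e)))) (by decide +kernel)

theorem b3_639 : S (PX [269,401] [302,335,368,459,467]) := S.of (.q 330 (.a 1 [] (.d 297 2312 264 2345 429)
 (.a 1 [264] (.d 429 2345 297 2378 462)
 (.a 0 [297,429] (.q 362 (.a 1 [] (.d 298 1290 266 1322 426)
 (.a 1 [266] (.d 426 1322 298 1354 458)
 (.a 0 [298,426] (.q 393 (.a 1 [] (.d 395 392 392 393 397)
 (.a 1 [392] (.r 331 3341 300 (.r 395 393 397 (.d 299 1291 267 1323 427)))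
 (.a 1 [397] (.r 331 3341 300 (.r 395 392 392 (.d 299 1291 267 1323 427)))
 (.a 0 [395] (.q 364 (.a 1 [] (.d 361 360 360 361 365)
 (.a 1 [360] (.d 365 361 361 362 366)
 (.a 1 [361] (.r 300 3341 331 (.d 332 1292 268 1324 428))
 .e))))
 .e)))))
 .e))))
 .e)))) (by decide +kernel)

theorem b3_640 : S (PX [269,401] [302,335,368,461,467]) := S.of (.q 395 (.a 1 [] (.d 393 392 392 393 397)
 (.a 1 [392] (.d 397 393 393 394 398)
 (.a 0 [393,397] (.q 429 (.a 1 [] (.d 330 2345 297 2378 462)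
 (.a 1 [297] (.d 462 2378 330 2411 495)
 (.a 0 [330,462] (.q 331 (.a 1 [] (.d 299 1291 267 1323 427)
 (.a 1 [267] (.d 427 1323 299 1355 459)
 (.a 0 [299,427] (.q 332 (.a 1 [] (.d 301 3342 270 3373 425)
 (.a 1 [270] (.d 425 3373 301 3404 456)
 (.a 0 [301,425] (.q 300 (.a 1 [] (.d 364 1292 268 1324 428)
 (.a 1 [268] (.d 238 3279 207 3310 362)
 .e)))
 .e))))
 .e))))
 .e))))
 .e)))) (by decide +kernel)

theorem b3_641 : S (PX [269,401] [302,335,368,467,489]) := S.of (.q 395 (.a 1 [] (.d 393 392 392 393 397)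
 (.a 1 [392] (.d 397 393 393 394 398)
 (.a 0 [393,397] (.q 425 (.a 1 [] (.d 332 3373 301 3404 456)
 (.a 1 [301] (.d 456 3404 332 3435 487)
 (.a 0 [332,456] (.q 330 (.a 1 [] (.d 297 2312 264 2345 429)
 (.a 1 [264] (.d 429 2345 297 2378 462)
 (.a 0 [297,429] (.q 426 (.a 1 [] (.d 362 1322 298 1354 458)
 (.a 0 [298,362,458] (.q 427 (.a 1 [] (.d 424 423 423 424 428)
 (.a 1 [423] (.d 459 1355 331 1387 491)
 .e)))
 .e)))
 .e))))
 .e))))
 .e)))) (by decide +kernel)

theorem b3_642 : S (PX [401] [304,335,368,467]) := S.of (.q 332 (.a 1 [] (.d 301 3342 270 3373 425)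
 (.a 1 [270] (.d 425 3373 301 3404 456)
 (.a 0 [301,425] (.q 397 (.a 1 [] (.d 395 393 393 394 398)
 (.a 0 [393,395,398] (.q 429 (.a 1 [] (.d 330 2345 297 2378 462)
 (.a 1 [297] (.d 462 2378 330 2411 495)
 (.a 0 [330,462] (.q 365 (.a 1 [] (.d 461 1357 333 1389 493)
 (.a 0 [333,461,493] (.q 364 (.a 1 [] (.d 362 361 361 362 366)
 (.a 1 [361] (.d 366 362 362 363 367)
 (.a 1 [362] (.d 300 1292 268 1324 428)
 .e))))
 .e)))
 .e))))
 .e)))
 .e)))) (by decide +kernel)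

theorem b3_643 : S (PX [401] [330,335,368,467]) := S.of (.q 332 (.a 1 [] (.d 301 3342 270 3373 425)
 (.a 1 [270] (.d 425 3373 301 3404 456)
 (.a 0 [301,425] (.q 364 (.a 1 [] (.d 300 1292 268 1324 428)
 (.a 1 [268] (.d 428 1324 300 1356 460)
 (.a 0 [300,428] (.q 361 (.a 1 [] (.d 362 360 360 361 365)
 (.a 0 [360,362,365] (.q 427 (.a 1 [] (.d 328 2343 295 2376 460)
 (.a 1 [295] (.d 460 2376 328 2409 493)
 (.a 0 [328,460] (.q 395 (.a 1 [] (.d 393 392 392 393 397)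
 (.a 1 [392] (.d 397 393 393 394 398)
 (.a 1 [393] (.d 331 1323 299 1355 459)
 .e))))
 .e))))
 .e)))
 .e))))
 .e)))) (by decide +kernel)

theorem b3_644 : S (PX [401] [331,335,368,467]) := S.of (.q 332 (.a 1 [] (.d 301 3342 270 3373 425)
 (.a 1 [270] (.d 425 3373 301 3404 456)
 (.a 0 [301,425] (.q 364 (.a 1 [] (.d 300 1292 268 1324 428)
 (.a 1 [268] (.d 428 1324 300 1356 460)
 (.a 0 [300,428] (.q 362 (.a 1 [] (.d 361 360 360 361 365)
 (.a 1 [360] (.d 365 361 361 362 366)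
 (.a 0 [361,365] (.q 330 (.a 1 [] (.d 298 1290 266 1322 426)
 (.a 1 [266] (.d 426 1322 298 1354 458)
 (.a 1 [298] (.d 297 2312 264 2345 429)
 .e))))
 .e))))
 .e))))
 .e)))) (by decide +kernel)

theorem b3_645 : S (PX [401] [332,335,368,467]) := S.of (.q 330 (.a 1 [] (.d 297 2312 264 2345 429)
 (.a 1 [264] (.d 429 2345 297 2378 462)
 (.a 0 [297,429] (.q 362 (.a 1 [] (.d 298 1290 266 1322 426)
 (.a 1 [266] (.d 426 1322 298 1354 458)
 (.a 0 [298,426] (.q 361 (.a 1 [] (.d 360 359 359 360 364)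
 (.a 1 [359] (.d 364 360 360 361 365)
 (.a 0 [360,364] (.q 427 (.a 1 [] (.d 328 2343 295 2376 460)
 (.a 1 [295] (.d 460 2376 328 2409 493)
 (.a 0 [328,460] (.q 395 (.a 1 [] (.d 393 392 392 393 397)
 (.a 1 [392] (.d 397 393 393 394 398)
 (.a 1 [393] (.d 331 1323 299 1355 459)
 .e))))
 .e))))
 .e))))
 .e))))
 .e)))) (by decide +kernel)

theorem b3_646 : S (PX [401] [333,335,368,467]) := S.of (.q 332 (.a 1 [] (.d 301 3342 270 3373 425)
 (.a 1 [270] (.d 425 3373 301 3404 456)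
 (.a 0 [301,425] (.q 364 (.a 1 [] (.d 300 1292 268 1324 428)
 (.a 1 [268] (.d 428 1324 300 1356 460)
 (.a 0 [300,428] (.q 397 (.a 1 [] (.d 395 393 393 394 398)
 (.a 0 [393,395,398] (.q 298 (.a 1 [] (.d 331 2313 265 2346 430)
 (.a 0 [265,331,430] (.q 362 (.a 1 [] (.d 361 360 360 361 365)
 (.a 1 [360] (.d 365 361 361 362 366)
 (.a 1 [361] (.d 330 1290 266 1322 426)
 .e))))
 .e)))
 .e)))
 .e))))
 .e)))) (by decide +kernel)

theorem b3_647 : S (PX [401] [335,336,368,467]) := S.of (.q 332 (.a 1 [] (.d 301 3342 270 3373 425)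
 (.a 1 [270] (.d 425 3373 301 3404 456)
 (.a 0 [301,425] (.q 364 (.a 1 [] (.d 300 1292 268 1324 428)
 (.a 1 [268] (.d 428 1324 300 1356 460)
 (.a 0 [300,428] (.q 397 (.a 1 [] (.d 395 393 393 394 398)
 (.a 0 [393,395,398] (.q 429 (.a 1 [] (.d 330 2345 297 2378 462)
 (.a 1 [297] (.d 462 2378 330 2411 495)
 (.a 0 [330,462] (.q 365 (.a 1 [] (.d 362 361 361 362 366)
 (.a 1 [361] (.d 366 362 362 363 367)
 (.a 1 [362] (.d 461 1357 333 1389 493)
 .e))))
 .e))))
 .e)))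
 .e))))
 .e)))) (by decide +kernel)

theorem b3_648 : S (PX [401] [335,364,368,467]) := S.of (.q 395 (.a 1 [] (.d 393 392 392 393 397)
 (.a 1 [392] (.d 397 393 393 394 398)
 (.a 0 [393,397] (.q 331 (.a 1 [] (.d 299 1291 267 1323 427)
 (.a 1 [267] (.d 427 1323 299 1355 459)
 (.a 0 [299,427] (.q 330 (.a 1 [] (.d 297 2312 264 2345 429)
 (.a 1 [264] (.d 429 2345 297 2378 462)
 (.a 0 [297,429] (.q 332 (.a 1 [] (.d 329 328 328 329 333)
 (.a 1 [328] (.d 333 329 329 330 334)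
 (.a 1 [329] (.d 301 3342 270 3373 425)
 .e))))
 .e))))
 .e))))
 .e)))) (by decide +kernel)

theorem b3_649 : S (PX [401] [335,366,368,467]) := S.of (.q 330 (.a 1 [] (.d 297 2312 264 2345 429)
 (.a 1 [264] (.d 429 2345 297 2378 462)
 (.a 0 [297,429] (.q 425 (.a 1 [] (.d 332 3373 301 3404 456)
 (.a 1 [301] (.d 456 3404 332 3435 487)
 (.a 0 [332,456] (.q 426 (.a 1 [] (.d 362 1322 298 1354 458)
 (.a 0 [298,362,458] (.q 423 (.a 1 [] (.d 424 422 422 423 427)
 (.a 0 [422,424,427] (.q 392 (.a 1 [] (.d 361 3371 299 3402 454)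
 (.a 1 [299] (.r 393 392 395 (.r 361 3402 454 (.d 457 1353 329 1385 489)))
 (.a 1 [454] (.r 393 392 395 (.r 361 3371 299 (.d 457 1353 329 1385 489)))
 (.a 0 [361] (.r 393 392 395 (.q 327 (.a 1 [] (.d 360 2342 294 2375 459)
 (.a 1 [294] (.r 391 390 390 (.d 359 1319 295 1351 455))
 .e))))
 .e)))))
 .e)))
 .e)))
 .e))))
 .e)))) (by decide +kernel)

theorem b3_650 : S (PX [401] [335,367,368,467]) := S.of (.q 395 (.a 1 [] (.d 393 392 392 393 397)
 (.a 1 [392] (.d 397 393 393 394 398)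
 (.a 0 [393,397] (.q 332 (.a 1 [] (.d 301 3342 270 3373 425)
 (.a 1 [270] (.d 425 3373 301 3404 456)
 (.a 0 [301,425] (.q 331 (.a 1 [] (.d 299 1291 267 1323 427)
 (.a 1 [267] (.d 427 1323 299 1355 459)
 (.a 0 [299,427] (.q 330 (.a 1 [] (.d 329 328 328 329 333)
 (.a 1 [328] (.d 333 329 329 330 334)
 (.a 1 [329] (.d 297 2312 264 2345 429)
 .e))))
 .e))))
 .e))))
 .e)))) (by decide +kernel)

theorem b3_651 : S (PX [401] [335,368,399,467]) := S.of (.q 395 (.a 1 [] (.d 393 392 392 393 397)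
 (.a 1 [392] (.d 397 393 393 394 398)
 (.a 0 [393,397] (.q 332 (.a 1 [] (.d 301 3342 270 3373 425)
 (.a 1 [270] (.d 425 3373 301 3404 456)
 (.a 0 [301,425] (.q 428 (.a 1 [] (.d 364 1324 300 1356 460)
 (.a 0 [300,364,460] (.q 429 (.a 1 [] (.d 330 2345 297 2378 462)
 (.a 1 [297] (.d 462 2378 330 2411 495)
 (.a 0 [330,462] (.q 427 (.a 1 [] (.d 430 426 426 427 431)
 (.a 1 [426] (.d 459 1355 331 1387 491)
 .e)))
 .e))))
 .e)))
 .e))))
 .e)))) (by decide +kernel)

theorem b3_652 : S (PX [401] [335,368,425,467]) := S.of (.q 395 (.a 1 [] (.d 393 392 392 393 397)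
 (.a 1 [392] (.d 397 393 393 394 398)
 (.a 0 [393,397] (.q 331 (.a 1 [] (.d 299 1291 267 1323 427)
 (.a 1 [267] (.d 427 1323 299 1355 459)
 (.a 0 [299,427] (.q 330 (.a 1 [] (.d 297 2312 264 2345 429)
 (.a 1 [264] (.d 429 2345 297 2378 462)
 (.a 0 [297] (.q 329 (.a 1 [] (.d 328 327 327 328 332)
 (.a 1 [327] (.d 332 328 328 329 333)
 (.a 0 [328,332] (.q 362 (.a 1 [] (.d 298 1290 266 1322 426)
 (.a 1 [266] (.d 426 1322 298 1354 458)
 (.a 1 [298] (.d 296 2311 263 2344 428)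
 .e))))
 .e))))
 (.a 0 [429] (.q 426 (.a 1 [] (.d 362 1322 298 1354 458)
 (.a 0 [298,362,458] (.q 333 (.a 1 [] (.d 332 329 329 330 334)
 (.a 1 [329] (.d 364 3374 302 3405 457)
 .e)))
 .e)))
 .e)))))
 .e))))
 .e)))) (by decide +kernel)

theorem b3_653 : S (PX [401] [335,368,428,467]) := S.of (.q 397 (.a 1 [] (.d 395 393 393 394 398)
 (.a 0 [393,395,398] (.q 429 (.a 1 [] (.d 330 2345 297 2378 462)
 (.a 1 [297] (.d 462 2378 330 2411 495)
 (.a 0 [330,462] (.q 365 (.a 1 [] (.d 333 1325 301 1357 461)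
 (.a 1 [301] (.d 461 1357 333 1389 493)
 (.a 1 [461] (.r 301 1325 333 (.d 332 3342 270 3373 425))
 (.a 0 [333] (.q 427 (.a 1 [] (.d 334 3375 303 3406 458)
 (.a 1 [303] (.d 458 3406 334 3437 489)
 (.a 1 [334] (.r 493 1389 461 (.d 460 2409 361 2442 526))
 .e))))
 .e)))))
 .e))))
 .e))) (by decide +kernel)

theorem b3_654 : S (PX [401] [335,368,457,467]) := S.of (.q 395 (.a 1 [] (.d 393 392 392 393 397)
 (.a 1 [392] (.d 397 393 393 394 398)
 (.a 0 [393,397] (.q 331 (.a 1 [] (.d 299 1291 267 1323 427)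
 (.a 1 [267] (.d 427 1323 299 1355 459)
 (.a 0 [299,427] (.q 330 (.a 1 [] (.d 297 2312 264 2345 429)
 (.a 1 [264] (.d 429 2345 297 2378 462)
 (.a 0 [297,429] (.q 332 (.a 1 [] (.d 329 328 328 329 333)
 (.a 1 [328] (.d 333 329 329 330 334)
 (.a 1 [329] (.d 301 3342 270 3373 425)
 .e))))
 .e))))
 .e))))
 .e)))) (by decide +kernel)

theorem b3_655 : S (PX [401] [335,368,459,467]) := S.of (.q 332 (.a 1 [] (.d 301 3342 270 3373 425)
 (.a 1 [270] (.d 425 3373 301 3404 456)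
 (.a 0 [301,425] (.q 364 (.a 1 [] (.d 300 1292 268 1324 428)
 (.a 1 [268] (.d 428 1324 300 1356 460)
 (.a 0 [300,428] (.q 397 (.a 1 [] (.d 395 393 393 394 398)
 (.a 0 [393,395,398] (.q 429 (.a 1 [] (.d 330 2345 297 2378 462)
 (.a 1 [297] (.d 462 2378 330 2411 495)
 (.a 0 [330,462] (.q 365 (.a 1 [] (.d 362 361 361 362 366)
 (.a 1 [361] (.d 366 362 362 363 367)
 (.a 1 [362] (.d 461 1357 333 1389 493)
 .e))))
 .e))))
 .e)))
 .e))))
 .e)))) (by decide +kernel)

theorem b3_656 : S (PX [401] [335,368,461,467]) := S.of (.q 395 (.a 1 [] (.d 393 392 392 393 397)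
 (.a 1 [392] (.d 397 393 393 394 398)
 (.a 0 [393,397] (.q 429 (.a 1 [] (.d 330 2345 297 2378 462)
 (.a 1 [297] (.d 462 2378 330 2411 495)
 (.a 0 [330,462] (.q 332 (.a 1 [] (.d 301 3342 270 3373 425)
 (.a 1 [270] (.d 425 3373 301 3404 456)
 (.a 0 [301,425] (.q 299 (.a 1 [] (.d 331 1291 267 1323 427)
 (.a 0 [267,331,427] (.q 365 (.a 1 [] (.d 266 2281 233 2314 398)
 (.a 1 [233] (.d 398 2314 266 2347 431)
 (.a 0 [266,398] (.q 364 (.a 1 [] (.d 362 361 361 362 366)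
 (.a 1 [361] (.d 366 362 362 363 367)
 (.a 1 [362] (.d 300 1292 268 1324 428)
 .e))))
 .e))))
 .e)))
 .e))))
 .e))))
 .e)))) (by decide +kernel)

theorem b3_657 : S (PX [401] [335,368,467,489]) := S.of (.q 395 (.a 1 [] (.d 393 392 392 393 397)
 (.a 1 [392] (.d 397 393 393 394 398)
 (.a 0 [393,397] (.q 425 (.a 1 [] (.d 332 3373 301 3404 456)
 (.a 1 [301] (.d 456 3404 332 3435 487)
 (.a 0 [332,456] (.q 330 (.a 1 [] (.d 297 2312 264 2345 429)
 (.a 1 [264] (.d 429 2345 297 2378 462)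
 (.a 0 [297,429] (.q 426 (.a 1 [] (.d 362 1322 298 1354 458)
 (.a 0 [298,362,458] (.q 427 (.a 1 [] (.d 424 423 423 424 428)
 (.a 1 [423] (.d 459 1355 331 1387 491)
 .e)))
 .e)))
 .e))))
 .e))))
 .e)))) (by decide +kernel)

theorem b3_718 : S (PX [368] [304,335,401,467]) := S.of (.q 332 (.a 1 [] (.d 301 3342 270 3373 425)
 (.a 1 [270] (.d 425 3373 301 3404 456)
 (.a 0 [301,425] (.q 397 (.a 1 [] (.d 395 393 393 394 398)
 (.a 0 [393,395,398] (.q 429 (.a 1 [] (.d 330 2345 297 2378 462)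
 (.a 1 [297] (.d 462 2378 330 2411 495)
 (.a 0 [330,462] (.q 461 (.a 1 [] (.d 365 1357 333 1389 493)
 (.a 1 [333] (.d 493 1389 365 1421 525)
 (.a 0 [365,493] (.q 428 (.a 1 [] (.d 364 1324 300 1356 460)
 (.a 1 [300] (.r 460 1356 364 (.r 492 1420 524 (.r 430 3440 399 (.d 427 426 426 427 431))))
 (.a 0 [364,460] (.q 430 (.a 1 [] (.d 427 426 426 427 431)
 (.a 1 [426] (.d 399 3409 337 3440 492)
 .e)))
 .e))))
 .e))))
 .e))))
 .e)))
 .e)))) (by decide +kernel)

theorem b3_719 : S (PX [368] [330,335,401,467]) := S.of (.q 332 (.a 1 [] (.d 301 3342 270 3373 425)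
 (.a 1 [270] (.d 425 3373 301 3404 456)
 (.a 0 [301,425] (.q 364 (.a 1 [] (.d 300 1292 268 1324 428)
 (.a 1 [268] (.d 428 1324 300 1356 460)
 (.a 0 [300,428] (.q 361 (.a 1 [] (.d 362 360 360 361 365)
 (.a 0 [360,362,365] (.q 427 (.a 1 [] (.d 328 2343 295 2376 460)
 (.a 1 [295] (.d 460 2376 328 2409 493)
 (.a 0 [328,460] (.q 395 (.a 1 [] (.d 393 392 392 393 397)
 (.a 1 [392] (.d 397 393 393 394 398)
 (.a 1 [393] (.d 331 1323 299 1355 459)
 .e))))
 .e))))
 .e)))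
 .e))))
 .e)))) (by decide +kernel)

theorem b3_720 : S (PX [368] [332,335,401,467]) := S.of (.q 330 (.a 1 [] (.d 297 2312 264 2345 429)
 (.a 1 [264] (.d 429 2345 297 2378 462)
 (.a 0 [297,429] (.q 362 (.a 1 [] (.d 298 1290 266 1322 426)
 (.a 1 [266] (.d 426 1322 298 1354 458)
 (.a 0 [298,426] (.q 361 (.a 1 [] (.d 360 359 359 360 364)
 (.a 1 [359] (.d 364 360 360 361 365)
 (.a 0 [360,364] (.q 427 (.a 1 [] (.d 328 2343 295 2376 460)
 (.a 1 [295] (.d 460 2376 328 2409 493)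
 (.a 0 [328,460] (.q 395 (.a 1 [] (.d 393 392 392 393 397)
 (.a 1 [392] (.d 397 393 393 394 398)
 (.a 1 [393] (.d 331 1323 299 1355 459)
 .e))))
 .e))))
 .e))))
 .e))))
 .e)))) (by decide +kernel)

theorem b3_721 : S (PX [368] [335,366,401,467]) := S.of (.q 332 (.a 1 [] (.d 301 3342 270 3373 425)
 (.a 1 [270] (.d 425 3373 301 3404 456)
 (.a 0 [301,425] (.q 397 (.a 1 [] (.d 395 393 393 394 398)
 (.a 0 [393,395,398] (.q 428 (.a 1 [] (.d 364 1324 300 1356 460)
 (.a 0 [300,364,460] (.q 429 (.a 1 [] (.d 330 2345 297 2378 462)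
 (.a 1 [297] (.d 462 2378 330 2411 495)
 (.a 0 [330,462] (.q 430 (.a 1 [] (.d 427 426 426 427 431)
 (.a 1 [426] (.d 431 427 427 428 432)
 (.a 0 [427,431] (.q 461 (.a 1 [] (.d 365 1357 333 1389 493)
 (.a 1 [333] (.d 399 3409 337 3440 492)
 .e)))
 .e))))
 .e))))
 .e)))
 .e)))
 .e)))) (by decide +kernel)

theorem b3_722 : S (PX [368] [335,400,401,467]) := S.of (.q 332 (.a 1 [] (.d 301 3342 270 3373 425)
 (.a 1 [270] (.d 425 3373 301 3404 456)
 (.a 0 [301,425] (.q 364 (.a 1 [] (.d 300 1292 268 1324 428)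
 (.a 1 [268] (.d 428 1324 300 1356 460)
 (.a 0 [300,428] (.q 362 (.a 1 [] (.d 361 360 360 361 365)
 (.a 1 [360] (.d 365 361 361 362 366)
 (.a 0 [361,365] (.q 330 (.a 1 [] (.d 298 1290 266 1322 426)
 (.a 1 [266] (.d 426 1322 298 1354 458)
 (.a 1 [298] (.d 297 2312 264 2345 429)
 .e))))
 .e))))
 .e))))
 .e)))) (by decide +kernel)

theorem b3_723 : S (PX [368] [335,401,425,467]) := S.of (.q 395 (.a 1 [] (.d 393 392 392 393 397)
 (.a 1 [392] (.d 397 393 393 394 398)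
 (.a 0 [393,397] (.q 331 (.a 1 [] (.d 299 1291 267 1323 427)
 (.a 1 [267] (.d 427 1323 299 1355 459)
 (.a 0 [299,427] (.q 330 (.a 1 [] (.d 297 2312 264 2345 429)
 (.a 1 [264] (.d 429 2345 297 2378 462)
 (.a 0 [297] (.q 329 (.a 1 [] (.d 328 327 327 328 332)
 (.a 1 [327] (.d 332 328 328 329 333)
 (.a 0 [328,332] (.q 362 (.a 1 [] (.d 298 1290 266 1322 426)
 (.a 1 [266] (.d 426 1322 298 1354 458)
 (.a 1 [298] (.d 296 2311 263 2344 428)
 .e))))
 .e))))
 (.a 0 [429] (.q 426 (.a 1 [] (.d 362 1322 298 1354 458)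
 (.a 0 [298,362,458] (.q 333 (.a 1 [] (.d 332 329 329 330 334)
 (.a 1 [329] (.d 364 3374 302 3405 457)
 .e)))
 .e)))
 .e)))))
 .e))))
 .e)))) (by decide +kernel)

theorem b3_724 : S (PX [368] [335,401,428,467]) := S.of (.q 429 (.a 1 [] (.d 330 2345 297 2378 462)
 (.a 1 [297] (.d 462 2378 330 2411 495)
 (.a 0 [330,462] (.q 397 (.a 1 [] (.d 395 393 393 394 398)
 (.a 0 [393,395,398] (.q 365 (.a 1 [] (.d 333 1325 301 1357 461)
 (.a 1 [301] (.d 461 1357 333 1389 493)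
 (.a 1 [461] (.r 301 1325 333 (.d 332 3342 270 3373 425))
 (.a 0 [333] (.q 427 (.a 1 [] (.d 334 3375 303 3406 458)
 (.a 1 [303] (.d 458 3406 334 3437 489)
 (.a 1 [334] (.r 493 1389 461 (.d 460 2409 361 2442 526))
 .e))))
 .e)))))
 .e)))
 .e)))) (by decide +kernel)

theorem b3_953 : S (PX [] [335,425,467]) := S.of (.q 395 (.a 1 [] (.d 393 392 392 393 397)
 (.a 1 [392] (.d 397 393 393 394 398)
 (.a 0 [393,397] (.q 331 (.a 1 [] (.d 299 1291 267 1323 427)
 (.a 1 [267] (.d 427 1323 299 1355 459)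
 (.a 0 [299,427] (.q 330 (.a 1 [] (.d 297 2312 264 2345 429)
 (.a 1 [264] (.d 429 2345 297 2378 462)
 (.a 0 [297] (.q 329 (.a 1 [] (.d 328 327 327 328 332)
 (.a 1 [327] (.d 332 328 328 329 333)
 (.a 0 [328,332] (.q 362 (.a 1 [] (.d 298 1290 266 1322 426)
 (.a 1 [266] (.d 426 1322 298 1354 458)
 (.a 1 [298] (.d 296 2311 263 2344 428)
 .e))))
 .e))))
 (.a 0 [429] (.q 426 (.a 1 [] (.d 362 1322 298 1354 458)
 (.a 0 [298,362,458] (.q 333 (.a 1 [] (.d 332 329 329 330 334)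
 (.a 1 [329] (.d 364 3374 302 3405 457)
 .e)))
 .e)))
 .e)))))
 .e))))
 .e)))) (by decide +kernel)

theorem b3_954 : S (PX [] [335,428,467]) := S.of (.q 429 (.a 1 [] (.d 330 2345 297 2378 462)
 (.a 1 [297] (.d 462 2378 330 2411 495)
 (.a 0 [330,462] (.q 397 (.a 1 [] (.d 395 393 393 394 398)
 (.a 0 [393,395,398] (.q 365 (.a 1 [] (.d 333 1325 301 1357 461)
 (.a 1 [301] (.d 461 1357 333 1389 493)
 (.a 1 [461] (.r 301 1325 333 (.d 332 3342 270 3373 425))
 (.a 0 [333] (.q 427 (.a 1 [] (.d 334 3375 303 3406 458)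
 (.a 1 [303] (.d 458 3406 334 3437 489)
 (.a 1 [334] (.r 493 1389 461 (.d 460 2409 361 2442 526))
 .e))))
 .e)))))
 .e)))
 .e)))) (by decide +kernel)

theorem b3_1077 : S (PX [401] [304,335,434,467]) := S.of (.q 332 (.a 1 [] (.d 301 3342 270 3373 425)
 (.a 1 [270] (.d 425 3373 301 3404 456)
 (.a 0 [301,425] (.q 397 (.a 1 [] (.d 395 393 393 394 398)
 (.a 0 [393,395,398] (.q 429 (.a 1 [] (.d 330 2345 297 2378 462)
 (.a 1 [297] (.d 462 2378 330 2411 495)
 (.a 0 [330,462] (.q 365 (.a 1 [] (.d 461 1357 333 1389 493)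
 (.a 0 [333,461,493] (.q 364 (.a 1 [] (.d 362 361 361 362 366)
 (.a 1 [361] (.d 366 362 362 363 367)
 (.a 1 [362] (.d 300 1292 268 1324 428)
 .e))))
 .e)))
 .e))))
 .e)))
 .e)))) (by decide +kernel)

theorem b3_1078 : S (PX [401] [330,335,434,467]) := S.of (.q 332 (.a 1 [] (.d 301 3342 270 3373 425)
 (.a 1 [270] (.d 425 3373 301 3404 456)
 (.a 0 [301,425] (.q 395 (.a 1 [] (.d 393 392 392 393 397)
 (.a 1 [392] (.d 397 393 393 394 398)
 (.a 0 [393,397] (.q 299 (.a 1 [] (.d 331 1291 267 1323 427)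
 (.a 0 [267,331,427] (.q 365 (.a 1 [] (.d 266 2281 233 2314 398)
 (.a 1 [233] (.d 398 2314 266 2347 431)
 (.a 0 [266,398] (.q 364 (.a 1 [] (.d 362 361 361 362 366)
 (.a 1 [361] (.d 366 362 362 363 367)
 (.a 1 [362] (.d 300 1292 268 1324 428)
 .e))))
 .e))))
 .e)))
 .e))))
 .e)))) (by decide +kernel)

theorem b3_1079 : S (PX [401] [332,335,434,467]) := S.of (.q 330 (.a 1 [] (.d 297 2312 264 2345 429)
 (.a 1 [264] (.d 429 2345 297 2378 462)
 (.a 0 [297,429] (.q 362 (.a 1 [] (.d 298 1290 266 1322 426)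
 (.a 1 [266] (.d 426 1322 298 1354 458)
 (.a 0 [298,426] (.q 361 (.a 1 [] (.d 360 359 359 360 364)
 (.a 1 [359] (.d 364 360 360 361 365)
 (.a 0 [360,364] (.q 427 (.a 1 [] (.d 328 2343 295 2376 460)
 (.a 1 [295] (.d 460 2376 328 2409 493)
 (.a 0 [328,460] (.q 395 (.a 1 [] (.d 393 392 392 393 397)
 (.a 1 [392] (.d 397 393 393 394 398)
 (.a 1 [393] (.d 331 1323 299 1355 459)
 .e))))
 .e))))
 .e))))
 .e))))
 .e)))) (by decide +kernel)

theorem b3_1080 : S (PX [401] [335,366,434,467]) := S.of (.q 330 (.a 1 [] (.d 297 2312 264 2345 429)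
 (.a 1 [264] (.d 429 2345 297 2378 462)
 (.a 0 [297,429] (.q 362 (.a 1 [] (.d 298 1290 266 1322 426)
 (.a 1 [266] (.d 426 1322 298 1354 458)
 (.a 0 [298,426] (.q 361 (.a 1 [] (.d 360 359 359 360 364)
 (.a 1 [359] (.d 364 360 360 361 365)
 (.a 0 [360,364] (.q 427 (.a 1 [] (.d 328 2343 295 2376 460)
 (.a 1 [295] (.d 460 2376 328 2409 493)
 (.a 0 [328,460] (.q 395 (.a 1 [] (.d 393 392 392 393 397)
 (.a 1 [392] (.d 397 393 393 394 398)
 (.a 1 [393] (.d 331 1323 299 1355 459)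
 .e))))
 .e))))
 .e))))
 .e))))
 .e)))) (by decide +kernel)

theorem b3_1081 : S (PX [401] [335,425,434,467]) := S.of (.q 395 (.a 1 [] (.d 393 392 392 393 397)
 (.a 1 [392] (.d 397 393 393 394 398)
 (.a 0 [393,397] (.q 331 (.a 1 [] (.d 299 1291 267 1323 427)
 (.a 1 [267] (.d 427 1323 299 1355 459)
 (.a 0 [299,427] (.q 330 (.a 1 [] (.d 297 2312 264 2345 429)
 (.a 1 [264] (.d 429 2345 297 2378 462)
 (.a 0 [297] (.q 329 (.a 1 [] (.d 328 327 327 328 332)
 (.a 1 [327] (.d 332 328 328 329 333)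
 (.a 0 [328,332] (.q 362 (.a 1 [] (.d 298 1290 266 1322 426)
 (.a 1 [266] (.d 426 1322 298 1354 458)
 (.a 1 [298] (.d 296 2311 263 2344 428)
 .e))))
 .e))))
 (.a 0 [429] (.q 426 (.a 1 [] (.d 362 1322 298 1354 458)
 (.a 0 [298,362,458] (.q 333 (.a 1 [] (.d 332 329 329 330 334)
 (.a 1 [329] (.d 364 3374 302 3405 457)
 .e)))
 .e)))
 .e)))))
 .e))))
 .e)))) (by decide +kernel)

theorem b3_1082 : S (PX [401] [335,428,434,467]) := S.of (.q 397 (.a 1 [] (.d 395 393 393 394 398)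
 (.a 0 [393,395,398] (.q 429 (.a 1 [] (.d 330 2345 297 2378 462)
 (.a 1 [297] (.d 462 2378 330 2411 495)
 (.a 0 [330,462] (.q 365 (.a 1 [] (.d 333 1325 301 1357 461)
 (.a 1 [301] (.d 461 1357 333 1389 493)
 (.a 1 [461] (.r 301 1325 333 (.d 332 3342 270 3373 425))
 (.a 0 [333] (.q 427 (.a 1 [] (.d 334 3375 303 3406 458)
 (.a 1 [303] (.d 458 3406 334 3437 489)
 (.a 1 [334] (.r 493 1389 461 (.d 460 2409 361 2442 526))
 .e))))
 .e)))))
 .e))))
 .e))) (by decide +kernel)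

theorem b3_1083 : S (PX [335] [368,400,401,467]) := S.of (.q 425 (.a 1 [] (.d 332 3373 301 3404 456)
 (.a 0 [332] (.q 330 (.a 1 [] (.d 297 2312 264 2345 429)
 (.a 0 [297] (.r 429 2378 462 (.q 426 (.a 1 [] (.d 362 1322 298 1354 458)
 (.a 1 [362] (.r 427 425 428 (.q 395 (.a 1 [] (.d 393 392 392 393 397)
 (.a 1 [500] (.q 434 (.a 1 [] (.d 331 1323 299 1355 459)
 (.a 1 [299] (.d 459 1355 331 1387 491)
 (.a 1 [331] (.d 393 392 392 393 397)
 .e))))
 (.a 1 [434] (.q 500 (.a 1 [] (.d 393 392 392 393 397)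
 (.a 1 [393] (.d 331 1323 299 1355 459)
 .e)))
 (.a 1 [393] (.d 331 1323 299 1355 459)
 .e))))))
 (.a 1 [458] (.r 427 425 428 (.r 423 423 424 (.r 362 1322 298 (.q 361 (.a 1 [] (.d 360 359 359 360 364)
 (.a 1 [500] (.q 434 (.a 1 [] (.d 392 3371 299 3402 454)
 (.a 1 [299] (.d 360 359 359 360 364)
 .e)))
 (.a 1 [434] (.q 500 (.a 1 [] (.d 360 359 359 360 364)
 (.a 1 [360] (.d 392 3371 299 3402 454)
 .e)))
 (.a 1 [360] (.d 392 3371 299 3402 454)
 .e))))))))
 (.a 1 [500] (.q 434 (.a 1 [] (.d 362 1322 298 1354 458)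
 (.a 1 [362] (.q 395 (.a 1 [] (.d 393 392 392 393 397)
 (.a 1 [392] (.d 397 393 393 394 398)
 (.a 1 [393] (.r 427 425 428 (.d 459 1355 331 1387 491))
 .e))))
 .e)))
 (.a 1 [434] (.q 500 (.a 1 [] (.d 362 1322 298 1354 458)
 (.a 1 [362] (.q 395 (.a 1 [] (.d 393 392 392 393 397)
 (.a 1 [392] (.d 397 393 393 394 398)
 (.a 1 [393] (.r 427 425 428 (.d 459 1355 331 1387 491))
 .e))))
 .e)))
 (.a 1 [298] (.r 427 425 428 (.r 458 1354 362 (.d 489 3437 365 3468 520)))
 .e))))))))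
 (.a 0 [429] (.r 297 2312 264 (.q 393 (.a 1 [] (.d 395 392 392 393 397)
 (.a 1 [395] (.r 361 1321 329 (.q 362 (.a 1 [] (.d 360 359 359 360 364)
 (.a 1 [500] (.q 434 (.a 1 [] (.d 298 1290 266 1322 426)
 (.a 1 [266] (.d 426 1322 298 1354 458)
 (.a 1 [298] (.d 360 359 359 360 364)
 .e))))
 (.a 1 [434] (.q 500 (.a 1 [] (.d 360 359 359 360 364)
 (.a 1 [360] (.d 298 1290 266 1322 426)
 .e)))
 (.a 1 [360] (.d 298 1290 266 1322 426)
 .e))))))
 (.a 1 [392] (.r 361 1321 329 (.r 489 1385 457 (.r 397 393 395 (.q 362 (.a 1 [] (.d 360 359 359 360 364)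
 (.a 1 [500] (.q 434 (.a 1 [] (.d 360 359 359 360 364)
 (.a 1 [364] (.d 298 1290 266 1322 426)
 .e)))
 (.a 1 [434] (.q 500 (.a 1 [] (.d 360 359 359 360 364)
 (.a 1 [364] (.d 426 1322 298 1354 458)
 .e)))
 (.a 1 [364] (.d 298 1290 266 1322 426)
 .e))))))))
 (.a 1 [500] (.q 434 (.a 1 [] (.d 395 392 392 393 397)
 (.a 1 [395] (.q 362 (.a 1 [] (.d 298 1290 266 1322 426)
 (.a 1 [266] (.d 426 1322 298 1354 458)
 (.a 1 [298] (.r 361 1321 329 (.d 360 359 359 360 364))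
 .e))))
 (.a 1 [397] (.r 361 1321 329 (.r 392 392 395 (.d 423 3371 299 3402 454)))
 .e))))
 (.a 1 [434] (.q 500 (.a 1 [] (.d 395 392 392 393 397)
 (.a 1 [395] (.q 362 (.a 1 [] (.d 298 1290 266 1322 426)
 (.a 1 [266] (.d 426 1322 298 1354 458)
 (.a 1 [298] (.r 361 1321 329 (.d 360 359 359 360 364))
 .e))))
 (.a 1 [397] (.r 361 1321 329 (.r 392 392 395 (.d 423 3371 299 3402 454)))
 .e))))
 (.a 1 [397] (.r 361 1321 329 (.r 392 392 395 (.d 423 3371 299 3402 454)))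
 .e))))))))
 (.a 1 [500] (.q 434 (.a 1 [] (.d 429 2345 297 2378 462)
 (.a 1 [297] (.q 362 (.a 1 [] (.d 298 1290 266 1322 426)
 (.a 1 [266] (.d 426 1322 298 1354 458)
 (.a 0 [298,426] (.q 361 (.a 1 [] (.d 360 359 359 360 364)
 (.a 1 [359] (.d 364 360 360 361 365)
 (.a 0 [360,364] (.q 393 (.a 1 [] (.d 395 392 392 393 397)
 (.a 1 [392] (.d 457 1353 329 1385 489)
 .e)))
 .e))))
 .e))))
 .e)))
 (.a 1 [434] (.q 500 (.a 1 [] (.d 429 2345 297 2378 462)
 (.a 1 [297] (.q 362 (.a 1 [] (.d 298 1290 266 1322 426)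
 (.a 1 [266] (.d 426 1322 298 1354 458)
 (.a 0 [298,426] (.q 361 (.a 1 [] (.d 360 359 359 360 364)
 (.a 1 [359] (.d 364 360 360 361 365)
 (.a 0 [360,364] (.q 393 (.a 1 [] (.d 395 392 392 393 397)
 (.a 1 [392] (.d 457 1353 329 1385 489)
 .e)))
 .e))))
 .e))))
 .e)))
 (.a 1 [264] (.d 429 2345 297 2378 462)
 .e)))))))
 (.a 0 [456] (.r 332 3373 301 (.q 330 (.a 1 [] (.d 297 2312 264 2345 429)
 (.a 1 [297] (.r 429 2378 462 (.q 426 (.a 1 [] (.d 362 1322 298 1354 458)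
 (.a 1 [500] (.q 434 (.a 1 [] (.d 362 1322 298 1354 458)
 (.a 1 [362] (.r 428 425 427 (.d 364 1324 300 1356 460))
 .e)))
 (.a 1 [434] (.q 500 (.a 1 [] (.d 362 1322 298 1354 458)
 (.a 1 [362] (.r 428 425 427 (.d 364 1324 300 1356 460))
 .e)))
 (.a 1 [362] (.r 428 425 427 (.d 364 1324 300 1356 460))
 .e))))))
 (.a 1 [429] (.r 297 2312 264 (.q 393 (.a 1 [] (.d 395 392 392 393 397)
 (.a 1 [500] (.q 434 (.a 1 [] (.d 395 392 392 393 397)
 (.a 1 [395] (.r 329 1321 361 (.d 331 328 328 329 333))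
 .e)))
 (.a 1 [434] (.q 500 (.a 1 [] (.d 395 392 392 393 397)
 (.a 1 [395] (.r 329 1321 361 (.d 331 328 328 329 333))
 .e)))
 (.a 1 [395] (.r 329 1321 361 (.d 331 328 328 329 333))
 .e))))))
 (.a 1 [500] (.q 434 (.a 1 [] (.d 297 2312 264 2345 429)
 (.a 1 [297] (.q 426 (.a 1 [] (.d 362 1322 298 1354 458)
 (.a 1 [298] (.r 458 1354 362 (.r 429 2378 462 (.r 427 425 428 (.d 489 3437 365 3468 520))))
 (.a 1 [362] (.r 429 2378 462 (.r 428 425 427 (.d 364 1324 300 1356 460)))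
 .e))))
 (.a 1 [429] (.q 393 (.a 1 [] (.d 395 392 392 393 397)
 (.a 1 [392] (.r 297 2312 264 (.r 329 1321 361 (.d 331 328 328 329 333)))
 .e)))
 .e))))
 (.a 1 [434] (.q 500 (.a 1 [] (.d 297 2312 264 2345 429)
 (.a 1 [297] (.q 426 (.a 1 [] (.d 362 1322 298 1354 458)
 (.a 1 [298] (.r 458 1354 362 (.r 429 2378 462 (.r 427 425 428 (.d 489 3437 365 3468 520))))
 (.a 1 [362] (.r 429 2378 462 (.r 428 425 427 (.d 364 1324 300 1356 460)))
 .e))))
 (.a 1 [429] (.q 393 (.a 1 [] (.d 395 392 392 393 397)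
 (.a 1 [392] (.r 297 2312 264 (.r 329 1321 361 (.d 331 328 328 329 333)))
 .e)))
 .e))))
 (.a 1 [264] (.d 429 2345 297 2378 462)
 .e))))))))
 (.a 1 [500] (.q 434 (.a 1 [] (.d 456 3404 332 3435 487)
 (.a 1 [332] (.q 330 (.a 1 [] (.d 297 2312 264 2345 429)
 (.a 1 [264] (.d 429 2345 297 2378 462)
 (.a 0 [297,429] (.q 362 (.a 1 [] (.d 298 1290 266 1322 426)
 (.a 1 [266] (.d 426 1322 298 1354 458)
 (.a 0 [298,426] (.q 361 (.a 1 [] (.d 360 359 359 360 364)
 (.a 1 [359] (.d 364 360 360 361 365)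
 (.a 0 [360,364] (.q 393 (.a 1 [] (.d 395 392 392 393 397)
 (.a 1 [392] (.d 457 1353 329 1385 489)
 .e)))
 .e))))
 .e))))
 .e))))
 (.a 1 [456] (.q 330 (.a 1 [] (.d 297 2312 264 2345 429)
 (.a 1 [264] (.d 429 2345 297 2378 462)
 (.a 0 [297,429] (.q 362 (.a 1 [] (.d 298 1290 266 1322 426)
 (.a 1 [266] (.d 426 1322 298 1354 458)
 (.a 0 [298,426] (.q 364 (.a 1 [] (.d 361 360 360 361 365)
 (.a 1 [360] (.d 365 361 361 362 366)
 (.a 1 [361] (.r 332 3373 301 (.d 428 1324 300 1356 460))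
 .e))))
 .e))))
 .e))))
 .e))))
 (.a 1 [434] (.q 500 (.a 1 [] (.d 332 3373 301 3404 456)
 (.a 1 [332] (.q 330 (.a 1 [] (.d 297 2312 264 2345 429)
 (.a 1 [264] (.d 429 2345 297 2378 462)
 (.a 0 [297,429] (.q 362 (.a 1 [] (.d 298 1290 266 1322 426)
 (.a 1 [266] (.d 426 1322 298 1354 458)
 (.a 0 [298,426] (.q 361 (.a 1 [] (.d 360 359 359 360 364)
 (.a 1 [359] (.d 364 360 360 361 365)
 (.a 0 [360,364] (.q 393 (.a 1 [] (.d 395 392 392 393 397)
 (.a 1 [392] (.d 457 1353 329 1385 489)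
 .e)))
 .e))))
 .e))))
 .e))))
 (.a 1 [456] (.q 330 (.a 1 [] (.d 297 2312 264 2345 429)
 (.a 1 [264] (.d 429 2345 297 2378 462)
 (.a 0 [297,429] (.q 362 (.a 1 [] (.d 298 1290 266 1322 426)
 (.a 1 [266] (.d 426 1322 298 1354 458)
 (.a 0 [298,426] (.q 364 (.a 1 [] (.d 361 360 360 361 365)
 (.a 1 [360] (.d 365 361 361 362 366)
 (.a 1 [361] (.r 332 3373 301 (.d 428 1324 300 1356 460))
 .e))))
 .e))))
 .e))))
 (.a 1 [301] (.d 456 3404 332 3435 487)
 .e)))))
 (.a 1 [301] (.d 456 3404 332 3435 487)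
 .e))))))) (by decide +kernel)

theorem b3_1084 : S (PX [335,500] [368,400,401,434,467]) := S.of (.q 332 (.a 1 [] (.d 301 3342 270 3373 425)
 (.a 1 [270] (.d 425 3373 301 3404 456)
 (.a 0 [301,425] (.q 330 (.a 1 [] (.d 297 2312 264 2345 429)
 (.a 1 [264] (.d 429 2345 297 2378 462)
 (.a 0 [297,429] (.q 428 (.a 1 [] (.d 364 1324 300 1356 460)
 (.a 0 [300,364,460] (.q 298 (.a 1 [] (.d 362 1290 266 1322 426)
 (.a 0 [266,362,426] (.q 397 (.a 1 [] (.d 395 393 393 394 398)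
 (.a 1 [393] (.d 366 3376 304 3407 459)
 .e)))
 .e)))
 .e)))
 .e))))
 .e)))) (by decide +kernel)

theorem b3_1085 : S (PX [335,434] [368,400,401,467,500]) := S.of (.q 332 (.a 1 [] (.d 301 3342 270 3373 425)
 (.a 1 [270] (.d 425 3373 301 3404 456)
 (.a 0 [301,425] (.q 330 (.a 1 [] (.d 297 2312 264 2345 429)
 (.a 1 [264] (.d 429 2345 297 2378 462)
 (.a 0 [297,429] (.q 428 (.a 1 [] (.d 364 1324 300 1356 460)
 (.a 0 [300,364,460] (.q 298 (.a 1 [] (.d 362 1290 266 1322 426)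
 (.a 0 [266,362,426] (.q 397 (.a 1 [] (.d 395 393 393 394 398)
 (.a 1 [393] (.d 366 3376 304 3407 459)
 .e)))
 .e)))
 .e)))
 .e))))
 .e)))) (by decide +kernel)

theorem b3_1127 : S (PX [] [400,401,467]) := S.of (.q 330 (.a 1 [] (.d 297 2312 264 2345 429)
 (.a 1 [264] (.d 429 2345 297 2378 462)
 (.a 0 [297,429] (.q 362 (.a 1 [] (.d 298 1290 266 1322 426)
 (.a 1 [266] (.d 426 1322 298 1354 458)
 (.a 0 [298,426] (.q 361 (.a 1 [] (.d 360 359 359 360 364)
 (.a 1 [359] (.d 364 360 360 361 365)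
 (.a 0 [360,364] (.q 427 (.a 1 [] (.d 328 2343 295 2376 460)
 (.a 1 [295] (.d 460 2376 328 2409 493)
 (.a 0 [328,460] (.q 395 (.a 1 [] (.d 393 392 392 393 397)
 (.a 1 [392] (.d 397 393 393 394 398)
 (.a 1 [393] (.d 331 1323 299 1355 459)
 .e))))
 .e))))
 .e))))
 .e))))
 .e)))) (by decide +kernel)

theorem b3_1128 : S (PX [368] [400,401,434,467]) := S.of (.q 429 (.a 1 [] (.d 330 2345 297 2378 462)
 (.a 0 [330] (.q 332 (.a 1 [] (.d 301 3342 270 3373 425)
 (.a 0 [301] (.r 425 3404 456 (.q 428 (.a 1 [] (.d 364 1324 300 1356 460)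
 (.a 1 [364] (.r 427 425 426 (.q 395 (.a 1 [] (.d 393 392 392 393 397)
 (.a 1 [500] (.q 533 (.a 1 [] (.d 393 392 392 393 397)
 (.a 1 [397] (.d 331 1323 299 1355 459)
 .e)))
 (.a 1 [533] (.q 500 (.a 1 [] (.d 393 392 392 393 397)
 (.a 1 [397] (.d 459 1355 331 1387 491)
 .e)))
 (.a 1 [397] (.d 331 1323 299 1355 459)
 .e))))))
 (.a 1 [460] (.r 427 425 426 (.r 431 427 430 (.r 364 1324 300 (.q 365 (.a 1 [] (.d 362 361 361 362 366)
 (.a 1 [500] (.q 533 (.a 1 [] (.d 362 361 361 362 366)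
 (.a 1 [366] (.d 458 3406 334 3437 489)
 .e)))
 (.a 1 [533] (.q 500 (.a 1 [] (.d 362 361 361 362 366)
 (.a 1 [366] (.d 398 2347 299 2380 464)
 .e)))
 (.a 1 [366] (.d 398 2347 299 2380 464)
 .e))))))))
 (.a 1 [500] (.q 533 (.a 1 [] (.d 364 1324 300 1356 460)
 (.a 1 [364] (.q 395 (.a 1 [] (.d 393 392 392 393 397)
 (.a 1 [392] (.d 397 393 393 394 398)
 (.a 1 [393] (.r 427 425 426 (.d 459 1355 331 1387 491))
 .e))))
 .e)))
 (.a 1 [533] (.q 500 (.a 1 [] (.d 364 1324 300 1356 460)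
 (.a 1 [364] (.q 395 (.a 1 [] (.d 393 392 392 393 397)
 (.a 1 [392] (.d 397 393 393 394 398)
 (.a 1 [393] (.r 427 425 426 (.d 459 1355 331 1387 491))
 .e))))
 .e)))
 (.a 1 [300] (.r 427 425 426 (.r 460 1356 364 (.d 493 2409 361 2442 526)))
 .e))))))))
 (.a 0 [425] (.r 301 3342 270 (.q 364 (.a 1 [] (.d 300 1292 268 1324 428)
 (.a 1 [300] (.q 365 (.a 1 [] (.d 362 361 361 362 366)
 (.a 1 [500] (.q 533 (.a 1 [] (.d 362 361 361 362 366)
 (.a 1 [366] (.r 397 1325 333 (.d 395 393 393 394 398))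
 .e)))
 (.a 1 [533] (.q 500 (.a 1 [] (.d 362 361 361 362 366)
 (.a 1 [366] (.r 397 1325 333 (.d 395 393 393 394 398))
 .e)))
 (.a 1 [366] (.r 397 1325 333 (.d 395 393 393 394 398))
 .e)))))
 (.a 1 [428] (.q 365 (.a 1 [] (.d 362 361 361 362 366)
 (.a 1 [500] (.q 533 (.a 1 [] (.d 362 361 361 362 366)
 (.a 1 [366] (.r 397 1325 333 (.d 395 393 393 394 398))
 .e)))
 (.a 1 [533] (.q 500 (.a 1 [] (.d 362 361 361 362 366)
 (.a 1 [366] (.r 397 1325 333 (.d 395 393 393 394 398))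
 .e)))
 (.a 1 [366] (.r 397 1325 333 (.d 395 393 393 394 398))
 .e)))))
 (.a 1 [500] (.q 533 (.a 1 [] (.d 428 1324 300 1356 460)
 (.a 1 [300] (.q 365 (.a 1 [] (.d 362 361 361 362 366)
 (.a 1 [361] (.d 366 362 362 363 367)
 (.a 1 [362] (.r 397 1325 333 (.d 395 393 393 394 398))
 .e))))
 .e)))
 (.a 1 [533] (.q 500 (.a 1 [] (.d 428 1324 300 1356 460)
 (.a 1 [300] (.q 365 (.a 1 [] (.d 362 361 361 362 366)
 (.a 1 [361] (.d 366 362 362 363 367)
 (.a 1 [362] (.r 397 1325 333 (.d 395 393 393 394 398))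
 .e))))
 .e)))
 (.a 1 [268] (.d 428 1324 300 1356 460)
 .e))))))))
 (.a 1 [500] (.q 533 (.a 1 [] (.d 425 3373 301 3404 456)
 (.a 1 [301] (.q 364 (.a 1 [] (.d 300 1292 268 1324 428)
 (.a 1 [268] (.d 428 1324 300 1356 460)
 (.a 0 [300,428] (.q 365 (.a 1 [] (.d 362 361 361 362 366)
 (.a 1 [361] (.d 366 362 362 363 367)
 (.a 0 [362,366] (.q 397 (.a 1 [] (.d 395 393 393 394 398)
 (.a 1 [393] (.d 461 1357 333 1389 493)
 .e)))
 .e))))
 .e))))
 .e)))
 (.a 1 [533] (.q 500 (.a 1 [] (.d 425 3373 301 3404 456)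
 (.a 1 [301] (.q 364 (.a 1 [] (.d 300 1292 268 1324 428)
 (.a 1 [268] (.d 428 1324 300 1356 460)
 (.a 0 [300,428] (.q 365 (.a 1 [] (.d 362 361 361 362 366)
 (.a 1 [361] (.d 366 362 362 363 367)
 (.a 0 [362,366] (.q 397 (.a 1 [] (.d 395 393 393 394 398)
 (.a 1 [393] (.d 461 1357 333 1389 493)
 .e)))
 .e))))
 .e))))
 .e)))
 (.a 1 [270] (.d 425 3373 301 3404 456)
 .e)))))))
 (.a 0 [462] (.r 330 2345 297 (.q 332 (.a 1 [] (.d 301 3342 270 3373 425)
 (.a 1 [301] (.r 425 3404 456 (.q 428 (.a 1 [] (.d 364 1324 300 1356 460)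
 (.a 1 [500] (.q 533 (.a 1 [] (.d 364 1324 300 1356 460)
 (.a 1 [364] (.r 426 425 427 (.d 362 1322 298 1354 458))
 .e)))
 (.a 1 [533] (.q 500 (.a 1 [] (.d 364 1324 300 1356 460)
 (.a 1 [364] (.r 426 425 427 (.d 362 1322 298 1354 458))
 .e)))
 (.a 1 [364] (.r 426 425 427 (.d 362 1322 298 1354 458))
 .e))))))
 (.a 1 [425] (.r 301 3342 270 (.q 397 (.a 1 [] (.d 395 393 393 394 398)
 (.a 1 [500] (.q 533 (.a 1 [] (.d 395 393 393 394 398)
 (.a 1 [395] (.r 333 1325 365 (.d 331 329 329 330 334))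
 .e)))
 (.a 1 [533] (.q 500 (.a 1 [] (.d 395 393 393 394 398)
 (.a 1 [395] (.r 333 1325 365 (.d 331 329 329 330 334))
 .e)))
 (.a 1 [395] (.r 333 1325 365 (.d 331 329 329 330 334))
 .e))))))
 (.a 1 [500] (.q 533 (.a 1 [] (.d 301 3342 270 3373 425)
 (.a 1 [301] (.q 428 (.a 1 [] (.d 364 1324 300 1356 460)
 (.a 1 [300] (.r 460 1356 364 (.r 425 3404 456 (.r 427 425 426 (.d 493 2409 361 2442 526))))
 (.a 1 [364] (.r 425 3404 456 (.r 426 425 427 (.d 362 1322 298 1354 458)))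
 .e))))
 (.a 1 [425] (.q 397 (.a 1 [] (.d 395 393 393 394 398)
 (.a 1 [393] (.r 301 3342 270 (.r 365 1325 333 (.r 398 394 395 (.d 431 2347 299 2380 464))))
 (.a 1 [395] (.r 301 3342 270 (.r 333 1325 365 (.d 331 329 329 330 334)))
 .e))))
 .e))))
 (.a 1 [533] (.q 500 (.a 1 [] (.d 301 3342 270 3373 425)
 (.a 1 [301] (.q 428 (.a 1 [] (.d 364 1324 300 1356 460)
 (.a 1 [300] (.r 460 1356 364 (.r 425 3404 456 (.r 427 425 426 (.d 493 2409 361 2442 526))))
 (.a 1 [364] (.r 425 3404 456 (.r 426 425 427 (.d 362 1322 298 1354 458)))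
 .e))))
 (.a 1 [425] (.q 397 (.a 1 [] (.d 395 393 393 394 398)
 (.a 1 [393] (.r 301 3342 270 (.r 365 1325 333 (.r 398 394 395 (.d 431 2347 299 2380 464))))
 (.a 1 [395] (.r 301 3342 270 (.r 333 1325 365 (.d 331 329 329 330 334)))
 .e))))
 .e))))
 (.a 1 [270] (.d 425 3373 301 3404 456)
 .e))))))))
 (.a 1 [500] (.q 533 (.a 1 [] (.d 462 2378 330 2411 495)
 (.a 1 [330] (.q 332 (.a 1 [] (.d 301 3342 270 3373 425)
 (.a 1 [270] (.d 425 3373 301 3404 456)
 (.a 0 [301,425] (.q 364 (.a 1 [] (.d 300 1292 268 1324 428)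
 (.a 1 [268] (.d 428 1324 300 1356 460)
 (.a 0 [300,428] (.q 365 (.a 1 [] (.d 362 361 361 362 366)
 (.a 1 [361] (.d 366 362 362 363 367)
 (.a 0 [362,366] (.q 397 (.a 1 [] (.d 395 393 393 394 398)
 (.a 1 [393] (.d 461 1357 333 1389 493)
 .e)))
 .e))))
 .e))))
 .e))))
 .e)))
 (.a 1 [533] (.q 500 (.a 1 [] (.d 462 2378 330 2411 495)
 (.a 1 [330] (.q 332 (.a 1 [] (.d 301 3342 270 3373 425)
 (.a 1 [270] (.d 425 3373 301 3404 456)
 (.a 0 [301,425] (.q 364 (.a 1 [] (.d 300 1292 268 1324 428)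
 (.a 1 [268] (.d 428 1324 300 1356 460)
 (.a 0 [300,428] (.q 365 (.a 1 [] (.d 362 361 361 362 366)
 (.a 1 [361] (.d 366 362 362 363 367)
 (.a 0 [362,366] (.q 397 (.a 1 [] (.d 395 393 393 394 398)
 (.a 1 [393] (.d 461 1357 333 1389 493)
 .e)))
 .e))))
 .e))))
 .e))))
 .e)))
 (.a 1 [297] (.d 462 2378 330 2411 495)
 .e))))))) (by decide +kernel)

theorem b3_1129 : S (PX [368,533] [400,401,434,467,500]) := S.of (.q 330 (.a 1 [] (.d 297 2312 264 2345 429)
 (.a 1 [264] (.d 429 2345 297 2378 462)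
 (.a 0 [297,429] (.q 362 (.a 1 [] (.d 298 1290 266 1322 426)
 (.a 1 [266] (.d 426 1322 298 1354 458)
 (.a 0 [298,426] (.q 361 (.a 1 [] (.d 360 359 359 360 364)
 (.a 1 [359] (.d 364 360 360 361 365)
 (.a 0 [360,364] (.q 427 (.a 1 [] (.d 328 2343 295 2376 460)
 (.a 1 [295] (.d 460 2376 328 2409 493)
 (.a 0 [328,460] (.q 395 (.a 1 [] (.d 393 392 392 393 397)
 (.a 1 [392] (.d 397 393 393 394 398)
 (.a 1 [393] (.d 331 1323 299 1355 459)
 .e))))
 .e))))
 .e))))
 .e))))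
 .e)))) (by decide +kernel)

theorem b3_1130 : S (PX [368,500] [400,401,434,467,533]) := S.of (.q 330 (.a 1 [] (.d 297 2312 264 2345 429)
 (.a 1 [264] (.d 429 2345 297 2378 462)
 (.a 0 [297,429] (.q 362 (.a 1 [] (.d 298 1290 266 1322 426)
 (.a 1 [266] (.d 426 1322 298 1354 458)
 (.a 0 [298,426] (.q 361 (.a 1 [] (.d 360 359 359 360 364)
 (.a 1 [359] (.d 364 360 360 361 365)
 (.a 0 [360,364] (.q 427 (.a 1 [] (.d 328 2343 295 2376 460)
 (.a 1 [295] (.d 460 2376 328 2409 493)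
 (.a 0 [328,460] (.q 395 (.a 1 [] (.d 393 392 392 393 397)
 (.a 1 [392] (.d 397 393 393 394 398)
 (.a 1 [393] (.d 331 1323 299 1355 459)
 .e))))
 .e))))
 .e))))
 .e))))
 .e)))) (by decide +kernel)

theorem b3_1131 : S (PX [434] [400,401,467,500]) := S.of (.q 330 (.a 1 [] (.d 297 2312 264 2345 429)
 (.a 1 [264] (.d 429 2345 297 2378 462)
 (.a 0 [297,429] (.q 362 (.a 1 [] (.d 298 1290 266 1322 426)
 (.a 1 [266] (.d 426 1322 298 1354 458)
 (.a 0 [298,426] (.q 361 (.a 1 [] (.d 360 359 359 360 364)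
 (.a 1 [359] (.d 364 360 360 361 365)
 (.a 0 [360,364] (.q 427 (.a 1 [] (.d 328 2343 295 2376 460)
 (.a 1 [295] (.d 460 2376 328 2409 493)
 (.a 0 [328,460] (.q 395 (.a 1 [] (.d 393 392 392 393 397)
 (.a 1 [392] (.d 397 393 393 394 398)
 (.a 1 [393] (.d 331 1323 299 1355 459)
 .e))))
 .e))))
 .e))))
 .e))))
 .e)))) (by decide +kernel)

theorem b3_1132 : S (PX [434] [400,401,467,533]) := S.of (.q 330 (.a 1 [] (.d 297 2312 264 2345 429)
 (.a 1 [264] (.d 429 2345 297 2378 462)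
 (.a 0 [297,429] (.q 362 (.a 1 [] (.d 298 1290 266 1322 426)
 (.a 1 [266] (.d 426 1322 298 1354 458)
 (.a 0 [298,426] (.q 361 (.a 1 [] (.d 360 359 359 360 364)
 (.a 1 [359] (.d 364 360 360 361 365)
 (.a 0 [360,364] (.q 427 (.a 1 [] (.d 328 2343 295 2376 460)
 (.a 1 [295] (.d 460 2376 328 2409 493)
 (.a 0 [328,460] (.q 395 (.a 1 [] (.d 393 392 392 393 397)
 (.a 1 [392] (.d 397 393 393 394 398)
 (.a 1 [393] (.d 331 1323 299 1355 459)
 .e))))
 .e))))
 .e))))
 .e))))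
 .e)))) (by decide +kernel)

theorem b3_1275 : S (PX [401,500] [304,335,434,467,566]) := S.of (.q 332 (.a 1 [] (.d 301 3342 270 3373 425)
 (.a 1 [270] (.d 425 3373 301 3404 456)
 (.a 0 [301,425] (.q 397 (.a 1 [] (.d 395 393 393 394 398)
 (.a 0 [393,395,398] (.q 429 (.a 1 [] (.d 330 2345 297 2378 462)
 (.a 1 [297] (.d 462 2378 330 2411 495)
 (.a 0 [330,462] (.q 365 (.a 1 [] (.d 461 1357 333 1389 493)
 (.a 0 [333,461,493] (.q 364 (.a 1 [] (.d 362 361 361 362 366)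
 (.a 1 [361] (.d 366 362 362 363 367)
 (.a 1 [362] (.d 300 1292 268 1324 428)
 .e))))
 .e)))
 .e))))
 .e)))
 .e)))) (by decide +kernel)

theorem b3_1276 : S (PX [401,500] [330,335,434,467,566]) := S.of (.q 332 (.a 1 [] (.d 301 3342 270 3373 425)
 (.a 1 [270] (.d 425 3373 301 3404 456)
 (.a 0 [301,425] (.q 395 (.a 1 [] (.d 393 392 392 393 397)
 (.a 1 [392] (.d 397 393 393 394 398)
 (.a 0 [393,397] (.q 299 (.a 1 [] (.d 331 1291 267 1323 427)
 (.a 0 [267,331,427] (.q 365 (.a 1 [] (.d 266 2281 233 2314 398)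
 (.a 1 [233] (.d 398 2314 266 2347 431)
 (.a 0 [266,398] (.q 364 (.a 1 [] (.d 362 361 361 362 366)
 (.a 1 [361] (.d 366 362 362 363 367)
 (.a 1 [362] (.d 300 1292 268 1324 428)
 .e))))
 .e))))
 .e)))
 .e))))
 .e)))) (by decide +kernel)

theorem b3_1277 : S (PX [401,500] [332,335,434,467,566]) := S.of (.q 330 (.a 1 [] (.d 297 2312 264 2345 429)
 (.a 1 [264] (.d 429 2345 297 2378 462)
 (.a 0 [297,429] (.q 362 (.a 1 [] (.d 298 1290 266 1322 426)
 (.a 1 [266] (.d 426 1322 298 1354 458)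
 (.a 0 [298,426] (.q 361 (.a 1 [] (.d 360 359 359 360 364)
 (.a 1 [359] (.d 364 360 360 361 365)
 (.a 0 [360,364] (.q 427 (.a 1 [] (.d 328 2343 295 2376 460)
 (.a 1 [295] (.d 460 2376 328 2409 493)
 (.a 0 [328,460] (.q 395 (.a 1 [] (.d 393 392 392 393 397)
 (.a 1 [392] (.d 397 393 393 394 398)
 (.a 1 [393] (.d 331 1323 299 1355 459)
 .e))))
 .e))))
 .e))))
 .e))))
 .e)))) (by decide +kernel)

theorem b3_1278 : S (PX [401,500] [335,366,434,467,566]) := S.of (.q 330 (.a 1 [] (.d 297 2312 264 2345 429)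
 (.a 1 [264] (.d 429 2345 297 2378 462)
 (.a 0 [297,429] (.q 362 (.a 1 [] (.d 298 1290 266 1322 426)
 (.a 1 [266] (.d 426 1322 298 1354 458)
 (.a 0 [298,426] (.q 361 (.a 1 [] (.d 360 359 359 360 364)
 (.a 1 [359] (.d 364 360 360 361 365)
 (.a 0 [360,364] (.q 427 (.a 1 [] (.d 328 2343 295 2376 460)
 (.a 1 [295] (.d 460 2376 328 2409 493)
 (.a 0 [328,460] (.q 395 (.a 1 [] (.d 393 392 392 393 397)
 (.a 1 [392] (.d 397 393 393 394 398)
 (.a 1 [393] (.d 331 1323 299 1355 459)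
 .e))))
 .e))))
 .e))))
 .e))))
 .e)))) (by decide +kernel)

theorem b3_1279 : S (PX [401,500] [335,425,434,467,566]) := S.of (.q 395 (.a 1 [] (.d 393 392 392 393 397)
 (.a 1 [392] (.d 397 393 393 394 398)
 (.a 0 [393,397] (.q 331 (.a 1 [] (.d 299 1291 267 1323 427)
 (.a 1 [267] (.d 427 1323 299 1355 459)
 (.a 0 [299,427] (.q 330 (.a 1 [] (.d 297 2312 264 2345 429)
 (.a 1 [264] (.d 429 2345 297 2378 462)
 (.a 0 [297] (.q 329 (.a 1 [] (.d 328 327 327 328 332)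
 (.a 1 [327] (.d 332 328 328 329 333)
 (.a 0 [328,332] (.q 362 (.a 1 [] (.d 298 1290 266 1322 426)
 (.a 1 [266] (.d 426 1322 298 1354 458)
 (.a 1 [298] (.d 296 2311 263 2344 428)
 .e))))
 .e))))
 (.a 0 [429] (.q 426 (.a 1 [] (.d 362 1322 298 1354 458)
 (.a 0 [298,362,458] (.q 333 (.a 1 [] (.d 332 329 329 330 334)
 (.a 1 [329] (.d 364 3374 302 3405 457)
 .e)))
 .e)))
 .e)))))
 .e))))
 .e)))) (by decide +kernel)

theorem b3_1280 : S (PX [401,500] [335,428,434,467,566]) := S.of (.q 397 (.a 1 [] (.d 395 393 393 394 398)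
 (.a 0 [393,395,398] (.q 429 (.a 1 [] (.d 330 2345 297 2378 462)
 (.a 1 [297] (.d 462 2378 330 2411 495)
 (.a 0 [330,462] (.q 365 (.a 1 [] (.d 333 1325 301 1357 461)
 (.a 1 [301] (.d 461 1357 333 1389 493)
 (.a 1 [461] (.r 301 1325 333 (.d 332 3342 270 3373 425))
 (.a 0 [333] (.q 427 (.a 1 [] (.d 334 3375 303 3406 458)
 (.a 1 [303] (.d 458 3406 334 3437 489)
 (.a 1 [334] (.r 493 1389 461 (.d 460 2409 361 2442 526))
 .e))))
 .e)))))
 .e))))
 .e))) (by decide +kernel)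

theorem b3_1282 : S (PX [368,500] [400,401,434,467,566]) := S.of (.q 330 (.a 1 [] (.d 297 2312 264 2345 429)
 (.a 1 [264] (.d 429 2345 297 2378 462)
 (.a 0 [297,429] (.q 362 (.a 1 [] (.d 298 1290 266 1322 426)
 (.a 1 [266] (.d 426 1322 298 1354 458)
 (.a 0 [298,426] (.q 361 (.a 1 [] (.d 360 359 359 360 364)
 (.a 1 [359] (.d 364 360 360 361 365)
 (.a 0 [360,364] (.q 427 (.a 1 [] (.d 328 2343 295 2376 460)
 (.a 1 [295] (.d 460 2376 328 2409 493)
 (.a 0 [328,460] (.q 395 (.a 1 [] (.d 393 392 392 393 397)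
 (.a 1 [392] (.d 397 393 393 394 398)
 (.a 1 [393] (.d 331 1323 299 1355 459)
 .e))))
 .e))))
 .e))))
 .e))))
 .e)))) (by decide +kernel)

theorem b3_1296 : S (PX [] [425,463,467]) := S.of (.q 395 (.a 1 [] (.d 393 392 392 393 397)
 (.a 1 [392] (.d 397 393 393 394 398)
 (.a 0 [393,397] (.q 331 (.a 1 [] (.d 299 1291 267 1323 427)
 (.a 1 [267] (.d 427 1323 299 1355 459)
 (.a 0 [299,427] (.q 330 (.a 1 [] (.d 297 2312 264 2345 429)
 (.a 1 [264] (.d 429 2345 297 2378 462)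
 (.a 0 [297] (.q 329 (.a 1 [] (.d 328 327 327 328 332)
 (.a 1 [327] (.d 332 328 328 329 333)
 (.a 0 [328,332] (.q 362 (.a 1 [] (.d 298 1290 266 1322 426)
 (.a 1 [266] (.d 426 1322 298 1354 458)
 (.a 1 [298] (.d 296 2311 263 2344 428)
 .e))))
 .e))))
 (.a 0 [429] (.q 426 (.a 1 [] (.d 362 1322 298 1354 458)
 (.a 0 [298,362,458] (.q 333 (.a 1 [] (.d 332 329 329 330 334)
 (.a 1 [329] (.d 364 3374 302 3405 457)
 .e)))
 .e)))
 .e)))))
 .e))))
 .e)))) (by decide +kernel)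

theorem b3_1297 : S (PX [465] [297,463,464,467]) := S.of (.q 395 (.a 1 [] (.d 393 392 392 393 397)
 (.a 1 [392] (.d 397 393 393 394 398)
 (.a 0 [393] (.q 427 (.a 1 [] (.d 331 1323 299 1355 459)
 (.a 1 [299] (.d 459 1355 331 1387 491)
 (.a 0 [331,459] (.q 425 (.a 1 [] (.d 332 3373 301 3404 456)
 (.a 1 [301] (.d 456 3404 332 3435 487)
 (.a 0 [332,456] (.q 426 (.a 1 [] (.d 424 423 423 424 428)
 (.a 1 [423] (.d 428 424 424 425 429)
 (.a 1 [424] (.r 429 425 428 (.d 462 2378 330 2411 495))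
 (.a 0 [428] (.q 458 (.a 1 [] (.d 362 1354 330 1386 490)
 (.a 1 [330] (.d 490 1386 362 1418 522)
 (.a 1 [362] (.d 365 3406 334 3437 489)
 .e))))
 .e)))))
 .e))))
 .e))))
 (.a 0 [397] (.q 332 (.a 1 [] (.d 301 3342 270 3373 425)
 (.a 1 [270] (.d 425 3373 301 3404 456)
 (.a 0 [301,425] (.q 331 (.a 1 [] (.d 299 1291 267 1323 427)
 (.a 1 [267] (.d 427 1323 299 1355 459)
 (.a 0 [299,427] (.q 300 (.a 1 [] (.d 364 1292 268 1324 428)
 (.a 1 [268] (.r 393 392 392 (.d 362 3341 269 3372 424))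
 .e)))
 .e))))
 .e))))
 .e))))) (by decide +kernel)

theorem b3_1298 : S (PX [465] [332,463,464,467]) := S.of (.q 330 (.a 1 [] (.d 297 2312 264 2345 429)
 (.a 1 [264] (.d 429 2345 297 2378 462)
 (.a 0 [297,429] (.q 362 (.a 1 [] (.d 298 1290 266 1322 426)
 (.a 1 [266] (.d 426 1322 298 1354 458)
 (.a 0 [298,426] (.q 361 (.a 1 [] (.d 360 359 359 360 364)
 (.a 1 [359] (.d 364 360 360 361 365)
 (.a 0 [360,364] (.q 299 (.a 1 [] (.d 268 3309 237 3340 392)
 (.a 1 [237] (.d 392 3340 268 3371 423)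
 (.a 1 [268] (.r 392 3371 423 (.r 395 392 393 (.d 331 1291 267 1323 427)))
 (.a 0 [392] (.q 395 (.a 1 [] (.d 397 393 393 394 398)
 (.a 1 [393] (.d 331 1291 267 1323 427)
 .e)))
 .e)))))
 .e))))
 .e))))
 .e)))) (by decide +kernel)

theorem b3_1299 : S (PX [465] [364,463,464,467]) := S.of (.q 330 (.a 1 [] (.d 297 2312 264 2345 429)
 (.a 1 [264] (.d 429 2345 297 2378 462)
 (.a 0 [297,429] (.q 425 (.a 1 [] (.d 332 3373 301 3404 456)
 (.a 1 [301] (.d 456 3404 332 3435 487)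
 (.a 0 [332,456] (.q 426 (.a 1 [] (.d 362 1322 298 1354 458)
 (.a 0 [298,362,458] (.q 427 (.a 1 [] (.d 424 423 423 424 428)
 (.a 0 [423,424,428] (.q 395 (.a 1 [] (.d 393 392 392 393 397)
 (.a 1 [392] (.d 397 393 393 394 398)
 (.a 1 [393] (.d 331 1323 299 1355 459)
 .e))))
 .e)))
 .e)))
 .e))))
 .e)))) (by decide +kernel)

theorem b3_1300 : S (PX [465] [365,463,464,467]) := S.of (.q 395 (.a 1 [] (.d 393 392 392 393 397)
 (.a 1 [392] (.d 397 393 393 394 398)
 (.a 0 [393,397] (.q 331 (.a 1 [] (.d 299 1291 267 1323 427)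
 (.a 1 [267] (.d 427 1323 299 1355 459)
 (.a 0 [299,427] (.q 332 (.a 1 [] (.d 301 3342 270 3373 425)
 (.a 1 [270] (.d 425 3373 301 3404 456)
 (.a 0 [301,425] (.q 333 (.a 1 [] (.d 330 329 329 330 334)
 (.a 1 [329] (.d 334 330 330 331 335)
 (.a 1 [334] (.r 330 329 329 (.d 429 2345 297 2378 462))
 (.a 0 [330] (.q 364 (.a 1 [] (.d 300 1292 268 1324 428)
 (.a 1 [268] (.d 428 1324 300 1356 460)
 (.a 1 [300] (.d 302 3343 271 3374 426)
 .e))))
 .e)))))
 .e))))
 .e))))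
 .e)))) (by decide +kernel)

theorem b3_1301 : S (PX [465] [397,463,464,467]) := S.of (.q 330 (.a 1 [] (.d 297 2312 264 2345 429)
 (.a 1 [264] (.d 429 2345 297 2378 462)
 (.a 0 [297,429] (.q 425 (.a 1 [] (.d 332 3373 301 3404 456)
 (.a 1 [301] (.d 456 3404 332 3435 487)
 (.a 0 [332,456] (.q 426 (.a 1 [] (.d 362 1322 298 1354 458)
 (.a 0 [298,362,458] (.q 423 (.a 1 [] (.d 424 422 422 423 427)
 (.a 0 [422,424,427] (.q 392 (.a 1 [] (.d 361 3371 299 3402 454)
 (.a 1 [299] (.r 393 392 395 (.r 361 3402 454 (.d 457 1353 329 1385 489)))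
 (.a 1 [454] (.r 393 392 395 (.r 361 3371 299 (.d 457 1353 329 1385 489)))
 (.a 0 [361] (.r 393 392 395 (.q 327 (.a 1 [] (.d 360 2342 294 2375 459)
 (.a 1 [294] (.r 391 390 390 (.d 359 1319 295 1351 455))
 .e))))
 .e)))))
 .e)))
 .e)))
 .e))))
 .e)))) (by decide +kernel)

theorem b3_1302 : S (PX [465] [398,463,464,467]) := S.of (.q 332 (.a 1 [] (.d 301 3342 270 3373 425)
 (.a 1 [270] (.d 425 3373 301 3404 456)
 (.a 0 [301,425] (.q 395 (.a 1 [] (.d 393 392 392 393 397)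
 (.a 0 [392,393,397] (.q 331 (.a 1 [] (.d 299 1291 267 1323 427)
 (.a 1 [267] (.d 427 1323 299 1355 459)
 (.a 0 [299,427] (.q 330 (.a 1 [] (.d 329 328 328 329 333)
 (.a 1 [328] (.d 333 329 329 330 334)
 (.a 1 [329] (.d 297 2312 264 2345 429)
 .e))))
 .e))))
 .e)))
 .e)))) (by decide +kernel)

theorem b3_1303 : S (PX [465] [425,463,464,467]) := S.of (.q 395 (.a 1 [] (.d 393 392 392 393 397)
 (.a 1 [392] (.d 397 393 393 394 398)
 (.a 0 [393,397] (.q 331 (.a 1 [] (.d 299 1291 267 1323 427)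
 (.a 1 [267] (.d 427 1323 299 1355 459)
 (.a 0 [299,427] (.q 330 (.a 1 [] (.d 297 2312 264 2345 429)
 (.a 1 [264] (.d 429 2345 297 2378 462)
 (.a 0 [297] (.q 329 (.a 1 [] (.d 328 327 327 328 332)
 (.a 1 [327] (.d 332 328 328 329 333)
 (.a 0 [328,332] (.q 362 (.a 1 [] (.d 298 1290 266 1322 426)
 (.a 1 [266] (.d 426 1322 298 1354 458)
 (.a 1 [298] (.d 296 2311 263 2344 428)
 .e))))
 .e))))
 (.a 0 [429] (.q 426 (.a 1 [] (.d 362 1322 298 1354 458)
 (.a 0 [298,362,458] (.q 333 (.a 1 [] (.d 332 329 329 330 334)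
 (.a 1 [329] (.d 364 3374 302 3405 457)
 .e)))
 .e)))
 .e)))))
 .e))))
 .e)))) (by decide +kernel)

theorem b3_1304 : S (PX [465] [427,463,464,467]) := S.of (.q 330 (.a 1 [] (.d 297 2312 264 2345 429)
 (.a 1 [264] (.d 429 2345 297 2378 462)
 (.a 0 [297,429] (.q 425 (.a 1 [] (.d 332 3373 301 3404 456)
 (.a 1 [301] (.d 456 3404 332 3435 487)
 (.a 0 [332,456] (.q 393 (.a 1 [] (.d 395 392 392 393 397)
 (.a 0 [392,395,397] (.q 361 (.a 1 [] (.d 457 1353 329 1385 489)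
 (.a 0 [329,457,489] (.q 362 (.a 1 [] (.d 360 359 359 360 364)
 (.a 1 [359] (.d 364 360 360 361 365)
 (.a 1 [360] (.d 298 1290 266 1322 426)
 .e))))
 .e)))
 .e)))
 .e))))
 .e)))) (by decide +kernel)

theorem b3_1305 : S (PX [465] [429,463,464,467]) := S.of (.q 395 (.a 1 [] (.d 393 392 392 393 397)
 (.a 1 [392] (.d 397 393 393 394 398)
 (.a 0 [393] (.q 427 (.a 1 [] (.d 331 1323 299 1355 459)
 (.a 1 [299] (.d 459 1355 331 1387 491)
 (.a 0 [331,459] (.q 460 (.a 1 [] (.d 361 2376 328 2409 493)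
 (.a 1 [328] (.d 493 2409 361 2442 526)
 (.a 0 [361,493] (.q 365 (.a 1 [] (.d 334 3375 303 3406 458)
 (.a 1 [303] (.d 458 3406 334 3437 489)
 (.a 0 [334,458] (.q 332 (.a 1 [] (.d 301 3342 270 3373 425)
 (.a 1 [270] (.d 425 3373 301 3404 456)
 (.a 1 [301] (.r 364 1356 428 (.d 366 362 362 363 367))
 .e))))
 .e))))
 .e))))
 .e))))
 (.a 0 [397] (.q 331 (.a 1 [] (.d 299 1291 267 1323 427)
 (.a 1 [267] (.d 427 1323 299 1355 459)
 (.a 0 [299,427] (.r 393 392 392 (.q 362 (.a 1 [] (.d 300 3341 269 3372 424)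
 (.a 1 [269] (.d 424 3372 300 3403 455)
 (.a 0 [300,424] (.q 426 (.a 1 [] (.d 330 1322 298 1354 458)
 (.a 1 [298] (.d 458 1354 330 1386 490)
 (.a 0 [330,458] (.q 361 (.a 1 [] (.d 360 359 359 360 364)
 (.a 1 [359] (.d 364 360 360 361 365)
 (.a 1 [360] (.r 364 361 365 (.d 457 3405 333 3436 488))
 (.a 1 [364] (.r 360 359 359 (.d 459 2375 327 2408 492))
 .e)))))
 .e))))
 .e)))))
 .e))))
 .e))))) (by decide +kernel)

theorem b3_1306 : S (PX [465] [431,463,464,467]) := S.of (.q 332 (.a 1 [] (.d 301 3342 270 3373 425)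
 (.a 1 [270] (.d 425 3373 301 3404 456)
 (.a 0 [301,425] (.q 364 (.a 1 [] (.d 300 1292 268 1324 428)
 (.a 1 [268] (.d 428 1324 300 1356 460)
 (.a 0 [300,428] (.q 365 (.a 1 [] (.d 362 361 361 362 366)
 (.a 1 [361] (.d 366 362 362 363 367)
 (.a 0 [362,366] (.q 427 (.a 1 [] (.d 334 3375 303 3406 458)
 (.a 1 [303] (.d 458 3406 334 3437 489)
 (.a 0 [334,458] (.q 395 (.a 1 [] (.d 393 392 392 393 397)
 (.a 1 [392] (.d 397 393 393 394 398)
 (.a 1 [393] (.d 331 1323 299 1355 459)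
 .e))))
 .e))))
 .e))))
 .e))))
 .e)))) (by decide +kernel)

theorem b3_1307 : S (PX [465] [456,463,464,467]) := S.of (.q 395 (.a 1 [] (.d 393 392 392 393 397)
 (.a 1 [392] (.d 397 393 393 394 398)
 (.a 0 [393,397] (.q 331 (.a 1 [] (.d 299 1291 267 1323 427)
 (.a 1 [267] (.d 427 1323 299 1355 459)
 (.a 0 [299,427] (.q 330 (.a 1 [] (.d 297 2312 264 2345 429)
 (.a 1 [264] (.d 429 2345 297 2378 462)
 (.a 0 [297,429] (.q 332 (.a 1 [] (.d 329 328 328 329 333)
 (.a 1 [328] (.d 333 329 329 330 334)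
 (.a 1 [329] (.d 301 3342 270 3373 425)
 .e))))
 .e))))
 .e))))
 .e)))) (by decide +kernel)

theorem b3_1308 : S (PX [465] [457,463,464,467]) := S.of (.q 395 (.a 1 [] (.d 393 392 392 393 397)
 (.a 1 [392] (.d 397 393 393 394 398)
 (.a 0 [393,397] (.q 331 (.a 1 [] (.d 299 1291 267 1323 427)
 (.a 1 [267] (.d 427 1323 299 1355 459)
 (.a 0 [299,427] (.q 330 (.a 1 [] (.d 297 2312 264 2345 429)
 (.a 1 [264] (.d 429 2345 297 2378 462)
 (.a 0 [297,429] (.q 332 (.a 1 [] (.d 329 328 328 329 333)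
 (.a 1 [328] (.d 333 329 329 330 334)
 (.a 1 [329] (.d 301 3342 270 3373 425)
 .e))))
 .e))))
 .e))))
 .e)))) (by decide +kernel)

theorem b3_1309 : S (PX [465] [460,463,464,467]) := S.of (.q 462 (.a 1 [] (.d 429 2378 330 2411 495)
 (.a 0 [330,429,495] (.q 395 (.a 1 [] (.d 393 392 392 393 397)
 (.a 1 [392] (.d 397 393 393 394 398)
 (.a 0 [393] (.q 427 (.a 1 [] (.d 331 1323 299 1355 459)
 (.a 1 [299] (.d 459 1355 331 1387 491)
 (.a 0 [331,459] (.q 332 (.a 1 [] (.d 301 3342 270 3373 425)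
 (.a 1 [270] (.d 425 3373 301 3404 456)
 (.a 0 [301,425] (.q 365 (.a 1 [] (.d 334 3375 303 3406 458)
 (.a 1 [303] (.d 458 3406 334 3437 489)
 (.a 1 [334] (.r 398 394 397 (.d 299 2314 266 2347 431))
 .e))))
 .e))))
 .e))))
 (.a 0 [397] (.q 425 (.a 1 [] (.d 332 3373 301 3404 456)
 (.a 1 [301] (.d 456 3404 332 3435 487)
 (.a 0 [332,456] (.r 392 392 393 (.q 427 (.a 1 [] (.d 331 1323 299 1355 459)
 (.a 1 [299] (.d 459 1355 331 1387 491)
 (.a 1 [331] (.r 491 1387 459 (.d 458 2407 359 2440 524))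
 (.a 0 [459] (.q 458 (.a 1 [] (.d 359 2374 326 2407 491)
 (.a 1 [326] (.d 491 2407 359 2440 524)
 (.a 1 [359] (.d 365 3406 334 3437 489)
 .e))))
 .e))))))
 .e))))
 .e)))))
 .e))) (by decide +kernel)

theorem b3_1336 : S (PX [462,465] [297,461,463,464,467]) := S.of (.d 429 2378 330 2411 495) (by decide +kernel)

theorem b3_1337 : S (PX [462,465] [298,461,463,464,467]) := S.of (.d 429 2378 330 2411 495) (by decide +kernel)

theorem b3_1338 : S (PX [462,465] [299,461,463,464,467]) := S.of (.d 429 2378 330 2411 495) (by decide +kernel)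

theorem b3_1339 : S (PX [462,465] [300,461,463,464,467]) := S.of (.d 429 2378 330 2411 495) (by decide +kernel)

theorem b3_1340 : S (PX [462,465] [301,461,463,464,467]) := S.of (.d 429 2378 330 2411 495) (by decide +kernel)

theorem b3_1341 : S (PX [462,465] [329,461,463,464,467]) := S.of (.d 429 2378 330 2411 495) (by decide +kernel)

theorem b3_1342 : S (PX [462,465] [330,461,463,464,467]) := S.of (.q 395 (.a 1 [] (.d 393 392 392 393 397)
 (.a 1 [392] (.d 397 393 393 394 398)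
 (.a 0 [393,397] (.q 332 (.a 1 [] (.d 301 3342 270 3373 425)
 (.a 1 [270] (.d 425 3373 301 3404 456)
 (.a 0 [301,425] (.q 427 (.a 1 [] (.d 331 1323 299 1355 459)
 (.a 1 [299] (.d 459 1355 331 1387 491)
 (.a 0 [331,459] (.r 429 2411 495 (.q 428 (.a 1 [] (.d 430 426 426 427 431)
 (.a 1 [426] (.d 364 1324 300 1356 460)
 .e))))
 .e))))
 .e))))
 .e)))) (by decide +kernel)

theorem b3_1343 : S (PX [462,465] [332,461,463,464,467]) := S.of (.d 429 2378 330 2411 495) (by decide +kernel)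

theorem b3_1344 : S (PX [462,465] [333,461,463,464,467]) := S.of (.d 429 2378 330 2411 495) (by decide +kernel)

theorem b3_1345 : S (PX [462,465] [365,461,463,464,467]) := S.of (.d 429 2378 330 2411 495) (by decide +kernel)

theorem b3_1346 : S (PX [462,465] [395,461,463,464,467]) := S.of (.d 429 2378 330 2411 495) (by decide +kernel)

theorem b3_1347 : S (PX [462,465] [397,461,463,464,467]) := S.of (.d 429 2378 330 2411 495) (by decide +kernel)

theorem b3_1348 : S (PX [462,465] [398,461,463,464,467]) := S.of (.d 429 2378 330 2411 495) (by decide +kernel)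

theorem b3_1349 : S (PX [462,465] [425,461,463,464,467]) := S.of (.d 429 2378 330 2411 495) (by decide +kernel)

theorem b3_1350 : S (PX [462,465] [426,461,463,464,467]) := S.of (.d 429 2378 330 2411 495) (by decide +kernel)

theorem b3_1351 : S (PX [462,465] [427,461,463,464,467]) := S.of (.d 429 2378 330 2411 495) (by decide +kernel)

theorem b3_1352 : S (PX [462,465] [428,461,463,464,467]) := S.of (.d 429 2378 330 2411 495) (by decide +kernel)

theorem b3_1353 : S (PX [462,465] [429,461,463,464,467]) := S.of (.q 397 (.a 1 [] (.d 395 393 393 394 398)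
 (.a 0 [393] (.q 332 (.a 1 [] (.d 301 3342 270 3373 425)
 (.a 1 [270] (.d 425 3373 301 3404 456)
 (.a 0 [301,425] (.q 428 (.a 1 [] (.d 364 1324 300 1356 460)
 (.a 0 [300,364,460] (.q 459 (.a 1 [] (.d 366 3407 335 3438 490)
 (.a 1 [335] (.d 490 3438 366 3469 521)
 (.a 1 [366] (.r 395 394 398 (.d 427 1355 331 1387 491))
 .e))))
 .e)))
 .e))))
 (.a 0 [395] (.q 332 (.a 1 [] (.d 301 3342 270 3373 425)
 (.a 1 [270] (.d 425 3373 301 3404 456)
 (.a 0 [301,425] (.q 428 (.a 1 [] (.d 364 1324 300 1356 460)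
 (.a 0 [300] (.q 366 (.a 1 [] (.d 335 3376 304 3407 459)
 (.a 1 [304] (.d 459 3407 335 3438 490)
 (.a 1 [335] (.r 364 1356 460 (.d 365 362 362 363 367))
 .e))))
 (.a 0 [364] (.q 366 (.a 1 [] (.d 335 3376 304 3407 459)
 (.a 1 [304] (.d 459 3407 335 3438 490)
 (.a 0 [335,459] (.q 399 (.a 1 [] (.d 432 2381 333 2414 498)
 (.a 1 [333] (.r 398 396 400 (.d 430 1358 334 1390 494))
 .e)))
 .e))))
 (.a 0 [460] (.q 366 (.a 1 [] (.d 335 3376 304 3407 459)
 (.a 1 [304] (.d 459 3407 335 3438 490)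
 (.a 1 [335] (.r 364 1324 300 (.d 365 362 362 363 367))
 .e))))
 .e)))))
 .e))))
 (.a 0 [398] (.r 395 393 393 (.q 427 (.a 1 [] (.d 331 1323 299 1355 459)
 (.a 1 [299] (.d 459 1355 331 1387 491)
 (.a 0 [331,459] (.q 365 (.a 1 [] (.d 334 3375 303 3406 458)
 (.a 1 [303] (.d 458 3406 334 3437 489)
 (.a 0 [334,458] (.q 460 (.a 1 [] (.d 361 2376 328 2409 493)
 (.a 1 [328] (.d 493 2409 361 2442 526)
 (.a 1 [493] (.r 361 2376 328 (.r 364 361 362 (.d 428 1356 332 1388 492)))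
 (.a 0 [361] (.q 332 (.a 1 [] (.d 301 3342 270 3373 425)
 (.a 1 [270] (.d 425 3373 301 3404 456)
 (.a 1 [301] (.r 364 1356 428 (.d 366 362 362 363 367))
 .e))))
 .e)))))
 .e))))
 .e)))))
 .e))))) (by decide +kernel)

theorem b3_1354 : S (PX [462,465] [456,461,463,464,467]) := S.of (.d 429 2378 330 2411 495) (by decide +kernel)

theorem b3_1355 : S (PX [462,465] [457,461,463,464,467]) := S.of (.d 429 2378 330 2411 495) (by decide +kernel)

theorem b3_1356 : S (PX [462,465] [461,463,464,467,487]) := S.of (.d 429 2378 330 2411 495) (by decide +kernel)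

theorem b3_1357 : S (PX [462,465] [461,463,464,467,489]) := S.of (.d 429 2378 330 2411 495) (by decide +kernel)

theorem b3_1358 : S (PX [462,465] [461,463,464,467,493]) := S.of (.d 429 2378 330 2411 495) (by decide +kernel)

theorem b3_1359 : S (PX [462,465] [461,463,464,467,497]) := S.of (.d 429 2378 330 2411 495) (by decide +kernel)

theorem b3_1360 : S (PX [462,465] [461,463,464,467,549]) := S.of (.d 429 2378 330 2411 495) (by decide +kernel)

theorem b3_1361 : S (PX [462,465] [461,463,464,467,560]) := S.of (.d 429 2378 330 2411 495) (by decide +kernel)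

theorem b3_1362 : S (PX [460,465] [297,462,463,464,467]) := S.of (.q 427 (.a 1 [] (.d 361 2376 328 2409 493)
 (.a 1 [328] (.d 493 2409 361 2442 526)
 (.a 0 [361,493] (.q 395 (.a 1 [] (.d 393 392 392 393 397)
 (.a 1 [392] (.d 397 393 393 394 398)
 (.a 1 [393] (.d 331 1323 299 1355 459)
 .e))))
 .e)))) (by decide +kernel)

theorem b3_1363 : S (PX [460,465] [332,462,463,464,467]) := S.of (.q 427 (.a 1 [] (.d 361 2376 328 2409 493)
 (.a 1 [328] (.d 493 2409 361 2442 526)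
 (.a 0 [361,493] (.q 395 (.a 1 [] (.d 393 392 392 393 397)
 (.a 1 [392] (.d 397 393 393 394 398)
 (.a 1 [393] (.d 331 1323 299 1355 459)
 .e))))
 .e)))) (by decide +kernel)

theorem b3_1364 : S (PX [460,465] [365,462,463,464,467]) := S.of (.q 332 (.a 1 [] (.d 301 3342 270 3373 425)
 (.a 1 [270] (.d 425 3373 301 3404 456)
 (.a 0 [301,425] (.q 427 (.a 1 [] (.d 361 2376 328 2409 493)
 (.a 1 [328] (.d 493 2409 361 2442 526)
 (.a 0 [361,493] (.q 395 (.a 1 [] (.d 393 392 392 393 397)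
 (.a 1 [392] (.d 397 393 393 394 398)
 (.a 1 [393] (.d 331 1323 299 1355 459)
 .e))))
 .e))))
 .e)))) (by decide +kernel)

theorem b3_1365 : S (PX [460,465] [398,462,463,464,467]) := S.of (.q 332 (.a 1 [] (.d 301 3342 270 3373 425)
 (.a 1 [270] (.d 425 3373 301 3404 456)
 (.a 0 [301,425] (.q 361 (.a 1 [] (.d 427 2376 328 2409 493)
 (.a 1 [328] (.r 364 1356 428 (.d 362 360 360 361 365))
 .e)))
 .e)))) (by decide +kernel)

theorem b3_1366 : S (PX [460,465] [425,462,463,464,467]) := S.of (.q 427 (.a 1 [] (.d 361 2376 328 2409 493)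
 (.a 1 [328] (.d 493 2409 361 2442 526)
 (.a 0 [361,493] (.q 395 (.a 1 [] (.d 393 392 392 393 397)
 (.a 1 [392] (.d 397 393 393 394 398)
 (.a 1 [393] (.d 331 1323 299 1355 459)
 .e))))
 .e)))) (by decide +kernel)

theorem b3_1367 : S (PX [460,465] [456,462,463,464,467]) := S.of (.q 427 (.a 1 [] (.d 361 2376 328 2409 493)
 (.a 1 [328] (.d 493 2409 361 2442 526)
 (.a 0 [361,493] (.q 395 (.a 1 [] (.d 393 392 392 393 397)
 (.a 1 [392] (.d 397 393 393 394 398)
 (.a 1 [393] (.d 331 1323 299 1355 459)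
 .e))))
 .e)))) (by decide +kernel)

theorem b3_1415 : S (PX [464] [425,463,465,467]) := S.of (.q 395 (.a 1 [] (.d 393 392 392 393 397)
 (.a 1 [392] (.d 397 393 393 394 398)
 (.a 0 [393,397] (.q 331 (.a 1 [] (.d 299 1291 267 1323 427)
 (.a 1 [267] (.d 427 1323 299 1355 459)
 (.a 0 [299,427] (.q 330 (.a 1 [] (.d 297 2312 264 2345 429)
 (.a 1 [264] (.d 429 2345 297 2378 462)
 (.a 0 [297] (.q 329 (.a 1 [] (.d 328 327 327 328 332)
 (.a 1 [327] (.d 332 328 328 329 333)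
 (.a 0 [328,332] (.q 362 (.a 1 [] (.d 298 1290 266 1322 426)
 (.a 1 [266] (.d 426 1322 298 1354 458)
 (.a 1 [298] (.d 296 2311 263 2344 428)
 .e))))
 .e))))
 (.a 0 [429] (.q 426 (.a 1 [] (.d 362 1322 298 1354 458)
 (.a 0 [298,362,458] (.q 333 (.a 1 [] (.d 332 329 329 330 334)
 (.a 1 [329] (.d 364 3374 302 3405 457)
 .e)))
 .e)))
 .e)))))
 .e))))
 .e)))) (by decide +kernel)

theorem b3_1575 : S (PX [466] [463,464,465,467]) := S.of (.q 462 (.a 1 [] (.d 429 2378 330 2411 495)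
 (.a 0 [330,429,495] (.q 395 (.a 1 [] (.d 393 392 392 393 397)
 (.a 1 [392] (.d 397 393 393 394 398)
 (.a 0 [393] (.q 427 (.a 1 [] (.d 331 1323 299 1355 459)
 (.a 1 [299] (.d 459 1355 331 1387 491)
 (.a 0 [331,459] (.q 332 (.a 1 [] (.d 301 3342 270 3373 425)
 (.a 1 [270] (.d 425 3373 301 3404 456)
 (.a 0 [301,425] (.q 365 (.a 1 [] (.d 334 3375 303 3406 458)
 (.a 1 [303] (.d 458 3406 334 3437 489)
 (.a 1 [334] (.r 398 394 397 (.d 299 2314 266 2347 431))
 .e))))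
 .e))))
 .e))))
 (.a 0 [397] (.q 331 (.a 1 [] (.d 299 1291 267 1323 427)
 (.a 1 [267] (.d 427 1323 299 1355 459)
 (.a 0 [299,427] (.q 425 (.a 1 [] (.d 332 3373 301 3404 456)
 (.a 1 [301] (.d 456 3404 332 3435 487)
 (.a 0 [332,456] (.r 393 392 392 (.q 361 (.a 1 [] (.d 329 1321 297 1353 457)
 (.a 1 [297] (.d 457 1353 329 1385 489)
 (.a 0 [329,457] (.q 362 (.a 1 [] (.d 360 359 359 360 364)
 (.a 1 [359] (.d 364 360 360 361 365)
 (.a 1 [360] (.d 300 3341 269 3372 424)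
 .e))))
 .e)))))
 .e))))
 .e))))
 .e)))))
 .e))) (by decide +kernel)

theorem b3_1579 : S (PX [465] [425,463,466,467]) := S.of (.q 395 (.a 1 [] (.d 393 392 392 393 397)
 (.a 1 [392] (.d 397 393 393 394 398)
 (.a 0 [393,397] (.q 331 (.a 1 [] (.d 299 1291 267 1323 427)
 (.a 1 [267] (.d 427 1323 299 1355 459)
 (.a 0 [299,427] (.q 330 (.a 1 [] (.d 297 2312 264 2345 429)
 (.a 1 [264] (.d 429 2345 297 2378 462)
 (.a 0 [297] (.q 329 (.a 1 [] (.d 328 327 327 328 332)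
 (.a 1 [327] (.d 332 328 328 329 333)
 (.a 0 [328,332] (.q 362 (.a 1 [] (.d 298 1290 266 1322 426)
 (.a 1 [266] (.d 426 1322 298 1354 458)
 (.a 1 [298] (.d 296 2311 263 2344 428)
 .e))))
 .e))))
 (.a 0 [429] (.q 426 (.a 1 [] (.d 362 1322 298 1354 458)
 (.a 0 [298,362,458] (.q 333 (.a 1 [] (.d 332 329 329 330 334)
 (.a 1 [329] (.d 364 3374 302 3405 457)
 .e)))
 .e)))
 .e)))))
 .e))))
 .e)))) (by decide +kernel)

theorem b3_1580 : S (PX [] [365,464,467]) := S.of (.q 395 (.a 1 [] (.d 393 392 392 393 397)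
 (.a 1 [392] (.d 397 393 393 394 398)
 (.a 0 [393,397] (.q 429 (.a 1 [] (.d 330 2345 297 2378 462)
 (.a 1 [297] (.d 462 2378 330 2411 495)
 (.a 0 [330,462] (.q 427 (.a 1 [] (.d 331 1323 299 1355 459)
 (.a 1 [299] (.d 459 1355 331 1387 491)
 (.a 0 [331,459] (.q 460 (.a 1 [] (.d 361 2376 328 2409 493)
 (.a 1 [328] (.d 493 2409 361 2442 526)
 (.a 0 [361,493] (.q 428 (.a 1 [] (.d 426 425 425 426 430)
 (.a 1 [425] (.d 430 426 426 427 431)
 (.a 1 [426] (.d 364 1356 332 1388 492)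
 .e))))
 .e))))
 .e))))
 .e))))
 .e)))) (by decide +kernel)

theorem b3_1581 : S (PX [466] [365,464,465,467]) := S.of (.q 395 (.a 1 [] (.d 393 392 392 393 397)
 (.a 1 [392] (.d 397 393 393 394 398)
 (.a 0 [393,397] (.q 331 (.a 1 [] (.d 299 1291 267 1323 427)
 (.a 1 [267] (.d 427 1323 299 1355 459)
 (.a 0 [299,427] (.q 332 (.a 1 [] (.d 301 3342 270 3373 425)
 (.a 1 [270] (.d 425 3373 301 3404 456)
 (.a 0 [301,425] (.q 333 (.a 1 [] (.d 330 329 329 330 334)
 (.a 1 [329] (.d 334 330 330 331 335)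
 (.a 1 [334] (.r 330 329 329 (.d 429 2345 297 2378 462))
 (.a 0 [330] (.q 364 (.a 1 [] (.d 300 1292 268 1324 428)
 (.a 1 [268] (.d 428 1324 300 1356 460)
 (.a 1 [300] (.d 302 3343 271 3374 426)
 .e))))
 .e)))))
 .e))))
 .e))))
 .e)))) (by decide +kernel)

theorem b3_1582 : S (PX [461,466] [332,462,464,465,467]) := S.of (.q 395 (.a 1 [] (.d 393 392 392 393 397)
 (.a 1 [392] (.d 397 393 393 394 398)
 (.a 0 [393,397] (.q 427 (.a 1 [] (.d 331 1323 299 1355 459)
 (.a 1 [299] (.d 459 1355 331 1387 491)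
 (.a 0 [331,459] (.q 361 (.a 1 [] (.d 328 2343 295 2376 460)
 (.a 1 [295] (.d 460 2376 328 2409 493)
 (.a 0 [328,460] (.q 362 (.a 1 [] (.d 360 359 359 360 364)
 (.a 1 [330] (.r 329 2377 428 (.d 360 359 359 360 364))
 (.a 1 [359] (.d 428 2377 329 2410 494)
 (.a 0 [329] (.q 330 (.a 1 [] (.d 360 359 359 360 364)
 (.a 1 [359] (.d 364 360 360 361 365)
 (.a 1 [360] (.d 297 2312 264 2345 429)
 .e))))
 .e)))))
 .e))))
 .e))))
 .e)))) (by decide +kernel)

theorem b3_1583 : S (PX [461,466] [365,462,464,465,467]) := S.of (.q 395 (.a 1 [] (.d 393 392 392 393 397)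
 (.a 1 [392] (.d 397 393 393 394 398)
 (.a 0 [393,397] (.q 428 (.a 1 [] (.d 362 2377 329 2410 494)
 (.a 1 [329] (.d 494 2410 362 2443 527)
 (.a 0 [362,494] (.q 332 (.a 1 [] (.d 364 1324 300 1356 460)
 (.a 1 [300] (.d 425 3373 301 3404 456)
 .e)))
 .e))))
 .e)))) (by decide +kernel)

theorem b3_1584 : S (PX [461,466] [425,462,464,465,467]) := S.of (.q 395 (.a 1 [] (.d 393 392 392 393 397)
 (.a 1 [392] (.d 397 393 393 394 398)
 (.a 0 [393,397] (.q 427 (.a 1 [] (.d 331 1323 299 1355 459)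
 (.a 1 [299] (.d 459 1355 331 1387 491)
 (.a 0 [331,459] (.q 361 (.a 1 [] (.d 328 2343 295 2376 460)
 (.a 1 [295] (.d 460 2376 328 2409 493)
 (.a 0 [328,460] (.q 362 (.a 1 [] (.d 360 359 359 360 364)
 (.a 1 [359] (.d 364 360 360 361 365)
 (.a 1 [360] (.d 428 2377 329 2410 494)
 .e))))
 .e))))
 .e))))
 .e)))) (by decide +kernel)

theorem b3_1588 : S (PX [465] [365,464,466,467]) := S.of (.q 395 (.a 1 [] (.d 393 392 392 393 397)
 (.a 1 [392] (.d 397 393 393 394 398)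
 (.a 0 [393,397] (.q 429 (.a 1 [] (.d 330 2345 297 2378 462)
 (.a 1 [297] (.d 462 2378 330 2411 495)
 (.a 0 [330,462] (.q 427 (.a 1 [] (.d 331 1323 299 1355 459)
 (.a 1 [299] (.d 459 1355 331 1387 491)
 (.a 0 [331,459] (.q 460 (.a 1 [] (.d 361 2376 328 2409 493)
 (.a 1 [328] (.d 493 2409 361 2442 526)
 (.a 0 [361,493] (.q 428 (.a 1 [] (.d 426 425 425 426 430)
 (.a 1 [425] (.d 430 426 426 427 431)
 (.a 1 [426] (.d 364 1356 332 1388 492)
 .e))))
 .e))))
 .e))))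
 .e))))
 .e)))) (by decide +kernel)

theorem v3_343 : VW (PX [302,401] [236,335,368,467]) := VW.of base nl_ok fl_ok .nil
  []
  (([205], (PX [302,401] [205,236,335,368,467])) :: ([267], (PX [302,401] [236,267,335,368,467])) :: ([273], (PX [302,401] [236,273,335,368,467])) :: ([298], (PX [302,401] [236,298,335,368,467])) :: ([304], (PX [302,401] [236,304,335,368,467])) :: ([329], (PX [302,401] [236,329,335,368,467])) :: ([330], (PX [302,401] [236,330,335,368,467])) :: ([332], (PX [302,401] [236,332,335,368,467])) :: ([336], (PX [302,401] [236,335,336,368,467])) :: ([360], (PX [302,401] [236,335,360,368,467])) :: ([365], (PX [302,401] [236,335,365,368,467])) :: ([366], (PX [302,401] [236,335,366,368,467])) :: ([425], (PX [302,401] [236,335,368,425,467])) :: ([428], (PX [302,401] [236,335,368,428,467])) :: ([429], (PX [302,401] [236,335,368,429,467])) :: ([456], (PX [302,401] [236,335,368,456,467])) :: [])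
  (by decide +kernel) ⟨b3_537, b3_538, b3_539, b3_540, b3_541, b3_542, b3_543, b3_544, b3_545, b3_546, b3_547, b3_548, b3_549, b3_550, b3_551, b3_552, trivial⟩

theorem v3_347 : VW (PX [269,401] [302,335,368,467]) := VW.of base nl_ok fl_ok .nil
  []
  (([263], (PX [269,401] [263,302,335,368,467])) :: ([271], (PX [269,401] [271,302,335,368,467])) :: ([273], (PX [269,401] [273,302,335,368,467])) :: ([296], (PX [269,401] [296,302,335,368,467])) :: ([297], (PX [269,401] [297,302,335,368,467])) :: ([298], (PX [269,401] [298,302,335,368,467])) :: ([299], (PX [269,401] [299,302,335,368,467])) :: ([300], (PX [269,401] [300,302,335,368,467])) :: ([303], (PX [269,401] [302,303,335,368,467])) :: ([304], (PX [269,401] [302,304,335,368,467])) :: ([305], (PX [269,401] [302,305,335,368,467])) :: ([328], (PX [269,401] [302,328,335,368,467])) :: ([330], (PX [269,401] [302,330,335,368,467])) :: ([332], (PX [269,401] [302,332,335,368,467]))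 :: ([333], (PX [269,401] [302,333,335,368,467])) :: ([336], (PX [269,401] [302,335,336,368,467])) :: ([365], (PX [269,401] [302,335,365,368,467])) :: ([366], (PX [269,401] [302,335,366,368,467])) :: ([392], (PX [269,401] [302,335,368,392,467])) :: ([397], (PX [269,401] [302,335,368,397,467])) :: ([425], (PX [269,401] [302,335,368,425,467])) :: ([426], (PX [269,401] [302,335,368,426,467])) :: ([428], (PX [269,401] [302,335,368,428,467])) :: ([457], (PX [269,401] [302,335,368,457,467])) :: ([459], (PX [269,401] [302,335,368,459,467])) :: ([461], (PX [269,401] [302,335,368,461,467])) :: ([489], (PX [269,401] [302,335,368,467,489])) :: [])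
  (by decide +kernel) ⟨b3_615, b3_616, b3_617, b3_618, b3_619, b3_620, b3_621, b3_622, b3_623, b3_624, b3_625, b3_626, b3_627, b3_628, b3_629, b3_630, b3_631, b3_632, b3_633, b3_634, b3_635, b3_636, b3_637, b3_638, b3_639, b3_640, b3_641, trivial⟩

theorem w3_348_236 : S (PX [401] [236,335,368,467]) := VW.play 302 (PX [302,401] [236,335,368,467]) (by decide +kernel) v3_343

theorem w3_348_302 : S (PX [401] [302,335,368,467]) := VW.play 269 (PX [269,401] [302,335,368,467]) (by decide +kernel) v3_347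

theorem v3_348 : VW (PX [401] [335,368,467]) := VW.of base nl_ok fl_ok .nil
  []
  (([236], (PX [401] [236,335,368,467])) :: ([269], (PX [401] [269,335,368,467])) :: ([273], (PX [401] [273,335,368,467])) :: ([297], (PX [401] [297,335,368,467])) :: ([302], (PX [401] [302,335,368,467])) :: ([304], (PX [401] [304,335,368,467])) :: ([330], (PX [401] [330,335,368,467])) :: ([331], (PX [401] [331,335,368,467])) :: ([332], (PX [401] [332,335,368,467])) :: ([333], (PX [401] [333,335,368,467])) :: ([336], (PX [401] [335,336,368,467])) :: ([364], (PX [401] [335,364,368,467])) :: ([366], (PX [401] [335,366,368,467])) :: ([367], (PX [401] [335,367,368,467])) :: ([399], (PX [401] [335,368,399,467])) :: ([425], (PX [401] [335,368,425,467])) :: ([428], (PX [401] [335,368,428,467])) :: ([457], (PX [401] [335,368,457,467])) :: ([459], (PX [401] [335,368,459,467])) :: ([461], (PX [401] [335,368,461,467])) :: ([489], (PX [401] [335,368,467,489]))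 :: [])
  (by decide +kernel) ⟨w3_348_236, b3_585, b3_586, b3_587, w3_348_302, b3_642, b3_643, b3_644, b3_645, b3_646, b3_647, b3_648, b3_649, b3_650, b3_651, b3_652, b3_653, b3_654, b3_655, b3_656, b3_657, trivial⟩

theorem v3_353 : VW (PX [368] [335,401,467]) := VW.of base nl_ok fl_ok .nil
  [(434, (.cons 500 533 .nil (.cons 533 500 .nil .nil))), (500, (.cons 434 533 .nil (.cons 533 434 (.cons 566 599 .nil (.cons 599 566 .nil .nil)) .nil))), (533, (.cons 434 500 .nil (.cons 500 434 (.cons 566 599 .nil (.cons 599 566 .nil .nil)) .nil)))]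
  [([304], (PX [368] [304,335,401,467])), ([330], (PX [368] [330,335,401,467])), ([332], (PX [368] [332,335,401,467])), ([366], (PX [368] [335,366,401,467])), ([400], (PX [368] [335,400,401,467])), ([425], (PX [368] [335,401,425,467])), ([428], (PX [368] [335,401,428,467]))]
  (by decide +kernel) ⟨b3_718, b3_719, b3_720, b3_721, b3_722, b3_723, b3_724, trivial⟩

theorem v3_373 : VW (PX [401] [335,434,467]) := VW.of base nl_ok fl_ok .nil
  [(500, (.cons 533 566 .nil (.cons 566 533 .nil .nil))), (533, (.cons 500 566 .nil (.cons 566 500 .nil .nil))), (566, (.cons 500 533 .nil (.cons 533 500 .nil .nil)))]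
  [([304], (PX [401] [304,335,434,467])), ([330], (PX [401] [330,335,434,467])), ([332], (PX [401] [332,335,434,467])), ([366], (PX [401] [335,366,434,467])), ([425], (PX [401] [335,425,434,467])), ([428], (PX [401] [335,428,434,467]))]
  (by decide +kernel) ⟨b3_1077, b3_1078, b3_1079, b3_1080, b3_1081, b3_1082, trivial⟩

theorem w3_374_368 : S (PX [] [335,368,467]) := VW.play 401 (PX [401] [335,368,467]) (by decide +kernel) v3_348

theorem w3_374_401 : S (PX [] [335,401,467]) := VW.play 368 (PX [368] [335,401,467]) (by decide +kernel) v3_353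

theorem w3_374_434 : S (PX [] [335,434,467]) := VW.play 401 (PX [401] [335,434,467]) (by decide +kernel) v3_373

theorem v3_374 : VW (PX [] [335,467]) := VW.of base nl_ok fl_ok .nil
  []
  [([304], (PX [] [304,335,467])), ([330], (PX [] [330,335,467])), ([332], (PX [] [332,335,467])), ([366], (PX [] [335,366,467])), ([368], (PX [] [335,368,467])), ([401], (PX [] [335,401,467])), ([425], (PX [] [335,425,467])), ([428], (PX [] [335,428,467])), ([434], (PX [] [335,434,467]))]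
  (by decide +kernel) ⟨b3_517, b3_518, b3_519, b3_520, w3_374_368, w3_374_401, b3_953, b3_954, w3_374_434, trivial⟩

theorem v3_375 : VW (PX [] [339,467]) := VW.of base nl_ok fl_ok .nil
  [(371, (.cons 403 435 (.cons 275 307 .nil (.cons 307 275 .nil .nil)) (.cons 435 403 .nil .nil))), (403, (.cons 371 435 (.cons 275 307 .nil (.cons 307 275 .nil .nil)) (.cons 435 371 (.cons 499 531 .nil (.cons 531 499 .nil .nil)) .nil))), (435, (.cons 371 403 .nil (.cons 403 371 (.cons 499 531 .nil (.cons 531 499 .nil .nil)) .nil)))]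
  []
  (by decide +kernel) trivial

theorem v3_376 : VW (PX [] [343,467]) := VW.of base nl_ok fl_ok .nil
  [(374, (.cons 405 436 (.cons 281 312 .nil (.cons 312 281 .nil .nil)) (.cons 436 405 .nil .nil))), (405, (.cons 374 436 (.cons 281 312 .nil (.cons 312 281 .nil .nil)) (.cons 436 374 (.cons 498 529 .nil (.cons 529 498 .nil .nil)) .nil))), (436, (.cons 374 405 .nil (.cons 405 374 (.cons 498 529 .nil (.cons 529 498 .nil .nil)) .nil)))]
  []
  (by decide +kernel) trivial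

theorem v3_377 : VW (PX [335,500] [368,401,434,467]) := VW.of base nl_ok fl_ok .nil
  []
  [([400], (PX [335,500] [368,400,401,434,467]))]
  (by decide +kernel) ⟨b3_1084, trivial⟩

theorem v3_378 : VW (PX [335,434] [368,401,467,500]) := VW.of base nl_ok fl_ok .nil
  [(533, (.cons 566 599 .nil (.cons 599 566 .nil .nil))), (566, (.cons 533 599 .nil (.cons 599 533 .nil .nil))), (599, (.cons 533 566 .nil (.cons 566 533 .nil .nil)))]
  [([400], (PX [335,434] [368,400,401,467,500]))]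
  (by decide +kernel) ⟨b3_1085, trivial⟩

theorem w3_379_434 : S (PX [335] [368,401,434,467]) := VW.play 500 (PX [335,500] [368,401,434,467]) (by decide +kernel) v3_377

theorem w3_379_500 : S (PX [335] [368,401,467,500]) := VW.play 434 (PX [335,434] [368,401,467,500]) (by decide +kernel) v3_378

theorem v3_379 : VW (PX [335] [368,401,467]) := VW.of base nl_ok fl_ok (.cons 434 500 .nil (.cons 500 434 .nil .nil))
  [(533, (.cons 434 500 .nil (.cons 500 434 (.cons 566 599 .nil (.cons 599 566 .nil .nil)) .nil))), (566, (.cons 434 500 .nil (.cons 500 434 (.cons 533 599 .nil (.cons 599 533 .nil .nil)) .nil))), (599, (.cons 434 500 .nil (.cons 500 434 (.cons 533 566 .nil (.cons 566 533 .nil .nil)) .nil)))]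
  [([400], (PX [335] [368,400,401,467])), ([434], (PX [335] [368,401,434,467])), ([500], (PX [335] [368,401,467,500]))]
  (by decide +kernel) ⟨b3_1083, w3_379_434, w3_379_500, trivial⟩

theorem v3_383 : VW (PX [401] [368,434,467]) := VW.of base nl_ok fl_ok .nil
  [(500, (.cons 533 566 .nil (.cons 566 533 .nil .nil))), (533, (.cons 500 566 .nil (.cons 566 500 .nil .nil))), (566, (.cons 500 533 .nil (.cons 533 500 .nil .nil)))]
  []
  (by decide +kernel) trivial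

theorem w3_384_335 : S (PX [] [335,368,467]) := VW.play 401 (PX [401] [335,368,467]) (by decide +kernel) v3_348

theorem w3_384_401 : S (PX [] [368,401,467]) := VW.play 335 (PX [335] [368,401,467]) (by decide +kernel) v3_379

theorem w3_384_434 : S (PX [] [368,434,467]) := VW.play 401 (PX [401] [368,434,467]) (by decide +kernel) v3_383

theorem v3_384 : VW (PX [] [368,467]) := VW.of base nl_ok fl_ok .nil
  [(500, (.cons 401 434 .nil (.cons 434 401 (.cons 533 566 .nil (.cons 566 533 .nil .nil)) .nil)))]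
  [([335], (PX [] [335,368,467])), ([401], (PX [] [368,401,467])), ([434], (PX [] [368,434,467]))]
  (by decide +kernel) ⟨w3_384_335, w3_384_401, w3_384_434, trivial⟩

theorem v3_387 : VW (PX [435] [371,403,467]) := VW.of base nl_ok fl_ok .nil
  [(275, (.cons 307 339 .nil (.cons 339 307 .nil .nil))), (307, (.cons 275 339 .nil (.cons 339 275 .nil .nil))), (339, (.cons 275 307 .nil (.cons 307 275 .nil .nil)))]
  []
  (by decide +kernel) trivial

theorem v3_130 : VW (PX [403] [371,435,467]) := VW.of base nl_ok fl_ok .nil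
  [(499, (.cons 531 563 .nil (.cons 563 531 .nil .nil))), (531, (.cons 499 563 .nil (.cons 563 499 .nil .nil))), (563, (.cons 499 531 .nil (.cons 531 499 .nil .nil)))]
  []
  (by decide +kernel) trivial

theorem w3_402_403 : S (PX [] [371,403,467]) := VW.play 435 (PX [435] [371,403,467]) (by decide +kernel) v3_387

theorem w3_402_435 : S (PX [] [371,435,467]) := VW.play 403 (PX [403] [371,435,467]) (by decide +kernel) v3_130

theorem v3_402 : VW (PX [] [371,467]) := VW.of base nl_ok fl_ok .nil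
  [(339, (.cons 403 435 (.cons 275 307 .nil (.cons 307 275 .nil .nil)) (.cons 435 403 .nil .nil))), (499, (.cons 403 435 .nil (.cons 435 403 (.cons 531 563 .nil (.cons 563 531 .nil .nil)) .nil)))]
  [([403], (PX [] [371,403,467])), ([435], (PX [] [371,435,467]))]
  (by decide +kernel) ⟨w3_402_403, w3_402_435, trivial⟩

theorem v3_407 : VW (PX [436] [374,405,467]) := VW.of base nl_ok fl_ok .nil
  [(281, (.cons 312 343 .nil (.cons 343 312 .nil .nil))), (312, (.cons 281 343 .nil (.cons 343 281 .nil .nil))), (343, (.cons 281 312 .nil (.cons 312 281 .nil .nil)))]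
  []
  (by decide +kernel) trivial

theorem v3_408 : VW (PX [405,529] [374,436,467,498]) := VW.of base nl_ok fl_ok .nil
  []
  []
  (by decide +kernel) trivial

theorem w3_410_498 : S (PX [405] [374,436,467,498]) := VW.play 529 (PX [405,529] [374,436,467,498]) (by decide +kernel) v3_408

theorem v3_410 : VW (PX [405] [374,436,467]) := VW.of base nl_ok fl_ok .nil
  [(529, (.cons 498 560 .nil (.cons 560 498 .nil .nil))), (560, (.cons 498 529 .nil (.cons 529 498 .nil .nil)))]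
  [([498], (PX [405] [374,436,467,498]))]
  (by decide +kernel) ⟨w3_410_498, trivial⟩

theorem v3_418 : VW (PX [436,529] [374,467,498,591]) := VW.of base nl_ok fl_ok .nil
  []
  []
  (by decide +kernel) trivial

theorem w3_420_591 : S (PX [436] [374,467,498,591]) := VW.play 529 (PX [436,529] [374,467,498,591]) (by decide +kernel) v3_418

theorem v3_420 : VW (PX [436] [374,467,498]) := VW.of base nl_ok fl_ok .nil
  [(529, (.cons 560 591 .nil (.cons 591 560 .nil .nil))), (560, (.cons 529 591 .nil (.cons 591 529 .nil .nil)))]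
  [([591], (PX [436] [374,467,498,591]))]
  (by decide +kernel) ⟨w3_420_591, trivial⟩

theorem w3_421_405 : S (PX [] [374,405,467]) := VW.play 436 (PX [436] [374,405,467]) (by decide +kernel) v3_407

theorem w3_421_436 : S (PX [] [374,436,467]) := VW.play 405 (PX [405] [374,436,467]) (by decide +kernel) v3_410

theorem w3_421_498 : S (PX [] [374,467,498]) := VW.play 436 (PX [436] [374,467,498]) (by decide +kernel) v3_420

theorem v3_421 : VW (PX [] [374,467]) := VW.of base nl_ok fl_ok .nil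
  [(343, (.cons 405 436 (.cons 281 312 .nil (.cons 312 281 .nil .nil)) (.cons 436 405 .nil .nil)))]
  [([405], (PX [] [374,405,467])), ([436], (PX [] [374,436,467])), ([498], (PX [] [374,467,498]))]
  (by decide +kernel) ⟨w3_421_405, w3_421_436, w3_421_498, trivial⟩

theorem v3_422 : VW (PX [368,533] [401,434,467,500]) := VW.of base nl_ok fl_ok .nil
  []
  [([400], (PX [368,533] [400,401,434,467,500]))]
  (by decide +kernel) ⟨b3_1129, trivial⟩

theorem v3_423 : VW (PX [368,500] [401,434,467,533]) := VW.of base nl_ok fl_ok .nil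
  []
  [([400], (PX [368,500] [400,401,434,467,533]))]
  (by decide +kernel) ⟨b3_1130, trivial⟩

theorem w3_424_500 : S (PX [368] [401,434,467,500]) := VW.play 533 (PX [368,533] [401,434,467,500]) (by decide +kernel) v3_422

theorem w3_424_533 : S (PX [368] [401,434,467,533]) := VW.play 500 (PX [368,500] [401,434,467,533]) (by decide +kernel) v3_423

theorem v3_424 : VW (PX [368] [401,434,467]) := VW.of base nl_ok fl_ok (.cons 500 533 .nil (.cons 533 500 .nil .nil))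
  [(566, (.cons 500 533 .nil (.cons 533 500 .nil .nil))), (599, (.cons 500 533 .nil (.cons 533 500 .nil .nil))), (632, (.cons 500 533 .nil (.cons 533 500 .nil .nil)))]
  [([400], (PX [368] [400,401,434,467])), ([500], (PX [368] [401,434,467,500])), ([533], (PX [368] [401,434,467,533]))]
  (by decide +kernel) ⟨b3_1128, w3_424_500, w3_424_533, trivial⟩

theorem v3_425 : VW (PX [434] [401,467,500]) := VW.of base nl_ok fl_ok .nil
  [(533, (.cons 566 599 .nil (.cons 599 566 .nil .nil))), (566, (.cons 533 599 .nil (.cons 599 533 .nil .nil))), (599, (.cons 533 566 .nil (.cons 566 533 .nil .nil)))]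
  [([400], (PX [434] [400,401,467,500]))]
  (by decide +kernel) ⟨b3_1131, trivial⟩

theorem v3_426 : VW (PX [434] [401,467,533]) := VW.of base nl_ok fl_ok .nil
  [(500, (.cons 566 599 .nil (.cons 599 566 .nil .nil))), (566, (.cons 500 599 .nil (.cons 599 500 (.cons 632 665 .nil (.cons 665 632 .nil .nil)) .nil))), (599, (.cons 500 566 .nil (.cons 566 500 (.cons 632 665 .nil (.cons 665 632 .nil .nil)) .nil)))]
  [([400], (PX [434] [400,401,467,533]))]
  (by decide +kernel) ⟨b3_1132, trivial⟩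

theorem w3_440_335 : S (PX [] [335,401,467]) := VW.play 368 (PX [368] [335,401,467]) (by decide +kernel) v3_353

theorem w3_440_368 : S (PX [] [368,401,467]) := VW.play 335 (PX [335] [368,401,467]) (by decide +kernel) v3_379

theorem w3_440_434 : S (PX [] [401,434,467]) := VW.play 368 (PX [368] [401,434,467]) (by decide +kernel) v3_424

theorem w3_440_500 : S (PX [] [401,467,500]) := VW.play 434 (PX [434] [401,467,500]) (by decide +kernel) v3_425

theorem w3_440_533 : S (PX [] [401,467,533]) := VW.play 434 (PX [434] [401,467,533]) (by decide +kernel) v3_426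

theorem v3_440 : VW (PX [] [401,467]) := VW.of base nl_ok fl_ok .nil
  []
  [([335], (PX [] [335,401,467])), ([368], (PX [] [368,401,467])), ([400], (PX [] [400,401,467])), ([434], (PX [] [401,434,467])), ([500], (PX [] [401,467,500])), ([533], (PX [] [401,467,533]))]
  (by decide +kernel) ⟨w3_440_335, w3_440_368, b3_1127, w3_440_434, w3_440_500, w3_440_533, trivial⟩

theorem v3_165 : VW (PX [371,531] [403,435,467,499]) := VW.of base nl_ok fl_ok .nil
  []
  []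
  (by decide +kernel) trivial

theorem v3_166 : VW (PX [371,499] [403,435,467,531]) := VW.of base nl_ok fl_ok .nil
  []
  []
  (by decide +kernel) trivial

theorem w3_167_499 : S (PX [371] [403,435,467,499]) := VW.play 531 (PX [371,531] [403,435,467,499]) (by decide +kernel) v3_165

theorem w3_167_531 : S (PX [371] [403,435,467,531]) := VW.play 499 (PX [371,499] [403,435,467,531]) (by decide +kernel) v3_166

theorem v3_167 : VW (PX [371] [403,435,467]) := VW.of base nl_ok fl_ok (.cons 499 531 .nil (.cons 531 499 .nil .nil))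
  [(563, (.cons 499 531 .nil (.cons 531 499 .nil .nil))), (595, (.cons 499 531 .nil (.cons 531 499 .nil .nil))), (627, (.cons 499 531 .nil (.cons 531 499 .nil .nil)))]
  [([499], (PX [371] [403,435,467,499])), ([531], (PX [371] [403,435,467,531]))]
  (by decide +kernel) ⟨w3_167_499, w3_167_531, trivial⟩

theorem v3_455 : VW (PX [435] [403,467,499]) := VW.of base nl_ok fl_ok .nil
  [(531, (.cons 563 595 .nil (.cons 595 563 .nil .nil))), (563, (.cons 531 595 .nil (.cons 595 531 .nil .nil))), (595, (.cons 531 563 .nil (.cons 563 531 .nil .nil)))]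
  []
  (by decide +kernel) trivial

theorem w3_458_371 : S (PX [] [371,403,467]) := VW.play 435 (PX [435] [371,403,467]) (by decide +kernel) v3_387

theorem w3_458_435 : S (PX [] [403,435,467]) := VW.play 371 (PX [371] [403,435,467]) (by decide +kernel) v3_167

theorem w3_458_499 : S (PX [] [403,467,499]) := VW.play 435 (PX [435] [403,467,499]) (by decide +kernel) v3_455

theorem v3_458 : VW (PX [] [403,467]) := VW.of base nl_ok fl_ok .nil
  [(339, (.cons 371 435 (.cons 275 307 .nil (.cons 307 275 .nil .nil)) (.cons 435 371 (.cons 499 531 .nil (.cons 531 499 .nil .nil)) .nil))), (531, (.cons 435 499 (.cons 339 371 .nil (.cons 371 339 .nil .nil)) (.cons 499 435 (.cons 563 595 .nil (.cons 595 563 .nil .nil)) .nil)))]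
  [([371], (PX [] [371,403,467])), ([435], (PX [] [403,435,467])), ([499], (PX [] [403,467,499]))]
  (by decide +kernel) ⟨w3_458_371, w3_458_435, w3_458_499, trivial⟩

theorem v3_459 : VW (PX [374,498] [343,405,436,467]) := VW.of base nl_ok fl_ok .nil
  []
  []
  (by decide +kernel) trivial

theorem v3_403 : VW (PX [343,498] [374,405,436,467]) := VW.of base nl_ok fl_ok .nil
  []
  []
  (by decide +kernel) trivial

theorem w3_460_343 : S (PX [498] [343,405,436,467]) := VW.play 374 (PX [374,498] [343,405,436,467]) (by decide +kernel) v3_459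

theorem w3_460_374 : S (PX [498] [374,405,436,467]) := VW.play 343 (PX [343,498] [374,405,436,467]) (by decide +kernel) v3_403

theorem v3_460 : VW (PX [498] [405,436,467]) := VW.of base nl_ok fl_ok (.cons 343 374 .nil (.cons 374 343 .nil .nil))
  [(250, (.cons 343 374 .nil (.cons 374 343 .nil .nil))), (281, (.cons 343 374 .nil (.cons 374 343 .nil .nil))), (312, (.cons 343 374 .nil (.cons 374 343 .nil .nil)))]
  [([343], (PX [498] [343,405,436,467])), ([374], (PX [498] [374,405,436,467]))]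
  (by decide +kernel) ⟨w3_460_343, w3_460_374, trivial⟩

theorem v3_461 : VW (PX [436,529] [405,467,498,591]) := VW.of base nl_ok fl_ok .nil
  []
  []
  (by decide +kernel) trivial

theorem w3_463_591 : S (PX [436] [405,467,498,591]) := VW.play 529 (PX [436,529] [405,467,498,591]) (by decide +kernel) v3_461

theorem v3_463 : VW (PX [436] [405,467,498]) := VW.of base nl_ok fl_ok .nil
  [(529, (.cons 560 591 .nil (.cons 591 560 .nil .nil))), (560, (.cons 529 591 .nil (.cons 591 529 .nil .nil)))]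
  [([591], (PX [436] [405,467,498,591]))]
  (by decide +kernel) ⟨w3_463_591, trivial⟩

theorem w3_467_374 : S (PX [] [374,405,467]) := VW.play 436 (PX [436] [374,405,467]) (by decide +kernel) v3_407

theorem w3_467_436 : S (PX [] [405,436,467]) := VW.play 498 (PX [498] [405,436,467]) (by decide +kernel) v3_460

theorem w3_467_498 : S (PX [] [405,467,498]) := VW.play 436 (PX [436] [405,467,498]) (by decide +kernel) v3_463

theorem v3_467 : VW (PX [] [405,467]) := VW.of base nl_ok fl_ok .nil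
  [(343, (.cons 374 436 (.cons 281 312 .nil (.cons 312 281 .nil .nil)) (.cons 436 374 (.cons 498 529 .nil (.cons 529 498 .nil .nil)) .nil))), (529, (.cons 436 498 (.cons 343 374 .nil (.cons 374 343 .nil .nil)) (.cons 498 436 (.cons 560 591 .nil (.cons 591 560 .nil .nil)) .nil)))]
  [([374], (PX [] [374,405,467])), ([436], (PX [] [405,436,467])), ([498], (PX [] [405,467,498]))]
  (by decide +kernel) ⟨w3_467_374, w3_467_436, w3_467_498, trivial⟩

theorem v3_468 : VW (PX [401,566] [434,467,500,533]) := VW.of base nl_ok fl_ok .nil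
  []
  []
  (by decide +kernel) trivial

theorem v3_469 : VW (PX [401,533] [434,467,500,566]) := VW.of base nl_ok fl_ok .nil
  []
  []
  (by decide +kernel) trivial

theorem w3_470_533 : S (PX [401] [434,467,500,533]) := VW.play 566 (PX [401,566] [434,467,500,533]) (by decide +kernel) v3_468

theorem w3_470_566 : S (PX [401] [434,467,500,566]) := VW.play 533 (PX [401,533] [434,467,500,566]) (by decide +kernel) v3_469

theorem v3_470 : VW (PX [401] [434,467,500]) := VW.of base nl_ok fl_ok (.cons 533 566 .nil (.cons 566 533 .nil .nil))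
  [(599, (.cons 533 566 .nil (.cons 566 533 .nil .nil))), (632, (.cons 533 566 .nil (.cons 566 533 .nil .nil))), (665, (.cons 533 566 .nil (.cons 566 533 .nil .nil)))]
  [([533], (PX [401] [434,467,500,533])), ([566], (PX [401] [434,467,500,566]))]
  (by decide +kernel) ⟨w3_470_533, w3_470_566, trivial⟩

theorem v3_471 : VW (PX [401,500] [434,467,533,566]) := VW.of base nl_ok fl_ok .nil
  [(599, (.cons 632 665 .nil (.cons 665 632 .nil .nil))), (632, (.cons 599 665 .nil (.cons 665 599 .nil .nil))), (665, (.cons 599 632 .nil (.cons 632 599 .nil .nil)))]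
  []
  (by decide +kernel) trivial

theorem w3_472_500 : S (PX [401] [434,467,500,533]) := VW.play 566 (PX [401,566] [434,467,500,533]) (by decide +kernel) v3_468

theorem w3_472_566 : S (PX [401] [434,467,533,566]) := VW.play 500 (PX [401,500] [434,467,533,566]) (by decide +kernel) v3_471

theorem v3_472 : VW (PX [401] [434,467,533]) := VW.of base nl_ok fl_ok (.cons 500 566 .nil (.cons 566 500 .nil .nil))
  [(599, (.cons 500 566 .nil (.cons 566 500 (.cons 632 665 .nil (.cons 665 632 .nil .nil)) .nil))), (632, (.cons 500 566 .nil (.cons 566 500 (.cons 599 665 .nil (.cons 665 599 .nil .nil)) .nil))), (665, (.cons 500 566 .nil (.cons 566 500 (.cons 599 632 .nil (.cons 632 599 .nil .nil)) .nil)))]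
  [([500], (PX [401] [434,467,500,533])), ([566], (PX [401] [434,467,533,566]))]
  (by decide +kernel) ⟨w3_472_500, w3_472_566, trivial⟩

theorem v3_478 : VW (PX [401,500] [335,434,467,566]) := VW.of base nl_ok fl_ok .nil
  []
  [([304], (PX [401,500] [304,335,434,467,566])), ([330], (PX [401,500] [330,335,434,467,566])), ([332], (PX [401,500] [332,335,434,467,566])), ([366], (PX [401,500] [335,366,434,467,566])), ([425], (PX [401,500] [335,425,434,467,566])), ([428], (PX [401,500] [335,428,434,467,566]))]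
  (by decide +kernel) ⟨b3_1275, b3_1276, b3_1277, b3_1278, b3_1279, b3_1280, trivial⟩

theorem v3_479 : VW (PX [335,500] [368,434,467,566]) := VW.of base nl_ok fl_ok .nil
  []
  []
  (by decide +kernel) trivial

theorem v3_482 : VW (PX [368,500] [401,434,467,566]) := VW.of base nl_ok fl_ok .nil
  []
  [([400], (PX [368,500] [400,401,434,467,566]))]
  (by decide +kernel) ⟨b3_1282, trivial⟩

theorem w3_483_335 : S (PX [500] [335,434,467,566]) := VW.play 401 (PX [401,500] [335,434,467,566]) (by decide +kernel) v3_478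

theorem w3_483_368 : S (PX [500] [368,434,467,566]) := VW.play 335 (PX [335,500] [368,434,467,566]) (by decide +kernel) v3_479

theorem w3_483_401 : S (PX [500] [401,434,467,566]) := VW.play 368 (PX [368,500] [401,434,467,566]) (by decide +kernel) v3_482

theorem v3_483 : VW (PX [500] [434,467,566]) := VW.of base nl_ok fl_ok .nil
  []
  [([335], (PX [500] [335,434,467,566])), ([368], (PX [500] [368,434,467,566])), ([401], (PX [500] [401,434,467,566]))]
  (by decide +kernel) ⟨w3_483_335, w3_483_368, w3_483_401, trivial⟩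

theorem w3_491_335 : S (PX [] [335,434,467]) := VW.play 401 (PX [401] [335,434,467]) (by decide +kernel) v3_373

theorem w3_491_368 : S (PX [] [368,434,467]) := VW.play 401 (PX [401] [368,434,467]) (by decide +kernel) v3_383

theorem w3_491_401 : S (PX [] [401,434,467]) := VW.play 368 (PX [368] [401,434,467]) (by decide +kernel) v3_424

theorem w3_491_500 : S (PX [] [434,467,500]) := VW.play 401 (PX [401] [434,467,500]) (by decide +kernel) v3_470

theorem w3_491_533 : S (PX [] [434,467,533]) := VW.play 401 (PX [401] [434,467,533]) (by decide +kernel) v3_472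

theorem w3_491_566 : S (PX [] [434,467,566]) := VW.play 500 (PX [500] [434,467,566]) (by decide +kernel) v3_483

theorem v3_491 : VW (PX [] [434,467]) := VW.of base nl_ok fl_ok .nil
  []
  [([335], (PX [] [335,434,467])), ([368], (PX [] [368,434,467])), ([401], (PX [] [401,434,467])), ([500], (PX [] [434,467,500])), ([533], (PX [] [434,467,533])), ([566], (PX [] [434,467,566]))]
  (by decide +kernel) ⟨w3_491_335, w3_491_368, w3_491_401, w3_491_500, w3_491_533, w3_491_566, trivial⟩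

theorem v3_284 : VW (PX [403,563] [435,467,499,531]) := VW.of base nl_ok fl_ok .nil
  []
  []
  (by decide +kernel) trivial

theorem v3_285 : VW (PX [403,531] [435,467,499,563]) := VW.of base nl_ok fl_ok .nil
  []
  []
  (by decide +kernel) trivial

theorem w3_286_531 : S (PX [403] [435,467,499,531]) := VW.play 563 (PX [403,563] [435,467,499,531]) (by decide +kernel) v3_284

theorem w3_286_563 : S (PX [403] [435,467,499,563]) := VW.play 531 (PX [403,531] [435,467,499,563]) (by decide +kernel) v3_285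

theorem v3_286 : VW (PX [403] [435,467,499]) := VW.of base nl_ok fl_ok (.cons 531 563 .nil (.cons 563 531 .nil .nil))
  [(595, (.cons 531 563 .nil (.cons 563 531 .nil .nil))), (627, (.cons 531 563 .nil (.cons 563 531 .nil .nil))), (659, (.cons 531 563 .nil (.cons 563 531 .nil .nil)))]
  [([531], (PX [403] [435,467,499,531])), ([563], (PX [403] [435,467,499,563]))]
  (by decide +kernel) ⟨w3_286_531, w3_286_563, trivial⟩

theorem v3_291 : VW (PX [499] [435,467,531]) := VW.of base nl_ok fl_ok .nil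
  [(339, (.cons 371 403 .nil (.cons 403 371 .nil .nil))), (371, (.cons 339 403 .nil (.cons 403 339 .nil .nil))), (403, (.cons 339 371 .nil (.cons 371 339 .nil .nil)))]
  []
  (by decide +kernel) trivial

theorem w3_303_371 : S (PX [] [371,435,467]) := VW.play 403 (PX [403] [371,435,467]) (by decide +kernel) v3_130

theorem w3_303_403 : S (PX [] [403,435,467]) := VW.play 371 (PX [371] [403,435,467]) (by decide +kernel) v3_167

theorem w3_303_499 : S (PX [] [435,467,499]) := VW.play 403 (PX [403] [435,467,499]) (by decide +kernel) v3_286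

theorem w3_303_531 : S (PX [] [435,467,531]) := VW.play 499 (PX [499] [435,467,531]) (by decide +kernel) v3_291

theorem v3_303 : VW (PX [] [435,467]) := VW.of base nl_ok fl_ok .nil
  [(339, (.cons 371 403 .nil (.cons 403 371 (.cons 499 531 .nil (.cons 531 499 .nil .nil)) .nil))), (563, (.cons 499 531 (.cons 371 403 .nil (.cons 403 371 .nil .nil)) (.cons 531 499 .nil .nil)))]
  [([371], (PX [] [371,435,467])), ([403], (PX [] [403,435,467])), ([499], (PX [] [435,467,499])), ([531], (PX [] [435,467,531]))]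
  (by decide +kernel) ⟨w3_303_371, w3_303_403, w3_303_499, w3_303_531, trivial⟩

theorem v3_492 : VW (PX [405,529] [374,436,467,498]) := VW.of base nl_ok fl_ok .nil
  []
  []
  (by decide +kernel) trivial

theorem v3_465 : VW (PX [374,529] [405,436,467,498]) := VW.of base nl_ok fl_ok .nil
  []
  []
  (by decide +kernel) trivial

theorem w3_493_374 : S (PX [529] [374,436,467,498]) := VW.play 405 (PX [405,529] [374,436,467,498]) (by decide +kernel) v3_492

theorem w3_493_405 : S (PX [529] [405,436,467,498]) := VW.play 374 (PX [374,529] [405,436,467,498]) (by decide +kernel) v3_465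

theorem v3_493 : VW (PX [529] [436,467,498]) := VW.of base nl_ok fl_ok (.cons 374 405 .nil (.cons 405 374 .nil .nil))
  [(281, (.cons 374 405 .nil (.cons 405 374 .nil .nil))), (312, (.cons 374 405 .nil (.cons 405 374 .nil .nil))), (343, (.cons 374 405 .nil (.cons 405 374 .nil .nil)))]
  [([374], (PX [529] [374,436,467,498])), ([405], (PX [529] [405,436,467,498]))]
  (by decide +kernel) ⟨w3_493_374, w3_493_405, trivial⟩

theorem v3_494 : VW (PX [498] [436,467,529]) := VW.of base nl_ok fl_ok .nil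
  [(343, (.cons 374 405 .nil (.cons 405 374 .nil .nil))), (374, (.cons 343 405 .nil (.cons 405 343 .nil .nil))), (405, (.cons 343 374 .nil (.cons 374 343 .nil .nil)))]
  []
  (by decide +kernel) trivial

theorem w3_510_374 : S (PX [] [374,436,467]) := VW.play 405 (PX [405] [374,436,467]) (by decide +kernel) v3_410

theorem w3_510_405 : S (PX [] [405,436,467]) := VW.play 498 (PX [498] [405,436,467]) (by decide +kernel) v3_460

theorem w3_510_498 : S (PX [] [436,467,498]) := VW.play 529 (PX [529] [436,467,498]) (by decide +kernel) v3_493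

theorem w3_510_529 : S (PX [] [436,467,529]) := VW.play 498 (PX [498] [436,467,529]) (by decide +kernel) v3_494

theorem v3_510 : VW (PX [] [436,467]) := VW.of base nl_ok fl_ok .nil
  [(343, (.cons 374 405 .nil (.cons 405 374 (.cons 498 529 .nil (.cons 529 498 .nil .nil)) .nil))), (560, (.cons 498 529 (.cons 374 405 .nil (.cons 405 374 .nil .nil)) (.cons 529 498 .nil .nil)))]
  [([374], (PX [] [374,436,467])), ([405], (PX [] [405,436,467])), ([498], (PX [] [436,467,498])), ([529], (PX [] [436,467,529]))]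
  (by decide +kernel) ⟨w3_510_374, w3_510_405, w3_510_498, w3_510_529, trivial⟩

theorem v3_512 : VW (PX [462,465] [461,463,464,467]) := VW.of base nl_ok fl_ok .nil
  []
  (([297], (PX [462,465] [297,461,463,464,467])) :: ([298], (PX [462,465] [298,461,463,464,467])) :: ([299], (PX [462,465] [299,461,463,464,467])) :: ([300], (PX [462,465] [300,461,463,464,467])) :: ([301], (PX [462,465] [301,461,463,464,467])) :: ([329], (PX [462,465] [329,461,463,464,467])) :: ([330], (PX [462,465] [330,461,463,464,467])) :: ([332], (PX [462,465] [332,461,463,464,467])) :: ([333], (PX [462,465] [333,461,463,464,467])) :: ([365], (PX [462,465] [365,461,463,464,467])) :: ([395], (PX [462,465] [395,461,463,464,467])) :: ([397], (PX [462,465] [397,461,463,464,467])) :: ([398], (PX [462,465] [398,461,463,464,467])) :: ([425], (PX [462,465] [425,461,463,464,467])) :: ([426], (PX [462,465] [426,461,463,464,467])) :: ([427], (PX [462,465]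 [427,461,463,464,467])) :: ([428], (PX [462,465] [428,461,463,464,467])) :: ([429], (PX [462,465] [429,461,463,464,467])) :: ([456], (PX [462,465] [456,461,463,464,467])) :: ([457], (PX [462,465] [457,461,463,464,467])) :: ([487], (PX [462,465] [461,463,464,467,487])) :: ([489], (PX [462,465] [461,463,464,467,489])) :: ([493], (PX [462,465] [461,463,464,467,493])) :: ([497], (PX [462,465] [461,463,464,467,497])) :: ([549], (PX [462,465] [461,463,464,467,549])) :: ([560], (PX [462,465] [461,463,464,467,560])) :: [])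
  (by decide +kernel) ⟨b3_1336, b3_1337, b3_1338, b3_1339, b3_1340, b3_1341, b3_1342, b3_1343, b3_1344, b3_1345, b3_1346, b3_1347, b3_1348, b3_1349, b3_1350, b3_1351, b3_1352, b3_1353, b3_1354, b3_1355, b3_1356, b3_1357, b3_1358, b3_1359, b3_1360, b3_1361, trivial⟩

theorem v3_513 : VW (PX [460,465] [462,463,464,467]) := VW.of base nl_ok fl_ok .nil
  []
  [([297], (PX [460,465] [297,462,463,464,467])), ([332], (PX [460,465] [332,462,463,464,467])), ([365], (PX [460,465] [365,462,463,464,467])), ([398], (PX [460,465] [398,462,463,464,467])), ([425], (PX [460,465] [425,462,463,464,467])), ([456], (PX [460,465] [456,462,463,464,467]))]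
  (by decide +kernel) ⟨b3_1362, b3_1363, b3_1364, b3_1365, b3_1366, b3_1367, trivial⟩

theorem w3_515_461 : S (PX [465] [461,463,464,467]) := VW.play 462 (PX [462,465] [461,463,464,467]) (by decide +kernel) v3_512

theorem w3_515_462 : S (PX [465] [462,463,464,467]) := VW.play 460 (PX [460,465] [462,463,464,467]) (by decide +kernel) v3_513

theorem v3_515 : VW (PX [465] [463,464,467]) := VW.of base nl_ok fl_ok .nil
  []
  (([297], (PX [465] [297,463,464,467])) :: ([332], (PX [465] [332,463,464,467])) :: ([364], (PX [465] [364,463,464,467])) :: ([365], (PX [465] [365,463,464,467])) :: ([397], (PX [465] [397,463,464,467])) :: ([398], (PX [465] [398,463,464,467])) :: ([425], (PX [465] [425,463,464,467])) :: ([427], (PX [465] [427,463,464,467])) :: ([429], (PX [465] [429,463,464,467])) :: ([431], (PX [465] [431,463,464,467])) :: ([456], (PX [465] [456,463,464,467])) :: ([457], (PX [465] [457,463,464,467])) :: ([460],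 (PX [465] [460,463,464,467])) :: ([461], (PX [465] [461,463,464,467])) :: ([462], (PX [465] [462,463,464,467])) :: [])
  (by decide +kernel) ⟨b3_1297, b3_1298, b3_1299, b3_1300, b3_1301, b3_1302, b3_1303, b3_1304, b3_1305, b3_1306, b3_1307, b3_1308, b3_1309, w3_515_461, w3_515_462, trivial⟩

theorem v3_516 : VW (PX [464] [463,465,467]) := VW.of base nl_ok fl_ok .nil
  [(466, (.cons 468 469 .nil (.cons 469 468 .nil .nil))), (468, (.cons 466 469 .nil (.cons 469 466 (.cons 470 471 .nil (.cons 471 470 .nil .nil)) .nil))), (469, (.cons 466 468 .nil (.cons 468 466 (.cons 470 471 .nil (.cons 471 470 .nil .nil)) .nil)))]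
  [([425], (PX [464] [425,463,465,467]))]
  (by decide +kernel) ⟨b3_1415, trivial⟩

theorem v3_525 : VW (PX [465] [463,466,467]) := VW.of base nl_ok fl_ok .nil
  [(468, (.cons 469 470 .nil (.cons 470 469 .nil .nil))), (469, (.cons 468 470 .nil (.cons 470 468 .nil .nil))), (470, (.cons 468 469 .nil (.cons 469 468 .nil .nil)))]
  [([425], (PX [465] [425,463,466,467]))]
  (by decide +kernel) ⟨b3_1579, trivial⟩

theorem w3_526_464 : S (PX [] [463,464,467]) := VW.play 465 (PX [465] [463,464,467]) (by decide +kernel) v3_515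

theorem w3_526_465 : S (PX [] [463,465,467]) := VW.play 464 (PX [464] [463,465,467]) (by decide +kernel) v3_516

theorem w3_526_466 : S (PX [] [463,466,467]) := VW.play 465 (PX [465] [463,466,467]) (by decide +kernel) v3_525

theorem v3_526 : VW (PX [] [463,467]) := VW.of base nl_ok fl_ok .nil
  []
  [([425], (PX [] [425,463,467])), ([464], (PX [] [463,464,467])), ([465], (PX [] [463,465,467])), ([466], (PX [] [463,466,467]))]
  (by decide +kernel) ⟨b3_1296, w3_526_464, w3_526_465, w3_526_466, trivial⟩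

theorem v3_527 : VW (PX [461,466] [462,464,465,467]) := VW.of base nl_ok fl_ok .nil
  []
  [([332], (PX [461,466] [332,462,464,465,467])), ([365], (PX [461,466] [365,462,464,465,467])), ([425], (PX [461,466] [425,462,464,465,467]))]
  (by decide +kernel) ⟨b3_1582, b3_1583, b3_1584, trivial⟩

theorem w3_529_462 : S (PX [466] [462,464,465,467]) := VW.play 461 (PX [461,466] [462,464,465,467]) (by decide +kernel) v3_527

theorem v3_529 : VW (PX [466] [464,465,467]) := VW.of base nl_ok fl_ok .nil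
  [(461, (.cons 462 463 .nil (.cons 463 462 .nil .nil)))]
  [([365], (PX [466] [365,464,465,467])), ([462], (PX [466] [462,464,465,467])), ([463], (PX [466] [463,464,465,467]))]
  (by decide +kernel) ⟨b3_1581, w3_529_462, b3_1575, trivial⟩

theorem v3_530 : VW (PX [465] [464,466,467]) := VW.of base nl_ok fl_ok .nil
  [(468, (.cons 469 470 .nil (.cons 470 469 .nil .nil))), (469, (.cons 468 470 .nil (.cons 470 468 .nil .nil))), (470, (.cons 468 469 .nil (.cons 469 468 .nil .nil)))]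
  [([365], (PX [465] [365,464,466,467]))]
  (by decide +kernel) ⟨b3_1588, trivial⟩

theorem w3_531_463 : S (PX [] [463,464,467]) := VW.play 465 (PX [465] [463,464,467]) (by decide +kernel) v3_515

theorem w3_531_465 : S (PX [] [464,465,467]) := VW.play 466 (PX [466] [464,465,467]) (by decide +kernel) v3_529

theorem w3_531_466 : S (PX [] [464,466,467]) := VW.play 465 (PX [465] [464,466,467]) (by decide +kernel) v3_530

theorem v3_531 : VW (PX [] [464,467]) := VW.of base nl_ok fl_ok .nil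
  [(468, (.cons 465 466 .nil (.cons 466 465 (.cons 469 470 .nil (.cons 470 469 .nil .nil)) .nil)))]
  [([365], (PX [] [365,464,467])), ([463], (PX [] [463,464,467])), ([465], (PX [] [464,465,467])), ([466], (PX [] [464,466,467]))]
  (by decide +kernel) ⟨b3_1580, w3_531_463, w3_531_465, w3_531_466, trivial⟩

theorem v3_532 : VW (PX [464,469] [465,466,467,468]) := VW.of base nl_ok fl_ok .nil
  []
  []
  (by decide +kernel) trivial

theorem v3_533 : VW (PX [464,468] [465,466,467,469]) := VW.of base nl_ok fl_ok .nil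
  []
  []
  (by decide +kernel) trivial

theorem w3_534_468 : S (PX [464] [465,466,467,468]) := VW.play 469 (PX [464,469] [465,466,467,468]) (by decide +kernel) v3_532

theorem w3_534_469 : S (PX [464] [465,466,467,469]) := VW.play 468 (PX [464,468] [465,466,467,469]) (by decide +kernel) v3_533

theorem v3_534 : VW (PX [464] [465,466,467]) := VW.of base nl_ok fl_ok (.cons 468 469 .nil (.cons 469 468 .nil .nil))
  [(470, (.cons 468 469 .nil (.cons 469 468 .nil .nil))), (471, (.cons 468 469 .nil (.cons 469 468 .nil .nil))), (472, (.cons 468 469 .nil (.cons 469 468 .nil .nil)))]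
  [([468], (PX [464] [465,466,467,468])), ([469], (PX [464] [465,466,467,469]))]
  (by decide +kernel) ⟨w3_534_468, w3_534_469, trivial⟩

theorem v3_549 : VW (PX [466] [465,467,468]) := VW.of base nl_ok fl_ok .nil
  [(469, (.cons 470 471 .nil (.cons 471 470 .nil .nil))), (470, (.cons 469 471 .nil (.cons 471 469 .nil .nil))), (471, (.cons 469 470 .nil (.cons 470 469 .nil .nil)))]
  []
  (by decide +kernel) trivial

theorem v3_550 : VW (PX [466] [465,467,469]) := VW.of base nl_ok fl_ok .nil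
  [(468, (.cons 470 471 .nil (.cons 471 470 .nil .nil))), (470, (.cons 468 471 .nil (.cons 471 468 (.cons 472 473 .nil (.cons 473 472 .nil .nil)) .nil))), (471, (.cons 468 470 .nil (.cons 470 468 (.cons 472 473 .nil (.cons 473 472 .nil .nil)) .nil)))]
  []
  (by decide +kernel) trivial

theorem w3_562_463 : S (PX [] [463,465,467]) := VW.play 464 (PX [464] [463,465,467]) (by decide +kernel) v3_516

theorem w3_562_464 : S (PX [] [464,465,467]) := VW.play 466 (PX [466] [464,465,467]) (by decide +kernel) v3_529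

theorem w3_562_466 : S (PX [] [465,466,467]) := VW.play 464 (PX [464] [465,466,467]) (by decide +kernel) v3_534

theorem w3_562_468 : S (PX [] [465,467,468]) := VW.play 466 (PX [466] [465,467,468]) (by decide +kernel) v3_549

theorem w3_562_469 : S (PX [] [465,467,469]) := VW.play 466 (PX [466] [465,467,469]) (by decide +kernel) v3_550

theorem v3_562 : VW (PX [] [465,467]) := VW.of base nl_ok fl_ok .nil
  []
  [([463], (PX [] [463,465,467])), ([464], (PX [] [464,465,467])), ([466], (PX [] [465,466,467])), ([468], (PX [] [465,467,468])), ([469], (PX [] [465,467,469]))]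
  (by decide +kernel) ⟨w3_562_463, w3_562_464, w3_562_466, w3_562_468, w3_562_469, trivial⟩

theorem v3_563 : VW (PX [465,470] [466,467,468,469]) := VW.of base nl_ok fl_ok .nil
  []
  []
  (by decide +kernel) trivial

theorem v3_564 : VW (PX [465,469] [466,467,468,470]) := VW.of base nl_ok fl_ok .nil
  []
  []
  (by decide +kernel) trivial

theorem w3_565_469 : S (PX [465] [466,467,468,469]) := VW.play 470 (PX [465,470] [466,467,468,469]) (by decide +kernel) v3_563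

theorem w3_565_470 : S (PX [465] [466,467,468,470]) := VW.play 469 (PX [465,469] [466,467,468,470]) (by decide +kernel) v3_564

theorem v3_565 : VW (PX [465] [466,467,468]) := VW.of base nl_ok fl_ok (.cons 469 470 .nil (.cons 470 469 .nil .nil))
  [(471, (.cons 469 470 .nil (.cons 470 469 .nil .nil))), (472, (.cons 469 470 .nil (.cons 470 469 .nil .nil))), (473, (.cons 469 470 .nil (.cons 470 469 .nil .nil)))]
  [([469], (PX [465] [466,467,468,469])), ([470], (PX [465] [466,467,468,470]))]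
  (by decide +kernel) ⟨w3_565_469, w3_565_470, trivial⟩

theorem v3_566 : VW (PX [465,468] [466,467,469,470]) := VW.of base nl_ok fl_ok .nil
  [(471, (.cons 472 473 .nil (.cons 473 472 .nil .nil))), (472, (.cons 471 473 .nil (.cons 473 471 .nil .nil))), (473, (.cons 471 472 .nil (.cons 472 471 .nil .nil)))]
  []
  (by decide +kernel) trivial

theorem w3_567_468 : S (PX [465] [466,467,468,469]) := VW.play 470 (PX [465,470] [466,467,468,469]) (by decide +kernel) v3_563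

theorem w3_567_470 : S (PX [465] [466,467,469,470]) := VW.play 468 (PX [465,468] [466,467,469,470]) (by decide +kernel) v3_566

theorem v3_567 : VW (PX [465] [466,467,469]) := VW.of base nl_ok fl_ok (.cons 468 470 .nil (.cons 470 468 .nil .nil))
  [(471, (.cons 468 470 .nil (.cons 470 468 (.cons 472 473 .nil (.cons 473 472 .nil .nil)) .nil))), (472, (.cons 468 470 .nil (.cons 470 468 (.cons 471 473 .nil (.cons 473 471 .nil .nil)) .nil))), (473, (.cons 468 470 .nil (.cons 470 468 (.cons 471 472 .nil (.cons 472 471 .nil .nil)) .nil)))]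
  [([468], (PX [465] [466,467,468,469])), ([470], (PX [465] [466,467,469,470]))]
  (by decide +kernel) ⟨w3_567_468, w3_567_470, trivial⟩

theorem w3_570_463 : S (PX [] [463,466,467]) := VW.play 465 (PX [465] [463,466,467]) (by decide +kernel) v3_525

theorem w3_570_464 : S (PX [] [464,466,467]) := VW.play 465 (PX [465] [464,466,467]) (by decide +kernel) v3_530

theorem w3_570_465 : S (PX [] [465,466,467]) := VW.play 464 (PX [464] [465,466,467]) (by decide +kernel) v3_534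

theorem w3_570_468 : S (PX [] [466,467,468]) := VW.play 465 (PX [465] [466,467,468]) (by decide +kernel) v3_565

theorem w3_570_469 : S (PX [] [466,467,469]) := VW.play 465 (PX [465] [466,467,469]) (by decide +kernel) v3_567

theorem v3_570 : VW (PX [] [466,467]) := VW.of base nl_ok fl_ok .nil
  [(470, (.cons 468 469 (.cons 464 465 .nil (.cons 465 464 .nil .nil)) (.cons 469 468 .nil .nil)))]
  [([463], (PX [] [463,466,467])), ([464], (PX [] [464,466,467])), ([465], (PX [] [465,466,467])), ([468], (PX [] [466,467,468])), ([469], (PX [] [466,467,469]))]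
  (by decide +kernel) ⟨w3_570_463, w3_570_464, w3_570_465, w3_570_468, w3_570_469, trivial⟩

theorem v3_571 : VW (PX [466,471] [467,468,469,470]) := VW.of base nl_ok fl_ok .nil
  []
  []
  (by decide +kernel) trivial

theorem v3_572 : VW (PX [466,470] [467,468,469,471]) := VW.of base nl_ok fl_ok .nil
  []
  []
  (by decide +kernel) trivial

theorem w3_573_470 : S (PX [466] [467,468,469,470]) := VW.play 471 (PX [466,471] [467,468,469,470]) (by decide +kernel) v3_571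

theorem w3_573_471 : S (PX [466] [467,468,469,471]) := VW.play 470 (PX [466,470] [467,468,469,471]) (by decide +kernel) v3_572

theorem v3_573 : VW (PX [466] [467,468,469]) := VW.of base nl_ok fl_ok (.cons 470 471 .nil (.cons 471 470 .nil .nil))
  [(472, (.cons 470 471 .nil (.cons 471 470 .nil .nil))), (473, (.cons 470 471 .nil (.cons 471 470 .nil .nil))), (474, (.cons 470 471 .nil (.cons 471 470 .nil .nil)))]
  [([470], (PX [466] [467,468,469,470])), ([471], (PX [466] [467,468,469,471]))]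
  (by decide +kernel) ⟨w3_573_470, w3_573_471, trivial⟩

theorem v3_541 : VW (PX [464,469] [465,467,468,470]) := VW.of base nl_ok fl_ok .nil
  []
  []
  (by decide +kernel) trivial

theorem w3_577_465 : S (PX [469] [465,467,468,470]) := VW.play 464 (PX [464,469] [465,467,468,470]) (by decide +kernel) v3_541

theorem v3_577 : VW (PX [469] [467,468,470]) := VW.of base nl_ok fl_ok .nil
  [(464, (.cons 465 466 .nil (.cons 466 465 .nil .nil))), (466, (.cons 464 465 .nil (.cons 465 464 .nil .nil)))]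
  [([465], (PX [469] [465,467,468,470]))]
  (by decide +kernel) ⟨w3_577_465, trivial⟩

theorem w3_578_465 : S (PX [] [465,467,468]) := VW.play 466 (PX [466] [465,467,468]) (by decide +kernel) v3_549

theorem w3_578_466 : S (PX [] [466,467,468]) := VW.play 465 (PX [465] [466,467,468]) (by decide +kernel) v3_565

theorem w3_578_469 : S (PX [] [467,468,469]) := VW.play 466 (PX [466] [467,468,469]) (by decide +kernel) v3_573

theorem w3_578_470 : S (PX [] [467,468,470]) := VW.play 469 (PX [469] [467,468,470]) (by decide +kernel) v3_577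

theorem v3_578 : VW (PX [] [467,468]) := VW.of base nl_ok fl_ok .nil
  [(464, (.cons 465 466 .nil (.cons 466 465 (.cons 469 470 .nil (.cons 470 469 .nil .nil)) .nil))), (471, (.cons 469 470 (.cons 465 466 .nil (.cons 466 465 .nil .nil)) (.cons 470 469 .nil .nil)))]
  [([465], (PX [] [465,467,468])), ([466], (PX [] [466,467,468])), ([469], (PX [] [467,468,469])), ([470], (PX [] [467,468,470]))]
  (by decide +kernel) ⟨w3_578_465, w3_578_466, w3_578_469, w3_578_470, trivial⟩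

theorem v3_579 : VW (PX [468] [467,469,470]) := VW.of base nl_ok fl_ok .nil
  [(471, (.cons 472 473 .nil (.cons 473 472 .nil .nil))), (472, (.cons 471 473 .nil (.cons 473 471 .nil .nil))), (473, (.cons 471 472 .nil (.cons 472 471 .nil .nil)))]
  []
  (by decide +kernel) trivial

theorem w3_580_465 : S (PX [] [465,467,469]) := VW.play 466 (PX [466] [465,467,469]) (by decide +kernel) v3_550

theorem w3_580_466 : S (PX [] [466,467,469]) := VW.play 465 (PX [465] [466,467,469]) (by decide +kernel) v3_567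

theorem w3_580_468 : S (PX [] [467,468,469]) := VW.play 466 (PX [466] [467,468,469]) (by decide +kernel) v3_573

theorem w3_580_470 : S (PX [] [467,469,470]) := VW.play 468 (PX [468] [467,469,470]) (by decide +kernel) v3_579

theorem v3_580 : VW (PX [] [467,469]) := VW.of base nl_ok fl_ok .nil
  [(471, (.cons 468 470 (.cons 465 466 .nil (.cons 466 465 .nil .nil)) (.cons 470 468 (.cons 472 473 .nil (.cons 473 472 .nil .nil)) .nil)))]
  [([465], (PX [] [465,467,469])), ([466], (PX [] [466,467,469])), ([468], (PX [] [467,468,469])), ([470], (PX [] [467,469,470]))]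
  (by decide +kernel) ⟨w3_580_465, w3_580_466, w3_580_468, w3_580_470, trivial⟩

theorem w3_581_468 : S (PX [] [467,468,470]) := VW.play 469 (PX [469] [467,468,470]) (by decide +kernel) v3_577

theorem w3_581_469 : S (PX [] [467,469,470]) := VW.play 468 (PX [468] [467,469,470]) (by decide +kernel) v3_579

theorem v3_581 : VW (PX [] [467,470]) := VW.of base nl_ok fl_ok .nil
  [(466, (.cons 468 469 (.cons 464 465 .nil (.cons 465 464 .nil .nil)) (.cons 469 468 .nil .nil))), (471, (.cons 468 469 .nil (.cons 469 468 (.cons 472 473 .nil (.cons 473 472 .nil .nil)) .nil)))]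
  [([468], (PX [] [467,468,470])), ([469], (PX [] [467,469,470]))]
  (by decide +kernel) ⟨w3_581_468, w3_581_469, trivial⟩

theorem v3_582 : VW (PX [] [467,471]) := VW.of base nl_ok fl_ok .nil
  [(468, (.cons 469 470 (.cons 465 466 .nil (.cons 466 465 .nil .nil)) (.cons 470 469 .nil .nil))), (469, (.cons 468 470 (.cons 465 466 .nil (.cons 466 465 .nil .nil)) (.cons 470 468 (.cons 472 473 .nil (.cons 473 472 .nil .nil)) .nil))), (470, (.cons 468 469 .nil (.cons 469 468 (.cons 472 473 .nil (.cons 473 472 .nil .nil)) .nil)))]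
  []
  (by decide +kernel) trivial

theorem v3_583 : VW (PX [436,560] [405,467,498,529]) := VW.of base nl_ok fl_ok .nil
  []
  []
  (by decide +kernel) trivial

theorem v3_508 : VW (PX [405,560] [436,467,498,529]) := VW.of base nl_ok fl_ok .nil
  []
  []
  (by decide +kernel) trivial

theorem w3_584_405 : S (PX [560] [405,467,498,529]) := VW.play 436 (PX [436,560] [405,467,498,529]) (by decide +kernel) v3_583

theorem w3_584_436 : S (PX [560] [436,467,498,529]) := VW.play 405 (PX [405,560] [436,467,498,529]) (by decide +kernel) v3_508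

theorem v3_584 : VW (PX [560] [467,498,529]) := VW.of base nl_ok fl_ok (.cons 405 436 .nil (.cons 436 405 .nil .nil))
  [(312, (.cons 405 436 .nil (.cons 436 405 .nil .nil))), (343, (.cons 405 436 .nil (.cons 436 405 .nil .nil))), (374, (.cons 405 436 .nil (.cons 436 405 .nil .nil)))]
  [([405], (PX [560] [405,467,498,529])), ([436], (PX [560] [436,467,498,529]))]
  (by decide +kernel) ⟨w3_584_405, w3_584_436, trivial⟩

theorem v3_585 : VW (PX [529] [467,498,560]) := VW.of base nl_ok fl_ok .nil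
  [(374, (.cons 405 436 .nil (.cons 436 405 .nil .nil))), (405, (.cons 374 436 .nil (.cons 436 374 .nil .nil))), (436, (.cons 374 405 .nil (.cons 405 374 .nil .nil)))]
  []
  (by decide +kernel) trivial

theorem v3_586 : VW (PX [529] [467,498,591]) := VW.of base nl_ok fl_ok .nil
  [(374, (.cons 405 436 .nil (.cons 436 405 .nil .nil))), (405, (.cons 374 436 .nil (.cons 436 374 .nil .nil))), (436, (.cons 374 405 .nil (.cons 405 374 .nil .nil)))]
  []
  (by decide +kernel) trivial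

theorem w3_594_374 : S (PX [] [374,467,498]) := VW.play 436 (PX [436] [374,467,498]) (by decide +kernel) v3_420

theorem w3_594_405 : S (PX [] [405,467,498]) := VW.play 436 (PX [436] [405,467,498]) (by decide +kernel) v3_463

theorem w3_594_436 : S (PX [] [436,467,498]) := VW.play 529 (PX [529] [436,467,498]) (by decide +kernel) v3_493

theorem w3_594_529 : S (PX [] [467,498,529]) := VW.play 560 (PX [560] [467,498,529]) (by decide +kernel) v3_584

theorem w3_594_560 : S (PX [] [467,498,560]) := VW.play 529 (PX [529] [467,498,560]) (by decide +kernel) v3_585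

theorem w3_594_591 : S (PX [] [467,498,591]) := VW.play 529 (PX [529] [467,498,591]) (by decide +kernel) v3_586

theorem v3_594 : VW (PX [] [467,498]) := VW.of base nl_ok fl_ok .nil
  []
  [([374], (PX [] [374,467,498])), ([405], (PX [] [405,467,498])), ([436], (PX [] [436,467,498])), ([529], (PX [] [467,498,529])), ([560], (PX [] [467,498,560])), ([591], (PX [] [467,498,591]))]
  (by decide +kernel) ⟨w3_594_374, w3_594_405, w3_594_436, w3_594_529, w3_594_560, w3_594_591, trivial⟩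

theorem v3_595 : VW (PX [435,595] [467,499,531,563]) := VW.of base nl_ok fl_ok .nil
  []
  []
  (by decide +kernel) trivial

theorem v3_596 : VW (PX [435,563] [467,499,531,595]) := VW.of base nl_ok fl_ok .nil
  []
  []
  (by decide +kernel) trivial

theorem w3_597_563 : S (PX [435] [467,499,531,563]) := VW.play 595 (PX [435,595] [467,499,531,563]) (by decide +kernel) v3_595

theorem w3_597_595 : S (PX [435] [467,499,531,595]) := VW.play 563 (PX [435,563] [467,499,531,595]) (by decide +kernel) v3_596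

theorem v3_597 : VW (PX [435] [467,499,531]) := VW.of base nl_ok fl_ok (.cons 563 595 .nil (.cons 595 563 .nil .nil))
  [(627, (.cons 563 595 .nil (.cons 595 563 .nil .nil))), (659, (.cons 563 595 .nil (.cons 595 563 .nil .nil))), (691, (.cons 563 595 .nil (.cons 595 563 .nil .nil)))]
  [([563], (PX [435] [467,499,531,563])), ([595], (PX [435] [467,499,531,595]))]
  (by decide +kernel) ⟨w3_597_563, w3_597_595, trivial⟩

theorem v3_602 : VW (PX [531] [467,499,563]) := VW.of base nl_ok fl_ok .nil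
  [(371, (.cons 403 435 .nil (.cons 435 403 .nil .nil))), (403, (.cons 371 435 .nil (.cons 435 371 .nil .nil))), (435, (.cons 371 403 .nil (.cons 403 371 .nil .nil)))]
  []
  (by decide +kernel) trivial

theorem w3_614_403 : S (PX [] [403,467,499]) := VW.play 435 (PX [435] [403,467,499]) (by decide +kernel) v3_455

theorem w3_614_435 : S (PX [] [435,467,499]) := VW.play 403 (PX [403] [435,467,499]) (by decide +kernel) v3_286

theorem w3_614_531 : S (PX [] [467,499,531]) := VW.play 435 (PX [435] [467,499,531]) (by decide +kernel) v3_597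

theorem w3_614_563 : S (PX [] [467,499,563]) := VW.play 531 (PX [531] [467,499,563]) (by decide +kernel) v3_602

theorem v3_614 : VW (PX [] [467,499]) := VW.of base nl_ok fl_ok .nil
  [(371, (.cons 403 435 .nil (.cons 435 403 (.cons 531 563 .nil (.cons 563 531 .nil .nil)) .nil))), (595, (.cons 531 563 (.cons 403 435 .nil (.cons 435 403 .nil .nil)) (.cons 563 531 .nil .nil)))]
  [([403], (PX [] [403,467,499])), ([435], (PX [] [435,467,499])), ([531], (PX [] [467,499,531])), ([563], (PX [] [467,499,563]))]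
  (by decide +kernel) ⟨w3_614_403, w3_614_435, w3_614_531, w3_614_563, trivial⟩

theorem v3_615 : VW (PX [434,599] [467,500,533,566]) := VW.of base nl_ok fl_ok .nil
  []
  []
  (by decide +kernel) trivial

theorem v3_616 : VW (PX [434,566] [467,500,533,599]) := VW.of base nl_ok fl_ok .nil
  []
  []
  (by decide +kernel) trivial

theorem w3_617_566 : S (PX [434] [467,500,533,566]) := VW.play 599 (PX [434,599] [467,500,533,566]) (by decide +kernel) v3_615

theorem w3_617_599 : S (PX [434] [467,500,533,599]) := VW.play 566 (PX [434,566] [467,500,533,599]) (by decide +kernel) v3_616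

theorem v3_617 : VW (PX [434] [467,500,533]) := VW.of base nl_ok fl_ok (.cons 566 599 .nil (.cons 599 566 .nil .nil))
  [(632, (.cons 566 599 .nil (.cons 599 566 .nil .nil))), (665, (.cons 566 599 .nil (.cons 599 566 .nil .nil))), (698, (.cons 566 599 .nil (.cons 599 566 .nil .nil)))]
  [([566], (PX [434] [467,500,533,566])), ([599], (PX [434] [467,500,533,599]))]
  (by decide +kernel) ⟨w3_617_566, w3_617_599, trivial⟩

theorem v3_488 : VW (PX [368,533] [434,467,500,566]) := VW.of base nl_ok fl_ok .nil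
  []
  []
  (by decide +kernel) trivial

theorem w3_620_434 : S (PX [533] [434,467,500,566]) := VW.play 368 (PX [368,533] [434,467,500,566]) (by decide +kernel) v3_488

theorem v3_620 : VW (PX [533] [467,500,566]) := VW.of base nl_ok fl_ok .nil
  [(368, (.cons 401 434 .nil (.cons 434 401 .nil .nil))), (401, (.cons 368 434 .nil (.cons 434 368 .nil .nil)))]
  [([434], (PX [533] [434,467,500,566]))]
  (by decide +kernel) ⟨w3_620_434, trivial⟩

theorem w3_621_401 : S (PX [] [401,467,500]) := VW.play 434 (PX [434] [401,467,500]) (by decide +kernel) v3_425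

theorem w3_621_434 : S (PX [] [434,467,500]) := VW.play 401 (PX [401] [434,467,500]) (by decide +kernel) v3_470

theorem w3_621_533 : S (PX [] [467,500,533]) := VW.play 434 (PX [434] [467,500,533]) (by decide +kernel) v3_617

theorem w3_621_566 : S (PX [] [467,500,566]) := VW.play 533 (PX [533] [467,500,566]) (by decide +kernel) v3_620

theorem v3_621 : VW (PX [] [467,500]) := VW.of base nl_ok fl_ok .nil
  [(368, (.cons 401 434 .nil (.cons 434 401 (.cons 533 566 .nil (.cons 566 533 .nil .nil)) .nil))), (599, (.cons 533 566 (.cons 401 434 .nil (.cons 434 401 .nil .nil)) (.cons 566 533 .nil .nil)))]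
  [([401], (PX [] [401,467,500])), ([434], (PX [] [434,467,500])), ([533], (PX [] [467,500,533])), ([566], (PX [] [467,500,566]))]
  (by decide +kernel) ⟨w3_621_401, w3_621_434, w3_621_533, w3_621_566, trivial⟩

theorem v3_622 : VW (PX [498] [467,529,560]) := VW.of base nl_ok fl_ok .nil
  [(591, (.cons 622 653 .nil (.cons 653 622 .nil .nil))), (622, (.cons 591 653 .nil (.cons 653 591 .nil .nil))), (653, (.cons 591 622 .nil (.cons 622 591 .nil .nil)))]
  []
  (by decide +kernel) trivial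

theorem w3_626_436 : S (PX [] [436,467,529]) := VW.play 498 (PX [498] [436,467,529]) (by decide +kernel) v3_494

theorem w3_626_498 : S (PX [] [467,498,529]) := VW.play 560 (PX [560] [467,498,529]) (by decide +kernel) v3_584

theorem w3_626_560 : S (PX [] [467,529,560]) := VW.play 498 (PX [498] [467,529,560]) (by decide +kernel) v3_622

theorem v3_626 : VW (PX [] [467,529]) := VW.of base nl_ok fl_ok .nil
  [(405, (.cons 436 498 (.cons 343 374 .nil (.cons 374 343 .nil .nil)) (.cons 498 436 (.cons 560 591 .nil (.cons 591 560 .nil .nil)) .nil))), (591, (.cons 498 560 (.cons 405 436 .nil (.cons 436 405 .nil .nil)) (.cons 560 498 (.cons 622 653 .nil (.cons 653 622 .nil .nil)) .nil)))]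
  [([436], (PX [] [436,467,529])), ([498], (PX [] [467,498,529])), ([560], (PX [] [467,529,560]))]
  (by decide +kernel) ⟨w3_626_436, w3_626_498, w3_626_560, trivial⟩

theorem v3_641 : VW (PX [499] [467,531,563]) := VW.of base nl_ok fl_ok .nil
  [(595, (.cons 627 659 .nil (.cons 659 627 .nil .nil))), (627, (.cons 595 659 .nil (.cons 659 595 .nil .nil))), (659, (.cons 595 627 .nil (.cons 627 595 .nil .nil)))]
  []
  (by decide +kernel) trivial

theorem w3_644_435 : S (PX [] [435,467,531]) := VW.play 499 (PX [499] [435,467,531]) (by decide +kernel) v3_291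

theorem w3_644_499 : S (PX [] [467,499,531]) := VW.play 435 (PX [435] [467,499,531]) (by decide +kernel) v3_597

theorem w3_644_563 : S (PX [] [467,531,563]) := VW.play 499 (PX [499] [467,531,563]) (by decide +kernel) v3_641

theorem v3_644 : VW (PX [] [467,531]) := VW.of base nl_ok fl_ok .nil
  [(403, (.cons 435 499 (.cons 339 371 .nil (.cons 371 339 .nil .nil)) (.cons 499 435 (.cons 563 595 .nil (.cons 595 563 .nil .nil)) .nil))), (595, (.cons 499 563 (.cons 403 435 .nil (.cons 435 403 .nil .nil)) (.cons 563 499 (.cons 627 659 .nil (.cons 659 627 .nil .nil)) .nil)))]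
  [([435], (PX [] [435,467,531])), ([499], (PX [] [467,499,531])), ([563], (PX [] [467,531,563]))]
  (by decide +kernel) ⟨w3_644_435, w3_644_499, w3_644_563, trivial⟩

theorem v3_645 : VW (PX [500] [467,533,566]) := VW.of base nl_ok fl_ok .nil
  [(599, (.cons 632 665 .nil (.cons 665 632 .nil .nil))), (632, (.cons 599 665 .nil (.cons 665 599 .nil .nil))), (665, (.cons 599 632 .nil (.cons 632 599 .nil .nil)))]
  []
  (by decide +kernel) trivial

theorem w3_646_401 : S (PX [] [401,467,533]) := VW.play 434 (PX [434] [401,467,533]) (by decide +kernel) v3_426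

theorem w3_646_434 : S (PX [] [434,467,533]) := VW.play 401 (PX [401] [434,467,533]) (by decide +kernel) v3_472

theorem w3_646_500 : S (PX [] [467,500,533]) := VW.play 434 (PX [434] [467,500,533]) (by decide +kernel) v3_617

theorem w3_646_566 : S (PX [] [467,533,566]) := VW.play 500 (PX [500] [467,533,566]) (by decide +kernel) v3_645

theorem v3_646 : VW (PX [] [467,533]) := VW.of base nl_ok fl_ok .nil
  [(599, (.cons 500 566 (.cons 401 434 .nil (.cons 434 401 .nil .nil)) (.cons 566 500 (.cons 632 665 .nil (.cons 665 632 .nil .nil)) .nil)))]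
  [([401], (PX [] [401,467,533])), ([434], (PX [] [434,467,533])), ([500], (PX [] [467,500,533])), ([566], (PX [] [467,533,566]))]
  (by decide +kernel) ⟨w3_646_401, w3_646_434, w3_646_500, w3_646_566, trivial⟩

theorem w3_647_498 : S (PX [] [467,498,560]) := VW.play 529 (PX [529] [467,498,560]) (by decide +kernel) v3_585

theorem w3_647_529 : S (PX [] [467,529,560]) := VW.play 498 (PX [498] [467,529,560]) (by decide +kernel) v3_622

theorem v3_647 : VW (PX [] [467,560]) := VW.of base nl_ok fl_ok .nil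
  [(436, (.cons 498 529 (.cons 374 405 .nil (.cons 405 374 .nil .nil)) (.cons 529 498 .nil .nil))), (591, (.cons 498 529 .nil (.cons 529 498 (.cons 622 653 .nil (.cons 653 622 .nil .nil)) .nil)))]
  [([498], (PX [] [467,498,560])), ([529], (PX [] [467,529,560]))]
  (by decide +kernel) ⟨w3_647_498, w3_647_529, trivial⟩

theorem w3_648_499 : S (PX [] [467,499,563]) := VW.play 531 (PX [531] [467,499,563]) (by decide +kernel) v3_602

theorem w3_648_531 : S (PX [] [467,531,563]) := VW.play 499 (PX [499] [467,531,563]) (by decide +kernel) v3_641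

theorem v3_648 : VW (PX [] [467,563]) := VW.of base nl_ok fl_ok .nil
  [(435, (.cons 499 531 (.cons 371 403 .nil (.cons 403 371 .nil .nil)) (.cons 531 499 .nil .nil))), (595, (.cons 499 531 .nil (.cons 531 499 (.cons 627 659 .nil (.cons 659 627 .nil .nil)) .nil)))]
  [([499], (PX [] [467,499,563])), ([531], (PX [] [467,531,563]))]
  (by decide +kernel) ⟨w3_648_499, w3_648_531, trivial⟩

theorem w3_649_434 : S (PX [] [434,467,566]) := VW.play 500 (PX [500] [434,467,566]) (by decide +kernel) v3_483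

theorem w3_649_500 : S (PX [] [467,500,566]) := VW.play 533 (PX [533] [467,500,566]) (by decide +kernel) v3_620

theorem w3_649_533 : S (PX [] [467,533,566]) := VW.play 500 (PX [500] [467,533,566]) (by decide +kernel) v3_645

theorem v3_649 : VW (PX [] [467,566]) := VW.of base nl_ok fl_ok .nil
  [(599, (.cons 500 533 .nil (.cons 533 500 (.cons 632 665 .nil (.cons 665 632 .nil .nil)) .nil)))]
  [([434], (PX [] [434,467,566])), ([500], (PX [] [467,500,566])), ([533], (PX [] [467,533,566]))]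
  (by decide +kernel) ⟨w3_649_434, w3_649_500, w3_649_533, trivial⟩

theorem w3_650_498 : S (PX [] [467,498,591]) := VW.play 529 (PX [529] [467,498,591]) (by decide +kernel) v3_586

theorem v3_650 : VW (PX [] [467,591]) := VW.of base nl_ok fl_ok .nil
  [(529, (.cons 498 560 (.cons 405 436 .nil (.cons 436 405 .nil .nil)) (.cons 560 498 (.cons 622 653 .nil (.cons 653 622 .nil .nil)) .nil))), (560, (.cons 498 529 .nil (.cons 529 498 (.cons 622 653 .nil (.cons 653 622 .nil .nil)) .nil)))]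
  [([498], (PX [] [467,498,591]))]
  (by decide +kernel) ⟨w3_650_498, trivial⟩

theorem v3_651 : VW (PX [] [467,595]) := VW.of base nl_ok fl_ok .nil
  [(499, (.cons 531 563 (.cons 403 435 .nil (.cons 435 403 .nil .nil)) (.cons 563 531 .nil .nil))), (531, (.cons 499 563 (.cons 403 435 .nil (.cons 435 403 .nil .nil)) (.cons 563 499 (.cons 627 659 .nil (.cons 659 627 .nil .nil)) .nil))), (563, (.cons 499 531 .nil (.cons 531 499 (.cons 627 659 .nil (.cons 659 627 .nil .nil)) .nil)))]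
  []
  (by decide +kernel) trivial

theorem v3_652 : VW (PX [] [467,599]) := VW.of base nl_ok fl_ok .nil
  [(500, (.cons 533 566 (.cons 401 434 .nil (.cons 434 401 .nil .nil)) (.cons 566 533 .nil .nil))), (533, (.cons 500 566 (.cons 401 434 .nil (.cons 434 401 .nil .nil)) (.cons 566 500 (.cons 632 665 .nil (.cons 665 632 .nil .nil)) .nil))), (566, (.cons 500 533 .nil (.cons 533 500 (.cons 632 665 .nil (.cons 665 632 .nil .nil)) .nil)))]
  []
  (by decide +kernel) trivial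

theorem r335 : S (Nat.lor X2 (bits [467, 335])) := VW.play 394 (PX [] [335,467]) (by decide +kernel) v3_374

theorem r339 : S (Nat.lor X2 (bits [467, 339])) := VW.play 394 (PX [] [339,467]) (by decide +kernel) v3_375

theorem r343 : S (Nat.lor X2 (bits [467, 343])) := VW.play 394 (PX [] [343,467]) (by decide +kernel) v3_376

theorem r368 : S (Nat.lor X2 (bits [467, 368])) := VW.play 394 (PX [] [368,467]) (by decide +kernel) v3_384

theorem r371 : S (Nat.lor X2 (bits [467, 371])) := VW.play 394 (PX [] [371,467]) (by decide +kernel) v3_402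

theorem r374 : S (Nat.lor X2 (bits [467, 374])) := VW.play 394 (PX [] [374,467]) (by decide +kernel) v3_421

theorem r401 : S (Nat.lor X2 (bits [467, 401])) := VW.play 394 (PX [] [401,467]) (by decide +kernel) v3_440

theorem r403 : S (Nat.lor X2 (bits [467, 403])) := VW.play 394 (PX [] [403,467]) (by decide +kernel) v3_458

theorem r405 : S (Nat.lor X2 (bits [467, 405])) := VW.play 394 (PX [] [405,467]) (by decide +kernel) v3_467

theorem r434 : S (Nat.lor X2 (bits [467, 434])) := VW.play 394 (PX [] [434,467]) (by decide +kernel) v3_491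

theorem r435 : S (Nat.lor X2 (bits [467, 435])) := VW.play 394 (PX [] [435,467]) (by decide +kernel) v3_303

theorem r436 : S (Nat.lor X2 (bits [467, 436])) := VW.play 394 (PX [] [436,467]) (by decide +kernel) v3_510

theorem r463 : S (Nat.lor X2 (bits [467, 463])) := VW.play 394 (PX [] [463,467]) (by decide +kernel) v3_526

theorem r464 : S (Nat.lor X2 (bits [467, 464])) := VW.play 394 (PX [] [464,467]) (by decide +kernel) v3_531

theorem r465 : S (Nat.lor X2 (bits [467, 465])) := VW.play 394 (PX [] [465,467]) (by decide +kernel) v3_562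

theorem r466 : S (Nat.lor X2 (bits [467, 466])) := VW.play 394 (PX [] [466,467]) (by decide +kernel) v3_570

theorem r468 : S (Nat.lor X2 (bits [467, 468])) := VW.play 394 (PX [] [467,468]) (by decide +kernel) v3_578

theorem r469 : S (Nat.lor X2 (bits [467, 469])) := VW.play 394 (PX [] [467,469]) (by decide +kernel) v3_580

theorem r470 : S (Nat.lor X2 (bits [467, 470])) := VW.play 394 (PX [] [467,470]) (by decide +kernel) v3_581

theorem r471 : S (Nat.lor X2 (bits [467, 471])) := VW.play 394 (PX [] [467,471]) (by decide +kernel) v3_582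

theorem r498 : S (Nat.lor X2 (bits [467, 498])) := VW.play 394 (PX [] [467,498]) (by decide +kernel) v3_594

theorem r499 : S (Nat.lor X2 (bits [467, 499])) := VW.play 394 (PX [] [467,499]) (by decide +kernel) v3_614

theorem r500 : S (Nat.lor X2 (bits [467, 500])) := VW.play 394 (PX [] [467,500]) (by decide +kernel) v3_621

theorem r529 : S (Nat.lor X2 (bits [467, 529])) := VW.play 394 (PX [] [467,529]) (by decide +kernel) v3_626

theorem r531 : S (Nat.lor X2 (bits [467, 531])) := VW.play 394 (PX [] [467,531]) (by decide +kernel) v3_644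

theorem r533 : S (Nat.lor X2 (bits [467, 533])) := VW.play 394 (PX [] [467,533]) (by decide +kernel) v3_646

theorem r560 : S (Nat.lor X2 (bits [467, 560])) := VW.play 394 (PX [] [467,560]) (by decide +kernel) v3_647

theorem r563 : S (Nat.lor X2 (bits [467, 563])) := VW.play 394 (PX [] [467,563]) (by decide +kernel) v3_648

theorem r566 : S (Nat.lor X2 (bits [467, 566])) := VW.play 394 (PX [] [467,566]) (by decide +kernel) v3_649

theorem r591 : S (Nat.lor X2 (bits [467, 591])) := VW.play 394 (PX [] [467,591]) (by decide +kernel) v3_650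

theorem r595 : S (Nat.lor X2 (bits [467, 595])) := VW.play 394 (PX [] [467,595]) (by decide +kernel) v3_651

theorem r599 : S (Nat.lor X2 (bits [467, 599])) := VW.play 394 (PX [] [467,599]) (by decide +kernel) v3_652

theorem r329 : S (Nat.lor X2 (bits [467, 329])) := S.of (.q 395 (.a 1 [] (.q 394 (.a 1 [] (.d 393 392 392 393 397)
 (.a 1 [392] (.d 397 393 393 394 398)
 (.a 0 [393,397] (.q 427 (.a 1 [] (.d 331 1323 299 1355 459)
 (.a 1 [299] (.d 459 1355 331 1387 491)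
 (.a 0 [331,459] (.q 330 (.a 1 [] (.d 297 2312 264 2345 429)
 (.a 1 [264] (.d 429 2345 297 2378 462)
 (.a 0 [297,429] (.q 361 (.a 1 [] (.d 328 2343 295 2376 460)
 (.a 1 [295] (.d 460 2376 328 2409 493)
 (.a 0 [328,460] (.q 362 (.a 1 [] (.d 360 359 359 360 364)
 (.a 1 [359] (.d 364 360 360 361 365)
 (.a 1 [360] (.d 298 1290 266 1322 426)
 .e))))
 .e))))
 .e))))
 .e))))
 .e))))
 (.a 0 [394] (.q 427 (.a 1 [] (.d 331 1323 299 1355 459)
 (.a 1 [459] (.q 365 (.a 1 [] (.d 334 3375 303 3406 458)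
 (.a 1 [458] (.q 362 (.a 1 [] (.d 364 361 361 362 366)
 (.a 0 [361,364,366] (.q 429 (.a 1 [] (.d 330 2345 297 2378 462)
 (.a 1 [297] (.d 462 2378 330 2411 495)
 (.a 0 [330,462] (.q 461 (.a 1 [] (.d 397 1357 333 1389 493)
 (.a 1 [333] (.r 428 2410 494 (.d 430 426 426 427 431))
 .e)))
 .e))))
 .e)))
 (.a 1 [334] (.q 364 (.a 1 [] (.d 362 361 361 362 366)
 (.a 1 [361] (.d 366 362 362 363 367)
 (.a 0 [362,366] (.q 332 (.a 1 [] (.d 300 1292 268 1324 428)
 (.a 1 [268] (.d 428 1324 300 1356 460)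
 (.a 1 [300] (.r 299 1323 331 (.d 398 2314 266 2347 431))
 .e))))
 .e))))
 .e))))
 (.a 1 [331] (.q 365 (.a 1 [] (.d 334 3375 303 3406 458)
 (.a 1 [303] (.d 458 3406 334 3437 489)
 (.a 0 [334,458] (.q 364 (.a 1 [] (.d 362 361 361 362 366)
 (.a 1 [361] (.d 366 362 362 363 367)
 (.a 0 [362,366] (.q 426 (.a 1 [] (.d 333 3374 302 3405 457)
 (.a 1 [302] (.d 457 3405 333 3436 488)
 (.a 0 [333,457] (.q 332 (.a 1 [] (.d 300 1292 268 1324 428)
 (.a 1 [268] (.d 428 1324 300 1356 460)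
 (.a 1 [300] (.r 428 1356 460 (.d 429 425 425 426 430))
 (.a 0 [428] (.q 398 (.a 1 [] (.d 299 2314 266 2347 431)
 (.a 1 [266] (.d 431 2347 299 2380 464)
 (.a 0 [299,431] (.q 429 (.a 1 [] (.d 330 2345 297 2378 462)
 (.a 1 [297] (.d 462 2378 330 2411 495)
 (.a 1 [330] (.r 491 1387 459 (.d 460 3439 367 3470 522))
 .e))))
 .e))))
 .e)))))
 .e))))
 .e))))
 .e))))
 (.a 1 [299] (.d 459 1355 331 1387 491)
 .e)))))
 (.a 1 [427] (.q 429 (.a 1 [] (.d 330 2345 297 2378 462)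
 (.a 1 [330] (.q 398 (.a 1 [] (.d 397 394 394 395 399)
 (.a 0 [394,397,399] (.q 460 (.a 1 [] (.d 367 3408 336 3439 491)
 (.a 1 [336] (.d 491 3439 367 3470 522)
 (.a 0 [367,491] (.q 428 (.a 1 [] (.d 364 1356 332 1388 492)
 (.a 1 [332] (.d 492 1388 364 1420 524)
 (.a 0 [364,492] (.q 494 (.a 1 [] (.d 461 2410 362 2443 527)
 (.a 1 [362] (.r 462 2411 495 (.d 430 1390 366 1422 526))
 .e)))
 .e))))
 .e))))
 .e)))
 (.a 1 [462] (.q 397 (.a 1 [] (.d 394 393 393 394 398)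
 (.a 1 [393] (.d 398 394 394 395 399)
 (.a 0 [394,398] (.q 333 (.a 1 [] (.d 365 1325 301 1357 461)
 (.a 0 [301,365,461] (.q 364 (.a 1 [] (.d 302 3343 271 3374 426)
 (.a 1 [271] (.d 426 3374 302 3405 457)
 (.a 0 [302,426] (.q 332 (.a 1 [] (.d 300 1292 268 1324 428)
 (.a 1 [268] (.d 428 1324 300 1356 460)
 (.a 1 [300] (.r 330 2345 297 (.r 331 330 334 (.d 430 2346 298 2379 463)))
 .e))))
 .e))))
 .e)))
 .e))))
 .e))))
 (.a 1 [330] (.q 331 (.a 1 [] (.d 299 1291 267 1323 427)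
 (.a 1 [427] (.q 394 (.a 1 [] (.d 393 392 392 393 397)
 (.a 1 [392] (.d 397 393 393 394 398)
 (.a 0 [393] (.r 397 394 398 (.q 364 (.a 1 [] (.d 298 2313 265 2346 430)
 (.a 1 [265] (.d 430 2346 298 2379 463)
 (.a 0 [298,430] (.q 332 (.a 1 [] (.d 300 1292 268 1324 428)
 (.a 1 [268] (.d 428 1324 300 1356 460)
 (.a 1 [300] (.d 301 3342 270 3373 425)
 .e))))
 .e)))))
 (.a 0 [397] (.q 332 (.a 1 [] (.d 301 3342 270 3373 425)
 (.a 1 [270] (.d 425 3373 301 3404 456)
 (.a 0 [301,425] (.q 300 (.a 1 [] (.d 364 1292 268 1324 428)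
 (.a 1 [268] (.r 393 392 392 (.d 362 3341 269 3372 424))
 .e)))
 .e))))
 .e)))))
 (.a 1 [299] (.r 427 1355 459 (.q 394 (.a 1 [] (.d 393 392 392 393 397)
 (.a 1 [392] (.d 397 393 393 394 398)
 (.a 0 [393,397] (.q 365 (.a 1 [] (.d 334 3375 303 3406 458)
 (.a 1 [303] (.d 458 3406 334 3437 489)
 (.a 0 [334,458] (.q 364 (.a 1 [] (.d 362 361 361 362 366)
 (.a 1 [361] (.d 366 362 362 363 367)
 (.a 1 [366] (.r 361 361 362 (.d 460 2376 328 2409 493))
 (.a 0 [362] (.q 332 (.a 1 [] (.d 300 1292 268 1324 428)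
 (.a 1 [268] (.d 428 1324 300 1356 460)
 (.a 1 [300] (.d 301 3342 270 3373 425)
 .e))))
 .e)))))
 .e))))
 .e)))))
 .e))))
 (.a 0 [331] (.q 330 (.a 1 [] (.d 297 2312 264 2345 429)
 (.a 0 [429] (.q 394 (.a 1 [] (.d 393 392 392 393 397)
 (.a 1 [393] (.q 362 (.a 1 [] (.d 298 1290 266 1322 426)
 (.a 1 [426] (.q 332 (.a 1 [] (.d 301 3342 270 3373 425)
 (.a 1 [270] (.d 425 3373 301 3404 456)
 (.a 0 [301,425] (.r 398 394 397 (.r 266 1290 298 (.r 365 2314 299 (.d 364 361 361 362 366))))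
 .e))))
 (.a 1 [298] (.q 364 (.a 1 [] (.d 361 360 360 361 365)
 (.a 1 [360] (.d 365 361 361 362 366)
 (.a 1 [361] (.r 426 1354 458 (.d 457 3405 333 3436 488))
 .e))))
 .e))))
 (.a 1 [397] (.q 425 (.a 1 [] (.d 332 3373 301 3404 456)
 (.a 1 [301] (.d 456 3404 332 3435 487)
 (.a 0 [332,456] (.q 426 (.a 1 [] (.d 362 1322 298 1354 458)
 (.a 1 [298] (.r 458 1354 362 (.r 392 392 393 (.d 491 2407 359 2440 524)))
 (.a 0 [362,458] (.q 457 (.a 1 [] (.d 364 3405 333 3436 488)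
 (.a 1 [333] (.d 488 3436 364 3467 519)
 (.a 1 [364] (.r 393 392 392 (.d 489 1385 361 1417 521))
 .e))))
 .e))))
 .e))))
 (.a 1 [392] (.d 397 393 393 394 398)
 .e)))))
 (.a 1 [297] (.q 397 (.a 1 [] (.d 394 393 393 394 398)
 (.a 1 [393] (.d 398 394 394 395 399)
 (.a 0 [394,398] (.r 429 2378 462 (.q 365 (.a 1 [] (.d 333 1325 301 1357 461)
 (.a 1 [301] (.d 461 1357 333 1389 493)
 (.a 0 [333,461] (.q 366 (.a 1 [] (.d 364 362 362 363 367)
 (.a 0 [362,364,367] (.q 427 (.a 1 [] (.d 334 3375 303 3406 458)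
 (.a 1 [303] (.d 458 3406 334 3437 489)
 (.a 1 [334] (.r 459 1387 491 (.d 428 3407 335 3438 490))
 .e))))
 .e)))
 .e)))))
 .e))))
 .e))))
 (.a 0 [397] (.q 427 (.a 1 [] (.d 331 1323 299 1355 459)
 (.a 0 [331] (.q 330 (.a 1 [] (.d 297 2312 264 2345 429)
 (.a 0 [429] (.q 365 (.a 1 [] (.d 334 3375 303 3406 458)
 (.a 1 [334] (.q 364 (.a 1 [] (.d 362 361 361 362 366)
 (.a 1 [362] (.q 333 (.a 1 [] (.d 302 3343 271 3374 426)
 (.a 1 [271] (.d 426 3374 302 3405 457)
 (.a 0 [302,426] (.q 300 (.a 1 [] (.d 332 1292 268 1324 428)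
 (.a 1 [268] (.r 366 363 367 (.d 399 2315 267 2348 432))
 .e)))
 .e))))
 (.a 1 [366] (.q 428 (.a 1 [] (.d 332 1324 300 1356 460)
 (.a 1 [300] (.d 460 1356 332 1388 492)
 (.a 1 [332] (.r 362 361 361 (.r 458 3437 489 (.r 426 1354 394 (.d 457 3405 333 3436 488))))
 .e))))
 .e))))
 (.a 1 [458] (.q 364 (.a 1 [] (.d 362 361 361 362 366)
 (.a 1 [361] (.d 366 362 362 363 367)
 (.a 0 [362,366] (.q 426 (.a 1 [] (.d 333 3374 302 3405 457)
 (.a 1 [302] (.d 457 3405 333 3436 488)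
 (.a 0 [333,457] (.r 459 1387 491 (.q 393 (.a 1 [] (.d 360 2375 327 2408 492)
 (.a 1 [327] (.d 492 2408 360 2441 525)
 (.a 0 [360,492] (.q 332 (.a 1 [] (.d 300 1292 268 1324 428)
 (.a 1 [268] (.d 428 1324 300 1356 460)
 (.a 1 [300] (.r 394 392 392 (.d 425 3373 301 3404 456))
 .e))))
 .e)))))
 .e))))
 .e))))
 .e))))
 (.a 1 [297] (.q 365 (.a 1 [] (.d 334 3375 303 3406 458)
 (.a 1 [303] (.d 458 3406 334 3437 489)
 (.a 0 [334,458] (.q 364 (.a 1 [] (.d 362 361 361 362 366)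
 (.a 1 [361] (.d 366 362 362 363 367)
 (.a 0 [362,366] (.q 428 (.a 1 [] (.d 332 1324 300 1356 460)
 (.a 1 [300] (.d 460 1356 332 1388 492)
 (.a 1 [332] (.r 429 2378 462 (.d 430 426 426 427 431))
 .e))))
 .e))))
 .e))))
 .e))))
 (.a 1 [459] (.q 365 (.a 1 [] (.d 334 3375 303 3406 458)
 (.a 1 [458] (.q 330 (.a 1 [] (.d 297 2312 264 2345 429)
 (.a 1 [264] (.d 429 2345 297 2378 462)
 (.a 0 [297,429] (.q 361 (.a 1 [] (.r 299 1323 331 (.d 392 3340 268 3371 423))
 (.a 1 [268] (.r 364 361 362 (.r 299 1323 331 (.r 392 3371 423 (.r 394 392 393 (.d 460 2376 328 2409 493)))))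
 (.a 1 [392] (.r 364 361 362 (.r 299 1323 331 (.r 268 3309 237 (.r 332 1292 300 (.d 398 2314 266 2347 431)))))
 (.a 0 [299,331] (.q 394 (.a 1 [] (.d 328 2343 295 2376 460)
 (.a 1 [295] (.d 460 2376 328 2409 493)
 (.a 1 [328] (.r 362 361 364 (.d 298 1290 266 1322 426))
 .e))))
 .e)))))
 .e))))
 .e)))
 (.a 1 [299] (.d 459 1355 331 1387 491)
 .e)))))
 (.a 1 [365] (.q 394 (.a 1 [] (.d 393 392 392 393 397)
 (.a 1 [397] (.q 427 (.a 1 [] (.d 331 1323 299 1355 459)
 (.a 1 [299] (.d 459 1355 331 1387 491)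
 (.a 0 [331,459] (.q 361 (.a 1 [] (.d 328 2343 295 2376 460)
 (.a 1 [295] (.d 460 2376 328 2409 493)
 (.a 0 [328,460] (.q 330 (.a 1 [] (.d 297 2312 264 2345 429)
 (.a 1 [264] (.d 429 2345 297 2378 462)
 (.a 1 [297] (.r 392 392 393 (.d 423 3371 299 3402 454))
 .e))))
 .e))))
 .e))))
 (.a 1 [393] (.q 427 (.a 1 [] (.d 331 1323 299 1355 459)
 (.a 1 [299] (.d 459 1355 331 1387 491)
 (.a 0 [331,459] (.q 330 (.a 1 [] (.d 297 2312 264 2345 429)
 (.a 1 [264] (.d 429 2345 297 2378 462)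
 (.a 0 [297,429] (.q 361 (.a 1 [] (.d 328 2343 295 2376 460)
 (.a 1 [295] (.d 460 2376 328 2409 493)
 (.a 0 [328,460] (.q 362 (.a 1 [] (.d 360 359 359 360 364)
 (.a 1 [359] (.d 426 1322 298 1354 458)
 .e)))
 .e))))
 .e))))
 .e))))
 .e))))
 (.a 1 [362] (.q 427 (.a 1 [] (.d 331 1323 299 1355 459)
 (.a 1 [331] (.q 330 (.a 1 [] (.d 297 2312 264 2345 429)
 (.a 1 [264] (.d 429 2345 297 2378 462)
 (.a 0 [297,429] (.q 458 (.a 1 [] (.d 365 3406 334 3437 489)
 (.a 1 [334] (.d 489 3437 365 3468 520)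
 (.a 0 [365,489] (.q 392 (.a 1 [] (.r 394 392 393 (.r 491 1387 459 (.d 425 2407 359 2440 524)))
 (.a 1 [265] (.r 491 1387 459 (.d 425 2407 359 2440 524))
 (.a 1 [359] (.r 394 392 393 (.r 491 1387 459 (.r 425 2440 524 (.d 456 3404 332 3435 487))))
 (.a 1 [361] (.r 491 1387 459 (.d 425 2407 359 2440 524))
 (.a 1 [393] (.r 491 1387 459 (.d 425 2407 359 2440 524))
 (.a 1 [524] (.r 394 392 393 (.r 491 1387 459 (.r 425 2407 359 (.d 456 3404 332 3435 487))))
 (.a 0 [425,459,491] (.q 361 (.a 1 [] (.d 299 3340 268 3371 423)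
 (.a 1 [268] (.d 423 3371 299 3402 454)
 (.a 1 [299] (.r 394 392 393 (.d 460 2376 328 2409 493))
 .e))))
 .e))))))))
 .e))))
 .e))))
 (.a 1 [459] (.q 394 (.a 1 [] (.d 393 392 392 393 397)
 (.a 1 [392] (.d 397 393 393 394 398)
 (.a 0 [393,397] (.q 425 (.a 1 [] (.d 332 3373 301 3404 456)
 (.a 1 [301] (.d 456 3404 332 3435 487)
 (.a 0 [332,456] (.q 458 (.a 1 [] (.d 365 3406 334 3437 489)
 (.a 1 [334] (.d 489 3437 365 3468 520)
 (.a 0 [365,489] (.q 361 (.a 1 [] (.d 328 2343 295 2376 460)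
 (.a 1 [295] (.d 460 2376 328 2409 493)
 (.a 0 [328,460] (.q 330 (.a 1 [] (.d 297 2312 264 2345 429)
 (.a 1 [264] (.d 429 2345 297 2378 462)
 (.a 1 [297] (.r 299 1323 331 (.d 392 3340 268 3371 423))
 .e))))
 .e))))
 .e))))
 .e))))
 .e))))
 (.a 1 [299] (.d 459 1355 331 1387 491)
 .e)))))
 (.a 1 [426] (.q 427 (.a 1 [] (.d 331 1323 299 1355 459)
 (.a 1 [459] (.q 330 (.a 1 [] (.d 297 2312 264 2345 429)
 (.a 1 [264] (.d 429 2345 297 2378 462)
 (.a 0 [297,429] (.q 365 (.a 1 [] (.d 334 3375 303 3406 458)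
 (.a 1 [303] (.d 458 3406 334 3437 489)
 (.a 0 [334,458] (.q 398 (.a 1 [] (.d 397 394 394 395 399)
 (.a 1 [394] (.r 299 1323 331 (.d 332 2314 266 2347 431))
 .e)))
 .e))))
 .e))))
 (.a 1 [331] (.q 394 (.a 1 [] (.d 393 392 392 393 397)
 (.a 1 [392] (.d 397 393 393 394 398)
 (.a 0 [393,397] (.q 361 (.a 1 [] (.d 328 2343 295 2376 460)
 (.a 1 [295] (.d 460 2376 328 2409 493)
 (.a 0 [328,460] (.q 330 (.a 1 [] (.d 297 2312 264 2345 429)
 (.a 1 [264] (.d 429 2345 297 2378 462)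
 (.a 0 [297,429] (.q 365 (.a 1 [] (.d 334 3375 303 3406 458)
 (.a 1 [303] (.d 458 3406 334 3437 489)
 (.a 0 [334,458] (.q 332 (.a 1 [] (.d 301 3342 270 3373 425)
 (.a 1 [270] (.d 425 3373 301 3404 456)
 (.a 1 [301] (.r 364 361 362 (.d 300 1292 268 1324 428))
 .e))))
 .e))))
 .e))))
 .e))))
 .e))))
 (.a 1 [299] (.d 459 1355 331 1387 491)
 .e)))))
 (.a 1 [360] (.q 427 (.a 1 [] (.d 331 1323 299 1355 459)
 (.a 1 [331] (.q 394 (.a 1 [] (.d 393 392 392 393 397)
 (.a 1 [392] (.d 397 393 393 394 398)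
 (.a 0 [393,397] (.q 330 (.a 1 [] (.d 297 2312 264 2345 429)
 (.a 1 [264] (.d 429 2345 297 2378 462)
 (.a 0 [297,429] (.q 361 (.a 1 [] (.d 328 2343 295 2376 460)
 (.a 1 [295] (.d 460 2376 328 2409 493)
 (.a 0 [328,460] (.q 362 (.a 1 [] (.d 298 1290 266 1322 426)
 (.a 1 [266] (.d 426 1322 298 1354 458)
 (.a 1 [298] (.r 458 1354 426 (.d 365 3406 334 361 364))
 (.a 1 [426] (.r 365 361 364 (.d 458 3406 334 3437 489))
 .e)))))
 .e))))
 .e))))
 .e))))
 (.a 1 [459] (.q 429 (.a 1 [] (.d 330 2345 297 2378 462)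
 (.a 1 [297] (.d 462 2378 330 2411 495)
 (.a 0 [330,462] (.q 426 (.a 1 [] (.d 428 425 425 426 430)
 (.a 0 [425,428,430] (.q 458 (.a 1 [] (.d 365 3406 334 3437 489)
 (.a 1 [334] (.d 489 3437 365 3468 520)
 (.a 0 [365,489] (.q 394 (.a 1 [] (.d 393 392 392 393 397)
 (.a 1 [392] (.d 397 393 393 394 398)
 (.a 1 [393] (.d 490 1386 362 1418 522)
 .e))))
 .e))))
 .e)))
 .e))))
 (.a 1 [299] (.d 459 1355 331 1387 491)
 .e)))))
 (.a 1 [333] (.q 427 (.a 1 [] (.d 331 1323 299 1355 459)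
 (.a 1 [331] (.q 330 (.a 1 [] (.d 297 2312 264 2345 429)
 (.a 1 [264] (.d 429 2345 297 2378 462)
 (.a 0 [297,429] (.q 398 (.a 1 [] (.d 397 394 394 395 399)
 (.a 0 [394,397,399] (.q 365 (.a 1 [] (.d 334 3375 303 3406 458)
 (.a 1 [303] (.d 458 3406 334 3437 489)
 (.a 0 [334,458] (.q 332 (.a 1 [] (.d 299 2314 266 2347 431)
 (.a 1 [266] (.d 431 2347 299 2380 464)
 (.a 0 [299,431] (.q 364 (.a 1 [] (.d 362 361 361 362 366)
 (.a 1 [361] (.d 366 362 362 363 367)
 (.a 1 [362] (.d 300 1292 268 1324 428)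
 .e))))
 .e))))
 .e))))
 .e)))
 .e))))
 (.a 1 [299] (.d 459 1355 331 1387 491)
 .e))))
 (.a 0 [300] (.q 427 (.a 1 [] (.d 331 1323 299 1355 459)
 (.a 1 [331] (.q 330 (.a 1 [] (.d 297 2312 264 2345 429)
 (.a 1 [429] (.q 394 (.a 1 [] (.d 393 392 392 393 397)
 (.a 1 [392] (.d 397 393 393 394 398)
 (.a 0 [393,397] (.q 362 (.a 1 [] (.d 298 1290 266 1322 426)
 (.a 1 [266] (.d 426 1322 298 1354 458)
 (.a 1 [298] (.r 458 1354 426 (.d 489 3437 365 3468 520))
 (.a 0 [426] (.q 361 (.a 1 [] (.d 360 359 359 360 364)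
 (.a 1 [359] (.d 364 360 360 361 365)
 (.a 1 [360] (.d 328 2343 295 2376 460)
 .e))))
 .e)))))
 .e))))
 (.a 1 [297] (.q 393 (.a 1 [] (.d 394 392 392 393 397)
 (.a 0 [392,394,397] (.q 489 (.a 1 [] (.d 458 3437 365 3468 520)
 (.a 0 [365,458,520] (.q 425 (.a 1 [] (.d 457 1385 361 1417 521)
 (.a 1 [361] (.r 429 2378 462 (.r 426 425 428 (.r 459 1387 491 (.d 492 2408 360 2441 525))))
 .e)))
 .e)))
 .e)))
 .e))))
 (.a 1 [459] (.q 394 (.a 1 [] (.d 393 392 392 393 397)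
 (.a 1 [392] (.d 397 393 393 394 398)
 (.a 0 [393,397] (.q 361 (.a 1 [] (.d 328 2343 295 2376 460)
 (.a 1 [295] (.d 460 2376 328 2409 493)
 (.a 0 [328,460] (.q 330 (.a 1 [] (.d 297 2312 264 2345 429)
 (.a 1 [264] (.d 429 2345 297 2378 462)
 (.a 1 [297] (.r 299 1323 331 (.d 392 3340 268 3371 423))
 .e))))
 .e))))
 .e))))
 (.a 1 [299] (.d 459 1355 331 1387 491)
 .e)))))
 (.a 1 [366] (.q 427 (.a 1 [] (.d 331 1323 299 1355 459)
 (.a 1 [331] (.q 394 (.a 1 [] (.d 393 392 392 393 397)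
 (.a 1 [392] (.d 397 393 393 394 398)
 (.a 0 [393,397] (.q 330 (.a 1 [] (.d 297 2312 264 2345 429)
 (.a 1 [264] (.d 429 2345 297 2378 462)
 (.a 0 [297,429] (.q 361 (.a 1 [] (.d 328 2343 295 2376 460)
 (.a 1 [295] (.d 460 2376 328 2409 493)
 (.a 0 [328,460] (.q 362 (.a 1 [] (.d 360 359 359 360 364)
 (.a 1 [359] (.d 364 360 360 361 365)
 (.a 1 [360] (.d 298 1290 266 1322 426)
 .e))))
 .e))))
 .e))))
 .e))))
 (.a 1 [459] (.q 397 (.a 1 [] (.d 394 393 393 394 398)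
 (.a 1 [393] (.d 398 394 394 395 399)
 (.a 0 [394,398] (.q 429 (.a 1 [] (.d 330 2345 297 2378 462)
 (.a 1 [297] (.d 462 2378 330 2411 495)
 (.a 0 [330,462] (.q 430 (.a 1 [] (.d 428 426 426 427 431)
 (.a 1 [426] (.r 331 1323 299 (.d 364 2346 298 2379 463))
 .e)))
 .e))))
 .e))))
 (.a 1 [299] (.d 459 1355 331 1387 491)
 .e)))))
 (.a 1 [461] (.q 427 (.a 1 [] (.d 331 1323 299 1355 459)
 (.a 1 [331] (.q 394 (.a 1 [] (.d 393 392 392 393 397)
 (.a 1 [392] (.d 397 393 393 394 398)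
 (.a 0 [393,397] (.q 365 (.a 1 [] (.d 334 3375 303 3406 458)
 (.a 1 [303] (.d 458 3406 334 3437 489)
 (.a 0 [334,458] (.q 332 (.a 1 [] (.d 301 3342 270 3373 425)
 (.a 1 [270] (.d 425 3373 301 3404 456)
 (.a 0 [301,425] (.q 361 (.a 1 [] (.d 328 2343 295 2376 460)
 (.a 1 [295] (.d 460 2376 328 2409 493)
 (.a 1 [328] (.r 364 361 362 (.d 428 1324 300 1356 460))
 (.a 1 [460] (.r 364 361 362 (.d 300 1292 268 1324 428))
 .e)))))
 .e))))
 .e))))
 .e))))
 (.a 1 [459] (.q 394 (.a 1 [] (.d 393 392 392 393 397)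
 (.a 1 [392] (.d 397 393 393 394 398)
 (.a 0 [393,397] (.q 425 (.a 1 [] (.d 332 3373 301 3404 456)
 (.a 1 [301] (.d 456 3404 332 3435 487)
 (.a 0 [332,456] (.q 458 (.a 1 [] (.d 365 3406 334 3437 489)
 (.a 1 [334] (.d 489 3437 365 3468 520)
 (.a 0 [365,489] (.q 429 (.a 1 [] (.d 330 2345 297 2378 462)
 (.a 1 [297] (.d 462 2378 330 2411 495)
 (.a 1 [330] (.r 426 425 428 (.d 490 1386 362 1418 522))
 .e))))
 .e))))
 .e))))
 .e))))
 .e))))
 (.a 1 [328] (.q 394 (.a 1 [] (.d 393 392 392 393 397)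
 (.a 1 [393] (.q 425 (.a 1 [] (.d 332 3373 301 3404 456)
 (.a 1 [301] (.d 456 3404 332 3435 487)
 (.a 0 [332,456] (.q 427 (.a 1 [] (.d 331 1323 299 1355 459)
 (.a 1 [299] (.d 459 1355 331 1387 491)
 (.a 0 [331,459] (.q 330 (.a 1 [] (.d 297 2312 264 2345 429)
 (.a 1 [264] (.d 429 2345 297 2378 462)
 (.a 1 [297] (.r 429 2378 462 (.r 426 425 428 (.d 362 1322 298 1354 458)))
 (.a 0 [429] (.q 426 (.a 1 [] (.d 424 423 423 424 428)
 (.a 1 [423] (.d 362 1322 298 1354 458)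
 .e)))
 .e)))))
 .e))))
 .e))))
 (.a 1 [397] (.q 330 (.a 1 [] (.d 297 2312 264 2345 429)
 (.a 1 [264] (.d 429 2345 297 2378 462)
 (.a 0 [297,429] (.q 299 (.a 1 [] (.d 331 1291 267 1323 427)
 (.a 1 [267] (.r 392 392 393 (.d 361 3340 268 3371 423))
 .e)))
 .e))))
 (.a 1 [392] (.d 397 393 393 394 398)
 .e)))))
 (.a 1 [327] (.q 427 (.a 1 [] (.d 331 1323 299 1355 459)
 (.a 1 [331] (.q 330 (.a 1 [] (.d 297 2312 264 2345 429)
 (.a 1 [264] (.d 429 2345 297 2378 462)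
 (.a 0 [297,429] (.q 365 (.a 1 [] (.d 334 3375 303 3406 458)
 (.a 1 [303] (.d 458 3406 334 3437 489)
 (.a 0 [334,458] (.q 364 (.a 1 [] (.d 362 361 361 362 366)
 (.a 1 [361] (.d 366 362 362 363 367)
 (.a 0 [362,366] (.q 393 (.a 1 [] (.d 394 392 392 393 397)
 (.a 0 [392,394,397] (.q 426 (.a 1 [] (.d 333 3374 302 3405 457)
 (.a 1 [302] (.d 457 3405 333 3436 488)
 (.a 1 [333] (.r 459 1387 491 (.d 492 2408 360 2441 525))
 .e))))
 .e)))
 .e))))
 .e))))
 .e))))
 (.a 1 [459] (.q 330 (.a 1 [] (.d 297 2312 264 2345 429)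
 (.a 1 [264] (.d 429 2345 297 2378 462)
 (.a 0 [297,429] (.q 365 (.a 1 [] (.d 334 3375 303 3406 458)
 (.a 1 [303] (.d 458 3406 334 3437 489)
 (.a 0 [334,458] (.q 398 (.a 1 [] (.d 397 394 394 395 399)
 (.a 1 [394] (.r 299 1323 331 (.d 332 2314 266 2347 431))
 .e)))
 .e))))
 .e))))
 .e))))
 (.a 1 [335] (.q 427 (.a 1 [] (.d 331 1323 299 1355 459)
 (.a 1 [331] (.q 394 (.a 1 [] (.d 393 392 392 393 397)
 (.a 1 [392] (.d 397 393 393 394 398)
 (.a 0 [393,397] (.q 332 (.a 1 [] (.d 301 3342 270 3373 425)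
 (.a 1 [270] (.d 425 3373 301 3404 456)
 (.a 0 [301,425] (.q 361 (.a 1 [] (.d 328 2343 295 2376 460)
 (.a 1 [295] (.d 460 2376 328 2409 493)
 (.a 1 [328] (.r 460 2409 493 (.r 364 1356 428 (.d 362 360 360 361 365)))
 (.a 0 [460] (.q 364 (.a 1 [] (.d 362 360 360 361 365)
 (.a 1 [360] (.d 300 1292 268 1324 428)
 .e)))
 .e)))))
 .e))))
 .e))))
 (.a 1 [459] (.q 397 (.a 1 [] (.d 394 393 393 394 398)
 (.a 1 [393] (.d 398 394 394 395 399)
 (.a 0 [394,398] (.q 429 (.a 1 [] (.d 330 2345 297 2378 462)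
 (.a 1 [297] (.d 462 2378 330 2411 495)
 (.a 0 [330,462] (.q 365 (.a 1 [] (.d 333 1325 301 1357 461)
 (.a 1 [301] (.d 461 1357 333 1389 493)
 (.a 1 [333] (.d 334 3375 303 3406 458)
 .e))))
 .e))))
 .e))))
 .e))))
 (.a 1 [430] (.q 427 (.a 1 [] (.d 331 1323 299 1355 459)
 (.a 1 [331] (.q 330 (.a 1 [] (.d 297 2312 264 2345 429)
 (.a 1 [264] (.d 429 2345 297 2378 462)
 (.a 0 [297,429] (.q 458 (.a 1 [] (.d 365 3406 334 3437 489)
 (.a 1 [334] (.d 489 3437 365 3468 520)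
 (.a 0 [365,489] (.q 392 (.a 1 [] (.r 394 392 393 (.r 491 1387 459 (.d 425 2407 359 2440 524)))
 (.a 1 [265] (.r 491 1387 459 (.d 425 2407 359 2440 524))
 (.a 1 [359] (.r 394 392 393 (.r 362 1354 426 (.r 491 1387 459 (.r 425 2440 524 (.d 456 3404 332 3435 487)))))
 (.a 1 [361] (.r 491 1387 459 (.d 425 2407 359 2440 524))
 (.a 1 [393] (.r 491 1387 459 (.d 425 2407 359 2440 524))
 (.a 1 [524] (.r 394 392 393 (.r 362 1354 426 (.r 491 1387 459 (.r 425 2407 359 (.d 456 3404 332 3435 487)))))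
 (.a 0 [425,459,491] (.q 361 (.a 1 [] (.d 299 3340 268 3371 423)
 (.a 1 [268] (.d 423 3371 299 3402 454)
 (.a 1 [299] (.r 394 392 393 (.d 460 2376 328 2409 493))
 .e))))
 .e))))))))
 .e))))
 .e))))
 (.a 1 [459] (.q 394 (.a 1 [] (.d 393 392 392 393 397)
 (.a 1 [392] (.d 397 393 393 394 398)
 (.a 0 [393,397] (.q 361 (.a 1 [] (.d 328 2343 295 2376 460)
 (.a 1 [295] (.d 460 2376 328 2409 493)
 (.a 0 [328,460] (.q 330 (.a 1 [] (.d 297 2312 264 2345 429)
 (.a 1 [264] (.d 429 2345 297 2378 462)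
 (.a 1 [297] (.r 299 1323 331 (.d 392 3340 268 3371 423))
 .e))))
 .e))))
 .e))))
 (.a 1 [299] (.d 459 1355 331 1387 491)
 .e)))))
 (.a 1 [455] (.q 427 (.a 1 [] (.d 331 1323 299 1355 459)
 (.a 1 [331] (.q 330 (.a 1 [] (.d 297 2312 264 2345 429)
 (.a 1 [264] (.d 429 2345 297 2378 462)
 (.a 0 [297,429] (.q 365 (.a 1 [] (.d 334 3375 303 3406 458)
 (.a 1 [303] (.d 458 3406 334 3437 489)
 (.a 0 [334,458] (.q 364 (.a 1 [] (.d 362 361 361 362 366)
 (.a 1 [361] (.d 366 362 362 363 367)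
 (.a 0 [362,366] (.q 393 (.a 1 [] (.d 394 392 392 393 397)
 (.a 0 [392,394,397] (.q 426 (.a 1 [] (.d 333 3374 302 3405 457)
 (.a 1 [302] (.d 457 3405 333 3436 488)
 (.a 1 [333] (.r 459 1387 491 (.d 492 2408 360 2441 525))
 .e))))
 .e)))
 .e))))
 .e))))
 .e))))
 (.a 1 [459] (.q 394 (.a 1 [] (.d 393 392 392 393 397)
 (.a 1 [392] (.d 397 393 393 394 398)
 (.a 0 [393,397] (.q 361 (.a 1 [] (.d 328 2343 295 2376 460)
 (.a 1 [295] (.d 460 2376 328 2409 493)
 (.a 0 [328,460] (.q 330 (.a 1 [] (.d 297 2312 264 2345 429)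
 (.a 1 [264] (.d 429 2345 297 2378 462)
 (.a 1 [297] (.r 299 1323 331 (.d 392 3340 268 3371 423))
 .e))))
 .e))))
 .e))))
 .e))))
 (.a 0 [493] (.q 427 (.a 1 [] (.d 331 1323 299 1355 459)
 (.a 1 [331] (.q 394 (.a 1 [] (.d 393 392 392 393 397)
 (.a 1 [393] (.q 330 (.a 1 [] (.d 297 2312 264 2345 429)
 (.a 1 [264] (.d 429 2345 297 2378 462)
 (.a 0 [297,429] (.q 361 (.a 1 [] (.d 328 2343 295 2376 460)
 (.a 0 [295,328,460] (.q 362 (.a 1 [] (.d 360 359 359 360 364)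
 (.a 1 [359] (.d 364 360 360 361 365)
 (.a 1 [360] (.d 298 1290 266 1322 426)
 .e))))
 .e)))
 .e))))
 (.a 1 [397] (.q 332 (.a 1 [] (.d 301 3342 270 3373 425)
 (.a 1 [270] (.d 425 3373 301 3404 456)
 (.a 0 [301,425] (.q 364 (.a 1 [] (.d 300 1292 268 1324 428)
 (.a 1 [268] (.d 428 1324 300 1356 460)
 (.a 1 [300] (.r 460 1356 428 (.r 361 2376 328 (.d 362 360 360 361 365)))
 (.a 0 [428] (.q 365 (.a 1 [] (.d 362 361 361 362 366)
 (.a 1 [361] (.d 366 362 362 363 367)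
 (.a 1 [362] (.d 334 3375 303 3406 458)
 .e))))
 .e)))))
 .e))))
 .e))))
 (.a 1 [459] (.q 394 (.a 1 [] (.d 393 392 392 393 397)
 (.a 1 [392] (.d 397 393 393 394 398)
 (.a 0 [393,397] (.q 429 (.a 1 [] (.d 330 2345 297 2378 462)
 (.a 1 [297] (.d 462 2378 330 2411 495)
 (.a 0 [330,462] (.q 458 (.a 1 [] (.d 365 3406 334 3437 489)
 (.a 1 [334] (.d 489 3437 365 3468 520)
 (.a 0 [365,489] (.q 425 (.a 1 [] (.d 332 3373 301 3404 456)
 (.a 1 [301] (.d 456 3404 332 3435 487)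
 (.a 1 [332] (.r 426 425 428 (.d 490 1386 362 1418 522))
 .e))))
 .e))))
 .e))))
 .e))))
 (.a 1 [299] (.d 459 1355 331 1387 491)
 .e)))))
 (.a 1 [525] (.q 427 (.a 1 [] (.d 331 1323 299 1355 459)
 (.a 1 [331] (.q 394 (.a 1 [] (.d 393 392 392 393 397)
 (.a 1 [392] (.d 397 393 393 394 398)
 (.a 0 [393,397] (.q 332 (.a 1 [] (.d 301 3342 270 3373 425)
 (.a 1 [270] (.d 425 3373 301 3404 456)
 (.a 0 [301,425] (.q 361 (.a 1 [] (.d 328 2343 295 2376 460)
 (.a 1 [295] (.d 460 2376 328 2409 493)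
 (.a 1 [328] (.r 460 2409 493 (.r 364 1356 428 (.d 362 360 360 361 365)))
 (.a 0 [460] (.q 364 (.a 1 [] (.d 362 360 360 361 365)
 (.a 1 [360] (.d 300 1292 268 1324 428)
 .e)))
 .e)))))
 .e))))
 .e))))
 (.a 1 [459] (.q 429 (.a 1 [] (.d 330 2345 297 2378 462)
 (.a 1 [297] (.d 462 2378 330 2411 495)
 (.a 0 [330,462] (.q 365 (.a 1 [] (.d 334 3375 303 3406 458)
 (.a 1 [303] (.d 458 3406 334 3437 489)
 (.a 0 [334,458] (.q 461 (.a 1 [] (.d 397 1357 333 1389 493)
 (.a 1 [333] (.r 397 1389 493 (.d 398 394 394 395 399))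
 (.a 1 [493] (.r 397 1357 333 (.d 398 394 394 395 399))
 (.a 0 [397] (.q 428 (.a 1 [] (.d 426 425 425 426 430)
 (.a 1 [425] (.d 430 426 426 427 431)
 (.a 1 [426] (.d 494 2410 362 2443 527)
 .e))))
 .e)))))
 .e))))
 .e))))
 .e))))
 (.a 1 [429] (.q 427 (.a 1 [] (.d 331 1323 299 1355 459)
 (.a 1 [299] (.d 459 1355 331 1387 491)
 (.a 0 [331,459] (.q 394 (.a 1 [] (.d 393 392 392 393 397)
 (.a 1 [392] (.d 397 393 393 394 398)
 (.a 0 [393,397] (.q 365 (.a 1 [] (.d 334 3375 303 3406 458)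
 (.a 1 [303] (.d 458 3406 334 3437 489)
 (.a 0 [334,458] (.q 332 (.a 1 [] (.d 301 3342 270 3373 425)
 (.a 1 [270] (.d 425 3373 301 3404 456)
 (.a 0 [301,425] (.q 361 (.a 1 [] (.d 328 2343 295 2376 460)
 (.a 1 [295] (.d 460 2376 328 2409 493)
 (.a 1 [328] (.r 364 361 362 (.d 428 1324 300 1356 460))
 (.a 1 [460] (.r 364 361 362 (.d 300 1292 268 1324 428))
 .e)))))
 .e))))
 .e))))
 .e))))
 .e))))
 (.a 1 [297] (.q 427 (.a 1 [] (.d 331 1323 299 1355 459)
 (.a 1 [299] (.d 459 1355 331 1387 491)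
 (.a 0 [331,459] (.q 397 (.a 1 [] (.d 394 393 393 394 398)
 (.a 1 [393] (.d 398 394 394 395 399)
 (.a 0 [394,398] (.q 365 (.a 1 [] (.d 334 3375 303 3406 458)
 (.a 1 [303] (.d 458 3406 334 3437 489)
 (.a 0 [334,458] (.q 429 (.a 1 [] (.d 333 1325 301 1357 461)
 (.a 1 [301] (.d 461 1357 333 1389 493)
 (.a 1 [333] (.d 462 2378 330 2411 495)
 .e))))
 .e))))
 .e))))
 .e))))
 (.a 1 [393] (.q 427 (.a 1 [] (.d 331 1323 299 1355 459)
 (.a 1 [299] (.d 459 1355 331 1387 491)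
 (.a 0 [331,459] (.q 365 (.a 1 [] (.d 334 3375 303 3406 458)
 (.a 1 [303] (.d 458 3406 334 3437 489)
 (.a 0 [334,458] (.q 397 (.a 1 [] (.d 398 394 394 395 399)
 (.a 0 [394,398,399] (.q 429 (.a 1 [] (.d 333 1325 301 1357 461)
 (.a 1 [301] (.d 461 1357 333 1389 493)
 (.a 1 [333] (.d 330 2345 297 2378 462)
 .e))))
 .e)))
 .e))))
 .e))))
 (.a 1 [299] (.q 330 (.a 1 [] (.d 297 2312 264 2345 429)
 (.a 1 [264] (.d 429 2345 297 2378 462)
 (.a 0 [297,429] (.q 427 (.a 1 [] (.d 459 1355 331 1387 491)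
 (.a 0 [331,459,491] (.q 365 (.a 1 [] (.d 334 3375 303 3406 458)
 (.a 1 [303] (.d 458 3406 334 3437 489)
 (.a 0 [334,458] (.q 394 (.a 1 [] (.d 393 392 392 393 397)
 (.a 1 [392] (.d 397 393 393 394 398)
 (.a 0 [393,397] (.q 361 (.a 1 [] (.d 328 2343 295 2376 460)
 (.a 1 [295] (.d 460 2376 328 2409 493)
 (.a 1 [328] (.r 362 361 364 (.d 298 1290 266 1322 426))
 .e))))
 .e))))
 .e))))
 .e)))
 .e))))
 (.a 1 [398] (.q 427 (.a 1 [] (.d 331 1323 299 1355 459)
 (.a 1 [299] (.d 459 1355 331 1387 491)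
 (.a 0 [331,459] (.q 330 (.a 1 [] (.d 297 2312 264 2345 429)
 (.a 1 [264] (.d 429 2345 297 2378 462)
 (.a 0 [297,429] (.q 365 (.a 1 [] (.d 334 3375 303 3406 458)
 (.a 1 [303] (.d 458 3406 334 3437 489)
 (.a 0 [334,458] (.q 394 (.a 1 [] (.d 393 392 392 393 397)
 (.a 0 [392,393,397] (.q 361 (.a 1 [] (.d 328 2343 295 2376 460)
 (.a 1 [295] (.d 460 2376 328 2409 493)
 (.a 1 [328] (.r 362 361 364 (.d 298 1290 266 1322 426))
 .e))))
 .e)))
 .e))))
 .e))))
 .e))))
 (.a 1 [459] (.q 394 (.a 1 [] (.d 393 392 392 393 397)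
 (.a 1 [392] (.d 397 393 393 394 398)
 (.a 0 [393,397] (.q 425 (.a 1 [] (.d 332 3373 301 3404 456)
 (.a 1 [301] (.d 456 3404 332 3435 487)
 (.a 0 [332,456] (.q 299 (.a 1 [] (.d 331 1291 267 1323 427)
 (.a 0 [267,331,427] (.q 330 (.a 1 [] (.d 297 2312 264 2345 429)
 (.a 1 [264] (.d 429 2345 297 2378 462)
 (.a 0 [297,429] (.q 361 (.a 1 [] (.d 268 3309 237 3340 392)
 (.a 1 [237] (.d 392 3340 268 3371 423)
 (.a 0 [268,392] (.q 362 (.a 1 [] (.d 360 359 359 360 364)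
 (.a 1 [359] (.d 364 360 360 361 365)
 (.a 1 [360] (.d 298 1290 266 1322 426)
 .e))))
 .e))))
 .e))))
 .e)))
 .e))))
 .e))))
 (.a 1 [462] (.q 394 (.a 1 [] (.d 393 392 392 393 397)
 (.a 1 [392] (.d 397 393 393 394 398)
 (.a 0 [393,397] (.q 427 (.a 1 [] (.d 331 1323 299 1355 459)
 (.a 1 [299] (.d 459 1355 331 1387 491)
 (.a 0 [331,459] (.q 458 (.a 1 [] (.d 365 3406 334 3437 489)
 (.a 1 [334] (.d 489 3437 365 3468 520)
 (.a 0 [365,489] (.q 425 (.a 1 [] (.d 332 3373 301 3404 456)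
 (.a 1 [301] (.d 456 3404 332 3435 487)
 (.a 0 [332,456] (.q 330 (.a 1 [] (.d 297 2312 264 2345 429)
 (.a 1 [264] (.r 426 1354 362 (.d 429 2345 297 425 428))
 (.a 1 [297] (.r 426 1354 362 (.d 424 423 423 424 428))
 .e))))
 .e))))
 .e))))
 .e))))
 .e))))
 (.a 1 [491] (.q 394 (.a 1 [] (.d 393 392 392 393 397)
 (.a 1 [392] (.d 397 393 393 394 398)
 (.a 0 [393,397] (.q 425 (.a 1 [] (.d 332 3373 301 3404 456)
 (.a 1 [301] (.d 456 3404 332 3435 487)
 (.a 0 [332,456] (.q 427 (.a 1 [] (.d 331 1323 299 1355 459)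
 (.a 0 [299,331,459] (.q 330 (.a 1 [] (.d 297 2312 264 2345 429)
 (.a 1 [264] (.d 429 2345 297 2378 462)
 (.a 1 [297] (.r 429 2378 462 (.r 426 425 428 (.d 362 1322 298 1354 458)))
 (.a 0 [429] (.q 426 (.a 1 [] (.d 424 423 423 424 428)
 (.a 1 [423] (.d 362 1322 298 1354 458)
 .e)))
 .e)))))
 .e)))
 .e))))
 .e))))
 (.a 1 [361] (.q 427 (.a 1 [] (.d 331 1323 299 1355 459)
 (.a 1 [299] (.d 459 1355 331 1387 491)
 (.a 0 [331,459] (.q 397 (.a 1 [] (.d 394 393 393 394 398)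
 (.a 1 [393] (.d 398 394 394 395 399)
 (.a 0 [394,398] (.q 365 (.a 1 [] (.d 334 3375 303 3406 458)
 (.a 1 [303] (.d 458 3406 334 3437 489)
 (.a 0 [334,458] (.q 429 (.a 1 [] (.d 333 1325 301 1357 461)
 (.a 1 [301] (.d 461 1357 333 1389 493)
 (.a 1 [333] (.d 330 2345 297 2378 462)
 .e))))
 .e))))
 .e))))
 .e))))
 (.a 1 [425] (.q 427 (.a 1 [] (.d 331 1323 299 1355 459)
 (.a 1 [299] (.d 459 1355 331 1387 491)
 (.a 0 [331,459] (.q 330 (.a 1 [] (.d 297 2312 264 2345 429)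
 (.a 1 [264] (.d 429 2345 297 2378 462)
 (.a 0 [297,429] (.q 394 (.a 1 [] (.d 393 392 392 393 397)
 (.a 1 [392] (.d 397 393 393 394 398)
 (.a 0 [393,397] (.q 361 (.a 1 [] (.d 328 2343 295 2376 460)
 (.a 1 [295] (.d 460 2376 328 2409 493)
 (.a 0 [328,460] (.q 362 (.a 1 [] (.d 360 359 359 360 364)
 (.a 1 [359] (.d 364 360 360 361 365)
 (.a 1 [360] (.d 298 1290 266 1322 426)
 .e))))
 .e))))
 .e))))
 .e))))
 .e))))
 (.a 1 [457] (.q 427 (.a 1 [] (.d 331 1323 299 1355 459)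
 (.a 1 [299] (.d 459 1355 331 1387 491)
 (.a 0 [331,459] (.q 330 (.a 1 [] (.d 297 2312 264 2345 429)
 (.a 1 [264] (.d 429 2345 297 2378 462)
 (.a 0 [297,429] (.q 394 (.a 1 [] (.d 393 392 392 393 397)
 (.a 1 [392] (.d 397 393 393 394 398)
 (.a 0 [393,397] (.q 361 (.a 1 [] (.d 328 2343 295 2376 460)
 (.a 1 [295] (.d 460 2376 328 2409 493)
 (.a 0 [328,460] (.q 458 (.a 1 [] (.d 365 3406 334 3437 489)
 (.a 1 [334] (.d 489 3437 365 3468 520)
 (.a 1 [365] (.r 362 1354 426 (.d 360 359 359 360 364))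
 .e))))
 .e))))
 .e))))
 .e))))
 .e))))
 (.a 1 [458] (.q 394 (.a 1 [] (.d 393 392 392 393 397)
 (.a 1 [392] (.d 397 393 393 394 398)
 (.a 0 [393,397] (.q 425 (.a 1 [] (.d 332 3373 301 3404 456)
 (.a 1 [301] (.d 456 3404 332 3435 487)
 (.a 0 [332,456] (.q 299 (.a 1 [] (.d 331 1291 267 1323 427)
 (.a 0 [267,331,427] (.q 330 (.a 1 [] (.d 297 2312 264 2345 429)
 (.a 1 [264] (.d 429 2345 297 2378 462)
 (.a 0 [297,429] (.q 361 (.a 1 [] (.d 268 3309 237 3340 392)
 (.a 1 [237] (.d 392 3340 268 3371 423)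
 (.a 0 [268,392] (.q 362 (.a 1 [] (.d 360 359 359 360 364)
 (.a 1 [359] (.d 364 360 360 361 365)
 (.a 1 [360] (.d 298 1290 266 1322 426)
 .e))))
 .e))))
 .e))))
 .e)))
 .e))))
 .e))))
 (.a 1 [460] (.q 427 (.a 1 [] (.d 331 1323 299 1355 459)
 (.a 1 [299] (.d 459 1355 331 1387 491)
 (.a 0 [331,459] (.q 458 (.a 1 [] (.d 365 3406 334 3437 489)
 (.a 1 [334] (.d 489 3437 365 3468 520)
 (.a 0 [365,489] (.q 394 (.a 1 [] (.d 393 392 392 393 397)
 (.a 1 [392] (.d 397 393 393 394 398)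
 (.a 0 [393,397] (.q 425 (.a 1 [] (.d 332 3373 301 3404 456)
 (.a 1 [301] (.d 456 3404 332 3435 487)
 (.a 0 [332,456] (.q 330 (.a 1 [] (.d 297 2312 264 2345 429)
 (.a 1 [264] (.d 429 2345 297 2378 462)
 (.a 1 [297] (.r 426 1354 362 (.d 429 425 428 2378 462))
 (.a 1 [429] (.r 426 1354 362 (.d 424 423 423 424 428))
 .e)))))
 .e))))
 .e))))
 .e))))
 .e))))
 (.a 1 [456] (.q 427 (.a 1 [] (.d 331 1323 299 1355 459)
 (.a 1 [299] (.d 459 1355 331 1387 491)
 (.a 0 [331,459] (.q 330 (.a 1 [] (.d 297 2312 264 2345 429)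
 (.a 1 [264] (.d 429 2345 297 2378 462)
 (.a 0 [297,429] (.q 394 (.a 1 [] (.d 393 392 392 393 397)
 (.a 1 [392] (.d 397 393 393 394 398)
 (.a 0 [393,397] (.q 361 (.a 1 [] (.d 328 2343 295 2376 460)
 (.a 1 [295] (.d 460 2376 328 2409 493)
 (.a 0 [328,460] (.q 458 (.a 1 [] (.d 365 3406 334 3437 489)
 (.a 1 [334] (.d 489 3437 365 3468 520)
 (.a 1 [365] (.r 362 1354 426 (.d 360 359 359 360 364))
 .e))))
 .e))))
 .e))))
 .e))))
 .e))))
 (.a 1 [492] (.q 394 (.a 1 [] (.d 393 392 392 393 397)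
 (.a 1 [392] (.d 397 393 393 394 398)
 (.a 0 [393,397] (.q 425 (.a 1 [] (.d 332 3373 301 3404 456)
 (.a 1 [301] (.d 456 3404 332 3435 487)
 (.a 0 [332,456] (.q 299 (.a 1 [] (.d 331 1291 267 1323 427)
 (.a 0 [267,331,427] (.q 330 (.a 1 [] (.d 297 2312 264 2345 429)
 (.a 1 [264] (.d 429 2345 297 2378 462)
 (.a 0 [297,429] (.q 361 (.a 1 [] (.d 268 3309 237 3340 392)
 (.a 1 [237] (.d 392 3340 268 3371 423)
 (.a 0 [268,392] (.q 362 (.a 1 [] (.d 360 359 359 360 364)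
 (.a 1 [359] (.d 364 360 360 361 365)
 (.a 1 [360] (.d 298 1290 266 1322 426)
 .e))))
 .e))))
 .e))))
 .e)))
 .e))))
 .e))))
 (.a 1 [265] (.q 427 (.a 1 [] (.d 331 1323 299 1355 459)
 (.a 1 [299] (.d 459 1355 331 1387 491)
 (.a 0 [331,459] (.q 397 (.a 1 [] (.d 394 393 393 394 398)
 (.a 1 [393] (.d 398 394 394 395 399)
 (.a 0 [394,398] (.q 365 (.a 1 [] (.d 334 3375 303 3406 458)
 (.a 1 [303] (.d 458 3406 334 3437 489)
 (.a 0 [334,458] (.q 429 (.a 1 [] (.d 333 1325 301 1357 461)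
 (.a 1 [301] (.d 461 1357 333 1389 493)
 (.a 1 [333] (.d 330 2345 297 2378 462)
 .e))))
 .e))))
 .e))))
 .e))))
 (.a 1 [269] (.q 427 (.a 1 [] (.d 331 1323 299 1355 459)
 (.a 1 [299] (.d 459 1355 331 1387 491)
 (.a 0 [331,459] (.q 330 (.a 1 [] (.d 297 2312 264 2345 429)
 (.a 1 [264] (.d 429 2345 297 2378 462)
 (.a 0 [297,429] (.q 365 (.a 1 [] (.d 334 3375 303 3406 458)
 (.a 1 [303] (.d 458 3406 334 3437 489)
 (.a 0 [334,458] (.q 398 (.a 1 [] (.d 397 394 394 395 399)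
 (.a 0 [394,397,399] (.q 332 (.a 1 [] (.d 299 2314 266 2347 431)
 (.a 1 [266] (.d 431 2347 299 2380 464)
 (.a 0 [299,431] (.q 364 (.a 1 [] (.d 362 361 361 362 366)
 (.a 1 [361] (.d 366 362 362 363 367)
 (.a 1 [362] (.d 300 1292 268 1324 428)
 .e))))
 .e))))
 .e)))
 .e))))
 .e))))
 .e))))
 (.a 1 [424] (.q 427 (.a 1 [] (.d 331 1323 299 1355 459)
 (.a 1 [299] (.d 459 1355 331 1387 491)
 (.a 0 [331,459] (.q 330 (.a 1 [] (.d 297 2312 264 2345 429)
 (.a 1 [264] (.d 429 2345 297 2378 462)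
 (.a 0 [297,429] (.q 365 (.a 1 [] (.d 334 3375 303 3406 458)
 (.a 1 [303] (.d 458 3406 334 3437 489)
 (.a 0 [334,458] (.q 398 (.a 1 [] (.d 397 394 394 395 399)
 (.a 0 [394,397,399] (.q 332 (.a 1 [] (.d 299 2314 266 2347 431)
 (.a 1 [266] (.d 431 2347 299 2380 464)
 (.a 0 [299,431] (.q 364 (.a 1 [] (.d 362 361 361 362 366)
 (.a 1 [361] (.d 366 362 362 363 367)
 (.a 1 [362] (.d 300 1292 268 1324 428)
 .e))))
 .e))))
 .e)))
 .e))))
 .e))))
 .e))))
 .e)))))))))))))))))))))))))))))))))))))))) (by decide +kernel)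

theorem r429 : S (Nat.lor X2 (bits [467, 429])) := S.of (.q 364 (.a 1 [] (.q 365 (.a 1 [] (.d 362 361 361 362 366)
 (.a 1 [361] (.d 366 362 362 363 367)
 (.a 0 [362,366] (.q 332 (.a 1 [] (.d 300 1292 268 1324 428)
 (.a 1 [268] (.d 428 1324 300 1356 460)
 (.a 0 [300,428] (.q 427 (.a 1 [] (.d 334 3375 303 3406 458)
 (.a 1 [303] (.d 458 3406 334 3437 489)
 (.a 0 [334,458] (.q 394 (.a 1 [] (.d 301 3342 270 3373 425)
 (.a 1 [270] (.d 425 3373 301 3404 456)
 (.a 0 [301,425] (.q 395 (.a 1 [] (.d 393 392 392 393 397)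
 (.a 1 [392] (.d 397 393 393 394 398)
 (.a 1 [393] (.d 331 1323 299 1355 459)
 .e))))
 .e))))
 .e))))
 .e))))
 .e))))
 (.a 0 [365] (.q 332 (.a 1 [] (.d 300 1292 268 1324 428)
 (.a 1 [428] (.q 301 (.a 1 [] (.d 270 3311 239 3342 394)
 (.a 1 [394] (.r 268 1292 300 (.q 334 (.a 1 [] (.d 235 2250 202 2283 367)
 (.a 1 [202] (.d 367 2283 235 2316 400)
 (.a 0 [235,367] (.q 333 (.a 1 [] (.d 331 330 330 331 335)
 (.a 1 [330] (.d 335 331 331 332 336)
 (.a 0 [331,335] (.q 271 (.a 1 [] (.d 302 3312 240 3343 395)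
 (.a 1 [240] (.r 270 3311 239 (.d 269 267 267 268 272))
 .e)))
 .e))))
 .e)))))
 (.a 1 [270] (.r 268 1292 300 (.q 334 (.a 1 [] (.d 235 2250 202 2283 367)
 (.a 1 [202] (.d 367 2283 235 2316 400)
 (.a 0 [235,367] (.q 331 (.a 1 [] (.d 333 330 330 331 335)
 (.a 0 [330,333,335] (.q 397 (.a 1 [] (.d 298 2313 265 2346 430)
 (.a 1 [265] (.d 430 2346 298 2379 463)
 (.a 1 [298] (.r 394 3373 425 (.d 395 393 393 394 398))
 .e))))
 .e)))
 .e)))))
 (.a 1 [239] (.d 394 3342 270 3373 425)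
 .e)))))
 (.a 1 [300] (.q 394 (.a 1 [] (.d 301 3342 270 3373 425)
 (.a 1 [270] (.d 425 3373 301 3404 456)
 (.a 0 [301,425] (.q 397 (.a 1 [] (.d 395 393 393 394 398)
 (.a 0 [393,395,398] (.q 298 (.a 1 [] (.d 331 2313 265 2346 430)
 (.a 0 [265,331,430] (.q 362 (.a 1 [] (.d 330 1290 266 1322 426)
 (.a 0 [266,330,426] (.r 361 360 360 (.r 460 1356 428 (.d 427 2376 328 2409 493)))
 .e)))
 .e)))
 .e)))
 .e))))
 .e))))
 (.a 0 [332] (.q 365 (.a 1 [] (.d 362 361 361 362 366)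
 (.a 0 [362] (.q 427 (.a 1 [] (.d 334 3375 303 3406 458)
 (.a 1 [334] (.q 395 (.a 1 [] (.d 331 1323 299 1355 459)
 (.a 1 [331] (.q 333 (.a 1 [] (.d 302 3343 271 3374 426)
 (.a 1 [271] (.d 426 3374 302 3405 457)
 (.a 0 [302,426] (.r 366 363 367 (.r 459 1387 491 (.q 460 (.a 1 [] (.r 458 3437 489 (.d 461 457 457 458 462))
 (.a 1 [457] (.r 428 1388 492 (.d 397 3407 335 3438 490))
 .e)))))
 .e))))
 (.a 1 [459] (.q 397 (.a 1 [] (.d 394 393 393 394 398)
 (.a 1 [393] (.d 398 394 394 395 399)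
 (.a 1 [394] (.r 331 1323 299 (.d 430 2346 298 2379 463))
 .e))))
 .e))))
 (.a 1 [458] (.q 395 (.a 1 [] (.d 331 1323 299 1355 459)
 (.a 1 [299] (.d 459 1355 331 1387 491)
 (.a 0 [331,459] (.q 398 (.a 1 [] (.d 397 394 394 395 399)
 (.a 0 [394,397,399] (.q 426 (.a 1 [] (.d 333 3374 302 3405 457)
 (.a 1 [302] (.d 457 3405 333 3436 488)
 (.a 0 [333,457] (.r 366 363 367 (.r 334 3375 303 (.d 430 1326 302 1358 462)))
 .e))))
 .e)))
 .e))))
 (.a 1 [303] (.d 458 3406 334 3437 489)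
 .e)))))
 (.a 1 [366] (.q 427 (.a 1 [] (.d 334 3375 303 3406 458)
 (.a 1 [303] (.d 458 3406 334 3437 489)
 (.a 0 [334,458] (.r 361 361 362 (.q 394 (.a 1 [] (.d 328 2343 295 2376 460)
 (.a 1 [295] (.d 460 2376 328 2409 493)
 (.a 0 [328,460] (.q 395 (.a 1 [] (.d 393 392 392 393 397)
 (.a 1 [392] (.d 397 393 393 394 398)
 (.a 1 [393] (.d 331 1323 299 1355 459)
 .e))))
 .e)))))
 .e))))
 (.a 1 [361] (.d 366 362 362 363 367)
 .e)))))
 (.a 0 [428] (.q 365 (.a 1 [] (.d 362 361 361 362 366)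
 (.a 1 [362] (.q 427 (.a 1 [] (.d 334 3375 303 3406 458)
 (.a 1 [458] (.q 395 (.a 1 [] (.d 331 1323 299 1355 459)
 (.a 1 [299] (.d 459 1355 331 1387 491)
 (.a 0 [331,459] (.q 398 (.a 1 [] (.d 397 394 394 395 399)
 (.a 0 [394,397,399] (.r 366 363 367 (.r 334 3375 303 (.d 430 1326 302 1358 462)))
 .e)))
 .e))))
 (.a 1 [334] (.q 395 (.a 1 [] (.d 331 1323 299 1355 459)
 (.a 1 [299] (.d 459 1355 331 1387 491)
 (.a 0 [331,459] (.q 333 (.a 1 [] (.d 302 3343 271 3374 426)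
 (.a 1 [271] (.d 426 3374 302 3405 457)
 (.a 0 [302,426] (.r 366 363 367 (.q 300 (.a 1 [] (.d 267 2282 234 2315 399)
 (.a 1 [234] (.d 399 2315 267 2348 432)
 (.a 0 [267,399] (.q 394 (.a 1 [] (.d 393 392 392 393 397)
 (.a 1 [392] (.d 397 393 393 394 398)
 (.a 1 [393] (.r 332 1292 268 (.d 425 3373 301 3404 456))
 .e))))
 .e)))))
 .e))))
 .e))))
 (.a 1 [303] (.d 458 3406 334 3437 489)
 .e)))))
 (.a 1 [366] (.q 427 (.a 1 [] (.d 334 3375 303 3406 458)
 (.a 1 [303] (.d 458 3406 334 3437 489)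
 (.a 0 [334,458] (.r 361 361 362 (.q 394 (.a 1 [] (.d 328 2343 295 2376 460)
 (.a 1 [295] (.d 460 2376 328 2409 493)
 (.a 0 [328,460] (.q 395 (.a 1 [] (.d 393 392 392 393 397)
 (.a 1 [392] (.d 397 393 393 394 398)
 (.a 1 [393] (.d 331 1323 299 1355 459)
 .e))))
 .e)))))
 .e))))
 (.a 1 [361] (.d 366 362 362 363 367)
 .e)))))
 (.a 0 [395] (.q 365 (.a 1 [] (.d 362 361 361 362 366)
 (.a 0 [362] (.q 428 (.a 1 [] (.d 332 1324 300 1356 460)
 (.a 1 [332] (.r 366 363 367 (.q 397 (.a 1 [] (.d 335 3376 304 3407 459)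
 (.a 1 [335] (.q 331 (.a 1 [] (.d 298 2313 265 2346 430)
 (.a 1 [265] (.d 430 2346 298 2379 463)
 (.a 0 [298,430] (.q 458 (.a 1 [] (.d 427 3406 334 3437 489)
 (.a 0 [334,427,489] (.r 460 1388 492 (.r 459 3438 490 (.d 461 457 457 458 462)))
 .e)))
 .e))))
 (.a 1 [459] (.q 430 (.a 1 [] (.d 331 2346 298 2379 463)
 (.a 1 [298] (.d 463 2379 331 2412 496)
 (.a 0 [331,463] (.q 334 (.a 1 [] (.d 398 1326 302 1358 462)
 (.a 1 [302] (.d 427 3375 303 3406 458)
 .e)))
 .e))))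
 .e)))))
 (.a 1 [460] (.r 332 1324 300 (.q 398 (.a 1 [] (.d 299 2314 266 2347 431)
 (.a 1 [266] (.d 431 2347 299 2380 464)
 (.a 0 [299,431] (.q 334 (.a 1 [] (.d 303 3344 272 3375 427)
 (.a 1 [272] (.d 427 3375 303 3406 458)
 (.a 1 [303] (.r 366 363 367 (.d 430 1326 302 1358 462))
 .e))))
 .e)))))
 (.a 1 [300] (.d 460 1356 332 1388 492)
 .e)))))
 (.a 1 [366] (.q 332 (.a 1 [] (.d 300 1292 268 1324 428)
 (.a 1 [268] (.d 428 1324 300 1356 460)
 (.a 0 [300,428] (.q 427 (.a 1 [] (.d 334 3375 303 3406 458)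
 (.a 1 [303] (.d 458 3406 334 3437 489)
 (.a 0 [334,458] (.q 394 (.a 1 [] (.d 301 3342 270 3373 425)
 (.a 1 [270] (.d 425 3373 301 3404 456)
 (.a 1 [301] (.r 361 361 362 (.d 460 2376 328 2409 493))
 .e))))
 .e))))
 .e))))
 (.a 1 [361] (.d 366 362 362 363 367)
 .e)))))
 (.a 1 [366] (.q 300 (.a 1 [] (.d 332 1292 268 1324 428)
 (.a 1 [332] (.q 362 (.a 1 [] (.d 361 360 360 361 365)
 (.a 0 [360,361,365] (.q 331 (.a 1 [] (.d 269 3310 238 3341 393)
 (.a 1 [238] (.d 393 3341 269 3372 424)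
 (.a 0 [269,393] (.q 397 (.a 1 [] (.d 298 2313 265 2346 430)
 (.a 1 [265] (.d 430 2346 298 2379 463)
 (.a 0 [298,430] (.q 395 (.a 1 [] (.d 398 394 394 395 399)
 (.a 1 [394] (.d 427 1323 299 1355 459)
 .e)))
 .e))))
 .e))))
 .e)))
 (.a 1 [428] (.q 362 (.a 1 [] (.d 361 360 360 361 365)
 (.a 0 [360,361,365] (.q 331 (.a 1 [] (.d 269 3310 238 3341 393)
 (.a 1 [238] (.d 393 3341 269 3372 424)
 (.a 0 [269,393] (.q 299 (.a 1 [] (.d 267 1259 235 1291 395)
 (.a 1 [235] (.d 395 1291 267 1323 427)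
 (.a 0 [267,395] (.q 298 (.a 1 [] (.d 297 296 296 297 301)
 (.a 1 [296] (.d 301 297 297 298 302)
 (.a 1 [297] (.d 265 2280 232 2313 397)
 .e))))
 .e))))
 .e))))
 .e)))
 (.a 1 [268] (.q 362 (.a 1 [] (.d 361 360 360 361 365)
 (.a 0 [360,361,365] (.q 331 (.a 1 [] (.d 269 3310 238 3341 393)
 (.a 1 [238] (.d 393 3341 269 3372 424)
 (.a 0 [269,393] (.q 395 (.a 1 [] (.d 299 1291 267 1323 427)
 (.a 1 [267] (.d 427 1323 299 1355 459)
 (.a 1 [299] (.r 428 1324 332 (.d 461 2377 329 2410 494))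
 .e))))
 .e))))
 .e)))
 .e)))))
 (.a 0 [397] (.q 365 (.a 1 [] (.d 362 361 361 362 366)
 (.a 1 [362] (.q 332 (.a 1 [] (.d 300 1292 268 1324 428)
 (.a 1 [428] (.q 427 (.a 1 [] (.d 334 3375 303 3406 458)
 (.a 1 [303] (.d 458 3406 334 3437 489)
 (.a 0 [334,458] (.q 395 (.a 1 [] (.d 331 1323 299 1355 459)
 (.a 1 [299] (.d 459 1355 331 1387 491)
 (.a 1 [459] (.r 299 1323 331 (.d 398 2314 266 2347 431))
 (.a 0 [331] (.q 394 (.a 1 [] (.d 301 3342 270 3373 425)
 (.a 1 [270] (.d 425 3373 301 3404 456)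
 (.a 0 [301,425] (.q 361 (.a 1 [] (.d 328 2343 295 2376 460)
 (.a 1 [295] (.d 460 2376 328 2409 493)
 (.a 0 [328,460] (.q 299 (.a 1 [] (.d 266 2281 233 2314 398)
 (.a 1 [233] (.d 398 2314 266 2347 431)
 (.a 1 [266] (.r 268 1292 300 (.d 330 3309 237 3340 392))
 .e))))
 .e))))
 .e))))
 .e)))))
 .e))))
 (.a 1 [300] (.q 299 (.a 1 [] (.d 266 2281 233 2314 398)
 (.a 1 [233] (.d 398 2314 266 2347 431)
 (.a 0 [266,398] (.q 331 (.a 1 [] (.d 267 1259 235 1291 395)
 (.a 1 [235] (.d 395 1291 267 1323 427)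
 (.a 1 [267] (.r 427 1323 395 (.d 458 3406 334 3437 489))
 (.a 0 [395] (.q 334 (.a 1 [] (.d 333 330 330 331 335)
 (.a 1 [330] (.d 427 3375 303 3406 458)
 .e)))
 .e)))))
 .e))))
 (.a 1 [268] (.d 428 1324 300 1356 460)
 .e)))))
 (.a 1 [366] (.q 428 (.a 1 [] (.d 332 1324 300 1356 460)
 (.a 1 [300] (.d 460 1356 332 1388 492)
 (.a 0 [332,460] (.q 427 (.a 1 [] (.d 334 3375 303 3406 458)
 (.a 1 [303] (.d 458 3406 334 3437 489)
 (.a 0 [334,458] (.q 395 (.a 1 [] (.d 331 1323 299 1355 459)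
 (.a 1 [299] (.d 459 1355 331 1387 491)
 (.a 1 [331] (.r 362 361 361 (.d 461 2377 329 2410 494))
 .e))))
 .e))))
 .e))))
 (.a 1 [361] (.d 366 362 362 363 367)
 .e)))))
 (.a 0 [427] (.q 428 (.a 1 [] (.d 332 1324 300 1356 460)
 (.a 0 [332] (.q 362 (.a 1 [] (.d 361 360 360 361 365)
 (.a 1 [365] (.q 395 (.a 1 [] (.d 329 2344 296 2377 461)
 (.a 1 [461] (.q 397 (.a 1 [] (.d 394 393 393 394 398)
 (.a 1 [393] (.d 398 394 394 395 399)
 (.a 0 [394] (.q 331 (.a 1 [] (.d 298 2313 265 2346 430)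
 (.a 1 [265] (.d 430 2346 298 2379 463)
 (.a 0 [298,430] (.q 459 (.a 1 [] (.d 366 3407 335 3438 490)
 (.a 1 [335] (.d 490 3438 366 3469 521)
 (.a 0 [366,490] (.q 426 (.a 1 [] (.d 333 3374 302 3405 457)
 (.a 1 [302] (.d 457 3405 333 3436 488)
 (.a 1 [333] (.r 492 1388 460 (.d 360 360 361 2408 393))
 .e))))
 .e))))
 .e))))
 (.a 0 [398] (.r 393 393 394 (.r 361 360 360 (.r 329 2344 296 (.d 425 1321 297 1353 457))))
 .e)))))
 (.a 1 [329] (.q 426 (.a 1 [] (.d 333 3374 302 3405 457)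
 (.a 1 [302] (.d 457 3405 333 3436 488)
 (.a 0 [333,457] (.r 360 360 361 (.r 492 1388 460 (.r 393 2408 459 (.d 394 392 392 393 397))))
 .e))))
 .e))))
 (.a 1 [361] (.q 395 (.a 1 [] (.d 329 2344 296 2377 461)
 (.a 1 [296] (.d 461 2377 329 2410 494)
 (.a 0 [329,461] (.q 397 (.a 1 [] (.d 394 393 393 394 398)
 (.a 1 [393] (.d 398 394 394 395 399)
 (.a 1 [394] (.r 366 362 365 (.d 459 3407 335 3438 490))
 .e))))
 .e))))
 .e))))
 (.a 1 [460] (.r 332 1324 300 (.q 394 (.a 1 [] (.d 301 3342 270 3373 425)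
 (.a 1 [270] (.d 425 3373 301 3404 456)
 (.a 0 [301,425] (.q 362 (.a 1 [] (.d 361 360 360 361 365)
 (.a 1 [360] (.d 365 361 361 362 366)
 (.a 0 [361,365] (.q 397 (.a 1 [] (.d 395 393 393 394 398)
 (.a 1 [393] (.r 395 394 398 (.d 461 2377 329 2410 494))
 (.a 1 [398] (.r 395 393 393 (.d 461 2377 329 2410 494))
 (.a 0 [395] (.q 298 (.a 1 [] (.d 330 1290 266 1322 426)
 (.a 1 [266] (.d 331 2313 265 2346 430)
 .e)))
 .e)))))
 .e))))
 .e)))))
 (.a 1 [300] (.d 460 1356 332 1388 492)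
 .e)))))
 (.a 1 [331] (.q 332 (.a 1 [] (.d 300 1292 268 1324 428)
 (.a 1 [300] (.q 394 (.a 1 [] (.d 301 3342 270 3373 425)
 (.a 1 [270] (.d 425 3373 301 3404 456)
 (.a 0 [301,425] (.q 361 (.a 1 [] (.d 362 360 360 361 365)
 (.a 1 [360] (.r 365 361 362 (.r 460 1356 428 (.d 427 2376 328 2409 493)))
 (.a 1 [362] (.r 460 1356 428 (.d 427 2376 328 2409 493))
 .e))))
 .e))))
 (.a 1 [428] (.q 365 (.a 1 [] (.d 362 361 361 362 366)
 (.a 1 [361] (.d 366 362 362 363 367)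
 (.a 0 [362,366] (.q 427 (.a 1 [] (.d 334 3375 303 3406 458)
 (.a 1 [303] (.d 458 3406 334 3437 489)
 (.a 0 [334,458] (.q 394 (.a 1 [] (.d 301 3342 270 3373 425)
 (.a 1 [270] (.d 425 3373 301 3404 456)
 (.a 0 [301,425] (.q 361 (.a 1 [] (.d 328 2343 295 2376 460)
 (.a 1 [295] (.d 460 2376 328 2409 493)
 (.a 0 [328,460] (.q 299 (.a 1 [] (.d 266 2281 233 2314 398)
 (.a 1 [233] (.d 398 2314 266 2347 431)
 (.a 1 [266] (.r 268 1292 300 (.d 330 3309 237 3340 392))
 .e))))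
 .e))))
 .e))))
 .e))))
 .e))))
 .e))))
 (.a 0 [394] (.q 332 (.a 1 [] (.d 300 1292 268 1324 428)
 (.a 1 [300] (.q 365 (.a 1 [] (.d 362 361 361 362 366)
 (.a 1 [362] (.q 398 (.a 1 [] (.d 299 2314 266 2347 431)
 (.a 1 [266] (.d 431 2347 299 2380 464)
 (.a 0 [299,431] (.q 334 (.a 1 [] (.d 303 3344 272 3375 427)
 (.a 1 [272] (.d 427 3375 303 3406 458)
 (.a 1 [303] (.r 366 363 367 (.d 430 1326 302 1358 462))
 .e))))
 .e))))
 (.a 1 [366] (.q 427 (.a 1 [] (.d 334 3375 303 3406 458)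
 (.a 1 [303] (.d 458 3406 334 3437 489)
 (.a 0 [334,458] (.q 395 (.a 1 [] (.d 331 1323 299 1355 459)
 (.a 1 [299] (.d 459 1355 331 1387 491)
 (.a 1 [459] (.r 299 1323 331 (.d 398 2314 266 2347 431))
 (.a 0 [331] (.q 426 (.a 1 [] (.d 333 3374 302 3405 457)
 (.a 1 [302] (.d 457 3405 333 3436 488)
 (.a 1 [333] (.r 428 1356 460 (.r 362 361 361 (.d 461 2377 329 2410 494)))
 .e))))
 .e)))))
 .e))))
 .e))))
 (.a 1 [428] (.q 365 (.a 1 [] (.d 362 361 361 362 366)
 (.a 1 [361] (.d 366 362 362 363 367)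
 (.a 0 [362,366] (.q 299 (.a 1 [] (.d 266 2281 233 2314 398)
 (.a 1 [233] (.d 398 2314 266 2347 431)
 (.a 0 [266,398] (.q 330 (.a 1 [] (.r 268 1292 300 (.d 361 3309 237 3340 392))
 (.a 1 [392] (.r 268 1292 300 (.d 237 3278 206 3309 361))
 (.a 0 [237,268,300,361] (.q 331 (.a 1 [] (.d 329 328 328 329 333)
 (.a 1 [328] (.d 333 329 329 330 334)
 (.a 1 [329] (.d 267 1259 235 1291 395)
 .e))))
 .e))))
 .e))))
 .e))))
 (.a 1 [268] (.d 428 1324 300 1356 460)
 .e)))))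
 (.a 1 [333] (.q 365 (.a 1 [] (.d 362 361 361 362 366)
 (.a 1 [366] (.q 427 (.a 1 [] (.d 334 3375 303 3406 458)
 (.a 1 [303] (.d 458 3406 334 3437 489)
 (.a 0 [334,458] (.q 460 (.a 1 [] (.d 428 1356 332 1388 492)
 (.a 1 [332] (.r 361 361 362 (.d 394 2376 328 2409 493))
 .e)))
 .e))))
 (.a 1 [362] (.q 332 (.a 1 [] (.d 300 1292 268 1324 428)
 (.a 1 [268] (.d 428 1324 300 1356 460)
 (.a 0 [300,428] (.q 427 (.a 1 [] (.d 334 3375 303 3406 458)
 (.a 1 [303] (.d 458 3406 334 3437 489)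
 (.a 0 [334,458] (.q 394 (.a 1 [] (.d 301 3342 270 3373 425)
 (.a 1 [270] (.d 425 3373 301 3404 456)
 (.a 0 [301,425] (.q 395 (.a 1 [] (.d 393 392 392 393 397)
 (.a 1 [392] (.d 397 393 393 394 398)
 (.a 1 [393] (.d 331 1323 299 1355 459)
 .e))))
 .e))))
 .e))))
 .e))))
 (.a 1 [361] (.d 366 362 362 363 367)
 .e)))))
 (.a 1 [398] (.q 365 (.a 1 [] (.d 362 361 361 362 366)
 (.a 1 [366] (.q 332 (.a 1 [] (.d 300 1292 268 1324 428)
 (.a 1 [268] (.d 428 1324 300 1356 460)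
 (.a 0 [300,428] (.q 394 (.a 1 [] (.d 301 3342 270 3373 425)
 (.a 1 [270] (.d 425 3373 301 3404 456)
 (.a 0 [301,425] (.q 427 (.a 1 [] (.d 334 3375 303 3406 458)
 (.a 1 [303] (.d 458 3406 334 3437 489)
 (.a 1 [334] (.r 361 361 362 (.d 460 2376 328 2409 493))
 .e))))
 .e))))
 .e))))
 (.a 1 [362] (.q 332 (.a 1 [] (.d 300 1292 268 1324 428)
 (.a 1 [268] (.d 428 1324 300 1356 460)
 (.a 0 [300,428] (.q 427 (.a 1 [] (.d 334 3375 303 3406 458)
 (.a 1 [303] (.d 458 3406 334 3437 489)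
 (.a 0 [334,458] (.q 394 (.a 1 [] (.d 301 3342 270 3373 425)
 (.a 1 [270] (.d 425 3373 301 3404 456)
 (.a 0 [301,425] (.q 395 (.a 1 [] (.d 393 392 392 393 397)
 (.a 1 [392] (.d 459 1355 331 1387 491)
 .e)))
 .e))))
 .e))))
 .e))))
 .e))))
 (.a 0 [430] (.q 365 (.a 1 [] (.d 362 361 361 362 366)
 (.a 0 [362] (.q 427 (.a 1 [] (.d 334 3375 303 3406 458)
 (.a 1 [458] (.q 395 (.a 1 [] (.d 331 1323 299 1355 459)
 (.a 1 [331] (.q 426 (.a 1 [] (.d 333 3374 302 3405 457)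
 (.a 1 [302] (.d 457 3405 333 3436 488)
 (.a 0 [333,457] (.q 393 (.a 1 [] (.d 394 392 392 393 397)
 (.a 1 [392] (.r 459 1387 491 (.d 492 2408 360 2441 525))
 .e)))
 .e))))
 (.a 1 [459] (.q 332 (.a 1 [] (.d 300 1292 268 1324 428)
 (.a 1 [268] (.d 428 1324 300 1356 460)
 (.a 1 [300] (.r 299 1323 331 (.d 398 2314 266 2347 431))
 .e))))
 .e))))
 (.a 1 [334] (.q 395 (.a 1 [] (.d 331 1323 299 1355 459)
 (.a 1 [299] (.d 459 1355 331 1387 491)
 (.a 0 [331,459] (.q 398 (.a 1 [] (.d 397 394 394 395 399)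
 (.a 0 [394,397,399] (.q 332 (.a 1 [] (.d 300 1292 268 1324 428)
 (.a 1 [268] (.d 428 1324 300 1356 460)
 (.a 1 [300] (.d 299 2314 266 2347 431)
 .e))))
 .e)))
 .e))))
 .e))))
 (.a 1 [366] (.q 428 (.a 1 [] (.d 332 1324 300 1356 460)
 (.a 1 [300] (.d 460 1356 332 1388 492)
 (.a 0 [332,460] (.r 362 361 361 (.q 395 (.a 1 [] (.d 329 2344 296 2377 461)
 (.a 1 [296] (.d 461 2377 329 2410 494)
 (.a 0 [329,461] (.q 427 (.a 1 [] (.d 331 1323 299 1355 459)
 (.a 1 [299] (.d 459 1355 331 1387 491)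
 (.a 1 [331] (.d 334 3375 303 3406 458)
 .e))))
 .e)))))
 .e))))
 (.a 1 [361] (.d 366 362 362 363 367)
 .e)))))
 (.a 0 [301] (.q 365 (.a 1 [] (.d 362 361 361 362 366)
 (.a 1 [362] (.q 332 (.a 1 [] (.d 300 1292 268 1324 428)
 (.a 1 [300] (.q 299 (.a 1 [] (.d 266 2281 233 2314 398)
 (.a 1 [233] (.d 398 2314 266 2347 431)
 (.a 0 [266,398] (.q 331 (.a 1 [] (.d 267 1259 235 1291 395)
 (.a 1 [235] (.d 395 1291 267 1323 427)
 (.a 1 [267] (.r 427 1323 395 (.d 458 3406 334 3437 489))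
 (.a 0 [395] (.q 334 (.a 1 [] (.d 333 330 330 331 335)
 (.a 1 [330] (.d 427 3375 303 3406 458)
 .e)))
 .e)))))
 .e))))
 (.a 1 [428] (.q 427 (.a 1 [] (.d 334 3375 303 3406 458)
 (.a 1 [303] (.d 458 3406 334 3437 489)
 (.a 0 [334,458] (.q 395 (.a 1 [] (.d 331 1323 299 1355 459)
 (.a 1 [299] (.d 459 1355 331 1387 491)
 (.a 1 [459] (.r 299 1323 331 (.d 398 2314 266 2347 431))
 (.a 0 [331] (.q 398 (.a 1 [] (.d 397 394 394 395 399)
 (.a 1 [394] (.d 431 2347 299 2380 464)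
 .e)))
 .e)))))
 .e))))
 (.a 1 [268] (.d 428 1324 300 1356 460)
 .e)))))
 (.a 1 [366] (.q 332 (.a 1 [] (.d 300 1292 268 1324 428)
 (.a 1 [268] (.d 428 1324 300 1356 460)
 (.a 0 [300,428] (.q 427 (.a 1 [] (.d 334 3375 303 3406 458)
 (.a 1 [303] (.d 458 3406 334 3437 489)
 (.a 0 [334,458] (.q 395 (.a 1 [] (.d 331 1323 299 1355 459)
 (.a 1 [299] (.d 459 1355 331 1387 491)
 (.a 1 [459] (.r 299 1323 331 (.d 398 2314 266 2347 431))
 (.a 0 [331] (.q 398 (.a 1 [] (.d 397 394 394 395 399)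
 (.a 1 [394] (.d 431 2347 299 2380 464)
 .e)))
 .e)))))
 .e))))
 .e))))
 .e))))
 (.a 1 [302] (.q 365 (.a 1 [] (.d 362 361 361 362 366)
 (.a 1 [366] (.q 460 (.a 1 [] (.d 428 1356 332 1388 492)
 (.a 0 [332,428,492] (.q 427 (.a 1 [] (.d 334 3375 303 3406 458)
 (.a 1 [303] (.d 458 3406 334 3437 489)
 (.a 1 [334] (.r 361 361 362 (.d 394 2376 328 2409 493))
 .e))))
 .e)))
 (.a 1 [362] (.q 332 (.a 1 [] (.d 300 1292 268 1324 428)
 (.a 1 [268] (.d 428 1324 300 1356 460)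
 (.a 0 [300,428] (.q 301 (.a 1 [] (.d 270 3311 239 3342 394)
 (.a 1 [239] (.d 394 3342 270 3373 425)
 (.a 0 [270,394] (.q 334 (.a 1 [] (.d 303 3344 272 3375 427)
 (.a 1 [272] (.d 427 3375 303 3406 458)
 (.a 1 [303] (.r 367 363 366 (.d 400 2316 268 2349 433))
 .e))))
 .e))))
 .e))))
 .e))))
 (.a 0 [334] (.q 332 (.a 1 [] (.d 300 1292 268 1324 428)
 (.a 1 [428] (.q 365 (.a 1 [] (.d 362 361 361 362 366)
 (.a 1 [366] (.q 394 (.a 1 [] (.d 301 3342 270 3373 425)
 (.a 1 [270] (.d 425 3373 301 3404 456)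
 (.a 0 [301,425] (.q 427 (.a 1 [] (.r 361 361 362 (.d 460 2376 328 2409 493))
 (.a 1 [493] (.r 361 361 362 (.d 328 2343 295 2376 460))
 (.a 0 [328,361,362,460] (.q 395 (.a 1 [] (.d 393 392 392 393 397)
 (.a 1 [392] (.d 397 393 393 394 398)
 (.a 1 [393] (.d 331 1323 299 1355 459)
 .e))))
 .e))))
 .e))))
 (.a 1 [362] (.q 301 (.a 1 [] (.d 270 3311 239 3342 394)
 (.a 1 [239] (.d 394 3342 270 3373 425)
 (.a 0 [270,394] (.q 299 (.a 1 [] (.d 266 2281 233 2314 398)
 (.a 1 [233] (.d 398 2314 266 2347 431)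
 (.a 1 [266] (.r 300 1292 268 (.d 302 298 298 299 303))
 .e))))
 .e))))
 .e))))
 (.a 1 [300] (.q 365 (.a 1 [] (.d 362 361 361 362 366)
 (.a 1 [361] (.d 366 362 362 363 367)
 (.a 0 [362,366] (.q 394 (.a 1 [] (.d 301 3342 270 3373 425)
 (.a 1 [270] (.d 425 3373 301 3404 456)
 (.a 0 [301,425] (.q 395 (.a 1 [] (.d 393 392 392 393 397)
 (.a 1 [392] (.d 397 393 393 394 398)
 (.a 1 [393] (.r 398 394 397 (.d 431 2347 299 2380 464))
 (.a 0 [397] (.q 299 (.a 1 [] (.d 331 1291 267 1323 427)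
 (.a 1 [267] (.d 398 2314 266 2347 431)
 .e)))
 .e)))))
 .e))))
 .e))))
 (.a 1 [268] (.d 428 1324 300 1356 460)
 .e)))))
 (.a 1 [458] (.q 332 (.a 1 [] (.d 300 1292 268 1324 428)
 (.a 1 [428] (.q 365 (.a 1 [] (.d 362 361 361 362 366)
 (.a 1 [361] (.d 366 362 362 363 367)
 (.a 0 [362,366] (.q 299 (.a 1 [] (.d 266 2281 233 2314 398)
 (.a 1 [233] (.d 398 2314 266 2347 431)
 (.a 0 [266,398] (.q 301 (.a 1 [] (.d 270 3311 239 3342 394)
 (.a 1 [239] (.d 394 3342 270 3373 425)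
 (.a 1 [270] (.r 300 1292 268 (.d 302 298 298 299 303))
 .e))))
 .e))))
 .e))))
 (.a 1 [300] (.q 365 (.a 1 [] (.d 362 361 361 362 366)
 (.a 1 [361] (.d 366 362 362 363 367)
 (.a 0 [362,366] (.q 394 (.a 1 [] (.d 301 3342 270 3373 425)
 (.a 1 [270] (.d 425 3373 301 3404 456)
 (.a 0 [301,425] (.q 395 (.a 1 [] (.d 393 392 392 393 397)
 (.a 1 [392] (.d 397 393 393 394 398)
 (.a 1 [393] (.r 398 394 397 (.d 431 2347 299 2380 464))
 (.a 0 [397] (.q 299 (.a 1 [] (.d 331 1291 267 1323 427)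
 (.a 1 [267] (.d 398 2314 266 2347 431)
 .e)))
 .e)))))
 .e))))
 .e))))
 .e))))
 (.a 1 [491] (.q 365 (.a 1 [] (.d 362 361 361 362 366)
 (.a 1 [362] (.q 332 (.a 1 [] (.d 300 1292 268 1324 428)
 (.a 1 [268] (.d 428 1324 300 1356 460)
 (.a 0 [300,428] (.q 301 (.a 1 [] (.d 270 3311 239 3342 394)
 (.a 1 [239] (.d 394 3342 270 3373 425)
 (.a 0 [270,394] (.q 334 (.a 1 [] (.d 303 3344 272 3375 427)
 (.a 1 [272] (.d 427 3375 303 3406 458)
 (.a 1 [303] (.r 367 363 366 (.d 400 2316 268 2349 433))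
 .e))))
 .e))))
 .e))))
 (.a 1 [366] (.q 332 (.a 1 [] (.d 300 1292 268 1324 428)
 (.a 1 [268] (.d 428 1324 300 1356 460)
 (.a 0 [300,428] (.q 427 (.a 1 [] (.d 334 3375 303 3406 458)
 (.a 1 [303] (.d 458 3406 334 3437 489)
 (.a 0 [334,458] (.q 394 (.a 1 [] (.d 301 3342 270 3373 425)
 (.a 1 [270] (.d 425 3373 301 3404 456)
 (.a 1 [301] (.r 361 361 362 (.d 460 2376 328 2409 493))
 .e))))
 .e))))
 .e))))
 .e))))
 (.a 1 [270] (.q 365 (.a 1 [] (.d 362 361 361 362 366)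
 (.a 1 [366] (.q 332 (.a 1 [] (.d 300 1292 268 1324 428)
 (.a 1 [268] (.d 428 1324 300 1356 460)
 (.a 0 [300,428] (.q 394 (.a 1 [] (.d 425 3373 301 3404 456)
 (.a 0 [301,425,456] (.q 427 (.a 1 [] (.d 334 3375 303 3406 458)
 (.a 1 [303] (.d 458 3406 334 3437 489)
 (.a 1 [334] (.r 361 361 362 (.d 460 2376 328 2409 493))
 .e))))
 .e)))
 .e))))
 (.a 1 [362] (.q 332 (.a 1 [] (.d 300 1292 268 1324 428)
 (.a 1 [268] (.d 428 1324 300 1356 460)
 (.a 0 [300,428] (.q 427 (.a 1 [] (.d 334 3375 303 3406 458)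
 (.a 1 [303] (.d 458 3406 334 3437 489)
 (.a 0 [334,458] (.q 398 (.a 1 [] (.d 299 2314 266 2347 431)
 (.a 1 [266] (.d 431 2347 299 2380 464)
 (.a 1 [431] (.r 299 2314 266 (.r 395 1323 331 (.d 397 394 394 395 399)))
 (.a 0 [299] (.q 395 (.a 1 [] (.d 397 394 394 395 399)
 (.a 1 [394] (.d 459 1355 331 1387 491)
 .e)))
 .e)))))
 .e))))
 .e))))
 .e))))
 (.a 1 [303] (.q 300 (.a 1 [] (.d 332 1292 268 1324 428)
 (.a 1 [428] (.q 362 (.a 1 [] (.d 361 360 360 361 365)
 (.a 1 [360] (.d 365 361 361 362 366)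
 (.a 0 [361,365] (.q 331 (.a 1 [] (.d 269 3310 238 3341 393)
 (.a 1 [238] (.d 393 3341 269 3372 424)
 (.a 0 [269,393] (.q 299 (.a 1 [] (.d 267 1259 235 1291 395)
 (.a 1 [235] (.d 395 1291 267 1323 427)
 (.a 0 [267,395] (.q 298 (.a 1 [] (.d 297 296 296 297 301)
 (.a 1 [296] (.d 301 297 297 298 302)
 (.a 1 [297] (.d 265 2280 232 2313 397)
 .e))))
 .e))))
 .e))))
 .e))))
 (.a 1 [268] (.q 365 (.a 1 [] (.d 362 361 361 362 366)
 (.a 1 [361] (.d 366 362 362 363 367)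
 (.a 0 [362,366] (.q 427 (.a 1 [] (.d 458 3406 334 3437 489)
 (.a 0 [334,458,489] (.q 395 (.a 1 [] (.d 331 1323 299 1355 459)
 (.a 1 [299] (.d 459 1355 331 1387 491)
 (.a 0 [331,459] (.q 394 (.a 1 [] (.d 393 392 392 393 397)
 (.a 1 [392] (.d 397 393 393 394 398)
 (.a 1 [393] (.r 332 1324 428 (.d 425 3373 301 3404 456))
 (.a 1 [397] (.r 428 1324 332 (.r 460 1388 492 (.d 493 2409 361 2442 526)))
 .e)))))
 .e))))
 .e)))
 .e))))
 .e))))
 (.a 1 [393] (.q 332 (.a 1 [] (.d 300 1292 268 1324 428)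
 (.a 1 [428] (.q 365 (.a 1 [] (.d 362 361 361 362 366)
 (.a 1 [361] (.d 366 362 362 363 367)
 (.a 0 [362,366] (.q 427 (.a 1 [] (.d 334 3375 303 3406 458)
 (.a 1 [303] (.d 458 3406 334 3437 489)
 (.a 0 [334,458] (.q 394 (.a 1 [] (.d 301 3342 270 3373 425)
 (.a 1 [270] (.d 425 3373 301 3404 456)
 (.a 0 [301,425] (.q 395 (.a 1 [] (.d 331 1323 299 1355 459)
 (.a 1 [299] (.d 459 1355 331 1387 491)
 (.a 1 [331] (.r 398 394 397 (.d 431 2347 299 2380 464))
 (.a 1 [459] (.r 299 1323 331 (.d 398 394 397 2347 431))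
 .e)))))
 .e))))
 .e))))
 .e))))
 (.a 1 [300] (.q 394 (.a 1 [] (.d 301 3342 270 3373 425)
 (.a 1 [270] (.d 425 3373 301 3404 456)
 (.a 0 [301,425] (.q 361 (.a 1 [] (.d 362 360 360 361 365)
 (.a 1 [360] (.r 365 361 362 (.r 460 1356 428 (.d 427 2376 328 2409 493)))
 (.a 1 [362] (.r 460 1356 428 (.d 427 2376 328 2409 493))
 .e))))
 .e))))
 .e))))
 (.a 1 [459] (.q 365 (.a 1 [] (.d 362 361 361 362 366)
 (.a 1 [366] (.q 427 (.a 1 [] (.d 334 3375 303 3406 458)
 (.a 1 [303] (.d 458 3406 334 3437 489)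
 (.a 0 [334,458] (.q 460 (.a 1 [] (.d 428 1356 332 1388 492)
 (.a 1 [332] (.r 361 361 362 (.d 394 2376 328 2409 493))
 .e)))
 .e))))
 (.a 1 [362] (.q 332 (.a 1 [] (.d 300 1292 268 1324 428)
 (.a 1 [268] (.d 428 1324 300 1356 460)
 (.a 0 [300,428] (.q 427 (.a 1 [] (.d 334 3375 303 3406 458)
 (.a 1 [303] (.d 458 3406 334 3437 489)
 (.a 0 [334,458] (.q 394 (.a 1 [] (.d 301 3342 270 3373 425)
 (.a 1 [270] (.d 425 3373 301 3404 456)
 (.a 0 [301,425] (.q 395 (.a 1 [] (.d 393 392 392 393 397)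
 (.a 1 [392] (.d 397 393 393 394 398)
 (.a 1 [393] (.r 398 394 397 (.d 299 2314 266 1323 331))
 (.a 1 [397] (.r 299 1323 331 (.d 398 2314 266 2347 431))
 .e)))))
 .e))))
 .e))))
 .e))))
 (.a 1 [361] (.d 366 362 362 363 367)
 .e)))))
 (.a 1 [461] (.q 332 (.a 1 [] (.d 300 1292 268 1324 428)
 (.a 1 [428] (.q 301 (.a 1 [] (.d 270 3311 239 3342 394)
 (.a 1 [239] (.d 394 3342 270 3373 425)
 (.a 0 [270,394] (.r 268 1292 300 (.q 365 (.a 1 [] (.d 362 361 361 362 366)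
 (.a 1 [361] (.d 366 362 362 363 367)
 (.a 1 [362] (.r 367 363 366 (.d 334 2283 235 2316 400))
 (.a 0 [366] (.q 334 (.a 1 [] (.d 235 2250 202 2283 367)
 (.a 1 [202] (.d 367 2283 235 2316 400)
 (.a 1 [235] (.d 303 3344 272 3375 427)
 .e))))
 .e))))))
 .e))))
 (.a 1 [300] (.q 365 (.a 1 [] (.d 362 361 361 362 366)
 (.a 1 [361] (.d 366 362 362 363 367)
 (.a 0 [362,366] (.q 398 (.a 1 [] (.d 299 2314 266 2347 431)
 (.a 1 [266] (.d 431 2347 299 2380 464)
 (.a 0 [299,431] (.q 427 (.a 1 [] (.d 334 3375 303 3406 458)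
 (.a 1 [303] (.d 458 3406 334 3437 489)
 (.a 0 [334,458] (.q 394 (.a 1 [] (.d 301 3342 270 3373 425)
 (.a 1 [270] (.d 425 3373 301 3404 456)
 (.a 1 [301] (.r 395 394 397 (.d 459 1355 331 1387 491))
 .e))))
 .e))))
 .e))))
 .e))))
 (.a 1 [268] (.d 428 1324 300 1356 460)
 .e)))))
 (.a 0 [431] (.q 365 (.a 1 [] (.d 362 361 361 362 366)
 (.a 0 [362] (.q 427 (.a 1 [] (.d 334 3375 303 3406 458)
 (.a 1 [458] (.q 395 (.a 1 [] (.d 331 1323 299 1355 459)
 (.a 1 [331] (.q 426 (.a 1 [] (.d 333 3374 302 3405 457)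
 (.a 1 [302] (.d 457 3405 333 3436 488)
 (.a 0 [333,457] (.q 393 (.a 1 [] (.d 394 392 392 393 397)
 (.a 1 [392] (.r 459 1387 491 (.d 492 2408 360 2441 525))
 .e)))
 .e))))
 (.a 1 [459] (.q 397 (.a 1 [] (.d 394 393 393 394 398)
 (.a 1 [393] (.d 398 394 394 395 399)
 (.a 1 [394] (.r 331 1323 299 (.d 430 2346 298 2379 463))
 .e))))
 .e))))
 (.a 1 [334] (.q 395 (.a 1 [] (.d 331 1323 299 1355 459)
 (.a 1 [299] (.d 459 1355 331 1387 491)
 (.a 0 [331,459] (.q 333 (.a 1 [] (.d 302 3343 271 3374 426)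
 (.a 1 [271] (.d 426 3374 302 3405 457)
 (.a 0 [302,426] (.q 300 (.a 1 [] (.d 332 1292 268 1324 428)
 (.a 1 [268] (.r 366 363 367 (.d 399 2315 267 2348 432))
 .e)))
 .e))))
 .e))))
 .e))))
 (.a 1 [366] (.q 428 (.a 1 [] (.d 332 1324 300 1356 460)
 (.a 1 [300] (.d 460 1356 332 1388 492)
 (.a 0 [332,460] (.q 427 (.a 1 [] (.d 334 3375 303 3406 458)
 (.a 1 [303] (.d 458 3406 334 3437 489)
 (.a 0 [334,458] (.q 395 (.a 1 [] (.d 331 1323 299 1355 459)
 (.a 1 [299] (.d 459 1355 331 1387 491)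
 (.a 1 [331] (.r 362 361 361 (.d 461 2377 329 2410 494))
 .e))))
 .e))))
 .e))))
 (.a 1 [361] (.d 366 362 362 363 367)
 .e)))))
 (.a 1 [432] (.q 365 (.a 1 [] (.d 362 361 361 362 366)
 (.a 1 [366] (.q 428 (.a 1 [] (.d 332 1324 300 1356 460)
 (.a 1 [300] (.d 460 1356 332 1388 492)
 (.a 0 [332,460] (.q 427 (.a 1 [] (.d 334 3375 303 3406 458)
 (.a 1 [303] (.d 458 3406 334 3437 489)
 (.a 0 [334,458] (.q 395 (.a 1 [] (.d 331 1323 299 1355 459)
 (.a 1 [299] (.d 459 1355 331 1387 491)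
 (.a 1 [331] (.r 362 361 361 (.d 461 2377 329 2410 494))
 .e))))
 .e))))
 .e))))
 (.a 1 [362] (.q 332 (.a 1 [] (.d 300 1292 268 1324 428)
 (.a 1 [268] (.d 428 1324 300 1356 460)
 (.a 0 [300,428] (.q 431 (.a 1 [] (.d 398 2347 299 2380 464)
 (.a 0 [299,398,464] (.q 301 (.a 1 [] (.d 270 3311 239 3342 394)
 (.a 1 [239] (.d 394 3342 270 3373 425)
 (.a 0 [270,394] (.q 334 (.a 1 [] (.d 303 3344 272 3375 427)
 (.a 1 [272] (.d 427 3375 303 3406 458)
 (.a 1 [303] (.r 367 363 366 (.d 400 2316 268 2349 433))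
 .e))))
 .e))))
 .e)))
 .e))))
 .e))))
 (.a 1 [335] (.q 365 (.a 1 [] (.d 362 361 361 362 366)
 (.a 1 [366] (.q 427 (.a 1 [] (.d 334 3375 303 3406 458)
 (.a 1 [303] (.d 458 3406 334 3437 489)
 (.a 0 [334,458] (.q 460 (.a 1 [] (.d 428 1356 332 1388 492)
 (.a 1 [332] (.r 361 361 362 (.d 394 2376 328 2409 493))
 .e)))
 .e))))
 (.a 1 [362] (.q 332 (.a 1 [] (.d 300 1292 268 1324 428)
 (.a 1 [268] (.d 428 1324 300 1356 460)
 (.a 0 [300,428] (.q 427 (.a 1 [] (.d 334 3375 303 3406 458)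
 (.a 1 [303] (.d 458 3406 334 3437 489)
 (.a 0 [334,458] (.q 394 (.a 1 [] (.d 301 3342 270 3373 425)
 (.a 1 [270] (.d 425 3373 301 3404 456)
 (.a 0 [301,425] (.q 395 (.a 1 [] (.d 393 392 392 393 397)
 (.a 1 [392] (.d 397 393 393 394 398)
 (.a 1 [393] (.d 331 1323 299 1355 459)
 .e))))
 .e))))
 .e))))
 .e))))
 (.a 1 [361] (.d 366 362 362 363 367)
 .e)))))
 (.a 1 [234] (.q 365 (.a 1 [] (.d 362 361 361 362 366)
 (.a 1 [362] (.q 332 (.a 1 [] (.d 300 1292 268 1324 428)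
 (.a 1 [268] (.d 428 1324 300 1356 460)
 (.a 0 [300,428] (.q 427 (.a 1 [] (.d 334 3375 303 3406 458)
 (.a 1 [303] (.d 458 3406 334 3437 489)
 (.a 0 [334,458] (.q 394 (.a 1 [] (.d 301 3342 270 3373 425)
 (.a 1 [270] (.d 425 3373 301 3404 456)
 (.a 0 [301,425] (.q 395 (.a 1 [] (.d 393 392 392 393 397)
 (.a 1 [392] (.d 397 393 393 394 398)
 (.a 1 [393] (.d 331 1323 299 1355 459)
 .e))))
 .e))))
 .e))))
 .e))))
 (.a 1 [366] (.q 427 (.a 1 [] (.d 334 3375 303 3406 458)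
 (.a 1 [303] (.d 458 3406 334 3437 489)
 (.a 0 [334,458] (.q 460 (.a 1 [] (.d 428 1356 332 1388 492)
 (.a 1 [332] (.r 361 361 362 (.d 394 2376 328 2409 493))
 .e)))
 .e))))
 (.a 1 [361] (.d 366 362 362 363 367)
 .e)))))
 (.a 1 [238] (.q 365 (.a 1 [] (.d 362 361 361 362 366)
 (.a 1 [362] (.q 427 (.a 1 [] (.d 334 3375 303 3406 458)
 (.a 1 [303] (.d 458 3406 334 3437 489)
 (.a 0 [334,458] (.q 395 (.a 1 [] (.d 331 1323 299 1355 459)
 (.a 1 [299] (.d 459 1355 331 1387 491)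
 (.a 0 [331,459] (.q 300 (.a 1 [] (.d 332 1292 268 1324 428)
 (.a 0 [268,332,428] (.q 333 (.a 1 [] (.d 302 3343 271 3374 426)
 (.a 1 [271] (.d 426 3374 302 3405 457)
 (.a 1 [302] (.r 366 363 367 (.d 399 2315 267 2348 432))
 .e))))
 .e)))
 .e))))
 .e))))
 (.a 1 [366] (.q 332 (.a 1 [] (.d 300 1292 268 1324 428)
 (.a 1 [268] (.d 428 1324 300 1356 460)
 (.a 0 [300,428] (.q 299 (.a 1 [] (.d 266 2281 233 2314 398)
 (.a 1 [233] (.d 398 2314 266 2347 431)
 (.a 0 [266,398] (.q 331 (.a 1 [] (.d 267 1259 235 1291 395)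
 (.a 1 [235] (.d 395 1291 267 1323 427)
 (.a 1 [267] (.r 427 1323 395 (.d 458 3406 334 3437 489))
 (.a 0 [395] (.q 334 (.a 1 [] (.d 333 330 330 331 335)
 (.a 1 [330] (.d 427 3375 303 3406 458)
 .e)))
 .e)))))
 .e))))
 .e))))
 .e))))
 (.a 1 [296] (.q 365 (.a 1 [] (.d 362 361 361 362 366)
 (.a 1 [362] (.q 427 (.a 1 [] (.d 334 3375 303 3406 458)
 (.a 1 [303] (.d 458 3406 334 3437 489)
 (.a 0 [334,458] (.q 395 (.a 1 [] (.d 331 1323 299 1355 459)
 (.a 1 [299] (.d 459 1355 331 1387 491)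
 (.a 0 [331,459] (.q 300 (.a 1 [] (.d 332 1292 268 1324 428)
 (.a 0 [268,332,428] (.q 333 (.a 1 [] (.d 302 3343 271 3374 426)
 (.a 1 [271] (.d 426 3374 302 3405 457)
 (.a 1 [302] (.r 366 363 367 (.d 399 2315 267 2348 432))
 .e))))
 .e)))
 .e))))
 .e))))
 (.a 1 [366] (.q 332 (.a 1 [] (.d 300 1292 268 1324 428)
 (.a 1 [268] (.d 428 1324 300 1356 460)
 (.a 0 [300,428] (.q 427 (.a 1 [] (.d 334 3375 303 3406 458)
 (.a 1 [303] (.d 458 3406 334 3437 489)
 (.a 0 [334,458] (.q 394 (.a 1 [] (.d 301 3342 270 3373 425)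
 (.a 1 [270] (.d 425 3373 301 3404 456)
 (.a 1 [301] (.r 361 361 362 (.d 460 2376 328 2409 493))
 .e))))
 .e))))
 .e))))
 .e))))
 (.a 1 [304] (.q 365 (.a 1 [] (.d 362 361 361 362 366)
 (.a 1 [366] (.q 428 (.a 1 [] (.d 332 1324 300 1356 460)
 (.a 1 [300] (.d 460 1356 332 1388 492)
 (.a 0 [332,460] (.q 427 (.a 1 [] (.d 334 3375 303 3406 458)
 (.a 1 [303] (.d 458 3406 334 3437 489)
 (.a 0 [334,458] (.q 395 (.a 1 [] (.d 331 1323 299 1355 459)
 (.a 1 [299] (.d 459 1355 331 1387 491)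
 (.a 1 [331] (.r 362 361 361 (.d 461 2377 329 2410 494))
 .e))))
 .e))))
 .e))))
 (.a 1 [362] (.q 332 (.a 1 [] (.d 300 1292 268 1324 428)
 (.a 1 [268] (.d 428 1324 300 1356 460)
 (.a 0 [300,428] (.q 427 (.a 1 [] (.d 334 3375 303 3406 458)
 (.a 1 [303] (.d 458 3406 334 3437 489)
 (.a 0 [334,458] (.q 299 (.a 1 [] (.d 266 2281 233 2314 398)
 (.a 1 [233] (.d 398 2314 266 2347 431)
 (.a 1 [266] (.r 395 1323 331 (.r 398 2347 431 (.d 397 394 394 395 399)))
 (.a 0 [398] (.q 394 (.a 1 [] (.d 301 3342 270 3373 425)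
 (.a 1 [270] (.d 425 3373 301 3404 456)
 (.a 1 [301] (.r 395 1323 331 (.d 393 392 392 393 397))
 .e))))
 .e)))))
 .e))))
 .e))))
 .e))))
 (.a 1 [329] (.q 332 (.a 1 [] (.d 300 1292 268 1324 428)
 (.a 1 [428] (.q 362 (.a 1 [] (.d 361 360 360 361 365)
 (.a 1 [360] (.d 365 361 361 362 366)
 (.a 0 [361,365] (.r 300 1292 268 (.q 301 (.a 1 [] (.d 270 3311 239 3342 394)
 (.a 1 [239] (.d 394 3342 270 3373 425)
 (.a 0 [270,394] (.q 299 (.a 1 [] (.d 298 297 297 298 302)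
 (.a 1 [297] (.d 302 298 298 299 303)
 (.a 0 [298,302] (.q 331 (.a 1 [] (.d 267 1259 235 1291 395)
 (.a 1 [235] (.d 395 1291 267 1323 427)
 (.a 1 [267] (.d 269 3310 238 3341 393)
 .e))))
 .e))))
 .e)))))
 .e))))
 (.a 1 [300] (.q 365 (.a 1 [] (.d 362 361 361 362 366)
 (.a 1 [361] (.d 366 362 362 363 367)
 (.a 0 [362,366] (.q 398 (.a 1 [] (.d 299 2314 266 2347 431)
 (.a 1 [266] (.d 431 2347 299 2380 464)
 (.a 0 [299,431] (.q 395 (.a 1 [] (.d 397 394 394 395 399)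
 (.a 1 [399] (.r 394 394 397 (.d 425 3373 301 3404 456))
 (.a 0 [394,397] (.q 427 (.a 1 [] (.d 459 1355 331 1387 491)
 (.a 1 [331] (.d 458 3406 334 3437 489)
 .e)))
 .e))))
 .e))))
 .e))))
 .e))))
 (.a 1 [490] (.q 365 (.a 1 [] (.d 362 361 361 362 366)
 (.a 1 [362] (.q 332 (.a 1 [] (.d 300 1292 268 1324 428)
 (.a 1 [268] (.d 428 1324 300 1356 460)
 (.a 0 [300,428] (.q 427 (.a 1 [] (.d 334 3375 303 3406 458)
 (.a 1 [303] (.d 458 3406 334 3437 489)
 (.a 0 [334,458] (.q 394 (.a 1 [] (.d 301 3342 270 3373 425)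
 (.a 1 [270] (.d 425 3373 301 3404 456)
 (.a 0 [301,425] (.q 395 (.a 1 [] (.d 393 392 392 393 397)
 (.a 1 [392] (.d 397 393 393 394 398)
 (.a 1 [393] (.d 331 1323 299 1355 459)
 .e))))
 .e))))
 .e))))
 .e))))
 (.a 1 [366] (.q 428 (.a 1 [] (.d 332 1324 300 1356 460)
 (.a 1 [300] (.d 460 1356 332 1388 492)
 (.a 0 [332,460] (.q 427 (.a 1 [] (.d 334 3375 303 3406 458)
 (.a 1 [303] (.d 458 3406 334 3437 489)
 (.a 0 [334,458] (.q 395 (.a 1 [] (.d 331 1323 299 1355 459)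
 (.a 1 [299] (.d 459 1355 331 1387 491)
 (.a 1 [331] (.r 362 361 361 (.d 461 2377 329 2410 494))
 .e))))
 .e))))
 .e))))
 (.a 1 [361] (.d 366 362 362 363 367)
 .e)))))
 (.a 1 [494] (.q 365 (.a 1 [] (.d 362 361 361 362 366)
 (.a 1 [362] (.q 427 (.a 1 [] (.d 334 3375 303 3406 458)
 (.a 1 [303] (.d 458 3406 334 3437 489)
 (.a 0 [334,458] (.q 395 (.a 1 [] (.d 331 1323 299 1355 459)
 (.a 1 [299] (.d 459 1355 331 1387 491)
 (.a 0 [331,459] (.q 300 (.a 1 [] (.d 332 1292 268 1324 428)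
 (.a 0 [268,332,428] (.q 333 (.a 1 [] (.d 302 3343 271 3374 426)
 (.a 1 [271] (.d 426 3374 302 3405 457)
 (.a 1 [302] (.r 366 363 367 (.d 399 2315 267 2348 432))
 .e))))
 .e)))
 .e))))
 .e))))
 (.a 1 [366] (.q 332 (.a 1 [] (.d 300 1292 268 1324 428)
 (.a 1 [268] (.d 428 1324 300 1356 460)
 (.a 0 [300,428] (.q 427 (.a 1 [] (.d 334 3375 303 3406 458)
 (.a 1 [303] (.d 458 3406 334 3437 489)
 (.a 0 [334,458] (.q 394 (.a 1 [] (.d 301 3342 270 3373 425)
 (.a 1 [270] (.d 425 3373 301 3404 456)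
 (.a 1 [301] (.r 361 361 362 (.d 460 2376 328 2409 493))
 .e))))
 .e))))
 .e))))
 .e))))
 (.a 1 [362] (.q 332 (.a 1 [] (.d 300 1292 268 1324 428)
 (.a 1 [268] (.d 428 1324 300 1356 460)
 (.a 0 [300] (.q 394 (.a 1 [] (.d 301 3342 270 3373 425)
 (.a 1 [270] (.d 425 3373 301 3404 456)
 (.a 0 [301,425] (.r 460 1356 428 (.q 427 (.a 1 [] (.d 361 2376 328 2409 493)
 (.a 1 [328] (.d 493 2409 361 2442 526)
 (.a 0 [361,493] (.q 395 (.a 1 [] (.d 393 392 392 393 397)
 (.a 1 [392] (.d 397 393 393 394 398)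
 (.a 1 [393] (.d 331 1323 299 1355 459)
 .e))))
 .e)))))
 .e))))
 (.a 0 [428] (.q 301 (.a 1 [] (.d 270 3311 239 3342 394)
 (.a 1 [239] (.d 394 3342 270 3373 425)
 (.a 0 [270,394] (.r 268 1292 300 (.q 334 (.a 1 [] (.d 235 2250 202 2283 367)
 (.a 1 [202] (.d 367 2283 235 2316 400)
 (.a 1 [235] (.r 367 2316 400 (.r 365 363 366 (.d 427 3375 303 3406 458)))
 (.a 0 [367] (.q 331 (.a 1 [] (.d 333 330 330 331 335)
 (.a 1 [330] (.r 235 2250 202 (.r 299 1259 267 (.r 427 1323 395 (.d 365 3375 303 3406 458))))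
 .e)))
 .e))))))
 .e))))
 .e)))))
 (.a 1 [460] (.q 365 (.a 1 [] (.d 362 361 361 362 366)
 (.a 1 [361] (.d 366 362 362 363 367)
 (.a 0 [362,366] (.q 427 (.a 1 [] (.d 334 3375 303 3406 458)
 (.a 1 [303] (.d 458 3406 334 3437 489)
 (.a 0 [334,458] (.q 332 (.a 1 [] (.d 300 1292 268 1324 428)
 (.a 0 [268,300,428] (.q 398 (.a 1 [] (.d 299 2314 266 2347 431)
 (.a 1 [266] (.d 431 2347 299 2380 464)
 (.a 1 [431] (.r 299 2314 266 (.r 395 1323 331 (.d 397 394 394 395 399)))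
 (.a 0 [299] (.q 395 (.a 1 [] (.d 397 394 394 395 399)
 (.a 1 [394] (.d 459 1355 331 1387 491)
 .e)))
 .e)))))
 .e)))
 .e))))
 .e))))
 (.a 1 [300] (.q 365 (.a 1 [] (.d 362 361 361 362 366)
 (.a 1 [361] (.d 366 362 362 363 367)
 (.a 0 [362,366] (.q 427 (.a 1 [] (.d 334 3375 303 3406 458)
 (.a 1 [303] (.d 458 3406 334 3437 489)
 (.a 0 [334,458] (.q 460 (.a 1 [] (.d 428 1356 332 1388 492)
 (.a 0 [332,428,492] (.q 394 (.a 1 [] (.d 361 2376 328 2409 493)
 (.a 1 [328] (.d 493 2409 361 2442 526)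
 (.a 0 [361,493] (.q 395 (.a 1 [] (.d 393 392 392 393 397)
 (.a 1 [392] (.d 397 393 393 394 398)
 (.a 1 [393] (.d 331 1323 299 1355 459)
 .e))))
 .e))))
 .e)))
 .e))))
 .e))))
 (.a 1 [361] (.q 332 (.a 1 [] (.d 300 1292 268 1324 428)
 (.a 1 [268] (.d 428 1324 300 1356 460)
 (.a 0 [300,428] (.q 365 (.a 1 [] (.d 366 362 362 363 367)
 (.a 0 [362,366,367] (.q 427 (.a 1 [] (.d 334 3375 303 3406 458)
 (.a 1 [303] (.d 458 3406 334 3437 489)
 (.a 0 [334,458] (.q 398 (.a 1 [] (.d 299 2314 266 2347 431)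
 (.a 1 [266] (.d 431 2347 299 2380 464)
 (.a 1 [431] (.r 299 2314 266 (.r 395 1323 331 (.d 397 394 394 395 399)))
 (.a 0 [299] (.q 395 (.a 1 [] (.d 397 394 394 395 399)
 (.a 1 [394] (.d 459 1355 331 1387 491)
 .e)))
 .e)))))
 .e))))
 .e)))
 .e))))
 (.a 1 [367] (.q 332 (.a 1 [] (.d 300 1292 268 1324 428)
 (.a 1 [268] (.d 428 1324 300 1356 460)
 (.a 0 [300,428] (.q 365 (.a 1 [] (.d 362 361 361 362 366)
 (.a 0 [361,362,366] (.q 427 (.a 1 [] (.d 334 3375 303 3406 458)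
 (.a 1 [303] (.d 458 3406 334 3437 489)
 (.a 0 [334,458] (.q 398 (.a 1 [] (.d 299 2314 266 2347 431)
 (.a 1 [266] (.d 431 2347 299 2380 464)
 (.a 1 [431] (.r 299 2314 266 (.r 395 1323 331 (.d 397 394 394 395 399)))
 (.a 0 [299] (.q 395 (.a 1 [] (.d 397 394 394 395 399)
 (.a 1 [394] (.d 459 1355 331 1387 491)
 .e)))
 .e)))))
 .e))))
 .e)))
 .e))))
 (.a 1 [268] (.q 365 (.a 1 [] (.d 362 361 361 362 366)
 (.a 1 [361] (.d 366 362 362 363 367)
 (.a 0 [362,366] (.q 427 (.a 1 [] (.d 334 3375 303 3406 458)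
 (.a 1 [303] (.d 458 3406 334 3437 489)
 (.a 0 [334,458] (.q 332 (.a 1 [] (.d 428 1324 300 1356 460)
 (.a 0 [300,428,460] (.q 398 (.a 1 [] (.d 299 2314 266 2347 431)
 (.a 1 [266] (.d 431 2347 299 2380 464)
 (.a 1 [431] (.r 299 2314 266 (.r 395 1323 331 (.d 397 394 394 395 399)))
 (.a 0 [299] (.q 395 (.a 1 [] (.d 397 394 394 395 399)
 (.a 1 [394] (.d 459 1355 331 1387 491)
 .e)))
 .e)))))
 .e)))
 .e))))
 .e))))
 (.a 1 [297] (.q 365 (.a 1 [] (.d 362 361 361 362 366)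
 (.a 1 [361] (.d 366 362 362 363 367)
 (.a 0 [362,366] (.q 332 (.a 1 [] (.d 300 1292 268 1324 428)
 (.a 1 [268] (.d 428 1324 300 1356 460)
 (.a 0 [300,428] (.q 427 (.a 1 [] (.d 334 3375 303 3406 458)
 (.a 1 [303] (.d 458 3406 334 3437 489)
 (.a 0 [334,458] (.q 394 (.a 1 [] (.d 301 3342 270 3373 425)
 (.a 1 [270] (.d 425 3373 301 3404 456)
 (.a 0 [301,425] (.q 299 (.a 1 [] (.d 266 2281 233 2314 398)
 (.a 1 [233] (.d 398 2314 266 2347 431)
 (.a 1 [266] (.r 395 1323 331 (.d 398 394 397 2347 431))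
 (.a 1 [398] (.r 395 1323 331 (.d 393 392 392 393 397))
 .e)))))
 .e))))
 .e))))
 .e))))
 .e))))
 (.a 1 [299] (.q 365 (.a 1 [] (.d 362 361 361 362 366)
 (.a 1 [361] (.d 366 362 362 363 367)
 (.a 0 [362,366] (.q 427 (.a 1 [] (.d 334 3375 303 3406 458)
 (.a 1 [303] (.d 458 3406 334 3437 489)
 (.a 0 [334,458] (.q 460 (.a 1 [] (.d 428 1356 332 1388 492)
 (.a 0 [332,428,492] (.q 394 (.a 1 [] (.d 361 2376 328 2409 493)
 (.a 1 [328] (.d 493 2409 361 2442 526)
 (.a 0 [361,493] (.q 395 (.a 1 [] (.d 393 392 392 393 397)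
 (.a 1 [392] (.d 397 393 393 394 398)
 (.a 1 [393] (.d 459 1355 331 1387 491)
 .e))))
 .e))))
 .e)))
 .e))))
 .e))))
 (.a 1 [489] (.q 365 (.a 1 [] (.d 362 361 361 362 366)
 (.a 1 [361] (.d 366 362 362 363 367)
 (.a 0 [362,366] (.q 332 (.a 1 [] (.d 300 1292 268 1324 428)
 (.a 1 [268] (.d 428 1324 300 1356 460)
 (.a 0 [300,428] (.q 299 (.a 1 [] (.d 266 2281 233 2314 398)
 (.a 1 [233] (.d 398 2314 266 2347 431)
 (.a 0 [266,398] (.q 394 (.a 1 [] (.d 301 3342 270 3373 425)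
 (.a 1 [270] (.d 425 3373 301 3404 456)
 (.a 0 [301,425] (.q 427 (.a 1 [] (.d 334 3375 303 3406 458)
 (.a 1 [303] (.r 395 1323 331 (.d 393 392 392 393 397))
 .e)))
 .e))))
 .e))))
 .e))))
 .e))))
 (.a 1 [269] (.q 365 (.a 1 [] (.d 362 361 361 362 366)
 (.a 1 [361] (.d 366 362 362 363 367)
 (.a 0 [362,366] (.q 427 (.a 1 [] (.d 334 3375 303 3406 458)
 (.a 1 [303] (.d 458 3406 334 3437 489)
 (.a 0 [334,458] (.q 460 (.a 1 [] (.d 428 1356 332 1388 492)
 (.a 0 [332,428,492] (.q 394 (.a 1 [] (.d 361 2376 328 2409 493)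
 (.a 1 [328] (.d 493 2409 361 2442 526)
 (.a 0 [361,493] (.q 395 (.a 1 [] (.d 393 392 392 393 397)
 (.a 1 [392] (.d 397 393 393 394 398)
 (.a 1 [393] (.d 331 1323 299 1355 459)
 .e))))
 .e))))
 .e)))
 .e))))
 .e))))
 (.a 1 [424] (.q 365 (.a 1 [] (.d 362 361 361 362 366)
 (.a 1 [361] (.d 366 362 362 363 367)
 (.a 0 [362,366] (.q 427 (.a 1 [] (.d 334 3375 303 3406 458)
 (.a 1 [303] (.d 458 3406 334 3437 489)
 (.a 0 [334,458] (.q 460 (.a 1 [] (.d 428 1356 332 1388 492)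
 (.a 0 [332,428,492] (.q 394 (.a 1 [] (.d 361 2376 328 2409 493)
 (.a 1 [328] (.d 493 2409 361 2442 526)
 (.a 0 [361,493] (.q 395 (.a 1 [] (.d 393 392 392 393 397)
 (.a 1 [392] (.d 397 393 393 394 398)
 (.a 1 [393] (.d 331 1323 299 1355 459)
 .e))))
 .e))))
 .e)))
 .e))))
 .e))))
 (.a 1 [392] (.q 365 (.a 1 [] (.d 362 361 361 362 366)
 (.a 1 [361] (.d 366 362 362 363 367)
 (.a 0 [362,366] (.q 332 (.a 1 [] (.d 300 1292 268 1324 428)
 (.a 1 [268] (.d 428 1324 300 1356 460)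
 (.a 0 [300,428] (.q 427 (.a 1 [] (.d 334 3375 303 3406 458)
 (.a 1 [303] (.d 458 3406 334 3437 489)
 (.a 0 [334,458] (.q 398 (.a 1 [] (.d 299 2314 266 2347 431)
 (.a 1 [266] (.d 431 2347 299 2380 464)
 (.a 1 [431] (.r 299 2314 266 (.r 395 1323 331 (.d 397 394 394 395 399)))
 (.a 0 [299] (.q 395 (.a 1 [] (.d 397 394 394 395 399)
 (.a 1 [394] (.d 459 1355 331 1387 491)
 .e)))
 .e)))))
 .e))))
 .e))))
 .e))))
 .e)))))))))))))))))))))))))))))))))))))))))))))) (by decide +kernel)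

theorem all : RT X2 467 (335 :: 339 :: 343 :: 368 :: 371 :: 374 :: 401 :: 403 :: 405 :: 434 :: 435 :: 436 :: 463 :: 464 :: 465 :: 466 :: 468 :: 469 :: 470 :: 471 :: 498 :: 499 :: 500 :: 529 :: 531 :: 533 :: 560 :: 563 :: 566 :: 591 :: 595 :: 599 :: 329 :: 429 :: []) := ⟨r335, r339, r343, r368, r371, r374, r401, r403, r405, r434, r435, r436, r463, r464, r465, r466, r468, r469, r470, r471, r498, r499, r500, r529, r531, r533, r560, r563, r566, r591, r595, r599, r329, r429, trivial⟩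

end Pool.Agent.H94.Five.Mid.K8_3_0
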