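import Pool.Agent.H94.Five.Mid.Fam

set_option autoImplicit false
set_option linter.all false
set_option maxRecDepth 100000

/-! Second has the cell (8, 4): some of the other stones. -/

namespace Pool.Agent.H94.Five.Mid.K8_4_0

open Pool.Agent.H79.Five Pool.Agent.H10.Five Pool.Agent.H94.Five.M

abbrev nl : List Ent := (n0 :: n3 :: n4 :: n6 :: n8 :: n9 :: n10 :: n11 :: n15 :: n16 :: n17 :: n21 :: n22 :: [])

theorem nl_ok : AC XB M0 nl := .cons n0k <| .cons n3k <| .cons n4k <| .cons n6k <| .cons n8k <| .cons n9k <| .cons n10k <| .cons n11k <| .cons n15k <| .cons n16k <| .cons n17k <| .cons n21k <| .cons n22k <| .nil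

abbrev fl : List Ent := (x1 :: x14 :: x25 :: x27 :: x31 :: x32 :: x35 :: x36 :: x45 :: x48 :: x54 :: x60 :: x64 :: x72 :: x73 :: x102 :: x103 :: x104 :: x108 :: x130 :: x141 :: x142 :: x148 :: x161 :: x167 :: x171 :: x174 :: x177 :: x179 :: x185 :: x187 :: x190 :: x195 :: x200 :: x201 :: x204 :: x214 :: x217 :: x223 :: x228 :: x234 :: x235 :: x238 :: x243 :: x245 :: x255 :: x258 :: x260 :: x262 :: x266 :: x268 :: x269 :: x270 :: x276 :: x277 :: x288 :: x292 :: x304 :: x310 :: x313 :: x315 :: x316 :: x318 :: x322 :: x328 :: x332 :: x337 :: x339 :: x341 :: x343 :: x345 :: x351 :: x355 :: x357 :: x362 :: x363 :: x364 :: x371 :: x375 :: x379 :: x383 :: x386 :: x390 :: x392 :: x400 :: x415 :: x419 :: x420 :: x424 :: x426 :: x427 :: x429 :: x434 :: x437 :: x439 :: x444 :: x452 :: x454 :: x455 :: x462 :: x463 :: x472 :: x487 :: x492 :: x493 :: x496 :: x498 :: x500 :: x501 :: x503 :: x507 :: x510 :: x511 :: x513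 :: x518 :: x527 :: [])

theorem fl_ok : AC XB M0 fl := .cons x1k <| .cons x14k <| .cons x25k <| .cons x27k <| .cons x31k <| .cons x32k <| .cons x35k <| .cons x36k <| .cons x45k <| .cons x48k <| .cons x54k <| .cons x60k <| .cons x64k <| .cons x72k <| .cons x73k <| .cons x102k <| .cons x103k <| .cons x104k <| .cons x108k <| .cons x130k <| .cons x141k <| .cons x142k <| .cons x148k <| .cons x161k <| .cons x167k <| .cons x171k <| .cons x174k <| .cons x177k <| .cons x179k <| .cons x185k <| .cons x187k <| .cons x190k <| .cons x195k <| .cons x200k <| .cons x201k <| .cons x204k <| .cons x214k <| .cons x217k <| .cons x223k <| .cons x228k <| .cons x234k <| .cons x235k <| .cons x238k <| .cons x243k <| .cons x245k <| .cons x255k <| .cons x258k <| .cons x260k <| .cons x262k <| .cons x266k <| .cons x268k <| .cons x269k <| .cons x270k <| .cons x276k <| .cons x277k <| .cons x288k <| .cons x292k <| .cons x304k <| .cons x310k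 <| .cons x313k <| .cons x315k <| .cons x316k <| .cons x318k <| .cons x322k <| .cons x328k <| .cons x332k <| .cons x337k <| .cons x339k <| .cons x341k <| .cons x343k <| .cons x345k <| .cons x351k <| .cons x355k <| .cons x357k <| .cons x362k <| .cons x363k <| .cons x364k <| .cons x371k <| .cons x375k <| .cons x379k <| .cons x383k <| .cons x386k <| .cons x390k <| .cons x392k <| .cons x400k <| .cons x415k <| .cons x419k <| .cons x420k <| .cons x424k <| .cons x426k <| .cons x427k <| .cons x429k <| .cons x434k <| .cons x437k <| .cons x439k <| .cons x444k <| .cons x452k <| .cons x454k <| .cons x455k <| .cons x462k <| .cons x463k <| .cons x472k <| .cons x487k <| .cons x492k <| .cons x493k <| .cons x496k <| .cons x498k <| .cons x500k <| .cons x501k <| .cons x503k <| .cons x507k <| .cons x510k <| .cons x511k <| .cons x513k <| .cons x518k <| .cons x527k <| .nil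

theorem b3_1662 : S (PX [] [268,367,499]) := S.of (.q 395 (.a 1 [] (.d 393 392 392 393 397)
 (.a 1 [392] (.d 397 393 393 394 398)
 (.a 0 [393,397] (.q 427 (.a 1 [] (.d 331 1323 299 1355 459)
 (.a 1 [299] (.d 459 1355 331 1387 491)
 (.a 0 [331,459] (.q 330 (.a 1 [] (.d 297 2312 264 2345 429)
 (.a 1 [264] (.d 429 2345 297 2378 462)
 (.a 0 [297,429] (.q 365 (.a 1 [] (.d 334 3375 303 3406 458)
 (.a 1 [303] (.d 458 3406 334 3437 489)
 (.a 1 [334] (.r 458 3437 489 (.r 362 1354 426 (.d 364 361 361 362 366)))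
 (.a 0 [458] (.q 362 (.a 1 [] (.d 364 361 361 362 366)
 (.a 1 [361] (.d 298 1290 266 1322 426)
 .e)))
 .e)))))
 .e))))
 .e))))
 .e)))) (by decide +kernel)

theorem b3_1663 : S (PX [] [365,367,499]) := S.of (.q 395 (.a 1 [] (.d 393 392 392 393 397)
 (.a 1 [392] (.d 397 393 393 394 398)
 (.a 0 [393,397] (.q 429 (.a 1 [] (.d 330 2345 297 2378 462)
 (.a 1 [297] (.d 462 2378 330 2411 495)
 (.a 0 [330,462] (.q 427 (.a 1 [] (.d 331 1323 299 1355 459)
 (.a 1 [299] (.d 459 1355 331 1387 491)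
 (.a 0 [331,459] (.q 332 (.a 1 [] (.d 301 3342 270 3373 425)
 (.a 1 [270] (.d 425 3373 301 3404 456)
 (.a 1 [301] (.r 425 3404 456 (.r 428 425 426 (.d 364 1324 300 1356 460)))
 (.a 0 [425] (.q 428 (.a 1 [] (.d 430 426 426 427 431)
 (.a 1 [426] (.d 364 1324 300 1356 460)
 .e)))
 .e)))))
 .e))))
 .e))))
 .e)))) (by decide +kernel)

theorem b3_1664 : S (PX [] [367,400,499]) := S.of (.q 395 (.a 1 [] (.d 393 392 392 393 397)
 (.a 0 [393] (.q 429 (.a 1 [] (.d 330 2345 297 2378 462)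
 (.a 0 [330] (.r 398 394 397 (.q 427 (.a 1 [] (.d 331 1323 299 1355 459)
 (.a 0 [459] (.r 462 2411 495 (.q 430 (.a 1 [] (.d 428 426 426 427 431)
 (.a 1 [433] (.q 466 (.a 1 [] (.d 428 426 426 427 431)
 (.a 1 [428] (.d 366 1358 334 1390 494)
 (.a 1 [334] (.q 301 (.a 1 [] (.d 428 426 426 427 431)
 (.a 1 [426] (.d 494 1390 366 1422 526)
 .e)))
 (.a 1 [301] (.r 334 1358 366 (.d 428 426 426 427 431))
 .e)))))
 (.a 1 [428] (.d 494 1390 366 1422 526)
 (.a 1 [466] (.q 433 (.a 1 [] (.d 366 1358 334 1390 494)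
 (.a 1 [334] (.d 494 1390 366 1422 526)
 (.a 1 [366] (.d 428 426 426 427 431)
 .e))))
 .e))))))
 (.a 1 [433] (.q 466 (.a 1 [] (.d 331 1323 299 1355 459)
 (.a 1 [331] (.r 491 1387 459 (.r 460 3470 522 (.d 493 2409 361 2442 526)))
 (.a 1 [459] (.q 334 (.a 1 [] (.d 365 3375 303 3406 458)
 (.a 1 [303] (.r 462 2411 495 (.r 430 1358 366 (.d 428 426 426 427 431)))
 .e)))
 (.a 1 [334] (.q 301 (.a 1 [] (.d 331 1323 299 1355 459)
 (.a 1 [299] (.d 459 1355 331 1387 491)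
 (.a 1 [331] (.d 332 3342 270 3373 425)
 .e))))
 .e)))))
 (.a 1 [466] (.q 433 (.a 1 [] (.d 331 1323 299 1355 459)
 (.a 1 [331] (.r 491 1387 459 (.r 460 3470 522 (.d 493 2409 361 2442 526)))
 (.a 1 [459] (.q 332 (.a 1 [] (.d 301 3342 270 3373 425)
 (.a 1 [270] (.d 425 3373 301 3404 456)
 (.a 1 [301] (.r 299 1323 331 (.d 365 2314 266 2347 431))
 .e))))
 .e))))
 (.a 1 [331] (.r 491 1387 459 (.r 460 3470 522 (.d 493 2409 361 2442 526)))
 .e)))))))
 (.a 0 [462] (.r 398 394 397 (.r 330 2345 297 (.q 427 (.a 1 [] (.d 331 1323 299 1355 459)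
 (.a 0 [459] (.q 428 (.a 1 [] (.d 426 425 425 426 430)
 (.a 1 [433] (.q 466 (.a 1 [] (.d 426 425 425 426 430)
 (.a 1 [426] (.r 431 427 430 (.r 299 1323 331 (.r 332 2347 365 (.d 425 3373 301 3404 456))))
 (.a 1 [430] (.r 426 425 425 (.d 362 1322 298 1354 458))
 (.a 1 [425] (.d 430 426 426 427 431)
 (.a 1 [334] (.q 301 (.a 1 [] (.d 430 426 426 427 431)
 (.a 1 [426] (.d 332 3342 270 3373 425)
 .e)))
 (.a 1 [301] (.q 334 (.a 1 [] (.d 426 425 425 426 430)
 (.a 1 [425] (.d 430 426 426 427 431)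
 (.a 1 [426] (.d 365 3375 303 3406 458)
 .e))))
 .e)))))))
 (.a 1 [466] (.q 433 (.a 1 [] (.d 430 426 426 427 431)
 (.a 1 [426] (.r 431 427 430 (.r 299 1323 331 (.r 332 2347 365 (.d 425 3373 301 3404 456))))
 (.a 1 [430] (.r 426 425 425 (.d 362 1322 298 1354 458))
 .e))))
 (.a 1 [426] (.r 431 427 430 (.r 299 1323 331 (.r 332 2347 365 (.d 425 3373 301 3404 456))))
 (.a 1 [430] (.r 426 425 425 (.d 362 1322 298 1354 458))
 (.a 1 [425] (.d 430 426 426 427 431)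
 .e)))))))
 (.a 1 [433] (.q 466 (.a 1 [] (.d 331 1323 299 1355 459)
 (.a 1 [331] (.r 491 1387 459 (.r 460 3470 522 (.d 493 2409 361 2442 526)))
 (.a 1 [459] (.q 334 (.a 1 [] (.d 365 3375 303 3406 458)
 (.a 1 [303] (.r 458 3406 365 (.r 426 1354 362 (.d 428 425 425 426 430)))
 (.a 1 [365] (.r 331 1323 299 (.r 332 330 333 (.d 425 3373 301 3404 456)))
 .e))))
 (.a 1 [334] (.q 301 (.a 1 [] (.d 331 1323 299 1355 459)
 (.a 1 [299] (.d 459 1355 331 1387 491)
 (.a 1 [331] (.d 332 3342 270 3373 425)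
 .e))))
 (.a 1 [301] (.q 334 (.a 1 [] (.d 459 1355 331 1387 491)
 (.a 1 [331] (.d 365 3375 303 3406 458)
 .e)))
 .e))))))
 (.a 1 [466] (.q 433 (.a 1 [] (.d 331 1323 299 1355 459)
 (.a 1 [331] (.r 491 1387 459 (.r 460 3470 522 (.d 493 2409 361 2442 526)))
 (.a 1 [459] (.q 426 (.a 1 [] (.d 428 425 425 426 430)
 (.a 1 [425] (.d 362 1322 298 1354 458)
 .e)))
 .e))))
 (.a 1 [331] (.r 491 1387 459 (.r 460 3470 522 (.d 493 2409 361 2442 526)))
 .e))))))))
 (.a 0 [433] (.q 466 (.a 1 [] (.d 462 2378 330 2411 495)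
 (.a 1 [301] (.q 334 (.a 1 [] (.d 462 2378 330 2411 495)
 (.a 1 [330] (.q 427 (.a 1 [] (.d 331 1323 299 1355 459)
 (.a 1 [299] (.d 459 1355 331 1387 491)
 (.a 1 [331] (.d 365 3375 303 3406 458)
 .e))))
 .e)))
 (.a 1 [330] (.r 397 394 398 (.q 365 (.a 1 [] (.d 333 1325 301 1357 461)
 (.a 1 [334] (.r 301 1325 333 (.d 332 3342 270 3373 425))
 (.a 0 [301,333] (.q 334 (.a 1 [] (.d 303 3344 272 3375 427)
 (.a 1 [272] (.d 427 3375 303 3406 458)
 (.a 1 [303] (.r 427 3406 458 (.d 459 1355 331 1387 491))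
 (.a 0 [427] (.q 362 (.a 1 [] (.d 364 361 361 362 366)
 (.a 1 [361] (.r 461 1389 493 (.d 428 2377 329 2410 494))
 .e)))
 .e)))))
 .e)))))
 (.a 1 [462] (.q 301 (.a 1 [] (.d 332 3342 270 3373 425)
 (.a 0 [270,332,425] (.q 427 (.a 1 [] (.d 331 1323 299 1355 459)
 (.a 1 [299] (.d 459 1355 331 1387 491)
 (.a 1 [331] (.r 397 394 398 (.r 365 1325 333 (.d 458 3406 334 3437 489)))
 .e))))
 .e)))
 (.a 1 [334] (.q 301 (.a 1 [] (.d 330 2345 297 2378 462)
 (.a 1 [297] (.d 462 2378 330 2411 495)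
 (.a 1 [330] (.d 332 3342 270 3373 425)
 .e))))
 .e))))))
 (.a 1 [466] (.q 433 (.a 1 [] (.d 330 2345 297 2378 462)
 (.a 1 [330] (.q 427 (.a 1 [] (.d 331 1323 299 1355 459)
 (.a 1 [299] (.d 459 1355 331 1387 491)
 (.a 0 [331,459] (.q 365 (.a 1 [] (.d 334 3375 303 3406 458)
 (.a 1 [303] (.d 458 3406 334 3437 489)
 (.a 1 [334] (.r 397 394 398 (.d 461 1357 333 1389 493))
 .e))))
 .e))))
 (.a 1 [462] (.q 427 (.a 1 [] (.d 331 1323 299 1355 459)
 (.a 1 [299] (.d 459 1355 331 1387 491)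
 (.a 0 [331,459] (.q 426 (.a 1 [] (.d 428 425 425 426 430)
 (.a 1 [425] (.r 330 2345 297 (.d 362 1322 298 1354 458))
 .e)))
 .e))))
 .e))))
 (.a 1 [297] (.d 462 2378 330 2411 495)
 .e)))))))
 (.a 0 [397] (.q 330 (.a 1 [] (.d 297 2312 264 2345 429)
 (.a 0 [429] (.r 392 392 393 (.q 361 (.a 1 [] (.d 299 3340 268 3371 423)
 (.a 0 [299] (.q 362 (.a 1 [] (.d 360 359 359 360 364)
 (.a 0 [433] (.q 466 (.a 1 [] (.d 360 359 359 360 364)
 (.a 1 [301] (.q 334 (.a 1 [] (.d 360 359 359 360 364)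
 (.a 1 [365] (.q 333 (.a 1 [] (.d 360 359 359 360 364)
 (.a 1 [359] (.d 426 1322 298 1354 458)
 (.a 0 [461] (.q 493 (.a 1 [] (.d 360 359 359 360 364)
 (.a 1 [359] (.d 298 1290 266 1322 426)
 .e)))
 (.a 0 [493] (.q 461 (.a 1 [] (.d 360 359 359 360 364)
 (.a 1 [359] (.d 298 1290 266 1322 426)
 .e)))
 .e)))))
 (.a 1 [364] (.d 298 1290 266 1322 426)
 (.a 1 [333] (.r 365 361 364 (.d 426 1322 298 1354 458))
 .e)))))
 (.a 1 [364] (.d 426 1322 298 1354 458)
 (.a 1 [334] (.q 301 (.a 1 [] (.d 360 359 359 360 364)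
 (.a 1 [359] (.d 364 360 360 361 365)
 (.a 1 [360] (.d 332 3342 270 3373 425)
 .e))))
 .e)))))
 (.a 1 [466] (.q 433 (.a 1 [] (.d 360 359 359 360 364)
 (.a 1 [364] (.d 298 1290 266 1322 426)
 .e)))
 (.a 1 [364] (.d 298 1290 266 1322 426)
 .e)))))
 (.a 0 [433] (.q 466 (.a 1 [] (.d 423 3371 299 3402 454)
 (.a 0 [301] (.q 334 (.a 1 [] (.d 299 3340 268 3371 423)
 (.a 1 [365] (.q 333 (.a 1 [] (.d 299 3340 268 3371 423)
 (.a 1 [493] (.q 461 (.a 1 [] (.d 299 3340 268 3371 423)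
 (.a 1 [299] (.r 331 330 332 (.r 427 1355 459 (.d 328 2343 295 2376 460)))
 .e)))
 (.a 1 [299] (.r 331 330 332 (.r 427 1355 459 (.d 460 2376 328 2409 493)))
 (.a 1 [461] (.q 493 (.a 1 [] (.d 423 3371 299 3402 454)
 (.a 1 [299] (.r 427 2409 460 (.d 331 330 332 1355 459))
 .e)))
 .e)))))
 (.a 1 [299] (.q 365 (.a 1 [] (.d 303 3344 272 3375 427)
 (.a 1 [272] (.d 427 3375 303 3406 458)
 (.a 1 [303] (.r 427 3406 458 (.d 460 2376 328 2409 493))
 (.a 1 [427] (.r 362 361 364 (.d 426 1322 298 1354 458))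
 .e)))))
 .e))))
 (.a 1 [299] (.q 301 (.a 1 [] (.d 332 3342 270 3373 425)
 (.a 0 [270,332,425] (.q 362 (.a 1 [] (.d 360 359 359 360 364)
 (.a 1 [359] (.d 364 360 360 361 365)
 (.a 1 [360] (.d 298 1290 266 1322 426)
 .e))))
 .e)))
 .e))))
 (.a 1 [466] (.q 433 (.a 1 [] (.d 423 3371 299 3402 454)
 (.a 1 [299] (.q 362 (.a 1 [] (.d 360 359 359 360 364)
 (.a 1 [359] (.d 364 360 360 361 365)
 (.a 1 [360] (.d 298 1290 266 1322 426)
 .e))))
 .e)))
 (.a 1 [423] (.r 299 3340 268 (.d 331 1291 267 1323 427))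
 (.a 1 [268] (.d 423 3371 299 3402 454)
 .e))))))))
 (.a 0 [297] (.r 392 392 393 (.q 427 (.a 1 [] (.d 331 1323 299 1355 459)
 (.a 0 [331] (.r 491 1387 459 (.r 429 2378 462 (.q 361 (.a 1 [] (.d 328 2343 295 2376 460)
 (.a 1 [433] (.q 466 (.a 1 [] (.d 328 2343 295 2376 460)
 (.a 1 [460] (.d 423 3371 299 3402 454)
 (.a 1 [301] (.q 334 (.a 1 [] (.d 328 2343 295 2376 460)
 (.a 1 [295] (.d 460 2376 328 2409 493)
 (.a 1 [328] (.d 365 3375 303 3406 458)
 .e))))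
 (.a 1 [334] (.q 301 (.a 1 [] (.d 328 2343 295 2376 460)
 (.a 1 [295] (.d 460 2376 328 2409 493)
 (.a 1 [328] (.d 332 3342 270 3373 425)
 .e))))
 .e)))))
 (.a 1 [466] (.q 433 (.a 1 [] (.d 328 2343 295 2376 460)
 (.a 1 [460] (.d 299 3340 268 3371 423)
 .e)))
 (.a 1 [460] (.d 299 3340 268 3371 423)
 .e)))))))
 (.a 1 [433] (.q 466 (.a 1 [] (.d 459 1355 331 1387 491)
 (.a 1 [331] (.q 425 (.a 1 [] (.d 332 3373 301 3404 456)
 (.a 1 [332] (.r 491 1387 459 (.d 458 2407 359 2440 524))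
 (.a 1 [334] (.r 301 3373 332 (.r 491 1387 459 (.d 458 2407 359 2440 524)))
 (.a 0 [301] (.q 334 (.a 1 [] (.d 456 3404 332 3435 487)
 (.a 1 [332] (.d 365 3375 303 3406 458)
 .e)))
 .e)))))
 (.a 1 [459] (.r 299 1323 331 (.d 361 3340 268 3371 423))
 (.a 1 [301] (.q 334 (.a 1 [] (.d 331 1323 299 1355 459)
 (.a 1 [299] (.d 365 3375 303 3406 458)
 .e)))
 (.a 1 [334] (.q 301 (.a 1 [] (.d 331 1323 299 1355 459)
 (.a 1 [299] (.d 459 1355 331 1387 491)
 (.a 1 [331] (.d 332 3342 270 3373 425)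
 .e))))
 .e))))))
 (.a 1 [466] (.q 433 (.a 1 [] (.d 459 1355 331 1387 491)
 (.a 1 [331] (.q 361 (.a 1 [] (.d 328 2343 295 2376 460)
 (.a 1 [295] (.d 460 2376 328 2409 493)
 (.a 1 [328] (.d 299 3340 268 3371 423)
 .e))))
 .e)))
 (.a 1 [459] (.r 299 1323 331 (.d 361 3340 268 3371 423))
 (.a 1 [299] (.d 459 1355 331 1387 491)
 .e))))))))
 (.a 0 [433] (.q 466 (.a 1 [] (.d 297 2312 264 2345 429)
 (.a 1 [301] (.q 334 (.a 1 [] (.d 297 2312 264 2345 429)
 (.a 1 [429] (.q 365 (.a 1 [] (.d 303 3344 272 3375 427)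
 (.a 1 [272] (.d 427 3375 303 3406 458)
 (.a 1 [303] (.r 427 3406 458 (.d 459 1355 331 1387 491))
 (.a 0 [427] (.q 362 (.a 1 [] (.d 364 361 361 362 366)
 (.a 1 [361] (.d 426 1322 298 1354 458)
 .e)))
 .e)))))
 .e)))
 (.a 1 [429] (.q 301 (.a 1 [] (.d 332 3342 270 3373 425)
 (.a 0 [270,332,425] (.q 299 (.a 1 [] (.d 331 1291 267 1323 427)
 (.a 1 [267] (.r 427 1323 331 (.r 392 392 393 (.d 361 3340 268 3371 423)))
 (.a 1 [331] (.r 392 392 393 (.d 361 3340 268 3371 423))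
 .e))))
 .e)))
 (.a 1 [334] (.q 301 (.a 1 [] (.d 297 2312 264 2345 429)
 (.a 1 [264] (.d 429 2345 297 2378 462)
 (.a 1 [297] (.d 332 3342 270 3373 425)
 .e))))
 .e)))))
 (.a 1 [466] (.q 433 (.a 1 [] (.d 297 2312 264 2345 429)
 (.a 1 [429] (.q 299 (.a 1 [] (.d 331 1291 267 1323 427)
 (.a 1 [267] (.r 427 1323 331 (.r 392 392 393 (.d 361 3340 268 3371 423)))
 (.a 1 [331] (.r 392 392 393 (.d 361 3340 268 3371 423))
 .e))))
 .e)))
 (.a 1 [264] (.d 429 2345 297 2378 462)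
 .e)))))))
 (.a 0 [433] (.q 466 (.a 1 [] (.d 393 392 392 393 397)
 (.a 1 [301] (.q 334 (.a 1 [] (.d 393 392 392 393 397)
 (.a 1 [397] (.q 427 (.a 1 [] (.d 331 1323 299 1355 459)
 (.a 1 [299] (.d 459 1355 331 1387 491)
 (.a 1 [331] (.d 365 3375 303 3406 458)
 .e))))
 .e)))
 (.a 1 [393] (.q 301 (.a 1 [] (.d 332 3342 270 3373 425)
 (.a 0 [270,332,425] (.q 427 (.a 1 [] (.d 331 1323 299 1355 459)
 (.a 1 [299] (.d 459 1355 331 1387 491)
 (.a 0 [331,459] (.q 365 (.a 1 [] (.d 334 3375 303 3406 458)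
 (.a 1 [303] (.d 458 3406 334 3437 489)
 (.a 1 [334] (.r 397 394 398 (.d 333 1293 269 1325 429))
 .e))))
 .e))))
 .e)))
 (.a 1 [397] (.q 301 (.a 1 [] (.d 332 3342 270 3373 425)
 (.a 0 [270,332,425] (.q 427 (.a 1 [] (.d 331 1323 299 1355 459)
 (.a 1 [299] (.d 459 1355 331 1387 491)
 (.a 0 [331,459] (.q 330 (.a 1 [] (.d 297 2312 264 2345 429)
 (.a 1 [264] (.d 429 2345 297 2378 462)
 (.a 0 [297,429] (.q 361 (.a 1 [] (.d 328 2343 295 2376 460)
 (.a 1 [295] (.d 460 2376 328 2409 493)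
 (.a 1 [328] (.r 392 392 393 (.d 423 3371 299 3402 454))
 .e))))
 .e))))
 .e))))
 .e)))
 (.a 1 [334] (.q 301 (.a 1 [] (.d 393 392 392 393 397)
 (.a 1 [392] (.d 397 393 393 394 398)
 (.a 1 [393] (.d 332 3342 270 3373 425)
 .e))))
 .e))))))
 (.a 1 [466] (.q 433 (.a 1 [] (.d 393 392 392 393 397)
 (.a 1 [393] (.q 427 (.a 1 [] (.d 331 1323 299 1355 459)
 (.a 1 [299] (.d 459 1355 331 1387 491)
 (.a 0 [331,459] (.q 460 (.a 1 [] (.d 361 2376 328 2409 493)
 (.a 1 [328] (.d 493 2409 361 2442 526)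
 (.a 0 [361,493] (.q 428 (.a 1 [] (.d 364 1356 332 1388 492)
 (.a 1 [332] (.d 492 1388 364 1420 524)
 (.a 1 [492] (.r 332 1356 364 (.d 425 3373 301 3404 456))
 (.a 0 [364] (.q 429 (.a 1 [] (.d 426 425 425 426 430)
 (.a 1 [425] (.d 430 426 426 427 431)
 (.a 1 [426] (.d 330 2345 297 2378 462)
 .e))))
 .e)))))
 .e))))
 .e))))
 (.a 1 [397] (.q 427 (.a 1 [] (.d 331 1323 299 1355 459)
 (.a 1 [299] (.d 459 1355 331 1387 491)
 (.a 0 [331,459] (.q 429 (.a 1 [] (.d 330 2345 297 2378 462)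
 (.a 1 [297] (.d 462 2378 330 2411 495)
 (.a 0 [330,462] (.q 428 (.a 1 [] (.d 426 425 425 426 430)
 (.a 1 [425] (.d 430 426 426 427 431)
 (.a 1 [430] (.r 425 425 426 (.d 456 3404 332 3435 487))
 (.a 0 [426] (.q 460 (.a 1 [] (.d 364 1356 332 1388 492)
 (.a 1 [332] (.d 492 1388 364 1420 524)
 (.a 1 [364] (.d 361 2376 328 2409 493)
 .e))))
 .e)))))
 .e))))
 .e))))
 .e))))
 (.a 1 [392] (.d 397 393 393 394 398)
 .e))))))) (by decide +kernel)

theorem b3_1665 : S (PX [400] [268,367,433,499]) := S.of (.q 395 (.a 1 [] (.d 393 392 392 393 397)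
 (.a 1 [392] (.d 397 393 393 394 398)
 (.a 0 [393,397] (.q 427 (.a 1 [] (.d 331 1323 299 1355 459)
 (.a 1 [299] (.d 459 1355 331 1387 491)
 (.a 0 [331,459] (.q 429 (.a 1 [] (.d 330 2345 297 2378 462)
 (.a 1 [297] (.d 462 2378 330 2411 495)
 (.a 0 [330,462] (.q 332 (.a 1 [] (.d 301 3342 270 3373 425)
 (.a 1 [270] (.d 425 3373 301 3404 456)
 (.a 1 [301] (.r 425 3404 456 (.r 428 425 426 (.d 364 1324 300 1356 460)))
 (.a 0 [425] (.q 428 (.a 1 [] (.d 430 426 426 427 431)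
 (.a 1 [426] (.d 364 1324 300 1356 460)
 .e)))
 .e)))))
 .e))))
 .e))))
 .e)))) (by decide +kernel)

theorem b3_1666 : S (PX [400] [365,367,433,499]) := S.of (.q 395 (.a 1 [] (.d 393 392 392 393 397)
 (.a 1 [392] (.d 397 393 393 394 398)
 (.a 0 [393,397] (.q 429 (.a 1 [] (.d 330 2345 297 2378 462)
 (.a 1 [297] (.d 462 2378 330 2411 495)
 (.a 0 [330,462] (.q 427 (.a 1 [] (.d 331 1323 299 1355 459)
 (.a 1 [299] (.d 459 1355 331 1387 491)
 (.a 0 [331,459] (.q 332 (.a 1 [] (.d 301 3342 270 3373 425)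
 (.a 1 [270] (.d 425 3373 301 3404 456)
 (.a 1 [301] (.r 425 3404 456 (.r 428 425 426 (.d 364 1324 300 1356 460)))
 (.a 0 [425] (.q 428 (.a 1 [] (.d 430 426 426 427 431)
 (.a 1 [426] (.d 364 1324 300 1356 460)
 .e)))
 .e)))))
 .e))))
 .e))))
 .e)))) (by decide +kernel)

theorem b3_1859 : S (PX [433] [268,367,466,499]) := S.of (.q 395 (.a 1 [] (.d 393 392 392 393 397)
 (.a 1 [392] (.d 397 393 393 394 398)
 (.a 0 [393,397] (.q 427 (.a 1 [] (.d 331 1323 299 1355 459)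
 (.a 1 [299] (.d 459 1355 331 1387 491)
 (.a 0 [331,459] (.q 429 (.a 1 [] (.d 330 2345 297 2378 462)
 (.a 1 [297] (.d 462 2378 330 2411 495)
 (.a 0 [330,462] (.q 332 (.a 1 [] (.d 301 3342 270 3373 425)
 (.a 1 [270] (.d 425 3373 301 3404 456)
 (.a 1 [301] (.r 425 3404 456 (.r 428 425 426 (.d 364 1324 300 1356 460)))
 (.a 0 [425] (.q 428 (.a 1 [] (.d 430 426 426 427 431)
 (.a 1 [426] (.d 364 1324 300 1356 460)
 .e)))
 .e)))))
 .e))))
 .e))))
 .e)))) (by decide +kernel)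

theorem b3_1860 : S (PX [433] [365,367,466,499]) := S.of (.q 395 (.a 1 [] (.d 393 392 392 393 397)
 (.a 1 [392] (.d 397 393 393 394 398)
 (.a 0 [393,397] (.q 429 (.a 1 [] (.d 330 2345 297 2378 462)
 (.a 1 [297] (.d 462 2378 330 2411 495)
 (.a 0 [330,462] (.q 427 (.a 1 [] (.d 331 1323 299 1355 459)
 (.a 1 [299] (.d 459 1355 331 1387 491)
 (.a 0 [331,459] (.q 332 (.a 1 [] (.d 301 3342 270 3373 425)
 (.a 1 [270] (.d 425 3373 301 3404 456)
 (.a 1 [301] (.r 425 3404 456 (.r 428 425 426 (.d 364 1324 300 1356 460)))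
 (.a 0 [425] (.q 428 (.a 1 [] (.d 430 426 426 427 431)
 (.a 1 [426] (.d 364 1324 300 1356 460)
 .e)))
 .e)))))
 .e))))
 .e))))
 .e)))) (by decide +kernel)

theorem b3_1861 : S (PX [] [268,400,499]) := S.of (.q 395 (.a 1 [] (.d 393 392 392 393 397)
 (.a 1 [392] (.d 397 393 393 394 398)
 (.a 0 [393,397] (.q 427 (.a 1 [] (.d 331 1323 299 1355 459)
 (.a 1 [299] (.d 459 1355 331 1387 491)
 (.a 0 [331,459] (.q 330 (.a 1 [] (.d 297 2312 264 2345 429)
 (.a 1 [264] (.d 429 2345 297 2378 462)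
 (.a 0 [297,429] (.q 361 (.a 1 [] (.d 328 2343 295 2376 460)
 (.a 1 [295] (.d 460 2376 328 2409 493)
 (.a 0 [328,460] (.q 362 (.a 1 [] (.d 360 359 359 360 364)
 (.a 1 [359] (.d 364 360 360 361 365)
 (.a 1 [360] (.d 298 1290 266 1322 426)
 .e))))
 .e))))
 .e))))
 .e))))
 .e)))) (by decide +kernel)

theorem b3_1862 : S (PX [] [400,401,499]) := S.of (.q 330 (.a 1 [] (.d 297 2312 264 2345 429)
 (.a 1 [264] (.d 429 2345 297 2378 462)
 (.a 0 [297,429] (.q 362 (.a 1 [] (.d 298 1290 266 1322 426)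
 (.a 1 [266] (.d 426 1322 298 1354 458)
 (.a 0 [298,426] (.q 361 (.a 1 [] (.d 360 359 359 360 364)
 (.a 1 [359] (.d 364 360 360 361 365)
 (.a 0 [360,364] (.q 427 (.a 1 [] (.d 328 2343 295 2376 460)
 (.a 1 [295] (.d 460 2376 328 2409 493)
 (.a 0 [328,460] (.q 395 (.a 1 [] (.d 393 392 392 393 397)
 (.a 1 [392] (.d 397 393 393 394 398)
 (.a 1 [393] (.d 331 1323 299 1355 459)
 .e))))
 .e))))
 .e))))
 .e))))
 .e)))) (by decide +kernel)

theorem b3_1870 : S (PX [367] [400,401,433,499]) := S.of (.q 332 (.a 1 [] (.d 301 3342 270 3373 425)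
 (.a 0 [301] (.q 364 (.a 1 [] (.d 300 1292 268 1324 428)
 (.a 1 [300] (.r 365 363 366 (.r 460 1356 428 (.r 361 361 362 (.d 427 2376 328 2409 493))))
 (.a 1 [428] (.r 365 363 366 (.r 361 361 362 (.r 268 1292 300 (.r 425 3404 456 (.q 427 (.a 1 [] (.d 328 2343 295 2376 460)
 (.a 1 [532] (.q 466 (.a 1 [] (.d 328 2343 295 2376 460)
 (.a 1 [460] (.d 334 3375 303 3406 458)
 .e)))
 (.a 1 [466] (.q 532 (.a 1 [] (.d 328 2343 295 2376 460)
 (.a 1 [460] (.d 458 3406 334 3437 489)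
 .e)))
 (.a 1 [460] (.d 334 3375 303 3406 458)
 .e)))))))))
 (.a 1 [532] (.q 466 (.a 1 [] (.d 428 1324 300 1356 460)
 (.a 1 [300] (.q 330 (.a 1 [] (.d 297 2312 264 2345 429)
 (.a 1 [264] (.d 429 2345 297 2378 462)
 (.a 1 [297] (.r 365 363 366 (.r 362 361 361 (.d 426 1322 298 1354 458)))
 .e))))
 .e)))
 (.a 1 [466] (.q 532 (.a 1 [] (.d 428 1324 300 1356 460)
 (.a 1 [300] (.q 330 (.a 1 [] (.d 297 2312 264 2345 429)
 (.a 1 [264] (.d 429 2345 297 2378 462)
 (.a 1 [297] (.r 365 363 366 (.r 362 361 361 (.d 426 1322 298 1354 458)))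
 .e))))
 .e)))
 .e))))))
 (.a 0 [425] (.r 301 3342 270 (.q 364 (.a 1 [] (.d 300 1292 268 1324 428)
 (.a 1 [532] (.q 466 (.a 1 [] (.d 428 1324 300 1356 460)
 (.a 1 [300] (.q 330 (.a 1 [] (.d 297 2312 264 2345 429)
 (.a 1 [264] (.d 429 2345 297 2378 462)
 (.a 1 [297] (.r 365 363 366 (.r 362 361 361 (.d 426 1322 298 1354 458)))
 .e))))
 .e)))
 (.a 1 [466] (.q 532 (.a 1 [] (.d 428 1324 300 1356 460)
 (.a 1 [300] (.q 330 (.a 1 [] (.d 297 2312 264 2345 429)
 (.a 1 [264] (.d 429 2345 297 2378 462)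
 (.a 1 [297] (.r 365 363 366 (.r 362 361 361 (.d 426 1322 298 1354 458)))
 .e))))
 .e)))
 (.a 1 [300] (.r 365 363 366 (.r 361 361 362 (.r 460 1356 428 (.d 427 2376 328 2409 493))))
 (.a 1 [428] (.r 365 363 366 (.r 268 1292 300 (.r 334 2283 235 (.d 427 3375 303 3406 458))))
 .e)))))))
 (.a 1 [532] (.q 466 (.a 1 [] (.d 301 3342 270 3373 425)
 (.a 1 [301] (.q 364 (.a 1 [] (.d 300 1292 268 1324 428)
 (.a 1 [268] (.d 428 1324 300 1356 460)
 (.a 0 [300,428] (.q 330 (.a 1 [] (.d 297 2312 264 2345 429)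
 (.a 1 [264] (.d 429 2345 297 2378 462)
 (.a 1 [297] (.r 365 363 366 (.r 362 361 361 (.d 426 1322 298 1354 458)))
 .e))))
 .e))))
 (.a 1 [425] (.q 364 (.a 1 [] (.d 300 1292 268 1324 428)
 (.a 1 [268] (.d 428 1324 300 1356 460)
 (.a 0 [300,428] (.q 429 (.a 1 [] (.d 330 2345 297 2378 462)
 (.a 1 [297] (.d 462 2378 330 2411 495)
 (.a 1 [330] (.r 365 363 366 (.r 301 3342 270 (.r 397 1325 333 (.d 395 393 393 394 398))))
 .e))))
 .e))))
 .e))))
 (.a 1 [466] (.q 532 (.a 1 [] (.d 301 3342 270 3373 425)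
 (.a 1 [301] (.q 364 (.a 1 [] (.d 300 1292 268 1324 428)
 (.a 1 [268] (.d 428 1324 300 1356 460)
 (.a 0 [300,428] (.q 330 (.a 1 [] (.d 297 2312 264 2345 429)
 (.a 1 [264] (.d 429 2345 297 2378 462)
 (.a 1 [297] (.r 365 363 366 (.r 362 361 361 (.d 426 1322 298 1354 458)))
 .e))))
 .e))))
 (.a 1 [425] (.q 364 (.a 1 [] (.d 300 1292 268 1324 428)
 (.a 1 [268] (.d 428 1324 300 1356 460)
 (.a 0 [300,428] (.q 429 (.a 1 [] (.d 330 2345 297 2378 462)
 (.a 1 [297] (.d 462 2378 330 2411 495)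
 (.a 1 [330] (.r 365 363 366 (.r 301 3342 270 (.r 397 1325 333 (.d 395 393 393 394 398))))
 .e))))
 .e))))
 .e))))
 (.a 1 [270] (.d 425 3373 301 3404 456)
 .e))))))) (by decide +kernel)

theorem b3_1871 : S (PX [367,532] [400,401,433,466,499]) := S.of (.q 429 (.a 1 [] (.d 330 2345 297 2378 462)
 (.a 1 [297] (.d 462 2378 330 2411 495)
 (.a 0 [330,462] (.q 398 (.a 1 [] (.d 336 3377 305 3408 460)
 (.a 1 [305] (.d 460 3408 336 3439 491)
 (.a 0 [336,460] (.q 332 (.a 1 [] (.d 301 3342 270 3373 425)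
 (.a 1 [270] (.d 425 3373 301 3404 456)
 (.a 0 [301,425] (.q 365 (.a 1 [] (.d 299 2314 266 2347 431)
 (.a 1 [266] (.d 431 2347 299 2380 464)
 (.a 1 [299] (.r 364 363 366 (.d 300 1292 268 1324 428))
 .e))))
 .e))))
 .e))))
 .e)))) (by decide +kernel)

theorem b3_1872 : S (PX [367,466] [400,401,433,499,532]) := S.of (.q 429 (.a 1 [] (.d 330 2345 297 2378 462)
 (.a 1 [297] (.d 462 2378 330 2411 495)
 (.a 0 [330,462] (.q 398 (.a 1 [] (.d 336 3377 305 3408 460)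
 (.a 1 [305] (.d 460 3408 336 3439 491)
 (.a 0 [336,460] (.q 332 (.a 1 [] (.d 301 3342 270 3373 425)
 (.a 1 [270] (.d 425 3373 301 3404 456)
 (.a 0 [301,425] (.q 365 (.a 1 [] (.d 299 2314 266 2347 431)
 (.a 1 [266] (.d 431 2347 299 2380 464)
 (.a 1 [299] (.r 364 363 366 (.d 300 1292 268 1324 428))
 .e))))
 .e))))
 .e))))
 .e)))) (by decide +kernel)

theorem b3_2040 : S (PX [367,532] [400,401,466,499,598]) := S.of (.q 330 (.a 1 [] (.d 297 2312 264 2345 429)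
 (.a 1 [264] (.d 429 2345 297 2378 462)
 (.a 0 [297,429] (.q 332 (.a 1 [] (.d 301 3342 270 3373 425)
 (.a 1 [270] (.d 425 3373 301 3404 456)
 (.a 0 [301,425] (.q 364 (.a 1 [] (.d 300 1292 268 1324 428)
 (.a 1 [268] (.d 428 1324 300 1356 460)
 (.a 1 [300] (.r 365 363 366 (.r 362 361 361 (.d 426 1322 298 1354 458)))
 .e))))
 .e))))
 .e)))) (by decide +kernel)

theorem b3_2102 : S (PX [433] [268,400,466,499]) := S.of (.q 395 (.a 1 [] (.d 393 392 392 393 397)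
 (.a 1 [392] (.d 397 393 393 394 398)
 (.a 0 [393,397] (.q 427 (.a 1 [] (.d 331 1323 299 1355 459)
 (.a 1 [299] (.d 459 1355 331 1387 491)
 (.a 0 [331,459] (.q 330 (.a 1 [] (.d 297 2312 264 2345 429)
 (.a 1 [264] (.d 429 2345 297 2378 462)
 (.a 0 [297,429] (.q 361 (.a 1 [] (.d 328 2343 295 2376 460)
 (.a 1 [295] (.d 460 2376 328 2409 493)
 (.a 0 [328,460] (.q 362 (.a 1 [] (.d 360 359 359 360 364)
 (.a 1 [359] (.d 364 360 360 361 365)
 (.a 1 [360] (.d 298 1290 266 1322 426)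
 .e))))
 .e))))
 .e))))
 .e))))
 .e)))) (by decide +kernel)

theorem b3_2103 : S (PX [433] [400,401,466,499]) := S.of (.q 330 (.a 1 [] (.d 297 2312 264 2345 429)
 (.a 1 [264] (.d 429 2345 297 2378 462)
 (.a 0 [297,429] (.q 362 (.a 1 [] (.d 298 1290 266 1322 426)
 (.a 1 [266] (.d 426 1322 298 1354 458)
 (.a 0 [298,426] (.q 361 (.a 1 [] (.d 360 359 359 360 364)
 (.a 1 [359] (.d 364 360 360 361 365)
 (.a 0 [360,364] (.q 427 (.a 1 [] (.d 328 2343 295 2376 460)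
 (.a 1 [295] (.d 460 2376 328 2409 493)
 (.a 0 [328,460] (.q 395 (.a 1 [] (.d 393 392 392 393 397)
 (.a 1 [392] (.d 397 393 393 394 398)
 (.a 1 [393] (.d 331 1323 299 1355 459)
 .e))))
 .e))))
 .e))))
 .e))))
 .e)))) (by decide +kernel)

theorem b3_2125 : S (PX [400,532] [268,367,466,499,598]) := S.of (.q 395 (.a 1 [] (.d 393 392 392 393 397)
 (.a 1 [392] (.d 397 393 393 394 398)
 (.a 0 [393,397] (.q 427 (.a 1 [] (.d 331 1323 299 1355 459)
 (.a 1 [299] (.d 459 1355 331 1387 491)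
 (.a 0 [331,459] (.q 330 (.a 1 [] (.d 297 2312 264 2345 429)
 (.a 1 [264] (.d 429 2345 297 2378 462)
 (.a 0 [297,429] (.q 365 (.a 1 [] (.d 334 3375 303 3406 458)
 (.a 1 [303] (.d 458 3406 334 3437 489)
 (.a 1 [334] (.r 458 3437 489 (.r 362 1354 426 (.d 364 361 361 362 366)))
 (.a 0 [458] (.q 362 (.a 1 [] (.d 364 361 361 362 366)
 (.a 1 [361] (.d 298 1290 266 1322 426)
 .e)))
 .e)))))
 .e))))
 .e))))
 .e)))) (by decide +kernel)

theorem b3_2126 : S (PX [400,532] [365,367,466,499,598]) := S.of (.q 395 (.a 1 [] (.d 393 392 392 393 397)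
 (.a 1 [392] (.d 397 393 393 394 398)
 (.a 0 [393,397] (.q 429 (.a 1 [] (.d 330 2345 297 2378 462)
 (.a 1 [297] (.d 462 2378 330 2411 495)
 (.a 0 [330,462] (.q 427 (.a 1 [] (.d 331 1323 299 1355 459)
 (.a 1 [299] (.d 459 1355 331 1387 491)
 (.a 0 [331,459] (.q 332 (.a 1 [] (.d 301 3342 270 3373 425)
 (.a 1 [270] (.d 425 3373 301 3404 456)
 (.a 1 [301] (.r 425 3404 456 (.r 428 425 426 (.d 364 1324 300 1356 460)))
 (.a 0 [425] (.q 428 (.a 1 [] (.d 430 426 426 427 431)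
 (.a 1 [426] (.d 364 1324 300 1356 460)
 .e)))
 .e)))))
 .e))))
 .e))))
 .e)))) (by decide +kernel)

theorem b3_2137 : S (PX [497] [364,495,496,499]) := S.of (.q 330 (.a 1 [] (.d 297 2312 264 2345 429)
 (.a 1 [264] (.d 429 2345 297 2378 462)
 (.a 0 [297,429] (.q 425 (.a 1 [] (.d 332 3373 301 3404 456)
 (.a 1 [301] (.d 456 3404 332 3435 487)
 (.a 0 [332,456] (.q 426 (.a 1 [] (.d 362 1322 298 1354 458)
 (.a 0 [298,362,458] (.q 427 (.a 1 [] (.d 424 423 423 424 428)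
 (.a 0 [423,424,428] (.q 395 (.a 1 [] (.d 393 392 392 393 397)
 (.a 1 [392] (.d 397 393 393 394 398)
 (.a 1 [393] (.d 331 1323 299 1355 459)
 .e))))
 .e)))
 .e)))
 .e))))
 .e)))) (by decide +kernel)

theorem b3_2138 : S (PX [497] [428,495,496,499]) := S.of (.q 330 (.a 1 [] (.d 297 2312 264 2345 429)
 (.a 1 [264] (.d 429 2345 297 2378 462)
 (.a 0 [297,429] (.q 425 (.a 1 [] (.d 332 3373 301 3404 456)
 (.a 1 [301] (.d 456 3404 332 3435 487)
 (.a 0 [332,456] (.q 393 (.a 1 [] (.d 395 392 392 393 397)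
 (.a 0 [392,395,397] (.q 361 (.a 1 [] (.d 457 1353 329 1385 489)
 (.a 0 [329,457,489] (.q 362 (.a 1 [] (.d 360 359 359 360 364)
 (.a 1 [359] (.d 364 360 360 361 365)
 (.a 1 [360] (.d 298 1290 266 1322 426)
 .e))))
 .e)))
 .e)))
 .e))))
 .e)))) (by decide +kernel)

theorem b3_2139 : S (PX [493,497] [332,492,495,496,499]) := S.of (.q 395 (.a 1 [] (.d 393 392 392 393 397)
 (.a 1 [392] (.d 397 393 393 394 398)
 (.a 0 [393,397] (.q 427 (.a 1 [] (.d 331 1323 299 1355 459)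
 (.a 1 [299] (.d 459 1355 331 1387 491)
 (.a 1 [331] (.d 460 2409 361 2442 526)
 .e))))
 .e)))) (by decide +kernel)

theorem b3_2140 : S (PX [493,497] [393,492,495,496,499]) := S.of (.q 427 (.a 1 [] (.d 460 2409 361 2442 526)
 (.a 0 [361,460,526] (.q 425 (.a 1 [] (.d 332 3373 301 3404 456)
 (.a 1 [301] (.d 456 3404 332 3435 487)
 (.a 0 [332,456] (.q 458 (.a 1 [] (.d 365 3406 334 3437 489)
 (.a 1 [334] (.d 489 3437 365 3468 520)
 (.a 0 [365,489] (.q 426 (.a 1 [] (.d 424 423 423 424 428)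
 (.a 1 [423] (.d 428 424 424 425 429)
 (.a 1 [424] (.d 362 1354 330 1386 490)
 .e))))
 .e))))
 .e))))
 .e))) (by decide +kernel)

theorem b3_2141 : S (PX [493,497] [425,492,495,496,499]) := S.of (.q 427 (.a 1 [] (.d 460 2409 361 2442 526)
 (.a 0 [361,460,526] (.q 395 (.a 1 [] (.d 393 392 392 393 397)
 (.a 1 [392] (.d 397 393 393 394 398)
 (.a 1 [393] (.d 331 1323 299 1355 459)
 .e))))
 .e))) (by decide +kernel)

theorem b3_2154 : S (PX [494,497] [297,493,495,496,499]) := S.of (.q 395 (.a 1 [] (.d 393 392 392 393 397)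
 (.a 1 [392] (.d 397 393 393 394 398)
 (.a 0 [393,397] (.q 427 (.a 1 [] (.d 331 1323 299 1355 459)
 (.a 1 [299] (.d 459 1355 331 1387 491)
 (.a 0 [331,459] (.q 365 (.a 1 [] (.d 334 3375 303 3406 458)
 (.a 1 [303] (.d 458 3406 334 3437 489)
 (.a 0 [334,458] (.q 332 (.a 1 [] (.d 301 3342 270 3373 425)
 (.a 1 [270] (.d 425 3373 301 3404 456)
 (.a 0 [301,425] (.q 361 (.a 1 [] (.d 328 2343 295 2376 460)
 (.a 1 [295] (.r 364 361 362 (.d 428 1324 300 1356 460))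
 (.a 1 [460] (.r 364 361 362 (.d 300 1292 268 1324 428))
 .e))))
 .e))))
 .e))))
 .e))))
 .e)))) (by decide +kernel)

theorem b3_2155 : S (PX [494,497] [298,493,495,496,499]) := S.of (.q 395 (.a 1 [] (.d 393 392 392 393 397)
 (.a 1 [392] (.d 397 393 393 394 398)
 (.a 0 [393,397] (.q 332 (.a 1 [] (.d 301 3342 270 3373 425)
 (.a 1 [270] (.d 425 3373 301 3404 456)
 (.a 0 [301,425] (.q 428 (.a 1 [] (.d 364 1324 300 1356 460)
 (.a 1 [300] (.d 461 2410 362 2443 527)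
 .e)))
 .e))))
 .e)))) (by decide +kernel)

theorem b3_2156 : S (PX [494,497] [299,493,495,496,499]) := S.of (.q 395 (.a 1 [] (.d 393 392 392 393 397)
 (.a 1 [392] (.d 397 393 393 394 398)
 (.a 0 [393,397] (.q 332 (.a 1 [] (.d 301 3342 270 3373 425)
 (.a 1 [270] (.d 425 3373 301 3404 456)
 (.a 0 [301,425] (.q 428 (.a 1 [] (.d 364 1324 300 1356 460)
 (.a 1 [300] (.d 461 2410 362 2443 527)
 .e)))
 .e))))
 .e)))) (by decide +kernel)

theorem b3_2157 : S (PX [494,497] [300,493,495,496,499]) := S.of (.q 395 (.a 1 [] (.d 393 392 392 393 397)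
 (.a 1 [392] (.d 397 393 393 394 398)
 (.a 0 [393,397] (.q 425 (.a 1 [] (.d 332 3373 301 3404 456)
 (.a 1 [301] (.d 456 3404 332 3435 487)
 (.a 0 [332,456] (.q 429 (.a 1 [] (.d 330 2345 297 2378 462)
 (.a 0 [297,330,462] (.q 427 (.a 1 [] (.d 331 1323 299 1355 459)
 (.a 1 [299] (.d 459 1355 331 1387 491)
 (.a 1 [331] (.r 428 425 426 (.d 461 2410 362 2443 527))
 .e))))
 .e)))
 .e))))
 .e)))) (by decide +kernel)

theorem b3_2158 : S (PX [494,497] [301,493,495,496,499]) := S.of (.q 395 (.a 1 [] (.d 393 392 392 393 397)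
 (.a 1 [392] (.d 397 393 393 394 398)
 (.a 0 [393,397] (.q 427 (.a 1 [] (.d 331 1323 299 1355 459)
 (.a 1 [299] (.d 459 1355 331 1387 491)
 (.a 0 [331,459] (.q 429 (.a 1 [] (.d 330 2345 297 2378 462)
 (.a 0 [297,330,462] (.q 428 (.a 1 [] (.d 426 425 425 426 430)
 (.a 1 [425] (.d 430 426 426 427 431)
 (.a 1 [426] (.d 461 2410 362 2443 527)
 .e))))
 .e)))
 .e))))
 .e)))) (by decide +kernel)

theorem b3_2159 : S (PX [494,497] [302,493,495,496,499]) := S.of (.q 395 (.a 1 [] (.d 393 392 392 393 397)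
 (.a 1 [392] (.d 397 393 393 394 398)
 (.a 0 [393,397] (.q 427 (.a 1 [] (.d 331 1323 299 1355 459)
 (.a 1 [299] (.d 459 1355 331 1387 491)
 (.a 0 [331,459] (.q 365 (.a 1 [] (.d 334 3375 303 3406 458)
 (.a 1 [303] (.d 458 3406 334 3437 489)
 (.a 0 [334,458] (.q 332 (.a 1 [] (.d 301 3342 270 3373 425)
 (.a 1 [270] (.d 425 3373 301 3404 456)
 (.a 0 [301,425] (.q 364 (.a 1 [] (.d 362 361 361 362 366)
 (.a 1 [361] (.d 366 362 362 363 367)
 (.a 1 [362] (.d 300 1292 268 1324 428)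
 .e))))
 .e))))
 .e))))
 .e))))
 .e)))) (by decide +kernel)

theorem b3_2160 : S (PX [494,497] [330,493,495,496,499]) := S.of (.q 395 (.a 1 [] (.d 393 392 392 393 397)
 (.a 1 [392] (.d 397 393 393 394 398)
 (.a 0 [393,397] (.q 427 (.a 1 [] (.d 331 1323 299 1355 459)
 (.a 1 [299] (.d 459 1355 331 1387 491)
 (.a 0 [331,459] (.q 332 (.a 1 [] (.d 301 3342 270 3373 425)
 (.a 1 [270] (.d 425 3373 301 3404 456)
 (.a 0 [301,425] (.q 428 (.a 1 [] (.d 364 1324 300 1356 460)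
 (.a 1 [300] (.d 461 2410 362 2443 527)
 .e)))
 .e))))
 .e))))
 .e)))) (by decide +kernel)

theorem b3_2161 : S (PX [494,497] [332,493,495,496,499]) := S.of (.q 395 (.a 1 [] (.d 393 392 392 393 397)
 (.a 1 [392] (.d 397 393 393 394 398)
 (.a 0 [393,397] (.q 428 (.a 1 [] (.d 461 2410 362 2443 527)
 (.a 0 [362,461,527] (.q 429 (.a 1 [] (.d 330 2345 297 2378 462)
 (.a 0 [297,330,462] (.q 427 (.a 1 [] (.d 426 425 425 426 430)
 (.a 1 [425] (.d 430 426 426 427 431)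
 (.a 1 [426] (.d 331 1323 299 1355 459)
 .e))))
 .e)))
 .e)))
 .e)))) (by decide +kernel)

theorem b3_2162 : S (PX [494,497] [365,493,495,496,499]) := S.of (.q 395 (.a 1 [] (.d 393 392 392 393 397)
 (.a 1 [392] (.d 397 393 393 394 398)
 (.a 0 [393,397] (.q 429 (.a 1 [] (.d 330 2345 297 2378 462)
 (.a 0 [297,330,462] (.q 428 (.a 1 [] (.d 461 2410 362 2443 527)
 (.a 0 [362,461,527] (.q 427 (.a 1 [] (.d 426 425 425 426 430)
 (.a 1 [425] (.d 430 426 426 427 431)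
 (.a 1 [426] (.d 331 1323 299 1355 459)
 .e))))
 .e)))
 .e)))
 .e)))) (by decide +kernel)

theorem b3_2163 : S (PX [494,497] [397,493,495,496,499]) := S.of (.q 332 (.a 1 [] (.d 301 3342 270 3373 425)
 (.a 1 [270] (.d 425 3373 301 3404 456)
 (.a 0 [301,425] (.q 429 (.a 1 [] (.d 330 2345 297 2378 462)
 (.a 0 [297] (.r 462 2378 330 (.q 430 (.a 1 [] (.d 398 1390 366 1422 526)
 (.a 1 [366] (.d 526 1422 398 1454 558)
 (.a 0 [398,526] (.q 428 (.a 1 [] (.d 427 426 426 427 431)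
 (.a 1 [426] (.d 364 1324 300 1356 460)
 .e)))
 .e)))))
 (.a 0 [330] (.q 364 (.a 1 [] (.d 300 1292 268 1324 428)
 (.a 1 [268] (.d 428 1324 300 1356 460)
 (.a 0 [300] (.q 365 (.a 1 [] (.d 362 361 361 362 366)
 (.a 1 [361] (.d 366 362 362 363 367)
 (.a 0 [362,366] (.q 398 (.a 1 [] (.d 299 2314 266 2347 431)
 (.a 1 [266] (.d 431 2347 299 2380 464)
 (.a 1 [299] (.r 460 1356 428 (.d 491 3439 367 3470 522))
 .e))))
 .e))))
 (.a 0 [428] (.q 366 (.a 1 [] (.d 365 362 362 363 367)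
 (.a 0 [362] (.r 365 363 367 (.q 398 (.a 1 [] (.d 299 2314 266 2347 431)
 (.a 1 [266] (.d 431 2347 299 2380 464)
 (.a 1 [299] (.r 430 1390 462 (.r 334 1326 302 (.d 427 3375 303 3406 458)))
 .e)))))
 (.a 0 [365] (.r 300 1292 268 (.q 333 (.a 1 [] (.d 267 2282 234 2315 399)
 (.a 1 [234] (.d 399 2315 267 2348 432)
 (.a 0 [267,399] (.q 334 (.a 1 [] (.d 335 331 331 332 336)
 (.a 0 [331,335,336] (.q 302 (.a 1 [] (.d 270 1262 238 1294 398)
 (.a 1 [238] (.d 398 1294 270 1326 430)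
 (.a 1 [270] (.d 271 3312 240 3343 395)
 .e))))
 .e)))
 .e)))))
 (.a 0 [367] (.r 365 362 362 (.q 398 (.a 1 [] (.d 299 2314 266 2347 431)
 (.a 1 [266] (.d 431 2347 299 2380 464)
 (.a 1 [299] (.r 430 1390 462 (.r 334 1326 302 (.d 427 3375 303 3406 458)))
 .e)))))
 .e)))))
 .e)))))
 (.a 0 [462] (.q 364 (.a 1 [] (.d 300 1292 268 1324 428)
 (.a 1 [268] (.d 428 1324 300 1356 460)
 (.a 0 [300,428] (.q 362 (.a 1 [] (.d 361 360 360 361 365)
 (.a 1 [360] (.d 365 361 361 362 366)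
 (.a 1 [361] (.r 330 2345 297 (.d 426 1322 298 1354 458))
 .e))))
 .e))))
 .e)))))
 .e)))) (by decide +kernel)

theorem b3_2164 : S (PX [494,497] [425,493,495,496,499]) := S.of (.q 395 (.a 1 [] (.d 393 392 392 393 397)
 (.a 1 [392] (.d 397 393 393 394 398)
 (.a 0 [393,397] (.q 427 (.a 1 [] (.d 331 1323 299 1355 459)
 (.a 1 [299] (.d 459 1355 331 1387 491)
 (.a 0 [331] (.q 365 (.a 1 [] (.d 334 3375 303 3406 458)
 (.a 1 [303] (.d 458 3406 334 3437 489)
 (.a 0 [334,458] (.q 361 (.a 1 [] (.d 328 2343 295 2376 460)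
 (.a 1 [295] (.r 364 361 362 (.r 460 2376 328 (.d 428 1356 332 1388 492)))
 (.a 0 [328,460] (.q 330 (.a 1 [] (.d 297 2312 264 2345 429)
 (.a 1 [264] (.d 429 2345 297 2378 462)
 (.a 1 [297] (.r 362 361 364 (.d 298 1290 266 1322 426))
 .e))))
 .e))))
 .e))))
 (.a 0 [459] (.q 428 (.a 1 [] (.d 461 2410 362 2443 527)
 (.a 0 [362,461,527] (.q 429 (.a 1 [] (.d 430 426 426 427 431)
 (.a 1 [426] (.d 330 2345 297 2378 462)
 .e)))
 .e)))
 .e)))))
 .e)))) (by decide +kernel)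

theorem b3_2165 : S (PX [494,497] [426,493,495,496,499]) := S.of (.q 395 (.a 1 [] (.d 393 392 392 393 397)
 (.a 1 [392] (.d 397 393 393 394 398)
 (.a 0 [393,397] (.q 428 (.a 1 [] (.d 461 2410 362 2443 527)
 (.a 0 [362,461,527] (.q 429 (.a 1 [] (.d 330 2345 297 2378 462)
 (.a 0 [297,330,462] (.q 332 (.a 1 [] (.d 364 1324 300 1356 460)
 (.a 1 [300] (.d 425 3373 301 3404 456)
 .e)))
 .e)))
 .e)))
 .e)))) (by decide +kernel)

theorem b3_2166 : S (PX [494,497] [427,493,495,496,499]) := S.of (.q 395 (.a 1 [] (.d 393 392 392 393 397)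
 (.a 1 [392] (.d 397 393 393 394 398)
 (.a 0 [393,397] (.q 428 (.a 1 [] (.d 461 2410 362 2443 527)
 (.a 0 [362,461,527] (.q 429 (.a 1 [] (.d 330 2345 297 2378 462)
 (.a 0 [297,330,462] (.q 332 (.a 1 [] (.d 364 1324 300 1356 460)
 (.a 1 [300] (.d 425 3373 301 3404 456)
 .e)))
 .e)))
 .e)))
 .e)))) (by decide +kernel)

theorem b3_2167 : S (PX [494,497] [428,493,495,496,499]) := S.of (.q 395 (.a 1 [] (.d 393 392 392 393 397)
 (.a 1 [392] (.d 397 393 393 394 398)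
 (.a 0 [393] (.q 427 (.a 1 [] (.d 331 1323 299 1355 459)
 (.a 1 [299] (.d 459 1355 331 1387 491)
 (.a 0 [331,459] (.q 365 (.a 1 [] (.d 334 3375 303 3406 458)
 (.a 1 [303] (.d 458 3406 334 3437 489)
 (.a 1 [334] (.r 398 394 397 (.r 431 2413 464 (.r 332 2347 299 (.d 425 3373 301 3404 456))))
 .e))))
 .e))))
 (.a 0 [397] (.q 425 (.a 1 [] (.d 332 3373 301 3404 456)
 (.a 1 [301] (.d 456 3404 332 3435 487)
 (.a 0 [332,456] (.q 299 (.a 1 [] (.d 331 1291 267 1323 427)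
 (.a 0 [267,331,427] (.q 330 (.a 1 [] (.d 297 2312 264 2345 429)
 (.a 1 [264] (.d 429 2345 297 2378 462)
 (.a 1 [297] (.r 392 392 393 (.d 361 3340 268 3371 423))
 .e))))
 .e)))
 .e))))
 .e))))) (by decide +kernel)

theorem b3_2168 : S (PX [494,497] [429,493,495,496,499]) := S.of (.q 332 (.a 1 [] (.d 301 3342 270 3373 425)
 (.a 1 [270] (.d 425 3373 301 3404 456)
 (.a 0 [301,425] (.q 428 (.a 1 [] (.d 364 1324 300 1356 460)
 (.a 0 [300,364,460] (.q 395 (.a 1 [] (.d 393 392 392 393 397)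
 (.a 1 [392] (.d 397 393 393 394 398)
 (.a 1 [393] (.d 461 2410 362 2443 527)
 .e))))
 .e)))
 .e)))) (by decide +kernel)

theorem b3_2169 : S (PX [494,497] [461,493,495,496,499]) := S.of (.q 395 (.a 1 [] (.d 393 392 392 393 397)
 (.a 1 [392] (.d 397 393 393 394 398)
 (.a 0 [393] (.q 427 (.a 1 [] (.d 331 1323 299 1355 459)
 (.a 1 [299] (.d 459 1355 331 1387 491)
 (.a 0 [331,459] (.q 365 (.a 1 [] (.d 334 3375 303 3406 458)
 (.a 1 [303] (.d 458 3406 334 3437 489)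
 (.a 1 [334] (.r 398 394 397 (.r 431 2413 464 (.r 332 2347 299 (.d 425 3373 301 3404 456))))
 .e))))
 .e))))
 (.a 0 [397] (.q 429 (.a 1 [] (.d 330 2345 297 2378 462)
 (.a 0 [297,330,462] (.q 332 (.a 1 [] (.d 301 3342 270 3373 425)
 (.a 1 [270] (.d 425 3373 301 3404 456)
 (.a 0 [301,425] (.q 299 (.a 1 [] (.d 331 1291 267 1323 427)
 (.a 0 [267,331,427] (.q 365 (.a 1 [] (.d 266 2281 233 2314 398)
 (.a 1 [233] (.d 398 2314 266 2347 431)
 (.a 0 [266,398] (.q 364 (.a 1 [] (.d 362 361 361 362 366)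
 (.a 1 [361] (.d 366 362 362 363 367)
 (.a 1 [362] (.d 300 1292 268 1324 428)
 .e))))
 .e))))
 .e)))
 .e))))
 .e)))
 .e))))) (by decide +kernel)

theorem b3_2170 : S (PX [494,497] [493,495,496,499,549]) := S.of (.q 395 (.a 1 [] (.d 393 392 392 393 397)
 (.a 1 [392] (.d 397 393 393 394 398)
 (.a 0 [393,397] (.q 427 (.a 1 [] (.d 331 1323 299 1355 459)
 (.a 1 [299] (.d 459 1355 331 1387 491)
 (.a 0 [331,459] (.q 365 (.a 1 [] (.d 334 3375 303 3406 458)
 (.a 1 [303] (.d 458 3406 334 3437 489)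
 (.a 0 [334,458] (.q 332 (.a 1 [] (.d 301 3342 270 3373 425)
 (.a 1 [270] (.d 425 3373 301 3404 456)
 (.a 0 [301,425] (.q 364 (.a 1 [] (.d 362 361 361 362 366)
 (.a 1 [361] (.d 366 362 362 363 367)
 (.a 1 [362] (.d 300 1292 268 1324 428)
 .e))))
 .e))))
 .e))))
 .e))))
 .e)))) (by decide +kernel)

theorem b3_2171 : S (PX [492,497] [397,494,495,496,499]) := S.of (.q 330 (.a 1 [] (.d 297 2312 264 2345 429)
 (.a 1 [264] (.d 429 2345 297 2378 462)
 (.a 0 [297,429] (.q 362 (.a 1 [] (.d 298 1290 266 1322 426)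
 (.a 1 [266] (.d 426 1322 298 1354 458)
 (.a 0 [298,426] (.q 364 (.a 1 [] (.d 361 360 360 361 365)
 (.a 1 [360] (.d 365 361 361 362 366)
 (.a 1 [361] (.r 428 1388 460 (.r 332 1324 300 (.d 425 3373 301 3404 456)))
 .e))))
 .e))))
 .e)))) (by decide +kernel)

theorem b8_1016 : S (PX [] [299,395,499]) := S.of (.q 330 (.a 1 [] (.d 297 2312 264 2345 429)
 (.a 0 [297] (.q 425 (.a 1 [] (.d 332 3373 301 3404 456)
 (.a 1 [332] (.r 429 2378 462 (.q 426 (.a 1 [] (.d 362 1322 298 1354 458)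
 (.a 1 [362] (.q 423 (.a 1 [] (.d 427 423 424 425 428)
 (.a 1 [428] (.d 424 422 422 423 427)
 (.a 0 [424,427] (.q 522 (.a 1 [] (.r 456 3435 487 (.d 489 2438 390 2471 555))
 (.a 0 [390,456,487,489,555] (.q 491 (.a 1 [] (.d 460 3470 398 3501 553)
 (.a 1 [398] (.r 458 1418 490 (.d 524 2440 392 2473 557))
 .e)))
 .e)))
 .e))))
 (.a 1 [458] (.r 427 425 428 (.q 361 (.a 1 [] (.d 328 2343 295 2376 460)
 (.a 1 [295] (.d 460 2376 328 2409 493)
 (.a 1 [328] (.r 362 1322 298 (.d 364 360 360 361 365))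
 .e)))))
 (.a 1 [298] (.r 427 425 428 (.r 458 1354 362 (.d 489 3437 365 3468 520)))
 .e))))))
 (.a 1 [456] (.q 426 (.a 1 [] (.d 362 1322 298 1354 458)
 (.a 1 [298] (.r 458 1354 362 (.r 429 2378 462 (.r 427 425 428 (.d 489 3437 365 3468 520))))
 (.a 0 [362,458] (.q 428 (.a 1 [] (.d 429 425 427 2378 462)
 (.a 1 [427] (.r 332 3373 301 (.d 364 1324 300 1356 460))
 .e)))
 .e))))
 (.a 1 [301] (.d 456 3404 332 3435 487)
 .e)))))
 (.a 1 [429] (.q 362 (.a 1 [] (.d 298 1290 266 1322 426)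
 (.a 1 [266] (.d 426 1322 298 1354 458)
 (.a 0 [298,426] (.q 364 (.a 1 [] (.d 361 360 360 361 365)
 (.a 1 [360] (.d 365 361 361 362 366)
 (.a 0 [361,365] (.q 332 (.a 1 [] (.d 300 1292 268 1324 428)
 (.a 1 [268] (.d 428 1324 300 1356 460)
 (.a 1 [300] (.d 301 3342 270 3373 425)
 .e))))
 .e))))
 .e))))
 .e)))) (by decide +kernel)

theorem b8_1044 : S (PX [] [299,301,499]) := S.of (.q 395 (.a 1 [] (.d 393 392 392 393 397)
 (.a 1 [392] (.d 397 393 393 394 398)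
 (.a 0 [393,397] (.q 427 (.a 1 [] (.d 459 1355 331 1387 491)
 (.a 0 [331,459,491] (.q 365 (.a 1 [] (.d 334 3375 303 3406 458)
 (.a 1 [303] (.d 458 3406 334 3437 489)
 (.a 0 [334,458] (.q 460 (.a 1 [] (.d 361 2376 328 2409 493)
 (.a 1 [328] (.d 493 2409 361 2442 526)
 (.a 1 [493] (.r 361 2376 328 (.r 364 361 362 (.d 428 1356 332 1388 492)))
 (.a 0 [361] (.q 364 (.a 1 [] (.d 366 362 362 363 367)
 (.a 1 [362] (.d 428 1356 332 1388 492)
 .e)))
 .e)))))
 .e))))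
 .e)))
 .e)))) (by decide +kernel)

theorem b8_1093 : S (PX [] [266,299,499]) := S.of (.q 332 (.a 1 [] (.d 301 3342 270 3373 425)
 (.a 1 [270] (.d 425 3373 301 3404 456)
 (.a 0 [301,425] (.q 395 (.a 1 [] (.d 393 392 392 393 397)
 (.a 1 [392] (.d 397 393 393 394 398)
 (.a 0 [393,397] (.q 427 (.a 1 [] (.d 459 1355 331 1387 491)
 (.a 0 [331,459,491] (.q 361 (.a 1 [] (.d 328 2343 295 2376 460)
 (.a 1 [295] (.d 460 2376 328 2409 493)
 (.a 1 [328] (.r 460 2409 493 (.r 364 1356 428 (.d 362 360 360 361 365)))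
 (.a 0 [460] (.q 364 (.a 1 [] (.d 362 360 360 361 365)
 (.a 1 [360] (.d 300 1292 268 1324 428)
 .e)))
 .e)))))
 .e)))
 .e))))
 .e)))) (by decide +kernel)

theorem b8_1094 : S (PX [] [268,299,499]) := S.of (.q 330 (.a 1 [] (.d 297 2312 264 2345 429)
 (.a 1 [264] (.d 429 2345 297 2378 462)
 (.a 0 [297,429] (.q 395 (.a 1 [] (.d 393 392 392 393 397)
 (.a 1 [392] (.d 397 393 393 394 398)
 (.a 0 [393,397] (.q 427 (.a 1 [] (.d 459 1355 331 1387 491)
 (.a 0 [331,459,491] (.q 365 (.a 1 [] (.d 334 3375 303 3406 458)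
 (.a 1 [303] (.d 458 3406 334 3437 489)
 (.a 1 [334] (.r 458 3437 489 (.r 362 1354 426 (.d 364 361 361 362 366)))
 (.a 0 [458] (.q 362 (.a 1 [] (.d 364 361 361 362 366)
 (.a 1 [361] (.d 298 1290 266 1322 426)
 .e)))
 .e)))))
 .e)))
 .e))))
 .e)))) (by decide +kernel)

theorem b8_1095 : S (PX [] [295,299,499]) := S.of (.q 332 (.a 1 [] (.d 301 3342 270 3373 425)
 (.a 1 [270] (.d 425 3373 301 3404 456)
 (.a 0 [301,425] (.q 395 (.a 1 [] (.d 393 392 392 393 397)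
 (.a 1 [392] (.d 397 393 393 394 398)
 (.a 0 [393,397] (.q 429 (.a 1 [] (.d 330 2345 297 2378 462)
 (.a 1 [297] (.d 462 2378 330 2411 495)
 (.a 0 [330,462] (.q 427 (.a 1 [] (.d 459 1355 331 1387 491)
 (.a 0 [331,459,491] (.q 428 (.a 1 [] (.d 430 426 426 427 431)
 (.a 1 [426] (.d 364 1324 300 1356 460)
 .e)))
 .e)))
 .e))))
 .e))))
 .e)))) (by decide +kernel)

theorem b8_1096 : S (PX [] [296,299,499]) := S.of (.q 332 (.a 1 [] (.d 301 3342 270 3373 425)
 (.a 1 [270] (.d 425 3373 301 3404 456)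
 (.a 0 [301,425] (.q 395 (.a 1 [] (.d 393 392 392 393 397)
 (.a 1 [392] (.d 397 393 393 394 398)
 (.a 0 [393,397] (.q 427 (.a 1 [] (.d 459 1355 331 1387 491)
 (.a 0 [331,459,491] (.q 361 (.a 1 [] (.d 328 2343 295 2376 460)
 (.a 1 [295] (.d 460 2376 328 2409 493)
 (.a 1 [328] (.r 460 2409 493 (.r 364 1356 428 (.d 362 360 360 361 365)))
 (.a 0 [460] (.q 364 (.a 1 [] (.d 362 360 360 361 365)
 (.a 1 [360] (.d 300 1292 268 1324 428)
 .e)))
 .e)))))
 .e)))
 .e))))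
 .e)))) (by decide +kernel)

theorem b8_1097 : S (PX [] [297,299,499]) := S.of (.q 395 (.a 1 [] (.d 393 392 392 393 397)
 (.a 1 [392] (.d 397 393 393 394 398)
 (.a 0 [393,397] (.q 427 (.a 1 [] (.d 459 1355 331 1387 491)
 (.a 0 [331,459,491] (.q 361 (.a 1 [] (.d 328 2343 295 2376 460)
 (.a 1 [295] (.d 460 2376 328 2409 493)
 (.a 0 [328,460] (.q 458 (.a 1 [] (.d 365 3406 334 3437 489)
 (.a 1 [334] (.d 489 3437 365 3468 520)
 (.a 1 [489] (.r 365 3406 334 (.r 362 361 364 (.d 426 1354 330 1386 490)))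
 (.a 0 [365] (.q 362 (.a 1 [] (.d 360 359 359 360 364)
 (.a 1 [359] (.d 426 1354 330 1386 490)
 .e)))
 .e)))))
 .e))))
 .e)))
 .e)))) (by decide +kernel)

theorem b8_1098 : S (PX [] [298,299,499]) := S.of (.q 429 (.a 1 [] (.d 330 2345 297 2378 462)
 (.a 1 [297] (.d 462 2378 330 2411 495)
 (.a 0 [330,462] (.q 397 (.a 1 [] (.d 395 393 393 394 398)
 (.a 0 [393,395,398] (.q 365 (.a 1 [] (.d 333 1325 301 1357 461)
 (.a 1 [301] (.d 461 1357 333 1389 493)
 (.a 1 [461] (.r 301 1325 333 (.d 332 3342 270 3373 425))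
 (.a 0 [333] (.q 427 (.a 1 [] (.d 334 3375 303 3406 458)
 (.a 1 [303] (.d 458 3406 334 3437 489)
 (.a 1 [334] (.r 493 1389 461 (.d 460 2409 361 2442 526))
 .e))))
 .e)))))
 .e)))
 .e)))) (by decide +kernel)

theorem b8_1099 : S (PX [] [299,300,499]) := S.of (.q 429 (.a 1 [] (.d 330 2345 297 2378 462)
 (.a 1 [297] (.d 462 2378 330 2411 495)
 (.a 0 [330,462] (.q 397 (.a 1 [] (.d 395 393 393 394 398)
 (.a 0 [393,395,398] (.q 365 (.a 1 [] (.d 333 1325 301 1357 461)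
 (.a 1 [301] (.d 461 1357 333 1389 493)
 (.a 1 [461] (.r 301 1325 333 (.d 332 3342 270 3373 425))
 (.a 0 [333] (.q 427 (.a 1 [] (.d 334 3375 303 3406 458)
 (.a 1 [303] (.d 458 3406 334 3437 489)
 (.a 1 [334] (.r 493 1389 461 (.d 460 2409 361 2442 526))
 .e))))
 .e)))))
 .e)))
 .e)))) (by decide +kernel)

theorem b8_1100 : S (PX [] [299,302,499]) := S.of (.q 330 (.a 1 [] (.d 297 2312 264 2345 429)
 (.a 1 [264] (.d 429 2345 297 2378 462)
 (.a 0 [297,429] (.q 395 (.a 1 [] (.d 393 392 392 393 397)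
 (.a 1 [392] (.d 397 393 393 394 398)
 (.a 0 [393,397] (.q 427 (.a 1 [] (.d 459 1355 331 1387 491)
 (.a 0 [331,459,491] (.q 365 (.a 1 [] (.d 334 3375 303 3406 458)
 (.a 1 [303] (.d 458 3406 334 3437 489)
 (.a 1 [334] (.r 458 3437 489 (.r 362 1354 426 (.d 364 361 361 362 366)))
 (.a 0 [458] (.q 362 (.a 1 [] (.d 364 361 361 362 366)
 (.a 1 [361] (.d 298 1290 266 1322 426)
 .e)))
 .e)))))
 .e)))
 .e))))
 .e)))) (by decide +kernel)

theorem b8_1101 : S (PX [] [299,303,499]) := S.of (.q 330 (.a 1 [] (.d 297 2312 264 2345 429)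
 (.a 1 [264] (.d 429 2345 297 2378 462)
 (.a 0 [297,429] (.q 395 (.a 1 [] (.d 393 392 392 393 397)
 (.a 1 [392] (.d 397 393 393 394 398)
 (.a 0 [393,397] (.q 425 (.a 1 [] (.d 332 3373 301 3404 456)
 (.a 1 [301] (.d 456 3404 332 3435 487)
 (.a 0 [332,456] (.q 427 (.a 1 [] (.d 459 1355 331 1387 491)
 (.a 0 [331,459,491] (.q 426 (.a 1 [] (.d 424 423 423 424 428)
 (.a 1 [423] (.d 362 1322 298 1354 458)
 .e)))
 .e)))
 .e))))
 .e))))
 .e)))) (by decide +kernel)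

theorem b8_1102 : S (PX [] [299,329,499]) := S.of (.q 395 (.a 1 [] (.d 393 392 392 393 397)
 (.a 1 [392] (.d 397 393 393 394 398)
 (.a 0 [393,397] (.q 425 (.a 1 [] (.d 332 3373 301 3404 456)
 (.a 1 [301] (.d 456 3404 332 3435 487)
 (.a 0 [332,456] (.q 427 (.a 1 [] (.d 459 1355 331 1387 491)
 (.a 0 [331,459,491] (.q 330 (.a 1 [] (.d 297 2312 264 2345 429)
 (.a 1 [264] (.d 429 2345 297 2378 462)
 (.a 1 [297] (.r 429 2378 462 (.r 426 425 428 (.d 362 1322 298 1354 458)))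
 (.a 0 [429] (.q 426 (.a 1 [] (.d 424 423 423 424 428)
 (.a 1 [423] (.d 362 1322 298 1354 458)
 .e)))
 .e)))))
 .e)))
 .e))))
 .e)))) (by decide +kernel)

theorem b8_1103 : S (PX [] [299,330,499]) := S.of (.q 332 (.a 1 [] (.d 301 3342 270 3373 425)
 (.a 1 [270] (.d 425 3373 301 3404 456)
 (.a 0 [301,425] (.q 395 (.a 1 [] (.d 393 392 392 393 397)
 (.a 1 [392] (.d 397 393 393 394 398)
 (.a 0 [393,397] (.q 427 (.a 1 [] (.d 459 1355 331 1387 491)
 (.a 0 [331,459,491] (.q 361 (.a 1 [] (.d 328 2343 295 2376 460)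
 (.a 1 [295] (.d 460 2376 328 2409 493)
 (.a 1 [328] (.r 460 2409 493 (.r 364 1356 428 (.d 362 360 360 361 365)))
 (.a 0 [460] (.q 364 (.a 1 [] (.d 362 360 360 361 365)
 (.a 1 [360] (.d 300 1292 268 1324 428)
 .e)))
 .e)))))
 .e)))
 .e))))
 .e)))) (by decide +kernel)

theorem b8_1104 : S (PX [] [299,332,499]) := S.of (.q 330 (.a 1 [] (.d 297 2312 264 2345 429)
 (.a 1 [264] (.d 429 2345 297 2378 462)
 (.a 0 [297,429] (.q 395 (.a 1 [] (.d 393 392 392 393 397)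
 (.a 1 [392] (.d 397 393 393 394 398)
 (.a 0 [393,397] (.q 427 (.a 1 [] (.d 459 1355 331 1387 491)
 (.a 0 [331,459,491] (.q 365 (.a 1 [] (.d 334 3375 303 3406 458)
 (.a 1 [303] (.d 458 3406 334 3437 489)
 (.a 1 [334] (.r 458 3437 489 (.r 362 1354 426 (.d 364 361 361 362 366)))
 (.a 0 [458] (.q 362 (.a 1 [] (.d 364 361 361 362 366)
 (.a 1 [361] (.d 298 1290 266 1322 426)
 .e)))
 .e)))))
 .e)))
 .e))))
 .e)))) (by decide +kernel)

theorem b8_1105 : S (PX [] [299,333,499]) := S.of (.q 395 (.a 1 [] (.d 393 392 392 393 397)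
 (.a 1 [392] (.d 397 393 393 394 398)
 (.a 0 [393,397] (.q 429 (.a 1 [] (.d 330 2345 297 2378 462)
 (.a 1 [297] (.d 462 2378 330 2411 495)
 (.a 0 [330,462] (.q 427 (.a 1 [] (.d 459 1355 331 1387 491)
 (.a 0 [331,459,491] (.q 332 (.a 1 [] (.d 301 3342 270 3373 425)
 (.a 1 [270] (.d 425 3373 301 3404 456)
 (.a 1 [301] (.r 425 3404 456 (.r 428 425 426 (.d 364 1324 300 1356 460)))
 (.a 0 [425] (.q 428 (.a 1 [] (.d 430 426 426 427 431)
 (.a 1 [426] (.d 364 1324 300 1356 460)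
 .e)))
 .e)))))
 .e)))
 .e))))
 .e)))) (by decide +kernel)

theorem b8_1106 : S (PX [] [299,361,499]) := S.of (.q 395 (.a 1 [] (.d 393 392 392 393 397)
 (.a 1 [392] (.d 397 393 393 394 398)
 (.a 0 [393,397] (.q 425 (.a 1 [] (.d 332 3373 301 3404 456)
 (.a 1 [301] (.d 456 3404 332 3435 487)
 (.a 0 [332,456] (.q 427 (.a 1 [] (.d 459 1355 331 1387 491)
 (.a 0 [331,459,491] (.q 330 (.a 1 [] (.d 297 2312 264 2345 429)
 (.a 1 [264] (.d 429 2345 297 2378 462)
 (.a 1 [297] (.r 429 2378 462 (.r 426 425 428 (.d 362 1322 298 1354 458)))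
 (.a 0 [429] (.q 426 (.a 1 [] (.d 424 423 423 424 428)
 (.a 1 [423] (.d 362 1322 298 1354 458)
 .e)))
 .e)))))
 .e)))
 .e))))
 .e)))) (by decide +kernel)

theorem b8_1107 : S (PX [] [299,365,499]) := S.of (.q 395 (.a 1 [] (.d 393 392 392 393 397)
 (.a 1 [392] (.d 397 393 393 394 398)
 (.a 0 [393,397] (.q 429 (.a 1 [] (.d 330 2345 297 2378 462)
 (.a 1 [297] (.d 462 2378 330 2411 495)
 (.a 0 [330,462] (.q 427 (.a 1 [] (.d 459 1355 331 1387 491)
 (.a 0 [331,459,491] (.q 332 (.a 1 [] (.d 301 3342 270 3373 425)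
 (.a 1 [270] (.d 425 3373 301 3404 456)
 (.a 1 [301] (.r 425 3404 456 (.r 428 425 426 (.d 364 1324 300 1356 460)))
 (.a 0 [425] (.q 428 (.a 1 [] (.d 430 426 426 427 431)
 (.a 1 [426] (.d 364 1324 300 1356 460)
 .e)))
 .e)))))
 .e)))
 .e))))
 .e)))) (by decide +kernel)

theorem b8_1108 : S (PX [] [299,392,499]) := S.of (.q 330 (.a 1 [] (.d 297 2312 264 2345 429)
 (.a 1 [264] (.d 429 2345 297 2378 462)
 (.a 0 [297,429] (.q 332 (.a 1 [] (.d 301 3342 270 3373 425)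
 (.a 1 [270] (.d 425 3373 301 3404 456)
 (.a 0 [301] (.q 298 (.a 1 [] (.d 362 1290 266 1322 426)
 (.a 0 [266,362,426] (.q 331 (.a 1 [] (.d 329 328 328 329 333)
 (.a 1 [328] (.d 333 329 329 330 334)
 (.a 0 [329,333] (.q 397 (.a 1 [] (.d 395 393 393 394 398)
 (.a 1 [393] (.d 364 2313 265 2346 430)
 .e)))
 .e))))
 .e)))
 (.a 0 [425] (.q 364 (.a 1 [] (.d 300 1292 268 1324 428)
 (.a 1 [268] (.d 428 1324 300 1356 460)
 (.a 0 [300] (.q 298 (.a 1 [] (.d 362 1290 266 1322 426)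
 (.a 1 [266] (.r 362 1322 426 (.d 365 361 361 362 366))
 (.a 1 [426] (.r 362 1290 266 (.d 365 361 361 362 366))
 (.a 0 [362] (.q 331 (.a 1 [] (.d 329 328 328 329 333)
 (.a 1 [328] (.d 333 329 329 330 334)
 (.a 1 [329] (.d 265 2280 232 2313 397)
 .e))))
 .e)))))
 (.a 0 [428] (.q 426 (.a 1 [] (.d 362 1322 298 1354 458)
 (.a 1 [298] (.r 362 1354 458 (.d 365 361 361 362 366))
 (.a 1 [458] (.r 362 1322 298 (.d 365 361 361 362 366))
 (.a 0 [362] (.q 395 (.a 1 [] (.d 397 393 393 394 398)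
 (.a 1 [393] (.d 457 3405 333 3436 488)
 .e)))
 .e)))))
 .e)))))
 .e)))))
 .e)))) (by decide +kernel)

theorem b8_1109 : S (PX [] [299,393,499]) := S.of (.q 330 (.a 1 [] (.d 297 2312 264 2345 429)
 (.a 1 [264] (.d 429 2345 297 2378 462)
 (.a 0 [297] (.q 425 (.a 1 [] (.d 332 3373 301 3404 456)
 (.a 1 [301] (.d 456 3404 332 3435 487)
 (.a 0 [332,456] (.r 429 2378 462 (.q 426 (.a 1 [] (.d 362 1322 298 1354 458)
 (.a 1 [298] (.r 427 425 428 (.r 458 1354 362 (.d 489 3437 365 3468 520)))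
 (.a 0 [362] (.r 427 425 428 (.q 365 (.a 1 [] (.d 334 3375 303 3406 458)
 (.a 1 [303] (.d 458 3406 334 3437 489)
 (.a 0 [334,458] (.q 395 (.a 1 [] (.d 459 1355 331 1387 491)
 (.a 1 [331] (.r 397 394 398 (.d 461 1357 333 1389 493))
 .e)))
 .e)))))
 (.a 0 [458] (.r 427 425 428 (.q 361 (.a 1 [] (.d 328 2343 295 2376 460)
 (.a 1 [295] (.d 460 2376 328 2409 493)
 (.a 1 [328] (.r 362 1322 298 (.d 364 360 360 361 365))
 .e)))))
 .e))))))
 .e))))
 (.a 0 [429] (.q 362 (.a 1 [] (.d 298 1290 266 1322 426)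
 (.a 1 [266] (.d 426 1322 298 1354 458)
 (.a 0 [298,426] (.q 364 (.a 1 [] (.d 361 360 360 361 365)
 (.a 1 [360] (.d 365 361 361 362 366)
 (.a 0 [361,365] (.q 332 (.a 1 [] (.d 300 1292 268 1324 428)
 (.a 1 [268] (.d 428 1324 300 1356 460)
 (.a 1 [300] (.d 301 3342 270 3373 425)
 .e))))
 .e))))
 .e))))
 .e))))) (by decide +kernel)

theorem b8_1110 : S (PX [] [299,397,499]) := S.of (.q 330 (.a 1 [] (.d 297 2312 264 2345 429)
 (.a 1 [264] (.d 429 2345 297 2378 462)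
 (.a 0 [297] (.q 425 (.a 1 [] (.d 332 3373 301 3404 456)
 (.a 1 [301] (.d 456 3404 332 3435 487)
 (.a 0 [332,456] (.q 426 (.a 1 [] (.d 362 1322 298 1354 458)
 (.a 1 [298] (.r 458 1354 362 (.r 429 2378 462 (.r 427 425 428 (.d 489 3437 365 3468 520))))
 (.a 0 [362,458] (.q 427 (.a 1 [] (.d 429 425 428 2378 462)
 (.a 1 [429] (.d 424 423 423 424 428)
 (.a 0 [428] (.q 361 (.a 1 [] (.d 328 2343 295 2376 460)
 (.a 1 [295] (.d 460 2376 328 2409 493)
 (.a 1 [328] (.r 423 423 424 (.r 392 3402 454 (.r 393 392 395 (.d 457 1353 329 1385 489))))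
 .e))))
 .e))))
 .e))))
 .e))))
 (.a 0 [429] (.q 362 (.a 1 [] (.d 298 1290 266 1322 426)
 (.a 1 [266] (.d 426 1322 298 1354 458)
 (.a 0 [298,426] (.q 425 (.a 1 [] (.d 332 3373 301 3404 456)
 (.a 1 [301] (.d 456 3404 332 3435 487)
 (.a 0 [332,456] (.q 361 (.a 1 [] (.d 360 359 359 360 364)
 (.a 1 [359] (.d 364 360 360 361 365)
 (.a 1 [364] (.r 297 2312 264 (.r 393 1321 329 (.r 392 392 395 (.r 359 359 360 (.d 458 2374 326 2407 491)))))
 (.a 0 [360] (.q 427 (.a 1 [] (.d 328 2343 295 2376 460)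
 (.a 1 [295] (.d 460 2376 328 2409 493)
 (.a 1 [328] (.r 365 361 364 (.d 458 3406 334 3437 489))
 .e))))
 .e)))))
 .e))))
 .e))))
 .e))))) (by decide +kernel)

theorem b8_1111 : S (PX [] [299,398,499]) := S.of (.q 332 (.a 1 [] (.d 301 3342 270 3373 425)
 (.a 1 [270] (.d 425 3373 301 3404 456)
 (.a 0 [301,425] (.q 330 (.a 1 [] (.d 297 2312 264 2345 429)
 (.a 1 [264] (.d 429 2345 297 2378 462)
 (.a 0 [297] (.q 300 (.a 1 [] (.d 364 1292 268 1324 428)
 (.a 0 [268,364,428] (.q 331 (.a 1 [] (.d 329 328 328 329 333)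
 (.a 1 [328] (.d 333 329 329 330 334)
 (.a 0 [329,333] (.q 393 (.a 1 [] (.d 395 392 392 393 397)
 (.a 1 [392] (.d 362 3341 269 3372 424)
 .e)))
 .e))))
 .e)))
 (.a 0 [429] (.q 362 (.a 1 [] (.d 298 1290 266 1322 426)
 (.a 1 [266] (.d 426 1322 298 1354 458)
 (.a 0 [298] (.q 300 (.a 1 [] (.d 364 1292 268 1324 428)
 (.a 1 [268] (.r 364 1324 428 (.d 365 361 361 362 366))
 (.a 1 [428] (.r 364 1292 268 (.d 365 361 361 362 366))
 (.a 0 [364] (.q 331 (.a 1 [] (.d 329 328 328 329 333)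
 (.a 1 [328] (.d 333 329 329 330 334)
 (.a 1 [329] (.d 269 3310 238 3341 393)
 .e))))
 .e)))))
 (.a 0 [426] (.q 428 (.a 1 [] (.d 364 1324 300 1356 460)
 (.a 1 [300] (.r 364 1356 460 (.d 365 361 361 362 366))
 (.a 1 [460] (.r 364 1324 300 (.d 365 361 361 362 366))
 (.a 0 [364] (.q 395 (.a 1 [] (.d 393 392 392 393 397)
 (.a 1 [392] (.d 461 2377 329 2410 494)
 .e)))
 .e)))))
 .e)))))
 .e)))))
 .e)))) (by decide +kernel)

theorem b8_1112 : S (PX [] [299,423,499]) := S.of (.q 330 (.a 1 [] (.d 297 2312 264 2345 429)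
 (.a 1 [264] (.d 429 2345 297 2378 462)
 (.a 0 [297,429] (.q 395 (.a 1 [] (.d 393 392 392 393 397)
 (.a 1 [392] (.d 397 393 393 394 398)
 (.a 0 [393,397] (.q 427 (.a 1 [] (.d 459 1355 331 1387 491)
 (.a 0 [331,459,491] (.q 365 (.a 1 [] (.d 334 3375 303 3406 458)
 (.a 1 [303] (.d 458 3406 334 3437 489)
 (.a 1 [334] (.r 458 3437 489 (.r 362 1354 426 (.d 364 361 361 362 366)))
 (.a 0 [458] (.q 362 (.a 1 [] (.d 364 361 361 362 366)
 (.a 1 [361] (.d 298 1290 266 1322 426)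
 .e)))
 .e)))))
 .e)))
 .e))))
 .e)))) (by decide +kernel)

theorem b8_1113 : S (PX [] [299,425,499]) := S.of (.q 395 (.a 1 [] (.d 393 392 392 393 397)
 (.a 1 [392] (.d 397 393 393 394 398)
 (.a 0 [393,397] (.q 427 (.a 1 [] (.d 459 1355 331 1387 491)
 (.a 0 [331,459,491] (.q 361 (.a 1 [] (.d 328 2343 295 2376 460)
 (.a 1 [295] (.d 460 2376 328 2409 493)
 (.a 0 [328,460] (.q 458 (.a 1 [] (.d 365 3406 334 3437 489)
 (.a 1 [334] (.d 489 3437 365 3468 520)
 (.a 1 [489] (.r 365 3406 334 (.r 362 361 364 (.d 426 1354 330 1386 490)))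
 (.a 0 [365] (.q 362 (.a 1 [] (.d 360 359 359 360 364)
 (.a 1 [359] (.d 426 1354 330 1386 490)
 .e)))
 .e)))))
 .e))))
 .e)))
 .e)))) (by decide +kernel)

theorem b8_1114 : S (PX [] [299,431,499]) := S.of (.q 332 (.a 1 [] (.d 301 3342 270 3373 425)
 (.a 1 [270] (.d 425 3373 301 3404 456)
 (.a 0 [301,425] (.q 395 (.a 1 [] (.d 393 392 392 393 397)
 (.a 1 [392] (.d 397 393 393 394 398)
 (.a 0 [393,397] (.q 427 (.a 1 [] (.d 459 1355 331 1387 491)
 (.a 0 [331,459,491] (.q 361 (.a 1 [] (.d 328 2343 295 2376 460)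
 (.a 1 [295] (.d 460 2376 328 2409 493)
 (.a 1 [328] (.r 460 2409 493 (.r 364 1356 428 (.d 362 360 360 361 365)))
 (.a 0 [460] (.q 364 (.a 1 [] (.d 362 360 360 361 365)
 (.a 1 [360] (.d 300 1292 268 1324 428)
 .e)))
 .e)))))
 .e)))
 .e))))
 .e)))) (by decide +kernel)

theorem b8_1115 : S (PX [] [299,457,499]) := S.of (.q 330 (.a 1 [] (.d 297 2312 264 2345 429)
 (.a 1 [264] (.d 429 2345 297 2378 462)
 (.a 0 [297,429] (.q 395 (.a 1 [] (.d 393 392 392 393 397)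
 (.a 1 [392] (.d 397 393 393 394 398)
 (.a 0 [393,397] (.q 425 (.a 1 [] (.d 332 3373 301 3404 456)
 (.a 1 [301] (.d 456 3404 332 3435 487)
 (.a 0 [332,456] (.q 427 (.a 1 [] (.d 459 1355 331 1387 491)
 (.a 0 [331,459,491] (.q 458 (.a 1 [] (.d 365 3406 334 3437 489)
 (.a 1 [334] (.d 489 3437 365 3468 520)
 (.a 1 [365] (.r 426 1354 362 (.d 424 423 423 424 428))
 .e))))
 .e)))
 .e))))
 .e))))
 .e)))) (by decide +kernel)

theorem v3_653 : VW (PX [400] [367,433,499]) := VW.of base nl_ok fl_ok .nil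
  [(466, (.cons 532 565 .nil (.cons 565 532 .nil .nil))), (532, (.cons 466 565 .nil (.cons 565 466 (.cons 598 631 .nil (.cons 631 598 .nil .nil)) .nil))), (565, (.cons 466 532 .nil (.cons 532 466 (.cons 598 631 .nil (.cons 631 598 .nil .nil)) .nil)))]
  [([268], (PX [400] [268,367,433,499])), ([365], (PX [400] [365,367,433,499]))]
  (by decide +kernel) ⟨b3_1665, b3_1666, trivial⟩

theorem v3_667 : VW (PX [433] [367,466,499]) := VW.of base nl_ok fl_ok .nil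
  [(532, (.cons 565 598 .nil (.cons 598 565 .nil .nil))), (565, (.cons 532 598 .nil (.cons 598 532 .nil .nil))), (598, (.cons 532 565 .nil (.cons 565 532 .nil .nil)))]
  [([268], (PX [433] [268,367,466,499])), ([365], (PX [433] [365,367,466,499]))]
  (by decide +kernel) ⟨b3_1859, b3_1860, trivial⟩

theorem w3_668_433 : S (PX [] [367,433,499]) := VW.play 400 (PX [400] [367,433,499]) (by decide +kernel) v3_653

theorem w3_668_466 : S (PX [] [367,466,499]) := VW.play 433 (PX [433] [367,466,499]) (by decide +kernel) v3_667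

theorem v3_668 : VW (PX [] [367,499]) := VW.of base nl_ok fl_ok .nil
  []
  [([268], (PX [] [268,367,499])), ([365], (PX [] [365,367,499])), ([400], (PX [] [367,400,499])), ([433], (PX [] [367,433,499])), ([466], (PX [] [367,466,499]))]
  (by decide +kernel) ⟨b3_1662, b3_1663, b3_1664, w3_668_433, w3_668_466, trivial⟩

theorem v3_669 : VW (PX [] [371,499]) := VW.of base nl_ok fl_ok .nil
  [(403, (.cons 435 467 (.cons 307 339 .nil (.cons 339 307 .nil .nil)) (.cons 467 435 .nil .nil))), (435, (.cons 403 467 (.cons 307 339 .nil (.cons 339 307 .nil .nil)) (.cons 467 403 (.cons 531 563 .nil (.cons 563 531 .nil .nil)) .nil))), (467, (.cons 403 435 .nil (.cons 435 403 (.cons 531 563 .nil (.cons 563 531 .nil .nil)) .nil)))]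
  []
  (by decide +kernel) trivial

theorem v3_670 : VW (PX [] [375,499]) := VW.of base nl_ok fl_ok .nil
  [(406, (.cons 437 468 (.cons 313 344 .nil (.cons 344 313 .nil .nil)) (.cons 468 437 .nil .nil))), (437, (.cons 406 468 (.cons 313 344 .nil (.cons 344 313 .nil .nil)) (.cons 468 406 (.cons 530 561 .nil (.cons 561 530 .nil .nil)) .nil))), (468, (.cons 406 437 .nil (.cons 437 406 (.cons 530 561 .nil (.cons 561 530 .nil .nil)) .nil)))]
  []
  (by decide +kernel) trivial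

theorem v3_671 : VW (PX [367,532] [400,433,466,499]) := VW.of base nl_ok fl_ok .nil
  []
  [([401], (PX [367,532] [400,401,433,466,499]))]
  (by decide +kernel) ⟨b3_1871, trivial⟩

theorem v3_672 : VW (PX [367,466] [400,433,499,532]) := VW.of base nl_ok fl_ok .nil
  [(565, (.cons 598 631 .nil (.cons 631 598 .nil .nil))), (598, (.cons 565 631 .nil (.cons 631 565 .nil .nil))), (631, (.cons 565 598 .nil (.cons 598 565 .nil .nil)))]
  [([401], (PX [367,466] [400,401,433,499,532]))]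
  (by decide +kernel) ⟨b3_1872, trivial⟩

theorem w3_673_466 : S (PX [367] [400,433,466,499]) := VW.play 532 (PX [367,532] [400,433,466,499]) (by decide +kernel) v3_671

theorem w3_673_532 : S (PX [367] [400,433,499,532]) := VW.play 466 (PX [367,466] [400,433,499,532]) (by decide +kernel) v3_672

theorem v3_673 : VW (PX [367] [400,433,499]) := VW.of base nl_ok fl_ok (.cons 466 532 .nil (.cons 532 466 .nil .nil))
  [(565, (.cons 466 532 .nil (.cons 532 466 (.cons 598 631 .nil (.cons 631 598 .nil .nil)) .nil))), (598, (.cons 466 532 .nil (.cons 532 466 (.cons 565 631 .nil (.cons 631 565 .nil .nil)) .nil))), (631, (.cons 466 532 .nil (.cons 532 466 (.cons 565 598 .nil (.cons 598 565 .nil .nil)) .nil)))]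
  [([401], (PX [367] [400,401,433,499])), ([466], (PX [367] [400,433,466,499])), ([532], (PX [367] [400,433,499,532]))]
  (by decide +kernel) ⟨b3_1870, w3_673_466, w3_673_532, trivial⟩

theorem v3_689 : VW (PX [433] [400,466,499]) := VW.of base nl_ok fl_ok .nil
  [(532, (.cons 565 598 .nil (.cons 598 565 .nil .nil))), (565, (.cons 532 598 .nil (.cons 598 532 .nil .nil))), (598, (.cons 532 565 .nil (.cons 565 532 .nil .nil)))]
  [([268], (PX [433] [268,400,466,499])), ([401], (PX [433] [400,401,466,499]))]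
  (by decide +kernel) ⟨b3_2102, b3_2103, trivial⟩

theorem w3_690_433 : S (PX [] [400,433,499]) := VW.play 367 (PX [367] [400,433,499]) (by decide +kernel) v3_673

theorem w3_690_466 : S (PX [] [400,466,499]) := VW.play 433 (PX [433] [400,466,499]) (by decide +kernel) v3_689

theorem v3_690 : VW (PX [] [400,499]) := VW.of base nl_ok fl_ok .nil
  [(532, (.cons 433 466 .nil (.cons 466 433 (.cons 565 598 .nil (.cons 598 565 .nil .nil)) .nil)))]
  [([268], (PX [] [268,400,499])), ([367], (PX [] [367,400,499])), ([401], (PX [] [400,401,499])), ([433], (PX [] [400,433,499])), ([466], (PX [] [400,466,499]))]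
  (by decide +kernel) ⟨b3_1861, b3_1664, b3_1862, w3_690_433, w3_690_466, trivial⟩

theorem v3_172 : VW (PX [467] [403,435,499]) := VW.of base nl_ok fl_ok .nil
  [(307, (.cons 339 371 .nil (.cons 371 339 .nil .nil))), (339, (.cons 307 371 .nil (.cons 371 307 .nil .nil))), (371, (.cons 307 339 .nil (.cons 339 307 .nil .nil)))]
  []
  (by decide +kernel) trivial

theorem v3_455 : VW (PX [435] [403,467,499]) := VW.of base nl_ok fl_ok .nil
  [(531, (.cons 563 595 .nil (.cons 595 563 .nil .nil))), (563, (.cons 531 595 .nil (.cons 595 531 .nil .nil))), (595, (.cons 531 563 .nil (.cons 563 531 .nil .nil)))]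
  []
  (by decide +kernel) trivial

theorem w3_691_435 : S (PX [] [403,435,499]) := VW.play 467 (PX [467] [403,435,499]) (by decide +kernel) v3_172

theorem w3_691_467 : S (PX [] [403,467,499]) := VW.play 435 (PX [435] [403,467,499]) (by decide +kernel) v3_455

theorem v3_691 : VW (PX [] [403,499]) := VW.of base nl_ok fl_ok .nil
  [(371, (.cons 435 467 (.cons 307 339 .nil (.cons 339 307 .nil .nil)) (.cons 467 435 .nil .nil))), (531, (.cons 435 467 .nil (.cons 467 435 (.cons 563 595 .nil (.cons 595 563 .nil .nil)) .nil)))]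
  [([435], (PX [] [403,435,499])), ([467], (PX [] [403,467,499]))]
  (by decide +kernel) ⟨w3_691_435, w3_691_467, trivial⟩

theorem v3_695 : VW (PX [468] [406,437,499]) := VW.of base nl_ok fl_ok .nil
  [(313, (.cons 344 375 .nil (.cons 375 344 .nil .nil))), (344, (.cons 313 375 .nil (.cons 375 313 .nil .nil))), (375, (.cons 313 344 .nil (.cons 344 313 .nil .nil)))]
  []
  (by decide +kernel) trivial

theorem v3_696 : VW (PX [437] [406,468,499]) := VW.of base nl_ok fl_ok .nil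
  [(530, (.cons 561 592 .nil (.cons 592 561 .nil .nil))), (561, (.cons 530 592 .nil (.cons 592 530 .nil .nil))), (592, (.cons 530 561 .nil (.cons 561 530 .nil .nil)))]
  []
  (by decide +kernel) trivial

theorem w3_699_437 : S (PX [] [406,437,499]) := VW.play 468 (PX [468] [406,437,499]) (by decide +kernel) v3_695

theorem w3_699_468 : S (PX [] [406,468,499]) := VW.play 437 (PX [437] [406,468,499]) (by decide +kernel) v3_696

theorem v3_699 : VW (PX [] [406,499]) := VW.of base nl_ok fl_ok .nil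
  [(375, (.cons 437 468 (.cons 313 344 .nil (.cons 344 313 .nil .nil)) (.cons 468 437 .nil .nil))), (530, (.cons 437 468 .nil (.cons 468 437 (.cons 561 592 .nil (.cons 592 561 .nil .nil)) .nil)))]
  [([437], (PX [] [406,437,499])), ([468], (PX [] [406,468,499]))]
  (by decide +kernel) ⟨w3_699_437, w3_699_468, trivial⟩

theorem v3_700 : VW (PX [400,565] [433,466,499,532]) := VW.of base nl_ok fl_ok .nil
  []
  []
  (by decide +kernel) trivial

theorem v3_701 : VW (PX [400,532] [433,466,499,565]) := VW.of base nl_ok fl_ok .nil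
  []
  []
  (by decide +kernel) trivial

theorem w3_702_532 : S (PX [400] [433,466,499,532]) := VW.play 565 (PX [400,565] [433,466,499,532]) (by decide +kernel) v3_700

theorem w3_702_565 : S (PX [400] [433,466,499,565]) := VW.play 532 (PX [400,532] [433,466,499,565]) (by decide +kernel) v3_701

theorem v3_702 : VW (PX [400] [433,466,499]) := VW.of base nl_ok fl_ok (.cons 532 565 .nil (.cons 565 532 .nil .nil))
  [(598, (.cons 532 565 .nil (.cons 565 532 .nil .nil))), (631, (.cons 532 565 .nil (.cons 565 532 .nil .nil))), (664, (.cons 532 565 .nil (.cons 565 532 .nil .nil)))]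
  [([532], (PX [400] [433,466,499,532])), ([565], (PX [400] [433,466,499,565]))]
  (by decide +kernel) ⟨w3_702_532, w3_702_565, trivial⟩

theorem v3_717 : VW (PX [466] [433,499,532]) := VW.of base nl_ok fl_ok .nil
  [(565, (.cons 598 631 .nil (.cons 631 598 .nil .nil))), (598, (.cons 565 631 .nil (.cons 631 565 .nil .nil))), (631, (.cons 565 598 .nil (.cons 598 565 .nil .nil)))]
  []
  (by decide +kernel) trivial

theorem v3_718 : VW (PX [466] [433,499,565]) := VW.of base nl_ok fl_ok .nil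
  [(532, (.cons 598 631 .nil (.cons 631 598 .nil .nil))), (598, (.cons 532 631 .nil (.cons 631 532 (.cons 664 697 .nil (.cons 697 664 .nil .nil)) .nil))), (631, (.cons 532 598 .nil (.cons 598 532 (.cons 664 697 .nil (.cons 697 664 .nil .nil)) .nil)))]
  []
  (by decide +kernel) trivial

theorem w3_724_367 : S (PX [] [367,433,499]) := VW.play 400 (PX [400] [367,433,499]) (by decide +kernel) v3_653

theorem w3_724_400 : S (PX [] [400,433,499]) := VW.play 367 (PX [367] [400,433,499]) (by decide +kernel) v3_673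

theorem w3_724_466 : S (PX [] [433,466,499]) := VW.play 400 (PX [400] [433,466,499]) (by decide +kernel) v3_702

theorem w3_724_532 : S (PX [] [433,499,532]) := VW.play 466 (PX [466] [433,499,532]) (by decide +kernel) v3_717

theorem w3_724_565 : S (PX [] [433,499,565]) := VW.play 466 (PX [466] [433,499,565]) (by decide +kernel) v3_718

theorem v3_724 : VW (PX [] [433,499]) := VW.of base nl_ok fl_ok .nil
  []
  [([367], (PX [] [367,433,499])), ([400], (PX [] [400,433,499])), ([466], (PX [] [433,466,499])), ([532], (PX [] [433,499,532])), ([565], (PX [] [433,499,565]))]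
  (by decide +kernel) ⟨w3_724_367, w3_724_400, w3_724_466, w3_724_532, w3_724_565, trivial⟩

theorem v3_284 : VW (PX [403,563] [435,467,499,531]) := VW.of base nl_ok fl_ok .nil
  []
  []
  (by decide +kernel) trivial

theorem v3_285 : VW (PX [403,531] [435,467,499,563]) := VW.of base nl_ok fl_ok .nil
  []
  []
  (by decide +kernel) trivial

theorem w3_286_531 : S (PX [403] [435,467,499,531]) := VW.play 563 (PX [403,563] [435,467,499,531]) (by decide +kernel) v3_284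

theorem w3_286_563 : S (PX [403] [435,467,499,563]) := VW.play 531 (PX [403,531] [435,467,499,563]) (by decide +kernel) v3_285

theorem v3_286 : VW (PX [403] [435,467,499]) := VW.of base nl_ok fl_ok (.cons 531 563 .nil (.cons 563 531 .nil .nil))
  [(595, (.cons 531 563 .nil (.cons 563 531 .nil .nil))), (627, (.cons 531 563 .nil (.cons 563 531 .nil .nil))), (659, (.cons 531 563 .nil (.cons 563 531 .nil .nil)))]
  [([531], (PX [403] [435,467,499,531])), ([563], (PX [403] [435,467,499,563]))]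
  (by decide +kernel) ⟨w3_286_531, w3_286_563, trivial⟩

theorem v3_330 : VW (PX [467] [435,499,531]) := VW.of base nl_ok fl_ok .nil
  [(563, (.cons 595 627 .nil (.cons 627 595 .nil .nil))), (595, (.cons 563 627 .nil (.cons 627 563 .nil .nil))), (627, (.cons 563 595 .nil (.cons 595 563 .nil .nil)))]
  []
  (by decide +kernel) trivial

theorem w3_333_403 : S (PX [] [403,435,499]) := VW.play 467 (PX [467] [403,435,499]) (by decide +kernel) v3_172

theorem w3_333_467 : S (PX [] [435,467,499]) := VW.play 403 (PX [403] [435,467,499]) (by decide +kernel) v3_286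

theorem w3_333_531 : S (PX [] [435,499,531]) := VW.play 467 (PX [467] [435,499,531]) (by decide +kernel) v3_330

theorem v3_333 : VW (PX [] [435,499]) := VW.of base nl_ok fl_ok .nil
  [(371, (.cons 403 467 (.cons 307 339 .nil (.cons 339 307 .nil .nil)) (.cons 467 403 (.cons 531 563 .nil (.cons 563 531 .nil .nil)) .nil))), (563, (.cons 467 531 (.cons 371 403 .nil (.cons 403 371 .nil .nil)) (.cons 531 467 (.cons 595 627 .nil (.cons 627 595 .nil .nil)) .nil)))]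
  [([403], (PX [] [403,435,499])), ([467], (PX [] [435,467,499])), ([531], (PX [] [435,499,531]))]
  (by decide +kernel) ⟨w3_333_403, w3_333_467, w3_333_531, trivial⟩

theorem v3_725 : VW (PX [406,530] [375,437,468,499]) := VW.of base nl_ok fl_ok .nil
  []
  []
  (by decide +kernel) trivial

theorem v3_692 : VW (PX [375,530] [406,437,468,499]) := VW.of base nl_ok fl_ok .nil
  []
  []
  (by decide +kernel) trivial

theorem w3_726_375 : S (PX [530] [375,437,468,499]) := VW.play 406 (PX [406,530] [375,437,468,499]) (by decide +kernel) v3_725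

theorem w3_726_406 : S (PX [530] [406,437,468,499]) := VW.play 375 (PX [375,530] [406,437,468,499]) (by decide +kernel) v3_692

theorem v3_726 : VW (PX [530] [437,468,499]) := VW.of base nl_ok fl_ok (.cons 375 406 .nil (.cons 406 375 .nil .nil))
  [(282, (.cons 375 406 .nil (.cons 406 375 .nil .nil))), (313, (.cons 375 406 .nil (.cons 406 375 .nil .nil))), (344, (.cons 375 406 .nil (.cons 406 375 .nil .nil)))]
  [([375], (PX [530] [375,437,468,499])), ([406], (PX [530] [406,437,468,499]))]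
  (by decide +kernel) ⟨w3_726_375, w3_726_406, trivial⟩

theorem v3_727 : VW (PX [468] [437,499,530]) := VW.of base nl_ok fl_ok .nil
  [(561, (.cons 592 623 .nil (.cons 623 592 .nil .nil))), (592, (.cons 561 623 .nil (.cons 623 561 .nil .nil))), (623, (.cons 561 592 .nil (.cons 592 561 .nil .nil)))]
  []
  (by decide +kernel) trivial

theorem w3_731_406 : S (PX [] [406,437,499]) := VW.play 468 (PX [468] [406,437,499]) (by decide +kernel) v3_695

theorem w3_731_468 : S (PX [] [437,468,499]) := VW.play 530 (PX [530] [437,468,499]) (by decide +kernel) v3_726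

theorem w3_731_530 : S (PX [] [437,499,530]) := VW.play 468 (PX [468] [437,499,530]) (by decide +kernel) v3_727

theorem v3_731 : VW (PX [] [437,499]) := VW.of base nl_ok fl_ok .nil
  [(375, (.cons 406 468 (.cons 313 344 .nil (.cons 344 313 .nil .nil)) (.cons 468 406 (.cons 530 561 .nil (.cons 561 530 .nil .nil)) .nil))), (561, (.cons 468 530 (.cons 375 406 .nil (.cons 406 375 .nil .nil)) (.cons 530 468 (.cons 592 623 .nil (.cons 623 592 .nil .nil)) .nil)))]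
  [([406], (PX [] [406,437,499])), ([468], (PX [] [437,468,499])), ([530], (PX [] [437,499,530]))]
  (by decide +kernel) ⟨w3_731_406, w3_731_468, w3_731_530, trivial⟩

theorem v3_732 : VW (PX [433,598] [466,499,532,565]) := VW.of base nl_ok fl_ok .nil
  []
  []
  (by decide +kernel) trivial

theorem v3_733 : VW (PX [433,565] [466,499,532,598]) := VW.of base nl_ok fl_ok .nil
  []
  []
  (by decide +kernel) trivial

theorem w3_734_565 : S (PX [433] [466,499,532,565]) := VW.play 598 (PX [433,598] [466,499,532,565]) (by decide +kernel) v3_732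

theorem w3_734_598 : S (PX [433] [466,499,532,598]) := VW.play 565 (PX [433,565] [466,499,532,598]) (by decide +kernel) v3_733

theorem v3_734 : VW (PX [433] [466,499,532]) := VW.of base nl_ok fl_ok (.cons 565 598 .nil (.cons 598 565 .nil .nil))
  [(631, (.cons 565 598 .nil (.cons 598 565 .nil .nil))), (664, (.cons 565 598 .nil (.cons 598 565 .nil .nil))), (697, (.cons 565 598 .nil (.cons 598 565 .nil .nil)))]
  [([565], (PX [433] [466,499,532,565])), ([598], (PX [433] [466,499,532,598]))]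
  (by decide +kernel) ⟨w3_734_565, w3_734_598, trivial⟩

theorem v3_735 : VW (PX [433,532] [466,499,565,598]) := VW.of base nl_ok fl_ok .nil
  [(631, (.cons 664 697 .nil (.cons 697 664 .nil .nil))), (664, (.cons 631 697 .nil (.cons 697 631 .nil .nil))), (697, (.cons 631 664 .nil (.cons 664 631 .nil .nil)))]
  []
  (by decide +kernel) trivial

theorem w3_736_532 : S (PX [433] [466,499,532,565]) := VW.play 598 (PX [433,598] [466,499,532,565]) (by decide +kernel) v3_732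

theorem w3_736_598 : S (PX [433] [466,499,565,598]) := VW.play 532 (PX [433,532] [466,499,565,598]) (by decide +kernel) v3_735

theorem v3_736 : VW (PX [433] [466,499,565]) := VW.of base nl_ok fl_ok (.cons 532 598 .nil (.cons 598 532 .nil .nil))
  [(631, (.cons 532 598 .nil (.cons 598 532 (.cons 664 697 .nil (.cons 697 664 .nil .nil)) .nil))), (664, (.cons 532 598 .nil (.cons 598 532 (.cons 631 697 .nil (.cons 697 631 .nil .nil)) .nil))), (697, (.cons 532 598 .nil (.cons 598 532 (.cons 631 664 .nil (.cons 664 631 .nil .nil)) .nil)))]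
  [([532], (PX [433] [466,499,532,565])), ([598], (PX [433] [466,499,565,598]))]
  (by decide +kernel) ⟨w3_736_532, w3_736_598, trivial⟩

theorem v3_740 : VW (PX [400,532] [367,466,499,598]) := VW.of base nl_ok fl_ok .nil
  []
  [([268], (PX [400,532] [268,367,466,499,598])), ([365], (PX [400,532] [365,367,466,499,598]))]
  (by decide +kernel) ⟨b3_2125, b3_2126, trivial⟩

theorem v3_684 : VW (PX [367,532] [400,466,499,598]) := VW.of base nl_ok fl_ok .nil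
  []
  [([401], (PX [367,532] [400,401,466,499,598]))]
  (by decide +kernel) ⟨b3_2040, trivial⟩

theorem v3_743 : VW (PX [367,532] [433,466,499,598]) := VW.of base nl_ok fl_ok .nil
  []
  []
  (by decide +kernel) trivial

theorem w3_745_367 : S (PX [532] [367,466,499,598]) := VW.play 400 (PX [400,532] [367,466,499,598]) (by decide +kernel) v3_740

theorem w3_745_400 : S (PX [532] [400,466,499,598]) := VW.play 367 (PX [367,532] [400,466,499,598]) (by decide +kernel) v3_684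

theorem w3_745_433 : S (PX [532] [433,466,499,598]) := VW.play 367 (PX [367,532] [433,466,499,598]) (by decide +kernel) v3_743

theorem v3_745 : VW (PX [532] [466,499,598]) := VW.of base nl_ok fl_ok .nil
  []
  [([367], (PX [532] [367,466,499,598])), ([400], (PX [532] [400,466,499,598])), ([433], (PX [532] [433,466,499,598]))]
  (by decide +kernel) ⟨w3_745_367, w3_745_400, w3_745_433, trivial⟩

theorem w3_753_367 : S (PX [] [367,466,499]) := VW.play 433 (PX [433] [367,466,499]) (by decide +kernel) v3_667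

theorem w3_753_400 : S (PX [] [400,466,499]) := VW.play 433 (PX [433] [400,466,499]) (by decide +kernel) v3_689

theorem w3_753_433 : S (PX [] [433,466,499]) := VW.play 400 (PX [400] [433,466,499]) (by decide +kernel) v3_702

theorem w3_753_532 : S (PX [] [466,499,532]) := VW.play 433 (PX [433] [466,499,532]) (by decide +kernel) v3_734

theorem w3_753_565 : S (PX [] [466,499,565]) := VW.play 433 (PX [433] [466,499,565]) (by decide +kernel) v3_736

theorem w3_753_598 : S (PX [] [466,499,598]) := VW.play 532 (PX [532] [466,499,598]) (by decide +kernel) v3_745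

theorem v3_753 : VW (PX [] [466,499]) := VW.of base nl_ok fl_ok .nil
  []
  [([367], (PX [] [367,466,499])), ([400], (PX [] [400,466,499])), ([433], (PX [] [433,466,499])), ([532], (PX [] [466,499,532])), ([565], (PX [] [466,499,565])), ([598], (PX [] [466,499,598]))]
  (by decide +kernel) ⟨w3_753_367, w3_753_400, w3_753_433, w3_753_532, w3_753_565, w3_753_598, trivial⟩

theorem v3_595 : VW (PX [435,595] [467,499,531,563]) := VW.of base nl_ok fl_ok .nil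
  []
  []
  (by decide +kernel) trivial

theorem v3_596 : VW (PX [435,563] [467,499,531,595]) := VW.of base nl_ok fl_ok .nil
  []
  []
  (by decide +kernel) trivial

theorem w3_597_563 : S (PX [435] [467,499,531,563]) := VW.play 595 (PX [435,595] [467,499,531,563]) (by decide +kernel) v3_595

theorem w3_597_595 : S (PX [435] [467,499,531,595]) := VW.play 563 (PX [435,563] [467,499,531,595]) (by decide +kernel) v3_596

theorem v3_597 : VW (PX [435] [467,499,531]) := VW.of base nl_ok fl_ok (.cons 563 595 .nil (.cons 595 563 .nil .nil))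
  [(627, (.cons 563 595 .nil (.cons 595 563 .nil .nil))), (659, (.cons 563 595 .nil (.cons 595 563 .nil .nil))), (691, (.cons 563 595 .nil (.cons 595 563 .nil .nil)))]
  [([563], (PX [435] [467,499,531,563])), ([595], (PX [435] [467,499,531,595]))]
  (by decide +kernel) ⟨w3_597_563, w3_597_595, trivial⟩

theorem v3_602 : VW (PX [531] [467,499,563]) := VW.of base nl_ok fl_ok .nil
  [(371, (.cons 403 435 .nil (.cons 435 403 .nil .nil))), (403, (.cons 371 435 .nil (.cons 435 371 .nil .nil))), (435, (.cons 371 403 .nil (.cons 403 371 .nil .nil)))]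
  []
  (by decide +kernel) trivial

theorem w3_614_403 : S (PX [] [403,467,499]) := VW.play 435 (PX [435] [403,467,499]) (by decide +kernel) v3_455

theorem w3_614_435 : S (PX [] [435,467,499]) := VW.play 403 (PX [403] [435,467,499]) (by decide +kernel) v3_286

theorem w3_614_531 : S (PX [] [467,499,531]) := VW.play 435 (PX [435] [467,499,531]) (by decide +kernel) v3_597

theorem w3_614_563 : S (PX [] [467,499,563]) := VW.play 531 (PX [531] [467,499,563]) (by decide +kernel) v3_602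

theorem v3_614 : VW (PX [] [467,499]) := VW.of base nl_ok fl_ok .nil
  [(371, (.cons 403 435 .nil (.cons 435 403 (.cons 531 563 .nil (.cons 563 531 .nil .nil)) .nil))), (595, (.cons 531 563 (.cons 403 435 .nil (.cons 435 403 .nil .nil)) (.cons 563 531 .nil .nil)))]
  [([403], (PX [] [403,467,499])), ([435], (PX [] [435,467,499])), ([531], (PX [] [467,499,531])), ([563], (PX [] [467,499,563]))]
  (by decide +kernel) ⟨w3_614_403, w3_614_435, w3_614_531, w3_614_563, trivial⟩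

theorem v3_754 : VW (PX [437,561] [406,468,499,530]) := VW.of base nl_ok fl_ok .nil
  []
  []
  (by decide +kernel) trivial

theorem v3_729 : VW (PX [406,561] [437,468,499,530]) := VW.of base nl_ok fl_ok .nil
  []
  []
  (by decide +kernel) trivial

theorem w3_755_406 : S (PX [561] [406,468,499,530]) := VW.play 437 (PX [437,561] [406,468,499,530]) (by decide +kernel) v3_754

theorem w3_755_437 : S (PX [561] [437,468,499,530]) := VW.play 406 (PX [406,561] [437,468,499,530]) (by decide +kernel) v3_729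

theorem v3_755 : VW (PX [561] [468,499,530]) := VW.of base nl_ok fl_ok (.cons 406 437 .nil (.cons 437 406 .nil .nil))
  [(313, (.cons 406 437 .nil (.cons 437 406 .nil .nil))), (344, (.cons 406 437 .nil (.cons 437 406 .nil .nil))), (375, (.cons 406 437 .nil (.cons 437 406 .nil .nil)))]
  [([406], (PX [561] [406,468,499,530])), ([437], (PX [561] [437,468,499,530]))]
  (by decide +kernel) ⟨w3_755_406, w3_755_437, trivial⟩

theorem v3_756 : VW (PX [530] [468,499,561]) := VW.of base nl_ok fl_ok .nil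
  [(375, (.cons 406 437 .nil (.cons 437 406 .nil .nil))), (406, (.cons 375 437 .nil (.cons 437 375 .nil .nil))), (437, (.cons 375 406 .nil (.cons 406 375 .nil .nil)))]
  []
  (by decide +kernel) trivial

theorem w3_772_406 : S (PX [] [406,468,499]) := VW.play 437 (PX [437] [406,468,499]) (by decide +kernel) v3_696

theorem w3_772_437 : S (PX [] [437,468,499]) := VW.play 530 (PX [530] [437,468,499]) (by decide +kernel) v3_726

theorem w3_772_530 : S (PX [] [468,499,530]) := VW.play 561 (PX [561] [468,499,530]) (by decide +kernel) v3_755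

theorem w3_772_561 : S (PX [] [468,499,561]) := VW.play 530 (PX [530] [468,499,561]) (by decide +kernel) v3_756

theorem v3_772 : VW (PX [] [468,499]) := VW.of base nl_ok fl_ok .nil
  [(375, (.cons 406 437 .nil (.cons 437 406 (.cons 530 561 .nil (.cons 561 530 .nil .nil)) .nil))), (592, (.cons 530 561 (.cons 406 437 .nil (.cons 437 406 .nil .nil)) (.cons 561 530 .nil .nil)))]
  [([406], (PX [] [406,468,499])), ([437], (PX [] [437,468,499])), ([530], (PX [] [468,499,530])), ([561], (PX [] [468,499,561]))]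
  (by decide +kernel) ⟨w3_772_406, w3_772_437, w3_772_530, w3_772_561, trivial⟩

theorem v3_773 : VW (PX [493,497] [492,495,496,499]) := VW.of base nl_ok fl_ok .nil
  []
  [([332], (PX [493,497] [332,492,495,496,499])), ([393], (PX [493,497] [393,492,495,496,499])), ([425], (PX [493,497] [425,492,495,496,499]))]
  (by decide +kernel) ⟨b3_2139, b3_2140, b3_2141, trivial⟩

theorem v3_775 : VW (PX [494,497] [493,495,496,499]) := VW.of base nl_ok fl_ok .nil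
  []
  (([297], (PX [494,497] [297,493,495,496,499])) :: ([298], (PX [494,497] [298,493,495,496,499])) :: ([299], (PX [494,497] [299,493,495,496,499])) :: ([300], (PX [494,497] [300,493,495,496,499])) :: ([301], (PX [494,497] [301,493,495,496,499])) :: ([302], (PX [494,497] [302,493,495,496,499])) :: ([330], (PX [494,497] [330,493,495,496,499])) :: ([332], (PX [494,497] [332,493,495,496,499])) :: ([365], (PX [494,497] [365,493,495,496,499])) :: ([397], (PX [494,497] [397,493,495,496,499])) :: ([425], (PX [494,497] [425,493,495,496,499])) :: ([426], (PX [494,497] [426,493,495,496,499])) :: ([427], (PX [494,497] [427,493,495,496,499])) :: ([428], (PX [494,497] [428,493,495,496,499])) :: ([429], (PX [494,497] [429,493,495,496,499])) :: ([461], (PX [494,497] [461,493,495,496,499])) :: ([549], (PX [494,497] [493,495,496,499,549])) :: [])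
  (by decide +kernel) ⟨b3_2154, b3_2155, b3_2156, b3_2157, b3_2158, b3_2159, b3_2160, b3_2161, b3_2162, b3_2163, b3_2164, b3_2165, b3_2166, b3_2167, b3_2168, b3_2169, b3_2170, trivial⟩

theorem v3_776 : VW (PX [492,497] [494,495,496,499]) := VW.of base nl_ok fl_ok .nil
  []
  [([397], (PX [492,497] [397,494,495,496,499]))]
  (by decide +kernel) ⟨b3_2171, trivial⟩

theorem w3_778_492 : S (PX [497] [492,495,496,499]) := VW.play 493 (PX [493,497] [492,495,496,499]) (by decide +kernel) v3_773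

theorem w3_778_493 : S (PX [497] [493,495,496,499]) := VW.play 494 (PX [494,497] [493,495,496,499]) (by decide +kernel) v3_775

theorem w3_778_494 : S (PX [497] [494,495,496,499]) := VW.play 492 (PX [492,497] [494,495,496,499]) (by decide +kernel) v3_776

theorem v3_778 : VW (PX [497] [495,496,499]) := VW.of base nl_ok fl_ok .nil
  []
  [([364], (PX [497] [364,495,496,499])), ([428], (PX [497] [428,495,496,499])), ([492], (PX [497] [492,495,496,499])), ([493], (PX [497] [493,495,496,499])), ([494], (PX [497] [494,495,496,499]))]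
  (by decide +kernel) ⟨b3_2137, b3_2138, w3_778_492, w3_778_493, w3_778_494, trivial⟩

theorem v3_786 : VW (PX [496] [495,497,499]) := VW.of base nl_ok fl_ok .nil
  [(498, (.cons 500 501 .nil (.cons 501 500 .nil .nil))), (500, (.cons 498 501 .nil (.cons 501 498 (.cons 502 503 .nil (.cons 503 502 .nil .nil)) .nil))), (501, (.cons 498 500 .nil (.cons 500 498 (.cons 502 503 .nil (.cons 503 502 .nil .nil)) .nil)))]
  []
  (by decide +kernel) trivial

theorem v3_805 : VW (PX [497] [495,498,499]) := VW.of base nl_ok fl_ok .nil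
  [(500, (.cons 501 502 .nil (.cons 502 501 .nil .nil))), (501, (.cons 500 502 .nil (.cons 502 500 .nil .nil))), (502, (.cons 500 501 .nil (.cons 501 500 .nil .nil)))]
  []
  (by decide +kernel) trivial

theorem w3_806_496 : S (PX [] [495,496,499]) := VW.play 497 (PX [497] [495,496,499]) (by decide +kernel) v3_778

theorem w3_806_497 : S (PX [] [495,497,499]) := VW.play 496 (PX [496] [495,497,499]) (by decide +kernel) v3_786

theorem w3_806_498 : S (PX [] [495,498,499]) := VW.play 497 (PX [497] [495,498,499]) (by decide +kernel) v3_805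

theorem v3_806 : VW (PX [] [495,499]) := VW.of base nl_ok fl_ok .nil
  []
  [([496], (PX [] [495,496,499])), ([497], (PX [] [495,497,499])), ([498], (PX [] [495,498,499]))]
  (by decide +kernel) ⟨w3_806_496, w3_806_497, w3_806_498, trivial⟩

theorem v3_807 : VW (PX [495,500] [496,497,498,499]) := VW.of base nl_ok fl_ok .nil
  []
  []
  (by decide +kernel) trivial

theorem v3_808 : VW (PX [495,498] [496,497,499,500]) := VW.of base nl_ok fl_ok .nil
  [(501, (.cons 502 503 .nil (.cons 503 502 .nil .nil))), (502, (.cons 501 503 .nil (.cons 503 501 .nil .nil))), (503, (.cons 501 502 .nil (.cons 502 501 .nil .nil)))]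
  []
  (by decide +kernel) trivial

theorem w3_809_498 : S (PX [495] [496,497,498,499]) := VW.play 500 (PX [495,500] [496,497,498,499]) (by decide +kernel) v3_807

theorem w3_809_500 : S (PX [495] [496,497,499,500]) := VW.play 498 (PX [495,498] [496,497,499,500]) (by decide +kernel) v3_808

theorem v3_809 : VW (PX [495] [496,497,499]) := VW.of base nl_ok fl_ok (.cons 498 500 .nil (.cons 500 498 .nil .nil))
  [(501, (.cons 498 500 .nil (.cons 500 498 (.cons 502 503 .nil (.cons 503 502 .nil .nil)) .nil))), (502, (.cons 498 500 .nil (.cons 500 498 (.cons 501 503 .nil (.cons 503 501 .nil .nil)) .nil))), (503, (.cons 498 500 .nil (.cons 500 498 (.cons 501 502 .nil (.cons 502 501 .nil .nil)) .nil)))]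
  [([498], (PX [495] [496,497,498,499])), ([500], (PX [495] [496,497,499,500]))]
  (by decide +kernel) ⟨w3_809_498, w3_809_500, trivial⟩

theorem v3_810 : VW (PX [497] [496,498,499]) := VW.of base nl_ok fl_ok .nil
  [(500, (.cons 501 502 .nil (.cons 502 501 .nil .nil))), (501, (.cons 500 502 .nil (.cons 502 500 .nil .nil))), (502, (.cons 500 501 .nil (.cons 501 500 .nil .nil)))]
  []
  (by decide +kernel) trivial

theorem w3_811_495 : S (PX [] [495,496,499]) := VW.play 497 (PX [497] [495,496,499]) (by decide +kernel) v3_778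

theorem w3_811_497 : S (PX [] [496,497,499]) := VW.play 495 (PX [495] [496,497,499]) (by decide +kernel) v3_809

theorem w3_811_498 : S (PX [] [496,498,499]) := VW.play 497 (PX [497] [496,498,499]) (by decide +kernel) v3_810

theorem v3_811 : VW (PX [] [496,499]) := VW.of base nl_ok fl_ok .nil
  [(500, (.cons 497 498 .nil (.cons 498 497 (.cons 501 502 .nil (.cons 502 501 .nil .nil)) .nil)))]
  [([495], (PX [] [495,496,499])), ([497], (PX [] [496,497,499])), ([498], (PX [] [496,498,499]))]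
  (by decide +kernel) ⟨w3_811_495, w3_811_497, w3_811_498, trivial⟩

theorem v3_812 : VW (PX [496,501] [497,498,499,500]) := VW.of base nl_ok fl_ok .nil
  []
  []
  (by decide +kernel) trivial

theorem v3_813 : VW (PX [496,500] [497,498,499,501]) := VW.of base nl_ok fl_ok .nil
  []
  []
  (by decide +kernel) trivial

theorem w3_814_500 : S (PX [496] [497,498,499,500]) := VW.play 501 (PX [496,501] [497,498,499,500]) (by decide +kernel) v3_812

theorem w3_814_501 : S (PX [496] [497,498,499,501]) := VW.play 500 (PX [496,500] [497,498,499,501]) (by decide +kernel) v3_813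

theorem v3_814 : VW (PX [496] [497,498,499]) := VW.of base nl_ok fl_ok (.cons 500 501 .nil (.cons 501 500 .nil .nil))
  [(502, (.cons 500 501 .nil (.cons 501 500 .nil .nil))), (503, (.cons 500 501 .nil (.cons 501 500 .nil .nil))), (504, (.cons 500 501 .nil (.cons 501 500 .nil .nil)))]
  [([500], (PX [496] [497,498,499,500])), ([501], (PX [496] [497,498,499,501]))]
  (by decide +kernel) ⟨w3_814_500, w3_814_501, trivial⟩

theorem v3_829 : VW (PX [498] [497,499,500]) := VW.of base nl_ok fl_ok .nil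
  [(501, (.cons 502 503 .nil (.cons 503 502 .nil .nil))), (502, (.cons 501 503 .nil (.cons 503 501 .nil .nil))), (503, (.cons 501 502 .nil (.cons 502 501 .nil .nil)))]
  []
  (by decide +kernel) trivial

theorem w3_830_495 : S (PX [] [495,497,499]) := VW.play 496 (PX [496] [495,497,499]) (by decide +kernel) v3_786

theorem w3_830_496 : S (PX [] [496,497,499]) := VW.play 495 (PX [495] [496,497,499]) (by decide +kernel) v3_809

theorem w3_830_498 : S (PX [] [497,498,499]) := VW.play 496 (PX [496] [497,498,499]) (by decide +kernel) v3_814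

theorem w3_830_500 : S (PX [] [497,499,500]) := VW.play 498 (PX [498] [497,499,500]) (by decide +kernel) v3_829

theorem v3_830 : VW (PX [] [497,499]) := VW.of base nl_ok fl_ok .nil
  [(501, (.cons 498 500 (.cons 495 496 .nil (.cons 496 495 .nil .nil)) (.cons 500 498 (.cons 502 503 .nil (.cons 503 502 .nil .nil)) .nil)))]
  [([495], (PX [] [495,497,499])), ([496], (PX [] [496,497,499])), ([498], (PX [] [497,498,499])), ([500], (PX [] [497,499,500]))]
  (by decide +kernel) ⟨w3_830_495, w3_830_496, w3_830_498, w3_830_500, trivial⟩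

theorem v3_831 : VW (PX [497,502] [498,499,500,501]) := VW.of base nl_ok fl_ok .nil
  []
  []
  (by decide +kernel) trivial

theorem v3_832 : VW (PX [497,501] [498,499,500,502]) := VW.of base nl_ok fl_ok .nil
  []
  []
  (by decide +kernel) trivial

theorem w3_833_501 : S (PX [497] [498,499,500,501]) := VW.play 502 (PX [497,502] [498,499,500,501]) (by decide +kernel) v3_831

theorem w3_833_502 : S (PX [497] [498,499,500,502]) := VW.play 501 (PX [497,501] [498,499,500,502]) (by decide +kernel) v3_832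

theorem v3_833 : VW (PX [497] [498,499,500]) := VW.of base nl_ok fl_ok (.cons 501 502 .nil (.cons 502 501 .nil .nil))
  [(503, (.cons 501 502 .nil (.cons 502 501 .nil .nil))), (504, (.cons 501 502 .nil (.cons 502 501 .nil .nil))), (505, (.cons 501 502 .nil (.cons 502 501 .nil .nil)))]
  [([501], (PX [497] [498,499,500,501])), ([502], (PX [497] [498,499,500,502]))]
  (by decide +kernel) ⟨w3_833_501, w3_833_502, trivial⟩

theorem v3_803 : VW (PX [496,500] [495,498,499,501]) := VW.of base nl_ok fl_ok .nil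
  []
  []
  (by decide +kernel) trivial

theorem w3_837_495 : S (PX [500] [495,498,499,501]) := VW.play 496 (PX [496,500] [495,498,499,501]) (by decide +kernel) v3_803

theorem v3_837 : VW (PX [500] [498,499,501]) := VW.of base nl_ok fl_ok .nil
  [(496, (.cons 495 497 .nil (.cons 497 495 .nil .nil))), (497, (.cons 495 496 .nil (.cons 496 495 .nil .nil)))]
  [([495], (PX [500] [495,498,499,501]))]
  (by decide +kernel) ⟨w3_837_495, trivial⟩

theorem v3_838 : VW (PX [496,500] [495,498,499,502]) := VW.of base nl_ok fl_ok .nil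
  []
  []
  (by decide +kernel) trivial

theorem w3_840_495 : S (PX [500] [495,498,499,502]) := VW.play 496 (PX [496,500] [495,498,499,502]) (by decide +kernel) v3_838

theorem v3_840 : VW (PX [500] [498,499,502]) := VW.of base nl_ok fl_ok .nil
  [(496, (.cons 495 497 .nil (.cons 497 495 .nil .nil))), (497, (.cons 495 496 .nil (.cons 496 495 .nil .nil)))]
  [([495], (PX [500] [495,498,499,502]))]
  (by decide +kernel) ⟨w3_840_495, trivial⟩

theorem w3_848_495 : S (PX [] [495,498,499]) := VW.play 497 (PX [497] [495,498,499]) (by decide +kernel) v3_805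

theorem w3_848_496 : S (PX [] [496,498,499]) := VW.play 497 (PX [497] [496,498,499]) (by decide +kernel) v3_810

theorem w3_848_497 : S (PX [] [497,498,499]) := VW.play 496 (PX [496] [497,498,499]) (by decide +kernel) v3_814

theorem w3_848_500 : S (PX [] [498,499,500]) := VW.play 497 (PX [497] [498,499,500]) (by decide +kernel) v3_833

theorem w3_848_501 : S (PX [] [498,499,501]) := VW.play 500 (PX [500] [498,499,501]) (by decide +kernel) v3_837

theorem w3_848_502 : S (PX [] [498,499,502]) := VW.play 500 (PX [500] [498,499,502]) (by decide +kernel) v3_840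

theorem v3_848 : VW (PX [] [498,499]) := VW.of base nl_ok fl_ok .nil
  []
  [([495], (PX [] [495,498,499])), ([496], (PX [] [496,498,499])), ([497], (PX [] [497,498,499])), ([500], (PX [] [498,499,500])), ([501], (PX [] [498,499,501])), ([502], (PX [] [498,499,502]))]
  (by decide +kernel) ⟨w3_848_495, w3_848_496, w3_848_497, w3_848_500, w3_848_501, w3_848_502, trivial⟩

theorem v3_849 : VW (PX [498,503] [499,500,501,502]) := VW.of base nl_ok fl_ok .nil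
  []
  []
  (by decide +kernel) trivial

theorem v3_850 : VW (PX [498,502] [499,500,501,503]) := VW.of base nl_ok fl_ok .nil
  []
  []
  (by decide +kernel) trivial

theorem w3_851_502 : S (PX [498] [499,500,501,502]) := VW.play 503 (PX [498,503] [499,500,501,502]) (by decide +kernel) v3_849

theorem w3_851_503 : S (PX [498] [499,500,501,503]) := VW.play 502 (PX [498,502] [499,500,501,503]) (by decide +kernel) v3_850

theorem v3_851 : VW (PX [498] [499,500,501]) := VW.of base nl_ok fl_ok (.cons 502 503 .nil (.cons 503 502 .nil .nil))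
  [(504, (.cons 502 503 .nil (.cons 503 502 .nil .nil))), (505, (.cons 502 503 .nil (.cons 503 502 .nil .nil))), (506, (.cons 502 503 .nil (.cons 503 502 .nil .nil)))]
  [([502], (PX [498] [499,500,501,502])), ([503], (PX [498] [499,500,501,503]))]
  (by decide +kernel) ⟨w3_851_502, w3_851_503, trivial⟩

theorem v3_845 : VW (PX [496,501] [498,499,500,502]) := VW.of base nl_ok fl_ok .nil
  []
  []
  (by decide +kernel) trivial

theorem w3_854_498 : S (PX [501] [498,499,500,502]) := VW.play 496 (PX [496,501] [498,499,500,502]) (by decide +kernel) v3_845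

theorem v3_854 : VW (PX [501] [499,500,502]) := VW.of base nl_ok fl_ok .nil
  [(496, (.cons 497 498 .nil (.cons 498 497 .nil .nil))), (497, (.cons 496 498 .nil (.cons 498 496 .nil .nil)))]
  [([498], (PX [501] [498,499,500,502]))]
  (by decide +kernel) ⟨w3_854_498, trivial⟩

theorem w3_855_497 : S (PX [] [497,499,500]) := VW.play 498 (PX [498] [497,499,500]) (by decide +kernel) v3_829

theorem w3_855_498 : S (PX [] [498,499,500]) := VW.play 497 (PX [497] [498,499,500]) (by decide +kernel) v3_833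

theorem w3_855_501 : S (PX [] [499,500,501]) := VW.play 498 (PX [498] [499,500,501]) (by decide +kernel) v3_851

theorem w3_855_502 : S (PX [] [499,500,502]) := VW.play 501 (PX [501] [499,500,502]) (by decide +kernel) v3_854

theorem v3_855 : VW (PX [] [499,500]) := VW.of base nl_ok fl_ok .nil
  [(496, (.cons 497 498 .nil (.cons 498 497 (.cons 501 502 .nil (.cons 502 501 .nil .nil)) .nil))), (503, (.cons 501 502 (.cons 497 498 .nil (.cons 498 497 .nil .nil)) (.cons 502 501 .nil .nil)))]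
  [([497], (PX [] [497,499,500])), ([498], (PX [] [498,499,500])), ([501], (PX [] [499,500,501])), ([502], (PX [] [499,500,502]))]
  (by decide +kernel) ⟨w3_855_497, w3_855_498, w3_855_501, w3_855_502, trivial⟩

theorem v3_856 : VW (PX [500] [499,501,502]) := VW.of base nl_ok fl_ok .nil
  [(503, (.cons 504 505 .nil (.cons 505 504 .nil .nil))), (504, (.cons 503 505 .nil (.cons 505 503 .nil .nil))), (505, (.cons 503 504 .nil (.cons 504 503 .nil .nil)))]
  []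
  (by decide +kernel) trivial

theorem w3_857_498 : S (PX [] [498,499,501]) := VW.play 500 (PX [500] [498,499,501]) (by decide +kernel) v3_837

theorem w3_857_500 : S (PX [] [499,500,501]) := VW.play 498 (PX [498] [499,500,501]) (by decide +kernel) v3_851

theorem w3_857_502 : S (PX [] [499,501,502]) := VW.play 500 (PX [500] [499,501,502]) (by decide +kernel) v3_856

theorem v3_857 : VW (PX [] [499,501]) := VW.of base nl_ok fl_ok .nil
  [(497, (.cons 498 500 (.cons 495 496 .nil (.cons 496 495 .nil .nil)) (.cons 500 498 (.cons 502 503 .nil (.cons 503 502 .nil .nil)) .nil))), (503, (.cons 500 502 (.cons 497 498 .nil (.cons 498 497 .nil .nil)) (.cons 502 500 (.cons 504 505 .nil (.cons 505 504 .nil .nil)) .nil)))]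
  [([498], (PX [] [498,499,501])), ([500], (PX [] [499,500,501])), ([502], (PX [] [499,501,502]))]
  (by decide +kernel) ⟨w3_857_498, w3_857_500, w3_857_502, trivial⟩

theorem w3_858_498 : S (PX [] [498,499,502]) := VW.play 500 (PX [500] [498,499,502]) (by decide +kernel) v3_840

theorem w3_858_500 : S (PX [] [499,500,502]) := VW.play 501 (PX [501] [499,500,502]) (by decide +kernel) v3_854

theorem w3_858_501 : S (PX [] [499,501,502]) := VW.play 500 (PX [500] [499,501,502]) (by decide +kernel) v3_856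

theorem v3_858 : VW (PX [] [499,502]) := VW.of base nl_ok fl_ok .nil
  [(503, (.cons 500 501 .nil (.cons 501 500 (.cons 504 505 .nil (.cons 505 504 .nil .nil)) .nil)))]
  [([498], (PX [] [498,499,502])), ([500], (PX [] [499,500,502])), ([501], (PX [] [499,501,502]))]
  (by decide +kernel) ⟨w3_858_498, w3_858_500, w3_858_501, trivial⟩

theorem v3_859 : VW (PX [] [499,503]) := VW.of base nl_ok fl_ok .nil
  [(500, (.cons 501 502 (.cons 497 498 .nil (.cons 498 497 .nil .nil)) (.cons 502 501 .nil .nil))), (501, (.cons 500 502 (.cons 497 498 .nil (.cons 498 497 .nil .nil)) (.cons 502 500 (.cons 504 505 .nil (.cons 505 504 .nil .nil)) .nil))), (502, (.cons 500 501 .nil (.cons 501 500 (.cons 504 505 .nil (.cons 505 504 .nil .nil)) .nil)))]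
  []
  (by decide +kernel) trivial

theorem v3_860 : VW (PX [468,592] [437,499,530,561]) := VW.of base nl_ok fl_ok .nil
  []
  []
  (by decide +kernel) trivial

theorem v3_770 : VW (PX [437,592] [468,499,530,561]) := VW.of base nl_ok fl_ok .nil
  []
  []
  (by decide +kernel) trivial

theorem w3_861_437 : S (PX [592] [437,499,530,561]) := VW.play 468 (PX [468,592] [437,499,530,561]) (by decide +kernel) v3_860

theorem w3_861_468 : S (PX [592] [468,499,530,561]) := VW.play 437 (PX [437,592] [468,499,530,561]) (by decide +kernel) v3_770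

theorem v3_861 : VW (PX [592] [499,530,561]) := VW.of base nl_ok fl_ok (.cons 437 468 .nil (.cons 468 437 .nil .nil))
  [(344, (.cons 437 468 .nil (.cons 468 437 .nil .nil))), (375, (.cons 437 468 .nil (.cons 468 437 .nil .nil))), (406, (.cons 437 468 .nil (.cons 468 437 .nil .nil)))]
  [([437], (PX [592] [437,499,530,561])), ([468], (PX [592] [468,499,530,561]))]
  (by decide +kernel) ⟨w3_861_437, w3_861_468, trivial⟩

theorem v3_862 : VW (PX [561] [499,530,592]) := VW.of base nl_ok fl_ok .nil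
  [(406, (.cons 437 468 .nil (.cons 468 437 .nil .nil))), (437, (.cons 406 468 .nil (.cons 468 406 .nil .nil))), (468, (.cons 406 437 .nil (.cons 437 406 .nil .nil)))]
  []
  (by decide +kernel) trivial

theorem w3_863_437 : S (PX [] [437,499,530]) := VW.play 468 (PX [468] [437,499,530]) (by decide +kernel) v3_727

theorem w3_863_468 : S (PX [] [468,499,530]) := VW.play 561 (PX [561] [468,499,530]) (by decide +kernel) v3_755

theorem w3_863_561 : S (PX [] [499,530,561]) := VW.play 592 (PX [592] [499,530,561]) (by decide +kernel) v3_861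

theorem w3_863_592 : S (PX [] [499,530,592]) := VW.play 561 (PX [561] [499,530,592]) (by decide +kernel) v3_862

theorem v3_863 : VW (PX [] [499,530]) := VW.of base nl_ok fl_ok .nil
  [(406, (.cons 437 468 .nil (.cons 468 437 (.cons 561 592 .nil (.cons 592 561 .nil .nil)) .nil))), (623, (.cons 561 592 (.cons 437 468 .nil (.cons 468 437 .nil .nil)) (.cons 592 561 .nil .nil)))]
  [([437], (PX [] [437,499,530])), ([468], (PX [] [468,499,530])), ([561], (PX [] [499,530,561])), ([592], (PX [] [499,530,592]))]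
  (by decide +kernel) ⟨w3_863_437, w3_863_468, w3_863_561, w3_863_592, trivial⟩

theorem v3_864 : VW (PX [467,627] [499,531,563,595]) := VW.of base nl_ok fl_ok .nil
  []
  []
  (by decide +kernel) trivial

theorem v3_865 : VW (PX [467,595] [499,531,563,627]) := VW.of base nl_ok fl_ok .nil
  []
  []
  (by decide +kernel) trivial

theorem w3_866_595 : S (PX [467] [499,531,563,595]) := VW.play 627 (PX [467,627] [499,531,563,595]) (by decide +kernel) v3_864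

theorem w3_866_627 : S (PX [467] [499,531,563,627]) := VW.play 595 (PX [467,595] [499,531,563,627]) (by decide +kernel) v3_865

theorem v3_866 : VW (PX [467] [499,531,563]) := VW.of base nl_ok fl_ok (.cons 595 627 .nil (.cons 627 595 .nil .nil))
  [(659, (.cons 595 627 .nil (.cons 627 595 .nil .nil))), (691, (.cons 595 627 .nil (.cons 627 595 .nil .nil))), (723, (.cons 595 627 .nil (.cons 627 595 .nil .nil)))]
  [([595], (PX [467] [499,531,563,595])), ([627], (PX [467] [499,531,563,627]))]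
  (by decide +kernel) ⟨w3_866_595, w3_866_627, trivial⟩

theorem v3_871 : VW (PX [563] [499,531,595]) := VW.of base nl_ok fl_ok .nil
  [(403, (.cons 435 467 .nil (.cons 467 435 .nil .nil))), (435, (.cons 403 467 .nil (.cons 467 403 .nil .nil))), (467, (.cons 403 435 .nil (.cons 435 403 .nil .nil)))]
  []
  (by decide +kernel) trivial

theorem w3_883_435 : S (PX [] [435,499,531]) := VW.play 467 (PX [467] [435,499,531]) (by decide +kernel) v3_330

theorem w3_883_467 : S (PX [] [467,499,531]) := VW.play 435 (PX [435] [467,499,531]) (by decide +kernel) v3_597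

theorem w3_883_563 : S (PX [] [499,531,563]) := VW.play 467 (PX [467] [499,531,563]) (by decide +kernel) v3_866

theorem w3_883_595 : S (PX [] [499,531,595]) := VW.play 563 (PX [563] [499,531,595]) (by decide +kernel) v3_871

theorem v3_883 : VW (PX [] [499,531]) := VW.of base nl_ok fl_ok .nil
  [(403, (.cons 435 467 .nil (.cons 467 435 (.cons 563 595 .nil (.cons 595 563 .nil .nil)) .nil))), (627, (.cons 563 595 (.cons 435 467 .nil (.cons 467 435 .nil .nil)) (.cons 595 563 .nil .nil)))]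
  [([435], (PX [] [435,499,531])), ([467], (PX [] [467,499,531])), ([563], (PX [] [499,531,563])), ([595], (PX [] [499,531,595]))]
  (by decide +kernel) ⟨w3_883_435, w3_883_467, w3_883_563, w3_883_595, trivial⟩

theorem v3_884 : VW (PX [466,631] [499,532,565,598]) := VW.of base nl_ok fl_ok .nil
  []
  []
  (by decide +kernel) trivial

theorem v3_885 : VW (PX [466,598] [499,532,565,631]) := VW.of base nl_ok fl_ok .nil
  []
  []
  (by decide +kernel) trivial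

theorem w3_886_598 : S (PX [466] [499,532,565,598]) := VW.play 631 (PX [466,631] [499,532,565,598]) (by decide +kernel) v3_884

theorem w3_886_631 : S (PX [466] [499,532,565,631]) := VW.play 598 (PX [466,598] [499,532,565,631]) (by decide +kernel) v3_885

theorem v3_886 : VW (PX [466] [499,532,565]) := VW.of base nl_ok fl_ok (.cons 598 631 .nil (.cons 631 598 .nil .nil))
  [(664, (.cons 598 631 .nil (.cons 631 598 .nil .nil))), (697, (.cons 598 631 .nil (.cons 631 598 .nil .nil))), (730, (.cons 598 631 .nil (.cons 631 598 .nil .nil)))]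
  [([598], (PX [466] [499,532,565,598])), ([631], (PX [466] [499,532,565,631]))]
  (by decide +kernel) ⟨w3_886_598, w3_886_631, trivial⟩

theorem v3_709 : VW (PX [400,565] [433,499,532,598]) := VW.of base nl_ok fl_ok .nil
  []
  []
  (by decide +kernel) trivial

theorem v3_750 : VW (PX [400,565] [466,499,532,598]) := VW.of base nl_ok fl_ok .nil
  []
  []
  (by decide +kernel) trivial

theorem w3_890_433 : S (PX [565] [433,499,532,598]) := VW.play 400 (PX [400,565] [433,499,532,598]) (by decide +kernel) v3_709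

theorem w3_890_466 : S (PX [565] [466,499,532,598]) := VW.play 400 (PX [400,565] [466,499,532,598]) (by decide +kernel) v3_750

theorem v3_890 : VW (PX [565] [499,532,598]) := VW.of base nl_ok fl_ok .nil
  [(400, (.cons 433 466 .nil (.cons 466 433 .nil .nil)))]
  [([433], (PX [565] [433,499,532,598])), ([466], (PX [565] [466,499,532,598]))]
  (by decide +kernel) ⟨w3_890_433, w3_890_466, trivial⟩

theorem w3_891_433 : S (PX [] [433,499,532]) := VW.play 466 (PX [466] [433,499,532]) (by decide +kernel) v3_717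

theorem w3_891_466 : S (PX [] [466,499,532]) := VW.play 433 (PX [433] [466,499,532]) (by decide +kernel) v3_734

theorem w3_891_565 : S (PX [] [499,532,565]) := VW.play 466 (PX [466] [499,532,565]) (by decide +kernel) v3_886

theorem w3_891_598 : S (PX [] [499,532,598]) := VW.play 565 (PX [565] [499,532,598]) (by decide +kernel) v3_890

theorem v3_891 : VW (PX [] [499,532]) := VW.of base nl_ok fl_ok .nil
  [(400, (.cons 433 466 .nil (.cons 466 433 (.cons 565 598 .nil (.cons 598 565 .nil .nil)) .nil))), (631, (.cons 565 598 (.cons 433 466 .nil (.cons 466 433 .nil .nil)) (.cons 598 565 .nil .nil)))]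
  [([433], (PX [] [433,499,532])), ([466], (PX [] [466,499,532])), ([565], (PX [] [499,532,565])), ([598], (PX [] [499,532,598]))]
  (by decide +kernel) ⟨w3_891_433, w3_891_466, w3_891_565, w3_891_598, trivial⟩

theorem v3_907 : VW (PX [530] [499,561,592]) := VW.of base nl_ok fl_ok .nil
  [(623, (.cons 654 685 .nil (.cons 685 654 .nil .nil))), (654, (.cons 623 685 .nil (.cons 685 623 .nil .nil))), (685, (.cons 623 654 .nil (.cons 654 623 .nil .nil)))]
  []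
  (by decide +kernel) trivial

theorem w3_910_468 : S (PX [] [468,499,561]) := VW.play 530 (PX [530] [468,499,561]) (by decide +kernel) v3_756

theorem w3_910_530 : S (PX [] [499,530,561]) := VW.play 592 (PX [592] [499,530,561]) (by decide +kernel) v3_861

theorem w3_910_592 : S (PX [] [499,561,592]) := VW.play 530 (PX [530] [499,561,592]) (by decide +kernel) v3_907

theorem v3_910 : VW (PX [] [499,561]) := VW.of base nl_ok fl_ok .nil
  [(437, (.cons 468 530 (.cons 375 406 .nil (.cons 406 375 .nil .nil)) (.cons 530 468 (.cons 592 623 .nil (.cons 623 592 .nil .nil)) .nil))), (623, (.cons 530 592 (.cons 437 468 .nil (.cons 468 437 .nil .nil)) (.cons 592 530 (.cons 654 685 .nil (.cons 685 654 .nil .nil)) .nil)))]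
  [([468], (PX [] [468,499,561])), ([530], (PX [] [499,530,561])), ([592], (PX [] [499,561,592]))]
  (by decide +kernel) ⟨w3_910_468, w3_910_530, w3_910_592, trivial⟩

theorem v3_925 : VW (PX [531] [499,563,595]) := VW.of base nl_ok fl_ok .nil
  [(627, (.cons 659 691 .nil (.cons 691 659 .nil .nil))), (659, (.cons 627 691 .nil (.cons 691 627 .nil .nil))), (691, (.cons 627 659 .nil (.cons 659 627 .nil .nil)))]
  []
  (by decide +kernel) trivial

theorem w3_928_467 : S (PX [] [467,499,563]) := VW.play 531 (PX [531] [467,499,563]) (by decide +kernel) v3_602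

theorem w3_928_531 : S (PX [] [499,531,563]) := VW.play 467 (PX [467] [499,531,563]) (by decide +kernel) v3_866

theorem w3_928_595 : S (PX [] [499,563,595]) := VW.play 531 (PX [531] [499,563,595]) (by decide +kernel) v3_925

theorem v3_928 : VW (PX [] [499,563]) := VW.of base nl_ok fl_ok .nil
  [(435, (.cons 467 531 (.cons 371 403 .nil (.cons 403 371 .nil .nil)) (.cons 531 467 (.cons 595 627 .nil (.cons 627 595 .nil .nil)) .nil))), (627, (.cons 531 595 (.cons 435 467 .nil (.cons 467 435 .nil .nil)) (.cons 595 531 (.cons 659 691 .nil (.cons 691 659 .nil .nil)) .nil)))]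
  [([467], (PX [] [467,499,563])), ([531], (PX [] [499,531,563])), ([595], (PX [] [499,563,595]))]
  (by decide +kernel) ⟨w3_928_467, w3_928_531, w3_928_595, trivial⟩

theorem v3_929 : VW (PX [532] [499,565,598]) := VW.of base nl_ok fl_ok .nil
  [(631, (.cons 664 697 .nil (.cons 697 664 .nil .nil))), (664, (.cons 631 697 .nil (.cons 697 631 .nil .nil))), (697, (.cons 631 664 .nil (.cons 664 631 .nil .nil)))]
  []
  (by decide +kernel) trivial

theorem w3_930_433 : S (PX [] [433,499,565]) := VW.play 466 (PX [466] [433,499,565]) (by decide +kernel) v3_718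

theorem w3_930_466 : S (PX [] [466,499,565]) := VW.play 433 (PX [433] [466,499,565]) (by decide +kernel) v3_736

theorem w3_930_532 : S (PX [] [499,532,565]) := VW.play 466 (PX [466] [499,532,565]) (by decide +kernel) v3_886

theorem w3_930_598 : S (PX [] [499,565,598]) := VW.play 532 (PX [532] [499,565,598]) (by decide +kernel) v3_929

theorem v3_930 : VW (PX [] [499,565]) := VW.of base nl_ok fl_ok .nil
  [(631, (.cons 532 598 (.cons 433 466 .nil (.cons 466 433 .nil .nil)) (.cons 598 532 (.cons 664 697 .nil (.cons 697 664 .nil .nil)) .nil)))]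
  [([433], (PX [] [433,499,565])), ([466], (PX [] [466,499,565])), ([532], (PX [] [499,532,565])), ([598], (PX [] [499,565,598]))]
  (by decide +kernel) ⟨w3_930_433, w3_930_466, w3_930_532, w3_930_598, trivial⟩

theorem w3_931_530 : S (PX [] [499,530,592]) := VW.play 561 (PX [561] [499,530,592]) (by decide +kernel) v3_862

theorem w3_931_561 : S (PX [] [499,561,592]) := VW.play 530 (PX [530] [499,561,592]) (by decide +kernel) v3_907

theorem v3_931 : VW (PX [] [499,592]) := VW.of base nl_ok fl_ok .nil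
  [(468, (.cons 530 561 (.cons 406 437 .nil (.cons 437 406 .nil .nil)) (.cons 561 530 .nil .nil))), (623, (.cons 530 561 .nil (.cons 561 530 (.cons 654 685 .nil (.cons 685 654 .nil .nil)) .nil)))]
  [([530], (PX [] [499,530,592])), ([561], (PX [] [499,561,592]))]
  (by decide +kernel) ⟨w3_931_530, w3_931_561, trivial⟩

theorem w3_932_531 : S (PX [] [499,531,595]) := VW.play 563 (PX [563] [499,531,595]) (by decide +kernel) v3_871

theorem w3_932_563 : S (PX [] [499,563,595]) := VW.play 531 (PX [531] [499,563,595]) (by decide +kernel) v3_925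

theorem v3_932 : VW (PX [] [499,595]) := VW.of base nl_ok fl_ok .nil
  [(467, (.cons 531 563 (.cons 403 435 .nil (.cons 435 403 .nil .nil)) (.cons 563 531 .nil .nil))), (627, (.cons 531 563 .nil (.cons 563 531 (.cons 659 691 .nil (.cons 691 659 .nil .nil)) .nil)))]
  [([531], (PX [] [499,531,595])), ([563], (PX [] [499,563,595]))]
  (by decide +kernel) ⟨w3_932_531, w3_932_563, trivial⟩

theorem w3_933_466 : S (PX [] [466,499,598]) := VW.play 532 (PX [532] [466,499,598]) (by decide +kernel) v3_745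

theorem w3_933_532 : S (PX [] [499,532,598]) := VW.play 565 (PX [565] [499,532,598]) (by decide +kernel) v3_890

theorem w3_933_565 : S (PX [] [499,565,598]) := VW.play 532 (PX [532] [499,565,598]) (by decide +kernel) v3_929

theorem v3_933 : VW (PX [] [499,598]) := VW.of base nl_ok fl_ok .nil
  [(631, (.cons 532 565 .nil (.cons 565 532 (.cons 664 697 .nil (.cons 697 664 .nil .nil)) .nil)))]
  [([466], (PX [] [466,499,598])), ([532], (PX [] [499,532,598])), ([565], (PX [] [499,565,598]))]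
  (by decide +kernel) ⟨w3_933_466, w3_933_532, w3_933_565, trivial⟩

theorem v3_934 : VW (PX [] [499,623]) := VW.of base nl_ok fl_ok .nil
  [(530, (.cons 561 592 (.cons 437 468 .nil (.cons 468 437 .nil .nil)) (.cons 592 561 .nil .nil))), (561, (.cons 530 592 (.cons 437 468 .nil (.cons 468 437 .nil .nil)) (.cons 592 530 (.cons 654 685 .nil (.cons 685 654 .nil .nil)) .nil))), (592, (.cons 530 561 .nil (.cons 561 530 (.cons 654 685 .nil (.cons 685 654 .nil .nil)) .nil)))]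
  []
  (by decide +kernel) trivial

theorem v3_935 : VW (PX [] [499,627]) := VW.of base nl_ok fl_ok .nil
  [(531, (.cons 563 595 (.cons 435 467 .nil (.cons 467 435 .nil .nil)) (.cons 595 563 .nil .nil))), (563, (.cons 531 595 (.cons 435 467 .nil (.cons 467 435 .nil .nil)) (.cons 595 531 (.cons 659 691 .nil (.cons 691 659 .nil .nil)) .nil))), (595, (.cons 531 563 .nil (.cons 563 531 (.cons 659 691 .nil (.cons 691 659 .nil .nil)) .nil)))]
  []
  (by decide +kernel) trivial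

theorem v3_936 : VW (PX [] [499,631]) := VW.of base nl_ok fl_ok .nil
  [(532, (.cons 565 598 (.cons 433 466 .nil (.cons 466 433 .nil .nil)) (.cons 598 565 .nil .nil))), (565, (.cons 532 598 (.cons 433 466 .nil (.cons 466 433 .nil .nil)) (.cons 598 532 (.cons 664 697 .nil (.cons 697 664 .nil .nil)) .nil))), (598, (.cons 532 565 .nil (.cons 565 532 (.cons 664 697 .nil (.cons 697 664 .nil .nil)) .nil)))]
  []
  (by decide +kernel) trivial

theorem v8_48 : VW (PX [] [299,499]) := VW.of base nl_ok fl_ok .nil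
  []
  (([266], (PX [] [266,299,499])) :: ([268], (PX [] [268,299,499])) :: ([295], (PX [] [295,299,499])) :: ([296], (PX [] [296,299,499])) :: ([297], (PX [] [297,299,499])) :: ([298], (PX [] [298,299,499])) :: ([300], (PX [] [299,300,499])) :: ([301], (PX [] [299,301,499])) :: ([302], (PX [] [299,302,499])) :: ([303], (PX [] [299,303,499])) :: ([329], (PX [] [299,329,499])) :: ([330], (PX [] [299,330,499])) :: ([332], (PX [] [299,332,499])) :: ([333], (PX [] [299,333,499])) :: ([361], (PX [] [299,361,499])) :: ([365], (PX [] [299,365,499])) :: ([392], (PX [] [299,392,499])) :: ([393], (PX [] [299,393,499])) :: ([395], (PX [] [299,395,499])) :: ([397], (PX [] [299,397,499])) :: ([398], (PX [] [299,398,499])) :: ([423], (PX [] [299,423,499])) :: ([425], (PX [] [299,425,499])) :: ([431], (PX [] [299,431,499])) :: ([457], (PX [] [299,457,499])) :: [])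
  (by decide +kernel) ⟨b8_1093, b8_1094, b8_1095, b8_1096, b8_1097, b8_1098, b8_1099, b8_1044, b8_1100, b8_1101, b8_1102, b8_1103, b8_1104, b8_1105, b8_1106, b8_1107, b8_1108, b8_1109, b8_1016, b8_1110, b8_1111, b8_1112, b8_1113, b8_1114, b8_1115, trivial⟩

theorem r367 : S (Nat.lor X2 (bits [499, 367])) := VW.play 394 (PX [] [367,499]) (by decide +kernel) v3_668

theorem r371 : S (Nat.lor X2 (bits [499, 371])) := VW.play 394 (PX [] [371,499]) (by decide +kernel) v3_669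

theorem r375 : S (Nat.lor X2 (bits [499, 375])) := VW.play 394 (PX [] [375,499]) (by decide +kernel) v3_670

theorem r400 : S (Nat.lor X2 (bits [499, 400])) := VW.play 394 (PX [] [400,499]) (by decide +kernel) v3_690

theorem r403 : S (Nat.lor X2 (bits [499, 403])) := VW.play 394 (PX [] [403,499]) (by decide +kernel) v3_691

theorem r406 : S (Nat.lor X2 (bits [499, 406])) := VW.play 394 (PX [] [406,499]) (by decide +kernel) v3_699

theorem r433 : S (Nat.lor X2 (bits [499, 433])) := VW.play 394 (PX [] [433,499]) (by decide +kernel) v3_724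

theorem r435 : S (Nat.lor X2 (bits [499, 435])) := VW.play 394 (PX [] [435,499]) (by decide +kernel) v3_333

theorem r437 : S (Nat.lor X2 (bits [499, 437])) := VW.play 394 (PX [] [437,499]) (by decide +kernel) v3_731

theorem r466 : S (Nat.lor X2 (bits [499, 466])) := VW.play 394 (PX [] [466,499]) (by decide +kernel) v3_753

theorem r467 : S (Nat.lor X2 (bits [499, 467])) := VW.play 394 (PX [] [467,499]) (by decide +kernel) v3_614

theorem r468 : S (Nat.lor X2 (bits [499, 468])) := VW.play 394 (PX [] [468,499]) (by decide +kernel) v3_772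

theorem r495 : S (Nat.lor X2 (bits [499, 495])) := VW.play 394 (PX [] [495,499]) (by decide +kernel) v3_806

theorem r496 : S (Nat.lor X2 (bits [499, 496])) := VW.play 394 (PX [] [496,499]) (by decide +kernel) v3_811

theorem r497 : S (Nat.lor X2 (bits [499, 497])) := VW.play 394 (PX [] [497,499]) (by decide +kernel) v3_830

theorem r498 : S (Nat.lor X2 (bits [499, 498])) := VW.play 394 (PX [] [498,499]) (by decide +kernel) v3_848

theorem r500 : S (Nat.lor X2 (bits [499, 500])) := VW.play 394 (PX [] [499,500]) (by decide +kernel) v3_855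

theorem r501 : S (Nat.lor X2 (bits [499, 501])) := VW.play 394 (PX [] [499,501]) (by decide +kernel) v3_857

theorem r502 : S (Nat.lor X2 (bits [499, 502])) := VW.play 394 (PX [] [499,502]) (by decide +kernel) v3_858

theorem r503 : S (Nat.lor X2 (bits [499, 503])) := VW.play 394 (PX [] [499,503]) (by decide +kernel) v3_859

theorem r530 : S (Nat.lor X2 (bits [499, 530])) := VW.play 394 (PX [] [499,530]) (by decide +kernel) v3_863

theorem r531 : S (Nat.lor X2 (bits [499, 531])) := VW.play 394 (PX [] [499,531]) (by decide +kernel) v3_883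

theorem r532 : S (Nat.lor X2 (bits [499, 532])) := VW.play 394 (PX [] [499,532]) (by decide +kernel) v3_891

theorem r561 : S (Nat.lor X2 (bits [499, 561])) := VW.play 394 (PX [] [499,561]) (by decide +kernel) v3_910

theorem r563 : S (Nat.lor X2 (bits [499, 563])) := VW.play 394 (PX [] [499,563]) (by decide +kernel) v3_928

theorem r565 : S (Nat.lor X2 (bits [499, 565])) := VW.play 394 (PX [] [499,565]) (by decide +kernel) v3_930

theorem r592 : S (Nat.lor X2 (bits [499, 592])) := VW.play 394 (PX [] [499,592]) (by decide +kernel) v3_931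

theorem r595 : S (Nat.lor X2 (bits [499, 595])) := VW.play 394 (PX [] [499,595]) (by decide +kernel) v3_932

theorem r598 : S (Nat.lor X2 (bits [499, 598])) := VW.play 394 (PX [] [499,598]) (by decide +kernel) v3_933

theorem r623 : S (Nat.lor X2 (bits [499, 623])) := VW.play 394 (PX [] [499,623]) (by decide +kernel) v3_934

theorem r627 : S (Nat.lor X2 (bits [499, 627])) := VW.play 394 (PX [] [499,627]) (by decide +kernel) v3_935

theorem r631 : S (Nat.lor X2 (bits [499, 631])) := VW.play 394 (PX [] [499,631]) (by decide +kernel) v3_936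

theorem r364 : S (Nat.lor X2 (bits [499, 364])) := S.of (.q 394 (.a 1 [] (.q 395 (.a 1 [] (.d 393 392 392 393 397)
 (.a 1 [392] (.d 397 393 393 394 398)
 (.a 0 [393,397] (.q 331 (.a 1 [] (.d 299 1291 267 1323 427)
 (.a 1 [267] (.d 427 1323 299 1355 459)
 (.a 0 [299,427] (.q 330 (.a 1 [] (.d 297 2312 264 2345 429)
 (.a 1 [264] (.d 429 2345 297 2378 462)
 (.a 0 [297,429] (.q 332 (.a 1 [] (.d 329 328 328 329 333)
 (.a 1 [328] (.d 333 329 329 330 334)
 (.a 1 [329] (.d 301 3342 270 3373 425)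
 .e))))
 .e))))
 .e))))
 .e))))
 (.a 0 [395] (.q 425 (.a 1 [] (.d 332 3373 301 3404 456)
 (.a 0 [332] (.q 330 (.a 1 [] (.d 297 2312 264 2345 429)
 (.a 1 [297] (.r 429 2378 462 (.q 426 (.a 1 [] (.d 362 1322 298 1354 458)
 (.a 1 [362] (.q 423 (.a 1 [] (.d 427 423 424 425 428)
 (.a 1 [428] (.d 424 422 422 423 427)
 (.a 0 [424,427] (.q 392 (.a 1 [] (.d 361 3371 299 3402 454)
 (.a 0 [299,361,454] (.q 522 (.a 1 [] (.r 458 1418 490 (.d 491 2407 359 2440 524))
 (.a 1 [359] (.r 456 3435 487 (.d 489 2438 390 2471 555))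
 .e)))
 .e)))
 .e))))
 (.a 1 [458] (.q 423 (.a 1 [] (.d 427 423 424 425 428)
 (.a 1 [428] (.d 424 422 422 423 427)
 (.a 0 [424,427] (.q 361 (.a 1 [] (.d 392 3371 299 3402 454)
 (.a 0 [299,392,454] (.q 393 (.a 1 [] (.d 457 1353 329 1385 489)
 (.a 1 [329] (.r 362 1322 298 (.r 360 359 359 (.d 459 2375 327 2408 492)))
 .e)))
 .e)))
 .e))))
 (.a 1 [298] (.r 427 425 428 (.r 458 1354 362 (.d 489 3437 365 3468 520)))
 .e))))))
 (.a 1 [429] (.q 426 (.a 1 [] (.d 362 1322 298 1354 458)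
 (.a 0 [298,362,458] (.q 423 (.a 1 [] (.d 424 422 422 423 427)
 (.a 0 [422,424,427] (.q 361 (.a 1 [] (.d 392 3371 299 3402 454)
 (.a 0 [299,392,454] (.q 489 (.a 1 [] (.r 456 3435 487 (.d 522 2438 390 2471 555))
 (.a 1 [390] (.r 393 1385 457 (.d 297 2312 264 1321 329))
 (.a 1 [456] (.r 297 2312 264 (.d 393 1321 329 1385 457))
 .e))))
 .e)))
 .e)))
 .e)))
 (.a 1 [264] (.d 429 2345 297 2378 462)
 .e)))))
 (.a 0 [456] (.q 330 (.a 1 [] (.d 297 2312 264 2345 429)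
 (.a 0 [297] (.r 429 2378 462 (.q 426 (.a 1 [] (.d 362 1322 298 1354 458)
 (.a 0 [362] (.r 332 3373 301 (.r 427 425 428 (.q 329 (.a 1 [] (.d 331 328 328 329 333)
 (.a 1 [331] (.q 361 (.a 1 [] (.d 328 2343 295 2376 460)
 (.a 1 [461] (.q 494 (.a 1 [] (.d 328 2343 295 2376 460)
 (.a 1 [460] (.r 423 423 424 (.d 392 3371 299 3402 454))
 .e)))
 (.a 1 [494] (.q 461 (.a 1 [] (.d 328 2343 295 2376 460)
 (.a 1 [328] (.r 493 2409 460 (.d 525 1421 397 1453 557))
 (.a 1 [460] (.r 423 423 424 (.d 392 3371 299 3402 454))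
 .e))))
 (.a 1 [328] (.r 423 423 424 (.d 392 3371 299 3402 454))
 .e)))))
 (.a 0 [328] (.q 461 (.a 1 [] (.r 333 329 331 (.r 365 1357 397 (.d 458 3406 334 3437 489)))
 (.a 1 [333] (.q 365 (.a 1 [] (.d 334 3375 303 3406 458)
 (.a 1 [302] (.q 271 (.a 1 [] (.d 334 3375 303 3406 458)
 (.a 1 [458] (.r 493 1389 397 (.d 460 2409 361 2442 526))
 .e)))
 (.a 1 [271] (.q 302 (.a 1 [] (.d 334 3375 303 3406 458)
 (.a 1 [458] (.r 493 1389 397 (.d 460 2409 361 2442 526))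
 .e)))
 (.a 1 [458] (.r 493 1389 397 (.d 460 2409 361 2442 526))
 .e)))))
 (.a 1 [365] (.q 493 (.a 1 [] (.d 525 1421 397 1453 557)
 (.a 1 [397] (.d 460 2409 361 2442 526)
 .e)))
 (.a 1 [331] (.q 365 (.a 1 [] (.d 397 1357 333 1389 493)
 (.a 1 [333] (.d 458 3406 334 3437 489)
 .e)))
 (.a 1 [397] (.q 365 (.a 1 [] (.d 334 3375 303 3406 458)
 (.a 1 [303] (.d 458 3406 334 3437 489)
 (.a 0 [334,458] (.q 460 (.a 1 [] (.d 493 2409 361 2442 526)
 (.a 1 [526] (.r 361 2409 493 (.r 423 423 424 (.d 392 3371 299 3402 454)))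
 (.a 0 [361,493] (.q 398 (.a 1 [] (.d 299 2314 266 2347 431)
 (.a 1 [266] (.d 431 2347 299 2380 464)
 (.a 1 [299] (.d 367 3408 336 3439 491)
 .e))))
 .e))))
 .e))))
 (.a 1 [298] (.r 333 329 331 (.r 397 1357 365 (.r 493 1421 525 (.d 460 2409 361 2442 526))))
 (.a 1 [265] (.r 333 329 331 (.r 397 1357 365 (.r 493 1421 525 (.d 460 2409 361 2442 526))))
 .e))))))))
 (.a 1 [461] (.q 494 (.a 1 [] (.d 331 328 328 329 333)
 (.a 1 [331] (.q 361 (.a 1 [] (.d 328 2343 295 2376 460)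
 (.a 1 [295] (.d 460 2376 328 2409 493)
 (.a 1 [328] (.r 423 423 424 (.d 392 3371 299 3402 454))
 .e))))
 (.a 1 [328] (.q 458 (.a 1 [] (.d 365 3406 334 3437 489)
 (.a 1 [334] (.d 489 3437 365 3468 520)
 (.a 0 [365,489] (.q 392 (.a 1 [] (.d 359 2374 326 2407 491)
 (.a 1 [326] (.d 491 2407 359 2440 524)
 (.a 1 [359] (.r 423 423 424 (.d 361 3371 299 3402 454))
 .e))))
 .e))))
 (.a 1 [333] (.r 328 328 331 (.d 361 2343 295 2376 460))
 .e)))))
 (.a 1 [494] (.q 461 (.a 1 [] (.d 331 328 328 329 333)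
 (.a 1 [331] (.q 365 (.a 1 [] (.d 397 1357 333 1389 493)
 (.a 1 [333] (.d 458 3406 334 3437 489)
 .e)))
 (.a 1 [333] (.r 328 328 331 (.d 361 2343 295 2376 460))
 .e))))
 (.a 1 [333] (.r 328 328 331 (.d 361 2343 295 2376 460))
 .e)))))))))
 (.a 1 [458] (.r 427 425 428 (.q 361 (.a 1 [] (.d 328 2343 295 2376 460)
 (.a 1 [295] (.d 460 2376 328 2409 493)
 (.a 1 [328] (.r 423 423 424 (.d 392 3371 299 3402 454))
 .e)))))
 (.a 1 [298] (.r 427 425 428 (.r 458 1354 362 (.d 489 3437 365 3468 520)))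
 .e))))))
 (.a 1 [429] (.q 426 (.a 1 [] (.d 362 1322 298 1354 458)
 (.a 0 [298,362,458] (.q 423 (.a 1 [] (.d 424 422 422 423 427)
 (.a 0 [422,424,427] (.q 361 (.a 1 [] (.d 392 3371 299 3402 454)
 (.a 1 [299] (.r 297 2312 264 (.r 329 1321 393 (.r 332 3373 301 (.d 331 328 328 329 333))))
 .e)))
 .e)))
 .e)))
 (.a 1 [264] (.d 429 2345 297 2378 462)
 .e)))))
 (.a 1 [301] (.d 456 3404 332 3435 487)
 .e)))))
 (.a 0 [330] (.q 395 (.a 1 [] (.d 393 392 392 393 397)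
 (.a 0 [397] (.q 331 (.a 1 [] (.d 299 1291 267 1323 427)
 (.a 1 [427] (.r 393 392 392 (.q 362 (.a 1 [] (.d 300 3341 269 3372 424)
 (.a 1 [424] (.q 428 (.a 1 [] (.d 329 2344 296 2377 461)
 (.a 1 [296] (.d 461 2377 329 2410 494)
 (.a 0 [329,461] (.q 301 (.a 1 [] (.d 332 3342 270 3373 425)
 (.a 0 [270,332,425] (.r 299 1291 267 (.r 300 3341 269 (.d 302 298 298 299 303)))
 .e)))
 .e))))
 (.a 1 [300] (.q 329 (.a 1 [] (.d 296 2311 263 2344 428)
 (.a 1 [263] (.d 428 2344 296 2377 461)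
 (.a 0 [296,428] (.q 425 (.a 1 [] (.d 361 1321 297 1353 457)
 (.a 1 [297] (.d 456 3404 332 3435 487)
 .e)))
 .e))))
 .e)))))
 (.a 1 [299] (.r 427 1355 459 (.q 361 (.a 1 [] (.d 328 2343 295 2376 460)
 (.a 1 [295] (.d 460 2376 328 2409 493)
 (.a 0 [328,460] (.q 425 (.a 1 [] (.d 332 3373 301 3404 456)
 (.a 1 [301] (.d 456 3404 332 3435 487)
 (.a 1 [332] (.r 393 392 392 (.d 457 1353 329 1385 489))
 .e))))
 .e)))))
 .e))))
 (.a 1 [393] (.q 427 (.a 1 [] (.d 331 1323 299 1355 459)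
 (.a 1 [299] (.d 459 1355 331 1387 491)
 (.a 0 [331,459] (.q 332 (.a 1 [] (.d 301 3342 270 3373 425)
 (.a 1 [270] (.d 425 3373 301 3404 456)
 (.a 0 [301,425] (.q 365 (.a 1 [] (.d 334 3375 303 3406 458)
 (.a 1 [303] (.d 458 3406 334 3437 489)
 (.a 1 [334] (.r 398 394 397 (.d 431 2347 299 2380 464))
 .e))))
 .e))))
 .e))))
 (.a 1 [392] (.d 397 393 393 394 398)
 .e)))))
 (.a 0 [332] (.q 395 (.a 1 [] (.d 393 392 392 393 397)
 (.a 1 [393] (.q 427 (.a 1 [] (.d 331 1323 299 1355 459)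
 (.a 1 [331] (.q 330 (.a 1 [] (.d 297 2312 264 2345 429)
 (.a 1 [264] (.d 429 2345 297 2378 462)
 (.a 0 [297,429] (.q 362 (.a 1 [] (.d 298 1290 266 1322 426)
 (.a 1 [266] (.d 426 1322 298 1354 458)
 (.a 1 [298] (.r 458 1354 426 (.d 489 3437 365 3468 520))
 (.a 0 [426] (.q 361 (.a 1 [] (.d 328 2343 295 2376 460)
 (.a 1 [295] (.d 460 2376 328 2409 493)
 (.a 0 [328,460] (.q 458 (.a 1 [] (.d 365 3406 334 3437 489)
 (.a 1 [334] (.d 489 3437 365 3468 520)
 (.a 0 [365,489] (.q 392 (.a 1 [] (.d 299 3340 268 3371 423)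
 (.a 1 [268] (.d 423 3371 299 3402 454)
 (.a 1 [299] (.r 359 359 360 (.d 425 2374 326 2407 491))
 .e))))
 .e))))
 .e))))
 .e)))))
 .e))))
 (.a 1 [459] (.q 458 (.a 1 [] (.d 365 3406 334 3437 489)
 (.a 1 [334] (.d 489 3437 365 3468 520)
 (.a 0 [365,489] (.q 426 (.a 1 [] (.d 362 1354 330 1386 490)
 (.a 1 [330] (.d 490 1386 362 1418 522)
 (.a 1 [490] (.r 330 1354 362 (.d 429 2345 297 2378 462))
 (.a 0 [362] (.q 429 (.a 1 [] (.d 428 425 425 426 430)
 (.a 1 [425] (.d 462 2378 330 2411 495)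
 .e)))
 .e)))))
 .e))))
 (.a 1 [299] (.d 459 1355 331 1387 491)
 .e)))))
 (.a 1 [397] (.q 331 (.a 1 [] (.d 299 1291 267 1323 427)
 (.a 1 [267] (.d 427 1323 299 1355 459)
 (.a 0 [299,427] (.q 330 (.a 1 [] (.d 297 2312 264 2345 429)
 (.a 1 [264] (.d 429 2345 297 2378 462)
 (.a 0 [297,429] (.q 362 (.a 1 [] (.d 298 1290 266 1322 426)
 (.a 1 [266] (.d 426 1322 298 1354 458)
 (.a 1 [298] (.r 393 392 392 (.d 424 3372 300 3403 455))
 .e))))
 .e))))
 .e))))
 (.a 1 [392] (.d 397 393 393 394 398)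
 .e)))))
 (.a 1 [425] (.q 395 (.a 1 [] (.d 393 392 392 393 397)
 (.a 1 [393] (.q 427 (.a 1 [] (.d 331 1323 299 1355 459)
 (.a 1 [299] (.d 459 1355 331 1387 491)
 (.a 0 [331,459] (.q 361 (.a 1 [] (.d 328 2343 295 2376 460)
 (.a 1 [295] (.d 460 2376 328 2409 493)
 (.a 0 [328,460] (.q 330 (.a 1 [] (.d 297 2312 264 2345 429)
 (.a 1 [264] (.d 429 2345 297 2378 462)
 (.a 0 [297,429] (.q 299 (.a 1 [] (.d 268 3309 237 3340 392)
 (.a 1 [237] (.d 392 3340 268 3371 423)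
 (.a 0 [268,392] (.q 365 (.a 1 [] (.d 334 3375 303 3406 458)
 (.a 1 [303] (.d 458 3406 334 3437 489)
 (.a 1 [334] (.r 398 394 397 (.d 332 2314 266 2347 431))
 .e))))
 .e))))
 .e))))
 .e))))
 .e))))
 (.a 1 [397] (.q 330 (.a 1 [] (.d 297 2312 264 2345 429)
 (.a 1 [264] (.d 429 2345 297 2378 462)
 (.a 0 [297,429] (.q 299 (.a 1 [] (.d 331 1291 267 1323 427)
 (.a 1 [267] (.r 427 1323 331 (.r 392 392 393 (.d 361 3340 268 3371 423)))
 (.a 1 [331] (.r 392 392 393 (.d 361 3340 268 3371 423))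
 .e))))
 .e))))
 (.a 1 [392] (.d 397 393 393 394 398)
 .e)))))
 (.a 0 [429] (.q 425 (.a 1 [] (.d 332 3373 301 3404 456)
 (.a 1 [456] (.q 395 (.a 1 [] (.d 393 392 392 393 397)
 (.a 1 [393] (.q 427 (.a 1 [] (.d 331 1323 299 1355 459)
 (.a 1 [299] (.d 459 1355 331 1387 491)
 (.a 0 [331,459] (.q 458 (.a 1 [] (.d 365 3406 334 3437 489)
 (.a 1 [334] (.d 489 3437 365 3468 520)
 (.a 0 [365,489] (.q 426 (.a 1 [] (.d 424 423 423 424 428)
 (.a 1 [423] (.d 490 1386 362 1418 522)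
 .e)))
 .e))))
 .e))))
 (.a 1 [397] (.r 392 392 393 (.q 427 (.a 1 [] (.d 331 1323 299 1355 459)
 (.a 1 [299] (.d 459 1355 331 1387 491)
 (.a 1 [331] (.r 491 1387 459 (.d 458 2407 359 2440 524))
 (.a 0 [459] (.q 458 (.a 1 [] (.d 359 2374 326 2407 491)
 (.a 1 [326] (.d 491 2407 359 2440 524)
 (.a 1 [359] (.d 365 3406 334 3437 489)
 .e))))
 .e))))))
 .e))))
 (.a 1 [332] (.q 395 (.a 1 [] (.d 393 392 392 393 397)
 (.a 1 [392] (.d 397 393 393 394 398)
 (.a 0 [393] (.q 427 (.a 1 [] (.d 331 1323 299 1355 459)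
 (.a 1 [299] (.d 459 1355 331 1387 491)
 (.a 0 [331,459] (.q 458 (.a 1 [] (.d 365 3406 334 3437 489)
 (.a 1 [334] (.d 489 3437 365 3468 520)
 (.a 0 [365,489] (.q 426 (.a 1 [] (.d 424 423 423 424 428)
 (.a 1 [423] (.d 490 1386 362 1418 522)
 .e)))
 .e))))
 .e))))
 (.a 0 [397] (.r 392 392 393 (.q 427 (.a 1 [] (.d 331 1323 299 1355 459)
 (.a 1 [299] (.d 459 1355 331 1387 491)
 (.a 1 [331] (.r 491 1387 459 (.d 458 2407 359 2440 524))
 (.a 0 [459] (.q 458 (.a 1 [] (.d 359 2374 326 2407 491)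
 (.a 1 [326] (.d 491 2407 359 2440 524)
 (.a 1 [359] (.d 365 3406 334 3437 489)
 .e))))
 .e))))))
 .e)))))
 (.a 1 [301] (.d 456 3404 332 3435 487)
 .e)))))
 (.a 1 [397] (.q 330 (.a 1 [] (.d 297 2312 264 2345 429)
 (.a 1 [429] (.q 298 (.a 1 [] (.d 362 1290 266 1322 426)
 (.a 0 [266,362,426] (.r 297 2312 264 (.q 299 (.a 1 [] (.d 296 295 295 296 300)
 (.a 1 [295] (.d 300 296 296 297 301)
 (.a 1 [296] (.r 301 297 300 (.d 332 3342 270 3373 425))
 (.a 0 [300] (.q 361 (.a 1 [] (.d 268 3309 237 3340 392)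
 (.a 1 [237] (.d 392 3340 268 3371 423)
 (.a 1 [268] (.r 295 295 296 (.d 328 2310 262 2343 427))
 .e))))
 .e))))))
 .e)))
 (.a 1 [297] (.q 425 (.a 1 [] (.d 332 3373 301 3404 456)
 (.a 1 [301] (.d 456 3404 332 3435 487)
 (.a 0 [332,456] (.q 426 (.a 1 [] (.d 362 1322 298 1354 458)
 (.a 1 [298] (.r 458 1354 362 (.r 429 2378 462 (.r 427 425 428 (.d 489 3437 365 3468 520))))
 (.a 0 [362,458] (.q 427 (.a 1 [] (.d 429 425 428 2378 462)
 (.a 1 [429] (.d 424 423 423 424 428)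
 (.a 0 [428] (.q 361 (.a 1 [] (.d 328 2343 295 2376 460)
 (.a 1 [295] (.d 460 2376 328 2409 493)
 (.a 1 [328] (.r 423 423 424 (.d 392 3371 299 3402 454))
 .e))))
 .e))))
 .e))))
 .e))))
 .e))))
 (.a 0 [393] (.q 330 (.a 1 [] (.d 297 2312 264 2345 429)
 (.a 0 [429] (.q 332 (.a 1 [] (.d 301 3342 270 3373 425)
 (.a 0 [425] (.q 331 (.a 1 [] (.d 329 328 328 329 333)
 (.a 0 [329] (.r 334 330 333 (.r 301 3342 270 (.r 297 2312 264 (.q 395 (.a 1 [] (.d 299 1291 267 1323 427)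
 (.a 1 [361] (.q 457 (.a 1 [] (.d 427 1323 299 1355 459)
 (.a 1 [427] (.r 299 1291 267 (.r 298 297 300 (.d 362 1290 266 1322 426)))
 (.a 1 [299] (.r 427 1355 459 (.d 365 3375 303 3406 458))
 .e))))
 (.a 1 [457] (.q 361 (.a 1 [] (.d 427 1323 299 1355 459)
 (.a 1 [489] (.q 521 (.a 1 [] (.d 427 1323 299 1355 459)
 (.a 1 [427] (.r 299 1291 267 (.d 392 3340 268 3371 423))
 (.a 1 [299] (.r 427 1355 459 (.d 365 3375 303 3406 458))
 .e))))
 (.a 1 [521] (.q 489 (.a 1 [] (.d 427 1323 299 1355 459)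
 (.a 1 [427] (.r 299 1291 267 (.d 392 3340 268 3371 423))
 (.a 1 [299] (.r 427 1355 459 (.d 458 3406 365 3468 520))
 .e))))
 (.a 1 [427] (.r 299 1291 267 (.d 392 3340 268 3371 423))
 (.a 1 [299] (.r 427 1355 459 (.d 365 3375 303 3406 458))
 .e))))))
 (.a 1 [427] (.r 299 1291 267 (.r 298 297 300 (.d 362 1290 266 1322 426)))
 (.a 1 [299] (.r 427 1355 459 (.d 365 3375 303 3406 458))
 .e)))))))))
 (.a 1 [333] (.q 427 (.a 1 [] (.d 395 1323 299 1355 459)
 (.a 1 [299] (.r 328 328 329 (.d 361 2343 295 2376 460))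
 .e)))
 (.a 1 [328] (.d 333 329 329 330 334)
 .e)))))
 (.a 0 [301] (.q 331 (.a 1 [] (.d 329 328 328 329 333)
 (.a 1 [333] (.q 395 (.a 1 [] (.d 299 1291 267 1323 427)
 (.a 1 [397] (.q 365 (.a 1 [] (.d 299 1291 267 1323 427)
 (.a 1 [299] (.r 427 1355 459 (.d 458 3406 334 3437 489))
 (.a 1 [427] (.r 299 1291 267 (.d 398 2314 266 2347 431))
 .e))))
 (.a 1 [299] (.q 458 (.a 1 [] (.r 427 1355 459 (.d 489 3437 365 3468 520))
 (.a 1 [365] (.r 397 394 398 (.r 362 1354 426 (.r 329 328 328 (.d 428 2344 296 2377 461))))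
 (.a 0 [397] (.q 365 (.a 1 [] (.d 427 3406 334 1355 459)
 (.a 1 [334] (.d 427 1355 459 3437 489)
 (.a 1 [427] (.r 362 1354 426 (.r 329 328 328 (.d 428 2344 296 2377 461)))
 .e))))
 .e))))
 (.a 1 [427] (.q 266 (.a 1 [] (.r 299 1291 267 (.d 365 2281 233 2314 398))
 (.a 1 [233] (.r 362 1290 298 (.r 329 328 328 (.d 428 2344 296 2377 461)))
 (.a 1 [365] (.r 397 394 398 (.r 362 1290 298 (.r 329 328 328 (.d 428 2344 296 2377 461))))
 (.a 0 [397] (.q 365 (.a 1 [] (.d 299 2281 233 1291 267)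
 (.a 1 [233] (.d 299 1291 267 2314 398)
 (.a 1 [267] (.d 299 2281 233 2314 398)
 (.a 1 [299] (.r 362 1290 298 (.r 329 328 328 (.d 428 2344 296 2377 461)))
 .e)))))
 .e)))))
 (.a 1 [365] (.r 397 394 398 (.d 299 1291 267 1323 427))
 .e))))))
 (.a 1 [329] (.q 427 (.a 1 [] (.d 395 1323 299 1355 459)
 (.a 1 [299] (.r 334 330 333 (.d 365 3375 303 3406 458))
 .e)))
 .e))))
 (.a 1 [270] (.d 425 3373 301 3404 456)
 .e)))))
 (.a 1 [297] (.q 425 (.a 1 [] (.d 332 3373 301 3404 456)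
 (.a 1 [301] (.d 456 3404 332 3435 487)
 (.a 0 [332,456] (.q 426 (.a 1 [] (.d 362 1322 298 1354 458)
 (.a 1 [298] (.r 458 1354 362 (.r 429 2378 462 (.r 427 425 428 (.d 489 3437 365 3468 520))))
 (.a 0 [362,458] (.q 427 (.a 1 [] (.d 429 425 428 2378 462)
 (.a 1 [429] (.d 424 423 423 424 428)
 (.a 0 [428] (.q 361 (.a 1 [] (.d 328 2343 295 2376 460)
 (.a 1 [295] (.d 460 2376 328 2409 493)
 (.a 1 [328] (.r 423 423 424 (.d 392 3371 299 3402 454))
 .e))))
 .e))))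
 .e))))
 .e))))
 .e))))
 (.a 1 [297] (.q 395 (.a 1 [] (.d 393 392 392 393 397)
 (.a 1 [397] (.q 425 (.a 1 [] (.d 332 3373 301 3404 456)
 (.a 1 [301] (.d 456 3404 332 3435 487)
 (.a 0 [332,456] (.q 429 (.a 1 [] (.d 462 2378 330 2411 495)
 (.a 0 [330,462,495] (.q 491 (.a 1 [] (.r 427 1387 459 (.r 428 425 426 (.r 392 392 393 (.d 458 2407 359 2440 524))))
 (.a 1 [327] (.r 427 1387 459 (.r 392 392 393 (.d 458 2407 359 2440 524)))
 (.a 1 [359] (.r 427 1387 459 (.r 428 425 426 (.r 392 392 393 (.r 458 2440 524 (.d 489 3437 365 3468 520)))))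
 (.a 1 [360] (.r 427 1387 459 (.r 392 392 393 (.d 458 2407 359 2440 524)))
 (.a 1 [426] (.r 427 1387 459 (.r 392 392 393 (.d 458 2407 359 2440 524)))
 (.a 1 [427] (.r 392 392 393 (.d 458 2407 359 2440 524))
 (.a 1 [524] (.r 427 1387 459 (.r 428 425 426 (.r 392 392 393 (.r 458 2407 359 (.d 489 3437 365 3468 520)))))
 (.a 0 [392,393,458] (.q 460 (.a 1 [] (.d 398 3439 367 3470 522)
 (.a 1 [367] (.d 522 3470 398 3501 553)
 (.a 1 [398] (.r 427 1387 459 (.d 493 2409 361 2442 526))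
 .e))))
 .e)))))))))
 .e)))
 .e))))
 (.a 1 [393] (.q 427 (.a 1 [] (.d 331 1323 299 1355 459)
 (.a 1 [299] (.d 459 1355 331 1387 491)
 (.a 0 [331,459] (.q 425 (.a 1 [] (.d 332 3373 301 3404 456)
 (.a 1 [301] (.d 456 3404 332 3435 487)
 (.a 0 [332,456] (.q 426 (.a 1 [] (.d 424 423 423 424 428)
 (.a 1 [423] (.d 428 424 424 425 429)
 (.a 1 [424] (.r 429 425 428 (.d 462 2378 330 2411 495))
 (.a 0 [428] (.q 458 (.a 1 [] (.d 362 1354 330 1386 490)
 (.a 1 [330] (.d 490 1386 362 1418 522)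
 (.a 1 [362] (.d 365 3406 334 3437 489)
 .e))))
 .e)))))
 .e))))
 .e))))
 (.a 1 [392] (.d 397 393 393 394 398)
 .e)))))
 (.a 1 [301] (.q 395 (.a 1 [] (.d 393 392 392 393 397)
 (.a 1 [397] (.q 429 (.a 1 [] (.d 330 2345 297 2378 462)
 (.a 1 [297] (.d 462 2378 330 2411 495)
 (.a 0 [330,462] (.q 425 (.a 1 [] (.d 456 3404 332 3435 487)
 (.a 0 [332,456,487] (.q 491 (.a 1 [] (.r 427 1387 459 (.r 428 425 426 (.r 392 392 393 (.d 458 2407 359 2440 524))))
 (.a 1 [327] (.r 427 1387 459 (.r 392 392 393 (.d 458 2407 359 2440 524)))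
 (.a 1 [359] (.r 427 1387 459 (.r 428 425 426 (.r 392 392 393 (.r 458 2440 524 (.d 489 3437 365 3468 520)))))
 (.a 1 [360] (.r 427 1387 459 (.r 392 392 393 (.d 458 2407 359 2440 524)))
 (.a 1 [426] (.r 427 1387 459 (.r 392 392 393 (.d 458 2407 359 2440 524)))
 (.a 1 [427] (.r 392 392 393 (.d 458 2407 359 2440 524))
 (.a 1 [524] (.r 427 1387 459 (.r 428 425 426 (.r 392 392 393 (.r 458 2407 359 (.d 489 3437 365 3468 520)))))
 (.a 0 [392,393,458] (.q 460 (.a 1 [] (.d 398 3439 367 3470 522)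
 (.a 1 [367] (.d 522 3470 398 3501 553)
 (.a 1 [398] (.r 427 1387 459 (.d 493 2409 361 2442 526))
 .e))))
 .e)))))))))
 .e)))
 .e))))
 (.a 1 [393] (.q 427 (.a 1 [] (.d 331 1323 299 1355 459)
 (.a 1 [299] (.d 459 1355 331 1387 491)
 (.a 0 [331,459] (.q 330 (.a 1 [] (.d 297 2312 264 2345 429)
 (.a 1 [264] (.d 429 2345 297 2378 462)
 (.a 0 [297,429] (.q 361 (.a 1 [] (.d 328 2343 295 2376 460)
 (.a 1 [295] (.d 460 2376 328 2409 493)
 (.a 0 [328,460] (.q 299 (.a 1 [] (.d 268 3309 237 3340 392)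
 (.a 1 [237] (.d 392 3340 268 3371 423)
 (.a 0 [268,392] (.q 365 (.a 1 [] (.d 334 3375 303 3406 458)
 (.a 1 [303] (.d 458 3406 334 3437 489)
 (.a 1 [334] (.r 398 394 397 (.d 332 2314 266 2347 431))
 .e))))
 .e))))
 .e))))
 .e))))
 .e))))
 (.a 1 [392] (.d 397 393 393 394 398)
 .e)))))
 (.a 0 [427] (.q 395 (.a 1 [] (.d 393 392 392 393 397)
 (.a 0 [397] (.q 330 (.a 1 [] (.d 297 2312 264 2345 429)
 (.a 1 [429] (.r 392 392 393 (.q 425 (.a 1 [] (.d 332 3373 301 3404 456)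
 (.a 1 [332] (.q 458 (.a 1 [] (.d 359 2374 326 2407 491)
 (.a 1 [326] (.d 491 2407 359 2440 524)
 (.a 1 [491] (.r 362 1354 426 (.r 359 2374 326 (.r 361 359 360 (.d 423 3371 299 3402 454))))
 (.a 0 [359] (.q 423 (.a 1 [] (.d 361 3371 299 3402 454)
 (.a 1 [299] (.r 426 1354 362 (.r 454 3402 361 (.r 456 3435 487 (.r 424 422 422 (.d 488 1384 360 1416 520)))))
 (.a 0 [361,454] (.q 424 (.a 1 [] (.d 426 1354 362 422 422)
 (.a 1 [362] (.d 422 421 421 422 426)
 (.a 1 [422] (.r 456 3435 487 (.d 488 1384 360 1416 520))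
 .e))))
 .e))))
 .e)))))
 (.a 1 [456] (.q 331 (.a 1 [] (.r 332 3373 301 (.d 333 329 329 330 334))
 (.a 1 [301] (.r 299 1291 267 (.d 361 3340 268 3371 423))
 (.a 1 [333] (.r 299 1291 267 (.d 361 3340 268 3371 423))
 .e))))
 (.a 1 [301] (.d 456 3404 332 3435 487)
 .e))))))
 (.a 1 [297] (.q 332 (.a 1 [] (.d 301 3342 270 3373 425)
 (.a 1 [270] (.d 425 3373 301 3404 456)
 (.a 0 [301,425] (.q 299 (.a 1 [] (.r 331 1291 267 (.d 333 329 329 330 334))
 (.a 1 [267] (.r 392 392 393 (.d 361 3340 268 3371 423))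
 .e)))
 .e))))
 .e))))
 (.a 1 [393] (.q 429 (.a 1 [] (.d 330 2345 297 2378 462)
 (.a 1 [330] (.r 397 394 398 (.q 332 (.a 1 [] (.d 301 3342 270 3373 425)
 (.a 1 [270] (.d 425 3373 301 3404 456)
 (.a 0 [301,425] (.q 461 (.a 1 [] (.d 365 1357 333 1389 493)
 (.a 1 [333] (.d 493 1389 365 1421 525)
 (.a 0 [365,493] (.q 428 (.a 1 [] (.d 362 2377 329 2410 494)
 (.a 1 [329] (.d 494 2410 362 2443 527)
 (.a 0 [362,494] (.q 459 (.a 1 [] (.d 366 3407 335 3438 490)
 (.a 1 [335] (.d 490 3438 366 3469 521)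
 (.a 1 [366] (.r 462 2411 495 (.d 460 458 458 459 463))
 .e))))
 .e))))
 .e))))
 .e)))))
 (.a 1 [462] (.r 397 394 398 (.q 461 (.a 1 [] (.d 365 1357 333 1389 493)
 (.a 1 [333] (.d 493 1389 365 1421 525)
 (.a 0 [365,493] (.q 362 (.a 1 [] (.d 428 2377 329 2410 494)
 (.a 1 [329] (.r 330 2345 297 (.d 426 1322 298 1354 458))
 .e)))
 .e)))))
 (.a 1 [297] (.d 462 2378 330 2411 495)
 .e)))))
 (.a 1 [392] (.d 397 393 393 394 398)
 .e)))))
 (.a 1 [392] (.q 395 (.a 1 [] (.d 397 393 393 394 398)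
 (.a 1 [397] (.q 331 (.a 1 [] (.d 299 1291 267 1323 427)
 (.a 1 [267] (.d 427 1323 299 1355 459)
 (.a 0 [299,427] (.q 330 (.a 1 [] (.d 297 2312 264 2345 429)
 (.a 1 [264] (.d 429 2345 297 2378 462)
 (.a 0 [297,429] (.q 332 (.a 1 [] (.d 329 328 328 329 333)
 (.a 1 [328] (.d 333 329 329 330 334)
 (.a 1 [329] (.d 301 3342 270 3373 425)
 .e))))
 .e))))
 .e))))
 (.a 1 [393] (.q 427 (.a 1 [] (.d 331 1323 299 1355 459)
 (.a 1 [299] (.d 459 1355 331 1387 491)
 (.a 0 [331,459] (.q 425 (.a 1 [] (.d 332 3373 301 3404 456)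
 (.a 1 [301] (.d 456 3404 332 3435 487)
 (.a 0 [332,456] (.q 426 (.a 1 [] (.d 424 423 423 424 428)
 (.a 1 [423] (.d 428 424 424 425 429)
 (.a 1 [424] (.r 429 425 428 (.d 462 2378 330 2411 495))
 (.a 0 [428] (.q 458 (.a 1 [] (.d 362 1354 330 1386 490)
 (.a 1 [330] (.d 490 1386 362 1418 522)
 (.a 1 [362] (.d 365 3406 334 3437 489)
 .e))))
 .e)))))
 .e))))
 .e))))
 .e))))
 (.a 1 [398] (.q 425 (.a 1 [] (.d 332 3373 301 3404 456)
 (.a 1 [332] (.q 330 (.a 1 [] (.d 297 2312 264 2345 429)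
 (.a 1 [264] (.d 429 2345 297 2378 462)
 (.a 0 [297,429] (.q 426 (.a 1 [] (.d 362 1322 298 1354 458)
 (.a 0 [298,362,458] (.q 427 (.a 1 [] (.d 424 423 423 424 428)
 (.a 0 [423,424,428] (.q 395 (.a 1 [] (.d 393 392 392 393 397)
 (.a 1 [392] (.d 459 1355 331 1387 491)
 .e)))
 .e)))
 .e)))
 .e))))
 (.a 1 [456] (.q 330 (.a 1 [] (.d 297 2312 264 2345 429)
 (.a 1 [264] (.d 429 2345 297 2378 462)
 (.a 0 [297,429] (.q 395 (.a 1 [] (.d 393 392 392 393 397)
 (.a 0 [392,393,397] (.q 331 (.a 1 [] (.d 299 1291 267 1323 427)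
 (.a 1 [267] (.d 427 1323 299 1355 459)
 (.a 1 [299] (.r 332 3373 301 (.d 333 329 329 330 334))
 .e))))
 .e)))
 .e))))
 (.a 1 [301] (.d 456 3404 332 3435 487)
 .e)))))
 (.a 0 [331] (.q 429 (.a 1 [] (.d 330 2345 297 2378 462)
 (.a 1 [330] (.q 397 (.a 1 [] (.d 395 393 393 394 398)
 (.a 1 [395] (.q 332 (.a 1 [] (.d 301 3342 270 3373 425)
 (.a 1 [270] (.d 425 3373 301 3404 456)
 (.a 0 [301,425] (.q 493 (.a 1 [] (.d 461 1389 365 1421 525)
 (.a 0 [365,461,525] (.q 460 (.a 1 [] (.d 427 2409 361 2442 526)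
 (.a 0 [361,427,526] (.q 400 (.a 1 [] (.r 398 396 399 (.d 491 3439 367 3470 522))
 (.a 1 [367] (.r 462 2411 495 (.d 431 3441 369 3472 524))
 .e)))
 .e)))
 .e)))
 .e))))
 (.a 1 [398] (.q 332 (.a 1 [] (.d 301 3342 270 3373 425)
 (.a 1 [270] (.d 425 3373 301 3404 456)
 (.a 0 [301,425] (.q 365 (.a 1 [] (.d 461 1357 333 1389 493)
 (.a 0 [333,461,493] (.q 427 (.a 1 [] (.d 334 3375 303 3406 458)
 (.a 1 [303] (.d 458 3406 334 3437 489)
 (.a 0 [334,458] (.q 428 (.a 1 [] (.d 430 426 426 427 431)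
 (.a 1 [426] (.r 395 393 393 (.r 459 1387 491 (.d 490 3438 366 3469 521)))
 .e)))
 .e))))
 .e)))
 .e))))
 (.a 1 [393] (.q 332 (.a 1 [] (.d 301 3342 270 3373 425)
 (.a 1 [270] (.d 425 3373 301 3404 456)
 (.a 1 [425] (.r 398 394 395 (.r 301 3342 270 (.r 365 1325 333 (.d 431 2347 299 2380 464))))
 (.a 0 [301] (.q 365 (.a 1 [] (.d 461 1357 333 1389 493)
 (.a 1 [333] (.r 398 394 395 (.d 431 2347 299 2380 464))
 .e)))
 .e)))))
 .e)))))
 (.a 1 [462] (.q 397 (.a 1 [] (.d 395 393 393 394 398)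
 (.a 1 [395] (.q 425 (.a 1 [] (.d 332 3373 301 3404 456)
 (.a 1 [301] (.d 456 3404 332 3435 487)
 (.a 0 [332,456] (.q 493 (.a 1 [] (.d 461 1389 365 1421 525)
 (.a 0 [365,461,525] (.q 427 (.a 1 [] (.d 460 2409 361 2442 526)
 (.a 1 [361] (.r 426 425 428 (.r 330 2345 297 (.d 362 1322 298 1354 458)))
 .e)))
 .e)))
 .e))))
 (.a 1 [398] (.q 365 (.a 1 [] (.d 333 1325 301 1357 461)
 (.a 1 [301] (.d 461 1357 333 1389 493)
 (.a 1 [461] (.r 301 1325 333 (.d 332 3342 270 3373 425))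
 (.a 0 [333] (.q 427 (.a 1 [] (.d 334 3375 303 3406 458)
 (.a 1 [303] (.d 458 3406 334 3437 489)
 (.a 1 [334] (.r 493 1389 461 (.d 460 2409 361 2442 526))
 .e))))
 .e)))))
 .e))))
 (.a 1 [297] (.d 462 2378 330 2411 495)
 .e)))))
 (.a 1 [426] (.q 395 (.a 1 [] (.d 393 392 392 393 397)
 (.a 1 [393] (.q 425 (.a 1 [] (.d 332 3373 301 3404 456)
 (.a 1 [301] (.d 456 3404 332 3435 487)
 (.a 0 [332,456] (.q 429 (.a 1 [] (.d 330 2345 297 2378 462)
 (.a 1 [297] (.d 462 2378 330 2411 495)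
 (.a 0 [330,462] (.q 491 (.a 1 [] (.r 427 1387 459 (.r 398 394 397 (.d 460 3439 367 3470 522)))
 (.a 1 [327] (.r 398 394 397 (.d 460 3439 367 3470 522))
 (.a 1 [360] (.r 398 394 397 (.d 460 3439 367 3470 522))
 (.a 1 [367] (.r 427 1387 459 (.r 398 394 397 (.r 460 3470 522 (.d 493 2409 361 2442 526))))
 (.a 1 [459] (.r 398 394 397 (.d 460 3439 367 3470 522))
 (.a 1 [522] (.r 427 1387 459 (.r 398 394 397 (.r 460 3439 367 (.d 493 2409 361 2442 526))))
 (.a 0 [397,398,460] (.q 458 (.a 1 [] (.d 392 2407 359 2440 524)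
 (.a 1 [359] (.d 524 2440 392 2473 557)
 (.a 1 [392] (.r 427 1387 459 (.d 489 3437 365 3468 520))
 .e))))
 .e))))))))
 .e))))
 .e))))
 (.a 1 [397] (.q 429 (.a 1 [] (.d 330 2345 297 2378 462)
 (.a 1 [297] (.d 462 2378 330 2411 495)
 (.a 0 [330,462] (.q 425 (.a 1 [] (.d 332 3373 301 3404 456)
 (.a 1 [301] (.d 456 3404 332 3435 487)
 (.a 0 [332,456] (.q 491 (.a 1 [] (.r 427 1387 459 (.r 392 392 393 (.d 458 2407 359 2440 524)))
 (.a 1 [327] (.r 392 392 393 (.d 458 2407 359 2440 524))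
 (.a 1 [359] (.r 427 1387 459 (.r 392 392 393 (.r 458 2440 524 (.d 489 3437 365 3468 520))))
 (.a 1 [360] (.r 392 392 393 (.d 458 2407 359 2440 524))
 (.a 1 [459] (.r 392 392 393 (.d 458 2407 359 2440 524))
 (.a 1 [524] (.r 427 1387 459 (.r 392 392 393 (.r 458 2407 359 (.d 489 3437 365 3468 520))))
 (.a 0 [392,393,458] (.q 460 (.a 1 [] (.d 398 3439 367 3470 522)
 (.a 1 [367] (.d 522 3470 398 3501 553)
 (.a 1 [398] (.r 427 1387 459 (.d 493 2409 361 2442 526))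
 .e))))
 .e))))))))
 .e))))
 .e))))
 (.a 1 [392] (.d 397 393 393 394 398)
 .e)))))
 (.a 0 [365] (.q 395 (.a 1 [] (.d 393 392 392 393 397)
 (.a 1 [393] (.q 427 (.a 1 [] (.d 331 1323 299 1355 459)
 (.a 1 [331] (.q 425 (.a 1 [] (.d 332 3373 301 3404 456)
 (.a 1 [301] (.d 456 3404 332 3435 487)
 (.a 0 [332,456] (.q 330 (.a 1 [] (.d 297 2312 264 2345 429)
 (.a 1 [264] (.d 429 2345 297 2378 462)
 (.a 1 [297] (.r 429 2378 462 (.r 426 425 428 (.d 362 1322 298 1354 458)))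
 (.a 0 [429] (.q 426 (.a 1 [] (.d 424 423 423 424 428)
 (.a 1 [423] (.d 362 1322 298 1354 458)
 .e)))
 .e)))))
 .e))))
 (.a 1 [299] (.d 459 1355 331 1387 491)
 .e))))
 (.a 1 [397] (.q 429 (.a 1 [] (.d 330 2345 297 2378 462)
 (.a 1 [297] (.d 462 2378 330 2411 495)
 (.a 0 [330,462] (.q 425 (.a 1 [] (.d 332 3373 301 3404 456)
 (.a 1 [301] (.d 456 3404 332 3435 487)
 (.a 0 [332,456] (.q 491 (.a 1 [] (.r 427 1387 459 (.r 428 425 426 (.r 392 392 393 (.d 458 2407 359 2440 524))))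
 (.a 1 [327] (.r 427 1387 459 (.r 392 392 393 (.d 458 2407 359 2440 524)))
 (.a 1 [359] (.r 427 1387 459 (.r 426 425 428 (.r 392 392 393 (.r 458 2440 524 (.d 490 1386 362 1418 522)))))
 (.a 1 [426] (.r 392 392 393 (.d 458 2407 359 2440 524))
 (.a 1 [524] (.r 427 1387 459 (.r 426 425 428 (.r 392 392 393 (.r 458 2407 359 (.d 490 1386 362 1418 522)))))
 (.a 0 [392,393,458] (.q 460 (.a 1 [] (.d 398 3439 367 3470 522)
 (.a 1 [367] (.d 522 3470 398 3501 553)
 (.a 1 [398] (.r 427 1387 459 (.d 493 2409 361 2442 526))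
 .e))))
 .e)))))))
 .e))))
 .e))))
 (.a 1 [392] (.d 397 393 393 394 398)
 .e)))))
 (.a 0 [298] (.q 397 (.a 1 [] (.d 395 393 393 394 398)
 (.a 0 [395] (.q 429 (.a 1 [] (.d 330 2345 297 2378 462)
 (.a 0 [462] (.q 425 (.a 1 [] (.d 332 3373 301 3404 456)
 (.a 1 [332] (.r 330 2345 297 (.q 426 (.a 1 [] (.r 427 425 428 (.r 458 1354 362 (.d 489 3437 365 3468 520)))
 (.a 1 [427] (.r 458 1354 362 (.q 491 (.a 1 [] (.d 392 2407 359 2440 524)
 (.a 1 [359] (.d 524 2440 392 2473 557)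
 (.a 1 [392] (.r 522 1418 490 (.d 460 3470 398 3501 553))
 .e)))))
 (.a 1 [428] (.q 461 (.a 1 [] (.d 365 1357 333 1389 493)
 (.a 1 [333] (.d 493 1389 365 1421 525)
 (.a 1 [493] (.r 458 1354 362 (.r 365 1357 333 (.d 427 3406 334 3437 489)))
 (.a 0 [365] (.q 423 (.a 1 [] (.d 424 422 422 423 427)
 (.a 1 [422] (.r 458 1354 362 (.r 427 423 424 (.r 493 1421 525 (.d 460 2409 361 2442 526))))
 (.a 0 [424,427] (.q 392 (.a 1 [] (.d 361 3371 299 3402 454)
 (.a 1 [299] (.r 458 1354 362 (.d 491 2407 359 2440 524))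
 .e)))
 .e))))
 .e)))))
 (.a 1 [458] (.q 493 (.a 1 [] (.d 461 1389 365 1421 525)
 (.a 1 [365] (.r 427 425 428 (.d 460 2409 361 2442 526))
 .e)))
 (.a 1 [362] (.q 461 (.a 1 [] (.d 365 1357 333 1389 493)
 (.a 1 [333] (.d 493 1389 365 1421 525)
 (.a 1 [365] (.r 427 425 428 (.r 493 1421 525 (.d 460 2409 361 2442 526)))
 (.a 1 [493] (.r 427 425 428 (.r 365 1357 333 (.d 458 3406 334 3437 489)))
 .e)))))
 (.a 1 [296] (.r 428 425 427 (.r 458 1354 362 (.r 490 1418 522 (.d 459 3438 366 3469 521))))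
 (.a 1 [329] (.q 365 (.a 1 [] (.d 333 1325 301 1357 461)
 (.a 1 [301] (.d 461 1357 333 1389 493)
 (.a 1 [333] (.r 427 425 428 (.d 458 1354 362 3437 489))
 (.a 1 [461] (.r 458 1354 362 (.r 428 425 427 (.r 490 1418 522 (.d 459 3438 366 3469 521))))
 .e)))))
 .e)))))))))
 (.a 1 [456] (.q 426 (.a 1 [] (.r 427 425 428 (.r 301 3373 332 (.r 365 1325 333 (.d 458 3406 334 3437 489))))
 (.a 1 [271] (.r 427 425 428 (.r 301 3373 332 (.r 330 2345 297 (.r 458 1354 362 (.d 365 1325 333 3406 334)))))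
 (.a 1 [301] (.r 427 425 428 (.r 330 2345 297 (.r 458 1354 362 (.d 489 3437 365 3468 520))))
 (.a 1 [428] (.r 301 3373 332 (.r 365 1325 333 (.r 330 2345 297 (.r 458 1354 362 (.d 427 3406 334 3437 489)))))
 (.a 1 [458] (.r 427 425 428 (.r 301 3373 332 (.r 365 1325 333 (.r 493 1389 461 (.d 460 2409 361 2442 526)))))
 (.a 0 [365,427] (.q 458 (.a 1 [] (.d 330 2345 297 1354 362)
 (.a 1 [297] (.d 362 1354 330 1386 490)
 (.a 1 [330] (.d 490 1386 362 1418 522)
 (.a 0 [362] (.q 491 (.a 1 [] (.d 392 2407 359 2440 524)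
 (.a 1 [359] (.d 524 2440 392 2473 557)
 (.a 1 [392] (.r 522 1418 490 (.d 460 3470 398 3501 553))
 .e))))
 .e)))))
 .e)))))))
 (.a 1 [301] (.d 456 3404 332 3435 487)
 .e)))))
 (.a 1 [330] (.q 301 (.a 1 [] (.d 332 3342 270 3373 425)
 (.a 0 [270,332,425] (.q 493 (.a 1 [] (.d 365 1325 333 1389 461)
 (.a 1 [333] (.d 461 1389 365 1421 525)
 (.a 0 [365,461] (.q 460 (.a 1 [] (.d 427 2409 361 2442 526)
 (.a 0 [361,427,526] (.q 400 (.a 1 [] (.r 398 396 399 (.d 491 3439 367 3470 522))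
 (.a 1 [367] (.r 462 2411 495 (.d 431 3441 369 3472 524))
 .e)))
 .e)))
 .e))))
 .e)))
 (.a 1 [297] (.d 462 2378 330 2411 495)
 .e)))))
 (.a 1 [398] (.q 429 (.a 1 [] (.d 330 2345 297 2378 462)
 (.a 1 [297] (.d 462 2378 330 2411 495)
 (.a 0 [330,462] (.q 365 (.a 1 [] (.d 333 1325 301 1357 461)
 (.a 1 [301] (.d 461 1357 333 1389 493)
 (.a 1 [461] (.r 301 1325 333 (.d 332 3342 270 3373 425))
 (.a 0 [333] (.q 427 (.a 1 [] (.d 334 3375 303 3406 458)
 (.a 1 [303] (.d 458 3406 334 3437 489)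
 (.a 1 [334] (.r 395 393 393 (.d 459 1355 331 1387 491))
 .e))))
 .e)))))
 .e))))
 (.a 1 [393] (.q 429 (.a 1 [] (.d 330 2345 297 2378 462)
 (.a 1 [297] (.d 462 2378 330 2411 495)
 (.a 0 [330,462] (.q 365 (.a 1 [] (.d 333 1325 301 1357 461)
 (.a 1 [301] (.d 461 1357 333 1389 493)
 (.a 1 [461] (.r 398 394 395 (.r 301 1325 333 (.d 332 3342 270 3373 425)))
 (.a 0 [333] (.q 332 (.a 1 [] (.d 301 3342 270 3373 425)
 (.a 1 [270] (.d 425 3373 301 3404 456)
 (.a 1 [301] (.r 398 394 395 (.d 431 2347 299 2380 464))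
 .e))))
 .e)))))
 .e))))
 .e)))))
 (.a 0 [299] (.q 330 (.a 1 [] (.d 297 2312 264 2345 429)
 (.a 1 [429] (.q 395 (.a 1 [] (.d 393 392 392 393 397)
 (.a 1 [397] (.q 425 (.a 1 [] (.d 332 3373 301 3404 456)
 (.a 1 [301] (.d 456 3404 332 3435 487)
 (.a 0 [332,456] (.q 426 (.a 1 [] (.d 362 1322 298 1354 458)
 (.a 1 [298] (.r 458 1354 362 (.r 392 392 393 (.d 491 2407 359 2440 524)))
 (.a 0 [362,458] (.q 427 (.a 1 [] (.d 424 423 423 424 428)
 (.a 1 [423] (.d 459 1355 331 1387 491)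
 .e)))
 .e))))
 .e))))
 (.a 1 [393] (.q 362 (.a 1 [] (.d 298 1290 266 1322 426)
 (.a 1 [266] (.d 426 1322 298 1354 458)
 (.a 0 [298,426] (.q 428 (.a 1 [] (.d 329 2344 296 2377 461)
 (.a 1 [296] (.d 461 2377 329 2410 494)
 (.a 0 [329,461] (.q 459 (.a 1 [] (.d 427 1355 331 1387 491)
 (.a 1 [331] (.r 397 394 398 (.d 490 3438 366 3469 521))
 .e)))
 .e))))
 .e))))
 .e))))
 (.a 1 [297] (.q 395 (.a 1 [] (.d 393 392 392 393 397)
 (.a 1 [392] (.d 397 393 393 394 398)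
 (.a 0 [393,397] (.q 425 (.a 1 [] (.d 332 3373 301 3404 456)
 (.a 1 [301] (.d 456 3404 332 3435 487)
 (.a 0 [332,456] (.q 427 (.a 1 [] (.d 459 1355 331 1387 491)
 (.a 1 [331] (.r 429 2378 462 (.r 426 425 428 (.d 362 1322 298 1354 458)))
 .e)))
 .e))))
 .e))))
 .e))))
 (.a 1 [333] (.q 330 (.a 1 [] (.d 297 2312 264 2345 429)
 (.a 1 [429] (.q 426 (.a 1 [] (.d 362 1322 298 1354 458)
 (.a 0 [298,362,458] (.q 425 (.a 1 [] (.d 332 3373 301 3404 456)
 (.a 1 [301] (.d 456 3404 332 3435 487)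
 (.a 0 [332,456] (.q 427 (.a 1 [] (.d 424 423 423 424 428)
 (.a 0 [423,424,428] (.q 395 (.a 1 [] (.d 393 392 392 393 397)
 (.a 1 [392] (.d 397 393 393 394 398)
 (.a 1 [393] (.d 331 1323 299 1355 459)
 .e))))
 .e)))
 .e))))
 .e)))
 (.a 1 [297] (.q 395 (.a 1 [] (.d 393 392 392 393 397)
 (.a 1 [392] (.d 397 393 393 394 398)
 (.a 0 [393,397] (.q 331 (.a 1 [] (.d 299 1291 267 1323 427)
 (.a 1 [267] (.d 427 1323 299 1355 459)
 (.a 0 [299,427] (.q 329 (.a 1 [] (.d 328 327 327 328 332)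
 (.a 1 [327] (.r 332 328 328 (.d 301 3342 270 3373 425))
 (.a 0 [328,332] (.q 362 (.a 1 [] (.d 298 1290 266 1322 426)
 (.a 1 [266] (.d 426 1322 298 1354 458)
 (.a 1 [298] (.d 296 2311 263 2344 428)
 .e))))
 .e))))
 .e))))
 .e))))
 .e))))
 (.a 0 [430] (.q 429 (.a 1 [] (.d 330 2345 297 2378 462)
 (.a 1 [330] (.q 397 (.a 1 [] (.d 395 393 393 394 398)
 (.a 1 [395] (.q 332 (.a 1 [] (.d 301 3342 270 3373 425)
 (.a 1 [270] (.d 425 3373 301 3404 456)
 (.a 0 [301,425] (.q 493 (.a 1 [] (.d 461 1389 365 1421 525)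
 (.a 0 [365,461,525] (.q 460 (.a 1 [] (.d 427 2409 361 2442 526)
 (.a 0 [361,427,526] (.q 400 (.a 1 [] (.r 398 396 399 (.d 491 3439 367 3470 522))
 (.a 1 [337] (.r 462 2411 495 (.d 431 3441 369 3472 524))
 (.a 1 [368] (.r 462 2411 495 (.d 431 3441 369 3472 524))
 (.a 1 [399] (.r 462 2411 495 (.d 431 3441 369 3472 524))
 .e)))))
 .e)))
 .e)))
 .e))))
 (.a 1 [398] (.q 365 (.a 1 [] (.d 333 1325 301 1357 461)
 (.a 1 [301] (.d 461 1357 333 1389 493)
 (.a 1 [461] (.r 301 1325 333 (.d 332 3342 270 3373 425))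
 (.a 0 [333] (.q 427 (.a 1 [] (.d 334 3375 303 3406 458)
 (.a 1 [303] (.d 458 3406 334 3437 489)
 (.a 1 [334] (.r 395 393 393 (.d 459 1355 331 1387 491))
 .e))))
 .e)))))
 (.a 1 [393] (.q 365 (.a 1 [] (.d 333 1325 301 1357 461)
 (.a 1 [301] (.d 461 1357 333 1389 493)
 (.a 1 [461] (.r 398 394 395 (.r 301 1325 333 (.d 332 3342 270 3373 425)))
 (.a 0 [333] (.q 332 (.a 1 [] (.d 301 3342 270 3373 425)
 (.a 1 [270] (.d 425 3373 301 3404 456)
 (.a 1 [301] (.r 398 394 395 (.d 431 2347 299 2380 464))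
 .e))))
 .e)))))
 .e)))))
 (.a 1 [462] (.q 425 (.a 1 [] (.d 332 3373 301 3404 456)
 (.a 1 [301] (.d 456 3404 332 3435 487)
 (.a 0 [332,456] (.q 427 (.a 1 [] (.r 426 425 428 (.r 330 2345 297 (.d 362 1322 298 1354 458)))
 (.a 1 [298] (.r 426 425 428 (.r 330 2345 297 (.r 458 1354 362 (.d 489 3437 365 3468 520))))
 (.a 0 [297,330,362,426,428,458] (.q 395 (.a 1 [] (.d 393 392 392 393 397)
 (.a 1 [392] (.d 397 393 393 394 398)
 (.a 1 [393] (.d 331 1323 299 1355 459)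
 .e))))
 .e))))
 .e))))
 (.a 1 [297] (.d 462 2378 330 2411 495)
 .e)))))
 (.a 1 [496] (.q 425 (.a 1 [] (.d 332 3373 301 3404 456)
 (.a 1 [332] (.q 330 (.a 1 [] (.d 297 2312 264 2345 429)
 (.a 1 [264] (.d 429 2345 297 2378 462)
 (.a 0 [297,429] (.q 426 (.a 1 [] (.d 362 1322 298 1354 458)
 (.a 0 [298,362,458] (.q 427 (.a 1 [] (.d 424 423 423 424 428)
 (.a 0 [423,424,428] (.q 395 (.a 1 [] (.d 393 392 392 393 397)
 (.a 1 [392] (.d 397 393 393 394 398)
 (.a 1 [393] (.d 331 1323 299 1355 459)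
 .e))))
 .e)))
 .e)))
 .e))))
 (.a 1 [456] (.q 330 (.a 1 [] (.d 297 2312 264 2345 429)
 (.a 1 [264] (.d 429 2345 297 2378 462)
 (.a 0 [297,429] (.q 426 (.a 1 [] (.d 362 1322 298 1354 458)
 (.a 0 [298,362,458] (.q 427 (.a 1 [] (.d 424 423 423 424 428)
 (.a 0 [423,424,428] (.q 395 (.a 1 [] (.d 393 392 392 393 397)
 (.a 1 [392] (.d 397 393 393 394 398)
 (.a 1 [393] (.d 331 1323 299 1355 459)
 .e))))
 .e)))
 .e)))
 .e))))
 (.a 1 [301] (.d 456 3404 332 3435 487)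
 .e)))))
 (.a 1 [428] (.q 395 (.a 1 [] (.d 393 392 392 393 397)
 (.a 1 [397] (.q 429 (.a 1 [] (.d 330 2345 297 2378 462)
 (.a 1 [297] (.d 462 2378 330 2411 495)
 (.a 0 [330,462] (.q 425 (.a 1 [] (.d 332 3373 301 3404 456)
 (.a 1 [301] (.d 456 3404 332 3435 487)
 (.a 0 [332,456] (.q 491 (.a 1 [] (.r 427 1387 459 (.r 392 392 393 (.d 458 2407 359 2440 524)))
 (.a 1 [335] (.r 392 392 393 (.d 458 2407 359 2440 524))
 (.a 1 [359] (.r 427 1387 459 (.r 392 392 393 (.r 458 2440 524 (.d 489 3437 365 3468 520))))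
 (.a 1 [366] (.r 392 392 393 (.d 458 2407 359 2440 524))
 (.a 1 [459] (.r 392 392 393 (.d 458 2407 359 2440 524))
 (.a 1 [524] (.r 427 1387 459 (.r 392 392 393 (.r 458 2407 359 (.d 489 3437 365 3468 520))))
 (.a 0 [392,393,458] (.q 460 (.a 1 [] (.d 398 3439 367 3470 522)
 (.a 1 [367] (.d 522 3470 398 3501 553)
 (.a 1 [398] (.r 427 1387 459 (.d 493 2409 361 2442 526))
 .e))))
 .e))))))))
 .e))))
 .e))))
 (.a 1 [393] (.q 427 (.a 1 [] (.d 331 1323 299 1355 459)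
 (.a 1 [299] (.d 459 1355 331 1387 491)
 (.a 0 [331,459] (.q 458 (.a 1 [] (.d 365 3406 334 3437 489)
 (.a 1 [334] (.d 489 3437 365 3468 520)
 (.a 0 [365,489] (.q 425 (.a 1 [] (.d 332 3373 301 3404 456)
 (.a 1 [301] (.d 456 3404 332 3435 487)
 (.a 0 [332,456] (.q 330 (.a 1 [] (.d 297 2312 264 2345 429)
 (.a 1 [264] (.d 429 2345 297 2378 462)
 (.a 0 [297,429] (.q 361 (.a 1 [] (.d 328 2343 295 2376 460)
 (.a 1 [295] (.d 460 2376 328 2409 493)
 (.a 0 [328,460] (.q 392 (.a 1 [] (.d 359 2374 326 2407 491)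
 (.a 1 [326] (.d 423 3371 299 3402 454)
 .e)))
 .e))))
 .e))))
 .e))))
 .e))))
 .e))))
 (.a 1 [392] (.d 397 393 393 394 398)
 .e)))))
 (.a 0 [463] (.q 397 (.a 1 [] (.d 395 393 393 394 398)
 (.a 0 [395] (.q 429 (.a 1 [] (.d 330 2345 297 2378 462)
 (.a 0 [462] (.r 330 2345 297 (.q 425 (.a 1 [] (.d 332 3373 301 3404 456)
 (.a 1 [332] (.q 426 (.a 1 [] (.d 362 1322 298 1354 458)
 (.a 1 [362] (.q 461 (.a 1 [] (.d 365 1357 333 1389 493)
 (.a 1 [333] (.d 493 1389 365 1421 525)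
 (.a 1 [365] (.r 427 425 428 (.r 493 1421 525 (.d 460 2409 361 2442 526)))
 (.a 1 [493] (.r 427 425 428 (.r 365 1357 333 (.d 458 3406 334 3437 489)))
 .e)))))
 (.a 1 [458] (.q 493 (.a 1 [] (.d 461 1389 365 1421 525)
 (.a 1 [365] (.r 427 425 428 (.d 460 2409 361 2442 526))
 .e)))
 .e))))
 (.a 1 [456] (.q 426 (.a 1 [] (.d 362 1322 298 1354 458)
 (.a 1 [298] (.r 427 425 428 (.r 458 1354 362 (.d 489 3437 365 3468 520)))
 (.a 1 [362] (.r 427 425 428 (.r 301 3373 332 (.r 365 1325 333 (.d 458 3406 334 3437 489))))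
 (.a 1 [458] (.r 427 425 428 (.r 301 3373 332 (.r 365 1325 333 (.r 493 1389 461 (.d 460 2409 361 2442 526)))))
 .e)))))
 (.a 1 [301] (.d 456 3404 332 3435 487)
 .e))))))
 (.a 1 [330] (.q 332 (.a 1 [] (.d 301 3342 270 3373 425)
 (.a 1 [270] (.d 425 3373 301 3404 456)
 (.a 0 [301,425] (.q 493 (.a 1 [] (.d 461 1389 365 1421 525)
 (.a 0 [365,461,525] (.q 460 (.a 1 [] (.d 427 2409 361 2442 526)
 (.a 0 [361,427,526] (.q 400 (.a 1 [] (.r 398 396 399 (.d 491 3439 367 3470 522))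
 (.a 1 [367] (.r 462 2411 495 (.d 431 3441 369 3472 524))
 .e)))
 .e)))
 .e)))
 .e))))
 (.a 1 [297] (.d 462 2378 330 2411 495)
 .e)))))
 (.a 1 [398] (.q 429 (.a 1 [] (.d 330 2345 297 2378 462)
 (.a 1 [297] (.d 462 2378 330 2411 495)
 (.a 0 [330,462] (.q 365 (.a 1 [] (.d 333 1325 301 1357 461)
 (.a 1 [301] (.d 461 1357 333 1389 493)
 (.a 1 [461] (.r 301 1325 333 (.d 332 3342 270 3373 425))
 (.a 0 [333] (.q 427 (.a 1 [] (.d 334 3375 303 3406 458)
 (.a 1 [303] (.d 458 3406 334 3437 489)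
 (.a 1 [334] (.r 395 393 393 (.d 459 1355 331 1387 491))
 .e))))
 .e)))))
 .e))))
 (.a 1 [393] (.q 429 (.a 1 [] (.d 330 2345 297 2378 462)
 (.a 1 [297] (.d 462 2378 330 2411 495)
 (.a 0 [330,462] (.q 365 (.a 1 [] (.d 333 1325 301 1357 461)
 (.a 1 [301] (.d 461 1357 333 1389 493)
 (.a 1 [461] (.r 398 394 395 (.r 301 1325 333 (.d 332 3342 270 3373 425)))
 (.a 0 [333] (.q 332 (.a 1 [] (.d 301 3342 270 3373 425)
 (.a 1 [270] (.d 425 3373 301 3404 456)
 (.a 1 [301] (.r 398 394 395 (.d 431 2347 299 2380 464))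
 .e))))
 .e)))))
 .e))))
 .e)))))
 (.a 1 [300] (.q 330 (.a 1 [] (.d 297 2312 264 2345 429)
 (.a 1 [297] (.q 395 (.a 1 [] (.d 393 392 392 393 397)
 (.a 1 [392] (.d 397 393 393 394 398)
 (.a 0 [393,397] (.q 331 (.a 1 [] (.d 299 1291 267 1323 427)
 (.a 1 [267] (.d 427 1323 299 1355 459)
 (.a 0 [299,427] (.q 298 (.a 1 [] (.d 362 1290 266 1322 426)
 (.a 0 [266,362,426] (.q 332 (.a 1 [] (.d 329 328 328 329 333)
 (.a 1 [328] (.d 333 329 329 330 334)
 (.a 1 [329] (.d 301 3342 270 3373 425)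
 .e))))
 .e)))
 .e))))
 .e))))
 (.a 1 [429] (.q 395 (.a 1 [] (.d 393 392 392 393 397)
 (.a 1 [392] (.d 397 393 393 394 398)
 (.a 0 [393,397] (.q 331 (.a 1 [] (.d 299 1291 267 1323 427)
 (.a 1 [267] (.d 427 1323 299 1355 459)
 (.a 0 [299,427] (.q 332 (.a 1 [] (.d 329 328 328 329 333)
 (.a 1 [328] (.d 333 329 329 330 334)
 (.a 1 [329] (.d 301 3342 270 3373 425)
 .e))))
 .e))))
 .e))))
 .e))))
 (.a 1 [329] (.q 395 (.a 1 [] (.d 393 392 392 393 397)
 (.a 1 [397] (.q 331 (.a 1 [] (.d 299 1291 267 1323 427)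
 (.a 1 [267] (.d 427 1323 299 1355 459)
 (.a 0 [299,427] (.q 330 (.a 1 [] (.d 297 2312 264 2345 429)
 (.a 1 [264] (.d 429 2345 297 2378 462)
 (.a 0 [297,429] (.q 362 (.a 1 [] (.d 298 1290 266 1322 426)
 (.a 1 [266] (.d 426 1322 298 1354 458)
 (.a 1 [298] (.r 393 392 392 (.d 424 3372 300 3403 455))
 .e))))
 .e))))
 .e))))
 (.a 1 [393] (.q 427 (.a 1 [] (.d 331 1323 299 1355 459)
 (.a 1 [299] (.d 459 1355 331 1387 491)
 (.a 0 [331,459] (.q 330 (.a 1 [] (.d 297 2312 264 2345 429)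
 (.a 1 [264] (.d 429 2345 297 2378 462)
 (.a 0 [297,429] (.q 361 (.a 1 [] (.d 328 2343 295 2376 460)
 (.a 1 [295] (.d 460 2376 328 2409 493)
 (.a 0 [328,460] (.q 458 (.a 1 [] (.d 365 3406 334 3437 489)
 (.a 1 [334] (.d 489 3437 365 3468 520)
 (.a 0 [365,489] (.q 425 (.a 1 [] (.d 332 3373 301 3404 456)
 (.a 1 [301] (.d 456 3404 332 3435 487)
 (.a 1 [332] (.r 426 1354 362 (.d 424 423 423 424 428))
 .e))))
 .e))))
 .e))))
 .e))))
 .e))))
 .e))))
 (.a 1 [462] (.q 395 (.a 1 [] (.d 393 392 392 393 397)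
 (.a 1 [392] (.d 397 393 393 394 398)
 (.a 0 [393,397] (.q 331 (.a 1 [] (.d 299 1291 267 1323 427)
 (.a 1 [267] (.d 427 1323 299 1355 459)
 (.a 0 [299,427] (.q 332 (.a 1 [] (.d 301 3342 270 3373 425)
 (.a 1 [270] (.d 425 3373 301 3404 456)
 (.a 0 [301,425] (.q 330 (.a 1 [] (.d 329 328 328 329 333)
 (.a 1 [328] (.d 333 329 329 330 334)
 (.a 1 [329] (.d 297 2312 264 2345 429)
 .e))))
 .e))))
 .e))))
 .e))))
 (.a 1 [264] (.q 395 (.a 1 [] (.d 393 392 392 393 397)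
 (.a 1 [392] (.d 397 393 393 394 398)
 (.a 0 [393,397] (.q 331 (.a 1 [] (.d 299 1291 267 1323 427)
 (.a 1 [267] (.d 427 1323 299 1355 459)
 (.a 0 [299,427] (.q 332 (.a 1 [] (.d 301 3342 270 3373 425)
 (.a 1 [270] (.d 425 3373 301 3404 456)
 (.a 0 [301,425] (.q 330 (.a 1 [] (.d 329 328 328 329 333)
 (.a 1 [328] (.d 333 329 329 330 334)
 (.a 1 [329] (.d 429 2345 297 2378 462)
 .e))))
 .e))))
 .e))))
 .e))))
 (.a 1 [270] (.q 395 (.a 1 [] (.d 393 392 392 393 397)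
 (.a 1 [392] (.d 397 393 393 394 398)
 (.a 0 [393,397] (.q 331 (.a 1 [] (.d 299 1291 267 1323 427)
 (.a 1 [267] (.d 427 1323 299 1355 459)
 (.a 0 [299,427] (.q 330 (.a 1 [] (.d 297 2312 264 2345 429)
 (.a 1 [264] (.d 429 2345 297 2378 462)
 (.a 0 [297,429] (.q 332 (.a 1 [] (.d 329 328 328 329 333)
 (.a 1 [328] (.d 333 329 329 330 334)
 (.a 1 [329] (.d 425 3373 301 3404 456)
 .e))))
 .e))))
 .e))))
 .e))))
 (.a 1 [361] (.q 395 (.a 1 [] (.d 393 392 392 393 397)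
 (.a 1 [392] (.d 397 393 393 394 398)
 (.a 0 [393,397] (.q 331 (.a 1 [] (.d 299 1291 267 1323 427)
 (.a 1 [267] (.d 427 1323 299 1355 459)
 (.a 0 [299,427] (.q 330 (.a 1 [] (.d 297 2312 264 2345 429)
 (.a 1 [264] (.d 429 2345 297 2378 462)
 (.a 0 [297,429] (.q 329 (.a 1 [] (.d 328 327 327 328 332)
 (.a 1 [327] (.d 332 328 328 329 333)
 (.a 1 [328] (.r 332 329 333 (.d 425 3373 301 3404 456))
 (.a 0 [332] (.q 362 (.a 1 [] (.d 298 1290 266 1322 426)
 (.a 1 [266] (.d 426 1322 298 1354 458)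
 (.a 1 [298] (.d 296 2311 263 2344 428)
 .e))))
 .e)))))
 .e))))
 .e))))
 .e))))
 (.a 1 [328] (.q 395 (.a 1 [] (.d 393 392 392 393 397)
 (.a 1 [392] (.d 397 393 393 394 398)
 (.a 0 [393,397] (.q 331 (.a 1 [] (.d 299 1291 267 1323 427)
 (.a 1 [267] (.d 427 1323 299 1355 459)
 (.a 0 [299,427] (.q 330 (.a 1 [] (.d 297 2312 264 2345 429)
 (.a 1 [264] (.d 429 2345 297 2378 462)
 (.a 0 [297,429] (.q 332 (.a 1 [] (.d 333 329 329 330 334)
 (.a 1 [329] (.d 425 3373 301 3404 456)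
 .e)))
 .e))))
 .e))))
 .e))))
 (.a 1 [267] (.q 395 (.a 1 [] (.d 393 392 392 393 397)
 (.a 1 [392] (.d 397 393 393 394 398)
 (.a 0 [393,397] (.q 330 (.a 1 [] (.d 297 2312 264 2345 429)
 (.a 1 [264] (.d 429 2345 297 2378 462)
 (.a 0 [297,429] (.q 331 (.a 1 [] (.d 427 1323 299 1355 459)
 (.a 0 [299,427,459] (.q 332 (.a 1 [] (.d 329 328 328 329 333)
 (.a 1 [328] (.d 333 329 329 330 334)
 (.a 1 [329] (.d 301 3342 270 3373 425)
 .e))))
 .e)))
 .e))))
 .e))))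
 (.a 1 [459] (.q 395 (.a 1 [] (.d 393 392 392 393 397)
 (.a 1 [392] (.d 397 393 393 394 398)
 (.a 0 [393,397] (.q 330 (.a 1 [] (.d 297 2312 264 2345 429)
 (.a 1 [264] (.d 429 2345 297 2378 462)
 (.a 0 [297,429] (.q 331 (.a 1 [] (.d 299 1291 267 1323 427)
 (.a 0 [267,299,427] (.q 332 (.a 1 [] (.d 329 328 328 329 333)
 (.a 1 [328] (.d 333 329 329 330 334)
 (.a 1 [329] (.d 301 3342 270 3373 425)
 .e))))
 .e)))
 .e))))
 .e))))
 .e))))))))))))))))))))))))))))))))) (by decide +kernel)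

theorem r428 : S (Nat.lor X2 (bits [499, 428])) := S.of (.q 365 (.a 1 [] (.q 429 (.a 1 [] (.d 330 2345 297 2378 462)
 (.a 1 [297] (.d 462 2378 330 2411 495)
 (.a 0 [330,462] (.q 397 (.a 1 [] (.d 333 1325 301 1357 461)
 (.a 1 [301] (.d 461 1357 333 1389 493)
 (.a 0 [333,461] (.q 395 (.a 1 [] (.d 394 393 393 394 398)
 (.a 1 [393] (.d 398 394 394 395 399)
 (.a 0 [394,398] (.q 427 (.a 1 [] (.d 331 1323 299 1355 459)
 (.a 1 [299] (.d 459 1355 331 1387 491)
 (.a 1 [331] (.d 334 3375 303 3406 458)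
 .e))))
 .e))))
 .e))))
 .e))))
 (.a 0 [427] (.q 364 (.a 1 [] (.d 362 361 361 362 366)
 (.a 1 [366] (.q 429 (.a 1 [] (.d 330 2345 297 2378 462)
 (.a 1 [462] (.q 397 (.a 1 [] (.d 333 1325 301 1357 461)
 (.a 1 [301] (.d 461 1357 333 1389 493)
 (.a 0 [333,461] (.q 394 (.a 1 [] (.d 395 393 393 394 398)
 (.a 0 [393,395,398] (.r 362 361 361 (.r 330 2345 297 (.d 426 1322 298 1354 458)))
 .e)))
 .e))))
 (.a 1 [330] (.q 397 (.a 1 [] (.d 333 1325 301 1357 461)
 (.a 1 [301] (.d 461 1357 333 1389 493)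
 (.a 0 [333,461] (.q 331 (.a 1 [] (.d 298 2313 265 2346 430)
 (.a 1 [265] (.d 430 2346 298 2379 463)
 (.a 0 [298,430] (.r 362 361 361 (.q 300 (.a 1 [] (.d 269 3310 238 3341 393)
 (.a 1 [238] (.d 393 3341 269 3372 424)
 (.a 0 [269,393] (.q 398 (.a 1 [] (.d 395 394 394 395 399)
 (.a 1 [394] (.d 399 395 395 396 400)
 (.a 1 [395] (.r 332 1292 268 (.d 431 2347 299 2380 464))
 .e))))
 .e)))))
 .e))))
 .e))))
 (.a 1 [297] (.d 462 2378 330 2411 495)
 .e)))))
 (.a 1 [362] (.q 429 (.a 1 [] (.d 330 2345 297 2378 462)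
 (.a 1 [297] (.d 462 2378 330 2411 495)
 (.a 0 [330,462] (.r 367 363 366 (.q 398 (.a 1 [] (.d 336 3377 305 3408 460)
 (.a 1 [305] (.d 460 3408 336 3439 491)
 (.a 0 [336,460] (.q 397 (.a 1 [] (.d 395 394 394 395 399)
 (.a 1 [394] (.d 399 395 395 396 400)
 (.a 1 [395] (.d 333 1325 301 1357 461)
 .e))))
 .e)))))
 .e))))
 (.a 1 [361] (.d 366 362 362 363 367)
 .e)))))
 (.a 0 [429] (.q 364 (.a 1 [] (.d 362 361 361 362 366)
 (.a 1 [362] (.q 427 (.a 1 [] (.d 334 3375 303 3406 458)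
 (.a 1 [458] (.q 395 (.a 1 [] (.d 331 1323 299 1355 459)
 (.a 1 [299] (.d 459 1355 331 1387 491)
 (.a 0 [331,459] (.q 398 (.a 1 [] (.d 397 394 394 395 399)
 (.a 0 [394,397,399] (.r 366 363 367 (.r 334 3375 303 (.d 430 1326 302 1358 462)))
 .e)))
 .e))))
 (.a 1 [334] (.q 395 (.a 1 [] (.d 331 1323 299 1355 459)
 (.a 1 [299] (.d 459 1355 331 1387 491)
 (.a 0 [331,459] (.q 333 (.a 1 [] (.d 302 3343 271 3374 426)
 (.a 1 [271] (.d 426 3374 302 3405 457)
 (.a 0 [302,426] (.r 366 363 367 (.q 300 (.a 1 [] (.d 267 2282 234 2315 399)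
 (.a 1 [234] (.d 399 2315 267 2348 432)
 (.a 0 [267,399] (.q 394 (.a 1 [] (.d 393 392 392 393 397)
 (.a 1 [392] (.d 397 393 393 394 398)
 (.a 1 [393] (.r 332 1292 268 (.d 425 3373 301 3404 456))
 .e))))
 .e)))))
 .e))))
 .e))))
 (.a 1 [303] (.d 458 3406 334 3437 489)
 .e)))))
 (.a 1 [366] (.q 427 (.a 1 [] (.d 334 3375 303 3406 458)
 (.a 1 [303] (.d 458 3406 334 3437 489)
 (.a 0 [334,458] (.r 361 361 362 (.q 394 (.a 1 [] (.d 328 2343 295 2376 460)
 (.a 1 [295] (.d 460 2376 328 2409 493)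
 (.a 0 [328,460] (.q 395 (.a 1 [] (.d 393 392 392 393 397)
 (.a 1 [392] (.d 397 393 393 394 398)
 (.a 1 [393] (.d 331 1323 299 1355 459)
 .e))))
 .e)))))
 .e))))
 (.a 1 [361] (.d 366 362 362 363 367)
 .e)))))
 (.a 1 [330] (.q 364 (.a 1 [] (.d 362 361 361 362 366)
 (.a 1 [362] (.q 334 (.a 1 [] (.d 303 3344 272 3375 427)
 (.a 1 [272] (.d 427 3375 303 3406 458)
 (.a 0 [303,427] (.r 367 363 366 (.q 301 (.a 1 [] (.d 268 2283 235 2316 400)
 (.a 1 [235] (.d 400 2316 268 2349 433)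
 (.a 1 [400] (.r 268 2283 235 (.r 332 1292 300 (.d 394 3342 270 3373 425)))
 (.a 0 [268] (.q 397 (.a 1 [] (.d 333 1293 269 1325 429)
 (.a 1 [269] (.r 429 1325 333 (.r 400 2349 433 (.r 398 396 399 (.d 460 3408 336 3439 491))))
 (.a 1 [333] (.r 400 2349 433 (.r 398 396 399 (.r 394 394 395 (.d 332 3342 270 3373 425))))
 .e))))
 .e))))))
 .e))))
 (.a 1 [366] (.q 427 (.a 1 [] (.d 334 3375 303 3406 458)
 (.a 1 [303] (.d 458 3406 334 3437 489)
 (.a 0 [334,458] (.r 361 361 362 (.q 394 (.a 1 [] (.d 328 2343 295 2376 460)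
 (.a 1 [295] (.d 460 2376 328 2409 493)
 (.a 0 [328,460] (.q 395 (.a 1 [] (.d 393 392 392 393 397)
 (.a 1 [392] (.d 397 393 393 394 398)
 (.a 1 [393] (.d 331 1323 299 1355 459)
 .e))))
 .e)))))
 .e))))
 (.a 1 [361] (.d 366 362 362 363 367)
 .e)))))
 (.a 1 [334] (.q 364 (.a 1 [] (.d 362 361 361 362 366)
 (.a 1 [366] (.q 330 (.a 1 [] (.d 297 2312 264 2345 429)
 (.a 1 [264] (.d 429 2345 297 2378 462)
 (.a 0 [297,429] (.r 361 361 362 (.q 299 (.a 1 [] (.d 268 3309 237 3340 392)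
 (.a 1 [237] (.d 392 3340 268 3371 423)
 (.a 1 [392] (.r 268 3309 237 (.r 332 1292 300 (.d 398 2314 266 2347 431)))
 (.a 0 [268] (.q 395 (.a 1 [] (.d 331 1291 267 1323 427)
 (.a 1 [267] (.r 427 1323 331 (.r 392 3371 423 (.r 394 392 393 (.d 460 2376 328 2409 493))))
 (.a 1 [331] (.r 392 3371 423 (.r 394 392 393 (.r 398 394 397 (.d 332 2314 266 2347 431))))
 .e))))
 .e))))))
 .e))))
 (.a 1 [362] (.q 429 (.a 1 [] (.d 330 2345 297 2378 462)
 (.a 1 [297] (.d 462 2378 330 2411 495)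
 (.a 0 [330,462] (.r 367 363 366 (.q 398 (.a 1 [] (.d 336 3377 305 3408 460)
 (.a 1 [305] (.d 460 3408 336 3439 491)
 (.a 0 [336,460] (.q 397 (.a 1 [] (.d 395 394 394 395 399)
 (.a 1 [394] (.d 399 395 395 396 400)
 (.a 1 [395] (.d 333 1325 301 1357 461)
 .e))))
 .e)))))
 .e))))
 (.a 1 [361] (.d 366 362 362 363 367)
 .e)))))
 (.a 0 [362] (.q 427 (.a 1 [] (.d 334 3375 303 3406 458)
 (.a 1 [458] (.q 395 (.a 1 [] (.d 331 1323 299 1355 459)
 (.a 1 [459] (.q 398 (.a 1 [] (.d 397 394 394 395 399)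
 (.a 1 [394] (.r 299 1323 331 (.d 332 2314 266 2347 431))
 .e)))
 (.a 1 [331] (.q 429 (.a 1 [] (.d 330 2345 297 2378 462)
 (.a 1 [297] (.d 462 2378 330 2411 495)
 (.a 0 [330,462] (.q 394 (.a 1 [] (.d 393 392 392 393 397)
 (.a 1 [392] (.d 397 393 393 394 398)
 (.a 1 [393] (.r 397 394 398 (.d 461 1357 333 1389 493))
 (.a 0 [397] (.q 460 (.a 1 [] (.d 361 2376 328 2409 493)
 (.a 1 [328] (.d 493 2409 361 2442 526)
 (.a 1 [361] (.r 491 1387 459 (.d 522 3470 398 3501 553))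
 .e))))
 .e)))))
 .e))))
 (.a 1 [299] (.d 459 1355 331 1387 491)
 .e)))))
 (.a 1 [334] (.q 395 (.a 1 [] (.d 331 1323 299 1355 459)
 (.a 1 [299] (.d 459 1355 331 1387 491)
 (.a 0 [331,459] (.q 397 (.a 1 [] (.d 394 393 393 394 398)
 (.a 1 [393] (.d 398 394 394 395 399)
 (.a 0 [394,398] (.q 429 (.a 1 [] (.d 333 1325 301 1357 461)
 (.a 1 [301] (.d 461 1357 333 1389 493)
 (.a 1 [333] (.d 330 2345 297 2378 462)
 .e))))
 .e))))
 .e))))
 .e))))
 (.a 0 [366] (.q 429 (.a 1 [] (.d 330 2345 297 2378 462)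
 (.a 1 [462] (.q 397 (.a 1 [] (.d 333 1325 301 1357 461)
 (.a 1 [461] (.q 394 (.a 1 [] (.d 395 393 393 394 398)
 (.a 1 [393] (.r 398 394 395 (.r 301 1325 333 (.d 332 3342 270 3373 425)))
 (.a 1 [395] (.r 301 1325 333 (.d 332 3342 270 3373 425))
 .e))))
 (.a 1 [333] (.q 427 (.a 1 [] (.d 334 3375 303 3406 458)
 (.a 1 [303] (.d 458 3406 334 3437 489)
 (.a 0 [334,458] (.q 398 (.a 1 [] (.d 395 394 394 395 399)
 (.a 1 [394] (.d 399 395 395 396 400)
 (.a 1 [399] (.r 395 394 394 (.d 459 1355 331 1387 491))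
 (.a 0 [395] (.q 460 (.a 1 [] (.d 367 3408 336 3439 491)
 (.a 1 [336] (.d 491 3439 367 3470 522)
 (.a 1 [367] (.r 493 1389 461 (.d 526 2442 394 2475 559))
 .e))))
 .e)))))
 .e))))
 (.a 1 [301] (.d 461 1357 333 1389 493)
 .e)))))
 (.a 1 [330] (.q 397 (.a 1 [] (.d 333 1325 301 1357 461)
 (.a 1 [301] (.d 461 1357 333 1389 493)
 (.a 0 [333,461] (.q 395 (.a 1 [] (.d 394 393 393 394 398)
 (.a 1 [393] (.d 398 394 394 395 399)
 (.a 0 [394,398] (.q 427 (.a 1 [] (.d 331 1323 299 1355 459)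
 (.a 1 [299] (.d 459 1355 331 1387 491)
 (.a 1 [331] (.d 334 3375 303 3406 458)
 .e))))
 .e))))
 .e))))
 .e))))
 (.a 1 [458] (.q 330 (.a 1 [] (.d 297 2312 264 2345 429)
 (.a 1 [429] (.q 362 (.a 1 [] (.d 364 361 361 362 366)
 (.a 0 [361,364,366] (.q 266 (.a 1 [] (.d 298 1258 234 1290 394)
 (.a 0 [234,298,394] (.q 299 (.a 1 [] (.d 332 2281 233 2314 398)
 (.a 0 [233,332,398] (.q 267 (.a 1 [] (.d 331 1259 235 1291 395)
 (.a 1 [235] (.r 264 2312 297 (.d 265 263 263 264 268))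
 .e)))
 .e)))
 .e)))
 .e)))
 (.a 1 [297] (.q 362 (.a 1 [] (.d 364 361 361 362 366)
 (.a 0 [361,364,366] (.q 394 (.a 1 [] (.d 298 1290 266 1322 426)
 (.a 0 [266,298,426] (.q 397 (.a 1 [] (.d 395 393 393 394 398)
 (.a 1 [393] (.r 429 2378 462 (.d 461 1357 333 1389 493))
 .e)))
 .e)))
 .e)))
 .e))))
 (.a 1 [462] (.q 334 (.a 1 [] (.d 303 3344 272 3375 427)
 (.a 1 [427] (.q 366 (.a 1 [] (.d 364 362 362 363 367)
 (.a 0 [362,364,367] (.q 270 (.a 1 [] (.d 302 1262 238 1294 398)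
 (.a 0 [238,302,398] (.q 301 (.a 1 [] (.d 332 3311 239 3342 394)
 (.a 0 [239,332,394] (.q 269 (.a 1 [] (.d 333 1261 237 1293 397)
 (.a 1 [237] (.r 272 3344 303 (.d 271 268 268 269 273))
 .e)))
 .e)))
 .e)))
 .e)))
 (.a 1 [303] (.q 366 (.a 1 [] (.d 364 362 362 363 367)
 (.a 0 [362,364,367] (.q 398 (.a 1 [] (.d 302 1294 270 1326 430)
 (.a 0 [270,302,430] (.q 395 (.a 1 [] (.d 397 394 394 395 399)
 (.a 1 [394] (.r 427 3406 458 (.d 459 1355 331 1387 491))
 .e)))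
 .e)))
 .e)))
 .e))))
 (.a 0 [395] (.q 330 (.a 1 [] (.d 297 2312 264 2345 429)
 (.a 0 [429] (.q 427 (.a 1 [] (.d 334 3375 303 3406 458)
 (.a 1 [334] (.r 458 3437 489 (.q 362 (.a 1 [] (.d 364 361 361 362 366)
 (.a 1 [364] (.q 266 (.a 1 [] (.d 394 1290 298 1354 426)
 (.a 1 [426] (.d 298 1258 234 1290 394)
 (.a 0 [298,394] (.q 299 (.a 1 [] (.d 332 2281 233 2314 398)
 (.a 0 [233,332,398] (.q 359 (.a 1 [] (.r 361 359 360 (.d 392 3340 268 3371 423))
 (.a 1 [268] (.r 297 2312 264 (.d 328 3307 235 3338 390))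
 .e)))
 .e)))
 .e))))
 (.a 1 [361] (.q 266 (.a 1 [] (.d 394 1290 298 1354 426)
 (.a 1 [426] (.d 298 1258 234 1290 394)
 (.a 0 [298,394] (.q 332 (.a 1 [] (.d 299 2281 233 2314 398)
 (.a 0 [233,299,398] (.q 331 (.a 1 [] (.d 329 328 328 329 333)
 (.a 1 [328] (.r 364 362 366 (.r 300 1292 268 (.d 393 3341 269 3372 424)))
 .e)))
 .e)))
 .e))))
 (.a 1 [366] (.r 394 1354 426 (.r 361 361 364 (.d 460 2376 328 2409 493)))
 .e))))))
 (.a 1 [458] (.q 362 (.a 1 [] (.d 364 361 361 362 366)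
 (.a 0 [361,364,366] (.q 266 (.a 1 [] (.d 298 1258 234 1290 394)
 (.a 0 [234,298,394] (.q 332 (.a 1 [] (.d 299 2281 233 2314 398)
 (.a 0 [233,299,398] (.q 328 (.a 1 [] (.r 297 2312 264 (.d 359 3307 235 3338 390))
 (.a 1 [235] (.r 331 328 329 (.d 334 3375 303 330 333))
 (.a 1 [297] (.r 334 3375 303 (.d 331 328 329 330 333))
 .e))))
 .e)))
 .e)))
 .e)))
 (.a 1 [303] (.d 458 3406 334 3437 489)
 .e)))))
 (.a 0 [297] (.r 429 2378 462 (.q 362 (.a 1 [] (.d 364 361 361 362 366)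
 (.a 0 [364] (.q 333 (.a 1 [] (.d 397 1325 301 1357 461)
 (.a 1 [461] (.r 301 1325 397 (.q 332 (.a 1 [] (.d 331 329 329 330 334)
 (.a 1 [494] (.q 527 (.a 1 [] (.d 270 3311 239 3342 394)
 (.a 1 [239] (.d 394 3342 270 3373 425)
 (.a 1 [270] (.d 331 329 329 330 334)
 .e))))
 (.a 1 [527] (.q 494 (.a 1 [] (.d 331 329 329 330 334)
 (.a 1 [331] (.d 270 3311 239 3342 394)
 .e)))
 (.a 1 [331] (.d 270 3311 239 3342 394)
 .e))))))
 (.a 1 [397] (.q 334 (.a 1 [] (.d 303 3344 272 3375 427)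
 (.a 1 [272] (.d 427 3375 303 3406 458)
 (.a 1 [303] (.r 332 330 331 (.r 458 3406 427 (.r 394 1354 426 (.d 425 3373 301 3404 456))))
 (.a 0 [427] (.q 298 (.a 1 [] (.d 266 1258 234 1290 394)
 (.a 1 [234] (.d 394 1290 266 1322 426)
 (.a 1 [266] (.r 332 330 331 (.r 394 1322 426 (.d 425 3373 301 3404 456)))
 (.a 1 [394] (.r 332 330 331 (.r 266 1258 234 (.d 299 2281 233 2314 398)))
 .e)))))
 .e)))))
 (.a 1 [301] (.q 334 (.a 1 [] (.d 303 3344 272 3375 427)
 (.a 1 [272] (.d 427 3375 303 3406 458)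
 (.a 1 [303] (.r 332 330 331 (.r 458 3406 427 (.r 394 1354 426 (.r 266 1290 298 (.d 299 2281 233 2314 398)))))
 (.a 0 [427] (.q 266 (.a 1 [] (.d 298 1258 234 1290 394)
 (.a 1 [234] (.r 332 330 331 (.d 299 2281 233 2314 398))
 .e)))
 .e)))))
 .e)))))
 (.a 1 [361] (.q 394 (.a 1 [] (.d 298 1290 266 1322 426)
 (.a 1 [266] (.d 426 1322 298 1354 458)
 (.a 1 [298] (.r 458 1354 426 (.d 427 3406 334 3437 489))
 (.a 0 [426] (.q 332 (.a 1 [] (.d 301 3342 270 3373 425)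
 (.a 1 [270] (.d 425 3373 301 3404 456)
 (.a 1 [301] (.r 266 1290 298 (.d 299 2281 233 2314 398))
 .e))))
 .e)))))
 .e)))))
 (.a 1 [264] (.d 429 2345 297 2378 462)
 .e)))))
 (.a 0 [397] (.q 330 (.a 1 [] (.d 297 2312 264 2345 429)
 (.a 1 [429] (.q 427 (.a 1 [] (.d 334 3375 303 3406 458)
 (.a 1 [334] (.q 362 (.a 1 [] (.d 364 361 361 362 366)
 (.a 1 [366] (.r 361 361 364 (.r 458 3437 489 (.r 394 1354 426 (.d 460 2376 328 2409 493))))
 (.a 0 [361,364] (.q 331 (.a 1 [] (.d 395 1323 299 1355 459)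
 (.a 1 [299] (.r 458 3437 489 (.r 394 1354 426 (.r 395 1355 459 (.r 393 392 392 (.d 424 3372 300 3403 455)))))
 (.a 1 [459] (.r 299 1323 395 (.r 458 3437 489 (.r 394 1354 426 (.r 266 1290 298 (.d 332 2281 233 2314 398)))))
 (.a 0 [395] (.q 329 (.a 1 [] (.d 328 327 327 328 332)
 (.a 1 [327] (.d 332 328 328 329 333)
 (.a 0 [328,332] (.q 300 (.a 1 [] (.d 269 3310 238 3341 393)
 (.a 1 [238] (.d 393 3341 269 3372 424)
 (.a 0 [269,393] (.q 298 (.a 1 [] (.d 266 1258 234 1290 394)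
 (.a 1 [234] (.d 394 1290 266 1322 426)
 (.a 1 [266] (.r 297 2312 264 (.d 299 296 296 297 301))
 .e))))
 .e))))
 .e))))
 .e)))))
 .e))))
 (.a 1 [458] (.q 331 (.a 1 [] (.d 395 1323 299 1355 459)
 (.a 1 [459] (.r 299 1323 395 (.r 334 3375 303 (.r 332 330 333 (.d 398 2314 266 2347 431))))
 (.a 0 [299,395] (.q 362 (.a 1 [] (.d 364 361 361 362 366)
 (.a 1 [361] (.r 334 3375 303 (.r 332 330 333 (.r 364 362 366 (.r 300 1292 268 (.d 393 3341 269 3372 424)))))
 (.a 1 [366] (.r 361 361 364 (.r 334 3375 303 (.r 332 330 333 (.r 328 328 329 (.d 394 2343 295 2376 460)))))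
 (.a 0 [364] (.q 298 (.a 1 [] (.d 266 1258 234 1290 394)
 (.a 1 [234] (.d 394 1290 266 1322 426)
 (.a 0 [266,394] (.q 393 (.a 1 [] (.d 300 3341 269 3372 424)
 (.a 1 [269] (.d 424 3372 300 3403 455)
 (.a 0 [300,424] (.q 329 (.a 1 [] (.d 328 327 327 328 332)
 (.a 1 [327] (.d 332 328 328 329 333)
 (.a 1 [328] (.r 297 2312 264 (.d 361 1289 265 1321 425))
 .e))))
 .e))))
 .e))))
 .e)))))
 .e))))
 .e))))
 (.a 1 [297] (.q 427 (.a 1 [] (.d 334 3375 303 3406 458)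
 (.a 1 [334] (.q 459 (.a 1 [] (.d 395 1355 331 1387 491)
 (.a 0 [331,395,491] (.q 362 (.a 1 [] (.d 364 361 361 362 366)
 (.a 1 [361] (.r 458 3437 489 (.r 394 1354 426 (.r 462 2378 429 (.r 460 458 461 (.r 456 456 457 (.d 425 3404 332 3435 487))))))
 (.a 1 [364] (.r 458 3437 489 (.r 394 1354 426 (.r 462 2378 429 (.r 460 458 461 (.d 493 2409 361 2442 526)))))
 .e))))
 .e)))
 (.a 1 [458] (.q 366 (.a 1 [] (.d 364 362 362 363 367)
 (.a 0 [362,364,367] (.q 331 (.a 1 [] (.d 395 1323 299 1355 459)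
 (.a 1 [299] (.r 334 3375 303 (.r 332 330 333 (.r 462 2378 429 (.r 398 1358 430 (.r 270 1294 302 (.d 301 3311 239 3342 394))))))
 (.a 1 [395] (.r 334 3375 303 (.r 332 330 333 (.r 462 2378 429 (.r 398 1358 430 (.d 431 2347 299 2380 464)))))
 .e))))
 .e)))
 .e))))
 (.a 1 [264] (.d 429 2345 297 2378 462)
 .e)))))
 (.a 0 [394] (.q 429 (.a 1 [] (.d 330 2345 297 2378 462)
 (.a 0 [462] (.q 364 (.a 1 [] (.d 362 361 361 362 366)
 (.a 1 [366] (.q 397 (.a 1 [] (.d 333 1325 301 1357 461)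
 (.a 1 [333] (.q 430 (.a 1 [] (.d 331 2346 298 2379 463)
 (.a 1 [298] (.d 463 2379 331 2412 496)
 (.a 0 [331,463] (.q 399 (.a 1 [] (.d 398 395 395 396 400)
 (.a 1 [395] (.r 461 1389 493 (.d 492 3440 368 3471 523))
 .e)))
 .e))))
 (.a 1 [461] (.q 395 (.a 1 [] (.r 333 1325 301 (.d 426 3374 302 3405 457))
 (.a 1 [457] (.r 333 1325 301 (.d 302 3343 271 3374 426))
 (.a 0 [301,302,333,426] (.q 427 (.a 1 [] (.d 331 1323 299 1355 459)
 (.a 1 [299] (.d 459 1355 331 1387 491)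
 (.a 1 [331] (.d 334 3375 303 3406 458)
 .e))))
 .e))))
 .e))))
 (.a 1 [362] (.q 334 (.a 1 [] (.d 303 3344 272 3375 427)
 (.a 1 [272] (.d 427 3375 303 3406 458)
 (.a 0 [303,427] (.q 333 (.a 1 [] (.d 397 1325 301 1357 461)
 (.a 1 [461] (.r 330 2345 297 (.r 332 330 331 (.r 301 1325 397 (.r 268 1292 300 (.d 367 363 366 2316 400)))))
 (.a 0 [301,397] (.q 302 (.a 1 [] (.d 271 3312 240 3343 395)
 (.a 1 [240] (.d 395 3343 271 3374 426)
 (.a 1 [271] (.r 366 363 367 (.d 398 1294 270 1326 430))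
 .e))))
 .e))))
 .e))))
 (.a 1 [361] (.d 366 362 362 363 367)
 .e)))))
 (.a 1 [330] (.q 397 (.a 1 [] (.d 333 1325 301 1357 461)
 (.a 1 [301] (.d 461 1357 333 1389 493)
 (.a 0 [333,461] (.q 334 (.a 1 [] (.d 303 3344 272 3375 427)
 (.a 1 [272] (.d 427 3375 303 3406 458)
 (.a 0 [303,427] (.q 398 (.a 1 [] (.d 399 395 395 396 400)
 (.a 1 [395] (.r 462 2411 495 (.r 366 1358 430 (.d 364 362 362 363 367)))
 .e)))
 .e))))
 .e))))
 .e))))
 (.a 0 [398] (.q 427 (.a 1 [] (.d 334 3375 303 3406 458)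
 (.a 1 [458] (.q 395 (.a 1 [] (.d 331 1323 299 1355 459)
 (.a 1 [459] (.q 330 (.a 1 [] (.d 297 2312 264 2345 429)
 (.a 1 [264] (.d 429 2345 297 2378 462)
 (.a 0 [297,429] (.q 362 (.a 1 [] (.d 364 361 361 362 366)
 (.a 1 [366] (.r 361 361 364 (.r 299 1323 331 (.d 392 3340 268 3371 423)))
 (.a 0 [361,364] (.q 394 (.a 1 [] (.d 393 392 392 393 397)
 (.a 1 [392] (.d 298 1290 266 1322 426)
 .e)))
 .e))))
 .e))))
 (.a 1 [331] (.q 364 (.a 1 [] (.d 362 361 361 362 366)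
 (.a 1 [361] (.d 366 362 362 363 367)
 (.a 0 [362,366] (.q 426 (.a 1 [] (.d 333 3374 302 3405 457)
 (.a 1 [302] (.d 457 3405 333 3436 488)
 (.a 0 [333,457] (.q 393 (.a 1 [] (.d 394 392 392 393 397)
 (.a 1 [392] (.r 459 1387 491 (.d 492 2408 360 2441 525))
 .e)))
 .e))))
 .e))))
 .e))))
 (.a 1 [334] (.q 395 (.a 1 [] (.d 331 1323 299 1355 459)
 (.a 1 [299] (.d 459 1355 331 1387 491)
 (.a 0 [331,459] (.q 330 (.a 1 [] (.d 297 2312 264 2345 429)
 (.a 1 [264] (.d 429 2345 297 2378 462)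
 (.a 0 [297,429] (.q 394 (.a 1 [] (.d 393 392 392 393 397)
 (.a 1 [392] (.r 458 3437 489 (.r 362 1354 426 (.d 364 361 361 362 366)))
 .e)))
 .e))))
 .e))))
 .e))))
 (.a 0 [426] (.q 427 (.a 1 [] (.d 334 3375 303 3406 458)
 (.a 1 [458] (.q 395 (.a 1 [] (.d 331 1323 299 1355 459)
 (.a 1 [459] (.q 398 (.a 1 [] (.d 397 394 394 395 399)
 (.a 1 [394] (.r 299 1323 331 (.d 332 2314 266 2347 431))
 .e)))
 (.a 1 [331] (.q 394 (.a 1 [] (.d 393 392 392 393 397)
 (.a 1 [392] (.d 397 393 393 394 398)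
 (.a 0 [393,397] (.q 361 (.a 1 [] (.d 328 2343 295 2376 460)
 (.a 1 [295] (.d 460 2376 328 2409 493)
 (.a 0 [328,460] (.q 330 (.a 1 [] (.d 297 2312 264 2345 429)
 (.a 1 [264] (.d 429 2345 297 2378 462)
 (.a 0 [297,429] (.q 332 (.a 1 [] (.d 301 3342 270 3373 425)
 (.a 1 [270] (.d 425 3373 301 3404 456)
 (.a 0 [301,425] (.q 299 (.a 1 [] (.d 266 2281 233 2314 398)
 (.a 1 [233] (.d 392 3340 268 3371 423)
 .e)))
 .e))))
 .e))))
 .e))))
 .e))))
 (.a 1 [299] (.d 459 1355 331 1387 491)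
 .e)))))
 (.a 1 [334] (.q 395 (.a 1 [] (.d 331 1323 299 1355 459)
 (.a 1 [299] (.d 459 1355 331 1387 491)
 (.a 0 [331,459] (.q 397 (.a 1 [] (.d 394 393 393 394 398)
 (.a 1 [393] (.d 398 394 394 395 399)
 (.a 0 [394,398] (.q 429 (.a 1 [] (.d 333 1325 301 1357 461)
 (.a 1 [301] (.d 461 1357 333 1389 493)
 (.a 1 [333] (.d 330 2345 297 2378 462)
 .e))))
 .e))))
 .e))))
 .e))))
 (.a 0 [430] (.q 429 (.a 1 [] (.d 330 2345 297 2378 462)
 (.a 1 [462] (.q 397 (.a 1 [] (.d 333 1325 301 1357 461)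
 (.a 1 [461] (.q 394 (.a 1 [] (.d 395 393 393 394 398)
 (.a 1 [393] (.r 398 394 395 (.r 301 1325 333 (.d 332 3342 270 3373 425)))
 (.a 1 [395] (.r 301 1325 333 (.d 332 3342 270 3373 425))
 .e))))
 (.a 1 [333] (.q 398 (.a 1 [] (.d 395 394 394 395 399)
 (.a 1 [394] (.d 399 395 395 396 400)
 (.a 0 [395,399] (.q 367 (.a 1 [] (.d 336 3377 305 3408 460)
 (.a 1 [305] (.d 460 3408 336 3439 491)
 (.a 0 [336,460] (.q 334 (.a 1 [] (.d 303 3344 272 3375 427)
 (.a 1 [272] (.d 427 3375 303 3406 458)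
 (.a 0 [303,427] (.q 332 (.a 1 [] (.d 299 2314 266 2347 431)
 (.a 1 [266] (.d 431 2347 299 2380 464)
 (.a 0 [299,431] (.q 301 (.a 1 [] (.d 268 2283 235 2316 400)
 (.a 1 [235] (.d 394 3342 270 3373 425)
 .e)))
 .e))))
 .e))))
 .e))))
 .e))))
 (.a 1 [301] (.d 461 1357 333 1389 493)
 .e)))))
 (.a 1 [330] (.q 397 (.a 1 [] (.d 333 1325 301 1357 461)
 (.a 1 [301] (.d 461 1357 333 1389 493)
 (.a 0 [333,461] (.q 395 (.a 1 [] (.d 394 393 393 394 398)
 (.a 1 [393] (.d 398 394 394 395 399)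
 (.a 0 [394,398] (.q 427 (.a 1 [] (.d 331 1323 299 1355 459)
 (.a 1 [299] (.d 459 1355 331 1387 491)
 (.a 1 [331] (.d 334 3375 303 3406 458)
 .e))))
 .e))))
 .e))))
 .e))))
 (.a 1 [460] (.q 364 (.a 1 [] (.d 362 361 361 362 366)
 (.a 1 [362] (.q 429 (.a 1 [] (.d 330 2345 297 2378 462)
 (.a 1 [297] (.d 462 2378 330 2411 495)
 (.a 0 [330,462] (.q 334 (.a 1 [] (.d 303 3344 272 3375 427)
 (.a 1 [272] (.d 427 3375 303 3406 458)
 (.a 0 [303,427] (.q 333 (.a 1 [] (.d 397 1325 301 1357 461)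
 (.a 1 [461] (.r 301 1325 397 (.r 367 363 366 (.d 400 2316 268 2349 433)))
 (.a 0 [301,397] (.q 302 (.a 1 [] (.d 271 3312 240 3343 395)
 (.a 1 [240] (.d 395 3343 271 3374 426)
 (.a 1 [271] (.r 366 363 367 (.d 398 1294 270 1326 430))
 .e))))
 .e))))
 .e))))
 .e))))
 (.a 1 [366] (.q 427 (.a 1 [] (.d 334 3375 303 3406 458)
 (.a 1 [303] (.d 458 3406 334 3437 489)
 (.a 0 [334,458] (.q 330 (.a 1 [] (.d 297 2312 264 2345 429)
 (.a 1 [264] (.d 429 2345 297 2378 462)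
 (.a 0 [297,429] (.q 331 (.a 1 [] (.d 395 1323 299 1355 459)
 (.a 1 [459] (.r 299 1323 395 (.r 361 361 362 (.d 392 3340 268 3371 423)))
 (.a 0 [299,395] (.q 298 (.a 1 [] (.d 265 2280 232 2313 397)
 (.a 1 [232] (.d 397 2313 265 2346 430)
 (.a 1 [265] (.r 362 361 361 (.d 394 1290 266 1322 426))
 .e))))
 .e))))
 .e))))
 .e))))
 (.a 1 [361] (.d 366 362 362 363 367)
 .e)))))
 (.a 1 [332] (.q 427 (.a 1 [] (.d 334 3375 303 3406 458)
 (.a 1 [303] (.d 458 3406 334 3437 489)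
 (.a 0 [334,458] (.q 330 (.a 1 [] (.d 297 2312 264 2345 429)
 (.a 1 [264] (.d 429 2345 297 2378 462)
 (.a 0 [297,429] (.q 362 (.a 1 [] (.d 364 361 361 362 366)
 (.a 0 [361,364,366] (.q 394 (.a 1 [] (.d 298 1290 266 1322 426)
 (.a 0 [266,298,426] (.q 395 (.a 1 [] (.d 393 392 392 393 397)
 (.a 1 [392] (.d 397 393 393 394 398)
 (.a 1 [393] (.d 331 1323 299 1355 459)
 .e))))
 .e)))
 .e)))
 .e))))
 .e))))
 (.a 1 [361] (.q 427 (.a 1 [] (.d 334 3375 303 3406 458)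
 (.a 1 [303] (.d 458 3406 334 3437 489)
 (.a 0 [334,458] (.q 395 (.a 1 [] (.d 331 1323 299 1355 459)
 (.a 1 [299] (.d 459 1355 331 1387 491)
 (.a 0 [331,459] (.q 397 (.a 1 [] (.d 394 393 393 394 398)
 (.a 1 [393] (.d 398 394 394 395 399)
 (.a 0 [394,398] (.q 429 (.a 1 [] (.d 333 1325 301 1357 461)
 (.a 1 [301] (.d 461 1357 333 1389 493)
 (.a 1 [333] (.d 330 2345 297 2378 462)
 .e))))
 .e))))
 .e))))
 .e))))
 (.a 1 [299] (.q 429 (.a 1 [] (.d 330 2345 297 2378 462)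
 (.a 1 [297] (.d 462 2378 330 2411 495)
 (.a 0 [330,462] (.q 397 (.a 1 [] (.d 333 1325 301 1357 461)
 (.a 1 [301] (.d 461 1357 333 1389 493)
 (.a 0 [333,461] (.q 395 (.a 1 [] (.d 394 393 393 394 398)
 (.a 1 [393] (.d 398 394 394 395 399)
 (.a 0 [394,398] (.q 427 (.a 1 [] (.d 459 1355 331 1387 491)
 (.a 1 [331] (.d 458 3406 334 3437 489)
 .e)))
 .e))))
 .e))))
 .e))))
 (.a 1 [301] (.q 427 (.a 1 [] (.d 334 3375 303 3406 458)
 (.a 1 [303] (.d 458 3406 334 3437 489)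
 (.a 0 [334,458] (.q 395 (.a 1 [] (.d 331 1323 299 1355 459)
 (.a 1 [299] (.d 459 1355 331 1387 491)
 (.a 0 [331,459] (.q 397 (.a 1 [] (.d 394 393 393 394 398)
 (.a 1 [393] (.d 398 394 394 395 399)
 (.a 0 [394,398] (.q 429 (.a 1 [] (.d 461 1357 333 1389 493)
 (.a 1 [333] (.d 462 2378 330 2411 495)
 .e)))
 .e))))
 .e))))
 .e))))
 (.a 1 [331] (.q 429 (.a 1 [] (.d 330 2345 297 2378 462)
 (.a 1 [297] (.d 462 2378 330 2411 495)
 (.a 0 [330,462] (.q 334 (.a 1 [] (.d 303 3344 272 3375 427)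
 (.a 1 [272] (.d 427 3375 303 3406 458)
 (.a 0 [303,427] (.q 366 (.a 1 [] (.d 364 362 362 363 367)
 (.a 0 [362,364,367] (.q 398 (.a 1 [] (.d 302 1294 270 1326 430)
 (.a 0 [270,302,430] (.q 397 (.a 1 [] (.d 395 394 394 395 399)
 (.a 1 [394] (.d 399 395 395 396 400)
 (.a 1 [395] (.d 333 1325 301 1357 461)
 .e))))
 .e)))
 .e)))
 .e))))
 .e))))
 (.a 1 [333] (.q 427 (.a 1 [] (.d 334 3375 303 3406 458)
 (.a 1 [303] (.d 458 3406 334 3437 489)
 (.a 0 [334,458] (.q 330 (.a 1 [] (.d 297 2312 264 2345 429)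
 (.a 1 [264] (.d 429 2345 297 2378 462)
 (.a 0 [297,429] (.q 362 (.a 1 [] (.d 364 361 361 362 366)
 (.a 0 [361,364,366] (.q 394 (.a 1 [] (.d 298 1290 266 1322 426)
 (.a 0 [266,298,426] (.q 395 (.a 1 [] (.d 393 392 392 393 397)
 (.a 1 [392] (.d 397 393 393 394 398)
 (.a 1 [393] (.d 331 1323 299 1355 459)
 .e))))
 .e)))
 .e)))
 .e))))
 .e))))
 (.a 1 [459] (.q 429 (.a 1 [] (.d 330 2345 297 2378 462)
 (.a 1 [297] (.d 462 2378 330 2411 495)
 (.a 0 [330,462] (.q 366 (.a 1 [] (.d 364 362 362 363 367)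
 (.a 0 [362,364,367] (.q 334 (.a 1 [] (.d 303 3344 272 3375 427)
 (.a 1 [272] (.d 427 3375 303 3406 458)
 (.a 0 [303,427] (.q 398 (.a 1 [] (.d 302 1294 270 1326 430)
 (.a 0 [270,302,430] (.q 397 (.a 1 [] (.d 395 394 394 395 399)
 (.a 1 [394] (.d 399 395 395 396 400)
 (.a 1 [395] (.d 333 1325 301 1357 461)
 .e))))
 .e)))
 .e))))
 .e)))
 .e))))
 (.a 1 [491] (.q 429 (.a 1 [] (.d 330 2345 297 2378 462)
 (.a 1 [297] (.d 462 2378 330 2411 495)
 (.a 0 [330,462] (.q 397 (.a 1 [] (.d 333 1325 301 1357 461)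
 (.a 1 [301] (.d 461 1357 333 1389 493)
 (.a 0 [333,461] (.q 395 (.a 1 [] (.d 394 393 393 394 398)
 (.a 1 [393] (.d 398 394 394 395 399)
 (.a 0 [394,398] (.q 427 (.a 1 [] (.d 331 1323 299 1355 459)
 (.a 1 [299] (.d 458 3406 334 3437 489)
 .e)))
 .e))))
 .e))))
 .e))))
 (.a 1 [329] (.q 427 (.a 1 [] (.d 334 3375 303 3406 458)
 (.a 1 [303] (.d 458 3406 334 3437 489)
 (.a 0 [334,458] (.q 395 (.a 1 [] (.d 331 1323 299 1355 459)
 (.a 1 [299] (.d 459 1355 331 1387 491)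
 (.a 0 [331,459] (.q 397 (.a 1 [] (.d 394 393 393 394 398)
 (.a 1 [393] (.d 398 394 394 395 399)
 (.a 0 [394,398] (.q 429 (.a 1 [] (.d 333 1325 301 1357 461)
 (.a 1 [301] (.d 461 1357 333 1389 493)
 (.a 1 [333] (.d 330 2345 297 2378 462)
 .e))))
 .e))))
 .e))))
 .e))))
 .e)))))))))))))))))))))))))) (by decide +kernel)

theorem r429 : S (Nat.lor X2 (bits [499, 429])) := S.of (.q 364 (.a 1 [] (.q 365 (.a 1 [] (.d 362 361 361 362 366)
 (.a 1 [361] (.d 366 362 362 363 367)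
 (.a 0 [362,366] (.q 332 (.a 1 [] (.d 300 1292 268 1324 428)
 (.a 1 [268] (.d 428 1324 300 1356 460)
 (.a 0 [300,428] (.q 427 (.a 1 [] (.d 334 3375 303 3406 458)
 (.a 1 [303] (.d 458 3406 334 3437 489)
 (.a 0 [334,458] (.q 394 (.a 1 [] (.d 301 3342 270 3373 425)
 (.a 1 [270] (.d 425 3373 301 3404 456)
 (.a 0 [301,425] (.q 395 (.a 1 [] (.d 393 392 392 393 397)
 (.a 1 [392] (.d 397 393 393 394 398)
 (.a 1 [393] (.d 331 1323 299 1355 459)
 .e))))
 .e))))
 .e))))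
 .e))))
 .e))))
 (.a 0 [365] (.q 332 (.a 1 [] (.d 300 1292 268 1324 428)
 (.a 1 [428] (.q 301 (.a 1 [] (.d 270 3311 239 3342 394)
 (.a 1 [394] (.r 268 1292 300 (.q 334 (.a 1 [] (.d 235 2250 202 2283 367)
 (.a 1 [202] (.d 367 2283 235 2316 400)
 (.a 0 [235,367] (.q 333 (.a 1 [] (.d 331 330 330 331 335)
 (.a 1 [330] (.d 335 331 331 332 336)
 (.a 0 [331,335] (.q 271 (.a 1 [] (.d 302 3312 240 3343 395)
 (.a 1 [240] (.r 270 3311 239 (.d 269 267 267 268 272))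
 .e)))
 .e))))
 .e)))))
 (.a 1 [270] (.r 268 1292 300 (.q 334 (.a 1 [] (.d 235 2250 202 2283 367)
 (.a 1 [202] (.d 367 2283 235 2316 400)
 (.a 0 [235,367] (.q 331 (.a 1 [] (.d 333 330 330 331 335)
 (.a 0 [330,333,335] (.q 397 (.a 1 [] (.d 298 2313 265 2346 430)
 (.a 1 [265] (.d 430 2346 298 2379 463)
 (.a 1 [298] (.r 394 3373 425 (.d 395 393 393 394 398))
 .e))))
 .e)))
 .e)))))
 (.a 1 [239] (.d 394 3342 270 3373 425)
 .e)))))
 (.a 1 [300] (.q 394 (.a 1 [] (.d 301 3342 270 3373 425)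
 (.a 1 [270] (.d 425 3373 301 3404 456)
 (.a 0 [301,425] (.q 397 (.a 1 [] (.d 395 393 393 394 398)
 (.a 0 [393,395,398] (.q 298 (.a 1 [] (.d 331 2313 265 2346 430)
 (.a 0 [265,331,430] (.q 362 (.a 1 [] (.d 330 1290 266 1322 426)
 (.a 0 [266,330,426] (.r 361 360 360 (.r 460 1356 428 (.d 427 2376 328 2409 493)))
 .e)))
 .e)))
 .e)))
 .e))))
 .e))))
 (.a 0 [332] (.q 365 (.a 1 [] (.d 362 361 361 362 366)
 (.a 0 [362] (.q 427 (.a 1 [] (.d 334 3375 303 3406 458)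
 (.a 1 [334] (.q 395 (.a 1 [] (.d 331 1323 299 1355 459)
 (.a 1 [331] (.q 333 (.a 1 [] (.d 302 3343 271 3374 426)
 (.a 1 [271] (.d 426 3374 302 3405 457)
 (.a 0 [302,426] (.r 366 363 367 (.r 459 1387 491 (.q 460 (.a 1 [] (.r 458 3437 489 (.d 461 457 457 458 462))
 (.a 1 [457] (.r 428 1388 492 (.d 397 3407 335 3438 490))
 .e)))))
 .e))))
 (.a 1 [459] (.q 397 (.a 1 [] (.d 394 393 393 394 398)
 (.a 1 [393] (.d 398 394 394 395 399)
 (.a 1 [394] (.r 331 1323 299 (.d 430 2346 298 2379 463))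
 .e))))
 .e))))
 (.a 1 [458] (.q 395 (.a 1 [] (.d 331 1323 299 1355 459)
 (.a 1 [299] (.d 459 1355 331 1387 491)
 (.a 0 [331,459] (.q 398 (.a 1 [] (.d 397 394 394 395 399)
 (.a 0 [394,397,399] (.q 426 (.a 1 [] (.d 333 3374 302 3405 457)
 (.a 1 [302] (.d 457 3405 333 3436 488)
 (.a 0 [333,457] (.r 366 363 367 (.r 334 3375 303 (.d 430 1326 302 1358 462)))
 .e))))
 .e)))
 .e))))
 (.a 1 [303] (.d 458 3406 334 3437 489)
 .e)))))
 (.a 1 [366] (.q 427 (.a 1 [] (.d 334 3375 303 3406 458)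
 (.a 1 [303] (.d 458 3406 334 3437 489)
 (.a 0 [334,458] (.r 361 361 362 (.q 394 (.a 1 [] (.d 328 2343 295 2376 460)
 (.a 1 [295] (.d 460 2376 328 2409 493)
 (.a 0 [328,460] (.q 395 (.a 1 [] (.d 393 392 392 393 397)
 (.a 1 [392] (.d 397 393 393 394 398)
 (.a 1 [393] (.d 331 1323 299 1355 459)
 .e))))
 .e)))))
 .e))))
 (.a 1 [361] (.d 366 362 362 363 367)
 .e)))))
 (.a 0 [428] (.q 365 (.a 1 [] (.d 362 361 361 362 366)
 (.a 1 [362] (.q 427 (.a 1 [] (.d 334 3375 303 3406 458)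
 (.a 1 [458] (.q 395 (.a 1 [] (.d 331 1323 299 1355 459)
 (.a 1 [299] (.d 459 1355 331 1387 491)
 (.a 0 [331,459] (.q 398 (.a 1 [] (.d 397 394 394 395 399)
 (.a 0 [394,397,399] (.r 366 363 367 (.r 334 3375 303 (.d 430 1326 302 1358 462)))
 .e)))
 .e))))
 (.a 1 [334] (.q 395 (.a 1 [] (.d 331 1323 299 1355 459)
 (.a 1 [299] (.d 459 1355 331 1387 491)
 (.a 0 [331,459] (.q 333 (.a 1 [] (.d 302 3343 271 3374 426)
 (.a 1 [271] (.d 426 3374 302 3405 457)
 (.a 0 [302,426] (.r 366 363 367 (.q 300 (.a 1 [] (.d 267 2282 234 2315 399)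
 (.a 1 [234] (.d 399 2315 267 2348 432)
 (.a 0 [267,399] (.q 394 (.a 1 [] (.d 393 392 392 393 397)
 (.a 1 [392] (.d 397 393 393 394 398)
 (.a 1 [393] (.r 332 1292 268 (.d 425 3373 301 3404 456))
 .e))))
 .e)))))
 .e))))
 .e))))
 (.a 1 [303] (.d 458 3406 334 3437 489)
 .e)))))
 (.a 1 [366] (.q 427 (.a 1 [] (.d 334 3375 303 3406 458)
 (.a 1 [303] (.d 458 3406 334 3437 489)
 (.a 0 [334,458] (.r 361 361 362 (.q 394 (.a 1 [] (.d 328 2343 295 2376 460)
 (.a 1 [295] (.d 460 2376 328 2409 493)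
 (.a 0 [328,460] (.q 395 (.a 1 [] (.d 393 392 392 393 397)
 (.a 1 [392] (.d 397 393 393 394 398)
 (.a 1 [393] (.d 331 1323 299 1355 459)
 .e))))
 .e)))))
 .e))))
 (.a 1 [361] (.d 366 362 362 363 367)
 .e)))))
 (.a 0 [395] (.q 365 (.a 1 [] (.d 362 361 361 362 366)
 (.a 0 [362] (.q 428 (.a 1 [] (.d 332 1324 300 1356 460)
 (.a 1 [332] (.r 366 363 367 (.q 397 (.a 1 [] (.d 335 3376 304 3407 459)
 (.a 1 [335] (.q 331 (.a 1 [] (.d 298 2313 265 2346 430)
 (.a 1 [265] (.d 430 2346 298 2379 463)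
 (.a 0 [298,430] (.q 458 (.a 1 [] (.d 427 3406 334 3437 489)
 (.a 0 [334,427,489] (.r 460 1388 492 (.r 459 3438 490 (.d 461 457 457 458 462)))
 .e)))
 .e))))
 (.a 1 [459] (.q 430 (.a 1 [] (.d 331 2346 298 2379 463)
 (.a 1 [298] (.d 463 2379 331 2412 496)
 (.a 0 [331,463] (.q 334 (.a 1 [] (.d 398 1326 302 1358 462)
 (.a 1 [302] (.d 427 3375 303 3406 458)
 .e)))
 .e))))
 .e)))))
 (.a 1 [460] (.r 332 1324 300 (.q 398 (.a 1 [] (.d 299 2314 266 2347 431)
 (.a 1 [266] (.d 431 2347 299 2380 464)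
 (.a 0 [299,431] (.q 334 (.a 1 [] (.d 303 3344 272 3375 427)
 (.a 1 [272] (.d 427 3375 303 3406 458)
 (.a 1 [303] (.r 366 363 367 (.d 430 1326 302 1358 462))
 .e))))
 .e)))))
 (.a 1 [300] (.d 460 1356 332 1388 492)
 .e)))))
 (.a 1 [366] (.q 332 (.a 1 [] (.d 300 1292 268 1324 428)
 (.a 1 [268] (.d 428 1324 300 1356 460)
 (.a 0 [300,428] (.q 427 (.a 1 [] (.d 334 3375 303 3406 458)
 (.a 1 [303] (.d 458 3406 334 3437 489)
 (.a 0 [334,458] (.q 394 (.a 1 [] (.d 301 3342 270 3373 425)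
 (.a 1 [270] (.d 425 3373 301 3404 456)
 (.a 1 [301] (.r 361 361 362 (.d 460 2376 328 2409 493))
 .e))))
 .e))))
 .e))))
 (.a 1 [361] (.d 366 362 362 363 367)
 .e)))))
 (.a 1 [366] (.q 300 (.a 1 [] (.d 332 1292 268 1324 428)
 (.a 1 [332] (.q 362 (.a 1 [] (.d 361 360 360 361 365)
 (.a 0 [360,361,365] (.q 331 (.a 1 [] (.d 269 3310 238 3341 393)
 (.a 1 [238] (.d 393 3341 269 3372 424)
 (.a 0 [269,393] (.q 397 (.a 1 [] (.d 298 2313 265 2346 430)
 (.a 1 [265] (.d 430 2346 298 2379 463)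
 (.a 0 [298,430] (.q 395 (.a 1 [] (.d 398 394 394 395 399)
 (.a 1 [394] (.d 427 1323 299 1355 459)
 .e)))
 .e))))
 .e))))
 .e)))
 (.a 1 [428] (.q 362 (.a 1 [] (.d 361 360 360 361 365)
 (.a 0 [360,361,365] (.q 331 (.a 1 [] (.d 269 3310 238 3341 393)
 (.a 1 [238] (.d 393 3341 269 3372 424)
 (.a 0 [269,393] (.q 299 (.a 1 [] (.d 267 1259 235 1291 395)
 (.a 1 [235] (.d 395 1291 267 1323 427)
 (.a 0 [267,395] (.q 298 (.a 1 [] (.d 297 296 296 297 301)
 (.a 1 [296] (.d 301 297 297 298 302)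
 (.a 1 [297] (.d 265 2280 232 2313 397)
 .e))))
 .e))))
 .e))))
 .e)))
 (.a 1 [268] (.q 362 (.a 1 [] (.d 361 360 360 361 365)
 (.a 0 [360,361,365] (.q 331 (.a 1 [] (.d 269 3310 238 3341 393)
 (.a 1 [238] (.d 393 3341 269 3372 424)
 (.a 0 [269,393] (.q 395 (.a 1 [] (.d 299 1291 267 1323 427)
 (.a 1 [267] (.d 427 1323 299 1355 459)
 (.a 1 [299] (.r 428 1324 332 (.d 461 2377 329 2410 494))
 .e))))
 .e))))
 .e)))
 .e)))))
 (.a 0 [397] (.q 365 (.a 1 [] (.d 362 361 361 362 366)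
 (.a 1 [362] (.q 332 (.a 1 [] (.d 300 1292 268 1324 428)
 (.a 1 [428] (.q 427 (.a 1 [] (.d 334 3375 303 3406 458)
 (.a 1 [303] (.d 458 3406 334 3437 489)
 (.a 0 [334,458] (.q 395 (.a 1 [] (.d 331 1323 299 1355 459)
 (.a 1 [299] (.d 459 1355 331 1387 491)
 (.a 1 [459] (.r 299 1323 331 (.d 398 2314 266 2347 431))
 (.a 0 [331] (.q 394 (.a 1 [] (.d 301 3342 270 3373 425)
 (.a 1 [270] (.d 425 3373 301 3404 456)
 (.a 0 [301,425] (.q 299 (.a 1 [] (.d 266 2281 233 2314 398)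
 (.a 1 [233] (.d 398 2314 266 2347 431)
 (.a 0 [266,398] (.q 361 (.a 1 [] (.d 328 2343 295 2376 460)
 (.a 1 [295] (.d 460 2376 328 2409 493)
 (.a 1 [328] (.r 268 1292 300 (.d 330 3309 237 3340 392))
 .e))))
 .e))))
 .e))))
 .e)))))
 .e))))
 (.a 1 [300] (.q 299 (.a 1 [] (.d 266 2281 233 2314 398)
 (.a 1 [233] (.d 398 2314 266 2347 431)
 (.a 0 [266,398] (.q 331 (.a 1 [] (.d 267 1259 235 1291 395)
 (.a 1 [235] (.d 395 1291 267 1323 427)
 (.a 1 [267] (.r 427 1323 395 (.d 458 3406 334 3437 489))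
 (.a 0 [395] (.q 334 (.a 1 [] (.d 333 330 330 331 335)
 (.a 1 [330] (.d 427 3375 303 3406 458)
 .e)))
 .e)))))
 .e))))
 (.a 1 [268] (.d 428 1324 300 1356 460)
 .e)))))
 (.a 1 [366] (.q 428 (.a 1 [] (.d 332 1324 300 1356 460)
 (.a 1 [300] (.d 460 1356 332 1388 492)
 (.a 0 [332,460] (.q 427 (.a 1 [] (.d 334 3375 303 3406 458)
 (.a 1 [303] (.d 458 3406 334 3437 489)
 (.a 0 [334,458] (.q 395 (.a 1 [] (.d 331 1323 299 1355 459)
 (.a 1 [299] (.d 459 1355 331 1387 491)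
 (.a 1 [331] (.r 362 361 361 (.d 461 2377 329 2410 494))
 .e))))
 .e))))
 .e))))
 (.a 1 [361] (.d 366 362 362 363 367)
 .e)))))
 (.a 0 [427] (.q 428 (.a 1 [] (.d 332 1324 300 1356 460)
 (.a 0 [332] (.q 362 (.a 1 [] (.d 361 360 360 361 365)
 (.a 1 [365] (.q 395 (.a 1 [] (.d 329 2344 296 2377 461)
 (.a 1 [461] (.q 397 (.a 1 [] (.d 394 393 393 394 398)
 (.a 1 [393] (.d 398 394 394 395 399)
 (.a 0 [394] (.q 331 (.a 1 [] (.d 298 2313 265 2346 430)
 (.a 1 [265] (.d 430 2346 298 2379 463)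
 (.a 0 [298,430] (.q 459 (.a 1 [] (.d 366 3407 335 3438 490)
 (.a 1 [335] (.d 490 3438 366 3469 521)
 (.a 0 [366,490] (.q 426 (.a 1 [] (.d 333 3374 302 3405 457)
 (.a 1 [302] (.d 457 3405 333 3436 488)
 (.a 1 [333] (.r 492 1388 460 (.d 360 360 361 2408 393))
 .e))))
 .e))))
 .e))))
 (.a 0 [398] (.r 393 393 394 (.r 361 360 360 (.r 329 2344 296 (.d 425 1321 297 1353 457))))
 .e)))))
 (.a 1 [329] (.q 426 (.a 1 [] (.d 333 3374 302 3405 457)
 (.a 1 [302] (.d 457 3405 333 3436 488)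
 (.a 0 [333,457] (.r 360 360 361 (.r 492 1388 460 (.r 393 2408 459 (.d 394 392 392 393 397))))
 .e))))
 .e))))
 (.a 1 [361] (.q 395 (.a 1 [] (.d 329 2344 296 2377 461)
 (.a 1 [296] (.d 461 2377 329 2410 494)
 (.a 0 [329,461] (.q 397 (.a 1 [] (.d 394 393 393 394 398)
 (.a 1 [393] (.d 398 394 394 395 399)
 (.a 1 [394] (.r 366 362 365 (.d 459 3407 335 3438 490))
 .e))))
 .e))))
 .e))))
 (.a 1 [460] (.r 332 1324 300 (.q 394 (.a 1 [] (.d 301 3342 270 3373 425)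
 (.a 1 [270] (.d 425 3373 301 3404 456)
 (.a 0 [301,425] (.q 362 (.a 1 [] (.d 361 360 360 361 365)
 (.a 1 [360] (.d 365 361 361 362 366)
 (.a 0 [361,365] (.q 397 (.a 1 [] (.d 395 393 393 394 398)
 (.a 1 [393] (.r 395 394 398 (.d 461 2377 329 2410 494))
 (.a 1 [398] (.r 395 393 393 (.d 461 2377 329 2410 494))
 (.a 0 [395] (.q 298 (.a 1 [] (.d 330 1290 266 1322 426)
 (.a 1 [266] (.d 331 2313 265 2346 430)
 .e)))
 .e)))))
 .e))))
 .e)))))
 (.a 1 [300] (.d 460 1356 332 1388 492)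
 .e)))))
 (.a 1 [331] (.q 332 (.a 1 [] (.d 300 1292 268 1324 428)
 (.a 1 [300] (.q 394 (.a 1 [] (.d 301 3342 270 3373 425)
 (.a 1 [270] (.d 425 3373 301 3404 456)
 (.a 0 [301,425] (.q 361 (.a 1 [] (.d 362 360 360 361 365)
 (.a 1 [360] (.r 365 361 362 (.r 460 1356 428 (.d 427 2376 328 2409 493)))
 (.a 1 [362] (.r 460 1356 428 (.d 427 2376 328 2409 493))
 .e))))
 .e))))
 (.a 1 [428] (.q 365 (.a 1 [] (.d 362 361 361 362 366)
 (.a 1 [361] (.d 366 362 362 363 367)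
 (.a 0 [362,366] (.q 427 (.a 1 [] (.d 334 3375 303 3406 458)
 (.a 1 [303] (.d 458 3406 334 3437 489)
 (.a 0 [334,458] (.q 394 (.a 1 [] (.d 301 3342 270 3373 425)
 (.a 1 [270] (.d 425 3373 301 3404 456)
 (.a 0 [301,425] (.q 361 (.a 1 [] (.d 328 2343 295 2376 460)
 (.a 1 [295] (.d 460 2376 328 2409 493)
 (.a 0 [328,460] (.q 299 (.a 1 [] (.d 266 2281 233 2314 398)
 (.a 1 [233] (.d 398 2314 266 2347 431)
 (.a 1 [266] (.r 268 1292 300 (.d 330 3309 237 3340 392))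
 .e))))
 .e))))
 .e))))
 .e))))
 .e))))
 .e))))
 (.a 0 [394] (.q 332 (.a 1 [] (.d 300 1292 268 1324 428)
 (.a 1 [300] (.q 365 (.a 1 [] (.d 362 361 361 362 366)
 (.a 1 [362] (.q 398 (.a 1 [] (.d 299 2314 266 2347 431)
 (.a 1 [266] (.d 431 2347 299 2380 464)
 (.a 0 [299,431] (.q 334 (.a 1 [] (.d 303 3344 272 3375 427)
 (.a 1 [272] (.d 427 3375 303 3406 458)
 (.a 1 [303] (.r 366 363 367 (.d 430 1326 302 1358 462))
 .e))))
 .e))))
 (.a 1 [366] (.q 427 (.a 1 [] (.d 334 3375 303 3406 458)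
 (.a 1 [303] (.d 458 3406 334 3437 489)
 (.a 0 [334,458] (.q 395 (.a 1 [] (.d 331 1323 299 1355 459)
 (.a 1 [299] (.d 459 1355 331 1387 491)
 (.a 1 [459] (.r 299 1323 331 (.d 398 2314 266 2347 431))
 (.a 0 [331] (.q 426 (.a 1 [] (.d 333 3374 302 3405 457)
 (.a 1 [302] (.d 457 3405 333 3436 488)
 (.a 1 [333] (.r 428 1356 460 (.r 362 361 361 (.d 461 2377 329 2410 494)))
 .e))))
 .e)))))
 .e))))
 .e))))
 (.a 1 [428] (.q 365 (.a 1 [] (.d 362 361 361 362 366)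
 (.a 1 [361] (.d 366 362 362 363 367)
 (.a 0 [362,366] (.q 299 (.a 1 [] (.d 266 2281 233 2314 398)
 (.a 1 [233] (.d 398 2314 266 2347 431)
 (.a 0 [266,398] (.q 330 (.a 1 [] (.r 268 1292 300 (.d 361 3309 237 3340 392))
 (.a 1 [392] (.r 268 1292 300 (.d 237 3278 206 3309 361))
 (.a 0 [237,268,300,361] (.q 331 (.a 1 [] (.d 329 328 328 329 333)
 (.a 1 [328] (.d 333 329 329 330 334)
 (.a 1 [329] (.d 267 1259 235 1291 395)
 .e))))
 .e))))
 .e))))
 .e))))
 (.a 1 [268] (.d 428 1324 300 1356 460)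
 .e)))))
 (.a 1 [333] (.q 365 (.a 1 [] (.d 362 361 361 362 366)
 (.a 1 [366] (.q 427 (.a 1 [] (.d 334 3375 303 3406 458)
 (.a 1 [303] (.d 458 3406 334 3437 489)
 (.a 0 [334,458] (.q 460 (.a 1 [] (.d 428 1356 332 1388 492)
 (.a 1 [332] (.r 361 361 362 (.d 394 2376 328 2409 493))
 .e)))
 .e))))
 (.a 1 [362] (.q 332 (.a 1 [] (.d 300 1292 268 1324 428)
 (.a 1 [268] (.d 428 1324 300 1356 460)
 (.a 0 [300,428] (.q 427 (.a 1 [] (.d 334 3375 303 3406 458)
 (.a 1 [303] (.d 458 3406 334 3437 489)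
 (.a 0 [334,458] (.q 394 (.a 1 [] (.d 301 3342 270 3373 425)
 (.a 1 [270] (.d 425 3373 301 3404 456)
 (.a 0 [301,425] (.q 395 (.a 1 [] (.d 393 392 392 393 397)
 (.a 1 [392] (.d 397 393 393 394 398)
 (.a 1 [393] (.d 331 1323 299 1355 459)
 .e))))
 .e))))
 .e))))
 .e))))
 (.a 1 [361] (.d 366 362 362 363 367)
 .e)))))
 (.a 1 [398] (.q 365 (.a 1 [] (.d 362 361 361 362 366)
 (.a 1 [366] (.q 332 (.a 1 [] (.d 300 1292 268 1324 428)
 (.a 1 [268] (.d 428 1324 300 1356 460)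
 (.a 0 [300,428] (.q 394 (.a 1 [] (.d 301 3342 270 3373 425)
 (.a 1 [270] (.d 425 3373 301 3404 456)
 (.a 0 [301,425] (.q 427 (.a 1 [] (.d 334 3375 303 3406 458)
 (.a 1 [303] (.d 458 3406 334 3437 489)
 (.a 1 [334] (.r 361 361 362 (.d 460 2376 328 2409 493))
 .e))))
 .e))))
 .e))))
 (.a 1 [362] (.q 332 (.a 1 [] (.d 300 1292 268 1324 428)
 (.a 1 [268] (.d 428 1324 300 1356 460)
 (.a 0 [300,428] (.q 427 (.a 1 [] (.d 334 3375 303 3406 458)
 (.a 1 [303] (.d 458 3406 334 3437 489)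
 (.a 0 [334,458] (.q 394 (.a 1 [] (.d 301 3342 270 3373 425)
 (.a 1 [270] (.d 425 3373 301 3404 456)
 (.a 0 [301,425] (.q 395 (.a 1 [] (.d 393 392 392 393 397)
 (.a 1 [392] (.d 459 1355 331 1387 491)
 .e)))
 .e))))
 .e))))
 .e))))
 .e))))
 (.a 0 [430] (.q 365 (.a 1 [] (.d 362 361 361 362 366)
 (.a 0 [362] (.q 427 (.a 1 [] (.d 334 3375 303 3406 458)
 (.a 1 [458] (.q 395 (.a 1 [] (.d 331 1323 299 1355 459)
 (.a 1 [331] (.q 426 (.a 1 [] (.d 333 3374 302 3405 457)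
 (.a 1 [302] (.d 457 3405 333 3436 488)
 (.a 0 [333,457] (.q 393 (.a 1 [] (.d 394 392 392 393 397)
 (.a 1 [392] (.r 459 1387 491 (.d 492 2408 360 2441 525))
 .e)))
 .e))))
 (.a 1 [459] (.q 332 (.a 1 [] (.d 300 1292 268 1324 428)
 (.a 1 [268] (.d 428 1324 300 1356 460)
 (.a 1 [300] (.r 299 1323 331 (.d 398 2314 266 2347 431))
 .e))))
 .e))))
 (.a 1 [334] (.q 395 (.a 1 [] (.d 331 1323 299 1355 459)
 (.a 1 [299] (.d 459 1355 331 1387 491)
 (.a 0 [331,459] (.q 398 (.a 1 [] (.d 397 394 394 395 399)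
 (.a 0 [394,397,399] (.q 332 (.a 1 [] (.d 300 1292 268 1324 428)
 (.a 1 [268] (.d 428 1324 300 1356 460)
 (.a 1 [300] (.d 299 2314 266 2347 431)
 .e))))
 .e)))
 .e))))
 .e))))
 (.a 1 [366] (.q 428 (.a 1 [] (.d 332 1324 300 1356 460)
 (.a 1 [300] (.d 460 1356 332 1388 492)
 (.a 0 [332,460] (.r 362 361 361 (.q 395 (.a 1 [] (.d 329 2344 296 2377 461)
 (.a 1 [296] (.d 461 2377 329 2410 494)
 (.a 0 [329,461] (.q 427 (.a 1 [] (.d 331 1323 299 1355 459)
 (.a 1 [299] (.d 459 1355 331 1387 491)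
 (.a 1 [331] (.d 334 3375 303 3406 458)
 .e))))
 .e)))))
 .e))))
 (.a 1 [361] (.d 366 362 362 363 367)
 .e)))))
 (.a 0 [301] (.q 365 (.a 1 [] (.d 362 361 361 362 366)
 (.a 1 [362] (.q 332 (.a 1 [] (.d 300 1292 268 1324 428)
 (.a 1 [300] (.q 299 (.a 1 [] (.d 266 2281 233 2314 398)
 (.a 1 [233] (.d 398 2314 266 2347 431)
 (.a 0 [266,398] (.q 331 (.a 1 [] (.d 267 1259 235 1291 395)
 (.a 1 [235] (.d 395 1291 267 1323 427)
 (.a 1 [267] (.r 427 1323 395 (.d 458 3406 334 3437 489))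
 (.a 0 [395] (.q 334 (.a 1 [] (.d 333 330 330 331 335)
 (.a 1 [330] (.d 427 3375 303 3406 458)
 .e)))
 .e)))))
 .e))))
 (.a 1 [428] (.q 427 (.a 1 [] (.d 334 3375 303 3406 458)
 (.a 1 [303] (.d 458 3406 334 3437 489)
 (.a 0 [334,458] (.q 395 (.a 1 [] (.d 331 1323 299 1355 459)
 (.a 1 [299] (.d 459 1355 331 1387 491)
 (.a 1 [459] (.r 299 1323 331 (.d 398 2314 266 2347 431))
 (.a 0 [331] (.q 398 (.a 1 [] (.d 397 394 394 395 399)
 (.a 1 [394] (.d 431 2347 299 2380 464)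
 .e)))
 .e)))))
 .e))))
 (.a 1 [268] (.d 428 1324 300 1356 460)
 .e)))))
 (.a 1 [366] (.q 332 (.a 1 [] (.d 300 1292 268 1324 428)
 (.a 1 [268] (.d 428 1324 300 1356 460)
 (.a 0 [300,428] (.q 427 (.a 1 [] (.d 334 3375 303 3406 458)
 (.a 1 [303] (.d 458 3406 334 3437 489)
 (.a 0 [334,458] (.q 395 (.a 1 [] (.d 331 1323 299 1355 459)
 (.a 1 [299] (.d 459 1355 331 1387 491)
 (.a 1 [459] (.r 299 1323 331 (.d 398 2314 266 2347 431))
 (.a 0 [331] (.q 398 (.a 1 [] (.d 397 394 394 395 399)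
 (.a 1 [394] (.d 431 2347 299 2380 464)
 .e)))
 .e)))))
 .e))))
 .e))))
 .e))))
 (.a 1 [302] (.q 365 (.a 1 [] (.d 362 361 361 362 366)
 (.a 1 [366] (.q 460 (.a 1 [] (.d 428 1356 332 1388 492)
 (.a 0 [332,428,492] (.q 427 (.a 1 [] (.d 334 3375 303 3406 458)
 (.a 1 [303] (.d 458 3406 334 3437 489)
 (.a 1 [334] (.r 361 361 362 (.d 394 2376 328 2409 493))
 .e))))
 .e)))
 (.a 1 [362] (.q 332 (.a 1 [] (.d 300 1292 268 1324 428)
 (.a 1 [268] (.d 428 1324 300 1356 460)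
 (.a 0 [300,428] (.q 301 (.a 1 [] (.d 270 3311 239 3342 394)
 (.a 1 [239] (.d 394 3342 270 3373 425)
 (.a 0 [270,394] (.q 334 (.a 1 [] (.d 303 3344 272 3375 427)
 (.a 1 [272] (.d 427 3375 303 3406 458)
 (.a 1 [303] (.r 367 363 366 (.d 400 2316 268 2349 433))
 .e))))
 .e))))
 .e))))
 .e))))
 (.a 0 [334] (.q 332 (.a 1 [] (.d 300 1292 268 1324 428)
 (.a 1 [428] (.q 365 (.a 1 [] (.d 362 361 361 362 366)
 (.a 1 [366] (.q 394 (.a 1 [] (.d 301 3342 270 3373 425)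
 (.a 1 [270] (.d 425 3373 301 3404 456)
 (.a 0 [301,425] (.q 427 (.a 1 [] (.r 361 361 362 (.d 460 2376 328 2409 493))
 (.a 1 [493] (.r 361 361 362 (.d 328 2343 295 2376 460))
 (.a 0 [328,361,362,460] (.q 395 (.a 1 [] (.d 393 392 392 393 397)
 (.a 1 [392] (.d 397 393 393 394 398)
 (.a 1 [393] (.d 331 1323 299 1355 459)
 .e))))
 .e))))
 .e))))
 (.a 1 [362] (.q 301 (.a 1 [] (.d 270 3311 239 3342 394)
 (.a 1 [239] (.d 394 3342 270 3373 425)
 (.a 0 [270,394] (.q 299 (.a 1 [] (.d 266 2281 233 2314 398)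
 (.a 1 [233] (.d 398 2314 266 2347 431)
 (.a 1 [266] (.r 300 1292 268 (.d 302 298 298 299 303))
 .e))))
 .e))))
 .e))))
 (.a 1 [300] (.q 365 (.a 1 [] (.d 362 361 361 362 366)
 (.a 1 [361] (.d 366 362 362 363 367)
 (.a 0 [362,366] (.q 394 (.a 1 [] (.d 301 3342 270 3373 425)
 (.a 1 [270] (.d 425 3373 301 3404 456)
 (.a 0 [301,425] (.q 395 (.a 1 [] (.d 393 392 392 393 397)
 (.a 1 [392] (.d 397 393 393 394 398)
 (.a 1 [393] (.r 398 394 397 (.d 431 2347 299 2380 464))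
 (.a 0 [397] (.q 299 (.a 1 [] (.d 331 1291 267 1323 427)
 (.a 1 [267] (.d 398 2314 266 2347 431)
 .e)))
 .e)))))
 .e))))
 .e))))
 (.a 1 [268] (.d 428 1324 300 1356 460)
 .e)))))
 (.a 1 [458] (.q 332 (.a 1 [] (.d 300 1292 268 1324 428)
 (.a 1 [428] (.q 365 (.a 1 [] (.d 362 361 361 362 366)
 (.a 1 [361] (.d 366 362 362 363 367)
 (.a 0 [362,366] (.q 299 (.a 1 [] (.d 266 2281 233 2314 398)
 (.a 1 [233] (.d 398 2314 266 2347 431)
 (.a 0 [266,398] (.q 301 (.a 1 [] (.d 270 3311 239 3342 394)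
 (.a 1 [239] (.d 394 3342 270 3373 425)
 (.a 1 [270] (.r 300 1292 268 (.d 302 298 298 299 303))
 .e))))
 .e))))
 .e))))
 (.a 1 [300] (.q 365 (.a 1 [] (.d 362 361 361 362 366)
 (.a 1 [361] (.d 366 362 362 363 367)
 (.a 0 [362,366] (.q 394 (.a 1 [] (.d 301 3342 270 3373 425)
 (.a 1 [270] (.d 425 3373 301 3404 456)
 (.a 0 [301,425] (.q 395 (.a 1 [] (.d 393 392 392 393 397)
 (.a 1 [392] (.d 397 393 393 394 398)
 (.a 1 [393] (.r 398 394 397 (.d 431 2347 299 2380 464))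
 (.a 0 [397] (.q 299 (.a 1 [] (.d 331 1291 267 1323 427)
 (.a 1 [267] (.d 398 2314 266 2347 431)
 .e)))
 .e)))))
 .e))))
 .e))))
 .e))))
 (.a 1 [491] (.q 365 (.a 1 [] (.d 362 361 361 362 366)
 (.a 1 [362] (.q 332 (.a 1 [] (.d 300 1292 268 1324 428)
 (.a 1 [268] (.d 428 1324 300 1356 460)
 (.a 0 [300,428] (.q 301 (.a 1 [] (.d 270 3311 239 3342 394)
 (.a 1 [239] (.d 394 3342 270 3373 425)
 (.a 0 [270,394] (.q 334 (.a 1 [] (.d 303 3344 272 3375 427)
 (.a 1 [272] (.d 427 3375 303 3406 458)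
 (.a 1 [303] (.r 367 363 366 (.d 400 2316 268 2349 433))
 .e))))
 .e))))
 .e))))
 (.a 1 [366] (.q 332 (.a 1 [] (.d 300 1292 268 1324 428)
 (.a 1 [268] (.d 428 1324 300 1356 460)
 (.a 0 [300,428] (.q 427 (.a 1 [] (.d 334 3375 303 3406 458)
 (.a 1 [303] (.d 458 3406 334 3437 489)
 (.a 0 [334,458] (.q 394 (.a 1 [] (.d 301 3342 270 3373 425)
 (.a 1 [270] (.d 425 3373 301 3404 456)
 (.a 1 [301] (.r 361 361 362 (.d 460 2376 328 2409 493))
 .e))))
 .e))))
 .e))))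
 .e))))
 (.a 1 [270] (.q 365 (.a 1 [] (.d 362 361 361 362 366)
 (.a 1 [366] (.q 332 (.a 1 [] (.d 300 1292 268 1324 428)
 (.a 1 [268] (.d 428 1324 300 1356 460)
 (.a 0 [300,428] (.q 394 (.a 1 [] (.d 425 3373 301 3404 456)
 (.a 0 [301,425,456] (.q 427 (.a 1 [] (.d 334 3375 303 3406 458)
 (.a 1 [303] (.d 458 3406 334 3437 489)
 (.a 1 [334] (.r 361 361 362 (.d 460 2376 328 2409 493))
 .e))))
 .e)))
 .e))))
 (.a 1 [362] (.q 332 (.a 1 [] (.d 300 1292 268 1324 428)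
 (.a 1 [268] (.d 428 1324 300 1356 460)
 (.a 0 [300,428] (.q 427 (.a 1 [] (.d 334 3375 303 3406 458)
 (.a 1 [303] (.d 458 3406 334 3437 489)
 (.a 0 [334,458] (.q 398 (.a 1 [] (.d 299 2314 266 2347 431)
 (.a 1 [266] (.d 431 2347 299 2380 464)
 (.a 1 [431] (.r 299 2314 266 (.r 395 1323 331 (.d 397 394 394 395 399)))
 (.a 0 [299] (.q 395 (.a 1 [] (.d 397 394 394 395 399)
 (.a 1 [394] (.d 459 1355 331 1387 491)
 .e)))
 .e)))))
 .e))))
 .e))))
 .e))))
 (.a 1 [303] (.q 300 (.a 1 [] (.d 332 1292 268 1324 428)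
 (.a 1 [428] (.q 362 (.a 1 [] (.d 361 360 360 361 365)
 (.a 1 [360] (.d 365 361 361 362 366)
 (.a 0 [361,365] (.q 331 (.a 1 [] (.d 269 3310 238 3341 393)
 (.a 1 [238] (.d 393 3341 269 3372 424)
 (.a 0 [269,393] (.q 299 (.a 1 [] (.d 267 1259 235 1291 395)
 (.a 1 [235] (.d 395 1291 267 1323 427)
 (.a 0 [267,395] (.q 298 (.a 1 [] (.d 297 296 296 297 301)
 (.a 1 [296] (.d 301 297 297 298 302)
 (.a 1 [297] (.d 265 2280 232 2313 397)
 .e))))
 .e))))
 .e))))
 .e))))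
 (.a 1 [268] (.q 365 (.a 1 [] (.d 362 361 361 362 366)
 (.a 1 [361] (.d 366 362 362 363 367)
 (.a 0 [362,366] (.q 427 (.a 1 [] (.d 458 3406 334 3437 489)
 (.a 0 [334,458,489] (.q 395 (.a 1 [] (.d 331 1323 299 1355 459)
 (.a 1 [299] (.d 459 1355 331 1387 491)
 (.a 0 [331,459] (.q 394 (.a 1 [] (.d 393 392 392 393 397)
 (.a 1 [392] (.d 397 393 393 394 398)
 (.a 1 [393] (.r 332 1324 428 (.d 425 3373 301 3404 456))
 (.a 1 [397] (.r 428 1324 332 (.r 460 1388 492 (.d 493 2409 361 2442 526)))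
 .e)))))
 .e))))
 .e)))
 .e))))
 .e))))
 (.a 1 [393] (.q 332 (.a 1 [] (.d 300 1292 268 1324 428)
 (.a 1 [428] (.q 365 (.a 1 [] (.d 362 361 361 362 366)
 (.a 1 [361] (.d 366 362 362 363 367)
 (.a 0 [362,366] (.q 427 (.a 1 [] (.d 334 3375 303 3406 458)
 (.a 1 [303] (.d 458 3406 334 3437 489)
 (.a 0 [334,458] (.q 394 (.a 1 [] (.d 301 3342 270 3373 425)
 (.a 1 [270] (.d 425 3373 301 3404 456)
 (.a 0 [301,425] (.q 395 (.a 1 [] (.d 331 1323 299 1355 459)
 (.a 1 [299] (.d 459 1355 331 1387 491)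
 (.a 1 [331] (.r 398 394 397 (.d 431 2347 299 2380 464))
 (.a 1 [459] (.r 299 1323 331 (.d 398 394 397 2347 431))
 .e)))))
 .e))))
 .e))))
 .e))))
 (.a 1 [300] (.q 394 (.a 1 [] (.d 301 3342 270 3373 425)
 (.a 1 [270] (.d 425 3373 301 3404 456)
 (.a 0 [301,425] (.q 361 (.a 1 [] (.d 362 360 360 361 365)
 (.a 1 [360] (.r 365 361 362 (.r 460 1356 428 (.d 427 2376 328 2409 493)))
 (.a 1 [362] (.r 460 1356 428 (.d 427 2376 328 2409 493))
 .e))))
 .e))))
 .e))))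
 (.a 1 [459] (.q 365 (.a 1 [] (.d 362 361 361 362 366)
 (.a 1 [366] (.q 427 (.a 1 [] (.d 334 3375 303 3406 458)
 (.a 1 [303] (.d 458 3406 334 3437 489)
 (.a 0 [334,458] (.q 460 (.a 1 [] (.d 428 1356 332 1388 492)
 (.a 1 [332] (.r 361 361 362 (.d 394 2376 328 2409 493))
 .e)))
 .e))))
 (.a 1 [362] (.q 332 (.a 1 [] (.d 300 1292 268 1324 428)
 (.a 1 [268] (.d 428 1324 300 1356 460)
 (.a 0 [300,428] (.q 427 (.a 1 [] (.d 334 3375 303 3406 458)
 (.a 1 [303] (.d 458 3406 334 3437 489)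
 (.a 0 [334,458] (.q 394 (.a 1 [] (.d 301 3342 270 3373 425)
 (.a 1 [270] (.d 425 3373 301 3404 456)
 (.a 0 [301,425] (.q 395 (.a 1 [] (.d 393 392 392 393 397)
 (.a 1 [392] (.d 397 393 393 394 398)
 (.a 1 [393] (.r 398 394 397 (.d 299 2314 266 1323 331))
 (.a 1 [397] (.r 299 1323 331 (.d 398 2314 266 2347 431))
 .e)))))
 .e))))
 .e))))
 .e))))
 (.a 1 [361] (.d 366 362 362 363 367)
 .e)))))
 (.a 1 [461] (.q 332 (.a 1 [] (.d 300 1292 268 1324 428)
 (.a 1 [428] (.q 301 (.a 1 [] (.d 270 3311 239 3342 394)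
 (.a 1 [239] (.d 394 3342 270 3373 425)
 (.a 0 [270,394] (.r 268 1292 300 (.q 365 (.a 1 [] (.d 362 361 361 362 366)
 (.a 1 [361] (.d 366 362 362 363 367)
 (.a 1 [362] (.r 367 363 366 (.d 334 2283 235 2316 400))
 (.a 0 [366] (.q 334 (.a 1 [] (.d 235 2250 202 2283 367)
 (.a 1 [202] (.d 367 2283 235 2316 400)
 (.a 1 [235] (.d 303 3344 272 3375 427)
 .e))))
 .e))))))
 .e))))
 (.a 1 [300] (.q 365 (.a 1 [] (.d 362 361 361 362 366)
 (.a 1 [361] (.d 366 362 362 363 367)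
 (.a 0 [362,366] (.q 398 (.a 1 [] (.d 299 2314 266 2347 431)
 (.a 1 [266] (.d 431 2347 299 2380 464)
 (.a 0 [299,431] (.q 427 (.a 1 [] (.d 334 3375 303 3406 458)
 (.a 1 [303] (.d 458 3406 334 3437 489)
 (.a 0 [334,458] (.q 394 (.a 1 [] (.d 301 3342 270 3373 425)
 (.a 1 [270] (.d 425 3373 301 3404 456)
 (.a 1 [301] (.r 395 394 397 (.d 459 1355 331 1387 491))
 .e))))
 .e))))
 .e))))
 .e))))
 (.a 1 [268] (.d 428 1324 300 1356 460)
 .e)))))
 (.a 0 [431] (.q 365 (.a 1 [] (.d 362 361 361 362 366)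
 (.a 0 [362] (.q 427 (.a 1 [] (.d 334 3375 303 3406 458)
 (.a 1 [458] (.q 395 (.a 1 [] (.d 331 1323 299 1355 459)
 (.a 1 [331] (.q 426 (.a 1 [] (.d 333 3374 302 3405 457)
 (.a 1 [302] (.d 457 3405 333 3436 488)
 (.a 0 [333,457] (.q 393 (.a 1 [] (.d 394 392 392 393 397)
 (.a 1 [392] (.r 459 1387 491 (.d 492 2408 360 2441 525))
 .e)))
 .e))))
 (.a 1 [459] (.q 397 (.a 1 [] (.d 394 393 393 394 398)
 (.a 1 [393] (.d 398 394 394 395 399)
 (.a 1 [394] (.r 331 1323 299 (.d 430 2346 298 2379 463))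
 .e))))
 .e))))
 (.a 1 [334] (.q 395 (.a 1 [] (.d 331 1323 299 1355 459)
 (.a 1 [299] (.d 459 1355 331 1387 491)
 (.a 0 [331,459] (.q 333 (.a 1 [] (.d 302 3343 271 3374 426)
 (.a 1 [271] (.d 426 3374 302 3405 457)
 (.a 0 [302,426] (.q 300 (.a 1 [] (.d 332 1292 268 1324 428)
 (.a 1 [268] (.r 366 363 367 (.d 399 2315 267 2348 432))
 .e)))
 .e))))
 .e))))
 .e))))
 (.a 1 [366] (.q 428 (.a 1 [] (.d 332 1324 300 1356 460)
 (.a 1 [300] (.d 460 1356 332 1388 492)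
 (.a 0 [332,460] (.q 427 (.a 1 [] (.d 334 3375 303 3406 458)
 (.a 1 [303] (.d 458 3406 334 3437 489)
 (.a 0 [334,458] (.q 395 (.a 1 [] (.d 331 1323 299 1355 459)
 (.a 1 [299] (.d 459 1355 331 1387 491)
 (.a 1 [331] (.r 362 361 361 (.d 461 2377 329 2410 494))
 .e))))
 .e))))
 .e))))
 (.a 1 [361] (.d 366 362 362 363 367)
 .e)))))
 (.a 1 [432] (.q 365 (.a 1 [] (.d 362 361 361 362 366)
 (.a 1 [366] (.q 428 (.a 1 [] (.d 332 1324 300 1356 460)
 (.a 1 [300] (.d 460 1356 332 1388 492)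
 (.a 0 [332,460] (.q 427 (.a 1 [] (.d 334 3375 303 3406 458)
 (.a 1 [303] (.d 458 3406 334 3437 489)
 (.a 0 [334,458] (.q 395 (.a 1 [] (.d 331 1323 299 1355 459)
 (.a 1 [299] (.d 459 1355 331 1387 491)
 (.a 1 [331] (.r 362 361 361 (.d 461 2377 329 2410 494))
 .e))))
 .e))))
 .e))))
 (.a 1 [362] (.q 332 (.a 1 [] (.d 300 1292 268 1324 428)
 (.a 1 [268] (.d 428 1324 300 1356 460)
 (.a 0 [300,428] (.q 431 (.a 1 [] (.d 398 2347 299 2380 464)
 (.a 0 [299,398,464] (.q 301 (.a 1 [] (.d 270 3311 239 3342 394)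
 (.a 1 [239] (.d 394 3342 270 3373 425)
 (.a 0 [270,394] (.q 334 (.a 1 [] (.d 303 3344 272 3375 427)
 (.a 1 [272] (.d 427 3375 303 3406 458)
 (.a 1 [303] (.r 367 363 366 (.d 400 2316 268 2349 433))
 .e))))
 .e))))
 .e)))
 .e))))
 .e))))
 (.a 1 [234] (.q 365 (.a 1 [] (.d 362 361 361 362 366)
 (.a 1 [362] (.q 332 (.a 1 [] (.d 300 1292 268 1324 428)
 (.a 1 [268] (.d 428 1324 300 1356 460)
 (.a 0 [300,428] (.q 427 (.a 1 [] (.d 334 3375 303 3406 458)
 (.a 1 [303] (.d 458 3406 334 3437 489)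
 (.a 0 [334,458] (.q 394 (.a 1 [] (.d 301 3342 270 3373 425)
 (.a 1 [270] (.d 425 3373 301 3404 456)
 (.a 0 [301,425] (.q 395 (.a 1 [] (.d 393 392 392 393 397)
 (.a 1 [392] (.d 397 393 393 394 398)
 (.a 1 [393] (.d 331 1323 299 1355 459)
 .e))))
 .e))))
 .e))))
 .e))))
 (.a 1 [366] (.q 427 (.a 1 [] (.d 334 3375 303 3406 458)
 (.a 1 [303] (.d 458 3406 334 3437 489)
 (.a 0 [334,458] (.q 460 (.a 1 [] (.d 428 1356 332 1388 492)
 (.a 1 [332] (.r 361 361 362 (.d 394 2376 328 2409 493))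
 .e)))
 .e))))
 (.a 1 [361] (.d 366 362 362 363 367)
 .e)))))
 (.a 1 [238] (.q 365 (.a 1 [] (.d 362 361 361 362 366)
 (.a 1 [362] (.q 427 (.a 1 [] (.d 334 3375 303 3406 458)
 (.a 1 [303] (.d 458 3406 334 3437 489)
 (.a 0 [334,458] (.q 395 (.a 1 [] (.d 331 1323 299 1355 459)
 (.a 1 [299] (.d 459 1355 331 1387 491)
 (.a 0 [331,459] (.q 300 (.a 1 [] (.d 332 1292 268 1324 428)
 (.a 0 [268,332,428] (.q 333 (.a 1 [] (.d 302 3343 271 3374 426)
 (.a 1 [271] (.d 426 3374 302 3405 457)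
 (.a 1 [302] (.r 366 363 367 (.d 399 2315 267 2348 432))
 .e))))
 .e)))
 .e))))
 .e))))
 (.a 1 [366] (.q 332 (.a 1 [] (.d 300 1292 268 1324 428)
 (.a 1 [268] (.d 428 1324 300 1356 460)
 (.a 0 [300,428] (.q 299 (.a 1 [] (.d 266 2281 233 2314 398)
 (.a 1 [233] (.d 398 2314 266 2347 431)
 (.a 0 [266,398] (.q 331 (.a 1 [] (.d 267 1259 235 1291 395)
 (.a 1 [235] (.d 395 1291 267 1323 427)
 (.a 1 [267] (.r 427 1323 395 (.d 458 3406 334 3437 489))
 (.a 0 [395] (.q 334 (.a 1 [] (.d 333 330 330 331 335)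
 (.a 1 [330] (.d 427 3375 303 3406 458)
 .e)))
 .e)))))
 .e))))
 .e))))
 .e))))
 (.a 1 [296] (.q 365 (.a 1 [] (.d 362 361 361 362 366)
 (.a 1 [362] (.q 427 (.a 1 [] (.d 334 3375 303 3406 458)
 (.a 1 [303] (.d 458 3406 334 3437 489)
 (.a 0 [334,458] (.q 395 (.a 1 [] (.d 331 1323 299 1355 459)
 (.a 1 [299] (.d 459 1355 331 1387 491)
 (.a 0 [331,459] (.q 300 (.a 1 [] (.d 332 1292 268 1324 428)
 (.a 0 [268,332,428] (.q 333 (.a 1 [] (.d 302 3343 271 3374 426)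
 (.a 1 [271] (.d 426 3374 302 3405 457)
 (.a 1 [302] (.r 366 363 367 (.d 399 2315 267 2348 432))
 .e))))
 .e)))
 .e))))
 .e))))
 (.a 1 [366] (.q 332 (.a 1 [] (.d 300 1292 268 1324 428)
 (.a 1 [268] (.d 428 1324 300 1356 460)
 (.a 0 [300,428] (.q 427 (.a 1 [] (.d 334 3375 303 3406 458)
 (.a 1 [303] (.d 458 3406 334 3437 489)
 (.a 0 [334,458] (.q 394 (.a 1 [] (.d 301 3342 270 3373 425)
 (.a 1 [270] (.d 425 3373 301 3404 456)
 (.a 1 [301] (.r 361 361 362 (.d 460 2376 328 2409 493))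
 .e))))
 .e))))
 .e))))
 .e))))
 (.a 1 [304] (.q 365 (.a 1 [] (.d 362 361 361 362 366)
 (.a 1 [366] (.q 428 (.a 1 [] (.d 332 1324 300 1356 460)
 (.a 1 [300] (.d 460 1356 332 1388 492)
 (.a 0 [332,460] (.q 427 (.a 1 [] (.d 334 3375 303 3406 458)
 (.a 1 [303] (.d 458 3406 334 3437 489)
 (.a 0 [334,458] (.q 395 (.a 1 [] (.d 331 1323 299 1355 459)
 (.a 1 [299] (.d 459 1355 331 1387 491)
 (.a 1 [331] (.r 362 361 361 (.d 461 2377 329 2410 494))
 .e))))
 .e))))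
 .e))))
 (.a 1 [362] (.q 332 (.a 1 [] (.d 300 1292 268 1324 428)
 (.a 1 [268] (.d 428 1324 300 1356 460)
 (.a 0 [300,428] (.q 427 (.a 1 [] (.d 334 3375 303 3406 458)
 (.a 1 [303] (.d 458 3406 334 3437 489)
 (.a 0 [334,458] (.q 299 (.a 1 [] (.d 266 2281 233 2314 398)
 (.a 1 [233] (.d 398 2314 266 2347 431)
 (.a 1 [266] (.r 395 1323 331 (.r 398 2347 431 (.d 397 394 394 395 399)))
 (.a 0 [398] (.q 394 (.a 1 [] (.d 301 3342 270 3373 425)
 (.a 1 [270] (.d 425 3373 301 3404 456)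
 (.a 1 [301] (.r 395 1323 331 (.d 393 392 392 393 397))
 .e))))
 .e)))))
 .e))))
 .e))))
 .e))))
 (.a 1 [329] (.q 332 (.a 1 [] (.d 300 1292 268 1324 428)
 (.a 1 [428] (.q 362 (.a 1 [] (.d 361 360 360 361 365)
 (.a 1 [360] (.d 365 361 361 362 366)
 (.a 0 [361,365] (.r 300 1292 268 (.q 301 (.a 1 [] (.d 270 3311 239 3342 394)
 (.a 1 [239] (.d 394 3342 270 3373 425)
 (.a 0 [270,394] (.q 299 (.a 1 [] (.d 298 297 297 298 302)
 (.a 1 [297] (.d 302 298 298 299 303)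
 (.a 0 [298,302] (.q 331 (.a 1 [] (.d 267 1259 235 1291 395)
 (.a 1 [235] (.d 395 1291 267 1323 427)
 (.a 1 [267] (.d 269 3310 238 3341 393)
 .e))))
 .e))))
 .e)))))
 .e))))
 (.a 1 [300] (.q 365 (.a 1 [] (.d 362 361 361 362 366)
 (.a 1 [361] (.d 366 362 362 363 367)
 (.a 0 [362,366] (.q 398 (.a 1 [] (.d 299 2314 266 2347 431)
 (.a 1 [266] (.d 431 2347 299 2380 464)
 (.a 0 [299,431] (.q 395 (.a 1 [] (.d 397 394 394 395 399)
 (.a 1 [399] (.r 394 394 397 (.d 425 3373 301 3404 456))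
 (.a 0 [394,397] (.q 427 (.a 1 [] (.d 459 1355 331 1387 491)
 (.a 1 [331] (.d 458 3406 334 3437 489)
 .e)))
 .e))))
 .e))))
 .e))))
 .e))))
 (.a 1 [335] (.q 365 (.a 1 [] (.d 362 361 361 362 366)
 (.a 1 [366] (.q 427 (.a 1 [] (.d 334 3375 303 3406 458)
 (.a 1 [303] (.d 458 3406 334 3437 489)
 (.a 0 [334,458] (.q 460 (.a 1 [] (.d 428 1356 332 1388 492)
 (.a 1 [332] (.r 361 361 362 (.d 394 2376 328 2409 493))
 .e)))
 .e))))
 (.a 1 [362] (.q 332 (.a 1 [] (.d 300 1292 268 1324 428)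
 (.a 1 [268] (.d 428 1324 300 1356 460)
 (.a 0 [300,428] (.q 427 (.a 1 [] (.d 334 3375 303 3406 458)
 (.a 1 [303] (.d 458 3406 334 3437 489)
 (.a 0 [334,458] (.q 394 (.a 1 [] (.d 301 3342 270 3373 425)
 (.a 1 [270] (.d 425 3373 301 3404 456)
 (.a 0 [301,425] (.q 395 (.a 1 [] (.d 393 392 392 393 397)
 (.a 1 [392] (.d 397 393 393 394 398)
 (.a 1 [393] (.d 331 1323 299 1355 459)
 .e))))
 .e))))
 .e))))
 .e))))
 (.a 1 [361] (.d 366 362 362 363 367)
 .e)))))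
 (.a 1 [490] (.q 365 (.a 1 [] (.d 362 361 361 362 366)
 (.a 1 [362] (.q 332 (.a 1 [] (.d 300 1292 268 1324 428)
 (.a 1 [268] (.d 428 1324 300 1356 460)
 (.a 0 [300,428] (.q 427 (.a 1 [] (.d 334 3375 303 3406 458)
 (.a 1 [303] (.d 458 3406 334 3437 489)
 (.a 0 [334,458] (.q 394 (.a 1 [] (.d 301 3342 270 3373 425)
 (.a 1 [270] (.d 425 3373 301 3404 456)
 (.a 0 [301,425] (.q 395 (.a 1 [] (.d 393 392 392 393 397)
 (.a 1 [392] (.d 397 393 393 394 398)
 (.a 1 [393] (.d 331 1323 299 1355 459)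
 .e))))
 .e))))
 .e))))
 .e))))
 (.a 1 [366] (.q 428 (.a 1 [] (.d 332 1324 300 1356 460)
 (.a 1 [300] (.d 460 1356 332 1388 492)
 (.a 0 [332,460] (.q 427 (.a 1 [] (.d 334 3375 303 3406 458)
 (.a 1 [303] (.d 458 3406 334 3437 489)
 (.a 0 [334,458] (.q 395 (.a 1 [] (.d 331 1323 299 1355 459)
 (.a 1 [299] (.d 459 1355 331 1387 491)
 (.a 1 [331] (.r 362 361 361 (.d 461 2377 329 2410 494))
 .e))))
 .e))))
 .e))))
 (.a 1 [361] (.d 366 362 362 363 367)
 .e)))))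
 (.a 1 [494] (.q 365 (.a 1 [] (.d 362 361 361 362 366)
 (.a 1 [362] (.q 427 (.a 1 [] (.d 334 3375 303 3406 458)
 (.a 1 [303] (.d 458 3406 334 3437 489)
 (.a 0 [334,458] (.q 395 (.a 1 [] (.d 331 1323 299 1355 459)
 (.a 1 [299] (.d 459 1355 331 1387 491)
 (.a 0 [331,459] (.q 300 (.a 1 [] (.d 332 1292 268 1324 428)
 (.a 0 [268,332,428] (.q 333 (.a 1 [] (.d 302 3343 271 3374 426)
 (.a 1 [271] (.d 426 3374 302 3405 457)
 (.a 1 [302] (.r 366 363 367 (.d 399 2315 267 2348 432))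
 .e))))
 .e)))
 .e))))
 .e))))
 (.a 1 [366] (.q 332 (.a 1 [] (.d 300 1292 268 1324 428)
 (.a 1 [268] (.d 428 1324 300 1356 460)
 (.a 0 [300,428] (.q 427 (.a 1 [] (.d 334 3375 303 3406 458)
 (.a 1 [303] (.d 458 3406 334 3437 489)
 (.a 0 [334,458] (.q 394 (.a 1 [] (.d 301 3342 270 3373 425)
 (.a 1 [270] (.d 425 3373 301 3404 456)
 (.a 1 [301] (.r 361 361 362 (.d 460 2376 328 2409 493))
 .e))))
 .e))))
 .e))))
 .e))))
 (.a 1 [362] (.q 332 (.a 1 [] (.d 300 1292 268 1324 428)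
 (.a 1 [268] (.d 428 1324 300 1356 460)
 (.a 0 [300] (.q 394 (.a 1 [] (.d 301 3342 270 3373 425)
 (.a 1 [270] (.d 425 3373 301 3404 456)
 (.a 0 [301,425] (.r 460 1356 428 (.q 427 (.a 1 [] (.d 361 2376 328 2409 493)
 (.a 1 [328] (.d 493 2409 361 2442 526)
 (.a 0 [361,493] (.q 395 (.a 1 [] (.d 393 392 392 393 397)
 (.a 1 [392] (.d 397 393 393 394 398)
 (.a 1 [393] (.d 331 1323 299 1355 459)
 .e))))
 .e)))))
 .e))))
 (.a 0 [428] (.q 301 (.a 1 [] (.d 270 3311 239 3342 394)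
 (.a 1 [239] (.d 394 3342 270 3373 425)
 (.a 0 [270,394] (.r 268 1292 300 (.q 334 (.a 1 [] (.d 235 2250 202 2283 367)
 (.a 1 [202] (.d 367 2283 235 2316 400)
 (.a 1 [235] (.r 367 2316 400 (.r 365 363 366 (.d 427 3375 303 3406 458)))
 (.a 0 [367] (.q 331 (.a 1 [] (.d 333 330 330 331 335)
 (.a 1 [330] (.r 235 2250 202 (.r 299 1259 267 (.r 427 1323 395 (.d 365 3375 303 3406 458))))
 .e)))
 .e))))))
 .e))))
 .e)))))
 (.a 1 [460] (.q 365 (.a 1 [] (.d 362 361 361 362 366)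
 (.a 1 [361] (.d 366 362 362 363 367)
 (.a 0 [362,366] (.q 427 (.a 1 [] (.d 334 3375 303 3406 458)
 (.a 1 [303] (.d 458 3406 334 3437 489)
 (.a 0 [334,458] (.q 332 (.a 1 [] (.d 300 1292 268 1324 428)
 (.a 0 [268,300,428] (.q 398 (.a 1 [] (.d 299 2314 266 2347 431)
 (.a 1 [266] (.d 431 2347 299 2380 464)
 (.a 1 [431] (.r 299 2314 266 (.r 395 1323 331 (.d 397 394 394 395 399)))
 (.a 0 [299] (.q 395 (.a 1 [] (.d 397 394 394 395 399)
 (.a 1 [394] (.d 459 1355 331 1387 491)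
 .e)))
 .e)))))
 .e)))
 .e))))
 .e))))
 (.a 1 [300] (.q 365 (.a 1 [] (.d 362 361 361 362 366)
 (.a 1 [361] (.d 366 362 362 363 367)
 (.a 0 [362,366] (.q 427 (.a 1 [] (.d 334 3375 303 3406 458)
 (.a 1 [303] (.d 458 3406 334 3437 489)
 (.a 0 [334,458] (.q 460 (.a 1 [] (.d 428 1356 332 1388 492)
 (.a 0 [332,428,492] (.q 394 (.a 1 [] (.d 361 2376 328 2409 493)
 (.a 1 [328] (.d 493 2409 361 2442 526)
 (.a 0 [361,493] (.q 395 (.a 1 [] (.d 393 392 392 393 397)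
 (.a 1 [392] (.d 397 393 393 394 398)
 (.a 1 [393] (.d 331 1323 299 1355 459)
 .e))))
 .e))))
 .e)))
 .e))))
 .e))))
 (.a 1 [361] (.q 332 (.a 1 [] (.d 300 1292 268 1324 428)
 (.a 1 [268] (.d 428 1324 300 1356 460)
 (.a 0 [300,428] (.q 365 (.a 1 [] (.d 366 362 362 363 367)
 (.a 0 [362,366,367] (.q 427 (.a 1 [] (.d 334 3375 303 3406 458)
 (.a 1 [303] (.d 458 3406 334 3437 489)
 (.a 0 [334,458] (.q 398 (.a 1 [] (.d 299 2314 266 2347 431)
 (.a 1 [266] (.d 431 2347 299 2380 464)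
 (.a 1 [431] (.r 299 2314 266 (.r 395 1323 331 (.d 397 394 394 395 399)))
 (.a 0 [299] (.q 395 (.a 1 [] (.d 397 394 394 395 399)
 (.a 1 [394] (.d 459 1355 331 1387 491)
 .e)))
 .e)))))
 .e))))
 .e)))
 .e))))
 (.a 1 [367] (.q 332 (.a 1 [] (.d 300 1292 268 1324 428)
 (.a 1 [268] (.d 428 1324 300 1356 460)
 (.a 0 [300,428] (.q 365 (.a 1 [] (.d 362 361 361 362 366)
 (.a 0 [361,362,366] (.q 427 (.a 1 [] (.d 334 3375 303 3406 458)
 (.a 1 [303] (.d 458 3406 334 3437 489)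
 (.a 0 [334,458] (.q 398 (.a 1 [] (.d 299 2314 266 2347 431)
 (.a 1 [266] (.d 431 2347 299 2380 464)
 (.a 1 [431] (.r 299 2314 266 (.r 395 1323 331 (.d 397 394 394 395 399)))
 (.a 0 [299] (.q 395 (.a 1 [] (.d 397 394 394 395 399)
 (.a 1 [394] (.d 459 1355 331 1387 491)
 .e)))
 .e)))))
 .e))))
 .e)))
 .e))))
 (.a 1 [268] (.q 365 (.a 1 [] (.d 362 361 361 362 366)
 (.a 1 [361] (.d 366 362 362 363 367)
 (.a 0 [362,366] (.q 427 (.a 1 [] (.d 334 3375 303 3406 458)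
 (.a 1 [303] (.d 458 3406 334 3437 489)
 (.a 0 [334,458] (.q 332 (.a 1 [] (.d 428 1324 300 1356 460)
 (.a 0 [300,428,460] (.q 398 (.a 1 [] (.d 299 2314 266 2347 431)
 (.a 1 [266] (.d 431 2347 299 2380 464)
 (.a 1 [431] (.r 299 2314 266 (.r 395 1323 331 (.d 397 394 394 395 399)))
 (.a 0 [299] (.q 395 (.a 1 [] (.d 397 394 394 395 399)
 (.a 1 [394] (.d 459 1355 331 1387 491)
 .e)))
 .e)))))
 .e)))
 .e))))
 .e))))
 (.a 1 [297] (.q 365 (.a 1 [] (.d 362 361 361 362 366)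
 (.a 1 [361] (.d 366 362 362 363 367)
 (.a 0 [362,366] (.q 332 (.a 1 [] (.d 300 1292 268 1324 428)
 (.a 1 [268] (.d 428 1324 300 1356 460)
 (.a 0 [300,428] (.q 427 (.a 1 [] (.d 334 3375 303 3406 458)
 (.a 1 [303] (.d 458 3406 334 3437 489)
 (.a 0 [334,458] (.q 394 (.a 1 [] (.d 301 3342 270 3373 425)
 (.a 1 [270] (.d 425 3373 301 3404 456)
 (.a 0 [301,425] (.q 299 (.a 1 [] (.d 266 2281 233 2314 398)
 (.a 1 [233] (.d 398 2314 266 2347 431)
 (.a 1 [266] (.r 395 1323 331 (.d 398 394 397 2347 431))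
 (.a 1 [398] (.r 395 1323 331 (.d 393 392 392 393 397))
 .e)))))
 .e))))
 .e))))
 .e))))
 .e))))
 (.a 1 [299] (.q 365 (.a 1 [] (.d 362 361 361 362 366)
 (.a 1 [361] (.d 366 362 362 363 367)
 (.a 0 [362,366] (.q 427 (.a 1 [] (.d 334 3375 303 3406 458)
 (.a 1 [303] (.d 458 3406 334 3437 489)
 (.a 0 [334,458] (.q 460 (.a 1 [] (.d 428 1356 332 1388 492)
 (.a 0 [332,428,492] (.q 394 (.a 1 [] (.d 361 2376 328 2409 493)
 (.a 1 [328] (.d 493 2409 361 2442 526)
 (.a 0 [361,493] (.q 395 (.a 1 [] (.d 393 392 392 393 397)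
 (.a 1 [392] (.d 397 393 393 394 398)
 (.a 1 [393] (.d 459 1355 331 1387 491)
 .e))))
 .e))))
 .e)))
 .e))))
 .e))))
 (.a 1 [489] (.q 365 (.a 1 [] (.d 362 361 361 362 366)
 (.a 1 [361] (.d 366 362 362 363 367)
 (.a 0 [362,366] (.q 332 (.a 1 [] (.d 300 1292 268 1324 428)
 (.a 1 [268] (.d 428 1324 300 1356 460)
 (.a 0 [300,428] (.q 299 (.a 1 [] (.d 266 2281 233 2314 398)
 (.a 1 [233] (.d 398 2314 266 2347 431)
 (.a 0 [266,398] (.q 394 (.a 1 [] (.d 301 3342 270 3373 425)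
 (.a 1 [270] (.d 425 3373 301 3404 456)
 (.a 0 [301,425] (.q 427 (.a 1 [] (.d 334 3375 303 3406 458)
 (.a 1 [303] (.r 395 1323 331 (.d 393 392 392 393 397))
 .e)))
 .e))))
 .e))))
 .e))))
 .e))))
 (.a 1 [269] (.q 365 (.a 1 [] (.d 362 361 361 362 366)
 (.a 1 [361] (.d 366 362 362 363 367)
 (.a 0 [362,366] (.q 427 (.a 1 [] (.d 334 3375 303 3406 458)
 (.a 1 [303] (.d 458 3406 334 3437 489)
 (.a 0 [334,458] (.q 460 (.a 1 [] (.d 428 1356 332 1388 492)
 (.a 0 [332,428,492] (.q 394 (.a 1 [] (.d 361 2376 328 2409 493)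
 (.a 1 [328] (.d 493 2409 361 2442 526)
 (.a 0 [361,493] (.q 395 (.a 1 [] (.d 393 392 392 393 397)
 (.a 1 [392] (.d 397 393 393 394 398)
 (.a 1 [393] (.d 331 1323 299 1355 459)
 .e))))
 .e))))
 .e)))
 .e))))
 .e))))
 (.a 1 [424] (.q 365 (.a 1 [] (.d 362 361 361 362 366)
 (.a 1 [361] (.d 366 362 362 363 367)
 (.a 0 [362,366] (.q 427 (.a 1 [] (.d 334 3375 303 3406 458)
 (.a 1 [303] (.d 458 3406 334 3437 489)
 (.a 0 [334,458] (.q 460 (.a 1 [] (.d 428 1356 332 1388 492)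
 (.a 0 [332,428,492] (.q 394 (.a 1 [] (.d 361 2376 328 2409 493)
 (.a 1 [328] (.d 493 2409 361 2442 526)
 (.a 0 [361,493] (.q 395 (.a 1 [] (.d 393 392 392 393 397)
 (.a 1 [392] (.d 397 393 393 394 398)
 (.a 1 [393] (.d 331 1323 299 1355 459)
 .e))))
 .e))))
 .e)))
 .e))))
 .e))))
 (.a 1 [392] (.q 365 (.a 1 [] (.d 362 361 361 362 366)
 (.a 1 [361] (.d 366 362 362 363 367)
 (.a 0 [362,366] (.q 332 (.a 1 [] (.d 300 1292 268 1324 428)
 (.a 1 [268] (.d 428 1324 300 1356 460)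
 (.a 0 [300,428] (.q 427 (.a 1 [] (.d 334 3375 303 3406 458)
 (.a 1 [303] (.d 458 3406 334 3437 489)
 (.a 0 [334,458] (.q 398 (.a 1 [] (.d 299 2314 266 2347 431)
 (.a 1 [266] (.d 431 2347 299 2380 464)
 (.a 1 [431] (.r 299 2314 266 (.r 395 1323 331 (.d 397 394 394 395 399)))
 (.a 0 [299] (.q 395 (.a 1 [] (.d 397 394 394 395 399)
 (.a 1 [394] (.d 459 1355 331 1387 491)
 .e)))
 .e)))))
 .e))))
 .e))))
 .e))))
 .e)))))))))))))))))))))))))))))))))))))))))))))) (by decide +kernel)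

theorem r299 : S (Nat.lor X2 (bits [499, 299])) := VW.play 394 (PX [] [299,499]) (by decide +kernel) v8_48

theorem all : RT X2 499 (367 :: 371 :: 375 :: 400 :: 403 :: 406 :: 433 :: 435 :: 437 :: 466 :: 467 :: 468 :: 495 :: 496 :: 497 :: 498 :: 500 :: 501 :: 502 :: 503 :: 530 :: 531 :: 532 :: 561 :: 563 :: 565 :: 592 :: 595 :: 598 :: 623 :: 627 :: 631 :: 364 :: 428 :: 429 :: 299 :: []) := ⟨r367, r371, r375, r400, r403, r406, r433, r435, r437, r466, r467, r468, r495, r496, r497, r498, r500, r501, r502, r503, r530, r531, r532, r561, r563, r565, r592, r595, r598, r623, r627, r631, r364, r428, r429, r299, trivial⟩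

end Pool.Agent.H94.Five.Mid.K8_4_0
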