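import Pool.Agent.H94.Five.Mid.Fam

set_option autoImplicit false
set_option linter.all false
set_option maxRecDepth 100000

/-! Second has the cell (8, 5): some of the other stones. -/

namespace Pool.Agent.H94.Five.Mid.K8_5_0

open Pool.Agent.H79.Five Pool.Agent.H10.Five Pool.Agent.H94.Five.M

abbrev nl : List Ent := [n0, n3, n4, n6, n8, n9, n10, n11, n16, n17, n21, n22]

theorem nl_ok : AC XB M0 nl := .cons n0k <| .cons n3k <| .cons n4k <| .cons n6k <| .cons n8k <| .cons n9k <| .cons n10k <| .cons n11k <| .cons n16k <| .cons n17k <| .cons n21k <| .cons n22k <| .nil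

abbrev fl : List Ent := (x45 :: x47 :: x61 :: x73 :: x77 :: x79 :: x93 :: x96 :: x101 :: x103 :: x127 :: x130 :: x136 :: x142 :: x154 :: x155 :: x161 :: x167 :: x174 :: x177 :: x187 :: x194 :: x200 :: x201 :: x204 :: x209 :: x214 :: x223 :: x245 :: x254 :: x255 :: x258 :: x266 :: x276 :: x277 :: x284 :: x291 :: x310 :: x316 :: x322 :: x328 :: x332 :: x355 :: x357 :: x364 :: x371 :: x375 :: x379 :: x383 :: x390 :: x393 :: x400 :: x407 :: x409 :: x415 :: x420 :: x424 :: x427 :: x430 :: x437 :: x438 :: x444 :: x447 :: x452 :: x453 :: x462 :: x472 :: x492 :: x493 :: x496 :: x501 :: x518 :: x528 :: x530 :: [])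

theorem fl_ok : AC XB M0 fl := .cons x45k <| .cons x47k <| .cons x61k <| .cons x73k <| .cons x77k <| .cons x79k <| .cons x93k <| .cons x96k <| .cons x101k <| .cons x103k <| .cons x127k <| .cons x130k <| .cons x136k <| .cons x142k <| .cons x154k <| .cons x155k <| .cons x161k <| .cons x167k <| .cons x174k <| .cons x177k <| .cons x187k <| .cons x194k <| .cons x200k <| .cons x201k <| .cons x204k <| .cons x209k <| .cons x214k <| .cons x223k <| .cons x245k <| .cons x254k <| .cons x255k <| .cons x258k <| .cons x266k <| .cons x276k <| .cons x277k <| .cons x284k <| .cons x291k <| .cons x310k <| .cons x316k <| .cons x322k <| .cons x328k <| .cons x332k <| .cons x355k <| .cons x357k <| .cons x364k <| .cons x371k <| .cons x375k <| .cons x379k <| .cons x383k <| .cons x390k <| .cons x393k <| .cons x400k <| .cons x407k <| .cons x409k <| .cons x415k <| .cons x420k <| .cons x424k <| .cons x427k <| .cons x430k <| .cons x437k <| .cons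 x438k <| .cons x444k <| .cons x447k <| .cons x452k <| .cons x453k <| .cons x462k <| .cons x472k <| .cons x492k <| .cons x493k <| .cons x496k <| .cons x501k <| .cons x518k <| .cons x528k <| .cons x530k <| .nil

theorem b3_2346 : S (PX [] [399,400,531]) := S.of (.q 330 (.a 1 [] (.d 297 2312 264 2345 429)
 (.a 1 [264] (.d 429 2345 297 2378 462)
 (.a 0 [297,429] (.q 362 (.a 1 [] (.d 298 1290 266 1322 426)
 (.a 1 [266] (.d 426 1322 298 1354 458)
 (.a 0 [298,426] (.q 361 (.a 1 [] (.d 360 359 359 360 364)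
 (.a 1 [359] (.d 364 360 360 361 365)
 (.a 0 [360,364] (.q 427 (.a 1 [] (.d 328 2343 295 2376 460)
 (.a 1 [295] (.d 460 2376 328 2409 493)
 (.a 0 [328,460] (.q 395 (.a 1 [] (.d 393 392 392 393 397)
 (.a 1 [392] (.d 397 393 393 394 398)
 (.a 1 [393] (.d 331 1323 299 1355 459)
 .e))))
 .e))))
 .e))))
 .e))))
 .e)))) (by decide +kernel)

theorem b3_2347 : S (PX [333,465] [204,300,399,432,531]) := S.of (.q 332 (.a 1 [] (.d 301 3342 270 3373 425)
 (.a 1 [270] (.d 425 3373 301 3404 456)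
 (.a 0 [301,425] (.q 330 (.a 1 [] (.d 331 329 329 330 334)
 (.a 1 [329] (.d 429 2345 297 2378 462)
 .e)))
 .e)))) (by decide +kernel)

theorem b3_2348 : S (PX [333,465] [236,300,399,432,531]) := S.of (.q 332 (.a 1 [] (.d 301 3342 270 3373 425)
 (.a 1 [270] (.d 425 3373 301 3404 456)
 (.a 0 [301,425] (.q 330 (.a 1 [] (.d 331 329 329 330 334)
 (.a 1 [329] (.d 429 2345 297 2378 462)
 .e)))
 .e)))) (by decide +kernel)

theorem b3_2349 : S (PX [333,465] [263,300,399,432,531]) := S.of (.q 395 (.a 1 [] (.d 393 392 392 393 397)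
 (.a 1 [392] (.d 397 393 393 394 398)
 (.a 0 [393,397] (.q 331 (.a 1 [] (.d 299 1291 267 1323 427)
 (.a 1 [267] (.d 427 1323 299 1355 459)
 (.a 0 [299,427] (.q 332 (.a 1 [] (.d 330 329 329 330 334)
 (.a 1 [329] (.d 334 330 330 331 335)
 (.a 1 [330] (.d 301 3342 270 3373 425)
 .e))))
 .e))))
 .e)))) (by decide +kernel)

theorem b3_2350 : S (PX [333,465] [268,300,399,432,531]) := S.of (.q 332 (.a 1 [] (.d 301 3342 270 3373 425)
 (.a 1 [270] (.d 425 3373 301 3404 456)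
 (.a 0 [301,425] (.q 330 (.a 1 [] (.d 331 329 329 330 334)
 (.a 1 [329] (.d 429 2345 297 2378 462)
 .e)))
 .e)))) (by decide +kernel)

theorem b3_2351 : S (PX [333,465] [296,300,399,432,531]) := S.of (.q 395 (.a 1 [] (.d 393 392 392 393 397)
 (.a 1 [392] (.d 397 393 393 394 398)
 (.a 0 [393,397] (.q 331 (.a 1 [] (.d 299 1291 267 1323 427)
 (.a 1 [267] (.d 427 1323 299 1355 459)
 (.a 0 [299,427] (.q 330 (.a 1 [] (.d 332 329 329 330 334)
 (.a 1 [298] (.d 297 2312 264 2345 429)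
 (.a 0 [297] (.q 298 (.a 1 [] (.d 332 329 329 330 334)
 (.a 1 [329] (.d 362 1290 266 1322 426)
 .e)))
 .e))))
 .e))))
 .e)))) (by decide +kernel)

theorem b3_2352 : S (PX [333,465] [297,300,399,432,531]) := S.of (.q 395 (.a 1 [] (.d 393 392 392 393 397)
 (.a 1 [392] (.d 397 393 393 394 398)
 (.a 0 [393,397] (.q 364 (.a 1 [] (.d 302 3343 271 3374 426)
 (.a 1 [271] (.d 426 3374 302 3405 457)
 (.a 0 [302,426] (.q 362 (.a 1 [] (.d 361 360 360 361 365)
 (.a 1 [360] (.d 365 361 361 362 366)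
 (.a 0 [361,365] (.q 329 (.a 1 [] (.d 296 2311 263 2344 428)
 (.a 1 [263] (.d 428 2344 296 2377 461)
 (.a 1 [296] (.r 428 2377 461 (.d 460 1356 332 1388 492))
 (.a 0 [428] (.q 332 (.a 1 [] (.d 301 3342 270 3373 425)
 (.a 1 [270] (.d 425 3373 301 3404 456)
 (.a 1 [301] (.r 331 329 330 (.d 427 1323 299 1355 459))
 .e))))
 .e)))))
 .e))))
 .e))))
 .e)))) (by decide +kernel)

theorem b3_2353 : S (PX [333,465] [298,300,399,432,531]) := S.of (.q 395 (.a 1 [] (.d 393 392 392 393 397)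
 (.a 1 [392] (.d 397 393 393 394 398)
 (.a 0 [393,397] (.q 364 (.a 1 [] (.d 302 3343 271 3374 426)
 (.a 1 [271] (.d 426 3374 302 3405 457)
 (.a 0 [302,426] (.q 299 (.a 1 [] (.d 331 1291 267 1323 427)
 (.a 0 [267,331,427] (.q 362 (.a 1 [] (.d 361 360 360 361 365)
 (.a 1 [360] (.d 365 361 361 362 366)
 (.a 0 [361,365] (.q 428 (.a 1 [] (.d 460 1356 332 1388 492)
 (.a 1 [332] (.d 461 2377 329 2410 494)
 .e)))
 .e))))
 .e)))
 .e))))
 .e)))) (by decide +kernel)

theorem b3_2354 : S (PX [333,465] [299,300,399,432,531]) := S.of (.q 330 (.a 1 [] (.d 297 2312 264 2345 429)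
 (.a 1 [264] (.d 429 2345 297 2378 462)
 (.a 0 [297,429] (.q 298 (.a 1 [] (.d 362 1290 266 1322 426)
 (.a 0 [266,362,426] (.q 332 (.a 1 [] (.d 331 329 329 330 334)
 (.a 1 [329] (.d 425 3373 301 3404 456)
 .e)))
 .e)))
 .e)))) (by decide +kernel)

theorem b3_2355 : S (PX [333,465] [300,301,399,432,531]) := S.of (.q 395 (.a 1 [] (.d 393 392 392 393 397)
 (.a 1 [392] (.d 397 393 393 394 398)
 (.a 0 [393,397] (.q 330 (.a 1 [] (.d 297 2312 264 2345 429)
 (.a 1 [264] (.d 429 2345 297 2378 462)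
 (.a 0 [297,429] (.q 426 (.a 1 [] (.d 362 1322 298 1354 458)
 (.a 1 [299] (.r 298 1322 362 (.d 364 3374 302 3405 457))
 (.a 1 [362] (.d 364 3374 302 3405 457)
 (.a 0 [298] (.q 299 (.a 1 [] (.d 364 3374 302 3405 457)
 (.a 1 [302] (.d 331 1291 267 1323 427)
 .e)))
 .e)))))
 .e))))
 .e)))) (by decide +kernel)

theorem b3_2356 : S (PX [333,465] [300,302,399,432,531]) := S.of (.q 301 (.a 1 [] (.d 332 3342 270 3373 425)
 (.a 0 [270,332,425] (.q 429 (.a 1 [] (.d 330 2345 297 2378 462)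
 (.a 1 [297] (.d 462 2378 330 2411 495)
 (.a 1 [330] (.r 397 1325 365 (.d 395 393 393 394 398))
 .e))))
 .e))) (by decide +kernel)

theorem b3_2357 : S (PX [333,465] [300,303,399,432,531]) := S.of (.q 395 (.a 1 [] (.d 393 392 392 393 397)
 (.a 1 [392] (.d 397 393 393 394 398)
 (.a 0 [393,397] (.q 330 (.a 1 [] (.d 297 2312 264 2345 429)
 (.a 1 [264] (.d 429 2345 297 2378 462)
 (.a 0 [297,429] (.q 331 (.a 1 [] (.d 332 329 329 330 334)
 (.a 1 [329] (.d 427 1323 299 1355 459)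
 .e)))
 .e))))
 .e)))) (by decide +kernel)

theorem b3_2358 : S (PX [333,465] [300,304,399,432,531]) := S.of (.q 395 (.a 1 [] (.d 393 392 392 393 397)
 (.a 1 [392] (.d 397 393 393 394 398)
 (.a 0 [393,397] (.q 331 (.a 1 [] (.d 299 1291 267 1323 427)
 (.a 1 [267] (.d 427 1323 299 1355 459)
 (.a 0 [299,427] (.q 332 (.a 1 [] (.d 330 329 329 330 334)
 (.a 1 [329] (.d 334 330 330 331 335)
 (.a 1 [330] (.d 301 3342 270 3373 425)
 .e))))
 .e))))
 .e)))) (by decide +kernel)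

theorem b3_2359 : S (PX [333,465] [300,328,399,432,531]) := S.of (.q 395 (.a 1 [] (.d 393 392 392 393 397)
 (.a 1 [392] (.d 397 393 393 394 398)
 (.a 0 [393,397] (.q 331 (.a 1 [] (.d 299 1291 267 1323 427)
 (.a 1 [267] (.d 427 1323 299 1355 459)
 (.a 0 [299,427] (.q 332 (.a 1 [] (.d 330 329 329 330 334)
 (.a 1 [329] (.d 425 3373 301 3404 456)
 .e)))
 .e))))
 .e)))) (by decide +kernel)

theorem b3_2360 : S (PX [333,465] [300,329,399,432,531]) := S.of (.q 395 (.a 1 [] (.d 393 392 392 393 397)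
 (.a 1 [392] (.d 397 393 393 394 398)
 (.a 0 [393,397] (.q 331 (.a 1 [] (.d 299 1291 267 1323 427)
 (.a 1 [267] (.d 427 1323 299 1355 459)
 (.a 0 [299,427] (.q 332 (.a 1 [] (.d 334 330 330 331 335)
 (.a 1 [330] (.d 425 3373 301 3404 456)
 .e)))
 .e))))
 .e)))) (by decide +kernel)

theorem b3_2361 : S (PX [333,465] [300,330,399,432,531]) := S.of (.q 395 (.a 1 [] (.d 393 392 392 393 397)
 (.a 1 [392] (.d 397 393 393 394 398)
 (.a 0 [393,397] (.q 364 (.a 1 [] (.d 302 3343 271 3374 426)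
 (.a 1 [271] (.d 426 3374 302 3405 457)
 (.a 0 [302,426] (.q 362 (.a 1 [] (.d 361 360 360 361 365)
 (.a 1 [360] (.d 365 361 361 362 366)
 (.a 0 [361,365] (.q 428 (.a 1 [] (.d 460 1356 332 1388 492)
 (.a 1 [332] (.d 461 2377 329 2410 494)
 .e)))
 .e))))
 .e))))
 .e)))) (by decide +kernel)

theorem b3_2362 : S (PX [333,465] [300,332,399,432,531]) := S.of (.q 395 (.a 1 [] (.d 393 392 392 393 397)
 (.a 1 [392] (.d 397 393 393 394 398)
 (.a 0 [393,397] (.q 364 (.a 1 [] (.d 302 3343 271 3374 426)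
 (.a 1 [271] (.d 426 3374 302 3405 457)
 (.a 0 [302,426] (.q 362 (.a 1 [] (.d 361 360 360 361 365)
 (.a 1 [360] (.d 365 361 361 362 366)
 (.a 0 [361,365] (.q 462 (.a 1 [] (.d 429 2378 330 2411 495)
 (.a 0 [330,429,495] (.q 461 (.a 1 [] (.d 428 2377 329 2410 494)
 (.a 1 [329] (.r 428 2410 494 (.r 460 1388 492 (.d 463 459 459 460 464)))
 (.a 1 [428] (.r 463 461 464 (.r 459 459 460 (.d 427 1355 331 1387 491)))
 .e))))
 .e)))
 .e))))
 .e))))
 .e)))) (by decide +kernel)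

theorem b3_2363 : S (PX [333,465] [300,360,399,432,531]) := S.of (.q 395 (.a 1 [] (.d 393 392 392 393 397)
 (.a 1 [392] (.d 397 393 393 394 398)
 (.a 0 [393,397] (.q 331 (.a 1 [] (.d 299 1291 267 1323 427)
 (.a 1 [267] (.d 427 1323 299 1355 459)
 (.a 0 [299,427] (.q 332 (.a 1 [] (.d 330 329 329 330 334)
 (.a 1 [329] (.d 334 330 330 331 335)
 (.a 1 [330] (.d 301 3342 270 3373 425)
 .e))))
 .e))))
 .e)))) (by decide +kernel)

theorem b3_2364 : S (PX [333,465] [300,361,399,432,531]) := S.of (.q 330 (.a 1 [] (.d 297 2312 264 2345 429)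
 (.a 1 [264] (.d 429 2345 297 2378 462)
 (.a 0 [297,429] (.q 332 (.a 1 [] (.d 331 329 329 330 334)
 (.a 1 [329] (.d 425 3373 301 3404 456)
 .e)))
 .e)))) (by decide +kernel)

theorem b3_2365 : S (PX [333,465] [300,362,399,432,531]) := S.of (.q 395 (.a 1 [] (.d 393 392 392 393 397)
 (.a 1 [392] (.d 397 393 393 394 398)
 (.a 0 [393,397] (.q 331 (.a 1 [] (.d 299 1291 267 1323 427)
 (.a 1 [267] (.d 427 1323 299 1355 459)
 (.a 0 [299,427] (.q 332 (.a 1 [] (.d 330 329 329 330 334)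
 (.a 1 [329] (.d 334 330 330 331 335)
 (.a 1 [330] (.d 301 3342 270 3373 425)
 .e))))
 .e))))
 .e)))) (by decide +kernel)

theorem b3_2366 : S (PX [333,465] [300,364,399,432,531]) := S.of (.q 332 (.a 1 [] (.d 301 3342 270 3373 425)
 (.a 1 [270] (.d 425 3373 301 3404 456)
 (.a 0 [301,425] (.q 330 (.a 1 [] (.d 331 329 329 330 334)
 (.a 1 [329] (.d 429 2345 297 2378 462)
 .e)))
 .e)))) (by decide +kernel)

theorem b3_2367 : S (PX [333,465] [300,365,399,432,531]) := S.of (.q 332 (.a 1 [] (.d 301 3342 270 3373 425)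
 (.a 1 [270] (.d 425 3373 301 3404 456)
 (.a 0 [301,425] (.q 330 (.a 1 [] (.d 331 329 329 330 334)
 (.a 1 [329] (.d 429 2345 297 2378 462)
 .e)))
 .e)))) (by decide +kernel)

theorem b3_2368 : S (PX [333,465] [300,392,399,432,531]) := S.of (.q 330 (.a 1 [] (.d 297 2312 264 2345 429)
 (.a 1 [264] (.d 429 2345 297 2378 462)
 (.a 0 [297,429] (.q 332 (.a 1 [] (.d 331 329 329 330 334)
 (.a 1 [329] (.d 425 3373 301 3404 456)
 .e)))
 .e)))) (by decide +kernel)

theorem b3_2369 : S (PX [333,465] [300,393,399,432,531]) := S.of (.q 332 (.a 1 [] (.d 301 3342 270 3373 425)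
 (.a 1 [270] (.d 425 3373 301 3404 456)
 (.a 0 [301,425] (.q 330 (.a 1 [] (.d 331 329 329 330 334)
 (.a 1 [329] (.d 429 2345 297 2378 462)
 .e)))
 .e)))) (by decide +kernel)

theorem b3_2370 : S (PX [333,465] [300,395,399,432,531]) := S.of (.q 332 (.a 1 [] (.d 301 3342 270 3373 425)
 (.a 1 [270] (.d 425 3373 301 3404 456)
 (.a 0 [301,425] (.q 330 (.a 1 [] (.d 331 329 329 330 334)
 (.a 1 [329] (.d 429 2345 297 2378 462)
 .e)))
 .e)))) (by decide +kernel)

theorem b3_2371 : S (PX [333,465] [300,397,399,432,531]) := S.of (.q 332 (.a 1 [] (.d 301 3342 270 3373 425)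
 (.a 1 [270] (.d 425 3373 301 3404 456)
 (.a 0 [301,425] (.q 330 (.a 1 [] (.d 331 329 329 330 334)
 (.a 1 [329] (.d 429 2345 297 2378 462)
 .e)))
 .e)))) (by decide +kernel)

theorem b3_2372 : S (PX [333,465] [300,398,399,432,531]) := S.of (.q 332 (.a 1 [] (.d 301 3342 270 3373 425)
 (.a 1 [270] (.d 425 3373 301 3404 456)
 (.a 0 [301,425] (.q 330 (.a 1 [] (.d 331 329 329 330 334)
 (.a 1 [329] (.d 429 2345 297 2378 462)
 .e)))
 .e)))) (by decide +kernel)

theorem b3_2373 : S (PX [333,465] [300,399,400,432,531]) := S.of (.q 332 (.a 1 [] (.d 301 3342 270 3373 425)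
 (.a 1 [270] (.d 425 3373 301 3404 456)
 (.a 0 [301,425] (.q 330 (.a 1 [] (.d 331 329 329 330 334)
 (.a 1 [329] (.d 429 2345 297 2378 462)
 .e)))
 .e)))) (by decide +kernel)

theorem b3_2374 : S (PX [333,465] [300,399,401,432,531]) := S.of (.q 332 (.a 1 [] (.d 301 3342 270 3373 425)
 (.a 1 [270] (.d 425 3373 301 3404 456)
 (.a 0 [301,425] (.q 330 (.a 1 [] (.d 331 329 329 330 334)
 (.a 1 [329] (.d 429 2345 297 2378 462)
 .e)))
 .e)))) (by decide +kernel)

theorem b3_2375 : S (PX [333,465] [300,399,424,432,531]) := S.of (.q 395 (.a 1 [] (.d 393 392 392 393 397)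
 (.a 1 [392] (.d 397 393 393 394 398)
 (.a 0 [393,397] (.q 331 (.a 1 [] (.d 299 1291 267 1323 427)
 (.a 1 [267] (.d 427 1323 299 1355 459)
 (.a 0 [299,427] (.q 332 (.a 1 [] (.d 330 329 329 330 334)
 (.a 1 [329] (.d 334 330 330 331 335)
 (.a 1 [330] (.d 301 3342 270 3373 425)
 .e))))
 .e))))
 .e)))) (by decide +kernel)

theorem b3_2376 : S (PX [333,465] [300,399,425,432,531]) := S.of (.q 395 (.a 1 [] (.d 393 392 392 393 397)
 (.a 1 [392] (.d 397 393 393 394 398)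
 (.a 0 [393,397] (.q 331 (.a 1 [] (.d 299 1291 267 1323 427)
 (.a 1 [267] (.d 427 1323 299 1355 459)
 (.a 0 [299,427] (.q 330 (.a 1 [] (.d 332 329 329 330 334)
 (.a 1 [329] (.d 429 2345 297 2378 462)
 .e)))
 .e))))
 .e)))) (by decide +kernel)

theorem b3_2377 : S (PX [333,465] [300,399,428,432,531]) := S.of (.q 395 (.a 1 [] (.d 393 392 392 393 397)
 (.a 1 [392] (.d 397 393 393 394 398)
 (.a 0 [393,397] (.q 331 (.a 1 [] (.d 299 1291 267 1323 427)
 (.a 1 [267] (.d 427 1323 299 1355 459)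
 (.a 0 [299,427] (.q 332 (.a 1 [] (.d 330 329 329 330 334)
 (.a 1 [329] (.d 334 330 330 331 335)
 (.a 1 [330] (.d 301 3342 270 3373 425)
 .e))))
 .e))))
 .e)))) (by decide +kernel)

theorem b3_2378 : S (PX [333,465] [300,399,432,456,531]) := S.of (.q 395 (.a 1 [] (.d 393 392 392 393 397)
 (.a 1 [392] (.d 397 393 393 394 398)
 (.a 0 [393,397] (.q 331 (.a 1 [] (.d 299 1291 267 1323 427)
 (.a 1 [267] (.d 427 1323 299 1355 459)
 (.a 0 [299,427] (.q 330 (.a 1 [] (.d 332 329 329 330 334)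
 (.a 1 [329] (.d 429 2345 297 2378 462)
 .e)))
 .e))))
 .e)))) (by decide +kernel)

theorem b3_2379 : S (PX [333,465] [300,399,432,457,531]) := S.of (.q 395 (.a 1 [] (.d 393 392 392 393 397)
 (.a 1 [392] (.d 397 393 393 394 398)
 (.a 0 [393,397] (.q 331 (.a 1 [] (.d 299 1291 267 1323 427)
 (.a 1 [267] (.d 427 1323 299 1355 459)
 (.a 0 [299,427] (.q 332 (.a 1 [] (.d 330 329 329 330 334)
 (.a 1 [329] (.d 334 330 330 331 335)
 (.a 1 [330] (.d 301 3342 270 3373 425)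
 .e))))
 .e))))
 .e)))) (by decide +kernel)

theorem b3_2380 : S (PX [333,465] [300,399,432,461,531]) := S.of (.q 395 (.a 1 [] (.d 393 392 392 393 397)
 (.a 1 [392] (.d 397 393 393 394 398)
 (.a 0 [393,397] (.q 331 (.a 1 [] (.d 299 1291 267 1323 427)
 (.a 1 [267] (.d 427 1323 299 1355 459)
 (.a 0 [299,427] (.q 332 (.a 1 [] (.d 330 329 329 330 334)
 (.a 1 [329] (.d 334 330 330 331 335)
 (.a 1 [330] (.d 301 3342 270 3373 425)
 .e))))
 .e))))
 .e)))) (by decide +kernel)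

theorem b3_2381 : S (PX [333,465] [300,399,432,487,531]) := S.of (.q 395 (.a 1 [] (.d 393 392 392 393 397)
 (.a 1 [392] (.d 397 393 393 394 398)
 (.a 0 [393,397] (.q 331 (.a 1 [] (.d 299 1291 267 1323 427)
 (.a 1 [267] (.d 427 1323 299 1355 459)
 (.a 0 [299,427] (.q 332 (.a 1 [] (.d 330 329 329 330 334)
 (.a 1 [329] (.d 334 330 330 331 335)
 (.a 1 [330] (.d 301 3342 270 3373 425)
 .e))))
 .e))))
 .e)))) (by decide +kernel)

theorem b3_2382 : S (PX [333,465] [300,399,432,488,531]) := S.of (.q 395 (.a 1 [] (.d 393 392 392 393 397)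
 (.a 1 [392] (.d 397 393 393 394 398)
 (.a 0 [393,397] (.q 331 (.a 1 [] (.d 299 1291 267 1323 427)
 (.a 1 [267] (.d 427 1323 299 1355 459)
 (.a 0 [299,427] (.q 332 (.a 1 [] (.d 330 329 329 330 334)
 (.a 1 [329] (.d 334 330 330 331 335)
 (.a 1 [330] (.d 301 3342 270 3373 425)
 .e))))
 .e))))
 .e)))) (by decide +kernel)

theorem b3_2383 : S (PX [333,465] [300,399,432,489,531]) := S.of (.q 395 (.a 1 [] (.d 393 392 392 393 397)
 (.a 1 [392] (.d 397 393 393 394 398)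
 (.a 0 [393,397] (.q 331 (.a 1 [] (.d 299 1291 267 1323 427)
 (.a 1 [267] (.d 427 1323 299 1355 459)
 (.a 0 [299,427] (.q 332 (.a 1 [] (.d 330 329 329 330 334)
 (.a 1 [329] (.d 334 330 330 331 335)
 (.a 1 [330] (.d 301 3342 270 3373 425)
 .e))))
 .e))))
 .e)))) (by decide +kernel)

theorem b3_2384 : S (PX [333,465] [300,399,432,520,531]) := S.of (.q 395 (.a 1 [] (.d 393 392 392 393 397)
 (.a 1 [392] (.d 397 393 393 394 398)
 (.a 0 [393,397] (.q 331 (.a 1 [] (.d 299 1291 267 1323 427)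
 (.a 1 [267] (.d 427 1323 299 1355 459)
 (.a 0 [299,427] (.q 332 (.a 1 [] (.d 330 329 329 330 334)
 (.a 1 [329] (.d 334 330 330 331 335)
 (.a 1 [330] (.d 301 3342 270 3373 425)
 .e))))
 .e))))
 .e)))) (by decide +kernel)

theorem b3_2404 : S (PX [465] [330,399,432,531]) := S.of (.q 332 (.a 1 [] (.d 301 3342 270 3373 425)
 (.a 1 [270] (.d 425 3373 301 3404 456)
 (.a 0 [301,425] (.q 395 (.a 1 [] (.d 393 392 392 393 397)
 (.a 1 [392] (.d 397 393 393 394 398)
 (.a 0 [393,397] (.q 427 (.a 1 [] (.d 331 1323 299 1355 459)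
 (.a 1 [299] (.d 459 1355 331 1387 491)
 (.a 0 [331,459] (.q 365 (.a 1 [] (.d 334 3375 303 3406 458)
 (.a 1 [303] (.d 458 3406 334 3437 489)
 (.a 0 [334,458] (.q 364 (.a 1 [] (.d 362 361 361 362 366)
 (.a 1 [361] (.d 366 362 362 363 367)
 (.a 1 [362] (.d 300 1292 268 1324 428)
 .e))))
 .e))))
 .e))))
 .e))))
 .e)))) (by decide +kernel)

theorem b3_2405 : S (PX [465] [331,399,432,531]) := S.of (.q 330 (.a 1 [] (.d 297 2312 264 2345 429)
 (.a 1 [264] (.d 429 2345 297 2378 462)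
 (.a 0 [297,429] (.q 362 (.a 1 [] (.d 298 1290 266 1322 426)
 (.a 1 [266] (.d 426 1322 298 1354 458)
 (.a 0 [298,426] (.q 364 (.a 1 [] (.d 361 360 360 361 365)
 (.a 1 [360] (.d 365 361 361 362 366)
 (.a 0 [361,365] (.q 332 (.a 1 [] (.d 300 1292 268 1324 428)
 (.a 1 [268] (.d 428 1324 300 1356 460)
 (.a 1 [300] (.d 301 3342 270 3373 425)
 .e))))
 .e))))
 .e))))
 .e)))) (by decide +kernel)

theorem b3_2503 : S (PX [465] [333,399,432,531]) := S.of (.q 332 (.a 1 [] (.d 301 3342 270 3373 425)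
 (.a 0 [301] (.q 300 (.a 1 [] (.d 364 1292 268 1324 428)
 (.a 0 [364] (.q 330 (.a 1 [] (.d 297 2312 264 2345 429)
 (.a 0 [429] (.r 297 2312 264 (.q 395 (.a 1 [] (.d 393 392 392 393 397)
 (.a 1 [397] (.q 365 (.a 1 [] (.q 427 (.a 1 [] (.d 331 1323 299 1355 459)
 (.a 1 [299] (.d 458 3406 334 3437 489)
 .e)))
 (.a 1 [427] (.q 299 (.a 1 [] (.d 266 2281 233 2314 398)
 (.a 1 [233] (.d 398 2314 266 2347 431)
 (.a 1 [266] (.r 331 1291 267 (.r 393 392 392 (.d 362 3341 269 3372 424)))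
 .e))))
 (.a 1 [299] (.q 427 (.a 1 [] (.d 459 1355 331 1387 491)
 (.a 1 [331] (.d 458 3406 334 3437 489)
 .e)))
 (.a 1 [331] (.r 393 392 392 (.r 425 3404 456 (.r 361 1321 329 (.r 489 1385 457 (.r 427 3437 458 (.d 328 2343 295 2376 460))))))
 (.a 1 [298] (.q 331 (.a 1 [] (.d 299 1291 267 1323 427)
 (.a 1 [267] (.d 427 1323 299 1355 459)
 (.a 1 [299] (.r 427 1355 459 (.d 458 3406 334 3437 489))
 (.a 1 [427] (.r 299 1291 267 (.d 398 2314 266 2347 431))
 .e)))))
 (.a 1 [430] (.r 393 392 392 (.r 425 3404 456 (.r 329 1321 361 (.r 331 328 328 (.d 362 3341 269 3372 424)))))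
 (.a 1 [463] (.r 393 392 392 (.r 425 3404 456 (.r 329 1321 361 (.r 331 328 328 (.d 362 3341 269 3372 424)))))
 .e))))))))
 (.a 1 [393] (.q 299 (.a 1 [] (.d 331 1291 267 1323 427)
 (.a 1 [267] (.r 298 296 296 (.d 362 1290 266 1322 426))
 (.a 1 [365] (.r 397 394 398 (.d 331 1291 267 1323 427))
 (.a 0 [397] (.q 365 (.a 1 [] (.d 331 1291 267 1323 427)
 (.a 1 [267] (.d 398 2314 266 2347 431)
 .e)))
 .e)))))
 (.a 1 [392] (.d 397 393 393 394 398)
 .e))))))
 (.a 1 [297] (.q 362 (.a 1 [] (.d 298 1290 266 1322 426)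
 (.a 1 [266] (.d 426 1322 298 1354 458)
 (.a 0 [298,426] (.q 395 (.a 1 [] (.d 393 392 392 393 397)
 (.a 1 [392] (.d 397 393 393 394 398)
 (.a 1 [397] (.r 393 392 392 (.d 331 3341 269 3372 424))
 (.a 0 [393] (.q 331 (.a 1 [] (.d 299 1291 267 1323 427)
 (.a 1 [267] (.d 427 1323 299 1355 459)
 (.a 1 [299] (.r 329 328 328 (.d 428 2344 296 2377 461))
 .e))))
 .e)))))
 .e))))
 .e))))
 (.a 1 [428] (.r 364 1292 268 (.q 365 (.a 1 [] (.d 362 361 361 362 366)
 (.a 1 [361] (.d 366 362 362 363 367)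
 (.a 0 [362,366] (.q 398 (.a 1 [] (.d 299 2314 266 2347 431)
 (.a 1 [266] (.d 431 2347 299 2380 464)
 (.a 1 [431] (.r 395 394 397 (.r 299 2314 266 (.d 331 1291 267 1323 427)))
 (.a 0 [299] (.q 427 (.a 1 [] (.d 334 3375 303 3406 458)
 (.a 1 [303] (.d 458 3406 334 3437 489)
 (.a 1 [334] (.r 395 394 397 (.d 459 1355 331 1387 491))
 .e))))
 .e)))))
 .e)))))
 (.a 1 [268] (.q 330 (.a 1 [] (.d 297 2312 264 2345 429)
 (.a 1 [264] (.d 429 2345 297 2378 462)
 (.a 0 [297,429] (.q 397 (.a 1 [] (.d 395 393 393 394 398)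
 (.a 0 [393,395,398] (.q 362 (.a 1 [] (.d 298 1290 266 1322 426)
 (.a 1 [266] (.d 426 1322 298 1354 458)
 (.a 1 [298] (.r 364 1324 428 (.d 365 361 361 362 366))
 .e))))
 .e)))
 .e))))
 .e)))))
 (.a 1 [300] (.q 366 (.a 1 [] (.d 425 3373 301 3404 456)
 (.a 1 [301] (.q 365 (.a 1 [] (.d 364 362 362 363 367)
 (.a 0 [362,364,367] (.q 395 (.a 1 [] (.d 393 392 392 393 397)
 (.a 1 [392] (.d 397 393 393 394 398)
 (.a 1 [393] (.r 398 394 397 (.d 299 2314 266 2347 431))
 (.a 0 [397] (.q 427 (.a 1 [] (.d 331 1323 299 1355 459)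
 (.a 1 [299] (.d 459 1355 331 1387 491)
 (.a 1 [331] (.d 334 3375 303 3406 458)
 .e))))
 .e)))))
 .e)))
 .e)))
 (.a 1 [425] (.q 300 (.a 1 [] (.d 364 1292 268 1324 428)
 (.a 0 [268,364,428] (.q 395 (.a 1 [] (.d 393 392 392 393 397)
 (.a 1 [392] (.d 397 393 393 394 398)
 (.a 0 [393,397] (.q 299 (.a 1 [] (.d 331 1291 267 1323 427)
 (.a 1 [267] (.r 301 3342 270 (.d 302 298 298 299 303))
 .e)))
 .e))))
 .e)))
 (.a 1 [270] (.d 425 3373 301 3404 456)
 (.a 1 [366] (.q 300 (.a 1 [] (.d 425 3373 301 3404 456)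
 (.a 1 [301] (.d 364 1292 268 1324 428)
 .e)))
 .e))))))) (by decide +kernel)

theorem b3_2504 : S (PX [465] [361,399,432,531]) := S.of (.q 395 (.a 1 [] (.d 393 392 392 393 397)
 (.a 1 [392] (.d 397 393 393 394 398)
 (.a 0 [393,397] (.q 425 (.a 1 [] (.d 332 3373 301 3404 456)
 (.a 1 [301] (.d 456 3404 332 3435 487)
 (.a 0 [332,456] (.q 427 (.a 1 [] (.d 331 1323 299 1355 459)
 (.a 1 [299] (.d 459 1355 331 1387 491)
 (.a 0 [331,459] (.q 458 (.a 1 [] (.d 365 3406 334 3437 489)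
 (.a 1 [334] (.d 489 3437 365 3468 520)
 (.a 0 [365,489] (.q 426 (.a 1 [] (.d 424 423 423 424 428)
 (.a 1 [423] (.d 428 424 424 425 429)
 (.a 1 [424] (.d 362 1354 330 1386 490)
 .e))))
 .e))))
 .e))))
 .e))))
 .e)))) (by decide +kernel)

theorem b3_2505 : S (PX [300,465] [304,366,399,432,531]) := S.of (.q 332 (.a 1 [] (.d 364 1292 268 1324 428)
 (.a 1 [268] (.d 425 3373 301 3404 456)
 .e))) (by decide +kernel)

theorem b3_2506 : S (PX [300,465] [330,366,399,432,531]) := S.of (.q 332 (.a 1 [] (.d 364 1292 268 1324 428)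
 (.a 1 [268] (.d 425 3373 301 3404 456)
 .e))) (by decide +kernel)

theorem b3_2507 : S (PX [300,465] [332,366,399,432,531]) := S.of (.q 330 (.a 1 [] (.d 297 2312 264 2345 429)
 (.a 1 [264] (.d 429 2345 297 2378 462)
 (.a 0 [297,429] (.q 362 (.a 1 [] (.d 298 1290 266 1322 426)
 (.a 1 [266] (.d 426 1322 298 1354 458)
 (.a 0 [298,426] (.q 393 (.a 1 [] (.d 395 392 392 393 397)
 (.a 1 [392] (.d 331 3341 269 3372 424)
 .e)))
 .e))))
 .e)))) (by decide +kernel)

theorem b3_2508 : S (PX [300,465] [333,366,399,432,531]) := S.of (.q 332 (.a 1 [] (.d 364 1292 268 1324 428)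
 (.a 1 [268] (.d 425 3373 301 3404 456)
 .e))) (by decide +kernel)

theorem b3_2509 : S (PX [300,465] [335,366,399,432,531]) := S.of (.q 332 (.a 1 [] (.d 364 1292 268 1324 428)
 (.a 1 [268] (.d 425 3373 301 3404 456)
 .e))) (by decide +kernel)

theorem b3_2510 : S (PX [300,465] [365,366,399,432,531]) := S.of (.q 332 (.a 1 [] (.d 364 1292 268 1324 428)
 (.a 1 [268] (.d 425 3373 301 3404 456)
 .e))) (by decide +kernel)

theorem b3_2511 : S (PX [300,465] [366,392,399,432,531]) := S.of (.q 332 (.a 1 [] (.d 364 1292 268 1324 428)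
 (.a 1 [268] (.d 425 3373 301 3404 456)
 .e))) (by decide +kernel)

theorem b3_2512 : S (PX [300,465] [366,399,400,432,531]) := S.of (.q 332 (.a 1 [] (.d 364 1292 268 1324 428)
 (.a 1 [268] (.d 425 3373 301 3404 456)
 .e))) (by decide +kernel)

theorem b3_2513 : S (PX [300,465] [366,399,425,432,531]) := S.of (.q 395 (.a 1 [] (.d 393 392 392 393 397)
 (.a 1 [392] (.d 397 393 393 394 398)
 (.a 0 [393,397] (.q 331 (.a 1 [] (.d 299 1291 267 1323 427)
 (.a 1 [267] (.d 427 1323 299 1355 459)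
 (.a 0 [299,427] (.q 269 (.a 1 [] (.d 238 3279 207 3310 362)
 (.a 0 [207,238,362] (.q 332 (.a 1 [] (.d 364 1292 268 1324 428)
 (.a 1 [428] (.r 268 1292 364 (.r 270 3342 301 (.d 271 267 267 268 272)))
 (.a 0 [268,364] (.q 330 (.a 1 [] (.d 329 328 328 329 333)
 (.a 1 [328] (.d 333 329 329 330 334)
 (.a 1 [329] (.d 297 2312 264 2345 429)
 .e))))
 .e))))
 .e)))
 .e))))
 .e)))) (by decide +kernel)

theorem b3_2514 : S (PX [300,465] [366,399,428,432,531]) := S.of (.q 301 (.a 1 [] (.d 332 3342 270 3373 425)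
 (.a 0 [270,332,425] (.q 299 (.a 1 [] (.d 298 297 297 298 302)
 (.a 1 [297] (.d 302 298 298 299 303)
 (.a 1 [302] (.r 297 297 298 (.d 330 2312 264 2345 429))
 (.a 0 [298] (.q 395 (.a 1 [] (.d 393 392 392 393 397)
 (.a 1 [392] (.d 397 393 393 394 398)
 (.a 1 [393] (.d 331 1291 267 1323 427)
 .e))))
 .e)))))
 .e))) (by decide +kernel)

theorem b3_2515 : S (PX [300,465] [366,399,432,490,531]) := S.of (.q 332 (.a 1 [] (.d 364 1292 268 1324 428)
 (.a 1 [268] (.d 425 3373 301 3404 456)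
 .e))) (by decide +kernel)

theorem b3_2526 : S (PX [465] [392,399,432,531]) := S.of (.q 330 (.a 1 [] (.d 297 2312 264 2345 429)
 (.a 1 [264] (.d 429 2345 297 2378 462)
 (.a 0 [297,429] (.q 362 (.a 1 [] (.d 298 1290 266 1322 426)
 (.a 1 [266] (.d 426 1322 298 1354 458)
 (.a 0 [298,426] (.q 364 (.a 1 [] (.d 361 360 360 361 365)
 (.a 1 [360] (.d 365 361 361 362 366)
 (.a 0 [361,365] (.q 332 (.a 1 [] (.d 300 1292 268 1324 428)
 (.a 1 [268] (.d 428 1324 300 1356 460)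
 (.a 1 [300] (.d 301 3342 270 3373 425)
 .e))))
 .e))))
 .e))))
 .e)))) (by decide +kernel)

theorem b3_2527 : S (PX [465] [393,399,432,531]) := S.of (.q 330 (.a 1 [] (.d 297 2312 264 2345 429)
 (.a 1 [264] (.d 429 2345 297 2378 462)
 (.a 0 [297,429] (.q 425 (.a 1 [] (.d 332 3373 301 3404 456)
 (.a 1 [301] (.d 456 3404 332 3435 487)
 (.a 0 [332] (.q 426 (.a 1 [] (.d 362 1322 298 1354 458)
 (.a 0 [298,362,458] (.q 424 (.a 1 [] (.d 423 422 422 423 427)
 (.a 1 [422] (.d 427 423 423 424 428)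
 (.a 0 [423] (.r 456 3435 487 (.q 488 (.a 1 [] (.d 392 1384 360 1416 520)
 (.a 1 [360] (.d 520 1416 392 1448 552)
 (.a 0 [392,520] (.q 395 (.a 1 [] (.d 457 3436 364 3467 519)
 (.a 1 [364] (.r 427 424 428 (.d 331 1323 299 1355 459))
 .e)))
 .e)))))
 (.a 0 [427] (.r 456 3435 487 (.q 392 (.a 1 [] (.d 360 1352 328 1384 488)
 (.a 1 [328] (.d 488 1384 360 1416 520)
 (.a 1 [360] (.r 423 422 422 (.d 361 3371 299 3402 454))
 .e)))))
 .e)))))
 .e)))
 (.a 0 [456] (.q 362 (.a 1 [] (.d 298 1290 266 1322 426)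
 (.a 1 [266] (.d 426 1322 298 1354 458)
 (.a 0 [298,426] (.q 364 (.a 1 [] (.d 361 360 360 361 365)
 (.a 1 [360] (.d 365 361 361 362 366)
 (.a 1 [361] (.r 332 3373 301 (.d 428 1324 300 1356 460))
 .e))))
 .e))))
 .e)))))
 .e)))) (by decide +kernel)

theorem b3_2528 : S (PX [465] [395,399,432,531]) := S.of (.q 330 (.a 1 [] (.d 297 2312 264 2345 429)
 (.a 1 [264] (.d 429 2345 297 2378 462)
 (.a 0 [297,429] (.q 362 (.a 1 [] (.d 298 1290 266 1322 426)
 (.a 1 [266] (.d 426 1322 298 1354 458)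
 (.a 0 [298,426] (.q 364 (.a 1 [] (.d 361 360 360 361 365)
 (.a 1 [360] (.d 365 361 361 362 366)
 (.a 0 [361,365] (.q 332 (.a 1 [] (.d 300 1292 268 1324 428)
 (.a 1 [268] (.d 428 1324 300 1356 460)
 (.a 1 [300] (.d 301 3342 270 3373 425)
 .e))))
 .e))))
 .e))))
 .e)))) (by decide +kernel)

theorem b3_2529 : S (PX [465] [397,399,432,531]) := S.of (.q 330 (.a 1 [] (.d 297 2312 264 2345 429)
 (.a 1 [264] (.d 429 2345 297 2378 462)
 (.a 0 [297,429] (.q 425 (.a 1 [] (.d 332 3373 301 3404 456)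
 (.a 1 [301] (.d 456 3404 332 3435 487)
 (.a 0 [332,456] (.q 426 (.a 1 [] (.d 362 1322 298 1354 458)
 (.a 0 [298,362,458] (.q 423 (.a 1 [] (.d 424 422 422 423 427)
 (.a 0 [422,424,427] (.q 392 (.a 1 [] (.d 361 3371 299 3402 454)
 (.a 1 [299] (.r 393 392 395 (.r 361 3402 454 (.d 457 1353 329 1385 489)))
 (.a 1 [454] (.r 393 392 395 (.r 361 3371 299 (.d 457 1353 329 1385 489)))
 (.a 0 [361] (.r 393 392 395 (.q 327 (.a 1 [] (.d 360 2342 294 2375 459)
 (.a 1 [294] (.r 391 390 390 (.d 359 1319 295 1351 455))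
 .e))))
 .e)))))
 .e)))
 .e)))
 .e))))
 .e)))) (by decide +kernel)

theorem b3_2530 : S (PX [465] [398,399,432,531]) := S.of (.q 330 (.a 1 [] (.d 297 2312 264 2345 429)
 (.a 1 [264] (.d 429 2345 297 2378 462)
 (.a 0 [297,429] (.q 362 (.a 1 [] (.d 298 1290 266 1322 426)
 (.a 1 [266] (.d 426 1322 298 1354 458)
 (.a 0 [298,426] (.q 361 (.a 1 [] (.d 360 359 359 360 364)
 (.a 1 [359] (.d 364 360 360 361 365)
 (.a 0 [360,364] (.q 299 (.a 1 [] (.d 268 3309 237 3340 392)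
 (.a 1 [237] (.d 392 3340 268 3371 423)
 (.a 1 [268] (.r 392 3371 423 (.r 395 392 393 (.d 331 1291 267 1323 427)))
 (.a 0 [392] (.q 332 (.a 1 [] (.d 301 3342 270 3373 425)
 (.a 1 [270] (.d 425 3373 301 3404 456)
 (.a 0 [301,425] (.q 427 (.a 1 [] (.d 328 2343 295 2376 460)
 (.a 1 [295] (.d 460 2376 328 2409 493)
 (.a 1 [328] (.r 331 1323 395 (.d 333 329 329 330 334))
 .e))))
 .e))))
 .e)))))
 .e))))
 .e))))
 .e)))) (by decide +kernel)

theorem b3_2531 : S (PX [465] [399,400,432,531]) := S.of (.q 330 (.a 1 [] (.d 297 2312 264 2345 429)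
 (.a 1 [264] (.d 429 2345 297 2378 462)
 (.a 0 [297,429] (.q 362 (.a 1 [] (.d 298 1290 266 1322 426)
 (.a 1 [266] (.d 426 1322 298 1354 458)
 (.a 0 [298,426] (.q 361 (.a 1 [] (.d 360 359 359 360 364)
 (.a 1 [359] (.d 364 360 360 361 365)
 (.a 0 [360,364] (.q 427 (.a 1 [] (.d 328 2343 295 2376 460)
 (.a 1 [295] (.d 460 2376 328 2409 493)
 (.a 0 [328,460] (.q 395 (.a 1 [] (.d 393 392 392 393 397)
 (.a 1 [392] (.d 397 393 393 394 398)
 (.a 1 [393] (.d 331 1323 299 1355 459)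
 .e))))
 .e))))
 .e))))
 .e))))
 .e)))) (by decide +kernel)

theorem b3_2532 : S (PX [465] [399,401,432,531]) := S.of (.q 330 (.a 1 [] (.d 297 2312 264 2345 429)
 (.a 1 [264] (.d 429 2345 297 2378 462)
 (.a 0 [297,429] (.q 362 (.a 1 [] (.d 298 1290 266 1322 426)
 (.a 1 [266] (.d 426 1322 298 1354 458)
 (.a 0 [298,426] (.q 361 (.a 1 [] (.d 360 359 359 360 364)
 (.a 1 [359] (.d 364 360 360 361 365)
 (.a 0 [360,364] (.q 427 (.a 1 [] (.d 328 2343 295 2376 460)
 (.a 1 [295] (.d 460 2376 328 2409 493)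
 (.a 0 [328,460] (.q 395 (.a 1 [] (.d 393 392 392 393 397)
 (.a 1 [392] (.d 397 393 393 394 398)
 (.a 1 [393] (.d 331 1323 299 1355 459)
 .e))))
 .e))))
 .e))))
 .e))))
 .e)))) (by decide +kernel)

theorem b3_2533 : S (PX [465] [399,427,432,531]) := S.of (.q 330 (.a 1 [] (.d 297 2312 264 2345 429)
 (.a 1 [264] (.d 429 2345 297 2378 462)
 (.a 0 [297,429] (.q 425 (.a 1 [] (.d 332 3373 301 3404 456)
 (.a 1 [301] (.d 456 3404 332 3435 487)
 (.a 0 [332,456] (.q 393 (.a 1 [] (.d 395 392 392 393 397)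
 (.a 0 [392,395,397] (.q 361 (.a 1 [] (.d 457 1353 329 1385 489)
 (.a 0 [329,457,489] (.q 362 (.a 1 [] (.d 360 359 359 360 364)
 (.a 1 [359] (.d 364 360 360 361 365)
 (.a 1 [360] (.d 298 1290 266 1322 426)
 .e))))
 .e)))
 .e)))
 .e))))
 .e)))) (by decide +kernel)

theorem b3_2534 : S (PX [465] [399,428,432,531]) := S.of (.q 425 (.a 1 [] (.d 332 3373 301 3404 456)
 (.a 1 [301] (.d 456 3404 332 3435 487)
 (.a 0 [332,456] (.q 393 (.a 1 [] (.d 395 392 392 393 397)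
 (.a 0 [392,395,397] (.q 361 (.a 1 [] (.d 329 1321 297 1353 457)
 (.a 1 [297] (.d 457 1353 329 1385 489)
 (.a 1 [457] (.r 297 1321 329 (.d 330 2312 264 2345 429))
 (.a 0 [329] (.r 489 1385 457 (.q 362 (.a 1 [] (.d 360 359 359 360 364)
 (.a 1 [359] (.d 364 360 360 361 365)
 (.a 1 [360] (.r 365 361 364 (.r 427 3437 458 (.d 328 2343 295 2376 460)))
 (.a 0 [364] (.q 426 (.a 1 [] (.d 330 1322 298 1354 458)
 (.a 1 [298] (.d 458 1354 330 1386 490)
 (.a 1 [330] (.r 360 359 359 (.d 459 2375 327 2408 492))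
 .e))))
 .e))))))
 .e)))))
 .e)))
 .e)))) (by decide +kernel)

theorem b3_2535 : S (PX [465] [399,429,432,531]) := S.of (.q 395 (.a 1 [] (.d 393 392 392 393 397)
 (.a 1 [392] (.d 397 393 393 394 398)
 (.a 0 [393,397] (.q 427 (.a 1 [] (.d 331 1323 299 1355 459)
 (.a 1 [299] (.d 459 1355 331 1387 491)
 (.a 0 [331,459] (.q 365 (.a 1 [] (.d 334 3375 303 3406 458)
 (.a 1 [303] (.d 458 3406 334 3437 489)
 (.a 0 [334,458] (.q 332 (.a 1 [] (.d 301 3342 270 3373 425)
 (.a 1 [270] (.d 425 3373 301 3404 456)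
 (.a 0 [301,425] (.q 364 (.a 1 [] (.d 362 361 361 362 366)
 (.a 1 [361] (.d 366 362 362 363 367)
 (.a 1 [362] (.d 300 1292 268 1324 428)
 .e))))
 .e))))
 .e))))
 .e))))
 .e)))) (by decide +kernel)

theorem b3_2536 : S (PX [465] [399,431,432,531]) := S.of (.q 429 (.a 1 [] (.d 330 2345 297 2378 462)
 (.a 1 [297] (.d 462 2378 330 2411 495)
 (.a 0 [330,462] (.q 332 (.a 1 [] (.d 301 3342 270 3373 425)
 (.a 1 [270] (.d 425 3373 301 3404 456)
 (.a 0 [301,425] (.q 395 (.a 1 [] (.d 393 392 392 393 397)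
 (.a 1 [392] (.d 397 393 393 394 398)
 (.a 0 [393,397] (.q 427 (.a 1 [] (.d 331 1323 299 1355 459)
 (.a 1 [299] (.d 459 1355 331 1387 491)
 (.a 0 [331,459] (.q 365 (.a 1 [] (.d 334 3375 303 3406 458)
 (.a 1 [303] (.d 458 3406 334 3437 489)
 (.a 0 [334,458] (.q 460 (.a 1 [] (.d 361 2376 328 2409 493)
 (.a 1 [328] (.d 493 2409 361 2442 526)
 (.a 1 [361] (.r 364 1356 428 (.d 366 362 362 363 367))
 .e))))
 .e))))
 .e))))
 .e))))
 .e))))
 .e)))) (by decide +kernel)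

theorem b3_2537 : S (PX [465] [399,432,458,531]) := S.of (.q 395 (.a 1 [] (.d 393 392 392 393 397)
 (.a 1 [392] (.d 397 393 393 394 398)
 (.a 0 [393,397] (.q 427 (.a 1 [] (.d 331 1323 299 1355 459)
 (.a 1 [299] (.d 459 1355 331 1387 491)
 (.a 0 [331,459] (.q 460 (.a 1 [] (.d 361 2376 328 2409 493)
 (.a 1 [328] (.d 493 2409 361 2442 526)
 (.a 0 [361,493] (.q 429 (.a 1 [] (.d 330 2345 297 2378 462)
 (.a 1 [297] (.d 462 2378 330 2411 495)
 (.a 0 [330,462] (.q 428 (.a 1 [] (.d 426 425 425 426 430)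
 (.a 1 [425] (.d 430 426 426 427 431)
 (.a 1 [426] (.d 364 1356 332 1388 492)
 .e))))
 .e))))
 .e))))
 .e))))
 .e)))) (by decide +kernel)

theorem b3_2538 : S (PX [465] [399,432,463,531]) := S.of (.q 395 (.a 1 [] (.d 393 392 392 393 397)
 (.a 1 [392] (.d 397 393 393 394 398)
 (.a 0 [393,397] (.q 331 (.a 1 [] (.d 299 1291 267 1323 427)
 (.a 1 [267] (.d 427 1323 299 1355 459)
 (.a 0 [299,427] (.q 330 (.a 1 [] (.d 297 2312 264 2345 429)
 (.a 1 [264] (.d 429 2345 297 2378 462)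
 (.a 0 [297,429] (.q 332 (.a 1 [] (.d 329 328 328 329 333)
 (.a 1 [328] (.d 333 329 329 330 334)
 (.a 1 [329] (.d 301 3342 270 3373 425)
 .e))))
 .e))))
 .e))))
 .e)))) (by decide +kernel)

theorem b3_2539 : S (PX [465] [399,432,489,531]) := S.of (.q 395 (.a 1 [] (.d 393 392 392 393 397)
 (.a 1 [392] (.d 397 393 393 394 398)
 (.a 0 [393,397] (.q 427 (.a 1 [] (.d 331 1323 299 1355 459)
 (.a 1 [299] (.d 459 1355 331 1387 491)
 (.a 0 [331,459] (.q 425 (.a 1 [] (.d 332 3373 301 3404 456)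
 (.a 1 [301] (.d 456 3404 332 3435 487)
 (.a 0 [332,456] (.q 330 (.a 1 [] (.d 297 2312 264 2345 429)
 (.a 1 [264] (.d 429 2345 297 2378 462)
 (.a 1 [297] (.r 429 2378 462 (.r 426 425 428 (.d 362 1322 298 1354 458)))
 (.a 0 [429] (.q 426 (.a 1 [] (.d 424 423 423 424 428)
 (.a 1 [423] (.d 362 1322 298 1354 458)
 .e)))
 .e)))))
 .e))))
 .e))))
 .e)))) (by decide +kernel)

theorem b3_2570 : S (PX [432] [399,400,465,531]) := S.of (.q 330 (.a 1 [] (.d 297 2312 264 2345 429)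
 (.a 1 [264] (.d 429 2345 297 2378 462)
 (.a 0 [297,429] (.q 362 (.a 1 [] (.d 298 1290 266 1322 426)
 (.a 1 [266] (.d 426 1322 298 1354 458)
 (.a 0 [298,426] (.q 361 (.a 1 [] (.d 360 359 359 360 364)
 (.a 1 [359] (.d 364 360 360 361 365)
 (.a 0 [360,364] (.q 427 (.a 1 [] (.d 328 2343 295 2376 460)
 (.a 1 [295] (.d 460 2376 328 2409 493)
 (.a 0 [328,460] (.q 395 (.a 1 [] (.d 393 392 392 393 397)
 (.a 1 [392] (.d 397 393 393 394 398)
 (.a 1 [393] (.d 331 1323 299 1355 459)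
 .e))))
 .e))))
 .e))))
 .e))))
 .e)))) (by decide +kernel)

theorem b3_2582 : S (PX [] [428,432,531]) := S.of (.q 429 (.a 1 [] (.d 330 2345 297 2378 462)
 (.a 1 [297] (.d 462 2378 330 2411 495)
 (.a 0 [330,462] (.q 397 (.a 1 [] (.d 395 393 393 394 398)
 (.a 0 [393,395,398] (.q 365 (.a 1 [] (.d 333 1325 301 1357 461)
 (.a 1 [301] (.d 461 1357 333 1389 493)
 (.a 1 [461] (.r 301 1325 333 (.d 332 3342 270 3373 425))
 (.a 0 [333] (.q 427 (.a 1 [] (.d 334 3375 303 3406 458)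
 (.a 1 [303] (.d 458 3406 334 3437 489)
 (.a 1 [334] (.r 493 1389 461 (.d 460 2409 361 2442 526))
 .e))))
 .e)))))
 .e)))
 .e)))) (by decide +kernel)

theorem b3_2583 : S (PX [399] [428,432,465,531]) := S.of (.q 397 (.a 1 [] (.d 395 393 393 394 398)
 (.a 0 [395] (.q 429 (.a 1 [] (.d 330 2345 297 2378 462)
 (.a 0 [330] (.r 495 2411 462 (.r 398 396 400 (.q 365 (.a 1 [] (.d 333 1325 301 1357 461)
 (.a 1 [333] (.q 332 (.a 1 [] (.d 299 2314 266 2347 431)
 (.a 1 [498] (.q 564 (.a 1 [] (.d 299 2314 266 2347 431)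
 (.a 1 [431] (.d 301 3342 270 3373 425)
 .e)))
 (.a 1 [564] (.q 498 (.a 1 [] (.d 299 2314 266 2347 431)
 (.a 1 [431] (.d 425 3373 301 3404 456)
 .e)))
 (.a 1 [431] (.d 301 3342 270 3373 425)
 .e)))))
 (.a 1 [498] (.q 564 (.a 1 [] (.d 461 1357 333 1389 493)
 (.a 1 [461] (.r 301 1325 333 (.d 332 3342 270 3373 425))
 (.a 1 [333] (.q 332 (.a 1 [] (.d 299 2314 266 2347 431)
 (.a 1 [266] (.d 431 2347 299 2380 464)
 (.a 1 [299] (.d 301 3342 270 3373 425)
 .e))))
 .e))))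
 (.a 1 [564] (.q 498 (.a 1 [] (.d 461 1357 333 1389 493)
 (.a 1 [461] (.r 301 1325 333 (.d 332 3342 270 3373 425))
 (.a 1 [333] (.q 332 (.a 1 [] (.d 299 2314 266 2347 431)
 (.a 1 [266] (.d 431 2347 299 2380 464)
 (.a 1 [299] (.d 301 3342 270 3373 425)
 .e))))
 .e))))
 (.a 1 [461] (.r 301 1325 333 (.d 332 3342 270 3373 425))
 (.a 1 [301] (.d 461 1357 333 1389 493)
 .e)))))))))
 (.a 0 [462] (.r 398 396 400 (.r 330 2345 297 (.q 365 (.a 1 [] (.d 333 1325 301 1357 461)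
 (.a 1 [333] (.q 332 (.a 1 [] (.d 299 2314 266 2347 431)
 (.a 1 [564] (.q 498 (.a 1 [] (.d 299 2314 266 2347 431)
 (.a 1 [431] (.d 301 3342 270 3373 425)
 .e)))
 (.a 1 [498] (.q 564 (.a 1 [] (.d 299 2314 266 2347 431)
 (.a 1 [431] (.d 425 3373 301 3404 456)
 .e)))
 (.a 1 [431] (.d 301 3342 270 3373 425)
 .e)))))
 (.a 1 [564] (.q 498 (.a 1 [] (.d 461 1357 333 1389 493)
 (.a 1 [461] (.r 301 1325 333 (.d 332 3342 270 3373 425))
 (.a 1 [333] (.q 362 (.a 1 [] (.d 364 361 361 362 366)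
 (.a 1 [361] (.d 426 1322 298 1354 458)
 .e)))
 .e))))
 (.a 1 [498] (.q 564 (.a 1 [] (.d 461 1357 333 1389 493)
 (.a 1 [461] (.r 301 1325 333 (.d 332 3342 270 3373 425))
 (.a 1 [333] (.q 362 (.a 1 [] (.d 364 361 361 362 366)
 (.a 1 [361] (.d 426 1322 298 1354 458)
 .e)))
 .e))))
 (.a 1 [461] (.r 301 1325 333 (.d 332 3342 270 3373 425))
 (.a 1 [301] (.d 461 1357 333 1389 493)
 .e)))))))))
 (.a 1 [564] (.q 498 (.a 1 [] (.d 330 2345 297 2378 462)
 (.a 1 [330] (.q 461 (.a 1 [] (.d 365 1357 333 1389 493)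
 (.a 1 [333] (.d 493 1389 365 1421 525)
 (.a 0 [365,493] (.q 430 (.a 1 [] (.d 368 3409 337 3440 492)
 (.a 1 [337] (.d 492 3440 368 3471 523)
 (.a 0 [368,492] (.q 463 (.a 1 [] (.d 364 2379 331 2412 496)
 (.a 1 [331] (.d 496 2412 364 2445 529)
 (.a 1 [364] (.r 495 2411 462 (.d 431 1391 367 1423 527))
 .e))))
 .e))))
 .e))))
 (.a 1 [462] (.q 461 (.a 1 [] (.d 365 1357 333 1389 493)
 (.a 1 [333] (.d 493 1389 365 1421 525)
 (.a 0 [365,493] (.q 430 (.a 1 [] (.d 368 3409 337 3440 492)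
 (.a 1 [337] (.d 492 3440 368 3471 523)
 (.a 0 [368,492] (.q 332 (.a 1 [] (.d 301 3342 270 3373 425)
 (.a 1 [270] (.d 425 3373 301 3404 456)
 (.a 0 [301,425] (.q 331 (.a 1 [] (.d 364 2346 298 2379 463)
 (.a 1 [298] (.r 330 2345 297 (.d 333 329 329 330 334))
 .e)))
 .e))))
 .e))))
 .e))))
 .e))))
 (.a 1 [498] (.q 564 (.a 1 [] (.d 330 2345 297 2378 462)
 (.a 1 [330] (.q 461 (.a 1 [] (.d 365 1357 333 1389 493)
 (.a 1 [333] (.d 493 1389 365 1421 525)
 (.a 0 [365,493] (.q 430 (.a 1 [] (.d 368 3409 337 3440 492)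
 (.a 1 [337] (.d 492 3440 368 3471 523)
 (.a 0 [368,492] (.q 463 (.a 1 [] (.d 364 2379 331 2412 496)
 (.a 1 [331] (.d 496 2412 364 2445 529)
 (.a 1 [364] (.r 462 2411 495 (.d 460 459 459 460 464))
 (.a 1 [496] (.r 495 2411 462 (.d 431 1391 367 1423 527))
 .e)))))
 .e))))
 .e))))
 (.a 1 [462] (.q 461 (.a 1 [] (.d 365 1357 333 1389 493)
 (.a 1 [333] (.d 493 1389 365 1421 525)
 (.a 0 [365,493] (.q 430 (.a 1 [] (.d 368 3409 337 3440 492)
 (.a 1 [337] (.d 492 3440 368 3471 523)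
 (.a 0 [368,492] (.q 332 (.a 1 [] (.d 301 3342 270 3373 425)
 (.a 1 [270] (.d 425 3373 301 3404 456)
 (.a 0 [301,425] (.q 331 (.a 1 [] (.d 364 2346 298 2379 463)
 (.a 1 [298] (.r 330 2345 297 (.d 333 329 329 330 334))
 .e)))
 .e))))
 .e))))
 .e))))
 .e))))
 (.a 1 [297] (.d 462 2378 330 2411 495)
 .e)))))))
 (.a 0 [398] (.r 395 393 393 (.q 429 (.a 1 [] (.d 330 2345 297 2378 462)
 (.a 0 [330] (.r 495 2411 462 (.q 365 (.a 1 [] (.d 333 1325 301 1357 461)
 (.a 1 [333] (.q 427 (.a 1 [] (.d 331 1323 299 1355 459)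
 (.a 1 [498] (.q 564 (.a 1 [] (.d 334 3375 303 3406 458)
 (.a 1 [303] (.d 458 3406 334 3437 489)
 (.a 1 [334] (.d 331 1323 299 1355 459)
 .e))))
 (.a 1 [564] (.q 498 (.a 1 [] (.d 331 1323 299 1355 459)
 (.a 1 [331] (.d 334 3375 303 3406 458)
 .e)))
 (.a 1 [331] (.d 334 3375 303 3406 458)
 .e)))))
 (.a 1 [498] (.q 564 (.a 1 [] (.d 461 1357 333 1389 493)
 (.a 1 [461] (.r 301 1325 333 (.d 332 3342 270 3373 425))
 (.a 1 [333] (.q 427 (.a 1 [] (.d 331 1323 299 1355 459)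
 (.a 1 [299] (.d 459 1355 331 1387 491)
 (.a 1 [331] (.d 334 3375 303 3406 458)
 .e))))
 .e))))
 (.a 1 [564] (.q 498 (.a 1 [] (.d 461 1357 333 1389 493)
 (.a 1 [461] (.r 301 1325 333 (.d 332 3342 270 3373 425))
 (.a 1 [333] (.q 427 (.a 1 [] (.d 331 1323 299 1355 459)
 (.a 1 [299] (.d 459 1355 331 1387 491)
 (.a 1 [331] (.d 334 3375 303 3406 458)
 .e))))
 .e))))
 (.a 1 [461] (.r 301 1325 333 (.d 332 3342 270 3373 425))
 (.a 1 [301] (.d 461 1357 333 1389 493)
 .e))))))))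
 (.a 0 [462] (.r 330 2345 297 (.q 332 (.a 1 [] (.d 301 3342 270 3373 425)
 (.a 1 [301] (.q 331 (.a 1 [] (.d 329 328 328 329 333)
 (.a 1 [564] (.q 498 (.a 1 [] (.d 329 328 328 329 333)
 (.a 1 [333] (.d 299 1291 267 1323 427)
 .e)))
 (.a 1 [498] (.q 564 (.a 1 [] (.d 329 328 328 329 333)
 (.a 1 [333] (.d 427 1323 299 1355 459)
 .e)))
 (.a 1 [333] (.d 299 1291 267 1323 427)
 .e)))))
 (.a 1 [564] (.q 498 (.a 1 [] (.d 301 3342 270 3373 425)
 (.a 1 [301] (.q 331 (.a 1 [] (.d 329 328 328 329 333)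
 (.a 1 [328] (.d 333 329 329 330 334)
 (.a 1 [329] (.d 299 1291 267 1323 427)
 .e))))
 (.a 1 [425] (.r 301 3342 270 (.r 333 1325 365 (.d 331 329 329 330 334)))
 .e))))
 (.a 1 [498] (.q 564 (.a 1 [] (.d 301 3342 270 3373 425)
 (.a 1 [301] (.q 331 (.a 1 [] (.d 329 328 328 329 333)
 (.a 1 [328] (.d 333 329 329 330 334)
 (.a 1 [329] (.d 299 1291 267 1323 427)
 .e))))
 (.a 1 [425] (.r 301 3342 270 (.r 333 1325 365 (.d 331 329 329 330 334)))
 .e))))
 (.a 1 [425] (.r 301 3342 270 (.r 333 1325 365 (.d 331 329 329 330 334)))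
 (.a 1 [270] (.d 425 3373 301 3404 456)
 .e))))))))
 (.a 1 [564] (.q 498 (.a 1 [] (.d 330 2345 297 2378 462)
 (.a 1 [330] (.q 365 (.a 1 [] (.d 333 1325 301 1357 461)
 (.a 1 [301] (.d 461 1357 333 1389 493)
 (.a 1 [461] (.r 301 1325 333 (.d 332 3342 270 3373 425))
 (.a 0 [333] (.q 427 (.a 1 [] (.d 331 1323 299 1355 459)
 (.a 1 [299] (.d 459 1355 331 1387 491)
 (.a 1 [331] (.d 334 3375 303 3406 458)
 .e))))
 .e)))))
 (.a 1 [462] (.q 365 (.a 1 [] (.d 333 1325 301 1357 461)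
 (.a 1 [301] (.d 461 1357 333 1389 493)
 (.a 1 [461] (.r 301 1325 333 (.d 332 3342 270 3373 425))
 (.a 0 [333] (.q 427 (.a 1 [] (.d 331 1323 299 1355 459)
 (.a 1 [299] (.d 459 1355 331 1387 491)
 (.a 1 [331] (.d 334 3375 303 3406 458)
 .e))))
 .e)))))
 .e))))
 (.a 1 [498] (.q 564 (.a 1 [] (.d 330 2345 297 2378 462)
 (.a 1 [330] (.q 365 (.a 1 [] (.d 333 1325 301 1357 461)
 (.a 1 [301] (.d 461 1357 333 1389 493)
 (.a 1 [461] (.r 301 1325 333 (.d 332 3342 270 3373 425))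
 (.a 0 [333] (.q 427 (.a 1 [] (.d 331 1323 299 1355 459)
 (.a 1 [299] (.d 459 1355 331 1387 491)
 (.a 1 [331] (.d 334 3375 303 3406 458)
 .e))))
 .e)))))
 (.a 1 [462] (.q 365 (.a 1 [] (.d 333 1325 301 1357 461)
 (.a 1 [301] (.d 461 1357 333 1389 493)
 (.a 1 [461] (.r 301 1325 333 (.d 332 3342 270 3373 425))
 (.a 0 [333] (.q 427 (.a 1 [] (.d 331 1323 299 1355 459)
 (.a 1 [299] (.d 459 1355 331 1387 491)
 (.a 1 [331] (.d 334 3375 303 3406 458)
 .e))))
 .e)))))
 .e))))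
 (.a 1 [297] (.d 462 2378 330 2411 495)
 .e))))))))
 (.a 1 [564] (.q 498 (.a 1 [] (.d 398 394 395 396 400)
 (.a 1 [395] (.r 400 396 398 (.q 429 (.a 1 [] (.d 330 2345 297 2378 462)
 (.a 1 [297] (.d 462 2378 330 2411 495)
 (.a 0 [330,462] (.q 365 (.a 1 [] (.d 333 1325 301 1357 461)
 (.a 1 [301] (.d 461 1357 333 1389 493)
 (.a 1 [461] (.r 301 1325 333 (.d 332 3342 270 3373 425))
 (.a 0 [333] (.q 427 (.a 1 [] (.d 334 3375 303 3406 458)
 (.a 1 [303] (.d 458 3406 334 3437 489)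
 (.a 1 [334] (.r 493 1389 461 (.d 460 2409 361 2442 526))
 .e))))
 .e)))))
 .e)))))
 (.a 1 [398] (.q 429 (.a 1 [] (.d 330 2345 297 2378 462)
 (.a 1 [297] (.d 462 2378 330 2411 495)
 (.a 0 [330,462] (.q 365 (.a 1 [] (.d 333 1325 301 1357 461)
 (.a 1 [301] (.d 461 1357 333 1389 493)
 (.a 1 [461] (.r 301 1325 333 (.d 332 3342 270 3373 425))
 (.a 0 [333] (.q 427 (.a 1 [] (.d 334 3375 303 3406 458)
 (.a 1 [303] (.d 458 3406 334 3437 489)
 (.a 1 [334] (.r 395 393 393 (.d 459 1355 331 1387 491))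
 .e))))
 .e)))))
 .e))))
 .e))))
 (.a 1 [498] (.q 564 (.a 1 [] (.d 398 394 395 396 400)
 (.a 1 [395] (.r 400 396 398 (.q 429 (.a 1 [] (.d 330 2345 297 2378 462)
 (.a 1 [297] (.d 462 2378 330 2411 495)
 (.a 0 [330,462] (.q 365 (.a 1 [] (.d 333 1325 301 1357 461)
 (.a 1 [301] (.d 461 1357 333 1389 493)
 (.a 1 [461] (.r 301 1325 333 (.d 332 3342 270 3373 425))
 (.a 0 [333] (.q 427 (.a 1 [] (.d 334 3375 303 3406 458)
 (.a 1 [303] (.d 458 3406 334 3437 489)
 (.a 1 [334] (.r 493 1389 461 (.d 460 2409 361 2442 526))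
 .e))))
 .e)))))
 .e)))))
 (.a 1 [398] (.q 429 (.a 1 [] (.d 330 2345 297 2378 462)
 (.a 1 [297] (.d 462 2378 330 2411 495)
 (.a 0 [330,462] (.q 365 (.a 1 [] (.d 333 1325 301 1357 461)
 (.a 1 [301] (.d 461 1357 333 1389 493)
 (.a 1 [461] (.r 301 1325 333 (.d 332 3342 270 3373 425))
 (.a 0 [333] (.q 427 (.a 1 [] (.d 334 3375 303 3406 458)
 (.a 1 [303] (.d 458 3406 334 3437 489)
 (.a 1 [334] (.r 395 393 393 (.d 459 1355 331 1387 491))
 .e))))
 .e)))))
 .e))))
 .e))))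
 (.a 1 [393] (.d 398 394 395 396 400)
 .e))))))) (by decide +kernel)

theorem b3_2584 : S (PX [399,564] [428,432,465,498,531]) := S.of (.q 397 (.a 1 [] (.d 395 393 393 394 398)
 (.a 1 [393] (.d 398 394 395 396 400)
 (.a 0 [395,398] (.q 429 (.a 1 [] (.d 330 2345 297 2378 462)
 (.a 1 [297] (.d 462 2378 330 2411 495)
 (.a 0 [330,462] (.q 365 (.a 1 [] (.d 333 1325 301 1357 461)
 (.a 1 [301] (.d 461 1357 333 1389 493)
 (.a 1 [461] (.r 301 1325 333 (.d 332 3342 270 3373 425))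
 (.a 0 [333] (.q 427 (.a 1 [] (.d 334 3375 303 3406 458)
 (.a 1 [303] (.d 458 3406 334 3437 489)
 (.a 1 [334] (.r 493 1389 461 (.d 460 2409 361 2442 526))
 .e))))
 .e)))))
 .e))))
 .e)))) (by decide +kernel)

theorem b3_2585 : S (PX [399,498] [428,432,465,531,564]) := S.of (.q 397 (.a 1 [] (.d 395 393 393 394 398)
 (.a 1 [393] (.d 398 394 395 396 400)
 (.a 0 [395,398] (.q 429 (.a 1 [] (.d 330 2345 297 2378 462)
 (.a 1 [297] (.d 462 2378 330 2411 495)
 (.a 0 [330,462] (.q 365 (.a 1 [] (.d 333 1325 301 1357 461)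
 (.a 1 [301] (.d 461 1357 333 1389 493)
 (.a 1 [461] (.r 301 1325 333 (.d 332 3342 270 3373 425))
 (.a 0 [333] (.q 427 (.a 1 [] (.d 334 3375 303 3406 458)
 (.a 1 [303] (.d 458 3406 334 3437 489)
 (.a 1 [334] (.r 493 1389 461 (.d 460 2409 361 2442 526))
 .e))))
 .e)))))
 .e))))
 .e)))) (by decide +kernel)

theorem b3_2608 : S (PX [465] [428,432,498,531]) := S.of (.q 429 (.a 1 [] (.d 330 2345 297 2378 462)
 (.a 1 [297] (.d 462 2378 330 2411 495)
 (.a 0 [330,462] (.q 397 (.a 1 [] (.d 395 393 393 394 398)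
 (.a 0 [393,395,398] (.q 365 (.a 1 [] (.d 333 1325 301 1357 461)
 (.a 1 [301] (.d 461 1357 333 1389 493)
 (.a 1 [461] (.r 301 1325 333 (.d 332 3342 270 3373 425))
 (.a 0 [333] (.q 427 (.a 1 [] (.d 334 3375 303 3406 458)
 (.a 1 [303] (.d 458 3406 334 3437 489)
 (.a 1 [334] (.r 493 1389 461 (.d 460 2409 361 2442 526))
 .e))))
 .e)))))
 .e)))
 .e)))) (by decide +kernel)

theorem v3_937 : VW (PX [333,465] [300,399,432,531]) := VW.of base nl_ok fl_ok .nil
  []
  (([204], (PX [333,465] [204,300,399,432,531])) :: ([236], (PX [333,465] [236,300,399,432,531])) :: ([263], (PX [333,465] [263,300,399,432,531])) :: ([268], (PX [333,465] [268,300,399,432,531])) :: ([296], (PX [333,465] [296,300,399,432,531])) :: ([297], (PX [333,465] [297,300,399,432,531])) :: ([298], (PX [333,465] [298,300,399,432,531])) :: ([299], (PX [333,465] [299,300,399,432,531])) :: ([301], (PX [333,465] [300,301,399,432,531])) :: ([302], (PX [333,465] [300,302,399,432,531]))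 :: ([303], (PX [333,465] [300,303,399,432,531])) :: ([304], (PX [333,465] [300,304,399,432,531])) :: ([328], (PX [333,465] [300,328,399,432,531])) :: ([329], (PX [333,465] [300,329,399,432,531])) :: ([330], (PX [333,465] [300,330,399,432,531])) :: ([332], (PX [333,465] [300,332,399,432,531])) :: ([360], (PX [333,465] [300,360,399,432,531])) :: ([361], (PX [333,465] [300,361,399,432,531])) :: ([362], (PX [333,465] [300,362,399,432,531])) :: ([364], (PX [333,465] [300,364,399,432,531])) :: ([365], (PX [333,465] [300,365,399,432,531])) :: ([392], (PX [333,465] [300,392,399,432,531])) :: ([393], (PX [333,465] [300,393,399,432,531])) :: ([395], (PX [333,465] [300,395,399,432,531])) :: ([397], (PX [333,465] [300,397,399,432,531])) :: ([398], (PX [333,465] [300,398,399,432,531])) :: ([400], (PX [333,465] [300,399,400,432,531])) :: ([401], (PX [333,465] [300,399,401,432,531])) :: ([424], (PX [333,465] [300,399,424,432,531]))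 :: ([425], (PX [333,465] [300,399,425,432,531])) :: ([428], (PX [333,465] [300,399,428,432,531])) :: ([456], (PX [333,465] [300,399,432,456,531])) :: ([457], (PX [333,465] [300,399,432,457,531])) :: ([461], (PX [333,465] [300,399,432,461,531])) :: ([487], (PX [333,465] [300,399,432,487,531])) :: ([488], (PX [333,465] [300,399,432,488,531])) :: ([489], (PX [333,465] [300,399,432,489,531])) :: ([520], (PX [333,465] [300,399,432,520,531])) :: [])
  (by decide +kernel) ⟨b3_2347, b3_2348, b3_2349, b3_2350, b3_2351, b3_2352, b3_2353, b3_2354, b3_2355, b3_2356, b3_2357, b3_2358, b3_2359, b3_2360, b3_2361, b3_2362, b3_2363, b3_2364, b3_2365, b3_2366, b3_2367, b3_2368, b3_2369, b3_2370, b3_2371, b3_2372, b3_2373, b3_2374, b3_2375, b3_2376, b3_2377, b3_2378, b3_2379, b3_2380, b3_2381, b3_2382, b3_2383, b3_2384, trivial⟩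

theorem v3_941 : VW (PX [300,465] [366,399,432,531]) := VW.of base nl_ok fl_ok .nil
  []
  [([304], (PX [300,465] [304,366,399,432,531])), ([330], (PX [300,465] [330,366,399,432,531])), ([332], (PX [300,465] [332,366,399,432,531])), ([333], (PX [300,465] [333,366,399,432,531])), ([335], (PX [300,465] [335,366,399,432,531])), ([365], (PX [300,465] [365,366,399,432,531])), ([392], (PX [300,465] [366,392,399,432,531])), ([400], (PX [300,465] [366,399,400,432,531])), ([425], (PX [300,465] [366,399,425,432,531])), ([428], (PX [300,465] [366,399,428,432,531])), ([490], (PX [300,465] [366,399,432,490,531]))]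
  (by decide +kernel) ⟨b3_2505, b3_2506, b3_2507, b3_2508, b3_2509, b3_2510, b3_2511, b3_2512, b3_2513, b3_2514, b3_2515, trivial⟩

theorem w3_943_300 : S (PX [465] [300,399,432,531]) := VW.play 333 (PX [333,465] [300,399,432,531]) (by decide +kernel) v3_937

theorem w3_943_366 : S (PX [465] [366,399,432,531]) := VW.play 300 (PX [300,465] [366,399,432,531]) (by decide +kernel) v3_941

theorem v3_943 : VW (PX [465] [399,432,531]) := VW.of base nl_ok fl_ok .nil
  []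
  (([300], (PX [465] [300,399,432,531])) :: ([330], (PX [465] [330,399,432,531])) :: ([331], (PX [465] [331,399,432,531])) :: ([333], (PX [465] [333,399,432,531])) :: ([361], (PX [465] [361,399,432,531])) :: ([366], (PX [465] [366,399,432,531])) :: ([392], (PX [465] [392,399,432,531])) :: ([393], (PX [465] [393,399,432,531])) :: ([395], (PX [465] [395,399,432,531])) :: ([397], (PX [465] [397,399,432,531])) :: ([398], (PX [465] [398,399,432,531])) :: ([400], (PX [465] [399,400,432,531])) :: ([401], (PX [465] [399,401,432,531])) :: ([427], (PX [465] [399,427,432,531])) :: ([428], (PX [465] [399,428,432,531])) :: ([429], (PX [465] [399,429,432,531])) :: ([431], (PX [465] [399,431,432,531])) :: ([458], (PX [465] [399,432,458,531])) :: ([463], (PX [465] [399,432,463,531])) :: ([489], (PX [465] [399,432,489,531])) :: [])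
  (by decide +kernel) ⟨w3_943_300, b3_2404, b3_2405, b3_2503, b3_2504, w3_943_366, b3_2526, b3_2527, b3_2528, b3_2529, b3_2530, b3_2531, b3_2532, b3_2533, b3_2534, b3_2535, b3_2536, b3_2537, b3_2538, b3_2539, trivial⟩

theorem v3_948 : VW (PX [432] [399,465,531]) := VW.of base nl_ok fl_ok .nil
  [(498, (.cons 564 597 .nil (.cons 597 564 .nil .nil))), (564, (.cons 498 597 .nil (.cons 597 498 (.cons 630 663 .nil (.cons 663 630 .nil .nil)) .nil))), (597, (.cons 498 564 .nil (.cons 564 498 (.cons 630 663 .nil (.cons 663 630 .nil .nil)) .nil)))]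
  [([400], (PX [432] [399,400,465,531]))]
  (by decide +kernel) ⟨b3_2570, trivial⟩

theorem w3_951_432 : S (PX [] [399,432,531]) := VW.play 465 (PX [465] [399,432,531]) (by decide +kernel) v3_943

theorem w3_951_465 : S (PX [] [399,465,531]) := VW.play 432 (PX [432] [399,465,531]) (by decide +kernel) v3_948

theorem v3_951 : VW (PX [] [399,531]) := VW.of base nl_ok fl_ok .nil
  [(498, (.cons 432 465 .nil (.cons 465 432 (.cons 564 597 .nil (.cons 597 564 .nil .nil)) .nil)))]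
  [([400], (PX [] [399,400,531])), ([432], (PX [] [399,432,531])), ([465], (PX [] [399,465,531]))]
  (by decide +kernel) ⟨b3_2346, w3_951_432, w3_951_465, trivial⟩

theorem v3_952 : VW (PX [] [403,531]) := VW.of base nl_ok fl_ok .nil
  [(435, (.cons 467 499 (.cons 339 371 .nil (.cons 371 339 .nil .nil)) (.cons 499 467 .nil .nil))), (467, (.cons 435 499 (.cons 339 371 .nil (.cons 371 339 .nil .nil)) (.cons 499 435 (.cons 563 595 .nil (.cons 595 563 .nil .nil)) .nil))), (499, (.cons 435 467 .nil (.cons 467 435 (.cons 563 595 .nil (.cons 595 563 .nil .nil)) .nil)))]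
  []
  (by decide +kernel) trivial

theorem v3_953 : VW (PX [] [407,531]) := VW.of base nl_ok fl_ok .nil
  [(438, (.cons 469 500 (.cons 345 376 .nil (.cons 376 345 .nil .nil)) (.cons 500 469 .nil .nil))), (469, (.cons 438 500 (.cons 345 376 .nil (.cons 376 345 .nil .nil)) (.cons 500 438 (.cons 562 593 .nil (.cons 593 562 .nil .nil)) .nil))), (500, (.cons 438 469 .nil (.cons 469 438 (.cons 562 593 .nil (.cons 593 562 .nil .nil)) .nil)))]
  []
  (by decide +kernel) trivial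

theorem v3_954 : VW (PX [399,564] [432,465,498,531]) := VW.of base nl_ok fl_ok .nil
  []
  [([428], (PX [399,564] [428,432,465,498,531]))]
  (by decide +kernel) ⟨b3_2584, trivial⟩

theorem v3_955 : VW (PX [399,498] [432,465,531,564]) := VW.of base nl_ok fl_ok .nil
  [(597, (.cons 630 663 .nil (.cons 663 630 .nil .nil))), (630, (.cons 597 663 .nil (.cons 663 597 .nil .nil))), (663, (.cons 597 630 .nil (.cons 630 597 .nil .nil)))]
  [([428], (PX [399,498] [428,432,465,531,564]))]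
  (by decide +kernel) ⟨b3_2585, trivial⟩

theorem w3_956_498 : S (PX [399] [432,465,498,531]) := VW.play 564 (PX [399,564] [432,465,498,531]) (by decide +kernel) v3_954

theorem w3_956_564 : S (PX [399] [432,465,531,564]) := VW.play 498 (PX [399,498] [432,465,531,564]) (by decide +kernel) v3_955

theorem v3_956 : VW (PX [399] [432,465,531]) := VW.of base nl_ok fl_ok (.cons 498 564 .nil (.cons 564 498 .nil .nil))
  [(597, (.cons 498 564 .nil (.cons 564 498 (.cons 630 663 .nil (.cons 663 630 .nil .nil)) .nil))), (630, (.cons 498 564 .nil (.cons 564 498 (.cons 597 663 .nil (.cons 663 597 .nil .nil)) .nil))), (663, (.cons 498 564 .nil (.cons 564 498 (.cons 597 630 .nil (.cons 630 597 .nil .nil)) .nil)))]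
  [([428], (PX [399] [428,432,465,531])), ([498], (PX [399] [432,465,498,531])), ([564], (PX [399] [432,465,531,564]))]
  (by decide +kernel) ⟨b3_2583, w3_956_498, w3_956_564, trivial⟩

theorem v3_960 : VW (PX [465] [432,498,531]) := VW.of base nl_ok fl_ok .nil
  [(564, (.cons 597 630 .nil (.cons 630 597 .nil .nil))), (597, (.cons 564 630 .nil (.cons 630 564 .nil .nil))), (630, (.cons 564 597 .nil (.cons 597 564 .nil .nil)))]
  [([428], (PX [465] [428,432,498,531]))]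
  (by decide +kernel) ⟨b3_2608, trivial⟩

theorem w3_961_399 : S (PX [] [399,432,531]) := VW.play 465 (PX [465] [399,432,531]) (by decide +kernel) v3_943

theorem w3_961_465 : S (PX [] [432,465,531]) := VW.play 399 (PX [399] [432,465,531]) (by decide +kernel) v3_956

theorem w3_961_498 : S (PX [] [432,498,531]) := VW.play 465 (PX [465] [432,498,531]) (by decide +kernel) v3_960

theorem v3_961 : VW (PX [] [432,531]) := VW.of base nl_ok fl_ok .nil
  [(564, (.cons 465 498 .nil (.cons 498 465 (.cons 597 630 .nil (.cons 630 597 .nil .nil)) .nil)))]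
  [([399], (PX [] [399,432,531])), ([428], (PX [] [428,432,531])), ([465], (PX [] [432,465,531])), ([498], (PX [] [432,498,531]))]
  (by decide +kernel) ⟨w3_961_399, b3_2582, w3_961_465, w3_961_498, trivial⟩

theorem v3_291 : VW (PX [499] [435,467,531]) := VW.of base nl_ok fl_ok .nil
  [(339, (.cons 371 403 .nil (.cons 403 371 .nil .nil))), (371, (.cons 339 403 .nil (.cons 403 339 .nil .nil))), (403, (.cons 339 371 .nil (.cons 371 339 .nil .nil)))]
  []
  (by decide +kernel) trivial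

theorem v3_330 : VW (PX [467] [435,499,531]) := VW.of base nl_ok fl_ok .nil
  [(563, (.cons 595 627 .nil (.cons 627 595 .nil .nil))), (595, (.cons 563 627 .nil (.cons 627 563 .nil .nil))), (627, (.cons 563 595 .nil (.cons 595 563 .nil .nil)))]
  []
  (by decide +kernel) trivial

theorem w3_337_467 : S (PX [] [435,467,531]) := VW.play 499 (PX [499] [435,467,531]) (by decide +kernel) v3_291

theorem w3_337_499 : S (PX [] [435,499,531]) := VW.play 467 (PX [467] [435,499,531]) (by decide +kernel) v3_330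

theorem v3_337 : VW (PX [] [435,531]) := VW.of base nl_ok fl_ok .nil
  [(403, (.cons 467 499 (.cons 339 371 .nil (.cons 371 339 .nil .nil)) (.cons 499 467 .nil .nil))), (563, (.cons 467 499 .nil (.cons 499 467 (.cons 595 627 .nil (.cons 627 595 .nil .nil)) .nil)))]
  [([467], (PX [] [435,467,531])), ([499], (PX [] [435,499,531]))]
  (by decide +kernel) ⟨w3_337_467, w3_337_499, trivial⟩

theorem v3_965 : VW (PX [500] [438,469,531]) := VW.of base nl_ok fl_ok .nil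
  [(345, (.cons 376 407 .nil (.cons 407 376 .nil .nil))), (376, (.cons 345 407 .nil (.cons 407 345 .nil .nil))), (407, (.cons 345 376 .nil (.cons 376 345 .nil .nil)))]
  []
  (by decide +kernel) trivial

theorem v3_980 : VW (PX [469] [438,500,531]) := VW.of base nl_ok fl_ok .nil
  [(562, (.cons 593 624 .nil (.cons 624 593 .nil .nil))), (593, (.cons 562 624 .nil (.cons 624 562 .nil .nil))), (624, (.cons 562 593 .nil (.cons 593 562 .nil .nil)))]
  []
  (by decide +kernel) trivial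

theorem w3_983_469 : S (PX [] [438,469,531]) := VW.play 500 (PX [500] [438,469,531]) (by decide +kernel) v3_965

theorem w3_983_500 : S (PX [] [438,500,531]) := VW.play 469 (PX [469] [438,500,531]) (by decide +kernel) v3_980

theorem v3_983 : VW (PX [] [438,531]) := VW.of base nl_ok fl_ok .nil
  [(407, (.cons 469 500 (.cons 345 376 .nil (.cons 376 345 .nil .nil)) (.cons 500 469 .nil .nil))), (562, (.cons 469 500 .nil (.cons 500 469 (.cons 593 624 .nil (.cons 624 593 .nil .nil)) .nil)))]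
  [([469], (PX [] [438,469,531])), ([500], (PX [] [438,500,531]))]
  (by decide +kernel) ⟨w3_983_469, w3_983_500, trivial⟩

theorem v3_984 : VW (PX [432,597] [465,498,531,564]) := VW.of base nl_ok fl_ok .nil
  []
  []
  (by decide +kernel) trivial

theorem v3_985 : VW (PX [432,564] [465,498,531,597]) := VW.of base nl_ok fl_ok .nil
  []
  []
  (by decide +kernel) trivial

theorem w3_986_564 : S (PX [432] [465,498,531,564]) := VW.play 597 (PX [432,597] [465,498,531,564]) (by decide +kernel) v3_984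

theorem w3_986_597 : S (PX [432] [465,498,531,597]) := VW.play 564 (PX [432,564] [465,498,531,597]) (by decide +kernel) v3_985

theorem v3_986 : VW (PX [432] [465,498,531]) := VW.of base nl_ok fl_ok (.cons 564 597 .nil (.cons 597 564 .nil .nil))
  [(630, (.cons 564 597 .nil (.cons 597 564 .nil .nil))), (663, (.cons 564 597 .nil (.cons 597 564 .nil .nil))), (696, (.cons 564 597 .nil (.cons 597 564 .nil .nil)))]
  [([564], (PX [432] [465,498,531,564])), ([597], (PX [432] [465,498,531,597]))]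
  (by decide +kernel) ⟨w3_986_564, w3_986_597, trivial⟩

theorem v3_1001 : VW (PX [498] [465,531,564]) := VW.of base nl_ok fl_ok .nil
  [(597, (.cons 630 663 .nil (.cons 663 630 .nil .nil))), (630, (.cons 597 663 .nil (.cons 663 597 .nil .nil))), (663, (.cons 597 630 .nil (.cons 630 597 .nil .nil)))]
  []
  (by decide +kernel) trivial

theorem v3_1002 : VW (PX [498] [465,531,597]) := VW.of base nl_ok fl_ok .nil
  [(564, (.cons 630 663 .nil (.cons 663 630 .nil .nil))), (630, (.cons 564 663 .nil (.cons 663 564 (.cons 696 729 .nil (.cons 729 696 .nil .nil)) .nil))), (663, (.cons 564 630 .nil (.cons 630 564 (.cons 696 729 .nil (.cons 729 696 .nil .nil)) .nil)))]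
  []
  (by decide +kernel) trivial

theorem w3_1008_399 : S (PX [] [399,465,531]) := VW.play 432 (PX [432] [399,465,531]) (by decide +kernel) v3_948

theorem w3_1008_432 : S (PX [] [432,465,531]) := VW.play 399 (PX [399] [432,465,531]) (by decide +kernel) v3_956

theorem w3_1008_498 : S (PX [] [465,498,531]) := VW.play 432 (PX [432] [465,498,531]) (by decide +kernel) v3_986

theorem w3_1008_564 : S (PX [] [465,531,564]) := VW.play 498 (PX [498] [465,531,564]) (by decide +kernel) v3_1001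

theorem w3_1008_597 : S (PX [] [465,531,597]) := VW.play 498 (PX [498] [465,531,597]) (by decide +kernel) v3_1002

theorem v3_1008 : VW (PX [] [465,531]) := VW.of base nl_ok fl_ok .nil
  []
  [([399], (PX [] [399,465,531])), ([432], (PX [] [432,465,531])), ([498], (PX [] [465,498,531])), ([564], (PX [] [465,531,564])), ([597], (PX [] [465,531,597]))]
  (by decide +kernel) ⟨w3_1008_399, w3_1008_432, w3_1008_498, w3_1008_564, w3_1008_597, trivial⟩

theorem v3_595 : VW (PX [435,595] [467,499,531,563]) := VW.of base nl_ok fl_ok .nil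
  []
  []
  (by decide +kernel) trivial

theorem v3_596 : VW (PX [435,563] [467,499,531,595]) := VW.of base nl_ok fl_ok .nil
  []
  []
  (by decide +kernel) trivial

theorem w3_597_563 : S (PX [435] [467,499,531,563]) := VW.play 595 (PX [435,595] [467,499,531,563]) (by decide +kernel) v3_595

theorem w3_597_595 : S (PX [435] [467,499,531,595]) := VW.play 563 (PX [435,563] [467,499,531,595]) (by decide +kernel) v3_596

theorem v3_597 : VW (PX [435] [467,499,531]) := VW.of base nl_ok fl_ok (.cons 563 595 .nil (.cons 595 563 .nil .nil))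
  [(627, (.cons 563 595 .nil (.cons 595 563 .nil .nil))), (659, (.cons 563 595 .nil (.cons 595 563 .nil .nil))), (691, (.cons 563 595 .nil (.cons 595 563 .nil .nil)))]
  [([563], (PX [435] [467,499,531,563])), ([595], (PX [435] [467,499,531,595]))]
  (by decide +kernel) ⟨w3_597_563, w3_597_595, trivial⟩

theorem v3_641 : VW (PX [499] [467,531,563]) := VW.of base nl_ok fl_ok .nil
  [(595, (.cons 627 659 .nil (.cons 659 627 .nil .nil))), (627, (.cons 595 659 .nil (.cons 659 595 .nil .nil))), (659, (.cons 595 627 .nil (.cons 627 595 .nil .nil)))]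
  []
  (by decide +kernel) trivial

theorem w3_644_435 : S (PX [] [435,467,531]) := VW.play 499 (PX [499] [435,467,531]) (by decide +kernel) v3_291

theorem w3_644_499 : S (PX [] [467,499,531]) := VW.play 435 (PX [435] [467,499,531]) (by decide +kernel) v3_597

theorem w3_644_563 : S (PX [] [467,531,563]) := VW.play 499 (PX [499] [467,531,563]) (by decide +kernel) v3_641

theorem v3_644 : VW (PX [] [467,531]) := VW.of base nl_ok fl_ok .nil
  [(403, (.cons 435 499 (.cons 339 371 .nil (.cons 371 339 .nil .nil)) (.cons 499 435 (.cons 563 595 .nil (.cons 595 563 .nil .nil)) .nil))), (595, (.cons 499 563 (.cons 403 435 .nil (.cons 435 403 .nil .nil)) (.cons 563 499 (.cons 627 659 .nil (.cons 659 627 .nil .nil)) .nil)))]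
  [([435], (PX [] [435,467,531])), ([499], (PX [] [467,499,531])), ([563], (PX [] [467,531,563]))]
  (by decide +kernel) ⟨w3_644_435, w3_644_499, w3_644_563, trivial⟩

theorem v3_1009 : VW (PX [438,593] [469,500,531,562]) := VW.of base nl_ok fl_ok .nil
  []
  []
  (by decide +kernel) trivial

theorem v3_1010 : VW (PX [438,562] [469,500,531,593]) := VW.of base nl_ok fl_ok .nil
  []
  []
  (by decide +kernel) trivial

theorem w3_1011_562 : S (PX [438] [469,500,531,562]) := VW.play 593 (PX [438,593] [469,500,531,562]) (by decide +kernel) v3_1009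

theorem w3_1011_593 : S (PX [438] [469,500,531,593]) := VW.play 562 (PX [438,562] [469,500,531,593]) (by decide +kernel) v3_1010

theorem v3_1011 : VW (PX [438] [469,500,531]) := VW.of base nl_ok fl_ok (.cons 562 593 .nil (.cons 593 562 .nil .nil))
  [(624, (.cons 562 593 .nil (.cons 593 562 .nil .nil))), (655, (.cons 562 593 .nil (.cons 593 562 .nil .nil))), (686, (.cons 562 593 .nil (.cons 593 562 .nil .nil)))]
  [([562], (PX [438] [469,500,531,562])), ([593], (PX [438] [469,500,531,593]))]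
  (by decide +kernel) ⟨w3_1011_562, w3_1011_593, trivial⟩

theorem v3_1028 : VW (PX [500] [469,531,562]) := VW.of base nl_ok fl_ok .nil
  [(593, (.cons 624 655 .nil (.cons 655 624 .nil .nil))), (624, (.cons 593 655 .nil (.cons 655 593 .nil .nil))), (655, (.cons 593 624 .nil (.cons 624 593 .nil .nil)))]
  []
  (by decide +kernel) trivial

theorem w3_1031_438 : S (PX [] [438,469,531]) := VW.play 500 (PX [500] [438,469,531]) (by decide +kernel) v3_965

theorem w3_1031_500 : S (PX [] [469,500,531]) := VW.play 438 (PX [438] [469,500,531]) (by decide +kernel) v3_1011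

theorem w3_1031_562 : S (PX [] [469,531,562]) := VW.play 500 (PX [500] [469,531,562]) (by decide +kernel) v3_1028

theorem v3_1031 : VW (PX [] [469,531]) := VW.of base nl_ok fl_ok .nil
  [(407, (.cons 438 500 (.cons 345 376 .nil (.cons 376 345 .nil .nil)) (.cons 500 438 (.cons 562 593 .nil (.cons 593 562 .nil .nil)) .nil))), (593, (.cons 500 562 (.cons 407 438 .nil (.cons 438 407 .nil .nil)) (.cons 562 500 (.cons 624 655 .nil (.cons 655 624 .nil .nil)) .nil)))]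
  [([438], (PX [] [438,469,531])), ([500], (PX [] [469,500,531])), ([562], (PX [] [469,531,562]))]
  (by decide +kernel) ⟨w3_1031_438, w3_1031_500, w3_1031_562, trivial⟩

theorem v3_1032 : VW (PX [465,630] [498,531,564,597]) := VW.of base nl_ok fl_ok .nil
  []
  []
  (by decide +kernel) trivial

theorem v3_1033 : VW (PX [465,597] [498,531,564,630]) := VW.of base nl_ok fl_ok .nil
  []
  []
  (by decide +kernel) trivial

theorem w3_1034_597 : S (PX [465] [498,531,564,597]) := VW.play 630 (PX [465,630] [498,531,564,597]) (by decide +kernel) v3_1032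

theorem w3_1034_630 : S (PX [465] [498,531,564,630]) := VW.play 597 (PX [465,597] [498,531,564,630]) (by decide +kernel) v3_1033

theorem v3_1034 : VW (PX [465] [498,531,564]) := VW.of base nl_ok fl_ok (.cons 597 630 .nil (.cons 630 597 .nil .nil))
  [(663, (.cons 597 630 .nil (.cons 630 597 .nil .nil))), (696, (.cons 597 630 .nil (.cons 630 597 .nil .nil))), (729, (.cons 597 630 .nil (.cons 630 597 .nil .nil)))]
  [([597], (PX [465] [498,531,564,597])), ([630], (PX [465] [498,531,564,630]))]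
  (by decide +kernel) ⟨w3_1034_597, w3_1034_630, trivial⟩

theorem v3_1035 : VW (PX [465,564] [498,531,597,630]) := VW.of base nl_ok fl_ok .nil
  [(663, (.cons 696 729 .nil (.cons 729 696 .nil .nil))), (696, (.cons 663 729 .nil (.cons 729 663 .nil .nil))), (729, (.cons 663 696 .nil (.cons 696 663 .nil .nil)))]
  []
  (by decide +kernel) trivial

theorem w3_1036_564 : S (PX [465] [498,531,564,597]) := VW.play 630 (PX [465,630] [498,531,564,597]) (by decide +kernel) v3_1032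

theorem w3_1036_630 : S (PX [465] [498,531,597,630]) := VW.play 564 (PX [465,564] [498,531,597,630]) (by decide +kernel) v3_1035

theorem v3_1036 : VW (PX [465] [498,531,597]) := VW.of base nl_ok fl_ok (.cons 564 630 .nil (.cons 630 564 .nil .nil))
  [(663, (.cons 564 630 .nil (.cons 630 564 (.cons 696 729 .nil (.cons 729 696 .nil .nil)) .nil))), (696, (.cons 564 630 .nil (.cons 630 564 (.cons 663 729 .nil (.cons 729 663 .nil .nil)) .nil))), (729, (.cons 564 630 .nil (.cons 630 564 (.cons 663 696 .nil (.cons 696 663 .nil .nil)) .nil)))]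
  [([564], (PX [465] [498,531,564,597])), ([630], (PX [465] [498,531,597,630]))]
  (by decide +kernel) ⟨w3_1036_564, w3_1036_630, trivial⟩

theorem w3_1040_432 : S (PX [] [432,498,531]) := VW.play 465 (PX [465] [432,498,531]) (by decide +kernel) v3_960

theorem w3_1040_465 : S (PX [] [465,498,531]) := VW.play 432 (PX [432] [465,498,531]) (by decide +kernel) v3_986

theorem w3_1040_564 : S (PX [] [498,531,564]) := VW.play 465 (PX [465] [498,531,564]) (by decide +kernel) v3_1034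

theorem w3_1040_597 : S (PX [] [498,531,597]) := VW.play 465 (PX [465] [498,531,597]) (by decide +kernel) v3_1036

theorem v3_1040 : VW (PX [] [498,531]) := VW.of base nl_ok fl_ok .nil
  [(399, (.cons 432 465 .nil (.cons 465 432 (.cons 564 597 .nil (.cons 597 564 .nil .nil)) .nil))), (630, (.cons 564 597 (.cons 432 465 .nil (.cons 465 432 .nil .nil)) (.cons 597 564 .nil .nil)))]
  [([432], (PX [] [432,498,531])), ([465], (PX [] [465,498,531])), ([564], (PX [] [498,531,564])), ([597], (PX [] [498,531,597]))]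
  (by decide +kernel) ⟨w3_1040_432, w3_1040_465, w3_1040_564, w3_1040_597, trivial⟩

theorem v3_864 : VW (PX [467,627] [499,531,563,595]) := VW.of base nl_ok fl_ok .nil
  []
  []
  (by decide +kernel) trivial

theorem v3_865 : VW (PX [467,595] [499,531,563,627]) := VW.of base nl_ok fl_ok .nil
  []
  []
  (by decide +kernel) trivial

theorem w3_866_595 : S (PX [467] [499,531,563,595]) := VW.play 627 (PX [467,627] [499,531,563,595]) (by decide +kernel) v3_864

theorem w3_866_627 : S (PX [467] [499,531,563,627]) := VW.play 595 (PX [467,595] [499,531,563,627]) (by decide +kernel) v3_865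

theorem v3_866 : VW (PX [467] [499,531,563]) := VW.of base nl_ok fl_ok (.cons 595 627 .nil (.cons 627 595 .nil .nil))
  [(659, (.cons 595 627 .nil (.cons 627 595 .nil .nil))), (691, (.cons 595 627 .nil (.cons 627 595 .nil .nil))), (723, (.cons 595 627 .nil (.cons 627 595 .nil .nil)))]
  [([595], (PX [467] [499,531,563,595])), ([627], (PX [467] [499,531,563,627]))]
  (by decide +kernel) ⟨w3_866_595, w3_866_627, trivial⟩

theorem v3_871 : VW (PX [563] [499,531,595]) := VW.of base nl_ok fl_ok .nil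
  [(403, (.cons 435 467 .nil (.cons 467 435 .nil .nil))), (435, (.cons 403 467 .nil (.cons 467 403 .nil .nil))), (467, (.cons 403 435 .nil (.cons 435 403 .nil .nil)))]
  []
  (by decide +kernel) trivial

theorem w3_883_435 : S (PX [] [435,499,531]) := VW.play 467 (PX [467] [435,499,531]) (by decide +kernel) v3_330

theorem w3_883_467 : S (PX [] [467,499,531]) := VW.play 435 (PX [435] [467,499,531]) (by decide +kernel) v3_597

theorem w3_883_563 : S (PX [] [499,531,563]) := VW.play 467 (PX [467] [499,531,563]) (by decide +kernel) v3_866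

theorem w3_883_595 : S (PX [] [499,531,595]) := VW.play 563 (PX [563] [499,531,595]) (by decide +kernel) v3_871

theorem v3_883 : VW (PX [] [499,531]) := VW.of base nl_ok fl_ok .nil
  [(403, (.cons 435 467 .nil (.cons 467 435 (.cons 563 595 .nil (.cons 595 563 .nil .nil)) .nil))), (627, (.cons 563 595 (.cons 435 467 .nil (.cons 467 435 .nil .nil)) (.cons 595 563 .nil .nil)))]
  [([435], (PX [] [435,499,531])), ([467], (PX [] [467,499,531])), ([563], (PX [] [499,531,563])), ([595], (PX [] [499,531,595]))]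
  (by decide +kernel) ⟨w3_883_435, w3_883_467, w3_883_563, w3_883_595, trivial⟩

theorem v3_1041 : VW (PX [469,624] [500,531,562,593]) := VW.of base nl_ok fl_ok .nil
  []
  []
  (by decide +kernel) trivial

theorem v3_1042 : VW (PX [469,593] [500,531,562,624]) := VW.of base nl_ok fl_ok .nil
  []
  []
  (by decide +kernel) trivial

theorem w3_1043_593 : S (PX [469] [500,531,562,593]) := VW.play 624 (PX [469,624] [500,531,562,593]) (by decide +kernel) v3_1041

theorem w3_1043_624 : S (PX [469] [500,531,562,624]) := VW.play 593 (PX [469,593] [500,531,562,624]) (by decide +kernel) v3_1042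

theorem v3_1043 : VW (PX [469] [500,531,562]) := VW.of base nl_ok fl_ok (.cons 593 624 .nil (.cons 624 593 .nil .nil))
  [(655, (.cons 593 624 .nil (.cons 624 593 .nil .nil))), (686, (.cons 593 624 .nil (.cons 624 593 .nil .nil))), (717, (.cons 593 624 .nil (.cons 624 593 .nil .nil)))]
  [([593], (PX [469] [500,531,562,593])), ([624], (PX [469] [500,531,562,624]))]
  (by decide +kernel) ⟨w3_1043_593, w3_1043_624, trivial⟩

theorem v3_1048 : VW (PX [562] [500,531,593]) := VW.of base nl_ok fl_ok .nil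
  [(407, (.cons 438 469 .nil (.cons 469 438 .nil .nil))), (438, (.cons 407 469 .nil (.cons 469 407 .nil .nil))), (469, (.cons 407 438 .nil (.cons 438 407 .nil .nil)))]
  []
  (by decide +kernel) trivial

theorem w3_1060_438 : S (PX [] [438,500,531]) := VW.play 469 (PX [469] [438,500,531]) (by decide +kernel) v3_980

theorem w3_1060_469 : S (PX [] [469,500,531]) := VW.play 438 (PX [438] [469,500,531]) (by decide +kernel) v3_1011

theorem w3_1060_562 : S (PX [] [500,531,562]) := VW.play 469 (PX [469] [500,531,562]) (by decide +kernel) v3_1043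

theorem w3_1060_593 : S (PX [] [500,531,593]) := VW.play 562 (PX [562] [500,531,593]) (by decide +kernel) v3_1048

theorem v3_1060 : VW (PX [] [500,531]) := VW.of base nl_ok fl_ok .nil
  [(407, (.cons 438 469 .nil (.cons 469 438 (.cons 562 593 .nil (.cons 593 562 .nil .nil)) .nil))), (624, (.cons 562 593 (.cons 438 469 .nil (.cons 469 438 .nil .nil)) (.cons 593 562 .nil .nil)))]
  [([438], (PX [] [438,500,531])), ([469], (PX [] [469,500,531])), ([562], (PX [] [500,531,562])), ([593], (PX [] [500,531,593]))]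
  (by decide +kernel) ⟨w3_1060_438, w3_1060_469, w3_1060_562, w3_1060_593, trivial⟩

theorem v3_1061 : VW (PX [] [527,531]) := VW.of base nl_ok fl_ok .nil
  [(528, (.cons 529 530 (.cons 525 526 .nil (.cons 526 525 .nil .nil)) (.cons 530 529 .nil .nil))), (529, (.cons 528 530 (.cons 525 526 .nil (.cons 526 525 .nil .nil)) (.cons 530 528 (.cons 532 533 .nil (.cons 533 532 .nil .nil)) .nil))), (530, (.cons 528 529 .nil (.cons 529 528 (.cons 532 533 .nil (.cons 533 532 .nil .nil)) .nil)))]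
  []
  (by decide +kernel) trivial

theorem v3_1062 : VW (PX [527,532] [528,529,530,531]) := VW.of base nl_ok fl_ok .nil
  []
  []
  (by decide +kernel) trivial

theorem v3_1063 : VW (PX [527,530] [528,529,531,532]) := VW.of base nl_ok fl_ok .nil
  [(533, (.cons 534 535 .nil (.cons 535 534 .nil .nil))), (534, (.cons 533 535 .nil (.cons 535 533 .nil .nil))), (535, (.cons 533 534 .nil (.cons 534 533 .nil .nil)))]
  []
  (by decide +kernel) trivial

theorem w3_1064_530 : S (PX [527] [528,529,530,531]) := VW.play 532 (PX [527,532] [528,529,530,531]) (by decide +kernel) v3_1062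

theorem w3_1064_532 : S (PX [527] [528,529,531,532]) := VW.play 530 (PX [527,530] [528,529,531,532]) (by decide +kernel) v3_1063

theorem v3_1064 : VW (PX [527] [528,529,531]) := VW.of base nl_ok fl_ok (.cons 530 532 .nil (.cons 532 530 .nil .nil))
  [(533, (.cons 530 532 .nil (.cons 532 530 (.cons 534 535 .nil (.cons 535 534 .nil .nil)) .nil))), (534, (.cons 530 532 .nil (.cons 532 530 (.cons 533 535 .nil (.cons 535 533 .nil .nil)) .nil))), (535, (.cons 530 532 .nil (.cons 532 530 (.cons 533 534 .nil (.cons 534 533 .nil .nil)) .nil)))]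
  [([530], (PX [527] [528,529,530,531])), ([532], (PX [527] [528,529,531,532]))]
  (by decide +kernel) ⟨w3_1064_530, w3_1064_532, trivial⟩

theorem v3_1069 : VW (PX [529] [528,530,531]) := VW.of base nl_ok fl_ok .nil
  [(532, (.cons 533 534 .nil (.cons 534 533 .nil .nil))), (533, (.cons 532 534 .nil (.cons 534 532 .nil .nil))), (534, (.cons 532 533 .nil (.cons 533 532 .nil .nil)))]
  []
  (by decide +kernel) trivial

theorem w3_1070_529 : S (PX [] [528,529,531]) := VW.play 527 (PX [527] [528,529,531]) (by decide +kernel) v3_1064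

theorem w3_1070_530 : S (PX [] [528,530,531]) := VW.play 529 (PX [529] [528,530,531]) (by decide +kernel) v3_1069

theorem v3_1070 : VW (PX [] [528,531]) := VW.of base nl_ok fl_ok .nil
  [(527, (.cons 529 530 (.cons 525 526 .nil (.cons 526 525 .nil .nil)) (.cons 530 529 .nil .nil))), (532, (.cons 529 530 .nil (.cons 530 529 (.cons 533 534 .nil (.cons 534 533 .nil .nil)) .nil)))]
  [([529], (PX [] [528,529,531])), ([530], (PX [] [528,530,531]))]
  (by decide +kernel) ⟨w3_1070_529, w3_1070_530, trivial⟩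

theorem v3_1071 : VW (PX [528,533] [529,530,531,532]) := VW.of base nl_ok fl_ok .nil
  []
  []
  (by decide +kernel) trivial

theorem v3_1072 : VW (PX [528,532] [529,530,531,533]) := VW.of base nl_ok fl_ok .nil
  []
  []
  (by decide +kernel) trivial

theorem w3_1073_532 : S (PX [528] [529,530,531,532]) := VW.play 533 (PX [528,533] [529,530,531,532]) (by decide +kernel) v3_1071

theorem w3_1073_533 : S (PX [528] [529,530,531,533]) := VW.play 532 (PX [528,532] [529,530,531,533]) (by decide +kernel) v3_1072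

theorem v3_1073 : VW (PX [528] [529,530,531]) := VW.of base nl_ok fl_ok (.cons 532 533 .nil (.cons 533 532 .nil .nil))
  [(534, (.cons 532 533 .nil (.cons 533 532 .nil .nil))), (535, (.cons 532 533 .nil (.cons 533 532 .nil .nil))), (536, (.cons 532 533 .nil (.cons 533 532 .nil .nil)))]
  [([532], (PX [528] [529,530,531,532])), ([533], (PX [528] [529,530,531,533]))]
  (by decide +kernel) ⟨w3_1073_532, w3_1073_533, trivial⟩

theorem v3_1088 : VW (PX [530] [529,531,532]) := VW.of base nl_ok fl_ok .nil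
  [(533, (.cons 534 535 .nil (.cons 535 534 .nil .nil))), (534, (.cons 533 535 .nil (.cons 535 533 .nil .nil))), (535, (.cons 533 534 .nil (.cons 534 533 .nil .nil)))]
  []
  (by decide +kernel) trivial

theorem w3_1089_528 : S (PX [] [528,529,531]) := VW.play 527 (PX [527] [528,529,531]) (by decide +kernel) v3_1064

theorem w3_1089_530 : S (PX [] [529,530,531]) := VW.play 528 (PX [528] [529,530,531]) (by decide +kernel) v3_1073

theorem w3_1089_532 : S (PX [] [529,531,532]) := VW.play 530 (PX [530] [529,531,532]) (by decide +kernel) v3_1088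

theorem v3_1089 : VW (PX [] [529,531]) := VW.of base nl_ok fl_ok .nil
  [(527, (.cons 528 530 (.cons 525 526 .nil (.cons 526 525 .nil .nil)) (.cons 530 528 (.cons 532 533 .nil (.cons 533 532 .nil .nil)) .nil))), (533, (.cons 530 532 (.cons 527 528 .nil (.cons 528 527 .nil .nil)) (.cons 532 530 (.cons 534 535 .nil (.cons 535 534 .nil .nil)) .nil)))]
  [([528], (PX [] [528,529,531])), ([530], (PX [] [529,530,531])), ([532], (PX [] [529,531,532]))]
  (by decide +kernel) ⟨w3_1089_528, w3_1089_530, w3_1089_532, trivial⟩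

theorem v3_1090 : VW (PX [529,534] [530,531,532,533]) := VW.of base nl_ok fl_ok .nil
  []
  []
  (by decide +kernel) trivial

theorem v3_1091 : VW (PX [529,533] [530,531,532,534]) := VW.of base nl_ok fl_ok .nil
  []
  []
  (by decide +kernel) trivial

theorem w3_1092_533 : S (PX [529] [530,531,532,533]) := VW.play 534 (PX [529,534] [530,531,532,533]) (by decide +kernel) v3_1090

theorem w3_1092_534 : S (PX [529] [530,531,532,534]) := VW.play 533 (PX [529,533] [530,531,532,534]) (by decide +kernel) v3_1091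

theorem v3_1092 : VW (PX [529] [530,531,532]) := VW.of base nl_ok fl_ok (.cons 533 534 .nil (.cons 534 533 .nil .nil))
  [(535, (.cons 533 534 .nil (.cons 534 533 .nil .nil))), (536, (.cons 533 534 .nil (.cons 534 533 .nil .nil))), (537, (.cons 533 534 .nil (.cons 534 533 .nil .nil)))]
  [([533], (PX [529] [530,531,532,533])), ([534], (PX [529] [530,531,532,534]))]
  (by decide +kernel) ⟨w3_1092_533, w3_1092_534, trivial⟩

theorem v3_1095 : VW (PX [527,532] [528,530,531,533]) := VW.of base nl_ok fl_ok .nil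
  []
  []
  (by decide +kernel) trivial

theorem w3_1097_528 : S (PX [532] [528,530,531,533]) := VW.play 527 (PX [527,532] [528,530,531,533]) (by decide +kernel) v3_1095

theorem v3_1097 : VW (PX [532] [530,531,533]) := VW.of base nl_ok fl_ok .nil
  [(527, (.cons 528 529 .nil (.cons 529 528 .nil .nil))), (529, (.cons 527 528 .nil (.cons 528 527 .nil .nil)))]
  [([528], (PX [532] [528,530,531,533]))]
  (by decide +kernel) ⟨w3_1097_528, trivial⟩

theorem w3_1098_528 : S (PX [] [528,530,531]) := VW.play 529 (PX [529] [528,530,531]) (by decide +kernel) v3_1069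

theorem w3_1098_529 : S (PX [] [529,530,531]) := VW.play 528 (PX [528] [529,530,531]) (by decide +kernel) v3_1073

theorem w3_1098_532 : S (PX [] [530,531,532]) := VW.play 529 (PX [529] [530,531,532]) (by decide +kernel) v3_1092

theorem w3_1098_533 : S (PX [] [530,531,533]) := VW.play 532 (PX [532] [530,531,533]) (by decide +kernel) v3_1097

theorem v3_1098 : VW (PX [] [530,531]) := VW.of base nl_ok fl_ok .nil
  [(527, (.cons 528 529 .nil (.cons 529 528 (.cons 532 533 .nil (.cons 533 532 .nil .nil)) .nil))), (534, (.cons 532 533 (.cons 528 529 .nil (.cons 529 528 .nil .nil)) (.cons 533 532 .nil .nil)))]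
  [([528], (PX [] [528,530,531])), ([529], (PX [] [529,530,531])), ([532], (PX [] [530,531,532])), ([533], (PX [] [530,531,533]))]
  (by decide +kernel) ⟨w3_1098_528, w3_1098_529, w3_1098_532, w3_1098_533, trivial⟩

theorem v3_1099 : VW (PX [530,535] [531,532,533,534]) := VW.of base nl_ok fl_ok .nil
  []
  []
  (by decide +kernel) trivial

theorem v3_1100 : VW (PX [530,534] [531,532,533,535]) := VW.of base nl_ok fl_ok .nil
  []
  []
  (by decide +kernel) trivial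

theorem w3_1101_534 : S (PX [530] [531,532,533,534]) := VW.play 535 (PX [530,535] [531,532,533,534]) (by decide +kernel) v3_1099

theorem w3_1101_535 : S (PX [530] [531,532,533,535]) := VW.play 534 (PX [530,534] [531,532,533,535]) (by decide +kernel) v3_1100

theorem v3_1101 : VW (PX [530] [531,532,533]) := VW.of base nl_ok fl_ok (.cons 534 535 .nil (.cons 535 534 .nil .nil))
  [(536, (.cons 534 535 .nil (.cons 535 534 .nil .nil))), (537, (.cons 534 535 .nil (.cons 535 534 .nil .nil))), (538, (.cons 534 535 .nil (.cons 535 534 .nil .nil)))]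
  [([534], (PX [530] [531,532,533,534])), ([535], (PX [530] [531,532,533,535]))]
  (by decide +kernel) ⟨w3_1101_534, w3_1101_535, trivial⟩

theorem v3_1104 : VW (PX [533] [531,532,534]) := VW.of base nl_ok fl_ok .nil
  [(528, (.cons 529 530 .nil (.cons 530 529 .nil .nil))), (529, (.cons 528 530 .nil (.cons 530 528 .nil .nil))), (530, (.cons 528 529 .nil (.cons 529 528 .nil .nil)))]
  []
  (by decide +kernel) trivial

theorem w3_1105_529 : S (PX [] [529,531,532]) := VW.play 530 (PX [530] [529,531,532]) (by decide +kernel) v3_1088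

theorem w3_1105_530 : S (PX [] [530,531,532]) := VW.play 529 (PX [529] [530,531,532]) (by decide +kernel) v3_1092

theorem w3_1105_533 : S (PX [] [531,532,533]) := VW.play 530 (PX [530] [531,532,533]) (by decide +kernel) v3_1101

theorem w3_1105_534 : S (PX [] [531,532,534]) := VW.play 533 (PX [533] [531,532,534]) (by decide +kernel) v3_1104

theorem v3_1105 : VW (PX [] [531,532]) := VW.of base nl_ok fl_ok .nil
  [(528, (.cons 529 530 .nil (.cons 530 529 (.cons 533 534 .nil (.cons 534 533 .nil .nil)) .nil))), (535, (.cons 533 534 (.cons 529 530 .nil (.cons 530 529 .nil .nil)) (.cons 534 533 .nil .nil)))]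
  [([529], (PX [] [529,531,532])), ([530], (PX [] [530,531,532])), ([533], (PX [] [531,532,533])), ([534], (PX [] [531,532,534]))]
  (by decide +kernel) ⟨w3_1105_529, w3_1105_530, w3_1105_533, w3_1105_534, trivial⟩

theorem v3_1106 : VW (PX [532] [531,533,534]) := VW.of base nl_ok fl_ok .nil
  [(535, (.cons 536 537 .nil (.cons 537 536 .nil .nil))), (536, (.cons 535 537 .nil (.cons 537 535 .nil .nil))), (537, (.cons 535 536 .nil (.cons 536 535 .nil .nil)))]
  []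
  (by decide +kernel) trivial

theorem w3_1107_530 : S (PX [] [530,531,533]) := VW.play 532 (PX [532] [530,531,533]) (by decide +kernel) v3_1097

theorem w3_1107_532 : S (PX [] [531,532,533]) := VW.play 530 (PX [530] [531,532,533]) (by decide +kernel) v3_1101

theorem w3_1107_534 : S (PX [] [531,533,534]) := VW.play 532 (PX [532] [531,533,534]) (by decide +kernel) v3_1106

theorem v3_1107 : VW (PX [] [531,533]) := VW.of base nl_ok fl_ok .nil
  [(529, (.cons 530 532 (.cons 527 528 .nil (.cons 528 527 .nil .nil)) (.cons 532 530 (.cons 534 535 .nil (.cons 535 534 .nil .nil)) .nil))), (535, (.cons 532 534 (.cons 529 530 .nil (.cons 530 529 .nil .nil)) (.cons 534 532 (.cons 536 537 .nil (.cons 537 536 .nil .nil)) .nil)))]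
  [([530], (PX [] [530,531,533])), ([532], (PX [] [531,532,533])), ([534], (PX [] [531,533,534]))]
  (by decide +kernel) ⟨w3_1107_530, w3_1107_532, w3_1107_534, trivial⟩

theorem w3_1108_532 : S (PX [] [531,532,534]) := VW.play 533 (PX [533] [531,532,534]) (by decide +kernel) v3_1104

theorem w3_1108_533 : S (PX [] [531,533,534]) := VW.play 532 (PX [532] [531,533,534]) (by decide +kernel) v3_1106

theorem v3_1108 : VW (PX [] [531,534]) := VW.of base nl_ok fl_ok .nil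
  [(530, (.cons 532 533 (.cons 528 529 .nil (.cons 529 528 .nil .nil)) (.cons 533 532 .nil .nil))), (535, (.cons 532 533 .nil (.cons 533 532 (.cons 536 537 .nil (.cons 537 536 .nil .nil)) .nil)))]
  [([532], (PX [] [531,532,534])), ([533], (PX [] [531,533,534]))]
  (by decide +kernel) ⟨w3_1108_532, w3_1108_533, trivial⟩

theorem v3_1109 : VW (PX [] [531,535]) := VW.of base nl_ok fl_ok .nil
  [(532, (.cons 533 534 (.cons 529 530 .nil (.cons 530 529 .nil .nil)) (.cons 534 533 .nil .nil))), (533, (.cons 532 534 (.cons 529 530 .nil (.cons 530 529 .nil .nil)) (.cons 534 532 (.cons 536 537 .nil (.cons 537 536 .nil .nil)) .nil))), (534, (.cons 532 533 .nil (.cons 533 532 (.cons 536 537 .nil (.cons 537 536 .nil .nil)) .nil)))]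
  []
  (by decide +kernel) trivial

theorem v3_1110 : VW (PX [500,655] [531,562,593,624]) := VW.of base nl_ok fl_ok .nil
  []
  []
  (by decide +kernel) trivial

theorem v3_1111 : VW (PX [500,624] [531,562,593,655]) := VW.of base nl_ok fl_ok .nil
  []
  []
  (by decide +kernel) trivial

theorem w3_1112_624 : S (PX [500] [531,562,593,624]) := VW.play 655 (PX [500,655] [531,562,593,624]) (by decide +kernel) v3_1110

theorem w3_1112_655 : S (PX [500] [531,562,593,655]) := VW.play 624 (PX [500,624] [531,562,593,655]) (by decide +kernel) v3_1111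

theorem v3_1112 : VW (PX [500] [531,562,593]) := VW.of base nl_ok fl_ok (.cons 624 655 .nil (.cons 655 624 .nil .nil))
  [(686, (.cons 624 655 .nil (.cons 655 624 .nil .nil))), (717, (.cons 624 655 .nil (.cons 655 624 .nil .nil))), (748, (.cons 624 655 .nil (.cons 655 624 .nil .nil)))]
  [([624], (PX [500] [531,562,593,624])), ([655], (PX [500] [531,562,593,655]))]
  (by decide +kernel) ⟨w3_1112_624, w3_1112_655, trivial⟩

theorem v3_1117 : VW (PX [593] [531,562,624]) := VW.of base nl_ok fl_ok .nil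
  [(438, (.cons 469 500 .nil (.cons 500 469 .nil .nil))), (469, (.cons 438 500 .nil (.cons 500 438 .nil .nil))), (500, (.cons 438 469 .nil (.cons 469 438 .nil .nil)))]
  []
  (by decide +kernel) trivial

theorem w3_1129_469 : S (PX [] [469,531,562]) := VW.play 500 (PX [500] [469,531,562]) (by decide +kernel) v3_1028

theorem w3_1129_500 : S (PX [] [500,531,562]) := VW.play 469 (PX [469] [500,531,562]) (by decide +kernel) v3_1043

theorem w3_1129_593 : S (PX [] [531,562,593]) := VW.play 500 (PX [500] [531,562,593]) (by decide +kernel) v3_1112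

theorem w3_1129_624 : S (PX [] [531,562,624]) := VW.play 593 (PX [593] [531,562,624]) (by decide +kernel) v3_1117

theorem v3_1129 : VW (PX [] [531,562]) := VW.of base nl_ok fl_ok .nil
  [(438, (.cons 469 500 .nil (.cons 500 469 (.cons 593 624 .nil (.cons 624 593 .nil .nil)) .nil))), (655, (.cons 593 624 (.cons 469 500 .nil (.cons 500 469 .nil .nil)) (.cons 624 593 .nil .nil)))]
  [([469], (PX [] [469,531,562])), ([500], (PX [] [500,531,562])), ([593], (PX [] [531,562,593])), ([624], (PX [] [531,562,624]))]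
  (by decide +kernel) ⟨w3_1129_469, w3_1129_500, w3_1129_593, w3_1129_624, trivial⟩

theorem v3_1130 : VW (PX [499,659] [531,563,595,627]) := VW.of base nl_ok fl_ok .nil
  []
  []
  (by decide +kernel) trivial

theorem v3_1131 : VW (PX [499,627] [531,563,595,659]) := VW.of base nl_ok fl_ok .nil
  []
  []
  (by decide +kernel) trivial

theorem w3_1132_627 : S (PX [499] [531,563,595,627]) := VW.play 659 (PX [499,659] [531,563,595,627]) (by decide +kernel) v3_1130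

theorem w3_1132_659 : S (PX [499] [531,563,595,659]) := VW.play 627 (PX [499,627] [531,563,595,659]) (by decide +kernel) v3_1131

theorem v3_1132 : VW (PX [499] [531,563,595]) := VW.of base nl_ok fl_ok (.cons 627 659 .nil (.cons 659 627 .nil .nil))
  [(691, (.cons 627 659 .nil (.cons 659 627 .nil .nil))), (723, (.cons 627 659 .nil (.cons 659 627 .nil .nil))), (755, (.cons 627 659 .nil (.cons 659 627 .nil .nil)))]
  [([627], (PX [499] [531,563,595,627])), ([659], (PX [499] [531,563,595,659]))]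
  (by decide +kernel) ⟨w3_1132_627, w3_1132_659, trivial⟩

theorem v3_1137 : VW (PX [595] [531,563,627]) := VW.of base nl_ok fl_ok .nil
  [(435, (.cons 467 499 .nil (.cons 499 467 .nil .nil))), (467, (.cons 435 499 .nil (.cons 499 435 .nil .nil))), (499, (.cons 435 467 .nil (.cons 467 435 .nil .nil)))]
  []
  (by decide +kernel) trivial

theorem w3_1149_467 : S (PX [] [467,531,563]) := VW.play 499 (PX [499] [467,531,563]) (by decide +kernel) v3_641

theorem w3_1149_499 : S (PX [] [499,531,563]) := VW.play 467 (PX [467] [499,531,563]) (by decide +kernel) v3_866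

theorem w3_1149_595 : S (PX [] [531,563,595]) := VW.play 499 (PX [499] [531,563,595]) (by decide +kernel) v3_1132

theorem w3_1149_627 : S (PX [] [531,563,627]) := VW.play 595 (PX [595] [531,563,627]) (by decide +kernel) v3_1137

theorem v3_1149 : VW (PX [] [531,563]) := VW.of base nl_ok fl_ok .nil
  [(435, (.cons 467 499 .nil (.cons 499 467 (.cons 595 627 .nil (.cons 627 595 .nil .nil)) .nil))), (659, (.cons 595 627 (.cons 467 499 .nil (.cons 499 467 .nil .nil)) (.cons 627 595 .nil .nil)))]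
  [([467], (PX [] [467,531,563])), ([499], (PX [] [499,531,563])), ([595], (PX [] [531,563,595])), ([627], (PX [] [531,563,627]))]
  (by decide +kernel) ⟨w3_1149_467, w3_1149_499, w3_1149_595, w3_1149_627, trivial⟩

theorem v3_1150 : VW (PX [498,663] [531,564,597,630]) := VW.of base nl_ok fl_ok .nil
  []
  []
  (by decide +kernel) trivial

theorem v3_1151 : VW (PX [498,630] [531,564,597,663]) := VW.of base nl_ok fl_ok .nil
  []
  []
  (by decide +kernel) trivial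

theorem w3_1152_630 : S (PX [498] [531,564,597,630]) := VW.play 663 (PX [498,663] [531,564,597,630]) (by decide +kernel) v3_1150

theorem w3_1152_663 : S (PX [498] [531,564,597,663]) := VW.play 630 (PX [498,630] [531,564,597,663]) (by decide +kernel) v3_1151

theorem v3_1152 : VW (PX [498] [531,564,597]) := VW.of base nl_ok fl_ok (.cons 630 663 .nil (.cons 663 630 .nil .nil))
  [(696, (.cons 630 663 .nil (.cons 663 630 .nil .nil))), (729, (.cons 630 663 .nil (.cons 663 630 .nil .nil))), (762, (.cons 630 663 .nil (.cons 663 630 .nil .nil)))]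
  [([630], (PX [498] [531,564,597,630])), ([663], (PX [498] [531,564,597,663]))]
  (by decide +kernel) ⟨w3_1152_630, w3_1152_663, trivial⟩

theorem v3_1155 : VW (PX [597] [531,564,630]) := VW.of base nl_ok fl_ok .nil
  [(432, (.cons 465 498 .nil (.cons 498 465 .nil .nil))), (465, (.cons 432 498 .nil (.cons 498 432 .nil .nil))), (498, (.cons 432 465 .nil (.cons 465 432 .nil .nil)))]
  []
  (by decide +kernel) trivial

theorem w3_1156_465 : S (PX [] [465,531,564]) := VW.play 498 (PX [498] [465,531,564]) (by decide +kernel) v3_1001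

theorem w3_1156_498 : S (PX [] [498,531,564]) := VW.play 465 (PX [465] [498,531,564]) (by decide +kernel) v3_1034

theorem w3_1156_597 : S (PX [] [531,564,597]) := VW.play 498 (PX [498] [531,564,597]) (by decide +kernel) v3_1152

theorem w3_1156_630 : S (PX [] [531,564,630]) := VW.play 597 (PX [597] [531,564,630]) (by decide +kernel) v3_1155

theorem v3_1156 : VW (PX [] [531,564]) := VW.of base nl_ok fl_ok .nil
  [(432, (.cons 465 498 .nil (.cons 498 465 (.cons 597 630 .nil (.cons 630 597 .nil .nil)) .nil))), (663, (.cons 597 630 (.cons 465 498 .nil (.cons 498 465 .nil .nil)) (.cons 630 597 .nil .nil)))]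
  [([465], (PX [] [465,531,564])), ([498], (PX [] [498,531,564])), ([597], (PX [] [531,564,597])), ([630], (PX [] [531,564,630]))]
  (by decide +kernel) ⟨w3_1156_465, w3_1156_498, w3_1156_597, w3_1156_630, trivial⟩

theorem v3_1171 : VW (PX [562] [531,593,624]) := VW.of base nl_ok fl_ok .nil
  [(655, (.cons 686 717 .nil (.cons 717 686 .nil .nil))), (686, (.cons 655 717 .nil (.cons 717 655 .nil .nil))), (717, (.cons 655 686 .nil (.cons 686 655 .nil .nil)))]
  []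
  (by decide +kernel) trivial

theorem w3_1174_500 : S (PX [] [500,531,593]) := VW.play 562 (PX [562] [500,531,593]) (by decide +kernel) v3_1048

theorem w3_1174_562 : S (PX [] [531,562,593]) := VW.play 500 (PX [500] [531,562,593]) (by decide +kernel) v3_1112

theorem w3_1174_624 : S (PX [] [531,593,624]) := VW.play 562 (PX [562] [531,593,624]) (by decide +kernel) v3_1171

theorem v3_1174 : VW (PX [] [531,593]) := VW.of base nl_ok fl_ok .nil
  [(469, (.cons 500 562 (.cons 407 438 .nil (.cons 438 407 .nil .nil)) (.cons 562 500 (.cons 624 655 .nil (.cons 655 624 .nil .nil)) .nil))), (655, (.cons 562 624 (.cons 469 500 .nil (.cons 500 469 .nil .nil)) (.cons 624 562 (.cons 686 717 .nil (.cons 717 686 .nil .nil)) .nil)))]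
  [([500], (PX [] [500,531,593])), ([562], (PX [] [531,562,593])), ([624], (PX [] [531,593,624]))]
  (by decide +kernel) ⟨w3_1174_500, w3_1174_562, w3_1174_624, trivial⟩

theorem v3_1189 : VW (PX [563] [531,595,627]) := VW.of base nl_ok fl_ok .nil
  [(659, (.cons 691 723 .nil (.cons 723 691 .nil .nil))), (691, (.cons 659 723 .nil (.cons 723 659 .nil .nil))), (723, (.cons 659 691 .nil (.cons 691 659 .nil .nil)))]
  []
  (by decide +kernel) trivial

theorem w3_1192_499 : S (PX [] [499,531,595]) := VW.play 563 (PX [563] [499,531,595]) (by decide +kernel) v3_871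

theorem w3_1192_563 : S (PX [] [531,563,595]) := VW.play 499 (PX [499] [531,563,595]) (by decide +kernel) v3_1132

theorem w3_1192_627 : S (PX [] [531,595,627]) := VW.play 563 (PX [563] [531,595,627]) (by decide +kernel) v3_1189

theorem v3_1192 : VW (PX [] [531,595]) := VW.of base nl_ok fl_ok .nil
  [(467, (.cons 499 563 (.cons 403 435 .nil (.cons 435 403 .nil .nil)) (.cons 563 499 (.cons 627 659 .nil (.cons 659 627 .nil .nil)) .nil))), (659, (.cons 563 627 (.cons 467 499 .nil (.cons 499 467 .nil .nil)) (.cons 627 563 (.cons 691 723 .nil (.cons 723 691 .nil .nil)) .nil)))]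
  [([499], (PX [] [499,531,595])), ([563], (PX [] [531,563,595])), ([627], (PX [] [531,595,627]))]
  (by decide +kernel) ⟨w3_1192_499, w3_1192_563, w3_1192_627, trivial⟩

theorem v3_1193 : VW (PX [564] [531,597,630]) := VW.of base nl_ok fl_ok .nil
  [(663, (.cons 696 729 .nil (.cons 729 696 .nil .nil))), (696, (.cons 663 729 .nil (.cons 729 663 .nil .nil))), (729, (.cons 663 696 .nil (.cons 696 663 .nil .nil)))]
  []
  (by decide +kernel) trivial

theorem w3_1194_465 : S (PX [] [465,531,597]) := VW.play 498 (PX [498] [465,531,597]) (by decide +kernel) v3_1002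

theorem w3_1194_498 : S (PX [] [498,531,597]) := VW.play 465 (PX [465] [498,531,597]) (by decide +kernel) v3_1036

theorem w3_1194_564 : S (PX [] [531,564,597]) := VW.play 498 (PX [498] [531,564,597]) (by decide +kernel) v3_1152

theorem w3_1194_630 : S (PX [] [531,597,630]) := VW.play 564 (PX [564] [531,597,630]) (by decide +kernel) v3_1193

theorem v3_1194 : VW (PX [] [531,597]) := VW.of base nl_ok fl_ok .nil
  [(663, (.cons 564 630 (.cons 465 498 .nil (.cons 498 465 .nil .nil)) (.cons 630 564 (.cons 696 729 .nil (.cons 729 696 .nil .nil)) .nil)))]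
  [([465], (PX [] [465,531,597])), ([498], (PX [] [498,531,597])), ([564], (PX [] [531,564,597])), ([630], (PX [] [531,597,630]))]
  (by decide +kernel) ⟨w3_1194_465, w3_1194_498, w3_1194_564, w3_1194_630, trivial⟩

theorem w3_1195_562 : S (PX [] [531,562,624]) := VW.play 593 (PX [593] [531,562,624]) (by decide +kernel) v3_1117

theorem w3_1195_593 : S (PX [] [531,593,624]) := VW.play 562 (PX [562] [531,593,624]) (by decide +kernel) v3_1171

theorem v3_1195 : VW (PX [] [531,624]) := VW.of base nl_ok fl_ok .nil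
  [(500, (.cons 562 593 (.cons 438 469 .nil (.cons 469 438 .nil .nil)) (.cons 593 562 .nil .nil))), (655, (.cons 562 593 .nil (.cons 593 562 (.cons 686 717 .nil (.cons 717 686 .nil .nil)) .nil)))]
  [([562], (PX [] [531,562,624])), ([593], (PX [] [531,593,624]))]
  (by decide +kernel) ⟨w3_1195_562, w3_1195_593, trivial⟩

theorem w3_1196_563 : S (PX [] [531,563,627]) := VW.play 595 (PX [595] [531,563,627]) (by decide +kernel) v3_1137

theorem w3_1196_595 : S (PX [] [531,595,627]) := VW.play 563 (PX [563] [531,595,627]) (by decide +kernel) v3_1189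

theorem v3_1196 : VW (PX [] [531,627]) := VW.of base nl_ok fl_ok .nil
  [(499, (.cons 563 595 (.cons 435 467 .nil (.cons 467 435 .nil .nil)) (.cons 595 563 .nil .nil))), (659, (.cons 563 595 .nil (.cons 595 563 (.cons 691 723 .nil (.cons 723 691 .nil .nil)) .nil)))]
  [([563], (PX [] [531,563,627])), ([595], (PX [] [531,595,627]))]
  (by decide +kernel) ⟨w3_1196_563, w3_1196_595, trivial⟩

theorem w3_1197_564 : S (PX [] [531,564,630]) := VW.play 597 (PX [597] [531,564,630]) (by decide +kernel) v3_1155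

theorem w3_1197_597 : S (PX [] [531,597,630]) := VW.play 564 (PX [564] [531,597,630]) (by decide +kernel) v3_1193

theorem v3_1197 : VW (PX [] [531,630]) := VW.of base nl_ok fl_ok .nil
  [(498, (.cons 564 597 (.cons 432 465 .nil (.cons 465 432 .nil .nil)) (.cons 597 564 .nil .nil))), (663, (.cons 564 597 .nil (.cons 597 564 (.cons 696 729 .nil (.cons 729 696 .nil .nil)) .nil)))]
  [([564], (PX [] [531,564,630])), ([597], (PX [] [531,597,630]))]
  (by decide +kernel) ⟨w3_1197_564, w3_1197_597, trivial⟩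

theorem v3_1198 : VW (PX [] [531,655]) := VW.of base nl_ok fl_ok .nil
  [(562, (.cons 593 624 (.cons 469 500 .nil (.cons 500 469 .nil .nil)) (.cons 624 593 .nil .nil))), (593, (.cons 562 624 (.cons 469 500 .nil (.cons 500 469 .nil .nil)) (.cons 624 562 (.cons 686 717 .nil (.cons 717 686 .nil .nil)) .nil))), (624, (.cons 562 593 .nil (.cons 593 562 (.cons 686 717 .nil (.cons 717 686 .nil .nil)) .nil)))]
  []
  (by decide +kernel) trivial

theorem v3_1199 : VW (PX [] [531,659]) := VW.of base nl_ok fl_ok .nil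
  [(563, (.cons 595 627 (.cons 467 499 .nil (.cons 499 467 .nil .nil)) (.cons 627 595 .nil .nil))), (595, (.cons 563 627 (.cons 467 499 .nil (.cons 499 467 .nil .nil)) (.cons 627 563 (.cons 691 723 .nil (.cons 723 691 .nil .nil)) .nil))), (627, (.cons 563 595 .nil (.cons 595 563 (.cons 691 723 .nil (.cons 723 691 .nil .nil)) .nil)))]
  []
  (by decide +kernel) trivial

theorem v3_1200 : VW (PX [] [531,663]) := VW.of base nl_ok fl_ok .nil
  [(564, (.cons 597 630 (.cons 465 498 .nil (.cons 498 465 .nil .nil)) (.cons 630 597 .nil .nil))), (597, (.cons 564 630 (.cons 465 498 .nil (.cons 498 465 .nil .nil)) (.cons 630 564 (.cons 696 729 .nil (.cons 729 696 .nil .nil)) .nil))), (630, (.cons 564 597 .nil (.cons 597 564 (.cons 696 729 .nil (.cons 729 696 .nil .nil)) .nil)))]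
  []
  (by decide +kernel) trivial

theorem r399 : S (Nat.lor X2 (bits [531, 399])) := VW.play 394 (PX [] [399,531]) (by decide +kernel) v3_951

theorem r403 : S (Nat.lor X2 (bits [531, 403])) := VW.play 394 (PX [] [403,531]) (by decide +kernel) v3_952

theorem r407 : S (Nat.lor X2 (bits [531, 407])) := VW.play 394 (PX [] [407,531]) (by decide +kernel) v3_953

theorem r432 : S (Nat.lor X2 (bits [531, 432])) := VW.play 394 (PX [] [432,531]) (by decide +kernel) v3_961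

theorem r435 : S (Nat.lor X2 (bits [531, 435])) := VW.play 394 (PX [] [435,531]) (by decide +kernel) v3_337

theorem r438 : S (Nat.lor X2 (bits [531, 438])) := VW.play 394 (PX [] [438,531]) (by decide +kernel) v3_983

theorem r465 : S (Nat.lor X2 (bits [531, 465])) := VW.play 394 (PX [] [465,531]) (by decide +kernel) v3_1008

theorem r467 : S (Nat.lor X2 (bits [531, 467])) := VW.play 394 (PX [] [467,531]) (by decide +kernel) v3_644

theorem r469 : S (Nat.lor X2 (bits [531, 469])) := VW.play 394 (PX [] [469,531]) (by decide +kernel) v3_1031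

theorem r498 : S (Nat.lor X2 (bits [531, 498])) := VW.play 394 (PX [] [498,531]) (by decide +kernel) v3_1040

theorem r499 : S (Nat.lor X2 (bits [531, 499])) := VW.play 394 (PX [] [499,531]) (by decide +kernel) v3_883

theorem r500 : S (Nat.lor X2 (bits [531, 500])) := VW.play 394 (PX [] [500,531]) (by decide +kernel) v3_1060

theorem r527 : S (Nat.lor X2 (bits [531, 527])) := VW.play 394 (PX [] [527,531]) (by decide +kernel) v3_1061

theorem r528 : S (Nat.lor X2 (bits [531, 528])) := VW.play 394 (PX [] [528,531]) (by decide +kernel) v3_1070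

theorem r529 : S (Nat.lor X2 (bits [531, 529])) := VW.play 394 (PX [] [529,531]) (by decide +kernel) v3_1089

theorem r530 : S (Nat.lor X2 (bits [531, 530])) := VW.play 394 (PX [] [530,531]) (by decide +kernel) v3_1098

theorem r532 : S (Nat.lor X2 (bits [531, 532])) := VW.play 394 (PX [] [531,532]) (by decide +kernel) v3_1105

theorem r533 : S (Nat.lor X2 (bits [531, 533])) := VW.play 394 (PX [] [531,533]) (by decide +kernel) v3_1107

theorem r534 : S (Nat.lor X2 (bits [531, 534])) := VW.play 394 (PX [] [531,534]) (by decide +kernel) v3_1108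

theorem r535 : S (Nat.lor X2 (bits [531, 535])) := VW.play 394 (PX [] [531,535]) (by decide +kernel) v3_1109

theorem r562 : S (Nat.lor X2 (bits [531, 562])) := VW.play 394 (PX [] [531,562]) (by decide +kernel) v3_1129

theorem r563 : S (Nat.lor X2 (bits [531, 563])) := VW.play 394 (PX [] [531,563]) (by decide +kernel) v3_1149

theorem r564 : S (Nat.lor X2 (bits [531, 564])) := VW.play 394 (PX [] [531,564]) (by decide +kernel) v3_1156

theorem r593 : S (Nat.lor X2 (bits [531, 593])) := VW.play 394 (PX [] [531,593]) (by decide +kernel) v3_1174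

theorem r595 : S (Nat.lor X2 (bits [531, 595])) := VW.play 394 (PX [] [531,595]) (by decide +kernel) v3_1192

theorem r597 : S (Nat.lor X2 (bits [531, 597])) := VW.play 394 (PX [] [531,597]) (by decide +kernel) v3_1194

theorem r624 : S (Nat.lor X2 (bits [531, 624])) := VW.play 394 (PX [] [531,624]) (by decide +kernel) v3_1195

theorem r627 : S (Nat.lor X2 (bits [531, 627])) := VW.play 394 (PX [] [531,627]) (by decide +kernel) v3_1196

theorem r630 : S (Nat.lor X2 (bits [531, 630])) := VW.play 394 (PX [] [531,630]) (by decide +kernel) v3_1197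

theorem r655 : S (Nat.lor X2 (bits [531, 655])) := VW.play 394 (PX [] [531,655]) (by decide +kernel) v3_1198

theorem r659 : S (Nat.lor X2 (bits [531, 659])) := VW.play 394 (PX [] [531,659]) (by decide +kernel) v3_1199

theorem r663 : S (Nat.lor X2 (bits [531, 663])) := VW.play 394 (PX [] [531,663]) (by decide +kernel) v3_1200

theorem r428 : S (Nat.lor X2 (bits [531, 428])) := S.of (.q 365 (.a 1 [] (.q 429 (.a 1 [] (.d 330 2345 297 2378 462)
 (.a 1 [297] (.d 462 2378 330 2411 495)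
 (.a 0 [330,462] (.q 397 (.a 1 [] (.d 333 1325 301 1357 461)
 (.a 1 [301] (.d 461 1357 333 1389 493)
 (.a 0 [333,461] (.q 395 (.a 1 [] (.d 394 393 393 394 398)
 (.a 1 [393] (.d 398 394 394 395 399)
 (.a 0 [394,398] (.q 427 (.a 1 [] (.d 331 1323 299 1355 459)
 (.a 1 [299] (.d 459 1355 331 1387 491)
 (.a 1 [331] (.d 334 3375 303 3406 458)
 .e))))
 .e))))
 .e))))
 .e))))
 (.a 0 [427] (.q 364 (.a 1 [] (.d 362 361 361 362 366)
 (.a 1 [366] (.q 429 (.a 1 [] (.d 330 2345 297 2378 462)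
 (.a 1 [462] (.q 397 (.a 1 [] (.d 333 1325 301 1357 461)
 (.a 1 [301] (.d 461 1357 333 1389 493)
 (.a 0 [333,461] (.q 394 (.a 1 [] (.d 395 393 393 394 398)
 (.a 0 [393,395,398] (.r 362 361 361 (.r 330 2345 297 (.d 426 1322 298 1354 458)))
 .e)))
 .e))))
 (.a 1 [330] (.q 397 (.a 1 [] (.d 333 1325 301 1357 461)
 (.a 1 [301] (.d 461 1357 333 1389 493)
 (.a 0 [333,461] (.q 331 (.a 1 [] (.d 298 2313 265 2346 430)
 (.a 1 [265] (.d 430 2346 298 2379 463)
 (.a 0 [298,430] (.r 362 361 361 (.q 300 (.a 1 [] (.d 269 3310 238 3341 393)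
 (.a 1 [238] (.d 393 3341 269 3372 424)
 (.a 0 [269,393] (.q 398 (.a 1 [] (.d 395 394 394 395 399)
 (.a 1 [394] (.d 399 395 395 396 400)
 (.a 1 [395] (.r 332 1292 268 (.d 431 2347 299 2380 464))
 .e))))
 .e)))))
 .e))))
 .e))))
 (.a 1 [297] (.d 462 2378 330 2411 495)
 .e)))))
 (.a 1 [362] (.q 429 (.a 1 [] (.d 330 2345 297 2378 462)
 (.a 1 [297] (.d 462 2378 330 2411 495)
 (.a 0 [330,462] (.r 367 363 366 (.q 398 (.a 1 [] (.d 336 3377 305 3408 460)
 (.a 1 [305] (.d 460 3408 336 3439 491)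
 (.a 0 [336,460] (.q 397 (.a 1 [] (.d 395 394 394 395 399)
 (.a 1 [394] (.d 399 395 395 396 400)
 (.a 1 [395] (.d 333 1325 301 1357 461)
 .e))))
 .e)))))
 .e))))
 (.a 1 [361] (.d 366 362 362 363 367)
 .e)))))
 (.a 0 [429] (.q 427 (.a 1 [] (.d 334 3375 303 3406 458)
 (.a 1 [334] (.q 395 (.a 1 [] (.d 331 1323 299 1355 459)
 (.a 1 [459] (.q 398 (.a 1 [] (.d 397 394 394 395 399)
 (.a 1 [394] (.r 299 1323 331 (.d 332 2314 266 2347 431))
 .e)))
 (.a 1 [331] (.q 394 (.a 1 [] (.d 393 392 392 393 397)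
 (.a 1 [392] (.d 397 393 393 394 398)
 (.a 0 [393,397] (.q 361 (.a 1 [] (.d 328 2343 295 2376 460)
 (.a 1 [295] (.d 460 2376 328 2409 493)
 (.a 1 [328] (.r 362 361 364 (.r 458 3437 489 (.d 426 1354 330 1386 490)))
 .e))))
 .e))))
 .e))))
 (.a 1 [458] (.q 395 (.a 1 [] (.d 331 1323 299 1355 459)
 (.a 1 [299] (.d 459 1355 331 1387 491)
 (.a 0 [331,459] (.q 366 (.a 1 [] (.d 364 362 362 363 367)
 (.a 0 [362,364,367] (.q 398 (.a 1 [] (.d 397 394 394 395 399)
 (.a 1 [394] (.r 334 3375 303 (.d 430 1326 302 1358 462))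
 .e)))
 .e)))
 .e))))
 (.a 1 [303] (.d 458 3406 334 3437 489)
 .e)))))
 (.a 1 [330] (.q 364 (.a 1 [] (.d 362 361 361 362 366)
 (.a 1 [362] (.q 334 (.a 1 [] (.d 303 3344 272 3375 427)
 (.a 1 [272] (.d 427 3375 303 3406 458)
 (.a 0 [303,427] (.r 367 363 366 (.q 301 (.a 1 [] (.d 268 2283 235 2316 400)
 (.a 1 [235] (.d 400 2316 268 2349 433)
 (.a 1 [400] (.r 268 2283 235 (.r 332 1292 300 (.d 394 3342 270 3373 425)))
 (.a 0 [268] (.q 397 (.a 1 [] (.d 333 1293 269 1325 429)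
 (.a 1 [269] (.r 429 1325 333 (.r 400 2349 433 (.r 398 396 399 (.d 460 3408 336 3439 491))))
 (.a 1 [333] (.r 400 2349 433 (.r 398 396 399 (.r 394 394 395 (.d 332 3342 270 3373 425))))
 .e))))
 .e))))))
 .e))))
 (.a 1 [366] (.q 427 (.a 1 [] (.d 334 3375 303 3406 458)
 (.a 1 [303] (.d 458 3406 334 3437 489)
 (.a 0 [334,458] (.r 361 361 362 (.q 394 (.a 1 [] (.d 328 2343 295 2376 460)
 (.a 1 [295] (.d 460 2376 328 2409 493)
 (.a 0 [328,460] (.q 395 (.a 1 [] (.d 393 392 392 393 397)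
 (.a 1 [392] (.d 397 393 393 394 398)
 (.a 1 [393] (.d 331 1323 299 1355 459)
 .e))))
 .e)))))
 .e))))
 (.a 1 [361] (.d 366 362 362 363 367)
 .e)))))
 (.a 1 [334] (.q 364 (.a 1 [] (.d 362 361 361 362 366)
 (.a 1 [366] (.q 330 (.a 1 [] (.d 297 2312 264 2345 429)
 (.a 1 [264] (.d 429 2345 297 2378 462)
 (.a 0 [297,429] (.r 361 361 362 (.q 299 (.a 1 [] (.d 268 3309 237 3340 392)
 (.a 1 [237] (.d 392 3340 268 3371 423)
 (.a 1 [392] (.r 268 3309 237 (.r 332 1292 300 (.d 398 2314 266 2347 431)))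
 (.a 0 [268] (.q 395 (.a 1 [] (.d 331 1291 267 1323 427)
 (.a 1 [267] (.r 427 1323 331 (.r 392 3371 423 (.r 394 392 393 (.d 460 2376 328 2409 493))))
 (.a 1 [331] (.r 392 3371 423 (.r 394 392 393 (.r 398 394 397 (.d 332 2314 266 2347 431))))
 .e))))
 .e))))))
 .e))))
 (.a 1 [362] (.q 429 (.a 1 [] (.d 330 2345 297 2378 462)
 (.a 1 [297] (.d 462 2378 330 2411 495)
 (.a 0 [330,462] (.r 367 363 366 (.q 398 (.a 1 [] (.d 336 3377 305 3408 460)
 (.a 1 [305] (.d 460 3408 336 3439 491)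
 (.a 0 [336,460] (.q 397 (.a 1 [] (.d 395 394 394 395 399)
 (.a 1 [394] (.d 399 395 395 396 400)
 (.a 1 [395] (.d 333 1325 301 1357 461)
 .e))))
 .e)))))
 .e))))
 (.a 1 [361] (.d 366 362 362 363 367)
 .e)))))
 (.a 0 [362] (.q 427 (.a 1 [] (.d 334 3375 303 3406 458)
 (.a 1 [458] (.q 395 (.a 1 [] (.d 331 1323 299 1355 459)
 (.a 1 [459] (.q 398 (.a 1 [] (.d 397 394 394 395 399)
 (.a 1 [394] (.r 299 1323 331 (.d 332 2314 266 2347 431))
 .e)))
 (.a 1 [331] (.q 429 (.a 1 [] (.d 330 2345 297 2378 462)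
 (.a 1 [297] (.d 462 2378 330 2411 495)
 (.a 0 [330,462] (.q 394 (.a 1 [] (.d 393 392 392 393 397)
 (.a 1 [392] (.d 397 393 393 394 398)
 (.a 1 [393] (.r 397 394 398 (.d 461 1357 333 1389 493))
 (.a 0 [397] (.q 460 (.a 1 [] (.d 361 2376 328 2409 493)
 (.a 1 [328] (.d 493 2409 361 2442 526)
 (.a 1 [361] (.r 491 1387 459 (.d 522 3470 398 3501 553))
 .e))))
 .e)))))
 .e))))
 (.a 1 [299] (.d 459 1355 331 1387 491)
 .e)))))
 (.a 1 [334] (.q 395 (.a 1 [] (.d 331 1323 299 1355 459)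
 (.a 1 [299] (.d 459 1355 331 1387 491)
 (.a 0 [331,459] (.q 397 (.a 1 [] (.d 394 393 393 394 398)
 (.a 1 [393] (.d 398 394 394 395 399)
 (.a 0 [394,398] (.q 429 (.a 1 [] (.d 333 1325 301 1357 461)
 (.a 1 [301] (.d 461 1357 333 1389 493)
 (.a 1 [333] (.d 330 2345 297 2378 462)
 .e))))
 .e))))
 .e))))
 .e))))
 (.a 0 [366] (.q 429 (.a 1 [] (.d 330 2345 297 2378 462)
 (.a 1 [462] (.q 397 (.a 1 [] (.d 333 1325 301 1357 461)
 (.a 1 [461] (.q 394 (.a 1 [] (.d 395 393 393 394 398)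
 (.a 1 [393] (.r 398 394 395 (.r 301 1325 333 (.d 332 3342 270 3373 425)))
 (.a 1 [395] (.r 301 1325 333 (.d 332 3342 270 3373 425))
 .e))))
 (.a 1 [333] (.q 427 (.a 1 [] (.d 334 3375 303 3406 458)
 (.a 1 [303] (.d 458 3406 334 3437 489)
 (.a 0 [334,458] (.q 398 (.a 1 [] (.d 395 394 394 395 399)
 (.a 1 [394] (.d 399 395 395 396 400)
 (.a 1 [399] (.r 395 394 394 (.d 459 1355 331 1387 491))
 (.a 0 [395] (.q 460 (.a 1 [] (.d 367 3408 336 3439 491)
 (.a 1 [336] (.d 491 3439 367 3470 522)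
 (.a 1 [367] (.r 493 1389 461 (.d 526 2442 394 2475 559))
 .e))))
 .e)))))
 .e))))
 (.a 1 [301] (.d 461 1357 333 1389 493)
 .e)))))
 (.a 1 [330] (.q 397 (.a 1 [] (.d 333 1325 301 1357 461)
 (.a 1 [301] (.d 461 1357 333 1389 493)
 (.a 0 [333,461] (.q 395 (.a 1 [] (.d 394 393 393 394 398)
 (.a 1 [393] (.d 398 394 394 395 399)
 (.a 0 [394,398] (.q 427 (.a 1 [] (.d 331 1323 299 1355 459)
 (.a 1 [299] (.d 459 1355 331 1387 491)
 (.a 1 [331] (.d 334 3375 303 3406 458)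
 .e))))
 .e))))
 .e))))
 .e))))
 (.a 1 [458] (.q 330 (.a 1 [] (.d 297 2312 264 2345 429)
 (.a 1 [429] (.q 362 (.a 1 [] (.d 364 361 361 362 366)
 (.a 0 [361,364,366] (.q 266 (.a 1 [] (.d 298 1258 234 1290 394)
 (.a 0 [234,298,394] (.q 299 (.a 1 [] (.d 332 2281 233 2314 398)
 (.a 0 [233,332,398] (.q 267 (.a 1 [] (.d 331 1259 235 1291 395)
 (.a 1 [235] (.r 264 2312 297 (.d 265 263 263 264 268))
 .e)))
 .e)))
 .e)))
 .e)))
 (.a 1 [297] (.q 362 (.a 1 [] (.d 364 361 361 362 366)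
 (.a 0 [361,364,366] (.q 394 (.a 1 [] (.d 298 1290 266 1322 426)
 (.a 0 [266,298,426] (.q 397 (.a 1 [] (.d 395 393 393 394 398)
 (.a 1 [393] (.r 429 2378 462 (.d 461 1357 333 1389 493))
 .e)))
 .e)))
 .e)))
 .e))))
 (.a 1 [462] (.q 334 (.a 1 [] (.d 303 3344 272 3375 427)
 (.a 1 [427] (.q 366 (.a 1 [] (.d 364 362 362 363 367)
 (.a 0 [362,364,367] (.q 270 (.a 1 [] (.d 302 1262 238 1294 398)
 (.a 0 [238,302,398] (.q 301 (.a 1 [] (.d 332 3311 239 3342 394)
 (.a 0 [239,332,394] (.q 269 (.a 1 [] (.d 333 1261 237 1293 397)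
 (.a 1 [237] (.r 272 3344 303 (.d 271 268 268 269 273))
 .e)))
 .e)))
 .e)))
 .e)))
 (.a 1 [303] (.q 366 (.a 1 [] (.d 364 362 362 363 367)
 (.a 0 [362,364,367] (.q 398 (.a 1 [] (.d 302 1294 270 1326 430)
 (.a 0 [270,302,430] (.q 395 (.a 1 [] (.d 397 394 394 395 399)
 (.a 1 [394] (.r 427 3406 458 (.d 459 1355 331 1387 491))
 .e)))
 .e)))
 .e)))
 .e))))
 (.a 0 [395] (.q 330 (.a 1 [] (.d 297 2312 264 2345 429)
 (.a 0 [429] (.q 427 (.a 1 [] (.d 334 3375 303 3406 458)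
 (.a 1 [334] (.r 458 3437 489 (.q 362 (.a 1 [] (.d 364 361 361 362 366)
 (.a 1 [364] (.q 266 (.a 1 [] (.d 394 1290 298 1354 426)
 (.a 1 [426] (.d 298 1258 234 1290 394)
 (.a 0 [298,394] (.q 299 (.a 1 [] (.d 332 2281 233 2314 398)
 (.a 0 [233,332,398] (.q 359 (.a 1 [] (.r 361 359 360 (.d 392 3340 268 3371 423))
 (.a 1 [268] (.r 297 2312 264 (.d 328 3307 235 3338 390))
 .e)))
 .e)))
 .e))))
 (.a 1 [361] (.q 266 (.a 1 [] (.d 394 1290 298 1354 426)
 (.a 1 [426] (.d 298 1258 234 1290 394)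
 (.a 0 [298,394] (.q 332 (.a 1 [] (.d 299 2281 233 2314 398)
 (.a 0 [233,299,398] (.q 331 (.a 1 [] (.d 329 328 328 329 333)
 (.a 1 [328] (.r 364 362 366 (.r 300 1292 268 (.d 393 3341 269 3372 424)))
 .e)))
 .e)))
 .e))))
 (.a 1 [366] (.r 394 1354 426 (.r 361 361 364 (.d 460 2376 328 2409 493)))
 .e))))))
 (.a 1 [458] (.q 362 (.a 1 [] (.d 364 361 361 362 366)
 (.a 0 [361,364,366] (.q 266 (.a 1 [] (.d 298 1258 234 1290 394)
 (.a 0 [234,298,394] (.q 332 (.a 1 [] (.d 299 2281 233 2314 398)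
 (.a 0 [233,299,398] (.q 328 (.a 1 [] (.r 297 2312 264 (.d 359 3307 235 3338 390))
 (.a 1 [235] (.r 331 328 329 (.d 334 3375 303 330 333))
 (.a 1 [297] (.r 334 3375 303 (.d 331 328 329 330 333))
 .e))))
 .e)))
 .e)))
 .e)))
 (.a 1 [303] (.d 458 3406 334 3437 489)
 .e)))))
 (.a 0 [297] (.r 429 2378 462 (.q 362 (.a 1 [] (.d 364 361 361 362 366)
 (.a 0 [364] (.q 333 (.a 1 [] (.d 397 1325 301 1357 461)
 (.a 1 [461] (.r 301 1325 397 (.q 332 (.a 1 [] (.d 331 329 329 330 334)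
 (.a 1 [494] (.q 527 (.a 1 [] (.d 270 3311 239 3342 394)
 (.a 1 [239] (.d 394 3342 270 3373 425)
 (.a 1 [270] (.d 331 329 329 330 334)
 .e))))
 (.a 1 [527] (.q 494 (.a 1 [] (.d 331 329 329 330 334)
 (.a 1 [331] (.d 270 3311 239 3342 394)
 .e)))
 (.a 1 [331] (.d 270 3311 239 3342 394)
 .e))))))
 (.a 1 [397] (.q 334 (.a 1 [] (.d 303 3344 272 3375 427)
 (.a 1 [272] (.d 427 3375 303 3406 458)
 (.a 1 [303] (.r 332 330 331 (.r 458 3406 427 (.r 394 1354 426 (.d 425 3373 301 3404 456))))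
 (.a 0 [427] (.q 298 (.a 1 [] (.d 266 1258 234 1290 394)
 (.a 1 [234] (.d 394 1290 266 1322 426)
 (.a 1 [266] (.r 332 330 331 (.r 394 1322 426 (.d 425 3373 301 3404 456)))
 (.a 1 [394] (.r 332 330 331 (.r 266 1258 234 (.d 299 2281 233 2314 398)))
 .e)))))
 .e)))))
 (.a 1 [301] (.q 334 (.a 1 [] (.d 303 3344 272 3375 427)
 (.a 1 [272] (.d 427 3375 303 3406 458)
 (.a 1 [303] (.r 332 330 331 (.r 458 3406 427 (.r 394 1354 426 (.r 266 1290 298 (.d 299 2281 233 2314 398)))))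
 (.a 0 [427] (.q 266 (.a 1 [] (.d 298 1258 234 1290 394)
 (.a 1 [234] (.r 332 330 331 (.d 299 2281 233 2314 398))
 .e)))
 .e)))))
 .e)))))
 (.a 1 [361] (.q 394 (.a 1 [] (.d 298 1290 266 1322 426)
 (.a 1 [266] (.d 426 1322 298 1354 458)
 (.a 1 [298] (.r 458 1354 426 (.d 427 3406 334 3437 489))
 (.a 0 [426] (.q 332 (.a 1 [] (.d 301 3342 270 3373 425)
 (.a 1 [270] (.d 425 3373 301 3404 456)
 (.a 1 [301] (.r 266 1290 298 (.d 299 2281 233 2314 398))
 .e))))
 .e)))))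
 .e)))))
 (.a 1 [264] (.d 429 2345 297 2378 462)
 .e)))))
 (.a 0 [397] (.q 330 (.a 1 [] (.d 297 2312 264 2345 429)
 (.a 1 [429] (.q 427 (.a 1 [] (.d 334 3375 303 3406 458)
 (.a 1 [334] (.q 362 (.a 1 [] (.d 364 361 361 362 366)
 (.a 1 [366] (.r 361 361 364 (.r 458 3437 489 (.r 394 1354 426 (.d 460 2376 328 2409 493))))
 (.a 0 [361,364] (.q 331 (.a 1 [] (.d 395 1323 299 1355 459)
 (.a 1 [299] (.r 458 3437 489 (.r 394 1354 426 (.r 395 1355 459 (.r 393 392 392 (.d 424 3372 300 3403 455)))))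
 (.a 1 [459] (.r 299 1323 395 (.r 458 3437 489 (.r 394 1354 426 (.r 266 1290 298 (.d 332 2281 233 2314 398)))))
 (.a 0 [395] (.q 329 (.a 1 [] (.d 328 327 327 328 332)
 (.a 1 [327] (.d 332 328 328 329 333)
 (.a 0 [328,332] (.q 300 (.a 1 [] (.d 269 3310 238 3341 393)
 (.a 1 [238] (.d 393 3341 269 3372 424)
 (.a 0 [269,393] (.q 298 (.a 1 [] (.d 266 1258 234 1290 394)
 (.a 1 [234] (.d 394 1290 266 1322 426)
 (.a 1 [266] (.r 297 2312 264 (.d 299 296 296 297 301))
 .e))))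
 .e))))
 .e))))
 .e)))))
 .e))))
 (.a 1 [458] (.q 331 (.a 1 [] (.d 395 1323 299 1355 459)
 (.a 1 [459] (.r 299 1323 395 (.r 334 3375 303 (.r 332 330 333 (.d 398 2314 266 2347 431))))
 (.a 0 [299,395] (.q 362 (.a 1 [] (.d 364 361 361 362 366)
 (.a 1 [361] (.r 334 3375 303 (.r 332 330 333 (.r 364 362 366 (.r 300 1292 268 (.d 393 3341 269 3372 424)))))
 (.a 1 [366] (.r 361 361 364 (.r 334 3375 303 (.r 332 330 333 (.r 328 328 329 (.d 394 2343 295 2376 460)))))
 (.a 0 [364] (.q 298 (.a 1 [] (.d 266 1258 234 1290 394)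
 (.a 1 [234] (.d 394 1290 266 1322 426)
 (.a 0 [266,394] (.q 393 (.a 1 [] (.d 300 3341 269 3372 424)
 (.a 1 [269] (.d 424 3372 300 3403 455)
 (.a 0 [300,424] (.q 329 (.a 1 [] (.d 328 327 327 328 332)
 (.a 1 [327] (.d 332 328 328 329 333)
 (.a 1 [328] (.r 297 2312 264 (.d 361 1289 265 1321 425))
 .e))))
 .e))))
 .e))))
 .e)))))
 .e))))
 .e))))
 (.a 1 [297] (.q 427 (.a 1 [] (.d 334 3375 303 3406 458)
 (.a 1 [334] (.q 459 (.a 1 [] (.d 395 1355 331 1387 491)
 (.a 0 [331,395,491] (.q 362 (.a 1 [] (.d 364 361 361 362 366)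
 (.a 1 [361] (.r 458 3437 489 (.r 394 1354 426 (.r 462 2378 429 (.r 460 458 461 (.r 456 456 457 (.d 425 3404 332 3435 487))))))
 (.a 1 [364] (.r 458 3437 489 (.r 394 1354 426 (.r 462 2378 429 (.r 460 458 461 (.d 493 2409 361 2442 526)))))
 .e))))
 .e)))
 (.a 1 [458] (.q 366 (.a 1 [] (.d 364 362 362 363 367)
 (.a 0 [362,364,367] (.q 331 (.a 1 [] (.d 395 1323 299 1355 459)
 (.a 1 [299] (.r 334 3375 303 (.r 332 330 333 (.r 462 2378 429 (.r 398 1358 430 (.r 270 1294 302 (.d 301 3311 239 3342 394))))))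
 (.a 1 [395] (.r 334 3375 303 (.r 332 330 333 (.r 462 2378 429 (.r 398 1358 430 (.d 431 2347 299 2380 464)))))
 .e))))
 .e)))
 .e))))
 (.a 1 [264] (.d 429 2345 297 2378 462)
 .e)))))
 (.a 0 [394] (.q 429 (.a 1 [] (.d 330 2345 297 2378 462)
 (.a 0 [462] (.q 364 (.a 1 [] (.d 362 361 361 362 366)
 (.a 1 [366] (.q 397 (.a 1 [] (.d 333 1325 301 1357 461)
 (.a 1 [333] (.q 430 (.a 1 [] (.d 331 2346 298 2379 463)
 (.a 1 [298] (.d 463 2379 331 2412 496)
 (.a 0 [331,463] (.q 399 (.a 1 [] (.d 398 395 395 396 400)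
 (.a 1 [395] (.r 461 1389 493 (.d 492 3440 368 3471 523))
 .e)))
 .e))))
 (.a 1 [461] (.q 395 (.a 1 [] (.r 333 1325 301 (.d 426 3374 302 3405 457))
 (.a 1 [457] (.r 333 1325 301 (.d 302 3343 271 3374 426))
 (.a 0 [301,302,333,426] (.q 427 (.a 1 [] (.d 331 1323 299 1355 459)
 (.a 1 [299] (.d 459 1355 331 1387 491)
 (.a 1 [331] (.d 334 3375 303 3406 458)
 .e))))
 .e))))
 .e))))
 (.a 1 [362] (.q 334 (.a 1 [] (.d 303 3344 272 3375 427)
 (.a 1 [272] (.d 427 3375 303 3406 458)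
 (.a 0 [303,427] (.q 333 (.a 1 [] (.d 397 1325 301 1357 461)
 (.a 1 [461] (.r 330 2345 297 (.r 332 330 331 (.r 301 1325 397 (.r 268 1292 300 (.d 367 363 366 2316 400)))))
 (.a 0 [301,397] (.q 302 (.a 1 [] (.d 271 3312 240 3343 395)
 (.a 1 [240] (.d 395 3343 271 3374 426)
 (.a 1 [271] (.r 366 363 367 (.d 398 1294 270 1326 430))
 .e))))
 .e))))
 .e))))
 (.a 1 [361] (.d 366 362 362 363 367)
 .e)))))
 (.a 1 [330] (.q 397 (.a 1 [] (.d 333 1325 301 1357 461)
 (.a 1 [301] (.d 461 1357 333 1389 493)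
 (.a 0 [333,461] (.q 334 (.a 1 [] (.d 303 3344 272 3375 427)
 (.a 1 [272] (.d 427 3375 303 3406 458)
 (.a 0 [303,427] (.q 398 (.a 1 [] (.d 399 395 395 396 400)
 (.a 1 [395] (.r 462 2411 495 (.r 366 1358 430 (.d 364 362 362 363 367)))
 .e)))
 .e))))
 .e))))
 .e))))
 (.a 0 [398] (.q 427 (.a 1 [] (.d 334 3375 303 3406 458)
 (.a 1 [458] (.q 395 (.a 1 [] (.d 331 1323 299 1355 459)
 (.a 1 [459] (.q 330 (.a 1 [] (.d 297 2312 264 2345 429)
 (.a 1 [264] (.d 429 2345 297 2378 462)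
 (.a 0 [297,429] (.q 362 (.a 1 [] (.d 364 361 361 362 366)
 (.a 1 [366] (.r 361 361 364 (.r 299 1323 331 (.d 392 3340 268 3371 423)))
 (.a 0 [361,364] (.q 394 (.a 1 [] (.d 393 392 392 393 397)
 (.a 1 [392] (.d 298 1290 266 1322 426)
 .e)))
 .e))))
 .e))))
 (.a 1 [331] (.q 364 (.a 1 [] (.d 362 361 361 362 366)
 (.a 1 [361] (.d 366 362 362 363 367)
 (.a 0 [362,366] (.q 426 (.a 1 [] (.d 333 3374 302 3405 457)
 (.a 1 [302] (.d 457 3405 333 3436 488)
 (.a 0 [333,457] (.q 393 (.a 1 [] (.d 394 392 392 393 397)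
 (.a 1 [392] (.r 459 1387 491 (.d 492 2408 360 2441 525))
 .e)))
 .e))))
 .e))))
 .e))))
 (.a 1 [334] (.q 395 (.a 1 [] (.d 331 1323 299 1355 459)
 (.a 1 [299] (.d 459 1355 331 1387 491)
 (.a 0 [331,459] (.q 330 (.a 1 [] (.d 297 2312 264 2345 429)
 (.a 1 [264] (.d 429 2345 297 2378 462)
 (.a 0 [297,429] (.q 394 (.a 1 [] (.d 393 392 392 393 397)
 (.a 1 [392] (.r 458 3437 489 (.r 362 1354 426 (.d 364 361 361 362 366)))
 .e)))
 .e))))
 .e))))
 .e))))
 (.a 0 [426] (.q 427 (.a 1 [] (.d 334 3375 303 3406 458)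
 (.a 1 [458] (.q 395 (.a 1 [] (.d 331 1323 299 1355 459)
 (.a 1 [459] (.q 398 (.a 1 [] (.d 397 394 394 395 399)
 (.a 1 [394] (.r 299 1323 331 (.d 332 2314 266 2347 431))
 .e)))
 (.a 1 [331] (.q 394 (.a 1 [] (.d 393 392 392 393 397)
 (.a 1 [392] (.d 397 393 393 394 398)
 (.a 0 [393,397] (.q 361 (.a 1 [] (.d 328 2343 295 2376 460)
 (.a 1 [295] (.d 460 2376 328 2409 493)
 (.a 0 [328,460] (.q 330 (.a 1 [] (.d 297 2312 264 2345 429)
 (.a 1 [264] (.d 429 2345 297 2378 462)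
 (.a 0 [297,429] (.q 332 (.a 1 [] (.d 301 3342 270 3373 425)
 (.a 1 [270] (.d 425 3373 301 3404 456)
 (.a 0 [301,425] (.q 299 (.a 1 [] (.d 266 2281 233 2314 398)
 (.a 1 [233] (.d 392 3340 268 3371 423)
 .e)))
 .e))))
 .e))))
 .e))))
 .e))))
 (.a 1 [299] (.d 459 1355 331 1387 491)
 .e)))))
 (.a 1 [334] (.q 395 (.a 1 [] (.d 331 1323 299 1355 459)
 (.a 1 [299] (.d 459 1355 331 1387 491)
 (.a 0 [331,459] (.q 397 (.a 1 [] (.d 394 393 393 394 398)
 (.a 1 [393] (.d 398 394 394 395 399)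
 (.a 0 [394,398] (.q 429 (.a 1 [] (.d 333 1325 301 1357 461)
 (.a 1 [301] (.d 461 1357 333 1389 493)
 (.a 1 [333] (.d 330 2345 297 2378 462)
 .e))))
 .e))))
 .e))))
 .e))))
 (.a 0 [430] (.q 429 (.a 1 [] (.d 330 2345 297 2378 462)
 (.a 1 [462] (.q 397 (.a 1 [] (.d 333 1325 301 1357 461)
 (.a 1 [461] (.q 394 (.a 1 [] (.d 395 393 393 394 398)
 (.a 1 [393] (.r 398 394 395 (.r 301 1325 333 (.d 332 3342 270 3373 425)))
 (.a 1 [395] (.r 301 1325 333 (.d 332 3342 270 3373 425))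
 .e))))
 (.a 1 [333] (.q 398 (.a 1 [] (.d 395 394 394 395 399)
 (.a 1 [394] (.d 399 395 395 396 400)
 (.a 0 [395,399] (.q 367 (.a 1 [] (.d 336 3377 305 3408 460)
 (.a 1 [305] (.d 460 3408 336 3439 491)
 (.a 0 [336,460] (.q 334 (.a 1 [] (.d 303 3344 272 3375 427)
 (.a 1 [272] (.d 427 3375 303 3406 458)
 (.a 0 [303,427] (.q 332 (.a 1 [] (.d 299 2314 266 2347 431)
 (.a 1 [266] (.d 431 2347 299 2380 464)
 (.a 0 [299,431] (.q 301 (.a 1 [] (.d 268 2283 235 2316 400)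
 (.a 1 [235] (.d 394 3342 270 3373 425)
 .e)))
 .e))))
 .e))))
 .e))))
 .e))))
 (.a 1 [301] (.d 461 1357 333 1389 493)
 .e)))))
 (.a 1 [330] (.q 397 (.a 1 [] (.d 333 1325 301 1357 461)
 (.a 1 [301] (.d 461 1357 333 1389 493)
 (.a 0 [333,461] (.q 395 (.a 1 [] (.d 394 393 393 394 398)
 (.a 1 [393] (.d 398 394 394 395 399)
 (.a 0 [394,398] (.q 427 (.a 1 [] (.d 331 1323 299 1355 459)
 (.a 1 [299] (.d 459 1355 331 1387 491)
 (.a 1 [331] (.d 334 3375 303 3406 458)
 .e))))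
 .e))))
 .e))))
 .e))))
 (.a 1 [460] (.q 364 (.a 1 [] (.d 362 361 361 362 366)
 (.a 1 [362] (.q 429 (.a 1 [] (.d 330 2345 297 2378 462)
 (.a 1 [297] (.d 462 2378 330 2411 495)
 (.a 0 [330,462] (.q 334 (.a 1 [] (.d 303 3344 272 3375 427)
 (.a 1 [272] (.d 427 3375 303 3406 458)
 (.a 0 [303,427] (.q 333 (.a 1 [] (.d 397 1325 301 1357 461)
 (.a 1 [461] (.r 301 1325 397 (.r 367 363 366 (.d 400 2316 268 2349 433)))
 (.a 0 [301,397] (.q 302 (.a 1 [] (.d 271 3312 240 3343 395)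
 (.a 1 [240] (.d 395 3343 271 3374 426)
 (.a 1 [271] (.r 366 363 367 (.d 398 1294 270 1326 430))
 .e))))
 .e))))
 .e))))
 .e))))
 (.a 1 [366] (.q 427 (.a 1 [] (.d 334 3375 303 3406 458)
 (.a 1 [303] (.d 458 3406 334 3437 489)
 (.a 0 [334,458] (.q 330 (.a 1 [] (.d 297 2312 264 2345 429)
 (.a 1 [264] (.d 429 2345 297 2378 462)
 (.a 0 [297,429] (.q 331 (.a 1 [] (.d 395 1323 299 1355 459)
 (.a 1 [459] (.r 299 1323 395 (.r 361 361 362 (.d 392 3340 268 3371 423)))
 (.a 0 [299,395] (.q 298 (.a 1 [] (.d 265 2280 232 2313 397)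
 (.a 1 [232] (.d 397 2313 265 2346 430)
 (.a 1 [265] (.r 362 361 361 (.d 394 1290 266 1322 426))
 .e))))
 .e))))
 .e))))
 .e))))
 (.a 1 [361] (.d 366 362 362 363 367)
 .e)))))
 (.a 1 [332] (.q 429 (.a 1 [] (.d 330 2345 297 2378 462)
 (.a 1 [297] (.d 462 2378 330 2411 495)
 (.a 0 [330,462] (.q 334 (.a 1 [] (.d 303 3344 272 3375 427)
 (.a 1 [272] (.d 427 3375 303 3406 458)
 (.a 0 [303,427] (.q 366 (.a 1 [] (.d 364 362 362 363 367)
 (.a 0 [362,364,367] (.q 398 (.a 1 [] (.d 302 1294 270 1326 430)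
 (.a 0 [270,302,430] (.q 397 (.a 1 [] (.d 395 394 394 395 399)
 (.a 1 [394] (.d 399 395 395 396 400)
 (.a 1 [395] (.d 333 1325 301 1357 461)
 .e))))
 .e)))
 .e)))
 .e))))
 .e))))
 (.a 1 [361] (.q 427 (.a 1 [] (.d 334 3375 303 3406 458)
 (.a 1 [303] (.d 458 3406 334 3437 489)
 (.a 0 [334,458] (.q 395 (.a 1 [] (.d 331 1323 299 1355 459)
 (.a 1 [299] (.d 459 1355 331 1387 491)
 (.a 0 [331,459] (.q 397 (.a 1 [] (.d 394 393 393 394 398)
 (.a 1 [393] (.d 398 394 394 395 399)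
 (.a 0 [394,398] (.q 429 (.a 1 [] (.d 333 1325 301 1357 461)
 (.a 1 [301] (.d 461 1357 333 1389 493)
 (.a 1 [333] (.d 330 2345 297 2378 462)
 .e))))
 .e))))
 .e))))
 .e))))
 (.a 1 [299] (.q 429 (.a 1 [] (.d 330 2345 297 2378 462)
 (.a 1 [297] (.d 462 2378 330 2411 495)
 (.a 0 [330,462] (.q 397 (.a 1 [] (.d 333 1325 301 1357 461)
 (.a 1 [301] (.d 461 1357 333 1389 493)
 (.a 0 [333,461] (.q 395 (.a 1 [] (.d 394 393 393 394 398)
 (.a 1 [393] (.d 398 394 394 395 399)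
 (.a 0 [394,398] (.q 427 (.a 1 [] (.d 459 1355 331 1387 491)
 (.a 1 [331] (.d 458 3406 334 3437 489)
 .e)))
 .e))))
 .e))))
 .e))))
 (.a 1 [301] (.q 427 (.a 1 [] (.d 334 3375 303 3406 458)
 (.a 1 [303] (.d 458 3406 334 3437 489)
 (.a 0 [334,458] (.q 395 (.a 1 [] (.d 331 1323 299 1355 459)
 (.a 1 [299] (.d 459 1355 331 1387 491)
 (.a 0 [331,459] (.q 397 (.a 1 [] (.d 394 393 393 394 398)
 (.a 1 [393] (.d 398 394 394 395 399)
 (.a 0 [394,398] (.q 429 (.a 1 [] (.d 461 1357 333 1389 493)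
 (.a 1 [333] (.d 462 2378 330 2411 495)
 .e)))
 .e))))
 .e))))
 .e))))
 (.a 1 [331] (.q 429 (.a 1 [] (.d 330 2345 297 2378 462)
 (.a 1 [297] (.d 462 2378 330 2411 495)
 (.a 0 [330,462] (.q 334 (.a 1 [] (.d 303 3344 272 3375 427)
 (.a 1 [272] (.d 427 3375 303 3406 458)
 (.a 0 [303,427] (.q 366 (.a 1 [] (.d 364 362 362 363 367)
 (.a 0 [362,364,367] (.q 398 (.a 1 [] (.d 302 1294 270 1326 430)
 (.a 0 [270,302,430] (.q 397 (.a 1 [] (.d 395 394 394 395 399)
 (.a 1 [394] (.d 399 395 395 396 400)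
 (.a 1 [395] (.d 333 1325 301 1357 461)
 .e))))
 .e)))
 .e)))
 .e))))
 .e))))
 (.a 1 [333] (.q 427 (.a 1 [] (.d 334 3375 303 3406 458)
 (.a 1 [303] (.d 458 3406 334 3437 489)
 (.a 0 [334,458] (.q 330 (.a 1 [] (.d 297 2312 264 2345 429)
 (.a 1 [264] (.d 429 2345 297 2378 462)
 (.a 0 [297,429] (.q 362 (.a 1 [] (.d 364 361 361 362 366)
 (.a 0 [361,364,366] (.q 394 (.a 1 [] (.d 298 1290 266 1322 426)
 (.a 0 [266,298,426] (.q 395 (.a 1 [] (.d 393 392 392 393 397)
 (.a 1 [392] (.d 397 393 393 394 398)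
 (.a 1 [393] (.d 331 1323 299 1355 459)
 .e))))
 .e)))
 .e)))
 .e))))
 .e))))
 (.a 1 [459] (.q 429 (.a 1 [] (.d 330 2345 297 2378 462)
 (.a 1 [297] (.d 462 2378 330 2411 495)
 (.a 0 [330,462] (.q 366 (.a 1 [] (.d 364 362 362 363 367)
 (.a 0 [362,364,367] (.q 334 (.a 1 [] (.d 303 3344 272 3375 427)
 (.a 1 [272] (.d 427 3375 303 3406 458)
 (.a 0 [303,427] (.q 398 (.a 1 [] (.d 302 1294 270 1326 430)
 (.a 0 [270,302,430] (.q 397 (.a 1 [] (.d 395 394 394 395 399)
 (.a 1 [394] (.d 399 395 395 396 400)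
 (.a 1 [395] (.d 333 1325 301 1357 461)
 .e))))
 .e)))
 .e))))
 .e)))
 .e))))
 (.a 1 [399] (.q 429 (.a 1 [] (.d 330 2345 297 2378 462)
 (.a 1 [297] (.d 462 2378 330 2411 495)
 (.a 0 [330,462] (.q 397 (.a 1 [] (.d 333 1325 301 1357 461)
 (.a 1 [301] (.d 461 1357 333 1389 493)
 (.a 0 [333,461] (.q 395 (.a 1 [] (.d 394 393 393 394 398)
 (.a 0 [393,394,398] (.q 427 (.a 1 [] (.d 331 1323 299 1355 459)
 (.a 1 [299] (.d 459 1355 331 1387 491)
 (.a 1 [331] (.d 334 3375 303 3406 458)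
 .e))))
 .e)))
 .e))))
 .e))))
 (.a 1 [491] (.q 429 (.a 1 [] (.d 330 2345 297 2378 462)
 (.a 1 [297] (.d 462 2378 330 2411 495)
 (.a 0 [330,462] (.q 397 (.a 1 [] (.d 333 1325 301 1357 461)
 (.a 1 [301] (.d 461 1357 333 1389 493)
 (.a 0 [333,461] (.q 395 (.a 1 [] (.d 394 393 393 394 398)
 (.a 1 [393] (.d 398 394 394 395 399)
 (.a 0 [394,398] (.q 427 (.a 1 [] (.d 331 1323 299 1355 459)
 (.a 1 [299] (.d 458 3406 334 3437 489)
 .e)))
 .e))))
 .e))))
 .e))))
 (.a 1 [329] (.q 427 (.a 1 [] (.d 334 3375 303 3406 458)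
 (.a 1 [303] (.d 458 3406 334 3437 489)
 (.a 0 [334,458] (.q 395 (.a 1 [] (.d 331 1323 299 1355 459)
 (.a 1 [299] (.d 459 1355 331 1387 491)
 (.a 0 [331,459] (.q 397 (.a 1 [] (.d 394 393 393 394 398)
 (.a 1 [393] (.d 398 394 394 395 399)
 (.a 0 [394,398] (.q 429 (.a 1 [] (.d 333 1325 301 1357 461)
 (.a 1 [301] (.d 461 1357 333 1389 493)
 (.a 1 [333] (.d 330 2345 297 2378 462)
 .e))))
 .e))))
 .e))))
 .e))))
 .e))))))))))))))))))))))))))) (by decide +kernel)

theorem r429 : S (Nat.lor X2 (bits [531, 429])) := S.of (.q 364 (.a 1 [] (.q 365 (.a 1 [] (.d 362 361 361 362 366)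
 (.a 1 [361] (.d 366 362 362 363 367)
 (.a 0 [362,366] (.q 332 (.a 1 [] (.d 300 1292 268 1324 428)
 (.a 1 [268] (.d 428 1324 300 1356 460)
 (.a 0 [300,428] (.q 427 (.a 1 [] (.d 334 3375 303 3406 458)
 (.a 1 [303] (.d 458 3406 334 3437 489)
 (.a 0 [334,458] (.q 394 (.a 1 [] (.d 301 3342 270 3373 425)
 (.a 1 [270] (.d 425 3373 301 3404 456)
 (.a 0 [301,425] (.q 395 (.a 1 [] (.d 393 392 392 393 397)
 (.a 1 [392] (.d 397 393 393 394 398)
 (.a 1 [393] (.d 331 1323 299 1355 459)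
 .e))))
 .e))))
 .e))))
 .e))))
 .e))))
 (.a 0 [365] (.q 332 (.a 1 [] (.d 300 1292 268 1324 428)
 (.a 1 [428] (.q 301 (.a 1 [] (.d 270 3311 239 3342 394)
 (.a 1 [394] (.r 268 1292 300 (.q 334 (.a 1 [] (.d 235 2250 202 2283 367)
 (.a 1 [202] (.d 367 2283 235 2316 400)
 (.a 0 [235,367] (.q 333 (.a 1 [] (.d 331 330 330 331 335)
 (.a 1 [330] (.d 335 331 331 332 336)
 (.a 0 [331,335] (.q 271 (.a 1 [] (.d 302 3312 240 3343 395)
 (.a 1 [240] (.r 270 3311 239 (.d 269 267 267 268 272))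
 .e)))
 .e))))
 .e)))))
 (.a 1 [270] (.r 268 1292 300 (.q 334 (.a 1 [] (.d 235 2250 202 2283 367)
 (.a 1 [202] (.d 367 2283 235 2316 400)
 (.a 0 [235,367] (.q 331 (.a 1 [] (.d 333 330 330 331 335)
 (.a 0 [330,333,335] (.q 397 (.a 1 [] (.d 298 2313 265 2346 430)
 (.a 1 [265] (.d 430 2346 298 2379 463)
 (.a 1 [298] (.r 394 3373 425 (.d 395 393 393 394 398))
 .e))))
 .e)))
 .e)))))
 (.a 1 [239] (.d 394 3342 270 3373 425)
 .e)))))
 (.a 1 [300] (.q 394 (.a 1 [] (.d 301 3342 270 3373 425)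
 (.a 1 [270] (.d 425 3373 301 3404 456)
 (.a 0 [301,425] (.q 397 (.a 1 [] (.d 395 393 393 394 398)
 (.a 0 [393,395,398] (.q 298 (.a 1 [] (.d 331 2313 265 2346 430)
 (.a 0 [265,331,430] (.q 362 (.a 1 [] (.d 330 1290 266 1322 426)
 (.a 0 [266,330,426] (.r 361 360 360 (.r 460 1356 428 (.d 427 2376 328 2409 493)))
 .e)))
 .e)))
 .e)))
 .e))))
 .e))))
 (.a 0 [332] (.q 365 (.a 1 [] (.d 362 361 361 362 366)
 (.a 0 [362] (.q 427 (.a 1 [] (.d 334 3375 303 3406 458)
 (.a 1 [334] (.q 395 (.a 1 [] (.d 331 1323 299 1355 459)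
 (.a 1 [331] (.q 333 (.a 1 [] (.d 302 3343 271 3374 426)
 (.a 1 [271] (.d 426 3374 302 3405 457)
 (.a 0 [302,426] (.r 366 363 367 (.r 459 1387 491 (.q 460 (.a 1 [] (.r 458 3437 489 (.d 461 457 457 458 462))
 (.a 1 [457] (.r 428 1388 492 (.d 397 3407 335 3438 490))
 .e)))))
 .e))))
 (.a 1 [459] (.q 397 (.a 1 [] (.d 394 393 393 394 398)
 (.a 1 [393] (.d 398 394 394 395 399)
 (.a 1 [394] (.r 331 1323 299 (.d 430 2346 298 2379 463))
 .e))))
 .e))))
 (.a 1 [458] (.q 395 (.a 1 [] (.d 331 1323 299 1355 459)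
 (.a 1 [299] (.d 459 1355 331 1387 491)
 (.a 0 [331,459] (.q 398 (.a 1 [] (.d 397 394 394 395 399)
 (.a 0 [394,397,399] (.q 426 (.a 1 [] (.d 333 3374 302 3405 457)
 (.a 1 [302] (.d 457 3405 333 3436 488)
 (.a 0 [333,457] (.r 366 363 367 (.r 334 3375 303 (.d 430 1326 302 1358 462)))
 .e))))
 .e)))
 .e))))
 (.a 1 [303] (.d 458 3406 334 3437 489)
 .e)))))
 (.a 1 [366] (.q 427 (.a 1 [] (.d 334 3375 303 3406 458)
 (.a 1 [303] (.d 458 3406 334 3437 489)
 (.a 0 [334,458] (.r 361 361 362 (.q 394 (.a 1 [] (.d 328 2343 295 2376 460)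
 (.a 1 [295] (.d 460 2376 328 2409 493)
 (.a 0 [328,460] (.q 395 (.a 1 [] (.d 393 392 392 393 397)
 (.a 1 [392] (.d 397 393 393 394 398)
 (.a 1 [393] (.d 331 1323 299 1355 459)
 .e))))
 .e)))))
 .e))))
 (.a 1 [361] (.d 366 362 362 363 367)
 .e)))))
 (.a 0 [428] (.q 365 (.a 1 [] (.d 362 361 361 362 366)
 (.a 1 [362] (.q 427 (.a 1 [] (.d 334 3375 303 3406 458)
 (.a 1 [458] (.q 395 (.a 1 [] (.d 331 1323 299 1355 459)
 (.a 1 [299] (.d 459 1355 331 1387 491)
 (.a 0 [331,459] (.q 398 (.a 1 [] (.d 397 394 394 395 399)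
 (.a 0 [394,397,399] (.r 366 363 367 (.r 334 3375 303 (.d 430 1326 302 1358 462)))
 .e)))
 .e))))
 (.a 1 [334] (.q 395 (.a 1 [] (.d 331 1323 299 1355 459)
 (.a 1 [299] (.d 459 1355 331 1387 491)
 (.a 0 [331,459] (.q 333 (.a 1 [] (.d 302 3343 271 3374 426)
 (.a 1 [271] (.d 426 3374 302 3405 457)
 (.a 0 [302,426] (.r 366 363 367 (.q 300 (.a 1 [] (.d 267 2282 234 2315 399)
 (.a 1 [234] (.d 399 2315 267 2348 432)
 (.a 0 [267,399] (.q 394 (.a 1 [] (.d 393 392 392 393 397)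
 (.a 1 [392] (.d 397 393 393 394 398)
 (.a 1 [393] (.r 332 1292 268 (.d 425 3373 301 3404 456))
 .e))))
 .e)))))
 .e))))
 .e))))
 (.a 1 [303] (.d 458 3406 334 3437 489)
 .e)))))
 (.a 1 [366] (.q 427 (.a 1 [] (.d 334 3375 303 3406 458)
 (.a 1 [303] (.d 458 3406 334 3437 489)
 (.a 0 [334,458] (.r 361 361 362 (.q 394 (.a 1 [] (.d 328 2343 295 2376 460)
 (.a 1 [295] (.d 460 2376 328 2409 493)
 (.a 0 [328,460] (.q 395 (.a 1 [] (.d 393 392 392 393 397)
 (.a 1 [392] (.d 397 393 393 394 398)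
 (.a 1 [393] (.d 331 1323 299 1355 459)
 .e))))
 .e)))))
 .e))))
 (.a 1 [361] (.d 366 362 362 363 367)
 .e)))))
 (.a 0 [395] (.q 365 (.a 1 [] (.d 362 361 361 362 366)
 (.a 0 [362] (.q 428 (.a 1 [] (.d 332 1324 300 1356 460)
 (.a 1 [332] (.r 366 363 367 (.q 397 (.a 1 [] (.d 335 3376 304 3407 459)
 (.a 1 [335] (.q 331 (.a 1 [] (.d 298 2313 265 2346 430)
 (.a 1 [265] (.d 430 2346 298 2379 463)
 (.a 0 [298,430] (.q 458 (.a 1 [] (.d 427 3406 334 3437 489)
 (.a 0 [334,427,489] (.r 460 1388 492 (.r 459 3438 490 (.d 461 457 457 458 462)))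
 .e)))
 .e))))
 (.a 1 [459] (.q 430 (.a 1 [] (.d 331 2346 298 2379 463)
 (.a 1 [298] (.d 463 2379 331 2412 496)
 (.a 0 [331,463] (.q 334 (.a 1 [] (.d 398 1326 302 1358 462)
 (.a 1 [302] (.d 427 3375 303 3406 458)
 .e)))
 .e))))
 .e)))))
 (.a 1 [460] (.r 332 1324 300 (.q 398 (.a 1 [] (.d 299 2314 266 2347 431)
 (.a 1 [266] (.d 431 2347 299 2380 464)
 (.a 0 [299,431] (.q 334 (.a 1 [] (.d 303 3344 272 3375 427)
 (.a 1 [272] (.d 427 3375 303 3406 458)
 (.a 1 [303] (.r 366 363 367 (.d 430 1326 302 1358 462))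
 .e))))
 .e)))))
 (.a 1 [300] (.d 460 1356 332 1388 492)
 .e)))))
 (.a 1 [366] (.q 332 (.a 1 [] (.d 300 1292 268 1324 428)
 (.a 1 [268] (.d 428 1324 300 1356 460)
 (.a 0 [300,428] (.q 427 (.a 1 [] (.d 334 3375 303 3406 458)
 (.a 1 [303] (.d 458 3406 334 3437 489)
 (.a 0 [334,458] (.q 394 (.a 1 [] (.d 301 3342 270 3373 425)
 (.a 1 [270] (.d 425 3373 301 3404 456)
 (.a 1 [301] (.r 361 361 362 (.d 460 2376 328 2409 493))
 .e))))
 .e))))
 .e))))
 (.a 1 [361] (.d 366 362 362 363 367)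
 .e)))))
 (.a 1 [366] (.q 300 (.a 1 [] (.d 332 1292 268 1324 428)
 (.a 1 [332] (.q 362 (.a 1 [] (.d 361 360 360 361 365)
 (.a 0 [360,361,365] (.q 331 (.a 1 [] (.d 269 3310 238 3341 393)
 (.a 1 [238] (.d 393 3341 269 3372 424)
 (.a 0 [269,393] (.q 397 (.a 1 [] (.d 298 2313 265 2346 430)
 (.a 1 [265] (.d 430 2346 298 2379 463)
 (.a 0 [298,430] (.q 395 (.a 1 [] (.d 398 394 394 395 399)
 (.a 1 [394] (.d 427 1323 299 1355 459)
 .e)))
 .e))))
 .e))))
 .e)))
 (.a 1 [428] (.q 362 (.a 1 [] (.d 361 360 360 361 365)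
 (.a 0 [360,361,365] (.q 331 (.a 1 [] (.d 269 3310 238 3341 393)
 (.a 1 [238] (.d 393 3341 269 3372 424)
 (.a 0 [269,393] (.q 299 (.a 1 [] (.d 267 1259 235 1291 395)
 (.a 1 [235] (.d 395 1291 267 1323 427)
 (.a 0 [267,395] (.q 298 (.a 1 [] (.d 297 296 296 297 301)
 (.a 1 [296] (.d 301 297 297 298 302)
 (.a 1 [297] (.d 265 2280 232 2313 397)
 .e))))
 .e))))
 .e))))
 .e)))
 (.a 1 [268] (.q 362 (.a 1 [] (.d 361 360 360 361 365)
 (.a 0 [360,361,365] (.q 331 (.a 1 [] (.d 269 3310 238 3341 393)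
 (.a 1 [238] (.d 393 3341 269 3372 424)
 (.a 0 [269,393] (.q 395 (.a 1 [] (.d 299 1291 267 1323 427)
 (.a 1 [267] (.d 427 1323 299 1355 459)
 (.a 1 [299] (.r 428 1324 332 (.d 461 2377 329 2410 494))
 .e))))
 .e))))
 .e)))
 .e)))))
 (.a 0 [397] (.q 365 (.a 1 [] (.d 362 361 361 362 366)
 (.a 1 [362] (.q 332 (.a 1 [] (.d 300 1292 268 1324 428)
 (.a 1 [428] (.q 427 (.a 1 [] (.d 334 3375 303 3406 458)
 (.a 1 [303] (.d 458 3406 334 3437 489)
 (.a 0 [334,458] (.q 395 (.a 1 [] (.d 331 1323 299 1355 459)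
 (.a 1 [299] (.d 459 1355 331 1387 491)
 (.a 1 [459] (.r 299 1323 331 (.d 398 2314 266 2347 431))
 (.a 0 [331] (.q 394 (.a 1 [] (.d 301 3342 270 3373 425)
 (.a 1 [270] (.d 425 3373 301 3404 456)
 (.a 0 [301,425] (.q 299 (.a 1 [] (.d 266 2281 233 2314 398)
 (.a 1 [233] (.d 398 2314 266 2347 431)
 (.a 0 [266,398] (.q 361 (.a 1 [] (.d 328 2343 295 2376 460)
 (.a 1 [295] (.d 460 2376 328 2409 493)
 (.a 1 [328] (.r 268 1292 300 (.d 330 3309 237 3340 392))
 .e))))
 .e))))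
 .e))))
 .e)))))
 .e))))
 (.a 1 [300] (.q 299 (.a 1 [] (.d 266 2281 233 2314 398)
 (.a 1 [233] (.d 398 2314 266 2347 431)
 (.a 0 [266,398] (.q 331 (.a 1 [] (.d 267 1259 235 1291 395)
 (.a 1 [235] (.d 395 1291 267 1323 427)
 (.a 1 [267] (.r 427 1323 395 (.d 458 3406 334 3437 489))
 (.a 0 [395] (.q 334 (.a 1 [] (.d 333 330 330 331 335)
 (.a 1 [330] (.d 427 3375 303 3406 458)
 .e)))
 .e)))))
 .e))))
 (.a 1 [268] (.d 428 1324 300 1356 460)
 .e)))))
 (.a 1 [366] (.q 428 (.a 1 [] (.d 332 1324 300 1356 460)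
 (.a 1 [300] (.d 460 1356 332 1388 492)
 (.a 0 [332,460] (.q 427 (.a 1 [] (.d 334 3375 303 3406 458)
 (.a 1 [303] (.d 458 3406 334 3437 489)
 (.a 0 [334,458] (.q 395 (.a 1 [] (.d 331 1323 299 1355 459)
 (.a 1 [299] (.d 459 1355 331 1387 491)
 (.a 1 [331] (.r 362 361 361 (.d 461 2377 329 2410 494))
 .e))))
 .e))))
 .e))))
 (.a 1 [361] (.d 366 362 362 363 367)
 .e)))))
 (.a 0 [427] (.q 428 (.a 1 [] (.d 332 1324 300 1356 460)
 (.a 0 [332] (.q 362 (.a 1 [] (.d 361 360 360 361 365)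
 (.a 1 [365] (.q 395 (.a 1 [] (.d 329 2344 296 2377 461)
 (.a 1 [461] (.q 397 (.a 1 [] (.d 394 393 393 394 398)
 (.a 1 [393] (.d 398 394 394 395 399)
 (.a 0 [394] (.q 331 (.a 1 [] (.d 298 2313 265 2346 430)
 (.a 1 [265] (.d 430 2346 298 2379 463)
 (.a 0 [298,430] (.q 459 (.a 1 [] (.d 366 3407 335 3438 490)
 (.a 1 [335] (.d 490 3438 366 3469 521)
 (.a 0 [366,490] (.q 426 (.a 1 [] (.d 333 3374 302 3405 457)
 (.a 1 [302] (.d 457 3405 333 3436 488)
 (.a 1 [333] (.r 492 1388 460 (.d 360 360 361 2408 393))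
 .e))))
 .e))))
 .e))))
 (.a 0 [398] (.r 393 393 394 (.r 361 360 360 (.r 329 2344 296 (.d 425 1321 297 1353 457))))
 .e)))))
 (.a 1 [329] (.q 426 (.a 1 [] (.d 333 3374 302 3405 457)
 (.a 1 [302] (.d 457 3405 333 3436 488)
 (.a 0 [333,457] (.r 360 360 361 (.r 492 1388 460 (.r 393 2408 459 (.d 394 392 392 393 397))))
 .e))))
 .e))))
 (.a 1 [361] (.q 395 (.a 1 [] (.d 329 2344 296 2377 461)
 (.a 1 [296] (.d 461 2377 329 2410 494)
 (.a 0 [329,461] (.q 397 (.a 1 [] (.d 394 393 393 394 398)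
 (.a 1 [393] (.d 398 394 394 395 399)
 (.a 1 [394] (.r 366 362 365 (.d 459 3407 335 3438 490))
 .e))))
 .e))))
 .e))))
 (.a 1 [460] (.r 332 1324 300 (.q 394 (.a 1 [] (.d 301 3342 270 3373 425)
 (.a 1 [270] (.d 425 3373 301 3404 456)
 (.a 0 [301,425] (.q 362 (.a 1 [] (.d 361 360 360 361 365)
 (.a 1 [360] (.d 365 361 361 362 366)
 (.a 0 [361,365] (.q 397 (.a 1 [] (.d 395 393 393 394 398)
 (.a 1 [393] (.r 395 394 398 (.d 461 2377 329 2410 494))
 (.a 1 [398] (.r 395 393 393 (.d 461 2377 329 2410 494))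
 (.a 0 [395] (.q 298 (.a 1 [] (.d 330 1290 266 1322 426)
 (.a 1 [266] (.d 331 2313 265 2346 430)
 .e)))
 .e)))))
 .e))))
 .e)))))
 (.a 1 [300] (.d 460 1356 332 1388 492)
 .e)))))
 (.a 1 [331] (.q 332 (.a 1 [] (.d 300 1292 268 1324 428)
 (.a 1 [300] (.q 394 (.a 1 [] (.d 301 3342 270 3373 425)
 (.a 1 [270] (.d 425 3373 301 3404 456)
 (.a 0 [301,425] (.q 361 (.a 1 [] (.d 362 360 360 361 365)
 (.a 1 [360] (.r 365 361 362 (.r 460 1356 428 (.d 427 2376 328 2409 493)))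
 (.a 1 [362] (.r 460 1356 428 (.d 427 2376 328 2409 493))
 .e))))
 .e))))
 (.a 1 [428] (.q 365 (.a 1 [] (.d 362 361 361 362 366)
 (.a 1 [361] (.d 366 362 362 363 367)
 (.a 0 [362,366] (.q 427 (.a 1 [] (.d 334 3375 303 3406 458)
 (.a 1 [303] (.d 458 3406 334 3437 489)
 (.a 0 [334,458] (.q 394 (.a 1 [] (.d 301 3342 270 3373 425)
 (.a 1 [270] (.d 425 3373 301 3404 456)
 (.a 0 [301,425] (.q 361 (.a 1 [] (.d 328 2343 295 2376 460)
 (.a 1 [295] (.d 460 2376 328 2409 493)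
 (.a 0 [328,460] (.q 299 (.a 1 [] (.d 266 2281 233 2314 398)
 (.a 1 [233] (.d 398 2314 266 2347 431)
 (.a 1 [266] (.r 268 1292 300 (.d 330 3309 237 3340 392))
 .e))))
 .e))))
 .e))))
 .e))))
 .e))))
 .e))))
 (.a 0 [394] (.q 332 (.a 1 [] (.d 300 1292 268 1324 428)
 (.a 1 [300] (.q 365 (.a 1 [] (.d 362 361 361 362 366)
 (.a 1 [362] (.q 398 (.a 1 [] (.d 299 2314 266 2347 431)
 (.a 1 [266] (.d 431 2347 299 2380 464)
 (.a 0 [299,431] (.q 334 (.a 1 [] (.d 303 3344 272 3375 427)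
 (.a 1 [272] (.d 427 3375 303 3406 458)
 (.a 1 [303] (.r 366 363 367 (.d 430 1326 302 1358 462))
 .e))))
 .e))))
 (.a 1 [366] (.q 427 (.a 1 [] (.d 334 3375 303 3406 458)
 (.a 1 [303] (.d 458 3406 334 3437 489)
 (.a 0 [334,458] (.q 395 (.a 1 [] (.d 331 1323 299 1355 459)
 (.a 1 [299] (.d 459 1355 331 1387 491)
 (.a 1 [459] (.r 299 1323 331 (.d 398 2314 266 2347 431))
 (.a 0 [331] (.q 426 (.a 1 [] (.d 333 3374 302 3405 457)
 (.a 1 [302] (.d 457 3405 333 3436 488)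
 (.a 1 [333] (.r 428 1356 460 (.r 362 361 361 (.d 461 2377 329 2410 494)))
 .e))))
 .e)))))
 .e))))
 .e))))
 (.a 1 [428] (.q 365 (.a 1 [] (.d 362 361 361 362 366)
 (.a 1 [361] (.d 366 362 362 363 367)
 (.a 0 [362,366] (.q 299 (.a 1 [] (.d 266 2281 233 2314 398)
 (.a 1 [233] (.d 398 2314 266 2347 431)
 (.a 0 [266,398] (.q 330 (.a 1 [] (.r 268 1292 300 (.d 361 3309 237 3340 392))
 (.a 1 [392] (.r 268 1292 300 (.d 237 3278 206 3309 361))
 (.a 0 [237,268,300,361] (.q 331 (.a 1 [] (.d 329 328 328 329 333)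
 (.a 1 [328] (.d 333 329 329 330 334)
 (.a 1 [329] (.d 267 1259 235 1291 395)
 .e))))
 .e))))
 .e))))
 .e))))
 (.a 1 [268] (.d 428 1324 300 1356 460)
 .e)))))
 (.a 1 [333] (.q 365 (.a 1 [] (.d 362 361 361 362 366)
 (.a 1 [366] (.q 427 (.a 1 [] (.d 334 3375 303 3406 458)
 (.a 1 [303] (.d 458 3406 334 3437 489)
 (.a 0 [334,458] (.q 460 (.a 1 [] (.d 428 1356 332 1388 492)
 (.a 1 [332] (.r 361 361 362 (.d 394 2376 328 2409 493))
 .e)))
 .e))))
 (.a 1 [362] (.q 332 (.a 1 [] (.d 300 1292 268 1324 428)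
 (.a 1 [268] (.d 428 1324 300 1356 460)
 (.a 0 [300,428] (.q 427 (.a 1 [] (.d 334 3375 303 3406 458)
 (.a 1 [303] (.d 458 3406 334 3437 489)
 (.a 0 [334,458] (.q 394 (.a 1 [] (.d 301 3342 270 3373 425)
 (.a 1 [270] (.d 425 3373 301 3404 456)
 (.a 0 [301,425] (.q 395 (.a 1 [] (.d 393 392 392 393 397)
 (.a 1 [392] (.d 397 393 393 394 398)
 (.a 1 [393] (.d 331 1323 299 1355 459)
 .e))))
 .e))))
 .e))))
 .e))))
 (.a 1 [361] (.d 366 362 362 363 367)
 .e)))))
 (.a 1 [398] (.q 365 (.a 1 [] (.d 362 361 361 362 366)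
 (.a 1 [366] (.q 332 (.a 1 [] (.d 300 1292 268 1324 428)
 (.a 1 [268] (.d 428 1324 300 1356 460)
 (.a 0 [300,428] (.q 394 (.a 1 [] (.d 301 3342 270 3373 425)
 (.a 1 [270] (.d 425 3373 301 3404 456)
 (.a 0 [301,425] (.q 427 (.a 1 [] (.d 334 3375 303 3406 458)
 (.a 1 [303] (.d 458 3406 334 3437 489)
 (.a 1 [334] (.r 361 361 362 (.d 460 2376 328 2409 493))
 .e))))
 .e))))
 .e))))
 (.a 1 [362] (.q 332 (.a 1 [] (.d 300 1292 268 1324 428)
 (.a 1 [268] (.d 428 1324 300 1356 460)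
 (.a 0 [300,428] (.q 427 (.a 1 [] (.d 334 3375 303 3406 458)
 (.a 1 [303] (.d 458 3406 334 3437 489)
 (.a 0 [334,458] (.q 394 (.a 1 [] (.d 301 3342 270 3373 425)
 (.a 1 [270] (.d 425 3373 301 3404 456)
 (.a 0 [301,425] (.q 395 (.a 1 [] (.d 393 392 392 393 397)
 (.a 1 [392] (.d 459 1355 331 1387 491)
 .e)))
 .e))))
 .e))))
 .e))))
 .e))))
 (.a 0 [430] (.q 365 (.a 1 [] (.d 362 361 361 362 366)
 (.a 0 [362] (.q 427 (.a 1 [] (.d 334 3375 303 3406 458)
 (.a 1 [458] (.q 395 (.a 1 [] (.d 331 1323 299 1355 459)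
 (.a 1 [331] (.q 426 (.a 1 [] (.d 333 3374 302 3405 457)
 (.a 1 [302] (.d 457 3405 333 3436 488)
 (.a 0 [333,457] (.q 393 (.a 1 [] (.d 394 392 392 393 397)
 (.a 1 [392] (.r 459 1387 491 (.d 492 2408 360 2441 525))
 .e)))
 .e))))
 (.a 1 [459] (.q 332 (.a 1 [] (.d 300 1292 268 1324 428)
 (.a 1 [268] (.d 428 1324 300 1356 460)
 (.a 1 [300] (.r 299 1323 331 (.d 398 2314 266 2347 431))
 .e))))
 .e))))
 (.a 1 [334] (.q 395 (.a 1 [] (.d 331 1323 299 1355 459)
 (.a 1 [299] (.d 459 1355 331 1387 491)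
 (.a 0 [331,459] (.q 398 (.a 1 [] (.d 397 394 394 395 399)
 (.a 0 [394,397,399] (.q 332 (.a 1 [] (.d 300 1292 268 1324 428)
 (.a 1 [268] (.d 428 1324 300 1356 460)
 (.a 1 [300] (.d 299 2314 266 2347 431)
 .e))))
 .e)))
 .e))))
 .e))))
 (.a 1 [366] (.q 428 (.a 1 [] (.d 332 1324 300 1356 460)
 (.a 1 [300] (.d 460 1356 332 1388 492)
 (.a 0 [332,460] (.r 362 361 361 (.q 395 (.a 1 [] (.d 329 2344 296 2377 461)
 (.a 1 [296] (.d 461 2377 329 2410 494)
 (.a 0 [329,461] (.q 427 (.a 1 [] (.d 331 1323 299 1355 459)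
 (.a 1 [299] (.d 459 1355 331 1387 491)
 (.a 1 [331] (.d 334 3375 303 3406 458)
 .e))))
 .e)))))
 .e))))
 (.a 1 [361] (.d 366 362 362 363 367)
 .e)))))
 (.a 0 [301] (.q 365 (.a 1 [] (.d 362 361 361 362 366)
 (.a 1 [362] (.q 332 (.a 1 [] (.d 300 1292 268 1324 428)
 (.a 1 [300] (.q 299 (.a 1 [] (.d 266 2281 233 2314 398)
 (.a 1 [233] (.d 398 2314 266 2347 431)
 (.a 0 [266,398] (.q 331 (.a 1 [] (.d 267 1259 235 1291 395)
 (.a 1 [235] (.d 395 1291 267 1323 427)
 (.a 1 [267] (.r 427 1323 395 (.d 458 3406 334 3437 489))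
 (.a 0 [395] (.q 334 (.a 1 [] (.d 333 330 330 331 335)
 (.a 1 [330] (.d 427 3375 303 3406 458)
 .e)))
 .e)))))
 .e))))
 (.a 1 [428] (.q 427 (.a 1 [] (.d 334 3375 303 3406 458)
 (.a 1 [303] (.d 458 3406 334 3437 489)
 (.a 0 [334,458] (.q 395 (.a 1 [] (.d 331 1323 299 1355 459)
 (.a 1 [299] (.d 459 1355 331 1387 491)
 (.a 1 [459] (.r 299 1323 331 (.d 398 2314 266 2347 431))
 (.a 0 [331] (.q 398 (.a 1 [] (.d 397 394 394 395 399)
 (.a 1 [394] (.d 431 2347 299 2380 464)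
 .e)))
 .e)))))
 .e))))
 (.a 1 [268] (.d 428 1324 300 1356 460)
 .e)))))
 (.a 1 [366] (.q 332 (.a 1 [] (.d 300 1292 268 1324 428)
 (.a 1 [268] (.d 428 1324 300 1356 460)
 (.a 0 [300,428] (.q 427 (.a 1 [] (.d 334 3375 303 3406 458)
 (.a 1 [303] (.d 458 3406 334 3437 489)
 (.a 0 [334,458] (.q 395 (.a 1 [] (.d 331 1323 299 1355 459)
 (.a 1 [299] (.d 459 1355 331 1387 491)
 (.a 1 [459] (.r 299 1323 331 (.d 398 2314 266 2347 431))
 (.a 0 [331] (.q 398 (.a 1 [] (.d 397 394 394 395 399)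
 (.a 1 [394] (.d 431 2347 299 2380 464)
 .e)))
 .e)))))
 .e))))
 .e))))
 .e))))
 (.a 1 [302] (.q 365 (.a 1 [] (.d 362 361 361 362 366)
 (.a 1 [366] (.q 460 (.a 1 [] (.d 428 1356 332 1388 492)
 (.a 0 [332,428,492] (.q 427 (.a 1 [] (.d 334 3375 303 3406 458)
 (.a 1 [303] (.d 458 3406 334 3437 489)
 (.a 1 [334] (.r 361 361 362 (.d 394 2376 328 2409 493))
 .e))))
 .e)))
 (.a 1 [362] (.q 332 (.a 1 [] (.d 300 1292 268 1324 428)
 (.a 1 [268] (.d 428 1324 300 1356 460)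
 (.a 0 [300,428] (.q 301 (.a 1 [] (.d 270 3311 239 3342 394)
 (.a 1 [239] (.d 394 3342 270 3373 425)
 (.a 0 [270,394] (.q 334 (.a 1 [] (.d 303 3344 272 3375 427)
 (.a 1 [272] (.d 427 3375 303 3406 458)
 (.a 1 [303] (.r 367 363 366 (.d 400 2316 268 2349 433))
 .e))))
 .e))))
 .e))))
 .e))))
 (.a 0 [334] (.q 332 (.a 1 [] (.d 300 1292 268 1324 428)
 (.a 1 [428] (.q 365 (.a 1 [] (.d 362 361 361 362 366)
 (.a 1 [366] (.q 394 (.a 1 [] (.d 301 3342 270 3373 425)
 (.a 1 [270] (.d 425 3373 301 3404 456)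
 (.a 0 [301,425] (.q 427 (.a 1 [] (.r 361 361 362 (.d 460 2376 328 2409 493))
 (.a 1 [493] (.r 361 361 362 (.d 328 2343 295 2376 460))
 (.a 0 [328,361,362,460] (.q 395 (.a 1 [] (.d 393 392 392 393 397)
 (.a 1 [392] (.d 397 393 393 394 398)
 (.a 1 [393] (.d 331 1323 299 1355 459)
 .e))))
 .e))))
 .e))))
 (.a 1 [362] (.q 301 (.a 1 [] (.d 270 3311 239 3342 394)
 (.a 1 [239] (.d 394 3342 270 3373 425)
 (.a 0 [270,394] (.q 299 (.a 1 [] (.d 266 2281 233 2314 398)
 (.a 1 [233] (.d 398 2314 266 2347 431)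
 (.a 1 [266] (.r 300 1292 268 (.d 302 298 298 299 303))
 .e))))
 .e))))
 .e))))
 (.a 1 [300] (.q 365 (.a 1 [] (.d 362 361 361 362 366)
 (.a 1 [361] (.d 366 362 362 363 367)
 (.a 0 [362,366] (.q 394 (.a 1 [] (.d 301 3342 270 3373 425)
 (.a 1 [270] (.d 425 3373 301 3404 456)
 (.a 0 [301,425] (.q 395 (.a 1 [] (.d 393 392 392 393 397)
 (.a 1 [392] (.d 397 393 393 394 398)
 (.a 1 [393] (.r 398 394 397 (.d 431 2347 299 2380 464))
 (.a 0 [397] (.q 299 (.a 1 [] (.d 331 1291 267 1323 427)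
 (.a 1 [267] (.d 398 2314 266 2347 431)
 .e)))
 .e)))))
 .e))))
 .e))))
 (.a 1 [268] (.d 428 1324 300 1356 460)
 .e)))))
 (.a 1 [458] (.q 332 (.a 1 [] (.d 300 1292 268 1324 428)
 (.a 1 [428] (.q 365 (.a 1 [] (.d 362 361 361 362 366)
 (.a 1 [361] (.d 366 362 362 363 367)
 (.a 0 [362,366] (.q 299 (.a 1 [] (.d 266 2281 233 2314 398)
 (.a 1 [233] (.d 398 2314 266 2347 431)
 (.a 0 [266,398] (.q 301 (.a 1 [] (.d 270 3311 239 3342 394)
 (.a 1 [239] (.d 394 3342 270 3373 425)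
 (.a 1 [270] (.r 300 1292 268 (.d 302 298 298 299 303))
 .e))))
 .e))))
 .e))))
 (.a 1 [300] (.q 365 (.a 1 [] (.d 362 361 361 362 366)
 (.a 1 [361] (.d 366 362 362 363 367)
 (.a 0 [362,366] (.q 394 (.a 1 [] (.d 301 3342 270 3373 425)
 (.a 1 [270] (.d 425 3373 301 3404 456)
 (.a 0 [301,425] (.q 395 (.a 1 [] (.d 393 392 392 393 397)
 (.a 1 [392] (.d 397 393 393 394 398)
 (.a 1 [393] (.r 398 394 397 (.d 431 2347 299 2380 464))
 (.a 0 [397] (.q 299 (.a 1 [] (.d 331 1291 267 1323 427)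
 (.a 1 [267] (.d 398 2314 266 2347 431)
 .e)))
 .e)))))
 .e))))
 .e))))
 .e))))
 (.a 1 [491] (.q 365 (.a 1 [] (.d 362 361 361 362 366)
 (.a 1 [362] (.q 332 (.a 1 [] (.d 300 1292 268 1324 428)
 (.a 1 [268] (.d 428 1324 300 1356 460)
 (.a 0 [300,428] (.q 301 (.a 1 [] (.d 270 3311 239 3342 394)
 (.a 1 [239] (.d 394 3342 270 3373 425)
 (.a 0 [270,394] (.q 334 (.a 1 [] (.d 303 3344 272 3375 427)
 (.a 1 [272] (.d 427 3375 303 3406 458)
 (.a 1 [303] (.r 367 363 366 (.d 400 2316 268 2349 433))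
 .e))))
 .e))))
 .e))))
 (.a 1 [366] (.q 332 (.a 1 [] (.d 300 1292 268 1324 428)
 (.a 1 [268] (.d 428 1324 300 1356 460)
 (.a 0 [300,428] (.q 427 (.a 1 [] (.d 334 3375 303 3406 458)
 (.a 1 [303] (.d 458 3406 334 3437 489)
 (.a 0 [334,458] (.q 394 (.a 1 [] (.d 301 3342 270 3373 425)
 (.a 1 [270] (.d 425 3373 301 3404 456)
 (.a 1 [301] (.r 361 361 362 (.d 460 2376 328 2409 493))
 .e))))
 .e))))
 .e))))
 .e))))
 (.a 1 [270] (.q 365 (.a 1 [] (.d 362 361 361 362 366)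
 (.a 1 [366] (.q 332 (.a 1 [] (.d 300 1292 268 1324 428)
 (.a 1 [268] (.d 428 1324 300 1356 460)
 (.a 0 [300,428] (.q 394 (.a 1 [] (.d 425 3373 301 3404 456)
 (.a 0 [301,425,456] (.q 427 (.a 1 [] (.d 334 3375 303 3406 458)
 (.a 1 [303] (.d 458 3406 334 3437 489)
 (.a 1 [334] (.r 361 361 362 (.d 460 2376 328 2409 493))
 .e))))
 .e)))
 .e))))
 (.a 1 [362] (.q 332 (.a 1 [] (.d 300 1292 268 1324 428)
 (.a 1 [268] (.d 428 1324 300 1356 460)
 (.a 0 [300,428] (.q 427 (.a 1 [] (.d 334 3375 303 3406 458)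
 (.a 1 [303] (.d 458 3406 334 3437 489)
 (.a 0 [334,458] (.q 398 (.a 1 [] (.d 299 2314 266 2347 431)
 (.a 1 [266] (.d 431 2347 299 2380 464)
 (.a 1 [431] (.r 299 2314 266 (.r 395 1323 331 (.d 397 394 394 395 399)))
 (.a 0 [299] (.q 395 (.a 1 [] (.d 397 394 394 395 399)
 (.a 1 [394] (.d 459 1355 331 1387 491)
 .e)))
 .e)))))
 .e))))
 .e))))
 .e))))
 (.a 1 [303] (.q 300 (.a 1 [] (.d 332 1292 268 1324 428)
 (.a 1 [428] (.q 362 (.a 1 [] (.d 361 360 360 361 365)
 (.a 1 [360] (.d 365 361 361 362 366)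
 (.a 0 [361,365] (.q 331 (.a 1 [] (.d 269 3310 238 3341 393)
 (.a 1 [238] (.d 393 3341 269 3372 424)
 (.a 0 [269,393] (.q 299 (.a 1 [] (.d 267 1259 235 1291 395)
 (.a 1 [235] (.d 395 1291 267 1323 427)
 (.a 0 [267,395] (.q 298 (.a 1 [] (.d 297 296 296 297 301)
 (.a 1 [296] (.d 301 297 297 298 302)
 (.a 1 [297] (.d 265 2280 232 2313 397)
 .e))))
 .e))))
 .e))))
 .e))))
 (.a 1 [268] (.q 365 (.a 1 [] (.d 362 361 361 362 366)
 (.a 1 [361] (.d 366 362 362 363 367)
 (.a 0 [362,366] (.q 427 (.a 1 [] (.d 458 3406 334 3437 489)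
 (.a 0 [334,458,489] (.q 395 (.a 1 [] (.d 331 1323 299 1355 459)
 (.a 1 [299] (.d 459 1355 331 1387 491)
 (.a 0 [331,459] (.q 394 (.a 1 [] (.d 393 392 392 393 397)
 (.a 1 [392] (.d 397 393 393 394 398)
 (.a 1 [393] (.r 332 1324 428 (.d 425 3373 301 3404 456))
 (.a 1 [397] (.r 428 1324 332 (.r 460 1388 492 (.d 493 2409 361 2442 526)))
 .e)))))
 .e))))
 .e)))
 .e))))
 .e))))
 (.a 1 [393] (.q 332 (.a 1 [] (.d 300 1292 268 1324 428)
 (.a 1 [428] (.q 365 (.a 1 [] (.d 362 361 361 362 366)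
 (.a 1 [361] (.d 366 362 362 363 367)
 (.a 0 [362,366] (.q 427 (.a 1 [] (.d 334 3375 303 3406 458)
 (.a 1 [303] (.d 458 3406 334 3437 489)
 (.a 0 [334,458] (.q 394 (.a 1 [] (.d 301 3342 270 3373 425)
 (.a 1 [270] (.d 425 3373 301 3404 456)
 (.a 0 [301,425] (.q 395 (.a 1 [] (.d 331 1323 299 1355 459)
 (.a 1 [299] (.d 459 1355 331 1387 491)
 (.a 1 [331] (.r 398 394 397 (.d 431 2347 299 2380 464))
 (.a 1 [459] (.r 299 1323 331 (.d 398 394 397 2347 431))
 .e)))))
 .e))))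
 .e))))
 .e))))
 (.a 1 [300] (.q 394 (.a 1 [] (.d 301 3342 270 3373 425)
 (.a 1 [270] (.d 425 3373 301 3404 456)
 (.a 0 [301,425] (.q 361 (.a 1 [] (.d 362 360 360 361 365)
 (.a 1 [360] (.r 365 361 362 (.r 460 1356 428 (.d 427 2376 328 2409 493)))
 (.a 1 [362] (.r 460 1356 428 (.d 427 2376 328 2409 493))
 .e))))
 .e))))
 .e))))
 (.a 1 [459] (.q 365 (.a 1 [] (.d 362 361 361 362 366)
 (.a 1 [366] (.q 427 (.a 1 [] (.d 334 3375 303 3406 458)
 (.a 1 [303] (.d 458 3406 334 3437 489)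
 (.a 0 [334,458] (.q 460 (.a 1 [] (.d 428 1356 332 1388 492)
 (.a 1 [332] (.r 361 361 362 (.d 394 2376 328 2409 493))
 .e)))
 .e))))
 (.a 1 [362] (.q 332 (.a 1 [] (.d 300 1292 268 1324 428)
 (.a 1 [268] (.d 428 1324 300 1356 460)
 (.a 0 [300,428] (.q 427 (.a 1 [] (.d 334 3375 303 3406 458)
 (.a 1 [303] (.d 458 3406 334 3437 489)
 (.a 0 [334,458] (.q 394 (.a 1 [] (.d 301 3342 270 3373 425)
 (.a 1 [270] (.d 425 3373 301 3404 456)
 (.a 0 [301,425] (.q 395 (.a 1 [] (.d 393 392 392 393 397)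
 (.a 1 [392] (.d 397 393 393 394 398)
 (.a 1 [393] (.r 398 394 397 (.d 299 2314 266 1323 331))
 (.a 1 [397] (.r 299 1323 331 (.d 398 2314 266 2347 431))
 .e)))))
 .e))))
 .e))))
 .e))))
 (.a 1 [361] (.d 366 362 362 363 367)
 .e)))))
 (.a 1 [432] (.q 365 (.a 1 [] (.d 362 361 361 362 366)
 (.a 1 [366] (.q 428 (.a 1 [] (.d 332 1324 300 1356 460)
 (.a 1 [300] (.d 460 1356 332 1388 492)
 (.a 0 [332,460] (.q 427 (.a 1 [] (.d 334 3375 303 3406 458)
 (.a 1 [303] (.d 458 3406 334 3437 489)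
 (.a 0 [334,458] (.q 395 (.a 1 [] (.d 331 1323 299 1355 459)
 (.a 1 [299] (.d 459 1355 331 1387 491)
 (.a 1 [331] (.r 362 361 361 (.d 461 2377 329 2410 494))
 .e))))
 .e))))
 .e))))
 (.a 1 [362] (.q 332 (.a 1 [] (.d 300 1292 268 1324 428)
 (.a 1 [268] (.d 428 1324 300 1356 460)
 (.a 0 [300,428] (.q 431 (.a 1 [] (.d 398 2347 299 2380 464)
 (.a 0 [299,398,464] (.q 301 (.a 1 [] (.d 270 3311 239 3342 394)
 (.a 1 [239] (.d 394 3342 270 3373 425)
 (.a 0 [270,394] (.q 334 (.a 1 [] (.d 303 3344 272 3375 427)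
 (.a 1 [272] (.d 427 3375 303 3406 458)
 (.a 1 [303] (.r 367 363 366 (.d 400 2316 268 2349 433))
 .e))))
 .e))))
 .e)))
 .e))))
 .e))))
 (.a 1 [461] (.q 332 (.a 1 [] (.d 300 1292 268 1324 428)
 (.a 1 [428] (.q 301 (.a 1 [] (.d 270 3311 239 3342 394)
 (.a 1 [239] (.d 394 3342 270 3373 425)
 (.a 0 [270,394] (.r 268 1292 300 (.q 365 (.a 1 [] (.d 362 361 361 362 366)
 (.a 1 [361] (.d 366 362 362 363 367)
 (.a 1 [362] (.r 367 363 366 (.d 334 2283 235 2316 400))
 (.a 0 [366] (.q 334 (.a 1 [] (.d 235 2250 202 2283 367)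
 (.a 1 [202] (.d 367 2283 235 2316 400)
 (.a 1 [235] (.d 303 3344 272 3375 427)
 .e))))
 .e))))))
 .e))))
 (.a 1 [300] (.q 365 (.a 1 [] (.d 362 361 361 362 366)
 (.a 1 [361] (.d 366 362 362 363 367)
 (.a 0 [362,366] (.q 398 (.a 1 [] (.d 299 2314 266 2347 431)
 (.a 1 [266] (.d 431 2347 299 2380 464)
 (.a 0 [299,431] (.q 427 (.a 1 [] (.d 334 3375 303 3406 458)
 (.a 1 [303] (.d 458 3406 334 3437 489)
 (.a 0 [334,458] (.q 394 (.a 1 [] (.d 301 3342 270 3373 425)
 (.a 1 [270] (.d 425 3373 301 3404 456)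
 (.a 1 [301] (.r 395 394 397 (.d 459 1355 331 1387 491))
 .e))))
 .e))))
 .e))))
 .e))))
 (.a 1 [268] (.d 428 1324 300 1356 460)
 .e)))))
 (.a 0 [431] (.q 365 (.a 1 [] (.d 362 361 361 362 366)
 (.a 0 [362] (.q 427 (.a 1 [] (.d 334 3375 303 3406 458)
 (.a 1 [458] (.q 395 (.a 1 [] (.d 331 1323 299 1355 459)
 (.a 1 [331] (.q 426 (.a 1 [] (.d 333 3374 302 3405 457)
 (.a 1 [302] (.d 457 3405 333 3436 488)
 (.a 0 [333,457] (.q 393 (.a 1 [] (.d 394 392 392 393 397)
 (.a 1 [392] (.r 459 1387 491 (.d 492 2408 360 2441 525))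
 .e)))
 .e))))
 (.a 1 [459] (.q 397 (.a 1 [] (.d 394 393 393 394 398)
 (.a 1 [393] (.d 398 394 394 395 399)
 (.a 1 [394] (.r 331 1323 299 (.d 430 2346 298 2379 463))
 .e))))
 .e))))
 (.a 1 [334] (.q 395 (.a 1 [] (.d 331 1323 299 1355 459)
 (.a 1 [299] (.d 459 1355 331 1387 491)
 (.a 0 [331,459] (.q 333 (.a 1 [] (.d 302 3343 271 3374 426)
 (.a 1 [271] (.d 426 3374 302 3405 457)
 (.a 0 [302,426] (.q 300 (.a 1 [] (.d 332 1292 268 1324 428)
 (.a 1 [268] (.r 366 363 367 (.d 399 2315 267 2348 432))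
 .e)))
 .e))))
 .e))))
 .e))))
 (.a 1 [366] (.q 428 (.a 1 [] (.d 332 1324 300 1356 460)
 (.a 1 [300] (.d 460 1356 332 1388 492)
 (.a 0 [332,460] (.q 427 (.a 1 [] (.d 334 3375 303 3406 458)
 (.a 1 [303] (.d 458 3406 334 3437 489)
 (.a 0 [334,458] (.q 395 (.a 1 [] (.d 331 1323 299 1355 459)
 (.a 1 [299] (.d 459 1355 331 1387 491)
 (.a 1 [331] (.r 362 361 361 (.d 461 2377 329 2410 494))
 .e))))
 .e))))
 .e))))
 (.a 1 [361] (.d 366 362 362 363 367)
 .e)))))
 (.a 1 [234] (.q 365 (.a 1 [] (.d 362 361 361 362 366)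
 (.a 1 [362] (.q 332 (.a 1 [] (.d 300 1292 268 1324 428)
 (.a 1 [268] (.d 428 1324 300 1356 460)
 (.a 0 [300,428] (.q 427 (.a 1 [] (.d 334 3375 303 3406 458)
 (.a 1 [303] (.d 458 3406 334 3437 489)
 (.a 0 [334,458] (.q 394 (.a 1 [] (.d 301 3342 270 3373 425)
 (.a 1 [270] (.d 425 3373 301 3404 456)
 (.a 0 [301,425] (.q 395 (.a 1 [] (.d 393 392 392 393 397)
 (.a 1 [392] (.d 397 393 393 394 398)
 (.a 1 [393] (.d 331 1323 299 1355 459)
 .e))))
 .e))))
 .e))))
 .e))))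
 (.a 1 [366] (.q 427 (.a 1 [] (.d 334 3375 303 3406 458)
 (.a 1 [303] (.d 458 3406 334 3437 489)
 (.a 0 [334,458] (.q 460 (.a 1 [] (.d 428 1356 332 1388 492)
 (.a 1 [332] (.r 361 361 362 (.d 394 2376 328 2409 493))
 .e)))
 .e))))
 (.a 1 [361] (.d 366 362 362 363 367)
 .e)))))
 (.a 1 [238] (.q 365 (.a 1 [] (.d 362 361 361 362 366)
 (.a 1 [362] (.q 427 (.a 1 [] (.d 334 3375 303 3406 458)
 (.a 1 [303] (.d 458 3406 334 3437 489)
 (.a 0 [334,458] (.q 395 (.a 1 [] (.d 331 1323 299 1355 459)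
 (.a 1 [299] (.d 459 1355 331 1387 491)
 (.a 0 [331,459] (.q 300 (.a 1 [] (.d 332 1292 268 1324 428)
 (.a 0 [268,332,428] (.q 333 (.a 1 [] (.d 302 3343 271 3374 426)
 (.a 1 [271] (.d 426 3374 302 3405 457)
 (.a 1 [302] (.r 366 363 367 (.d 399 2315 267 2348 432))
 .e))))
 .e)))
 .e))))
 .e))))
 (.a 1 [366] (.q 332 (.a 1 [] (.d 300 1292 268 1324 428)
 (.a 1 [268] (.d 428 1324 300 1356 460)
 (.a 0 [300,428] (.q 299 (.a 1 [] (.d 266 2281 233 2314 398)
 (.a 1 [233] (.d 398 2314 266 2347 431)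
 (.a 0 [266,398] (.q 331 (.a 1 [] (.d 267 1259 235 1291 395)
 (.a 1 [235] (.d 395 1291 267 1323 427)
 (.a 1 [267] (.r 427 1323 395 (.d 458 3406 334 3437 489))
 (.a 0 [395] (.q 334 (.a 1 [] (.d 333 330 330 331 335)
 (.a 1 [330] (.d 427 3375 303 3406 458)
 .e)))
 .e)))))
 .e))))
 .e))))
 .e))))
 (.a 1 [296] (.q 365 (.a 1 [] (.d 362 361 361 362 366)
 (.a 1 [362] (.q 427 (.a 1 [] (.d 334 3375 303 3406 458)
 (.a 1 [303] (.d 458 3406 334 3437 489)
 (.a 0 [334,458] (.q 395 (.a 1 [] (.d 331 1323 299 1355 459)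
 (.a 1 [299] (.d 459 1355 331 1387 491)
 (.a 0 [331,459] (.q 300 (.a 1 [] (.d 332 1292 268 1324 428)
 (.a 0 [268,332,428] (.q 333 (.a 1 [] (.d 302 3343 271 3374 426)
 (.a 1 [271] (.d 426 3374 302 3405 457)
 (.a 1 [302] (.r 366 363 367 (.d 399 2315 267 2348 432))
 .e))))
 .e)))
 .e))))
 .e))))
 (.a 1 [366] (.q 332 (.a 1 [] (.d 300 1292 268 1324 428)
 (.a 1 [268] (.d 428 1324 300 1356 460)
 (.a 0 [300,428] (.q 427 (.a 1 [] (.d 334 3375 303 3406 458)
 (.a 1 [303] (.d 458 3406 334 3437 489)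
 (.a 0 [334,458] (.q 394 (.a 1 [] (.d 301 3342 270 3373 425)
 (.a 1 [270] (.d 425 3373 301 3404 456)
 (.a 1 [301] (.r 361 361 362 (.d 460 2376 328 2409 493))
 .e))))
 .e))))
 .e))))
 .e))))
 (.a 1 [304] (.q 365 (.a 1 [] (.d 362 361 361 362 366)
 (.a 1 [366] (.q 428 (.a 1 [] (.d 332 1324 300 1356 460)
 (.a 1 [300] (.d 460 1356 332 1388 492)
 (.a 0 [332,460] (.q 427 (.a 1 [] (.d 334 3375 303 3406 458)
 (.a 1 [303] (.d 458 3406 334 3437 489)
 (.a 0 [334,458] (.q 395 (.a 1 [] (.d 331 1323 299 1355 459)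
 (.a 1 [299] (.d 459 1355 331 1387 491)
 (.a 1 [331] (.r 362 361 361 (.d 461 2377 329 2410 494))
 .e))))
 .e))))
 .e))))
 (.a 1 [362] (.q 332 (.a 1 [] (.d 300 1292 268 1324 428)
 (.a 1 [268] (.d 428 1324 300 1356 460)
 (.a 0 [300,428] (.q 427 (.a 1 [] (.d 334 3375 303 3406 458)
 (.a 1 [303] (.d 458 3406 334 3437 489)
 (.a 0 [334,458] (.q 299 (.a 1 [] (.d 266 2281 233 2314 398)
 (.a 1 [233] (.d 398 2314 266 2347 431)
 (.a 1 [266] (.r 395 1323 331 (.r 398 2347 431 (.d 397 394 394 395 399)))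
 (.a 0 [398] (.q 394 (.a 1 [] (.d 301 3342 270 3373 425)
 (.a 1 [270] (.d 425 3373 301 3404 456)
 (.a 1 [301] (.r 395 1323 331 (.d 393 392 392 393 397))
 .e))))
 .e)))))
 .e))))
 .e))))
 .e))))
 (.a 1 [329] (.q 332 (.a 1 [] (.d 300 1292 268 1324 428)
 (.a 1 [428] (.q 362 (.a 1 [] (.d 361 360 360 361 365)
 (.a 1 [360] (.d 365 361 361 362 366)
 (.a 0 [361,365] (.r 300 1292 268 (.q 301 (.a 1 [] (.d 270 3311 239 3342 394)
 (.a 1 [239] (.d 394 3342 270 3373 425)
 (.a 0 [270,394] (.q 299 (.a 1 [] (.d 298 297 297 298 302)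
 (.a 1 [297] (.d 302 298 298 299 303)
 (.a 0 [298,302] (.q 331 (.a 1 [] (.d 267 1259 235 1291 395)
 (.a 1 [235] (.d 395 1291 267 1323 427)
 (.a 1 [267] (.d 269 3310 238 3341 393)
 .e))))
 .e))))
 .e)))))
 .e))))
 (.a 1 [300] (.q 365 (.a 1 [] (.d 362 361 361 362 366)
 (.a 1 [361] (.d 366 362 362 363 367)
 (.a 0 [362,366] (.q 398 (.a 1 [] (.d 299 2314 266 2347 431)
 (.a 1 [266] (.d 431 2347 299 2380 464)
 (.a 0 [299,431] (.q 395 (.a 1 [] (.d 397 394 394 395 399)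
 (.a 1 [399] (.r 394 394 397 (.d 425 3373 301 3404 456))
 (.a 0 [394,397] (.q 427 (.a 1 [] (.d 459 1355 331 1387 491)
 (.a 1 [331] (.d 458 3406 334 3437 489)
 .e)))
 .e))))
 .e))))
 .e))))
 .e))))
 (.a 1 [335] (.q 365 (.a 1 [] (.d 362 361 361 362 366)
 (.a 1 [366] (.q 427 (.a 1 [] (.d 334 3375 303 3406 458)
 (.a 1 [303] (.d 458 3406 334 3437 489)
 (.a 0 [334,458] (.q 460 (.a 1 [] (.d 428 1356 332 1388 492)
 (.a 1 [332] (.r 361 361 362 (.d 394 2376 328 2409 493))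
 .e)))
 .e))))
 (.a 1 [362] (.q 332 (.a 1 [] (.d 300 1292 268 1324 428)
 (.a 1 [268] (.d 428 1324 300 1356 460)
 (.a 0 [300,428] (.q 427 (.a 1 [] (.d 334 3375 303 3406 458)
 (.a 1 [303] (.d 458 3406 334 3437 489)
 (.a 0 [334,458] (.q 394 (.a 1 [] (.d 301 3342 270 3373 425)
 (.a 1 [270] (.d 425 3373 301 3404 456)
 (.a 0 [301,425] (.q 395 (.a 1 [] (.d 393 392 392 393 397)
 (.a 1 [392] (.d 397 393 393 394 398)
 (.a 1 [393] (.d 331 1323 299 1355 459)
 .e))))
 .e))))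
 .e))))
 .e))))
 (.a 1 [361] (.d 366 362 362 363 367)
 .e)))))
 (.a 1 [490] (.q 365 (.a 1 [] (.d 362 361 361 362 366)
 (.a 1 [362] (.q 332 (.a 1 [] (.d 300 1292 268 1324 428)
 (.a 1 [268] (.d 428 1324 300 1356 460)
 (.a 0 [300,428] (.q 427 (.a 1 [] (.d 334 3375 303 3406 458)
 (.a 1 [303] (.d 458 3406 334 3437 489)
 (.a 0 [334,458] (.q 394 (.a 1 [] (.d 301 3342 270 3373 425)
 (.a 1 [270] (.d 425 3373 301 3404 456)
 (.a 0 [301,425] (.q 395 (.a 1 [] (.d 393 392 392 393 397)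
 (.a 1 [392] (.d 397 393 393 394 398)
 (.a 1 [393] (.d 331 1323 299 1355 459)
 .e))))
 .e))))
 .e))))
 .e))))
 (.a 1 [366] (.q 428 (.a 1 [] (.d 332 1324 300 1356 460)
 (.a 1 [300] (.d 460 1356 332 1388 492)
 (.a 0 [332,460] (.q 427 (.a 1 [] (.d 334 3375 303 3406 458)
 (.a 1 [303] (.d 458 3406 334 3437 489)
 (.a 0 [334,458] (.q 395 (.a 1 [] (.d 331 1323 299 1355 459)
 (.a 1 [299] (.d 459 1355 331 1387 491)
 (.a 1 [331] (.r 362 361 361 (.d 461 2377 329 2410 494))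
 .e))))
 .e))))
 .e))))
 (.a 1 [361] (.d 366 362 362 363 367)
 .e)))))
 (.a 1 [494] (.q 365 (.a 1 [] (.d 362 361 361 362 366)
 (.a 1 [362] (.q 427 (.a 1 [] (.d 334 3375 303 3406 458)
 (.a 1 [303] (.d 458 3406 334 3437 489)
 (.a 0 [334,458] (.q 395 (.a 1 [] (.d 331 1323 299 1355 459)
 (.a 1 [299] (.d 459 1355 331 1387 491)
 (.a 0 [331,459] (.q 300 (.a 1 [] (.d 332 1292 268 1324 428)
 (.a 0 [268,332,428] (.q 333 (.a 1 [] (.d 302 3343 271 3374 426)
 (.a 1 [271] (.d 426 3374 302 3405 457)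
 (.a 1 [302] (.r 366 363 367 (.d 399 2315 267 2348 432))
 .e))))
 .e)))
 .e))))
 .e))))
 (.a 1 [366] (.q 332 (.a 1 [] (.d 300 1292 268 1324 428)
 (.a 1 [268] (.d 428 1324 300 1356 460)
 (.a 0 [300,428] (.q 427 (.a 1 [] (.d 334 3375 303 3406 458)
 (.a 1 [303] (.d 458 3406 334 3437 489)
 (.a 0 [334,458] (.q 394 (.a 1 [] (.d 301 3342 270 3373 425)
 (.a 1 [270] (.d 425 3373 301 3404 456)
 (.a 1 [301] (.r 361 361 362 (.d 460 2376 328 2409 493))
 .e))))
 .e))))
 .e))))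
 .e))))
 (.a 1 [362] (.q 332 (.a 1 [] (.d 300 1292 268 1324 428)
 (.a 1 [268] (.d 428 1324 300 1356 460)
 (.a 0 [300] (.q 394 (.a 1 [] (.d 301 3342 270 3373 425)
 (.a 1 [270] (.d 425 3373 301 3404 456)
 (.a 0 [301,425] (.r 460 1356 428 (.q 427 (.a 1 [] (.d 361 2376 328 2409 493)
 (.a 1 [328] (.d 493 2409 361 2442 526)
 (.a 0 [361,493] (.q 395 (.a 1 [] (.d 393 392 392 393 397)
 (.a 1 [392] (.d 397 393 393 394 398)
 (.a 1 [393] (.d 331 1323 299 1355 459)
 .e))))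
 .e)))))
 .e))))
 (.a 0 [428] (.q 301 (.a 1 [] (.d 270 3311 239 3342 394)
 (.a 1 [239] (.d 394 3342 270 3373 425)
 (.a 0 [270,394] (.r 268 1292 300 (.q 334 (.a 1 [] (.d 235 2250 202 2283 367)
 (.a 1 [202] (.d 367 2283 235 2316 400)
 (.a 1 [235] (.r 367 2316 400 (.r 365 363 366 (.d 427 3375 303 3406 458)))
 (.a 0 [367] (.q 331 (.a 1 [] (.d 333 330 330 331 335)
 (.a 1 [330] (.r 235 2250 202 (.r 299 1259 267 (.r 427 1323 395 (.d 365 3375 303 3406 458))))
 .e)))
 .e))))))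
 .e))))
 .e)))))
 (.a 1 [460] (.q 365 (.a 1 [] (.d 362 361 361 362 366)
 (.a 1 [361] (.d 366 362 362 363 367)
 (.a 0 [362,366] (.q 427 (.a 1 [] (.d 334 3375 303 3406 458)
 (.a 1 [303] (.d 458 3406 334 3437 489)
 (.a 0 [334,458] (.q 332 (.a 1 [] (.d 300 1292 268 1324 428)
 (.a 0 [268,300,428] (.q 398 (.a 1 [] (.d 299 2314 266 2347 431)
 (.a 1 [266] (.d 431 2347 299 2380 464)
 (.a 1 [431] (.r 299 2314 266 (.r 395 1323 331 (.d 397 394 394 395 399)))
 (.a 0 [299] (.q 395 (.a 1 [] (.d 397 394 394 395 399)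
 (.a 1 [394] (.d 459 1355 331 1387 491)
 .e)))
 .e)))))
 .e)))
 .e))))
 .e))))
 (.a 1 [300] (.q 365 (.a 1 [] (.d 362 361 361 362 366)
 (.a 1 [361] (.d 366 362 362 363 367)
 (.a 0 [362,366] (.q 427 (.a 1 [] (.d 334 3375 303 3406 458)
 (.a 1 [303] (.d 458 3406 334 3437 489)
 (.a 0 [334,458] (.q 460 (.a 1 [] (.d 428 1356 332 1388 492)
 (.a 0 [332,428,492] (.q 394 (.a 1 [] (.d 361 2376 328 2409 493)
 (.a 1 [328] (.d 493 2409 361 2442 526)
 (.a 0 [361,493] (.q 395 (.a 1 [] (.d 393 392 392 393 397)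
 (.a 1 [392] (.d 397 393 393 394 398)
 (.a 1 [393] (.d 331 1323 299 1355 459)
 .e))))
 .e))))
 .e)))
 .e))))
 .e))))
 (.a 1 [361] (.q 332 (.a 1 [] (.d 300 1292 268 1324 428)
 (.a 1 [268] (.d 428 1324 300 1356 460)
 (.a 0 [300,428] (.q 365 (.a 1 [] (.d 366 362 362 363 367)
 (.a 0 [362,366,367] (.q 427 (.a 1 [] (.d 334 3375 303 3406 458)
 (.a 1 [303] (.d 458 3406 334 3437 489)
 (.a 0 [334,458] (.q 398 (.a 1 [] (.d 299 2314 266 2347 431)
 (.a 1 [266] (.d 431 2347 299 2380 464)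
 (.a 1 [431] (.r 299 2314 266 (.r 395 1323 331 (.d 397 394 394 395 399)))
 (.a 0 [299] (.q 395 (.a 1 [] (.d 397 394 394 395 399)
 (.a 1 [394] (.d 459 1355 331 1387 491)
 .e)))
 .e)))))
 .e))))
 .e)))
 .e))))
 (.a 1 [367] (.q 332 (.a 1 [] (.d 300 1292 268 1324 428)
 (.a 1 [268] (.d 428 1324 300 1356 460)
 (.a 0 [300,428] (.q 365 (.a 1 [] (.d 362 361 361 362 366)
 (.a 0 [361,362,366] (.q 427 (.a 1 [] (.d 334 3375 303 3406 458)
 (.a 1 [303] (.d 458 3406 334 3437 489)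
 (.a 0 [334,458] (.q 398 (.a 1 [] (.d 299 2314 266 2347 431)
 (.a 1 [266] (.d 431 2347 299 2380 464)
 (.a 1 [431] (.r 299 2314 266 (.r 395 1323 331 (.d 397 394 394 395 399)))
 (.a 0 [299] (.q 395 (.a 1 [] (.d 397 394 394 395 399)
 (.a 1 [394] (.d 459 1355 331 1387 491)
 .e)))
 .e)))))
 .e))))
 .e)))
 .e))))
 (.a 1 [268] (.q 365 (.a 1 [] (.d 362 361 361 362 366)
 (.a 1 [361] (.d 366 362 362 363 367)
 (.a 0 [362,366] (.q 427 (.a 1 [] (.d 334 3375 303 3406 458)
 (.a 1 [303] (.d 458 3406 334 3437 489)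
 (.a 0 [334,458] (.q 332 (.a 1 [] (.d 428 1324 300 1356 460)
 (.a 0 [300,428,460] (.q 398 (.a 1 [] (.d 299 2314 266 2347 431)
 (.a 1 [266] (.d 431 2347 299 2380 464)
 (.a 1 [431] (.r 299 2314 266 (.r 395 1323 331 (.d 397 394 394 395 399)))
 (.a 0 [299] (.q 395 (.a 1 [] (.d 397 394 394 395 399)
 (.a 1 [394] (.d 459 1355 331 1387 491)
 .e)))
 .e)))))
 .e)))
 .e))))
 .e))))
 (.a 1 [297] (.q 365 (.a 1 [] (.d 362 361 361 362 366)
 (.a 1 [361] (.d 366 362 362 363 367)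
 (.a 0 [362,366] (.q 332 (.a 1 [] (.d 300 1292 268 1324 428)
 (.a 1 [268] (.d 428 1324 300 1356 460)
 (.a 0 [300,428] (.q 427 (.a 1 [] (.d 334 3375 303 3406 458)
 (.a 1 [303] (.d 458 3406 334 3437 489)
 (.a 0 [334,458] (.q 394 (.a 1 [] (.d 301 3342 270 3373 425)
 (.a 1 [270] (.d 425 3373 301 3404 456)
 (.a 0 [301,425] (.q 299 (.a 1 [] (.d 266 2281 233 2314 398)
 (.a 1 [233] (.d 398 2314 266 2347 431)
 (.a 1 [266] (.r 395 1323 331 (.d 398 394 397 2347 431))
 (.a 1 [398] (.r 395 1323 331 (.d 393 392 392 393 397))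
 .e)))))
 .e))))
 .e))))
 .e))))
 .e))))
 (.a 1 [299] (.q 365 (.a 1 [] (.d 362 361 361 362 366)
 (.a 1 [361] (.d 366 362 362 363 367)
 (.a 0 [362,366] (.q 427 (.a 1 [] (.d 334 3375 303 3406 458)
 (.a 1 [303] (.d 458 3406 334 3437 489)
 (.a 0 [334,458] (.q 460 (.a 1 [] (.d 428 1356 332 1388 492)
 (.a 0 [332,428,492] (.q 394 (.a 1 [] (.d 361 2376 328 2409 493)
 (.a 1 [328] (.d 493 2409 361 2442 526)
 (.a 0 [361,493] (.q 395 (.a 1 [] (.d 393 392 392 393 397)
 (.a 1 [392] (.d 397 393 393 394 398)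
 (.a 1 [393] (.d 459 1355 331 1387 491)
 .e))))
 .e))))
 .e)))
 .e))))
 .e))))
 (.a 1 [489] (.q 365 (.a 1 [] (.d 362 361 361 362 366)
 (.a 1 [361] (.d 366 362 362 363 367)
 (.a 0 [362,366] (.q 332 (.a 1 [] (.d 300 1292 268 1324 428)
 (.a 1 [268] (.d 428 1324 300 1356 460)
 (.a 0 [300,428] (.q 299 (.a 1 [] (.d 266 2281 233 2314 398)
 (.a 1 [233] (.d 398 2314 266 2347 431)
 (.a 0 [266,398] (.q 394 (.a 1 [] (.d 301 3342 270 3373 425)
 (.a 1 [270] (.d 425 3373 301 3404 456)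
 (.a 0 [301,425] (.q 427 (.a 1 [] (.d 334 3375 303 3406 458)
 (.a 1 [303] (.r 395 1323 331 (.d 393 392 392 393 397))
 .e)))
 .e))))
 .e))))
 .e))))
 .e))))
 (.a 1 [269] (.q 365 (.a 1 [] (.d 362 361 361 362 366)
 (.a 1 [361] (.d 366 362 362 363 367)
 (.a 0 [362,366] (.q 427 (.a 1 [] (.d 334 3375 303 3406 458)
 (.a 1 [303] (.d 458 3406 334 3437 489)
 (.a 0 [334,458] (.q 460 (.a 1 [] (.d 428 1356 332 1388 492)
 (.a 0 [332,428,492] (.q 394 (.a 1 [] (.d 361 2376 328 2409 493)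
 (.a 1 [328] (.d 493 2409 361 2442 526)
 (.a 0 [361,493] (.q 395 (.a 1 [] (.d 393 392 392 393 397)
 (.a 1 [392] (.d 397 393 393 394 398)
 (.a 1 [393] (.d 331 1323 299 1355 459)
 .e))))
 .e))))
 .e)))
 .e))))
 .e))))
 (.a 1 [424] (.q 365 (.a 1 [] (.d 362 361 361 362 366)
 (.a 1 [361] (.d 366 362 362 363 367)
 (.a 0 [362,366] (.q 427 (.a 1 [] (.d 334 3375 303 3406 458)
 (.a 1 [303] (.d 458 3406 334 3437 489)
 (.a 0 [334,458] (.q 460 (.a 1 [] (.d 428 1356 332 1388 492)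
 (.a 0 [332,428,492] (.q 394 (.a 1 [] (.d 361 2376 328 2409 493)
 (.a 1 [328] (.d 493 2409 361 2442 526)
 (.a 0 [361,493] (.q 395 (.a 1 [] (.d 393 392 392 393 397)
 (.a 1 [392] (.d 397 393 393 394 398)
 (.a 1 [393] (.d 331 1323 299 1355 459)
 .e))))
 .e))))
 .e)))
 .e))))
 .e))))
 (.a 1 [392] (.q 365 (.a 1 [] (.d 362 361 361 362 366)
 (.a 1 [361] (.d 366 362 362 363 367)
 (.a 0 [362,366] (.q 332 (.a 1 [] (.d 300 1292 268 1324 428)
 (.a 1 [268] (.d 428 1324 300 1356 460)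
 (.a 0 [300,428] (.q 427 (.a 1 [] (.d 334 3375 303 3406 458)
 (.a 1 [303] (.d 458 3406 334 3437 489)
 (.a 0 [334,458] (.q 398 (.a 1 [] (.d 299 2314 266 2347 431)
 (.a 1 [266] (.d 431 2347 299 2380 464)
 (.a 1 [431] (.r 299 2314 266 (.r 395 1323 331 (.d 397 394 394 395 399)))
 (.a 0 [299] (.q 395 (.a 1 [] (.d 397 394 394 395 399)
 (.a 1 [394] (.d 459 1355 331 1387 491)
 .e)))
 .e)))))
 .e))))
 .e))))
 .e))))
 .e)))))))))))))))))))))))))))))))))))))))))))))) (by decide +kernel)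

theorem all : RT X2 531 (399 :: 403 :: 407 :: 432 :: 435 :: 438 :: 465 :: 467 :: 469 :: 498 :: 499 :: 500 :: 527 :: 528 :: 529 :: 530 :: 532 :: 533 :: 534 :: 535 :: 562 :: 563 :: 564 :: 593 :: 595 :: 597 :: 624 :: 627 :: 630 :: 655 :: 659 :: 663 :: 428 :: 429 :: []) := ⟨r399, r403, r407, r432, r435, r438, r465, r467, r469, r498, r499, r500, r527, r528, r529, r530, r532, r533, r534, r535, r562, r563, r564, r593, r595, r597, r624, r627, r630, r655, r659, r663, r428, r429, trivial⟩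

end Pool.Agent.H94.Five.Mid.K8_5_0
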