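import Pool.Agent.H94.Five.Mid.Fam

set_option autoImplicit false
set_option linter.all false
set_option maxRecDepth 100000

/-! Second has the cell (8, 8): some of the other stones. -/

namespace Pool.Agent.H94.Five.Mid.K8_8_0

open Pool.Agent.H79.Five Pool.Agent.H10.Five Pool.Agent.H94.Five.M

abbrev nl : List Ent := [n0, n3, n4, n6, n8, n9, n10, n11, n16, n17, n21, n22]

theorem nl_ok : AC XB M0 nl := .cons n0k <| .cons n3k <| .cons n4k <| .cons n6k <| .cons n8k <| .cons n9k <| .cons n10k <| .cons n11k <| .cons n16k <| .cons n17k <| .cons n21k <| .cons n22k <| .nil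

abbrev fl : List Ent := (x73 :: x103 :: x130 :: x167 :: x174 :: x187 :: x201 :: x204 :: x245 :: x255 :: x258 :: x266 :: x276 :: x277 :: x310 :: x316 :: x328 :: x357 :: x364 :: x371 :: x375 :: x383 :: x390 :: x420 :: x424 :: x427 :: x437 :: x452 :: x501 :: [])

theorem fl_ok : AC XB M0 fl := .cons x73k <| .cons x103k <| .cons x130k <| .cons x167k <| .cons x174k <| .cons x187k <| .cons x201k <| .cons x204k <| .cons x245k <| .cons x255k <| .cons x258k <| .cons x266k <| .cons x276k <| .cons x277k <| .cons x310k <| .cons x316k <| .cons x328k <| .cons x357k <| .cons x364k <| .cons x371k <| .cons x375k <| .cons x383k <| .cons x390k <| .cons x420k <| .cons x424k <| .cons x427k <| .cons x437k <| .cons x452k <| .cons x501k <| .nil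

theorem v3_1725 : VW (PX [561] [495,528,627]) := VW.of base nl_ok fl_ok .nil
  []
  []
  (by decide +kernel) trivial

theorem v3_1726 : VW (PX [528] [495,561,627]) := VW.of base nl_ok fl_ok .nil
  [(594, (.cons 660 693 .nil (.cons 693 660 .nil .nil))), (660, (.cons 594 693 .nil (.cons 693 594 (.cons 726 759 .nil (.cons 759 726 .nil .nil)) .nil))), (693, (.cons 594 660 .nil (.cons 660 594 (.cons 726 759 .nil (.cons 759 726 .nil .nil)) .nil)))]
  []
  (by decide +kernel) trivial

theorem w3_1727_528 : S (PX [] [495,528,627]) := VW.play 561 (PX [561] [495,528,627]) (by decide +kernel) v3_1725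

theorem w3_1727_561 : S (PX [] [495,561,627]) := VW.play 528 (PX [528] [495,561,627]) (by decide +kernel) v3_1726

theorem v3_1727 : VW (PX [] [495,627]) := VW.of base nl_ok fl_ok .nil
  [(594, (.cons 528 561 .nil (.cons 561 528 (.cons 660 693 .nil (.cons 693 660 .nil .nil)) .nil)))]
  [([528], (PX [] [495,528,627])), ([561], (PX [] [495,561,627]))]
  (by decide +kernel) ⟨w3_1727_528, w3_1727_561, trivial⟩

theorem v3_935 : VW (PX [] [499,627]) := VW.of base nl_ok fl_ok .nil
  [(531, (.cons 563 595 (.cons 435 467 .nil (.cons 467 435 .nil .nil)) (.cons 595 563 .nil .nil))), (563, (.cons 531 595 (.cons 435 467 .nil (.cons 467 435 .nil .nil)) (.cons 595 531 (.cons 659 691 .nil (.cons 691 659 .nil .nil)) .nil))), (595, (.cons 531 563 .nil (.cons 563 531 (.cons 659 691 .nil (.cons 691 659 .nil .nil)) .nil)))]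
  []
  (by decide +kernel) trivial

theorem v3_1728 : VW (PX [] [503,627]) := VW.of base nl_ok fl_ok .nil
  [(534, (.cons 565 596 (.cons 441 472 .nil (.cons 472 441 .nil .nil)) (.cons 596 565 .nil .nil))), (565, (.cons 534 596 (.cons 441 472 .nil (.cons 472 441 .nil .nil)) (.cons 596 534 (.cons 658 689 .nil (.cons 689 658 .nil .nil)) .nil))), (596, (.cons 534 565 .nil (.cons 565 534 (.cons 658 689 .nil (.cons 689 658 .nil .nil)) .nil)))]
  []
  (by decide +kernel) trivial

theorem v3_1729 : VW (PX [495,660] [528,561,594,627]) := VW.of base nl_ok fl_ok .nil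
  []
  []
  (by decide +kernel) trivial

theorem v3_1730 : VW (PX [495,594] [528,561,627,660]) := VW.of base nl_ok fl_ok .nil
  [(693, (.cons 726 759 .nil (.cons 759 726 .nil .nil))), (726, (.cons 693 759 .nil (.cons 759 693 .nil .nil))), (759, (.cons 693 726 .nil (.cons 726 693 .nil .nil)))]
  []
  (by decide +kernel) trivial

theorem w3_1731_594 : S (PX [495] [528,561,594,627]) := VW.play 660 (PX [495,660] [528,561,594,627]) (by decide +kernel) v3_1729

theorem w3_1731_660 : S (PX [495] [528,561,627,660]) := VW.play 594 (PX [495,594] [528,561,627,660]) (by decide +kernel) v3_1730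

theorem v3_1731 : VW (PX [495] [528,561,627]) := VW.of base nl_ok fl_ok (.cons 594 660 .nil (.cons 660 594 .nil .nil))
  [(693, (.cons 594 660 .nil (.cons 660 594 (.cons 726 759 .nil (.cons 759 726 .nil .nil)) .nil))), (726, (.cons 594 660 .nil (.cons 660 594 (.cons 693 759 .nil (.cons 759 693 .nil .nil)) .nil))), (759, (.cons 594 660 .nil (.cons 660 594 (.cons 693 726 .nil (.cons 726 693 .nil .nil)) .nil)))]
  [([594], (PX [495] [528,561,594,627])), ([660], (PX [495] [528,561,627,660]))]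
  (by decide +kernel) ⟨w3_1731_594, w3_1731_660, trivial⟩

theorem v3_1732 : VW (PX [561] [528,594,627]) := VW.of base nl_ok fl_ok .nil
  [(660, (.cons 693 726 .nil (.cons 726 693 .nil .nil))), (693, (.cons 660 726 .nil (.cons 726 660 .nil .nil))), (726, (.cons 660 693 .nil (.cons 693 660 .nil .nil)))]
  []
  (by decide +kernel) trivial

theorem w3_1733_495 : S (PX [] [495,528,627]) := VW.play 561 (PX [561] [495,528,627]) (by decide +kernel) v3_1725

theorem w3_1733_561 : S (PX [] [528,561,627]) := VW.play 495 (PX [495] [528,561,627]) (by decide +kernel) v3_1731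

theorem w3_1733_594 : S (PX [] [528,594,627]) := VW.play 561 (PX [561] [528,594,627]) (by decide +kernel) v3_1732

theorem v3_1733 : VW (PX [] [528,627]) := VW.of base nl_ok fl_ok .nil
  [(660, (.cons 561 594 .nil (.cons 594 561 (.cons 693 726 .nil (.cons 726 693 .nil .nil)) .nil)))]
  [([495], (PX [] [495,528,627])), ([561], (PX [] [528,561,627])), ([594], (PX [] [528,594,627]))]
  (by decide +kernel) ⟨w3_1733_495, w3_1733_561, w3_1733_594, trivial⟩

theorem v3_1137 : VW (PX [595] [531,563,627]) := VW.of base nl_ok fl_ok .nil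
  [(435, (.cons 467 499 .nil (.cons 499 467 .nil .nil))), (467, (.cons 435 499 .nil (.cons 499 435 .nil .nil))), (499, (.cons 435 467 .nil (.cons 467 435 .nil .nil)))]
  []
  (by decide +kernel) trivial

theorem v3_1189 : VW (PX [563] [531,595,627]) := VW.of base nl_ok fl_ok .nil
  [(659, (.cons 691 723 .nil (.cons 723 691 .nil .nil))), (691, (.cons 659 723 .nil (.cons 723 659 .nil .nil))), (723, (.cons 659 691 .nil (.cons 691 659 .nil .nil)))]
  []
  (by decide +kernel) trivial

theorem w3_1196_563 : S (PX [] [531,563,627]) := VW.play 595 (PX [595] [531,563,627]) (by decide +kernel) v3_1137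

theorem w3_1196_595 : S (PX [] [531,595,627]) := VW.play 563 (PX [563] [531,595,627]) (by decide +kernel) v3_1189

theorem v3_1196 : VW (PX [] [531,627]) := VW.of base nl_ok fl_ok .nil
  [(499, (.cons 563 595 (.cons 435 467 .nil (.cons 467 435 .nil .nil)) (.cons 595 563 .nil .nil))), (659, (.cons 563 595 .nil (.cons 595 563 (.cons 691 723 .nil (.cons 723 691 .nil .nil)) .nil)))]
  [([563], (PX [] [531,563,627])), ([595], (PX [] [531,595,627]))]
  (by decide +kernel) ⟨w3_1196_563, w3_1196_595, trivial⟩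

theorem v3_1737 : VW (PX [596] [534,565,627]) := VW.of base nl_ok fl_ok .nil
  [(441, (.cons 472 503 .nil (.cons 503 472 .nil .nil))), (472, (.cons 441 503 .nil (.cons 503 441 .nil .nil))), (503, (.cons 441 472 .nil (.cons 472 441 .nil .nil)))]
  []
  (by decide +kernel) trivial

theorem v3_1752 : VW (PX [565] [534,596,627]) := VW.of base nl_ok fl_ok .nil
  [(658, (.cons 689 720 .nil (.cons 720 689 .nil .nil))), (689, (.cons 658 720 .nil (.cons 720 658 .nil .nil))), (720, (.cons 658 689 .nil (.cons 689 658 .nil .nil)))]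
  []
  (by decide +kernel) trivial

theorem w3_1755_565 : S (PX [] [534,565,627]) := VW.play 596 (PX [596] [534,565,627]) (by decide +kernel) v3_1737

theorem w3_1755_596 : S (PX [] [534,596,627]) := VW.play 565 (PX [565] [534,596,627]) (by decide +kernel) v3_1752

theorem v3_1755 : VW (PX [] [534,627]) := VW.of base nl_ok fl_ok .nil
  [(503, (.cons 565 596 (.cons 441 472 .nil (.cons 472 441 .nil .nil)) (.cons 596 565 .nil .nil))), (658, (.cons 565 596 .nil (.cons 596 565 (.cons 689 720 .nil (.cons 720 689 .nil .nil)) .nil)))]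
  [([565], (PX [] [534,565,627])), ([596], (PX [] [534,596,627]))]
  (by decide +kernel) ⟨w3_1755_565, w3_1755_596, trivial⟩

theorem v3_1756 : VW (PX [528,693] [561,594,627,660]) := VW.of base nl_ok fl_ok .nil
  []
  []
  (by decide +kernel) trivial

theorem v3_1757 : VW (PX [528,660] [561,594,627,693]) := VW.of base nl_ok fl_ok .nil
  []
  []
  (by decide +kernel) trivial

theorem w3_1758_660 : S (PX [528] [561,594,627,660]) := VW.play 693 (PX [528,693] [561,594,627,660]) (by decide +kernel) v3_1756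

theorem w3_1758_693 : S (PX [528] [561,594,627,693]) := VW.play 660 (PX [528,660] [561,594,627,693]) (by decide +kernel) v3_1757

theorem v3_1758 : VW (PX [528] [561,594,627]) := VW.of base nl_ok fl_ok (.cons 660 693 .nil (.cons 693 660 .nil .nil))
  [(726, (.cons 660 693 .nil (.cons 693 660 .nil .nil))), (759, (.cons 660 693 .nil (.cons 693 660 .nil .nil))), (792, (.cons 660 693 .nil (.cons 693 660 .nil .nil)))]
  [([660], (PX [528] [561,594,627,660])), ([693], (PX [528] [561,594,627,693]))]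
  (by decide +kernel) ⟨w3_1758_660, w3_1758_693, trivial⟩

theorem v3_1773 : VW (PX [594] [561,627,660]) := VW.of base nl_ok fl_ok .nil
  [(693, (.cons 726 759 .nil (.cons 759 726 .nil .nil))), (726, (.cons 693 759 .nil (.cons 759 693 .nil .nil))), (759, (.cons 693 726 .nil (.cons 726 693 .nil .nil)))]
  []
  (by decide +kernel) trivial

theorem w3_1774_495 : S (PX [] [495,561,627]) := VW.play 528 (PX [528] [495,561,627]) (by decide +kernel) v3_1726

theorem w3_1774_528 : S (PX [] [528,561,627]) := VW.play 495 (PX [495] [528,561,627]) (by decide +kernel) v3_1731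

theorem w3_1774_594 : S (PX [] [561,594,627]) := VW.play 528 (PX [528] [561,594,627]) (by decide +kernel) v3_1758

theorem w3_1774_660 : S (PX [] [561,627,660]) := VW.play 594 (PX [594] [561,627,660]) (by decide +kernel) v3_1773

theorem v3_1774 : VW (PX [] [561,627]) := VW.of base nl_ok fl_ok .nil
  [(693, (.cons 594 660 (.cons 495 528 .nil (.cons 528 495 .nil .nil)) (.cons 660 594 (.cons 726 759 .nil (.cons 759 726 .nil .nil)) .nil)))]
  [([495], (PX [] [495,561,627])), ([528], (PX [] [528,561,627])), ([594], (PX [] [561,594,627])), ([660], (PX [] [561,627,660]))]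
  (by decide +kernel) ⟨w3_1774_495, w3_1774_528, w3_1774_594, w3_1774_660, trivial⟩

theorem v3_1397 : VW (PX [531,691] [563,595,627,659]) := VW.of base nl_ok fl_ok .nil
  []
  []
  (by decide +kernel) trivial

theorem v3_1398 : VW (PX [531,659] [563,595,627,691]) := VW.of base nl_ok fl_ok .nil
  []
  []
  (by decide +kernel) trivial

theorem w3_1399_659 : S (PX [531] [563,595,627,659]) := VW.play 691 (PX [531,691] [563,595,627,659]) (by decide +kernel) v3_1397

theorem w3_1399_691 : S (PX [531] [563,595,627,691]) := VW.play 659 (PX [531,659] [563,595,627,691]) (by decide +kernel) v3_1398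

theorem v3_1399 : VW (PX [531] [563,595,627]) := VW.of base nl_ok fl_ok (.cons 659 691 .nil (.cons 691 659 .nil .nil))
  [(723, (.cons 659 691 .nil (.cons 691 659 .nil .nil))), (755, (.cons 659 691 .nil (.cons 691 659 .nil .nil))), (787, (.cons 659 691 .nil (.cons 691 659 .nil .nil)))]
  [([659], (PX [531] [563,595,627,659])), ([691], (PX [531] [563,595,627,691]))]
  (by decide +kernel) ⟨w3_1399_659, w3_1399_691, trivial⟩

theorem v3_1456 : VW (PX [595] [563,627,659]) := VW.of base nl_ok fl_ok .nil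
  [(691, (.cons 723 755 .nil (.cons 755 723 .nil .nil))), (723, (.cons 691 755 .nil (.cons 755 691 .nil .nil))), (755, (.cons 691 723 .nil (.cons 723 691 .nil .nil)))]
  []
  (by decide +kernel) trivial

theorem w3_1459_531 : S (PX [] [531,563,627]) := VW.play 595 (PX [595] [531,563,627]) (by decide +kernel) v3_1137

theorem w3_1459_595 : S (PX [] [563,595,627]) := VW.play 531 (PX [531] [563,595,627]) (by decide +kernel) v3_1399

theorem w3_1459_659 : S (PX [] [563,627,659]) := VW.play 595 (PX [595] [563,627,659]) (by decide +kernel) v3_1456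

theorem v3_1459 : VW (PX [] [563,627]) := VW.of base nl_ok fl_ok .nil
  [(499, (.cons 531 595 (.cons 435 467 .nil (.cons 467 435 .nil .nil)) (.cons 595 531 (.cons 659 691 .nil (.cons 691 659 .nil .nil)) .nil))), (691, (.cons 595 659 (.cons 499 531 .nil (.cons 531 499 .nil .nil)) (.cons 659 595 (.cons 723 755 .nil (.cons 755 723 .nil .nil)) .nil)))]
  [([531], (PX [] [531,563,627])), ([595], (PX [] [563,595,627])), ([659], (PX [] [563,627,659]))]
  (by decide +kernel) ⟨w3_1459_531, w3_1459_595, w3_1459_659, trivial⟩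

theorem v3_1775 : VW (PX [534,689] [565,596,627,658]) := VW.of base nl_ok fl_ok .nil
  []
  []
  (by decide +kernel) trivial

theorem v3_1776 : VW (PX [534,658] [565,596,627,689]) := VW.of base nl_ok fl_ok .nil
  []
  []
  (by decide +kernel) trivial

theorem w3_1777_658 : S (PX [534] [565,596,627,658]) := VW.play 689 (PX [534,689] [565,596,627,658]) (by decide +kernel) v3_1775

theorem w3_1777_689 : S (PX [534] [565,596,627,689]) := VW.play 658 (PX [534,658] [565,596,627,689]) (by decide +kernel) v3_1776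

theorem v3_1777 : VW (PX [534] [565,596,627]) := VW.of base nl_ok fl_ok (.cons 658 689 .nil (.cons 689 658 .nil .nil))
  [(720, (.cons 658 689 .nil (.cons 689 658 .nil .nil))), (751, (.cons 658 689 .nil (.cons 689 658 .nil .nil))), (782, (.cons 658 689 .nil (.cons 689 658 .nil .nil)))]
  [([658], (PX [534] [565,596,627,658])), ([689], (PX [534] [565,596,627,689]))]
  (by decide +kernel) ⟨w3_1777_658, w3_1777_689, trivial⟩

theorem v3_1794 : VW (PX [596] [565,627,658]) := VW.of base nl_ok fl_ok .nil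
  [(689, (.cons 720 751 .nil (.cons 751 720 .nil .nil))), (720, (.cons 689 751 .nil (.cons 751 689 .nil .nil))), (751, (.cons 689 720 .nil (.cons 720 689 .nil .nil)))]
  []
  (by decide +kernel) trivial

theorem w3_1797_534 : S (PX [] [534,565,627]) := VW.play 596 (PX [596] [534,565,627]) (by decide +kernel) v3_1737

theorem w3_1797_596 : S (PX [] [565,596,627]) := VW.play 534 (PX [534] [565,596,627]) (by decide +kernel) v3_1777

theorem w3_1797_658 : S (PX [] [565,627,658]) := VW.play 596 (PX [596] [565,627,658]) (by decide +kernel) v3_1794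

theorem v3_1797 : VW (PX [] [565,627]) := VW.of base nl_ok fl_ok .nil
  [(503, (.cons 534 596 (.cons 441 472 .nil (.cons 472 441 .nil .nil)) (.cons 596 534 (.cons 658 689 .nil (.cons 689 658 .nil .nil)) .nil))), (689, (.cons 596 658 (.cons 503 534 .nil (.cons 534 503 .nil .nil)) (.cons 658 596 (.cons 720 751 .nil (.cons 751 720 .nil .nil)) .nil)))]
  [([534], (PX [] [534,565,627])), ([596], (PX [] [565,596,627])), ([658], (PX [] [565,627,658]))]
  (by decide +kernel) ⟨w3_1797_534, w3_1797_596, w3_1797_658, trivial⟩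

theorem v3_1798 : VW (PX [561,726] [594,627,660,693]) := VW.of base nl_ok fl_ok .nil
  []
  []
  (by decide +kernel) trivial

theorem v3_1799 : VW (PX [561,693] [594,627,660,726]) := VW.of base nl_ok fl_ok .nil
  []
  []
  (by decide +kernel) trivial

theorem w3_1800_693 : S (PX [561] [594,627,660,693]) := VW.play 726 (PX [561,726] [594,627,660,693]) (by decide +kernel) v3_1798

theorem w3_1800_726 : S (PX [561] [594,627,660,726]) := VW.play 693 (PX [561,693] [594,627,660,726]) (by decide +kernel) v3_1799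

theorem v3_1800 : VW (PX [561] [594,627,660]) := VW.of base nl_ok fl_ok (.cons 693 726 .nil (.cons 726 693 .nil .nil))
  [(759, (.cons 693 726 .nil (.cons 726 693 .nil .nil))), (792, (.cons 693 726 .nil (.cons 726 693 .nil .nil))), (825, (.cons 693 726 .nil (.cons 726 693 .nil .nil)))]
  [([693], (PX [561] [594,627,660,693])), ([726], (PX [561] [594,627,660,726]))]
  (by decide +kernel) ⟨w3_1800_693, w3_1800_726, trivial⟩

theorem v3_1803 : VW (PX [660] [594,627,693]) := VW.of base nl_ok fl_ok .nil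
  [(495, (.cons 528 561 .nil (.cons 561 528 .nil .nil))), (528, (.cons 495 561 .nil (.cons 561 495 .nil .nil))), (561, (.cons 495 528 .nil (.cons 528 495 .nil .nil)))]
  []
  (by decide +kernel) trivial

theorem w3_1804_528 : S (PX [] [528,594,627]) := VW.play 561 (PX [561] [528,594,627]) (by decide +kernel) v3_1732

theorem w3_1804_561 : S (PX [] [561,594,627]) := VW.play 528 (PX [528] [561,594,627]) (by decide +kernel) v3_1758

theorem w3_1804_660 : S (PX [] [594,627,660]) := VW.play 561 (PX [561] [594,627,660]) (by decide +kernel) v3_1800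

theorem w3_1804_693 : S (PX [] [594,627,693]) := VW.play 660 (PX [660] [594,627,693]) (by decide +kernel) v3_1803

theorem v3_1804 : VW (PX [] [594,627]) := VW.of base nl_ok fl_ok .nil
  [(495, (.cons 528 561 .nil (.cons 561 528 (.cons 660 693 .nil (.cons 693 660 .nil .nil)) .nil))), (726, (.cons 660 693 (.cons 528 561 .nil (.cons 561 528 .nil .nil)) (.cons 693 660 .nil .nil)))]
  [([528], (PX [] [528,594,627])), ([561], (PX [] [561,594,627])), ([660], (PX [] [594,627,660])), ([693], (PX [] [594,627,693]))]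
  (by decide +kernel) ⟨w3_1804_528, w3_1804_561, w3_1804_660, w3_1804_693, trivial⟩

theorem v3_1652 : VW (PX [563,723] [595,627,659,691]) := VW.of base nl_ok fl_ok .nil
  []
  []
  (by decide +kernel) trivial

theorem v3_1653 : VW (PX [563,691] [595,627,659,723]) := VW.of base nl_ok fl_ok .nil
  []
  []
  (by decide +kernel) trivial

theorem w3_1654_691 : S (PX [563] [595,627,659,691]) := VW.play 723 (PX [563,723] [595,627,659,691]) (by decide +kernel) v3_1652

theorem w3_1654_723 : S (PX [563] [595,627,659,723]) := VW.play 691 (PX [563,691] [595,627,659,723]) (by decide +kernel) v3_1653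

theorem v3_1654 : VW (PX [563] [595,627,659]) := VW.of base nl_ok fl_ok (.cons 691 723 .nil (.cons 723 691 .nil .nil))
  [(755, (.cons 691 723 .nil (.cons 723 691 .nil .nil))), (787, (.cons 691 723 .nil (.cons 723 691 .nil .nil))), (819, (.cons 691 723 .nil (.cons 723 691 .nil .nil)))]
  [([691], (PX [563] [595,627,659,691])), ([723], (PX [563] [595,627,659,723]))]
  (by decide +kernel) ⟨w3_1654_691, w3_1654_723, trivial⟩

theorem v3_1659 : VW (PX [659] [595,627,691]) := VW.of base nl_ok fl_ok .nil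
  [(499, (.cons 531 563 .nil (.cons 563 531 .nil .nil))), (531, (.cons 499 563 .nil (.cons 563 499 .nil .nil))), (563, (.cons 499 531 .nil (.cons 531 499 .nil .nil)))]
  []
  (by decide +kernel) trivial

theorem w3_1671_531 : S (PX [] [531,595,627]) := VW.play 563 (PX [563] [531,595,627]) (by decide +kernel) v3_1189

theorem w3_1671_563 : S (PX [] [563,595,627]) := VW.play 531 (PX [531] [563,595,627]) (by decide +kernel) v3_1399

theorem w3_1671_659 : S (PX [] [595,627,659]) := VW.play 563 (PX [563] [595,627,659]) (by decide +kernel) v3_1654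

theorem w3_1671_691 : S (PX [] [595,627,691]) := VW.play 659 (PX [659] [595,627,691]) (by decide +kernel) v3_1659

theorem v3_1671 : VW (PX [] [595,627]) := VW.of base nl_ok fl_ok .nil
  [(499, (.cons 531 563 .nil (.cons 563 531 (.cons 659 691 .nil (.cons 691 659 .nil .nil)) .nil))), (723, (.cons 659 691 (.cons 531 563 .nil (.cons 563 531 .nil .nil)) (.cons 691 659 .nil .nil)))]
  [([531], (PX [] [531,595,627])), ([563], (PX [] [563,595,627])), ([659], (PX [] [595,627,659])), ([691], (PX [] [595,627,691]))]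
  (by decide +kernel) ⟨w3_1671_531, w3_1671_563, w3_1671_659, w3_1671_691, trivial⟩

theorem v3_1805 : VW (PX [565,720] [596,627,658,689]) := VW.of base nl_ok fl_ok .nil
  []
  []
  (by decide +kernel) trivial

theorem v3_1806 : VW (PX [565,689] [596,627,658,720]) := VW.of base nl_ok fl_ok .nil
  []
  []
  (by decide +kernel) trivial

theorem w3_1807_689 : S (PX [565] [596,627,658,689]) := VW.play 720 (PX [565,720] [596,627,658,689]) (by decide +kernel) v3_1805

theorem w3_1807_720 : S (PX [565] [596,627,658,720]) := VW.play 689 (PX [565,689] [596,627,658,720]) (by decide +kernel) v3_1806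

theorem v3_1807 : VW (PX [565] [596,627,658]) := VW.of base nl_ok fl_ok (.cons 689 720 .nil (.cons 720 689 .nil .nil))
  [(751, (.cons 689 720 .nil (.cons 720 689 .nil .nil))), (782, (.cons 689 720 .nil (.cons 720 689 .nil .nil))), (813, (.cons 689 720 .nil (.cons 720 689 .nil .nil)))]
  [([689], (PX [565] [596,627,658,689])), ([720], (PX [565] [596,627,658,720]))]
  (by decide +kernel) ⟨w3_1807_689, w3_1807_720, trivial⟩

theorem v3_1812 : VW (PX [658] [596,627,689]) := VW.of base nl_ok fl_ok .nil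
  [(503, (.cons 534 565 .nil (.cons 565 534 .nil .nil))), (534, (.cons 503 565 .nil (.cons 565 503 .nil .nil))), (565, (.cons 503 534 .nil (.cons 534 503 .nil .nil)))]
  []
  (by decide +kernel) trivial

theorem w3_1824_534 : S (PX [] [534,596,627]) := VW.play 565 (PX [565] [534,596,627]) (by decide +kernel) v3_1752

theorem w3_1824_565 : S (PX [] [565,596,627]) := VW.play 534 (PX [534] [565,596,627]) (by decide +kernel) v3_1777

theorem w3_1824_658 : S (PX [] [596,627,658]) := VW.play 565 (PX [565] [596,627,658]) (by decide +kernel) v3_1807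

theorem w3_1824_689 : S (PX [] [596,627,689]) := VW.play 658 (PX [658] [596,627,689]) (by decide +kernel) v3_1812

theorem v3_1824 : VW (PX [] [596,627]) := VW.of base nl_ok fl_ok .nil
  [(503, (.cons 534 565 .nil (.cons 565 534 (.cons 658 689 .nil (.cons 689 658 .nil .nil)) .nil))), (720, (.cons 658 689 (.cons 534 565 .nil (.cons 565 534 .nil .nil)) (.cons 689 658 .nil .nil)))]
  [([534], (PX [] [534,596,627])), ([565], (PX [] [565,596,627])), ([658], (PX [] [596,627,658])), ([689], (PX [] [596,627,689]))]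
  (by decide +kernel) ⟨w3_1824_534, w3_1824_565, w3_1824_658, w3_1824_689, trivial⟩

theorem v3_1825 : VW (PX [] [623,627]) := VW.of base nl_ok fl_ok .nil
  [(624, (.cons 625 626 (.cons 621 622 .nil (.cons 622 621 .nil .nil)) (.cons 626 625 .nil .nil))), (625, (.cons 624 626 (.cons 621 622 .nil (.cons 622 621 .nil .nil)) (.cons 626 624 (.cons 628 629 .nil (.cons 629 628 .nil .nil)) .nil))), (626, (.cons 624 625 .nil (.cons 625 624 (.cons 628 629 .nil (.cons 629 628 .nil .nil)) .nil)))]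
  []
  (by decide +kernel) trivial

theorem v3_1829 : VW (PX [626] [624,625,627]) := VW.of base nl_ok fl_ok .nil
  [(621, (.cons 622 623 .nil (.cons 623 622 .nil .nil))), (622, (.cons 621 623 .nil (.cons 623 621 .nil .nil))), (623, (.cons 621 622 .nil (.cons 622 621 .nil .nil)))]
  []
  (by decide +kernel) trivial

theorem v3_1844 : VW (PX [625] [624,626,627]) := VW.of base nl_ok fl_ok .nil
  [(628, (.cons 629 630 .nil (.cons 630 629 .nil .nil))), (629, (.cons 628 630 .nil (.cons 630 628 .nil .nil))), (630, (.cons 628 629 .nil (.cons 629 628 .nil .nil)))]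
  []
  (by decide +kernel) trivial

theorem w3_1847_625 : S (PX [] [624,625,627]) := VW.play 626 (PX [626] [624,625,627]) (by decide +kernel) v3_1829

theorem w3_1847_626 : S (PX [] [624,626,627]) := VW.play 625 (PX [625] [624,626,627]) (by decide +kernel) v3_1844

theorem v3_1847 : VW (PX [] [624,627]) := VW.of base nl_ok fl_ok .nil
  [(623, (.cons 625 626 (.cons 621 622 .nil (.cons 622 621 .nil .nil)) (.cons 626 625 .nil .nil))), (628, (.cons 625 626 .nil (.cons 626 625 (.cons 629 630 .nil (.cons 630 629 .nil .nil)) .nil)))]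
  [([625], (PX [] [624,625,627])), ([626], (PX [] [624,626,627]))]
  (by decide +kernel) ⟨w3_1847_625, w3_1847_626, trivial⟩

theorem v3_1848 : VW (PX [624,629] [625,626,627,628]) := VW.of base nl_ok fl_ok .nil
  []
  []
  (by decide +kernel) trivial

theorem v3_1849 : VW (PX [624,628] [625,626,627,629]) := VW.of base nl_ok fl_ok .nil
  []
  []
  (by decide +kernel) trivial

theorem w3_1850_628 : S (PX [624] [625,626,627,628]) := VW.play 629 (PX [624,629] [625,626,627,628]) (by decide +kernel) v3_1848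

theorem w3_1850_629 : S (PX [624] [625,626,627,629]) := VW.play 628 (PX [624,628] [625,626,627,629]) (by decide +kernel) v3_1849

theorem v3_1850 : VW (PX [624] [625,626,627]) := VW.of base nl_ok fl_ok (.cons 628 629 .nil (.cons 629 628 .nil .nil))
  [(630, (.cons 628 629 .nil (.cons 629 628 .nil .nil))), (631, (.cons 628 629 .nil (.cons 629 628 .nil .nil))), (632, (.cons 628 629 .nil (.cons 629 628 .nil .nil)))]
  [([628], (PX [624] [625,626,627,628])), ([629], (PX [624] [625,626,627,629]))]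
  (by decide +kernel) ⟨w3_1850_628, w3_1850_629, trivial⟩

theorem v3_1867 : VW (PX [626] [625,627,628]) := VW.of base nl_ok fl_ok .nil
  [(629, (.cons 630 631 .nil (.cons 631 630 .nil .nil))), (630, (.cons 629 631 .nil (.cons 631 629 .nil .nil))), (631, (.cons 629 630 .nil (.cons 630 629 .nil .nil)))]
  []
  (by decide +kernel) trivial

theorem w3_1870_624 : S (PX [] [624,625,627]) := VW.play 626 (PX [626] [624,625,627]) (by decide +kernel) v3_1829

theorem w3_1870_626 : S (PX [] [625,626,627]) := VW.play 624 (PX [624] [625,626,627]) (by decide +kernel) v3_1850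

theorem w3_1870_628 : S (PX [] [625,627,628]) := VW.play 626 (PX [626] [625,627,628]) (by decide +kernel) v3_1867

theorem v3_1870 : VW (PX [] [625,627]) := VW.of base nl_ok fl_ok .nil
  [(623, (.cons 624 626 (.cons 621 622 .nil (.cons 622 621 .nil .nil)) (.cons 626 624 (.cons 628 629 .nil (.cons 629 628 .nil .nil)) .nil))), (629, (.cons 626 628 (.cons 623 624 .nil (.cons 624 623 .nil .nil)) (.cons 628 626 (.cons 630 631 .nil (.cons 631 630 .nil .nil)) .nil)))]
  [([624], (PX [] [624,625,627])), ([626], (PX [] [625,626,627])), ([628], (PX [] [625,627,628]))]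
  (by decide +kernel) ⟨w3_1870_624, w3_1870_626, w3_1870_628, trivial⟩

theorem v3_1871 : VW (PX [625,630] [626,627,628,629]) := VW.of base nl_ok fl_ok .nil
  []
  []
  (by decide +kernel) trivial

theorem v3_1872 : VW (PX [625,629] [626,627,628,630]) := VW.of base nl_ok fl_ok .nil
  []
  []
  (by decide +kernel) trivial

theorem w3_1873_629 : S (PX [625] [626,627,628,629]) := VW.play 630 (PX [625,630] [626,627,628,629]) (by decide +kernel) v3_1871

theorem w3_1873_630 : S (PX [625] [626,627,628,630]) := VW.play 629 (PX [625,629] [626,627,628,630]) (by decide +kernel) v3_1872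

theorem v3_1873 : VW (PX [625] [626,627,628]) := VW.of base nl_ok fl_ok (.cons 629 630 .nil (.cons 630 629 .nil .nil))
  [(631, (.cons 629 630 .nil (.cons 630 629 .nil .nil))), (632, (.cons 629 630 .nil (.cons 630 629 .nil .nil))), (633, (.cons 629 630 .nil (.cons 630 629 .nil .nil)))]
  [([629], (PX [625] [626,627,628,629])), ([630], (PX [625] [626,627,628,630]))]
  (by decide +kernel) ⟨w3_1873_629, w3_1873_630, trivial⟩

theorem v3_1878 : VW (PX [628] [626,627,629]) := VW.of base nl_ok fl_ok .nil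
  [(623, (.cons 624 625 .nil (.cons 625 624 .nil .nil))), (624, (.cons 623 625 .nil (.cons 625 623 .nil .nil))), (625, (.cons 623 624 .nil (.cons 624 623 .nil .nil)))]
  []
  (by decide +kernel) trivial

theorem w3_1890_624 : S (PX [] [624,626,627]) := VW.play 625 (PX [625] [624,626,627]) (by decide +kernel) v3_1844

theorem w3_1890_625 : S (PX [] [625,626,627]) := VW.play 624 (PX [624] [625,626,627]) (by decide +kernel) v3_1850

theorem w3_1890_628 : S (PX [] [626,627,628]) := VW.play 625 (PX [625] [626,627,628]) (by decide +kernel) v3_1873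

theorem w3_1890_629 : S (PX [] [626,627,629]) := VW.play 628 (PX [628] [626,627,629]) (by decide +kernel) v3_1878

theorem v3_1890 : VW (PX [] [626,627]) := VW.of base nl_ok fl_ok .nil
  [(623, (.cons 624 625 .nil (.cons 625 624 (.cons 628 629 .nil (.cons 629 628 .nil .nil)) .nil))), (630, (.cons 628 629 (.cons 624 625 .nil (.cons 625 624 .nil .nil)) (.cons 629 628 .nil .nil)))]
  [([624], (PX [] [624,626,627])), ([625], (PX [] [625,626,627])), ([628], (PX [] [626,627,628])), ([629], (PX [] [626,627,629]))]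
  (by decide +kernel) ⟨w3_1890_624, w3_1890_625, w3_1890_628, w3_1890_629, trivial⟩

theorem v3_1891 : VW (PX [626,631] [627,628,629,630]) := VW.of base nl_ok fl_ok .nil
  []
  []
  (by decide +kernel) trivial

theorem v3_1892 : VW (PX [626,630] [627,628,629,631]) := VW.of base nl_ok fl_ok .nil
  []
  []
  (by decide +kernel) trivial

theorem w3_1893_630 : S (PX [626] [627,628,629,630]) := VW.play 631 (PX [626,631] [627,628,629,630]) (by decide +kernel) v3_1891

theorem w3_1893_631 : S (PX [626] [627,628,629,631]) := VW.play 630 (PX [626,630] [627,628,629,631]) (by decide +kernel) v3_1892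

theorem v3_1893 : VW (PX [626] [627,628,629]) := VW.of base nl_ok fl_ok (.cons 630 631 .nil (.cons 631 630 .nil .nil))
  [(632, (.cons 630 631 .nil (.cons 631 630 .nil .nil))), (633, (.cons 630 631 .nil (.cons 631 630 .nil .nil))), (634, (.cons 630 631 .nil (.cons 631 630 .nil .nil)))]
  [([630], (PX [626] [627,628,629,630])), ([631], (PX [626] [627,628,629,631]))]
  (by decide +kernel) ⟨w3_1893_630, w3_1893_631, trivial⟩

theorem v3_1898 : VW (PX [629] [627,628,630]) := VW.of base nl_ok fl_ok .nil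
  [(624, (.cons 625 626 .nil (.cons 626 625 .nil .nil))), (625, (.cons 624 626 .nil (.cons 626 624 .nil .nil))), (626, (.cons 624 625 .nil (.cons 625 624 .nil .nil)))]
  []
  (by decide +kernel) trivial

theorem w3_1910_625 : S (PX [] [625,627,628]) := VW.play 626 (PX [626] [625,627,628]) (by decide +kernel) v3_1867

theorem w3_1910_626 : S (PX [] [626,627,628]) := VW.play 625 (PX [625] [626,627,628]) (by decide +kernel) v3_1873

theorem w3_1910_629 : S (PX [] [627,628,629]) := VW.play 626 (PX [626] [627,628,629]) (by decide +kernel) v3_1893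

theorem w3_1910_630 : S (PX [] [627,628,630]) := VW.play 629 (PX [629] [627,628,630]) (by decide +kernel) v3_1898

theorem v3_1910 : VW (PX [] [627,628]) := VW.of base nl_ok fl_ok .nil
  [(624, (.cons 625 626 .nil (.cons 626 625 (.cons 629 630 .nil (.cons 630 629 .nil .nil)) .nil))), (631, (.cons 629 630 (.cons 625 626 .nil (.cons 626 625 .nil .nil)) (.cons 630 629 .nil .nil)))]
  [([625], (PX [] [625,627,628])), ([626], (PX [] [626,627,628])), ([629], (PX [] [627,628,629])), ([630], (PX [] [627,628,630]))]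
  (by decide +kernel) ⟨w3_1910_625, w3_1910_626, w3_1910_629, w3_1910_630, trivial⟩

theorem v3_1911 : VW (PX [628] [627,629,630]) := VW.of base nl_ok fl_ok .nil
  [(631, (.cons 632 633 .nil (.cons 633 632 .nil .nil))), (632, (.cons 631 633 .nil (.cons 633 631 .nil .nil))), (633, (.cons 631 632 .nil (.cons 632 631 .nil .nil)))]
  []
  (by decide +kernel) trivial

theorem w3_1914_626 : S (PX [] [626,627,629]) := VW.play 628 (PX [628] [626,627,629]) (by decide +kernel) v3_1878

theorem w3_1914_628 : S (PX [] [627,628,629]) := VW.play 626 (PX [626] [627,628,629]) (by decide +kernel) v3_1893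

theorem w3_1914_630 : S (PX [] [627,629,630]) := VW.play 628 (PX [628] [627,629,630]) (by decide +kernel) v3_1911

theorem v3_1914 : VW (PX [] [627,629]) := VW.of base nl_ok fl_ok .nil
  [(625, (.cons 626 628 (.cons 623 624 .nil (.cons 624 623 .nil .nil)) (.cons 628 626 (.cons 630 631 .nil (.cons 631 630 .nil .nil)) .nil))), (631, (.cons 628 630 (.cons 625 626 .nil (.cons 626 625 .nil .nil)) (.cons 630 628 (.cons 632 633 .nil (.cons 633 632 .nil .nil)) .nil)))]
  [([626], (PX [] [626,627,629])), ([628], (PX [] [627,628,629])), ([630], (PX [] [627,629,630]))]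
  (by decide +kernel) ⟨w3_1914_626, w3_1914_628, w3_1914_630, trivial⟩

theorem w3_1915_628 : S (PX [] [627,628,630]) := VW.play 629 (PX [629] [627,628,630]) (by decide +kernel) v3_1898

theorem w3_1915_629 : S (PX [] [627,629,630]) := VW.play 628 (PX [628] [627,629,630]) (by decide +kernel) v3_1911

theorem v3_1915 : VW (PX [] [627,630]) := VW.of base nl_ok fl_ok .nil
  [(626, (.cons 628 629 (.cons 624 625 .nil (.cons 625 624 .nil .nil)) (.cons 629 628 .nil .nil))), (631, (.cons 628 629 .nil (.cons 629 628 (.cons 632 633 .nil (.cons 633 632 .nil .nil)) .nil)))]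
  [([628], (PX [] [627,628,630])), ([629], (PX [] [627,629,630]))]
  (by decide +kernel) ⟨w3_1915_628, w3_1915_629, trivial⟩

theorem v3_1916 : VW (PX [] [627,631]) := VW.of base nl_ok fl_ok .nil
  [(628, (.cons 629 630 (.cons 625 626 .nil (.cons 626 625 .nil .nil)) (.cons 630 629 .nil .nil))), (629, (.cons 628 630 (.cons 625 626 .nil (.cons 626 625 .nil .nil)) (.cons 630 628 (.cons 632 633 .nil (.cons 633 632 .nil .nil)) .nil))), (630, (.cons 628 629 .nil (.cons 629 628 (.cons 632 633 .nil (.cons 633 632 .nil .nil)) .nil)))]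
  []
  (by decide +kernel) trivial

theorem v3_1917 : VW (PX [596,751] [627,658,689,720]) := VW.of base nl_ok fl_ok .nil
  []
  []
  (by decide +kernel) trivial

theorem v3_1918 : VW (PX [596,720] [627,658,689,751]) := VW.of base nl_ok fl_ok .nil
  []
  []
  (by decide +kernel) trivial

theorem w3_1919_720 : S (PX [596] [627,658,689,720]) := VW.play 751 (PX [596,751] [627,658,689,720]) (by decide +kernel) v3_1917

theorem w3_1919_751 : S (PX [596] [627,658,689,751]) := VW.play 720 (PX [596,720] [627,658,689,751]) (by decide +kernel) v3_1918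

theorem v3_1919 : VW (PX [596] [627,658,689]) := VW.of base nl_ok fl_ok (.cons 720 751 .nil (.cons 751 720 .nil .nil))
  [(782, (.cons 720 751 .nil (.cons 751 720 .nil .nil))), (813, (.cons 720 751 .nil (.cons 751 720 .nil .nil))), (844, (.cons 720 751 .nil (.cons 751 720 .nil .nil)))]
  [([720], (PX [596] [627,658,689,720])), ([751], (PX [596] [627,658,689,751]))]
  (by decide +kernel) ⟨w3_1919_720, w3_1919_751, trivial⟩

theorem v3_1924 : VW (PX [689] [627,658,720]) := VW.of base nl_ok fl_ok .nil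
  [(534, (.cons 565 596 .nil (.cons 596 565 .nil .nil))), (565, (.cons 534 596 .nil (.cons 596 534 .nil .nil))), (596, (.cons 534 565 .nil (.cons 565 534 .nil .nil)))]
  []
  (by decide +kernel) trivial

theorem w3_1936_565 : S (PX [] [565,627,658]) := VW.play 596 (PX [596] [565,627,658]) (by decide +kernel) v3_1794

theorem w3_1936_596 : S (PX [] [596,627,658]) := VW.play 565 (PX [565] [596,627,658]) (by decide +kernel) v3_1807

theorem w3_1936_689 : S (PX [] [627,658,689]) := VW.play 596 (PX [596] [627,658,689]) (by decide +kernel) v3_1919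

theorem w3_1936_720 : S (PX [] [627,658,720]) := VW.play 689 (PX [689] [627,658,720]) (by decide +kernel) v3_1924

theorem v3_1936 : VW (PX [] [627,658]) := VW.of base nl_ok fl_ok .nil
  [(534, (.cons 565 596 .nil (.cons 596 565 (.cons 689 720 .nil (.cons 720 689 .nil .nil)) .nil))), (751, (.cons 689 720 (.cons 565 596 .nil (.cons 596 565 .nil .nil)) (.cons 720 689 .nil .nil)))]
  [([565], (PX [] [565,627,658])), ([596], (PX [] [596,627,658])), ([689], (PX [] [627,658,689])), ([720], (PX [] [627,658,720]))]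
  (by decide +kernel) ⟨w3_1936_565, w3_1936_596, w3_1936_689, w3_1936_720, trivial⟩

theorem v3_1937 : VW (PX [595,755] [627,659,691,723]) := VW.of base nl_ok fl_ok .nil
  []
  []
  (by decide +kernel) trivial

theorem v3_1938 : VW (PX [595,723] [627,659,691,755]) := VW.of base nl_ok fl_ok .nil
  []
  []
  (by decide +kernel) trivial

theorem w3_1939_723 : S (PX [595] [627,659,691,723]) := VW.play 755 (PX [595,755] [627,659,691,723]) (by decide +kernel) v3_1937

theorem w3_1939_755 : S (PX [595] [627,659,691,755]) := VW.play 723 (PX [595,723] [627,659,691,755]) (by decide +kernel) v3_1938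

theorem v3_1939 : VW (PX [595] [627,659,691]) := VW.of base nl_ok fl_ok (.cons 723 755 .nil (.cons 755 723 .nil .nil))
  [(787, (.cons 723 755 .nil (.cons 755 723 .nil .nil))), (819, (.cons 723 755 .nil (.cons 755 723 .nil .nil))), (851, (.cons 723 755 .nil (.cons 755 723 .nil .nil)))]
  [([723], (PX [595] [627,659,691,723])), ([755], (PX [595] [627,659,691,755]))]
  (by decide +kernel) ⟨w3_1939_723, w3_1939_755, trivial⟩

theorem v3_1944 : VW (PX [691] [627,659,723]) := VW.of base nl_ok fl_ok .nil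
  [(531, (.cons 563 595 .nil (.cons 595 563 .nil .nil))), (563, (.cons 531 595 .nil (.cons 595 531 .nil .nil))), (595, (.cons 531 563 .nil (.cons 563 531 .nil .nil)))]
  []
  (by decide +kernel) trivial

theorem w3_1956_563 : S (PX [] [563,627,659]) := VW.play 595 (PX [595] [563,627,659]) (by decide +kernel) v3_1456

theorem w3_1956_595 : S (PX [] [595,627,659]) := VW.play 563 (PX [563] [595,627,659]) (by decide +kernel) v3_1654

theorem w3_1956_691 : S (PX [] [627,659,691]) := VW.play 595 (PX [595] [627,659,691]) (by decide +kernel) v3_1939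

theorem w3_1956_723 : S (PX [] [627,659,723]) := VW.play 691 (PX [691] [627,659,723]) (by decide +kernel) v3_1944

theorem v3_1956 : VW (PX [] [627,659]) := VW.of base nl_ok fl_ok .nil
  [(531, (.cons 563 595 .nil (.cons 595 563 (.cons 691 723 .nil (.cons 723 691 .nil .nil)) .nil))), (755, (.cons 691 723 (.cons 563 595 .nil (.cons 595 563 .nil .nil)) (.cons 723 691 .nil .nil)))]
  [([563], (PX [] [563,627,659])), ([595], (PX [] [595,627,659])), ([691], (PX [] [627,659,691])), ([723], (PX [] [627,659,723]))]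
  (by decide +kernel) ⟨w3_1956_563, w3_1956_595, w3_1956_691, w3_1956_723, trivial⟩

theorem v3_1957 : VW (PX [594,759] [627,660,693,726]) := VW.of base nl_ok fl_ok .nil
  []
  []
  (by decide +kernel) trivial

theorem v3_1958 : VW (PX [594,726] [627,660,693,759]) := VW.of base nl_ok fl_ok .nil
  []
  []
  (by decide +kernel) trivial

theorem w3_1959_726 : S (PX [594] [627,660,693,726]) := VW.play 759 (PX [594,759] [627,660,693,726]) (by decide +kernel) v3_1957

theorem w3_1959_759 : S (PX [594] [627,660,693,759]) := VW.play 726 (PX [594,726] [627,660,693,759]) (by decide +kernel) v3_1958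

theorem v3_1959 : VW (PX [594] [627,660,693]) := VW.of base nl_ok fl_ok (.cons 726 759 .nil (.cons 759 726 .nil .nil))
  [(792, (.cons 726 759 .nil (.cons 759 726 .nil .nil))), (825, (.cons 726 759 .nil (.cons 759 726 .nil .nil))), (858, (.cons 726 759 .nil (.cons 759 726 .nil .nil)))]
  [([726], (PX [594] [627,660,693,726])), ([759], (PX [594] [627,660,693,759]))]
  (by decide +kernel) ⟨w3_1959_726, w3_1959_759, trivial⟩

theorem v3_1962 : VW (PX [693] [627,660,726]) := VW.of base nl_ok fl_ok .nil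
  [(528, (.cons 561 594 .nil (.cons 594 561 .nil .nil))), (561, (.cons 528 594 .nil (.cons 594 528 .nil .nil))), (594, (.cons 528 561 .nil (.cons 561 528 .nil .nil)))]
  []
  (by decide +kernel) trivial

theorem w3_1963_561 : S (PX [] [561,627,660]) := VW.play 594 (PX [594] [561,627,660]) (by decide +kernel) v3_1773

theorem w3_1963_594 : S (PX [] [594,627,660]) := VW.play 561 (PX [561] [594,627,660]) (by decide +kernel) v3_1800

theorem w3_1963_693 : S (PX [] [627,660,693]) := VW.play 594 (PX [594] [627,660,693]) (by decide +kernel) v3_1959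

theorem w3_1963_726 : S (PX [] [627,660,726]) := VW.play 693 (PX [693] [627,660,726]) (by decide +kernel) v3_1962

theorem v3_1963 : VW (PX [] [627,660]) := VW.of base nl_ok fl_ok .nil
  [(528, (.cons 561 594 .nil (.cons 594 561 (.cons 693 726 .nil (.cons 726 693 .nil .nil)) .nil))), (759, (.cons 693 726 (.cons 561 594 .nil (.cons 594 561 .nil .nil)) (.cons 726 693 .nil .nil)))]
  [([561], (PX [] [561,627,660])), ([594], (PX [] [594,627,660])), ([693], (PX [] [627,660,693])), ([726], (PX [] [627,660,726]))]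
  (by decide +kernel) ⟨w3_1963_561, w3_1963_594, w3_1963_693, w3_1963_726, trivial⟩

theorem v3_1964 : VW (PX [658] [627,689,720]) := VW.of base nl_ok fl_ok .nil
  [(751, (.cons 782 813 .nil (.cons 813 782 .nil .nil))), (782, (.cons 751 813 .nil (.cons 813 751 .nil .nil))), (813, (.cons 751 782 .nil (.cons 782 751 .nil .nil)))]
  []
  (by decide +kernel) trivial

theorem w3_1967_596 : S (PX [] [596,627,689]) := VW.play 658 (PX [658] [596,627,689]) (by decide +kernel) v3_1812

theorem w3_1967_658 : S (PX [] [627,658,689]) := VW.play 596 (PX [596] [627,658,689]) (by decide +kernel) v3_1919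

theorem w3_1967_720 : S (PX [] [627,689,720]) := VW.play 658 (PX [658] [627,689,720]) (by decide +kernel) v3_1964

theorem v3_1967 : VW (PX [] [627,689]) := VW.of base nl_ok fl_ok .nil
  [(565, (.cons 596 658 (.cons 503 534 .nil (.cons 534 503 .nil .nil)) (.cons 658 596 (.cons 720 751 .nil (.cons 751 720 .nil .nil)) .nil))), (751, (.cons 658 720 (.cons 565 596 .nil (.cons 596 565 .nil .nil)) (.cons 720 658 (.cons 782 813 .nil (.cons 813 782 .nil .nil)) .nil)))]
  [([596], (PX [] [596,627,689])), ([658], (PX [] [627,658,689])), ([720], (PX [] [627,689,720]))]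
  (by decide +kernel) ⟨w3_1967_596, w3_1967_658, w3_1967_720, trivial⟩

theorem v3_1968 : VW (PX [659] [627,691,723]) := VW.of base nl_ok fl_ok .nil
  [(755, (.cons 787 819 .nil (.cons 819 787 .nil .nil))), (787, (.cons 755 819 .nil (.cons 819 755 .nil .nil))), (819, (.cons 755 787 .nil (.cons 787 755 .nil .nil)))]
  []
  (by decide +kernel) trivial

theorem w3_1971_595 : S (PX [] [595,627,691]) := VW.play 659 (PX [659] [595,627,691]) (by decide +kernel) v3_1659

theorem w3_1971_659 : S (PX [] [627,659,691]) := VW.play 595 (PX [595] [627,659,691]) (by decide +kernel) v3_1939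

theorem w3_1971_723 : S (PX [] [627,691,723]) := VW.play 659 (PX [659] [627,691,723]) (by decide +kernel) v3_1968

theorem v3_1971 : VW (PX [] [627,691]) := VW.of base nl_ok fl_ok .nil
  [(563, (.cons 595 659 (.cons 499 531 .nil (.cons 531 499 .nil .nil)) (.cons 659 595 (.cons 723 755 .nil (.cons 755 723 .nil .nil)) .nil))), (755, (.cons 659 723 (.cons 563 595 .nil (.cons 595 563 .nil .nil)) (.cons 723 659 (.cons 787 819 .nil (.cons 819 787 .nil .nil)) .nil)))]
  [([595], (PX [] [595,627,691])), ([659], (PX [] [627,659,691])), ([723], (PX [] [627,691,723]))]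
  (by decide +kernel) ⟨w3_1971_595, w3_1971_659, w3_1971_723, trivial⟩

theorem v3_1972 : VW (PX [660] [627,693,726]) := VW.of base nl_ok fl_ok .nil
  [(759, (.cons 792 825 .nil (.cons 825 792 .nil .nil))), (792, (.cons 759 825 .nil (.cons 825 759 .nil .nil))), (825, (.cons 759 792 .nil (.cons 792 759 .nil .nil)))]
  []
  (by decide +kernel) trivial

theorem w3_1975_594 : S (PX [] [594,627,693]) := VW.play 660 (PX [660] [594,627,693]) (by decide +kernel) v3_1803

theorem w3_1975_660 : S (PX [] [627,660,693]) := VW.play 594 (PX [594] [627,660,693]) (by decide +kernel) v3_1959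

theorem w3_1975_726 : S (PX [] [627,693,726]) := VW.play 660 (PX [660] [627,693,726]) (by decide +kernel) v3_1972

theorem v3_1975 : VW (PX [] [627,693]) := VW.of base nl_ok fl_ok .nil
  [(561, (.cons 594 660 (.cons 495 528 .nil (.cons 528 495 .nil .nil)) (.cons 660 594 (.cons 726 759 .nil (.cons 759 726 .nil .nil)) .nil))), (759, (.cons 660 726 (.cons 561 594 .nil (.cons 594 561 .nil .nil)) (.cons 726 660 (.cons 792 825 .nil (.cons 825 792 .nil .nil)) .nil)))]
  [([594], (PX [] [594,627,693])), ([660], (PX [] [627,660,693])), ([726], (PX [] [627,693,726]))]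
  (by decide +kernel) ⟨w3_1975_594, w3_1975_660, w3_1975_726, trivial⟩

theorem w3_1976_658 : S (PX [] [627,658,720]) := VW.play 689 (PX [689] [627,658,720]) (by decide +kernel) v3_1924

theorem w3_1976_689 : S (PX [] [627,689,720]) := VW.play 658 (PX [658] [627,689,720]) (by decide +kernel) v3_1964

theorem v3_1976 : VW (PX [] [627,720]) := VW.of base nl_ok fl_ok .nil
  [(596, (.cons 658 689 (.cons 534 565 .nil (.cons 565 534 .nil .nil)) (.cons 689 658 .nil .nil))), (751, (.cons 658 689 .nil (.cons 689 658 (.cons 782 813 .nil (.cons 813 782 .nil .nil)) .nil)))]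
  [([658], (PX [] [627,658,720])), ([689], (PX [] [627,689,720]))]
  (by decide +kernel) ⟨w3_1976_658, w3_1976_689, trivial⟩

theorem w3_1977_659 : S (PX [] [627,659,723]) := VW.play 691 (PX [691] [627,659,723]) (by decide +kernel) v3_1944

theorem w3_1977_691 : S (PX [] [627,691,723]) := VW.play 659 (PX [659] [627,691,723]) (by decide +kernel) v3_1968

theorem v3_1977 : VW (PX [] [627,723]) := VW.of base nl_ok fl_ok .nil
  [(595, (.cons 659 691 (.cons 531 563 .nil (.cons 563 531 .nil .nil)) (.cons 691 659 .nil .nil))), (755, (.cons 659 691 .nil (.cons 691 659 (.cons 787 819 .nil (.cons 819 787 .nil .nil)) .nil)))]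
  [([659], (PX [] [627,659,723])), ([691], (PX [] [627,691,723]))]
  (by decide +kernel) ⟨w3_1977_659, w3_1977_691, trivial⟩

theorem w3_1978_660 : S (PX [] [627,660,726]) := VW.play 693 (PX [693] [627,660,726]) (by decide +kernel) v3_1962

theorem w3_1978_693 : S (PX [] [627,693,726]) := VW.play 660 (PX [660] [627,693,726]) (by decide +kernel) v3_1972

theorem v3_1978 : VW (PX [] [627,726]) := VW.of base nl_ok fl_ok .nil
  [(594, (.cons 660 693 (.cons 528 561 .nil (.cons 561 528 .nil .nil)) (.cons 693 660 .nil .nil))), (759, (.cons 660 693 .nil (.cons 693 660 (.cons 792 825 .nil (.cons 825 792 .nil .nil)) .nil)))]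
  [([660], (PX [] [627,660,726])), ([693], (PX [] [627,693,726]))]
  (by decide +kernel) ⟨w3_1978_660, w3_1978_693, trivial⟩

theorem v3_1979 : VW (PX [] [627,751]) := VW.of base nl_ok fl_ok .nil
  [(658, (.cons 689 720 (.cons 565 596 .nil (.cons 596 565 .nil .nil)) (.cons 720 689 .nil .nil))), (689, (.cons 658 720 (.cons 565 596 .nil (.cons 596 565 .nil .nil)) (.cons 720 658 (.cons 782 813 .nil (.cons 813 782 .nil .nil)) .nil))), (720, (.cons 658 689 .nil (.cons 689 658 (.cons 782 813 .nil (.cons 813 782 .nil .nil)) .nil)))]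
  []
  (by decide +kernel) trivial

theorem v3_1980 : VW (PX [] [627,755]) := VW.of base nl_ok fl_ok .nil
  [(659, (.cons 691 723 (.cons 563 595 .nil (.cons 595 563 .nil .nil)) (.cons 723 691 .nil .nil))), (691, (.cons 659 723 (.cons 563 595 .nil (.cons 595 563 .nil .nil)) (.cons 723 659 (.cons 787 819 .nil (.cons 819 787 .nil .nil)) .nil))), (723, (.cons 659 691 .nil (.cons 691 659 (.cons 787 819 .nil (.cons 819 787 .nil .nil)) .nil)))]
  []
  (by decide +kernel) trivial

theorem v3_1981 : VW (PX [] [627,759]) := VW.of base nl_ok fl_ok .nil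
  [(660, (.cons 693 726 (.cons 561 594 .nil (.cons 594 561 .nil .nil)) (.cons 726 693 .nil .nil))), (693, (.cons 660 726 (.cons 561 594 .nil (.cons 594 561 .nil .nil)) (.cons 726 660 (.cons 792 825 .nil (.cons 825 792 .nil .nil)) .nil))), (726, (.cons 660 693 .nil (.cons 693 660 (.cons 792 825 .nil (.cons 825 792 .nil .nil)) .nil)))]
  []
  (by decide +kernel) trivial

theorem r495 : S (Nat.lor X2 (bits [627, 495])) := VW.play 394 (PX [] [495,627]) (by decide +kernel) v3_1727

theorem r499 : S (Nat.lor X2 (bits [627, 499])) := VW.play 394 (PX [] [499,627]) (by decide +kernel) v3_935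

theorem r503 : S (Nat.lor X2 (bits [627, 503])) := VW.play 394 (PX [] [503,627]) (by decide +kernel) v3_1728

theorem r528 : S (Nat.lor X2 (bits [627, 528])) := VW.play 394 (PX [] [528,627]) (by decide +kernel) v3_1733

theorem r531 : S (Nat.lor X2 (bits [627, 531])) := VW.play 394 (PX [] [531,627]) (by decide +kernel) v3_1196

theorem r534 : S (Nat.lor X2 (bits [627, 534])) := VW.play 394 (PX [] [534,627]) (by decide +kernel) v3_1755

theorem r561 : S (Nat.lor X2 (bits [627, 561])) := VW.play 394 (PX [] [561,627]) (by decide +kernel) v3_1774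

theorem r563 : S (Nat.lor X2 (bits [627, 563])) := VW.play 394 (PX [] [563,627]) (by decide +kernel) v3_1459

theorem r565 : S (Nat.lor X2 (bits [627, 565])) := VW.play 394 (PX [] [565,627]) (by decide +kernel) v3_1797

theorem r594 : S (Nat.lor X2 (bits [627, 594])) := VW.play 394 (PX [] [594,627]) (by decide +kernel) v3_1804

theorem r595 : S (Nat.lor X2 (bits [627, 595])) := VW.play 394 (PX [] [595,627]) (by decide +kernel) v3_1671

theorem r596 : S (Nat.lor X2 (bits [627, 596])) := VW.play 394 (PX [] [596,627]) (by decide +kernel) v3_1824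

theorem r623 : S (Nat.lor X2 (bits [627, 623])) := VW.play 394 (PX [] [623,627]) (by decide +kernel) v3_1825

theorem r624 : S (Nat.lor X2 (bits [627, 624])) := VW.play 394 (PX [] [624,627]) (by decide +kernel) v3_1847

theorem r625 : S (Nat.lor X2 (bits [627, 625])) := VW.play 394 (PX [] [625,627]) (by decide +kernel) v3_1870

theorem r626 : S (Nat.lor X2 (bits [627, 626])) := VW.play 394 (PX [] [626,627]) (by decide +kernel) v3_1890

theorem r628 : S (Nat.lor X2 (bits [627, 628])) := VW.play 394 (PX [] [627,628]) (by decide +kernel) v3_1910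

theorem r629 : S (Nat.lor X2 (bits [627, 629])) := VW.play 394 (PX [] [627,629]) (by decide +kernel) v3_1914

theorem r630 : S (Nat.lor X2 (bits [627, 630])) := VW.play 394 (PX [] [627,630]) (by decide +kernel) v3_1915

theorem r631 : S (Nat.lor X2 (bits [627, 631])) := VW.play 394 (PX [] [627,631]) (by decide +kernel) v3_1916

theorem r658 : S (Nat.lor X2 (bits [627, 658])) := VW.play 394 (PX [] [627,658]) (by decide +kernel) v3_1936

theorem r659 : S (Nat.lor X2 (bits [627, 659])) := VW.play 394 (PX [] [627,659]) (by decide +kernel) v3_1956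

theorem r660 : S (Nat.lor X2 (bits [627, 660])) := VW.play 394 (PX [] [627,660]) (by decide +kernel) v3_1963

theorem r689 : S (Nat.lor X2 (bits [627, 689])) := VW.play 394 (PX [] [627,689]) (by decide +kernel) v3_1967

theorem r691 : S (Nat.lor X2 (bits [627, 691])) := VW.play 394 (PX [] [627,691]) (by decide +kernel) v3_1971

theorem r693 : S (Nat.lor X2 (bits [627, 693])) := VW.play 394 (PX [] [627,693]) (by decide +kernel) v3_1975

theorem r720 : S (Nat.lor X2 (bits [627, 720])) := VW.play 394 (PX [] [627,720]) (by decide +kernel) v3_1976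

theorem r723 : S (Nat.lor X2 (bits [627, 723])) := VW.play 394 (PX [] [627,723]) (by decide +kernel) v3_1977

theorem r726 : S (Nat.lor X2 (bits [627, 726])) := VW.play 394 (PX [] [627,726]) (by decide +kernel) v3_1978

theorem r751 : S (Nat.lor X2 (bits [627, 751])) := VW.play 394 (PX [] [627,751]) (by decide +kernel) v3_1979

theorem r755 : S (Nat.lor X2 (bits [627, 755])) := VW.play 394 (PX [] [627,755]) (by decide +kernel) v3_1980

theorem r759 : S (Nat.lor X2 (bits [627, 759])) := VW.play 394 (PX [] [627,759]) (by decide +kernel) v3_1981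

theorem r428 : S (Nat.lor X2 (bits [627, 428])) := S.of (.q 365 (.a 1 [] (.q 429 (.a 1 [] (.d 330 2345 297 2378 462)
 (.a 1 [297] (.d 462 2378 330 2411 495)
 (.a 0 [330,462] (.q 397 (.a 1 [] (.d 333 1325 301 1357 461)
 (.a 1 [301] (.d 461 1357 333 1389 493)
 (.a 0 [333,461] (.q 395 (.a 1 [] (.d 394 393 393 394 398)
 (.a 1 [393] (.d 398 394 394 395 399)
 (.a 0 [394,398] (.q 427 (.a 1 [] (.d 331 1323 299 1355 459)
 (.a 1 [299] (.d 459 1355 331 1387 491)
 (.a 1 [331] (.d 334 3375 303 3406 458)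
 .e))))
 .e))))
 .e))))
 .e))))
 (.a 0 [427] (.q 364 (.a 1 [] (.d 362 361 361 362 366)
 (.a 1 [366] (.q 429 (.a 1 [] (.d 330 2345 297 2378 462)
 (.a 1 [462] (.q 397 (.a 1 [] (.d 333 1325 301 1357 461)
 (.a 1 [301] (.d 461 1357 333 1389 493)
 (.a 0 [333,461] (.q 394 (.a 1 [] (.d 395 393 393 394 398)
 (.a 0 [393,395,398] (.r 362 361 361 (.r 330 2345 297 (.d 426 1322 298 1354 458)))
 .e)))
 .e))))
 (.a 1 [330] (.q 397 (.a 1 [] (.d 333 1325 301 1357 461)
 (.a 1 [301] (.d 461 1357 333 1389 493)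
 (.a 0 [333,461] (.q 331 (.a 1 [] (.d 298 2313 265 2346 430)
 (.a 1 [265] (.d 430 2346 298 2379 463)
 (.a 0 [298,430] (.r 362 361 361 (.q 300 (.a 1 [] (.d 269 3310 238 3341 393)
 (.a 1 [238] (.d 393 3341 269 3372 424)
 (.a 0 [269,393] (.q 398 (.a 1 [] (.d 395 394 394 395 399)
 (.a 1 [394] (.d 399 395 395 396 400)
 (.a 1 [395] (.r 332 1292 268 (.d 431 2347 299 2380 464))
 .e))))
 .e)))))
 .e))))
 .e))))
 (.a 1 [297] (.d 462 2378 330 2411 495)
 .e)))))
 (.a 1 [362] (.q 429 (.a 1 [] (.d 330 2345 297 2378 462)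
 (.a 1 [297] (.d 462 2378 330 2411 495)
 (.a 0 [330,462] (.r 367 363 366 (.q 398 (.a 1 [] (.d 336 3377 305 3408 460)
 (.a 1 [305] (.d 460 3408 336 3439 491)
 (.a 0 [336,460] (.q 397 (.a 1 [] (.d 395 394 394 395 399)
 (.a 1 [394] (.d 399 395 395 396 400)
 (.a 1 [395] (.d 333 1325 301 1357 461)
 .e))))
 .e)))))
 .e))))
 (.a 1 [361] (.d 366 362 362 363 367)
 .e)))))
 (.a 0 [429] (.q 364 (.a 1 [] (.d 362 361 361 362 366)
 (.a 1 [362] (.q 427 (.a 1 [] (.d 334 3375 303 3406 458)
 (.a 1 [458] (.q 395 (.a 1 [] (.d 331 1323 299 1355 459)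
 (.a 1 [299] (.d 459 1355 331 1387 491)
 (.a 0 [331,459] (.q 398 (.a 1 [] (.d 397 394 394 395 399)
 (.a 0 [394,397,399] (.r 366 363 367 (.r 334 3375 303 (.d 430 1326 302 1358 462)))
 .e)))
 .e))))
 (.a 1 [334] (.q 395 (.a 1 [] (.d 331 1323 299 1355 459)
 (.a 1 [299] (.d 459 1355 331 1387 491)
 (.a 0 [331,459] (.q 333 (.a 1 [] (.d 302 3343 271 3374 426)
 (.a 1 [271] (.d 426 3374 302 3405 457)
 (.a 0 [302,426] (.r 366 363 367 (.q 300 (.a 1 [] (.d 267 2282 234 2315 399)
 (.a 1 [234] (.d 399 2315 267 2348 432)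
 (.a 0 [267,399] (.q 394 (.a 1 [] (.d 393 392 392 393 397)
 (.a 1 [392] (.d 397 393 393 394 398)
 (.a 1 [393] (.r 332 1292 268 (.d 425 3373 301 3404 456))
 .e))))
 .e)))))
 .e))))
 .e))))
 (.a 1 [303] (.d 458 3406 334 3437 489)
 .e)))))
 (.a 1 [366] (.q 427 (.a 1 [] (.d 334 3375 303 3406 458)
 (.a 1 [303] (.d 458 3406 334 3437 489)
 (.a 0 [334,458] (.r 361 361 362 (.q 394 (.a 1 [] (.d 328 2343 295 2376 460)
 (.a 1 [295] (.d 460 2376 328 2409 493)
 (.a 0 [328,460] (.q 395 (.a 1 [] (.d 393 392 392 393 397)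
 (.a 1 [392] (.d 397 393 393 394 398)
 (.a 1 [393] (.d 331 1323 299 1355 459)
 .e))))
 .e)))))
 .e))))
 (.a 1 [361] (.d 366 362 362 363 367)
 .e)))))
 (.a 1 [330] (.q 364 (.a 1 [] (.d 362 361 361 362 366)
 (.a 1 [362] (.q 334 (.a 1 [] (.d 303 3344 272 3375 427)
 (.a 1 [272] (.d 427 3375 303 3406 458)
 (.a 0 [303,427] (.r 367 363 366 (.q 301 (.a 1 [] (.d 268 2283 235 2316 400)
 (.a 1 [235] (.d 400 2316 268 2349 433)
 (.a 1 [400] (.r 268 2283 235 (.r 332 1292 300 (.d 394 3342 270 3373 425)))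
 (.a 0 [268] (.q 397 (.a 1 [] (.d 333 1293 269 1325 429)
 (.a 1 [269] (.r 429 1325 333 (.r 400 2349 433 (.r 398 396 399 (.d 460 3408 336 3439 491))))
 (.a 1 [333] (.r 400 2349 433 (.r 398 396 399 (.r 394 394 395 (.d 332 3342 270 3373 425))))
 .e))))
 .e))))))
 .e))))
 (.a 1 [366] (.q 427 (.a 1 [] (.d 334 3375 303 3406 458)
 (.a 1 [303] (.d 458 3406 334 3437 489)
 (.a 0 [334,458] (.r 361 361 362 (.q 394 (.a 1 [] (.d 328 2343 295 2376 460)
 (.a 1 [295] (.d 460 2376 328 2409 493)
 (.a 0 [328,460] (.q 395 (.a 1 [] (.d 393 392 392 393 397)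
 (.a 1 [392] (.d 397 393 393 394 398)
 (.a 1 [393] (.d 331 1323 299 1355 459)
 .e))))
 .e)))))
 .e))))
 (.a 1 [361] (.d 366 362 362 363 367)
 .e)))))
 (.a 1 [334] (.q 364 (.a 1 [] (.d 362 361 361 362 366)
 (.a 1 [366] (.q 330 (.a 1 [] (.d 297 2312 264 2345 429)
 (.a 1 [264] (.d 429 2345 297 2378 462)
 (.a 0 [297,429] (.r 361 361 362 (.q 299 (.a 1 [] (.d 268 3309 237 3340 392)
 (.a 1 [237] (.d 392 3340 268 3371 423)
 (.a 1 [392] (.r 268 3309 237 (.r 332 1292 300 (.d 398 2314 266 2347 431)))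
 (.a 0 [268] (.q 395 (.a 1 [] (.d 331 1291 267 1323 427)
 (.a 1 [267] (.r 427 1323 331 (.r 392 3371 423 (.r 394 392 393 (.d 460 2376 328 2409 493))))
 (.a 1 [331] (.r 392 3371 423 (.r 394 392 393 (.r 398 394 397 (.d 332 2314 266 2347 431))))
 .e))))
 .e))))))
 .e))))
 (.a 1 [362] (.q 429 (.a 1 [] (.d 330 2345 297 2378 462)
 (.a 1 [297] (.d 462 2378 330 2411 495)
 (.a 0 [330,462] (.r 367 363 366 (.q 398 (.a 1 [] (.d 336 3377 305 3408 460)
 (.a 1 [305] (.d 460 3408 336 3439 491)
 (.a 0 [336,460] (.q 397 (.a 1 [] (.d 395 394 394 395 399)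
 (.a 1 [394] (.d 399 395 395 396 400)
 (.a 1 [395] (.d 333 1325 301 1357 461)
 .e))))
 .e)))))
 .e))))
 (.a 1 [361] (.d 366 362 362 363 367)
 .e)))))
 (.a 0 [362] (.q 427 (.a 1 [] (.d 334 3375 303 3406 458)
 (.a 1 [458] (.q 395 (.a 1 [] (.d 331 1323 299 1355 459)
 (.a 1 [459] (.q 398 (.a 1 [] (.d 397 394 394 395 399)
 (.a 1 [394] (.r 299 1323 331 (.d 332 2314 266 2347 431))
 .e)))
 (.a 1 [331] (.q 429 (.a 1 [] (.d 330 2345 297 2378 462)
 (.a 1 [297] (.d 462 2378 330 2411 495)
 (.a 0 [330,462] (.q 394 (.a 1 [] (.d 393 392 392 393 397)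
 (.a 1 [392] (.d 397 393 393 394 398)
 (.a 1 [393] (.r 397 394 398 (.d 461 1357 333 1389 493))
 (.a 0 [397] (.q 460 (.a 1 [] (.d 361 2376 328 2409 493)
 (.a 1 [328] (.d 493 2409 361 2442 526)
 (.a 1 [361] (.r 491 1387 459 (.d 522 3470 398 3501 553))
 .e))))
 .e)))))
 .e))))
 (.a 1 [299] (.d 459 1355 331 1387 491)
 .e)))))
 (.a 1 [334] (.q 395 (.a 1 [] (.d 331 1323 299 1355 459)
 (.a 1 [299] (.d 459 1355 331 1387 491)
 (.a 0 [331,459] (.q 397 (.a 1 [] (.d 394 393 393 394 398)
 (.a 1 [393] (.d 398 394 394 395 399)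
 (.a 0 [394,398] (.q 429 (.a 1 [] (.d 333 1325 301 1357 461)
 (.a 1 [301] (.d 461 1357 333 1389 493)
 (.a 1 [333] (.d 330 2345 297 2378 462)
 .e))))
 .e))))
 .e))))
 .e))))
 (.a 0 [366] (.q 429 (.a 1 [] (.d 330 2345 297 2378 462)
 (.a 1 [462] (.q 397 (.a 1 [] (.d 333 1325 301 1357 461)
 (.a 1 [461] (.q 394 (.a 1 [] (.d 395 393 393 394 398)
 (.a 1 [393] (.r 398 394 395 (.r 301 1325 333 (.d 332 3342 270 3373 425)))
 (.a 1 [395] (.r 301 1325 333 (.d 332 3342 270 3373 425))
 .e))))
 (.a 1 [333] (.q 427 (.a 1 [] (.d 334 3375 303 3406 458)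
 (.a 1 [303] (.d 458 3406 334 3437 489)
 (.a 0 [334,458] (.q 398 (.a 1 [] (.d 395 394 394 395 399)
 (.a 1 [394] (.d 399 395 395 396 400)
 (.a 1 [399] (.r 395 394 394 (.d 459 1355 331 1387 491))
 (.a 0 [395] (.q 460 (.a 1 [] (.d 367 3408 336 3439 491)
 (.a 1 [336] (.d 491 3439 367 3470 522)
 (.a 1 [367] (.r 493 1389 461 (.d 526 2442 394 2475 559))
 .e))))
 .e)))))
 .e))))
 (.a 1 [301] (.d 461 1357 333 1389 493)
 .e)))))
 (.a 1 [330] (.q 397 (.a 1 [] (.d 333 1325 301 1357 461)
 (.a 1 [301] (.d 461 1357 333 1389 493)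
 (.a 0 [333,461] (.q 395 (.a 1 [] (.d 394 393 393 394 398)
 (.a 1 [393] (.d 398 394 394 395 399)
 (.a 0 [394,398] (.q 427 (.a 1 [] (.d 331 1323 299 1355 459)
 (.a 1 [299] (.d 459 1355 331 1387 491)
 (.a 1 [331] (.d 334 3375 303 3406 458)
 .e))))
 .e))))
 .e))))
 .e))))
 (.a 1 [458] (.q 330 (.a 1 [] (.d 297 2312 264 2345 429)
 (.a 1 [429] (.q 362 (.a 1 [] (.d 364 361 361 362 366)
 (.a 0 [361,364,366] (.q 266 (.a 1 [] (.d 298 1258 234 1290 394)
 (.a 0 [234,298,394] (.q 299 (.a 1 [] (.d 332 2281 233 2314 398)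
 (.a 0 [233,332,398] (.q 267 (.a 1 [] (.d 331 1259 235 1291 395)
 (.a 1 [235] (.r 264 2312 297 (.d 265 263 263 264 268))
 .e)))
 .e)))
 .e)))
 .e)))
 (.a 1 [297] (.q 362 (.a 1 [] (.d 364 361 361 362 366)
 (.a 0 [361,364,366] (.q 394 (.a 1 [] (.d 298 1290 266 1322 426)
 (.a 0 [266,298,426] (.q 397 (.a 1 [] (.d 395 393 393 394 398)
 (.a 1 [393] (.r 429 2378 462 (.d 461 1357 333 1389 493))
 .e)))
 .e)))
 .e)))
 .e))))
 (.a 1 [462] (.q 334 (.a 1 [] (.d 303 3344 272 3375 427)
 (.a 1 [427] (.q 366 (.a 1 [] (.d 364 362 362 363 367)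
 (.a 0 [362,364,367] (.q 270 (.a 1 [] (.d 302 1262 238 1294 398)
 (.a 0 [238,302,398] (.q 301 (.a 1 [] (.d 332 3311 239 3342 394)
 (.a 0 [239,332,394] (.q 269 (.a 1 [] (.d 333 1261 237 1293 397)
 (.a 1 [237] (.r 272 3344 303 (.d 271 268 268 269 273))
 .e)))
 .e)))
 .e)))
 .e)))
 (.a 1 [303] (.q 366 (.a 1 [] (.d 364 362 362 363 367)
 (.a 0 [362,364,367] (.q 398 (.a 1 [] (.d 302 1294 270 1326 430)
 (.a 0 [270,302,430] (.q 395 (.a 1 [] (.d 397 394 394 395 399)
 (.a 1 [394] (.r 427 3406 458 (.d 459 1355 331 1387 491))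
 .e)))
 .e)))
 .e)))
 .e))))
 (.a 0 [395] (.q 330 (.a 1 [] (.d 297 2312 264 2345 429)
 (.a 0 [429] (.q 427 (.a 1 [] (.d 334 3375 303 3406 458)
 (.a 1 [334] (.r 458 3437 489 (.q 362 (.a 1 [] (.d 364 361 361 362 366)
 (.a 1 [364] (.q 266 (.a 1 [] (.d 394 1290 298 1354 426)
 (.a 1 [426] (.d 298 1258 234 1290 394)
 (.a 0 [298,394] (.q 299 (.a 1 [] (.d 332 2281 233 2314 398)
 (.a 0 [233,332,398] (.q 359 (.a 1 [] (.r 361 359 360 (.d 392 3340 268 3371 423))
 (.a 1 [268] (.r 297 2312 264 (.d 328 3307 235 3338 390))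
 .e)))
 .e)))
 .e))))
 (.a 1 [361] (.q 266 (.a 1 [] (.d 394 1290 298 1354 426)
 (.a 1 [426] (.d 298 1258 234 1290 394)
 (.a 0 [298,394] (.q 332 (.a 1 [] (.d 299 2281 233 2314 398)
 (.a 0 [233,299,398] (.q 331 (.a 1 [] (.d 329 328 328 329 333)
 (.a 1 [328] (.r 364 362 366 (.r 300 1292 268 (.d 393 3341 269 3372 424)))
 .e)))
 .e)))
 .e))))
 (.a 1 [366] (.r 394 1354 426 (.r 361 361 364 (.d 460 2376 328 2409 493)))
 .e))))))
 (.a 1 [458] (.q 362 (.a 1 [] (.d 364 361 361 362 366)
 (.a 0 [361,364,366] (.q 266 (.a 1 [] (.d 298 1258 234 1290 394)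
 (.a 0 [234,298,394] (.q 332 (.a 1 [] (.d 299 2281 233 2314 398)
 (.a 0 [233,299,398] (.q 328 (.a 1 [] (.r 297 2312 264 (.d 359 3307 235 3338 390))
 (.a 1 [235] (.r 331 328 329 (.d 334 3375 303 330 333))
 (.a 1 [297] (.r 334 3375 303 (.d 331 328 329 330 333))
 .e))))
 .e)))
 .e)))
 .e)))
 (.a 1 [303] (.d 458 3406 334 3437 489)
 .e)))))
 (.a 0 [297] (.r 429 2378 462 (.q 362 (.a 1 [] (.d 364 361 361 362 366)
 (.a 0 [364] (.q 333 (.a 1 [] (.d 397 1325 301 1357 461)
 (.a 1 [461] (.r 301 1325 397 (.q 332 (.a 1 [] (.d 331 329 329 330 334)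
 (.a 1 [494] (.q 527 (.a 1 [] (.d 270 3311 239 3342 394)
 (.a 1 [239] (.d 394 3342 270 3373 425)
 (.a 1 [270] (.d 331 329 329 330 334)
 .e))))
 (.a 1 [527] (.q 494 (.a 1 [] (.d 331 329 329 330 334)
 (.a 1 [331] (.d 270 3311 239 3342 394)
 .e)))
 (.a 1 [331] (.d 270 3311 239 3342 394)
 .e))))))
 (.a 1 [397] (.q 334 (.a 1 [] (.d 303 3344 272 3375 427)
 (.a 1 [272] (.d 427 3375 303 3406 458)
 (.a 1 [303] (.r 332 330 331 (.r 458 3406 427 (.r 394 1354 426 (.d 425 3373 301 3404 456))))
 (.a 0 [427] (.q 298 (.a 1 [] (.d 266 1258 234 1290 394)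
 (.a 1 [234] (.d 394 1290 266 1322 426)
 (.a 1 [266] (.r 332 330 331 (.r 394 1322 426 (.d 425 3373 301 3404 456)))
 (.a 1 [394] (.r 332 330 331 (.r 266 1258 234 (.d 299 2281 233 2314 398)))
 .e)))))
 .e)))))
 (.a 1 [301] (.q 334 (.a 1 [] (.d 303 3344 272 3375 427)
 (.a 1 [272] (.d 427 3375 303 3406 458)
 (.a 1 [303] (.r 332 330 331 (.r 458 3406 427 (.r 394 1354 426 (.r 266 1290 298 (.d 299 2281 233 2314 398)))))
 (.a 0 [427] (.q 266 (.a 1 [] (.d 298 1258 234 1290 394)
 (.a 1 [234] (.r 332 330 331 (.d 299 2281 233 2314 398))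
 .e)))
 .e)))))
 .e)))))
 (.a 1 [361] (.q 394 (.a 1 [] (.d 298 1290 266 1322 426)
 (.a 1 [266] (.d 426 1322 298 1354 458)
 (.a 1 [298] (.r 458 1354 426 (.d 427 3406 334 3437 489))
 (.a 0 [426] (.q 332 (.a 1 [] (.d 301 3342 270 3373 425)
 (.a 1 [270] (.d 425 3373 301 3404 456)
 (.a 1 [301] (.r 266 1290 298 (.d 299 2281 233 2314 398))
 .e))))
 .e)))))
 .e)))))
 (.a 1 [264] (.d 429 2345 297 2378 462)
 .e)))))
 (.a 0 [397] (.q 330 (.a 1 [] (.d 297 2312 264 2345 429)
 (.a 1 [429] (.q 427 (.a 1 [] (.d 334 3375 303 3406 458)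
 (.a 1 [334] (.q 362 (.a 1 [] (.d 364 361 361 362 366)
 (.a 1 [366] (.r 361 361 364 (.r 458 3437 489 (.r 394 1354 426 (.d 460 2376 328 2409 493))))
 (.a 0 [361,364] (.q 331 (.a 1 [] (.d 395 1323 299 1355 459)
 (.a 1 [299] (.r 458 3437 489 (.r 394 1354 426 (.r 395 1355 459 (.r 393 392 392 (.d 424 3372 300 3403 455)))))
 (.a 1 [459] (.r 299 1323 395 (.r 458 3437 489 (.r 394 1354 426 (.r 266 1290 298 (.d 332 2281 233 2314 398)))))
 (.a 0 [395] (.q 329 (.a 1 [] (.d 328 327 327 328 332)
 (.a 1 [327] (.d 332 328 328 329 333)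
 (.a 0 [328,332] (.q 300 (.a 1 [] (.d 269 3310 238 3341 393)
 (.a 1 [238] (.d 393 3341 269 3372 424)
 (.a 0 [269,393] (.q 298 (.a 1 [] (.d 266 1258 234 1290 394)
 (.a 1 [234] (.d 394 1290 266 1322 426)
 (.a 1 [266] (.r 297 2312 264 (.d 299 296 296 297 301))
 .e))))
 .e))))
 .e))))
 .e)))))
 .e))))
 (.a 1 [458] (.q 331 (.a 1 [] (.d 395 1323 299 1355 459)
 (.a 1 [459] (.r 299 1323 395 (.r 334 3375 303 (.r 332 330 333 (.d 398 2314 266 2347 431))))
 (.a 0 [299,395] (.q 362 (.a 1 [] (.d 364 361 361 362 366)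
 (.a 1 [361] (.r 334 3375 303 (.r 332 330 333 (.r 364 362 366 (.r 300 1292 268 (.d 393 3341 269 3372 424)))))
 (.a 1 [366] (.r 361 361 364 (.r 334 3375 303 (.r 332 330 333 (.r 328 328 329 (.d 394 2343 295 2376 460)))))
 (.a 0 [364] (.q 298 (.a 1 [] (.d 266 1258 234 1290 394)
 (.a 1 [234] (.d 394 1290 266 1322 426)
 (.a 0 [266,394] (.q 393 (.a 1 [] (.d 300 3341 269 3372 424)
 (.a 1 [269] (.d 424 3372 300 3403 455)
 (.a 0 [300,424] (.q 329 (.a 1 [] (.d 328 327 327 328 332)
 (.a 1 [327] (.d 332 328 328 329 333)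
 (.a 1 [328] (.r 297 2312 264 (.d 361 1289 265 1321 425))
 .e))))
 .e))))
 .e))))
 .e)))))
 .e))))
 .e))))
 (.a 1 [297] (.q 427 (.a 1 [] (.d 334 3375 303 3406 458)
 (.a 1 [334] (.q 459 (.a 1 [] (.d 395 1355 331 1387 491)
 (.a 0 [331,395,491] (.q 362 (.a 1 [] (.d 364 361 361 362 366)
 (.a 1 [361] (.r 458 3437 489 (.r 394 1354 426 (.r 462 2378 429 (.r 460 458 461 (.r 456 456 457 (.d 425 3404 332 3435 487))))))
 (.a 1 [364] (.r 458 3437 489 (.r 394 1354 426 (.r 462 2378 429 (.r 460 458 461 (.d 493 2409 361 2442 526)))))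
 .e))))
 .e)))
 (.a 1 [458] (.q 366 (.a 1 [] (.d 364 362 362 363 367)
 (.a 0 [362,364,367] (.q 331 (.a 1 [] (.d 395 1323 299 1355 459)
 (.a 1 [299] (.r 334 3375 303 (.r 332 330 333 (.r 462 2378 429 (.r 398 1358 430 (.r 270 1294 302 (.d 301 3311 239 3342 394))))))
 (.a 1 [395] (.r 334 3375 303 (.r 332 330 333 (.r 462 2378 429 (.r 398 1358 430 (.d 431 2347 299 2380 464)))))
 .e))))
 .e)))
 .e))))
 (.a 1 [264] (.d 429 2345 297 2378 462)
 .e)))))
 (.a 0 [394] (.q 429 (.a 1 [] (.d 330 2345 297 2378 462)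
 (.a 0 [462] (.q 364 (.a 1 [] (.d 362 361 361 362 366)
 (.a 1 [366] (.q 397 (.a 1 [] (.d 333 1325 301 1357 461)
 (.a 1 [333] (.q 430 (.a 1 [] (.d 331 2346 298 2379 463)
 (.a 1 [298] (.d 463 2379 331 2412 496)
 (.a 0 [331,463] (.q 399 (.a 1 [] (.d 398 395 395 396 400)
 (.a 1 [395] (.r 461 1389 493 (.d 492 3440 368 3471 523))
 .e)))
 .e))))
 (.a 1 [461] (.q 395 (.a 1 [] (.r 333 1325 301 (.d 426 3374 302 3405 457))
 (.a 1 [457] (.r 333 1325 301 (.d 302 3343 271 3374 426))
 (.a 0 [301,302,333,426] (.q 427 (.a 1 [] (.d 331 1323 299 1355 459)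
 (.a 1 [299] (.d 459 1355 331 1387 491)
 (.a 1 [331] (.d 334 3375 303 3406 458)
 .e))))
 .e))))
 .e))))
 (.a 1 [362] (.q 334 (.a 1 [] (.d 303 3344 272 3375 427)
 (.a 1 [272] (.d 427 3375 303 3406 458)
 (.a 0 [303,427] (.q 333 (.a 1 [] (.d 397 1325 301 1357 461)
 (.a 1 [461] (.r 330 2345 297 (.r 332 330 331 (.r 301 1325 397 (.r 268 1292 300 (.d 367 363 366 2316 400)))))
 (.a 0 [301,397] (.q 302 (.a 1 [] (.d 271 3312 240 3343 395)
 (.a 1 [240] (.d 395 3343 271 3374 426)
 (.a 1 [271] (.r 366 363 367 (.d 398 1294 270 1326 430))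
 .e))))
 .e))))
 .e))))
 (.a 1 [361] (.d 366 362 362 363 367)
 .e)))))
 (.a 1 [330] (.q 397 (.a 1 [] (.d 333 1325 301 1357 461)
 (.a 1 [301] (.d 461 1357 333 1389 493)
 (.a 0 [333,461] (.q 334 (.a 1 [] (.d 303 3344 272 3375 427)
 (.a 1 [272] (.d 427 3375 303 3406 458)
 (.a 0 [303,427] (.q 398 (.a 1 [] (.d 399 395 395 396 400)
 (.a 1 [395] (.r 462 2411 495 (.r 366 1358 430 (.d 364 362 362 363 367)))
 .e)))
 .e))))
 .e))))
 .e))))
 (.a 0 [398] (.q 427 (.a 1 [] (.d 334 3375 303 3406 458)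
 (.a 1 [458] (.q 395 (.a 1 [] (.d 331 1323 299 1355 459)
 (.a 1 [459] (.q 330 (.a 1 [] (.d 297 2312 264 2345 429)
 (.a 1 [264] (.d 429 2345 297 2378 462)
 (.a 0 [297,429] (.q 362 (.a 1 [] (.d 364 361 361 362 366)
 (.a 1 [366] (.r 361 361 364 (.r 299 1323 331 (.d 392 3340 268 3371 423)))
 (.a 0 [361,364] (.q 394 (.a 1 [] (.d 393 392 392 393 397)
 (.a 1 [392] (.d 298 1290 266 1322 426)
 .e)))
 .e))))
 .e))))
 (.a 1 [331] (.q 364 (.a 1 [] (.d 362 361 361 362 366)
 (.a 1 [361] (.d 366 362 362 363 367)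
 (.a 0 [362,366] (.q 426 (.a 1 [] (.d 333 3374 302 3405 457)
 (.a 1 [302] (.d 457 3405 333 3436 488)
 (.a 0 [333,457] (.q 393 (.a 1 [] (.d 394 392 392 393 397)
 (.a 1 [392] (.r 459 1387 491 (.d 492 2408 360 2441 525))
 .e)))
 .e))))
 .e))))
 .e))))
 (.a 1 [334] (.q 395 (.a 1 [] (.d 331 1323 299 1355 459)
 (.a 1 [299] (.d 459 1355 331 1387 491)
 (.a 0 [331,459] (.q 330 (.a 1 [] (.d 297 2312 264 2345 429)
 (.a 1 [264] (.d 429 2345 297 2378 462)
 (.a 0 [297,429] (.q 394 (.a 1 [] (.d 393 392 392 393 397)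
 (.a 1 [392] (.r 458 3437 489 (.r 362 1354 426 (.d 364 361 361 362 366)))
 .e)))
 .e))))
 .e))))
 .e))))
 (.a 0 [426] (.q 427 (.a 1 [] (.d 334 3375 303 3406 458)
 (.a 1 [458] (.q 395 (.a 1 [] (.d 331 1323 299 1355 459)
 (.a 1 [459] (.q 398 (.a 1 [] (.d 397 394 394 395 399)
 (.a 1 [394] (.r 299 1323 331 (.d 332 2314 266 2347 431))
 .e)))
 (.a 1 [331] (.q 394 (.a 1 [] (.d 393 392 392 393 397)
 (.a 1 [392] (.d 397 393 393 394 398)
 (.a 0 [393,397] (.q 361 (.a 1 [] (.d 328 2343 295 2376 460)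
 (.a 1 [295] (.d 460 2376 328 2409 493)
 (.a 0 [328,460] (.q 330 (.a 1 [] (.d 297 2312 264 2345 429)
 (.a 1 [264] (.d 429 2345 297 2378 462)
 (.a 0 [297,429] (.q 332 (.a 1 [] (.d 301 3342 270 3373 425)
 (.a 1 [270] (.d 425 3373 301 3404 456)
 (.a 0 [301,425] (.q 299 (.a 1 [] (.d 266 2281 233 2314 398)
 (.a 1 [233] (.d 392 3340 268 3371 423)
 .e)))
 .e))))
 .e))))
 .e))))
 .e))))
 (.a 1 [299] (.d 459 1355 331 1387 491)
 .e)))))
 (.a 1 [334] (.q 395 (.a 1 [] (.d 331 1323 299 1355 459)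
 (.a 1 [299] (.d 459 1355 331 1387 491)
 (.a 0 [331,459] (.q 397 (.a 1 [] (.d 394 393 393 394 398)
 (.a 1 [393] (.d 398 394 394 395 399)
 (.a 0 [394,398] (.q 429 (.a 1 [] (.d 333 1325 301 1357 461)
 (.a 1 [301] (.d 461 1357 333 1389 493)
 (.a 1 [333] (.d 330 2345 297 2378 462)
 .e))))
 .e))))
 .e))))
 .e))))
 (.a 0 [430] (.q 429 (.a 1 [] (.d 330 2345 297 2378 462)
 (.a 1 [462] (.q 397 (.a 1 [] (.d 333 1325 301 1357 461)
 (.a 1 [461] (.q 394 (.a 1 [] (.d 395 393 393 394 398)
 (.a 1 [393] (.r 398 394 395 (.r 301 1325 333 (.d 332 3342 270 3373 425)))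
 (.a 1 [395] (.r 301 1325 333 (.d 332 3342 270 3373 425))
 .e))))
 (.a 1 [333] (.q 398 (.a 1 [] (.d 395 394 394 395 399)
 (.a 1 [394] (.d 399 395 395 396 400)
 (.a 0 [395,399] (.q 367 (.a 1 [] (.d 336 3377 305 3408 460)
 (.a 1 [305] (.d 460 3408 336 3439 491)
 (.a 0 [336,460] (.q 334 (.a 1 [] (.d 303 3344 272 3375 427)
 (.a 1 [272] (.d 427 3375 303 3406 458)
 (.a 0 [303,427] (.q 332 (.a 1 [] (.d 299 2314 266 2347 431)
 (.a 1 [266] (.d 431 2347 299 2380 464)
 (.a 0 [299,431] (.q 301 (.a 1 [] (.d 268 2283 235 2316 400)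
 (.a 1 [235] (.d 394 3342 270 3373 425)
 .e)))
 .e))))
 .e))))
 .e))))
 .e))))
 (.a 1 [301] (.d 461 1357 333 1389 493)
 .e)))))
 (.a 1 [330] (.q 397 (.a 1 [] (.d 333 1325 301 1357 461)
 (.a 1 [301] (.d 461 1357 333 1389 493)
 (.a 0 [333,461] (.q 395 (.a 1 [] (.d 394 393 393 394 398)
 (.a 1 [393] (.d 398 394 394 395 399)
 (.a 0 [394,398] (.q 427 (.a 1 [] (.d 331 1323 299 1355 459)
 (.a 1 [299] (.d 459 1355 331 1387 491)
 (.a 1 [331] (.d 334 3375 303 3406 458)
 .e))))
 .e))))
 .e))))
 .e))))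
 (.a 1 [460] (.q 364 (.a 1 [] (.d 362 361 361 362 366)
 (.a 1 [362] (.q 429 (.a 1 [] (.d 330 2345 297 2378 462)
 (.a 1 [297] (.d 462 2378 330 2411 495)
 (.a 0 [330,462] (.q 334 (.a 1 [] (.d 303 3344 272 3375 427)
 (.a 1 [272] (.d 427 3375 303 3406 458)
 (.a 0 [303,427] (.q 333 (.a 1 [] (.d 397 1325 301 1357 461)
 (.a 1 [461] (.r 301 1325 397 (.r 367 363 366 (.d 400 2316 268 2349 433)))
 (.a 0 [301,397] (.q 302 (.a 1 [] (.d 271 3312 240 3343 395)
 (.a 1 [240] (.d 395 3343 271 3374 426)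
 (.a 1 [271] (.r 366 363 367 (.d 398 1294 270 1326 430))
 .e))))
 .e))))
 .e))))
 .e))))
 (.a 1 [366] (.q 427 (.a 1 [] (.d 334 3375 303 3406 458)
 (.a 1 [303] (.d 458 3406 334 3437 489)
 (.a 0 [334,458] (.q 330 (.a 1 [] (.d 297 2312 264 2345 429)
 (.a 1 [264] (.d 429 2345 297 2378 462)
 (.a 0 [297,429] (.q 331 (.a 1 [] (.d 395 1323 299 1355 459)
 (.a 1 [459] (.r 299 1323 395 (.r 361 361 362 (.d 392 3340 268 3371 423)))
 (.a 0 [299,395] (.q 298 (.a 1 [] (.d 265 2280 232 2313 397)
 (.a 1 [232] (.d 397 2313 265 2346 430)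
 (.a 1 [265] (.r 362 361 361 (.d 394 1290 266 1322 426))
 .e))))
 .e))))
 .e))))
 .e))))
 (.a 1 [361] (.d 366 362 362 363 367)
 .e)))))
 (.a 1 [332] (.q 427 (.a 1 [] (.d 334 3375 303 3406 458)
 (.a 1 [303] (.d 458 3406 334 3437 489)
 (.a 0 [334,458] (.q 330 (.a 1 [] (.d 297 2312 264 2345 429)
 (.a 1 [264] (.d 429 2345 297 2378 462)
 (.a 0 [297,429] (.q 362 (.a 1 [] (.d 364 361 361 362 366)
 (.a 0 [361,364,366] (.q 394 (.a 1 [] (.d 298 1290 266 1322 426)
 (.a 0 [266,298,426] (.q 395 (.a 1 [] (.d 393 392 392 393 397)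
 (.a 1 [392] (.d 397 393 393 394 398)
 (.a 1 [393] (.d 331 1323 299 1355 459)
 .e))))
 .e)))
 .e)))
 .e))))
 .e))))
 (.a 1 [361] (.q 427 (.a 1 [] (.d 334 3375 303 3406 458)
 (.a 1 [303] (.d 458 3406 334 3437 489)
 (.a 0 [334,458] (.q 395 (.a 1 [] (.d 331 1323 299 1355 459)
 (.a 1 [299] (.d 459 1355 331 1387 491)
 (.a 0 [331,459] (.q 397 (.a 1 [] (.d 394 393 393 394 398)
 (.a 1 [393] (.d 398 394 394 395 399)
 (.a 0 [394,398] (.q 429 (.a 1 [] (.d 333 1325 301 1357 461)
 (.a 1 [301] (.d 461 1357 333 1389 493)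
 (.a 1 [333] (.d 330 2345 297 2378 462)
 .e))))
 .e))))
 .e))))
 .e))))
 (.a 1 [299] (.q 429 (.a 1 [] (.d 330 2345 297 2378 462)
 (.a 1 [297] (.d 462 2378 330 2411 495)
 (.a 0 [330,462] (.q 397 (.a 1 [] (.d 333 1325 301 1357 461)
 (.a 1 [301] (.d 461 1357 333 1389 493)
 (.a 0 [333,461] (.q 395 (.a 1 [] (.d 394 393 393 394 398)
 (.a 1 [393] (.d 398 394 394 395 399)
 (.a 0 [394,398] (.q 427 (.a 1 [] (.d 459 1355 331 1387 491)
 (.a 1 [331] (.d 458 3406 334 3437 489)
 .e)))
 .e))))
 .e))))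
 .e))))
 (.a 1 [301] (.q 427 (.a 1 [] (.d 334 3375 303 3406 458)
 (.a 1 [303] (.d 458 3406 334 3437 489)
 (.a 0 [334,458] (.q 395 (.a 1 [] (.d 331 1323 299 1355 459)
 (.a 1 [299] (.d 459 1355 331 1387 491)
 (.a 0 [331,459] (.q 397 (.a 1 [] (.d 394 393 393 394 398)
 (.a 1 [393] (.d 398 394 394 395 399)
 (.a 0 [394,398] (.q 429 (.a 1 [] (.d 461 1357 333 1389 493)
 (.a 1 [333] (.d 462 2378 330 2411 495)
 .e)))
 .e))))
 .e))))
 .e))))
 (.a 1 [331] (.q 429 (.a 1 [] (.d 330 2345 297 2378 462)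
 (.a 1 [297] (.d 462 2378 330 2411 495)
 (.a 0 [330,462] (.q 334 (.a 1 [] (.d 303 3344 272 3375 427)
 (.a 1 [272] (.d 427 3375 303 3406 458)
 (.a 0 [303,427] (.q 366 (.a 1 [] (.d 364 362 362 363 367)
 (.a 0 [362,364,367] (.q 398 (.a 1 [] (.d 302 1294 270 1326 430)
 (.a 0 [270,302,430] (.q 397 (.a 1 [] (.d 395 394 394 395 399)
 (.a 1 [394] (.d 399 395 395 396 400)
 (.a 1 [395] (.d 333 1325 301 1357 461)
 .e))))
 .e)))
 .e)))
 .e))))
 .e))))
 (.a 1 [333] (.q 427 (.a 1 [] (.d 334 3375 303 3406 458)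
 (.a 1 [303] (.d 458 3406 334 3437 489)
 (.a 0 [334,458] (.q 330 (.a 1 [] (.d 297 2312 264 2345 429)
 (.a 1 [264] (.d 429 2345 297 2378 462)
 (.a 0 [297,429] (.q 362 (.a 1 [] (.d 364 361 361 362 366)
 (.a 0 [361,364,366] (.q 394 (.a 1 [] (.d 298 1290 266 1322 426)
 (.a 0 [266,298,426] (.q 395 (.a 1 [] (.d 393 392 392 393 397)
 (.a 1 [392] (.d 397 393 393 394 398)
 (.a 1 [393] (.d 331 1323 299 1355 459)
 .e))))
 .e)))
 .e)))
 .e))))
 .e))))
 (.a 1 [459] (.q 429 (.a 1 [] (.d 330 2345 297 2378 462)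
 (.a 1 [297] (.d 462 2378 330 2411 495)
 (.a 0 [330,462] (.q 366 (.a 1 [] (.d 364 362 362 363 367)
 (.a 0 [362,364,367] (.q 334 (.a 1 [] (.d 303 3344 272 3375 427)
 (.a 1 [272] (.d 427 3375 303 3406 458)
 (.a 0 [303,427] (.q 398 (.a 1 [] (.d 302 1294 270 1326 430)
 (.a 0 [270,302,430] (.q 397 (.a 1 [] (.d 395 394 394 395 399)
 (.a 1 [394] (.d 399 395 395 396 400)
 (.a 1 [395] (.d 333 1325 301 1357 461)
 .e))))
 .e)))
 .e))))
 .e)))
 .e))))
 (.a 1 [491] (.q 429 (.a 1 [] (.d 330 2345 297 2378 462)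
 (.a 1 [297] (.d 462 2378 330 2411 495)
 (.a 0 [330,462] (.q 397 (.a 1 [] (.d 333 1325 301 1357 461)
 (.a 1 [301] (.d 461 1357 333 1389 493)
 (.a 0 [333,461] (.q 395 (.a 1 [] (.d 394 393 393 394 398)
 (.a 1 [393] (.d 398 394 394 395 399)
 (.a 0 [394,398] (.q 427 (.a 1 [] (.d 331 1323 299 1355 459)
 (.a 1 [299] (.d 458 3406 334 3437 489)
 .e)))
 .e))))
 .e))))
 .e))))
 (.a 1 [329] (.q 427 (.a 1 [] (.d 334 3375 303 3406 458)
 (.a 1 [303] (.d 458 3406 334 3437 489)
 (.a 0 [334,458] (.q 395 (.a 1 [] (.d 331 1323 299 1355 459)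
 (.a 1 [299] (.d 459 1355 331 1387 491)
 (.a 0 [331,459] (.q 397 (.a 1 [] (.d 394 393 393 394 398)
 (.a 1 [393] (.d 398 394 394 395 399)
 (.a 0 [394,398] (.q 429 (.a 1 [] (.d 333 1325 301 1357 461)
 (.a 1 [301] (.d 461 1357 333 1389 493)
 (.a 1 [333] (.d 330 2345 297 2378 462)
 .e))))
 .e))))
 .e))))
 .e))))
 .e)))))))))))))))))))))))))) (by decide +kernel)

theorem all : RT X2 627 (495 :: 499 :: 503 :: 528 :: 531 :: 534 :: 561 :: 563 :: 565 :: 594 :: 595 :: 596 :: 623 :: 624 :: 625 :: 626 :: 628 :: 629 :: 630 :: 631 :: 658 :: 659 :: 660 :: 689 :: 691 :: 693 :: 720 :: 723 :: 726 :: 751 :: 755 :: 759 :: 428 :: []) := ⟨r495, r499, r503, r528, r531, r534, r561, r563, r565, r594, r595, r596, r623, r624, r625, r626, r628, r629, r630, r631, r658, r659, r660, r689, r691, r693, r720, r723, r726, r751, r755, r759, r428, trivial⟩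

end Pool.Agent.H94.Five.Mid.K8_8_0
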