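import Pool.Agent.H94.Five.Mid.Fam

set_option autoImplicit false
set_option linter.all false
set_option maxRecDepth 100000

/-! Second has the cell (9, 1): some of the other stones. -/

namespace Pool.Agent.H94.Five.Mid.K9_1_0

open Pool.Agent.H79.Five Pool.Agent.H10.Five Pool.Agent.H94.Five.M

abbrev nl : List Ent := [n0, n3, n4, n6, n8, n9, n10, n11, n16, n17, n21, n22]

theorem nl_ok : AC XB M0 nl := .cons n0k <| .cons n3k <| .cons n4k <| .cons n6k <| .cons n8k <| .cons n9k <| .cons n10k <| .cons n11k <| .cons n16k <| .cons n17k <| .cons n21k <| .cons n22k <| .nil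

abbrev fl : List Ent := (x28 :: x45 :: x54 :: x73 :: x74 :: x96 :: x101 :: x103 :: x130 :: x131 :: x139 :: x146 :: x161 :: x167 :: x171 :: x174 :: x177 :: x183 :: x194 :: x201 :: x204 :: x214 :: x223 :: x228 :: x243 :: x245 :: x255 :: x258 :: x260 :: x266 :: x269 :: x276 :: x277 :: x291 :: x292 :: x310 :: x313 :: x316 :: x318 :: x322 :: x328 :: x332 :: x337 :: x339 :: x357 :: x363 :: x364 :: x371 :: x375 :: x383 :: x390 :: x413 :: x415 :: x420 :: x424 :: x426 :: x427 :: x434 :: x437 :: x444 :: x451 :: x452 :: x460 :: x462 :: x498 :: x501 :: x518 :: [])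

theorem fl_ok : AC XB M0 fl := .cons x28k <| .cons x45k <| .cons x54k <| .cons x73k <| .cons x74k <| .cons x96k <| .cons x101k <| .cons x103k <| .cons x130k <| .cons x131k <| .cons x139k <| .cons x146k <| .cons x161k <| .cons x167k <| .cons x171k <| .cons x174k <| .cons x177k <| .cons x183k <| .cons x194k <| .cons x201k <| .cons x204k <| .cons x214k <| .cons x223k <| .cons x228k <| .cons x243k <| .cons x245k <| .cons x255k <| .cons x258k <| .cons x260k <| .cons x266k <| .cons x269k <| .cons x276k <| .cons x277k <| .cons x291k <| .cons x292k <| .cons x310k <| .cons x313k <| .cons x316k <| .cons x318k <| .cons x322k <| .cons x328k <| .cons x332k <| .cons x337k <| .cons x339k <| .cons x357k <| .cons x363k <| .cons x364k <| .cons x371k <| .cons x375k <| .cons x383k <| .cons x390k <| .cons x413k <| .cons x415k <| .cons x420k <| .cons x424k <| .cons x426k <| .cons x427k <| .cons x434k <| .cons x437k <| .cons x444k <| .cons x451k <| .cons x452k <| .cons x460k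 <| .cons x462k <| .cons x498k <| .cons x501k <| .cons x518k <| .nil

theorem b2_2603 : S (PX [402] [268,400,403,404]) := S.of (.q 395 (.a 1 [] (.d 393 392 392 393 397)
 (.a 1 [392] (.d 397 393 393 394 398)
 (.a 0 [393,397] (.q 427 (.a 1 [] (.d 331 1323 299 1355 459)
 (.a 1 [299] (.d 459 1355 331 1387 491)
 (.a 0 [331,459] (.q 330 (.a 1 [] (.d 297 2312 264 2345 429)
 (.a 1 [264] (.d 429 2345 297 2378 462)
 (.a 0 [297,429] (.q 361 (.a 1 [] (.d 328 2343 295 2376 460)
 (.a 1 [295] (.d 460 2376 328 2409 493)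
 (.a 0 [328,460] (.q 362 (.a 1 [] (.d 360 359 359 360 364)
 (.a 1 [359] (.d 364 360 360 361 365)
 (.a 1 [360] (.d 298 1290 266 1322 426)
 .e))))
 .e))))
 .e))))
 .e))))
 .e)))) (by decide +kernel)

theorem b2_2604 : S (PX [402] [400,401,403,404]) := S.of (.q 330 (.a 1 [] (.d 297 2312 264 2345 429)
 (.a 1 [264] (.d 429 2345 297 2378 462)
 (.a 0 [297,429] (.q 362 (.a 1 [] (.d 298 1290 266 1322 426)
 (.a 1 [266] (.d 426 1322 298 1354 458)
 (.a 0 [298,426] (.q 361 (.a 1 [] (.d 360 359 359 360 364)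
 (.a 1 [359] (.d 364 360 360 361 365)
 (.a 0 [360,364] (.q 427 (.a 1 [] (.d 328 2343 295 2376 460)
 (.a 1 [295] (.d 460 2376 328 2409 493)
 (.a 0 [328,460] (.q 395 (.a 1 [] (.d 393 392 392 393 397)
 (.a 1 [392] (.d 397 393 393 394 398)
 (.a 1 [393] (.d 331 1323 299 1355 459)
 .e))))
 .e))))
 .e))))
 .e))))
 .e)))) (by decide +kernel)

theorem b2_2633 : S (PX [206,338] [173,272,303,305,404]) := S.of (.q 395 (.a 1 [] (.d 393 392 392 393 397)
 (.a 1 [392] (.d 397 393 393 394 398)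
 (.a 0 [393,397] (.q 427 (.a 1 [] (.d 331 1323 299 1355 459)
 (.a 1 [299] (.d 459 1355 331 1387 491)
 (.a 0 [331,459] (.q 330 (.a 1 [] (.d 297 2312 264 2345 429)
 (.a 1 [264] (.d 429 2345 297 2378 462)
 (.a 0 [297,429] (.q 361 (.a 1 [] (.d 328 2343 295 2376 460)
 (.a 1 [295] (.d 460 2376 328 2409 493)
 (.a 0 [328,460] (.q 362 (.a 1 [] (.d 360 359 359 360 364)
 (.a 1 [359] (.d 364 360 360 361 365)
 (.a 1 [360] (.d 298 1290 266 1322 426)
 .e))))
 .e))))
 .e))))
 .e))))
 .e)))) (by decide +kernel)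

theorem b2_2635 : S (PX [173,338] [206,272,303,305,404]) := S.of (.q 395 (.a 1 [] (.d 393 392 392 393 397)
 (.a 1 [392] (.d 397 393 393 394 398)
 (.a 0 [393,397] (.q 427 (.a 1 [] (.d 331 1323 299 1355 459)
 (.a 1 [299] (.d 459 1355 331 1387 491)
 (.a 0 [331,459] (.q 330 (.a 1 [] (.d 297 2312 264 2345 429)
 (.a 1 [264] (.d 429 2345 297 2378 462)
 (.a 0 [297,429] (.q 361 (.a 1 [] (.d 328 2343 295 2376 460)
 (.a 1 [295] (.d 460 2376 328 2409 493)
 (.a 0 [328,460] (.q 362 (.a 1 [] (.d 360 359 359 360 364)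
 (.a 1 [359] (.d 364 360 360 361 365)
 (.a 1 [360] (.d 298 1290 266 1322 426)
 .e))))
 .e))))
 .e))))
 .e))))
 .e)))) (by decide +kernel)

theorem b2_2636 : S (PX [173,338] [206,272,305,330,404]) := S.of (.q 395 (.a 1 [] (.d 393 392 392 393 397)
 (.a 1 [392] (.d 397 393 393 394 398)
 (.a 0 [393,397] (.q 427 (.a 1 [] (.d 331 1323 299 1355 459)
 (.a 1 [299] (.d 459 1355 331 1387 491)
 (.a 0 [331,459] (.q 332 (.a 1 [] (.d 301 3342 270 3373 425)
 (.a 1 [270] (.d 425 3373 301 3404 456)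
 (.a 0 [301,425] (.q 365 (.a 1 [] (.d 334 3375 303 3406 458)
 (.a 1 [303] (.d 458 3406 334 3437 489)
 (.a 0 [334,458] (.q 364 (.a 1 [] (.d 362 361 361 362 366)
 (.a 1 [361] (.d 366 362 362 363 367)
 (.a 1 [362] (.d 300 1292 268 1324 428)
 .e))))
 .e))))
 .e))))
 .e))))
 .e)))) (by decide +kernel)

theorem b2_2639 : S (PX [173,338] [239,272,303,305,404]) := S.of (.q 395 (.a 1 [] (.d 393 392 392 393 397)
 (.a 1 [392] (.d 397 393 393 394 398)
 (.a 0 [393,397] (.q 427 (.a 1 [] (.d 331 1323 299 1355 459)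
 (.a 1 [299] (.d 459 1355 331 1387 491)
 (.a 0 [331,459] (.q 429 (.a 1 [] (.d 330 2345 297 2378 462)
 (.a 1 [297] (.d 462 2378 330 2411 495)
 (.a 0 [330,462] (.q 460 (.a 1 [] (.d 361 2376 328 2409 493)
 (.a 1 [328] (.d 493 2409 361 2442 526)
 (.a 0 [361,493] (.q 428 (.a 1 [] (.d 426 425 425 426 430)
 (.a 1 [425] (.d 430 426 426 427 431)
 (.a 1 [426] (.d 364 1356 332 1388 492)
 .e))))
 .e))))
 .e))))
 .e))))
 .e)))) (by decide +kernel)

theorem b2_2641 : S (PX [338] [272,303,305,404]) := S.of (.q 395 (.a 1 [] (.d 393 392 392 393 397)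
 (.a 1 [392] (.d 397 393 393 394 398)
 (.a 0 [393,397] (.q 427 (.a 1 [] (.d 331 1323 299 1355 459)
 (.a 1 [299] (.d 459 1355 331 1387 491)
 (.a 0 [331,459] (.q 429 (.a 1 [] (.d 330 2345 297 2378 462)
 (.a 1 [297] (.d 462 2378 330 2411 495)
 (.a 0 [330,462] (.q 460 (.a 1 [] (.d 361 2376 328 2409 493)
 (.a 1 [328] (.d 493 2409 361 2442 526)
 (.a 0 [361,493] (.q 428 (.a 1 [] (.d 426 425 425 426 430)
 (.a 1 [425] (.d 430 426 426 427 431)
 (.a 1 [426] (.d 364 1356 332 1388 492)
 .e))))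
 .e))))
 .e))))
 .e))))
 .e)))) (by decide +kernel)

theorem b2_2642 : S (PX [338] [272,305,330,404]) := S.of (.q 395 (.a 1 [] (.d 393 392 392 393 397)
 (.a 1 [392] (.d 397 393 393 394 398)
 (.a 0 [393,397] (.q 427 (.a 1 [] (.d 331 1323 299 1355 459)
 (.a 1 [299] (.d 459 1355 331 1387 491)
 (.a 0 [331,459] (.q 332 (.a 1 [] (.d 301 3342 270 3373 425)
 (.a 1 [270] (.d 425 3373 301 3404 456)
 (.a 0 [301,425] (.q 365 (.a 1 [] (.d 334 3375 303 3406 458)
 (.a 1 [303] (.d 458 3406 334 3437 489)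
 (.a 0 [334,458] (.q 364 (.a 1 [] (.d 362 361 361 362 366)
 (.a 1 [361] (.d 366 362 362 363 367)
 (.a 1 [362] (.d 300 1292 268 1324 428)
 .e))))
 .e))))
 .e))))
 .e))))
 .e)))) (by decide +kernel)

theorem b2_2643 : S (PX [338] [272,305,404,457]) := S.of (.q 395 (.a 1 [] (.d 393 392 392 393 397)
 (.a 1 [392] (.d 397 393 393 394 398)
 (.a 0 [393,397] (.q 427 (.a 1 [] (.d 331 1323 299 1355 459)
 (.a 1 [299] (.d 459 1355 331 1387 491)
 (.a 0 [331,459] (.q 425 (.a 1 [] (.d 332 3373 301 3404 456)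
 (.a 1 [301] (.d 456 3404 332 3435 487)
 (.a 0 [332,456] (.q 458 (.a 1 [] (.d 365 3406 334 3437 489)
 (.a 1 [334] (.d 489 3437 365 3468 520)
 (.a 0 [365,489] (.q 426 (.a 1 [] (.d 424 423 423 424 428)
 (.a 1 [423] (.d 428 424 424 425 429)
 (.a 1 [424] (.d 362 1354 330 1386 490)
 .e))))
 .e))))
 .e))))
 .e))))
 .e)))) (by decide +kernel)

theorem b2_2667 : S (PX [] [268,400,404]) := S.of (.q 395 (.a 1 [] (.d 393 392 392 393 397)
 (.a 1 [392] (.d 397 393 393 394 398)
 (.a 0 [393,397] (.q 427 (.a 1 [] (.d 331 1323 299 1355 459)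
 (.a 1 [299] (.d 459 1355 331 1387 491)
 (.a 0 [331,459] (.q 330 (.a 1 [] (.d 297 2312 264 2345 429)
 (.a 1 [264] (.d 429 2345 297 2378 462)
 (.a 0 [297,429] (.q 361 (.a 1 [] (.d 328 2343 295 2376 460)
 (.a 1 [295] (.d 460 2376 328 2409 493)
 (.a 0 [328,460] (.q 362 (.a 1 [] (.d 360 359 359 360 364)
 (.a 1 [359] (.d 364 360 360 361 365)
 (.a 1 [360] (.d 298 1290 266 1322 426)
 .e))))
 .e))))
 .e))))
 .e))))
 .e)))) (by decide +kernel)

theorem b2_2668 : S (PX [] [400,401,404]) := S.of (.q 332 (.a 1 [] (.d 301 3342 270 3373 425)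
 (.a 0 [301] (.q 364 (.a 1 [] (.d 300 1292 268 1324 428)
 (.a 0 [300] (.r 460 1356 428 (.q 365 (.a 1 [] (.d 362 361 361 362 366)
 (.a 0 [362] (.q 427 (.a 1 [] (.d 361 2376 328 2409 493)
 (.a 1 [402] (.q 403 (.a 1 [] (.d 361 2376 328 2409 493)
 (.a 1 [398] (.q 399 (.a 1 [] (.d 361 2376 328 2409 493)
 (.a 1 [493] (.d 334 3375 303 3406 458)
 .e)))
 (.a 1 [493] (.d 334 3375 303 3406 458)
 (.a 1 [399] (.q 398 (.a 1 [] (.d 361 2376 328 2409 493)
 (.a 1 [328] (.d 493 2409 361 2442 526)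
 (.a 1 [361] (.d 299 2314 266 2347 431)
 .e))))
 .e)))))
 (.a 1 [403] (.q 402 (.a 1 [] (.d 361 2376 328 2409 493)
 (.a 1 [493] (.d 458 3406 334 3437 489)
 .e)))
 (.a 1 [493] (.d 334 3375 303 3406 458)
 .e)))))
 (.a 0 [402] (.q 403 (.a 1 [] (.d 366 362 362 363 367)
 (.a 1 [398] (.q 399 (.a 1 [] (.d 362 361 361 362 366)
 (.a 1 [362] (.q 427 (.a 1 [] (.d 361 2376 328 2409 493)
 (.a 1 [328] (.d 493 2409 361 2442 526)
 (.a 1 [361] (.d 334 3375 303 3406 458)
 .e))))
 (.a 1 [361] (.d 366 362 362 363 367)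
 .e))))
 (.a 1 [362] (.q 398 (.a 1 [] (.d 299 2314 266 2347 431)
 (.a 1 [266] (.d 431 2347 299 2380 464)
 (.a 1 [299] (.r 367 363 366 (.d 429 3408 336 3439 491))
 .e))))
 (.a 1 [366] (.r 361 361 362 (.d 427 2376 328 2409 493))
 (.a 1 [399] (.q 398 (.a 1 [] (.d 362 361 361 362 366)
 (.a 1 [361] (.d 366 362 362 363 367)
 (.a 1 [362] (.d 299 2314 266 2347 431)
 .e))))
 .e))))))
 (.a 1 [403] (.q 402 (.a 1 [] (.d 366 362 362 363 367)
 (.a 1 [362] (.q 427 (.a 1 [] (.d 361 2376 328 2409 493)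
 (.a 1 [328] (.d 493 2409 361 2442 526)
 (.a 1 [361] (.d 334 3375 303 3406 458)
 .e))))
 (.a 1 [367] (.d 362 361 361 362 366)
 .e))))
 (.a 1 [366] (.r 361 361 362 (.d 427 2376 328 2409 493))
 (.a 1 [361] (.d 366 362 362 363 367)
 .e))))))))
 (.a 0 [428] (.q 365 (.a 1 [] (.d 362 361 361 362 366)
 (.a 0 [362] (.q 398 (.a 1 [] (.d 299 2314 266 2347 431)
 (.a 1 [299] (.r 366 363 367 (.r 395 394 397 (.q 334 (.a 1 [] (.d 302 1294 270 1326 430)
 (.a 1 [403] (.q 402 (.a 1 [] (.d 303 3344 272 3375 427)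
 (.a 1 [272] (.d 427 3375 303 3406 458)
 (.a 1 [303] (.d 302 1294 270 1326 430)
 .e))))
 (.a 1 [402] (.q 403 (.a 1 [] (.d 302 1294 270 1326 430)
 (.a 1 [302] (.d 303 3344 272 3375 427)
 .e)))
 (.a 1 [302] (.d 303 3344 272 3375 427)
 .e)))))))
 (.a 1 [403] (.q 402 (.a 1 [] (.d 299 2314 266 2347 431)
 (.a 1 [299] (.q 334 (.a 1 [] (.d 303 3344 272 3375 427)
 (.a 1 [272] (.d 427 3375 303 3406 458)
 (.a 1 [303] (.r 366 363 367 (.d 430 1326 302 1358 462))
 .e))))
 (.a 1 [431] (.r 395 394 397 (.r 299 2314 266 (.d 331 1291 267 1323 427)))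
 .e))))
 (.a 1 [402] (.q 403 (.a 1 [] (.d 299 2314 266 2347 431)
 (.a 1 [299] (.q 334 (.a 1 [] (.d 303 3344 272 3375 427)
 (.a 1 [272] (.d 427 3375 303 3406 458)
 (.a 1 [303] (.r 366 363 367 (.d 430 1326 302 1358 462))
 .e))))
 (.a 1 [431] (.r 395 394 397 (.r 299 2314 266 (.d 331 1291 267 1323 427)))
 .e))))
 (.a 1 [431] (.r 395 394 397 (.r 299 2314 266 (.d 331 1291 267 1323 427)))
 (.a 1 [266] (.d 431 2347 299 2380 464)
 .e)))))))
 (.a 0 [366] (.q 395 (.a 1 [] (.d 393 392 392 393 397)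
 (.a 0 [402] (.q 403 (.a 1 [] (.d 393 392 392 393 397)
 (.a 1 [398] (.q 399 (.a 1 [] (.d 393 392 392 393 397)
 (.a 1 [393] (.q 427 (.a 1 [] (.d 331 1323 299 1355 459)
 (.a 1 [299] (.d 459 1355 331 1387 491)
 (.a 1 [331] (.d 334 3375 303 3406 458)
 .e))))
 (.a 1 [397] (.r 362 361 361 (.r 393 392 392 (.r 300 1292 268 (.d 331 3341 269 3372 424))))
 .e))))
 (.a 1 [397] (.r 362 361 361 (.r 300 1292 268 (.r 393 392 392 (.d 331 3341 269 3372 424))))
 (.a 1 [393] (.r 398 394 397 (.d 431 2347 299 2380 464))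
 .e)))))
 (.a 1 [403] (.q 402 (.a 1 [] (.d 393 392 392 393 397)
 (.a 1 [397] (.r 362 361 361 (.r 300 1292 268 (.r 393 392 392 (.d 331 3341 269 3372 424))))
 (.a 1 [393] (.r 398 394 397 (.d 431 2347 299 2380 464))
 .e))))
 (.a 1 [397] (.r 362 361 361 (.r 300 1292 268 (.r 393 392 392 (.d 331 3341 269 3372 424))))
 (.a 1 [393] (.r 398 394 397 (.d 431 2347 299 2380 464))
 .e))))))
 (.a 0 [402] (.q 403 (.a 1 [] (.d 366 362 362 363 367)
 (.a 1 [398] (.q 399 (.a 1 [] (.d 362 361 361 362 366)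
 (.a 1 [366] (.q 427 (.a 1 [] (.d 334 3375 303 3406 458)
 (.a 1 [303] (.d 458 3406 334 3437 489)
 (.a 1 [334] (.r 361 361 362 (.d 460 2376 328 2409 493))
 .e))))
 (.a 1 [362] (.q 303 (.a 1 [] (.d 334 3344 272 3375 427)
 (.a 1 [272] (.r 367 363 366 (.d 335 1295 271 1327 431))
 .e)))
 .e))))
 (.a 1 [362] (.q 398 (.a 1 [] (.d 299 2314 266 2347 431)
 (.a 1 [266] (.d 431 2347 299 2380 464)
 (.a 1 [431] (.r 395 394 397 (.r 299 2314 266 (.d 331 1291 267 1323 427)))
 (.a 0 [299] (.q 334 (.a 1 [] (.d 303 3344 272 3375 427)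
 (.a 1 [272] (.d 427 3375 303 3406 458)
 (.a 1 [303] (.r 366 363 367 (.d 430 1326 302 1358 462))
 .e))))
 .e)))))
 (.a 1 [366] (.q 398 (.a 1 [] (.d 299 2314 266 2347 431)
 (.a 1 [266] (.d 431 2347 299 2380 464)
 (.a 1 [431] (.r 395 394 397 (.r 299 2314 266 (.d 331 1291 267 1323 427)))
 (.a 0 [299] (.q 330 (.a 1 [] (.d 297 2312 264 2345 429)
 (.a 1 [264] (.d 429 2345 297 2378 462)
 (.a 1 [297] (.r 362 361 361 (.d 426 1322 298 1354 458))
 .e))))
 .e)))))
 (.a 1 [367] (.d 362 361 361 362 366)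
 .e))))))
 (.a 1 [403] (.q 402 (.a 1 [] (.d 362 361 361 362 366)
 (.a 1 [362] (.q 395 (.a 1 [] (.d 393 392 392 393 397)
 (.a 1 [392] (.d 397 393 393 394 398)
 (.a 1 [393] (.r 398 394 397 (.d 431 2347 299 2380 464))
 (.a 0 [397] (.q 398 (.a 1 [] (.d 299 2314 266 2347 431)
 (.a 1 [266] (.d 431 2347 299 2380 464)
 (.a 1 [431] (.r 299 2314 266 (.d 331 1291 267 1323 427))
 (.a 0 [299] (.q 427 (.a 1 [] (.d 459 1355 331 1387 491)
 (.a 1 [331] (.d 458 3406 334 3437 489)
 .e)))
 .e)))))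
 .e)))))
 (.a 1 [366] (.q 427 (.a 1 [] (.d 334 3375 303 3406 458)
 (.a 1 [303] (.d 458 3406 334 3437 489)
 (.a 1 [334] (.r 361 361 362 (.d 460 2376 328 2409 493))
 .e))))
 .e))))
 (.a 1 [361] (.d 366 362 362 363 367)
 .e)))))))
 (.a 0 [402] (.q 403 (.a 1 [] (.d 428 1324 300 1356 460)
 (.a 0 [300] (.r 460 1356 428 (.q 427 (.a 1 [] (.d 361 2376 328 2409 493)
 (.a 1 [398] (.q 399 (.a 1 [] (.d 361 2376 328 2409 493)
 (.a 1 [361] (.q 395 (.a 1 [] (.d 393 392 392 393 397)
 (.a 1 [392] (.d 459 1355 331 1387 491)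
 .e)))
 .e)))
 (.a 1 [361] (.q 398 (.a 1 [] (.r 395 394 397 (.d 459 1355 331 1387 491))
 (.a 1 [331] (.r 395 394 397 (.r 491 1387 459 (.d 429 3439 367 3470 522)))
 (.a 1 [459] (.r 395 394 397 (.r 299 1323 331 (.d 365 2314 266 2347 431)))
 (.a 0 [395,397] (.q 365 (.a 1 [] (.d 366 362 362 363 367)
 (.a 1 [362] (.d 458 3406 334 3437 489)
 .e)))
 .e)))))
 .e)))))
 (.a 0 [428] (.q 395 (.a 1 [] (.d 393 392 392 393 397)
 (.a 0 [397] (.q 365 (.a 1 [] (.d 362 361 361 362 366)
 (.a 1 [398] (.q 399 (.a 1 [] (.d 362 361 361 362 366)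
 (.a 1 [366] (.r 362 361 361 (.r 393 392 392 (.r 300 1292 268 (.d 331 3341 269 3372 424))))
 (.a 1 [362] (.q 427 (.a 1 [] (.d 331 1323 299 1355 459)
 (.a 1 [299] (.d 459 1355 331 1387 491)
 (.a 1 [331] (.d 334 3375 303 3406 458)
 .e))))
 .e))))
 (.a 1 [366] (.r 362 361 361 (.r 300 1292 268 (.r 393 392 392 (.d 331 3341 269 3372 424))))
 (.a 1 [362] (.q 398 (.a 1 [] (.d 299 2314 266 2347 431)
 (.a 1 [266] (.d 431 2347 299 2380 464)
 (.a 1 [431] (.r 299 2314 266 (.d 331 1291 267 1323 427))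
 (.a 0 [299] (.q 427 (.a 1 [] (.d 459 1355 331 1387 491)
 (.a 1 [331] (.d 458 3406 334 3437 489)
 .e)))
 .e)))))
 .e)))))
 (.a 1 [398] (.q 399 (.a 1 [] (.d 393 392 392 393 397)
 (.a 1 [393] (.q 333 (.a 1 [] (.d 302 3343 271 3374 426)
 (.a 1 [271] (.d 426 3374 302 3405 457)
 (.a 1 [302] (.r 300 1292 268 (.d 366 2315 267 2348 432))
 .e))))
 .e)))
 (.a 1 [392] (.d 397 393 393 394 398)
 (.a 1 [399] (.r 398 394 397 (.q 365 (.a 1 [] (.d 362 361 361 362 366)
 (.a 1 [361] (.d 366 362 362 363 367)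
 (.a 1 [362] (.d 299 2314 266 2347 431)
 .e)))))
 .e))))))
 (.a 1 [398] (.q 399 (.a 1 [] (.d 428 1324 300 1356 460)
 (.a 1 [300] (.q 361 (.a 1 [] (.d 362 360 360 361 365)
 (.a 1 [360] (.r 460 1356 428 (.d 427 2376 328 2409 493))
 .e)))
 (.a 1 [428] (.q 365 (.a 1 [] (.d 362 361 361 362 366)
 (.a 1 [361] (.d 366 362 362 363 367)
 (.a 0 [362,366] (.q 334 (.a 1 [] (.d 303 3344 272 3375 427)
 (.a 1 [272] (.d 427 3375 303 3406 458)
 (.a 0 [303,427] (.q 429 (.a 1 [] (.d 330 2345 297 2378 462)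
 (.a 1 [297] (.d 462 2378 330 2411 495)
 (.a 1 [462] (.r 330 2345 297 (.r 333 330 331 (.r 397 1357 461 (.r 395 393 393 (.d 426 3374 302 3405 457)))))
 (.a 0 [330] (.q 333 (.a 1 [] (.d 335 331 331 332 336)
 (.a 1 [331] (.r 397 1357 461 (.r 395 393 393 (.d 426 3374 302 3405 457)))
 .e)))
 .e)))))
 .e))))
 .e))))
 (.a 1 [460] (.d 300 1292 268 1324 428)
 .e)))))
 (.a 1 [399] (.q 398 (.a 1 [] (.d 300 1292 268 1324 428)
 (.a 1 [268] (.d 428 1324 300 1356 460)
 (.a 0 [300,428] (.q 365 (.a 1 [] (.d 362 361 361 362 366)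
 (.a 1 [361] (.d 366 362 362 363 367)
 (.a 1 [362] (.d 299 2314 266 2347 431)
 .e))))
 .e))))
 (.a 1 [460] (.d 300 1292 268 1324 428)
 .e)))))))
 (.a 1 [403] (.q 402 (.a 1 [] (.d 300 1292 268 1324 428)
 (.a 1 [300] (.q 361 (.a 1 [] (.d 362 360 360 361 365)
 (.a 1 [360] (.r 365 361 362 (.r 460 1356 428 (.d 427 2376 328 2409 493)))
 (.a 1 [362] (.r 460 1356 428 (.d 427 2376 328 2409 493))
 .e))))
 (.a 1 [428] (.q 365 (.a 1 [] (.d 362 361 361 362 366)
 (.a 1 [361] (.d 366 362 362 363 367)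
 (.a 0 [362,366] (.q 334 (.a 1 [] (.d 303 3344 272 3375 427)
 (.a 1 [272] (.d 427 3375 303 3406 458)
 (.a 0 [303,427] (.q 429 (.a 1 [] (.d 330 2345 297 2378 462)
 (.a 1 [297] (.d 462 2378 330 2411 495)
 (.a 1 [462] (.r 330 2345 297 (.r 333 330 331 (.r 397 1357 461 (.d 395 393 393 394 398))))
 (.a 0 [330] (.q 397 (.a 1 [] (.d 395 393 393 394 398)
 (.a 1 [393] (.d 461 1357 333 1389 493)
 .e)))
 .e)))))
 .e))))
 .e))))
 (.a 1 [268] (.d 428 1324 300 1356 460)
 .e)))))
 (.a 1 [268] (.d 428 1324 300 1356 460)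
 .e)))))))
 (.a 0 [425] (.q 364 (.a 1 [] (.d 300 1292 268 1324 428)
 (.a 0 [428] (.q 365 (.a 1 [] (.d 362 361 361 362 366)
 (.a 1 [362] (.r 301 3342 270 (.r 268 1292 300 (.r 367 363 366 (.r 334 2283 235 (.d 427 3375 303 3406 458)))))
 (.a 0 [366] (.r 301 3342 270 (.r 361 361 362 (.q 427 (.a 1 [] (.d 328 2343 295 2376 460)
 (.a 0 [402] (.q 403 (.a 1 [] (.d 328 2343 295 2376 460)
 (.a 0 [398] (.q 399 (.a 1 [] (.d 328 2343 295 2376 460)
 (.a 1 [334] (.q 302 (.a 1 [] (.d 328 2343 295 2376 460)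
 (.a 1 [462] (.q 430 (.a 1 [] (.d 328 2343 295 2376 460)
 (.a 1 [460] (.r 300 1292 268 (.d 303 299 299 300 304))
 .e)))
 (.a 1 [460] (.r 300 1292 268 (.d 303 299 299 300 304))
 (.a 1 [430] (.q 462 (.a 1 [] (.d 328 2343 295 2376 460)
 (.a 1 [295] (.d 460 2376 328 2409 493)
 (.a 1 [328] (.d 429 2378 330 2411 495)
 .e))))
 .e)))))
 (.a 1 [460] (.d 334 3375 303 3406 458)
 .e))))
 (.a 1 [328] (.d 458 3406 334 3437 489)
 (.a 1 [399] (.q 398 (.a 1 [] (.d 460 2376 328 2409 493)
 (.a 1 [328] (.d 299 2314 266 2347 431)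
 .e)))
 .e)))))
 (.a 1 [403] (.q 402 (.a 1 [] (.d 328 2343 295 2376 460)
 (.a 1 [328] (.d 334 3375 303 3406 458)
 .e)))
 (.a 1 [328] (.d 334 3375 303 3406 458)
 .e)))))))
 (.a 0 [402] (.q 403 (.a 1 [] (.d 366 362 362 363 367)
 (.a 1 [398] (.q 399 (.a 1 [] (.d 362 361 361 362 366)
 (.a 1 [366] (.q 427 (.a 1 [] (.d 334 3375 303 3406 458)
 (.a 1 [303] (.d 458 3406 334 3437 489)
 (.a 1 [334] (.r 361 361 362 (.d 460 2376 328 2409 493))
 .e))))
 (.a 1 [362] (.q 429 (.a 1 [] (.d 330 2345 297 2378 462)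
 (.a 1 [297] (.d 462 2378 330 2411 495)
 (.a 1 [330] (.r 301 3342 270 (.r 333 1325 397 (.r 366 363 367 (.d 300 2315 267 1292 268))))
 .e))))
 (.a 1 [361] (.d 366 362 362 363 367)
 .e)))))
 (.a 1 [362] (.q 398 (.a 1 [] (.d 299 2314 266 2347 431)
 (.a 1 [266] (.d 431 2347 299 2380 464)
 (.a 1 [431] (.r 395 394 397 (.r 299 2314 266 (.d 331 1291 267 1323 427)))
 (.a 0 [299] (.q 427 (.a 1 [] (.d 334 3375 303 3406 458)
 (.a 1 [303] (.d 458 3406 334 3437 489)
 (.a 1 [334] (.r 395 394 397 (.d 459 1355 331 1387 491))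
 .e))))
 .e)))))
 (.a 1 [366] (.q 398 (.a 1 [] (.d 299 2314 266 2347 431)
 (.a 1 [266] (.d 431 2347 299 2380 464)
 (.a 1 [431] (.r 395 394 397 (.r 299 2314 266 (.d 331 1291 267 1323 427)))
 (.a 0 [299] (.q 427 (.a 1 [] (.d 334 3375 303 3406 458)
 (.a 1 [303] (.d 458 3406 334 3437 489)
 (.a 1 [334] (.r 395 394 397 (.d 459 1355 331 1387 491))
 .e))))
 .e)))))
 (.a 1 [367] (.d 362 361 361 362 366)
 .e))))))
 (.a 1 [403] (.q 402 (.a 1 [] (.d 366 362 362 363 367)
 (.a 1 [362] (.q 397 (.a 1 [] (.d 395 393 393 394 398)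
 (.a 1 [393] (.r 398 394 395 (.d 431 2347 299 2380 464))
 (.a 1 [395] (.r 301 3342 270 (.d 333 1293 269 1325 429))
 .e))))
 .e)))
 .e))))))
 (.a 0 [300] (.r 460 1356 428 (.q 427 (.a 1 [] (.d 361 2376 328 2409 493)
 (.a 0 [361] (.q 395 (.a 1 [] (.d 393 392 392 393 397)
 (.a 1 [402] (.q 403 (.a 1 [] (.d 393 392 392 393 397)
 (.a 1 [398] (.q 399 (.a 1 [] (.d 393 392 392 393 397)
 (.a 1 [393] (.d 331 1323 299 1355 459)
 .e)))
 (.a 1 [393] (.d 331 1323 299 1355 459)
 (.a 1 [399] (.r 398 394 397 (.d 331 1323 299 1355 459))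
 .e)))))
 (.a 1 [403] (.q 402 (.a 1 [] (.d 331 1323 299 1355 459)
 (.a 1 [299] (.d 459 1355 331 1387 491)
 (.a 1 [331] (.d 393 392 392 393 397)
 .e))))
 (.a 1 [393] (.d 459 1355 331 1387 491)
 .e)))))
 (.a 0 [402] (.q 403 (.a 1 [] (.d 493 2409 361 2442 526)
 (.a 1 [398] (.q 399 (.a 1 [] (.d 361 2376 328 2409 493)
 (.a 1 [361] (.q 395 (.a 1 [] (.d 393 392 392 393 397)
 (.a 1 [392] (.d 459 1355 331 1387 491)
 .e)))
 .e)))
 (.a 1 [361] (.q 398 (.a 1 [] (.r 395 394 397 (.d 459 1355 331 1387 491))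
 (.a 1 [331] (.r 395 394 397 (.r 491 1387 459 (.d 429 3439 367 3470 522)))
 (.a 1 [459] (.r 395 394 397 (.r 299 1323 331 (.d 365 2314 266 2347 431)))
 (.a 0 [395,397] (.q 365 (.a 1 [] (.d 366 362 362 363 367)
 (.a 1 [362] (.d 458 3406 334 3437 489)
 .e)))
 .e)))))
 .e))))
 (.a 1 [403] (.q 402 (.a 1 [] (.d 493 2409 361 2442 526)
 (.a 1 [361] (.q 395 (.a 1 [] (.d 393 392 392 393 397)
 (.a 1 [392] (.d 397 393 393 394 398)
 (.a 1 [393] (.d 331 1323 299 1355 459)
 .e))))
 .e)))
 (.a 1 [493] (.r 361 2376 328 (.d 362 360 360 361 365))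
 (.a 1 [328] (.d 493 2409 361 2442 526)
 .e))))))))
 (.a 0 [402] (.q 403 (.a 1 [] (.d 428 1324 300 1356 460)
 (.a 0 [428] (.q 395 (.a 1 [] (.d 393 392 392 393 397)
 (.a 0 [397] (.q 365 (.a 1 [] (.d 362 361 361 362 366)
 (.a 1 [398] (.q 399 (.a 1 [] (.d 362 361 361 362 366)
 (.a 1 [366] (.r 361 361 362 (.r 392 392 393 (.r 268 1292 300 (.r 330 3340 299 (.d 297 2312 264 2345 429)))))
 (.a 1 [362] (.q 427 (.a 1 [] (.d 331 1323 299 1355 459)
 (.a 1 [299] (.d 459 1355 331 1387 491)
 (.a 1 [331] (.d 334 3375 303 3406 458)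
 .e))))
 .e))))
 (.a 1 [366] (.r 361 361 362 (.r 392 392 393 (.r 268 1292 300 (.r 299 3340 330 (.d 398 2314 266 2347 431)))))
 (.a 1 [362] (.q 398 (.a 1 [] (.d 299 2314 266 2347 431)
 (.a 1 [266] (.d 431 2347 299 2380 464)
 (.a 1 [431] (.r 299 2314 266 (.d 331 1291 267 1323 427))
 (.a 0 [299] (.q 427 (.a 1 [] (.d 459 1355 331 1387 491)
 (.a 1 [331] (.d 458 3406 334 3437 489)
 .e)))
 .e)))))
 .e)))))
 (.a 1 [398] (.q 399 (.a 1 [] (.d 393 392 392 393 397)
 (.a 1 [393] (.q 333 (.a 1 [] (.d 302 3343 271 3374 426)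
 (.a 1 [271] (.d 426 3374 302 3405 457)
 (.a 1 [302] (.r 300 1292 268 (.d 366 2315 267 2348 432))
 .e))))
 .e)))
 (.a 1 [393] (.r 398 394 397 (.q 365 (.a 1 [] (.d 362 361 361 362 366)
 (.a 1 [361] (.d 366 362 362 363 367)
 (.a 1 [362] (.d 299 2314 266 2347 431)
 .e)))))
 .e)))))
 (.a 0 [300] (.r 460 1356 428 (.q 427 (.a 1 [] (.d 361 2376 328 2409 493)
 (.a 1 [398] (.q 399 (.a 1 [] (.d 361 2376 328 2409 493)
 (.a 1 [361] (.q 395 (.a 1 [] (.d 393 392 392 393 397)
 (.a 1 [392] (.d 459 1355 331 1387 491)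
 .e)))
 .e)))
 (.a 1 [361] (.q 398 (.a 1 [] (.r 395 394 397 (.d 459 1355 331 1387 491))
 (.a 1 [331] (.r 395 394 397 (.r 491 1387 459 (.d 429 3439 367 3470 522)))
 (.a 1 [459] (.r 395 394 397 (.r 299 1323 331 (.d 365 2314 266 2347 431)))
 (.a 0 [395,397] (.q 365 (.a 1 [] (.d 366 362 362 363 367)
 (.a 1 [362] (.d 458 3406 334 3437 489)
 .e)))
 .e)))))
 .e)))))
 (.a 1 [398] (.q 399 (.a 1 [] (.d 300 1292 268 1324 428)
 (.a 1 [300] (.q 361 (.a 1 [] (.d 362 360 360 361 365)
 (.a 1 [360] (.r 460 1356 428 (.d 427 2376 328 2409 493))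
 .e)))
 (.a 1 [428] (.q 366 (.a 1 [] (.d 365 362 362 363 367)
 (.a 1 [362] (.r 300 1292 268 (.d 333 2315 267 2348 432))
 .e)))
 .e))))
 (.a 1 [399] (.q 398 (.a 1 [] (.d 300 1292 268 1324 428)
 (.a 1 [268] (.d 428 1324 300 1356 460)
 (.a 0 [300,428] (.q 365 (.a 1 [] (.d 362 361 361 362 366)
 (.a 1 [361] (.d 366 362 362 363 367)
 (.a 1 [362] (.d 299 2314 266 2347 431)
 .e))))
 .e))))
 (.a 1 [460] (.d 300 1292 268 1324 428)
 .e)))))))
 (.a 1 [403] (.q 402 (.a 1 [] (.d 300 1292 268 1324 428)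
 (.a 1 [428] (.q 365 (.a 1 [] (.d 362 361 361 362 366)
 (.a 1 [361] (.d 366 362 362 363 367)
 (.a 0 [362,366] (.q 397 (.a 1 [] (.d 395 393 393 394 398)
 (.a 1 [393] (.r 398 394 395 (.d 431 2347 299 2380 464))
 (.a 1 [395] (.r 301 3342 270 (.d 333 1293 269 1325 429))
 .e))))
 .e))))
 (.a 1 [300] (.q 361 (.a 1 [] (.d 362 360 360 361 365)
 (.a 1 [360] (.r 365 361 362 (.r 460 1356 428 (.d 427 2376 328 2409 493)))
 (.a 1 [362] (.r 460 1356 428 (.d 427 2376 328 2409 493))
 .e))))
 .e))))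
 (.a 1 [268] (.d 428 1324 300 1356 460)
 .e)))))))
 (.a 0 [402] (.q 403 (.a 1 [] (.d 301 3342 270 3373 425)
 (.a 0 [301] (.q 395 (.a 1 [] (.d 393 392 392 393 397)
 (.a 0 [397] (.q 364 (.a 1 [] (.d 300 1292 268 1324 428)
 (.a 0 [428] (.q 365 (.a 1 [] (.d 362 361 361 362 366)
 (.a 1 [398] (.q 399 (.a 1 [] (.d 362 361 361 362 366)
 (.a 1 [366] (.r 362 361 361 (.r 393 392 392 (.r 300 1292 268 (.d 331 3341 269 3372 424))))
 (.a 1 [362] (.q 427 (.a 1 [] (.d 331 1323 299 1355 459)
 (.a 1 [299] (.d 459 1355 331 1387 491)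
 (.a 1 [331] (.d 334 3375 303 3406 458)
 .e))))
 .e))))
 (.a 1 [366] (.r 362 361 361 (.r 300 1292 268 (.r 393 392 392 (.d 331 3341 269 3372 424))))
 (.a 1 [362] (.q 398 (.a 1 [] (.d 299 2314 266 2347 431)
 (.a 1 [266] (.d 431 2347 299 2380 464)
 (.a 1 [431] (.r 299 2314 266 (.d 331 1291 267 1323 427))
 (.a 0 [299] (.q 427 (.a 1 [] (.d 459 1355 331 1387 491)
 (.a 1 [331] (.d 458 3406 334 3437 489)
 .e)))
 .e)))))
 .e)))))
 (.a 0 [300] (.r 460 1356 428 (.q 365 (.a 1 [] (.d 362 361 361 362 366)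
 (.a 1 [398] (.q 399 (.a 1 [] (.d 362 361 361 362 366)
 (.a 1 [366] (.r 361 361 362 (.d 427 2376 328 2409 493))
 (.a 1 [362] (.q 427 (.a 1 [] (.d 331 1323 299 1355 459)
 (.a 1 [299] (.d 459 1355 331 1387 491)
 (.a 1 [331] (.d 334 3375 303 3406 458)
 .e))))
 .e))))
 (.a 1 [366] (.r 361 361 362 (.d 427 2376 328 2409 493))
 (.a 1 [362] (.q 398 (.a 1 [] (.d 299 2314 266 2347 431)
 (.a 1 [266] (.d 431 2347 299 2380 464)
 (.a 1 [299] (.r 367 363 366 (.d 429 3408 336 3439 491))
 .e))))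
 (.a 1 [399] (.q 398 (.a 1 [] (.d 366 362 362 363 367)
 (.a 1 [362] (.d 299 2314 266 2347 431)
 .e)))
 .e)))))))
 (.a 1 [398] (.q 399 (.a 1 [] (.d 428 1324 300 1356 460)
 (.a 1 [428] (.q 333 (.a 1 [] (.d 302 3343 271 3374 426)
 (.a 1 [271] (.d 426 3374 302 3405 457)
 (.a 1 [302] (.r 300 1292 268 (.d 366 2315 267 2348 432))
 .e))))
 (.a 1 [300] (.q 362 (.a 1 [] (.d 361 360 360 361 365)
 (.a 1 [360] (.d 365 361 361 362 366)
 (.a 1 [361] (.r 428 1356 460 (.d 461 2377 329 2410 494))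
 .e))))
 .e))))
 (.a 1 [399] (.q 398 (.a 1 [] (.d 428 1324 300 1356 460)
 (.a 1 [428] (.q 365 (.a 1 [] (.d 362 361 361 362 366)
 (.a 1 [361] (.d 366 362 362 363 367)
 (.a 1 [362] (.d 299 2314 266 2347 431)
 .e))))
 .e)))
 (.a 1 [268] (.d 428 1324 300 1356 460)
 .e)))))))
 (.a 0 [398] (.q 399 (.a 1 [] (.d 393 392 392 393 397)
 (.a 1 [397] (.q 364 (.a 1 [] (.d 300 1292 268 1324 428)
 (.a 1 [428] (.q 333 (.a 1 [] (.d 302 3343 271 3374 426)
 (.a 1 [271] (.d 426 3374 302 3405 457)
 (.a 1 [302] (.r 300 1292 268 (.d 366 2315 267 2348 432))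
 .e))))
 (.a 1 [300] (.q 362 (.a 1 [] (.d 361 360 360 361 365)
 (.a 1 [360] (.d 365 361 361 362 366)
 (.a 1 [361] (.r 428 1356 460 (.d 461 2377 329 2410 494))
 .e))))
 (.a 1 [268] (.d 428 1324 300 1356 460)
 .e)))))
 (.a 1 [393] (.q 364 (.a 1 [] (.d 300 1292 268 1324 428)
 (.a 1 [268] (.d 428 1324 300 1356 460)
 (.a 0 [300,428] (.q 362 (.a 1 [] (.d 361 360 360 361 365)
 (.a 1 [360] (.d 365 361 361 362 366)
 (.a 0 [361,365] (.q 330 (.a 1 [] (.d 298 1290 266 1322 426)
 (.a 1 [266] (.d 426 1322 298 1354 458)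
 (.a 1 [298] (.d 297 2312 264 2345 429)
 .e))))
 .e))))
 .e))))
 .e))))
 (.a 1 [392] (.d 397 393 393 394 398)
 (.a 1 [399] (.r 398 394 397 (.q 299 (.a 1 [] (.d 331 1291 267 1323 427)
 (.a 1 [267] (.d 365 2314 266 2347 431)
 .e))))
 .e))))))
 (.a 0 [425] (.q 330 (.a 1 [] (.d 297 2312 264 2345 429)
 (.a 0 [297] (.q 399 (.a 1 [] (.q 395 (.a 1 [] (.d 393 392 392 393 397)
 (.a 1 [392] (.d 397 393 393 394 398)
 (.a 0 [393,397] (.q 329 (.a 1 [] (.d 331 328 328 329 333)
 (.a 1 [328] (.r 331 329 333 (.d 427 1323 299 1355 459))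
 (.a 1 [333] (.r 331 328 328 (.d 427 1323 299 1355 459))
 (.a 0 [331] (.q 362 (.a 1 [] (.d 298 1290 266 1322 426)
 (.a 1 [266] (.d 426 1322 298 1354 458)
 (.a 1 [298] (.d 296 2311 263 2344 428)
 .e))))
 .e)))))
 .e))))
 (.a 0 [362] (.q 395 (.a 1 [] (.d 393 392 392 393 397)
 (.a 1 [393] (.r 398 394 397 (.q 331 (.a 1 [] (.d 329 328 328 329 333)
 (.a 1 [329] (.q 361 (.a 1 [] (.d 299 1291 267 1323 427)
 (.a 1 [299] (.r 427 1355 459 (.d 460 2376 328 2409 493))
 (.a 1 [427] (.r 299 1291 267 (.d 392 3340 268 3371 423))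
 .e))))
 (.a 1 [328] (.d 333 329 329 330 334)
 .e)))))
 (.a 1 [397] (.q 331 (.a 1 [] (.d 329 328 328 329 333)
 (.a 1 [328] (.d 333 329 329 330 334)
 (.a 1 [329] (.d 299 1291 267 1323 427)
 .e))))
 .e))))
 (.a 1 [301] (.q 395 (.a 1 [] (.d 393 392 392 393 397)
 (.a 1 [392] (.d 397 393 393 394 398)
 (.a 0 [393,397] (.q 329 (.a 1 [] (.d 331 328 328 329 333)
 (.a 1 [328] (.r 331 329 333 (.d 427 1323 299 1355 459))
 (.a 1 [333] (.r 331 328 328 (.d 427 1323 299 1355 459))
 (.a 0 [331] (.q 362 (.a 1 [] (.d 298 1290 266 1322 426)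
 (.a 1 [266] (.d 426 1322 298 1354 458)
 (.a 1 [298] (.d 296 2311 263 2344 428)
 .e))))
 .e)))))
 .e))))
 (.a 1 [429] (.q 395 (.a 1 [] (.d 393 392 392 393 397)
 (.a 1 [392] (.d 397 393 393 394 398)
 (.a 0 [393,397] (.q 329 (.a 1 [] (.d 331 328 328 329 333)
 (.a 1 [328] (.r 331 329 333 (.d 427 1323 299 1355 459))
 (.a 1 [333] (.r 331 328 328 (.d 427 1323 299 1355 459))
 (.a 0 [331] (.q 362 (.a 1 [] (.d 298 1290 266 1322 426)
 (.a 1 [266] (.d 426 1322 298 1354 458)
 (.a 1 [298] (.d 296 2311 263 2344 428)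
 .e))))
 .e)))))
 .e))))
 (.a 1 [395] (.q 362 (.a 1 [] (.d 298 1290 266 1322 426)
 (.a 1 [266] (.d 426 1322 298 1354 458)
 (.a 0 [298,426] (.q 364 (.a 1 [] (.d 361 360 360 361 365)
 (.a 1 [360] (.d 365 361 361 362 366)
 (.a 1 [361] (.d 300 1292 268 1324 428)
 .e))))
 .e))))
 (.a 1 [364] (.q 362 (.a 1 [] (.d 298 1290 266 1322 426)
 (.a 1 [266] (.d 426 1322 298 1354 458)
 (.a 0 [298,426] (.q 395 (.a 1 [] (.d 393 392 392 393 397)
 (.a 1 [392] (.d 397 393 393 394 398)
 (.a 0 [393,397] (.q 331 (.a 1 [] (.d 329 328 328 329 333)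
 (.a 1 [328] (.d 333 329 329 330 334)
 (.a 1 [333] (.d 299 1291 267 1323 427)
 (.a 0 [329] (.q 361 (.a 1 [] (.d 427 1323 299 1355 459)
 (.a 1 [299] (.r 427 1355 459 (.d 460 2376 328 2409 493))
 (.a 1 [427] (.r 299 1291 267 (.d 392 3340 268 3371 423))
 .e))))
 .e)))))
 .e))))
 .e))))
 (.a 1 [329] (.q 393 (.a 1 [] (.d 395 392 392 393 397)
 (.a 0 [392,395,397] (.q 362 (.a 1 [] (.d 298 1290 266 1322 426)
 (.a 1 [266] (.d 426 1322 298 1354 458)
 (.a 0 [298,426] (.q 364 (.a 1 [] (.d 361 360 360 361 365)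
 (.a 1 [360] (.d 365 361 361 362 366)
 (.a 1 [361] (.d 300 1292 268 1324 428)
 .e))))
 .e))))
 .e)))
 (.a 1 [393] (.q 329 (.a 1 [] (.d 331 328 328 329 333)
 (.a 0 [328,331,333] (.q 362 (.a 1 [] (.d 298 1290 266 1322 426)
 (.a 1 [266] (.d 426 1322 298 1354 458)
 (.a 0 [298,426] (.q 364 (.a 1 [] (.d 361 360 360 361 365)
 (.a 1 [360] (.d 365 361 361 362 366)
 (.a 1 [361] (.d 300 1292 268 1324 428)
 .e))))
 .e))))
 .e)))
 (.a 1 [300] (.q 395 (.a 1 [] (.d 393 392 392 393 397)
 (.a 1 [392] (.d 397 393 393 394 398)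
 (.a 0 [393,397] (.q 329 (.a 1 [] (.d 331 328 328 329 333)
 (.a 1 [328] (.r 331 329 333 (.d 427 1323 299 1355 459))
 (.a 1 [333] (.r 331 328 328 (.d 427 1323 299 1355 459))
 (.a 0 [331] (.q 362 (.a 1 [] (.d 298 1290 266 1322 426)
 (.a 1 [266] (.d 426 1322 298 1354 458)
 (.a 1 [298] (.d 296 2311 263 2344 428)
 .e))))
 .e)))))
 .e))))
 (.a 1 [361] (.q 393 (.a 1 [] (.d 395 392 392 393 397)
 (.a 0 [392,395,397] (.q 362 (.a 1 [] (.d 298 1290 266 1322 426)
 (.a 1 [266] (.d 426 1322 298 1354 458)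
 (.a 0 [298,426] (.q 331 (.a 1 [] (.d 329 328 328 329 333)
 (.a 1 [328] (.d 333 329 329 330 334)
 (.a 1 [329] (.d 300 3341 269 3372 424)
 .e))))
 .e))))
 .e)))
 (.a 1 [298] (.q 395 (.a 1 [] (.d 393 392 392 393 397)
 (.a 1 [392] (.d 397 393 393 394 398)
 (.a 0 [393,397] (.q 329 (.a 1 [] (.d 331 328 328 329 333)
 (.a 1 [328] (.r 331 329 333 (.d 427 1323 299 1355 459))
 (.a 1 [333] (.r 331 328 328 (.d 427 1323 299 1355 459))
 (.a 0 [331] (.q 364 (.a 1 [] (.d 300 1292 268 1324 428)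
 (.a 1 [268] (.d 428 1324 300 1356 460)
 (.a 1 [300] (.r 428 1356 460 (.d 362 2344 296 2377 461))
 (.a 0 [428] (.q 362 (.a 1 [] (.d 361 360 360 361 365)
 (.a 1 [360] (.d 365 361 361 362 366)
 (.a 1 [361] (.r 426 1354 458 (.d 457 3405 333 3436 488))
 .e))))
 .e)))))
 .e)))))
 .e))))
 (.a 1 [426] (.q 395 (.a 1 [] (.d 393 392 392 393 397)
 (.a 1 [392] (.d 397 393 393 394 398)
 (.a 0 [393,397] (.q 329 (.a 1 [] (.d 331 328 328 329 333)
 (.a 1 [328] (.r 331 329 333 (.d 427 1323 299 1355 459))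
 (.a 1 [333] (.r 331 328 328 (.d 427 1323 299 1355 459))
 (.a 0 [331] (.q 428 (.a 1 [] (.d 364 1324 300 1356 460)
 (.a 1 [300] (.d 362 2344 296 2377 461)
 .e)))
 .e)))))
 .e))))
 (.a 1 [428] (.q 331 (.a 1 [] (.d 329 328 328 329 333)
 (.a 1 [328] (.d 333 329 329 330 334)
 (.a 0 [329,333] (.q 393 (.a 1 [] (.d 395 392 392 393 397)
 (.a 1 [392] (.r 395 393 397 (.d 427 1323 299 1355 459))
 (.a 1 [397] (.r 395 392 392 (.d 427 1323 299 1355 459))
 (.a 0 [395] (.q 362 (.a 1 [] (.d 298 1290 266 1322 426)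
 (.a 1 [266] (.d 426 1322 298 1354 458)
 (.a 1 [298] (.d 300 3341 269 3372 424)
 .e))))
 .e)))))
 .e))))
 (.a 1 [299] (.q 395 (.a 1 [] (.d 393 392 392 393 397)
 (.a 1 [392] (.d 397 393 393 394 398)
 (.a 0 [393,397] (.q 329 (.a 1 [] (.d 331 328 328 329 333)
 (.a 0 [328,331,333] (.q 362 (.a 1 [] (.d 298 1290 266 1322 426)
 (.a 1 [266] (.d 426 1322 298 1354 458)
 (.a 1 [298] (.d 296 2311 263 2344 428)
 .e))))
 .e)))
 .e))))
 (.a 1 [266] (.q 395 (.a 1 [] (.d 393 392 392 393 397)
 (.a 1 [392] (.d 397 393 393 394 398)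
 (.a 0 [393,397] (.q 329 (.a 1 [] (.d 331 328 328 329 333)
 (.a 1 [328] (.r 331 329 333 (.d 427 1323 299 1355 459))
 (.a 1 [333] (.r 331 328 328 (.d 427 1323 299 1355 459))
 (.a 0 [331] (.q 362 (.a 1 [] (.d 426 1322 298 1354 458)
 (.a 1 [298] (.d 428 2344 296 2377 461)
 .e)))
 .e)))))
 .e))))
 (.a 1 [328] (.q 395 (.a 1 [] (.d 393 392 392 393 397)
 (.a 1 [392] (.d 397 393 393 394 398)
 (.a 0 [393,397] (.q 329 (.a 1 [] (.r 331 329 333 (.d 427 1323 299 1355 459))
 (.a 1 [459] (.r 331 329 333 (.d 299 1291 267 1323 427))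
 (.a 0 [299,331,333,427] (.q 362 (.a 1 [] (.d 298 1290 266 1322 426)
 (.a 1 [266] (.d 426 1322 298 1354 458)
 (.a 1 [298] (.d 296 2311 263 2344 428)
 .e))))
 .e))))
 .e))))
 (.a 1 [458] (.q 395 (.a 1 [] (.d 393 392 392 393 397)
 (.a 1 [392] (.d 397 393 393 394 398)
 (.a 0 [393,397] (.q 329 (.a 1 [] (.d 331 328 328 329 333)
 (.a 1 [328] (.r 331 329 333 (.d 427 1323 299 1355 459))
 (.a 1 [333] (.r 331 328 328 (.d 427 1323 299 1355 459))
 (.a 0 [331] (.q 362 (.a 1 [] (.d 298 1290 266 1322 426)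
 (.a 1 [266] (.d 428 2344 296 2377 461)
 .e)))
 .e)))))
 .e))))
 (.a 1 [359] (.q 395 (.a 1 [] (.d 393 392 392 393 397)
 (.a 1 [392] (.d 397 393 393 394 398)
 (.a 0 [393,397] (.q 329 (.a 1 [] (.d 331 328 328 329 333)
 (.a 1 [328] (.r 331 329 333 (.d 427 1323 299 1355 459))
 (.a 1 [333] (.r 331 328 328 (.d 427 1323 299 1355 459))
 (.a 0 [331] (.q 362 (.a 1 [] (.d 298 1290 266 1322 426)
 (.a 1 [266] (.d 426 1322 298 1354 458)
 (.a 1 [298] (.d 296 2311 263 2344 428)
 .e))))
 .e)))))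
 .e))))
 (.a 1 [235] (.q 395 (.a 1 [] (.d 393 392 392 393 397)
 (.a 1 [392] (.d 397 393 393 394 398)
 (.a 0 [393,397] (.q 329 (.a 1 [] (.d 331 328 328 329 333)
 (.a 1 [328] (.r 331 329 333 (.d 427 1323 299 1355 459))
 (.a 1 [333] (.r 331 328 328 (.d 427 1323 299 1355 459))
 (.a 0 [331] (.q 362 (.a 1 [] (.d 298 1290 266 1322 426)
 (.a 1 [266] (.d 426 1322 298 1354 458)
 (.a 1 [298] (.d 296 2311 263 2344 428)
 .e))))
 .e)))))
 .e))))
 (.a 1 [204] (.q 395 (.a 1 [] (.d 393 392 392 393 397)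
 (.a 1 [392] (.d 397 393 393 394 398)
 (.a 0 [393,397] (.q 329 (.a 1 [] (.d 331 328 328 329 333)
 (.a 1 [328] (.r 331 329 333 (.d 427 1323 299 1355 459))
 (.a 1 [333] (.r 331 328 328 (.d 427 1323 299 1355 459))
 (.a 0 [331] (.q 362 (.a 1 [] (.d 298 1290 266 1322 426)
 (.a 1 [266] (.d 426 1322 298 1354 458)
 (.a 1 [298] (.d 296 2311 263 2344 428)
 .e))))
 .e)))))
 .e))))
 (.a 1 [390] (.q 395 (.a 1 [] (.d 393 392 392 393 397)
 (.a 1 [392] (.d 397 393 393 394 398)
 (.a 0 [393,397] (.q 329 (.a 1 [] (.d 331 328 328 329 333)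
 (.a 1 [328] (.r 331 329 333 (.d 427 1323 299 1355 459))
 (.a 1 [333] (.r 331 328 328 (.d 427 1323 299 1355 459))
 (.a 0 [331] (.q 362 (.a 1 [] (.d 298 1290 266 1322 426)
 (.a 1 [266] (.d 426 1322 298 1354 458)
 (.a 1 [298] (.d 296 2311 263 2344 428)
 .e))))
 .e)))))
 .e))))
 (.a 1 [265] (.q 395 (.a 1 [] (.d 393 392 392 393 397)
 (.a 1 [392] (.d 397 393 393 394 398)
 (.a 0 [393,397] (.q 329 (.a 1 [] (.d 331 328 328 329 333)
 (.a 1 [328] (.r 331 329 333 (.d 427 1323 299 1355 459))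
 (.a 1 [333] (.r 331 328 328 (.d 427 1323 299 1355 459))
 (.a 0 [331] (.q 364 (.a 1 [] (.d 300 1292 268 1324 428)
 (.a 1 [268] (.d 428 1324 300 1356 460)
 (.a 1 [300] (.r 428 1356 460 (.d 362 2344 296 2377 461))
 (.a 0 [428] (.q 362 (.a 1 [] (.d 361 360 360 361 365)
 (.a 1 [360] (.d 365 361 361 362 366)
 (.a 1 [361] (.d 426 1322 298 1354 458)
 .e))))
 .e)))))
 .e)))))
 .e))))
 (.a 1 [296] (.q 395 (.a 1 [] (.d 393 392 392 393 397)
 (.a 1 [392] (.d 397 393 393 394 398)
 (.a 0 [393,397] (.q 329 (.a 1 [] (.d 331 328 328 329 333)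
 (.a 1 [328] (.r 331 329 333 (.d 427 1323 299 1355 459))
 (.a 1 [333] (.r 331 328 328 (.d 427 1323 299 1355 459))
 (.a 0 [331] (.q 362 (.a 1 [] (.d 298 1290 266 1322 426)
 (.a 1 [266] (.d 426 1322 298 1354 458)
 (.a 1 [298] (.r 428 2377 461 (.d 364 1324 300 1356 460))
 .e))))
 .e)))))
 .e))))
 (.a 1 [457] (.q 364 (.a 1 [] (.d 300 1292 268 1324 428)
 (.a 1 [268] (.d 428 1324 300 1356 460)
 (.a 0 [300,428] (.q 362 (.a 1 [] (.d 361 360 360 361 365)
 (.a 1 [360] (.d 365 361 361 362 366)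
 (.a 1 [361] (.d 298 1290 266 1322 426)
 .e))))
 .e))))
 .e)))))))))))))))))))))))))
 (.a 0 [429] (.q 395 (.a 1 [] (.d 393 392 392 393 397)
 (.a 1 [397] (.q 331 (.a 1 [] (.d 329 328 328 329 333)
 (.a 1 [398] (.q 399 (.a 1 [] (.d 329 328 328 329 333)
 (.a 1 [333] (.d 299 1291 267 1323 427)
 .e)))
 (.a 1 [399] (.q 398 (.a 1 [] (.d 329 328 328 329 333)
 (.a 1 [333] (.d 427 1323 299 1355 459)
 .e)))
 (.a 1 [333] (.d 299 1291 267 1323 427)
 .e)))))
 (.a 1 [398] (.q 399 (.a 1 [] (.d 393 392 392 393 397)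
 (.a 1 [393] (.q 331 (.a 1 [] (.d 329 328 328 329 333)
 (.a 1 [328] (.d 333 329 329 330 334)
 (.a 1 [329] (.d 299 1291 267 1323 427)
 .e))))
 .e)))
 (.a 1 [393] (.r 398 394 397 (.q 331 (.a 1 [] (.d 329 328 328 329 333)
 (.a 1 [328] (.d 333 329 329 330 334)
 (.a 1 [329] (.d 299 1291 267 1323 427)
 .e)))))
 .e)))))
 (.a 1 [398] (.q 399 (.a 1 [] (.d 429 2345 297 2378 462)
 (.a 1 [429] (.q 331 (.a 1 [] (.d 329 328 328 329 333)
 (.a 1 [328] (.d 333 329 329 330 334)
 (.a 0 [329,333] (.q 395 (.a 1 [] (.d 393 392 392 393 397)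
 (.a 1 [392] (.d 427 1323 299 1355 459)
 .e)))
 .e))))
 (.a 1 [297] (.q 364 (.a 1 [] (.d 300 1292 268 1324 428)
 (.a 1 [268] (.d 428 1324 300 1356 460)
 (.a 0 [300,428] (.q 362 (.a 1 [] (.d 361 360 360 361 365)
 (.a 1 [360] (.d 365 361 361 362 366)
 (.a 1 [361] (.d 298 1290 266 1322 426)
 .e))))
 .e))))
 .e))))
 (.a 1 [264] (.d 429 2345 297 2378 462)
 (.a 1 [399] (.q 398 (.a 1 [] (.d 429 2345 297 2378 462)
 (.a 1 [462] (.d 297 2312 264 2345 429)
 (.a 0 [297,429] (.q 331 (.a 1 [] (.d 329 328 328 329 333)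
 (.a 1 [328] (.d 333 329 329 330 334)
 (.a 1 [329] (.r 395 394 397 (.d 427 1323 299 1355 459))
 .e))))
 .e))))
 .e)))))))
 (.a 1 [398] (.q 399 (.a 1 [] (.d 301 3342 270 3373 425)
 (.a 1 [301] (.q 330 (.a 1 [] (.d 297 2312 264 2345 429)
 (.a 1 [264] (.d 429 2345 297 2378 462)
 (.a 0 [297,429] (.q 364 (.a 1 [] (.d 300 1292 268 1324 428)
 (.a 1 [268] (.d 428 1324 300 1356 460)
 (.a 0 [300,428] (.q 298 (.a 1 [] (.d 362 1290 266 1322 426)
 (.a 1 [266] (.r 362 1322 426 (.d 365 361 361 362 366))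
 (.a 1 [426] (.r 362 1290 266 (.d 365 361 361 362 366))
 (.a 0 [362] (.q 331 (.a 1 [] (.d 329 328 328 329 333)
 (.a 1 [328] (.d 333 329 329 330 334)
 (.a 1 [329] (.d 265 2280 232 2313 397)
 .e))))
 .e)))))
 .e))))
 .e))))
 (.a 1 [425] (.q 330 (.a 1 [] (.d 297 2312 264 2345 429)
 (.a 1 [264] (.d 429 2345 297 2378 462)
 (.a 0 [297,429] (.q 364 (.a 1 [] (.d 300 1292 268 1324 428)
 (.a 1 [268] (.d 428 1324 300 1356 460)
 (.a 0 [300,428] (.q 426 (.a 1 [] (.d 362 1322 298 1354 458)
 (.a 1 [298] (.r 362 1354 458 (.d 365 361 361 362 366))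
 (.a 1 [458] (.r 362 1322 298 (.d 365 361 361 362 366))
 (.a 0 [362] (.q 395 (.a 1 [] (.d 393 392 392 393 397)
 (.a 1 [392] (.d 457 3405 333 3436 488)
 .e)))
 .e)))))
 .e))))
 .e))))
 .e))))
 (.a 1 [270] (.d 425 3373 301 3404 456)
 (.a 1 [399] (.q 398 (.a 1 [] (.d 425 3373 301 3404 456)
 (.a 1 [456] (.d 301 3342 270 3373 425)
 (.a 0 [301,425] (.q 299 (.a 1 [] (.d 365 2314 266 2347 431)
 (.a 1 [266] (.r 395 394 397 (.d 331 1291 267 1323 427))
 .e)))
 .e))))
 .e)))))))
 (.a 1 [403] (.q 402 (.a 1 [] (.d 301 3342 270 3373 425)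
 (.a 1 [301] (.q 330 (.a 1 [] (.d 297 2312 264 2345 429)
 (.a 1 [264] (.d 429 2345 297 2378 462)
 (.a 0 [297,429] (.q 364 (.a 1 [] (.d 300 1292 268 1324 428)
 (.a 1 [268] (.d 428 1324 300 1356 460)
 (.a 0 [300,428] (.q 298 (.a 1 [] (.d 362 1290 266 1322 426)
 (.a 1 [266] (.r 362 1322 426 (.d 365 361 361 362 366))
 (.a 1 [426] (.r 362 1290 266 (.d 365 361 361 362 366))
 (.a 0 [362] (.q 331 (.a 1 [] (.d 329 328 328 329 333)
 (.a 1 [328] (.d 333 329 329 330 334)
 (.a 1 [329] (.d 265 2280 232 2313 397)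
 .e))))
 .e)))))
 .e))))
 .e))))
 (.a 1 [425] (.q 330 (.a 1 [] (.d 297 2312 264 2345 429)
 (.a 1 [264] (.d 429 2345 297 2378 462)
 (.a 0 [297,429] (.q 362 (.a 1 [] (.d 298 1290 266 1322 426)
 (.a 1 [266] (.d 426 1322 298 1354 458)
 (.a 0 [298,426] (.q 428 (.a 1 [] (.d 364 1324 300 1356 460)
 (.a 1 [300] (.r 364 1356 460 (.d 365 361 361 362 366))
 (.a 1 [460] (.r 364 1324 300 (.d 365 361 361 362 366))
 (.a 0 [364] (.q 395 (.a 1 [] (.d 393 392 392 393 397)
 (.a 1 [392] (.d 397 393 393 394 398)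
 (.a 1 [393] (.d 329 2344 296 2377 461)
 .e))))
 .e)))))
 .e))))
 .e))))
 .e))))
 (.a 1 [270] (.d 425 3373 301 3404 456)
 .e))))))) (by decide +kernel)

theorem b2_2669 : S (PX [401] [268,400,402,404]) := S.of (.q 395 (.a 1 [] (.d 393 392 392 393 397)
 (.a 1 [392] (.d 397 393 393 394 398)
 (.a 0 [393,397] (.q 427 (.a 1 [] (.d 331 1323 299 1355 459)
 (.a 1 [299] (.d 459 1355 331 1387 491)
 (.a 0 [331,459] (.q 330 (.a 1 [] (.d 297 2312 264 2345 429)
 (.a 1 [264] (.d 429 2345 297 2378 462)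
 (.a 0 [297,429] (.q 361 (.a 1 [] (.d 328 2343 295 2376 460)
 (.a 1 [295] (.d 460 2376 328 2409 493)
 (.a 0 [328,460] (.q 362 (.a 1 [] (.d 360 359 359 360 364)
 (.a 1 [359] (.d 364 360 360 361 365)
 (.a 1 [360] (.d 298 1290 266 1322 426)
 .e))))
 .e))))
 .e))))
 .e))))
 .e)))) (by decide +kernel)

theorem v2_1656 : VW (PX [206,338] [173,272,305,404]) := VW.of base nl_ok fl_ok .nil
  []
  [([303], (PX [206,338] [173,272,303,305,404]))]
  (by decide +kernel) ⟨b2_2633, trivial⟩

theorem v2_1658 : VW (PX [173,338] [206,272,305,404]) := VW.of base nl_ok fl_ok .nil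
  []
  [([303], (PX [173,338] [206,272,303,305,404])), ([330], (PX [173,338] [206,272,305,330,404]))]
  (by decide +kernel) ⟨b2_2635, b2_2636, trivial⟩

theorem v2_1660 : VW (PX [173,338] [239,272,305,404]) := VW.of base nl_ok fl_ok .nil
  []
  [([303], (PX [173,338] [239,272,303,305,404]))]
  (by decide +kernel) ⟨b2_2639, trivial⟩

theorem w2_1662_173 : S (PX [338] [173,272,305,404]) := VW.play 206 (PX [206,338] [173,272,305,404]) (by decide +kernel) v2_1656

theorem w2_1662_206 : S (PX [338] [206,272,305,404]) := VW.play 173 (PX [173,338] [206,272,305,404]) (by decide +kernel) v2_1658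

theorem w2_1662_239 : S (PX [338] [239,272,305,404]) := VW.play 173 (PX [173,338] [239,272,305,404]) (by decide +kernel) v2_1660

theorem v2_1662 : VW (PX [338] [272,305,404]) := VW.of base nl_ok fl_ok .nil
  []
  [([173], (PX [338] [173,272,305,404])), ([206], (PX [338] [206,272,305,404])), ([239], (PX [338] [239,272,305,404])), ([303], (PX [338] [272,303,305,404])), ([330], (PX [338] [272,305,330,404])), ([457], (PX [338] [272,305,404,457]))]
  (by decide +kernel) ⟨w2_1662_173, w2_1662_206, w2_1662_239, b2_2641, b2_2642, b2_2643, trivial⟩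

theorem v2_1670 : VW (PX [305] [272,338,404]) := VW.of base nl_ok fl_ok .nil
  [(371, (.cons 437 470 .nil (.cons 470 437 .nil .nil))), (437, (.cons 371 470 .nil (.cons 470 371 (.cons 503 536 .nil (.cons 536 503 .nil .nil)) .nil))), (470, (.cons 371 437 .nil (.cons 437 371 (.cons 503 536 .nil (.cons 536 503 .nil .nil)) .nil)))]
  []
  (by decide +kernel) trivial

theorem w2_1680_305 : S (PX [] [272,305,404]) := VW.play 338 (PX [338] [272,305,404]) (by decide +kernel) v2_1662

theorem w2_1680_338 : S (PX [] [272,338,404]) := VW.play 305 (PX [305] [272,338,404]) (by decide +kernel) v2_1670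

theorem v2_1680 : VW (PX [] [272,404]) := VW.of base nl_ok fl_ok .nil
  [(371, (.cons 305 338 .nil (.cons 338 305 (.cons 437 470 .nil (.cons 470 437 .nil .nil)) .nil)))]
  [([305], (PX [] [272,305,404])), ([338], (PX [] [272,338,404]))]
  (by decide +kernel) ⟨w2_1680_305, w2_1680_338, trivial⟩

theorem v2_1681 : VW (PX [] [276,404]) := VW.of base nl_ok fl_ok .nil
  [(308, (.cons 340 372 (.cons 212 244 .nil (.cons 244 212 .nil .nil)) (.cons 372 340 .nil .nil))), (340, (.cons 308 372 (.cons 212 244 .nil (.cons 244 212 .nil .nil)) (.cons 372 308 (.cons 436 468 .nil (.cons 468 436 .nil .nil)) .nil))), (372, (.cons 308 340 .nil (.cons 340 308 (.cons 436 468 .nil (.cons 468 436 .nil .nil)) .nil)))]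
  []
  (by decide +kernel) trivial

theorem v2_1682 : VW (PX [] [280,404]) := VW.of base nl_ok fl_ok .nil
  [(311, (.cons 342 373 (.cons 218 249 .nil (.cons 249 218 .nil .nil)) (.cons 373 342 .nil .nil))), (342, (.cons 311 373 (.cons 218 249 .nil (.cons 249 218 .nil .nil)) (.cons 373 311 (.cons 435 466 .nil (.cons 466 435 .nil .nil)) .nil))), (373, (.cons 311 342 .nil (.cons 342 311 (.cons 435 466 .nil (.cons 466 435 .nil .nil)) .nil)))]
  []
  (by decide +kernel) trivial

theorem v2_1683 : VW (PX [272,437] [305,338,371,404]) := VW.of base nl_ok fl_ok .nil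
  []
  []
  (by decide +kernel) trivial

theorem v2_1684 : VW (PX [272,371] [305,338,404,437]) := VW.of base nl_ok fl_ok .nil
  [(470, (.cons 503 536 .nil (.cons 536 503 .nil .nil))), (503, (.cons 470 536 .nil (.cons 536 470 .nil .nil))), (536, (.cons 470 503 .nil (.cons 503 470 .nil .nil)))]
  []
  (by decide +kernel) trivial

theorem w2_1685_371 : S (PX [272] [305,338,371,404]) := VW.play 437 (PX [272,437] [305,338,371,404]) (by decide +kernel) v2_1683

theorem w2_1685_437 : S (PX [272] [305,338,404,437]) := VW.play 371 (PX [272,371] [305,338,404,437]) (by decide +kernel) v2_1684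

theorem v2_1685 : VW (PX [272] [305,338,404]) := VW.of base nl_ok fl_ok (.cons 371 437 .nil (.cons 437 371 .nil .nil))
  [(470, (.cons 371 437 .nil (.cons 437 371 (.cons 503 536 .nil (.cons 536 503 .nil .nil)) .nil))), (503, (.cons 371 437 .nil (.cons 437 371 (.cons 470 536 .nil (.cons 536 470 .nil .nil)) .nil))), (536, (.cons 371 437 .nil (.cons 437 371 (.cons 470 503 .nil (.cons 503 470 .nil .nil)) .nil)))]
  [([371], (PX [272] [305,338,371,404])), ([437], (PX [272] [305,338,404,437]))]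
  (by decide +kernel) ⟨w2_1685_371, w2_1685_437, trivial⟩

theorem v2_1703 : VW (PX [338] [305,371,404]) := VW.of base nl_ok fl_ok .nil
  [(437, (.cons 470 503 .nil (.cons 503 470 .nil .nil))), (470, (.cons 437 503 .nil (.cons 503 437 .nil .nil))), (503, (.cons 437 470 .nil (.cons 470 437 .nil .nil)))]
  []
  (by decide +kernel) trivial

theorem w2_1704_272 : S (PX [] [272,305,404]) := VW.play 338 (PX [338] [272,305,404]) (by decide +kernel) v2_1662

theorem w2_1704_338 : S (PX [] [305,338,404]) := VW.play 272 (PX [272] [305,338,404]) (by decide +kernel) v2_1685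

theorem w2_1704_371 : S (PX [] [305,371,404]) := VW.play 338 (PX [338] [305,371,404]) (by decide +kernel) v2_1703

theorem v2_1704 : VW (PX [] [305,404]) := VW.of base nl_ok fl_ok .nil
  [(437, (.cons 338 371 .nil (.cons 371 338 (.cons 470 503 .nil (.cons 503 470 .nil .nil)) .nil)))]
  [([272], (PX [] [272,305,404])), ([338], (PX [] [305,338,404])), ([371], (PX [] [305,371,404]))]
  (by decide +kernel) ⟨w2_1704_272, w2_1704_338, w2_1704_371, trivial⟩

theorem v2_1708 : VW (PX [372] [308,340,404]) := VW.of base nl_ok fl_ok .nil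
  [(212, (.cons 244 276 .nil (.cons 276 244 .nil .nil))), (244, (.cons 212 276 .nil (.cons 276 212 .nil .nil))), (276, (.cons 212 244 .nil (.cons 244 212 .nil .nil)))]
  []
  (by decide +kernel) trivial

theorem v2_1723 : VW (PX [340] [308,372,404]) := VW.of base nl_ok fl_ok .nil
  [(436, (.cons 468 500 .nil (.cons 500 468 .nil .nil))), (468, (.cons 436 500 .nil (.cons 500 436 .nil .nil))), (500, (.cons 436 468 .nil (.cons 468 436 .nil .nil)))]
  []
  (by decide +kernel) trivial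

theorem w2_1726_340 : S (PX [] [308,340,404]) := VW.play 372 (PX [372] [308,340,404]) (by decide +kernel) v2_1708

theorem w2_1726_372 : S (PX [] [308,372,404]) := VW.play 340 (PX [340] [308,372,404]) (by decide +kernel) v2_1723

theorem v2_1726 : VW (PX [] [308,404]) := VW.of base nl_ok fl_ok .nil
  [(276, (.cons 340 372 (.cons 212 244 .nil (.cons 244 212 .nil .nil)) (.cons 372 340 .nil .nil))), (436, (.cons 340 372 .nil (.cons 372 340 (.cons 468 500 .nil (.cons 500 468 .nil .nil)) .nil)))]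
  [([340], (PX [] [308,340,404])), ([372], (PX [] [308,372,404]))]
  (by decide +kernel) ⟨w2_1726_340, w2_1726_372, trivial⟩

theorem v2_1730 : VW (PX [373] [311,342,404]) := VW.of base nl_ok fl_ok .nil
  [(218, (.cons 249 280 .nil (.cons 280 249 .nil .nil))), (249, (.cons 218 280 .nil (.cons 280 218 .nil .nil))), (280, (.cons 218 249 .nil (.cons 249 218 .nil .nil)))]
  []
  (by decide +kernel) trivial

theorem v2_1731 : VW (PX [342] [311,373,404]) := VW.of base nl_ok fl_ok .nil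
  [(435, (.cons 466 497 .nil (.cons 497 466 .nil .nil))), (466, (.cons 435 497 .nil (.cons 497 435 .nil .nil))), (497, (.cons 435 466 .nil (.cons 466 435 .nil .nil)))]
  []
  (by decide +kernel) trivial

theorem w2_1734_342 : S (PX [] [311,342,404]) := VW.play 373 (PX [373] [311,342,404]) (by decide +kernel) v2_1730

theorem w2_1734_373 : S (PX [] [311,373,404]) := VW.play 342 (PX [342] [311,373,404]) (by decide +kernel) v2_1731

theorem v2_1734 : VW (PX [] [311,404]) := VW.of base nl_ok fl_ok .nil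
  [(280, (.cons 342 373 (.cons 218 249 .nil (.cons 249 218 .nil .nil)) (.cons 373 342 .nil .nil))), (435, (.cons 342 373 .nil (.cons 373 342 (.cons 466 497 .nil (.cons 497 466 .nil .nil)) .nil)))]
  [([342], (PX [] [311,342,404])), ([373], (PX [] [311,373,404]))]
  (by decide +kernel) ⟨w2_1734_342, w2_1734_373, trivial⟩

theorem v2_1735 : VW (PX [305,470] [338,371,404,437]) := VW.of base nl_ok fl_ok .nil
  []
  []
  (by decide +kernel) trivial

theorem v2_1736 : VW (PX [305,437] [338,371,404,470]) := VW.of base nl_ok fl_ok .nil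
  []
  []
  (by decide +kernel) trivial

theorem w2_1737_437 : S (PX [305] [338,371,404,437]) := VW.play 470 (PX [305,470] [338,371,404,437]) (by decide +kernel) v2_1735

theorem w2_1737_470 : S (PX [305] [338,371,404,470]) := VW.play 437 (PX [305,437] [338,371,404,470]) (by decide +kernel) v2_1736

theorem v2_1737 : VW (PX [305] [338,371,404]) := VW.of base nl_ok fl_ok (.cons 437 470 .nil (.cons 470 437 .nil .nil))
  [(503, (.cons 437 470 .nil (.cons 470 437 .nil .nil))), (536, (.cons 437 470 .nil (.cons 470 437 .nil .nil))), (569, (.cons 437 470 .nil (.cons 470 437 .nil .nil)))]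
  [([437], (PX [305] [338,371,404,437])), ([470], (PX [305] [338,371,404,470]))]
  (by decide +kernel) ⟨w2_1737_437, w2_1737_470, trivial⟩

theorem v2_1752 : VW (PX [371] [338,404,437]) := VW.of base nl_ok fl_ok .nil
  [(470, (.cons 503 536 .nil (.cons 536 503 .nil .nil))), (503, (.cons 470 536 .nil (.cons 536 470 .nil .nil))), (536, (.cons 470 503 .nil (.cons 503 470 .nil .nil)))]
  []
  (by decide +kernel) trivial

theorem v2_1753 : VW (PX [371] [338,404,470]) := VW.of base nl_ok fl_ok .nil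
  [(437, (.cons 503 536 .nil (.cons 536 503 .nil .nil))), (503, (.cons 437 536 .nil (.cons 536 437 (.cons 569 602 .nil (.cons 602 569 .nil .nil)) .nil))), (536, (.cons 437 503 .nil (.cons 503 437 (.cons 569 602 .nil (.cons 602 569 .nil .nil)) .nil)))]
  []
  (by decide +kernel) trivial

theorem w2_1767_272 : S (PX [] [272,338,404]) := VW.play 305 (PX [305] [272,338,404]) (by decide +kernel) v2_1670

theorem w2_1767_305 : S (PX [] [305,338,404]) := VW.play 272 (PX [272] [305,338,404]) (by decide +kernel) v2_1685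

theorem w2_1767_371 : S (PX [] [338,371,404]) := VW.play 305 (PX [305] [338,371,404]) (by decide +kernel) v2_1737

theorem w2_1767_437 : S (PX [] [338,404,437]) := VW.play 371 (PX [371] [338,404,437]) (by decide +kernel) v2_1752

theorem w2_1767_470 : S (PX [] [338,404,470]) := VW.play 371 (PX [371] [338,404,470]) (by decide +kernel) v2_1753

theorem v2_1767 : VW (PX [] [338,404]) := VW.of base nl_ok fl_ok .nil
  []
  [([272], (PX [] [272,338,404])), ([305], (PX [] [305,338,404])), ([371], (PX [] [338,371,404])), ([437], (PX [] [338,404,437])), ([470], (PX [] [338,404,470]))]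
  (by decide +kernel) ⟨w2_1767_272, w2_1767_305, w2_1767_371, w2_1767_437, w2_1767_470, trivial⟩

theorem v2_1768 : VW (PX [308,468] [340,372,404,436]) := VW.of base nl_ok fl_ok .nil
  []
  []
  (by decide +kernel) trivial

theorem v2_1769 : VW (PX [308,436] [340,372,404,468]) := VW.of base nl_ok fl_ok .nil
  []
  []
  (by decide +kernel) trivial

theorem w2_1770_436 : S (PX [308] [340,372,404,436]) := VW.play 468 (PX [308,468] [340,372,404,436]) (by decide +kernel) v2_1768

theorem w2_1770_468 : S (PX [308] [340,372,404,468]) := VW.play 436 (PX [308,436] [340,372,404,468]) (by decide +kernel) v2_1769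

theorem v2_1770 : VW (PX [308] [340,372,404]) := VW.of base nl_ok fl_ok (.cons 436 468 .nil (.cons 468 436 .nil .nil))
  [(500, (.cons 436 468 .nil (.cons 468 436 .nil .nil))), (532, (.cons 436 468 .nil (.cons 468 436 .nil .nil))), (564, (.cons 436 468 .nil (.cons 468 436 .nil .nil)))]
  [([436], (PX [308] [340,372,404,436])), ([468], (PX [308] [340,372,404,468]))]
  (by decide +kernel) ⟨w2_1770_436, w2_1770_468, trivial⟩

theorem v2_1787 : VW (PX [372] [340,404,436]) := VW.of base nl_ok fl_ok .nil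
  [(468, (.cons 500 532 .nil (.cons 532 500 .nil .nil))), (500, (.cons 468 532 .nil (.cons 532 468 .nil .nil))), (532, (.cons 468 500 .nil (.cons 500 468 .nil .nil)))]
  []
  (by decide +kernel) trivial

theorem w2_1790_308 : S (PX [] [308,340,404]) := VW.play 372 (PX [372] [308,340,404]) (by decide +kernel) v2_1708

theorem w2_1790_372 : S (PX [] [340,372,404]) := VW.play 308 (PX [308] [340,372,404]) (by decide +kernel) v2_1770

theorem w2_1790_436 : S (PX [] [340,404,436]) := VW.play 372 (PX [372] [340,404,436]) (by decide +kernel) v2_1787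

theorem v2_1790 : VW (PX [] [340,404]) := VW.of base nl_ok fl_ok .nil
  [(276, (.cons 308 372 (.cons 212 244 .nil (.cons 244 212 .nil .nil)) (.cons 372 308 (.cons 436 468 .nil (.cons 468 436 .nil .nil)) .nil))), (468, (.cons 372 436 (.cons 276 308 .nil (.cons 308 276 .nil .nil)) (.cons 436 372 (.cons 500 532 .nil (.cons 532 500 .nil .nil)) .nil)))]
  [([308], (PX [] [308,340,404])), ([372], (PX [] [340,372,404])), ([436], (PX [] [340,404,436]))]
  (by decide +kernel) ⟨w2_1790_308, w2_1790_372, w2_1790_436, trivial⟩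

theorem v2_1791 : VW (PX [311,466] [342,373,404,435]) := VW.of base nl_ok fl_ok .nil
  []
  []
  (by decide +kernel) trivial

theorem v2_1792 : VW (PX [311,435] [342,373,404,466]) := VW.of base nl_ok fl_ok .nil
  []
  []
  (by decide +kernel) trivial

theorem w2_1793_435 : S (PX [311] [342,373,404,435]) := VW.play 466 (PX [311,466] [342,373,404,435]) (by decide +kernel) v2_1791

theorem w2_1793_466 : S (PX [311] [342,373,404,466]) := VW.play 435 (PX [311,435] [342,373,404,466]) (by decide +kernel) v2_1792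

theorem v2_1793 : VW (PX [311] [342,373,404]) := VW.of base nl_ok fl_ok (.cons 435 466 .nil (.cons 466 435 .nil .nil))
  [(497, (.cons 435 466 .nil (.cons 466 435 .nil .nil))), (528, (.cons 435 466 .nil (.cons 466 435 .nil .nil))), (559, (.cons 435 466 .nil (.cons 466 435 .nil .nil)))]
  [([435], (PX [311] [342,373,404,435])), ([466], (PX [311] [342,373,404,466]))]
  (by decide +kernel) ⟨w2_1793_435, w2_1793_466, trivial⟩

theorem v2_1796 : VW (PX [373] [342,404,435]) := VW.of base nl_ok fl_ok .nil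
  [(466, (.cons 497 528 .nil (.cons 528 497 .nil .nil))), (497, (.cons 466 528 .nil (.cons 528 466 .nil .nil))), (528, (.cons 466 497 .nil (.cons 497 466 .nil .nil)))]
  []
  (by decide +kernel) trivial

theorem w2_1799_311 : S (PX [] [311,342,404]) := VW.play 373 (PX [373] [311,342,404]) (by decide +kernel) v2_1730

theorem w2_1799_373 : S (PX [] [342,373,404]) := VW.play 311 (PX [311] [342,373,404]) (by decide +kernel) v2_1793

theorem w2_1799_435 : S (PX [] [342,404,435]) := VW.play 373 (PX [373] [342,404,435]) (by decide +kernel) v2_1796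

theorem v2_1799 : VW (PX [] [342,404]) := VW.of base nl_ok fl_ok .nil
  [(280, (.cons 311 373 (.cons 218 249 .nil (.cons 249 218 .nil .nil)) (.cons 373 311 (.cons 435 466 .nil (.cons 466 435 .nil .nil)) .nil))), (466, (.cons 373 435 (.cons 280 311 .nil (.cons 311 280 .nil .nil)) (.cons 435 373 (.cons 497 528 .nil (.cons 528 497 .nil .nil)) .nil)))]
  [([311], (PX [] [311,342,404])), ([373], (PX [] [342,373,404])), ([435], (PX [] [342,404,435]))]
  (by decide +kernel) ⟨w2_1799_311, w2_1799_373, w2_1799_435, trivial⟩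

theorem v2_1800 : VW (PX [338,503] [371,404,437,470]) := VW.of base nl_ok fl_ok .nil
  []
  []
  (by decide +kernel) trivial

theorem v2_1801 : VW (PX [338,470] [371,404,437,503]) := VW.of base nl_ok fl_ok .nil
  []
  []
  (by decide +kernel) trivial

theorem w2_1802_470 : S (PX [338] [371,404,437,470]) := VW.play 503 (PX [338,503] [371,404,437,470]) (by decide +kernel) v2_1800

theorem w2_1802_503 : S (PX [338] [371,404,437,503]) := VW.play 470 (PX [338,470] [371,404,437,503]) (by decide +kernel) v2_1801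

theorem v2_1802 : VW (PX [338] [371,404,437]) := VW.of base nl_ok fl_ok (.cons 470 503 .nil (.cons 503 470 .nil .nil))
  [(536, (.cons 470 503 .nil (.cons 503 470 .nil .nil))), (569, (.cons 470 503 .nil (.cons 503 470 .nil .nil))), (602, (.cons 470 503 .nil (.cons 503 470 .nil .nil)))]
  [([470], (PX [338] [371,404,437,470])), ([503], (PX [338] [371,404,437,503]))]
  (by decide +kernel) ⟨w2_1802_470, w2_1802_503, trivial⟩

theorem v2_1764 : VW (PX [272,437] [338,371,404,470]) := VW.of base nl_ok fl_ok .nil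
  []
  []
  (by decide +kernel) trivial

theorem w2_1805_338 : S (PX [437] [338,371,404,470]) := VW.play 272 (PX [272,437] [338,371,404,470]) (by decide +kernel) v2_1764

theorem v2_1805 : VW (PX [437] [371,404,470]) := VW.of base nl_ok fl_ok .nil
  [(272, (.cons 305 338 .nil (.cons 338 305 .nil .nil))), (305, (.cons 272 338 .nil (.cons 338 272 .nil .nil)))]
  [([338], (PX [437] [338,371,404,470]))]
  (by decide +kernel) ⟨w2_1805_338, trivial⟩

theorem w2_1806_305 : S (PX [] [305,371,404]) := VW.play 338 (PX [338] [305,371,404]) (by decide +kernel) v2_1703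

theorem w2_1806_338 : S (PX [] [338,371,404]) := VW.play 305 (PX [305] [338,371,404]) (by decide +kernel) v2_1737

theorem w2_1806_437 : S (PX [] [371,404,437]) := VW.play 338 (PX [338] [371,404,437]) (by decide +kernel) v2_1802

theorem w2_1806_470 : S (PX [] [371,404,470]) := VW.play 437 (PX [437] [371,404,470]) (by decide +kernel) v2_1805

theorem v2_1806 : VW (PX [] [371,404]) := VW.of base nl_ok fl_ok .nil
  [(272, (.cons 305 338 .nil (.cons 338 305 (.cons 437 470 .nil (.cons 470 437 .nil .nil)) .nil))), (503, (.cons 437 470 (.cons 305 338 .nil (.cons 338 305 .nil .nil)) (.cons 470 437 .nil .nil)))]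
  [([305], (PX [] [305,371,404])), ([338], (PX [] [338,371,404])), ([437], (PX [] [371,404,437])), ([470], (PX [] [371,404,470]))]
  (by decide +kernel) ⟨w2_1806_305, w2_1806_338, w2_1806_437, w2_1806_470, trivial⟩

theorem v2_1807 : VW (PX [340,500] [372,404,436,468]) := VW.of base nl_ok fl_ok .nil
  []
  []
  (by decide +kernel) trivial

theorem v2_1808 : VW (PX [340,468] [372,404,436,500]) := VW.of base nl_ok fl_ok .nil
  []
  []
  (by decide +kernel) trivial

theorem w2_1809_468 : S (PX [340] [372,404,436,468]) := VW.play 500 (PX [340,500] [372,404,436,468]) (by decide +kernel) v2_1807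

theorem w2_1809_500 : S (PX [340] [372,404,436,500]) := VW.play 468 (PX [340,468] [372,404,436,500]) (by decide +kernel) v2_1808

theorem v2_1809 : VW (PX [340] [372,404,436]) := VW.of base nl_ok fl_ok (.cons 468 500 .nil (.cons 500 468 .nil .nil))
  [(532, (.cons 468 500 .nil (.cons 500 468 .nil .nil))), (564, (.cons 468 500 .nil (.cons 500 468 .nil .nil))), (596, (.cons 468 500 .nil (.cons 500 468 .nil .nil)))]
  [([468], (PX [340] [372,404,436,468])), ([500], (PX [340] [372,404,436,500]))]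
  (by decide +kernel) ⟨w2_1809_468, w2_1809_500, trivial⟩

theorem v2_1814 : VW (PX [436] [372,404,468]) := VW.of base nl_ok fl_ok .nil
  [(276, (.cons 308 340 .nil (.cons 340 308 .nil .nil))), (308, (.cons 276 340 .nil (.cons 340 276 .nil .nil))), (340, (.cons 276 308 .nil (.cons 308 276 .nil .nil)))]
  []
  (by decide +kernel) trivial

theorem w2_1826_308 : S (PX [] [308,372,404]) := VW.play 340 (PX [340] [308,372,404]) (by decide +kernel) v2_1723

theorem w2_1826_340 : S (PX [] [340,372,404]) := VW.play 308 (PX [308] [340,372,404]) (by decide +kernel) v2_1770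

theorem w2_1826_436 : S (PX [] [372,404,436]) := VW.play 340 (PX [340] [372,404,436]) (by decide +kernel) v2_1809

theorem w2_1826_468 : S (PX [] [372,404,468]) := VW.play 436 (PX [436] [372,404,468]) (by decide +kernel) v2_1814

theorem v2_1826 : VW (PX [] [372,404]) := VW.of base nl_ok fl_ok .nil
  [(276, (.cons 308 340 .nil (.cons 340 308 (.cons 436 468 .nil (.cons 468 436 .nil .nil)) .nil))), (500, (.cons 436 468 (.cons 308 340 .nil (.cons 340 308 .nil .nil)) (.cons 468 436 .nil .nil)))]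
  [([308], (PX [] [308,372,404])), ([340], (PX [] [340,372,404])), ([436], (PX [] [372,404,436])), ([468], (PX [] [372,404,468]))]
  (by decide +kernel) ⟨w2_1826_308, w2_1826_340, w2_1826_436, w2_1826_468, trivial⟩

theorem v2_1827 : VW (PX [342,466] [311,373,404,435]) := VW.of base nl_ok fl_ok .nil
  []
  []
  (by decide +kernel) trivial

theorem w2_1828_311 : S (PX [466] [311,373,404,435]) := VW.play 342 (PX [342,466] [311,373,404,435]) (by decide +kernel) v2_1827

theorem w2_1828_342 : S (PX [466] [342,373,404,435]) := VW.play 311 (PX [311,466] [342,373,404,435]) (by decide +kernel) v2_1791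

theorem v2_1828 : VW (PX [466] [373,404,435]) := VW.of base nl_ok fl_ok (.cons 311 342 .nil (.cons 342 311 .nil .nil))
  [(218, (.cons 311 342 .nil (.cons 342 311 .nil .nil))), (249, (.cons 311 342 .nil (.cons 342 311 .nil .nil))), (280, (.cons 311 342 .nil (.cons 342 311 .nil .nil)))]
  [([311], (PX [466] [311,373,404,435])), ([342], (PX [466] [342,373,404,435]))]
  (by decide +kernel) ⟨w2_1828_311, w2_1828_342, trivial⟩

theorem v2_1829 : VW (PX [435] [373,404,466]) := VW.of base nl_ok fl_ok .nil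
  [(280, (.cons 311 342 .nil (.cons 342 311 .nil .nil))), (311, (.cons 280 342 .nil (.cons 342 280 .nil .nil))), (342, (.cons 280 311 .nil (.cons 311 280 .nil .nil)))]
  []
  (by decide +kernel) trivial

theorem w2_1845_311 : S (PX [] [311,373,404]) := VW.play 342 (PX [342] [311,373,404]) (by decide +kernel) v2_1731

theorem w2_1845_342 : S (PX [] [342,373,404]) := VW.play 311 (PX [311] [342,373,404]) (by decide +kernel) v2_1793

theorem w2_1845_435 : S (PX [] [373,404,435]) := VW.play 466 (PX [466] [373,404,435]) (by decide +kernel) v2_1828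

theorem w2_1845_466 : S (PX [] [373,404,466]) := VW.play 435 (PX [435] [373,404,466]) (by decide +kernel) v2_1829

theorem v2_1845 : VW (PX [] [373,404]) := VW.of base nl_ok fl_ok .nil
  [(280, (.cons 311 342 .nil (.cons 342 311 (.cons 435 466 .nil (.cons 466 435 .nil .nil)) .nil))), (497, (.cons 435 466 (.cons 311 342 .nil (.cons 342 311 .nil .nil)) (.cons 466 435 .nil .nil)))]
  [([311], (PX [] [311,373,404])), ([342], (PX [] [342,373,404])), ([435], (PX [] [373,404,435])), ([466], (PX [] [373,404,466]))]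
  (by decide +kernel) ⟨w2_1845_311, w2_1845_342, w2_1845_435, w2_1845_466, trivial⟩

theorem v2_1846 : VW (PX [401] [400,402,404]) := VW.of base nl_ok fl_ok .nil
  [(403, (.cons 405 406 .nil (.cons 406 405 .nil .nil))), (405, (.cons 403 406 .nil (.cons 406 403 (.cons 407 408 .nil (.cons 408 407 .nil .nil)) .nil))), (406, (.cons 403 405 .nil (.cons 405 403 (.cons 407 408 .nil (.cons 408 407 .nil .nil)) .nil)))]
  [([268], (PX [401] [268,400,402,404]))]
  (by decide +kernel) ⟨b2_2669, trivial⟩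

theorem v2_1526 : VW (PX [402] [400,403,404]) := VW.of base nl_ok fl_ok .nil
  [(405, (.cons 406 407 .nil (.cons 407 406 .nil .nil))), (406, (.cons 405 407 .nil (.cons 407 405 .nil .nil))), (407, (.cons 405 406 .nil (.cons 406 405 .nil .nil)))]
  [([268], (PX [402] [268,400,403,404])), ([401], (PX [402] [400,401,403,404]))]
  (by decide +kernel) ⟨b2_2603, b2_2604, trivial⟩

theorem w2_1854_402 : S (PX [] [400,402,404]) := VW.play 401 (PX [401] [400,402,404]) (by decide +kernel) v2_1846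

theorem w2_1854_403 : S (PX [] [400,403,404]) := VW.play 402 (PX [402] [400,403,404]) (by decide +kernel) v2_1526

theorem v2_1854 : VW (PX [] [400,404]) := VW.of base nl_ok fl_ok .nil
  []
  [([268], (PX [] [268,400,404])), ([401], (PX [] [400,401,404])), ([402], (PX [] [400,402,404])), ([403], (PX [] [400,403,404]))]
  (by decide +kernel) ⟨b2_2667, b2_2668, w2_1854_402, w2_1854_403, trivial⟩

theorem v2_1528 : VW (PX [400,405] [401,402,403,404]) := VW.of base nl_ok fl_ok .nil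
  []
  []
  (by decide +kernel) trivial

theorem v2_1855 : VW (PX [400,403] [401,402,404,405]) := VW.of base nl_ok fl_ok .nil
  [(406, (.cons 407 408 .nil (.cons 408 407 .nil .nil))), (407, (.cons 406 408 .nil (.cons 408 406 .nil .nil))), (408, (.cons 406 407 .nil (.cons 407 406 .nil .nil)))]
  []
  (by decide +kernel) trivial

theorem w2_1856_403 : S (PX [400] [401,402,403,404]) := VW.play 405 (PX [400,405] [401,402,403,404]) (by decide +kernel) v2_1528

theorem w2_1856_405 : S (PX [400] [401,402,404,405]) := VW.play 403 (PX [400,403] [401,402,404,405]) (by decide +kernel) v2_1855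

theorem v2_1856 : VW (PX [400] [401,402,404]) := VW.of base nl_ok fl_ok (.cons 403 405 .nil (.cons 405 403 .nil .nil))
  [(406, (.cons 403 405 .nil (.cons 405 403 (.cons 407 408 .nil (.cons 408 407 .nil .nil)) .nil))), (407, (.cons 403 405 .nil (.cons 405 403 (.cons 406 408 .nil (.cons 408 406 .nil .nil)) .nil))), (408, (.cons 403 405 .nil (.cons 405 403 (.cons 406 407 .nil (.cons 407 406 .nil .nil)) .nil)))]
  [([403], (PX [400] [401,402,403,404])), ([405], (PX [400] [401,402,404,405]))]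
  (by decide +kernel) ⟨w2_1856_403, w2_1856_405, trivial⟩

theorem v2_1545 : VW (PX [402] [401,403,404]) := VW.of base nl_ok fl_ok .nil
  [(405, (.cons 406 407 .nil (.cons 407 406 .nil .nil))), (406, (.cons 405 407 .nil (.cons 407 405 .nil .nil))), (407, (.cons 405 406 .nil (.cons 406 405 .nil .nil)))]
  [([400], (PX [402] [400,401,403,404]))]
  (by decide +kernel) ⟨b2_2604, trivial⟩

theorem w2_1862_402 : S (PX [] [401,402,404]) := VW.play 400 (PX [400] [401,402,404]) (by decide +kernel) v2_1856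

theorem w2_1862_403 : S (PX [] [401,403,404]) := VW.play 402 (PX [402] [401,403,404]) (by decide +kernel) v2_1545

theorem v2_1862 : VW (PX [] [401,404]) := VW.of base nl_ok fl_ok .nil
  [(405, (.cons 402 403 .nil (.cons 403 402 (.cons 406 407 .nil (.cons 407 406 .nil .nil)) .nil)))]
  [([400], (PX [] [400,401,404])), ([402], (PX [] [401,402,404])), ([403], (PX [] [401,403,404]))]
  (by decide +kernel) ⟨b2_2668, w2_1862_402, w2_1862_403, trivial⟩

theorem v2_1553 : VW (PX [401,406] [402,403,404,405]) := VW.of base nl_ok fl_ok .nil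
  []
  []
  (by decide +kernel) trivial

theorem v2_1554 : VW (PX [401,405] [402,403,404,406]) := VW.of base nl_ok fl_ok .nil
  []
  []
  (by decide +kernel) trivial

theorem w2_1555_405 : S (PX [401] [402,403,404,405]) := VW.play 406 (PX [401,406] [402,403,404,405]) (by decide +kernel) v2_1553

theorem w2_1555_406 : S (PX [401] [402,403,404,406]) := VW.play 405 (PX [401,405] [402,403,404,406]) (by decide +kernel) v2_1554

theorem v2_1555 : VW (PX [401] [402,403,404]) := VW.of base nl_ok fl_ok (.cons 405 406 .nil (.cons 406 405 .nil .nil))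
  [(407, (.cons 405 406 .nil (.cons 406 405 .nil .nil))), (408, (.cons 405 406 .nil (.cons 406 405 .nil .nil))), (409, (.cons 405 406 .nil (.cons 406 405 .nil .nil)))]
  [([405], (PX [401] [402,403,404,405])), ([406], (PX [401] [402,403,404,406]))]
  (by decide +kernel) ⟨w2_1555_405, w2_1555_406, trivial⟩

theorem v2_1877 : VW (PX [403] [402,404,405]) := VW.of base nl_ok fl_ok .nil
  [(406, (.cons 407 408 .nil (.cons 408 407 .nil .nil))), (407, (.cons 406 408 .nil (.cons 408 406 .nil .nil))), (408, (.cons 406 407 .nil (.cons 407 406 .nil .nil)))]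
  []
  (by decide +kernel) trivial

theorem v2_1878 : VW (PX [403] [402,404,406]) := VW.of base nl_ok fl_ok .nil
  [(405, (.cons 407 408 .nil (.cons 408 407 .nil .nil))), (407, (.cons 405 408 .nil (.cons 408 405 (.cons 409 410 .nil (.cons 410 409 .nil .nil)) .nil))), (408, (.cons 405 407 .nil (.cons 407 405 (.cons 409 410 .nil (.cons 410 409 .nil .nil)) .nil)))]
  []
  (by decide +kernel) trivial

theorem w2_1894_400 : S (PX [] [400,402,404]) := VW.play 401 (PX [401] [400,402,404]) (by decide +kernel) v2_1846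

theorem w2_1894_401 : S (PX [] [401,402,404]) := VW.play 400 (PX [400] [401,402,404]) (by decide +kernel) v2_1856

theorem w2_1894_403 : S (PX [] [402,403,404]) := VW.play 401 (PX [401] [402,403,404]) (by decide +kernel) v2_1555

theorem w2_1894_405 : S (PX [] [402,404,405]) := VW.play 403 (PX [403] [402,404,405]) (by decide +kernel) v2_1877

theorem w2_1894_406 : S (PX [] [402,404,406]) := VW.play 403 (PX [403] [402,404,406]) (by decide +kernel) v2_1878

theorem v2_1894 : VW (PX [] [402,404]) := VW.of base nl_ok fl_ok .nil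
  []
  [([400], (PX [] [400,402,404])), ([401], (PX [] [401,402,404])), ([403], (PX [] [402,403,404])), ([405], (PX [] [402,404,405])), ([406], (PX [] [402,404,406]))]
  (by decide +kernel) ⟨w2_1894_400, w2_1894_401, w2_1894_403, w2_1894_405, w2_1894_406, trivial⟩

theorem v2_1577 : VW (PX [402,407] [403,404,405,406]) := VW.of base nl_ok fl_ok .nil
  []
  []
  (by decide +kernel) trivial

theorem v2_1578 : VW (PX [402,406] [403,404,405,407]) := VW.of base nl_ok fl_ok .nil
  []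
  []
  (by decide +kernel) trivial

theorem w2_1579_406 : S (PX [402] [403,404,405,406]) := VW.play 407 (PX [402,407] [403,404,405,406]) (by decide +kernel) v2_1577

theorem w2_1579_407 : S (PX [402] [403,404,405,407]) := VW.play 406 (PX [402,406] [403,404,405,407]) (by decide +kernel) v2_1578

theorem v2_1579 : VW (PX [402] [403,404,405]) := VW.of base nl_ok fl_ok (.cons 406 407 .nil (.cons 407 406 .nil .nil))
  [(408, (.cons 406 407 .nil (.cons 407 406 .nil .nil))), (409, (.cons 406 407 .nil (.cons 407 406 .nil .nil))), (410, (.cons 406 407 .nil (.cons 407 406 .nil .nil)))]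
  [([406], (PX [402] [403,404,405,406])), ([407], (PX [402] [403,404,405,407]))]
  (by decide +kernel) ⟨w2_1579_406, w2_1579_407, trivial⟩

theorem v2_1580 : VW (PX [402,405] [403,404,406,407]) := VW.of base nl_ok fl_ok .nil
  [(408, (.cons 409 410 .nil (.cons 410 409 .nil .nil))), (409, (.cons 408 410 .nil (.cons 410 408 .nil .nil))), (410, (.cons 408 409 .nil (.cons 409 408 .nil .nil)))]
  []
  (by decide +kernel) trivial

theorem w2_1581_405 : S (PX [402] [403,404,405,406]) := VW.play 407 (PX [402,407] [403,404,405,406]) (by decide +kernel) v2_1577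

theorem w2_1581_407 : S (PX [402] [403,404,406,407]) := VW.play 405 (PX [402,405] [403,404,406,407]) (by decide +kernel) v2_1580

theorem v2_1581 : VW (PX [402] [403,404,406]) := VW.of base nl_ok fl_ok (.cons 405 407 .nil (.cons 407 405 .nil .nil))
  [(408, (.cons 405 407 .nil (.cons 407 405 (.cons 409 410 .nil (.cons 410 409 .nil .nil)) .nil))), (409, (.cons 405 407 .nil (.cons 407 405 (.cons 408 410 .nil (.cons 410 408 .nil .nil)) .nil))), (410, (.cons 405 407 .nil (.cons 407 405 (.cons 408 409 .nil (.cons 409 408 .nil .nil)) .nil)))]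
  [([405], (PX [402] [403,404,405,406])), ([407], (PX [402] [403,404,406,407]))]
  (by decide +kernel) ⟨w2_1581_405, w2_1581_407, trivial⟩

theorem w2_1585_400 : S (PX [] [400,403,404]) := VW.play 402 (PX [402] [400,403,404]) (by decide +kernel) v2_1526

theorem w2_1585_401 : S (PX [] [401,403,404]) := VW.play 402 (PX [402] [401,403,404]) (by decide +kernel) v2_1545

theorem w2_1585_402 : S (PX [] [402,403,404]) := VW.play 401 (PX [401] [402,403,404]) (by decide +kernel) v2_1555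

theorem w2_1585_405 : S (PX [] [403,404,405]) := VW.play 402 (PX [402] [403,404,405]) (by decide +kernel) v2_1579

theorem w2_1585_406 : S (PX [] [403,404,406]) := VW.play 402 (PX [402] [403,404,406]) (by decide +kernel) v2_1581

theorem v2_1585 : VW (PX [] [403,404]) := VW.of base nl_ok fl_ok .nil
  [(407, (.cons 405 406 (.cons 401 402 .nil (.cons 402 401 .nil .nil)) (.cons 406 405 .nil .nil)))]
  [([400], (PX [] [400,403,404])), ([401], (PX [] [401,403,404])), ([402], (PX [] [402,403,404])), ([405], (PX [] [403,404,405])), ([406], (PX [] [403,404,406]))]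
  (by decide +kernel) ⟨w2_1585_400, w2_1585_401, w2_1585_402, w2_1585_405, w2_1585_406, trivial⟩

theorem v2_1895 : VW (PX [403,408] [404,405,406,407]) := VW.of base nl_ok fl_ok .nil
  []
  []
  (by decide +kernel) trivial

theorem v2_1896 : VW (PX [403,407] [404,405,406,408]) := VW.of base nl_ok fl_ok .nil
  []
  []
  (by decide +kernel) trivial

theorem w2_1897_407 : S (PX [403] [404,405,406,407]) := VW.play 408 (PX [403,408] [404,405,406,407]) (by decide +kernel) v2_1895

theorem w2_1897_408 : S (PX [403] [404,405,406,408]) := VW.play 407 (PX [403,407] [404,405,406,408]) (by decide +kernel) v2_1896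

theorem v2_1897 : VW (PX [403] [404,405,406]) := VW.of base nl_ok fl_ok (.cons 407 408 .nil (.cons 408 407 .nil .nil))
  [(409, (.cons 407 408 .nil (.cons 408 407 .nil .nil))), (410, (.cons 407 408 .nil (.cons 408 407 .nil .nil))), (411, (.cons 407 408 .nil (.cons 408 407 .nil .nil)))]
  [([407], (PX [403] [404,405,406,407])), ([408], (PX [403] [404,405,406,408]))]
  (by decide +kernel) ⟨w2_1897_407, w2_1897_408, trivial⟩

theorem v2_1902 : VW (PX [406] [404,405,407]) := VW.of base nl_ok fl_ok .nil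
  [(401, (.cons 402 403 .nil (.cons 403 402 .nil .nil))), (402, (.cons 401 403 .nil (.cons 403 401 .nil .nil))), (403, (.cons 401 402 .nil (.cons 402 401 .nil .nil)))]
  []
  (by decide +kernel) trivial

theorem w2_1903_402 : S (PX [] [402,404,405]) := VW.play 403 (PX [403] [402,404,405]) (by decide +kernel) v2_1877

theorem w2_1903_403 : S (PX [] [403,404,405]) := VW.play 402 (PX [402] [403,404,405]) (by decide +kernel) v2_1579

theorem w2_1903_406 : S (PX [] [404,405,406]) := VW.play 403 (PX [403] [404,405,406]) (by decide +kernel) v2_1897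

theorem w2_1903_407 : S (PX [] [404,405,407]) := VW.play 406 (PX [406] [404,405,407]) (by decide +kernel) v2_1902

theorem v2_1903 : VW (PX [] [404,405]) := VW.of base nl_ok fl_ok .nil
  [(401, (.cons 402 403 .nil (.cons 403 402 (.cons 406 407 .nil (.cons 407 406 .nil .nil)) .nil))), (408, (.cons 406 407 (.cons 402 403 .nil (.cons 403 402 .nil .nil)) (.cons 407 406 .nil .nil)))]
  [([402], (PX [] [402,404,405])), ([403], (PX [] [403,404,405])), ([406], (PX [] [404,405,406])), ([407], (PX [] [404,405,407]))]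
  (by decide +kernel) ⟨w2_1903_402, w2_1903_403, w2_1903_406, w2_1903_407, trivial⟩

theorem v2_1904 : VW (PX [405] [404,406,407]) := VW.of base nl_ok fl_ok .nil
  [(408, (.cons 409 410 .nil (.cons 410 409 .nil .nil))), (409, (.cons 408 410 .nil (.cons 410 408 .nil .nil))), (410, (.cons 408 409 .nil (.cons 409 408 .nil .nil)))]
  []
  (by decide +kernel) trivial

theorem w2_1905_402 : S (PX [] [402,404,406]) := VW.play 403 (PX [403] [402,404,406]) (by decide +kernel) v2_1878

theorem w2_1905_403 : S (PX [] [403,404,406]) := VW.play 402 (PX [402] [403,404,406]) (by decide +kernel) v2_1581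

theorem w2_1905_405 : S (PX [] [404,405,406]) := VW.play 403 (PX [403] [404,405,406]) (by decide +kernel) v2_1897

theorem w2_1905_407 : S (PX [] [404,406,407]) := VW.play 405 (PX [405] [404,406,407]) (by decide +kernel) v2_1904

theorem v2_1905 : VW (PX [] [404,406]) := VW.of base nl_ok fl_ok .nil
  [(408, (.cons 405 407 (.cons 402 403 .nil (.cons 403 402 .nil .nil)) (.cons 407 405 (.cons 409 410 .nil (.cons 410 409 .nil .nil)) .nil)))]
  [([402], (PX [] [402,404,406])), ([403], (PX [] [403,404,406])), ([405], (PX [] [404,405,406])), ([407], (PX [] [404,406,407]))]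
  (by decide +kernel) ⟨w2_1905_402, w2_1905_403, w2_1905_405, w2_1905_407, trivial⟩

theorem w2_1906_405 : S (PX [] [404,405,407]) := VW.play 406 (PX [406] [404,405,407]) (by decide +kernel) v2_1902

theorem w2_1906_406 : S (PX [] [404,406,407]) := VW.play 405 (PX [405] [404,406,407]) (by decide +kernel) v2_1904

theorem v2_1906 : VW (PX [] [404,407]) := VW.of base nl_ok fl_ok .nil
  [(403, (.cons 405 406 (.cons 401 402 .nil (.cons 402 401 .nil .nil)) (.cons 406 405 .nil .nil))), (408, (.cons 405 406 .nil (.cons 406 405 (.cons 409 410 .nil (.cons 410 409 .nil .nil)) .nil)))]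
  [([405], (PX [] [404,405,407])), ([406], (PX [] [404,406,407]))]
  (by decide +kernel) ⟨w2_1906_405, w2_1906_406, trivial⟩

theorem v2_1907 : VW (PX [] [404,408]) := VW.of base nl_ok fl_ok .nil
  [(405, (.cons 406 407 (.cons 402 403 .nil (.cons 403 402 .nil .nil)) (.cons 407 406 .nil .nil))), (406, (.cons 405 407 (.cons 402 403 .nil (.cons 403 402 .nil .nil)) (.cons 407 405 (.cons 409 410 .nil (.cons 410 409 .nil .nil)) .nil))), (407, (.cons 405 406 .nil (.cons 406 405 (.cons 409 410 .nil (.cons 410 409 .nil .nil)) .nil)))]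
  []
  (by decide +kernel) trivial

theorem v2_1908 : VW (PX [373,497] [342,404,435,466]) := VW.of base nl_ok fl_ok .nil
  []
  []
  (by decide +kernel) trivial

theorem v2_1843 : VW (PX [342,497] [373,404,435,466]) := VW.of base nl_ok fl_ok .nil
  []
  []
  (by decide +kernel) trivial

theorem w2_1909_342 : S (PX [497] [342,404,435,466]) := VW.play 373 (PX [373,497] [342,404,435,466]) (by decide +kernel) v2_1908

theorem w2_1909_373 : S (PX [497] [373,404,435,466]) := VW.play 342 (PX [342,497] [373,404,435,466]) (by decide +kernel) v2_1843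

theorem v2_1909 : VW (PX [497] [404,435,466]) := VW.of base nl_ok fl_ok (.cons 342 373 .nil (.cons 373 342 .nil .nil))
  [(249, (.cons 342 373 .nil (.cons 373 342 .nil .nil))), (280, (.cons 342 373 .nil (.cons 373 342 .nil .nil))), (311, (.cons 342 373 .nil (.cons 373 342 .nil .nil)))]
  [([342], (PX [497] [342,404,435,466])), ([373], (PX [497] [373,404,435,466]))]
  (by decide +kernel) ⟨w2_1909_342, w2_1909_373, trivial⟩

theorem v2_1910 : VW (PX [466] [404,435,497]) := VW.of base nl_ok fl_ok .nil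
  [(311, (.cons 342 373 .nil (.cons 373 342 .nil .nil))), (342, (.cons 311 373 .nil (.cons 373 311 .nil .nil))), (373, (.cons 311 342 .nil (.cons 342 311 .nil .nil)))]
  []
  (by decide +kernel) trivial

theorem w2_1926_342 : S (PX [] [342,404,435]) := VW.play 373 (PX [373] [342,404,435]) (by decide +kernel) v2_1796

theorem w2_1926_373 : S (PX [] [373,404,435]) := VW.play 466 (PX [466] [373,404,435]) (by decide +kernel) v2_1828

theorem w2_1926_466 : S (PX [] [404,435,466]) := VW.play 497 (PX [497] [404,435,466]) (by decide +kernel) v2_1909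

theorem w2_1926_497 : S (PX [] [404,435,497]) := VW.play 466 (PX [466] [404,435,497]) (by decide +kernel) v2_1910

theorem v2_1926 : VW (PX [] [404,435]) := VW.of base nl_ok fl_ok .nil
  [(311, (.cons 342 373 .nil (.cons 373 342 (.cons 466 497 .nil (.cons 497 466 .nil .nil)) .nil))), (528, (.cons 466 497 (.cons 342 373 .nil (.cons 373 342 .nil .nil)) (.cons 497 466 .nil .nil)))]
  [([342], (PX [] [342,404,435])), ([373], (PX [] [373,404,435])), ([466], (PX [] [404,435,466])), ([497], (PX [] [404,435,497]))]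
  (by decide +kernel) ⟨w2_1926_342, w2_1926_373, w2_1926_466, w2_1926_497, trivial⟩

theorem v2_1927 : VW (PX [372,532] [404,436,468,500]) := VW.of base nl_ok fl_ok .nil
  []
  []
  (by decide +kernel) trivial

theorem v2_1928 : VW (PX [372,500] [404,436,468,532]) := VW.of base nl_ok fl_ok .nil
  []
  []
  (by decide +kernel) trivial

theorem w2_1929_500 : S (PX [372] [404,436,468,500]) := VW.play 532 (PX [372,532] [404,436,468,500]) (by decide +kernel) v2_1927

theorem w2_1929_532 : S (PX [372] [404,436,468,532]) := VW.play 500 (PX [372,500] [404,436,468,532]) (by decide +kernel) v2_1928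

theorem v2_1929 : VW (PX [372] [404,436,468]) := VW.of base nl_ok fl_ok (.cons 500 532 .nil (.cons 532 500 .nil .nil))
  [(564, (.cons 500 532 .nil (.cons 532 500 .nil .nil))), (596, (.cons 500 532 .nil (.cons 532 500 .nil .nil))), (628, (.cons 500 532 .nil (.cons 532 500 .nil .nil)))]
  [([500], (PX [372] [404,436,468,500])), ([532], (PX [372] [404,436,468,532]))]
  (by decide +kernel) ⟨w2_1929_500, w2_1929_532, trivial⟩

theorem v2_1934 : VW (PX [468] [404,436,500]) := VW.of base nl_ok fl_ok .nil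
  [(308, (.cons 340 372 .nil (.cons 372 340 .nil .nil))), (340, (.cons 308 372 .nil (.cons 372 308 .nil .nil))), (372, (.cons 308 340 .nil (.cons 340 308 .nil .nil)))]
  []
  (by decide +kernel) trivial

theorem w2_1946_340 : S (PX [] [340,404,436]) := VW.play 372 (PX [372] [340,404,436]) (by decide +kernel) v2_1787

theorem w2_1946_372 : S (PX [] [372,404,436]) := VW.play 340 (PX [340] [372,404,436]) (by decide +kernel) v2_1809

theorem w2_1946_468 : S (PX [] [404,436,468]) := VW.play 372 (PX [372] [404,436,468]) (by decide +kernel) v2_1929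

theorem w2_1946_500 : S (PX [] [404,436,500]) := VW.play 468 (PX [468] [404,436,500]) (by decide +kernel) v2_1934

theorem v2_1946 : VW (PX [] [404,436]) := VW.of base nl_ok fl_ok .nil
  [(308, (.cons 340 372 .nil (.cons 372 340 (.cons 468 500 .nil (.cons 500 468 .nil .nil)) .nil))), (532, (.cons 468 500 (.cons 340 372 .nil (.cons 372 340 .nil .nil)) (.cons 500 468 .nil .nil)))]
  [([340], (PX [] [340,404,436])), ([372], (PX [] [372,404,436])), ([468], (PX [] [404,436,468])), ([500], (PX [] [404,436,500]))]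
  (by decide +kernel) ⟨w2_1946_340, w2_1946_372, w2_1946_468, w2_1946_500, trivial⟩

theorem v2_1947 : VW (PX [371,536] [404,437,470,503]) := VW.of base nl_ok fl_ok .nil
  []
  []
  (by decide +kernel) trivial

theorem v2_1948 : VW (PX [371,503] [404,437,470,536]) := VW.of base nl_ok fl_ok .nil
  []
  []
  (by decide +kernel) trivial

theorem w2_1949_503 : S (PX [371] [404,437,470,503]) := VW.play 536 (PX [371,536] [404,437,470,503]) (by decide +kernel) v2_1947

theorem w2_1949_536 : S (PX [371] [404,437,470,536]) := VW.play 503 (PX [371,503] [404,437,470,536]) (by decide +kernel) v2_1948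

theorem v2_1949 : VW (PX [371] [404,437,470]) := VW.of base nl_ok fl_ok (.cons 503 536 .nil (.cons 536 503 .nil .nil))
  [(569, (.cons 503 536 .nil (.cons 536 503 .nil .nil))), (602, (.cons 503 536 .nil (.cons 536 503 .nil .nil))), (635, (.cons 503 536 .nil (.cons 536 503 .nil .nil)))]
  [([503], (PX [371] [404,437,470,503])), ([536], (PX [371] [404,437,470,536]))]
  (by decide +kernel) ⟨w2_1949_503, w2_1949_536, trivial⟩

theorem v2_1954 : VW (PX [470] [404,437,503]) := VW.of base nl_ok fl_ok .nil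
  [(305, (.cons 338 371 .nil (.cons 371 338 .nil .nil))), (338, (.cons 305 371 .nil (.cons 371 305 .nil .nil))), (371, (.cons 305 338 .nil (.cons 338 305 .nil .nil)))]
  []
  (by decide +kernel) trivial

theorem w2_1955_338 : S (PX [] [338,404,437]) := VW.play 371 (PX [371] [338,404,437]) (by decide +kernel) v2_1752

theorem w2_1955_371 : S (PX [] [371,404,437]) := VW.play 338 (PX [338] [371,404,437]) (by decide +kernel) v2_1802

theorem w2_1955_470 : S (PX [] [404,437,470]) := VW.play 371 (PX [371] [404,437,470]) (by decide +kernel) v2_1949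

theorem w2_1955_503 : S (PX [] [404,437,503]) := VW.play 470 (PX [470] [404,437,503]) (by decide +kernel) v2_1954

theorem v2_1955 : VW (PX [] [404,437]) := VW.of base nl_ok fl_ok .nil
  [(305, (.cons 338 371 .nil (.cons 371 338 (.cons 470 503 .nil (.cons 503 470 .nil .nil)) .nil))), (536, (.cons 470 503 (.cons 338 371 .nil (.cons 371 338 .nil .nil)) (.cons 503 470 .nil .nil)))]
  [([338], (PX [] [338,404,437])), ([371], (PX [] [371,404,437])), ([470], (PX [] [404,437,470])), ([503], (PX [] [404,437,503]))]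
  (by decide +kernel) ⟨w2_1955_338, w2_1955_371, w2_1955_470, w2_1955_503, trivial⟩

theorem v2_1956 : VW (PX [435] [404,466,497]) := VW.of base nl_ok fl_ok .nil
  [(528, (.cons 559 590 .nil (.cons 590 559 .nil .nil))), (559, (.cons 528 590 .nil (.cons 590 528 .nil .nil))), (590, (.cons 528 559 .nil (.cons 559 528 .nil .nil)))]
  []
  (by decide +kernel) trivial

theorem w2_1959_373 : S (PX [] [373,404,466]) := VW.play 435 (PX [435] [373,404,466]) (by decide +kernel) v2_1829

theorem w2_1959_435 : S (PX [] [404,435,466]) := VW.play 497 (PX [497] [404,435,466]) (by decide +kernel) v2_1909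

theorem w2_1959_497 : S (PX [] [404,466,497]) := VW.play 435 (PX [435] [404,466,497]) (by decide +kernel) v2_1956

theorem v2_1959 : VW (PX [] [404,466]) := VW.of base nl_ok fl_ok .nil
  [(342, (.cons 373 435 (.cons 280 311 .nil (.cons 311 280 .nil .nil)) (.cons 435 373 (.cons 497 528 .nil (.cons 528 497 .nil .nil)) .nil))), (528, (.cons 435 497 (.cons 342 373 .nil (.cons 373 342 .nil .nil)) (.cons 497 435 (.cons 559 590 .nil (.cons 590 559 .nil .nil)) .nil)))]
  [([373], (PX [] [373,404,466])), ([435], (PX [] [404,435,466])), ([497], (PX [] [404,466,497]))]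
  (by decide +kernel) ⟨w2_1959_373, w2_1959_435, w2_1959_497, trivial⟩

theorem v2_1974 : VW (PX [436] [404,468,500]) := VW.of base nl_ok fl_ok .nil
  [(532, (.cons 564 596 .nil (.cons 596 564 .nil .nil))), (564, (.cons 532 596 .nil (.cons 596 532 .nil .nil))), (596, (.cons 532 564 .nil (.cons 564 532 .nil .nil)))]
  []
  (by decide +kernel) trivial

theorem w2_1977_372 : S (PX [] [372,404,468]) := VW.play 436 (PX [436] [372,404,468]) (by decide +kernel) v2_1814

theorem w2_1977_436 : S (PX [] [404,436,468]) := VW.play 372 (PX [372] [404,436,468]) (by decide +kernel) v2_1929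

theorem w2_1977_500 : S (PX [] [404,468,500]) := VW.play 436 (PX [436] [404,468,500]) (by decide +kernel) v2_1974

theorem v2_1977 : VW (PX [] [404,468]) := VW.of base nl_ok fl_ok .nil
  [(340, (.cons 372 436 (.cons 276 308 .nil (.cons 308 276 .nil .nil)) (.cons 436 372 (.cons 500 532 .nil (.cons 532 500 .nil .nil)) .nil))), (532, (.cons 436 500 (.cons 340 372 .nil (.cons 372 340 .nil .nil)) (.cons 500 436 (.cons 564 596 .nil (.cons 596 564 .nil .nil)) .nil)))]
  [([372], (PX [] [372,404,468])), ([436], (PX [] [404,436,468])), ([500], (PX [] [404,468,500]))]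
  (by decide +kernel) ⟨w2_1977_372, w2_1977_436, w2_1977_500, trivial⟩

theorem v2_1978 : VW (PX [437] [404,470,503]) := VW.of base nl_ok fl_ok .nil
  [(536, (.cons 569 602 .nil (.cons 602 569 .nil .nil))), (569, (.cons 536 602 .nil (.cons 602 536 .nil .nil))), (602, (.cons 536 569 .nil (.cons 569 536 .nil .nil)))]
  []
  (by decide +kernel) trivial

theorem w2_1989_338 : S (PX [] [338,404,470]) := VW.play 371 (PX [371] [338,404,470]) (by decide +kernel) v2_1753

theorem w2_1989_371 : S (PX [] [371,404,470]) := VW.play 437 (PX [437] [371,404,470]) (by decide +kernel) v2_1805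

theorem w2_1989_437 : S (PX [] [404,437,470]) := VW.play 371 (PX [371] [404,437,470]) (by decide +kernel) v2_1949

theorem w2_1989_503 : S (PX [] [404,470,503]) := VW.play 437 (PX [437] [404,470,503]) (by decide +kernel) v2_1978

theorem v2_1989 : VW (PX [] [404,470]) := VW.of base nl_ok fl_ok .nil
  [(536, (.cons 437 503 (.cons 338 371 .nil (.cons 371 338 .nil .nil)) (.cons 503 437 (.cons 569 602 .nil (.cons 602 569 .nil .nil)) .nil)))]
  [([338], (PX [] [338,404,470])), ([371], (PX [] [371,404,470])), ([437], (PX [] [404,437,470])), ([503], (PX [] [404,470,503]))]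
  (by decide +kernel) ⟨w2_1989_338, w2_1989_371, w2_1989_437, w2_1989_503, trivial⟩

theorem w2_1990_435 : S (PX [] [404,435,497]) := VW.play 466 (PX [466] [404,435,497]) (by decide +kernel) v2_1910

theorem w2_1990_466 : S (PX [] [404,466,497]) := VW.play 435 (PX [435] [404,466,497]) (by decide +kernel) v2_1956

theorem v2_1990 : VW (PX [] [404,497]) := VW.of base nl_ok fl_ok .nil
  [(373, (.cons 435 466 (.cons 311 342 .nil (.cons 342 311 .nil .nil)) (.cons 466 435 .nil .nil))), (528, (.cons 435 466 .nil (.cons 466 435 (.cons 559 590 .nil (.cons 590 559 .nil .nil)) .nil)))]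
  [([435], (PX [] [404,435,497])), ([466], (PX [] [404,466,497]))]
  (by decide +kernel) ⟨w2_1990_435, w2_1990_466, trivial⟩

theorem w2_1991_436 : S (PX [] [404,436,500]) := VW.play 468 (PX [468] [404,436,500]) (by decide +kernel) v2_1934

theorem w2_1991_468 : S (PX [] [404,468,500]) := VW.play 436 (PX [436] [404,468,500]) (by decide +kernel) v2_1974

theorem v2_1991 : VW (PX [] [404,500]) := VW.of base nl_ok fl_ok .nil
  [(372, (.cons 436 468 (.cons 308 340 .nil (.cons 340 308 .nil .nil)) (.cons 468 436 .nil .nil))), (532, (.cons 436 468 .nil (.cons 468 436 (.cons 564 596 .nil (.cons 596 564 .nil .nil)) .nil)))]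
  [([436], (PX [] [404,436,500])), ([468], (PX [] [404,468,500]))]
  (by decide +kernel) ⟨w2_1991_436, w2_1991_468, trivial⟩

theorem w2_1992_437 : S (PX [] [404,437,503]) := VW.play 470 (PX [470] [404,437,503]) (by decide +kernel) v2_1954

theorem w2_1992_470 : S (PX [] [404,470,503]) := VW.play 437 (PX [437] [404,470,503]) (by decide +kernel) v2_1978

theorem v2_1992 : VW (PX [] [404,503]) := VW.of base nl_ok fl_ok .nil
  [(371, (.cons 437 470 (.cons 305 338 .nil (.cons 338 305 .nil .nil)) (.cons 470 437 .nil .nil))), (536, (.cons 437 470 .nil (.cons 470 437 (.cons 569 602 .nil (.cons 602 569 .nil .nil)) .nil)))]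
  [([437], (PX [] [404,437,503])), ([470], (PX [] [404,470,503]))]
  (by decide +kernel) ⟨w2_1992_437, w2_1992_470, trivial⟩

theorem v2_1993 : VW (PX [] [404,528]) := VW.of base nl_ok fl_ok .nil
  [(435, (.cons 466 497 (.cons 342 373 .nil (.cons 373 342 .nil .nil)) (.cons 497 466 .nil .nil))), (466, (.cons 435 497 (.cons 342 373 .nil (.cons 373 342 .nil .nil)) (.cons 497 435 (.cons 559 590 .nil (.cons 590 559 .nil .nil)) .nil))), (497, (.cons 435 466 .nil (.cons 466 435 (.cons 559 590 .nil (.cons 590 559 .nil .nil)) .nil)))]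
  []
  (by decide +kernel) trivial

theorem v2_1994 : VW (PX [] [404,532]) := VW.of base nl_ok fl_ok .nil
  [(436, (.cons 468 500 (.cons 340 372 .nil (.cons 372 340 .nil .nil)) (.cons 500 468 .nil .nil))), (468, (.cons 436 500 (.cons 340 372 .nil (.cons 372 340 .nil .nil)) (.cons 500 436 (.cons 564 596 .nil (.cons 596 564 .nil .nil)) .nil))), (500, (.cons 436 468 .nil (.cons 468 436 (.cons 564 596 .nil (.cons 596 564 .nil .nil)) .nil)))]
  []
  (by decide +kernel) trivial

theorem v2_1995 : VW (PX [] [404,536]) := VW.of base nl_ok fl_ok .nil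
  [(437, (.cons 470 503 (.cons 338 371 .nil (.cons 371 338 .nil .nil)) (.cons 503 470 .nil .nil))), (470, (.cons 437 503 (.cons 338 371 .nil (.cons 371 338 .nil .nil)) (.cons 503 437 (.cons 569 602 .nil (.cons 602 569 .nil .nil)) .nil))), (503, (.cons 437 470 .nil (.cons 470 437 (.cons 569 602 .nil (.cons 602 569 .nil .nil)) .nil)))]
  []
  (by decide +kernel) trivial

theorem r272 : S (Nat.lor X2 (bits [404, 272])) := VW.play 394 (PX [] [272,404]) (by decide +kernel) v2_1680

theorem r276 : S (Nat.lor X2 (bits [404, 276])) := VW.play 394 (PX [] [276,404]) (by decide +kernel) v2_1681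

theorem r280 : S (Nat.lor X2 (bits [404, 280])) := VW.play 394 (PX [] [280,404]) (by decide +kernel) v2_1682

theorem r305 : S (Nat.lor X2 (bits [404, 305])) := VW.play 394 (PX [] [305,404]) (by decide +kernel) v2_1704

theorem r308 : S (Nat.lor X2 (bits [404, 308])) := VW.play 394 (PX [] [308,404]) (by decide +kernel) v2_1726

theorem r311 : S (Nat.lor X2 (bits [404, 311])) := VW.play 394 (PX [] [311,404]) (by decide +kernel) v2_1734

theorem r338 : S (Nat.lor X2 (bits [404, 338])) := VW.play 394 (PX [] [338,404]) (by decide +kernel) v2_1767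

theorem r340 : S (Nat.lor X2 (bits [404, 340])) := VW.play 394 (PX [] [340,404]) (by decide +kernel) v2_1790

theorem r342 : S (Nat.lor X2 (bits [404, 342])) := VW.play 394 (PX [] [342,404]) (by decide +kernel) v2_1799

theorem r371 : S (Nat.lor X2 (bits [404, 371])) := VW.play 394 (PX [] [371,404]) (by decide +kernel) v2_1806

theorem r372 : S (Nat.lor X2 (bits [404, 372])) := VW.play 394 (PX [] [372,404]) (by decide +kernel) v2_1826

theorem r373 : S (Nat.lor X2 (bits [404, 373])) := VW.play 394 (PX [] [373,404]) (by decide +kernel) v2_1845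

theorem r400 : S (Nat.lor X2 (bits [404, 400])) := VW.play 394 (PX [] [400,404]) (by decide +kernel) v2_1854

theorem r401 : S (Nat.lor X2 (bits [404, 401])) := VW.play 394 (PX [] [401,404]) (by decide +kernel) v2_1862

theorem r402 : S (Nat.lor X2 (bits [404, 402])) := VW.play 394 (PX [] [402,404]) (by decide +kernel) v2_1894

theorem r403 : S (Nat.lor X2 (bits [404, 403])) := VW.play 394 (PX [] [403,404]) (by decide +kernel) v2_1585

theorem r405 : S (Nat.lor X2 (bits [404, 405])) := VW.play 394 (PX [] [404,405]) (by decide +kernel) v2_1903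

theorem r406 : S (Nat.lor X2 (bits [404, 406])) := VW.play 394 (PX [] [404,406]) (by decide +kernel) v2_1905

theorem r407 : S (Nat.lor X2 (bits [404, 407])) := VW.play 394 (PX [] [404,407]) (by decide +kernel) v2_1906

theorem r408 : S (Nat.lor X2 (bits [404, 408])) := VW.play 394 (PX [] [404,408]) (by decide +kernel) v2_1907

theorem r435 : S (Nat.lor X2 (bits [404, 435])) := VW.play 394 (PX [] [404,435]) (by decide +kernel) v2_1926

theorem r436 : S (Nat.lor X2 (bits [404, 436])) := VW.play 394 (PX [] [404,436]) (by decide +kernel) v2_1946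

theorem r437 : S (Nat.lor X2 (bits [404, 437])) := VW.play 394 (PX [] [404,437]) (by decide +kernel) v2_1955

theorem r466 : S (Nat.lor X2 (bits [404, 466])) := VW.play 394 (PX [] [404,466]) (by decide +kernel) v2_1959

theorem r468 : S (Nat.lor X2 (bits [404, 468])) := VW.play 394 (PX [] [404,468]) (by decide +kernel) v2_1977

theorem r470 : S (Nat.lor X2 (bits [404, 470])) := VW.play 394 (PX [] [404,470]) (by decide +kernel) v2_1989

theorem r497 : S (Nat.lor X2 (bits [404, 497])) := VW.play 394 (PX [] [404,497]) (by decide +kernel) v2_1990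

theorem r500 : S (Nat.lor X2 (bits [404, 500])) := VW.play 394 (PX [] [404,500]) (by decide +kernel) v2_1991

theorem r503 : S (Nat.lor X2 (bits [404, 503])) := VW.play 394 (PX [] [404,503]) (by decide +kernel) v2_1992

theorem r528 : S (Nat.lor X2 (bits [404, 528])) := VW.play 394 (PX [] [404,528]) (by decide +kernel) v2_1993

theorem r532 : S (Nat.lor X2 (bits [404, 532])) := VW.play 394 (PX [] [404,532]) (by decide +kernel) v2_1994

theorem r536 : S (Nat.lor X2 (bits [404, 536])) := VW.play 394 (PX [] [404,536]) (by decide +kernel) v2_1995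

theorem all : RT X2 404 (272 :: 276 :: 280 :: 305 :: 308 :: 311 :: 338 :: 340 :: 342 :: 371 :: 372 :: 373 :: 400 :: 401 :: 402 :: 403 :: 405 :: 406 :: 407 :: 408 :: 435 :: 436 :: 437 :: 466 :: 468 :: 470 :: 497 :: 500 :: 503 :: 528 :: 532 :: 536 :: []) := ⟨r272, r276, r280, r305, r308, r311, r338, r340, r342, r371, r372, r373, r400, r401, r402, r403, r405, r406, r407, r408, r435, r436, r437, r466, r468, r470, r497, r500, r503, r528, r532, r536, trivial⟩

end Pool.Agent.H94.Five.Mid.K9_1_0
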