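import Pool.Agent.H94.Five.Mid.Fam

set_option autoImplicit false
set_option linter.all false
set_option maxRecDepth 100000

/-! Second has the cell (9, 2): some of the other stones. -/

namespace Pool.Agent.H94.Five.Mid.K9_2_0

open Pool.Agent.H79.Five Pool.Agent.H10.Five Pool.Agent.H94.Five.M

abbrev nl : List Ent := [n0, n3, n4, n6, n8, n9, n10, n11, n16, n17, n21, n22]

theorem nl_ok : AC XB M0 nl := .cons n0k <| .cons n3k <| .cons n4k <| .cons n6k <| .cons n8k <| .cons n9k <| .cons n10k <| .cons n11k <| .cons n16k <| .cons n17k <| .cons n21k <| .cons n22k <| .nil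

abbrev fl : List Ent := (x45 :: x47 :: x73 :: x74 :: x93 :: x96 :: x103 :: x111 :: x128 :: x130 :: x134 :: x144 :: x155 :: x161 :: x167 :: x174 :: x177 :: x183 :: x190 :: x200 :: x201 :: x204 :: x208 :: x219 :: x245 :: x253 :: x254 :: x255 :: x258 :: x266 :: x277 :: x310 :: x313 :: x316 :: x318 :: x322 :: x328 :: x357 :: x364 :: x371 :: x375 :: x383 :: x390 :: x413 :: x424 :: x426 :: x427 :: x430 :: x434 :: x437 :: x444 :: x451 :: x462 :: x464 :: x492 :: x494 :: x501 :: x518 :: x530 :: [])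

theorem fl_ok : AC XB M0 fl := .cons x45k <| .cons x47k <| .cons x73k <| .cons x74k <| .cons x93k <| .cons x96k <| .cons x103k <| .cons x111k <| .cons x128k <| .cons x130k <| .cons x134k <| .cons x144k <| .cons x155k <| .cons x161k <| .cons x167k <| .cons x174k <| .cons x177k <| .cons x183k <| .cons x190k <| .cons x200k <| .cons x201k <| .cons x204k <| .cons x208k <| .cons x219k <| .cons x245k <| .cons x253k <| .cons x254k <| .cons x255k <| .cons x258k <| .cons x266k <| .cons x277k <| .cons x310k <| .cons x313k <| .cons x316k <| .cons x318k <| .cons x322k <| .cons x328k <| .cons x357k <| .cons x364k <| .cons x371k <| .cons x375k <| .cons x383k <| .cons x390k <| .cons x413k <| .cons x424k <| .cons x426k <| .cons x427k <| .cons x430k <| .cons x434k <| .cons x437k <| .cons x444k <| .cons x451k <| .cons x462k <| .cons x464k <| .cons x492k <| .cons x494k <| .cons x501k <| .cons x518k <| .cons x530k <| .nil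

theorem b5_0 : S (PX [] [273,304,436]) := S.of (.q 330 (.a 1 [] (.d 297 2312 264 2345 429)
 (.a 1 [264] (.d 429 2345 297 2378 462)
 (.a 0 [297,429] (.q 362 (.a 1 [] (.d 298 1290 266 1322 426)
 (.a 1 [266] (.d 426 1322 298 1354 458)
 (.a 0 [298,426] (.q 361 (.a 1 [] (.d 360 359 359 360 364)
 (.a 1 [359] (.d 364 360 360 361 365)
 (.a 0 [360,364] (.q 427 (.a 1 [] (.d 328 2343 295 2376 460)
 (.a 1 [295] (.d 460 2376 328 2409 493)
 (.a 0 [328,460] (.q 395 (.a 1 [] (.d 393 392 392 393 397)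
 (.a 1 [392] (.d 397 393 393 394 398)
 (.a 1 [393] (.d 331 1323 299 1355 459)
 .e))))
 .e))))
 .e))))
 .e))))
 .e)))) (by decide +kernel)

theorem b5_1 : S (PX [] [304,330,436]) := S.of (.q 395 (.a 1 [] (.d 393 392 392 393 397)
 (.a 1 [392] (.d 397 393 393 394 398)
 (.a 0 [393,397] (.q 427 (.a 1 [] (.d 331 1323 299 1355 459)
 (.a 1 [299] (.d 459 1355 331 1387 491)
 (.a 0 [331,459] (.q 332 (.a 1 [] (.d 301 3342 270 3373 425)
 (.a 1 [270] (.d 425 3373 301 3404 456)
 (.a 0 [301,425] (.q 365 (.a 1 [] (.d 334 3375 303 3406 458)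
 (.a 1 [303] (.d 458 3406 334 3437 489)
 (.a 0 [334,458] (.q 364 (.a 1 [] (.d 362 361 361 362 366)
 (.a 1 [361] (.d 366 362 362 363 367)
 (.a 1 [362] (.d 300 1292 268 1324 428)
 .e))))
 .e))))
 .e))))
 .e))))
 .e)))) (by decide +kernel)

theorem b5_2 : S (PX [] [304,335,436]) := S.of (.q 332 (.a 1 [] (.d 301 3342 270 3373 425)
 (.a 1 [270] (.d 425 3373 301 3404 456)
 (.a 0 [301,425] (.q 397 (.a 1 [] (.d 395 393 393 394 398)
 (.a 0 [393,395,398] (.q 429 (.a 1 [] (.d 330 2345 297 2378 462)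
 (.a 1 [297] (.d 462 2378 330 2411 495)
 (.a 0 [330,462] (.q 365 (.a 1 [] (.d 461 1357 333 1389 493)
 (.a 0 [333,461,493] (.q 364 (.a 1 [] (.d 362 361 361 362 366)
 (.a 1 [361] (.d 366 362 362 363 367)
 (.a 1 [362] (.d 300 1292 268 1324 428)
 .e))))
 .e)))
 .e))))
 .e)))
 .e)))) (by decide +kernel)

theorem b5_3 : S (PX [238,370] [205,273,304,337,436]) := S.of (.q 330 (.a 1 [] (.d 297 2312 264 2345 429)
 (.a 1 [264] (.d 429 2345 297 2378 462)
 (.a 0 [297,429] (.q 362 (.a 1 [] (.d 298 1290 266 1322 426)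
 (.a 1 [266] (.d 426 1322 298 1354 458)
 (.a 0 [298,426] (.q 361 (.a 1 [] (.d 360 359 359 360 364)
 (.a 1 [359] (.d 364 360 360 361 365)
 (.a 0 [360,364] (.q 427 (.a 1 [] (.d 328 2343 295 2376 460)
 (.a 1 [295] (.d 460 2376 328 2409 493)
 (.a 0 [328,460] (.q 395 (.a 1 [] (.d 393 392 392 393 397)
 (.a 1 [392] (.d 397 393 393 394 398)
 (.a 1 [393] (.d 331 1323 299 1355 459)
 .e))))
 .e))))
 .e))))
 .e))))
 .e)))) (by decide +kernel)

theorem b5_4 : S (PX [238,370] [205,304,330,337,436]) := S.of (.q 395 (.a 1 [] (.d 393 392 392 393 397)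
 (.a 1 [392] (.d 397 393 393 394 398)
 (.a 0 [393,397] (.q 427 (.a 1 [] (.d 331 1323 299 1355 459)
 (.a 1 [299] (.d 459 1355 331 1387 491)
 (.a 0 [331,459] (.q 332 (.a 1 [] (.d 301 3342 270 3373 425)
 (.a 1 [270] (.d 425 3373 301 3404 456)
 (.a 0 [301,425] (.q 365 (.a 1 [] (.d 334 3375 303 3406 458)
 (.a 1 [303] (.d 458 3406 334 3437 489)
 (.a 0 [334,458] (.q 364 (.a 1 [] (.d 362 361 361 362 366)
 (.a 1 [361] (.d 366 362 362 363 367)
 (.a 1 [362] (.d 300 1292 268 1324 428)
 .e))))
 .e))))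
 .e))))
 .e))))
 .e)))) (by decide +kernel)

theorem b5_5 : S (PX [238,370] [205,304,335,337,436]) := S.of (.q 330 (.a 1 [] (.d 297 2312 264 2345 429)
 (.a 1 [264] (.d 429 2345 297 2378 462)
 (.a 0 [297,429] (.q 362 (.a 1 [] (.d 298 1290 266 1322 426)
 (.a 1 [266] (.d 426 1322 298 1354 458)
 (.a 0 [298,426] (.q 361 (.a 1 [] (.d 360 359 359 360 364)
 (.a 1 [359] (.d 364 360 360 361 365)
 (.a 0 [360,364] (.q 427 (.a 1 [] (.d 328 2343 295 2376 460)
 (.a 1 [295] (.d 460 2376 328 2409 493)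
 (.a 0 [328,460] (.q 395 (.a 1 [] (.d 393 392 392 393 397)
 (.a 1 [392] (.d 397 393 393 394 398)
 (.a 1 [393] (.d 331 1323 299 1355 459)
 .e))))
 .e))))
 .e))))
 .e))))
 .e)))) (by decide +kernel)

theorem b5_6 : S (PX [238,370] [205,304,337,366,436]) := S.of (.q 330 (.a 1 [] (.d 297 2312 264 2345 429)
 (.a 1 [264] (.d 429 2345 297 2378 462)
 (.a 0 [297,429] (.q 362 (.a 1 [] (.d 298 1290 266 1322 426)
 (.a 1 [266] (.d 426 1322 298 1354 458)
 (.a 0 [298,426] (.q 361 (.a 1 [] (.d 360 359 359 360 364)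
 (.a 1 [359] (.d 364 360 360 361 365)
 (.a 0 [360,364] (.q 427 (.a 1 [] (.d 328 2343 295 2376 460)
 (.a 1 [295] (.d 460 2376 328 2409 493)
 (.a 0 [328,460] (.q 395 (.a 1 [] (.d 393 392 392 393 397)
 (.a 1 [392] (.d 397 393 393 394 398)
 (.a 1 [393] (.d 331 1323 299 1355 459)
 .e))))
 .e))))
 .e))))
 .e))))
 .e)))) (by decide +kernel)

theorem b5_7 : S (PX [238,370] [205,304,337,428,436]) := S.of (.q 429 (.a 1 [] (.d 330 2345 297 2378 462)
 (.a 1 [297] (.d 462 2378 330 2411 495)
 (.a 0 [330,462] (.q 397 (.a 1 [] (.d 395 393 393 394 398)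
 (.a 0 [393,395,398] (.q 365 (.a 1 [] (.d 333 1325 301 1357 461)
 (.a 1 [301] (.d 461 1357 333 1389 493)
 (.a 1 [461] (.r 301 1325 333 (.d 332 3342 270 3373 425))
 (.a 0 [333] (.q 427 (.a 1 [] (.d 334 3375 303 3406 458)
 (.a 1 [303] (.d 458 3406 334 3437 489)
 (.a 1 [334] (.r 493 1389 461 (.d 460 2409 361 2442 526))
 .e))))
 .e)))))
 .e)))
 .e)))) (by decide +kernel)

theorem b5_18 : S (PX [238,370] [271,273,304,337,436]) := S.of (.q 330 (.a 1 [] (.d 297 2312 264 2345 429)
 (.a 1 [264] (.d 429 2345 297 2378 462)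
 (.a 0 [297,429] (.q 362 (.a 1 [] (.d 298 1290 266 1322 426)
 (.a 1 [266] (.d 426 1322 298 1354 458)
 (.a 0 [298,426] (.q 361 (.a 1 [] (.d 360 359 359 360 364)
 (.a 1 [359] (.d 364 360 360 361 365)
 (.a 0 [360,364] (.q 427 (.a 1 [] (.d 328 2343 295 2376 460)
 (.a 1 [295] (.d 460 2376 328 2409 493)
 (.a 0 [328,460] (.q 395 (.a 1 [] (.d 393 392 392 393 397)
 (.a 1 [392] (.d 397 393 393 394 398)
 (.a 1 [393] (.d 331 1323 299 1355 459)
 .e))))
 .e))))
 .e))))
 .e))))
 .e)))) (by decide +kernel)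

theorem b5_19 : S (PX [238,370] [271,304,330,337,436]) := S.of (.q 395 (.a 1 [] (.d 393 392 392 393 397)
 (.a 1 [392] (.d 397 393 393 394 398)
 (.a 0 [393,397] (.q 427 (.a 1 [] (.d 331 1323 299 1355 459)
 (.a 1 [299] (.d 459 1355 331 1387 491)
 (.a 0 [331,459] (.q 332 (.a 1 [] (.d 301 3342 270 3373 425)
 (.a 1 [270] (.d 425 3373 301 3404 456)
 (.a 0 [301,425] (.q 365 (.a 1 [] (.d 334 3375 303 3406 458)
 (.a 1 [303] (.d 458 3406 334 3437 489)
 (.a 0 [334,458] (.q 364 (.a 1 [] (.d 362 361 361 362 366)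
 (.a 1 [361] (.d 366 362 362 363 367)
 (.a 1 [362] (.d 300 1292 268 1324 428)
 .e))))
 .e))))
 .e))))
 .e))))
 .e)))) (by decide +kernel)

theorem b5_20 : S (PX [238,370] [271,304,335,337,436]) := S.of (.q 330 (.a 1 [] (.d 297 2312 264 2345 429)
 (.a 1 [264] (.d 429 2345 297 2378 462)
 (.a 0 [297,429] (.q 362 (.a 1 [] (.d 298 1290 266 1322 426)
 (.a 1 [266] (.d 426 1322 298 1354 458)
 (.a 0 [298,426] (.q 361 (.a 1 [] (.d 360 359 359 360 364)
 (.a 1 [359] (.d 364 360 360 361 365)
 (.a 0 [360,364] (.q 427 (.a 1 [] (.d 328 2343 295 2376 460)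
 (.a 1 [295] (.d 460 2376 328 2409 493)
 (.a 0 [328,460] (.q 395 (.a 1 [] (.d 393 392 392 393 397)
 (.a 1 [392] (.d 397 393 393 394 398)
 (.a 1 [393] (.d 331 1323 299 1355 459)
 .e))))
 .e))))
 .e))))
 .e))))
 .e)))) (by decide +kernel)

theorem b5_21 : S (PX [238,370] [271,304,337,366,436]) := S.of (.q 330 (.a 1 [] (.d 297 2312 264 2345 429)
 (.a 1 [264] (.d 429 2345 297 2378 462)
 (.a 0 [297,429] (.q 362 (.a 1 [] (.d 298 1290 266 1322 426)
 (.a 1 [266] (.d 426 1322 298 1354 458)
 (.a 0 [298,426] (.q 361 (.a 1 [] (.d 360 359 359 360 364)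
 (.a 1 [359] (.d 364 360 360 361 365)
 (.a 0 [360,364] (.q 427 (.a 1 [] (.d 328 2343 295 2376 460)
 (.a 1 [295] (.d 460 2376 328 2409 493)
 (.a 0 [328,460] (.q 395 (.a 1 [] (.d 393 392 392 393 397)
 (.a 1 [392] (.d 397 393 393 394 398)
 (.a 1 [393] (.d 331 1323 299 1355 459)
 .e))))
 .e))))
 .e))))
 .e))))
 .e)))) (by decide +kernel)

theorem b5_22 : S (PX [238,370] [271,304,337,428,436]) := S.of (.q 330 (.a 1 [] (.d 297 2312 264 2345 429)
 (.a 1 [264] (.d 429 2345 297 2378 462)
 (.a 0 [297,429] (.q 332 (.a 1 [] (.d 301 3342 270 3373 425)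
 (.a 1 [270] (.d 425 3373 301 3404 456)
 (.a 0 [301] (.q 331 (.a 1 [] (.d 329 328 328 329 333)
 (.a 1 [328] (.d 333 329 329 330 334)
 (.a 0 [329] (.q 395 (.a 1 [] (.d 393 392 392 393 397)
 (.a 1 [392] (.d 397 393 393 394 398)
 (.a 1 [393] (.d 299 1291 267 1323 427)
 .e))))
 (.a 0 [333] (.q 397 (.a 1 [] (.d 395 393 393 394 398)
 (.a 1 [393] (.r 395 394 398 (.d 427 1323 299 1355 459))
 (.a 1 [398] (.r 395 393 393 (.d 427 1323 299 1355 459))
 (.a 0 [395] (.q 364 (.a 1 [] (.d 298 2313 265 2346 430)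
 (.a 1 [265] (.d 430 2346 298 2379 463)
 (.a 1 [298] (.r 300 1292 268 (.d 269 3279 207 3310 362))
 .e))))
 .e)))))
 .e)))))
 (.a 0 [425] (.q 426 (.a 1 [] (.d 362 1322 298 1354 458)
 (.a 0 [298,362,458] (.q 333 (.a 1 [] (.d 331 329 329 330 334)
 (.a 1 [329] (.r 334 330 331 (.r 270 3342 301 (.d 302 1230 206 1262 366)))
 (.a 0 [331,334] (.q 395 (.a 1 [] (.d 393 392 392 393 397)
 (.a 1 [392] (.d 397 393 393 394 398)
 (.a 1 [393] (.d 364 3374 302 3405 457)
 .e))))
 .e))))
 .e)))
 .e)))))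
 .e)))) (by decide +kernel)

theorem b5_23 : S (PX [370] [273,304,337,436]) := S.of (.q 330 (.a 1 [] (.d 297 2312 264 2345 429)
 (.a 1 [264] (.d 429 2345 297 2378 462)
 (.a 0 [297,429] (.q 362 (.a 1 [] (.d 298 1290 266 1322 426)
 (.a 1 [266] (.d 426 1322 298 1354 458)
 (.a 0 [298,426] (.q 361 (.a 1 [] (.d 360 359 359 360 364)
 (.a 1 [359] (.d 364 360 360 361 365)
 (.a 0 [360,364] (.q 427 (.a 1 [] (.d 328 2343 295 2376 460)
 (.a 1 [295] (.d 460 2376 328 2409 493)
 (.a 0 [328,460] (.q 395 (.a 1 [] (.d 393 392 392 393 397)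
 (.a 1 [392] (.d 397 393 393 394 398)
 (.a 1 [393] (.d 331 1323 299 1355 459)
 .e))))
 .e))))
 .e))))
 .e))))
 .e)))) (by decide +kernel)

theorem b5_24 : S (PX [370] [304,330,337,436]) := S.of (.q 395 (.a 1 [] (.d 393 392 392 393 397)
 (.a 1 [392] (.d 397 393 393 394 398)
 (.a 0 [393,397] (.q 427 (.a 1 [] (.d 331 1323 299 1355 459)
 (.a 1 [299] (.d 459 1355 331 1387 491)
 (.a 0 [331,459] (.q 332 (.a 1 [] (.d 301 3342 270 3373 425)
 (.a 1 [270] (.d 425 3373 301 3404 456)
 (.a 0 [301,425] (.q 365 (.a 1 [] (.d 334 3375 303 3406 458)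
 (.a 1 [303] (.d 458 3406 334 3437 489)
 (.a 0 [334,458] (.q 364 (.a 1 [] (.d 362 361 361 362 366)
 (.a 1 [361] (.d 366 362 362 363 367)
 (.a 1 [362] (.d 300 1292 268 1324 428)
 .e))))
 .e))))
 .e))))
 .e))))
 .e)))) (by decide +kernel)

theorem b5_25 : S (PX [370] [304,333,337,436]) := S.of (.q 395 (.a 1 [] (.d 393 392 392 393 397)
 (.a 1 [392] (.d 397 393 393 394 398)
 (.a 0 [393,397] (.q 427 (.a 1 [] (.d 331 1323 299 1355 459)
 (.a 1 [299] (.d 459 1355 331 1387 491)
 (.a 0 [331,459] (.q 330 (.a 1 [] (.d 297 2312 264 2345 429)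
 (.a 1 [264] (.d 429 2345 297 2378 462)
 (.a 0 [297,429] (.q 365 (.a 1 [] (.d 334 3375 303 3406 458)
 (.a 1 [303] (.d 458 3406 334 3437 489)
 (.a 1 [334] (.r 458 3437 489 (.r 362 1354 426 (.d 364 361 361 362 366)))
 (.a 0 [458] (.q 362 (.a 1 [] (.d 364 361 361 362 366)
 (.a 1 [361] (.d 298 1290 266 1322 426)
 .e)))
 .e)))))
 .e))))
 .e))))
 .e)))) (by decide +kernel)

theorem b5_26 : S (PX [370] [304,335,337,436]) := S.of (.q 330 (.a 1 [] (.d 297 2312 264 2345 429)
 (.a 1 [264] (.d 429 2345 297 2378 462)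
 (.a 0 [297,429] (.q 362 (.a 1 [] (.d 298 1290 266 1322 426)
 (.a 1 [266] (.d 426 1322 298 1354 458)
 (.a 0 [298,426] (.q 361 (.a 1 [] (.d 360 359 359 360 364)
 (.a 1 [359] (.d 364 360 360 361 365)
 (.a 0 [360,364] (.q 427 (.a 1 [] (.d 328 2343 295 2376 460)
 (.a 1 [295] (.d 460 2376 328 2409 493)
 (.a 0 [328,460] (.q 395 (.a 1 [] (.d 393 392 392 393 397)
 (.a 1 [392] (.d 397 393 393 394 398)
 (.a 1 [393] (.d 331 1323 299 1355 459)
 .e))))
 .e))))
 .e))))
 .e))))
 .e)))) (by decide +kernel)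

theorem b5_27 : S (PX [370] [304,337,366,436]) := S.of (.q 330 (.a 1 [] (.d 297 2312 264 2345 429)
 (.a 1 [264] (.d 429 2345 297 2378 462)
 (.a 0 [297,429] (.q 362 (.a 1 [] (.d 298 1290 266 1322 426)
 (.a 1 [266] (.d 426 1322 298 1354 458)
 (.a 0 [298,426] (.q 361 (.a 1 [] (.d 360 359 359 360 364)
 (.a 1 [359] (.d 364 360 360 361 365)
 (.a 0 [360,364] (.q 427 (.a 1 [] (.d 328 2343 295 2376 460)
 (.a 1 [295] (.d 460 2376 328 2409 493)
 (.a 0 [328,460] (.q 395 (.a 1 [] (.d 393 392 392 393 397)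
 (.a 1 [392] (.d 397 393 393 394 398)
 (.a 1 [393] (.d 331 1323 299 1355 459)
 .e))))
 .e))))
 .e))))
 .e))))
 .e)))) (by decide +kernel)

theorem b5_28 : S (PX [370] [304,337,428,436]) := S.of (.q 429 (.a 1 [] (.d 330 2345 297 2378 462)
 (.a 1 [297] (.d 462 2378 330 2411 495)
 (.a 0 [330,462] (.q 397 (.a 1 [] (.d 395 393 393 394 398)
 (.a 0 [393,395,398] (.q 365 (.a 1 [] (.d 333 1325 301 1357 461)
 (.a 1 [301] (.d 461 1357 333 1389 493)
 (.a 1 [461] (.r 301 1325 333 (.d 332 3342 270 3373 425))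
 (.a 0 [333] (.q 427 (.a 1 [] (.d 334 3375 303 3406 458)
 (.a 1 [303] (.d 458 3406 334 3437 489)
 (.a 1 [334] (.r 493 1389 461 (.d 460 2409 361 2442 526))
 .e))))
 .e)))))
 .e)))
 .e)))) (by decide +kernel)

theorem b5_71 : S (PX [] [304,366,436]) := S.of (.q 330 (.a 1 [] (.d 297 2312 264 2345 429)
 (.a 1 [264] (.d 429 2345 297 2378 462)
 (.a 0 [297,429] (.q 362 (.a 1 [] (.d 298 1290 266 1322 426)
 (.a 1 [266] (.d 426 1322 298 1354 458)
 (.a 0 [298,426] (.q 361 (.a 1 [] (.d 360 359 359 360 364)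
 (.a 1 [359] (.d 364 360 360 361 365)
 (.a 0 [360,364] (.q 427 (.a 1 [] (.d 328 2343 295 2376 460)
 (.a 1 [295] (.d 460 2376 328 2409 493)
 (.a 0 [328,460] (.q 395 (.a 1 [] (.d 393 392 392 393 397)
 (.a 1 [392] (.d 397 393 393 394 398)
 (.a 1 [393] (.d 331 1323 299 1355 459)
 .e))))
 .e))))
 .e))))
 .e))))
 .e)))) (by decide +kernel)

theorem b5_72 : S (PX [337] [273,304,370,436]) := S.of (.q 330 (.a 1 [] (.d 297 2312 264 2345 429)
 (.a 1 [264] (.d 429 2345 297 2378 462)
 (.a 0 [297,429] (.q 362 (.a 1 [] (.d 298 1290 266 1322 426)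
 (.a 1 [266] (.d 426 1322 298 1354 458)
 (.a 0 [298,426] (.q 361 (.a 1 [] (.d 360 359 359 360 364)
 (.a 1 [359] (.d 364 360 360 361 365)
 (.a 0 [360,364] (.q 427 (.a 1 [] (.d 328 2343 295 2376 460)
 (.a 1 [295] (.d 460 2376 328 2409 493)
 (.a 0 [328,460] (.q 395 (.a 1 [] (.d 393 392 392 393 397)
 (.a 1 [392] (.d 397 393 393 394 398)
 (.a 1 [393] (.d 331 1323 299 1355 459)
 .e))))
 .e))))
 .e))))
 .e))))
 .e)))) (by decide +kernel)

theorem b5_73 : S (PX [337] [304,330,370,436]) := S.of (.q 395 (.a 1 [] (.d 393 392 392 393 397)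
 (.a 1 [392] (.d 397 393 393 394 398)
 (.a 0 [393,397] (.q 427 (.a 1 [] (.d 331 1323 299 1355 459)
 (.a 1 [299] (.d 459 1355 331 1387 491)
 (.a 0 [331,459] (.q 332 (.a 1 [] (.d 301 3342 270 3373 425)
 (.a 1 [270] (.d 425 3373 301 3404 456)
 (.a 0 [301,425] (.q 365 (.a 1 [] (.d 334 3375 303 3406 458)
 (.a 1 [303] (.d 458 3406 334 3437 489)
 (.a 0 [334,458] (.q 364 (.a 1 [] (.d 362 361 361 362 366)
 (.a 1 [361] (.d 366 362 362 363 367)
 (.a 1 [362] (.d 300 1292 268 1324 428)
 .e))))
 .e))))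
 .e))))
 .e))))
 .e)))) (by decide +kernel)

theorem b5_74 : S (PX [337] [304,335,370,436]) := S.of (.q 332 (.a 1 [] (.d 301 3342 270 3373 425)
 (.a 1 [270] (.d 425 3373 301 3404 456)
 (.a 0 [301,425] (.q 397 (.a 1 [] (.d 395 393 393 394 398)
 (.a 0 [393,395,398] (.q 429 (.a 1 [] (.d 330 2345 297 2378 462)
 (.a 1 [297] (.d 462 2378 330 2411 495)
 (.a 0 [330,462] (.q 365 (.a 1 [] (.d 461 1357 333 1389 493)
 (.a 0 [333,461,493] (.q 364 (.a 1 [] (.d 362 361 361 362 366)
 (.a 1 [361] (.d 366 362 362 363 367)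
 (.a 1 [362] (.d 300 1292 268 1324 428)
 .e))))
 .e)))
 .e))))
 .e)))
 .e)))) (by decide +kernel)

theorem b5_75 : S (PX [337] [304,366,370,436]) := S.of (.q 330 (.a 1 [] (.d 297 2312 264 2345 429)
 (.a 1 [264] (.d 429 2345 297 2378 462)
 (.a 0 [297,429] (.q 362 (.a 1 [] (.d 298 1290 266 1322 426)
 (.a 1 [266] (.d 426 1322 298 1354 458)
 (.a 0 [298,426] (.q 361 (.a 1 [] (.d 360 359 359 360 364)
 (.a 1 [359] (.d 364 360 360 361 365)
 (.a 0 [360,364] (.q 427 (.a 1 [] (.d 328 2343 295 2376 460)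
 (.a 1 [295] (.d 460 2376 328 2409 493)
 (.a 0 [328,460] (.q 395 (.a 1 [] (.d 393 392 392 393 397)
 (.a 1 [392] (.d 397 393 393 394 398)
 (.a 1 [393] (.d 331 1323 299 1355 459)
 .e))))
 .e))))
 .e))))
 .e))))
 .e)))) (by decide +kernel)

theorem b5_76 : S (PX [337] [304,370,428,436]) := S.of (.q 429 (.a 1 [] (.d 330 2345 297 2378 462)
 (.a 1 [297] (.d 462 2378 330 2411 495)
 (.a 0 [330,462] (.q 397 (.a 1 [] (.d 395 393 393 394 398)
 (.a 0 [393,395,398] (.q 365 (.a 1 [] (.d 333 1325 301 1357 461)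
 (.a 1 [301] (.d 461 1357 333 1389 493)
 (.a 1 [461] (.r 301 1325 333 (.d 332 3342 270 3373 425))
 (.a 0 [333] (.q 427 (.a 1 [] (.d 334 3375 303 3406 458)
 (.a 1 [303] (.d 458 3406 334 3437 489)
 (.a 1 [334] (.r 493 1389 461 (.d 460 2409 361 2442 526))
 .e))))
 .e)))))
 .e)))
 .e)))) (by decide +kernel)

theorem b5_124 : S (PX [] [304,428,436]) := S.of (.q 429 (.a 1 [] (.d 330 2345 297 2378 462)
 (.a 1 [297] (.d 462 2378 330 2411 495)
 (.a 0 [330,462] (.q 397 (.a 1 [] (.d 395 393 393 394 398)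
 (.a 0 [393,395,398] (.q 365 (.a 1 [] (.d 333 1325 301 1357 461)
 (.a 1 [301] (.d 461 1357 333 1389 493)
 (.a 1 [461] (.r 301 1325 333 (.d 332 3342 270 3373 425))
 (.a 0 [333] (.q 427 (.a 1 [] (.d 334 3375 303 3406 458)
 (.a 1 [303] (.d 458 3406 334 3437 489)
 (.a 1 [334] (.r 493 1389 461 (.d 460 2409 361 2442 526))
 .e))))
 .e)))))
 .e)))
 .e)))) (by decide +kernel)

theorem b5_155 : S (PX [] [428,432,436]) := S.of (.q 429 (.a 1 [] (.d 330 2345 297 2378 462)
 (.a 1 [297] (.d 462 2378 330 2411 495)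
 (.a 0 [330,462] (.q 397 (.a 1 [] (.d 395 393 393 394 398)
 (.a 0 [393,395,398] (.q 365 (.a 1 [] (.d 333 1325 301 1357 461)
 (.a 1 [301] (.d 461 1357 333 1389 493)
 (.a 1 [461] (.r 301 1325 333 (.d 332 3342 270 3373 425))
 (.a 0 [333] (.q 427 (.a 1 [] (.d 334 3375 303 3406 458)
 (.a 1 [303] (.d 458 3406 334 3437 489)
 (.a 1 [334] (.r 493 1389 461 (.d 460 2409 361 2442 526))
 .e))))
 .e)))))
 .e)))
 .e)))) (by decide +kernel)

theorem b5_156 : S (PX [434] [330,432,433,436]) := S.of (.q 395 (.a 1 [] (.d 393 392 392 393 397)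
 (.a 1 [392] (.d 397 393 393 394 398)
 (.a 0 [393,397] (.q 427 (.a 1 [] (.d 331 1323 299 1355 459)
 (.a 1 [299] (.d 459 1355 331 1387 491)
 (.a 0 [331,459] (.q 332 (.a 1 [] (.d 301 3342 270 3373 425)
 (.a 1 [270] (.d 425 3373 301 3404 456)
 (.a 0 [301,425] (.q 361 (.a 1 [] (.d 328 2343 295 2376 460)
 (.a 1 [295] (.d 460 2376 328 2409 493)
 (.a 1 [328] (.r 460 2409 493 (.r 364 1356 428 (.d 362 360 360 361 365)))
 (.a 0 [460] (.q 364 (.a 1 [] (.d 362 360 360 361 365)
 (.a 1 [360] (.d 300 1292 268 1324 428)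
 .e)))
 .e)))))
 .e))))
 .e))))
 .e)))) (by decide +kernel)

theorem b5_157 : S (PX [434] [331,432,433,436]) := S.of (.q 332 (.a 1 [] (.d 301 3342 270 3373 425)
 (.a 1 [270] (.d 425 3373 301 3404 456)
 (.a 0 [301,425] (.q 364 (.a 1 [] (.d 300 1292 268 1324 428)
 (.a 1 [268] (.d 428 1324 300 1356 460)
 (.a 0 [300,428] (.q 362 (.a 1 [] (.d 361 360 360 361 365)
 (.a 1 [360] (.d 365 361 361 362 366)
 (.a 0 [361,365] (.q 330 (.a 1 [] (.d 298 1290 266 1322 426)
 (.a 1 [266] (.d 426 1322 298 1354 458)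
 (.a 1 [298] (.d 297 2312 264 2345 429)
 .e))))
 .e))))
 .e))))
 .e)))) (by decide +kernel)

theorem b5_158 : S (PX [434] [361,432,433,436]) := S.of (.q 395 (.a 1 [] (.d 393 392 392 393 397)
 (.a 1 [392] (.d 397 393 393 394 398)
 (.a 0 [393,397] (.q 425 (.a 1 [] (.d 332 3373 301 3404 456)
 (.a 1 [301] (.d 456 3404 332 3435 487)
 (.a 0 [332,456] (.q 427 (.a 1 [] (.d 331 1323 299 1355 459)
 (.a 1 [299] (.d 459 1355 331 1387 491)
 (.a 0 [331,459] (.q 458 (.a 1 [] (.d 365 3406 334 3437 489)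
 (.a 1 [334] (.d 489 3437 365 3468 520)
 (.a 0 [365,489] (.q 426 (.a 1 [] (.d 424 423 423 424 428)
 (.a 1 [423] (.d 428 424 424 425 429)
 (.a 1 [424] (.d 362 1354 330 1386 490)
 .e))))
 .e))))
 .e))))
 .e))))
 .e)))) (by decide +kernel)

theorem b5_159 : S (PX [434] [365,432,433,436]) := S.of (.q 395 (.a 1 [] (.d 393 392 392 393 397)
 (.a 1 [392] (.d 397 393 393 394 398)
 (.a 0 [393,397] (.q 429 (.a 1 [] (.d 330 2345 297 2378 462)
 (.a 1 [297] (.d 462 2378 330 2411 495)
 (.a 0 [330,462] (.q 427 (.a 1 [] (.d 331 1323 299 1355 459)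
 (.a 1 [299] (.d 459 1355 331 1387 491)
 (.a 0 [331,459] (.q 460 (.a 1 [] (.d 361 2376 328 2409 493)
 (.a 1 [328] (.d 493 2409 361 2442 526)
 (.a 0 [361,493] (.q 428 (.a 1 [] (.d 426 425 425 426 430)
 (.a 1 [425] (.d 430 426 426 427 431)
 (.a 1 [426] (.d 364 1356 332 1388 492)
 .e))))
 .e))))
 .e))))
 .e))))
 .e)))) (by decide +kernel)

theorem b5_160 : S (PX [434] [392,432,433,436]) := S.of (.q 332 (.a 1 [] (.d 301 3342 270 3373 425)
 (.a 1 [270] (.d 425 3373 301 3404 456)
 (.a 0 [301,425] (.q 364 (.a 1 [] (.d 300 1292 268 1324 428)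
 (.a 1 [268] (.d 428 1324 300 1356 460)
 (.a 0 [300,428] (.q 429 (.a 1 [] (.d 330 2345 297 2378 462)
 (.a 1 [297] (.d 462 2378 330 2411 495)
 (.a 0 [330,462] (.q 397 (.a 1 [] (.d 395 393 393 394 398)
 (.a 0 [393,395,398] (.q 365 (.a 1 [] (.d 362 361 361 362 366)
 (.a 1 [361] (.d 366 362 362 363 367)
 (.a 1 [362] (.d 461 1357 333 1389 493)
 .e))))
 .e)))
 .e))))
 .e))))
 .e)))) (by decide +kernel)

theorem b5_161 : S (PX [434] [393,432,433,436]) := S.of (.q 332 (.a 1 [] (.d 301 3342 270 3373 425)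
 (.a 1 [270] (.d 425 3373 301 3404 456)
 (.a 0 [301,425] (.q 364 (.a 1 [] (.d 300 1292 268 1324 428)
 (.a 1 [268] (.d 428 1324 300 1356 460)
 (.a 0 [300] (.q 361 (.a 1 [] (.d 362 360 360 361 365)
 (.a 1 [360] (.r 365 361 362 (.r 460 1356 428 (.d 427 2376 328 2409 493)))
 (.a 1 [362] (.r 460 1356 428 (.d 427 2376 328 2409 493))
 .e))))
 (.a 0 [428] (.q 365 (.a 1 [] (.d 362 361 361 362 366)
 (.a 1 [361] (.d 366 362 362 363 367)
 (.a 0 [362,366] (.q 429 (.a 1 [] (.d 330 2345 297 2378 462)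
 (.a 1 [297] (.d 462 2378 330 2411 495)
 (.a 0 [330,462] (.q 398 (.a 1 [] (.d 299 2314 266 2347 431)
 (.a 1 [266] (.d 431 2347 299 2380 464)
 (.a 1 [299] (.r 397 394 395 (.d 461 1357 333 1389 493))
 .e))))
 .e))))
 .e))))
 .e)))))
 .e)))) (by decide +kernel)

theorem b5_162 : S (PX [434] [395,432,433,436]) := S.of (.q 332 (.a 1 [] (.d 301 3342 270 3373 425)
 (.a 1 [270] (.d 425 3373 301 3404 456)
 (.a 0 [301,425] (.q 364 (.a 1 [] (.d 300 1292 268 1324 428)
 (.a 1 [268] (.d 428 1324 300 1356 460)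
 (.a 0 [300,428] (.q 362 (.a 1 [] (.d 361 360 360 361 365)
 (.a 1 [360] (.d 365 361 361 362 366)
 (.a 0 [361,365] (.q 330 (.a 1 [] (.d 298 1290 266 1322 426)
 (.a 1 [266] (.d 426 1322 298 1354 458)
 (.a 1 [298] (.d 297 2312 264 2345 429)
 .e))))
 .e))))
 .e))))
 .e)))) (by decide +kernel)

theorem b5_163 : S (PX [434] [397,432,433,436]) := S.of (.q 429 (.a 1 [] (.d 330 2345 297 2378 462)
 (.a 1 [297] (.d 462 2378 330 2411 495)
 (.a 0 [330,462] (.q 332 (.a 1 [] (.d 301 3342 270 3373 425)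
 (.a 1 [270] (.d 425 3373 301 3404 456)
 (.a 0 [301] (.q 428 (.a 1 [] (.d 364 1324 300 1356 460)
 (.a 1 [300] (.r 460 1356 364 (.r 425 3404 456 (.r 427 425 426 (.d 493 2409 361 2442 526))))
 (.a 0 [364,460] (.q 427 (.a 1 [] (.d 425 425 426 3404 456)
 (.a 1 [425] (.d 430 426 426 427 431)
 (.a 0 [426] (.q 365 (.a 1 [] (.d 334 3375 303 3406 458)
 (.a 1 [303] (.d 458 3406 334 3437 489)
 (.a 1 [334] (.r 431 427 430 (.d 398 2347 299 2380 464))
 .e))))
 .e))))
 .e))))
 (.a 0 [425] (.q 364 (.a 1 [] (.d 300 1292 268 1324 428)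
 (.a 1 [268] (.d 428 1324 300 1356 460)
 (.a 0 [300] (.q 361 (.a 1 [] (.d 362 360 360 361 365)
 (.a 1 [360] (.r 460 1356 428 (.d 427 2376 328 2409 493))
 .e)))
 (.a 0 [428] (.q 362 (.a 1 [] (.d 361 360 360 361 365)
 (.a 1 [360] (.d 365 361 361 362 366)
 (.a 0 [361,365] (.r 300 1292 268 (.r 301 3342 270 (.q 299 (.a 1 [] (.d 298 297 297 298 302)
 (.a 1 [297] (.d 302 298 298 299 303)
 (.a 0 [298,302] (.q 331 (.a 1 [] (.d 267 1259 235 1291 395)
 (.a 1 [235] (.d 395 1291 267 1323 427)
 (.a 1 [267] (.d 393 3341 269 3372 424)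
 .e))))
 .e))))))
 .e))))
 .e)))))
 .e)))))
 .e)))) (by decide +kernel)

theorem b5_164 : S (PX [434] [424,432,433,436]) := S.of (.q 332 (.a 1 [] (.d 301 3342 270 3373 425)
 (.a 1 [270] (.d 425 3373 301 3404 456)
 (.a 0 [301,425] (.q 429 (.a 1 [] (.d 330 2345 297 2378 462)
 (.a 1 [297] (.d 462 2378 330 2411 495)
 (.a 0 [330,462] (.q 397 (.a 1 [] (.d 395 393 393 394 398)
 (.a 0 [393,395,398] (.q 365 (.a 1 [] (.d 461 1357 333 1389 493)
 (.a 0 [333,461,493] (.q 364 (.a 1 [] (.d 362 361 361 362 366)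
 (.a 1 [361] (.d 366 362 362 363 367)
 (.a 1 [362] (.d 300 1292 268 1324 428)
 .e))))
 .e)))
 .e)))
 .e))))
 .e)))) (by decide +kernel)

theorem b5_165 : S (PX [434] [427,432,433,436]) := S.of (.q 429 (.a 1 [] (.d 330 2345 297 2378 462)
 (.a 1 [297] (.d 462 2378 330 2411 495)
 (.a 0 [330,462] (.q 332 (.a 1 [] (.d 301 3342 270 3373 425)
 (.a 1 [270] (.d 425 3373 301 3404 456)
 (.a 0 [301,425] (.q 397 (.a 1 [] (.d 395 393 393 394 398)
 (.a 0 [393,395,398] (.q 365 (.a 1 [] (.d 461 1357 333 1389 493)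
 (.a 0 [333,461,493] (.q 364 (.a 1 [] (.d 362 361 361 362 366)
 (.a 1 [361] (.d 366 362 362 363 367)
 (.a 1 [362] (.d 300 1292 268 1324 428)
 .e))))
 .e)))
 .e)))
 .e))))
 .e)))) (by decide +kernel)

theorem b5_166 : S (PX [434] [428,432,433,436]) := S.of (.q 429 (.a 1 [] (.d 330 2345 297 2378 462)
 (.a 1 [297] (.d 462 2378 330 2411 495)
 (.a 0 [330,462] (.q 397 (.a 1 [] (.d 395 393 393 394 398)
 (.a 0 [393,395,398] (.q 365 (.a 1 [] (.d 333 1325 301 1357 461)
 (.a 1 [301] (.d 461 1357 333 1389 493)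
 (.a 1 [461] (.r 301 1325 333 (.d 332 3342 270 3373 425))
 (.a 0 [333] (.q 427 (.a 1 [] (.d 334 3375 303 3406 458)
 (.a 1 [303] (.d 458 3406 334 3437 489)
 (.a 1 [334] (.r 493 1389 461 (.d 460 2409 361 2442 526))
 .e))))
 .e)))))
 .e)))
 .e)))) (by decide +kernel)

theorem b5_178 : S (PX [434] [429,432,433,436]) := S.of (.q 395 (.a 1 [] (.d 393 392 392 393 397)
 (.a 0 [397] (.q 425 (.a 1 [] (.d 332 3373 301 3404 456)
 (.a 0 [332] (.r 392 392 393 (.q 427 (.a 1 [] (.d 331 1323 299 1355 459)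
 (.a 1 [459] (.q 458 (.a 1 [] (.d 359 2374 326 2407 491)
 (.a 1 [430] (.q 431 (.a 1 [] (.d 359 2374 326 2407 491)
 (.a 1 [491] (.d 489 3437 365 3468 520)
 .e)))
 (.a 1 [431] (.q 430 (.a 1 [] (.d 359 2374 326 2407 491)
 (.a 1 [491] (.d 365 3406 334 3437 489)
 .e)))
 (.a 1 [491] (.d 365 3406 334 3437 489)
 .e)))))
 (.a 1 [430] (.q 431 (.a 1 [] (.d 331 1323 299 1355 459)
 (.a 1 [331] (.r 491 1387 459 (.d 458 2407 359 2440 524))
 (.a 1 [459] (.q 458 (.a 1 [] (.d 359 2374 326 2407 491)
 (.a 1 [326] (.d 491 2407 359 2440 524)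
 (.a 1 [359] (.d 365 3406 334 3437 489)
 .e))))
 .e))))
 (.a 1 [431] (.q 430 (.a 1 [] (.d 331 1323 299 1355 459)
 (.a 1 [331] (.r 491 1387 459 (.d 458 2407 359 2440 524))
 (.a 1 [459] (.q 458 (.a 1 [] (.d 359 2374 326 2407 491)
 (.a 1 [326] (.d 491 2407 359 2440 524)
 (.a 1 [359] (.d 365 3406 334 3437 489)
 .e))))
 .e))))
 (.a 1 [331] (.r 491 1387 459 (.d 458 2407 359 2440 524))
 .e)))))))
 (.a 0 [456] (.r 392 392 393 (.q 427 (.a 1 [] (.d 331 1323 299 1355 459)
 (.a 1 [459] (.r 332 3373 301 (.q 365 (.a 1 [] (.d 334 3375 303 3406 458)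
 (.a 1 [431] (.q 430 (.a 1 [] (.d 334 3375 303 3406 458)
 (.a 1 [458] (.r 299 1323 331 (.d 266 2281 233 2314 398))
 .e)))
 (.a 1 [458] (.r 299 1323 331 (.d 398 2314 266 2347 431))
 (.a 1 [430] (.q 431 (.a 1 [] (.d 299 1323 331 2347 398)
 (.a 1 [299] (.d 334 3375 303 3406 458)
 .e)))
 .e))))))
 (.a 1 [430] (.q 431 (.a 1 [] (.d 331 1323 299 1355 459)
 (.a 1 [331] (.r 491 1387 459 (.d 458 2407 359 2440 524))
 (.a 1 [459] (.q 458 (.a 1 [] (.d 359 2374 326 2407 491)
 (.a 1 [326] (.d 491 2407 359 2440 524)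
 (.a 1 [359] (.d 365 3406 334 3437 489)
 .e))))
 .e))))
 (.a 1 [431] (.q 430 (.a 1 [] (.d 331 1323 299 1355 459)
 (.a 1 [459] (.q 458 (.a 1 [] (.d 359 2374 326 2407 491)
 (.a 1 [326] (.d 491 2407 359 2440 524)
 (.a 1 [359] (.d 365 3406 334 3437 489)
 .e))))
 .e)))
 (.a 1 [331] (.r 491 1387 459 (.d 458 2407 359 2440 524))
 .e)))))))
 (.a 1 [430] (.q 431 (.a 1 [] (.d 456 3404 332 3435 487)
 (.a 1 [332] (.r 392 392 393 (.q 427 (.a 1 [] (.d 331 1323 299 1355 459)
 (.a 1 [299] (.d 459 1355 331 1387 491)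
 (.a 1 [331] (.r 491 1387 459 (.d 458 2407 359 2440 524))
 (.a 0 [459] (.q 458 (.a 1 [] (.d 359 2374 326 2407 491)
 (.a 1 [326] (.d 491 2407 359 2440 524)
 (.a 1 [359] (.d 365 3406 334 3437 489)
 .e))))
 .e))))))
 .e)))
 (.a 1 [431] (.q 430 (.a 1 [] (.d 456 3404 332 3435 487)
 (.a 1 [332] (.q 427 (.a 1 [] (.d 331 1323 299 1355 459)
 (.a 1 [299] (.d 459 1355 331 1387 491)
 (.a 0 [331,459] (.q 458 (.a 1 [] (.d 365 3406 334 3437 489)
 (.a 1 [334] (.d 489 3437 365 3468 520)
 (.a 1 [365] (.r 392 392 393 (.d 491 2407 359 2440 524))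
 .e))))
 .e))))
 .e)))
 (.a 1 [301] (.d 456 3404 332 3435 487)
 .e)))))))
 (.a 0 [393] (.q 431 (.a 1 [] (.q 332 (.a 1 [] (.d 301 3342 270 3373 425)
 (.a 1 [270] (.d 425 3373 301 3404 456)
 (.a 1 [301] (.r 398 394 397 (.d 365 2347 299 2380 464))
 .e))))
 (.a 1 [332] (.q 427 (.a 1 [] (.d 331 1323 299 1355 459)
 (.a 1 [331] (.q 460 (.a 1 [] (.d 361 2376 328 2409 493)
 (.a 1 [328] (.d 493 2409 361 2442 526)
 (.a 0 [361,493] (.q 458 (.a 1 [] (.d 365 3406 334 3437 489)
 (.a 1 [334] (.d 489 3437 365 3468 520)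
 (.a 1 [365] (.r 459 1387 491 (.d 461 457 457 458 462))
 .e))))
 .e))))
 (.a 1 [459] (.q 365 (.a 1 [] (.d 334 3375 303 3406 458)
 (.a 1 [303] (.d 458 3406 334 3437 489)
 (.a 0 [334,458] (.q 364 (.a 1 [] (.d 362 361 361 362 366)
 (.a 1 [361] (.d 366 362 362 363 367)
 (.a 1 [366] (.r 361 361 362 (.d 460 2376 328 2409 493))
 (.a 0 [362] (.q 333 (.a 1 [] (.d 302 3343 271 3374 426)
 (.a 1 [271] (.d 426 3374 302 3405 457)
 (.a 1 [302] (.r 397 394 398 (.r 331 1323 299 (.d 430 2346 298 2379 463)))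
 .e))))
 .e)))))
 .e))))
 (.a 1 [299] (.d 459 1355 331 1387 491)
 .e)))))
 (.a 0 [365] (.q 427 (.a 1 [] (.d 331 1323 299 1355 459)
 (.a 0 [459] (.q 460 (.a 1 [] (.d 361 2376 328 2409 493)
 (.a 0 [493] (.r 361 2376 328 (.r 299 1323 331 (.q 330 (.a 1 [] (.d 268 3309 237 3340 392)
 (.a 0 [392] (.q 362 (.a 1 [] (.d 360 359 359 360 364)
 (.a 1 [397] (.q 461 (.a 1 [] (.d 360 359 359 360 364)
 (.a 1 [301] (.q 333 (.a 1 [] (.d 428 2377 329 2410 494)
 (.a 1 [329] (.d 360 359 359 360 364)
 .e)))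
 (.a 1 [333] (.q 301 (.a 1 [] (.d 428 2377 329 2410 494)
 (.a 1 [329] (.d 360 359 359 360 364)
 .e)))
 (.a 1 [359] (.d 428 2377 329 2410 494)
 .e)))))
 (.a 1 [461] (.r 397 394 398 (.d 360 359 359 360 364))
 (.a 1 [359] (.d 298 1290 266 1322 426)
 .e)))))
 (.a 0 [268] (.q 362 (.a 1 [] (.d 360 359 359 360 364)
 (.a 1 [397] (.q 461 (.a 1 [] (.d 360 359 359 360 364)
 (.a 1 [301] (.q 333 (.a 1 [] (.d 428 2377 329 2410 494)
 (.a 1 [329] (.d 360 359 359 360 364)
 .e)))
 (.a 1 [333] (.q 301 (.a 1 [] (.d 428 2377 329 2410 494)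
 (.a 1 [329] (.d 360 359 359 360 364)
 .e)))
 (.a 1 [359] (.d 428 2377 329 2410 494)
 .e)))))
 (.a 1 [461] (.r 397 394 398 (.d 360 359 359 360 364))
 (.a 1 [359] (.d 298 1290 266 1322 426)
 .e)))))
 (.a 0 [397] (.q 461 (.a 1 [] (.d 392 3340 268 3371 423)
 (.a 1 [301] (.q 333 (.a 1 [] (.d 268 3309 237 3340 392)
 (.a 1 [268] (.q 362 (.a 1 [] (.d 360 359 359 360 364)
 (.a 1 [359] (.d 428 2377 329 2410 494)
 .e)))
 .e)))
 (.a 1 [392] (.q 301 (.a 1 [] (.d 332 3342 270 3373 425)
 (.a 1 [270] (.r 297 2312 264 (.r 298 297 300 (.d 362 1290 266 1322 426)))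
 .e)))
 (.a 1 [333] (.q 301 (.a 1 [] (.d 268 3309 237 3340 392)
 (.a 1 [237] (.d 392 3340 268 3371 423)
 (.a 1 [268] (.d 332 3342 270 3373 425)
 .e))))
 .e)))))
 (.a 1 [461] (.r 397 394 398 (.d 392 3340 268 3371 423))
 .e))))))))
 (.a 1 [361] (.q 524 (.a 1 [] (.r 493 2442 526 (.d 462 3472 400 3503 555))
 (.a 1 [400] (.r 428 1420 492 (.r 332 1356 364 (.d 425 3373 301 3404 456)))
 .e)))
 .e))))
 (.a 1 [331] (.q 425 (.a 1 [] (.d 332 3373 301 3404 456)
 (.a 1 [301] (.d 456 3404 332 3435 487)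
 (.a 0 [332,456] (.q 426 (.a 1 [] (.d 424 423 423 424 428)
 (.a 0 [423,424,428] (.q 362 (.a 1 [] (.d 330 1322 298 1354 458)
 (.a 1 [298] (.d 458 1354 330 1386 490)
 (.a 1 [330] (.r 458 1386 490 (.r 491 1387 459 (.d 524 2440 392 2473 557)))
 (.a 0 [458] (.q 361 (.a 1 [] (.d 360 359 359 360 364)
 (.a 1 [359] (.d 460 2376 328 2409 493)
 .e)))
 .e)))))
 .e)))
 .e))))
 (.a 1 [299] (.d 459 1355 331 1387 491)
 .e)))))
 (.a 1 [398] (.q 427 (.a 1 [] (.d 331 1323 299 1355 459)
 (.a 1 [299] (.d 459 1355 331 1387 491)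
 (.a 0 [331,459] (.q 460 (.a 1 [] (.d 361 2376 328 2409 493)
 (.a 1 [328] (.d 493 2409 361 2442 526)
 (.a 0 [361,493] (.q 428 (.a 1 [] (.d 364 1356 332 1388 492)
 (.a 1 [332] (.d 492 1388 364 1420 524)
 (.a 1 [492] (.r 332 1356 364 (.d 425 3373 301 3404 456))
 (.a 0 [364] (.q 425 (.a 1 [] (.d 332 3373 301 3404 456)
 (.a 1 [301] (.d 456 3404 332 3435 487)
 (.a 0 [332,456] (.q 362 (.a 1 [] (.d 329 2344 296 2377 461)
 (.a 1 [296] (.d 461 2377 329 2410 494)
 (.a 1 [329] (.r 426 424 424 (.d 458 1354 330 1386 490))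
 .e))))
 .e))))
 .e)))))
 .e))))
 .e))))
 (.a 1 [397] (.q 427 (.a 1 [] (.d 331 1323 299 1355 459)
 (.a 1 [299] (.d 459 1355 331 1387 491)
 (.a 0 [331,459] (.q 365 (.a 1 [] (.d 334 3375 303 3406 458)
 (.a 1 [303] (.d 458 3406 334 3437 489)
 (.a 0 [334,458] (.q 332 (.a 1 [] (.d 398 2347 299 2380 464)
 (.a 1 [299] (.d 425 3373 301 3404 456)
 .e)))
 .e))))
 .e))))
 (.a 1 [425] (.q 427 (.a 1 [] (.d 331 1323 299 1355 459)
 (.a 1 [299] (.d 459 1355 331 1387 491)
 (.a 0 [331,459] (.q 365 (.a 1 [] (.d 334 3375 303 3406 458)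
 (.a 1 [303] (.d 458 3406 334 3437 489)
 (.a 1 [334] (.r 398 394 397 (.d 464 2380 332 2413 497))
 .e))))
 .e))))
 (.a 1 [299] (.q 332 (.a 1 [] (.d 301 3342 270 3373 425)
 (.a 1 [270] (.d 425 3373 301 3404 456)
 (.a 0 [301,425] (.q 364 (.a 1 [] (.d 300 1292 268 1324 428)
 (.a 1 [268] (.d 428 1324 300 1356 460)
 (.a 1 [300] (.r 398 394 397 (.r 365 2380 464 (.d 366 362 362 363 367)))
 .e))))
 .e))))
 (.a 1 [301] (.q 427 (.a 1 [] (.d 331 1323 299 1355 459)
 (.a 1 [299] (.d 459 1355 331 1387 491)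
 (.a 0 [331,459] (.q 365 (.a 1 [] (.d 334 3375 303 3406 458)
 (.a 1 [303] (.d 458 3406 334 3437 489)
 (.a 1 [334] (.r 398 394 397 (.d 464 2380 332 2413 497))
 .e))))
 .e))))
 (.a 1 [400] (.q 332 (.a 1 [] (.d 301 3342 270 3373 425)
 (.a 1 [270] (.d 425 3373 301 3404 456)
 (.a 1 [301] (.r 398 394 397 (.d 365 2347 299 2380 464))
 .e))))
 (.a 1 [493] (.q 332 (.a 1 [] (.d 301 3342 270 3373 425)
 (.a 1 [270] (.d 425 3373 301 3404 456)
 (.a 1 [301] (.r 398 394 397 (.d 365 2347 299 2380 464))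
 .e))))
 (.a 1 [333] (.q 332 (.a 1 [] (.d 301 3342 270 3373 425)
 (.a 1 [270] (.d 425 3373 301 3404 456)
 (.a 1 [301] (.r 398 394 397 (.d 365 2347 299 2380 464))
 .e))))
 (.a 1 [461] (.q 332 (.a 1 [] (.d 301 3342 270 3373 425)
 (.a 1 [270] (.d 425 3373 301 3404 456)
 (.a 1 [301] (.r 398 394 397 (.d 365 2347 299 2380 464))
 .e))))
 (.a 1 [334] (.q 332 (.a 1 [] (.d 301 3342 270 3373 425)
 (.a 1 [270] (.d 425 3373 301 3404 456)
 (.a 1 [301] (.r 398 394 397 (.d 365 2347 299 2380 464))
 .e))))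
 (.a 1 [525] (.q 332 (.a 1 [] (.d 301 3342 270 3373 425)
 (.a 1 [270] (.d 425 3373 301 3404 456)
 (.a 1 [301] (.r 398 394 397 (.d 365 2347 299 2380 464))
 .e))))
 (.a 1 [367] (.q 332 (.a 1 [] (.d 301 3342 270 3373 425)
 (.a 1 [270] (.d 425 3373 301 3404 456)
 (.a 1 [301] (.r 398 394 397 (.d 365 2347 299 2380 464))
 .e))))
 .e))))))))))))))))
 (.a 1 [430] (.q 431 (.a 1 [] (.d 397 393 393 394 398)
 (.a 1 [397] (.q 332 (.a 1 [] (.d 301 3342 270 3373 425)
 (.a 1 [270] (.d 425 3373 301 3404 456)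
 (.a 0 [301,425] (.q 365 (.a 1 [] (.d 398 2347 299 2380 464)
 (.a 1 [464] (.r 299 2347 398 (.d 331 1291 267 1323 427))
 (.a 0 [299,398] (.q 364 (.a 1 [] (.d 362 361 361 362 366)
 (.a 1 [361] (.d 366 362 362 363 367)
 (.a 1 [362] (.d 300 1292 268 1324 428)
 .e))))
 .e))))
 .e))))
 (.a 1 [393] (.q 332 (.a 1 [] (.d 301 3342 270 3373 425)
 (.a 1 [270] (.d 425 3373 301 3404 456)
 (.a 1 [301] (.r 398 394 397 (.d 365 2347 299 2380 464))
 .e))))
 (.a 1 [398] (.d 393 392 392 393 397)
 .e)))))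
 (.a 1 [431] (.q 430 (.a 1 [] (.d 397 393 393 394 398)
 (.a 1 [397] (.q 427 (.a 1 [] (.d 331 1323 299 1355 459)
 (.a 1 [299] (.d 459 1355 331 1387 491)
 (.a 0 [331,459] (.q 365 (.a 1 [] (.d 334 3375 303 3406 458)
 (.a 1 [303] (.d 458 3406 334 3437 489)
 (.a 0 [334,458] (.q 364 (.a 1 [] (.d 362 361 361 362 366)
 (.a 1 [361] (.d 366 362 362 363 367)
 (.a 1 [366] (.r 361 361 362 (.d 460 2376 328 2409 493))
 (.a 0 [362] (.q 332 (.a 1 [] (.d 300 1292 268 1324 428)
 (.a 1 [268] (.d 428 1324 300 1356 460)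
 (.a 1 [300] (.d 301 3342 270 3373 425)
 .e))))
 .e)))))
 .e))))
 .e))))
 (.a 1 [393] (.q 331 (.a 1 [] (.d 299 1291 267 1323 427)
 (.a 1 [267] (.d 427 1323 299 1355 459)
 (.a 1 [299] (.r 397 394 398 (.d 364 2346 298 2379 463))
 .e))))
 (.a 1 [398] (.d 393 392 392 393 397)
 .e)))))
 (.a 1 [392] (.d 397 393 393 394 398)
 .e))))))) (by decide +kernel)

theorem b5_179 : S (PX [434] [430,432,433,436]) := S.of (.q 429 (.a 1 [] (.d 330 2345 297 2378 462)
 (.a 1 [297] (.d 462 2378 330 2411 495)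
 (.a 0 [330,462] (.q 332 (.a 1 [] (.d 301 3342 270 3373 425)
 (.a 1 [270] (.d 425 3373 301 3404 456)
 (.a 0 [301,425] (.q 364 (.a 1 [] (.d 300 1292 268 1324 428)
 (.a 1 [268] (.d 428 1324 300 1356 460)
 (.a 0 [300,428] (.q 361 (.a 1 [] (.d 362 360 360 361 365)
 (.a 0 [360,362,365] (.q 427 (.a 1 [] (.d 328 2343 295 2376 460)
 (.a 1 [295] (.d 460 2376 328 2409 493)
 (.a 0 [328,460] (.q 395 (.a 1 [] (.d 393 392 392 393 397)
 (.a 1 [392] (.d 397 393 393 394 398)
 (.a 1 [393] (.d 331 1323 299 1355 459)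
 .e))))
 .e))))
 .e)))
 .e))))
 .e))))
 .e)))) (by decide +kernel)

theorem b5_180 : S (PX [434] [431,432,433,436]) := S.of (.q 429 (.a 1 [] (.d 330 2345 297 2378 462)
 (.a 1 [297] (.d 462 2378 330 2411 495)
 (.a 0 [330,462] (.q 332 (.a 1 [] (.d 301 3342 270 3373 425)
 (.a 1 [270] (.d 425 3373 301 3404 456)
 (.a 0 [301,425] (.q 395 (.a 1 [] (.d 393 392 392 393 397)
 (.a 1 [392] (.d 397 393 393 394 398)
 (.a 0 [393,397] (.q 299 (.a 1 [] (.d 331 1291 267 1323 427)
 (.a 0 [267,331,427] (.q 365 (.a 1 [] (.d 266 2281 233 2314 398)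
 (.a 0 [233,266,398] (.q 364 (.a 1 [] (.d 362 361 361 362 366)
 (.a 1 [361] (.d 366 362 362 363 367)
 (.a 1 [362] (.d 300 1292 268 1324 428)
 .e))))
 .e)))
 .e)))
 .e))))
 .e))))
 .e)))) (by decide +kernel)

theorem b5_181 : S (PX [434] [432,433,436,458]) := S.of (.q 395 (.a 1 [] (.d 393 392 392 393 397)
 (.a 1 [392] (.d 397 393 393 394 398)
 (.a 0 [393,397] (.q 427 (.a 1 [] (.d 331 1323 299 1355 459)
 (.a 1 [299] (.d 459 1355 331 1387 491)
 (.a 0 [331,459] (.q 460 (.a 1 [] (.d 361 2376 328 2409 493)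
 (.a 1 [328] (.d 493 2409 361 2442 526)
 (.a 0 [361,493] (.q 429 (.a 1 [] (.d 330 2345 297 2378 462)
 (.a 1 [297] (.d 462 2378 330 2411 495)
 (.a 0 [330,462] (.q 428 (.a 1 [] (.d 426 425 425 426 430)
 (.a 1 [425] (.d 430 426 426 427 431)
 (.a 1 [426] (.d 364 1356 332 1388 492)
 .e))))
 .e))))
 .e))))
 .e))))
 .e)))) (by decide +kernel)

theorem b5_182 : S (PX [434] [432,433,436,489]) := S.of (.q 395 (.a 1 [] (.d 393 392 392 393 397)
 (.a 1 [392] (.d 397 393 393 394 398)
 (.a 0 [393,397] (.q 427 (.a 1 [] (.d 331 1323 299 1355 459)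
 (.a 1 [299] (.d 459 1355 331 1387 491)
 (.a 0 [331,459] (.q 425 (.a 1 [] (.d 332 3373 301 3404 456)
 (.a 1 [301] (.d 456 3404 332 3435 487)
 (.a 0 [332,456] (.q 460 (.a 1 [] (.d 361 2376 328 2409 493)
 (.a 1 [328] (.d 493 2409 361 2442 526)
 (.a 0 [361,493] (.q 429 (.a 1 [] (.d 330 2345 297 2378 462)
 (.a 1 [297] (.d 462 2378 330 2411 495)
 (.a 1 [330] (.r 428 425 426 (.d 492 1388 364 1420 524))
 .e))))
 .e))))
 .e))))
 .e))))
 .e)))) (by decide +kernel)

theorem b5_213 : S (PX [433] [428,432,434,436]) := S.of (.q 429 (.a 1 [] (.d 330 2345 297 2378 462)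
 (.a 1 [297] (.d 462 2378 330 2411 495)
 (.a 0 [330,462] (.q 397 (.a 1 [] (.d 395 393 393 394 398)
 (.a 0 [393,395,398] (.q 365 (.a 1 [] (.d 333 1325 301 1357 461)
 (.a 1 [301] (.d 461 1357 333 1389 493)
 (.a 1 [461] (.r 301 1325 333 (.d 332 3342 270 3373 425))
 (.a 0 [333] (.q 427 (.a 1 [] (.d 334 3375 303 3406 458)
 (.a 1 [303] (.d 458 3406 334 3437 489)
 (.a 1 [334] (.r 493 1389 461 (.d 460 2409 361 2442 526))
 .e))))
 .e)))))
 .e)))
 .e)))) (by decide +kernel)

theorem v5_0 : VW (PX [238,370] [205,304,337,436]) := VW.of base nl_ok fl_ok .nil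
  []
  [([273], (PX [238,370] [205,273,304,337,436])), ([330], (PX [238,370] [205,304,330,337,436])), ([335], (PX [238,370] [205,304,335,337,436])), ([366], (PX [238,370] [205,304,337,366,436])), ([428], (PX [238,370] [205,304,337,428,436]))]
  (by decide +kernel) ⟨b5_3, b5_4, b5_5, b5_6, b5_7, trivial⟩

theorem v5_3 : VW (PX [238,370] [271,304,337,436]) := VW.of base nl_ok fl_ok .nil
  []
  [([273], (PX [238,370] [271,273,304,337,436])), ([330], (PX [238,370] [271,304,330,337,436])), ([335], (PX [238,370] [271,304,335,337,436])), ([366], (PX [238,370] [271,304,337,366,436])), ([428], (PX [238,370] [271,304,337,428,436]))]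
  (by decide +kernel) ⟨b5_18, b5_19, b5_20, b5_21, b5_22, trivial⟩

theorem w5_4_205 : S (PX [370] [205,304,337,436]) := VW.play 238 (PX [238,370] [205,304,337,436]) (by decide +kernel) v5_0

theorem w5_4_271 : S (PX [370] [271,304,337,436]) := VW.play 238 (PX [238,370] [271,304,337,436]) (by decide +kernel) v5_3

theorem v5_4 : VW (PX [370] [304,337,436]) := VW.of base nl_ok fl_ok .nil
  [(238, (.cons 205 271 .nil (.cons 271 205 .nil .nil)))]
  [([205], (PX [370] [205,304,337,436])), ([271], (PX [370] [271,304,337,436])), ([273], (PX [370] [273,304,337,436])), ([330], (PX [370] [304,330,337,436])), ([333], (PX [370] [304,333,337,436])), ([335], (PX [370] [304,335,337,436])), ([366], (PX [370] [304,337,366,436])), ([428], (PX [370] [304,337,428,436]))]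
  (by decide +kernel) ⟨w5_4_205, w5_4_271, b5_23, b5_24, b5_25, b5_26, b5_27, b5_28, trivial⟩

theorem v5_13 : VW (PX [337] [304,370,436]) := VW.of base nl_ok fl_ok .nil
  [(403, (.cons 469 502 .nil (.cons 502 469 .nil .nil))), (469, (.cons 403 502 .nil (.cons 502 403 (.cons 535 568 .nil (.cons 568 535 .nil .nil)) .nil))), (502, (.cons 403 469 .nil (.cons 469 403 (.cons 535 568 .nil (.cons 568 535 .nil .nil)) .nil)))]
  [([273], (PX [337] [273,304,370,436])), ([330], (PX [337] [304,330,370,436])), ([335], (PX [337] [304,335,370,436])), ([366], (PX [337] [304,366,370,436])), ([428], (PX [337] [304,370,428,436]))]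
  (by decide +kernel) ⟨b5_72, b5_73, b5_74, b5_75, b5_76, trivial⟩

theorem w5_23_337 : S (PX [] [304,337,436]) := VW.play 370 (PX [370] [304,337,436]) (by decide +kernel) v5_4

theorem w5_23_370 : S (PX [] [304,370,436]) := VW.play 337 (PX [337] [304,370,436]) (by decide +kernel) v5_13

theorem v5_23 : VW (PX [] [304,436]) := VW.of base nl_ok fl_ok .nil
  [(403, (.cons 337 370 .nil (.cons 370 337 (.cons 469 502 .nil (.cons 502 469 .nil .nil)) .nil)))]
  [([273], (PX [] [273,304,436])), ([330], (PX [] [304,330,436])), ([335], (PX [] [304,335,436])), ([337], (PX [] [304,337,436])), ([366], (PX [] [304,366,436])), ([370], (PX [] [304,370,436])), ([428], (PX [] [304,428,436]))]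
  (by decide +kernel) ⟨b5_0, b5_1, b5_2, w5_23_337, b5_71, w5_23_370, b5_124, trivial⟩

theorem v5_24 : VW (PX [] [308,436]) := VW.of base nl_ok fl_ok .nil
  [(340, (.cons 372 404 (.cons 244 276 .nil (.cons 276 244 .nil .nil)) (.cons 404 372 .nil .nil))), (372, (.cons 340 404 (.cons 244 276 .nil (.cons 276 244 .nil .nil)) (.cons 404 340 (.cons 468 500 .nil (.cons 500 468 .nil .nil)) .nil))), (404, (.cons 340 372 .nil (.cons 372 340 (.cons 468 500 .nil (.cons 500 468 .nil .nil)) .nil)))]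
  []
  (by decide +kernel) trivial

theorem v5_25 : VW (PX [] [312,436]) := VW.of base nl_ok fl_ok .nil
  [(343, (.cons 374 405 (.cons 250 281 .nil (.cons 281 250 .nil .nil)) (.cons 405 374 .nil .nil))), (374, (.cons 343 405 (.cons 250 281 .nil (.cons 281 250 .nil .nil)) (.cons 405 343 (.cons 467 498 .nil (.cons 498 467 .nil .nil)) .nil))), (405, (.cons 343 374 .nil (.cons 374 343 (.cons 467 498 .nil (.cons 498 467 .nil .nil)) .nil)))]
  []
  (by decide +kernel) trivial

theorem v5_26 : VW (PX [304,469] [337,370,403,436]) := VW.of base nl_ok fl_ok .nil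
  []
  []
  (by decide +kernel) trivial

theorem v5_27 : VW (PX [304,403] [337,370,436,469]) := VW.of base nl_ok fl_ok .nil
  [(502, (.cons 535 568 .nil (.cons 568 535 .nil .nil))), (535, (.cons 502 568 .nil (.cons 568 502 .nil .nil))), (568, (.cons 502 535 .nil (.cons 535 502 .nil .nil)))]
  []
  (by decide +kernel) trivial

theorem w5_28_403 : S (PX [304] [337,370,403,436]) := VW.play 469 (PX [304,469] [337,370,403,436]) (by decide +kernel) v5_26

theorem w5_28_469 : S (PX [304] [337,370,436,469]) := VW.play 403 (PX [304,403] [337,370,436,469]) (by decide +kernel) v5_27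

theorem v5_28 : VW (PX [304] [337,370,436]) := VW.of base nl_ok fl_ok (.cons 403 469 .nil (.cons 469 403 .nil .nil))
  [(502, (.cons 403 469 .nil (.cons 469 403 (.cons 535 568 .nil (.cons 568 535 .nil .nil)) .nil))), (535, (.cons 403 469 .nil (.cons 469 403 (.cons 502 568 .nil (.cons 568 502 .nil .nil)) .nil))), (568, (.cons 403 469 .nil (.cons 469 403 (.cons 502 535 .nil (.cons 535 502 .nil .nil)) .nil)))]
  [([403], (PX [304] [337,370,403,436])), ([469], (PX [304] [337,370,436,469]))]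
  (by decide +kernel) ⟨w5_28_403, w5_28_469, trivial⟩

theorem v5_48 : VW (PX [370] [337,403,436]) := VW.of base nl_ok fl_ok .nil
  [(469, (.cons 502 535 .nil (.cons 535 502 .nil .nil))), (502, (.cons 469 535 .nil (.cons 535 469 .nil .nil))), (535, (.cons 469 502 .nil (.cons 502 469 .nil .nil)))]
  []
  (by decide +kernel) trivial

theorem w5_49_304 : S (PX [] [304,337,436]) := VW.play 370 (PX [370] [304,337,436]) (by decide +kernel) v5_4

theorem w5_49_370 : S (PX [] [337,370,436]) := VW.play 304 (PX [304] [337,370,436]) (by decide +kernel) v5_28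

theorem w5_49_403 : S (PX [] [337,403,436]) := VW.play 370 (PX [370] [337,403,436]) (by decide +kernel) v5_48

theorem v5_49 : VW (PX [] [337,436]) := VW.of base nl_ok fl_ok .nil
  [(469, (.cons 370 403 .nil (.cons 403 370 (.cons 502 535 .nil (.cons 535 502 .nil .nil)) .nil)))]
  [([304], (PX [] [304,337,436])), ([370], (PX [] [337,370,436])), ([403], (PX [] [337,403,436]))]
  (by decide +kernel) ⟨w5_49_304, w5_49_370, w5_49_403, trivial⟩

theorem v5_53 : VW (PX [404] [340,372,436]) := VW.of base nl_ok fl_ok .nil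
  [(244, (.cons 276 308 .nil (.cons 308 276 .nil .nil))), (276, (.cons 244 308 .nil (.cons 308 244 .nil .nil))), (308, (.cons 244 276 .nil (.cons 276 244 .nil .nil)))]
  []
  (by decide +kernel) trivial

theorem v5_82 : VW (PX [372] [340,404,436]) := VW.of base nl_ok fl_ok .nil
  [(468, (.cons 500 532 .nil (.cons 532 500 .nil .nil))), (500, (.cons 468 532 .nil (.cons 532 468 .nil .nil))), (532, (.cons 468 500 .nil (.cons 500 468 .nil .nil)))]
  []
  (by decide +kernel) trivial

theorem w5_85_372 : S (PX [] [340,372,436]) := VW.play 404 (PX [404] [340,372,436]) (by decide +kernel) v5_53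

theorem w5_85_404 : S (PX [] [340,404,436]) := VW.play 372 (PX [372] [340,404,436]) (by decide +kernel) v5_82

theorem v5_85 : VW (PX [] [340,436]) := VW.of base nl_ok fl_ok .nil
  [(308, (.cons 372 404 (.cons 244 276 .nil (.cons 276 244 .nil .nil)) (.cons 404 372 .nil .nil))), (468, (.cons 372 404 .nil (.cons 404 372 (.cons 500 532 .nil (.cons 532 500 .nil .nil)) .nil)))]
  [([372], (PX [] [340,372,436])), ([404], (PX [] [340,404,436]))]
  (by decide +kernel) ⟨w5_85_372, w5_85_404, trivial⟩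

theorem v5_95 : VW (PX [405] [343,374,436]) := VW.of base nl_ok fl_ok .nil
  [(250, (.cons 281 312 .nil (.cons 312 281 .nil .nil))), (281, (.cons 250 312 .nil (.cons 312 250 .nil .nil))), (312, (.cons 250 281 .nil (.cons 281 250 .nil .nil)))]
  []
  (by decide +kernel) trivial

theorem v5_96 : VW (PX [374] [343,405,436]) := VW.of base nl_ok fl_ok .nil
  [(467, (.cons 498 529 .nil (.cons 529 498 .nil .nil))), (498, (.cons 467 529 .nil (.cons 529 467 .nil .nil))), (529, (.cons 467 498 .nil (.cons 498 467 .nil .nil)))]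
  []
  (by decide +kernel) trivial

theorem w5_99_374 : S (PX [] [343,374,436]) := VW.play 405 (PX [405] [343,374,436]) (by decide +kernel) v5_95

theorem w5_99_405 : S (PX [] [343,405,436]) := VW.play 374 (PX [374] [343,405,436]) (by decide +kernel) v5_96

theorem v5_99 : VW (PX [] [343,436]) := VW.of base nl_ok fl_ok .nil
  [(312, (.cons 374 405 (.cons 250 281 .nil (.cons 281 250 .nil .nil)) (.cons 405 374 .nil .nil))), (467, (.cons 374 405 .nil (.cons 405 374 (.cons 498 529 .nil (.cons 529 498 .nil .nil)) .nil)))]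
  [([374], (PX [] [343,374,436])), ([405], (PX [] [343,405,436]))]
  (by decide +kernel) ⟨w5_99_374, w5_99_405, trivial⟩

theorem v5_100 : VW (PX [337,502] [370,403,436,469]) := VW.of base nl_ok fl_ok .nil
  []
  []
  (by decide +kernel) trivial

theorem v5_101 : VW (PX [337,469] [370,403,436,502]) := VW.of base nl_ok fl_ok .nil
  []
  []
  (by decide +kernel) trivial

theorem w5_102_469 : S (PX [337] [370,403,436,469]) := VW.play 502 (PX [337,502] [370,403,436,469]) (by decide +kernel) v5_100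

theorem w5_102_502 : S (PX [337] [370,403,436,502]) := VW.play 469 (PX [337,469] [370,403,436,502]) (by decide +kernel) v5_101

theorem v5_102 : VW (PX [337] [370,403,436]) := VW.of base nl_ok fl_ok (.cons 469 502 .nil (.cons 502 469 .nil .nil))
  [(535, (.cons 469 502 .nil (.cons 502 469 .nil .nil))), (568, (.cons 469 502 .nil (.cons 502 469 .nil .nil))), (601, (.cons 469 502 .nil (.cons 502 469 .nil .nil)))]
  [([469], (PX [337] [370,403,436,469])), ([502], (PX [337] [370,403,436,502]))]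
  (by decide +kernel) ⟨w5_102_469, w5_102_502, trivial⟩

theorem v5_117 : VW (PX [403] [370,436,469]) := VW.of base nl_ok fl_ok .nil
  [(502, (.cons 535 568 .nil (.cons 568 535 .nil .nil))), (535, (.cons 502 568 .nil (.cons 568 502 .nil .nil))), (568, (.cons 502 535 .nil (.cons 535 502 .nil .nil)))]
  []
  (by decide +kernel) trivial

theorem v5_118 : VW (PX [403] [370,436,502]) := VW.of base nl_ok fl_ok .nil
  [(469, (.cons 535 568 .nil (.cons 568 535 .nil .nil))), (535, (.cons 469 568 .nil (.cons 568 469 (.cons 601 634 .nil (.cons 634 601 .nil .nil)) .nil))), (568, (.cons 469 535 .nil (.cons 535 469 (.cons 601 634 .nil (.cons 634 601 .nil .nil)) .nil)))]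
  []
  (by decide +kernel) trivial

theorem w5_134_304 : S (PX [] [304,370,436]) := VW.play 337 (PX [337] [304,370,436]) (by decide +kernel) v5_13

theorem w5_134_337 : S (PX [] [337,370,436]) := VW.play 304 (PX [304] [337,370,436]) (by decide +kernel) v5_28

theorem w5_134_403 : S (PX [] [370,403,436]) := VW.play 337 (PX [337] [370,403,436]) (by decide +kernel) v5_102

theorem w5_134_469 : S (PX [] [370,436,469]) := VW.play 403 (PX [403] [370,436,469]) (by decide +kernel) v5_117

theorem w5_134_502 : S (PX [] [370,436,502]) := VW.play 403 (PX [403] [370,436,502]) (by decide +kernel) v5_118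

theorem v5_134 : VW (PX [] [370,436]) := VW.of base nl_ok fl_ok .nil
  []
  [([304], (PX [] [304,370,436])), ([337], (PX [] [337,370,436])), ([403], (PX [] [370,403,436])), ([469], (PX [] [370,436,469])), ([502], (PX [] [370,436,502]))]
  (by decide +kernel) ⟨w5_134_304, w5_134_337, w5_134_403, w5_134_469, w5_134_502, trivial⟩

theorem v5_135 : VW (PX [340,500] [372,404,436,468]) := VW.of base nl_ok fl_ok .nil
  []
  []
  (by decide +kernel) trivial

theorem v5_136 : VW (PX [340,468] [372,404,436,500]) := VW.of base nl_ok fl_ok .nil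
  []
  []
  (by decide +kernel) trivial

theorem w5_137_468 : S (PX [340] [372,404,436,468]) := VW.play 500 (PX [340,500] [372,404,436,468]) (by decide +kernel) v5_135

theorem w5_137_500 : S (PX [340] [372,404,436,500]) := VW.play 468 (PX [340,468] [372,404,436,500]) (by decide +kernel) v5_136

theorem v5_137 : VW (PX [340] [372,404,436]) := VW.of base nl_ok fl_ok (.cons 468 500 .nil (.cons 500 468 .nil .nil))
  [(532, (.cons 468 500 .nil (.cons 500 468 .nil .nil))), (564, (.cons 468 500 .nil (.cons 500 468 .nil .nil))), (596, (.cons 468 500 .nil (.cons 500 468 .nil .nil)))]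
  [([468], (PX [340] [372,404,436,468])), ([500], (PX [340] [372,404,436,500]))]
  (by decide +kernel) ⟨w5_137_468, w5_137_500, trivial⟩

theorem v5_154 : VW (PX [404] [372,436,468]) := VW.of base nl_ok fl_ok .nil
  [(500, (.cons 532 564 .nil (.cons 564 532 .nil .nil))), (532, (.cons 500 564 .nil (.cons 564 500 .nil .nil))), (564, (.cons 500 532 .nil (.cons 532 500 .nil .nil)))]
  []
  (by decide +kernel) trivial

theorem w5_157_340 : S (PX [] [340,372,436]) := VW.play 404 (PX [404] [340,372,436]) (by decide +kernel) v5_53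

theorem w5_157_404 : S (PX [] [372,404,436]) := VW.play 340 (PX [340] [372,404,436]) (by decide +kernel) v5_137

theorem w5_157_468 : S (PX [] [372,436,468]) := VW.play 404 (PX [404] [372,436,468]) (by decide +kernel) v5_154

theorem v5_157 : VW (PX [] [372,436]) := VW.of base nl_ok fl_ok .nil
  [(308, (.cons 340 404 (.cons 244 276 .nil (.cons 276 244 .nil .nil)) (.cons 404 340 (.cons 468 500 .nil (.cons 500 468 .nil .nil)) .nil))), (500, (.cons 404 468 (.cons 308 340 .nil (.cons 340 308 .nil .nil)) (.cons 468 404 (.cons 532 564 .nil (.cons 564 532 .nil .nil)) .nil)))]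
  [([340], (PX [] [340,372,436])), ([404], (PX [] [372,404,436])), ([468], (PX [] [372,436,468]))]
  (by decide +kernel) ⟨w5_157_340, w5_157_404, w5_157_468, trivial⟩

theorem v5_158 : VW (PX [343,498] [374,405,436,467]) := VW.of base nl_ok fl_ok .nil
  []
  []
  (by decide +kernel) trivial

theorem v5_159 : VW (PX [343,467] [374,405,436,498]) := VW.of base nl_ok fl_ok .nil
  []
  []
  (by decide +kernel) trivial

theorem w5_160_467 : S (PX [343] [374,405,436,467]) := VW.play 498 (PX [343,498] [374,405,436,467]) (by decide +kernel) v5_158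

theorem w5_160_498 : S (PX [343] [374,405,436,498]) := VW.play 467 (PX [343,467] [374,405,436,498]) (by decide +kernel) v5_159

theorem v5_160 : VW (PX [343] [374,405,436]) := VW.of base nl_ok fl_ok (.cons 467 498 .nil (.cons 498 467 .nil .nil))
  [(529, (.cons 467 498 .nil (.cons 498 467 .nil .nil))), (560, (.cons 467 498 .nil (.cons 498 467 .nil .nil))), (591, (.cons 467 498 .nil (.cons 498 467 .nil .nil)))]
  [([467], (PX [343] [374,405,436,467])), ([498], (PX [343] [374,405,436,498]))]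
  (by decide +kernel) ⟨w5_160_467, w5_160_498, trivial⟩

theorem v5_163 : VW (PX [405,529] [374,436,467,498]) := VW.of base nl_ok fl_ok .nil
  []
  []
  (by decide +kernel) trivial

theorem w5_165_498 : S (PX [405] [374,436,467,498]) := VW.play 529 (PX [405,529] [374,436,467,498]) (by decide +kernel) v5_163

theorem v5_165 : VW (PX [405] [374,436,467]) := VW.of base nl_ok fl_ok .nil
  [(529, (.cons 498 560 .nil (.cons 560 498 .nil .nil))), (560, (.cons 498 529 .nil (.cons 529 498 .nil .nil)))]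
  [([498], (PX [405] [374,436,467,498]))]
  (by decide +kernel) ⟨w5_165_498, trivial⟩

theorem v5_169 : VW (PX [467] [374,436,498]) := VW.of base nl_ok fl_ok .nil
  [(312, (.cons 343 405 (.cons 250 281 .nil (.cons 281 250 .nil .nil)) (.cons 405 343 .nil .nil))), (343, (.cons 312 405 (.cons 250 281 .nil (.cons 281 250 .nil .nil)) (.cons 405 312 .nil .nil))), (405, (.cons 312 343 .nil (.cons 343 312 .nil .nil)))]
  []
  (by decide +kernel) trivial

theorem w5_170_343 : S (PX [] [343,374,436]) := VW.play 405 (PX [405] [343,374,436]) (by decide +kernel) v5_95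

theorem w5_170_405 : S (PX [] [374,405,436]) := VW.play 343 (PX [343] [374,405,436]) (by decide +kernel) v5_160

theorem w5_170_467 : S (PX [] [374,436,467]) := VW.play 405 (PX [405] [374,436,467]) (by decide +kernel) v5_165

theorem w5_170_498 : S (PX [] [374,436,498]) := VW.play 467 (PX [467] [374,436,498]) (by decide +kernel) v5_169

theorem v5_170 : VW (PX [] [374,436]) := VW.of base nl_ok fl_ok .nil
  [(312, (.cons 343 405 (.cons 250 281 .nil (.cons 281 250 .nil .nil)) (.cons 405 343 (.cons 467 498 .nil (.cons 498 467 .nil .nil)) .nil)))]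
  [([343], (PX [] [343,374,436])), ([405], (PX [] [374,405,436])), ([467], (PX [] [374,436,467])), ([498], (PX [] [374,436,498]))]
  (by decide +kernel) ⟨w5_170_343, w5_170_405, w5_170_467, w5_170_498, trivial⟩

theorem v5_171 : VW (PX [370,535] [403,436,469,502]) := VW.of base nl_ok fl_ok .nil
  []
  []
  (by decide +kernel) trivial

theorem v5_172 : VW (PX [370,502] [403,436,469,535]) := VW.of base nl_ok fl_ok .nil
  []
  []
  (by decide +kernel) trivial

theorem w5_173_502 : S (PX [370] [403,436,469,502]) := VW.play 535 (PX [370,535] [403,436,469,502]) (by decide +kernel) v5_171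

theorem w5_173_535 : S (PX [370] [403,436,469,535]) := VW.play 502 (PX [370,502] [403,436,469,535]) (by decide +kernel) v5_172

theorem v5_173 : VW (PX [370] [403,436,469]) := VW.of base nl_ok fl_ok (.cons 502 535 .nil (.cons 535 502 .nil .nil))
  [(568, (.cons 502 535 .nil (.cons 535 502 .nil .nil))), (601, (.cons 502 535 .nil (.cons 535 502 .nil .nil))), (634, (.cons 502 535 .nil (.cons 535 502 .nil .nil)))]
  [([502], (PX [370] [403,436,469,502])), ([535], (PX [370] [403,436,469,535]))]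
  (by decide +kernel) ⟨w5_173_502, w5_173_535, trivial⟩

theorem v5_40 : VW (PX [304,469] [337,403,436,502]) := VW.of base nl_ok fl_ok .nil
  []
  []
  (by decide +kernel) trivial

theorem v5_131 : VW (PX [304,469] [370,403,436,502]) := VW.of base nl_ok fl_ok .nil
  []
  []
  (by decide +kernel) trivial

theorem w5_177_337 : S (PX [469] [337,403,436,502]) := VW.play 304 (PX [304,469] [337,403,436,502]) (by decide +kernel) v5_40

theorem w5_177_370 : S (PX [469] [370,403,436,502]) := VW.play 304 (PX [304,469] [370,403,436,502]) (by decide +kernel) v5_131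

theorem v5_177 : VW (PX [469] [403,436,502]) := VW.of base nl_ok fl_ok .nil
  [(304, (.cons 337 370 .nil (.cons 370 337 .nil .nil)))]
  [([337], (PX [469] [337,403,436,502])), ([370], (PX [469] [370,403,436,502]))]
  (by decide +kernel) ⟨w5_177_337, w5_177_370, trivial⟩

theorem w5_178_337 : S (PX [] [337,403,436]) := VW.play 370 (PX [370] [337,403,436]) (by decide +kernel) v5_48

theorem w5_178_370 : S (PX [] [370,403,436]) := VW.play 337 (PX [337] [370,403,436]) (by decide +kernel) v5_102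

theorem w5_178_469 : S (PX [] [403,436,469]) := VW.play 370 (PX [370] [403,436,469]) (by decide +kernel) v5_173

theorem w5_178_502 : S (PX [] [403,436,502]) := VW.play 469 (PX [469] [403,436,502]) (by decide +kernel) v5_177

theorem v5_178 : VW (PX [] [403,436]) := VW.of base nl_ok fl_ok .nil
  [(304, (.cons 337 370 .nil (.cons 370 337 (.cons 469 502 .nil (.cons 502 469 .nil .nil)) .nil))), (535, (.cons 469 502 (.cons 337 370 .nil (.cons 370 337 .nil .nil)) (.cons 502 469 .nil .nil)))]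
  [([337], (PX [] [337,403,436])), ([370], (PX [] [370,403,436])), ([469], (PX [] [403,436,469])), ([502], (PX [] [403,436,502]))]
  (by decide +kernel) ⟨w5_178_337, w5_178_370, w5_178_469, w5_178_502, trivial⟩

theorem v5_179 : VW (PX [372,532] [404,436,468,500]) := VW.of base nl_ok fl_ok .nil
  []
  []
  (by decide +kernel) trivial

theorem v5_180 : VW (PX [372,500] [404,436,468,532]) := VW.of base nl_ok fl_ok .nil
  []
  []
  (by decide +kernel) trivial

theorem w5_181_500 : S (PX [372] [404,436,468,500]) := VW.play 532 (PX [372,532] [404,436,468,500]) (by decide +kernel) v5_179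

theorem w5_181_532 : S (PX [372] [404,436,468,532]) := VW.play 500 (PX [372,500] [404,436,468,532]) (by decide +kernel) v5_180

theorem v5_181 : VW (PX [372] [404,436,468]) := VW.of base nl_ok fl_ok (.cons 500 532 .nil (.cons 532 500 .nil .nil))
  [(564, (.cons 500 532 .nil (.cons 532 500 .nil .nil))), (596, (.cons 500 532 .nil (.cons 532 500 .nil .nil))), (628, (.cons 500 532 .nil (.cons 532 500 .nil .nil)))]
  [([500], (PX [372] [404,436,468,500])), ([532], (PX [372] [404,436,468,532]))]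
  (by decide +kernel) ⟨w5_181_500, w5_181_532, trivial⟩

theorem v5_186 : VW (PX [468] [404,436,500]) := VW.of base nl_ok fl_ok .nil
  [(308, (.cons 340 372 .nil (.cons 372 340 .nil .nil))), (340, (.cons 308 372 .nil (.cons 372 308 .nil .nil))), (372, (.cons 308 340 .nil (.cons 340 308 .nil .nil)))]
  []
  (by decide +kernel) trivial

theorem w5_198_340 : S (PX [] [340,404,436]) := VW.play 372 (PX [372] [340,404,436]) (by decide +kernel) v5_82

theorem w5_198_372 : S (PX [] [372,404,436]) := VW.play 340 (PX [340] [372,404,436]) (by decide +kernel) v5_137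

theorem w5_198_468 : S (PX [] [404,436,468]) := VW.play 372 (PX [372] [404,436,468]) (by decide +kernel) v5_181

theorem w5_198_500 : S (PX [] [404,436,500]) := VW.play 468 (PX [468] [404,436,500]) (by decide +kernel) v5_186

theorem v5_198 : VW (PX [] [404,436]) := VW.of base nl_ok fl_ok .nil
  [(308, (.cons 340 372 .nil (.cons 372 340 (.cons 468 500 .nil (.cons 500 468 .nil .nil)) .nil))), (532, (.cons 468 500 (.cons 340 372 .nil (.cons 372 340 .nil .nil)) (.cons 500 468 .nil .nil)))]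
  [([340], (PX [] [340,404,436])), ([372], (PX [] [372,404,436])), ([468], (PX [] [404,436,468])), ([500], (PX [] [404,436,500]))]
  (by decide +kernel) ⟨w5_198_340, w5_198_372, w5_198_468, w5_198_500, trivial⟩

theorem v5_199 : VW (PX [374,498] [343,405,436,467]) := VW.of base nl_ok fl_ok .nil
  []
  []
  (by decide +kernel) trivial

theorem w5_200_343 : S (PX [498] [343,405,436,467]) := VW.play 374 (PX [374,498] [343,405,436,467]) (by decide +kernel) v5_199

theorem w5_200_374 : S (PX [498] [374,405,436,467]) := VW.play 343 (PX [343,498] [374,405,436,467]) (by decide +kernel) v5_158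

theorem v5_200 : VW (PX [498] [405,436,467]) := VW.of base nl_ok fl_ok (.cons 343 374 .nil (.cons 374 343 .nil .nil))
  [(250, (.cons 343 374 .nil (.cons 374 343 .nil .nil))), (281, (.cons 343 374 .nil (.cons 374 343 .nil .nil))), (312, (.cons 343 374 .nil (.cons 374 343 .nil .nil)))]
  [([343], (PX [498] [343,405,436,467])), ([374], (PX [498] [374,405,436,467]))]
  (by decide +kernel) ⟨w5_200_343, w5_200_374, trivial⟩

theorem v5_201 : VW (PX [467] [405,436,498]) := VW.of base nl_ok fl_ok .nil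
  [(312, (.cons 343 374 .nil (.cons 374 343 .nil .nil))), (343, (.cons 312 374 .nil (.cons 374 312 .nil .nil))), (374, (.cons 312 343 .nil (.cons 343 312 .nil .nil)))]
  []
  (by decide +kernel) trivial

theorem w5_217_343 : S (PX [] [343,405,436]) := VW.play 374 (PX [374] [343,405,436]) (by decide +kernel) v5_96

theorem w5_217_374 : S (PX [] [374,405,436]) := VW.play 343 (PX [343] [374,405,436]) (by decide +kernel) v5_160

theorem w5_217_467 : S (PX [] [405,436,467]) := VW.play 498 (PX [498] [405,436,467]) (by decide +kernel) v5_200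

theorem w5_217_498 : S (PX [] [405,436,498]) := VW.play 467 (PX [467] [405,436,498]) (by decide +kernel) v5_201

theorem v5_217 : VW (PX [] [405,436]) := VW.of base nl_ok fl_ok .nil
  [(312, (.cons 343 374 .nil (.cons 374 343 (.cons 467 498 .nil (.cons 498 467 .nil .nil)) .nil))), (529, (.cons 467 498 (.cons 343 374 .nil (.cons 374 343 .nil .nil)) (.cons 498 467 .nil .nil)))]
  [([343], (PX [] [343,405,436])), ([374], (PX [] [374,405,436])), ([467], (PX [] [405,436,467])), ([498], (PX [] [405,436,498]))]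
  (by decide +kernel) ⟨w5_217_343, w5_217_374, w5_217_467, w5_217_498, trivial⟩

theorem v5_218 : VW (PX [434] [432,433,436]) := VW.of base nl_ok fl_ok .nil
  []
  (([330], (PX [434] [330,432,433,436])) :: ([331], (PX [434] [331,432,433,436])) :: ([361], (PX [434] [361,432,433,436])) :: ([365], (PX [434] [365,432,433,436])) :: ([392], (PX [434] [392,432,433,436])) :: ([393], (PX [434] [393,432,433,436])) :: ([395], (PX [434] [395,432,433,436])) :: ([397], (PX [434] [397,432,433,436])) :: ([424], (PX [434] [424,432,433,436])) :: ([427], (PX [434] [427,432,433,436])) :: ([428], (PX [434] [428,432,433,436])) :: ([429], (PX [434] [429,432,433,436])) :: ([430], (PX [434] [430,432,433,436])) :: ([431], (PX [434] [431,432,433,436])) :: ([458], (PX [434] [432,433,436,458])) :: ([489], (PX [434] [432,433,436,489])) :: [])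
  (by decide +kernel) ⟨b5_156, b5_157, b5_158, b5_159, b5_160, b5_161, b5_162, b5_163, b5_164, b5_165, b5_166, b5_178, b5_179, b5_180, b5_181, b5_182, trivial⟩

theorem v5_224 : VW (PX [433] [432,434,436]) := VW.of base nl_ok fl_ok .nil
  [(435, (.cons 437 438 .nil (.cons 438 437 .nil .nil))), (437, (.cons 435 438 .nil (.cons 438 435 (.cons 439 440 .nil (.cons 440 439 .nil .nil)) .nil))), (438, (.cons 435 437 .nil (.cons 437 435 (.cons 439 440 .nil (.cons 440 439 .nil .nil)) .nil)))]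
  [([428], (PX [433] [428,432,434,436]))]
  (by decide +kernel) ⟨b5_213, trivial⟩

theorem w5_230_433 : S (PX [] [432,433,436]) := VW.play 434 (PX [434] [432,433,436]) (by decide +kernel) v5_218

theorem w5_230_434 : S (PX [] [432,434,436]) := VW.play 433 (PX [433] [432,434,436]) (by decide +kernel) v5_224

theorem v5_230 : VW (PX [] [432,436]) := VW.of base nl_ok fl_ok .nil
  [(435, (.cons 433 434 .nil (.cons 434 433 (.cons 437 438 .nil (.cons 438 437 .nil .nil)) .nil)))]
  [([428], (PX [] [428,432,436])), ([433], (PX [] [432,433,436])), ([434], (PX [] [432,434,436]))]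
  (by decide +kernel) ⟨b5_155, w5_230_433, w5_230_434, trivial⟩

theorem v5_231 : VW (PX [432,437] [433,434,435,436]) := VW.of base nl_ok fl_ok .nil
  []
  []
  (by decide +kernel) trivial

theorem v5_232 : VW (PX [432,435] [433,434,436,437]) := VW.of base nl_ok fl_ok .nil
  [(438, (.cons 439 440 .nil (.cons 440 439 .nil .nil))), (439, (.cons 438 440 .nil (.cons 440 438 .nil .nil))), (440, (.cons 438 439 .nil (.cons 439 438 .nil .nil)))]
  []
  (by decide +kernel) trivial

theorem w5_233_435 : S (PX [432] [433,434,435,436]) := VW.play 437 (PX [432,437] [433,434,435,436]) (by decide +kernel) v5_231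

theorem w5_233_437 : S (PX [432] [433,434,436,437]) := VW.play 435 (PX [432,435] [433,434,436,437]) (by decide +kernel) v5_232

theorem v5_233 : VW (PX [432] [433,434,436]) := VW.of base nl_ok fl_ok (.cons 435 437 .nil (.cons 437 435 .nil .nil))
  [(438, (.cons 435 437 .nil (.cons 437 435 (.cons 439 440 .nil (.cons 440 439 .nil .nil)) .nil))), (439, (.cons 435 437 .nil (.cons 437 435 (.cons 438 440 .nil (.cons 440 438 .nil .nil)) .nil))), (440, (.cons 435 437 .nil (.cons 437 435 (.cons 438 439 .nil (.cons 439 438 .nil .nil)) .nil)))]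
  [([435], (PX [432] [433,434,435,436])), ([437], (PX [432] [433,434,436,437]))]
  (by decide +kernel) ⟨w5_233_435, w5_233_437, trivial⟩

theorem v5_252 : VW (PX [434] [433,435,436]) := VW.of base nl_ok fl_ok .nil
  [(437, (.cons 438 439 .nil (.cons 439 438 .nil .nil))), (438, (.cons 437 439 .nil (.cons 439 437 .nil .nil))), (439, (.cons 437 438 .nil (.cons 438 437 .nil .nil)))]
  []
  (by decide +kernel) trivial

theorem w5_253_432 : S (PX [] [432,433,436]) := VW.play 434 (PX [434] [432,433,436]) (by decide +kernel) v5_218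

theorem w5_253_434 : S (PX [] [433,434,436]) := VW.play 432 (PX [432] [433,434,436]) (by decide +kernel) v5_233

theorem w5_253_435 : S (PX [] [433,435,436]) := VW.play 434 (PX [434] [433,435,436]) (by decide +kernel) v5_252

theorem v5_253 : VW (PX [] [433,436]) := VW.of base nl_ok fl_ok .nil
  [(437, (.cons 434 435 .nil (.cons 435 434 (.cons 438 439 .nil (.cons 439 438 .nil .nil)) .nil)))]
  [([432], (PX [] [432,433,436])), ([434], (PX [] [433,434,436])), ([435], (PX [] [433,435,436]))]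
  (by decide +kernel) ⟨w5_253_432, w5_253_434, w5_253_435, trivial⟩

theorem v5_254 : VW (PX [433,438] [434,435,436,437]) := VW.of base nl_ok fl_ok .nil
  []
  []
  (by decide +kernel) trivial

theorem v5_255 : VW (PX [433,437] [434,435,436,438]) := VW.of base nl_ok fl_ok .nil
  []
  []
  (by decide +kernel) trivial

theorem w5_256_437 : S (PX [433] [434,435,436,437]) := VW.play 438 (PX [433,438] [434,435,436,437]) (by decide +kernel) v5_254

theorem w5_256_438 : S (PX [433] [434,435,436,438]) := VW.play 437 (PX [433,437] [434,435,436,438]) (by decide +kernel) v5_255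

theorem v5_256 : VW (PX [433] [434,435,436]) := VW.of base nl_ok fl_ok (.cons 437 438 .nil (.cons 438 437 .nil .nil))
  [(439, (.cons 437 438 .nil (.cons 438 437 .nil .nil))), (440, (.cons 437 438 .nil (.cons 438 437 .nil .nil))), (441, (.cons 437 438 .nil (.cons 438 437 .nil .nil)))]
  [([437], (PX [433] [434,435,436,437])), ([438], (PX [433] [434,435,436,438]))]
  (by decide +kernel) ⟨w5_256_437, w5_256_438, trivial⟩

theorem v5_271 : VW (PX [435] [434,436,437]) := VW.of base nl_ok fl_ok .nil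
  [(438, (.cons 439 440 .nil (.cons 440 439 .nil .nil))), (439, (.cons 438 440 .nil (.cons 440 438 .nil .nil))), (440, (.cons 438 439 .nil (.cons 439 438 .nil .nil)))]
  []
  (by decide +kernel) trivial

theorem w5_272_432 : S (PX [] [432,434,436]) := VW.play 433 (PX [433] [432,434,436]) (by decide +kernel) v5_224

theorem w5_272_433 : S (PX [] [433,434,436]) := VW.play 432 (PX [432] [433,434,436]) (by decide +kernel) v5_233

theorem w5_272_435 : S (PX [] [434,435,436]) := VW.play 433 (PX [433] [434,435,436]) (by decide +kernel) v5_256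

theorem w5_272_437 : S (PX [] [434,436,437]) := VW.play 435 (PX [435] [434,436,437]) (by decide +kernel) v5_271

theorem v5_272 : VW (PX [] [434,436]) := VW.of base nl_ok fl_ok .nil
  [(438, (.cons 435 437 (.cons 432 433 .nil (.cons 433 432 .nil .nil)) (.cons 437 435 (.cons 439 440 .nil (.cons 440 439 .nil .nil)) .nil)))]
  [([432], (PX [] [432,434,436])), ([433], (PX [] [433,434,436])), ([435], (PX [] [434,435,436])), ([437], (PX [] [434,436,437]))]
  (by decide +kernel) ⟨w5_272_432, w5_272_433, w5_272_435, w5_272_437, trivial⟩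

theorem v5_273 : VW (PX [434,439] [435,436,437,438]) := VW.of base nl_ok fl_ok .nil
  []
  []
  (by decide +kernel) trivial

theorem v5_274 : VW (PX [434,438] [435,436,437,439]) := VW.of base nl_ok fl_ok .nil
  []
  []
  (by decide +kernel) trivial

theorem w5_275_438 : S (PX [434] [435,436,437,438]) := VW.play 439 (PX [434,439] [435,436,437,438]) (by decide +kernel) v5_273

theorem w5_275_439 : S (PX [434] [435,436,437,439]) := VW.play 438 (PX [434,438] [435,436,437,439]) (by decide +kernel) v5_274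

theorem v5_275 : VW (PX [434] [435,436,437]) := VW.of base nl_ok fl_ok (.cons 438 439 .nil (.cons 439 438 .nil .nil))
  [(440, (.cons 438 439 .nil (.cons 439 438 .nil .nil))), (441, (.cons 438 439 .nil (.cons 439 438 .nil .nil))), (442, (.cons 438 439 .nil (.cons 439 438 .nil .nil)))]
  [([438], (PX [434] [435,436,437,438])), ([439], (PX [434] [435,436,437,439]))]
  (by decide +kernel) ⟨w5_275_438, w5_275_439, trivial⟩

theorem v5_278 : VW (PX [437] [435,436,438]) := VW.of base nl_ok fl_ok .nil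
  [(432, (.cons 433 434 .nil (.cons 434 433 .nil .nil))), (433, (.cons 432 434 .nil (.cons 434 432 .nil .nil))), (434, (.cons 432 433 .nil (.cons 433 432 .nil .nil)))]
  []
  (by decide +kernel) trivial

theorem w5_279_433 : S (PX [] [433,435,436]) := VW.play 434 (PX [434] [433,435,436]) (by decide +kernel) v5_252

theorem w5_279_434 : S (PX [] [434,435,436]) := VW.play 433 (PX [433] [434,435,436]) (by decide +kernel) v5_256

theorem w5_279_437 : S (PX [] [435,436,437]) := VW.play 434 (PX [434] [435,436,437]) (by decide +kernel) v5_275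

theorem w5_279_438 : S (PX [] [435,436,438]) := VW.play 437 (PX [437] [435,436,438]) (by decide +kernel) v5_278

theorem v5_279 : VW (PX [] [435,436]) := VW.of base nl_ok fl_ok .nil
  [(432, (.cons 433 434 .nil (.cons 434 433 (.cons 437 438 .nil (.cons 438 437 .nil .nil)) .nil))), (439, (.cons 437 438 (.cons 433 434 .nil (.cons 434 433 .nil .nil)) (.cons 438 437 .nil .nil)))]
  [([433], (PX [] [433,435,436])), ([434], (PX [] [434,435,436])), ([437], (PX [] [435,436,437])), ([438], (PX [] [435,436,438]))]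
  (by decide +kernel) ⟨w5_279_433, w5_279_434, w5_279_437, w5_279_438, trivial⟩

theorem v5_280 : VW (PX [435,440] [436,437,438,439]) := VW.of base nl_ok fl_ok .nil
  []
  []
  (by decide +kernel) trivial

theorem v5_281 : VW (PX [435,439] [436,437,438,440]) := VW.of base nl_ok fl_ok .nil
  []
  []
  (by decide +kernel) trivial

theorem w5_282_439 : S (PX [435] [436,437,438,439]) := VW.play 440 (PX [435,440] [436,437,438,439]) (by decide +kernel) v5_280

theorem w5_282_440 : S (PX [435] [436,437,438,440]) := VW.play 439 (PX [435,439] [436,437,438,440]) (by decide +kernel) v5_281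

theorem v5_282 : VW (PX [435] [436,437,438]) := VW.of base nl_ok fl_ok (.cons 439 440 .nil (.cons 440 439 .nil .nil))
  [(441, (.cons 439 440 .nil (.cons 440 439 .nil .nil))), (442, (.cons 439 440 .nil (.cons 440 439 .nil .nil))), (443, (.cons 439 440 .nil (.cons 440 439 .nil .nil)))]
  [([439], (PX [435] [436,437,438,439])), ([440], (PX [435] [436,437,438,440]))]
  (by decide +kernel) ⟨w5_282_439, w5_282_440, trivial⟩

theorem v5_287 : VW (PX [438] [436,437,439]) := VW.of base nl_ok fl_ok .nil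
  [(433, (.cons 434 435 .nil (.cons 435 434 .nil .nil))), (434, (.cons 433 435 .nil (.cons 435 433 .nil .nil))), (435, (.cons 433 434 .nil (.cons 434 433 .nil .nil)))]
  []
  (by decide +kernel) trivial

theorem w5_288_434 : S (PX [] [434,436,437]) := VW.play 435 (PX [435] [434,436,437]) (by decide +kernel) v5_271

theorem w5_288_435 : S (PX [] [435,436,437]) := VW.play 434 (PX [434] [435,436,437]) (by decide +kernel) v5_275

theorem w5_288_438 : S (PX [] [436,437,438]) := VW.play 435 (PX [435] [436,437,438]) (by decide +kernel) v5_282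

theorem w5_288_439 : S (PX [] [436,437,439]) := VW.play 438 (PX [438] [436,437,439]) (by decide +kernel) v5_287

theorem v5_288 : VW (PX [] [436,437]) := VW.of base nl_ok fl_ok .nil
  [(433, (.cons 434 435 .nil (.cons 435 434 (.cons 438 439 .nil (.cons 439 438 .nil .nil)) .nil))), (440, (.cons 438 439 (.cons 434 435 .nil (.cons 435 434 .nil .nil)) (.cons 439 438 .nil .nil)))]
  [([434], (PX [] [434,436,437])), ([435], (PX [] [435,436,437])), ([438], (PX [] [436,437,438])), ([439], (PX [] [436,437,439]))]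
  (by decide +kernel) ⟨w5_288_434, w5_288_435, w5_288_438, w5_288_439, trivial⟩

theorem v5_289 : VW (PX [437] [436,438,439]) := VW.of base nl_ok fl_ok .nil
  [(440, (.cons 441 442 .nil (.cons 442 441 .nil .nil))), (441, (.cons 440 442 .nil (.cons 442 440 .nil .nil))), (442, (.cons 440 441 .nil (.cons 441 440 .nil .nil)))]
  []
  (by decide +kernel) trivial

theorem w5_292_435 : S (PX [] [435,436,438]) := VW.play 437 (PX [437] [435,436,438]) (by decide +kernel) v5_278

theorem w5_292_437 : S (PX [] [436,437,438]) := VW.play 435 (PX [435] [436,437,438]) (by decide +kernel) v5_282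

theorem w5_292_439 : S (PX [] [436,438,439]) := VW.play 437 (PX [437] [436,438,439]) (by decide +kernel) v5_289

theorem v5_292 : VW (PX [] [436,438]) := VW.of base nl_ok fl_ok .nil
  [(434, (.cons 435 437 (.cons 432 433 .nil (.cons 433 432 .nil .nil)) (.cons 437 435 (.cons 439 440 .nil (.cons 440 439 .nil .nil)) .nil))), (440, (.cons 437 439 (.cons 434 435 .nil (.cons 435 434 .nil .nil)) (.cons 439 437 (.cons 441 442 .nil (.cons 442 441 .nil .nil)) .nil)))]
  [([435], (PX [] [435,436,438])), ([437], (PX [] [436,437,438])), ([439], (PX [] [436,438,439]))]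
  (by decide +kernel) ⟨w5_292_435, w5_292_437, w5_292_439, trivial⟩

theorem w5_293_437 : S (PX [] [436,437,439]) := VW.play 438 (PX [438] [436,437,439]) (by decide +kernel) v5_287

theorem w5_293_438 : S (PX [] [436,438,439]) := VW.play 437 (PX [437] [436,438,439]) (by decide +kernel) v5_289

theorem v5_293 : VW (PX [] [436,439]) := VW.of base nl_ok fl_ok .nil
  [(435, (.cons 437 438 (.cons 433 434 .nil (.cons 434 433 .nil .nil)) (.cons 438 437 .nil .nil))), (440, (.cons 437 438 .nil (.cons 438 437 (.cons 441 442 .nil (.cons 442 441 .nil .nil)) .nil)))]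
  [([437], (PX [] [436,437,439])), ([438], (PX [] [436,438,439]))]
  (by decide +kernel) ⟨w5_293_437, w5_293_438, trivial⟩

theorem v5_294 : VW (PX [] [436,440]) := VW.of base nl_ok fl_ok .nil
  [(437, (.cons 438 439 (.cons 434 435 .nil (.cons 435 434 .nil .nil)) (.cons 439 438 .nil .nil))), (438, (.cons 437 439 (.cons 434 435 .nil (.cons 435 434 .nil .nil)) (.cons 439 437 (.cons 441 442 .nil (.cons 442 441 .nil .nil)) .nil))), (439, (.cons 437 438 .nil (.cons 438 437 (.cons 441 442 .nil (.cons 442 441 .nil .nil)) .nil)))]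
  []
  (by decide +kernel) trivial

theorem v5_295 : VW (PX [405,529] [374,436,467,498]) := VW.of base nl_ok fl_ok .nil
  []
  []
  (by decide +kernel) trivial

theorem v5_215 : VW (PX [374,529] [405,436,467,498]) := VW.of base nl_ok fl_ok .nil
  []
  []
  (by decide +kernel) trivial

theorem w5_296_374 : S (PX [529] [374,436,467,498]) := VW.play 405 (PX [405,529] [374,436,467,498]) (by decide +kernel) v5_295

theorem w5_296_405 : S (PX [529] [405,436,467,498]) := VW.play 374 (PX [374,529] [405,436,467,498]) (by decide +kernel) v5_215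

theorem v5_296 : VW (PX [529] [436,467,498]) := VW.of base nl_ok fl_ok (.cons 374 405 .nil (.cons 405 374 .nil .nil))
  [(281, (.cons 374 405 .nil (.cons 405 374 .nil .nil))), (312, (.cons 374 405 .nil (.cons 405 374 .nil .nil))), (343, (.cons 374 405 .nil (.cons 405 374 .nil .nil)))]
  [([374], (PX [529] [374,436,467,498])), ([405], (PX [529] [405,436,467,498]))]
  (by decide +kernel) ⟨w5_296_374, w5_296_405, trivial⟩

theorem v5_297 : VW (PX [498] [436,467,529]) := VW.of base nl_ok fl_ok .nil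
  [(343, (.cons 374 405 .nil (.cons 405 374 .nil .nil))), (374, (.cons 343 405 .nil (.cons 405 343 .nil .nil))), (405, (.cons 343 374 .nil (.cons 374 343 .nil .nil)))]
  []
  (by decide +kernel) trivial

theorem w5_313_374 : S (PX [] [374,436,467]) := VW.play 405 (PX [405] [374,436,467]) (by decide +kernel) v5_165

theorem w5_313_405 : S (PX [] [405,436,467]) := VW.play 498 (PX [498] [405,436,467]) (by decide +kernel) v5_200

theorem w5_313_498 : S (PX [] [436,467,498]) := VW.play 529 (PX [529] [436,467,498]) (by decide +kernel) v5_296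

theorem w5_313_529 : S (PX [] [436,467,529]) := VW.play 498 (PX [498] [436,467,529]) (by decide +kernel) v5_297

theorem v5_313 : VW (PX [] [436,467]) := VW.of base nl_ok fl_ok .nil
  [(343, (.cons 374 405 .nil (.cons 405 374 (.cons 498 529 .nil (.cons 529 498 .nil .nil)) .nil))), (560, (.cons 498 529 (.cons 374 405 .nil (.cons 405 374 .nil .nil)) (.cons 529 498 .nil .nil)))]
  [([374], (PX [] [374,436,467])), ([405], (PX [] [405,436,467])), ([498], (PX [] [436,467,498])), ([529], (PX [] [436,467,529]))]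
  (by decide +kernel) ⟨w5_313_374, w5_313_405, w5_313_498, w5_313_529, trivial⟩

theorem v5_314 : VW (PX [404,564] [436,468,500,532]) := VW.of base nl_ok fl_ok .nil
  []
  []
  (by decide +kernel) trivial

theorem v5_315 : VW (PX [404,532] [436,468,500,564]) := VW.of base nl_ok fl_ok .nil
  []
  []
  (by decide +kernel) trivial

theorem w5_316_532 : S (PX [404] [436,468,500,532]) := VW.play 564 (PX [404,564] [436,468,500,532]) (by decide +kernel) v5_314

theorem w5_316_564 : S (PX [404] [436,468,500,564]) := VW.play 532 (PX [404,532] [436,468,500,564]) (by decide +kernel) v5_315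

theorem v5_316 : VW (PX [404] [436,468,500]) := VW.of base nl_ok fl_ok (.cons 532 564 .nil (.cons 564 532 .nil .nil))
  [(596, (.cons 532 564 .nil (.cons 564 532 .nil .nil))), (628, (.cons 532 564 .nil (.cons 564 532 .nil .nil))), (660, (.cons 532 564 .nil (.cons 564 532 .nil .nil)))]
  [([532], (PX [404] [436,468,500,532])), ([564], (PX [404] [436,468,500,564]))]
  (by decide +kernel) ⟨w5_316_532, w5_316_564, trivial⟩

theorem v5_321 : VW (PX [500] [436,468,532]) := VW.of base nl_ok fl_ok .nil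
  [(340, (.cons 372 404 .nil (.cons 404 372 .nil .nil))), (372, (.cons 340 404 .nil (.cons 404 340 .nil .nil))), (404, (.cons 340 372 .nil (.cons 372 340 .nil .nil)))]
  []
  (by decide +kernel) trivial

theorem w5_333_372 : S (PX [] [372,436,468]) := VW.play 404 (PX [404] [372,436,468]) (by decide +kernel) v5_154

theorem w5_333_404 : S (PX [] [404,436,468]) := VW.play 372 (PX [372] [404,436,468]) (by decide +kernel) v5_181

theorem w5_333_500 : S (PX [] [436,468,500]) := VW.play 404 (PX [404] [436,468,500]) (by decide +kernel) v5_316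

theorem w5_333_532 : S (PX [] [436,468,532]) := VW.play 500 (PX [500] [436,468,532]) (by decide +kernel) v5_321

theorem v5_333 : VW (PX [] [436,468]) := VW.of base nl_ok fl_ok .nil
  [(340, (.cons 372 404 .nil (.cons 404 372 (.cons 500 532 .nil (.cons 532 500 .nil .nil)) .nil))), (564, (.cons 500 532 (.cons 372 404 .nil (.cons 404 372 .nil .nil)) (.cons 532 500 .nil .nil)))]
  [([372], (PX [] [372,436,468])), ([404], (PX [] [404,436,468])), ([500], (PX [] [436,468,500])), ([532], (PX [] [436,468,532]))]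
  (by decide +kernel) ⟨w5_333_372, w5_333_404, w5_333_500, w5_333_532, trivial⟩

theorem v5_334 : VW (PX [403,568] [436,469,502,535]) := VW.of base nl_ok fl_ok .nil
  []
  []
  (by decide +kernel) trivial

theorem v5_335 : VW (PX [403,535] [436,469,502,568]) := VW.of base nl_ok fl_ok .nil
  []
  []
  (by decide +kernel) trivial

theorem w5_336_535 : S (PX [403] [436,469,502,535]) := VW.play 568 (PX [403,568] [436,469,502,535]) (by decide +kernel) v5_334

theorem w5_336_568 : S (PX [403] [436,469,502,568]) := VW.play 535 (PX [403,535] [436,469,502,568]) (by decide +kernel) v5_335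

theorem v5_336 : VW (PX [403] [436,469,502]) := VW.of base nl_ok fl_ok (.cons 535 568 .nil (.cons 568 535 .nil .nil))
  [(601, (.cons 535 568 .nil (.cons 568 535 .nil .nil))), (634, (.cons 535 568 .nil (.cons 568 535 .nil .nil))), (667, (.cons 535 568 .nil (.cons 568 535 .nil .nil)))]
  [([535], (PX [403] [436,469,502,535])), ([568], (PX [403] [436,469,502,568]))]
  (by decide +kernel) ⟨w5_336_535, w5_336_568, trivial⟩

theorem v5_341 : VW (PX [502] [436,469,535]) := VW.of base nl_ok fl_ok .nil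
  [(337, (.cons 370 403 .nil (.cons 403 370 .nil .nil))), (370, (.cons 337 403 .nil (.cons 403 337 .nil .nil))), (403, (.cons 337 370 .nil (.cons 370 337 .nil .nil)))]
  []
  (by decide +kernel) trivial

theorem w5_342_370 : S (PX [] [370,436,469]) := VW.play 403 (PX [403] [370,436,469]) (by decide +kernel) v5_117

theorem w5_342_403 : S (PX [] [403,436,469]) := VW.play 370 (PX [370] [403,436,469]) (by decide +kernel) v5_173

theorem w5_342_502 : S (PX [] [436,469,502]) := VW.play 403 (PX [403] [436,469,502]) (by decide +kernel) v5_336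

theorem w5_342_535 : S (PX [] [436,469,535]) := VW.play 502 (PX [502] [436,469,535]) (by decide +kernel) v5_341

theorem v5_342 : VW (PX [] [436,469]) := VW.of base nl_ok fl_ok .nil
  [(337, (.cons 370 403 .nil (.cons 403 370 (.cons 502 535 .nil (.cons 535 502 .nil .nil)) .nil))), (568, (.cons 502 535 (.cons 370 403 .nil (.cons 403 370 .nil .nil)) (.cons 535 502 .nil .nil)))]
  [([370], (PX [] [370,436,469])), ([403], (PX [] [403,436,469])), ([502], (PX [] [436,469,502])), ([535], (PX [] [436,469,535]))]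
  (by decide +kernel) ⟨w5_342_370, w5_342_403, w5_342_502, w5_342_535, trivial⟩

theorem v5_343 : VW (PX [467] [436,498,529]) := VW.of base nl_ok fl_ok .nil
  [(560, (.cons 591 622 .nil (.cons 622 591 .nil .nil))), (591, (.cons 560 622 .nil (.cons 622 560 .nil .nil))), (622, (.cons 560 591 .nil (.cons 591 560 .nil .nil)))]
  []
  (by decide +kernel) trivial

theorem w5_346_374 : S (PX [] [374,436,498]) := VW.play 467 (PX [467] [374,436,498]) (by decide +kernel) v5_169

theorem w5_346_405 : S (PX [] [405,436,498]) := VW.play 467 (PX [467] [405,436,498]) (by decide +kernel) v5_201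

theorem w5_346_467 : S (PX [] [436,467,498]) := VW.play 529 (PX [529] [436,467,498]) (by decide +kernel) v5_296

theorem w5_346_529 : S (PX [] [436,498,529]) := VW.play 467 (PX [467] [436,498,529]) (by decide +kernel) v5_343

theorem v5_346 : VW (PX [] [436,498]) := VW.of base nl_ok fl_ok .nil
  [(560, (.cons 467 529 (.cons 374 405 .nil (.cons 405 374 .nil .nil)) (.cons 529 467 (.cons 591 622 .nil (.cons 622 591 .nil .nil)) .nil)))]
  [([374], (PX [] [374,436,498])), ([405], (PX [] [405,436,498])), ([467], (PX [] [436,467,498])), ([529], (PX [] [436,498,529]))]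
  (by decide +kernel) ⟨w5_346_374, w5_346_405, w5_346_467, w5_346_529, trivial⟩

theorem v5_361 : VW (PX [468] [436,500,532]) := VW.of base nl_ok fl_ok .nil
  [(564, (.cons 596 628 .nil (.cons 628 596 .nil .nil))), (596, (.cons 564 628 .nil (.cons 628 564 .nil .nil))), (628, (.cons 564 596 .nil (.cons 596 564 .nil .nil)))]
  []
  (by decide +kernel) trivial

theorem w5_364_404 : S (PX [] [404,436,500]) := VW.play 468 (PX [468] [404,436,500]) (by decide +kernel) v5_186

theorem w5_364_468 : S (PX [] [436,468,500]) := VW.play 404 (PX [404] [436,468,500]) (by decide +kernel) v5_316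

theorem w5_364_532 : S (PX [] [436,500,532]) := VW.play 468 (PX [468] [436,500,532]) (by decide +kernel) v5_361

theorem v5_364 : VW (PX [] [436,500]) := VW.of base nl_ok fl_ok .nil
  [(372, (.cons 404 468 (.cons 308 340 .nil (.cons 340 308 .nil .nil)) (.cons 468 404 (.cons 532 564 .nil (.cons 564 532 .nil .nil)) .nil))), (564, (.cons 468 532 (.cons 372 404 .nil (.cons 404 372 .nil .nil)) (.cons 532 468 (.cons 596 628 .nil (.cons 628 596 .nil .nil)) .nil)))]
  [([404], (PX [] [404,436,500])), ([468], (PX [] [436,468,500])), ([532], (PX [] [436,500,532]))]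
  (by decide +kernel) ⟨w5_364_404, w5_364_468, w5_364_532, trivial⟩

theorem v5_365 : VW (PX [469] [436,502,535]) := VW.of base nl_ok fl_ok .nil
  [(568, (.cons 601 634 .nil (.cons 634 601 .nil .nil))), (601, (.cons 568 634 .nil (.cons 634 568 .nil .nil))), (634, (.cons 568 601 .nil (.cons 601 568 .nil .nil)))]
  []
  (by decide +kernel) trivial

theorem w5_366_370 : S (PX [] [370,436,502]) := VW.play 403 (PX [403] [370,436,502]) (by decide +kernel) v5_118

theorem w5_366_403 : S (PX [] [403,436,502]) := VW.play 469 (PX [469] [403,436,502]) (by decide +kernel) v5_177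

theorem w5_366_469 : S (PX [] [436,469,502]) := VW.play 403 (PX [403] [436,469,502]) (by decide +kernel) v5_336

theorem w5_366_535 : S (PX [] [436,502,535]) := VW.play 469 (PX [469] [436,502,535]) (by decide +kernel) v5_365

theorem v5_366 : VW (PX [] [436,502]) := VW.of base nl_ok fl_ok .nil
  [(568, (.cons 469 535 (.cons 370 403 .nil (.cons 403 370 .nil .nil)) (.cons 535 469 (.cons 601 634 .nil (.cons 634 601 .nil .nil)) .nil)))]
  [([370], (PX [] [370,436,502])), ([403], (PX [] [403,436,502])), ([469], (PX [] [436,469,502])), ([535], (PX [] [436,502,535]))]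
  (by decide +kernel) ⟨w5_366_370, w5_366_403, w5_366_469, w5_366_535, trivial⟩

theorem w5_367_467 : S (PX [] [436,467,529]) := VW.play 498 (PX [498] [436,467,529]) (by decide +kernel) v5_297

theorem w5_367_498 : S (PX [] [436,498,529]) := VW.play 467 (PX [467] [436,498,529]) (by decide +kernel) v5_343

theorem v5_367 : VW (PX [] [436,529]) := VW.of base nl_ok fl_ok .nil
  [(405, (.cons 467 498 (.cons 343 374 .nil (.cons 374 343 .nil .nil)) (.cons 498 467 .nil .nil))), (560, (.cons 467 498 .nil (.cons 498 467 (.cons 591 622 .nil (.cons 622 591 .nil .nil)) .nil)))]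
  [([467], (PX [] [436,467,529])), ([498], (PX [] [436,498,529]))]
  (by decide +kernel) ⟨w5_367_467, w5_367_498, trivial⟩

theorem w5_368_468 : S (PX [] [436,468,532]) := VW.play 500 (PX [500] [436,468,532]) (by decide +kernel) v5_321

theorem w5_368_500 : S (PX [] [436,500,532]) := VW.play 468 (PX [468] [436,500,532]) (by decide +kernel) v5_361

theorem v5_368 : VW (PX [] [436,532]) := VW.of base nl_ok fl_ok .nil
  [(404, (.cons 468 500 (.cons 340 372 .nil (.cons 372 340 .nil .nil)) (.cons 500 468 .nil .nil))), (564, (.cons 468 500 .nil (.cons 500 468 (.cons 596 628 .nil (.cons 628 596 .nil .nil)) .nil)))]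
  [([468], (PX [] [436,468,532])), ([500], (PX [] [436,500,532]))]
  (by decide +kernel) ⟨w5_368_468, w5_368_500, trivial⟩

theorem w5_369_469 : S (PX [] [436,469,535]) := VW.play 502 (PX [502] [436,469,535]) (by decide +kernel) v5_341

theorem w5_369_502 : S (PX [] [436,502,535]) := VW.play 469 (PX [469] [436,502,535]) (by decide +kernel) v5_365

theorem v5_369 : VW (PX [] [436,535]) := VW.of base nl_ok fl_ok .nil
  [(403, (.cons 469 502 (.cons 337 370 .nil (.cons 370 337 .nil .nil)) (.cons 502 469 .nil .nil))), (568, (.cons 469 502 .nil (.cons 502 469 (.cons 601 634 .nil (.cons 634 601 .nil .nil)) .nil)))]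
  [([469], (PX [] [436,469,535])), ([502], (PX [] [436,502,535]))]
  (by decide +kernel) ⟨w5_369_469, w5_369_502, trivial⟩

theorem v5_370 : VW (PX [] [436,560]) := VW.of base nl_ok fl_ok .nil
  [(467, (.cons 498 529 (.cons 374 405 .nil (.cons 405 374 .nil .nil)) (.cons 529 498 .nil .nil))), (498, (.cons 467 529 (.cons 374 405 .nil (.cons 405 374 .nil .nil)) (.cons 529 467 (.cons 591 622 .nil (.cons 622 591 .nil .nil)) .nil))), (529, (.cons 467 498 .nil (.cons 498 467 (.cons 591 622 .nil (.cons 622 591 .nil .nil)) .nil)))]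
  []
  (by decide +kernel) trivial

theorem v5_371 : VW (PX [] [436,564]) := VW.of base nl_ok fl_ok .nil
  [(468, (.cons 500 532 (.cons 372 404 .nil (.cons 404 372 .nil .nil)) (.cons 532 500 .nil .nil))), (500, (.cons 468 532 (.cons 372 404 .nil (.cons 404 372 .nil .nil)) (.cons 532 468 (.cons 596 628 .nil (.cons 628 596 .nil .nil)) .nil))), (532, (.cons 468 500 .nil (.cons 500 468 (.cons 596 628 .nil (.cons 628 596 .nil .nil)) .nil)))]
  []
  (by decide +kernel) trivial

theorem v5_372 : VW (PX [] [436,568]) := VW.of base nl_ok fl_ok .nil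
  [(469, (.cons 502 535 (.cons 370 403 .nil (.cons 403 370 .nil .nil)) (.cons 535 502 .nil .nil))), (502, (.cons 469 535 (.cons 370 403 .nil (.cons 403 370 .nil .nil)) (.cons 535 469 (.cons 601 634 .nil (.cons 634 601 .nil .nil)) .nil))), (535, (.cons 469 502 .nil (.cons 502 469 (.cons 601 634 .nil (.cons 634 601 .nil .nil)) .nil)))]
  []
  (by decide +kernel) trivial

theorem r304 : S (Nat.lor X2 (bits [436, 304])) := VW.play 394 (PX [] [304,436]) (by decide +kernel) v5_23

theorem r308 : S (Nat.lor X2 (bits [436, 308])) := VW.play 394 (PX [] [308,436]) (by decide +kernel) v5_24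

theorem r312 : S (Nat.lor X2 (bits [436, 312])) := VW.play 394 (PX [] [312,436]) (by decide +kernel) v5_25

theorem r337 : S (Nat.lor X2 (bits [436, 337])) := VW.play 394 (PX [] [337,436]) (by decide +kernel) v5_49

theorem r340 : S (Nat.lor X2 (bits [436, 340])) := VW.play 394 (PX [] [340,436]) (by decide +kernel) v5_85

theorem r343 : S (Nat.lor X2 (bits [436, 343])) := VW.play 394 (PX [] [343,436]) (by decide +kernel) v5_99

theorem r370 : S (Nat.lor X2 (bits [436, 370])) := VW.play 394 (PX [] [370,436]) (by decide +kernel) v5_134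

theorem r372 : S (Nat.lor X2 (bits [436, 372])) := VW.play 394 (PX [] [372,436]) (by decide +kernel) v5_157

theorem r374 : S (Nat.lor X2 (bits [436, 374])) := VW.play 394 (PX [] [374,436]) (by decide +kernel) v5_170

theorem r403 : S (Nat.lor X2 (bits [436, 403])) := VW.play 394 (PX [] [403,436]) (by decide +kernel) v5_178

theorem r404 : S (Nat.lor X2 (bits [436, 404])) := VW.play 394 (PX [] [404,436]) (by decide +kernel) v5_198

theorem r405 : S (Nat.lor X2 (bits [436, 405])) := VW.play 394 (PX [] [405,436]) (by decide +kernel) v5_217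

theorem r432 : S (Nat.lor X2 (bits [436, 432])) := VW.play 394 (PX [] [432,436]) (by decide +kernel) v5_230

theorem r433 : S (Nat.lor X2 (bits [436, 433])) := VW.play 394 (PX [] [433,436]) (by decide +kernel) v5_253

theorem r434 : S (Nat.lor X2 (bits [436, 434])) := VW.play 394 (PX [] [434,436]) (by decide +kernel) v5_272

theorem r435 : S (Nat.lor X2 (bits [436, 435])) := VW.play 394 (PX [] [435,436]) (by decide +kernel) v5_279

theorem r437 : S (Nat.lor X2 (bits [436, 437])) := VW.play 394 (PX [] [436,437]) (by decide +kernel) v5_288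

theorem r438 : S (Nat.lor X2 (bits [436, 438])) := VW.play 394 (PX [] [436,438]) (by decide +kernel) v5_292

theorem r439 : S (Nat.lor X2 (bits [436, 439])) := VW.play 394 (PX [] [436,439]) (by decide +kernel) v5_293

theorem r440 : S (Nat.lor X2 (bits [436, 440])) := VW.play 394 (PX [] [436,440]) (by decide +kernel) v5_294

theorem r467 : S (Nat.lor X2 (bits [436, 467])) := VW.play 394 (PX [] [436,467]) (by decide +kernel) v5_313

theorem r468 : S (Nat.lor X2 (bits [436, 468])) := VW.play 394 (PX [] [436,468]) (by decide +kernel) v5_333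

theorem r469 : S (Nat.lor X2 (bits [436, 469])) := VW.play 394 (PX [] [436,469]) (by decide +kernel) v5_342

theorem r498 : S (Nat.lor X2 (bits [436, 498])) := VW.play 394 (PX [] [436,498]) (by decide +kernel) v5_346

theorem r500 : S (Nat.lor X2 (bits [436, 500])) := VW.play 394 (PX [] [436,500]) (by decide +kernel) v5_364

theorem r502 : S (Nat.lor X2 (bits [436, 502])) := VW.play 394 (PX [] [436,502]) (by decide +kernel) v5_366

theorem r529 : S (Nat.lor X2 (bits [436, 529])) := VW.play 394 (PX [] [436,529]) (by decide +kernel) v5_367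

theorem r532 : S (Nat.lor X2 (bits [436, 532])) := VW.play 394 (PX [] [436,532]) (by decide +kernel) v5_368

theorem r535 : S (Nat.lor X2 (bits [436, 535])) := VW.play 394 (PX [] [436,535]) (by decide +kernel) v5_369

theorem r560 : S (Nat.lor X2 (bits [436, 560])) := VW.play 394 (PX [] [436,560]) (by decide +kernel) v5_370

theorem r564 : S (Nat.lor X2 (bits [436, 564])) := VW.play 394 (PX [] [436,564]) (by decide +kernel) v5_371

theorem r568 : S (Nat.lor X2 (bits [436, 568])) := VW.play 394 (PX [] [436,568]) (by decide +kernel) v5_372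

theorem all : RT X2 436 (304 :: 308 :: 312 :: 337 :: 340 :: 343 :: 370 :: 372 :: 374 :: 403 :: 404 :: 405 :: 432 :: 433 :: 434 :: 435 :: 437 :: 438 :: 439 :: 440 :: 467 :: 468 :: 469 :: 498 :: 500 :: 502 :: 529 :: 532 :: 535 :: 560 :: 564 :: 568 :: []) := ⟨r304, r308, r312, r337, r340, r343, r370, r372, r374, r403, r404, r405, r432, r433, r434, r435, r437, r438, r439, r440, r467, r468, r469, r498, r500, r502, r529, r532, r535, r560, r564, r568, trivial⟩

end Pool.Agent.H94.Five.Mid.K9_2_0
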