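import Pool.Agent.H94.Five.Mid.Fam

set_option autoImplicit false
set_option linter.all false
set_option maxRecDepth 100000

/-! Second has the cell (9, 3): some of the other stones. -/

namespace Pool.Agent.H94.Five.Mid.K9_3_0

open Pool.Agent.H79.Five Pool.Agent.H10.Five Pool.Agent.H94.Five.M

abbrev nl : List Ent := [n0, n3, n4, n6, n8, n9, n10, n11, n16, n17, n21, n22]

theorem nl_ok : AC XB M0 nl := .cons n0k <| .cons n3k <| .cons n4k <| .cons n6k <| .cons n8k <| .cons n9k <| .cons n10k <| .cons n11k <| .cons n16k <| .cons n17k <| .cons n21k <| .cons n22k <| .nil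

abbrev fl : List Ent := (x35 :: x45 :: x55 :: x61 :: x65 :: x67 :: x73 :: x74 :: x98 :: x103 :: x104 :: x119 :: x123 :: x130 :: x131 :: x136 :: x142 :: x146 :: x161 :: x167 :: x171 :: x174 :: x183 :: x184 :: x187 :: x190 :: x200 :: x201 :: x204 :: x208 :: x214 :: x219 :: x221 :: x243 :: x245 :: x255 :: x258 :: x260 :: x266 :: x269 :: x277 :: x284 :: x291 :: x310 :: x313 :: x316 :: x318 :: x322 :: x328 :: x337 :: x341 :: x357 :: x364 :: x371 :: x375 :: x383 :: x390 :: x400 :: x413 :: x415 :: x423 :: x424 :: x426 :: x427 :: x434 :: x437 :: x444 :: x451 :: x452 :: x455 :: x462 :: x465 :: x501 :: x518 :: [])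

theorem fl_ok : AC XB M0 fl := .cons x35k <| .cons x45k <| .cons x55k <| .cons x61k <| .cons x65k <| .cons x67k <| .cons x73k <| .cons x74k <| .cons x98k <| .cons x103k <| .cons x104k <| .cons x119k <| .cons x123k <| .cons x130k <| .cons x131k <| .cons x136k <| .cons x142k <| .cons x146k <| .cons x161k <| .cons x167k <| .cons x171k <| .cons x174k <| .cons x183k <| .cons x184k <| .cons x187k <| .cons x190k <| .cons x200k <| .cons x201k <| .cons x204k <| .cons x208k <| .cons x214k <| .cons x219k <| .cons x221k <| .cons x243k <| .cons x245k <| .cons x255k <| .cons x258k <| .cons x260k <| .cons x266k <| .cons x269k <| .cons x277k <| .cons x284k <| .cons x291k <| .cons x310k <| .cons x313k <| .cons x316k <| .cons x318k <| .cons x322k <| .cons x328k <| .cons x337k <| .cons x341k <| .cons x357k <| .cons x364k <| .cons x371k <| .cons x375k <| .cons x383k <| .cons x390k <| .cons x400k <| .cons x413k <| .cons x415k <| .cons x423k <| .cons x424k <| .cons x426k <| .cons x427k <| .cons x434k <| .cons x437k <| .cons x444k <| .cons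 x451k <| .cons x452k <| .cons x455k <| .cons x462k <| .cons x465k <| .cons x501k <| .cons x518k <| .nil

theorem b5_333 : S (PX [270,402] [237,330,336,369,468]) := S.of (.q 395 (.a 1 [] (.d 393 392 392 393 397)
 (.a 1 [392] (.d 397 393 393 394 398)
 (.a 0 [393,397] (.q 427 (.a 1 [] (.d 331 1323 299 1355 459)
 (.a 1 [299] (.d 459 1355 331 1387 491)
 (.a 0 [331,459] (.q 460 (.a 1 [] (.d 361 2376 328 2409 493)
 (.a 1 [328] (.d 493 2409 361 2442 526)
 (.a 1 [361] (.r 332 3342 301 (.r 428 1356 364 (.r 425 3404 456 (.d 426 424 424 425 429))))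
 .e))))
 .e))))
 .e)))) (by decide +kernel)

theorem b5_334 : S (PX [270,402] [237,333,336,369,468]) := S.of (.q 395 (.a 1 [] (.d 393 392 392 393 397)
 (.a 1 [392] (.d 397 393 393 394 398)
 (.a 0 [393,397] (.q 427 (.a 1 [] (.d 331 1323 299 1355 459)
 (.a 1 [299] (.d 459 1355 331 1387 491)
 (.a 0 [331,459] (.q 429 (.a 1 [] (.d 330 2345 297 2378 462)
 (.a 1 [297] (.d 462 2378 330 2411 495)
 (.a 1 [330] (.r 332 3342 301 (.r 425 3404 456 (.r 428 425 426 (.d 364 1324 300 1356 460))))
 .e))))
 .e))))
 .e)))) (by decide +kernel)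

theorem b5_335 : S (PX [270,402] [237,336,365,369,468]) := S.of (.q 395 (.a 1 [] (.d 393 392 392 393 397)
 (.a 1 [392] (.d 397 393 393 394 398)
 (.a 0 [393,397] (.q 429 (.a 1 [] (.d 330 2345 297 2378 462)
 (.a 1 [297] (.d 462 2378 330 2411 495)
 (.a 0 [330,462] (.q 427 (.a 1 [] (.d 331 1323 299 1355 459)
 (.a 1 [299] (.d 459 1355 331 1387 491)
 (.a 1 [331] (.r 332 3342 301 (.r 425 3404 456 (.r 428 425 426 (.d 364 1324 300 1356 460))))
 .e))))
 .e))))
 .e)))) (by decide +kernel)

theorem b5_339 : S (PX [237,402] [270,330,336,369,468]) := S.of (.q 395 (.a 1 [] (.d 393 392 392 393 397)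
 (.a 1 [392] (.d 397 393 393 394 398)
 (.a 0 [393,397] (.q 427 (.a 1 [] (.d 331 1323 299 1355 459)
 (.a 1 [299] (.d 459 1355 331 1387 491)
 (.a 0 [331,459] (.q 460 (.a 1 [] (.d 361 2376 328 2409 493)
 (.a 1 [328] (.d 493 2409 361 2442 526)
 (.a 0 [361,493] (.q 365 (.a 1 [] (.d 334 3375 303 3406 458)
 (.a 1 [303] (.d 458 3406 334 3437 489)
 (.a 0 [334,458] (.q 332 (.a 1 [] (.d 425 3373 301 3404 456)
 (.a 1 [301] (.r 364 1356 428 (.d 366 362 362 363 367))
 .e)))
 .e))))
 .e))))
 .e))))
 .e)))) (by decide +kernel)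

theorem b5_343 : S (PX [270,402] [300,303,336,369,468]) := S.of (.q 395 (.a 1 [] (.d 393 392 392 393 397)
 (.a 1 [392] (.d 397 393 393 394 398)
 (.a 0 [393,397] (.q 429 (.a 1 [] (.d 330 2345 297 2378 462)
 (.a 1 [297] (.d 462 2378 330 2411 495)
 (.a 0 [330,462] (.q 427 (.a 1 [] (.d 331 1323 299 1355 459)
 (.a 1 [299] (.d 459 1355 331 1387 491)
 (.a 1 [331] (.r 332 3342 301 (.r 425 3404 456 (.r 428 425 426 (.r 460 1356 364 (.d 493 2409 361 2442 526)))))
 .e))))
 .e))))
 .e)))) (by decide +kernel)

theorem b5_344 : S (PX [270,402] [302,303,336,369,468]) := S.of (.q 395 (.a 1 [] (.d 393 392 392 393 397)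
 (.a 1 [392] (.d 397 393 393 394 398)
 (.a 0 [393,397] (.q 427 (.a 1 [] (.d 331 1323 299 1355 459)
 (.a 1 [299] (.d 459 1355 331 1387 491)
 (.a 0 [331,459] (.q 429 (.a 1 [] (.d 330 2345 297 2378 462)
 (.a 1 [297] (.d 462 2378 330 2411 495)
 (.a 1 [330] (.r 332 3342 301 (.r 425 3404 456 (.r 428 425 426 (.d 364 1324 300 1356 460))))
 .e))))
 .e))))
 .e)))) (by decide +kernel)

theorem b5_345 : S (PX [402] [332,336,369,468]) := S.of (.q 395 (.a 1 [] (.d 393 392 392 393 397)
 (.a 1 [392] (.d 397 393 393 394 398)
 (.a 0 [393,397] (.q 427 (.a 1 [] (.d 331 1323 299 1355 459)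
 (.a 1 [299] (.d 459 1355 331 1387 491)
 (.a 0 [331,459] (.q 330 (.a 1 [] (.d 297 2312 264 2345 429)
 (.a 1 [264] (.d 429 2345 297 2378 462)
 (.a 0 [297,429] (.q 365 (.a 1 [] (.d 334 3375 303 3406 458)
 (.a 1 [303] (.d 458 3406 334 3437 489)
 (.a 1 [334] (.r 458 3437 489 (.r 362 1354 426 (.d 364 361 361 362 366)))
 (.a 0 [458] (.q 362 (.a 1 [] (.d 364 361 361 362 366)
 (.a 1 [361] (.d 298 1290 266 1322 426)
 .e)))
 .e)))))
 .e))))
 .e))))
 .e)))) (by decide +kernel)

theorem b5_346 : S (PX [402] [333,336,369,468]) := S.of (.q 395 (.a 1 [] (.d 393 392 392 393 397)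
 (.a 1 [392] (.d 397 393 393 394 398)
 (.a 0 [393,397] (.q 427 (.a 1 [] (.d 331 1323 299 1355 459)
 (.a 1 [299] (.d 459 1355 331 1387 491)
 (.a 0 [331,459] (.q 429 (.a 1 [] (.d 330 2345 297 2378 462)
 (.a 1 [297] (.d 462 2378 330 2411 495)
 (.a 0 [330,462] (.q 332 (.a 1 [] (.d 301 3342 270 3373 425)
 (.a 1 [270] (.d 425 3373 301 3404 456)
 (.a 1 [301] (.r 425 3404 456 (.r 428 425 426 (.d 364 1324 300 1356 460)))
 (.a 0 [425] (.q 428 (.a 1 [] (.d 430 426 426 427 431)
 (.a 1 [426] (.d 364 1324 300 1356 460)
 .e)))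
 .e)))))
 .e))))
 .e))))
 .e)))) (by decide +kernel)

theorem b5_347 : S (PX [402] [336,365,369,468]) := S.of (.q 395 (.a 1 [] (.d 393 392 392 393 397)
 (.a 1 [392] (.d 397 393 393 394 398)
 (.a 0 [393,397] (.q 429 (.a 1 [] (.d 330 2345 297 2378 462)
 (.a 1 [297] (.d 462 2378 330 2411 495)
 (.a 0 [330,462] (.q 427 (.a 1 [] (.d 331 1323 299 1355 459)
 (.a 1 [299] (.d 459 1355 331 1387 491)
 (.a 0 [331,459] (.q 332 (.a 1 [] (.d 301 3342 270 3373 425)
 (.a 1 [270] (.d 425 3373 301 3404 456)
 (.a 1 [301] (.r 425 3404 456 (.r 428 425 426 (.d 364 1324 300 1356 460)))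
 (.a 0 [425] (.q 428 (.a 1 [] (.d 430 426 426 427 431)
 (.a 1 [426] (.d 364 1324 300 1356 460)
 .e)))
 .e)))))
 .e))))
 .e))))
 .e)))) (by decide +kernel)

theorem b5_348 : S (PX [402] [336,367,369,468]) := S.of (.q 395 (.a 1 [] (.d 393 392 392 393 397)
 (.a 1 [392] (.d 397 393 393 394 398)
 (.a 0 [393,397] (.q 427 (.a 1 [] (.d 331 1323 299 1355 459)
 (.a 1 [299] (.d 459 1355 331 1387 491)
 (.a 0 [331,459] (.q 429 (.a 1 [] (.d 330 2345 297 2378 462)
 (.a 1 [297] (.d 462 2378 330 2411 495)
 (.a 0 [330,462] (.q 332 (.a 1 [] (.d 301 3342 270 3373 425)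
 (.a 1 [270] (.d 425 3373 301 3404 456)
 (.a 1 [301] (.r 425 3404 456 (.r 428 425 426 (.d 364 1324 300 1356 460)))
 (.a 0 [425] (.q 428 (.a 1 [] (.d 430 426 426 427 431)
 (.a 1 [426] (.d 364 1324 300 1356 460)
 .e)))
 .e)))))
 .e))))
 .e))))
 .e)))) (by decide +kernel)

theorem b5_349 : S (PX [402] [336,369,425,468]) := S.of (.q 395 (.a 1 [] (.d 393 392 392 393 397)
 (.a 1 [392] (.d 397 393 393 394 398)
 (.a 0 [393,397] (.q 427 (.a 1 [] (.d 331 1323 299 1355 459)
 (.a 1 [299] (.d 459 1355 331 1387 491)
 (.a 0 [331,459] (.q 361 (.a 1 [] (.d 328 2343 295 2376 460)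
 (.a 1 [295] (.d 460 2376 328 2409 493)
 (.a 0 [328,460] (.q 458 (.a 1 [] (.d 365 3406 334 3437 489)
 (.a 1 [334] (.d 489 3437 365 3468 520)
 (.a 1 [489] (.r 365 3406 334 (.r 362 361 364 (.d 426 1354 330 1386 490)))
 (.a 0 [365] (.q 362 (.a 1 [] (.d 360 359 359 360 364)
 (.a 1 [359] (.d 426 1354 330 1386 490)
 .e)))
 .e)))))
 .e))))
 .e))))
 .e)))) (by decide +kernel)

theorem b5_350 : S (PX [402] [336,369,457,468]) := S.of (.q 395 (.a 1 [] (.d 393 392 392 393 397)
 (.a 1 [392] (.d 397 393 393 394 398)
 (.a 0 [393,397] (.q 427 (.a 1 [] (.d 331 1323 299 1355 459)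
 (.a 1 [299] (.d 459 1355 331 1387 491)
 (.a 0 [331,459] (.q 425 (.a 1 [] (.d 332 3373 301 3404 456)
 (.a 1 [301] (.d 456 3404 332 3435 487)
 (.a 0 [332,456] (.q 458 (.a 1 [] (.d 365 3406 334 3437 489)
 (.a 1 [334] (.d 489 3437 365 3468 520)
 (.a 0 [365,489] (.q 426 (.a 1 [] (.d 424 423 423 424 428)
 (.a 1 [423] (.d 428 424 424 425 429)
 (.a 1 [424] (.d 362 1354 330 1386 490)
 .e))))
 .e))))
 .e))))
 .e))))
 .e)))) (by decide +kernel)

theorem b5_438 : S (PX [] [365,464,468]) := S.of (.q 395 (.a 1 [] (.d 393 392 392 393 397)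
 (.a 1 [392] (.d 397 393 393 394 398)
 (.a 0 [393,397] (.q 429 (.a 1 [] (.d 330 2345 297 2378 462)
 (.a 1 [297] (.d 462 2378 330 2411 495)
 (.a 0 [330,462] (.q 427 (.a 1 [] (.d 331 1323 299 1355 459)
 (.a 1 [299] (.d 459 1355 331 1387 491)
 (.a 0 [331,459] (.q 460 (.a 1 [] (.d 361 2376 328 2409 493)
 (.a 1 [328] (.d 493 2409 361 2442 526)
 (.a 0 [361,493] (.q 428 (.a 1 [] (.d 426 425 425 426 430)
 (.a 1 [425] (.d 430 426 426 427 431)
 (.a 1 [426] (.d 364 1356 332 1388 492)
 .e))))
 .e))))
 .e))))
 .e))))
 .e)))) (by decide +kernel)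

theorem v5_373 : VW (PX [270,402] [237,336,369,468]) := VW.of base nl_ok fl_ok .nil
  []
  [([330], (PX [270,402] [237,330,336,369,468])), ([333], (PX [270,402] [237,333,336,369,468])), ([365], (PX [270,402] [237,336,365,369,468]))]
  (by decide +kernel) ⟨b5_333, b5_334, b5_335, trivial⟩

theorem v5_375 : VW (PX [237,402] [270,336,369,468]) := VW.of base nl_ok fl_ok .nil
  []
  [([330], (PX [237,402] [270,330,336,369,468]))]
  (by decide +kernel) ⟨b5_339, trivial⟩

theorem v5_378 : VW (PX [270,402] [303,336,369,468]) := VW.of base nl_ok fl_ok .nil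
  []
  [([300], (PX [270,402] [300,303,336,369,468])), ([302], (PX [270,402] [302,303,336,369,468]))]
  (by decide +kernel) ⟨b5_343, b5_344, trivial⟩

theorem w5_379_237 : S (PX [402] [237,336,369,468]) := VW.play 270 (PX [270,402] [237,336,369,468]) (by decide +kernel) v5_373

theorem w5_379_270 : S (PX [402] [270,336,369,468]) := VW.play 237 (PX [237,402] [270,336,369,468]) (by decide +kernel) v5_375

theorem w5_379_303 : S (PX [402] [303,336,369,468]) := VW.play 270 (PX [270,402] [303,336,369,468]) (by decide +kernel) v5_378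

theorem v5_379 : VW (PX [402] [336,369,468]) := VW.of base nl_ok fl_ok .nil
  []
  [([237], (PX [402] [237,336,369,468])), ([270], (PX [402] [270,336,369,468])), ([303], (PX [402] [303,336,369,468])), ([332], (PX [402] [332,336,369,468])), ([333], (PX [402] [333,336,369,468])), ([365], (PX [402] [336,365,369,468])), ([367], (PX [402] [336,367,369,468])), ([425], (PX [402] [336,369,425,468])), ([457], (PX [402] [336,369,457,468]))]
  (by decide +kernel) ⟨w5_379_237, w5_379_270, w5_379_303, b5_345, b5_346, b5_347, b5_348, b5_349, b5_350, trivial⟩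

theorem v5_387 : VW (PX [369] [336,402,468]) := VW.of base nl_ok fl_ok .nil
  [(435, (.cons 501 534 .nil (.cons 534 501 .nil .nil))), (501, (.cons 435 534 .nil (.cons 534 435 (.cons 567 600 .nil (.cons 600 567 .nil .nil)) .nil))), (534, (.cons 435 501 .nil (.cons 501 435 (.cons 567 600 .nil (.cons 600 567 .nil .nil)) .nil)))]
  []
  (by decide +kernel) trivial

theorem w5_396_369 : S (PX [] [336,369,468]) := VW.play 402 (PX [402] [336,369,468]) (by decide +kernel) v5_379

theorem w5_396_402 : S (PX [] [336,402,468]) := VW.play 369 (PX [369] [336,402,468]) (by decide +kernel) v5_387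

theorem v5_396 : VW (PX [] [336,468]) := VW.of base nl_ok fl_ok .nil
  [(435, (.cons 369 402 .nil (.cons 402 369 (.cons 501 534 .nil (.cons 534 501 .nil .nil)) .nil)))]
  [([369], (PX [] [336,369,468])), ([402], (PX [] [336,402,468]))]
  (by decide +kernel) ⟨w5_396_369, w5_396_402, trivial⟩

theorem v5_397 : VW (PX [] [340,468]) := VW.of base nl_ok fl_ok .nil
  [(372, (.cons 404 436 (.cons 276 308 .nil (.cons 308 276 .nil .nil)) (.cons 436 404 .nil .nil))), (404, (.cons 372 436 (.cons 276 308 .nil (.cons 308 276 .nil .nil)) (.cons 436 372 (.cons 500 532 .nil (.cons 532 500 .nil .nil)) .nil))), (436, (.cons 372 404 .nil (.cons 404 372 (.cons 500 532 .nil (.cons 532 500 .nil .nil)) .nil)))]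
  []
  (by decide +kernel) trivial

theorem v5_398 : VW (PX [] [344,468]) := VW.of base nl_ok fl_ok .nil
  [(375, (.cons 406 437 (.cons 282 313 .nil (.cons 313 282 .nil .nil)) (.cons 437 406 .nil .nil))), (406, (.cons 375 437 (.cons 282 313 .nil (.cons 313 282 .nil .nil)) (.cons 437 375 (.cons 499 530 .nil (.cons 530 499 .nil .nil)) .nil))), (437, (.cons 375 406 .nil (.cons 406 375 (.cons 499 530 .nil (.cons 530 499 .nil .nil)) .nil)))]
  []
  (by decide +kernel) trivial

theorem v5_399 : VW (PX [336,501] [369,402,435,468]) := VW.of base nl_ok fl_ok .nil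
  []
  []
  (by decide +kernel) trivial

theorem v5_400 : VW (PX [336,435] [369,402,468,501]) := VW.of base nl_ok fl_ok .nil
  [(534, (.cons 567 600 .nil (.cons 600 567 .nil .nil))), (567, (.cons 534 600 .nil (.cons 600 534 .nil .nil))), (600, (.cons 534 567 .nil (.cons 567 534 .nil .nil)))]
  []
  (by decide +kernel) trivial

theorem w5_401_435 : S (PX [336] [369,402,435,468]) := VW.play 501 (PX [336,501] [369,402,435,468]) (by decide +kernel) v5_399

theorem w5_401_501 : S (PX [336] [369,402,468,501]) := VW.play 435 (PX [336,435] [369,402,468,501]) (by decide +kernel) v5_400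

theorem v5_401 : VW (PX [336] [369,402,468]) := VW.of base nl_ok fl_ok (.cons 435 501 .nil (.cons 501 435 .nil .nil))
  [(534, (.cons 435 501 .nil (.cons 501 435 (.cons 567 600 .nil (.cons 600 567 .nil .nil)) .nil))), (567, (.cons 435 501 .nil (.cons 501 435 (.cons 534 600 .nil (.cons 600 534 .nil .nil)) .nil))), (600, (.cons 435 501 .nil (.cons 501 435 (.cons 534 567 .nil (.cons 567 534 .nil .nil)) .nil)))]
  [([435], (PX [336] [369,402,435,468])), ([501], (PX [336] [369,402,468,501]))]
  (by decide +kernel) ⟨w5_401_435, w5_401_501, trivial⟩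

theorem v5_421 : VW (PX [402] [369,435,468]) := VW.of base nl_ok fl_ok .nil
  [(501, (.cons 534 567 .nil (.cons 567 534 .nil .nil))), (534, (.cons 501 567 .nil (.cons 567 501 .nil .nil))), (567, (.cons 501 534 .nil (.cons 534 501 .nil .nil)))]
  []
  (by decide +kernel) trivial

theorem w5_422_336 : S (PX [] [336,369,468]) := VW.play 402 (PX [402] [336,369,468]) (by decide +kernel) v5_379

theorem w5_422_402 : S (PX [] [369,402,468]) := VW.play 336 (PX [336] [369,402,468]) (by decide +kernel) v5_401

theorem w5_422_435 : S (PX [] [369,435,468]) := VW.play 402 (PX [402] [369,435,468]) (by decide +kernel) v5_421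

theorem v5_422 : VW (PX [] [369,468]) := VW.of base nl_ok fl_ok .nil
  [(501, (.cons 402 435 .nil (.cons 435 402 (.cons 534 567 .nil (.cons 567 534 .nil .nil)) .nil)))]
  [([336], (PX [] [336,369,468])), ([402], (PX [] [369,402,468])), ([435], (PX [] [369,435,468]))]
  (by decide +kernel) ⟨w5_422_336, w5_422_402, w5_422_435, trivial⟩

theorem v5_425 : VW (PX [436] [372,404,468]) := VW.of base nl_ok fl_ok .nil
  [(276, (.cons 308 340 .nil (.cons 340 308 .nil .nil))), (308, (.cons 276 340 .nil (.cons 340 276 .nil .nil))), (340, (.cons 276 308 .nil (.cons 308 276 .nil .nil)))]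
  []
  (by decide +kernel) trivial

theorem v5_154 : VW (PX [404] [372,436,468]) := VW.of base nl_ok fl_ok .nil
  [(500, (.cons 532 564 .nil (.cons 564 532 .nil .nil))), (532, (.cons 500 564 .nil (.cons 564 500 .nil .nil))), (564, (.cons 500 532 .nil (.cons 532 500 .nil .nil)))]
  []
  (by decide +kernel) trivial

theorem w5_440_404 : S (PX [] [372,404,468]) := VW.play 436 (PX [436] [372,404,468]) (by decide +kernel) v5_425

theorem w5_440_436 : S (PX [] [372,436,468]) := VW.play 404 (PX [404] [372,436,468]) (by decide +kernel) v5_154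

theorem v5_440 : VW (PX [] [372,468]) := VW.of base nl_ok fl_ok .nil
  [(340, (.cons 404 436 (.cons 276 308 .nil (.cons 308 276 .nil .nil)) (.cons 436 404 .nil .nil))), (500, (.cons 404 436 .nil (.cons 436 404 (.cons 532 564 .nil (.cons 564 532 .nil .nil)) .nil)))]
  [([404], (PX [] [372,404,468])), ([436], (PX [] [372,436,468]))]
  (by decide +kernel) ⟨w5_440_404, w5_440_436, trivial⟩

theorem v5_444 : VW (PX [437] [375,406,468]) := VW.of base nl_ok fl_ok .nil
  [(282, (.cons 313 344 .nil (.cons 344 313 .nil .nil))), (313, (.cons 282 344 .nil (.cons 344 282 .nil .nil))), (344, (.cons 282 313 .nil (.cons 313 282 .nil .nil)))]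
  []
  (by decide +kernel) trivial

theorem v5_445 : VW (PX [406] [375,437,468]) := VW.of base nl_ok fl_ok .nil
  [(499, (.cons 530 561 .nil (.cons 561 530 .nil .nil))), (530, (.cons 499 561 .nil (.cons 561 499 .nil .nil))), (561, (.cons 499 530 .nil (.cons 530 499 .nil .nil)))]
  []
  (by decide +kernel) trivial

theorem w5_448_406 : S (PX [] [375,406,468]) := VW.play 437 (PX [437] [375,406,468]) (by decide +kernel) v5_444

theorem w5_448_437 : S (PX [] [375,437,468]) := VW.play 406 (PX [406] [375,437,468]) (by decide +kernel) v5_445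

theorem v5_448 : VW (PX [] [375,468]) := VW.of base nl_ok fl_ok .nil
  [(344, (.cons 406 437 (.cons 282 313 .nil (.cons 313 282 .nil .nil)) (.cons 437 406 .nil .nil))), (499, (.cons 406 437 .nil (.cons 437 406 (.cons 530 561 .nil (.cons 561 530 .nil .nil)) .nil)))]
  [([406], (PX [] [375,406,468])), ([437], (PX [] [375,437,468]))]
  (by decide +kernel) ⟨w5_448_406, w5_448_437, trivial⟩

theorem v5_449 : VW (PX [369,534] [402,435,468,501]) := VW.of base nl_ok fl_ok .nil
  []
  []
  (by decide +kernel) trivial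

theorem v5_450 : VW (PX [369,501] [402,435,468,534]) := VW.of base nl_ok fl_ok .nil
  []
  []
  (by decide +kernel) trivial

theorem w5_451_501 : S (PX [369] [402,435,468,501]) := VW.play 534 (PX [369,534] [402,435,468,501]) (by decide +kernel) v5_449

theorem w5_451_534 : S (PX [369] [402,435,468,534]) := VW.play 501 (PX [369,501] [402,435,468,534]) (by decide +kernel) v5_450

theorem v5_451 : VW (PX [369] [402,435,468]) := VW.of base nl_ok fl_ok (.cons 501 534 .nil (.cons 534 501 .nil .nil))
  [(567, (.cons 501 534 .nil (.cons 534 501 .nil .nil))), (600, (.cons 501 534 .nil (.cons 534 501 .nil .nil))), (633, (.cons 501 534 .nil (.cons 534 501 .nil .nil)))]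
  [([501], (PX [369] [402,435,468,501])), ([534], (PX [369] [402,435,468,534]))]
  (by decide +kernel) ⟨w5_451_501, w5_451_534, trivial⟩

theorem v5_466 : VW (PX [435] [402,468,501]) := VW.of base nl_ok fl_ok .nil
  [(534, (.cons 567 600 .nil (.cons 600 567 .nil .nil))), (567, (.cons 534 600 .nil (.cons 600 534 .nil .nil))), (600, (.cons 534 567 .nil (.cons 567 534 .nil .nil)))]
  []
  (by decide +kernel) trivial

theorem v5_467 : VW (PX [435] [402,468,534]) := VW.of base nl_ok fl_ok .nil
  [(501, (.cons 567 600 .nil (.cons 600 567 .nil .nil))), (567, (.cons 501 600 .nil (.cons 600 501 (.cons 633 666 .nil (.cons 666 633 .nil .nil)) .nil))), (600, (.cons 501 567 .nil (.cons 567 501 (.cons 633 666 .nil (.cons 666 633 .nil .nil)) .nil)))]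
  []
  (by decide +kernel) trivial

theorem w5_483_336 : S (PX [] [336,402,468]) := VW.play 369 (PX [369] [336,402,468]) (by decide +kernel) v5_387

theorem w5_483_369 : S (PX [] [369,402,468]) := VW.play 336 (PX [336] [369,402,468]) (by decide +kernel) v5_401

theorem w5_483_435 : S (PX [] [402,435,468]) := VW.play 369 (PX [369] [402,435,468]) (by decide +kernel) v5_451

theorem w5_483_501 : S (PX [] [402,468,501]) := VW.play 435 (PX [435] [402,468,501]) (by decide +kernel) v5_466

theorem w5_483_534 : S (PX [] [402,468,534]) := VW.play 435 (PX [435] [402,468,534]) (by decide +kernel) v5_467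

theorem v5_483 : VW (PX [] [402,468]) := VW.of base nl_ok fl_ok .nil
  []
  [([336], (PX [] [336,402,468])), ([369], (PX [] [369,402,468])), ([435], (PX [] [402,435,468])), ([501], (PX [] [402,468,501])), ([534], (PX [] [402,468,534]))]
  (by decide +kernel) ⟨w5_483_336, w5_483_369, w5_483_435, w5_483_501, w5_483_534, trivial⟩

theorem v5_179 : VW (PX [372,532] [404,436,468,500]) := VW.of base nl_ok fl_ok .nil
  []
  []
  (by decide +kernel) trivial

theorem v5_180 : VW (PX [372,500] [404,436,468,532]) := VW.of base nl_ok fl_ok .nil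
  []
  []
  (by decide +kernel) trivial

theorem w5_181_500 : S (PX [372] [404,436,468,500]) := VW.play 532 (PX [372,532] [404,436,468,500]) (by decide +kernel) v5_179

theorem w5_181_532 : S (PX [372] [404,436,468,532]) := VW.play 500 (PX [372,500] [404,436,468,532]) (by decide +kernel) v5_180

theorem v5_181 : VW (PX [372] [404,436,468]) := VW.of base nl_ok fl_ok (.cons 500 532 .nil (.cons 532 500 .nil .nil))
  [(564, (.cons 500 532 .nil (.cons 532 500 .nil .nil))), (596, (.cons 500 532 .nil (.cons 532 500 .nil .nil))), (628, (.cons 500 532 .nil (.cons 532 500 .nil .nil)))]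
  [([500], (PX [372] [404,436,468,500])), ([532], (PX [372] [404,436,468,532]))]
  (by decide +kernel) ⟨w5_181_500, w5_181_532, trivial⟩

theorem v5_498 : VW (PX [436] [404,468,500]) := VW.of base nl_ok fl_ok .nil
  [(532, (.cons 564 596 .nil (.cons 596 564 .nil .nil))), (564, (.cons 532 596 .nil (.cons 596 532 .nil .nil))), (596, (.cons 532 564 .nil (.cons 564 532 .nil .nil)))]
  []
  (by decide +kernel) trivial

theorem w5_501_372 : S (PX [] [372,404,468]) := VW.play 436 (PX [436] [372,404,468]) (by decide +kernel) v5_425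

theorem w5_501_436 : S (PX [] [404,436,468]) := VW.play 372 (PX [372] [404,436,468]) (by decide +kernel) v5_181

theorem w5_501_500 : S (PX [] [404,468,500]) := VW.play 436 (PX [436] [404,468,500]) (by decide +kernel) v5_498

theorem v5_501 : VW (PX [] [404,468]) := VW.of base nl_ok fl_ok .nil
  [(340, (.cons 372 436 (.cons 276 308 .nil (.cons 308 276 .nil .nil)) (.cons 436 372 (.cons 500 532 .nil (.cons 532 500 .nil .nil)) .nil))), (532, (.cons 436 500 (.cons 340 372 .nil (.cons 372 340 .nil .nil)) (.cons 500 436 (.cons 564 596 .nil (.cons 596 564 .nil .nil)) .nil)))]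
  [([372], (PX [] [372,404,468])), ([436], (PX [] [404,436,468])), ([500], (PX [] [404,468,500]))]
  (by decide +kernel) ⟨w5_501_372, w5_501_436, w5_501_500, trivial⟩

theorem v5_502 : VW (PX [375,530] [406,437,468,499]) := VW.of base nl_ok fl_ok .nil
  []
  []
  (by decide +kernel) trivial

theorem v5_503 : VW (PX [375,499] [406,437,468,530]) := VW.of base nl_ok fl_ok .nil
  []
  []
  (by decide +kernel) trivial

theorem w5_504_499 : S (PX [375] [406,437,468,499]) := VW.play 530 (PX [375,530] [406,437,468,499]) (by decide +kernel) v5_502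

theorem w5_504_530 : S (PX [375] [406,437,468,530]) := VW.play 499 (PX [375,499] [406,437,468,530]) (by decide +kernel) v5_503

theorem v5_504 : VW (PX [375] [406,437,468]) := VW.of base nl_ok fl_ok (.cons 499 530 .nil (.cons 530 499 .nil .nil))
  [(561, (.cons 499 530 .nil (.cons 530 499 .nil .nil))), (592, (.cons 499 530 .nil (.cons 530 499 .nil .nil))), (623, (.cons 499 530 .nil (.cons 530 499 .nil .nil)))]
  [([499], (PX [375] [406,437,468,499])), ([530], (PX [375] [406,437,468,530]))]
  (by decide +kernel) ⟨w5_504_499, w5_504_530, trivial⟩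

theorem v5_507 : VW (PX [437] [406,468,499]) := VW.of base nl_ok fl_ok .nil
  [(530, (.cons 561 592 .nil (.cons 592 561 .nil .nil))), (561, (.cons 530 592 .nil (.cons 592 530 .nil .nil))), (592, (.cons 530 561 .nil (.cons 561 530 .nil .nil)))]
  []
  (by decide +kernel) trivial

theorem w5_510_375 : S (PX [] [375,406,468]) := VW.play 437 (PX [437] [375,406,468]) (by decide +kernel) v5_444

theorem w5_510_437 : S (PX [] [406,437,468]) := VW.play 375 (PX [375] [406,437,468]) (by decide +kernel) v5_504

theorem w5_510_499 : S (PX [] [406,468,499]) := VW.play 437 (PX [437] [406,468,499]) (by decide +kernel) v5_507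

theorem v5_510 : VW (PX [] [406,468]) := VW.of base nl_ok fl_ok .nil
  [(344, (.cons 375 437 (.cons 282 313 .nil (.cons 313 282 .nil .nil)) (.cons 437 375 (.cons 499 530 .nil (.cons 530 499 .nil .nil)) .nil))), (530, (.cons 437 499 (.cons 344 375 .nil (.cons 375 344 .nil .nil)) (.cons 499 437 (.cons 561 592 .nil (.cons 592 561 .nil .nil)) .nil)))]
  [([375], (PX [] [375,406,468])), ([437], (PX [] [406,437,468])), ([499], (PX [] [406,468,499]))]
  (by decide +kernel) ⟨w5_510_375, w5_510_437, w5_510_499, trivial⟩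

theorem v5_511 : VW (PX [402,567] [435,468,501,534]) := VW.of base nl_ok fl_ok .nil
  []
  []
  (by decide +kernel) trivial

theorem v5_512 : VW (PX [402,534] [435,468,501,567]) := VW.of base nl_ok fl_ok .nil
  []
  []
  (by decide +kernel) trivial

theorem w5_513_534 : S (PX [402] [435,468,501,534]) := VW.play 567 (PX [402,567] [435,468,501,534]) (by decide +kernel) v5_511

theorem w5_513_567 : S (PX [402] [435,468,501,567]) := VW.play 534 (PX [402,534] [435,468,501,567]) (by decide +kernel) v5_512

theorem v5_513 : VW (PX [402] [435,468,501]) := VW.of base nl_ok fl_ok (.cons 534 567 .nil (.cons 567 534 .nil .nil))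
  [(600, (.cons 534 567 .nil (.cons 567 534 .nil .nil))), (633, (.cons 534 567 .nil (.cons 567 534 .nil .nil))), (666, (.cons 534 567 .nil (.cons 567 534 .nil .nil)))]
  [([534], (PX [402] [435,468,501,534])), ([567], (PX [402] [435,468,501,567]))]
  (by decide +kernel) ⟨w5_513_534, w5_513_567, trivial⟩

theorem v5_480 : VW (PX [336,501] [402,435,468,534]) := VW.of base nl_ok fl_ok .nil
  []
  []
  (by decide +kernel) trivial

theorem w5_516_402 : S (PX [501] [402,435,468,534]) := VW.play 336 (PX [336,501] [402,435,468,534]) (by decide +kernel) v5_480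

theorem v5_516 : VW (PX [501] [435,468,534]) := VW.of base nl_ok fl_ok .nil
  [(336, (.cons 369 402 .nil (.cons 402 369 .nil .nil))), (369, (.cons 336 402 .nil (.cons 402 336 .nil .nil)))]
  [([402], (PX [501] [402,435,468,534]))]
  (by decide +kernel) ⟨w5_516_402, trivial⟩

theorem w5_517_369 : S (PX [] [369,435,468]) := VW.play 402 (PX [402] [369,435,468]) (by decide +kernel) v5_421

theorem w5_517_402 : S (PX [] [402,435,468]) := VW.play 369 (PX [369] [402,435,468]) (by decide +kernel) v5_451

theorem w5_517_501 : S (PX [] [435,468,501]) := VW.play 402 (PX [402] [435,468,501]) (by decide +kernel) v5_513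

theorem w5_517_534 : S (PX [] [435,468,534]) := VW.play 501 (PX [501] [435,468,534]) (by decide +kernel) v5_516

theorem v5_517 : VW (PX [] [435,468]) := VW.of base nl_ok fl_ok .nil
  [(336, (.cons 369 402 .nil (.cons 402 369 (.cons 501 534 .nil (.cons 534 501 .nil .nil)) .nil))), (567, (.cons 501 534 (.cons 369 402 .nil (.cons 402 369 .nil .nil)) (.cons 534 501 .nil .nil)))]
  [([369], (PX [] [369,435,468])), ([402], (PX [] [402,435,468])), ([501], (PX [] [435,468,501])), ([534], (PX [] [435,468,534]))]
  (by decide +kernel) ⟨w5_517_369, w5_517_402, w5_517_501, w5_517_534, trivial⟩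

theorem v5_314 : VW (PX [404,564] [436,468,500,532]) := VW.of base nl_ok fl_ok .nil
  []
  []
  (by decide +kernel) trivial

theorem v5_315 : VW (PX [404,532] [436,468,500,564]) := VW.of base nl_ok fl_ok .nil
  []
  []
  (by decide +kernel) trivial

theorem w5_316_532 : S (PX [404] [436,468,500,532]) := VW.play 564 (PX [404,564] [436,468,500,532]) (by decide +kernel) v5_314

theorem w5_316_564 : S (PX [404] [436,468,500,564]) := VW.play 532 (PX [404,532] [436,468,500,564]) (by decide +kernel) v5_315

theorem v5_316 : VW (PX [404] [436,468,500]) := VW.of base nl_ok fl_ok (.cons 532 564 .nil (.cons 564 532 .nil .nil))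
  [(596, (.cons 532 564 .nil (.cons 564 532 .nil .nil))), (628, (.cons 532 564 .nil (.cons 564 532 .nil .nil))), (660, (.cons 532 564 .nil (.cons 564 532 .nil .nil)))]
  [([532], (PX [404] [436,468,500,532])), ([564], (PX [404] [436,468,500,564]))]
  (by decide +kernel) ⟨w5_316_532, w5_316_564, trivial⟩

theorem v5_321 : VW (PX [500] [436,468,532]) := VW.of base nl_ok fl_ok .nil
  [(340, (.cons 372 404 .nil (.cons 404 372 .nil .nil))), (372, (.cons 340 404 .nil (.cons 404 340 .nil .nil))), (404, (.cons 340 372 .nil (.cons 372 340 .nil .nil)))]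
  []
  (by decide +kernel) trivial

theorem w5_333_372 : S (PX [] [372,436,468]) := VW.play 404 (PX [404] [372,436,468]) (by decide +kernel) v5_154

theorem w5_333_404 : S (PX [] [404,436,468]) := VW.play 372 (PX [372] [404,436,468]) (by decide +kernel) v5_181

theorem w5_333_500 : S (PX [] [436,468,500]) := VW.play 404 (PX [404] [436,468,500]) (by decide +kernel) v5_316

theorem w5_333_532 : S (PX [] [436,468,532]) := VW.play 500 (PX [500] [436,468,532]) (by decide +kernel) v5_321

theorem v5_333 : VW (PX [] [436,468]) := VW.of base nl_ok fl_ok .nil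
  [(340, (.cons 372 404 .nil (.cons 404 372 (.cons 500 532 .nil (.cons 532 500 .nil .nil)) .nil))), (564, (.cons 500 532 (.cons 372 404 .nil (.cons 404 372 .nil .nil)) (.cons 532 500 .nil .nil)))]
  [([372], (PX [] [372,436,468])), ([404], (PX [] [404,436,468])), ([500], (PX [] [436,468,500])), ([532], (PX [] [436,468,532]))]
  (by decide +kernel) ⟨w5_333_372, w5_333_404, w5_333_500, w5_333_532, trivial⟩

theorem v5_518 : VW (PX [406,530] [375,437,468,499]) := VW.of base nl_ok fl_ok .nil
  []
  []
  (by decide +kernel) trivial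

theorem w5_519_375 : S (PX [530] [375,437,468,499]) := VW.play 406 (PX [406,530] [375,437,468,499]) (by decide +kernel) v5_518

theorem w5_519_406 : S (PX [530] [406,437,468,499]) := VW.play 375 (PX [375,530] [406,437,468,499]) (by decide +kernel) v5_502

theorem v5_519 : VW (PX [530] [437,468,499]) := VW.of base nl_ok fl_ok (.cons 375 406 .nil (.cons 406 375 .nil .nil))
  [(282, (.cons 375 406 .nil (.cons 406 375 .nil .nil))), (313, (.cons 375 406 .nil (.cons 406 375 .nil .nil))), (344, (.cons 375 406 .nil (.cons 406 375 .nil .nil)))]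
  [([375], (PX [530] [375,437,468,499])), ([406], (PX [530] [406,437,468,499]))]
  (by decide +kernel) ⟨w5_519_375, w5_519_406, trivial⟩

theorem v5_520 : VW (PX [499] [437,468,530]) := VW.of base nl_ok fl_ok .nil
  [(344, (.cons 375 406 .nil (.cons 406 375 .nil .nil))), (375, (.cons 344 406 .nil (.cons 406 344 .nil .nil))), (406, (.cons 344 375 .nil (.cons 375 344 .nil .nil)))]
  []
  (by decide +kernel) trivial

theorem w5_536_375 : S (PX [] [375,437,468]) := VW.play 406 (PX [406] [375,437,468]) (by decide +kernel) v5_445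

theorem w5_536_406 : S (PX [] [406,437,468]) := VW.play 375 (PX [375] [406,437,468]) (by decide +kernel) v5_504

theorem w5_536_499 : S (PX [] [437,468,499]) := VW.play 530 (PX [530] [437,468,499]) (by decide +kernel) v5_519

theorem w5_536_530 : S (PX [] [437,468,530]) := VW.play 499 (PX [499] [437,468,530]) (by decide +kernel) v5_520

theorem v5_536 : VW (PX [] [437,468]) := VW.of base nl_ok fl_ok .nil
  [(344, (.cons 375 406 .nil (.cons 406 375 (.cons 499 530 .nil (.cons 530 499 .nil .nil)) .nil))), (561, (.cons 499 530 (.cons 375 406 .nil (.cons 406 375 .nil .nil)) (.cons 530 499 .nil .nil)))]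
  [([375], (PX [] [375,437,468])), ([406], (PX [] [406,437,468])), ([499], (PX [] [437,468,499])), ([530], (PX [] [437,468,530]))]
  (by decide +kernel) ⟨w5_536_375, w5_536_406, w5_536_499, w5_536_530, trivial⟩

theorem v5_537 : VW (PX [] [464,468]) := VW.of base nl_ok fl_ok .nil
  [(465, (.cons 466 467 (.cons 462 463 .nil (.cons 463 462 .nil .nil)) (.cons 467 466 .nil .nil))), (466, (.cons 465 467 (.cons 462 463 .nil (.cons 463 462 .nil .nil)) (.cons 467 465 (.cons 469 470 .nil (.cons 470 469 .nil .nil)) .nil))), (467, (.cons 465 466 .nil (.cons 466 465 (.cons 469 470 .nil (.cons 470 469 .nil .nil)) .nil)))]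
  [([365], (PX [] [365,464,468]))]
  (by decide +kernel) ⟨b5_438, trivial⟩

theorem v5_538 : VW (PX [464,469] [465,466,467,468]) := VW.of base nl_ok fl_ok .nil
  []
  []
  (by decide +kernel) trivial

theorem v5_539 : VW (PX [464,467] [465,466,468,469]) := VW.of base nl_ok fl_ok .nil
  [(470, (.cons 471 472 .nil (.cons 472 471 .nil .nil))), (471, (.cons 470 472 .nil (.cons 472 470 .nil .nil))), (472, (.cons 470 471 .nil (.cons 471 470 .nil .nil)))]
  []
  (by decide +kernel) trivial

theorem w5_540_467 : S (PX [464] [465,466,467,468]) := VW.play 469 (PX [464,469] [465,466,467,468]) (by decide +kernel) v5_538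

theorem w5_540_469 : S (PX [464] [465,466,468,469]) := VW.play 467 (PX [464,467] [465,466,468,469]) (by decide +kernel) v5_539

theorem v5_540 : VW (PX [464] [465,466,468]) := VW.of base nl_ok fl_ok (.cons 467 469 .nil (.cons 469 467 .nil .nil))
  [(470, (.cons 467 469 .nil (.cons 469 467 (.cons 471 472 .nil (.cons 472 471 .nil .nil)) .nil))), (471, (.cons 467 469 .nil (.cons 469 467 (.cons 470 472 .nil (.cons 472 470 .nil .nil)) .nil))), (472, (.cons 467 469 .nil (.cons 469 467 (.cons 470 471 .nil (.cons 471 470 .nil .nil)) .nil)))]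
  [([467], (PX [464] [465,466,467,468])), ([469], (PX [464] [465,466,468,469]))]
  (by decide +kernel) ⟨w5_540_467, w5_540_469, trivial⟩

theorem v5_558 : VW (PX [466] [465,467,468]) := VW.of base nl_ok fl_ok .nil
  [(469, (.cons 470 471 .nil (.cons 471 470 .nil .nil))), (470, (.cons 469 471 .nil (.cons 471 469 .nil .nil))), (471, (.cons 469 470 .nil (.cons 470 469 .nil .nil)))]
  []
  (by decide +kernel) trivial

theorem w5_559_466 : S (PX [] [465,466,468]) := VW.play 464 (PX [464] [465,466,468]) (by decide +kernel) v5_540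

theorem w5_559_467 : S (PX [] [465,467,468]) := VW.play 466 (PX [466] [465,467,468]) (by decide +kernel) v5_558

theorem v5_559 : VW (PX [] [465,468]) := VW.of base nl_ok fl_ok .nil
  [(464, (.cons 466 467 (.cons 462 463 .nil (.cons 463 462 .nil .nil)) (.cons 467 466 .nil .nil))), (469, (.cons 466 467 .nil (.cons 467 466 (.cons 470 471 .nil (.cons 471 470 .nil .nil)) .nil)))]
  [([466], (PX [] [465,466,468])), ([467], (PX [] [465,467,468]))]
  (by decide +kernel) ⟨w5_559_466, w5_559_467, trivial⟩

theorem v5_560 : VW (PX [465,470] [466,467,468,469]) := VW.of base nl_ok fl_ok .nil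
  []
  []
  (by decide +kernel) trivial

theorem v5_561 : VW (PX [465,469] [466,467,468,470]) := VW.of base nl_ok fl_ok .nil
  []
  []
  (by decide +kernel) trivial

theorem w5_562_469 : S (PX [465] [466,467,468,469]) := VW.play 470 (PX [465,470] [466,467,468,469]) (by decide +kernel) v5_560

theorem w5_562_470 : S (PX [465] [466,467,468,470]) := VW.play 469 (PX [465,469] [466,467,468,470]) (by decide +kernel) v5_561

theorem v5_562 : VW (PX [465] [466,467,468]) := VW.of base nl_ok fl_ok (.cons 469 470 .nil (.cons 470 469 .nil .nil))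
  [(471, (.cons 469 470 .nil (.cons 470 469 .nil .nil))), (472, (.cons 469 470 .nil (.cons 470 469 .nil .nil))), (473, (.cons 469 470 .nil (.cons 470 469 .nil .nil)))]
  [([469], (PX [465] [466,467,468,469])), ([470], (PX [465] [466,467,468,470]))]
  (by decide +kernel) ⟨w5_562_469, w5_562_470, trivial⟩

theorem v5_577 : VW (PX [467] [466,468,469]) := VW.of base nl_ok fl_ok .nil
  [(470, (.cons 471 472 .nil (.cons 472 471 .nil .nil))), (471, (.cons 470 472 .nil (.cons 472 470 .nil .nil))), (472, (.cons 470 471 .nil (.cons 471 470 .nil .nil)))]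
  []
  (by decide +kernel) trivial

theorem w5_578_465 : S (PX [] [465,466,468]) := VW.play 464 (PX [464] [465,466,468]) (by decide +kernel) v5_540

theorem w5_578_467 : S (PX [] [466,467,468]) := VW.play 465 (PX [465] [466,467,468]) (by decide +kernel) v5_562

theorem w5_578_469 : S (PX [] [466,468,469]) := VW.play 467 (PX [467] [466,468,469]) (by decide +kernel) v5_577

theorem v5_578 : VW (PX [] [466,468]) := VW.of base nl_ok fl_ok .nil
  [(464, (.cons 465 467 (.cons 462 463 .nil (.cons 463 462 .nil .nil)) (.cons 467 465 (.cons 469 470 .nil (.cons 470 469 .nil .nil)) .nil))), (470, (.cons 467 469 (.cons 464 465 .nil (.cons 465 464 .nil .nil)) (.cons 469 467 (.cons 471 472 .nil (.cons 472 471 .nil .nil)) .nil)))]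
  [([465], (PX [] [465,466,468])), ([467], (PX [] [466,467,468])), ([469], (PX [] [466,468,469]))]
  (by decide +kernel) ⟨w5_578_465, w5_578_467, w5_578_469, trivial⟩

theorem v5_579 : VW (PX [466,471] [467,468,469,470]) := VW.of base nl_ok fl_ok .nil
  []
  []
  (by decide +kernel) trivial

theorem v5_580 : VW (PX [466,470] [467,468,469,471]) := VW.of base nl_ok fl_ok .nil
  []
  []
  (by decide +kernel) trivial

theorem w5_581_470 : S (PX [466] [467,468,469,470]) := VW.play 471 (PX [466,471] [467,468,469,470]) (by decide +kernel) v5_579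

theorem w5_581_471 : S (PX [466] [467,468,469,471]) := VW.play 470 (PX [466,470] [467,468,469,471]) (by decide +kernel) v5_580

theorem v5_581 : VW (PX [466] [467,468,469]) := VW.of base nl_ok fl_ok (.cons 470 471 .nil (.cons 471 470 .nil .nil))
  [(472, (.cons 470 471 .nil (.cons 471 470 .nil .nil))), (473, (.cons 470 471 .nil (.cons 471 470 .nil .nil))), (474, (.cons 470 471 .nil (.cons 471 470 .nil .nil)))]
  [([470], (PX [466] [467,468,469,470])), ([471], (PX [466] [467,468,469,471]))]
  (by decide +kernel) ⟨w5_581_470, w5_581_471, trivial⟩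

theorem v5_550 : VW (PX [464,469] [465,467,468,470]) := VW.of base nl_ok fl_ok .nil
  []
  []
  (by decide +kernel) trivial

theorem w5_585_465 : S (PX [469] [465,467,468,470]) := VW.play 464 (PX [464,469] [465,467,468,470]) (by decide +kernel) v5_550

theorem v5_585 : VW (PX [469] [467,468,470]) := VW.of base nl_ok fl_ok .nil
  [(464, (.cons 465 466 .nil (.cons 466 465 .nil .nil))), (466, (.cons 464 465 .nil (.cons 465 464 .nil .nil)))]
  [([465], (PX [469] [465,467,468,470]))]
  (by decide +kernel) ⟨w5_585_465, trivial⟩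

theorem w5_586_465 : S (PX [] [465,467,468]) := VW.play 466 (PX [466] [465,467,468]) (by decide +kernel) v5_558

theorem w5_586_466 : S (PX [] [466,467,468]) := VW.play 465 (PX [465] [466,467,468]) (by decide +kernel) v5_562

theorem w5_586_469 : S (PX [] [467,468,469]) := VW.play 466 (PX [466] [467,468,469]) (by decide +kernel) v5_581

theorem w5_586_470 : S (PX [] [467,468,470]) := VW.play 469 (PX [469] [467,468,470]) (by decide +kernel) v5_585

theorem v5_586 : VW (PX [] [467,468]) := VW.of base nl_ok fl_ok .nil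
  [(464, (.cons 465 466 .nil (.cons 466 465 (.cons 469 470 .nil (.cons 470 469 .nil .nil)) .nil))), (471, (.cons 469 470 (.cons 465 466 .nil (.cons 466 465 .nil .nil)) (.cons 470 469 .nil .nil)))]
  [([465], (PX [] [465,467,468])), ([466], (PX [] [466,467,468])), ([469], (PX [] [467,468,469])), ([470], (PX [] [467,468,470]))]
  (by decide +kernel) ⟨w5_586_465, w5_586_466, w5_586_469, w5_586_470, trivial⟩

theorem v5_587 : VW (PX [467,472] [468,469,470,471]) := VW.of base nl_ok fl_ok .nil
  []
  []
  (by decide +kernel) trivial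

theorem v5_588 : VW (PX [467,471] [468,469,470,472]) := VW.of base nl_ok fl_ok .nil
  []
  []
  (by decide +kernel) trivial

theorem w5_589_471 : S (PX [467] [468,469,470,471]) := VW.play 472 (PX [467,472] [468,469,470,471]) (by decide +kernel) v5_587

theorem w5_589_472 : S (PX [467] [468,469,470,472]) := VW.play 471 (PX [467,471] [468,469,470,472]) (by decide +kernel) v5_588

theorem v5_589 : VW (PX [467] [468,469,470]) := VW.of base nl_ok fl_ok (.cons 471 472 .nil (.cons 472 471 .nil .nil))
  [(473, (.cons 471 472 .nil (.cons 472 471 .nil .nil))), (474, (.cons 471 472 .nil (.cons 472 471 .nil .nil))), (475, (.cons 471 472 .nil (.cons 472 471 .nil .nil)))]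
  [([471], (PX [467] [468,469,470,471])), ([472], (PX [467] [468,469,470,472]))]
  (by decide +kernel) ⟨w5_589_471, w5_589_472, trivial⟩

theorem v5_594 : VW (PX [470] [468,469,471]) := VW.of base nl_ok fl_ok .nil
  [(465, (.cons 466 467 .nil (.cons 467 466 .nil .nil))), (466, (.cons 465 467 .nil (.cons 467 465 .nil .nil))), (467, (.cons 465 466 .nil (.cons 466 465 .nil .nil)))]
  []
  (by decide +kernel) trivial

theorem w5_595_466 : S (PX [] [466,468,469]) := VW.play 467 (PX [467] [466,468,469]) (by decide +kernel) v5_577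

theorem w5_595_467 : S (PX [] [467,468,469]) := VW.play 466 (PX [466] [467,468,469]) (by decide +kernel) v5_581

theorem w5_595_470 : S (PX [] [468,469,470]) := VW.play 467 (PX [467] [468,469,470]) (by decide +kernel) v5_589

theorem w5_595_471 : S (PX [] [468,469,471]) := VW.play 470 (PX [470] [468,469,471]) (by decide +kernel) v5_594

theorem v5_595 : VW (PX [] [468,469]) := VW.of base nl_ok fl_ok .nil
  [(465, (.cons 466 467 .nil (.cons 467 466 (.cons 470 471 .nil (.cons 471 470 .nil .nil)) .nil))), (472, (.cons 470 471 (.cons 466 467 .nil (.cons 467 466 .nil .nil)) (.cons 471 470 .nil .nil)))]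
  [([466], (PX [] [466,468,469])), ([467], (PX [] [467,468,469])), ([470], (PX [] [468,469,470])), ([471], (PX [] [468,469,471]))]
  (by decide +kernel) ⟨w5_595_466, w5_595_467, w5_595_470, w5_595_471, trivial⟩

theorem v5_596 : VW (PX [469] [468,470,471]) := VW.of base nl_ok fl_ok .nil
  [(472, (.cons 473 474 .nil (.cons 474 473 .nil .nil))), (473, (.cons 472 474 .nil (.cons 474 472 .nil .nil))), (474, (.cons 472 473 .nil (.cons 473 472 .nil .nil)))]
  []
  (by decide +kernel) trivial

theorem w5_597_467 : S (PX [] [467,468,470]) := VW.play 469 (PX [469] [467,468,470]) (by decide +kernel) v5_585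

theorem w5_597_469 : S (PX [] [468,469,470]) := VW.play 467 (PX [467] [468,469,470]) (by decide +kernel) v5_589

theorem w5_597_471 : S (PX [] [468,470,471]) := VW.play 469 (PX [469] [468,470,471]) (by decide +kernel) v5_596

theorem v5_597 : VW (PX [] [468,470]) := VW.of base nl_ok fl_ok .nil
  [(466, (.cons 467 469 (.cons 464 465 .nil (.cons 465 464 .nil .nil)) (.cons 469 467 (.cons 471 472 .nil (.cons 472 471 .nil .nil)) .nil))), (472, (.cons 469 471 (.cons 466 467 .nil (.cons 467 466 .nil .nil)) (.cons 471 469 (.cons 473 474 .nil (.cons 474 473 .nil .nil)) .nil)))]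
  [([467], (PX [] [467,468,470])), ([469], (PX [] [468,469,470])), ([471], (PX [] [468,470,471]))]
  (by decide +kernel) ⟨w5_597_467, w5_597_469, w5_597_471, trivial⟩

theorem w5_598_469 : S (PX [] [468,469,471]) := VW.play 470 (PX [470] [468,469,471]) (by decide +kernel) v5_594

theorem w5_598_470 : S (PX [] [468,470,471]) := VW.play 469 (PX [469] [468,470,471]) (by decide +kernel) v5_596

theorem v5_598 : VW (PX [] [468,471]) := VW.of base nl_ok fl_ok .nil
  [(467, (.cons 469 470 (.cons 465 466 .nil (.cons 466 465 .nil .nil)) (.cons 470 469 .nil .nil))), (472, (.cons 469 470 .nil (.cons 470 469 (.cons 473 474 .nil (.cons 474 473 .nil .nil)) .nil)))]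
  [([469], (PX [] [468,469,471])), ([470], (PX [] [468,470,471]))]
  (by decide +kernel) ⟨w5_598_469, w5_598_470, trivial⟩

theorem v5_599 : VW (PX [] [468,472]) := VW.of base nl_ok fl_ok .nil
  [(469, (.cons 470 471 (.cons 466 467 .nil (.cons 467 466 .nil .nil)) (.cons 471 470 .nil .nil))), (470, (.cons 469 471 (.cons 466 467 .nil (.cons 467 466 .nil .nil)) (.cons 471 469 (.cons 473 474 .nil (.cons 474 473 .nil .nil)) .nil))), (471, (.cons 469 470 .nil (.cons 470 469 (.cons 473 474 .nil (.cons 474 473 .nil .nil)) .nil)))]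
  []
  (by decide +kernel) trivial

theorem v5_600 : VW (PX [437,561] [406,468,499,530]) := VW.of base nl_ok fl_ok .nil
  []
  []
  (by decide +kernel) trivial

theorem v5_534 : VW (PX [406,561] [437,468,499,530]) := VW.of base nl_ok fl_ok .nil
  []
  []
  (by decide +kernel) trivial

theorem w5_601_406 : S (PX [561] [406,468,499,530]) := VW.play 437 (PX [437,561] [406,468,499,530]) (by decide +kernel) v5_600

theorem w5_601_437 : S (PX [561] [437,468,499,530]) := VW.play 406 (PX [406,561] [437,468,499,530]) (by decide +kernel) v5_534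

theorem v5_601 : VW (PX [561] [468,499,530]) := VW.of base nl_ok fl_ok (.cons 406 437 .nil (.cons 437 406 .nil .nil))
  [(313, (.cons 406 437 .nil (.cons 437 406 .nil .nil))), (344, (.cons 406 437 .nil (.cons 437 406 .nil .nil))), (375, (.cons 406 437 .nil (.cons 437 406 .nil .nil)))]
  [([406], (PX [561] [406,468,499,530])), ([437], (PX [561] [437,468,499,530]))]
  (by decide +kernel) ⟨w5_601_406, w5_601_437, trivial⟩

theorem v5_602 : VW (PX [530] [468,499,561]) := VW.of base nl_ok fl_ok .nil
  [(375, (.cons 406 437 .nil (.cons 437 406 .nil .nil))), (406, (.cons 375 437 .nil (.cons 437 375 .nil .nil))), (437, (.cons 375 406 .nil (.cons 406 375 .nil .nil)))]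
  []
  (by decide +kernel) trivial

theorem w5_618_406 : S (PX [] [406,468,499]) := VW.play 437 (PX [437] [406,468,499]) (by decide +kernel) v5_507

theorem w5_618_437 : S (PX [] [437,468,499]) := VW.play 530 (PX [530] [437,468,499]) (by decide +kernel) v5_519

theorem w5_618_530 : S (PX [] [468,499,530]) := VW.play 561 (PX [561] [468,499,530]) (by decide +kernel) v5_601

theorem w5_618_561 : S (PX [] [468,499,561]) := VW.play 530 (PX [530] [468,499,561]) (by decide +kernel) v5_602

theorem v5_618 : VW (PX [] [468,499]) := VW.of base nl_ok fl_ok .nil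
  [(375, (.cons 406 437 .nil (.cons 437 406 (.cons 530 561 .nil (.cons 561 530 .nil .nil)) .nil))), (592, (.cons 530 561 (.cons 406 437 .nil (.cons 437 406 .nil .nil)) (.cons 561 530 .nil .nil)))]
  [([406], (PX [] [406,468,499])), ([437], (PX [] [437,468,499])), ([530], (PX [] [468,499,530])), ([561], (PX [] [468,499,561]))]
  (by decide +kernel) ⟨w5_618_406, w5_618_437, w5_618_530, w5_618_561, trivial⟩

theorem v5_619 : VW (PX [436,596] [468,500,532,564]) := VW.of base nl_ok fl_ok .nil
  []
  []
  (by decide +kernel) trivial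

theorem v5_620 : VW (PX [436,564] [468,500,532,596]) := VW.of base nl_ok fl_ok .nil
  []
  []
  (by decide +kernel) trivial

theorem w5_621_564 : S (PX [436] [468,500,532,564]) := VW.play 596 (PX [436,596] [468,500,532,564]) (by decide +kernel) v5_619

theorem w5_621_596 : S (PX [436] [468,500,532,596]) := VW.play 564 (PX [436,564] [468,500,532,596]) (by decide +kernel) v5_620

theorem v5_621 : VW (PX [436] [468,500,532]) := VW.of base nl_ok fl_ok (.cons 564 596 .nil (.cons 596 564 .nil .nil))
  [(628, (.cons 564 596 .nil (.cons 596 564 .nil .nil))), (660, (.cons 564 596 .nil (.cons 596 564 .nil .nil))), (692, (.cons 564 596 .nil (.cons 596 564 .nil .nil)))]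
  [([564], (PX [436] [468,500,532,564])), ([596], (PX [436] [468,500,532,596]))]
  (by decide +kernel) ⟨w5_621_564, w5_621_596, trivial⟩

theorem v5_626 : VW (PX [532] [468,500,564]) := VW.of base nl_ok fl_ok .nil
  [(372, (.cons 404 436 .nil (.cons 436 404 .nil .nil))), (404, (.cons 372 436 .nil (.cons 436 372 .nil .nil))), (436, (.cons 372 404 .nil (.cons 404 372 .nil .nil)))]
  []
  (by decide +kernel) trivial

theorem w5_638_404 : S (PX [] [404,468,500]) := VW.play 436 (PX [436] [404,468,500]) (by decide +kernel) v5_498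

theorem w5_638_436 : S (PX [] [436,468,500]) := VW.play 404 (PX [404] [436,468,500]) (by decide +kernel) v5_316

theorem w5_638_532 : S (PX [] [468,500,532]) := VW.play 436 (PX [436] [468,500,532]) (by decide +kernel) v5_621

theorem w5_638_564 : S (PX [] [468,500,564]) := VW.play 532 (PX [532] [468,500,564]) (by decide +kernel) v5_626

theorem v5_638 : VW (PX [] [468,500]) := VW.of base nl_ok fl_ok .nil
  [(372, (.cons 404 436 .nil (.cons 436 404 (.cons 532 564 .nil (.cons 564 532 .nil .nil)) .nil))), (596, (.cons 532 564 (.cons 404 436 .nil (.cons 436 404 .nil .nil)) (.cons 564 532 .nil .nil)))]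
  [([404], (PX [] [404,468,500])), ([436], (PX [] [436,468,500])), ([532], (PX [] [468,500,532])), ([564], (PX [] [468,500,564]))]
  (by decide +kernel) ⟨w5_638_404, w5_638_436, w5_638_532, w5_638_564, trivial⟩

theorem v5_639 : VW (PX [435,600] [468,501,534,567]) := VW.of base nl_ok fl_ok .nil
  []
  []
  (by decide +kernel) trivial

theorem v5_640 : VW (PX [435,567] [468,501,534,600]) := VW.of base nl_ok fl_ok .nil
  []
  []
  (by decide +kernel) trivial

theorem w5_641_567 : S (PX [435] [468,501,534,567]) := VW.play 600 (PX [435,600] [468,501,534,567]) (by decide +kernel) v5_639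

theorem w5_641_600 : S (PX [435] [468,501,534,600]) := VW.play 567 (PX [435,567] [468,501,534,600]) (by decide +kernel) v5_640

theorem v5_641 : VW (PX [435] [468,501,534]) := VW.of base nl_ok fl_ok (.cons 567 600 .nil (.cons 600 567 .nil .nil))
  [(633, (.cons 567 600 .nil (.cons 600 567 .nil .nil))), (666, (.cons 567 600 .nil (.cons 600 567 .nil .nil))), (699, (.cons 567 600 .nil (.cons 600 567 .nil .nil)))]
  [([567], (PX [435] [468,501,534,567])), ([600], (PX [435] [468,501,534,600]))]
  (by decide +kernel) ⟨w5_641_567, w5_641_600, trivial⟩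

theorem v5_646 : VW (PX [534] [468,501,567]) := VW.of base nl_ok fl_ok .nil
  [(369, (.cons 402 435 .nil (.cons 435 402 .nil .nil))), (402, (.cons 369 435 .nil (.cons 435 369 .nil .nil))), (435, (.cons 369 402 .nil (.cons 402 369 .nil .nil)))]
  []
  (by decide +kernel) trivial

theorem w5_647_402 : S (PX [] [402,468,501]) := VW.play 435 (PX [435] [402,468,501]) (by decide +kernel) v5_466

theorem w5_647_435 : S (PX [] [435,468,501]) := VW.play 402 (PX [402] [435,468,501]) (by decide +kernel) v5_513

theorem w5_647_534 : S (PX [] [468,501,534]) := VW.play 435 (PX [435] [468,501,534]) (by decide +kernel) v5_641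

theorem w5_647_567 : S (PX [] [468,501,567]) := VW.play 534 (PX [534] [468,501,567]) (by decide +kernel) v5_646

theorem v5_647 : VW (PX [] [468,501]) := VW.of base nl_ok fl_ok .nil
  [(369, (.cons 402 435 .nil (.cons 435 402 (.cons 534 567 .nil (.cons 567 534 .nil .nil)) .nil))), (600, (.cons 534 567 (.cons 402 435 .nil (.cons 435 402 .nil .nil)) (.cons 567 534 .nil .nil)))]
  [([402], (PX [] [402,468,501])), ([435], (PX [] [435,468,501])), ([534], (PX [] [468,501,534])), ([567], (PX [] [468,501,567]))]
  (by decide +kernel) ⟨w5_647_402, w5_647_435, w5_647_534, w5_647_567, trivial⟩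

theorem v5_648 : VW (PX [499] [468,530,561]) := VW.of base nl_ok fl_ok .nil
  [(592, (.cons 623 654 .nil (.cons 654 623 .nil .nil))), (623, (.cons 592 654 .nil (.cons 654 592 .nil .nil))), (654, (.cons 592 623 .nil (.cons 623 592 .nil .nil)))]
  []
  (by decide +kernel) trivial

theorem w5_651_437 : S (PX [] [437,468,530]) := VW.play 499 (PX [499] [437,468,530]) (by decide +kernel) v5_520

theorem w5_651_499 : S (PX [] [468,499,530]) := VW.play 561 (PX [561] [468,499,530]) (by decide +kernel) v5_601

theorem w5_651_561 : S (PX [] [468,530,561]) := VW.play 499 (PX [499] [468,530,561]) (by decide +kernel) v5_648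

theorem v5_651 : VW (PX [] [468,530]) := VW.of base nl_ok fl_ok .nil
  [(406, (.cons 437 499 (.cons 344 375 .nil (.cons 375 344 .nil .nil)) (.cons 499 437 (.cons 561 592 .nil (.cons 592 561 .nil .nil)) .nil))), (592, (.cons 499 561 (.cons 406 437 .nil (.cons 437 406 .nil .nil)) (.cons 561 499 (.cons 623 654 .nil (.cons 654 623 .nil .nil)) .nil)))]
  [([437], (PX [] [437,468,530])), ([499], (PX [] [468,499,530])), ([561], (PX [] [468,530,561]))]
  (by decide +kernel) ⟨w5_651_437, w5_651_499, w5_651_561, trivial⟩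

theorem v5_666 : VW (PX [500] [468,532,564]) := VW.of base nl_ok fl_ok .nil
  [(596, (.cons 628 660 .nil (.cons 660 628 .nil .nil))), (628, (.cons 596 660 .nil (.cons 660 596 .nil .nil))), (660, (.cons 596 628 .nil (.cons 628 596 .nil .nil)))]
  []
  (by decide +kernel) trivial

theorem w5_669_436 : S (PX [] [436,468,532]) := VW.play 500 (PX [500] [436,468,532]) (by decide +kernel) v5_321

theorem w5_669_500 : S (PX [] [468,500,532]) := VW.play 436 (PX [436] [468,500,532]) (by decide +kernel) v5_621

theorem w5_669_564 : S (PX [] [468,532,564]) := VW.play 500 (PX [500] [468,532,564]) (by decide +kernel) v5_666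

theorem v5_669 : VW (PX [] [468,532]) := VW.of base nl_ok fl_ok .nil
  [(404, (.cons 436 500 (.cons 340 372 .nil (.cons 372 340 .nil .nil)) (.cons 500 436 (.cons 564 596 .nil (.cons 596 564 .nil .nil)) .nil))), (596, (.cons 500 564 (.cons 404 436 .nil (.cons 436 404 .nil .nil)) (.cons 564 500 (.cons 628 660 .nil (.cons 660 628 .nil .nil)) .nil)))]
  [([436], (PX [] [436,468,532])), ([500], (PX [] [468,500,532])), ([564], (PX [] [468,532,564]))]
  (by decide +kernel) ⟨w5_669_436, w5_669_500, w5_669_564, trivial⟩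

theorem v5_670 : VW (PX [501] [468,534,567]) := VW.of base nl_ok fl_ok .nil
  [(600, (.cons 633 666 .nil (.cons 666 633 .nil .nil))), (633, (.cons 600 666 .nil (.cons 666 600 .nil .nil))), (666, (.cons 600 633 .nil (.cons 633 600 .nil .nil)))]
  []
  (by decide +kernel) trivial

theorem w5_681_402 : S (PX [] [402,468,534]) := VW.play 435 (PX [435] [402,468,534]) (by decide +kernel) v5_467

theorem w5_681_435 : S (PX [] [435,468,534]) := VW.play 501 (PX [501] [435,468,534]) (by decide +kernel) v5_516

theorem w5_681_501 : S (PX [] [468,501,534]) := VW.play 435 (PX [435] [468,501,534]) (by decide +kernel) v5_641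

theorem w5_681_567 : S (PX [] [468,534,567]) := VW.play 501 (PX [501] [468,534,567]) (by decide +kernel) v5_670

theorem v5_681 : VW (PX [] [468,534]) := VW.of base nl_ok fl_ok .nil
  [(600, (.cons 501 567 (.cons 402 435 .nil (.cons 435 402 .nil .nil)) (.cons 567 501 (.cons 633 666 .nil (.cons 666 633 .nil .nil)) .nil)))]
  [([402], (PX [] [402,468,534])), ([435], (PX [] [435,468,534])), ([501], (PX [] [468,501,534])), ([567], (PX [] [468,534,567]))]
  (by decide +kernel) ⟨w5_681_402, w5_681_435, w5_681_501, w5_681_567, trivial⟩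

theorem w5_682_499 : S (PX [] [468,499,561]) := VW.play 530 (PX [530] [468,499,561]) (by decide +kernel) v5_602

theorem w5_682_530 : S (PX [] [468,530,561]) := VW.play 499 (PX [499] [468,530,561]) (by decide +kernel) v5_648

theorem v5_682 : VW (PX [] [468,561]) := VW.of base nl_ok fl_ok .nil
  [(437, (.cons 499 530 (.cons 375 406 .nil (.cons 406 375 .nil .nil)) (.cons 530 499 .nil .nil))), (592, (.cons 499 530 .nil (.cons 530 499 (.cons 623 654 .nil (.cons 654 623 .nil .nil)) .nil)))]
  [([499], (PX [] [468,499,561])), ([530], (PX [] [468,530,561]))]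
  (by decide +kernel) ⟨w5_682_499, w5_682_530, trivial⟩

theorem w5_683_500 : S (PX [] [468,500,564]) := VW.play 532 (PX [532] [468,500,564]) (by decide +kernel) v5_626

theorem w5_683_532 : S (PX [] [468,532,564]) := VW.play 500 (PX [500] [468,532,564]) (by decide +kernel) v5_666

theorem v5_683 : VW (PX [] [468,564]) := VW.of base nl_ok fl_ok .nil
  [(436, (.cons 500 532 (.cons 372 404 .nil (.cons 404 372 .nil .nil)) (.cons 532 500 .nil .nil))), (596, (.cons 500 532 .nil (.cons 532 500 (.cons 628 660 .nil (.cons 660 628 .nil .nil)) .nil)))]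
  [([500], (PX [] [468,500,564])), ([532], (PX [] [468,532,564]))]
  (by decide +kernel) ⟨w5_683_500, w5_683_532, trivial⟩

theorem w5_684_501 : S (PX [] [468,501,567]) := VW.play 534 (PX [534] [468,501,567]) (by decide +kernel) v5_646

theorem w5_684_534 : S (PX [] [468,534,567]) := VW.play 501 (PX [501] [468,534,567]) (by decide +kernel) v5_670

theorem v5_684 : VW (PX [] [468,567]) := VW.of base nl_ok fl_ok .nil
  [(435, (.cons 501 534 (.cons 369 402 .nil (.cons 402 369 .nil .nil)) (.cons 534 501 .nil .nil))), (600, (.cons 501 534 .nil (.cons 534 501 (.cons 633 666 .nil (.cons 666 633 .nil .nil)) .nil)))]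
  [([501], (PX [] [468,501,567])), ([534], (PX [] [468,534,567]))]
  (by decide +kernel) ⟨w5_684_501, w5_684_534, trivial⟩

theorem v5_685 : VW (PX [] [468,592]) := VW.of base nl_ok fl_ok .nil
  [(499, (.cons 530 561 (.cons 406 437 .nil (.cons 437 406 .nil .nil)) (.cons 561 530 .nil .nil))), (530, (.cons 499 561 (.cons 406 437 .nil (.cons 437 406 .nil .nil)) (.cons 561 499 (.cons 623 654 .nil (.cons 654 623 .nil .nil)) .nil))), (561, (.cons 499 530 .nil (.cons 530 499 (.cons 623 654 .nil (.cons 654 623 .nil .nil)) .nil)))]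
  []
  (by decide +kernel) trivial

theorem v5_686 : VW (PX [] [468,596]) := VW.of base nl_ok fl_ok .nil
  [(500, (.cons 532 564 (.cons 404 436 .nil (.cons 436 404 .nil .nil)) (.cons 564 532 .nil .nil))), (532, (.cons 500 564 (.cons 404 436 .nil (.cons 436 404 .nil .nil)) (.cons 564 500 (.cons 628 660 .nil (.cons 660 628 .nil .nil)) .nil))), (564, (.cons 500 532 .nil (.cons 532 500 (.cons 628 660 .nil (.cons 660 628 .nil .nil)) .nil)))]
  []
  (by decide +kernel) trivial

theorem v5_687 : VW (PX [] [468,600]) := VW.of base nl_ok fl_ok .nil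
  [(501, (.cons 534 567 (.cons 402 435 .nil (.cons 435 402 .nil .nil)) (.cons 567 534 .nil .nil))), (534, (.cons 501 567 (.cons 402 435 .nil (.cons 435 402 .nil .nil)) (.cons 567 501 (.cons 633 666 .nil (.cons 666 633 .nil .nil)) .nil))), (567, (.cons 501 534 .nil (.cons 534 501 (.cons 633 666 .nil (.cons 666 633 .nil .nil)) .nil)))]
  []
  (by decide +kernel) trivial

theorem r336 : S (Nat.lor X2 (bits [468, 336])) := VW.play 394 (PX [] [336,468]) (by decide +kernel) v5_396

theorem r340 : S (Nat.lor X2 (bits [468, 340])) := VW.play 394 (PX [] [340,468]) (by decide +kernel) v5_397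

theorem r344 : S (Nat.lor X2 (bits [468, 344])) := VW.play 394 (PX [] [344,468]) (by decide +kernel) v5_398

theorem r369 : S (Nat.lor X2 (bits [468, 369])) := VW.play 394 (PX [] [369,468]) (by decide +kernel) v5_422

theorem r372 : S (Nat.lor X2 (bits [468, 372])) := VW.play 394 (PX [] [372,468]) (by decide +kernel) v5_440

theorem r375 : S (Nat.lor X2 (bits [468, 375])) := VW.play 394 (PX [] [375,468]) (by decide +kernel) v5_448

theorem r402 : S (Nat.lor X2 (bits [468, 402])) := VW.play 394 (PX [] [402,468]) (by decide +kernel) v5_483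

theorem r404 : S (Nat.lor X2 (bits [468, 404])) := VW.play 394 (PX [] [404,468]) (by decide +kernel) v5_501

theorem r406 : S (Nat.lor X2 (bits [468, 406])) := VW.play 394 (PX [] [406,468]) (by decide +kernel) v5_510

theorem r435 : S (Nat.lor X2 (bits [468, 435])) := VW.play 394 (PX [] [435,468]) (by decide +kernel) v5_517

theorem r436 : S (Nat.lor X2 (bits [468, 436])) := VW.play 394 (PX [] [436,468]) (by decide +kernel) v5_333

theorem r437 : S (Nat.lor X2 (bits [468, 437])) := VW.play 394 (PX [] [437,468]) (by decide +kernel) v5_536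

theorem r464 : S (Nat.lor X2 (bits [468, 464])) := VW.play 394 (PX [] [464,468]) (by decide +kernel) v5_537

theorem r465 : S (Nat.lor X2 (bits [468, 465])) := VW.play 394 (PX [] [465,468]) (by decide +kernel) v5_559

theorem r466 : S (Nat.lor X2 (bits [468, 466])) := VW.play 394 (PX [] [466,468]) (by decide +kernel) v5_578

theorem r467 : S (Nat.lor X2 (bits [468, 467])) := VW.play 394 (PX [] [467,468]) (by decide +kernel) v5_586

theorem r469 : S (Nat.lor X2 (bits [468, 469])) := VW.play 394 (PX [] [468,469]) (by decide +kernel) v5_595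

theorem r470 : S (Nat.lor X2 (bits [468, 470])) := VW.play 394 (PX [] [468,470]) (by decide +kernel) v5_597

theorem r471 : S (Nat.lor X2 (bits [468, 471])) := VW.play 394 (PX [] [468,471]) (by decide +kernel) v5_598

theorem r472 : S (Nat.lor X2 (bits [468, 472])) := VW.play 394 (PX [] [468,472]) (by decide +kernel) v5_599

theorem r499 : S (Nat.lor X2 (bits [468, 499])) := VW.play 394 (PX [] [468,499]) (by decide +kernel) v5_618

theorem r500 : S (Nat.lor X2 (bits [468, 500])) := VW.play 394 (PX [] [468,500]) (by decide +kernel) v5_638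

theorem r501 : S (Nat.lor X2 (bits [468, 501])) := VW.play 394 (PX [] [468,501]) (by decide +kernel) v5_647

theorem r530 : S (Nat.lor X2 (bits [468, 530])) := VW.play 394 (PX [] [468,530]) (by decide +kernel) v5_651

theorem r532 : S (Nat.lor X2 (bits [468, 532])) := VW.play 394 (PX [] [468,532]) (by decide +kernel) v5_669

theorem r534 : S (Nat.lor X2 (bits [468, 534])) := VW.play 394 (PX [] [468,534]) (by decide +kernel) v5_681

theorem r561 : S (Nat.lor X2 (bits [468, 561])) := VW.play 394 (PX [] [468,561]) (by decide +kernel) v5_682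

theorem r564 : S (Nat.lor X2 (bits [468, 564])) := VW.play 394 (PX [] [468,564]) (by decide +kernel) v5_683

theorem r567 : S (Nat.lor X2 (bits [468, 567])) := VW.play 394 (PX [] [468,567]) (by decide +kernel) v5_684

theorem r592 : S (Nat.lor X2 (bits [468, 592])) := VW.play 394 (PX [] [468,592]) (by decide +kernel) v5_685

theorem r596 : S (Nat.lor X2 (bits [468, 596])) := VW.play 394 (PX [] [468,596]) (by decide +kernel) v5_686

theorem r600 : S (Nat.lor X2 (bits [468, 600])) := VW.play 394 (PX [] [468,600]) (by decide +kernel) v5_687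

theorem all : RT X2 468 (336 :: 340 :: 344 :: 369 :: 372 :: 375 :: 402 :: 404 :: 406 :: 435 :: 436 :: 437 :: 464 :: 465 :: 466 :: 467 :: 469 :: 470 :: 471 :: 472 :: 499 :: 500 :: 501 :: 530 :: 532 :: 534 :: 561 :: 564 :: 567 :: 592 :: 596 :: 600 :: []) := ⟨r336, r340, r344, r369, r372, r375, r402, r404, r406, r435, r436, r437, r464, r465, r466, r467, r469, r470, r471, r472, r499, r500, r501, r530, r532, r534, r561, r564, r567, r592, r596, r600, trivial⟩

end Pool.Agent.H94.Five.Mid.K9_3_0
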