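import Pool.Agent.H94.Five.Mid.Fam

set_option autoImplicit false
set_option linter.all false
set_option maxRecDepth 100000

/-! Second has the cell (9, 4): some of the other stones. -/

namespace Pool.Agent.H94.Five.Mid.K9_4_0

open Pool.Agent.H79.Five Pool.Agent.H10.Five Pool.Agent.H94.Five.M

abbrev nl : List Ent := [n0, n3, n4, n6, n8, n9, n10, n11, n16, n17, n21, n22]

theorem nl_ok : AC XB M0 nl := .cons n0k <| .cons n3k <| .cons n4k <| .cons n6k <| .cons n8k <| .cons n9k <| .cons n10k <| .cons n11k <| .cons n16k <| .cons n17k <| .cons n21k <| .cons n22k <| .nil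

abbrev fl : List Ent := (x3 :: x11 :: x28 :: x32 :: x34 :: x38 :: x45 :: x48 :: x54 :: x60 :: x64 :: x72 :: x73 :: x77 :: x79 :: x99 :: x101 :: x103 :: x107 :: x123 :: x130 :: x141 :: x142 :: x146 :: x148 :: x161 :: x167 :: x168 :: x174 :: x176 :: x177 :: x179 :: x183 :: x185 :: x187 :: x190 :: x193 :: x201 :: x204 :: x206 :: x214 :: x217 :: x234 :: x237 :: x238 :: x243 :: x245 :: x255 :: x258 :: x260 :: x266 :: x269 :: x270 :: x276 :: x277 :: x280 :: x284 :: x290 :: x291 :: x304 :: x310 :: x313 :: x315 :: x316 :: x318 :: x319 :: x322 :: x328 :: x333 :: x340 :: x343 :: x351 :: x355 :: x357 :: x362 :: x363 :: x364 :: x371 :: x375 :: x379 :: x383 :: x390 :: x393 :: x399 :: x400 :: x415 :: x420 :: x424 :: x426 :: x427 :: x429 :: x434 :: x437 :: x441 :: x444 :: x451 :: x455 :: x460 :: x462 :: x465 :: x487 :: x492 :: x493 :: x496 :: x497 :: x498 :: x500 :: x501 :: x507 :: x510 :: x513 :: x518 :: x527 :: [])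

theorem fl_ok : AC XB M0 fl := .cons x3k <| .cons x11k <| .cons x28k <| .cons x32k <| .cons x34k <| .cons x38k <| .cons x45k <| .cons x48k <| .cons x54k <| .cons x60k <| .cons x64k <| .cons x72k <| .cons x73k <| .cons x77k <| .cons x79k <| .cons x99k <| .cons x101k <| .cons x103k <| .cons x107k <| .cons x123k <| .cons x130k <| .cons x141k <| .cons x142k <| .cons x146k <| .cons x148k <| .cons x161k <| .cons x167k <| .cons x168k <| .cons x174k <| .cons x176k <| .cons x177k <| .cons x179k <| .cons x183k <| .cons x185k <| .cons x187k <| .cons x190k <| .cons x193k <| .cons x201k <| .cons x204k <| .cons x206k <| .cons x214k <| .cons x217k <| .cons x234k <| .cons x237k <| .cons x238k <| .cons x243k <| .cons x245k <| .cons x255k <| .cons x258k <| .cons x260k <| .cons x266k <| .cons x269k <| .cons x270k <| .cons x276k <| .cons x277k <| .cons x280k <| .cons x284k <| .cons x290k <| .cons x291k <| .cons x304k <| .cons x310k <| .cons x313k <| .cons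 x315k <| .cons x316k <| .cons x318k <| .cons x319k <| .cons x322k <| .cons x328k <| .cons x333k <| .cons x340k <| .cons x343k <| .cons x351k <| .cons x355k <| .cons x357k <| .cons x362k <| .cons x363k <| .cons x364k <| .cons x371k <| .cons x375k <| .cons x379k <| .cons x383k <| .cons x390k <| .cons x393k <| .cons x399k <| .cons x400k <| .cons x415k <| .cons x420k <| .cons x424k <| .cons x426k <| .cons x427k <| .cons x429k <| .cons x434k <| .cons x437k <| .cons x441k <| .cons x444k <| .cons x451k <| .cons x455k <| .cons x460k <| .cons x462k <| .cons x465k <| .cons x487k <| .cons x492k <| .cons x493k <| .cons x496k <| .cons x497k <| .cons x498k <| .cons x500k <| .cons x501k <| .cons x507k <| .cons x510k <| .cons x513k <| .cons x518k <| .cons x527k <| .nil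

theorem b5_444 : S (PX [434] [269,368,401,500]) := S.of (.q 332 (.a 1 [] (.d 301 3342 270 3373 425)
 (.a 0 [301] (.q 429 (.a 1 [] (.d 330 2345 297 2378 462)
 (.a 0 [330] (.r 425 3404 456 (.q 428 (.a 1 [] (.d 364 1324 300 1356 460)
 (.a 1 [364] (.r 427 425 426 (.q 395 (.a 1 [] (.d 393 392 392 393 397)
 (.a 1 [335] (.q 302 (.a 1 [] (.d 393 392 392 393 397)
 (.a 1 [397] (.d 459 1355 331 1387 491)
 .e)))
 (.a 1 [302] (.q 335 (.a 1 [] (.d 393 392 392 393 397)
 (.a 1 [397] (.d 331 1323 299 1355 459)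
 .e)))
 (.a 1 [397] (.d 331 1323 299 1355 459)
 .e))))))
 (.a 1 [460] (.r 427 425 426 (.r 431 427 430 (.r 300 1324 364 (.r 462 2411 495 (.q 395 (.a 1 [] (.d 393 392 392 393 397)
 (.a 1 [335] (.q 302 (.a 1 [] (.d 393 392 392 393 397)
 (.a 1 [397] (.d 331 1323 299 1355 459)
 .e)))
 (.a 1 [302] (.q 335 (.a 1 [] (.d 393 392 392 393 397)
 (.a 1 [397] (.d 459 1355 331 1387 491)
 .e)))
 (.a 1 [397] (.d 331 1323 299 1355 459)
 .e)))))))))
 (.a 1 [335] (.q 302 (.a 1 [] (.d 364 1324 300 1356 460)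
 (.a 1 [364] (.q 395 (.a 1 [] (.d 393 392 392 393 397)
 (.a 1 [392] (.d 397 393 393 394 398)
 (.a 1 [393] (.r 427 425 426 (.d 459 1355 331 1387 491))
 .e))))
 (.a 1 [300] (.r 427 425 426 (.r 460 1356 364 (.d 493 2409 361 2442 526)))
 .e))))
 (.a 1 [302] (.q 335 (.a 1 [] (.d 364 1324 300 1356 460)
 (.a 1 [364] (.q 397 (.a 1 [] (.d 395 393 393 394 398)
 (.a 1 [393] (.d 366 3376 304 3407 459)
 .e)))
 (.a 1 [300] (.r 427 425 426 (.r 460 1356 364 (.d 493 2409 361 2442 526)))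
 .e))))
 (.a 1 [300] (.r 427 425 426 (.r 460 1356 364 (.d 493 2409 361 2442 526)))
 .e))))))))
 (.a 1 [462] (.r 330 2345 297 (.r 425 3404 456 (.q 428 (.a 1 [] (.d 364 1324 300 1356 460)
 (.a 1 [335] (.q 302 (.a 1 [] (.d 364 1324 300 1356 460)
 (.a 1 [364] (.r 426 425 427 (.d 362 1322 298 1354 458))
 .e)))
 (.a 1 [302] (.q 335 (.a 1 [] (.d 364 1324 300 1356 460)
 (.a 1 [364] (.r 426 425 427 (.d 362 1322 298 1354 458))
 .e)))
 (.a 1 [364] (.r 426 425 427 (.d 362 1322 298 1354 458))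
 .e)))))))
 (.a 1 [302] (.q 335 (.a 1 [] (.d 330 2345 297 2378 462)
 (.a 1 [330] (.q 397 (.a 1 [] (.d 395 393 393 394 398)
 (.a 0 [393,395,398] (.q 428 (.a 1 [] (.d 364 1324 300 1356 460)
 (.a 1 [300] (.d 366 3376 304 3407 459)
 .e)))
 .e)))
 (.a 1 [297] (.d 462 2378 330 2411 495)
 .e))))
 (.a 1 [335] (.q 302 (.a 1 [] (.d 462 2378 330 2411 495)
 (.a 1 [330] (.q 364 (.a 1 [] (.d 300 1292 268 1324 428)
 (.a 1 [268] (.d 428 1324 300 1356 460)
 (.a 0 [300,428] (.q 395 (.a 1 [] (.d 393 392 392 393 397)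
 (.a 1 [392] (.d 397 393 393 394 398)
 (.a 1 [393] (.d 333 3343 271 3374 426)
 .e))))
 .e))))
 .e)))
 (.a 1 [297] (.d 462 2378 330 2411 495)
 .e)))))))
 (.a 1 [425] (.q 302 (.a 1 [] (.q 300 (.a 1 [] (.d 364 1292 268 1324 428)
 (.a 1 [268] (.r 301 3342 270 (.d 303 299 299 300 304))
 .e)))
 (.a 1 [270] (.q 364 (.a 1 [] (.d 300 1292 268 1324 428)
 (.a 1 [268] (.d 428 1324 300 1356 460)
 (.a 0 [300,428] (.q 395 (.a 1 [] (.d 393 392 392 393 397)
 (.a 1 [392] (.d 397 393 393 394 398)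
 (.a 1 [393] (.d 333 3343 271 3374 426)
 .e))))
 .e))))
 (.a 1 [364] (.q 395 (.a 1 [] (.d 393 392 392 393 397)
 (.a 1 [392] (.d 397 393 393 394 398)
 (.a 0 [393,397] (.q 299 (.a 1 [] (.d 331 1291 267 1323 427)
 (.a 1 [267] (.r 301 3342 270 (.d 300 298 298 299 303))
 .e)))
 .e))))
 (.a 1 [300] (.q 395 (.a 1 [] (.d 393 392 392 393 397)
 (.a 1 [392] (.d 397 393 393 394 398)
 (.a 0 [393,397] (.q 331 (.a 1 [] (.d 299 1291 267 1323 427)
 (.a 1 [267] (.d 427 1323 299 1355 459)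
 (.a 0 [299,427] (.q 330 (.a 1 [] (.d 329 328 328 329 333)
 (.a 1 [328] (.d 333 329 329 330 334)
 (.a 1 [329] (.d 297 2312 264 2345 429)
 .e))))
 .e))))
 .e))))
 (.a 1 [268] (.q 330 (.a 1 [] (.d 297 2312 264 2345 429)
 (.a 1 [264] (.d 429 2345 297 2378 462)
 (.a 0 [297,429] (.q 395 (.a 1 [] (.d 393 392 392 393 397)
 (.a 1 [392] (.d 397 393 393 394 398)
 (.a 0 [393,397] (.q 329 (.a 1 [] (.d 331 328 328 329 333)
 (.a 1 [328] (.r 331 329 333 (.d 427 1323 299 1355 459))
 (.a 1 [333] (.r 331 328 328 (.d 427 1323 299 1355 459))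
 (.a 0 [331] (.q 362 (.a 1 [] (.d 298 1290 266 1322 426)
 (.a 1 [266] (.d 426 1322 298 1354 458)
 (.a 1 [298] (.d 296 2311 263 2344 428)
 .e))))
 .e)))))
 .e))))
 .e))))
 (.a 1 [271] (.q 364 (.a 1 [] (.d 300 1292 268 1324 428)
 (.a 1 [268] (.d 428 1324 300 1356 460)
 (.a 0 [300,428] (.q 366 (.a 1 [] (.d 365 362 362 363 367)
 (.a 1 [362] (.r 270 3342 301 (.d 334 1262 238 1294 398))
 .e)))
 .e))))
 (.a 1 [266] (.q 364 (.a 1 [] (.d 300 1292 268 1324 428)
 (.a 1 [268] (.d 428 1324 300 1356 460)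
 (.a 0 [300,428] (.q 395 (.a 1 [] (.d 393 392 392 393 397)
 (.a 1 [392] (.d 397 393 393 394 398)
 (.a 1 [393] (.d 333 3343 271 3374 426)
 .e))))
 .e))))
 (.a 1 [267] (.q 364 (.a 1 [] (.d 300 1292 268 1324 428)
 (.a 1 [268] (.d 428 1324 300 1356 460)
 (.a 0 [300,428] (.q 395 (.a 1 [] (.d 393 392 392 393 397)
 (.a 1 [392] (.d 397 393 393 394 398)
 (.a 1 [393] (.d 333 3343 271 3374 426)
 .e))))
 .e))))
 (.a 1 [265] (.q 300 (.a 1 [] (.d 364 1292 268 1324 428)
 (.a 1 [268] (.r 301 3342 270 (.d 303 299 299 300 304))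
 .e)))
 .e))))))))))
 (.a 1 [335] (.q 302 (.a 1 [] (.d 425 3373 301 3404 456)
 (.a 1 [301] (.q 364 (.a 1 [] (.d 300 1292 268 1324 428)
 (.a 1 [268] (.d 428 1324 300 1356 460)
 (.a 0 [300,428] (.q 395 (.a 1 [] (.d 393 392 392 393 397)
 (.a 1 [392] (.d 397 393 393 394 398)
 (.a 1 [393] (.d 333 3343 271 3374 426)
 .e))))
 .e))))
 .e)))
 (.a 1 [302] (.q 335 (.a 1 [] (.d 425 3373 301 3404 456)
 (.a 1 [301] (.q 330 (.a 1 [] (.d 297 2312 264 2345 429)
 (.a 1 [264] (.d 429 2345 297 2378 462)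
 (.a 0 [297,429] (.q 333 (.a 1 [] (.d 331 329 329 330 334)
 (.a 1 [329] (.d 334 330 331 332 336)
 (.a 0 [331,334] (.q 395 (.a 1 [] (.d 393 392 392 393 397)
 (.a 1 [392] (.d 397 393 393 394 398)
 (.a 0 [393,397] (.q 362 (.a 1 [] (.d 298 1290 266 1322 426)
 (.a 1 [266] (.d 426 1322 298 1354 458)
 (.a 1 [298] (.r 426 1354 458 (.r 364 3405 457 (.d 428 1324 300 1356 460)))
 (.a 0 [426] (.q 364 (.a 1 [] (.d 361 360 360 361 365)
 (.a 1 [360] (.d 365 361 361 362 366)
 (.a 1 [361] (.d 300 1292 268 1324 428)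
 .e))))
 .e)))))
 .e))))
 .e))))
 .e))))
 (.a 1 [425] (.q 364 (.a 1 [] (.d 300 1292 268 1324 428)
 (.a 1 [268] (.d 428 1324 300 1356 460)
 (.a 0 [300,428] (.q 362 (.a 1 [] (.d 361 360 360 361 365)
 (.a 1 [360] (.d 365 361 361 362 366)
 (.a 0 [361,365] (.q 330 (.a 1 [] (.d 298 1290 266 1322 426)
 (.a 1 [266] (.d 426 1322 298 1354 458)
 (.a 1 [298] (.d 297 2312 264 2345 429)
 .e))))
 .e))))
 .e))))
 .e))))
 (.a 1 [270] (.d 425 3373 301 3404 456)
 .e))))))) (by decide +kernel)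

theorem b5_445 : S (PX [434] [297,368,401,500]) := S.of (.q 395 (.a 1 [] (.d 393 392 392 393 397)
 (.a 1 [392] (.d 397 393 393 394 398)
 (.a 0 [393,397] (.q 427 (.a 1 [] (.d 331 1323 299 1355 459)
 (.a 1 [299] (.d 459 1355 331 1387 491)
 (.a 0 [331,459] (.q 361 (.a 1 [] (.d 328 2343 295 2376 460)
 (.a 1 [295] (.d 460 2376 328 2409 493)
 (.a 0 [328,460] (.q 458 (.a 1 [] (.d 365 3406 334 3437 489)
 (.a 1 [334] (.d 489 3437 365 3468 520)
 (.a 1 [489] (.r 365 3406 334 (.r 362 361 364 (.d 426 1354 330 1386 490)))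
 (.a 0 [365] (.q 362 (.a 1 [] (.d 360 359 359 360 364)
 (.a 1 [359] (.d 426 1354 330 1386 490)
 .e)))
 .e)))))
 .e))))
 .e))))
 .e)))) (by decide +kernel)

theorem b5_455 : S (PX [335,434] [298,302,368,401,500]) := S.of (.q 395 (.a 1 [] (.d 393 392 392 393 397)
 (.a 1 [392] (.d 397 393 393 394 398)
 (.a 0 [393,397] (.q 331 (.a 1 [] (.d 299 1291 267 1323 427)
 (.a 1 [267] (.d 427 1323 299 1355 459)
 (.a 0 [299,427] (.q 332 (.a 1 [] (.d 301 3342 270 3373 425)
 (.a 1 [270] (.d 425 3373 301 3404 456)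
 (.a 1 [425] (.r 333 331 334 (.r 330 329 329 (.d 429 2345 297 2378 462)))
 (.a 0 [301] (.q 300 (.a 1 [] (.d 364 1292 268 1324 428)
 (.a 1 [268] (.r 333 331 334 (.r 330 329 329 (.d 429 2345 297 2378 462)))
 .e)))
 .e)))))
 .e))))
 .e)))) (by decide +kernel)

theorem b5_456 : S (PX [335,434] [300,302,368,401,500]) := S.of (.q 330 (.a 1 [] (.d 297 2312 264 2345 429)
 (.a 1 [264] (.d 429 2345 297 2378 462)
 (.a 0 [297,429] (.q 425 (.a 1 [] (.d 332 3373 301 3404 456)
 (.a 1 [301] (.d 456 3404 332 3435 487)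
 (.a 0 [332,456] (.q 393 (.a 1 [] (.d 395 392 392 393 397)
 (.a 0 [392,395,397] (.q 361 (.a 1 [] (.d 457 1353 329 1385 489)
 (.a 0 [329,457,489] (.q 362 (.a 1 [] (.d 360 359 359 360 364)
 (.a 1 [359] (.d 364 360 360 361 365)
 (.a 1 [360] (.d 298 1290 266 1322 426)
 .e))))
 .e)))
 .e)))
 .e))))
 .e)))) (by decide +kernel)

theorem b5_457 : S (PX [335,434] [302,303,368,401,500]) := S.of (.q 395 (.a 1 [] (.d 393 392 392 393 397)
 (.a 1 [392] (.d 397 393 393 394 398)
 (.a 0 [393,397] (.q 427 (.a 1 [] (.d 331 1323 299 1355 459)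
 (.a 1 [299] (.d 459 1355 331 1387 491)
 (.a 0 [331,459] (.q 330 (.a 1 [] (.d 297 2312 264 2345 429)
 (.a 1 [264] (.d 429 2345 297 2378 462)
 (.a 0 [297,429] (.q 361 (.a 1 [] (.d 328 2343 295 2376 460)
 (.a 1 [295] (.d 460 2376 328 2409 493)
 (.a 0 [328,460] (.q 362 (.a 1 [] (.d 360 359 359 360 364)
 (.a 1 [359] (.d 364 360 360 361 365)
 (.a 1 [360] (.d 298 1290 266 1322 426)
 .e))))
 .e))))
 .e))))
 .e))))
 .e)))) (by decide +kernel)

theorem b5_458 : S (PX [335,434] [302,368,392,401,500]) := S.of (.q 332 (.a 1 [] (.d 301 3342 270 3373 425)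
 (.a 1 [270] (.d 425 3373 301 3404 456)
 (.a 0 [301,425] (.q 334 (.a 1 [] (.d 333 331 331 332 336)
 (.a 0 [331,333,336] (.q 397 (.a 1 [] (.d 395 393 393 394 398)
 (.a 0 [393,395,398] (.q 364 (.a 1 [] (.d 300 1292 268 1324 428)
 (.a 1 [268] (.d 428 1324 300 1356 460)
 (.a 1 [300] (.r 428 1356 460 (.d 366 3376 304 3407 459))
 (.a 0 [428] (.q 365 (.a 1 [] (.d 362 361 361 362 366)
 (.a 1 [361] (.d 366 362 362 363 367)
 (.a 1 [362] (.d 303 3344 272 3375 427)
 .e))))
 .e)))))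
 .e)))
 .e)))
 .e)))) (by decide +kernel)

theorem b5_459 : S (PX [335,434] [302,368,397,401,500]) := S.of (.q 330 (.a 1 [] (.d 297 2312 264 2345 429)
 (.a 1 [264] (.d 429 2345 297 2378 462)
 (.a 0 [297,429] (.q 425 (.a 1 [] (.d 332 3373 301 3404 456)
 (.a 1 [301] (.d 456 3404 332 3435 487)
 (.a 0 [332,456] (.q 426 (.a 1 [] (.d 362 1322 298 1354 458)
 (.a 0 [298,362,458] (.q 423 (.a 1 [] (.d 424 422 422 423 427)
 (.a 0 [422,424,427] (.q 392 (.a 1 [] (.d 361 3371 299 3402 454)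
 (.a 1 [299] (.r 393 392 395 (.r 361 3402 454 (.d 457 1353 329 1385 489)))
 (.a 1 [454] (.r 393 392 395 (.r 361 3371 299 (.d 457 1353 329 1385 489)))
 (.a 0 [361] (.r 393 392 395 (.q 327 (.a 1 [] (.d 360 2342 294 2375 459)
 (.a 1 [294] (.r 391 390 390 (.d 359 1319 295 1351 455))
 .e))))
 .e)))))
 .e)))
 .e)))
 .e))))
 .e)))) (by decide +kernel)

theorem b5_460 : S (PX [335,434] [302,368,398,401,500]) := S.of (.q 330 (.a 1 [] (.d 297 2312 264 2345 429)
 (.a 1 [264] (.d 429 2345 297 2378 462)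
 (.a 0 [297,429] (.q 362 (.a 1 [] (.d 298 1290 266 1322 426)
 (.a 1 [266] (.d 426 1322 298 1354 458)
 (.a 0 [298,426] (.q 364 (.a 1 [] (.d 361 360 360 361 365)
 (.a 1 [360] (.d 365 361 361 362 366)
 (.a 0 [361,365] (.q 332 (.a 1 [] (.d 300 1292 268 1324 428)
 (.a 1 [268] (.d 428 1324 300 1356 460)
 (.a 1 [300] (.d 301 3342 270 3373 425)
 .e))))
 .e))))
 .e))))
 .e)))) (by decide +kernel)

theorem b5_461 : S (PX [335,434] [302,368,399,401,500]) := S.of (.q 330 (.a 1 [] (.d 297 2312 264 2345 429)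
 (.a 1 [264] (.d 429 2345 297 2378 462)
 (.a 0 [297,429] (.q 362 (.a 1 [] (.d 298 1290 266 1322 426)
 (.a 1 [266] (.d 426 1322 298 1354 458)
 (.a 0 [298,426] (.q 364 (.a 1 [] (.d 361 360 360 361 365)
 (.a 1 [360] (.d 365 361 361 362 366)
 (.a 0 [361,365] (.q 332 (.a 1 [] (.d 300 1292 268 1324 428)
 (.a 1 [268] (.d 428 1324 300 1356 460)
 (.a 1 [300] (.d 301 3342 270 3373 425)
 .e))))
 .e))))
 .e))))
 .e)))) (by decide +kernel)

theorem b5_462 : S (PX [335,434] [302,368,400,401,500]) := S.of (.q 330 (.a 1 [] (.d 297 2312 264 2345 429)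
 (.a 1 [264] (.d 429 2345 297 2378 462)
 (.a 0 [297,429] (.q 362 (.a 1 [] (.d 298 1290 266 1322 426)
 (.a 1 [266] (.d 426 1322 298 1354 458)
 (.a 0 [298,426] (.q 364 (.a 1 [] (.d 361 360 360 361 365)
 (.a 1 [360] (.d 365 361 361 362 366)
 (.a 0 [361,365] (.q 332 (.a 1 [] (.d 300 1292 268 1324 428)
 (.a 1 [268] (.d 428 1324 300 1356 460)
 (.a 1 [300] (.d 301 3342 270 3373 425)
 .e))))
 .e))))
 .e))))
 .e)))) (by decide +kernel)

theorem b5_463 : S (PX [335,434] [302,368,401,426,500]) := S.of (.q 395 (.a 1 [] (.d 393 392 392 393 397)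
 (.a 1 [392] (.d 397 393 393 394 398)
 (.a 0 [393,397] (.q 332 (.a 1 [] (.d 301 3342 270 3373 425)
 (.a 1 [270] (.d 425 3373 301 3404 456)
 (.a 0 [301,425] (.q 331 (.a 1 [] (.d 299 1291 267 1323 427)
 (.a 1 [267] (.d 427 1323 299 1355 459)
 (.a 1 [299] (.r 333 331 334 (.r 330 329 329 (.d 429 2345 297 2378 462)))
 .e))))
 .e))))
 .e)))) (by decide +kernel)

theorem b5_471 : S (PX [302,434] [304,335,368,401,500]) := S.of (.q 332 (.a 1 [] (.d 301 3342 270 3373 425)
 (.a 1 [270] (.d 425 3373 301 3404 456)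
 (.a 0 [301,425] (.q 364 (.a 1 [] (.d 300 1292 268 1324 428)
 (.a 1 [268] (.d 428 1324 300 1356 460)
 (.a 0 [300,428] (.q 395 (.a 1 [] (.d 393 392 392 393 397)
 (.a 1 [366] (.d 397 393 393 394 398)
 (.a 1 [393] (.d 333 3343 271 3374 426)
 (.a 0 [397] (.q 366 (.a 1 [] (.d 333 3343 271 3374 426)
 (.a 1 [271] (.d 365 362 362 363 367)
 .e)))
 .e)))))
 .e))))
 .e)))) (by decide +kernel)

theorem b5_472 : S (PX [302,434] [330,335,368,401,500]) := S.of (.q 395 (.a 1 [] (.d 393 392 392 393 397)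
 (.a 1 [392] (.d 397 393 393 394 398)
 (.a 0 [393,397] (.q 364 (.a 1 [] (.d 333 3343 271 3374 426)
 (.a 0 [271,333,426] (.q 332 (.a 1 [] (.d 300 1292 268 1324 428)
 (.a 1 [268] (.d 428 1324 300 1356 460)
 (.a 1 [300] (.d 301 3342 270 3373 425)
 .e))))
 .e)))
 .e)))) (by decide +kernel)

theorem b5_473 : S (PX [302,434] [332,335,368,401,500]) := S.of (.q 395 (.a 1 [] (.d 393 392 392 393 397)
 (.a 1 [392] (.d 397 393 393 394 398)
 (.a 0 [393,397] (.q 330 (.a 1 [] (.d 297 2312 264 2345 429)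
 (.a 1 [264] (.d 429 2345 297 2378 462)
 (.a 0 [297,429] (.q 362 (.a 1 [] (.d 298 1290 266 1322 426)
 (.a 1 [266] (.d 426 1322 298 1354 458)
 (.a 1 [298] (.r 426 1354 458 (.r 364 3374 333 (.d 361 360 360 361 365)))
 (.a 0 [426] (.q 360 (.a 1 [] (.d 361 359 359 360 364)
 (.a 0 [359,361,364] (.q 329 (.a 1 [] (.d 296 2311 263 2344 428)
 (.a 1 [263] (.d 428 2344 296 2377 461)
 (.a 1 [296] (.r 298 1290 266 (.d 391 3339 267 3370 422))
 .e))))
 .e)))
 .e)))))
 .e))))
 .e)))) (by decide +kernel)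

theorem b5_474 : S (PX [302,434] [335,366,368,401,500]) := S.of (.q 332 (.a 1 [] (.d 301 3342 270 3373 425)
 (.a 1 [270] (.d 425 3373 301 3404 456)
 (.a 0 [301,425] (.q 364 (.a 1 [] (.d 300 1292 268 1324 428)
 (.a 1 [268] (.d 428 1324 300 1356 460)
 (.a 0 [300,428] (.q 397 (.a 1 [] (.d 395 393 393 394 398)
 (.a 1 [393] (.r 395 394 398 (.d 333 3343 271 3374 426))
 (.a 1 [398] (.r 395 393 393 (.d 333 3343 271 3374 426))
 (.a 0 [395] (.q 298 (.a 1 [] (.d 331 2313 265 2346 430)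
 (.a 0 [265,331,430] (.q 362 (.a 1 [] (.d 361 360 360 361 365)
 (.a 1 [360] (.d 330 1290 266 1322 426)
 .e)))
 .e)))
 .e)))))
 .e))))
 .e)))) (by decide +kernel)

theorem b5_475 : S (PX [302,434] [335,368,400,401,500]) := S.of (.q 332 (.a 1 [] (.d 301 3342 270 3373 425)
 (.a 1 [270] (.d 425 3373 301 3404 456)
 (.a 0 [301,425] (.q 364 (.a 1 [] (.d 300 1292 268 1324 428)
 (.a 1 [268] (.d 428 1324 300 1356 460)
 (.a 0 [300,428] (.q 395 (.a 1 [] (.d 393 392 392 393 397)
 (.a 1 [392] (.d 397 393 393 394 398)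
 (.a 1 [393] (.d 333 3343 271 3374 426)
 .e))))
 .e))))
 .e)))) (by decide +kernel)

theorem b5_476 : S (PX [302,434] [335,368,401,425,500]) := S.of (.q 395 (.a 1 [] (.d 393 392 392 393 397)
 (.a 1 [392] (.d 397 393 393 394 398)
 (.a 0 [393,397] (.q 429 (.a 1 [] (.d 330 2345 297 2378 462)
 (.a 1 [297] (.d 462 2378 330 2411 495)
 (.a 0 [330,462] (.q 299 (.a 1 [] (.d 331 1291 267 1323 427)
 (.a 0 [267,331,427] (.q 300 (.a 1 [] (.d 301 298 298 299 303)
 (.a 1 [298] (.r 301 299 303 (.r 332 3342 270 (.d 364 1292 268 1324 428)))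
 (.a 1 [303] (.r 301 298 298 (.r 332 3342 270 (.d 364 1292 268 1324 428)))
 (.a 0 [301] (.q 364 (.a 1 [] (.d 332 1292 268 1324 428)
 (.a 1 [268] (.d 333 3343 271 3374 426)
 .e)))
 .e)))))
 .e)))
 .e))))
 .e)))) (by decide +kernel)

theorem b5_477 : S (PX [302,434] [335,368,401,428,500]) := S.of (.q 429 (.a 1 [] (.d 330 2345 297 2378 462)
 (.a 1 [297] (.d 462 2378 330 2411 495)
 (.a 0 [330,462] (.q 397 (.a 1 [] (.d 395 393 393 394 398)
 (.a 0 [393,395,398] (.q 365 (.a 1 [] (.d 333 1325 301 1357 461)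
 (.a 1 [301] (.d 461 1357 333 1389 493)
 (.a 1 [461] (.r 301 1325 333 (.d 332 3342 270 3373 425))
 (.a 0 [333] (.q 427 (.a 1 [] (.d 334 3375 303 3406 458)
 (.a 1 [303] (.d 458 3406 334 3437 489)
 (.a 1 [334] (.r 493 1389 461 (.d 460 2409 361 2442 526))
 .e))))
 .e)))))
 .e)))
 .e)))) (by decide +kernel)

theorem b5_478 : S (PX [434] [368,399,401,500]) := S.of (.q 330 (.a 1 [] (.d 297 2312 264 2345 429)
 (.a 1 [264] (.d 429 2345 297 2378 462)
 (.a 0 [297,429] (.q 362 (.a 1 [] (.d 298 1290 266 1322 426)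
 (.a 1 [266] (.d 426 1322 298 1354 458)
 (.a 0 [298,426] (.q 361 (.a 1 [] (.d 360 359 359 360 364)
 (.a 1 [359] (.d 364 360 360 361 365)
 (.a 0 [360,364] (.q 427 (.a 1 [] (.d 328 2343 295 2376 460)
 (.a 1 [295] (.d 460 2376 328 2409 493)
 (.a 0 [328,460] (.q 395 (.a 1 [] (.d 393 392 392 393 397)
 (.a 1 [392] (.d 397 393 393 394 398)
 (.a 1 [393] (.d 331 1323 299 1355 459)
 .e))))
 .e))))
 .e))))
 .e))))
 .e)))) (by decide +kernel)

theorem b5_479 : S (PX [434] [368,400,401,500]) := S.of (.q 330 (.a 1 [] (.d 297 2312 264 2345 429)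
 (.a 1 [264] (.d 429 2345 297 2378 462)
 (.a 0 [297,429] (.q 362 (.a 1 [] (.d 298 1290 266 1322 426)
 (.a 1 [266] (.d 426 1322 298 1354 458)
 (.a 0 [298,426] (.q 361 (.a 1 [] (.d 360 359 359 360 364)
 (.a 1 [359] (.d 364 360 360 361 365)
 (.a 0 [360,364] (.q 427 (.a 1 [] (.d 328 2343 295 2376 460)
 (.a 1 [295] (.d 460 2376 328 2409 493)
 (.a 0 [328,460] (.q 395 (.a 1 [] (.d 393 392 392 393 397)
 (.a 1 [392] (.d 397 393 393 394 398)
 (.a 1 [393] (.d 331 1323 299 1355 459)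
 .e))))
 .e))))
 .e))))
 .e))))
 .e)))) (by decide +kernel)

theorem b5_501 : S (PX [335,467] [368,400,401,434,500]) := S.of (.q 332 (.a 1 [] (.d 301 3342 270 3373 425)
 (.a 1 [270] (.d 425 3373 301 3404 456)
 (.a 0 [301,425] (.q 330 (.a 1 [] (.d 297 2312 264 2345 429)
 (.a 1 [264] (.d 429 2345 297 2378 462)
 (.a 0 [297,429] (.q 428 (.a 1 [] (.d 364 1324 300 1356 460)
 (.a 0 [300,364,460] (.q 298 (.a 1 [] (.d 362 1290 266 1322 426)
 (.a 0 [266,362,426] (.q 397 (.a 1 [] (.d 395 393 393 394 398)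
 (.a 1 [393] (.d 366 3376 304 3407 459)
 .e)))
 .e)))
 .e)))
 .e))))
 .e)))) (by decide +kernel)

theorem b5_643 : S (PX [] [400,401,500]) := S.of (.q 330 (.a 1 [] (.d 297 2312 264 2345 429)
 (.a 1 [264] (.d 429 2345 297 2378 462)
 (.a 0 [297,429] (.q 362 (.a 1 [] (.d 298 1290 266 1322 426)
 (.a 1 [266] (.d 426 1322 298 1354 458)
 (.a 0 [298,426] (.q 361 (.a 1 [] (.d 360 359 359 360 364)
 (.a 1 [359] (.d 364 360 360 361 365)
 (.a 0 [360,364] (.q 427 (.a 1 [] (.d 328 2343 295 2376 460)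
 (.a 1 [295] (.d 460 2376 328 2409 493)
 (.a 0 [328,460] (.q 395 (.a 1 [] (.d 393 392 392 393 397)
 (.a 1 [392] (.d 397 393 393 394 398)
 (.a 1 [393] (.d 331 1323 299 1355 459)
 .e))))
 .e))))
 .e))))
 .e))))
 .e)))) (by decide +kernel)

theorem b5_644 : S (PX [335,467] [298,302,401,434,500]) := S.of (.q 395 (.a 1 [] (.d 393 392 392 393 397)
 (.a 1 [392] (.d 397 393 393 394 398)
 (.a 0 [393,397] (.q 331 (.a 1 [] (.d 299 1291 267 1323 427)
 (.a 1 [267] (.d 427 1323 299 1355 459)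
 (.a 0 [299,427] (.q 332 (.a 1 [] (.d 301 3342 270 3373 425)
 (.a 1 [270] (.d 425 3373 301 3404 456)
 (.a 1 [425] (.r 333 331 334 (.r 330 329 329 (.d 429 2345 297 2378 462)))
 (.a 0 [301] (.q 300 (.a 1 [] (.d 364 1292 268 1324 428)
 (.a 1 [268] (.r 333 331 334 (.r 330 329 329 (.d 429 2345 297 2378 462)))
 .e)))
 .e)))))
 .e))))
 .e)))) (by decide +kernel)

theorem b5_645 : S (PX [335,467] [300,302,401,434,500]) := S.of (.q 330 (.a 1 [] (.d 297 2312 264 2345 429)
 (.a 1 [264] (.d 429 2345 297 2378 462)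
 (.a 0 [297,429] (.q 425 (.a 1 [] (.d 332 3373 301 3404 456)
 (.a 1 [301] (.d 456 3404 332 3435 487)
 (.a 0 [332,456] (.q 393 (.a 1 [] (.d 395 392 392 393 397)
 (.a 0 [392,395,397] (.q 361 (.a 1 [] (.d 457 1353 329 1385 489)
 (.a 0 [329,457,489] (.q 362 (.a 1 [] (.d 360 359 359 360 364)
 (.a 1 [359] (.d 364 360 360 361 365)
 (.a 1 [360] (.d 298 1290 266 1322 426)
 .e))))
 .e)))
 .e)))
 .e))))
 .e)))) (by decide +kernel)

theorem b5_646 : S (PX [335,467] [302,303,401,434,500]) := S.of (.q 395 (.a 1 [] (.d 393 392 392 393 397)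
 (.a 1 [392] (.d 397 393 393 394 398)
 (.a 0 [393,397] (.q 427 (.a 1 [] (.d 331 1323 299 1355 459)
 (.a 1 [299] (.d 459 1355 331 1387 491)
 (.a 0 [331,459] (.q 330 (.a 1 [] (.d 297 2312 264 2345 429)
 (.a 1 [264] (.d 429 2345 297 2378 462)
 (.a 0 [297,429] (.q 361 (.a 1 [] (.d 328 2343 295 2376 460)
 (.a 1 [295] (.d 460 2376 328 2409 493)
 (.a 0 [328,460] (.q 362 (.a 1 [] (.d 360 359 359 360 364)
 (.a 1 [359] (.d 364 360 360 361 365)
 (.a 1 [360] (.d 298 1290 266 1322 426)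
 .e))))
 .e))))
 .e))))
 .e))))
 .e)))) (by decide +kernel)

theorem b5_647 : S (PX [335,467] [302,392,401,434,500]) := S.of (.q 332 (.a 1 [] (.d 301 3342 270 3373 425)
 (.a 1 [270] (.d 425 3373 301 3404 456)
 (.a 0 [301,425] (.q 334 (.a 1 [] (.d 333 331 331 332 336)
 (.a 0 [331,333,336] (.q 397 (.a 1 [] (.d 395 393 393 394 398)
 (.a 0 [393,395,398] (.q 364 (.a 1 [] (.d 300 1292 268 1324 428)
 (.a 1 [268] (.d 428 1324 300 1356 460)
 (.a 1 [300] (.r 428 1356 460 (.d 366 3376 304 3407 459))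
 (.a 0 [428] (.q 365 (.a 1 [] (.d 362 361 361 362 366)
 (.a 1 [361] (.d 366 362 362 363 367)
 (.a 1 [362] (.d 303 3344 272 3375 427)
 .e))))
 .e)))))
 .e)))
 .e)))
 .e)))) (by decide +kernel)

theorem b5_648 : S (PX [335,467] [302,397,401,434,500]) := S.of (.q 330 (.a 1 [] (.d 297 2312 264 2345 429)
 (.a 1 [264] (.d 429 2345 297 2378 462)
 (.a 0 [297,429] (.q 425 (.a 1 [] (.d 332 3373 301 3404 456)
 (.a 1 [301] (.d 456 3404 332 3435 487)
 (.a 0 [332,456] (.q 426 (.a 1 [] (.d 362 1322 298 1354 458)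
 (.a 0 [298,362,458] (.q 423 (.a 1 [] (.d 424 422 422 423 427)
 (.a 0 [422,424,427] (.q 392 (.a 1 [] (.d 361 3371 299 3402 454)
 (.a 1 [299] (.r 393 392 395 (.r 361 3402 454 (.d 457 1353 329 1385 489)))
 (.a 1 [454] (.r 393 392 395 (.r 361 3371 299 (.d 457 1353 329 1385 489)))
 (.a 0 [361] (.r 393 392 395 (.q 327 (.a 1 [] (.d 360 2342 294 2375 459)
 (.a 1 [294] (.r 391 390 390 (.d 359 1319 295 1351 455))
 .e))))
 .e)))))
 .e)))
 .e)))
 .e))))
 .e)))) (by decide +kernel)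

theorem b5_649 : S (PX [335,467] [302,398,401,434,500]) := S.of (.q 330 (.a 1 [] (.d 297 2312 264 2345 429)
 (.a 1 [264] (.d 429 2345 297 2378 462)
 (.a 0 [297,429] (.q 362 (.a 1 [] (.d 298 1290 266 1322 426)
 (.a 1 [266] (.d 426 1322 298 1354 458)
 (.a 0 [298,426] (.q 364 (.a 1 [] (.d 361 360 360 361 365)
 (.a 1 [360] (.d 365 361 361 362 366)
 (.a 0 [361,365] (.q 332 (.a 1 [] (.d 300 1292 268 1324 428)
 (.a 1 [268] (.d 428 1324 300 1356 460)
 (.a 1 [300] (.d 301 3342 270 3373 425)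
 .e))))
 .e))))
 .e))))
 .e)))) (by decide +kernel)

theorem b5_650 : S (PX [335,467] [302,399,401,434,500]) := S.of (.q 330 (.a 1 [] (.d 297 2312 264 2345 429)
 (.a 1 [264] (.d 429 2345 297 2378 462)
 (.a 0 [297,429] (.q 362 (.a 1 [] (.d 298 1290 266 1322 426)
 (.a 1 [266] (.d 426 1322 298 1354 458)
 (.a 0 [298,426] (.q 364 (.a 1 [] (.d 361 360 360 361 365)
 (.a 1 [360] (.d 365 361 361 362 366)
 (.a 0 [361,365] (.q 332 (.a 1 [] (.d 300 1292 268 1324 428)
 (.a 1 [268] (.d 428 1324 300 1356 460)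
 (.a 1 [300] (.d 301 3342 270 3373 425)
 .e))))
 .e))))
 .e))))
 .e)))) (by decide +kernel)

theorem b5_651 : S (PX [335,467] [302,400,401,434,500]) := S.of (.q 330 (.a 1 [] (.d 297 2312 264 2345 429)
 (.a 1 [264] (.d 429 2345 297 2378 462)
 (.a 0 [297,429] (.q 362 (.a 1 [] (.d 298 1290 266 1322 426)
 (.a 1 [266] (.d 426 1322 298 1354 458)
 (.a 0 [298,426] (.q 364 (.a 1 [] (.d 361 360 360 361 365)
 (.a 1 [360] (.d 365 361 361 362 366)
 (.a 0 [361,365] (.q 332 (.a 1 [] (.d 300 1292 268 1324 428)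
 (.a 1 [268] (.d 428 1324 300 1356 460)
 (.a 1 [300] (.d 301 3342 270 3373 425)
 .e))))
 .e))))
 .e))))
 .e)))) (by decide +kernel)

theorem b5_652 : S (PX [335,467] [302,401,426,434,500]) := S.of (.q 395 (.a 1 [] (.d 393 392 392 393 397)
 (.a 1 [392] (.d 397 393 393 394 398)
 (.a 0 [393,397] (.q 332 (.a 1 [] (.d 301 3342 270 3373 425)
 (.a 1 [270] (.d 425 3373 301 3404 456)
 (.a 0 [301,425] (.q 331 (.a 1 [] (.d 299 1291 267 1323 427)
 (.a 1 [267] (.d 427 1323 299 1355 459)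
 (.a 1 [299] (.r 333 331 334 (.r 330 329 329 (.d 429 2345 297 2378 462)))
 .e))))
 .e))))
 .e)))) (by decide +kernel)

theorem b5_662 : S (PX [302,467] [304,335,401,434,500]) := S.of (.q 332 (.a 1 [] (.d 301 3342 270 3373 425)
 (.a 1 [270] (.d 425 3373 301 3404 456)
 (.a 0 [301,425] (.q 364 (.a 1 [] (.d 300 1292 268 1324 428)
 (.a 1 [268] (.d 428 1324 300 1356 460)
 (.a 0 [300,428] (.q 395 (.a 1 [] (.d 393 392 392 393 397)
 (.a 1 [366] (.d 397 393 393 394 398)
 (.a 1 [393] (.d 333 3343 271 3374 426)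
 (.a 0 [397] (.q 366 (.a 1 [] (.d 333 3343 271 3374 426)
 (.a 1 [271] (.d 365 362 362 363 367)
 .e)))
 .e)))))
 .e))))
 .e)))) (by decide +kernel)

theorem b5_663 : S (PX [302,467] [330,335,401,434,500]) := S.of (.q 395 (.a 1 [] (.d 393 392 392 393 397)
 (.a 1 [392] (.d 397 393 393 394 398)
 (.a 0 [393,397] (.q 364 (.a 1 [] (.d 333 3343 271 3374 426)
 (.a 0 [271,333,426] (.q 332 (.a 1 [] (.d 300 1292 268 1324 428)
 (.a 1 [268] (.d 428 1324 300 1356 460)
 (.a 1 [300] (.d 301 3342 270 3373 425)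
 .e))))
 .e)))
 .e)))) (by decide +kernel)

theorem b5_664 : S (PX [302,467] [332,335,401,434,500]) := S.of (.q 395 (.a 1 [] (.d 393 392 392 393 397)
 (.a 1 [392] (.d 397 393 393 394 398)
 (.a 0 [393,397] (.q 330 (.a 1 [] (.d 297 2312 264 2345 429)
 (.a 1 [264] (.d 429 2345 297 2378 462)
 (.a 0 [297,429] (.q 362 (.a 1 [] (.d 298 1290 266 1322 426)
 (.a 1 [266] (.d 426 1322 298 1354 458)
 (.a 1 [298] (.r 426 1354 458 (.r 364 3374 333 (.d 361 360 360 361 365)))
 (.a 0 [426] (.q 360 (.a 1 [] (.d 361 359 359 360 364)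
 (.a 0 [359,361,364] (.q 329 (.a 1 [] (.d 296 2311 263 2344 428)
 (.a 1 [263] (.d 428 2344 296 2377 461)
 (.a 1 [296] (.r 298 1290 266 (.d 391 3339 267 3370 422))
 .e))))
 .e)))
 .e)))))
 .e))))
 .e)))) (by decide +kernel)

theorem b5_665 : S (PX [302,467] [335,366,401,434,500]) := S.of (.q 332 (.a 1 [] (.d 301 3342 270 3373 425)
 (.a 1 [270] (.d 425 3373 301 3404 456)
 (.a 0 [301,425] (.q 364 (.a 1 [] (.d 300 1292 268 1324 428)
 (.a 1 [268] (.d 428 1324 300 1356 460)
 (.a 0 [300,428] (.q 397 (.a 1 [] (.d 395 393 393 394 398)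
 (.a 1 [393] (.r 395 394 398 (.d 333 3343 271 3374 426))
 (.a 1 [398] (.r 395 393 393 (.d 333 3343 271 3374 426))
 (.a 0 [395] (.q 362 (.a 1 [] (.d 361 360 360 361 365)
 (.a 0 [360,361,365] (.q 330 (.a 1 [] (.d 298 1290 266 1322 426)
 (.a 1 [266] (.d 426 1322 298 1354 458)
 (.a 1 [298] (.d 297 2312 264 2345 429)
 .e))))
 .e)))
 .e)))))
 .e))))
 .e)))) (by decide +kernel)

theorem b5_666 : S (PX [302,467] [335,400,401,434,500]) := S.of (.q 332 (.a 1 [] (.d 301 3342 270 3373 425)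
 (.a 1 [270] (.d 425 3373 301 3404 456)
 (.a 0 [301,425] (.q 364 (.a 1 [] (.d 300 1292 268 1324 428)
 (.a 1 [268] (.d 428 1324 300 1356 460)
 (.a 0 [300,428] (.q 395 (.a 1 [] (.d 393 392 392 393 397)
 (.a 1 [392] (.d 397 393 393 394 398)
 (.a 1 [393] (.d 333 3343 271 3374 426)
 .e))))
 .e))))
 .e)))) (by decide +kernel)

theorem b5_667 : S (PX [302,467] [335,401,425,434,500]) := S.of (.q 395 (.a 1 [] (.d 393 392 392 393 397)
 (.a 1 [392] (.d 397 393 393 394 398)
 (.a 0 [393,397] (.q 429 (.a 1 [] (.d 330 2345 297 2378 462)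
 (.a 1 [297] (.d 462 2378 330 2411 495)
 (.a 0 [330,462] (.q 299 (.a 1 [] (.d 331 1291 267 1323 427)
 (.a 0 [267,331,427] (.q 300 (.a 1 [] (.d 301 298 298 299 303)
 (.a 1 [298] (.r 301 299 303 (.r 332 3342 270 (.d 364 1292 268 1324 428)))
 (.a 1 [303] (.r 301 298 298 (.r 332 3342 270 (.d 364 1292 268 1324 428)))
 (.a 0 [301] (.q 364 (.a 1 [] (.d 332 1292 268 1324 428)
 (.a 1 [268] (.d 333 3343 271 3374 426)
 .e)))
 .e)))))
 .e)))
 .e))))
 .e)))) (by decide +kernel)

theorem b5_668 : S (PX [302,467] [335,401,428,434,500]) := S.of (.q 429 (.a 1 [] (.d 330 2345 297 2378 462)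
 (.a 1 [297] (.d 462 2378 330 2411 495)
 (.a 0 [330,462] (.q 397 (.a 1 [] (.d 395 393 393 394 398)
 (.a 0 [393,395,398] (.q 365 (.a 1 [] (.d 333 1325 301 1357 461)
 (.a 1 [301] (.d 461 1357 333 1389 493)
 (.a 1 [461] (.r 301 1325 333 (.d 332 3342 270 3373 425))
 (.a 0 [333] (.q 427 (.a 1 [] (.d 334 3375 303 3406 458)
 (.a 1 [303] (.d 458 3406 334 3437 489)
 (.a 1 [334] (.r 493 1389 461 (.d 460 2409 361 2442 526))
 .e))))
 .e)))))
 .e)))
 .e)))) (by decide +kernel)

theorem b5_676 : S (PX [467] [400,401,434,500]) := S.of (.q 330 (.a 1 [] (.d 297 2312 264 2345 429)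
 (.a 1 [264] (.d 429 2345 297 2378 462)
 (.a 0 [297,429] (.q 362 (.a 1 [] (.d 298 1290 266 1322 426)
 (.a 1 [266] (.d 426 1322 298 1354 458)
 (.a 0 [298,426] (.q 361 (.a 1 [] (.d 360 359 359 360 364)
 (.a 1 [359] (.d 364 360 360 361 365)
 (.a 0 [360,364] (.q 427 (.a 1 [] (.d 328 2343 295 2376 460)
 (.a 1 [295] (.d 460 2376 328 2409 493)
 (.a 0 [328,460] (.q 395 (.a 1 [] (.d 393 392 392 393 397)
 (.a 1 [392] (.d 397 393 393 394 398)
 (.a 1 [393] (.d 331 1323 299 1355 459)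
 .e))))
 .e))))
 .e))))
 .e))))
 .e)))) (by decide +kernel)

theorem b5_677 : S (PX [434] [400,401,467,500]) := S.of (.q 330 (.a 1 [] (.d 297 2312 264 2345 429)
 (.a 1 [264] (.d 429 2345 297 2378 462)
 (.a 0 [297,429] (.q 362 (.a 1 [] (.d 298 1290 266 1322 426)
 (.a 1 [266] (.d 426 1322 298 1354 458)
 (.a 0 [298,426] (.q 361 (.a 1 [] (.d 360 359 359 360 364)
 (.a 1 [359] (.d 364 360 360 361 365)
 (.a 0 [360,364] (.q 427 (.a 1 [] (.d 328 2343 295 2376 460)
 (.a 1 [295] (.d 460 2376 328 2409 493)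
 (.a 0 [328,460] (.q 395 (.a 1 [] (.d 393 392 392 393 397)
 (.a 1 [392] (.d 397 393 393 394 398)
 (.a 1 [393] (.d 331 1323 299 1355 459)
 .e))))
 .e))))
 .e))))
 .e))))
 .e)))) (by decide +kernel)

theorem b5_725 : S (PX [494,498] [297,493,496,497,500]) := S.of (.q 395 (.a 1 [] (.d 393 392 392 393 397)
 (.a 1 [392] (.d 397 393 393 394 398)
 (.a 0 [393,397] (.q 427 (.a 1 [] (.d 331 1323 299 1355 459)
 (.a 1 [299] (.d 459 1355 331 1387 491)
 (.a 0 [331,459] (.q 365 (.a 1 [] (.d 334 3375 303 3406 458)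
 (.a 1 [303] (.d 458 3406 334 3437 489)
 (.a 0 [334,458] (.q 332 (.a 1 [] (.d 301 3342 270 3373 425)
 (.a 1 [270] (.d 425 3373 301 3404 456)
 (.a 0 [301,425] (.q 361 (.a 1 [] (.d 328 2343 295 2376 460)
 (.a 1 [295] (.r 364 361 362 (.d 428 1324 300 1356 460))
 (.a 1 [460] (.r 364 361 362 (.d 300 1292 268 1324 428))
 .e))))
 .e))))
 .e))))
 .e))))
 .e)))) (by decide +kernel)

theorem b5_726 : S (PX [494,498] [298,493,496,497,500]) := S.of (.q 395 (.a 1 [] (.d 393 392 392 393 397)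
 (.a 1 [392] (.d 397 393 393 394 398)
 (.a 0 [393,397] (.q 429 (.a 1 [] (.d 330 2345 297 2378 462)
 (.a 1 [297] (.d 462 2378 330 2411 495)
 (.a 0 [330,462] (.q 332 (.a 1 [] (.d 301 3342 270 3373 425)
 (.a 1 [270] (.d 425 3373 301 3404 456)
 (.a 0 [301,425] (.q 428 (.a 1 [] (.d 364 1324 300 1356 460)
 (.a 1 [300] (.d 461 2410 362 2443 527)
 .e)))
 .e))))
 .e))))
 .e)))) (by decide +kernel)

theorem b5_727 : S (PX [494,498] [299,493,496,497,500]) := S.of (.q 395 (.a 1 [] (.d 393 392 392 393 397)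
 (.a 1 [392] (.d 397 393 393 394 398)
 (.a 0 [393,397] (.q 429 (.a 1 [] (.d 330 2345 297 2378 462)
 (.a 1 [297] (.d 462 2378 330 2411 495)
 (.a 0 [330,462] (.q 428 (.a 1 [] (.d 461 2410 362 2443 527)
 (.a 0 [362,461,527] (.q 427 (.a 1 [] (.d 426 425 425 426 430)
 (.a 1 [425] (.d 430 426 426 427 431)
 (.a 1 [426] (.d 459 1355 331 1387 491)
 .e))))
 .e)))
 .e))))
 .e)))) (by decide +kernel)

theorem b5_728 : S (PX [494,498] [300,493,496,497,500]) := S.of (.q 395 (.a 1 [] (.d 393 392 392 393 397)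
 (.a 1 [392] (.d 397 393 393 394 398)
 (.a 0 [393,397] (.q 429 (.a 1 [] (.d 330 2345 297 2378 462)
 (.a 1 [297] (.d 462 2378 330 2411 495)
 (.a 0 [330,462] (.q 425 (.a 1 [] (.d 332 3373 301 3404 456)
 (.a 1 [301] (.d 456 3404 332 3435 487)
 (.a 0 [332,456] (.q 427 (.a 1 [] (.d 331 1323 299 1355 459)
 (.a 1 [299] (.d 459 1355 331 1387 491)
 (.a 1 [331] (.r 428 425 426 (.d 461 2410 362 2443 527))
 .e))))
 .e))))
 .e))))
 .e)))) (by decide +kernel)

theorem b5_729 : S (PX [494,498] [301,493,496,497,500]) := S.of (.q 395 (.a 1 [] (.d 393 392 392 393 397)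
 (.a 1 [392] (.d 397 393 393 394 398)
 (.a 0 [393,397] (.q 429 (.a 1 [] (.d 330 2345 297 2378 462)
 (.a 1 [297] (.d 462 2378 330 2411 495)
 (.a 0 [330,462] (.q 427 (.a 1 [] (.d 331 1323 299 1355 459)
 (.a 1 [299] (.d 459 1355 331 1387 491)
 (.a 0 [331,459] (.q 428 (.a 1 [] (.d 426 425 425 426 430)
 (.a 1 [425] (.d 430 426 426 427 431)
 (.a 1 [426] (.d 461 2410 362 2443 527)
 .e))))
 .e))))
 .e))))
 .e)))) (by decide +kernel)

theorem b5_730 : S (PX [494,498] [302,493,496,497,500]) := S.of (.q 395 (.a 1 [] (.d 393 392 392 393 397)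
 (.a 1 [392] (.d 397 393 393 394 398)
 (.a 0 [393,397] (.q 427 (.a 1 [] (.d 331 1323 299 1355 459)
 (.a 1 [299] (.d 459 1355 331 1387 491)
 (.a 0 [331,459] (.q 429 (.a 1 [] (.d 330 2345 297 2378 462)
 (.a 1 [297] (.d 462 2378 330 2411 495)
 (.a 0 [330,462] (.q 428 (.a 1 [] (.d 426 425 425 426 430)
 (.a 1 [425] (.d 430 426 426 427 431)
 (.a 1 [426] (.d 461 2410 362 2443 527)
 .e))))
 .e))))
 .e))))
 .e)))) (by decide +kernel)

theorem b5_731 : S (PX [494,498] [330,493,496,497,500]) := S.of (.q 395 (.a 1 [] (.d 393 392 392 393 397)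
 (.a 1 [392] (.d 397 393 393 394 398)
 (.a 0 [393,397] (.q 427 (.a 1 [] (.d 331 1323 299 1355 459)
 (.a 1 [299] (.d 459 1355 331 1387 491)
 (.a 0 [331,459] (.q 332 (.a 1 [] (.d 301 3342 270 3373 425)
 (.a 1 [270] (.d 425 3373 301 3404 456)
 (.a 0 [301,425] (.q 428 (.a 1 [] (.d 364 1324 300 1356 460)
 (.a 1 [300] (.d 461 2410 362 2443 527)
 .e)))
 .e))))
 .e))))
 .e)))) (by decide +kernel)

theorem b5_732 : S (PX [494,498] [332,493,496,497,500]) := S.of (.q 395 (.a 1 [] (.d 393 392 392 393 397)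
 (.a 1 [392] (.d 397 393 393 394 398)
 (.a 0 [393,397] (.q 429 (.a 1 [] (.d 330 2345 297 2378 462)
 (.a 1 [297] (.d 462 2378 330 2411 495)
 (.a 0 [330,462] (.q 428 (.a 1 [] (.d 461 2410 362 2443 527)
 (.a 0 [362,461,527] (.q 427 (.a 1 [] (.d 426 425 425 426 430)
 (.a 1 [425] (.d 430 426 426 427 431)
 (.a 1 [426] (.d 331 1323 299 1355 459)
 .e))))
 .e)))
 .e))))
 .e)))) (by decide +kernel)

theorem b5_733 : S (PX [494,498] [365,493,496,497,500]) := S.of (.q 395 (.a 1 [] (.d 393 392 392 393 397)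
 (.a 1 [392] (.d 397 393 393 394 398)
 (.a 0 [393,397] (.q 429 (.a 1 [] (.d 330 2345 297 2378 462)
 (.a 1 [297] (.d 462 2378 330 2411 495)
 (.a 0 [330,462] (.q 428 (.a 1 [] (.d 461 2410 362 2443 527)
 (.a 0 [362,461,527] (.q 427 (.a 1 [] (.d 426 425 425 426 430)
 (.a 1 [425] (.d 430 426 426 427 431)
 (.a 1 [426] (.d 331 1323 299 1355 459)
 .e))))
 .e)))
 .e))))
 .e)))) (by decide +kernel)

theorem b5_734 : S (PX [494,498] [397,493,496,497,500]) := S.of (.q 429 (.a 1 [] (.d 330 2345 297 2378 462)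
 (.a 1 [297] (.d 462 2378 330 2411 495)
 (.a 0 [330] (.q 332 (.a 1 [] (.d 301 3342 270 3373 425)
 (.a 1 [270] (.d 425 3373 301 3404 456)
 (.a 0 [301,425] (.q 428 (.a 1 [] (.d 364 1324 300 1356 460)
 (.a 0 [300,364,460] (.q 430 (.a 1 [] (.d 427 426 426 427 431)
 (.a 1 [426] (.d 431 427 427 428 432)
 (.a 1 [427] (.r 462 2411 495 (.d 526 1422 398 1454 558))
 .e))))
 .e)))
 .e))))
 (.a 0 [462] (.q 332 (.a 1 [] (.d 301 3342 270 3373 425)
 (.a 1 [270] (.d 425 3373 301 3404 456)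
 (.a 0 [301,425] (.q 364 (.a 1 [] (.d 300 1292 268 1324 428)
 (.a 1 [268] (.d 428 1324 300 1356 460)
 (.a 0 [300,428] (.q 362 (.a 1 [] (.d 361 360 360 361 365)
 (.a 1 [360] (.d 365 361 361 362 366)
 (.a 1 [361] (.r 330 2345 297 (.d 426 1322 298 1354 458))
 .e))))
 .e))))
 .e))))
 .e))))) (by decide +kernel)

theorem b5_735 : S (PX [494,498] [425,493,496,497,500]) := S.of (.q 395 (.a 1 [] (.d 393 392 392 393 397)
 (.a 1 [392] (.d 397 393 393 394 398)
 (.a 0 [393,397] (.q 427 (.a 1 [] (.d 331 1323 299 1355 459)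
 (.a 1 [299] (.d 459 1355 331 1387 491)
 (.a 0 [331,459] (.q 429 (.a 1 [] (.d 330 2345 297 2378 462)
 (.a 1 [297] (.d 462 2378 330 2411 495)
 (.a 0 [330,462] (.q 428 (.a 1 [] (.d 430 426 426 427 431)
 (.a 1 [426] (.d 461 2410 362 2443 527)
 .e)))
 .e))))
 .e))))
 .e)))) (by decide +kernel)

theorem b5_736 : S (PX [494,498] [426,493,496,497,500]) := S.of (.q 395 (.a 1 [] (.d 393 392 392 393 397)
 (.a 1 [392] (.d 397 393 393 394 398)
 (.a 0 [393,397] (.q 429 (.a 1 [] (.d 330 2345 297 2378 462)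
 (.a 1 [297] (.d 462 2378 330 2411 495)
 (.a 0 [330,462] (.q 428 (.a 1 [] (.d 461 2410 362 2443 527)
 (.a 0 [362,461,527] (.q 332 (.a 1 [] (.d 364 1324 300 1356 460)
 (.a 1 [300] (.d 425 3373 301 3404 456)
 .e)))
 .e)))
 .e))))
 .e)))) (by decide +kernel)

theorem b5_737 : S (PX [494,498] [427,493,496,497,500]) := S.of (.q 395 (.a 1 [] (.d 393 392 392 393 397)
 (.a 1 [392] (.d 397 393 393 394 398)
 (.a 0 [393,397] (.q 429 (.a 1 [] (.d 330 2345 297 2378 462)
 (.a 1 [297] (.d 462 2378 330 2411 495)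
 (.a 0 [330,462] (.q 332 (.a 1 [] (.d 301 3342 270 3373 425)
 (.a 1 [270] (.d 425 3373 301 3404 456)
 (.a 0 [301,425] (.q 428 (.a 1 [] (.d 364 1324 300 1356 460)
 (.a 1 [300] (.d 461 2410 362 2443 527)
 .e)))
 .e))))
 .e))))
 .e)))) (by decide +kernel)

theorem b5_779 : S (PX [494,498] [428,493,496,497,500]) := S.of (.q 330 (.a 1 [] (.d 297 2312 264 2345 429)
 (.a 1 [429] (.q 332 (.a 1 [] (.d 301 3342 270 3373 425)
 (.a 1 [270] (.d 425 3373 301 3404 456)
 (.a 0 [301,425] (.q 426 (.a 1 [] (.d 362 1322 298 1354 458)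
 (.a 0 [298,362,458] (.q 333 (.a 1 [] (.d 331 329 329 330 334)
 (.a 0 [329,331,334] (.q 395 (.a 1 [] (.d 393 392 392 393 397)
 (.a 1 [392] (.d 397 393 393 394 398)
 (.a 1 [393] (.d 364 3374 302 3405 457)
 .e))))
 .e)))
 .e)))
 .e))))
 (.a 1 [297] (.q 362 (.a 1 [] (.d 298 1290 266 1322 426)
 (.a 1 [266] (.d 426 1322 298 1354 458)
 (.a 0 [298,426] (.q 361 (.a 1 [] (.d 360 359 359 360 364)
 (.a 1 [359] (.d 364 360 360 361 365)
 (.a 0 [360,364] (.q 299 (.a 1 [] (.d 268 3309 237 3340 392)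
 (.a 1 [237] (.d 392 3340 268 3371 423)
 (.a 1 [268] (.r 392 3371 423 (.r 395 392 393 (.d 331 1291 267 1323 427)))
 (.a 0 [392] (.q 395 (.a 1 [] (.d 397 393 393 394 398)
 (.a 1 [393] (.d 331 1291 267 1323 427)
 .e)))
 .e)))))
 .e))))
 .e))))
 .e)))) (by decide +kernel)

theorem b5_780 : S (PX [494,498] [429,493,496,497,500]) := S.of (.q 332 (.a 1 [] (.d 301 3342 270 3373 425)
 (.a 1 [270] (.d 425 3373 301 3404 456)
 (.a 0 [301,425] (.q 428 (.a 1 [] (.d 364 1324 300 1356 460)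
 (.a 0 [300,364,460] (.q 395 (.a 1 [] (.d 393 392 392 393 397)
 (.a 1 [392] (.d 397 393 393 394 398)
 (.a 1 [393] (.d 461 2410 362 2443 527)
 .e))))
 .e)))
 .e)))) (by decide +kernel)

theorem b5_781 : S (PX [494,498] [461,493,496,497,500]) := S.of (.q 429 (.a 1 [] (.d 330 2345 297 2378 462)
 (.a 1 [297] (.d 462 2378 330 2411 495)
 (.a 0 [330,462] (.q 395 (.a 1 [] (.d 393 392 392 393 397)
 (.a 1 [392] (.d 397 393 393 394 398)
 (.a 0 [393,397] (.q 332 (.a 1 [] (.d 301 3342 270 3373 425)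
 (.a 1 [270] (.d 425 3373 301 3404 456)
 (.a 0 [301,425] (.q 299 (.a 1 [] (.d 331 1291 267 1323 427)
 (.a 0 [267,331,427] (.q 365 (.a 1 [] (.d 266 2281 233 2314 398)
 (.a 1 [233] (.d 398 2314 266 2347 431)
 (.a 0 [266,398] (.q 364 (.a 1 [] (.d 362 361 361 362 366)
 (.a 1 [361] (.d 366 362 362 363 367)
 (.a 1 [362] (.d 300 1292 268 1324 428)
 .e))))
 .e))))
 .e)))
 .e))))
 .e))))
 .e)))) (by decide +kernel)

theorem b5_782 : S (PX [494,498] [464,493,496,497,500]) := S.of (.q 395 (.a 1 [] (.d 393 392 392 393 397)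
 (.a 1 [392] (.d 397 393 393 394 398)
 (.a 0 [393,397] (.q 427 (.a 1 [] (.d 331 1323 299 1355 459)
 (.a 1 [299] (.d 459 1355 331 1387 491)
 (.a 0 [331,459] (.q 365 (.a 1 [] (.d 334 3375 303 3406 458)
 (.a 1 [303] (.d 458 3406 334 3437 489)
 (.a 0 [334,458] (.q 332 (.a 1 [] (.d 301 3342 270 3373 425)
 (.a 1 [270] (.d 425 3373 301 3404 456)
 (.a 0 [301,425] (.q 364 (.a 1 [] (.d 362 361 361 362 366)
 (.a 1 [361] (.d 366 362 362 363 367)
 (.a 1 [362] (.d 300 1292 268 1324 428)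
 .e))))
 .e))))
 .e))))
 .e))))
 .e)))) (by decide +kernel)

theorem b5_783 : S (PX [494,498] [493,496,497,500,549]) := S.of (.q 395 (.a 1 [] (.d 393 392 392 393 397)
 (.a 1 [392] (.d 397 393 393 394 398)
 (.a 0 [393,397] (.q 427 (.a 1 [] (.d 331 1323 299 1355 459)
 (.a 1 [299] (.d 459 1355 331 1387 491)
 (.a 0 [331,459] (.q 429 (.a 1 [] (.d 330 2345 297 2378 462)
 (.a 1 [297] (.d 462 2378 330 2411 495)
 (.a 0 [330,462] (.q 428 (.a 1 [] (.d 426 425 425 426 430)
 (.a 1 [425] (.d 430 426 426 427 431)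
 (.a 1 [426] (.d 461 2410 362 2443 527)
 .e))))
 .e))))
 .e))))
 .e)))) (by decide +kernel)

theorem b5_789 : S (PX [495,498] [397,494,496,497,500]) := S.of (.q 332 (.a 1 [] (.d 301 3342 270 3373 425)
 (.a 1 [270] (.d 425 3373 301 3404 456)
 (.a 0 [301,425] (.q 364 (.a 1 [] (.d 300 1292 268 1324 428)
 (.a 1 [268] (.d 428 1324 300 1356 460)
 (.a 0 [300,428] (.q 362 (.a 1 [] (.d 361 360 360 361 365)
 (.a 1 [360] (.d 365 361 361 362 366)
 (.a 1 [361] (.r 429 2411 462 (.r 330 2345 297 (.d 426 1322 298 1354 458)))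
 .e))))
 .e))))
 .e)))) (by decide +kernel)

theorem v5_689 : VW (PX [335,434] [302,368,401,500]) := VW.of base nl_ok fl_ok .nil
  []
  [([298], (PX [335,434] [298,302,368,401,500])), ([300], (PX [335,434] [300,302,368,401,500])), ([303], (PX [335,434] [302,303,368,401,500])), ([392], (PX [335,434] [302,368,392,401,500])), ([397], (PX [335,434] [302,368,397,401,500])), ([398], (PX [335,434] [302,368,398,401,500])), ([399], (PX [335,434] [302,368,399,401,500])), ([400], (PX [335,434] [302,368,400,401,500])), ([426], (PX [335,434] [302,368,401,426,500]))]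
  (by decide +kernel) ⟨b5_455, b5_456, b5_457, b5_458, b5_459, b5_460, b5_461, b5_462, b5_463, trivial⟩

theorem v5_691 : VW (PX [302,434] [335,368,401,500]) := VW.of base nl_ok fl_ok .nil
  []
  [([304], (PX [302,434] [304,335,368,401,500])), ([330], (PX [302,434] [330,335,368,401,500])), ([332], (PX [302,434] [332,335,368,401,500])), ([366], (PX [302,434] [335,366,368,401,500])), ([400], (PX [302,434] [335,368,400,401,500])), ([425], (PX [302,434] [335,368,401,425,500])), ([428], (PX [302,434] [335,368,401,428,500]))]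
  (by decide +kernel) ⟨b5_471, b5_472, b5_473, b5_474, b5_475, b5_476, b5_477, trivial⟩

theorem w5_692_302 : S (PX [434] [302,368,401,500]) := VW.play 335 (PX [335,434] [302,368,401,500]) (by decide +kernel) v5_689

theorem w5_692_335 : S (PX [434] [335,368,401,500]) := VW.play 302 (PX [302,434] [335,368,401,500]) (by decide +kernel) v5_691

theorem v5_692 : VW (PX [434] [368,401,500]) := VW.of base nl_ok fl_ok .nil
  []
  [([269], (PX [434] [269,368,401,500])), ([297], (PX [434] [297,368,401,500])), ([302], (PX [434] [302,368,401,500])), ([335], (PX [434] [335,368,401,500])), ([399], (PX [434] [368,399,401,500])), ([400], (PX [434] [368,400,401,500]))]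
  (by decide +kernel) ⟨b5_444, b5_445, w5_692_302, w5_692_335, b5_478, b5_479, trivial⟩

theorem v5_698 : VW (PX [401] [368,434,500]) := VW.of base nl_ok fl_ok .nil
  [(467, (.cons 533 566 .nil (.cons 566 533 .nil .nil))), (533, (.cons 467 566 .nil (.cons 566 467 (.cons 599 632 .nil (.cons 632 599 .nil .nil)) .nil))), (566, (.cons 467 533 .nil (.cons 533 467 (.cons 599 632 .nil (.cons 632 599 .nil .nil)) .nil)))]
  []
  (by decide +kernel) trivial

theorem w5_709_401 : S (PX [] [368,401,500]) := VW.play 434 (PX [434] [368,401,500]) (by decide +kernel) v5_692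

theorem w5_709_434 : S (PX [] [368,434,500]) := VW.play 401 (PX [401] [368,434,500]) (by decide +kernel) v5_698

theorem v5_709 : VW (PX [] [368,500]) := VW.of base nl_ok fl_ok .nil
  [(467, (.cons 401 434 .nil (.cons 434 401 (.cons 533 566 .nil (.cons 566 533 .nil .nil)) .nil)))]
  [([401], (PX [] [368,401,500])), ([434], (PX [] [368,434,500]))]
  (by decide +kernel) ⟨w5_709_401, w5_709_434, trivial⟩

theorem v5_710 : VW (PX [] [372,500]) := VW.of base nl_ok fl_ok .nil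
  [(404, (.cons 436 468 (.cons 308 340 .nil (.cons 340 308 .nil .nil)) (.cons 468 436 .nil .nil))), (436, (.cons 404 468 (.cons 308 340 .nil (.cons 340 308 .nil .nil)) (.cons 468 404 (.cons 532 564 .nil (.cons 564 532 .nil .nil)) .nil))), (468, (.cons 404 436 .nil (.cons 436 404 (.cons 532 564 .nil (.cons 564 532 .nil .nil)) .nil)))]
  []
  (by decide +kernel) trivial

theorem v5_711 : VW (PX [] [376,500]) := VW.of base nl_ok fl_ok .nil
  [(407, (.cons 438 469 (.cons 314 345 .nil (.cons 345 314 .nil .nil)) (.cons 469 438 .nil .nil))), (438, (.cons 407 469 (.cons 314 345 .nil (.cons 345 314 .nil .nil)) (.cons 469 407 (.cons 531 562 .nil (.cons 562 531 .nil .nil)) .nil))), (469, (.cons 407 438 .nil (.cons 438 407 (.cons 531 562 .nil (.cons 562 531 .nil .nil)) .nil)))]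
  []
  (by decide +kernel) trivial

theorem v5_712 : VW (PX [335,467] [302,401,434,500]) := VW.of base nl_ok fl_ok .nil
  []
  [([298], (PX [335,467] [298,302,401,434,500])), ([300], (PX [335,467] [300,302,401,434,500])), ([303], (PX [335,467] [302,303,401,434,500])), ([392], (PX [335,467] [302,392,401,434,500])), ([397], (PX [335,467] [302,397,401,434,500])), ([398], (PX [335,467] [302,398,401,434,500])), ([399], (PX [335,467] [302,399,401,434,500])), ([400], (PX [335,467] [302,400,401,434,500])), ([426], (PX [335,467] [302,401,426,434,500]))]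
  (by decide +kernel) ⟨b5_644, b5_645, b5_646, b5_647, b5_648, b5_649, b5_650, b5_651, b5_652, trivial⟩

theorem v5_714 : VW (PX [302,467] [335,401,434,500]) := VW.of base nl_ok fl_ok .nil
  []
  [([304], (PX [302,467] [304,335,401,434,500])), ([330], (PX [302,467] [330,335,401,434,500])), ([332], (PX [302,467] [332,335,401,434,500])), ([366], (PX [302,467] [335,366,401,434,500])), ([400], (PX [302,467] [335,400,401,434,500])), ([425], (PX [302,467] [335,401,425,434,500])), ([428], (PX [302,467] [335,401,428,434,500]))]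
  (by decide +kernel) ⟨b5_662, b5_663, b5_664, b5_665, b5_666, b5_667, b5_668, trivial⟩

theorem v5_696 : VW (PX [335,467] [368,401,434,500]) := VW.of base nl_ok fl_ok .nil
  []
  [([400], (PX [335,467] [368,400,401,434,500]))]
  (by decide +kernel) ⟨b5_501, trivial⟩

theorem w5_716_302 : S (PX [467] [302,401,434,500]) := VW.play 335 (PX [335,467] [302,401,434,500]) (by decide +kernel) v5_712

theorem w5_716_335 : S (PX [467] [335,401,434,500]) := VW.play 302 (PX [302,467] [335,401,434,500]) (by decide +kernel) v5_714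

theorem w5_716_368 : S (PX [467] [368,401,434,500]) := VW.play 335 (PX [335,467] [368,401,434,500]) (by decide +kernel) v5_696

theorem v5_716 : VW (PX [467] [401,434,500]) := VW.of base nl_ok fl_ok .nil
  []
  [([302], (PX [467] [302,401,434,500])), ([335], (PX [467] [335,401,434,500])), ([368], (PX [467] [368,401,434,500])), ([400], (PX [467] [400,401,434,500]))]
  (by decide +kernel) ⟨w5_716_302, w5_716_335, w5_716_368, b5_676, trivial⟩

theorem v5_717 : VW (PX [434] [401,467,500]) := VW.of base nl_ok fl_ok .nil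
  [(533, (.cons 566 599 .nil (.cons 599 566 .nil .nil))), (566, (.cons 533 599 .nil (.cons 599 533 .nil .nil))), (599, (.cons 533 566 .nil (.cons 566 533 .nil .nil)))]
  [([400], (PX [434] [400,401,467,500]))]
  (by decide +kernel) ⟨b5_677, trivial⟩

theorem w5_718_368 : S (PX [] [368,401,500]) := VW.play 434 (PX [434] [368,401,500]) (by decide +kernel) v5_692

theorem w5_718_434 : S (PX [] [401,434,500]) := VW.play 467 (PX [467] [401,434,500]) (by decide +kernel) v5_716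

theorem w5_718_467 : S (PX [] [401,467,500]) := VW.play 434 (PX [434] [401,467,500]) (by decide +kernel) v5_717

theorem v5_718 : VW (PX [] [401,500]) := VW.of base nl_ok fl_ok .nil
  [(533, (.cons 434 467 .nil (.cons 467 434 (.cons 566 599 .nil (.cons 599 566 .nil .nil)) .nil)))]
  [([368], (PX [] [368,401,500])), ([400], (PX [] [400,401,500])), ([434], (PX [] [401,434,500])), ([467], (PX [] [401,467,500]))]
  (by decide +kernel) ⟨w5_718_368, b5_643, w5_718_434, w5_718_467, trivial⟩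

theorem v5_186 : VW (PX [468] [404,436,500]) := VW.of base nl_ok fl_ok .nil
  [(308, (.cons 340 372 .nil (.cons 372 340 .nil .nil))), (340, (.cons 308 372 .nil (.cons 372 308 .nil .nil))), (372, (.cons 308 340 .nil (.cons 340 308 .nil .nil)))]
  []
  (by decide +kernel) trivial

theorem v5_498 : VW (PX [436] [404,468,500]) := VW.of base nl_ok fl_ok .nil
  [(532, (.cons 564 596 .nil (.cons 596 564 .nil .nil))), (564, (.cons 532 596 .nil (.cons 596 532 .nil .nil))), (596, (.cons 532 564 .nil (.cons 564 532 .nil .nil)))]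
  []
  (by decide +kernel) trivial

theorem w5_719_436 : S (PX [] [404,436,500]) := VW.play 468 (PX [468] [404,436,500]) (by decide +kernel) v5_186

theorem w5_719_468 : S (PX [] [404,468,500]) := VW.play 436 (PX [436] [404,468,500]) (by decide +kernel) v5_498

theorem v5_719 : VW (PX [] [404,500]) := VW.of base nl_ok fl_ok .nil
  [(372, (.cons 436 468 (.cons 308 340 .nil (.cons 340 308 .nil .nil)) (.cons 468 436 .nil .nil))), (532, (.cons 436 468 .nil (.cons 468 436 (.cons 564 596 .nil (.cons 596 564 .nil .nil)) .nil)))]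
  [([436], (PX [] [404,436,500])), ([468], (PX [] [404,468,500]))]
  (by decide +kernel) ⟨w5_719_436, w5_719_468, trivial⟩

theorem v5_723 : VW (PX [469] [407,438,500]) := VW.of base nl_ok fl_ok .nil
  [(314, (.cons 345 376 .nil (.cons 376 345 .nil .nil))), (345, (.cons 314 376 .nil (.cons 376 314 .nil .nil))), (376, (.cons 314 345 .nil (.cons 345 314 .nil .nil)))]
  []
  (by decide +kernel) trivial

theorem v5_738 : VW (PX [438] [407,469,500]) := VW.of base nl_ok fl_ok .nil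
  [(531, (.cons 562 593 .nil (.cons 593 562 .nil .nil))), (562, (.cons 531 593 .nil (.cons 593 531 .nil .nil))), (593, (.cons 531 562 .nil (.cons 562 531 .nil .nil)))]
  []
  (by decide +kernel) trivial

theorem w5_741_438 : S (PX [] [407,438,500]) := VW.play 469 (PX [469] [407,438,500]) (by decide +kernel) v5_723

theorem w5_741_469 : S (PX [] [407,469,500]) := VW.play 438 (PX [438] [407,469,500]) (by decide +kernel) v5_738

theorem v5_741 : VW (PX [] [407,500]) := VW.of base nl_ok fl_ok .nil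
  [(376, (.cons 438 469 (.cons 314 345 .nil (.cons 345 314 .nil .nil)) (.cons 469 438 .nil .nil))), (531, (.cons 438 469 .nil (.cons 469 438 (.cons 562 593 .nil (.cons 593 562 .nil .nil)) .nil)))]
  [([438], (PX [] [407,438,500])), ([469], (PX [] [407,469,500]))]
  (by decide +kernel) ⟨w5_741_438, w5_741_469, trivial⟩

theorem v5_742 : VW (PX [401,566] [434,467,500,533]) := VW.of base nl_ok fl_ok .nil
  []
  []
  (by decide +kernel) trivial

theorem v5_743 : VW (PX [401,533] [434,467,500,566]) := VW.of base nl_ok fl_ok .nil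
  []
  []
  (by decide +kernel) trivial

theorem w5_744_533 : S (PX [401] [434,467,500,533]) := VW.play 566 (PX [401,566] [434,467,500,533]) (by decide +kernel) v5_742

theorem w5_744_566 : S (PX [401] [434,467,500,566]) := VW.play 533 (PX [401,533] [434,467,500,566]) (by decide +kernel) v5_743

theorem v5_744 : VW (PX [401] [434,467,500]) := VW.of base nl_ok fl_ok (.cons 533 566 .nil (.cons 566 533 .nil .nil))
  [(599, (.cons 533 566 .nil (.cons 566 533 .nil .nil))), (632, (.cons 533 566 .nil (.cons 566 533 .nil .nil))), (665, (.cons 533 566 .nil (.cons 566 533 .nil .nil)))]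
  [([533], (PX [401] [434,467,500,533])), ([566], (PX [401] [434,467,500,566]))]
  (by decide +kernel) ⟨w5_744_533, w5_744_566, trivial⟩

theorem v5_759 : VW (PX [467] [434,500,533]) := VW.of base nl_ok fl_ok .nil
  [(566, (.cons 599 632 .nil (.cons 632 599 .nil .nil))), (599, (.cons 566 632 .nil (.cons 632 566 .nil .nil))), (632, (.cons 566 599 .nil (.cons 599 566 .nil .nil)))]
  []
  (by decide +kernel) trivial

theorem v5_760 : VW (PX [467] [434,500,566]) := VW.of base nl_ok fl_ok .nil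
  [(533, (.cons 599 632 .nil (.cons 632 599 .nil .nil))), (599, (.cons 533 632 .nil (.cons 632 533 (.cons 665 698 .nil (.cons 698 665 .nil .nil)) .nil))), (632, (.cons 533 599 .nil (.cons 599 533 (.cons 665 698 .nil (.cons 698 665 .nil .nil)) .nil)))]
  []
  (by decide +kernel) trivial

theorem w5_776_368 : S (PX [] [368,434,500]) := VW.play 401 (PX [401] [368,434,500]) (by decide +kernel) v5_698

theorem w5_776_401 : S (PX [] [401,434,500]) := VW.play 467 (PX [467] [401,434,500]) (by decide +kernel) v5_716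

theorem w5_776_467 : S (PX [] [434,467,500]) := VW.play 401 (PX [401] [434,467,500]) (by decide +kernel) v5_744

theorem w5_776_533 : S (PX [] [434,500,533]) := VW.play 467 (PX [467] [434,500,533]) (by decide +kernel) v5_759

theorem w5_776_566 : S (PX [] [434,500,566]) := VW.play 467 (PX [467] [434,500,566]) (by decide +kernel) v5_760

theorem v5_776 : VW (PX [] [434,500]) := VW.of base nl_ok fl_ok .nil
  []
  [([368], (PX [] [368,434,500])), ([401], (PX [] [401,434,500])), ([467], (PX [] [434,467,500])), ([533], (PX [] [434,500,533])), ([566], (PX [] [434,500,566]))]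
  (by decide +kernel) ⟨w5_776_368, w5_776_401, w5_776_467, w5_776_533, w5_776_566, trivial⟩

theorem v5_314 : VW (PX [404,564] [436,468,500,532]) := VW.of base nl_ok fl_ok .nil
  []
  []
  (by decide +kernel) trivial

theorem v5_315 : VW (PX [404,532] [436,468,500,564]) := VW.of base nl_ok fl_ok .nil
  []
  []
  (by decide +kernel) trivial

theorem w5_316_532 : S (PX [404] [436,468,500,532]) := VW.play 564 (PX [404,564] [436,468,500,532]) (by decide +kernel) v5_314

theorem w5_316_564 : S (PX [404] [436,468,500,564]) := VW.play 532 (PX [404,532] [436,468,500,564]) (by decide +kernel) v5_315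

theorem v5_316 : VW (PX [404] [436,468,500]) := VW.of base nl_ok fl_ok (.cons 532 564 .nil (.cons 564 532 .nil .nil))
  [(596, (.cons 532 564 .nil (.cons 564 532 .nil .nil))), (628, (.cons 532 564 .nil (.cons 564 532 .nil .nil))), (660, (.cons 532 564 .nil (.cons 564 532 .nil .nil)))]
  [([532], (PX [404] [436,468,500,532])), ([564], (PX [404] [436,468,500,564]))]
  (by decide +kernel) ⟨w5_316_532, w5_316_564, trivial⟩

theorem v5_361 : VW (PX [468] [436,500,532]) := VW.of base nl_ok fl_ok .nil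
  [(564, (.cons 596 628 .nil (.cons 628 596 .nil .nil))), (596, (.cons 564 628 .nil (.cons 628 564 .nil .nil))), (628, (.cons 564 596 .nil (.cons 596 564 .nil .nil)))]
  []
  (by decide +kernel) trivial

theorem w5_364_404 : S (PX [] [404,436,500]) := VW.play 468 (PX [468] [404,436,500]) (by decide +kernel) v5_186

theorem w5_364_468 : S (PX [] [436,468,500]) := VW.play 404 (PX [404] [436,468,500]) (by decide +kernel) v5_316

theorem w5_364_532 : S (PX [] [436,500,532]) := VW.play 468 (PX [468] [436,500,532]) (by decide +kernel) v5_361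

theorem v5_364 : VW (PX [] [436,500]) := VW.of base nl_ok fl_ok .nil
  [(372, (.cons 404 468 (.cons 308 340 .nil (.cons 340 308 .nil .nil)) (.cons 468 404 (.cons 532 564 .nil (.cons 564 532 .nil .nil)) .nil))), (564, (.cons 468 532 (.cons 372 404 .nil (.cons 404 372 .nil .nil)) (.cons 532 468 (.cons 596 628 .nil (.cons 628 596 .nil .nil)) .nil)))]
  [([404], (PX [] [404,436,500])), ([468], (PX [] [436,468,500])), ([532], (PX [] [436,500,532]))]
  (by decide +kernel) ⟨w5_364_404, w5_364_468, w5_364_532, trivial⟩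

theorem v5_777 : VW (PX [407,562] [438,469,500,531]) := VW.of base nl_ok fl_ok .nil
  []
  []
  (by decide +kernel) trivial

theorem v5_778 : VW (PX [407,531] [438,469,500,562]) := VW.of base nl_ok fl_ok .nil
  []
  []
  (by decide +kernel) trivial

theorem w5_779_531 : S (PX [407] [438,469,500,531]) := VW.play 562 (PX [407,562] [438,469,500,531]) (by decide +kernel) v5_777

theorem w5_779_562 : S (PX [407] [438,469,500,562]) := VW.play 531 (PX [407,531] [438,469,500,562]) (by decide +kernel) v5_778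

theorem v5_779 : VW (PX [407] [438,469,500]) := VW.of base nl_ok fl_ok (.cons 531 562 .nil (.cons 562 531 .nil .nil))
  [(593, (.cons 531 562 .nil (.cons 562 531 .nil .nil))), (624, (.cons 531 562 .nil (.cons 562 531 .nil .nil))), (655, (.cons 531 562 .nil (.cons 562 531 .nil .nil)))]
  [([531], (PX [407] [438,469,500,531])), ([562], (PX [407] [438,469,500,562]))]
  (by decide +kernel) ⟨w5_779_531, w5_779_562, trivial⟩

theorem v5_796 : VW (PX [469] [438,500,531]) := VW.of base nl_ok fl_ok .nil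
  [(562, (.cons 593 624 .nil (.cons 624 593 .nil .nil))), (593, (.cons 562 624 .nil (.cons 624 562 .nil .nil))), (624, (.cons 562 593 .nil (.cons 593 562 .nil .nil)))]
  []
  (by decide +kernel) trivial

theorem w5_799_407 : S (PX [] [407,438,500]) := VW.play 469 (PX [469] [407,438,500]) (by decide +kernel) v5_723

theorem w5_799_469 : S (PX [] [438,469,500]) := VW.play 407 (PX [407] [438,469,500]) (by decide +kernel) v5_779

theorem w5_799_531 : S (PX [] [438,500,531]) := VW.play 469 (PX [469] [438,500,531]) (by decide +kernel) v5_796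

theorem v5_799 : VW (PX [] [438,500]) := VW.of base nl_ok fl_ok .nil
  [(376, (.cons 407 469 (.cons 314 345 .nil (.cons 345 314 .nil .nil)) (.cons 469 407 (.cons 531 562 .nil (.cons 562 531 .nil .nil)) .nil))), (562, (.cons 469 531 (.cons 376 407 .nil (.cons 407 376 .nil .nil)) (.cons 531 469 (.cons 593 624 .nil (.cons 624 593 .nil .nil)) .nil)))]
  [([407], (PX [] [407,438,500])), ([469], (PX [] [438,469,500])), ([531], (PX [] [438,500,531]))]
  (by decide +kernel) ⟨w5_799_407, w5_799_469, w5_799_531, trivial⟩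

theorem v5_800 : VW (PX [434,599] [467,500,533,566]) := VW.of base nl_ok fl_ok .nil
  []
  []
  (by decide +kernel) trivial

theorem v5_801 : VW (PX [434,566] [467,500,533,599]) := VW.of base nl_ok fl_ok .nil
  []
  []
  (by decide +kernel) trivial

theorem w5_802_566 : S (PX [434] [467,500,533,566]) := VW.play 599 (PX [434,599] [467,500,533,566]) (by decide +kernel) v5_800

theorem w5_802_599 : S (PX [434] [467,500,533,599]) := VW.play 566 (PX [434,566] [467,500,533,599]) (by decide +kernel) v5_801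

theorem v5_802 : VW (PX [434] [467,500,533]) := VW.of base nl_ok fl_ok (.cons 566 599 .nil (.cons 599 566 .nil .nil))
  [(632, (.cons 566 599 .nil (.cons 599 566 .nil .nil))), (665, (.cons 566 599 .nil (.cons 599 566 .nil .nil))), (698, (.cons 566 599 .nil (.cons 599 566 .nil .nil)))]
  [([566], (PX [434] [467,500,533,566])), ([599], (PX [434] [467,500,533,599]))]
  (by decide +kernel) ⟨w5_802_566, w5_802_599, trivial⟩

theorem v5_773 : VW (PX [368,533] [434,467,500,566]) := VW.of base nl_ok fl_ok .nil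
  []
  []
  (by decide +kernel) trivial

theorem w5_805_434 : S (PX [533] [434,467,500,566]) := VW.play 368 (PX [368,533] [434,467,500,566]) (by decide +kernel) v5_773

theorem v5_805 : VW (PX [533] [467,500,566]) := VW.of base nl_ok fl_ok .nil
  [(368, (.cons 401 434 .nil (.cons 434 401 .nil .nil))), (401, (.cons 368 434 .nil (.cons 434 368 .nil .nil)))]
  [([434], (PX [533] [434,467,500,566]))]
  (by decide +kernel) ⟨w5_805_434, trivial⟩

theorem w5_806_401 : S (PX [] [401,467,500]) := VW.play 434 (PX [434] [401,467,500]) (by decide +kernel) v5_717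

theorem w5_806_434 : S (PX [] [434,467,500]) := VW.play 401 (PX [401] [434,467,500]) (by decide +kernel) v5_744

theorem w5_806_533 : S (PX [] [467,500,533]) := VW.play 434 (PX [434] [467,500,533]) (by decide +kernel) v5_802

theorem w5_806_566 : S (PX [] [467,500,566]) := VW.play 533 (PX [533] [467,500,566]) (by decide +kernel) v5_805

theorem v5_806 : VW (PX [] [467,500]) := VW.of base nl_ok fl_ok .nil
  [(368, (.cons 401 434 .nil (.cons 434 401 (.cons 533 566 .nil (.cons 566 533 .nil .nil)) .nil))), (599, (.cons 533 566 (.cons 401 434 .nil (.cons 434 401 .nil .nil)) (.cons 566 533 .nil .nil)))]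
  [([401], (PX [] [401,467,500])), ([434], (PX [] [434,467,500])), ([533], (PX [] [467,500,533])), ([566], (PX [] [467,500,566]))]
  (by decide +kernel) ⟨w5_806_401, w5_806_434, w5_806_533, w5_806_566, trivial⟩

theorem v5_619 : VW (PX [436,596] [468,500,532,564]) := VW.of base nl_ok fl_ok .nil
  []
  []
  (by decide +kernel) trivial

theorem v5_620 : VW (PX [436,564] [468,500,532,596]) := VW.of base nl_ok fl_ok .nil
  []
  []
  (by decide +kernel) trivial

theorem w5_621_564 : S (PX [436] [468,500,532,564]) := VW.play 596 (PX [436,596] [468,500,532,564]) (by decide +kernel) v5_619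

theorem w5_621_596 : S (PX [436] [468,500,532,596]) := VW.play 564 (PX [436,564] [468,500,532,596]) (by decide +kernel) v5_620

theorem v5_621 : VW (PX [436] [468,500,532]) := VW.of base nl_ok fl_ok (.cons 564 596 .nil (.cons 596 564 .nil .nil))
  [(628, (.cons 564 596 .nil (.cons 596 564 .nil .nil))), (660, (.cons 564 596 .nil (.cons 596 564 .nil .nil))), (692, (.cons 564 596 .nil (.cons 596 564 .nil .nil)))]
  [([564], (PX [436] [468,500,532,564])), ([596], (PX [436] [468,500,532,596]))]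
  (by decide +kernel) ⟨w5_621_564, w5_621_596, trivial⟩

theorem v5_626 : VW (PX [532] [468,500,564]) := VW.of base nl_ok fl_ok .nil
  [(372, (.cons 404 436 .nil (.cons 436 404 .nil .nil))), (404, (.cons 372 436 .nil (.cons 436 372 .nil .nil))), (436, (.cons 372 404 .nil (.cons 404 372 .nil .nil)))]
  []
  (by decide +kernel) trivial

theorem w5_638_404 : S (PX [] [404,468,500]) := VW.play 436 (PX [436] [404,468,500]) (by decide +kernel) v5_498

theorem w5_638_436 : S (PX [] [436,468,500]) := VW.play 404 (PX [404] [436,468,500]) (by decide +kernel) v5_316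

theorem w5_638_532 : S (PX [] [468,500,532]) := VW.play 436 (PX [436] [468,500,532]) (by decide +kernel) v5_621

theorem w5_638_564 : S (PX [] [468,500,564]) := VW.play 532 (PX [532] [468,500,564]) (by decide +kernel) v5_626

theorem v5_638 : VW (PX [] [468,500]) := VW.of base nl_ok fl_ok .nil
  [(372, (.cons 404 436 .nil (.cons 436 404 (.cons 532 564 .nil (.cons 564 532 .nil .nil)) .nil))), (596, (.cons 532 564 (.cons 404 436 .nil (.cons 436 404 .nil .nil)) (.cons 564 532 .nil .nil)))]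
  [([404], (PX [] [404,468,500])), ([436], (PX [] [436,468,500])), ([532], (PX [] [468,500,532])), ([564], (PX [] [468,500,564]))]
  (by decide +kernel) ⟨w5_638_404, w5_638_436, w5_638_532, w5_638_564, trivial⟩

theorem v5_807 : VW (PX [438,593] [469,500,531,562]) := VW.of base nl_ok fl_ok .nil
  []
  []
  (by decide +kernel) trivial

theorem v5_808 : VW (PX [438,562] [469,500,531,593]) := VW.of base nl_ok fl_ok .nil
  []
  []
  (by decide +kernel) trivial

theorem w5_809_562 : S (PX [438] [469,500,531,562]) := VW.play 593 (PX [438,593] [469,500,531,562]) (by decide +kernel) v5_807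

theorem w5_809_593 : S (PX [438] [469,500,531,593]) := VW.play 562 (PX [438,562] [469,500,531,593]) (by decide +kernel) v5_808

theorem v5_809 : VW (PX [438] [469,500,531]) := VW.of base nl_ok fl_ok (.cons 562 593 .nil (.cons 593 562 .nil .nil))
  [(624, (.cons 562 593 .nil (.cons 593 562 .nil .nil))), (655, (.cons 562 593 .nil (.cons 593 562 .nil .nil))), (686, (.cons 562 593 .nil (.cons 593 562 .nil .nil)))]
  [([562], (PX [438] [469,500,531,562])), ([593], (PX [438] [469,500,531,593]))]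
  (by decide +kernel) ⟨w5_809_562, w5_809_593, trivial⟩

theorem v5_814 : VW (PX [531] [469,500,562]) := VW.of base nl_ok fl_ok .nil
  [(376, (.cons 407 438 .nil (.cons 438 407 .nil .nil))), (407, (.cons 376 438 .nil (.cons 438 376 .nil .nil))), (438, (.cons 376 407 .nil (.cons 407 376 .nil .nil)))]
  []
  (by decide +kernel) trivial

theorem w5_826_407 : S (PX [] [407,469,500]) := VW.play 438 (PX [438] [407,469,500]) (by decide +kernel) v5_738

theorem w5_826_438 : S (PX [] [438,469,500]) := VW.play 407 (PX [407] [438,469,500]) (by decide +kernel) v5_779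

theorem w5_826_531 : S (PX [] [469,500,531]) := VW.play 438 (PX [438] [469,500,531]) (by decide +kernel) v5_809

theorem w5_826_562 : S (PX [] [469,500,562]) := VW.play 531 (PX [531] [469,500,562]) (by decide +kernel) v5_814

theorem v5_826 : VW (PX [] [469,500]) := VW.of base nl_ok fl_ok .nil
  [(376, (.cons 407 438 .nil (.cons 438 407 (.cons 531 562 .nil (.cons 562 531 .nil .nil)) .nil))), (593, (.cons 531 562 (.cons 407 438 .nil (.cons 438 407 .nil .nil)) (.cons 562 531 .nil .nil)))]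
  [([407], (PX [] [407,469,500])), ([438], (PX [] [438,469,500])), ([531], (PX [] [469,500,531])), ([562], (PX [] [469,500,562]))]
  (by decide +kernel) ⟨w5_826_407, w5_826_438, w5_826_531, w5_826_562, trivial⟩

theorem v5_827 : VW (PX [494,498] [493,496,497,500]) := VW.of base nl_ok fl_ok .nil
  []
  (([297], (PX [494,498] [297,493,496,497,500])) :: ([298], (PX [494,498] [298,493,496,497,500])) :: ([299], (PX [494,498] [299,493,496,497,500])) :: ([300], (PX [494,498] [300,493,496,497,500])) :: ([301], (PX [494,498] [301,493,496,497,500])) :: ([302], (PX [494,498] [302,493,496,497,500])) :: ([330], (PX [494,498] [330,493,496,497,500])) :: ([332], (PX [494,498] [332,493,496,497,500])) :: ([365], (PX [494,498] [365,493,496,497,500])) :: ([397], (PX [494,498] [397,493,496,497,500])) :: ([425], (PX [494,498] [425,493,496,497,500])) :: ([426], (PX [494,498] [426,493,496,497,500])) :: ([427], (PX [494,498] [427,493,496,497,500])) :: ([428],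 (PX [494,498] [428,493,496,497,500])) :: ([429], (PX [494,498] [429,493,496,497,500])) :: ([461], (PX [494,498] [461,493,496,497,500])) :: ([464], (PX [494,498] [464,493,496,497,500])) :: ([549], (PX [494,498] [493,496,497,500,549])) :: [])
  (by decide +kernel) ⟨b5_725, b5_726, b5_727, b5_728, b5_729, b5_730, b5_731, b5_732, b5_733, b5_734, b5_735, b5_736, b5_737, b5_779, b5_780, b5_781, b5_782, b5_783, trivial⟩

theorem v5_830 : VW (PX [495,498] [494,496,497,500]) := VW.of base nl_ok fl_ok .nil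
  []
  [([397], (PX [495,498] [397,494,496,497,500]))]
  (by decide +kernel) ⟨b5_789, trivial⟩

theorem v5_831 : VW (PX [493,498] [495,496,497,500]) := VW.of base nl_ok fl_ok .nil
  []
  []
  (by decide +kernel) trivial

theorem w5_833_493 : S (PX [498] [493,496,497,500]) := VW.play 494 (PX [494,498] [493,496,497,500]) (by decide +kernel) v5_827

theorem w5_833_494 : S (PX [498] [494,496,497,500]) := VW.play 495 (PX [495,498] [494,496,497,500]) (by decide +kernel) v5_830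

theorem w5_833_495 : S (PX [498] [495,496,497,500]) := VW.play 493 (PX [493,498] [495,496,497,500]) (by decide +kernel) v5_831

theorem v5_833 : VW (PX [498] [496,497,500]) := VW.of base nl_ok fl_ok .nil
  []
  [([493], (PX [498] [493,496,497,500])), ([494], (PX [498] [494,496,497,500])), ([495], (PX [498] [495,496,497,500]))]
  (by decide +kernel) ⟨w5_833_493, w5_833_494, w5_833_495, trivial⟩

theorem v5_846 : VW (PX [497] [496,498,500]) := VW.of base nl_ok fl_ok .nil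
  [(499, (.cons 501 502 .nil (.cons 502 501 .nil .nil))), (501, (.cons 499 502 .nil (.cons 502 499 (.cons 503 504 .nil (.cons 504 503 .nil .nil)) .nil))), (502, (.cons 499 501 .nil (.cons 501 499 (.cons 503 504 .nil (.cons 504 503 .nil .nil)) .nil)))]
  []
  (by decide +kernel) trivial

theorem w5_861_497 : S (PX [] [496,497,500]) := VW.play 498 (PX [498] [496,497,500]) (by decide +kernel) v5_833

theorem w5_861_498 : S (PX [] [496,498,500]) := VW.play 497 (PX [497] [496,498,500]) (by decide +kernel) v5_846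

theorem v5_861 : VW (PX [] [496,500]) := VW.of base nl_ok fl_ok .nil
  [(499, (.cons 497 498 .nil (.cons 498 497 (.cons 501 502 .nil (.cons 502 501 .nil .nil)) .nil)))]
  [([497], (PX [] [496,497,500])), ([498], (PX [] [496,498,500]))]
  (by decide +kernel) ⟨w5_861_497, w5_861_498, trivial⟩

theorem v5_865 : VW (PX [494,499] [495,497,498,500]) := VW.of base nl_ok fl_ok .nil
  []
  []
  (by decide +kernel) trivial

theorem v5_843 : VW (PX [494,499] [496,497,498,500]) := VW.of base nl_ok fl_ok .nil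
  []
  []
  (by decide +kernel) trivial

theorem w5_867_495 : S (PX [499] [495,497,498,500]) := VW.play 494 (PX [494,499] [495,497,498,500]) (by decide +kernel) v5_865

theorem w5_867_496 : S (PX [499] [496,497,498,500]) := VW.play 494 (PX [494,499] [496,497,498,500]) (by decide +kernel) v5_843

theorem v5_867 : VW (PX [499] [497,498,500]) := VW.of base nl_ok fl_ok .nil
  [(494, (.cons 495 496 .nil (.cons 496 495 .nil .nil)))]
  [([495], (PX [499] [495,497,498,500])), ([496], (PX [499] [496,497,498,500]))]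
  (by decide +kernel) ⟨w5_867_495, w5_867_496, trivial⟩

theorem v5_882 : VW (PX [498] [497,499,500]) := VW.of base nl_ok fl_ok .nil
  [(501, (.cons 502 503 .nil (.cons 503 502 .nil .nil))), (502, (.cons 501 503 .nil (.cons 503 501 .nil .nil))), (503, (.cons 501 502 .nil (.cons 502 501 .nil .nil)))]
  []
  (by decide +kernel) trivial

theorem w5_883_496 : S (PX [] [496,497,500]) := VW.play 498 (PX [498] [496,497,500]) (by decide +kernel) v5_833

theorem w5_883_498 : S (PX [] [497,498,500]) := VW.play 499 (PX [499] [497,498,500]) (by decide +kernel) v5_867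

theorem w5_883_499 : S (PX [] [497,499,500]) := VW.play 498 (PX [498] [497,499,500]) (by decide +kernel) v5_882

theorem v5_883 : VW (PX [] [497,500]) := VW.of base nl_ok fl_ok .nil
  [(501, (.cons 498 499 .nil (.cons 499 498 (.cons 502 503 .nil (.cons 503 502 .nil .nil)) .nil)))]
  [([496], (PX [] [496,497,500])), ([498], (PX [] [497,498,500])), ([499], (PX [] [497,499,500]))]
  (by decide +kernel) ⟨w5_883_496, w5_883_498, w5_883_499, trivial⟩

theorem v5_884 : VW (PX [497,502] [498,499,500,501]) := VW.of base nl_ok fl_ok .nil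
  []
  []
  (by decide +kernel) trivial

theorem v5_885 : VW (PX [497,501] [498,499,500,502]) := VW.of base nl_ok fl_ok .nil
  []
  []
  (by decide +kernel) trivial

theorem w5_886_501 : S (PX [497] [498,499,500,501]) := VW.play 502 (PX [497,502] [498,499,500,501]) (by decide +kernel) v5_884

theorem w5_886_502 : S (PX [497] [498,499,500,502]) := VW.play 501 (PX [497,501] [498,499,500,502]) (by decide +kernel) v5_885

theorem v5_886 : VW (PX [497] [498,499,500]) := VW.of base nl_ok fl_ok (.cons 501 502 .nil (.cons 502 501 .nil .nil))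
  [(503, (.cons 501 502 .nil (.cons 502 501 .nil .nil))), (504, (.cons 501 502 .nil (.cons 502 501 .nil .nil))), (505, (.cons 501 502 .nil (.cons 502 501 .nil .nil)))]
  [([501], (PX [497] [498,499,500,501])), ([502], (PX [497] [498,499,500,502]))]
  (by decide +kernel) ⟨w5_886_501, w5_886_502, trivial⟩

theorem v5_901 : VW (PX [499] [498,500,501]) := VW.of base nl_ok fl_ok .nil
  [(502, (.cons 503 504 .nil (.cons 504 503 .nil .nil))), (503, (.cons 502 504 .nil (.cons 504 502 .nil .nil))), (504, (.cons 502 503 .nil (.cons 503 502 .nil .nil)))]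
  []
  (by decide +kernel) trivial

theorem v5_902 : VW (PX [499] [498,500,502]) := VW.of base nl_ok fl_ok .nil
  [(501, (.cons 503 504 .nil (.cons 504 503 .nil .nil))), (503, (.cons 501 504 .nil (.cons 504 501 (.cons 505 506 .nil (.cons 506 505 .nil .nil)) .nil))), (504, (.cons 501 503 .nil (.cons 503 501 (.cons 505 506 .nil (.cons 506 505 .nil .nil)) .nil)))]
  []
  (by decide +kernel) trivial

theorem w5_916_496 : S (PX [] [496,498,500]) := VW.play 497 (PX [497] [496,498,500]) (by decide +kernel) v5_846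

theorem w5_916_497 : S (PX [] [497,498,500]) := VW.play 499 (PX [499] [497,498,500]) (by decide +kernel) v5_867

theorem w5_916_499 : S (PX [] [498,499,500]) := VW.play 497 (PX [497] [498,499,500]) (by decide +kernel) v5_886

theorem w5_916_501 : S (PX [] [498,500,501]) := VW.play 499 (PX [499] [498,500,501]) (by decide +kernel) v5_901

theorem w5_916_502 : S (PX [] [498,500,502]) := VW.play 499 (PX [499] [498,500,502]) (by decide +kernel) v5_902

theorem v5_916 : VW (PX [] [498,500]) := VW.of base nl_ok fl_ok .nil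
  []
  [([496], (PX [] [496,498,500])), ([497], (PX [] [497,498,500])), ([499], (PX [] [498,499,500])), ([501], (PX [] [498,500,501])), ([502], (PX [] [498,500,502]))]
  (by decide +kernel) ⟨w5_916_496, w5_916_497, w5_916_499, w5_916_501, w5_916_502, trivial⟩

theorem v5_917 : VW (PX [498,503] [499,500,501,502]) := VW.of base nl_ok fl_ok .nil
  []
  []
  (by decide +kernel) trivial

theorem v5_918 : VW (PX [498,502] [499,500,501,503]) := VW.of base nl_ok fl_ok .nil
  []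
  []
  (by decide +kernel) trivial

theorem w5_919_502 : S (PX [498] [499,500,501,502]) := VW.play 503 (PX [498,503] [499,500,501,502]) (by decide +kernel) v5_917

theorem w5_919_503 : S (PX [498] [499,500,501,503]) := VW.play 502 (PX [498,502] [499,500,501,503]) (by decide +kernel) v5_918

theorem v5_919 : VW (PX [498] [499,500,501]) := VW.of base nl_ok fl_ok (.cons 502 503 .nil (.cons 503 502 .nil .nil))
  [(504, (.cons 502 503 .nil (.cons 503 502 .nil .nil))), (505, (.cons 502 503 .nil (.cons 503 502 .nil .nil))), (506, (.cons 502 503 .nil (.cons 503 502 .nil .nil)))]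
  [([502], (PX [498] [499,500,501,502])), ([503], (PX [498] [499,500,501,503]))]
  (by decide +kernel) ⟨w5_919_502, w5_919_503, trivial⟩

theorem v5_913 : VW (PX [496,501] [498,499,500,502]) := VW.of base nl_ok fl_ok .nil
  []
  []
  (by decide +kernel) trivial

theorem w5_922_498 : S (PX [501] [498,499,500,502]) := VW.play 496 (PX [496,501] [498,499,500,502]) (by decide +kernel) v5_913

theorem v5_922 : VW (PX [501] [499,500,502]) := VW.of base nl_ok fl_ok .nil
  [(496, (.cons 497 498 .nil (.cons 498 497 .nil .nil))), (497, (.cons 496 498 .nil (.cons 498 496 .nil .nil)))]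
  [([498], (PX [501] [498,499,500,502]))]
  (by decide +kernel) ⟨w5_922_498, trivial⟩

theorem w5_923_497 : S (PX [] [497,499,500]) := VW.play 498 (PX [498] [497,499,500]) (by decide +kernel) v5_882

theorem w5_923_498 : S (PX [] [498,499,500]) := VW.play 497 (PX [497] [498,499,500]) (by decide +kernel) v5_886

theorem w5_923_501 : S (PX [] [499,500,501]) := VW.play 498 (PX [498] [499,500,501]) (by decide +kernel) v5_919

theorem w5_923_502 : S (PX [] [499,500,502]) := VW.play 501 (PX [501] [499,500,502]) (by decide +kernel) v5_922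

theorem v5_923 : VW (PX [] [499,500]) := VW.of base nl_ok fl_ok .nil
  [(496, (.cons 497 498 .nil (.cons 498 497 (.cons 501 502 .nil (.cons 502 501 .nil .nil)) .nil))), (503, (.cons 501 502 (.cons 497 498 .nil (.cons 498 497 .nil .nil)) (.cons 502 501 .nil .nil)))]
  [([497], (PX [] [497,499,500])), ([498], (PX [] [498,499,500])), ([501], (PX [] [499,500,501])), ([502], (PX [] [499,500,502]))]
  (by decide +kernel) ⟨w5_923_497, w5_923_498, w5_923_501, w5_923_502, trivial⟩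

theorem v5_924 : VW (PX [499,504] [500,501,502,503]) := VW.of base nl_ok fl_ok .nil
  []
  []
  (by decide +kernel) trivial

theorem v5_925 : VW (PX [499,503] [500,501,502,504]) := VW.of base nl_ok fl_ok .nil
  []
  []
  (by decide +kernel) trivial

theorem w5_926_503 : S (PX [499] [500,501,502,503]) := VW.play 504 (PX [499,504] [500,501,502,503]) (by decide +kernel) v5_924

theorem w5_926_504 : S (PX [499] [500,501,502,504]) := VW.play 503 (PX [499,503] [500,501,502,504]) (by decide +kernel) v5_925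

theorem v5_926 : VW (PX [499] [500,501,502]) := VW.of base nl_ok fl_ok (.cons 503 504 .nil (.cons 504 503 .nil .nil))
  [(505, (.cons 503 504 .nil (.cons 504 503 .nil .nil))), (506, (.cons 503 504 .nil (.cons 504 503 .nil .nil))), (507, (.cons 503 504 .nil (.cons 504 503 .nil .nil)))]
  [([503], (PX [499] [500,501,502,503])), ([504], (PX [499] [500,501,502,504]))]
  (by decide +kernel) ⟨w5_926_503, w5_926_504, trivial⟩

theorem v5_931 : VW (PX [502] [500,501,503]) := VW.of base nl_ok fl_ok .nil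
  [(497, (.cons 498 499 .nil (.cons 499 498 .nil .nil))), (498, (.cons 497 499 .nil (.cons 499 497 .nil .nil))), (499, (.cons 497 498 .nil (.cons 498 497 .nil .nil)))]
  []
  (by decide +kernel) trivial

theorem w5_932_498 : S (PX [] [498,500,501]) := VW.play 499 (PX [499] [498,500,501]) (by decide +kernel) v5_901

theorem w5_932_499 : S (PX [] [499,500,501]) := VW.play 498 (PX [498] [499,500,501]) (by decide +kernel) v5_919

theorem w5_932_502 : S (PX [] [500,501,502]) := VW.play 499 (PX [499] [500,501,502]) (by decide +kernel) v5_926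

theorem w5_932_503 : S (PX [] [500,501,503]) := VW.play 502 (PX [502] [500,501,503]) (by decide +kernel) v5_931

theorem v5_932 : VW (PX [] [500,501]) := VW.of base nl_ok fl_ok .nil
  [(497, (.cons 498 499 .nil (.cons 499 498 (.cons 502 503 .nil (.cons 503 502 .nil .nil)) .nil))), (504, (.cons 502 503 (.cons 498 499 .nil (.cons 499 498 .nil .nil)) (.cons 503 502 .nil .nil)))]
  [([498], (PX [] [498,500,501])), ([499], (PX [] [499,500,501])), ([502], (PX [] [500,501,502])), ([503], (PX [] [500,501,503]))]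
  (by decide +kernel) ⟨w5_932_498, w5_932_499, w5_932_502, w5_932_503, trivial⟩

theorem v5_933 : VW (PX [501] [500,502,503]) := VW.of base nl_ok fl_ok .nil
  [(504, (.cons 505 506 .nil (.cons 506 505 .nil .nil))), (505, (.cons 504 506 .nil (.cons 506 504 .nil .nil))), (506, (.cons 504 505 .nil (.cons 505 504 .nil .nil)))]
  []
  (by decide +kernel) trivial

theorem w5_944_498 : S (PX [] [498,500,502]) := VW.play 499 (PX [499] [498,500,502]) (by decide +kernel) v5_902

theorem w5_944_499 : S (PX [] [499,500,502]) := VW.play 501 (PX [501] [499,500,502]) (by decide +kernel) v5_922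

theorem w5_944_501 : S (PX [] [500,501,502]) := VW.play 499 (PX [499] [500,501,502]) (by decide +kernel) v5_926

theorem w5_944_503 : S (PX [] [500,502,503]) := VW.play 501 (PX [501] [500,502,503]) (by decide +kernel) v5_933

theorem v5_944 : VW (PX [] [500,502]) := VW.of base nl_ok fl_ok .nil
  [(504, (.cons 501 503 (.cons 498 499 .nil (.cons 499 498 .nil .nil)) (.cons 503 501 (.cons 505 506 .nil (.cons 506 505 .nil .nil)) .nil)))]
  [([498], (PX [] [498,500,502])), ([499], (PX [] [499,500,502])), ([501], (PX [] [500,501,502])), ([503], (PX [] [500,502,503]))]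
  (by decide +kernel) ⟨w5_944_498, w5_944_499, w5_944_501, w5_944_503, trivial⟩

theorem w5_945_501 : S (PX [] [500,501,503]) := VW.play 502 (PX [502] [500,501,503]) (by decide +kernel) v5_931

theorem w5_945_502 : S (PX [] [500,502,503]) := VW.play 501 (PX [501] [500,502,503]) (by decide +kernel) v5_933

theorem v5_945 : VW (PX [] [500,503]) := VW.of base nl_ok fl_ok .nil
  [(499, (.cons 501 502 (.cons 497 498 .nil (.cons 498 497 .nil .nil)) (.cons 502 501 .nil .nil))), (504, (.cons 501 502 .nil (.cons 502 501 (.cons 505 506 .nil (.cons 506 505 .nil .nil)) .nil)))]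
  [([501], (PX [] [500,501,503])), ([502], (PX [] [500,502,503]))]
  (by decide +kernel) ⟨w5_945_501, w5_945_502, trivial⟩

theorem v5_946 : VW (PX [] [500,504]) := VW.of base nl_ok fl_ok .nil
  [(501, (.cons 502 503 (.cons 498 499 .nil (.cons 499 498 .nil .nil)) (.cons 503 502 .nil .nil))), (502, (.cons 501 503 (.cons 498 499 .nil (.cons 499 498 .nil .nil)) (.cons 503 501 (.cons 505 506 .nil (.cons 506 505 .nil .nil)) .nil))), (503, (.cons 501 502 .nil (.cons 502 501 (.cons 505 506 .nil (.cons 506 505 .nil .nil)) .nil)))]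
  []
  (by decide +kernel) trivial

theorem v5_947 : VW (PX [469,624] [500,531,562,593]) := VW.of base nl_ok fl_ok .nil
  []
  []
  (by decide +kernel) trivial

theorem v5_948 : VW (PX [469,593] [500,531,562,624]) := VW.of base nl_ok fl_ok .nil
  []
  []
  (by decide +kernel) trivial

theorem w5_949_593 : S (PX [469] [500,531,562,593]) := VW.play 624 (PX [469,624] [500,531,562,593]) (by decide +kernel) v5_947

theorem w5_949_624 : S (PX [469] [500,531,562,624]) := VW.play 593 (PX [469,593] [500,531,562,624]) (by decide +kernel) v5_948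

theorem v5_949 : VW (PX [469] [500,531,562]) := VW.of base nl_ok fl_ok (.cons 593 624 .nil (.cons 624 593 .nil .nil))
  [(655, (.cons 593 624 .nil (.cons 624 593 .nil .nil))), (686, (.cons 593 624 .nil (.cons 624 593 .nil .nil))), (717, (.cons 593 624 .nil (.cons 624 593 .nil .nil)))]
  [([593], (PX [469] [500,531,562,593])), ([624], (PX [469] [500,531,562,624]))]
  (by decide +kernel) ⟨w5_949_593, w5_949_624, trivial⟩

theorem v5_954 : VW (PX [562] [500,531,593]) := VW.of base nl_ok fl_ok .nil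
  [(407, (.cons 438 469 .nil (.cons 469 438 .nil .nil))), (438, (.cons 407 469 .nil (.cons 469 407 .nil .nil))), (469, (.cons 407 438 .nil (.cons 438 407 .nil .nil)))]
  []
  (by decide +kernel) trivial

theorem w5_966_438 : S (PX [] [438,500,531]) := VW.play 469 (PX [469] [438,500,531]) (by decide +kernel) v5_796

theorem w5_966_469 : S (PX [] [469,500,531]) := VW.play 438 (PX [438] [469,500,531]) (by decide +kernel) v5_809

theorem w5_966_562 : S (PX [] [500,531,562]) := VW.play 469 (PX [469] [500,531,562]) (by decide +kernel) v5_949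

theorem w5_966_593 : S (PX [] [500,531,593]) := VW.play 562 (PX [562] [500,531,593]) (by decide +kernel) v5_954

theorem v5_966 : VW (PX [] [500,531]) := VW.of base nl_ok fl_ok .nil
  [(407, (.cons 438 469 .nil (.cons 469 438 (.cons 562 593 .nil (.cons 593 562 .nil .nil)) .nil))), (624, (.cons 562 593 (.cons 438 469 .nil (.cons 469 438 .nil .nil)) (.cons 593 562 .nil .nil)))]
  [([438], (PX [] [438,500,531])), ([469], (PX [] [469,500,531])), ([562], (PX [] [500,531,562])), ([593], (PX [] [500,531,593]))]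
  (by decide +kernel) ⟨w5_966_438, w5_966_469, w5_966_562, w5_966_593, trivial⟩

theorem v5_967 : VW (PX [468,628] [500,532,564,596]) := VW.of base nl_ok fl_ok .nil
  []
  []
  (by decide +kernel) trivial

theorem v5_968 : VW (PX [468,596] [500,532,564,628]) := VW.of base nl_ok fl_ok .nil
  []
  []
  (by decide +kernel) trivial

theorem w5_969_596 : S (PX [468] [500,532,564,596]) := VW.play 628 (PX [468,628] [500,532,564,596]) (by decide +kernel) v5_967

theorem w5_969_628 : S (PX [468] [500,532,564,628]) := VW.play 596 (PX [468,596] [500,532,564,628]) (by decide +kernel) v5_968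

theorem v5_969 : VW (PX [468] [500,532,564]) := VW.of base nl_ok fl_ok (.cons 596 628 .nil (.cons 628 596 .nil .nil))
  [(660, (.cons 596 628 .nil (.cons 628 596 .nil .nil))), (692, (.cons 596 628 .nil (.cons 628 596 .nil .nil))), (724, (.cons 596 628 .nil (.cons 628 596 .nil .nil)))]
  [([596], (PX [468] [500,532,564,596])), ([628], (PX [468] [500,532,564,628]))]
  (by decide +kernel) ⟨w5_969_596, w5_969_628, trivial⟩

theorem v5_974 : VW (PX [564] [500,532,596]) := VW.of base nl_ok fl_ok .nil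
  [(404, (.cons 436 468 .nil (.cons 468 436 .nil .nil))), (436, (.cons 404 468 .nil (.cons 468 404 .nil .nil))), (468, (.cons 404 436 .nil (.cons 436 404 .nil .nil)))]
  []
  (by decide +kernel) trivial

theorem w5_986_436 : S (PX [] [436,500,532]) := VW.play 468 (PX [468] [436,500,532]) (by decide +kernel) v5_361

theorem w5_986_468 : S (PX [] [468,500,532]) := VW.play 436 (PX [436] [468,500,532]) (by decide +kernel) v5_621

theorem w5_986_564 : S (PX [] [500,532,564]) := VW.play 468 (PX [468] [500,532,564]) (by decide +kernel) v5_969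

theorem w5_986_596 : S (PX [] [500,532,596]) := VW.play 564 (PX [564] [500,532,596]) (by decide +kernel) v5_974

theorem v5_986 : VW (PX [] [500,532]) := VW.of base nl_ok fl_ok .nil
  [(404, (.cons 436 468 .nil (.cons 468 436 (.cons 564 596 .nil (.cons 596 564 .nil .nil)) .nil))), (628, (.cons 564 596 (.cons 436 468 .nil (.cons 468 436 .nil .nil)) (.cons 596 564 .nil .nil)))]
  [([436], (PX [] [436,500,532])), ([468], (PX [] [468,500,532])), ([564], (PX [] [500,532,564])), ([596], (PX [] [500,532,596]))]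
  (by decide +kernel) ⟨w5_986_436, w5_986_468, w5_986_564, w5_986_596, trivial⟩

theorem v5_987 : VW (PX [467,632] [500,533,566,599]) := VW.of base nl_ok fl_ok .nil
  []
  []
  (by decide +kernel) trivial

theorem v5_988 : VW (PX [467,599] [500,533,566,632]) := VW.of base nl_ok fl_ok .nil
  []
  []
  (by decide +kernel) trivial

theorem w5_989_599 : S (PX [467] [500,533,566,599]) := VW.play 632 (PX [467,632] [500,533,566,599]) (by decide +kernel) v5_987

theorem w5_989_632 : S (PX [467] [500,533,566,632]) := VW.play 599 (PX [467,599] [500,533,566,632]) (by decide +kernel) v5_988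

theorem v5_989 : VW (PX [467] [500,533,566]) := VW.of base nl_ok fl_ok (.cons 599 632 .nil (.cons 632 599 .nil .nil))
  [(665, (.cons 599 632 .nil (.cons 632 599 .nil .nil))), (698, (.cons 599 632 .nil (.cons 632 599 .nil .nil))), (731, (.cons 599 632 .nil (.cons 632 599 .nil .nil)))]
  [([599], (PX [467] [500,533,566,599])), ([632], (PX [467] [500,533,566,632]))]
  (by decide +kernel) ⟨w5_989_599, w5_989_632, trivial⟩

theorem v5_994 : VW (PX [566] [500,533,599]) := VW.of base nl_ok fl_ok .nil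
  [(401, (.cons 434 467 .nil (.cons 467 434 .nil .nil))), (434, (.cons 401 467 .nil (.cons 467 401 .nil .nil))), (467, (.cons 401 434 .nil (.cons 434 401 .nil .nil)))]
  []
  (by decide +kernel) trivial

theorem w5_995_434 : S (PX [] [434,500,533]) := VW.play 467 (PX [467] [434,500,533]) (by decide +kernel) v5_759

theorem w5_995_467 : S (PX [] [467,500,533]) := VW.play 434 (PX [434] [467,500,533]) (by decide +kernel) v5_802

theorem w5_995_566 : S (PX [] [500,533,566]) := VW.play 467 (PX [467] [500,533,566]) (by decide +kernel) v5_989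

theorem w5_995_599 : S (PX [] [500,533,599]) := VW.play 566 (PX [566] [500,533,599]) (by decide +kernel) v5_994

theorem v5_995 : VW (PX [] [500,533]) := VW.of base nl_ok fl_ok .nil
  [(401, (.cons 434 467 .nil (.cons 467 434 (.cons 566 599 .nil (.cons 599 566 .nil .nil)) .nil))), (632, (.cons 566 599 (.cons 434 467 .nil (.cons 467 434 .nil .nil)) (.cons 599 566 .nil .nil)))]
  [([434], (PX [] [434,500,533])), ([467], (PX [] [467,500,533])), ([566], (PX [] [500,533,566])), ([599], (PX [] [500,533,599]))]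
  (by decide +kernel) ⟨w5_995_434, w5_995_467, w5_995_566, w5_995_599, trivial⟩

theorem v5_1010 : VW (PX [531] [500,562,593]) := VW.of base nl_ok fl_ok .nil
  [(624, (.cons 655 686 .nil (.cons 686 655 .nil .nil))), (655, (.cons 624 686 .nil (.cons 686 624 .nil .nil))), (686, (.cons 624 655 .nil (.cons 655 624 .nil .nil)))]
  []
  (by decide +kernel) trivial

theorem w5_1013_469 : S (PX [] [469,500,562]) := VW.play 531 (PX [531] [469,500,562]) (by decide +kernel) v5_814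

theorem w5_1013_531 : S (PX [] [500,531,562]) := VW.play 469 (PX [469] [500,531,562]) (by decide +kernel) v5_949

theorem w5_1013_593 : S (PX [] [500,562,593]) := VW.play 531 (PX [531] [500,562,593]) (by decide +kernel) v5_1010

theorem v5_1013 : VW (PX [] [500,562]) := VW.of base nl_ok fl_ok .nil
  [(438, (.cons 469 531 (.cons 376 407 .nil (.cons 407 376 .nil .nil)) (.cons 531 469 (.cons 593 624 .nil (.cons 624 593 .nil .nil)) .nil))), (624, (.cons 531 593 (.cons 438 469 .nil (.cons 469 438 .nil .nil)) (.cons 593 531 (.cons 655 686 .nil (.cons 686 655 .nil .nil)) .nil)))]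
  [([469], (PX [] [469,500,562])), ([531], (PX [] [500,531,562])), ([593], (PX [] [500,562,593]))]
  (by decide +kernel) ⟨w5_1013_469, w5_1013_531, w5_1013_593, trivial⟩

theorem v5_1028 : VW (PX [532] [500,564,596]) := VW.of base nl_ok fl_ok .nil
  [(628, (.cons 660 692 .nil (.cons 692 660 .nil .nil))), (660, (.cons 628 692 .nil (.cons 692 628 .nil .nil))), (692, (.cons 628 660 .nil (.cons 660 628 .nil .nil)))]
  []
  (by decide +kernel) trivial

theorem w5_1031_468 : S (PX [] [468,500,564]) := VW.play 532 (PX [532] [468,500,564]) (by decide +kernel) v5_626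

theorem w5_1031_532 : S (PX [] [500,532,564]) := VW.play 468 (PX [468] [500,532,564]) (by decide +kernel) v5_969

theorem w5_1031_596 : S (PX [] [500,564,596]) := VW.play 532 (PX [532] [500,564,596]) (by decide +kernel) v5_1028

theorem v5_1031 : VW (PX [] [500,564]) := VW.of base nl_ok fl_ok .nil
  [(436, (.cons 468 532 (.cons 372 404 .nil (.cons 404 372 .nil .nil)) (.cons 532 468 (.cons 596 628 .nil (.cons 628 596 .nil .nil)) .nil))), (628, (.cons 532 596 (.cons 436 468 .nil (.cons 468 436 .nil .nil)) (.cons 596 532 (.cons 660 692 .nil (.cons 692 660 .nil .nil)) .nil)))]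
  [([468], (PX [] [468,500,564])), ([532], (PX [] [500,532,564])), ([596], (PX [] [500,564,596]))]
  (by decide +kernel) ⟨w5_1031_468, w5_1031_532, w5_1031_596, trivial⟩

theorem v5_1032 : VW (PX [533] [500,566,599]) := VW.of base nl_ok fl_ok .nil
  [(632, (.cons 665 698 .nil (.cons 698 665 .nil .nil))), (665, (.cons 632 698 .nil (.cons 698 632 .nil .nil))), (698, (.cons 632 665 .nil (.cons 665 632 .nil .nil)))]
  []
  (by decide +kernel) trivial

theorem w5_1043_434 : S (PX [] [434,500,566]) := VW.play 467 (PX [467] [434,500,566]) (by decide +kernel) v5_760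

theorem w5_1043_467 : S (PX [] [467,500,566]) := VW.play 533 (PX [533] [467,500,566]) (by decide +kernel) v5_805

theorem w5_1043_533 : S (PX [] [500,533,566]) := VW.play 467 (PX [467] [500,533,566]) (by decide +kernel) v5_989

theorem w5_1043_599 : S (PX [] [500,566,599]) := VW.play 533 (PX [533] [500,566,599]) (by decide +kernel) v5_1032

theorem v5_1043 : VW (PX [] [500,566]) := VW.of base nl_ok fl_ok .nil
  [(632, (.cons 533 599 (.cons 434 467 .nil (.cons 467 434 .nil .nil)) (.cons 599 533 (.cons 665 698 .nil (.cons 698 665 .nil .nil)) .nil)))]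
  [([434], (PX [] [434,500,566])), ([467], (PX [] [467,500,566])), ([533], (PX [] [500,533,566])), ([599], (PX [] [500,566,599]))]
  (by decide +kernel) ⟨w5_1043_434, w5_1043_467, w5_1043_533, w5_1043_599, trivial⟩

theorem w5_1044_531 : S (PX [] [500,531,593]) := VW.play 562 (PX [562] [500,531,593]) (by decide +kernel) v5_954

theorem w5_1044_562 : S (PX [] [500,562,593]) := VW.play 531 (PX [531] [500,562,593]) (by decide +kernel) v5_1010

theorem v5_1044 : VW (PX [] [500,593]) := VW.of base nl_ok fl_ok .nil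
  [(469, (.cons 531 562 (.cons 407 438 .nil (.cons 438 407 .nil .nil)) (.cons 562 531 .nil .nil))), (624, (.cons 531 562 .nil (.cons 562 531 (.cons 655 686 .nil (.cons 686 655 .nil .nil)) .nil)))]
  [([531], (PX [] [500,531,593])), ([562], (PX [] [500,562,593]))]
  (by decide +kernel) ⟨w5_1044_531, w5_1044_562, trivial⟩

theorem w5_1045_532 : S (PX [] [500,532,596]) := VW.play 564 (PX [564] [500,532,596]) (by decide +kernel) v5_974

theorem w5_1045_564 : S (PX [] [500,564,596]) := VW.play 532 (PX [532] [500,564,596]) (by decide +kernel) v5_1028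

theorem v5_1045 : VW (PX [] [500,596]) := VW.of base nl_ok fl_ok .nil
  [(468, (.cons 532 564 (.cons 404 436 .nil (.cons 436 404 .nil .nil)) (.cons 564 532 .nil .nil))), (628, (.cons 532 564 .nil (.cons 564 532 (.cons 660 692 .nil (.cons 692 660 .nil .nil)) .nil)))]
  [([532], (PX [] [500,532,596])), ([564], (PX [] [500,564,596]))]
  (by decide +kernel) ⟨w5_1045_532, w5_1045_564, trivial⟩

theorem w5_1046_533 : S (PX [] [500,533,599]) := VW.play 566 (PX [566] [500,533,599]) (by decide +kernel) v5_994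

theorem w5_1046_566 : S (PX [] [500,566,599]) := VW.play 533 (PX [533] [500,566,599]) (by decide +kernel) v5_1032

theorem v5_1046 : VW (PX [] [500,599]) := VW.of base nl_ok fl_ok .nil
  [(467, (.cons 533 566 (.cons 401 434 .nil (.cons 434 401 .nil .nil)) (.cons 566 533 .nil .nil))), (632, (.cons 533 566 .nil (.cons 566 533 (.cons 665 698 .nil (.cons 698 665 .nil .nil)) .nil)))]
  [([533], (PX [] [500,533,599])), ([566], (PX [] [500,566,599]))]
  (by decide +kernel) ⟨w5_1046_533, w5_1046_566, trivial⟩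

theorem v5_1047 : VW (PX [] [500,624]) := VW.of base nl_ok fl_ok .nil
  [(531, (.cons 562 593 (.cons 438 469 .nil (.cons 469 438 .nil .nil)) (.cons 593 562 .nil .nil))), (562, (.cons 531 593 (.cons 438 469 .nil (.cons 469 438 .nil .nil)) (.cons 593 531 (.cons 655 686 .nil (.cons 686 655 .nil .nil)) .nil))), (593, (.cons 531 562 .nil (.cons 562 531 (.cons 655 686 .nil (.cons 686 655 .nil .nil)) .nil)))]
  []
  (by decide +kernel) trivial

theorem v5_1048 : VW (PX [] [500,628]) := VW.of base nl_ok fl_ok .nil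
  [(532, (.cons 564 596 (.cons 436 468 .nil (.cons 468 436 .nil .nil)) (.cons 596 564 .nil .nil))), (564, (.cons 532 596 (.cons 436 468 .nil (.cons 468 436 .nil .nil)) (.cons 596 532 (.cons 660 692 .nil (.cons 692 660 .nil .nil)) .nil))), (596, (.cons 532 564 .nil (.cons 564 532 (.cons 660 692 .nil (.cons 692 660 .nil .nil)) .nil)))]
  []
  (by decide +kernel) trivial

theorem v5_1049 : VW (PX [] [500,632]) := VW.of base nl_ok fl_ok .nil
  [(533, (.cons 566 599 (.cons 434 467 .nil (.cons 467 434 .nil .nil)) (.cons 599 566 .nil .nil))), (566, (.cons 533 599 (.cons 434 467 .nil (.cons 467 434 .nil .nil)) (.cons 599 533 (.cons 665 698 .nil (.cons 698 665 .nil .nil)) .nil))), (599, (.cons 533 566 .nil (.cons 566 533 (.cons 665 698 .nil (.cons 698 665 .nil .nil)) .nil)))]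
  []
  (by decide +kernel) trivial

theorem r368 : S (Nat.lor X2 (bits [500, 368])) := VW.play 394 (PX [] [368,500]) (by decide +kernel) v5_709

theorem r372 : S (Nat.lor X2 (bits [500, 372])) := VW.play 394 (PX [] [372,500]) (by decide +kernel) v5_710

theorem r376 : S (Nat.lor X2 (bits [500, 376])) := VW.play 394 (PX [] [376,500]) (by decide +kernel) v5_711

theorem r401 : S (Nat.lor X2 (bits [500, 401])) := VW.play 394 (PX [] [401,500]) (by decide +kernel) v5_718

theorem r404 : S (Nat.lor X2 (bits [500, 404])) := VW.play 394 (PX [] [404,500]) (by decide +kernel) v5_719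

theorem r407 : S (Nat.lor X2 (bits [500, 407])) := VW.play 394 (PX [] [407,500]) (by decide +kernel) v5_741

theorem r434 : S (Nat.lor X2 (bits [500, 434])) := VW.play 394 (PX [] [434,500]) (by decide +kernel) v5_776

theorem r436 : S (Nat.lor X2 (bits [500, 436])) := VW.play 394 (PX [] [436,500]) (by decide +kernel) v5_364

theorem r438 : S (Nat.lor X2 (bits [500, 438])) := VW.play 394 (PX [] [438,500]) (by decide +kernel) v5_799

theorem r467 : S (Nat.lor X2 (bits [500, 467])) := VW.play 394 (PX [] [467,500]) (by decide +kernel) v5_806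

theorem r468 : S (Nat.lor X2 (bits [500, 468])) := VW.play 394 (PX [] [468,500]) (by decide +kernel) v5_638

theorem r469 : S (Nat.lor X2 (bits [500, 469])) := VW.play 394 (PX [] [469,500]) (by decide +kernel) v5_826

theorem r496 : S (Nat.lor X2 (bits [500, 496])) := VW.play 394 (PX [] [496,500]) (by decide +kernel) v5_861

theorem r497 : S (Nat.lor X2 (bits [500, 497])) := VW.play 394 (PX [] [497,500]) (by decide +kernel) v5_883

theorem r498 : S (Nat.lor X2 (bits [500, 498])) := VW.play 394 (PX [] [498,500]) (by decide +kernel) v5_916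

theorem r499 : S (Nat.lor X2 (bits [500, 499])) := VW.play 394 (PX [] [499,500]) (by decide +kernel) v5_923

theorem r501 : S (Nat.lor X2 (bits [500, 501])) := VW.play 394 (PX [] [500,501]) (by decide +kernel) v5_932

theorem r502 : S (Nat.lor X2 (bits [500, 502])) := VW.play 394 (PX [] [500,502]) (by decide +kernel) v5_944

theorem r503 : S (Nat.lor X2 (bits [500, 503])) := VW.play 394 (PX [] [500,503]) (by decide +kernel) v5_945

theorem r504 : S (Nat.lor X2 (bits [500, 504])) := VW.play 394 (PX [] [500,504]) (by decide +kernel) v5_946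

theorem r531 : S (Nat.lor X2 (bits [500, 531])) := VW.play 394 (PX [] [500,531]) (by decide +kernel) v5_966

theorem r532 : S (Nat.lor X2 (bits [500, 532])) := VW.play 394 (PX [] [500,532]) (by decide +kernel) v5_986

theorem r533 : S (Nat.lor X2 (bits [500, 533])) := VW.play 394 (PX [] [500,533]) (by decide +kernel) v5_995

theorem r562 : S (Nat.lor X2 (bits [500, 562])) := VW.play 394 (PX [] [500,562]) (by decide +kernel) v5_1013

theorem r564 : S (Nat.lor X2 (bits [500, 564])) := VW.play 394 (PX [] [500,564]) (by decide +kernel) v5_1031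

theorem r566 : S (Nat.lor X2 (bits [500, 566])) := VW.play 394 (PX [] [500,566]) (by decide +kernel) v5_1043

theorem r593 : S (Nat.lor X2 (bits [500, 593])) := VW.play 394 (PX [] [500,593]) (by decide +kernel) v5_1044

theorem r596 : S (Nat.lor X2 (bits [500, 596])) := VW.play 394 (PX [] [500,596]) (by decide +kernel) v5_1045

theorem r599 : S (Nat.lor X2 (bits [500, 599])) := VW.play 394 (PX [] [500,599]) (by decide +kernel) v5_1046

theorem r624 : S (Nat.lor X2 (bits [500, 624])) := VW.play 394 (PX [] [500,624]) (by decide +kernel) v5_1047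

theorem r628 : S (Nat.lor X2 (bits [500, 628])) := VW.play 394 (PX [] [500,628]) (by decide +kernel) v5_1048

theorem r632 : S (Nat.lor X2 (bits [500, 632])) := VW.play 394 (PX [] [500,632]) (by decide +kernel) v5_1049

theorem r364 : S (Nat.lor X2 (bits [500, 364])) := S.of (.q 394 (.a 1 [] (.q 395 (.a 1 [] (.d 393 392 392 393 397)
 (.a 1 [392] (.d 397 393 393 394 398)
 (.a 0 [393,397] (.q 331 (.a 1 [] (.d 299 1291 267 1323 427)
 (.a 1 [267] (.d 427 1323 299 1355 459)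
 (.a 0 [299,427] (.q 330 (.a 1 [] (.d 297 2312 264 2345 429)
 (.a 1 [264] (.d 429 2345 297 2378 462)
 (.a 0 [297,429] (.q 332 (.a 1 [] (.d 329 328 328 329 333)
 (.a 1 [328] (.d 333 329 329 330 334)
 (.a 1 [329] (.d 301 3342 270 3373 425)
 .e))))
 .e))))
 .e))))
 .e))))
 (.a 0 [395] (.q 425 (.a 1 [] (.d 332 3373 301 3404 456)
 (.a 0 [332] (.q 330 (.a 1 [] (.d 297 2312 264 2345 429)
 (.a 1 [297] (.r 429 2378 462 (.q 426 (.a 1 [] (.d 362 1322 298 1354 458)
 (.a 1 [362] (.q 423 (.a 1 [] (.d 427 423 424 425 428)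
 (.a 1 [428] (.d 424 422 422 423 427)
 (.a 0 [424,427] (.q 392 (.a 1 [] (.d 361 3371 299 3402 454)
 (.a 0 [299,361,454] (.q 522 (.a 1 [] (.r 458 1418 490 (.d 491 2407 359 2440 524))
 (.a 1 [359] (.r 456 3435 487 (.d 489 2438 390 2471 555))
 .e)))
 .e)))
 .e))))
 (.a 1 [458] (.q 423 (.a 1 [] (.d 427 423 424 425 428)
 (.a 1 [428] (.d 424 422 422 423 427)
 (.a 0 [424,427] (.q 361 (.a 1 [] (.d 392 3371 299 3402 454)
 (.a 0 [299,392,454] (.q 393 (.a 1 [] (.d 457 1353 329 1385 489)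
 (.a 1 [329] (.r 362 1322 298 (.r 360 359 359 (.d 459 2375 327 2408 492)))
 .e)))
 .e)))
 .e))))
 (.a 1 [298] (.r 427 425 428 (.r 458 1354 362 (.d 489 3437 365 3468 520)))
 .e))))))
 (.a 1 [429] (.q 426 (.a 1 [] (.d 362 1322 298 1354 458)
 (.a 0 [298,362,458] (.q 423 (.a 1 [] (.d 424 422 422 423 427)
 (.a 0 [422,424,427] (.q 361 (.a 1 [] (.d 392 3371 299 3402 454)
 (.a 0 [299,392,454] (.q 489 (.a 1 [] (.r 456 3435 487 (.d 522 2438 390 2471 555))
 (.a 1 [390] (.r 393 1385 457 (.d 297 2312 264 1321 329))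
 (.a 1 [456] (.r 297 2312 264 (.d 393 1321 329 1385 457))
 .e))))
 .e)))
 .e)))
 .e)))
 (.a 1 [264] (.d 429 2345 297 2378 462)
 .e)))))
 (.a 0 [456] (.q 330 (.a 1 [] (.d 297 2312 264 2345 429)
 (.a 0 [297] (.r 332 3373 301 (.q 426 (.a 1 [] (.d 362 1322 298 1354 458)
 (.a 0 [362] (.q 329 (.a 1 [] (.d 331 328 328 329 333)
 (.a 1 [331] (.r 429 2378 462 (.r 427 425 428 (.q 361 (.a 1 [] (.d 328 2343 295 2376 460)
 (.a 1 [461] (.q 494 (.a 1 [] (.d 328 2343 295 2376 460)
 (.a 1 [460] (.r 423 423 424 (.d 392 3371 299 3402 454))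
 .e)))
 (.a 1 [494] (.q 461 (.a 1 [] (.d 328 2343 295 2376 460)
 (.a 1 [328] (.r 493 2409 460 (.d 525 1421 397 1453 557))
 (.a 1 [460] (.r 423 423 424 (.d 392 3371 299 3402 454))
 .e))))
 (.a 1 [328] (.r 423 423 424 (.d 392 3371 299 3402 454))
 .e)))))))
 (.a 0 [328] (.r 333 329 331 (.r 429 2378 462 (.q 458 (.a 1 [] (.r 427 425 428 (.d 489 3437 365 3468 520))
 (.a 1 [428] (.r 522 1418 490 (.q 491 (.a 1 [] (.d 392 2407 359 2440 524)
 (.a 1 [461] (.q 494 (.a 1 [] (.d 392 2407 359 2440 524)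
 (.a 1 [392] (.d 460 3470 398 3501 553)
 .e)))
 (.a 1 [392] (.d 460 3470 398 3501 553)
 (.a 1 [494] (.q 461 (.a 1 [] (.d 460 3470 398 3501 553)
 (.a 1 [398] (.d 524 2440 392 2473 557)
 .e)))
 .e))))))
 (.a 1 [461] (.r 428 425 427 (.q 491 (.a 1 [] (.d 392 2407 359 2440 524)
 (.a 1 [359] (.d 524 2440 392 2473 557)
 (.a 1 [392] (.r 522 1418 490 (.d 460 3470 398 3501 553))
 .e)))))
 (.a 1 [520] (.r 427 425 428 (.d 365 3406 334 3437 489))
 .e)))))))
 (.a 1 [333] (.r 328 328 331 (.r 429 2378 462 (.r 427 425 428 (.d 361 2343 295 2376 460))))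
 .e)))))
 (.a 1 [458] (.q 427 (.a 1 [] (.d 429 425 428 2378 462)
 (.a 1 [429] (.d 424 423 423 424 428)
 (.a 0 [428] (.q 361 (.a 1 [] (.d 328 2343 295 2376 460)
 (.a 1 [295] (.d 460 2376 328 2409 493)
 (.a 1 [328] (.r 423 423 424 (.d 392 3371 299 3402 454))
 .e))))
 .e))))
 (.a 1 [298] (.r 458 1354 362 (.r 429 2378 462 (.r 427 425 428 (.d 489 3437 365 3468 520))))
 .e))))))
 (.a 1 [429] (.q 426 (.a 1 [] (.d 362 1322 298 1354 458)
 (.a 0 [298,362,458] (.q 423 (.a 1 [] (.d 424 422 422 423 427)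
 (.a 0 [422,424,427] (.q 361 (.a 1 [] (.d 392 3371 299 3402 454)
 (.a 1 [299] (.r 297 2312 264 (.r 329 1321 393 (.r 332 3373 301 (.d 331 328 328 329 333))))
 .e)))
 .e)))
 .e)))
 (.a 1 [264] (.d 429 2345 297 2378 462)
 .e)))))
 (.a 1 [301] (.d 456 3404 332 3435 487)
 .e)))))
 (.a 0 [330] (.q 395 (.a 1 [] (.d 393 392 392 393 397)
 (.a 0 [397] (.q 331 (.a 1 [] (.d 299 1291 267 1323 427)
 (.a 1 [427] (.r 393 392 392 (.q 362 (.a 1 [] (.d 300 3341 269 3372 424)
 (.a 1 [424] (.q 428 (.a 1 [] (.d 329 2344 296 2377 461)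
 (.a 1 [296] (.d 461 2377 329 2410 494)
 (.a 0 [329,461] (.q 301 (.a 1 [] (.d 332 3342 270 3373 425)
 (.a 0 [270,332,425] (.r 299 1291 267 (.r 300 3341 269 (.d 302 298 298 299 303)))
 .e)))
 .e))))
 (.a 1 [300] (.q 329 (.a 1 [] (.d 296 2311 263 2344 428)
 (.a 1 [263] (.d 428 2344 296 2377 461)
 (.a 0 [296,428] (.q 425 (.a 1 [] (.d 361 1321 297 1353 457)
 (.a 1 [297] (.d 456 3404 332 3435 487)
 .e)))
 .e))))
 .e)))))
 (.a 1 [299] (.r 427 1355 459 (.q 361 (.a 1 [] (.d 328 2343 295 2376 460)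
 (.a 1 [295] (.d 460 2376 328 2409 493)
 (.a 0 [328,460] (.q 425 (.a 1 [] (.d 332 3373 301 3404 456)
 (.a 1 [301] (.d 456 3404 332 3435 487)
 (.a 1 [332] (.r 393 392 392 (.d 457 1353 329 1385 489))
 .e))))
 .e)))))
 .e))))
 (.a 1 [393] (.q 427 (.a 1 [] (.d 331 1323 299 1355 459)
 (.a 1 [299] (.d 459 1355 331 1387 491)
 (.a 0 [331,459] (.q 332 (.a 1 [] (.d 301 3342 270 3373 425)
 (.a 1 [270] (.d 425 3373 301 3404 456)
 (.a 0 [301,425] (.q 365 (.a 1 [] (.d 334 3375 303 3406 458)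
 (.a 1 [303] (.d 458 3406 334 3437 489)
 (.a 1 [334] (.r 398 394 397 (.d 431 2347 299 2380 464))
 .e))))
 .e))))
 .e))))
 (.a 1 [392] (.d 397 393 393 394 398)
 .e)))))
 (.a 0 [332] (.q 395 (.a 1 [] (.d 393 392 392 393 397)
 (.a 1 [393] (.q 427 (.a 1 [] (.d 331 1323 299 1355 459)
 (.a 1 [331] (.q 330 (.a 1 [] (.d 297 2312 264 2345 429)
 (.a 1 [264] (.d 429 2345 297 2378 462)
 (.a 0 [297,429] (.q 362 (.a 1 [] (.d 298 1290 266 1322 426)
 (.a 1 [266] (.d 426 1322 298 1354 458)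
 (.a 1 [298] (.r 458 1354 426 (.d 489 3437 365 3468 520))
 (.a 0 [426] (.q 361 (.a 1 [] (.d 328 2343 295 2376 460)
 (.a 1 [295] (.d 460 2376 328 2409 493)
 (.a 0 [328,460] (.q 392 (.a 1 [] (.d 299 3340 268 3371 423)
 (.a 1 [268] (.d 423 3371 299 3402 454)
 (.a 0 [299,423] (.q 458 (.a 1 [] (.d 365 3406 334 3437 489)
 (.a 1 [334] (.d 489 3437 365 3468 520)
 (.a 1 [365] (.r 359 359 360 (.d 425 2374 326 2407 491))
 .e))))
 .e))))
 .e))))
 .e)))))
 .e))))
 (.a 1 [459] (.q 458 (.a 1 [] (.d 365 3406 334 3437 489)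
 (.a 1 [334] (.d 489 3437 365 3468 520)
 (.a 0 [365,489] (.q 426 (.a 1 [] (.d 362 1354 330 1386 490)
 (.a 1 [330] (.d 490 1386 362 1418 522)
 (.a 1 [490] (.r 330 1354 362 (.d 429 2345 297 2378 462))
 (.a 0 [362] (.q 429 (.a 1 [] (.d 428 425 425 426 430)
 (.a 1 [425] (.d 462 2378 330 2411 495)
 .e)))
 .e)))))
 .e))))
 (.a 1 [299] (.d 459 1355 331 1387 491)
 .e)))))
 (.a 1 [397] (.q 331 (.a 1 [] (.d 299 1291 267 1323 427)
 (.a 1 [267] (.d 427 1323 299 1355 459)
 (.a 0 [299,427] (.q 330 (.a 1 [] (.d 297 2312 264 2345 429)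
 (.a 1 [264] (.d 429 2345 297 2378 462)
 (.a 0 [297,429] (.q 362 (.a 1 [] (.d 298 1290 266 1322 426)
 (.a 1 [266] (.d 426 1322 298 1354 458)
 (.a 1 [298] (.r 393 392 392 (.d 424 3372 300 3403 455))
 .e))))
 .e))))
 .e))))
 (.a 1 [392] (.d 397 393 393 394 398)
 .e)))))
 (.a 1 [425] (.q 395 (.a 1 [] (.d 393 392 392 393 397)
 (.a 1 [393] (.q 427 (.a 1 [] (.d 331 1323 299 1355 459)
 (.a 1 [299] (.d 459 1355 331 1387 491)
 (.a 0 [331,459] (.q 361 (.a 1 [] (.d 328 2343 295 2376 460)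
 (.a 1 [295] (.d 460 2376 328 2409 493)
 (.a 0 [328,460] (.q 330 (.a 1 [] (.d 297 2312 264 2345 429)
 (.a 1 [264] (.d 429 2345 297 2378 462)
 (.a 0 [297,429] (.q 299 (.a 1 [] (.d 268 3309 237 3340 392)
 (.a 1 [237] (.d 392 3340 268 3371 423)
 (.a 0 [268,392] (.q 365 (.a 1 [] (.d 334 3375 303 3406 458)
 (.a 1 [303] (.d 458 3406 334 3437 489)
 (.a 1 [334] (.r 398 394 397 (.d 332 2314 266 2347 431))
 .e))))
 .e))))
 .e))))
 .e))))
 .e))))
 (.a 1 [397] (.q 330 (.a 1 [] (.d 297 2312 264 2345 429)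
 (.a 1 [264] (.d 429 2345 297 2378 462)
 (.a 0 [297,429] (.q 299 (.a 1 [] (.d 331 1291 267 1323 427)
 (.a 1 [267] (.r 427 1323 331 (.r 392 392 393 (.d 361 3340 268 3371 423)))
 (.a 1 [331] (.r 392 392 393 (.d 361 3340 268 3371 423))
 .e))))
 .e))))
 (.a 1 [392] (.d 397 393 393 394 398)
 .e)))))
 (.a 0 [429] (.q 425 (.a 1 [] (.d 332 3373 301 3404 456)
 (.a 1 [456] (.q 395 (.a 1 [] (.d 393 392 392 393 397)
 (.a 1 [393] (.q 427 (.a 1 [] (.d 331 1323 299 1355 459)
 (.a 1 [299] (.d 459 1355 331 1387 491)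
 (.a 0 [331,459] (.q 458 (.a 1 [] (.d 365 3406 334 3437 489)
 (.a 1 [334] (.d 489 3437 365 3468 520)
 (.a 0 [365,489] (.q 426 (.a 1 [] (.d 424 423 423 424 428)
 (.a 1 [423] (.d 490 1386 362 1418 522)
 .e)))
 .e))))
 .e))))
 (.a 1 [397] (.r 392 392 393 (.q 427 (.a 1 [] (.d 331 1323 299 1355 459)
 (.a 1 [299] (.d 459 1355 331 1387 491)
 (.a 1 [331] (.r 491 1387 459 (.d 458 2407 359 2440 524))
 (.a 0 [459] (.q 458 (.a 1 [] (.d 359 2374 326 2407 491)
 (.a 1 [326] (.d 491 2407 359 2440 524)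
 (.a 1 [359] (.d 365 3406 334 3437 489)
 .e))))
 .e))))))
 .e))))
 (.a 1 [332] (.q 395 (.a 1 [] (.d 393 392 392 393 397)
 (.a 1 [392] (.d 397 393 393 394 398)
 (.a 0 [393] (.q 427 (.a 1 [] (.d 331 1323 299 1355 459)
 (.a 1 [299] (.d 459 1355 331 1387 491)
 (.a 0 [331,459] (.q 458 (.a 1 [] (.d 365 3406 334 3437 489)
 (.a 1 [334] (.d 489 3437 365 3468 520)
 (.a 0 [365,489] (.q 426 (.a 1 [] (.d 424 423 423 424 428)
 (.a 1 [423] (.d 490 1386 362 1418 522)
 .e)))
 .e))))
 .e))))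
 (.a 0 [397] (.r 392 392 393 (.q 427 (.a 1 [] (.d 331 1323 299 1355 459)
 (.a 1 [299] (.d 459 1355 331 1387 491)
 (.a 1 [331] (.r 491 1387 459 (.d 458 2407 359 2440 524))
 (.a 0 [459] (.q 458 (.a 1 [] (.d 359 2374 326 2407 491)
 (.a 1 [326] (.d 491 2407 359 2440 524)
 (.a 1 [359] (.d 365 3406 334 3437 489)
 .e))))
 .e))))))
 .e)))))
 (.a 1 [301] (.d 456 3404 332 3435 487)
 .e)))))
 (.a 1 [397] (.q 330 (.a 1 [] (.d 297 2312 264 2345 429)
 (.a 1 [429] (.q 298 (.a 1 [] (.d 362 1290 266 1322 426)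
 (.a 0 [266,362,426] (.r 297 2312 264 (.q 299 (.a 1 [] (.d 296 295 295 296 300)
 (.a 1 [295] (.d 300 296 296 297 301)
 (.a 1 [296] (.r 301 297 300 (.d 332 3342 270 3373 425))
 (.a 0 [300] (.q 361 (.a 1 [] (.d 268 3309 237 3340 392)
 (.a 1 [237] (.d 392 3340 268 3371 423)
 (.a 1 [268] (.r 295 295 296 (.d 328 2310 262 2343 427))
 .e))))
 .e))))))
 .e)))
 (.a 1 [297] (.q 425 (.a 1 [] (.d 332 3373 301 3404 456)
 (.a 1 [301] (.d 456 3404 332 3435 487)
 (.a 0 [332,456] (.q 426 (.a 1 [] (.d 362 1322 298 1354 458)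
 (.a 1 [298] (.r 458 1354 362 (.r 429 2378 462 (.r 427 425 428 (.d 489 3437 365 3468 520))))
 (.a 0 [362,458] (.q 427 (.a 1 [] (.d 429 425 428 2378 462)
 (.a 1 [429] (.d 424 423 423 424 428)
 (.a 0 [428] (.q 361 (.a 1 [] (.d 328 2343 295 2376 460)
 (.a 1 [295] (.d 460 2376 328 2409 493)
 (.a 1 [328] (.r 423 423 424 (.d 392 3371 299 3402 454))
 .e))))
 .e))))
 .e))))
 .e))))
 .e))))
 (.a 0 [393] (.q 330 (.a 1 [] (.d 297 2312 264 2345 429)
 (.a 0 [429] (.q 332 (.a 1 [] (.d 301 3342 270 3373 425)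
 (.a 0 [425] (.q 331 (.a 1 [] (.d 329 328 328 329 333)
 (.a 0 [329] (.r 334 330 333 (.r 301 3342 270 (.r 297 2312 264 (.q 395 (.a 1 [] (.d 299 1291 267 1323 427)
 (.a 1 [361] (.q 457 (.a 1 [] (.d 427 1323 299 1355 459)
 (.a 1 [427] (.r 299 1291 267 (.r 298 297 300 (.d 362 1290 266 1322 426)))
 (.a 1 [299] (.r 427 1355 459 (.d 365 3375 303 3406 458))
 .e))))
 (.a 1 [457] (.q 361 (.a 1 [] (.d 427 1323 299 1355 459)
 (.a 1 [489] (.q 521 (.a 1 [] (.d 427 1323 299 1355 459)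
 (.a 1 [427] (.r 299 1291 267 (.d 392 3340 268 3371 423))
 (.a 1 [299] (.r 427 1355 459 (.d 365 3375 303 3406 458))
 .e))))
 (.a 1 [521] (.q 489 (.a 1 [] (.d 427 1323 299 1355 459)
 (.a 1 [427] (.r 299 1291 267 (.d 392 3340 268 3371 423))
 (.a 1 [299] (.r 427 1355 459 (.d 458 3406 365 3468 520))
 .e))))
 (.a 1 [427] (.r 299 1291 267 (.d 392 3340 268 3371 423))
 (.a 1 [299] (.r 427 1355 459 (.d 365 3375 303 3406 458))
 .e))))))
 (.a 1 [427] (.r 299 1291 267 (.r 298 297 300 (.d 362 1290 266 1322 426)))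
 (.a 1 [299] (.r 427 1355 459 (.d 365 3375 303 3406 458))
 .e)))))))))
 (.a 1 [333] (.q 427 (.a 1 [] (.d 395 1323 299 1355 459)
 (.a 1 [299] (.r 328 328 329 (.d 361 2343 295 2376 460))
 .e)))
 (.a 1 [328] (.d 333 329 329 330 334)
 .e)))))
 (.a 0 [301] (.q 331 (.a 1 [] (.d 329 328 328 329 333)
 (.a 1 [333] (.q 395 (.a 1 [] (.d 299 1291 267 1323 427)
 (.a 1 [397] (.q 365 (.a 1 [] (.d 299 1291 267 1323 427)
 (.a 1 [299] (.r 427 1355 459 (.d 458 3406 334 3437 489))
 (.a 1 [427] (.r 299 1291 267 (.d 398 2314 266 2347 431))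
 .e))))
 (.a 1 [299] (.q 458 (.a 1 [] (.r 427 1355 459 (.d 489 3437 365 3468 520))
 (.a 1 [365] (.r 397 394 398 (.r 362 1354 426 (.r 329 328 328 (.d 428 2344 296 2377 461))))
 (.a 0 [397] (.q 365 (.a 1 [] (.d 427 3406 334 1355 459)
 (.a 1 [334] (.d 427 1355 459 3437 489)
 (.a 1 [427] (.r 362 1354 426 (.r 329 328 328 (.d 428 2344 296 2377 461)))
 .e))))
 .e))))
 (.a 1 [427] (.q 266 (.a 1 [] (.r 299 1291 267 (.d 365 2281 233 2314 398))
 (.a 1 [233] (.r 362 1290 298 (.r 329 328 328 (.d 428 2344 296 2377 461)))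
 (.a 1 [365] (.r 397 394 398 (.r 362 1290 298 (.r 329 328 328 (.d 428 2344 296 2377 461))))
 (.a 0 [397] (.q 365 (.a 1 [] (.d 299 2281 233 1291 267)
 (.a 1 [233] (.d 299 1291 267 2314 398)
 (.a 1 [267] (.d 299 2281 233 2314 398)
 (.a 1 [299] (.r 362 1290 298 (.r 329 328 328 (.d 428 2344 296 2377 461)))
 .e)))))
 .e)))))
 (.a 1 [365] (.r 397 394 398 (.d 299 1291 267 1323 427))
 .e))))))
 (.a 1 [329] (.q 427 (.a 1 [] (.d 395 1323 299 1355 459)
 (.a 1 [299] (.r 334 330 333 (.d 365 3375 303 3406 458))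
 .e)))
 .e))))
 (.a 1 [270] (.d 425 3373 301 3404 456)
 .e)))))
 (.a 1 [297] (.q 425 (.a 1 [] (.d 332 3373 301 3404 456)
 (.a 1 [301] (.d 456 3404 332 3435 487)
 (.a 0 [332,456] (.q 426 (.a 1 [] (.d 362 1322 298 1354 458)
 (.a 1 [298] (.r 458 1354 362 (.r 429 2378 462 (.r 427 425 428 (.d 489 3437 365 3468 520))))
 (.a 0 [362,458] (.q 427 (.a 1 [] (.d 429 425 428 2378 462)
 (.a 1 [429] (.d 424 423 423 424 428)
 (.a 0 [428] (.q 361 (.a 1 [] (.d 328 2343 295 2376 460)
 (.a 1 [295] (.d 460 2376 328 2409 493)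
 (.a 1 [328] (.r 423 423 424 (.d 392 3371 299 3402 454))
 .e))))
 .e))))
 .e))))
 .e))))
 .e))))
 (.a 0 [297] (.q 425 (.a 1 [] (.d 332 3373 301 3404 456)
 (.a 1 [332] (.q 395 (.a 1 [] (.d 393 392 392 393 397)
 (.a 1 [393] (.q 427 (.a 1 [] (.d 331 1323 299 1355 459)
 (.a 1 [299] (.d 459 1355 331 1387 491)
 (.a 0 [331,459] (.q 426 (.a 1 [] (.d 424 423 423 424 428)
 (.a 1 [423] (.d 428 424 424 425 429)
 (.a 1 [424] (.r 429 425 428 (.d 462 2378 330 2411 495))
 (.a 0 [428] (.q 458 (.a 1 [] (.d 362 1354 330 1386 490)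
 (.a 1 [330] (.d 490 1386 362 1418 522)
 (.a 1 [362] (.d 365 3406 334 3437 489)
 .e))))
 .e)))))
 .e))))
 (.a 1 [397] (.q 429 (.a 1 [] (.d 462 2378 330 2411 495)
 (.a 0 [330,462,495] (.q 491 (.a 1 [] (.r 427 1387 459 (.r 428 425 426 (.r 392 392 393 (.d 458 2407 359 2440 524))))
 (.a 1 [327] (.r 427 1387 459 (.r 392 392 393 (.d 458 2407 359 2440 524)))
 (.a 1 [359] (.r 427 1387 459 (.r 428 425 426 (.r 392 392 393 (.r 458 2440 524 (.d 489 3437 365 3468 520)))))
 (.a 1 [360] (.r 427 1387 459 (.r 392 392 393 (.d 458 2407 359 2440 524)))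
 (.a 1 [426] (.r 427 1387 459 (.r 392 392 393 (.d 458 2407 359 2440 524)))
 (.a 1 [427] (.r 392 392 393 (.d 458 2407 359 2440 524))
 (.a 1 [524] (.r 427 1387 459 (.r 428 425 426 (.r 392 392 393 (.r 458 2407 359 (.d 489 3437 365 3468 520)))))
 (.a 0 [392,393,458] (.q 460 (.a 1 [] (.d 398 3439 367 3470 522)
 (.a 1 [367] (.d 522 3470 398 3501 553)
 (.a 1 [398] (.r 427 1387 459 (.d 493 2409 361 2442 526))
 .e))))
 .e)))))))))
 .e)))
 .e))))
 (.a 1 [456] (.q 395 (.a 1 [] (.d 393 392 392 393 397)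
 (.a 1 [393] (.q 427 (.a 1 [] (.d 331 1323 299 1355 459)
 (.a 1 [299] (.d 459 1355 331 1387 491)
 (.a 0 [331,459] (.q 426 (.a 1 [] (.d 424 423 423 424 428)
 (.a 1 [423] (.d 428 424 424 425 429)
 (.a 1 [424] (.r 429 425 428 (.d 462 2378 330 2411 495))
 (.a 0 [428] (.q 458 (.a 1 [] (.d 362 1354 330 1386 490)
 (.a 1 [330] (.d 490 1386 362 1418 522)
 (.a 1 [362] (.d 365 3406 334 3437 489)
 .e))))
 .e)))))
 .e))))
 (.a 1 [397] (.q 429 (.a 1 [] (.d 462 2378 330 2411 495)
 (.a 0 [330,462,495] (.q 491 (.a 1 [] (.r 427 1387 459 (.r 428 425 426 (.r 392 392 393 (.d 458 2407 359 2440 524))))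
 (.a 1 [327] (.r 427 1387 459 (.r 392 392 393 (.d 458 2407 359 2440 524)))
 (.a 1 [359] (.r 427 1387 459 (.r 428 425 426 (.r 392 392 393 (.r 458 2440 524 (.d 489 3437 365 3468 520)))))
 (.a 1 [360] (.r 427 1387 459 (.r 392 392 393 (.d 458 2407 359 2440 524)))
 (.a 1 [426] (.r 427 1387 459 (.r 392 392 393 (.d 458 2407 359 2440 524)))
 (.a 1 [427] (.r 392 392 393 (.d 458 2407 359 2440 524))
 (.a 1 [524] (.r 427 1387 459 (.r 428 425 426 (.r 392 392 393 (.r 458 2407 359 (.d 489 3437 365 3468 520)))))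
 (.a 0 [392,393,458] (.q 460 (.a 1 [] (.d 398 3439 367 3470 522)
 (.a 1 [367] (.d 522 3470 398 3501 553)
 (.a 1 [398] (.r 427 1387 459 (.d 493 2409 361 2442 526))
 .e))))
 .e)))))))))
 .e)))
 (.a 1 [392] (.d 397 393 393 394 398)
 .e)))))
 (.a 1 [301] (.d 456 3404 332 3435 487)
 .e)))))
 (.a 1 [301] (.q 395 (.a 1 [] (.d 393 392 392 393 397)
 (.a 1 [397] (.q 429 (.a 1 [] (.d 330 2345 297 2378 462)
 (.a 1 [297] (.d 462 2378 330 2411 495)
 (.a 0 [330,462] (.q 425 (.a 1 [] (.d 456 3404 332 3435 487)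
 (.a 0 [332,456,487] (.q 491 (.a 1 [] (.r 427 1387 459 (.r 428 425 426 (.r 392 392 393 (.d 458 2407 359 2440 524))))
 (.a 1 [327] (.r 427 1387 459 (.r 392 392 393 (.d 458 2407 359 2440 524)))
 (.a 1 [359] (.r 427 1387 459 (.r 428 425 426 (.r 392 392 393 (.r 458 2440 524 (.d 489 3437 365 3468 520)))))
 (.a 1 [360] (.r 427 1387 459 (.r 392 392 393 (.d 458 2407 359 2440 524)))
 (.a 1 [426] (.r 427 1387 459 (.r 392 392 393 (.d 458 2407 359 2440 524)))
 (.a 1 [427] (.r 392 392 393 (.d 458 2407 359 2440 524))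
 (.a 1 [524] (.r 427 1387 459 (.r 428 425 426 (.r 392 392 393 (.r 458 2407 359 (.d 489 3437 365 3468 520)))))
 (.a 0 [392,393,458] (.q 460 (.a 1 [] (.d 398 3439 367 3470 522)
 (.a 1 [367] (.d 522 3470 398 3501 553)
 (.a 1 [398] (.r 427 1387 459 (.d 493 2409 361 2442 526))
 .e))))
 .e)))))))))
 .e)))
 .e))))
 (.a 1 [393] (.q 427 (.a 1 [] (.d 331 1323 299 1355 459)
 (.a 1 [299] (.d 459 1355 331 1387 491)
 (.a 0 [331,459] (.q 330 (.a 1 [] (.d 297 2312 264 2345 429)
 (.a 1 [264] (.d 429 2345 297 2378 462)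
 (.a 0 [297,429] (.q 361 (.a 1 [] (.d 328 2343 295 2376 460)
 (.a 1 [295] (.d 460 2376 328 2409 493)
 (.a 0 [328,460] (.q 299 (.a 1 [] (.d 268 3309 237 3340 392)
 (.a 1 [237] (.d 392 3340 268 3371 423)
 (.a 0 [268,392] (.q 365 (.a 1 [] (.d 334 3375 303 3406 458)
 (.a 1 [303] (.d 458 3406 334 3437 489)
 (.a 1 [334] (.r 398 394 397 (.d 332 2314 266 2347 431))
 .e))))
 .e))))
 .e))))
 .e))))
 .e))))
 (.a 1 [392] (.d 397 393 393 394 398)
 .e)))))
 (.a 0 [427] (.q 425 (.a 1 [] (.d 332 3373 301 3404 456)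
 (.a 1 [332] (.q 330 (.a 1 [] (.d 297 2312 264 2345 429)
 (.a 1 [297] (.q 393 (.a 1 [] (.d 395 392 392 393 397)
 (.a 0 [392,395,397] (.q 457 (.a 1 [] (.d 361 1353 329 1385 489)
 (.a 1 [329] (.d 489 1385 361 1417 521)
 (.a 0 [361,489] (.r 456 3435 487 (.q 458 (.a 1 [] (.d 455 454 454 455 459)
 (.a 1 [454] (.d 459 455 455 456 460)
 (.a 1 [455] (.r 426 1354 362 (.r 459 456 460 (.d 492 2408 360 2441 525)))
 (.a 1 [459] (.r 362 1354 426 (.r 455 454 454 (.d 424 3403 331 3434 486)))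
 .e))))))
 .e))))
 .e)))
 (.a 1 [429] (.q 426 (.a 1 [] (.d 362 1322 298 1354 458)
 (.a 0 [298,362,458] (.q 393 (.a 1 [] (.d 395 392 392 393 397)
 (.a 1 [397] (.r 392 392 395 (.r 297 2312 264 (.r 361 1321 329 (.d 423 3371 299 3402 454))))
 (.a 0 [392,395] (.q 327 (.a 1 [] (.d 360 2342 294 2375 459)
 (.a 1 [294] (.r 297 2312 264 (.r 329 1321 361 (.d 328 326 326 327 331)))
 .e)))
 .e))))
 .e)))
 .e))))
 (.a 1 [456] (.q 395 (.a 1 [] (.d 393 392 392 393 397)
 (.a 1 [393] (.q 330 (.a 1 [] (.d 297 2312 264 2345 429)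
 (.a 1 [264] (.d 429 2345 297 2378 462)
 (.a 0 [297,429] (.r 332 3373 301 (.q 299 (.a 1 [] (.r 331 1291 267 (.d 333 329 329 330 334))
 (.a 1 [267] (.r 398 394 397 (.d 365 2314 266 2347 431))
 .e))))
 .e))))
 (.a 1 [397] (.r 392 392 393 (.q 330 (.a 1 [] (.d 297 2312 264 2345 429)
 (.a 1 [264] (.d 429 2345 297 2378 462)
 (.a 0 [297,429] (.q 331 (.a 1 [] (.r 332 3373 301 (.d 333 329 329 330 334))
 (.a 1 [301] (.r 299 1291 267 (.d 361 3340 268 3371 423))
 (.a 1 [333] (.r 299 1291 267 (.d 361 3340 268 3371 423))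
 .e))))
 .e)))))
 .e))))
 (.a 1 [301] (.d 456 3404 332 3435 487)
 .e)))))
 (.a 1 [392] (.q 395 (.a 1 [] (.d 397 393 393 394 398)
 (.a 1 [397] (.q 331 (.a 1 [] (.d 299 1291 267 1323 427)
 (.a 1 [267] (.d 427 1323 299 1355 459)
 (.a 0 [299,427] (.q 330 (.a 1 [] (.d 297 2312 264 2345 429)
 (.a 1 [264] (.d 429 2345 297 2378 462)
 (.a 0 [297,429] (.q 332 (.a 1 [] (.d 329 328 328 329 333)
 (.a 1 [328] (.d 333 329 329 330 334)
 (.a 1 [329] (.d 301 3342 270 3373 425)
 .e))))
 .e))))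
 .e))))
 (.a 1 [393] (.q 427 (.a 1 [] (.d 331 1323 299 1355 459)
 (.a 1 [299] (.d 459 1355 331 1387 491)
 (.a 0 [331,459] (.q 425 (.a 1 [] (.d 332 3373 301 3404 456)
 (.a 1 [301] (.d 456 3404 332 3435 487)
 (.a 0 [332,456] (.q 426 (.a 1 [] (.d 424 423 423 424 428)
 (.a 1 [423] (.d 428 424 424 425 429)
 (.a 1 [424] (.r 429 425 428 (.d 462 2378 330 2411 495))
 (.a 0 [428] (.q 458 (.a 1 [] (.d 362 1354 330 1386 490)
 (.a 1 [330] (.d 490 1386 362 1418 522)
 (.a 1 [362] (.d 365 3406 334 3437 489)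
 .e))))
 .e)))))
 .e))))
 .e))))
 .e))))
 (.a 1 [398] (.q 395 (.a 1 [] (.d 393 392 392 393 397)
 (.a 1 [393] (.q 427 (.a 1 [] (.d 331 1323 299 1355 459)
 (.a 1 [299] (.d 459 1355 331 1387 491)
 (.a 0 [331,459] (.q 425 (.a 1 [] (.d 332 3373 301 3404 456)
 (.a 1 [301] (.d 456 3404 332 3435 487)
 (.a 0 [332,456] (.q 426 (.a 1 [] (.d 424 423 423 424 428)
 (.a 1 [423] (.d 428 424 424 425 429)
 (.a 1 [424] (.r 429 425 428 (.d 462 2378 330 2411 495))
 (.a 0 [428] (.q 458 (.a 1 [] (.d 362 1354 330 1386 490)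
 (.a 1 [330] (.d 490 1386 362 1418 522)
 (.a 1 [362] (.d 365 3406 334 3437 489)
 .e))))
 .e)))))
 .e))))
 .e))))
 (.a 1 [397] (.q 331 (.a 1 [] (.d 299 1291 267 1323 427)
 (.a 1 [267] (.d 427 1323 299 1355 459)
 (.a 0 [299,427] (.q 332 (.a 1 [] (.d 301 3342 270 3373 425)
 (.a 1 [270] (.d 425 3373 301 3404 456)
 (.a 0 [301,425] (.q 330 (.a 1 [] (.d 329 328 328 329 333)
 (.a 1 [328] (.d 333 329 329 330 334)
 (.a 1 [329] (.d 297 2312 264 2345 429)
 .e))))
 .e))))
 .e))))
 .e))))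
 (.a 0 [331] (.q 425 (.a 1 [] (.d 332 3373 301 3404 456)
 (.a 1 [332] (.q 330 (.a 1 [] (.d 297 2312 264 2345 429)
 (.a 1 [297] (.q 426 (.a 1 [] (.d 362 1322 298 1354 458)
 (.a 1 [298] (.r 458 1354 362 (.r 429 2378 462 (.r 427 425 428 (.d 489 3437 365 3468 520))))
 (.a 0 [362,458] (.q 393 (.a 1 [] (.d 395 392 392 393 397)
 (.a 1 [392] (.r 429 2378 462 (.r 427 425 428 (.r 395 393 397 (.r 459 1387 491 (.d 492 2408 360 2441 525)))))
 (.a 1 [397] (.r 392 392 395 (.r 429 2378 462 (.r 427 425 428 (.r 423 423 424 (.d 361 3371 299 3402 454)))))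
 (.a 0 [395] (.q 457 (.a 1 [] (.d 361 1353 329 1385 489)
 (.a 1 [329] (.d 489 1385 361 1417 521)
 (.a 0 [361,489] (.q 360 (.a 1 [] (.d 327 2342 294 2375 459)
 (.a 1 [294] (.d 459 2375 327 2408 492)
 (.a 0 [327,459] (.q 424 (.a 1 [] (.d 423 422 422 423 427)
 (.a 1 [422] (.d 427 423 423 424 428)
 (.a 1 [423] (.r 456 3435 487 (.d 392 1352 328 1384 488))
 .e))))
 .e))))
 .e))))
 .e)))))
 .e))))
 (.a 1 [429] (.q 393 (.a 1 [] (.d 395 392 392 393 397)
 (.a 1 [397] (.r 392 392 395 (.r 297 2312 264 (.r 361 1321 329 (.d 423 3371 299 3402 454))))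
 (.a 0 [392,395] (.q 426 (.a 1 [] (.d 362 1322 298 1354 458)
 (.a 1 [298] (.r 458 1354 362 (.r 297 2312 264 (.r 361 1321 329 (.r 489 1385 457 (.d 427 3437 365 3468 520)))))
 (.a 1 [458] (.r 297 2312 264 (.r 361 1321 329 (.r 362 1322 298 (.r 360 359 359 (.d 459 2375 327 2408 492)))))
 (.a 0 [362] (.q 424 (.a 1 [] (.d 423 422 422 423 427)
 (.a 1 [422] (.d 427 423 423 424 428)
 (.a 0 [423,427] (.q 459 (.a 1 [] (.d 360 2375 327 2408 492)
 (.a 1 [327] (.d 492 2408 360 2441 525)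
 (.a 0 [360,492] (.q 457 (.a 1 [] (.d 361 1353 329 1385 489)
 (.a 1 [329] (.d 489 1385 361 1417 521)
 (.a 1 [361] (.r 456 3435 487 (.d 458 455 455 456 460))
 .e))))
 .e))))
 .e))))
 .e)))))
 .e))))
 .e))))
 (.a 1 [456] (.q 330 (.a 1 [] (.d 297 2312 264 2345 429)
 (.a 1 [297] (.q 397 (.a 1 [] (.d 395 393 393 394 398)
 (.a 0 [393,395,398] (.q 426 (.a 1 [] (.d 362 1322 298 1354 458)
 (.a 1 [298] (.r 458 1354 362 (.r 429 2378 462 (.r 427 425 428 (.d 489 3437 365 3468 520))))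
 (.a 1 [362] (.r 429 2378 462 (.r 427 425 428 (.r 301 3373 332 (.r 365 1325 333 (.d 458 3406 334 3437 489)))))
 (.a 1 [458] (.r 429 2378 462 (.r 427 425 428 (.r 301 3373 332 (.r 365 1325 333 (.r 493 1389 461 (.d 460 2409 361 2442 526))))))
 .e)))))
 .e)))
 (.a 1 [429] (.q 298 (.a 1 [] (.d 362 1290 266 1322 426)
 (.a 0 [266,362,426] (.q 393 (.a 1 [] (.d 395 392 392 393 397)
 (.a 1 [392] (.r 297 2312 264 (.r 361 1321 329 (.r 301 3373 332 (.r 299 297 300 (.r 295 295 296 (.d 328 2310 262 2343 427))))))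
 (.a 1 [395] (.r 297 2312 264 (.r 361 1321 329 (.r 301 3373 332 (.r 299 297 300 (.d 392 3340 268 3371 423)))))
 .e))))
 .e)))
 .e))))
 (.a 1 [301] (.d 456 3404 332 3435 487)
 .e)))))
 (.a 1 [426] (.q 395 (.a 1 [] (.d 393 392 392 393 397)
 (.a 1 [393] (.q 425 (.a 1 [] (.d 332 3373 301 3404 456)
 (.a 1 [301] (.d 456 3404 332 3435 487)
 (.a 0 [332,456] (.q 429 (.a 1 [] (.d 330 2345 297 2378 462)
 (.a 1 [297] (.d 462 2378 330 2411 495)
 (.a 0 [330,462] (.q 491 (.a 1 [] (.r 427 1387 459 (.r 398 394 397 (.d 460 3439 367 3470 522)))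
 (.a 1 [327] (.r 398 394 397 (.d 460 3439 367 3470 522))
 (.a 1 [360] (.r 398 394 397 (.d 460 3439 367 3470 522))
 (.a 1 [367] (.r 427 1387 459 (.r 398 394 397 (.r 460 3470 522 (.d 493 2409 361 2442 526))))
 (.a 1 [459] (.r 398 394 397 (.d 460 3439 367 3470 522))
 (.a 1 [522] (.r 427 1387 459 (.r 398 394 397 (.r 460 3439 367 (.d 493 2409 361 2442 526))))
 (.a 0 [397,398,460] (.q 458 (.a 1 [] (.d 392 2407 359 2440 524)
 (.a 1 [359] (.d 524 2440 392 2473 557)
 (.a 1 [392] (.r 427 1387 459 (.d 489 3437 365 3468 520))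
 .e))))
 .e))))))))
 .e))))
 .e))))
 (.a 1 [397] (.q 429 (.a 1 [] (.d 330 2345 297 2378 462)
 (.a 1 [297] (.d 462 2378 330 2411 495)
 (.a 0 [330,462] (.q 425 (.a 1 [] (.d 332 3373 301 3404 456)
 (.a 1 [301] (.d 456 3404 332 3435 487)
 (.a 0 [332,456] (.q 491 (.a 1 [] (.r 427 1387 459 (.r 392 392 393 (.d 458 2407 359 2440 524)))
 (.a 1 [327] (.r 392 392 393 (.d 458 2407 359 2440 524))
 (.a 1 [359] (.r 427 1387 459 (.r 392 392 393 (.r 458 2440 524 (.d 489 3437 365 3468 520))))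
 (.a 1 [360] (.r 392 392 393 (.d 458 2407 359 2440 524))
 (.a 1 [459] (.r 392 392 393 (.d 458 2407 359 2440 524))
 (.a 1 [524] (.r 427 1387 459 (.r 392 392 393 (.r 458 2407 359 (.d 489 3437 365 3468 520))))
 (.a 0 [392,393,458] (.q 460 (.a 1 [] (.d 398 3439 367 3470 522)
 (.a 1 [367] (.d 522 3470 398 3501 553)
 (.a 1 [398] (.r 427 1387 459 (.d 493 2409 361 2442 526))
 .e))))
 .e))))))))
 .e))))
 .e))))
 (.a 1 [392] (.d 397 393 393 394 398)
 .e)))))
 (.a 1 [365] (.q 395 (.a 1 [] (.d 393 392 392 393 397)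
 (.a 1 [397] (.q 429 (.a 1 [] (.d 330 2345 297 2378 462)
 (.a 1 [297] (.d 462 2378 330 2411 495)
 (.a 0 [330,462] (.q 425 (.a 1 [] (.d 332 3373 301 3404 456)
 (.a 1 [301] (.d 456 3404 332 3435 487)
 (.a 0 [332,456] (.q 491 (.a 1 [] (.r 427 1387 459 (.r 428 425 426 (.r 392 392 393 (.d 458 2407 359 2440 524))))
 (.a 1 [327] (.r 427 1387 459 (.r 392 392 393 (.d 458 2407 359 2440 524)))
 (.a 1 [359] (.r 427 1387 459 (.r 426 425 428 (.r 392 392 393 (.r 458 2440 524 (.d 490 1386 362 1418 522)))))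
 (.a 1 [426] (.r 392 392 393 (.d 458 2407 359 2440 524))
 (.a 1 [524] (.r 427 1387 459 (.r 426 425 428 (.r 392 392 393 (.r 458 2407 359 (.d 490 1386 362 1418 522)))))
 (.a 0 [392,393,458] (.q 460 (.a 1 [] (.d 398 3439 367 3470 522)
 (.a 1 [367] (.d 522 3470 398 3501 553)
 (.a 1 [398] (.r 427 1387 459 (.d 493 2409 361 2442 526))
 .e))))
 .e)))))))
 .e))))
 .e))))
 (.a 1 [393] (.q 427 (.a 1 [] (.d 331 1323 299 1355 459)
 (.a 1 [299] (.d 459 1355 331 1387 491)
 (.a 0 [331,459] (.q 330 (.a 1 [] (.d 297 2312 264 2345 429)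
 (.a 1 [264] (.d 429 2345 297 2378 462)
 (.a 0 [297,429] (.q 425 (.a 1 [] (.d 332 3373 301 3404 456)
 (.a 1 [301] (.d 456 3404 332 3435 487)
 (.a 0 [332,456] (.q 426 (.a 1 [] (.d 424 423 423 424 428)
 (.a 1 [423] (.d 362 1322 298 1354 458)
 .e)))
 .e))))
 .e))))
 .e))))
 .e))))
 (.a 0 [298] (.q 395 (.a 1 [] (.d 393 392 392 393 397)
 (.a 1 [397] (.q 331 (.a 1 [] (.d 299 1291 267 1323 427)
 (.a 1 [427] (.q 330 (.a 1 [] (.d 297 2312 264 2345 429)
 (.a 1 [264] (.d 429 2345 297 2378 462)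
 (.a 0 [297,429] (.q 332 (.a 1 [] (.d 329 328 328 329 333)
 (.a 1 [328] (.d 333 329 329 330 334)
 (.a 1 [329] (.d 301 3342 270 3373 425)
 .e))))
 .e))))
 (.a 1 [299] (.q 429 (.a 1 [] (.d 330 2345 297 2378 462)
 (.a 1 [297] (.d 462 2378 330 2411 495)
 (.a 0 [330,462] (.q 425 (.a 1 [] (.d 332 3373 301 3404 456)
 (.a 1 [301] (.d 456 3404 332 3435 487)
 (.a 0 [332,456] (.q 428 (.a 1 [] (.d 427 425 426 1355 459)
 (.a 0 [426,427,459] (.q 362 (.a 1 [] (.d 329 2344 296 2377 461)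
 (.a 1 [296] (.d 461 2377 329 2410 494)
 (.a 1 [329] (.r 393 392 392 (.d 424 3372 300 3403 455))
 .e))))
 .e)))
 .e))))
 .e))))
 (.a 1 [267] (.d 427 1323 299 1355 459)
 .e)))))
 (.a 1 [393] (.q 331 (.a 1 [] (.d 299 1291 267 1323 427)
 (.a 1 [427] (.q 330 (.a 1 [] (.d 297 2312 264 2345 429)
 (.a 1 [264] (.d 429 2345 297 2378 462)
 (.a 0 [297,429] (.q 332 (.a 1 [] (.d 329 328 328 329 333)
 (.a 1 [328] (.d 333 329 329 330 334)
 (.a 1 [329] (.d 301 3342 270 3373 425)
 .e))))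
 .e))))
 (.a 1 [299] (.q 429 (.a 1 [] (.d 330 2345 297 2378 462)
 (.a 1 [297] (.d 462 2378 330 2411 495)
 (.a 0 [330,462] (.q 301 (.a 1 [] (.d 332 3342 270 3373 425)
 (.a 1 [270] (.r 397 394 398 (.r 365 1325 333 (.r 427 1355 459 (.d 458 3406 334 3437 489))))
 .e)))
 .e))))
 .e))))
 (.a 1 [392] (.d 397 393 393 394 398)
 .e)))))
 (.a 0 [299] (.q 330 (.a 1 [] (.d 297 2312 264 2345 429)
 (.a 1 [429] (.q 395 (.a 1 [] (.d 393 392 392 393 397)
 (.a 1 [397] (.q 425 (.a 1 [] (.d 332 3373 301 3404 456)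
 (.a 1 [301] (.d 456 3404 332 3435 487)
 (.a 0 [332,456] (.q 426 (.a 1 [] (.d 362 1322 298 1354 458)
 (.a 1 [298] (.r 458 1354 362 (.r 392 392 393 (.d 491 2407 359 2440 524)))
 (.a 0 [362,458] (.q 427 (.a 1 [] (.d 424 423 423 424 428)
 (.a 1 [423] (.d 459 1355 331 1387 491)
 .e)))
 .e))))
 .e))))
 (.a 1 [393] (.q 362 (.a 1 [] (.d 298 1290 266 1322 426)
 (.a 1 [266] (.d 426 1322 298 1354 458)
 (.a 0 [298,426] (.q 428 (.a 1 [] (.d 329 2344 296 2377 461)
 (.a 1 [296] (.d 461 2377 329 2410 494)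
 (.a 0 [329,461] (.q 459 (.a 1 [] (.d 427 1355 331 1387 491)
 (.a 1 [331] (.r 397 394 398 (.d 490 3438 366 3469 521))
 .e)))
 .e))))
 .e))))
 .e))))
 (.a 1 [297] (.q 395 (.a 1 [] (.d 393 392 392 393 397)
 (.a 1 [392] (.d 397 393 393 394 398)
 (.a 0 [393,397] (.q 425 (.a 1 [] (.d 332 3373 301 3404 456)
 (.a 1 [301] (.d 456 3404 332 3435 487)
 (.a 0 [332,456] (.q 427 (.a 1 [] (.d 459 1355 331 1387 491)
 (.a 1 [331] (.r 429 2378 462 (.r 426 425 428 (.d 362 1322 298 1354 458)))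
 .e)))
 .e))))
 .e))))
 .e))))
 (.a 1 [333] (.q 330 (.a 1 [] (.d 297 2312 264 2345 429)
 (.a 1 [429] (.q 426 (.a 1 [] (.d 362 1322 298 1354 458)
 (.a 0 [298,362,458] (.q 425 (.a 1 [] (.d 332 3373 301 3404 456)
 (.a 1 [301] (.d 456 3404 332 3435 487)
 (.a 0 [332,456] (.q 427 (.a 1 [] (.d 424 423 423 424 428)
 (.a 0 [423,424,428] (.q 395 (.a 1 [] (.d 393 392 392 393 397)
 (.a 1 [392] (.d 397 393 393 394 398)
 (.a 1 [393] (.d 331 1323 299 1355 459)
 .e))))
 .e)))
 .e))))
 .e)))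
 (.a 1 [297] (.q 395 (.a 1 [] (.d 393 392 392 393 397)
 (.a 1 [392] (.d 397 393 393 394 398)
 (.a 0 [393,397] (.q 331 (.a 1 [] (.d 299 1291 267 1323 427)
 (.a 1 [267] (.d 427 1323 299 1355 459)
 (.a 0 [299,427] (.q 329 (.a 1 [] (.d 328 327 327 328 332)
 (.a 1 [327] (.r 332 328 328 (.d 301 3342 270 3373 425))
 (.a 0 [328,332] (.q 362 (.a 1 [] (.d 298 1290 266 1322 426)
 (.a 1 [266] (.d 426 1322 298 1354 458)
 (.a 1 [298] (.d 296 2311 263 2344 428)
 .e))))
 .e))))
 .e))))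
 .e))))
 .e))))
 (.a 0 [430] (.q 429 (.a 1 [] (.d 330 2345 297 2378 462)
 (.a 1 [330] (.q 397 (.a 1 [] (.d 395 393 393 394 398)
 (.a 1 [395] (.q 332 (.a 1 [] (.d 301 3342 270 3373 425)
 (.a 1 [270] (.d 425 3373 301 3404 456)
 (.a 0 [301,425] (.q 493 (.a 1 [] (.d 461 1389 365 1421 525)
 (.a 0 [365,461,525] (.q 460 (.a 1 [] (.d 427 2409 361 2442 526)
 (.a 0 [361,427,526] (.q 400 (.a 1 [] (.r 398 396 399 (.d 491 3439 367 3470 522))
 (.a 1 [337] (.r 462 2411 495 (.d 431 3441 369 3472 524))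
 (.a 1 [368] (.r 462 2411 495 (.d 431 3441 369 3472 524))
 (.a 1 [399] (.r 462 2411 495 (.d 431 3441 369 3472 524))
 .e)))))
 .e)))
 .e)))
 .e))))
 (.a 1 [398] (.q 365 (.a 1 [] (.d 333 1325 301 1357 461)
 (.a 1 [301] (.d 461 1357 333 1389 493)
 (.a 1 [461] (.r 301 1325 333 (.d 332 3342 270 3373 425))
 (.a 0 [333] (.q 427 (.a 1 [] (.d 334 3375 303 3406 458)
 (.a 1 [303] (.d 458 3406 334 3437 489)
 (.a 1 [334] (.r 395 393 393 (.d 459 1355 331 1387 491))
 .e))))
 .e)))))
 (.a 1 [393] (.q 365 (.a 1 [] (.d 333 1325 301 1357 461)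
 (.a 1 [301] (.d 461 1357 333 1389 493)
 (.a 1 [461] (.r 398 394 395 (.r 301 1325 333 (.d 332 3342 270 3373 425)))
 (.a 0 [333] (.q 332 (.a 1 [] (.d 301 3342 270 3373 425)
 (.a 1 [270] (.d 425 3373 301 3404 456)
 (.a 1 [301] (.r 398 394 395 (.d 431 2347 299 2380 464))
 .e))))
 .e)))))
 .e)))))
 (.a 1 [462] (.q 425 (.a 1 [] (.d 332 3373 301 3404 456)
 (.a 1 [301] (.d 456 3404 332 3435 487)
 (.a 0 [332,456] (.q 427 (.a 1 [] (.r 426 425 428 (.r 330 2345 297 (.d 362 1322 298 1354 458)))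
 (.a 1 [298] (.r 426 425 428 (.r 330 2345 297 (.r 458 1354 362 (.d 489 3437 365 3468 520))))
 (.a 0 [297,330,362,426,428,458] (.q 395 (.a 1 [] (.d 393 392 392 393 397)
 (.a 1 [392] (.d 397 393 393 394 398)
 (.a 1 [393] (.d 331 1323 299 1355 459)
 .e))))
 .e))))
 .e))))
 (.a 1 [297] (.d 462 2378 330 2411 495)
 .e)))))
 (.a 1 [428] (.q 395 (.a 1 [] (.d 393 392 392 393 397)
 (.a 1 [397] (.q 429 (.a 1 [] (.d 330 2345 297 2378 462)
 (.a 1 [297] (.d 462 2378 330 2411 495)
 (.a 0 [330,462] (.q 425 (.a 1 [] (.d 332 3373 301 3404 456)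
 (.a 1 [301] (.d 456 3404 332 3435 487)
 (.a 0 [332,456] (.q 491 (.a 1 [] (.r 427 1387 459 (.r 392 392 393 (.d 458 2407 359 2440 524)))
 (.a 1 [335] (.r 392 392 393 (.d 458 2407 359 2440 524))
 (.a 1 [359] (.r 427 1387 459 (.r 392 392 393 (.r 458 2440 524 (.d 489 3437 365 3468 520))))
 (.a 1 [366] (.r 392 392 393 (.d 458 2407 359 2440 524))
 (.a 1 [459] (.r 392 392 393 (.d 458 2407 359 2440 524))
 (.a 1 [524] (.r 427 1387 459 (.r 392 392 393 (.r 458 2407 359 (.d 489 3437 365 3468 520))))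
 (.a 0 [392,393,458] (.q 460 (.a 1 [] (.d 398 3439 367 3470 522)
 (.a 1 [367] (.d 522 3470 398 3501 553)
 (.a 1 [398] (.r 427 1387 459 (.d 493 2409 361 2442 526))
 .e))))
 .e))))))))
 .e))))
 .e))))
 (.a 1 [393] (.q 427 (.a 1 [] (.d 331 1323 299 1355 459)
 (.a 1 [299] (.d 459 1355 331 1387 491)
 (.a 0 [331,459] (.q 458 (.a 1 [] (.d 365 3406 334 3437 489)
 (.a 1 [334] (.d 489 3437 365 3468 520)
 (.a 0 [365,489] (.q 425 (.a 1 [] (.d 332 3373 301 3404 456)
 (.a 1 [301] (.d 456 3404 332 3435 487)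
 (.a 0 [332,456] (.q 330 (.a 1 [] (.d 297 2312 264 2345 429)
 (.a 1 [264] (.d 429 2345 297 2378 462)
 (.a 0 [297,429] (.q 361 (.a 1 [] (.d 328 2343 295 2376 460)
 (.a 1 [295] (.d 460 2376 328 2409 493)
 (.a 0 [328,460] (.q 392 (.a 1 [] (.d 359 2374 326 2407 491)
 (.a 1 [326] (.d 423 3371 299 3402 454)
 .e)))
 .e))))
 .e))))
 .e))))
 .e))))
 .e))))
 (.a 1 [392] (.d 397 393 393 394 398)
 .e)))))
 (.a 1 [463] (.q 425 (.a 1 [] (.d 332 3373 301 3404 456)
 (.a 1 [332] (.q 330 (.a 1 [] (.d 297 2312 264 2345 429)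
 (.a 1 [264] (.d 429 2345 297 2378 462)
 (.a 0 [297,429] (.q 426 (.a 1 [] (.d 362 1322 298 1354 458)
 (.a 0 [298,362,458] (.q 427 (.a 1 [] (.d 424 423 423 424 428)
 (.a 0 [423,424,428] (.q 395 (.a 1 [] (.d 393 392 392 393 397)
 (.a 1 [392] (.d 397 393 393 394 398)
 (.a 1 [393] (.d 331 1323 299 1355 459)
 .e))))
 .e)))
 .e)))
 .e))))
 (.a 1 [456] (.q 330 (.a 1 [] (.d 297 2312 264 2345 429)
 (.a 1 [264] (.d 429 2345 297 2378 462)
 (.a 0 [297,429] (.q 426 (.a 1 [] (.d 362 1322 298 1354 458)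
 (.a 0 [298,362,458] (.q 427 (.a 1 [] (.d 424 423 423 424 428)
 (.a 0 [423,424,428] (.q 395 (.a 1 [] (.d 393 392 392 393 397)
 (.a 1 [392] (.d 397 393 393 394 398)
 (.a 1 [393] (.d 331 1323 299 1355 459)
 .e))))
 .e)))
 .e)))
 .e))))
 (.a 1 [301] (.d 456 3404 332 3435 487)
 .e)))))
 (.a 1 [496] (.q 425 (.a 1 [] (.d 332 3373 301 3404 456)
 (.a 1 [332] (.q 330 (.a 1 [] (.d 297 2312 264 2345 429)
 (.a 1 [264] (.d 429 2345 297 2378 462)
 (.a 0 [297,429] (.q 426 (.a 1 [] (.d 362 1322 298 1354 458)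
 (.a 0 [298,362,458] (.q 427 (.a 1 [] (.d 424 423 423 424 428)
 (.a 0 [423,424,428] (.q 395 (.a 1 [] (.d 393 392 392 393 397)
 (.a 1 [392] (.d 397 393 393 394 398)
 (.a 1 [393] (.d 331 1323 299 1355 459)
 .e))))
 .e)))
 .e)))
 .e))))
 (.a 1 [456] (.q 330 (.a 1 [] (.d 297 2312 264 2345 429)
 (.a 1 [264] (.d 429 2345 297 2378 462)
 (.a 0 [297,429] (.q 426 (.a 1 [] (.d 362 1322 298 1354 458)
 (.a 0 [298,362,458] (.q 427 (.a 1 [] (.d 424 423 423 424 428)
 (.a 0 [423,424,428] (.q 395 (.a 1 [] (.d 393 392 392 393 397)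
 (.a 1 [392] (.d 397 393 393 394 398)
 (.a 1 [393] (.d 331 1323 299 1355 459)
 .e))))
 .e)))
 .e)))
 .e))))
 (.a 1 [301] (.d 456 3404 332 3435 487)
 .e)))))
 (.a 1 [300] (.q 330 (.a 1 [] (.d 297 2312 264 2345 429)
 (.a 1 [297] (.q 395 (.a 1 [] (.d 393 392 392 393 397)
 (.a 1 [392] (.d 397 393 393 394 398)
 (.a 0 [393,397] (.q 331 (.a 1 [] (.d 299 1291 267 1323 427)
 (.a 1 [267] (.d 427 1323 299 1355 459)
 (.a 0 [299,427] (.q 298 (.a 1 [] (.d 362 1290 266 1322 426)
 (.a 0 [266,362,426] (.q 332 (.a 1 [] (.d 329 328 328 329 333)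
 (.a 1 [328] (.d 333 329 329 330 334)
 (.a 1 [329] (.d 301 3342 270 3373 425)
 .e))))
 .e)))
 .e))))
 .e))))
 (.a 1 [429] (.q 395 (.a 1 [] (.d 393 392 392 393 397)
 (.a 1 [392] (.d 397 393 393 394 398)
 (.a 0 [393,397] (.q 331 (.a 1 [] (.d 299 1291 267 1323 427)
 (.a 1 [267] (.d 427 1323 299 1355 459)
 (.a 0 [299,427] (.q 332 (.a 1 [] (.d 329 328 328 329 333)
 (.a 1 [328] (.d 333 329 329 330 334)
 (.a 1 [329] (.d 301 3342 270 3373 425)
 .e))))
 .e))))
 .e))))
 .e))))
 (.a 1 [329] (.q 395 (.a 1 [] (.d 393 392 392 393 397)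
 (.a 1 [397] (.q 331 (.a 1 [] (.d 299 1291 267 1323 427)
 (.a 1 [267] (.d 427 1323 299 1355 459)
 (.a 0 [299,427] (.q 330 (.a 1 [] (.d 297 2312 264 2345 429)
 (.a 1 [264] (.d 429 2345 297 2378 462)
 (.a 0 [297,429] (.q 362 (.a 1 [] (.d 298 1290 266 1322 426)
 (.a 1 [266] (.d 426 1322 298 1354 458)
 (.a 1 [298] (.r 393 392 392 (.d 424 3372 300 3403 455))
 .e))))
 .e))))
 .e))))
 (.a 1 [393] (.q 427 (.a 1 [] (.d 331 1323 299 1355 459)
 (.a 1 [299] (.d 459 1355 331 1387 491)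
 (.a 0 [331,459] (.q 330 (.a 1 [] (.d 297 2312 264 2345 429)
 (.a 1 [264] (.d 429 2345 297 2378 462)
 (.a 0 [297,429] (.q 361 (.a 1 [] (.d 328 2343 295 2376 460)
 (.a 1 [295] (.d 460 2376 328 2409 493)
 (.a 0 [328,460] (.q 458 (.a 1 [] (.d 365 3406 334 3437 489)
 (.a 1 [334] (.d 489 3437 365 3468 520)
 (.a 0 [365,489] (.q 425 (.a 1 [] (.d 332 3373 301 3404 456)
 (.a 1 [301] (.d 456 3404 332 3435 487)
 (.a 1 [332] (.r 426 1354 362 (.d 424 423 423 424 428))
 .e))))
 .e))))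
 .e))))
 .e))))
 .e))))
 .e))))
 (.a 1 [462] (.q 395 (.a 1 [] (.d 393 392 392 393 397)
 (.a 1 [392] (.d 397 393 393 394 398)
 (.a 0 [393,397] (.q 331 (.a 1 [] (.d 299 1291 267 1323 427)
 (.a 1 [267] (.d 427 1323 299 1355 459)
 (.a 0 [299,427] (.q 332 (.a 1 [] (.d 301 3342 270 3373 425)
 (.a 1 [270] (.d 425 3373 301 3404 456)
 (.a 0 [301,425] (.q 330 (.a 1 [] (.d 329 328 328 329 333)
 (.a 1 [328] (.d 333 329 329 330 334)
 (.a 1 [329] (.d 297 2312 264 2345 429)
 .e))))
 .e))))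
 .e))))
 .e))))
 (.a 1 [264] (.q 395 (.a 1 [] (.d 393 392 392 393 397)
 (.a 1 [392] (.d 397 393 393 394 398)
 (.a 0 [393,397] (.q 331 (.a 1 [] (.d 299 1291 267 1323 427)
 (.a 1 [267] (.d 427 1323 299 1355 459)
 (.a 0 [299,427] (.q 332 (.a 1 [] (.d 301 3342 270 3373 425)
 (.a 1 [270] (.d 425 3373 301 3404 456)
 (.a 0 [301,425] (.q 330 (.a 1 [] (.d 329 328 328 329 333)
 (.a 1 [328] (.d 333 329 329 330 334)
 (.a 1 [329] (.d 429 2345 297 2378 462)
 .e))))
 .e))))
 .e))))
 .e))))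
 (.a 1 [270] (.q 395 (.a 1 [] (.d 393 392 392 393 397)
 (.a 1 [392] (.d 397 393 393 394 398)
 (.a 0 [393,397] (.q 331 (.a 1 [] (.d 299 1291 267 1323 427)
 (.a 1 [267] (.d 427 1323 299 1355 459)
 (.a 0 [299,427] (.q 330 (.a 1 [] (.d 297 2312 264 2345 429)
 (.a 1 [264] (.d 429 2345 297 2378 462)
 (.a 0 [297,429] (.q 332 (.a 1 [] (.d 329 328 328 329 333)
 (.a 1 [328] (.d 333 329 329 330 334)
 (.a 1 [329] (.d 425 3373 301 3404 456)
 .e))))
 .e))))
 .e))))
 .e))))
 (.a 1 [361] (.q 395 (.a 1 [] (.d 393 392 392 393 397)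
 (.a 1 [392] (.d 397 393 393 394 398)
 (.a 0 [393,397] (.q 331 (.a 1 [] (.d 299 1291 267 1323 427)
 (.a 1 [267] (.d 427 1323 299 1355 459)
 (.a 0 [299,427] (.q 330 (.a 1 [] (.d 297 2312 264 2345 429)
 (.a 1 [264] (.d 429 2345 297 2378 462)
 (.a 0 [297,429] (.q 329 (.a 1 [] (.d 328 327 327 328 332)
 (.a 1 [327] (.d 332 328 328 329 333)
 (.a 1 [328] (.r 332 329 333 (.d 425 3373 301 3404 456))
 (.a 0 [332] (.q 362 (.a 1 [] (.d 298 1290 266 1322 426)
 (.a 1 [266] (.d 426 1322 298 1354 458)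
 (.a 1 [298] (.d 296 2311 263 2344 428)
 .e))))
 .e)))))
 .e))))
 .e))))
 .e))))
 (.a 1 [328] (.q 395 (.a 1 [] (.d 393 392 392 393 397)
 (.a 1 [392] (.d 397 393 393 394 398)
 (.a 0 [393,397] (.q 331 (.a 1 [] (.d 299 1291 267 1323 427)
 (.a 1 [267] (.d 427 1323 299 1355 459)
 (.a 0 [299,427] (.q 330 (.a 1 [] (.d 297 2312 264 2345 429)
 (.a 1 [264] (.d 429 2345 297 2378 462)
 (.a 0 [297,429] (.q 332 (.a 1 [] (.d 333 329 329 330 334)
 (.a 1 [329] (.d 425 3373 301 3404 456)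
 .e)))
 .e))))
 .e))))
 .e))))
 (.a 1 [267] (.q 395 (.a 1 [] (.d 393 392 392 393 397)
 (.a 1 [392] (.d 397 393 393 394 398)
 (.a 0 [393,397] (.q 330 (.a 1 [] (.d 297 2312 264 2345 429)
 (.a 1 [264] (.d 429 2345 297 2378 462)
 (.a 0 [297,429] (.q 331 (.a 1 [] (.d 427 1323 299 1355 459)
 (.a 0 [299,427,459] (.q 332 (.a 1 [] (.d 329 328 328 329 333)
 (.a 1 [328] (.d 333 329 329 330 334)
 (.a 1 [329] (.d 301 3342 270 3373 425)
 .e))))
 .e)))
 .e))))
 .e))))
 (.a 1 [459] (.q 395 (.a 1 [] (.d 393 392 392 393 397)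
 (.a 1 [392] (.d 397 393 393 394 398)
 (.a 0 [393,397] (.q 330 (.a 1 [] (.d 297 2312 264 2345 429)
 (.a 1 [264] (.d 429 2345 297 2378 462)
 (.a 0 [297,429] (.q 331 (.a 1 [] (.d 299 1291 267 1323 427)
 (.a 0 [267,299,427] (.q 332 (.a 1 [] (.d 329 328 328 329 333)
 (.a 1 [328] (.d 333 329 329 330 334)
 (.a 1 [329] (.d 301 3342 270 3373 425)
 .e))))
 .e)))
 .e))))
 .e))))
 .e))))))))))))))))))))))))))))))))) (by decide +kernel)

theorem all : RT X2 500 (368 :: 372 :: 376 :: 401 :: 404 :: 407 :: 434 :: 436 :: 438 :: 467 :: 468 :: 469 :: 496 :: 497 :: 498 :: 499 :: 501 :: 502 :: 503 :: 504 :: 531 :: 532 :: 533 :: 562 :: 564 :: 566 :: 593 :: 596 :: 599 :: 624 :: 628 :: 632 :: 364 :: []) := ⟨r368, r372, r376, r401, r404, r407, r434, r436, r438, r467, r468, r469, r496, r497, r498, r499, r501, r502, r503, r504, r531, r532, r533, r562, r564, r566, r593, r596, r599, r624, r628, r632, r364, trivial⟩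

end Pool.Agent.H94.Five.Mid.K9_4_0
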