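import Pool.Agent.H94.Five.Mid.Fam

set_option autoImplicit false
set_option linter.all false
set_option maxRecDepth 100000

/-! Second has the cell (9, 5): some of the other stones. -/

namespace Pool.Agent.H94.Five.Mid.K9_5_0

open Pool.Agent.H79.Five Pool.Agent.H10.Five Pool.Agent.H94.Five.M

abbrev nl : List Ent := [n0, n3, n4, n6, n8, n9, n10, n11, n16, n17, n21, n22]

theorem nl_ok : AC XB M0 nl := .cons n0k <| .cons n3k <| .cons n4k <| .cons n6k <| .cons n8k <| .cons n9k <| .cons n10k <| .cons n11k <| .cons n16k <| .cons n17k <| .cons n21k <| .cons n22k <| .nil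

abbrev fl : List Ent := (x9 :: x22 :: x24 :: x31 :: x40 :: x41 :: x45 :: x59 :: x73 :: x74 :: x84 :: x91 :: x95 :: x103 :: x104 :: x123 :: x128 :: x130 :: x150 :: x161 :: x167 :: x168 :: x174 :: x177 :: x183 :: x185 :: x190 :: x200 :: x201 :: x204 :: x208 :: x214 :: x232 :: x245 :: x255 :: x258 :: x260 :: x266 :: x269 :: x276 :: x277 :: x292 :: x295 :: x310 :: x313 :: x316 :: x318 :: x322 :: x328 :: x333 :: x339 :: x350 :: x352 :: x357 :: x364 :: x371 :: x375 :: x383 :: x390 :: x406 :: x413 :: x416 :: x420 :: x424 :: x426 :: x427 :: x434 :: x437 :: x444 :: x445 :: x451 :: x462 :: x470 :: x482 :: x485 :: x486 :: x493 :: x501 :: x506 :: x514 :: x518 :: x521 :: x529 :: x536 :: x551 :: [])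

theorem fl_ok : AC XB M0 fl := .cons x9k <| .cons x22k <| .cons x24k <| .cons x31k <| .cons x40k <| .cons x41k <| .cons x45k <| .cons x59k <| .cons x73k <| .cons x74k <| .cons x84k <| .cons x91k <| .cons x95k <| .cons x103k <| .cons x104k <| .cons x123k <| .cons x128k <| .cons x130k <| .cons x150k <| .cons x161k <| .cons x167k <| .cons x168k <| .cons x174k <| .cons x177k <| .cons x183k <| .cons x185k <| .cons x190k <| .cons x200k <| .cons x201k <| .cons x204k <| .cons x208k <| .cons x214k <| .cons x232k <| .cons x245k <| .cons x255k <| .cons x258k <| .cons x260k <| .cons x266k <| .cons x269k <| .cons x276k <| .cons x277k <| .cons x292k <| .cons x295k <| .cons x310k <| .cons x313k <| .cons x316k <| .cons x318k <| .cons x322k <| .cons x328k <| .cons x333k <| .cons x339k <| .cons x350k <| .cons x352k <| .cons x357k <| .cons x364k <| .cons x371k <| .cons x375k <| .cons x383k <| .cons x390k <| .cons x406k <| .cons x413k <| .cons x416k <| .cons x420k <| .cons x424k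 <| .cons x426k <| .cons x427k <| .cons x434k <| .cons x437k <| .cons x444k <| .cons x445k <| .cons x451k <| .cons x462k <| .cons x470k <| .cons x482k <| .cons x485k <| .cons x486k <| .cons x493k <| .cons x501k <| .cons x506k <| .cons x514k <| .cons x518k <| .cons x521k <| .cons x529k <| .cons x536k <| .cons x551k <| .nil

theorem b5_956 : S (PX [] [268,400,532]) := S.of (.q 395 (.a 1 [] (.d 393 392 392 393 397)
 (.a 1 [392] (.d 397 393 393 394 398)
 (.a 0 [393,397] (.q 427 (.a 1 [] (.d 331 1323 299 1355 459)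
 (.a 1 [299] (.d 459 1355 331 1387 491)
 (.a 0 [331,459] (.q 330 (.a 1 [] (.d 297 2312 264 2345 429)
 (.a 1 [264] (.d 429 2345 297 2378 462)
 (.a 0 [297,429] (.q 361 (.a 1 [] (.d 328 2343 295 2376 460)
 (.a 1 [295] (.d 460 2376 328 2409 493)
 (.a 0 [328,460] (.q 362 (.a 1 [] (.d 360 359 359 360 364)
 (.a 1 [359] (.d 364 360 360 361 365)
 (.a 1 [360] (.d 298 1290 266 1322 426)
 .e))))
 .e))))
 .e))))
 .e))))
 .e)))) (by decide +kernel)

theorem b5_957 : S (PX [] [400,401,532]) := S.of (.q 330 (.a 1 [] (.d 297 2312 264 2345 429)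
 (.a 1 [264] (.d 429 2345 297 2378 462)
 (.a 0 [297,429] (.q 362 (.a 1 [] (.d 298 1290 266 1322 426)
 (.a 1 [266] (.d 426 1322 298 1354 458)
 (.a 0 [298,426] (.q 361 (.a 1 [] (.d 360 359 359 360 364)
 (.a 1 [359] (.d 364 360 360 361 365)
 (.a 0 [360,364] (.q 427 (.a 1 [] (.d 328 2343 295 2376 460)
 (.a 1 [295] (.d 460 2376 328 2409 493)
 (.a 0 [328,460] (.q 395 (.a 1 [] (.d 393 392 392 393 397)
 (.a 1 [392] (.d 397 393 393 394 398)
 (.a 1 [393] (.d 331 1323 299 1355 459)
 .e))))
 .e))))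
 .e))))
 .e))))
 .e)))) (by decide +kernel)

theorem b5_958 : S (PX [466] [236,400,433,532]) := S.of (.q 395 (.a 1 [] (.d 393 392 392 393 397)
 (.a 1 [392] (.d 397 393 393 394 398)
 (.a 0 [393,397] (.q 427 (.a 1 [] (.d 331 1323 299 1355 459)
 (.a 1 [299] (.d 459 1355 331 1387 491)
 (.a 0 [331,459] (.q 429 (.a 1 [] (.d 330 2345 297 2378 462)
 (.a 1 [297] (.d 462 2378 330 2411 495)
 (.a 0 [330,462] (.q 332 (.a 1 [] (.d 301 3342 270 3373 425)
 (.a 1 [270] (.d 425 3373 301 3404 456)
 (.a 1 [301] (.r 425 3404 456 (.r 428 425 426 (.d 364 1324 300 1356 460)))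
 (.a 0 [425] (.q 428 (.a 1 [] (.d 430 426 426 427 431)
 (.a 1 [426] (.d 364 1324 300 1356 460)
 .e)))
 .e)))))
 .e))))
 .e))))
 .e)))) (by decide +kernel)

theorem b5_959 : S (PX [466] [264,400,433,532]) := S.of (.q 395 (.a 1 [] (.d 393 392 392 393 397)
 (.a 1 [392] (.d 397 393 393 394 398)
 (.a 0 [393,397] (.q 427 (.a 1 [] (.d 331 1323 299 1355 459)
 (.a 1 [299] (.d 459 1355 331 1387 491)
 (.a 0 [331,459] (.q 429 (.a 1 [] (.d 330 2345 297 2378 462)
 (.a 1 [297] (.d 462 2378 330 2411 495)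
 (.a 0 [330,462] (.q 332 (.a 1 [] (.d 301 3342 270 3373 425)
 (.a 1 [270] (.d 425 3373 301 3404 456)
 (.a 1 [301] (.r 425 3404 456 (.r 428 425 426 (.d 364 1324 300 1356 460)))
 (.a 0 [425] (.q 428 (.a 1 [] (.d 430 426 426 427 431)
 (.a 1 [426] (.d 364 1324 300 1356 460)
 .e)))
 .e)))))
 .e))))
 .e))))
 .e)))) (by decide +kernel)

theorem b5_960 : S (PX [466] [265,400,433,532]) := S.of (.q 395 (.a 1 [] (.d 393 392 392 393 397)
 (.a 1 [392] (.d 397 393 393 394 398)
 (.a 0 [393,397] (.q 331 (.a 1 [] (.d 299 1291 267 1323 427)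
 (.a 1 [267] (.d 427 1323 299 1355 459)
 (.a 0 [299,427] (.q 330 (.a 1 [] (.d 297 2312 264 2345 429)
 (.a 1 [264] (.d 429 2345 297 2378 462)
 (.a 0 [297,429] (.q 329 (.a 1 [] (.d 328 327 327 328 332)
 (.a 1 [327] (.d 332 328 328 329 333)
 (.a 1 [328] (.r 332 329 333 (.d 425 3373 301 3404 456))
 (.a 0 [332] (.q 362 (.a 1 [] (.d 298 1290 266 1322 426)
 (.a 1 [266] (.d 426 1322 298 1354 458)
 (.a 1 [298] (.d 296 2311 263 2344 428)
 .e))))
 .e)))))
 .e))))
 .e))))
 .e)))) (by decide +kernel)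

theorem b5_961 : S (PX [466] [268,400,433,532]) := S.of (.q 395 (.a 1 [] (.d 393 392 392 393 397)
 (.a 1 [392] (.d 397 393 393 394 398)
 (.a 0 [393,397] (.q 427 (.a 1 [] (.d 331 1323 299 1355 459)
 (.a 1 [299] (.d 459 1355 331 1387 491)
 (.a 0 [331,459] (.q 330 (.a 1 [] (.d 297 2312 264 2345 429)
 (.a 1 [264] (.d 429 2345 297 2378 462)
 (.a 0 [297,429] (.q 361 (.a 1 [] (.d 328 2343 295 2376 460)
 (.a 1 [295] (.d 460 2376 328 2409 493)
 (.a 0 [328,460] (.q 362 (.a 1 [] (.d 360 359 359 360 364)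
 (.a 1 [359] (.d 364 360 360 361 365)
 (.a 1 [360] (.d 298 1290 266 1322 426)
 .e))))
 .e))))
 .e))))
 .e))))
 .e)))) (by decide +kernel)

theorem b5_962 : S (PX [466] [293,400,433,532]) := S.of (.q 395 (.a 1 [] (.d 393 392 392 393 397)
 (.a 1 [392] (.d 397 393 393 394 398)
 (.a 0 [393,397] (.q 427 (.a 1 [] (.d 331 1323 299 1355 459)
 (.a 1 [299] (.d 459 1355 331 1387 491)
 (.a 0 [331,459] (.q 429 (.a 1 [] (.d 330 2345 297 2378 462)
 (.a 1 [297] (.d 462 2378 330 2411 495)
 (.a 0 [330,462] (.q 332 (.a 1 [] (.d 301 3342 270 3373 425)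
 (.a 1 [270] (.d 425 3373 301 3404 456)
 (.a 1 [301] (.r 425 3404 456 (.r 428 425 426 (.d 364 1324 300 1356 460)))
 (.a 0 [425] (.q 428 (.a 1 [] (.d 430 426 426 427 431)
 (.a 1 [426] (.d 364 1324 300 1356 460)
 .e)))
 .e)))))
 .e))))
 .e))))
 .e)))) (by decide +kernel)

theorem b5_963 : S (PX [466] [296,400,433,532]) := S.of (.q 395 (.a 1 [] (.d 393 392 392 393 397)
 (.a 1 [392] (.d 397 393 393 394 398)
 (.a 0 [393,397] (.q 427 (.a 1 [] (.d 331 1323 299 1355 459)
 (.a 1 [299] (.d 459 1355 331 1387 491)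
 (.a 0 [331,459] (.q 429 (.a 1 [] (.d 330 2345 297 2378 462)
 (.a 1 [297] (.d 462 2378 330 2411 495)
 (.a 0 [330,462] (.q 332 (.a 1 [] (.d 301 3342 270 3373 425)
 (.a 1 [270] (.d 425 3373 301 3404 456)
 (.a 1 [301] (.r 425 3404 456 (.r 428 425 426 (.d 364 1324 300 1356 460)))
 (.a 0 [425] (.q 428 (.a 1 [] (.d 430 426 426 427 431)
 (.a 1 [426] (.d 364 1324 300 1356 460)
 .e)))
 .e)))))
 .e))))
 .e))))
 .e)))) (by decide +kernel)

theorem b5_964 : S (PX [466] [298,400,433,532]) := S.of (.q 429 (.a 1 [] (.d 330 2345 297 2378 462)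
 (.a 1 [297] (.d 462 2378 330 2411 495)
 (.a 0 [330,462] (.q 397 (.a 1 [] (.d 395 393 393 394 398)
 (.a 0 [393,395,398] (.q 365 (.a 1 [] (.d 333 1325 301 1357 461)
 (.a 1 [301] (.d 461 1357 333 1389 493)
 (.a 1 [461] (.r 301 1325 333 (.d 332 3342 270 3373 425))
 (.a 0 [333] (.q 427 (.a 1 [] (.d 334 3375 303 3406 458)
 (.a 1 [303] (.d 458 3406 334 3437 489)
 (.a 1 [334] (.r 493 1389 461 (.d 460 2409 361 2442 526))
 .e))))
 .e)))))
 .e)))
 .e)))) (by decide +kernel)

theorem b5_972 : S (PX [466] [301,400,433,532]) := S.of (.q 395 (.a 1 [] (.d 393 392 392 393 397)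
 (.a 0 [397] (.q 427 (.a 1 [] (.d 331 1323 299 1355 459)
 (.a 1 [459] (.q 334 (.a 1 [] (.d 365 3375 303 3406 458)
 (.a 1 [365] (.r 331 1323 299 (.r 393 392 392 (.q 429 (.a 1 [] (.d 330 2345 297 2378 462)
 (.a 1 [297] (.d 462 2378 330 2411 495)
 (.a 0 [269] (.q 333 (.a 1 [] (.d 330 2345 297 2378 462)
 (.a 1 [297] (.d 330 330 332 2378 462)
 (.a 1 [330] (.r 332 331 335 (.r 425 3404 456 (.r 428 425 426 (.d 364 1324 300 1356 460))))
 .e))))
 (.a 0 [330] (.q 361 (.a 1 [] (.d 328 2343 295 2376 460)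
 (.a 1 [295] (.d 460 2376 328 2409 493)
 (.a 0 [269] (.q 333 (.a 1 [] (.d 328 2343 295 2376 460)
 (.a 1 [295] (.d 460 2376 328 2409 493)
 (.a 1 [328] (.r 332 331 335 (.r 425 3404 456 (.d 457 1353 329 1385 489)))
 .e))))
 (.a 0 [328] (.q 362 (.a 1 [] (.d 360 359 359 360 364)
 (.a 1 [333] (.r 269 3341 300 (.d 360 359 359 360 364))
 (.a 1 [359] (.d 300 3341 269 3372 424)
 (.a 0 [269] (.q 333 (.a 1 [] (.d 360 359 359 360 364)
 (.a 1 [359] (.d 424 3372 300 3403 455)
 .e)))
 .e)))))
 (.a 0 [333] (.q 269 (.a 1 [] (.d 328 2343 295 2376 460)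
 (.a 1 [295] (.d 460 2376 328 2409 493)
 (.a 1 [328] (.r 362 3341 300 (.d 360 359 359 360 364))
 .e))))
 (.a 0 [460] (.q 362 (.a 1 [] (.d 360 359 359 360 364)
 (.a 1 [333] (.r 269 3341 300 (.d 360 359 359 360 364))
 (.a 1 [359] (.d 300 3341 269 3372 424)
 (.a 0 [269] (.q 333 (.a 1 [] (.d 360 359 359 360 364)
 (.a 1 [359] (.d 424 3372 300 3403 455)
 .e)))
 .e)))))
 .e)))))))
 (.a 0 [333] (.q 269 (.a 1 [] (.d 330 2345 297 2378 462)
 (.a 1 [297] (.d 462 2378 330 2411 495)
 (.a 1 [462] (.r 362 3341 300 (.r 330 2345 297 (.d 298 1290 266 1322 426)))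
 (.a 0 [330] (.q 361 (.a 1 [] (.d 328 2343 295 2376 460)
 (.a 1 [295] (.d 460 2376 328 2409 493)
 (.a 1 [328] (.r 362 3341 300 (.d 360 359 359 360 364))
 .e))))
 .e)))))
 (.a 0 [462] (.q 332 (.a 1 [] (.d 330 2345 297 330 333)
 (.a 1 [269] (.d 333 330 330 331 335)
 (.a 1 [330] (.r 425 3404 456 (.r 428 425 426 (.d 364 1324 300 1356 460)))
 (.a 0 [333] (.q 269 (.a 1 [] (.r 300 3341 362 (.d 364 1292 268 1324 428))
 (.a 1 [268] (.r 330 2345 297 (.r 362 3341 300 (.d 298 1290 266 1322 426)))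
 (.a 1 [300] (.r 425 3404 456 (.r 428 425 426 (.r 460 1356 364 (.d 493 2409 361 2442 526))))
 .e))))
 .e)))))
 .e)))))))))
 (.a 1 [458] (.q 330 (.a 1 [] (.d 297 2312 264 2345 429)
 (.a 1 [264] (.d 429 2345 297 2378 462)
 (.a 1 [297] (.r 331 1323 299 (.r 332 330 333 (.r 328 328 329 (.d 361 2343 295 2376 460))))
 (.a 1 [429] (.r 331 1323 299 (.r 332 330 333 (.r 365 3375 303 (.r 328 328 329 (.d 361 2343 295 2376 460)))))
 .e)))))
 (.a 1 [303] (.q 330 (.a 1 [] (.d 297 2312 264 2345 429)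
 (.a 1 [264] (.d 429 2345 297 2378 462)
 (.a 1 [297] (.r 458 3406 365 (.r 426 1354 362 (.r 429 2378 462 (.d 428 425 425 426 430))))
 (.a 1 [429] (.r 331 1323 299 (.r 332 330 333 (.r 365 3406 458 (.r 328 328 329 (.d 361 2343 295 2376 460)))))
 .e)))))
 .e)))))
 (.a 1 [334] (.q 367 (.a 1 [] (.d 459 1355 331 1387 491)
 (.a 1 [331] (.q 429 (.a 1 [] (.d 330 2345 297 2378 462)
 (.a 1 [297] (.d 462 2378 330 2411 495)
 (.a 1 [330] (.r 491 1387 459 (.r 460 3439 398 (.d 361 2376 328 2409 493)))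
 .e))))
 (.a 1 [459] (.q 429 (.a 1 [] (.d 330 2345 297 2378 462)
 (.a 1 [297] (.d 462 2378 330 2411 495)
 (.a 0 [330,462] (.q 460 (.a 1 [] (.d 361 2376 328 2409 493)
 (.a 1 [328] (.d 493 2409 361 2442 526)
 (.a 1 [361] (.d 398 3408 336 3439 491)
 .e))))
 .e))))
 (.a 1 [491] (.d 331 1323 299 1355 459)
 .e)))))
 (.a 1 [331] (.q 365 (.a 1 [] (.d 334 3375 303 3406 458)
 (.a 1 [303] (.d 458 3406 334 3437 489)
 (.a 0 [334] (.q 367 (.a 1 [] (.r 364 363 366 (.r 361 361 362 (.d 460 2376 328 2409 493)))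
 (.a 1 [328] (.r 364 363 366 (.r 361 361 362 (.r 460 2409 493 (.d 428 1356 332 1388 492))))
 (.a 1 [493] (.r 364 363 366 (.r 361 361 362 (.d 328 2343 295 2376 460)))
 (.a 0 [361,362,364,366,460] (.r 458 3437 489 (.r 491 1387 459 (.r 392 392 393 (.d 425 2407 359 2440 524))))
 .e)))))
 (.a 0 [458] (.q 364 (.a 1 [] (.d 362 361 361 362 366)
 (.a 1 [334] (.r 367 363 366 (.r 361 361 362 (.d 460 2376 328 2409 493)))
 (.a 1 [361] (.d 366 362 362 363 367)
 (.a 1 [366] (.r 361 361 362 (.d 460 2376 328 2409 493))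
 (.a 1 [367] (.r 334 3375 303 (.d 362 361 361 362 366))
 (.a 0 [362] (.q 460 (.a 1 [] (.d 428 1356 332 1388 492)
 (.a 1 [332] (.d 493 2409 361 2442 526)
 (.a 1 [334] (.r 367 363 366 (.d 428 1356 332 1388 492))
 (.a 1 [367] (.r 334 3375 303 (.d 428 1356 332 1388 492))
 .e)))))
 .e)))))))
 .e)))))
 (.a 1 [299] (.d 459 1355 331 1387 491)
 (.a 1 [367] (.q 334 (.a 1 [] (.d 459 1355 331 1387 491)
 (.a 1 [331] (.d 365 3375 303 3406 458)
 .e)))
 .e)))))))
 (.a 1 [393] (.q 334 (.a 1 [] (.q 427 (.a 1 [] (.d 331 1323 299 1355 459)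
 (.a 1 [299] (.d 459 1355 331 1387 491)
 (.a 1 [331] (.d 365 3375 303 3406 458)
 .e))))
 (.a 1 [427] (.r 398 394 397 (.q 429 (.a 1 [] (.d 330 2345 297 2378 462)
 (.a 1 [297] (.d 462 2378 330 2411 495)
 (.a 0 [330,462] (.q 460 (.a 1 [] (.d 367 3408 336 3439 491)
 (.a 1 [336] (.d 491 3439 367 3470 522)
 (.a 0 [367,491] (.q 364 (.a 1 [] (.d 428 1356 332 1388 492)
 (.a 0 [332,428,492] (.q 302 (.a 1 [] (.d 366 1294 270 1326 430)
 (.a 1 [270] (.d 333 3343 271 3374 426)
 .e)))
 .e)))
 .e))))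
 .e)))))
 (.a 1 [365] (.q 427 (.a 1 [] (.d 331 1323 299 1355 459)
 (.a 1 [299] (.d 459 1355 331 1387 491)
 (.a 0 [331,459] (.q 429 (.a 1 [] (.d 330 2345 297 2378 462)
 (.a 1 [297] (.d 462 2378 330 2411 495)
 (.a 0 [330,462] (.q 460 (.a 1 [] (.d 361 2376 328 2409 493)
 (.a 1 [328] (.d 493 2409 361 2442 526)
 (.a 1 [361] (.r 398 394 397 (.d 491 3439 367 3470 522))
 .e))))
 .e))))
 .e))))
 (.a 1 [331] (.q 427 (.a 1 [] (.d 365 3375 303 3406 458)
 (.a 0 [303,365,458] (.q 429 (.a 1 [] (.d 330 2345 297 2378 462)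
 (.a 1 [297] (.d 462 2378 330 2411 495)
 (.a 0 [330,462] (.q 460 (.a 1 [] (.d 361 2376 328 2409 493)
 (.a 1 [328] (.d 493 2409 361 2442 526)
 (.a 1 [361] (.r 398 394 397 (.d 491 1387 459 3470 522))
 .e))))
 .e))))
 .e)))
 (.a 1 [297] (.q 427 (.a 1 [] (.d 331 1323 299 1355 459)
 (.a 1 [299] (.d 459 1355 331 1387 491)
 (.a 1 [331] (.d 365 3375 303 3406 458)
 .e))))
 (.a 1 [299] (.q 427 (.a 1 [] (.d 459 1355 331 1387 491)
 (.a 1 [331] (.d 365 3375 303 3406 458)
 .e)))
 (.a 1 [459] (.q 365 (.a 1 [] (.d 303 3344 272 3375 427)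
 (.a 1 [272] (.d 427 3375 303 3406 458)
 (.a 0 [303,427] (.q 429 (.a 1 [] (.d 330 2345 297 2378 462)
 (.a 1 [297] (.d 462 2378 330 2411 495)
 (.a 1 [330] (.r 397 394 398 (.d 461 1357 333 1389 493))
 .e))))
 .e))))
 (.a 1 [302] (.q 427 (.a 1 [] (.d 331 1323 299 1355 459)
 (.a 1 [299] (.d 459 1355 331 1387 491)
 (.a 1 [331] (.d 365 3375 303 3406 458)
 .e))))
 (.a 1 [491] (.q 427 (.a 1 [] (.d 331 1323 299 1355 459)
 (.a 1 [299] (.d 365 3375 303 3406 458)
 .e)))
 (.a 1 [300] (.q 427 (.a 1 [] (.d 331 1323 299 1355 459)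
 (.a 1 [299] (.d 459 1355 331 1387 491)
 (.a 1 [331] (.d 365 3375 303 3406 458)
 .e))))
 (.a 1 [298] (.q 427 (.a 1 [] (.d 331 1323 299 1355 459)
 (.a 1 [299] (.d 459 1355 331 1387 491)
 (.a 1 [331] (.d 365 3375 303 3406 458)
 .e))))
 .e))))))))))))
 (.a 1 [334] (.q 367 (.a 1 [] (.d 397 393 393 394 398)
 (.a 1 [397] (.q 429 (.a 1 [] (.d 330 2345 297 2378 462)
 (.a 1 [297] (.d 462 2378 330 2411 495)
 (.a 0 [330,462] (.q 427 (.a 1 [] (.d 331 1323 299 1355 459)
 (.a 1 [299] (.d 459 1355 331 1387 491)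
 (.a 1 [331] (.r 491 1387 459 (.r 460 3439 398 (.d 361 2376 328 2409 493)))
 (.a 0 [459] (.q 460 (.a 1 [] (.d 361 2376 328 2409 493)
 (.a 1 [328] (.d 493 2409 361 2442 526)
 (.a 1 [361] (.d 398 3408 336 3439 491)
 .e))))
 .e)))))
 .e))))
 (.a 1 [398] (.d 393 392 392 393 397)
 .e))))
 (.a 1 [367] (.q 334 (.a 1 [] (.d 393 392 392 393 397)
 (.a 1 [397] (.q 427 (.a 1 [] (.d 331 1323 299 1355 459)
 (.a 1 [299] (.d 459 1355 331 1387 491)
 (.a 1 [331] (.d 365 3375 303 3406 458)
 .e))))
 .e)))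
 (.a 1 [392] (.d 397 393 393 394 398)
 .e))))))) (by decide +kernel)

theorem b5_973 : S (PX [466] [326,400,433,532]) := S.of (.q 395 (.a 1 [] (.d 393 392 392 393 397)
 (.a 1 [392] (.d 397 393 393 394 398)
 (.a 0 [393,397] (.q 427 (.a 1 [] (.d 331 1323 299 1355 459)
 (.a 1 [299] (.d 459 1355 331 1387 491)
 (.a 0 [331,459] (.q 425 (.a 1 [] (.d 332 3373 301 3404 456)
 (.a 1 [301] (.d 456 3404 332 3435 487)
 (.a 0 [332,456] (.q 458 (.a 1 [] (.d 365 3406 334 3437 489)
 (.a 1 [334] (.d 489 3437 365 3468 520)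
 (.a 0 [365,489] (.q 426 (.a 1 [] (.d 424 423 423 424 428)
 (.a 1 [423] (.d 428 424 424 425 429)
 (.a 1 [424] (.d 362 1354 330 1386 490)
 .e))))
 .e))))
 .e))))
 .e))))
 .e)))) (by decide +kernel)

theorem b5_974 : S (PX [466] [327,400,433,532]) := S.of (.q 395 (.a 1 [] (.d 393 392 392 393 397)
 (.a 1 [392] (.d 397 393 393 394 398)
 (.a 0 [393,397] (.q 330 (.a 1 [] (.d 297 2312 264 2345 429)
 (.a 1 [264] (.d 429 2345 297 2378 462)
 (.a 0 [297,429] (.q 426 (.a 1 [] (.d 362 1322 298 1354 458)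
 (.a 0 [298,362,458] (.q 425 (.a 1 [] (.d 332 3373 301 3404 456)
 (.a 1 [301] (.d 456 3404 332 3435 487)
 (.a 0 [332,456] (.q 427 (.a 1 [] (.d 424 423 423 424 428)
 (.a 1 [423] (.d 459 1355 331 1387 491)
 .e)))
 .e))))
 .e)))
 .e))))
 .e)))) (by decide +kernel)

theorem b5_975 : S (PX [466] [330,400,433,532]) := S.of (.q 395 (.a 1 [] (.d 393 392 392 393 397)
 (.a 1 [392] (.d 397 393 393 394 398)
 (.a 0 [393,397] (.q 427 (.a 1 [] (.d 331 1323 299 1355 459)
 (.a 1 [299] (.d 459 1355 331 1387 491)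
 (.a 0 [331,459] (.q 460 (.a 1 [] (.d 361 2376 328 2409 493)
 (.a 1 [328] (.d 493 2409 361 2442 526)
 (.a 0 [361] (.q 334 (.a 1 [] (.d 365 3375 303 3406 458)
 (.a 0 [303,365,458] (.q 332 (.a 1 [] (.d 301 3342 270 3373 425)
 (.a 1 [270] (.d 425 3373 301 3404 456)
 (.a 1 [301] (.r 428 1356 364 (.r 425 3404 456 (.d 426 424 424 425 429)))
 (.a 0 [425] (.r 364 1356 428 (.r 301 3342 270 (.r 268 1292 300 (.d 235 2250 202 2283 367))))
 .e)))))
 .e)))
 (.a 0 [493] (.q 332 (.a 1 [] (.d 301 3342 270 3373 425)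
 (.a 1 [270] (.d 425 3373 301 3404 456)
 (.a 1 [301] (.r 364 1356 428 (.r 361 2376 328 (.d 362 360 360 361 365)))
 .e))))
 .e)))))
 .e))))
 .e)))) (by decide +kernel)

theorem b5_976 : S (PX [466] [331,400,433,532]) := S.of (.q 330 (.a 1 [] (.d 297 2312 264 2345 429)
 (.a 1 [264] (.d 429 2345 297 2378 462)
 (.a 0 [297,429] (.q 362 (.a 1 [] (.d 298 1290 266 1322 426)
 (.a 1 [266] (.d 426 1322 298 1354 458)
 (.a 0 [298,426] (.q 364 (.a 1 [] (.d 361 360 360 361 365)
 (.a 1 [360] (.d 365 361 361 362 366)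
 (.a 0 [361,365] (.q 332 (.a 1 [] (.d 300 1292 268 1324 428)
 (.a 1 [268] (.d 428 1324 300 1356 460)
 (.a 1 [300] (.d 301 3342 270 3373 425)
 .e))))
 .e))))
 .e))))
 .e)))) (by decide +kernel)

theorem b5_977 : S (PX [466] [334,400,433,532]) := S.of (.q 301 (.a 1 [] (.d 332 3342 270 3373 425)
 (.a 0 [270,332,425] (.q 330 (.a 1 [] (.d 297 2312 264 2345 429)
 (.a 1 [264] (.d 429 2345 297 2378 462)
 (.a 0 [297] (.q 362 (.a 1 [] (.d 298 1290 266 1322 426)
 (.a 1 [266] (.d 426 1322 298 1354 458)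
 (.a 0 [298,426] (.q 365 (.a 1 [] (.d 364 361 361 362 366)
 (.a 1 [361] (.r 429 2378 462 (.r 397 1325 333 (.d 395 393 393 394 398)))
 .e)))
 .e))))
 (.a 0 [429] (.q 395 (.a 1 [] (.d 393 392 392 393 397)
 (.a 1 [392] (.d 397 393 393 394 398)
 (.a 0 [393,397] (.q 299 (.a 1 [] (.d 331 1291 267 1323 427)
 (.a 1 [267] (.r 427 1323 331 (.r 297 2312 264 (.r 298 297 300 (.d 362 1290 266 1322 426))))
 (.a 1 [331] (.r 297 2312 264 (.r 298 297 300 (.d 362 1290 266 1322 426)))
 .e))))
 .e))))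
 .e)))))
 .e))) (by decide +kernel)

theorem b5_978 : S (PX [466] [335,400,433,532]) := S.of (.q 395 (.a 1 [] (.d 393 392 392 393 397)
 (.a 1 [392] (.d 397 393 393 394 398)
 (.a 0 [393,397] (.q 331 (.a 1 [] (.d 299 1291 267 1323 427)
 (.a 1 [267] (.d 427 1323 299 1355 459)
 (.a 0 [299,427] (.q 330 (.a 1 [] (.d 297 2312 264 2345 429)
 (.a 1 [264] (.d 429 2345 297 2378 462)
 (.a 0 [297,429] (.q 332 (.a 1 [] (.d 329 328 328 329 333)
 (.a 1 [328] (.d 333 329 329 330 334)
 (.a 1 [329] (.d 301 3342 270 3373 425)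
 .e))))
 .e))))
 .e))))
 .e)))) (by decide +kernel)

theorem b5_979 : S (PX [466] [359,400,433,532]) := S.of (.q 395 (.a 1 [] (.d 393 392 392 393 397)
 (.a 1 [392] (.d 397 393 393 394 398)
 (.a 0 [393,397] (.q 427 (.a 1 [] (.d 331 1323 299 1355 459)
 (.a 1 [299] (.d 459 1355 331 1387 491)
 (.a 0 [331,459] (.q 425 (.a 1 [] (.d 332 3373 301 3404 456)
 (.a 1 [301] (.d 456 3404 332 3435 487)
 (.a 0 [332,456] (.q 458 (.a 1 [] (.d 365 3406 334 3437 489)
 (.a 1 [334] (.d 489 3437 365 3468 520)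
 (.a 0 [365,489] (.q 426 (.a 1 [] (.d 424 423 423 424 428)
 (.a 1 [423] (.d 428 424 424 425 429)
 (.a 1 [424] (.d 362 1354 330 1386 490)
 .e))))
 .e))))
 .e))))
 .e))))
 .e)))) (by decide +kernel)

theorem b5_980 : S (PX [466] [360,400,433,532]) := S.of (.q 395 (.a 1 [] (.d 393 392 392 393 397)
 (.a 1 [392] (.d 397 393 393 394 398)
 (.a 0 [393,397] (.q 330 (.a 1 [] (.d 297 2312 264 2345 429)
 (.a 1 [264] (.d 429 2345 297 2378 462)
 (.a 0 [297,429] (.q 426 (.a 1 [] (.d 362 1322 298 1354 458)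
 (.a 0 [298,362,458] (.q 425 (.a 1 [] (.d 332 3373 301 3404 456)
 (.a 1 [301] (.d 456 3404 332 3435 487)
 (.a 0 [332,456] (.q 427 (.a 1 [] (.d 424 423 423 424 428)
 (.a 1 [423] (.d 459 1355 331 1387 491)
 .e)))
 .e))))
 .e)))
 .e))))
 .e)))) (by decide +kernel)

theorem b5_981 : S (PX [466] [361,400,433,532]) := S.of (.q 330 (.a 1 [] (.d 297 2312 264 2345 429)
 (.a 1 [264] (.d 429 2345 297 2378 462)
 (.a 0 [297,429] (.q 425 (.a 1 [] (.d 332 3373 301 3404 456)
 (.a 1 [301] (.d 456 3404 332 3435 487)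
 (.a 0 [332,456] (.q 426 (.a 1 [] (.d 362 1322 298 1354 458)
 (.a 0 [298,362,458] (.q 427 (.a 1 [] (.d 424 423 423 424 428)
 (.a 0 [423,424,428] (.q 395 (.a 1 [] (.d 393 392 392 393 397)
 (.a 1 [392] (.d 397 393 393 394 398)
 (.a 1 [393] (.d 331 1323 299 1355 459)
 .e))))
 .e)))
 .e)))
 .e))))
 .e)))) (by decide +kernel)

theorem b5_982 : S (PX [466] [365,400,433,532]) := S.of (.q 395 (.a 1 [] (.d 393 392 392 393 397)
 (.a 1 [392] (.d 397 393 393 394 398)
 (.a 0 [393,397] (.q 429 (.a 1 [] (.d 330 2345 297 2378 462)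
 (.a 1 [297] (.d 462 2378 330 2411 495)
 (.a 0 [330,462] (.q 427 (.a 1 [] (.d 331 1323 299 1355 459)
 (.a 1 [299] (.d 459 1355 331 1387 491)
 (.a 0 [331,459] (.q 332 (.a 1 [] (.d 301 3342 270 3373 425)
 (.a 1 [270] (.d 425 3373 301 3404 456)
 (.a 1 [301] (.r 425 3404 456 (.r 428 425 426 (.d 364 1324 300 1356 460)))
 (.a 0 [425] (.q 428 (.a 1 [] (.d 430 426 426 427 431)
 (.a 1 [426] (.d 364 1324 300 1356 460)
 .e)))
 .e)))))
 .e))))
 .e))))
 .e)))) (by decide +kernel)

theorem b5_983 : S (PX [466] [366,400,433,532]) := S.of (.q 395 (.a 1 [] (.d 393 392 392 393 397)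
 (.a 1 [392] (.d 397 393 393 394 398)
 (.a 0 [393,397] (.q 330 (.a 1 [] (.d 297 2312 264 2345 429)
 (.a 1 [264] (.d 429 2345 297 2378 462)
 (.a 0 [297,429] (.q 331 (.a 1 [] (.d 299 1291 267 1323 427)
 (.a 1 [267] (.d 427 1323 299 1355 459)
 (.a 0 [299,427] (.q 332 (.a 1 [] (.d 329 328 328 329 333)
 (.a 1 [328] (.d 333 329 329 330 334)
 (.a 1 [329] (.d 301 3342 270 3373 425)
 .e))))
 .e))))
 .e))))
 .e)))) (by decide +kernel)

theorem b5_984 : S (PX [466] [367,400,433,532]) := S.of (.q 301 (.a 1 [] (.d 332 3342 270 3373 425)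
 (.a 0 [270,332,425] (.q 395 (.a 1 [] (.d 393 392 392 393 397)
 (.a 1 [392] (.d 397 393 393 394 398)
 (.a 0 [393,397] (.q 427 (.a 1 [] (.d 331 1323 299 1355 459)
 (.a 1 [299] (.d 459 1355 331 1387 491)
 (.a 0 [331,459] (.q 330 (.a 1 [] (.d 297 2312 264 2345 429)
 (.a 1 [264] (.d 429 2345 297 2378 462)
 (.a 0 [297] (.q 361 (.a 1 [] (.d 328 2343 295 2376 460)
 (.a 1 [295] (.d 460 2376 328 2409 493)
 (.a 0 [328,460] (.q 362 (.a 1 [] (.d 360 359 359 360 364)
 (.a 1 [359] (.d 364 360 360 361 365)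
 (.a 1 [360] (.d 298 1290 266 1322 426)
 .e))))
 .e))))
 (.a 0 [429] (.q 365 (.a 1 [] (.d 334 3375 303 3406 458)
 (.a 1 [303] (.d 458 3406 334 3437 489)
 (.a 1 [334] (.r 458 3437 489 (.r 362 1354 426 (.d 364 361 361 362 366)))
 (.a 0 [458] (.q 362 (.a 1 [] (.d 364 361 361 362 366)
 (.a 1 [361] (.d 298 1290 266 1322 426)
 .e)))
 .e)))))
 .e)))))
 .e))))
 .e))))
 .e))) (by decide +kernel)

theorem b5_985 : S (PX [466] [369,400,433,532]) := S.of (.q 395 (.a 1 [] (.d 393 392 392 393 397)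
 (.a 1 [392] (.d 397 393 393 394 398)
 (.a 0 [393,397] (.q 427 (.a 1 [] (.d 331 1323 299 1355 459)
 (.a 1 [299] (.d 459 1355 331 1387 491)
 (.a 0 [331,459] (.q 458 (.a 1 [] (.d 365 3406 334 3437 489)
 (.a 1 [334] (.d 489 3437 365 3468 520)
 (.a 0 [365,489] (.q 425 (.a 1 [] (.d 332 3373 301 3404 456)
 (.a 1 [301] (.d 456 3404 332 3435 487)
 (.a 0 [332,456] (.q 426 (.a 1 [] (.d 424 423 423 424 428)
 (.a 1 [423] (.d 428 424 424 425 429)
 (.a 1 [424] (.d 362 1354 330 1386 490)
 .e))))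
 .e))))
 .e))))
 .e))))
 .e)))) (by decide +kernel)

theorem b5_986 : S (PX [466] [389,400,433,532]) := S.of (.q 395 (.a 1 [] (.d 393 392 392 393 397)
 (.a 1 [392] (.d 397 393 393 394 398)
 (.a 0 [393,397] (.q 427 (.a 1 [] (.d 331 1323 299 1355 459)
 (.a 1 [299] (.d 459 1355 331 1387 491)
 (.a 0 [331,459] (.q 429 (.a 1 [] (.d 330 2345 297 2378 462)
 (.a 1 [297] (.d 462 2378 330 2411 495)
 (.a 0 [330,462] (.q 332 (.a 1 [] (.d 301 3342 270 3373 425)
 (.a 1 [270] (.d 425 3373 301 3404 456)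
 (.a 1 [301] (.r 425 3404 456 (.r 428 425 426 (.d 364 1324 300 1356 460)))
 (.a 0 [425] (.q 428 (.a 1 [] (.d 430 426 426 427 431)
 (.a 1 [426] (.d 364 1324 300 1356 460)
 .e)))
 .e)))))
 .e))))
 .e))))
 .e)))) (by decide +kernel)

theorem b5_987 : S (PX [466] [390,400,433,532]) := S.of (.q 395 (.a 1 [] (.d 393 392 392 393 397)
 (.a 1 [392] (.d 397 393 393 394 398)
 (.a 0 [393,397] (.q 427 (.a 1 [] (.d 331 1323 299 1355 459)
 (.a 1 [299] (.d 459 1355 331 1387 491)
 (.a 0 [331,459] (.q 429 (.a 1 [] (.d 330 2345 297 2378 462)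
 (.a 1 [297] (.d 462 2378 330 2411 495)
 (.a 0 [330,462] (.q 332 (.a 1 [] (.d 301 3342 270 3373 425)
 (.a 1 [270] (.d 425 3373 301 3404 456)
 (.a 1 [301] (.r 425 3404 456 (.r 428 425 426 (.d 364 1324 300 1356 460)))
 (.a 0 [425] (.q 428 (.a 1 [] (.d 430 426 426 427 431)
 (.a 1 [426] (.d 364 1324 300 1356 460)
 .e)))
 .e)))))
 .e))))
 .e))))
 .e)))) (by decide +kernel)

theorem b5_988 : S (PX [466] [391,400,433,532]) := S.of (.q 395 (.a 1 [] (.d 393 392 392 393 397)
 (.a 1 [392] (.d 397 393 393 394 398)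
 (.a 0 [393,397] (.q 427 (.a 1 [] (.d 331 1323 299 1355 459)
 (.a 1 [299] (.d 459 1355 331 1387 491)
 (.a 0 [331,459] (.q 429 (.a 1 [] (.d 330 2345 297 2378 462)
 (.a 1 [297] (.d 462 2378 330 2411 495)
 (.a 0 [330,462] (.q 332 (.a 1 [] (.d 301 3342 270 3373 425)
 (.a 1 [270] (.d 425 3373 301 3404 456)
 (.a 1 [301] (.r 425 3404 456 (.r 428 425 426 (.d 364 1324 300 1356 460)))
 (.a 0 [425] (.q 428 (.a 1 [] (.d 430 426 426 427 431)
 (.a 1 [426] (.d 364 1324 300 1356 460)
 .e)))
 .e)))))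
 .e))))
 .e))))
 .e)))) (by decide +kernel)

theorem b5_989 : S (PX [466] [392,400,433,532]) := S.of (.q 330 (.a 1 [] (.d 297 2312 264 2345 429)
 (.a 1 [264] (.d 429 2345 297 2378 462)
 (.a 0 [297,429] (.q 362 (.a 1 [] (.d 298 1290 266 1322 426)
 (.a 1 [266] (.d 426 1322 298 1354 458)
 (.a 0 [298,426] (.q 364 (.a 1 [] (.d 361 360 360 361 365)
 (.a 1 [360] (.d 365 361 361 362 366)
 (.a 0 [361,365] (.q 332 (.a 1 [] (.d 300 1292 268 1324 428)
 (.a 1 [268] (.d 428 1324 300 1356 460)
 (.a 1 [300] (.d 301 3342 270 3373 425)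
 .e))))
 .e))))
 .e))))
 .e)))) (by decide +kernel)

theorem b5_990 : S (PX [466] [393,400,433,532]) := S.of (.q 330 (.a 1 [] (.d 297 2312 264 2345 429)
 (.a 1 [264] (.d 429 2345 297 2378 462)
 (.a 0 [297,429] (.q 425 (.a 1 [] (.d 332 3373 301 3404 456)
 (.a 1 [301] (.d 456 3404 332 3435 487)
 (.a 0 [332] (.q 426 (.a 1 [] (.d 362 1322 298 1354 458)
 (.a 0 [298,362,458] (.q 424 (.a 1 [] (.d 423 422 422 423 427)
 (.a 1 [422] (.d 427 423 423 424 428)
 (.a 0 [423] (.r 456 3435 487 (.q 488 (.a 1 [] (.d 392 1384 360 1416 520)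
 (.a 1 [360] (.d 520 1416 392 1448 552)
 (.a 0 [392,520] (.q 395 (.a 1 [] (.d 457 3436 364 3467 519)
 (.a 1 [364] (.r 427 424 428 (.d 331 1323 299 1355 459))
 .e)))
 .e)))))
 (.a 0 [427] (.r 456 3435 487 (.q 392 (.a 1 [] (.d 360 1352 328 1384 488)
 (.a 1 [328] (.d 488 1384 360 1416 520)
 (.a 1 [360] (.r 423 422 422 (.d 361 3371 299 3402 454))
 .e)))))
 .e)))))
 .e)))
 (.a 0 [456] (.q 362 (.a 1 [] (.d 298 1290 266 1322 426)
 (.a 1 [266] (.d 426 1322 298 1354 458)
 (.a 0 [298,426] (.q 364 (.a 1 [] (.d 361 360 360 361 365)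
 (.a 1 [360] (.d 365 361 361 362 366)
 (.a 1 [361] (.r 332 3373 301 (.d 428 1324 300 1356 460))
 .e))))
 .e))))
 .e)))))
 .e)))) (by decide +kernel)

theorem b5_991 : S (PX [466] [395,400,433,532]) := S.of (.q 330 (.a 1 [] (.d 297 2312 264 2345 429)
 (.a 1 [264] (.d 429 2345 297 2378 462)
 (.a 0 [297,429] (.q 362 (.a 1 [] (.d 298 1290 266 1322 426)
 (.a 1 [266] (.d 426 1322 298 1354 458)
 (.a 0 [298,426] (.q 364 (.a 1 [] (.d 361 360 360 361 365)
 (.a 1 [360] (.d 365 361 361 362 366)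
 (.a 0 [361,365] (.q 332 (.a 1 [] (.d 300 1292 268 1324 428)
 (.a 1 [268] (.d 428 1324 300 1356 460)
 (.a 1 [300] (.d 301 3342 270 3373 425)
 .e))))
 .e))))
 .e))))
 .e)))) (by decide +kernel)

theorem b5_992 : S (PX [466] [397,400,433,532]) := S.of (.q 330 (.a 1 [] (.d 297 2312 264 2345 429)
 (.a 1 [264] (.d 429 2345 297 2378 462)
 (.a 0 [297,429] (.q 425 (.a 1 [] (.d 332 3373 301 3404 456)
 (.a 1 [301] (.d 456 3404 332 3435 487)
 (.a 0 [332,456] (.q 426 (.a 1 [] (.d 362 1322 298 1354 458)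
 (.a 0 [298,362,458] (.q 423 (.a 1 [] (.d 424 422 422 423 427)
 (.a 0 [422,424,427] (.q 392 (.a 1 [] (.d 361 3371 299 3402 454)
 (.a 1 [299] (.r 393 392 395 (.r 361 3402 454 (.d 457 1353 329 1385 489)))
 (.a 1 [454] (.r 393 392 395 (.r 361 3371 299 (.d 457 1353 329 1385 489)))
 (.a 0 [361] (.r 393 392 395 (.q 327 (.a 1 [] (.d 360 2342 294 2375 459)
 (.a 1 [294] (.r 391 390 390 (.d 359 1319 295 1351 455))
 .e))))
 .e)))))
 .e)))
 .e)))
 .e))))
 .e)))) (by decide +kernel)

theorem b5_993 : S (PX [466] [398,400,433,532]) := S.of (.q 330 (.a 1 [] (.d 297 2312 264 2345 429)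
 (.a 1 [264] (.d 429 2345 297 2378 462)
 (.a 0 [297,429] (.q 362 (.a 1 [] (.d 298 1290 266 1322 426)
 (.a 1 [266] (.d 426 1322 298 1354 458)
 (.a 0 [298,426] (.q 361 (.a 1 [] (.d 360 359 359 360 364)
 (.a 1 [359] (.d 364 360 360 361 365)
 (.a 0 [360,364] (.q 425 (.a 1 [] (.d 332 3373 301 3404 456)
 (.a 1 [301] (.d 456 3404 332 3435 487)
 (.a 0 [332,456] (.q 393 (.a 1 [] (.d 395 392 392 393 397)
 (.a 1 [392] (.d 457 1353 329 1385 489)
 .e)))
 .e))))
 .e))))
 .e))))
 .e)))) (by decide +kernel)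

theorem b5_994 : S (PX [466] [399,400,433,532]) := S.of (.q 330 (.a 1 [] (.d 297 2312 264 2345 429)
 (.a 1 [264] (.d 429 2345 297 2378 462)
 (.a 0 [297,429] (.q 362 (.a 1 [] (.d 298 1290 266 1322 426)
 (.a 1 [266] (.d 426 1322 298 1354 458)
 (.a 0 [298,426] (.q 361 (.a 1 [] (.d 360 359 359 360 364)
 (.a 1 [359] (.d 364 360 360 361 365)
 (.a 0 [360,364] (.q 427 (.a 1 [] (.d 328 2343 295 2376 460)
 (.a 1 [295] (.d 460 2376 328 2409 493)
 (.a 0 [328,460] (.q 395 (.a 1 [] (.d 393 392 392 393 397)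
 (.a 1 [392] (.d 397 393 393 394 398)
 (.a 1 [393] (.d 331 1323 299 1355 459)
 .e))))
 .e))))
 .e))))
 .e))))
 .e)))) (by decide +kernel)

theorem b5_995 : S (PX [466] [400,401,433,532]) := S.of (.q 330 (.a 1 [] (.d 297 2312 264 2345 429)
 (.a 1 [264] (.d 429 2345 297 2378 462)
 (.a 0 [297,429] (.q 362 (.a 1 [] (.d 298 1290 266 1322 426)
 (.a 1 [266] (.d 426 1322 298 1354 458)
 (.a 0 [298,426] (.q 361 (.a 1 [] (.d 360 359 359 360 364)
 (.a 1 [359] (.d 364 360 360 361 365)
 (.a 0 [360,364] (.q 427 (.a 1 [] (.d 328 2343 295 2376 460)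
 (.a 1 [295] (.d 460 2376 328 2409 493)
 (.a 0 [328,460] (.q 395 (.a 1 [] (.d 393 392 392 393 397)
 (.a 1 [392] (.d 397 393 393 394 398)
 (.a 1 [393] (.d 331 1323 299 1355 459)
 .e))))
 .e))))
 .e))))
 .e))))
 .e)))) (by decide +kernel)

theorem b5_996 : S (PX [466] [400,425,433,532]) := S.of (.q 395 (.a 1 [] (.d 393 392 392 393 397)
 (.a 1 [392] (.d 397 393 393 394 398)
 (.a 0 [393,397] (.q 427 (.a 1 [] (.d 331 1323 299 1355 459)
 (.a 1 [299] (.d 459 1355 331 1387 491)
 (.a 0 [331,459] (.q 361 (.a 1 [] (.d 328 2343 295 2376 460)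
 (.a 1 [295] (.d 460 2376 328 2409 493)
 (.a 0 [328,460] (.q 330 (.a 1 [] (.d 297 2312 264 2345 429)
 (.a 1 [264] (.d 429 2345 297 2378 462)
 (.a 0 [297,429] (.q 362 (.a 1 [] (.d 360 359 359 360 364)
 (.a 1 [359] (.d 364 360 360 361 365)
 (.a 1 [360] (.d 298 1290 266 1322 426)
 .e))))
 .e))))
 .e))))
 .e))))
 .e)))) (by decide +kernel)

theorem b5_997 : S (PX [466] [400,426,433,532]) := S.of (.q 425 (.a 1 [] (.d 332 3373 301 3404 456)
 (.a 1 [301] (.d 456 3404 332 3435 487)
 (.a 0 [332,456] (.q 393 (.a 1 [] (.d 395 392 392 393 397)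
 (.a 0 [392,395,397] (.q 361 (.a 1 [] (.d 329 1321 297 1353 457)
 (.a 1 [297] (.d 457 1353 329 1385 489)
 (.a 1 [457] (.r 297 1321 329 (.d 330 2312 264 2345 429))
 (.a 0 [329] (.q 427 (.a 1 [] (.d 328 2343 295 2376 460)
 (.a 1 [295] (.d 460 2376 328 2409 493)
 (.a 1 [328] (.r 489 1385 457 (.d 458 3437 365 3468 520))
 .e))))
 .e)))))
 .e)))
 .e)))) (by decide +kernel)

theorem b5_998 : S (PX [466] [400,427,433,532]) := S.of (.q 330 (.a 1 [] (.d 297 2312 264 2345 429)
 (.a 1 [264] (.d 429 2345 297 2378 462)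
 (.a 0 [297,429] (.q 425 (.a 1 [] (.d 332 3373 301 3404 456)
 (.a 1 [301] (.d 456 3404 332 3435 487)
 (.a 0 [332,456] (.q 393 (.a 1 [] (.d 395 392 392 393 397)
 (.a 0 [392,395,397] (.q 361 (.a 1 [] (.d 457 1353 329 1385 489)
 (.a 0 [329,457,489] (.q 362 (.a 1 [] (.d 360 359 359 360 364)
 (.a 1 [359] (.d 364 360 360 361 365)
 (.a 1 [360] (.d 298 1290 266 1322 426)
 .e))))
 .e)))
 .e)))
 .e))))
 .e)))) (by decide +kernel)

theorem b5_999 : S (PX [466] [400,428,433,532]) := S.of (.q 395 (.a 1 [] (.d 393 392 392 393 397)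
 (.a 1 [392] (.d 397 393 393 394 398)
 (.a 0 [393,397] (.q 330 (.a 1 [] (.d 297 2312 264 2345 429)
 (.a 1 [264] (.d 429 2345 297 2378 462)
 (.a 0 [297,429] (.q 426 (.a 1 [] (.d 362 1322 298 1354 458)
 (.a 0 [298,362,458] (.q 333 (.a 1 [] (.d 364 3374 302 3405 457)
 (.a 0 [302,364,457] (.q 331 (.a 1 [] (.d 332 329 329 330 334)
 (.a 1 [329] (.d 427 1323 299 1355 459)
 .e)))
 .e)))
 .e)))
 .e))))
 .e)))) (by decide +kernel)

theorem b5_1000 : S (PX [466] [400,429,433,532]) := S.of (.q 395 (.a 1 [] (.d 393 392 392 393 397)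
 (.a 1 [392] (.d 397 393 393 394 398)
 (.a 0 [393,397] (.q 427 (.a 1 [] (.d 331 1323 299 1355 459)
 (.a 1 [299] (.d 459 1355 331 1387 491)
 (.a 0 [331,459] (.q 365 (.a 1 [] (.d 334 3375 303 3406 458)
 (.a 1 [303] (.d 458 3406 334 3437 489)
 (.a 0 [334] (.q 362 (.a 1 [] (.d 364 361 361 362 366)
 (.a 1 [361] (.r 458 3437 489 (.d 426 1354 330 1386 490))
 (.a 0 [301] (.q 367 (.a 1 [] (.d 364 361 361 362 366)
 (.a 1 [361] (.r 458 3437 489 (.d 426 1354 330 1386 490))
 .e)))
 (.a 0 [367] (.q 301 (.a 1 [] (.d 364 361 361 362 366)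
 (.a 1 [361] (.d 332 3342 270 3373 425)
 .e)))
 .e)))))
 (.a 0 [458] (.q 460 (.a 1 [] (.d 361 2376 328 2409 493)
 (.a 1 [328] (.d 493 2409 361 2442 526)
 (.a 1 [493] (.r 361 2376 328 (.r 364 361 362 (.d 428 1356 332 1388 492)))
 (.a 0 [361] (.q 364 (.a 1 [] (.d 366 362 362 363 367)
 (.a 1 [362] (.d 428 1356 332 1388 492)
 .e)))
 .e)))))
 .e)))))
 .e))))
 .e)))) (by decide +kernel)

theorem b5_1001 : S (PX [466] [400,430,433,532]) := S.of (.q 425 (.a 1 [] (.d 332 3373 301 3404 456)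
 (.a 1 [301] (.d 456 3404 332 3435 487)
 (.a 0 [332,456] (.q 393 (.a 1 [] (.d 395 392 392 393 397)
 (.a 0 [392,395,397] (.q 361 (.a 1 [] (.d 329 1321 297 1353 457)
 (.a 1 [297] (.d 457 1353 329 1385 489)
 (.a 1 [457] (.r 297 1321 329 (.d 330 2312 264 2345 429))
 (.a 0 [329] (.q 427 (.a 1 [] (.d 328 2343 295 2376 460)
 (.a 1 [295] (.d 460 2376 328 2409 493)
 (.a 1 [328] (.r 489 1385 457 (.d 458 3437 365 3468 520))
 .e))))
 .e)))))
 .e)))
 .e)))) (by decide +kernel)

theorem b5_1002 : S (PX [466] [400,431,433,532]) := S.of (.q 395 (.a 1 [] (.d 393 392 392 393 397)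
 (.a 1 [392] (.d 397 393 393 394 398)
 (.a 0 [393,397] (.q 427 (.a 1 [] (.d 331 1323 299 1355 459)
 (.a 1 [299] (.d 459 1355 331 1387 491)
 (.a 0 [331,459] (.q 458 (.a 1 [] (.d 365 3406 334 3437 489)
 (.a 1 [334] (.d 489 3437 365 3468 520)
 (.a 0 [365,489] (.q 429 (.a 1 [] (.d 330 2345 297 2378 462)
 (.a 1 [297] (.d 462 2378 330 2411 495)
 (.a 1 [462] (.r 330 2345 297 (.r 426 1354 362 (.d 428 425 425 426 430)))
 (.a 0 [330] (.q 426 (.a 1 [] (.d 428 425 425 426 430)
 (.a 1 [425] (.d 490 1386 362 1418 522)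
 .e)))
 .e)))))
 .e))))
 .e))))
 .e)))) (by decide +kernel)

theorem b5_1003 : S (PX [466] [400,433,457,532]) := S.of (.q 395 (.a 1 [] (.d 393 392 392 393 397)
 (.a 1 [392] (.d 397 393 393 394 398)
 (.a 0 [393,397] (.q 427 (.a 1 [] (.d 331 1323 299 1355 459)
 (.a 1 [299] (.d 459 1355 331 1387 491)
 (.a 0 [331,459] (.q 425 (.a 1 [] (.d 332 3373 301 3404 456)
 (.a 1 [301] (.d 456 3404 332 3435 487)
 (.a 0 [332,456] (.q 458 (.a 1 [] (.d 365 3406 334 3437 489)
 (.a 1 [334] (.d 489 3437 365 3468 520)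
 (.a 0 [365,489] (.q 426 (.a 1 [] (.d 424 423 423 424 428)
 (.a 1 [423] (.d 428 424 424 425 429)
 (.a 1 [424] (.d 362 1354 330 1386 490)
 .e))))
 .e))))
 .e))))
 .e))))
 .e)))) (by decide +kernel)

theorem b5_1004 : S (PX [466] [400,433,460,532]) := S.of (.q 395 (.a 1 [] (.d 393 392 392 393 397)
 (.a 1 [392] (.d 397 393 393 394 398)
 (.a 0 [393,397] (.q 427 (.a 1 [] (.d 331 1323 299 1355 459)
 (.a 1 [299] (.d 459 1355 331 1387 491)
 (.a 0 [331,459] (.q 458 (.a 1 [] (.d 365 3406 334 3437 489)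
 (.a 1 [334] (.d 489 3437 365 3468 520)
 (.a 0 [365,489] (.q 425 (.a 1 [] (.d 332 3373 301 3404 456)
 (.a 1 [301] (.d 456 3404 332 3435 487)
 (.a 0 [332,456] (.q 426 (.a 1 [] (.d 424 423 423 424 428)
 (.a 1 [423] (.d 428 424 424 425 429)
 (.a 1 [424] (.d 362 1354 330 1386 490)
 .e))))
 .e))))
 .e))))
 .e))))
 .e)))) (by decide +kernel)

theorem b5_1005 : S (PX [466] [400,433,461,532]) := S.of (.q 395 (.a 1 [] (.d 393 392 392 393 397)
 (.a 1 [392] (.d 397 393 393 394 398)
 (.a 0 [393,397] (.q 427 (.a 1 [] (.d 331 1323 299 1355 459)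
 (.a 1 [299] (.d 459 1355 331 1387 491)
 (.a 0 [331,459] (.q 458 (.a 1 [] (.d 365 3406 334 3437 489)
 (.a 1 [334] (.d 489 3437 365 3468 520)
 (.a 0 [365,489] (.q 429 (.a 1 [] (.d 330 2345 297 2378 462)
 (.a 1 [297] (.d 462 2378 330 2411 495)
 (.a 1 [462] (.r 330 2345 297 (.r 426 1354 362 (.d 428 425 425 426 430)))
 (.a 0 [330] (.q 426 (.a 1 [] (.d 428 425 425 426 430)
 (.a 1 [425] (.d 490 1386 362 1418 522)
 .e)))
 .e)))))
 .e))))
 .e))))
 .e)))) (by decide +kernel)

theorem b5_1006 : S (PX [466] [400,433,462,532]) := S.of (.q 395 (.a 1 [] (.d 393 392 392 393 397)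
 (.a 1 [392] (.d 397 393 393 394 398)
 (.a 0 [393,397] (.q 427 (.a 1 [] (.d 331 1323 299 1355 459)
 (.a 1 [299] (.d 459 1355 331 1387 491)
 (.a 0 [331,459] (.q 458 (.a 1 [] (.d 365 3406 334 3437 489)
 (.a 1 [334] (.d 489 3437 365 3468 520)
 (.a 0 [365,489] (.q 425 (.a 1 [] (.d 332 3373 301 3404 456)
 (.a 1 [301] (.d 456 3404 332 3435 487)
 (.a 0 [332,456] (.q 426 (.a 1 [] (.d 424 423 423 424 428)
 (.a 1 [423] (.d 428 424 424 425 429)
 (.a 1 [424] (.d 362 1354 330 1386 490)
 .e))))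
 .e))))
 .e))))
 .e))))
 .e)))) (by decide +kernel)

theorem b5_1007 : S (PX [466] [400,433,464,532]) := S.of (.q 395 (.a 1 [] (.d 393 392 392 393 397)
 (.a 1 [392] (.d 397 393 393 394 398)
 (.a 0 [393,397] (.q 427 (.a 1 [] (.d 331 1323 299 1355 459)
 (.a 1 [299] (.d 459 1355 331 1387 491)
 (.a 0 [331,459] (.q 429 (.a 1 [] (.d 330 2345 297 2378 462)
 (.a 1 [297] (.d 462 2378 330 2411 495)
 (.a 0 [330,462] (.q 332 (.a 1 [] (.d 301 3342 270 3373 425)
 (.a 1 [270] (.d 425 3373 301 3404 456)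
 (.a 1 [301] (.r 425 3404 456 (.r 428 425 426 (.d 364 1324 300 1356 460)))
 (.a 0 [425] (.q 428 (.a 1 [] (.d 430 426 426 427 431)
 (.a 1 [426] (.d 364 1324 300 1356 460)
 .e)))
 .e)))))
 .e))))
 .e))))
 .e)))) (by decide +kernel)

theorem b5_1008 : S (PX [466] [400,433,489,532]) := S.of (.q 395 (.a 1 [] (.d 393 392 392 393 397)
 (.a 1 [392] (.d 397 393 393 394 398)
 (.a 0 [393,397] (.q 427 (.a 1 [] (.d 331 1323 299 1355 459)
 (.a 1 [299] (.d 459 1355 331 1387 491)
 (.a 0 [331,459] (.q 425 (.a 1 [] (.d 332 3373 301 3404 456)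
 (.a 1 [301] (.d 456 3404 332 3435 487)
 (.a 0 [332,456] (.q 330 (.a 1 [] (.d 297 2312 264 2345 429)
 (.a 1 [264] (.d 429 2345 297 2378 462)
 (.a 1 [297] (.r 429 2378 462 (.r 426 425 428 (.d 362 1322 298 1354 458)))
 (.a 0 [429] (.q 426 (.a 1 [] (.d 424 423 423 424 428)
 (.a 1 [423] (.d 362 1322 298 1354 458)
 .e)))
 .e)))))
 .e))))
 .e))))
 .e)))) (by decide +kernel)

theorem b5_1009 : S (PX [466] [400,433,491,532]) := S.of (.q 395 (.a 1 [] (.d 393 392 392 393 397)
 (.a 1 [392] (.d 397 393 393 394 398)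
 (.a 0 [393,397] (.q 429 (.a 1 [] (.d 330 2345 297 2378 462)
 (.a 1 [297] (.d 462 2378 330 2411 495)
 (.a 0 [330,462] (.q 427 (.a 1 [] (.d 331 1323 299 1355 459)
 (.a 0 [299,331,459] (.q 332 (.a 1 [] (.d 301 3342 270 3373 425)
 (.a 1 [270] (.d 425 3373 301 3404 456)
 (.a 1 [301] (.r 425 3404 456 (.r 428 425 426 (.d 364 1324 300 1356 460)))
 (.a 0 [425] (.q 428 (.a 1 [] (.d 430 426 426 427 431)
 (.a 1 [426] (.d 364 1324 300 1356 460)
 .e)))
 .e)))))
 .e)))
 .e))))
 .e)))) (by decide +kernel)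

theorem b5_1010 : S (PX [466] [400,433,496,532]) := S.of (.q 395 (.a 1 [] (.d 393 392 392 393 397)
 (.a 1 [392] (.d 397 393 393 394 398)
 (.a 0 [393,397] (.q 427 (.a 1 [] (.d 331 1323 299 1355 459)
 (.a 1 [299] (.d 459 1355 331 1387 491)
 (.a 0 [331,459] (.q 429 (.a 1 [] (.d 330 2345 297 2378 462)
 (.a 1 [297] (.d 462 2378 330 2411 495)
 (.a 0 [330,462] (.q 332 (.a 1 [] (.d 301 3342 270 3373 425)
 (.a 1 [270] (.d 425 3373 301 3404 456)
 (.a 1 [301] (.r 425 3404 456 (.r 428 425 426 (.d 364 1324 300 1356 460)))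
 (.a 0 [425] (.q 428 (.a 1 [] (.d 430 426 426 427 431)
 (.a 1 [426] (.d 364 1324 300 1356 460)
 .e)))
 .e)))))
 .e))))
 .e))))
 .e)))) (by decide +kernel)

theorem b5_1011 : S (PX [466] [400,433,521,532]) := S.of (.q 395 (.a 1 [] (.d 393 392 392 393 397)
 (.a 1 [392] (.d 397 393 393 394 398)
 (.a 0 [393,397] (.q 425 (.a 1 [] (.d 332 3373 301 3404 456)
 (.a 1 [301] (.d 456 3404 332 3435 487)
 (.a 0 [332,456] (.q 330 (.a 1 [] (.d 297 2312 264 2345 429)
 (.a 1 [264] (.d 429 2345 297 2378 462)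
 (.a 0 [297,429] (.q 426 (.a 1 [] (.d 362 1322 298 1354 458)
 (.a 0 [298,362,458] (.q 427 (.a 1 [] (.d 424 423 423 424 428)
 (.a 1 [423] (.d 459 1355 331 1387 491)
 .e)))
 .e)))
 .e))))
 .e))))
 .e)))) (by decide +kernel)

theorem b5_1012 : S (PX [466] [400,433,525,532]) := S.of (.q 330 (.a 1 [] (.d 297 2312 264 2345 429)
 (.a 1 [264] (.d 429 2345 297 2378 462)
 (.a 0 [297,429] (.q 362 (.a 1 [] (.d 298 1290 266 1322 426)
 (.a 1 [266] (.d 426 1322 298 1354 458)
 (.a 0 [298,426] (.q 361 (.a 1 [] (.d 360 359 359 360 364)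
 (.a 1 [359] (.d 364 360 360 361 365)
 (.a 0 [360,364] (.q 427 (.a 1 [] (.d 328 2343 295 2376 460)
 (.a 1 [295] (.d 460 2376 328 2409 493)
 (.a 0 [328,460] (.q 395 (.a 1 [] (.d 393 392 392 393 397)
 (.a 1 [392] (.d 397 393 393 394 398)
 (.a 1 [393] (.d 331 1323 299 1355 459)
 .e))))
 .e))))
 .e))))
 .e))))
 .e)))) (by decide +kernel)

theorem b5_1065 : S (PX [433] [268,400,466,532]) := S.of (.q 395 (.a 1 [] (.d 393 392 392 393 397)
 (.a 1 [392] (.d 397 393 393 394 398)
 (.a 0 [393,397] (.q 427 (.a 1 [] (.d 331 1323 299 1355 459)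
 (.a 1 [299] (.d 459 1355 331 1387 491)
 (.a 0 [331,459] (.q 330 (.a 1 [] (.d 297 2312 264 2345 429)
 (.a 1 [264] (.d 429 2345 297 2378 462)
 (.a 0 [297,429] (.q 361 (.a 1 [] (.d 328 2343 295 2376 460)
 (.a 1 [295] (.d 460 2376 328 2409 493)
 (.a 0 [328,460] (.q 362 (.a 1 [] (.d 360 359 359 360 364)
 (.a 1 [359] (.d 364 360 360 361 365)
 (.a 1 [360] (.d 298 1290 266 1322 426)
 .e))))
 .e))))
 .e))))
 .e))))
 .e)))) (by decide +kernel)

theorem b5_1066 : S (PX [433] [400,401,466,532]) := S.of (.q 330 (.a 1 [] (.d 297 2312 264 2345 429)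
 (.a 1 [264] (.d 429 2345 297 2378 462)
 (.a 0 [297,429] (.q 362 (.a 1 [] (.d 298 1290 266 1322 426)
 (.a 1 [266] (.d 426 1322 298 1354 458)
 (.a 0 [298,426] (.q 361 (.a 1 [] (.d 360 359 359 360 364)
 (.a 1 [359] (.d 364 360 360 361 365)
 (.a 0 [360,364] (.q 427 (.a 1 [] (.d 328 2343 295 2376 460)
 (.a 1 [295] (.d 460 2376 328 2409 493)
 (.a 0 [328,460] (.q 395 (.a 1 [] (.d 393 392 392 393 397)
 (.a 1 [392] (.d 397 393 393 394 398)
 (.a 1 [393] (.d 331 1323 299 1355 459)
 .e))))
 .e))))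
 .e))))
 .e))))
 .e)))) (by decide +kernel)

theorem v5_1050 : VW (PX [466] [400,433,532]) := VW.of base nl_ok fl_ok .nil
  []
  (([236], (PX [466] [236,400,433,532])) :: ([264], (PX [466] [264,400,433,532])) :: ([265], (PX [466] [265,400,433,532])) :: ([268], (PX [466] [268,400,433,532])) :: ([293], (PX [466] [293,400,433,532])) :: ([296], (PX [466] [296,400,433,532])) :: ([298], (PX [466] [298,400,433,532])) :: ([301], (PX [466] [301,400,433,532])) :: ([326], (PX [466] [326,400,433,532])) :: ([327], (PX [466] [327,400,433,532])) :: ([330], (PX [466] [330,400,433,532])) :: ([331], (PX [466] [331,400,433,532])) :: ([334], (PX [466] [334,400,433,532])) :: ([335], (PX [466] [335,400,433,532])) :: ([359], (PX [466] [359,400,433,532])) :: ([360], (PX [466] [360,400,433,532])) :: ([361], (PX [466] [361,400,433,532])) :: ([365], (PX [466] [365,400,433,532])) :: ([366], (PX [466] [366,400,433,532])) :: ([367], (PX [466] [367,400,433,532])) :: ([369], (PX [466] [369,400,433,532]))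 :: ([389], (PX [466] [389,400,433,532])) :: ([390], (PX [466] [390,400,433,532])) :: ([391], (PX [466] [391,400,433,532])) :: ([392], (PX [466] [392,400,433,532])) :: ([393], (PX [466] [393,400,433,532])) :: ([395], (PX [466] [395,400,433,532])) :: ([397], (PX [466] [397,400,433,532])) :: ([398], (PX [466] [398,400,433,532])) :: ([399], (PX [466] [399,400,433,532])) :: ([401], (PX [466] [400,401,433,532])) :: ([425], (PX [466] [400,425,433,532])) :: ([426], (PX [466] [400,426,433,532])) :: ([427], (PX [466] [400,427,433,532])) :: ([428], (PX [466] [400,428,433,532])) :: ([429], (PX [466] [400,429,433,532])) :: ([430], (PX [466] [400,430,433,532])) :: ([431], (PX [466] [400,431,433,532])) :: ([457], (PX [466] [400,433,457,532])) :: ([460], (PX [466] [400,433,460,532])) :: ([461], (PX [466] [400,433,461,532])) :: ([462], (PX [466] [400,433,462,532])) :: ([464], (PX [466] [400,433,464,532])) :: ([489], (PX [466] [400,433,489,532])) :: ([491], (PX [466] [400,433,491,532]))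 :: ([496], (PX [466] [400,433,496,532])) :: ([521], (PX [466] [400,433,521,532])) :: ([525], (PX [466] [400,433,525,532])) :: [])
  (by decide +kernel) ⟨b5_958, b5_959, b5_960, b5_961, b5_962, b5_963, b5_964, b5_972, b5_973, b5_974, b5_975, b5_976, b5_977, b5_978, b5_979, b5_980, b5_981, b5_982, b5_983, b5_984, b5_985, b5_986, b5_987, b5_988, b5_989, b5_990, b5_991, b5_992, b5_993, b5_994, b5_995, b5_996, b5_997, b5_998, b5_999, b5_1000, b5_1001, b5_1002, b5_1003, b5_1004, b5_1005, b5_1006, b5_1007, b5_1008, b5_1009, b5_1010, b5_1011, b5_1012, trivial⟩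

theorem v5_1056 : VW (PX [433] [400,466,532]) := VW.of base nl_ok fl_ok .nil
  [(499, (.cons 565 598 .nil (.cons 598 565 .nil .nil))), (565, (.cons 499 598 .nil (.cons 598 499 (.cons 631 664 .nil (.cons 664 631 .nil .nil)) .nil))), (598, (.cons 499 565 .nil (.cons 565 499 (.cons 631 664 .nil (.cons 664 631 .nil .nil)) .nil)))]
  [([268], (PX [433] [268,400,466,532])), ([401], (PX [433] [400,401,466,532]))]
  (by decide +kernel) ⟨b5_1065, b5_1066, trivial⟩

theorem w5_1060_433 : S (PX [] [400,433,532]) := VW.play 466 (PX [466] [400,433,532]) (by decide +kernel) v5_1050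

theorem w5_1060_466 : S (PX [] [400,466,532]) := VW.play 433 (PX [433] [400,466,532]) (by decide +kernel) v5_1056

theorem v5_1060 : VW (PX [] [400,532]) := VW.of base nl_ok fl_ok .nil
  [(499, (.cons 433 466 .nil (.cons 466 433 (.cons 565 598 .nil (.cons 598 565 .nil .nil)) .nil)))]
  [([268], (PX [] [268,400,532])), ([401], (PX [] [400,401,532])), ([433], (PX [] [400,433,532])), ([466], (PX [] [400,466,532]))]
  (by decide +kernel) ⟨b5_956, b5_957, w5_1060_433, w5_1060_466, trivial⟩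

theorem v5_1061 : VW (PX [] [404,532]) := VW.of base nl_ok fl_ok .nil
  [(436, (.cons 468 500 (.cons 340 372 .nil (.cons 372 340 .nil .nil)) (.cons 500 468 .nil .nil))), (468, (.cons 436 500 (.cons 340 372 .nil (.cons 372 340 .nil .nil)) (.cons 500 436 (.cons 564 596 .nil (.cons 596 564 .nil .nil)) .nil))), (500, (.cons 436 468 .nil (.cons 468 436 (.cons 564 596 .nil (.cons 596 564 .nil .nil)) .nil)))]
  []
  (by decide +kernel) trivial

theorem v5_1062 : VW (PX [] [408,532]) := VW.of base nl_ok fl_ok .nil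
  [(439, (.cons 470 501 (.cons 346 377 .nil (.cons 377 346 .nil .nil)) (.cons 501 470 .nil .nil))), (470, (.cons 439 501 (.cons 346 377 .nil (.cons 377 346 .nil .nil)) (.cons 501 439 (.cons 563 594 .nil (.cons 594 563 .nil .nil)) .nil))), (501, (.cons 439 470 .nil (.cons 470 439 (.cons 563 594 .nil (.cons 594 563 .nil .nil)) .nil)))]
  []
  (by decide +kernel) trivial

theorem v5_1063 : VW (PX [400,565] [433,466,499,532]) := VW.of base nl_ok fl_ok .nil
  []
  []
  (by decide +kernel) trivial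

theorem v5_1064 : VW (PX [400,499] [433,466,532,565]) := VW.of base nl_ok fl_ok .nil
  [(598, (.cons 631 664 .nil (.cons 664 631 .nil .nil))), (631, (.cons 598 664 .nil (.cons 664 598 .nil .nil))), (664, (.cons 598 631 .nil (.cons 631 598 .nil .nil)))]
  []
  (by decide +kernel) trivial

theorem w5_1065_499 : S (PX [400] [433,466,499,532]) := VW.play 565 (PX [400,565] [433,466,499,532]) (by decide +kernel) v5_1063

theorem w5_1065_565 : S (PX [400] [433,466,532,565]) := VW.play 499 (PX [400,499] [433,466,532,565]) (by decide +kernel) v5_1064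

theorem v5_1065 : VW (PX [400] [433,466,532]) := VW.of base nl_ok fl_ok (.cons 499 565 .nil (.cons 565 499 .nil .nil))
  [(598, (.cons 499 565 .nil (.cons 565 499 (.cons 631 664 .nil (.cons 664 631 .nil .nil)) .nil))), (631, (.cons 499 565 .nil (.cons 565 499 (.cons 598 664 .nil (.cons 664 598 .nil .nil)) .nil))), (664, (.cons 499 565 .nil (.cons 565 499 (.cons 598 631 .nil (.cons 631 598 .nil .nil)) .nil)))]
  [([499], (PX [400] [433,466,499,532])), ([565], (PX [400] [433,466,532,565]))]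
  (by decide +kernel) ⟨w5_1065_499, w5_1065_565, trivial⟩

theorem v5_1085 : VW (PX [466] [433,499,532]) := VW.of base nl_ok fl_ok .nil
  [(565, (.cons 598 631 .nil (.cons 631 598 .nil .nil))), (598, (.cons 565 631 .nil (.cons 631 565 .nil .nil))), (631, (.cons 565 598 .nil (.cons 598 565 .nil .nil)))]
  []
  (by decide +kernel) trivial

theorem w5_1086_400 : S (PX [] [400,433,532]) := VW.play 466 (PX [466] [400,433,532]) (by decide +kernel) v5_1050

theorem w5_1086_466 : S (PX [] [433,466,532]) := VW.play 400 (PX [400] [433,466,532]) (by decide +kernel) v5_1065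

theorem w5_1086_499 : S (PX [] [433,499,532]) := VW.play 466 (PX [466] [433,499,532]) (by decide +kernel) v5_1085

theorem v5_1086 : VW (PX [] [433,532]) := VW.of base nl_ok fl_ok .nil
  [(565, (.cons 466 499 .nil (.cons 499 466 (.cons 598 631 .nil (.cons 631 598 .nil .nil)) .nil)))]
  [([400], (PX [] [400,433,532])), ([466], (PX [] [433,466,532])), ([499], (PX [] [433,499,532]))]
  (by decide +kernel) ⟨w5_1086_400, w5_1086_466, w5_1086_499, trivial⟩

theorem v5_321 : VW (PX [500] [436,468,532]) := VW.of base nl_ok fl_ok .nil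
  [(340, (.cons 372 404 .nil (.cons 404 372 .nil .nil))), (372, (.cons 340 404 .nil (.cons 404 340 .nil .nil))), (404, (.cons 340 372 .nil (.cons 372 340 .nil .nil)))]
  []
  (by decide +kernel) trivial

theorem v5_361 : VW (PX [468] [436,500,532]) := VW.of base nl_ok fl_ok .nil
  [(564, (.cons 596 628 .nil (.cons 628 596 .nil .nil))), (596, (.cons 564 628 .nil (.cons 628 564 .nil .nil))), (628, (.cons 564 596 .nil (.cons 596 564 .nil .nil)))]
  []
  (by decide +kernel) trivial

theorem w5_368_468 : S (PX [] [436,468,532]) := VW.play 500 (PX [500] [436,468,532]) (by decide +kernel) v5_321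

theorem w5_368_500 : S (PX [] [436,500,532]) := VW.play 468 (PX [468] [436,500,532]) (by decide +kernel) v5_361

theorem v5_368 : VW (PX [] [436,532]) := VW.of base nl_ok fl_ok .nil
  [(404, (.cons 468 500 (.cons 340 372 .nil (.cons 372 340 .nil .nil)) (.cons 500 468 .nil .nil))), (564, (.cons 468 500 .nil (.cons 500 468 (.cons 596 628 .nil (.cons 628 596 .nil .nil)) .nil)))]
  [([468], (PX [] [436,468,532])), ([500], (PX [] [436,500,532]))]
  (by decide +kernel) ⟨w5_368_468, w5_368_500, trivial⟩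

theorem v5_1090 : VW (PX [501] [439,470,532]) := VW.of base nl_ok fl_ok .nil
  [(346, (.cons 377 408 .nil (.cons 408 377 .nil .nil))), (377, (.cons 346 408 .nil (.cons 408 346 .nil .nil))), (408, (.cons 346 377 .nil (.cons 377 346 .nil .nil)))]
  []
  (by decide +kernel) trivial

theorem v5_1105 : VW (PX [470] [439,501,532]) := VW.of base nl_ok fl_ok .nil
  [(563, (.cons 594 625 .nil (.cons 625 594 .nil .nil))), (594, (.cons 563 625 .nil (.cons 625 563 .nil .nil))), (625, (.cons 563 594 .nil (.cons 594 563 .nil .nil)))]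
  []
  (by decide +kernel) trivial

theorem w5_1108_470 : S (PX [] [439,470,532]) := VW.play 501 (PX [501] [439,470,532]) (by decide +kernel) v5_1090

theorem w5_1108_501 : S (PX [] [439,501,532]) := VW.play 470 (PX [470] [439,501,532]) (by decide +kernel) v5_1105

theorem v5_1108 : VW (PX [] [439,532]) := VW.of base nl_ok fl_ok .nil
  [(408, (.cons 470 501 (.cons 346 377 .nil (.cons 377 346 .nil .nil)) (.cons 501 470 .nil .nil))), (563, (.cons 470 501 .nil (.cons 501 470 (.cons 594 625 .nil (.cons 625 594 .nil .nil)) .nil)))]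
  [([470], (PX [] [439,470,532])), ([501], (PX [] [439,501,532]))]
  (by decide +kernel) ⟨w5_1108_470, w5_1108_501, trivial⟩

theorem v5_1109 : VW (PX [433,598] [466,499,532,565]) := VW.of base nl_ok fl_ok .nil
  []
  []
  (by decide +kernel) trivial

theorem v5_1110 : VW (PX [433,565] [466,499,532,598]) := VW.of base nl_ok fl_ok .nil
  []
  []
  (by decide +kernel) trivial

theorem w5_1111_565 : S (PX [433] [466,499,532,565]) := VW.play 598 (PX [433,598] [466,499,532,565]) (by decide +kernel) v5_1109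

theorem w5_1111_598 : S (PX [433] [466,499,532,598]) := VW.play 565 (PX [433,565] [466,499,532,598]) (by decide +kernel) v5_1110

theorem v5_1111 : VW (PX [433] [466,499,532]) := VW.of base nl_ok fl_ok (.cons 565 598 .nil (.cons 598 565 .nil .nil))
  [(631, (.cons 565 598 .nil (.cons 598 565 .nil .nil))), (664, (.cons 565 598 .nil (.cons 598 565 .nil .nil))), (697, (.cons 565 598 .nil (.cons 598 565 .nil .nil)))]
  [([565], (PX [433] [466,499,532,565])), ([598], (PX [433] [466,499,532,598]))]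
  (by decide +kernel) ⟨w5_1111_565, w5_1111_598, trivial⟩

theorem v5_1126 : VW (PX [499] [466,532,565]) := VW.of base nl_ok fl_ok .nil
  [(598, (.cons 631 664 .nil (.cons 664 631 .nil .nil))), (631, (.cons 598 664 .nil (.cons 664 598 .nil .nil))), (664, (.cons 598 631 .nil (.cons 631 598 .nil .nil)))]
  []
  (by decide +kernel) trivial

theorem v5_1127 : VW (PX [499] [466,532,598]) := VW.of base nl_ok fl_ok .nil
  [(565, (.cons 631 664 .nil (.cons 664 631 .nil .nil))), (631, (.cons 565 664 .nil (.cons 664 565 (.cons 697 730 .nil (.cons 730 697 .nil .nil)) .nil))), (664, (.cons 565 631 .nil (.cons 631 565 (.cons 697 730 .nil (.cons 730 697 .nil .nil)) .nil)))]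
  []
  (by decide +kernel) trivial

theorem w5_1143_400 : S (PX [] [400,466,532]) := VW.play 433 (PX [433] [400,466,532]) (by decide +kernel) v5_1056

theorem w5_1143_433 : S (PX [] [433,466,532]) := VW.play 400 (PX [400] [433,466,532]) (by decide +kernel) v5_1065

theorem w5_1143_499 : S (PX [] [466,499,532]) := VW.play 433 (PX [433] [466,499,532]) (by decide +kernel) v5_1111

theorem w5_1143_565 : S (PX [] [466,532,565]) := VW.play 499 (PX [499] [466,532,565]) (by decide +kernel) v5_1126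

theorem w5_1143_598 : S (PX [] [466,532,598]) := VW.play 499 (PX [499] [466,532,598]) (by decide +kernel) v5_1127

theorem v5_1143 : VW (PX [] [466,532]) := VW.of base nl_ok fl_ok .nil
  []
  [([400], (PX [] [400,466,532])), ([433], (PX [] [433,466,532])), ([499], (PX [] [466,499,532])), ([565], (PX [] [466,532,565])), ([598], (PX [] [466,532,598]))]
  (by decide +kernel) ⟨w5_1143_400, w5_1143_433, w5_1143_499, w5_1143_565, w5_1143_598, trivial⟩

theorem v5_619 : VW (PX [436,596] [468,500,532,564]) := VW.of base nl_ok fl_ok .nil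
  []
  []
  (by decide +kernel) trivial

theorem v5_620 : VW (PX [436,564] [468,500,532,596]) := VW.of base nl_ok fl_ok .nil
  []
  []
  (by decide +kernel) trivial

theorem w5_621_564 : S (PX [436] [468,500,532,564]) := VW.play 596 (PX [436,596] [468,500,532,564]) (by decide +kernel) v5_619

theorem w5_621_596 : S (PX [436] [468,500,532,596]) := VW.play 564 (PX [436,564] [468,500,532,596]) (by decide +kernel) v5_620

theorem v5_621 : VW (PX [436] [468,500,532]) := VW.of base nl_ok fl_ok (.cons 564 596 .nil (.cons 596 564 .nil .nil))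
  [(628, (.cons 564 596 .nil (.cons 596 564 .nil .nil))), (660, (.cons 564 596 .nil (.cons 596 564 .nil .nil))), (692, (.cons 564 596 .nil (.cons 596 564 .nil .nil)))]
  [([564], (PX [436] [468,500,532,564])), ([596], (PX [436] [468,500,532,596]))]
  (by decide +kernel) ⟨w5_621_564, w5_621_596, trivial⟩

theorem v5_666 : VW (PX [500] [468,532,564]) := VW.of base nl_ok fl_ok .nil
  [(596, (.cons 628 660 .nil (.cons 660 628 .nil .nil))), (628, (.cons 596 660 .nil (.cons 660 596 .nil .nil))), (660, (.cons 596 628 .nil (.cons 628 596 .nil .nil)))]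
  []
  (by decide +kernel) trivial

theorem w5_669_436 : S (PX [] [436,468,532]) := VW.play 500 (PX [500] [436,468,532]) (by decide +kernel) v5_321

theorem w5_669_500 : S (PX [] [468,500,532]) := VW.play 436 (PX [436] [468,500,532]) (by decide +kernel) v5_621

theorem w5_669_564 : S (PX [] [468,532,564]) := VW.play 500 (PX [500] [468,532,564]) (by decide +kernel) v5_666

theorem v5_669 : VW (PX [] [468,532]) := VW.of base nl_ok fl_ok .nil
  [(404, (.cons 436 500 (.cons 340 372 .nil (.cons 372 340 .nil .nil)) (.cons 500 436 (.cons 564 596 .nil (.cons 596 564 .nil .nil)) .nil))), (596, (.cons 500 564 (.cons 404 436 .nil (.cons 436 404 .nil .nil)) (.cons 564 500 (.cons 628 660 .nil (.cons 660 628 .nil .nil)) .nil)))]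
  [([436], (PX [] [436,468,532])), ([500], (PX [] [468,500,532])), ([564], (PX [] [468,532,564]))]
  (by decide +kernel) ⟨w5_669_436, w5_669_500, w5_669_564, trivial⟩

theorem v5_1144 : VW (PX [439,594] [470,501,532,563]) := VW.of base nl_ok fl_ok .nil
  []
  []
  (by decide +kernel) trivial

theorem v5_1145 : VW (PX [439,563] [470,501,532,594]) := VW.of base nl_ok fl_ok .nil
  []
  []
  (by decide +kernel) trivial

theorem w5_1146_563 : S (PX [439] [470,501,532,563]) := VW.play 594 (PX [439,594] [470,501,532,563]) (by decide +kernel) v5_1144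

theorem w5_1146_594 : S (PX [439] [470,501,532,594]) := VW.play 563 (PX [439,563] [470,501,532,594]) (by decide +kernel) v5_1145

theorem v5_1146 : VW (PX [439] [470,501,532]) := VW.of base nl_ok fl_ok (.cons 563 594 .nil (.cons 594 563 .nil .nil))
  [(625, (.cons 563 594 .nil (.cons 594 563 .nil .nil))), (656, (.cons 563 594 .nil (.cons 594 563 .nil .nil))), (687, (.cons 563 594 .nil (.cons 594 563 .nil .nil)))]
  [([563], (PX [439] [470,501,532,563])), ([594], (PX [439] [470,501,532,594]))]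
  (by decide +kernel) ⟨w5_1146_563, w5_1146_594, trivial⟩

theorem v5_1163 : VW (PX [501] [470,532,563]) := VW.of base nl_ok fl_ok .nil
  [(594, (.cons 625 656 .nil (.cons 656 625 .nil .nil))), (625, (.cons 594 656 .nil (.cons 656 594 .nil .nil))), (656, (.cons 594 625 .nil (.cons 625 594 .nil .nil)))]
  []
  (by decide +kernel) trivial

theorem w5_1166_439 : S (PX [] [439,470,532]) := VW.play 501 (PX [501] [439,470,532]) (by decide +kernel) v5_1090

theorem w5_1166_501 : S (PX [] [470,501,532]) := VW.play 439 (PX [439] [470,501,532]) (by decide +kernel) v5_1146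

theorem w5_1166_563 : S (PX [] [470,532,563]) := VW.play 501 (PX [501] [470,532,563]) (by decide +kernel) v5_1163

theorem v5_1166 : VW (PX [] [470,532]) := VW.of base nl_ok fl_ok .nil
  [(408, (.cons 439 501 (.cons 346 377 .nil (.cons 377 346 .nil .nil)) (.cons 501 439 (.cons 563 594 .nil (.cons 594 563 .nil .nil)) .nil))), (594, (.cons 501 563 (.cons 408 439 .nil (.cons 439 408 .nil .nil)) (.cons 563 501 (.cons 625 656 .nil (.cons 656 625 .nil .nil)) .nil)))]
  [([439], (PX [] [439,470,532])), ([501], (PX [] [470,501,532])), ([563], (PX [] [470,532,563]))]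
  (by decide +kernel) ⟨w5_1166_439, w5_1166_501, w5_1166_563, trivial⟩

theorem v5_1167 : VW (PX [466,631] [499,532,565,598]) := VW.of base nl_ok fl_ok .nil
  []
  []
  (by decide +kernel) trivial

theorem v5_1168 : VW (PX [466,598] [499,532,565,631]) := VW.of base nl_ok fl_ok .nil
  []
  []
  (by decide +kernel) trivial

theorem w5_1169_598 : S (PX [466] [499,532,565,598]) := VW.play 631 (PX [466,631] [499,532,565,598]) (by decide +kernel) v5_1167

theorem w5_1169_631 : S (PX [466] [499,532,565,631]) := VW.play 598 (PX [466,598] [499,532,565,631]) (by decide +kernel) v5_1168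

theorem v5_1169 : VW (PX [466] [499,532,565]) := VW.of base nl_ok fl_ok (.cons 598 631 .nil (.cons 631 598 .nil .nil))
  [(664, (.cons 598 631 .nil (.cons 631 598 .nil .nil))), (697, (.cons 598 631 .nil (.cons 631 598 .nil .nil))), (730, (.cons 598 631 .nil (.cons 631 598 .nil .nil)))]
  [([598], (PX [466] [499,532,565,598])), ([631], (PX [466] [499,532,565,631]))]
  (by decide +kernel) ⟨w5_1169_598, w5_1169_631, trivial⟩

theorem v5_1077 : VW (PX [400,565] [433,499,532,598]) := VW.of base nl_ok fl_ok .nil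
  []
  []
  (by decide +kernel) trivial

theorem v5_1140 : VW (PX [400,565] [466,499,532,598]) := VW.of base nl_ok fl_ok .nil
  []
  []
  (by decide +kernel) trivial

theorem w5_1173_433 : S (PX [565] [433,499,532,598]) := VW.play 400 (PX [400,565] [433,499,532,598]) (by decide +kernel) v5_1077

theorem w5_1173_466 : S (PX [565] [466,499,532,598]) := VW.play 400 (PX [400,565] [466,499,532,598]) (by decide +kernel) v5_1140

theorem v5_1173 : VW (PX [565] [499,532,598]) := VW.of base nl_ok fl_ok .nil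
  [(400, (.cons 433 466 .nil (.cons 466 433 .nil .nil)))]
  [([433], (PX [565] [433,499,532,598])), ([466], (PX [565] [466,499,532,598]))]
  (by decide +kernel) ⟨w5_1173_433, w5_1173_466, trivial⟩

theorem w5_1174_433 : S (PX [] [433,499,532]) := VW.play 466 (PX [466] [433,499,532]) (by decide +kernel) v5_1085

theorem w5_1174_466 : S (PX [] [466,499,532]) := VW.play 433 (PX [433] [466,499,532]) (by decide +kernel) v5_1111

theorem w5_1174_565 : S (PX [] [499,532,565]) := VW.play 466 (PX [466] [499,532,565]) (by decide +kernel) v5_1169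

theorem w5_1174_598 : S (PX [] [499,532,598]) := VW.play 565 (PX [565] [499,532,598]) (by decide +kernel) v5_1173

theorem v5_1174 : VW (PX [] [499,532]) := VW.of base nl_ok fl_ok .nil
  [(400, (.cons 433 466 .nil (.cons 466 433 (.cons 565 598 .nil (.cons 598 565 .nil .nil)) .nil))), (631, (.cons 565 598 (.cons 433 466 .nil (.cons 466 433 .nil .nil)) (.cons 598 565 .nil .nil)))]
  [([433], (PX [] [433,499,532])), ([466], (PX [] [466,499,532])), ([565], (PX [] [499,532,565])), ([598], (PX [] [499,532,598]))]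
  (by decide +kernel) ⟨w5_1174_433, w5_1174_466, w5_1174_565, w5_1174_598, trivial⟩

theorem v5_967 : VW (PX [468,628] [500,532,564,596]) := VW.of base nl_ok fl_ok .nil
  []
  []
  (by decide +kernel) trivial

theorem v5_968 : VW (PX [468,596] [500,532,564,628]) := VW.of base nl_ok fl_ok .nil
  []
  []
  (by decide +kernel) trivial

theorem w5_969_596 : S (PX [468] [500,532,564,596]) := VW.play 628 (PX [468,628] [500,532,564,596]) (by decide +kernel) v5_967

theorem w5_969_628 : S (PX [468] [500,532,564,628]) := VW.play 596 (PX [468,596] [500,532,564,628]) (by decide +kernel) v5_968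

theorem v5_969 : VW (PX [468] [500,532,564]) := VW.of base nl_ok fl_ok (.cons 596 628 .nil (.cons 628 596 .nil .nil))
  [(660, (.cons 596 628 .nil (.cons 628 596 .nil .nil))), (692, (.cons 596 628 .nil (.cons 628 596 .nil .nil))), (724, (.cons 596 628 .nil (.cons 628 596 .nil .nil)))]
  [([596], (PX [468] [500,532,564,596])), ([628], (PX [468] [500,532,564,628]))]
  (by decide +kernel) ⟨w5_969_596, w5_969_628, trivial⟩

theorem v5_974 : VW (PX [564] [500,532,596]) := VW.of base nl_ok fl_ok .nil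
  [(404, (.cons 436 468 .nil (.cons 468 436 .nil .nil))), (436, (.cons 404 468 .nil (.cons 468 404 .nil .nil))), (468, (.cons 404 436 .nil (.cons 436 404 .nil .nil)))]
  []
  (by decide +kernel) trivial

theorem w5_986_436 : S (PX [] [436,500,532]) := VW.play 468 (PX [468] [436,500,532]) (by decide +kernel) v5_361

theorem w5_986_468 : S (PX [] [468,500,532]) := VW.play 436 (PX [436] [468,500,532]) (by decide +kernel) v5_621

theorem w5_986_564 : S (PX [] [500,532,564]) := VW.play 468 (PX [468] [500,532,564]) (by decide +kernel) v5_969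

theorem w5_986_596 : S (PX [] [500,532,596]) := VW.play 564 (PX [564] [500,532,596]) (by decide +kernel) v5_974

theorem v5_986 : VW (PX [] [500,532]) := VW.of base nl_ok fl_ok .nil
  [(404, (.cons 436 468 .nil (.cons 468 436 (.cons 564 596 .nil (.cons 596 564 .nil .nil)) .nil))), (628, (.cons 564 596 (.cons 436 468 .nil (.cons 468 436 .nil .nil)) (.cons 596 564 .nil .nil)))]
  [([436], (PX [] [436,500,532])), ([468], (PX [] [468,500,532])), ([564], (PX [] [500,532,564])), ([596], (PX [] [500,532,596]))]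
  (by decide +kernel) ⟨w5_986_436, w5_986_468, w5_986_564, w5_986_596, trivial⟩

theorem v5_1175 : VW (PX [470,625] [501,532,563,594]) := VW.of base nl_ok fl_ok .nil
  []
  []
  (by decide +kernel) trivial

theorem v5_1176 : VW (PX [470,594] [501,532,563,625]) := VW.of base nl_ok fl_ok .nil
  []
  []
  (by decide +kernel) trivial

theorem w5_1177_594 : S (PX [470] [501,532,563,594]) := VW.play 625 (PX [470,625] [501,532,563,594]) (by decide +kernel) v5_1175

theorem w5_1177_625 : S (PX [470] [501,532,563,625]) := VW.play 594 (PX [470,594] [501,532,563,625]) (by decide +kernel) v5_1176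

theorem v5_1177 : VW (PX [470] [501,532,563]) := VW.of base nl_ok fl_ok (.cons 594 625 .nil (.cons 625 594 .nil .nil))
  [(656, (.cons 594 625 .nil (.cons 625 594 .nil .nil))), (687, (.cons 594 625 .nil (.cons 625 594 .nil .nil))), (718, (.cons 594 625 .nil (.cons 625 594 .nil .nil)))]
  [([594], (PX [470] [501,532,563,594])), ([625], (PX [470] [501,532,563,625]))]
  (by decide +kernel) ⟨w5_1177_594, w5_1177_625, trivial⟩

theorem v5_1182 : VW (PX [563] [501,532,594]) := VW.of base nl_ok fl_ok .nil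
  [(408, (.cons 439 470 .nil (.cons 470 439 .nil .nil))), (439, (.cons 408 470 .nil (.cons 470 408 .nil .nil))), (470, (.cons 408 439 .nil (.cons 439 408 .nil .nil)))]
  []
  (by decide +kernel) trivial

theorem w5_1194_439 : S (PX [] [439,501,532]) := VW.play 470 (PX [470] [439,501,532]) (by decide +kernel) v5_1105

theorem w5_1194_470 : S (PX [] [470,501,532]) := VW.play 439 (PX [439] [470,501,532]) (by decide +kernel) v5_1146

theorem w5_1194_563 : S (PX [] [501,532,563]) := VW.play 470 (PX [470] [501,532,563]) (by decide +kernel) v5_1177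

theorem w5_1194_594 : S (PX [] [501,532,594]) := VW.play 563 (PX [563] [501,532,594]) (by decide +kernel) v5_1182

theorem v5_1194 : VW (PX [] [501,532]) := VW.of base nl_ok fl_ok .nil
  [(408, (.cons 439 470 .nil (.cons 470 439 (.cons 563 594 .nil (.cons 594 563 .nil .nil)) .nil))), (625, (.cons 563 594 (.cons 439 470 .nil (.cons 470 439 .nil .nil)) (.cons 594 563 .nil .nil)))]
  [([439], (PX [] [439,501,532])), ([470], (PX [] [470,501,532])), ([563], (PX [] [501,532,563])), ([594], (PX [] [501,532,594]))]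
  (by decide +kernel) ⟨w5_1194_439, w5_1194_470, w5_1194_563, w5_1194_594, trivial⟩

theorem v5_1195 : VW (PX [529] [528,530,532]) := VW.of base nl_ok fl_ok .nil
  [(531, (.cons 533 534 .nil (.cons 534 533 .nil .nil))), (533, (.cons 531 534 .nil (.cons 534 531 (.cons 535 536 .nil (.cons 536 535 .nil .nil)) .nil))), (534, (.cons 531 533 .nil (.cons 533 531 (.cons 535 536 .nil (.cons 536 535 .nil .nil)) .nil)))]
  []
  (by decide +kernel) trivial

theorem w5_1205_530 : S (PX [] [528,530,532]) := VW.play 529 (PX [529] [528,530,532]) (by decide +kernel) v5_1195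

theorem v5_1205 : VW (PX [] [528,532]) := VW.of base nl_ok fl_ok .nil
  [(529, (.cons 530 531 (.cons 526 527 .nil (.cons 527 526 .nil .nil)) (.cons 531 530 .nil .nil))), (531, (.cons 529 530 .nil (.cons 530 529 (.cons 533 534 .nil (.cons 534 533 .nil .nil)) .nil)))]
  [([530], (PX [] [528,530,532]))]
  (by decide +kernel) ⟨w5_1205_530, trivial⟩

theorem v5_1209 : VW (PX [531] [529,530,532]) := VW.of base nl_ok fl_ok .nil
  [(526, (.cons 527 528 .nil (.cons 528 527 .nil .nil))), (527, (.cons 526 528 .nil (.cons 528 526 .nil .nil))), (528, (.cons 526 527 .nil (.cons 527 526 .nil .nil)))]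
  []
  (by decide +kernel) trivial

theorem v5_1224 : VW (PX [530] [529,531,532]) := VW.of base nl_ok fl_ok .nil
  [(533, (.cons 534 535 .nil (.cons 535 534 .nil .nil))), (534, (.cons 533 535 .nil (.cons 535 533 .nil .nil))), (535, (.cons 533 534 .nil (.cons 534 533 .nil .nil)))]
  []
  (by decide +kernel) trivial

theorem w5_1225_530 : S (PX [] [529,530,532]) := VW.play 531 (PX [531] [529,530,532]) (by decide +kernel) v5_1209

theorem w5_1225_531 : S (PX [] [529,531,532]) := VW.play 530 (PX [530] [529,531,532]) (by decide +kernel) v5_1224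

theorem v5_1225 : VW (PX [] [529,532]) := VW.of base nl_ok fl_ok .nil
  [(528, (.cons 530 531 (.cons 526 527 .nil (.cons 527 526 .nil .nil)) (.cons 531 530 .nil .nil))), (533, (.cons 530 531 .nil (.cons 531 530 (.cons 534 535 .nil (.cons 535 534 .nil .nil)) .nil)))]
  [([530], (PX [] [529,530,532])), ([531], (PX [] [529,531,532]))]
  (by decide +kernel) ⟨w5_1225_530, w5_1225_531, trivial⟩

theorem v5_1226 : VW (PX [529,534] [530,531,532,533]) := VW.of base nl_ok fl_ok .nil
  []
  []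
  (by decide +kernel) trivial

theorem v5_1227 : VW (PX [529,533] [530,531,532,534]) := VW.of base nl_ok fl_ok .nil
  []
  []
  (by decide +kernel) trivial

theorem w5_1228_533 : S (PX [529] [530,531,532,533]) := VW.play 534 (PX [529,534] [530,531,532,533]) (by decide +kernel) v5_1226

theorem w5_1228_534 : S (PX [529] [530,531,532,534]) := VW.play 533 (PX [529,533] [530,531,532,534]) (by decide +kernel) v5_1227

theorem v5_1228 : VW (PX [529] [530,531,532]) := VW.of base nl_ok fl_ok (.cons 533 534 .nil (.cons 534 533 .nil .nil))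
  [(535, (.cons 533 534 .nil (.cons 534 533 .nil .nil))), (536, (.cons 533 534 .nil (.cons 534 533 .nil .nil))), (537, (.cons 533 534 .nil (.cons 534 533 .nil .nil)))]
  [([533], (PX [529] [530,531,532,533])), ([534], (PX [529] [530,531,532,534]))]
  (by decide +kernel) ⟨w5_1228_533, w5_1228_534, trivial⟩

theorem v5_1243 : VW (PX [531] [530,532,533]) := VW.of base nl_ok fl_ok .nil
  [(534, (.cons 535 536 .nil (.cons 536 535 .nil .nil))), (535, (.cons 534 536 .nil (.cons 536 534 .nil .nil))), (536, (.cons 534 535 .nil (.cons 535 534 .nil .nil)))]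
  []
  (by decide +kernel) trivial

theorem w5_1244_528 : S (PX [] [528,530,532]) := VW.play 529 (PX [529] [528,530,532]) (by decide +kernel) v5_1195

theorem w5_1244_529 : S (PX [] [529,530,532]) := VW.play 531 (PX [531] [529,530,532]) (by decide +kernel) v5_1209

theorem w5_1244_531 : S (PX [] [530,531,532]) := VW.play 529 (PX [529] [530,531,532]) (by decide +kernel) v5_1228

theorem w5_1244_533 : S (PX [] [530,532,533]) := VW.play 531 (PX [531] [530,532,533]) (by decide +kernel) v5_1243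

theorem v5_1244 : VW (PX [] [530,532]) := VW.of base nl_ok fl_ok .nil
  [(534, (.cons 531 533 (.cons 528 529 .nil (.cons 529 528 .nil .nil)) (.cons 533 531 (.cons 535 536 .nil (.cons 536 535 .nil .nil)) .nil)))]
  [([528], (PX [] [528,530,532])), ([529], (PX [] [529,530,532])), ([531], (PX [] [530,531,532])), ([533], (PX [] [530,532,533]))]
  (by decide +kernel) ⟨w5_1244_528, w5_1244_529, w5_1244_531, w5_1244_533, trivial⟩

theorem v5_1245 : VW (PX [530,535] [531,532,533,534]) := VW.of base nl_ok fl_ok .nil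
  []
  []
  (by decide +kernel) trivial

theorem v5_1246 : VW (PX [530,534] [531,532,533,535]) := VW.of base nl_ok fl_ok .nil
  []
  []
  (by decide +kernel) trivial

theorem w5_1247_534 : S (PX [530] [531,532,533,534]) := VW.play 535 (PX [530,535] [531,532,533,534]) (by decide +kernel) v5_1245

theorem w5_1247_535 : S (PX [530] [531,532,533,535]) := VW.play 534 (PX [530,534] [531,532,533,535]) (by decide +kernel) v5_1246

theorem v5_1247 : VW (PX [530] [531,532,533]) := VW.of base nl_ok fl_ok (.cons 534 535 .nil (.cons 535 534 .nil .nil))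
  [(536, (.cons 534 535 .nil (.cons 535 534 .nil .nil))), (537, (.cons 534 535 .nil (.cons 535 534 .nil .nil))), (538, (.cons 534 535 .nil (.cons 535 534 .nil .nil)))]
  [([534], (PX [530] [531,532,533,534])), ([535], (PX [530] [531,532,533,535]))]
  (by decide +kernel) ⟨w5_1247_534, w5_1247_535, trivial⟩

theorem v5_1250 : VW (PX [533] [531,532,534]) := VW.of base nl_ok fl_ok .nil
  [(528, (.cons 529 530 .nil (.cons 530 529 .nil .nil))), (529, (.cons 528 530 .nil (.cons 530 528 .nil .nil))), (530, (.cons 528 529 .nil (.cons 529 528 .nil .nil)))]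
  []
  (by decide +kernel) trivial

theorem w5_1251_529 : S (PX [] [529,531,532]) := VW.play 530 (PX [530] [529,531,532]) (by decide +kernel) v5_1224

theorem w5_1251_530 : S (PX [] [530,531,532]) := VW.play 529 (PX [529] [530,531,532]) (by decide +kernel) v5_1228

theorem w5_1251_533 : S (PX [] [531,532,533]) := VW.play 530 (PX [530] [531,532,533]) (by decide +kernel) v5_1247

theorem w5_1251_534 : S (PX [] [531,532,534]) := VW.play 533 (PX [533] [531,532,534]) (by decide +kernel) v5_1250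

theorem v5_1251 : VW (PX [] [531,532]) := VW.of base nl_ok fl_ok .nil
  [(528, (.cons 529 530 .nil (.cons 530 529 (.cons 533 534 .nil (.cons 534 533 .nil .nil)) .nil))), (535, (.cons 533 534 (.cons 529 530 .nil (.cons 530 529 .nil .nil)) (.cons 534 533 .nil .nil)))]
  [([529], (PX [] [529,531,532])), ([530], (PX [] [530,531,532])), ([533], (PX [] [531,532,533])), ([534], (PX [] [531,532,534]))]
  (by decide +kernel) ⟨w5_1251_529, w5_1251_530, w5_1251_533, w5_1251_534, trivial⟩

theorem v5_1252 : VW (PX [531,536] [532,533,534,535]) := VW.of base nl_ok fl_ok .nil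
  []
  []
  (by decide +kernel) trivial

theorem v5_1253 : VW (PX [531,535] [532,533,534,536]) := VW.of base nl_ok fl_ok .nil
  []
  []
  (by decide +kernel) trivial

theorem w5_1254_535 : S (PX [531] [532,533,534,535]) := VW.play 536 (PX [531,536] [532,533,534,535]) (by decide +kernel) v5_1252

theorem w5_1254_536 : S (PX [531] [532,533,534,536]) := VW.play 535 (PX [531,535] [532,533,534,536]) (by decide +kernel) v5_1253

theorem v5_1254 : VW (PX [531] [532,533,534]) := VW.of base nl_ok fl_ok (.cons 535 536 .nil (.cons 536 535 .nil .nil))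
  [(537, (.cons 535 536 .nil (.cons 536 535 .nil .nil))), (538, (.cons 535 536 .nil (.cons 536 535 .nil .nil))), (539, (.cons 535 536 .nil (.cons 536 535 .nil .nil)))]
  [([535], (PX [531] [532,533,534,535])), ([536], (PX [531] [532,533,534,536]))]
  (by decide +kernel) ⟨w5_1254_535, w5_1254_536, trivial⟩

theorem v5_1259 : VW (PX [534] [532,533,535]) := VW.of base nl_ok fl_ok .nil
  [(529, (.cons 530 531 .nil (.cons 531 530 .nil .nil))), (530, (.cons 529 531 .nil (.cons 531 529 .nil .nil))), (531, (.cons 529 530 .nil (.cons 530 529 .nil .nil)))]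
  []
  (by decide +kernel) trivial

theorem w5_1260_530 : S (PX [] [530,532,533]) := VW.play 531 (PX [531] [530,532,533]) (by decide +kernel) v5_1243

theorem w5_1260_531 : S (PX [] [531,532,533]) := VW.play 530 (PX [530] [531,532,533]) (by decide +kernel) v5_1247

theorem w5_1260_534 : S (PX [] [532,533,534]) := VW.play 531 (PX [531] [532,533,534]) (by decide +kernel) v5_1254

theorem w5_1260_535 : S (PX [] [532,533,535]) := VW.play 534 (PX [534] [532,533,535]) (by decide +kernel) v5_1259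

theorem v5_1260 : VW (PX [] [532,533]) := VW.of base nl_ok fl_ok .nil
  [(529, (.cons 530 531 .nil (.cons 531 530 (.cons 534 535 .nil (.cons 535 534 .nil .nil)) .nil))), (536, (.cons 534 535 (.cons 530 531 .nil (.cons 531 530 .nil .nil)) (.cons 535 534 .nil .nil)))]
  [([530], (PX [] [530,532,533])), ([531], (PX [] [531,532,533])), ([534], (PX [] [532,533,534])), ([535], (PX [] [532,533,535]))]
  (by decide +kernel) ⟨w5_1260_530, w5_1260_531, w5_1260_534, w5_1260_535, trivial⟩

theorem v5_1261 : VW (PX [533] [532,534,535]) := VW.of base nl_ok fl_ok .nil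
  [(536, (.cons 537 538 .nil (.cons 538 537 .nil .nil))), (537, (.cons 536 538 .nil (.cons 538 536 .nil .nil))), (538, (.cons 536 537 .nil (.cons 537 536 .nil .nil)))]
  []
  (by decide +kernel) trivial

theorem w5_1264_531 : S (PX [] [531,532,534]) := VW.play 533 (PX [533] [531,532,534]) (by decide +kernel) v5_1250

theorem w5_1264_533 : S (PX [] [532,533,534]) := VW.play 531 (PX [531] [532,533,534]) (by decide +kernel) v5_1254

theorem w5_1264_535 : S (PX [] [532,534,535]) := VW.play 533 (PX [533] [532,534,535]) (by decide +kernel) v5_1261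

theorem v5_1264 : VW (PX [] [532,534]) := VW.of base nl_ok fl_ok .nil
  [(530, (.cons 531 533 (.cons 528 529 .nil (.cons 529 528 .nil .nil)) (.cons 533 531 (.cons 535 536 .nil (.cons 536 535 .nil .nil)) .nil))), (536, (.cons 533 535 (.cons 530 531 .nil (.cons 531 530 .nil .nil)) (.cons 535 533 (.cons 537 538 .nil (.cons 538 537 .nil .nil)) .nil)))]
  [([531], (PX [] [531,532,534])), ([533], (PX [] [532,533,534])), ([535], (PX [] [532,534,535]))]
  (by decide +kernel) ⟨w5_1264_531, w5_1264_533, w5_1264_535, trivial⟩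

theorem w5_1265_533 : S (PX [] [532,533,535]) := VW.play 534 (PX [534] [532,533,535]) (by decide +kernel) v5_1259

theorem w5_1265_534 : S (PX [] [532,534,535]) := VW.play 533 (PX [533] [532,534,535]) (by decide +kernel) v5_1261

theorem v5_1265 : VW (PX [] [532,535]) := VW.of base nl_ok fl_ok .nil
  [(531, (.cons 533 534 (.cons 529 530 .nil (.cons 530 529 .nil .nil)) (.cons 534 533 .nil .nil))), (536, (.cons 533 534 .nil (.cons 534 533 (.cons 537 538 .nil (.cons 538 537 .nil .nil)) .nil)))]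
  [([533], (PX [] [532,533,535])), ([534], (PX [] [532,534,535]))]
  (by decide +kernel) ⟨w5_1265_533, w5_1265_534, trivial⟩

theorem v5_1266 : VW (PX [] [532,536]) := VW.of base nl_ok fl_ok .nil
  [(533, (.cons 534 535 (.cons 530 531 .nil (.cons 531 530 .nil .nil)) (.cons 535 534 .nil .nil))), (534, (.cons 533 535 (.cons 530 531 .nil (.cons 531 530 .nil .nil)) (.cons 535 533 (.cons 537 538 .nil (.cons 538 537 .nil .nil)) .nil))), (535, (.cons 533 534 .nil (.cons 534 533 (.cons 537 538 .nil (.cons 538 537 .nil .nil)) .nil)))]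
  []
  (by decide +kernel) trivial

theorem v5_1267 : VW (PX [501,656] [532,563,594,625]) := VW.of base nl_ok fl_ok .nil
  []
  []
  (by decide +kernel) trivial

theorem v5_1268 : VW (PX [501,625] [532,563,594,656]) := VW.of base nl_ok fl_ok .nil
  []
  []
  (by decide +kernel) trivial

theorem w5_1269_625 : S (PX [501] [532,563,594,625]) := VW.play 656 (PX [501,656] [532,563,594,625]) (by decide +kernel) v5_1267

theorem w5_1269_656 : S (PX [501] [532,563,594,656]) := VW.play 625 (PX [501,625] [532,563,594,656]) (by decide +kernel) v5_1268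

theorem v5_1269 : VW (PX [501] [532,563,594]) := VW.of base nl_ok fl_ok (.cons 625 656 .nil (.cons 656 625 .nil .nil))
  [(687, (.cons 625 656 .nil (.cons 656 625 .nil .nil))), (718, (.cons 625 656 .nil (.cons 656 625 .nil .nil))), (749, (.cons 625 656 .nil (.cons 656 625 .nil .nil)))]
  [([625], (PX [501] [532,563,594,625])), ([656], (PX [501] [532,563,594,656]))]
  (by decide +kernel) ⟨w5_1269_625, w5_1269_656, trivial⟩

theorem v5_1274 : VW (PX [594] [532,563,625]) := VW.of base nl_ok fl_ok .nil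
  [(439, (.cons 470 501 .nil (.cons 501 470 .nil .nil))), (470, (.cons 439 501 .nil (.cons 501 439 .nil .nil))), (501, (.cons 439 470 .nil (.cons 470 439 .nil .nil)))]
  []
  (by decide +kernel) trivial

theorem w5_1286_470 : S (PX [] [470,532,563]) := VW.play 501 (PX [501] [470,532,563]) (by decide +kernel) v5_1163

theorem w5_1286_501 : S (PX [] [501,532,563]) := VW.play 470 (PX [470] [501,532,563]) (by decide +kernel) v5_1177

theorem w5_1286_594 : S (PX [] [532,563,594]) := VW.play 501 (PX [501] [532,563,594]) (by decide +kernel) v5_1269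

theorem w5_1286_625 : S (PX [] [532,563,625]) := VW.play 594 (PX [594] [532,563,625]) (by decide +kernel) v5_1274

theorem v5_1286 : VW (PX [] [532,563]) := VW.of base nl_ok fl_ok .nil
  [(439, (.cons 470 501 .nil (.cons 501 470 (.cons 594 625 .nil (.cons 625 594 .nil .nil)) .nil))), (656, (.cons 594 625 (.cons 470 501 .nil (.cons 501 470 .nil .nil)) (.cons 625 594 .nil .nil)))]
  [([470], (PX [] [470,532,563])), ([501], (PX [] [501,532,563])), ([594], (PX [] [532,563,594])), ([625], (PX [] [532,563,625]))]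
  (by decide +kernel) ⟨w5_1286_470, w5_1286_501, w5_1286_594, w5_1286_625, trivial⟩

theorem v5_1287 : VW (PX [500,660] [532,564,596,628]) := VW.of base nl_ok fl_ok .nil
  []
  []
  (by decide +kernel) trivial

theorem v5_1288 : VW (PX [500,628] [532,564,596,660]) := VW.of base nl_ok fl_ok .nil
  []
  []
  (by decide +kernel) trivial

theorem w5_1289_628 : S (PX [500] [532,564,596,628]) := VW.play 660 (PX [500,660] [532,564,596,628]) (by decide +kernel) v5_1287

theorem w5_1289_660 : S (PX [500] [532,564,596,660]) := VW.play 628 (PX [500,628] [532,564,596,660]) (by decide +kernel) v5_1288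

theorem v5_1289 : VW (PX [500] [532,564,596]) := VW.of base nl_ok fl_ok (.cons 628 660 .nil (.cons 660 628 .nil .nil))
  [(692, (.cons 628 660 .nil (.cons 660 628 .nil .nil))), (724, (.cons 628 660 .nil (.cons 660 628 .nil .nil))), (756, (.cons 628 660 .nil (.cons 660 628 .nil .nil)))]
  [([628], (PX [500] [532,564,596,628])), ([660], (PX [500] [532,564,596,660]))]
  (by decide +kernel) ⟨w5_1289_628, w5_1289_660, trivial⟩

theorem v5_1294 : VW (PX [596] [532,564,628]) := VW.of base nl_ok fl_ok .nil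
  [(436, (.cons 468 500 .nil (.cons 500 468 .nil .nil))), (468, (.cons 436 500 .nil (.cons 500 436 .nil .nil))), (500, (.cons 436 468 .nil (.cons 468 436 .nil .nil)))]
  []
  (by decide +kernel) trivial

theorem w5_1306_468 : S (PX [] [468,532,564]) := VW.play 500 (PX [500] [468,532,564]) (by decide +kernel) v5_666

theorem w5_1306_500 : S (PX [] [500,532,564]) := VW.play 468 (PX [468] [500,532,564]) (by decide +kernel) v5_969

theorem w5_1306_596 : S (PX [] [532,564,596]) := VW.play 500 (PX [500] [532,564,596]) (by decide +kernel) v5_1289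

theorem w5_1306_628 : S (PX [] [532,564,628]) := VW.play 596 (PX [596] [532,564,628]) (by decide +kernel) v5_1294

theorem v5_1306 : VW (PX [] [532,564]) := VW.of base nl_ok fl_ok .nil
  [(436, (.cons 468 500 .nil (.cons 500 468 (.cons 596 628 .nil (.cons 628 596 .nil .nil)) .nil))), (660, (.cons 596 628 (.cons 468 500 .nil (.cons 500 468 .nil .nil)) (.cons 628 596 .nil .nil)))]
  [([468], (PX [] [468,532,564])), ([500], (PX [] [500,532,564])), ([596], (PX [] [532,564,596])), ([628], (PX [] [532,564,628]))]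
  (by decide +kernel) ⟨w5_1306_468, w5_1306_500, w5_1306_596, w5_1306_628, trivial⟩

theorem v5_1307 : VW (PX [499,664] [532,565,598,631]) := VW.of base nl_ok fl_ok .nil
  []
  []
  (by decide +kernel) trivial

theorem v5_1308 : VW (PX [499,631] [532,565,598,664]) := VW.of base nl_ok fl_ok .nil
  []
  []
  (by decide +kernel) trivial

theorem w5_1309_631 : S (PX [499] [532,565,598,631]) := VW.play 664 (PX [499,664] [532,565,598,631]) (by decide +kernel) v5_1307

theorem w5_1309_664 : S (PX [499] [532,565,598,664]) := VW.play 631 (PX [499,631] [532,565,598,664]) (by decide +kernel) v5_1308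

theorem v5_1309 : VW (PX [499] [532,565,598]) := VW.of base nl_ok fl_ok (.cons 631 664 .nil (.cons 664 631 .nil .nil))
  [(697, (.cons 631 664 .nil (.cons 664 631 .nil .nil))), (730, (.cons 631 664 .nil (.cons 664 631 .nil .nil))), (763, (.cons 631 664 .nil (.cons 664 631 .nil .nil)))]
  [([631], (PX [499] [532,565,598,631])), ([664], (PX [499] [532,565,598,664]))]
  (by decide +kernel) ⟨w5_1309_631, w5_1309_664, trivial⟩

theorem v5_1314 : VW (PX [598] [532,565,631]) := VW.of base nl_ok fl_ok .nil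
  [(433, (.cons 466 499 .nil (.cons 499 466 .nil .nil))), (466, (.cons 433 499 .nil (.cons 499 433 .nil .nil))), (499, (.cons 433 466 .nil (.cons 466 433 .nil .nil)))]
  []
  (by decide +kernel) trivial

theorem w5_1315_466 : S (PX [] [466,532,565]) := VW.play 499 (PX [499] [466,532,565]) (by decide +kernel) v5_1126

theorem w5_1315_499 : S (PX [] [499,532,565]) := VW.play 466 (PX [466] [499,532,565]) (by decide +kernel) v5_1169

theorem w5_1315_598 : S (PX [] [532,565,598]) := VW.play 499 (PX [499] [532,565,598]) (by decide +kernel) v5_1309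

theorem w5_1315_631 : S (PX [] [532,565,631]) := VW.play 598 (PX [598] [532,565,631]) (by decide +kernel) v5_1314

theorem v5_1315 : VW (PX [] [532,565]) := VW.of base nl_ok fl_ok .nil
  [(433, (.cons 466 499 .nil (.cons 499 466 (.cons 598 631 .nil (.cons 631 598 .nil .nil)) .nil))), (664, (.cons 598 631 (.cons 466 499 .nil (.cons 499 466 .nil .nil)) (.cons 631 598 .nil .nil)))]
  [([466], (PX [] [466,532,565])), ([499], (PX [] [499,532,565])), ([598], (PX [] [532,565,598])), ([631], (PX [] [532,565,631]))]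
  (by decide +kernel) ⟨w5_1315_466, w5_1315_499, w5_1315_598, w5_1315_631, trivial⟩

theorem v5_1330 : VW (PX [563] [532,594,625]) := VW.of base nl_ok fl_ok .nil
  [(656, (.cons 687 718 .nil (.cons 718 687 .nil .nil))), (687, (.cons 656 718 .nil (.cons 718 656 .nil .nil))), (718, (.cons 656 687 .nil (.cons 687 656 .nil .nil)))]
  []
  (by decide +kernel) trivial

theorem w5_1333_501 : S (PX [] [501,532,594]) := VW.play 563 (PX [563] [501,532,594]) (by decide +kernel) v5_1182

theorem w5_1333_563 : S (PX [] [532,563,594]) := VW.play 501 (PX [501] [532,563,594]) (by decide +kernel) v5_1269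

theorem w5_1333_625 : S (PX [] [532,594,625]) := VW.play 563 (PX [563] [532,594,625]) (by decide +kernel) v5_1330

theorem v5_1333 : VW (PX [] [532,594]) := VW.of base nl_ok fl_ok .nil
  [(470, (.cons 501 563 (.cons 408 439 .nil (.cons 439 408 .nil .nil)) (.cons 563 501 (.cons 625 656 .nil (.cons 656 625 .nil .nil)) .nil))), (656, (.cons 563 625 (.cons 470 501 .nil (.cons 501 470 .nil .nil)) (.cons 625 563 (.cons 687 718 .nil (.cons 718 687 .nil .nil)) .nil)))]
  [([501], (PX [] [501,532,594])), ([563], (PX [] [532,563,594])), ([625], (PX [] [532,594,625]))]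
  (by decide +kernel) ⟨w5_1333_501, w5_1333_563, w5_1333_625, trivial⟩

theorem v5_1348 : VW (PX [564] [532,596,628]) := VW.of base nl_ok fl_ok .nil
  [(660, (.cons 692 724 .nil (.cons 724 692 .nil .nil))), (692, (.cons 660 724 .nil (.cons 724 660 .nil .nil))), (724, (.cons 660 692 .nil (.cons 692 660 .nil .nil)))]
  []
  (by decide +kernel) trivial

theorem w5_1351_500 : S (PX [] [500,532,596]) := VW.play 564 (PX [564] [500,532,596]) (by decide +kernel) v5_974

theorem w5_1351_564 : S (PX [] [532,564,596]) := VW.play 500 (PX [500] [532,564,596]) (by decide +kernel) v5_1289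

theorem w5_1351_628 : S (PX [] [532,596,628]) := VW.play 564 (PX [564] [532,596,628]) (by decide +kernel) v5_1348

theorem v5_1351 : VW (PX [] [532,596]) := VW.of base nl_ok fl_ok .nil
  [(468, (.cons 500 564 (.cons 404 436 .nil (.cons 436 404 .nil .nil)) (.cons 564 500 (.cons 628 660 .nil (.cons 660 628 .nil .nil)) .nil))), (660, (.cons 564 628 (.cons 468 500 .nil (.cons 500 468 .nil .nil)) (.cons 628 564 (.cons 692 724 .nil (.cons 724 692 .nil .nil)) .nil)))]
  [([500], (PX [] [500,532,596])), ([564], (PX [] [532,564,596])), ([628], (PX [] [532,596,628]))]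
  (by decide +kernel) ⟨w5_1351_500, w5_1351_564, w5_1351_628, trivial⟩

theorem v5_1352 : VW (PX [565] [532,598,631]) := VW.of base nl_ok fl_ok .nil
  [(664, (.cons 697 730 .nil (.cons 730 697 .nil .nil))), (697, (.cons 664 730 .nil (.cons 730 664 .nil .nil))), (730, (.cons 664 697 .nil (.cons 697 664 .nil .nil)))]
  []
  (by decide +kernel) trivial

theorem w5_1353_466 : S (PX [] [466,532,598]) := VW.play 499 (PX [499] [466,532,598]) (by decide +kernel) v5_1127

theorem w5_1353_499 : S (PX [] [499,532,598]) := VW.play 565 (PX [565] [499,532,598]) (by decide +kernel) v5_1173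

theorem w5_1353_565 : S (PX [] [532,565,598]) := VW.play 499 (PX [499] [532,565,598]) (by decide +kernel) v5_1309

theorem w5_1353_631 : S (PX [] [532,598,631]) := VW.play 565 (PX [565] [532,598,631]) (by decide +kernel) v5_1352

theorem v5_1353 : VW (PX [] [532,598]) := VW.of base nl_ok fl_ok .nil
  [(664, (.cons 565 631 (.cons 466 499 .nil (.cons 499 466 .nil .nil)) (.cons 631 565 (.cons 697 730 .nil (.cons 730 697 .nil .nil)) .nil)))]
  [([466], (PX [] [466,532,598])), ([499], (PX [] [499,532,598])), ([565], (PX [] [532,565,598])), ([631], (PX [] [532,598,631]))]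
  (by decide +kernel) ⟨w5_1353_466, w5_1353_499, w5_1353_565, w5_1353_631, trivial⟩

theorem w5_1354_563 : S (PX [] [532,563,625]) := VW.play 594 (PX [594] [532,563,625]) (by decide +kernel) v5_1274

theorem w5_1354_594 : S (PX [] [532,594,625]) := VW.play 563 (PX [563] [532,594,625]) (by decide +kernel) v5_1330

theorem v5_1354 : VW (PX [] [532,625]) := VW.of base nl_ok fl_ok .nil
  [(501, (.cons 563 594 (.cons 439 470 .nil (.cons 470 439 .nil .nil)) (.cons 594 563 .nil .nil))), (656, (.cons 563 594 .nil (.cons 594 563 (.cons 687 718 .nil (.cons 718 687 .nil .nil)) .nil)))]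
  [([563], (PX [] [532,563,625])), ([594], (PX [] [532,594,625]))]
  (by decide +kernel) ⟨w5_1354_563, w5_1354_594, trivial⟩

theorem w5_1355_564 : S (PX [] [532,564,628]) := VW.play 596 (PX [596] [532,564,628]) (by decide +kernel) v5_1294

theorem w5_1355_596 : S (PX [] [532,596,628]) := VW.play 564 (PX [564] [532,596,628]) (by decide +kernel) v5_1348

theorem v5_1355 : VW (PX [] [532,628]) := VW.of base nl_ok fl_ok .nil
  [(500, (.cons 564 596 (.cons 436 468 .nil (.cons 468 436 .nil .nil)) (.cons 596 564 .nil .nil))), (660, (.cons 564 596 .nil (.cons 596 564 (.cons 692 724 .nil (.cons 724 692 .nil .nil)) .nil)))]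
  [([564], (PX [] [532,564,628])), ([596], (PX [] [532,596,628]))]
  (by decide +kernel) ⟨w5_1355_564, w5_1355_596, trivial⟩

theorem w5_1356_565 : S (PX [] [532,565,631]) := VW.play 598 (PX [598] [532,565,631]) (by decide +kernel) v5_1314

theorem w5_1356_598 : S (PX [] [532,598,631]) := VW.play 565 (PX [565] [532,598,631]) (by decide +kernel) v5_1352

theorem v5_1356 : VW (PX [] [532,631]) := VW.of base nl_ok fl_ok .nil
  [(499, (.cons 565 598 (.cons 433 466 .nil (.cons 466 433 .nil .nil)) (.cons 598 565 .nil .nil))), (664, (.cons 565 598 .nil (.cons 598 565 (.cons 697 730 .nil (.cons 730 697 .nil .nil)) .nil)))]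
  [([565], (PX [] [532,565,631])), ([598], (PX [] [532,598,631]))]
  (by decide +kernel) ⟨w5_1356_565, w5_1356_598, trivial⟩

theorem v5_1357 : VW (PX [] [532,656]) := VW.of base nl_ok fl_ok .nil
  [(563, (.cons 594 625 (.cons 470 501 .nil (.cons 501 470 .nil .nil)) (.cons 625 594 .nil .nil))), (594, (.cons 563 625 (.cons 470 501 .nil (.cons 501 470 .nil .nil)) (.cons 625 563 (.cons 687 718 .nil (.cons 718 687 .nil .nil)) .nil))), (625, (.cons 563 594 .nil (.cons 594 563 (.cons 687 718 .nil (.cons 718 687 .nil .nil)) .nil)))]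
  []
  (by decide +kernel) trivial

theorem v5_1358 : VW (PX [] [532,660]) := VW.of base nl_ok fl_ok .nil
  [(564, (.cons 596 628 (.cons 468 500 .nil (.cons 500 468 .nil .nil)) (.cons 628 596 .nil .nil))), (596, (.cons 564 628 (.cons 468 500 .nil (.cons 500 468 .nil .nil)) (.cons 628 564 (.cons 692 724 .nil (.cons 724 692 .nil .nil)) .nil))), (628, (.cons 564 596 .nil (.cons 596 564 (.cons 692 724 .nil (.cons 724 692 .nil .nil)) .nil)))]
  []
  (by decide +kernel) trivial

theorem v5_1359 : VW (PX [] [532,664]) := VW.of base nl_ok fl_ok .nil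
  [(565, (.cons 598 631 (.cons 466 499 .nil (.cons 499 466 .nil .nil)) (.cons 631 598 .nil .nil))), (598, (.cons 565 631 (.cons 466 499 .nil (.cons 499 466 .nil .nil)) (.cons 631 565 (.cons 697 730 .nil (.cons 730 697 .nil .nil)) .nil))), (631, (.cons 565 598 .nil (.cons 598 565 (.cons 697 730 .nil (.cons 730 697 .nil .nil)) .nil)))]
  []
  (by decide +kernel) trivial

theorem r400 : S (Nat.lor X2 (bits [532, 400])) := VW.play 394 (PX [] [400,532]) (by decide +kernel) v5_1060

theorem r404 : S (Nat.lor X2 (bits [532, 404])) := VW.play 394 (PX [] [404,532]) (by decide +kernel) v5_1061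

theorem r408 : S (Nat.lor X2 (bits [532, 408])) := VW.play 394 (PX [] [408,532]) (by decide +kernel) v5_1062

theorem r433 : S (Nat.lor X2 (bits [532, 433])) := VW.play 394 (PX [] [433,532]) (by decide +kernel) v5_1086

theorem r436 : S (Nat.lor X2 (bits [532, 436])) := VW.play 394 (PX [] [436,532]) (by decide +kernel) v5_368

theorem r439 : S (Nat.lor X2 (bits [532, 439])) := VW.play 394 (PX [] [439,532]) (by decide +kernel) v5_1108

theorem r466 : S (Nat.lor X2 (bits [532, 466])) := VW.play 394 (PX [] [466,532]) (by decide +kernel) v5_1143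

theorem r468 : S (Nat.lor X2 (bits [532, 468])) := VW.play 394 (PX [] [468,532]) (by decide +kernel) v5_669

theorem r470 : S (Nat.lor X2 (bits [532, 470])) := VW.play 394 (PX [] [470,532]) (by decide +kernel) v5_1166

theorem r499 : S (Nat.lor X2 (bits [532, 499])) := VW.play 394 (PX [] [499,532]) (by decide +kernel) v5_1174

theorem r500 : S (Nat.lor X2 (bits [532, 500])) := VW.play 394 (PX [] [500,532]) (by decide +kernel) v5_986

theorem r501 : S (Nat.lor X2 (bits [532, 501])) := VW.play 394 (PX [] [501,532]) (by decide +kernel) v5_1194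

theorem r528 : S (Nat.lor X2 (bits [532, 528])) := VW.play 394 (PX [] [528,532]) (by decide +kernel) v5_1205

theorem r529 : S (Nat.lor X2 (bits [532, 529])) := VW.play 394 (PX [] [529,532]) (by decide +kernel) v5_1225

theorem r530 : S (Nat.lor X2 (bits [532, 530])) := VW.play 394 (PX [] [530,532]) (by decide +kernel) v5_1244

theorem r531 : S (Nat.lor X2 (bits [532, 531])) := VW.play 394 (PX [] [531,532]) (by decide +kernel) v5_1251

theorem r533 : S (Nat.lor X2 (bits [532, 533])) := VW.play 394 (PX [] [532,533]) (by decide +kernel) v5_1260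

theorem r534 : S (Nat.lor X2 (bits [532, 534])) := VW.play 394 (PX [] [532,534]) (by decide +kernel) v5_1264

theorem r535 : S (Nat.lor X2 (bits [532, 535])) := VW.play 394 (PX [] [532,535]) (by decide +kernel) v5_1265

theorem r536 : S (Nat.lor X2 (bits [532, 536])) := VW.play 394 (PX [] [532,536]) (by decide +kernel) v5_1266

theorem r563 : S (Nat.lor X2 (bits [532, 563])) := VW.play 394 (PX [] [532,563]) (by decide +kernel) v5_1286

theorem r564 : S (Nat.lor X2 (bits [532, 564])) := VW.play 394 (PX [] [532,564]) (by decide +kernel) v5_1306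

theorem r565 : S (Nat.lor X2 (bits [532, 565])) := VW.play 394 (PX [] [532,565]) (by decide +kernel) v5_1315

theorem r594 : S (Nat.lor X2 (bits [532, 594])) := VW.play 394 (PX [] [532,594]) (by decide +kernel) v5_1333

theorem r596 : S (Nat.lor X2 (bits [532, 596])) := VW.play 394 (PX [] [532,596]) (by decide +kernel) v5_1351

theorem r598 : S (Nat.lor X2 (bits [532, 598])) := VW.play 394 (PX [] [532,598]) (by decide +kernel) v5_1353

theorem r625 : S (Nat.lor X2 (bits [532, 625])) := VW.play 394 (PX [] [532,625]) (by decide +kernel) v5_1354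

theorem r628 : S (Nat.lor X2 (bits [532, 628])) := VW.play 394 (PX [] [532,628]) (by decide +kernel) v5_1355

theorem r631 : S (Nat.lor X2 (bits [532, 631])) := VW.play 394 (PX [] [532,631]) (by decide +kernel) v5_1356

theorem r656 : S (Nat.lor X2 (bits [532, 656])) := VW.play 394 (PX [] [532,656]) (by decide +kernel) v5_1357

theorem r660 : S (Nat.lor X2 (bits [532, 660])) := VW.play 394 (PX [] [532,660]) (by decide +kernel) v5_1358

theorem r664 : S (Nat.lor X2 (bits [532, 664])) := VW.play 394 (PX [] [532,664]) (by decide +kernel) v5_1359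

theorem all : RT X2 532 (400 :: 404 :: 408 :: 433 :: 436 :: 439 :: 466 :: 468 :: 470 :: 499 :: 500 :: 501 :: 528 :: 529 :: 530 :: 531 :: 533 :: 534 :: 535 :: 536 :: 563 :: 564 :: 565 :: 594 :: 596 :: 598 :: 625 :: 628 :: 631 :: 656 :: 660 :: 664 :: []) := ⟨r400, r404, r408, r433, r436, r439, r466, r468, r470, r499, r500, r501, r528, r529, r530, r531, r533, r534, r535, r536, r563, r564, r565, r594, r596, r598, r625, r628, r631, r656, r660, r664, trivial⟩

end Pool.Agent.H94.Five.Mid.K9_5_0
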