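import Pool.Agent.H94.Five.Mid.Fam

set_option autoImplicit false
set_option linter.all false
set_option maxRecDepth 100000

/-! Second has the cell (9, 6): some of the other stones. -/

namespace Pool.Agent.H94.Five.Mid.K9_6_0

open Pool.Agent.H79.Five Pool.Agent.H10.Five Pool.Agent.H94.Five.M

abbrev nl : List Ent := [n0, n3, n4, n6, n8, n9, n10, n11, n16, n17, n21, n22]

theorem nl_ok : AC XB M0 nl := .cons n0k <| .cons n3k <| .cons n4k <| .cons n6k <| .cons n8k <| .cons n9k <| .cons n10k <| .cons n11k <| .cons n16k <| .cons n17k <| .cons n21k <| .cons n22k <| .nil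

abbrev fl : List Ent := (x45 :: x73 :: x77 :: x101 :: x103 :: x130 :: x136 :: x142 :: x167 :: x174 :: x183 :: x201 :: x204 :: x209 :: x214 :: x223 :: x245 :: x253 :: x254 :: x255 :: x258 :: x266 :: x276 :: x277 :: x291 :: x310 :: x316 :: x328 :: x337 :: x357 :: x364 :: x371 :: x375 :: x383 :: x390 :: x393 :: x400 :: x420 :: x424 :: x427 :: x437 :: x447 :: x451 :: x462 :: x486 :: x493 :: x501 :: [])

theorem fl_ok : AC XB M0 fl := .cons x45k <| .cons x73k <| .cons x77k <| .cons x101k <| .cons x103k <| .cons x130k <| .cons x136k <| .cons x142k <| .cons x167k <| .cons x174k <| .cons x183k <| .cons x201k <| .cons x204k <| .cons x209k <| .cons x214k <| .cons x223k <| .cons x245k <| .cons x253k <| .cons x254k <| .cons x255k <| .cons x258k <| .cons x266k <| .cons x276k <| .cons x277k <| .cons x291k <| .cons x310k <| .cons x316k <| .cons x328k <| .cons x337k <| .cons x357k <| .cons x364k <| .cons x371k <| .cons x375k <| .cons x383k <| .cons x390k <| .cons x393k <| .cons x400k <| .cons x420k <|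 .cons x424k <| .cons x427k <| .cons x437k <| .cons x447k <| .cons x451k <| .cons x462k <| .cons x486k <| .cons x493k <| .cons x501k <| .nil

theorem b5_1150 : S (PX [] [428,432,564]) := S.of (.q 429 (.a 1 [] (.d 330 2345 297 2378 462)
 (.a 1 [297] (.d 462 2378 330 2411 495)
 (.a 0 [330,462] (.q 397 (.a 1 [] (.d 395 393 393 394 398)
 (.a 0 [393,395,398] (.q 365 (.a 1 [] (.d 333 1325 301 1357 461)
 (.a 1 [301] (.d 461 1357 333 1389 493)
 (.a 1 [461] (.r 301 1325 333 (.d 332 3342 270 3373 425))
 (.a 0 [333] (.q 427 (.a 1 [] (.d 334 3375 303 3406 458)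
 (.a 1 [303] (.d 458 3406 334 3437 489)
 (.a 1 [334] (.r 493 1389 461 (.d 460 2409 361 2442 526))
 .e))))
 .e)))))
 .e)))
 .e)))) (by decide +kernel)

theorem b5_1151 : S (PX [498] [333,432,465,564]) := S.of (.q 395 (.a 1 [] (.d 393 392 392 393 397)
 (.a 0 [397] (.q 429 (.a 1 [] (.d 330 2345 297 2378 462)
 (.a 0 [330] (.q 427 (.a 1 [] (.d 331 1323 299 1355 459)
 (.a 0 [331] (.q 332 (.a 1 [] (.d 301 3342 270 3373 425)
 (.a 1 [425] (.q 428 (.a 1 [] (.d 430 426 426 427 431)
 (.a 1 [366] (.q 399 (.a 1 [] (.d 364 1324 300 1356 460)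
 (.a 1 [300] (.d 430 426 426 427 431)
 .e)))
 (.a 1 [399] (.q 366 (.a 1 [] (.d 364 1324 300 1356 460)
 (.a 1 [300] (.d 430 426 426 427 431)
 .e)))
 (.a 1 [430] (.d 364 1324 300 1356 460)
 .e)))))
 (.a 1 [366] (.q 399 (.a 1 [] (.d 425 3373 301 3404 456)
 (.a 1 [425] (.q 428 (.a 1 [] (.d 430 426 426 427 431)
 (.a 1 [426] (.d 364 1324 300 1356 460)
 .e)))
 (.a 1 [301] (.r 425 3404 456 (.r 428 425 426 (.d 364 1324 300 1356 460)))
 .e))))
 (.a 1 [399] (.q 366 (.a 1 [] (.d 425 3373 301 3404 456)
 (.a 1 [425] (.q 364 (.a 1 [] (.d 365 362 362 363 367)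
 (.a 1 [362] (.d 428 1324 300 1356 460)
 .e)))
 (.a 1 [301] (.r 425 3404 456 (.r 428 425 426 (.d 364 1324 300 1356 460)))
 .e))))
 (.a 1 [301] (.r 425 3404 456 (.r 428 425 426 (.d 364 1324 300 1356 460)))
 .e))))))
 (.a 0 [459] (.q 428 (.a 1 [] (.d 426 425 425 426 430)
 (.a 1 [426] (.q 366 (.a 1 [] (.q 460 (.a 1 [] (.d 364 1356 332 1388 492)
 (.a 1 [332] (.d 493 2409 361 2442 526)
 .e)))
 (.a 1 [460] (.q 365 (.a 1 [] (.d 364 362 362 363 367)
 (.a 1 [362] (.d 458 3406 334 3437 489)
 .e)))
 (.a 1 [332] (.q 334 (.a 1 [] (.d 365 3375 303 3406 458)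
 (.a 1 [303] (.r 365 3406 458 (.d 364 362 362 363 367))
 (.a 1 [329] (.r 331 1323 299 (.d 365 3375 303 3406 458))
 (.a 1 [365] (.r 430 427 431 (.d 462 1358 398 2411 495))
 (.a 0 [331] (.q 329 (.a 1 [] (.d 365 3375 303 3406 458)
 (.a 1 [303] (.d 362 2344 296 2377 461)
 .e)))
 .e))))))
 (.a 1 [331] (.q 332 (.a 1 [] (.d 364 1324 300 1356 460)
 (.a 1 [300] (.d 425 3373 301 3404 456)
 .e)))
 (.a 1 [393] (.r 462 2411 495 (.r 430 427 431 (.d 398 1358 334 1390 494)))
 (.a 1 [492] (.r 462 2411 495 (.r 430 427 431 (.d 398 1358 334 1390 494)))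
 (.a 1 [360] (.r 462 2411 495 (.r 430 427 431 (.d 398 1358 334 1390 494)))
 .e))))))))
 (.a 1 [366] (.q 399 (.a 1 [] (.d 426 425 425 426 430)
 (.a 1 [426] (.q 460 (.a 1 [] (.d 364 1356 332 1388 492)
 (.a 1 [332] (.d 492 1388 364 1420 524)
 (.a 1 [364] (.d 361 2376 328 2409 493)
 .e))))
 (.a 1 [430] (.r 425 425 426 (.d 456 3404 332 3435 487))
 .e))))
 (.a 1 [399] (.q 366 (.a 1 [] (.d 430 426 426 427 431)
 (.a 1 [426] (.q 460 (.a 1 [] (.d 364 1356 332 1388 492)
 (.a 1 [332] (.d 493 2409 361 2442 526)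
 .e)))
 .e)))
 (.a 1 [425] (.d 430 426 426 427 431)
 (.a 1 [430] (.r 425 425 426 (.d 456 3404 332 3435 487))
 .e)))))))
 (.a 1 [366] (.q 399 (.a 1 [] (.d 331 1323 299 1355 459)
 (.a 1 [331] (.q 332 (.a 1 [] (.d 301 3342 270 3373 425)
 (.a 1 [270] (.d 425 3373 301 3404 456)
 (.a 1 [301] (.r 425 3404 456 (.r 428 425 426 (.d 364 1324 300 1356 460)))
 (.a 0 [425] (.q 428 (.a 1 [] (.d 430 426 426 427 431)
 (.a 1 [426] (.d 364 1324 300 1356 460)
 .e)))
 .e)))))
 (.a 1 [459] (.q 428 (.a 1 [] (.d 426 425 425 426 430)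
 (.a 1 [425] (.d 430 426 426 427 431)
 (.a 1 [430] (.r 425 425 426 (.d 456 3404 332 3435 487))
 (.a 0 [426] (.q 460 (.a 1 [] (.d 364 1356 332 1388 492)
 (.a 1 [332] (.d 492 1388 364 1420 524)
 (.a 1 [364] (.d 361 2376 328 2409 493)
 .e))))
 .e)))))
 .e))))
 (.a 1 [399] (.q 366 (.a 1 [] (.d 459 1355 331 1387 491)
 (.a 1 [331] (.q 332 (.a 1 [] (.d 301 3342 270 3373 425)
 (.a 1 [270] (.d 425 3373 301 3404 456)
 (.a 1 [301] (.r 425 3404 456 (.r 428 425 426 (.d 364 1324 300 1356 460)))
 (.a 0 [425] (.q 364 (.a 1 [] (.d 365 362 362 363 367)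
 (.a 1 [362] (.d 428 1324 300 1356 460)
 .e)))
 .e)))))
 .e)))
 (.a 1 [299] (.d 459 1355 331 1387 491)
 .e)))))))
 (.a 0 [462] (.r 330 2345 297 (.r 392 392 393 (.q 427 (.a 1 [] (.d 331 1323 299 1355 459)
 (.a 1 [331] (.q 361 (.a 1 [] (.d 328 2343 295 2376 460)
 (.a 1 [366] (.q 399 (.a 1 [] (.d 328 2343 295 2376 460)
 (.a 1 [460] (.d 299 3340 268 3371 423)
 .e)))
 (.a 1 [399] (.q 366 (.a 1 [] (.d 328 2343 295 2376 460)
 (.a 1 [460] (.d 423 3371 299 3402 454)
 .e)))
 (.a 1 [460] (.d 299 3340 268 3371 423)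
 .e)))))
 (.a 1 [366] (.q 399 (.a 1 [] (.d 459 1355 331 1387 491)
 (.a 1 [459] (.r 299 1323 331 (.d 361 3340 268 3371 423))
 (.a 1 [331] (.q 361 (.a 1 [] (.d 328 2343 295 2376 460)
 (.a 1 [295] (.d 460 2376 328 2409 493)
 (.a 1 [328] (.d 299 3340 268 3371 423)
 .e))))
 .e))))
 (.a 1 [399] (.q 366 (.a 1 [] (.d 459 1355 331 1387 491)
 (.a 1 [331] (.q 361 (.a 1 [] (.d 328 2343 295 2376 460)
 (.a 1 [295] (.d 460 2376 328 2409 493)
 (.a 1 [328] (.d 299 3340 268 3371 423)
 .e))))
 .e)))
 (.a 1 [459] (.r 299 1323 331 (.d 361 3340 268 3371 423))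
 (.a 1 [299] (.d 459 1355 331 1387 491)
 .e)))))))))
 (.a 0 [366] (.q 399 (.a 1 [] (.d 462 2378 330 2411 495)
 (.a 1 [330] (.r 495 2411 462 (.q 427 (.a 1 [] (.d 331 1323 299 1355 459)
 (.a 1 [331] (.q 332 (.a 1 [] (.d 301 3342 270 3373 425)
 (.a 1 [270] (.d 425 3373 301 3404 456)
 (.a 1 [301] (.r 425 3404 456 (.r 428 425 426 (.d 364 1324 300 1356 460)))
 (.a 0 [425] (.q 428 (.a 1 [] (.d 430 426 426 427 431)
 (.a 1 [426] (.d 364 1324 300 1356 460)
 .e)))
 .e)))))
 (.a 1 [459] (.q 428 (.a 1 [] (.d 426 425 425 426 430)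
 (.a 1 [425] (.d 430 426 426 427 431)
 (.a 1 [426] (.r 431 427 430 (.d 463 1391 367 1423 527))
 (.a 1 [430] (.r 425 425 426 (.d 456 3404 332 3435 487))
 .e)))))
 .e)))))
 (.a 1 [462] (.q 427 (.a 1 [] (.d 331 1323 299 1355 459)
 (.a 1 [299] (.d 459 1355 331 1387 491)
 (.a 0 [331,459] (.q 428 (.a 1 [] (.d 426 425 425 426 430)
 (.a 1 [425] (.d 430 426 426 427 431)
 (.a 1 [430] (.r 425 425 426 (.d 456 3404 332 3435 487))
 (.a 0 [426] (.q 460 (.a 1 [] (.d 364 1356 332 1388 492)
 (.a 1 [332] (.d 492 1388 364 1420 524)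
 (.a 1 [364] (.d 361 2376 328 2409 493)
 .e))))
 .e)))))
 .e))))
 .e))))
 (.a 1 [399] (.q 366 (.a 1 [] (.d 462 2378 330 2411 495)
 (.a 1 [330] (.q 427 (.a 1 [] (.d 331 1323 299 1355 459)
 (.a 1 [299] (.d 459 1355 331 1387 491)
 (.a 0 [331,459] (.q 332 (.a 1 [] (.d 301 3342 270 3373 425)
 (.a 1 [270] (.d 425 3373 301 3404 456)
 (.a 1 [301] (.r 425 3404 456 (.r 428 425 426 (.d 364 1324 300 1356 460)))
 (.a 0 [425] (.q 364 (.a 1 [] (.d 365 362 362 363 367)
 (.a 1 [362] (.d 428 1324 300 1356 460)
 .e)))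
 .e)))))
 .e))))
 .e)))
 (.a 1 [297] (.d 462 2378 330 2411 495)
 .e)))))))
 (.a 1 [393] (.q 366 (.a 1 [] (.q 459 (.a 1 [] (.d 427 1355 331 1387 491)
 (.a 1 [331] (.r 397 394 398 (.d 428 3407 335 3438 490))
 .e)))
 (.a 1 [397] (.q 365 (.a 1 [] (.d 364 362 362 363 367)
 (.a 0 [362,364,367] (.q 427 (.a 1 [] (.d 331 1323 299 1355 459)
 (.a 1 [299] (.d 459 1355 331 1387 491)
 (.a 1 [331] (.d 334 3375 303 3406 458)
 .e))))
 .e)))
 (.a 1 [427] (.q 462 (.a 1 [] (.d 429 2378 330 2411 495)
 (.a 1 [330] (.r 398 394 397 (.d 430 1358 334 1390 494))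
 .e)))
 (.a 1 [332] (.q 459 (.a 1 [] (.d 427 1355 331 1387 491)
 (.a 1 [331] (.r 397 394 398 (.d 428 3407 335 3438 490))
 .e)))
 (.a 1 [330] (.q 459 (.a 1 [] (.d 427 1355 331 1387 491)
 (.a 1 [331] (.r 397 394 398 (.d 428 3407 335 3438 490))
 .e)))
 (.a 1 [331] (.q 462 (.a 1 [] (.d 429 2378 330 2411 495)
 (.a 1 [330] (.r 398 394 397 (.d 430 1358 334 1390 494))
 .e)))
 (.a 1 [334] (.q 459 (.a 1 [] (.d 427 1355 331 1387 491)
 (.a 1 [331] (.r 397 394 398 (.d 428 3407 335 3438 490))
 .e)))
 (.a 1 [329] (.q 459 (.a 1 [] (.d 427 1355 331 1387 491)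
 (.a 1 [331] (.r 397 394 398 (.d 428 3407 335 3438 490))
 .e)))
 (.a 1 [269] (.q 459 (.a 1 [] (.d 427 1355 331 1387 491)
 (.a 1 [331] (.r 397 394 398 (.d 428 3407 335 3438 490))
 .e)))
 .e))))))))))
 (.a 1 [399] (.q 366 (.a 1 [] (.d 393 392 392 393 397)
 (.a 1 [393] (.q 459 (.a 1 [] (.d 427 1355 331 1387 491)
 (.a 1 [331] (.r 397 394 398 (.d 428 3407 335 3438 490))
 .e)))
 (.a 1 [397] (.q 427 (.a 1 [] (.d 331 1323 299 1355 459)
 (.a 1 [299] (.d 459 1355 331 1387 491)
 (.a 0 [331,459] (.q 365 (.a 1 [] (.d 364 362 362 363 367)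
 (.a 1 [362] (.d 458 3406 334 3437 489)
 .e)))
 .e))))
 .e))))
 (.a 0 [366] (.q 399 (.a 1 [] (.d 393 392 392 393 397)
 (.a 0 [397] (.q 429 (.a 1 [] (.d 330 2345 297 2378 462)
 (.a 1 [330] (.r 495 2411 462 (.q 427 (.a 1 [] (.d 331 1323 299 1355 459)
 (.a 1 [331] (.q 332 (.a 1 [] (.d 301 3342 270 3373 425)
 (.a 1 [270] (.d 425 3373 301 3404 456)
 (.a 1 [301] (.r 425 3404 456 (.r 428 425 426 (.d 364 1324 300 1356 460)))
 (.a 0 [425] (.q 428 (.a 1 [] (.d 430 426 426 427 431)
 (.a 1 [426] (.d 364 1324 300 1356 460)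
 .e)))
 .e)))))
 (.a 1 [459] (.q 428 (.a 1 [] (.d 426 425 425 426 430)
 (.a 1 [425] (.d 430 426 426 427 431)
 (.a 1 [426] (.r 431 427 430 (.d 463 1391 367 1423 527))
 (.a 1 [430] (.r 425 425 426 (.d 456 3404 332 3435 487))
 .e)))))
 .e)))))
 (.a 1 [462] (.q 427 (.a 1 [] (.d 331 1323 299 1355 459)
 (.a 1 [299] (.d 459 1355 331 1387 491)
 (.a 0 [331,459] (.q 428 (.a 1 [] (.d 426 425 425 426 430)
 (.a 1 [425] (.d 430 426 426 427 431)
 (.a 1 [430] (.r 425 425 426 (.d 456 3404 332 3435 487))
 (.a 0 [426] (.q 460 (.a 1 [] (.d 364 1356 332 1388 492)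
 (.a 1 [332] (.d 492 1388 364 1420 524)
 (.a 1 [364] (.d 361 2376 328 2409 493)
 .e))))
 .e)))))
 .e))))
 .e))))
 (.a 1 [393] (.q 427 (.a 1 [] (.d 331 1323 299 1355 459)
 (.a 1 [299] (.d 459 1355 331 1387 491)
 (.a 0 [331,459] (.q 332 (.a 1 [] (.d 301 3342 270 3373 425)
 (.a 1 [270] (.d 425 3373 301 3404 456)
 (.a 0 [301,425] (.q 365 (.a 1 [] (.d 334 3375 303 3406 458)
 (.a 1 [303] (.d 458 3406 334 3437 489)
 (.a 1 [334] (.r 398 394 397 (.d 431 2347 299 2380 464))
 .e))))
 .e))))
 .e))))
 .e))))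
 (.a 1 [392] (.d 397 393 393 394 398)
 .e))))))) (by decide +kernel)

theorem b5_1152 : S (PX [333,498] [304,366,432,465,564]) := S.of (.q 332 (.a 1 [] (.d 301 3342 270 3373 425)
 (.a 1 [270] (.d 425 3373 301 3404 456)
 (.a 0 [301,425] (.q 330 (.a 1 [] (.d 331 329 329 330 334)
 (.a 1 [329] (.d 429 2345 297 2378 462)
 .e)))
 .e)))) (by decide +kernel)

theorem b5_1153 : S (PX [333,498] [330,366,432,465,564]) := S.of (.q 395 (.a 1 [] (.d 393 392 392 393 397)
 (.a 1 [392] (.d 397 393 393 394 398)
 (.a 0 [393,397] (.q 364 (.a 1 [] (.d 302 3343 271 3374 426)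
 (.a 1 [271] (.d 426 3374 302 3405 457)
 (.a 0 [302,426] (.q 332 (.a 1 [] (.d 300 1292 268 1324 428)
 (.a 1 [268] (.d 428 1324 300 1356 460)
 (.a 1 [300] (.d 301 3342 270 3373 425)
 .e))))
 .e))))
 .e)))) (by decide +kernel)

theorem b5_1154 : S (PX [333,498] [332,366,432,465,564]) := S.of (.q 395 (.a 1 [] (.d 393 392 392 393 397)
 (.a 1 [392] (.d 397 393 393 394 398)
 (.a 0 [393,397] (.q 330 (.a 1 [] (.d 297 2312 264 2345 429)
 (.a 1 [264] (.d 429 2345 297 2378 462)
 (.a 0 [297,429] (.q 426 (.a 1 [] (.d 362 1322 298 1354 458)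
 (.a 1 [298] (.d 364 3374 302 3405 457)
 .e)))
 .e))))
 .e)))) (by decide +kernel)

theorem b5_1155 : S (PX [333,498] [335,366,432,465,564]) := S.of (.q 397 (.a 1 [] (.d 395 393 393 394 398)
 (.a 0 [393,395,398] (.q 429 (.a 1 [] (.d 365 1325 301 1357 461)
 (.a 1 [301] (.d 462 2378 330 2411 495)
 .e)))
 .e))) (by decide +kernel)

theorem b5_1156 : S (PX [333,498] [365,366,432,465,564]) := S.of (.q 332 (.a 1 [] (.d 301 3342 270 3373 425)
 (.a 1 [270] (.d 425 3373 301 3404 456)
 (.a 0 [301,425] (.q 330 (.a 1 [] (.d 331 329 329 330 334)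
 (.a 1 [329] (.d 429 2345 297 2378 462)
 .e)))
 .e)))) (by decide +kernel)

theorem b5_1157 : S (PX [333,498] [366,392,432,465,564]) := S.of (.q 332 (.a 1 [] (.d 301 3342 270 3373 425)
 (.a 1 [270] (.d 425 3373 301 3404 456)
 (.a 0 [301,425] (.q 330 (.a 1 [] (.d 331 329 329 330 334)
 (.a 1 [329] (.d 429 2345 297 2378 462)
 .e)))
 .e)))) (by decide +kernel)

theorem b5_1158 : S (PX [333,498] [366,425,432,465,564]) := S.of (.q 395 (.a 1 [] (.d 393 392 392 393 397)
 (.a 1 [392] (.d 397 393 393 394 398)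
 (.a 0 [393,397] (.q 364 (.a 1 [] (.d 302 3343 271 3374 426)
 (.a 1 [271] (.d 426 3374 302 3405 457)
 (.a 0 [302,426] (.q 428 (.a 1 [] (.d 332 1324 300 1356 460)
 (.a 1 [300] (.d 460 1356 332 1388 492)
 (.a 0 [332,460] (.q 362 (.a 1 [] (.d 361 360 360 361 365)
 (.a 1 [360] (.d 461 2377 329 2410 494)
 .e)))
 .e))))
 .e))))
 .e)))) (by decide +kernel)

theorem b5_1159 : S (PX [333,498] [366,428,432,465,564]) := S.of (.q 429 (.a 1 [] (.d 330 2345 297 2378 462)
 (.a 1 [297] (.d 462 2378 330 2411 495)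
 (.a 0 [330,462] (.q 397 (.a 1 [] (.d 395 393 393 394 398)
 (.a 1 [393] (.d 365 1325 301 1357 461)
 .e)))
 .e)))) (by decide +kernel)

theorem b5_1160 : S (PX [333,498] [366,432,465,490,564]) := S.of (.q 395 (.a 1 [] (.d 393 392 392 393 397)
 (.a 1 [392] (.d 397 393 393 394 398)
 (.a 0 [393,397] (.q 459 (.a 1 [] (.d 427 1355 331 1387 491)
 (.a 0 [331,427,491] (.q 364 (.a 1 [] (.d 302 3343 271 3374 426)
 (.a 1 [271] (.d 426 3374 302 3405 457)
 (.a 0 [302,426] (.q 332 (.a 1 [] (.d 300 1292 268 1324 428)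
 (.a 1 [268] (.d 428 1324 300 1356 460)
 (.a 1 [300] (.d 301 3342 270 3373 425)
 .e))))
 .e))))
 .e)))
 .e)))) (by decide +kernel)

theorem b5_1171 : S (PX [333,498] [399,400,432,465,564]) := S.of (.q 332 (.a 1 [] (.d 301 3342 270 3373 425)
 (.a 1 [270] (.d 425 3373 301 3404 456)
 (.a 0 [301,425] (.q 330 (.a 1 [] (.d 331 329 329 330 334)
 (.a 1 [329] (.d 429 2345 297 2378 462)
 .e)))
 .e)))) (by decide +kernel)

theorem b5_1172 : S (PX [333,498] [399,428,432,465,564]) := S.of (.q 395 (.a 1 [] (.d 393 392 392 393 397)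
 (.a 1 [392] (.d 397 393 393 394 398)
 (.a 0 [393,397] (.q 364 (.a 1 [] (.d 302 3343 271 3374 426)
 (.a 1 [271] (.d 426 3374 302 3405 457)
 (.a 0 [302,426] (.q 332 (.a 1 [] (.d 301 3342 270 3373 425)
 (.a 1 [270] (.d 425 3373 301 3404 456)
 (.a 0 [301,425] (.q 427 (.a 1 [] (.d 331 1323 299 1355 459)
 (.a 1 [299] (.d 459 1355 331 1387 491)
 (.a 1 [459] (.r 331 1323 299 (.d 334 330 330 331 335))
 (.a 0 [331] (.q 365 (.a 1 [] (.d 362 361 361 362 366)
 (.a 1 [361] (.d 366 362 362 363 367)
 (.a 1 [362] (.d 334 3375 303 3406 458)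
 .e))))
 .e)))))
 .e))))
 .e))))
 .e)))) (by decide +kernel)

theorem b5_1175 : S (PX [498] [428,432,465,564]) := S.of (.q 425 (.a 1 [] (.d 332 3373 301 3404 456)
 (.a 1 [301] (.d 456 3404 332 3435 487)
 (.a 0 [332,456] (.q 393 (.a 1 [] (.d 395 392 392 393 397)
 (.a 0 [392,395,397] (.q 361 (.a 1 [] (.d 329 1321 297 1353 457)
 (.a 1 [297] (.d 457 1353 329 1385 489)
 (.a 1 [457] (.r 297 1321 329 (.d 330 2312 264 2345 429))
 (.a 0 [329] (.r 489 1385 457 (.q 362 (.a 1 [] (.d 360 359 359 360 364)
 (.a 1 [359] (.d 364 360 360 361 365)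
 (.a 1 [360] (.r 365 361 364 (.r 427 3437 458 (.d 328 2343 295 2376 460)))
 (.a 0 [364] (.q 426 (.a 1 [] (.d 330 1322 298 1354 458)
 (.a 1 [298] (.d 458 1354 330 1386 490)
 (.a 1 [330] (.r 360 359 359 (.d 459 2375 327 2408 492))
 .e))))
 .e))))))
 .e)))))
 .e)))
 .e)))) (by decide +kernel)

theorem b5_1192 : S (PX [465] [428,432,498,564]) := S.of (.q 429 (.a 1 [] (.d 330 2345 297 2378 462)
 (.a 1 [297] (.d 462 2378 330 2411 495)
 (.a 0 [330,462] (.q 397 (.a 1 [] (.d 395 393 393 394 398)
 (.a 0 [393,395,398] (.q 365 (.a 1 [] (.d 333 1325 301 1357 461)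
 (.a 1 [301] (.d 461 1357 333 1389 493)
 (.a 1 [461] (.r 301 1325 333 (.d 332 3342 270 3373 425))
 (.a 0 [333] (.q 427 (.a 1 [] (.d 334 3375 303 3406 458)
 (.a 1 [303] (.d 458 3406 334 3437 489)
 (.a 1 [334] (.r 493 1389 461 (.d 460 2409 361 2442 526))
 .e))))
 .e)))))
 .e)))
 .e)))) (by decide +kernel)

theorem v5_1360 : VW (PX [333,498] [366,432,465,564]) := VW.of base nl_ok fl_ok .nil
  []
  [([304], (PX [333,498] [304,366,432,465,564])), ([330], (PX [333,498] [330,366,432,465,564])), ([332], (PX [333,498] [332,366,432,465,564])), ([335], (PX [333,498] [335,366,432,465,564])), ([365], (PX [333,498] [365,366,432,465,564])), ([392], (PX [333,498] [366,392,432,465,564])), ([425], (PX [333,498] [366,425,432,465,564])), ([428], (PX [333,498] [366,428,432,465,564])), ([490], (PX [333,498] [366,432,465,490,564]))]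
  (by decide +kernel) ⟨b5_1152, b5_1153, b5_1154, b5_1155, b5_1156, b5_1157, b5_1158, b5_1159, b5_1160, trivial⟩

theorem v5_1362 : VW (PX [333,498] [399,432,465,564]) := VW.of base nl_ok fl_ok .nil
  []
  [([400], (PX [333,498] [399,400,432,465,564])), ([428], (PX [333,498] [399,428,432,465,564]))]
  (by decide +kernel) ⟨b5_1171, b5_1172, trivial⟩

theorem w5_1364_366 : S (PX [498] [366,432,465,564]) := VW.play 333 (PX [333,498] [366,432,465,564]) (by decide +kernel) v5_1360

theorem w5_1364_399 : S (PX [498] [399,432,465,564]) := VW.play 333 (PX [333,498] [399,432,465,564]) (by decide +kernel) v5_1362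

theorem v5_1364 : VW (PX [498] [432,465,564]) := VW.of base nl_ok fl_ok .nil
  []
  [([333], (PX [498] [333,432,465,564])), ([366], (PX [498] [366,432,465,564])), ([399], (PX [498] [399,432,465,564])), ([428], (PX [498] [428,432,465,564]))]
  (by decide +kernel) ⟨b5_1151, w5_1364_366, w5_1364_399, b5_1175, trivial⟩

theorem v5_1370 : VW (PX [465] [432,498,564]) := VW.of base nl_ok fl_ok .nil
  [(531, (.cons 597 630 .nil (.cons 630 597 .nil .nil))), (597, (.cons 531 630 .nil (.cons 630 531 (.cons 663 696 .nil (.cons 696 663 .nil .nil)) .nil))), (630, (.cons 531 597 .nil (.cons 597 531 (.cons 663 696 .nil (.cons 696 663 .nil .nil)) .nil)))]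
  [([428], (PX [465] [428,432,498,564]))]
  (by decide +kernel) ⟨b5_1192, trivial⟩

theorem w5_1382_465 : S (PX [] [432,465,564]) := VW.play 498 (PX [498] [432,465,564]) (by decide +kernel) v5_1364

theorem w5_1382_498 : S (PX [] [432,498,564]) := VW.play 465 (PX [465] [432,498,564]) (by decide +kernel) v5_1370

theorem v5_1382 : VW (PX [] [432,564]) := VW.of base nl_ok fl_ok .nil
  [(531, (.cons 465 498 .nil (.cons 498 465 (.cons 597 630 .nil (.cons 630 597 .nil .nil)) .nil)))]
  [([428], (PX [] [428,432,564])), ([465], (PX [] [432,465,564])), ([498], (PX [] [432,498,564]))]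
  (by decide +kernel) ⟨b5_1150, w5_1382_465, w5_1382_498, trivial⟩

theorem v5_371 : VW (PX [] [436,564]) := VW.of base nl_ok fl_ok .nil
  [(468, (.cons 500 532 (.cons 372 404 .nil (.cons 404 372 .nil .nil)) (.cons 532 500 .nil .nil))), (500, (.cons 468 532 (.cons 372 404 .nil (.cons 404 372 .nil .nil)) (.cons 532 468 (.cons 596 628 .nil (.cons 628 596 .nil .nil)) .nil))), (532, (.cons 468 500 .nil (.cons 500 468 (.cons 596 628 .nil (.cons 628 596 .nil .nil)) .nil)))]
  []
  (by decide +kernel) trivial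

theorem v5_1383 : VW (PX [] [440,564]) := VW.of base nl_ok fl_ok .nil
  [(471, (.cons 502 533 (.cons 378 409 .nil (.cons 409 378 .nil .nil)) (.cons 533 502 .nil .nil))), (502, (.cons 471 533 (.cons 378 409 .nil (.cons 409 378 .nil .nil)) (.cons 533 471 (.cons 595 626 .nil (.cons 626 595 .nil .nil)) .nil))), (533, (.cons 471 502 .nil (.cons 502 471 (.cons 595 626 .nil (.cons 626 595 .nil .nil)) .nil)))]
  []
  (by decide +kernel) trivial

theorem v5_1384 : VW (PX [432,597] [465,498,531,564]) := VW.of base nl_ok fl_ok .nil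
  []
  []
  (by decide +kernel) trivial

theorem v5_1385 : VW (PX [432,531] [465,498,564,597]) := VW.of base nl_ok fl_ok .nil
  [(630, (.cons 663 696 .nil (.cons 696 663 .nil .nil))), (663, (.cons 630 696 .nil (.cons 696 630 .nil .nil))), (696, (.cons 630 663 .nil (.cons 663 630 .nil .nil)))]
  []
  (by decide +kernel) trivial

theorem w5_1386_531 : S (PX [432] [465,498,531,564]) := VW.play 597 (PX [432,597] [465,498,531,564]) (by decide +kernel) v5_1384

theorem w5_1386_597 : S (PX [432] [465,498,564,597]) := VW.play 531 (PX [432,531] [465,498,564,597]) (by decide +kernel) v5_1385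

theorem v5_1386 : VW (PX [432] [465,498,564]) := VW.of base nl_ok fl_ok (.cons 531 597 .nil (.cons 597 531 .nil .nil))
  [(630, (.cons 531 597 .nil (.cons 597 531 (.cons 663 696 .nil (.cons 696 663 .nil .nil)) .nil))), (663, (.cons 531 597 .nil (.cons 597 531 (.cons 630 696 .nil (.cons 696 630 .nil .nil)) .nil))), (696, (.cons 531 597 .nil (.cons 597 531 (.cons 630 663 .nil (.cons 663 630 .nil .nil)) .nil)))]
  [([531], (PX [432] [465,498,531,564])), ([597], (PX [432] [465,498,564,597]))]
  (by decide +kernel) ⟨w5_1386_531, w5_1386_597, trivial⟩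

theorem v5_1406 : VW (PX [498] [465,531,564]) := VW.of base nl_ok fl_ok .nil
  [(597, (.cons 630 663 .nil (.cons 663 630 .nil .nil))), (630, (.cons 597 663 .nil (.cons 663 597 .nil .nil))), (663, (.cons 597 630 .nil (.cons 630 597 .nil .nil)))]
  []
  (by decide +kernel) trivial

theorem w5_1407_432 : S (PX [] [432,465,564]) := VW.play 498 (PX [498] [432,465,564]) (by decide +kernel) v5_1364

theorem w5_1407_498 : S (PX [] [465,498,564]) := VW.play 432 (PX [432] [465,498,564]) (by decide +kernel) v5_1386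

theorem w5_1407_531 : S (PX [] [465,531,564]) := VW.play 498 (PX [498] [465,531,564]) (by decide +kernel) v5_1406

theorem v5_1407 : VW (PX [] [465,564]) := VW.of base nl_ok fl_ok .nil
  [(597, (.cons 498 531 .nil (.cons 531 498 (.cons 630 663 .nil (.cons 663 630 .nil .nil)) .nil)))]
  [([432], (PX [] [432,465,564])), ([498], (PX [] [465,498,564])), ([531], (PX [] [465,531,564]))]
  (by decide +kernel) ⟨w5_1407_432, w5_1407_498, w5_1407_531, trivial⟩

theorem v5_626 : VW (PX [532] [468,500,564]) := VW.of base nl_ok fl_ok .nil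
  [(372, (.cons 404 436 .nil (.cons 436 404 .nil .nil))), (404, (.cons 372 436 .nil (.cons 436 372 .nil .nil))), (436, (.cons 372 404 .nil (.cons 404 372 .nil .nil)))]
  []
  (by decide +kernel) trivial

theorem v5_666 : VW (PX [500] [468,532,564]) := VW.of base nl_ok fl_ok .nil
  [(596, (.cons 628 660 .nil (.cons 660 628 .nil .nil))), (628, (.cons 596 660 .nil (.cons 660 596 .nil .nil))), (660, (.cons 596 628 .nil (.cons 628 596 .nil .nil)))]
  []
  (by decide +kernel) trivial

theorem w5_683_500 : S (PX [] [468,500,564]) := VW.play 532 (PX [532] [468,500,564]) (by decide +kernel) v5_626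

theorem w5_683_532 : S (PX [] [468,532,564]) := VW.play 500 (PX [500] [468,532,564]) (by decide +kernel) v5_666

theorem v5_683 : VW (PX [] [468,564]) := VW.of base nl_ok fl_ok .nil
  [(436, (.cons 500 532 (.cons 372 404 .nil (.cons 404 372 .nil .nil)) (.cons 532 500 .nil .nil))), (596, (.cons 500 532 .nil (.cons 532 500 (.cons 628 660 .nil (.cons 660 628 .nil .nil)) .nil)))]
  [([500], (PX [] [468,500,564])), ([532], (PX [] [468,532,564]))]
  (by decide +kernel) ⟨w5_683_500, w5_683_532, trivial⟩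

theorem v5_1411 : VW (PX [533] [471,502,564]) := VW.of base nl_ok fl_ok .nil
  [(378, (.cons 409 440 .nil (.cons 440 409 .nil .nil))), (409, (.cons 378 440 .nil (.cons 440 378 .nil .nil))), (440, (.cons 378 409 .nil (.cons 409 378 .nil .nil)))]
  []
  (by decide +kernel) trivial

theorem v5_1426 : VW (PX [502] [471,533,564]) := VW.of base nl_ok fl_ok .nil
  [(595, (.cons 626 657 .nil (.cons 657 626 .nil .nil))), (626, (.cons 595 657 .nil (.cons 657 595 .nil .nil))), (657, (.cons 595 626 .nil (.cons 626 595 .nil .nil)))]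
  []
  (by decide +kernel) trivial

theorem w5_1429_502 : S (PX [] [471,502,564]) := VW.play 533 (PX [533] [471,502,564]) (by decide +kernel) v5_1411

theorem w5_1429_533 : S (PX [] [471,533,564]) := VW.play 502 (PX [502] [471,533,564]) (by decide +kernel) v5_1426

theorem v5_1429 : VW (PX [] [471,564]) := VW.of base nl_ok fl_ok .nil
  [(440, (.cons 502 533 (.cons 378 409 .nil (.cons 409 378 .nil .nil)) (.cons 533 502 .nil .nil))), (595, (.cons 502 533 .nil (.cons 533 502 (.cons 626 657 .nil (.cons 657 626 .nil .nil)) .nil)))]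
  [([502], (PX [] [471,502,564])), ([533], (PX [] [471,533,564]))]
  (by decide +kernel) ⟨w5_1429_502, w5_1429_533, trivial⟩

theorem v5_1430 : VW (PX [465,630] [498,531,564,597]) := VW.of base nl_ok fl_ok .nil
  []
  []
  (by decide +kernel) trivial

theorem v5_1431 : VW (PX [465,597] [498,531,564,630]) := VW.of base nl_ok fl_ok .nil
  []
  []
  (by decide +kernel) trivial

theorem w5_1432_597 : S (PX [465] [498,531,564,597]) := VW.play 630 (PX [465,630] [498,531,564,597]) (by decide +kernel) v5_1430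

theorem w5_1432_630 : S (PX [465] [498,531,564,630]) := VW.play 597 (PX [465,597] [498,531,564,630]) (by decide +kernel) v5_1431

theorem v5_1432 : VW (PX [465] [498,531,564]) := VW.of base nl_ok fl_ok (.cons 597 630 .nil (.cons 630 597 .nil .nil))
  [(663, (.cons 597 630 .nil (.cons 630 597 .nil .nil))), (696, (.cons 597 630 .nil (.cons 630 597 .nil .nil))), (729, (.cons 597 630 .nil (.cons 630 597 .nil .nil)))]
  [([597], (PX [465] [498,531,564,597])), ([630], (PX [465] [498,531,564,630]))]
  (by decide +kernel) ⟨w5_1432_597, w5_1432_630, trivial⟩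

theorem v5_1447 : VW (PX [531] [498,564,597]) := VW.of base nl_ok fl_ok .nil
  [(630, (.cons 663 696 .nil (.cons 696 663 .nil .nil))), (663, (.cons 630 696 .nil (.cons 696 630 .nil .nil))), (696, (.cons 630 663 .nil (.cons 663 630 .nil .nil)))]
  []
  (by decide +kernel) trivial

theorem w5_1448_432 : S (PX [] [432,498,564]) := VW.play 465 (PX [465] [432,498,564]) (by decide +kernel) v5_1370

theorem w5_1448_465 : S (PX [] [465,498,564]) := VW.play 432 (PX [432] [465,498,564]) (by decide +kernel) v5_1386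

theorem w5_1448_531 : S (PX [] [498,531,564]) := VW.play 465 (PX [465] [498,531,564]) (by decide +kernel) v5_1432

theorem w5_1448_597 : S (PX [] [498,564,597]) := VW.play 531 (PX [531] [498,564,597]) (by decide +kernel) v5_1447

theorem v5_1448 : VW (PX [] [498,564]) := VW.of base nl_ok fl_ok .nil
  [(630, (.cons 531 597 (.cons 432 465 .nil (.cons 465 432 .nil .nil)) (.cons 597 531 (.cons 663 696 .nil (.cons 696 663 .nil .nil)) .nil)))]
  [([432], (PX [] [432,498,564])), ([465], (PX [] [465,498,564])), ([531], (PX [] [498,531,564])), ([597], (PX [] [498,564,597]))]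
  (by decide +kernel) ⟨w5_1448_432, w5_1448_465, w5_1448_531, w5_1448_597, trivial⟩

theorem v5_967 : VW (PX [468,628] [500,532,564,596]) := VW.of base nl_ok fl_ok .nil
  []
  []
  (by decide +kernel) trivial

theorem v5_968 : VW (PX [468,596] [500,532,564,628]) := VW.of base nl_ok fl_ok .nil
  []
  []
  (by decide +kernel) trivial

theorem w5_969_596 : S (PX [468] [500,532,564,596]) := VW.play 628 (PX [468,628] [500,532,564,596]) (by decide +kernel) v5_967

theorem w5_969_628 : S (PX [468] [500,532,564,628]) := VW.play 596 (PX [468,596] [500,532,564,628]) (by decide +kernel) v5_968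

theorem v5_969 : VW (PX [468] [500,532,564]) := VW.of base nl_ok fl_ok (.cons 596 628 .nil (.cons 628 596 .nil .nil))
  [(660, (.cons 596 628 .nil (.cons 628 596 .nil .nil))), (692, (.cons 596 628 .nil (.cons 628 596 .nil .nil))), (724, (.cons 596 628 .nil (.cons 628 596 .nil .nil)))]
  [([596], (PX [468] [500,532,564,596])), ([628], (PX [468] [500,532,564,628]))]
  (by decide +kernel) ⟨w5_969_596, w5_969_628, trivial⟩

theorem v5_1028 : VW (PX [532] [500,564,596]) := VW.of base nl_ok fl_ok .nil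
  [(628, (.cons 660 692 .nil (.cons 692 660 .nil .nil))), (660, (.cons 628 692 .nil (.cons 692 628 .nil .nil))), (692, (.cons 628 660 .nil (.cons 660 628 .nil .nil)))]
  []
  (by decide +kernel) trivial

theorem w5_1031_468 : S (PX [] [468,500,564]) := VW.play 532 (PX [532] [468,500,564]) (by decide +kernel) v5_626

theorem w5_1031_532 : S (PX [] [500,532,564]) := VW.play 468 (PX [468] [500,532,564]) (by decide +kernel) v5_969

theorem w5_1031_596 : S (PX [] [500,564,596]) := VW.play 532 (PX [532] [500,564,596]) (by decide +kernel) v5_1028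

theorem v5_1031 : VW (PX [] [500,564]) := VW.of base nl_ok fl_ok .nil
  [(436, (.cons 468 532 (.cons 372 404 .nil (.cons 404 372 .nil .nil)) (.cons 532 468 (.cons 596 628 .nil (.cons 628 596 .nil .nil)) .nil))), (628, (.cons 532 596 (.cons 436 468 .nil (.cons 468 436 .nil .nil)) (.cons 596 532 (.cons 660 692 .nil (.cons 692 660 .nil .nil)) .nil)))]
  [([468], (PX [] [468,500,564])), ([532], (PX [] [500,532,564])), ([596], (PX [] [500,564,596]))]
  (by decide +kernel) ⟨w5_1031_468, w5_1031_532, w5_1031_596, trivial⟩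

theorem v5_1449 : VW (PX [471,626] [502,533,564,595]) := VW.of base nl_ok fl_ok .nil
  []
  []
  (by decide +kernel) trivial

theorem v5_1450 : VW (PX [471,595] [502,533,564,626]) := VW.of base nl_ok fl_ok .nil
  []
  []
  (by decide +kernel) trivial

theorem w5_1451_595 : S (PX [471] [502,533,564,595]) := VW.play 626 (PX [471,626] [502,533,564,595]) (by decide +kernel) v5_1449

theorem w5_1451_626 : S (PX [471] [502,533,564,626]) := VW.play 595 (PX [471,595] [502,533,564,626]) (by decide +kernel) v5_1450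

theorem v5_1451 : VW (PX [471] [502,533,564]) := VW.of base nl_ok fl_ok (.cons 595 626 .nil (.cons 626 595 .nil .nil))
  [(657, (.cons 595 626 .nil (.cons 626 595 .nil .nil))), (688, (.cons 595 626 .nil (.cons 626 595 .nil .nil))), (719, (.cons 595 626 .nil (.cons 626 595 .nil .nil)))]
  [([595], (PX [471] [502,533,564,595])), ([626], (PX [471] [502,533,564,626]))]
  (by decide +kernel) ⟨w5_1451_595, w5_1451_626, trivial⟩

theorem v5_1468 : VW (PX [533] [502,564,595]) := VW.of base nl_ok fl_ok .nil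
  [(626, (.cons 657 688 .nil (.cons 688 657 .nil .nil))), (657, (.cons 626 688 .nil (.cons 688 626 .nil .nil))), (688, (.cons 626 657 .nil (.cons 657 626 .nil .nil)))]
  []
  (by decide +kernel) trivial

theorem w5_1471_471 : S (PX [] [471,502,564]) := VW.play 533 (PX [533] [471,502,564]) (by decide +kernel) v5_1411

theorem w5_1471_533 : S (PX [] [502,533,564]) := VW.play 471 (PX [471] [502,533,564]) (by decide +kernel) v5_1451

theorem w5_1471_595 : S (PX [] [502,564,595]) := VW.play 533 (PX [533] [502,564,595]) (by decide +kernel) v5_1468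

theorem v5_1471 : VW (PX [] [502,564]) := VW.of base nl_ok fl_ok .nil
  [(440, (.cons 471 533 (.cons 378 409 .nil (.cons 409 378 .nil .nil)) (.cons 533 471 (.cons 595 626 .nil (.cons 626 595 .nil .nil)) .nil))), (626, (.cons 533 595 (.cons 440 471 .nil (.cons 471 440 .nil .nil)) (.cons 595 533 (.cons 657 688 .nil (.cons 688 657 .nil .nil)) .nil)))]
  [([471], (PX [] [471,502,564])), ([533], (PX [] [502,533,564])), ([595], (PX [] [502,564,595]))]
  (by decide +kernel) ⟨w5_1471_471, w5_1471_533, w5_1471_595, trivial⟩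

theorem v5_1472 : VW (PX [498,663] [531,564,597,630]) := VW.of base nl_ok fl_ok .nil
  []
  []
  (by decide +kernel) trivial

theorem v5_1473 : VW (PX [498,630] [531,564,597,663]) := VW.of base nl_ok fl_ok .nil
  []
  []
  (by decide +kernel) trivial

theorem w5_1474_630 : S (PX [498] [531,564,597,630]) := VW.play 663 (PX [498,663] [531,564,597,630]) (by decide +kernel) v5_1472

theorem w5_1474_663 : S (PX [498] [531,564,597,663]) := VW.play 630 (PX [498,630] [531,564,597,663]) (by decide +kernel) v5_1473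

theorem v5_1474 : VW (PX [498] [531,564,597]) := VW.of base nl_ok fl_ok (.cons 630 663 .nil (.cons 663 630 .nil .nil))
  [(696, (.cons 630 663 .nil (.cons 663 630 .nil .nil))), (729, (.cons 630 663 .nil (.cons 663 630 .nil .nil))), (762, (.cons 630 663 .nil (.cons 663 630 .nil .nil)))]
  [([630], (PX [498] [531,564,597,630])), ([663], (PX [498] [531,564,597,663]))]
  (by decide +kernel) ⟨w5_1474_630, w5_1474_663, trivial⟩

theorem v5_1477 : VW (PX [597] [531,564,630]) := VW.of base nl_ok fl_ok .nil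
  [(432, (.cons 465 498 .nil (.cons 498 465 .nil .nil))), (465, (.cons 432 498 .nil (.cons 498 432 .nil .nil))), (498, (.cons 432 465 .nil (.cons 465 432 .nil .nil)))]
  []
  (by decide +kernel) trivial

theorem w5_1478_465 : S (PX [] [465,531,564]) := VW.play 498 (PX [498] [465,531,564]) (by decide +kernel) v5_1406

theorem w5_1478_498 : S (PX [] [498,531,564]) := VW.play 465 (PX [465] [498,531,564]) (by decide +kernel) v5_1432

theorem w5_1478_597 : S (PX [] [531,564,597]) := VW.play 498 (PX [498] [531,564,597]) (by decide +kernel) v5_1474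

theorem w5_1478_630 : S (PX [] [531,564,630]) := VW.play 597 (PX [597] [531,564,630]) (by decide +kernel) v5_1477

theorem v5_1478 : VW (PX [] [531,564]) := VW.of base nl_ok fl_ok .nil
  [(432, (.cons 465 498 .nil (.cons 498 465 (.cons 597 630 .nil (.cons 630 597 .nil .nil)) .nil))), (663, (.cons 597 630 (.cons 465 498 .nil (.cons 498 465 .nil .nil)) (.cons 630 597 .nil .nil)))]
  [([465], (PX [] [465,531,564])), ([498], (PX [] [498,531,564])), ([597], (PX [] [531,564,597])), ([630], (PX [] [531,564,630]))]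
  (by decide +kernel) ⟨w5_1478_465, w5_1478_498, w5_1478_597, w5_1478_630, trivial⟩

theorem v5_1287 : VW (PX [500,660] [532,564,596,628]) := VW.of base nl_ok fl_ok .nil
  []
  []
  (by decide +kernel) trivial

theorem v5_1288 : VW (PX [500,628] [532,564,596,660]) := VW.of base nl_ok fl_ok .nil
  []
  []
  (by decide +kernel) trivial

theorem w5_1289_628 : S (PX [500] [532,564,596,628]) := VW.play 660 (PX [500,660] [532,564,596,628]) (by decide +kernel) v5_1287

theorem w5_1289_660 : S (PX [500] [532,564,596,660]) := VW.play 628 (PX [500,628] [532,564,596,660]) (by decide +kernel) v5_1288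

theorem v5_1289 : VW (PX [500] [532,564,596]) := VW.of base nl_ok fl_ok (.cons 628 660 .nil (.cons 660 628 .nil .nil))
  [(692, (.cons 628 660 .nil (.cons 660 628 .nil .nil))), (724, (.cons 628 660 .nil (.cons 660 628 .nil .nil))), (756, (.cons 628 660 .nil (.cons 660 628 .nil .nil)))]
  [([628], (PX [500] [532,564,596,628])), ([660], (PX [500] [532,564,596,660]))]
  (by decide +kernel) ⟨w5_1289_628, w5_1289_660, trivial⟩

theorem v5_1294 : VW (PX [596] [532,564,628]) := VW.of base nl_ok fl_ok .nil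
  [(436, (.cons 468 500 .nil (.cons 500 468 .nil .nil))), (468, (.cons 436 500 .nil (.cons 500 436 .nil .nil))), (500, (.cons 436 468 .nil (.cons 468 436 .nil .nil)))]
  []
  (by decide +kernel) trivial

theorem w5_1306_468 : S (PX [] [468,532,564]) := VW.play 500 (PX [500] [468,532,564]) (by decide +kernel) v5_666

theorem w5_1306_500 : S (PX [] [500,532,564]) := VW.play 468 (PX [468] [500,532,564]) (by decide +kernel) v5_969

theorem w5_1306_596 : S (PX [] [532,564,596]) := VW.play 500 (PX [500] [532,564,596]) (by decide +kernel) v5_1289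

theorem w5_1306_628 : S (PX [] [532,564,628]) := VW.play 596 (PX [596] [532,564,628]) (by decide +kernel) v5_1294

theorem v5_1306 : VW (PX [] [532,564]) := VW.of base nl_ok fl_ok .nil
  [(436, (.cons 468 500 .nil (.cons 500 468 (.cons 596 628 .nil (.cons 628 596 .nil .nil)) .nil))), (660, (.cons 596 628 (.cons 468 500 .nil (.cons 500 468 .nil .nil)) (.cons 628 596 .nil .nil)))]
  [([468], (PX [] [468,532,564])), ([500], (PX [] [500,532,564])), ([596], (PX [] [532,564,596])), ([628], (PX [] [532,564,628]))]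
  (by decide +kernel) ⟨w5_1306_468, w5_1306_500, w5_1306_596, w5_1306_628, trivial⟩

theorem v5_1479 : VW (PX [502,657] [533,564,595,626]) := VW.of base nl_ok fl_ok .nil
  []
  []
  (by decide +kernel) trivial

theorem v5_1480 : VW (PX [502,626] [533,564,595,657]) := VW.of base nl_ok fl_ok .nil
  []
  []
  (by decide +kernel) trivial

theorem w5_1481_626 : S (PX [502] [533,564,595,626]) := VW.play 657 (PX [502,657] [533,564,595,626]) (by decide +kernel) v5_1479

theorem w5_1481_657 : S (PX [502] [533,564,595,657]) := VW.play 626 (PX [502,626] [533,564,595,657]) (by decide +kernel) v5_1480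

theorem v5_1481 : VW (PX [502] [533,564,595]) := VW.of base nl_ok fl_ok (.cons 626 657 .nil (.cons 657 626 .nil .nil))
  [(688, (.cons 626 657 .nil (.cons 657 626 .nil .nil))), (719, (.cons 626 657 .nil (.cons 657 626 .nil .nil))), (750, (.cons 626 657 .nil (.cons 657 626 .nil .nil)))]
  [([626], (PX [502] [533,564,595,626])), ([657], (PX [502] [533,564,595,657]))]
  (by decide +kernel) ⟨w5_1481_626, w5_1481_657, trivial⟩

theorem v5_1486 : VW (PX [595] [533,564,626]) := VW.of base nl_ok fl_ok .nil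
  [(440, (.cons 471 502 .nil (.cons 502 471 .nil .nil))), (471, (.cons 440 502 .nil (.cons 502 440 .nil .nil))), (502, (.cons 440 471 .nil (.cons 471 440 .nil .nil)))]
  []
  (by decide +kernel) trivial

theorem w5_1498_471 : S (PX [] [471,533,564]) := VW.play 502 (PX [502] [471,533,564]) (by decide +kernel) v5_1426

theorem w5_1498_502 : S (PX [] [502,533,564]) := VW.play 471 (PX [471] [502,533,564]) (by decide +kernel) v5_1451

theorem w5_1498_595 : S (PX [] [533,564,595]) := VW.play 502 (PX [502] [533,564,595]) (by decide +kernel) v5_1481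

theorem w5_1498_626 : S (PX [] [533,564,626]) := VW.play 595 (PX [595] [533,564,626]) (by decide +kernel) v5_1486

theorem v5_1498 : VW (PX [] [533,564]) := VW.of base nl_ok fl_ok .nil
  [(440, (.cons 471 502 .nil (.cons 502 471 (.cons 595 626 .nil (.cons 626 595 .nil .nil)) .nil))), (657, (.cons 595 626 (.cons 471 502 .nil (.cons 502 471 .nil .nil)) (.cons 626 595 .nil .nil)))]
  [([471], (PX [] [471,533,564])), ([502], (PX [] [502,533,564])), ([595], (PX [] [533,564,595])), ([626], (PX [] [533,564,626]))]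
  (by decide +kernel) ⟨w5_1498_471, w5_1498_502, w5_1498_595, w5_1498_626, trivial⟩

theorem v5_1499 : VW (PX [] [560,564]) := VW.of base nl_ok fl_ok .nil
  [(561, (.cons 562 563 (.cons 558 559 .nil (.cons 559 558 .nil .nil)) (.cons 563 562 .nil .nil))), (562, (.cons 561 563 (.cons 558 559 .nil (.cons 559 558 .nil .nil)) (.cons 563 561 (.cons 565 566 .nil (.cons 566 565 .nil .nil)) .nil))), (563, (.cons 561 562 .nil (.cons 562 561 (.cons 565 566 .nil (.cons 566 565 .nil .nil)) .nil)))]
  []
  (by decide +kernel) trivial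

theorem v5_1503 : VW (PX [563] [561,562,564]) := VW.of base nl_ok fl_ok .nil
  [(558, (.cons 559 560 .nil (.cons 560 559 .nil .nil))), (559, (.cons 558 560 .nil (.cons 560 558 .nil .nil))), (560, (.cons 558 559 .nil (.cons 559 558 .nil .nil)))]
  []
  (by decide +kernel) trivial

theorem v5_1518 : VW (PX [562] [561,563,564]) := VW.of base nl_ok fl_ok .nil
  [(565, (.cons 566 567 .nil (.cons 567 566 .nil .nil))), (566, (.cons 565 567 .nil (.cons 567 565 .nil .nil))), (567, (.cons 565 566 .nil (.cons 566 565 .nil .nil)))]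
  []
  (by decide +kernel) trivial

theorem w5_1519_562 : S (PX [] [561,562,564]) := VW.play 563 (PX [563] [561,562,564]) (by decide +kernel) v5_1503

theorem w5_1519_563 : S (PX [] [561,563,564]) := VW.play 562 (PX [562] [561,563,564]) (by decide +kernel) v5_1518

theorem v5_1519 : VW (PX [] [561,564]) := VW.of base nl_ok fl_ok .nil
  [(560, (.cons 562 563 (.cons 558 559 .nil (.cons 559 558 .nil .nil)) (.cons 563 562 .nil .nil))), (565, (.cons 562 563 .nil (.cons 563 562 (.cons 566 567 .nil (.cons 567 566 .nil .nil)) .nil)))]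
  [([562], (PX [] [561,562,564])), ([563], (PX [] [561,563,564]))]
  (by decide +kernel) ⟨w5_1519_562, w5_1519_563, trivial⟩

theorem v5_1520 : VW (PX [561,566] [562,563,564,565]) := VW.of base nl_ok fl_ok .nil
  []
  []
  (by decide +kernel) trivial

theorem v5_1521 : VW (PX [561,565] [562,563,564,566]) := VW.of base nl_ok fl_ok .nil
  []
  []
  (by decide +kernel) trivial

theorem w5_1522_565 : S (PX [561] [562,563,564,565]) := VW.play 566 (PX [561,566] [562,563,564,565]) (by decide +kernel) v5_1520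

theorem w5_1522_566 : S (PX [561] [562,563,564,566]) := VW.play 565 (PX [561,565] [562,563,564,566]) (by decide +kernel) v5_1521

theorem v5_1522 : VW (PX [561] [562,563,564]) := VW.of base nl_ok fl_ok (.cons 565 566 .nil (.cons 566 565 .nil .nil))
  [(567, (.cons 565 566 .nil (.cons 566 565 .nil .nil))), (568, (.cons 565 566 .nil (.cons 566 565 .nil .nil))), (569, (.cons 565 566 .nil (.cons 566 565 .nil .nil)))]
  [([565], (PX [561] [562,563,564,565])), ([566], (PX [561] [562,563,564,566]))]
  (by decide +kernel) ⟨w5_1522_565, w5_1522_566, trivial⟩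

theorem v5_1537 : VW (PX [563] [562,564,565]) := VW.of base nl_ok fl_ok .nil
  [(566, (.cons 567 568 .nil (.cons 568 567 .nil .nil))), (567, (.cons 566 568 .nil (.cons 568 566 .nil .nil))), (568, (.cons 566 567 .nil (.cons 567 566 .nil .nil)))]
  []
  (by decide +kernel) trivial

theorem w5_1538_561 : S (PX [] [561,562,564]) := VW.play 563 (PX [563] [561,562,564]) (by decide +kernel) v5_1503

theorem w5_1538_563 : S (PX [] [562,563,564]) := VW.play 561 (PX [561] [562,563,564]) (by decide +kernel) v5_1522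

theorem w5_1538_565 : S (PX [] [562,564,565]) := VW.play 563 (PX [563] [562,564,565]) (by decide +kernel) v5_1537

theorem v5_1538 : VW (PX [] [562,564]) := VW.of base nl_ok fl_ok .nil
  [(560, (.cons 561 563 (.cons 558 559 .nil (.cons 559 558 .nil .nil)) (.cons 563 561 (.cons 565 566 .nil (.cons 566 565 .nil .nil)) .nil))), (566, (.cons 563 565 (.cons 560 561 .nil (.cons 561 560 .nil .nil)) (.cons 565 563 (.cons 567 568 .nil (.cons 568 567 .nil .nil)) .nil)))]
  [([561], (PX [] [561,562,564])), ([563], (PX [] [562,563,564])), ([565], (PX [] [562,564,565]))]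
  (by decide +kernel) ⟨w5_1538_561, w5_1538_563, w5_1538_565, trivial⟩

theorem v5_1539 : VW (PX [562,567] [563,564,565,566]) := VW.of base nl_ok fl_ok .nil
  []
  []
  (by decide +kernel) trivial

theorem v5_1540 : VW (PX [562,566] [563,564,565,567]) := VW.of base nl_ok fl_ok .nil
  []
  []
  (by decide +kernel) trivial

theorem w5_1541_566 : S (PX [562] [563,564,565,566]) := VW.play 567 (PX [562,567] [563,564,565,566]) (by decide +kernel) v5_1539

theorem w5_1541_567 : S (PX [562] [563,564,565,567]) := VW.play 566 (PX [562,566] [563,564,565,567]) (by decide +kernel) v5_1540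

theorem v5_1541 : VW (PX [562] [563,564,565]) := VW.of base nl_ok fl_ok (.cons 566 567 .nil (.cons 567 566 .nil .nil))
  [(568, (.cons 566 567 .nil (.cons 567 566 .nil .nil))), (569, (.cons 566 567 .nil (.cons 567 566 .nil .nil))), (570, (.cons 566 567 .nil (.cons 567 566 .nil .nil)))]
  [([566], (PX [562] [563,564,565,566])), ([567], (PX [562] [563,564,565,567]))]
  (by decide +kernel) ⟨w5_1541_566, w5_1541_567, trivial⟩

theorem v5_1544 : VW (PX [565] [563,564,566]) := VW.of base nl_ok fl_ok .nil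
  [(560, (.cons 561 562 .nil (.cons 562 561 .nil .nil))), (561, (.cons 560 562 .nil (.cons 562 560 .nil .nil))), (562, (.cons 560 561 .nil (.cons 561 560 .nil .nil)))]
  []
  (by decide +kernel) trivial

theorem w5_1545_561 : S (PX [] [561,563,564]) := VW.play 562 (PX [562] [561,563,564]) (by decide +kernel) v5_1518

theorem w5_1545_562 : S (PX [] [562,563,564]) := VW.play 561 (PX [561] [562,563,564]) (by decide +kernel) v5_1522

theorem w5_1545_565 : S (PX [] [563,564,565]) := VW.play 562 (PX [562] [563,564,565]) (by decide +kernel) v5_1541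

theorem w5_1545_566 : S (PX [] [563,564,566]) := VW.play 565 (PX [565] [563,564,566]) (by decide +kernel) v5_1544

theorem v5_1545 : VW (PX [] [563,564]) := VW.of base nl_ok fl_ok .nil
  [(560, (.cons 561 562 .nil (.cons 562 561 (.cons 565 566 .nil (.cons 566 565 .nil .nil)) .nil))), (567, (.cons 565 566 (.cons 561 562 .nil (.cons 562 561 .nil .nil)) (.cons 566 565 .nil .nil)))]
  [([561], (PX [] [561,563,564])), ([562], (PX [] [562,563,564])), ([565], (PX [] [563,564,565])), ([566], (PX [] [563,564,566]))]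
  (by decide +kernel) ⟨w5_1545_561, w5_1545_562, w5_1545_565, w5_1545_566, trivial⟩

theorem v5_1546 : VW (PX [563,568] [564,565,566,567]) := VW.of base nl_ok fl_ok .nil
  []
  []
  (by decide +kernel) trivial

theorem v5_1547 : VW (PX [563,567] [564,565,566,568]) := VW.of base nl_ok fl_ok .nil
  []
  []
  (by decide +kernel) trivial

theorem w5_1548_567 : S (PX [563] [564,565,566,567]) := VW.play 568 (PX [563,568] [564,565,566,567]) (by decide +kernel) v5_1546

theorem w5_1548_568 : S (PX [563] [564,565,566,568]) := VW.play 567 (PX [563,567] [564,565,566,568]) (by decide +kernel) v5_1547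

theorem v5_1548 : VW (PX [563] [564,565,566]) := VW.of base nl_ok fl_ok (.cons 567 568 .nil (.cons 568 567 .nil .nil))
  [(569, (.cons 567 568 .nil (.cons 568 567 .nil .nil))), (570, (.cons 567 568 .nil (.cons 568 567 .nil .nil))), (571, (.cons 567 568 .nil (.cons 568 567 .nil .nil)))]
  [([567], (PX [563] [564,565,566,567])), ([568], (PX [563] [564,565,566,568]))]
  (by decide +kernel) ⟨w5_1548_567, w5_1548_568, trivial⟩

theorem v5_1553 : VW (PX [566] [564,565,567]) := VW.of base nl_ok fl_ok .nil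
  [(561, (.cons 562 563 .nil (.cons 563 562 .nil .nil))), (562, (.cons 561 563 .nil (.cons 563 561 .nil .nil))), (563, (.cons 561 562 .nil (.cons 562 561 .nil .nil)))]
  []
  (by decide +kernel) trivial

theorem w5_1554_562 : S (PX [] [562,564,565]) := VW.play 563 (PX [563] [562,564,565]) (by decide +kernel) v5_1537

theorem w5_1554_563 : S (PX [] [563,564,565]) := VW.play 562 (PX [562] [563,564,565]) (by decide +kernel) v5_1541

theorem w5_1554_566 : S (PX [] [564,565,566]) := VW.play 563 (PX [563] [564,565,566]) (by decide +kernel) v5_1548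

theorem w5_1554_567 : S (PX [] [564,565,567]) := VW.play 566 (PX [566] [564,565,567]) (by decide +kernel) v5_1553

theorem v5_1554 : VW (PX [] [564,565]) := VW.of base nl_ok fl_ok .nil
  [(561, (.cons 562 563 .nil (.cons 563 562 (.cons 566 567 .nil (.cons 567 566 .nil .nil)) .nil))), (568, (.cons 566 567 (.cons 562 563 .nil (.cons 563 562 .nil .nil)) (.cons 567 566 .nil .nil)))]
  [([562], (PX [] [562,564,565])), ([563], (PX [] [563,564,565])), ([566], (PX [] [564,565,566])), ([567], (PX [] [564,565,567]))]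
  (by decide +kernel) ⟨w5_1554_562, w5_1554_563, w5_1554_566, w5_1554_567, trivial⟩

theorem v5_1555 : VW (PX [565] [564,566,567]) := VW.of base nl_ok fl_ok .nil
  [(568, (.cons 569 570 .nil (.cons 570 569 .nil .nil))), (569, (.cons 568 570 .nil (.cons 570 568 .nil .nil))), (570, (.cons 568 569 .nil (.cons 569 568 .nil .nil)))]
  []
  (by decide +kernel) trivial

theorem w5_1558_563 : S (PX [] [563,564,566]) := VW.play 565 (PX [565] [563,564,566]) (by decide +kernel) v5_1544

theorem w5_1558_565 : S (PX [] [564,565,566]) := VW.play 563 (PX [563] [564,565,566]) (by decide +kernel) v5_1548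

theorem w5_1558_567 : S (PX [] [564,566,567]) := VW.play 565 (PX [565] [564,566,567]) (by decide +kernel) v5_1555

theorem v5_1558 : VW (PX [] [564,566]) := VW.of base nl_ok fl_ok .nil
  [(562, (.cons 563 565 (.cons 560 561 .nil (.cons 561 560 .nil .nil)) (.cons 565 563 (.cons 567 568 .nil (.cons 568 567 .nil .nil)) .nil))), (568, (.cons 565 567 (.cons 562 563 .nil (.cons 563 562 .nil .nil)) (.cons 567 565 (.cons 569 570 .nil (.cons 570 569 .nil .nil)) .nil)))]
  [([563], (PX [] [563,564,566])), ([565], (PX [] [564,565,566])), ([567], (PX [] [564,566,567]))]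
  (by decide +kernel) ⟨w5_1558_563, w5_1558_565, w5_1558_567, trivial⟩

theorem w5_1559_565 : S (PX [] [564,565,567]) := VW.play 566 (PX [566] [564,565,567]) (by decide +kernel) v5_1553

theorem w5_1559_566 : S (PX [] [564,566,567]) := VW.play 565 (PX [565] [564,566,567]) (by decide +kernel) v5_1555

theorem v5_1559 : VW (PX [] [564,567]) := VW.of base nl_ok fl_ok .nil
  [(563, (.cons 565 566 (.cons 561 562 .nil (.cons 562 561 .nil .nil)) (.cons 566 565 .nil .nil))), (568, (.cons 565 566 .nil (.cons 566 565 (.cons 569 570 .nil (.cons 570 569 .nil .nil)) .nil)))]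
  [([565], (PX [] [564,565,567])), ([566], (PX [] [564,566,567]))]
  (by decide +kernel) ⟨w5_1559_565, w5_1559_566, trivial⟩

theorem v5_1560 : VW (PX [] [564,568]) := VW.of base nl_ok fl_ok .nil
  [(565, (.cons 566 567 (.cons 562 563 .nil (.cons 563 562 .nil .nil)) (.cons 567 566 .nil .nil))), (566, (.cons 565 567 (.cons 562 563 .nil (.cons 563 562 .nil .nil)) (.cons 567 565 (.cons 569 570 .nil (.cons 570 569 .nil .nil)) .nil))), (567, (.cons 565 566 .nil (.cons 566 565 (.cons 569 570 .nil (.cons 570 569 .nil .nil)) .nil)))]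
  []
  (by decide +kernel) trivial

theorem v5_1561 : VW (PX [533,688] [564,595,626,657]) := VW.of base nl_ok fl_ok .nil
  []
  []
  (by decide +kernel) trivial

theorem v5_1562 : VW (PX [533,657] [564,595,626,688]) := VW.of base nl_ok fl_ok .nil
  []
  []
  (by decide +kernel) trivial

theorem w5_1563_657 : S (PX [533] [564,595,626,657]) := VW.play 688 (PX [533,688] [564,595,626,657]) (by decide +kernel) v5_1561

theorem w5_1563_688 : S (PX [533] [564,595,626,688]) := VW.play 657 (PX [533,657] [564,595,626,688]) (by decide +kernel) v5_1562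

theorem v5_1563 : VW (PX [533] [564,595,626]) := VW.of base nl_ok fl_ok (.cons 657 688 .nil (.cons 688 657 .nil .nil))
  [(719, (.cons 657 688 .nil (.cons 688 657 .nil .nil))), (750, (.cons 657 688 .nil (.cons 688 657 .nil .nil))), (781, (.cons 657 688 .nil (.cons 688 657 .nil .nil)))]
  [([657], (PX [533] [564,595,626,657])), ([688], (PX [533] [564,595,626,688]))]
  (by decide +kernel) ⟨w5_1563_657, w5_1563_688, trivial⟩

theorem v5_1568 : VW (PX [626] [564,595,657]) := VW.of base nl_ok fl_ok .nil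
  [(471, (.cons 502 533 .nil (.cons 533 502 .nil .nil))), (502, (.cons 471 533 .nil (.cons 533 471 .nil .nil))), (533, (.cons 471 502 .nil (.cons 502 471 .nil .nil)))]
  []
  (by decide +kernel) trivial

theorem w5_1580_502 : S (PX [] [502,564,595]) := VW.play 533 (PX [533] [502,564,595]) (by decide +kernel) v5_1468

theorem w5_1580_533 : S (PX [] [533,564,595]) := VW.play 502 (PX [502] [533,564,595]) (by decide +kernel) v5_1481

theorem w5_1580_626 : S (PX [] [564,595,626]) := VW.play 533 (PX [533] [564,595,626]) (by decide +kernel) v5_1563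

theorem w5_1580_657 : S (PX [] [564,595,657]) := VW.play 626 (PX [626] [564,595,657]) (by decide +kernel) v5_1568

theorem v5_1580 : VW (PX [] [564,595]) := VW.of base nl_ok fl_ok .nil
  [(471, (.cons 502 533 .nil (.cons 533 502 (.cons 626 657 .nil (.cons 657 626 .nil .nil)) .nil))), (688, (.cons 626 657 (.cons 502 533 .nil (.cons 533 502 .nil .nil)) (.cons 657 626 .nil .nil)))]
  [([502], (PX [] [502,564,595])), ([533], (PX [] [533,564,595])), ([626], (PX [] [564,595,626])), ([657], (PX [] [564,595,657]))]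
  (by decide +kernel) ⟨w5_1580_502, w5_1580_533, w5_1580_626, w5_1580_657, trivial⟩

theorem v5_1581 : VW (PX [532,692] [564,596,628,660]) := VW.of base nl_ok fl_ok .nil
  []
  []
  (by decide +kernel) trivial

theorem v5_1582 : VW (PX [532,660] [564,596,628,692]) := VW.of base nl_ok fl_ok .nil
  []
  []
  (by decide +kernel) trivial

theorem w5_1583_660 : S (PX [532] [564,596,628,660]) := VW.play 692 (PX [532,692] [564,596,628,660]) (by decide +kernel) v5_1581

theorem w5_1583_692 : S (PX [532] [564,596,628,692]) := VW.play 660 (PX [532,660] [564,596,628,692]) (by decide +kernel) v5_1582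

theorem v5_1583 : VW (PX [532] [564,596,628]) := VW.of base nl_ok fl_ok (.cons 660 692 .nil (.cons 692 660 .nil .nil))
  [(724, (.cons 660 692 .nil (.cons 692 660 .nil .nil))), (756, (.cons 660 692 .nil (.cons 692 660 .nil .nil))), (788, (.cons 660 692 .nil (.cons 692 660 .nil .nil)))]
  [([660], (PX [532] [564,596,628,660])), ([692], (PX [532] [564,596,628,692]))]
  (by decide +kernel) ⟨w5_1583_660, w5_1583_692, trivial⟩

theorem v5_1588 : VW (PX [628] [564,596,660]) := VW.of base nl_ok fl_ok .nil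
  [(468, (.cons 500 532 .nil (.cons 532 500 .nil .nil))), (500, (.cons 468 532 .nil (.cons 532 468 .nil .nil))), (532, (.cons 468 500 .nil (.cons 500 468 .nil .nil)))]
  []
  (by decide +kernel) trivial

theorem w5_1600_500 : S (PX [] [500,564,596]) := VW.play 532 (PX [532] [500,564,596]) (by decide +kernel) v5_1028

theorem w5_1600_532 : S (PX [] [532,564,596]) := VW.play 500 (PX [500] [532,564,596]) (by decide +kernel) v5_1289

theorem w5_1600_628 : S (PX [] [564,596,628]) := VW.play 532 (PX [532] [564,596,628]) (by decide +kernel) v5_1583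

theorem w5_1600_660 : S (PX [] [564,596,660]) := VW.play 628 (PX [628] [564,596,660]) (by decide +kernel) v5_1588

theorem v5_1600 : VW (PX [] [564,596]) := VW.of base nl_ok fl_ok .nil
  [(468, (.cons 500 532 .nil (.cons 532 500 (.cons 628 660 .nil (.cons 660 628 .nil .nil)) .nil))), (692, (.cons 628 660 (.cons 500 532 .nil (.cons 532 500 .nil .nil)) (.cons 660 628 .nil .nil)))]
  [([500], (PX [] [500,564,596])), ([532], (PX [] [532,564,596])), ([628], (PX [] [564,596,628])), ([660], (PX [] [564,596,660]))]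
  (by decide +kernel) ⟨w5_1600_500, w5_1600_532, w5_1600_628, w5_1600_660, trivial⟩

theorem v5_1601 : VW (PX [531,696] [564,597,630,663]) := VW.of base nl_ok fl_ok .nil
  []
  []
  (by decide +kernel) trivial

theorem v5_1602 : VW (PX [531,663] [564,597,630,696]) := VW.of base nl_ok fl_ok .nil
  []
  []
  (by decide +kernel) trivial

theorem w5_1603_663 : S (PX [531] [564,597,630,663]) := VW.play 696 (PX [531,696] [564,597,630,663]) (by decide +kernel) v5_1601

theorem w5_1603_696 : S (PX [531] [564,597,630,696]) := VW.play 663 (PX [531,663] [564,597,630,696]) (by decide +kernel) v5_1602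

theorem v5_1603 : VW (PX [531] [564,597,630]) := VW.of base nl_ok fl_ok (.cons 663 696 .nil (.cons 696 663 .nil .nil))
  [(729, (.cons 663 696 .nil (.cons 696 663 .nil .nil))), (762, (.cons 663 696 .nil (.cons 696 663 .nil .nil))), (795, (.cons 663 696 .nil (.cons 696 663 .nil .nil)))]
  [([663], (PX [531] [564,597,630,663])), ([696], (PX [531] [564,597,630,696]))]
  (by decide +kernel) ⟨w5_1603_663, w5_1603_696, trivial⟩

theorem v5_1608 : VW (PX [630] [564,597,663]) := VW.of base nl_ok fl_ok .nil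
  [(465, (.cons 498 531 .nil (.cons 531 498 .nil .nil))), (498, (.cons 465 531 .nil (.cons 531 465 .nil .nil))), (531, (.cons 465 498 .nil (.cons 498 465 .nil .nil)))]
  []
  (by decide +kernel) trivial

theorem w5_1609_498 : S (PX [] [498,564,597]) := VW.play 531 (PX [531] [498,564,597]) (by decide +kernel) v5_1447

theorem w5_1609_531 : S (PX [] [531,564,597]) := VW.play 498 (PX [498] [531,564,597]) (by decide +kernel) v5_1474

theorem w5_1609_630 : S (PX [] [564,597,630]) := VW.play 531 (PX [531] [564,597,630]) (by decide +kernel) v5_1603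

theorem w5_1609_663 : S (PX [] [564,597,663]) := VW.play 630 (PX [630] [564,597,663]) (by decide +kernel) v5_1608

theorem v5_1609 : VW (PX [] [564,597]) := VW.of base nl_ok fl_ok .nil
  [(465, (.cons 498 531 .nil (.cons 531 498 (.cons 630 663 .nil (.cons 663 630 .nil .nil)) .nil))), (696, (.cons 630 663 (.cons 498 531 .nil (.cons 531 498 .nil .nil)) (.cons 663 630 .nil .nil)))]
  [([498], (PX [] [498,564,597])), ([531], (PX [] [531,564,597])), ([630], (PX [] [564,597,630])), ([663], (PX [] [564,597,663]))]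
  (by decide +kernel) ⟨w5_1609_498, w5_1609_531, w5_1609_630, w5_1609_663, trivial⟩

theorem v5_1624 : VW (PX [595] [564,626,657]) := VW.of base nl_ok fl_ok .nil
  [(688, (.cons 719 750 .nil (.cons 750 719 .nil .nil))), (719, (.cons 688 750 .nil (.cons 750 688 .nil .nil))), (750, (.cons 688 719 .nil (.cons 719 688 .nil .nil)))]
  []
  (by decide +kernel) trivial

theorem w5_1627_533 : S (PX [] [533,564,626]) := VW.play 595 (PX [595] [533,564,626]) (by decide +kernel) v5_1486

theorem w5_1627_595 : S (PX [] [564,595,626]) := VW.play 533 (PX [533] [564,595,626]) (by decide +kernel) v5_1563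

theorem w5_1627_657 : S (PX [] [564,626,657]) := VW.play 595 (PX [595] [564,626,657]) (by decide +kernel) v5_1624

theorem v5_1627 : VW (PX [] [564,626]) := VW.of base nl_ok fl_ok .nil
  [(502, (.cons 533 595 (.cons 440 471 .nil (.cons 471 440 .nil .nil)) (.cons 595 533 (.cons 657 688 .nil (.cons 688 657 .nil .nil)) .nil))), (688, (.cons 595 657 (.cons 502 533 .nil (.cons 533 502 .nil .nil)) (.cons 657 595 (.cons 719 750 .nil (.cons 750 719 .nil .nil)) .nil)))]
  [([533], (PX [] [533,564,626])), ([595], (PX [] [564,595,626])), ([657], (PX [] [564,626,657]))]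
  (by decide +kernel) ⟨w5_1627_533, w5_1627_595, w5_1627_657, trivial⟩

theorem v5_1642 : VW (PX [596] [564,628,660]) := VW.of base nl_ok fl_ok .nil
  [(692, (.cons 724 756 .nil (.cons 756 724 .nil .nil))), (724, (.cons 692 756 .nil (.cons 756 692 .nil .nil))), (756, (.cons 692 724 .nil (.cons 724 692 .nil .nil)))]
  []
  (by decide +kernel) trivial

theorem w5_1645_532 : S (PX [] [532,564,628]) := VW.play 596 (PX [596] [532,564,628]) (by decide +kernel) v5_1294

theorem w5_1645_596 : S (PX [] [564,596,628]) := VW.play 532 (PX [532] [564,596,628]) (by decide +kernel) v5_1583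

theorem w5_1645_660 : S (PX [] [564,628,660]) := VW.play 596 (PX [596] [564,628,660]) (by decide +kernel) v5_1642

theorem v5_1645 : VW (PX [] [564,628]) := VW.of base nl_ok fl_ok .nil
  [(500, (.cons 532 596 (.cons 436 468 .nil (.cons 468 436 .nil .nil)) (.cons 596 532 (.cons 660 692 .nil (.cons 692 660 .nil .nil)) .nil))), (692, (.cons 596 660 (.cons 500 532 .nil (.cons 532 500 .nil .nil)) (.cons 660 596 (.cons 724 756 .nil (.cons 756 724 .nil .nil)) .nil)))]
  [([532], (PX [] [532,564,628])), ([596], (PX [] [564,596,628])), ([660], (PX [] [564,628,660]))]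
  (by decide +kernel) ⟨w5_1645_532, w5_1645_596, w5_1645_660, trivial⟩

theorem v5_1646 : VW (PX [597] [564,630,663]) := VW.of base nl_ok fl_ok .nil
  [(696, (.cons 729 762 .nil (.cons 762 729 .nil .nil))), (729, (.cons 696 762 .nil (.cons 762 696 .nil .nil))), (762, (.cons 696 729 .nil (.cons 729 696 .nil .nil)))]
  []
  (by decide +kernel) trivial

theorem w5_1649_531 : S (PX [] [531,564,630]) := VW.play 597 (PX [597] [531,564,630]) (by decide +kernel) v5_1477

theorem w5_1649_597 : S (PX [] [564,597,630]) := VW.play 531 (PX [531] [564,597,630]) (by decide +kernel) v5_1603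

theorem w5_1649_663 : S (PX [] [564,630,663]) := VW.play 597 (PX [597] [564,630,663]) (by decide +kernel) v5_1646

theorem v5_1649 : VW (PX [] [564,630]) := VW.of base nl_ok fl_ok .nil
  [(498, (.cons 531 597 (.cons 432 465 .nil (.cons 465 432 .nil .nil)) (.cons 597 531 (.cons 663 696 .nil (.cons 696 663 .nil .nil)) .nil))), (696, (.cons 597 663 (.cons 498 531 .nil (.cons 531 498 .nil .nil)) (.cons 663 597 (.cons 729 762 .nil (.cons 762 729 .nil .nil)) .nil)))]
  [([531], (PX [] [531,564,630])), ([597], (PX [] [564,597,630])), ([663], (PX [] [564,630,663]))]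
  (by decide +kernel) ⟨w5_1649_531, w5_1649_597, w5_1649_663, trivial⟩

theorem w5_1650_595 : S (PX [] [564,595,657]) := VW.play 626 (PX [626] [564,595,657]) (by decide +kernel) v5_1568

theorem w5_1650_626 : S (PX [] [564,626,657]) := VW.play 595 (PX [595] [564,626,657]) (by decide +kernel) v5_1624

theorem v5_1650 : VW (PX [] [564,657]) := VW.of base nl_ok fl_ok .nil
  [(533, (.cons 595 626 (.cons 471 502 .nil (.cons 502 471 .nil .nil)) (.cons 626 595 .nil .nil))), (688, (.cons 595 626 .nil (.cons 626 595 (.cons 719 750 .nil (.cons 750 719 .nil .nil)) .nil)))]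
  [([595], (PX [] [564,595,657])), ([626], (PX [] [564,626,657]))]
  (by decide +kernel) ⟨w5_1650_595, w5_1650_626, trivial⟩

theorem w5_1651_596 : S (PX [] [564,596,660]) := VW.play 628 (PX [628] [564,596,660]) (by decide +kernel) v5_1588

theorem w5_1651_628 : S (PX [] [564,628,660]) := VW.play 596 (PX [596] [564,628,660]) (by decide +kernel) v5_1642

theorem v5_1651 : VW (PX [] [564,660]) := VW.of base nl_ok fl_ok .nil
  [(532, (.cons 596 628 (.cons 468 500 .nil (.cons 500 468 .nil .nil)) (.cons 628 596 .nil .nil))), (692, (.cons 596 628 .nil (.cons 628 596 (.cons 724 756 .nil (.cons 756 724 .nil .nil)) .nil)))]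
  [([596], (PX [] [564,596,660])), ([628], (PX [] [564,628,660]))]
  (by decide +kernel) ⟨w5_1651_596, w5_1651_628, trivial⟩

theorem w5_1652_597 : S (PX [] [564,597,663]) := VW.play 630 (PX [630] [564,597,663]) (by decide +kernel) v5_1608

theorem w5_1652_630 : S (PX [] [564,630,663]) := VW.play 597 (PX [597] [564,630,663]) (by decide +kernel) v5_1646

theorem v5_1652 : VW (PX [] [564,663]) := VW.of base nl_ok fl_ok .nil
  [(531, (.cons 597 630 (.cons 465 498 .nil (.cons 498 465 .nil .nil)) (.cons 630 597 .nil .nil))), (696, (.cons 597 630 .nil (.cons 630 597 (.cons 729 762 .nil (.cons 762 729 .nil .nil)) .nil)))]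
  [([597], (PX [] [564,597,663])), ([630], (PX [] [564,630,663]))]
  (by decide +kernel) ⟨w5_1652_597, w5_1652_630, trivial⟩

theorem v5_1653 : VW (PX [] [564,688]) := VW.of base nl_ok fl_ok .nil
  [(595, (.cons 626 657 (.cons 502 533 .nil (.cons 533 502 .nil .nil)) (.cons 657 626 .nil .nil))), (626, (.cons 595 657 (.cons 502 533 .nil (.cons 533 502 .nil .nil)) (.cons 657 595 (.cons 719 750 .nil (.cons 750 719 .nil .nil)) .nil))), (657, (.cons 595 626 .nil (.cons 626 595 (.cons 719 750 .nil (.cons 750 719 .nil .nil)) .nil)))]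
  []
  (by decide +kernel) trivial

theorem v5_1654 : VW (PX [] [564,692]) := VW.of base nl_ok fl_ok .nil
  [(596, (.cons 628 660 (.cons 500 532 .nil (.cons 532 500 .nil .nil)) (.cons 660 628 .nil .nil))), (628, (.cons 596 660 (.cons 500 532 .nil (.cons 532 500 .nil .nil)) (.cons 660 596 (.cons 724 756 .nil (.cons 756 724 .nil .nil)) .nil))), (660, (.cons 596 628 .nil (.cons 628 596 (.cons 724 756 .nil (.cons 756 724 .nil .nil)) .nil)))]
  []
  (by decide +kernel) trivial

theorem v5_1655 : VW (PX [] [564,696]) := VW.of base nl_ok fl_ok .nil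
  [(597, (.cons 630 663 (.cons 498 531 .nil (.cons 531 498 .nil .nil)) (.cons 663 630 .nil .nil))), (630, (.cons 597 663 (.cons 498 531 .nil (.cons 531 498 .nil .nil)) (.cons 663 597 (.cons 729 762 .nil (.cons 762 729 .nil .nil)) .nil))), (663, (.cons 597 630 .nil (.cons 630 597 (.cons 729 762 .nil (.cons 762 729 .nil .nil)) .nil)))]
  []
  (by decide +kernel) trivial

theorem r432 : S (Nat.lor X2 (bits [564, 432])) := VW.play 394 (PX [] [432,564]) (by decide +kernel) v5_1382

theorem r436 : S (Nat.lor X2 (bits [564, 436])) := VW.play 394 (PX [] [436,564]) (by decide +kernel) v5_371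

theorem r440 : S (Nat.lor X2 (bits [564, 440])) := VW.play 394 (PX [] [440,564]) (by decide +kernel) v5_1383

theorem r465 : S (Nat.lor X2 (bits [564, 465])) := VW.play 394 (PX [] [465,564]) (by decide +kernel) v5_1407

theorem r468 : S (Nat.lor X2 (bits [564, 468])) := VW.play 394 (PX [] [468,564]) (by decide +kernel) v5_683

theorem r471 : S (Nat.lor X2 (bits [564, 471])) := VW.play 394 (PX [] [471,564]) (by decide +kernel) v5_1429

theorem r498 : S (Nat.lor X2 (bits [564, 498])) := VW.play 394 (PX [] [498,564]) (by decide +kernel) v5_1448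

theorem r500 : S (Nat.lor X2 (bits [564, 500])) := VW.play 394 (PX [] [500,564]) (by decide +kernel) v5_1031

theorem r502 : S (Nat.lor X2 (bits [564, 502])) := VW.play 394 (PX [] [502,564]) (by decide +kernel) v5_1471

theorem r531 : S (Nat.lor X2 (bits [564, 531])) := VW.play 394 (PX [] [531,564]) (by decide +kernel) v5_1478

theorem r532 : S (Nat.lor X2 (bits [564, 532])) := VW.play 394 (PX [] [532,564]) (by decide +kernel) v5_1306

theorem r533 : S (Nat.lor X2 (bits [564, 533])) := VW.play 394 (PX [] [533,564]) (by decide +kernel) v5_1498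

theorem r560 : S (Nat.lor X2 (bits [564, 560])) := VW.play 394 (PX [] [560,564]) (by decide +kernel) v5_1499

theorem r561 : S (Nat.lor X2 (bits [564, 561])) := VW.play 394 (PX [] [561,564]) (by decide +kernel) v5_1519

theorem r562 : S (Nat.lor X2 (bits [564, 562])) := VW.play 394 (PX [] [562,564]) (by decide +kernel) v5_1538

theorem r563 : S (Nat.lor X2 (bits [564, 563])) := VW.play 394 (PX [] [563,564]) (by decide +kernel) v5_1545

theorem r565 : S (Nat.lor X2 (bits [564, 565])) := VW.play 394 (PX [] [564,565]) (by decide +kernel) v5_1554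

theorem r566 : S (Nat.lor X2 (bits [564, 566])) := VW.play 394 (PX [] [564,566]) (by decide +kernel) v5_1558

theorem r567 : S (Nat.lor X2 (bits [564, 567])) := VW.play 394 (PX [] [564,567]) (by decide +kernel) v5_1559

theorem r568 : S (Nat.lor X2 (bits [564, 568])) := VW.play 394 (PX [] [564,568]) (by decide +kernel) v5_1560

theorem r595 : S (Nat.lor X2 (bits [564, 595])) := VW.play 394 (PX [] [564,595]) (by decide +kernel) v5_1580

theorem r596 : S (Nat.lor X2 (bits [564, 596])) := VW.play 394 (PX [] [564,596]) (by decide +kernel) v5_1600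

theorem r597 : S (Nat.lor X2 (bits [564, 597])) := VW.play 394 (PX [] [564,597]) (by decide +kernel) v5_1609

theorem r626 : S (Nat.lor X2 (bits [564, 626])) := VW.play 394 (PX [] [564,626]) (by decide +kernel) v5_1627

theorem r628 : S (Nat.lor X2 (bits [564, 628])) := VW.play 394 (PX [] [564,628]) (by decide +kernel) v5_1645

theorem r630 : S (Nat.lor X2 (bits [564, 630])) := VW.play 394 (PX [] [564,630]) (by decide +kernel) v5_1649

theorem r657 : S (Nat.lor X2 (bits [564, 657])) := VW.play 394 (PX [] [564,657]) (by decide +kernel) v5_1650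

theorem r660 : S (Nat.lor X2 (bits [564, 660])) := VW.play 394 (PX [] [564,660]) (by decide +kernel) v5_1651

theorem r663 : S (Nat.lor X2 (bits [564, 663])) := VW.play 394 (PX [] [564,663]) (by decide +kernel) v5_1652

theorem r688 : S (Nat.lor X2 (bits [564, 688])) := VW.play 394 (PX [] [564,688]) (by decide +kernel) v5_1653

theorem r692 : S (Nat.lor X2 (bits [564, 692])) := VW.play 394 (PX [] [564,692]) (by decide +kernel) v5_1654

theorem r696 : S (Nat.lor X2 (bits [564, 696])) := VW.play 394 (PX [] [564,696]) (by decide +kernel) v5_1655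

theorem all : RT X2 564 (432 :: 436 :: 440 :: 465 :: 468 :: 471 :: 498 :: 500 :: 502 :: 531 :: 532 :: 533 :: 560 :: 561 :: 562 :: 563 :: 565 :: 566 :: 567 :: 568 :: 595 :: 596 :: 597 :: 626 :: 628 :: 630 :: 657 :: 660 :: 663 :: 688 :: 692 :: 696 :: []) := ⟨r432, r436, r440, r465, r468, r471, r498, r500, r502, r531, r532, r533, r560, r561, r562, r563, r565, r566, r567, r568, r595, r596, r597, r626, r628, r630, r657, r660, r663, r688, r692, r696, trivial⟩

end Pool.Agent.H94.Five.Mid.K9_6_0
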