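import Pool.Agent.H94.Five.Mid.Fam

set_option autoImplicit false
set_option linter.all false
set_option maxRecDepth 100000

/-! Second has the cell (9, 7): some of the other stones. -/

namespace Pool.Agent.H94.Five.Mid.K9_7_0

open Pool.Agent.H79.Five Pool.Agent.H10.Five Pool.Agent.H94.Five.M

abbrev nl : List Ent := [n0, n3, n4, n6, n8, n9, n10, n11, n16, n17, n21, n22]

theorem nl_ok : AC XB M0 nl := .cons n0k <| .cons n3k <| .cons n4k <| .cons n6k <| .cons n8k <| .cons n9k <| .cons n10k <| .cons n11k <| .cons n16k <| .cons n17k <| .cons n21k <| .cons n22k <| .nil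

abbrev fl : List Ent := (x45 :: x73 :: x77 :: x96 :: x103 :: x130 :: x136 :: x142 :: x161 :: x167 :: x174 :: x183 :: x185 :: x187 :: x194 :: x201 :: x204 :: x209 :: x214 :: x223 :: x245 :: x247 :: x253 :: x255 :: x258 :: x260 :: x266 :: x269 :: x276 :: x277 :: x284 :: x291 :: x310 :: x313 :: x315 :: x316 :: x328 :: x330 :: x340 :: x357 :: x362 :: x364 :: x371 :: x375 :: x383 :: x390 :: x392 :: x393 :: x409 :: x413 :: x423 :: x424 :: x427 :: x429 :: x434 :: x437 :: x444 :: x451 :: x452 :: x462 :: x501 :: x511 :: x519 :: x535 :: [])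

theorem fl_ok : AC XB M0 fl := .cons x45k <| .cons x73k <| .cons x77k <| .cons x96k <| .cons x103k <| .cons x130k <| .cons x136k <| .cons x142k <| .cons x161k <| .cons x167k <| .cons x174k <| .cons x183k <| .cons x185k <| .cons x187k <| .cons x194k <| .cons x201k <| .cons x204k <| .cons x209k <| .cons x214k <| .cons x223k <| .cons x245k <| .cons x247k <| .cons x253k <| .cons x255k <| .cons x258k <| .cons x260k <| .cons x266k <| .cons x269k <| .cons x276k <| .cons x277k <| .cons x284k <| .cons x291k <| .cons x310k <| .cons x313k <| .cons x315k <| .cons x316k <| .cons x328k <| .cons x330k <| .cons x340k <| .cons x357k <| .cons x362k <| .cons x364k <| .cons x371k <| .cons x375k <| .cons x383k <| .cons x390k <| .cons x392k <| .cons x393k <| .cons x409k <| .cons x413k <| .cons x423k <| .cons x424k <| .cons x427k <| .cons x429k <| .cons x434k <| .cons x437k <| .cons x444k <| .cons x451k <| .cons x452k <| .cons x462k <| .cons x501k <| .cons x511k <| .cons x519k <| .cons x535k <| .nil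

theorem b5_1446 : S (PX [] [365,464,596]) := S.of (.q 395 (.a 1 [] (.d 393 392 392 393 397)
 (.a 1 [392] (.d 397 393 393 394 398)
 (.a 0 [393,397] (.q 429 (.a 1 [] (.d 330 2345 297 2378 462)
 (.a 1 [297] (.d 462 2378 330 2411 495)
 (.a 0 [330,462] (.q 427 (.a 1 [] (.d 331 1323 299 1355 459)
 (.a 1 [299] (.d 459 1355 331 1387 491)
 (.a 0 [331,459] (.q 460 (.a 1 [] (.d 361 2376 328 2409 493)
 (.a 1 [328] (.d 493 2409 361 2442 526)
 (.a 0 [361,493] (.q 428 (.a 1 [] (.d 426 425 425 426 430)
 (.a 1 [425] (.d 430 426 426 427 431)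
 (.a 1 [426] (.d 364 1356 332 1388 492)
 .e))))
 .e))))
 .e))))
 .e))))
 .e)))) (by decide +kernel)

theorem b5_1447 : S (PX [530] [297,464,497,596]) := S.of (.q 395 (.a 1 [] (.d 393 392 392 393 397)
 (.a 1 [392] (.d 397 393 393 394 398)
 (.a 0 [393,397] (.q 427 (.a 1 [] (.d 331 1323 299 1355 459)
 (.a 1 [299] (.d 459 1355 331 1387 491)
 (.a 0 [331,459] (.q 361 (.a 1 [] (.d 328 2343 295 2376 460)
 (.a 1 [295] (.d 460 2376 328 2409 493)
 (.a 0 [328,460] (.q 332 (.a 1 [] (.d 301 3342 270 3373 425)
 (.a 1 [270] (.d 425 3373 301 3404 456)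
 (.a 0 [301,425] (.q 364 (.a 1 [] (.d 362 360 360 361 365)
 (.a 1 [360] (.d 300 1292 268 1324 428)
 .e)))
 .e))))
 .e))))
 .e))))
 .e)))) (by decide +kernel)

theorem b5_1449 : S (PX [530] [365,464,497,596]) := S.of (.q 395 (.a 1 [] (.d 393 392 392 393 397)
 (.a 0 [397] (.q 427 (.a 1 [] (.d 331 1323 299 1355 459)
 (.a 1 [331] (.q 429 (.a 1 [] (.d 330 2345 297 2378 462)
 (.a 1 [431] (.q 398 (.a 1 [] (.d 330 2345 297 2378 462)
 (.a 1 [462] (.r 491 1387 459 (.d 460 3439 367 3470 522))
 .e)))
 (.a 1 [330] (.r 491 1387 459 (.q 460 (.a 1 [] (.d 361 2376 328 2409 493)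
 (.a 1 [328] (.d 493 2409 361 2442 526)
 (.a 1 [361] (.d 398 3439 367 3470 522)
 (.a 0 [398] (.q 431 (.a 1 [] (.d 361 2376 328 2409 493)
 (.a 1 [328] (.d 493 2409 361 2442 526)
 (.a 1 [361] (.r 428 427 430 (.d 492 1388 364 1420 524))
 .e))))
 .e))))))
 (.a 1 [462] (.r 330 2345 297 (.r 491 1387 459 (.q 460 (.a 1 [] (.d 361 2376 328 2409 493)
 (.a 1 [328] (.d 493 2409 361 2442 526)
 (.a 1 [361] (.d 398 3439 367 3470 522)
 (.a 0 [398] (.q 431 (.a 1 [] (.d 361 2376 328 2409 493)
 (.a 1 [328] (.d 493 2409 361 2442 526)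
 (.a 1 [361] (.r 428 427 430 (.d 492 1388 364 1420 524))
 .e))))
 .e)))))))
 (.a 1 [398] (.q 431 (.a 1 [] (.d 330 2345 297 2378 462)
 (.a 1 [297] (.d 462 2378 330 2411 495)
 (.a 1 [330] (.r 428 427 430 (.r 425 425 426 (.d 456 3404 332 3435 487)))
 .e))))
 .e))))))
 (.a 0 [459] (.q 429 (.a 1 [] (.d 330 2345 297 2378 462)
 (.a 1 [431] (.q 398 (.a 1 [] (.d 330 2345 297 2378 462)
 (.a 1 [462] (.q 460 (.a 1 [] (.d 361 2376 328 2409 493)
 (.a 1 [328] (.d 493 2409 361 2442 526)
 (.a 1 [361] (.d 367 3408 336 3439 491)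
 .e))))
 .e)))
 (.a 1 [330] (.q 460 (.a 1 [] (.d 361 2376 328 2409 493)
 (.a 1 [328] (.d 493 2409 361 2442 526)
 (.a 0 [361] (.q 428 (.a 1 [] (.d 426 425 425 426 430)
 (.a 1 [398] (.r 431 427 430 (.d 492 1388 364 1420 524))
 (.a 1 [430] (.d 364 1356 332 1388 492)
 (.a 0 [431] (.q 398 (.a 1 [] (.d 426 425 425 426 430)
 (.a 1 [425] (.d 491 3439 367 3470 522)
 .e)))
 .e)))))
 (.a 0 [398] (.q 431 (.a 1 [] (.d 361 2376 328 2409 493)
 (.a 1 [328] (.d 493 2409 361 2442 526)
 (.a 1 [361] (.r 428 427 430 (.d 492 1388 364 1420 524))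
 .e))))
 (.a 0 [431] (.q 398 (.a 1 [] (.d 361 2376 328 2409 493)
 (.a 1 [328] (.d 493 2409 361 2442 526)
 (.a 1 [361] (.d 367 3408 336 3439 491)
 .e))))
 (.a 0 [493] (.q 428 (.a 1 [] (.d 426 425 425 426 430)
 (.a 1 [398] (.r 431 427 430 (.d 492 1388 364 1420 524))
 (.a 1 [430] (.d 364 1356 332 1388 492)
 (.a 0 [431] (.q 398 (.a 1 [] (.d 426 425 425 426 430)
 (.a 1 [425] (.d 491 3439 367 3470 522)
 .e)))
 .e)))))
 .e)))))))
 (.a 1 [462] (.r 330 2345 297 (.r 299 1323 331 (.r 392 392 393 (.d 361 3340 268 3371 423))))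
 (.a 1 [297] (.d 462 2378 330 2411 495)
 (.a 1 [398] (.q 431 (.a 1 [] (.d 462 2378 330 2411 495)
 (.a 1 [330] (.r 428 427 430 (.r 425 425 426 (.d 456 3404 332 3435 487)))
 .e)))
 .e)))))))
 (.a 1 [431] (.q 398 (.a 1 [] (.d 331 1323 299 1355 459)
 (.a 1 [331] (.q 429 (.a 1 [] (.d 330 2345 297 2378 462)
 (.a 1 [297] (.d 462 2378 330 2411 495)
 (.a 1 [330] (.r 491 1387 459 (.d 460 3439 367 3470 522))
 .e))))
 (.a 1 [459] (.q 429 (.a 1 [] (.d 330 2345 297 2378 462)
 (.a 1 [297] (.d 462 2378 330 2411 495)
 (.a 0 [330,462] (.q 460 (.a 1 [] (.d 361 2376 328 2409 493)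
 (.a 1 [328] (.d 493 2409 361 2442 526)
 (.a 1 [361] (.d 367 3408 336 3439 491)
 .e))))
 .e))))
 .e))))
 (.a 1 [398] (.q 431 (.a 1 [] (.d 459 1355 331 1387 491)
 (.a 1 [331] (.q 429 (.a 1 [] (.d 330 2345 297 2378 462)
 (.a 1 [297] (.d 462 2378 330 2411 495)
 (.a 1 [330] (.r 428 427 430 (.r 425 425 426 (.d 456 3404 332 3435 487)))
 .e))))
 .e)))
 (.a 1 [299] (.d 459 1355 331 1387 491)
 .e)))))))
 (.a 1 [398] (.q 431 (.a 1 [] (.d 393 392 392 393 397)
 (.a 1 [393] (.q 429 (.a 1 [] (.d 330 2345 297 2378 462)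
 (.a 1 [297] (.d 462 2378 330 2411 495)
 (.a 0 [330,462] (.q 427 (.a 1 [] (.d 331 1323 299 1355 459)
 (.a 1 [299] (.d 459 1355 331 1387 491)
 (.a 1 [331] (.r 428 427 430 (.r 425 425 426 (.d 456 3404 332 3435 487)))
 .e))))
 .e))))
 (.a 1 [392] (.q 429 (.a 1 [] (.d 330 2345 297 2378 462)
 (.a 1 [297] (.d 462 2378 330 2411 495)
 (.a 0 [330,462] (.q 427 (.a 1 [] (.d 331 1323 299 1355 459)
 (.a 1 [299] (.d 459 1355 331 1387 491)
 (.a 1 [331] (.r 428 427 430 (.r 425 425 426 (.d 456 3404 332 3435 487)))
 .e))))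
 .e))))
 (.a 1 [397] (.q 429 (.a 1 [] (.d 330 2345 297 2378 462)
 (.a 1 [297] (.d 462 2378 330 2411 495)
 (.a 0 [330,462] (.q 427 (.a 1 [] (.d 331 1323 299 1355 459)
 (.a 1 [299] (.d 459 1355 331 1387 491)
 (.a 1 [331] (.r 428 427 430 (.r 425 425 426 (.d 456 3404 332 3435 487)))
 .e))))
 .e))))
 .e)))))
 (.a 1 [392] (.d 397 393 393 394 398)
 (.a 1 [431] (.r 398 394 397 (.q 429 (.a 1 [] (.d 330 2345 297 2378 462)
 (.a 1 [297] (.d 462 2378 330 2411 495)
 (.a 0 [330,462] (.q 460 (.a 1 [] (.d 367 3408 336 3439 491)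
 (.a 1 [336] (.d 491 3439 367 3470 522)
 (.a 1 [367] (.r 491 3470 522 (.r 427 1387 459 (.d 493 2409 361 2442 526)))
 (.a 0 [491] (.q 427 (.a 1 [] (.d 331 1323 299 1355 459)
 (.a 1 [299] (.d 493 2409 361 2442 526)
 .e)))
 .e)))))
 .e)))))
 .e)))))) (by decide +kernel)

theorem b5_1450 : S (PX [530] [395,464,497,596]) := S.of (.q 332 (.a 1 [] (.d 301 3342 270 3373 425)
 (.a 1 [270] (.d 425 3373 301 3404 456)
 (.a 0 [301] (.q 428 (.a 1 [] (.d 364 1324 300 1356 460)
 (.a 0 [300,364,460] (.r 425 3404 456 (.q 330 (.a 1 [] (.d 297 2312 264 2345 429)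
 (.a 1 [264] (.d 429 2345 297 2378 462)
 (.a 1 [297] (.r 429 2378 462 (.r 426 425 427 (.d 362 1322 298 1354 458)))
 (.a 0 [429] (.r 297 2312 264 (.q 329 (.a 1 [] (.d 331 328 328 329 333)
 (.a 1 [333] (.r 361 1321 393 (.r 328 328 331 (.d 295 2310 262 2343 427)))
 (.a 0 [328,331] (.r 361 1321 393 (.q 362 (.a 1 [] (.d 298 1290 266 1322 426)
 (.a 1 [266] (.d 426 1322 298 1354 458)
 (.a 1 [298] (.r 426 1354 458 (.r 424 424 427 (.r 423 422 422 (.d 392 3371 299 3402 454))))
 (.a 0 [426] (.r 360 359 359 (.r 298 1290 266 (.d 391 3339 267 3370 422)))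
 .e))))))
 .e)))))
 .e))))))
 .e)))
 (.a 0 [425] (.q 300 (.a 1 [] (.d 364 1292 268 1324 428)
 (.a 0 [268,364,428] (.r 301 3342 270 (.q 330 (.a 1 [] (.d 297 2312 264 2345 429)
 (.a 1 [264] (.d 429 2345 297 2378 462)
 (.a 1 [429] (.r 297 2312 264 (.r 298 297 299 (.d 362 1290 266 1322 426)))
 (.a 0 [297] (.q 302 (.a 1 [] (.d 299 298 298 299 303)
 (.a 1 [298] (.d 303 299 299 300 304)
 (.a 1 [303] (.r 298 298 299 (.d 362 1290 266 1322 426))
 (.a 0 [299] (.q 333 (.a 1 [] (.d 331 329 329 330 334)
 (.a 1 [329] (.r 334 330 331 (.r 303 300 304 (.d 365 3344 272 3375 427)))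
 (.a 1 [331] (.r 429 2378 462 (.r 365 1325 397 (.r 303 300 304 (.d 334 3344 272 3375 427))))
 (.a 0 [334] (.q 269 (.a 1 [] (.d 237 1229 205 1261 365)
 (.a 1 [205] (.d 365 1261 237 1293 397)
 (.a 1 [237] (.r 331 329 329 (.d 362 3310 238 3341 393))
 .e))))
 .e)))))
 .e)))))
 .e))))))
 .e)))
 .e))))) (by decide +kernel)

theorem b5_1451 : S (PX [365,530] [332,398,464,497,596]) := S.of (.q 427 (.a 1 [] (.d 334 3375 303 3406 458)
 (.a 1 [303] (.d 458 3406 334 3437 489)
 (.a 0 [334,458] (.q 395 (.a 1 [] (.d 393 392 392 393 397)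
 (.a 1 [392] (.d 459 1355 331 1387 491)
 .e)))
 .e)))) (by decide +kernel)

theorem b5_1452 : S (PX [365,530] [398,400,464,497,596]) := S.of (.q 427 (.a 1 [] (.d 334 3375 303 3406 458)
 (.a 1 [303] (.d 458 3406 334 3437 489)
 (.a 0 [334,458] (.q 395 (.a 1 [] (.d 393 392 392 393 397)
 (.a 1 [392] (.d 459 1355 331 1387 491)
 .e)))
 .e)))) (by decide +kernel)

theorem b5_1453 : S (PX [365,530] [398,457,464,497,596]) := S.of (.q 427 (.a 1 [] (.d 334 3375 303 3406 458)
 (.a 1 [303] (.d 458 3406 334 3437 489)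
 (.a 0 [334,458] (.q 395 (.a 1 [] (.d 393 392 392 393 397)
 (.a 1 [392] (.d 459 1355 331 1387 491)
 .e)))
 .e)))) (by decide +kernel)

theorem b5_1459 : S (PX [365,530] [332,431,464,497,596]) := S.of (.q 427 (.a 1 [] (.d 334 3375 303 3406 458)
 (.a 1 [303] (.d 458 3406 334 3437 489)
 (.a 0 [334,458] (.q 395 (.a 1 [] (.d 393 392 392 393 397)
 (.a 1 [392] (.d 397 393 393 394 398)
 (.a 1 [393] (.d 331 1323 299 1355 459)
 .e))))
 .e)))) (by decide +kernel)

theorem b5_1460 : S (PX [365,530] [397,431,464,497,596]) := S.of (.q 427 (.a 1 [] (.d 334 3375 303 3406 458)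
 (.a 1 [303] (.d 458 3406 334 3437 489)
 (.a 0 [334,458] (.q 364 (.a 1 [] (.d 362 361 361 362 366)
 (.a 1 [361] (.d 366 362 362 363 367)
 (.a 1 [366] (.r 361 361 362 (.d 460 2376 328 2409 493))
 (.a 0 [362] (.q 332 (.a 1 [] (.d 300 1292 268 1324 428)
 (.a 1 [268] (.d 428 1324 300 1356 460)
 (.a 1 [300] (.d 301 3342 270 3373 425)
 .e))))
 .e)))))
 .e)))) (by decide +kernel)

theorem b5_1461 : S (PX [365,530] [424,431,464,497,596]) := S.of (.q 427 (.a 1 [] (.d 334 3375 303 3406 458)
 (.a 1 [303] (.d 458 3406 334 3437 489)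
 (.a 0 [334,458] (.q 395 (.a 1 [] (.d 393 392 392 393 397)
 (.a 1 [392] (.d 397 393 393 394 398)
 (.a 1 [393] (.d 331 1323 299 1355 459)
 .e))))
 .e)))) (by decide +kernel)

theorem b5_1462 : S (PX [365,530] [427,431,464,497,596]) := S.of (.q 429 (.a 1 [] (.d 330 2345 297 2378 462)
 (.a 1 [297] (.d 462 2378 330 2411 495)
 (.a 0 [330,462] (.q 397 (.a 1 [] (.d 395 393 393 394 398)
 (.a 1 [393] (.d 461 1357 333 1389 493)
 .e)))
 .e)))) (by decide +kernel)

theorem b5_1463 : S (PX [365,530] [428,431,464,497,596]) := S.of (.q 427 (.a 1 [] (.d 334 3375 303 3406 458)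
 (.a 1 [303] (.d 458 3406 334 3437 489)
 (.a 0 [334,458] (.q 395 (.a 1 [] (.d 393 392 392 393 397)
 (.a 1 [392] (.d 397 393 393 394 398)
 (.a 1 [393] (.d 331 1323 299 1355 459)
 .e))))
 .e)))) (by decide +kernel)

theorem b5_1485 : S (PX [497] [365,464,530,596]) := S.of (.q 395 (.a 1 [] (.d 393 392 392 393 397)
 (.a 1 [392] (.d 397 393 393 394 398)
 (.a 0 [393,397] (.q 429 (.a 1 [] (.d 330 2345 297 2378 462)
 (.a 1 [297] (.d 462 2378 330 2411 495)
 (.a 0 [330,462] (.q 427 (.a 1 [] (.d 331 1323 299 1355 459)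
 (.a 1 [299] (.d 459 1355 331 1387 491)
 (.a 0 [331,459] (.q 460 (.a 1 [] (.d 361 2376 328 2409 493)
 (.a 1 [328] (.d 493 2409 361 2442 526)
 (.a 0 [361,493] (.q 428 (.a 1 [] (.d 426 425 425 426 430)
 (.a 1 [425] (.d 430 426 426 427 431)
 (.a 1 [426] (.d 364 1356 332 1388 492)
 .e))))
 .e))))
 .e))))
 .e))))
 .e)))) (by decide +kernel)

theorem v5_1656 : VW (PX [365,530] [398,464,497,596]) := VW.of base nl_ok fl_ok .nil
  []
  [([332], (PX [365,530] [332,398,464,497,596])), ([400], (PX [365,530] [398,400,464,497,596])), ([457], (PX [365,530] [398,457,464,497,596]))]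
  (by decide +kernel) ⟨b5_1451, b5_1452, b5_1453, trivial⟩

theorem v5_1658 : VW (PX [365,530] [431,464,497,596]) := VW.of base nl_ok fl_ok .nil
  []
  [([332], (PX [365,530] [332,431,464,497,596])), ([397], (PX [365,530] [397,431,464,497,596])), ([424], (PX [365,530] [424,431,464,497,596])), ([427], (PX [365,530] [427,431,464,497,596])), ([428], (PX [365,530] [428,431,464,497,596]))]
  (by decide +kernel) ⟨b5_1459, b5_1460, b5_1461, b5_1462, b5_1463, trivial⟩

theorem w5_1660_398 : S (PX [530] [398,464,497,596]) := VW.play 365 (PX [365,530] [398,464,497,596]) (by decide +kernel) v5_1656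

theorem w5_1660_431 : S (PX [530] [431,464,497,596]) := VW.play 365 (PX [365,530] [431,464,497,596]) (by decide +kernel) v5_1658

theorem v5_1660 : VW (PX [530] [464,497,596]) := VW.of base nl_ok fl_ok .nil
  []
  [([297], (PX [530] [297,464,497,596])), ([365], (PX [530] [365,464,497,596])), ([395], (PX [530] [395,464,497,596])), ([398], (PX [530] [398,464,497,596])), ([431], (PX [530] [431,464,497,596]))]
  (by decide +kernel) ⟨b5_1447, b5_1449, b5_1450, w5_1660_398, w5_1660_431, trivial⟩

theorem v5_1666 : VW (PX [497] [464,530,596]) := VW.of base nl_ok fl_ok .nil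
  [(563, (.cons 629 662 .nil (.cons 662 629 .nil .nil))), (629, (.cons 563 662 .nil (.cons 662 563 (.cons 695 728 .nil (.cons 728 695 .nil .nil)) .nil))), (662, (.cons 563 629 .nil (.cons 629 563 (.cons 695 728 .nil (.cons 728 695 .nil .nil)) .nil)))]
  [([365], (PX [497] [365,464,530,596]))]
  (by decide +kernel) ⟨b5_1485, trivial⟩

theorem w5_1672_497 : S (PX [] [464,497,596]) := VW.play 530 (PX [530] [464,497,596]) (by decide +kernel) v5_1660

theorem w5_1672_530 : S (PX [] [464,530,596]) := VW.play 497 (PX [497] [464,530,596]) (by decide +kernel) v5_1666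

theorem v5_1672 : VW (PX [] [464,596]) := VW.of base nl_ok fl_ok .nil
  [(563, (.cons 497 530 .nil (.cons 530 497 (.cons 629 662 .nil (.cons 662 629 .nil .nil)) .nil)))]
  [([365], (PX [] [365,464,596])), ([497], (PX [] [464,497,596])), ([530], (PX [] [464,530,596]))]
  (by decide +kernel) ⟨b5_1446, w5_1672_497, w5_1672_530, trivial⟩

theorem v5_686 : VW (PX [] [468,596]) := VW.of base nl_ok fl_ok .nil
  [(500, (.cons 532 564 (.cons 404 436 .nil (.cons 436 404 .nil .nil)) (.cons 564 532 .nil .nil))), (532, (.cons 500 564 (.cons 404 436 .nil (.cons 436 404 .nil .nil)) (.cons 564 500 (.cons 628 660 .nil (.cons 660 628 .nil .nil)) .nil))), (564, (.cons 500 532 .nil (.cons 532 500 (.cons 628 660 .nil (.cons 660 628 .nil .nil)) .nil)))]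
  []
  (by decide +kernel) trivial

theorem v5_1673 : VW (PX [] [472,596]) := VW.of base nl_ok fl_ok .nil
  [(503, (.cons 534 565 (.cons 410 441 .nil (.cons 441 410 .nil .nil)) (.cons 565 534 .nil .nil))), (534, (.cons 503 565 (.cons 410 441 .nil (.cons 441 410 .nil .nil)) (.cons 565 503 (.cons 627 658 .nil (.cons 658 627 .nil .nil)) .nil))), (565, (.cons 503 534 .nil (.cons 534 503 (.cons 627 658 .nil (.cons 658 627 .nil .nil)) .nil)))]
  []
  (by decide +kernel) trivial

theorem v5_1674 : VW (PX [464,629] [497,530,563,596]) := VW.of base nl_ok fl_ok .nil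
  []
  []
  (by decide +kernel) trivial

theorem v5_1675 : VW (PX [464,563] [497,530,596,629]) := VW.of base nl_ok fl_ok .nil
  [(662, (.cons 695 728 .nil (.cons 728 695 .nil .nil))), (695, (.cons 662 728 .nil (.cons 728 662 .nil .nil))), (728, (.cons 662 695 .nil (.cons 695 662 .nil .nil)))]
  []
  (by decide +kernel) trivial

theorem w5_1676_563 : S (PX [464] [497,530,563,596]) := VW.play 629 (PX [464,629] [497,530,563,596]) (by decide +kernel) v5_1674

theorem w5_1676_629 : S (PX [464] [497,530,596,629]) := VW.play 563 (PX [464,563] [497,530,596,629]) (by decide +kernel) v5_1675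

theorem v5_1676 : VW (PX [464] [497,530,596]) := VW.of base nl_ok fl_ok (.cons 563 629 .nil (.cons 629 563 .nil .nil))
  [(662, (.cons 563 629 .nil (.cons 629 563 (.cons 695 728 .nil (.cons 728 695 .nil .nil)) .nil))), (695, (.cons 563 629 .nil (.cons 629 563 (.cons 662 728 .nil (.cons 728 662 .nil .nil)) .nil))), (728, (.cons 563 629 .nil (.cons 629 563 (.cons 662 695 .nil (.cons 695 662 .nil .nil)) .nil)))]
  [([563], (PX [464] [497,530,563,596])), ([629], (PX [464] [497,530,596,629]))]
  (by decide +kernel) ⟨w5_1676_563, w5_1676_629, trivial⟩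

theorem v5_1696 : VW (PX [530] [497,563,596]) := VW.of base nl_ok fl_ok .nil
  [(629, (.cons 662 695 .nil (.cons 695 662 .nil .nil))), (662, (.cons 629 695 .nil (.cons 695 629 .nil .nil))), (695, (.cons 629 662 .nil (.cons 662 629 .nil .nil)))]
  []
  (by decide +kernel) trivial

theorem w5_1697_464 : S (PX [] [464,497,596]) := VW.play 530 (PX [530] [464,497,596]) (by decide +kernel) v5_1660

theorem w5_1697_530 : S (PX [] [497,530,596]) := VW.play 464 (PX [464] [497,530,596]) (by decide +kernel) v5_1676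

theorem w5_1697_563 : S (PX [] [497,563,596]) := VW.play 530 (PX [530] [497,563,596]) (by decide +kernel) v5_1696

theorem v5_1697 : VW (PX [] [497,596]) := VW.of base nl_ok fl_ok .nil
  [(629, (.cons 530 563 .nil (.cons 563 530 (.cons 662 695 .nil (.cons 695 662 .nil .nil)) .nil)))]
  [([464], (PX [] [464,497,596])), ([530], (PX [] [497,530,596])), ([563], (PX [] [497,563,596]))]
  (by decide +kernel) ⟨w5_1697_464, w5_1697_530, w5_1697_563, trivial⟩

theorem v5_974 : VW (PX [564] [500,532,596]) := VW.of base nl_ok fl_ok .nil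
  [(404, (.cons 436 468 .nil (.cons 468 436 .nil .nil))), (436, (.cons 404 468 .nil (.cons 468 404 .nil .nil))), (468, (.cons 404 436 .nil (.cons 436 404 .nil .nil)))]
  []
  (by decide +kernel) trivial

theorem v5_1028 : VW (PX [532] [500,564,596]) := VW.of base nl_ok fl_ok .nil
  [(628, (.cons 660 692 .nil (.cons 692 660 .nil .nil))), (660, (.cons 628 692 .nil (.cons 692 628 .nil .nil))), (692, (.cons 628 660 .nil (.cons 660 628 .nil .nil)))]
  []
  (by decide +kernel) trivial

theorem w5_1045_532 : S (PX [] [500,532,596]) := VW.play 564 (PX [564] [500,532,596]) (by decide +kernel) v5_974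

theorem w5_1045_564 : S (PX [] [500,564,596]) := VW.play 532 (PX [532] [500,564,596]) (by decide +kernel) v5_1028

theorem v5_1045 : VW (PX [] [500,596]) := VW.of base nl_ok fl_ok .nil
  [(468, (.cons 532 564 (.cons 404 436 .nil (.cons 436 404 .nil .nil)) (.cons 564 532 .nil .nil))), (628, (.cons 532 564 .nil (.cons 564 532 (.cons 660 692 .nil (.cons 692 660 .nil .nil)) .nil)))]
  [([532], (PX [] [500,532,596])), ([564], (PX [] [500,564,596]))]
  (by decide +kernel) ⟨w5_1045_532, w5_1045_564, trivial⟩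

theorem v5_1701 : VW (PX [565] [503,534,596]) := VW.of base nl_ok fl_ok .nil
  [(410, (.cons 441 472 .nil (.cons 472 441 .nil .nil))), (441, (.cons 410 472 .nil (.cons 472 410 .nil .nil))), (472, (.cons 410 441 .nil (.cons 441 410 .nil .nil)))]
  []
  (by decide +kernel) trivial

theorem v5_1716 : VW (PX [534] [503,565,596]) := VW.of base nl_ok fl_ok .nil
  [(627, (.cons 658 689 .nil (.cons 689 658 .nil .nil))), (658, (.cons 627 689 .nil (.cons 689 627 .nil .nil))), (689, (.cons 627 658 .nil (.cons 658 627 .nil .nil)))]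
  []
  (by decide +kernel) trivial

theorem w5_1719_534 : S (PX [] [503,534,596]) := VW.play 565 (PX [565] [503,534,596]) (by decide +kernel) v5_1701

theorem w5_1719_565 : S (PX [] [503,565,596]) := VW.play 534 (PX [534] [503,565,596]) (by decide +kernel) v5_1716

theorem v5_1719 : VW (PX [] [503,596]) := VW.of base nl_ok fl_ok .nil
  [(472, (.cons 534 565 (.cons 410 441 .nil (.cons 441 410 .nil .nil)) (.cons 565 534 .nil .nil))), (627, (.cons 534 565 .nil (.cons 565 534 (.cons 658 689 .nil (.cons 689 658 .nil .nil)) .nil)))]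
  [([534], (PX [] [503,534,596])), ([565], (PX [] [503,565,596]))]
  (by decide +kernel) ⟨w5_1719_534, w5_1719_565, trivial⟩

theorem v5_1720 : VW (PX [497,662] [530,563,596,629]) := VW.of base nl_ok fl_ok .nil
  []
  []
  (by decide +kernel) trivial

theorem v5_1721 : VW (PX [497,629] [530,563,596,662]) := VW.of base nl_ok fl_ok .nil
  []
  []
  (by decide +kernel) trivial

theorem w5_1722_629 : S (PX [497] [530,563,596,629]) := VW.play 662 (PX [497,662] [530,563,596,629]) (by decide +kernel) v5_1720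

theorem w5_1722_662 : S (PX [497] [530,563,596,662]) := VW.play 629 (PX [497,629] [530,563,596,662]) (by decide +kernel) v5_1721

theorem v5_1722 : VW (PX [497] [530,563,596]) := VW.of base nl_ok fl_ok (.cons 629 662 .nil (.cons 662 629 .nil .nil))
  [(695, (.cons 629 662 .nil (.cons 662 629 .nil .nil))), (728, (.cons 629 662 .nil (.cons 662 629 .nil .nil))), (761, (.cons 629 662 .nil (.cons 662 629 .nil .nil)))]
  [([629], (PX [497] [530,563,596,629])), ([662], (PX [497] [530,563,596,662]))]
  (by decide +kernel) ⟨w5_1722_629, w5_1722_662, trivial⟩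

theorem v5_1737 : VW (PX [563] [530,596,629]) := VW.of base nl_ok fl_ok .nil
  [(662, (.cons 695 728 .nil (.cons 728 695 .nil .nil))), (695, (.cons 662 728 .nil (.cons 728 662 .nil .nil))), (728, (.cons 662 695 .nil (.cons 695 662 .nil .nil)))]
  []
  (by decide +kernel) trivial

theorem w5_1738_464 : S (PX [] [464,530,596]) := VW.play 497 (PX [497] [464,530,596]) (by decide +kernel) v5_1666

theorem w5_1738_497 : S (PX [] [497,530,596]) := VW.play 464 (PX [464] [497,530,596]) (by decide +kernel) v5_1676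

theorem w5_1738_563 : S (PX [] [530,563,596]) := VW.play 497 (PX [497] [530,563,596]) (by decide +kernel) v5_1722

theorem w5_1738_629 : S (PX [] [530,596,629]) := VW.play 563 (PX [563] [530,596,629]) (by decide +kernel) v5_1737

theorem v5_1738 : VW (PX [] [530,596]) := VW.of base nl_ok fl_ok .nil
  [(662, (.cons 563 629 (.cons 464 497 .nil (.cons 497 464 .nil .nil)) (.cons 629 563 (.cons 695 728 .nil (.cons 728 695 .nil .nil)) .nil)))]
  [([464], (PX [] [464,530,596])), ([497], (PX [] [497,530,596])), ([563], (PX [] [530,563,596])), ([629], (PX [] [530,596,629]))]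
  (by decide +kernel) ⟨w5_1738_464, w5_1738_497, w5_1738_563, w5_1738_629, trivial⟩

theorem v5_1287 : VW (PX [500,660] [532,564,596,628]) := VW.of base nl_ok fl_ok .nil
  []
  []
  (by decide +kernel) trivial

theorem v5_1288 : VW (PX [500,628] [532,564,596,660]) := VW.of base nl_ok fl_ok .nil
  []
  []
  (by decide +kernel) trivial

theorem w5_1289_628 : S (PX [500] [532,564,596,628]) := VW.play 660 (PX [500,660] [532,564,596,628]) (by decide +kernel) v5_1287

theorem w5_1289_660 : S (PX [500] [532,564,596,660]) := VW.play 628 (PX [500,628] [532,564,596,660]) (by decide +kernel) v5_1288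

theorem v5_1289 : VW (PX [500] [532,564,596]) := VW.of base nl_ok fl_ok (.cons 628 660 .nil (.cons 660 628 .nil .nil))
  [(692, (.cons 628 660 .nil (.cons 660 628 .nil .nil))), (724, (.cons 628 660 .nil (.cons 660 628 .nil .nil))), (756, (.cons 628 660 .nil (.cons 660 628 .nil .nil)))]
  [([628], (PX [500] [532,564,596,628])), ([660], (PX [500] [532,564,596,660]))]
  (by decide +kernel) ⟨w5_1289_628, w5_1289_660, trivial⟩

theorem v5_1348 : VW (PX [564] [532,596,628]) := VW.of base nl_ok fl_ok .nil
  [(660, (.cons 692 724 .nil (.cons 724 692 .nil .nil))), (692, (.cons 660 724 .nil (.cons 724 660 .nil .nil))), (724, (.cons 660 692 .nil (.cons 692 660 .nil .nil)))]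
  []
  (by decide +kernel) trivial

theorem w5_1351_500 : S (PX [] [500,532,596]) := VW.play 564 (PX [564] [500,532,596]) (by decide +kernel) v5_974

theorem w5_1351_564 : S (PX [] [532,564,596]) := VW.play 500 (PX [500] [532,564,596]) (by decide +kernel) v5_1289

theorem w5_1351_628 : S (PX [] [532,596,628]) := VW.play 564 (PX [564] [532,596,628]) (by decide +kernel) v5_1348

theorem v5_1351 : VW (PX [] [532,596]) := VW.of base nl_ok fl_ok .nil
  [(468, (.cons 500 564 (.cons 404 436 .nil (.cons 436 404 .nil .nil)) (.cons 564 500 (.cons 628 660 .nil (.cons 660 628 .nil .nil)) .nil))), (660, (.cons 564 628 (.cons 468 500 .nil (.cons 500 468 .nil .nil)) (.cons 628 564 (.cons 692 724 .nil (.cons 724 692 .nil .nil)) .nil)))]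
  [([500], (PX [] [500,532,596])), ([564], (PX [] [532,564,596])), ([628], (PX [] [532,596,628]))]
  (by decide +kernel) ⟨w5_1351_500, w5_1351_564, w5_1351_628, trivial⟩

theorem v5_1739 : VW (PX [503,658] [534,565,596,627]) := VW.of base nl_ok fl_ok .nil
  []
  []
  (by decide +kernel) trivial

theorem v5_1740 : VW (PX [503,627] [534,565,596,658]) := VW.of base nl_ok fl_ok .nil
  []
  []
  (by decide +kernel) trivial

theorem w5_1741_627 : S (PX [503] [534,565,596,627]) := VW.play 658 (PX [503,658] [534,565,596,627]) (by decide +kernel) v5_1739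

theorem w5_1741_658 : S (PX [503] [534,565,596,658]) := VW.play 627 (PX [503,627] [534,565,596,658]) (by decide +kernel) v5_1740

theorem v5_1741 : VW (PX [503] [534,565,596]) := VW.of base nl_ok fl_ok (.cons 627 658 .nil (.cons 658 627 .nil .nil))
  [(689, (.cons 627 658 .nil (.cons 658 627 .nil .nil))), (720, (.cons 627 658 .nil (.cons 658 627 .nil .nil))), (751, (.cons 627 658 .nil (.cons 658 627 .nil .nil)))]
  [([627], (PX [503] [534,565,596,627])), ([658], (PX [503] [534,565,596,658]))]
  (by decide +kernel) ⟨w5_1741_627, w5_1741_658, trivial⟩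

theorem v5_1758 : VW (PX [565] [534,596,627]) := VW.of base nl_ok fl_ok .nil
  [(658, (.cons 689 720 .nil (.cons 720 689 .nil .nil))), (689, (.cons 658 720 .nil (.cons 720 658 .nil .nil))), (720, (.cons 658 689 .nil (.cons 689 658 .nil .nil)))]
  []
  (by decide +kernel) trivial

theorem w5_1761_503 : S (PX [] [503,534,596]) := VW.play 565 (PX [565] [503,534,596]) (by decide +kernel) v5_1701

theorem w5_1761_565 : S (PX [] [534,565,596]) := VW.play 503 (PX [503] [534,565,596]) (by decide +kernel) v5_1741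

theorem w5_1761_627 : S (PX [] [534,596,627]) := VW.play 565 (PX [565] [534,596,627]) (by decide +kernel) v5_1758

theorem v5_1761 : VW (PX [] [534,596]) := VW.of base nl_ok fl_ok .nil
  [(472, (.cons 503 565 (.cons 410 441 .nil (.cons 441 410 .nil .nil)) (.cons 565 503 (.cons 627 658 .nil (.cons 658 627 .nil .nil)) .nil))), (658, (.cons 565 627 (.cons 472 503 .nil (.cons 503 472 .nil .nil)) (.cons 627 565 (.cons 689 720 .nil (.cons 720 689 .nil .nil)) .nil)))]
  [([503], (PX [] [503,534,596])), ([565], (PX [] [534,565,596])), ([627], (PX [] [534,596,627]))]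
  (by decide +kernel) ⟨w5_1761_503, w5_1761_565, w5_1761_627, trivial⟩

theorem v5_1762 : VW (PX [530,695] [563,596,629,662]) := VW.of base nl_ok fl_ok .nil
  []
  []
  (by decide +kernel) trivial

theorem v5_1763 : VW (PX [530,662] [563,596,629,695]) := VW.of base nl_ok fl_ok .nil
  []
  []
  (by decide +kernel) trivial

theorem w5_1764_662 : S (PX [530] [563,596,629,662]) := VW.play 695 (PX [530,695] [563,596,629,662]) (by decide +kernel) v5_1762

theorem w5_1764_695 : S (PX [530] [563,596,629,695]) := VW.play 662 (PX [530,662] [563,596,629,695]) (by decide +kernel) v5_1763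

theorem v5_1764 : VW (PX [530] [563,596,629]) := VW.of base nl_ok fl_ok (.cons 662 695 .nil (.cons 695 662 .nil .nil))
  [(728, (.cons 662 695 .nil (.cons 695 662 .nil .nil))), (761, (.cons 662 695 .nil (.cons 695 662 .nil .nil))), (794, (.cons 662 695 .nil (.cons 695 662 .nil .nil)))]
  [([662], (PX [530] [563,596,629,662])), ([695], (PX [530] [563,596,629,695]))]
  (by decide +kernel) ⟨w5_1764_662, w5_1764_695, trivial⟩

theorem v5_1767 : VW (PX [629] [563,596,662]) := VW.of base nl_ok fl_ok .nil
  [(464, (.cons 497 530 .nil (.cons 530 497 .nil .nil))), (497, (.cons 464 530 .nil (.cons 530 464 .nil .nil))), (530, (.cons 464 497 .nil (.cons 497 464 .nil .nil)))]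
  []
  (by decide +kernel) trivial

theorem w5_1768_497 : S (PX [] [497,563,596]) := VW.play 530 (PX [530] [497,563,596]) (by decide +kernel) v5_1696

theorem w5_1768_530 : S (PX [] [530,563,596]) := VW.play 497 (PX [497] [530,563,596]) (by decide +kernel) v5_1722

theorem w5_1768_629 : S (PX [] [563,596,629]) := VW.play 530 (PX [530] [563,596,629]) (by decide +kernel) v5_1764

theorem w5_1768_662 : S (PX [] [563,596,662]) := VW.play 629 (PX [629] [563,596,662]) (by decide +kernel) v5_1767

theorem v5_1768 : VW (PX [] [563,596]) := VW.of base nl_ok fl_ok .nil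
  [(464, (.cons 497 530 .nil (.cons 530 497 (.cons 629 662 .nil (.cons 662 629 .nil .nil)) .nil))), (695, (.cons 629 662 (.cons 497 530 .nil (.cons 530 497 .nil .nil)) (.cons 662 629 .nil .nil)))]
  [([497], (PX [] [497,563,596])), ([530], (PX [] [530,563,596])), ([629], (PX [] [563,596,629])), ([662], (PX [] [563,596,662]))]
  (by decide +kernel) ⟨w5_1768_497, w5_1768_530, w5_1768_629, w5_1768_662, trivial⟩

theorem v5_1581 : VW (PX [532,692] [564,596,628,660]) := VW.of base nl_ok fl_ok .nil
  []
  []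
  (by decide +kernel) trivial

theorem v5_1582 : VW (PX [532,660] [564,596,628,692]) := VW.of base nl_ok fl_ok .nil
  []
  []
  (by decide +kernel) trivial

theorem w5_1583_660 : S (PX [532] [564,596,628,660]) := VW.play 692 (PX [532,692] [564,596,628,660]) (by decide +kernel) v5_1581

theorem w5_1583_692 : S (PX [532] [564,596,628,692]) := VW.play 660 (PX [532,660] [564,596,628,692]) (by decide +kernel) v5_1582

theorem v5_1583 : VW (PX [532] [564,596,628]) := VW.of base nl_ok fl_ok (.cons 660 692 .nil (.cons 692 660 .nil .nil))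
  [(724, (.cons 660 692 .nil (.cons 692 660 .nil .nil))), (756, (.cons 660 692 .nil (.cons 692 660 .nil .nil))), (788, (.cons 660 692 .nil (.cons 692 660 .nil .nil)))]
  [([660], (PX [532] [564,596,628,660])), ([692], (PX [532] [564,596,628,692]))]
  (by decide +kernel) ⟨w5_1583_660, w5_1583_692, trivial⟩

theorem v5_1588 : VW (PX [628] [564,596,660]) := VW.of base nl_ok fl_ok .nil
  [(468, (.cons 500 532 .nil (.cons 532 500 .nil .nil))), (500, (.cons 468 532 .nil (.cons 532 468 .nil .nil))), (532, (.cons 468 500 .nil (.cons 500 468 .nil .nil)))]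
  []
  (by decide +kernel) trivial

theorem w5_1600_500 : S (PX [] [500,564,596]) := VW.play 532 (PX [532] [500,564,596]) (by decide +kernel) v5_1028

theorem w5_1600_532 : S (PX [] [532,564,596]) := VW.play 500 (PX [500] [532,564,596]) (by decide +kernel) v5_1289

theorem w5_1600_628 : S (PX [] [564,596,628]) := VW.play 532 (PX [532] [564,596,628]) (by decide +kernel) v5_1583

theorem w5_1600_660 : S (PX [] [564,596,660]) := VW.play 628 (PX [628] [564,596,660]) (by decide +kernel) v5_1588

theorem v5_1600 : VW (PX [] [564,596]) := VW.of base nl_ok fl_ok .nil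
  [(468, (.cons 500 532 .nil (.cons 532 500 (.cons 628 660 .nil (.cons 660 628 .nil .nil)) .nil))), (692, (.cons 628 660 (.cons 500 532 .nil (.cons 532 500 .nil .nil)) (.cons 660 628 .nil .nil)))]
  [([500], (PX [] [500,564,596])), ([532], (PX [] [532,564,596])), ([628], (PX [] [564,596,628])), ([660], (PX [] [564,596,660]))]
  (by decide +kernel) ⟨w5_1600_500, w5_1600_532, w5_1600_628, w5_1600_660, trivial⟩

theorem v5_1769 : VW (PX [534,689] [565,596,627,658]) := VW.of base nl_ok fl_ok .nil
  []
  []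
  (by decide +kernel) trivial

theorem v5_1770 : VW (PX [534,658] [565,596,627,689]) := VW.of base nl_ok fl_ok .nil
  []
  []
  (by decide +kernel) trivial

theorem w5_1771_658 : S (PX [534] [565,596,627,658]) := VW.play 689 (PX [534,689] [565,596,627,658]) (by decide +kernel) v5_1769

theorem w5_1771_689 : S (PX [534] [565,596,627,689]) := VW.play 658 (PX [534,658] [565,596,627,689]) (by decide +kernel) v5_1770

theorem v5_1771 : VW (PX [534] [565,596,627]) := VW.of base nl_ok fl_ok (.cons 658 689 .nil (.cons 689 658 .nil .nil))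
  [(720, (.cons 658 689 .nil (.cons 689 658 .nil .nil))), (751, (.cons 658 689 .nil (.cons 689 658 .nil .nil))), (782, (.cons 658 689 .nil (.cons 689 658 .nil .nil)))]
  [([658], (PX [534] [565,596,627,658])), ([689], (PX [534] [565,596,627,689]))]
  (by decide +kernel) ⟨w5_1771_658, w5_1771_689, trivial⟩

theorem v5_1776 : VW (PX [627] [565,596,658]) := VW.of base nl_ok fl_ok .nil
  [(472, (.cons 503 534 .nil (.cons 534 503 .nil .nil))), (503, (.cons 472 534 .nil (.cons 534 472 .nil .nil))), (534, (.cons 472 503 .nil (.cons 503 472 .nil .nil)))]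
  []
  (by decide +kernel) trivial

theorem w5_1788_503 : S (PX [] [503,565,596]) := VW.play 534 (PX [534] [503,565,596]) (by decide +kernel) v5_1716

theorem w5_1788_534 : S (PX [] [534,565,596]) := VW.play 503 (PX [503] [534,565,596]) (by decide +kernel) v5_1741

theorem w5_1788_627 : S (PX [] [565,596,627]) := VW.play 534 (PX [534] [565,596,627]) (by decide +kernel) v5_1771

theorem w5_1788_658 : S (PX [] [565,596,658]) := VW.play 627 (PX [627] [565,596,658]) (by decide +kernel) v5_1776

theorem v5_1788 : VW (PX [] [565,596]) := VW.of base nl_ok fl_ok .nil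
  [(472, (.cons 503 534 .nil (.cons 534 503 (.cons 627 658 .nil (.cons 658 627 .nil .nil)) .nil))), (689, (.cons 627 658 (.cons 503 534 .nil (.cons 534 503 .nil .nil)) (.cons 658 627 .nil .nil)))]
  [([503], (PX [] [503,565,596])), ([534], (PX [] [534,565,596])), ([627], (PX [] [565,596,627])), ([658], (PX [] [565,596,658]))]
  (by decide +kernel) ⟨w5_1788_503, w5_1788_534, w5_1788_627, w5_1788_658, trivial⟩

theorem v5_1789 : VW (PX [] [592,596]) := VW.of base nl_ok fl_ok .nil
  [(593, (.cons 594 595 (.cons 590 591 .nil (.cons 591 590 .nil .nil)) (.cons 595 594 .nil .nil))), (594, (.cons 593 595 (.cons 590 591 .nil (.cons 591 590 .nil .nil)) (.cons 595 593 (.cons 597 598 .nil (.cons 598 597 .nil .nil)) .nil))), (595, (.cons 593 594 .nil (.cons 594 593 (.cons 597 598 .nil (.cons 598 597 .nil .nil)) .nil)))]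
  []
  (by decide +kernel) trivial

theorem v5_1793 : VW (PX [595] [593,594,596]) := VW.of base nl_ok fl_ok .nil
  [(590, (.cons 591 592 .nil (.cons 592 591 .nil .nil))), (591, (.cons 590 592 .nil (.cons 592 590 .nil .nil))), (592, (.cons 590 591 .nil (.cons 591 590 .nil .nil)))]
  []
  (by decide +kernel) trivial

theorem v5_1808 : VW (PX [594] [593,595,596]) := VW.of base nl_ok fl_ok .nil
  [(597, (.cons 598 599 .nil (.cons 599 598 .nil .nil))), (598, (.cons 597 599 .nil (.cons 599 597 .nil .nil))), (599, (.cons 597 598 .nil (.cons 598 597 .nil .nil)))]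
  []
  (by decide +kernel) trivial

theorem w5_1809_594 : S (PX [] [593,594,596]) := VW.play 595 (PX [595] [593,594,596]) (by decide +kernel) v5_1793

theorem w5_1809_595 : S (PX [] [593,595,596]) := VW.play 594 (PX [594] [593,595,596]) (by decide +kernel) v5_1808

theorem v5_1809 : VW (PX [] [593,596]) := VW.of base nl_ok fl_ok .nil
  [(592, (.cons 594 595 (.cons 590 591 .nil (.cons 591 590 .nil .nil)) (.cons 595 594 .nil .nil))), (597, (.cons 594 595 .nil (.cons 595 594 (.cons 598 599 .nil (.cons 599 598 .nil .nil)) .nil)))]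
  [([594], (PX [] [593,594,596])), ([595], (PX [] [593,595,596]))]
  (by decide +kernel) ⟨w5_1809_594, w5_1809_595, trivial⟩

theorem v5_1810 : VW (PX [593,598] [594,595,596,597]) := VW.of base nl_ok fl_ok .nil
  []
  []
  (by decide +kernel) trivial

theorem v5_1811 : VW (PX [593,597] [594,595,596,598]) := VW.of base nl_ok fl_ok .nil
  []
  []
  (by decide +kernel) trivial

theorem w5_1812_597 : S (PX [593] [594,595,596,597]) := VW.play 598 (PX [593,598] [594,595,596,597]) (by decide +kernel) v5_1810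

theorem w5_1812_598 : S (PX [593] [594,595,596,598]) := VW.play 597 (PX [593,597] [594,595,596,598]) (by decide +kernel) v5_1811

theorem v5_1812 : VW (PX [593] [594,595,596]) := VW.of base nl_ok fl_ok (.cons 597 598 .nil (.cons 598 597 .nil .nil))
  [(599, (.cons 597 598 .nil (.cons 598 597 .nil .nil))), (600, (.cons 597 598 .nil (.cons 598 597 .nil .nil))), (601, (.cons 597 598 .nil (.cons 598 597 .nil .nil)))]
  [([597], (PX [593] [594,595,596,597])), ([598], (PX [593] [594,595,596,598]))]
  (by decide +kernel) ⟨w5_1812_597, w5_1812_598, trivial⟩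

theorem v5_1827 : VW (PX [595] [594,596,597]) := VW.of base nl_ok fl_ok .nil
  [(598, (.cons 599 600 .nil (.cons 600 599 .nil .nil))), (599, (.cons 598 600 .nil (.cons 600 598 .nil .nil))), (600, (.cons 598 599 .nil (.cons 599 598 .nil .nil)))]
  []
  (by decide +kernel) trivial

theorem w5_1830_593 : S (PX [] [593,594,596]) := VW.play 595 (PX [595] [593,594,596]) (by decide +kernel) v5_1793

theorem w5_1830_595 : S (PX [] [594,595,596]) := VW.play 593 (PX [593] [594,595,596]) (by decide +kernel) v5_1812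

theorem w5_1830_597 : S (PX [] [594,596,597]) := VW.play 595 (PX [595] [594,596,597]) (by decide +kernel) v5_1827

theorem v5_1830 : VW (PX [] [594,596]) := VW.of base nl_ok fl_ok .nil
  [(592, (.cons 593 595 (.cons 590 591 .nil (.cons 591 590 .nil .nil)) (.cons 595 593 (.cons 597 598 .nil (.cons 598 597 .nil .nil)) .nil))), (598, (.cons 595 597 (.cons 592 593 .nil (.cons 593 592 .nil .nil)) (.cons 597 595 (.cons 599 600 .nil (.cons 600 599 .nil .nil)) .nil)))]
  [([593], (PX [] [593,594,596])), ([595], (PX [] [594,595,596])), ([597], (PX [] [594,596,597]))]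
  (by decide +kernel) ⟨w5_1830_593, w5_1830_595, w5_1830_597, trivial⟩

theorem v5_1831 : VW (PX [594,599] [595,596,597,598]) := VW.of base nl_ok fl_ok .nil
  []
  []
  (by decide +kernel) trivial

theorem v5_1832 : VW (PX [594,598] [595,596,597,599]) := VW.of base nl_ok fl_ok .nil
  []
  []
  (by decide +kernel) trivial

theorem w5_1833_598 : S (PX [594] [595,596,597,598]) := VW.play 599 (PX [594,599] [595,596,597,598]) (by decide +kernel) v5_1831

theorem w5_1833_599 : S (PX [594] [595,596,597,599]) := VW.play 598 (PX [594,598] [595,596,597,599]) (by decide +kernel) v5_1832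

theorem v5_1833 : VW (PX [594] [595,596,597]) := VW.of base nl_ok fl_ok (.cons 598 599 .nil (.cons 599 598 .nil .nil))
  [(600, (.cons 598 599 .nil (.cons 599 598 .nil .nil))), (601, (.cons 598 599 .nil (.cons 599 598 .nil .nil))), (602, (.cons 598 599 .nil (.cons 599 598 .nil .nil)))]
  [([598], (PX [594] [595,596,597,598])), ([599], (PX [594] [595,596,597,599]))]
  (by decide +kernel) ⟨w5_1833_598, w5_1833_599, trivial⟩

theorem v5_1838 : VW (PX [597] [595,596,598]) := VW.of base nl_ok fl_ok .nil
  [(592, (.cons 593 594 .nil (.cons 594 593 .nil .nil))), (593, (.cons 592 594 .nil (.cons 594 592 .nil .nil))), (594, (.cons 592 593 .nil (.cons 593 592 .nil .nil)))]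
  []
  (by decide +kernel) trivial

theorem w5_1839_593 : S (PX [] [593,595,596]) := VW.play 594 (PX [594] [593,595,596]) (by decide +kernel) v5_1808

theorem w5_1839_594 : S (PX [] [594,595,596]) := VW.play 593 (PX [593] [594,595,596]) (by decide +kernel) v5_1812

theorem w5_1839_597 : S (PX [] [595,596,597]) := VW.play 594 (PX [594] [595,596,597]) (by decide +kernel) v5_1833

theorem w5_1839_598 : S (PX [] [595,596,598]) := VW.play 597 (PX [597] [595,596,598]) (by decide +kernel) v5_1838

theorem v5_1839 : VW (PX [] [595,596]) := VW.of base nl_ok fl_ok .nil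
  [(592, (.cons 593 594 .nil (.cons 594 593 (.cons 597 598 .nil (.cons 598 597 .nil .nil)) .nil))), (599, (.cons 597 598 (.cons 593 594 .nil (.cons 594 593 .nil .nil)) (.cons 598 597 .nil .nil)))]
  [([593], (PX [] [593,595,596])), ([594], (PX [] [594,595,596])), ([597], (PX [] [595,596,597])), ([598], (PX [] [595,596,598]))]
  (by decide +kernel) ⟨w5_1839_593, w5_1839_594, w5_1839_597, w5_1839_598, trivial⟩

theorem v5_1840 : VW (PX [595,600] [596,597,598,599]) := VW.of base nl_ok fl_ok .nil
  []
  []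
  (by decide +kernel) trivial

theorem v5_1841 : VW (PX [595,599] [596,597,598,600]) := VW.of base nl_ok fl_ok .nil
  []
  []
  (by decide +kernel) trivial

theorem w5_1842_599 : S (PX [595] [596,597,598,599]) := VW.play 600 (PX [595,600] [596,597,598,599]) (by decide +kernel) v5_1840

theorem w5_1842_600 : S (PX [595] [596,597,598,600]) := VW.play 599 (PX [595,599] [596,597,598,600]) (by decide +kernel) v5_1841

theorem v5_1842 : VW (PX [595] [596,597,598]) := VW.of base nl_ok fl_ok (.cons 599 600 .nil (.cons 600 599 .nil .nil))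
  [(601, (.cons 599 600 .nil (.cons 600 599 .nil .nil))), (602, (.cons 599 600 .nil (.cons 600 599 .nil .nil))), (603, (.cons 599 600 .nil (.cons 600 599 .nil .nil)))]
  [([599], (PX [595] [596,597,598,599])), ([600], (PX [595] [596,597,598,600]))]
  (by decide +kernel) ⟨w5_1842_599, w5_1842_600, trivial⟩

theorem v5_1847 : VW (PX [598] [596,597,599]) := VW.of base nl_ok fl_ok .nil
  [(593, (.cons 594 595 .nil (.cons 595 594 .nil .nil))), (594, (.cons 593 595 .nil (.cons 595 593 .nil .nil))), (595, (.cons 593 594 .nil (.cons 594 593 .nil .nil)))]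
  []
  (by decide +kernel) trivial

theorem w5_1859_594 : S (PX [] [594,596,597]) := VW.play 595 (PX [595] [594,596,597]) (by decide +kernel) v5_1827

theorem w5_1859_595 : S (PX [] [595,596,597]) := VW.play 594 (PX [594] [595,596,597]) (by decide +kernel) v5_1833

theorem w5_1859_598 : S (PX [] [596,597,598]) := VW.play 595 (PX [595] [596,597,598]) (by decide +kernel) v5_1842

theorem w5_1859_599 : S (PX [] [596,597,599]) := VW.play 598 (PX [598] [596,597,599]) (by decide +kernel) v5_1847

theorem v5_1859 : VW (PX [] [596,597]) := VW.of base nl_ok fl_ok .nil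
  [(593, (.cons 594 595 .nil (.cons 595 594 (.cons 598 599 .nil (.cons 599 598 .nil .nil)) .nil))), (600, (.cons 598 599 (.cons 594 595 .nil (.cons 595 594 .nil .nil)) (.cons 599 598 .nil .nil)))]
  [([594], (PX [] [594,596,597])), ([595], (PX [] [595,596,597])), ([598], (PX [] [596,597,598])), ([599], (PX [] [596,597,599]))]
  (by decide +kernel) ⟨w5_1859_594, w5_1859_595, w5_1859_598, w5_1859_599, trivial⟩

theorem v5_1860 : VW (PX [597] [596,598,599]) := VW.of base nl_ok fl_ok .nil
  [(600, (.cons 601 602 .nil (.cons 602 601 .nil .nil))), (601, (.cons 600 602 .nil (.cons 602 600 .nil .nil))), (602, (.cons 600 601 .nil (.cons 601 600 .nil .nil)))]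
  []
  (by decide +kernel) trivial

theorem w5_1863_595 : S (PX [] [595,596,598]) := VW.play 597 (PX [597] [595,596,598]) (by decide +kernel) v5_1838

theorem w5_1863_597 : S (PX [] [596,597,598]) := VW.play 595 (PX [595] [596,597,598]) (by decide +kernel) v5_1842

theorem w5_1863_599 : S (PX [] [596,598,599]) := VW.play 597 (PX [597] [596,598,599]) (by decide +kernel) v5_1860

theorem v5_1863 : VW (PX [] [596,598]) := VW.of base nl_ok fl_ok .nil
  [(594, (.cons 595 597 (.cons 592 593 .nil (.cons 593 592 .nil .nil)) (.cons 597 595 (.cons 599 600 .nil (.cons 600 599 .nil .nil)) .nil))), (600, (.cons 597 599 (.cons 594 595 .nil (.cons 595 594 .nil .nil)) (.cons 599 597 (.cons 601 602 .nil (.cons 602 601 .nil .nil)) .nil)))]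
  [([595], (PX [] [595,596,598])), ([597], (PX [] [596,597,598])), ([599], (PX [] [596,598,599]))]
  (by decide +kernel) ⟨w5_1863_595, w5_1863_597, w5_1863_599, trivial⟩

theorem w5_1864_597 : S (PX [] [596,597,599]) := VW.play 598 (PX [598] [596,597,599]) (by decide +kernel) v5_1847

theorem w5_1864_598 : S (PX [] [596,598,599]) := VW.play 597 (PX [597] [596,598,599]) (by decide +kernel) v5_1860

theorem v5_1864 : VW (PX [] [596,599]) := VW.of base nl_ok fl_ok .nil
  [(595, (.cons 597 598 (.cons 593 594 .nil (.cons 594 593 .nil .nil)) (.cons 598 597 .nil .nil))), (600, (.cons 597 598 .nil (.cons 598 597 (.cons 601 602 .nil (.cons 602 601 .nil .nil)) .nil)))]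
  [([597], (PX [] [596,597,599])), ([598], (PX [] [596,598,599]))]
  (by decide +kernel) ⟨w5_1864_597, w5_1864_598, trivial⟩

theorem v5_1865 : VW (PX [] [596,600]) := VW.of base nl_ok fl_ok .nil
  [(597, (.cons 598 599 (.cons 594 595 .nil (.cons 595 594 .nil .nil)) (.cons 599 598 .nil .nil))), (598, (.cons 597 599 (.cons 594 595 .nil (.cons 595 594 .nil .nil)) (.cons 599 597 (.cons 601 602 .nil (.cons 602 601 .nil .nil)) .nil))), (599, (.cons 597 598 .nil (.cons 598 597 (.cons 601 602 .nil (.cons 602 601 .nil .nil)) .nil)))]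
  []
  (by decide +kernel) trivial

theorem v5_1866 : VW (PX [565,720] [596,627,658,689]) := VW.of base nl_ok fl_ok .nil
  []
  []
  (by decide +kernel) trivial

theorem v5_1867 : VW (PX [565,689] [596,627,658,720]) := VW.of base nl_ok fl_ok .nil
  []
  []
  (by decide +kernel) trivial

theorem w5_1868_689 : S (PX [565] [596,627,658,689]) := VW.play 720 (PX [565,720] [596,627,658,689]) (by decide +kernel) v5_1866

theorem w5_1868_720 : S (PX [565] [596,627,658,720]) := VW.play 689 (PX [565,689] [596,627,658,720]) (by decide +kernel) v5_1867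

theorem v5_1868 : VW (PX [565] [596,627,658]) := VW.of base nl_ok fl_ok (.cons 689 720 .nil (.cons 720 689 .nil .nil))
  [(751, (.cons 689 720 .nil (.cons 720 689 .nil .nil))), (782, (.cons 689 720 .nil (.cons 720 689 .nil .nil))), (813, (.cons 689 720 .nil (.cons 720 689 .nil .nil)))]
  [([689], (PX [565] [596,627,658,689])), ([720], (PX [565] [596,627,658,720]))]
  (by decide +kernel) ⟨w5_1868_689, w5_1868_720, trivial⟩

theorem v5_1873 : VW (PX [658] [596,627,689]) := VW.of base nl_ok fl_ok .nil
  [(503, (.cons 534 565 .nil (.cons 565 534 .nil .nil))), (534, (.cons 503 565 .nil (.cons 565 503 .nil .nil))), (565, (.cons 503 534 .nil (.cons 534 503 .nil .nil)))]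
  []
  (by decide +kernel) trivial

theorem w5_1885_534 : S (PX [] [534,596,627]) := VW.play 565 (PX [565] [534,596,627]) (by decide +kernel) v5_1758

theorem w5_1885_565 : S (PX [] [565,596,627]) := VW.play 534 (PX [534] [565,596,627]) (by decide +kernel) v5_1771

theorem w5_1885_658 : S (PX [] [596,627,658]) := VW.play 565 (PX [565] [596,627,658]) (by decide +kernel) v5_1868

theorem w5_1885_689 : S (PX [] [596,627,689]) := VW.play 658 (PX [658] [596,627,689]) (by decide +kernel) v5_1873

theorem v5_1885 : VW (PX [] [596,627]) := VW.of base nl_ok fl_ok .nil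
  [(503, (.cons 534 565 .nil (.cons 565 534 (.cons 658 689 .nil (.cons 689 658 .nil .nil)) .nil))), (720, (.cons 658 689 (.cons 534 565 .nil (.cons 565 534 .nil .nil)) (.cons 689 658 .nil .nil)))]
  [([534], (PX [] [534,596,627])), ([565], (PX [] [565,596,627])), ([658], (PX [] [596,627,658])), ([689], (PX [] [596,627,689]))]
  (by decide +kernel) ⟨w5_1885_534, w5_1885_565, w5_1885_658, w5_1885_689, trivial⟩

theorem v5_1886 : VW (PX [564,724] [596,628,660,692]) := VW.of base nl_ok fl_ok .nil
  []
  []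
  (by decide +kernel) trivial

theorem v5_1887 : VW (PX [564,692] [596,628,660,724]) := VW.of base nl_ok fl_ok .nil
  []
  []
  (by decide +kernel) trivial

theorem w5_1888_692 : S (PX [564] [596,628,660,692]) := VW.play 724 (PX [564,724] [596,628,660,692]) (by decide +kernel) v5_1886

theorem w5_1888_724 : S (PX [564] [596,628,660,724]) := VW.play 692 (PX [564,692] [596,628,660,724]) (by decide +kernel) v5_1887

theorem v5_1888 : VW (PX [564] [596,628,660]) := VW.of base nl_ok fl_ok (.cons 692 724 .nil (.cons 724 692 .nil .nil))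
  [(756, (.cons 692 724 .nil (.cons 724 692 .nil .nil))), (788, (.cons 692 724 .nil (.cons 724 692 .nil .nil))), (820, (.cons 692 724 .nil (.cons 724 692 .nil .nil)))]
  [([692], (PX [564] [596,628,660,692])), ([724], (PX [564] [596,628,660,724]))]
  (by decide +kernel) ⟨w5_1888_692, w5_1888_724, trivial⟩

theorem v5_1893 : VW (PX [660] [596,628,692]) := VW.of base nl_ok fl_ok .nil
  [(500, (.cons 532 564 .nil (.cons 564 532 .nil .nil))), (532, (.cons 500 564 .nil (.cons 564 500 .nil .nil))), (564, (.cons 500 532 .nil (.cons 532 500 .nil .nil)))]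
  []
  (by decide +kernel) trivial

theorem w5_1905_532 : S (PX [] [532,596,628]) := VW.play 564 (PX [564] [532,596,628]) (by decide +kernel) v5_1348

theorem w5_1905_564 : S (PX [] [564,596,628]) := VW.play 532 (PX [532] [564,596,628]) (by decide +kernel) v5_1583

theorem w5_1905_660 : S (PX [] [596,628,660]) := VW.play 564 (PX [564] [596,628,660]) (by decide +kernel) v5_1888

theorem w5_1905_692 : S (PX [] [596,628,692]) := VW.play 660 (PX [660] [596,628,692]) (by decide +kernel) v5_1893

theorem v5_1905 : VW (PX [] [596,628]) := VW.of base nl_ok fl_ok .nil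
  [(500, (.cons 532 564 .nil (.cons 564 532 (.cons 660 692 .nil (.cons 692 660 .nil .nil)) .nil))), (724, (.cons 660 692 (.cons 532 564 .nil (.cons 564 532 .nil .nil)) (.cons 692 660 .nil .nil)))]
  [([532], (PX [] [532,596,628])), ([564], (PX [] [564,596,628])), ([660], (PX [] [596,628,660])), ([692], (PX [] [596,628,692]))]
  (by decide +kernel) ⟨w5_1905_532, w5_1905_564, w5_1905_660, w5_1905_692, trivial⟩

theorem v5_1906 : VW (PX [563,728] [596,629,662,695]) := VW.of base nl_ok fl_ok .nil
  []
  []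
  (by decide +kernel) trivial

theorem v5_1907 : VW (PX [563,695] [596,629,662,728]) := VW.of base nl_ok fl_ok .nil
  []
  []
  (by decide +kernel) trivial

theorem w5_1908_695 : S (PX [563] [596,629,662,695]) := VW.play 728 (PX [563,728] [596,629,662,695]) (by decide +kernel) v5_1906

theorem w5_1908_728 : S (PX [563] [596,629,662,728]) := VW.play 695 (PX [563,695] [596,629,662,728]) (by decide +kernel) v5_1907

theorem v5_1908 : VW (PX [563] [596,629,662]) := VW.of base nl_ok fl_ok (.cons 695 728 .nil (.cons 728 695 .nil .nil))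
  [(761, (.cons 695 728 .nil (.cons 728 695 .nil .nil))), (794, (.cons 695 728 .nil (.cons 728 695 .nil .nil))), (827, (.cons 695 728 .nil (.cons 728 695 .nil .nil)))]
  [([695], (PX [563] [596,629,662,695])), ([728], (PX [563] [596,629,662,728]))]
  (by decide +kernel) ⟨w5_1908_695, w5_1908_728, trivial⟩

theorem v5_1913 : VW (PX [662] [596,629,695]) := VW.of base nl_ok fl_ok .nil
  [(497, (.cons 530 563 .nil (.cons 563 530 .nil .nil))), (530, (.cons 497 563 .nil (.cons 563 497 .nil .nil))), (563, (.cons 497 530 .nil (.cons 530 497 .nil .nil)))]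
  []
  (by decide +kernel) trivial

theorem w5_1914_530 : S (PX [] [530,596,629]) := VW.play 563 (PX [563] [530,596,629]) (by decide +kernel) v5_1737

theorem w5_1914_563 : S (PX [] [563,596,629]) := VW.play 530 (PX [530] [563,596,629]) (by decide +kernel) v5_1764

theorem w5_1914_662 : S (PX [] [596,629,662]) := VW.play 563 (PX [563] [596,629,662]) (by decide +kernel) v5_1908

theorem w5_1914_695 : S (PX [] [596,629,695]) := VW.play 662 (PX [662] [596,629,695]) (by decide +kernel) v5_1913

theorem v5_1914 : VW (PX [] [596,629]) := VW.of base nl_ok fl_ok .nil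
  [(497, (.cons 530 563 .nil (.cons 563 530 (.cons 662 695 .nil (.cons 695 662 .nil .nil)) .nil))), (728, (.cons 662 695 (.cons 530 563 .nil (.cons 563 530 .nil .nil)) (.cons 695 662 .nil .nil)))]
  [([530], (PX [] [530,596,629])), ([563], (PX [] [563,596,629])), ([662], (PX [] [596,629,662])), ([695], (PX [] [596,629,695]))]
  (by decide +kernel) ⟨w5_1914_530, w5_1914_563, w5_1914_662, w5_1914_695, trivial⟩

theorem v5_1929 : VW (PX [627] [596,658,689]) := VW.of base nl_ok fl_ok .nil
  [(720, (.cons 751 782 .nil (.cons 782 751 .nil .nil))), (751, (.cons 720 782 .nil (.cons 782 720 .nil .nil))), (782, (.cons 720 751 .nil (.cons 751 720 .nil .nil)))]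
  []
  (by decide +kernel) trivial

theorem w5_1932_565 : S (PX [] [565,596,658]) := VW.play 627 (PX [627] [565,596,658]) (by decide +kernel) v5_1776

theorem w5_1932_627 : S (PX [] [596,627,658]) := VW.play 565 (PX [565] [596,627,658]) (by decide +kernel) v5_1868

theorem w5_1932_689 : S (PX [] [596,658,689]) := VW.play 627 (PX [627] [596,658,689]) (by decide +kernel) v5_1929

theorem v5_1932 : VW (PX [] [596,658]) := VW.of base nl_ok fl_ok .nil
  [(534, (.cons 565 627 (.cons 472 503 .nil (.cons 503 472 .nil .nil)) (.cons 627 565 (.cons 689 720 .nil (.cons 720 689 .nil .nil)) .nil))), (720, (.cons 627 689 (.cons 534 565 .nil (.cons 565 534 .nil .nil)) (.cons 689 627 (.cons 751 782 .nil (.cons 782 751 .nil .nil)) .nil)))]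
  [([565], (PX [] [565,596,658])), ([627], (PX [] [596,627,658])), ([689], (PX [] [596,658,689]))]
  (by decide +kernel) ⟨w5_1932_565, w5_1932_627, w5_1932_689, trivial⟩

theorem v5_1947 : VW (PX [628] [596,660,692]) := VW.of base nl_ok fl_ok .nil
  [(724, (.cons 756 788 .nil (.cons 788 756 .nil .nil))), (756, (.cons 724 788 .nil (.cons 788 724 .nil .nil))), (788, (.cons 724 756 .nil (.cons 756 724 .nil .nil)))]
  []
  (by decide +kernel) trivial

theorem w5_1950_564 : S (PX [] [564,596,660]) := VW.play 628 (PX [628] [564,596,660]) (by decide +kernel) v5_1588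

theorem w5_1950_628 : S (PX [] [596,628,660]) := VW.play 564 (PX [564] [596,628,660]) (by decide +kernel) v5_1888

theorem w5_1950_692 : S (PX [] [596,660,692]) := VW.play 628 (PX [628] [596,660,692]) (by decide +kernel) v5_1947

theorem v5_1950 : VW (PX [] [596,660]) := VW.of base nl_ok fl_ok .nil
  [(532, (.cons 564 628 (.cons 468 500 .nil (.cons 500 468 .nil .nil)) (.cons 628 564 (.cons 692 724 .nil (.cons 724 692 .nil .nil)) .nil))), (724, (.cons 628 692 (.cons 532 564 .nil (.cons 564 532 .nil .nil)) (.cons 692 628 (.cons 756 788 .nil (.cons 788 756 .nil .nil)) .nil)))]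
  [([564], (PX [] [564,596,660])), ([628], (PX [] [596,628,660])), ([692], (PX [] [596,660,692]))]
  (by decide +kernel) ⟨w5_1950_564, w5_1950_628, w5_1950_692, trivial⟩

theorem v5_1951 : VW (PX [629] [596,662,695]) := VW.of base nl_ok fl_ok .nil
  [(728, (.cons 761 794 .nil (.cons 794 761 .nil .nil))), (761, (.cons 728 794 .nil (.cons 794 728 .nil .nil))), (794, (.cons 728 761 .nil (.cons 761 728 .nil .nil)))]
  []
  (by decide +kernel) trivial

theorem w5_1954_563 : S (PX [] [563,596,662]) := VW.play 629 (PX [629] [563,596,662]) (by decide +kernel) v5_1767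

theorem w5_1954_629 : S (PX [] [596,629,662]) := VW.play 563 (PX [563] [596,629,662]) (by decide +kernel) v5_1908

theorem w5_1954_695 : S (PX [] [596,662,695]) := VW.play 629 (PX [629] [596,662,695]) (by decide +kernel) v5_1951

theorem v5_1954 : VW (PX [] [596,662]) := VW.of base nl_ok fl_ok .nil
  [(530, (.cons 563 629 (.cons 464 497 .nil (.cons 497 464 .nil .nil)) (.cons 629 563 (.cons 695 728 .nil (.cons 728 695 .nil .nil)) .nil))), (728, (.cons 629 695 (.cons 530 563 .nil (.cons 563 530 .nil .nil)) (.cons 695 629 (.cons 761 794 .nil (.cons 794 761 .nil .nil)) .nil)))]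
  [([563], (PX [] [563,596,662])), ([629], (PX [] [596,629,662])), ([695], (PX [] [596,662,695]))]
  (by decide +kernel) ⟨w5_1954_563, w5_1954_629, w5_1954_695, trivial⟩

theorem w5_1955_627 : S (PX [] [596,627,689]) := VW.play 658 (PX [658] [596,627,689]) (by decide +kernel) v5_1873

theorem w5_1955_658 : S (PX [] [596,658,689]) := VW.play 627 (PX [627] [596,658,689]) (by decide +kernel) v5_1929

theorem v5_1955 : VW (PX [] [596,689]) := VW.of base nl_ok fl_ok .nil
  [(565, (.cons 627 658 (.cons 503 534 .nil (.cons 534 503 .nil .nil)) (.cons 658 627 .nil .nil))), (720, (.cons 627 658 .nil (.cons 658 627 (.cons 751 782 .nil (.cons 782 751 .nil .nil)) .nil)))]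
  [([627], (PX [] [596,627,689])), ([658], (PX [] [596,658,689]))]
  (by decide +kernel) ⟨w5_1955_627, w5_1955_658, trivial⟩

theorem w5_1956_628 : S (PX [] [596,628,692]) := VW.play 660 (PX [660] [596,628,692]) (by decide +kernel) v5_1893

theorem w5_1956_660 : S (PX [] [596,660,692]) := VW.play 628 (PX [628] [596,660,692]) (by decide +kernel) v5_1947

theorem v5_1956 : VW (PX [] [596,692]) := VW.of base nl_ok fl_ok .nil
  [(564, (.cons 628 660 (.cons 500 532 .nil (.cons 532 500 .nil .nil)) (.cons 660 628 .nil .nil))), (724, (.cons 628 660 .nil (.cons 660 628 (.cons 756 788 .nil (.cons 788 756 .nil .nil)) .nil)))]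
  [([628], (PX [] [596,628,692])), ([660], (PX [] [596,660,692]))]
  (by decide +kernel) ⟨w5_1956_628, w5_1956_660, trivial⟩

theorem w5_1957_629 : S (PX [] [596,629,695]) := VW.play 662 (PX [662] [596,629,695]) (by decide +kernel) v5_1913

theorem w5_1957_662 : S (PX [] [596,662,695]) := VW.play 629 (PX [629] [596,662,695]) (by decide +kernel) v5_1951

theorem v5_1957 : VW (PX [] [596,695]) := VW.of base nl_ok fl_ok .nil
  [(563, (.cons 629 662 (.cons 497 530 .nil (.cons 530 497 .nil .nil)) (.cons 662 629 .nil .nil))), (728, (.cons 629 662 .nil (.cons 662 629 (.cons 761 794 .nil (.cons 794 761 .nil .nil)) .nil)))]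
  [([629], (PX [] [596,629,695])), ([662], (PX [] [596,662,695]))]
  (by decide +kernel) ⟨w5_1957_629, w5_1957_662, trivial⟩

theorem v5_1958 : VW (PX [] [596,720]) := VW.of base nl_ok fl_ok .nil
  [(627, (.cons 658 689 (.cons 534 565 .nil (.cons 565 534 .nil .nil)) (.cons 689 658 .nil .nil))), (658, (.cons 627 689 (.cons 534 565 .nil (.cons 565 534 .nil .nil)) (.cons 689 627 (.cons 751 782 .nil (.cons 782 751 .nil .nil)) .nil))), (689, (.cons 627 658 .nil (.cons 658 627 (.cons 751 782 .nil (.cons 782 751 .nil .nil)) .nil)))]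
  []
  (by decide +kernel) trivial

theorem v5_1959 : VW (PX [] [596,724]) := VW.of base nl_ok fl_ok .nil
  [(628, (.cons 660 692 (.cons 532 564 .nil (.cons 564 532 .nil .nil)) (.cons 692 660 .nil .nil))), (660, (.cons 628 692 (.cons 532 564 .nil (.cons 564 532 .nil .nil)) (.cons 692 628 (.cons 756 788 .nil (.cons 788 756 .nil .nil)) .nil))), (692, (.cons 628 660 .nil (.cons 660 628 (.cons 756 788 .nil (.cons 788 756 .nil .nil)) .nil)))]
  []
  (by decide +kernel) trivial

theorem v5_1960 : VW (PX [] [596,728]) := VW.of base nl_ok fl_ok .nil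
  [(629, (.cons 662 695 (.cons 530 563 .nil (.cons 563 530 .nil .nil)) (.cons 695 662 .nil .nil))), (662, (.cons 629 695 (.cons 530 563 .nil (.cons 563 530 .nil .nil)) (.cons 695 629 (.cons 761 794 .nil (.cons 794 761 .nil .nil)) .nil))), (695, (.cons 629 662 .nil (.cons 662 629 (.cons 761 794 .nil (.cons 794 761 .nil .nil)) .nil)))]
  []
  (by decide +kernel) trivial

theorem r464 : S (Nat.lor X2 (bits [596, 464])) := VW.play 394 (PX [] [464,596]) (by decide +kernel) v5_1672

theorem r468 : S (Nat.lor X2 (bits [596, 468])) := VW.play 394 (PX [] [468,596]) (by decide +kernel) v5_686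

theorem r472 : S (Nat.lor X2 (bits [596, 472])) := VW.play 394 (PX [] [472,596]) (by decide +kernel) v5_1673

theorem r497 : S (Nat.lor X2 (bits [596, 497])) := VW.play 394 (PX [] [497,596]) (by decide +kernel) v5_1697

theorem r500 : S (Nat.lor X2 (bits [596, 500])) := VW.play 394 (PX [] [500,596]) (by decide +kernel) v5_1045

theorem r503 : S (Nat.lor X2 (bits [596, 503])) := VW.play 394 (PX [] [503,596]) (by decide +kernel) v5_1719

theorem r530 : S (Nat.lor X2 (bits [596, 530])) := VW.play 394 (PX [] [530,596]) (by decide +kernel) v5_1738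

theorem r532 : S (Nat.lor X2 (bits [596, 532])) := VW.play 394 (PX [] [532,596]) (by decide +kernel) v5_1351

theorem r534 : S (Nat.lor X2 (bits [596, 534])) := VW.play 394 (PX [] [534,596]) (by decide +kernel) v5_1761

theorem r563 : S (Nat.lor X2 (bits [596, 563])) := VW.play 394 (PX [] [563,596]) (by decide +kernel) v5_1768

theorem r564 : S (Nat.lor X2 (bits [596, 564])) := VW.play 394 (PX [] [564,596]) (by decide +kernel) v5_1600

theorem r565 : S (Nat.lor X2 (bits [596, 565])) := VW.play 394 (PX [] [565,596]) (by decide +kernel) v5_1788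

theorem r592 : S (Nat.lor X2 (bits [596, 592])) := VW.play 394 (PX [] [592,596]) (by decide +kernel) v5_1789

theorem r593 : S (Nat.lor X2 (bits [596, 593])) := VW.play 394 (PX [] [593,596]) (by decide +kernel) v5_1809

theorem r594 : S (Nat.lor X2 (bits [596, 594])) := VW.play 394 (PX [] [594,596]) (by decide +kernel) v5_1830

theorem r595 : S (Nat.lor X2 (bits [596, 595])) := VW.play 394 (PX [] [595,596]) (by decide +kernel) v5_1839

theorem r597 : S (Nat.lor X2 (bits [596, 597])) := VW.play 394 (PX [] [596,597]) (by decide +kernel) v5_1859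

theorem r598 : S (Nat.lor X2 (bits [596, 598])) := VW.play 394 (PX [] [596,598]) (by decide +kernel) v5_1863

theorem r599 : S (Nat.lor X2 (bits [596, 599])) := VW.play 394 (PX [] [596,599]) (by decide +kernel) v5_1864

theorem r600 : S (Nat.lor X2 (bits [596, 600])) := VW.play 394 (PX [] [596,600]) (by decide +kernel) v5_1865

theorem r627 : S (Nat.lor X2 (bits [596, 627])) := VW.play 394 (PX [] [596,627]) (by decide +kernel) v5_1885

theorem r628 : S (Nat.lor X2 (bits [596, 628])) := VW.play 394 (PX [] [596,628]) (by decide +kernel) v5_1905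

theorem r629 : S (Nat.lor X2 (bits [596, 629])) := VW.play 394 (PX [] [596,629]) (by decide +kernel) v5_1914

theorem r658 : S (Nat.lor X2 (bits [596, 658])) := VW.play 394 (PX [] [596,658]) (by decide +kernel) v5_1932

theorem r660 : S (Nat.lor X2 (bits [596, 660])) := VW.play 394 (PX [] [596,660]) (by decide +kernel) v5_1950

theorem r662 : S (Nat.lor X2 (bits [596, 662])) := VW.play 394 (PX [] [596,662]) (by decide +kernel) v5_1954

theorem r689 : S (Nat.lor X2 (bits [596, 689])) := VW.play 394 (PX [] [596,689]) (by decide +kernel) v5_1955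

theorem r692 : S (Nat.lor X2 (bits [596, 692])) := VW.play 394 (PX [] [596,692]) (by decide +kernel) v5_1956

theorem r695 : S (Nat.lor X2 (bits [596, 695])) := VW.play 394 (PX [] [596,695]) (by decide +kernel) v5_1957

theorem r720 : S (Nat.lor X2 (bits [596, 720])) := VW.play 394 (PX [] [596,720]) (by decide +kernel) v5_1958

theorem r724 : S (Nat.lor X2 (bits [596, 724])) := VW.play 394 (PX [] [596,724]) (by decide +kernel) v5_1959

theorem r728 : S (Nat.lor X2 (bits [596, 728])) := VW.play 394 (PX [] [596,728]) (by decide +kernel) v5_1960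

theorem all : RT X2 596 (464 :: 468 :: 472 :: 497 :: 500 :: 503 :: 530 :: 532 :: 534 :: 563 :: 564 :: 565 :: 592 :: 593 :: 594 :: 595 :: 597 :: 598 :: 599 :: 600 :: 627 :: 628 :: 629 :: 658 :: 660 :: 662 :: 689 :: 692 :: 695 :: 720 :: 724 :: 728 :: []) := ⟨r464, r468, r472, r497, r500, r503, r530, r532, r534, r563, r564, r565, r592, r593, r594, r595, r597, r598, r599, r600, r627, r628, r629, r658, r660, r662, r689, r692, r695, r720, r724, r728, trivial⟩

end Pool.Agent.H94.Five.Mid.K9_7_0
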