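import Pool.Agent.H94.Five.Mid.Fam

set_option autoImplicit false
set_option linter.all false
set_option maxRecDepth 100000

/-! Second has the cell (9, 8): some of the other stones. -/

namespace Pool.Agent.H94.Five.Mid.K9_8_0

open Pool.Agent.H79.Five Pool.Agent.H10.Five Pool.Agent.H94.Five.M

abbrev nl : List Ent := [n0, n3, n4, n6, n8, n9, n10, n11, n16, n17, n21, n22]

theorem nl_ok : AC XB M0 nl := .cons n0k <| .cons n3k <| .cons n4k <| .cons n6k <| .cons n8k <| .cons n9k <| .cons n10k <| .cons n11k <| .cons n16k <| .cons n17k <| .cons n21k <| .cons n22k <| .nil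

abbrev fl : List Ent := (x1 :: x14 :: x27 :: x36 :: x44 :: x60 :: x72 :: x73 :: x103 :: x107 :: x130 :: x141 :: x167 :: x171 :: x174 :: x179 :: x183 :: x201 :: x204 :: x213 :: x235 :: x238 :: x242 :: x245 :: x255 :: x258 :: x266 :: x270 :: x276 :: x277 :: x288 :: x304 :: x310 :: x316 :: x328 :: x355 :: x357 :: x363 :: x364 :: x371 :: x375 :: x383 :: x390 :: x420 :: x424 :: x427 :: x437 :: x449 :: x451 :: x496 :: x498 :: x501 :: x527 :: [])

theorem fl_ok : AC XB M0 fl := .cons x1k <| .cons x14k <| .cons x27k <| .cons x36k <| .cons x44k <| .cons x60k <| .cons x72k <| .cons x73k <| .cons x103k <| .cons x107k <| .cons x130k <| .cons x141k <| .cons x167k <| .cons x171k <| .cons x174k <| .cons x179k <| .cons x183k <| .cons x201k <| .cons x204k <| .cons x213k <| .cons x235k <| .cons x238k <| .cons x242k <| .cons x245k <| .cons x255k <| .cons x258k <| .cons x266k <| .cons x270k <| .cons x276k <| .cons x277k <| .cons x288k <| .cons x304k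 <| .cons x310k <| .cons x316k <| .cons x328k <| .cons x355k <| .cons x357k <| .cons x363k <| .cons x364k <| .cons x371k <| .cons x375k <| .cons x383k <| .cons x390k <| .cons x420k <| .cons x424k <| .cons x427k <| .cons x437k <| .cons x449k <| .cons x451k <| .cons x496k <| .cons x498k <| .cons x501k <| .cons x527k <| .nil

theorem b5_1594 : S (PX [562] [236,496,529,628]) := S.of (.q 332 (.a 1 [] (.d 301 3342 270 3373 425)
 (.a 1 [270] (.d 425 3373 301 3404 456)
 (.a 0 [301,425] (.q 364 (.a 1 [] (.d 300 1292 268 1324 428)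
 (.a 1 [268] (.d 428 1324 300 1356 460)
 (.a 0 [300,428] (.q 365 (.a 1 [] (.d 362 361 361 362 366)
 (.a 1 [361] (.d 366 362 362 363 367)
 (.a 0 [362,366] (.q 427 (.a 1 [] (.d 334 3375 303 3406 458)
 (.a 1 [303] (.d 458 3406 334 3437 489)
 (.a 0 [334,458] (.q 395 (.a 1 [] (.d 393 392 392 393 397)
 (.a 1 [392] (.d 397 393 393 394 398)
 (.a 1 [393] (.d 331 1323 299 1355 459)
 .e))))
 .e))))
 .e))))
 .e))))
 .e)))) (by decide +kernel)

theorem b5_1595 : S (PX [562] [266,496,529,628]) := S.of (.q 332 (.a 1 [] (.d 301 3342 270 3373 425)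
 (.a 1 [270] (.d 425 3373 301 3404 456)
 (.a 0 [301,425] (.q 364 (.a 1 [] (.d 300 1292 268 1324 428)
 (.a 1 [268] (.d 428 1324 300 1356 460)
 (.a 0 [300,428] (.q 365 (.a 1 [] (.d 362 361 361 362 366)
 (.a 1 [361] (.d 366 362 362 363 367)
 (.a 0 [362,366] (.q 427 (.a 1 [] (.d 334 3375 303 3406 458)
 (.a 1 [303] (.d 458 3406 334 3437 489)
 (.a 0 [334,458] (.q 395 (.a 1 [] (.d 393 392 392 393 397)
 (.a 1 [392] (.d 397 393 393 394 398)
 (.a 1 [393] (.d 331 1323 299 1355 459)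
 .e))))
 .e))))
 .e))))
 .e))))
 .e)))) (by decide +kernel)

theorem b5_1596 : S (PX [562] [268,496,529,628]) := S.of (.q 330 (.a 1 [] (.d 297 2312 264 2345 429)
 (.a 1 [264] (.d 429 2345 297 2378 462)
 (.a 0 [297,429] (.q 362 (.a 1 [] (.d 298 1290 266 1322 426)
 (.a 1 [266] (.d 426 1322 298 1354 458)
 (.a 0 [298,426] (.q 361 (.a 1 [] (.d 360 359 359 360 364)
 (.a 1 [359] (.d 364 360 360 361 365)
 (.a 0 [360,364] (.q 427 (.a 1 [] (.d 328 2343 295 2376 460)
 (.a 1 [295] (.d 460 2376 328 2409 493)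
 (.a 0 [328,460] (.q 395 (.a 1 [] (.d 393 392 392 393 397)
 (.a 1 [392] (.d 397 393 393 394 398)
 (.a 1 [393] (.d 331 1323 299 1355 459)
 .e))))
 .e))))
 .e))))
 .e))))
 .e)))) (by decide +kernel)

theorem b5_1597 : S (PX [562] [297,496,529,628]) := S.of (.q 397 (.a 1 [] (.d 395 393 393 394 398)
 (.a 0 [393,395,398] (.q 429 (.a 1 [] (.d 462 2378 330 2411 495)
 (.a 0 [330,462,495] (.q 365 (.a 1 [] (.d 333 1325 301 1357 461)
 (.a 1 [301] (.d 461 1357 333 1389 493)
 (.a 1 [461] (.r 301 1325 333 (.d 332 3342 270 3373 425))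
 (.a 0 [333] (.q 427 (.a 1 [] (.d 334 3375 303 3406 458)
 (.a 1 [303] (.d 458 3406 334 3437 489)
 (.a 1 [334] (.r 493 1389 461 (.d 460 2409 361 2442 526))
 .e))))
 .e)))))
 .e)))
 .e))) (by decide +kernel)

theorem b5_1598 : S (PX [562] [298,496,529,628]) := S.of (.q 332 (.a 1 [] (.d 301 3342 270 3373 425)
 (.a 1 [270] (.d 425 3373 301 3404 456)
 (.a 0 [301,425] (.q 429 (.a 1 [] (.d 330 2345 297 2378 462)
 (.a 1 [297] (.d 462 2378 330 2411 495)
 (.a 0 [330,462] (.q 397 (.a 1 [] (.d 395 393 393 394 398)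
 (.a 0 [393,395,398] (.q 365 (.a 1 [] (.d 461 1357 333 1389 493)
 (.a 0 [333,461,493] (.q 364 (.a 1 [] (.d 362 361 361 362 366)
 (.a 1 [361] (.d 366 362 362 363 367)
 (.a 1 [362] (.d 300 1292 268 1324 428)
 .e))))
 .e)))
 .e)))
 .e))))
 .e)))) (by decide +kernel)

theorem b5_1599 : S (PX [562] [299,496,529,628]) := S.of (.q 332 (.a 1 [] (.d 301 3342 270 3373 425)
 (.a 1 [270] (.d 425 3373 301 3404 456)
 (.a 0 [301,425] (.q 429 (.a 1 [] (.d 330 2345 297 2378 462)
 (.a 1 [297] (.d 462 2378 330 2411 495)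
 (.a 0 [330,462] (.q 397 (.a 1 [] (.d 395 393 393 394 398)
 (.a 0 [393,395,398] (.q 365 (.a 1 [] (.d 461 1357 333 1389 493)
 (.a 0 [333,461,493] (.q 364 (.a 1 [] (.d 362 361 361 362 366)
 (.a 1 [361] (.d 366 362 362 363 367)
 (.a 1 [362] (.d 300 1292 268 1324 428)
 .e))))
 .e)))
 .e)))
 .e))))
 .e)))) (by decide +kernel)

theorem b5_1600 : S (PX [562] [300,496,529,628]) := S.of (.q 429 (.a 1 [] (.d 330 2345 297 2378 462)
 (.a 1 [297] (.d 462 2378 330 2411 495)
 (.a 0 [330,462] (.q 397 (.a 1 [] (.d 395 393 393 394 398)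
 (.a 0 [393,395,398] (.q 365 (.a 1 [] (.d 333 1325 301 1357 461)
 (.a 1 [301] (.d 461 1357 333 1389 493)
 (.a 1 [461] (.r 301 1325 333 (.d 332 3342 270 3373 425))
 (.a 0 [333] (.q 427 (.a 1 [] (.d 334 3375 303 3406 458)
 (.a 1 [303] (.d 458 3406 334 3437 489)
 (.a 1 [334] (.r 493 1389 461 (.d 460 2409 361 2442 526))
 .e))))
 .e)))))
 .e)))
 .e)))) (by decide +kernel)

theorem b5_1601 : S (PX [562] [301,496,529,628]) := S.of (.q 330 (.a 1 [] (.d 297 2312 264 2345 429)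
 (.a 1 [264] (.d 429 2345 297 2378 462)
 (.a 0 [297] (.q 425 (.a 1 [] (.d 456 3404 332 3435 487)
 (.a 0 [332,456,487] (.q 426 (.a 1 [] (.d 362 1322 298 1354 458)
 (.a 1 [298] (.r 458 1354 362 (.r 429 2378 462 (.r 427 425 428 (.d 489 3437 365 3468 520))))
 (.a 0 [362,458] (.q 395 (.a 1 [] (.d 393 392 392 393 397)
 (.a 1 [392] (.d 397 393 393 394 398)
 (.a 1 [393] (.r 429 2378 462 (.r 427 425 428 (.d 459 1355 331 1387 491)))
 .e))))
 .e))))
 .e)))
 (.a 0 [429] (.q 362 (.a 1 [] (.d 298 1290 266 1322 426)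
 (.a 1 [266] (.d 426 1322 298 1354 458)
 (.a 0 [298,426] (.q 361 (.a 1 [] (.d 360 359 359 360 364)
 (.a 1 [359] (.d 364 360 360 361 365)
 (.a 0 [360,364] (.q 393 (.a 1 [] (.d 395 392 392 393 397)
 (.a 1 [392] (.r 297 2312 264 (.d 329 1289 265 1321 425))
 .e)))
 .e))))
 .e))))
 .e))))) (by decide +kernel)

theorem b5_1602 : S (PX [562] [302,496,529,628]) := S.of (.q 330 (.a 1 [] (.d 297 2312 264 2345 429)
 (.a 1 [264] (.d 429 2345 297 2378 462)
 (.a 0 [297,429] (.q 362 (.a 1 [] (.d 298 1290 266 1322 426)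
 (.a 1 [266] (.d 426 1322 298 1354 458)
 (.a 0 [298,426] (.q 364 (.a 1 [] (.d 361 360 360 361 365)
 (.a 1 [360] (.d 365 361 361 362 366)
 (.a 0 [361,365] (.q 332 (.a 1 [] (.d 300 1292 268 1324 428)
 (.a 1 [268] (.d 428 1324 300 1356 460)
 (.a 1 [300] (.d 301 3342 270 3373 425)
 .e))))
 .e))))
 .e))))
 .e)))) (by decide +kernel)

theorem b5_1603 : S (PX [562] [304,496,529,628]) := S.of (.q 330 (.a 1 [] (.d 297 2312 264 2345 429)
 (.a 1 [264] (.d 429 2345 297 2378 462)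
 (.a 0 [297,429] (.q 362 (.a 1 [] (.d 298 1290 266 1322 426)
 (.a 1 [266] (.d 426 1322 298 1354 458)
 (.a 0 [298,426] (.q 361 (.a 1 [] (.d 360 359 359 360 364)
 (.a 1 [359] (.d 364 360 360 361 365)
 (.a 0 [360,364] (.q 427 (.a 1 [] (.d 328 2343 295 2376 460)
 (.a 1 [295] (.d 460 2376 328 2409 493)
 (.a 0 [328,460] (.q 395 (.a 1 [] (.d 393 392 392 393 397)
 (.a 1 [392] (.d 397 393 393 394 398)
 (.a 1 [393] (.d 331 1323 299 1355 459)
 .e))))
 .e))))
 .e))))
 .e))))
 .e)))) (by decide +kernel)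

theorem b5_1604 : S (PX [562] [330,496,529,628]) := S.of (.q 332 (.a 1 [] (.d 301 3342 270 3373 425)
 (.a 1 [270] (.d 425 3373 301 3404 456)
 (.a 0 [301,425] (.q 364 (.a 1 [] (.d 300 1292 268 1324 428)
 (.a 1 [268] (.d 428 1324 300 1356 460)
 (.a 0 [300,428] (.q 365 (.a 1 [] (.d 362 361 361 362 366)
 (.a 1 [361] (.d 366 362 362 363 367)
 (.a 0 [362,366] (.q 427 (.a 1 [] (.d 334 3375 303 3406 458)
 (.a 1 [303] (.d 458 3406 334 3437 489)
 (.a 0 [334,458] (.q 395 (.a 1 [] (.d 393 392 392 393 397)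
 (.a 1 [392] (.d 397 393 393 394 398)
 (.a 1 [393] (.d 331 1323 299 1355 459)
 .e))))
 .e))))
 .e))))
 .e))))
 .e)))) (by decide +kernel)

theorem b5_1605 : S (PX [562] [332,496,529,628]) := S.of (.q 330 (.a 1 [] (.d 297 2312 264 2345 429)
 (.a 1 [264] (.d 429 2345 297 2378 462)
 (.a 0 [297,429] (.q 362 (.a 1 [] (.d 298 1290 266 1322 426)
 (.a 1 [266] (.d 426 1322 298 1354 458)
 (.a 0 [298,426] (.q 361 (.a 1 [] (.d 360 359 359 360 364)
 (.a 1 [359] (.d 364 360 360 361 365)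
 (.a 0 [360,364] (.q 427 (.a 1 [] (.d 328 2343 295 2376 460)
 (.a 1 [295] (.d 460 2376 328 2409 493)
 (.a 0 [328,460] (.q 395 (.a 1 [] (.d 393 392 392 393 397)
 (.a 1 [392] (.d 397 393 393 394 398)
 (.a 1 [393] (.d 331 1323 299 1355 459)
 .e))))
 .e))))
 .e))))
 .e))))
 .e)))) (by decide +kernel)

theorem b5_1606 : S (PX [562] [357,496,529,628]) := S.of (.q 330 (.a 1 [] (.d 297 2312 264 2345 429)
 (.a 1 [264] (.d 429 2345 297 2378 462)
 (.a 0 [297,429] (.q 362 (.a 1 [] (.d 298 1290 266 1322 426)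
 (.a 1 [266] (.d 426 1322 298 1354 458)
 (.a 0 [298,426] (.q 361 (.a 1 [] (.d 360 359 359 360 364)
 (.a 1 [359] (.d 364 360 360 361 365)
 (.a 0 [360,364] (.q 427 (.a 1 [] (.d 328 2343 295 2376 460)
 (.a 1 [295] (.d 460 2376 328 2409 493)
 (.a 0 [328,460] (.q 395 (.a 1 [] (.d 393 392 392 393 397)
 (.a 1 [392] (.d 397 393 393 394 398)
 (.a 1 [393] (.d 331 1323 299 1355 459)
 .e))))
 .e))))
 .e))))
 .e))))
 .e)))) (by decide +kernel)

theorem b5_1607 : S (PX [562] [362,496,529,628]) := S.of (.q 429 (.a 1 [] (.d 330 2345 297 2378 462)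
 (.a 1 [297] (.d 462 2378 330 2411 495)
 (.a 0 [330,462] (.q 397 (.a 1 [] (.d 395 393 393 394 398)
 (.a 0 [393,395,398] (.q 365 (.a 1 [] (.d 333 1325 301 1357 461)
 (.a 1 [301] (.d 461 1357 333 1389 493)
 (.a 1 [461] (.r 301 1325 333 (.d 332 3342 270 3373 425))
 (.a 0 [333] (.q 427 (.a 1 [] (.d 334 3375 303 3406 458)
 (.a 1 [303] (.d 458 3406 334 3437 489)
 (.a 1 [334] (.r 493 1389 461 (.d 460 2409 361 2442 526))
 .e))))
 .e)))))
 .e)))
 .e)))) (by decide +kernel)

theorem b5_1622 : S (PX [562] [397,496,529,628]) := S.of (.q 429 (.a 1 [] (.d 330 2345 297 2378 462)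
 (.a 0 [330] (.q 332 (.a 1 [] (.d 301 3342 270 3373 425)
 (.a 0 [425] (.q 364 (.a 1 [] (.d 300 1292 268 1324 428)
 (.a 0 [428] (.q 362 (.a 1 [] (.d 361 360 360 361 365)
 (.a 0 [365] (.r 361 360 360 (.r 300 1292 268 (.r 301 3342 270 (.q 427 (.a 1 [] (.d 328 2343 295 2376 460)
 (.a 1 [460] (.q 331 (.a 1 [] (.d 395 1323 299 1355 459)
 (.a 1 [430] (.q 463 (.a 1 [] (.d 269 3310 238 3341 393)
 (.a 1 [238] (.d 393 3341 269 3372 424)
 (.a 1 [269] (.d 395 1323 299 1355 459)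
 .e))))
 (.a 1 [463] (.q 430 (.a 1 [] (.d 395 1323 299 1355 459)
 (.a 1 [395] (.d 269 3310 238 3341 393)
 .e)))
 (.a 1 [395] (.d 269 3310 238 3341 393)
 .e)))))
 (.a 1 [328] (.r 460 2409 493 (.q 299 (.a 1 [] (.d 298 297 297 298 302)
 (.a 1 [463] (.q 430 (.a 1 [] (.d 298 297 297 298 302)
 (.a 1 [302] (.r 331 1323 395 (.d 393 3341 269 3372 424))
 .e)))
 (.a 1 [430] (.q 463 (.a 1 [] (.d 298 297 297 298 302)
 (.a 1 [302] (.r 331 1323 395 (.d 393 3341 269 3372 424))
 .e)))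
 (.a 1 [302] (.r 331 1323 395 (.d 393 3341 269 3372 424))
 .e))))))
 (.a 1 [430] (.q 463 (.a 1 [] (.d 328 2343 295 2376 460)
 (.a 1 [460] (.q 331 (.a 1 [] (.d 395 1323 299 1355 459)
 (.a 1 [299] (.d 393 3341 269 3372 424)
 .e)))
 .e)))
 (.a 1 [463] (.q 430 (.a 1 [] (.d 328 2343 295 2376 460)
 (.a 1 [460] (.q 331 (.a 1 [] (.d 395 1323 299 1355 459)
 (.a 1 [299] (.d 393 3341 269 3372 424)
 .e)))
 .e)))
 .e)))))))))
 (.a 1 [361] (.r 300 1292 268 (.r 301 3342 270 (.q 299 (.a 1 [] (.d 298 297 297 298 302)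
 (.a 1 [430] (.q 463 (.a 1 [] (.d 298 297 297 298 302)
 (.a 1 [302] (.r 365 362 366 (.d 398 2314 266 2347 431))
 .e)))
 (.a 1 [463] (.q 430 (.a 1 [] (.d 298 297 297 298 302)
 (.a 1 [302] (.r 365 362 366 (.d 398 2314 266 2347 431))
 .e)))
 (.a 1 [302] (.r 365 362 366 (.d 398 2314 266 2347 431))
 .e)))))))
 (.a 1 [430] (.q 463 (.a 1 [] (.d 365 361 361 362 366)
 (.a 1 [365] (.r 361 360 360 (.q 460 (.a 1 [] (.d 427 2376 328 2409 493)
 (.a 1 [328] (.r 462 2411 495 (.d 461 459 459 460 464))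
 .e))))
 (.a 1 [361] (.r 462 2411 495 (.r 300 1292 268 (.r 366 362 365 (.r 301 3342 270 (.q 299 (.a 1 [] (.d 298 297 297 298 302)
 (.a 1 [297] (.d 302 298 298 299 303)
 (.a 0 [298,302] (.q 331 (.a 1 [] (.d 267 1259 235 1291 395)
 (.a 1 [235] (.d 395 1291 267 1323 427)
 (.a 1 [267] (.d 393 3341 269 3372 424)
 .e))))
 .e))))))))
 (.a 1 [366] (.d 361 360 360 361 365)
 .e)))))
 (.a 1 [463] (.q 430 (.a 1 [] (.d 365 361 361 362 366)
 (.a 1 [365] (.r 361 360 360 (.q 427 (.a 1 [] (.d 328 2343 295 2376 460)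
 (.a 1 [295] (.d 460 2376 328 2409 493)
 (.a 0 [328,460] (.q 331 (.a 1 [] (.d 395 1323 299 1355 459)
 (.a 1 [299] (.r 300 1292 268 (.d 393 3341 269 3372 424))
 .e)))
 .e)))))
 (.a 1 [361] (.r 366 362 365 (.r 462 2411 495 (.d 398 1358 334 1390 494)))
 (.a 1 [366] (.d 361 360 360 361 365)
 .e)))))
 (.a 1 [360] (.d 365 361 361 362 366)
 .e)))))))
 (.a 1 [430] (.q 463 (.a 1 [] (.d 300 1292 268 1324 428)
 (.a 1 [428] (.q 361 (.a 1 [] (.d 362 360 360 361 365)
 (.a 0 [360,362,365] (.q 460 (.a 1 [] (.d 427 2376 328 2409 493)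
 (.a 1 [328] (.r 462 2411 495 (.d 461 459 459 460 464))
 .e)))
 .e)))
 .e)))
 (.a 1 [463] (.q 430 (.a 1 [] (.d 300 1292 268 1324 428)
 (.a 1 [428] (.q 366 (.a 1 [] (.d 365 362 362 363 367)
 (.a 1 [362] (.r 462 2411 495 (.d 398 1358 334 1390 494))
 .e)))
 .e)))
 (.a 1 [300] (.r 428 1356 460 (.q 430 (.a 1 [] (.d 427 426 426 427 431)
 (.a 1 [426] (.d 431 427 427 428 432)
 (.a 0 [427,431] (.q 366 (.a 1 [] (.d 365 362 362 363 367)
 (.a 1 [362] (.r 462 2411 495 (.d 398 1358 334 1390 494))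
 .e)))
 .e)))))
 .e))))))
 (.a 0 [301] (.r 425 3404 456 (.q 428 (.a 1 [] (.d 364 1324 300 1356 460)
 (.a 1 [364] (.q 430 (.a 1 [] (.d 427 425 426 427 431)
 (.a 1 [427] (.r 462 2411 495 (.q 398 (.a 1 [] (.d 366 1358 334 1390 494)
 (.a 1 [334] (.d 494 1390 366 1422 526)
 (.a 1 [366] (.r 431 428 432 (.d 365 2347 299 2380 464))
 .e)))))
 (.a 1 [431] (.q 460 (.a 1 [] (.r 427 425 426 (.d 493 2409 361 2442 526))
 (.a 1 [526] (.r 427 425 426 (.d 361 2376 328 2409 493))
 (.a 0 [361,426,427,493] (.q 398 (.a 1 [] (.d 367 3408 336 3439 491)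
 (.a 1 [336] (.d 491 3439 367 3470 522)
 (.a 1 [367] (.r 462 2411 495 (.d 494 1390 366 1422 526))
 .e))))
 .e))))
 .e))))
 (.a 1 [460] (.r 364 1324 300 (.q 430 (.a 1 [] (.d 427 425 426 427 431)
 (.a 1 [426] (.d 431 427 427 428 432)
 (.a 0 [427,431] (.q 366 (.a 1 [] (.d 365 362 362 363 367)
 (.a 1 [362] (.r 462 2411 495 (.d 398 1358 334 1390 494))
 .e)))
 .e)))))
 (.a 0 [430] (.q 463 (.a 1 [] (.d 364 1324 300 1356 460)
 (.a 1 [364] (.r 427 425 426 (.r 462 2411 495 (.q 460 (.a 1 [] (.d 461 459 459 460 464)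
 (.a 1 [331] (.q 298 (.a 1 [] (.d 461 459 459 460 464)
 (.a 1 [461] (.d 361 2376 328 2409 493)
 .e)))
 (.a 1 [461] (.d 361 2376 328 2409 493)
 (.a 1 [298] (.q 331 (.a 1 [] (.d 361 2376 328 2409 493)
 (.a 1 [328] (.d 493 2409 361 2442 526)
 (.a 1 [361] (.d 395 1323 299 1355 459)
 .e))))
 .e)))))))
 (.a 1 [460] (.r 427 425 426 (.q 365 (.a 1 [] (.d 334 3375 303 3406 458)
 (.a 1 [303] (.d 458 3406 334 3437 489)
 (.a 1 [334] (.r 364 1324 300 (.d 366 362 362 363 367))
 .e)))))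
 (.a 1 [300] (.r 460 1356 364 (.r 427 425 426 (.d 493 2409 361 2442 526)))
 .e)))))
 (.a 1 [300] (.r 427 425 426 (.r 460 1356 364 (.d 493 2409 361 2442 526)))
 (.a 1 [463] (.q 430 (.a 1 [] (.d 427 425 426 427 431)
 (.a 1 [426] (.d 431 427 427 428 432)
 (.a 1 [427] (.d 364 1324 300 1356 460)
 .e))))
 .e))))))))
 (.a 1 [430] (.q 463 (.a 1 [] (.d 425 3373 301 3404 456)
 (.a 1 [425] (.q 364 (.a 1 [] (.d 300 1292 268 1324 428)
 (.a 1 [268] (.d 428 1324 300 1356 460)
 (.a 0 [300,428] (.q 361 (.a 1 [] (.d 362 360 360 361 365)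
 (.a 0 [360,362,365] (.q 460 (.a 1 [] (.d 427 2376 328 2409 493)
 (.a 1 [328] (.r 462 2411 495 (.d 461 459 459 460 464))
 .e)))
 .e)))
 .e))))
 (.a 1 [301] (.q 460 (.a 1 [] (.r 462 2411 495 (.d 461 459 459 460 464))
 (.a 1 [459] (.r 428 1356 364 (.r 462 2411 495 (.r 425 3404 456 (.r 427 425 426 (.d 493 2409 361 2442 526)))))
 (.a 1 [462] (.r 428 1356 364 (.r 425 3404 456 (.r 427 425 426 (.d 493 2409 361 2442 526))))
 .e))))
 (.a 1 [456] (.d 301 3342 270 3373 425)
 .e)))))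
 (.a 1 [463] (.q 430 (.a 1 [] (.d 301 3342 270 3373 425)
 (.a 1 [425] (.q 428 (.a 1 [] (.d 427 426 426 427 431)
 (.a 1 [426] (.d 364 1324 300 1356 460)
 .e)))
 .e)))
 (.a 1 [270] (.d 425 3373 301 3404 456)
 .e)))))))
 (.a 0 [462] (.r 330 2345 297 (.q 332 (.a 1 [] (.d 301 3342 270 3373 425)
 (.a 0 [425] (.q 430 (.a 1 [] (.q 428 (.a 1 [] (.d 427 426 426 427 431)
 (.a 1 [426] (.d 364 1324 300 1356 460)
 .e)))
 (.a 0 [329] (.q 428 (.a 1 [] (.d 427 426 426 427 431)
 (.a 1 [361] (.q 393 (.a 1 [] (.d 364 1324 300 1356 460)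
 (.a 1 [233] (.q 265 (.a 1 [] (.d 364 1324 300 1356 460)
 (.a 1 [300] (.d 431 427 427 428 432)
 .e)))
 (.a 1 [265] (.q 233 (.a 1 [] (.d 364 1324 300 1356 460)
 (.a 1 [300] (.d 427 426 426 427 431)
 .e)))
 (.a 1 [300] (.d 431 427 427 428 432)
 .e)))))
 (.a 1 [393] (.q 361 (.a 1 [] (.d 364 1324 300 1356 460)
 (.a 1 [300] (.d 427 426 426 427 431)
 .e)))
 (.a 1 [427] (.d 364 1324 300 1356 460)
 .e)))))
 (.a 1 [428] (.q 331 (.a 1 [] (.d 329 328 328 329 333)
 (.a 1 [328] (.d 333 329 329 330 334)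
 (.a 0 [329,333] (.q 393 (.a 1 [] (.r 395 392 392 (.d 427 1323 299 1355 459))
 (.a 1 [459] (.r 395 392 392 (.d 299 1291 267 1323 427))
 (.a 0 [299,392,395,427] (.q 362 (.a 1 [] (.d 298 1290 266 1322 426)
 (.a 1 [266] (.d 426 1322 298 1354 458)
 (.a 1 [298] (.d 300 3341 269 3372 424)
 (.a 1 [426] (.d 424 3372 300 3403 455)
 .e)))))
 .e))))
 .e))))
 (.a 1 [427] (.q 364 (.a 1 [] (.d 300 1292 268 1324 428)
 (.a 1 [268] (.d 428 1324 300 1356 460)
 (.a 0 [300,428] (.q 426 (.a 1 [] (.d 362 1322 298 1354 458)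
 (.a 1 [298] (.r 362 1354 458 (.d 365 361 361 362 366))
 (.a 1 [458] (.r 362 1322 298 (.d 365 361 361 362 366))
 (.a 0 [362] (.q 333 (.a 1 [] (.d 331 329 329 330 334)
 (.a 1 [329] (.d 395 3374 302 3405 457)
 .e)))
 .e)))))
 .e))))
 (.a 1 [364] (.q 427 (.a 1 [] (.d 428 426 426 427 431)
 (.a 1 [431] (.r 426 426 428 (.d 362 1322 298 1354 458))
 (.a 0 [426,428] (.q 331 (.a 1 [] (.d 329 328 328 329 333)
 (.a 1 [328] (.d 333 329 329 330 334)
 (.a 1 [329] (.d 395 1323 299 1355 459)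
 .e))))
 .e))))
 (.a 1 [426] (.q 428 (.a 1 [] (.d 431 427 427 428 432)
 (.a 1 [427] (.d 364 1324 300 1356 460)
 .e)))
 (.a 1 [361] (.q 329 (.a 1 [] (.d 331 328 328 329 333)
 (.a 0 [328,331,333] (.q 428 (.a 1 [] (.d 427 426 426 427 431)
 (.a 1 [426] (.d 364 1324 300 1356 460)
 .e)))
 .e)))
 (.a 1 [393] (.q 329 (.a 1 [] (.d 331 328 328 329 333)
 (.a 0 [328,331,333] (.q 428 (.a 1 [] (.d 427 426 426 427 431)
 (.a 1 [426] (.d 364 1324 300 1356 460)
 .e)))
 .e)))
 (.a 1 [423] (.q 428 (.a 1 [] (.d 427 426 426 427 431)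
 (.a 1 [426] (.d 364 1324 300 1356 460)
 (.a 1 [427] (.d 364 1324 300 1356 460)
 .e))))
 (.a 1 [424] (.q 428 (.a 1 [] (.d 427 426 426 427 431)
 (.a 1 [426] (.d 364 1324 300 1356 460)
 (.a 1 [427] (.d 364 1324 300 1356 460)
 .e))))
 .e)))))))))))
 (.a 1 [301] (.r 425 3404 456 (.q 428 (.a 1 [] (.d 364 1324 300 1356 460)
 (.a 1 [430] (.q 463 (.a 1 [] (.d 364 1324 300 1356 460)
 (.a 1 [364] (.r 426 425 427 (.d 362 1322 298 1354 458))
 .e)))
 (.a 1 [364] (.r 426 425 427 (.d 362 1322 298 1354 458))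
 (.a 1 [463] (.q 430 (.a 1 [] (.d 427 425 426 427 431)
 (.a 1 [426] (.d 431 427 427 428 432)
 (.a 1 [427] (.d 364 1324 300 1356 460)
 .e))))
 .e))))))
 (.a 1 [430] (.q 463 (.a 1 [] (.d 425 3373 301 3404 456)
 (.a 1 [425] (.q 364 (.a 1 [] (.d 300 1292 268 1324 428)
 (.a 1 [268] (.d 428 1324 300 1356 460)
 (.a 0 [300,428] (.q 362 (.a 1 [] (.d 361 360 360 361 365)
 (.a 1 [360] (.d 365 361 361 362 366)
 (.a 1 [361] (.d 298 1290 266 1322 426)
 .e))))
 .e))))
 (.a 1 [301] (.q 428 (.a 1 [] (.d 364 1324 300 1356 460)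
 (.a 1 [300] (.r 460 1356 364 (.r 425 3404 456 (.r 427 425 426 (.d 493 2409 361 2442 526))))
 (.a 1 [364] (.r 425 3404 456 (.r 426 425 427 (.d 362 1322 298 1354 458)))
 .e))))
 .e))))
 (.a 1 [463] (.q 430 (.a 1 [] (.d 301 3342 270 3373 425)
 (.a 1 [425] (.q 428 (.a 1 [] (.d 427 426 426 427 431)
 (.a 1 [426] (.d 364 1324 300 1356 460)
 .e)))
 .e)))
 (.a 1 [270] (.d 425 3373 301 3404 456)
 .e))))))))
 (.a 1 [430] (.q 463 (.a 1 [] (.d 462 2378 330 2411 495)
 (.a 1 [462] (.q 332 (.a 1 [] (.d 301 3342 270 3373 425)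
 (.a 1 [270] (.d 425 3373 301 3404 456)
 (.a 0 [301,425] (.q 364 (.a 1 [] (.d 300 1292 268 1324 428)
 (.a 1 [268] (.d 428 1324 300 1356 460)
 (.a 0 [300,428] (.q 362 (.a 1 [] (.d 361 360 360 361 365)
 (.a 1 [360] (.d 365 361 361 362 366)
 (.a 1 [361] (.r 330 2345 297 (.d 426 1322 298 1354 458))
 .e))))
 .e))))
 .e))))
 (.a 1 [330] (.q 332 (.a 1 [] (.d 301 3342 270 3373 425)
 (.a 1 [270] (.d 425 3373 301 3404 456)
 (.a 0 [301,425] (.q 460 (.a 1 [] (.r 462 2411 495 (.d 461 459 459 460 464))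
 (.a 0 [459,461,462,464,495] (.q 361 (.a 1 [] (.d 427 2376 328 2409 493)
 (.a 1 [328] (.r 364 1356 428 (.d 362 360 360 361 365))
 .e)))
 .e)))
 .e))))
 .e))))
 (.a 1 [463] (.q 430 (.a 1 [] (.d 462 2378 330 2411 495)
 (.a 1 [462] (.q 427 (.a 1 [] (.d 428 426 426 427 431)
 (.a 0 [426,428,431] (.q 459 (.a 1 [] (.d 395 1355 331 1387 491)
 (.a 0 [331,395,491] (.q 458 (.a 1 [] (.d 365 3406 334 3437 489)
 (.a 1 [334] (.d 489 3437 365 3468 520)
 (.a 0 [365,489] (.q 460 (.a 1 [] (.d 457 456 456 457 461)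
 (.a 1 [456] (.d 493 2409 361 2442 526)
 .e)))
 .e))))
 .e)))
 .e)))
 (.a 1 [330] (.q 427 (.a 1 [] (.d 428 426 426 427 431)
 (.a 0 [426,428,431] (.q 460 (.a 1 [] (.d 361 2376 328 2409 493)
 (.a 1 [328] (.d 493 2409 361 2442 526)
 (.a 0 [361,493] (.q 491 (.a 1 [] (.d 398 3439 367 3470 522)
 (.a 1 [367] (.d 522 3470 398 3501 553)
 (.a 1 [398] (.r 459 1387 395 (.r 462 2411 495 (.r 458 458 461 (.d 489 3437 365 3468 520))))
 .e))))
 .e))))
 .e)))
 (.a 1 [495] (.d 330 2345 297 2378 462)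
 .e)))))
 (.a 1 [297] (.d 462 2378 330 2411 495)
 .e))))))) (by decide +kernel)

theorem b5_1623 : S (PX [562] [400,496,529,628]) := S.of (.q 330 (.a 1 [] (.d 297 2312 264 2345 429)
 (.a 1 [264] (.d 429 2345 297 2378 462)
 (.a 0 [297,429] (.q 362 (.a 1 [] (.d 298 1290 266 1322 426)
 (.a 1 [266] (.d 426 1322 298 1354 458)
 (.a 0 [298,426] (.q 361 (.a 1 [] (.d 360 359 359 360 364)
 (.a 1 [359] (.d 364 360 360 361 365)
 (.a 0 [360,364] (.q 427 (.a 1 [] (.d 328 2343 295 2376 460)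
 (.a 1 [295] (.d 460 2376 328 2409 493)
 (.a 0 [328,460] (.q 395 (.a 1 [] (.d 393 392 392 393 397)
 (.a 1 [392] (.d 397 393 393 394 398)
 (.a 1 [393] (.d 331 1323 299 1355 459)
 .e))))
 .e))))
 .e))))
 .e))))
 .e)))) (by decide +kernel)

theorem b5_1624 : S (PX [562] [422,496,529,628]) := S.of (.q 330 (.a 1 [] (.d 297 2312 264 2345 429)
 (.a 1 [264] (.d 429 2345 297 2378 462)
 (.a 0 [297,429] (.q 362 (.a 1 [] (.d 298 1290 266 1322 426)
 (.a 1 [266] (.d 426 1322 298 1354 458)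
 (.a 0 [298,426] (.q 364 (.a 1 [] (.d 361 360 360 361 365)
 (.a 1 [360] (.d 365 361 361 362 366)
 (.a 0 [361,365] (.q 332 (.a 1 [] (.d 300 1292 268 1324 428)
 (.a 1 [268] (.d 428 1324 300 1356 460)
 (.a 1 [300] (.d 301 3342 270 3373 425)
 .e))))
 .e))))
 .e))))
 .e)))) (by decide +kernel)

theorem b5_1625 : S (PX [562] [425,496,529,628]) := S.of (.q 429 (.a 1 [] (.d 330 2345 297 2378 462)
 (.a 1 [297] (.d 462 2378 330 2411 495)
 (.a 0 [330,462] (.q 397 (.a 1 [] (.d 395 393 393 394 398)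
 (.a 0 [393,395,398] (.q 365 (.a 1 [] (.d 333 1325 301 1357 461)
 (.a 1 [301] (.d 461 1357 333 1389 493)
 (.a 0 [333] (.q 427 (.a 1 [] (.d 334 3375 303 3406 458)
 (.a 1 [303] (.d 458 3406 334 3437 489)
 (.a 1 [334] (.r 493 1389 461 (.d 460 2409 361 2442 526))
 .e))))
 (.a 0 [461] (.q 364 (.a 1 [] (.d 362 361 361 362 366)
 (.a 1 [361] (.d 366 362 362 363 367)
 (.a 1 [362] (.r 301 1325 333 (.r 332 3342 270 (.d 428 1324 300 1356 460)))
 .e))))
 .e)))))
 .e)))
 .e)))) (by decide +kernel)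

theorem b5_1626 : S (PX [562] [426,496,529,628]) := S.of (.q 332 (.a 1 [] (.d 301 3342 270 3373 425)
 (.a 1 [270] (.d 425 3373 301 3404 456)
 (.a 0 [301,425] (.q 429 (.a 1 [] (.d 330 2345 297 2378 462)
 (.a 1 [297] (.d 462 2378 330 2411 495)
 (.a 0 [330,462] (.q 397 (.a 1 [] (.d 395 393 393 394 398)
 (.a 0 [393,395,398] (.q 365 (.a 1 [] (.d 461 1357 333 1389 493)
 (.a 0 [333,461,493] (.q 364 (.a 1 [] (.d 362 361 361 362 366)
 (.a 1 [361] (.d 366 362 362 363 367)
 (.a 1 [362] (.d 300 1292 268 1324 428)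
 .e))))
 .e)))
 .e)))
 .e))))
 .e)))) (by decide +kernel)

theorem b5_1627 : S (PX [562] [427,496,529,628]) := S.of (.q 332 (.a 1 [] (.d 301 3342 270 3373 425)
 (.a 1 [270] (.d 425 3373 301 3404 456)
 (.a 0 [301,425] (.q 429 (.a 1 [] (.d 330 2345 297 2378 462)
 (.a 1 [297] (.d 462 2378 330 2411 495)
 (.a 0 [330,462] (.q 397 (.a 1 [] (.d 395 393 393 394 398)
 (.a 0 [393,395,398] (.q 365 (.a 1 [] (.d 461 1357 333 1389 493)
 (.a 0 [333,461,493] (.q 364 (.a 1 [] (.d 362 361 361 362 366)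
 (.a 1 [361] (.d 366 362 362 363 367)
 (.a 1 [362] (.d 300 1292 268 1324 428)
 .e))))
 .e)))
 .e)))
 .e))))
 .e)))) (by decide +kernel)

theorem b5_1628 : S (PX [562] [428,496,529,628]) := S.of (.q 429 (.a 1 [] (.d 330 2345 297 2378 462)
 (.a 1 [297] (.d 462 2378 330 2411 495)
 (.a 0 [330,462] (.q 397 (.a 1 [] (.d 395 393 393 394 398)
 (.a 0 [393,395,398] (.q 365 (.a 1 [] (.d 333 1325 301 1357 461)
 (.a 1 [301] (.d 461 1357 333 1389 493)
 (.a 1 [461] (.r 301 1325 333 (.d 332 3342 270 3373 425))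
 (.a 0 [333] (.q 427 (.a 1 [] (.d 334 3375 303 3406 458)
 (.a 1 [303] (.d 458 3406 334 3437 489)
 (.a 1 [334] (.r 493 1389 461 (.d 460 2409 361 2442 526))
 .e))))
 .e)))))
 .e)))
 .e)))) (by decide +kernel)

theorem b5_1629 : S (PX [562] [429,496,529,628]) := S.of (.q 332 (.a 1 [] (.d 301 3342 270 3373 425)
 (.a 0 [425] (.q 364 (.a 1 [] (.d 300 1292 268 1324 428)
 (.a 0 [428] (.q 365 (.a 1 [] (.d 362 361 361 362 366)
 (.a 0 [427] (.q 426 (.a 1 [] (.d 362 361 361 362 366)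
 (.a 1 [431] (.q 430 (.a 1 [] (.d 362 361 361 362 366)
 (.a 1 [362] (.q 395 (.a 1 [] (.d 393 392 392 393 397)
 (.a 1 [392] (.d 397 393 393 394 398)
 (.a 1 [393] (.d 333 3374 302 3405 457)
 .e))))
 (.a 1 [361] (.d 366 362 362 363 367)
 .e))))
 (.a 1 [430] (.q 431 (.a 1 [] (.d 362 361 361 362 366)
 (.a 1 [397] (.q 463 (.a 1 [] (.d 398 2347 299 2380 464)
 (.a 1 [299] (.d 362 361 361 362 366)
 .e)))
 (.a 1 [362] (.d 398 2347 299 2380 464)
 (.a 1 [463] (.q 397 (.a 1 [] (.d 398 2347 299 2380 464)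
 (.a 1 [299] (.d 398 394 395 2380 464)
 (.a 1 [398] (.d 362 361 361 362 366)
 .e))))
 .e)))))
 (.a 1 [362] (.q 431 (.a 1 [] (.d 398 2347 299 2380 464)
 (.a 1 [299] (.r 398 2380 464 (.r 395 394 397 (.d 457 3405 333 3436 488)))
 (.a 1 [464] (.r 398 2347 299 (.r 395 394 397 (.d 457 3405 333 3436 488)))
 (.a 0 [398] (.q 395 (.a 1 [] (.d 393 392 392 393 397)
 (.a 1 [392] (.d 457 3405 333 3436 488)
 .e)))
 .e)))))
 (.a 1 [366] (.r 362 361 361 (.d 458 1354 330 1386 490))
 .e))))))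
 (.a 1 [362] (.q 427 (.a 1 [] (.d 334 3375 303 3406 458)
 (.a 1 [303] (.d 458 3406 334 3437 489)
 (.a 0 [334,458] (.q 395 (.a 1 [] (.d 393 392 392 393 397)
 (.a 1 [392] (.d 397 393 393 394 398)
 (.a 1 [393] (.d 331 1323 299 1355 459)
 .e))))
 .e))))
 (.a 1 [361] (.d 366 362 362 363 367)
 .e)))))
 (.a 1 [300] (.q 361 (.a 1 [] (.d 362 360 360 361 365)
 (.a 1 [360] (.r 365 361 362 (.r 460 1356 428 (.d 427 2376 328 2409 493)))
 (.a 1 [362] (.r 460 1356 428 (.d 427 2376 328 2409 493))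
 .e))))
 .e))))
 (.a 1 [301] (.q 364 (.a 1 [] (.d 300 1292 268 1324 428)
 (.a 1 [268] (.d 428 1324 300 1356 460)
 (.a 0 [300,428] (.q 365 (.a 1 [] (.d 362 361 361 362 366)
 (.a 1 [361] (.d 366 362 362 363 367)
 (.a 0 [362,366] (.q 427 (.a 1 [] (.d 334 3375 303 3406 458)
 (.a 1 [303] (.d 458 3406 334 3437 489)
 (.a 0 [334,458] (.q 395 (.a 1 [] (.d 393 392 392 393 397)
 (.a 1 [392] (.d 397 393 393 394 398)
 (.a 1 [393] (.d 331 1323 299 1355 459)
 .e))))
 .e))))
 .e))))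
 .e))))
 (.a 1 [270] (.d 425 3373 301 3404 456)
 .e))))) (by decide +kernel)

theorem b5_1630 : S (PX [562] [430,496,529,628]) := S.of (.q 397 (.a 1 [] (.d 395 393 393 394 398)
 (.a 0 [393,395,398] (.q 332 (.a 1 [] (.d 301 3342 270 3373 425)
 (.a 1 [270] (.d 425 3373 301 3404 456)
 (.a 0 [301] (.q 364 (.a 1 [] (.d 300 1292 268 1324 428)
 (.a 1 [268] (.d 428 1324 300 1356 460)
 (.a 0 [300,428] (.q 362 (.a 1 [] (.d 361 360 360 361 365)
 (.a 1 [360] (.d 365 361 361 362 366)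
 (.a 0 [361,365] (.q 330 (.a 1 [] (.d 298 1290 266 1322 426)
 (.a 1 [266] (.d 426 1322 298 1354 458)
 (.a 1 [298] (.d 297 2312 264 2345 429)
 .e))))
 .e))))
 .e))))
 (.a 0 [425] (.q 364 (.a 1 [] (.d 300 1292 268 1324 428)
 (.a 1 [268] (.d 428 1324 300 1356 460)
 (.a 0 [300,428] (.q 429 (.a 1 [] (.d 330 2345 297 2378 462)
 (.a 1 [297] (.d 462 2378 330 2411 495)
 (.a 1 [330] (.r 301 3342 270 (.r 365 1325 333 (.d 362 361 361 362 366)))
 .e))))
 .e))))
 .e)))))
 .e))) (by decide +kernel)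

theorem b5_1631 : S (PX [562] [463,496,529,628]) := S.of (.q 397 (.a 1 [] (.d 395 393 393 394 398)
 (.a 0 [393,395,398] (.q 429 (.a 1 [] (.d 330 2345 297 2378 462)
 (.a 1 [297] (.d 462 2378 330 2411 495)
 (.a 0 [330,462] (.q 365 (.a 1 [] (.d 333 1325 301 1357 461)
 (.a 1 [301] (.d 461 1357 333 1389 493)
 (.a 1 [461] (.r 301 1325 333 (.d 332 3342 270 3373 425))
 (.a 0 [333] (.q 427 (.a 1 [] (.d 334 3375 303 3406 458)
 (.a 1 [303] (.d 458 3406 334 3437 489)
 (.a 1 [334] (.r 493 1389 461 (.d 460 2409 361 2442 526))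
 .e))))
 .e)))))
 .e))))
 .e))) (by decide +kernel)

theorem b5_1632 : S (PX [562] [487,496,529,628]) := S.of (.q 330 (.a 1 [] (.d 297 2312 264 2345 429)
 (.a 1 [264] (.d 429 2345 297 2378 462)
 (.a 0 [297,429] (.q 362 (.a 1 [] (.d 298 1290 266 1322 426)
 (.a 1 [266] (.d 426 1322 298 1354 458)
 (.a 0 [298,426] (.q 361 (.a 1 [] (.d 360 359 359 360 364)
 (.a 1 [359] (.d 364 360 360 361 365)
 (.a 0 [360,364] (.q 427 (.a 1 [] (.d 328 2343 295 2376 460)
 (.a 1 [295] (.d 460 2376 328 2409 493)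
 (.a 0 [328,460] (.q 395 (.a 1 [] (.d 393 392 392 393 397)
 (.a 1 [392] (.d 397 393 393 394 398)
 (.a 1 [393] (.d 331 1323 299 1355 459)
 .e))))
 .e))))
 .e))))
 .e))))
 .e)))) (by decide +kernel)

theorem b5_1633 : S (PX [562] [496,529,549,628]) := S.of (.q 330 (.a 1 [] (.d 297 2312 264 2345 429)
 (.a 1 [264] (.d 429 2345 297 2378 462)
 (.a 0 [297,429] (.q 362 (.a 1 [] (.d 298 1290 266 1322 426)
 (.a 1 [266] (.d 426 1322 298 1354 458)
 (.a 0 [298,426] (.q 361 (.a 1 [] (.d 360 359 359 360 364)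
 (.a 1 [359] (.d 364 360 360 361 365)
 (.a 0 [360,364] (.q 427 (.a 1 [] (.d 328 2343 295 2376 460)
 (.a 1 [295] (.d 460 2376 328 2409 493)
 (.a 0 [328,460] (.q 395 (.a 1 [] (.d 393 392 392 393 397)
 (.a 1 [392] (.d 397 393 393 394 398)
 (.a 1 [393] (.d 331 1323 299 1355 459)
 .e))))
 .e))))
 .e))))
 .e))))
 .e)))) (by decide +kernel)

theorem v5_1961 : VW (PX [562] [496,529,628]) := VW.of base nl_ok fl_ok .nil
  []
  (([236], (PX [562] [236,496,529,628])) :: ([266], (PX [562] [266,496,529,628])) :: ([268], (PX [562] [268,496,529,628])) :: ([297], (PX [562] [297,496,529,628])) :: ([298], (PX [562] [298,496,529,628])) :: ([299], (PX [562] [299,496,529,628])) :: ([300], (PX [562] [300,496,529,628])) :: ([301], (PX [562] [301,496,529,628])) :: ([302], (PX [562] [302,496,529,628])) :: ([304], (PX [562] [304,496,529,628])) :: ([330], (PX [562] [330,496,529,628])) :: ([332], (PX [562] [332,496,529,628])) :: ([357], (PX [562] [357,496,529,628]))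 :: ([362], (PX [562] [362,496,529,628])) :: ([397], (PX [562] [397,496,529,628])) :: ([400], (PX [562] [400,496,529,628])) :: ([422], (PX [562] [422,496,529,628])) :: ([425], (PX [562] [425,496,529,628])) :: ([426], (PX [562] [426,496,529,628])) :: ([427], (PX [562] [427,496,529,628])) :: ([428], (PX [562] [428,496,529,628])) :: ([429], (PX [562] [429,496,529,628])) :: ([430], (PX [562] [430,496,529,628])) :: ([463], (PX [562] [463,496,529,628])) :: ([487], (PX [562] [487,496,529,628])) :: ([549], (PX [562] [496,529,549,628])) :: [])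
  (by decide +kernel) ⟨b5_1594, b5_1595, b5_1596, b5_1597, b5_1598, b5_1599, b5_1600, b5_1601, b5_1602, b5_1603, b5_1604, b5_1605, b5_1606, b5_1607, b5_1622, b5_1623, b5_1624, b5_1625, b5_1626, b5_1627, b5_1628, b5_1629, b5_1630, b5_1631, b5_1632, b5_1633, trivial⟩

theorem v5_1970 : VW (PX [529] [496,562,628]) := VW.of base nl_ok fl_ok .nil
  [(595, (.cons 661 694 .nil (.cons 694 661 .nil .nil))), (661, (.cons 595 694 .nil (.cons 694 595 (.cons 727 760 .nil (.cons 760 727 .nil .nil)) .nil))), (694, (.cons 595 661 .nil (.cons 661 595 (.cons 727 760 .nil (.cons 760 727 .nil .nil)) .nil)))]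
  []
  (by decide +kernel) trivial

theorem w5_1976_529 : S (PX [] [496,529,628]) := VW.play 562 (PX [562] [496,529,628]) (by decide +kernel) v5_1961

theorem w5_1976_562 : S (PX [] [496,562,628]) := VW.play 529 (PX [529] [496,562,628]) (by decide +kernel) v5_1970

theorem v5_1976 : VW (PX [] [496,628]) := VW.of base nl_ok fl_ok .nil
  [(595, (.cons 529 562 .nil (.cons 562 529 (.cons 661 694 .nil (.cons 694 661 .nil .nil)) .nil)))]
  [([529], (PX [] [496,529,628])), ([562], (PX [] [496,562,628]))]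
  (by decide +kernel) ⟨w5_1976_529, w5_1976_562, trivial⟩

theorem v5_1048 : VW (PX [] [500,628]) := VW.of base nl_ok fl_ok .nil
  [(532, (.cons 564 596 (.cons 436 468 .nil (.cons 468 436 .nil .nil)) (.cons 596 564 .nil .nil))), (564, (.cons 532 596 (.cons 436 468 .nil (.cons 468 436 .nil .nil)) (.cons 596 532 (.cons 660 692 .nil (.cons 692 660 .nil .nil)) .nil))), (596, (.cons 532 564 .nil (.cons 564 532 (.cons 660 692 .nil (.cons 692 660 .nil .nil)) .nil)))]
  []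
  (by decide +kernel) trivial

theorem v5_1977 : VW (PX [] [504,628]) := VW.of base nl_ok fl_ok .nil
  [(535, (.cons 566 597 (.cons 442 473 .nil (.cons 473 442 .nil .nil)) (.cons 597 566 .nil .nil))), (566, (.cons 535 597 (.cons 442 473 .nil (.cons 473 442 .nil .nil)) (.cons 597 535 (.cons 659 690 .nil (.cons 690 659 .nil .nil)) .nil))), (597, (.cons 535 566 .nil (.cons 566 535 (.cons 659 690 .nil (.cons 690 659 .nil .nil)) .nil)))]
  []
  (by decide +kernel) trivial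

theorem v5_1978 : VW (PX [496,661] [529,562,595,628]) := VW.of base nl_ok fl_ok .nil
  []
  []
  (by decide +kernel) trivial

theorem v5_1979 : VW (PX [496,595] [529,562,628,661]) := VW.of base nl_ok fl_ok .nil
  [(694, (.cons 727 760 .nil (.cons 760 727 .nil .nil))), (727, (.cons 694 760 .nil (.cons 760 694 .nil .nil))), (760, (.cons 694 727 .nil (.cons 727 694 .nil .nil)))]
  []
  (by decide +kernel) trivial

theorem w5_1980_595 : S (PX [496] [529,562,595,628]) := VW.play 661 (PX [496,661] [529,562,595,628]) (by decide +kernel) v5_1978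

theorem w5_1980_661 : S (PX [496] [529,562,628,661]) := VW.play 595 (PX [496,595] [529,562,628,661]) (by decide +kernel) v5_1979

theorem v5_1980 : VW (PX [496] [529,562,628]) := VW.of base nl_ok fl_ok (.cons 595 661 .nil (.cons 661 595 .nil .nil))
  [(694, (.cons 595 661 .nil (.cons 661 595 (.cons 727 760 .nil (.cons 760 727 .nil .nil)) .nil))), (727, (.cons 595 661 .nil (.cons 661 595 (.cons 694 760 .nil (.cons 760 694 .nil .nil)) .nil))), (760, (.cons 595 661 .nil (.cons 661 595 (.cons 694 727 .nil (.cons 727 694 .nil .nil)) .nil)))]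
  [([595], (PX [496] [529,562,595,628])), ([661], (PX [496] [529,562,628,661]))]
  (by decide +kernel) ⟨w5_1980_595, w5_1980_661, trivial⟩

theorem v5_1998 : VW (PX [562] [529,595,628]) := VW.of base nl_ok fl_ok .nil
  [(661, (.cons 694 727 .nil (.cons 727 694 .nil .nil))), (694, (.cons 661 727 .nil (.cons 727 661 .nil .nil))), (727, (.cons 661 694 .nil (.cons 694 661 .nil .nil)))]
  []
  (by decide +kernel) trivial

theorem w5_1999_496 : S (PX [] [496,529,628]) := VW.play 562 (PX [562] [496,529,628]) (by decide +kernel) v5_1961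

theorem w5_1999_562 : S (PX [] [529,562,628]) := VW.play 496 (PX [496] [529,562,628]) (by decide +kernel) v5_1980

theorem w5_1999_595 : S (PX [] [529,595,628]) := VW.play 562 (PX [562] [529,595,628]) (by decide +kernel) v5_1998

theorem v5_1999 : VW (PX [] [529,628]) := VW.of base nl_ok fl_ok .nil
  [(661, (.cons 562 595 .nil (.cons 595 562 (.cons 694 727 .nil (.cons 727 694 .nil .nil)) .nil)))]
  [([496], (PX [] [496,529,628])), ([562], (PX [] [529,562,628])), ([595], (PX [] [529,595,628]))]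
  (by decide +kernel) ⟨w5_1999_496, w5_1999_562, w5_1999_595, trivial⟩

theorem v5_1294 : VW (PX [596] [532,564,628]) := VW.of base nl_ok fl_ok .nil
  [(436, (.cons 468 500 .nil (.cons 500 468 .nil .nil))), (468, (.cons 436 500 .nil (.cons 500 436 .nil .nil))), (500, (.cons 436 468 .nil (.cons 468 436 .nil .nil)))]
  []
  (by decide +kernel) trivial

theorem v5_1348 : VW (PX [564] [532,596,628]) := VW.of base nl_ok fl_ok .nil
  [(660, (.cons 692 724 .nil (.cons 724 692 .nil .nil))), (692, (.cons 660 724 .nil (.cons 724 660 .nil .nil))), (724, (.cons 660 692 .nil (.cons 692 660 .nil .nil)))]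
  []
  (by decide +kernel) trivial

theorem w5_1355_564 : S (PX [] [532,564,628]) := VW.play 596 (PX [596] [532,564,628]) (by decide +kernel) v5_1294

theorem w5_1355_596 : S (PX [] [532,596,628]) := VW.play 564 (PX [564] [532,596,628]) (by decide +kernel) v5_1348

theorem v5_1355 : VW (PX [] [532,628]) := VW.of base nl_ok fl_ok .nil
  [(500, (.cons 564 596 (.cons 436 468 .nil (.cons 468 436 .nil .nil)) (.cons 596 564 .nil .nil))), (660, (.cons 564 596 .nil (.cons 596 564 (.cons 692 724 .nil (.cons 724 692 .nil .nil)) .nil)))]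
  [([564], (PX [] [532,564,628])), ([596], (PX [] [532,596,628]))]
  (by decide +kernel) ⟨w5_1355_564, w5_1355_596, trivial⟩

theorem v5_2003 : VW (PX [597] [535,566,628]) := VW.of base nl_ok fl_ok .nil
  [(442, (.cons 473 504 .nil (.cons 504 473 .nil .nil))), (473, (.cons 442 504 .nil (.cons 504 442 .nil .nil))), (504, (.cons 442 473 .nil (.cons 473 442 .nil .nil)))]
  []
  (by decide +kernel) trivial

theorem v5_2018 : VW (PX [566] [535,597,628]) := VW.of base nl_ok fl_ok .nil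
  [(659, (.cons 690 721 .nil (.cons 721 690 .nil .nil))), (690, (.cons 659 721 .nil (.cons 721 659 .nil .nil))), (721, (.cons 659 690 .nil (.cons 690 659 .nil .nil)))]
  []
  (by decide +kernel) trivial

theorem w5_2021_566 : S (PX [] [535,566,628]) := VW.play 597 (PX [597] [535,566,628]) (by decide +kernel) v5_2003

theorem w5_2021_597 : S (PX [] [535,597,628]) := VW.play 566 (PX [566] [535,597,628]) (by decide +kernel) v5_2018

theorem v5_2021 : VW (PX [] [535,628]) := VW.of base nl_ok fl_ok .nil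
  [(504, (.cons 566 597 (.cons 442 473 .nil (.cons 473 442 .nil .nil)) (.cons 597 566 .nil .nil))), (659, (.cons 566 597 .nil (.cons 597 566 (.cons 690 721 .nil (.cons 721 690 .nil .nil)) .nil)))]
  [([566], (PX [] [535,566,628])), ([597], (PX [] [535,597,628]))]
  (by decide +kernel) ⟨w5_2021_566, w5_2021_597, trivial⟩

theorem v5_2022 : VW (PX [529,694] [562,595,628,661]) := VW.of base nl_ok fl_ok .nil
  []
  []
  (by decide +kernel) trivial

theorem v5_2023 : VW (PX [529,661] [562,595,628,694]) := VW.of base nl_ok fl_ok .nil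
  []
  []
  (by decide +kernel) trivial

theorem w5_2024_661 : S (PX [529] [562,595,628,661]) := VW.play 694 (PX [529,694] [562,595,628,661]) (by decide +kernel) v5_2022

theorem w5_2024_694 : S (PX [529] [562,595,628,694]) := VW.play 661 (PX [529,661] [562,595,628,694]) (by decide +kernel) v5_2023

theorem v5_2024 : VW (PX [529] [562,595,628]) := VW.of base nl_ok fl_ok (.cons 661 694 .nil (.cons 694 661 .nil .nil))
  [(727, (.cons 661 694 .nil (.cons 694 661 .nil .nil))), (760, (.cons 661 694 .nil (.cons 694 661 .nil .nil))), (793, (.cons 661 694 .nil (.cons 694 661 .nil .nil)))]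
  [([661], (PX [529] [562,595,628,661])), ([694], (PX [529] [562,595,628,694]))]
  (by decide +kernel) ⟨w5_2024_661, w5_2024_694, trivial⟩

theorem v5_2039 : VW (PX [595] [562,628,661]) := VW.of base nl_ok fl_ok .nil
  [(694, (.cons 727 760 .nil (.cons 760 727 .nil .nil))), (727, (.cons 694 760 .nil (.cons 760 694 .nil .nil))), (760, (.cons 694 727 .nil (.cons 727 694 .nil .nil)))]
  []
  (by decide +kernel) trivial

theorem w5_2040_496 : S (PX [] [496,562,628]) := VW.play 529 (PX [529] [496,562,628]) (by decide +kernel) v5_1970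

theorem w5_2040_529 : S (PX [] [529,562,628]) := VW.play 496 (PX [496] [529,562,628]) (by decide +kernel) v5_1980

theorem w5_2040_595 : S (PX [] [562,595,628]) := VW.play 529 (PX [529] [562,595,628]) (by decide +kernel) v5_2024

theorem w5_2040_661 : S (PX [] [562,628,661]) := VW.play 595 (PX [595] [562,628,661]) (by decide +kernel) v5_2039

theorem v5_2040 : VW (PX [] [562,628]) := VW.of base nl_ok fl_ok .nil
  [(694, (.cons 595 661 (.cons 496 529 .nil (.cons 529 496 .nil .nil)) (.cons 661 595 (.cons 727 760 .nil (.cons 760 727 .nil .nil)) .nil)))]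
  [([496], (PX [] [496,562,628])), ([529], (PX [] [529,562,628])), ([595], (PX [] [562,595,628])), ([661], (PX [] [562,628,661]))]
  (by decide +kernel) ⟨w5_2040_496, w5_2040_529, w5_2040_595, w5_2040_661, trivial⟩

theorem v5_1581 : VW (PX [532,692] [564,596,628,660]) := VW.of base nl_ok fl_ok .nil
  []
  []
  (by decide +kernel) trivial

theorem v5_1582 : VW (PX [532,660] [564,596,628,692]) := VW.of base nl_ok fl_ok .nil
  []
  []
  (by decide +kernel) trivial

theorem w5_1583_660 : S (PX [532] [564,596,628,660]) := VW.play 692 (PX [532,692] [564,596,628,660]) (by decide +kernel) v5_1581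

theorem w5_1583_692 : S (PX [532] [564,596,628,692]) := VW.play 660 (PX [532,660] [564,596,628,692]) (by decide +kernel) v5_1582

theorem v5_1583 : VW (PX [532] [564,596,628]) := VW.of base nl_ok fl_ok (.cons 660 692 .nil (.cons 692 660 .nil .nil))
  [(724, (.cons 660 692 .nil (.cons 692 660 .nil .nil))), (756, (.cons 660 692 .nil (.cons 692 660 .nil .nil))), (788, (.cons 660 692 .nil (.cons 692 660 .nil .nil)))]
  [([660], (PX [532] [564,596,628,660])), ([692], (PX [532] [564,596,628,692]))]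
  (by decide +kernel) ⟨w5_1583_660, w5_1583_692, trivial⟩

theorem v5_1642 : VW (PX [596] [564,628,660]) := VW.of base nl_ok fl_ok .nil
  [(692, (.cons 724 756 .nil (.cons 756 724 .nil .nil))), (724, (.cons 692 756 .nil (.cons 756 692 .nil .nil))), (756, (.cons 692 724 .nil (.cons 724 692 .nil .nil)))]
  []
  (by decide +kernel) trivial

theorem w5_1645_532 : S (PX [] [532,564,628]) := VW.play 596 (PX [596] [532,564,628]) (by decide +kernel) v5_1294

theorem w5_1645_596 : S (PX [] [564,596,628]) := VW.play 532 (PX [532] [564,596,628]) (by decide +kernel) v5_1583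

theorem w5_1645_660 : S (PX [] [564,628,660]) := VW.play 596 (PX [596] [564,628,660]) (by decide +kernel) v5_1642

theorem v5_1645 : VW (PX [] [564,628]) := VW.of base nl_ok fl_ok .nil
  [(500, (.cons 532 596 (.cons 436 468 .nil (.cons 468 436 .nil .nil)) (.cons 596 532 (.cons 660 692 .nil (.cons 692 660 .nil .nil)) .nil))), (692, (.cons 596 660 (.cons 500 532 .nil (.cons 532 500 .nil .nil)) (.cons 660 596 (.cons 724 756 .nil (.cons 756 724 .nil .nil)) .nil)))]
  [([532], (PX [] [532,564,628])), ([596], (PX [] [564,596,628])), ([660], (PX [] [564,628,660]))]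
  (by decide +kernel) ⟨w5_1645_532, w5_1645_596, w5_1645_660, trivial⟩

theorem v5_2041 : VW (PX [535,690] [566,597,628,659]) := VW.of base nl_ok fl_ok .nil
  []
  []
  (by decide +kernel) trivial

theorem v5_2042 : VW (PX [535,659] [566,597,628,690]) := VW.of base nl_ok fl_ok .nil
  []
  []
  (by decide +kernel) trivial

theorem w5_2043_659 : S (PX [535] [566,597,628,659]) := VW.play 690 (PX [535,690] [566,597,628,659]) (by decide +kernel) v5_2041

theorem w5_2043_690 : S (PX [535] [566,597,628,690]) := VW.play 659 (PX [535,659] [566,597,628,690]) (by decide +kernel) v5_2042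

theorem v5_2043 : VW (PX [535] [566,597,628]) := VW.of base nl_ok fl_ok (.cons 659 690 .nil (.cons 690 659 .nil .nil))
  [(721, (.cons 659 690 .nil (.cons 690 659 .nil .nil))), (752, (.cons 659 690 .nil (.cons 690 659 .nil .nil))), (783, (.cons 659 690 .nil (.cons 690 659 .nil .nil)))]
  [([659], (PX [535] [566,597,628,659])), ([690], (PX [535] [566,597,628,690]))]
  (by decide +kernel) ⟨w5_2043_659, w5_2043_690, trivial⟩

theorem v5_2060 : VW (PX [597] [566,628,659]) := VW.of base nl_ok fl_ok .nil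
  [(690, (.cons 721 752 .nil (.cons 752 721 .nil .nil))), (721, (.cons 690 752 .nil (.cons 752 690 .nil .nil))), (752, (.cons 690 721 .nil (.cons 721 690 .nil .nil)))]
  []
  (by decide +kernel) trivial

theorem w5_2063_535 : S (PX [] [535,566,628]) := VW.play 597 (PX [597] [535,566,628]) (by decide +kernel) v5_2003

theorem w5_2063_597 : S (PX [] [566,597,628]) := VW.play 535 (PX [535] [566,597,628]) (by decide +kernel) v5_2043

theorem w5_2063_659 : S (PX [] [566,628,659]) := VW.play 597 (PX [597] [566,628,659]) (by decide +kernel) v5_2060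

theorem v5_2063 : VW (PX [] [566,628]) := VW.of base nl_ok fl_ok .nil
  [(504, (.cons 535 597 (.cons 442 473 .nil (.cons 473 442 .nil .nil)) (.cons 597 535 (.cons 659 690 .nil (.cons 690 659 .nil .nil)) .nil))), (690, (.cons 597 659 (.cons 504 535 .nil (.cons 535 504 .nil .nil)) (.cons 659 597 (.cons 721 752 .nil (.cons 752 721 .nil .nil)) .nil)))]
  [([535], (PX [] [535,566,628])), ([597], (PX [] [566,597,628])), ([659], (PX [] [566,628,659]))]
  (by decide +kernel) ⟨w5_2063_535, w5_2063_597, w5_2063_659, trivial⟩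

theorem v5_2064 : VW (PX [562,727] [595,628,661,694]) := VW.of base nl_ok fl_ok .nil
  []
  []
  (by decide +kernel) trivial

theorem v5_2065 : VW (PX [562,694] [595,628,661,727]) := VW.of base nl_ok fl_ok .nil
  []
  []
  (by decide +kernel) trivial

theorem w5_2066_694 : S (PX [562] [595,628,661,694]) := VW.play 727 (PX [562,727] [595,628,661,694]) (by decide +kernel) v5_2064

theorem w5_2066_727 : S (PX [562] [595,628,661,727]) := VW.play 694 (PX [562,694] [595,628,661,727]) (by decide +kernel) v5_2065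

theorem v5_2066 : VW (PX [562] [595,628,661]) := VW.of base nl_ok fl_ok (.cons 694 727 .nil (.cons 727 694 .nil .nil))
  [(760, (.cons 694 727 .nil (.cons 727 694 .nil .nil))), (793, (.cons 694 727 .nil (.cons 727 694 .nil .nil))), (826, (.cons 694 727 .nil (.cons 727 694 .nil .nil)))]
  [([694], (PX [562] [595,628,661,694])), ([727], (PX [562] [595,628,661,727]))]
  (by decide +kernel) ⟨w5_2066_694, w5_2066_727, trivial⟩

theorem v5_2069 : VW (PX [661] [595,628,694]) := VW.of base nl_ok fl_ok .nil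
  [(496, (.cons 529 562 .nil (.cons 562 529 .nil .nil))), (529, (.cons 496 562 .nil (.cons 562 496 .nil .nil))), (562, (.cons 496 529 .nil (.cons 529 496 .nil .nil)))]
  []
  (by decide +kernel) trivial

theorem w5_2070_529 : S (PX [] [529,595,628]) := VW.play 562 (PX [562] [529,595,628]) (by decide +kernel) v5_1998

theorem w5_2070_562 : S (PX [] [562,595,628]) := VW.play 529 (PX [529] [562,595,628]) (by decide +kernel) v5_2024

theorem w5_2070_661 : S (PX [] [595,628,661]) := VW.play 562 (PX [562] [595,628,661]) (by decide +kernel) v5_2066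

theorem w5_2070_694 : S (PX [] [595,628,694]) := VW.play 661 (PX [661] [595,628,694]) (by decide +kernel) v5_2069

theorem v5_2070 : VW (PX [] [595,628]) := VW.of base nl_ok fl_ok .nil
  [(496, (.cons 529 562 .nil (.cons 562 529 (.cons 661 694 .nil (.cons 694 661 .nil .nil)) .nil))), (727, (.cons 661 694 (.cons 529 562 .nil (.cons 562 529 .nil .nil)) (.cons 694 661 .nil .nil)))]
  [([529], (PX [] [529,595,628])), ([562], (PX [] [562,595,628])), ([661], (PX [] [595,628,661])), ([694], (PX [] [595,628,694]))]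
  (by decide +kernel) ⟨w5_2070_529, w5_2070_562, w5_2070_661, w5_2070_694, trivial⟩

theorem v5_1886 : VW (PX [564,724] [596,628,660,692]) := VW.of base nl_ok fl_ok .nil
  []
  []
  (by decide +kernel) trivial

theorem v5_1887 : VW (PX [564,692] [596,628,660,724]) := VW.of base nl_ok fl_ok .nil
  []
  []
  (by decide +kernel) trivial

theorem w5_1888_692 : S (PX [564] [596,628,660,692]) := VW.play 724 (PX [564,724] [596,628,660,692]) (by decide +kernel) v5_1886

theorem w5_1888_724 : S (PX [564] [596,628,660,724]) := VW.play 692 (PX [564,692] [596,628,660,724]) (by decide +kernel) v5_1887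

theorem v5_1888 : VW (PX [564] [596,628,660]) := VW.of base nl_ok fl_ok (.cons 692 724 .nil (.cons 724 692 .nil .nil))
  [(756, (.cons 692 724 .nil (.cons 724 692 .nil .nil))), (788, (.cons 692 724 .nil (.cons 724 692 .nil .nil))), (820, (.cons 692 724 .nil (.cons 724 692 .nil .nil)))]
  [([692], (PX [564] [596,628,660,692])), ([724], (PX [564] [596,628,660,724]))]
  (by decide +kernel) ⟨w5_1888_692, w5_1888_724, trivial⟩

theorem v5_1893 : VW (PX [660] [596,628,692]) := VW.of base nl_ok fl_ok .nil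
  [(500, (.cons 532 564 .nil (.cons 564 532 .nil .nil))), (532, (.cons 500 564 .nil (.cons 564 500 .nil .nil))), (564, (.cons 500 532 .nil (.cons 532 500 .nil .nil)))]
  []
  (by decide +kernel) trivial

theorem w5_1905_532 : S (PX [] [532,596,628]) := VW.play 564 (PX [564] [532,596,628]) (by decide +kernel) v5_1348

theorem w5_1905_564 : S (PX [] [564,596,628]) := VW.play 532 (PX [532] [564,596,628]) (by decide +kernel) v5_1583

theorem w5_1905_660 : S (PX [] [596,628,660]) := VW.play 564 (PX [564] [596,628,660]) (by decide +kernel) v5_1888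

theorem w5_1905_692 : S (PX [] [596,628,692]) := VW.play 660 (PX [660] [596,628,692]) (by decide +kernel) v5_1893

theorem v5_1905 : VW (PX [] [596,628]) := VW.of base nl_ok fl_ok .nil
  [(500, (.cons 532 564 .nil (.cons 564 532 (.cons 660 692 .nil (.cons 692 660 .nil .nil)) .nil))), (724, (.cons 660 692 (.cons 532 564 .nil (.cons 564 532 .nil .nil)) (.cons 692 660 .nil .nil)))]
  [([532], (PX [] [532,596,628])), ([564], (PX [] [564,596,628])), ([660], (PX [] [596,628,660])), ([692], (PX [] [596,628,692]))]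
  (by decide +kernel) ⟨w5_1905_532, w5_1905_564, w5_1905_660, w5_1905_692, trivial⟩

theorem v5_2071 : VW (PX [566,721] [597,628,659,690]) := VW.of base nl_ok fl_ok .nil
  []
  []
  (by decide +kernel) trivial

theorem v5_2072 : VW (PX [566,690] [597,628,659,721]) := VW.of base nl_ok fl_ok .nil
  []
  []
  (by decide +kernel) trivial

theorem w5_2073_690 : S (PX [566] [597,628,659,690]) := VW.play 721 (PX [566,721] [597,628,659,690]) (by decide +kernel) v5_2071

theorem w5_2073_721 : S (PX [566] [597,628,659,721]) := VW.play 690 (PX [566,690] [597,628,659,721]) (by decide +kernel) v5_2072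

theorem v5_2073 : VW (PX [566] [597,628,659]) := VW.of base nl_ok fl_ok (.cons 690 721 .nil (.cons 721 690 .nil .nil))
  [(752, (.cons 690 721 .nil (.cons 721 690 .nil .nil))), (783, (.cons 690 721 .nil (.cons 721 690 .nil .nil))), (814, (.cons 690 721 .nil (.cons 721 690 .nil .nil)))]
  [([690], (PX [566] [597,628,659,690])), ([721], (PX [566] [597,628,659,721]))]
  (by decide +kernel) ⟨w5_2073_690, w5_2073_721, trivial⟩

theorem v5_2078 : VW (PX [659] [597,628,690]) := VW.of base nl_ok fl_ok .nil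
  [(504, (.cons 535 566 .nil (.cons 566 535 .nil .nil))), (535, (.cons 504 566 .nil (.cons 566 504 .nil .nil))), (566, (.cons 504 535 .nil (.cons 535 504 .nil .nil)))]
  []
  (by decide +kernel) trivial

theorem w5_2090_535 : S (PX [] [535,597,628]) := VW.play 566 (PX [566] [535,597,628]) (by decide +kernel) v5_2018

theorem w5_2090_566 : S (PX [] [566,597,628]) := VW.play 535 (PX [535] [566,597,628]) (by decide +kernel) v5_2043

theorem w5_2090_659 : S (PX [] [597,628,659]) := VW.play 566 (PX [566] [597,628,659]) (by decide +kernel) v5_2073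

theorem w5_2090_690 : S (PX [] [597,628,690]) := VW.play 659 (PX [659] [597,628,690]) (by decide +kernel) v5_2078

theorem v5_2090 : VW (PX [] [597,628]) := VW.of base nl_ok fl_ok .nil
  [(504, (.cons 535 566 .nil (.cons 566 535 (.cons 659 690 .nil (.cons 690 659 .nil .nil)) .nil))), (721, (.cons 659 690 (.cons 535 566 .nil (.cons 566 535 .nil .nil)) (.cons 690 659 .nil .nil)))]
  [([535], (PX [] [535,597,628])), ([566], (PX [] [566,597,628])), ([659], (PX [] [597,628,659])), ([690], (PX [] [597,628,690]))]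
  (by decide +kernel) ⟨w5_2090_535, w5_2090_566, w5_2090_659, w5_2090_690, trivial⟩

theorem v5_2091 : VW (PX [] [624,628]) := VW.of base nl_ok fl_ok .nil
  [(625, (.cons 626 627 (.cons 622 623 .nil (.cons 623 622 .nil .nil)) (.cons 627 626 .nil .nil))), (626, (.cons 625 627 (.cons 622 623 .nil (.cons 623 622 .nil .nil)) (.cons 627 625 (.cons 629 630 .nil (.cons 630 629 .nil .nil)) .nil))), (627, (.cons 625 626 .nil (.cons 626 625 (.cons 629 630 .nil (.cons 630 629 .nil .nil)) .nil)))]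
  []
  (by decide +kernel) trivial

theorem v5_2095 : VW (PX [627] [625,626,628]) := VW.of base nl_ok fl_ok .nil
  [(622, (.cons 623 624 .nil (.cons 624 623 .nil .nil))), (623, (.cons 622 624 .nil (.cons 624 622 .nil .nil))), (624, (.cons 622 623 .nil (.cons 623 622 .nil .nil)))]
  []
  (by decide +kernel) trivial

theorem v5_2124 : VW (PX [626] [625,627,628]) := VW.of base nl_ok fl_ok .nil
  [(629, (.cons 630 631 .nil (.cons 631 630 .nil .nil))), (630, (.cons 629 631 .nil (.cons 631 629 .nil .nil))), (631, (.cons 629 630 .nil (.cons 630 629 .nil .nil)))]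
  []
  (by decide +kernel) trivial

theorem w5_2127_626 : S (PX [] [625,626,628]) := VW.play 627 (PX [627] [625,626,628]) (by decide +kernel) v5_2095

theorem w5_2127_627 : S (PX [] [625,627,628]) := VW.play 626 (PX [626] [625,627,628]) (by decide +kernel) v5_2124

theorem v5_2127 : VW (PX [] [625,628]) := VW.of base nl_ok fl_ok .nil
  [(624, (.cons 626 627 (.cons 622 623 .nil (.cons 623 622 .nil .nil)) (.cons 627 626 .nil .nil))), (629, (.cons 626 627 .nil (.cons 627 626 (.cons 630 631 .nil (.cons 631 630 .nil .nil)) .nil)))]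
  [([626], (PX [] [625,626,628])), ([627], (PX [] [625,627,628]))]
  (by decide +kernel) ⟨w5_2127_626, w5_2127_627, trivial⟩

theorem v5_2128 : VW (PX [625,630] [626,627,628,629]) := VW.of base nl_ok fl_ok .nil
  []
  []
  (by decide +kernel) trivial

theorem v5_2129 : VW (PX [625,629] [626,627,628,630]) := VW.of base nl_ok fl_ok .nil
  []
  []
  (by decide +kernel) trivial

theorem w5_2130_629 : S (PX [625] [626,627,628,629]) := VW.play 630 (PX [625,630] [626,627,628,629]) (by decide +kernel) v5_2128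

theorem w5_2130_630 : S (PX [625] [626,627,628,630]) := VW.play 629 (PX [625,629] [626,627,628,630]) (by decide +kernel) v5_2129

theorem v5_2130 : VW (PX [625] [626,627,628]) := VW.of base nl_ok fl_ok (.cons 629 630 .nil (.cons 630 629 .nil .nil))
  [(631, (.cons 629 630 .nil (.cons 630 629 .nil .nil))), (632, (.cons 629 630 .nil (.cons 630 629 .nil .nil))), (633, (.cons 629 630 .nil (.cons 630 629 .nil .nil)))]
  [([629], (PX [625] [626,627,628,629])), ([630], (PX [625] [626,627,628,630]))]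
  (by decide +kernel) ⟨w5_2130_629, w5_2130_630, trivial⟩

theorem v5_2147 : VW (PX [627] [626,628,629]) := VW.of base nl_ok fl_ok .nil
  [(630, (.cons 631 632 .nil (.cons 632 631 .nil .nil))), (631, (.cons 630 632 .nil (.cons 632 630 .nil .nil))), (632, (.cons 630 631 .nil (.cons 631 630 .nil .nil)))]
  []
  (by decide +kernel) trivial

theorem w5_2150_625 : S (PX [] [625,626,628]) := VW.play 627 (PX [627] [625,626,628]) (by decide +kernel) v5_2095

theorem w5_2150_627 : S (PX [] [626,627,628]) := VW.play 625 (PX [625] [626,627,628]) (by decide +kernel) v5_2130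

theorem w5_2150_629 : S (PX [] [626,628,629]) := VW.play 627 (PX [627] [626,628,629]) (by decide +kernel) v5_2147

theorem v5_2150 : VW (PX [] [626,628]) := VW.of base nl_ok fl_ok .nil
  [(624, (.cons 625 627 (.cons 622 623 .nil (.cons 623 622 .nil .nil)) (.cons 627 625 (.cons 629 630 .nil (.cons 630 629 .nil .nil)) .nil))), (630, (.cons 627 629 (.cons 624 625 .nil (.cons 625 624 .nil .nil)) (.cons 629 627 (.cons 631 632 .nil (.cons 632 631 .nil .nil)) .nil)))]
  [([625], (PX [] [625,626,628])), ([627], (PX [] [626,627,628])), ([629], (PX [] [626,628,629]))]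
  (by decide +kernel) ⟨w5_2150_625, w5_2150_627, w5_2150_629, trivial⟩

theorem v5_2151 : VW (PX [626,631] [627,628,629,630]) := VW.of base nl_ok fl_ok .nil
  []
  []
  (by decide +kernel) trivial

theorem v5_2152 : VW (PX [626,630] [627,628,629,631]) := VW.of base nl_ok fl_ok .nil
  []
  []
  (by decide +kernel) trivial

theorem w5_2153_630 : S (PX [626] [627,628,629,630]) := VW.play 631 (PX [626,631] [627,628,629,630]) (by decide +kernel) v5_2151

theorem w5_2153_631 : S (PX [626] [627,628,629,631]) := VW.play 630 (PX [626,630] [627,628,629,631]) (by decide +kernel) v5_2152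

theorem v5_2153 : VW (PX [626] [627,628,629]) := VW.of base nl_ok fl_ok (.cons 630 631 .nil (.cons 631 630 .nil .nil))
  [(632, (.cons 630 631 .nil (.cons 631 630 .nil .nil))), (633, (.cons 630 631 .nil (.cons 631 630 .nil .nil))), (634, (.cons 630 631 .nil (.cons 631 630 .nil .nil)))]
  [([630], (PX [626] [627,628,629,630])), ([631], (PX [626] [627,628,629,631]))]
  (by decide +kernel) ⟨w5_2153_630, w5_2153_631, trivial⟩

theorem v5_2158 : VW (PX [629] [627,628,630]) := VW.of base nl_ok fl_ok .nil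
  [(624, (.cons 625 626 .nil (.cons 626 625 .nil .nil))), (625, (.cons 624 626 .nil (.cons 626 624 .nil .nil))), (626, (.cons 624 625 .nil (.cons 625 624 .nil .nil)))]
  []
  (by decide +kernel) trivial

theorem w5_2170_625 : S (PX [] [625,627,628]) := VW.play 626 (PX [626] [625,627,628]) (by decide +kernel) v5_2124

theorem w5_2170_626 : S (PX [] [626,627,628]) := VW.play 625 (PX [625] [626,627,628]) (by decide +kernel) v5_2130

theorem w5_2170_629 : S (PX [] [627,628,629]) := VW.play 626 (PX [626] [627,628,629]) (by decide +kernel) v5_2153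

theorem w5_2170_630 : S (PX [] [627,628,630]) := VW.play 629 (PX [629] [627,628,630]) (by decide +kernel) v5_2158

theorem v5_2170 : VW (PX [] [627,628]) := VW.of base nl_ok fl_ok .nil
  [(624, (.cons 625 626 .nil (.cons 626 625 (.cons 629 630 .nil (.cons 630 629 .nil .nil)) .nil))), (631, (.cons 629 630 (.cons 625 626 .nil (.cons 626 625 .nil .nil)) (.cons 630 629 .nil .nil)))]
  [([625], (PX [] [625,627,628])), ([626], (PX [] [626,627,628])), ([629], (PX [] [627,628,629])), ([630], (PX [] [627,628,630]))]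
  (by decide +kernel) ⟨w5_2170_625, w5_2170_626, w5_2170_629, w5_2170_630, trivial⟩

theorem v5_2171 : VW (PX [627,632] [628,629,630,631]) := VW.of base nl_ok fl_ok .nil
  []
  []
  (by decide +kernel) trivial

theorem v5_2172 : VW (PX [627,631] [628,629,630,632]) := VW.of base nl_ok fl_ok .nil
  []
  []
  (by decide +kernel) trivial

theorem w5_2173_631 : S (PX [627] [628,629,630,631]) := VW.play 632 (PX [627,632] [628,629,630,631]) (by decide +kernel) v5_2171

theorem w5_2173_632 : S (PX [627] [628,629,630,632]) := VW.play 631 (PX [627,631] [628,629,630,632]) (by decide +kernel) v5_2172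

theorem v5_2173 : VW (PX [627] [628,629,630]) := VW.of base nl_ok fl_ok (.cons 631 632 .nil (.cons 632 631 .nil .nil))
  [(633, (.cons 631 632 .nil (.cons 632 631 .nil .nil))), (634, (.cons 631 632 .nil (.cons 632 631 .nil .nil))), (635, (.cons 631 632 .nil (.cons 632 631 .nil .nil)))]
  [([631], (PX [627] [628,629,630,631])), ([632], (PX [627] [628,629,630,632]))]
  (by decide +kernel) ⟨w5_2173_631, w5_2173_632, trivial⟩

theorem v5_2178 : VW (PX [630] [628,629,631]) := VW.of base nl_ok fl_ok .nil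
  [(625, (.cons 626 627 .nil (.cons 627 626 .nil .nil))), (626, (.cons 625 627 .nil (.cons 627 625 .nil .nil))), (627, (.cons 625 626 .nil (.cons 626 625 .nil .nil)))]
  []
  (by decide +kernel) trivial

theorem w5_2190_626 : S (PX [] [626,628,629]) := VW.play 627 (PX [627] [626,628,629]) (by decide +kernel) v5_2147

theorem w5_2190_627 : S (PX [] [627,628,629]) := VW.play 626 (PX [626] [627,628,629]) (by decide +kernel) v5_2153

theorem w5_2190_630 : S (PX [] [628,629,630]) := VW.play 627 (PX [627] [628,629,630]) (by decide +kernel) v5_2173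

theorem w5_2190_631 : S (PX [] [628,629,631]) := VW.play 630 (PX [630] [628,629,631]) (by decide +kernel) v5_2178

theorem v5_2190 : VW (PX [] [628,629]) := VW.of base nl_ok fl_ok .nil
  [(625, (.cons 626 627 .nil (.cons 627 626 (.cons 630 631 .nil (.cons 631 630 .nil .nil)) .nil))), (632, (.cons 630 631 (.cons 626 627 .nil (.cons 627 626 .nil .nil)) (.cons 631 630 .nil .nil)))]
  [([626], (PX [] [626,628,629])), ([627], (PX [] [627,628,629])), ([630], (PX [] [628,629,630])), ([631], (PX [] [628,629,631]))]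
  (by decide +kernel) ⟨w5_2190_626, w5_2190_627, w5_2190_630, w5_2190_631, trivial⟩

theorem v5_2191 : VW (PX [629] [628,630,631]) := VW.of base nl_ok fl_ok .nil
  [(632, (.cons 633 634 .nil (.cons 634 633 .nil .nil))), (633, (.cons 632 634 .nil (.cons 634 632 .nil .nil))), (634, (.cons 632 633 .nil (.cons 633 632 .nil .nil)))]
  []
  (by decide +kernel) trivial

theorem w5_2194_627 : S (PX [] [627,628,630]) := VW.play 629 (PX [629] [627,628,630]) (by decide +kernel) v5_2158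

theorem w5_2194_629 : S (PX [] [628,629,630]) := VW.play 627 (PX [627] [628,629,630]) (by decide +kernel) v5_2173

theorem w5_2194_631 : S (PX [] [628,630,631]) := VW.play 629 (PX [629] [628,630,631]) (by decide +kernel) v5_2191

theorem v5_2194 : VW (PX [] [628,630]) := VW.of base nl_ok fl_ok .nil
  [(626, (.cons 627 629 (.cons 624 625 .nil (.cons 625 624 .nil .nil)) (.cons 629 627 (.cons 631 632 .nil (.cons 632 631 .nil .nil)) .nil))), (632, (.cons 629 631 (.cons 626 627 .nil (.cons 627 626 .nil .nil)) (.cons 631 629 (.cons 633 634 .nil (.cons 634 633 .nil .nil)) .nil)))]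
  [([627], (PX [] [627,628,630])), ([629], (PX [] [628,629,630])), ([631], (PX [] [628,630,631]))]
  (by decide +kernel) ⟨w5_2194_627, w5_2194_629, w5_2194_631, trivial⟩

theorem w5_2195_629 : S (PX [] [628,629,631]) := VW.play 630 (PX [630] [628,629,631]) (by decide +kernel) v5_2178

theorem w5_2195_630 : S (PX [] [628,630,631]) := VW.play 629 (PX [629] [628,630,631]) (by decide +kernel) v5_2191

theorem v5_2195 : VW (PX [] [628,631]) := VW.of base nl_ok fl_ok .nil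
  [(627, (.cons 629 630 (.cons 625 626 .nil (.cons 626 625 .nil .nil)) (.cons 630 629 .nil .nil))), (632, (.cons 629 630 .nil (.cons 630 629 (.cons 633 634 .nil (.cons 634 633 .nil .nil)) .nil)))]
  [([629], (PX [] [628,629,631])), ([630], (PX [] [628,630,631]))]
  (by decide +kernel) ⟨w5_2195_629, w5_2195_630, trivial⟩

theorem v5_2196 : VW (PX [] [628,632]) := VW.of base nl_ok fl_ok .nil
  [(629, (.cons 630 631 (.cons 626 627 .nil (.cons 627 626 .nil .nil)) (.cons 631 630 .nil .nil))), (630, (.cons 629 631 (.cons 626 627 .nil (.cons 627 626 .nil .nil)) (.cons 631 629 (.cons 633 634 .nil (.cons 634 633 .nil .nil)) .nil))), (631, (.cons 629 630 .nil (.cons 630 629 (.cons 633 634 .nil (.cons 634 633 .nil .nil)) .nil)))]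
  []
  (by decide +kernel) trivial

theorem v5_2197 : VW (PX [597,752] [628,659,690,721]) := VW.of base nl_ok fl_ok .nil
  []
  []
  (by decide +kernel) trivial

theorem v5_2198 : VW (PX [597,721] [628,659,690,752]) := VW.of base nl_ok fl_ok .nil
  []
  []
  (by decide +kernel) trivial

theorem w5_2199_721 : S (PX [597] [628,659,690,721]) := VW.play 752 (PX [597,752] [628,659,690,721]) (by decide +kernel) v5_2197

theorem w5_2199_752 : S (PX [597] [628,659,690,752]) := VW.play 721 (PX [597,721] [628,659,690,752]) (by decide +kernel) v5_2198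

theorem v5_2199 : VW (PX [597] [628,659,690]) := VW.of base nl_ok fl_ok (.cons 721 752 .nil (.cons 752 721 .nil .nil))
  [(783, (.cons 721 752 .nil (.cons 752 721 .nil .nil))), (814, (.cons 721 752 .nil (.cons 752 721 .nil .nil))), (845, (.cons 721 752 .nil (.cons 752 721 .nil .nil)))]
  [([721], (PX [597] [628,659,690,721])), ([752], (PX [597] [628,659,690,752]))]
  (by decide +kernel) ⟨w5_2199_721, w5_2199_752, trivial⟩

theorem v5_2204 : VW (PX [690] [628,659,721]) := VW.of base nl_ok fl_ok .nil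
  [(535, (.cons 566 597 .nil (.cons 597 566 .nil .nil))), (566, (.cons 535 597 .nil (.cons 597 535 .nil .nil))), (597, (.cons 535 566 .nil (.cons 566 535 .nil .nil)))]
  []
  (by decide +kernel) trivial

theorem w5_2216_566 : S (PX [] [566,628,659]) := VW.play 597 (PX [597] [566,628,659]) (by decide +kernel) v5_2060

theorem w5_2216_597 : S (PX [] [597,628,659]) := VW.play 566 (PX [566] [597,628,659]) (by decide +kernel) v5_2073

theorem w5_2216_690 : S (PX [] [628,659,690]) := VW.play 597 (PX [597] [628,659,690]) (by decide +kernel) v5_2199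

theorem w5_2216_721 : S (PX [] [628,659,721]) := VW.play 690 (PX [690] [628,659,721]) (by decide +kernel) v5_2204

theorem v5_2216 : VW (PX [] [628,659]) := VW.of base nl_ok fl_ok .nil
  [(535, (.cons 566 597 .nil (.cons 597 566 (.cons 690 721 .nil (.cons 721 690 .nil .nil)) .nil))), (752, (.cons 690 721 (.cons 566 597 .nil (.cons 597 566 .nil .nil)) (.cons 721 690 .nil .nil)))]
  [([566], (PX [] [566,628,659])), ([597], (PX [] [597,628,659])), ([690], (PX [] [628,659,690])), ([721], (PX [] [628,659,721]))]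
  (by decide +kernel) ⟨w5_2216_566, w5_2216_597, w5_2216_690, w5_2216_721, trivial⟩

theorem v5_2217 : VW (PX [596,756] [628,660,692,724]) := VW.of base nl_ok fl_ok .nil
  []
  []
  (by decide +kernel) trivial

theorem v5_2218 : VW (PX [596,724] [628,660,692,756]) := VW.of base nl_ok fl_ok .nil
  []
  []
  (by decide +kernel) trivial

theorem w5_2219_724 : S (PX [596] [628,660,692,724]) := VW.play 756 (PX [596,756] [628,660,692,724]) (by decide +kernel) v5_2217

theorem w5_2219_756 : S (PX [596] [628,660,692,756]) := VW.play 724 (PX [596,724] [628,660,692,756]) (by decide +kernel) v5_2218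

theorem v5_2219 : VW (PX [596] [628,660,692]) := VW.of base nl_ok fl_ok (.cons 724 756 .nil (.cons 756 724 .nil .nil))
  [(788, (.cons 724 756 .nil (.cons 756 724 .nil .nil))), (820, (.cons 724 756 .nil (.cons 756 724 .nil .nil))), (852, (.cons 724 756 .nil (.cons 756 724 .nil .nil)))]
  [([724], (PX [596] [628,660,692,724])), ([756], (PX [596] [628,660,692,756]))]
  (by decide +kernel) ⟨w5_2219_724, w5_2219_756, trivial⟩

theorem v5_2224 : VW (PX [692] [628,660,724]) := VW.of base nl_ok fl_ok .nil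
  [(532, (.cons 564 596 .nil (.cons 596 564 .nil .nil))), (564, (.cons 532 596 .nil (.cons 596 532 .nil .nil))), (596, (.cons 532 564 .nil (.cons 564 532 .nil .nil)))]
  []
  (by decide +kernel) trivial

theorem w5_2236_564 : S (PX [] [564,628,660]) := VW.play 596 (PX [596] [564,628,660]) (by decide +kernel) v5_1642

theorem w5_2236_596 : S (PX [] [596,628,660]) := VW.play 564 (PX [564] [596,628,660]) (by decide +kernel) v5_1888

theorem w5_2236_692 : S (PX [] [628,660,692]) := VW.play 596 (PX [596] [628,660,692]) (by decide +kernel) v5_2219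

theorem w5_2236_724 : S (PX [] [628,660,724]) := VW.play 692 (PX [692] [628,660,724]) (by decide +kernel) v5_2224

theorem v5_2236 : VW (PX [] [628,660]) := VW.of base nl_ok fl_ok .nil
  [(532, (.cons 564 596 .nil (.cons 596 564 (.cons 692 724 .nil (.cons 724 692 .nil .nil)) .nil))), (756, (.cons 692 724 (.cons 564 596 .nil (.cons 596 564 .nil .nil)) (.cons 724 692 .nil .nil)))]
  [([564], (PX [] [564,628,660])), ([596], (PX [] [596,628,660])), ([692], (PX [] [628,660,692])), ([724], (PX [] [628,660,724]))]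
  (by decide +kernel) ⟨w5_2236_564, w5_2236_596, w5_2236_692, w5_2236_724, trivial⟩

theorem v5_2237 : VW (PX [595,760] [628,661,694,727]) := VW.of base nl_ok fl_ok .nil
  []
  []
  (by decide +kernel) trivial

theorem v5_2238 : VW (PX [595,727] [628,661,694,760]) := VW.of base nl_ok fl_ok .nil
  []
  []
  (by decide +kernel) trivial

theorem w5_2239_727 : S (PX [595] [628,661,694,727]) := VW.play 760 (PX [595,760] [628,661,694,727]) (by decide +kernel) v5_2237

theorem w5_2239_760 : S (PX [595] [628,661,694,760]) := VW.play 727 (PX [595,727] [628,661,694,760]) (by decide +kernel) v5_2238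

theorem v5_2239 : VW (PX [595] [628,661,694]) := VW.of base nl_ok fl_ok (.cons 727 760 .nil (.cons 760 727 .nil .nil))
  [(793, (.cons 727 760 .nil (.cons 760 727 .nil .nil))), (826, (.cons 727 760 .nil (.cons 760 727 .nil .nil))), (859, (.cons 727 760 .nil (.cons 760 727 .nil .nil)))]
  [([727], (PX [595] [628,661,694,727])), ([760], (PX [595] [628,661,694,760]))]
  (by decide +kernel) ⟨w5_2239_727, w5_2239_760, trivial⟩

theorem v5_2244 : VW (PX [694] [628,661,727]) := VW.of base nl_ok fl_ok .nil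
  [(529, (.cons 562 595 .nil (.cons 595 562 .nil .nil))), (562, (.cons 529 595 .nil (.cons 595 529 .nil .nil))), (595, (.cons 529 562 .nil (.cons 562 529 .nil .nil)))]
  []
  (by decide +kernel) trivial

theorem w5_2245_562 : S (PX [] [562,628,661]) := VW.play 595 (PX [595] [562,628,661]) (by decide +kernel) v5_2039

theorem w5_2245_595 : S (PX [] [595,628,661]) := VW.play 562 (PX [562] [595,628,661]) (by decide +kernel) v5_2066

theorem w5_2245_694 : S (PX [] [628,661,694]) := VW.play 595 (PX [595] [628,661,694]) (by decide +kernel) v5_2239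

theorem w5_2245_727 : S (PX [] [628,661,727]) := VW.play 694 (PX [694] [628,661,727]) (by decide +kernel) v5_2244

theorem v5_2245 : VW (PX [] [628,661]) := VW.of base nl_ok fl_ok .nil
  [(529, (.cons 562 595 .nil (.cons 595 562 (.cons 694 727 .nil (.cons 727 694 .nil .nil)) .nil))), (760, (.cons 694 727 (.cons 562 595 .nil (.cons 595 562 .nil .nil)) (.cons 727 694 .nil .nil)))]
  [([562], (PX [] [562,628,661])), ([595], (PX [] [595,628,661])), ([694], (PX [] [628,661,694])), ([727], (PX [] [628,661,727]))]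
  (by decide +kernel) ⟨w5_2245_562, w5_2245_595, w5_2245_694, w5_2245_727, trivial⟩

theorem v5_2246 : VW (PX [659] [628,690,721]) := VW.of base nl_ok fl_ok .nil
  [(752, (.cons 783 814 .nil (.cons 814 783 .nil .nil))), (783, (.cons 752 814 .nil (.cons 814 752 .nil .nil))), (814, (.cons 752 783 .nil (.cons 783 752 .nil .nil)))]
  []
  (by decide +kernel) trivial

theorem w5_2249_597 : S (PX [] [597,628,690]) := VW.play 659 (PX [659] [597,628,690]) (by decide +kernel) v5_2078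

theorem w5_2249_659 : S (PX [] [628,659,690]) := VW.play 597 (PX [597] [628,659,690]) (by decide +kernel) v5_2199

theorem w5_2249_721 : S (PX [] [628,690,721]) := VW.play 659 (PX [659] [628,690,721]) (by decide +kernel) v5_2246

theorem v5_2249 : VW (PX [] [628,690]) := VW.of base nl_ok fl_ok .nil
  [(566, (.cons 597 659 (.cons 504 535 .nil (.cons 535 504 .nil .nil)) (.cons 659 597 (.cons 721 752 .nil (.cons 752 721 .nil .nil)) .nil))), (752, (.cons 659 721 (.cons 566 597 .nil (.cons 597 566 .nil .nil)) (.cons 721 659 (.cons 783 814 .nil (.cons 814 783 .nil .nil)) .nil)))]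
  [([597], (PX [] [597,628,690])), ([659], (PX [] [628,659,690])), ([721], (PX [] [628,690,721]))]
  (by decide +kernel) ⟨w5_2249_597, w5_2249_659, w5_2249_721, trivial⟩

theorem v5_2250 : VW (PX [660] [628,692,724]) := VW.of base nl_ok fl_ok .nil
  [(756, (.cons 788 820 .nil (.cons 820 788 .nil .nil))), (788, (.cons 756 820 .nil (.cons 820 756 .nil .nil))), (820, (.cons 756 788 .nil (.cons 788 756 .nil .nil)))]
  []
  (by decide +kernel) trivial

theorem w5_2253_596 : S (PX [] [596,628,692]) := VW.play 660 (PX [660] [596,628,692]) (by decide +kernel) v5_1893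

theorem w5_2253_660 : S (PX [] [628,660,692]) := VW.play 596 (PX [596] [628,660,692]) (by decide +kernel) v5_2219

theorem w5_2253_724 : S (PX [] [628,692,724]) := VW.play 660 (PX [660] [628,692,724]) (by decide +kernel) v5_2250

theorem v5_2253 : VW (PX [] [628,692]) := VW.of base nl_ok fl_ok .nil
  [(564, (.cons 596 660 (.cons 500 532 .nil (.cons 532 500 .nil .nil)) (.cons 660 596 (.cons 724 756 .nil (.cons 756 724 .nil .nil)) .nil))), (756, (.cons 660 724 (.cons 564 596 .nil (.cons 596 564 .nil .nil)) (.cons 724 660 (.cons 788 820 .nil (.cons 820 788 .nil .nil)) .nil)))]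
  [([596], (PX [] [596,628,692])), ([660], (PX [] [628,660,692])), ([724], (PX [] [628,692,724]))]
  (by decide +kernel) ⟨w5_2253_596, w5_2253_660, w5_2253_724, trivial⟩

theorem v5_2254 : VW (PX [661] [628,694,727]) := VW.of base nl_ok fl_ok .nil
  [(760, (.cons 793 826 .nil (.cons 826 793 .nil .nil))), (793, (.cons 760 826 .nil (.cons 826 760 .nil .nil))), (826, (.cons 760 793 .nil (.cons 793 760 .nil .nil)))]
  []
  (by decide +kernel) trivial

theorem w5_2257_595 : S (PX [] [595,628,694]) := VW.play 661 (PX [661] [595,628,694]) (by decide +kernel) v5_2069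

theorem w5_2257_661 : S (PX [] [628,661,694]) := VW.play 595 (PX [595] [628,661,694]) (by decide +kernel) v5_2239

theorem w5_2257_727 : S (PX [] [628,694,727]) := VW.play 661 (PX [661] [628,694,727]) (by decide +kernel) v5_2254

theorem v5_2257 : VW (PX [] [628,694]) := VW.of base nl_ok fl_ok .nil
  [(562, (.cons 595 661 (.cons 496 529 .nil (.cons 529 496 .nil .nil)) (.cons 661 595 (.cons 727 760 .nil (.cons 760 727 .nil .nil)) .nil))), (760, (.cons 661 727 (.cons 562 595 .nil (.cons 595 562 .nil .nil)) (.cons 727 661 (.cons 793 826 .nil (.cons 826 793 .nil .nil)) .nil)))]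
  [([595], (PX [] [595,628,694])), ([661], (PX [] [628,661,694])), ([727], (PX [] [628,694,727]))]
  (by decide +kernel) ⟨w5_2257_595, w5_2257_661, w5_2257_727, trivial⟩

theorem w5_2258_659 : S (PX [] [628,659,721]) := VW.play 690 (PX [690] [628,659,721]) (by decide +kernel) v5_2204

theorem w5_2258_690 : S (PX [] [628,690,721]) := VW.play 659 (PX [659] [628,690,721]) (by decide +kernel) v5_2246

theorem v5_2258 : VW (PX [] [628,721]) := VW.of base nl_ok fl_ok .nil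
  [(597, (.cons 659 690 (.cons 535 566 .nil (.cons 566 535 .nil .nil)) (.cons 690 659 .nil .nil))), (752, (.cons 659 690 .nil (.cons 690 659 (.cons 783 814 .nil (.cons 814 783 .nil .nil)) .nil)))]
  [([659], (PX [] [628,659,721])), ([690], (PX [] [628,690,721]))]
  (by decide +kernel) ⟨w5_2258_659, w5_2258_690, trivial⟩

theorem w5_2259_660 : S (PX [] [628,660,724]) := VW.play 692 (PX [692] [628,660,724]) (by decide +kernel) v5_2224

theorem w5_2259_692 : S (PX [] [628,692,724]) := VW.play 660 (PX [660] [628,692,724]) (by decide +kernel) v5_2250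

theorem v5_2259 : VW (PX [] [628,724]) := VW.of base nl_ok fl_ok .nil
  [(596, (.cons 660 692 (.cons 532 564 .nil (.cons 564 532 .nil .nil)) (.cons 692 660 .nil .nil))), (756, (.cons 660 692 .nil (.cons 692 660 (.cons 788 820 .nil (.cons 820 788 .nil .nil)) .nil)))]
  [([660], (PX [] [628,660,724])), ([692], (PX [] [628,692,724]))]
  (by decide +kernel) ⟨w5_2259_660, w5_2259_692, trivial⟩

theorem w5_2260_661 : S (PX [] [628,661,727]) := VW.play 694 (PX [694] [628,661,727]) (by decide +kernel) v5_2244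

theorem w5_2260_694 : S (PX [] [628,694,727]) := VW.play 661 (PX [661] [628,694,727]) (by decide +kernel) v5_2254

theorem v5_2260 : VW (PX [] [628,727]) := VW.of base nl_ok fl_ok .nil
  [(595, (.cons 661 694 (.cons 529 562 .nil (.cons 562 529 .nil .nil)) (.cons 694 661 .nil .nil))), (760, (.cons 661 694 .nil (.cons 694 661 (.cons 793 826 .nil (.cons 826 793 .nil .nil)) .nil)))]
  [([661], (PX [] [628,661,727])), ([694], (PX [] [628,694,727]))]
  (by decide +kernel) ⟨w5_2260_661, w5_2260_694, trivial⟩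

theorem v5_2261 : VW (PX [] [628,752]) := VW.of base nl_ok fl_ok .nil
  [(659, (.cons 690 721 (.cons 566 597 .nil (.cons 597 566 .nil .nil)) (.cons 721 690 .nil .nil))), (690, (.cons 659 721 (.cons 566 597 .nil (.cons 597 566 .nil .nil)) (.cons 721 659 (.cons 783 814 .nil (.cons 814 783 .nil .nil)) .nil))), (721, (.cons 659 690 .nil (.cons 690 659 (.cons 783 814 .nil (.cons 814 783 .nil .nil)) .nil)))]
  []
  (by decide +kernel) trivial

theorem v5_2262 : VW (PX [] [628,756]) := VW.of base nl_ok fl_ok .nil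
  [(660, (.cons 692 724 (.cons 564 596 .nil (.cons 596 564 .nil .nil)) (.cons 724 692 .nil .nil))), (692, (.cons 660 724 (.cons 564 596 .nil (.cons 596 564 .nil .nil)) (.cons 724 660 (.cons 788 820 .nil (.cons 820 788 .nil .nil)) .nil))), (724, (.cons 660 692 .nil (.cons 692 660 (.cons 788 820 .nil (.cons 820 788 .nil .nil)) .nil)))]
  []
  (by decide +kernel) trivial

theorem v5_2263 : VW (PX [] [628,760]) := VW.of base nl_ok fl_ok .nil
  [(661, (.cons 694 727 (.cons 562 595 .nil (.cons 595 562 .nil .nil)) (.cons 727 694 .nil .nil))), (694, (.cons 661 727 (.cons 562 595 .nil (.cons 595 562 .nil .nil)) (.cons 727 661 (.cons 793 826 .nil (.cons 826 793 .nil .nil)) .nil))), (727, (.cons 661 694 .nil (.cons 694 661 (.cons 793 826 .nil (.cons 826 793 .nil .nil)) .nil)))]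
  []
  (by decide +kernel) trivial

theorem r496 : S (Nat.lor X2 (bits [628, 496])) := VW.play 394 (PX [] [496,628]) (by decide +kernel) v5_1976

theorem r500 : S (Nat.lor X2 (bits [628, 500])) := VW.play 394 (PX [] [500,628]) (by decide +kernel) v5_1048

theorem r504 : S (Nat.lor X2 (bits [628, 504])) := VW.play 394 (PX [] [504,628]) (by decide +kernel) v5_1977

theorem r529 : S (Nat.lor X2 (bits [628, 529])) := VW.play 394 (PX [] [529,628]) (by decide +kernel) v5_1999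

theorem r532 : S (Nat.lor X2 (bits [628, 532])) := VW.play 394 (PX [] [532,628]) (by decide +kernel) v5_1355

theorem r535 : S (Nat.lor X2 (bits [628, 535])) := VW.play 394 (PX [] [535,628]) (by decide +kernel) v5_2021

theorem r562 : S (Nat.lor X2 (bits [628, 562])) := VW.play 394 (PX [] [562,628]) (by decide +kernel) v5_2040

theorem r564 : S (Nat.lor X2 (bits [628, 564])) := VW.play 394 (PX [] [564,628]) (by decide +kernel) v5_1645

theorem r566 : S (Nat.lor X2 (bits [628, 566])) := VW.play 394 (PX [] [566,628]) (by decide +kernel) v5_2063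

theorem r595 : S (Nat.lor X2 (bits [628, 595])) := VW.play 394 (PX [] [595,628]) (by decide +kernel) v5_2070

theorem r596 : S (Nat.lor X2 (bits [628, 596])) := VW.play 394 (PX [] [596,628]) (by decide +kernel) v5_1905

theorem r597 : S (Nat.lor X2 (bits [628, 597])) := VW.play 394 (PX [] [597,628]) (by decide +kernel) v5_2090

theorem r624 : S (Nat.lor X2 (bits [628, 624])) := VW.play 394 (PX [] [624,628]) (by decide +kernel) v5_2091

theorem r625 : S (Nat.lor X2 (bits [628, 625])) := VW.play 394 (PX [] [625,628]) (by decide +kernel) v5_2127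

theorem r626 : S (Nat.lor X2 (bits [628, 626])) := VW.play 394 (PX [] [626,628]) (by decide +kernel) v5_2150

theorem r627 : S (Nat.lor X2 (bits [628, 627])) := VW.play 394 (PX [] [627,628]) (by decide +kernel) v5_2170

theorem r629 : S (Nat.lor X2 (bits [628, 629])) := VW.play 394 (PX [] [628,629]) (by decide +kernel) v5_2190

theorem r630 : S (Nat.lor X2 (bits [628, 630])) := VW.play 394 (PX [] [628,630]) (by decide +kernel) v5_2194

theorem r631 : S (Nat.lor X2 (bits [628, 631])) := VW.play 394 (PX [] [628,631]) (by decide +kernel) v5_2195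

theorem r632 : S (Nat.lor X2 (bits [628, 632])) := VW.play 394 (PX [] [628,632]) (by decide +kernel) v5_2196

theorem r659 : S (Nat.lor X2 (bits [628, 659])) := VW.play 394 (PX [] [628,659]) (by decide +kernel) v5_2216

theorem r660 : S (Nat.lor X2 (bits [628, 660])) := VW.play 394 (PX [] [628,660]) (by decide +kernel) v5_2236

theorem r661 : S (Nat.lor X2 (bits [628, 661])) := VW.play 394 (PX [] [628,661]) (by decide +kernel) v5_2245

theorem r690 : S (Nat.lor X2 (bits [628, 690])) := VW.play 394 (PX [] [628,690]) (by decide +kernel) v5_2249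

theorem r692 : S (Nat.lor X2 (bits [628, 692])) := VW.play 394 (PX [] [628,692]) (by decide +kernel) v5_2253

theorem r694 : S (Nat.lor X2 (bits [628, 694])) := VW.play 394 (PX [] [628,694]) (by decide +kernel) v5_2257

theorem r721 : S (Nat.lor X2 (bits [628, 721])) := VW.play 394 (PX [] [628,721]) (by decide +kernel) v5_2258

theorem r724 : S (Nat.lor X2 (bits [628, 724])) := VW.play 394 (PX [] [628,724]) (by decide +kernel) v5_2259

theorem r727 : S (Nat.lor X2 (bits [628, 727])) := VW.play 394 (PX [] [628,727]) (by decide +kernel) v5_2260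

theorem r752 : S (Nat.lor X2 (bits [628, 752])) := VW.play 394 (PX [] [628,752]) (by decide +kernel) v5_2261

theorem r756 : S (Nat.lor X2 (bits [628, 756])) := VW.play 394 (PX [] [628,756]) (by decide +kernel) v5_2262

theorem r760 : S (Nat.lor X2 (bits [628, 760])) := VW.play 394 (PX [] [628,760]) (by decide +kernel) v5_2263

theorem r364 : S (Nat.lor X2 (bits [628, 364])) := S.of (.q 394 (.a 1 [] (.q 395 (.a 1 [] (.d 393 392 392 393 397)
 (.a 1 [392] (.d 397 393 393 394 398)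
 (.a 0 [393,397] (.q 331 (.a 1 [] (.d 299 1291 267 1323 427)
 (.a 1 [267] (.d 427 1323 299 1355 459)
 (.a 0 [299,427] (.q 330 (.a 1 [] (.d 297 2312 264 2345 429)
 (.a 1 [264] (.d 429 2345 297 2378 462)
 (.a 0 [297,429] (.q 332 (.a 1 [] (.d 329 328 328 329 333)
 (.a 1 [328] (.d 333 329 329 330 334)
 (.a 1 [329] (.d 301 3342 270 3373 425)
 .e))))
 .e))))
 .e))))
 .e))))
 (.a 0 [395] (.q 425 (.a 1 [] (.d 332 3373 301 3404 456)
 (.a 0 [332] (.q 330 (.a 1 [] (.d 297 2312 264 2345 429)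
 (.a 1 [297] (.r 429 2378 462 (.q 426 (.a 1 [] (.d 362 1322 298 1354 458)
 (.a 1 [362] (.q 423 (.a 1 [] (.d 427 423 424 425 428)
 (.a 1 [428] (.d 424 422 422 423 427)
 (.a 0 [424,427] (.q 392 (.a 1 [] (.d 361 3371 299 3402 454)
 (.a 0 [299,361,454] (.q 522 (.a 1 [] (.r 458 1418 490 (.d 491 2407 359 2440 524))
 (.a 1 [359] (.r 456 3435 487 (.d 489 2438 390 2471 555))
 .e)))
 .e)))
 .e))))
 (.a 1 [458] (.q 423 (.a 1 [] (.d 427 423 424 425 428)
 (.a 1 [428] (.d 424 422 422 423 427)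
 (.a 0 [424,427] (.q 361 (.a 1 [] (.d 392 3371 299 3402 454)
 (.a 0 [299,392,454] (.q 393 (.a 1 [] (.d 457 1353 329 1385 489)
 (.a 1 [329] (.r 362 1322 298 (.r 360 359 359 (.d 459 2375 327 2408 492)))
 .e)))
 .e)))
 .e))))
 (.a 1 [298] (.r 427 425 428 (.r 458 1354 362 (.d 489 3437 365 3468 520)))
 .e))))))
 (.a 1 [429] (.q 426 (.a 1 [] (.d 362 1322 298 1354 458)
 (.a 0 [298,362,458] (.q 423 (.a 1 [] (.d 424 422 422 423 427)
 (.a 0 [422,424,427] (.q 361 (.a 1 [] (.d 392 3371 299 3402 454)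
 (.a 0 [299,392,454] (.q 489 (.a 1 [] (.r 456 3435 487 (.d 522 2438 390 2471 555))
 (.a 1 [390] (.r 393 1385 457 (.d 297 2312 264 1321 329))
 (.a 1 [456] (.r 297 2312 264 (.d 393 1321 329 1385 457))
 .e))))
 .e)))
 .e)))
 .e)))
 (.a 1 [264] (.d 429 2345 297 2378 462)
 .e)))))
 (.a 0 [456] (.q 330 (.a 1 [] (.d 297 2312 264 2345 429)
 (.a 0 [297] (.r 332 3373 301 (.q 426 (.a 1 [] (.d 362 1322 298 1354 458)
 (.a 0 [362] (.q 329 (.a 1 [] (.d 331 328 328 329 333)
 (.a 1 [331] (.r 429 2378 462 (.r 427 425 428 (.q 361 (.a 1 [] (.d 328 2343 295 2376 460)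
 (.a 1 [461] (.q 494 (.a 1 [] (.d 328 2343 295 2376 460)
 (.a 1 [460] (.r 423 423 424 (.d 392 3371 299 3402 454))
 .e)))
 (.a 1 [494] (.q 461 (.a 1 [] (.d 328 2343 295 2376 460)
 (.a 1 [328] (.r 493 2409 460 (.d 525 1421 397 1453 557))
 (.a 1 [460] (.r 423 423 424 (.d 392 3371 299 3402 454))
 .e))))
 (.a 1 [328] (.r 423 423 424 (.d 392 3371 299 3402 454))
 .e)))))))
 (.a 0 [328] (.r 333 329 331 (.r 429 2378 462 (.q 458 (.a 1 [] (.r 427 425 428 (.d 489 3437 365 3468 520))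
 (.a 1 [428] (.r 522 1418 490 (.q 491 (.a 1 [] (.d 392 2407 359 2440 524)
 (.a 1 [461] (.q 494 (.a 1 [] (.d 392 2407 359 2440 524)
 (.a 1 [392] (.d 460 3470 398 3501 553)
 .e)))
 (.a 1 [392] (.d 460 3470 398 3501 553)
 (.a 1 [494] (.q 461 (.a 1 [] (.d 460 3470 398 3501 553)
 (.a 1 [398] (.d 524 2440 392 2473 557)
 .e)))
 .e))))))
 (.a 1 [461] (.r 428 425 427 (.q 491 (.a 1 [] (.d 392 2407 359 2440 524)
 (.a 1 [359] (.d 524 2440 392 2473 557)
 (.a 1 [392] (.r 522 1418 490 (.d 460 3470 398 3501 553))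
 .e)))))
 (.a 1 [520] (.r 427 425 428 (.d 365 3406 334 3437 489))
 .e)))))))
 (.a 1 [333] (.r 328 328 331 (.r 429 2378 462 (.r 427 425 428 (.d 361 2343 295 2376 460))))
 .e)))))
 (.a 1 [458] (.q 427 (.a 1 [] (.d 429 425 428 2378 462)
 (.a 1 [429] (.d 424 423 423 424 428)
 (.a 0 [428] (.q 361 (.a 1 [] (.d 328 2343 295 2376 460)
 (.a 1 [295] (.d 460 2376 328 2409 493)
 (.a 1 [328] (.r 423 423 424 (.d 392 3371 299 3402 454))
 .e))))
 .e))))
 (.a 1 [298] (.r 458 1354 362 (.r 429 2378 462 (.r 427 425 428 (.d 489 3437 365 3468 520))))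
 .e))))))
 (.a 1 [429] (.q 426 (.a 1 [] (.d 362 1322 298 1354 458)
 (.a 0 [298,362,458] (.q 423 (.a 1 [] (.d 424 422 422 423 427)
 (.a 0 [422,424,427] (.q 361 (.a 1 [] (.d 392 3371 299 3402 454)
 (.a 1 [299] (.r 297 2312 264 (.r 329 1321 393 (.r 332 3373 301 (.d 331 328 328 329 333))))
 .e)))
 .e)))
 .e)))
 (.a 1 [264] (.d 429 2345 297 2378 462)
 .e)))))
 (.a 1 [301] (.d 456 3404 332 3435 487)
 .e)))))
 (.a 0 [330] (.q 395 (.a 1 [] (.d 393 392 392 393 397)
 (.a 0 [397] (.q 331 (.a 1 [] (.d 299 1291 267 1323 427)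
 (.a 1 [427] (.r 393 392 392 (.q 362 (.a 1 [] (.d 300 3341 269 3372 424)
 (.a 1 [424] (.q 428 (.a 1 [] (.d 329 2344 296 2377 461)
 (.a 1 [296] (.d 461 2377 329 2410 494)
 (.a 0 [329,461] (.q 301 (.a 1 [] (.d 332 3342 270 3373 425)
 (.a 0 [270,332,425] (.r 299 1291 267 (.r 300 3341 269 (.d 302 298 298 299 303)))
 .e)))
 .e))))
 (.a 1 [300] (.q 329 (.a 1 [] (.d 296 2311 263 2344 428)
 (.a 1 [263] (.d 428 2344 296 2377 461)
 (.a 0 [296,428] (.q 425 (.a 1 [] (.d 361 1321 297 1353 457)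
 (.a 1 [297] (.d 456 3404 332 3435 487)
 .e)))
 .e))))
 .e)))))
 (.a 1 [299] (.r 427 1355 459 (.q 361 (.a 1 [] (.d 328 2343 295 2376 460)
 (.a 1 [295] (.d 460 2376 328 2409 493)
 (.a 0 [328,460] (.q 425 (.a 1 [] (.d 332 3373 301 3404 456)
 (.a 1 [301] (.d 456 3404 332 3435 487)
 (.a 1 [332] (.r 393 392 392 (.d 457 1353 329 1385 489))
 .e))))
 .e)))))
 .e))))
 (.a 1 [393] (.q 427 (.a 1 [] (.d 331 1323 299 1355 459)
 (.a 1 [299] (.d 459 1355 331 1387 491)
 (.a 0 [331,459] (.q 332 (.a 1 [] (.d 301 3342 270 3373 425)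
 (.a 1 [270] (.d 425 3373 301 3404 456)
 (.a 0 [301,425] (.q 365 (.a 1 [] (.d 334 3375 303 3406 458)
 (.a 1 [303] (.d 458 3406 334 3437 489)
 (.a 1 [334] (.r 398 394 397 (.d 431 2347 299 2380 464))
 .e))))
 .e))))
 .e))))
 (.a 1 [392] (.d 397 393 393 394 398)
 .e)))))
 (.a 0 [332] (.q 395 (.a 1 [] (.d 393 392 392 393 397)
 (.a 1 [393] (.q 427 (.a 1 [] (.d 331 1323 299 1355 459)
 (.a 1 [331] (.q 330 (.a 1 [] (.d 297 2312 264 2345 429)
 (.a 1 [264] (.d 429 2345 297 2378 462)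
 (.a 0 [297,429] (.q 362 (.a 1 [] (.d 298 1290 266 1322 426)
 (.a 1 [266] (.d 426 1322 298 1354 458)
 (.a 1 [298] (.r 458 1354 426 (.d 489 3437 365 3468 520))
 (.a 0 [426] (.q 361 (.a 1 [] (.d 328 2343 295 2376 460)
 (.a 1 [295] (.d 460 2376 328 2409 493)
 (.a 0 [328,460] (.q 392 (.a 1 [] (.d 299 3340 268 3371 423)
 (.a 1 [268] (.d 423 3371 299 3402 454)
 (.a 0 [299,423] (.q 458 (.a 1 [] (.d 365 3406 334 3437 489)
 (.a 1 [334] (.d 489 3437 365 3468 520)
 (.a 1 [365] (.r 359 359 360 (.d 425 2374 326 2407 491))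
 .e))))
 .e))))
 .e))))
 .e)))))
 .e))))
 (.a 1 [459] (.q 458 (.a 1 [] (.d 365 3406 334 3437 489)
 (.a 1 [334] (.d 489 3437 365 3468 520)
 (.a 0 [365,489] (.q 426 (.a 1 [] (.d 362 1354 330 1386 490)
 (.a 1 [330] (.d 490 1386 362 1418 522)
 (.a 1 [490] (.r 330 1354 362 (.d 429 2345 297 2378 462))
 (.a 0 [362] (.q 429 (.a 1 [] (.d 428 425 425 426 430)
 (.a 1 [425] (.d 462 2378 330 2411 495)
 .e)))
 .e)))))
 .e))))
 (.a 1 [299] (.d 459 1355 331 1387 491)
 .e)))))
 (.a 1 [397] (.q 331 (.a 1 [] (.d 299 1291 267 1323 427)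
 (.a 1 [267] (.d 427 1323 299 1355 459)
 (.a 0 [299,427] (.q 330 (.a 1 [] (.d 297 2312 264 2345 429)
 (.a 1 [264] (.d 429 2345 297 2378 462)
 (.a 0 [297,429] (.q 362 (.a 1 [] (.d 298 1290 266 1322 426)
 (.a 1 [266] (.d 426 1322 298 1354 458)
 (.a 1 [298] (.r 393 392 392 (.d 424 3372 300 3403 455))
 .e))))
 .e))))
 .e))))
 (.a 1 [392] (.d 397 393 393 394 398)
 .e)))))
 (.a 1 [425] (.q 395 (.a 1 [] (.d 393 392 392 393 397)
 (.a 1 [393] (.q 427 (.a 1 [] (.d 331 1323 299 1355 459)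
 (.a 1 [299] (.d 459 1355 331 1387 491)
 (.a 0 [331,459] (.q 361 (.a 1 [] (.d 328 2343 295 2376 460)
 (.a 1 [295] (.d 460 2376 328 2409 493)
 (.a 0 [328,460] (.q 330 (.a 1 [] (.d 297 2312 264 2345 429)
 (.a 1 [264] (.d 429 2345 297 2378 462)
 (.a 0 [297,429] (.q 299 (.a 1 [] (.d 268 3309 237 3340 392)
 (.a 1 [237] (.d 392 3340 268 3371 423)
 (.a 0 [268,392] (.q 365 (.a 1 [] (.d 334 3375 303 3406 458)
 (.a 1 [303] (.d 458 3406 334 3437 489)
 (.a 1 [334] (.r 398 394 397 (.d 332 2314 266 2347 431))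
 .e))))
 .e))))
 .e))))
 .e))))
 .e))))
 (.a 1 [397] (.q 330 (.a 1 [] (.d 297 2312 264 2345 429)
 (.a 1 [264] (.d 429 2345 297 2378 462)
 (.a 0 [297,429] (.q 299 (.a 1 [] (.d 331 1291 267 1323 427)
 (.a 1 [267] (.r 427 1323 331 (.r 392 392 393 (.d 361 3340 268 3371 423)))
 (.a 1 [331] (.r 392 392 393 (.d 361 3340 268 3371 423))
 .e))))
 .e))))
 (.a 1 [392] (.d 397 393 393 394 398)
 .e)))))
 (.a 0 [429] (.q 425 (.a 1 [] (.d 332 3373 301 3404 456)
 (.a 1 [456] (.q 395 (.a 1 [] (.d 393 392 392 393 397)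
 (.a 1 [393] (.q 427 (.a 1 [] (.d 331 1323 299 1355 459)
 (.a 1 [299] (.d 459 1355 331 1387 491)
 (.a 0 [331,459] (.q 458 (.a 1 [] (.d 365 3406 334 3437 489)
 (.a 1 [334] (.d 489 3437 365 3468 520)
 (.a 0 [365,489] (.q 426 (.a 1 [] (.d 424 423 423 424 428)
 (.a 1 [423] (.d 490 1386 362 1418 522)
 .e)))
 .e))))
 .e))))
 (.a 1 [397] (.r 392 392 393 (.q 427 (.a 1 [] (.d 331 1323 299 1355 459)
 (.a 1 [299] (.d 459 1355 331 1387 491)
 (.a 1 [331] (.r 491 1387 459 (.d 458 2407 359 2440 524))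
 (.a 0 [459] (.q 458 (.a 1 [] (.d 359 2374 326 2407 491)
 (.a 1 [326] (.d 491 2407 359 2440 524)
 (.a 1 [359] (.d 365 3406 334 3437 489)
 .e))))
 .e))))))
 .e))))
 (.a 1 [332] (.q 395 (.a 1 [] (.d 393 392 392 393 397)
 (.a 1 [392] (.d 397 393 393 394 398)
 (.a 0 [393] (.q 427 (.a 1 [] (.d 331 1323 299 1355 459)
 (.a 1 [299] (.d 459 1355 331 1387 491)
 (.a 0 [331,459] (.q 458 (.a 1 [] (.d 365 3406 334 3437 489)
 (.a 1 [334] (.d 489 3437 365 3468 520)
 (.a 0 [365,489] (.q 426 (.a 1 [] (.d 424 423 423 424 428)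
 (.a 1 [423] (.d 490 1386 362 1418 522)
 .e)))
 .e))))
 .e))))
 (.a 0 [397] (.r 392 392 393 (.q 427 (.a 1 [] (.d 331 1323 299 1355 459)
 (.a 1 [299] (.d 459 1355 331 1387 491)
 (.a 1 [331] (.r 491 1387 459 (.d 458 2407 359 2440 524))
 (.a 0 [459] (.q 458 (.a 1 [] (.d 359 2374 326 2407 491)
 (.a 1 [326] (.d 491 2407 359 2440 524)
 (.a 1 [359] (.d 365 3406 334 3437 489)
 .e))))
 .e))))))
 .e)))))
 (.a 1 [301] (.d 456 3404 332 3435 487)
 .e)))))
 (.a 1 [397] (.q 330 (.a 1 [] (.d 297 2312 264 2345 429)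
 (.a 1 [429] (.q 298 (.a 1 [] (.d 362 1290 266 1322 426)
 (.a 0 [266,362,426] (.r 297 2312 264 (.q 299 (.a 1 [] (.d 296 295 295 296 300)
 (.a 1 [295] (.d 300 296 296 297 301)
 (.a 1 [296] (.r 301 297 300 (.d 332 3342 270 3373 425))
 (.a 0 [300] (.q 361 (.a 1 [] (.d 268 3309 237 3340 392)
 (.a 1 [237] (.d 392 3340 268 3371 423)
 (.a 1 [268] (.r 295 295 296 (.d 328 2310 262 2343 427))
 .e))))
 .e))))))
 .e)))
 (.a 1 [297] (.q 425 (.a 1 [] (.d 332 3373 301 3404 456)
 (.a 1 [301] (.d 456 3404 332 3435 487)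
 (.a 0 [332,456] (.q 426 (.a 1 [] (.d 362 1322 298 1354 458)
 (.a 1 [298] (.r 458 1354 362 (.r 429 2378 462 (.r 427 425 428 (.d 489 3437 365 3468 520))))
 (.a 0 [362,458] (.q 427 (.a 1 [] (.d 429 425 428 2378 462)
 (.a 1 [429] (.d 424 423 423 424 428)
 (.a 0 [428] (.q 361 (.a 1 [] (.d 328 2343 295 2376 460)
 (.a 1 [295] (.d 460 2376 328 2409 493)
 (.a 1 [328] (.r 423 423 424 (.d 392 3371 299 3402 454))
 .e))))
 .e))))
 .e))))
 .e))))
 .e))))
 (.a 0 [393] (.q 330 (.a 1 [] (.d 297 2312 264 2345 429)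
 (.a 0 [429] (.q 332 (.a 1 [] (.d 301 3342 270 3373 425)
 (.a 0 [425] (.q 331 (.a 1 [] (.d 329 328 328 329 333)
 (.a 0 [329] (.r 334 330 333 (.r 301 3342 270 (.r 297 2312 264 (.q 395 (.a 1 [] (.d 299 1291 267 1323 427)
 (.a 1 [361] (.q 457 (.a 1 [] (.d 427 1323 299 1355 459)
 (.a 1 [427] (.r 299 1291 267 (.r 298 297 300 (.d 362 1290 266 1322 426)))
 (.a 1 [299] (.r 427 1355 459 (.d 365 3375 303 3406 458))
 .e))))
 (.a 1 [457] (.q 361 (.a 1 [] (.d 427 1323 299 1355 459)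
 (.a 1 [489] (.q 521 (.a 1 [] (.d 427 1323 299 1355 459)
 (.a 1 [427] (.r 299 1291 267 (.d 392 3340 268 3371 423))
 (.a 1 [299] (.r 427 1355 459 (.d 365 3375 303 3406 458))
 .e))))
 (.a 1 [521] (.q 489 (.a 1 [] (.d 427 1323 299 1355 459)
 (.a 1 [427] (.r 299 1291 267 (.d 392 3340 268 3371 423))
 (.a 1 [299] (.r 427 1355 459 (.d 458 3406 365 3468 520))
 .e))))
 (.a 1 [427] (.r 299 1291 267 (.d 392 3340 268 3371 423))
 (.a 1 [299] (.r 427 1355 459 (.d 365 3375 303 3406 458))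
 .e))))))
 (.a 1 [427] (.r 299 1291 267 (.r 298 297 300 (.d 362 1290 266 1322 426)))
 (.a 1 [299] (.r 427 1355 459 (.d 365 3375 303 3406 458))
 .e)))))))))
 (.a 1 [333] (.q 427 (.a 1 [] (.d 395 1323 299 1355 459)
 (.a 1 [299] (.r 328 328 329 (.d 361 2343 295 2376 460))
 .e)))
 (.a 1 [328] (.d 333 329 329 330 334)
 .e)))))
 (.a 0 [301] (.q 331 (.a 1 [] (.d 329 328 328 329 333)
 (.a 1 [333] (.q 395 (.a 1 [] (.d 299 1291 267 1323 427)
 (.a 1 [397] (.q 365 (.a 1 [] (.d 299 1291 267 1323 427)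
 (.a 1 [299] (.r 427 1355 459 (.d 458 3406 334 3437 489))
 (.a 1 [427] (.r 299 1291 267 (.d 398 2314 266 2347 431))
 .e))))
 (.a 1 [299] (.q 458 (.a 1 [] (.r 427 1355 459 (.d 489 3437 365 3468 520))
 (.a 1 [365] (.r 397 394 398 (.r 362 1354 426 (.r 329 328 328 (.d 428 2344 296 2377 461))))
 (.a 0 [397] (.q 365 (.a 1 [] (.d 427 3406 334 1355 459)
 (.a 1 [334] (.d 427 1355 459 3437 489)
 (.a 1 [427] (.r 362 1354 426 (.r 329 328 328 (.d 428 2344 296 2377 461)))
 .e))))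
 .e))))
 (.a 1 [427] (.q 266 (.a 1 [] (.r 299 1291 267 (.d 365 2281 233 2314 398))
 (.a 1 [233] (.r 362 1290 298 (.r 329 328 328 (.d 428 2344 296 2377 461)))
 (.a 1 [365] (.r 397 394 398 (.r 362 1290 298 (.r 329 328 328 (.d 428 2344 296 2377 461))))
 (.a 0 [397] (.q 365 (.a 1 [] (.d 299 2281 233 1291 267)
 (.a 1 [233] (.d 299 1291 267 2314 398)
 (.a 1 [267] (.d 299 2281 233 2314 398)
 (.a 1 [299] (.r 362 1290 298 (.r 329 328 328 (.d 428 2344 296 2377 461)))
 .e)))))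
 .e)))))
 (.a 1 [365] (.r 397 394 398 (.d 299 1291 267 1323 427))
 .e))))))
 (.a 1 [329] (.q 427 (.a 1 [] (.d 395 1323 299 1355 459)
 (.a 1 [299] (.r 334 330 333 (.d 365 3375 303 3406 458))
 .e)))
 .e))))
 (.a 1 [270] (.d 425 3373 301 3404 456)
 .e)))))
 (.a 1 [297] (.q 425 (.a 1 [] (.d 332 3373 301 3404 456)
 (.a 1 [301] (.d 456 3404 332 3435 487)
 (.a 0 [332,456] (.q 426 (.a 1 [] (.d 362 1322 298 1354 458)
 (.a 1 [298] (.r 458 1354 362 (.r 429 2378 462 (.r 427 425 428 (.d 489 3437 365 3468 520))))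
 (.a 0 [362,458] (.q 427 (.a 1 [] (.d 429 425 428 2378 462)
 (.a 1 [429] (.d 424 423 423 424 428)
 (.a 0 [428] (.q 361 (.a 1 [] (.d 328 2343 295 2376 460)
 (.a 1 [295] (.d 460 2376 328 2409 493)
 (.a 1 [328] (.r 423 423 424 (.d 392 3371 299 3402 454))
 .e))))
 .e))))
 .e))))
 .e))))
 .e))))
 (.a 0 [297] (.q 425 (.a 1 [] (.d 332 3373 301 3404 456)
 (.a 1 [332] (.q 395 (.a 1 [] (.d 393 392 392 393 397)
 (.a 1 [393] (.q 427 (.a 1 [] (.d 331 1323 299 1355 459)
 (.a 1 [299] (.d 459 1355 331 1387 491)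
 (.a 0 [331,459] (.q 426 (.a 1 [] (.d 424 423 423 424 428)
 (.a 1 [423] (.d 428 424 424 425 429)
 (.a 1 [424] (.r 429 425 428 (.d 462 2378 330 2411 495))
 (.a 0 [428] (.q 458 (.a 1 [] (.d 362 1354 330 1386 490)
 (.a 1 [330] (.d 490 1386 362 1418 522)
 (.a 1 [362] (.d 365 3406 334 3437 489)
 .e))))
 .e)))))
 .e))))
 (.a 1 [397] (.q 429 (.a 1 [] (.d 462 2378 330 2411 495)
 (.a 0 [330,462,495] (.q 491 (.a 1 [] (.r 427 1387 459 (.r 428 425 426 (.r 392 392 393 (.d 458 2407 359 2440 524))))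
 (.a 1 [327] (.r 427 1387 459 (.r 392 392 393 (.d 458 2407 359 2440 524)))
 (.a 1 [359] (.r 427 1387 459 (.r 428 425 426 (.r 392 392 393 (.r 458 2440 524 (.d 489 3437 365 3468 520)))))
 (.a 1 [360] (.r 427 1387 459 (.r 392 392 393 (.d 458 2407 359 2440 524)))
 (.a 1 [426] (.r 427 1387 459 (.r 392 392 393 (.d 458 2407 359 2440 524)))
 (.a 1 [427] (.r 392 392 393 (.d 458 2407 359 2440 524))
 (.a 1 [524] (.r 427 1387 459 (.r 428 425 426 (.r 392 392 393 (.r 458 2407 359 (.d 489 3437 365 3468 520)))))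
 (.a 0 [392,393,458] (.q 460 (.a 1 [] (.d 398 3439 367 3470 522)
 (.a 1 [367] (.d 522 3470 398 3501 553)
 (.a 1 [398] (.r 427 1387 459 (.d 493 2409 361 2442 526))
 .e))))
 .e)))))))))
 .e)))
 .e))))
 (.a 1 [456] (.q 395 (.a 1 [] (.d 393 392 392 393 397)
 (.a 1 [393] (.q 427 (.a 1 [] (.d 331 1323 299 1355 459)
 (.a 1 [299] (.d 459 1355 331 1387 491)
 (.a 0 [331,459] (.q 426 (.a 1 [] (.d 424 423 423 424 428)
 (.a 1 [423] (.d 428 424 424 425 429)
 (.a 1 [424] (.r 429 425 428 (.d 462 2378 330 2411 495))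
 (.a 0 [428] (.q 458 (.a 1 [] (.d 362 1354 330 1386 490)
 (.a 1 [330] (.d 490 1386 362 1418 522)
 (.a 1 [362] (.d 365 3406 334 3437 489)
 .e))))
 .e)))))
 .e))))
 (.a 1 [397] (.q 429 (.a 1 [] (.d 462 2378 330 2411 495)
 (.a 0 [330,462,495] (.q 491 (.a 1 [] (.r 427 1387 459 (.r 428 425 426 (.r 392 392 393 (.d 458 2407 359 2440 524))))
 (.a 1 [327] (.r 427 1387 459 (.r 392 392 393 (.d 458 2407 359 2440 524)))
 (.a 1 [359] (.r 427 1387 459 (.r 428 425 426 (.r 392 392 393 (.r 458 2440 524 (.d 489 3437 365 3468 520)))))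
 (.a 1 [360] (.r 427 1387 459 (.r 392 392 393 (.d 458 2407 359 2440 524)))
 (.a 1 [426] (.r 427 1387 459 (.r 392 392 393 (.d 458 2407 359 2440 524)))
 (.a 1 [427] (.r 392 392 393 (.d 458 2407 359 2440 524))
 (.a 1 [524] (.r 427 1387 459 (.r 428 425 426 (.r 392 392 393 (.r 458 2407 359 (.d 489 3437 365 3468 520)))))
 (.a 0 [392,393,458] (.q 460 (.a 1 [] (.d 398 3439 367 3470 522)
 (.a 1 [367] (.d 522 3470 398 3501 553)
 (.a 1 [398] (.r 427 1387 459 (.d 493 2409 361 2442 526))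
 .e))))
 .e)))))))))
 .e)))
 (.a 1 [392] (.d 397 393 393 394 398)
 .e)))))
 (.a 1 [301] (.d 456 3404 332 3435 487)
 .e)))))
 (.a 1 [301] (.q 395 (.a 1 [] (.d 393 392 392 393 397)
 (.a 1 [397] (.q 429 (.a 1 [] (.d 330 2345 297 2378 462)
 (.a 1 [297] (.d 462 2378 330 2411 495)
 (.a 0 [330,462] (.q 425 (.a 1 [] (.d 456 3404 332 3435 487)
 (.a 0 [332,456,487] (.q 491 (.a 1 [] (.r 427 1387 459 (.r 428 425 426 (.r 392 392 393 (.d 458 2407 359 2440 524))))
 (.a 1 [327] (.r 427 1387 459 (.r 392 392 393 (.d 458 2407 359 2440 524)))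
 (.a 1 [359] (.r 427 1387 459 (.r 428 425 426 (.r 392 392 393 (.r 458 2440 524 (.d 489 3437 365 3468 520)))))
 (.a 1 [360] (.r 427 1387 459 (.r 392 392 393 (.d 458 2407 359 2440 524)))
 (.a 1 [426] (.r 427 1387 459 (.r 392 392 393 (.d 458 2407 359 2440 524)))
 (.a 1 [427] (.r 392 392 393 (.d 458 2407 359 2440 524))
 (.a 1 [524] (.r 427 1387 459 (.r 428 425 426 (.r 392 392 393 (.r 458 2407 359 (.d 489 3437 365 3468 520)))))
 (.a 0 [392,393,458] (.q 460 (.a 1 [] (.d 398 3439 367 3470 522)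
 (.a 1 [367] (.d 522 3470 398 3501 553)
 (.a 1 [398] (.r 427 1387 459 (.d 493 2409 361 2442 526))
 .e))))
 .e)))))))))
 .e)))
 .e))))
 (.a 1 [393] (.q 427 (.a 1 [] (.d 331 1323 299 1355 459)
 (.a 1 [299] (.d 459 1355 331 1387 491)
 (.a 0 [331,459] (.q 330 (.a 1 [] (.d 297 2312 264 2345 429)
 (.a 1 [264] (.d 429 2345 297 2378 462)
 (.a 0 [297,429] (.q 361 (.a 1 [] (.d 328 2343 295 2376 460)
 (.a 1 [295] (.d 460 2376 328 2409 493)
 (.a 0 [328,460] (.q 299 (.a 1 [] (.d 268 3309 237 3340 392)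
 (.a 1 [237] (.d 392 3340 268 3371 423)
 (.a 0 [268,392] (.q 365 (.a 1 [] (.d 334 3375 303 3406 458)
 (.a 1 [303] (.d 458 3406 334 3437 489)
 (.a 1 [334] (.r 398 394 397 (.d 332 2314 266 2347 431))
 .e))))
 .e))))
 .e))))
 .e))))
 .e))))
 (.a 1 [392] (.d 397 393 393 394 398)
 .e)))))
 (.a 0 [427] (.q 425 (.a 1 [] (.d 332 3373 301 3404 456)
 (.a 1 [332] (.q 330 (.a 1 [] (.d 297 2312 264 2345 429)
 (.a 1 [297] (.q 393 (.a 1 [] (.d 395 392 392 393 397)
 (.a 0 [392,395,397] (.q 457 (.a 1 [] (.d 361 1353 329 1385 489)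
 (.a 1 [329] (.d 489 1385 361 1417 521)
 (.a 0 [361,489] (.r 456 3435 487 (.q 458 (.a 1 [] (.d 455 454 454 455 459)
 (.a 1 [454] (.d 459 455 455 456 460)
 (.a 1 [455] (.r 426 1354 362 (.r 459 456 460 (.d 492 2408 360 2441 525)))
 (.a 1 [459] (.r 362 1354 426 (.r 455 454 454 (.d 424 3403 331 3434 486)))
 .e))))))
 .e))))
 .e)))
 (.a 1 [429] (.q 426 (.a 1 [] (.d 362 1322 298 1354 458)
 (.a 0 [298,362,458] (.q 393 (.a 1 [] (.d 395 392 392 393 397)
 (.a 1 [397] (.r 392 392 395 (.r 297 2312 264 (.r 361 1321 329 (.d 423 3371 299 3402 454))))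
 (.a 0 [392,395] (.q 327 (.a 1 [] (.d 360 2342 294 2375 459)
 (.a 1 [294] (.r 297 2312 264 (.r 329 1321 361 (.d 328 326 326 327 331)))
 .e)))
 .e))))
 .e)))
 .e))))
 (.a 1 [456] (.q 395 (.a 1 [] (.d 393 392 392 393 397)
 (.a 1 [393] (.q 330 (.a 1 [] (.d 297 2312 264 2345 429)
 (.a 1 [264] (.d 429 2345 297 2378 462)
 (.a 0 [297,429] (.r 332 3373 301 (.q 299 (.a 1 [] (.r 331 1291 267 (.d 333 329 329 330 334))
 (.a 1 [267] (.r 398 394 397 (.d 365 2314 266 2347 431))
 .e))))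
 .e))))
 (.a 1 [397] (.r 392 392 393 (.q 330 (.a 1 [] (.d 297 2312 264 2345 429)
 (.a 1 [264] (.d 429 2345 297 2378 462)
 (.a 0 [297,429] (.q 331 (.a 1 [] (.r 332 3373 301 (.d 333 329 329 330 334))
 (.a 1 [301] (.r 299 1291 267 (.d 361 3340 268 3371 423))
 (.a 1 [333] (.r 299 1291 267 (.d 361 3340 268 3371 423))
 .e))))
 .e)))))
 .e))))
 (.a 1 [301] (.d 456 3404 332 3435 487)
 .e)))))
 (.a 1 [392] (.q 395 (.a 1 [] (.d 397 393 393 394 398)
 (.a 1 [397] (.q 331 (.a 1 [] (.d 299 1291 267 1323 427)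
 (.a 1 [267] (.d 427 1323 299 1355 459)
 (.a 0 [299,427] (.q 330 (.a 1 [] (.d 297 2312 264 2345 429)
 (.a 1 [264] (.d 429 2345 297 2378 462)
 (.a 0 [297,429] (.q 332 (.a 1 [] (.d 329 328 328 329 333)
 (.a 1 [328] (.d 333 329 329 330 334)
 (.a 1 [329] (.d 301 3342 270 3373 425)
 .e))))
 .e))))
 .e))))
 (.a 1 [393] (.q 427 (.a 1 [] (.d 331 1323 299 1355 459)
 (.a 1 [299] (.d 459 1355 331 1387 491)
 (.a 0 [331,459] (.q 425 (.a 1 [] (.d 332 3373 301 3404 456)
 (.a 1 [301] (.d 456 3404 332 3435 487)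
 (.a 0 [332,456] (.q 426 (.a 1 [] (.d 424 423 423 424 428)
 (.a 1 [423] (.d 428 424 424 425 429)
 (.a 1 [424] (.r 429 425 428 (.d 462 2378 330 2411 495))
 (.a 0 [428] (.q 458 (.a 1 [] (.d 362 1354 330 1386 490)
 (.a 1 [330] (.d 490 1386 362 1418 522)
 (.a 1 [362] (.d 365 3406 334 3437 489)
 .e))))
 .e)))))
 .e))))
 .e))))
 .e))))
 (.a 1 [398] (.q 395 (.a 1 [] (.d 393 392 392 393 397)
 (.a 1 [393] (.q 427 (.a 1 [] (.d 331 1323 299 1355 459)
 (.a 1 [299] (.d 459 1355 331 1387 491)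
 (.a 0 [331,459] (.q 425 (.a 1 [] (.d 332 3373 301 3404 456)
 (.a 1 [301] (.d 456 3404 332 3435 487)
 (.a 0 [332,456] (.q 426 (.a 1 [] (.d 424 423 423 424 428)
 (.a 1 [423] (.d 428 424 424 425 429)
 (.a 1 [424] (.r 429 425 428 (.d 462 2378 330 2411 495))
 (.a 0 [428] (.q 458 (.a 1 [] (.d 362 1354 330 1386 490)
 (.a 1 [330] (.d 490 1386 362 1418 522)
 (.a 1 [362] (.d 365 3406 334 3437 489)
 .e))))
 .e)))))
 .e))))
 .e))))
 (.a 1 [397] (.q 331 (.a 1 [] (.d 299 1291 267 1323 427)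
 (.a 1 [267] (.d 427 1323 299 1355 459)
 (.a 0 [299,427] (.q 332 (.a 1 [] (.d 301 3342 270 3373 425)
 (.a 1 [270] (.d 425 3373 301 3404 456)
 (.a 0 [301,425] (.q 330 (.a 1 [] (.d 329 328 328 329 333)
 (.a 1 [328] (.d 333 329 329 330 334)
 (.a 1 [329] (.d 297 2312 264 2345 429)
 .e))))
 .e))))
 .e))))
 .e))))
 (.a 0 [331] (.q 425 (.a 1 [] (.d 332 3373 301 3404 456)
 (.a 1 [332] (.q 330 (.a 1 [] (.d 297 2312 264 2345 429)
 (.a 1 [297] (.q 426 (.a 1 [] (.d 362 1322 298 1354 458)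
 (.a 1 [298] (.r 458 1354 362 (.r 429 2378 462 (.r 427 425 428 (.d 489 3437 365 3468 520))))
 (.a 0 [362,458] (.q 393 (.a 1 [] (.d 395 392 392 393 397)
 (.a 1 [392] (.r 429 2378 462 (.r 427 425 428 (.r 395 393 397 (.r 459 1387 491 (.d 492 2408 360 2441 525)))))
 (.a 1 [397] (.r 392 392 395 (.r 429 2378 462 (.r 427 425 428 (.r 423 423 424 (.d 361 3371 299 3402 454)))))
 (.a 0 [395] (.q 457 (.a 1 [] (.d 361 1353 329 1385 489)
 (.a 1 [329] (.d 489 1385 361 1417 521)
 (.a 0 [361,489] (.q 360 (.a 1 [] (.d 327 2342 294 2375 459)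
 (.a 1 [294] (.d 459 2375 327 2408 492)
 (.a 0 [327,459] (.q 424 (.a 1 [] (.d 423 422 422 423 427)
 (.a 1 [422] (.d 427 423 423 424 428)
 (.a 1 [423] (.r 456 3435 487 (.d 392 1352 328 1384 488))
 .e))))
 .e))))
 .e))))
 .e)))))
 .e))))
 (.a 1 [429] (.q 393 (.a 1 [] (.d 395 392 392 393 397)
 (.a 1 [397] (.r 392 392 395 (.r 297 2312 264 (.r 361 1321 329 (.d 423 3371 299 3402 454))))
 (.a 0 [392,395] (.q 426 (.a 1 [] (.d 362 1322 298 1354 458)
 (.a 1 [298] (.r 458 1354 362 (.r 297 2312 264 (.r 361 1321 329 (.r 489 1385 457 (.d 427 3437 365 3468 520)))))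
 (.a 1 [458] (.r 297 2312 264 (.r 361 1321 329 (.r 362 1322 298 (.r 360 359 359 (.d 459 2375 327 2408 492)))))
 (.a 0 [362] (.q 424 (.a 1 [] (.d 423 422 422 423 427)
 (.a 1 [422] (.d 427 423 423 424 428)
 (.a 0 [423,427] (.q 459 (.a 1 [] (.d 360 2375 327 2408 492)
 (.a 1 [327] (.d 492 2408 360 2441 525)
 (.a 0 [360,492] (.q 457 (.a 1 [] (.d 361 1353 329 1385 489)
 (.a 1 [329] (.d 489 1385 361 1417 521)
 (.a 1 [361] (.r 456 3435 487 (.d 458 455 455 456 460))
 .e))))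
 .e))))
 .e))))
 .e)))))
 .e))))
 .e))))
 (.a 1 [456] (.q 330 (.a 1 [] (.d 297 2312 264 2345 429)
 (.a 1 [297] (.q 397 (.a 1 [] (.d 395 393 393 394 398)
 (.a 0 [393,395,398] (.q 426 (.a 1 [] (.d 362 1322 298 1354 458)
 (.a 1 [298] (.r 458 1354 362 (.r 429 2378 462 (.r 427 425 428 (.d 489 3437 365 3468 520))))
 (.a 1 [362] (.r 429 2378 462 (.r 427 425 428 (.r 301 3373 332 (.r 365 1325 333 (.d 458 3406 334 3437 489)))))
 (.a 1 [458] (.r 429 2378 462 (.r 427 425 428 (.r 301 3373 332 (.r 365 1325 333 (.r 493 1389 461 (.d 460 2409 361 2442 526))))))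
 .e)))))
 .e)))
 (.a 1 [429] (.q 298 (.a 1 [] (.d 362 1290 266 1322 426)
 (.a 0 [266,362,426] (.q 393 (.a 1 [] (.d 395 392 392 393 397)
 (.a 1 [392] (.r 297 2312 264 (.r 361 1321 329 (.r 301 3373 332 (.r 299 297 300 (.r 295 295 296 (.d 328 2310 262 2343 427))))))
 (.a 1 [395] (.r 297 2312 264 (.r 361 1321 329 (.r 301 3373 332 (.r 299 297 300 (.d 392 3340 268 3371 423)))))
 .e))))
 .e)))
 .e))))
 (.a 1 [301] (.d 456 3404 332 3435 487)
 .e)))))
 (.a 1 [426] (.q 395 (.a 1 [] (.d 393 392 392 393 397)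
 (.a 1 [393] (.q 425 (.a 1 [] (.d 332 3373 301 3404 456)
 (.a 1 [301] (.d 456 3404 332 3435 487)
 (.a 0 [332,456] (.q 429 (.a 1 [] (.d 330 2345 297 2378 462)
 (.a 1 [297] (.d 462 2378 330 2411 495)
 (.a 0 [330,462] (.q 491 (.a 1 [] (.r 427 1387 459 (.r 398 394 397 (.d 460 3439 367 3470 522)))
 (.a 1 [327] (.r 398 394 397 (.d 460 3439 367 3470 522))
 (.a 1 [360] (.r 398 394 397 (.d 460 3439 367 3470 522))
 (.a 1 [367] (.r 427 1387 459 (.r 398 394 397 (.r 460 3470 522 (.d 493 2409 361 2442 526))))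
 (.a 1 [459] (.r 398 394 397 (.d 460 3439 367 3470 522))
 (.a 1 [522] (.r 427 1387 459 (.r 398 394 397 (.r 460 3439 367 (.d 493 2409 361 2442 526))))
 (.a 0 [397,398,460] (.q 458 (.a 1 [] (.d 392 2407 359 2440 524)
 (.a 1 [359] (.d 524 2440 392 2473 557)
 (.a 1 [392] (.r 427 1387 459 (.d 489 3437 365 3468 520))
 .e))))
 .e))))))))
 .e))))
 .e))))
 (.a 1 [397] (.q 429 (.a 1 [] (.d 330 2345 297 2378 462)
 (.a 1 [297] (.d 462 2378 330 2411 495)
 (.a 0 [330,462] (.q 425 (.a 1 [] (.d 332 3373 301 3404 456)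
 (.a 1 [301] (.d 456 3404 332 3435 487)
 (.a 0 [332,456] (.q 491 (.a 1 [] (.r 427 1387 459 (.r 392 392 393 (.d 458 2407 359 2440 524)))
 (.a 1 [327] (.r 392 392 393 (.d 458 2407 359 2440 524))
 (.a 1 [359] (.r 427 1387 459 (.r 392 392 393 (.r 458 2440 524 (.d 489 3437 365 3468 520))))
 (.a 1 [360] (.r 392 392 393 (.d 458 2407 359 2440 524))
 (.a 1 [459] (.r 392 392 393 (.d 458 2407 359 2440 524))
 (.a 1 [524] (.r 427 1387 459 (.r 392 392 393 (.r 458 2407 359 (.d 489 3437 365 3468 520))))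
 (.a 0 [392,393,458] (.q 460 (.a 1 [] (.d 398 3439 367 3470 522)
 (.a 1 [367] (.d 522 3470 398 3501 553)
 (.a 1 [398] (.r 427 1387 459 (.d 493 2409 361 2442 526))
 .e))))
 .e))))))))
 .e))))
 .e))))
 (.a 1 [392] (.d 397 393 393 394 398)
 .e)))))
 (.a 1 [365] (.q 395 (.a 1 [] (.d 393 392 392 393 397)
 (.a 1 [397] (.q 429 (.a 1 [] (.d 330 2345 297 2378 462)
 (.a 1 [297] (.d 462 2378 330 2411 495)
 (.a 0 [330,462] (.q 425 (.a 1 [] (.d 332 3373 301 3404 456)
 (.a 1 [301] (.d 456 3404 332 3435 487)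
 (.a 0 [332,456] (.q 491 (.a 1 [] (.r 427 1387 459 (.r 428 425 426 (.r 392 392 393 (.d 458 2407 359 2440 524))))
 (.a 1 [327] (.r 427 1387 459 (.r 392 392 393 (.d 458 2407 359 2440 524)))
 (.a 1 [359] (.r 427 1387 459 (.r 426 425 428 (.r 392 392 393 (.r 458 2440 524 (.d 490 1386 362 1418 522)))))
 (.a 1 [426] (.r 392 392 393 (.d 458 2407 359 2440 524))
 (.a 1 [524] (.r 427 1387 459 (.r 426 425 428 (.r 392 392 393 (.r 458 2407 359 (.d 490 1386 362 1418 522)))))
 (.a 0 [392,393,458] (.q 460 (.a 1 [] (.d 398 3439 367 3470 522)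
 (.a 1 [367] (.d 522 3470 398 3501 553)
 (.a 1 [398] (.r 427 1387 459 (.d 493 2409 361 2442 526))
 .e))))
 .e)))))))
 .e))))
 .e))))
 (.a 1 [393] (.q 427 (.a 1 [] (.d 331 1323 299 1355 459)
 (.a 1 [299] (.d 459 1355 331 1387 491)
 (.a 0 [331,459] (.q 330 (.a 1 [] (.d 297 2312 264 2345 429)
 (.a 1 [264] (.d 429 2345 297 2378 462)
 (.a 0 [297,429] (.q 425 (.a 1 [] (.d 332 3373 301 3404 456)
 (.a 1 [301] (.d 456 3404 332 3435 487)
 (.a 0 [332,456] (.q 426 (.a 1 [] (.d 424 423 423 424 428)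
 (.a 1 [423] (.d 362 1322 298 1354 458)
 .e)))
 .e))))
 .e))))
 .e))))
 .e))))
 (.a 0 [298] (.q 395 (.a 1 [] (.d 393 392 392 393 397)
 (.a 1 [397] (.q 331 (.a 1 [] (.d 299 1291 267 1323 427)
 (.a 1 [427] (.q 330 (.a 1 [] (.d 297 2312 264 2345 429)
 (.a 1 [264] (.d 429 2345 297 2378 462)
 (.a 0 [297,429] (.q 332 (.a 1 [] (.d 329 328 328 329 333)
 (.a 1 [328] (.d 333 329 329 330 334)
 (.a 1 [329] (.d 301 3342 270 3373 425)
 .e))))
 .e))))
 (.a 1 [299] (.q 429 (.a 1 [] (.d 330 2345 297 2378 462)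
 (.a 1 [297] (.d 462 2378 330 2411 495)
 (.a 0 [330,462] (.q 425 (.a 1 [] (.d 332 3373 301 3404 456)
 (.a 1 [301] (.d 456 3404 332 3435 487)
 (.a 0 [332,456] (.q 428 (.a 1 [] (.d 427 425 426 1355 459)
 (.a 0 [426,427,459] (.q 362 (.a 1 [] (.d 329 2344 296 2377 461)
 (.a 1 [296] (.d 461 2377 329 2410 494)
 (.a 1 [329] (.r 393 392 392 (.d 424 3372 300 3403 455))
 .e))))
 .e)))
 .e))))
 .e))))
 (.a 1 [267] (.d 427 1323 299 1355 459)
 .e)))))
 (.a 1 [393] (.q 331 (.a 1 [] (.d 299 1291 267 1323 427)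
 (.a 1 [427] (.q 330 (.a 1 [] (.d 297 2312 264 2345 429)
 (.a 1 [264] (.d 429 2345 297 2378 462)
 (.a 0 [297,429] (.q 332 (.a 1 [] (.d 329 328 328 329 333)
 (.a 1 [328] (.d 333 329 329 330 334)
 (.a 1 [329] (.d 301 3342 270 3373 425)
 .e))))
 .e))))
 (.a 1 [299] (.q 429 (.a 1 [] (.d 330 2345 297 2378 462)
 (.a 1 [297] (.d 462 2378 330 2411 495)
 (.a 0 [330,462] (.q 301 (.a 1 [] (.d 332 3342 270 3373 425)
 (.a 1 [270] (.r 397 394 398 (.r 365 1325 333 (.r 427 1355 459 (.d 458 3406 334 3437 489))))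
 .e)))
 .e))))
 .e))))
 (.a 1 [392] (.d 397 393 393 394 398)
 .e)))))
 (.a 0 [299] (.q 330 (.a 1 [] (.d 297 2312 264 2345 429)
 (.a 1 [429] (.q 395 (.a 1 [] (.d 393 392 392 393 397)
 (.a 1 [397] (.q 425 (.a 1 [] (.d 332 3373 301 3404 456)
 (.a 1 [301] (.d 456 3404 332 3435 487)
 (.a 0 [332,456] (.q 426 (.a 1 [] (.d 362 1322 298 1354 458)
 (.a 1 [298] (.r 458 1354 362 (.r 392 392 393 (.d 491 2407 359 2440 524)))
 (.a 0 [362,458] (.q 427 (.a 1 [] (.d 424 423 423 424 428)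
 (.a 1 [423] (.d 459 1355 331 1387 491)
 .e)))
 .e))))
 .e))))
 (.a 1 [393] (.q 362 (.a 1 [] (.d 298 1290 266 1322 426)
 (.a 1 [266] (.d 426 1322 298 1354 458)
 (.a 0 [298,426] (.q 428 (.a 1 [] (.d 329 2344 296 2377 461)
 (.a 1 [296] (.d 461 2377 329 2410 494)
 (.a 0 [329,461] (.q 459 (.a 1 [] (.d 427 1355 331 1387 491)
 (.a 1 [331] (.r 397 394 398 (.d 490 3438 366 3469 521))
 .e)))
 .e))))
 .e))))
 .e))))
 (.a 1 [297] (.q 395 (.a 1 [] (.d 393 392 392 393 397)
 (.a 1 [392] (.d 397 393 393 394 398)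
 (.a 0 [393,397] (.q 425 (.a 1 [] (.d 332 3373 301 3404 456)
 (.a 1 [301] (.d 456 3404 332 3435 487)
 (.a 0 [332,456] (.q 427 (.a 1 [] (.d 459 1355 331 1387 491)
 (.a 1 [331] (.r 429 2378 462 (.r 426 425 428 (.d 362 1322 298 1354 458)))
 .e)))
 .e))))
 .e))))
 .e))))
 (.a 1 [333] (.q 330 (.a 1 [] (.d 297 2312 264 2345 429)
 (.a 1 [429] (.q 426 (.a 1 [] (.d 362 1322 298 1354 458)
 (.a 0 [298,362,458] (.q 425 (.a 1 [] (.d 332 3373 301 3404 456)
 (.a 1 [301] (.d 456 3404 332 3435 487)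
 (.a 0 [332,456] (.q 427 (.a 1 [] (.d 424 423 423 424 428)
 (.a 0 [423,424,428] (.q 395 (.a 1 [] (.d 393 392 392 393 397)
 (.a 1 [392] (.d 397 393 393 394 398)
 (.a 1 [393] (.d 331 1323 299 1355 459)
 .e))))
 .e)))
 .e))))
 .e)))
 (.a 1 [297] (.q 395 (.a 1 [] (.d 393 392 392 393 397)
 (.a 1 [392] (.d 397 393 393 394 398)
 (.a 0 [393,397] (.q 331 (.a 1 [] (.d 299 1291 267 1323 427)
 (.a 1 [267] (.d 427 1323 299 1355 459)
 (.a 0 [299,427] (.q 329 (.a 1 [] (.d 328 327 327 328 332)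
 (.a 1 [327] (.r 332 328 328 (.d 301 3342 270 3373 425))
 (.a 0 [328,332] (.q 362 (.a 1 [] (.d 298 1290 266 1322 426)
 (.a 1 [266] (.d 426 1322 298 1354 458)
 (.a 1 [298] (.d 296 2311 263 2344 428)
 .e))))
 .e))))
 .e))))
 .e))))
 .e))))
 (.a 0 [430] (.q 429 (.a 1 [] (.d 330 2345 297 2378 462)
 (.a 1 [330] (.q 397 (.a 1 [] (.d 395 393 393 394 398)
 (.a 1 [395] (.q 332 (.a 1 [] (.d 301 3342 270 3373 425)
 (.a 1 [270] (.d 425 3373 301 3404 456)
 (.a 0 [301,425] (.q 493 (.a 1 [] (.d 461 1389 365 1421 525)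
 (.a 0 [365,461,525] (.q 460 (.a 1 [] (.d 427 2409 361 2442 526)
 (.a 0 [361,427,526] (.q 400 (.a 1 [] (.r 398 396 399 (.d 491 3439 367 3470 522))
 (.a 1 [337] (.r 462 2411 495 (.d 431 3441 369 3472 524))
 (.a 1 [368] (.r 462 2411 495 (.d 431 3441 369 3472 524))
 (.a 1 [399] (.r 462 2411 495 (.d 431 3441 369 3472 524))
 .e)))))
 .e)))
 .e)))
 .e))))
 (.a 1 [398] (.q 365 (.a 1 [] (.d 333 1325 301 1357 461)
 (.a 1 [301] (.d 461 1357 333 1389 493)
 (.a 1 [461] (.r 301 1325 333 (.d 332 3342 270 3373 425))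
 (.a 0 [333] (.q 427 (.a 1 [] (.d 334 3375 303 3406 458)
 (.a 1 [303] (.d 458 3406 334 3437 489)
 (.a 1 [334] (.r 395 393 393 (.d 459 1355 331 1387 491))
 .e))))
 .e)))))
 (.a 1 [393] (.q 365 (.a 1 [] (.d 333 1325 301 1357 461)
 (.a 1 [301] (.d 461 1357 333 1389 493)
 (.a 1 [461] (.r 398 394 395 (.r 301 1325 333 (.d 332 3342 270 3373 425)))
 (.a 0 [333] (.q 332 (.a 1 [] (.d 301 3342 270 3373 425)
 (.a 1 [270] (.d 425 3373 301 3404 456)
 (.a 1 [301] (.r 398 394 395 (.d 431 2347 299 2380 464))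
 .e))))
 .e)))))
 .e)))))
 (.a 1 [462] (.q 425 (.a 1 [] (.d 332 3373 301 3404 456)
 (.a 1 [301] (.d 456 3404 332 3435 487)
 (.a 0 [332,456] (.q 427 (.a 1 [] (.r 426 425 428 (.r 330 2345 297 (.d 362 1322 298 1354 458)))
 (.a 1 [298] (.r 426 425 428 (.r 330 2345 297 (.r 458 1354 362 (.d 489 3437 365 3468 520))))
 (.a 0 [297,330,362,426,428,458] (.q 395 (.a 1 [] (.d 393 392 392 393 397)
 (.a 1 [392] (.d 397 393 393 394 398)
 (.a 1 [393] (.d 331 1323 299 1355 459)
 .e))))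
 .e))))
 .e))))
 (.a 1 [297] (.d 462 2378 330 2411 495)
 .e)))))
 (.a 1 [428] (.q 395 (.a 1 [] (.d 393 392 392 393 397)
 (.a 1 [397] (.q 429 (.a 1 [] (.d 330 2345 297 2378 462)
 (.a 1 [297] (.d 462 2378 330 2411 495)
 (.a 0 [330,462] (.q 425 (.a 1 [] (.d 332 3373 301 3404 456)
 (.a 1 [301] (.d 456 3404 332 3435 487)
 (.a 0 [332,456] (.q 491 (.a 1 [] (.r 427 1387 459 (.r 392 392 393 (.d 458 2407 359 2440 524)))
 (.a 1 [335] (.r 392 392 393 (.d 458 2407 359 2440 524))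
 (.a 1 [359] (.r 427 1387 459 (.r 392 392 393 (.r 458 2440 524 (.d 489 3437 365 3468 520))))
 (.a 1 [366] (.r 392 392 393 (.d 458 2407 359 2440 524))
 (.a 1 [459] (.r 392 392 393 (.d 458 2407 359 2440 524))
 (.a 1 [524] (.r 427 1387 459 (.r 392 392 393 (.r 458 2407 359 (.d 489 3437 365 3468 520))))
 (.a 0 [392,393,458] (.q 460 (.a 1 [] (.d 398 3439 367 3470 522)
 (.a 1 [367] (.d 522 3470 398 3501 553)
 (.a 1 [398] (.r 427 1387 459 (.d 493 2409 361 2442 526))
 .e))))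
 .e))))))))
 .e))))
 .e))))
 (.a 1 [393] (.q 427 (.a 1 [] (.d 331 1323 299 1355 459)
 (.a 1 [299] (.d 459 1355 331 1387 491)
 (.a 0 [331,459] (.q 458 (.a 1 [] (.d 365 3406 334 3437 489)
 (.a 1 [334] (.d 489 3437 365 3468 520)
 (.a 0 [365,489] (.q 425 (.a 1 [] (.d 332 3373 301 3404 456)
 (.a 1 [301] (.d 456 3404 332 3435 487)
 (.a 0 [332,456] (.q 330 (.a 1 [] (.d 297 2312 264 2345 429)
 (.a 1 [264] (.d 429 2345 297 2378 462)
 (.a 0 [297,429] (.q 361 (.a 1 [] (.d 328 2343 295 2376 460)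
 (.a 1 [295] (.d 460 2376 328 2409 493)
 (.a 0 [328,460] (.q 392 (.a 1 [] (.d 359 2374 326 2407 491)
 (.a 1 [326] (.d 423 3371 299 3402 454)
 .e)))
 .e))))
 .e))))
 .e))))
 .e))))
 .e))))
 (.a 1 [392] (.d 397 393 393 394 398)
 .e)))))
 (.a 1 [463] (.q 425 (.a 1 [] (.d 332 3373 301 3404 456)
 (.a 1 [332] (.q 330 (.a 1 [] (.d 297 2312 264 2345 429)
 (.a 1 [264] (.d 429 2345 297 2378 462)
 (.a 0 [297,429] (.q 426 (.a 1 [] (.d 362 1322 298 1354 458)
 (.a 0 [298,362,458] (.q 427 (.a 1 [] (.d 424 423 423 424 428)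
 (.a 0 [423,424,428] (.q 395 (.a 1 [] (.d 393 392 392 393 397)
 (.a 1 [392] (.d 397 393 393 394 398)
 (.a 1 [393] (.d 331 1323 299 1355 459)
 .e))))
 .e)))
 .e)))
 .e))))
 (.a 1 [456] (.q 330 (.a 1 [] (.d 297 2312 264 2345 429)
 (.a 1 [264] (.d 429 2345 297 2378 462)
 (.a 0 [297,429] (.q 426 (.a 1 [] (.d 362 1322 298 1354 458)
 (.a 0 [298,362,458] (.q 427 (.a 1 [] (.d 424 423 423 424 428)
 (.a 0 [423,424,428] (.q 395 (.a 1 [] (.d 393 392 392 393 397)
 (.a 1 [392] (.d 397 393 393 394 398)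
 (.a 1 [393] (.d 331 1323 299 1355 459)
 .e))))
 .e)))
 .e)))
 .e))))
 (.a 1 [301] (.d 456 3404 332 3435 487)
 .e)))))
 (.a 1 [496] (.q 425 (.a 1 [] (.d 332 3373 301 3404 456)
 (.a 1 [332] (.q 330 (.a 1 [] (.d 297 2312 264 2345 429)
 (.a 1 [264] (.d 429 2345 297 2378 462)
 (.a 0 [297,429] (.q 426 (.a 1 [] (.d 362 1322 298 1354 458)
 (.a 0 [298,362,458] (.q 427 (.a 1 [] (.d 424 423 423 424 428)
 (.a 0 [423,424,428] (.q 395 (.a 1 [] (.d 393 392 392 393 397)
 (.a 1 [392] (.d 397 393 393 394 398)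
 (.a 1 [393] (.d 331 1323 299 1355 459)
 .e))))
 .e)))
 .e)))
 .e))))
 (.a 1 [456] (.q 330 (.a 1 [] (.d 297 2312 264 2345 429)
 (.a 1 [264] (.d 429 2345 297 2378 462)
 (.a 0 [297,429] (.q 426 (.a 1 [] (.d 362 1322 298 1354 458)
 (.a 0 [298,362,458] (.q 427 (.a 1 [] (.d 424 423 423 424 428)
 (.a 0 [423,424,428] (.q 395 (.a 1 [] (.d 393 392 392 393 397)
 (.a 1 [392] (.d 397 393 393 394 398)
 (.a 1 [393] (.d 331 1323 299 1355 459)
 .e))))
 .e)))
 .e)))
 .e))))
 (.a 1 [301] (.d 456 3404 332 3435 487)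
 .e)))))
 (.a 1 [300] (.q 330 (.a 1 [] (.d 297 2312 264 2345 429)
 (.a 1 [297] (.q 395 (.a 1 [] (.d 393 392 392 393 397)
 (.a 1 [392] (.d 397 393 393 394 398)
 (.a 0 [393,397] (.q 331 (.a 1 [] (.d 299 1291 267 1323 427)
 (.a 1 [267] (.d 427 1323 299 1355 459)
 (.a 0 [299,427] (.q 298 (.a 1 [] (.d 362 1290 266 1322 426)
 (.a 0 [266,362,426] (.q 332 (.a 1 [] (.d 329 328 328 329 333)
 (.a 1 [328] (.d 333 329 329 330 334)
 (.a 1 [329] (.d 301 3342 270 3373 425)
 .e))))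
 .e)))
 .e))))
 .e))))
 (.a 1 [429] (.q 395 (.a 1 [] (.d 393 392 392 393 397)
 (.a 1 [392] (.d 397 393 393 394 398)
 (.a 0 [393,397] (.q 331 (.a 1 [] (.d 299 1291 267 1323 427)
 (.a 1 [267] (.d 427 1323 299 1355 459)
 (.a 0 [299,427] (.q 332 (.a 1 [] (.d 329 328 328 329 333)
 (.a 1 [328] (.d 333 329 329 330 334)
 (.a 1 [329] (.d 301 3342 270 3373 425)
 .e))))
 .e))))
 .e))))
 .e))))
 (.a 1 [329] (.q 395 (.a 1 [] (.d 393 392 392 393 397)
 (.a 1 [397] (.q 331 (.a 1 [] (.d 299 1291 267 1323 427)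
 (.a 1 [267] (.d 427 1323 299 1355 459)
 (.a 0 [299,427] (.q 330 (.a 1 [] (.d 297 2312 264 2345 429)
 (.a 1 [264] (.d 429 2345 297 2378 462)
 (.a 0 [297,429] (.q 362 (.a 1 [] (.d 298 1290 266 1322 426)
 (.a 1 [266] (.d 426 1322 298 1354 458)
 (.a 1 [298] (.r 393 392 392 (.d 424 3372 300 3403 455))
 .e))))
 .e))))
 .e))))
 (.a 1 [393] (.q 427 (.a 1 [] (.d 331 1323 299 1355 459)
 (.a 1 [299] (.d 459 1355 331 1387 491)
 (.a 0 [331,459] (.q 330 (.a 1 [] (.d 297 2312 264 2345 429)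
 (.a 1 [264] (.d 429 2345 297 2378 462)
 (.a 0 [297,429] (.q 361 (.a 1 [] (.d 328 2343 295 2376 460)
 (.a 1 [295] (.d 460 2376 328 2409 493)
 (.a 0 [328,460] (.q 458 (.a 1 [] (.d 365 3406 334 3437 489)
 (.a 1 [334] (.d 489 3437 365 3468 520)
 (.a 0 [365,489] (.q 425 (.a 1 [] (.d 332 3373 301 3404 456)
 (.a 1 [301] (.d 456 3404 332 3435 487)
 (.a 1 [332] (.r 426 1354 362 (.d 424 423 423 424 428))
 .e))))
 .e))))
 .e))))
 .e))))
 .e))))
 .e))))
 (.a 1 [462] (.q 395 (.a 1 [] (.d 393 392 392 393 397)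
 (.a 1 [392] (.d 397 393 393 394 398)
 (.a 0 [393,397] (.q 331 (.a 1 [] (.d 299 1291 267 1323 427)
 (.a 1 [267] (.d 427 1323 299 1355 459)
 (.a 0 [299,427] (.q 332 (.a 1 [] (.d 301 3342 270 3373 425)
 (.a 1 [270] (.d 425 3373 301 3404 456)
 (.a 0 [301,425] (.q 330 (.a 1 [] (.d 329 328 328 329 333)
 (.a 1 [328] (.d 333 329 329 330 334)
 (.a 1 [329] (.d 297 2312 264 2345 429)
 .e))))
 .e))))
 .e))))
 .e))))
 (.a 1 [264] (.q 395 (.a 1 [] (.d 393 392 392 393 397)
 (.a 1 [392] (.d 397 393 393 394 398)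
 (.a 0 [393,397] (.q 331 (.a 1 [] (.d 299 1291 267 1323 427)
 (.a 1 [267] (.d 427 1323 299 1355 459)
 (.a 0 [299,427] (.q 332 (.a 1 [] (.d 301 3342 270 3373 425)
 (.a 1 [270] (.d 425 3373 301 3404 456)
 (.a 0 [301,425] (.q 330 (.a 1 [] (.d 329 328 328 329 333)
 (.a 1 [328] (.d 333 329 329 330 334)
 (.a 1 [329] (.d 429 2345 297 2378 462)
 .e))))
 .e))))
 .e))))
 .e))))
 (.a 1 [270] (.q 395 (.a 1 [] (.d 393 392 392 393 397)
 (.a 1 [392] (.d 397 393 393 394 398)
 (.a 0 [393,397] (.q 331 (.a 1 [] (.d 299 1291 267 1323 427)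
 (.a 1 [267] (.d 427 1323 299 1355 459)
 (.a 0 [299,427] (.q 330 (.a 1 [] (.d 297 2312 264 2345 429)
 (.a 1 [264] (.d 429 2345 297 2378 462)
 (.a 0 [297,429] (.q 332 (.a 1 [] (.d 329 328 328 329 333)
 (.a 1 [328] (.d 333 329 329 330 334)
 (.a 1 [329] (.d 425 3373 301 3404 456)
 .e))))
 .e))))
 .e))))
 .e))))
 (.a 1 [361] (.q 395 (.a 1 [] (.d 393 392 392 393 397)
 (.a 1 [392] (.d 397 393 393 394 398)
 (.a 0 [393,397] (.q 331 (.a 1 [] (.d 299 1291 267 1323 427)
 (.a 1 [267] (.d 427 1323 299 1355 459)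
 (.a 0 [299,427] (.q 330 (.a 1 [] (.d 297 2312 264 2345 429)
 (.a 1 [264] (.d 429 2345 297 2378 462)
 (.a 0 [297,429] (.q 329 (.a 1 [] (.d 328 327 327 328 332)
 (.a 1 [327] (.d 332 328 328 329 333)
 (.a 1 [328] (.r 332 329 333 (.d 425 3373 301 3404 456))
 (.a 0 [332] (.q 362 (.a 1 [] (.d 298 1290 266 1322 426)
 (.a 1 [266] (.d 426 1322 298 1354 458)
 (.a 1 [298] (.d 296 2311 263 2344 428)
 .e))))
 .e)))))
 .e))))
 .e))))
 .e))))
 (.a 1 [328] (.q 395 (.a 1 [] (.d 393 392 392 393 397)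
 (.a 1 [392] (.d 397 393 393 394 398)
 (.a 0 [393,397] (.q 331 (.a 1 [] (.d 299 1291 267 1323 427)
 (.a 1 [267] (.d 427 1323 299 1355 459)
 (.a 0 [299,427] (.q 330 (.a 1 [] (.d 297 2312 264 2345 429)
 (.a 1 [264] (.d 429 2345 297 2378 462)
 (.a 0 [297,429] (.q 332 (.a 1 [] (.d 333 329 329 330 334)
 (.a 1 [329] (.d 425 3373 301 3404 456)
 .e)))
 .e))))
 .e))))
 .e))))
 (.a 1 [267] (.q 395 (.a 1 [] (.d 393 392 392 393 397)
 (.a 1 [392] (.d 397 393 393 394 398)
 (.a 0 [393,397] (.q 330 (.a 1 [] (.d 297 2312 264 2345 429)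
 (.a 1 [264] (.d 429 2345 297 2378 462)
 (.a 0 [297,429] (.q 331 (.a 1 [] (.d 427 1323 299 1355 459)
 (.a 0 [299,427,459] (.q 332 (.a 1 [] (.d 329 328 328 329 333)
 (.a 1 [328] (.d 333 329 329 330 334)
 (.a 1 [329] (.d 301 3342 270 3373 425)
 .e))))
 .e)))
 .e))))
 .e))))
 (.a 1 [459] (.q 395 (.a 1 [] (.d 393 392 392 393 397)
 (.a 1 [392] (.d 397 393 393 394 398)
 (.a 0 [393,397] (.q 330 (.a 1 [] (.d 297 2312 264 2345 429)
 (.a 1 [264] (.d 429 2345 297 2378 462)
 (.a 0 [297,429] (.q 331 (.a 1 [] (.d 299 1291 267 1323 427)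
 (.a 0 [267,299,427] (.q 332 (.a 1 [] (.d 329 328 328 329 333)
 (.a 1 [328] (.d 333 329 329 330 334)
 (.a 1 [329] (.d 301 3342 270 3373 425)
 .e))))
 .e)))
 .e))))
 .e))))
 .e))))))))))))))))))))))))))))))))) (by decide +kernel)

theorem all : RT X2 628 (496 :: 500 :: 504 :: 529 :: 532 :: 535 :: 562 :: 564 :: 566 :: 595 :: 596 :: 597 :: 624 :: 625 :: 626 :: 627 :: 629 :: 630 :: 631 :: 632 :: 659 :: 660 :: 661 :: 690 :: 692 :: 694 :: 721 :: 724 :: 727 :: 752 :: 756 :: 760 :: 364 :: []) := ⟨r496, r500, r504, r529, r532, r535, r562, r564, r566, r595, r596, r597, r624, r625, r626, r627, r629, r630, r631, r632, r659, r660, r661, r690, r692, r694, r721, r724, r727, r752, r756, r760, r364, trivial⟩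

end Pool.Agent.H94.Five.Mid.K9_8_0
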