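import Pool.Agent.H94.Five.Mid.Fam

set_option autoImplicit false
set_option linter.all false
set_option maxRecDepth 100000

/-! Second has the cell (9, 9): some of the other stones. -/

namespace Pool.Agent.H94.Five.Mid.K9_9_0

open Pool.Agent.H79.Five Pool.Agent.H10.Five Pool.Agent.H94.Five.M

abbrev nl : List Ent := [n0, n3, n4, n6, n8, n9, n10, n11, n16, n17, n21, n22]

theorem nl_ok : AC XB M0 nl := .cons n0k <| .cons n3k <| .cons n4k <| .cons n6k <| .cons n8k <| .cons n9k <| .cons n10k <| .cons n11k <| .cons n16k <| .cons n17k <| .cons n21k <| .cons n22k <| .nil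

abbrev fl : List Ent := (x73 :: x103 :: x130 :: x167 :: x174 :: x183 :: x201 :: x204 :: x245 :: x255 :: x258 :: x266 :: x276 :: x277 :: x310 :: x316 :: x328 :: x357 :: x364 :: x371 :: x375 :: x383 :: x390 :: x420 :: x424 :: x427 :: x437 :: x451 :: x501 :: [])

theorem fl_ok : AC XB M0 fl := .cons x73k <| .cons x103k <| .cons x130k <| .cons x167k <| .cons x174k <| .cons x183k <| .cons x201k <| .cons x204k <| .cons x245k <| .cons x255k <| .cons x258k <| .cons x266k <| .cons x276k <| .cons x277k <| .cons x310k <| .cons x316k <| .cons x328k <| .cons x357k <| .cons x364k <| .cons x371k <| .cons x375k <| .cons x383k <| .cons x390k <| .cons x420k <| .cons x424k <| .cons x427k <| .cons x437k <| .cons x451k <| .cons x501k <| .nil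

theorem v5_2264 : VW (PX [] [528,660]) := VW.of base nl_ok fl_ok .nil
  [(561, (.cons 594 627 (.cons 462 495 .nil (.cons 495 462 .nil .nil)) (.cons 627 594 .nil .nil))), (594, (.cons 561 627 (.cons 462 495 .nil (.cons 495 462 .nil .nil)) (.cons 627 561 (.cons 693 726 .nil (.cons 726 693 .nil .nil)) .nil))), (627, (.cons 561 594 .nil (.cons 594 561 (.cons 693 726 .nil (.cons 726 693 .nil .nil)) .nil)))]
  []
  (by decide +kernel) trivial

theorem v5_1358 : VW (PX [] [532,660]) := VW.of base nl_ok fl_ok .nil
  [(564, (.cons 596 628 (.cons 468 500 .nil (.cons 500 468 .nil .nil)) (.cons 628 596 .nil .nil))), (596, (.cons 564 628 (.cons 468 500 .nil (.cons 500 468 .nil .nil)) (.cons 628 564 (.cons 692 724 .nil (.cons 724 692 .nil .nil)) .nil))), (628, (.cons 564 596 .nil (.cons 596 564 (.cons 692 724 .nil (.cons 724 692 .nil .nil)) .nil)))]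
  []
  (by decide +kernel) trivial

theorem v5_2265 : VW (PX [] [536,660]) := VW.of base nl_ok fl_ok .nil
  [(567, (.cons 598 629 (.cons 474 505 .nil (.cons 505 474 .nil .nil)) (.cons 629 598 .nil .nil))), (598, (.cons 567 629 (.cons 474 505 .nil (.cons 505 474 .nil .nil)) (.cons 629 567 (.cons 691 722 .nil (.cons 722 691 .nil .nil)) .nil))), (629, (.cons 567 598 .nil (.cons 598 567 (.cons 691 722 .nil (.cons 722 691 .nil .nil)) .nil)))]
  []
  (by decide +kernel) trivial

theorem v5_2269 : VW (PX [627] [561,594,660]) := VW.of base nl_ok fl_ok .nil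
  [(462, (.cons 495 528 .nil (.cons 528 495 .nil .nil))), (495, (.cons 462 528 .nil (.cons 528 462 .nil .nil))), (528, (.cons 462 495 .nil (.cons 495 462 .nil .nil)))]
  []
  (by decide +kernel) trivial

theorem v5_2284 : VW (PX [594] [561,627,660]) := VW.of base nl_ok fl_ok .nil
  [(693, (.cons 726 759 .nil (.cons 759 726 .nil .nil))), (726, (.cons 693 759 .nil (.cons 759 693 .nil .nil))), (759, (.cons 693 726 .nil (.cons 726 693 .nil .nil)))]
  []
  (by decide +kernel) trivial

theorem w5_2285_594 : S (PX [] [561,594,660]) := VW.play 627 (PX [627] [561,594,660]) (by decide +kernel) v5_2269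

theorem w5_2285_627 : S (PX [] [561,627,660]) := VW.play 594 (PX [594] [561,627,660]) (by decide +kernel) v5_2284

theorem v5_2285 : VW (PX [] [561,660]) := VW.of base nl_ok fl_ok .nil
  [(528, (.cons 594 627 (.cons 462 495 .nil (.cons 495 462 .nil .nil)) (.cons 627 594 .nil .nil))), (693, (.cons 594 627 .nil (.cons 627 594 (.cons 726 759 .nil (.cons 759 726 .nil .nil)) .nil)))]
  [([594], (PX [] [561,594,660])), ([627], (PX [] [561,627,660]))]
  (by decide +kernel) ⟨w5_2285_594, w5_2285_627, trivial⟩

theorem v5_1588 : VW (PX [628] [564,596,660]) := VW.of base nl_ok fl_ok .nil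
  [(468, (.cons 500 532 .nil (.cons 532 500 .nil .nil))), (500, (.cons 468 532 .nil (.cons 532 468 .nil .nil))), (532, (.cons 468 500 .nil (.cons 500 468 .nil .nil)))]
  []
  (by decide +kernel) trivial

theorem v5_1642 : VW (PX [596] [564,628,660]) := VW.of base nl_ok fl_ok .nil
  [(692, (.cons 724 756 .nil (.cons 756 724 .nil .nil))), (724, (.cons 692 756 .nil (.cons 756 692 .nil .nil))), (756, (.cons 692 724 .nil (.cons 724 692 .nil .nil)))]
  []
  (by decide +kernel) trivial

theorem w5_1651_596 : S (PX [] [564,596,660]) := VW.play 628 (PX [628] [564,596,660]) (by decide +kernel) v5_1588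

theorem w5_1651_628 : S (PX [] [564,628,660]) := VW.play 596 (PX [596] [564,628,660]) (by decide +kernel) v5_1642

theorem v5_1651 : VW (PX [] [564,660]) := VW.of base nl_ok fl_ok .nil
  [(532, (.cons 596 628 (.cons 468 500 .nil (.cons 500 468 .nil .nil)) (.cons 628 596 .nil .nil))), (692, (.cons 596 628 .nil (.cons 628 596 (.cons 724 756 .nil (.cons 756 724 .nil .nil)) .nil)))]
  [([596], (PX [] [564,596,660])), ([628], (PX [] [564,628,660]))]
  (by decide +kernel) ⟨w5_1651_596, w5_1651_628, trivial⟩

theorem v5_2289 : VW (PX [629] [567,598,660]) := VW.of base nl_ok fl_ok .nil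
  [(474, (.cons 505 536 .nil (.cons 536 505 .nil .nil))), (505, (.cons 474 536 .nil (.cons 536 474 .nil .nil))), (536, (.cons 474 505 .nil (.cons 505 474 .nil .nil)))]
  []
  (by decide +kernel) trivial

theorem v5_2304 : VW (PX [598] [567,629,660]) := VW.of base nl_ok fl_ok .nil
  [(691, (.cons 722 753 .nil (.cons 753 722 .nil .nil))), (722, (.cons 691 753 .nil (.cons 753 691 .nil .nil))), (753, (.cons 691 722 .nil (.cons 722 691 .nil .nil)))]
  []
  (by decide +kernel) trivial

theorem w5_2307_598 : S (PX [] [567,598,660]) := VW.play 629 (PX [629] [567,598,660]) (by decide +kernel) v5_2289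

theorem w5_2307_629 : S (PX [] [567,629,660]) := VW.play 598 (PX [598] [567,629,660]) (by decide +kernel) v5_2304

theorem v5_2307 : VW (PX [] [567,660]) := VW.of base nl_ok fl_ok .nil
  [(536, (.cons 598 629 (.cons 474 505 .nil (.cons 505 474 .nil .nil)) (.cons 629 598 .nil .nil))), (691, (.cons 598 629 .nil (.cons 629 598 (.cons 722 753 .nil (.cons 753 722 .nil .nil)) .nil)))]
  [([598], (PX [] [567,598,660])), ([629], (PX [] [567,629,660]))]
  (by decide +kernel) ⟨w5_2307_598, w5_2307_629, trivial⟩

theorem v5_2308 : VW (PX [561,726] [594,627,660,693]) := VW.of base nl_ok fl_ok .nil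
  []
  []
  (by decide +kernel) trivial

theorem v5_2309 : VW (PX [561,693] [594,627,660,726]) := VW.of base nl_ok fl_ok .nil
  []
  []
  (by decide +kernel) trivial

theorem w5_2310_693 : S (PX [561] [594,627,660,693]) := VW.play 726 (PX [561,726] [594,627,660,693]) (by decide +kernel) v5_2308

theorem w5_2310_726 : S (PX [561] [594,627,660,726]) := VW.play 693 (PX [561,693] [594,627,660,726]) (by decide +kernel) v5_2309

theorem v5_2310 : VW (PX [561] [594,627,660]) := VW.of base nl_ok fl_ok (.cons 693 726 .nil (.cons 726 693 .nil .nil))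
  [(759, (.cons 693 726 .nil (.cons 726 693 .nil .nil))), (792, (.cons 693 726 .nil (.cons 726 693 .nil .nil))), (825, (.cons 693 726 .nil (.cons 726 693 .nil .nil)))]
  [([693], (PX [561] [594,627,660,693])), ([726], (PX [561] [594,627,660,726]))]
  (by decide +kernel) ⟨w5_2310_693, w5_2310_726, trivial⟩

theorem v5_2325 : VW (PX [627] [594,660,693]) := VW.of base nl_ok fl_ok .nil
  [(726, (.cons 759 792 .nil (.cons 792 759 .nil .nil))), (759, (.cons 726 792 .nil (.cons 792 726 .nil .nil))), (792, (.cons 726 759 .nil (.cons 759 726 .nil .nil)))]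
  []
  (by decide +kernel) trivial

theorem w5_2326_561 : S (PX [] [561,594,660]) := VW.play 627 (PX [627] [561,594,660]) (by decide +kernel) v5_2269

theorem w5_2326_627 : S (PX [] [594,627,660]) := VW.play 561 (PX [561] [594,627,660]) (by decide +kernel) v5_2310

theorem w5_2326_693 : S (PX [] [594,660,693]) := VW.play 627 (PX [627] [594,660,693]) (by decide +kernel) v5_2325

theorem v5_2326 : VW (PX [] [594,660]) := VW.of base nl_ok fl_ok .nil
  [(528, (.cons 561 627 (.cons 462 495 .nil (.cons 495 462 .nil .nil)) (.cons 627 561 (.cons 693 726 .nil (.cons 726 693 .nil .nil)) .nil))), (726, (.cons 627 693 (.cons 528 561 .nil (.cons 561 528 .nil .nil)) (.cons 693 627 (.cons 759 792 .nil (.cons 792 759 .nil .nil)) .nil)))]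
  [([561], (PX [] [561,594,660])), ([627], (PX [] [594,627,660])), ([693], (PX [] [594,660,693]))]
  (by decide +kernel) ⟨w5_2326_561, w5_2326_627, w5_2326_693, trivial⟩

theorem v5_1886 : VW (PX [564,724] [596,628,660,692]) := VW.of base nl_ok fl_ok .nil
  []
  []
  (by decide +kernel) trivial

theorem v5_1887 : VW (PX [564,692] [596,628,660,724]) := VW.of base nl_ok fl_ok .nil
  []
  []
  (by decide +kernel) trivial

theorem w5_1888_692 : S (PX [564] [596,628,660,692]) := VW.play 724 (PX [564,724] [596,628,660,692]) (by decide +kernel) v5_1886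

theorem w5_1888_724 : S (PX [564] [596,628,660,724]) := VW.play 692 (PX [564,692] [596,628,660,724]) (by decide +kernel) v5_1887

theorem v5_1888 : VW (PX [564] [596,628,660]) := VW.of base nl_ok fl_ok (.cons 692 724 .nil (.cons 724 692 .nil .nil))
  [(756, (.cons 692 724 .nil (.cons 724 692 .nil .nil))), (788, (.cons 692 724 .nil (.cons 724 692 .nil .nil))), (820, (.cons 692 724 .nil (.cons 724 692 .nil .nil)))]
  [([692], (PX [564] [596,628,660,692])), ([724], (PX [564] [596,628,660,724]))]
  (by decide +kernel) ⟨w5_1888_692, w5_1888_724, trivial⟩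

theorem v5_1947 : VW (PX [628] [596,660,692]) := VW.of base nl_ok fl_ok .nil
  [(724, (.cons 756 788 .nil (.cons 788 756 .nil .nil))), (756, (.cons 724 788 .nil (.cons 788 724 .nil .nil))), (788, (.cons 724 756 .nil (.cons 756 724 .nil .nil)))]
  []
  (by decide +kernel) trivial

theorem w5_1950_564 : S (PX [] [564,596,660]) := VW.play 628 (PX [628] [564,596,660]) (by decide +kernel) v5_1588

theorem w5_1950_628 : S (PX [] [596,628,660]) := VW.play 564 (PX [564] [596,628,660]) (by decide +kernel) v5_1888

theorem w5_1950_692 : S (PX [] [596,660,692]) := VW.play 628 (PX [628] [596,660,692]) (by decide +kernel) v5_1947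

theorem v5_1950 : VW (PX [] [596,660]) := VW.of base nl_ok fl_ok .nil
  [(532, (.cons 564 628 (.cons 468 500 .nil (.cons 500 468 .nil .nil)) (.cons 628 564 (.cons 692 724 .nil (.cons 724 692 .nil .nil)) .nil))), (724, (.cons 628 692 (.cons 532 564 .nil (.cons 564 532 .nil .nil)) (.cons 692 628 (.cons 756 788 .nil (.cons 788 756 .nil .nil)) .nil)))]
  [([564], (PX [] [564,596,660])), ([628], (PX [] [596,628,660])), ([692], (PX [] [596,660,692]))]
  (by decide +kernel) ⟨w5_1950_564, w5_1950_628, w5_1950_692, trivial⟩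

theorem v5_2327 : VW (PX [567,722] [598,629,660,691]) := VW.of base nl_ok fl_ok .nil
  []
  []
  (by decide +kernel) trivial

theorem v5_2328 : VW (PX [567,691] [598,629,660,722]) := VW.of base nl_ok fl_ok .nil
  []
  []
  (by decide +kernel) trivial

theorem w5_2329_691 : S (PX [567] [598,629,660,691]) := VW.play 722 (PX [567,722] [598,629,660,691]) (by decide +kernel) v5_2327

theorem w5_2329_722 : S (PX [567] [598,629,660,722]) := VW.play 691 (PX [567,691] [598,629,660,722]) (by decide +kernel) v5_2328

theorem v5_2329 : VW (PX [567] [598,629,660]) := VW.of base nl_ok fl_ok (.cons 691 722 .nil (.cons 722 691 .nil .nil))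
  [(753, (.cons 691 722 .nil (.cons 722 691 .nil .nil))), (784, (.cons 691 722 .nil (.cons 722 691 .nil .nil))), (815, (.cons 691 722 .nil (.cons 722 691 .nil .nil)))]
  [([691], (PX [567] [598,629,660,691])), ([722], (PX [567] [598,629,660,722]))]
  (by decide +kernel) ⟨w5_2329_691, w5_2329_722, trivial⟩

theorem v5_2346 : VW (PX [629] [598,660,691]) := VW.of base nl_ok fl_ok .nil
  [(722, (.cons 753 784 .nil (.cons 784 753 .nil .nil))), (753, (.cons 722 784 .nil (.cons 784 722 .nil .nil))), (784, (.cons 722 753 .nil (.cons 753 722 .nil .nil)))]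
  []
  (by decide +kernel) trivial

theorem w5_2349_567 : S (PX [] [567,598,660]) := VW.play 629 (PX [629] [567,598,660]) (by decide +kernel) v5_2289

theorem w5_2349_629 : S (PX [] [598,629,660]) := VW.play 567 (PX [567] [598,629,660]) (by decide +kernel) v5_2329

theorem w5_2349_691 : S (PX [] [598,660,691]) := VW.play 629 (PX [629] [598,660,691]) (by decide +kernel) v5_2346

theorem v5_2349 : VW (PX [] [598,660]) := VW.of base nl_ok fl_ok .nil
  [(536, (.cons 567 629 (.cons 474 505 .nil (.cons 505 474 .nil .nil)) (.cons 629 567 (.cons 691 722 .nil (.cons 722 691 .nil .nil)) .nil))), (722, (.cons 629 691 (.cons 536 567 .nil (.cons 567 536 .nil .nil)) (.cons 691 629 (.cons 753 784 .nil (.cons 784 753 .nil .nil)) .nil)))]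
  [([567], (PX [] [567,598,660])), ([629], (PX [] [598,629,660])), ([691], (PX [] [598,660,691]))]
  (by decide +kernel) ⟨w5_2349_567, w5_2349_629, w5_2349_691, trivial⟩

theorem v5_2350 : VW (PX [594,759] [627,660,693,726]) := VW.of base nl_ok fl_ok .nil
  []
  []
  (by decide +kernel) trivial

theorem v5_2351 : VW (PX [594,726] [627,660,693,759]) := VW.of base nl_ok fl_ok .nil
  []
  []
  (by decide +kernel) trivial

theorem w5_2352_726 : S (PX [594] [627,660,693,726]) := VW.play 759 (PX [594,759] [627,660,693,726]) (by decide +kernel) v5_2350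

theorem w5_2352_759 : S (PX [594] [627,660,693,759]) := VW.play 726 (PX [594,726] [627,660,693,759]) (by decide +kernel) v5_2351

theorem v5_2352 : VW (PX [594] [627,660,693]) := VW.of base nl_ok fl_ok (.cons 726 759 .nil (.cons 759 726 .nil .nil))
  [(792, (.cons 726 759 .nil (.cons 759 726 .nil .nil))), (825, (.cons 726 759 .nil (.cons 759 726 .nil .nil))), (858, (.cons 726 759 .nil (.cons 759 726 .nil .nil)))]
  [([726], (PX [594] [627,660,693,726])), ([759], (PX [594] [627,660,693,759]))]
  (by decide +kernel) ⟨w5_2352_726, w5_2352_759, trivial⟩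

theorem v5_2355 : VW (PX [693] [627,660,726]) := VW.of base nl_ok fl_ok .nil
  [(528, (.cons 561 594 .nil (.cons 594 561 .nil .nil))), (561, (.cons 528 594 .nil (.cons 594 528 .nil .nil))), (594, (.cons 528 561 .nil (.cons 561 528 .nil .nil)))]
  []
  (by decide +kernel) trivial

theorem w5_2356_561 : S (PX [] [561,627,660]) := VW.play 594 (PX [594] [561,627,660]) (by decide +kernel) v5_2284

theorem w5_2356_594 : S (PX [] [594,627,660]) := VW.play 561 (PX [561] [594,627,660]) (by decide +kernel) v5_2310

theorem w5_2356_693 : S (PX [] [627,660,693]) := VW.play 594 (PX [594] [627,660,693]) (by decide +kernel) v5_2352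

theorem w5_2356_726 : S (PX [] [627,660,726]) := VW.play 693 (PX [693] [627,660,726]) (by decide +kernel) v5_2355

theorem v5_2356 : VW (PX [] [627,660]) := VW.of base nl_ok fl_ok .nil
  [(528, (.cons 561 594 .nil (.cons 594 561 (.cons 693 726 .nil (.cons 726 693 .nil .nil)) .nil))), (759, (.cons 693 726 (.cons 561 594 .nil (.cons 594 561 .nil .nil)) (.cons 726 693 .nil .nil)))]
  [([561], (PX [] [561,627,660])), ([594], (PX [] [594,627,660])), ([693], (PX [] [627,660,693])), ([726], (PX [] [627,660,726]))]
  (by decide +kernel) ⟨w5_2356_561, w5_2356_594, w5_2356_693, w5_2356_726, trivial⟩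

theorem v5_2217 : VW (PX [596,756] [628,660,692,724]) := VW.of base nl_ok fl_ok .nil
  []
  []
  (by decide +kernel) trivial

theorem v5_2218 : VW (PX [596,724] [628,660,692,756]) := VW.of base nl_ok fl_ok .nil
  []
  []
  (by decide +kernel) trivial

theorem w5_2219_724 : S (PX [596] [628,660,692,724]) := VW.play 756 (PX [596,756] [628,660,692,724]) (by decide +kernel) v5_2217

theorem w5_2219_756 : S (PX [596] [628,660,692,756]) := VW.play 724 (PX [596,724] [628,660,692,756]) (by decide +kernel) v5_2218

theorem v5_2219 : VW (PX [596] [628,660,692]) := VW.of base nl_ok fl_ok (.cons 724 756 .nil (.cons 756 724 .nil .nil))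
  [(788, (.cons 724 756 .nil (.cons 756 724 .nil .nil))), (820, (.cons 724 756 .nil (.cons 756 724 .nil .nil))), (852, (.cons 724 756 .nil (.cons 756 724 .nil .nil)))]
  [([724], (PX [596] [628,660,692,724])), ([756], (PX [596] [628,660,692,756]))]
  (by decide +kernel) ⟨w5_2219_724, w5_2219_756, trivial⟩

theorem v5_2224 : VW (PX [692] [628,660,724]) := VW.of base nl_ok fl_ok .nil
  [(532, (.cons 564 596 .nil (.cons 596 564 .nil .nil))), (564, (.cons 532 596 .nil (.cons 596 532 .nil .nil))), (596, (.cons 532 564 .nil (.cons 564 532 .nil .nil)))]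
  []
  (by decide +kernel) trivial

theorem w5_2236_564 : S (PX [] [564,628,660]) := VW.play 596 (PX [596] [564,628,660]) (by decide +kernel) v5_1642

theorem w5_2236_596 : S (PX [] [596,628,660]) := VW.play 564 (PX [564] [596,628,660]) (by decide +kernel) v5_1888

theorem w5_2236_692 : S (PX [] [628,660,692]) := VW.play 596 (PX [596] [628,660,692]) (by decide +kernel) v5_2219

theorem w5_2236_724 : S (PX [] [628,660,724]) := VW.play 692 (PX [692] [628,660,724]) (by decide +kernel) v5_2224

theorem v5_2236 : VW (PX [] [628,660]) := VW.of base nl_ok fl_ok .nil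
  [(532, (.cons 564 596 .nil (.cons 596 564 (.cons 692 724 .nil (.cons 724 692 .nil .nil)) .nil))), (756, (.cons 692 724 (.cons 564 596 .nil (.cons 596 564 .nil .nil)) (.cons 724 692 .nil .nil)))]
  [([564], (PX [] [564,628,660])), ([596], (PX [] [596,628,660])), ([692], (PX [] [628,660,692])), ([724], (PX [] [628,660,724]))]
  (by decide +kernel) ⟨w5_2236_564, w5_2236_596, w5_2236_692, w5_2236_724, trivial⟩

theorem v5_2357 : VW (PX [598,753] [629,660,691,722]) := VW.of base nl_ok fl_ok .nil
  []
  []
  (by decide +kernel) trivial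

theorem v5_2358 : VW (PX [598,722] [629,660,691,753]) := VW.of base nl_ok fl_ok .nil
  []
  []
  (by decide +kernel) trivial

theorem w5_2359_722 : S (PX [598] [629,660,691,722]) := VW.play 753 (PX [598,753] [629,660,691,722]) (by decide +kernel) v5_2357

theorem w5_2359_753 : S (PX [598] [629,660,691,753]) := VW.play 722 (PX [598,722] [629,660,691,753]) (by decide +kernel) v5_2358

theorem v5_2359 : VW (PX [598] [629,660,691]) := VW.of base nl_ok fl_ok (.cons 722 753 .nil (.cons 753 722 .nil .nil))
  [(784, (.cons 722 753 .nil (.cons 753 722 .nil .nil))), (815, (.cons 722 753 .nil (.cons 753 722 .nil .nil))), (846, (.cons 722 753 .nil (.cons 753 722 .nil .nil)))]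
  [([722], (PX [598] [629,660,691,722])), ([753], (PX [598] [629,660,691,753]))]
  (by decide +kernel) ⟨w5_2359_722, w5_2359_753, trivial⟩

theorem v5_2364 : VW (PX [691] [629,660,722]) := VW.of base nl_ok fl_ok .nil
  [(536, (.cons 567 598 .nil (.cons 598 567 .nil .nil))), (567, (.cons 536 598 .nil (.cons 598 536 .nil .nil))), (598, (.cons 536 567 .nil (.cons 567 536 .nil .nil)))]
  []
  (by decide +kernel) trivial

theorem w5_2376_567 : S (PX [] [567,629,660]) := VW.play 598 (PX [598] [567,629,660]) (by decide +kernel) v5_2304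

theorem w5_2376_598 : S (PX [] [598,629,660]) := VW.play 567 (PX [567] [598,629,660]) (by decide +kernel) v5_2329

theorem w5_2376_691 : S (PX [] [629,660,691]) := VW.play 598 (PX [598] [629,660,691]) (by decide +kernel) v5_2359

theorem w5_2376_722 : S (PX [] [629,660,722]) := VW.play 691 (PX [691] [629,660,722]) (by decide +kernel) v5_2364

theorem v5_2376 : VW (PX [] [629,660]) := VW.of base nl_ok fl_ok .nil
  [(536, (.cons 567 598 .nil (.cons 598 567 (.cons 691 722 .nil (.cons 722 691 .nil .nil)) .nil))), (753, (.cons 691 722 (.cons 567 598 .nil (.cons 598 567 .nil .nil)) (.cons 722 691 .nil .nil)))]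
  [([567], (PX [] [567,629,660])), ([598], (PX [] [598,629,660])), ([691], (PX [] [629,660,691])), ([722], (PX [] [629,660,722]))]
  (by decide +kernel) ⟨w5_2376_567, w5_2376_598, w5_2376_691, w5_2376_722, trivial⟩

theorem v5_2377 : VW (PX [] [656,660]) := VW.of base nl_ok fl_ok .nil
  [(657, (.cons 658 659 (.cons 654 655 .nil (.cons 655 654 .nil .nil)) (.cons 659 658 .nil .nil))), (658, (.cons 657 659 (.cons 654 655 .nil (.cons 655 654 .nil .nil)) (.cons 659 657 (.cons 661 662 .nil (.cons 662 661 .nil .nil)) .nil))), (659, (.cons 657 658 .nil (.cons 658 657 (.cons 661 662 .nil (.cons 662 661 .nil .nil)) .nil)))]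
  []
  (by decide +kernel) trivial

theorem v5_2381 : VW (PX [659] [657,658,660]) := VW.of base nl_ok fl_ok .nil
  [(654, (.cons 655 656 .nil (.cons 656 655 .nil .nil))), (655, (.cons 654 656 .nil (.cons 656 654 .nil .nil))), (656, (.cons 654 655 .nil (.cons 655 654 .nil .nil)))]
  []
  (by decide +kernel) trivial

theorem v5_2410 : VW (PX [658] [657,659,660]) := VW.of base nl_ok fl_ok .nil
  [(661, (.cons 662 663 .nil (.cons 663 662 .nil .nil))), (662, (.cons 661 663 .nil (.cons 663 661 .nil .nil))), (663, (.cons 661 662 .nil (.cons 662 661 .nil .nil)))]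
  []
  (by decide +kernel) trivial

theorem w5_2413_658 : S (PX [] [657,658,660]) := VW.play 659 (PX [659] [657,658,660]) (by decide +kernel) v5_2381

theorem w5_2413_659 : S (PX [] [657,659,660]) := VW.play 658 (PX [658] [657,659,660]) (by decide +kernel) v5_2410

theorem v5_2413 : VW (PX [] [657,660]) := VW.of base nl_ok fl_ok .nil
  [(656, (.cons 658 659 (.cons 654 655 .nil (.cons 655 654 .nil .nil)) (.cons 659 658 .nil .nil))), (661, (.cons 658 659 .nil (.cons 659 658 (.cons 662 663 .nil (.cons 663 662 .nil .nil)) .nil)))]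
  [([658], (PX [] [657,658,660])), ([659], (PX [] [657,659,660]))]
  (by decide +kernel) ⟨w5_2413_658, w5_2413_659, trivial⟩

theorem v5_2414 : VW (PX [657,662] [658,659,660,661]) := VW.of base nl_ok fl_ok .nil
  []
  []
  (by decide +kernel) trivial

theorem v5_2415 : VW (PX [657,661] [658,659,660,662]) := VW.of base nl_ok fl_ok .nil
  []
  []
  (by decide +kernel) trivial

theorem w5_2416_661 : S (PX [657] [658,659,660,661]) := VW.play 662 (PX [657,662] [658,659,660,661]) (by decide +kernel) v5_2414

theorem w5_2416_662 : S (PX [657] [658,659,660,662]) := VW.play 661 (PX [657,661] [658,659,660,662]) (by decide +kernel) v5_2415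

theorem v5_2416 : VW (PX [657] [658,659,660]) := VW.of base nl_ok fl_ok (.cons 661 662 .nil (.cons 662 661 .nil .nil))
  [(663, (.cons 661 662 .nil (.cons 662 661 .nil .nil))), (664, (.cons 661 662 .nil (.cons 662 661 .nil .nil))), (665, (.cons 661 662 .nil (.cons 662 661 .nil .nil)))]
  [([661], (PX [657] [658,659,660,661])), ([662], (PX [657] [658,659,660,662]))]
  (by decide +kernel) ⟨w5_2416_661, w5_2416_662, trivial⟩

theorem v5_2433 : VW (PX [659] [658,660,661]) := VW.of base nl_ok fl_ok .nil
  [(662, (.cons 663 664 .nil (.cons 664 663 .nil .nil))), (663, (.cons 662 664 .nil (.cons 664 662 .nil .nil))), (664, (.cons 662 663 .nil (.cons 663 662 .nil .nil)))]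
  []
  (by decide +kernel) trivial

theorem w5_2436_657 : S (PX [] [657,658,660]) := VW.play 659 (PX [659] [657,658,660]) (by decide +kernel) v5_2381

theorem w5_2436_659 : S (PX [] [658,659,660]) := VW.play 657 (PX [657] [658,659,660]) (by decide +kernel) v5_2416

theorem w5_2436_661 : S (PX [] [658,660,661]) := VW.play 659 (PX [659] [658,660,661]) (by decide +kernel) v5_2433

theorem v5_2436 : VW (PX [] [658,660]) := VW.of base nl_ok fl_ok .nil
  [(656, (.cons 657 659 (.cons 654 655 .nil (.cons 655 654 .nil .nil)) (.cons 659 657 (.cons 661 662 .nil (.cons 662 661 .nil .nil)) .nil))), (662, (.cons 659 661 (.cons 656 657 .nil (.cons 657 656 .nil .nil)) (.cons 661 659 (.cons 663 664 .nil (.cons 664 663 .nil .nil)) .nil)))]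
  [([657], (PX [] [657,658,660])), ([659], (PX [] [658,659,660])), ([661], (PX [] [658,660,661]))]
  (by decide +kernel) ⟨w5_2436_657, w5_2436_659, w5_2436_661, trivial⟩

theorem v5_2437 : VW (PX [658,663] [659,660,661,662]) := VW.of base nl_ok fl_ok .nil
  []
  []
  (by decide +kernel) trivial

theorem v5_2438 : VW (PX [658,662] [659,660,661,663]) := VW.of base nl_ok fl_ok .nil
  []
  []
  (by decide +kernel) trivial

theorem w5_2439_662 : S (PX [658] [659,660,661,662]) := VW.play 663 (PX [658,663] [659,660,661,662]) (by decide +kernel) v5_2437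

theorem w5_2439_663 : S (PX [658] [659,660,661,663]) := VW.play 662 (PX [658,662] [659,660,661,663]) (by decide +kernel) v5_2438

theorem v5_2439 : VW (PX [658] [659,660,661]) := VW.of base nl_ok fl_ok (.cons 662 663 .nil (.cons 663 662 .nil .nil))
  [(664, (.cons 662 663 .nil (.cons 663 662 .nil .nil))), (665, (.cons 662 663 .nil (.cons 663 662 .nil .nil))), (666, (.cons 662 663 .nil (.cons 663 662 .nil .nil)))]
  [([662], (PX [658] [659,660,661,662])), ([663], (PX [658] [659,660,661,663]))]
  (by decide +kernel) ⟨w5_2439_662, w5_2439_663, trivial⟩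

theorem v5_2444 : VW (PX [661] [659,660,662]) := VW.of base nl_ok fl_ok .nil
  [(656, (.cons 657 658 .nil (.cons 658 657 .nil .nil))), (657, (.cons 656 658 .nil (.cons 658 656 .nil .nil))), (658, (.cons 656 657 .nil (.cons 657 656 .nil .nil)))]
  []
  (by decide +kernel) trivial

theorem w5_2456_657 : S (PX [] [657,659,660]) := VW.play 658 (PX [658] [657,659,660]) (by decide +kernel) v5_2410

theorem w5_2456_658 : S (PX [] [658,659,660]) := VW.play 657 (PX [657] [658,659,660]) (by decide +kernel) v5_2416

theorem w5_2456_661 : S (PX [] [659,660,661]) := VW.play 658 (PX [658] [659,660,661]) (by decide +kernel) v5_2439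

theorem w5_2456_662 : S (PX [] [659,660,662]) := VW.play 661 (PX [661] [659,660,662]) (by decide +kernel) v5_2444

theorem v5_2456 : VW (PX [] [659,660]) := VW.of base nl_ok fl_ok .nil
  [(656, (.cons 657 658 .nil (.cons 658 657 (.cons 661 662 .nil (.cons 662 661 .nil .nil)) .nil))), (663, (.cons 661 662 (.cons 657 658 .nil (.cons 658 657 .nil .nil)) (.cons 662 661 .nil .nil)))]
  [([657], (PX [] [657,659,660])), ([658], (PX [] [658,659,660])), ([661], (PX [] [659,660,661])), ([662], (PX [] [659,660,662]))]
  (by decide +kernel) ⟨w5_2456_657, w5_2456_658, w5_2456_661, w5_2456_662, trivial⟩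

theorem v5_2457 : VW (PX [659,664] [660,661,662,663]) := VW.of base nl_ok fl_ok .nil
  []
  []
  (by decide +kernel) trivial

theorem v5_2458 : VW (PX [659,663] [660,661,662,664]) := VW.of base nl_ok fl_ok .nil
  []
  []
  (by decide +kernel) trivial

theorem w5_2459_663 : S (PX [659] [660,661,662,663]) := VW.play 664 (PX [659,664] [660,661,662,663]) (by decide +kernel) v5_2457

theorem w5_2459_664 : S (PX [659] [660,661,662,664]) := VW.play 663 (PX [659,663] [660,661,662,664]) (by decide +kernel) v5_2458

theorem v5_2459 : VW (PX [659] [660,661,662]) := VW.of base nl_ok fl_ok (.cons 663 664 .nil (.cons 664 663 .nil .nil))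
  [(665, (.cons 663 664 .nil (.cons 664 663 .nil .nil))), (666, (.cons 663 664 .nil (.cons 664 663 .nil .nil))), (667, (.cons 663 664 .nil (.cons 664 663 .nil .nil)))]
  [([663], (PX [659] [660,661,662,663])), ([664], (PX [659] [660,661,662,664]))]
  (by decide +kernel) ⟨w5_2459_663, w5_2459_664, trivial⟩

theorem v5_2464 : VW (PX [662] [660,661,663]) := VW.of base nl_ok fl_ok .nil
  [(657, (.cons 658 659 .nil (.cons 659 658 .nil .nil))), (658, (.cons 657 659 .nil (.cons 659 657 .nil .nil))), (659, (.cons 657 658 .nil (.cons 658 657 .nil .nil)))]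
  []
  (by decide +kernel) trivial

theorem w5_2476_658 : S (PX [] [658,660,661]) := VW.play 659 (PX [659] [658,660,661]) (by decide +kernel) v5_2433

theorem w5_2476_659 : S (PX [] [659,660,661]) := VW.play 658 (PX [658] [659,660,661]) (by decide +kernel) v5_2439

theorem w5_2476_662 : S (PX [] [660,661,662]) := VW.play 659 (PX [659] [660,661,662]) (by decide +kernel) v5_2459

theorem w5_2476_663 : S (PX [] [660,661,663]) := VW.play 662 (PX [662] [660,661,663]) (by decide +kernel) v5_2464

theorem v5_2476 : VW (PX [] [660,661]) := VW.of base nl_ok fl_ok .nil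
  [(657, (.cons 658 659 .nil (.cons 659 658 (.cons 662 663 .nil (.cons 663 662 .nil .nil)) .nil))), (664, (.cons 662 663 (.cons 658 659 .nil (.cons 659 658 .nil .nil)) (.cons 663 662 .nil .nil)))]
  [([658], (PX [] [658,660,661])), ([659], (PX [] [659,660,661])), ([662], (PX [] [660,661,662])), ([663], (PX [] [660,661,663]))]
  (by decide +kernel) ⟨w5_2476_658, w5_2476_659, w5_2476_662, w5_2476_663, trivial⟩

theorem v5_2477 : VW (PX [661] [660,662,663]) := VW.of base nl_ok fl_ok .nil
  [(664, (.cons 665 666 .nil (.cons 666 665 .nil .nil))), (665, (.cons 664 666 .nil (.cons 666 664 .nil .nil))), (666, (.cons 664 665 .nil (.cons 665 664 .nil .nil)))]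
  []
  (by decide +kernel) trivial

theorem w5_2480_659 : S (PX [] [659,660,662]) := VW.play 661 (PX [661] [659,660,662]) (by decide +kernel) v5_2444

theorem w5_2480_661 : S (PX [] [660,661,662]) := VW.play 659 (PX [659] [660,661,662]) (by decide +kernel) v5_2459

theorem w5_2480_663 : S (PX [] [660,662,663]) := VW.play 661 (PX [661] [660,662,663]) (by decide +kernel) v5_2477

theorem v5_2480 : VW (PX [] [660,662]) := VW.of base nl_ok fl_ok .nil
  [(658, (.cons 659 661 (.cons 656 657 .nil (.cons 657 656 .nil .nil)) (.cons 661 659 (.cons 663 664 .nil (.cons 664 663 .nil .nil)) .nil))), (664, (.cons 661 663 (.cons 658 659 .nil (.cons 659 658 .nil .nil)) (.cons 663 661 (.cons 665 666 .nil (.cons 666 665 .nil .nil)) .nil)))]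
  [([659], (PX [] [659,660,662])), ([661], (PX [] [660,661,662])), ([663], (PX [] [660,662,663]))]
  (by decide +kernel) ⟨w5_2480_659, w5_2480_661, w5_2480_663, trivial⟩

theorem w5_2481_661 : S (PX [] [660,661,663]) := VW.play 662 (PX [662] [660,661,663]) (by decide +kernel) v5_2464

theorem w5_2481_662 : S (PX [] [660,662,663]) := VW.play 661 (PX [661] [660,662,663]) (by decide +kernel) v5_2477

theorem v5_2481 : VW (PX [] [660,663]) := VW.of base nl_ok fl_ok .nil
  [(659, (.cons 661 662 (.cons 657 658 .nil (.cons 658 657 .nil .nil)) (.cons 662 661 .nil .nil))), (664, (.cons 661 662 .nil (.cons 662 661 (.cons 665 666 .nil (.cons 666 665 .nil .nil)) .nil)))]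
  [([661], (PX [] [660,661,663])), ([662], (PX [] [660,662,663]))]
  (by decide +kernel) ⟨w5_2481_661, w5_2481_662, trivial⟩

theorem v5_2482 : VW (PX [] [660,664]) := VW.of base nl_ok fl_ok .nil
  [(661, (.cons 662 663 (.cons 658 659 .nil (.cons 659 658 .nil .nil)) (.cons 663 662 .nil .nil))), (662, (.cons 661 663 (.cons 658 659 .nil (.cons 659 658 .nil .nil)) (.cons 663 661 (.cons 665 666 .nil (.cons 666 665 .nil .nil)) .nil))), (663, (.cons 661 662 .nil (.cons 662 661 (.cons 665 666 .nil (.cons 666 665 .nil .nil)) .nil)))]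
  []
  (by decide +kernel) trivial

theorem v5_2483 : VW (PX [629,784] [660,691,722,753]) := VW.of base nl_ok fl_ok .nil
  []
  []
  (by decide +kernel) trivial

theorem v5_2484 : VW (PX [629,753] [660,691,722,784]) := VW.of base nl_ok fl_ok .nil
  []
  []
  (by decide +kernel) trivial

theorem w5_2485_753 : S (PX [629] [660,691,722,753]) := VW.play 784 (PX [629,784] [660,691,722,753]) (by decide +kernel) v5_2483

theorem w5_2485_784 : S (PX [629] [660,691,722,784]) := VW.play 753 (PX [629,753] [660,691,722,784]) (by decide +kernel) v5_2484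

theorem v5_2485 : VW (PX [629] [660,691,722]) := VW.of base nl_ok fl_ok (.cons 753 784 .nil (.cons 784 753 .nil .nil))
  [(815, (.cons 753 784 .nil (.cons 784 753 .nil .nil))), (846, (.cons 753 784 .nil (.cons 784 753 .nil .nil))), (877, (.cons 753 784 .nil (.cons 784 753 .nil .nil)))]
  [([753], (PX [629] [660,691,722,753])), ([784], (PX [629] [660,691,722,784]))]
  (by decide +kernel) ⟨w5_2485_753, w5_2485_784, trivial⟩

theorem v5_2490 : VW (PX [722] [660,691,753]) := VW.of base nl_ok fl_ok .nil
  [(567, (.cons 598 629 .nil (.cons 629 598 .nil .nil))), (598, (.cons 567 629 .nil (.cons 629 567 .nil .nil))), (629, (.cons 567 598 .nil (.cons 598 567 .nil .nil)))]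
  []
  (by decide +kernel) trivial

theorem w5_2502_598 : S (PX [] [598,660,691]) := VW.play 629 (PX [629] [598,660,691]) (by decide +kernel) v5_2346

theorem w5_2502_629 : S (PX [] [629,660,691]) := VW.play 598 (PX [598] [629,660,691]) (by decide +kernel) v5_2359

theorem w5_2502_722 : S (PX [] [660,691,722]) := VW.play 629 (PX [629] [660,691,722]) (by decide +kernel) v5_2485

theorem w5_2502_753 : S (PX [] [660,691,753]) := VW.play 722 (PX [722] [660,691,753]) (by decide +kernel) v5_2490

theorem v5_2502 : VW (PX [] [660,691]) := VW.of base nl_ok fl_ok .nil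
  [(567, (.cons 598 629 .nil (.cons 629 598 (.cons 722 753 .nil (.cons 753 722 .nil .nil)) .nil))), (784, (.cons 722 753 (.cons 598 629 .nil (.cons 629 598 .nil .nil)) (.cons 753 722 .nil .nil)))]
  [([598], (PX [] [598,660,691])), ([629], (PX [] [629,660,691])), ([722], (PX [] [660,691,722])), ([753], (PX [] [660,691,753]))]
  (by decide +kernel) ⟨w5_2502_598, w5_2502_629, w5_2502_722, w5_2502_753, trivial⟩

theorem v5_2503 : VW (PX [628,788] [660,692,724,756]) := VW.of base nl_ok fl_ok .nil
  []
  []
  (by decide +kernel) trivial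

theorem v5_2504 : VW (PX [628,756] [660,692,724,788]) := VW.of base nl_ok fl_ok .nil
  []
  []
  (by decide +kernel) trivial

theorem w5_2505_756 : S (PX [628] [660,692,724,756]) := VW.play 788 (PX [628,788] [660,692,724,756]) (by decide +kernel) v5_2503

theorem w5_2505_788 : S (PX [628] [660,692,724,788]) := VW.play 756 (PX [628,756] [660,692,724,788]) (by decide +kernel) v5_2504

theorem v5_2505 : VW (PX [628] [660,692,724]) := VW.of base nl_ok fl_ok (.cons 756 788 .nil (.cons 788 756 .nil .nil))
  [(820, (.cons 756 788 .nil (.cons 788 756 .nil .nil))), (852, (.cons 756 788 .nil (.cons 788 756 .nil .nil))), (884, (.cons 756 788 .nil (.cons 788 756 .nil .nil)))]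
  [([756], (PX [628] [660,692,724,756])), ([788], (PX [628] [660,692,724,788]))]
  (by decide +kernel) ⟨w5_2505_756, w5_2505_788, trivial⟩

theorem v5_2510 : VW (PX [724] [660,692,756]) := VW.of base nl_ok fl_ok .nil
  [(564, (.cons 596 628 .nil (.cons 628 596 .nil .nil))), (596, (.cons 564 628 .nil (.cons 628 564 .nil .nil))), (628, (.cons 564 596 .nil (.cons 596 564 .nil .nil)))]
  []
  (by decide +kernel) trivial

theorem w5_2522_596 : S (PX [] [596,660,692]) := VW.play 628 (PX [628] [596,660,692]) (by decide +kernel) v5_1947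

theorem w5_2522_628 : S (PX [] [628,660,692]) := VW.play 596 (PX [596] [628,660,692]) (by decide +kernel) v5_2219

theorem w5_2522_724 : S (PX [] [660,692,724]) := VW.play 628 (PX [628] [660,692,724]) (by decide +kernel) v5_2505

theorem w5_2522_756 : S (PX [] [660,692,756]) := VW.play 724 (PX [724] [660,692,756]) (by decide +kernel) v5_2510

theorem v5_2522 : VW (PX [] [660,692]) := VW.of base nl_ok fl_ok .nil
  [(564, (.cons 596 628 .nil (.cons 628 596 (.cons 724 756 .nil (.cons 756 724 .nil .nil)) .nil))), (788, (.cons 724 756 (.cons 596 628 .nil (.cons 628 596 .nil .nil)) (.cons 756 724 .nil .nil)))]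
  [([596], (PX [] [596,660,692])), ([628], (PX [] [628,660,692])), ([724], (PX [] [660,692,724])), ([756], (PX [] [660,692,756]))]
  (by decide +kernel) ⟨w5_2522_596, w5_2522_628, w5_2522_724, w5_2522_756, trivial⟩

theorem v5_2523 : VW (PX [627,792] [660,693,726,759]) := VW.of base nl_ok fl_ok .nil
  []
  []
  (by decide +kernel) trivial

theorem v5_2524 : VW (PX [627,759] [660,693,726,792]) := VW.of base nl_ok fl_ok .nil
  []
  []
  (by decide +kernel) trivial

theorem w5_2525_759 : S (PX [627] [660,693,726,759]) := VW.play 792 (PX [627,792] [660,693,726,759]) (by decide +kernel) v5_2523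

theorem w5_2525_792 : S (PX [627] [660,693,726,792]) := VW.play 759 (PX [627,759] [660,693,726,792]) (by decide +kernel) v5_2524

theorem v5_2525 : VW (PX [627] [660,693,726]) := VW.of base nl_ok fl_ok (.cons 759 792 .nil (.cons 792 759 .nil .nil))
  [(825, (.cons 759 792 .nil (.cons 792 759 .nil .nil))), (858, (.cons 759 792 .nil (.cons 792 759 .nil .nil))), (891, (.cons 759 792 .nil (.cons 792 759 .nil .nil)))]
  [([759], (PX [627] [660,693,726,759])), ([792], (PX [627] [660,693,726,792]))]
  (by decide +kernel) ⟨w5_2525_759, w5_2525_792, trivial⟩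

theorem v5_2530 : VW (PX [726] [660,693,759]) := VW.of base nl_ok fl_ok .nil
  [(561, (.cons 594 627 .nil (.cons 627 594 .nil .nil))), (594, (.cons 561 627 .nil (.cons 627 561 .nil .nil))), (627, (.cons 561 594 .nil (.cons 594 561 .nil .nil)))]
  []
  (by decide +kernel) trivial

theorem w5_2531_594 : S (PX [] [594,660,693]) := VW.play 627 (PX [627] [594,660,693]) (by decide +kernel) v5_2325

theorem w5_2531_627 : S (PX [] [627,660,693]) := VW.play 594 (PX [594] [627,660,693]) (by decide +kernel) v5_2352

theorem w5_2531_726 : S (PX [] [660,693,726]) := VW.play 627 (PX [627] [660,693,726]) (by decide +kernel) v5_2525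

theorem w5_2531_759 : S (PX [] [660,693,759]) := VW.play 726 (PX [726] [660,693,759]) (by decide +kernel) v5_2530

theorem v5_2531 : VW (PX [] [660,693]) := VW.of base nl_ok fl_ok .nil
  [(561, (.cons 594 627 .nil (.cons 627 594 (.cons 726 759 .nil (.cons 759 726 .nil .nil)) .nil))), (792, (.cons 726 759 (.cons 594 627 .nil (.cons 627 594 .nil .nil)) (.cons 759 726 .nil .nil)))]
  [([594], (PX [] [594,660,693])), ([627], (PX [] [627,660,693])), ([726], (PX [] [660,693,726])), ([759], (PX [] [660,693,759]))]
  (by decide +kernel) ⟨w5_2531_594, w5_2531_627, w5_2531_726, w5_2531_759, trivial⟩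

theorem v5_2532 : VW (PX [691] [660,722,753]) := VW.of base nl_ok fl_ok .nil
  [(784, (.cons 815 846 .nil (.cons 846 815 .nil .nil))), (815, (.cons 784 846 .nil (.cons 846 784 .nil .nil))), (846, (.cons 784 815 .nil (.cons 815 784 .nil .nil)))]
  []
  (by decide +kernel) trivial

theorem w5_2535_629 : S (PX [] [629,660,722]) := VW.play 691 (PX [691] [629,660,722]) (by decide +kernel) v5_2364

theorem w5_2535_691 : S (PX [] [660,691,722]) := VW.play 629 (PX [629] [660,691,722]) (by decide +kernel) v5_2485

theorem w5_2535_753 : S (PX [] [660,722,753]) := VW.play 691 (PX [691] [660,722,753]) (by decide +kernel) v5_2532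

theorem v5_2535 : VW (PX [] [660,722]) := VW.of base nl_ok fl_ok .nil
  [(598, (.cons 629 691 (.cons 536 567 .nil (.cons 567 536 .nil .nil)) (.cons 691 629 (.cons 753 784 .nil (.cons 784 753 .nil .nil)) .nil))), (784, (.cons 691 753 (.cons 598 629 .nil (.cons 629 598 .nil .nil)) (.cons 753 691 (.cons 815 846 .nil (.cons 846 815 .nil .nil)) .nil)))]
  [([629], (PX [] [629,660,722])), ([691], (PX [] [660,691,722])), ([753], (PX [] [660,722,753]))]
  (by decide +kernel) ⟨w5_2535_629, w5_2535_691, w5_2535_753, trivial⟩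

theorem v5_2536 : VW (PX [692] [660,724,756]) := VW.of base nl_ok fl_ok .nil
  [(788, (.cons 820 852 .nil (.cons 852 820 .nil .nil))), (820, (.cons 788 852 .nil (.cons 852 788 .nil .nil))), (852, (.cons 788 820 .nil (.cons 820 788 .nil .nil)))]
  []
  (by decide +kernel) trivial

theorem w5_2539_628 : S (PX [] [628,660,724]) := VW.play 692 (PX [692] [628,660,724]) (by decide +kernel) v5_2224

theorem w5_2539_692 : S (PX [] [660,692,724]) := VW.play 628 (PX [628] [660,692,724]) (by decide +kernel) v5_2505

theorem w5_2539_756 : S (PX [] [660,724,756]) := VW.play 692 (PX [692] [660,724,756]) (by decide +kernel) v5_2536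

theorem v5_2539 : VW (PX [] [660,724]) := VW.of base nl_ok fl_ok .nil
  [(596, (.cons 628 692 (.cons 532 564 .nil (.cons 564 532 .nil .nil)) (.cons 692 628 (.cons 756 788 .nil (.cons 788 756 .nil .nil)) .nil))), (788, (.cons 692 756 (.cons 596 628 .nil (.cons 628 596 .nil .nil)) (.cons 756 692 (.cons 820 852 .nil (.cons 852 820 .nil .nil)) .nil)))]
  [([628], (PX [] [628,660,724])), ([692], (PX [] [660,692,724])), ([756], (PX [] [660,724,756]))]
  (by decide +kernel) ⟨w5_2539_628, w5_2539_692, w5_2539_756, trivial⟩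

theorem v5_2540 : VW (PX [693] [660,726,759]) := VW.of base nl_ok fl_ok .nil
  [(792, (.cons 825 858 .nil (.cons 858 825 .nil .nil))), (825, (.cons 792 858 .nil (.cons 858 792 .nil .nil))), (858, (.cons 792 825 .nil (.cons 825 792 .nil .nil)))]
  []
  (by decide +kernel) trivial

theorem w5_2543_627 : S (PX [] [627,660,726]) := VW.play 693 (PX [693] [627,660,726]) (by decide +kernel) v5_2355

theorem w5_2543_693 : S (PX [] [660,693,726]) := VW.play 627 (PX [627] [660,693,726]) (by decide +kernel) v5_2525

theorem w5_2543_759 : S (PX [] [660,726,759]) := VW.play 693 (PX [693] [660,726,759]) (by decide +kernel) v5_2540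

theorem v5_2543 : VW (PX [] [660,726]) := VW.of base nl_ok fl_ok .nil
  [(594, (.cons 627 693 (.cons 528 561 .nil (.cons 561 528 .nil .nil)) (.cons 693 627 (.cons 759 792 .nil (.cons 792 759 .nil .nil)) .nil))), (792, (.cons 693 759 (.cons 594 627 .nil (.cons 627 594 .nil .nil)) (.cons 759 693 (.cons 825 858 .nil (.cons 858 825 .nil .nil)) .nil)))]
  [([627], (PX [] [627,660,726])), ([693], (PX [] [660,693,726])), ([759], (PX [] [660,726,759]))]
  (by decide +kernel) ⟨w5_2543_627, w5_2543_693, w5_2543_759, trivial⟩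

theorem w5_2544_691 : S (PX [] [660,691,753]) := VW.play 722 (PX [722] [660,691,753]) (by decide +kernel) v5_2490

theorem w5_2544_722 : S (PX [] [660,722,753]) := VW.play 691 (PX [691] [660,722,753]) (by decide +kernel) v5_2532

theorem v5_2544 : VW (PX [] [660,753]) := VW.of base nl_ok fl_ok .nil
  [(629, (.cons 691 722 (.cons 567 598 .nil (.cons 598 567 .nil .nil)) (.cons 722 691 .nil .nil))), (784, (.cons 691 722 .nil (.cons 722 691 (.cons 815 846 .nil (.cons 846 815 .nil .nil)) .nil)))]
  [([691], (PX [] [660,691,753])), ([722], (PX [] [660,722,753]))]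
  (by decide +kernel) ⟨w5_2544_691, w5_2544_722, trivial⟩

theorem w5_2545_692 : S (PX [] [660,692,756]) := VW.play 724 (PX [724] [660,692,756]) (by decide +kernel) v5_2510

theorem w5_2545_724 : S (PX [] [660,724,756]) := VW.play 692 (PX [692] [660,724,756]) (by decide +kernel) v5_2536

theorem v5_2545 : VW (PX [] [660,756]) := VW.of base nl_ok fl_ok .nil
  [(628, (.cons 692 724 (.cons 564 596 .nil (.cons 596 564 .nil .nil)) (.cons 724 692 .nil .nil))), (788, (.cons 692 724 .nil (.cons 724 692 (.cons 820 852 .nil (.cons 852 820 .nil .nil)) .nil)))]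
  [([692], (PX [] [660,692,756])), ([724], (PX [] [660,724,756]))]
  (by decide +kernel) ⟨w5_2545_692, w5_2545_724, trivial⟩

theorem w5_2546_693 : S (PX [] [660,693,759]) := VW.play 726 (PX [726] [660,693,759]) (by decide +kernel) v5_2530

theorem w5_2546_726 : S (PX [] [660,726,759]) := VW.play 693 (PX [693] [660,726,759]) (by decide +kernel) v5_2540

theorem v5_2546 : VW (PX [] [660,759]) := VW.of base nl_ok fl_ok .nil
  [(627, (.cons 693 726 (.cons 561 594 .nil (.cons 594 561 .nil .nil)) (.cons 726 693 .nil .nil))), (792, (.cons 693 726 .nil (.cons 726 693 (.cons 825 858 .nil (.cons 858 825 .nil .nil)) .nil)))]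
  [([693], (PX [] [660,693,759])), ([726], (PX [] [660,726,759]))]
  (by decide +kernel) ⟨w5_2546_693, w5_2546_726, trivial⟩

theorem v5_2547 : VW (PX [] [660,784]) := VW.of base nl_ok fl_ok .nil
  [(691, (.cons 722 753 (.cons 598 629 .nil (.cons 629 598 .nil .nil)) (.cons 753 722 .nil .nil))), (722, (.cons 691 753 (.cons 598 629 .nil (.cons 629 598 .nil .nil)) (.cons 753 691 (.cons 815 846 .nil (.cons 846 815 .nil .nil)) .nil))), (753, (.cons 691 722 .nil (.cons 722 691 (.cons 815 846 .nil (.cons 846 815 .nil .nil)) .nil)))]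
  []
  (by decide +kernel) trivial

theorem v5_2548 : VW (PX [] [660,788]) := VW.of base nl_ok fl_ok .nil
  [(692, (.cons 724 756 (.cons 596 628 .nil (.cons 628 596 .nil .nil)) (.cons 756 724 .nil .nil))), (724, (.cons 692 756 (.cons 596 628 .nil (.cons 628 596 .nil .nil)) (.cons 756 692 (.cons 820 852 .nil (.cons 852 820 .nil .nil)) .nil))), (756, (.cons 692 724 .nil (.cons 724 692 (.cons 820 852 .nil (.cons 852 820 .nil .nil)) .nil)))]
  []
  (by decide +kernel) trivial

theorem v5_2549 : VW (PX [] [660,792]) := VW.of base nl_ok fl_ok .nil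
  [(693, (.cons 726 759 (.cons 594 627 .nil (.cons 627 594 .nil .nil)) (.cons 759 726 .nil .nil))), (726, (.cons 693 759 (.cons 594 627 .nil (.cons 627 594 .nil .nil)) (.cons 759 693 (.cons 825 858 .nil (.cons 858 825 .nil .nil)) .nil))), (759, (.cons 693 726 .nil (.cons 726 693 (.cons 825 858 .nil (.cons 858 825 .nil .nil)) .nil)))]
  []
  (by decide +kernel) trivial

theorem r528 : S (Nat.lor X2 (bits [660, 528])) := VW.play 394 (PX [] [528,660]) (by decide +kernel) v5_2264

theorem r532 : S (Nat.lor X2 (bits [660, 532])) := VW.play 394 (PX [] [532,660]) (by decide +kernel) v5_1358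

theorem r536 : S (Nat.lor X2 (bits [660, 536])) := VW.play 394 (PX [] [536,660]) (by decide +kernel) v5_2265

theorem r561 : S (Nat.lor X2 (bits [660, 561])) := VW.play 394 (PX [] [561,660]) (by decide +kernel) v5_2285

theorem r564 : S (Nat.lor X2 (bits [660, 564])) := VW.play 394 (PX [] [564,660]) (by decide +kernel) v5_1651

theorem r567 : S (Nat.lor X2 (bits [660, 567])) := VW.play 394 (PX [] [567,660]) (by decide +kernel) v5_2307

theorem r594 : S (Nat.lor X2 (bits [660, 594])) := VW.play 394 (PX [] [594,660]) (by decide +kernel) v5_2326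

theorem r596 : S (Nat.lor X2 (bits [660, 596])) := VW.play 394 (PX [] [596,660]) (by decide +kernel) v5_1950

theorem r598 : S (Nat.lor X2 (bits [660, 598])) := VW.play 394 (PX [] [598,660]) (by decide +kernel) v5_2349

theorem r627 : S (Nat.lor X2 (bits [660, 627])) := VW.play 394 (PX [] [627,660]) (by decide +kernel) v5_2356

theorem r628 : S (Nat.lor X2 (bits [660, 628])) := VW.play 394 (PX [] [628,660]) (by decide +kernel) v5_2236

theorem r629 : S (Nat.lor X2 (bits [660, 629])) := VW.play 394 (PX [] [629,660]) (by decide +kernel) v5_2376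

theorem r656 : S (Nat.lor X2 (bits [660, 656])) := VW.play 394 (PX [] [656,660]) (by decide +kernel) v5_2377

theorem r657 : S (Nat.lor X2 (bits [660, 657])) := VW.play 394 (PX [] [657,660]) (by decide +kernel) v5_2413

theorem r658 : S (Nat.lor X2 (bits [660, 658])) := VW.play 394 (PX [] [658,660]) (by decide +kernel) v5_2436

theorem r659 : S (Nat.lor X2 (bits [660, 659])) := VW.play 394 (PX [] [659,660]) (by decide +kernel) v5_2456

theorem r661 : S (Nat.lor X2 (bits [660, 661])) := VW.play 394 (PX [] [660,661]) (by decide +kernel) v5_2476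

theorem r662 : S (Nat.lor X2 (bits [660, 662])) := VW.play 394 (PX [] [660,662]) (by decide +kernel) v5_2480

theorem r663 : S (Nat.lor X2 (bits [660, 663])) := VW.play 394 (PX [] [660,663]) (by decide +kernel) v5_2481

theorem r664 : S (Nat.lor X2 (bits [660, 664])) := VW.play 394 (PX [] [660,664]) (by decide +kernel) v5_2482

theorem r691 : S (Nat.lor X2 (bits [660, 691])) := VW.play 394 (PX [] [660,691]) (by decide +kernel) v5_2502

theorem r692 : S (Nat.lor X2 (bits [660, 692])) := VW.play 394 (PX [] [660,692]) (by decide +kernel) v5_2522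

theorem r693 : S (Nat.lor X2 (bits [660, 693])) := VW.play 394 (PX [] [660,693]) (by decide +kernel) v5_2531

theorem r722 : S (Nat.lor X2 (bits [660, 722])) := VW.play 394 (PX [] [660,722]) (by decide +kernel) v5_2535

theorem r724 : S (Nat.lor X2 (bits [660, 724])) := VW.play 394 (PX [] [660,724]) (by decide +kernel) v5_2539

theorem r726 : S (Nat.lor X2 (bits [660, 726])) := VW.play 394 (PX [] [660,726]) (by decide +kernel) v5_2543

theorem r753 : S (Nat.lor X2 (bits [660, 753])) := VW.play 394 (PX [] [660,753]) (by decide +kernel) v5_2544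

theorem r756 : S (Nat.lor X2 (bits [660, 756])) := VW.play 394 (PX [] [660,756]) (by decide +kernel) v5_2545

theorem r759 : S (Nat.lor X2 (bits [660, 759])) := VW.play 394 (PX [] [660,759]) (by decide +kernel) v5_2546

theorem r784 : S (Nat.lor X2 (bits [660, 784])) := VW.play 394 (PX [] [660,784]) (by decide +kernel) v5_2547

theorem r788 : S (Nat.lor X2 (bits [660, 788])) := VW.play 394 (PX [] [660,788]) (by decide +kernel) v5_2548

theorem r792 : S (Nat.lor X2 (bits [660, 792])) := VW.play 394 (PX [] [660,792]) (by decide +kernel) v5_2549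

theorem all : RT X2 660 (528 :: 532 :: 536 :: 561 :: 564 :: 567 :: 594 :: 596 :: 598 :: 627 :: 628 :: 629 :: 656 :: 657 :: 658 :: 659 :: 661 :: 662 :: 663 :: 664 :: 691 :: 692 :: 693 :: 722 :: 724 :: 726 :: 753 :: 756 :: 759 :: 784 :: 788 :: 792 :: []) := ⟨r528, r532, r536, r561, r564, r567, r594, r596, r598, r627, r628, r629, r656, r657, r658, r659, r661, r662, r663, r664, r691, r692, r693, r722, r724, r726, r753, r756, r759, r784, r788, r792, trivial⟩

end Pool.Agent.H94.Five.Mid.K9_9_0
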