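import Pool.Agent.H94.Five.Mid.Ns
import Pool.Agent.H94.Five.Mid.Z0
import Pool.Agent.H94.Five.Mid.Z1
import Pool.Agent.H94.Five.Mid.Z2
import Pool.Agent.H94.Five.Mid.Z3
import Pool.Agent.H94.Five.Mid.Z4
import Pool.Agent.H94.Five.Mid.Z5
import Pool.Agent.H94.Five.Mid.Z6
import Pool.Agent.H94.Five.Mid.Z7
import Pool.Agent.H94.Five.Mid.Z8
import Pool.Agent.H94.Five.Mid.Z9
import Pool.Agent.H94.Five.Mid.Z10
import Pool.Agent.H94.Five.Mid.Z11
import Pool.Agent.H94.Five.Mid.Z12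
import Pool.Agent.H94.Five.Mid.Z13
import Pool.Agent.H94.Five.Mid.Z14
import Pool.Agent.H94.Five.Mid.Z15
import Pool.Agent.H94.Five.Mid.Z16
import Pool.Agent.H94.Five.Mid.Z17
import Pool.Agent.H94.Five.Mid.Z18
import Pool.Agent.H94.Five.Mid.Z19
import Pool.Agent.H94.Five.Mid.Z20
import Pool.Agent.H94.Five.Mid.Z21
import Pool.Agent.H94.Five.Mid.Z22
import Pool.Agent.H94.Five.Mid.K7_1_0
import Pool.Agent.H94.Five.Mid.K7_1_1
import Pool.Agent.H94.Five.Mid.K7_1_2
import Pool.Agent.H94.Five.Mid.K7_1_3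
import Pool.Agent.H94.Five.Mid.K7_1_4
import Pool.Agent.H94.Five.Mid.K8_1_0
import Pool.Agent.H94.Five.Mid.K8_1_1
import Pool.Agent.H94.Five.Mid.K9_1_0
import Pool.Agent.H94.Five.Mid.K10_1_0
import Pool.Agent.H94.Five.Mid.K7_2_0
import Pool.Agent.H94.Five.Mid.K7_2_1
import Pool.Agent.H94.Five.Mid.K7_2_2
import Pool.Agent.H94.Five.Mid.K7_2_3
import Pool.Agent.H94.Five.Mid.K7_2_4
import Pool.Agent.H94.Five.Mid.K7_2_5
import Pool.Agent.H94.Five.Mid.K8_2_0
import Pool.Agent.H94.Five.Mid.K8_2_1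
import Pool.Agent.H94.Five.Mid.K9_2_0
import Pool.Agent.H94.Five.Mid.K10_2_0
import Pool.Agent.H94.Five.Mid.K7_3_0
import Pool.Agent.H94.Five.Mid.K7_3_1
import Pool.Agent.H94.Five.Mid.K7_3_2
import Pool.Agent.H94.Five.Mid.K7_3_3
import Pool.Agent.H94.Five.Mid.K7_3_4
import Pool.Agent.H94.Five.Mid.K7_3_5
import Pool.Agent.H94.Five.Mid.K7_3_6
import Pool.Agent.H94.Five.Mid.K7_3_7
import Pool.Agent.H94.Five.Mid.K8_3_0
import Pool.Agent.H94.Five.Mid.K8_3_1
import Pool.Agent.H94.Five.Mid.K9_3_0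
import Pool.Agent.H94.Five.Mid.K10_3_0
import Pool.Agent.H94.Five.Mid.K7_4_0
import Pool.Agent.H94.Five.Mid.K7_4_1
import Pool.Agent.H94.Five.Mid.K7_4_2
import Pool.Agent.H94.Five.Mid.K7_4_3
import Pool.Agent.H94.Five.Mid.K8_4_0
import Pool.Agent.H94.Five.Mid.K8_4_1
import Pool.Agent.H94.Five.Mid.K9_4_0
import Pool.Agent.H94.Five.Mid.K10_4_0
import Pool.Agent.H94.Five.Mid.K7_5_0
import Pool.Agent.H94.Five.Mid.K7_5_1
import Pool.Agent.H94.Five.Mid.K7_5_2
import Pool.Agent.H94.Five.Mid.K7_5_3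
import Pool.Agent.H94.Five.Mid.K8_5_0
import Pool.Agent.H94.Five.Mid.K9_5_0
import Pool.Agent.H94.Five.Mid.K10_5_0
import Pool.Agent.H94.Five.Mid.K7_6_0
import Pool.Agent.H94.Five.Mid.K7_6_1
import Pool.Agent.H94.Five.Mid.K7_6_2
import Pool.Agent.H94.Five.Mid.K7_6_3
import Pool.Agent.H94.Five.Mid.K8_6_0
import Pool.Agent.H94.Five.Mid.K8_6_1
import Pool.Agent.H94.Five.Mid.K9_6_0
import Pool.Agent.H94.Five.Mid.K10_6_0
import Pool.Agent.H94.Five.Mid.K7_7_0
import Pool.Agent.H94.Five.Mid.K7_7_1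
import Pool.Agent.H94.Five.Mid.K7_7_2
import Pool.Agent.H94.Five.Mid.K8_7_0
import Pool.Agent.H94.Five.Mid.K9_7_0
import Pool.Agent.H94.Five.Mid.K10_7_0
import Pool.Agent.H94.Five.Mid.K8_8_0
import Pool.Agent.H94.Five.Mid.K9_8_0
import Pool.Agent.H94.Five.Mid.K10_8_0
import Pool.Agent.H94.Five.Mid.K9_9_0
import Pool.Agent.H94.Five.Mid.K10_9_0
import Pool.Agent.H94.Five.Mid.K10_10_0

set_option autoImplicit false
set_option linter.all false
set_option maxRecDepth 100000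

/-! The classes `6 ≤ dx ≤ 9`. -/

namespace Pool.Agent.H94.Five.Mid

open Pool.Agent.H79.Five Pool.Agent.H10.Five Pool.Agent.H94.Five.M

abbrev gz : List ZG := ((200, [z200_0, z200_1]) :: (206, [z206_0, z206_1, z206_2]) :: (232, [z232_0, z232_1, z232_2]) :: (233, [z233_0, z233_1]) :: (235, [z235_0, z235_1]) :: (237, [z237_0, z237_1]) :: (261, [z261_0, z261_1]) :: (264, [z264_0, z264_1, z264_2]) :: (265, [z265_0, z265_1]) :: (266, [z266_0, z266_1]) :: (267, [z267_0, z267_1]) :: (268, [z268_0, z268_1]) :: (269, [z269_0, z269_1, z269_2, z269_3]) :: (270, [z270_0, z270_1]) :: (273, [z273_0, z273_1, z273_2]) :: (293, [z293_0, z293_1]) :: (294, [z294_0, z294_1]) :: (295, [z295_0, z295_1]) :: (296, [z296_0, z296_1]) :: (297, [z297_0, z297_1]) :: (298, [z298_0]) :: (299, [z299_0, z299_1, z299_2]) :: (300, [z300_0, z300_1, z300_2]) :: (301, [z301_0, z301_1]) :: (302, [z302_0, z302_1, z302_2]) :: (303, [z303_0, z303_1]) :: (304,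 [z304_0, z304_1]) :: (326, [z326_0, z326_1]) :: (327, [z327_0, z327_1]) :: (328, [z328_0, z328_1]) :: (329, [z329_0, z329_1]) :: (330, [z330_0, z330_1]) :: (331, [z331_0]) :: (332, [z332_0, z332_1]) :: (333, [z333_0, z333_1]) :: (334, [z334_0, z334_1]) :: (335, [z335_0, z335_1]) :: (359, [z359_0, z359_1, z359_2]) :: (360, [z360_0, z360_1]) :: (361, [z361_0, z361_1]) :: (362, [z362_0, z362_1]) :: (364, [z364_0]) :: (365, [z365_0]) :: (366, [z366_0, z366_1]) :: (389, [z389_0, z389_1]) :: (390, [z390_0, z390_1]) :: (391, [z391_0, z391_1]) :: (392, [z392_0, z392_1, z392_2]) :: (393, [z393_0, z393_1]) :: (394, [z394_0, z394_1, z394_2, z394_3]) :: (395, [z395_0, z395_1]) :: (397, [z397_0, z397_1]) :: (398, [z398_0]) :: (400, [z400_0, z400_1]) :: (423, [z423_0, z423_1]) :: (424, [z424_0, z424_1, z424_2]) :: (425, [z425_0, z425_1]) :: (426, [z426_0, z426_1]) :: (427, [z427_0, z427_1]) :: (428, [z428_0]) :: (429, [z429_0]) :: (430,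 [z430_0, z430_1]) :: (431, [z431_0, z431_1]) :: (454, [z454_0, z454_1]) :: (455, [z455_0, z455_1, z455_2]) :: (456, [z456_0, z456_1]) :: (457, [z457_0, z457_1]) :: (458, [z458_0, z458_1]) :: (459, [z459_0, z459_1]) :: (460, [z460_0, z460_1, z460_2]) :: (461, [z461_0, z461_1, z461_2]) :: (462, [z462_0, z462_1]) :: (463, [z463_0, z463_1]) :: (485, [z485_0, z485_1]) :: (486, [z486_0, z486_1]) :: (487, [z487_0, z487_1, z487_2]) :: (488, [z488_0, z488_1]) :: (489, [z489_0, z489_1]) :: (490, [z490_0, z490_1]) :: (491, [z491_0, z491_1, z491_2]) :: (492, [z492_0, z492_1]) :: (493, [z493_0, z493_1]) :: (518, [z518_0, z518_1]) :: (520, [z520_0, z520_1, z520_2]) :: (521, [z521_0, z521_1]) :: (523, [z523_0, z523_1, z523_2]) :: (524, [z524_0, z524_1]) :: (525, [z525_0, z525_1]) :: (549, [z549_0, z549_1, z549_2]) :: [])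

theorem gz_ok : AZG X2 gz := .cons ⟨z200_0k, z200_1k, trivial⟩ <| .cons ⟨z206_0k, z206_1k, z206_2k, trivial⟩ <| .cons ⟨z232_0k, z232_1k, z232_2k, trivial⟩ <| .cons ⟨z233_0k, z233_1k, trivial⟩ <| .cons ⟨z235_0k, z235_1k, trivial⟩ <| .cons ⟨z237_0k, z237_1k, trivial⟩ <| .cons ⟨z261_0k, z261_1k, trivial⟩ <| .cons ⟨z264_0k, z264_1k, z264_2k, trivial⟩ <| .cons ⟨z265_0k, z265_1k, trivial⟩ <| .cons ⟨z266_0k, z266_1k, trivial⟩ <| .cons ⟨z267_0k, z267_1k, trivial⟩ <| .cons ⟨z268_0k, z268_1k, trivial⟩ <| .cons ⟨z269_0k, z269_1k, z269_2k, z269_3k, trivial⟩ <| .cons ⟨z270_0k, z270_1k, trivial⟩ <| .cons ⟨z273_0k, z273_1k, z273_2k, trivial⟩ <| .cons ⟨z293_0k, z293_1k, trivial⟩ <| .cons ⟨z294_0k, z294_1k, trivial⟩ <| .cons ⟨z295_0k, z295_1k, trivial⟩ <| .cons ⟨z296_0k, z296_1k, trivial⟩ <| .cons ⟨z297_0k, z297_1k, trivial⟩ <| .cons ⟨z298_0k, trivial⟩ <| .cons ⟨z299_0k, z299_1k, z299_2k, trivial⟩ <| .cons ⟨z300_0k, z300_1k, z300_2k,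 trivial⟩ <| .cons ⟨z301_0k, z301_1k, trivial⟩ <| .cons ⟨z302_0k, z302_1k, z302_2k, trivial⟩ <| .cons ⟨z303_0k, z303_1k, trivial⟩ <| .cons ⟨z304_0k, z304_1k, trivial⟩ <| .cons ⟨z326_0k, z326_1k, trivial⟩ <| .cons ⟨z327_0k, z327_1k, trivial⟩ <| .cons ⟨z328_0k, z328_1k, trivial⟩ <| .cons ⟨z329_0k, z329_1k, trivial⟩ <| .cons ⟨z330_0k, z330_1k, trivial⟩ <| .cons ⟨z331_0k, trivial⟩ <| .cons ⟨z332_0k, z332_1k, trivial⟩ <| .cons ⟨z333_0k, z333_1k, trivial⟩ <| .cons ⟨z334_0k, z334_1k, trivial⟩ <| .cons ⟨z335_0k, z335_1k, trivial⟩ <| .cons ⟨z359_0k, z359_1k, z359_2k, trivial⟩ <| .cons ⟨z360_0k, z360_1k, trivial⟩ <| .cons ⟨z361_0k, z361_1k, trivial⟩ <| .cons ⟨z362_0k, z362_1k, trivial⟩ <| .cons ⟨z364_0k, trivial⟩ <| .cons ⟨z365_0k, trivial⟩ <| .cons ⟨z366_0k, z366_1k, trivial⟩ <| .cons ⟨z389_0k, z389_1k, trivial⟩ <| .cons ⟨z390_0k, z390_1k, trivial⟩ <| .cons ⟨z391_0k, z391_1k, trivial⟩ <| .cons ⟨z392_0k, z392_1k, z392_2k, trivial⟩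 <| .cons ⟨z393_0k, z393_1k, trivial⟩ <| .cons ⟨z394_0k, z394_1k, z394_2k, z394_3k, trivial⟩ <| .cons ⟨z395_0k, z395_1k, trivial⟩ <| .cons ⟨z397_0k, z397_1k, trivial⟩ <| .cons ⟨z398_0k, trivial⟩ <| .cons ⟨z400_0k, z400_1k, trivial⟩ <| .cons ⟨z423_0k, z423_1k, trivial⟩ <| .cons ⟨z424_0k, z424_1k, z424_2k, trivial⟩ <| .cons ⟨z425_0k, z425_1k, trivial⟩ <| .cons ⟨z426_0k, z426_1k, trivial⟩ <| .cons ⟨z427_0k, z427_1k, trivial⟩ <| .cons ⟨z428_0k, trivial⟩ <| .cons ⟨z429_0k, trivial⟩ <| .cons ⟨z430_0k, z430_1k, trivial⟩ <| .cons ⟨z431_0k, z431_1k, trivial⟩ <| .cons ⟨z454_0k, z454_1k, trivial⟩ <| .cons ⟨z455_0k, z455_1k, z455_2k, trivial⟩ <| .cons ⟨z456_0k, z456_1k, trivial⟩ <| .cons ⟨z457_0k, z457_1k, trivial⟩ <| .cons ⟨z458_0k, z458_1k, trivial⟩ <| .cons ⟨z459_0k, z459_1k, trivial⟩ <| .cons ⟨z460_0k, z460_1k, z460_2k, trivial⟩ <| .cons ⟨z461_0k, z461_1k, z461_2k, trivial⟩ <| .cons ⟨z462_0k, z462_1k, trivial⟩ <| .cons ⟨z463_0k,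 z463_1k, trivial⟩ <| .cons ⟨z485_0k, z485_1k, trivial⟩ <| .cons ⟨z486_0k, z486_1k, trivial⟩ <| .cons ⟨z487_0k, z487_1k, z487_2k, trivial⟩ <| .cons ⟨z488_0k, z488_1k, trivial⟩ <| .cons ⟨z489_0k, z489_1k, trivial⟩ <| .cons ⟨z490_0k, z490_1k, trivial⟩ <| .cons ⟨z491_0k, z491_1k, z491_2k, trivial⟩ <| .cons ⟨z492_0k, z492_1k, trivial⟩ <| .cons ⟨z493_0k, z493_1k, trivial⟩ <| .cons ⟨z518_0k, z518_1k, trivial⟩ <| .cons ⟨z520_0k, z520_1k, z520_2k, trivial⟩ <| .cons ⟨z521_0k, z521_1k, trivial⟩ <| .cons ⟨z523_0k, z523_1k, z523_2k, trivial⟩ <| .cons ⟨z524_0k, z524_1k, trivial⟩ <| .cons ⟨z525_0k, z525_1k, trivial⟩ <| .cons ⟨z549_0k, z549_1k, z549_2k, trivial⟩ <| .nil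

theorem gz_f : allf X2 gz = true := by decide +kernel

theorem hM0 : cells M0 = insert (cl 394) {cl 363, cl 396} := cellsM0

theorem c402 : ∃ n, W n {cl 396} {cl 402} :=
  cls (f1 := cl 396) (f2 := cl 363) (f3 := 394) (by decide +kernel) repX2 (by decide +kernel) hM0 ns (by decide +kernel) gz_ok gz_f
    (((((K7_1_0.all).append K7_1_1.all).append K7_1_2.all).append K7_1_3.all).append K7_1_4.all) (by decide +kernel)

theorem c403 : ∃ n, W n {cl 396} {cl 403} :=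
  cls (f1 := cl 396) (f2 := cl 363) (f3 := 394) (by decide +kernel) repX2 (by decide +kernel) hM0 ns (by decide +kernel) gz_ok gz_f
    ((K8_1_0.all).append K8_1_1.all) (by decide +kernel)

theorem c404 : ∃ n, W n {cl 396} {cl 404} :=
  cls (f1 := cl 396) (f2 := cl 363) (f3 := 394) (by decide +kernel) repX2 (by decide +kernel) hM0 ns (by decide +kernel) gz_ok gz_f
    (K9_1_0.all) (by decide +kernel)

theorem c405 : ∃ n, W n {cl 396} {cl 405} :=
  cls (f1 := cl 396) (f2 := cl 363) (f3 := 394) (by decide +kernel) repX2 (by decide +kernel) hM0 ns (by decide +kernel) gz_ok gz_f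
    (K10_1_0.all) (by decide +kernel)

theorem c434 : ∃ n, W n {cl 396} {cl 434} :=
  cls (f1 := cl 396) (f2 := cl 363) (f3 := 394) (by decide +kernel) repX2 (by decide +kernel) hM0 ns (by decide +kernel) gz_ok gz_f
    ((((((K7_2_0.all).append K7_2_1.all).append K7_2_2.all).append K7_2_3.all).append K7_2_4.all).append K7_2_5.all) (by decide +kernel)

theorem c435 : ∃ n, W n {cl 396} {cl 435} :=
  cls (f1 := cl 396) (f2 := cl 363) (f3 := 394) (by decide +kernel) repX2 (by decide +kernel) hM0 ns (by decide +kernel) gz_ok gz_f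
    ((K8_2_0.all).append K8_2_1.all) (by decide +kernel)

theorem c436 : ∃ n, W n {cl 396} {cl 436} :=
  cls (f1 := cl 396) (f2 := cl 363) (f3 := 394) (by decide +kernel) repX2 (by decide +kernel) hM0 ns (by decide +kernel) gz_ok gz_f
    (K9_2_0.all) (by decide +kernel)

theorem c437 : ∃ n, W n {cl 396} {cl 437} :=
  cls (f1 := cl 396) (f2 := cl 363) (f3 := 394) (by decide +kernel) repX2 (by decide +kernel) hM0 ns (by decide +kernel) gz_ok gz_f
    (K10_2_0.all) (by decide +kernel)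

theorem c466 : ∃ n, W n {cl 396} {cl 466} :=
  cls (f1 := cl 396) (f2 := cl 363) (f3 := 394) (by decide +kernel) repX2 (by decide +kernel) hM0 ns (by decide +kernel) gz_ok gz_f
    ((((((((K7_3_0.all).append K7_3_1.all).append K7_3_2.all).append K7_3_3.all).append K7_3_4.all).append K7_3_5.all).append K7_3_6.all).append K7_3_7.all) (by decide +kernel)

theorem c467 : ∃ n, W n {cl 396} {cl 467} :=
  cls (f1 := cl 396) (f2 := cl 363) (f3 := 394) (by decide +kernel) repX2 (by decide +kernel) hM0 ns (by decide +kernel) gz_ok gz_f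
    ((K8_3_0.all).append K8_3_1.all) (by decide +kernel)

theorem c468 : ∃ n, W n {cl 396} {cl 468} :=
  cls (f1 := cl 396) (f2 := cl 363) (f3 := 394) (by decide +kernel) repX2 (by decide +kernel) hM0 ns (by decide +kernel) gz_ok gz_f
    (K9_3_0.all) (by decide +kernel)

theorem c469 : ∃ n, W n {cl 396} {cl 469} :=
  cls (f1 := cl 396) (f2 := cl 363) (f3 := 394) (by decide +kernel) repX2 (by decide +kernel) hM0 ns (by decide +kernel) gz_ok gz_f
    (K10_3_0.all) (by decide +kernel)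

theorem c498 : ∃ n, W n {cl 396} {cl 498} :=
  cls (f1 := cl 396) (f2 := cl 363) (f3 := 394) (by decide +kernel) repX2 (by decide +kernel) hM0 ns (by decide +kernel) gz_ok gz_f
    ((((K7_4_0.all).append K7_4_1.all).append K7_4_2.all).append K7_4_3.all) (by decide +kernel)

theorem c499 : ∃ n, W n {cl 396} {cl 499} :=
  cls (f1 := cl 396) (f2 := cl 363) (f3 := 394) (by decide +kernel) repX2 (by decide +kernel) hM0 ns (by decide +kernel) gz_ok gz_f
    ((K8_4_0.all).append K8_4_1.all) (by decide +kernel)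

theorem c500 : ∃ n, W n {cl 396} {cl 500} :=
  cls (f1 := cl 396) (f2 := cl 363) (f3 := 394) (by decide +kernel) repX2 (by decide +kernel) hM0 ns (by decide +kernel) gz_ok gz_f
    (K9_4_0.all) (by decide +kernel)

theorem c501 : ∃ n, W n {cl 396} {cl 501} :=
  cls (f1 := cl 396) (f2 := cl 363) (f3 := 394) (by decide +kernel) repX2 (by decide +kernel) hM0 ns (by decide +kernel) gz_ok gz_f
    (K10_4_0.all) (by decide +kernel)

theorem c530 : ∃ n, W n {cl 396} {cl 530} :=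
  cls (f1 := cl 396) (f2 := cl 363) (f3 := 394) (by decide +kernel) repX2 (by decide +kernel) hM0 ns (by decide +kernel) gz_ok gz_f
    ((((K7_5_0.all).append K7_5_1.all).append K7_5_2.all).append K7_5_3.all) (by decide +kernel)

theorem c531 : ∃ n, W n {cl 396} {cl 531} :=
  cls (f1 := cl 396) (f2 := cl 363) (f3 := 394) (by decide +kernel) repX2 (by decide +kernel) hM0 ns (by decide +kernel) gz_ok gz_f
    (K8_5_0.all) (by decide +kernel)

theorem c532 : ∃ n, W n {cl 396} {cl 532} :=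
  cls (f1 := cl 396) (f2 := cl 363) (f3 := 394) (by decide +kernel) repX2 (by decide +kernel) hM0 ns (by decide +kernel) gz_ok gz_f
    (K9_5_0.all) (by decide +kernel)

theorem c533 : ∃ n, W n {cl 396} {cl 533} :=
  cls (f1 := cl 396) (f2 := cl 363) (f3 := 394) (by decide +kernel) repX2 (by decide +kernel) hM0 ns (by decide +kernel) gz_ok gz_f
    (K10_5_0.all) (by decide +kernel)

theorem c562 : ∃ n, W n {cl 396} {cl 562} :=
  cls (f1 := cl 396) (f2 := cl 363) (f3 := 394) (by decide +kernel) repX2 (by decide +kernel) hM0 ns (by decide +kernel) gz_ok gz_f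
    ((((K7_6_0.all).append K7_6_1.all).append K7_6_2.all).append K7_6_3.all) (by decide +kernel)

theorem c563 : ∃ n, W n {cl 396} {cl 563} :=
  cls (f1 := cl 396) (f2 := cl 363) (f3 := 394) (by decide +kernel) repX2 (by decide +kernel) hM0 ns (by decide +kernel) gz_ok gz_f
    ((K8_6_0.all).append K8_6_1.all) (by decide +kernel)

theorem c564 : ∃ n, W n {cl 396} {cl 564} :=
  cls (f1 := cl 396) (f2 := cl 363) (f3 := 394) (by decide +kernel) repX2 (by decide +kernel) hM0 ns (by decide +kernel) gz_ok gz_f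
    (K9_6_0.all) (by decide +kernel)

theorem c565 : ∃ n, W n {cl 396} {cl 565} :=
  cls (f1 := cl 396) (f2 := cl 363) (f3 := 394) (by decide +kernel) repX2 (by decide +kernel) hM0 ns (by decide +kernel) gz_ok gz_f
    (K10_6_0.all) (by decide +kernel)

theorem c594 : ∃ n, W n {cl 396} {cl 594} :=
  cls (f1 := cl 396) (f2 := cl 363) (f3 := 394) (by decide +kernel) repX2 (by decide +kernel) hM0 ns (by decide +kernel) gz_ok gz_f
    (((K7_7_0.all).append K7_7_1.all).append K7_7_2.all) (by decide +kernel)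

theorem c595 : ∃ n, W n {cl 396} {cl 595} :=
  cls (f1 := cl 396) (f2 := cl 363) (f3 := 394) (by decide +kernel) repX2 (by decide +kernel) hM0 ns (by decide +kernel) gz_ok gz_f
    (K8_7_0.all) (by decide +kernel)

theorem c596 : ∃ n, W n {cl 396} {cl 596} :=
  cls (f1 := cl 396) (f2 := cl 363) (f3 := 394) (by decide +kernel) repX2 (by decide +kernel) hM0 ns (by decide +kernel) gz_ok gz_f
    (K9_7_0.all) (by decide +kernel)

theorem c597 : ∃ n, W n {cl 396} {cl 597} :=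
  cls (f1 := cl 396) (f2 := cl 363) (f3 := 394) (by decide +kernel) repX2 (by decide +kernel) hM0 ns (by decide +kernel) gz_ok gz_f
    (K10_7_0.all) (by decide +kernel)

theorem c627 : ∃ n, W n {cl 396} {cl 627} :=
  cls (f1 := cl 396) (f2 := cl 363) (f3 := 394) (by decide +kernel) repX2 (by decide +kernel) hM0 ns (by decide +kernel) gz_ok gz_f
    (K8_8_0.all) (by decide +kernel)

theorem c628 : ∃ n, W n {cl 396} {cl 628} :=
  cls (f1 := cl 396) (f2 := cl 363) (f3 := 394) (by decide +kernel) repX2 (by decide +kernel) hM0 ns (by decide +kernel) gz_ok gz_f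
    (K9_8_0.all) (by decide +kernel)

theorem c629 : ∃ n, W n {cl 396} {cl 629} :=
  cls (f1 := cl 396) (f2 := cl 363) (f3 := 394) (by decide +kernel) repX2 (by decide +kernel) hM0 ns (by decide +kernel) gz_ok gz_f
    (K10_8_0.all) (by decide +kernel)

theorem c660 : ∃ n, W n {cl 396} {cl 660} :=
  cls (f1 := cl 396) (f2 := cl 363) (f3 := 394) (by decide +kernel) repX2 (by decide +kernel) hM0 ns (by decide +kernel) gz_ok gz_f
    (K9_9_0.all) (by decide +kernel)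

theorem c661 : ∃ n, W n {cl 396} {cl 661} :=
  cls (f1 := cl 396) (f2 := cl 363) (f3 := 394) (by decide +kernel) repX2 (by decide +kernel) hM0 ns (by decide +kernel) gz_ok gz_f
    (K10_9_0.all) (by decide +kernel)

theorem c693 : ∃ n, W n {cl 396} {cl 693} :=
  cls (f1 := cl 396) (f2 := cl 363) (f3 := 394) (by decide +kernel) repX2 (by decide +kernel) hM0 ns (by decide +kernel) gz_ok gz_f
    (K10_10_0.all) (by decide +kernel)

/-- First wins against all these first stones. -/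
def CL (f : Cell) : List ℕ → Prop
  | [] => True
  | a :: l => (∃ n, W n {f} {cl a}) ∧ CL f l

theorem CL.get {f : Cell} {l : List ℕ} (h : CL f l) : ∃ n, ∀ a ∈ l, W n {f} {cl a} := by
  induction l with
  | nil => exact ⟨0, fun a ha => absurd ha (by simp)⟩
  | cons a l ih =>
    obtain ⟨n, hn⟩ := ih h.2
    obtain ⟨n', hn'⟩ := h.1
    refine ⟨max n n', fun x hx => ?_⟩
    rcases List.mem_cons.1 hx with rfl | hx
    · exact hn'.le (le_max_right _ _)
    · exact (hn x hx).le (le_max_left _ _)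

def as : List ℕ := (402 :: 403 :: 404 :: 405 :: 434 :: 435 :: 436 :: 437 :: 466 :: 467 :: 468 :: 469 :: 498 :: 499 :: 500 :: 501 :: 530 :: 531 :: 532 :: 533 :: 562 :: 563 :: 564 :: 565 :: 594 :: 595 :: 596 :: 597 :: 627 :: 628 :: 629 :: 660 :: 661 :: 693 :: [])

theorem as_ok : CL (cl 396) as := ⟨c402, c403, c404, c405, c434, c435, c436, c437, c466, c467, c468, c469, c498, c499, c500, c501, c530, c531, c532, c533, c562, c563, c564, c565, c594, c595, c596, c597, c627, c628, c629, c660, c661, c693, trivial⟩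

theorem key (x y : ℤ) (h1 : 6 ≤ x) (h2 : x ≤ 9) (h3 : 0 ≤ y) (h4 : y ≤ x) : ∃ a ∈ as, cl 396 + (x, y) = cl a := by
  interval_cases x <;> interval_cases y <;> decide

/-- **Second's first stone is six to nine columns to the right**: First wins. -/
theorem mid_S1 : ∃ n, ∀ d : Cell, 6 ≤ d.1 → d.1 ≤ 9 → 0 ≤ d.2 → d.2 ≤ d.1 → W n {((0 : ℤ), (0 : ℤ))} {d} := by
  obtain ⟨n, hn⟩ := as_ok.get
  refine ⟨n, fun d h1 h2 h3 h4 => W.origin (c := cl 396) ?_⟩
  obtain ⟨a, ha, he⟩ := key d.1 d.2 h1 h2 h3 h4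
  have h5 : cl 396 + d = cl a := he
  rw [h5]
  exact hn a ha

end Pool.Agent.H94.Five.Mid
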